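import Pool.Agent.Helper65.Barb.Defs

/-!
# Project BI (MP_8e98f2_gt): collected modules, part 01

The contents of the modules
* Helper65.Barb.Iso
* Helper65.Barb.Imp
* Helper65.Barb.Model
* Helper65.Barb.Bar
* Helper65.Barb.Bar2
* Helper65.Barb.Act
* Helper65.Barb.Kill
* Helper65.Barb.Main0
* Helper18.BI.Defs
* Helper18.BI.StA
* Helper27.BI.ChDefs
* Helper18.BI.StF

in one file, so that the whole proof builds in a short time.
-/

/-! ## Helper65.Barb.Iso -/

section

/-!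
# Smooth families of diffeomorphisms and smooth isotopy
-/

set_option autoImplicit false

open scoped Manifold ContDiff Topology
open Set

namespace Pool.Agent.Helper65.Barb

section
variable {E : Type*} [NormedAddCommGroup E] [NormedSpace ℝ E] {H : Type*} [TopologicalSpace H]
  {I : ModelWithCorners ℝ E H} {M : Type*} [TopologicalSpace M] [ChartedSpace H M]

/-- `φ` and `ψ` are diffeomorphisms of `M` joined by a smooth isotopy. -/
def SmoothlyIsotopic (I : ModelWithCorners ℝ E H) (M : Type*) [TopologicalSpace M]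
    [ChartedSpace H M] (φ ψ : M → M) : Prop :=
  ∃ F : ℝ × M → M, ContMDiff (𝓘(ℝ, ℝ).prod I) I ∞ F ∧
    (∀ t, ∃ d : M ≃ₘ⟮I, I⟯ M, ∀ x, d x = F (t, x)) ∧
    (∀ x, F (0, x) = φ x) ∧ ∀ x, F (1, x) = ψ x

namespace DFam

/-- a member of the family as a diffeomorphism -/
noncomputable def diffeo (F : DFam I M) (t : ℝ) : M ≃ₘ⟮I, I⟯ M where
  toFun x := F.f (t, x)
  invFun x := F.g (t, x)
  left_inv x := F.gf t x
  right_inv x := F.fg t x
  contMDiff_toFun := F.smooth_f.comp (contMDiff_const.prodMk contMDiff_id)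
  contMDiff_invFun := F.smooth_g.comp (contMDiff_const.prodMk contMDiff_id)

@[simp] theorem diffeo_apply (F : DFam I M) (t : ℝ) (x : M) : F.diffeo t x = F.f (t, x) := rfl

/-- inverse family -/
def inv (F : DFam I M) : DFam I M where
  f := F.g
  g := F.f
  smooth_f := F.smooth_g
  smooth_g := F.smooth_f
  fg := F.gf
  gf := F.fg

/-- composition of families -/
def comp (F G : DFam I M) : DFam I M where
  f p := F.f (p.1, G.f (p.1, p.2))
  g p := G.g (p.1, F.g (p.1, p.2))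
  smooth_f := F.smooth_f.comp (contMDiff_fst.prodMk G.smooth_f)
  smooth_g := G.smooth_g.comp (contMDiff_fst.prodMk F.smooth_g)
  fg t x := by simp [F.fg, G.fg]
  gf t x := by simp [F.gf, G.gf]

/-- smooth reparametrization of time -/
def reparam (F : DFam I M) (τ : ℝ → ℝ) (hτ : ContDiff ℝ ∞ τ) : DFam I M where
  f p := F.f (τ p.1, p.2)
  g p := F.g (τ p.1, p.2)
  smooth_f := F.smooth_f.comp ((hτ.contMDiff.comp contMDiff_fst).prodMk contMDiff_snd)
  smooth_g := F.smooth_g.comp ((hτ.contMDiff.comp contMDiff_fst).prodMk contMDiff_snd)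
  fg _ x := F.fg _ x
  gf _ x := F.gf _ x

/-- freeze the time -/
def freeze (F : DFam I M) (t₀ : ℝ) : DFam I M := F.reparam (fun _ => t₀) contDiff_const

/-- the constant identity family -/
def one : DFam I M where
  f p := p.2
  g p := p.2
  smooth_f := contMDiff_snd
  smooth_g := contMDiff_snd
  fg _ _ := rfl
  gf _ _ := rfl

end DFam

theorem Isot.smoothlyIsotopic {φ ψ : M → M} (h : Isot I φ ψ) : SmoothlyIsotopic I M φ ψ := by
  obtain ⟨F, h0, h1⟩ := h
  exact ⟨F.f, F.smooth_f, fun t => ⟨F.diffeo t, fun x => rfl⟩, h0, h1⟩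

theorem Isot.one : Isot I (fun x : M => x) (fun x => x) :=
  ⟨DFam.one, fun _ => rfl, fun _ => rfl⟩

theorem Isot.symm {φ ψ : M → M} (h : Isot I φ ψ) : Isot I ψ φ := by
  obtain ⟨F, h0, h1⟩ := h
  refine ⟨F.reparam (fun t => 1 - t) (contDiff_const.sub contDiff_id), ?_, ?_⟩
  · intro x; simp [DFam.reparam, h1]
  · intro x; simp [DFam.reparam, h0]

theorem Isot.comp {φ ψ φ' ψ' : M → M} (h : Isot I φ ψ) (h' : Isot I φ' ψ') :
    Isot I (fun x => φ (φ' x)) (fun x => ψ (ψ' x)) := by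
  obtain ⟨F, h0, h1⟩ := h
  obtain ⟨F', h0', h1'⟩ := h'
  refine ⟨F.comp F', ?_, ?_⟩
  · intro x; simp [DFam.comp, h0, h0']
  · intro x; simp [DFam.comp, h1, h1']

theorem Isot.inv {φ ψ φ' ψ' : M → M} (h : Isot I φ ψ) (hφ : ∀ x, φ (φ' x) = x)
    (hψ : ∀ x, ψ (ψ' x) = x) : Isot I φ' ψ' := by
  obtain ⟨F, h0, h1⟩ := h
  refine ⟨F.inv, ?_, ?_⟩
  · intro x
    have := F.gf 0 (φ' x)
    rw [h0, hφ] at this
    exact this
  · intro x
    have := F.gf 1 (ψ' x)
    rw [h1, hψ] at this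
    exact this

theorem Isot.trans {φ ψ χ : M → M} (h : Isot I φ ψ) (h' : Isot I ψ χ) : Isot I φ χ := by
  obtain ⟨F, h0, h1⟩ := h
  obtain ⟨G, g0, g1⟩ := h'
  -- `G_t ∘ ψ⁻¹ ∘ F_t`
  refine ⟨G.comp ((F.freeze 1).inv.comp F), ?_, ?_⟩
  · intro x
    have e1 : G.f (0, F.g (1, F.f (0, x))) = F.f (1, F.g (1, F.f (0, x))) := by
      rw [g0, h1]
    simp only [DFam.comp, DFam.freeze, DFam.reparam, DFam.inv]
    rw [e1, F.fg, h0]
  · intro x
    simp only [DFam.comp, DFam.freeze, DFam.reparam, DFam.inv]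
    rw [F.gf, g1]

/-- `φ` is a diffeomorphism -/
def IsDiffeo (I : ModelWithCorners ℝ E H) (φ : M → M) : Prop := Isot I φ φ

theorem Isot.left {φ ψ : M → M} (h : Isot I φ ψ) : IsDiffeo I φ := h.trans h.symm

theorem Isot.right {φ ψ : M → M} (h : Isot I φ ψ) : IsDiffeo I ψ := h.symm.trans h

theorem IsDiffeo.exists_inv {φ : M → M} (h : IsDiffeo I φ) :
    ∃ φ' : M → M, IsDiffeo I φ' ∧ (∀ x, φ (φ' x) = x) ∧ ∀ x, φ' (φ x) = x := by
  obtain ⟨F, h0, h1⟩ := h
  refine ⟨fun x => F.g (0, x), ⟨F.inv.freeze 0, fun x => rfl, fun x => rfl⟩, ?_, ?_⟩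
  · intro x
    have := F.fg 0 x
    rwa [h0] at this
  · intro x
    have := F.gf 0 x
    rwa [h0] at this

theorem IsDiffeo.of_diffeomorph (d : M ≃ₘ⟮I, I⟯ M) : IsDiffeo I (fun x => d x) := by
  refine ⟨⟨fun p => d p.2, fun p => d.symm p.2, d.contMDiff.comp contMDiff_snd,
    d.symm.contMDiff.comp contMDiff_snd, ?_, ?_⟩, fun x => rfl, fun x => rfl⟩
  · intro t x; simp
  · intro t x; simp

end

end Pool.Agent.Helper65.Barb


end

/-! ## Helper65.Barb.Imp -/

section

/-!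
# Pushing forward compactly supported families of diffeomorphisms by open embeddings
-/

set_option autoImplicit false

open scoped Manifold ContDiff Topology
open Set

set_option linter.unusedSectionVars false
set_option linter.unusedVariables false

namespace Pool.Agent.Helper65.Barb

section
variable {E : Type*} [NormedAddCommGroup E] [NormedSpace ℝ E] {H : Type*} [TopologicalSpace H]
  {I : ModelWithCorners ℝ E H} {M : Type*} [TopologicalSpace M] [ChartedSpace H M] [T2Space M]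
  {V : Type*} [NormedAddCommGroup V] [NormedSpace ℝ V]

/-- the push-forward of `T` by the open embedding `δ`, extended by the identity -/
noncomputable def push (δ : PartialDiffeomorph 𝓘(ℝ, V) I V M ∞) (T : V → V) (y : M) : M :=
  open Classical in if y ∈ δ.target then δ (T (δ.toPartialEquiv.symm y)) else y

theorem push_of_mem (δ : PartialDiffeomorph 𝓘(ℝ, V) I V M ∞) (T : V → V) {x : V}
    (hx : x ∈ δ.source) : push δ T (δ x) = δ (T x) := by
  have h1 : δ x ∈ δ.target := δ.toPartialEquiv.map_source hx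
  have h2 : δ.toPartialEquiv.symm (δ x) = x := δ.toPartialEquiv.left_inv hx
  rw [push, if_pos h1, h2]

theorem push_of_notMem (δ : PartialDiffeomorph 𝓘(ℝ, V) I V M ∞) (T : V → V) {K : Set V}
    (hK : K ⊆ δ.source) (hT : ∀ x, x ∉ K → T x = x) {y : M} (hy : y ∉ δ '' K) :
    push δ T y = y := by
  rw [push]
  split_ifs with h
  · have h3 : δ (δ.toPartialEquiv.symm y) = y := δ.toPartialEquiv.right_inv h
    have h2 : δ.toPartialEquiv.symm y ∉ K := by
      intro h4
      exact hy ⟨_, h4, h3⟩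
    rw [hT _ h2, h3]
  · rfl

theorem isOpen_compl_image (δ : PartialDiffeomorph 𝓘(ℝ, V) I V M ∞) {K : Set V}
    (hKc : IsCompact K) (hK : K ⊆ δ.source) : IsOpen (δ '' K)ᶜ := by
  have h := hKc.image_of_continuousOn (δ.contMDiffOn.continuousOn.mono hK)
  exact h.isClosed.isOpen_compl

theorem isOpen_image (δ : PartialDiffeomorph 𝓘(ℝ, V) I V M ∞) {U : Set V}
    (hU : IsOpen U) (hUs : U ⊆ δ.source) : IsOpen (δ '' U) :=
  δ.toOpenPartialHomeomorph.isOpen_image_of_subset_source hU hUs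

theorem contMDiff_push (δ : PartialDiffeomorph 𝓘(ℝ, V) I V M ∞) {T : ℝ × V → V}
    (hTs : ContMDiff (𝓘(ℝ, ℝ).prod 𝓘(ℝ, V)) 𝓘(ℝ, V) ∞ T)
    {K : Set V} (hKc : IsCompact K) (hK : K ⊆ δ.source) (hT : ∀ t x, x ∉ K → T (t, x) = x)
    (hmap : ∀ t, ∀ x ∈ δ.source, T (t, x) ∈ δ.source) :
    ContMDiff (𝓘(ℝ, ℝ).prod I) I ∞ (fun p : ℝ × M => push δ (fun x => T (p.1, x)) p.2) := by
  intro p
  by_cases hp : p.2 ∈ δ.target
  · -- on the open set `ℝ × target`
    have hopen : IsOpen {q : ℝ × M | q.2 ∈ δ.target} := δ.open_target.preimage continuous_snd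
    have h1 : ContMDiffOn (𝓘(ℝ, ℝ).prod I) I ∞
        (fun q : ℝ × M => δ (T (q.1, δ.toPartialEquiv.symm q.2))) {q : ℝ × M | q.2 ∈ δ.target} := by
      have h2 : ContMDiffOn (𝓘(ℝ, ℝ).prod I) 𝓘(ℝ, V) ∞
          (fun q : ℝ × M => T (q.1, δ.toPartialEquiv.symm q.2))
          {q : ℝ × M | q.2 ∈ δ.target} := by
        apply hTs.comp_contMDiffOn
        apply ContMDiffOn.prodMk contMDiffOn_fst
        exact δ.contMDiffOn_invFun.comp contMDiffOn_snd (fun q hq => hq)
      exact δ.contMDiffOn_toFun.comp h2 (fun q hq => hmap _ _ (δ.toPartialEquiv.map_target hq))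
    have h3 := h1.contMDiffAt (hopen.mem_nhds hp)
    apply h3.congr_of_eventuallyEq
    filter_upwards [hopen.mem_nhds hp] with q hq
    rw [push, if_pos hq]
  · have hy : p.2 ∉ δ '' K := by
      rintro ⟨x, hx, hxy⟩
      apply hp
      rw [← hxy]
      exact δ.toPartialEquiv.map_source (hK hx)
    have hopen : IsOpen {q : ℝ × M | q.2 ∈ (δ '' K)ᶜ} :=
      (isOpen_compl_image δ hKc hK).preimage continuous_snd
    have h3 : ContMDiffAt (𝓘(ℝ, ℝ).prod I) I ∞ (fun q : ℝ × M => q.2) p :=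
      contMDiff_snd.contMDiffAt
    apply h3.congr_of_eventuallyEq
    filter_upwards [hopen.mem_nhds hy] with q hq
    exact push_of_notMem δ _ hK (fun x hx => hT q.1 x hx) hq

/-- A family with support in `K` maps `K` into `K`. -/
theorem DFam.mapsTo (T : DFam 𝓘(ℝ, V) V) {K : Set V} (hT : ∀ t x, x ∉ K → T.f (t, x) = x)
    (t : ℝ) {x : V} (hx : x ∈ K) : T.f (t, x) ∈ K := by
  by_contra h
  have h1 := hT t _ h
  have h2 := congrArg (fun z => T.g (t, z)) h1
  simp only [T.gf] at h2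
  rw [h2] at h
  exact h hx

theorem DFam.support_inv (T : DFam 𝓘(ℝ, V) V) {K : Set V} (hT : ∀ t x, x ∉ K → T.f (t, x) = x)
    (t : ℝ) {x : V} (hx : x ∉ K) : T.g (t, x) = x := by
  have h1 := T.gf t x
  rwa [hT t x hx] at h1

/-- the push-forward of a family -/
noncomputable def DFam.push (T : DFam 𝓘(ℝ, V) V) (δ : PartialDiffeomorph 𝓘(ℝ, V) I V M ∞)
    {K : Set V} (hKc : IsCompact K) (hK : K ⊆ δ.source)
    (hT : ∀ t x, x ∉ K → T.f (t, x) = x) : DFam I M where
  f p := Barb.push δ (fun x => T.f (p.1, x)) p.2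
  g p := Barb.push δ (fun x => T.g (p.1, x)) p.2
  smooth_f := by
    apply contMDiff_push δ T.smooth_f hKc hK hT
    intro t x hx
    by_cases h : x ∈ K
    · exact hK (T.mapsTo hT t h)
    · rw [hT t x h]; exact hx
  smooth_g := by
    apply contMDiff_push δ T.smooth_g hKc hK (fun t x hx => T.support_inv hT t hx)
    intro t x hx
    by_cases h : x ∈ K
    · have := T.inv.mapsTo (K := K) (fun t x hx => T.support_inv hT t hx) t h
      exact hK this
    · rw [T.support_inv hT t h]; exact hx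
  fg t x := by
    by_cases hx : x ∈ δ '' K
    · obtain ⟨y, hy, rfl⟩ := hx
      have h1 : T.g (t, y) ∈ K :=
        T.inv.mapsTo (K := K) (fun t x hx => T.support_inv hT t hx) t hy
      simp only
      rw [push_of_mem δ _ (hK hy), push_of_mem δ _ (hK h1)]
      congr 1
      exact T.fg t y
    · simp only
      rw [push_of_notMem δ _ hK (fun x hx => T.support_inv hT t hx) hx,
        push_of_notMem δ _ hK (fun x hx => hT t x hx) hx]
  gf t x := by
    by_cases hx : x ∈ δ '' K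
    · obtain ⟨y, hy, rfl⟩ := hx
      have h1 := T.mapsTo (K := K) hT t hy
      simp only
      rw [push_of_mem δ _ (hK hy), push_of_mem δ _ (hK h1)]
      congr 1
      exact T.gf t y
    · simp only
      rw [push_of_notMem δ _ hK (fun x hx => hT t x hx) hx,
        push_of_notMem δ _ hK (fun x hx => T.support_inv hT t hx) hx]

theorem isot_push (T : DFam 𝓘(ℝ, V) V) (δ : PartialDiffeomorph 𝓘(ℝ, V) I V M ∞)
    {K : Set V} (hKc : IsCompact K) (hK : K ⊆ δ.source)
    (hT : ∀ t x, x ∉ K → T.f (t, x) = x) :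
    Isot I (Barb.push δ (fun x => T.f (0, x))) (Barb.push δ (fun x => T.f (1, x))) :=
  ⟨T.push δ hKc hK hT, fun _ => rfl, fun _ => rfl⟩

theorem push_id (δ : PartialDiffeomorph 𝓘(ℝ, V) I V M ∞) (y : M) :
    Barb.push δ (fun x => x) y = y :=
  push_of_notMem δ _ (K := ∅) (empty_subset _) (fun _ _ => rfl) (by simp)

end

end Pool.Agent.Helper65.Barb


end

/-! ## Helper65.Barb.Model -/

section

/-!
# The model: twists along 2-spheres in `ℝ⁴ = ℝ × ℝ × ℂ`
-/

set_option autoImplicit false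
set_option linter.unusedSimpArgs false

open scoped Manifold ContDiff Topology ComplexConjugate
open Set

namespace Pool.Agent.Helper65.Barb

theorem nsq_rot (α β : ℂ) (x : ℝ × ℂ) :
    nsq (rot α β x) = (Complex.normSq α + Complex.normSq β) ^ 2 * nsq x := by
  simp only [nsq, rot, Complex.normSq_apply, Complex.sub_re, Complex.sub_im, Complex.add_re,
    Complex.add_im, Complex.mul_re, Complex.mul_im, pow_two, Complex.conj_re, Complex.conj_im,
    Complex.I_re, Complex.I_im, Complex.ofReal_re, Complex.ofReal_im, Complex.re_ofNat,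
    Complex.im_ofNat]
  ring

theorem rot_rot_inv (α β : ℂ) (x : ℝ × ℂ) :
    rot (conj α) (-β) (rot α β x) = (Complex.normSq α + Complex.normSq β) ^ 2 • x := by
  refine Prod.ext ?_ (Complex.ext ?_ ?_)
  all_goals
    simp only [rot, Complex.normSq_apply, Complex.sub_re, Complex.sub_im, Complex.add_re,
      Complex.add_im, Complex.mul_re, Complex.mul_im, pow_two, Complex.conj_re, Complex.conj_im,
      Complex.I_re, Complex.I_im, Complex.ofReal_re, Complex.ofReal_im, Complex.re_ofNat,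
      Complex.im_ofNat, Complex.neg_re, Complex.neg_im, Prod.smul_fst, Prod.smul_snd, smul_eq_mul,
      map_neg, Complex.real_smul]
    ring

theorem rot_one (x : ℝ × ℂ) : rot 1 0 x = x := by
  ext <;> simp [rot]

theorem rot_diag {η : ℂ} (hη : Complex.normSq η = 1) (x : ℝ × ℂ) :
    rot η 0 x = (x.1, η ^ 2 * x.2) := by
  ext <;> simp [rot, hη]

theorem step_of_nonpos {s : ℝ} (h : s ≤ 0) : step s = 0 := Real.smoothTransition.zero_of_nonpos h

theorem step_of_one_le {s : ℝ} (h : 1 ≤ s) : step s = 1 := Real.smoothTransition.one_of_one_le h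

theorem eta_of_nonpos {s : ℝ} (h : s ≤ 0) : eta s = 1 := by
  simp [eta, step_of_nonpos h]

theorem eta_of_one_le {s : ℝ} (h : 1 ≤ s) : eta s = 1 := by
  rw [eta, step_of_one_le h]
  push_cast
  rw [mul_one]
  exact Complex.exp_two_pi_mul_I

theorem normSq_eta (s : ℝ) : Complex.normSq (eta s) = 1 := by
  rw [Complex.normSq_eq_norm_sq, eta, Complex.norm_exp_ofReal_mul_I]
  norm_num

theorem qa_zero (s : ℝ) : qa s 0 = 1 := by simp [qa]

theorem qb_zero (s : ℝ) : qb s 0 = 0 := by simp [qb]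

theorem qa_one (s : ℝ) : qa s 1 = eta s := by simp [qa]

theorem qb_one (s : ℝ) : qb s 1 = 0 := by simp [qb]

theorem qa_of_eta {s : ℝ} (h : eta s = 1) (P : ℝ) : qa s P = 1 := by
  rw [qa, h, mul_one]
  norm_cast
  exact Real.cos_sq_add_sin_sq _

theorem qb_of_eta {s : ℝ} (h : eta s = 1) (P : ℝ) : qb s P = 0 := by
  simp [qb, h]

theorem normSq_q (s P : ℝ) : Complex.normSq (qa s P) + Complex.normSq (qb s P) = 1 := by
  have h1 := normSq_eta s
  have h2 := Real.cos_sq_add_sin_sq (Real.pi / 2 * P)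
  rw [Complex.normSq_apply] at h1
  simp only [qa, qb, Complex.normSq_apply, Complex.sub_re, Complex.sub_im, Complex.add_re,
    Complex.add_im, Complex.mul_re, Complex.mul_im, Complex.conj_re, Complex.conj_im,
    Complex.ofReal_re, Complex.ofReal_im, Complex.one_re, Complex.one_im]
  set C := Real.cos (Real.pi / 2 * P)
  set S := Real.sin (Real.pi / 2 * P)
  set x := (eta s).re
  set y := (eta s).im
  linear_combination (S ^ 4 + S ^ 2 * C ^ 2) * h1 + (C ^ 2 + S ^ 2 + 1) * h2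

/-- the inverse rotation -/
noncomputable def spinInv (s P : ℝ) (x : ℝ × ℂ) : ℝ × ℂ := rot (conj (qa s P)) (-qb s P) x

theorem nsq_spin (s P : ℝ) (x : ℝ × ℂ) : nsq (spin s P x) = nsq x := by
  rw [spin, nsq_rot, normSq_q]; ring

theorem nsq_spinInv (s P : ℝ) (x : ℝ × ℂ) : nsq (spinInv s P x) = nsq x := by
  rw [spinInv, nsq_rot, Complex.normSq_conj, Complex.normSq_neg, normSq_q]; ring

theorem spinInv_spin (s P : ℝ) (x : ℝ × ℂ) : spinInv s P (spin s P x) = x := by
  rw [spinInv, spin, rot_rot_inv, normSq_q]; simp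

theorem spin_spinInv (s P : ℝ) (x : ℝ × ℂ) : spin s P (spinInv s P x) = x := by
  have h := rot_rot_inv (conj (qa s P)) (-qb s P) x
  rw [Complex.conj_conj, neg_neg, Complex.normSq_conj, Complex.normSq_neg, normSq_q] at h
  rw [spinInv, spin, h]; simp

theorem spin_zero (s : ℝ) (x : ℝ × ℂ) : spin s 0 x = x := by
  rw [spin, qa_zero, qb_zero, rot_one]

theorem spin_one (s : ℝ) (x : ℝ × ℂ) : spin s 1 x = (x.1, eta s ^ 2 * x.2) := by
  rw [spin, qa_one, qb_one, rot_diag (normSq_eta s)]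

theorem spin_of_eta {s : ℝ} (h : eta s = 1) (P : ℝ) (x : ℝ × ℂ) : spin s P x = x := by
  rw [spin, qa_of_eta h, qb_of_eta h, rot_one]

theorem spinInv_zero (s : ℝ) (x : ℝ × ℂ) : spinInv s 0 x = x := by
  have := spinInv_spin s 0 x
  rwa [spin_zero] at this

theorem spinInv_of_eta {s : ℝ} (h : eta s = 1) (P : ℝ) (x : ℝ × ℂ) : spinInv s P x = x := by
  have := spinInv_spin s P x
  rwa [spin_of_eta h] at this

/-- the cut-off function of the squared radius, equal to `1` for `u ≤ 1` and to `0` for `4 ≤ u` -/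
noncomputable def cut (u : ℝ) : ℝ := Real.smoothTransition ((4 - u) / 3)

theorem cut_of_le {u : ℝ} (h : u ≤ 1) : cut u = 1 :=
  Real.smoothTransition.one_of_one_le (by linarith)

theorem cut_of_ge {u : ℝ} (h : 4 ≤ u) : cut u = 0 :=
  Real.smoothTransition.zero_of_nonpos (by linarith)

theorem contDiff_step : ContDiff ℝ ∞ step := Real.smoothTransition.contDiff

theorem contDiff_cut : ContDiff ℝ ∞ cut := by
  unfold cut
  apply Real.smoothTransition.contDiff.comp
  fun_prop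

theorem contDiff_eta : ContDiff ℝ ∞ eta := by
  unfold eta
  apply Complex.contDiff_exp.comp
  apply ContDiff.mul _ contDiff_const
  apply Complex.ofRealCLM.contDiff.comp
  exact contDiff_const.mul contDiff_step

theorem contDiff_conj : ContDiff ℝ ∞ (fun z : ℂ => conj z) := Complex.conjCLE.contDiff

theorem contDiff_normSq : ContDiff ℝ ∞ (fun z : ℂ => Complex.normSq z) := by
  have : (fun z : ℂ => Complex.normSq z) = fun z => Complex.reCLM z * Complex.reCLM z +
      Complex.imCLM z * Complex.imCLM z := by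
    funext z; simp [Complex.normSq_apply]
  rw [this]
  exact (Complex.reCLM.contDiff.mul Complex.reCLM.contDiff).add
    (Complex.imCLM.contDiff.mul Complex.imCLM.contDiff)

section
variable {F : Type*} [NormedAddCommGroup F] [NormedSpace ℝ F]

theorem contDiff_qa {s P : F → ℝ} (hs : ContDiff ℝ ∞ s) (hP : ContDiff ℝ ∞ P) :
    ContDiff ℝ ∞ (fun x => qa (s x) (P x)) := by
  unfold qa
  apply ContDiff.add
  · apply Complex.ofRealCLM.contDiff.comp
    exact (Real.contDiff_cos.comp (contDiff_const.mul hP)).pow 2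
  · apply ContDiff.mul
    · apply Complex.ofRealCLM.contDiff.comp
      exact (Real.contDiff_sin.comp (contDiff_const.mul hP)).pow 2
    · exact contDiff_eta.comp hs

theorem contDiff_qb {s P : F → ℝ} (hs : ContDiff ℝ ∞ s) (hP : ContDiff ℝ ∞ P) :
    ContDiff ℝ ∞ (fun x => qb (s x) (P x)) := by
  unfold qb
  apply ContDiff.mul
  · apply Complex.ofRealCLM.contDiff.comp
    exact (Real.contDiff_sin.comp (contDiff_const.mul hP)).mul
      (Real.contDiff_cos.comp (contDiff_const.mul hP))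
  · exact (contDiff_conj.comp (contDiff_eta.comp hs)).sub contDiff_const

theorem contDiff_rot {α β : F → ℂ} {x : F → ℝ × ℂ} (hα : ContDiff ℝ ∞ α) (hβ : ContDiff ℝ ∞ β)
    (hx : ContDiff ℝ ∞ x) : ContDiff ℝ ∞ (fun y => rot (α y) (β y) (x y)) := by
  unfold rot
  apply ContDiff.prodMk
  · apply ContDiff.add
    · exact hx.fst.mul ((contDiff_normSq.comp hα).sub (contDiff_normSq.comp hβ))
    · apply ContDiff.mul contDiff_const
      exact Complex.imCLM.contDiff.comp ((hα.mul (contDiff_conj.comp hβ)).mul hx.snd)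
  · apply ContDiff.sub
    · exact ((hα.pow 2).mul hx.snd).add ((hβ.pow 2).mul (contDiff_conj.comp hx.snd))
    · apply ContDiff.mul _ hβ
      apply ContDiff.mul _ hα
      apply ContDiff.mul contDiff_const
      exact Complex.ofRealCLM.contDiff.comp hx.fst

theorem contDiff_nsq {x : F → ℝ × ℂ} (hx : ContDiff ℝ ∞ x) :
    ContDiff ℝ ∞ (fun y => nsq (x y)) := by
  unfold nsq
  exact ((hx.fst.pow 2).add ((Complex.reCLM.contDiff.comp hx.snd).pow 2)).add
    ((Complex.imCLM.contDiff.comp hx.snd).pow 2)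

end

/-- The twist along the 2-sphere with centre `(0, c, 0)` in the slice `s = const`: each sphere of
squared radius `u r²` about `(s, c, 0)` in the slice is rotated by the
quaternion `q(s, step t * cut u)`. -/
noncomputable def twistF (c r : ℝ) (p : ℝ × R4) : R4 :=
  (p.2.1, (spin p.2.1 (step p.1 * cut (nsq (p.2.2.1 - c, p.2.2.2) / r ^ 2))
      (p.2.2.1 - c, p.2.2.2)).1 + c,
    (spin p.2.1 (step p.1 * cut (nsq (p.2.2.1 - c, p.2.2.2) / r ^ 2)) (p.2.2.1 - c, p.2.2.2)).2)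

/-- the inverse of the twist -/
noncomputable def twistG (c r : ℝ) (p : ℝ × R4) : R4 :=
  (p.2.1, (spinInv p.2.1 (step p.1 * cut (nsq (p.2.2.1 - c, p.2.2.2) / r ^ 2))
      (p.2.2.1 - c, p.2.2.2)).1 + c,
    (spinInv p.2.1 (step p.1 * cut (nsq (p.2.2.1 - c, p.2.2.2) / r ^ 2)) (p.2.2.1 - c, p.2.2.2)).2)

theorem contDiff_twistF (c r : ℝ) : ContDiff ℝ ∞ (twistF c r) := by
  have h1 : ContDiff ℝ ∞ (fun p : ℝ × R4 => ((p.2.2.1 - c, p.2.2.2) : ℝ × ℂ)) :=
    (contDiff_snd.snd.fst.sub contDiff_const).prodMk contDiff_snd.snd.snd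
  have h2 : ContDiff ℝ ∞ (fun p : ℝ × R4 =>
      step p.1 * cut (nsq (p.2.2.1 - c, p.2.2.2) / r ^ 2)) :=
    (contDiff_step.comp contDiff_fst).mul (contDiff_cut.comp ((contDiff_nsq h1).div_const _))
  have h3 : ContDiff ℝ ∞ (fun p : ℝ × R4 => p.2.1) := contDiff_snd.fst
  have h4 := contDiff_rot (contDiff_qa h3 h2) (contDiff_qb h3 h2) h1
  exact h3.prodMk ((h4.fst.add contDiff_const).prodMk h4.snd)

theorem contDiff_twistG (c r : ℝ) : ContDiff ℝ ∞ (twistG c r) := by
  have h1 : ContDiff ℝ ∞ (fun p : ℝ × R4 => ((p.2.2.1 - c, p.2.2.2) : ℝ × ℂ)) :=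
    (contDiff_snd.snd.fst.sub contDiff_const).prodMk contDiff_snd.snd.snd
  have h2 : ContDiff ℝ ∞ (fun p : ℝ × R4 =>
      step p.1 * cut (nsq (p.2.2.1 - c, p.2.2.2) / r ^ 2)) :=
    (contDiff_step.comp contDiff_fst).mul (contDiff_cut.comp ((contDiff_nsq h1).div_const _))
  have h3 : ContDiff ℝ ∞ (fun p : ℝ × R4 => p.2.1) := contDiff_snd.fst
  have h4 := contDiff_rot (contDiff_conj.comp (contDiff_qa h3 h2)) (contDiff_qb h3 h2).neg h1
  exact h3.prodMk ((h4.fst.add contDiff_const).prodMk h4.snd)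

theorem contMDiff_of_contDiff {f : ℝ × R4 → R4} (hf : ContDiff ℝ ∞ f) :
    ContMDiff (𝓘(ℝ, ℝ).prod 𝓘(ℝ, R4)) 𝓘(ℝ, R4) ∞ f := by
  have := hf.contMDiff
  rwa [modelWithCornersSelf_prod, ← chartedSpaceSelf_prod] at this

/-- the twist as a family of diffeomorphisms -/
noncomputable def twist (c r : ℝ) : DFam 𝓘(ℝ, R4) R4 where
  f := twistF c r
  g := twistG c r
  smooth_f := contMDiff_of_contDiff (contDiff_twistF c r)
  smooth_g := contMDiff_of_contDiff (contDiff_twistG c r)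
  fg t x := by
    simp only [twistF, twistG, add_sub_cancel_right, Prod.mk.eta, nsq_spinInv, spin_spinInv]
    simp
  gf t x := by
    simp only [twistF, twistG, add_sub_cancel_right, Prod.mk.eta, nsq_spin, spinInv_spin]
    simp

end Pool.Agent.Helper65.Barb


end

/-! ## Helper65.Barb.Bar -/

section

/-!
# The thickened barbell and the barbell map
-/

set_option autoImplicit false
set_option linter.unusedSectionVars false
set_option linter.unusedVariables false

open scoped Manifold ContDiff Topology ComplexConjugate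
open Set

namespace Pool.Agent.Helper65.Barb

theorem rsq_nonneg (c : ℝ) (p : R4) : 0 ≤ rsq c p := by
  unfold rsq nsq; positivity

theorem contDiff_rsq (c : ℝ) : ContDiff ℝ ∞ (rsq c) :=
  contDiff_nsq ((contDiff_snd.fst.sub contDiff_const).prodMk contDiff_snd.snd)

theorem rsq_one_eq (p : R4) : rsq 1 p = rsq 0 p - 2 * p.2.1 + 1 := by
  simp only [rsq, nsq]; ring

theorem sq_le_rsq (p : R4) : p.2.1 ^ 2 ≤ rsq 0 p := by
  simp only [rsq, nsq]; nlinarith [sq_nonneg p.2.2.re, sq_nonneg p.2.2.im]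

theorem sq_le_rsq_one (p : R4) : (p.2.1 - 1) ^ 2 ≤ rsq 1 p := by
  simp only [rsq, nsq]; nlinarith [sq_nonneg p.2.2.re, sq_nonneg p.2.2.im]

theorem rsq_rotp (c θ : ℝ) (p : R4) : rsq c (rotp θ p) = rsq c p := by
  have h : ∀ z : ℂ, z.re ^ 2 + z.im ^ 2 = ‖z‖ ^ 2 := by
    intro z; rw [← Complex.normSq_eq_norm_sq, Complex.normSq_apply]; ring
  simp only [rsq, nsq, rotp, add_assoc, h, norm_mul, Complex.norm_exp_ofReal_mul_I, one_mul]

@[simp] theorem twist_fst (c r t : ℝ) (p : R4) : ((twist c r).f (t, p)).1 = p.1 := rfl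
@[simp] theorem twist_inv_fst (c r t : ℝ) (p : R4) : ((twist c r).g (t, p)).1 = p.1 := rfl

theorem rsq_twist (c r t : ℝ) (p : R4) : rsq c ((twist c r).f (t, p)) = rsq c p := by
  change nsq (((twist c r).f (t, p)).2.1 - c, ((twist c r).f (t, p)).2.2) = _
  simp only [twist, twistF, add_sub_cancel_right, Prod.mk.eta, nsq_spin]
  rfl

theorem rsq_twist_inv (c r t : ℝ) (p : R4) : rsq c ((twist c r).g (t, p)) = rsq c p := by
  change nsq (((twist c r).g (t, p)).2.1 - c, ((twist c r).g (t, p)).2.2) = _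
  simp only [twist, twistG, add_sub_cancel_right, Prod.mk.eta, nsq_spinInv]
  rfl

theorem twist_of_eta {c r t : ℝ} {p : R4} (h : eta p.1 = 1) : (twist c r).f (t, p) = p := by
  simp only [twist, twistF, spin_of_eta h]
  simp

theorem twist_of_ge {c r t : ℝ} (hr : 0 < r) {p : R4} (h : (2 * r) ^ 2 ≤ rsq c p) :
    (twist c r).f (t, p) = p := by
  have h1 : cut (nsq (p.2.1 - c, p.2.2) / r ^ 2) = 0 := by
    apply cut_of_ge
    rw [le_div_iff₀ (by positivity)]
    change _ ≤ rsq c p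
    linarith
  simp only [twist, twistF, h1, mul_zero, spin_zero]
  simp

theorem twist_of_time {c r t : ℝ} (ht : t ≤ 0) (p : R4) : (twist c r).f (t, p) = p := by
  simp only [twist, twistF, step_of_nonpos ht, zero_mul, spin_zero]
  simp

theorem cut_eq_one {c r : ℝ} (hr : 0 < r) {p : R4} (h : rsq c p ≤ r ^ 2) :
    cut (nsq (p.2.1 - c, p.2.2) / r ^ 2) = 1 := by
  apply cut_of_le
  rw [div_le_one (by positivity)]
  exact h

theorem eta_sq (s : ℝ) : eta s ^ 2 = Complex.exp ((4 * Real.pi * step s : ℝ) * Complex.I) := by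
  rw [eta, ← Complex.exp_nat_mul]
  congr 1
  push_cast
  ring

theorem twist_of_le {c r t : ℝ} (hr : 0 < r) (ht : 1 ≤ t) {p : R4} (h : rsq c p ≤ r ^ 2) :
    (twist c r).f (t, p) = rotp (4 * Real.pi * step p.1) p := by
  simp only [twist, twistF, cut_eq_one hr h, step_of_one_le ht, mul_one, spin_one, eta_sq, rotp]
  simp

/-- the support of a twist -/
def tsupp (c r : ℝ) : Set R4 := {p | 0 ≤ p.1 ∧ p.1 ≤ 1 ∧ rsq c p ≤ (2 * r) ^ 2}

theorem twist_of_notMem {c r : ℝ} (hr : 0 < r) (t : ℝ) (p : R4) (h : p ∉ tsupp c r) :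
    (twist c r).f (t, p) = p := by
  by_cases h0 : 0 ≤ p.1
  · by_cases h1 : p.1 ≤ 1
    · apply twist_of_ge hr
      by_contra h2
      exact h ⟨h0, h1, (not_le.1 h2).le⟩
    · exact twist_of_eta (eta_of_one_le (not_le.1 h1).le)
  · exact twist_of_eta (eta_of_nonpos (not_le.1 h0).le)

theorem twist_inv_of_notMem {c r : ℝ} (hr : 0 < r) (t : ℝ) (p : R4) (h : p ∉ tsupp c r) :
    (twist c r).g (t, p) = p :=
  (twist c r).support_inv (K := tsupp c r) (fun t x hx => twist_of_notMem hr t x hx) t h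

theorem twist_inv_of_ge {c r t : ℝ} (hr : 0 < r) {p : R4} (h : (2 * r) ^ 2 ≤ rsq c p) :
    (twist c r).g (t, p) = p := by
  have h1 := (twist c r).gf t p
  rwa [twist_of_ge hr h] at h1

theorem isBounded_of_rsq (c R m n : ℝ) :
    Bornology.IsBounded {p : R4 | m ≤ p.1 ∧ p.1 ≤ n ∧ rsq c p ≤ R} := by
  have h1 : {p : R4 | m ≤ p.1 ∧ p.1 ≤ n ∧ rsq c p ≤ R} ⊆
      Icc m n ×ˢ (Icc (c - (R + 1)) (c + (R + 1)) ×ˢ Metric.closedBall (0 : ℂ) (R + 1)) := by
    rintro ⟨s, a, w⟩ ⟨h1, h2, h3⟩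
    simp only [rsq, nsq] at h3
    have h4 : w.re ^ 2 + w.im ^ 2 = ‖w‖ ^ 2 := by
      rw [← Complex.normSq_eq_norm_sq, Complex.normSq_apply]; ring
    refine ⟨⟨h1, h2⟩, ⟨?_, ?_⟩, ?_⟩
    · simp only; nlinarith [sq_nonneg (a - c + 1), norm_nonneg w, sq_nonneg (a - c + 1/2)]
    · simp only; nlinarith [sq_nonneg (a - c - 1), norm_nonneg w, sq_nonneg (a - c - 1/2)]
    · rw [mem_closedBall_zero_iff]
      simp only
      nlinarith [sq_nonneg (a - c), sq_nonneg (‖w‖ - 1), sq_nonneg (‖w‖ - 1/2)]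
  apply Bornology.IsBounded.subset _ h1
  apply Bornology.IsBounded.prod (Metric.isBounded_Icc _ _)
  apply Bornology.IsBounded.prod (Metric.isBounded_Icc _ _)
  exact Metric.isBounded_closedBall

theorem continuous_rsq (c : ℝ) : Continuous (rsq c) := (contDiff_rsq c).continuous

theorem isCompact_tsupp (c r : ℝ) : IsCompact (tsupp c r) := by
  apply Metric.isCompact_of_isClosed_isBounded
  · apply IsClosed.inter (isClosed_le continuous_const continuous_fst)
    apply IsClosed.inter (isClosed_le continuous_fst continuous_const)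
    exact isClosed_le (continuous_rsq c) continuous_const
  · exact isBounded_of_rsq c _ 0 1

theorem isClosed_ball4 : IsClosed ball4 := by
  apply IsClosed.inter (isClosed_le continuous_const continuous_fst)
  apply IsClosed.inter (isClosed_le continuous_fst continuous_const)
  exact isClosed_le (continuous_rsq 0) continuous_const

theorem isCompact_NB : IsCompact NB := by
  apply Metric.isCompact_of_isClosed_isBounded
  · apply IsClosed.inter isClosed_ball4
    apply IsClosed.inter (isClosed_le continuous_const (continuous_rsq 0))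
    exact isClosed_le continuous_const (continuous_rsq 1)
  · exact (isBounded_of_rsq 0 ((9 / 2) ^ 2) (-1) 2).subset (fun p hp => hp.1)

/-- the standard isotopy spinning one arc around the other -/
noncomputable def bfam : DFam 𝓘(ℝ, R4) R4 :=
  (twist 0 2).comp ((twist 1 (1 / 5)).inv.comp (twist 0 (1 / 5)).inv)

theorem bfam_apply (t : ℝ) (p : R4) :
    bfam.f (t, p) =
      (twist 0 2).f (t, (twist 1 (1 / 5)).g (t, (twist 0 (1 / 5)).g (t, p))) := rfl

/-- the standard barbell map -/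
noncomputable def barMap (p : R4) : R4 := bfam.f (1, p)

end Pool.Agent.Helper65.Barb


end

/-! ## Helper65.Barb.Bar2 -/

section

/-!
# The standard barbell map is a barbell map, and any two barbell maps are isotopic
-/

set_option autoImplicit false
set_option linter.unusedSectionVars false
set_option linter.unusedVariables false

open scoped Manifold ContDiff Topology ComplexConjugate
open Set

namespace Pool.Agent.Helper65.Barb

theorem rot_add (α β : ℂ) (x y : ℝ × ℂ) : rot α β (x + y) = rot α β x + rot α β y := by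
  refine Prod.ext ?_ ?_
  · simp only [rot, Prod.fst_add, Prod.snd_add, mul_add, Complex.add_im]; ring
  · simp only [rot, Prod.fst_add, Prod.snd_add, map_add, Complex.ofReal_add]; ring

theorem spin_add (s P : ℝ) (x y : ℝ × ℂ) : spin s P (x + y) = spin s P x + spin s P y :=
  rot_add _ _ _ _

theorem twist_plateau {c r : ℝ} (hr : 0 < r) (t : ℝ) {p : R4} (h : rsq c p ≤ r ^ 2) :
    (twist c r).f (t, p) =
      (p.1, (spin p.1 (step t) (p.2.1 - c, p.2.2)).1 + c,
        (spin p.1 (step t) (p.2.1 - c, p.2.2)).2) := by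
  simp only [twist, twistF, cut_eq_one hr h, mul_one]

theorem twist_inv_plateau {c r : ℝ} (hr : 0 < r) (t : ℝ) {p : R4} (h : rsq c p ≤ r ^ 2) :
    (twist c r).g (t, p) =
      (p.1, (spinInv p.1 (step t) (p.2.1 - c, p.2.2)).1 + c,
        (spinInv p.1 (step t) (p.2.1 - c, p.2.2)).2) := by
  simp only [twist, twistG, cut_eq_one hr h, mul_one]

theorem bfam_support (t : ℝ) (p : R4) (hp : p ∉ tsupp 0 2) : bfam.f (t, p) = p := by
  have h1 : p ∉ tsupp 0 (1 / 5) := by
    intro h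
    exact hp ⟨h.1, h.2.1, h.2.2.trans (by norm_num)⟩
  have h2 : p ∉ tsupp 1 (1 / 5) := by
    intro h
    refine hp ⟨h.1, h.2.1, ?_⟩
    have h3 := h.2.2
    have h4 := sq_le_rsq_one p
    rw [rsq_one_eq] at h3 h4
    nlinarith
  rw [bfam_apply, twist_inv_of_notMem (by norm_num) t p h1,
    twist_inv_of_notMem (by norm_num) t p h2, twist_of_notMem (by norm_num) t p hp]

theorem rsq_one_ge {p : R4} (h : rsq 0 p ≤ (9 / 20) ^ 2) : (2 * (1 / 5 : ℝ)) ^ 2 ≤ rsq 1 p := by
  have h1 := sq_le_rsq p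
  rw [rsq_one_eq]
  nlinarith [sq_nonneg (p.2.1 - 9 / 20)]

theorem rsq_zero_ge {p : R4} (h : rsq 1 p ≤ (9 / 20) ^ 2) : (2 * (1 / 5 : ℝ)) ^ 2 ≤ rsq 0 p := by
  have h1 := sq_le_rsq_one p
  have h2 := sq_le_rsq p
  nlinarith [sq_nonneg (p.2.1 - 1 + 9 / 20)]

theorem rsq_zero_le {p : R4} (h : rsq 1 p ≤ (9 / 20) ^ 2) : rsq 0 p ≤ (3 / 2) ^ 2 := by
  have h1 := sq_le_rsq_one p
  rw [rsq_one_eq] at h h1
  nlinarith

theorem rsq_one_ge' {p : R4} (h : (3 / 2) ^ 2 ≤ rsq 0 p) : (2 * (1 / 5 : ℝ)) ^ 2 ≤ rsq 1 p := by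
  by_contra h1
  have h2 : rsq 1 p ≤ (9 / 20) ^ 2 := by
    have := not_le.1 h1
    norm_num at this ⊢
    linarith
  have h3 := sq_le_rsq_one p
  rw [rsq_one_eq] at h1 h2 h3
  nlinarith

theorem bfam_near_zero (t : ℝ) {p : R4} (hp : rsq 0 p ≤ (1 / 5) ^ 2) : bfam.f (t, p) = p := by
  rw [bfam_apply]
  have h1 : rsq 0 ((twist 0 (1 / 5)).g (t, p)) ≤ (1 / 5) ^ 2 := by rwa [rsq_twist_inv]
  rw [twist_inv_of_ge (c := 1) (by norm_num) (rsq_one_ge (h1.trans (by norm_num))),
    twist_plateau (by norm_num) t (h1.trans (by norm_num)),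
    twist_inv_plateau (by norm_num) t (hp.trans (by norm_num))]
  simp [spin_spinInv]

theorem bfam_near_one (t s : ℝ) (y : ℝ × ℂ) (hy : nsq y ≤ (1 / 5) ^ 2) :
    bfam.f (t, (s, (1, 0) + y)) = (s, spin s (step t) (1, 0) + y) := by
  have h0 : rsq 1 (s, (1, 0) + y) = nsq y := by simp [rsq]
  have h1 : rsq 1 (s, (1, 0) + y) ≤ (1 / 5) ^ 2 := by rw [h0]; exact hy
  have h3 : (twist 1 (1 / 5)).g (t, (s, (1, 0) + y)) = (s, (1, 0) + spinInv s (step t) y) := by
    rw [twist_inv_plateau (by norm_num) t (h1.trans (by norm_num))]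
    have : ((1, 0) + y : ℝ × ℂ).1 - 1 = y.1 := by simp
    refine Prod.ext rfl (Prod.ext ?_ ?_)
    · simp [add_comm]
    · simp
  have h4 : rsq 1 (s, (1, 0) + spinInv s (step t) y) ≤ (1 / 5) ^ 2 := by
    rw [← h3, rsq_twist_inv]; exact h1
  rw [bfam_apply, twist_inv_of_ge (c := 0) (by norm_num) (rsq_zero_ge (h1.trans (by norm_num))),
    h3, twist_plateau (by norm_num) t
      ((rsq_zero_le (h4.trans (by norm_num))).trans (by norm_num))]
  simp only [sub_zero, add_zero, Prod.mk.eta]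
  rw [spin_add, spin_spinInv]

theorem tsupp_subset_interior : tsupp 0 2 ⊆ interior ball4 := by
  intro p hp
  have hopen : IsOpen {q : R4 | -1 < q.1 ∧ q.1 < 2 ∧ rsq 0 q < (9 / 2) ^ 2} := by
    apply IsOpen.inter (isOpen_lt continuous_const continuous_fst)
    apply IsOpen.inter (isOpen_lt continuous_fst continuous_const)
    exact isOpen_lt (continuous_rsq 0) continuous_const
  apply interior_maximal _ hopen
  · obtain ⟨h1, h2, h3⟩ := hp
    exact ⟨by linarith, by linarith, lt_of_le_of_lt h3 (by norm_num)⟩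
  · rintro q ⟨h1, h2, h3⟩
    exact ⟨h1.le, h2.le, h3.le⟩

/-- the standard barbell map is a barbell map -/
theorem isBarbellMap_barMap : IsBarbellMap barMap := by
  refine ⟨bfam, ?_, fun p => rfl, ⟨tsupp 0 2, isCompact_tsupp 0 2, tsupp_subset_interior,
    fun t p hp => bfam_support t p hp⟩,
    fun t _ p hp => bfam_near_zero t (hp.trans (by norm_num)),
    fun t _ s y hy => bfam_near_one t s y (hy.trans (by norm_num))⟩
  intro p
  rw [bfam_apply]
  have h : ∀ (c r : ℝ) (q : R4), (twist c r).g (0, q) = q := by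
    intro c r q
    have := (twist c r).gf 0 q
    rwa [twist_of_time le_rfl] at this
  rw [h, h, twist_of_time le_rfl]

theorem step_mem (t : ℝ) : step t ∈ Icc (0 : ℝ) 1 :=
  ⟨Real.smoothTransition.nonneg t, Real.smoothTransition.le_one t⟩

section
variable {E : Type*} [NormedAddCommGroup E] [NormedSpace ℝ E] {H : Type*} [TopologicalSpace H]
  {I : ModelWithCorners ℝ E H} {M : Type*} [TopologicalSpace M] [ChartedSpace H M] [T2Space M]

/-- the push-forwards of any two barbell maps are isotopic -/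
theorem isot_push_barbellMap (B : PartialDiffeomorph 𝓘(ℝ, R4) I R4 M ∞) (hB : NB ⊆ B.source)
    {β β' : R4 → R4} (hβ : IsBarbellMap β) (hβ' : IsBarbellMap β') :
    Isot I (push B β') (push B β) := by
  obtain ⟨Φ, h0, h1, ⟨K, hKc, hKi, hK⟩, hz, ho⟩ := hβ
  obtain ⟨Φ', h0', h1', ⟨K', hKc', hKi', hK'⟩, hz', ho'⟩ := hβ'
  let T : DFam 𝓘(ℝ, R4) R4 := (Φ'.freeze 1).comp
    ((Φ'.reparam step contDiff_step).inv.comp (Φ.reparam step contDiff_step))
  have hT : ∀ t p, T.f (t, p) = Φ'.f (1, Φ'.g (step t, Φ.f (step t, p))) := fun t p => rfl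
  let S : Set R4 := (K ∪ K') ∩ {p | (3 / 20) ^ 2 ≤ rsq 0 p ∧ (3 / 20) ^ 2 ≤ rsq 1 p}
  have hSc : IsCompact S := by
    apply (hKc.union hKc').inter_right
    apply IsClosed.inter (isClosed_le continuous_const (continuous_rsq 0))
    exact isClosed_le continuous_const (continuous_rsq 1)
  have hSB : S ⊆ B.source := by
    intro p hp
    apply hB
    refine ⟨?_, hp.2⟩
    rcases hp.1 with h | h
    · exact interior_subset (hKi h)
    · exact interior_subset (hKi' h)
  have hinv : ∀ t p q, Φ'.f (t, p) = q → Φ'.g (t, q) = p := by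
    intro t p q h
    rw [← h, Φ'.gf]
  have hTS : ∀ t p, p ∉ S → T.f (t, p) = p := by
    intro t p hp
    rw [hT]
    have ht := step_mem t
    by_cases hK2 : p ∈ K ∪ K'
    · have hp' : rsq 0 p < (3 / 20) ^ 2 ∨ rsq 1 p < (3 / 20) ^ 2 := by
        by_contra hcon
        push Not at hcon
        exact hp ⟨hK2, hcon⟩
      rcases hp' with h | h
      · rw [hz _ ht p h.le, hinv _ _ _ (hz' _ ht p h.le), hz' 1 (by simp) p h.le]
      · obtain ⟨s, x⟩ := p
        obtain ⟨y, rfl⟩ : ∃ y : ℝ × ℂ, x = (1, 0) + y := ⟨x - (1, 0), by abel⟩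
        have hy : nsq y ≤ (3 / 20) ^ 2 := by
          have : rsq 1 (s, (1, 0) + y) = nsq y := by simp [rsq]
          rw [← this]; exact h.le
        rw [ho _ ht s y hy, hinv _ _ _ (ho' _ ht s y hy), ho' 1 (by simp) s y hy,
          step_of_one_le le_rfl, spin_one]
        simp
    · have e1 : p ∉ K := fun h => hK2 (Or.inl h)
      have e2 : p ∉ K' := fun h => hK2 (Or.inr h)
      rw [hK _ p e1, hinv _ _ _ (hK' _ p e2), hK' _ p e2]
  have key := isot_push T B hSc hSB hTS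
  have e0 : (fun x => T.f (0, x)) = β' := by
    funext x
    rw [hT, step_of_nonpos le_rfl, h0, hinv 0 x x (h0' x), h1']
  have e1 : (fun x => T.f (1, x)) = β := by
    funext x
    rw [hT, step_of_one_le le_rfl, Φ'.fg, h1]
  rwa [e0, e1] at key

end

end Pool.Agent.Helper65.Barb


end

/-! ## Helper65.Barb.Act -/

section

/-!
# Circle actions and diffeomorphisms moving points along orbits
-/

set_option autoImplicit false
set_option linter.unusedSectionVars false
set_option linter.unusedVariables false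

open scoped Manifold ContDiff Topology
open Set

namespace Pool.Agent.Helper65.Barb

section
variable {E : Type*} [NormedAddCommGroup E] [NormedSpace ℝ E] {H : Type*} [TopologicalSpace H]

/-- A smooth action of the circle, written as a periodic action of the real line. -/
structure CircleAction (I : ModelWithCorners ℝ E H) (M : Type*) [TopologicalSpace M]
    [ChartedSpace H M] where
  /-- the action -/
  act : ℝ → M → M
  zero : ∀ x, act 0 x = x
  add : ∀ s t x, act (s + t) x = act s (act t x)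
  period : ∀ x, act (2 * Real.pi) x = x
  smooth : ContMDiff (𝓘(ℝ, ℝ).prod I) I ∞ (fun p : ℝ × M => act p.1 p.2)

variable {I : ModelWithCorners ℝ E H} {M : Type*} [TopologicalSpace M] [ChartedSpace H M]

namespace CircleAction

variable (A : CircleAction I M)

theorem neg_act (t : ℝ) (x : M) : A.act (-t) (A.act t x) = x := by
  rw [← A.add, neg_add_cancel, A.zero]

theorem act_neg (t : ℝ) (x : M) : A.act t (A.act (-t) x) = x := by
  rw [← A.add, add_neg_cancel, A.zero]

theorem period_nat (n : ℕ) (x : M) : A.act (n * (2 * Real.pi)) x = x := by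
  induction n with
  | zero => simp [A.zero]
  | succ n ih =>
    push_cast
    rw [add_mul, one_mul, A.add, A.period, ih]

theorem period_int (n : ℤ) (x : M) : A.act (n * (2 * Real.pi)) x = x := by
  obtain ⟨m, rfl | rfl⟩ := n.eq_nat_or_neg
  · exact_mod_cast A.period_nat m x
  · have h := A.neg_act (m * (2 * Real.pi)) x
    rw [A.period_nat] at h
    push_cast
    rwa [neg_mul]

/-- the global bulk rotation by a smooth invariant function, as a family -/
noncomputable def bulk {h : M → ℝ} (hs : ContMDiff I 𝓘(ℝ, ℝ) ∞ h)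
    (hi : ∀ x θ, h (A.act θ x) = h x) : DFam I M where
  f p := A.act (p.1 * h p.2) p.2
  g p := A.act (-(p.1 * h p.2)) p.2
  smooth_f := A.smooth.comp
    ((contMDiff_fst.mul (hs.comp contMDiff_snd)).prodMk contMDiff_snd)
  smooth_g := A.smooth.comp
    ((contMDiff_fst.mul (hs.comp contMDiff_snd)).neg.prodMk contMDiff_snd)
  fg t x := by simp only [hi, A.act_neg]
  gf t x := by simp only [hi, A.neg_act]

theorem isot_bulk {h : M → ℝ} (hs : ContMDiff I 𝓘(ℝ, ℝ) ∞ h)
    (hi : ∀ x θ, h (A.act θ x) = h x) : Isot I (fun x => x) (fun x => A.act (h x) x) := by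
  refine ⟨A.bulk hs hi, ?_, ?_⟩
  · intro x; simp [bulk, A.zero]
  · intro x; simp [bulk]

/-- `F` is, near `x`, a rotation along orbits by a smooth invariant angle. -/
def LB (F : M → M) (x : M) : Prop :=
  ∃ V : Set M, IsOpen V ∧ x ∈ V ∧ (∀ y ∈ V, ∀ θ, A.act θ y ∈ V) ∧
    ∃ h : M → ℝ, ContMDiffOn I 𝓘(ℝ, ℝ) ∞ h V ∧ (∀ y ∈ V, ∀ θ, h (A.act θ y) = h y) ∧
      ∀ y ∈ V, F y = A.act (h y) y

variable {A}

theorem LB.comp {F G : M → M} {x : M} (hF : A.LB F x) (hG : A.LB G x) :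
    A.LB (fun y => F (G y)) x := by
  obtain ⟨V, hV, hx, hVi, h, hs, hi, hFh⟩ := hF
  obtain ⟨V', hV', hx', hVi', h', hs', hi', hFh'⟩ := hG
  refine ⟨V ∩ V', hV.inter hV', ⟨hx, hx'⟩, fun y hy θ => ⟨hVi y hy.1 θ, hVi' y hy.2 θ⟩,
    fun y => h y + h' y, ?_, ?_, ?_⟩
  · exact (hs.mono inter_subset_left).add (hs'.mono inter_subset_right)
  · intro y hy θ
    simp only [hi y hy.1, hi' y hy.2]
  · intro y hy
    simp only
    rw [hFh' y hy.2, hFh _ (hVi y hy.1 _), hi y hy.1, ← A.add]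

theorem LB.inv {F F' : M → M} {x : M} (hF : A.LB F x) (h1 : ∀ y, F' (F y) = y) :
    A.LB F' x := by
  obtain ⟨V, hV, hx, hVi, h, hs, hi, hFh⟩ := hF
  refine ⟨V, hV, hx, hVi, fun y => - h y, hs.neg, ?_, ?_⟩
  · intro y hy θ
    simp only [hi y hy]
  · intro y hy
    have h2 : F (A.act (-h y) y) = y := by
      rw [hFh _ (hVi y hy _), hi y hy, A.act_neg]
    have h3 := h1 (A.act (-h y) y)
    rw [h2] at h3
    exact h3

theorem LB.congr {F G : M → M} {x : M} (hG : A.LB G x) {W : Set M} (hW : IsOpen W) (hx : x ∈ W)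
    (hWi : ∀ y ∈ W, ∀ θ, A.act θ y ∈ W) (hFG : ∀ y ∈ W, F y = G y) : A.LB F x := by
  obtain ⟨V, hV, hx', hVi, h, hs, hi, hFh⟩ := hG
  refine ⟨V ∩ W, hV.inter hW, ⟨hx', hx⟩, fun y hy θ => ⟨hVi y hy.1 θ, hWi y hy.2 θ⟩,
    h, hs.mono inter_subset_left, fun y hy => hi y hy.1, ?_⟩
  intro y hy
  rw [hFG y hy.2, hFh y hy.1]

theorem LB.of_global {F : M → M} {h : M → ℝ} (hs : ContMDiff I 𝓘(ℝ, ℝ) ∞ h)
    (hi : ∀ x θ, h (A.act θ x) = h x) (hF : ∀ x, F x = A.act (h x) x) (x : M) : A.LB F x :=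
  ⟨univ, isOpen_univ, mem_univ _, fun _ _ _ => mem_univ _, h, hs.contMDiffOn,
    fun y _ => hi y, fun y _ => hF y⟩

variable (A) in
theorem LB.id (x : M) : A.LB (fun y => y) x :=
  LB.of_global (h := fun _ => 0) contMDiff_const (fun _ _ => rfl) (fun x => (A.zero x).symm) x

/-- **Lifting lemma.** A map which is locally a rotation along orbits by invariant angles is
globally so on sets with simply connected orbit space. -/
theorem exists_lift
    (hfree : Dense {x : M | ∀ θ, A.act θ x = x → ∃ k : ℤ, θ = k * (2 * Real.pi)})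
    {F : M → M} {W V : Set M} (hVo : IsOpen V) (hVW : V ⊆ W) (hW : ∀ x ∈ W, A.LB F x)
    {Y : Type*} [TopologicalSpace Y] [SimplyConnectedSpace Y] [LocallyPathConnectedSpace Y]
    (κ : Y → M) (hκ : Continuous κ) (hκW : ∀ y, κ y ∈ W) (p : M → Y) (hp : ContinuousOn p V)
    (hinv : ∀ x ∈ V, ∀ θ, p (A.act θ x) = p x)
    (horb : ∀ x ∈ V, ∃ θ, A.act θ (κ (p x)) = x) :
    ∃ h : M → ℝ, ContMDiffOn I 𝓘(ℝ, ℝ) ∞ h V ∧ (∀ x ∈ V, ∀ θ, h (A.act θ x) = h x) ∧
      ∀ x ∈ V, F x = A.act (h x) x := by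
  classical
  choose! U hU hxU hUi H hHs hHi hHF using hW
  -- values of `exp (i H)` agree on overlaps
  have key : ∀ x ∈ W, ∀ y ∈ W, ∀ z ∈ U x ∩ U y, Circle.exp (H x z) = Circle.exp (H y z) := by
    intro x hx y hy z hz
    by_contra hne
    have c1 : ContinuousAt (fun z => Circle.exp (H x z)) z :=
      Circle.exp.continuous.continuousAt.comp
        ((hHs x hx).continuousOn.continuousAt ((hU x hx).mem_nhds hz.1))
    have c2 : ContinuousAt (fun z => Circle.exp (H y z)) z :=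
      Circle.exp.continuous.continuousAt.comp
        ((hHs y hy).continuousOn.continuousAt ((hU y hy).mem_nhds hz.2))
    have h1 : ∀ᶠ z' in 𝓝 z, Circle.exp (H x z') ≠ Circle.exp (H y z') :=
      (c1.prodMk c2).preimage_mem_nhds (isClosed_diagonal.isOpen_compl.mem_nhds hne)
    have h2 : ∀ᶠ z' in 𝓝 z, z' ∈ U x ∩ U y :=
      ((hU x hx).inter (hU y hy)).mem_nhds hz
    obtain ⟨z', h5, h3, h4⟩ :=
      ((mem_closure_iff_frequently.1 (hfree z)).and_eventually (h1.and h2)).exists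
    apply h3
    have e1 := hHF x hx z' h4.1
    have e2 := hHF y hy z' h4.2
    have e3 : A.act (H x z' - H y z') z' = z' := by
      rw [sub_eq_neg_add, A.add, ← e1, e2, A.neg_act]
    obtain ⟨k, hk⟩ := h5 _ e3
    rw [sub_eq_iff_eq_add.1 hk, Circle.exp_add, Circle.exp_int_mul_two_pi, one_mul]
  -- the circle-valued function
  let Φ : M → Circle := fun x => Circle.exp (H x x)
  have hΦ : ∀ x ∈ W, ∀ z ∈ U x ∩ W, Φ z = Circle.exp (H x z) := by
    intro x hx z hz
    exact key z hz.2 x hx z ⟨hxU z hz.2, hz.1⟩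
  have hcont : Continuous (fun y => Φ (κ y)) := by
    rw [continuous_iff_continuousAt]
    intro y
    have c1 : ContinuousAt (fun y' => Circle.exp (H (κ y) (κ y'))) y := by
      have c2 : ContinuousAt (fun z => Circle.exp (H (κ y) z)) (κ y) :=
        Circle.exp.continuous.continuousAt.comp
          ((hHs _ (hκW y)).continuousOn.continuousAt
            ((hU _ (hκW y)).mem_nhds (hxU _ (hκW y))))
      exact ContinuousAt.comp (f := κ) c2 hκ.continuousAt
    apply c1.congr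
    have h1 : ∀ᶠ y' in 𝓝 y, κ y' ∈ U (κ y) :=
      hκ.continuousAt.eventually_mem ((hU _ (hκW y)).mem_nhds (hxU _ (hκW y)))
    filter_upwards [h1] with y' hy'
    exact (hΦ _ (hκW y) _ ⟨hy', hκW y'⟩).symm
  -- lift it
  obtain ⟨y₀⟩ : Nonempty Y := inferInstance
  obtain ⟨e₀, he₀⟩ : ∃ e : ℝ, Circle.exp e = Φ (κ y₀) := ⟨_, Circle.exp_arg _⟩
  obtain ⟨L, ⟨-, hL⟩, -⟩ := Circle.isCoveringMap_exp.existsUnique_continuousMap_lifts
    (⟨_, hcont⟩ : C(Y, Circle)) y₀ e₀ he₀
  have hL' : ∀ y, Circle.exp (L y) = Φ (κ y) := fun y => congrFun hL y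
  have hval : ∀ x ∈ V, Circle.exp (L (p x)) = Circle.exp (H x x) := by
    intro x hx
    obtain ⟨θ, hθ⟩ := horb x hx
    have hz := hκW (p x)
    have h1 : x ∈ U (κ (p x)) := by
      have := hUi _ hz _ (hxU _ hz) θ
      rwa [hθ] at this
    have h2 : H (κ (p x)) x = H (κ (p x)) (κ (p x)) := by
      have := hHi _ hz _ (hxU _ hz) θ
      rwa [hθ] at this
    rw [hL']
    change Circle.exp (H (κ (p x)) (κ (p x))) = _
    rw [← h2]
    exact (hΦ _ hz x ⟨h1, hVW hx⟩).symm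
  refine ⟨fun x => L (p x), ?_, ?_, ?_⟩
  · intro x hx
    have hxW := hVW hx
    -- the difference with the local function is locally constant
    have c1 : ContinuousAt (fun z => L (p z) - H x z) x := by
      apply ContinuousAt.sub
      · exact L.continuous.continuousAt.comp (hp.continuousAt (hVo.mem_nhds hx))
      · exact (hHs x hxW).continuousOn.continuousAt ((hU x hxW).mem_nhds (hxU x hxW))
    have h1 : ∀ᶠ z in 𝓝 x, |(L (p z) - H x z) - (L (p x) - H x x)| < 1 := by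
      have := Metric.continuousAt_iff'.1 c1 1 one_pos
      filter_upwards [this] with z hz
      rwa [Real.dist_eq] at hz
    have h2 : ∀ᶠ z in 𝓝 x, z ∈ V ∩ U x := (hVo.inter (hU x hxW)).mem_nhds ⟨hx, hxU x hxW⟩
    have hdisc : ∀ z ∈ V ∩ U x, ∃ k : ℤ, L (p z) - H x z = k * (2 * Real.pi) := by
      intro z hz
      have e1 := hval z hz.1
      have e2 := hΦ x hxW z ⟨hz.2, hVW hz.1⟩
      change Circle.exp (H z z) = _ at e2
      rw [e2] at e1
      obtain ⟨k, hk⟩ := Circle.exp_eq_exp.1 e1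
      exact ⟨k, by rw [hk]; ring⟩
    have h3 : ∀ᶠ z in 𝓝 x, L (p z) = H x z + (L (p x) - H x x) := by
      filter_upwards [h1, h2] with z hz1 hz2
      obtain ⟨k, hk⟩ := hdisc z hz2
      obtain ⟨l, hl⟩ := hdisc x ⟨hx, hxU x hxW⟩
      rw [hk, hl] at hz1
      have h4 : k = l := by
        by_contra hkl
        have h5 : (1 : ℝ) ≤ |(k : ℝ) - l| := by
          have : (1 : ℤ) ≤ |k - l| := Int.one_le_abs (sub_ne_zero.2 hkl)
          exact_mod_cast this
        have h6 : |(k : ℝ) * (2 * Real.pi) - l * (2 * Real.pi)| =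
            |(k : ℝ) - l| * (2 * Real.pi) := by
          rw [← sub_mul, abs_mul, abs_of_pos Real.two_pi_pos]
        rw [h6] at hz1
        have := Real.pi_gt_three
        nlinarith
      rw [h4] at hk
      linarith
    have c2 : ContMDiffAt I 𝓘(ℝ, ℝ) ∞ (fun z => H x z + (L (p x) - H x x)) x :=
      ((hHs x hxW).contMDiffAt ((hU x hxW).mem_nhds (hxU x hxW))).add contMDiffAt_const
    exact (c2.congr_of_eventuallyEq h3).contMDiffWithinAt
  · intro x hx θ
    simp only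
    rw [hinv x hx θ]
  · intro x hx
    have hxW := hVW hx
    obtain ⟨k, hk⟩ := Circle.exp_eq_exp.1 (hval x hx)
    rw [hHF x hxW x (hxU x hxW)]
    simp only
    rw [hk, A.add, A.period_int]

end CircleAction

end

end Pool.Agent.Helper65.Barb


end

/-! ## Helper65.Barb.Kill -/

section

/-!
# Removing a bulk rotation near a sphere
-/

set_option autoImplicit false
set_option linter.unusedSectionVars false
set_option linter.unusedVariables false

open scoped Manifold ContDiff Topology ComplexConjugate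
open Set

namespace Pool.Agent.Helper65.Barb

/-- the open thickened sphere -/
def OShell (c r : ℝ) : Set R4 :=
  {p | -1 < p.1 ∧ p.1 < 2 ∧ rsq c p < (9 / 4 * r) ^ 2 ∧ (3 / 4 * r) ^ 2 < rsq c p}

/-- a smaller open thickened sphere -/
def NShell (c r : ℝ) : Set R4 :=
  {p | -1 / 2 < p.1 ∧ p.1 < 3 / 2 ∧ rsq c p < (17 / 8 * r) ^ 2 ∧ (7 / 8 * r) ^ 2 < rsq c p}

/-- the core of the twist -/
def Core (c r : ℝ) : Set R4 :=
  {p | 0 ≤ p.1 ∧ p.1 ≤ 1 ∧ rsq c p ≤ (2 * r) ^ 2 ∧ r ^ 2 ≤ rsq c p}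

theorem isOpen_OShell (c r : ℝ) : IsOpen (OShell c r) := by
  apply IsOpen.inter (isOpen_lt continuous_const continuous_fst)
  apply IsOpen.inter (isOpen_lt continuous_fst continuous_const)
  apply IsOpen.inter (isOpen_lt (continuous_rsq c) continuous_const)
  exact isOpen_lt continuous_const (continuous_rsq c)

theorem isOpen_NShell (c r : ℝ) : IsOpen (NShell c r) := by
  apply IsOpen.inter (isOpen_lt continuous_const continuous_fst)
  apply IsOpen.inter (isOpen_lt continuous_fst continuous_const)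
  apply IsOpen.inter (isOpen_lt (continuous_rsq c) continuous_const)
  exact isOpen_lt continuous_const (continuous_rsq c)

theorem OShell_subset_Shell (c r : ℝ) : OShell c r ⊆ Shell c r :=
  fun p hp => ⟨⟨hp.1.le, hp.2.1.le, hp.2.2.1.le⟩, hp.2.2.2.le⟩

theorem NShell_subset_OShell {c r : ℝ} (hr : 0 < r) : NShell c r ⊆ OShell c r := by
  rintro p ⟨h1, h2, h3, h4⟩
  refine ⟨by linarith, by linarith, h3.trans (by nlinarith), lt_trans (by nlinarith) h4⟩

theorem Core_subset_NShell {c r : ℝ} (hr : 0 < r) : Core c r ⊆ NShell c r := by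
  rintro p ⟨h1, h2, h3, h4⟩
  refine ⟨by linarith, by linarith, lt_of_le_of_lt h3 (by nlinarith),
    lt_of_lt_of_le (by nlinarith) h4⟩

/-- a smooth bump function of one variable, `1` on `[b, c]` and `0` outside `(a, d)` -/
noncomputable def bmp (a b c d u : ℝ) : ℝ := step ((u - a) / (b - a)) * step ((d - u) / (d - c))

theorem contDiff_bmp (a b c d : ℝ) : ContDiff ℝ ∞ (bmp a b c d) := by
  unfold bmp
  apply ContDiff.mul
  · exact contDiff_step.comp ((contDiff_id.sub contDiff_const).div_const _)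
  · exact contDiff_step.comp ((contDiff_const.sub contDiff_id).div_const _)

theorem bmp_eq_one {a b c d u : ℝ} (hab : a < b) (hcd : c < d) (h1 : b ≤ u) (h2 : u ≤ c) :
    bmp a b c d u = 1 := by
  rw [bmp, step_of_one_le, step_of_one_le, one_mul]
  · rw [le_div_iff₀ (by linarith)]; linarith
  · rw [le_div_iff₀ (by linarith)]; linarith

theorem bmp_eq_zero_left {a b c d u : ℝ} (hab : a < b) (h : u ≤ a) : bmp a b c d u = 0 := by
  rw [bmp, step_of_nonpos, zero_mul]
  exact div_nonpos_of_nonpos_of_nonneg (by linarith) (by linarith)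

theorem bmp_eq_zero_right {a b c d u : ℝ} (hcd : c < d) (h : d ≤ u) : bmp a b c d u = 0 := by
  rw [bmp, mul_comm, step_of_nonpos, zero_mul]
  exact div_nonpos_of_nonpos_of_nonneg (by linarith) (by linarith)

/-- the cut-off function -/
noncomputable def chi (c r : ℝ) (p : R4) : ℝ :=
  bmp (-3 / 4) (-1 / 2) (3 / 2) (7 / 4) p.1 *
    bmp ((13 / 16 * r) ^ 2) ((7 / 8 * r) ^ 2) ((17 / 8 * r) ^ 2) ((35 / 16 * r) ^ 2) (rsq c p)

theorem contDiff_chi (c r : ℝ) : ContDiff ℝ ∞ (chi c r) :=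
  ((contDiff_bmp _ _ _ _).comp contDiff_fst).mul ((contDiff_bmp _ _ _ _).comp (contDiff_rsq c))

theorem chi_rotp (c r θ : ℝ) (p : R4) : chi c r (rotp θ p) = chi c r p := by
  simp only [chi, rsq_rotp]; rfl

theorem chi_eq_one {c r : ℝ} (hr : 0 < r) {p : R4} (hp : p ∈ NShell c r) : chi c r p = 1 := by
  obtain ⟨h1, h2, h3, h4⟩ := hp
  rw [chi, bmp_eq_one (by norm_num) (by norm_num) h1.le h2.le,
    bmp_eq_one (by nlinarith) (by nlinarith) h4.le h3.le, one_mul]

/-- the support of the cut-off function -/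
def LShell (c r : ℝ) : Set R4 :=
  {p | -3 / 4 ≤ p.1 ∧ p.1 ≤ 7 / 4 ∧ rsq c p ≤ (35 / 16 * r) ^ 2 ∧ (13 / 16 * r) ^ 2 ≤ rsq c p}

theorem isCompact_LShell (c r : ℝ) : IsCompact (LShell c r) := by
  apply Metric.isCompact_of_isClosed_isBounded
  · apply IsClosed.inter (isClosed_le continuous_const continuous_fst)
    apply IsClosed.inter (isClosed_le continuous_fst continuous_const)
    apply IsClosed.inter (isClosed_le (continuous_rsq c) continuous_const)
    exact isClosed_le continuous_const (continuous_rsq c)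
  · exact (isBounded_of_rsq c ((35 / 16 * r) ^ 2) (-3 / 4) (7 / 4)).subset
      (fun p hp => ⟨hp.1, hp.2.1, hp.2.2.1⟩)

theorem chi_eq_zero {c r : ℝ} (hr : 0 < r) {p : R4} (hp : p ∉ LShell c r) : chi c r p = 0 := by
  rw [chi]
  by_cases h1 : -3 / 4 ≤ p.1
  · by_cases h2 : p.1 ≤ 7 / 4
    · by_cases h3 : rsq c p ≤ (35 / 16 * r) ^ 2
      · have h4 : rsq c p < (13 / 16 * r) ^ 2 := by
          by_contra h4
          exact hp ⟨h1, h2, h3, not_lt.1 h4⟩
        rw [bmp_eq_zero_left (u := rsq c p) (by nlinarith) h4.le, mul_zero]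
      · rw [bmp_eq_zero_right (u := rsq c p) (by nlinarith) (not_le.1 h3).le, mul_zero]
    · rw [bmp_eq_zero_right (u := p.1) (by norm_num) (not_le.1 h2).le, zero_mul]
  · rw [bmp_eq_zero_left (u := p.1) (by norm_num) (not_le.1 h1).le, zero_mul]

theorem LShell_subset_OShell {c r : ℝ} (hr : 0 < r) : LShell c r ⊆ OShell c r := by
  rintro p ⟨h1, h2, h3, h4⟩
  refine ⟨by linarith, by linarith, lt_of_le_of_lt h3 (by nlinarith),
    lt_of_lt_of_le (by nlinarith) h4⟩

theorem rotp_mem_OShell {c r : ℝ} (θ : ℝ) {p : R4} (hp : p ∈ OShell c r) :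
    rotp θ p ∈ OShell c r := by
  obtain ⟨h1, h2, h3, h4⟩ := hp
  exact ⟨h1, h2, by rwa [rsq_rotp], by rwa [rsq_rotp]⟩

/-- clamping to an interval -/
noncomputable def clamp (a b x : ℝ) : ℝ := max a (min b x)

theorem clamp_mem {a b : ℝ} (hab : a ≤ b) (x : ℝ) : a ≤ clamp a b x ∧ clamp a b x ≤ b :=
  ⟨le_max_left _ _, max_le hab (min_le_left _ _)⟩

theorem clamp_eq {a b x : ℝ} (h1 : a ≤ x) (h2 : x ≤ b) : clamp a b x = x := by
  rw [clamp, min_eq_right h2, max_eq_right h1]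

theorem continuous_clamp (a b : ℝ) : Continuous (clamp a b) :=
  continuous_const.max (continuous_const.min continuous_id)

section
variable {E : Type*} [NormedAddCommGroup E] [NormedSpace ℝ E] {H : Type*} [TopologicalSpace H]
  {I : ModelWithCorners ℝ E H} {M : Type*} [TopologicalSpace M] [ChartedSpace H M] [T2Space M]
  {A : CircleAction I M}

theorem kill (hfree : Dense {x : M | ∀ θ, A.act θ x = x → ∃ k : ℤ, θ = k * (2 * Real.pi)})
    (B : PartialDiffeomorph 𝓘(ℝ, R4) I R4 M ∞) {c r : ℝ} (hr : 0 < r)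
    (hB : Shell c r ⊆ B.source) (heq : ∀ p ∈ Shell c r, ∀ θ, B (rotp θ p) = A.act θ (B p))
    {G : M → M} (hG : ∀ p ∈ Shell c r, A.LB G (B p)) :
    ∃ h : M → ℝ, ContMDiff I 𝓘(ℝ, ℝ) ∞ h ∧ (∀ x θ, h (A.act θ x) = h x) ∧
      (∀ y ∉ B '' OShell c r, h y = 0) ∧ ∀ p ∈ NShell c r, G (B p) = A.act (h (B p)) (B p) := by
  classical
  have hOS := OShell_subset_Shell c r
  have hsymm : ∀ p ∈ Shell c r, B.toPartialEquiv.symm (B p) = p :=
    fun p hp => B.toPartialEquiv.left_inv (hB hp)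
  have hVo : IsOpen (B '' OShell c r) := isOpen_image B (isOpen_OShell c r) (hOS.trans hB)
  have hVt : B '' OShell c r ⊆ B.target := by
    rintro _ ⟨p, hp, rfl⟩
    exact B.toPartialEquiv.map_source (hB (hOS hp))
  have hVact : ∀ y ∈ B '' OShell c r, ∀ θ, A.act θ y ∈ B '' OShell c r := by
    rintro _ ⟨p, hp, rfl⟩ θ
    exact ⟨rotp θ p, rotp_mem_OShell θ hp, heq p (hOS hp) θ⟩
  have hsact : ∀ y ∈ B '' OShell c r, ∀ θ, B.toPartialEquiv.symm (A.act θ y) =
      rotp θ (B.toPartialEquiv.symm y) := by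
    rintro _ ⟨p, hp, rfl⟩ θ
    rw [← heq p (hOS hp) θ, hsymm _ (hOS (rotp_mem_OShell θ hp)), hsymm _ (hOS hp)]
  -- the parametrization of the orbit space
  let κ₀ : ℝ × ℝ × ℝ → R4 := fun y =>
    (clamp (-1) 2 y.1, c + clamp (3 / 4 * r) (9 / 4 * r) y.2.1 * clamp (-1) 1 y.2.2,
      ((clamp (3 / 4 * r) (9 / 4 * r) y.2.1 * √(1 - (clamp (-1) 1 y.2.2) ^ 2) : ℝ) : ℂ))
  have hκ₀c : Continuous κ₀ := by
    have c1 : Continuous fun y : ℝ × ℝ × ℝ => clamp (3 / 4 * r) (9 / 4 * r) y.2.1 :=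
      (continuous_clamp _ _).comp (continuous_fst.comp continuous_snd)
    have c2 : Continuous fun y : ℝ × ℝ × ℝ => clamp (-1) 1 y.2.2 :=
      (continuous_clamp _ _).comp (continuous_snd.comp continuous_snd)
    apply Continuous.prodMk ((continuous_clamp _ _).comp continuous_fst)
    apply Continuous.prodMk (continuous_const.add (c1.mul c2))
    apply Complex.continuous_ofReal.comp
    exact c1.mul (Real.continuous_sqrt.comp (continuous_const.sub (c2.pow 2)))
  have hrsqκ : ∀ y, rsq c (κ₀ y) = (clamp (3 / 4 * r) (9 / 4 * r) y.2.1) ^ 2 := by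
    intro y
    have h1 := clamp_mem (a := -1) (b := 1) (by norm_num) y.2.2
    have h2 : 0 ≤ 1 - (clamp (-1) 1 y.2.2) ^ 2 := by nlinarith [h1.1, h1.2]
    simp only [rsq, nsq, κ₀, Complex.ofReal_re, Complex.ofReal_im, add_sub_cancel_left]
    rw [mul_pow, mul_pow, Real.sq_sqrt h2]
    ring
  have hκ₀m : ∀ y, κ₀ y ∈ Shell c r := by
    intro y
    have h1 := clamp_mem (a := 3 / 4 * r) (b := 9 / 4 * r) (by linarith) y.2.1
    have h2 := clamp_mem (a := -1) (b := 2) (by norm_num) y.1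
    refine ⟨⟨h2.1, h2.2, ?_⟩, ?_⟩
    · rw [hrsqκ]; nlinarith [h1.1, h1.2]
    · rw [hrsqκ]; nlinarith [h1.1, h1.2]
  have hκc : Continuous fun y => B (κ₀ y) := by
    have := B.contMDiffOn_toFun.continuousOn
    exact this.comp_continuous hκ₀c (fun y => hB (hκ₀m y))
  obtain ⟨h0, hs0, hi0, hG0⟩ := CircleAction.exists_lift (A := A) hfree (F := G)
    (W := B '' Shell c r) (V := B '' OShell c r) hVo (image_mono hOS)
    (by rintro _ ⟨p, hp, rfl⟩; exact hG p hp)
    (fun y => B (κ₀ y)) hκc (fun y => ⟨_, hκ₀m y, rfl⟩)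
    (fun y => ((B.toPartialEquiv.symm y).1, √(rsq c (B.toPartialEquiv.symm y)),
      ((B.toPartialEquiv.symm y).2.1 - c) / √(rsq c (B.toPartialEquiv.symm y))))
    (by
      have c0 : ContinuousOn B.toPartialEquiv.symm (B '' OShell c r) :=
        B.contMDiffOn_invFun.continuousOn.mono hVt
      have c1 : ContinuousOn (fun y => √(rsq c (B.toPartialEquiv.symm y)))
          (B '' OShell c r) :=
        (Real.continuous_sqrt.comp (continuous_rsq c)).comp_continuousOn c0
      apply ContinuousOn.prodMk (continuous_fst.comp_continuousOn c0)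
      apply ContinuousOn.prodMk c1
      apply ContinuousOn.div _ c1
      · rintro _ ⟨p, hp, rfl⟩
        rw [hsymm p (hOS hp)]
        apply (Real.sqrt_pos.2 _).ne'
        have := hp.2.2.2
        have h2 : 0 < (3 / 4 * r) ^ 2 := by positivity
        linarith
      · exact ((continuous_fst.comp continuous_snd).comp_continuousOn c0).sub
          continuousOn_const)
    (by
      intro x hx θ
      rw [hsact x hx θ, rsq_rotp]
      rfl)
    (by
      rintro _ ⟨p, hp, rfl⟩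
      rw [hsymm p (hOS hp)]
      obtain ⟨s, a, w⟩ := p
      have hp' := hp
      obtain ⟨h1, h2, h3, h4⟩ := hp'
      simp only at h1 h2
      have h5 : 0 < rsq c (s, a, w) := lt_trans (by positivity) h4
      set ρ := √(rsq c (s, a, w)) with hρ
      have h6 : ρ ^ 2 = rsq c (s, a, w) := Real.sq_sqrt h5.le
      have h7 : 0 < ρ := Real.sqrt_pos.2 h5
      have h8 : 3 / 4 * r ≤ ρ := by
        apply Real.le_sqrt_of_sq_le h4.le
      have h9 : ρ ≤ 9 / 4 * r := by
        rw [hρ]; apply Real.sqrt_le_iff.2 ⟨by linarith, h3.le⟩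
      have h10 : rsq c (s, a, w) = (a - c) ^ 2 + ‖w‖ ^ 2 := by
        simp only [rsq, nsq]
        rw [← Complex.normSq_eq_norm_sq, Complex.normSq_apply]; ring
      have h11 : -1 ≤ (a - c) / ρ ∧ (a - c) / ρ ≤ 1 := by
        rw [le_div_iff₀ h7, div_le_iff₀ h7]
        constructor <;> nlinarith [sq_nonneg ‖w‖, abs_le_of_sq_le_sq' (a := a - c) (b := ρ)
          (by nlinarith [sq_nonneg ‖w‖]) h7.le]
      have h12 : κ₀ (s, ρ, (a - c) / ρ) = (s, a, (‖w‖ : ℂ)) := by
        simp only [κ₀]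
        rw [clamp_eq h1.le h2.le, clamp_eq h8 h9, clamp_eq h11.1 h11.2]
        refine Prod.ext rfl (Prod.ext ?_ ?_)
        · simp only
          field_simp
          ring
        · simp only
          congr 1
          have h13 : ρ * √(1 - ((a - c) / ρ) ^ 2) = √(ρ ^ 2 * (1 - ((a - c) / ρ) ^ 2)) := by
            rw [Real.sqrt_mul (by positivity), Real.sqrt_sq h7.le]
          rw [h13]
          have h14 : ρ ^ 2 * (1 - ((a - c) / ρ) ^ 2) = ‖w‖ ^ 2 := by
            field_simp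
            rw [h6, h10]
            ring
          rw [h14, Real.sqrt_sq (norm_nonneg w)]
      refine ⟨Complex.arg w, ?_⟩
      rw [h12, ← heq _ (by rw [← h12]; exact hκ₀m _)]
      congr 1
      simp only [rotp]
      rw [mul_comm, Complex.norm_mul_exp_arg_mul_I])
  -- cut off
  let h : M → ℝ := fun y => if y ∈ B '' OShell c r then
    chi c r (B.toPartialEquiv.symm y) * h0 y else 0
  have hzero : ∀ y ∉ B '' LShell c r, h y = 0 := by
    intro y hy
    by_cases hy2 : y ∈ B '' OShell c r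
    · simp only [h]
      rw [if_pos hy2]
      obtain ⟨p, hp, rfl⟩ := hy2
      rw [hsymm p (hOS hp), chi_eq_zero hr (fun hL => hy ⟨p, hL, rfl⟩), zero_mul]
    · simp only [h]
      rw [if_neg hy2]
  refine ⟨h, ?_, ?_, ?_, ?_⟩
  · intro y
    by_cases hy : y ∈ B '' OShell c r
    · have c1 : ContMDiffOn I 𝓘(ℝ, ℝ) ∞
          (fun y => chi c r (B.toPartialEquiv.symm y) * h0 y) (B '' OShell c r) := by
        apply ContMDiffOn.mul _ hs0
        exact (contDiff_chi c r).contMDiff.comp_contMDiffOn (B.contMDiffOn_invFun.mono hVt)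
      have c2 := c1.contMDiffAt (hVo.mem_nhds hy)
      apply c2.congr_of_eventuallyEq
      filter_upwards [hVo.mem_nhds hy] with z hz
      simp only [h]
      rw [if_pos hz]
    · have hy2 : y ∉ B '' LShell c r := fun h => hy (image_mono (LShell_subset_OShell hr) h)
      have ho := isOpen_compl_image B (isCompact_LShell c r)
        (((LShell_subset_OShell hr).trans hOS).trans hB)
      have c2 : ContMDiffAt I 𝓘(ℝ, ℝ) ∞ (fun _ : M => (0 : ℝ)) y := contMDiffAt_const
      apply c2.congr_of_eventuallyEq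
      filter_upwards [ho.mem_nhds hy2] with z hz
      exact hzero z hz
  · intro y θ
    by_cases hy : y ∈ B '' OShell c r
    · simp only [h]
      rw [if_pos hy, if_pos (hVact y hy θ), hsact y hy θ, chi_rotp, hi0 y hy θ]
    · have hy2 : A.act θ y ∉ B '' OShell c r := by
        intro hh
        have := hVact _ hh (-θ)
        rw [A.neg_act] at this
        exact hy this
      simp only [h]
      rw [if_neg hy, if_neg hy2]
  · intro y hy
    simp only [h]
    rw [if_neg hy]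
  · intro p hp
    have hpO := NShell_subset_OShell hr hp
    have hy : B p ∈ B '' OShell c r := ⟨p, hpO, rfl⟩
    have h1 : h (B p) = h0 (B p) := by
      simp only [h]
      rw [if_pos hy, hsymm p (hOS hpO), chi_eq_one hr hp, one_mul]
    rw [h1]
    exact hG0 _ hy

end

end Pool.Agent.Helper65.Barb


end

/-! ## Helper65.Barb.Main0 -/

section

/-!
# Equivariant barbells: the reduction
-/

set_option autoImplicit false
set_option linter.unusedSectionVars false
set_option linter.unusedVariables false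

open scoped Manifold ContDiff Topology ComplexConjugate
open Set

namespace Pool.Agent.Helper65.Barb

/-! ### formulas for the barbell map -/

theorem barMap_shell_zero {p : R4} (hp : p ∈ Shell 0 (1 / 5)) :
    barMap ((twist 0 (1 / 5)).f (1, p)) = rotp (4 * Real.pi * step p.1) p := by
  have h1 : rsq 0 p ≤ (9 / 20) ^ 2 := hp.1.2.2.trans (by norm_num)
  rw [barMap, bfam_apply, (twist 0 (1 / 5)).gf, twist_inv_of_ge (by norm_num) (rsq_one_ge h1),
    twist_of_le (by norm_num) le_rfl (h1.trans (by norm_num))]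

theorem barMap_shell_one {p : R4} (hp : p ∈ Shell 1 (1 / 5)) :
    barMap ((twist 1 (1 / 5)).f (1, p)) = rotp (4 * Real.pi * step p.1) p := by
  have h1 : rsq 1 p ≤ (9 / 20) ^ 2 := hp.1.2.2.trans (by norm_num)
  have h2 : rsq 1 ((twist 1 (1 / 5)).f (1, p)) ≤ (9 / 20) ^ 2 := by rwa [rsq_twist]
  rw [barMap, bfam_apply, twist_inv_of_ge (c := 0) (by norm_num) (rsq_zero_ge h2),
    (twist 1 (1 / 5)).gf,
    twist_of_le (by norm_num) le_rfl ((rsq_zero_le h1).trans (by norm_num))]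

theorem barMap_shell_two {p : R4} (hp : p ∈ Shell 0 2) :
    barMap ((twist 0 2).g (1, p)) = p := by
  have h1 : (3 / 2) ^ 2 ≤ rsq 0 p := le_trans (by norm_num) hp.2
  have h2 : (3 / 2) ^ 2 ≤ rsq 0 ((twist 0 2).g (1, p)) := by rwa [rsq_twist_inv]
  rw [barMap, bfam_apply,
    twist_inv_of_ge (c := 0) (r := 1 / 5) (by norm_num) (le_trans (by norm_num) h2),
    twist_inv_of_ge (c := 1) (by norm_num) (rsq_one_ge' h2), (twist 0 2).fg]

theorem barMap_mid {p : R4} (h0 : (2 / 5) ^ 2 ≤ rsq 0 p) (h1 : (2 / 5) ^ 2 ≤ rsq 1 p)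
    (h2 : rsq 0 p ≤ 2 ^ 2) : barMap p = rotp (4 * Real.pi * step p.1) p := by
  rw [barMap, bfam_apply, twist_inv_of_ge (c := 0) (by norm_num) (le_trans (by norm_num) h0),
    twist_inv_of_ge (c := 1) (by norm_num) (le_trans (by norm_num) h1),
    twist_of_le (by norm_num) le_rfl h2]

/-- the support of the standard barbell map -/
def bsupp : Set R4 := {p | p ∈ tsupp 0 2 ∧ (1 / 5) ^ 2 ≤ rsq 0 p ∧ (1 / 5) ^ 2 ≤ rsq 1 p}

theorem isCompact_bsupp : IsCompact bsupp := by
  apply (isCompact_tsupp 0 2).inter_right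
  apply IsClosed.inter (isClosed_le continuous_const (continuous_rsq 0))
  exact isClosed_le continuous_const (continuous_rsq 1)

theorem bsupp_subset : bsupp ⊆ NB := by
  rintro p ⟨h1, h2, h3⟩
  exact ⟨interior_subset (tsupp_subset_interior h1), le_trans (by norm_num) h2,
    le_trans (by norm_num) h3⟩

theorem barMap_off {p : R4} (hp : p ∉ bsupp) : barMap p = p := by
  by_cases h : p ∈ tsupp 0 2
  · by_cases h0 : (1 / 5) ^ 2 ≤ rsq 0 p
    · have h1 : rsq 1 p ≤ (1 / 5) ^ 2 := by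
        by_contra h1
        exact hp ⟨h, h0, (not_le.1 h1).le⟩
      obtain ⟨s, x⟩ := p
      obtain ⟨y, rfl⟩ : ∃ y : ℝ × ℂ, x = (1, 0) + y := ⟨x - (1, 0), by abel⟩
      have hy : nsq y ≤ (1 / 5) ^ 2 := by
        have : rsq 1 (s, (1, 0) + y) = nsq y := by simp [rsq]
        rw [← this]; exact h1
      rw [barMap, bfam_near_one 1 s y hy, step_of_one_le le_rfl, spin_one]
      simp
    · exact bfam_near_zero 1 (not_le.1 h0).le
  · exact bfam_support 1 p h

/-! ### geometry of the shells -/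

theorem Shell_zero_subset : Shell 0 (1 / 5) ⊆ NB := by
  rintro p ⟨⟨h1, h2, h3⟩, h4⟩
  have h5 : rsq 0 p ≤ (9 / 20) ^ 2 := h3.trans (by norm_num)
  exact ⟨⟨h1, h2, h3.trans (by norm_num)⟩, le_trans (by norm_num) h4,
    le_trans (by norm_num) (rsq_one_ge h5)⟩

theorem Shell_one_subset : Shell 1 (1 / 5) ⊆ NB := by
  rintro p ⟨⟨h1, h2, h3⟩, h4⟩
  have h5 : rsq 1 p ≤ (9 / 20) ^ 2 := h3.trans (by norm_num)
  exact ⟨⟨h1, h2, (rsq_zero_le h5).trans (by norm_num)⟩, le_trans (by norm_num) (rsq_zero_ge h5),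
    le_trans (by norm_num) h4⟩

theorem Shell_two_subset : Shell 0 2 ⊆ NB := by
  rintro p ⟨⟨h1, h2, h3⟩, h4⟩
  have h5 : (3 / 2) ^ 2 ≤ rsq 0 p := le_trans (by norm_num) h4
  exact ⟨⟨h1, h2, h3.trans (by norm_num)⟩, le_trans (by norm_num) h4,
    le_trans (by norm_num) (rsq_one_ge' h5)⟩

theorem disj_zero_one : Disjoint (Shell 0 (1 / 5)) (Shell 1 (1 / 5)) := by
  rw [Set.disjoint_left]
  rintro p ⟨⟨h1, h2, h3⟩, h4⟩ ⟨⟨h5, h6, h7⟩, h8⟩
  have := sq_le_rsq p
  have := sq_le_rsq_one p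
  nlinarith

theorem disj_zero_two : Disjoint (Shell 0 (1 / 5)) (Shell 0 2) := by
  rw [Set.disjoint_left]
  rintro p ⟨⟨h1, h2, h3⟩, h4⟩ ⟨⟨h5, h6, h7⟩, h8⟩
  norm_num at h3 h8
  linarith

theorem disj_one_two : Disjoint (Shell 1 (1 / 5)) (Shell 0 2) := by
  rw [Set.disjoint_left]
  rintro p ⟨⟨h1, h2, h3⟩, h4⟩ ⟨⟨h5, h6, h7⟩, h8⟩
  have := sq_le_rsq_one p
  rw [rsq_one_eq] at this h3
  nlinarith

theorem Core_subset_Shell {c r : ℝ} (hr : 0 < r) : Core c r ⊆ Shell c r :=
  (Core_subset_NShell hr).trans ((NShell_subset_OShell hr).trans (OShell_subset_Shell c r))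

theorem NShell_subset_Shell {c r : ℝ} (hr : 0 < r) : NShell c r ⊆ Shell c r :=
  (NShell_subset_OShell hr).trans (OShell_subset_Shell c r)

theorem twist_mem_Shell {c r t : ℝ} {p : R4} (hp : p ∈ Shell c r) :
    (twist c r).f (t, p) ∈ Shell c r := by
  obtain ⟨⟨h1, h2, h3⟩, h4⟩ := hp
  exact ⟨⟨h1, h2, by rwa [rsq_twist]⟩, by rwa [rsq_twist]⟩

theorem twist_inv_mem_Shell {c r t : ℝ} {p : R4} (hp : p ∈ Shell c r) :
    (twist c r).g (t, p) ∈ Shell c r := by
  obtain ⟨⟨h1, h2, h3⟩, h4⟩ := hp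
  exact ⟨⟨h1, h2, by rwa [rsq_twist_inv]⟩, by rwa [rsq_twist_inv]⟩

theorem twist_mem_NShell {c r t : ℝ} {p : R4} (hp : p ∈ NShell c r) :
    (twist c r).f (t, p) ∈ NShell c r := by
  obtain ⟨h1, h2, h3, h4⟩ := hp
  exact ⟨h1, h2, by rwa [rsq_twist], by rwa [rsq_twist]⟩

theorem twist_inv_mem_NShell {c r t : ℝ} {p : R4} (hp : p ∈ NShell c r) :
    (twist c r).g (t, p) ∈ NShell c r := by
  obtain ⟨h1, h2, h3, h4⟩ := hp
  exact ⟨h1, h2, by rwa [rsq_twist_inv], by rwa [rsq_twist_inv]⟩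

theorem rotp_mem_NShell {c r : ℝ} (θ : ℝ) {p : R4} (hp : p ∈ NShell c r) :
    rotp θ p ∈ NShell c r := by
  obtain ⟨h1, h2, h3, h4⟩ := hp
  exact ⟨h1, h2, by rwa [rsq_rotp], by rwa [rsq_rotp]⟩

/-- the angle of the bulk rotation -/
noncomputable def ang (p : R4) : ℝ := 4 * Real.pi * step p.1

theorem contDiff_ang : ContDiff ℝ ∞ ang := contDiff_const.mul (contDiff_step.comp contDiff_fst)

theorem ang_rotp (θ : ℝ) (p : R4) : ang (rotp θ p) = ang p := rfl

section
variable {E : Type*} [NormedAddCommGroup E] [NormedSpace ℝ E] {H : Type*} [TopologicalSpace H]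
  {I : ModelWithCorners ℝ E H} {M : Type*} [TopologicalSpace M] [ChartedSpace H M] [T2Space M]

/-- The sphere of the barbell `B` with centre `c` and radius `r` bounds an invariant 3-ball: the
restriction of `B` to the thickened sphere `Shell c r` extends to an equivariant open embedding
of (a neighbourhood of) the thickened 3-ball `Ball c r`. -/
def BoundsBall (A : CircleAction I M) (B : PartialDiffeomorph 𝓘(ℝ, R4) I R4 M ∞) (c r : ℝ) :
    Prop :=
  ∃ δ : PartialDiffeomorph 𝓘(ℝ, R4) I R4 M ∞, Ball c r ⊆ δ.source ∧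
    (∀ p ∈ Ball c r, ∀ θ, δ (rotp θ p) = A.act θ (δ p)) ∧ ∀ p ∈ Shell c r, δ p = B p

variable {A : CircleAction I M}

theorem LB_rot (δ : PartialDiffeomorph 𝓘(ℝ, R4) I R4 M ∞) {U : Set R4} (hU : IsOpen U)
    (hUs : U ⊆ δ.source) (hUr : ∀ p ∈ U, ∀ θ, rotp θ p ∈ U)
    (heq : ∀ p ∈ U, ∀ θ, δ (rotp θ p) = A.act θ (δ p)) {φ : R4 → ℝ} (hφ : ContDiff ℝ ∞ φ)
    (hφr : ∀ p θ, φ (rotp θ p) = φ p) {F : M → M} (hF : ∀ p ∈ U, F (δ p) = δ (rotp (φ p) p))
    {p : R4} (hp : p ∈ U) : A.LB F (δ p) := by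
  have hVo : IsOpen (δ '' U) := isOpen_image δ hU hUs
  have hVt : δ '' U ⊆ δ.target := by
    rintro _ ⟨q, hq, rfl⟩
    exact δ.toPartialEquiv.map_source (hUs hq)
  have hsymm : ∀ q ∈ U, δ.toPartialEquiv.symm (δ q) = q :=
    fun q hq => δ.toPartialEquiv.left_inv (hUs hq)
  refine ⟨δ '' U, hVo, ⟨p, hp, rfl⟩, ?_, fun y => φ (δ.toPartialEquiv.symm y), ?_, ?_, ?_⟩
  · rintro _ ⟨q, hq, rfl⟩ θ
    exact ⟨rotp θ q, hUr q hq θ, heq q hq θ⟩
  · exact hφ.contMDiff.comp_contMDiffOn (δ.contMDiffOn_invFun.mono hVt)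
  · rintro _ ⟨q, hq, rfl⟩ θ
    beta_reduce
    rw [← heq q hq θ, hsymm _ (hUr q hq θ), hsymm q hq, hφr]
  · rintro _ ⟨q, hq, rfl⟩
    beta_reduce
    rw [hF q hq, hsymm q hq, heq q hq]

theorem LB_off (δ : PartialDiffeomorph 𝓘(ℝ, R4) I R4 M ∞) {K : Set R4} (hKc : IsCompact K)
    (hKs : K ⊆ δ.source) (hKr : ∀ p ∈ K, ∀ θ, rotp θ p ∈ K)
    (heq : ∀ p ∈ K, ∀ θ, δ (rotp θ p) = A.act θ (δ p)) {F : M → M}
    (hF : ∀ y ∉ δ '' K, F y = y) {y : M} (hy : y ∉ δ '' K) : A.LB F y := by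
  refine ⟨(δ '' K)ᶜ, isOpen_compl_image δ hKc hKs, hy, ?_, fun _ => 0, contMDiffOn_const,
    fun _ _ _ => rfl, fun z hz => ?_⟩
  · rintro z hz θ ⟨q, hq, hqz⟩
    apply hz
    refine ⟨rotp (-θ) q, hKr q hq _, ?_⟩
    rw [heq q hq, hqz, A.neg_act]
  · rw [hF z hz, A.zero]

theorem exists_g {B : PartialDiffeomorph 𝓘(ℝ, R4) I R4 M ∞} {c r : ℝ} (hr : 0 < r)
    (hb : BoundsBall A B c r) :
    ∃ g g' : M → M, Isot I (fun x => x) g ∧ (∀ y, g (g' y) = y) ∧ (∀ y, g' (g y) = y) ∧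
      (∀ p ∈ Shell c r, g (B p) = B ((twist c r).f (1, p))) ∧
      (∀ p ∈ Shell c r, g' (B p) = B ((twist c r).g (1, p))) ∧
      ∀ y ∉ B '' Core c r, A.LB g y := by
  obtain ⟨δ, hδs, hδe, hδB⟩ := hb
  have hts : tsupp c r ⊆ Ball c r := by
    rintro p ⟨h1, h2, h3⟩
    exact ⟨by linarith, by linarith, h3.trans (by nlinarith)⟩
  have htw : ∀ t p, p ∉ tsupp c r → (twist c r).f (t, p) = p :=
    fun t p hp => twist_of_notMem hr t p hp
  let T := (twist c r).push δ (isCompact_tsupp c r) (hts.trans hδs) htw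
  have hTf : ∀ t y, T.f (t, y) = push δ (fun x => (twist c r).f (t, x)) y := fun _ _ => rfl
  have hTg : ∀ t y, T.g (t, y) = push δ (fun x => (twist c r).g (t, x)) y := fun _ _ => rfl
  have hSB : Shell c r ⊆ Ball c r := fun p hp => hp.1
  refine ⟨fun y => T.f (1, y), fun y => T.g (1, y), ⟨T, ?_, fun _ => rfl⟩, fun y => T.fg 1 y,
    fun y => T.gf 1 y, ?_, ?_, ?_⟩
  · intro y
    rw [hTf]
    have : (fun x => (twist c r).f (0, x)) = fun x => x := by
      funext x; exact twist_of_time le_rfl x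
    rw [this]
    exact push_id δ y
  · intro p hp
    beta_reduce
    rw [← hδB p hp, hTf, push_of_mem δ _ (hδs (hSB hp)), hδB _ (twist_mem_Shell hp)]
  · intro p hp
    beta_reduce
    rw [← hδB p hp, hTg, push_of_mem δ _ (hδs (hSB hp)), hδB _ (twist_inv_mem_Shell hp)]
  · intro y hy
    by_cases hyt : y ∈ δ '' tsupp c r
    · obtain ⟨p, hp, rfl⟩ := hyt
      have h1 : rsq c p < r ^ 2 := by
        by_contra hcon
        apply hy
        have hC : p ∈ Core c r := ⟨hp.1, hp.2.1, hp.2.2, not_lt.1 hcon⟩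
        exact ⟨p, hC, (hδB p (Core_subset_Shell hr hC)).symm⟩
      have hUo : IsOpen {q : R4 | -1 < q.1 ∧ q.1 < 2 ∧ rsq c q < r ^ 2} := by
        apply IsOpen.inter (isOpen_lt continuous_const continuous_fst)
        apply IsOpen.inter (isOpen_lt continuous_fst continuous_const)
        exact isOpen_lt (continuous_rsq c) continuous_const
      have hUB : {q : R4 | -1 < q.1 ∧ q.1 < 2 ∧ rsq c q < r ^ 2} ⊆ Ball c r := by
        rintro q ⟨h1, h2, h3⟩
        exact ⟨h1.le, h2.le, h3.le.trans (by nlinarith)⟩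
      apply LB_rot (A := A) δ hUo (hUB.trans hδs) _ (fun q hq => hδe q (hUB hq)) contDiff_ang
        (fun q θ => ang_rotp θ q) _ (p := p) ⟨by linarith [hp.1], by linarith [hp.2.1], h1⟩
      · rintro q ⟨h1, h2, h3⟩ θ
        exact ⟨h1, h2, by rwa [rsq_rotp]⟩
      · rintro q hq
        rw [hTf, push_of_mem δ _ (hδs (hUB hq)), twist_of_le hr le_rfl hq.2.2.le]
        rfl
    · apply LB_off (A := A) δ (isCompact_tsupp c r) (hts.trans hδs) _
        (fun q hq => hδe q (hts hq)) _ hyt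
      · rintro q ⟨h1, h2, h3⟩ θ
        exact ⟨h1, h2, by rwa [rsq_rotp]⟩
      · intro z hz
        rw [hTf]
        exact push_of_notMem δ _ (hts.trans hδs) (fun x hx => htw 1 x hx) hz

theorem exists_G (hfree : Dense {x : M | ∀ θ, A.act θ x = x → ∃ k : ℤ, θ = k * (2 * Real.pi)})
    {B : PartialDiffeomorph 𝓘(ℝ, R4) I R4 M ∞} {c r c1 r1 c2 r2 : ℝ} (hr : 0 < r) (hr1 : 0 < r1)
    (hr2 : 0 < r2) (hB : Shell c r ⊆ B.source) (hB1 : Shell c1 r1 ⊆ B.source)
    (hB2 : Shell c2 r2 ⊆ B.source)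
    (he1 : ∀ p ∈ Shell c1 r1, ∀ θ, B (rotp θ p) = A.act θ (B p))
    (he2 : ∀ p ∈ Shell c2 r2, ∀ θ, B (rotp θ p) = A.act θ (B p))
    (hd1 : Disjoint (Shell c r) (Shell c1 r1)) (hd2 : Disjoint (Shell c r) (Shell c2 r2))
    (hd12 : Disjoint (Shell c1 r1) (Shell c2 r2)) (b : Prop) (hb : b → BoundsBall A B c r) :
    ∃ G G' : M → M, Isot I (fun x => x) G ∧ (∀ y, G (G' y) = y) ∧ (∀ y, G' (G y) = y) ∧
      (b → ∀ p ∈ Shell c r, G (B p) = B ((twist c r).f (1, p)) ∧
        G' (B p) = B ((twist c r).g (1, p))) ∧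
      (¬ b → ∀ y, G y = y ∧ G' y = y) ∧
      (∀ y ∉ B '' Core c r, A.LB G y) ∧
      (∀ p ∈ NShell c1 r1, G (B p) = B p ∧ G' (B p) = B p) ∧
      (∀ p ∈ NShell c2 r2, G (B p) = B p ∧ G' (B p) = B p) := by
  by_cases hbb : b
  · obtain ⟨g, g', hgi, hgg', hg'g, hgS, hg'S, hgL⟩ := exists_g hr (hb hbb)
    have hinj : ∀ p ∈ B.source, ∀ q ∈ B.source, B p = B q → p = q :=
      fun p hp q hq h => B.toPartialEquiv.injOn hp hq h
    have hnot : ∀ {ca ra cb rb : ℝ}, Shell ca ra ⊆ B.source → Shell cb rb ⊆ B.source →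
        Disjoint (Shell ca ra) (Shell cb rb) → ∀ p ∈ Shell ca ra, B p ∉ B '' Shell cb rb := by
      rintro ca ra cb rb ha hb' hd p hp ⟨q, hq, hqp⟩
      have := hinj q (hb' hq) p (ha hp) hqp
      subst this
      exact Set.disjoint_left.1 hd hp hq
    obtain ⟨h1, hs1, hi1, hz1, hk1⟩ := kill (A := A) hfree B hr1 hB1 he1 (G := g) (by
      intro p hp
      apply hgL
      intro hc
      exact hnot hB1 hB hd1.symm p hp (image_mono (Core_subset_Shell hr) hc))
    obtain ⟨h2, hs2, hi2, hz2, hk2⟩ := kill (A := A) hfree B hr2 hB2 he2 (G := g) (by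
      intro p hp
      apply hgL
      intro hc
      exact hnot hB2 hB hd2.symm p hp (image_mono (Core_subset_Shell hr) hc))
    have hz1' : ∀ {ca ra : ℝ}, Shell ca ra ⊆ B.source → Disjoint (Shell ca ra) (Shell c1 r1) →
        ∀ p ∈ Shell ca ra, h1 (B p) = 0 := by
      intro ca ra ha hd p hp
      apply hz1
      intro hc
      exact hnot ha hB1 hd p hp (image_mono (OShell_subset_Shell c1 r1) hc)
    have hz2' : ∀ {ca ra : ℝ}, Shell ca ra ⊆ B.source → Disjoint (Shell ca ra) (Shell c2 r2) →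
        ∀ p ∈ Shell ca ra, h2 (B p) = 0 := by
      intro ca ra ha hd p hp
      apply hz2
      intro hc
      exact hnot ha hB2 hd p hp (image_mono (OShell_subset_Shell c2 r2) hc)
    let h : M → ℝ := fun y => h1 y + h2 y
    have hs : ContMDiff I 𝓘(ℝ, ℝ) ∞ h := hs1.add hs2
    have hi : ∀ x θ, h (A.act θ x) = h x := by
      intro x θ
      simp only [h, hi1, hi2]
    have hsn : ContMDiff I 𝓘(ℝ, ℝ) ∞ (fun y => -h y) := hs.neg
    have hin : ∀ x θ, -h (A.act θ x) = -h x := by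
      intro x θ
      rw [hi]
    have hGG' : ∀ y, A.act (-h (g (g' (A.act (h y) y)))) (g (g' (A.act (h y) y))) = y := by
      intro y
      rw [hgg', hi, A.neg_act]
    have hG'G : ∀ y, g' (A.act (h (A.act (-h (g y)) (g y))) (A.act (-h (g y)) (g y))) = y := by
      intro y
      rw [hi, A.act_neg, hg'g]
    have hN1 : ∀ p ∈ NShell c1 r1, A.act (-h (g (B p))) (g (B p)) = B p := by
      intro p hp
      have e1 := hk1 p hp
      have e2 : h (B p) = h1 (B p) := by
        simp only [h]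
        rw [hz2' hB1 hd12 p (NShell_subset_Shell hr1 hp), add_zero]
      rw [e1, hi, e2, A.neg_act]
    have hN2 : ∀ p ∈ NShell c2 r2, A.act (-h (g (B p))) (g (B p)) = B p := by
      intro p hp
      have e1 := hk2 p hp
      have e2 : h (B p) = h2 (B p) := by
        simp only [h]
        rw [hz1' hB2 hd12.symm p (NShell_subset_Shell hr2 hp), zero_add]
      rw [e1, hi, e2, A.neg_act]
    refine ⟨fun y => A.act (-h (g y)) (g y), fun y => g' (A.act (h y) y),
      (A.isot_bulk hsn hin).comp hgi, hGG', hG'G, ?_, fun hnb => absurd hbb hnb, ?_, ?_, ?_⟩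
    · intro _ p hp
      have e0 : ∀ q ∈ Shell c r, h (B q) = 0 := by
        intro q hq
        simp only [h]
        rw [hz1' hB hd1 q hq, hz2' hB hd2 q hq, add_zero]
      simp only
      rw [hgS p hp, e0 _ (twist_mem_Shell hp), e0 p hp, neg_zero, A.zero, A.zero, hg'S p hp]
      exact ⟨rfl, rfl⟩
    · intro y hy
      have e1 : A.LB (fun z => A.act (-h z) z) y :=
        CircleAction.LB.of_global hsn hin (fun _ => rfl) y
      exact e1.comp (hgL y hy)
    · intro p hp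
      refine ⟨hN1 p hp, ?_⟩
      have := hG'G (B p)
      rwa [hN1 p hp] at this
    · intro p hp
      refine ⟨hN2 p hp, ?_⟩
      have := hG'G (B p)
      rwa [hN2 p hp] at this
  · exact ⟨fun y => y, fun y => y, Isot.one, fun _ => rfl, fun _ => rfl,
      fun h => absurd h hbb, fun _ y => ⟨rfl, rfl⟩, fun y _ => CircleAction.LB.id A y,
      fun p _ => ⟨rfl, rfl⟩, fun p _ => ⟨rfl, rfl⟩⟩

end

end Pool.Agent.Helper65.Barb


end

/-! ## Helper18.BI.Defs -/

section

/-!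
# Project BI (MP_8e98f2_gt): definitions

Bar independence of barbell implantations in the 4-sphere modulo half-unknotted barbells.
Everything is done with germs of embeddings along the two-dimensional spine `SP` of the thickened
barbell.  Coordinates as in `Helper65.Barb`: `R4 = ℝ × ℝ × ℂ`, `p = (s, a, w)`, `x = (a, w)` in
three-space, `nsq x = |x|^2`, `rsq c p = |x - (c, 0)|^2`.
-/

set_option autoImplicit false

open scoped Manifold ContDiff Topology ComplexConjugate
open Set Pool.Agent.Helper65.Barb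

namespace Pool.Agent.Helper18.BI

/-- three-space, points written `(a, w)` -/
abbrev R3 : Type := ℝ × ℂ

section
variable {E : Type*} [NormedAddCommGroup E] [NormedSpace ℝ E] {H : Type*} [TopologicalSpace H]
  (I : ModelWithCorners ℝ E H) {M : Type*} [TopologicalSpace M] [ChartedSpace H M]

/-- `φ` and `ψ` are joined by a smooth isotopy supported in a compact subset of `M`. -/
def CIsot (φ ψ : M → M) : Prop :=
  ∃ F : DFam I M, (∃ C : Set M, IsCompact C ∧ ∀ t x, x ∉ C → F.f (t, x) = x) ∧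
    (∀ x, F.f (0, x) = φ x) ∧ ∀ x, F.f (1, x) = ψ x

/-- Isotopy supported in the set `C`. -/
def IsotIn (C : Set M) (φ ψ : M → M) : Prop :=
  ∃ F : DFam I M, (∀ t x, x ∉ C → F.f (t, x) = x) ∧
    (∀ x, F.f (0, x) = φ x) ∧ ∀ x, F.f (1, x) = ψ x

/-- `F` is a germ of an embedding along `L`: it is a local diffeomorphism at every point of `L`
and injective on `L`. -/
def EmbOn (F : R4 → M) (L : Set R4) : Prop :=
  (∀ p ∈ L, IsLocalDiffeomorphAt 𝓘(ℝ, R4) I ∞ F p) ∧ InjOn F L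

/-- The map `T` of `R4` (equal to the identity off `K`) transported to `M` by `F`, extended by the
identity: the implantation of `T` along `F`. -/
noncomputable def imp (F : R4 → M) (K : Set R4) (T : R4 → R4) (y : M) : M :=
  open Classical in if h : ∃ p ∈ K, F p = y then F (T h.choose) else y

/-- `J` is a smooth family, parametrized by `t ∈ [0,1]`, of germs of embeddings along `L`. -/
def FamOn (J : ℝ × R4 → M) (L : Set R4) : Prop :=
  (∃ W : Set (ℝ × R4), IsOpen W ∧ Icc 0 1 ×ˢ L ⊆ W ∧ ContMDiffOn 𝓘(ℝ, ℝ × R4) I ∞ J W) ∧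
    ∀ t ∈ Icc (0 : ℝ) 1, EmbOn I (fun p => J (t, p)) L

end

/-! ### the spine -/

/-- the core sphere of the cuff around `(s, c, 0)` -/
def sph (c : ℝ) : Set R4 := {p | p.1 = 1 / 2 ∧ rsq c p = 1 / 25}

/-- the flat ball bounded by `sph c` -/
def flat (c : ℝ) : Set R4 := {p | p.1 = 1 / 2 ∧ rsq c p ≤ 1 / 25}

/-- the core of the bar -/
def neck : Set R4 := {p | p.1 = 1 / 2 ∧ 1 / 5 ≤ p.2.1 ∧ p.2.1 ≤ 4 / 5 ∧ p.2.2 = 0}

/-- the spine of the thickened barbell -/
def SP : Set R4 := sph 0 ∪ sph 1 ∪ neck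

/-- the spine with the two flat balls filled in -/
def FB : Set R4 := flat 0 ∪ flat 1 ∪ neck

/-- the product model of a ball containing everything (this is `ball4`) minus nothing; open tubes
around the vertical lines over points of three-space -/
def tube (x₀ : R3) (r : ℝ) : Set R4 := {p | nsq (p.2 - x₀) < r ^ 2}

/-! ### the compression of the thickened barbell to its spine -/

/-- the profile (the squared width as a function of the axial coordinate) -/
noncomputable def prof (ε a : ℝ) : ℝ :=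
  ((1 / 25 - a ^ 2) + √((1 / 25 - a ^ 2) ^ 2 + ε ^ 2)) / 2 +
    ((1 / 25 - (a - 1) ^ 2) + √((1 / 25 - (a - 1) ^ 2) ^ 2 + ε ^ 2)) / 2

/-- the axial compression -/
noncomputable def axc (ε a : ℝ) : ℝ :=
  1 / 2 + (√((a + 1 / 5) ^ 2 + ε ^ 2) - √((a - 6 / 5) ^ 2 + ε ^ 2)) / 2

/-- the transversal compression factor; `k` stands for `|w|^2` -/
noncomputable def fac (ε a k : ℝ) : ℝ :=
  √(2 * prof ε a /
    (k + prof ε a + ε + √((k - prof ε a) ^ 2 + 2 * ε * (k + prof ε a) + ε ^ 2)))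

/-- The compression: for `ε > 0` an open embedding of `R4` into itself; for `ε → 0` it converges
to a retraction onto the spine (on the complement of the two open balls of radius `1/5`). -/
noncomputable def sq (ε : ℝ) (p : R4) : R4 :=
  (1 / 2 + ε * (p.1 - 1 / 2), axc ε p.2.1,
    ((fac ε p.2.1 (Complex.normSq p.2.2) : ℝ) : ℂ) * p.2.2)

section
variable {E : Type*} [NormedAddCommGroup E] [NormedSpace ℝ E] {H : Type*} [TopologicalSpace H]
  (I : ModelWithCorners ℝ E H) {M : Type*} [TopologicalSpace M] [ChartedSpace H M]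

/-- `φ` represents the implantation class of the germ `F` along the spine: it is isotopic to the
implantation of the barbell map along `F ∘ sq ε` for all small `ε > 0`. -/
def Thin (F : R4 → M) (φ : M → M) : Prop :=
  ∃ ε₀ : ℝ, 0 < ε₀ ∧ ∀ ε ∈ Ioo 0 ε₀, EmbOn I (F ∘ sq ε) bsupp ∧
    CIsot I φ (imp (F ∘ sq ε) bsupp barMap)

/-- The cuff of the germ `F` around `(s, c, 0)` bounds a flat ball disjoint from the cuff around
`(s, d, 0)`. -/
def BoundsOff (F : R4 → M) (c d : ℝ) : Prop :=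
  ∃ G : R4 → M, EmbOn I G (flat c) ∧ (∀ p ∈ sph c, G p = F p) ∧ Disjoint (G '' flat c) (F '' sph d)

/-- The germ is half split: one cuff bounds a ball disjoint from the other cuff. -/
def HalfSplit (F : R4 → M) : Prop := BoundsOff I F 0 1 ∨ BoundsOff I F 1 0

/-- The subgroup `N` (as a set of diffeomorphisms closed under isotopy) generated by the
implantations of half split germs. -/
inductive InN : (M → M) → Prop
  | one : InN (fun x => x)
  | gen (F : R4 → M) (φ : M → M) : EmbOn I F SP → HalfSplit I F → Thin I F φ → InN φ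
  | mul (φ ψ : M → M) : InN φ → InN ψ → InN (fun x => φ (ψ x))
  | inv (φ ψ : M → M) : InN φ → (∀ x, φ (ψ x) = x) → (∀ x, ψ (φ x) = x) → InN ψ
  | isot (φ ψ : M → M) : InN φ → CIsot I φ ψ → InN ψ

end

end Pool.Agent.Helper18.BI


end

/-! ## Helper18.BI.StA -/

section

/-!
# Project BI (MP_8e98f2_gt), part (A): germs, compression, the thin lemma

Statements (as `Prop` definitions) with complete proofs in the docstrings.  A module `M_X` proves
`theorem m_X : StX` (possibly from other statements as hypotheses `(h : StY)`, or importing the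
module of `StY` if it is already on main).
-/

set_option autoImplicit false

open scoped Manifold ContDiff Topology ComplexConjugate
open Set Pool.Agent.Helper65.Barb

namespace Pool.Agent.Helper18.BI

/-! ## definitions used in the statements of part (A) -/

/-- `T` is a diffeomorphism of `R4` with inverse `T'`, equal to the identity off `L`. -/
def SDiff (L : Set R4) (T T' : R4 → R4) : Prop :=
  ContDiff ℝ ∞ T ∧ ContDiff ℝ ∞ T' ∧ (∀ p, T (T' p) = p) ∧ (∀ p, T' (T p) = p) ∧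
    ∀ p, p ∉ L → T p = p

/-- the exterior of the two open solid tubes of radius `1/5` around the arcs -/
def Ext : Set R4 := {p | (1 / 5) ^ 2 ≤ rsq 0 p ∧ (1 / 5) ^ 2 ≤ rsq 1 p}

/-- the exterior part of the ball; `bsupp ⊆ EB ⊆ NB` -/
def EB : Set R4 := {p | p ∈ ball4 ∧ p ∈ Ext}

/-- `fac ε a k = ff ε (prof ε a) k` (by `rfl`) -/
noncomputable def ff (ε g k : ℝ) : ℝ :=
  √(2 * g / (k + g + ε + √((k - g) ^ 2 + 2 * ε * (k + g) + ε ^ 2)))

/-- the homotopy from `sq ε` (at `t = 0`) to the identity (at `t = 1`) -/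
noncomputable def hom (ε : ℝ) (q : ℝ × R4) : R4 := (1 - q.1) • sq ε q.2 + q.1 • q.2

/-- the general form of all our reparametrizations of `R4`: `α, β, h` as in `StS0` -/
noncomputable def tri (α : ℝ) (β : ℝ → ℝ) (h : ℝ → ℝ → ℝ) (p : R4) : R4 :=
  (1 / 2 + α * (p.1 - 1 / 2), β p.2.1, ((h p.2.1 (Complex.normSq p.2.2) : ℝ) : ℂ) * p.2.2)

/-! ## A0, A1, A2: the inverse function theorem -/

/-- **A0.** Inverse function theorem, in the form used everywhere.
Proof. `→`: `F = Φ` on the open set `Φ.source`, `Φ` and `Φ.symm` are smooth (`contMDiffOn_iff_contDiffOn`),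
`Φ.symm (Φ q) = q` near `p`; differentiate at `p` (chain rule): `D(Φ.symm) ∘ DF = id`, so `DF(p)` is
injective.  `←`: shrink `U` to the open set `U'` of the points `q ∈ U` where `fderiv ℝ F q` is injective,
i.e. (finite dimension) a `ContinuousLinearEquiv` (`LinearEquiv.ofInjectiveEndo`,
`LinearEquiv.toContinuousLinearEquiv`; openness: `fderiv` is continuous on `U`, and
`ContinuousLinearEquiv.isOpen`, or: the determinant of `fderiv` is continuous and `≠ 0`).
`ContDiffAt.toOpenPartialHomeomorph` at `p` (with `n = 1` or `∞`), restricted to the open set `U'`, is an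
open partial homeomorphism; its inverse is smooth at every point by
`OpenPartialHomeomorph.contDiffAt_symm` (`ContDiffAt ℝ ∞ F q` holds at all `q ∈ U'` because `U` is open
and `F` is `ContDiffOn ℝ ∞` on `U`).  Package as a `PartialDiffeomorph` using
`contMDiffOn_iff_contDiffOn`. -/
def StA0 : Prop :=
  ∀ (V : Type) [NormedAddCommGroup V] [NormedSpace ℝ V] [FiniteDimensional ℝ V]
    (F : V → V) (p : V), IsLocalDiffeomorphAt 𝓘(ℝ, V) 𝓘(ℝ, V) ∞ F p ↔
      (∃ U : Set V, IsOpen U ∧ p ∈ U ∧ ContDiffOn ℝ ∞ F U) ∧ ∀ v, fderiv ℝ F p v = 0 → v = 0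

/-- **A0f.** Families of germs in `R4` in terms of derivatives.
Proof. `A0` for each `t`, and `contMDiffOn_iff_contDiffOn`.  For `←`: for fixed `t ∈ [0,1]`, `p ∈ L` the map
`q ↦ J (t, q)` is `ContDiffOn` on the open set `{q | (t, q) ∈ W}`. -/
def StA0f : Prop :=
  ∀ (J : ℝ × R4 → R4) (L : Set R4), FamOn 𝓘(ℝ, R4) J L ↔
    (∃ W : Set (ℝ × R4), IsOpen W ∧ Icc 0 1 ×ˢ L ⊆ W ∧ ContDiffOn ℝ ∞ J W) ∧
    ∀ t ∈ Icc (0 : ℝ) 1, (∀ p ∈ L, ∀ v, fderiv ℝ (fun p => J (t, p)) p v = 0 → v = 0) ∧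
      InjOn (fun p => J (t, p)) L

/-- **A1.** Gluing: a germ of an embedding along a compact set is given by a partial diffeomorphism.
Proof. `F` is continuous at the points of `L` (`IsLocalDiffeomorphAt.contMDiffAt`) and injective near every
point of `L` (it coincides with an injective `Φ` on `Φ.source`).  `Set.InjOn.exists_mem_nhdsSet` gives
`t ∈ 𝓝ˢ L` with `InjOn F t`.  Let `U = interior t ∩ {p | IsLocalDiffeomorphAt .. F p}`: open, `L ⊆ U`,
`F` injective and locally diffeomorphic on `U`.  `δ`: source `U`, target `F '' U` (open: near `p` it contains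
`Φ '' (U ∩ Φ.source)`), `toFun = F`, `invFun = Function.invFunOn F U`; the inverse is smooth near `F p`
because it coincides there with `Φ.symm` (on the open set `Φ '' (U ∩ Φ.source)`, by injectivity on `U`). -/
def StA1 : Prop :=
  ∀ (V : Type) [NormedAddCommGroup V] [NormedSpace ℝ V]
    (E : Type) [NormedAddCommGroup E] [NormedSpace ℝ E] (H : Type) [TopologicalSpace H]
    (I : ModelWithCorners ℝ E H) (M : Type) [TopologicalSpace M] [ChartedSpace H M] [T2Space M]
    (F : V → M) (L : Set V), IsCompact L → (∀ p ∈ L, IsLocalDiffeomorphAt 𝓘(ℝ, V) I ∞ F p) →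
    InjOn F L → ∃ δ : PartialDiffeomorph 𝓘(ℝ, V) I V M ∞, L ⊆ δ.source ∧ ∀ p ∈ δ.source, δ p = F p

/-- **A2.** The map `(t, p) ↦ (t, J (t, p))` of a family of germs is a local diffeomorphism.
Proof. Let `Φ₀` be the partial diffeomorphism with `J (t₀, ·) = Φ₀` on `Φ₀.source ∋ p₀`.
`G (t, p) = (t, Φ₀.symm (J (t, p)))` is defined and smooth on the open set
`W' = {(t, p) ∈ W | J (t, p) ∈ Φ₀.target}` (`J` is continuous on the open set `W`).  At `(t₀, p₀)` its
derivative is `(τ, v) ↦ (τ, τ c + v)` because `Φ₀.symm (J (t₀, p)) = p` for `p` near `p₀`: injective.  By `A0`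
(for the space `ℝ × R4`) `G` is a local diffeomorphism at `(t₀, p₀)`.  Near `(t₀, p₀)` the map
`q ↦ (q.1, J q)` is `(id × Φ₀) ∘ G`, and `id × Φ₀` is a partial diffeomorphism `ℝ × R4 → ℝ × M` (source
`univ ×ˢ Φ₀.source`); conclude with `IsLocalDiffeomorphAt.comp` (and congruence near the point; for the
product structures use `modelWithCornersSelf_prod`, `chartedSpaceSelf_prod`). -/
def StA2 : Prop :=
  ∀ (E : Type) [NormedAddCommGroup E] [NormedSpace ℝ E] (H : Type) [TopologicalSpace H]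
    (I : ModelWithCorners ℝ E H) (M : Type) [TopologicalSpace M] [ChartedSpace H M]
    (J : ℝ × R4 → M) (L : Set R4), FamOn I J L → ∀ q ∈ Icc (0 : ℝ) 1 ×ˢ L,
      IsLocalDiffeomorphAt 𝓘(ℝ, ℝ × R4) (𝓘(ℝ, ℝ).prod I) ∞ (fun q : ℝ × R4 => (q.1, J q)) q

/-- **A3. FAMILY LEMMA.** Proof. By `A2` and `A1` (for `ℝ × R4 → ℝ × M`, the compact set
`[0,1] × L`; the map `Ĵ (t, p) = (t, J (t, p))` is injective on it) there is a partial diffeomorphism `δ`
with `[0,1] × L ⊆ δ.source` and `δ = Ĵ` on `δ.source`.  Put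
`F.f (t, y) = imp (J (step t, ·)) L T y`, `F.g (t, y) = imp (J (step t, ·)) L T' y` (`step` maps `ℝ` to
`[0,1]`, `step 0 = 0`, `step 1 = 1`).  They are inverse to each other by the calculus `StImp` (`T` and `T'`
map `L` to itself, and `T' = id` off `L`).  Smoothness at `(t₀, y₀)`: if `(step t₀, y₀) ∈ δ.target`, then
near `(t₀, y₀)` we have `F.f (t, y) = (δ (q.1, T q.2)).2` with `q = δ.symm (step t, y)`: indeed
`q.1 = step t`, `J (step t, q.2) = y`; if `q.2 ∉ L` both sides are `y` (`y ∉ J(step t)(L)` by the injectivity of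
`δ`), otherwise both are `J (step t, T q.2)`.  Here `(q.1, T q.2) ∈ δ.source` always (if `q.2 ∉ L` then it
is `q`, otherwise it is in `[0,1] × L`), and `(t, y) ↦ (step t, y)`, `δ.symm`, `id × T`, `δ` are smooth.
If `(step t₀, y₀) ∉ δ.target` then `(step t₀, y₀)` is not in the compact (closed) set `δ '' ([0,1] × L)`,
and `F.f (t, y) = y` near `(t₀, y₀)`.  Compact support: the compact set `J '' ([0,1] × L)`. -/
def StA3 : Prop :=
  ∀ (E : Type) [NormedAddCommGroup E] [NormedSpace ℝ E] (H : Type) [TopologicalSpace H]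
    (I : ModelWithCorners ℝ E H) (M : Type) [TopologicalSpace M] [ChartedSpace H M] [T2Space M]
    (J : ℝ × R4 → M) (L : Set R4) (T T' : R4 → R4), IsCompact L → FamOn I J L → SDiff L T T' →
      CIsot I (imp (fun p => J (0, p)) L T) (imp (fun p => J (1, p)) L T)

/-! ## the calculus of `imp` (all elementary) -/

/-- **Imp.** (1) value on the image; (2) off the image; (3) enlarging the support; (4) products;
(5) `imp` = `push`; (6) congruence; (7) conjugation; (8) reparametrization.  Direct from the definition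
(`h.choose_spec` and injectivity). -/
def StImp : Prop :=
  ∀ (E : Type) [NormedAddCommGroup E] [NormedSpace ℝ E] (H : Type) [TopologicalSpace H]
    (I : ModelWithCorners ℝ E H) (M : Type) [TopologicalSpace M] [ChartedSpace H M] [T2Space M]
    (F : R4 → M) (K : Set R4) (T : R4 → R4), InjOn F K →
      (∀ p ∈ K, imp F K T (F p) = F (T p)) ∧
      (∀ y, y ∉ F '' K → imp F K T y = y) ∧
      (∀ K₀ ⊆ K, (∀ p, p ∉ K₀ → T p = p) → imp F K T = imp F K₀ T) ∧
      (∀ S : R4 → R4, MapsTo T K K → ∀ y, imp F K (fun p => S (T p)) y = imp F K S (imp F K T y)) ∧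
      (∀ δ : PartialDiffeomorph 𝓘(ℝ, R4) I R4 M ∞, K ⊆ δ.source → (∀ p ∈ K, δ p = F p) →
        MapsTo T K K → (∀ p, p ∉ K → T p = p) → imp F K T = push δ T) ∧
      (∀ F' : R4 → M, EqOn F F' K → MapsTo T K K → imp F K T = imp F' K T) ∧
      (∀ Ψ Ψ' : M → M, (∀ x, Ψ (Ψ' x) = x) → (∀ x, Ψ' (Ψ x) = x) →
        ∀ y, imp (fun p => Ψ (F p)) K T y = Ψ (imp F K T (Ψ' y))) ∧
      (∀ (κ : R4 → R4) (L : Set R4), InjOn κ L → κ '' L = K → MapsTo T L L →
        imp (fun p => F (κ p)) L T = imp F K (imp κ L T))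

/-- **Push.** Pushing forward an isotopy.  Proof. `A1` gives `δ`; `imp F L (Φ.f (t, ·)) = push δ ..` by
`StImp` (5) (`DFam.mapsTo`); take `DFam.push`; support in `F '' L` (compact) by `push_of_notMem`. -/
def StPush : Prop :=
  ∀ (E : Type) [NormedAddCommGroup E] [NormedSpace ℝ E] (H : Type) [TopologicalSpace H]
    (I : ModelWithCorners ℝ E H) (M : Type) [TopologicalSpace M] [ChartedSpace H M] [T2Space M]
    (F : R4 → M) (L : Set R4) (Φ : DFam 𝓘(ℝ, R4) R4), IsCompact L → EmbOn I F L →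
      (∀ t p, p ∉ L → Φ.f (t, p) = p) →
      CIsot I (imp F L (fun p => Φ.f (0, p))) (imp F L (fun p => Φ.f (1, p)))

/-- **CI.** Algebra of compactly supported isotopy.  Proof: as for `Isot` (Helper65/Barb/Iso.lean), keeping
track of the supports (unions of two compact sets; for `trans` the family `G_t ∘ F_1⁻¹ ∘ F_t`; for `inv`:
`x = F.f (t, x)` gives `F.g (t, x) = x`; for `conj` the support is `Ψ '' C`; `M` compact: take `C = univ`). -/
def StCI : Prop :=
  ∀ (E : Type) [NormedAddCommGroup E] [NormedSpace ℝ E] (H : Type) [TopologicalSpace H]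
    (I : ModelWithCorners ℝ E H) (M : Type) [TopologicalSpace M] [ChartedSpace H M],
      CIsot I (fun x : M => x) (fun x => x) ∧
      (∀ φ ψ : M → M, CIsot I φ ψ → CIsot I ψ φ) ∧
      (∀ φ ψ : M → M, CIsot I φ ψ → CIsot I φ φ) ∧
      (∀ φ ψ χ : M → M, CIsot I φ ψ → CIsot I ψ χ → CIsot I φ χ) ∧
      (∀ φ ψ φ' ψ' : M → M, CIsot I φ ψ → CIsot I φ' ψ' →
        CIsot I (fun x => φ (φ' x)) (fun x => ψ (ψ' x))) ∧
      (∀ φ ψ φ' ψ' : M → M, CIsot I φ ψ → (∀ x, φ (φ' x) = x) → (∀ x, ψ (ψ' x) = x) →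
        CIsot I φ' ψ') ∧
      (∀ φ : M → M, CIsot I φ φ → ∃ φ', CIsot I φ' φ' ∧ (∀ x, φ (φ' x) = x) ∧
        ∀ x, φ' (φ x) = x) ∧
      (∀ φ ψ Ψ Ψ' : M → M, CIsot I φ ψ → ContMDiff I I ∞ Ψ → ContMDiff I I ∞ Ψ' →
        (∀ x, Ψ (Ψ' x) = x) → (∀ x, Ψ' (Ψ x) = x) →
        CIsot I (fun x => Ψ (φ (Ψ' x))) (fun x => Ψ (ψ (Ψ' x)))) ∧
      (∀ φ ψ : M → M, CIsot I φ ψ → Isot I φ ψ) ∧
      (CompactSpace M → ∀ φ ψ : M → M, Isot I φ ψ → CIsot I φ ψ)

/-! ## S: the compression -/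

/-- **S0.** The map `tri α β h` is injective and a local diffeomorphism.  Here `h' a k` is the partial
derivative in the second variable.
Proof. Injective: the first two coordinates are injective (`β` is strictly monotone since its derivative is
positive); for fixed `a` the map `w ↦ h(a,|w|²) w` is injective: `r ↦ h(a,r²) r` has derivative
`h + 2 r² h' > 0` for `r ≥ 0`, so it is strictly increasing on `[0,∞)`, and `h > 0`.
Local diffeomorphism by `A0`: the derivative at `(s,a,w)` in the direction `(σ,α',v)` is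
`(α σ, β'(a) α', h v + (c α' + 2 h' ⟨w,v⟩) w)` with `c` the partial derivative of `h` in `a`; if it vanishes
then `σ = 0`, `α' = 0`, `h v + 2 h' ⟨w,v⟩ w = 0`; inner product with `w`: `(h + 2|w|² h') ⟨w,v⟩ = 0`, so
`⟨w,v⟩ = 0` and `v = 0`. -/
def StS0 : Prop :=
  ∀ (α : ℝ) (β β' : ℝ → ℝ) (h h' : ℝ → ℝ → ℝ) (O : Set (ℝ × ℝ)), 0 < α → ContDiff ℝ ∞ β →
    (∀ a, HasDerivAt β (β' a) a) → (∀ a, 0 < β' a) → IsOpen O → (∀ a k, 0 ≤ k → (a, k) ∈ O) →
    ContDiffOn ℝ ∞ (fun x : ℝ × ℝ => h x.1 x.2) O →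
    (∀ a k, 0 ≤ k → HasDerivAt (h a) (h' a k) k) →
    (∀ a k, 0 ≤ k → 0 < h a k ∧ 0 < h a k + 2 * k * h' a k) →
    EmbOn 𝓘(ℝ, R4) (tri α β h) univ

/-- **S1.** The function `ff`.  With `S = k + g + ε`, `R = √((k-g)²+2ε(k+g)+ε²)` one has
`R² = S² - 4gk > 0`, `R < S` if `k > 0`, and `X = k ff² = 2gk/(S+R) = (S-R)/2`, the smaller root of
`(k - X)(g - X) = ε X`.
Proof. `R² = (k-g)² + 2ε(k+g) + ε² ≥ ε² > 0`.  `ff ≤ 1` because `2g ≤ S + R` (`R ≥ |k - g|`, so
`S + R ≥ k + g + (g - k) = 2g`).  `ff² (S+R) = 2g`.  For the derivative: `dR/dk = (S - 2g)/R` and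
`ff² = 2g/(S+R)`, so `(ff²)' = -2g(1 + (S-2g)/R)/(S+R)²`; `ff² + k (ff²)' = X' = (1 - (S-2g)/R)/2 > 0`
because `(S-2g)² < R² = S² - 4gk` (equivalent to `g + k < S`, i.e. `0 < ε`).  As
`ff (ff + 2 k ff') = ff² + k (ff²)'` and `ff > 0`, the last claim follows. -/
def StS1 : Prop :=
  ∀ ε g k : ℝ, 0 < ε → 0 < g → 0 ≤ k →
    0 < ff ε g k ∧ ff ε g k ≤ 1 ∧
    (k - k * ff ε g k ^ 2) * (g - k * ff ε g k ^ 2) = ε * (k * ff ε g k ^ 2) ∧
    k * ff ε g k ^ 2 < g ∧
    ∃ d, HasDerivAt (ff ε g) d k ∧ 0 < ff ε g k + 2 * k * d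

/-- **S2.** Smoothness for `ε > 0`; the profile is positive, the axial function is smooth with positive
derivative; `fac` is smooth on an open set containing `{k ≥ 0}`; `sq` is smooth in `(ε, p)` jointly.
Proof. All radicands are positive: `(1/25 - a²)² + ε² > 0`; `u + √(u²+ε²) > 0`; in `fac` the radicand
`(k-g)²+2ε(k+g)+ε² = (k + g + ε)² - 4 g k` is positive for `k ≥ 0`, hence on the open set
`O = {(a,k) | 0 < (k-g)²+2ε(k+g)+ε², 0 < k + g + ε + √..}` (openness by continuity), which contains `k ≥ 0`;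
`Real.sqrt` is smooth at positive numbers (`ContDiffAt.sqrt`).  `axc' = (u/√(u²+ε²) - v/√(v²+ε²))/2` with
`u = a + 1/5 > v = a - 6/5`, and `u ↦ u/√(u²+ε²)` is strictly increasing (derivative `ε²/(u²+ε²)^{3/2}`). -/
def StS2 : Prop :=
  (∀ ε a : ℝ, 0 < ε → 0 < prof ε a) ∧
  (∀ ε : ℝ, 0 < ε → ContDiff ℝ ∞ (axc ε) ∧ ∃ d : ℝ → ℝ, ∀ a, HasDerivAt (axc ε) (d a) a ∧ 0 < d a) ∧
  (∀ ε : ℝ, 0 < ε → ∃ O : Set (ℝ × ℝ), IsOpen O ∧ (∀ a k, 0 ≤ k → (a, k) ∈ O) ∧
    ContDiffOn ℝ ∞ (fun x : ℝ × ℝ => fac ε x.1 x.2) O) ∧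
  ContDiffOn ℝ ∞ (fun q : ℝ × R4 => sq q.1 q.2) (Ioi 0 ×ˢ univ)

/-- **S3.** Joint continuity up to `ε = 0`.
Proof. `prof` and `axc` are continuous on `ℝ × ℝ`.  The third component of `sq` is `fac · w` with
`0 ≤ fac ≤ 1` for `ε ≥ 0` (`2g ≤ k + g + ε + √(..)` as `√(..) ≥ |k - g|`; if `g = 0` then `fac = 0`): at a point
`(ε₀, (s₀, a₀, 0))` continuity follows from `‖fac · w‖ ≤ ‖w‖`; at a point with `w₀ ≠ 0` the denominator
`k + g + ε + √(..) ≥ k > 0`, so `fac` is continuous there. -/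
def StS3 : Prop := ContinuousOn (fun q : ℝ × R4 => sq q.1 q.2) (Ici 0 ×ˢ univ)

/-- **S4.** The limit `ε = 0`: `axc 0 a` is the clamp of `a` to `[-1/5, 6/5]`;
`prof 0 a = max 0 (1/25-a²) + max 0 (1/25-(a-1)²) =: g`; `fac 0 a k = √(2g/(k+g+|k-g|))`, so
`k fac² = min k g`.
(i) `sq 0` maps `Ext` to `SP`; (ii) `sq 0` maps everything to `FB`; (iii) `sq 0 p = (1/2, p.2)` on the two
solid tubes of radius `1/5` and over the axis `[1/5, 4/5]`, in particular `sq 0 p = p` on `FB`; (iv) for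
`p ∈ bsupp` the segment from `sq 0 p` to `p` lies in `EB`.
Proof. (i) if `|a| ≤ 1/5`: `|w|² ≥ 1/25 - a² = g`, so the new `|w|²` is `g` and the point is on `sph 0`
(`rsq 0 = a² + |w|²`); same near `1`; if `1/5 ≤ a ≤ 4/5`: `g = 0`, `w ↦ 0`, on `neck`; if `a ≤ -1/5`:
`(1/2,-1/5,0) ∈ sph 0`; if `a ≥ 6/5`: `(1/2,6/5,0) ∈ sph 1`.  (ii) the same with `≤`.  (iii) if
`rsq 0 p ≤ 1/25` then `|a| ≤ 1/5` and `k ≤ g`, so `fac = √(2g/(2g)) = 1` or (if `g = 0`) `k = 0`, `w = 0`.
(iv) coordinates `(s', a', w')` of `(1-t) sq 0 p + t p`: if `|a| ≤ 1/5` then `a' = a`, `w' = m w` with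
`|w'|` between `√g` and `|w|`, so `rsq 0 ≥ 1/25`, and `rsq 1 ≥ (1 - a)² ≥ 1/25`; similarly near `1`; if
`1/5 ≤ a ≤ 4/5` then `a' = a`; if `a ≤ -1/5` then `a' ≤ -1/5`; if `a ≥ 6/5` then `a' ≥ 6/5`.  `ball4`: `ball4` is
convex and contains both ends (`|sq 0 p| ≤ 6/5`). -/
def StS4 : Prop :=
  (∀ p ∈ Ext, sq 0 p ∈ SP) ∧ (∀ p, sq 0 p ∈ FB) ∧
  (∀ p : R4, rsq 0 p ≤ 1 / 25 ∨ rsq 1 p ≤ 1 / 25 ∨ (1 / 5 ≤ p.2.1 ∧ p.2.1 ≤ 4 / 5 ∧ p.2.2 = 0) →
    sq 0 p = (1 / 2, p.2)) ∧
  (∀ p ∈ FB, sq 0 p = p) ∧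
  (∀ p ∈ bsupp, ∀ t ∈ Icc (0 : ℝ) 1, hom 0 (t, p) ∈ EB) ∧ SP ⊆ EB ∧ bsupp ⊆ EB ∧ EB ⊆ NB ∧
  IsCompact SP ∧ IsCompact FB ∧ IsCompact EB

/-- **S5.** The tube lemma.  Proof. `(ε, t, p) ↦ (t, hom ε (t, p))` is continuous on
`[0,∞) × [0,1] × K` by `S3` and maps the compact set `{0} × [0,1] × K` into the open set `U`; generalized
tube lemma. -/
def StS5 : Prop :=
  ∀ (K : Set R4) (U : Set (ℝ × R4)), IsCompact K → IsOpen U →
    ((∀ t ∈ Icc (0 : ℝ) 1, ∀ p ∈ K, (t, sq 0 p) ∈ U) →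
      ∃ ε₀ > 0, ∀ ε ∈ Ioo 0 ε₀, ∀ t ∈ Icc (0 : ℝ) 1, ∀ p ∈ K, (t, sq ε p) ∈ U) ∧
    ((∀ t ∈ Icc (0 : ℝ) 1, ∀ p ∈ K, (t, hom 0 (t, p)) ∈ U) →
      ∃ ε₀ > 0, ∀ ε ∈ Ioo 0 ε₀, ∀ t ∈ Icc (0 : ℝ) 1, ∀ p ∈ K, (t, hom ε (t, p)) ∈ U)

/-- **S6.** `sq ε` and all stages of the homotopy to the identity are injective local diffeomorphisms; the
homotopy is smooth.  Proof. `sq ε = tri ε (axc ε) (fac ε)` and
`hom ε (t, ·) = tri ((1-t)ε+t) ((1-t) axc ε + t id) ((1-t) fac ε + t)`; the hypotheses of `S0` hold for `sq ε` by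
`S1`, `S2` and for the identity, and they are preserved by convex combinations (all the inequalities are
linear in `(α, β', h, h')`).  Smoothness in `(t,p)` from `S2`. -/
def StS6 : Prop :=
  (∀ ε : ℝ, 0 < ε → EmbOn 𝓘(ℝ, R4) (sq ε) univ) ∧
  (∀ ε : ℝ, 0 < ε → ContDiff ℝ ∞ (hom ε)) ∧
  ∀ ε : ℝ, 0 < ε → ∀ t ∈ Icc (0 : ℝ) 1, EmbOn 𝓘(ℝ, R4) (fun p => hom ε (t, p)) univ

/-! ## T: the thin lemma -/

/-- **T1.** Four families.  `L` compact, `K` compact.
(i) if `sq 0` maps `K` into `L` and `J` is a family of germs along `L` then for small `ε` the maps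
`J_t ∘ sq ε` form a family of germs along `K`;
(ii) if all the segments `hom 0 (t, p)`, `p ∈ K`, are in `L` and `F` is a germ along `L` then
`F ∘ hom ε (t, ·)` is a family of germs along `K`;
(iii) if `sq 0` maps `K` into `L` then `F ∘ sq ((1-t)ε₁ + t ε₂)` is a family of germs along `K`;
(iv) if `m : R4 → R4` is a germ along `K` with `m(K) ⊆ L ⊆ FB` then `F ∘ hom ε (t, ·) ∘ m` is a family of
germs along `K`.
Proof. `A2`, `A1` for `Ĵ` along `[0,1] × L` (in (ii)-(iv) with the constant family `J (t, p) = F p`) give an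
open set `U ⊇ [0,1] × L` on which `J` is smooth, `Ĵ` injective, and each `J_t` (`(t,p) ∈ U`, `t ∈ [0,1]`) is
a local diffeomorphism at `p` (openness of this condition near `[0,1] × L`: the differential of `Ĵ` is block
triangular; simpler: `Ĵ = δ` on `δ.source`, so `p ↦ J (t,p)` composed with the inverse
`y ↦ (δ.symm (t, y)).2` is the identity on both sides, so it is a partial diffeomorphism
from `{p | (t,p) ∈ δ.source}` to `{y | (t,y) ∈ δ.target}`).  For small `ε` the sets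
`{(t, sq ε p)}` resp. `{(t, hom ε (t,p))}` are in `U` by `S5` (for (iv) apply `S5` to the compact set `m '' K`,
on which `hom 0 (t, q) = q` by `S4` (iii), since `hom 0 (t,q) = (1-t) q + t q`).  Compose with the
injective local diffeomorphisms of `S6`; smoothness in all variables from `S2`, `S6`. -/
def StT1 : Prop :=
  ∀ (E : Type) [NormedAddCommGroup E] [NormedSpace ℝ E] (H : Type) [TopologicalSpace H]
    (I : ModelWithCorners ℝ E H) (M : Type) [TopologicalSpace M] [ChartedSpace H M] [T2Space M]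
    (L K : Set R4), IsCompact L → IsCompact K →
    ((∀ p ∈ K, sq 0 p ∈ L) → ∀ J : ℝ × R4 → M, FamOn I J L →
      ∃ ε₀ > 0, ∀ ε ∈ Ioo 0 ε₀, FamOn I (fun q => J (q.1, sq ε q.2)) K) ∧
    ((∀ p ∈ K, ∀ t ∈ Icc (0 : ℝ) 1, hom 0 (t, p) ∈ L) → ∀ F : R4 → M, EmbOn I F L →
      ∃ ε₀ > 0, ∀ ε ∈ Ioo 0 ε₀, FamOn I (fun q => F (hom ε q)) K) ∧
    ((∀ p ∈ K, sq 0 p ∈ L) → ∀ F : R4 → M, EmbOn I F L →
      ∃ ε₀ > 0, ∀ ε₁ ∈ Ioo 0 ε₀, ∀ ε₂ ∈ Ioo 0 ε₀,
        FamOn I (fun q => F (sq ((1 - q.1) * ε₁ + q.1 * ε₂) q.2)) K) ∧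
    (L ⊆ FB → ∀ F : R4 → M, EmbOn I F L → ∀ m : R4 → R4, EmbOn 𝓘(ℝ, R4) m K → MapsTo m K L →
      ∃ ε₀ > 0, ∀ ε ∈ Ioo 0 ε₀, FamOn I (fun q => F (hom ε (q.1, m q.2))) K)

/-- **T2.** The implantation class of a germ.  (i) existence; (ii) uniqueness; (iii) invariance under
families; (iv) it is a class; (v) locality; (vi) naturality; (vii) representatives are diffeomorphisms with
compact support.
Proof. `barMap` satisfies `SDiff bsupp barMap barMap⁻¹`.  (i) `T1` (iii) with `K = bsupp`, `L = SP`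
(`S4` (i)) and `A3`: all `imp (F ∘ sq ε) bsupp barMap` with `ε < ε₀` are isotopic; each `F ∘ sq ε` is
`EmbOn` by `T1` (members of a family at `t = 0`).  (ii) evaluate both at a small `ε`.  (iii) `T1` (i) with
`K = bsupp`, `L = SP`, then `A3`.  (iv) `CI`.  (v) for small `ε`, `sq ε` maps `bsupp` into the open set `U`,
so `F ∘ sq ε = F' ∘ sq ε` near every point of `bsupp` (`StImp` (6) and congruence of
`IsLocalDiffeomorphAt`).  (vi) `StImp` (7), `CI`, and `Ψ` composed with a local diffeomorphism is a local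
diffeomorphism.  (vii) `CI`: `CIsot φ ψ → CIsot φ φ`. -/
def StT2 : Prop :=
  ∀ (E : Type) [NormedAddCommGroup E] [NormedSpace ℝ E] (H : Type) [TopologicalSpace H]
    (I : ModelWithCorners ℝ E H) (M : Type) [TopologicalSpace M] [ChartedSpace H M] [T2Space M],
    (∀ F : R4 → M, EmbOn I F SP → ∃ ε₀ > 0, ∀ ε ∈ Ioo 0 ε₀,
      Thin I F (imp (F ∘ sq ε) bsupp barMap)) ∧
    (∀ (F : R4 → M) (φ ψ : M → M), Thin I F φ → Thin I F ψ → CIsot I φ ψ) ∧
    (∀ (J : ℝ × R4 → M) (φ : M → M), FamOn I J SP → Thin I (fun p => J (0, p)) φ →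
      Thin I (fun p => J (1, p)) φ) ∧
    (∀ (F : R4 → M) (φ ψ : M → M), Thin I F φ → CIsot I φ ψ → Thin I F ψ) ∧
    (∀ (F F' : R4 → M) (U : Set R4) (φ : M → M), IsOpen U → SP ⊆ U → EqOn F F' U →
      Thin I F φ → Thin I F' φ) ∧
    (∀ (F : R4 → M) (φ Ψ Ψ' : M → M), ContMDiff I I ∞ Ψ → ContMDiff I I ∞ Ψ' →
      (∀ x, Ψ (Ψ' x) = x) → (∀ x, Ψ' (Ψ x) = x) → Thin I F φ →
      Thin I (fun p => Ψ (F p)) (fun x => Ψ (φ (Ψ' x)))) ∧
    (∀ (F : R4 → M) (φ : M → M), Thin I F φ → CIsot I φ φ)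

/-- **T3.** The class of an embedding of the whole exterior is its thin class.
Proof. `T1` (ii) with `K = bsupp`, `L = EB` (`S4` (iv)): for small `ε` the family `F ∘ hom ε (t, ·)` joins
`F ∘ sq ε` to `F`; `A3`. -/
def StT3 : Prop :=
  ∀ (E : Type) [NormedAddCommGroup E] [NormedSpace ℝ E] (H : Type) [TopologicalSpace H]
    (I : ModelWithCorners ℝ E H) (M : Type) [TopologicalSpace M] [ChartedSpace H M] [T2Space M]
    (F : R4 → M), EmbOn I F EB → Thin I F (imp F bsupp barMap)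

/-- **T4.** The bridge to the implantations in the 4-sphere.
Proof. `B` is `EmbOn EB` as `EB ⊆ NB ⊆ B.source`.  `T3` and `StImp` (5): `imp B bsupp barMap = push B barMap`.
`isot_push_barbellMap` and `isBarbellMap_barMap`: `push B barMap` and `push B β` are isotopic, hence
compactly supported isotopic (`CI`, the sphere is compact); `implantation_eq_push`. -/
def StT4 : Prop :=
  ∀ (B : PartialDiffeomorph 𝓘(ℝ, R4) (𝓡 4) R4 S4 ∞) (β : R4 → R4), NB ⊆ B.source →
    IsBarbellMap β → EmbOn (𝓡 4) B SP ∧ Thin (𝓡 4) B (implantation B β)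

/-- **T5.** Removing an intermediate compression.
Proof. `T1` (iv) with `K = SP`: for small `ε` the family `F ∘ hom ε (t, ·) ∘ m` along `SP` joins
`F ∘ sq ε ∘ m` to `F ∘ m`; `T2` (iii) in both directions (reverse the time). -/
def StT5 : Prop :=
  ∀ (E : Type) [NormedAddCommGroup E] [NormedSpace ℝ E] (H : Type) [TopologicalSpace H]
    (I : ModelWithCorners ℝ E H) (M : Type) [TopologicalSpace M] [ChartedSpace H M] [T2Space M]
    (F : R4 → M) (m : R4 → R4) (L : Set R4), IsCompact L → L ⊆ FB → EmbOn I F L →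
    EmbOn 𝓘(ℝ, R4) m SP → MapsTo m SP L → ∃ ε₀ > 0, ∀ ε ∈ Ioo 0 ε₀, ∀ φ : M → M,
      (Thin I (fun p => F (sq ε (m p))) φ ↔ Thin I (fun p => F (m p)) φ)

/-- **T6.** Larger supports, and compression of a germ along a compact subset of `FB`: for `K` compact with
`sq 0 (K) ⊆ L`, `F ∘ sq ε` is `EmbOn K` for all small `ε`; for `bsupp ⊆ K` the implantation does not change.
Proof. `T1` (iii) at `t = 0`; `StImp` (3), `barMap_off`. -/
def StT6 : Prop :=
  ∀ (E : Type) [NormedAddCommGroup E] [NormedSpace ℝ E] (H : Type) [TopologicalSpace H]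
    (I : ModelWithCorners ℝ E H) (M : Type) [TopologicalSpace M] [ChartedSpace H M] [T2Space M]
    (F : R4 → M) (K L : Set R4), IsCompact K → IsCompact L → (∀ p ∈ K, sq 0 p ∈ L) → EmbOn I F L →
    ∃ ε₀ > 0, ∀ ε ∈ Ioo 0 ε₀, EmbOn I (F ∘ sq ε) K ∧
      (bsupp ⊆ K → imp (F ∘ sq ε) K barMap = imp (F ∘ sq ε) bsupp barMap)

/-- **T7.** Ambient isotopy does not change the class.
Proof. `J (t, p) = Ψ.f (t, F p)` is a family of germs along `SP`; `T2` (iii) (and (ii), (vii)). -/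
def StT7 : Prop :=
  ∀ (E : Type) [NormedAddCommGroup E] [NormedSpace ℝ E] (H : Type) [TopologicalSpace H]
    (I : ModelWithCorners ℝ E H) (M : Type) [TopologicalSpace M] [ChartedSpace H M] [T2Space M]
    (F : R4 → M) (Ψ : DFam I M) (φ : M → M), EmbOn I F SP →
    (Thin I (fun p => Ψ.f (0, F p)) φ ↔ Thin I (fun p => Ψ.f (1, F p)) φ)

/-- **T8.** Germs in `R4` with the same values on the spine and derivatives joined by a segment of
invertible maps have the same class; in particular the class depends on the 1-jet along `SP` only.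
Proof. `J (t, p) = (1-t) F p + t G p` is a family along `SP` (`A0f`): on `SP` it is `F`, injective; its
derivative at `p ∈ SP` is `(1-t) DF(p) + t DG(p)`, injective by assumption; smooth near `SP`.  `T2` (iii) in
both directions. -/
def StT8 : Prop :=
  ∀ (F G : R4 → R4), EmbOn 𝓘(ℝ, R4) F SP → EmbOn 𝓘(ℝ, R4) G SP → EqOn F G SP →
    (∀ p ∈ SP, ∀ t ∈ Icc (0 : ℝ) 1, ∀ v,
      (1 - t) • fderiv ℝ F p v + t • fderiv ℝ G p v = 0 → v = 0) →
    ∀ φ, (Thin 𝓘(ℝ, R4) F φ ↔ Thin 𝓘(ℝ, R4) G φ)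

/-! ## X: transfer from `R4` to a manifold along an open embedding, the 4-sphere -/

/-- **X1.** Transfer along an injective local diffeomorphism `c : R4 → M` (extension by the identity is
`imp c univ`).
Proof. `CIsot`: `F : DFam` with support in a compact `C`; `StPush` for `c` and `L = C`, and
`imp c univ φ = imp c C φ` (`StImp` (3)).  `Thin`: `imp c univ (imp (F ∘ sq ε) bsupp barMap) =
imp (c ∘ F ∘ sq ε) bsupp barMap` (direct) and `c ∘ F ∘ sq ε` is `EmbOn bsupp` (`IsLocalDiffeomorphAt.comp`).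
`InN`: induction, using that `imp c univ` is multiplicative; generators: `EmbOn`, `Thin`, `BoundsOff` are
transported by composition with the injective local diffeomorphism `c`. -/
def StX1 : Prop :=
  ∀ (E : Type) [NormedAddCommGroup E] [NormedSpace ℝ E] (H : Type) [TopologicalSpace H]
    (I : ModelWithCorners ℝ E H) (M : Type) [TopologicalSpace M] [ChartedSpace H M] [T2Space M]
    (c : R4 → M), EmbOn I c univ →
    (∀ φ ψ : R4 → R4, CIsot 𝓘(ℝ, R4) φ ψ → CIsot I (imp c univ φ) (imp c univ ψ)) ∧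
    (∀ (F : R4 → R4) (L : Set R4), EmbOn 𝓘(ℝ, R4) F L → EmbOn I (c ∘ F) L) ∧
    (∀ (F : R4 → R4) (φ : R4 → R4), Thin 𝓘(ℝ, R4) F φ → Thin I (c ∘ F) (imp c univ φ)) ∧
    (∀ φ ψ : R4 → R4, ∀ y, imp c univ (fun p => φ (ψ p)) y = imp c univ φ (imp c univ ψ y)) ∧
    (∀ φ : R4 → R4, InN 𝓘(ℝ, R4) φ → InN I (imp c univ φ))

/-- **X2.** A chart of the 4-sphere missing the spines of two barbells.
Proof. `B '' SP` and `B' '' SP` are compact with empty interior (`SP` has empty interior, as it is contained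
in the hyperplane `s = 1/2`, and `B` is an open embedding near `SP`), so their union is not `univ`
(`IsClosed` + `interior_union_isClosed_of_interior_empty`); let `v` be a point of the complement.  `c` is the
inverse of the stereographic projection from `v` (`chartAt` of the antipode, target `univ`, source `{v}ᶜ`;
`contMDiffOn_chart`, `contMDiffOn_chart_symm` or `contMDiffOn_extChartAt_symm`), composed with a linear
isomorphism `R4 ≃ EuclideanSpace ℝ (Fin 4)` (equal dimensions). -/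
def StX2 : Prop :=
  ∀ (B B' : PartialDiffeomorph 𝓘(ℝ, R4) (𝓡 4) R4 S4 ∞), SP ⊆ B.source → SP ⊆ B'.source →
    ∃ c : R4 → S4, EmbOn (𝓡 4) c univ ∧ B '' SP ⊆ range c ∧ B' '' SP ⊆ range c

/-- **X3.** Lifting a germ along `c`.  Proof. `F = c⁻¹ ∘ B` where `c⁻¹` is a left inverse of `c` on its open
image (`Function.invFun c`), locally equal to the inverse of a partial diffeomorphism. -/
def StX3 : Prop :=
  ∀ (E : Type) [NormedAddCommGroup E] [NormedSpace ℝ E] (H : Type) [TopologicalSpace H]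
    (I : ModelWithCorners ℝ E H) (M : Type) [TopologicalSpace M] [ChartedSpace H M] [T2Space M]
    (c : R4 → M) (B : R4 → M) (L : Set R4), EmbOn I c univ → EmbOn I B L → B '' L ⊆ range c →
    EmbOn 𝓘(ℝ, R4) (fun p => Function.invFun c (B p)) L ∧
      ∃ U : Set R4, IsOpen U ∧ L ⊆ U ∧ ∀ p ∈ U, c (Function.invFun c (B p)) = B p

/-! ## N: the subgroup N -/

/-- **N1.** Every element of `N` is a diffeomorphism with compact support; `N` is normal in the group of
all diffeomorphisms.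
Proof. Induction.  `one`: the support of `x ↦ x` is empty.  `gen`: `T2` (vii); conjugation: `T2` (vi), and
`Ψ ∘ F` is `EmbOn SP`, half split (compose the ball with `Ψ`).  `mul`, `inv`, `isot`: `CI`. -/
def StN1 : Prop :=
  ∀ (E : Type) [NormedAddCommGroup E] [NormedSpace ℝ E] (H : Type) [TopologicalSpace H]
    (I : ModelWithCorners ℝ E H) (M : Type) [TopologicalSpace M] [ChartedSpace H M] [T2Space M],
    (∀ φ : M → M, InN I φ → CIsot I φ φ) ∧
    (∀ φ Ψ Ψ' : M → M, InN I φ → ContMDiff I I ∞ Ψ → ContMDiff I I ∞ Ψ' → (∀ x, Ψ (Ψ' x) = x) →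
      (∀ x, Ψ' (Ψ x) = x) → InN I (fun x => Ψ (φ (Ψ' x)))) ∧
    (∀ φ n : M → M, InN I n → CIsot I φ φ → ∃ n', InN I n' ∧ ∀ x, φ (n x) = n' (φ x))

end Pool.Agent.Helper18.BI


end

/-! ## Helper27.BI.ChDefs -/

section

/-!
# Project BI, part (C): pushing tubes around (definitions)

Everything happens in the model `R4 = ℝ × R3` (`p = (s, x)`, `x = (a, w)` in three-space `R3`), by
level preserving motions.  An arc is a map `z : ℝ → R3` (the arc `s ↦ (s, z s)` of `R4`).
-/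

set_option autoImplicit false

open scoped Manifold ContDiff Topology ComplexConjugate
open Set Pool.Agent.Helper65.Barb Pool.Agent.Helper18.BI

namespace Pool.Agent.Helper27.BI

/-- The family `F` is supported in a compact subset of the interior of the 4-ball. -/
def SuppB (F : DFam 𝓘(ℝ, R4) R4) : Prop :=
  ∃ K : Set R4, IsCompact K ∧ K ⊆ interior ball4 ∧ ∀ t x, x ∉ K → F.f (t, x) = x

/-- `φ` and `ψ` are joined by a smooth isotopy supported in a compact subset of the interior of the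
4-ball, fixing the points of `O`, and all whose members translate, level by level, the balls of
radius `ρ` about the points `z0 i s` to the balls of radius `ρ` about the points `z1 i s`. -/
def TIso {ι : Type} (O : Set R4) (ρ : ℝ) (z0 z1 : ι → ℝ → R3) (φ ψ : R4 → R4) : Prop :=
  ∃ F : DFam 𝓘(ℝ, R4) R4, (∀ x, F.f (0, x) = φ x) ∧ (∀ x, F.f (1, x) = ψ x) ∧ SuppB F ∧
    (∀ t, ∀ x ∈ O, F.f (t, x) = x) ∧
    ∀ t i s y, nsq y ≤ ρ ^ 2 → F.f (t, (s, z0 i s + y)) = (s, z1 i s + y)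

/-- `Θ` is the end of a smooth isotopy starting at the identity, supported in a compact subset of
the interior of the 4-ball, fixing the points of `O`, which carries the tubes of radius `ρ` about
the arcs `γ i 0` along the arcs `γ i (step t)`, by translations in each level. -/
def IsPush {ι : Type} (O : Set R4) (ρ : ℝ) (γ : ι → ℝ → ℝ → R3) (Θ : R4 → R4) : Prop :=
  ∃ F : DFam 𝓘(ℝ, R4) R4, (∀ x, F.f (0, x) = x) ∧ (∀ x, F.f (1, x) = Θ x) ∧ SuppB F ∧
    (∀ t ∈ Icc (0 : ℝ) 1, ∀ x ∈ O, F.f (t, x) = x) ∧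
    ∀ t ∈ Icc (0 : ℝ) 1, ∀ i s y, nsq y ≤ ρ ^ 2 →
      F.f (t, (s, γ i 0 s + y)) = (s, γ i (step t) s + y)

/-- A two-parameter family of systems of arcs `Γ i u q`, `(u, q)` in the unit square, constant for
`s ∉ [0,1]`, inside the ball, off `O` and pairwise disjoint, with room for tubes of radius `2ρ`. -/
structure SqOk {ι : Type} (O : Set R4) (ρ : ℝ) (Γ : ι → ℝ → ℝ → ℝ → R3) : Prop where
  smooth : ∀ i, ContDiff ℝ ∞ (fun p : ℝ × ℝ × ℝ => Γ i p.1 p.2.1 p.2.2)
  ends : ∀ i, ∃ b : R3, ∀ u q s : ℝ, (s ≤ 0 ∨ 1 ≤ s) → Γ i u q s = b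
  inside : ∀ i, ∀ u ∈ Icc (0 : ℝ) 1, ∀ q ∈ Icc (0 : ℝ) 1, ∀ s ∈ Icc (0 : ℝ) 1, ∀ x : R3,
    nsq (x - Γ i u q s) ≤ (2 * ρ) ^ 2 → nsq x < (9 / 2) ^ 2
  sep : ∀ i j, i ≠ j → ∀ u ∈ Icc (0 : ℝ) 1, ∀ q ∈ Icc (0 : ℝ) 1, ∀ s ∈ Icc (0 : ℝ) 1,
    (4 * ρ) ^ 2 ≤ nsq (Γ i u q s - Γ j u q s)
  off : ∀ i, ∀ u ∈ Icc (0 : ℝ) 1, ∀ q ∈ Icc (0 : ℝ) 1, ∀ s ∈ Icc (0 : ℝ) 1, ∀ x : R3,
    (s, x) ∈ O → (2 * ρ) ^ 2 ≤ nsq (x - Γ i u q s)

/-! ### the arcs swept out by the barbell map -/

/-- the angle `2 π step s` -/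
noncomputable def phi (s : ℝ) : ℝ := 2 * Real.pi * step s

/-- `(1 - cos φ(s)) / 2` -/
noncomputable def chi (s : ℝ) : ℝ := (1 - Real.cos (phi s)) / 2

/-- The arc `X = -A sin φ(s)`, `a + i h = 1 + c (exp (2 π i q) - 1)`, where `w = X + i h`. -/
noncomputable def zarc (A c q s : ℝ) : R3 :=
  (1 + c * (Real.cos (2 * Real.pi * q) - 1),
    ⟨-A * Real.sin (phi s), c * Real.sin (2 * Real.pi * q)⟩)

/-- the base arc (the second arc of the model) -/
def e1 : R3 := (1, 0)

end Pool.Agent.Helper27.BI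


end

/-! ## Helper18.BI.StF -/

section

/-!
# Project BI (MP_8e98f2_gt), part (F): the main theorem and the assembly
-/

set_option autoImplicit false

open scoped Manifold ContDiff Topology ComplexConjugate
open Set Pool.Agent.Helper65.Barb

namespace Pool.Agent.Helper18.BI

/-- **MAIN (stage 1), for `R4`.** Two germs along the spine which agree near the two cuffs have the same
implantation class modulo `N`.  (Proved by parts (B), (D).) -/
def StMain : Prop :=
  ∀ (F F' φ φ' : R4 → R4) (U : Set R4), EmbOn 𝓘(ℝ, R4) F SP → EmbOn 𝓘(ℝ, R4) F' SP →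
    IsOpen U → sph 0 ∪ sph 1 ⊆ U → EqOn F F' U → Thin 𝓘(ℝ, R4) F φ → Thin 𝓘(ℝ, R4) F' φ' →
    ∃ n, InN 𝓘(ℝ, R4) n ∧ CIsot 𝓘(ℝ, R4) φ' (fun x => n (φ x))

/-! ### the statement for the 4-sphere -/

/-- The subgroup `N` of the group of diffeomorphisms of the 4-sphere (closed under isotopy), generated by
the implantations of the barbells one of whose cuffs bounds an embedded 3-ball disjoint from the other
cuff.  The cuffs of `B` are the spheres `B '' sph 0` and `B '' sph 1`; the 3-ball is `δ '' flat c`. -/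
inductive NSub : (S4 → S4) → Prop
  | one : NSub (fun x => x)
  | gen (B : PartialDiffeomorph 𝓘(ℝ, R4) (𝓡 4) R4 S4 ∞) (β : R4 → R4) (c d : ℝ)
      (δ : PartialDiffeomorph 𝓘(ℝ, R4) (𝓡 4) R4 S4 ∞) : NB ⊆ B.source → IsBarbellMap β →
      (c = 0 ∧ d = 1 ∨ c = 1 ∧ d = 0) → flat c ⊆ δ.source → (∀ p ∈ sph c, δ p = B p) →
      Disjoint (δ '' flat c) (B '' sph d) → NSub (implantation B β)
  | mul (φ ψ : S4 → S4) : NSub φ → NSub ψ → NSub (fun x => φ (ψ x))
  | inv (φ ψ : S4 → S4) : NSub φ → (∀ x, φ (ψ x) = x) → (∀ x, ψ (φ x) = x) → NSub ψ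
  | isot (φ ψ : S4 → S4) : NSub φ → Isot (𝓡 4) φ ψ → NSub ψ

/-- **BAR INDEPENDENCE modulo `N`.** -/
def StFinal1 : Prop :=
  ∀ (B B' : PartialDiffeomorph 𝓘(ℝ, R4) (𝓡 4) R4 S4 ∞) (β β' : R4 → R4), NB ⊆ B.source →
    NB ⊆ B'.source → IsBarbellMap β → IsBarbellMap β' →
    (∀ p ∈ Shell 0 (1 / 5) ∪ Shell 1 (1 / 5), B' p = B p) →
    ∃ n, NSub n ∧ Isot (𝓡 4) (implantation B' β') (fun x => n (implantation B β x))

/-! ### realization of a germ by a barbell -/

/-- the function `∫₀ˣ step`: zero for `x ≤ 0`, derivative `step x ∈ [0,1]` -/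
noncomputable def ramp (x : ℝ) : ℝ := ∫ t in (0 : ℝ)..x, step t

/-- the axial function: the identity on `[-1/5, 6/5]`, slope `ε` far outside -/
noncomputable def bet (ε a : ℝ) : ℝ :=
  a - (1 - ε) * ε * ramp ((a - 6 / 5) / ε) + (1 - ε) * ε * ramp ((-1 / 5 - a) / ε)

/-- smooth function equal to `1/25 - a²` for `a ≤ 2/5` and to `1/25 - (a-1)²` for `a ≥ 3/5` -/
noncomputable def uu (a : ℝ) : ℝ :=
  (1 - step (5 * a - 2)) * (1 / 25 - a ^ 2) + step (5 * a - 2) * (1 / 25 - (a - 1) ^ 2)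

/-- the transversal factor -/
noncomputable def hh (ε a k : ℝ) : ℝ := √(prof ε a / (k - uu a + prof ε a))

/-- a compression which is exactly the identity on the two core spheres -/
noncomputable def kk (ε : ℝ) : R4 → R4 := tri ε (bet ε) (hh ε)

/-- squared radius function: the identity for `q ≥ 1/25`, slope `δ` for `q ≤ 1/25 - δ` -/
noncomputable def qq (δ q : ℝ) : ℝ := q + (1 - δ) * δ * ramp ((1 / 25 - q) / δ)

/-- the radial map about `(s, c, 0)` with squared radius function `qq δ` -/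
noncomputable def radc (δ c : ℝ) (p : R4) : R4 :=
  (p.1, c + √(qq δ (rsq c p) / rsq c p) * (p.2.1 - c),
    ((√(qq δ (rsq c p) / rsq c p) : ℝ) : ℂ) * p.2.2)

/-- **R0.** The ramp.  Proof. Fundamental theorem of calculus, `step` is smooth (`contDiff_infty_iff_deriv`),
`0 ≤ step ≤ 1`, `step = 1` on `[1,∞)`: `ramp x ≥ x - 1`. -/
def StR0 : Prop :=
  ContDiff ℝ ∞ ramp ∧ (∀ x, HasDerivAt ramp (step x) x) ∧ (∀ x, x ≤ 0 → ramp x = 0) ∧
    (∀ x, 0 ≤ ramp x) ∧ (∀ x, x - 1 ≤ ramp x) ∧ ∀ x, 0 ≤ x → ramp x ≤ x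

/-- **R1.** The exact compression `kk ε`, `0 < ε < 1`.
(i) injective local diffeomorphism; more generally all the maps `(1-t) sq ε + t kk ε`, `t ∈ [0,1]`, and
this homotopy is smooth on `ℝ × R4` (indeed on an open set containing `[0,1] × R4`);
(ii) `kk ε p = p` on `sph 0 ∪ sph 1`;
(iii) uniform closeness on compact subsets `K` of `Ext`: for every `r > 0` and all small `ε`,
`dist (kk ε p) (sq 0 p) ≤ r` for `p ∈ K`;
(iv) for `p` inside the tubes (`rsq c p ≤ 1/25`, `c = 0, 1`) the squared radius satisfies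
`rsq c p ≤ rsq c (kk ε p) ≤ 1/25`.
Proof. Put `u = uu a`, `g = prof ε a`.  `g > max 0 (1/25-a²)`, `g > max 0 (1/25-(a-1)²)`, `uu a` is a convex
combination of the two numbers, so `u < g`, and `k - u + g > 0` for `k ≥ 0` (and on the open set
`{k > u - g}`).  `bet ε` has derivative `1 - (1-ε) step((a-6/5)/ε) - (1-ε) step((-1/5-a)/ε) ≥ ε > 0`.
`k hh² = k g/(k - u + g)` has `k`-derivative `g (g-u)/(k-u+g)² > 0` and equals... so
`hh (hh + 2 k hh') > 0`.  `S0` applies to `kk ε` and, by convexity of its hypotheses (with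
`S1`, `S2`: `sq ε = tri ε (axc ε) (fac ε)`), to `(1-t) sq ε + t kk ε = tri ε ((1-t) axc ε + t bet ε)
((1-t) fac ε + t hh ε)`.  (ii) on `sph 0`: `|a| ≤ 1/5`, `k = 1/25 - a² = u`, so `hh = √(g/g) = 1`,
`bet ε a = a`; same on `sph 1`.  (iii) let `c(a)` be the clamp; `|bet ε a - c(a)| ≤ C ε` on bounded sets
(for `a ≥ 6/5`: `ramp x ≥ x - 1` gives `6/5 ≤ bet ε a ≤ a - (1-ε)(a - 6/5) + ε ≤ 6/5 + C ε`).  The third
component is a nonnegative multiple of `w`, with squared norm `X = k g/(k-u+g)`; on `Ext` we have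
`k ≥ max 0 u =: u₊` (as `k ≥ 1/25 - a²` and `k ≥ 1/25-(a-1)²`), hence `u₊ ≤ X ≤ g` (`X` is increasing in `k`,
`X = u` at `k = u`; `X ≥ 0`; `X ≤ g` as `k ≤ k - u + g`); and `prof ε a - prof 0 a ≤ ε`,
`prof 0 a = u₊` where `|a| ≤ 1/5` or `|a-1| ≤ 1/5`, `prof 0 a = 0` elsewhere.  The third component of
`sq 0 p` is the nonnegative multiple of `w` with squared norm `prof 0 a` (`S4`), and
`|√X - √Y| ≤ √|X - Y| ≤ √ε`.  (iv) `|a| ≤ 1/5`, `k ≤ u`: `a` unchanged, `k ≤ X ≤ u` (the factor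
`g/(k-u+g) ≥ 1`; monotone in `k`). -/
def StR1 : Prop :=
  (∀ ε ∈ Ioo (0 : ℝ) 1, ContDiff ℝ ∞ (kk ε) ∧
    ContDiff ℝ ∞ (fun q : ℝ × R4 => (1 - q.1) • sq ε q.2 + q.1 • kk ε q.2) ∧
    ∀ t ∈ Icc (0 : ℝ) 1, EmbOn 𝓘(ℝ, R4) (fun p => (1 - t) • sq ε p + t • kk ε p) univ) ∧
  (∀ ε ∈ Ioo (0 : ℝ) 1, ∀ p ∈ sph 0 ∪ sph 1, kk ε p = p) ∧
  (∀ K : Set R4, IsCompact K → K ⊆ Ext → ∀ r > 0, ∃ ε₀ > 0, ∀ ε ∈ Ioo 0 ε₀, ∀ p ∈ K,
    dist (kk ε p) (sq 0 p) ≤ r) ∧
  ∀ ε ∈ Ioo (0 : ℝ) 1, ∀ p : R4,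
    (rsq 0 p ≤ 1 / 25 → rsq 0 p ≤ rsq 0 (kk ε p) ∧ rsq 0 (kk ε p) ≤ 1 / 25) ∧
    (rsq 1 p ≤ 1 / 25 → rsq 1 p ≤ rsq 1 (kk ε p) ∧ rsq 1 (kk ε p) ≤ 1 / 25)

/-- **R2.** The radial maps, `0 < δ < 1/100`, `c ∈ {0, 1}`.  `radc δ c` is an injective local
diffeomorphism on `{rsq c p > 0}`; it is the identity for `rsq c p ≥ 1/25`; `rsq c (radc δ c p) = qq δ (rsq c p)`,
which lies in `[1/25 - 2δ, 1/25]` for `(3/20)² ≤ rsq c p ≤ 1/25`.
Proof. `qq δ` has derivative `1 - (1-δ) step((1/25-q)/δ) ∈ [δ, 1]`, is `≥ q > 0`, is the identity for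
`q ≥ 1/25`; `m(q) = √(qq δ q / q)` satisfies `m > 0`, `m² q = qq δ q`, `m (m + 2 q m') = (qq δ)' > 0`; the
derivative of `x ↦ m(|x|²) x` in direction `v` is `m v + 2 m' ⟨x,v⟩ x`, injective as in `S0`; use `A0`.
Injective: the squared radius `qq δ q` determines `q`, then `x` is determined.  Estimate: `ramp x ≥ x - 1`
gives `qq δ q ≥ q + (1-δ)(1/25 - q - δ) ≥ 1/25 - δ - δ/25`. -/
def StR2 : Prop :=
  ∀ δ ∈ Ioo (0 : ℝ) (1 / 100), ∀ c : ℝ,
    EmbOn 𝓘(ℝ, R4) (radc δ c) {p | 0 < rsq c p} ∧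
    (∀ p, 1 / 25 ≤ rsq c p → radc δ c p = p) ∧
    (∀ p, 0 < rsq c p → rsq c (radc δ c p) = qq δ (rsq c p) ∧ rsq c p ≤ rsq c (radc δ c p)) ∧
    ∀ p, (3 / 20) ^ 2 ≤ rsq c p → rsq c p ≤ 1 / 25 →
      1 / 25 - 2 * δ ≤ rsq c (radc δ c p) ∧ rsq c (radc δ c p) ≤ 1 / 25

/-- **R3.** Realization: every germ class is the class of a barbell with the same core spheres.
Proof. `A1`: an open `V ⊇ SP` on which `F` is injective and locally diffeomorphic.  `SP` is compact, so for
small `δ` the compact set `C_δ = {p | p.1 = 1/2, 1/25-2δ ≤ rsq 0 p ≤ 1/25} ∪ (same with rsq 1) ∪ SP` and its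
closed `r`-neighbourhood are in `V` for some `r > 0`.  Let `E = radc δ 0 ∘ radc δ 1` (they have disjoint
supports `rsq c p < 1/25`): injective local diffeomorphism on `NB`, identity on `Ext`.
`κ = kk ε ∘ E`.  For `p ∈ NB ∩ Ext`: `κ p = kk ε p` is within `r` of `sq 0 p ∈ SP` (`R1` (iii)).  For `p ∈ NB` with
`rsq 0 p < 1/25`: `E p` has `1/25 - 2δ ≤ rsq 0 (E p) ≤ 1/25`, and `κ p` also by `R1` (iv), with first
coordinate within `ε` of `1/2`: within `2 ε` of `C_δ`.  So `κ(NB) ⊆ V` for small `ε`, `F ∘ κ` is `EmbOn NB`;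
`A1` gives `B` with `B = F ∘ κ` near `NB`.  On `sph 0 ∪ sph 1`: `E p = p` and `kk ε p = p`, so `B p = F p`.
`push B barMap = imp B NB barMap = imp (F ∘ kk ε) bsupp barMap` (`StImp`, `E = id` on `bsupp`).  For `t ∈ [0,1]`,
`p ∈ bsupp` the point `(1-t) sq ε p + t kk ε p` is within `r` of `sq 0 p` (both ends are, `S3`), hence in `V`:
`F ∘ ((1-t) sq ε + t kk ε)` is a family of germs along `bsupp` by `R1` (i), and `A3` gives
`CIsot (imp (F ∘ sq ε) bsupp barMap) (imp (F ∘ kk ε) bsupp barMap)`; with `Thin` this proves the claim. -/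
def StR3 : Prop :=
  ∀ (E : Type) [NormedAddCommGroup E] [NormedSpace ℝ E] (H : Type) [TopologicalSpace H]
    (I : ModelWithCorners ℝ E H) (M : Type) [TopologicalSpace M] [ChartedSpace H M] [T2Space M]
    (F : R4 → M) (φ : M → M), EmbOn I F SP → Thin I F φ →
    ∃ B : PartialDiffeomorph 𝓘(ℝ, R4) I R4 M ∞, NB ⊆ B.source ∧ (∀ p ∈ sph 0 ∪ sph 1, B p = F p) ∧
      CIsot I φ (push B barMap)

/-- **F1.** `N` at the level of germs is `N` at the level of barbells.
Proof. Induction on `InN`.  `gen`: `R3` gives `B`; the ball `G` of `BoundsOff` gives by `A1` a partial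
diffeomorphism `δ` with `flat c ⊆ δ.source`, `δ = G = F = B` on `sph c`, and
`δ '' flat c = G '' flat c` is disjoint from `F '' sph d = B '' sph d`.  `implantation B barMap = push B barMap`
(`implantation_eq_push`, `isBarbellMap_barMap`), `CIsot → Isot`. -/
def StF1 : Prop := ∀ φ : S4 → S4, InN (𝓡 4) φ → NSub φ

/-- **F2.** The assembly: `StMain` implies the theorem for the 4-sphere.
Proof. `T4`: `B`, `B'` are `EmbOn SP`, `Thin B (implantation B β)`, `Thin B' (implantation B' β')`.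
`X2` gives `c` with `B(SP), B'(SP) ⊆ c(R4)`; `X3` gives the germs `F = c⁻¹ ∘ B`, `F' = c⁻¹ ∘ B'` along `SP`,
`c ∘ F = B`, `c ∘ F' = B'` near `SP`.  They agree on the interior of the two shells, an open set containing
`sph 0 ∪ sph 1`.  Choose `φ, φ'` with `Thin F φ`, `Thin F' φ'` (`T2` (i)); `StMain` gives `n` with
`CIsot φ' (n ∘ φ)`.  By `X1`, `T2` (v): `Thin B (imp c univ φ)`, so `imp c univ φ` is isotopic to
`implantation B β` (`T2` (ii)), same for `B'`; `imp c univ φ'` is isotopic to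
`imp c univ n ∘ imp c univ φ`, and `imp c univ n` is in `N` (`X1`), so in `NSub` (`F1`). -/
def StF2 : Prop := StMain → StFinal1

end Pool.Agent.Helper18.BI


end
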