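import Pool.Agent.Helper65.Barb.Defs
import Pool.Agent.Helper70.BI.B.P01
import Pool.Agent.Helper70.BI.B.P03

/-!
# Project BI (MP_8e98f2_gt): collected modules, part 04

The contents of the modules
* Helper18.BI.StFr
* Helper70.BI.Base
* Helper27.BI.H.Defs
* Helper18.BI.H.StS7

in one file, so that the whole proof builds in a short time.
-/

/-! ## Helper18.BI.StFr -/

section

/-!
# Project BI (MP_8e98f2_gt): the framing lemma

Two germs along the spine which agree near the two cuffs and on the neck have the same class.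
-/

set_option autoImplicit false

open scoped Manifold ContDiff Topology ComplexConjugate
open Set Pool.Agent.Helper65.Barb

namespace Pool.Agent.Helper18.BI

/-- continuous linear endomorphisms of the normal space of the neck, coordinates `(s - 1/2, w)` -/
abbrev E3 : Type := (ℝ × ℂ) →L[ℝ] (ℝ × ℂ)

/-- A smooth loop of invertible linear maps, equal to the identity near the ends of the neck (and outside).
-/
def LoopOK (G : ℝ → E3) : Prop :=
  ContDiff ℝ ∞ G ∧ (∀ a v, G a v = 0 → v = 0) ∧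
    ∃ δ > 0, ∀ a, (a ≤ 1 / 5 + δ ∨ 4 / 5 - δ ≤ a) → G a = ContinuousLinearMap.id ℝ (ℝ × ℂ)

/-- A smooth homotopy of such loops (time in the first variable). -/
def HomOK (Γ : ℝ × ℝ → E3) : Prop :=
  ContDiff ℝ ∞ Γ ∧ (∀ t ∈ Icc (0 : ℝ) 1, ∀ a v, Γ (t, a) v = 0 → v = 0) ∧
    ∃ δ > 0, ∀ t a, (a ≤ 1 / 5 + δ ∨ 4 / 5 - δ ≤ a) →
      Γ (t, a) = ContinuousLinearMap.id ℝ (ℝ × ℂ)

/-- finite chains of homotopies -/
def LoopHom : (ℝ → E3) → (ℝ → E3) → Prop :=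
  Relation.ReflTransGen fun G G' =>
    ∃ Γ, HomOK Γ ∧ (∀ a, Γ (0, a) = G a) ∧ ∀ a, Γ (1, a) = G' a

/-- the fibrewise linear map of `R4` given by a loop -/
noncomputable def fib (G : ℝ → E3) (p : R4) : R4 :=
  (1 / 2 + (G p.2.1 (p.1 - 1 / 2, p.2.2)).1, p.2.1, (G p.2.1 (p.1 - 1 / 2, p.2.2)).2)

/-- the loop of rotations of the coordinate `w` by the angle `om a` -/
noncomputable def rotL (om : ℝ → ℝ) (a : ℝ) : E3 :=
  (ContinuousLinearMap.id ℝ ℝ).prodMap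
    (Complex.exp (om a * Complex.I) • ContinuousLinearMap.id ℝ ℂ)

/-- an angle function: `0` near and before `a = 1/5`, `2πk` near and after `a = 4/5` -/
def AngleOK (om : ℝ → ℝ) (k : ℤ) : Prop :=
  ContDiff ℝ ∞ om ∧ ∃ δ > 0, (∀ a, a ≤ 1 / 5 + δ → om a = 0) ∧
    ∀ a, 4 / 5 - δ ≤ a → om a = 2 * Real.pi * k

/-- **Fr1.** Loops and homotopies of loops give families of germs.
(i) `fib G` is an injective local diffeomorphism of `R4`; (ii) it fixes `SP` pointwise and is the identity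
for `a ≤ 1/5 + δ`, `a ≥ 4/5 - δ`; (iii) for a homotopy `Γ` and a germ `F` along `SP` the maps
`F ∘ fib Γ_t` form a family along `SP`.
Proof. (i) injective: `a` is preserved and `G a` is injective; derivative at `(s,a,w)` in direction
`(σ,α,v)`: the middle component is `α`; if it is `0` the others are `G a (σ, v)`, zero only for
`(σ,v) = 0`; use `A0`.  (ii) for `p ∈ neck`, `(s - 1/2, w) = 0`; for `p ∈ sph 0`, `a ≤ 1/5`; for `p ∈ sph 1`,
`a ≥ 4/5`.  (iii) `A0` shows that `p ↦ fib Γ_t p` is a local diffeomorphism for each `t ∈ [0,1]`; smooth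
jointly; it fixes `SP`, so `F ∘ fib Γ_t` is `EmbOn SP` (`IsLocalDiffeomorphAt.comp`); smooth on the open set
`{(t,p) | fib Γ_t p ∈ U}`, `U` an open set containing `SP` on which `F` is smooth. -/
def StFr1 : Prop :=
  (∀ G : ℝ → E3, LoopOK G → EmbOn 𝓘(ℝ, R4) (fib G) univ ∧ ContDiff ℝ ∞ (fib G) ∧
    (∀ p ∈ SP, fib G p = p) ∧
    ∃ δ > 0, ∀ p : R4, (p.2.1 ≤ 1 / 5 + δ ∨ 4 / 5 - δ ≤ p.2.1) → fib G p = p) ∧
  ∀ (Γ : ℝ × ℝ → E3) (F : R4 → R4), HomOK Γ → EmbOn 𝓘(ℝ, R4) F SP →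
    FamOn 𝓘(ℝ, R4) (fun q => F (fib (fun a => Γ (q.1, a)) q.2)) SP

/-- **Fr2a.** Every loop is homotopic to one fixing the first basis vector `(1, 0)`.
Proof. For `u, v ∈ ℝ × ℂ` (with the Euclidean inner product `⟨x,y⟩ = x.1 y.1 + Re (x.2 conj y.2)` and the
norm `|x| = √⟨x,x⟩`), linearly independent, put
`ℓ(x) = ⟨x, u/|u| + v/|v|⟩ / (|u| + ⟨u,v⟩/|v|)` (denominator `> 0`), so `ℓ(u) = 1`, `ℓ(v) > 0`, and
`A(τ,u,v) x = x + τ ℓ(x) (v - u)`.  `A(τ,u,v) u = (1-τ) u + τ v`, and `A` is invertible for `τ ∈ [0,1]`: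
if `x + τ ℓ(x)(v-u) = 0` then applying `ℓ`: `ℓ(x) (1 - τ + τ ℓ(v)) = 0`, so `ℓ(x) = 0`, `x = 0`.
Let `u(a) = G a (1,0) ≠ 0`.  The image of `(r, a) ↦ r • u(a)`, `ℝ × ℝ → ℝ × ℂ`, is a null set
(`Pool.Agent.Helper34.BI.null_image`, dimensions `2 < 3`), so there is `n` not in it: `n` is linearly
independent of every `u(a)`, in particular of `e = (1,0)`.  Let `G = 1` for `a ≤ 1/5+δ` and `a ≥ 4/5-δ`; let
`χ` be smooth, `χ = 0` for `a ≤ 1/5+δ/3`, `a ≥ 4/5-δ/3`, `χ = 1` on `[1/5+2δ/3, 4/5-2δ/3]`, values in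
`[0,1]` (products of `step`s; `δ ≤ 1/10` without loss of generality).
First homotopy: `Γ₁(t,a) = A(t χ(a), u(a), n) ∘ G a`.  At `t = 1` its first column is
`(1-χ) u + χ n = (1-χ) e + χ n` for all `a` (where `χ < 1` we have `G a = 1`, `u = e`).
Second homotopy: `G₂ a = A(χ(a), e, n)⁻¹ ∘ Γ₁(1,a)` has first column `e`
(`A(τ,u,v)⁻¹ x = x - τ ℓ(x) (v-u) / (1 - τ + τ ℓ(v))`), and `Γ₂(t,a) = A((1-t) χ(a), e, n) ∘ G₂ a` joins
`Γ₁(1,·)` to `G₂`.  Everything is smooth on `ℝ × ℝ` (polynomial in `τ`; `|u(a)| ≠ 0`) and the identity near the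
ends. -/
def StFr2a : Prop :=
  ∀ G : ℝ → E3, LoopOK G → ∃ G' : ℝ → E3, LoopOK G' ∧ LoopHom G G' ∧ ∀ a, G' a (1, 0) = (1, 0)

/-- **Fr2b.** A loop fixing the first basis vector is homotopic to a loop of rotations of `w`.
Proof. `G a (σ, v) = (σ + λ_a v, g_a v)`; first homotopy `Γ(t,a)(σ,v) = (σ + (1-t) λ_a v, g_a v)`, invertible
because `g_a` is injective (if `g_a v = 0` then `G a (-λ_a v, v) = 0`).
`g_a z = α(a) z + β(a) conj z` with `α = (g(1) - i g(i))/2`, `β = (g(1) + i g(i))/2`; `g_a` is injective iff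
`|α| ≠ |β|` (if `|α| = |β|`, choose `z = √` such that `α z = -β conj z`: explicitly `z = conj(√(..))`; or:
the determinant of `g_a` is `|α|² - |β|²`, `= Re g(1) Im g(i) - Im g(1) Re g(i)`, and a nonzero kernel vector
exists if it vanishes: `z = conj(..)`, e.g. `z = -Re g(i) + i Re g(1)` or `z = -Im g(i) + i Im g(1)` or `z = 1`),
and `|α|² - |β|² = 1` at `a = 0`; by the intermediate value theorem `|α|² - |β|² > 0` for all `a`.
Second homotopy: `α z + (1-t) β conj z`.  Now `α : ℝ → ℂ` is smooth, nowhere zero, `1` for `a ≤ 1/5+δ`,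
`a ≥ 4/5-δ`.  `η(a) = ∫_0^a α'/α` is smooth, `exp η = α` (the derivative of `α exp(-η)` vanishes, value `1` at
`0`), `η = 0` for `a ≤ 1/5+δ`, `η` is constant for `a ≥ 4/5-δ` with `exp η = 1`, so `η = 2πik` there
(`Complex.exp_eq_one_iff`).  Third homotopy: `α_t = exp((1-t) Re η + i Im η)`; `om = Im η`. -/
def StFr2b : Prop :=
  ∀ G : ℝ → E3, LoopOK G → (∀ a, G a (1, 0) = (1, 0)) →
    ∃ (om : ℝ → ℝ) (k : ℤ), AngleOK om k ∧ LoopHom G (rotL om)

/-- **Fr3.** Rotations are absorbed by rotating the second cuff.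
Proof. `Θ (t, (s,a,w)) = (s, a, exp(i t om(a)) w)`, smooth on `ℝ × R4`; each `Θ_t` is a bijection of `R4` with
invertible derivative, mapping `SP` onto itself: `om = 0` on `sph 0`; `w = 0` on the neck; on `sph 1`
(`a ≥ 4/5`) it is the rotation of `w` by `2πkt`, which preserves `rsq 1`.  So `J (t, p) = F (Θ (t, p))` is a family
along `SP` from `F` to `F ∘ Θ_1 = F ∘ fib (rotL om)`; use `T2` (iii) in both directions (`t ↦ 1 - t`). -/
def StFr3 : Prop :=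
  ∀ (F : R4 → R4) (om : ℝ → ℝ) (k : ℤ) (φ : R4 → R4), EmbOn 𝓘(ℝ, R4) F SP → AngleOK om k →
    (Thin 𝓘(ℝ, R4) (fun p => F (fib (rotL om) p)) φ ↔ Thin 𝓘(ℝ, R4) F φ)

/-- **Fr4.** Homotopic loops give the same class.  Proof. `Fr1` (iii) and `T2` (iii), both directions;
induction on the chain. -/
def StFr4 : Prop :=
  ∀ (F : R4 → R4) (G G' : ℝ → E3) (φ : R4 → R4), EmbOn 𝓘(ℝ, R4) F SP → LoopHom G G' →
    (Thin 𝓘(ℝ, R4) (fun p => F (fib G p)) φ ↔ Thin 𝓘(ℝ, R4) (fun p => F (fib G' p)) φ)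

/-- **Fr5.** Reduction of two germs with the same neck to a loop.
Proof. Put `p_a = (1/2, a, 0)`.  There is `r > 0` such that `F` and `F'` are smooth with invertible derivative
near `p_a` for `a ∈ (1/5 - r, 4/5 + r)`, and `F = F'` near `p_a` for `|a - 1/5| < r` and `|a - 4/5| < r`
(`U` is open and contains the feet; `EmbOn`, `A0`, compactness).  Let `A_a = DF(p_a)`, `A'_a = DF'(p_a)`,
`B_a = A_a⁻¹ A'_a`.  For `a` in `(1/5, 4/5)` differentiating `F = F'` along the neck gives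
`A_a (0,1,0) = A'_a (0,1,0)`, so `B_a (0,1,0) = (0,1,0)`; near the ends `B_a = 1`.
`B_a (σ, α, v) = (m₁, α + b_a(σ,v), m₂)` with `(m₁, m₂) = M_a (σ, v)`; `M_a` is injective because `B_a` is and
`B_a(0,1,0) = (0,1,0)`.  `G a = M_a` for `a ∈ [1/5,4/5]` and `1` otherwise is a `LoopOK` (smooth: `a ↦ A_a`, `A'_a`
are smooth on the open interval, inversion is smooth, and `M_a = 1` near `1/5` and `4/5`).
`F'' = F ∘ fib G` agrees with `F'` on `SP` (`Fr1` (ii)), near the two cuffs `F'' = F = F'`, and at `p_a`: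
`DF''(p_a)(σ,α,v) = A_a (M_a(σ,v), α)` and `DF'(p_a)(σ,α,v) = A_a (M_a(σ,v), α + b_a(σ,v))` (in the notation
with `α` as second entry), so the convex combinations are
`A_a (M_a(σ,v), α + t b_a(σ,v))`, injective.  `T8`. -/
def StFr5 : Prop :=
  ∀ (F F' : R4 → R4) (U : Set R4), EmbOn 𝓘(ℝ, R4) F SP → EmbOn 𝓘(ℝ, R4) F' SP → IsOpen U →
    sph 0 ∪ sph 1 ⊆ U → EqOn F F' U → EqOn F F' neck →
    ∃ G : ℝ → E3, LoopOK G ∧ ∀ φ, (Thin 𝓘(ℝ, R4) (fun p => F (fib G p)) φ ↔ Thin 𝓘(ℝ, R4) F' φ)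

/-- **THE FRAMING LEMMA.**  Proof. `Fr5`, `Fr2a`, `Fr2b`, `Fr4`, `Fr3`. -/
def StFr : Prop :=
  ∀ (F F' : R4 → R4) (U : Set R4), EmbOn 𝓘(ℝ, R4) F SP → EmbOn 𝓘(ℝ, R4) F' SP → IsOpen U →
    sph 0 ∪ sph 1 ⊆ U → EqOn F F' U → EqOn F F' neck →
    ∀ φ, (Thin 𝓘(ℝ, R4) F φ ↔ Thin 𝓘(ℝ, R4) F' φ)

theorem stFr_of (f2a : StFr2a) (f2b : StFr2b) (f3 : StFr3) (f4 : StFr4) (f5 : StFr5) : StFr := by
  intro F F' U hF hF' hU hs he hn φ
  obtain ⟨G, hG, h5⟩ := f5 F F' U hF hF' hU hs he hn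
  obtain ⟨G₂, hG₂, h2, he₂⟩ := f2a G hG
  obtain ⟨om, k, hom, h2b⟩ := f2b G₂ hG₂ he₂
  exact ((f3 F om k φ hF hom).symm.trans ((f4 F G (rotL om) φ hF (h2.trans h2b)).symm)).trans (h5 φ)

end Pool.Agent.Helper18.BI


end

/-! ## Helper70.BI.Base -/

section

/-!
# Project BI, part (E): basic definitions and lemmas on germs along compact sets
-/

set_option autoImplicit false

open scoped Manifold ContDiff Topology ComplexConjugate
open Set Filter Pool.Agent.Helper65.Barb Pool.Agent.Helper18.BI Pool.Agent.Helper34.BI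

namespace Pool.Agent.Helper70.BI

/-- the model of four-space -/
noncomputable abbrev I4 : ModelWithCorners ℝ R4 R4 := 𝓘(ℝ, R4)

/-- the point `(1/2, a, 0)` of the axis -/
noncomputable def ax (a : ℝ) : R4 := (1 / 2, (a, 0))

/-- the core of the bar of the germ `F` -/
noncomputable def core (F : R4 → R4) (a : ℝ) : R4 := F (ax a)

/-- the germs `F` and `F'` have the same implantation class -/
def Eqv (F F' : R4 → R4) : Prop := ∀ φ : R4 → R4, Thin I4 F φ ↔ Thin I4 F' φ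

/-- `F` and `F'` agree on a neighbourhood of `L` -/
def NearEq (F F' : R4 → R4) (L : Set R4) : Prop := ∃ U : Set R4, IsOpen U ∧ L ⊆ U ∧ EqOn F F' U

/-- local diffeomorphisms of `R4` -/
abbrev LD (F : R4 → R4) (p : R4) : Prop := IsLocalDiffeomorphAt 𝓘(ℝ, R4) 𝓘(ℝ, R4) ∞ F p

/-- Interface to part (A): a family of germs along the spine has a constant class. -/
def StFam : Prop :=
  ∀ J : ℝ × R4 → R4, FamOn I4 J SP → Eqv (fun p => J (0, p)) (fun p => J (1, p))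

theorem Eqv.refl (F : R4 → R4) : Eqv F F := fun _ => Iff.rfl
theorem Eqv.symm {F F' : R4 → R4} (h : Eqv F F') : Eqv F' F := fun φ => (h φ).symm
theorem Eqv.trans {F F' F'' : R4 → R4} (h : Eqv F F') (h' : Eqv F' F'') : Eqv F F'' :=
  fun φ => (h φ).trans (h' φ)

theorem ld_iff {F : R4 → R4} {p : R4} :
    LD F p ↔ (∀ᶠ q in 𝓝 p, ContDiffAt ℝ ∞ F q) ∧ Function.Injective (fderiv ℝ F p) :=
  isLocalDiffeomorphAt_iff rfl

theorem embOn_iff {F : R4 → R4} {L : Set R4} :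
    EmbOn I4 F L ↔ (∀ p ∈ L, (∀ᶠ q in 𝓝 p, ContDiffAt ℝ ∞ F q) ∧
      Function.Injective (fderiv ℝ F p)) ∧ InjOn F L := by
  unfold EmbOn
  refine and_congr (forall_congr' fun p => forall_congr' fun _ => ?_) Iff.rfl
  exact ld_iff

theorem ld_congr {F F' : R4 → R4} {p : R4} (h : F =ᶠ[𝓝 p] F') (hF : LD F p) : LD F' p := by
  rw [ld_iff] at hF ⊢
  refine ⟨?_, ?_⟩
  · filter_upwards [hF.1, h.eventuallyEq_nhds] with q h1 h2
    exact h1.congr_of_eventuallyEq h2.symm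
  · rw [← h.fderiv_eq]; exact hF.2

theorem ld_comp {F m : R4 → R4} {p : R4} (hm : LD m p) (hF : LD F (m p)) : LD (F ∘ m) p := by
  rw [ld_iff] at hm hF ⊢
  have cm : ContinuousAt m p := hm.1.self_of_nhds.continuousAt
  refine ⟨?_, ?_⟩
  · filter_upwards [hm.1, cm.eventually hF.1] with q h1 h2
    exact h2.comp q h1
  · rw [fderiv_comp p (hF.1.self_of_nhds.differentiableAt (by simp))
      (hm.1.self_of_nhds.differentiableAt (by simp))]
    exact hF.2.comp hm.2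

theorem EmbOn.mono' {F : R4 → R4} {L L' : Set R4} (h : EmbOn I4 F L) (hs : L' ⊆ L) :
    EmbOn I4 F L' := ⟨fun p hp => h.1 p (hs hp), h.2.mono hs⟩

theorem embOn_comp {F m : R4 → R4} {L L' : Set R4} (hF : EmbOn I4 F L) (hm : EmbOn I4 m L')
    (hs : ∀ p ∈ L', m p ∈ L) : EmbOn I4 (F ∘ m) L' :=
  ⟨fun p hp => ld_comp (hm.1 p hp) (hF.1 (m p) (hs p hp)), fun p hp q hq he =>
    hm.2 hp hq (hF.2 (hs p hp) (hs q hq) he)⟩

theorem NearEq.symm {F F' : R4 → R4} {L : Set R4} (h : NearEq F F' L) : NearEq F' F L := by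
  obtain ⟨U, h1, h2, h3⟩ := h
  exact ⟨U, h1, h2, h3.symm⟩

theorem NearEq.eventuallyEq {F F' : R4 → R4} {L : Set R4} (h : NearEq F F' L) {p : R4}
    (hp : p ∈ L) : F =ᶠ[𝓝 p] F' := by
  obtain ⟨U, h1, h2, h3⟩ := h
  exact h3.eventuallyEq_of_mem (h1.mem_nhds (h2 hp))

theorem nearEq_of_eventuallyEq {F F' : R4 → R4} {L : Set R4}
    (h : ∀ p ∈ L, F =ᶠ[𝓝 p] F') : NearEq F F' L := by
  refine ⟨interior {q | F q = F' q}, isOpen_interior, fun p hp => ?_, fun q hq => ?_⟩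
  · exact mem_interior_iff_mem_nhds.2 (h p hp)
  · have h1 : q ∈ {q | F q = F' q} := interior_subset hq
    exact h1

theorem embOn_congr {F F' : R4 → R4} {L : Set R4} (h : NearEq F F' L) (hF : EmbOn I4 F L) :
    EmbOn I4 F' L := by
  refine ⟨fun p hp => ld_congr (h.eventuallyEq hp) (hF.1 p hp), ?_⟩
  obtain ⟨U, h1, h2, h3⟩ := h
  exact hF.2.congr (h3.mono h2)

/-- A criterion for families of germs: `J` is smooth near each point of `[0,1] × L`. -/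
theorem famOn_iff {J : ℝ × R4 → R4} {L : Set R4} :
    FamOn I4 J L ↔ (∀ t ∈ Icc (0 : ℝ) 1, ∀ p ∈ L, ∀ᶠ z in 𝓝 (t, p), ContDiffAt ℝ ∞ J z) ∧
      ∀ t ∈ Icc (0 : ℝ) 1, EmbOn I4 (fun p => J (t, p)) L := by
  constructor
  · rintro ⟨⟨W, hW, hs, hd⟩, h2⟩
    refine ⟨fun t ht p hp => ?_, h2⟩
    filter_upwards [hW.mem_nhds (hs ⟨ht, hp⟩)] with z hz
    exact (contMDiffOn_iff_contDiffOn.1 hd).contDiffAt (hW.mem_nhds hz)
  · rintro ⟨h1, h2⟩
    refine ⟨⟨interior {z | ContDiffAt ℝ ∞ J z}, isOpen_interior, ?_, ?_⟩, h2⟩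
    · rintro ⟨t, p⟩ ⟨ht, hp⟩
      exact mem_interior_iff_mem_nhds.2 (h1 t ht p hp)
    · refine contMDiffOn_iff_contDiffOn.2 fun z hz => ?_
      have h3 : z ∈ {z | ContDiffAt ℝ ∞ J z} := interior_subset hz
      exact ContDiffAt.contDiffWithinAt h3

/-- Precomposition of a family of germs with a family of germs of maps into the support. -/
theorem famOn_comp {J m : ℝ × R4 → R4} {L L' : Set R4} (hJ : FamOn I4 J L)
    (hm : FamOn I4 m L') (hs : ∀ t ∈ Icc (0 : ℝ) 1, ∀ p ∈ L', m (t, p) ∈ L) :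
    FamOn I4 (fun z => J (z.1, m z)) L' := by
  rw [famOn_iff] at hJ hm ⊢
  refine ⟨fun t ht p hp => ?_, fun t ht => ?_⟩
  · have h1 := hm.1 t ht p hp
    have h2 := hJ.1 t ht (m (t, p)) (hs t ht p hp)
    have h3 : ContinuousAt (fun z : ℝ × R4 => (z.1, m z)) (t, p) :=
      continuousAt_fst.prodMk h1.self_of_nhds.continuousAt
    filter_upwards [h1, h3.eventually h2] with z e1 e2
    exact e2.comp z (contDiffAt_fst.prodMk e1)
  · exact embOn_comp (hJ.2 t ht) (hm.2 t ht) (hs t ht)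

/-- a constant family -/
theorem famOn_const {F : R4 → R4} {L : Set R4} (hF : EmbOn I4 F L) :
    FamOn I4 (fun z => F z.2) L := by
  rw [famOn_iff]
  refine ⟨fun t _ p hp => ?_, fun t _ => hF⟩
  have h1 := (ld_iff.1 (hF.1 p hp)).1
  have h3 : ContinuousAt (fun z : ℝ × R4 => z.2) (t, p) := continuousAt_snd
  filter_upwards [h3.eventually h1] with z e1
  exact e1.comp z contDiffAt_snd

theorem famOn_congr {J J' : ℝ × R4 → R4} {L : Set R4} (hJ : FamOn I4 J L)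
    (h : ∀ t ∈ Icc (0 : ℝ) 1, ∀ p ∈ L, J =ᶠ[𝓝 (t, p)] J') : FamOn I4 J' L := by
  rw [famOn_iff] at hJ ⊢
  refine ⟨fun t ht p hp => ?_, fun t ht => ?_⟩
  · filter_upwards [hJ.1 t ht p hp, (h t ht p hp).eventuallyEq_nhds] with z e1 e2
    exact e1.congr_of_eventuallyEq e2.symm
  · refine embOn_congr (nearEq_of_eventuallyEq fun p hp => ?_) (hJ.2 t ht)
    have h3 : ContinuousAt (fun q : R4 => (t, q)) p := by fun_prop
    exact h3.eventually (h t ht p hp)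

/-- germs which agree near the spine have the same class -/
theorem eqv_of_nearEq (hA : StFam) {F F' : R4 → R4} (hF : EmbOn I4 F SP) (h : NearEq F F' SP) :
    Eqv F F' := by
  classical
  have hJ : FamOn I4 (fun z : ℝ × R4 => if z.1 < 1 / 2 then F z.2 else F' z.2) SP := by
    refine famOn_congr (famOn_const hF) fun t _ p hp => ?_
    have h3 : ContinuousAt (fun z : ℝ × R4 => z.2) (t, p) := continuousAt_snd
    filter_upwards [h3.eventually (h.eventuallyEq hp)] with z hz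
    split_ifs
    · rfl
    · exact hz
  have := hA _ hJ
  rwa [show (fun p : R4 => if ((0 : ℝ), p).1 < 1 / 2 then F ((0 : ℝ), p).2
      else F' ((0 : ℝ), p).2) = F from funext fun p => if_pos (by norm_num),
    show (fun p : R4 => if ((1 : ℝ), p).1 < 1 / 2 then F ((1 : ℝ), p).2
      else F' ((1 : ℝ), p).2) = F' from funext fun p => if_neg (by norm_num)] at this

/-- precomposition with a family of germs of maps into the support of `F` -/
theorem eqv_precomp (hA : StFam) {F : R4 → R4} {L : Set R4} (hF : EmbOn I4 F L)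
    {m : ℝ × R4 → R4} (hm : FamOn I4 m SP) (hs : ∀ t ∈ Icc (0 : ℝ) 1, ∀ p ∈ SP, m (t, p) ∈ L) :
    Eqv (fun p => F (m (0, p))) (fun p => F (m (1, p))) :=
  hA _ (famOn_comp (famOn_const hF) hm hs)

/-- a smooth family of maps with pointwise invertible derivatives, injective on `L` -/
theorem famOn_of_contDiff {m : ℝ × R4 → R4} {L : Set R4} (hm : ContDiff ℝ ∞ m)
    (hd : ∀ t ∈ Icc (0 : ℝ) 1, ∀ p ∈ L, Function.Injective (fderiv ℝ (fun q => m (t, q)) p))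
    (hi : ∀ t ∈ Icc (0 : ℝ) 1, InjOn (fun q => m (t, q)) L) : FamOn I4 m L := by
  rw [famOn_iff]
  refine ⟨fun t _ p _ => Eventually.of_forall fun z => hm.contDiffAt, fun t ht => ?_⟩
  rw [embOn_iff]
  refine ⟨fun p hp => ⟨Eventually.of_forall fun q => ?_, hd t ht p hp⟩, hi t ht⟩
  have : ContDiff ℝ ∞ (fun q : R4 => m (t, q)) := hm.comp (contDiff_prodMk_right t)
  exact this.contDiffAt

/-- smoothness of a `DFam` of `R4` -/
theorem contDiff_dfam (G : DFam I4 R4) : ContDiff ℝ ∞ G.f := by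
  rw [← contMDiff_iff_contDiff, modelWithCornersSelf_prod, ← chartedSpaceSelf_prod]
  exact G.smooth_f

/-- smoothness of the inverse of a `DFam` of `R4` -/
theorem contDiff_dfam_inv (G : DFam I4 R4) : ContDiff ℝ ∞ G.g := by
  rw [← contMDiff_iff_contDiff, modelWithCornersSelf_prod, ← chartedSpaceSelf_prod]
  exact G.smooth_g

/-- the members of a `DFam` of `R4` are local diffeomorphisms -/
theorem ld_dfam (G : DFam I4 R4) (t : ℝ) (p : R4) : LD (fun q => G.f (t, q)) p := by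
  have hf : ContDiff ℝ ∞ (fun q : R4 => G.f (t, q)) :=
    (contDiff_dfam G).comp (contDiff_prodMk_right t)
  have hg : ContDiff ℝ ∞ (fun q : R4 => G.g (t, q)) :=
    (contDiff_dfam_inv G).comp (contDiff_prodMk_right t)
  rw [ld_iff]
  refine ⟨Eventually.of_forall fun q => hf.contDiffAt, ?_⟩
  have d1 : HasFDerivAt (fun q : R4 => G.f (t, q)) (fderiv ℝ (fun q : R4 => G.f (t, q)) p) p :=
    (hf.differentiable (by simp) p).hasFDerivAt
  have d2 := (hg.differentiable (by simp) (G.f (t, p))).hasFDerivAt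
  have d3 := d2.comp p d1
  have d4 := d3.congr_of_eventuallyEq (f₁ := fun x : R4 => x)
    (Eventually.of_forall fun q => (G.gf t q).symm)
  have d5 := d4.unique (hasFDerivAt_id p)
  intro v w hvw
  have := congrArg (fderiv ℝ (fun q : R4 => G.g (t, q)) (G.f (t, p))) hvw
  have e1 : ∀ z, (fderiv ℝ (fun q : R4 => G.g (t, q)) (G.f (t, p)))
      (fderiv ℝ (fun q : R4 => G.f (t, q)) p z) = z := fun z =>
    congrArg (fun A : R4 →L[ℝ] R4 => A z) d5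
  rw [e1, e1] at this
  exact this

theorem famOn_dfam (G : DFam I4 R4) (L : Set R4) : FamOn I4 G.f L := by
  rw [famOn_iff]
  refine ⟨fun t _ p _ => Eventually.of_forall fun z => (contDiff_dfam G).contDiffAt,
    fun t _ => ⟨fun p _ => ld_dfam G t p, fun p _ q _ he => ?_⟩⟩
  have := congrArg (fun y => G.g (t, y)) he
  simpa [G.gf] using this

/-- ambient isotopies do not change the class -/
theorem eqv_postcomp (hA : StFam) {F : R4 → R4} (hF : EmbOn I4 F SP) (G : DFam I4 R4)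
    (h0 : ∀ y, G.f (0, y) = y) : Eqv F (fun p => G.f (1, F p)) := by
  have h := hA _ (famOn_comp (famOn_dfam G univ) (famOn_const hF) fun _ _ _ _ => mem_univ _)
  simpa [h0] using h

end Pool.Agent.Helper70.BI


end

/-! ## Helper27.BI.H.Defs -/

section

/-!
# Project BI, stage 3 (H): definitions

Thick arcs, pushes of thick arcs, the class of a loop of arcs.

`M = R4`.  An arc datum `D` consists of an open set `U` of `R4` (the complement of the wall), a germ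
`D.J` along the segment `D.L = {(s, 0) | s₀ ≤ s ≤ s₁}` with core `D.c` (the base arc; its ends are not in
`U`, its interior is in `U`), and an injective local diffeomorphism `D.e` of `U \ D.J '' D.L` into `R4`.  Arcs move
inside `U`, and only for `s ∈ (m₀, m₁)`, where `s₀ < m₀ < m₁ < s₁`.
-/

set_option autoImplicit false

open scoped Manifold ContDiff Topology ComplexConjugate
open Set Filter Pool.Agent.Helper65.Barb Pool.Agent.Helper18.BI
open Pool.Agent.Helper70.BI (I4 LD Eqv NearEq)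

namespace Pool.Agent.Helper27.H

/-- the unit square -/
def Q2 : Set (ℝ × ℝ) := Icc 0 1 ×ˢ Icc 0 1

/-- Smooth families, parametrized by `Q`, of germs of embeddings along `L`, constant on `V` (the frozen
part), with values in `U` on the rest of `L`. -/
structure Fam2 (Q : Set (ℝ × ℝ)) (L V U : Set R4) (J : ℝ × ℝ → R4 → R4) : Prop where
  smooth : ∀ a ∈ Q, ∀ p ∈ L, ∀ᶠ z : (ℝ × ℝ) × R4 in 𝓝 (a, p),
    ContDiffAt ℝ ∞ (fun z : (ℝ × ℝ) × R4 => J z.1 z.2) z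
  emb : ∀ a ∈ Q, EmbOn I4 (J a) L
  froz : ∀ a ∈ Q, ∀ b ∈ Q, ∀ p ∈ V, J a p = J b p
  inU : ∀ a ∈ Q, ∀ p ∈ L, p ∉ V → J a p ∈ U

/-- supported in a compact subset of `U` -/
def SuppU (U : Set R4) (F : DFam 𝓘(ℝ, R4) R4) : Prop :=
  ∃ K : Set R4, IsCompact K ∧ K ⊆ U ∧ ∀ t x, x ∉ K → F.f (t, x) = x

/-- `φ` and `ψ` are joined by an isotopy with compact support in `U`, all whose members carry the germ
`J₀` along `L` to the germ `J₁`. -/
def LIso (U L : Set R4) (J₀ J₁ φ ψ : R4 → R4) : Prop :=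
  ∃ F : DFam 𝓘(ℝ, R4) R4, (∀ x, F.f (0, x) = φ x) ∧ (∀ x, F.f (1, x) = ψ x) ∧ SuppU U F ∧
    ∃ N : Set R4, IsOpen N ∧ L ⊆ N ∧ ∀ t, ∀ p ∈ N, F.f (t, J₀ p) = J₁ p

/-- `Θ` is the end of an isotopy with compact support in `U`, starting at the identity, which carries
the germ `J 0` to the germ `J (step t)` at time `t`. -/
def LPush (U L : Set R4) (J : ℝ → R4 → R4) (Θ : R4 → R4) : Prop :=
  ∃ F : DFam 𝓘(ℝ, R4) R4, (∀ x, F.f (0, x) = x) ∧ (∀ x, F.f (1, x) = Θ x) ∧ SuppU U F ∧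
    ∃ N : Set R4, IsOpen N ∧ L ⊆ N ∧ ∀ t ∈ Icc (0 : ℝ) 1, ∀ p ∈ N, F.f (t, J 0 p) = J (step t) p

/-- a segment of the first coordinate axis -/
def seg (s₀ s₁ : ℝ) : Set R4 := {p | s₀ ≤ p.1 ∧ p.1 ≤ s₁ ∧ p.2 = 0}

/-- Arc data, see the top of the file. -/
structure ArcD where
  U : Set R4
  s₀ : ℝ
  m₀ : ℝ
  m₁ : ℝ
  s₁ : ℝ
  J : R4 → R4
  c : ℝ → R4
  e : R4 → R4
  openU : IsOpen U
  h₀ : s₀ < m₀
  h₁ : m₀ < m₁
  h₂ : m₁ < s₁
  smooth : ContDiff ℝ ∞ c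
  core : ∀ s ∈ Icc s₀ s₁, J (s, 0) = c s
  emb : EmbOn I4 J (seg s₀ s₁)
  mem : ∀ s ∈ Ioo s₀ s₁, c s ∈ U
  off₀ : c s₀ ∉ U
  off₁ : c s₁ ∉ U
  embe : EmbOn I4 e (U \ J '' seg s₀ s₁)

namespace ArcD

variable (D : ArcD)

/-- the segment of parameters -/
def L : Set R4 := seg D.s₀ D.s₁

/-- the base arc -/
def A : Set R4 := D.J '' D.L

/-- the frozen part -/
def V : Set R4 := {p | p.1 < D.m₀ ∨ D.m₁ < p.1}

/-- Transport of compactly supported diffeomorphisms of `U \ A` by `e`: the class of the diffeomorphism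
`Θ` (the identity near the base arc and the complement of `U`) is `χ`. -/
def Phi (Θ χ : R4 → R4) : Prop :=
  ∃ K : Set R4, IsCompact K ∧ K ⊆ D.U \ D.A ∧ (∀ x, x ∉ K → Θ x = x) ∧
    CIsot I4 χ (imp D.e K Θ)

/-- `χ` is the class of the loop of thick arcs `J`. -/
def TCls (J : ℝ → R4 → R4) (χ : R4 → R4) : Prop :=
  ∃ V : Set R4, IsOpen V ∧ ((D.s₀, 0) : R4) ∈ V ∧ ((D.s₁, 0) : R4) ∈ V ∧
    Fam2 Q2 D.L V D.U (fun a => J a.2) ∧ (∀ p ∈ V, J 0 p = D.J p) ∧ NearEq (J 0) D.J D.L ∧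
    NearEq (J 1) D.J D.L ∧ ∃ Θ, LPush D.U D.L J Θ ∧ D.Phi Θ χ

/-- `χ` is the class of the loop of arcs `c`: of any loop of thick arcs with these cores. -/
def Cls (c : ℝ → ℝ → R4) (χ : R4 → R4) : Prop :=
  ∃ J : ℝ → R4 → R4, (∀ q ∈ Icc (0 : ℝ) 1, ∀ s ∈ Icc D.s₀ D.s₁, J q (s, 0) = c q s) ∧ D.TCls J χ

/-- A homotopy `c (u, q, s)` (`u, q ∈ [0,1]`) of loops of arcs, not necessarily embedded; for fixed `u`, `q` the arc
is `s ↦ c (u, q, s)`; the loop parameter is `q`. -/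
structure Htpy (c : ℝ × ℝ × ℝ → R4) : Prop where
  smooth : ContDiff ℝ ∞ c
  froz : ∀ u ∈ Icc (0 : ℝ) 1, ∀ q ∈ Icc (0 : ℝ) 1, ∀ s, (s ≤ D.m₀ ∨ D.m₁ ≤ s) → c (u, q, s) = D.c s
  inU : ∀ u ∈ Icc (0 : ℝ) 1, ∀ q ∈ Icc (0 : ℝ) 1, ∀ s ∈ Icc D.m₀ D.m₁, c (u, q, s) ∈ D.U
  start : ∀ u ∈ Icc (0 : ℝ) 1, ∀ s, c (u, 0, s) = D.c s
  stop : ∀ u ∈ Icc (0 : ℝ) 1, ∀ s, c (u, 1, s) = D.c s

/-- the arc with parameters `u, q` is immersed -/
def Imm (c : ℝ × ℝ × ℝ → R4) (u q : ℝ) : Prop :=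
  ∀ s ∈ Icc D.s₀ D.s₁, deriv (fun s => c (u, q, s)) s ≠ 0

/-- the arc with parameters `u, q` is injective -/
def Inj (c : ℝ × ℝ × ℝ → R4) (u q : ℝ) : Prop :=
  InjOn (fun s => c (u, q, s)) (Icc D.s₀ D.s₁)

/-- At the parameters `u₀, q₀` the arc has exactly one double point, and it is transverse in the
two-parameter family. -/
structure Xing (c : ℝ × ℝ × ℝ → R4) (u₀ q₀ a b : ℝ) : Prop where
  memu : u₀ ∈ Ioo (0 : ℝ) 1
  memq : q₀ ∈ Ioo (0 : ℝ) 1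
  mema : a ∈ Ioo D.s₀ D.s₁
  memb : b ∈ Ioo D.s₀ D.s₁
  lt : a < b
  eq : c (u₀, q₀, a) = c (u₀, q₀, b)
  uniq : ∀ s ∈ Icc D.s₀ D.s₁, ∀ s' ∈ Icc D.s₀ D.s₁, s < s' → c (u₀, q₀, s) = c (u₀, q₀, s') →
    s = a ∧ s' = b
  trans : ∀ ζ η σ τ : ℝ, fderiv ℝ c (u₀, q₀, a) (ζ, η, σ) = fderiv ℝ c (u₀, q₀, b) (ζ, η, τ) →
    ζ = 0 ∧ η = 0 ∧ σ = 0 ∧ τ = 0

/-- A germ along the spine with the flat balls filled in, each flat ball meets the base arc in its
centre, the vertical lines through the centres are pieces of the base arc, traversed in the same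
direction; the parameter of the first is smaller; orientation preserving with respect to `D.J`. -/
structure XG (T : R4 → R4) : Prop where
  emb : EmbOn I4 T FB
  inU : ∀ p ∈ FB, T p ∈ D.U
  arc : ∀ p ∈ FB, T p ∈ D.A → p = (1 / 2, ((0 : ℝ), (0 : ℂ))) ∨ p = (1 / 2, ((1 : ℝ), (0 : ℂ)))
  str : ∃ σ τ : ℝ → ℝ, ContDiffAt ℝ ∞ σ (1 / 2) ∧ ContDiffAt ℝ ∞ τ (1 / 2) ∧
    0 < deriv σ (1 / 2) ∧ 0 < deriv τ (1 / 2) ∧ D.s₀ < σ (1 / 2) ∧ σ (1 / 2) < τ (1 / 2) ∧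
    τ (1 / 2) < D.s₁ ∧ (∀ᶠ s in 𝓝 (1 / 2 : ℝ), T (s, ((0 : ℝ), (0 : ℂ))) = D.J (σ s, 0)) ∧
    (∀ᶠ s in 𝓝 (1 / 2 : ℝ), T (s, ((1 : ℝ), (0 : ℂ))) = D.J (τ s, 0)) ∧
    0 < (fderiv ℝ T (1 / 2, ((0 : ℝ), (0 : ℂ)))).det * (fderiv ℝ D.J (σ (1 / 2), 0)).det

end ArcD

end Pool.Agent.Helper27.H


end

/-! ## Helper18.BI.H.StS7 -/

section

/-!
# Project BI, stage 3 (H), section 7: from homotopies of cuffs to homotopies of loops of arcs

The fixed cuff is `sph 1`, the cuff `sph 0` is moved by a homotopy in the complement of the fixed cuff.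
-/

set_option autoImplicit false

open scoped Manifold ContDiff Topology ComplexConjugate
open Set Pool.Agent.Helper65.Barb Pool.Agent.Helper18.BI
open Pool.Agent.Helper27.BI (zarc chi phi)

namespace Pool.Agent.Helper18.BI.H

/-- the outer part of the bar -/
def neckE : Set R4 := {p | p ∈ neck ∧ 3 / 5 ≤ p.2.1}

/-- the foot of the bar on the moving cuff -/
noncomputable def foot0 : R4 := (1 / 2, (1 / 5, 0))

/-- the point of the bar with coordinate `a` -/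
noncomputable def bar (a : ℝ) : R4 := (1 / 2, (a, 0))

/-- The sphere of directions: unit vectors of three-space swept out by the loop `q ↦ mm q ·`. -/
noncomputable def mm (q s : ℝ) : R3 :=
  zarc (Real.sin (Real.pi * q)) (chi (10 * s - 9 / 2)) q (10 * s - 9 / 2)

/-- The whiskered sphere: the unit sphere of three-space is mapped onto the part `a ≤ 73/100` of the bar
together with the cuff `sph 0`. -/
noncomputable def nu (m : R3) : R4 := sq 0 (1 / 2, ((73 : ℝ) / 100) • m)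

/-- **STR** (stretching the bar).  Two germs which agree near the cuff `sph 1` can be replaced by germs of the same
classes, with the same restrictions near both cuffs, which agree near the outer part of the bar.
Proof.  Let `r ∈ (0, 1/10)` such that `U` contains the points `(1/2, a, 0)` with `4/5 - r ≤ a ≤ 4/5`.
Choose `k : ℝ → ℝ` smooth with positive derivative, `k a = a` for `a ≤ 1/4` and for `4/5 - r/4 ≤ a`, and
`k a ≥ 4/5 - r` for `a ≥ 3/5 - 1/100` (e.g. `k a = a + c ∫ ..`; or: `k` = integral of a smooth positive function which is `1`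
for `a ≤ 1/4` and `a ≥ 4/5 - r/4`, with the right total integral and with small values on `[3/5-1/50, 4/5-r/4-small]`;
or compose with `Real.smoothTransition`: `k a = (1 - T) (a) + ...`).  `κ (s, a, w) = (s, k a, w)` and
`κ_t = (1-t) id + t κ`: injective local diffeomorphisms of `R4` (`StA0`; `k_t' > 0`), mapping `SP` onto `SP` (identity
near `sph 0` and `sph 1`; the bar to the bar), so `J (t, p) = F (κ_t p)` is a family of germs along `SP` (`FamOn`), and `T2` (iii) gives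
`Thin F φ → Thin (F ∘ κ) φ`.  `F₁ = F ∘ κ`, `F₁' = F' ∘ κ`, `V = κ ⁻¹' U`. -/
def StSTR : Prop :=
  ∀ (F F' : R4 → R4) (U : Set R4), EmbOn 𝓘(ℝ, R4) F SP → EmbOn 𝓘(ℝ, R4) F' SP → IsOpen U →
    sph 1 ⊆ U → EqOn F F' U → ∃ (F₁ F₁' : R4 → R4) (U₁ V : Set R4),
      EmbOn 𝓘(ℝ, R4) F₁ SP ∧ EmbOn 𝓘(ℝ, R4) F₁' SP ∧
      IsOpen U₁ ∧ sph 0 ∪ sph 1 ⊆ U₁ ∧ EqOn F₁ F U₁ ∧ EqOn F₁' F' U₁ ∧
      IsOpen V ∧ sph 1 ∪ neckE ⊆ V ∧ EqOn F₁ F₁' V ∧
      (∀ φ, Thin 𝓘(ℝ, R4) F φ → Thin 𝓘(ℝ, R4) F₁ φ) ∧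
      ∀ φ, Thin 𝓘(ℝ, R4) F' φ → Thin 𝓘(ℝ, R4) F₁' φ

/-- **BAR** (helper34).  The bar can be replaced by an embedded one in any homotopy class of paths in the complement of
the fixed cuff, from the point `3/5` of the bar to the foot.
Proof.  Concatenate: the given bar from `3/5` to `3/5 - δ` and back, then `ζ`, then the given bar from `1/5` to `1/5 + δ` and
back; this is homotopic to `ζ` rel ends off `K = F '' sph 1`.  Smooth it and put it in general position rel the two end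
segments: an embedded arc which leaves and arrives along the given bar and avoids `F '' (sph 0 ∪ sph 1 ∪ neckE)` otherwise
(codimensions `4 - 1 - 2 = 1`, `4 - 1 - 1 = 2`); thicken it to a germ (as in the module RE / `Thick.lean`), equal to
`F` near `sph 0 ∪ sph 1 ∪ neckE`.  Close paths in the open set `Kᶜ` are joined by the linear homotopy. -/
def StBAR : Prop :=
  ∀ (F : R4 → R4) (ζ : ℝ → R4), EmbOn 𝓘(ℝ, R4) F SP → ContinuousOn ζ (Icc 0 1) →
    ζ 0 = F (bar (3 / 5)) → ζ 1 = F foot0 → (∀ τ ∈ Icc (0 : ℝ) 1, ζ τ ∉ F '' sph 1) →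
    ∃ (F' : R4 → R4) (U : Set R4) (P : ℝ × ℝ → R4), EmbOn 𝓘(ℝ, R4) F' SP ∧ IsOpen U ∧
      sph 0 ∪ sph 1 ∪ neckE ⊆ U ∧ EqOn F F' U ∧
      ContinuousOn P (Icc (0 : ℝ) 1 ×ˢ Icc (0 : ℝ) 1) ∧
      (∀ τ ∈ Icc (0 : ℝ) 1, P (0, τ) = ζ τ) ∧
      (∀ τ ∈ Icc (0 : ℝ) 1, P (1, τ) = F' (bar (3 / 5 - 2 / 5 * τ))) ∧
      (∀ u ∈ Icc (0 : ℝ) 1, P (u, 0) = F (bar (3 / 5))) ∧
      (∀ u ∈ Icc (0 : ℝ) 1, P (u, 1) = F foot0) ∧
      ∀ u ∈ Icc (0 : ℝ) 1, ∀ τ ∈ Icc (0 : ℝ) 1, P (u, τ) ∉ F '' sph 1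

/-- A based homotopy of the whiskered spheres, constant on the outer part of the whisker. -/
def BasedH (F F' : R4 → R4) (H : ℝ × R3 → R4) : Prop :=
  ContinuousOn H (Icc (0 : ℝ) 1 ×ˢ {m : R3 | nsq m = 1}) ∧
    (∀ m, nsq m = 1 → H (0, m) = F (nu m)) ∧ (∀ m, nsq m = 1 → H (1, m) = F' (nu m)) ∧
    (∀ u ∈ Icc (0 : ℝ) 1, ∀ m, nsq m = 1 → 3 / 5 ≤ 73 / 100 * m.1 → H (u, m) = F (nu m)) ∧
    ∀ u ∈ Icc (0 : ℝ) 1, ∀ m, nsq m = 1 → H (u, m) ∉ F '' sph 1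

/-- **TOP.**  A free homotopy of the cuffs gives a based homotopy of the whiskered spheres, if the bar of the
second germ is in the class `bar * track of the foot`.  `ζ` is this path.
Proof.  For a unit vector `m` put `a = 73/100 * m.1 ∈ [-73/100, 73/100]`.  By `StS4`
(`hS4`, with `sq 0 (s, (a, w)) = (1/2, (clamp a, fac 0 .. • w))`): `nu m = bar a` if `a ≥ 1/5`, and `nu m ∈ sph 0`
if `a ≤ 1/5` (`nsq (73/100 • m) = (73/100)² ≥ 1/25` and `rsq 1 ≥ (27/100)² ≥ 1/25`, so the point is in `Ext`), and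
`nu m = foot0` if `a = 1/5`; `nu` is continuous (`StS3`).  Put
`P₁ (v, τ) = ζ (τ (1 + v) / 2)`, `(h', P) (u, ·) = (h (2u, ·), P₁ (2u, ·))` for `u ≤ 1/2` and
`(h (1, ·), P₂ (2u - 1, ·))` for `u ≥ 1/2`.  Both are continuous on the closed sets (`ContinuousOn.if`/`union` of closed sets;
at `u = 1/2`: `P₁ (1, τ) = ζ τ = P₂ (0, τ)`); `P (u, 1) = h' (u, foot0)` (`ζ ((1+v)/2) = h (v, foot0)`),
`P (u, 0) = F (bar (3/5))`, `P (0, τ) = ζ (τ/2) = F (bar (3/5 - 2/5 τ))`, `P (1, τ) = F' (bar (3/5 - 2/5 τ))`.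
`H (u, m) = F (nu m)` if `3/5 ≤ a`; `P (u, 5/2 (3/5 - a))` if `1/5 ≤ a ≤ 3/5`; `h' (u, nu m)` if `a ≤ 1/5`.
Off `F '' sph 1`: for `3/5 ≤ a` by injectivity of `F` on `SP` (`bar a` with `a ≤ 73/100` is not in `sph 1`). -/
def StTOP : Prop :=
  ∀ (F F' : R4 → R4) (h : ℝ × R4 → R4) (ζ : ℝ → R4) (P₂ : ℝ × ℝ → R4),
    EmbOn 𝓘(ℝ, R4) F SP → EmbOn 𝓘(ℝ, R4) F' SP → EqOn F F' neckE →
    ContinuousOn h (Icc (0 : ℝ) 1 ×ˢ sph 0) → (∀ p ∈ sph 0, h (0, p) = F p) →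
    (∀ p ∈ sph 0, h (1, p) = F' p) → (∀ u ∈ Icc (0 : ℝ) 1, ∀ p ∈ sph 0, h (u, p) ∉ F '' sph 1) →
    (∀ τ ∈ Icc (0 : ℝ) (1 / 2), ζ τ = F (bar (3 / 5 - 4 / 5 * τ))) →
    (∀ τ ∈ Icc (1 / 2 : ℝ) 1, ζ τ = h (2 * τ - 1, foot0)) →
    ContinuousOn P₂ (Icc (0 : ℝ) 1 ×ˢ Icc (0 : ℝ) 1) →
    (∀ τ ∈ Icc (0 : ℝ) 1, P₂ (0, τ) = ζ τ) →
    (∀ τ ∈ Icc (0 : ℝ) 1, P₂ (1, τ) = F' (bar (3 / 5 - 2 / 5 * τ))) →
    (∀ u ∈ Icc (0 : ℝ) 1, P₂ (u, 0) = F (bar (3 / 5))) →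
    (∀ u ∈ Icc (0 : ℝ) 1, P₂ (u, 1) = F' foot0) →
    (∀ u ∈ Icc (0 : ℝ) 1, ∀ τ ∈ Icc (0 : ℝ) 1, P₂ (u, τ) ∉ F '' sph 1) →
    ∃ H : ℝ × R3 → R4, BasedH F F' H

/-- **SM** (smoothing).  A based homotopy of the whiskered spheres gives a smooth homotopy of the loops of arcs, for all
small `ε`, at a distance `≥ κ` from the fixed cuff, `κ` independent of `ε`.
`ρ s` is the distance of the base arc from the vertical line over `0`.

Proof.  `K = F '' sph 1` is compact, `H` has compact image (continuous on the compact `[0,1] × S²`), so there is `κ > 0` with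
`2 κ ≤ dist (H (u, m)) y` for all `u, m, y ∈ K`.
`mm q s` is a unit vector for all `q, s` (`StZnsq`, `m_ZNSQ`), smooth in `(q, s)`, `= (1, 0)` for
`s ≤ 9/20`, for `11/20 ≤ s` (`chi = 0`, `sin φ = 0` there), and for `q = 0, 1`.
Choose `n₀' < n₀`, `n₁ < n₁'` with `73/100 ≤ .. ` replaced by `7/10 ≤ ρ s ≤ 39/50` on `[n₀', n₁']`, and let
`cl s` be the clamp of `s` to `[n₀', n₁']`, `θ u = step (3 u - 1)` (`0` for `u ≤ 1/3`, `1` for `u ≥ 2/3`).
`x (q, s) = ρ (cl s) • mm q (cl s)`.  By `StS3` (joint continuity of `sq` up to `ε = 0`), `StS4` and compactness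
(`mm` ranges over the compact unit sphere, `cl s` over `[n₀', n₁']`) there is `ε₀` such that for `ε < ε₀` and all `s' ∈ [n₀', n₁']`,
unit vectors `m`, and `ρ' ∈ [7/10, 39/50]` with (`ρ' = 73/100` or `m = (1,0)`): the point `sq ε (s', ρ' • m)` is in an open set
around `SP` on which `F` and `F'` are smooth, `e = F (sq ε (s', ρ' m)) - F (nu' )` and
`e' = F' (sq ε (s', ρ' m)) - F' (nu')`, `nu' = sq 0 (1/2, ρ' m)`, have norm `≤ κ/4`, and if `3/5 ≤ 73/100 * m.1` then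
`sq ε (s', ρ' m) ∈ U` (there `sq 0 (1/2, ρ' m)` is in `neckE`, as its first space coordinate is in `[3/5, 39/50]`).
For `s ∈ [9/20, 11/20]` put `f (u, q, s) = H (θ u, mm q s) + (1 - θ u) e + θ u e'`; for the other `s`:
`f (u, q, s) = F (sq ε (cl s, (ρ (cl s), 0)))`; they agree at `s = 9/20, 11/20` (`mm = (1,0)`, `H (·, (1,0)) = F (nu (1,0))`, `e = e'`), so `f` is
continuous on `ℝ × ℝ × ℝ`.  In the open set `{n₀' < s < n₁'} ∩ ({u < 1/3} ∪ {u > 2/3} ∪ {73/100 * (mm q s).1 > 3/5})` it is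
smooth: it is `F (sq ε (s, ρ s • mm q s))` for `u < 1/3` and where `73/100 (mm q s).1 > 3/5` (there `H = F ∘ nu = F' ∘ nu`, `e = e'`), and
`F' (..)` for `u > 2/3` (`StS2` smoothness of `sq ε`).
`Continuous.exists_contDiff_approx_and_eqOn` with error `κ/4` and
`S = {n₀ ≤ s ≤ n₁} ∩ ({u ≤ 1/4} ∪ {u ≥ 3/4} ∪ {13/20 ≤ 73/100 (mm q s).1})` gives `c`.  (i), (ii), (iii) hold on `S`
(`73/100 ≥ 13/20`).  (iv): for `s ∈ [9/20, 11/20]`, `|c - H| ≤ κ/4 + κ/4`, so the distance to `K` is `≥ κ`. -/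
def StSM : Prop :=
  ∀ (F F' : R4 → R4) (U : Set R4) (H : ℝ × R3 → R4) (n₀ n₁ : ℝ) (ρ : ℝ → ℝ),
    EmbOn 𝓘(ℝ, R4) F SP → EmbOn 𝓘(ℝ, R4) F' SP → IsOpen U → sph 1 ∪ neckE ⊆ U → EqOn F F' U →
    BasedH F F' H → n₀ < 9 / 20 → 11 / 20 < n₁ → ContDiff ℝ ∞ ρ →
    (∀ s ∈ Icc (9 / 20 : ℝ) (11 / 20), ρ s = 73 / 100) →
    (∀ s ∈ Icc n₀ n₁, 73 / 100 ≤ ρ s ∧ ρ s ≤ 3 / 4) →
    ∃ κ > 0, ∃ ε₀ > 0, ∀ ε ∈ Ioo 0 ε₀, ∃ c : ℝ × ℝ × ℝ → R4, ContDiff ℝ ∞ c ∧
      (∀ q, ∀ s ∈ Icc n₀ n₁, c (0, q, s) = F (sq ε (s, ρ s • mm q s))) ∧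
      (∀ q, ∀ s ∈ Icc n₀ n₁, c (1, q, s) = F' (sq ε (s, ρ s • mm q s))) ∧
      (∀ u q, ∀ s ∈ Icc n₀ n₁, mm q s = (1, 0) → c (u, q, s) = F (sq ε (s, (ρ s, 0)))) ∧
      ∀ u ∈ Icc (0 : ℝ) 1, ∀ q ∈ Icc (0 : ℝ) 1, ∀ s ∈ Icc (9 / 20 : ℝ) (11 / 20),
        ∀ y ∈ F '' sph 1, κ ≤ dist (c (u, q, s)) y

end Pool.Agent.Helper18.BI.H


end
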