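import Pool.Agent.Helper65.Barb.Defs
import Pool.Agent.Helper70.BI.B.P01
import Pool.Agent.Helper70.BI.B.P03

/-!
# Project BI (MP_8e98f2_gt): collected modules, part 05

The contents of the modules
* Helper27.BI.StM2
* Helper34.BI.StD
* Helper27.BI.StG
* Helper27.BI.Geo
* Helper18.BI.M_R0
* Helper34.BI.H.StH5a

in one file, so that the whole proof builds in a short time.
-/

/-! ## Helper27.BI.StM2 -/

section

/-!
# Project BI, part (C): the statements about the barbell map in the model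
-/

set_option autoImplicit false

open scoped Manifold ContDiff Topology ComplexConjugate
open Set Pool.Agent.Helper65.Barb Pool.Agent.Helper18.BI

namespace Pool.Agent.Helper27.BI

/-- MODULE SPIN.  The motion of the second arc under the barbell isotopy in coordinates.

Proof.  Direct computation from `spin`, `rot`, `qa`, `qb`, `eta`: with `C = cos (π P / 2)`,
`S = sin (π P / 2)`, `η = exp (i φ)`, `α = C² + S² η`, `β = S C (η̄ - 1)`, one has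
`rot α β (1, 0) = (|α|² - |β|², -2 i α β)`, `2 S C = sin π P`, `C² - S² = cos π P`,
`S² = (1 - cos π P) / 2`; both sides are polynomials in `cos φ, sin φ, S, C` (with
`cos (2 π P) = 1 - 8 S² C²`, `sin (2 π P) = 4 S C (C² - S²)`), use `sin² + cos² = 1` twice
(`linear_combination`). -/
def StSpin : Prop := ∀ s P : ℝ, spin s P (1, 0) = zarc (Real.sin (Real.pi * P)) (chi s) P s

/-- MODULE ZNSQ.  `|Z|² = 1 + sin² φ (A² - sin² π q)`.

Proof. `cos 2πq = 1 - 2 sin² πq`, `sin² 2πq = 4 sin² πq cos² πq`, `4 χ (1 - χ) = sin² φ`. -/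
def StZnsq : Prop := ∀ A q s : ℝ, nsq (zarc A (chi s) q s) =
  1 + Real.sin (phi s) ^ 2 * (A ^ 2 - Real.sin (Real.pi * q) ^ 2)

/-- the closed tube of radius `r` about the vertical line over `x₀` -/
def ctube (x₀ : R3) (r : ℝ) : Set R4 := {p | nsq (p.2 - x₀) ≤ r ^ 2}

/-- the function of the level which is `1` when the moving arc passes at the back (`φ` near `π`)
with first transversal coordinate within `g / 8` of `X`, and `0` for distance `≥ g / 4` and at the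
front -/
noncomputable def cloc (g X s : ℝ) : ℝ :=
  cut (64 * (-Real.sin (phi s) - X) ^ 2 / g ^ 2) * step (-(4 * Real.cos (phi s)))

/-- MODULE ADDM (additivity in the model).  Two strands `x1`, `x2` inside the first hole with
different coordinates `X = w.re`: the barbell map (relative to both strands) is the product of two
maps `β1`, `β2`, where `βk` is isotopic to the barbell map relative to the strand `xk` only and
is the identity away from the slab `|X - Xk| ≤ g/4 + 2ρ` and the neighbourhood of `a + i h = 1`.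

Proof (helper70's section 4; `g = |X1 - X2|`, `ρ = g / 40`, all arcs indexed by `Unit`, written
`Z(A, c, q) = zarc A (c s) q s`; the base arc is `e1`, and `ℓ = Z(1, c, 0) = (1, ⟨-sin φ, 0⟩)`).
Ingredients: `exists_push`, `square` (Square.lean), `StSpin`, `StZnsq`.
(0) `barMap` is a push along `q ↦ Z(sin πq, χ, q)` relative to `{rsq 0 p ≤ (1/5)²}`, radius `1/5`
    (`bfam_near_zero`, `bfam_near_one`, `bfam_support`, `StSpin`); use `IsPush.mono`.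
(1) `ΘL`: push along `u ↦ Z(u, ·, 0)` from `e1` to `ℓ` (`exists_push`).
    Square `Γ u q = Z((1-u) sin πq + u, χ, q)`: `|Γ|² ≥ 1` for `q ∈ [0,1]` by `StZnsq`
    (`A ≥ sin πq ≥ 0`), the strands are in `|x| < 3/20`; `|Γ|² ≤ 2`.  Left and right edges are
    `u ↦ Z(u, ·, 0)` (`cos 2π = 1`, `sin 2π = 0`), so `ΘL ∘ barMap ~ ΘT ∘ ΘL` for `ΘT` a push along
    `q ↦ Z(1, χ, q)` from `ℓ` to `ℓ`.
(2) `ck = cloc g Xk`.  Square `Γ u q = Z(1, (1-u) χ + u (c1 + c2), q)` (left and right edge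
    constant): admissible: if `|-sin φ - Xj| < g/8` then `|sin φ| < 0.175`, so `|cos φ| > 0.98`;
    if `cos φ < 0` then `χ ∈ [0.99, 1]`, `cj = 1`, the other `c` is `0`, so
    `|a + i h| ≥ 2 c - 1 ≥ 0.98` for `c = (1-u) χ + u`; if `cos φ > 0`, then `χ ≤ 0.01`,
    `c1 = c2 = 0`, so `|a + i h - 1| ≤ 0.02`; in both cases the distance to the tube of `xj` is
    `> 1/2 ≥ 2ρ`.  Otherwise the `X`-distance is `≥ g/8 ≥ 2ρ + ρ`.
    So `ΘT ~ Θ12`, push along `q ↦ Z(1, c1 + c2, q)`.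
(3) Square `Γ u q = (1 + c1 (cos 2πq - 1) + c2 (cos 2πuq - 1), ⟨-sin φ, c1 sin 2πq + c2 sin 2πuq⟩)`:
    bottom `Z(1, c1, ·)`, top (`q = 1`) `u ↦ Z(1, c2, u)`, left constant, right `Z(1, c1 + c2, ·)`:
    `Θ12 ~ Θ2 ∘ Θ1` (same admissibility: near `Xj` either `cj = 1` and `|a + i h| = 1` or both
    `c`'s are `0`).
(4) `βk = ΘL⁻¹ ∘ Θk ∘ ΘL`.  Then `barMap ~ ΘL⁻¹ ΘT ΘL ~ ΘL⁻¹ Θ2 Θ1 ΘL = β2 ∘ β1`.
(5) relative to `xk` only the square `Γ u q = Z(1, (1-u) χ + u ck, q)` is admissible, so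
    `Θk ~ ΘT` and `βk ~ ΘL⁻¹ ΘT ΘL ~ barMap`.
(6) Support (from `exists_push`): `ΘL` moves only points with `(a-1)² + h² < (2ρ)²`; `Θk` only
    points with `(a-1)² + h² < (2ρ)²` (levels with `ck = 0`) or with
    `|X - Xk| < g/4 + 2ρ` (levels with `ck ≠ 0`). -/
def StAddM : Prop :=
  ∀ x1 x2 : R3, nsq x1 < (7 / 50) ^ 2 → nsq x2 < (7 / 50) ^ 2 → x1.2.re ≠ x2.2.re →
    ∀ g ρ : ℝ, g = |x1.2.re - x2.2.re| → ρ = g / 40 →
    ∃ β1 β2 : R4 → R4,
      TIso (ctube x1 ρ ∪ ctube x2 ρ) ρ (fun (_ : Unit) _ => e1) (fun _ _ => e1)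
        barMap (fun p => β2 (β1 p)) ∧
      TIso (ctube x1 ρ ∪ ctube x2 ρ) ρ (fun (_ : Unit) _ => e1) (fun _ _ => e1) β1 β1 ∧
      TIso (ctube x1 ρ ∪ ctube x2 ρ) ρ (fun (_ : Unit) _ => e1) (fun _ _ => e1) β2 β2 ∧
      TIso (ctube x1 ρ) ρ (fun (_ : Unit) _ => e1) (fun _ _ => e1) β1 barMap ∧
      TIso (ctube x2 ρ) ρ (fun (_ : Unit) _ => e1) (fun _ _ => e1) β2 barMap ∧
      (∀ s a w, (2 * ρ) ^ 2 ≤ (a - 1) ^ 2 + w.im ^ 2 → g / 4 + 2 * ρ ≤ |w.re - x1.2.re| →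
        β1 (s, (a, w)) = (s, (a, w))) ∧
      ∀ s a w, (2 * ρ) ^ 2 ≤ (a - 1) ^ 2 + w.im ^ 2 → g / 4 + 2 * ρ ≤ |w.re - x2.2.re| →
        β2 (s, (a, w)) = (s, (a, w))

/-- MODULE KAPPA.  The map pushing everything away from the strand over `x₀ = (a₀, w₀)` in the
direction of increasing `a`, identity off the slab `‖w - w₀‖ < δ` and for `a ≥ a₀ + 1/50`.

Proof. `k (a, w) = (a + η w (p a - a), w)`, `η` a smooth bump of `w ∈ ℂ`, `1` for
`‖w - w₀‖ ≤ δ / 2`, `0` for `‖w - w₀‖ ≥ δ` (`ContDiffBump`), and `p : ℝ → ℝ` smooth with `p' > 0`,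
`p a = a` for `a ≥ a₀ + 1/50`, `p a ≥ a` for all `a`, `p a ≥ a₀ + r` for `a ≥ -5`:
e.g. `p a = a₀ + 1/50 - ∫_0^(a₀ + 1/50 - a) m`, `m t = 1` for `t ≤ 0`, `m` smooth,
`1/1000 ≤ m ≤ 1`, `m t = 1/1000` for `t ≥ 1/1000` (`a₀ + 1/50 + 5 ≤ 5.2`, so the integral is at
most `1/1000 + 5.2/1000 < 1/50 - 1/100`).  For fixed `w` the map is strictly increasing in `a` with
positive derivative `(1-η) + η p'`, so `k` is injective and a local diffeomorphism (derivative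
block triangular).  `nsq (k x - x₀) ≥ r²`: if `‖w - w₀‖ ≥ δ / 2 ≥ r` clear, otherwise
`(k x).1 = p a ≥ a₀ + r`.  If `k` moves `(a, w)` then `a < a₀ + 1/50`, `‖w - w₀‖ < δ` and
`a ≤ (k (a,w)).1 ≤ a₀ + 1/50` (as `p a ≤ a₀ + 1/50` there), so
`nsq (k x) ≤ max a² (|a₀| + 1/50)² + ‖w‖²`, which gives the last two claims
(`(|a₀| + 1/50)² + (‖w₀‖ + 1/25)² ≤ (7/50 + √5/50)² < 1/25`, by the triangle inequality for the
vectors `(|a₀|, ‖w₀‖)` and `(1/50, 1/25)`; and if `|(k x).1| ≤ |a|` then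
`nsq (k x) ≤ nsq x`). -/
def StKappa : Prop :=
  ∀ x₀ : R3, nsq x₀ < (7 / 50) ^ 2 → ∀ δ r : ℝ, 0 < r → r ≤ δ / 2 → r ≤ 1 / 100 → δ ≤ 1 / 25 →
    ∃ k : R3 → R3, ContDiff ℝ ∞ k ∧ Function.Injective k ∧
      (∀ x, Function.Bijective (fderiv ℝ k x)) ∧
      (∀ x, δ ≤ ‖x.2 - x₀.2‖ → k x = x) ∧ (∀ x, x₀.1 + 1 / 50 ≤ x.1 → k x = x) ∧
      (∀ x, (k x).2 = x.2 ∧ x.1 ≤ (k x).1) ∧
      (∀ x, -5 ≤ x.1 → r ^ 2 ≤ nsq (k x - x₀)) ∧
      (∀ x, nsq x ≤ (9 / 2) ^ 2 → nsq (k x) ≤ (9 / 2) ^ 2) ∧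
      ∀ x, nsq x ≤ (1 / 5) ^ 2 → nsq (k x) ≤ (1 / 5) ^ 2

/-- MODULE VAN (vanishing).  Without a strand in the first hole the barbell map is trivial.

Proof.  Square `Γ u q s = e1 + (1-u) (zarc (sin πq) (χ s) q s - e1)`, `O = ∅`: `|Γ|² ≤ 1`
(convexity of the unit ball, `StZnsq`), all edges except the bottom are constant. -/
def StVan : Prop :=
  TIso ∅ (1 / 5) (fun (_ : Unit) _ => e1) (fun _ _ => e1) barMap (fun p => p)

/-- the inverse of the standard barbell map -/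
noncomputable def barInv (p : R4) : R4 := bfam.g (1, p)

/-- reflection `h ↦ -h` -/
def refh (p : R4) : R4 := (p.1, p.2.1, conj p.2.2)

/-- reversal of the levels -/
def refs (p : R4) : R4 := (1 - p.1, p.2.1, p.2.2)

/-- exchange of the two arcs (rotation of three-space by `π`) -/
def swp (p : R4) : R4 := (p.1, 1 - p.2.1, conj p.2.2)

/-- the two tubes of the model -/
def arc2 : Bool → ℝ → R3 := fun b _ => if b then e1 else 0

/-- MODULE R1 (reflections). -/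
def StR1h : Prop := TIso ∅ (1 / 5) arc2 arc2 (fun p => refh (barMap (refh p))) barInv

/-- MODULE R1 (reversal of the levels). -/
def StR1s : Prop := TIso ∅ (1 / 5) arc2 arc2 (fun p => refs (barMap (refs p))) barInv

/-- MODULE R2 (exchange of the arcs).  (The barbell map is replaced by an isotopic one with smaller
support, such that the conjugate is supported in the 4-ball, too.) -/
def StR2 : Prop := ∃ β : R4 → R4, TIso ∅ (1 / 5) arc2 arc2 barMap β ∧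
  TIso ∅ (1 / 5) arc2 arc2 (fun p => swp (β (swp p))) barInv

end Pool.Agent.Helper27.BI


end

/-! ## Helper34.BI.StD -/

section

/-!
# Project BI (MP_8e98f2_gt), parts (B) and (D): crossings of the bar with the cuffs

Statements (as `Prop` definitions) with complete proofs in the docstrings.  A module `M_X` proves
`theorem m_X : StX` (possibly from other statements as hypotheses `(h : StY)`).
All germs have values in `R4` here; `I = 𝓘(ℝ, R4)`.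
-/

set_option autoImplicit false

open Module Set Filter Topology
open scoped ContDiff Manifold ComplexConjugate
open Pool.Agent.Helper65.Barb Pool.Agent.Helper18.BI Pool.Agent.Helper27.BI

namespace Pool.Agent.Helper34.BI

/-! ## definitions -/

/-- The classes of the germs `F` and `G` are equal modulo `N`. -/
def MR (F G : R4 → R4) : Prop :=
  ∀ φ ψ : R4 → R4, Thin 𝓘(ℝ, R4) F φ → Thin 𝓘(ℝ, R4) G ψ →
    ∃ n, InN 𝓘(ℝ, R4) n ∧ CIsot 𝓘(ℝ, R4) ψ (fun x => n (φ x))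

/-- the spine together with two collars of the cuffs in the flat balls -/
def SH (η : ℝ) : Set R4 := {p | p ∈ FB ∧ 1 / 25 - η ≤ rsq 0 p ∧ 1 / 25 - η ≤ rsq 1 p}

/-- the two collars -/
def CL (η : ℝ) : Set R4 := {p | p ∈ SH η ∧ (rsq 0 p ≤ 1 / 25 ∨ rsq 1 p ≤ 1 / 25)}

/-- half of the derivative of `rsq c` at `p` in the direction `v` -/
def drsq (c : ℝ) (p v : R4) : ℝ :=
  (p.2.1 - c) * v.2.1 + (p.2.2.re * v.2.2.re + p.2.2.im * v.2.2.im)

/-- The family of germs `J (t, ·)` has at time `t₀` exactly one double point along the spine: the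
point `p₀` of the first cuff and the point with parameter `u₀` of the neck; the crossing is
transverse, the family is constant near the cuffs, and `p₀` is not on the circle `Re w = 0`. -/
structure PreCross (J : ℝ × R4 → R4) (t₀ u₀ : ℝ) (p₀ : R4) : Prop where
  smooth : ∀ p ∈ SP, ∀ᶠ q in 𝓝 (t₀, p), ContDiffAt ℝ ∞ J q
  loc : ∀ p ∈ SP, IsLocalDiffeomorphAt 𝓘(ℝ, R4) 𝓘(ℝ, R4) ∞ (fun p => J (t₀, p)) p
  frozen : ∀ p ∈ sph 0 ∪ sph 1, ∀ᶠ q in 𝓝 (t₀, p), J q = J (t₀, q.2)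
  mem : p₀ ∈ sph 0
  re : p₀.2.2.re ≠ 0
  arc : u₀ ∈ Ioo (1 / 5 : ℝ) (4 / 5)
  eq : J (t₀, p₀) = J (t₀, (1 / 2, u₀, 0))
  inj : ∀ p ∈ SP, ∀ q ∈ SP, J (t₀, p) = J (t₀, q) →
    p = q ∨ (p = p₀ ∧ q = (1 / 2, u₀, 0)) ∨ (q = p₀ ∧ p = (1 / 2, u₀, 0))
  trans : ∀ (ζ : ℝ × ℝ) (v : R4),
    fderiv ℝ (fun x : ℝ × ℝ => J (x.1, (1 / 2, x.2, 0))) (t₀, u₀) ζ =
      fderiv ℝ (fun p => J (t₀, p)) p₀ v → v.1 = 0 → drsq 0 p₀ v = 0 → ζ = 0

/-- In the coordinates given by the germ near `p₀` the strand crosses the slice `s = 1/2`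
transversally. -/
def Slope (J : ℝ × R4 → R4) (t₀ u₀ : ℝ) (p₀ : R4) : Prop :=
  ∀ v : R4, fderiv ℝ (fun x : ℝ × ℝ => J (x.1, (1 / 2, x.2, 0))) (t₀, u₀) (0, 1) =
    fderiv ℝ (fun p => J (t₀, p)) p₀ v → v.1 ≠ 0

/-- A family of germs, parametrized by the depth `r ∈ [-η, η]` at which the neck crosses the
(extended) flat ball of the first cuff: at time `r` it crosses at the point `X r`, with
`rsq 0 (X r) = 1/25 + r`; this is the only double point along the spine with collars. -/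
structure Cross (J : ℝ × R4 → R4) (X : ℝ → R4) (η : ℝ) : Prop where
  pos : 0 < η
  small : η ≤ 1 / 100
  smooth : ∃ W : Set (ℝ × R4), IsOpen W ∧ Icc (-η) η ×ˢ SH η ⊆ W ∧ ContDiffOn ℝ ∞ J W
  loc : ∀ r ∈ Icc (-η) η, ∀ p ∈ SH η,
    IsLocalDiffeomorphAt 𝓘(ℝ, R4) 𝓘(ℝ, R4) ∞ (fun p => J (r, p)) p
  inj : ∀ r ∈ Icc (-η) η, InjOn (fun p => J (r, p)) (SH η \ {X r})
  injA : ∀ r ∈ Icc (-η) η, InjOn (fun p => J (r, p)) (CL η)
  fst : ∀ r ∈ Icc (-η) η, (X r).1 = 1 / 2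
  lvl : ∀ r ∈ Icc (-η) η, rsq 0 (X r) = 1 / 25 + r
  re : ∀ r ∈ Icc (-η) η, (X r).2.2.re ≠ 0

/-- A family of germs along the spine parametrized by the line, embedded except at finitely many
times, where there is one generic crossing of the neck with the first or (after exchange) with the
second cuff. -/
structure BFam (J : ℝ × R4 → R4) : Prop where
  smooth : ∀ t, ∀ p ∈ SP, ∀ᶠ q in 𝓝 (t, p), ContDiffAt ℝ ∞ J q
  loc : ∀ t, ∀ p ∈ SP, IsLocalDiffeomorphAt 𝓘(ℝ, R4) 𝓘(ℝ, R4) ∞ (fun p => J (t, p)) p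
  finite : {t | ¬ InjOn (fun p => J (t, p)) SP}.Finite
  cross : ∀ t, ¬ InjOn (fun p => J (t, p)) SP →
    (∃ u p, PreCross J t u p) ∨ ∃ u p, PreCross (fun q => J (q.1, swp q.2)) t u p

/-! ## the two model theorems used (part (C)) -/

/-- **ADD2** (proved in part (C)): additivity with the strand over `0` and the strand over `x₂`. -/
def StAdd2 : Prop :=
  ∀ x₂ : R3, nsq x₂ < (7 / 50) ^ 2 → x₂.2.re ≠ 0 →
    ∃ (r : ℝ) (k₁ k₂ : R4 → R4), 0 < r ∧ r ≤ 1 / 100 ∧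
      (∀ k : R4 → R4, (k = k₁ ∨ k = k₂) → EmbOn 𝓘(ℝ, R4) k univ ∧ (∀ p, (k p).1 = p.1) ∧
        (∀ p ∈ ball4, k p ∈ ball4) ∧ (∀ p, 17 / 100 ≤ p.2.1 → k p = p) ∧
        ∀ p, rsq 0 p ≤ 1 / 25 → rsq 0 (k p) ≤ 1 / 25) ∧
      (∀ p : R4, ‖p.2.2‖ ≤ |x₂.2.re| / 2 → k₁ p = p) ∧
      (∀ p ∈ ball4, k₁ p ∉ tube x₂ r ∧ k₂ p ∉ tube 0 r) ∧
      (∀ p, (k₁ p ∈ tube 0 r → p ∈ tube 0 r) ∧ (k₂ p ∈ tube x₂ r → p ∈ tube x₂ r)) ∧
      ∀ (E : Type) [NormedAddCommGroup E] [NormedSpace ℝ E] (H : Type) [TopologicalSpace H]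
        (I : ModelWithCorners ℝ E H) (M : Type) [TopologicalSpace M] [ChartedSpace H M]
        [T2Space M] (F : R4 → M),
        EmbOn I F (ball4 \ (tube (1, 0) (3 / 20) ∪ tube 0 r ∪ tube x₂ r)) →
        CIsot I (imp F bsupp barMap) (fun y => imp (fun p => F (k₂ p)) bsupp barMap
          (imp (fun p => F (k₁ p)) bsupp barMap y))

/-- **SWAP** (proved in part (C)): exchanging the two cuffs inverts the class. -/
def StSwap : Prop :=
  ∀ F φ φ' : R4 → R4, EmbOn 𝓘(ℝ, R4) F SP → (∀ x, φ (φ' x) = x) → (∀ x, φ' (φ x) = x) →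
    Thin 𝓘(ℝ, R4) F φ → Thin 𝓘(ℝ, R4) (fun p => F (swp p)) φ'

/-! ## RE: the radial map -/

/-- squared radius function: the identity for `q ≥ 1/25 - δ`, slope `δ` for `q ≤ 1/25 - 2δ` -/
noncomputable def qe (δ q : ℝ) : ℝ := qq δ (q + δ) - δ

/-- radial map about `(s, c, 0)` with squared radius function `qe δ` -/
noncomputable def rade (δ c : ℝ) (p : R4) : R4 :=
  (p.1, c + √(qe δ (rsq c p) / rsq c p) * (p.2.1 - c),
    ((√(qe δ (rsq c p) / rsq c p) : ℝ) : ℂ) * p.2.2)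

/-- the composition of the two radial maps -/
noncomputable def Em (δ : ℝ) (p : R4) : R4 := rade δ 0 (rade δ 1 p)

/-- **RE.** The map `Em δ`: an injective local diffeomorphism off the two lines `(s, 0, 0)`,
`(s, 1, 0)`, the identity near the exterior of the tubes of radius `1/5`, pushing everything out to
`rsq ≥ 1/25 - 3δ`.
Proof. `qe δ q = q + (1-δ) δ ramp((1/25 - δ - q)/δ)`, derivative `1 - (1-δ) step(..) ∈ [δ, 1]` (`StR0`), so
strictly increasing; `qe δ q ≥ q` (`ramp ≥ 0`), `qe δ q = q` for `q ≥ 1/25 - δ`, `qe δ q ≥ 1/25 - 3δ` for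
`q ≥ 0` (`ramp x ≥ x - 1`: `qe ≥ q + (1-δ)(1/25 - δ - q) - (1-δ) δ ≥ 1/25 - 3δ`), `qe δ q ≤ 1/25` for
`q ≤ 1/25`.  `rade δ c` is treated exactly as `radc δ c` in module R2 (file
`Helper18/BI/M_R2.lean`, on main; copy the proof with `qe` in place of `qq`):
`rsq c (rade δ c p) = qe δ (rsq c p)` for `rsq c p > 0`, `EmbOn {rsq c p > 0}`.  `rade δ c p = p` if
`rsq c p ≥ 1/25 - δ`.  If `rsq 1 p < 1/25 - δ` then `rsq 1 (rade δ 1 p) ≤ 1/25`, so the `a`-coordinate of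
`rade δ 1 p` is `≥ 4/5`, `rsq 0 (rade δ 1 p) ≥ 16/25` and `Em δ p = rade δ 1 p`; if `rsq 1 p ≥ 1/25 - δ` then
`Em δ p = rade δ 0 p`.  This gives everything (for injectivity: compositions; `rade δ 1` maps
`{rsq 0 > 0, rsq 1 > 0}` into `{rsq 0 > 0}`, and is injective there).  For the last claim:
`x₂ = √((1/100) / qe δ (1/100)) • X.2`; `nsq x₂ = 1/100`, `rsq 1 ≥ (1 - 1/10)²`, so
`Em δ (1/2, x₂) = rade δ 0 (1/2, x₂) = X`. -/
def StRE : Prop :=
  ∀ δ ∈ Ioo (0 : ℝ) (1 / 100),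
    EmbOn 𝓘(ℝ, R4) (Em δ) {p | 0 < rsq 0 p ∧ 0 < rsq 1 p} ∧
    (∀ p, 1 / 25 - δ ≤ rsq 0 p → 1 / 25 - δ ≤ rsq 1 p → Em δ p = p) ∧
    (∀ p, (Em δ p).1 = p.1) ∧
    (∀ (s s' : ℝ) (x : R3), (Em δ (s, x)).2 = (Em δ (s', x)).2) ∧
    (∀ p : R4, p.2.2 = 0 → (Em δ p).2.2 = 0) ∧
    (∀ p, 0 < rsq 0 p → 0 < rsq 1 p →
      1 / 25 - 3 * δ ≤ rsq 0 (Em δ p) ∧ 1 / 25 - 3 * δ ≤ rsq 1 (Em δ p)) ∧
    (∀ p, 0 < rsq 0 p → rsq 0 p ≤ 1 / 25 →
      rsq 0 (Em δ p) = qe δ (rsq 0 p) ∧ rsq 0 (Em δ p) ≤ 1 / 25) ∧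
    (∀ p, 0 < rsq 1 p → rsq 1 p ≤ 1 / 25 → rsq 1 (Em δ p) ≤ 1 / 25) ∧
    StrictMono (qe δ) ∧ Continuous (qe δ) ∧ (∀ q, 1 / 25 - δ ≤ q → qe δ q = q) ∧
    (∀ q, 0 ≤ q → 1 / 25 - 3 * δ ≤ qe δ q) ∧
    ∀ X : R4, X.1 = 1 / 2 → rsq 0 X = qe δ (1 / 100) → ∃ x₂ : R3, nsq x₂ = 1 / 100 ∧
      Em δ (1 / 2, x₂) = X ∧ (X.2.2.re ≠ 0 → x₂.2.re ≠ 0)

/-! ## RC: the contraction -/

/-- the contraction factor -/
noncomputable def cfac (lam q : ℝ) : ℝ := lam + (1 - lam) * step ((q - 1 / 20) / (1 / 25))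

/-- the contraction of the first flat ball: `x ↦ lam x` for `|x|² ≤ 1/20`, the identity for
`|x|² ≥ 9/100` -/
noncomputable def cl (lam : ℝ) (p : R4) : R4 := (p.1, cfac lam (nsq p.2) • p.2)

/-- **RC.** Properties of the contraction.
Proof. `l = cfac lam` is smooth, `lam ≤ l ≤ 1` for `lam ≤ 1`, `l' ≥ 0` (`Real.smoothTransition.monotone`).
For `0 < lam` the map `x ↦ l(|x|²) x` is injective: `q ↦ q l(q)²` is strictly increasing on `[0, ∞)`, so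
`|x|²` is determined by the image, and then `x`; its derivative in the direction `v` is
`l v + 2 l' ⟨x,v⟩ x`; if this is `0` then `(l + 2 l' |x|²) ⟨x,v⟩ = 0`, so `⟨x,v⟩ = 0` and `v = 0` (`A0`).  On the
neck: `x = (a, 0)`, `1/5 ≤ a ≤ 4/5`, image `(l(a²) a, 0)`, `lam/5 ≤ l a ≤ 4/5`. -/
def StRC : Prop :=
  ContDiff ℝ ∞ (fun q : ℝ × R4 => cl q.1 q.2) ∧ (∀ p, cl 1 p = p) ∧
  ∀ lam ∈ Ioc (0 : ℝ) 1,
    EmbOn 𝓘(ℝ, R4) (cl lam) univ ∧ (∀ p, (cl lam p).1 = p.1) ∧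
    (∀ p : R4, nsq p.2 ≤ 1 / 20 → cl lam p = (p.1, lam • p.2)) ∧
    (∀ p : R4, 9 / 100 ≤ nsq p.2 → cl lam p = p) ∧
    (∀ p : R4, p.2.2 = 0 → (cl lam p).2.2 = 0) ∧
    (∀ p : R4, nsq (cl lam p).2 ≤ nsq p.2) ∧
    (∀ p ∈ neck, 0 < (cl lam p).2.1 ∧ (cl lam p).2.1 ≤ 4 / 5) ∧
    ∀ p : R4, 0 < nsq p.2 → 0 < nsq (cl lam p).2

/-! ## D2: the crossing theorem -/

/-- **D2a.** Splitting off the crossing.  `G` is a germ whose neck crosses the first collar only at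
the point `X`, at the depth `1/25 - qe δ (1/100)`.
Proof (uses `StRE`, `StAdd2`, `StImp`, `StCI`, `StS3`, `StS4`, `StT2`, `StT3`, `StT5`, `StT6`).
`X ∉ SP` (`qe δ (1/100) < 1/25`; `rsq 0 ≥ 1/25` on `SP`), so `EmbOn G SP`.
`StRE` gives `x₂` with `Em δ (1/2, x₂) = X`, `nsq x₂ = 1/100 < (7/50)²`, `x₂.2.re ≠ 0`.  `StAdd2` gives
`r, k₁, k₂`; `k = k₁`.  Put `K = ball4 \ (tube (1,0) (3/20) ∪ tube 0 r ∪ tube x₂ r)`, compact (tubes are
open).  `bsupp ⊆ EB ⊆ K` (`|x| ≥ 1/5`: `|x - x₂| ≥ 1/10 ≥ r`).  `K ⊆ {0 < rsq 0, 0 < rsq 1}`.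
(1) Let `L = SP ∪ (sq 0 ∘ Em δ) '' K`, compact (`StS3` at `ε = 0`, `Em δ` is continuous on `K`),
`L ⊆ FB` (`StS4`).  Claim `L ⊆ SH η \ {X}`: for `p ∈ K`, `y = Em δ p`: if `y ∈ Ext` then `sq 0 y ∈ SP`.
Otherwise `rsq c y < 1/25` for `c = 0` or `1`, and `sq 0 y = (1/2, y.2)`; this is in `FB` and both
`rsq ≥ 1/25 - 3δ ≥ 1/25 - η`.  If `sq 0 y = X` then (as `X ∉ SP`) `(1/2, y.2) = X`, and
`y.2 = (Em δ (1/2, p.2)).2`, so `Em δ (1/2, p.2) = X = Em δ (1/2, x₂)`, `p.2 = x₂`, `p ∈ tube x₂ r`,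
contradiction.  `SP ⊆ SH η \ {X}` clear.  Hence `EmbOn G L`.
(2) `StT6` with the compact set `Em δ '' K` and `L`: for small `ε`, `G ∘ sq ε` is `EmbOn (Em δ '' K)`; so
`F_ε = G ∘ sq ε ∘ Em δ` is `EmbOn K` (composition).  `StAdd2`:
`CIsot (imp F_ε bsupp barMap) (imp (F_ε ∘ k₂) bsupp barMap ∘ imp (F_ε ∘ k₁) bsupp barMap)`.
`Em δ = id` on `bsupp ⊆ Ext`, so `imp F_ε bsupp barMap = imp (G ∘ sq ε) bsupp barMap` (`StImp` (6)), which
represents `Thin G`.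
(3) For `i = 1, 2`: `k_i` maps `EB` into `K`: `ball4` to `ball4`; `k_i p ∉ tube (1,0) (3/20)`: if `(k_i p).2.1 ≥ 17/100`
then `k_i (k_i p) = k_i p`, so `k_i p = p ∈ Ext`; the other tubes by the last properties of `StAdd2` and
`|x| ≥ 1/5` on `EB`.  So `F_ε ∘ k_i` is `EmbOn EB`, and `StT3`: `Thin (F_ε ∘ k_i) (imp (F_ε ∘ k_i) bsupp barMap)`.
(4) `m = Em δ ∘ k_i` is `EmbOn SP` (`SP ⊆ EB`) and maps `SP` into `L`: for `p ∈ SP`, `sq 0 (m p) ∈ L`, and `m p ∈ FB`,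
so `sq 0 (m p) = m p` (`StS4`): on `neck` and `sph 1`, `k_i p = p`, `m p = p`; on `sph 0`: `(m p).1 = 1/2`,
`rsq 0 (k_i p) ≤ 1/25`, `rsq 0 (m p) ≤ 1/25` (`rsq 0 (k_i p) > 0` as `k_i p ∈ K`), so `m p ∈ flat 0`.  `StT5`: for small `ε`,
`Thin (G ∘ sq ε ∘ m) φ ↔ Thin (G ∘ m) φ`.  Fix `ε` small enough for everything and put
`ψ = imp (F_ε ∘ k₁) bsupp barMap`, `n = imp (F_ε ∘ k₂) bsupp barMap`.
(5) `InN n`: the germ `G' = G ∘ Em δ ∘ k₂` is `EmbOn SP` by (4), `Thin G' n`, and it is half split: `BoundsOff G' 0 1` with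
the ball `G'` on `flat 0`: `k₂ (flat 0) ⊆ flat 0`, `0 < rsq 0` there (`k₂ p ∉ tube 0 r`), so `Em δ ∘ k₂` is an injective local
diffeomorphism along `flat 0 ∪ sph 1` with values in `CL η` (`Em δ p ∈ flat 0`, `rsq 0 ≥ 1/25 - 3δ`), where `G` is injective
and locally diffeomorphic; the images of `flat 0` and `sph 1` under `Em δ ∘ k₂` are disjoint. -/
def StD2a : Prop :=
  ∀ (G : R4 → R4) (X : R4) (δ η : ℝ), δ ∈ Ioo (0 : ℝ) (1 / 100) → 3 * δ ≤ η → η ≤ 1 / 100 →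
    (∀ p ∈ SH η, IsLocalDiffeomorphAt 𝓘(ℝ, R4) 𝓘(ℝ, R4) ∞ G p) → InjOn G (SH η \ {X}) →
    InjOn G (CL η) → X.1 = 1 / 2 → rsq 0 X = qe δ (1 / 100) → X.2.2.re ≠ 0 →
    ∃ (x₂ : R3) (r : ℝ) (k : R4 → R4), 0 < r ∧ r ≤ 1 / 100 ∧ nsq x₂ = 1 / 100 ∧
      x₂.2.re ≠ 0 ∧ Em δ (1 / 2, x₂) = X ∧ EmbOn 𝓘(ℝ, R4) k univ ∧ (∀ p, (k p).1 = p.1) ∧
      (∀ p, 17 / 100 ≤ p.2.1 → k p = p) ∧ (∀ p, rsq 0 p ≤ 1 / 25 → rsq 0 (k p) ≤ 1 / 25) ∧
      (∀ p : R4, ‖p.2.2‖ ≤ |x₂.2.re| / 2 → k p = p) ∧ (∀ p ∈ ball4, k p ∉ tube x₂ r) ∧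
      ∃ n ψ : R4 → R4, InN 𝓘(ℝ, R4) n ∧ Thin 𝓘(ℝ, R4) (fun p => G (Em δ (k p))) ψ ∧
        ∀ φ, Thin 𝓘(ℝ, R4) G φ → CIsot 𝓘(ℝ, R4) φ (fun x => n (ψ x))

/-- **D2b.** The other factor is the class on the other side of the crossing.
Proof (uses `StRE`, `StRC`, `StT2`).  Four steps; `ρ = |x₂.2.re| / 2 > 0`, `lam₀ = min (1/4) ρ` (so
`lam₀ / 5 < ρ` and `lam₀² / 25 < 1/100`).
(1) family `J (-r₁, Em δ (k (cl lam p)))`, `lam` from `1` to `lam₀`, along `SP` (`τ ∈ [0,1]`,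
`lam = 1 - τ (1 - lam₀)`; for `τ = 0` it is the given germ since `cl 1 p = p`).  For `p ∈ SP`: `q = cl lam p` has
first coordinate `1/2`, is in `ball4`, and `q ∈ sph 1`, or `q.2.2 = 0` with `0 < q.2.1 ≤ 4/5`, or `0 < rsq 0 q ≤ 1/25`; in
all cases `k q` has the same property (`k` fixes the points with `a ≥ 17/100` and those with `w = 0`;
`rsq 0 (k q) > 0`, because `rsq 0 (k q) = 0` implies `k (k q) = k q`, `k q = q`); so `y = Em δ (k q)` is in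
`SH η` (in `FB`: `rsq c y ≤ 1/25` or in the neck, `StRE`; for `k q ∈ neck ∪ sph 1`, `Em δ` fixes it), and `y ≠ X(-r₁)`:
else `Em δ (1/2, (k q).2) = Em δ (1/2, x₂)`, `k q ∈ tube x₂ r`.  `J (-r₁, ·)` is injective on `SH η \ {X (-r₁)}`,
the maps `Em δ`, `k`, `cl lam` are injective local diffeomorphisms: `FamOn`.
(2) at `lam₀`: `k (cl lam₀ p) = cl lam₀ p` for `p` near `SP`: either `(cl lam₀ p).2.1 > 17/100` or
`‖(cl lam₀ p).2.2‖ < ρ` (on `sph 0`: `‖w‖ ≤ lam₀ / 5 < ρ`; on the neck `w = 0`; on `sph 1`, `a ≥ 4/5`; open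
conditions).  `StT2` (v).
(3) family `J (-r₁ + 2 r₁ τ, Em δ (cl lam₀ p))`: for `p ∈ SP` the point `y = Em δ (cl lam₀ p)` is in `SH η` and
`y ≠ X r` for `r ∈ [-r₁, r₁]`: for `p ∈ sph 0`, `rsq 0 y = qe δ (lam₀²/25) < qe δ (1/100) = 1/25 - r₁ ≤ rsq 0 (X r)`; for
`p ∈ neck`, `y.2.2 = 0`; for `p ∈ sph 1`, `y = p` has `rsq 0 ≥ 16/25 > 1/25 + η`.
(4) family `J (r₁, Em δ (cl lam p))`, `lam` from `lam₀` to `1`: `X r₁ ∉ SH η` (`rsq 0 (X r₁) > 1/25`, `w ≠ 0`,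
`rsq 0 (X r₁) < 16/25`, while a point of `FB` with `1/25 < rsq 0 < 16/25` is on the neck).
At the end `Em δ p = p` near `SP` (`rsq ≥ 1/25 - δ`): `StT2` (v).  All families are smooth near
`[0,1] × SP`: `J` is smooth on the open set `W ⊇ [-η,η] × SH η`, the others on open sets. -/
def StD2b : Prop :=
  ∀ (J : ℝ × R4 → R4) (X : ℝ → R4) (δ η r₁ : ℝ), Cross J X η → δ ∈ Ioo (0 : ℝ) (1 / 100) →
    3 * δ ≤ η → r₁ = 1 / 25 - qe δ (1 / 100) → 0 < r₁ → r₁ ≤ η →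
    ∀ (x₂ : R3) (r : ℝ) (k : R4 → R4), 0 < r → nsq x₂ = 1 / 100 →
      x₂.2.re ≠ 0 → Em δ (1 / 2, x₂) = X (-r₁) → EmbOn 𝓘(ℝ, R4) k univ → (∀ p, (k p).1 = p.1) →
      (∀ p, 17 / 100 ≤ p.2.1 → k p = p) → (∀ p, rsq 0 p ≤ 1 / 25 → rsq 0 (k p) ≤ 1 / 25) →
      (∀ p : R4, ‖p.2.2‖ ≤ |x₂.2.re| / 2 → k p = p) → (∀ p ∈ ball4, k p ∉ tube x₂ r) →
      ∀ ψ, Thin 𝓘(ℝ, R4) (fun p => J (-r₁, Em δ (k p))) ψ → Thin 𝓘(ℝ, R4) (fun p => J (r₁, p)) ψ

/-- **D2.** The crossing theorem.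
Proof.  `δ = η/3 < 1/100`, `r₁ = 1/25 - qe δ (1/100)`, `0 < r₁ ≤ 3δ = η` (`StRE`: `qe δ (1/100) < qe δ (1/25) = 1/25`).
`D2a` for `G = J (-r₁, ·)`, `X = X (-r₁)`, then `D2b`; uniqueness of the class `StT2` (ii): for `φ` with
`Thin (J (r₁, ·)) φ` and `φ'` with `Thin (J (-r₁, ·)) φ'`: `CIsot φ' (n ∘ ψ)`, `CIsot ψ φ`. -/
def StD2 : Prop :=
  ∀ (J : ℝ × R4 → R4) (X : ℝ → R4) (η : ℝ), Cross J X η →
    ∃ r ∈ Ioc 0 η, MR (fun p => J (r, p)) (fun p => J (-r, p))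

/-! ## D1: analysis of a transverse crossing -/

/-- **D1a.** Local coordinates at the crossing.
Proof. `F p = J (t₀, p)`, `H x = J (x.1, (1/2, x.2, 0))`, `x₀ = (t₀, u₀)`.  `Φ` partial diffeomorphism with
`F = Φ` on `Φ.source ∋ p₀`.  `P x = Φ.symm (H x)` is smooth near `x₀`, `P x₀ = p₀`, and
`N x = ((P x).1 - 1/2, rsq 0 (P x) - 1/25)`.  `DN(x₀)` is injective: if `DN ζ = 0`, then `v = DP(x₀) ζ` has
`v.1 = 0`, `drsq 0 p₀ v = 0`, and `DF(p₀) v = DH(x₀) ζ` (`F ∘ P = H` near `x₀`), so `ζ = 0` by `trans`.  So `N` is a local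
diffeomorphism at `x₀` (`isLocalDiffeomorphAt_of_injective`, Loc.lean): `Ψ` with `N = Ψ` on `Ψ.source`.
`T r = (Ψ.symm (0, r)).1`, `U r = (Ψ.symm (0, r)).2`, `X r = P (T r, U r)`: smooth near `0`, `T 0 = t₀`,
`U 0 = u₀`, `X 0 = p₀`, `N (T r, U r) = (0, r)`.  `T'(0) ≠ 0`: `ζ = (T'(0), U'(0))` satisfies `DN ζ = (0, 1)`; if
`ζ.1 = 0` then `ζ = ζ₂ • (0,1)`, `v = DP(x₀) (0,1)` satisfies `DF(p₀) v = DH(x₀) (0,1)`, so `v.1 ≠ 0` by `Slope`, but
`0 = (DN ζ).1 = ζ₂ v.1`, so `ζ = 0`, contradiction.  `deriv T` is continuous near `0`, so it has constant sign on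
some `(-η₀, η₀)`, and `T` is strictly monotone there (`strictMonoOn_of_deriv_pos`).
Last claim: for `(r, p, q)` close to `(0, p₀, (1/2, u₀, 0))`, `p, q ∈ FB`: `p.1 = 1/2`, and `q = (1/2, u, 0)` because
`u₀ ∈ (1/5, 4/5)` (points of `flat 0` have `a ≤ 1/5`, of `flat 1`: `a ≥ 4/5`).  `J (T r, p) = J (t₀, p) = Φ p` (`frozen`),
`J (T r, q) = H (T r, u)`; if they are equal then `p = P (T r, u)`, and
`N (T r, u) = (0, rsq 0 p - 1/25)`, so `(T r, u) = (T ρ, U ρ)` with `ρ = rsq 0 p - 1/25` small, so `r = ρ`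
(injectivity of `T`), `u = U r`, `p = P (T r, U r) = X r`. -/
def StD1a : Prop :=
  ∀ (J : ℝ × R4 → R4) (t₀ u₀ : ℝ) (p₀ : R4), PreCross J t₀ u₀ p₀ → Slope J t₀ u₀ p₀ →
    ∃ (T : ℝ → ℝ) (X : ℝ → R4) (η₀ : ℝ), 0 < η₀ ∧ ContDiffOn ℝ ∞ T (Ioo (-η₀) η₀) ∧
      (StrictMonoOn T (Ioo (-η₀) η₀) ∨ StrictAntiOn T (Ioo (-η₀) η₀)) ∧ T 0 = t₀ ∧
      ContinuousAt X 0 ∧ X 0 = p₀ ∧
      (∀ r ∈ Ioo (-η₀) η₀, (X r).1 = 1 / 2 ∧ rsq 0 (X r) = 1 / 25 + r) ∧
      ∀ᶠ q : ℝ × R4 × R4 in 𝓝 ((0 : ℝ), p₀, ((1 / 2, u₀, 0) : R4)), q.2.1 ∈ FB → q.2.2 ∈ FB →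
        J (T q.1, q.2.1) = J (T q.1, q.2.2) → q.2.1 = X q.1

/-- **D1b.** From local to global.
Proof.  (0) `SH η` shrinks to `SP`: for every open `V ⊇ SP` there is `η > 0` with `SH η ⊆ V`: on the compact
set `FB \ V` one has `min (rsq 0 p) (rsq 1 p) < 1/25` (a point of `FB` with both `≥ 1/25` is in `SP`), so the maximum is
`< 1/25`.  Similarly `CL η` shrinks to `sph 0 ∪ sph 1`.  With the (generalized) tube lemma: every
neighbourhood of `{0} × SP × SP` contains `[-η,η] × SH η × SH η` for small `η`.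
(1) `inj`: it suffices that for all `(p, q) ∈ SP × SP`, for all `(r, p', q')` near `(0, p, q)` with `p', q' ∈ FB`:
`J (T r, p') = J (T r, q')` implies `p' = q'` or `p' = X r` or `q' = X r`.  If `J (t₀, p) ≠ J (t₀, q)`: continuity.  If `p = q`:
`(t, p) ↦ (t, J (t, p))` is smooth near `(t₀, p)` with injective derivative, so injective near `(t₀, p)`.
If `(p, q)` is `(p₀, (1/2,u₀,0))` or conversely: the hypothesis `huniq`.
(2) `injA`: the same for `(p, q) ∈ (sph 0 ∪ sph 1)²`, where only the cases `J (t₀,p) ≠ J (t₀,q)` and `p = q` occur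
(`(1/2,u₀,0) ∉ sph 0 ∪ sph 1`).
(3) `loc`, `smooth`: at the points near `(t₀, p)`, `p ∈ SP`, `J` is smooth and `(t,p) ↦ (t, J (t,p))` is a local
diffeomorphism (open condition), so `fderiv (J (t, ·)) p` is injective.  `T` is smooth on `(-η₀, η₀)` and
continuous, `T r` is near `t₀`.  (4) `re`: `X` is continuous at `0`. -/
def StD1b : Prop :=
  ∀ (J : ℝ × R4 → R4) (t₀ u₀ : ℝ) (p₀ : R4), PreCross J t₀ u₀ p₀ →
    ∀ (T : ℝ → ℝ) (X : ℝ → R4) (η₀ : ℝ), 0 < η₀ → ContDiffOn ℝ ∞ T (Ioo (-η₀) η₀) → T 0 = t₀ →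
      ContinuousAt X 0 → X 0 = p₀ →
      (∀ r ∈ Ioo (-η₀) η₀, (X r).1 = 1 / 2 ∧ rsq 0 (X r) = 1 / 25 + r) →
      (∀ᶠ q : ℝ × R4 × R4 in 𝓝 ((0 : ℝ), p₀, ((1 / 2, u₀, 0) : R4)), q.2.1 ∈ FB → q.2.2 ∈ FB →
        J (T q.1, q.2.1) = J (T q.1, q.2.2) → q.2.1 = X q.1) →
      ∀ ε > 0, ∃ η > 0, η < η₀ ∧ Cross (fun q => J (T q.1, q.2)) X η ∧
        ∀ r ∈ Icc (-η) η, |T r - t₀| < ε

/-! ## SHR: the shear -/

/-- a polynomial shear fixing the spine pointwise -/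
noncomputable def shr (c : ℝ) (p : R4) : R4 :=
  (p.1 + c * (Complex.normSq p.2.2 * ((rsq 0 p - 1 / 25) * (rsq 1 p - 1 / 25))), p.2)

/-- **SHR.** The shear does not change the classes, and can be used to achieve `Slope`.
Proof. `shr c` is a polynomial diffeomorphism of `R4` with inverse `shr (-c)` (`rsq` and `w` depend on
`p.2` only), derivative `v ↦ (v.1 + c g'(v), v.2)`; it fixes `sph 0`, `sph 1`, `neck` pointwise.
First claim: family `F (shr (t c) p)` along `SP`, `StT2` (iii), in both directions.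
Second claim: `G q = J (q.1, shr c q.2)`.  All fields of `PreCross` for `G`: `shr c p = p` on `SP`;
`smooth`, `loc` by composition; `frozen` by continuity of `shr c`; `trans`: near `x₀` the function
`G (x.1, (1/2, x.2, 0))` is `J (x.1, (1/2, x.2, 0))` (`w = 0`), and
`fderiv (G (t₀, ·)) p₀ v = fderiv (J (t₀, ·)) p₀ (v.1 + c k drsq 0 p₀ v, v.2)` with
`k = 2 |w₀|² (rsq 1 p₀ - 1/25) ≠ 0` (`rsq 0 p₀ = 1/25`; `rsq 1 p₀ ≥ 16/25`), which is
`fderiv (J (t₀, ·)) p₀ v` if `drsq 0 p₀ v = 0`.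
`Slope`: let `ξ` be the vector with `fderiv (J (t₀,·)) p₀ ξ = fderiv H (t₀,u₀) (0,1)` (the derivative of a
local diffeomorphism is bijective).  If `ξ.1 ≠ 0` take `c = 0`.  Otherwise `drsq 0 p₀ ξ ≠ 0` by `trans`
(`ζ = (0,1) ≠ 0`); take `c = 1`: if `fderiv (G (t₀,·)) p₀ v = fderiv H (0,1)` then
`v.1 + k drsq 0 p₀ v = ξ.1 = 0`, `v.2 = ξ.2`, so `v.1 = - k drsq 0 p₀ ξ ≠ 0`. -/
def StShr : Prop :=
  (∀ (F : R4 → R4) (c : ℝ), EmbOn 𝓘(ℝ, R4) F SP → EmbOn 𝓘(ℝ, R4) (fun p => F (shr c p)) SP ∧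
    ∀ φ, (Thin 𝓘(ℝ, R4) (fun p => F (shr c p)) φ ↔ Thin 𝓘(ℝ, R4) F φ)) ∧
  (∀ c : ℝ, ∀ p ∈ SP, shr c p = p) ∧
  ∀ (J : ℝ × R4 → R4) (t₀ u₀ : ℝ) (p₀ : R4), PreCross J t₀ u₀ p₀ →
    ∃ c : ℝ, PreCross (fun q => J (q.1, shr c q.2)) t₀ u₀ p₀ ∧
      Slope (fun q => J (q.1, shr c q.2)) t₀ u₀ p₀

/-! ## MRL: the relation `MR` -/

/-- **MRL.** Properties of the relation `MR`.
Proof (uses `StT2`, `StN1`, `StCI`, `StSwap`, `A0` in the form of Loc.lean).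
Reflexive: uniqueness of the class (`T2` (ii)), `n = id`.  Symmetric: `CIsot ψ (n ∘ φ)`; `InN n` implies
`CIsot n n` (`N1`), so `n` has an inverse `n'` (`CI`), `InN n'` (`InN.inv`), and
`CIsot φ (n' ∘ ψ)` (compose with `CIsot n' n'`, symmetric).  Transitive: `G` has a representative by `T2` (i);
`InN.mul`.  Families: for `t₁ ≤ t₂` put `J' (τ, p) = J (t₁ + τ (t₂ - t₁), p)`: `FamOn` (the set of
points where `J'` is smooth near is open; contains `[0,1] × SP`), `T2` (iii).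
Swap: let `φ`, `ψ` represent `F`, `G`; their inverses `φ'`, `ψ'` (they exist by `T2` (vii), `CI`) represent
`F ∘ swp`, `G ∘ swp` (`StSwap`); so `CIsot ψ' (n ∘ φ')`, and taking inverses `CIsot ψ (φ ∘ n')` with `n' = n⁻¹ ∈ N`,
and `φ ∘ n' = n'' ∘ φ` with `n'' ∈ N` (`N1` (iii)).
Jet: `MR F G` depends only on the classes. -/
def StMRL : Prop :=
  (∀ F, MR F F) ∧ (∀ F G, MR F G → MR G F) ∧
  (∀ F G H, EmbOn 𝓘(ℝ, R4) G SP → MR F G → MR G H → MR F H) ∧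
  (∀ (J : ℝ × R4 → R4) (t₁ t₂ : ℝ), t₁ ≤ t₂ →
    (∀ t ∈ Icc t₁ t₂, ∀ p ∈ SP, ∀ᶠ q in 𝓝 (t, p), ContDiffAt ℝ ∞ J q) →
    (∀ t ∈ Icc t₁ t₂, EmbOn 𝓘(ℝ, R4) (fun p => J (t, p)) SP) →
    MR (fun p => J (t₁, p)) (fun p => J (t₂, p))) ∧
  (∀ F G, EmbOn 𝓘(ℝ, R4) F SP → EmbOn 𝓘(ℝ, R4) G SP →
    MR (fun p => F (swp p)) (fun p => G (swp p)) → MR F G) ∧
  (∀ F F' G, (∀ φ, (Thin 𝓘(ℝ, R4) F φ ↔ Thin 𝓘(ℝ, R4) F' φ)) → MR F G → MR F' G)

/-! ## CR, LG: local and global invariance modulo `N` -/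

/-- **CR.** Crossing at `t₀`, without `Slope`.
Proof. `StShr` gives `c`; `D1a`, `D1b`, `D2` for `J' = J ∘ (id × shr c)`: there are `r ∈ (0, η]` and times
`T r`, `T (-r)` on different sides of `t₀` (`T` is strictly monotone or antitone, `T 0 = t₀`) with
`|T (±r) - t₀| < ε` and `MR (J' (T r, ·)) (J' (T (-r), ·))`; `J' (T (±r), ·)` is injective on `SP` because
`X (±r) ∉ SP` (`rsq 0 (X r) = 1/25 + r ≠ 1/25`, `w ≠ 0`, `rsq 0 (X r) < 16/25`), and `shr c` fixes `SP`, so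
`J (T (±r), ·)` is injective on `SP`; for the classes use `StShr` (its `EmbOn` hypothesis: `J (t, ·)` is
locally diffeomorphic along `SP` because `J (t, ·) = J' (t, ·) ∘ shr (-c)` and `Cross.loc`).
By symmetry of `MR` one may order the two times. -/
def StCR : Prop :=
  ∀ (J : ℝ × R4 → R4) (t₀ u₀ : ℝ) (p₀ : R4), PreCross J t₀ u₀ p₀ → ∀ ε > 0,
    ∃ t₁ ∈ Ioo (t₀ - ε) t₀, ∃ t₂ ∈ Ioo t₀ (t₀ + ε), EmbOn 𝓘(ℝ, R4) (fun p => J (t₁, p)) SP ∧
      EmbOn 𝓘(ℝ, R4) (fun p => J (t₂, p)) SP ∧ MR (fun p => J (t₁, p)) (fun p => J (t₂, p))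

/-- **LG.** From local to global in time.
Proof (uses `StMRL`, `StCR`).  `C = {t | ¬ InjOn (J (t, ·)) SP}` is finite.  Local claim: every `t` has `ε > 0` such that
`MR (J (t', ·)) (J (t'', ·))` for all `t', t'' ∈ (t - ε, t + ε) \ C`.  Choose `ε` with
`(t - ε, t + ε) ∩ C ⊆ {t}`.  If `t ∉ C`, or `t', t''` are on the same side of `t`: families (`StMRL`, 4th; symmetric).
If `t' < t < t''` and `t ∈ C`: `CR` (or `CR` for the swapped family and `StMRL`, 5th; note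
`EmbOn (J ∘ swp) SP ↔ EmbOn J SP`) gives `t₁ ∈ (t - ε, t)`, `t₂ ∈ (t, t + ε)`; chain
`t' ~ t₁ ~ t₂ ~ t''`.  The set `{t | ∀ᶠ t' in 𝓝 t, t' ∉ C → MR (J (0, ·)) (J (t', ·))}` is open, contains `0`, and
is closed by the local claim (`Cᶜ` is dense), so it is `ℝ`; take `t = 1` (`1 ∉ C`, `self_of_nhds`). -/
def StLG : Prop :=
  ∀ J : ℝ × R4 → R4, BFam J → EmbOn 𝓘(ℝ, R4) (fun p => J (0, p)) SP →
    EmbOn 𝓘(ℝ, R4) (fun p => J (1, p)) SP → MR (fun p => J (0, p)) (fun p => J (1, p))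

/-! ## CH: charts of the cuffs -/

/-- stereographic parametrization of the unit sphere of three-space minus `(1, 0)` -/
noncomputable def st (y : ℂ) : R3 :=
  ((Complex.normSq y - 1) / (Complex.normSq y + 1), (2 / (Complex.normSq y + 1)) • y)

/-- parametrization of the first (`false`) and the second (`true`) core sphere minus the foot -/
noncomputable def cst (b : Bool) (y : ℂ) : R4 :=
  (1 / 2, if b then 1 - (st y).1 / 5 else (st y).1 / 5, (1 / 5 : ℝ) • (st y).2)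

/-- the circle `Re w = 0` on the core spheres -/
noncomputable def crv (b : Bool) (θ : ℝ) : R4 :=
  (1 / 2, (if b then 1 else 0) + Real.cos θ / 5, ⟨0, Real.sin θ / 5⟩)

/-- **CH.** Charts of the cuffs of a germ.
Proof.  `|st y| = 1`, `st y ≠ (1,0)`, and every `x` with `|x| = 1`, `x ≠ (1,0)` is `st (σ x)`,
`σ x = x.2 / (1 - x.1)`, `σ (st y) = y`.  So `cst b` is a bijection of `ℂ` onto `sph b` minus the foot
(`(1/2,1/5,0)` resp. `(1/2,4/5,0)`), smooth, with a continuous inverse (`cinv`) defined near every point.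
`Charts`: closed: image of a compact set under a map continuous on it; smooth: `F` is smooth near the
points of `SP`; `nhds`: let `V₀ ⊆ V` be open, `y ∈ V₀`; the set `K = (sph 0 ∪ sph 1) \ cst b '' V₀` is compact
(`cst b '' V₀` is the intersection of `sph b` with an open set: `{p | foot ≠ p, cinv p ∈ V₀}`), `F '' K` is
closed and does not contain `F (cst b y)` (injectivity); `W = (F '' K)ᶜ`.
Tangent vectors: for `x = st y`, `v = (α, β)` with `x.1 α + Re (x.2 conj β) = 0` put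
`η = β / (1 - x.1) + (α / (1 - x.1)²) x.2`; then `D st(y) η = v` (direct computation:
`|y|² + 1 = 2/(1 - x.1)`, `⟨y, η⟩ = α / (1 - x.1)²`).  Apply this to `5 v.2` resp. the reflected vector, and
the chain rule for `F ∘ cst b`. -/
def StCH : Prop :=
  ∀ F : R4 → R4, EmbOn 𝓘(ℝ, R4) F SP →
    Charts (F '' (sph 0 ∪ sph 1)) (F (1 / 2, 1 / 5, 0)) (F (1 / 2, 4 / 5, 0))
      (fun b y => F (cst b y)) (fun _ => univ) ∧
    (∀ p ∈ sph 0, p ≠ (1 / 2, 1 / 5, 0) → ∃ y, cst false y = p) ∧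
    (∀ p ∈ sph 1, p ≠ (1 / 2, 4 / 5, 0) → ∃ y, cst true y = p) ∧
    (∀ (b : Bool) (y : ℂ) (v : R4), v.1 = 0 → drsq (if b then 1 else 0) (cst b y) v = 0 →
      ∃ η : ℂ, fderiv ℝ (fun y => F (cst b y)) y η = fderiv ℝ F (cst b y) v) ∧
    (∀ b : Bool, ContDiff ℝ ∞ (fun θ => F (crv b θ))) ∧
    (∀ p ∈ sph 0, p.2.2.re = 0 → ∃ θ, crv false θ = p) ∧
    ∀ p ∈ sph 1, p.2.2.re = 0 → ∃ θ, crv true θ = p

/-! ## CO: global core functions -/

/-- **CO.** The two core arcs extended to smooth functions on the line.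
Proof.  Let `e u = (1/2, u, 0)`.  There is `r > 0` such that `F` and `F'` are smooth near `e u` for
`u ∈ (1/5 - r, 4/5 + r)` and `e u ∈ U` for `|u - 1/5| < r` and `|u - 4/5| < r`.  `Ψ` smooth, `1` on
`[1/5 - r/3, 4/5 + r/3]`, `0` off `[1/5 - 2r/3, 4/5 + 2r/3]`; `c₀ u = Ψ u • F (e u)`,
`c₁ u = Ψ u • F' (e u)`; `2 δ < r`, `δ < 1/10`.  The derivative is the derivative of the germ applied to
`(0,1,0)` on `[1/5, 4/5]`, nonzero (`injective_fderiv`, Loc.lean). -/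
def StCO : Prop :=
  ∀ (F F' : R4 → R4) (U : Set R4), EmbOn 𝓘(ℝ, R4) F SP → EmbOn 𝓘(ℝ, R4) F' SP → IsOpen U →
    sph 0 ∪ sph 1 ⊆ U → EqOn F F' U →
    ∃ (c₀ c₁ : ℝ → R4) (δ : ℝ), 0 < δ ∧ δ < 1 / 10 ∧ ContDiff ℝ ∞ c₀ ∧ ContDiff ℝ ∞ c₁ ∧
      (∀ u ∈ Icc (1 / 5 : ℝ) (4 / 5), F (1 / 2, u, 0) = c₀ u ∧ F' (1 / 2, u, 0) = c₁ u) ∧
      (∀ u, (u ≤ 1 / 5 + 2 * δ ∨ 4 / 5 - 2 * δ ≤ u) → c₀ u = c₁ u) ∧
      ∀ u ∈ Icc (1 / 5 : ℝ) (4 / 5), deriv c₀ u ≠ 0 ∧ deriv c₁ u ≠ 0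

end Pool.Agent.Helper34.BI


end

/-! ## Helper27.BI.StG -/

section

/-!
# Project BI, part (C): the statements at the level of germs
-/

set_option autoImplicit false

open scoped Manifold ContDiff Topology ComplexConjugate
open Set Pool.Agent.Helper65.Barb Pool.Agent.Helper18.BI

namespace Pool.Agent.Helper27.BI

/-- `k` pushes the ball off the vertical tube of radius `r` over `x₀`, in the direction of
increasing `a`. -/
structure IsKap (x₀ : R3) (δ r : ℝ) (k : R4 → R4) : Prop where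
  emb : EmbOn 𝓘(ℝ, R4) k univ
  smooth : ContDiff ℝ ∞ k
  fst : ∀ p, (k p).1 = p.1
  keep : ∀ p, (k p).2.2 = p.2.2
  mono : ∀ p, p.2.1 ≤ (k p).2.1
  off_w : ∀ p, δ ≤ ‖p.2.2 - x₀.2‖ → k p = p
  off_a : ∀ p, x₀.1 + 1 / 50 ≤ p.2.1 → k p = p
  away : ∀ p ∈ ball4, k p ∉ tube x₀ r
  ball : ∀ p ∈ ball4, k p ∈ ball4
  small : ∀ p, rsq 0 p ≤ 1 / 25 → rsq 0 (k p) ≤ 1 / 25

/-- Existence of the pushing maps. -/
def StKap : Prop :=
  ∀ x₀ : R3, nsq x₀ < (7 / 50) ^ 2 → ∀ δ r : ℝ, 0 < r → r ≤ δ / 2 → r ≤ 1 / 100 → δ ≤ 1 / 25 →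
    ∃ k, IsKap x₀ δ r k

/-- **ADD** for germs.  Two strands `x1`, `x2` inside the first hole: the implantation is the
product of the implantation relative to the first strand only (`F ∘ k1`, `k1` pushes everything
off the second strand) and of the one relative to the second strand only (`F ∘ k2`). -/
def StAddG : Prop :=
  ∀ (E : Type) [NormedAddCommGroup E] [NormedSpace ℝ E] (H : Type) [TopologicalSpace H]
    (I : ModelWithCorners ℝ E H) (M : Type) [TopologicalSpace M] [ChartedSpace H M] [T2Space M]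
    (x1 x2 : R3), nsq x1 < (7 / 50) ^ 2 → nsq x2 < (7 / 50) ^ 2 → x1.2.re ≠ x2.2.re →
    ∀ g ρ : ℝ, g = |x1.2.re - x2.2.re| → ρ = g / 40 → ∀ k1 k2 : R4 → R4,
      IsKap x2 (g / 8) ρ k1 → IsKap x1 (g / 8) ρ k2 →
      ∀ F : R4 → M, EmbOn I F {p | p ∈ ball4 ∧ p ∉ tube (1, 0) (3 / 20) ∧ p ∉ tube x1 ρ ∧
        p ∉ tube x2 ρ} →
        CIsot I (imp F bsupp barMap)
          (fun y => imp (F ∘ k2) bsupp barMap (imp (F ∘ k1) bsupp barMap y))

/-- **ADD2** (the form used in part (D)): the strands over `0` and `x2`. -/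
def StADD2 : Prop :=
  ∀ x2 : R3, nsq x2 < (7 / 50) ^ 2 → x2.2.re ≠ 0 → ∃ (r : ℝ) (k1 k2 : R4 → R4), 0 < r ∧
    r ≤ 1 / 200 ∧ 8 * r ≤ |x2.2.re| ∧
    IsKap x2 (|x2.2.re| / 8) r k1 ∧ IsKap 0 (|x2.2.re| / 8) r k2 ∧
    (∀ p, 17 / 100 ≤ p.2.1 → k1 p = p ∧ k2 p = p) ∧
    (∀ p : R4, ‖p.2.2‖ ≤ |x2.2.re| / 2 → k1 p = p) ∧
    (∀ p, k1 p ∈ tube 0 r → p ∈ tube 0 r) ∧ (∀ p, k2 p ∈ tube x2 r → p ∈ tube x2 r) ∧
    ∀ (E : Type) [NormedAddCommGroup E] [NormedSpace ℝ E] (H : Type) [TopologicalSpace H]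
      (I : ModelWithCorners ℝ E H) (M : Type) [TopologicalSpace M] [ChartedSpace H M] [T2Space M]
      (F : R4 → M), EmbOn I F (ball4 \ (tube (1, 0) (3 / 20) ∪ tube 0 r ∪ tube x2 r)) →
        CIsot I (imp F bsupp barMap)
          (fun y => imp (F ∘ k2) bsupp barMap (imp (F ∘ k1) bsupp barMap y))

/-- **VAN** for germs: a germ extending over the first flat ball has trivial class. -/
def StVanT : Prop :=
  ∀ (E : Type) [NormedAddCommGroup E] [NormedSpace ℝ E] (H : Type) [TopologicalSpace H]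
    (I : ModelWithCorners ℝ E H) (M : Type) [TopologicalSpace M] [ChartedSpace H M] [T2Space M]
    (F : R4 → M), EmbOn I F (flat 0 ∪ sph 1 ∪ neck) → Thin I F (fun x => x)

/-- **R1** for germs: reflection `h ↦ -h`. -/
def StRefH : Prop :=
  ∀ (E : Type) [NormedAddCommGroup E] [NormedSpace ℝ E] (H : Type) [TopologicalSpace H]
    (I : ModelWithCorners ℝ E H) (M : Type) [TopologicalSpace M] [ChartedSpace H M] [T2Space M]
    (F : R4 → M) (φ φ' : M → M), EmbOn I F SP → (∀ x, φ (φ' x) = x) → (∀ x, φ' (φ x) = x) →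
    (Thin I F φ ↔ Thin I (fun p => F (refh p)) φ')

/-- **R1** for germs: reversal of the levels. -/
def StRefS : Prop :=
  ∀ (E : Type) [NormedAddCommGroup E] [NormedSpace ℝ E] (H : Type) [TopologicalSpace H]
    (I : ModelWithCorners ℝ E H) (M : Type) [TopologicalSpace M] [ChartedSpace H M] [T2Space M]
    (F : R4 → M) (φ φ' : M → M), EmbOn I F SP → (∀ x, φ (φ' x) = x) → (∀ x, φ' (φ x) = x) →
    (Thin I F φ ↔ Thin I (fun p => F (refs p)) φ')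

/-- **R2** for germs: exchange of the two cuffs. -/
def StR2sw : Prop :=
  ∀ (E : Type) [NormedAddCommGroup E] [NormedSpace ℝ E] (H : Type) [TopologicalSpace H]
    (I : ModelWithCorners ℝ E H) (M : Type) [TopologicalSpace M] [ChartedSpace H M] [T2Space M]
    (F : R4 → M) (φ φ' : M → M), EmbOn I F SP → (∀ x, φ (φ' x) = x) → (∀ x, φ' (φ x) = x) →
    (Thin I F φ ↔ Thin I (fun p => F (swp p)) φ')

end Pool.Agent.Helper27.BI


end

/-! ## Helper27.BI.Geo -/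

section

/-!
# Project BI, part (C): elementary geometry of the arcs
-/

set_option autoImplicit false
set_option linter.unusedSectionVars false
set_option linter.unusedVariables false

open scoped Manifold ContDiff Topology ComplexConjugate
open Set Pool.Agent.Helper65.Barb Pool.Agent.Helper18.BI

namespace Pool.Agent.Helper27.BI

/-! ### the Euclidean norm of three-space -/

theorem nsq_nonneg (x : R3) : 0 ≤ nsq x := by unfold nsq; positivity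

theorem nsq_neg (x : R3) : nsq (-x) = nsq x := by simp [nsq]

theorem nsq_sub_comm (x y : R3) : nsq (x - y) = nsq (y - x) := by
  rw [← neg_sub, nsq_neg]

/-- the inner product -/
noncomputable def ip (x y : R3) : ℝ := x.1 * y.1 + x.2.re * y.2.re + x.2.im * y.2.im

theorem ip_sq_le (x y : R3) : ip x y ^ 2 ≤ nsq x * nsq y := by
  unfold ip nsq
  nlinarith [sq_nonneg (x.1 * y.2.re - x.2.re * y.1), sq_nonneg (x.1 * y.2.im - x.2.im * y.1),
    sq_nonneg (x.2.re * y.2.im - x.2.im * y.2.re)]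

theorem nsq_add_eq (x y : R3) : nsq (x + y) = nsq x + 2 * ip x y + nsq y := by
  simp only [nsq, ip, Prod.fst_add, Prod.snd_add, Complex.add_re, Complex.add_im]; ring

/-- triangle inequality in squared form -/
theorem nsq_add_le {x y : R3} {r t : ℝ} (hr : 0 ≤ r) (ht : 0 ≤ t) (hx : nsq x ≤ r ^ 2)
    (hy : nsq y ≤ t ^ 2) : nsq (x + y) ≤ (r + t) ^ 2 := by
  have h1 : ip x y ≤ r * t := by
    have h2 : ip x y ^ 2 ≤ (r * t) ^ 2 := by
      calc ip x y ^ 2 ≤ nsq x * nsq y := ip_sq_le x y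
        _ ≤ r ^ 2 * t ^ 2 := mul_le_mul hx hy (nsq_nonneg _) (by positivity)
        _ = (r * t) ^ 2 := by ring
    exact le_of_sq_le_sq h2 (by positivity) |>.trans le_rfl
  rw [nsq_add_eq]
  nlinarith
where
  le_of_sq_le_sq {a b : ℝ} (h : a ^ 2 ≤ b ^ 2) (hb : 0 ≤ b) : a ≤ b :=
    le_trans (le_abs_self a) (by
      have := abs_le_abs_of_sq_le_sq h
      rwa [abs_of_nonneg hb] at this)
  abs_le_abs_of_sq_le_sq {a b : ℝ} (h : a ^ 2 ≤ b ^ 2) : |a| ≤ |b| := sq_le_sq.1 h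

theorem nsq_sub_le {x y : R3} {r t : ℝ} (hr : 0 ≤ r) (ht : 0 ≤ t) (hx : nsq x ≤ r ^ 2)
    (hy : nsq y ≤ t ^ 2) : nsq (x - y) ≤ (r + t) ^ 2 := by
  rw [sub_eq_add_neg]
  exact nsq_add_le hr ht hx (by rwa [nsq_neg])

/-- separation: a point of the ball of radius `r` and a point off the ball of radius `R` -/
theorem nsq_sub_ge {x z : R3} {r R d : ℝ} (hr : 0 ≤ r) (hd : 0 ≤ d) (hR : r + d ≤ R)
    (hx : nsq x ≤ r ^ 2) (hz : R ^ 2 ≤ nsq z) : d ^ 2 ≤ nsq (x - z) := by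
  by_contra h
  push Not at h
  have h1 : nsq z < R ^ 2 := by
    obtain ⟨d', hd', hd'', h2⟩ : ∃ d', 0 ≤ d' ∧ d' < d ∧ nsq (x - z) ≤ d' ^ 2 := by
      refine ⟨√(nsq (x - z)), Real.sqrt_nonneg _, ?_, ?_⟩
      · exact (Real.sqrt_lt' (lt_of_le_of_ne hd (by
          rintro rfl
          have := nsq_nonneg (x - z)
          nlinarith))).2 h
      · rw [Real.sq_sqrt (nsq_nonneg _)]
    have h3 : nsq (x - (x - z)) ≤ (r + d') ^ 2 := nsq_sub_le hr hd' hx h2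
    rw [sub_sub_cancel] at h3
    nlinarith
  linarith

theorem re_sq_le (x : R3) : x.2.re ^ 2 ≤ nsq x := by
  unfold nsq; nlinarith [sq_nonneg x.1, sq_nonneg x.2.im]

theorem abs_re_le {x : R3} {r : ℝ} (hr : 0 ≤ r) (h : nsq x ≤ r ^ 2) : |x.2.re| ≤ r :=
  abs_le_of_sq_le_sq ((re_sq_le x).trans h) hr

/-! ### the angle -/

theorem contDiff_phi : ContDiff ℝ ∞ phi := contDiff_const.mul contDiff_step

theorem contDiff_chi : ContDiff ℝ ∞ chi :=
  (contDiff_const.sub (Real.contDiff_cos.comp contDiff_phi)).div_const 2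

theorem phi_of_nonpos {s : ℝ} (h : s ≤ 0) : phi s = 0 := by
  rw [phi, step_of_nonpos h, mul_zero]

theorem phi_of_one_le {s : ℝ} (h : 1 ≤ s) : phi s = 2 * Real.pi := by
  rw [phi, step_of_one_le h, mul_one]

theorem cos_phi_end {s : ℝ} (h : s ≤ 0 ∨ 1 ≤ s) : Real.cos (phi s) = 1 := by
  rcases h with h | h
  · rw [phi_of_nonpos h, Real.cos_zero]
  · rw [phi_of_one_le h, Real.cos_two_pi]

theorem sin_phi_end {s : ℝ} (h : s ≤ 0 ∨ 1 ≤ s) : Real.sin (phi s) = 0 := by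
  rcases h with h | h
  · rw [phi_of_nonpos h, Real.sin_zero]
  · rw [phi_of_one_le h, Real.sin_two_pi]

theorem chi_end {s : ℝ} (h : s ≤ 0 ∨ 1 ≤ s) : chi s = 0 := by
  rw [chi, cos_phi_end h]; norm_num

theorem chi_mem (s : ℝ) : chi s ∈ Icc (0 : ℝ) 1 := by
  unfold chi
  constructor <;> linarith [Real.neg_one_le_cos (phi s), Real.cos_le_one (phi s)]

/-! ### the arcs -/

theorem contDiff_zarc {F : Type*} [NormedAddCommGroup F] [NormedSpace ℝ F] {A c q s : F → ℝ}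
    (hA : ContDiff ℝ ∞ A) (hc : ContDiff ℝ ∞ c) (hq : ContDiff ℝ ∞ q) (hs : ContDiff ℝ ∞ s) :
    ContDiff ℝ ∞ (fun x => zarc (A x) (c x) (q x) (s x)) := by
  have h2 : ContDiff ℝ ∞ (fun x => 2 * Real.pi * q x) := contDiff_const.mul hq
  have h3 : ContDiff ℝ ∞ (fun x => Real.cos (2 * Real.pi * q x)) := Real.contDiff_cos.comp h2
  have h4 : ContDiff ℝ ∞ (fun x => Real.sin (2 * Real.pi * q x)) := Real.contDiff_sin.comp h2
  have h5 : ContDiff ℝ ∞ (fun x => Real.sin (phi (s x))) :=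
    Real.contDiff_sin.comp (contDiff_phi.comp hs)
  unfold zarc
  apply ContDiff.prodMk
  · exact contDiff_const.add (hc.mul (h3.sub contDiff_const))
  · have : (fun x => (⟨-A x * Real.sin (phi (s x)), c x * Real.sin (2 * Real.pi * q x)⟩ : ℂ)) =
        fun x => ((-A x * Real.sin (phi (s x)) : ℝ) : ℂ) +
          ((c x * Real.sin (2 * Real.pi * q x) : ℝ) : ℂ) * Complex.I := by
      funext x
      exact Complex.mk_eq_add_mul_I _ _
    rw [this]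
    exact (Complex.ofRealCLM.contDiff.comp (hA.neg.mul h5)).add
      ((Complex.ofRealCLM.contDiff.comp (hc.mul h4)).mul contDiff_const)

theorem zarc_end (A c q : ℝ) {s : ℝ} (h : s ≤ 0 ∨ 1 ≤ s) (hc : c = 0) : zarc A c q s = e1 := by
  simp [zarc, sin_phi_end h, hc, e1]
  rfl

theorem zarc_zero (A c s : ℝ) : zarc A c 0 s = (1, ⟨-A * Real.sin (phi s), 0⟩) := by
  simp [zarc]

theorem zarc_one (A c s : ℝ) : zarc A c 1 s = (1, ⟨-A * Real.sin (phi s), 0⟩) := by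
  simp [zarc]

theorem nsq_zarc (A c q s : ℝ) : nsq (zarc A c q s) =
    1 - 2 * c * (1 - c) * (1 - Real.cos (2 * Real.pi * q)) + A ^ 2 * Real.sin (phi s) ^ 2 := by
  have h := Real.sin_sq_add_cos_sq (2 * Real.pi * q)
  simp only [nsq, zarc]
  linear_combination c ^ 2 * h

theorem nsq_zarc_le {A c : ℝ} (q s : ℝ) (hc : c ∈ Icc (0 : ℝ) 1) (hA : A ∈ Icc (0 : ℝ) 1) :
    nsq (zarc A c q s) ≤ (3 / 2) ^ 2 := by
  rw [nsq_zarc]
  have h1 := Real.cos_le_one (2 * Real.pi * q)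
  have h2 := Real.sin_sq_le_one (phi s)
  have h3 : 0 ≤ 2 * c * (1 - c) * (1 - Real.cos (2 * Real.pi * q)) :=
    mul_nonneg (mul_nonneg (by linarith [hc.1]) (by linarith [hc.2])) (by linarith)
  have h4 : A ^ 2 * Real.sin (phi s) ^ 2 ≤ 1 := by
    have : A ^ 2 ≤ 1 := by nlinarith [hA.1, hA.2]
    nlinarith [sq_nonneg (Real.sin (phi s)), sq_nonneg A]
  linarith

theorem nsq_zarc_chi (A q s : ℝ) : nsq (zarc A (chi s) q s) =
    1 + Real.sin (phi s) ^ 2 * (A ^ 2 - Real.sin (Real.pi * q) ^ 2) := by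
  rw [nsq_zarc, chi]
  have h1 : Real.cos (2 * Real.pi * q) = 1 - 2 * Real.sin (Real.pi * q) ^ 2 := by
    have : 2 * Real.pi * q = 2 * (Real.pi * q) := by ring
    rw [this, Real.cos_two_mul]
    linarith [Real.sin_sq_add_cos_sq (Real.pi * q)]
  have h2 := Real.sin_sq_add_cos_sq (phi s)
  rw [h1]
  linear_combination (Real.sin (Real.pi * q) ^ 2) * h2

/-! ### the barbell map as a push -/

/-- the path of arcs of the barbell isotopy -/
noncomputable def barPath : Unit → ℝ → ℝ → R3 :=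
  fun _ q s => zarc (Real.sin (Real.pi * q)) (chi s) q s

theorem barPath_zero (i : Unit) (s : ℝ) : barPath i 0 s = e1 := by
  simp [barPath, zarc_zero, e1]
  rfl

theorem barPath_one (i : Unit) (s : ℝ) : barPath i 1 s = e1 := by
  simp [barPath, zarc_one, e1]
  rfl

theorem isPush_of_isBarbellMap (hspin : StSpin) {β : R4 → R4} (hβ : IsBarbellMap β) :
    IsPush {p | rsq 0 p ≤ (3 / 20) ^ 2} (3 / 20) barPath β := by
  obtain ⟨Φ, h0, h1, ⟨K, hK, hKi, hKs⟩, hz, ho⟩ := hβ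
  refine ⟨Φ, h0, h1, ⟨K, hK, hKi, fun t x hx => hKs t x hx⟩, fun t ht x hx => hz t ht x hx, ?_⟩
  intro t ht i s y hy
  rw [barPath_zero]
  have e := ho t ht s y hy
  rw [hspin] at e
  exact e

theorem bfam_zero (p : R4) : bfam.f (0, p) = p := by
  rw [bfam_apply]
  have h : ∀ (c r : ℝ) (q : R4), (twist c r).g (0, q) = q := by
    intro c r q
    have := (twist c r).gf 0 q
    rwa [twist_of_time le_rfl] at this
  rw [h, h, twist_of_time le_rfl]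

theorem isPush_barMap (hspin : StSpin) :
    IsPush {p | rsq 0 p ≤ (1 / 5) ^ 2} (1 / 5) barPath barMap := by
  refine ⟨bfam, bfam_zero, fun _ => rfl, ⟨tsupp 0 2, isCompact_tsupp 0 2,
    tsupp_subset_interior, fun t p hp => bfam_support t p hp⟩, fun t _ x hx =>
    bfam_near_zero t hx, ?_⟩
  intro t ht i s y hy
  rw [barPath_zero]
  have e := bfam_near_one t s y hy
  rw [hspin] at e
  exact e

end Pool.Agent.Helper27.BI


end

/-! ## Helper18.BI.M_R0 -/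

section

/-!
# Project BI, module R0: the ramp function
-/

set_option autoImplicit false

open scoped Manifold ContDiff Topology
open Set Pool.Agent.Helper65.Barb MeasureTheory

namespace Pool.Agent.Helper18.BI

theorem R0.cont_step : Continuous step := contDiff_step.continuous

theorem R0.step_nonneg (t : ℝ) : 0 ≤ step t := Real.smoothTransition.nonneg t

theorem R0.step_le_one (t : ℝ) : step t ≤ 1 := Real.smoothTransition.le_one t

theorem R0.int (a b : ℝ) : IntervalIntegrable step volume a b :=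
  R0.cont_step.intervalIntegrable a b

theorem R0.hasDeriv (x : ℝ) : HasDerivAt ramp (step x) x :=
  (R0.cont_step.integral_hasStrictDerivAt 0 x).hasDerivAt

theorem R0.zero (x : ℝ) (hx : x ≤ 0) : ramp x = 0 := by
  unfold ramp
  have h : ∫ t in (0 : ℝ)..x, step t = ∫ _t in (0 : ℝ)..x, (0 : ℝ) := by
    apply intervalIntegral.integral_congr
    intro t ht
    rw [uIcc_of_ge hx] at ht
    exact step_of_nonpos ht.2
  rw [h, intervalIntegral.integral_zero]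

theorem R0.nonneg (x : ℝ) : 0 ≤ ramp x := by
  rcases le_total x 0 with h | h
  · rw [R0.zero x h]
  · exact intervalIntegral.integral_nonneg h (fun t _ => R0.step_nonneg t)

theorem R0.lower (x : ℝ) : x - 1 ≤ ramp x := by
  rcases le_total x 1 with h | h
  · have := R0.nonneg x
    linarith
  · have h1 : ramp x = ramp 1 + ∫ t in (1 : ℝ)..x, step t := by
      unfold ramp
      rw [intervalIntegral.integral_add_adjacent_intervals (R0.int 0 1) (R0.int 1 x)]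
    have h2 : ∫ t in (1 : ℝ)..x, step t = ∫ _t in (1 : ℝ)..x, (1 : ℝ) := by
      apply intervalIntegral.integral_congr
      intro t ht
      rw [uIcc_of_le h] at ht
      exact step_of_one_le ht.1
    rw [h2, intervalIntegral.integral_const, smul_eq_mul, mul_one] at h1
    have := R0.nonneg 1
    linarith

theorem R0.upper (x : ℝ) (hx : 0 ≤ x) : ramp x ≤ x := by
  have h1 : ramp x ≤ ∫ _t in (0 : ℝ)..x, (1 : ℝ) := by
    unfold ramp
    exact intervalIntegral.integral_mono_on hx (R0.int 0 x) intervalIntegrable_const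
      (fun t _ => R0.step_le_one t)
  rw [intervalIntegral.integral_const, smul_eq_mul, mul_one, sub_zero] at h1
  exact h1

theorem m_R0 : StR0 := by
  refine ⟨?_, R0.hasDeriv, R0.zero, R0.nonneg, R0.lower, R0.upper⟩
  rw [contDiff_infty_iff_deriv]
  refine ⟨fun x => (R0.hasDeriv x).differentiableAt, ?_⟩
  have h : deriv ramp = step := funext fun x => (R0.hasDeriv x).deriv
  rw [h]
  exact contDiff_step

end Pool.Agent.Helper18.BI


end

/-! ## Helper34.BI.H.StH5a -/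

section

/-!
# Project BI, stage 3, section 5: the crossing, statements independent of thick arcs

Statements (as `Prop` definitions) with complete proofs in the docstrings.  A module `M_X`
(`Pool/Agent/Helper34/BI/H/M_X.lean`) proves `theorem m_X : StX` (possibly from other statements as
hypotheses).
-/

set_option autoImplicit false

open Module Set Filter Topology
open scoped ContDiff Manifold
open Pool.Agent.Helper65.Barb Pool.Agent.Helper18.BI Pool.Agent.Helper27.BI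

namespace Pool.Agent.Helper34.BI.H

/-- **OPN.** Openness of embeddings of germs in families, with exceptional double points.
`J (a, ·)`, `a ∈ A`, is a family of germs along `L`; at `a₀` it is locally diffeomorphic, and injective on `L`
except for some pairs of points near which double points occur for bad parameters only.

*Proof.* Compare module D1b (`Pool/Agent/Helper34/BI/M_D1b.lean`, lemmas `eventually_good`, `eventually_inj`: for
each `x ∈ L` the map `(a, x) ↦ (a, J (a, x))` is smooth near `(a₀, x)` with injective derivative, so it is a local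
diffeomorphism near `(a₀, x)`, injective near `(a₀, x)`, and `J (a, ·)` is a local diffeomorphism at `y` for
`(a, y)` near `(a₀, x)`).  So every `(x, y) ∈ L × L` satisfies: for all `(a, x', y')` near `(a₀, x, y)`
with `x', y' ∈ L`: `J` is smooth near `(a, x')`, `J (a, ·)` is locally diffeomorphic at `x'`, and
`J (a, x') = J (a, y') → x' = y' ∨ bad a`: (i) `J (a₀, x) ≠ J (a₀, y)`: continuity; (ii) `x = y`: local injectivity;
(iii) otherwise: the hypothesis.  By compactness of `L ×ˢ L` (`IsCompact.eventually_forall_of_forall_eventually` or the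
generalized tube lemma) this holds for all `(x', y') ∈ L × L` and all `a` near `a₀`. -/
def StOPN : Prop :=
  ∀ (A : Type) [NormedAddCommGroup A] [NormedSpace ℝ A] [FiniteDimensional ℝ A]
    (J : A × R4 → R4) (a₀ : A) (L : Set R4) (bad : A → Prop), IsCompact L →
    (∀ x ∈ L, ∀ᶠ z in 𝓝 (a₀, x), ContDiffAt ℝ ∞ J z) →
    (∀ x ∈ L, IsLocalDiffeomorphAt 𝓘(ℝ, R4) 𝓘(ℝ, R4) ∞ (fun p => J (a₀, p)) x) →
    (∀ x ∈ L, ∀ y ∈ L, J (a₀, x) = J (a₀, y) → x = y ∨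
      ∀ᶠ z : A × R4 × R4 in 𝓝 (a₀, x, y), z.2.1 ∈ L → z.2.2 ∈ L →
        J (z.1, z.2.1) = J (z.1, z.2.2) → bad z.1) →
    ∀ᶠ a in 𝓝 a₀, (∀ x ∈ L, ∀ᶠ z in 𝓝 (a, x), ContDiffAt ℝ ∞ J z) ∧
      (∀ x ∈ L, IsLocalDiffeomorphAt 𝓘(ℝ, R4) 𝓘(ℝ, R4) ∞ (fun p => J (a, p)) x) ∧
      (bad a ∨ InjOn (fun p => J (a, p)) L)

/-- the arcs of the localized circle: `a + i h = 1 + κ (exp (2 π i q) - 1)`,
`X = (s - 1/2) κ (1 - cos 2 π q)` -/
noncomputable def warc (κ : ℝ → ℝ) (q s : ℝ) : R3 :=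
  (1 + κ s * (Real.cos (2 * Real.pi * q) - 1),
    ⟨(s - 1 / 2) * (κ s * (1 - Real.cos (2 * Real.pi * q))), κ s * Real.sin (2 * Real.pi * q)⟩)

/-- **CIRC.** The barbell map is a push along the localized circle (uses `StCh`, `StSpin`).

*Proof.* `barMap` is a push along `barPath q s = zarc (sin π q) (chi s) q s` relative to
`{rsq 0 ≤ (1/5)²}` with radius `1/5` (`isPush_barMap`, see `opening` in `Helper27/BI/AddMain.lean`).  Let
`Γ u q s = (1 - u) • zarc (sin π q) (chi s) q s + u • warc κ q s`.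
Claim: `Γ u q s ≠ 0` for `u, q, s ∈ [0,1]`.  Write `S = sin π q ≥ 0`, `1 - cos 2πq = 2 S²`, `k = (1 - u) χ(s) + u κ(s)`:
`Γ = (1 + k (cos 2πq - 1), X + i k sin 2πq)`, `X = S [-(1 - u) sin φ(s) + 2 u (s - 1/2) κ(s) S]`.  Suppose `Γ = 0`.
If `S = 0` then `cos 2πq = 1`, the first coordinate is `1`.  So `S > 0` and the bracket is zero.  For
`0 < s < 1/2`: `0 < φ(s) < π` (`step` is strictly increasing on `[0,1]` with `step (1/2) = 1/2`: `step_symm`;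
`0 < step s < 1/2`), so `sin φ > 0` and both terms are `≤ 0`; for `1/2 < s < 1`: `π < φ < 2π`, both are
`≥ 0`.  So if `s ∈ (0,1)`, `s ≠ 1/2`: `(1 - u) sin φ = 0`, so `u = 1`, and `κ(s) = 0`, so `k = 0` and the first
coordinate is `1`.  If `s = 0` or `s = 1`: `χ = κ = 0`, `k = 0`, the same.  If `s = 1/2`: `χ = 1`, `κ = 1`, `k = 1`, and
`Γ = (cos 2πq, .. + i sin 2πq) ≠ 0`.
By compactness `nsq (Γ u q s) ≥ (3 ρ₀)²` on the cube for some `ρ₀ > 0`; take also `ρ₀ ≤ 3/20`.  For `ρ < ρ₀` the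
family is `SqOk (ctube 0 ρ) ρ` (`off`: `|x| ≤ ρ`, `|Γ| ≥ 3 ρ`; `inside`: `|zarc| ≤ 3`, `|warc| ≤ 3`, so `|Γ| ≤ 3`, `2ρ < 1`; `ends`: both are `e1`
for `s ≤ 0`, `s ≥ 1`; `sep` is empty for `Unit`).  `square` (Square.lean) with `Θ1 = barMap`, `Θ4 = Θ`, `Θ2 = Θ3 = id`
(for `q = 0`, `q = 1` all arcs are `e1`).  Existence of a push: `exists_push` for `(u, q) ↦ warc κ q`. -/
def StCIRC : Prop :=
  ∀ κ : ℝ → ℝ, ContDiff ℝ ∞ κ → (∀ s, κ s ∈ Icc (0 : ℝ) 1) → κ (1 / 2) = 1 →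
    (∀ s, (s ≤ 0 ∨ 1 ≤ s) → κ s = 0) →
    ∃ ρ₀ > 0, ∀ ρ ∈ Ioo 0 ρ₀,
      (∃ Θ, IsPush (ctube 0 ρ) ρ (fun (_ : Unit) q s => warc κ q s) Θ) ∧
      ∀ Θ, IsPush (ctube 0 ρ) ρ (fun (_ : Unit) q s => warc κ q s) Θ →
        TIso (ctube 0 ρ) ρ (fun (_ : Unit) _ => e1) (fun _ _ => e1) barMap Θ

end Pool.Agent.Helper34.BI.H


end
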