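import Pool.Agent.Helper65.Barb.Defs
import Pool.Agent.Helper70.BI.B.P01

/-!
# Project BI (MP_8e98f2_gt): collected modules, part 06

The contents of the modules
* Helper27.BI.ChBasic
* Helper27.BI.StM1
* Helper27.BI.Square
* Helper27.BI.M_PERT

in one file, so that the whole proof builds in a short time.
-/

/-! ## Helper27.BI.ChBasic -/

section

/-!
# Project BI, part (C): formal properties of `TIso` and `IsPush`
-/

set_option autoImplicit false
set_option linter.unusedSectionVars false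
set_option linter.unusedVariables false

open scoped Manifold ContDiff Topology ComplexConjugate
open Set Pool.Agent.Helper65.Barb Pool.Agent.Helper18.BI

namespace Pool.Agent.Helper27.BI

theorem SuppB.inv {F : DFam 𝓘(ℝ, R4) R4} (h : SuppB F) : SuppB F.inv := by
  obtain ⟨K, hK, hK2, h⟩ := h
  exact ⟨K, hK, hK2, fun t x hx => F.support_inv h t hx⟩

theorem SuppB.comp {F G : DFam 𝓘(ℝ, R4) R4} (h : SuppB F) (h' : SuppB G) : SuppB (F.comp G) := by
  obtain ⟨K, hK, hK2, h⟩ := h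
  obtain ⟨K', hK', hK2', h'⟩ := h'
  refine ⟨K ∪ K', hK.union hK', union_subset hK2 hK2', fun t x hx => ?_⟩
  have h1 : x ∉ K := fun hx' => hx (Or.inl hx')
  have h2 : x ∉ K' := fun hx' => hx (Or.inr hx')
  change F.f (t, G.f (t, x)) = x
  rw [h' t x h2, h t x h1]

theorem SuppB.reparam {F : DFam 𝓘(ℝ, R4) R4} (h : SuppB F) (τ : ℝ → ℝ) (hτ : ContDiff ℝ ∞ τ) :
    SuppB (F.reparam τ hτ) := by
  obtain ⟨K, hK, hK2, h⟩ := h
  exact ⟨K, hK, hK2, fun t x hx => h (τ t) x hx⟩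

theorem SuppB.freeze {F : DFam 𝓘(ℝ, R4) R4} (h : SuppB F) (t₀ : ℝ) : SuppB (F.freeze t₀) :=
  h.reparam _ _

theorem suppB_one : SuppB DFam.one :=
  ⟨∅, isCompact_empty, empty_subset _, fun _ _ _ => rfl⟩

theorem DFam.g_eq {F : DFam 𝓘(ℝ, R4) R4} {t : ℝ} {p q : R4} (h : F.f (t, p) = q) :
    F.g (t, q) = p := by rw [← h, F.gf]

section
variable {ι : Type} {O : Set R4} {ρ : ℝ}

theorem TIso.mono {O' : Set R4} {ρ' : ℝ} {z0 z1 : ι → ℝ → R3} {φ ψ : R4 → R4}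
    (h : TIso O ρ z0 z1 φ ψ) (hO : O' ⊆ O) (h0 : 0 ≤ ρ') (hρ : ρ' ≤ ρ) :
    TIso O' ρ' z0 z1 φ ψ := by
  obtain ⟨F, h0', h1, hs, hf, ht⟩ := h
  exact ⟨F, h0', h1, hs, fun t x hx => hf t x (hO hx),
    fun t i s y hy => ht t i s y (hy.trans (by nlinarith))⟩

theorem TIso.refl_of {z0 z1 : ι → ℝ → R3} {φ ψ : R4 → R4} (h : TIso O ρ z0 z1 φ ψ) :
    TIso O ρ z0 z1 φ φ := by
  obtain ⟨F, h0, h1, hs, hf, ht⟩ := h
  exact ⟨F.freeze 0, fun x => h0 x, fun x => h0 x, hs.freeze 0, fun t x hx => hf 0 x hx,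
    fun t i s y hy => ht 0 i s y hy⟩

theorem TIso.symm {z0 z1 : ι → ℝ → R3} {φ ψ : R4 → R4} (h : TIso O ρ z0 z1 φ ψ) :
    TIso O ρ z0 z1 ψ φ := by
  obtain ⟨F, h0, h1, hs, hf, ht⟩ := h
  have hτ : ContDiff ℝ ∞ (fun t : ℝ => 1 - t) := contDiff_const.sub contDiff_id
  refine ⟨F.reparam (fun t => 1 - t) hτ, fun x => ?_, fun x => ?_, hs.reparam _ _,
    fun t x hx => hf _ x hx, fun t i s y hy => ht _ i s y hy⟩
  · change F.f (1 - 0, x) = _
    rw [sub_zero, h1]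
  · change F.f (1 - 1, x) = _
    rw [sub_self, h0]

theorem TIso.comp {z0 z1 z2 : ι → ℝ → R3} {φ ψ φ' ψ' : R4 → R4} (h' : TIso O ρ z1 z2 φ' ψ')
    (h : TIso O ρ z0 z1 φ ψ) : TIso O ρ z0 z2 (fun x => φ' (φ x)) (fun x => ψ' (ψ x)) := by
  obtain ⟨F, h0, h1, hs, hf, ht⟩ := h
  obtain ⟨F', h0', h1', hs', hf', ht'⟩ := h'
  refine ⟨F'.comp F, fun x => ?_, fun x => ?_, hs'.comp hs, fun t x hx => ?_,
    fun t i s y hy => ?_⟩
  · change F'.f (0, F.f (0, x)) = _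
    rw [h0, h0']
  · change F'.f (1, F.f (1, x)) = _
    rw [h1, h1']
  · change F'.f (t, F.f (t, x)) = _
    rw [hf t x hx, hf' t x hx]
  · change F'.f (t, F.f (t, _)) = _
    rw [ht t i s y hy, ht' t i s y hy]

theorem TIso.trans {z0 z1 : ι → ℝ → R3} {φ ψ χ : R4 → R4} (h : TIso O ρ z0 z1 φ ψ)
    (h' : TIso O ρ z0 z1 ψ χ) : TIso O ρ z0 z1 φ χ := by
  obtain ⟨F, h0, h1, hs, hf, ht⟩ := h
  obtain ⟨G, g0, g1, gs, gf, gt⟩ := h'
  refine ⟨G.comp ((F.freeze 1).inv.comp F), fun x => ?_, fun x => ?_,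
    gs.comp (((hs.freeze 1).inv).comp hs), fun t x hx => ?_, fun t i s y hy => ?_⟩
  · change G.f (0, F.g (1, F.f (0, x))) = _
    rw [g0, ← h1, F.fg, h0]
  · change G.f (1, F.g (1, F.f (1, x))) = _
    rw [F.gf, g1]
  · change G.f (t, F.g (1, F.f (t, x))) = _
    rw [hf t x hx, DFam.g_eq (hf 1 x hx), gf t x hx]
  · change G.f (t, F.g (1, F.f (t, _))) = _
    rw [ht t i s y hy, DFam.g_eq (ht 1 i s y hy), gt t i s y hy]

/-- a member of an isotopy has an inverse of the same kind -/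
theorem TIso.exists_inv {z0 z1 : ι → ℝ → R3} {φ : R4 → R4} (h : TIso O ρ z0 z1 φ φ) :
    ∃ φ' : R4 → R4, TIso O ρ z1 z0 φ' φ' ∧ (∀ x, φ (φ' x) = x) ∧ ∀ x, φ' (φ x) = x := by
  obtain ⟨F, h0, h1, hs, hf, ht⟩ := h
  refine ⟨fun x => F.g (0, x), ⟨F.inv.freeze 0, fun x => rfl, fun x => rfl,
    (hs.inv).freeze 0, fun t x hx => DFam.g_eq (hf 0 x hx),
    fun t i s y hy => DFam.g_eq (ht 0 i s y hy)⟩, fun x => ?_, fun x => ?_⟩
  · have := F.fg 0 x
    rwa [h0] at this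
  · have := F.gf 0 x
    rwa [h0] at this

theorem TIso.inv {z0 z1 : ι → ℝ → R3} {φ ψ φ' ψ' : R4 → R4} (h : TIso O ρ z0 z1 φ ψ)
    (hφ : ∀ x, φ (φ' x) = x) (hψ : ∀ x, ψ (ψ' x) = x) : TIso O ρ z1 z0 φ' ψ' := by
  obtain ⟨F, h0, h1, hs, hf, ht⟩ := h
  refine ⟨F.inv, fun x => ?_, fun x => ?_, hs.inv, fun t x hx => DFam.g_eq (hf t x hx),
    fun t i s y hy => DFam.g_eq (ht t i s y hy)⟩
  · have := F.gf 0 (φ' x)
    rw [h0, hφ] at this
    exact this
  · have := F.gf 1 (ψ' x)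
    rw [h1, hψ] at this
    exact this

theorem TIso.one (z : ι → ℝ → R3) : TIso O ρ z z (fun x => x) (fun x => x) :=
  ⟨DFam.one, fun _ => rfl, fun _ => rfl, suppB_one, fun _ _ _ => rfl, fun _ _ _ _ _ => rfl⟩

/-! ### pushes -/

theorem step_zero : step 0 = 0 := step_of_nonpos le_rfl

theorem step_one : step 1 = 1 := step_of_one_le le_rfl

theorem step_symm (t : ℝ) : step (1 - t) = 1 - step t := by
  unfold step Real.smoothTransition
  have h := Real.smoothTransition.pos_denom t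
  rw [sub_sub_cancel, eq_sub_iff_add_eq, add_comm (expNegInvGlue (1 - t)) (expNegInvGlue t),
    ← add_div]
  rw [add_comm (expNegInvGlue (1 - t)), div_self h.ne']

theorem IsPush.mono {O' : Set R4} {ρ' : ℝ} {γ : ι → ℝ → ℝ → R3} {Θ : R4 → R4}
    (h : IsPush O ρ γ Θ) (hO : O' ⊆ O) (h0 : 0 ≤ ρ') (hρ : ρ' ≤ ρ) : IsPush O' ρ' γ Θ := by
  obtain ⟨F, h0', h1, hs, hf, ht⟩ := h
  exact ⟨F, h0', h1, hs, fun t ht x hx => hf t ht x (hO hx),
    fun t ht' i s y hy => ht t ht' i s y (hy.trans (by nlinarith))⟩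

/-- A push is a diffeomorphism carrying the initial tubes to the final ones. -/
theorem IsPush.tIso {γ : ι → ℝ → ℝ → R3} {Θ : R4 → R4} (h : IsPush O ρ γ Θ) :
    TIso O ρ (fun i => γ i 0) (fun i => γ i 1) Θ Θ := by
  obtain ⟨F, h0, h1, hs, hf, ht⟩ := h
  have h01 : (1 : ℝ) ∈ Icc (0 : ℝ) 1 := by simp
  refine ⟨F.freeze 1, fun x => h1 x, fun x => h1 x, hs.freeze 1, fun t x hx => hf 1 h01 x hx,
    fun t i s y hy => ?_⟩
  change F.f (1, _) = _
  rw [ht 1 h01 i s y hy, step_one]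

/-- Two pushes along the same path of arcs are isotopic. -/
theorem IsPush.unique {γ : ι → ℝ → ℝ → R3} {Θ Θ' : R4 → R4} (h : IsPush O ρ γ Θ)
    (h' : IsPush O ρ γ Θ') : TIso O ρ (fun i => γ i 0) (fun i => γ i 1) Θ Θ' := by
  obtain ⟨F, h0, h1, hs, hf, ht⟩ := h
  obtain ⟨G, g0, g1, gs, gf, gt⟩ := h'
  have h01 : (1 : ℝ) ∈ Icc (0 : ℝ) 1 := by simp
  have hst : ∀ t, step t ∈ Icc (0 : ℝ) 1 := step_mem
  refine ⟨(F.freeze 1).comp ((F.reparam step contDiff_step).inv.comp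
    (G.reparam step contDiff_step)), fun x => ?_, fun x => ?_,
    (hs.freeze 1).comp (((hs.reparam _ _).inv).comp (gs.reparam _ _)), fun t x hx => ?_,
    fun t i s y hy => ?_⟩
  · change F.f (1, F.g (step 0, G.f (step 0, x))) = _
    rw [step_zero, g0, DFam.g_eq (h0 x), h1]
  · change F.f (1, F.g (step 1, G.f (step 1, x))) = _
    rw [step_one, F.fg, g1]
  · change F.f (1, F.g (step t, G.f (step t, x))) = _
    rw [gf _ (hst t) x hx, DFam.g_eq (hf _ (hst t) x hx), hf 1 h01 x hx]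
  · change F.f (1, F.g (step t, G.f (step t, _))) = _
    rw [gt _ (hst t) i s y hy, DFam.g_eq (ht _ (hst t) i s y hy), ht 1 h01 i s y hy, step_one]

/-- A push along the reversed path. -/
theorem IsPush.reverse {γ : ι → ℝ → ℝ → R3} {Θ Θ' : R4 → R4} (h : IsPush O ρ γ Θ)
    (hΘ : ∀ x, Θ (Θ' x) = x) : IsPush O ρ (fun i q s => γ i (1 - q) s) Θ' := by
  obtain ⟨F, h0, h1, hs, hf, ht⟩ := h
  have h01 : (1 : ℝ) ∈ Icc (0 : ℝ) 1 := by simp
  have hτ : ContDiff ℝ ∞ (fun t : ℝ => 1 - t) := contDiff_const.sub contDiff_id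
  have hΘ' : ∀ x, F.g (1, x) = Θ' x := fun x => DFam.g_eq (by rw [h1, hΘ])
  have hm : ∀ t ∈ Icc (0 : ℝ) 1, 1 - t ∈ Icc (0 : ℝ) 1 := by
    rintro t ⟨h1, h2⟩; constructor <;> linarith
  refine ⟨(F.reparam (fun t => 1 - t) hτ).comp (F.freeze 1).inv, fun x => ?_, fun x => ?_,
    (hs.reparam _ _).comp (hs.freeze 1).inv, fun t ht' x hx => ?_, fun t ht' i s y hy => ?_⟩
  · change F.f (1 - 0, F.g (1, x)) = _
    rw [sub_zero, F.fg]
  · change F.f (1 - 1, F.g (1, x)) = _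
    rw [sub_self, h0, hΘ']
  · change F.f (1 - t, F.g (1, x)) = _
    rw [DFam.g_eq (hf 1 h01 x hx), hf _ (hm t ht') x hx]
  · change F.f (1 - t, F.g (1, (s, γ i (1 - 0) s + y))) = (s, γ i (1 - step t) s + y)
    have e := ht 1 h01 i s y hy
    rw [step_one] at e
    rw [sub_zero, DFam.g_eq e, ht _ (hm t ht') i s y hy, step_symm]

/-- The push along a constant path. -/
theorem IsPush.const (z : ι → ℝ → R3) : IsPush O ρ (fun i _ => z i) (fun x => x) :=
  ⟨DFam.one, fun _ => rfl, fun _ => rfl, suppB_one, fun _ _ _ _ => rfl,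
    fun _ _ _ _ _ _ => rfl⟩

theorem IsPush.congr {γ γ' : ι → ℝ → ℝ → R3} {Θ : R4 → R4} (h : IsPush O ρ γ Θ)
    (hγ : ∀ i, ∀ q ∈ Icc (0 : ℝ) 1, ∀ s, γ i q s = γ' i q s) : IsPush O ρ γ' Θ := by
  obtain ⟨F, h0, h1, hs, hf, ht⟩ := h
  refine ⟨F, h0, h1, hs, hf, fun t ht' i s y hy => ?_⟩
  have e := ht t ht' i s y hy
  rw [hγ i 0 (by simp) s, hγ i (step t) (step_mem t) s] at e
  exact e

end

end Pool.Agent.Helper27.BI


end

/-! ## Helper27.BI.StM1 -/

section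

/-!
# Project BI, part (C): the two analytic statements (displacements)
-/

set_option autoImplicit false

open scoped Manifold ContDiff Topology ComplexConjugate
open Set Pool.Agent.Helper65.Barb Pool.Agent.Helper18.BI

namespace Pool.Agent.Helper27.BI

/-- MODULE PERT (perturbation of the identity).  Level preserving form.

Proof.  `G (t, (s, x)) = (t, (s, x + g (t, (s, x))))` on `ℝ × R4`.  For fixed `(t, s)` the map
`x ↦ x + g` is a bijection of `R3` (`ApproximatesLinearOn` with the identity on `univ` with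
constant `1/2 < 1`, `ApproximatesLinearOn.toHomeomorph`, or the contraction principle), so `G` is
bijective.  Its derivative is bijective at every point: it is block triangular with diagonal
blocks `1`, `1`, `1 + ∂g/∂x` and `‖∂g/∂x‖ ≤ 1/2` (`ContinuousLinearMap` of the Lipschitz bound:
`‖fderiv‖ ≤ 1/2`, e.g. `norm_fderiv_le_of_lip'`), injective in finite dimension hence bijective.
By the inverse function theorem the inverse of `G` is smooth (`ContDiffAt.to_localInverse`, or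
`OpenPartialHomeomorph.contDiffAt_symm`, the local inverse agrees with the global inverse). -/
def StPert : Prop :=
  ∀ g : ℝ × R4 → R3, ContDiff ℝ ∞ g →
    (∀ t s x y, ‖g (t, (s, x)) - g (t, (s, y))‖ ≤ 1 / 2 * ‖x - y‖) →
    ∃ F : DFam 𝓘(ℝ, R4) R4, ∀ t s x, F.f (t, (s, x)) = (s, x + g (t, (s, x)))

/-- MODULE CH (chains of displacements).  For an admissible two-parameter family of systems of
arcs there are diffeomorphisms `P a b`, depending smoothly on the two parameter values `a, b` in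
the unit square, which carry the tubes about the arcs of parameter `a` to those of parameter `b`
by translations, with `P a a = 1`, fixing `O`, and moving only points within distance `2ρ` of the
arcs with parameters on the segment from `a` to `b`.

Proof (from `StPert`).  `disp p v x = x + ∑ i, cut (nsq (x - p i) / ρ ^ 2) • v i`
(`Barb.cut` is `1` for `u ≤ 1`, `0` for `u ≥ 4`).  There is `L` (depending on `ρ`) with
`|cut (nsq (x - p) / ρ ^ 2) - cut (nsq (y - p) / ρ ^ 2)| ≤ L ‖x - y‖` (a smooth compactly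
supported function of `x - p` is Lipschitz: `ContDiff.lipschitzWith_of_hasCompactSupport`).  Choose
`N ≥ 1` such that for all `a, b` in the square, `k < N`, `s ∈ [0,1]` and `i` the step
`v = Γ i (c (k+1)) s - Γ i (c k) s`, `c k = a + (k / N) (b - a)`, has
`‖v‖ ≤ 1 / (2 L (card ι + 1))` (uniform continuity of `Γ i` on the compact
`[0,1] × [0,1] × [0,1]`; for `s ∉ [0,1]` the step is `0` by `ends`).  Put
`P a b = disp_(N-1) ∘ ... ∘ disp_0`, `disp_k` the level preserving map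
`(s, x) ↦ (s, disp (Γ · (c k) s) (v · s) x)`.
* For smooth `a b : ℝ → ℝ × ℝ` with values in the square each factor is a DFam by `StPert`;
  compose them (`DFam.comp`, induction on `k`).
* `P a a = 1`: all steps are `0`.
* Tubes: `disp_k (Γ i (c k) s + y) = Γ i (c (k+1)) s + y` if `nsq y ≤ ρ ^ 2`: the `i`-th cut is `1`,
  the `j`-th is `0` since by `sep` (and the triangle inequality for `√ nsq`)
  `|Γ i + y - Γ j| ≥ 4ρ - ρ ≥ 2ρ`; for `s ∉ [0,1]` nothing moves.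
* Points `x` with `(2ρ)^2 ≤ nsq (x - Γ i (c k) s)` for all `i, k` do not move at any step; this
  gives the last property (`c k` lies on the segment) and, by `off`, that `O` is fixed; (points
  with `s ∉ [0,1]` do not move at all).
* Support: `K = {(s, x) | s ∈ [0,1], ∃ i, ∃ (u, q) ∈ [0,1]², nsq (x - Γ i u q s) ≤ (2ρ)^2}` is
  compact (image of a compact set) and in the interior of `ball4` by `inside`. -/
def StCh : Prop :=
  ∀ (ι : Type) (_ : Fintype ι) (O : Set R4) (ρ : ℝ) (Γ : ι → ℝ → ℝ → ℝ → R3), 0 < ρ →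
    SqOk O ρ Γ →
    ∃ P : ℝ × ℝ → ℝ × ℝ → R4 → R4, (∀ q x, P q q x = x) ∧
      ∀ a b : ℝ → ℝ × ℝ, ContDiff ℝ ∞ a → ContDiff ℝ ∞ b →
        (∀ t, a t ∈ Icc (0 : ℝ) 1 ×ˢ Icc (0 : ℝ) 1) →
        (∀ t, b t ∈ Icc (0 : ℝ) 1 ×ˢ Icc (0 : ℝ) 1) →
        ∃ F : DFam 𝓘(ℝ, R4) R4, (∀ t x, F.f (t, x) = P (a t) (b t) x) ∧ SuppB F ∧
          (∀ t, ∀ x ∈ O, F.f (t, x) = x) ∧
          (∀ t i s y, nsq y ≤ ρ ^ 2 →
            F.f (t, (s, Γ i (a t).1 (a t).2 s + y)) = (s, Γ i (b t).1 (b t).2 s + y)) ∧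
          ∀ t s x, (∀ i, ∀ τ ∈ Icc (0 : ℝ) 1, (2 * ρ) ^ 2 ≤
              nsq (x - Γ i ((a t).1 + τ * ((b t).1 - (a t).1))
                ((a t).2 + τ * ((b t).2 - (a t).2)) s)) →
            F.f (t, (s, x)) = (s, x)

end Pool.Agent.Helper27.BI


end

/-! ## Helper27.BI.Square -/

section

/-!
# Project BI, part (C): existence of pushes and the square lemma
-/

set_option autoImplicit false
set_option linter.unusedSectionVars false
set_option linter.unusedVariables false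

open scoped Manifold ContDiff Topology ComplexConjugate
open Set Pool.Agent.Helper65.Barb Pool.Agent.Helper18.BI

namespace Pool.Agent.Helper27.BI

section
variable {ι : Type} {O : Set R4} {ρ : ℝ}

/-- Existence of pushes, with control of the support. -/
theorem exists_push (hCh : StCh) [inst : Fintype ι] {γ : ι → ℝ → ℝ → R3} (hρ : 0 < ρ)
    (h : SqOk O ρ (fun i _ q s => γ i q s)) :
    ∃ Θ, IsPush O ρ γ Θ ∧ ∀ s x, (∀ i, ∀ q ∈ Icc (0 : ℝ) 1, (2 * ρ) ^ 2 ≤ nsq (x - γ i q s)) →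
      Θ (s, x) = (s, x) := by
  obtain ⟨P, hP, h1⟩ := hCh ι inst O ρ _ hρ h
  obtain ⟨F, hF, hs, hf, ht, hx⟩ := h1 (fun _ => (0, 0)) (fun t => (0, step t)) contDiff_const
    (contDiff_const.prodMk contDiff_step) (fun t => by simp)
    (fun t => ⟨by simp, step_mem t⟩)
  refine ⟨fun x => F.f (1, x), ⟨F, fun x => ?_, fun x => rfl, hs, fun t _ x hx => hf t x hx,
    fun t _ i s y hy => ht t i s y hy⟩, fun s x hh => hx 1 s x ?_⟩
  · rw [hF]
    simp only [step_zero]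
    exact hP _ _
  · intro i τ hτ
    apply hh i
    simp only [sub_zero, zero_add, step_one, mul_one]
    exact hτ

/-- The square lemma: the two ways around an admissible square of systems of arcs give isotopic
pushes. -/
theorem square (hCh : StCh) [inst : Fintype ι] {Γ : ι → ℝ → ℝ → ℝ → R3} (hρ : 0 < ρ)
    (h : SqOk O ρ Γ) {Θ1 Θ2 Θ3 Θ4 : R4 → R4}
    (h1 : IsPush O ρ (fun i q => Γ i 0 q) Θ1) (h2 : IsPush O ρ (fun i u => Γ i u 1) Θ2)
    (h3 : IsPush O ρ (fun i u => Γ i u 0) Θ3) (h4 : IsPush O ρ (fun i q => Γ i 1 q) Θ4) :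
    TIso O ρ (fun i => Γ i 0 0) (fun i => Γ i 1 1) (fun x => Θ2 (Θ1 x)) (fun x => Θ4 (Θ3 x)) := by
  obtain ⟨P, hP, hPF⟩ := hCh ι inst O ρ _ hρ h
  have h01 : (0 : ℝ) ∈ Icc (0 : ℝ) 1 := by simp
  have h11 : (1 : ℝ) ∈ Icc (0 : ℝ) 1 := by simp
  -- edges
  have edge : ∀ (a b : ℝ × ℝ), a ∈ Icc (0 : ℝ) 1 ×ˢ Icc (0 : ℝ) 1 →
      b ∈ Icc (0 : ℝ) 1 ×ˢ Icc (0 : ℝ) 1 → ∀ Θ : R4 → R4,
      IsPush O ρ (fun i τ s => Γ i (a.1 + τ * (b.1 - a.1)) (a.2 + τ * (b.2 - a.2)) s) Θ →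
      TIso O ρ (fun i => Γ i a.1 a.2) (fun i => Γ i b.1 b.2) Θ (P a b) := by
    intro a b ha hb Θ hΘ
    have hc : ∀ t, (a.1 + step t * (b.1 - a.1), a.2 + step t * (b.2 - a.2)) ∈
        Icc (0 : ℝ) 1 ×ˢ Icc (0 : ℝ) 1 := by
      intro t
      obtain ⟨⟨a1, a2⟩, a3, a4⟩ := ha
      obtain ⟨⟨b1, b2⟩, b3, b4⟩ := hb
      obtain ⟨s1, s2⟩ := step_mem t
      refine ⟨⟨?_, ?_⟩, ?_, ?_⟩ <;> simp only <;> nlinarith
    have hcs : ContDiff ℝ ∞ (fun t : ℝ =>
        ((a.1 + step t * (b.1 - a.1), a.2 + step t * (b.2 - a.2)) : ℝ × ℝ)) :=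
      (contDiff_const.add (contDiff_step.mul contDiff_const)).prodMk
        (contDiff_const.add (contDiff_step.mul contDiff_const))
    obtain ⟨F, hF, hs, hf, ht, -⟩ := hPF (fun t => a) (fun t =>
      (a.1 + step t * (b.1 - a.1), a.2 + step t * (b.2 - a.2))) contDiff_const hcs
      (fun t => ha) hc
    have hpush : IsPush O ρ
        (fun i τ s => Γ i (a.1 + τ * (b.1 - a.1)) (a.2 + τ * (b.2 - a.2)) s) (P a b) := by
      refine ⟨F, fun x => ?_, fun x => ?_, hs, fun t _ x hx => hf t x hx,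
        fun t _ i s y hy => ?_⟩
      · rw [hF]
        simp only [step_zero, zero_mul, add_zero, Prod.mk.eta]
        exact hP _ _
      · rw [hF]
        simp only [step_one, one_mul, add_sub_cancel, Prod.mk.eta]
      · have e := ht t i s y hy
        simp only [zero_mul, add_zero]
        exact e
    have e := hΘ.unique hpush
    simp only [zero_mul, add_zero, one_mul, add_sub_cancel] at e
    exact e
  -- composition along two segments
  have tri : ∀ (a b c : ℝ × ℝ), a ∈ Icc (0 : ℝ) 1 ×ˢ Icc (0 : ℝ) 1 →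
      b ∈ Icc (0 : ℝ) 1 ×ˢ Icc (0 : ℝ) 1 → c ∈ Icc (0 : ℝ) 1 ×ˢ Icc (0 : ℝ) 1 →
      TIso O ρ (fun i => Γ i a.1 a.2) (fun i => Γ i c.1 c.2)
        (fun x => P b c (P a b x)) (P a c) := by
    intro a b c ha hb hc
    have hm : ∀ t, (b.1 + step t * (a.1 - b.1), b.2 + step t * (a.2 - b.2)) ∈
        Icc (0 : ℝ) 1 ×ˢ Icc (0 : ℝ) 1 := by
      intro t
      obtain ⟨⟨a1, a2⟩, a3, a4⟩ := ha
      obtain ⟨⟨b1, b2⟩, b3, b4⟩ := hb
      obtain ⟨s1, s2⟩ := step_mem t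
      refine ⟨⟨?_, ?_⟩, ?_, ?_⟩ <;> simp only <;> nlinarith
    have hms : ContDiff ℝ ∞ (fun t : ℝ =>
        ((b.1 + step t * (a.1 - b.1), b.2 + step t * (a.2 - b.2)) : ℝ × ℝ)) :=
      (contDiff_const.add (contDiff_step.mul contDiff_const)).prodMk
        (contDiff_const.add (contDiff_step.mul contDiff_const))
    obtain ⟨F, hF, hs, hf, ht, -⟩ := hPF (fun t => a) (fun t =>
      (b.1 + step t * (a.1 - b.1), b.2 + step t * (a.2 - b.2))) contDiff_const hms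
      (fun t => ha) hm
    obtain ⟨G, hG, gs, gf, gt, -⟩ := hPF (fun t =>
      (b.1 + step t * (a.1 - b.1), b.2 + step t * (a.2 - b.2))) (fun t => c) hms contDiff_const
      hm (fun t => hc)
    refine ⟨G.comp F, fun x => ?_, fun x => ?_, gs.comp hs, fun t x hx => ?_,
      fun t i s y hy => ?_⟩
    · change G.f (0, F.f (0, x)) = _
      rw [hF, hG]
      simp only [step_zero, zero_mul, add_zero, Prod.mk.eta]
    · change G.f (1, F.f (1, x)) = _
      rw [hF, hG]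
      simp only [step_one, one_mul, add_sub_cancel, Prod.mk.eta]
      rw [hP]
    · change G.f (t, F.f (t, x)) = _
      rw [hf t x hx, gf t x hx]
    · change G.f (t, F.f (t, _)) = _
      rw [ht t i s y hy, gt t i s y hy]
  have e1 := edge (0, 0) (0, 1) ⟨h01, h01⟩ ⟨h01, h11⟩ Θ1 (h1.congr (by
    intro i q hq s; simp))
  have e2 := edge (0, 1) (1, 1) ⟨h01, h11⟩ ⟨h11, h11⟩ Θ2 (h2.congr (by
    intro i q hq s; simp))
  have e3 := edge (0, 0) (1, 0) ⟨h01, h01⟩ ⟨h11, h01⟩ Θ3 (h3.congr (by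
    intro i q hq s; simp))
  have e4 := edge (1, 0) (1, 1) ⟨h11, h01⟩ ⟨h11, h11⟩ Θ4 (h4.congr (by
    intro i q hq s; simp))
  have t1 := tri (0, 0) (0, 1) (1, 1) ⟨h01, h01⟩ ⟨h01, h11⟩ ⟨h11, h11⟩
  have t2 := tri (0, 0) (1, 0) (1, 1) ⟨h01, h01⟩ ⟨h11, h01⟩ ⟨h11, h11⟩
  exact ((e2.comp e1).trans t1).trans (((e4.comp e3).trans t2).symm)

end

end Pool.Agent.Helper27.BI


end

/-! ## Helper27.BI.M_PERT -/

section

/-!
# Project BI, module PERT: perturbation of the identity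
-/

set_option autoImplicit false

open scoped Manifold ContDiff Topology ComplexConjugate
open Set Pool.Agent.Helper65.Barb Pool.Agent.Helper18.BI

namespace Pool.Agent.Helper27.BI

namespace PERT

/-- the level preserving map -/
def mp (g : ℝ × R4 → R3) (p : ℝ × R4) : ℝ × R4 := (p.1, (p.2.1, p.2.2 + g p))

theorem exists_pre (g : ℝ × R4 → R3)
    (hg : ∀ t s x y, ‖g (t, (s, x)) - g (t, (s, y))‖ ≤ 1 / 2 * ‖x - y‖) (t s : ℝ) (y : R3) :
    ∃ x : R3, x + g (t, (s, x)) = y := by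
  have hl : LipschitzWith (1 / 2) (fun x : R3 => y - g (t, (s, x))) := by
    refine LipschitzWith.of_dist_le_mul fun a b => ?_
    rw [dist_eq_norm, dist_eq_norm]
    have e : y - g (t, (s, a)) - (y - g (t, (s, b))) = g (t, (s, b)) - g (t, (s, a)) := by abel
    rw [e]
    have := hg t s b a
    rw [norm_sub_rev b a] at this
    simpa using this
  have hc : ContractingWith (1 / 2) (fun x : R3 => y - g (t, (s, x))) := ⟨by norm_num, hl⟩
  refine ⟨hc.fixedPoint, ?_⟩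
  have h := hc.fixedPoint_isFixedPt
  have h2 : y - g (t, (s, hc.fixedPoint)) = hc.fixedPoint := h
  calc hc.fixedPoint + g (t, (s, hc.fixedPoint)) =
      (y - g (t, (s, hc.fixedPoint))) + g (t, (s, hc.fixedPoint)) := by rw [h2]
    _ = y := by abel

theorem key (g : ℝ × R4 → R3)
    (hg : ∀ t s x y, ‖g (t, (s, x)) - g (t, (s, y))‖ ≤ 1 / 2 * ‖x - y‖) (t s : ℝ) (x x' : R3) :
    ‖x - x'‖ ≤ 2 * ‖(x + g (t, (s, x))) - (x' + g (t, (s, x')))‖ := by
  have h1 := hg t s x x'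
  have h2 : ‖x - x'‖ ≤ ‖(x + g (t, (s, x))) - (x' + g (t, (s, x')))‖ +
      ‖g (t, (s, x)) - g (t, (s, x'))‖ := by
    have e : x - x' = ((x + g (t, (s, x))) - (x' + g (t, (s, x')))) -
        (g (t, (s, x)) - g (t, (s, x'))) := by abel
    calc ‖x - x'‖ = ‖((x + g (t, (s, x))) - (x' + g (t, (s, x')))) -
        (g (t, (s, x)) - g (t, (s, x')))‖ := by rw [← e]
      _ ≤ _ := norm_sub_le _ _
  linarith

/-- the inverse -/
noncomputable def iv (g : ℝ × R4 → R3)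
    (hg : ∀ t s x y, ‖g (t, (s, x)) - g (t, (s, y))‖ ≤ 1 / 2 * ‖x - y‖) (q : ℝ × R4) : R3 :=
  (exists_pre g hg q.1 q.2.1 q.2.2).choose

theorem iv_spec (g : ℝ × R4 → R3)
    (hg : ∀ t s x y, ‖g (t, (s, x)) - g (t, (s, y))‖ ≤ 1 / 2 * ‖x - y‖) (q : ℝ × R4) :
    iv g hg q + g (q.1, (q.2.1, iv g hg q)) = q.2.2 :=
  (exists_pre g hg q.1 q.2.1 q.2.2).choose_spec

theorem iv_mp (g : ℝ × R4 → R3)
    (hg : ∀ t s x y, ‖g (t, (s, x)) - g (t, (s, y))‖ ≤ 1 / 2 * ‖x - y‖) (p : ℝ × R4) :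
    iv g hg (mp g p) = p.2.2 := by
  have h := iv_spec g hg (mp g p)
  have h2 := key g hg p.1 p.2.1 (iv g hg (mp g p)) p.2.2
  have h3 : iv g hg (mp g p) + g (p.1, (p.2.1, iv g hg (mp g p))) = p.2.2 + g (p.1, (p.2.1, p.2.2)) := h
  rw [h3, sub_self, norm_zero, mul_zero] at h2
  exact sub_eq_zero.1 (norm_le_zero_iff.1 h2)

theorem iv_cont (g : ℝ × R4 → R3) (hc : Continuous g)
    (hg : ∀ t s x y, ‖g (t, (s, x)) - g (t, (s, y))‖ ≤ 1 / 2 * ‖x - y‖) : Continuous (iv g hg) := by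
  rw [continuous_iff_continuousAt]
  intro q₀
  set x₀ := iv g hg q₀ with hx₀
  have h0 : x₀ + g (q₀.1, (q₀.2.1, x₀)) = q₀.2.2 := iv_spec g hg q₀
  have h1 : ∀ q, ‖iv g hg q - x₀‖ ≤ 2 * ‖q.2.2 - (x₀ + g (q.1, (q.2.1, x₀)))‖ := by
    intro q
    have := key g hg q.1 q.2.1 (iv g hg q) x₀
    rwa [iv_spec g hg q] at this
  have h2 : Filter.Tendsto (fun q : ℝ × R4 => 2 * ‖q.2.2 - (x₀ + g (q.1, (q.2.1, x₀)))‖) (𝓝 q₀)
      (𝓝 0) := by
    have hcont : Continuous (fun q : ℝ × R4 => 2 * ‖q.2.2 - (x₀ + g (q.1, (q.2.1, x₀)))‖) := by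
      fun_prop
    have h3 := hcont.tendsto q₀
    rw [h0, sub_self, norm_zero, mul_zero] at h3
    exact h3
  rw [ContinuousAt, tendsto_iff_norm_sub_tendsto_zero]
  exact squeeze_zero (fun _ => norm_nonneg _) h1 h2

/-- the homeomorphism -/
noncomputable def hm (g : ℝ × R4 → R3) (hc : Continuous g)
    (hg : ∀ t s x y, ‖g (t, (s, x)) - g (t, (s, y))‖ ≤ 1 / 2 * ‖x - y‖) :
    (ℝ × R4) ≃ₜ (ℝ × R4) where
  toFun := mp g
  invFun q := (q.1, (q.2.1, iv g hg q))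
  left_inv p := by
    show (p.1, (p.2.1, iv g hg (mp g p))) = p
    rw [iv_mp]
  right_inv q := by
    show (q.1, (q.2.1, iv g hg q + g (q.1, (q.2.1, iv g hg q)))) = q
    rw [iv_spec]
  continuous_toFun := by
    unfold mp
    fun_prop
  continuous_invFun := by
    have := iv_cont g hc hg
    fun_prop

theorem fderiv_small (g : ℝ × R4 → R3) (hs : ContDiff ℝ ∞ g)
    (hg : ∀ t s x y, ‖g (t, (s, x)) - g (t, (s, y))‖ ≤ 1 / 2 * ‖x - y‖) (p : ℝ × R4) (ξ : R3) :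
    ‖fderiv ℝ g p (0, (0, ξ))‖ ≤ 1 / 2 * ‖ξ‖ := by
  have h1 : HasFDerivAt g (fderiv ℝ g p) p :=
    (hs.differentiable (by simp) p).hasFDerivAt
  let e : R3 →L[ℝ] ℝ × R4 := (ContinuousLinearMap.inr ℝ ℝ R4).comp (ContinuousLinearMap.inr ℝ ℝ R3)
  have h2 : HasFDerivAt (fun x : R3 => ((p.1, (p.2.1, x)) : ℝ × R4)) e p.2.2 := by
    have h3 : HasFDerivAt (fun x : R3 => e x + ((p.1, (p.2.1, 0)) : ℝ × R4)) e p.2.2 :=
      e.hasFDerivAt.add_const _
    refine h3.congr_of_eventuallyEq (Filter.Eventually.of_forall fun x => ?_)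
    show ((p.1, (p.2.1, x)) : ℝ × R4) = (0, (0, x)) + (p.1, (p.2.1, 0))
    simp
  have h4 : HasFDerivAt (fun x : R3 => g (p.1, (p.2.1, x))) ((fderiv ℝ g p).comp e) p.2.2 := by
    exact HasFDerivAt.comp p.2.2 h1 h2
  have hl : LipschitzWith (1 / 2) (fun x : R3 => g (p.1, (p.2.1, x))) := by
    refine LipschitzWith.of_dist_le_mul fun a b => ?_
    rw [dist_eq_norm, dist_eq_norm]
    simpa using hg p.1 p.2.1 a b
  have h5 := h4.le_of_lipschitz hl
  have h6 := ContinuousLinearMap.le_opNorm ((fderiv ℝ g p).comp e) ξ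
  have h7 : ((fderiv ℝ g p).comp e) ξ = fderiv ℝ g p (0, (0, ξ)) := rfl
  rw [h7] at h6
  refine h6.trans (mul_le_mul_of_nonneg_right ?_ (norm_nonneg _))
  simpa using h5

theorem exists_equiv (g : ℝ × R4 → R3) (hs : ContDiff ℝ ∞ g)
    (hg : ∀ t s x y, ‖g (t, (s, x)) - g (t, (s, y))‖ ≤ 1 / 2 * ‖x - y‖) (p : ℝ × R4) :
    ∃ L : (ℝ × R4) ≃L[ℝ] (ℝ × R4), HasFDerivAt (mp g) (L : (ℝ × R4) →L[ℝ] (ℝ × R4)) p := by
  have h1 : HasFDerivAt g (fderiv ℝ g p) p :=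
    (hs.differentiable (by simp) p).hasFDerivAt
  let A : (ℝ × R4) →L[ℝ] R3 :=
    (ContinuousLinearMap.snd ℝ ℝ R3).comp (ContinuousLinearMap.snd ℝ ℝ R4) + fderiv ℝ g p
  let D : (ℝ × R4) →L[ℝ] (ℝ × R4) :=
    (ContinuousLinearMap.fst ℝ ℝ R4).prod
      (((ContinuousLinearMap.fst ℝ ℝ R3).comp (ContinuousLinearMap.snd ℝ ℝ R4)).prod A)
  have hD : HasFDerivAt (mp g) D p := by
    have a1 : HasFDerivAt (fun q : ℝ × R4 => q.1) (ContinuousLinearMap.fst ℝ ℝ R4) p :=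
      (ContinuousLinearMap.fst ℝ ℝ R4).hasFDerivAt
    have a2 : HasFDerivAt (fun q : ℝ × R4 => q.2.1)
        ((ContinuousLinearMap.fst ℝ ℝ R3).comp (ContinuousLinearMap.snd ℝ ℝ R4)) p :=
      ((ContinuousLinearMap.fst ℝ ℝ R3).comp (ContinuousLinearMap.snd ℝ ℝ R4)).hasFDerivAt
    have a3 : HasFDerivAt (fun q : ℝ × R4 => q.2.2)
        ((ContinuousLinearMap.snd ℝ ℝ R3).comp (ContinuousLinearMap.snd ℝ ℝ R4)) p :=
      ((ContinuousLinearMap.snd ℝ ℝ R3).comp (ContinuousLinearMap.snd ℝ ℝ R4)).hasFDerivAt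
    exact a1.prodMk (a2.prodMk (a3.add h1))
  have hinj : Function.Injective D := by
    rw [injective_iff_map_eq_zero]
    rintro ⟨τ, σ, ξ⟩ h
    have b1 : τ = 0 := congrArg Prod.fst h
    have b2 : σ = 0 := congrArg (fun q : ℝ × R4 => q.2.1) h
    have b3 : ξ + fderiv ℝ g p (τ, (σ, ξ)) = 0 := congrArg (fun q : ℝ × R4 => q.2.2) h
    subst b1 b2
    have b4 := fderiv_small g hs hg p ξ
    have b5 : fderiv ℝ g p (0, (0, ξ)) = -ξ := by
      rw [← add_eq_zero_iff_eq_neg']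
      exact b3
    rw [b5, norm_neg] at b4
    have b6 : ‖ξ‖ ≤ 0 := by linarith [norm_nonneg ξ]
    rw [norm_le_zero_iff.1 b6]
    rfl
  refine ⟨(LinearEquiv.ofInjectiveEndo (D : (ℝ × R4) →ₗ[ℝ] (ℝ × R4)) hinj).toContinuousLinearEquiv, ?_⟩
  have hcoe : ((LinearEquiv.ofInjectiveEndo (D : (ℝ × R4) →ₗ[ℝ] (ℝ × R4))
      hinj).toContinuousLinearEquiv : (ℝ × R4) →L[ℝ] (ℝ × R4)) = D := by
    refine ContinuousLinearMap.ext fun v => ?_
    rfl
  rw [hcoe]
  exact hD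

end PERT

open PERT in
theorem m_PERT : StPert := by
  intro g hs hg
  have hc := hs.continuous
  choose L hL using exists_equiv g hs hg
  have hmp : ContDiff ℝ ∞ (mp g) := by
    unfold mp
    fun_prop
  have hinv : ContDiff ℝ ∞ (hm g hc hg).symm :=
    (hm g hc hg).contDiff_symm (f₀' := L) hL hmp
  refine ⟨⟨fun p => (p.2.1, p.2.2 + g p), fun q => (q.2.1, iv g hg q), ?_, ?_, ?_, ?_⟩, ?_⟩
  · have h : ContDiff ℝ ∞ (fun p : ℝ × R4 => ((p.2.1, p.2.2 + g p) : R4)) := by fun_prop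
    have := h.contMDiff
    rwa [modelWithCornersSelf_prod, ← chartedSpaceSelf_prod] at this
  · have h : ContDiff ℝ ∞ (fun q : ℝ × R4 => ((q.2.1, iv g hg q) : R4)) := hinv.snd
    have := h.contMDiff
    rwa [modelWithCornersSelf_prod, ← chartedSpaceSelf_prod] at this
  · rintro t ⟨s, x⟩
    show (s, iv g hg (t, (s, x)) + g (t, (s, iv g hg (t, (s, x))))) = (s, x)
    have := iv_spec g hg (t, (s, x))
    rw [this]
  · rintro t ⟨s, x⟩
    show (s, iv g hg (mp g (t, (s, x)))) = (s, x)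
    rw [iv_mp]
  · intro t s x
    rfl

end Pool.Agent.Helper27.BI


end
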