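import Pool.Agent.Helper65.Barb.Defs
import Pool.Agent.Helper70.BI.B.P02
import Pool.Agent.Helper70.BI.B.P04
import Pool.Agent.Helper70.BI.B.P05
import Pool.Agent.Helper70.BI.B.P06

/-!
# Project BI (MP_8e98f2_gt): collected modules, part 07

The contents of the modules
* Helper18.BI.M_A1
* Helper18.BI.M_A3
* Helper18.BI.M_CI
* Helper18.BI.M_IMP
* Helper18.BI.M_FR1
* Helper27.BI.GBasic
* Helper27.BI.GAdd

in one file, so that the whole proof builds in a short time.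
-/

/-! ## Helper18.BI.M_A1 -/

section

/-!
# A1: gluing a germ along a compact set to a partial diffeomorphism
-/

set_option autoImplicit false

open scoped Manifold ContDiff Topology ComplexConjugate
open Set Pool.Agent.Helper65.Barb

namespace Pool.Agent.Helper18.BI

namespace A1

section

variable {V : Type} [NormedAddCommGroup V] [NormedSpace ℝ V]
    {E : Type} [NormedAddCommGroup E] [NormedSpace ℝ E] {H : Type} [TopologicalSpace H]
    {I : ModelWithCorners ℝ E H} {M : Type} [TopologicalSpace M] [ChartedSpace H M]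
    {F : V → M}

private theorem isOpen_good :
    IsOpen {p : V | IsLocalDiffeomorphAt 𝓘(ℝ, V) I ∞ F p} := by
  rw [isOpen_iff_mem_nhds]
  rintro p ⟨Φ, hp, hΦ⟩
  filter_upwards [Φ.open_source.mem_nhds hp] with q hq
  exact ⟨Φ, hq, hΦ⟩

private theorem image_open {Φ : PartialDiffeomorph 𝓘(ℝ, V) I V M ∞} {W : Set V} (hW : IsOpen W)
    (hWs : W ⊆ Φ.source) : IsOpen (Φ '' W) :=
  Φ.toOpenPartialHomeomorph.isOpen_image_of_subset_source hW hWs

private theorem image_open' {U : Set V} (hU : IsOpen U)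
    (hg : ∀ p ∈ U, IsLocalDiffeomorphAt 𝓘(ℝ, V) I ∞ F p) : IsOpen (F '' U) := by
  rw [isOpen_iff_mem_nhds]
  rintro y ⟨p, hp, rfl⟩
  obtain ⟨Φ, hpΦ, hΦ⟩ := hg p hp
  have h1 : IsOpen (Φ '' (U ∩ Φ.source)) :=
    image_open (hU.inter Φ.open_source) inter_subset_right
  have h2 : Φ '' (U ∩ Φ.source) ⊆ F '' U := by
    rintro z ⟨q, hq, rfl⟩
    exact ⟨q, hq.1, hΦ hq.2⟩
  refine Filter.mem_of_superset (h1.mem_nhds ?_) h2
  exact ⟨p, ⟨hp, hpΦ⟩, (hΦ hpΦ).symm⟩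

end

end A1

theorem m_A1 : StA1 := by
  intro V _ _ E _ _ H _ I M _ _ _ F L hL hloc hinj
  obtain ⟨t, ht, htinj⟩ := hinj.exists_mem_nhdsSet hL
    (fun p hp => (hloc p hp).contMDiffAt.continuousAt)
    (by
      intro p hp
      obtain ⟨Φ, hpΦ, hΦ⟩ := hloc p hp
      refine ⟨Φ.source, Φ.open_source.mem_nhds hpΦ, ?_⟩
      intro x hx y hy hxy
      apply Φ.injOn hx hy
      change Φ.toFun x = Φ.toFun y
      rw [← hΦ hx, ← hΦ hy]
      exact hxy)
  set U : Set V := interior t ∩ {p | IsLocalDiffeomorphAt 𝓘(ℝ, V) I ∞ F p} with hU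
  have hUo : IsOpen U := isOpen_interior.inter A1.isOpen_good
  have hLU : L ⊆ U := fun p hp =>
    ⟨(subset_interior_iff_mem_nhdsSet.2 ht) hp, hloc p hp⟩
  have hUg : ∀ p ∈ U, IsLocalDiffeomorphAt 𝓘(ℝ, V) I ∞ F p := fun p hp => hp.2
  have hUinj : InjOn F U := htinj.mono (inter_subset_left.trans interior_subset)
  have hleft : ∀ x ∈ U, Function.invFunOn F U (F x) = x := fun x hx =>
    hUinj (Function.invFunOn_mem ⟨x, hx, rfl⟩) hx (Function.invFunOn_eq ⟨x, hx, rfl⟩)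
  refine ⟨{ toFun := F
            invFun := Function.invFunOn F U
            source := U
            target := F '' U
            map_source' := fun x hx => ⟨x, hx, rfl⟩
            map_target' := ?_
            left_inv' := fun {x} hx => hleft x hx
            right_inv' := ?_
            open_source := hUo
            open_target := A1.image_open' hUo hUg
            contMDiffOn_toFun := ?_
            contMDiffOn_invFun := ?_ }, hLU, fun p _ => rfl⟩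
  · rintro y ⟨x, hx, rfl⟩
    rw [hleft x hx]
    exact hx
  · rintro y ⟨x, hx, rfl⟩
    rw [hleft x hx]
  · intro p hp
    exact (hUg p hp).contMDiffAt.contMDiffWithinAt
  · rintro y ⟨p, hp, rfl⟩
    obtain ⟨Φ, hpΦ, hΦ⟩ := hUg p hp
    have h1 : IsOpen (Φ '' (U ∩ Φ.source)) :=
      A1.image_open (hUo.inter Φ.open_source) inter_subset_right
    have hmem : F p ∈ Φ '' (U ∩ Φ.source) := ⟨p, ⟨hp, hpΦ⟩, (hΦ hpΦ).symm⟩
    have hFt : F p ∈ Φ.target := by
      rw [hΦ hpΦ]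
      exact Φ.map_source hpΦ
    have h2 : ContMDiffAt I 𝓘(ℝ, V) ∞ Φ.invFun (F p) :=
      Φ.contMDiffOn_invFun.contMDiffAt (Φ.open_target.mem_nhds hFt)
    refine (h2.congr_of_eventuallyEq ?_).contMDiffWithinAt
    filter_upwards [h1.mem_nhds hmem] with z hz
    obtain ⟨q, hq, rfl⟩ := hz
    change Function.invFunOn F U (Φ q) = Φ.invFun (Φ q)
    rw [← hΦ hq.2, hleft q hq.1, hΦ hq.2]
    exact (Φ.left_inv hq.2).symm

end Pool.Agent.Helper18.BI


end

/-! ## Helper18.BI.M_A3 -/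

section

/-!
# Project BI (MP_8e98f2_gt), module A3: the family lemma
-/

set_option autoImplicit false

open scoped Manifold ContDiff Topology ComplexConjugate
open Set Pool.Agent.Helper65.Barb

namespace Pool.Agent.Helper18.BI

namespace A3

theorem inj_of {F : R4 → R4} {G : R4 → R4} (h : ∀ p, G (F p) = p) : Function.Injective F := by
  intro a b hab
  rw [← h a, ← h b, hab]

theorem mapsTo {L : Set R4} {T T' : R4 → R4} (h : ∀ p, T' (T p) = p) (ho : ∀ p, p ∉ L → T p = p) :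
    MapsTo T L L := by
  intro p hp
  by_contra h1
  have h2 := ho _ h1
  have h3 := inj_of h h2
  rw [h3] at h1
  exact h1 hp

variable {E : Type} [NormedAddCommGroup E] [NormedSpace ℝ E] {H : Type} [TopologicalSpace H]
  {I : ModelWithCorners ℝ E H} {M : Type} [TopologicalSpace M] [ChartedSpace H M]

/-- smoothness of the family -/
theorem smooth [T2Space M] {J : ℝ × R4 → M} {L : Set R4}
    (δ : PartialDiffeomorph 𝓘(ℝ, ℝ × R4) (𝓘(ℝ, ℝ).prod I) (ℝ × R4) (ℝ × M) ∞)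
    (hδL : Icc (0 : ℝ) 1 ×ˢ L ⊆ δ.source) (hδ : ∀ p ∈ δ.source, δ p = (p.1, J p))
    (hLc : IsCompact L) {S : R4 → R4} (hS : ContDiff ℝ ∞ S) (hSL : MapsTo S L L)
    (hSo : ∀ p, p ∉ L → S p = p)
    (h1 : ∀ t ∈ Icc (0 : ℝ) 1, ∀ p ∈ L, imp (fun p => J (t, p)) L S (J (t, p)) = J (t, S p))
    (h2 : ∀ t ∈ Icc (0 : ℝ) 1, ∀ y, y ∉ (fun p => J (t, p)) '' L → imp (fun p => J (t, p)) L S y = y) :
    ContMDiff (𝓘(ℝ, ℝ).prod I) I ∞
      (fun q : ℝ × M => imp (fun p => J (Pool.Agent.Helper65.Barb.step q.1, p)) L S q.2) := by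
  have hst : ContMDiff (𝓘(ℝ, ℝ).prod I) (𝓘(ℝ, ℝ).prod I) ∞
      (fun q : ℝ × M => (Pool.Agent.Helper65.Barb.step q.1, q.2)) :=
    (contDiff_step.contMDiff.comp contMDiff_fst).prodMk contMDiff_snd
  intro q₀
  by_cases hc : (Pool.Agent.Helper65.Barb.step q₀.1, q₀.2) ∈ δ '' (Icc (0 : ℝ) 1 ×ˢ L)
  · -- inside the target
    have htar : (Pool.Agent.Helper65.Barb.step q₀.1, q₀.2) ∈ δ.target := by
      obtain ⟨z, hz, hz2⟩ := hc
      rw [← hz2]
      exact δ.map_source (hδL hz)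
    have hO : {q : ℝ × M | (Pool.Agent.Helper65.Barb.step q.1, q.2) ∈ δ.target} ∈ 𝓝 q₀ :=
      (δ.open_target.preimage hst.continuous).mem_nhds htar
    have hmap : ∀ z ∈ δ.source, ((z.1, S z.2) : ℝ × R4) ∈ δ.source ∨ z.1 ∉ Icc (0 : ℝ) 1 := by
      intro z hz
      by_cases hz1 : z.1 ∈ Icc (0 : ℝ) 1
      · left
        by_cases hz2 : z.2 ∈ L
        · exact hδL ⟨hz1, hSL hz2⟩
        · rw [hSo _ hz2]
          exact hz
      · right
        exact hz1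
    have heq : (fun q : ℝ × M => imp (fun p => J (Pool.Agent.Helper65.Barb.step q.1, p)) L S q.2) =ᶠ[𝓝 q₀]
        fun q : ℝ × M => (δ ((δ.symm (Pool.Agent.Helper65.Barb.step q.1, q.2)).1,
          S (δ.symm (Pool.Agent.Helper65.Barb.step q.1, q.2)).2)).2 := by
      filter_upwards [hO] with q hq
      have hq' : (Pool.Agent.Helper65.Barb.step q.1, q.2) ∈ δ.target := hq
      set z := δ.symm (Pool.Agent.Helper65.Barb.step q.1, q.2) with hz
      have hzs : z ∈ δ.source := δ.toPartialEquiv.map_target hq'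
      have hzr : δ z = (Pool.Agent.Helper65.Barb.step q.1, q.2) := δ.toPartialEquiv.right_inv hq'
      have hzd := hδ z hzs
      rw [hzr] at hzd
      have e1 : z.1 = Pool.Agent.Helper65.Barb.step q.1 := (congrArg Prod.fst hzd).symm
      have e2 : J z = q.2 := (congrArg Prod.snd hzd).symm
      have hmem : Pool.Agent.Helper65.Barb.step q.1 ∈ Icc (0 : ℝ) 1 := step_mem q.1
      by_cases hzL : z.2 ∈ L
      · have h3 := h1 _ hmem z.2 hzL
        have e3 : (Pool.Agent.Helper65.Barb.step q.1, z.2) = z := by rw [← e1]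
        rw [e3, e2] at h3
        have e4 : ((z.1, S z.2) : ℝ × R4) ∈ δ.source := by
          apply hδL
          refine ⟨?_, hSL hzL⟩
          show z.1 ∈ Icc (0 : ℝ) 1
          rw [e1]
          exact hmem
        rw [hδ _ e4]
        show imp _ L S q.2 = J (z.1, S z.2)
        rw [h3, e1]
      · have h3 : q.2 ∉ (fun p => J (Pool.Agent.Helper65.Barb.step q.1, p)) '' L := by
          rintro ⟨p, hp, hp2⟩
          have e5 : ((Pool.Agent.Helper65.Barb.step q.1, p) : ℝ × R4) ∈ δ.source := hδL ⟨hmem, hp⟩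
          have e6 : δ (Pool.Agent.Helper65.Barb.step q.1, p) = δ z := by
            rw [hzr, hδ _ e5]
            exact Prod.ext rfl hp2
          have e7 := δ.toPartialEquiv.injOn e5 hzs e6
          apply hzL
          rw [← e7]
          exact hp
        rw [h2 _ hmem _ h3, hSo _ hzL]
        show q.2 = (δ z).2
        rw [hzr]
    refine ContMDiffAt.congr_of_eventuallyEq ?_ heq
    have hsymm : ContMDiffAt (𝓘(ℝ, ℝ).prod I) 𝓘(ℝ, ℝ × R4) ∞ δ.symm
        (Pool.Agent.Helper65.Barb.step q₀.1, q₀.2) :=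
      δ.contMDiffOn_invFun.contMDiffAt (δ.open_target.mem_nhds htar)
    have hmid : ContMDiff 𝓘(ℝ, ℝ × R4) 𝓘(ℝ, ℝ × R4) ∞ (fun z : ℝ × R4 => ((z.1, S z.2) : ℝ × R4)) :=
      (contDiff_fst.prodMk (hS.comp contDiff_snd)).contMDiff
    have hs0 : ((δ.symm (Pool.Agent.Helper65.Barb.step q₀.1, q₀.2)).1,
        S (δ.symm (Pool.Agent.Helper65.Barb.step q₀.1, q₀.2)).2) ∈ δ.source := by
      have hzs : δ.symm (Pool.Agent.Helper65.Barb.step q₀.1, q₀.2) ∈ δ.source :=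
        δ.toPartialEquiv.map_target htar
      rcases hmap _ hzs with h | h
      · exact h
      · exfalso
        apply h
        have hzr : δ (δ.symm (Pool.Agent.Helper65.Barb.step q₀.1, q₀.2)) =
          (Pool.Agent.Helper65.Barb.step q₀.1, q₀.2) := δ.toPartialEquiv.right_inv htar
        have hzd := hδ _ hzs
        rw [hzr] at hzd
        rw [← (congrArg Prod.fst hzd)]
        exact step_mem q₀.1
    have hδs : ContMDiffAt 𝓘(ℝ, ℝ × R4) (𝓘(ℝ, ℝ).prod I) ∞ δ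
        ((δ.symm (Pool.Agent.Helper65.Barb.step q₀.1, q₀.2)).1,
          S (δ.symm (Pool.Agent.Helper65.Barb.step q₀.1, q₀.2)).2) :=
      δ.contMDiffOn_toFun.contMDiffAt (δ.open_source.mem_nhds hs0)
    have c1 : ContMDiffAt (𝓘(ℝ, ℝ).prod I) 𝓘(ℝ, ℝ × R4) ∞
        (fun q : ℝ × M => δ.symm (Pool.Agent.Helper65.Barb.step q.1, q.2)) q₀ :=
      ContMDiffAt.comp q₀ hsymm (hst q₀)
    have c2 : ContMDiffAt (𝓘(ℝ, ℝ).prod I) 𝓘(ℝ, ℝ × R4) ∞
        (fun q : ℝ × M => (((δ.symm (Pool.Agent.Helper65.Barb.step q.1, q.2)).1,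
          S (δ.symm (Pool.Agent.Helper65.Barb.step q.1, q.2)).2) : ℝ × R4)) q₀ :=
      ContMDiffAt.comp q₀ (hmid _) c1
    have c3 : ContMDiffAt (𝓘(ℝ, ℝ).prod I) (𝓘(ℝ, ℝ).prod I) ∞
        (fun q : ℝ × M => δ ((δ.symm (Pool.Agent.Helper65.Barb.step q.1, q.2)).1,
          S (δ.symm (Pool.Agent.Helper65.Barb.step q.1, q.2)).2)) q₀ :=
      ContMDiffAt.comp q₀ hδs c2
    exact ContMDiffAt.comp q₀ (contMDiff_snd _) c3
  · -- away from the image
    have hcl : IsClosed (δ '' (Icc (0 : ℝ) 1 ×ˢ L)) :=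
      ((isCompact_Icc.prod hLc).image_of_continuousOn
        (δ.contMDiffOn_toFun.continuousOn.mono hδL)).isClosed
    have hO : {q : ℝ × M | (Pool.Agent.Helper65.Barb.step q.1, q.2) ∉ δ '' (Icc (0 : ℝ) 1 ×ˢ L)} ∈ 𝓝 q₀ :=
      (hcl.isOpen_compl.preimage hst.continuous).mem_nhds hc
    refine ContMDiffAt.congr_of_eventuallyEq contMDiffAt_snd ?_
    filter_upwards [hO] with q hq
    apply h2 _ (step_mem q.1)
    rintro ⟨p, hp, hp2⟩
    apply hq
    have e5 : ((Pool.Agent.Helper65.Barb.step q.1, p) : ℝ × R4) ∈ Icc (0 : ℝ) 1 ×ˢ L :=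
      ⟨step_mem q.1, hp⟩
    refine ⟨_, e5, ?_⟩
    rw [hδ _ (hδL e5)]
    exact Prod.ext rfl hp2

/-- the inverse -/
theorem inv_aux {F : R4 → M} {L : Set R4} {T T' : R4 → R4}
    (h1 : ∀ p ∈ L, imp F L T (F p) = F (T p)) (h2 : ∀ y, y ∉ F '' L → imp F L T y = y)
    (h1' : ∀ p ∈ L, imp F L T' (F p) = F (T' p)) (h2' : ∀ y, y ∉ F '' L → imp F L T' y = y)
    (hm : MapsTo T' L L) (h : ∀ p, T (T' p) = p) (y : M) : imp F L T (imp F L T' y) = y := by
  by_cases hy : y ∈ F '' L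
  · obtain ⟨p, hp, rfl⟩ := hy
    rw [h1' p hp, h1 _ (hm hp), h]
  · rw [h2' y hy, h2 y hy]

end A3

theorem m_A3 (h1 : StA1) (h2 : StA2) (hi : StImp) : StA3 := by
  intro E _ _ H _ I M _ _ _ J L T T' hL hF hT
  obtain ⟨hTs, hTs', hTT', hT'T, hTo⟩ := hT
  have hTo' : ∀ p, p ∉ L → T' p = p := by
    intro p hp
    have h3 := hT'T p
    rw [hTo p hp] at h3
    exact h3
  have hm : MapsTo T L L := A3.mapsTo hT'T hTo
  have hm' : MapsTo T' L L := A3.mapsTo hTT' hTo'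
  have hloc := h2 E H I M J L hF
  have hinj : InjOn (fun q : ℝ × R4 => (q.1, J q)) (Icc (0 : ℝ) 1 ×ˢ L) := by
    rintro ⟨t, p⟩ ⟨ht, hp⟩ ⟨t', p'⟩ ⟨ht', hp'⟩ h
    have e1 : t = t' := congrArg Prod.fst h
    have e2 : J (t, p) = J (t', p') := congrArg Prod.snd h
    subst e1
    have e3 : p = p' := (hF.2 t ht).2 hp hp' e2
    rw [e3]
  obtain ⟨δ, hδL, hδ⟩ := h1 (ℝ × R4) (ℝ × E) (ModelProd ℝ H) (𝓘(ℝ, ℝ).prod I) (ℝ × M)
    (fun q : ℝ × R4 => (q.1, J q)) (Icc (0 : ℝ) 1 ×ˢ L) (isCompact_Icc.prod hL) hloc hinj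
  have himp := fun (t : ℝ) (ht : t ∈ Icc (0 : ℝ) 1) (S : R4 → R4) =>
    hi E H I M (fun p => J (t, p)) L S (hF.2 t ht).2
  have k1 : ∀ S : R4 → R4, ∀ t ∈ Icc (0 : ℝ) 1, ∀ p ∈ L,
      imp (fun p => J (t, p)) L S (J (t, p)) = J (t, S p) := fun S t ht p hp => (himp t ht S).1 p hp
  have k2 : ∀ S : R4 → R4, ∀ t ∈ Icc (0 : ℝ) 1, ∀ y, y ∉ (fun p => J (t, p)) '' L →
      imp (fun p => J (t, p)) L S y = y := fun S t ht y hy => (himp t ht S).2.1 y hy
  refine ⟨⟨fun q => imp (fun p => J (Pool.Agent.Helper65.Barb.step q.1, p)) L T q.2,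
    fun q => imp (fun p => J (Pool.Agent.Helper65.Barb.step q.1, p)) L T' q.2,
    A3.smooth δ hδL hδ hL hTs hm hTo (k1 T) (k2 T),
    A3.smooth δ hδL hδ hL hTs' hm' hTo' (k1 T') (k2 T'), ?_, ?_⟩, ?_, ?_, ?_⟩
  · intro t x
    exact A3.inv_aux (k1 T _ (step_mem t)) (k2 T _ (step_mem t)) (k1 T' _ (step_mem t))
      (k2 T' _ (step_mem t)) hm' hTT' x
  · intro t x
    exact A3.inv_aux (k1 T' _ (step_mem t)) (k2 T' _ (step_mem t)) (k1 T _ (step_mem t))
      (k2 T _ (step_mem t)) hm hT'T x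
  · refine ⟨J '' (Icc (0 : ℝ) 1 ×ˢ L), ?_, ?_⟩
    · obtain ⟨W, -, hW, hJ⟩ := hF.1
      exact (isCompact_Icc.prod hL).image_of_continuousOn (hJ.continuousOn.mono hW)
    · intro t x hx
      apply k2 T _ (step_mem t)
      rintro ⟨p, hp, rfl⟩
      exact hx ⟨_, ⟨step_mem t, hp⟩, rfl⟩
  · intro x
    show imp (fun p => J (Pool.Agent.Helper65.Barb.step 0, p)) L T x = _
    rw [step_of_nonpos le_rfl]
  · intro x
    show imp (fun p => J (Pool.Agent.Helper65.Barb.step 1, p)) L T x = _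
    rw [step_of_one_le le_rfl]

end Pool.Agent.Helper18.BI


end

/-! ## Helper18.BI.M_CI -/

section

/-!
# Module CI: algebra of compactly supported isotopy
-/

set_option autoImplicit false

open scoped Manifold ContDiff Topology ComplexConjugate
open Set Pool.Agent.Helper65.Barb

namespace Pool.Agent.Helper18.BI

namespace CI

section
variable {E : Type*} [NormedAddCommGroup E] [NormedSpace ℝ E] {H : Type*} [TopologicalSpace H]
  {I : ModelWithCorners ℝ E H} {M : Type*} [TopologicalSpace M] [ChartedSpace H M]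

/-- compactly supported family -/
private def Sup (F : DFam I M) : Prop :=
  ∃ C : Set M, IsCompact C ∧ ∀ t x, x ∉ C → F.f (t, x) = x

private theorem sup_one : Sup (DFam.one : DFam I M) := ⟨∅, isCompact_empty, fun _ _ _ => rfl⟩

private theorem sup_inv {F : DFam I M} (h : Sup F) : Sup F.inv := by
  obtain ⟨C, hC, h⟩ := h
  refine ⟨C, hC, fun t x hx => ?_⟩
  have h1 := F.gf t x
  rw [h t x hx] at h1
  exact h1

private theorem sup_comp {F G : DFam I M} (hF : Sup F) (hG : Sup G) : Sup (F.comp G) := by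
  obtain ⟨C, hC, h⟩ := hF
  obtain ⟨C', hC', h'⟩ := hG
  refine ⟨C ∪ C', hC.union hC', fun t x hx => ?_⟩
  have h1 : G.f (t, x) = x := h' t x (fun hx' => hx (Or.inr hx'))
  have h2 : F.f (t, x) = x := h t x (fun hx' => hx (Or.inl hx'))
  simp only [DFam.comp]
  rw [h1, h2]

private theorem sup_reparam {F : DFam I M} (hF : Sup F) (τ : ℝ → ℝ) (hτ : ContDiff ℝ ∞ τ) :
    Sup (F.reparam τ hτ) := by
  obtain ⟨C, hC, h⟩ := hF
  exact ⟨C, hC, fun t x hx => h _ x hx⟩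

private theorem sup_freeze {F : DFam I M} (hF : Sup F) (t₀ : ℝ) : Sup (F.freeze t₀) :=
  sup_reparam hF _ _

private theorem c_one : CIsot I (fun x : M => x) (fun x => x) :=
  ⟨DFam.one, sup_one, fun _ => rfl, fun _ => rfl⟩

private theorem c_symm {φ ψ : M → M} (h : CIsot I φ ψ) : CIsot I ψ φ := by
  obtain ⟨F, hF, h0, h1⟩ := h
  refine ⟨F.reparam (fun t => 1 - t) (contDiff_const.sub contDiff_id), sup_reparam hF _ _, ?_, ?_⟩
  · intro x; simp [DFam.reparam, h1]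
  · intro x; simp [DFam.reparam, h0]

private theorem c_comp {φ ψ φ' ψ' : M → M} (h : CIsot I φ ψ) (h' : CIsot I φ' ψ') :
    CIsot I (fun x => φ (φ' x)) (fun x => ψ (ψ' x)) := by
  obtain ⟨F, hF, h0, h1⟩ := h
  obtain ⟨F', hF', h0', h1'⟩ := h'
  refine ⟨F.comp F', sup_comp hF hF', ?_, ?_⟩
  · intro x; simp [DFam.comp, h0, h0']
  · intro x; simp [DFam.comp, h1, h1']

private theorem c_inv {φ ψ φ' ψ' : M → M} (h : CIsot I φ ψ) (hφ : ∀ x, φ (φ' x) = x)
    (hψ : ∀ x, ψ (ψ' x) = x) : CIsot I φ' ψ' := by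
  obtain ⟨F, hF, h0, h1⟩ := h
  refine ⟨F.inv, sup_inv hF, ?_, ?_⟩
  · intro x
    have := F.gf 0 (φ' x)
    rw [h0, hφ] at this
    exact this
  · intro x
    have := F.gf 1 (ψ' x)
    rw [h1, hψ] at this
    exact this

private theorem c_trans {φ ψ χ : M → M} (h : CIsot I φ ψ) (h' : CIsot I ψ χ) : CIsot I φ χ := by
  obtain ⟨F, hF, h0, h1⟩ := h
  obtain ⟨G, hG, g0, g1⟩ := h'
  refine ⟨G.comp ((F.freeze 1).inv.comp F), sup_comp hG (sup_comp (sup_inv (sup_freeze hF 1)) hF),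
    ?_, ?_⟩
  · intro x
    have e1 : G.f (0, F.g (1, F.f (0, x))) = F.f (1, F.g (1, F.f (0, x))) := by
      rw [g0, h1]
    simp only [DFam.comp, DFam.freeze, DFam.reparam, DFam.inv]
    rw [e1, F.fg, h0]
  · intro x
    simp only [DFam.comp, DFam.freeze, DFam.reparam, DFam.inv]
    rw [F.gf, g1]

private theorem c_exists_inv {φ : M → M} (h : CIsot I φ φ) :
    ∃ φ' : M → M, CIsot I φ' φ' ∧ (∀ x, φ (φ' x) = x) ∧ ∀ x, φ' (φ x) = x := by
  obtain ⟨F, hF, h0, h1⟩ := h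
  refine ⟨fun x => F.g (0, x), ⟨F.inv.freeze 0, sup_freeze (sup_inv hF) 0, fun x => rfl,
    fun x => rfl⟩, ?_, ?_⟩
  · intro x
    have := F.fg 0 x
    rwa [h0] at this
  · intro x
    have := F.gf 0 x
    rwa [h0] at this

/-- conjugation of a family -/
private def conjFam (F : DFam I M) (Ψ Ψ' : M → M) (h1 : ContMDiff I I ∞ Ψ)
    (h2 : ContMDiff I I ∞ Ψ') (h3 : ∀ x, Ψ (Ψ' x) = x) (h4 : ∀ x, Ψ' (Ψ x) = x) : DFam I M where
  f p := Ψ (F.f (p.1, Ψ' p.2))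
  g p := Ψ (F.g (p.1, Ψ' p.2))
  smooth_f := h1.comp (F.smooth_f.comp (contMDiff_fst.prodMk (h2.comp contMDiff_snd)))
  smooth_g := h1.comp (F.smooth_g.comp (contMDiff_fst.prodMk (h2.comp contMDiff_snd)))
  fg t x := by simp only [h4, F.fg, h3]
  gf t x := by simp only [h4, F.gf, h3]

private theorem c_conj {φ ψ Ψ Ψ' : M → M} (h : CIsot I φ ψ) (h1 : ContMDiff I I ∞ Ψ)
    (h2 : ContMDiff I I ∞ Ψ') (h3 : ∀ x, Ψ (Ψ' x) = x) (h4 : ∀ x, Ψ' (Ψ x) = x) :
    CIsot I (fun x => Ψ (φ (Ψ' x))) (fun x => Ψ (ψ (Ψ' x))) := by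
  obtain ⟨F, ⟨C, hC, hF⟩, e0, e1⟩ := h
  refine ⟨conjFam F Ψ Ψ' h1 h2 h3 h4, ⟨Ψ '' C, hC.image h1.continuous, fun t x hx => ?_⟩, ?_, ?_⟩
  · have hx' : Ψ' x ∉ C := fun hx' => hx ⟨Ψ' x, hx', h3 x⟩
    change Ψ (F.f (t, Ψ' x)) = x
    rw [hF t _ hx', h3]
  · intro x
    change Ψ (F.f (0, Ψ' x)) = _
    rw [e0]
  · intro x
    change Ψ (F.f (1, Ψ' x)) = _
    rw [e1]

end

end CI

theorem m_CI : StCI := by
  intro E _ _ H _ I M _ _
  refine ⟨CI.c_one, fun φ ψ h => CI.c_symm h, fun φ ψ h => CI.c_trans h (CI.c_symm h),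
    fun φ ψ χ h h' => CI.c_trans h h', fun φ ψ φ' ψ' h h' => CI.c_comp h h',
    fun φ ψ φ' ψ' h h1 h2 => CI.c_inv h h1 h2, fun φ h => CI.c_exists_inv h,
    fun φ ψ Ψ Ψ' h h1 h2 h3 h4 => CI.c_conj h h1 h2 h3 h4, ?_, ?_⟩
  · rintro φ ψ ⟨F, -, h0, h1⟩
    exact ⟨F, h0, h1⟩
  · rintro hM φ ψ ⟨F, h0, h1⟩
    exact ⟨F, ⟨univ, isCompact_univ, fun t x hx => absurd (mem_univ x) hx⟩, h0, h1⟩

end Pool.Agent.Helper18.BI


end

/-! ## Helper18.BI.M_IMP -/

section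

/-!
# Project BI (MP_8e98f2_gt): the elementary calculus of `imp`, and pushing isotopies
-/

set_option autoImplicit false

open scoped Manifold ContDiff Topology ComplexConjugate
open Set Pool.Agent.Helper65.Barb

namespace Pool.Agent.Helper18.BI

private theorem imp_image {M : Type} {F : R4 → M} {K : Set R4} (hF : InjOn F K) (T : R4 → R4)
    {p : R4} (hp : p ∈ K) : imp F K T (F p) = F (T p) := by
  have h : ∃ q ∈ K, F q = F p := ⟨p, hp, rfl⟩
  have h1 := h.choose_spec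
  have h2 : h.choose = p := hF h1.1 hp h1.2
  unfold imp
  rw [dif_pos h, h2]

private theorem imp_off {M : Type} {F : R4 → M} {K : Set R4} (T : R4 → R4)
    {y : M} (hy : y ∉ F '' K) : imp F K T y = y := by
  unfold imp
  rw [dif_neg]
  rintro ⟨q, hq, hqy⟩
  exact hy ⟨q, hq, hqy⟩

/-- the calculus of `imp` -/
theorem m_Imp : StImp := by
  intro E _ _ H _ I M _ _ _ F K T hF
  refine ⟨fun p hp => imp_image hF T hp, fun y hy => imp_off T hy, ?_, ?_, ?_, ?_, ?_, ?_⟩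
  · -- enlarging the support
    intro K₀ hK hT
    funext y
    by_cases hy : y ∈ F '' K
    · obtain ⟨p, hp, rfl⟩ := hy
      rw [imp_image hF T hp]
      by_cases hp0 : p ∈ K₀
      · rw [imp_image (hF.mono hK) T hp0]
      · rw [hT p hp0, imp_off]
        rintro ⟨q, hq, hqp⟩
        have h := hF (hK hq) hp hqp
        rw [h] at hq
        exact hp0 hq
    · rw [imp_off T hy, imp_off]
      intro h
      exact hy (image_mono hK h)
  · -- products
    intro S hT y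
    by_cases hy : y ∈ F '' K
    · obtain ⟨p, hp, rfl⟩ := hy
      rw [imp_image hF _ hp, imp_image hF T hp, imp_image hF S (hT hp)]
    · rw [imp_off _ hy, imp_off T hy, imp_off S hy]
  · -- comparison with `push`
    intro δ hK hδ hm hT
    funext y
    by_cases hy : y ∈ F '' K
    · obtain ⟨p, hp, rfl⟩ := hy
      rw [imp_image hF T hp, ← hδ p hp, push_of_mem δ T (hK hp), hδ _ (hm hp)]
    · have hy' : y ∉ δ '' K := by
        rintro ⟨q, hq, hqy⟩
        exact hy ⟨q, hq, by rw [← hδ q hq, hqy]⟩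
      rw [imp_off T hy, push_of_notMem δ T hK hT hy']
  · -- congruence
    intro F' hFF hm
    have hF' : InjOn F' K := hF.congr hFF
    funext y
    by_cases hy : y ∈ F '' K
    · obtain ⟨p, hp, rfl⟩ := hy
      rw [imp_image hF T hp, hFF hp, imp_image hF' T hp, hFF (hm hp)]
    · have hy' : y ∉ F' '' K := by
        rintro ⟨q, hq, hqy⟩
        exact hy ⟨q, hq, by rw [hFF hq, hqy]⟩
      rw [imp_off T hy, imp_off T hy']
  · -- conjugation
    intro Ψ Ψ' h1 h2 y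
    have hinj : InjOn (fun p => Ψ (F p)) K := by
      intro p hp q hq hpq
      apply hF hp hq
      have h := congrArg Ψ' hpq
      simpa only [h2] using h
    by_cases hy : y ∈ (fun p => Ψ (F p)) '' K
    · obtain ⟨p, hp, rfl⟩ := hy
      rw [imp_image hinj T hp]
      simp only [h2]
      rw [imp_image hF T hp]
    · have hy' : Ψ' y ∉ F '' K := by
        rintro ⟨q, hq, hqy⟩
        exact hy ⟨q, hq, by simp only [hqy, h1]⟩
      rw [imp_off T hy, imp_off T hy', h1]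
  · -- reparametrization
    intro κ L hκ hKL hm
    have hκK : ∀ p ∈ L, κ p ∈ K := fun p hp => hKL ▸ mem_image_of_mem κ hp
    have hinj : InjOn (fun p => F (κ p)) L := by
      intro p hp q hq hpq
      exact hκ hp hq (hF (hκK p hp) (hκK q hq) hpq)
    funext y
    by_cases hy : y ∈ (fun p => F (κ p)) '' L
    · obtain ⟨p, hp, rfl⟩ := hy
      rw [imp_image hinj T hp]
      simp only
      rw [imp_image hF _ (hκK p hp), imp_image hκ T hp]
    · have hy' : y ∉ F '' K := by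
        rintro ⟨q, hq, hqy⟩
        rw [← hKL] at hq
        obtain ⟨p, hp, rfl⟩ := hq
        exact hy ⟨p, hp, hqy⟩
      rw [imp_off T hy, imp_off _ hy']

/-- pushing forward an isotopy -/
theorem m_Push (h1 : StA1) : StPush := by
  intro E _ _ H _ I M _ _ _ F L Φ hL hF hΦ
  obtain ⟨δ, hδs, hδ⟩ := h1 R4 E H I M F L hL hF.1 hF.2
  have hpush : ∀ t : ℝ, imp F L (fun p => Φ.f (t, p)) = push δ (fun p => Φ.f (t, p)) := by
    intro t
    exact (m_Imp E H I M F L (fun p => Φ.f (t, p)) hF.2).2.2.2.2.1 δ hδs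
      (fun p hp => hδ p (hδs hp)) (fun p hp => Φ.mapsTo hΦ t hp) (fun p hp => hΦ t p hp)
  refine ⟨Φ.push δ hL hδs hΦ, ⟨δ '' L, ?_, ?_⟩, ?_, ?_⟩
  · exact hL.image_of_continuousOn (δ.contMDiffOn.continuousOn.mono hδs)
  · intro t x hx
    exact push_of_notMem δ _ hδs (fun p hp => hΦ t p hp) hx
  · intro x
    rw [hpush 0]
    rfl
  · intro x
    rw [hpush 1]
    rfl

end Pool.Agent.Helper18.BI


end

/-! ## Helper18.BI.M_FR1 -/

section

/-!
# Project BI (MP_8e98f2_gt), module FR1: fibrewise linear maps along the neck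
-/

set_option autoImplicit false

open scoped Manifold ContDiff Topology ComplexConjugate
open Set Pool.Agent.Helper65.Barb

namespace Pool.Agent.Helper18.BI

namespace FR1

/-- joint smoothness -/
theorem smooth_joint (Γ : ℝ × ℝ → E3) (h : ContDiff ℝ ∞ Γ) :
    ContDiff ℝ ∞ (fun q : ℝ × R4 => fib (fun a => Γ (q.1, a)) q.2) := by
  have h1 : ContDiff ℝ ∞ (fun q : ℝ × R4 => Γ (q.1, q.2.2.1)) :=
    h.comp (contDiff_fst.prodMk (contDiff_fst.comp (contDiff_snd.comp contDiff_snd)))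
  have h2 : ContDiff ℝ ∞ (fun q : ℝ × R4 => ((q.2.1 - 1 / 2, q.2.2.2) : ℝ × ℂ)) :=
    ((contDiff_fst.comp contDiff_snd).sub contDiff_const).prodMk
      (contDiff_snd.comp (contDiff_snd.comp contDiff_snd))
  have h3 : ContDiff ℝ ∞ (fun q : ℝ × R4 => Γ (q.1, q.2.2.1) (q.2.1 - 1 / 2, q.2.2.2)) :=
    h1.clm_apply h2
  exact (contDiff_const.add (contDiff_fst.comp h3)).prodMk
    ((contDiff_fst.comp (contDiff_snd.comp contDiff_snd)).prodMk (contDiff_snd.comp h3))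

theorem smooth (G : ℝ → E3) (h : ContDiff ℝ ∞ G) : ContDiff ℝ ∞ (fib G) := by
  have h1 := smooth_joint (fun q => G q.2) (h.comp contDiff_snd)
  exact h1.comp ((contDiff_const (c := (0 : ℝ))).prodMk contDiff_id)

theorem inj (G : ℝ → E3) (h : ∀ a v, G a v = 0 → v = 0) : Function.Injective (fib G) := by
  rintro ⟨s, a, w⟩ ⟨s', a', w'⟩ hpq
  simp only [fib, Prod.mk.injEq] at hpq
  obtain ⟨h1, h2, h3⟩ := hpq
  subst h2
  have h4 : G a (s - 1 / 2, w) = G a (s' - 1 / 2, w') := Prod.ext (add_left_cancel h1) h3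
  have h5 : G a ((s - 1 / 2, w) - (s' - 1 / 2, w')) = 0 := by
    rw [map_sub, h4, sub_self]
  have h6 := h a _ h5
  have h7 := congrArg Prod.fst h6
  have h8 := congrArg Prod.snd h6
  simp only [Prod.fst_sub, Prod.fst_zero] at h7
  simp only [Prod.snd_sub, Prod.snd_zero] at h8
  have h9 : s = s' := by linarith
  have h10 : w = w' := sub_eq_zero.1 h8
  rw [h9, h10]

theorem der (G : ℝ → E3) (hG : ContDiff ℝ ∞ G) (h : ∀ a v, G a v = 0 → v = 0) (p v : R4)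
    (hv : fderiv ℝ (fib G) p v = 0) : v = 0 := by
  have hd : HasFDerivAt G (fderiv ℝ G p.2.1) p.2.1 :=
    (hG.differentiable (by simp) p.2.1).hasFDerivAt
  have hpr : HasFDerivAt (fun q : R4 => q.2.1)
      ((ContinuousLinearMap.fst ℝ ℝ ℂ).comp (ContinuousLinearMap.snd ℝ ℝ (ℝ × ℂ))) p :=
    ((ContinuousLinearMap.fst ℝ ℝ ℂ).comp (ContinuousLinearMap.snd ℝ ℝ (ℝ × ℂ))).hasFDerivAt
  have hc : HasFDerivAt (fun q : R4 => G q.2.1) ((fderiv ℝ G p.2.1).comp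
      ((ContinuousLinearMap.fst ℝ ℝ ℂ).comp (ContinuousLinearMap.snd ℝ ℝ (ℝ × ℂ)))) p :=
    HasFDerivAt.comp (g := G) (f := fun q : R4 => q.2.1) p hd hpr
  have hu : HasFDerivAt (fun q : R4 => ((q.1 - 1 / 2, q.2.2) : ℝ × ℂ))
      ((ContinuousLinearMap.fst ℝ ℝ (ℝ × ℂ)).prod
        ((ContinuousLinearMap.snd ℝ ℝ ℂ).comp (ContinuousLinearMap.snd ℝ ℝ (ℝ × ℂ)))) p := by
    refine HasFDerivAt.prodMk ?_ ?_
    · exact ((ContinuousLinearMap.fst ℝ ℝ (ℝ × ℂ)).hasFDerivAt).sub_const _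
    · exact ((ContinuousLinearMap.snd ℝ ℝ ℂ).comp (ContinuousLinearMap.snd ℝ ℝ (ℝ × ℂ))).hasFDerivAt
  have hN := hc.clm_apply hu
  have hfib : HasFDerivAt (fib G) _ p :=
    HasFDerivAt.prodMk (((ContinuousLinearMap.fst ℝ ℝ ℂ).hasFDerivAt.comp p hN).const_add (1 / 2 : ℝ))
      (HasFDerivAt.prodMk hpr ((ContinuousLinearMap.snd ℝ ℝ ℂ).hasFDerivAt.comp p hN))
  rw [hfib.fderiv] at hv
  obtain ⟨σ, α, ν⟩ := v
  have e2 : α = 0 := congrArg (fun z : R4 => z.2.1) hv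
  subst e2
  have e1 := congrArg (fun z : R4 => z.1) hv
  have e3 := congrArg (fun z : R4 => z.2.2) hv
  simp at e1 e3
  have e4 : G p.2.1 (σ, ν) = 0 := Prod.ext e1 e3
  have e5 := h _ _ e4
  have e6 := congrArg Prod.fst e5
  have e7 := congrArg Prod.snd e5
  simp only [Prod.fst_zero, Prod.snd_zero] at e6 e7
  rw [e6, e7]
  rfl

theorem emb (a0 : StA0) (G : ℝ → E3) (hG : ContDiff ℝ ∞ G) (h : ∀ a v, G a v = 0 → v = 0) (p : R4) :
    IsLocalDiffeomorphAt 𝓘(ℝ, R4) 𝓘(ℝ, R4) ∞ (fib G) p :=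
  (a0 R4 (fib G) p).2 ⟨⟨univ, isOpen_univ, mem_univ p, (smooth G hG).contDiffOn⟩, der G hG h p⟩

theorem fib_id (G : ℝ → E3) (p : R4) (h : G p.2.1 = ContinuousLinearMap.id ℝ (ℝ × ℂ)) : fib G p = p := by
  obtain ⟨s, a, w⟩ := p
  simp only [fib]
  simp only at h
  rw [h]
  simp

theorem fib_SP (G : ℝ → E3) (δ : ℝ) (hδ : 0 < δ)
    (h : ∀ a, (a ≤ 1 / 5 + δ ∨ 4 / 5 - δ ≤ a) → G a = ContinuousLinearMap.id ℝ (ℝ × ℂ)) (p : R4)
    (hp : p ∈ SP) : fib G p = p := by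
  rcases hp with (hp | hp) | hp
  · obtain ⟨-, hp⟩ := hp
    apply fib_id
    apply h
    left
    simp only [rsq, nsq, sub_zero] at hp
    nlinarith [sq_nonneg p.2.2.re, sq_nonneg p.2.2.im]
  · obtain ⟨-, hp⟩ := hp
    apply fib_id
    apply h
    right
    simp only [rsq, nsq] at hp
    nlinarith [sq_nonneg p.2.2.re, sq_nonneg p.2.2.im]
  · obtain ⟨hp1, -, -, hp2⟩ := hp
    obtain ⟨s, a, w⟩ := p
    simp only at hp1 hp2
    subst hp1
    subst hp2
    have h0 : ((1 / 2 - 1 / 2 : ℝ), (0 : ℂ)) = (0 : ℝ × ℂ) := by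
      rw [sub_self]
      rfl
    simp only [fib, h0, map_zero, Prod.fst_zero, Prod.snd_zero, add_zero]

end FR1

theorem m_Fr1 (a0 : StA0) : StFr1 := by
  refine ⟨?_, ?_⟩
  · rintro G ⟨hG, hi, δ, hδ, hid⟩
    refine ⟨⟨fun p _ => FR1.emb a0 G hG hi p, (FR1.inj G hi).injOn⟩, FR1.smooth G hG,
      FR1.fib_SP G δ hδ hid, δ, hδ, fun p hp => FR1.fib_id G p (hid _ hp)⟩
  · rintro Γ F ⟨hΓ, hi, δ, hδ, hid⟩ ⟨hF, hFi⟩
    have hSP : ∀ t, ∀ p ∈ SP, fib (fun a => Γ (t, a)) p = p := fun t =>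
      FR1.fib_SP _ δ hδ (hid t)
    have hcont := FR1.smooth_joint Γ hΓ
    have hUo : IsOpen {x : R4 | IsLocalDiffeomorphAt 𝓘(ℝ, R4) 𝓘(ℝ, R4) ∞ F x} := by
      rw [isOpen_iff_mem_nhds]
      rintro x ⟨Φ, hx, hΦ⟩
      filter_upwards [Φ.open_source.mem_nhds hx] with y hy
      exact ⟨Φ, hy, hΦ⟩
    refine ⟨⟨{q : ℝ × R4 | fib (fun a => Γ (q.1, a)) q.2 ∈
      {x : R4 | IsLocalDiffeomorphAt 𝓘(ℝ, R4) 𝓘(ℝ, R4) ∞ F x}}, hUo.preimage hcont.continuous, ?_, ?_⟩, ?_⟩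
    · rintro ⟨t, p⟩ ⟨-, hp⟩
      show IsLocalDiffeomorphAt 𝓘(ℝ, R4) 𝓘(ℝ, R4) ∞ F (fib (fun a => Γ (t, a)) p)
      rw [hSP t p hp]
      exact hF p hp
    · intro q hq
      have hq' : IsLocalDiffeomorphAt 𝓘(ℝ, R4) 𝓘(ℝ, R4) ∞ F (fib (fun a => Γ (q.1, a)) q.2) := hq
      have h1 : ContMDiffAt 𝓘(ℝ, R4) 𝓘(ℝ, R4) ∞ F (fib (fun a => Γ (q.1, a)) q.2) := hq'.contMDiffAt
      have h2 : ContMDiffAt 𝓘(ℝ, ℝ × R4) 𝓘(ℝ, R4) ∞
          (fun q : ℝ × R4 => fib (fun a => Γ (q.1, a)) q.2) q := hcont.contMDiff q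
      exact (ContMDiffAt.comp q h1 h2).contMDiffWithinAt
    · intro t ht
      have hG : ContDiff ℝ ∞ (fun a => Γ (t, a)) := hΓ.comp (contDiff_const.prodMk contDiff_id)
      refine ⟨fun p hp => ?_, ?_⟩
      · have h1 := FR1.emb a0 (fun a => Γ (t, a)) hG (hi t ht) p
        have h2 : IsLocalDiffeomorphAt 𝓘(ℝ, R4) 𝓘(ℝ, R4) ∞ F (fib (fun a => Γ (t, a)) p) := by
          rw [hSP t p hp]
          exact hF p hp
        exact h1.comp _ _ h2
      · intro p hp q hq hpq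
        have h3 : F (fib (fun a => Γ (t, a)) p) = F (fib (fun a => Γ (t, a)) q) := hpq
        rw [hSP t p hp, hSP t q hq] at h3
        exact hFi hp hq h3

end Pool.Agent.Helper18.BI


end

/-! ## Helper27.BI.GBasic -/

section

/-!
# Project BI, part (C): implantations and germs, elementary facts
-/

set_option autoImplicit false
set_option linter.unusedSectionVars false
set_option linter.unusedVariables false

open scoped Manifold ContDiff Topology ComplexConjugate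
open Set Pool.Agent.Helper65.Barb Pool.Agent.Helper18.BI

namespace Pool.Agent.Helper27.BI

section
variable {M : Type*} {F F' : R4 → M} {K K' : Set R4} {T T' : R4 → R4}

theorem imp_image (hF : InjOn F K) {p : R4} (hp : p ∈ K) : imp F K T (F p) = F (T p) := by
  have h : ∃ q ∈ K, F q = F p := ⟨p, hp, rfl⟩
  have h1 := h.choose_spec
  have h2 : h.choose = p := hF h1.1 hp h1.2
  unfold imp
  rw [dif_pos h, h2]

theorem imp_off {y : M} (hy : y ∉ F '' K) : imp F K T y = y := by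
  unfold imp
  rw [dif_neg]
  rintro ⟨q, hq, hqy⟩
  exact hy ⟨q, hq, hqy⟩

/-- comparison of two implantations -/
theorem imp_eq_of (hF : InjOn F K) (hF' : InjOn F' K')
    (h1 : ∀ p ∈ K', ∃ q ∈ K, F q = F' p ∧ F (T q) = F' (T' p))
    (h2 : ∀ q ∈ K, (∃ p ∈ K', F' p = F q) ∨ F (T q) = F q) : imp F K T = imp F' K' T' := by
  funext y
  by_cases hy : y ∈ F' '' K'
  · obtain ⟨p, hp, rfl⟩ := hy
    obtain ⟨q, hq, e1, e2⟩ := h1 p hp
    rw [imp_image hF' hp, ← e1, imp_image hF hq, e2]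
  · rw [imp_off hy]
    by_cases hy' : y ∈ F '' K
    · obtain ⟨q, hq, rfl⟩ := hy'
      rw [imp_image hF hq]
      rcases h2 q hq with ⟨p, hp, e⟩ | e
      · exact absurd ⟨p, hp, e⟩ hy
      · exact e
    · rw [imp_off hy']

/-- enlarging the support -/
theorem imp_mono (hF : InjOn F K) (hK : K' ⊆ K) (hT : ∀ p, p ∉ K' → T p = p) :
    imp F K T = imp F K' T := by
  apply imp_eq_of hF (hF.mono hK) (fun p hp => ⟨p, hK hp, rfl, rfl⟩)
  intro q hq
  by_cases h : q ∈ K'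
  · exact Or.inl ⟨q, h, rfl⟩
  · exact Or.inr (by rw [hT q h])

theorem imp_comp {S : R4 → R4} (hF : InjOn F K) (hT : MapsTo T K K) (y : M) :
    imp F K (fun p => S (T p)) y = imp F K S (imp F K T y) := by
  by_cases hy : y ∈ F '' K
  · obtain ⟨p, hp, rfl⟩ := hy
    rw [imp_image hF hp, imp_image hF hp, imp_image hF (hT hp)]
  · rw [imp_off hy, imp_off hy, imp_off hy]

theorem imp_congr (hF : InjOn F K) (h : EqOn F F' K) (hT : MapsTo T K K) :
    imp F K T = imp F' K T := by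
  have hF' : InjOn F' K := fun p hp q hq e => hF hp hq (by rw [h hp, h hq, e])
  exact imp_eq_of hF hF' (fun p hp => ⟨p, hp, h hp, h (hT hp)⟩)
    (fun q hq => Or.inl ⟨q, hq, (h hq).symm⟩)

end

section
variable {E : Type} [NormedAddCommGroup E] [NormedSpace ℝ E] {H : Type} [TopologicalSpace H]
  {I : ModelWithCorners ℝ E H} {M : Type} [TopologicalSpace M] [ChartedSpace H M]

theorem EmbOn.mono {F : R4 → M} {K L : Set R4} (h : EmbOn I F L) (hK : K ⊆ L) : EmbOn I F K :=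
  ⟨fun p hp => h.1 p (hK hp), h.2.mono hK⟩

theorem EmbOn.comp {F : R4 → M} {k : R4 → R4} {K L : Set R4} (h : EmbOn I F L)
    (hk : EmbOn 𝓘(ℝ, R4) k K) (hm : MapsTo k K L) : EmbOn I (F ∘ k) K :=
  ⟨fun p hp => IsLocalDiffeomorphAt.comp (hf := hk.1 p hp) (hg := h.1 _ (hm hp)),
    fun p hp q hq e => hk.2 hp hq (h.2 (hm hp) (hm hq) e)⟩

/-! ### the algebra of compactly supported isotopy -/

theorem ci_refl : CIsot I (fun x : M => x) (fun x => x) := (m_CI E H I M).1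

theorem CIsot.symm' {φ ψ : M → M} (h : CIsot I φ ψ) : CIsot I ψ φ := (m_CI E H I M).2.1 _ _ h

theorem CIsot.left' {φ ψ : M → M} (h : CIsot I φ ψ) : CIsot I φ φ := (m_CI E H I M).2.2.1 _ _ h

theorem CIsot.trans' {φ ψ χ : M → M} (h : CIsot I φ ψ) (h' : CIsot I ψ χ) : CIsot I φ χ :=
  (m_CI E H I M).2.2.2.1 _ _ _ h h'

theorem CIsot.comp' {φ ψ φ' ψ' : M → M} (h : CIsot I φ ψ) (h' : CIsot I φ' ψ') :
    CIsot I (fun x => φ (φ' x)) (fun x => ψ (ψ' x)) :=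
  (m_CI E H I M).2.2.2.2.1 _ _ _ _ h h'

theorem CIsot.inv' {φ ψ φ' ψ' : M → M} (h : CIsot I φ ψ) (h1 : ∀ x, φ (φ' x) = x)
    (h2 : ∀ x, ψ (ψ' x) = x) : CIsot I φ' ψ' :=
  (m_CI E H I M).2.2.2.2.2.1 _ _ _ _ h h1 h2

/-- the push-forward of an isotopy -/
theorem imp_isot (hA1 : StA1) [T2Space M] {F : R4 → M} {L : Set R4} (Φ : DFam 𝓘(ℝ, R4) R4)
    (hL : IsCompact L) (hF : EmbOn I F L) (hs : ∀ t p, p ∉ L → Φ.f (t, p) = p) :
    CIsot I (imp F L (fun p => Φ.f (0, p))) (imp F L (fun p => Φ.f (1, p))) :=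
  m_Push hA1 E H I M F L Φ hL hF hs

end

end Pool.Agent.Helper27.BI


end

/-! ## Helper27.BI.GAdd -/

section

/-!
# Project BI, part (C): additivity for germs
-/

set_option autoImplicit false
set_option linter.unusedSectionVars false
set_option linter.unusedVariables false

open scoped Manifold ContDiff Topology ComplexConjugate
open Set Pool.Agent.Helper65.Barb Pool.Agent.Helper18.BI

namespace Pool.Agent.Helper27.BI

theorem rsq_zero_eq (q : R4) : rsq 0 q = nsq q.2 := by simp [rsq]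

theorem nsq_sub_one (q : R4) : nsq (q.2 - (1, 0)) = rsq 1 q := by
  simp [rsq, nsq]

/-! ### the pushing maps -/

theorem m_Kap (hK : StKappa) : StKap := by
  intro x₀ hx₀ δ r hr hr1 hr2 hδ
  obtain ⟨κ, hs, hinj, hbij, hoff, hoffa, hkeep, haway, hb, hsm⟩ := hK x₀ hx₀ δ r hr hr1 hr2 hδ
  have hsm' : ContDiff ℝ ∞ (fun p : R4 => (p.1, κ p.2)) :=
    contDiff_fst.prodMk (hs.comp contDiff_snd)
  have hball : ∀ p ∈ ball4, -5 ≤ p.2.1 := by
    rintro p ⟨-, -, h⟩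
    rw [rsq_zero_eq] at h
    unfold nsq at h
    nlinarith [sq_nonneg p.2.2.re, sq_nonneg p.2.2.im]
  refine ⟨fun p => (p.1, κ p.2), ⟨fun p _ => ?_, ?_⟩, hsm', fun p => rfl,
    fun p => (hkeep p.2).1, fun p => (hkeep p.2).2, fun p hp => ?_, fun p hp => ?_,
    fun p hp => ?_, fun p hp => ?_, fun p hp => ?_⟩
  · apply (m_A0 R4 _ p).2
    refine ⟨⟨univ, isOpen_univ, mem_univ _, hsm'.contDiffOn⟩, fun v hv => ?_⟩
    have h1 : HasFDerivAt (fun p : R4 => (p.1, κ p.2))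
        ((ContinuousLinearMap.fst ℝ ℝ R3).prod
          ((fderiv ℝ κ p.2).comp (ContinuousLinearMap.snd ℝ ℝ R3))) p :=
      hasFDerivAt_fst.prodMk
        (((hs.differentiable (by simp)) p.2).hasFDerivAt.comp p hasFDerivAt_snd)
    rw [h1.fderiv] at hv
    have h2 := Prod.ext_iff.1 hv
    have h3 : v.1 = 0 := h2.1
    have h4 : fderiv ℝ κ p.2 v.2 = 0 := h2.2
    have h5 : v.2 = 0 := (hbij p.2).1 (h4.trans (map_zero _).symm)
    exact Prod.ext h3 h5
  · intro p _ q _ e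
    have h2 := Prod.ext_iff.1 e
    exact Prod.ext h2.1 (hinj h2.2)
  · exact Prod.ext rfl (hoff p.2 hp)
  · exact Prod.ext rfl (hoffa p.2 hp)
  · intro h
    have h1 := haway p.2 (hball p hp)
    have h2 : nsq (κ p.2 - x₀) < r ^ 2 := h
    linarith
  · obtain ⟨h1, h2, h3⟩ := hp
    refine ⟨h1, h2, ?_⟩
    rw [rsq_zero_eq] at h3 ⊢
    exact hb p.2 h3
  · rw [rsq_zero_eq] at hp ⊢
    have := hsm p.2 (by norm_num at hp ⊢; linarith)
    norm_num at this ⊢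
    exact this

/-! ### supports -/

theorem isOpen_tube (x₀ : R3) (r : ℝ) : IsOpen (tube x₀ r) := by
  have h : Continuous (fun p : R4 => nsq (p.2 - x₀)) :=
    (contDiff_nsq ((contDiff_snd (𝕜 := ℝ) (E := ℝ) (F := R3)).sub contDiff_const)).continuous
  exact isOpen_lt h continuous_const

theorem tube_subset_ctube (x₀ : R3) (r : ℝ) : tube x₀ r ⊆ ctube x₀ r := by
  intro p hp
  have h : nsq (p.2 - x₀) < r ^ 2 := hp
  exact h.le

theorem isCompact_ball4 : IsCompact ball4 := by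
  refine Metric.isCompact_of_isClosed_isBounded isClosed_ball4 ?_
  have := isBounded_of_rsq 0 ((9 / 2) ^ 2) (-1) 2
  exact this

/-- the domain of a germ relative to two strands -/
def D2 (x1 x2 : R3) (r ρ : ℝ) : Set R4 :=
  {p | p ∈ ball4 ∧ p ∉ tube (1, 0) r ∧ p ∉ tube x1 ρ ∧ p ∉ tube x2 ρ}

/-- the domain of a germ relative to one strand -/
def D1 (x1 : R3) (r ρ : ℝ) : Set R4 := {p | p ∈ ball4 ∧ p ∉ tube (1, 0) r ∧ p ∉ tube x1 ρ}

theorem isCompact_D1 (x1 : R3) (r ρ : ℝ) : IsCompact (D1 x1 r ρ) :=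
  isCompact_ball4.inter_right
    ((isOpen_tube _ _).isClosed_compl.inter (isOpen_tube _ _).isClosed_compl)

theorem isCompact_D2 (x1 x2 : R3) (r ρ : ℝ) : IsCompact (D2 x1 x2 r ρ) :=
  isCompact_ball4.inter_right
    ((isOpen_tube _ _).isClosed_compl.inter
      ((isOpen_tube _ _).isClosed_compl.inter (isOpen_tube _ _).isClosed_compl))

theorem D2_comm (x1 x2 : R3) (r ρ : ℝ) : D2 x1 x2 r ρ = D2 x2 x1 r ρ := by
  ext p
  simp only [D2, mem_ofPred_eq]
  tauto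

section
variable {E : Type} [NormedAddCommGroup E] [NormedSpace ℝ E] {H : Type} [TopologicalSpace H]
  {I : ModelWithCorners ℝ E H} {M : Type} [TopologicalSpace M] [ChartedSpace H M] [T2Space M]

/-- A relative isotopy in the model induces an isotopy of implantations. -/
theorem tiso_cisot {O : Set R4} {ρ : ℝ} {φ ψ : R4 → R4}
    (h : TIso O ρ (fun (_ : Unit) _ => e1) (fun _ _ => e1) φ ψ) {L : Set R4}
    (hL : IsCompact L) (hLO : ∀ p, p ∉ L → p ∉ ball4 ∨ p ∈ O ∨ p ∈ tube (1, 0) ρ) {G : R4 → M}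
    (hG : EmbOn I G L) : CIsot I (imp G L φ) (imp G L ψ) := by
  obtain ⟨Φ, h0, h1, ⟨K, hK, hKi, hKs⟩, hO, ht⟩ := h
  have key := imp_isot (I := I) (m_A1) Φ hL hG (fun t p hp => by
    rcases hLO p hp with h | h | h
    · exact hKs t p (fun hk => h (interior_subset (hKi hk)))
    · exact hO t p h
    · have h2 : nsq (p.2 - (1, 0)) ≤ ρ ^ 2 := le_of_lt h
      have e := ht t () p.1 (p.2 - (1, 0)) h2
      simp only [e1, add_sub_cancel] at e
      exact e)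
  have e0 : (fun p => Φ.f (0, p)) = φ := funext h0
  have e1' : (fun p => Φ.f (1, p)) = ψ := funext h1
  rwa [e0, e1'] at key

theorem tiso_fix {O : Set R4} {ρ : ℝ} {φ : R4 → R4}
    (h : TIso O ρ (fun (_ : Unit) _ => e1) (fun _ _ => e1) φ φ) {p : R4}
    (hp : p ∉ ball4 ∨ p ∈ O ∨ p ∈ tube (1, 0) ρ) : φ p = p := by
  obtain ⟨Φ, h0, h1, ⟨K, hK, hKi, hKs⟩, hO, ht⟩ := h
  rw [← h0 p]
  rcases hp with h | h | h
  · exact hKs 0 p (fun hk => h (interior_subset (hKi hk)))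
  · exact hO 0 p h
  · have h2 : nsq (p.2 - (1, 0)) ≤ ρ ^ 2 := le_of_lt h
    have e := ht 0 () p.1 (p.2 - (1, 0)) h2
    simp only [e1, add_sub_cancel] at e
    exact e

theorem D1_compl {x1 : R3} {ρ : ℝ} {p : R4} (hp : p ∉ D1 x1 ρ ρ) :
    p ∉ ball4 ∨ p ∈ ctube x1 ρ ∨ p ∈ tube (1, 0) ρ := by
  by_contra hcon
  push Not at hcon
  obtain ⟨h1, h2, h3⟩ := hcon
  exact hp ⟨h1, h3, fun h => h2 (tube_subset_ctube _ _ h)⟩

theorem D2_compl {x1 x2 : R3} {ρ : ℝ} {p : R4} (hp : p ∉ D2 x1 x2 ρ ρ) :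
    p ∉ ball4 ∨ p ∈ ctube x1 ρ ∪ ctube x2 ρ ∨ p ∈ tube (1, 0) ρ := by
  by_contra hcon
  push Not at hcon
  obtain ⟨h1, h2, h3⟩ := hcon
  exact hp ⟨h1, h3, fun h => h2 (Or.inl (tube_subset_ctube _ _ h)),
    fun h => h2 (Or.inr (tube_subset_ctube _ _ h))⟩

/-- One factor of the product. -/
theorem half {x1 x2 : R3} {g ρ : ℝ} (hx1 : nsq x1 < (7 / 50) ^ 2) (hx2 : nsq x2 < (7 / 50) ^ 2)
    (hρ0 : 0 < ρ) (hg : g = |x1.2.re - x2.2.re|) (hρ : ρ = g / 40) {k : R4 → R4}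
    (hk : IsKap x2 (g / 8) ρ k) {β : R4 → R4}
    (tβ : TIso (ctube x1 ρ ∪ ctube x2 ρ) ρ (fun (_ : Unit) _ => e1) (fun _ _ => e1) β β)
    (sβ : TIso (ctube x1 ρ) ρ (fun (_ : Unit) _ => e1) (fun _ _ => e1) β barMap)
    (sup : ∀ s a w, (2 * ρ) ^ 2 ≤ (a - 1) ^ 2 + w.im ^ 2 → g / 4 + 2 * ρ ≤ |w.re - x1.2.re| →
      β (s, (a, w)) = (s, (a, w))) {G : R4 → M} (hG : EmbOn I G (D2 x1 x2 ρ ρ)) :
    MapsTo k (D1 x1 ρ ρ) (D2 x1 x2 ρ ρ) ∧ MapsTo β (D2 x1 x2 ρ ρ) (D2 x1 x2 ρ ρ) ∧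
      CIsot I (imp G (D2 x1 x2 ρ ρ) β) (imp (G ∘ k) (D1 x1 ρ ρ) barMap) := by
  have hX1 : |x1.2.re| ≤ 7 / 50 := abs_re_le (by norm_num) hx1.le
  have hX2 : |x2.2.re| ≤ 7 / 50 := abs_re_le (by norm_num) hx2.le
  have hg1 : g ≤ 7 / 25 := by
    rw [hg]; have := abs_sub x1.2.re x2.2.re; linarith
  have hg0 : 0 < g := by linarith
  have hρ1 : ρ ≤ 1 / 100 := by linarith
  have hx2a : x2.1 ≤ 7 / 50 := by
    have h1 : x2.1 ^ 2 ≤ (7 / 50) ^ 2 := by
      have : x2.1 ^ 2 ≤ nsq x2 := by unfold nsq; nlinarith [sq_nonneg x2.2.re, sq_nonneg x2.2.im]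
      linarith
    nlinarith
  -- the zone moved by `k`
  set Z : Set R4 := {p | ‖p.2.2 - x2.2‖ < g / 8 ∧ p.2.1 < x2.1 + 1 / 50} with hZ
  have kZ : ∀ p, p ∉ Z → k p = p := by
    intro p hp
    by_cases h1 : ‖p.2.2 - x2.2‖ < g / 8
    · apply hk.off_a
      by_contra h2
      exact hp ⟨h1, not_le.1 h2⟩
    · exact hk.off_w p (not_lt.1 h1)
  have kinj : ∀ p q, k p = k q → p = q := fun p q e => hk.emb.2 (mem_univ p) (mem_univ q) e
  have kZZ : ∀ p ∈ Z, k p ∈ Z := by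
    intro p hp
    by_contra h
    have h1 := kinj _ _ (kZ _ h)
    rw [h1] at h
    exact h hp
  have Za : ∀ p ∈ Z, p.2.1 < 4 / 25 := by
    rintro p ⟨-, h⟩; linarith
  have Zre : ∀ p ∈ Z, |p.2.2.re - x2.2.re| < g / 8 := by
    rintro p ⟨h, -⟩
    refine lt_of_le_of_lt ?_ h
    have := Complex.abs_re_le_norm (p.2.2 - x2.2)
    rwa [Complex.sub_re] at this
  have βZ : ∀ p ∈ Z, β p = p := by
    intro p hp
    obtain ⟨s, a, w⟩ := p
    have h1 : a < 4 / 25 := Za _ hp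
    have h2 : |w.re - x2.2.re| < g / 8 := Zre _ hp
    apply sup
    · nlinarith [sq_nonneg w.im]
    · have e : x1.2.re - x2.2.re = (w.re - x2.2.re) - (w.re - x1.2.re) := by ring
      have h3 := abs_sub (w.re - x2.2.re) (w.re - x1.2.re)
      rw [← e, ← hg] at h3
      linarith
  obtain ⟨β', -, hββ', hβ'β⟩ := tβ.exists_inv
  have βinj : ∀ p q, β p = β q → p = q := by
    intro p q e
    rw [← hβ'β p, e, hβ'β]
  have βnZ : ∀ p, p ∉ Z → β p ∉ Z := by
    intro p hp h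
    have := βinj _ _ (βZ _ h)
    rw [this] at h
    exact hp h
  have comm : ∀ p, β (k p) = k (β p) := by
    intro p
    by_cases hp : p ∈ Z
    · rw [βZ _ (kZZ p hp), βZ p hp]
    · rw [kZ p hp, kZ _ (βnZ p hp)]
  have mβ : MapsTo β (D2 x1 x2 ρ ρ) (D2 x1 x2 ρ ρ) := by
    intro p hp
    by_contra h
    have h1 := βinj _ _ (tiso_fix tβ (D2_compl h))
    rw [h1] at h
    exact h hp
  have mk : MapsTo k (D1 x1 ρ ρ) (D2 x1 x2 ρ ρ) := by
    intro p hp
    by_cases hpZ : p ∈ Z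
    · have h1 := kZZ p hpZ
      have h2 : (k p).2.1 < 4 / 25 := Za _ h1
      have h3 : |(k p).2.2.re - x2.2.re| < g / 8 := Zre _ h1
      refine ⟨hk.ball p hp.1, ?_, ?_, hk.away p hp.1⟩
      · intro h
        have h4 : nsq ((k p).2 - (1, 0)) < ρ ^ 2 := h
        have h5 : ((k p).2.1 - 1) ^ 2 ≤ nsq ((k p).2 - (1, 0)) := by
          unfold nsq
          simp only [Prod.fst_sub]
          nlinarith [sq_nonneg ((k p).2 - (1, 0)).2.re, sq_nonneg ((k p).2 - (1, 0)).2.im]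
        nlinarith
      · intro h
        have h4 : nsq ((k p).2 - x1) < ρ ^ 2 := h
        have h5 : |((k p).2 - x1).2.re| ≤ ρ := abs_re_le hρ0.le h4.le
        rw [Prod.snd_sub, Complex.sub_re] at h5
        have e : x1.2.re - x2.2.re = ((k p).2.2.re - x2.2.re) - ((k p).2.2.re - x1.2.re) := by
          ring
        have h6 := abs_sub ((k p).2.2.re - x2.2.re) ((k p).2.2.re - x1.2.re)
        rw [← e, ← hg] at h6
        linarith
    · have h1 := kZ p hpZ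
      rw [h1]
      refine ⟨hp.1, hp.2.1, hp.2.2, ?_⟩
      rw [← h1]
      exact hk.away p hp.1
  refine ⟨mk, mβ, ?_⟩
  have hGk : EmbOn I (G ∘ k) (D1 x1 ρ ρ) :=
    EmbOn.comp hG (EmbOn.mono hk.emb (subset_univ _)) mk
  have e1' : imp G (D2 x1 x2 ρ ρ) β = imp (G ∘ k) (D1 x1 ρ ρ) β := by
    apply imp_eq_of hG.2 hGk.2
    · intro p hp
      exact ⟨k p, mk hp, rfl, by rw [comm]; rfl⟩
    · intro q hq
      by_cases hqZ : q ∈ Z
      · exact Or.inr (by rw [βZ q hqZ])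
      · refine Or.inl ⟨q, ⟨hq.1, hq.2.1, hq.2.2.1⟩, ?_⟩
        change G (k q) = G q
        rw [kZ q hqZ]
  rw [e1']
  exact tiso_cisot sβ (isCompact_D1 _ _ _) (fun p hp => D1_compl hp) hGk

/-! ### shrinking the second hole -/

theorem qq_mem {q : ℝ} (hq : 0 < q) (hq' : q ≤ 1 / 25) :
    (3 / 20) ^ 2 ≤ qq (1 / 200) q ∧ qq (1 / 200) q ≤ 1 / 25 := by
  obtain ⟨-, -, -, h0, h1, h2⟩ := m_R0
  have a1 := h1 ((1 / 25 - q) / (1 / 200))
  have a2 := h2 ((1 / 25 - q) / (1 / 200)) (by apply div_nonneg <;> linarith)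
  have e : (1 / 25 - q) / (1 / 200) = 200 * (1 / 25 - q) := by ring
  unfold qq
  rw [e] at a1 a2 ⊢
  constructor
  · norm_num
    nlinarith
  · norm_num
    nlinarith

theorem shrink_fst (p : R4) : (radc (1 / 200) 1 p).1 = p.1 := rfl

theorem shrink_facts {p : R4} (hp : 0 < rsq 1 p) :
    (3 / 20) ^ 2 ≤ rsq 1 (radc (1 / 200) 1 p) ∧
      (rsq 1 p < 1 / 25 → rsq 1 (radc (1 / 200) 1 p) ≤ 1 / 25) := by
  obtain ⟨-, h2, h3, -⟩ := m_R2 m_A0 m_R0 (1 / 200) (by constructor <;> norm_num) 1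
  rcases le_or_gt (1 / 25) (rsq 1 p) with h | h
  · rw [h2 p h]
    exact ⟨le_trans (by norm_num) h, fun h' => absurd h' (not_lt.2 h)⟩
  · rw [(h3 p hp).1]
    obtain ⟨a, b⟩ := qq_mem hp h.le
    exact ⟨a, fun _ => b⟩

theorem shrink_id {p : R4} (hp : 1 / 25 ≤ rsq 1 p) : radc (1 / 200) 1 p = p :=
  (m_R2 m_A0 m_R0 (1 / 200) (by constructor <;> norm_num) 1).2.1 p hp

theorem shrink_emb : EmbOn 𝓘(ℝ, R4) (radc (1 / 200) 1) {p | 0 < rsq 1 p} :=
  (m_R2 m_A0 m_R0 (1 / 200) (by constructor <;> norm_num) 1).1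

theorem shrink_maps {x1 x2 : R3} {ρ : ℝ} (hx1 : nsq x1 < (7 / 50) ^ 2)
    (hx2 : nsq x2 < (7 / 50) ^ 2) (hρ0 : 0 < ρ) (hρ1 : ρ ≤ 1 / 100) :
    MapsTo (radc (1 / 200) 1) (D2 x1 x2 ρ ρ) (D2 x1 x2 (3 / 20) ρ) := by
  intro p hp
  have h0 : 0 < rsq 1 p := by
    have h1 : ¬ (nsq (p.2 - (1, 0)) < ρ ^ 2) := hp.2.1
    rw [nsq_sub_one] at h1
    have : 0 < ρ ^ 2 := by positivity
    linarith [not_lt.1 h1]
  obtain ⟨h1, h2⟩ := shrink_facts h0
  have htube : radc (1 / 200) 1 p ∉ tube (1, 0) (3 / 20) := by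
    intro h
    have h' : nsq ((radc (1 / 200) 1 p).2 - (1, 0)) < (3 / 20) ^ 2 := h
    rw [nsq_sub_one] at h'
    linarith
  rcases le_or_gt (1 / 25) (rsq 1 p) with h | h
  · rw [shrink_id h] at htube ⊢
    exact ⟨hp.1, htube, hp.2.2⟩
  · have h3 := h2 h
    have h4 : ((radc (1 / 200) 1 p).2.1 - 1) ^ 2 ≤ rsq 1 (radc (1 / 200) 1 p) :=
      sq_le_rsq_one _
    have h5 : (4 / 5 : ℝ) ≤ (radc (1 / 200) 1 p).2.1 := by nlinarith
    have h6 : (radc (1 / 200) 1 p).2.1 ≤ 6 / 5 := by nlinarith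
    have key : ∀ x₀ : R3, nsq x₀ < (7 / 50) ^ 2 → radc (1 / 200) 1 p ∉ tube x₀ ρ := by
      intro x₀ hx₀ h
      have h7 : nsq ((radc (1 / 200) 1 p).2 - x₀) < ρ ^ 2 := h
      have h8 : ((radc (1 / 200) 1 p).2.1 - x₀.1) ^ 2 ≤
          nsq ((radc (1 / 200) 1 p).2 - x₀) := by
        unfold nsq
        simp only [Prod.fst_sub]
        nlinarith [sq_nonneg ((radc (1 / 200) 1 p).2 - x₀).2.re,
          sq_nonneg ((radc (1 / 200) 1 p).2 - x₀).2.im]
      have h9 : x₀.1 ≤ 7 / 50 := by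
        have : x₀.1 ^ 2 ≤ nsq x₀ := by
          unfold nsq; nlinarith [sq_nonneg x₀.2.re, sq_nonneg x₀.2.im]
        nlinarith
      nlinarith
    refine ⟨⟨hp.1.1, hp.1.2.1, ?_⟩, htube, key x1 hx1, key x2 hx2⟩
    rw [rsq_one_eq] at h3
    norm_num
    linarith

theorem bsupp_D {x1 x2 : R3} {ρ : ℝ} (hx1 : nsq x1 < (7 / 50) ^ 2)
    (hx2 : nsq x2 < (7 / 50) ^ 2) (hρ0 : 0 < ρ) (hρ1 : ρ ≤ 1 / 100) {p : R4} (hp : p ∈ bsupp) :
    p ∈ D2 x1 x2 ρ ρ := by
  have hb : p ∈ ball4 := interior_subset (tsupp_subset_interior hp.1)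
  have h1 : p ∉ tube (1, 0) ρ := by
    intro h
    have h' : nsq (p.2 - (1, 0)) < ρ ^ 2 := h
    rw [nsq_sub_one] at h'
    have := hp.2.2
    nlinarith
  have key : ∀ x₀ : R3, nsq x₀ < (7 / 50) ^ 2 → p ∉ tube x₀ ρ := by
    intro x₀ hx₀ h
    have h7 : nsq (p.2 - x₀) < ρ ^ 2 := h
    have h8 : nsq (p.2 - x₀ + x₀) ≤ (ρ + 7 / 50) ^ 2 :=
      nsq_add_le hρ0.le (by norm_num) h7.le hx₀.le
    rw [sub_add_cancel] at h8
    have h9 := hp.2.1
    rw [rsq_zero_eq] at h9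
    nlinarith
  exact ⟨hb, h1, key x1 hx1, key x2 hx2⟩

theorem barMap_mapsTo {L : Set R4} (hL : bsupp ⊆ L) : MapsTo barMap L L := by
  intro p hp
  by_contra h
  have h1 : barMap p ∉ bsupp := fun h' => h (hL h')
  have h2 : barMap (barMap p) = barMap p := barMap_off h1
  have h3 : barMap p = p := by
    have e := congrArg (fun q => bfam.g (1, q)) h2
    simp only [barMap] at e
    rw [bfam.gf, bfam.gf] at e
    exact e
  rw [h3] at h
  exact h hp

theorem m_AddG (hAdd : StAddM) : StAddG := by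
  intro E _ _ H _ I M _ _ _ x1 x2 hx1 hx2 hne g ρ hg hρ k1 k2 hk1 hk2 F hF
  have hg0 : 0 < g := by rw [hg]; exact abs_pos.2 (sub_ne_zero.2 hne)
  have hX1 : |x1.2.re| ≤ 7 / 50 := abs_re_le (by norm_num) hx1.le
  have hX2 : |x2.2.re| ≤ 7 / 50 := abs_re_le (by norm_num) hx2.le
  have hg1 : g ≤ 7 / 25 := by
    rw [hg]; have := abs_sub x1.2.re x2.2.re; linarith
  have hρ0 : 0 < ρ := by rw [hρ]; positivity
  have hρ1 : ρ ≤ 1 / 100 := by rw [hρ]; linarith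
  obtain ⟨β1, β2, t0, t1, t2, s1, s2, sup1, sup2⟩ := hAdd x1 x2 hx1 hx2 hne g ρ hg hρ
  set E0 := radc (1 / 200) 1 with hE0
  have hG : EmbOn I (F ∘ E0) (D2 x1 x2 ρ ρ) := by
    refine EmbOn.comp (L := D2 x1 x2 (3 / 20) ρ) hF (EmbOn.mono shrink_emb ?_)
      (shrink_maps hx1 hx2 hρ0 hρ1)
    intro p hp
    have h1 : ¬ (nsq (p.2 - (1, 0)) < ρ ^ 2) := hp.2.1
    rw [nsq_sub_one] at h1
    have : 0 < ρ ^ 2 := by positivity
    exact lt_of_lt_of_le this (not_lt.1 h1)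
  obtain ⟨mk1, mβ1, c1⟩ := half (I := I) hx1 hx2 hρ0 hg hρ hk1 t1 s1 sup1 hG
  obtain ⟨mk2, mβ2, c2⟩ := half (I := I) hx2 hx1 hρ0 (by rw [hg, abs_sub_comm]) hρ hk2
    (t2.mono (by rw [union_comm]) hρ0.le le_rfl) s2 sup2 (by rw [D2_comm]; exact hG)
  rw [D2_comm] at mk2 mβ2 c2
  -- barMap is supported in bsupp
  have hoff : ∀ p, p ∉ bsupp → barMap p = p := fun p hp => barMap_off hp
  have hb2 : bsupp ⊆ D2 x1 x2 ρ ρ := fun p hp => bsupp_D hx1 hx2 hρ0 hρ1 hp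
  have hb1 : bsupp ⊆ D1 x1 ρ ρ := fun p hp => ⟨(hb2 hp).1, (hb2 hp).2.1, (hb2 hp).2.2.1⟩
  have hb1' : bsupp ⊆ D1 x2 ρ ρ := fun p hp => ⟨(hb2 hp).1, (hb2 hp).2.1, (hb2 hp).2.2.2⟩
  have hE1 : ∀ p ∈ bsupp, E0 p = p := fun p hp => shrink_id (by
    have := hp.2.2; norm_num at this ⊢; exact this)
  -- left-hand side
  have eL : imp F bsupp barMap = imp (F ∘ E0) (D2 x1 x2 ρ ρ) barMap := by
    rw [imp_mono hG.2 hb2 hoff]
    have : InjOn (F ∘ E0) bsupp := hG.2.mono hb2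
    exact (imp_congr this (fun p hp => by simp only [Function.comp, hE1 p hp])
      (barMap_mapsTo subset_rfl)).symm
  -- right-hand side
  have eR : ∀ (k : R4 → R4) (xa xb : R3), IsKap xb (g / 8) ρ k → nsq xb < (7 / 50) ^ 2 →
      MapsTo k (D1 xa ρ ρ) (D2 x1 x2 ρ ρ) → bsupp ⊆ D1 xa ρ ρ →
      imp ((F ∘ E0) ∘ k) (D1 xa ρ ρ) barMap = imp (F ∘ k) bsupp barMap := by
    intro k xa xb hk hxb mk hb
    have hGk : EmbOn I ((F ∘ E0) ∘ k) (D1 xa ρ ρ) :=
      EmbOn.comp hG (EmbOn.mono hk.emb (subset_univ _)) mk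
    rw [imp_mono hGk.2 hb hoff]
    refine imp_congr (hGk.2.mono hb) (fun p hp => ?_) (barMap_mapsTo subset_rfl)
    have hxba : xb.1 ≤ 7 / 50 := by
      have : xb.1 ^ 2 ≤ nsq xb := by unfold nsq; nlinarith [sq_nonneg xb.2.re, sq_nonneg xb.2.im]
      nlinarith
    have e : E0 (k p) = k p := by
      rcases le_or_gt (xb.1 + 1 / 50) (k p).2.1 with h | h
      · -- then `k p = p`
        have h1 : k (k p) = k p := hk.off_a _ h
        have h2 : k p = p := hk.emb.2 (mem_univ _) (mem_univ _) h1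
        rw [h2]
        exact hE1 p hp
      · apply shrink_id
        have h1 := sq_le_rsq_one (k p)
        nlinarith
    change F (E0 (k p)) = F (k p)
    rw [e]
  rw [eL]
  have e1' := eR k1 x1 x2 hk1 hx2 mk1 hb1
  have e2' := eR k2 x2 x1 hk2 hx1 mk2 hb1'
  rw [e1'] at c1
  rw [e2'] at c2
  have c0 := tiso_cisot (I := I) t0 (isCompact_D2 x1 x2 ρ ρ) (fun p hp => D2_compl hp) hG
  have ec : imp (F ∘ E0) (D2 x1 x2 ρ ρ) (fun p => β2 (β1 p)) =
      fun y => imp (F ∘ E0) (D2 x1 x2 ρ ρ) β2 (imp (F ∘ E0) (D2 x1 x2 ρ ρ) β1 y) := by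
    funext y
    exact imp_comp hG.2 mβ1 y
  rw [ec] at c0
  exact CIsot.trans' c0 (CIsot.comp' c2 c1)

theorem m_ADD2 (hAdd : StAddG) (hKap : StKap) : StADD2 := by
  intro x2 hx2 hne
  have hX2 : |x2.2.re| ≤ 7 / 50 := abs_re_le (by norm_num) hx2.le
  have hg0 : 0 < |x2.2.re| := abs_pos.2 hne
  have h0 : nsq (0 : R3) < (7 / 50) ^ 2 := by
    have : nsq (0 : R3) = 0 := by simp [nsq]
    rw [this]; norm_num
  obtain ⟨k1, hk1⟩ := hKap x2 hx2 (|x2.2.re| / 8) (|x2.2.re| / 40) (by positivity) (by linarith)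
    (by linarith) (by linarith)
  obtain ⟨k2, hk2⟩ := hKap 0 h0 (|x2.2.re| / 8) (|x2.2.re| / 40) (by positivity) (by linarith)
    (by linarith) (by linarith)
  have hx2a : x2.1 ≤ 7 / 50 := by
    have : x2.1 ^ 2 ≤ nsq x2 := by unfold nsq; nlinarith [sq_nonneg x2.2.re, sq_nonneg x2.2.im]
    nlinarith
  have hx2w : |x2.2.re| ≤ ‖x2.2‖ := Complex.abs_re_le_norm _
  have hfix1 : ∀ p : R4, ‖p.2.2‖ ≤ |x2.2.re| / 2 → k1 p = p := by
    intro p hp
    apply hk1.off_w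
    have := norm_sub_norm_le x2.2 p.2.2
    rw [norm_sub_rev] at this
    linarith
  have htw : ∀ (x₀ : R3) (r : ℝ) (p : R4), 0 ≤ r → p ∈ tube x₀ r → ‖p.2.2 - x₀.2‖ ≤ r := by
    intro x₀ r p hr hp
    have h1 : nsq (p.2 - x₀) < r ^ 2 := hp
    have h2 : ‖p.2.2 - x₀.2‖ ^ 2 ≤ nsq (p.2 - x₀) := by
      rw [← Complex.normSq_eq_norm_sq, Complex.normSq_apply]
      unfold nsq
      simp only [Prod.fst_sub, Prod.snd_sub]
      nlinarith [sq_nonneg (p.2.1 - x₀.1)]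
    exact (abs_le_of_sq_le_sq (h2.trans h1.le) hr |>.trans' (le_abs_self _))
  refine ⟨|x2.2.re| / 40, k1, k2, by positivity, by linarith, by linarith, hk1, hk2, ?_, hfix1,
    ?_, ?_, ?_⟩
  · intro p hp
    exact ⟨hk1.off_a p (by linarith), hk2.off_a p (by
      change (0 : ℝ) + 1 / 50 ≤ p.2.1
      linarith)⟩
  · intro p hp
    have h1 := htw _ _ _ (by positivity) hp
    have h2 : ‖p.2.2‖ ≤ |x2.2.re| / 40 := by
      have e : (0 : R3).2 = 0 := rfl
      rw [e, sub_zero, hk1.keep] at h1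
      exact h1
    rwa [hfix1 p (by linarith)] at hp
  · intro p hp
    have h1 := htw _ _ _ (by positivity) hp
    rw [hk2.keep] at h1
    have h2 : |x2.2.re| / 8 ≤ ‖p.2.2 - (0 : R3).2‖ := by
      have e : (0 : R3).2 = 0 := rfl
      rw [e, sub_zero]
      have := norm_sub_norm_le x2.2 p.2.2
      rw [norm_sub_rev] at this
      linarith
    rwa [hk2.off_w p h2] at hp
  · intro E _ _ H _ I M _ _ _ F hF
    have e0 : |x2.2.re| = |(0 : R3).2.re - x2.2.re| := by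
      have : (0 : R3).2.re = 0 := rfl
      rw [this, zero_sub, abs_neg]
    refine hAdd E H I M 0 x2 h0 hx2 ?_ |x2.2.re| (|x2.2.re| / 40) e0 rfl k1 k2 hk1 hk2 F ?_
    · intro h
      exact hne h.symm
    · refine EmbOn.mono hF ?_
      rintro p ⟨h1, h2, h3, h4⟩
      refine ⟨h1, ?_⟩
      rintro ((h | h) | h)
      · exact h2 h
      · exact h3 h
      · exact h4 h

end

end Pool.Agent.Helper27.BI


end
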