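import Pool.Agent.Helper65.Barb.Defs
import Pool.Agent.Helper70.BI.B.P04

/-!
# Project BI (MP_8e98f2_gt): collected modules, part 08

The contents of the modules
* Helper18.BI.M_A2
* Helper18.BI.M_S2
* Helper18.BI.M_S5
* Helper18.BI.M_T1
* Helper18.BI.M_T2
* Helper18.BI.M_T8
* Helper18.BI.M_X3
* Helper18.BI.M_FR4
* Helper18.BI.M_FR5

in one file, so that the whole proof builds in a short time.
-/

/-! ## Helper18.BI.M_A2 -/

section

/-!
# A2: the track of a family of germs is a local diffeomorphism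
-/

set_option autoImplicit false

open scoped Manifold ContDiff Topology ComplexConjugate
open Set Pool.Agent.Helper65.Barb

namespace Pool.Agent.Helper18.BI

namespace A2

section

variable {E : Type} [NormedAddCommGroup E] [NormedSpace ℝ E] {H : Type} [TopologicalSpace H]
  {I : ModelWithCorners ℝ E H} {M : Type} [TopologicalSpace M] [ChartedSpace H M]

/-- the product of the identity of the line with a partial diffeomorphism -/
private def idProd (Φ : PartialDiffeomorph 𝓘(ℝ, R4) I R4 M ∞) :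
    PartialDiffeomorph 𝓘(ℝ, ℝ × R4) (𝓘(ℝ, ℝ).prod I) (ℝ × R4) (ℝ × M) ∞ where
  toFun := fun x => (x.1, Φ.toFun x.2)
  invFun := fun y => (y.1, Φ.invFun y.2)
  source := univ ×ˢ Φ.source
  target := univ ×ˢ Φ.target
  map_source' := fun _ hx => ⟨mem_univ _, Φ.map_source' hx.2⟩
  map_target' := fun _ hx => ⟨mem_univ _, Φ.map_target' hx.2⟩
  left_inv' := fun _ hx => Prod.ext rfl (Φ.left_inv' hx.2)
  right_inv' := fun _ hx => Prod.ext rfl (Φ.right_inv' hx.2)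
  open_source := isOpen_univ.prod Φ.open_source
  open_target := isOpen_univ.prod Φ.open_target
  contMDiffOn_toFun :=
    (contDiff_fst.contMDiff.contMDiffOn).prodMk
      (Φ.contMDiffOn_toFun.comp (contDiff_snd.contMDiff.contMDiffOn) (fun _ hx => hx.2))
  contMDiffOn_invFun :=
    (contMDiff_fst.contMDiffOn).prodMk_space
      (Φ.contMDiffOn_invFun.comp (contMDiff_snd.contMDiffOn) (fun _ hx => hx.2))

/-- congruence near the point -/
private theorem congr_at {f g : ℝ × R4 → ℝ × M} {q : ℝ × R4}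
    (h : IsLocalDiffeomorphAt 𝓘(ℝ, ℝ × R4) (𝓘(ℝ, ℝ).prod I) ∞ f q)
    {U : Set (ℝ × R4)} (hU : IsOpen U) (hq : q ∈ U) (hfg : ∀ x ∈ U, g x = f x) :
    IsLocalDiffeomorphAt 𝓘(ℝ, ℝ × R4) (𝓘(ℝ, ℝ).prod I) ∞ g q := by
  obtain ⟨Φ, hqΦ, hΦ⟩ := h
  let e := Φ.toOpenPartialHomeomorph.restrOpen U hU
  have hsrc : e.source = Φ.source ∩ U := rfl
  refine ⟨{ toPartialEquiv := e.toPartialEquiv
            open_source := e.open_source
            open_target := e.open_target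
            contMDiffOn_toFun := Φ.contMDiffOn_toFun.mono ?_
            contMDiffOn_invFun := Φ.contMDiffOn_invFun.mono ?_ }, ⟨hqΦ, hq⟩, ?_⟩
  · exact inter_subset_left
  · exact inter_subset_left
  · intro x hx
    have h1 : x ∈ Φ.source ∩ U := hx
    rw [hfg x h1.2]
    exact hΦ h1.1

end

end A2

open A2 in
theorem m_A2 (h0 : StA0) : StA2 := by
  intro E _ _ H _ I M _ _ J L hJ q hq
  obtain ⟨⟨W, hW, hLW, hJW⟩, hloc⟩ := hJ
  obtain ⟨t₀, p₀⟩ := q
  have ht₀ : t₀ ∈ Icc (0 : ℝ) 1 := hq.1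
  have hp₀ : p₀ ∈ L := hq.2
  obtain ⟨Φ, hpΦ, hΦ⟩ := (hloc t₀ ht₀).1 p₀ hp₀
  -- the open set on which `G` is defined
  have hW' : IsOpen (W ∩ J ⁻¹' Φ.target) := hJW.continuousOn.isOpen_inter_preimage hW Φ.open_target
  have hJq : J (t₀, p₀) ∈ Φ.target := by
    have h1 : J (t₀, p₀) = Φ p₀ := hΦ hpΦ
    rw [h1]
    exact Φ.map_source hpΦ
  have hqW' : (t₀, p₀) ∈ W ∩ J ⁻¹' Φ.target := ⟨hLW ⟨ht₀, hp₀⟩, hJq⟩
  have hK : ContDiffOn ℝ ∞ (fun x : ℝ × R4 => Φ.invFun (J x)) (W ∩ J ⁻¹' Φ.target) :=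
    contMDiffOn_iff_contDiffOn.1
      (Φ.contMDiffOn_invFun.comp (hJW.mono inter_subset_left) (fun _ hx => hx.2))
  have hG : ContDiffOn ℝ ∞ (fun x : ℝ × R4 => (x.1, Φ.invFun (J x))) (W ∩ J ⁻¹' Φ.target) :=
    contDiff_fst.contDiffOn.prodMk hK
  have hKd : DifferentiableAt ℝ (fun x : ℝ × R4 => Φ.invFun (J x)) (t₀, p₀) :=
    (hK.contDiffAt (hW'.mem_nhds hqW')).differentiableAt (by simp)
  have hGd : fderiv ℝ (fun x : ℝ × R4 => (x.1, Φ.invFun (J x))) (t₀, p₀) =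
      (ContinuousLinearMap.fst ℝ ℝ R4).prod
        (fderiv ℝ (fun x : ℝ × R4 => Φ.invFun (J x)) (t₀, p₀)) :=
    (hasFDerivAt_fst.prodMk hKd.hasFDerivAt).fderiv
  -- the restriction of the second component to the slice is the identity
  have hsl : (fun p : R4 => Φ.invFun (J (t₀, p))) =ᶠ[𝓝 p₀] id := by
    filter_upwards [Φ.open_source.mem_nhds hpΦ] with p hp
    have h1 : J (t₀, p) = Φ p := hΦ hp
    rw [h1]
    exact Φ.left_inv hp
  have hsl' : HasFDerivAt (fun p : R4 => Φ.invFun (J (t₀, p)))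
      ((fderiv ℝ (fun x : ℝ × R4 => Φ.invFun (J x)) (t₀, p₀)).comp
        (ContinuousLinearMap.inr ℝ ℝ R4)) p₀ :=
    HasFDerivAt.comp p₀ (f := fun p : R4 => (t₀, p)) hKd.hasFDerivAt (hasFDerivAt_prodMk_right t₀ p₀)
  have hid : (fderiv ℝ (fun x : ℝ × R4 => Φ.invFun (J x)) (t₀, p₀)).comp
        (ContinuousLinearMap.inr ℝ ℝ R4) = ContinuousLinearMap.id ℝ R4 := by
    rw [← hsl'.fderiv, hsl.fderiv_eq, fderiv_id]
  have hinj : ∀ v, fderiv ℝ (fun x : ℝ × R4 => (x.1, Φ.invFun (J x))) (t₀, p₀) v = 0 → v = 0 := by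
    rintro ⟨τ, v⟩ hv
    rw [hGd] at hv
    have h1 : τ = 0 := congrArg Prod.fst hv
    have h2 : fderiv ℝ (fun x : ℝ × R4 => Φ.invFun (J x)) (t₀, p₀) (τ, v) = 0 :=
      congrArg Prod.snd hv
    subst h1
    have h3 := DFunLike.congr_fun hid v
    rw [ContinuousLinearMap.comp_apply, ContinuousLinearMap.inr_apply, h2] at h3
    have h4 : v = 0 := h3.symm
    rw [h4]
    rfl
  have hGloc : IsLocalDiffeomorphAt 𝓘(ℝ, ℝ × R4) 𝓘(ℝ, ℝ × R4) ∞
      (fun x : ℝ × R4 => (x.1, Φ.invFun (J x))) (t₀, p₀) :=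
    (h0 (ℝ × R4) _ _).2 ⟨⟨_, hW', hqW', hG⟩, hinj⟩
  have hmem : ((t₀, Φ.invFun (J (t₀, p₀))) : ℝ × R4) ∈ (idProd Φ).source :=
    ⟨mem_univ _, Φ.map_target hJq⟩
  have hcomp := hGloc.comp (K := 𝓘(ℝ, ℝ).prod I) (P := ℝ × M) (g := (idProd Φ).toFun)
    ((idProd Φ).isLocalDiffeomorphAt _ _ _ hmem)
  refine congr_at hcomp hW' hqW' ?_
  intro x hx
  exact Prod.ext rfl (Φ.right_inv hx.2).symm

end Pool.Agent.Helper18.BI


end

/-! ## Helper18.BI.M_S2 -/

section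

/-!
# Project BI: module S2 (smoothness of the compression)
-/

set_option autoImplicit false

open scoped Manifold ContDiff Topology ComplexConjugate
open Set Pool.Agent.Helper65.Barb

namespace Pool.Agent.Helper18.BI

namespace S2

theorem rad_pos (u ε : ℝ) (hε : 0 < ε) : 0 < u ^ 2 + ε ^ 2 := by positivity

theorem add_sqrt_pos (u ε : ℝ) (hε : 0 < ε) : 0 < u + √(u ^ 2 + ε ^ 2) := by
  have h1 : |u| < √(u ^ 2 + ε ^ 2) := by
    rw [← Real.sqrt_sq_eq_abs]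
    exact Real.sqrt_lt_sqrt (sq_nonneg u) (by nlinarith [pow_pos hε 2])
  have h2 := neg_abs_le u
  linarith

theorem prof_pos (ε a : ℝ) (hε : 0 < ε) : 0 < prof ε a := by
  unfold prof
  have h1 := add_sqrt_pos (1 / 25 - a ^ 2) ε hε
  have h2 := add_sqrt_pos (1 / 25 - (a - 1) ^ 2) ε hε
  linarith

section
variable {X : Type*} [NormedAddCommGroup X] [NormedSpace ℝ X]

theorem sqrt_smooth {f g : X → ℝ} {x : X} (hf : ContDiffAt ℝ ∞ f x) (hg : ContDiffAt ℝ ∞ g x)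
    (h : 0 < g x) : ContDiffAt ℝ ∞ (fun y => √(f y ^ 2 + g y ^ 2)) x :=
  ((hf.pow 2).add (hg.pow 2)).sqrt (rad_pos (f x) (g x) h).ne'

theorem prof_smooth {e a : X → ℝ} {x : X} (he : ContDiffAt ℝ ∞ e x) (ha : ContDiffAt ℝ ∞ a x)
    (h : 0 < e x) : ContDiffAt ℝ ∞ (fun y => prof (e y) (a y)) x := by
  have h1 : ContDiffAt ℝ ∞ (fun y => 1 / 25 - a y ^ 2) x := contDiffAt_const.sub (ha.pow 2)
  have h2 : ContDiffAt ℝ ∞ (fun y => 1 / 25 - (a y - 1) ^ 2) x :=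
    contDiffAt_const.sub ((ha.sub contDiffAt_const).pow 2)
  exact ((h1.add (sqrt_smooth h1 he h)).div_const 2).add
    ((h2.add (sqrt_smooth h2 he h)).div_const 2)

theorem axc_smooth {e a : X → ℝ} {x : X} (he : ContDiffAt ℝ ∞ e x) (ha : ContDiffAt ℝ ∞ a x)
    (h : 0 < e x) : ContDiffAt ℝ ∞ (fun y => axc (e y) (a y)) x := by
  have h1 : ContDiffAt ℝ ∞ (fun y => a y + 1 / 5) x := ha.add contDiffAt_const
  have h2 : ContDiffAt ℝ ∞ (fun y => a y - 6 / 5) x := ha.sub contDiffAt_const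
  exact contDiffAt_const.add (((sqrt_smooth h1 he h).sub (sqrt_smooth h2 he h)).div_const 2)

theorem fac_smooth {e a k : X → ℝ} {x : X} (he : ContDiffAt ℝ ∞ e x) (ha : ContDiffAt ℝ ∞ a x)
    (hk : ContDiffAt ℝ ∞ k x) (h : 0 < e x)
    (h1 : 0 < (k x - prof (e x) (a x)) ^ 2 + 2 * e x * (k x + prof (e x) (a x)) + e x ^ 2)
    (h2 : 0 < k x + prof (e x) (a x) + e x +
      √((k x - prof (e x) (a x)) ^ 2 + 2 * e x * (k x + prof (e x) (a x)) + e x ^ 2)) :
    ContDiffAt ℝ ∞ (fun y => fac (e y) (a y) (k y)) x := by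
  have hp := prof_smooth he ha h
  have hr : ContDiffAt ℝ ∞ (fun y => √((k y - prof (e y) (a y)) ^ 2 +
      2 * e y * (k y + prof (e y) (a y)) + e y ^ 2)) x :=
    ((((hk.sub hp).pow 2).add ((contDiffAt_const.mul he).mul (hk.add hp))).add
      (he.pow 2)).sqrt h1.ne'
  have hd : ContDiffAt ℝ ∞ (fun y => k y + prof (e y) (a y) + e y +
      √((k y - prof (e y) (a y)) ^ 2 + 2 * e y * (k y + prof (e y) (a y)) + e y ^ 2)) x :=
    ((hk.add hp).add he).add hr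
  have hq := (contDiffAt_const (c := (2 : ℝ))).mul hp |>.div hd h2.ne'
  exact hq.sqrt (div_pos (mul_pos two_pos (prof_pos _ _ h)) h2).ne'

end

theorem pos1 (ε g k : ℝ) (hε : 0 < ε) (hg : 0 < g) (hk : 0 ≤ k) :
    0 < (k - g) ^ 2 + 2 * ε * (k + g) + ε ^ 2 := by positivity

theorem pos2 (ε g k : ℝ) (hε : 0 < ε) (hg : 0 < g) (hk : 0 ≤ k) :
    0 < k + g + ε + √((k - g) ^ 2 + 2 * ε * (k + g) + ε ^ 2) := by positivity

theorem frac_lt (u v ε : ℝ) (hε : 0 < ε) (huv : v < u) :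
    v / √(v ^ 2 + ε ^ 2) < u / √(u ^ 2 + ε ^ 2) := by
  have hA : 0 < √(u ^ 2 + ε ^ 2) := Real.sqrt_pos.2 (rad_pos u ε hε)
  have hB : 0 < √(v ^ 2 + ε ^ 2) := Real.sqrt_pos.2 (rad_pos v ε hε)
  have hA2 := Real.sq_sqrt (rad_pos u ε hε).le
  have hB2 := Real.sq_sqrt (rad_pos v ε hε).le
  rw [div_lt_div_iff₀ hB hA]
  set A := √(u ^ 2 + ε ^ 2)
  set B := √(v ^ 2 + ε ^ 2)
  rcases lt_or_ge v 0 with hv | hv
  · rcases lt_or_ge u 0 with hu | hu
    · have h1 : (-u * B) ^ 2 < (-v * A) ^ 2 := by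
        have : (-v * A) ^ 2 - (-u * B) ^ 2 = ε ^ 2 * ((v - u) * (v + u)) := by
          linear_combination v ^ 2 * hA2 - u ^ 2 * hB2
        have h3 : 0 < (v - u) * (v + u) := mul_pos_of_neg_of_neg (by linarith) (by linarith)
        have := mul_pos (pow_pos hε 2) h3
        linarith
      have h2 : -u * B < -v * A :=
        lt_of_pow_lt_pow_left₀ 2 (mul_nonneg (by linarith) hA.le) h1
      linarith
    · have h1 : v * A < 0 := mul_neg_of_neg_of_pos hv hA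
      have h2 : 0 ≤ u * B := mul_nonneg hu hB.le
      linarith
  · have h1 : (v * A) ^ 2 < (u * B) ^ 2 := by
      have : (u * B) ^ 2 - (v * A) ^ 2 = ε ^ 2 * ((u - v) * (u + v)) := by
        linear_combination u ^ 2 * hB2 - v ^ 2 * hA2
      have h3 : 0 < (u - v) * (u + v) := mul_pos (by linarith) (by linarith)
      have := mul_pos (pow_pos hε 2) h3
      linarith
    exact lt_of_pow_lt_pow_left₀ 2 (mul_nonneg (by linarith) hB.le) h1

theorem sqrt_deriv (c ε a : ℝ) (hε : 0 < ε) :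
    HasDerivAt (fun a => √((a + c) ^ 2 + ε ^ 2)) ((a + c) / √((a + c) ^ 2 + ε ^ 2)) a := by
  have h1 : HasDerivAt (fun a => (a + c) ^ 2 + ε ^ 2) (2 * (a + c)) a := by
    have h2 : HasDerivAt (fun a : ℝ => a + c) 1 a := (hasDerivAt_id a).add_const c
    have h3 := (h2.pow 2).add_const (ε ^ 2)
    simpa using h3
  have h4 := h1.sqrt (rad_pos (a + c) ε hε).ne'
  have e : (a + c) / √((a + c) ^ 2 + ε ^ 2) = 2 * (a + c) / (2 * √((a + c) ^ 2 + ε ^ 2)) := by
    rw [mul_div_mul_left _ _ two_ne_zero]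
  rw [e]
  exact h4

end S2

open S2 in
theorem m_S2 : StS2 := by
  refine ⟨fun ε a h => prof_pos ε a h, fun ε hε => ⟨?_, ?_⟩, fun ε hε => ?_, ?_⟩
  · exact contDiff_iff_contDiffAt.2 fun a =>
      axc_smooth (e := fun _ => ε) (a := fun y => y) contDiffAt_const contDiffAt_id hε
  · refine ⟨fun a => ((a + 1 / 5) / √((a + 1 / 5) ^ 2 + ε ^ 2) -
      (a - 6 / 5) / √((a - 6 / 5) ^ 2 + ε ^ 2)) / 2, fun a => ⟨?_, ?_⟩⟩
    · have h1 := sqrt_deriv (1 / 5) ε a hε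
      have h2 := sqrt_deriv (-(6 / 5)) ε a hε
      simp only [← sub_eq_add_neg] at h2
      exact ((h1.sub h2).div_const 2).const_add (1 / 2)
    · have := frac_lt (a + 1 / 5) (a - 6 / 5) ε hε (by linarith)
      show 0 < (_ - _) / 2
      linarith
  · have hc : Continuous (fun x : ℝ × ℝ => prof ε x.1) := by
      have : ContDiff ℝ ∞ (fun x : ℝ × ℝ => prof ε x.1) :=
        contDiff_iff_contDiffAt.2 fun x =>
          prof_smooth (e := fun _ => ε) (a := fun y : ℝ × ℝ => y.1) contDiffAt_const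
            contDiffAt_fst hε
      exact this.continuous
    have hD : Continuous (fun x : ℝ × ℝ => (x.2 - prof ε x.1) ^ 2 +
        2 * ε * (x.2 + prof ε x.1) + ε ^ 2) := by
      fun_prop
    have hS : Continuous (fun x : ℝ × ℝ => x.2 + prof ε x.1 + ε +
        √((x.2 - prof ε x.1) ^ 2 + 2 * ε * (x.2 + prof ε x.1) + ε ^ 2)) := by
      exact ((continuous_snd.add hc).add continuous_const).add (Real.continuous_sqrt.comp hD)
    refine ⟨{x | 0 < (x.2 - prof ε x.1) ^ 2 + 2 * ε * (x.2 + prof ε x.1) + ε ^ 2} ∩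
      {x | 0 < x.2 + prof ε x.1 + ε +
        √((x.2 - prof ε x.1) ^ 2 + 2 * ε * (x.2 + prof ε x.1) + ε ^ 2)},
      (isOpen_lt continuous_const hD).inter (isOpen_lt continuous_const hS), ?_, ?_⟩
    · intro a k hk
      exact ⟨pos1 ε _ k hε (prof_pos ε a hε) hk, pos2 ε _ k hε (prof_pos ε a hε) hk⟩
    · intro x hx
      exact (fac_smooth (e := fun _ => ε) (a := fun y : ℝ × ℝ => y.1) (k := fun y => y.2)
        contDiffAt_const contDiffAt_fst contDiffAt_snd hε hx.1 hx.2).contDiffWithinAt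
  · intro q hq
    have hε : 0 < q.1 := hq.1
    have he : ContDiffAt ℝ ∞ (fun y : ℝ × R4 => y.1) q := contDiffAt_fst
    have h1 : ContDiffAt ℝ ∞ (fun y : ℝ × R4 => y.2.1) q := contDiffAt_snd.fst
    have h2 : ContDiffAt ℝ ∞ (fun y : ℝ × R4 => y.2.2.1) q := contDiffAt_snd.snd.fst
    have h3 : ContDiffAt ℝ ∞ (fun y : ℝ × R4 => y.2.2.2) q := contDiffAt_snd.snd.snd
    have hk : ContDiffAt ℝ ∞ (fun y : ℝ × R4 => Complex.normSq y.2.2.2) q := by
      have hre : ContDiffAt ℝ ∞ (fun y : ℝ × R4 => y.2.2.2.re) q :=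
        Complex.reCLM.contDiff.contDiffAt.comp q h3
      have him : ContDiffAt ℝ ∞ (fun y : ℝ × R4 => y.2.2.2.im) q :=
        Complex.imCLM.contDiff.contDiffAt.comp q h3
      simp only [Complex.normSq_apply]
      exact (hre.mul hre).add (him.mul him)
    have hg := prof_pos q.1 q.2.2.1 hε
    have hk0 : 0 ≤ Complex.normSq q.2.2.2 := Complex.normSq_nonneg _
    have hf : ContDiffAt ℝ ∞ (fun y : ℝ × R4 => fac y.1 y.2.2.1 (Complex.normSq y.2.2.2)) q :=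
      fac_smooth he h2 hk hε (pos1 _ _ _ hε hg hk0) (pos2 _ _ _ hε hg hk0)
    have hf' : ContDiffAt ℝ ∞ (fun y : ℝ × R4 =>
        ((fac y.1 y.2.2.1 (Complex.normSq y.2.2.2) : ℝ) : ℂ)) q :=
      Complex.ofRealCLM.contDiff.contDiffAt.comp q hf
    have hfin : ContDiffAt ℝ ∞ (fun q : ℝ × R4 => sq q.1 q.2) q := by
      unfold sq
      exact (contDiffAt_const.add (he.mul (h1.sub contDiffAt_const))).prodMk
        ((axc_smooth he h2 hε).prodMk (hf'.mul h3))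
    exact hfin.contDiffWithinAt

end Pool.Agent.Helper18.BI


end

/-! ## Helper18.BI.M_S5 -/

section

/-!
# Module S5: the tube lemma
-/

set_option autoImplicit false

open scoped Manifold ContDiff Topology ComplexConjugate
open Set Pool.Agent.Helper65.Barb

namespace Pool.Agent.Helper18.BI

namespace S5

theorem tube (g : ℝ → ℝ × R4 → ℝ × R4)
    (hg : ContinuousOn (fun q : ℝ × (ℝ × R4) => g q.1 q.2) (Ici 0 ×ˢ univ))
    {C : Set (ℝ × R4)} (hC : IsCompact C) {U : Set (ℝ × R4)} (hU : IsOpen U)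
    (h : ∀ c ∈ C, g 0 c ∈ U) : ∃ ε₀ > 0, ∀ ε ∈ Ioo 0 ε₀, ∀ c ∈ C, g ε c ∈ U := by
  have h1 : Continuous (fun q : ℝ × (ℝ × R4) => ((max q.1 0, q.2) : ℝ × (ℝ × R4))) := by
    fun_prop
  have hcont : Continuous (fun q : ℝ × (ℝ × R4) => g (max q.1 0) q.2) :=
    hg.comp_continuous h1 (fun q => mk_mem_prod (mem_Ici.2 (le_max_right q.1 0)) (mem_univ _))
  obtain ⟨u, v, hu, hv, hu0, hCv, huv⟩ := generalized_tube_lemma
    (isCompact_singleton (x := (0 : ℝ))) hC (hU.preimage hcont) (by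
      rintro ⟨a, c⟩ ⟨ha, hc⟩
      have ha' : a = 0 := ha
      show g (max a 0) c ∈ U
      rw [ha', max_self]
      exact h c hc)
  obtain ⟨ε₀, hε₀, hball⟩ := Metric.isOpen_iff.1 hu 0 (hu0 rfl)
  refine ⟨ε₀, hε₀, fun ε hε c hc => ?_⟩
  have hε1 : ε ∈ u := by
    apply hball
    rw [Metric.mem_ball, Real.dist_eq, sub_zero, abs_of_pos hε.1]
    exact hε.2
  have h2 : g (max ε 0) c ∈ U := huv (mk_mem_prod hε1 (hCv hc))
  rwa [max_eq_left hε.1.le] at h2

end S5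

theorem m_S5 (h3 : StS3) : StS5 := by
  intro K U hK hU
  have hC : IsCompact (Icc (0 : ℝ) 1 ×ˢ K) := isCompact_Icc.prod hK
  have hsq : ContinuousOn (fun q : ℝ × (ℝ × R4) => sq q.1 q.2.2) (Ici 0 ×ˢ univ) := by
    have h1 : Continuous (fun q : ℝ × (ℝ × R4) => ((q.1, q.2.2) : ℝ × R4)) := by fun_prop
    exact ContinuousOn.comp (g := fun q : ℝ × R4 => sq q.1 q.2) (t := Ici 0 ×ˢ univ) h3
      h1.continuousOn (fun q hq => ⟨hq.1, mem_univ _⟩)
  have ht : ContinuousOn (fun q : ℝ × (ℝ × R4) => q.2.1) (Ici (0 : ℝ) ×ˢ (univ : Set (ℝ × R4))) :=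
    (continuous_fst.comp continuous_snd).continuousOn
  have hp : ContinuousOn (fun q : ℝ × (ℝ × R4) => q.2.2) (Ici (0 : ℝ) ×ˢ (univ : Set (ℝ × R4))) :=
    (continuous_snd.comp continuous_snd).continuousOn
  refine ⟨fun h => ?_, fun h => ?_⟩
  · obtain ⟨ε₀, h0, h1⟩ := S5.tube (fun ε c => (c.1, sq ε c.2)) (ht.prodMk hsq) hC hU
      (fun c hc => h c.1 hc.1 c.2 hc.2)
    exact ⟨ε₀, h0, fun ε hε t ht p hp => h1 ε hε (t, p) ⟨ht, hp⟩⟩
  · obtain ⟨ε₀, h0, h1⟩ := S5.tube (fun ε c => (c.1, hom ε c)) (ht.prodMk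
      (((continuousOn_const.sub ht).smul hsq).add (ht.smul hp))) hC hU
      (fun c hc => h c.1 hc.1 c.2 hc.2)
    exact ⟨ε₀, h0, fun ε hε t ht p hp => h1 ε hε (t, p) ⟨ht, hp⟩⟩

end Pool.Agent.Helper18.BI


end

/-! ## Helper18.BI.M_T1 -/

section

/-!
# Project BI (MP_8e98f2_gt), module T1: thin lemma, the four families
-/

set_option autoImplicit false

open scoped Manifold ContDiff Topology ComplexConjugate
open Set Pool.Agent.Helper65.Barb

namespace Pool.Agent.Helper18.BI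

namespace T1

variable {E : Type} [NormedAddCommGroup E] [NormedSpace ℝ E] {H : Type} [TopologicalSpace H]
    {I : ModelWithCorners ℝ E H} {M : Type} [TopologicalSpace M] [ChartedSpace H M]

variable (I) in
/-- a good open set for the family `J` -/
structure Good (J : ℝ × R4 → M) (U : Set (ℝ × R4)) : Prop where
  op : IsOpen U
  sm : ContMDiffOn 𝓘(ℝ, ℝ × R4) I ∞ J U
  inj : InjOn (fun q : ℝ × R4 => (q.1, J q)) U
  loc : ∀ q ∈ U, IsLocalDiffeomorphAt 𝓘(ℝ, R4) I ∞ (fun p => J (q.1, p)) q.2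

theorem good_of_delta {J : ℝ × R4 → M}
    (δ : PartialDiffeomorph 𝓘(ℝ, ℝ × R4) (𝓘(ℝ, ℝ).prod I) (ℝ × R4) (ℝ × M) ∞)
    (hδ : ∀ q ∈ δ.source, δ q = (q.1, J q)) : Good I J δ.source := by
  have hsm : ContMDiffOn 𝓘(ℝ, ℝ × R4) I ∞ J δ.source := by
    refine (contMDiff_snd.comp_contMDiffOn δ.contMDiffOn_toFun).congr ?_
    intro q hq
    have := hδ q hq
    change J q = (δ q).2
    rw [this]
  refine ⟨δ.open_source, hsm, ?_, ?_⟩
  · intro q hq q' hq' h
    apply δ.injOn hq hq'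
    rw [hδ q hq, hδ q' hq']
    exact h
  · intro q hq
    have hL : ContDiff ℝ ∞ (fun p : R4 => (q.1, p)) := contDiff_const.prodMk contDiff_id
    have hR : ContMDiff I (𝓘(ℝ, ℝ).prod I) ∞ (fun y : M => (q.1, y)) :=
      contMDiff_const.prodMk contMDiff_id
    have key : ∀ y : M, (q.1, y) ∈ δ.target →
        (q.1, (δ.toPartialEquiv.symm (q.1, y)).2) = δ.toPartialEquiv.symm (q.1, y) := by
      intro y hy
      have h1 : δ.toPartialEquiv.symm (q.1, y) ∈ δ.source := δ.map_target hy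
      have h2 : δ (δ.toPartialEquiv.symm (q.1, y)) = (q.1, y) := δ.right_inv hy
      rw [hδ _ h1] at h2
      have h3 := congrArg Prod.fst h2
      exact Prod.ext h3.symm rfl
    refine ⟨{ toFun := fun p => J (q.1, p)
              invFun := fun y => (δ.toPartialEquiv.symm (q.1, y)).2
              source := {p | (q.1, p) ∈ δ.source}
              target := {y | (q.1, y) ∈ δ.target}
              map_source' := ?_
              map_target' := ?_
              left_inv' := ?_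
              right_inv' := ?_
              open_source := ?_
              open_target := ?_
              contMDiffOn_toFun := ?_
              contMDiffOn_invFun := ?_ }, hq, fun _ _ => rfl⟩
    · intro p hp
      have h1 := hδ _ hp
      have h2 := δ.map_source hp
      change (q.1, J (q.1, p)) ∈ δ.target
      have h3 : δ (q.1, p) ∈ δ.target := h2
      rw [h1] at h3
      exact h3
    · intro y hy
      change (q.1, (δ.toPartialEquiv.symm (q.1, y)).2) ∈ δ.source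
      rw [key y hy]
      exact δ.map_target hy
    · intro p hp
      have h1 := hδ _ hp
      have h2 : δ.toPartialEquiv.symm (δ (q.1, p)) = (q.1, p) := δ.left_inv hp
      rw [h1] at h2
      change (δ.toPartialEquiv.symm (q.1, J (q.1, p))).2 = p
      have h3 : (q.1, J (q.1, p)) = (((q.1, p) : ℝ × R4).1, J (q.1, p)) := rfl
      rw [h3, h2]
    · intro y hy
      rw [key y hy]
      have h1 : δ.toPartialEquiv.symm (q.1, y) ∈ δ.source := δ.map_target hy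
      have h2 : δ (δ.toPartialEquiv.symm (q.1, y)) = (q.1, y) := δ.right_inv hy
      rw [hδ _ h1] at h2
      exact congrArg Prod.snd h2
    · exact δ.open_source.preimage hL.continuous
    · exact δ.open_target.preimage hR.continuous
    · exact hsm.comp hL.contMDiff.contMDiffOn (fun p hp => hp)
    · have h1 : ContMDiffOn (𝓘(ℝ, ℝ).prod I) 𝓘(ℝ, ℝ × R4) ∞ δ.toPartialEquiv.symm δ.target :=
        δ.contMDiffOn_invFun
      have h2 : ContMDiffOn I 𝓘(ℝ, ℝ × R4) ∞ (fun y => δ.toPartialEquiv.symm (q.1, y))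
          {y | (q.1, y) ∈ δ.target} := h1.comp hR.contMDiffOn (fun p hp => hp)
      have h3 : ContDiff ℝ ∞ (fun q : ℝ × R4 => q.2) := contDiff_snd
      exact h3.contMDiff.comp_contMDiffOn h2

theorem exists_good [T2Space M] (a1 : StA1) (a2 : StA2) {J : ℝ × R4 → M} {L : Set R4}
    (hL : IsCompact L) (hJ : FamOn I J L) :
    ∃ U : Set (ℝ × R4), Icc 0 1 ×ˢ L ⊆ U ∧ Good I J U := by
  obtain ⟨δ, h1, h2⟩ := a1 (ℝ × R4) (ℝ × E) (ModelProd ℝ H) (𝓘(ℝ, ℝ).prod I) (ℝ × M)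
    (fun q => (q.1, J q)) (Icc 0 1 ×ˢ L) (isCompact_Icc.prod hL) (a2 E H I M J L hJ) (by
      intro q hq q' hq' h
      have h0 : ((q.1, J q) : ℝ × M) = (q'.1, J q') := h
      obtain ⟨h3, h4⟩ := Prod.mk.inj h0
      refine Prod.ext h3 ?_
      apply (hJ.2 q.1 hq.1).2 hq.2 hq'.2
      change J (q.1, q.2) = J (q.1, q'.2)
      rw [Prod.mk.eta, h4, h3])
  exact ⟨δ.source, h1, good_of_delta δ h2⟩

/-- composition of a family of germs in `R4` with a good family -/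
theorem fam_comp {J : ℝ × R4 → M} {U : Set (ℝ × R4)} (hU : Good I J U) {G : ℝ × R4 → R4}
    {K : Set R4} (hG : FamOn 𝓘(ℝ, R4) G K)
    (hm : ∀ t ∈ Icc (0 : ℝ) 1, ∀ p ∈ K, (t, G (t, p)) ∈ U) :
    FamOn I (fun q => J (q.1, G q)) K := by
  obtain ⟨⟨W, hW, hWK, hGW⟩, hG2⟩ := hG
  have hc : ContDiffOn ℝ ∞ (fun q : ℝ × R4 => (q.1, G q)) W :=
    contDiff_fst.contDiffOn.prodMk (contMDiffOn_iff_contDiffOn.1 hGW)
  refine ⟨⟨W ∩ (fun q : ℝ × R4 => (q.1, G q)) ⁻¹' U,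
    hc.continuousOn.isOpen_inter_preimage hW hU.op, ?_, ?_⟩, ?_⟩
  · intro q hq
    exact ⟨hWK hq, hm q.1 hq.1 q.2 hq.2⟩
  · exact hU.sm.comp (hc.contMDiffOn.mono inter_subset_left) (fun q hq => hq.2)
  · intro t ht
    refine ⟨?_, ?_⟩
    · intro p hp
      exact IsLocalDiffeomorphAt.comp I M ((hG2 t ht).1 p hp) (hU.loc (t, G (t, p)) (hm t ht p hp))
    · intro p hp p' hp' h
      have h1 := hU.inj (hm t ht p hp) (hm t ht p' hp') (Prod.ext rfl h)
      exact (hG2 t ht).2 hp hp' (congrArg Prod.snd h1)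

/-- the constant family -/
theorem fam_const [T2Space M] (a1 : StA1) {F : R4 → M} {L : Set R4} (hL : IsCompact L)
    (hF : EmbOn I F L) : FamOn I (fun q : ℝ × R4 => F q.2) L := by
  obtain ⟨δ, h1, h2⟩ := a1 R4 E H I M F L hL hF.1 hF.2
  refine ⟨⟨Prod.snd ⁻¹' δ.source, δ.open_source.preimage continuous_snd,
    fun q hq => h1 hq.2, ?_⟩, fun t _ => hF⟩
  have h3 : ContMDiffOn 𝓘(ℝ, R4) I ∞ F δ.source :=
    δ.contMDiffOn_toFun.congr (fun p hp => (h2 p hp).symm)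
  have h4 : ContDiff ℝ ∞ (fun q : ℝ × R4 => q.2) := contDiff_snd
  exact h3.comp h4.contMDiff.contMDiffOn (fun q hq => hq)

theorem emb_mono {F : R4 → M} {L L' : Set R4} (hF : EmbOn I F L) (h : L' ⊆ L) : EmbOn I F L' :=
  ⟨fun p hp => hF.1 p (h hp), hF.2.mono h⟩

theorem hom_zero_of_FB (s4 : StS4) {q : R4} (hq : q ∈ FB) (t : ℝ) : hom 0 (t, q) = q := by
  have h : sq 0 q = q := s4.2.2.2.1 q hq
  simp only [hom, h]
  rw [← add_smul]
  simp

end T1

open T1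

theorem m_T1 (a0 : StA0) (a1 : StA1) (a2 : StA2) (s2 : StS2) (s4 : StS4) (s5 : StS5)
    (s6 : StS6) : StT1 := by
  have _ := a0
  intro E _ _ H _ I M _ _ _ L K hL hK
  obtain ⟨s61, s62, s63⟩ := s6
  refine ⟨?_, ?_, ?_, ?_⟩
  · intro hKL J hJ
    obtain ⟨U, hUL, hU⟩ := exists_good a1 a2 hL hJ
    obtain ⟨ε₀, h0, h1⟩ := (s5 K U hK hU.op).1 (fun t ht p hp => hUL ⟨ht, hKL p hp⟩)
    refine ⟨ε₀, h0, fun ε hε => ?_⟩
    refine fam_comp hU (G := fun q => sq ε q.2) ?_ (h1 ε hε)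
    refine ⟨⟨univ, isOpen_univ, subset_univ _, ?_⟩, fun t _ =>
      emb_mono (s61 ε hε.1) (subset_univ _)⟩
    rw [contMDiffOn_iff_contDiffOn]
    have h2 : ContDiff ℝ ∞ (fun q : ℝ × R4 => (ε, q.2)) := contDiff_const.prodMk contDiff_snd
    exact s2.2.2.2.comp h2.contDiffOn (fun q _ => ⟨hε.1, mem_univ _⟩)
  · intro hKL F hF
    obtain ⟨U, hUL, hU⟩ := exists_good a1 a2 hL (fam_const a1 hL hF)
    obtain ⟨ε₀, h0, h1⟩ := (s5 K U hK hU.op).2 (fun t ht p hp => hUL ⟨ht, hKL p hp t ht⟩)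
    refine ⟨ε₀, h0, fun ε hε => ?_⟩
    refine fam_comp (J := fun q : ℝ × R4 => F q.2) hU (G := hom ε) ?_ (h1 ε hε)
    exact ⟨⟨univ, isOpen_univ, subset_univ _, (s62 ε hε.1).contMDiff.contMDiffOn⟩, fun t ht =>
      emb_mono (s63 ε hε.1 t ht) (subset_univ _)⟩
  · intro hKL F hF
    obtain ⟨U, hUL, hU⟩ := exists_good a1 a2 hL (fam_const a1 hL hF)
    obtain ⟨ε₀, h0, h1⟩ := (s5 K U hK hU.op).1 (fun t ht p hp => hUL ⟨ht, hKL p hp⟩)
    refine ⟨ε₀, h0, fun ε₁ hε₁ ε₂ hε₂ => ?_⟩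
    have hmem : ∀ t ∈ Icc (0 : ℝ) 1, (1 - t) * ε₁ + t * ε₂ ∈ Ioo 0 ε₀ := by
      intro t ht
      have := (convex_Ioo (0 : ℝ) ε₀) hε₁ hε₂ (sub_nonneg.2 ht.2) ht.1 (by ring)
      simpa [smul_eq_mul] using this
    refine fam_comp (J := fun q : ℝ × R4 => F q.2) hU
      (G := fun q => sq ((1 - q.1) * ε₁ + q.1 * ε₂) q.2) ?_
      (fun t ht p hp => h1 _ (hmem t ht) t ht p hp)
    have hc : ContDiff ℝ ∞ (fun q : ℝ × R4 => ((1 - q.1) * ε₁ + q.1 * ε₂, q.2)) :=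
      (((contDiff_const.sub contDiff_fst).mul contDiff_const).add
        (contDiff_fst.mul contDiff_const)).prodMk contDiff_snd
    refine ⟨⟨(fun q : ℝ × R4 => ((1 - q.1) * ε₁ + q.1 * ε₂, q.2)) ⁻¹' (Ioi 0 ×ˢ univ),
      (isOpen_Ioi.prod isOpen_univ).preimage hc.continuous, ?_, ?_⟩, fun t ht =>
      emb_mono (s61 _ (hmem t ht).1) (subset_univ _)⟩
    · intro q hq
      exact ⟨(hmem q.1 hq.1).1, mem_univ _⟩
    · rw [contMDiffOn_iff_contDiffOn]
      exact s2.2.2.2.comp hc.contDiffOn (fun q hq => hq)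
  · intro hLF F hF m hm hmK
    obtain ⟨U, hUL, hU⟩ := exists_good a1 a2 hL (fam_const a1 hL hF)
    have hmc : ContinuousOn m K := fun p hp => ((hm.1 p hp).contMDiffAt).continuousAt.continuousWithinAt
    obtain ⟨ε₀, h0, h1⟩ := (s5 (m '' K) U (hK.image_of_continuousOn hmc) hU.op).2 (by
      rintro t ht _ ⟨p, hp, rfl⟩
      rw [hom_zero_of_FB s4 (hLF (hmK hp))]
      exact hUL ⟨ht, hmK hp⟩)
    refine ⟨ε₀, h0, fun ε hε => ?_⟩
    refine fam_comp (J := fun q : ℝ × R4 => F q.2) hU (G := fun q => hom ε (q.1, m q.2)) ?_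
      (fun t ht p hp => h1 ε hε t ht (m p) (mem_image_of_mem m hp))
    obtain ⟨⟨W, hW, hWK, hmW⟩, -⟩ := fam_const a1 hK hm
    refine ⟨⟨W, hW, hWK, ?_⟩, fun t ht => ⟨?_, ?_⟩⟩
    · rw [contMDiffOn_iff_contDiffOn] at hmW ⊢
      exact (s62 ε hε.1).comp_contDiffOn (contDiff_fst.contDiffOn.prodMk hmW)
    · intro p hp
      exact IsLocalDiffeomorphAt.comp 𝓘(ℝ, R4) R4 (hm.1 p hp)
        ((s63 ε hε.1 t ht).1 (m p) (mem_univ _))
    · intro p hp p' hp' h
      exact hm.2 hp hp' ((s63 ε hε.1 t ht).2 (mem_univ _) (mem_univ _) h)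

end Pool.Agent.Helper18.BI


end

/-! ## Helper18.BI.M_T2 -/

section

/-!
# Project BI: module T2 (the implantation class of a germ)
-/

set_option autoImplicit false

open scoped Manifold ContDiff Topology ComplexConjugate
open Set Pool.Agent.Helper65.Barb

namespace Pool.Agent.Helper18.BI

namespace T2

section
variable {E : Type*} [NormedAddCommGroup E] [NormedSpace ℝ E] {H : Type*} [TopologicalSpace H]
  {I : ModelWithCorners ℝ E H} {M : Type*} [TopologicalSpace M] [ChartedSpace H M]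

/-- the identity of an open set as a partial diffeomorphism -/
noncomputable def idOn (V : Set R4) (hV : IsOpen V) :
    PartialDiffeomorph 𝓘(ℝ, R4) 𝓘(ℝ, R4) R4 R4 ∞ where
  toPartialEquiv := PartialEquiv.ofSet V
  open_source := hV
  open_target := hV
  contMDiffOn_toFun := contMDiffOn_id
  contMDiffOn_invFun := contMDiffOn_id

theorem congr_ld {f g : R4 → M} {V : Set R4} (hV : IsOpen V) (hfg : EqOn f g V) {x : R4}
    (hx : x ∈ V) (hf : IsLocalDiffeomorphAt 𝓘(ℝ, R4) I ∞ f x) :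
    IsLocalDiffeomorphAt 𝓘(ℝ, R4) I ∞ g x := by
  obtain ⟨Φ, hxΦ, he⟩ := hf
  refine ⟨(idOn V hV).trans Φ, ?_, ?_⟩
  · exact ⟨hx, hxΦ⟩
  · rintro y ⟨hy, hyΦ⟩
    exact (hfg hy).symm.trans (he hyΦ)

theorem diff_ld {Ψ Ψ' : M → M} (h1 : ContMDiff I I ∞ Ψ) (h2 : ContMDiff I I ∞ Ψ')
    (h3 : ∀ x, Ψ (Ψ' x) = x) (h4 : ∀ x, Ψ' (Ψ x) = x) (x : M) :
    IsLocalDiffeomorphAt I I ∞ Ψ x := by
  let d : M ≃ₘ⟮I, I⟯ M :=
    { toFun := Ψ
      invFun := Ψ'
      left_inv := h4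
      right_inv := h3
      contMDiff_toFun := h1
      contMDiff_invFun := h2 }
  exact d.isLocalDiffeomorph x

end

theorem sdiff_bar : SDiff bsupp barMap (fun p => bfam.g (1, p)) := by
  refine ⟨?_, ?_, fun p => bfam.fg 1 p, fun p => bfam.gf 1 p, fun p hp => barMap_off hp⟩
  · exact contMDiff_iff_contDiff.1 (bfam.diffeo 1).contMDiff_toFun
  · exact contMDiff_iff_contDiff.1 (bfam.diffeo 1).contMDiff_invFun

theorem maps_bar : MapsTo barMap bsupp bsupp := by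
  intro p hp
  by_contra h
  have h1 : barMap (barMap p) = barMap p := barMap_off h
  have h2 : barMap p = p := by
    have h3 := congrArg (fun q => bfam.g (1, q)) h1
    have h4 : ∀ q, bfam.g (1, barMap q) = q := fun q => bfam.gf 1 q
    simpa [h4] using h3
  rw [h2] at h
  exact h hp

theorem sq_cont (ε : ℝ) (hε : 0 < ε) : Continuous (sq ε) := by
  have h := m_S2.2.2.2.continuousOn
  have h1 : Continuous (fun p : R4 => ((ε, p) : ℝ × R4)) := by fun_prop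
  exact h.comp_continuous h1 (fun p => ⟨hε, trivial⟩)

end T2

open T2 in
theorem m_T2 (a3 : StA3) (ci : StCI) (im : StImp) (s4 : StS4) (s5 : StS5) (t1 : StT1) : StT2 := by
  intro E _ _ H _ I M _ _ _
  have hSPb : ∀ p ∈ bsupp, sq 0 p ∈ SP := fun p hp => s4.1 p ⟨hp.2.1, hp.2.2⟩
  have hSPc : IsCompact SP := s4.2.2.2.2.2.2.2.2.1
  obtain ⟨t1i, -, t1iii, -⟩ := t1 E H I M SP bsupp hSPc isCompact_bsupp
  obtain ⟨-, ci_symm, ci_refl, ci_trans, -, -, -, ci_conj, -, -⟩ := ci E H I M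
  have A3 : ∀ J : ℝ × R4 → M, FamOn I J bsupp → CIsot I (imp (fun p => J (0, p)) bsupp barMap)
      (imp (fun p => J (1, p)) bsupp barMap) := fun J hJ =>
    a3 E H I M J bsupp barMap _ isCompact_bsupp hJ sdiff_bar
  have h0mem : (0 : ℝ) ∈ Icc (0 : ℝ) 1 := ⟨le_rfl, zero_le_one⟩
  have h1mem : (1 : ℝ) ∈ Icc (0 : ℝ) 1 := ⟨zero_le_one, le_rfl⟩
  refine ⟨?_, ?_, ?_, ?_, ?_, ?_, ?_⟩
  · intro F hF
    obtain ⟨ε₀, hε₀, hfam⟩ := t1iii hSPb F hF
    refine ⟨ε₀, hε₀, fun ε hε => ⟨ε₀, hε₀, fun ε' hε' => ⟨?_, ?_⟩⟩⟩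
    · have h := (hfam ε' hε' ε' hε').2 0 h0mem
      simp only [sub_zero, one_mul, zero_mul, add_zero] at h
      exact h
    · have h := A3 _ (hfam ε hε ε' hε')
      simp only [sub_zero, one_mul, zero_mul, add_zero, sub_self, zero_add] at h
      exact h
  · rintro F φ ψ ⟨ε₀, hε₀, h⟩ ⟨ε₁, hε₁, h'⟩
    have hm : 0 < min ε₀ ε₁ := lt_min hε₀ hε₁
    have h1 := h (min ε₀ ε₁ / 2) ⟨by linarith, by linarith [min_le_left ε₀ ε₁]⟩
    have h2 := h' (min ε₀ ε₁ / 2) ⟨by linarith, by linarith [min_le_right ε₀ ε₁]⟩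
    exact ci_trans _ _ _ h1.2 (ci_symm _ _ h2.2)
  · rintro J φ hJ ⟨ε₀, hε₀, h⟩
    obtain ⟨ε₁, hε₁, hfam⟩ := t1i hSPb J hJ
    refine ⟨min ε₀ ε₁, lt_min hε₀ hε₁, fun ε hε => ?_⟩
    have e0 : ε ∈ Ioo 0 ε₀ := ⟨hε.1, hε.2.trans_le (min_le_left _ _)⟩
    have e1 : ε ∈ Ioo 0 ε₁ := ⟨hε.1, hε.2.trans_le (min_le_right _ _)⟩
    refine ⟨(hfam ε e1).2 1 h1mem, ?_⟩
    exact ci_trans _ _ _ (h ε e0).2 (A3 _ (hfam ε e1))
  · rintro F φ ψ ⟨ε₀, hε₀, h⟩ hφψ
    exact ⟨ε₀, hε₀, fun ε hε => ⟨(h ε hε).1, ci_trans _ _ _ (ci_symm _ _ hφψ) (h ε hε).2⟩⟩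
  · rintro F F' U φ hU hSU hFF ⟨ε₀, hε₀, h⟩
    obtain ⟨ε₁, hε₁, hs⟩ := (s5 bsupp {q : ℝ × R4 | q.2 ∈ U} isCompact_bsupp
      (hU.preimage continuous_snd)).1 (fun t _ p hp => hSU (hSPb p hp))
    refine ⟨min ε₀ ε₁, lt_min hε₀ hε₁, fun ε hε => ?_⟩
    have e0 : ε ∈ Ioo 0 ε₀ := ⟨hε.1, hε.2.trans_le (min_le_left _ _)⟩
    have e1 : ε ∈ Ioo 0 ε₁ := ⟨hε.1, hε.2.trans_le (min_le_right _ _)⟩
    have hmem : ∀ p ∈ bsupp, sq ε p ∈ U := fun p hp => hs ε e1 0 h0mem p hp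
    obtain ⟨hemb, hci⟩ := h ε e0
    have hV : IsOpen (sq ε ⁻¹' U) := hU.preimage (sq_cont ε hε.1)
    have heq : EqOn (F ∘ sq ε) (F' ∘ sq ε) (sq ε ⁻¹' U) := fun p hp => hFF hp
    have heqb : EqOn (F ∘ sq ε) (F' ∘ sq ε) bsupp := fun p hp => hFF (hmem p hp)
    refine ⟨⟨fun p hp => congr_ld hV heq (hmem p hp) (hemb.1 p hp), hemb.2.congr heqb⟩, ?_⟩
    have hi := (im E H I M (F ∘ sq ε) bsupp barMap hemb.2).2.2.2.2.2.1 (F' ∘ sq ε) heqb maps_bar
    rw [← hi]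
    exact hci
  · rintro F φ Ψ Ψ' hΨ hΨ' h1 h2 ⟨ε₀, hε₀, h⟩
    refine ⟨ε₀, hε₀, fun ε hε => ?_⟩
    obtain ⟨hemb, hci⟩ := h ε hε
    refine ⟨⟨fun p hp => ?_, ?_⟩, ?_⟩
    · exact IsLocalDiffeomorphAt.comp I M (hemb.1 p hp) (diff_ld hΨ hΨ' h1 h2 _)
    · intro p hp q hq hpq
      apply hemb.2 hp hq
      have h3 := congrArg Ψ' hpq
      have h4 : Ψ' (Ψ (F (sq ε p))) = Ψ' (Ψ (F (sq ε q))) := h3
      rw [h2, h2] at h4
      exact h4
    · have h5 := ci_conj _ _ Ψ Ψ' hci hΨ hΨ' h1 h2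
      have h6 := (im E H I M (F ∘ sq ε) bsupp barMap hemb.2).2.2.2.2.2.2.1 Ψ Ψ' h1 h2
      have h7 : imp ((fun p => Ψ (F p)) ∘ sq ε) bsupp barMap =
          fun x => Ψ (imp (F ∘ sq ε) bsupp barMap (Ψ' x)) := funext h6
      rw [h7]
      exact h5
  · rintro F φ ⟨ε₀, hε₀, h⟩
    exact ci_refl _ _ (h (ε₀ / 2) ⟨by linarith, by linarith⟩).2

end Pool.Agent.Helper18.BI


end

/-! ## Helper18.BI.M_T8 -/

section

/-!
# Project BI, module T8: linear interpolation of germs with the same spine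
-/

set_option autoImplicit false

open scoped Manifold ContDiff Topology ComplexConjugate
open Set Pool.Agent.Helper65.Barb

namespace Pool.Agent.Helper18.BI

namespace T8

/-- a germ is smooth on a neighbourhood -/
theorem smoothNear {F : R4 → R4} {L : Set R4} (h : EmbOn 𝓘(ℝ, R4) F L) :
    ∃ U : Set R4, IsOpen U ∧ L ⊆ U ∧ ContDiffOn ℝ ∞ F U := by
  refine ⟨{p | IsLocalDiffeomorphAt 𝓘(ℝ, R4) 𝓘(ℝ, R4) ∞ F p}, ?_, fun p hp => h.1 p hp, ?_⟩
  · rw [isOpen_iff_mem_nhds]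
    rintro p ⟨Φ, hp, heq⟩
    exact Filter.mem_of_superset (Φ.open_source.mem_nhds hp) fun q hq => ⟨Φ, hq, heq⟩
  · intro p hp
    exact (contMDiffAt_iff_contDiffAt.1 (IsLocalDiffeomorphAt.contMDiffAt hp)).contDiffWithinAt

theorem family (a0 : StA0f) {F G : R4 → R4} (hF : EmbOn 𝓘(ℝ, R4) F SP)
    (hG : EmbOn 𝓘(ℝ, R4) G SP) (hFG : EqOn F G SP)
    (hd : ∀ p ∈ SP, ∀ t ∈ Icc (0 : ℝ) 1, ∀ v,
      (1 - t) • fderiv ℝ F p v + t • fderiv ℝ G p v = 0 → v = 0) :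
    FamOn 𝓘(ℝ, R4) (fun q : ℝ × R4 => (1 - q.1) • F q.2 + q.1 • G q.2) SP := by
  obtain ⟨U, hU, hSU, hFU⟩ := smoothNear hF
  obtain ⟨V, hV, hSV, hGV⟩ := smoothNear hG
  rw [a0]
  refine ⟨⟨univ ×ˢ (U ∩ V), isOpen_univ.prod (hU.inter hV), ?_, ?_⟩, fun t ht => ⟨?_, ?_⟩⟩
  · exact prod_mono (subset_univ _) (subset_inter hSU hSV)
  · have h1 : ContDiffOn ℝ ∞ (fun q : ℝ × R4 => F q.2) (univ ×ˢ (U ∩ V)) :=
      hFU.comp contDiff_snd.contDiffOn fun q hq => hq.2.1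
    have h2 : ContDiffOn ℝ ∞ (fun q : ℝ × R4 => G q.2) (univ ×ˢ (U ∩ V)) :=
      hGV.comp contDiff_snd.contDiffOn fun q hq => hq.2.2
    have h3 : ContDiffOn ℝ ∞ (fun q : ℝ × R4 => q.1) (univ ×ˢ (U ∩ V)) :=
      contDiff_fst.contDiffOn
    exact ((contDiffOn_const.sub h3).smul h1).add (h3.smul h2)
  · intro p hp v hv
    have dF : DifferentiableAt ℝ F p :=
      ((hFU.contDiffAt (hU.mem_nhds (hSU hp))).differentiableAt (by simp))
    have dG : DifferentiableAt ℝ G p :=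
      ((hGV.contDiffAt (hV.mem_nhds (hSV hp))).differentiableAt (by simp))
    apply hd p hp t ht v
    have h1 : HasFDerivAt (fun p => (1 - t) • F p + t • G p)
        ((1 - t) • fderiv ℝ F p + t • fderiv ℝ G p) p :=
      (dF.hasFDerivAt.const_smul (1 - t)).add (dG.hasFDerivAt.const_smul t)
    have h2 : fderiv ℝ (fun p => (1 - t) • F p + t • G p) p v = 0 := hv
    rw [h1.fderiv] at h2
    exact h2
  · intro p hp p' hp' h
    have e : ∀ p ∈ SP, (1 - t) • F p + t • G p = F p := by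
      intro p hp
      rw [← hFG hp, ← add_smul, sub_add_cancel, one_smul]
    simp only at h
    rw [e p hp, e p' hp'] at h
    exact hF.2 hp hp' h

theorem oneWay (a0 : StA0f) (t2 : StT2) {F G : R4 → R4} (hF : EmbOn 𝓘(ℝ, R4) F SP)
    (hG : EmbOn 𝓘(ℝ, R4) G SP) (hFG : EqOn F G SP)
    (hd : ∀ p ∈ SP, ∀ t ∈ Icc (0 : ℝ) 1, ∀ v,
      (1 - t) • fderiv ℝ F p v + t • fderiv ℝ G p v = 0 → v = 0) (φ : R4 → R4)
    (h : Thin 𝓘(ℝ, R4) F φ) : Thin 𝓘(ℝ, R4) G φ := by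
  have h3 := (t2 R4 R4 𝓘(ℝ, R4) R4).2.2.1
    (fun q : ℝ × R4 => (1 - q.1) • F q.2 + q.1 • G q.2) φ (family a0 hF hG hFG hd)
  have e0 : (fun p : R4 => (1 - (0 : ℝ)) • F p + (0 : ℝ) • G p) = F := by
    funext p
    rw [sub_zero, one_smul, zero_smul, add_zero]
  have e1 : (fun p : R4 => (1 - (1 : ℝ)) • F p + (1 : ℝ) • G p) = G := by
    funext p
    rw [sub_self, one_smul, zero_smul, zero_add]
  simp only at h3
  rw [e0, e1] at h3
  exact h3 h

end T8

theorem m_T8 (a0 : StA0f) (t2 : StT2) : StT8 := by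
  intro F G hF hG hFG hd φ
  refine ⟨T8.oneWay a0 t2 hF hG hFG hd φ, T8.oneWay a0 t2 hG hF hFG.symm ?_ φ⟩
  intro p hp t ht v hv
  refine hd p hp (1 - t) ⟨sub_nonneg.2 ht.2, sub_le_self _ ht.1⟩ v ?_
  rw [sub_sub_cancel, add_comm]
  exact hv

end Pool.Agent.Helper18.BI


end

/-! ## Helper18.BI.M_X3 -/

section

/-!
# Project BI, module X3: lifting a germ along an open embedding
-/

set_option autoImplicit false

open scoped Manifold ContDiff Topology ComplexConjugate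
open Set Pool.Agent.Helper65.Barb

namespace Pool.Agent.Helper18.BI

theorem m_X3 : StX3 := by
  intro E _ _ H _ I M _ _ _ c B L hc hB hL
  have hinj : Function.Injective c := injOn_univ.1 hc.2
  have hloc : IsLocalDiffeomorph 𝓘(ℝ, R4) I ∞ c := fun p => hc.1 p (mem_univ p)
  have hopen : IsOpen (range c) := hloc.isOpen_range
  have hleft : ∀ q, Function.invFun c (c q) = q := Function.leftInverse_invFun hinj
  have hright : ∀ y ∈ range c, c (Function.invFun c y) = y := by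
    rintro y ⟨q, rfl⟩
    rw [hleft]
  -- the left inverse is a local diffeomorphism at the points of the range
  have hinv : ∀ y ∈ range c, IsLocalDiffeomorphAt I 𝓘(ℝ, R4) ∞ (Function.invFun c) y := by
    rintro y ⟨q, rfl⟩
    obtain ⟨Φ, hq, heq⟩ := hloc q
    refine ⟨Φ.symm, ?_, ?_⟩
    · rw [heq hq]
      exact Φ.toPartialEquiv.map_source hq
    · intro y hy
      have h1 : Φ.toPartialEquiv.symm y ∈ Φ.source := Φ.toPartialEquiv.map_target hy
      have h2 : c (Φ.toPartialEquiv.symm y) = y := by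
        rw [heq h1]
        exact Φ.toPartialEquiv.right_inv hy
      have h3 := hleft (Φ.toPartialEquiv.symm y)
      rw [h2] at h3
      exact h3
  refine ⟨⟨fun p hp => ?_, fun p hp p' hp' h => ?_⟩, interior (B ⁻¹' range c), isOpen_interior,
    fun p hp => ?_, fun p hp => ?_⟩
  · exact (hB.1 p hp).comp _ _ (hinv (B p) (hL (mem_image_of_mem B hp)))
  · have h1 := congrArg c h
    simp only at h1
    rw [hright (B p) (hL (mem_image_of_mem B hp)), hright (B p') (hL (mem_image_of_mem B hp'))] at h1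
    exact hB.2 hp hp' h1
  · rw [mem_interior_iff_mem_nhds]
    exact (hB.1 p hp).contMDiffAt.continuousAt.preimage_mem_nhds
      (hopen.mem_nhds (hL (mem_image_of_mem B hp)))
  · have h1 : p ∈ B ⁻¹' range c := interior_subset hp
    exact hright _ h1

end Pool.Agent.Helper18.BI


end

/-! ## Helper18.BI.M_FR4 -/

section

/-!
# Project BI (MP_8e98f2_gt): homotopic loops give the same class
-/

set_option autoImplicit false

open scoped Manifold ContDiff Topology ComplexConjugate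
open Set Pool.Agent.Helper65.Barb

namespace Pool.Agent.Helper18.BI

namespace FR4

private theorem homOK_rev {Γ : ℝ × ℝ → E3} (h : HomOK Γ) : HomOK (fun q => Γ (1 - q.1, q.2)) := by
  obtain ⟨h1, h2, δ, hδ, h3⟩ := h
  refine ⟨?_, ?_, δ, hδ, ?_⟩
  · exact h1.comp ((contDiff_const.sub contDiff_fst).prodMk contDiff_snd)
  · intro t ht a v hv
    exact h2 (1 - t) ⟨by linarith [ht.2], by linarith [ht.1]⟩ a v hv
  · intro t a ha
    exact h3 (1 - t) a ha

private theorem step (f1 : StFr1) (t2 : StT2) (F : R4 → R4) (φ : R4 → R4)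
    (hF : EmbOn 𝓘(ℝ, R4) F SP) (Γ : ℝ × ℝ → E3) (h : HomOK Γ)
    (hT : Thin 𝓘(ℝ, R4) (fun p => F (fib (fun a => Γ (0, a)) p)) φ) :
    Thin 𝓘(ℝ, R4) (fun p => F (fib (fun a => Γ (1, a)) p)) φ :=
  (t2 R4 R4 𝓘(ℝ, R4) R4).2.2.1 (fun q => F (fib (fun a => Γ (q.1, a)) q.2)) φ
    (f1.2 Γ F h hF) hT

end FR4

open FR4 in
theorem m_Fr4 (f1 : StFr1) (t2 : StT2) : StFr4 := by
  intro F G G' φ hF hG
  induction hG with
  | refl => exact Iff.rfl
  | tail _ hstep ih =>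
    obtain ⟨Γ, h, h0, h1⟩ := hstep
    refine ih.trans ?_
    have e0 := funext h0
    have e1 := funext h1
    rw [← e0, ← e1]
    refine ⟨step f1 t2 F φ hF Γ h, fun hT => ?_⟩
    have := step f1 t2 F φ hF (fun q => Γ (1 - q.1, q.2)) (homOK_rev h)
    simp only [sub_zero, sub_self] at this
    exact this hT

end Pool.Agent.Helper18.BI


end

/-! ## Helper18.BI.M_FR5 -/

section

/-!
# Project BI (MP_8e98f2_gt), module Fr5: two germs with the same neck differ by a loop of frames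
-/

set_option autoImplicit false

open scoped Manifold ContDiff Topology ComplexConjugate
open Set Pool.Agent.Helper65.Barb

namespace Pool.Agent.Helper18.BI

namespace FR5

/-- the points of the axis -/
private noncomputable def pt (a : ℝ) : R4 := (1 / 2, a, 0)

/-- inclusion of the normal space -/
private noncomputable def inj : (ℝ × ℂ) →L[ℝ] R4 :=
  (ContinuousLinearMap.fst ℝ ℝ ℂ).prod
    ((0 : (ℝ × ℂ) →L[ℝ] ℝ).prod (ContinuousLinearMap.snd ℝ ℝ ℂ))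

/-- projection to the normal space -/
private noncomputable def prj : R4 →L[ℝ] (ℝ × ℂ) :=
  (ContinuousLinearMap.fst ℝ ℝ (ℝ × ℂ)).prod
    ((ContinuousLinearMap.snd ℝ ℝ ℂ).comp (ContinuousLinearMap.snd ℝ ℝ (ℝ × ℂ)))

private theorem inj_apply (v : ℝ × ℂ) : inj v = (v.1, 0, v.2) := rfl

private theorem prj_apply (p : R4) : prj p = (p.1, p.2.2) := rfl

private theorem pt_smooth : ContDiff ℝ ∞ pt :=
  contDiff_const.prodMk (contDiff_id.prodMk contDiff_const)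

private theorem pt_deriv (a : ℝ) : HasDerivAt pt ((0, 1, 0) : R4) a :=
  (hasDerivAt_const a (1 / 2 : ℝ)).prodMk ((hasDerivAt_id a).prodMk (hasDerivAt_const a (0 : ℂ)))

private theorem pt_neck {a : ℝ} (h1 : 1 / 5 ≤ a) (h2 : a ≤ 4 / 5) : pt a ∈ neck :=
  ⟨rfl, h1, h2, rfl⟩

private theorem neck_SP : neck ⊆ SP := subset_union_right

private theorem germ (a0 : StA0) {F : R4 → R4} (hF : EmbOn 𝓘(ℝ, R4) F SP) {p : R4} (hp : p ∈ SP) :
    ContDiffAt ℝ ∞ F p ∧ ∀ v, fderiv ℝ F p v = 0 → v = 0 := by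
  obtain ⟨⟨U, hU, hpU, hc⟩, hinj⟩ := (a0 R4 F p).1 (hF.1 p hp)
  exact ⟨hc.contDiffAt (hU.mem_nhds hpU), hinj⟩

private theorem exE (L : R4 →L[ℝ] R4) (hL : ∀ v, L v = 0 → v = 0) :
    ∃ e : R4 ≃L[ℝ] R4, (e : R4 →L[ℝ] R4) = L := by
  have hi : Function.Injective (L : R4 →ₗ[ℝ] R4) := by
    intro x y hxy
    have : L (x - y) = 0 := by
      rw [map_sub]; exact sub_eq_zero.2 hxy
    exact sub_eq_zero.1 (hL _ this)
  refine ⟨(LinearEquiv.ofInjectiveEndo (L : R4 →ₗ[ℝ] R4) hi).toContinuousLinearEquiv, ?_⟩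
  ext v <;> rfl

/-- the transition map -/
private noncomputable def BB (F F' : R4 → R4) (a : ℝ) : R4 →L[ℝ] R4 :=
  (fderiv ℝ F (pt a)).inverse.comp (fderiv ℝ F' (pt a))

private noncomputable def MM (F F' : R4 → R4) (a : ℝ) : E3 :=
  prj.comp ((BB F F' a).comp inj)

private theorem BB_spec {F F' : R4 → R4} {a : ℝ}
    (hF : ∀ v, fderiv ℝ F (pt a) v = 0 → v = 0) (v : R4) :
    fderiv ℝ F (pt a) (BB F F' a v) = fderiv ℝ F' (pt a) v := by
  obtain ⟨e, he⟩ := exE _ hF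
  have : (fderiv ℝ F (pt a)).inverse = (e.symm : R4 →L[ℝ] R4) := by
    rw [← he, ContinuousLinearMap.inverse_equiv]
  unfold BB
  rw [this, ← he]
  simp

private theorem MM_smooth {F F' : R4 → R4} {a : ℝ} (h1 : ContDiffAt ℝ ∞ F (pt a))
    (h2 : ContDiffAt ℝ ∞ F' (pt a)) (hF : ∀ v, fderiv ℝ F (pt a) v = 0 → v = 0) :
    ContDiffAt ℝ ∞ (MM F F') a := by
  have d1 : ContDiffAt ℝ ∞ (fun x => fderiv ℝ F (pt x)) a :=
    (h1.fderiv_right (m := ∞) (by simp)).comp a pt_smooth.contDiffAt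
  have d2 : ContDiffAt ℝ ∞ (fun x => fderiv ℝ F' (pt x)) a :=
    (h2.fderiv_right (m := ∞) (by simp)).comp a pt_smooth.contDiffAt
  obtain ⟨e, he⟩ := exE _ hF
  have d3 : ContDiffAt ℝ ∞ (ContinuousLinearMap.inverse : (R4 →L[ℝ] R4) → (R4 →L[ℝ] R4))
      (fderiv ℝ F (pt a)) := by
    rw [← he]
    exact contDiffAt_map_inverse e
  have d4 : ContDiffAt ℝ ∞ (fun x => (fderiv ℝ F (pt x)).inverse) a :=
    ContDiffAt.comp (f := fun x => fderiv ℝ F (pt x)) a d3 d1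
  have d5 : ContDiffAt ℝ ∞ (BB F F') a := d4.clm_comp d2
  exact contDiffAt_const.clm_comp (d5.clm_comp contDiffAt_const)

private theorem fib_deriv {G : ℝ → E3} (hG : ContDiff ℝ ∞ G) (a : ℝ) (v : R4) :
    fderiv ℝ (fib G) (pt a) v = ((G a (v.1, v.2.2)).1, v.2.1, (G a (v.1, v.2.2)).2) := by
  have hG1 : HasFDerivAt (fun p : R4 => G p.2.1)
      ((fderiv ℝ G a).comp ((ContinuousLinearMap.fst ℝ ℝ ℂ).comp
        (ContinuousLinearMap.snd ℝ ℝ (ℝ × ℂ)))) (pt a) := by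
    have h0 : HasFDerivAt G (fderiv ℝ G a) ((pt a).2.1) :=
      (hG.differentiable (by simp) a).hasFDerivAt
    exact h0.comp (pt a) ((ContinuousLinearMap.fst ℝ ℝ ℂ).comp
        (ContinuousLinearMap.snd ℝ ℝ (ℝ × ℂ))).hasFDerivAt
  have hu : HasFDerivAt (fun p : R4 => (p.1 - 1 / 2, p.2.2)) prj (pt a) := by
    have h0 : HasFDerivAt (fun p : R4 => prj p - ((1 / 2 : ℝ), (0 : ℂ))) prj (pt a) :=
      prj.hasFDerivAt.sub_const _
    refine h0.congr_of_eventuallyEq (Filter.Eventually.of_forall fun p => ?_)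
    simp [prj_apply]
  have hv := hG1.clm_apply hu
  have hz : (((pt a).1 - 1 / 2, (pt a).2.2) : ℝ × ℂ) = 0 := by simp [pt]
  have hfib : HasFDerivAt (fib G)
      (((ContinuousLinearMap.fst ℝ ℝ ℂ).comp
        ((G (pt a).2.1).comp prj + (((fderiv ℝ G a).comp ((ContinuousLinearMap.fst ℝ ℝ ℂ).comp
        (ContinuousLinearMap.snd ℝ ℝ (ℝ × ℂ)))).flip ((pt a).1 - 1 / 2, (pt a).2.2)))).prod
      (((ContinuousLinearMap.fst ℝ ℝ ℂ).comp
        (ContinuousLinearMap.snd ℝ ℝ (ℝ × ℂ))).prod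
        ((ContinuousLinearMap.snd ℝ ℝ ℂ).comp
        ((G (pt a).2.1).comp prj + (((fderiv ℝ G a).comp ((ContinuousLinearMap.fst ℝ ℝ ℂ).comp
        (ContinuousLinearMap.snd ℝ ℝ (ℝ × ℂ)))).flip ((pt a).1 - 1 / 2, (pt a).2.2)))))) (pt a) := by
    have e1 := ((ContinuousLinearMap.fst ℝ ℝ ℂ).hasFDerivAt (x := G (pt a).2.1
      ((pt a).1 - 1 / 2, (pt a).2.2))).comp (pt a) hv
    have e2 := ((ContinuousLinearMap.snd ℝ ℝ ℂ).hasFDerivAt (x := G (pt a).2.1
      ((pt a).1 - 1 / 2, (pt a).2.2))).comp (pt a) hv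
    have e3 := ((ContinuousLinearMap.fst ℝ ℝ ℂ).comp
        (ContinuousLinearMap.snd ℝ ℝ (ℝ × ℂ))).hasFDerivAt (x := pt a)
    exact (e1.const_add (1 / 2)).prodMk (e3.prodMk e2)
  rw [hfib.fderiv, hz]
  simp [prj_apply, pt]

end FR5

open FR5

theorem m_Fr5 (a0 : StA0) (f1 : StFr1) (t8 : StT8) : StFr5 := by
  intro F F' U hF hF' hU hUs hEU hEn
  have hs0 : ∀ p ∈ sph 0, p.2.1 ≤ 1 / 5 := by
    rintro p ⟨-, hp⟩
    have h : p.2.1 ^ 2 + p.2.2.re ^ 2 + p.2.2.im ^ 2 = 1 / 25 := by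
      have := hp
      simp only [rsq, nsq, sub_zero] at this
      exact this
    nlinarith [sq_nonneg p.2.2.re, sq_nonneg p.2.2.im, sq_nonneg (p.2.1 - 1 / 5)]
  have hs1 : ∀ p ∈ sph 1, 4 / 5 ≤ p.2.1 := by
    rintro p ⟨-, hp⟩
    have h : (p.2.1 - 1) ^ 2 + p.2.2.re ^ 2 + p.2.2.im ^ 2 = 1 / 25 := by
      have := hp
      simp only [rsq, nsq] at this
      exact this
    nlinarith [sq_nonneg p.2.2.re, sq_nonneg p.2.2.im, sq_nonneg (p.2.1 - 1 + 1 / 5)]
  have hp0 : pt (1 / 5) ∈ sph 0 := by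
    refine ⟨rfl, ?_⟩
    simp only [rsq, nsq, pt]
    norm_num
  have hp1 : pt (4 / 5) ∈ sph 1 := by
    refine ⟨rfl, ?_⟩
    simp only [rsq, nsq, pt]
    norm_num
  -- the ends
  obtain ⟨r0, hr0, hr0'⟩ : ∃ r > 0, ∀ a, |a - 1 / 5| < r → pt a ∈ U := by
    have h : ∀ᶠ a in 𝓝 (1 / 5 : ℝ), pt a ∈ U :=
      pt_smooth.continuous.continuousAt.eventually (hU.mem_nhds (hUs (Or.inl hp0)))
    obtain ⟨r, hr, h⟩ := Metric.eventually_nhds_iff.1 h
    exact ⟨r, hr, fun a ha => h (by rwa [Real.dist_eq])⟩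
  obtain ⟨r1, hr1, hr1'⟩ : ∃ r > 0, ∀ a, |a - 4 / 5| < r → pt a ∈ U := by
    have h : ∀ᶠ a in 𝓝 (4 / 5 : ℝ), pt a ∈ U :=
      pt_smooth.continuous.continuousAt.eventually (hU.mem_nhds (hUs (Or.inr hp1)))
    obtain ⟨r, hr, h⟩ := Metric.eventually_nhds_iff.1 h
    exact ⟨r, hr, fun a ha => h (by rwa [Real.dist_eq])⟩
  obtain ⟨δ, hδ, hδ0, hδ1, hδ2⟩ : ∃ δ : ℝ, 0 < δ ∧ δ < r0 ∧ δ < r1 ∧ δ ≤ 1 / 10 :=
    ⟨min (min (r0 / 2) (r1 / 2)) (1 / 10), by positivity,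
      lt_of_le_of_lt ((min_le_left _ _).trans (min_le_left _ _)) (by linarith),
      lt_of_le_of_lt ((min_le_left _ _).trans (min_le_right _ _)) (by linarith), min_le_right _ _⟩
  -- equality of the germs on `U`
  have hnear : ∀ p ∈ U, F =ᶠ[𝓝 p] F' := fun p hp =>
    Filter.eventually_of_mem (hU.mem_nhds hp) hEU
  have hMid : ∀ a, 1 / 5 ≤ a → a ≤ 4 / 5 → pt a ∈ U → MM F F' a = ContinuousLinearMap.id ℝ (ℝ × ℂ) := by
    intro a h1 h2 haU
    have hg := germ a0 hF (neck_SP (pt_neck h1 h2))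
    have hB : ∀ v, BB F F' a v = v := by
      intro v
      have := BB_spec (F' := F') hg.2 v
      rw [← (hnear _ haU).fderiv_eq] at this
      have h3 : fderiv ℝ F (pt a) (BB F F' a v - v) = 0 := by rw [map_sub, this, sub_self]
      exact sub_eq_zero.1 (hg.2 _ h3)
    ext1
    · ext <;> simp [MM, hB, inj_apply, prj_apply]
    · ext <;> simp [MM, hB, inj_apply, prj_apply]
  -- the axis direction
  have hax : ∀ a, 1 / 5 < a → a < 4 / 5 → BB F F' a (0, 1, 0) = (0, 1, 0) := by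
    intro a h1 h2
    have hg := germ a0 hF (neck_SP (pt_neck h1.le h2.le))
    have hg' := germ a0 hF' (neck_SP (pt_neck h1.le h2.le))
    have d1 : HasDerivAt (fun x => F (pt x)) (fderiv ℝ F (pt a) (0, 1, 0)) a :=
      (hg.1.differentiableAt (by simp)).hasFDerivAt.comp_hasDerivAt a (pt_deriv a)
    have d2 : HasDerivAt (fun x => F' (pt x)) (fderiv ℝ F' (pt a) (0, 1, 0)) a :=
      (hg'.1.differentiableAt (by simp)).hasFDerivAt.comp_hasDerivAt a (pt_deriv a)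
    have he : (fun x => F (pt x)) =ᶠ[𝓝 a] fun x => F' (pt x) := by
      filter_upwards [Ioo_mem_nhds h1 h2] with x hx
      exact hEn (pt_neck hx.1.le hx.2.le)
    have h3 : fderiv ℝ F (pt a) (0, 1, 0) = fderiv ℝ F' (pt a) (0, 1, 0) :=
      d1.unique (d2.congr_of_eventuallyEq he)
    have h4 : fderiv ℝ F (pt a) (BB F F' a (0, 1, 0) - (0, 1, 0)) = 0 := by
      rw [map_sub, BB_spec hg.2, h3, sub_self]
    exact sub_eq_zero.1 (hg.2 _ h4)
  have hBinj : ∀ a, 1 / 5 < a → a < 4 / 5 → ∀ v, BB F F' a v = 0 → v = 0 := by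
    intro a h1 h2 v hv
    have hg := germ a0 hF (neck_SP (pt_neck h1.le h2.le))
    have hg' := germ a0 hF' (neck_SP (pt_neck h1.le h2.le))
    apply hg'.2
    rw [← BB_spec hg.2, hv, map_zero]
  -- decomposition of `BB`
  have hdec : ∀ a, 1 / 5 < a → a < 4 / 5 → ∀ v : ℝ × ℂ, ∃ b : ℝ, ∀ α : ℝ,
      BB F F' a (v.1, α, v.2) = ((MM F F' a v).1, α + b, (MM F F' a v).2) := by
    intro a h1 h2 v
    refine ⟨(BB F F' a (inj v)).2.1, fun α => ?_⟩
    have e : ((v.1, α, v.2) : R4) = inj v + α • ((0, 1, 0) : R4) := by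
      simp [inj_apply]
    rw [e, map_add, map_smul, hax a h1 h2]
    ext <;> simp [MM, prj_apply, add_comm]
  have hMinj : ∀ a, 1 / 5 < a → a < 4 / 5 → ∀ v, MM F F' a v = 0 → v = 0 := by
    intro a h1 h2 v hv
    obtain ⟨b, hb⟩ := hdec a h1 h2 v
    have := hb (-b)
    rw [hv] at this
    have h3 : ((v.1, -b, v.2) : R4) = 0 := by
      apply hBinj a h1 h2
      rw [this]
      simp
    have h4 := congrArg Prod.fst h3
    have h5 := congrArg (fun q : R4 => q.2.2) h3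
    exact Prod.ext h4 h5
  -- the loop
  classical
  let G : ℝ → E3 := fun a =>
    if 1 / 5 < a ∧ a < 4 / 5 then MM F F' a else ContinuousLinearMap.id ℝ (ℝ × ℂ)
  have hGend : ∀ a, (a ≤ 1 / 5 + δ ∨ 4 / 5 - δ ≤ a) → G a = ContinuousLinearMap.id ℝ (ℝ × ℂ) := by
    intro a ha
    by_cases h : 1 / 5 < a ∧ a < 4 / 5
    · rw [show G a = MM F F' a from if_pos h]
      apply hMid a h.1.le h.2.le
      rcases ha with ha | ha
      · apply hr0'
        rw [abs_lt]; constructor <;> linarith [h.1]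
      · apply hr1'
        rw [abs_lt]; constructor <;> linarith [h.2]
    · exact if_neg h
  have hGmid : ∀ a, 1 / 5 < a → a < 4 / 5 → G a = MM F F' a := fun a h1 h2 => if_pos ⟨h1, h2⟩
  have hGs : ContDiff ℝ ∞ G := by
    rw [contDiff_iff_contDiffAt]
    intro a
    by_cases h1 : a < 1 / 5 + δ
    · refine (contDiffAt_const (c := ContinuousLinearMap.id ℝ (ℝ × ℂ))).congr_of_eventuallyEq ?_
      filter_upwards [Iio_mem_nhds h1] with x hx
      exact hGend x (Or.inl (le_of_lt hx))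
    by_cases h2 : 4 / 5 - δ < a
    · refine (contDiffAt_const (c := ContinuousLinearMap.id ℝ (ℝ × ℂ))).congr_of_eventuallyEq ?_
      filter_upwards [Ioi_mem_nhds h2] with x hx
      exact hGend x (Or.inr (le_of_lt hx))
    have h3 : 1 / 5 < a := by linarith [not_lt.1 h1]
    have h4 : a < 4 / 5 := by linarith [not_lt.1 h2]
    have hg := germ a0 hF (neck_SP (pt_neck h3.le h4.le))
    have hg' := germ a0 hF' (neck_SP (pt_neck h3.le h4.le))
    refine (MM_smooth hg.1 hg'.1 hg.2).congr_of_eventuallyEq ?_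
    filter_upwards [Ioo_mem_nhds h3 h4] with x hx
    exact hGmid x hx.1 hx.2
  have hGinj : ∀ a v, G a v = 0 → v = 0 := by
    intro a v hv
    by_cases h : 1 / 5 < a ∧ a < 4 / 5
    · rw [hGmid a h.1 h.2] at hv
      exact hMinj a h.1 h.2 v hv
    · rw [show G a = _ from if_neg h] at hv
      simpa using hv
  have hGL : LoopOK G := ⟨hGs, hGinj, δ, hδ, hGend⟩
  refine ⟨G, hGL, ?_⟩
  obtain ⟨-, hfs, hfSP, δ', hδ', hfend⟩ := f1.1 G hGL
  -- the second germ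
  have hHom : HomOK (fun q : ℝ × ℝ => G q.2) :=
    ⟨hGs.comp contDiff_snd, fun t _ a v h => hGinj a v h, δ, hδ, fun t a h => hGend a h⟩
  have hF2 : EmbOn 𝓘(ℝ, R4) (fun p => F (fib G p)) SP :=
    (f1.2 _ F hHom hF).2 0 ⟨le_refl _, zero_le_one⟩
  have hES : EqOn F F' SP := by
    rintro p (hp | hp)
    · exact hEU (hUs hp)
    · exact hEn hp
  apply t8 _ F' hF2 hF'
  · intro p hp
    show F (fib G p) = F' p
    rw [hfSP p hp, hES hp]
  intro p hp t ht v hv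
  -- near the cuffs
  have hcuff : ∀ q ∈ sph 0 ∪ sph 1, p = q → v = 0 := by
    intro q hq hpq
    subst hpq
    have h1 : (fun p => F (fib G p)) =ᶠ[𝓝 p] F' := by
      have h2 : ∀ᶠ x : R4 in 𝓝 p, x.2.1 ≤ 1 / 5 + δ' ∨ 4 / 5 - δ' ≤ x.2.1 := by
        have hc : Continuous fun x : R4 => x.2.1 := continuous_fst.comp continuous_snd
        rcases hq with hq | hq
        · have h3 := hs0 p hq
          filter_upwards [(isOpen_lt hc continuous_const).mem_nhds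
            (show p.2.1 < 1 / 5 + δ' by linarith)] with x hx
          exact Or.inl (le_of_lt hx)
        · have h3 := hs1 p hq
          filter_upwards [(isOpen_lt continuous_const hc).mem_nhds
            (show 4 / 5 - δ' < p.2.1 by linarith)] with x hx
          exact Or.inr (le_of_lt hx)
      filter_upwards [h2, hnear p (hUs hq)] with x hx hx'
      rw [hfend x hx, hx']
    rw [h1.fderiv_eq, ← add_smul, sub_add_cancel, one_smul] at hv
    exact (germ a0 hF' hp).2 v hv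
  rcases hp with hp' | hp'
  · exact hcuff p hp' rfl
  obtain ⟨hps, hpa1, hpa2, hpw⟩ := hp'
  have hpe : p = pt p.2.1 := Prod.ext hps (Prod.ext rfl hpw)
  generalize p.2.1 = a at hpe hpa1 hpa2
  rcases hpa1.eq_or_lt with h1 | h1
  · exact hcuff _ (Or.inl hp0) (by rw [hpe, ← h1])
  rcases hpa2.eq_or_lt with h2 | h2
  · exact hcuff _ (Or.inr hp1) (by rw [hpe, h2])
  have hg := germ a0 hF (neck_SP (pt_neck h1.le h2.le))
  have hcomp : fderiv ℝ (fun p => F (fib G p)) (pt a) v =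
      fderiv ℝ F (pt a) (fderiv ℝ (fib G) (pt a) v) := by
    have hfp : fib G (pt a) = pt a := hfSP _ (neck_SP (pt_neck h1.le h2.le))
    have h5 : HasFDerivAt F (fderiv ℝ F (pt a)) (fib G (pt a)) := by
      rw [hfp]; exact (hg.1.differentiableAt (by simp)).hasFDerivAt
    have h6 : HasFDerivAt (fib G) (fderiv ℝ (fib G) (pt a)) (pt a) :=
      (hfs.differentiable (by simp) _).hasFDerivAt
    have h7 := h5.comp (pt a) h6
    have h8 : fderiv ℝ (fun p => F (fib G p)) (pt a) =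
      (fderiv ℝ F (pt a)).comp (fderiv ℝ (fib G) (pt a)) := h7.fderiv
    rw [h8]; rfl
  rw [hpe, hcomp, fib_deriv hGs, ← BB_spec (F' := F') hg.2 v, ← map_smul, ← map_smul, ← map_add,
    hGmid a h1 h2] at hv
  have h9 := hg.2 _ hv
  obtain ⟨b, hb⟩ := hdec a h1 h2 (v.1, v.2.2)
  have h10 : BB F F' a v = ((MM F F' a (v.1, v.2.2)).1, v.2.1 + b, (MM F F' a (v.1, v.2.2)).2) :=
    hb v.2.1
  rw [h10] at h9
  have c1 := congrArg Prod.fst h9
  have c2 := congrArg (fun q : R4 => q.2.1) h9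
  have c3 := congrArg (fun q : R4 => q.2.2) h9
  simp only [Prod.fst_add, Prod.snd_add, Prod.smul_fst, Prod.smul_snd, Prod.fst_zero,
    Prod.snd_zero, ← add_smul, sub_add_cancel, one_smul] at c1 c2 c3
  have h11 : MM F F' a (v.1, v.2.2) = 0 := Prod.ext c1 c3
  have h12 := hMinj a h1 h2 _ h11
  have h13 : v.1 = 0 := congrArg Prod.fst h12
  have h14 : v.2.2 = 0 := congrArg Prod.snd h12
  have h15 : b = 0 := by
    have := hb 0
    rw [h11] at this
    rw [h12] at this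
    have h16 : BB F F' a (((0 : ℝ × ℂ).1, 0, (0 : ℝ × ℂ).2) : R4) = 0 := by
      rw [show (((0 : ℝ × ℂ).1, 0, (0 : ℝ × ℂ).2) : R4) = 0 from rfl, map_zero]
    rw [h16] at this
    have := congrArg (fun q : R4 => q.2.1) this
    simpa using this.symm
  rw [h15] at c2
  have h17 : v.2.1 = 0 := by
    simp only [smul_eq_mul] at c2
    linarith
  exact Prod.ext h13 (Prod.ext h17 h14)

end Pool.Agent.Helper18.BI


end
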