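import Pool.Agent.Helper65.Barb.Defs
import Pool.Agent.Helper70.BI.B.P04

/-!
# Project BI (MP_8e98f2_gt): collected modules, part 09

The contents of the modules
* Helper18.BI.M_S0
* Helper18.BI.M_FR2A
* Helper18.BI.M_FR2B
* Helper18.BI.M_FR3

in one file, so that the whole proof builds in a short time.
-/

/-! ## Helper18.BI.M_S0 -/

section

/-!
# Project BI, module S0: triangular maps are injective local diffeomorphisms
-/

set_option autoImplicit false

open scoped Manifold ContDiff Topology ComplexConjugate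
open Set Pool.Agent.Helper65.Barb

namespace Pool.Agent.Helper18.BI

namespace S0

theorem radial_strictMono (f f' : ℝ → ℝ) (hf : ∀ k, 0 ≤ k → HasDerivAt f (f' k) k)
    (hpos : ∀ k, 0 ≤ k → 0 < f k + 2 * k * f' k) : StrictMono (fun r : ℝ => f (r ^ 2) * r) := by
  have hd : ∀ r : ℝ, HasDerivAt (fun r : ℝ => f (r ^ 2) * r) (f (r ^ 2) + 2 * r ^ 2 * f' (r ^ 2))
      r := by
    intro r
    have h1 : HasDerivAt (fun r : ℝ => r ^ 2) (2 * r) r := by
      simpa using hasDerivAt_pow 2 r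
    have h2 : HasDerivAt (fun r : ℝ => f (r ^ 2)) (f' (r ^ 2) * (2 * r)) r :=
      HasDerivAt.comp (h := fun r : ℝ => r ^ 2) (h₂ := f) r (hf (r ^ 2) (sq_nonneg r)) h1
    have h3 := h2.mul (hasDerivAt_id r)
    refine h3.congr_deriv ?_
    simp only [id]
    ring
  apply strictMono_of_deriv_pos
  intro r
  rw [(hd r).deriv]
  exact hpos _ (sq_nonneg r)

theorem tri_inj (α : ℝ) (β β' : ℝ → ℝ) (h h' : ℝ → ℝ → ℝ) (hα : 0 < α)
    (hβ : ∀ a, HasDerivAt β (β' a) a) (hβ' : ∀ a, 0 < β' a)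
    (hh : ∀ a k, 0 ≤ k → HasDerivAt (h a) (h' a k) k)
    (hp : ∀ a k, 0 ≤ k → 0 < h a k ∧ 0 < h a k + 2 * k * h' a k) :
    Function.Injective (tri α β h) := by
  intro p q hpq
  obtain ⟨s, a, w⟩ := p
  obtain ⟨s', a', w'⟩ := q
  simp only [tri, Prod.mk.injEq] at hpq
  obtain ⟨h1, h2, h3⟩ := hpq
  have hs : s = s' := by
    have : α * (s - s') = 0 := by linarith
    rcases mul_eq_zero.1 this with h | h
    · exact absurd h hα.ne'
    · linarith
  have hmono : StrictMono β := by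
    apply strictMono_of_deriv_pos
    intro r
    rw [(hβ r).deriv]
    exact hβ' r
  have ha : a = a' := hmono.injective h2
  subst hs
  subst ha
  have hr : StrictMono (fun r : ℝ => h a (r ^ 2) * r) :=
    radial_strictMono (h a) (h' a) (hh a) (fun k hk => (hp a k hk).2)
  have hn : ∀ z : ℂ, Complex.normSq z = ‖z‖ ^ 2 := fun z => Complex.normSq_eq_norm_sq z
  have h4 : h a (‖w‖ ^ 2) * ‖w‖ = h a (‖w'‖ ^ 2) * ‖w'‖ := by
    have h5 := congrArg norm h3
    rw [norm_mul, norm_mul, Complex.norm_real, Complex.norm_real, hn, hn,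
      Real.norm_of_nonneg (hp a _ (sq_nonneg _)).1.le,
      Real.norm_of_nonneg (hp a _ (sq_nonneg _)).1.le] at h5
    exact h5
  have h5 : ‖w‖ = ‖w'‖ := hr.injective h4
  rw [hn, hn, h5] at h3
  have h6 : ((h a (‖w'‖ ^ 2) : ℝ) : ℂ) ≠ 0 := by
    exact_mod_cast (hp a _ (sq_nonneg _)).1.ne'
  rw [mul_left_cancel₀ h6 h3]

theorem tri_contDiffOn (α : ℝ) (β : ℝ → ℝ) (h : ℝ → ℝ → ℝ) (O : Set (ℝ × ℝ))
    (hβ : ContDiff ℝ ∞ β) (hO : IsOpen O)
    (hh : ContDiffOn ℝ ∞ (fun x : ℝ × ℝ => h x.1 x.2) O) :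
    IsOpen {p : R4 | (p.2.1, Complex.normSq p.2.2) ∈ O} ∧
    ContDiffOn ℝ ∞ (tri α β h) {p : R4 | (p.2.1, Complex.normSq p.2.2) ∈ O} := by
  have hns : ContDiff ℝ ∞ (fun z : ℂ => Complex.normSq z) := by
    have : (fun z : ℂ => Complex.normSq z) = fun z => ‖z‖ ^ 2 := by
      ext z
      exact Complex.normSq_eq_norm_sq z
    rw [this]
    exact contDiff_norm_sq ℝ
  have hg : ContDiff ℝ ∞ (fun p : R4 => (p.2.1, Complex.normSq p.2.2)) :=
    (contDiff_fst.comp contDiff_snd).prodMk (hns.comp (contDiff_snd.comp contDiff_snd))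
  refine ⟨hO.preimage hg.continuous, ?_⟩
  have h1 : ContDiff ℝ ∞ (fun p : R4 => 1 / 2 + α * (p.1 - 1 / 2)) :=
    contDiff_const.add (contDiff_const.mul (contDiff_fst.sub contDiff_const))
  have h2 : ContDiff ℝ ∞ (fun p : R4 => β p.2.1) := hβ.comp (contDiff_fst.comp contDiff_snd)
  have h3 : ContDiffOn ℝ ∞ (fun p : R4 => h p.2.1 (Complex.normSq p.2.2))
      {p : R4 | (p.2.1, Complex.normSq p.2.2) ∈ O} :=
    hh.comp hg.contDiffOn (fun p hp => hp)
  have h4 : ContDiffOn ℝ ∞ (fun p : R4 => ((h p.2.1 (Complex.normSq p.2.2) : ℝ) : ℂ))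
      {p : R4 | (p.2.1, Complex.normSq p.2.2) ∈ O} :=
    Complex.ofRealCLM.contDiff.comp_contDiffOn h3
  exact h1.contDiffOn.prodMk (h2.contDiffOn.prodMk
    (h4.mul (contDiff_snd.comp contDiff_snd).contDiffOn))

theorem tri_fderiv (α : ℝ) (β β' : ℝ → ℝ) (h h' : ℝ → ℝ → ℝ) (hα : 0 < α)
    (hβ : ∀ a, HasDerivAt β (β' a) a) (hβ' : ∀ a, 0 < β' a)
    (hh : ∀ a k, 0 ≤ k → HasDerivAt (h a) (h' a k) k)
    (hp : ∀ a k, 0 ≤ k → 0 < h a k ∧ 0 < h a k + 2 * k * h' a k) (p v : R4)
    (hd : DifferentiableAt ℝ (tri α β h) p) (hv : fderiv ℝ (tri α β h) p v = 0) : v = 0 := by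
  obtain ⟨s, a, w⟩ := p
  obtain ⟨σ, b, z⟩ := v
  -- the curve
  have hc : HasDerivAt (fun t : ℝ => tri α β h ((s, a, w) + t • (σ, b, z))) 0 0 := by
    have h1 : HasDerivAt (fun t : ℝ => ((s, a, w) : R4) + t • ((σ, b, z) : R4)) (σ, b, z) 0 := by
      have := ((hasDerivAt_id (0 : ℝ)).smul_const ((σ, b, z) : R4)).const_add ((s, a, w) : R4)
      simpa using this
    have h2 : HasFDerivAt (tri α β h) (fderiv ℝ (tri α β h) (s, a, w))
        (((s, a, w) : R4) + (0 : ℝ) • ((σ, b, z) : R4)) := by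
      rw [zero_smul, add_zero]
      exact hd.hasFDerivAt
    have h3 := h2.comp_hasDerivAt (0 : ℝ) h1
    rw [hv] at h3
    exact h3
  have e1 : ∀ t : ℝ, tri α β h ((s, a, w) + t • (σ, b, z)) =
      (1 / 2 + α * (s + t * σ - 1 / 2), β (a + t * b),
        ((h (a + t * b) (Complex.normSq (w + t * z)) : ℝ) : ℂ) * (w + t * z)) := by
    intro t
    simp [tri]
  simp only [e1] at hc
  -- first coordinate
  have hσ : σ = 0 := by
    have h1 := (ContinuousLinearMap.fst ℝ ℝ (ℝ × ℂ)).hasFDerivAt.comp_hasDerivAt (0 : ℝ) hc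
    have h2 : HasDerivAt (fun t : ℝ => 1 / 2 + α * (s + t * σ - 1 / 2)) (α * σ) 0 := by
      have h3 : HasDerivAt (fun t : ℝ => s + t * σ - 1 / 2) σ 0 := by
        have := (((hasDerivAt_id (0 : ℝ)).mul_const σ).const_add s).sub_const (1 / 2)
        simpa using this
      exact (h3.const_mul α).const_add (1 / 2)
    have h4 : α * σ = 0 := by
      have h5 := h2.unique h1
      simpa using h5
    rcases mul_eq_zero.1 h4 with h5 | h5
    · exact absurd h5 hα.ne'
    · exact h5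
  -- second coordinate
  have hb : b = 0 := by
    have h1 := ((ContinuousLinearMap.fst ℝ ℝ ℂ).comp
      (ContinuousLinearMap.snd ℝ ℝ (ℝ × ℂ))).hasFDerivAt.comp_hasDerivAt (0 : ℝ) hc
    have h2 : HasDerivAt (fun t : ℝ => β (a + t * b)) (β' a * b) 0 := by
      have h3 : HasDerivAt (fun t : ℝ => a + t * b) b 0 := by
        have := ((hasDerivAt_id (0 : ℝ)).mul_const b).const_add a
        simpa using this
      have h4 : HasDerivAt β (β' a) (a + 0 * b) := by simpa using hβ a
      exact h4.comp (0 : ℝ) h3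
    have h4 : β' a * b = 0 := by
      have h5 := h2.unique h1
      simpa using h5
    rcases mul_eq_zero.1 h4 with h5 | h5
    · exact absurd h5 (hβ' a).ne'
    · exact h5
  subst hσ
  subst hb
  -- third coordinate
  set k : ℝ := Complex.normSq w with hk
  have hk0 : 0 ≤ k := Complex.normSq_nonneg w
  set m : ℝ := w.re * z.re + w.im * z.im with hm
  have hN : HasDerivAt (fun t : ℝ => Complex.normSq (w + t * z)) (2 * m) 0 := by
    have e2 : (fun t : ℝ => Complex.normSq (w + t * z)) =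
        fun t => (w.re + t * z.re) * (w.re + t * z.re) + (w.im + t * z.im) * (w.im + t * z.im) := by
      ext t
      simp [Complex.normSq_apply]
    rw [e2]
    have h1 : HasDerivAt (fun t : ℝ => w.re + t * z.re) z.re 0 := by
      have := ((hasDerivAt_id (0 : ℝ)).mul_const z.re).const_add w.re
      simpa using this
    have h2 : HasDerivAt (fun t : ℝ => w.im + t * z.im) z.im 0 := by
      have := ((hasDerivAt_id (0 : ℝ)).mul_const z.im).const_add w.im
      simpa using this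
    have h3 := (h1.mul h1).add (h2.mul h2)
    refine h3.congr_deriv ?_
    simp only [zero_mul, add_zero, hm]
    ring
  have hH : HasDerivAt (fun t : ℝ => h (a + t * 0) (Complex.normSq (w + t * z)))
      (h' a k * (2 * m)) 0 := by
    have h1 : HasDerivAt (h a) (h' a k) (Complex.normSq (w + (0 : ℝ) * z)) := by
      simpa [hk] using hh a k hk0
    have h2 := h1.comp (0 : ℝ) hN
    have e2 : (fun t : ℝ => h (a + t * 0) (Complex.normSq (w + t * z))) =
        h a ∘ fun t : ℝ => Complex.normSq (w + t * z) := by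
      ext t
      simp
    rw [e2]
    exact h2
  have hre : h' a k * (2 * m) * w.re + h a k * z.re = 0 := by
    have h1 := (Complex.reCLM.comp ((ContinuousLinearMap.snd ℝ ℝ ℂ).comp
      (ContinuousLinearMap.snd ℝ ℝ (ℝ × ℂ)))).hasFDerivAt.comp_hasDerivAt (0 : ℝ) hc
    have h2 : HasDerivAt (fun t : ℝ => w.re + t * z.re) z.re 0 := by
      have := ((hasDerivAt_id (0 : ℝ)).mul_const z.re).const_add w.re
      simpa using this
    have h3 := hH.mul h2
    have e2 : ((Complex.reCLM.comp ((ContinuousLinearMap.snd ℝ ℝ ℂ).comp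
        (ContinuousLinearMap.snd ℝ ℝ (ℝ × ℂ)))) ∘ fun t : ℝ =>
        ((1 / 2 + α * (s + t * 0 - 1 / 2), β (a + t * 0),
        ((h (a + t * 0) (Complex.normSq (w + t * z)) : ℝ) : ℂ) * (w + t * z)) : R4)) =
        ((fun t : ℝ => h (a + t * 0) (Complex.normSq (w + t * z))) *
          fun t : ℝ => w.re + t * z.re) := by
      ext t
      simp
    rw [e2] at h1
    have h4 := h3.unique h1
    simpa [hk] using h4
  have him : h' a k * (2 * m) * w.im + h a k * z.im = 0 := by
    have h1 := (Complex.imCLM.comp ((ContinuousLinearMap.snd ℝ ℝ ℂ).comp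
      (ContinuousLinearMap.snd ℝ ℝ (ℝ × ℂ)))).hasFDerivAt.comp_hasDerivAt (0 : ℝ) hc
    have h2 : HasDerivAt (fun t : ℝ => w.im + t * z.im) z.im 0 := by
      have := ((hasDerivAt_id (0 : ℝ)).mul_const z.im).const_add w.im
      simpa using this
    have h3 := hH.mul h2
    have e2 : ((Complex.imCLM.comp ((ContinuousLinearMap.snd ℝ ℝ ℂ).comp
        (ContinuousLinearMap.snd ℝ ℝ (ℝ × ℂ)))) ∘ fun t : ℝ =>
        ((1 / 2 + α * (s + t * 0 - 1 / 2), β (a + t * 0),
        ((h (a + t * 0) (Complex.normSq (w + t * z)) : ℝ) : ℂ) * (w + t * z)) : R4)) =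
        ((fun t : ℝ => h (a + t * 0) (Complex.normSq (w + t * z))) *
          fun t : ℝ => w.im + t * z.im) := by
      ext t
      simp
    rw [e2] at h1
    have h4 := h3.unique h1
    simpa [hk] using h4
  obtain ⟨hp1, hp2⟩ := hp a k hk0
  have hkk : k = w.re * w.re + w.im * w.im := by rw [hk, Complex.normSq_apply]
  have hm0 : m = 0 := by
    have h1 : (h a k + 2 * k * h' a k) * m = 0 := by
      have h2 : (h' a k * (2 * m) * w.re + h a k * z.re) * w.re +
          (h' a k * (2 * m) * w.im + h a k * z.im) * w.im = 0 := by rw [hre, him]; ring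
      have h3 : (h' a k * (2 * m) * w.re + h a k * z.re) * w.re +
          (h' a k * (2 * m) * w.im + h a k * z.im) * w.im =
          h' a k * (2 * m) * (w.re * w.re + w.im * w.im) +
            h a k * (w.re * z.re + w.im * z.im) := by ring
      rw [h3, ← hkk, ← hm] at h2
      linarith
    rcases mul_eq_zero.1 h1 with h2 | h2
    · exact absurd h2 hp2.ne'
    · exact h2
  rw [hm0] at hre him
  have hz1 : z.re = 0 := by
    have : h a k * z.re = 0 := by linarith
    rcases mul_eq_zero.1 this with h2 | h2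
    · exact absurd h2 hp1.ne'
    · exact h2
  have hz2 : z.im = 0 := by
    have : h a k * z.im = 0 := by linarith
    rcases mul_eq_zero.1 this with h2 | h2
    · exact absurd h2 hp1.ne'
    · exact h2
  have hz : z = 0 := Complex.ext hz1 hz2
  rw [hz]
  rfl

end S0

theorem m_S0 (h0 : StA0) : StS0 := by
  intro α β β' h h' O hα hβ hβd hβ' hO hOk hh hhd hp
  obtain ⟨hopen, hcd⟩ := S0.tri_contDiffOn α β h O hβ hO hh
  refine ⟨?_, (S0.tri_inj α β β' h h' hα hβd hβ' hhd hp).injOn⟩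
  intro p _
  rw [h0 R4 (tri α β h) p]
  have hmem : p ∈ {p : R4 | (p.2.1, Complex.normSq p.2.2) ∈ O} :=
    hOk _ _ (Complex.normSq_nonneg _)
  refine ⟨⟨_, hopen, hmem, hcd⟩, ?_⟩
  intro v hv
  have hd : DifferentiableAt ℝ (tri α β h) p :=
    (hcd.contDiffAt (hopen.mem_nhds hmem)).differentiableAt (by simp)
  exact S0.tri_fderiv α β β' h h' hα hβd hβ' hhd hp p v hd hv

end Pool.Agent.Helper18.BI


end

/-! ## Helper18.BI.M_FR2A -/

section

/-!
# Project BI, module FR2A: make the first column of a loop constant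
-/

set_option autoImplicit false

open scoped Manifold ContDiff Topology ComplexConjugate
open Set Pool.Agent.Helper65.Barb

namespace Pool.Agent.Helper18.BI

namespace FR2A

abbrev V : Type := ℝ × ℂ

noncomputable def c1 : V →L[ℝ] ℝ := ContinuousLinearMap.fst ℝ ℝ ℂ
noncomputable def c2 : V →L[ℝ] ℝ := Complex.reCLM.comp (ContinuousLinearMap.snd ℝ ℝ ℂ)
noncomputable def c3 : V →L[ℝ] ℝ := Complex.imCLM.comp (ContinuousLinearMap.snd ℝ ℝ ℂ)

/-- the Euclidean inner product -/
noncomputable def Q : V →L[ℝ] (V →L[ℝ] ℝ) :=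
  c1.smulRight c1 + c2.smulRight c2 + c3.smulRight c3

lemma Q_apply (u v : V) : Q u v = u.1 * v.1 + u.2.re * v.2.re + u.2.im * v.2.im := by
  simp [Q, c1, c2, c3]

/-- the Gram determinant -/
noncomputable def D (u v : V) : ℝ := Q u u * Q v v - Q u v ^ 2

/-- the functional with value one at `u` and `v` -/
noncomputable def L (u v : V) : V →L[ℝ] ℝ :=
  (D u v)⁻¹ • ((Q v v - Q u v) • Q u + (Q u u - Q u v) • Q v)

/-- the shear -/
noncomputable def A (τ : ℝ) (u v : V) : V →L[ℝ] V :=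
  ContinuousLinearMap.id ℝ V + (τ • L u v).smulRight (v - u)

lemma Q_comm (u v : V) : Q u v = Q v u := by
  rw [Q_apply, Q_apply]; ring

lemma L_apply (u v x : V) : L u v x =
    (D u v)⁻¹ * ((Q v v - Q u v) * Q u x + (Q u u - Q u v) * Q v x) := by
  simp [L]
  ring

lemma L_fst {u v : V} (h : D u v ≠ 0) : L u v u = 1 := by
  rw [L_apply, Q_comm v u, inv_mul_eq_one₀ h]
  unfold D
  ring

lemma L_snd {u v : V} (h : D u v ≠ 0) : L u v v = 1 := by
  rw [L_apply, inv_mul_eq_one₀ h]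
  unfold D
  ring

lemma A_apply (τ : ℝ) (u v x : V) : A τ u v x = x + (τ * L u v x) • (v - u) := by
  simp [A]

lemma A_zero (u v : V) : A 0 u v = ContinuousLinearMap.id ℝ V := by
  ext x <;> simp [A_apply]

lemma L_A {u v : V} (h : D u v ≠ 0) (τ : ℝ) (x : V) : L u v (A τ u v x) = L u v x := by
  rw [A_apply, map_add, map_smul, map_sub, L_fst h, L_snd h, sub_self, smul_zero, add_zero]

lemma A_inj {u v : V} (h : D u v ≠ 0) (τ : ℝ) (x : V) (hx : A τ u v x = 0) : x = 0 := by
  have h1 := L_A h τ x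
  rw [hx, map_zero] at h1
  rw [A_apply, ← h1, mul_zero, zero_smul, add_zero] at hx
  exact hx

/-- dependence -/
lemma dep {u v : V} (hu : u ≠ 0) (h : D u v = 0) : ∃ r : ℝ, v = r • u := by
  have hq : Q u u ≠ 0 := by
    intro h0
    apply hu
    rw [Q_apply] at h0
    have s1 := mul_self_nonneg u.1
    have s2 := mul_self_nonneg u.2.re
    have s3 := mul_self_nonneg u.2.im
    have h1 : u.1 = 0 := mul_self_eq_zero.1 (by linarith)
    have h2 : u.2.re = 0 := mul_self_eq_zero.1 (by linarith)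
    have h3 : u.2.im = 0 := mul_self_eq_zero.1 (by linarith)
    exact Prod.ext h1 (Complex.ext h2 h3)
  have hD : (u.1 * v.2.re - u.2.re * v.1) ^ 2 + (u.1 * v.2.im - u.2.im * v.1) ^ 2 +
      (u.2.re * v.2.im - u.2.im * v.2.re) ^ 2 = 0 := by
    rw [← h]
    unfold D
    rw [Q_apply, Q_apply, Q_apply]
    ring
  have e1 : u.1 * v.2.re - u.2.re * v.1 = 0 := by
    have s1 := sq_nonneg (u.1 * v.2.re - u.2.re * v.1)
    have s2 := sq_nonneg (u.1 * v.2.im - u.2.im * v.1)
    have s3 := sq_nonneg (u.2.re * v.2.im - u.2.im * v.2.re)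
    exact pow_eq_zero_iff (two_ne_zero) |>.1 (by linarith)
  have e2 : u.1 * v.2.im - u.2.im * v.1 = 0 := by
    have s1 := sq_nonneg (u.1 * v.2.re - u.2.re * v.1)
    have s2 := sq_nonneg (u.1 * v.2.im - u.2.im * v.1)
    have s3 := sq_nonneg (u.2.re * v.2.im - u.2.im * v.2.re)
    exact pow_eq_zero_iff (two_ne_zero) |>.1 (by linarith)
  have e3 : u.2.re * v.2.im - u.2.im * v.2.re = 0 := by
    have s1 := sq_nonneg (u.1 * v.2.re - u.2.re * v.1)
    have s2 := sq_nonneg (u.1 * v.2.im - u.2.im * v.1)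
    have s3 := sq_nonneg (u.2.re * v.2.im - u.2.im * v.2.re)
    exact pow_eq_zero_iff (two_ne_zero) |>.1 (by linarith)
  refine ⟨Q u v / Q u u, ?_⟩
  have k1 : v.1 = Q u v / Q u u * u.1 := by
    rw [div_mul_eq_mul_div, eq_div_iff hq, Q_apply, Q_apply]
    linear_combination -u.2.re * e1 - u.2.im * e2
  have k2 : v.2.re = Q u v / Q u u * u.2.re := by
    rw [div_mul_eq_mul_div, eq_div_iff hq, Q_apply, Q_apply]
    linear_combination u.1 * e1 - u.2.im * e3
  have k3 : v.2.im = Q u v / Q u u * u.2.im := by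
    rw [div_mul_eq_mul_div, eq_div_iff hq, Q_apply, Q_apply]
    linear_combination u.1 * e2 + u.2.re * e3
  refine Prod.ext ?_ (Complex.ext ?_ ?_)
  · simpa using k1
  · simpa using k2
  · simpa using k3

/-- a vector independent of all first columns -/
lemma exists_indep {u : ℝ → V} (hu : ContDiff ℝ ∞ u) : ∃ n : V, ∀ r a : ℝ, n ≠ r • u a := by
  by_contra hcon
  push Not at hcon
  have h1 : (fun q : ℝ × ℝ => q.1 • u q.2) '' univ = univ := by
    rw [eq_univ_iff_forall]
    intro n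
    obtain ⟨r, a, h⟩ := hcon n
    exact ⟨(r, a), mem_univ _, h.symm⟩
  have hd : Differentiable ℝ (fun q : ℝ × ℝ => q.1 • u q.2) := by
    have h2 : Differentiable ℝ u := hu.differentiable (by simp)
    have h3 : Differentiable ℝ (fun q : ℝ × ℝ => u q.2) := h2.comp differentiable_snd
    exact differentiable_fst.smul h3
  have hf : Module.finrank ℝ (ℝ × ℝ) < Module.finrank ℝ V := by
    rw [Module.finrank_prod, Module.finrank_prod, Module.finrank_self, Complex.finrank_real_complex]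
    norm_num
  have h3 := Pool.Agent.Helper34.BI.null_image
    ((MeasureTheory.volume : MeasureTheory.Measure ℝ).prod
      (MeasureTheory.volume : MeasureTheory.Measure ℂ)) hf (s := univ) hd.differentiableOn
  rw [h1] at h3
  exact (isOpen_univ.measure_pos ((MeasureTheory.volume : MeasureTheory.Measure ℝ).prod
    (MeasureTheory.volume : MeasureTheory.Measure ℂ)) univ_nonempty).ne' h3

lemma contDiff_Q {E : Type} [NormedAddCommGroup E] [NormedSpace ℝ E] {u v : E → V}
    (hu : ContDiff ℝ ∞ u) (hv : ContDiff ℝ ∞ v) : ContDiff ℝ ∞ (fun x => Q (u x) (v x)) :=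
  (Q.contDiff.comp hu).clm_apply hv

lemma contDiff_A {E : Type} [NormedAddCommGroup E] [NormedSpace ℝ E] {τ : E → ℝ} {u v : E → V}
    (hτ : ContDiff ℝ ∞ τ) (hu : ContDiff ℝ ∞ u) (hv : ContDiff ℝ ∞ v)
    (hD : ∀ x, D (u x) (v x) ≠ 0) : ContDiff ℝ ∞ (fun x => A (τ x) (u x) (v x)) := by
  have h1 : ContDiff ℝ ∞ (fun x => D (u x) (v x)) :=
    ((contDiff_Q hu hu).mul (contDiff_Q hv hv)).sub ((contDiff_Q hu hv).pow 2)
  have h2 : ContDiff ℝ ∞ (fun x => L (u x) (v x)) := by
    refine (h1.inv hD).smul (ContDiff.add ?_ ?_)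
    · exact ((contDiff_Q hv hv).sub (contDiff_Q hu hv)).smul (Q.contDiff.comp hu)
    · exact ((contDiff_Q hu hu).sub (contDiff_Q hu hv)).smul (Q.contDiff.comp hv)
  exact contDiff_const.add ((hτ.smul h2).smulRight (hv.sub hu))

end FR2A

open FR2A in
theorem m_Fr2a : StFr2a := by
  rintro G ⟨hG, hinj, δ, hδ, hend⟩
  -- the first columns
  let e : ℝ × ℂ := (1, 0)
  let u : ℝ → ℝ × ℂ := fun a => G a e
  have hu : ContDiff ℝ ∞ u := hG.clm_apply contDiff_const
  have he : e ≠ 0 := by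
    intro h
    have := congrArg Prod.fst h
    exact one_ne_zero this
  have hune : ∀ a, u a ≠ 0 := fun a h => he (hinj a e h)
  obtain ⟨n, hn⟩ := exists_indep hu
  have hD : ∀ a, D (u a) n ≠ 0 := by
    intro a h
    obtain ⟨r, hr⟩ := dep (hune a) h
    exact hn r a hr
  have hue : ∀ a, (a ≤ 1 / 5 + δ ∨ 4 / 5 - δ ≤ a) → u a = e := by
    intro a ha
    show G a e = e
    rw [hend a ha]
    rfl
  have hDe : D e n ≠ 0 := by
    have h1 := hD 0
    rw [hue 0 (Or.inl (by linarith))] at h1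
    exact h1
  -- the cutoff
  let χ : ℝ → ℝ := fun a => Real.smoothTransition ((a - 1 / 5 - δ / 3) / (δ / 3)) *
    Real.smoothTransition ((4 / 5 - δ / 3 - a) / (δ / 3))
  have hχ : ContDiff ℝ ∞ χ := by
    refine ContDiff.mul ?_ ?_
    · exact Real.smoothTransition.contDiff.comp (((contDiff_id.sub contDiff_const).sub
        contDiff_const).div_const _)
    · exact Real.smoothTransition.contDiff.comp ((contDiff_const.sub contDiff_id).div_const _)
  have hχ0 : ∀ a, (a ≤ 1 / 5 + δ / 3 ∨ 4 / 5 - δ / 3 ≤ a) → χ a = 0 := by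
    rintro a (ha | ha)
    · show _ * _ = (0 : ℝ)
      rw [Real.smoothTransition.zero_of_nonpos (div_nonpos_of_nonpos_of_nonneg (by linarith)
        (by linarith)), zero_mul]
    · show _ * _ = (0 : ℝ)
      rw [Real.smoothTransition.zero_of_nonpos (x := (4 / 5 - δ / 3 - a) / (δ / 3))
        (div_nonpos_of_nonpos_of_nonneg (by linarith) (by linarith)), mul_zero]
  have hχ1 : ∀ a, u a = e ∨ χ a = 1 := by
    intro a
    by_cases ha : a ≤ 1 / 5 + δ ∨ 4 / 5 - δ ≤ a
    · exact Or.inl (hue a ha)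
    · right
      push Not at ha
      have hpos : 0 < δ / 3 := by linarith
      show _ * _ = (1 : ℝ)
      rw [Real.smoothTransition.one_of_one_le ((one_le_div hpos).2 (by linarith)),
        Real.smoothTransition.one_of_one_le ((one_le_div hpos).2 (by linarith)), mul_one]
  -- the homotopy
  let Γ : ℝ × ℝ → E3 := fun q => ((A (-(q.1 * χ q.2)) e n).comp (A (q.1 * χ q.2) (u q.2) n)).comp
    (G q.2)
  have hΓ : ContDiff ℝ ∞ Γ := by
    have h1 : ContDiff ℝ ∞ (fun q : ℝ × ℝ => q.1 * χ q.2) := contDiff_fst.mul (hχ.comp contDiff_snd)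
    have h2 := contDiff_A (E := ℝ × ℝ) h1.neg (contDiff_const (c := e)) (contDiff_const (c := n))
      (fun _ => hDe)
    have h3 := contDiff_A (E := ℝ × ℝ) h1 (hu.comp contDiff_snd) (contDiff_const (c := n))
      (fun q => hD q.2)
    exact (h2.clm_comp h3).clm_comp (hG.comp contDiff_snd)
  have hΓinj : ∀ t a v, Γ (t, a) v = 0 → v = 0 := by
    intro t a v h
    exact hinj a v (A_inj (hD a) _ _ (A_inj hDe _ _ h))
  have hΓend : ∀ t a, (a ≤ 1 / 5 + δ / 3 ∨ 4 / 5 - δ / 3 ≤ a) →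
      Γ (t, a) = ContinuousLinearMap.id ℝ (ℝ × ℂ) := by
    intro t a ha
    have h1 : G a = ContinuousLinearMap.id ℝ (ℝ × ℂ) := hend a (by
      rcases ha with ha | ha
      · left; linarith
      · right; linarith)
    show ((A (-(t * χ a)) e n).comp (A (t * χ a) (u a) n)).comp (G a) = _
    rw [hχ0 a ha, mul_zero, neg_zero, A_zero, A_zero, h1]
    rfl
  have hδ3 : 0 < δ / 3 := by linarith
  refine ⟨fun a => Γ (1, a), ⟨?_, fun a v => hΓinj 1 a v, δ / 3, hδ3, fun a => hΓend 1 a⟩, ?_, ?_⟩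
  · exact hΓ.comp (contDiff_const.prodMk contDiff_id)
  · refine Relation.ReflTransGen.single ⟨Γ, ⟨hΓ, fun t _ a v => hΓinj t a v, δ / 3, hδ3, hΓend⟩,
      fun a => ?_, fun a => rfl⟩
    show ((A (-(0 * χ a)) e n).comp (A (0 * χ a) (u a) n)).comp (G a) = G a
    rw [zero_mul, neg_zero, A_zero, A_zero]
    rfl
  · intro a
    show A (-(1 * χ a)) e n (A (1 * χ a) (u a) n (u a)) = e
    have h1 : A (1 * χ a) (u a) n (u a) = e + χ a • (n - e) := by
      rw [A_apply, L_fst (hD a), one_mul, mul_one]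
      rcases hχ1 a with h | h
      · rw [h]
      · rw [h, one_smul, one_smul]; abel
    rw [h1, A_apply, map_add, map_smul, map_sub, L_fst hDe, L_snd hDe, sub_self, smul_zero,
      add_zero, mul_one, one_mul, neg_smul]
    abel

end Pool.Agent.Helper18.BI


end

/-! ## Helper18.BI.M_FR2B -/

section

/-!
# Project BI, module FR2B: loops fixing the first basis vector are homotopic to rotations
-/

set_option autoImplicit false

open scoped Manifold ContDiff Topology ComplexConjugate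
open Set Pool.Agent.Helper65.Barb

namespace Pool.Agent.Helper18.BI

namespace FR2B

noncomputable def B0 : E3 :=
  (ContinuousLinearMap.inl ℝ ℝ ℂ).comp (ContinuousLinearMap.fst ℝ ℝ ℂ)

noncomputable def B1 : E3 :=
  (ContinuousLinearMap.inl ℝ ℝ ℂ).comp (Complex.reCLM.comp (ContinuousLinearMap.snd ℝ ℝ ℂ))

noncomputable def B2 : E3 :=
  (ContinuousLinearMap.inl ℝ ℝ ℂ).comp (Complex.imCLM.comp (ContinuousLinearMap.snd ℝ ℝ ℂ))

noncomputable def B3 : E3 :=
  (ContinuousLinearMap.inr ℝ ℝ ℂ).comp (ContinuousLinearMap.snd ℝ ℝ ℂ)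

noncomputable def B4 : E3 :=
  (ContinuousLinearMap.inr ℝ ℝ ℂ).comp
    ((ContinuousLinearMap.mul ℝ ℂ Complex.I).comp (ContinuousLinearMap.snd ℝ ℝ ℂ))

noncomputable def B5 : E3 :=
  (ContinuousLinearMap.inr ℝ ℝ ℂ).comp
    ((Complex.conjCLE : ℂ →L[ℝ] ℂ).comp (ContinuousLinearMap.snd ℝ ℝ ℂ))

noncomputable def B6 : E3 :=
  (ContinuousLinearMap.inr ℝ ℝ ℂ).comp ((ContinuousLinearMap.mul ℝ ℂ Complex.I).comp
    ((Complex.conjCLE : ℂ →L[ℝ] ℂ).comp (ContinuousLinearMap.snd ℝ ℝ ℂ)))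

/-- the linear map `(σ, v) ↦ (σ + x Re v + y Im v, α v + β conj v)` -/
noncomputable def Mst (x y : ℝ) (α β : ℂ) : E3 :=
  B0 + x • B1 + y • B2 + α.re • B3 + α.im • B4 + β.re • B5 + β.im • B6

lemma Mst_apply (x y : ℝ) (α β : ℂ) (σ : ℝ) (v : ℂ) :
    Mst x y α β (σ, v) = (σ + x * v.re + y * v.im, α * v + β * conj v) := by
  have e0 : B0 (σ, v) = (σ, 0) := by simp [B0]
  have e1 : B1 (σ, v) = (v.re, 0) := by simp [B1]
  have e2 : B2 (σ, v) = (v.im, 0) := by simp [B2]
  have e3 : B3 (σ, v) = (0, v) := by simp [B3]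
  have e4 : B4 (σ, v) = (0, Complex.I * v) := by simp [B4]
  have e5 : B5 (σ, v) = (0, conj v) := by simp [B5]
  have e6 : B6 (σ, v) = (0, Complex.I * conj v) := by simp [B6]
  unfold Mst
  simp only [add_apply, smul_apply, e0, e1, e2, e3, e4,
    e5, e6]
  refine Prod.ext ?_ ?_
  · simp
  · simp only [Prod.snd_add, Prod.smul_snd, Complex.real_smul]
    have h1 := Complex.re_add_im α
    have h2 := Complex.re_add_im β
    linear_combination v * h1 + conj v * h2

lemma Mst_smooth {E : Type} [NormedAddCommGroup E] [NormedSpace ℝ E] {x y : E → ℝ} {α β : E → ℂ}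
    (hx : ContDiff ℝ ∞ x) (hy : ContDiff ℝ ∞ y) (hα : ContDiff ℝ ∞ α) (hβ : ContDiff ℝ ∞ β) :
    ContDiff ℝ ∞ fun e => Mst (x e) (y e) (α e) (β e) := by
  have h1 : ContDiff ℝ ∞ fun e => (α e).re := Complex.reCLM.contDiff.comp hα
  have h2 : ContDiff ℝ ∞ fun e => (α e).im := Complex.imCLM.contDiff.comp hα
  have h3 : ContDiff ℝ ∞ fun e => (β e).re := Complex.reCLM.contDiff.comp hβ
  have h4 : ContDiff ℝ ∞ fun e => (β e).im := Complex.imCLM.contDiff.comp hβ
  unfold Mst
  exact ((((((contDiff_const.add (hx.smul contDiff_const)).add (hy.smul contDiff_const)).add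
    (h1.smul contDiff_const)).add (h2.smul contDiff_const)).add (h3.smul contDiff_const)).add
    (h4.smul contDiff_const))

lemma Mst_id : Mst 0 0 1 0 = ContinuousLinearMap.id ℝ (ℝ × ℂ) := by
  refine ContinuousLinearMap.ext fun p => ?_
  obtain ⟨σ, v⟩ := p
  rw [Mst_apply]
  simp

lemma Mst_inj {x y : ℝ} {α β : ℂ} (h : ‖β‖ < ‖α‖) (p : ℝ × ℂ) (hp : Mst x y α β p = 0) :
    p = 0 := by
  obtain ⟨σ, v⟩ := p
  rw [Mst_apply] at hp
  have h1 : α * v + β * conj v = 0 := congrArg Prod.snd hp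
  have h2 : σ + x * v.re + y * v.im = 0 := congrArg Prod.fst hp
  have h3 : ‖α‖ * ‖v‖ = ‖β‖ * ‖v‖ := by
    have : α * v = -(β * conj v) := by linear_combination h1
    have h4 := congrArg norm this
    rw [norm_mul, norm_neg, norm_mul, RCLike.norm_conj] at h4
    exact h4
  have h5 : v = 0 := by
    by_contra hv
    have h6 : 0 < ‖v‖ := norm_pos_iff.2 hv
    have := mul_right_cancel₀ h6.ne' h3
    exact h.ne' this
  subst h5
  simp at h2
  rw [h2]
  rfl

lemma Mst_ker {x y : ℝ} {α β : ℂ} (h : Complex.normSq α = Complex.normSq β) :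
    ∃ p : ℝ × ℂ, p ≠ 0 ∧ Mst x y α β p = 0 := by
  have key : ∃ v : ℂ, v ≠ 0 ∧ α * v + β * conj v = 0 := by
    rcases eq_or_ne α 0 with h1 | h1
    · have h2 : β = 0 := by
        rw [h1, Complex.normSq_zero] at h
        exact Complex.normSq_eq_zero.1 h.symm
      exact ⟨1, one_ne_zero, by rw [h1, h2]; simp⟩
    · rcases eq_or_ne α β with h2 | h2
      · exact ⟨Complex.I, Complex.I_ne_zero, by rw [h2]; simp⟩
      · refine ⟨conj α * (α - β), mul_ne_zero ?_ (sub_ne_zero.2 h2), ?_⟩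
        · exact (map_ne_zero _).2 h1
        · have e1 := Complex.mul_conj α
          have e2 := Complex.mul_conj β
          have e3 : (Complex.normSq α : ℂ) = Complex.normSq β := by rw [h]
          rw [map_mul, map_sub, Complex.conj_conj]
          linear_combination (α : ℂ) * e1 - α * e2 + α * e3
  obtain ⟨v, hv, hv'⟩ := key
  refine ⟨(-(x * v.re + y * v.im), v), fun h0 => hv (congrArg Prod.snd h0), ?_⟩
  rw [Mst_apply, hv']
  refine Prod.ext ?_ rfl
  show -(x * v.re + y * v.im) + x * v.re + y * v.im = 0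
  ring

/-- a smooth logarithm of a nowhere vanishing function -/
lemma exists_log {α : ℝ → ℂ} (hα : ContDiff ℝ ∞ α) (h0 : ∀ a, α a ≠ 0) {δ : ℝ} (hδ : 0 < δ)
    (h1 : ∀ a, (a ≤ 1 / 5 + δ ∨ 4 / 5 - δ ≤ a) → α a = 1) :
    ∃ (η : ℝ → ℂ) (k : ℤ), ContDiff ℝ ∞ η ∧ (∀ a, Complex.exp (η a) = α a) ∧
      (∀ a, a ≤ 1 / 5 + δ / 2 → η a = 0) ∧
      ∀ a, 4 / 5 - δ / 2 ≤ a → η a = k * (2 * Real.pi * Complex.I) := by
  set f : ℝ → ℂ := fun a => deriv α a * (α a)⁻¹ with hf
  have hα' : ContDiff ℝ ∞ (deriv α) := (contDiff_infty_iff_deriv.1 hα).2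
  have hαd : Differentiable ℝ α := (contDiff_infty_iff_deriv.1 hα).1
  have hfs : ContDiff ℝ ∞ f := hα'.mul (hα.inv h0)
  have hfc : Continuous f := hfs.continuous
  set η : ℝ → ℂ := fun a => ∫ s in (0 : ℝ)..a, f s with hη
  have hηd : ∀ a, HasDerivAt η (f a) a := fun a =>
    (hfc.integral_hasStrictDerivAt 0 a).hasDerivAt
  have hηs : ContDiff ℝ ∞ η := by
    rw [contDiff_infty_iff_deriv]
    refine ⟨fun a => (hηd a).differentiableAt, ?_⟩
    have : deriv η = f := funext fun a => (hηd a).deriv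
    rw [this]
    exact hfs
  have hη0 : η 0 = 0 := by
    show ∫ s in (0 : ℝ)..0, f s = 0
    exact intervalIntegral.integral_same
  have hα0 : α 0 = 1 := h1 0 (Or.inl (by linarith))
  have hexp : ∀ a, Complex.exp (η a) = α a := by
    have hd : ∀ a, HasDerivAt (fun a => α a * Complex.exp (-η a)) 0 a := by
      intro a
      have e1 : HasDerivAt (fun a => Complex.exp (-η a)) (Complex.exp (-η a) * (-f a)) a :=
        (hηd a).neg.cexp
      have e2 := (hαd a).hasDerivAt.mul e1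
      have e3 : f a * α a = deriv α a := inv_mul_cancel_right₀ (h0 a) _
      have e4 : deriv α a * Complex.exp (-η a) + α a * (Complex.exp (-η a) * -f a) = 0 := by
        rw [← e3]
        ring
      rw [e4] at e2
      exact e2
    have hc : ∀ a, α a * Complex.exp (-η a) = 1 := by
      intro a
      have := is_const_of_deriv_eq_zero (f := fun a => α a * Complex.exp (-η a))
        (fun a => (hd a).differentiableAt) (fun a => (hd a).deriv) a 0
      simp only [hη0, hα0] at this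
      rw [this]
      simp
    intro a
    have h2 := hc a
    rw [Complex.exp_neg] at h2
    have h3 := Complex.exp_ne_zero (η a)
    field_simp at h2
    exact h2.symm
  have hf0 : ∀ a, (a < 1 / 5 + δ ∨ 4 / 5 - δ < a) → f a = 0 := by
    intro a ha
    have h2 : α =ᶠ[𝓝 a] fun _ => (1 : ℂ) := by
      rcases ha with ha | ha
      · filter_upwards [Iio_mem_nhds ha] with s hs
        exact h1 s (Or.inl (le_of_lt hs))
      · filter_upwards [Ioi_mem_nhds ha] with s hs
        exact h1 s (Or.inr (le_of_lt hs))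
    have h3 : deriv α a = 0 := by
      rw [h2.deriv_eq]
      exact deriv_const a (1 : ℂ)
    show deriv α a * (α a)⁻¹ = 0
    rw [h3, zero_mul]
  have hk : Complex.exp (η (4 / 5 - δ / 2)) = 1 := by
    rw [hexp]
    exact h1 _ (Or.inr (by linarith))
  obtain ⟨k, hk⟩ := Complex.exp_eq_one_iff.1 hk
  refine ⟨η, k, hηs, hexp, ?_, ?_⟩
  · intro a ha
    show ∫ s in (0 : ℝ)..a, f s = 0
    rw [intervalIntegral.integral_congr (g := fun _ => (0 : ℂ))]
    · simp
    · intro s hs
      refine hf0 s (Or.inl ?_)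
      have h3 : s ≤ max 0 a := hs.2
      rcases max_cases 0 a with h4 | h4 <;> linarith [h4.1]
  · intro a ha
    rw [← hk]
    have h3 : η (4 / 5 - δ / 2) + ∫ s in (4 / 5 - δ / 2)..a, f s = η a :=
      intervalIntegral.integral_add_adjacent_intervals (hfc.intervalIntegrable _ _)
        (hfc.intervalIntegrable _ _)
    rw [← h3, intervalIntegral.integral_congr (g := fun _ => (0 : ℂ))]
    · simp
    · intro s hs
      refine hf0 s (Or.inr ?_)
      rw [uIcc_of_le ha] at hs
      linarith [hs.1]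

end FR2B

open FR2B in
theorem m_Fr2b : StFr2b := by
  intro G hG he
  obtain ⟨hGs, hGi, δ, hδ, hG1⟩ := hG
  have hev : ∀ v : ℝ × ℂ, ContDiff ℝ ∞ fun a => G a v := fun v => hGs.clm_apply contDiff_const
  set x : ℝ → ℝ := fun a => (G a (0, 1)).1 with hx
  set y : ℝ → ℝ := fun a => (G a (0, Complex.I)).1 with hy
  set g1 : ℝ → ℂ := fun a => (G a (0, 1)).2 with hg1
  set g2 : ℝ → ℂ := fun a => (G a (0, Complex.I)).2 with hg2
  set α : ℝ → ℂ := fun a => (1 / 2 : ℂ) * (g1 a - Complex.I * g2 a) with hα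
  set β : ℝ → ℂ := fun a => (1 / 2 : ℂ) * (g1 a + Complex.I * g2 a) with hβ
  have sx : ContDiff ℝ ∞ x := contDiff_fst.comp (hev _)
  have sy : ContDiff ℝ ∞ y := contDiff_fst.comp (hev _)
  have s1 : ContDiff ℝ ∞ g1 := contDiff_snd.comp (hev _)
  have s2 : ContDiff ℝ ∞ g2 := contDiff_snd.comp (hev _)
  have sα : ContDiff ℝ ∞ α := contDiff_const.mul (s1.sub (contDiff_const.mul s2))
  have sβ : ContDiff ℝ ∞ β := contDiff_const.mul (s1.add (contDiff_const.mul s2))
  have hGM : ∀ a, G a = Mst (x a) (y a) (α a) (β a) := by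
    intro a
    refine ContinuousLinearMap.ext fun p => ?_
    obtain ⟨σ, v⟩ := p
    have e1 : ((σ, v) : ℝ × ℂ) = σ • ((1, 0) : ℝ × ℂ) + v.re • ((0, 1) : ℝ × ℂ) +
        v.im • ((0, Complex.I) : ℝ × ℂ) := by
      refine Prod.ext ?_ ?_
      · simp
      · simp
    rw [Mst_apply]
    conv_lhs => rw [e1]
    rw [map_add, map_add, map_smul, map_smul, map_smul, he]
    refine Prod.ext ?_ ?_
    · show σ * 1 + v.re * x a + v.im * y a = _
      ring
    · have e2 : (σ • ((1, 0) : ℝ × ℂ) + v.re • G a (0, 1) + v.im • G a (0, Complex.I)).2 =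
          v.re * g1 a + v.im * g2 a := by
        simp [hg1, hg2]
      rw [e2]
      have e3 := Complex.re_add_im v
      have e4 : conj v = v.re - v.im * Complex.I := by
        apply Complex.ext <;> simp
      have e5 := Complex.I_mul_I
      show _ = (1 / 2 : ℂ) * (g1 a - Complex.I * g2 a) * v +
        (1 / 2 : ℂ) * (g1 a + Complex.I * g2 a) * conj v
      rw [e4]
      linear_combination (1 / 2 : ℂ) * (g1 a - Complex.I * g2 a) * e3 + (v.im * g2 a : ℂ) * e5
  have hid : ∀ a, (a ≤ 1 / 5 + δ ∨ 4 / 5 - δ ≤ a) → x a = 0 ∧ y a = 0 ∧ α a = 1 ∧ β a = 0 := by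
    intro a ha
    have h1 := hG1 a ha
    have e1 : g1 a = 1 := by simp only [hg1, h1]; rfl
    have e2 : g2 a = Complex.I := by simp only [hg2, h1]; rfl
    refine ⟨by simp only [hx, h1]; rfl, by simp only [hy, h1]; rfl, ?_, ?_⟩
    · show (1 / 2 : ℂ) * (g1 a - Complex.I * g2 a) = 1
      rw [e1, e2, Complex.I_mul_I]
      ring
    · show (1 / 2 : ℂ) * (g1 a + Complex.I * g2 a) = 0
      rw [e1, e2, Complex.I_mul_I]
      ring
  -- the determinant
  set D : ℝ → ℝ := fun a => Complex.normSq (α a) - Complex.normSq (β a) with hD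
  have hDc : Continuous D :=
    (Complex.continuous_normSq.comp sα.continuous).sub (Complex.continuous_normSq.comp sβ.continuous)
  have hD0 : ∀ a, D a ≠ 0 := by
    intro a h0
    obtain ⟨p, hp, hp'⟩ := Mst_ker (x := x a) (y := y a) (α := α a) (β := β a) (sub_eq_zero.1 h0)
    rw [← hGM] at hp'
    exact hp (hGi a p hp')
  have hD1 : D 0 = 1 := by
    obtain ⟨-, -, h1, h2⟩ := hid 0 (Or.inl (by linarith))
    show Complex.normSq (α 0) - Complex.normSq (β 0) = 1
    rw [h1, h2]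
    simp
  have hDpos : ∀ a, 0 < D a := by
    intro a
    by_contra hneg
    have hneg' : D a ≤ 0 := not_lt.1 hneg
    obtain ⟨c, -, hc⟩ := intermediate_value_uIcc (f := D) (a := a) (b := 0) hDc.continuousOn
      (show (0 : ℝ) ∈ uIcc (D a) (D 0) by
        rw [hD1, uIcc_of_le (by linarith)]
        exact ⟨hneg', zero_le_one⟩)
    exact hD0 c hc
  have hlt : ∀ a, ‖β a‖ < ‖α a‖ := by
    intro a
    have h1 := hDpos a
    have h2 : Complex.normSq (α a) = ‖α a‖ ^ 2 := Complex.normSq_eq_norm_sq _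
    have h3 : Complex.normSq (β a) = ‖β a‖ ^ 2 := Complex.normSq_eq_norm_sq _
    have h4 : 0 < ‖α a‖ ^ 2 - ‖β a‖ ^ 2 := by rw [← h2, ← h3]; exact h1
    exact lt_of_pow_lt_pow_left₀ 2 (norm_nonneg _) (by linarith)
  have hα0 : ∀ a, α a ≠ 0 := fun a => norm_pos_iff.1 ((norm_nonneg _).trans_lt (hlt a))
  obtain ⟨η, k, sη, hexp, hη1, hη2⟩ := exists_log sα hα0 hδ (fun a ha => (hid a ha).2.2.1)
  have hδ2 : 0 < δ / 2 := by linarith
  refine ⟨fun a => (η a).im, k, ⟨Complex.imCLM.contDiff.comp sη, δ / 2, hδ2, ?_, ?_⟩, ?_⟩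
  · intro a ha
    show (η a).im = 0
    rw [hη1 a ha, Complex.zero_im]
  · intro a ha
    show (η a).im = 2 * Real.pi * k
    rw [hη2 a ha]
    simp
    ring
  · have hre : ∀ a, (a ≤ 1 / 5 + δ / 2 ∨ 4 / 5 - δ / 2 ≤ a) → (η a).re = 0 := by
      rintro a (ha | ha)
      · rw [hη1 a ha, Complex.zero_re]
      · rw [hη2 a ha]
        simp
    refine Relation.ReflTransGen.single ⟨fun p : ℝ × ℝ => Mst ((1 - p.1) * x p.2)
      ((1 - p.1) * y p.2) ((Real.exp (-(p.1 * (η p.2).re)) : ℝ) * α p.2)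
      (((1 - p.1) * Real.exp (-(p.1 * (η p.2).re)) : ℝ) * β p.2), ⟨?_, ?_, ?_⟩, ?_, ?_⟩
    · have t1 : ContDiff ℝ ∞ fun p : ℝ × ℝ => 1 - p.1 := contDiff_const.sub contDiff_fst
      have t2 : ContDiff ℝ ∞ fun p : ℝ × ℝ => Real.exp (-(p.1 * (η p.2).re)) :=
        Real.contDiff_exp.comp ((contDiff_fst.mul
          (Complex.reCLM.contDiff.comp (sη.comp contDiff_snd))).neg)
      refine Mst_smooth (t1.mul (sx.comp contDiff_snd)) (t1.mul (sy.comp contDiff_snd)) ?_ ?_
      · exact (Complex.ofRealCLM.contDiff.comp t2).mul (sα.comp contDiff_snd)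
      · exact (Complex.ofRealCLM.contDiff.comp (t1.mul t2)).mul (sβ.comp contDiff_snd)
    · intro t ht a v hv
      refine Mst_inj ?_ v hv
      have h1 := Real.exp_pos (-(t * (η a).re))
      have hn : ∀ (r : ℝ) (w : ℂ), ‖(r : ℂ) * w‖ = |r| * ‖w‖ := fun r w => by
        rw [norm_mul, Complex.norm_real, Real.norm_eq_abs]
      show ‖(((1 - t) * Real.exp (-(t * (η a).re)) : ℝ) : ℂ) * β a‖ <
        ‖((Real.exp (-(t * (η a).re)) : ℝ) : ℂ) * α a‖
      rw [hn, hn, abs_of_pos h1, abs_of_nonneg (mul_nonneg (by linarith [ht.2]) h1.le)]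
      have h2 := hlt a
      have h3 := norm_nonneg (β a)
      calc (1 - t) * Real.exp (-(t * (η a).re)) * ‖β a‖
          ≤ 1 * Real.exp (-(t * (η a).re)) * ‖β a‖ := by
            refine mul_le_mul_of_nonneg_right (mul_le_mul_of_nonneg_right ?_ h1.le) h3
            linarith [ht.1]
        _ = Real.exp (-(t * (η a).re)) * ‖β a‖ := by ring
        _ < Real.exp (-(t * (η a).re)) * ‖α a‖ := mul_lt_mul_of_pos_left h2 h1
    · refine ⟨δ / 2, hδ2, fun t a ha => ?_⟩
      obtain ⟨e1, e2, e3, e4⟩ := hid a (by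
        rcases ha with ha | ha
        · left; linarith
        · right; linarith)
      have e5 := hre a ha
      show Mst ((1 - t) * x a) ((1 - t) * y a) ((Real.exp (-(t * (η a).re)) : ℝ) * α a)
        (((1 - t) * Real.exp (-(t * (η a).re)) : ℝ) * β a) = _
      rw [e1, e2, e3, e4, e5, mul_zero, mul_zero, mul_zero, neg_zero, Real.exp_zero,
        Complex.ofReal_one, one_mul, Mst_id]
    · intro a
      show Mst ((1 - 0) * x a) ((1 - 0) * y a) ((Real.exp (-(0 * (η a).re)) : ℝ) * α a)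
        (((1 - 0) * Real.exp (-(0 * (η a).re)) : ℝ) * β a) = G a
      rw [hGM a, zero_mul, neg_zero, Real.exp_zero]
      simp
    · intro a
      show Mst ((1 - 1) * x a) ((1 - 1) * y a) ((Real.exp (-(1 * (η a).re)) : ℝ) * α a)
        (((1 - 1) * Real.exp (-(1 * (η a).re)) : ℝ) * β a) = rotL _ a
      refine ContinuousLinearMap.ext fun p => ?_
      obtain ⟨σ, v⟩ := p
      rw [Mst_apply]
      have e1 : rotL (fun a => (η a).im) a (σ, v) =
          (σ, Complex.exp ((η a).im * Complex.I) * v) := by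
        simp [rotL]
      rw [e1]
      have e2 : ((Real.exp (-(1 * (η a).re)) : ℝ) : ℂ) * α a =
          Complex.exp ((η a).im * Complex.I) := by
        rw [← hexp a, Complex.ofReal_exp, ← Complex.exp_add]
        congr 1
        have e3 := Complex.re_add_im (η a)
        push_cast
        linear_combination -e3
      rw [e2]
      refine Prod.ext ?_ ?_
      · simp
      · simp

end Pool.Agent.Helper18.BI


end

/-! ## Helper18.BI.M_FR3 -/

section

/-!
# Project BI: module FR3 (rotations are absorbed by rotating the second cuff)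
-/

set_option autoImplicit false

open scoped Manifold ContDiff Topology ComplexConjugate
open Set Pool.Agent.Helper65.Barb

namespace Pool.Agent.Helper18.BI

namespace FR3

/-- the rotation by the angle `t * om a` -/
noncomputable def Th (om : ℝ → ℝ) (q : ℝ × R4) : R4 :=
  (q.2.1, q.2.2.1, Complex.exp ((q.1 * om q.2.2.1 : ℝ) * Complex.I) * q.2.2.2)

theorem Th_smooth {om : ℝ → ℝ} (h : ContDiff ℝ ∞ om) : ContDiff ℝ ∞ (Th om) := by
  unfold Th
  have h1 : ContDiff ℝ ∞ (fun q : ℝ × R4 => q.1 * om q.2.2.1) :=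
    contDiff_fst.mul (h.comp (contDiff_fst.comp (contDiff_snd.comp contDiff_snd)))
  have h2 : ContDiff ℝ ∞ (fun q : ℝ × R4 =>
      Complex.exp ((q.1 * om q.2.2.1 : ℝ) * Complex.I)) := by
    refine ContDiff.cexp ?_
    exact (Complex.ofRealCLM.contDiff.comp h1).mul contDiff_const
  exact (contDiff_fst.comp contDiff_snd).prodMk
    ((contDiff_fst.comp (contDiff_snd.comp contDiff_snd)).prodMk
      (h2.mul (contDiff_snd.comp (contDiff_snd.comp contDiff_snd))))

theorem Th_neg (om : ℝ → ℝ) (t : ℝ) (p : R4) : Th om (-t, Th om (t, p)) = p := by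
  unfold Th
  dsimp only
  rw [← mul_assoc, ← Complex.exp_add]
  have : ((-t * om p.2.1 : ℝ) : ℂ) * Complex.I + ((t * om p.2.1 : ℝ) : ℂ) * Complex.I = 0 := by
    push_cast; ring
  rw [this, Complex.exp_zero, one_mul]

theorem normSq_exp (x : ℝ) (w : ℂ) :
    Complex.normSq (Complex.exp ((x : ℂ) * Complex.I) * w) = Complex.normSq w := by
  rw [map_mul, Complex.normSq_eq_norm_sq, Complex.norm_exp_ofReal_mul_I]
  ring

theorem nsq_eq (x : ℝ × ℂ) : nsq x = x.1 ^ 2 + Complex.normSq x.2 := by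
  unfold nsq
  rw [Complex.normSq_apply]; ring

theorem rsq_Th (om : ℝ → ℝ) (c t : ℝ) (p : R4) : rsq c (Th om (t, p)) = rsq c p := by
  unfold rsq Th
  rw [nsq_eq, nsq_eq]
  dsimp only
  rw [normSq_exp]

theorem Th_mem {om : ℝ → ℝ} (t : ℝ) {p : R4} (hp : p ∈ SP) : Th om (t, p) ∈ SP := by
  rcases hp with (hp | hp) | hp
  · exact Or.inl (Or.inl ⟨hp.1, by rw [rsq_Th]; exact hp.2⟩)
  · exact Or.inl (Or.inr ⟨hp.1, by rw [rsq_Th]; exact hp.2⟩)
  · refine Or.inr ⟨hp.1, hp.2.1, hp.2.2.1, ?_⟩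
    show Complex.exp _ * p.2.2 = 0
    rw [hp.2.2.2, mul_zero]

/-- the maximal open set on which `F` is smooth -/
def Om (F : R4 → R4) : Set R4 := ⋃₀ {U | IsOpen U ∧ ContDiffOn ℝ ∞ F U}

theorem Om_open (F : R4 → R4) : IsOpen (Om F) := isOpen_sUnion fun _ h => h.1

theorem Om_at {F : R4 → R4} {p : R4} (h : p ∈ Om F) : ContDiffAt ℝ ∞ F p := by
  obtain ⟨U, hU, hp⟩ := h
  exact hU.2.contDiffAt (hU.1.mem_nhds hp)

theorem fam (a0 : StA0) {F : R4 → R4} {om τ : ℝ → ℝ} (hF : EmbOn 𝓘(ℝ, R4) F SP)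
    (hom : ContDiff ℝ ∞ om) (hτ : ContDiff ℝ ∞ τ) :
    FamOn 𝓘(ℝ, R4) (fun q : ℝ × R4 => F (Th om (τ q.1, q.2))) SP := by
  have hsp : SP ⊆ Om F := by
    intro p hp
    obtain ⟨⟨U, h1, h2, h3⟩, -⟩ := (a0 R4 F p).1 (hF.1 p hp)
    exact ⟨U, ⟨h1, h3⟩, h2⟩
  have hJ : ContDiff ℝ ∞ (fun q : ℝ × R4 => Th om (τ q.1, q.2)) :=
    (Th_smooth hom).comp ((hτ.comp contDiff_fst).prodMk contDiff_snd)
  have hJt : ∀ t : ℝ, ContDiff ℝ ∞ (fun p : R4 => Th om (t, p)) := fun t =>
    (Th_smooth hom).comp (contDiff_const.prodMk contDiff_id)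
  refine ⟨⟨(fun q : ℝ × R4 => Th om (τ q.1, q.2)) ⁻¹' Om F, (Om_open F).preimage hJ.continuous,
    ?_, ?_⟩, ?_⟩
  · rintro ⟨t, p⟩ ⟨-, hp⟩
    exact hsp (Th_mem (τ t) hp)
  · rw [contMDiffOn_iff_contDiffOn]
    intro q hq
    exact ((Om_at hq).comp q hJ.contDiffAt).contDiffWithinAt
  · intro t _
    refine ⟨fun p hp => ?_, ?_⟩
    · have hp' := Th_mem (om := om) (τ t) hp
      refine (a0 R4 _ p).2 ⟨⟨(fun p : R4 => Th om (τ t, p)) ⁻¹' Om F,
        (Om_open F).preimage (hJt _).continuous, hsp hp', ?_⟩, ?_⟩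
      · intro q hq
        exact ((Om_at hq).comp q (hJt _).contDiffAt).contDiffWithinAt
      · intro v hv
        have hd : DifferentiableAt ℝ (fun p : R4 => Th om (τ t, p)) p :=
          (hJt _).contDiffAt.differentiableAt (by simp)
        have hd' : DifferentiableAt ℝ (fun p : R4 => Th om (-τ t, p)) (Th om (τ t, p)) :=
          (hJt _).contDiffAt.differentiableAt (by simp)
        have hFd : DifferentiableAt ℝ F (Th om (τ t, p)) :=
          (Om_at (hsp hp')).differentiableAt (by simp)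
        have e1 : fderiv ℝ (fun p : R4 => F (Th om (τ t, p))) p =
            (fderiv ℝ F (Th om (τ t, p))).comp (fderiv ℝ (fun p : R4 => Th om (τ t, p)) p) :=
          fderiv_comp p hFd hd
        have e1v : fderiv ℝ F (Th om (τ t, p)) (fderiv ℝ (fun p : R4 => Th om (τ t, p)) p v) = 0 := by
          have := congrArg (fun L : R4 →L[ℝ] R4 => L v) e1
          exact this.symm.trans hv
        have e2 := ((a0 R4 F _).1 (hF.1 _ hp')).2 _ e1v
        have e3 : fderiv ℝ (fun p : R4 => Th om (-τ t, Th om (τ t, p))) p =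
            (fderiv ℝ (fun p : R4 => Th om (-τ t, p)) (Th om (τ t, p))).comp
              (fderiv ℝ (fun p : R4 => Th om (τ t, p)) p) :=
          fderiv_comp (g := fun p : R4 => Th om (-τ t, p)) p hd' hd
        have e4 : (fun p : R4 => Th om (-τ t, Th om (τ t, p))) = id :=
          funext fun p => Th_neg om (τ t) p
        rw [e4, fderiv_id] at e3
        have e5 := congrArg (fun L : R4 →L[ℝ] R4 => L v) e3
        have e6 : v = fderiv ℝ (fun p : R4 => Th om (-τ t, p)) (Th om (τ t, p))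
            (fderiv ℝ (fun p : R4 => Th om (τ t, p)) p v) := e5
        rw [e2, map_zero] at e6
        exact e6
    · intro p hp q hq hpq
      have h1 := hF.2 (Th_mem (τ t) hp) (Th_mem (τ t) hq) hpq
      have h2 := congrArg (fun x => Th om (-τ t, x)) h1
      simp only [Th_neg] at h2
      exact h2

theorem Th_zero (om : ℝ → ℝ) (p : R4) : Th om (0, p) = p := by
  unfold Th
  simp

theorem Th_one (om : ℝ → ℝ) (p : R4) : Th om (1, p) = fib (rotL om) p := by
  unfold Th fib rotL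
  refine Prod.ext ?_ (Prod.ext rfl ?_)
  · show p.1 = 1 / 2 + (p.1 - 1 / 2)
    ring
  · show Complex.exp ((1 * om p.2.1 : ℝ) * Complex.I) * p.2.2 =
      Complex.exp (om p.2.1 * Complex.I) • p.2.2
    rw [one_mul, smul_eq_mul]

end FR3

theorem m_Fr3 (a0 : StA0) (t2 : StT2) : StFr3 := by
  intro F om k φ hF hom
  obtain ⟨-, -, h3, -⟩ := t2 R4 R4 𝓘(ℝ, R4) R4
  constructor
  · intro h
    have h1 := FR3.fam a0 hF hom.1 (τ := fun t => 1 - t) (contDiff_const.sub contDiff_id)
    have h2 := h3 _ φ h1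
    simp only [sub_zero, sub_self, FR3.Th_zero, FR3.Th_one] at h2
    exact h2 h
  · intro h
    have h1 := FR3.fam a0 hF hom.1 (τ := fun t => t) contDiff_id
    have h2 := h3 _ φ h1
    simp only [FR3.Th_zero, FR3.Th_one] at h2
    exact h2 h

end Pool.Agent.Helper18.BI


end
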