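import Pool.Agent.Helper65.Barb.Defs
import Pool.Agent.Helper70.BI.B.P01

/-!
# Project BI (MP_8e98f2_gt): collected modules, part 10

The contents of the modules
* Helper18.BI.M_S1
* Helper18.BI.M_S3
* Helper18.BI.M_S4
* Helper18.BI.M_X1
* Helper18.BI.M_X2

in one file, so that the whole proof builds in a short time.
-/

/-! ## Helper18.BI.M_S1 -/

section

/-!
# Project BI: module S1
-/

set_option autoImplicit false

open scoped Manifold ContDiff Topology ComplexConjugate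
open Set Pool.Agent.Helper65.Barb

namespace Pool.Agent.Helper18.BI

theorem m_S1 : StS1 := by
  intro ε g k hε hg hk
  have hrad : 0 < (k - g) ^ 2 + 2 * ε * (k + g) + ε ^ 2 := by positivity
  set R : ℝ := √((k - g) ^ 2 + 2 * ε * (k + g) + ε ^ 2) with hR
  have hRpos : 0 < R := Real.sqrt_pos.2 hrad
  have hRsq : R ^ 2 = (k - g) ^ 2 + 2 * ε * (k + g) + ε ^ 2 := Real.sq_sqrt hrad.le
  have hRk : k - g ≤ R := by
    refine Real.le_sqrt_of_sq_le ?_
    nlinarith [mul_nonneg hε.le (add_nonneg hk hg.le), sq_nonneg ε]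
  have hRg : g - k ≤ R := by
    refine Real.le_sqrt_of_sq_le ?_
    nlinarith [mul_nonneg hε.le (add_nonneg hk hg.le), sq_nonneg ε]
  have hS : 0 < k + g + ε + R := by positivity
  have hu : 0 < 2 * g / (k + g + ε + R) := by positivity
  have hff : ff ε g k = √(2 * g / (k + g + ε + R)) := rfl
  have hffpos : 0 < ff ε g k := by rw [hff]; exact Real.sqrt_pos.2 hu
  have hffsq : ff ε g k ^ 2 = 2 * g / (k + g + ε + R) := by rw [hff]; exact Real.sq_sqrt hu.le
  have hX : k * ff ε g k ^ 2 = (k + g + ε - R) / 2 := by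
    rw [hffsq, mul_div_assoc', div_eq_div_iff hS.ne' two_ne_zero]
    linear_combination hRsq
  refine ⟨hffpos, ?_, ?_, ?_, ?_⟩
  · rw [hff, Real.sqrt_le_left (by norm_num), one_pow, div_le_one hS]
    linarith
  · rw [hX]
    linear_combination (1 / 4) * hRsq
  · rw [hX]
    have : k - g + ε < R := by
      rcases lt_or_ge (k - g + ε) 0 with h | h
      · exact h.trans hRpos
      · have h2 : (k - g + ε) ^ 2 < R ^ 2 := by
          rw [hRsq]; nlinarith [mul_pos hε hg]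
        exact lt_of_pow_lt_pow_left₀ 2 hRpos.le h2
    linarith
  · have h1 : HasDerivAt (fun k : ℝ => (k - g) ^ 2 + 2 * ε * (k + g) + ε ^ 2)
        (2 * (k - g + ε)) k := by
      have := ((((hasDerivAt_id k).sub_const g).pow 2).add
        (((hasDerivAt_id k).add_const g).const_mul (2 * ε))).add_const (ε ^ 2)
      refine this.congr_deriv ?_
      simp; ring
    have h2 : HasDerivAt (fun k : ℝ => √((k - g) ^ 2 + 2 * ε * (k + g) + ε ^ 2))
        ((k - g + ε) / R) k := by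
      refine (h1.sqrt hrad.ne').congr_deriv ?_
      rw [← hR]; field_simp
    have h3 : HasDerivAt (fun k : ℝ => k + g + ε + √((k - g) ^ 2 + 2 * ε * (k + g) + ε ^ 2))
        (1 + (k - g + ε) / R) k :=
      (((hasDerivAt_id k).add_const g).add_const ε).add h2
    have h4 := (h3.inv hS.ne').const_mul (2 * g)
    have h5 : HasDerivAt (ff ε g) (2 * g * (-(1 + (k - g + ε) / R) / (k + g + ε + R) ^ 2) /
        (2 * ff ε g k)) k := HasDerivAt.sqrt h4 hu.ne'
    refine ⟨_, h5, ?_⟩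
    have h6 : 0 < ff ε g k * (ff ε g k + 2 * k * (2 * g * (-(1 + (k - g + ε) / R) /
        (k + g + ε + R) ^ 2) / (2 * ff ε g k))) := by
      have e1 : ff ε g k * (ff ε g k + 2 * k * (2 * g * (-(1 + (k - g + ε) / R) /
        (k + g + ε + R) ^ 2) / (2 * ff ε g k))) = ff ε g k ^ 2 +
          k * (2 * g * (-(1 + (k - g + ε) / R) / (k + g + ε + R) ^ 2)) := by
        field_simp
      rw [e1, hffsq]
      have e2 : 2 * g / (k + g + ε + R) + k * (2 * g * (-(1 + (k - g + ε) / R) /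
          (k + g + ε + R) ^ 2)) = 2 * g * ((g + ε) * R + (g + ε) ^ 2 + ε * k - k * g) /
            (R * (k + g + ε + R) ^ 2) := by
        field_simp
        linear_combination hRsq
      rw [e2]
      refine div_pos (mul_pos (by positivity) ?_) (by positivity)
      have := mul_le_mul_of_nonneg_left hRk (add_pos hg hε).le
      nlinarith [mul_pos hg hε, mul_nonneg hε.le hk, mul_pos hε hε]
    exact pos_of_mul_pos_right h6 hffpos.le

end Pool.Agent.Helper18.BI


end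

/-! ## Helper18.BI.M_S3 -/

section

/-!
# Project BI: module S3
-/

set_option autoImplicit false

open scoped Manifold ContDiff Topology ComplexConjugate
open Set Pool.Agent.Helper65.Barb

namespace Pool.Agent.Helper18.BI

namespace S3

lemma half_nonneg (u ε : ℝ) : 0 ≤ (u + √(u ^ 2 + ε ^ 2)) / 2 := by
  have h : |u| ≤ √(u ^ 2 + ε ^ 2) := by
    refine Real.le_sqrt_of_sq_le ?_
    rw [sq_abs]; nlinarith [sq_nonneg ε]
  have := neg_abs_le u
  linarith

lemma prof_nonneg (ε a : ℝ) : 0 ≤ prof ε a := by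
  unfold prof
  have h1 := half_nonneg (1 / 25 - a ^ 2) ε
  have h2 := half_nonneg (1 / 25 - (a - 1) ^ 2) ε
  linarith

lemma den_ge {ε g k : ℝ} (hε : 0 ≤ ε) (hg : 0 ≤ g) (hk : 0 ≤ k) :
    2 * g ≤ k + g + ε + √((k - g) ^ 2 + 2 * ε * (k + g) + ε ^ 2) ∧
    k ≤ k + g + ε + √((k - g) ^ 2 + 2 * ε * (k + g) + ε ^ 2) := by
  have h : g - k ≤ √((k - g) ^ 2 + 2 * ε * (k + g) + ε ^ 2) := by
    refine Real.le_sqrt_of_sq_le ?_
    nlinarith [mul_nonneg hε (add_nonneg hk hg), sq_nonneg ε]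
  have h2 := Real.sqrt_nonneg ((k - g) ^ 2 + 2 * ε * (k + g) + ε ^ 2)
  constructor <;> linarith

lemma fac_nonneg (ε a k : ℝ) : 0 ≤ fac ε a k := Real.sqrt_nonneg _

lemma fac_le_one {ε a k : ℝ} (hε : 0 ≤ ε) (hk : 0 ≤ k) : fac ε a k ≤ 1 := by
  unfold fac
  rw [Real.sqrt_le_left (by norm_num), one_pow]
  have h := (den_ge hε (prof_nonneg ε a) hk).1
  exact div_le_one_of_le₀ h ((by linarith [prof_nonneg ε a] : (0 : ℝ) ≤ 2 * prof ε a).trans h)

lemma continuous_prof : Continuous (fun x : ℝ × ℝ => prof x.1 x.2) := by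
  unfold prof
  fun_prop

lemma continuous_axc : Continuous (fun x : ℝ × ℝ => axc x.1 x.2) := by
  unfold axc
  fun_prop

end S3

open S3 in
theorem m_S3 : StS3 := by
  have h1 : Continuous (fun q : ℝ × R4 => (1 / 2 + q.1 * (q.2.1 - 1 / 2) : ℝ)) := by fun_prop
  have h2 : Continuous (fun q : ℝ × R4 => axc q.1 q.2.2.1) :=
    continuous_axc.comp (by fun_prop : Continuous fun q : ℝ × R4 => (q.1, q.2.2.1))
  have h0 : Continuous (fun q : ℝ × R4 => prof q.1 q.2.2.1) :=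
    continuous_prof.comp (by fun_prop : Continuous fun q : ℝ × R4 => (q.1, q.2.2.1))
  have hk : Continuous (fun q : ℝ × R4 => Complex.normSq q.2.2.2) :=
    Complex.continuous_normSq.comp (by fun_prop)
  have h3 : ContinuousOn (fun q : ℝ × R4 =>
      ((fac q.1 q.2.2.1 (Complex.normSq q.2.2.2) : ℝ) : ℂ) * q.2.2.2) (Ici 0 ×ˢ univ) := by
    intro q₀ hq₀
    have hε₀ : 0 ≤ q₀.1 := hq₀.1
    by_cases hw : q₀.2.2.2 = 0
    · have e0 : ((fac q₀.1 q₀.2.2.1 (Complex.normSq q₀.2.2.2) : ℝ) : ℂ) * q₀.2.2.2 = 0 := by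
        rw [hw, mul_zero]
      unfold ContinuousWithinAt
      simp only []
      rw [e0]
      have hc : Filter.Tendsto (fun q : ℝ × R4 => ‖q.2.2.2‖) (𝓝[Ici 0 ×ˢ univ] q₀) (𝓝 0) := by
        have : Continuous (fun q : ℝ × R4 => ‖q.2.2.2‖) := by fun_prop
        have h := this.continuousAt (x := q₀)
        unfold ContinuousAt at h
        simp only [] at h
        rw [hw, norm_zero] at h
        exact h.mono_left nhdsWithin_le_nhds
      refine squeeze_zero_norm' ?_ hc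
      filter_upwards [self_mem_nhdsWithin] with q hq
      have hε : 0 ≤ q.1 := hq.1
      rw [norm_mul, Complex.norm_real, Real.norm_eq_abs, abs_of_nonneg (fac_nonneg _ _ _)]
      exact mul_le_of_le_one_left (norm_nonneg _) (fac_le_one hε (Complex.normSq_nonneg _))
    · have hkpos : 0 < Complex.normSq q₀.2.2.2 := Complex.normSq_pos.2 hw
      have hD := (den_ge hε₀ (prof_nonneg q₀.1 q₀.2.2.1) hkpos.le).2
      have hden : Continuous (fun q : ℝ × R4 => Complex.normSq q.2.2.2 + prof q.1 q.2.2.1 + q.1 +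
          √((Complex.normSq q.2.2.2 - prof q.1 q.2.2.1) ^ 2 +
            2 * q.1 * (Complex.normSq q.2.2.2 + prof q.1 q.2.2.1) + q.1 ^ 2)) :=
        (((hk.add h0).add continuous_fst).add (Continuous.sqrt
          ((((hk.sub h0).pow 2).add ((continuous_const.mul continuous_fst).mul (hk.add h0))).add
            (continuous_fst.pow 2))))
      have hfac : ContinuousAt (fun q : ℝ × R4 => fac q.1 q.2.2.1 (Complex.normSq q.2.2.2)) q₀ := by
        unfold fac
        exact (((continuous_const.mul h0).continuousAt).div hden.continuousAt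
          (ne_of_gt (hkpos.trans_le hD))).sqrt
      refine ContinuousAt.continuousWithinAt ?_
      exact (Complex.continuous_ofReal.continuousAt.comp hfac).mul
        (by fun_prop : Continuous fun q : ℝ × R4 => q.2.2.2).continuousAt
  exact h1.continuousOn.prodMk (h2.continuousOn.prodMk h3)

end Pool.Agent.Helper18.BI


end

/-! ## Helper18.BI.M_S4 -/

section

/-!
# Project BI: module S4 (the limit of the compression; compactness)
-/

set_option autoImplicit false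

open scoped Manifold ContDiff Topology ComplexConjugate
open Set Pool.Agent.Helper65.Barb

namespace Pool.Agent.Helper18.BI

namespace S4

theorem rsq_eq (c : ℝ) (p : R4) : rsq c p = (p.2.1 - c) ^ 2 + Complex.normSq p.2.2 := by
  simp only [rsq, nsq, Complex.normSq_apply]
  ring

theorem sqrt0 (u : ℝ) : √(u ^ 2 + (0 : ℝ) ^ 2) = |u| := by
  rw [zero_pow two_ne_zero, add_zero, Real.sqrt_sq_eq_abs]

theorem fac0 (g k : ℝ) (hg : 0 ≤ g) (hk : 0 ≤ k) :
    ff 0 g k ≤ 1 ∧ (g = 0 → ff 0 g k = 0) ∧ (k ≤ g → 0 < g → ff 0 g k = 1) ∧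
      (g ≤ k → ff 0 g k ^ 2 * k = g) := by
  have e : ff 0 g k = √(2 * g / (k + g + |k - g|)) := by
    unfold ff
    rw [mul_zero, zero_mul, add_zero, add_zero, sqrt0]
  rw [e]
  have h1 : g - k ≤ |k - g| := by
    rw [abs_sub_comm]; exact le_abs_self _
  refine ⟨?_, ?_, ?_, ?_⟩
  · rw [Real.sqrt_le_one]
    exact div_le_one_of_le₀ (by linarith) (by positivity)
  · intro h
    rw [h, mul_zero, zero_div, Real.sqrt_zero]
  · intro h h0
    rw [abs_of_nonpos (by linarith), show k + g + -(k - g) = 2 * g by ring,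
      div_self (by linarith), Real.sqrt_one]
  · intro h
    rw [abs_of_nonneg (by linarith), show k + g + (k - g) = 2 * k by ring,
      mul_div_mul_left _ _ two_ne_zero, Real.sq_sqrt (div_nonneg hg hk)]
    rcases hk.eq_or_lt with h0 | h0
    · rw [← h0] at h ⊢
      rw [div_zero, zero_mul]
      linarith
    · exact div_mul_cancel₀ _ h0.ne'

theorem prof0 (a : ℝ) : prof 0 a = ((1 / 25 - a ^ 2) + |1 / 25 - a ^ 2|) / 2 +
    ((1 / 25 - (a - 1) ^ 2) + |1 / 25 - (a - 1) ^ 2|) / 2 := by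
  unfold prof
  rw [sqrt0, sqrt0]

theorem axc0 (a : ℝ) : axc 0 a = 1 / 2 + (|a + 1 / 5| - |a - 6 / 5|) / 2 := by
  unfold axc
  rw [sqrt0, sqrt0]

theorem prof0_out {a : ℝ} (h0 : 1 / 25 ≤ a ^ 2) (h1 : 1 / 25 ≤ (a - 1) ^ 2) : prof 0 a = 0 := by
  rw [prof0, abs_of_nonpos (by linarith), abs_of_nonpos (by linarith)]
  ring

theorem prof0_zero {a : ℝ} (h0 : a ^ 2 ≤ 1 / 25) (h1 : 1 / 25 ≤ (a - 1) ^ 2) :
    prof 0 a = 1 / 25 - a ^ 2 := by
  rw [prof0, abs_of_nonneg (by linarith), abs_of_nonpos (by linarith)]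
  ring

theorem prof0_one {a : ℝ} (h0 : 1 / 25 ≤ a ^ 2) (h1 : (a - 1) ^ 2 ≤ 1 / 25) :
    prof 0 a = 1 / 25 - (a - 1) ^ 2 := by
  rw [prof0, abs_of_nonpos (by linarith), abs_of_nonneg (by linarith)]
  ring

theorem axc0_mid {a : ℝ} (h0 : -(1 / 5) ≤ a) (h1 : a ≤ 6 / 5) : axc 0 a = a := by
  rw [axc0, abs_of_nonneg (by linarith), abs_of_nonpos (by linarith)]
  ring

theorem axc0_left {a : ℝ} (h0 : a ≤ -(1 / 5)) : axc 0 a = -(1 / 5) := by
  rw [axc0, abs_of_nonpos (by linarith), abs_of_nonpos (by linarith)]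
  ring

theorem axc0_right {a : ℝ} (h0 : 6 / 5 ≤ a) : axc 0 a = 6 / 5 := by
  rw [axc0, abs_of_nonneg (by linarith), abs_of_nonneg (by linarith)]
  ring

theorem sq0_eq (p : R4) :
    sq 0 p = (1 / 2, axc 0 p.2.1, ((ff 0 (prof 0 p.2.1) (Complex.normSq p.2.2) : ℝ) : ℂ) * p.2.2) := by
  unfold sq
  rw [zero_mul, add_zero]
  rfl

/-- the five cases -/
theorem cases0 (p : R4) : ∃ a' f : ℝ, sq 0 p = (1 / 2, a', (f : ℂ) * p.2.2) ∧ 0 ≤ f ∧ f ≤ 1 ∧
    ((p.2.1 ≤ -(1 / 5) ∧ a' = -(1 / 5) ∧ f = 0) ∨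
     (-(1 / 5) ≤ p.2.1 ∧ p.2.1 ≤ 1 / 5 ∧ a' = p.2.1 ∧
      (Complex.normSq p.2.2 ≤ 1 / 25 - p.2.1 ^ 2 → (f : ℂ) * p.2.2 = p.2.2) ∧
      (1 / 25 - p.2.1 ^ 2 ≤ Complex.normSq p.2.2 →
        f ^ 2 * Complex.normSq p.2.2 = 1 / 25 - p.2.1 ^ 2)) ∨
     (1 / 5 ≤ p.2.1 ∧ p.2.1 ≤ 4 / 5 ∧ a' = p.2.1 ∧ f = 0) ∨
     (4 / 5 ≤ p.2.1 ∧ p.2.1 ≤ 6 / 5 ∧ a' = p.2.1 ∧
      (Complex.normSq p.2.2 ≤ 1 / 25 - (p.2.1 - 1) ^ 2 → (f : ℂ) * p.2.2 = p.2.2) ∧
      (1 / 25 - (p.2.1 - 1) ^ 2 ≤ Complex.normSq p.2.2 →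
        f ^ 2 * Complex.normSq p.2.2 = 1 / 25 - (p.2.1 - 1) ^ 2)) ∨
     (6 / 5 ≤ p.2.1 ∧ a' = 6 / 5 ∧ f = 0)) := by
  have hk := Complex.normSq_nonneg p.2.2
  have key : ∀ g : ℝ, 0 ≤ g → ((Complex.normSq p.2.2 ≤ g →
      ((ff 0 g (Complex.normSq p.2.2) : ℝ) : ℂ) * p.2.2 = p.2.2) ∧
      (g ≤ Complex.normSq p.2.2 →
        ff 0 g (Complex.normSq p.2.2) ^ 2 * Complex.normSq p.2.2 = g)) := by
    intro g hg
    obtain ⟨-, -, h1, h2⟩ := fac0 g _ hg hk
    refine ⟨fun h => ?_, h2⟩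
    rcases hg.eq_or_lt with h0 | h0
    · have h3 : Complex.normSq p.2.2 = 0 := le_antisymm (h.trans h0.symm.le) hk
      rw [Complex.normSq_eq_zero.1 h3, mul_zero]
    · rw [h1 h h0, Complex.ofReal_one, one_mul]
  rcases le_total p.2.1 (-(1 / 5)) with h1 | h1
  · have hp : prof 0 p.2.1 = 0 := prof0_out (by nlinarith) (by nlinarith)
    obtain ⟨h2, h3, -, -⟩ := fac0 0 _ le_rfl hk
    refine ⟨-(1 / 5), 0, ?_, le_rfl, zero_le_one, Or.inl ⟨h1, rfl, rfl⟩⟩
    rw [sq0_eq, axc0_left h1, hp, h3 rfl]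
  rcases le_total p.2.1 (1 / 5) with h2 | h2
  · have hp : prof 0 p.2.1 = 1 / 25 - p.2.1 ^ 2 := prof0_zero (by nlinarith) (by nlinarith)
    have hg : 0 ≤ 1 / 25 - p.2.1 ^ 2 := by nlinarith
    refine ⟨p.2.1, ff 0 (1 / 25 - p.2.1 ^ 2) (Complex.normSq p.2.2), ?_, Real.sqrt_nonneg _,
      (fac0 _ _ hg hk).1, Or.inr (Or.inl ⟨h1, h2, rfl, (key _ hg).1, (key _ hg).2⟩)⟩
    rw [sq0_eq, axc0_mid h1 (by linarith), hp]
  rcases le_total p.2.1 (4 / 5) with h3 | h3
  · have hp : prof 0 p.2.1 = 0 := prof0_out (by nlinarith) (by nlinarith)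
    obtain ⟨h4, h5, -, -⟩ := fac0 0 _ le_rfl hk
    refine ⟨p.2.1, 0, ?_, le_rfl, zero_le_one, Or.inr (Or.inr (Or.inl ⟨h2, h3, rfl, rfl⟩))⟩
    rw [sq0_eq, axc0_mid h1 (by linarith), hp, h5 rfl]
  rcases le_total p.2.1 (6 / 5) with h4 | h4
  · have hp : prof 0 p.2.1 = 1 / 25 - (p.2.1 - 1) ^ 2 := prof0_one (by nlinarith) (by nlinarith)
    have hg : 0 ≤ 1 / 25 - (p.2.1 - 1) ^ 2 := by nlinarith
    refine ⟨p.2.1, ff 0 (1 / 25 - (p.2.1 - 1) ^ 2) (Complex.normSq p.2.2), ?_, Real.sqrt_nonneg _,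
      (fac0 _ _ hg hk).1,
      Or.inr (Or.inr (Or.inr (Or.inl ⟨h3, h4, rfl, (key _ hg).1, (key _ hg).2⟩)))⟩
    rw [sq0_eq, axc0_mid h1 h4, hp]
  · have hp : prof 0 p.2.1 = 0 := prof0_out (by nlinarith) (by nlinarith)
    obtain ⟨h5, h6, -, -⟩ := fac0 0 _ le_rfl hk
    refine ⟨6 / 5, 0, ?_, le_rfl, zero_le_one,
      Or.inr (Or.inr (Or.inr (Or.inr ⟨h4, rfl, rfl⟩)))⟩
    rw [sq0_eq, axc0_right h4, hp, h6 rfl]

theorem normSq_smul (f : ℝ) (w : ℂ) :
    Complex.normSq ((f : ℂ) * w) = f ^ 2 * Complex.normSq w := by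
  rw [Complex.normSq_mul, Complex.normSq_ofReal]
  ring

theorem ext_SP (p : R4) (hp : p ∈ Ext) : sq 0 p ∈ SP := by
  obtain ⟨hp0, hp1⟩ := hp
  rw [rsq_eq] at hp0 hp1
  obtain ⟨a', f, e, hf0, hf1, hc⟩ := cases0 p
  rw [e]
  rcases hc with ⟨h1, h2, h3⟩ | ⟨h1, h2, h3, -, h5⟩ | ⟨h1, h2, h3, h4⟩ | ⟨h1, h2, h3, -, h5⟩ |
    ⟨h1, h2, h3⟩
  · left; left
    refine ⟨rfl, ?_⟩
    rw [rsq_eq, normSq_smul, h2, h3]
    norm_num
  · left; left
    refine ⟨rfl, ?_⟩
    rw [rsq_eq, normSq_smul, h5 (by nlinarith), h3]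
    show (p.2.1 - 0) ^ 2 + _ = _
    ring
  · right
    refine ⟨rfl, ?_, ?_, ?_⟩
    · show 1 / 5 ≤ a'
      linarith
    · show a' ≤ 4 / 5
      linarith
    · show (f : ℂ) * p.2.2 = 0
      rw [h4, Complex.ofReal_zero, zero_mul]
  · left; right
    refine ⟨rfl, ?_⟩
    rw [rsq_eq, normSq_smul, h5 (by nlinarith), h3]
    show (p.2.1 - 1) ^ 2 + _ = _
    ring
  · left; right
    refine ⟨rfl, ?_⟩
    rw [rsq_eq, normSq_smul, h2, h3]
    norm_num

theorem mem_FB (p : R4) : sq 0 p ∈ FB := by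
  obtain ⟨a', f, e, hf0, hf1, hc⟩ := cases0 p
  have hk := Complex.normSq_nonneg p.2.2
  rw [e]
  rcases hc with ⟨h1, h2, h3⟩ | ⟨h1, h2, h3, h4, h5⟩ | ⟨h1, h2, h3, h4⟩ | ⟨h1, h2, h3, h4, h5⟩ |
    ⟨h1, h2, h3⟩
  · left; left
    refine ⟨rfl, ?_⟩
    rw [rsq_eq, normSq_smul, h2, h3]
    norm_num
  · left; left
    refine ⟨rfl, ?_⟩
    rw [rsq_eq]
    show (a' - 0) ^ 2 + Complex.normSq ((f : ℂ) * p.2.2) ≤ 1 / 25
    rcases le_total (Complex.normSq p.2.2) (1 / 25 - p.2.1 ^ 2) with h6 | h6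
    · rw [h4 h6, h3]
      linarith
    · rw [normSq_smul, h5 h6, h3]
      linarith
  · right
    refine ⟨rfl, ?_, ?_, ?_⟩
    · show 1 / 5 ≤ a'
      linarith
    · show a' ≤ 4 / 5
      linarith
    · show (f : ℂ) * p.2.2 = 0
      rw [h4, Complex.ofReal_zero, zero_mul]
  · left; right
    refine ⟨rfl, ?_⟩
    rw [rsq_eq]
    show (a' - 1) ^ 2 + Complex.normSq ((f : ℂ) * p.2.2) ≤ 1 / 25
    rcases le_total (Complex.normSq p.2.2) (1 / 25 - (p.2.1 - 1) ^ 2) with h6 | h6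
    · rw [h4 h6, h3]
      linarith
    · rw [normSq_smul, h5 h6, h3]
      linarith
  · left; right
    refine ⟨rfl, ?_⟩
    rw [rsq_eq, normSq_smul, h2, h3]
    norm_num

theorem fixed (p : R4) (hp : rsq 0 p ≤ 1 / 25 ∨ rsq 1 p ≤ 1 / 25 ∨
    (1 / 5 ≤ p.2.1 ∧ p.2.1 ≤ 4 / 5 ∧ p.2.2 = 0)) : sq 0 p = (1 / 2, p.2) := by
  obtain ⟨a', f, e, hf0, hf1, hc⟩ := cases0 p
  have hk := Complex.normSq_nonneg p.2.2
  have main : a' = p.2.1 ∧ (f : ℂ) * p.2.2 = p.2.2 → sq 0 p = (1 / 2, p.2) := by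
    rintro ⟨h1, h2⟩
    rw [e, h1, h2]
  apply main
  rw [rsq_eq, rsq_eq] at hp
  have hz : Complex.normSq p.2.2 ≤ 0 → p.2.2 = 0 := fun h =>
    Complex.normSq_eq_zero.1 (le_antisymm h hk)
  rcases hc with ⟨h1, h2, h3⟩ | ⟨h1, h2, h3, h4, h5⟩ | ⟨h1, h2, h3, h4⟩ | ⟨h1, h2, h3, h4, h5⟩ |
    ⟨h1, h2, h3⟩
  · rcases hp with hp | hp | hp
    · have ha : p.2.1 = -(1 / 5) := by nlinarith
      have hw := hz (by nlinarith)
      rw [hw, mul_zero]
      exact ⟨h2.trans ha.symm, rfl⟩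
    · nlinarith
    · linarith [hp.1]
  · refine ⟨h3, ?_⟩
    rcases hp with hp | hp | hp
    · exact h4 (by nlinarith)
    · nlinarith
    · rw [hp.2.2, mul_zero]
  · refine ⟨h3, ?_⟩
    rcases hp with hp | hp | hp
    · rw [hz (by nlinarith), mul_zero]
    · rw [hz (by nlinarith), mul_zero]
    · rw [hp.2.2, mul_zero]
  · refine ⟨h3, ?_⟩
    rcases hp with hp | hp | hp
    · nlinarith
    · exact h4 (by nlinarith)
    · rw [hp.2.2, mul_zero]
  · rcases hp with hp | hp | hp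
    · nlinarith
    · have ha : p.2.1 = 6 / 5 := by nlinarith
      have hw := hz (by nlinarith)
      rw [hw, mul_zero]
      exact ⟨h2.trans ha.symm, rfl⟩
    · linarith [hp.2.1]

theorem fixed_FB (p : R4) (hp : p ∈ FB) : sq 0 p = p := by
  have h1 : p.1 = 1 / 2 := by
    rcases hp with (hp | hp) | hp
    · exact hp.1
    · exact hp.1
    · exact hp.1
  have h2 : sq 0 p = (1 / 2, p.2) := by
    apply fixed
    rcases hp with (hp | hp) | hp
    · exact Or.inl hp.2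
    · exact Or.inr (Or.inl hp.2)
    · exact Or.inr (Or.inr ⟨hp.2.1, hp.2.2.1, hp.2.2.2⟩)
  rw [h2]
  exact Prod.ext h1.symm rfl

theorem hom_mem (p : R4) (hp : p ∈ bsupp) (t : ℝ) (ht : t ∈ Icc (0 : ℝ) 1) :
    hom 0 (t, p) ∈ EB := by
  obtain ⟨⟨hs0, hs1, hb⟩, hp0, hp1⟩ := hp
  obtain ⟨ht0, ht1⟩ := ht
  obtain ⟨a', f, e, hf0, hf1, hc⟩ := cases0 p
  have hk := Complex.normSq_nonneg p.2.2
  rw [rsq_eq] at hb hp0 hp1
  have eh : hom 0 (t, p) = ((1 - t) * (1 / 2) + t * p.1, (1 - t) * a' + t * p.2.1,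
      (((1 - t) * f + t : ℝ) : ℂ) * p.2.2) := by
    show (1 - t) • sq 0 p + t • p = _
    rw [e]
    refine Prod.ext ?_ (Prod.ext ?_ ?_)
    · rfl
    · rfl
    · show (1 - t) • ((f : ℂ) * p.2.2) + t • p.2.2 = _
      rw [Complex.real_smul, Complex.real_smul]
      push_cast
      ring
  rw [eh]
  set a'' := (1 - t) * a' + t * p.2.1 with ha''
  set m := (1 - t) * f + t with hm
  have hmf : f ≤ m := by nlinarith
  have hm1 : m ≤ 1 := by nlinarith
  have hm0 : 0 ≤ m := hf0.trans hmf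
  have hmk : m ^ 2 * Complex.normSq p.2.2 ≤ Complex.normSq p.2.2 := by
    have : m ^ 2 ≤ 1 := by nlinarith
    nlinarith
  have hfk : f ^ 2 * Complex.normSq p.2.2 ≤ m ^ 2 * Complex.normSq p.2.2 := by
    have : f ^ 2 ≤ m ^ 2 := by nlinarith
    exact mul_le_mul_of_nonneg_right this hk
  have hmk0 : 0 ≤ m ^ 2 * Complex.normSq p.2.2 := mul_nonneg (sq_nonneg m) hk
  have goal : ∀ s : ℝ, -1 ≤ s → s ≤ 2 → a'' ^ 2 ≤ p.2.1 ^ 2 →
      (1 / 5) ^ 2 ≤ a'' ^ 2 + m ^ 2 * Complex.normSq p.2.2 →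
      (1 / 5) ^ 2 ≤ (a'' - 1) ^ 2 + m ^ 2 * Complex.normSq p.2.2 →
      ((s, a'', (m : ℂ) * p.2.2) : R4) ∈ EB := by
    intro s hs0 hs1 h1 h2 h3
    refine ⟨⟨hs0, hs1, ?_⟩, ?_, ?_⟩
    · rw [rsq_eq, normSq_smul]
      show (a'' - 0) ^ 2 + _ ≤ _
      nlinarith
    · rw [rsq_eq, normSq_smul]
      show _ ≤ (a'' - 0) ^ 2 + _
      rw [sub_zero]
      exact h2
    · rw [rsq_eq, normSq_smul]
      exact h3
  have hs0' : -1 ≤ (1 - t) * (1 / 2) + t * p.1 := by
    have := mul_nonneg ht0 hs0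
    linarith
  have hs1' : (1 - t) * (1 / 2) + t * p.1 ≤ 2 := by
    have := mul_le_mul_of_nonneg_left hs1 ht0
    linarith
  rcases hc with ⟨h1, h2, h3⟩ | ⟨h1, h2, h3, -, h5⟩ | ⟨h1, h2, h3, h4⟩ | ⟨h1, h2, h3, -, h5⟩ |
    ⟨h1, h2, h3⟩
  · have ha1 : a'' ≤ -(1 / 5) := by
      rw [ha'', h2]
      have := mul_nonneg ht0 (sub_nonneg.2 h1)
      linarith
    have ha2 : p.2.1 ≤ a'' := by
      rw [ha'', h2]
      have := mul_nonneg (sub_nonneg.2 ht1) (sub_nonneg.2 h1)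
      linarith
    refine goal _ hs0' hs1' ?_ ?_ ?_
    · have : (-a'') ^ 2 ≤ (-p.2.1) ^ 2 := pow_le_pow_left₀ (by linarith) (by linarith) 2
      rw [neg_sq, neg_sq] at this
      exact this
    · have : (1 / 5 : ℝ) ^ 2 ≤ (-a'') ^ 2 := pow_le_pow_left₀ (by norm_num) (by linarith) 2
      rw [neg_sq] at this
      linarith
    · have : (1 / 5 : ℝ) ^ 2 ≤ (1 - a'') ^ 2 := pow_le_pow_left₀ (by norm_num) (by linarith) 2
      rw [show (1 - a'') ^ 2 = (a'' - 1) ^ 2 by ring] at this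
      linarith
  · have ha1 : a'' = p.2.1 := by rw [ha'', h3]; ring
    have h6 := h5 (by rw [sub_zero] at hp0; linarith)
    rw [ha1] at goal ⊢
    refine goal _ hs0' hs1' le_rfl ?_ ?_
    · linarith
    · have : (1 / 5 : ℝ) ^ 2 ≤ (1 - p.2.1) ^ 2 := pow_le_pow_left₀ (by norm_num) (by linarith) 2
      rw [show (1 - p.2.1) ^ 2 = (p.2.1 - 1) ^ 2 by ring] at this
      linarith
  · have ha1 : a'' = p.2.1 := by rw [ha'', h3]; ring
    rw [ha1] at goal ⊢
    refine goal _ hs0' hs1' le_rfl ?_ ?_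
    · have : (1 / 5 : ℝ) ^ 2 ≤ p.2.1 ^ 2 := pow_le_pow_left₀ (by norm_num) (by linarith) 2
      linarith
    · have : (1 / 5 : ℝ) ^ 2 ≤ (1 - p.2.1) ^ 2 := pow_le_pow_left₀ (by norm_num) (by linarith) 2
      rw [show (1 - p.2.1) ^ 2 = (p.2.1 - 1) ^ 2 by ring] at this
      linarith
  · have ha1 : a'' = p.2.1 := by rw [ha'', h3]; ring
    have h6 := h5 (by linarith)
    rw [ha1] at goal ⊢
    refine goal _ hs0' hs1' le_rfl ?_ ?_
    · have : (1 / 5 : ℝ) ^ 2 ≤ p.2.1 ^ 2 := pow_le_pow_left₀ (by norm_num) (by linarith) 2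
      linarith
    · linarith
  · have ha1 : 6 / 5 ≤ a'' := by
      rw [ha'', h2]
      have := mul_nonneg ht0 (sub_nonneg.2 h1)
      linarith
    have ha2 : a'' ≤ p.2.1 := by
      rw [ha'', h2]
      have := mul_nonneg (sub_nonneg.2 ht1) (sub_nonneg.2 h1)
      linarith
    refine goal _ hs0' hs1' ?_ ?_ ?_
    · exact pow_le_pow_left₀ (by linarith) ha2 2
    · have : (1 / 5 : ℝ) ^ 2 ≤ a'' ^ 2 := pow_le_pow_left₀ (by norm_num) (by linarith) 2
      linarith
    · have : (1 / 5 : ℝ) ^ 2 ≤ (a'' - 1) ^ 2 := pow_le_pow_left₀ (by norm_num) (by linarith) 2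
      linarith

theorem SP_EB : SP ⊆ EB := by
  rintro p hp
  have hk := Complex.normSq_nonneg p.2.2
  rcases hp with (hp | hp) | hp
  · obtain ⟨h1, h2⟩ := hp
    have h3 := rsq_one_eq p
    have h4 := sq_le_rsq p
    refine ⟨⟨by rw [h1]; norm_num, by rw [h1]; norm_num, by rw [h2]; norm_num⟩,
      by rw [h2]; norm_num, ?_⟩
    rw [h3, h2]
    rw [h2] at h4
    nlinarith
  · obtain ⟨h1, h2⟩ := hp
    have h3 := rsq_one_eq p
    have h5 := rsq_eq 1 p
    have h6 := rsq_eq 0 p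
    have h7 : p.2.1 ≤ 6 / 5 := by nlinarith
    have h8 : 4 / 5 ≤ p.2.1 := by nlinarith
    refine ⟨⟨by rw [h1]; norm_num, by rw [h1]; norm_num, by nlinarith⟩, by nlinarith,
      by rw [h2]; norm_num⟩
  · obtain ⟨h1, h2, h3, h4⟩ := hp
    have h5 := rsq_eq 1 p
    have h6 := rsq_eq 0 p
    rw [h4, Complex.normSq_zero] at h5 h6
    refine ⟨⟨by rw [h1]; norm_num, by rw [h1]; norm_num, ?_⟩, ?_, ?_⟩
    · rw [h6]; nlinarith
    · rw [h6]; nlinarith
    · rw [h5]; nlinarith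

theorem bsupp_EB : bsupp ⊆ EB := by
  rintro p ⟨⟨h1, h2, h3⟩, h4, h5⟩
  exact ⟨⟨by linarith, by linarith, h3.trans (by norm_num)⟩, h4, h5⟩

theorem EB_NB : EB ⊆ NB := by
  rintro p ⟨h1, h2, h3⟩
  exact ⟨h1, le_trans (by norm_num) h2, le_trans (by norm_num) h3⟩

theorem cpt_EB : IsCompact EB := by
  apply isCompact_NB.of_isClosed_subset _ EB_NB
  apply IsClosed.inter isClosed_ball4
  exact IsClosed.inter (isClosed_le continuous_const (continuous_rsq 0))
    (isClosed_le continuous_const (continuous_rsq 1))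

theorem cpt_flat (c : ℝ) : IsCompact (flat c) := by
  apply Metric.isCompact_of_isClosed_isBounded
  · exact IsClosed.inter (isClosed_eq continuous_fst continuous_const)
      (isClosed_le (continuous_rsq c) continuous_const)
  · exact (isBounded_of_rsq c (1 / 25) (1 / 2) (1 / 2)).subset
      (fun p hp => ⟨hp.1.ge, hp.1.le, hp.2⟩)

theorem cpt_sph (c : ℝ) : IsCompact (sph c) := by
  apply (cpt_flat c).of_isClosed_subset
  · exact IsClosed.inter (isClosed_eq continuous_fst continuous_const)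
      (isClosed_eq (continuous_rsq c) continuous_const)
  · exact fun p hp => ⟨hp.1, hp.2.le⟩

theorem cpt_neck : IsCompact neck := by
  apply Metric.isCompact_of_isClosed_isBounded
  · exact IsClosed.inter (isClosed_eq continuous_fst continuous_const)
      (IsClosed.inter (isClosed_le continuous_const continuous_snd.fst)
        (IsClosed.inter (isClosed_le continuous_snd.fst continuous_const)
          (isClosed_eq continuous_snd.snd continuous_const)))
  · apply (isBounded_of_rsq 0 1 (1 / 2) (1 / 2)).subset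
    rintro p ⟨h1, h2, h3, h4⟩
    refine ⟨h1.ge, h1.le, ?_⟩
    rw [rsq_eq, h4, Complex.normSq_zero]
    nlinarith

end S4

open S4 in
theorem m_S4 : StS4 :=
  ⟨ext_SP, mem_FB, fixed, fixed_FB, fun p hp t ht => hom_mem p hp t ht, SP_EB, bsupp_EB, EB_NB,
    ((cpt_sph 0).union (cpt_sph 1)).union cpt_neck,
    ((cpt_flat 0).union (cpt_flat 1)).union cpt_neck, cpt_EB⟩

end Pool.Agent.Helper18.BI


end

/-! ## Helper18.BI.M_X1 -/

section

/-! # Module X1 of project BI: transfer along an injective local diffeomorphism -/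

set_option autoImplicit false

open scoped Manifold ContDiff Topology ComplexConjugate
open Set Pool.Agent.Helper65.Barb

namespace Pool.Agent.Helper18.BI

namespace X1

theorem barMap_inj {p q : R4} (h : barMap p = barMap q) : p = q := by
  have h1 := bfam.gf 1 p
  have h2 := bfam.gf 1 q
  have h3 : bfam.f (1, p) = bfam.f (1, q) := h
  rw [← h1, ← h2, h3]

theorem mapsTo_barMap : MapsTo barMap bsupp bsupp := by
  intro p hp
  by_contra h
  have h1 := barMap_off h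
  have h2 := barMap_inj h1
  rw [h2] at h
  exact h hp

section
variable {E : Type} [NormedAddCommGroup E] [NormedSpace ℝ E] {H : Type} [TopologicalSpace H]
  {I : ModelWithCorners ℝ E H} {M : Type} [TopologicalSpace M] [ChartedSpace H M]

theorem embOn_comp {c : R4 → M} (hc : EmbOn I c univ) {F : R4 → R4} {L : Set R4}
    (hF : EmbOn 𝓘(ℝ, R4) F L) : EmbOn I (c ∘ F) L := by
  refine ⟨fun p hp => IsLocalDiffeomorphAt.comp _ _ (hF.1 p hp) (hc.1 (F p) (mem_univ _)), ?_⟩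
  intro p hp q hq h
  exact hF.2 hp hq (hc.2 (mem_univ _) (mem_univ _) h)

theorem boundsOff_comp {c : R4 → M} (hc : EmbOn I c univ) {F : R4 → R4} {a b : ℝ}
    (h : BoundsOff 𝓘(ℝ, R4) F a b) : BoundsOff I (c ∘ F) a b := by
  obtain ⟨G, h1, h2, h3⟩ := h
  refine ⟨c ∘ G, embOn_comp hc h1, fun p hp => ?_, ?_⟩
  · simp [h2 p hp]
  · rw [Set.disjoint_left] at h3 ⊢
    rintro y ⟨p, hp, rfl⟩ ⟨q, hq, hpq⟩
    have : F q = G p := hc.2 (mem_univ _) (mem_univ _) hpq
    exact h3 ⟨p, hp, rfl⟩ ⟨q, hq, this⟩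

end

end X1

open X1 in
/-- **X1.** -/
theorem m_X1 (pu : StPush) (im : StImp) (ci : StCI) : StX1 := by
  intro E _ _ H _ I M _ _ _ c hc
  have P1 : ∀ φ ψ : R4 → R4, CIsot 𝓘(ℝ, R4) φ ψ → CIsot I (imp c univ φ) (imp c univ ψ) := by
    rintro φ ψ ⟨Φ, ⟨C, hC, hsupp⟩, h0, h1⟩
    have e0 : (fun p => Φ.f (0, p)) = φ := funext h0
    have e1 : (fun p => Φ.f (1, p)) = ψ := funext h1
    have hcC : EmbOn I c C := ⟨fun p _ => hc.1 p (mem_univ _), hc.2.mono (subset_univ _)⟩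
    have h := pu E H I M c C Φ hC hcC hsupp
    have hφ : ∀ p, p ∉ C → φ p = p := fun p hp => by rw [← h0]; exact hsupp 0 p hp
    have hψ : ∀ p, p ∉ C → ψ p = p := fun p hp => by rw [← h1]; exact hsupp 1 p hp
    rw [e0, e1, ← (im E H I M c univ φ hc.2).2.2.1 C (subset_univ _) hφ,
      ← (im E H I M c univ ψ hc.2).2.2.1 C (subset_univ _) hψ] at h
    exact h
  have P4 : ∀ φ ψ : R4 → R4, ∀ y, imp c univ (fun p => φ (ψ p)) y =
      imp c univ φ (imp c univ ψ y) := by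
    intro φ ψ y
    exact (im E H I M c univ ψ hc.2).2.2.2.1 φ (mapsTo_univ _ _) y
  have Pid : ∀ y, imp c univ (fun p => p) y = y := by
    intro y
    by_cases hy : y ∈ c '' univ
    · obtain ⟨p, hp, rfl⟩ := hy
      exact (im E H I M c univ (fun p => p) hc.2).1 p hp
    · exact (im E H I M c univ (fun p => p) hc.2).2.1 y hy
  have P3 : ∀ (F : R4 → R4) (φ : R4 → R4), Thin 𝓘(ℝ, R4) F φ →
      Thin I (c ∘ F) (imp c univ φ) := by
    rintro F φ ⟨ε₀, hε₀, h⟩
    refine ⟨ε₀, hε₀, fun ε hε => ?_⟩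
    obtain ⟨hemb, hiso⟩ := h ε hε
    refine ⟨embOn_comp hc hemb, ?_⟩
    have h1 := P1 _ _ hiso
    have e1 : imp c univ (imp (F ∘ sq ε) bsupp barMap) =
        imp c ((F ∘ sq ε) '' bsupp) (imp (F ∘ sq ε) bsupp barMap) := by
      apply (im E H I M c univ _ hc.2).2.2.1 _ (subset_univ _)
      intro p hp
      exact (im R4 R4 𝓘(ℝ, R4) R4 (F ∘ sq ε) bsupp barMap hemb.2).2.1 p hp
    have e2 : imp (fun p => c ((F ∘ sq ε) p)) bsupp barMap =
        imp c ((F ∘ sq ε) '' bsupp) (imp (F ∘ sq ε) bsupp barMap) := by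
      exact (im E H I M c ((F ∘ sq ε) '' bsupp) barMap (hc.2.mono (subset_univ _))).2.2.2.2.2.2.2
        (F ∘ sq ε) bsupp hemb.2 rfl mapsTo_barMap
    have e3 : imp ((c ∘ F) ∘ sq ε) bsupp barMap =
        imp c univ (imp (F ∘ sq ε) bsupp barMap) := by
      rw [e1, ← e2]; rfl
    rw [e3]
    exact h1
  refine ⟨P1, fun F L hF => embOn_comp hc hF, P3, P4, ?_⟩
  intro φ hφ
  induction hφ with
  | one =>
    have e : imp c univ (fun p : R4 => p) = fun y => y := funext Pid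
    rw [e]
    exact InN.one
  | gen F φ h1 h2 h3 =>
    refine InN.gen (c ∘ F) _ (embOn_comp hc h1) ?_ (P3 F φ h3)
    rcases h2 with h2 | h2
    · exact Or.inl (boundsOff_comp hc h2)
    · exact Or.inr (boundsOff_comp hc h2)
  | mul φ ψ _ _ ihφ ihψ =>
    have e : imp c univ (fun x => φ (ψ x)) = fun y => imp c univ φ (imp c univ ψ y) :=
      funext (P4 φ ψ)
    rw [e]
    exact InN.mul _ _ ihφ ihψ
  | inv φ ψ _ h1 h2 ih =>
    refine InN.inv _ _ ih ?_ ?_
    · intro x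
      rw [← P4]
      have e : (fun p => φ (ψ p)) = fun p => p := funext h1
      rw [e]
      exact Pid x
    · intro x
      rw [← P4]
      have e : (fun p => ψ (φ p)) = fun p => p := funext h2
      rw [e]
      exact Pid x
  | isot φ ψ _ h ih => exact InN.isot _ _ ih (P1 _ _ h)

end Pool.Agent.Helper18.BI


end

/-! ## Helper18.BI.M_X2 -/

section

/-!
# Project BI (MP_8e98f2_gt), module X2: a stereographic chart of S4 missing two spines
-/

set_option autoImplicit false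

open scoped Manifold ContDiff Topology ComplexConjugate
open Set Pool.Agent.Helper65.Barb

namespace Pool.Agent.Helper18.BI

namespace X2

theorem rsq_eq (c : ℝ) (p : R4) : rsq c p = (p.2.1 - c) ^ 2 + Complex.normSq p.2.2 := by
  rw [rsq, nsq, Complex.normSq_apply]
  ring

theorem isClosed_SP : IsClosed SP := by
  have h1 : Continuous (fun p : R4 => p.1) := continuous_fst
  have h2 : Continuous (fun p : R4 => p.2.1) := continuous_fst.comp continuous_snd
  have h3 : Continuous (fun p : R4 => p.2.2) := continuous_snd.comp continuous_snd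
  have hr : ∀ c, Continuous (rsq c) := fun c => continuous_rsq c
  refine IsClosed.union (IsClosed.union ?_ ?_) ?_
  · exact (isClosed_eq h1 continuous_const).inter (isClosed_eq (hr 0) continuous_const)
  · exact (isClosed_eq h1 continuous_const).inter (isClosed_eq (hr 1) continuous_const)
  · exact (isClosed_eq h1 continuous_const).inter ((isClosed_le continuous_const h2).inter
      ((isClosed_le h2 continuous_const).inter (isClosed_eq h3 continuous_const)))

theorem bound_SP {p : R4} (hp : p ∈ SP) : p.1 = 1 / 2 ∧ |p.2.1| ≤ 2 ∧ ‖p.2.2‖ ≤ 1 := by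
  have key : ∀ c : ℝ, |c| ≤ 1 → rsq c p = 1 / 25 → |p.2.1| ≤ 2 ∧ ‖p.2.2‖ ≤ 1 := by
    intro c hc h
    rw [rsq_eq] at h
    have h0 := Complex.normSq_nonneg p.2.2
    have h1 : |p.2.1 - c| ≤ 1 := by
      apply abs_le_of_sq_le_sq _ zero_le_one
      nlinarith
    have h2 : ‖p.2.2‖ ≤ 1 := by
      have h3 : ‖p.2.2‖ ^ 2 ≤ 1 ^ 2 := by
        rw [← Complex.normSq_eq_norm_sq]
        nlinarith [sq_nonneg (p.2.1 - c)]
      exact le_of_sq_le_sq h3 zero_le_one
    refine ⟨?_, h2⟩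
    rw [abs_le] at *
    constructor <;> linarith [h1.1, h1.2, hc.1, hc.2]
  rcases hp with (⟨h1, h2⟩ | ⟨h1, h2⟩) | ⟨h1, h2, h3, h4⟩
  · exact ⟨h1, key 0 (by simp) h2⟩
  · exact ⟨h1, key 1 (by simp) h2⟩
  · refine ⟨h1, ?_, ?_⟩
    · rw [abs_le]
      constructor <;> linarith
    · rw [h4, norm_zero]
      exact zero_le_one

theorem isCompact_SP : IsCompact SP := by
  refine Metric.isCompact_of_isClosed_isBounded isClosed_SP ?_
  refine (Metric.isBounded_closedBall (x := (0 : R4)) (r := 2)).subset ?_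
  intro p hp
  obtain ⟨h1, h2, h3⟩ := bound_SP hp
  rw [mem_closedBall_zero_iff, Prod.norm_def, Prod.norm_def]
  refine max_le ?_ (max_le h2 (h3.trans (by norm_num)))
  rw [h1, Real.norm_eq_abs, abs_of_pos (by norm_num)]
  norm_num

theorem closed_image (B : PartialDiffeomorph 𝓘(ℝ, R4) (𝓡 4) R4 S4 ∞) (h : SP ⊆ B.source) :
    IsClosed (B '' SP) := by
  apply IsCompact.isClosed
  exact isCompact_SP.image_of_continuousOn (B.contMDiffOn_toFun.continuousOn.mono h)

theorem interior_image (B : PartialDiffeomorph 𝓘(ℝ, R4) (𝓡 4) R4 S4 ∞) (h : SP ⊆ B.source) :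
    interior (B '' SP) = ∅ := by
  rw [eq_empty_iff_forall_notMem]
  intro y hy
  have hc : ContinuousOn B B.source := B.contMDiffOn_toFun.continuousOn
  have hV : IsOpen (B.source ∩ B ⁻¹' interior (B '' SP)) :=
    hc.isOpen_inter_preimage B.open_source isOpen_interior
  have hVS : B.source ∩ B ⁻¹' interior (B '' SP) ⊆ SP := by
    rintro p ⟨hp1, hp2⟩
    obtain ⟨p', hp', he⟩ := interior_subset hp2
    have := B.injOn (h hp') hp1 he
    rwa [← this]
  obtain ⟨p, hp, he⟩ := interior_subset hy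
  have hpV : p ∈ B.source ∩ B ⁻¹' interior (B '' SP) := ⟨h hp, by
    change B p ∈ interior (B '' SP)
    rw [he]
    exact hy⟩
  have h1 : IsOpen ((fun q : R4 => q.1) '' (B.source ∩ B ⁻¹' interior (B '' SP))) :=
    isOpenMap_fst _ hV
  have h2 : (fun q : R4 => q.1) '' (B.source ∩ B ⁻¹' interior (B '' SP)) ⊆ {1 / 2} := by
    rintro _ ⟨q, hq, rfl⟩
    exact (bound_SP (hVS hq)).1
  have h3 : p.1 ∈ interior ({1 / 2} : Set ℝ) :=
    interior_maximal h2 h1 (mem_image_of_mem (fun q : R4 => q.1) hpV)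
  rw [interior_singleton] at h3
  exact h3

theorem exists_point (B B' : PartialDiffeomorph 𝓘(ℝ, R4) (𝓡 4) R4 S4 ∞) (h : SP ⊆ B.source)
    (h' : SP ⊆ B'.source) : ∃ v : S4, v ∉ B '' SP ∧ v ∉ B' '' SP := by
  by_contra hne
  push Not at hne
  have h1 : B '' SP ∪ B' '' SP = univ := by
    rw [eq_univ_iff_forall]
    intro v
    by_cases hv : v ∈ B '' SP
    · exact Or.inl hv
    · exact Or.inr (hne v hv)
  have h2 := interior_union_isClosed_of_interior_empty (s := B '' SP) (closed_image B h)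
    (interior_image B' h')
  rw [h1, interior_univ, interior_image B h] at h2
  have h3 : (⟨EuclideanSpace.single 0 1, by simp⟩ : S4) ∈ (univ : Set S4) := mem_univ _
  rw [h2] at h3
  exact h3

theorem exists_equiv : Nonempty (R4 ≃L[ℝ] EuclideanSpace ℝ (Fin 4)) := by
  refine FiniteDimensional.nonempty_continuousLinearEquiv_of_finrank_eq ?_
  rw [finrank_euclideanSpace, Fintype.card_fin, Module.finrank_prod, Module.finrank_prod,
    Module.finrank_self, Complex.finrank_real_complex]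

end X2

open X2

theorem m_X2 : StX2 := by
  intro B B' h h'
  obtain ⟨v, hv, hv'⟩ := exists_point B B' h h'
  obtain ⟨e⟩ := exists_equiv
  have : Fact (Module.finrank ℝ (EuclideanSpace ℝ (Fin 5)) = 4 + 1) := ⟨by simp⟩
  have hsrc : (chartAt (EuclideanSpace ℝ (Fin 4)) (-v : S4)).source = {v}ᶜ := by
    change (stereographic' 4 (- -v)).source = _
    rw [neg_neg, stereographic'_source]
  have htgt : (chartAt (EuclideanSpace ℝ (Fin 4)) (-v : S4)).target = univ := by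
    change (stereographic' 4 (- -v)).target = _
    rw [stereographic'_target]
  have hs1 : ContMDiffOn (𝓡 4) (𝓡 4) ∞ (chartAt (EuclideanSpace ℝ (Fin 4)) (-v : S4))
      (chartAt (EuclideanSpace ℝ (Fin 4)) (-v : S4)).source := contMDiffOn_chart
  have hs2 : ContMDiffOn (𝓡 4) (𝓡 4) ∞ (chartAt (EuclideanSpace ℝ (Fin 4)) (-v : S4)).symm
      (chartAt (EuclideanSpace ℝ (Fin 4)) (-v : S4)).target := contMDiffOn_chart_symm
  generalize chartAt (EuclideanSpace ℝ (Fin 4)) (-v : S4) = ch at hsrc htgt hs1 hs2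
  have he : ContMDiff 𝓘(ℝ, R4) (𝓡 4) ∞ e := e.contDiff.contMDiff
  have he' : ContMDiff (𝓡 4) 𝓘(ℝ, R4) ∞ e.symm := e.symm.contDiff.contMDiff
  let δ : PartialDiffeomorph 𝓘(ℝ, R4) (𝓡 4) R4 S4 ∞ :=
    { toFun := fun p => ch.symm (e p)
      invFun := fun y => e.symm (ch y)
      source := univ
      target := ch.source
      map_source' := fun p _ => ch.map_target (by rw [htgt]; exact mem_univ _)
      map_target' := fun y _ => mem_univ _
      left_inv' := fun p _ => by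
        rw [ch.right_inv (by rw [htgt]; exact mem_univ _), e.symm_apply_apply]
      right_inv' := fun y hy => by
        rw [e.apply_symm_apply, ch.left_inv hy]
      open_source := isOpen_univ
      open_target := ch.open_source
      contMDiffOn_toFun := hs2.comp he.contMDiffOn (fun p _ => by rw [htgt]; exact mem_univ _)
      contMDiffOn_invFun := he'.comp_contMDiffOn hs1 }
  have hr : ∀ y, y ≠ v → y ∈ range (fun p => ch.symm (e p)) := by
    intro y hy
    refine ⟨e.symm (ch y), ?_⟩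
    change ch.symm (e (e.symm (ch y))) = y
    rw [e.apply_symm_apply, ch.left_inv (by rw [hsrc]; exact hy)]
  refine ⟨fun p => ch.symm (e p), ⟨fun p _ => ⟨δ, mem_univ _, fun _ _ => rfl⟩, ?_⟩, ?_, ?_⟩
  · exact δ.injOn
  · intro y hy
    exact hr y (fun hyv => hv (hyv ▸ hy))
  · intro y hy
    exact hr y (fun hyv => hv' (hyv ▸ hy))

end Pool.Agent.Helper18.BI


end
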