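import Pool.Agent.Helper65.Barb.Defs
import Pool.Agent.Helper70.BI.B.P05
import Pool.Agent.Helper70.BI.B.P06

/-!
# Project BI (MP_8e98f2_gt): collected modules, part 11

The contents of the modules
* Helper65.Barb.Implant
* Helper18.BI.M_T3
* Helper27.BI.Add
* Helper27.BI.AddM
* Helper27.BI.AddMain
* Helper27.BI.Refl
* Helper27.BI.Refl2

in one file, so that the whole proof builds in a short time.
-/

/-! ## Helper65.Barb.Implant -/

section

/-!
# Implantations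
-/

set_option autoImplicit false
set_option linter.unusedSectionVars false
set_option linter.unusedVariables false

open scoped Manifold ContDiff Topology ComplexConjugate
open Set

namespace Pool.Agent.Helper65.Barb

theorem IsBarbellMap.eq_self {β : R4 → R4} (hβ : IsBarbellMap β) {p : R4} (hp : p ∉ NB) :
    β p = p := by
  obtain ⟨Φ, -, h1, ⟨K, -, hKi, hK⟩, hz, ho⟩ := hβ
  rw [← h1]
  by_cases hpK : p ∈ K
  · have hpb := interior_subset (hKi hpK)
    by_cases h0 : rsq 0 p ≤ (3 / 20) ^ 2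
    · exact hz 1 (by simp) p h0
    · have h2 : rsq 1 p ≤ (3 / 20) ^ 2 := by
        by_contra h2
        exact hp ⟨hpb, (not_le.1 h0).le, (not_le.1 h2).le⟩
      obtain ⟨s, x⟩ := p
      obtain ⟨y, rfl⟩ : ∃ y : ℝ × ℂ, x = (1, 0) + y := ⟨x - (1, 0), by abel⟩
      have hy : nsq y ≤ (3 / 20) ^ 2 := by
        have : rsq 1 (s, (1, 0) + y) = nsq y := by simp [rsq]
        rw [← this]; exact h2
      rw [ho 1 (by simp) s y hy, step_of_one_le le_rfl, spin_one]
      simp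
  · exact hK 1 p hpK

theorem implantation_eq_push (B : PartialDiffeomorph 𝓘(ℝ, R4) (𝓡 4) R4 S4 ∞)
    (hB : NB ⊆ B.source) {β : R4 → R4} (hβ : IsBarbellMap β) : implantation B β = push B β := by
  funext y
  by_cases hy : y ∈ B '' NB
  · rw [implantation, if_pos hy]
    obtain ⟨p, hp, rfl⟩ := hy
    have h2 : B.toPartialEquiv.symm (B p) = p := B.toPartialEquiv.left_inv (hB hp)
    rw [h2, push_of_mem B _ (hB hp)]
  · rw [implantation, if_neg hy,
      push_of_notMem B _ hB (fun x hx => hβ.eq_self hx) hy]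

end Pool.Agent.Helper65.Barb


end

/-! ## Helper18.BI.M_T3 -/

section

/-!
# Project BI: modules T3 -- T7
-/

set_option autoImplicit false

open scoped Manifold ContDiff Topology ComplexConjugate
open Set Pool.Agent.Helper65.Barb

namespace Pool.Agent.Helper18.BI

namespace T3

/-- the inverse of the barbell map -/
noncomputable def barInv (p : R4) : R4 := bfam.g (1, p)

theorem contDiff_slice {f : ℝ × R4 → R4}
    (hf : ContMDiff (𝓘(ℝ, ℝ).prod 𝓘(ℝ, R4)) 𝓘(ℝ, R4) ∞ f) (t : ℝ) :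
    ContDiff ℝ ∞ (fun p => f (t, p)) := by
  rw [← contMDiff_iff_contDiff]
  exact hf.comp (contMDiff_const.prodMk contMDiff_id)

theorem sdiff_barMap : SDiff bsupp barMap barInv :=
  ⟨contDiff_slice bfam.smooth_f 1, contDiff_slice bfam.smooth_g 1, fun p => bfam.fg 1 p,
    fun p => bfam.gf 1 p, fun _ hp => barMap_off hp⟩

theorem mapsTo_barMap : MapsTo barMap bsupp bsupp := fun _ hx =>
  DFam.mapsTo (bfam.freeze 1) (K := bsupp) (fun _ _ hx => barMap_off hx) 0 hx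

theorem hom_zero (ε : ℝ) (p : R4) : hom ε (0, p) = sq ε p := by
  simp [hom]

theorem hom_one (ε : ℝ) (p : R4) : hom ε (1, p) = p := by
  simp [hom]

theorem zero_mem : (0 : ℝ) ∈ Icc (0 : ℝ) 1 := by simp

section
variable {E : Type} [NormedAddCommGroup E] [NormedSpace ℝ E] {H : Type} [TopologicalSpace H]
  {I : ModelWithCorners ℝ E H} {M : Type} [TopologicalSpace M] [ChartedSpace H M]

/-- Invariance under families in both directions. -/
theorem thin_iff [T2Space M] (t2 : StT2) (J : ℝ × R4 → M) (hJ : FamOn I J SP) (φ : M → M) :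
    Thin I (fun p => J (0, p)) φ ↔ Thin I (fun p => J (1, p)) φ := by
  obtain ⟨hi, hii, hiii, hiv, -⟩ := t2 E H I M
  refine ⟨hiii J φ hJ, fun h => ?_⟩
  obtain ⟨ε₀, hε₀, hε⟩ := hi (fun p => J (0, p)) (hJ.2 0 zero_mem)
  have h0 := hε (ε₀ / 2) ⟨by linarith, by linarith⟩
  exact hiv _ _ _ h0 (hii _ _ _ (hiii J _ hJ h0) h)

theorem isOpen_localDiffeo (F : R4 → M) :
    IsOpen {p : R4 | IsLocalDiffeomorphAt 𝓘(ℝ, R4) I ∞ F p} := by
  rw [isOpen_iff_mem_nhds]
  rintro p ⟨Φ, hp, hΦ⟩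
  filter_upwards [Φ.open_source.mem_nhds hp] with q hq
  exact ⟨Φ, hq, hΦ⟩

theorem embOn_mono {F : R4 → M} {L L' : Set R4} (h : EmbOn I F L) (hL : L' ⊆ L) : EmbOn I F L' :=
  ⟨fun p hp => h.1 p (hL hp), h.2.mono hL⟩

theorem embOn_source (B : PartialDiffeomorph 𝓘(ℝ, R4) I R4 M ∞) : EmbOn I B B.source :=
  ⟨fun _ hp => ⟨B, hp, Set.eqOn_refl _ _⟩, B.toPartialEquiv.injOn⟩

theorem famOn_isotopy (F : R4 → M) (Ψ : DFam I M) (L : Set R4) (hF : EmbOn I F L) :
    FamOn I (fun q : ℝ × R4 => Ψ.f (q.1, F q.2)) L := by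
  refine ⟨⟨univ ×ˢ {p : R4 | IsLocalDiffeomorphAt 𝓘(ℝ, R4) I ∞ F p},
    isOpen_univ.prod (isOpen_localDiffeo F), fun q hq => ⟨mem_univ _, hF.1 _ hq.2⟩, ?_⟩, ?_⟩
  · intro q hq
    have h1 : ContMDiffAt 𝓘(ℝ, R4) I ∞ F q.2 := IsLocalDiffeomorphAt.contMDiffAt hq.2
    have h2 : ContMDiffAt 𝓘(ℝ, ℝ × R4) I ∞ (fun q : ℝ × R4 => F q.2) q :=
      ContMDiffAt.comp q h1 (contDiff_snd.contMDiff.contMDiffAt)
    have h3 : ContMDiffAt 𝓘(ℝ, ℝ × R4) 𝓘(ℝ, ℝ) ∞ (fun q : ℝ × R4 => q.1) q :=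
      contDiff_fst.contMDiff.contMDiffAt
    exact (ContMDiffAt.comp q (Ψ.smooth_f.contMDiffAt) (h3.prodMk h2)).contMDiffWithinAt
  · intro t _
    refine ⟨fun p hp => ?_, fun p hp q hq hpq => hF.2 hp hq ?_⟩
    · exact (hF.1 p hp).comp I M ((Ψ.diffeo t).isLocalDiffeomorph (F p))
    · have := congrArg (fun y => Ψ.g (t, y)) hpq
      simp only [Ψ.gf] at this
      exact this

end

end T3

open T3

theorem m_T3 (a3 : StA3) (ci : StCI) (s4 : StS4) (t1 : StT1) : StT3 := by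
  intro E _ _ H _ I M _ _ _ F hF
  obtain ⟨-, -, -, -, hseg, -, -, -, -, -, hEB⟩ := s4
  obtain ⟨ε₀, hε₀, h⟩ := (t1 E H I M EB bsupp hEB isCompact_bsupp).2.1 hseg F hF
  refine ⟨ε₀, hε₀, fun ε hε => ?_⟩
  have hfam := h ε hε
  have h0 : (fun p => F (hom ε (0, p))) = F ∘ sq ε := by
    funext p; rw [hom_zero]; rfl
  have h1 : (fun p => F (hom ε (1, p))) = F := by
    funext p; rw [hom_one]
  have e0 := hfam.2 0 zero_mem
  have e1 := a3 E H I M _ bsupp barMap barInv isCompact_bsupp hfam sdiff_barMap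
  simp only [] at e0 e1
  rw [h0] at e0 e1
  rw [h1] at e1
  exact ⟨e0, (ci E H I M).2.1 _ _ e1⟩

theorem m_T4 (ci : StCI) (im : StImp) (s4 : StS4) (t2 : StT2) (t3 : StT3) : StT4 := by
  intro B β hNB hβ
  obtain ⟨-, -, -, -, -, hSP, hbs, hEN, -⟩ := s4
  have hB : EmbOn (𝓡 4) B EB := embOn_mono (embOn_source B) (hEN.trans hNB)
  refine ⟨embOn_mono hB hSP, ?_⟩
  have h1 := t3 _ _ (𝓡 4) S4 B hB
  have h2 : imp B bsupp barMap = push B barMap :=
    (im _ _ (𝓡 4) S4 B bsupp barMap (hB.2.mono hbs)).2.2.2.2.1 B (bsupp_subset.trans hNB)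
      (fun _ _ => rfl) mapsTo_barMap (fun _ hp => barMap_off hp)
  rw [h2] at h1
  have h3 : Isot (𝓡 4) (push B barMap) (push B β) :=
    isot_push_barbellMap B hNB hβ isBarbellMap_barMap
  have h4 : CIsot (𝓡 4) (push B barMap) (push B β) :=
    (ci _ _ (𝓡 4) S4).2.2.2.2.2.2.2.2.2 inferInstance _ _ h3
  rw [implantation_eq_push B hNB hβ]
  exact (t2 _ _ (𝓡 4) S4).2.2.2.1 _ _ _ h1 h4

theorem m_T5 (s4 : StS4) (t1 : StT1) (t2 : StT2) : StT5 := by
  intro E _ _ H _ I M _ _ _ F m L hLc hL hF hm hmaps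
  have hSPc : IsCompact SP := s4.2.2.2.2.2.2.2.2.1
  obtain ⟨ε₀, hε₀, h⟩ := (t1 E H I M L SP hLc hSPc).2.2.2 hL F hF m hm hmaps
  refine ⟨ε₀, hε₀, fun ε hε φ => ?_⟩
  have h1 := thin_iff t2 _ (h ε hε) φ
  simp only [hom_zero, hom_one] at h1
  exact h1

theorem m_T6 (im : StImp) (t1 : StT1) : StT6 := by
  intro E _ _ H _ I M _ _ _ F K L hK hL hKL hF
  obtain ⟨ε₀, hε₀, h⟩ := (t1 E H I M L K hL hK).2.2.1 hKL F hF
  refine ⟨ε₀, hε₀, fun ε hε => ?_⟩
  have h1 := (h ε hε ε hε).2 0 zero_mem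
  have h2 : (fun p => F (sq ((1 - (0 : ℝ)) * ε + 0 * ε) p)) = F ∘ sq ε := by
    funext p
    simp
  simp only [] at h1
  rw [h2] at h1
  exact ⟨h1, fun hb => (im E H I M _ K barMap h1.2).2.2.1 bsupp hb fun _ hp => barMap_off hp⟩

theorem m_T7 (t2 : StT2) : StT7 := by
  intro E _ _ H _ I M _ _ _ F Ψ φ hF
  exact thin_iff t2 _ (famOn_isotopy F Ψ SP hF) φ

end Pool.Agent.Helper18.BI


end

/-! ## Helper27.BI.Add -/

section

/-!
# Project BI, part (C): additivity in the model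
-/

set_option autoImplicit false
set_option linter.unusedSectionVars false
set_option linter.unusedVariables false

open scoped Manifold ContDiff Topology ComplexConjugate
open Set Pool.Agent.Helper65.Barb Pool.Agent.Helper18.BI

namespace Pool.Agent.Helper27.BI

/-! ### admissibility criteria -/

/-- the squared distance of the arc from the origin, from below -/
theorem nsq_zarc_ge (A q s : ℝ) {c : ℝ} (hc : c ∈ Icc (0 : ℝ) 1) :
    1 - 4 * c * (1 - c) ≤ nsq (zarc A c q s) := by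
  rw [nsq_zarc]
  have h1 := Real.neg_one_le_cos (2 * Real.pi * q)
  have h3 : 0 ≤ c * (1 - c) := mul_nonneg hc.1 (by linarith [hc.2])
  have h4 : 0 ≤ A ^ 2 * Real.sin (phi s) ^ 2 := by positivity
  nlinarith

/-- Admissibility of families of arcs which are levelwise of the form `zarc`. -/
theorem sqOk_of_zarc {O : Set R4} {ρ : ℝ} (hρ : 0 < ρ) (hρ' : ρ ≤ 1 / 5)
    (Γ : Unit → ℝ → ℝ → ℝ → R3)
    (hs : ContDiff ℝ ∞ (fun p : ℝ × ℝ × ℝ => Γ () p.1 p.2.1 p.2.2))
    (he : ∀ u q s : ℝ, (s ≤ 0 ∨ 1 ≤ s) → Γ () u q s = e1)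
    (hz : ∀ u ∈ Icc (0 : ℝ) 1, ∀ q ∈ Icc (0 : ℝ) 1, ∀ s, ∃ A ∈ Icc (0 : ℝ) 1,
      ∃ c ∈ Icc (0 : ℝ) 1, ∃ q', Γ () u q s = zarc A c q' s)
    (ho : ∀ u ∈ Icc (0 : ℝ) 1, ∀ q ∈ Icc (0 : ℝ) 1, ∀ s ∈ Icc (0 : ℝ) 1, ∀ x : R3,
      (s, x) ∈ O → (2 * ρ) ^ 2 ≤ nsq (x - Γ () u q s)) : SqOk O ρ Γ := by
  refine ⟨fun _ => hs, fun _ => ⟨e1, he⟩, ?_, ?_, fun _ => ho⟩
  · rintro ⟨⟩ u hu q hq s hs' x hx
    obtain ⟨A, hA, c, hc, q', e⟩ := hz u hu q hq s
    have h1 : nsq (x - Γ () u q s + Γ () u q s) ≤ (2 * ρ + 3 / 2) ^ 2 :=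
      nsq_add_le (by positivity) (by norm_num) hx (by rw [e]; exact nsq_zarc_le q' s hc hA)
    rw [sub_add_cancel] at h1
    nlinarith
  · rintro ⟨⟩ ⟨⟩ h
    exact absurd rfl h

/-- a tube around a vertical line inside the first hole is avoided where `X` is far or where the
arc is far from the origin -/
theorem off_ctube {ρ : ℝ} {x₀ z x : R3} (hρ : 0 < ρ) (hρ' : ρ ≤ 3 / 20)
    (hx₀ : nsq x₀ < (7 / 50) ^ 2) (hx : nsq (x - x₀) ≤ ρ ^ 2)
    (hz : 3 * ρ ≤ |z.2.re - x₀.2.re| ∨ (3 / 4) ^ 2 ≤ nsq z) : (2 * ρ) ^ 2 ≤ nsq (x - z) := by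
  rcases hz with hz | hz
  · by_contra hcon
    push Not at hcon
    have h1 : |(x - z).2.re| ≤ 2 * ρ := abs_re_le (by positivity) hcon.le
    have h2 : |(x - x₀).2.re| ≤ ρ := abs_re_le hρ.le hx
    have h1' : |(x - z).2.re| < 2 * ρ := by
      have := re_sq_le (x - z)
      exact abs_lt_of_sq_lt_sq (lt_of_le_of_lt this hcon) (by positivity)
    have h3 : z.2.re - x₀.2.re = (x - x₀).2.re - (x - z).2.re := by
      simp [Prod.snd_sub, Complex.sub_re]
    rw [h3] at hz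
    have h4 := abs_sub ((x - x₀).2.re) ((x - z).2.re)
    linarith
  · have h1 : nsq (x - x₀ + x₀) ≤ (ρ + 7 / 50) ^ 2 := nsq_add_le hρ.le (by norm_num) hx hx₀.le
    rw [sub_add_cancel] at h1
    refine nsq_sub_ge (r := ρ + 7 / 50) (R := 3 / 4) (by positivity) (by positivity) ?_ h1 hz
    linarith

theorem off_rsq {ρ s : ℝ} {z x : R3} (hρ : 0 < ρ) (hρ' : ρ ≤ 3 / 20)
    (hx : rsq 0 (s, x) ≤ (3 / 20) ^ 2) (hz : (3 / 4) ^ 2 ≤ nsq z) :
    (2 * ρ) ^ 2 ≤ nsq (x - z) := by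
  have h1 : nsq x ≤ (3 / 20) ^ 2 := by
    have : rsq 0 (s, x) = nsq x := by simp [rsq]
    rwa [this] at hx
  exact nsq_sub_ge (r := 3 / 20) (R := 3 / 4) (by positivity) (by positivity) (by linarith) h1 hz

/-! ### the localized speed functions -/

theorem contDiff_cloc (g X : ℝ) : ContDiff ℝ ∞ (cloc g X) := by
  have h1 : ContDiff ℝ ∞ (fun s => Real.sin (phi s)) := Real.contDiff_sin.comp contDiff_phi
  have h2 : ContDiff ℝ ∞ (fun s => Real.cos (phi s)) := Real.contDiff_cos.comp contDiff_phi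
  unfold cloc
  exact (contDiff_cut.comp ((contDiff_const.mul ((h1.neg.sub contDiff_const).pow 2)).div_const _)).mul
    (contDiff_step.comp ((contDiff_const.mul h2).neg))

theorem cut_mem (u : ℝ) : cut u ∈ Icc (0 : ℝ) 1 :=
  ⟨Real.smoothTransition.nonneg _, Real.smoothTransition.le_one _⟩

theorem cloc_mem (g X s : ℝ) : cloc g X s ∈ Icc (0 : ℝ) 1 := by
  obtain ⟨h1, h2⟩ := cut_mem (64 * (-Real.sin (phi s) - X) ^ 2 / g ^ 2)
  obtain ⟨h3, h4⟩ := step_mem (-(4 * Real.cos (phi s)))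
  exact ⟨mul_nonneg h1 h3, mul_le_one₀ h2 h3 h4⟩

theorem cloc_end (g X : ℝ) {s : ℝ} (h : s ≤ 0 ∨ 1 ≤ s) : cloc g X s = 0 := by
  rw [cloc, cos_phi_end h, step_of_nonpos (by norm_num), mul_zero]

theorem cloc_front {g X s : ℝ} (h : 0 ≤ Real.cos (phi s)) : cloc g X s = 0 := by
  rw [cloc, step_of_nonpos (by linarith), mul_zero]

theorem cloc_far {g X s : ℝ} (hg : 0 < g) (h : g / 4 ≤ |-Real.sin (phi s) - X|) :
    cloc g X s = 0 := by
  rw [cloc, cut_of_ge, zero_mul]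
  rw [le_div_iff₀ (by positivity)]
  have h1 : (g / 4) ^ 2 ≤ (-Real.sin (phi s) - X) ^ 2 := by
    rw [← sq_abs (-Real.sin (phi s) - X)]
    exact pow_le_pow_left₀ (by positivity) h 2
  nlinarith

theorem cloc_near {g X s : ℝ} (hg : 0 < g) (h : |-Real.sin (phi s) - X| ≤ g / 8)
    (hc : Real.cos (phi s) ≤ -(1 / 4)) : cloc g X s = 1 := by
  rw [cloc, cut_of_le, step_of_one_le (by linarith), mul_one]
  rw [div_le_iff₀ (by positivity)]
  have h1 : (-Real.sin (phi s) - X) ^ 2 ≤ (g / 8) ^ 2 := by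
    rw [← sq_abs (-Real.sin (phi s) - X)]
    exact pow_le_pow_left₀ (abs_nonneg _) h 2
  nlinarith

/-- The two functions have disjoint supports. -/
theorem cloc_mul_cloc {g x1 x2 : ℝ} (hg : 0 < g) (h : g = |x1 - x2|) (s : ℝ) :
    cloc g x1 s = 0 ∨ cloc g x2 s = 0 := by
  by_contra hcon
  push Not at hcon
  have h1 : |-Real.sin (phi s) - x1| < g / 4 := by
    by_contra h'
    exact hcon.1 (cloc_far hg (not_lt.1 h'))
  have h2 : |-Real.sin (phi s) - x2| < g / 4 := by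
    by_contra h'
    exact hcon.2 (cloc_far hg (not_lt.1 h'))
  have h3 : x1 - x2 = (-Real.sin (phi s) - x2) - (-Real.sin (phi s) - x1) := by ring
  have h4 := abs_sub (-Real.sin (phi s) - x2) (-Real.sin (phi s) - x1)
  rw [← h3, ← h] at h4
  linarith

/-- When the first coordinate passes near a strand, either we are at the front or at the back. -/
theorem near_strand {g X s : ℝ} (hg : g ≤ 7 / 25) (hX : |X| ≤ 7 / 50)
    (h : |-Real.sin (phi s) - X| < g / 8) :
    (Real.cos (phi s) ≤ -(49 / 50) ∧ 99 / 100 ≤ chi s) ∨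
      (49 / 50 ≤ Real.cos (phi s) ∧ chi s ≤ 1 / 100) := by
  have h1 : |Real.sin (phi s)| ≤ 7 / 40 := by
    have h2 : Real.sin (phi s) = -((-Real.sin (phi s) - X) + X) := by ring
    rw [h2, abs_neg]
    have := abs_add_le (-Real.sin (phi s) - X) X
    linarith
  have h2 : Real.sin (phi s) ^ 2 ≤ (7 / 40) ^ 2 := by
    rw [← sq_abs]; exact pow_le_pow_left₀ (abs_nonneg _) h1 2
  have h3 := Real.sin_sq_add_cos_sq (phi s)
  have h4 : (49 / 50 : ℝ) ^ 2 ≤ Real.cos (phi s) ^ 2 := by norm_num at h2 ⊢; linarith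
  rcases le_total 0 (Real.cos (phi s)) with h5 | h5
  · right
    have h6 : (49 / 50 : ℝ) ≤ Real.cos (phi s) := by
      have := abs_le_abs_of_sq h4
      rwa [abs_of_nonneg h5, abs_of_nonneg (by norm_num)] at this
    exact ⟨h6, by rw [chi]; linarith⟩
  · left
    have h6 : (49 / 50 : ℝ) ≤ -Real.cos (phi s) := by
      have := abs_le_abs_of_sq h4
      rwa [abs_of_nonpos h5, abs_of_nonneg (by norm_num)] at this
    exact ⟨by linarith, by rw [chi]; linarith⟩
where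
  abs_le_abs_of_sq {a b : ℝ} (h : a ^ 2 ≤ b ^ 2) : |a| ≤ |b| := sq_le_sq.1 h

end Pool.Agent.Helper27.BI


end

/-! ## Helper27.BI.AddM -/

section

/-!
# Project BI, part (C): additivity in the model (the squares)
-/

set_option autoImplicit false
set_option linter.unusedSectionVars false
set_option linter.unusedVariables false

open scoped Manifold ContDiff Topology ComplexConjugate
open Set Pool.Agent.Helper65.Barb Pool.Agent.Helper18.BI

namespace Pool.Agent.Helper27.BI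

section
variable {ι : Type} {O : Set R4} {ρ : ℝ}

theorem SqOk.fixU {Γ : ι → ℝ → ℝ → ℝ → R3} (h : SqOk O ρ Γ) {u₀ : ℝ} (hu : u₀ ∈ Icc (0 : ℝ) 1) :
    SqOk O ρ (fun i _ q s => Γ i u₀ q s) where
  smooth i := (h.smooth i).comp (contDiff_const.prodMk contDiff_snd)
  ends i := by
    obtain ⟨b, hb⟩ := h.ends i
    exact ⟨b, fun _ q s hs => hb u₀ q s hs⟩
  inside i u _ q hq s hs x hx := h.inside i u₀ hu q hq s hs x hx
  sep i j hij u _ q hq s hs := h.sep i j hij u₀ hu q hq s hs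
  off i u _ q hq s hs x hx := h.off i u₀ hu q hq s hs x hx

theorem SqOk.fixQ {Γ : ι → ℝ → ℝ → ℝ → R3} (h : SqOk O ρ Γ) {q₀ : ℝ} (hu : q₀ ∈ Icc (0 : ℝ) 1) :
    SqOk O ρ (fun i _ u s => Γ i u q₀ s) where
  smooth i := (h.smooth i).comp
    ((contDiff_fst.comp contDiff_snd).prodMk (contDiff_const.prodMk (contDiff_snd.comp contDiff_snd)))
  ends i := by
    obtain ⟨b, hb⟩ := h.ends i
    exact ⟨b, fun _ q s hs => hb q q₀ s hs⟩
  inside i u _ q hq s hs x hx := h.inside i q hq q₀ hu s hs x hx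
  sep i j hij u _ q hq s hs := h.sep i j hij q hq q₀ hu s hs
  off i u _ q hq s hs x hx := h.off i q hq q₀ hu s hs x hx

theorem SqOk.mono {Γ : ι → ℝ → ℝ → ℝ → R3} (h : SqOk O ρ Γ) {O' : Set R4} (hO : O' ⊆ O) :
    SqOk O' ρ Γ where
  smooth := h.smooth
  ends := h.ends
  inside := h.inside
  sep := h.sep
  off i u hu q hq s hs x hx := h.off i u hu q hq s hs x (hO hx)

theorem TIso.congr {z0 z1 z0' z1' : ι → ℝ → R3} {φ ψ φ' ψ' : R4 → R4}
    (h : TIso O ρ z0 z1 φ ψ) (h0 : ∀ i s, z0 i s = z0' i s) (h1 : ∀ i s, z1 i s = z1' i s)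
    (hφ : ∀ x, φ x = φ' x) (hψ : ∀ x, ψ x = ψ' x) : TIso O ρ z0' z1' φ' ψ' := by
  obtain rfl : z0 = z0' := by funext i s; exact h0 i s
  obtain rfl : z1 = z1' := by funext i s; exact h1 i s
  obtain rfl : φ = φ' := by funext x; exact hφ x
  obtain rfl : ψ = ψ' := by funext x; exact hψ x
  exact h

end

/-! ### the squares -/

theorem sin_pi_nonneg {q : ℝ} (h : q ∈ Icc (0 : ℝ) 1) : 0 ≤ Real.sin (Real.pi * q) := by
  apply Real.sin_nonneg_of_nonneg_of_le_pi
  · exact mul_nonneg Real.pi_pos.le h.1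
  · nlinarith [Real.pi_pos, h.2]

section
variable {O : Set R4} {ρ : ℝ}

/-- opening up of the path of the barbell map -/
theorem sqOk_one (hρ : 0 < ρ) (hρ' : ρ ≤ 3 / 20)
    (hO : ∀ s x, (s, x) ∈ O → rsq 0 (s, x) ≤ (3 / 20) ^ 2) :
    SqOk O ρ (fun (_ : Unit) u q s =>
      zarc ((1 - u) * Real.sin (Real.pi * q) + u) (chi s) q s) := by
  have hA : ∀ u ∈ Icc (0 : ℝ) 1, ∀ q ∈ Icc (0 : ℝ) 1,
      (1 - u) * Real.sin (Real.pi * q) + u ∈ Icc (0 : ℝ) 1 := by
    rintro u ⟨hu0, hu1⟩ q hq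
    have h1 := sin_pi_nonneg hq
    have h2 := Real.sin_le_one (Real.pi * q)
    constructor <;> nlinarith
  refine sqOk_of_zarc hρ (hρ'.trans (by norm_num)) _ ?_ ?_ ?_ ?_
  · have hq : ContDiff ℝ ∞ (fun p : ℝ × ℝ × ℝ => p.2.1) := contDiff_fst.comp contDiff_snd
    have hs : ContDiff ℝ ∞ (fun p : ℝ × ℝ × ℝ => p.2.2) := contDiff_snd.comp contDiff_snd
    exact contDiff_zarc (((contDiff_const.sub contDiff_fst).mul
      (Real.contDiff_sin.comp (contDiff_const.mul hq))).add contDiff_fst)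
      (contDiff_chi.comp hs) hq hs
  · intro u q s hs
    exact zarc_end _ _ _ hs (chi_end hs)
  · intro u hu q hq s
    exact ⟨_, hA u hu q hq, _, chi_mem s, q, rfl⟩
  · intro u hu q hq s hs x hx
    refine off_rsq hρ hρ' (hO s x hx) ?_
    rw [nsq_zarc_chi]
    have h1 := sin_pi_nonneg hq
    have h2 := Real.sin_le_one (Real.pi * q)
    have h3 : Real.sin (Real.pi * q) ≤ (1 - u) * Real.sin (Real.pi * q) + u := by
      nlinarith [hu.1, hu.2]
    have h4 : Real.sin (Real.pi * q) ^ 2 ≤ ((1 - u) * Real.sin (Real.pi * q) + u) ^ 2 :=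
      pow_le_pow_left₀ h1 h3 2
    have h5 : 0 ≤ Real.sin (phi s) ^ 2 *
        (((1 - u) * Real.sin (Real.pi * q) + u) ^ 2 - Real.sin (Real.pi * q) ^ 2) :=
      mul_nonneg (sq_nonneg _) (by linarith)
    linarith

/-- the lifting of the second arc -/
theorem sqOk_lift (hρ : 0 < ρ) (hρ' : ρ ≤ 3 / 20)
    (hO : ∀ s x, (s, x) ∈ O → rsq 0 (s, x) ≤ (3 / 20) ^ 2) :
    SqOk O ρ (fun (_ : Unit) _ u s => zarc u 0 0 s) := by
  refine sqOk_of_zarc hρ (hρ'.trans (by norm_num)) _ ?_ ?_ ?_ ?_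
  · have hq : ContDiff ℝ ∞ (fun p : ℝ × ℝ × ℝ => p.2.1) := contDiff_fst.comp contDiff_snd
    have hs : ContDiff ℝ ∞ (fun p : ℝ × ℝ × ℝ => p.2.2) := contDiff_snd.comp contDiff_snd
    exact contDiff_zarc hq contDiff_const contDiff_const hs
  · intro u q s hs
    exact zarc_end _ _ _ hs rfl
  · intro u hu q hq s
    exact ⟨_, hq, 0, by simp, 0, rfl⟩
  · intro u hu q hq s hs x hx
    refine off_rsq hρ hρ' (hO s x hx) (le_trans ?_ (nsq_zarc_ge _ _ _ (by simp)))
    norm_num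

/-- the obstacle is near strands, which are passed at the front or at the back -/
def Near (O : Set R4) (ρ : ℝ) (P : ℝ → Prop) : Prop :=
  ∀ s x, (s, x) ∈ O → ∃ x₀ : R3, nsq x₀ < (7 / 50) ^ 2 ∧ nsq (x - x₀) ≤ ρ ^ 2 ∧
    (3 * ρ ≤ |-Real.sin (phi s) - x₀.2.re| ∨ P s)

/-- the change of speed -/
theorem sqOk_two (hρ : 0 < ρ) (hρ' : ρ ≤ 3 / 20) {c : ℝ → ℝ} (hc : ContDiff ℝ ∞ c)
    (hc01 : ∀ s, c s ∈ Icc (0 : ℝ) 1) (hce : ∀ s, (s ≤ 0 ∨ 1 ≤ s) → c s = 0)
    (hO : Near O ρ (fun s => (99 / 100 ≤ chi s ∧ c s = 1) ∨ (chi s ≤ 1 / 100 ∧ c s = 0))) :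
    SqOk O ρ (fun (_ : Unit) u q s => zarc 1 ((1 - u) * chi s + u * c s) q s) := by
  have hA : ∀ u ∈ Icc (0 : ℝ) 1, ∀ s, (1 - u) * chi s + u * c s ∈ Icc (0 : ℝ) 1 := by
    rintro u ⟨hu0, hu1⟩ s
    obtain ⟨h1, h2⟩ := hc01 s
    obtain ⟨h3, h4⟩ := chi_mem s
    constructor <;> nlinarith
  refine sqOk_of_zarc hρ (hρ'.trans (by norm_num)) _ ?_ ?_ ?_ ?_
  · have hq : ContDiff ℝ ∞ (fun p : ℝ × ℝ × ℝ => p.2.1) := contDiff_fst.comp contDiff_snd
    have hs : ContDiff ℝ ∞ (fun p : ℝ × ℝ × ℝ => p.2.2) := contDiff_snd.comp contDiff_snd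
    exact contDiff_zarc contDiff_const (((contDiff_const.sub contDiff_fst).mul
      (contDiff_chi.comp hs)).add (contDiff_fst.mul (hc.comp hs))) hq hs
  · intro u q s hs
    exact zarc_end _ _ _ hs (by rw [chi_end hs, hce s hs]; ring)
  · intro u hu q hq s
    exact ⟨1, by simp, _, hA u hu s, q, rfl⟩
  · intro u hu q hq s hs x hx
    obtain ⟨x₀, hx₀, hxx, h⟩ := hO s x hx
    refine off_ctube hρ hρ' hx₀ hxx ?_
    rcases h with h | h
    · left
      have e : (zarc 1 ((1 - u) * chi s + u * c s) q s).2.re = -Real.sin (phi s) := by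
        simp [zarc]
      rw [e]
      exact h
    · right
      refine le_trans ?_ (nsq_zarc_ge _ _ _ (hA u hu s))
      obtain ⟨h3, h4⟩ := chi_mem s
      have hcc : ((1 - u) * chi s + u * c s) * (1 - ((1 - u) * chi s + u * c s)) ≤ 1 / 100 := by
        have hm := hA u hu s
        rcases h with ⟨h1, h2⟩ | ⟨h1, h2⟩
        · have h5 : 1 - ((1 - u) * chi s + u * c s) ≤ 1 / 100 := by
            rw [h2]; nlinarith [hu.1, hu.2]
          have h6 : 0 ≤ 1 - ((1 - u) * chi s + u * c s) := by linarith [hm.2]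
          calc _ ≤ 1 * (1 - ((1 - u) * chi s + u * c s)) :=
                mul_le_mul_of_nonneg_right hm.2 h6
            _ ≤ 1 / 100 := by linarith
        · have h5 : (1 - u) * chi s + u * c s ≤ 1 / 100 := by
            rw [h2]; nlinarith [hu.1, hu.2]
          have h6 : 1 - ((1 - u) * chi s + u * c s) ≤ 1 := by linarith [hm.1]
          calc _ ≤ ((1 - u) * chi s + u * c s) * 1 :=
                mul_le_mul_of_nonneg_left h6 hm.1
            _ ≤ 1 / 100 := by linarith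
      norm_num
      nlinarith

/-- arcs with two speeds -/
noncomputable def zarc2 (c1 c2 q1 q2 s : ℝ) : R3 :=
  (1 + c1 * (Real.cos (2 * Real.pi * q1) - 1) + c2 * (Real.cos (2 * Real.pi * q2) - 1),
    ⟨-Real.sin (phi s), c1 * Real.sin (2 * Real.pi * q1) + c2 * Real.sin (2 * Real.pi * q2)⟩)

theorem zarc2_left (c2 q1 q2 s : ℝ) : zarc2 0 c2 q1 q2 s = zarc 1 c2 q2 s := by
  simp [zarc2, zarc]

theorem zarc2_right (c1 q1 q2 s : ℝ) : zarc2 c1 0 q1 q2 s = zarc 1 c1 q1 s := by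
  simp [zarc2, zarc]

theorem zarc2_same (c1 c2 q s : ℝ) : zarc2 c1 c2 q q s = zarc 1 (c1 + c2) q s := by
  refine Prod.ext ?_ (Complex.ext ?_ ?_)
  · simp only [zarc2, zarc]; ring
  · simp [zarc2, zarc]
  · simp only [zarc2, zarc]; ring

theorem zarc2_zero_right (c1 c2 q s : ℝ) : zarc2 c1 c2 q 0 s = zarc 1 c1 q s := by
  simp [zarc2, zarc]

theorem zarc2_one_left (c1 c2 q s : ℝ) : zarc2 c1 c2 1 q s = zarc 1 c2 q s := by
  simp [zarc2, zarc]

theorem zarc2_zero_zero (c1 c2 s : ℝ) : zarc2 c1 c2 0 0 s = zarc 1 0 0 s := by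
  simp [zarc2, zarc]

theorem contDiff_zarc2 {F : Type*} [NormedAddCommGroup F] [NormedSpace ℝ F]
    {c1 c2 q1 q2 s : F → ℝ} (hc1 : ContDiff ℝ ∞ c1) (hc2 : ContDiff ℝ ∞ c2)
    (hq1 : ContDiff ℝ ∞ q1) (hq2 : ContDiff ℝ ∞ q2) (hs : ContDiff ℝ ∞ s) :
    ContDiff ℝ ∞ (fun x => zarc2 (c1 x) (c2 x) (q1 x) (q2 x) (s x)) := by
  have hcos : ∀ {q : F → ℝ}, ContDiff ℝ ∞ q →
      ContDiff ℝ ∞ (fun x => Real.cos (2 * Real.pi * q x)) := fun h =>
    Real.contDiff_cos.comp (contDiff_const.mul h)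
  have hsin : ∀ {q : F → ℝ}, ContDiff ℝ ∞ q →
      ContDiff ℝ ∞ (fun x => Real.sin (2 * Real.pi * q x)) := fun h =>
    Real.contDiff_sin.comp (contDiff_const.mul h)
  have h5 : ContDiff ℝ ∞ (fun x => Real.sin (phi (s x))) :=
    Real.contDiff_sin.comp (contDiff_phi.comp hs)
  unfold zarc2
  apply ContDiff.prodMk
  · exact (contDiff_const.add (hc1.mul ((hcos hq1).sub contDiff_const))).add
      (hc2.mul ((hcos hq2).sub contDiff_const))
  · have : (fun x => (⟨-Real.sin (phi (s x)), c1 x * Real.sin (2 * Real.pi * q1 x) +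
          c2 x * Real.sin (2 * Real.pi * q2 x)⟩ : ℂ)) =
        fun x => ((-Real.sin (phi (s x)) : ℝ) : ℂ) +
          ((c1 x * Real.sin (2 * Real.pi * q1 x) +
          c2 x * Real.sin (2 * Real.pi * q2 x) : ℝ) : ℂ) * Complex.I := by
      funext x
      exact Complex.mk_eq_add_mul_I _ _
    rw [this]
    exact (Complex.ofRealCLM.contDiff.comp h5.neg).add
      ((Complex.ofRealCLM.contDiff.comp ((hc1.mul (hsin hq1)).add (hc2.mul (hsin hq2)))).mul
        contDiff_const)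

/-- the splitting of the motion -/
theorem sqOk_three (hρ : 0 < ρ) (hρ' : ρ ≤ 3 / 20) {c1 c2 : ℝ → ℝ} (hc1 : ContDiff ℝ ∞ c1)
    (hc2 : ContDiff ℝ ∞ c2) (hm1 : ∀ s, c1 s ∈ Icc (0 : ℝ) 1) (hm2 : ∀ s, c2 s ∈ Icc (0 : ℝ) 1)
    (he1 : ∀ s, (s ≤ 0 ∨ 1 ≤ s) → c1 s = 0) (he2 : ∀ s, (s ≤ 0 ∨ 1 ≤ s) → c2 s = 0)
    (h12 : ∀ s, c1 s = 0 ∨ c2 s = 0)
    (hO : Near O ρ (fun s => (c1 s = 0 ∨ c1 s = 1) ∧ (c2 s = 0 ∨ c2 s = 1))) :
    SqOk O ρ (fun (_ : Unit) u q s => zarc2 (c1 s) (c2 s) q (u * q) s) := by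
  refine sqOk_of_zarc hρ (hρ'.trans (by norm_num)) _ ?_ ?_ ?_ ?_
  · have hq : ContDiff ℝ ∞ (fun p : ℝ × ℝ × ℝ => p.2.1) := contDiff_fst.comp contDiff_snd
    have hs : ContDiff ℝ ∞ (fun p : ℝ × ℝ × ℝ => p.2.2) := contDiff_snd.comp contDiff_snd
    exact contDiff_zarc2 (hc1.comp hs) (hc2.comp hs) hq (contDiff_fst.mul hq) hs
  · intro u q s hs
    simp only [he1 s hs, zarc2_left]
    exact zarc_end _ _ _ hs (he2 s hs)
  · intro u hu q hq s
    rcases h12 s with h | h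
    · exact ⟨1, by simp, c2 s, hm2 s, u * q, by simp only [h, zarc2_left]⟩
    · exact ⟨1, by simp, c1 s, hm1 s, q, by simp only [h, zarc2_right]⟩
  · intro u hu q hq s hs x hx
    obtain ⟨x₀, hx₀, hxx, h⟩ := hO s x hx
    refine off_ctube hρ hρ' hx₀ hxx ?_
    rcases h with h | ⟨ha, hb⟩
    · left
      have e : (zarc2 (c1 s) (c2 s) q (u * q) s).2.re = -Real.sin (phi s) := by
        simp [zarc2]
      rw [e]
      exact h
    · right
      have key : ∀ c q', c = 0 ∨ c = 1 → (3 / 4 : ℝ) ^ 2 ≤ nsq (zarc 1 c q' s) := by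
        intro c q' hc
        refine le_trans ?_ (nsq_zarc_ge _ _ _ (by rcases hc with rfl | rfl <;> simp))
        rcases hc with rfl | rfl <;> norm_num
      rcases h12 s with h | h
      · simp only [h, zarc2_left]
        exact key _ _ hb
      · simp only [h, zarc2_right]
        exact key _ _ ha

end

end Pool.Agent.Helper27.BI


end

/-! ## Helper27.BI.AddMain -/

section

/-!
# Project BI, part (C): additivity in the model
-/

set_option autoImplicit false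
set_option linter.unusedSectionVars false
set_option linter.unusedVariables false

open scoped Manifold ContDiff Topology ComplexConjugate
open Set Pool.Agent.Helper65.Barb Pool.Agent.Helper18.BI

namespace Pool.Agent.Helper27.BI

/-- the lifted arc -/
noncomputable def lft : Unit → ℝ → R3 := fun _ s => zarc 1 0 0 s

section
variable {O : Set R4} {ρ : ℝ}

/-- change of speed, as an isotopy of pushes -/
theorem speed (hCh : StCh) (hρ : 0 < ρ) (hρ' : ρ ≤ 3 / 20) {c : ℝ → ℝ} (hc : ContDiff ℝ ∞ c)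
    (hc01 : ∀ s, c s ∈ Icc (0 : ℝ) 1) (hce : ∀ s, (s ≤ 0 ∨ 1 ≤ s) → c s = 0)
    (hO : Near O ρ (fun s => (99 / 100 ≤ chi s ∧ c s = 1) ∨ (chi s ≤ 1 / 100 ∧ c s = 0)))
    {ΘT Θc : R4 → R4} (hT : IsPush O ρ (fun (_ : Unit) q s => zarc 1 (chi s) q s) ΘT)
    (hΘ : IsPush O ρ (fun (_ : Unit) q s => zarc 1 (c s) q s) Θc) :
    TIso O ρ lft lft ΘT Θc := by
  have h := square hCh hρ (sqOk_two hρ hρ' hc hc01 hce hO) (Θ1 := ΘT) (Θ2 := fun x => x)
    (Θ3 := fun x => x) (Θ4 := Θc)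
    (hT.congr (by intro i q hq s; simp))
    ((IsPush.const lft).congr (by intro i q hq s; simp [lft, zarc_one, zarc_zero]))
    ((IsPush.const lft).congr (by intro i q hq s; simp [lft, zarc_zero]))
    (hΘ.congr (by intro i q hq s; simp))
  exact h.congr (by intro i s; simp [lft, zarc_zero]) (by intro i s; simp [lft, zarc_zero, zarc_one])
    (fun _ => rfl) (fun _ => rfl)

/-- the opening of the barbell path, as an isotopy of pushes -/
theorem opening (hCh : StCh) (hspin : StSpin) (hρ : 0 < ρ) (hρ' : ρ ≤ 3 / 20)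
    (hO : ∀ s x, (s, x) ∈ O → rsq 0 (s, x) ≤ (3 / 20) ^ 2)
    {ΘT ΘL : R4 → R4} (hT : IsPush O ρ (fun (_ : Unit) q s => zarc 1 (chi s) q s) ΘT)
    (hL : IsPush O ρ (fun (_ : Unit) u s => zarc u 0 0 s) ΘL) :
    TIso O ρ (fun _ _ => e1) lft (fun x => ΘL (barMap x)) (fun x => ΘT (ΘL x)) := by
  have hB : IsPush O ρ barPath barMap :=
    (isPush_barMap hspin).mono (fun p hp => (hO p.1 p.2 hp).trans (by norm_num)) hρ.le
      (hρ'.trans (by norm_num))
  have h := square hCh hρ (sqOk_one hρ hρ' hO) (Θ1 := barMap) (Θ2 := ΘL)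
    (Θ3 := ΘL) (Θ4 := ΘT)
    (hB.congr (by intro i q hq s; simp [barPath]))
    (hL.congr (by intro i q hq s; simp [zarc_one, zarc_zero]))
    (hL.congr (by intro i q hq s; simp [zarc_zero]))
    (hT.congr (by intro i q hq s; simp))
  exact h.congr (by intro i s; simp [e1, zarc_zero]; rfl)
    (by intro i s; simp [lft, zarc_zero, zarc_one]) (fun _ => rfl) (fun _ => rfl)

/-- the splitting, as an isotopy of pushes -/
theorem splitting (hCh : StCh) (hρ : 0 < ρ) (hρ' : ρ ≤ 3 / 20) {c1 c2 : ℝ → ℝ}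
    (hc1 : ContDiff ℝ ∞ c1) (hc2 : ContDiff ℝ ∞ c2) (hm1 : ∀ s, c1 s ∈ Icc (0 : ℝ) 1)
    (hm2 : ∀ s, c2 s ∈ Icc (0 : ℝ) 1) (he1 : ∀ s, (s ≤ 0 ∨ 1 ≤ s) → c1 s = 0)
    (he2 : ∀ s, (s ≤ 0 ∨ 1 ≤ s) → c2 s = 0) (h12 : ∀ s, c1 s = 0 ∨ c2 s = 0)
    (hO : Near O ρ (fun s => (c1 s = 0 ∨ c1 s = 1) ∧ (c2 s = 0 ∨ c2 s = 1)))
    {Θ1 Θ2 Θ12 : R4 → R4} (h1 : IsPush O ρ (fun (_ : Unit) q s => zarc 1 (c1 s) q s) Θ1)
    (h2 : IsPush O ρ (fun (_ : Unit) q s => zarc 1 (c2 s) q s) Θ2)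
    (h3 : IsPush O ρ (fun (_ : Unit) q s => zarc 1 (c1 s + c2 s) q s) Θ12) :
    TIso O ρ lft lft (fun x => Θ2 (Θ1 x)) Θ12 := by
  have h := square hCh hρ (sqOk_three hρ hρ' hc1 hc2 hm1 hm2 he1 he2 h12 hO) (Θ1 := Θ1)
    (Θ2 := Θ2) (Θ3 := fun x => x) (Θ4 := Θ12)
    (h1.congr (by intro i q hq s; simp [zarc2_zero_right]))
    (h2.congr (by intro i q hq s; simp [zarc2_one_left]))
    ((IsPush.const lft).congr (by intro i q hq s; simp [lft, zarc2_zero_zero]))
    (h3.congr (by intro i q hq s; simp [zarc2_same]))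
  exact h.congr (by intro i s; simp [lft, zarc2_zero_zero])
    (by intro i s; simp [lft, zarc2_same, zarc_zero, zarc_one]) (fun _ => rfl) (fun _ => rfl)

end

theorem m_ADDM (hCh : StCh) (hspin : StSpin) : StAddM := by
  intro x1 x2 hx1 hx2 hne g ρ hg hρg
  have hg0 : 0 < g := by rw [hg]; exact abs_pos.2 (sub_ne_zero.2 hne)
  have hX1 : |x1.2.re| ≤ 7 / 50 := abs_re_le (by norm_num) hx1.le
  have hX2 : |x2.2.re| ≤ 7 / 50 := abs_re_le (by norm_num) hx2.le
  have hg1 : g ≤ 7 / 25 := by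
    rw [hg]; have := abs_sub x1.2.re x2.2.re; linarith
  have hρ : 0 < ρ := by rw [hρg]; positivity
  have hρ1 : ρ ≤ 1 / 100 := by rw [hρg]; linarith
  have hρ' : ρ ≤ 3 / 20 := by linarith
  have hin : ∀ x₀ x : R3, nsq x₀ < (7 / 50) ^ 2 → nsq (x - x₀) ≤ ρ ^ 2 →
      ∀ s : ℝ, rsq 0 (s, x) ≤ (3 / 20) ^ 2 := by
    intro x₀ x h1 h2 s
    have h3 : nsq (x - x₀ + x₀) ≤ (ρ + 7 / 50) ^ 2 := nsq_add_le hρ.le (by norm_num) h2 h1.le
    rw [sub_add_cancel] at h3
    have h4 : rsq 0 (s, x) = nsq x := by simp [rsq]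
    rw [h4]
    nlinarith
  have hO : ∀ s x, (s, x) ∈ ctube x1 ρ ∪ ctube x2 ρ → rsq 0 (s, x) ≤ (3 / 20) ^ 2 := by
    rintro s x (h | h)
    · exact hin x1 x hx1 h s
    · exact hin x2 x hx2 h s
  -- the two speed functions
  set c1 : ℝ → ℝ := fun s => cloc g x1.2.re s with hc1
  set c2 : ℝ → ℝ := fun s => cloc g x2.2.re s with hc2
  have hs1 : ContDiff ℝ ∞ c1 := contDiff_cloc _ _
  have hs2 : ContDiff ℝ ∞ c2 := contDiff_cloc _ _
  have hm1 : ∀ s, c1 s ∈ Icc (0 : ℝ) 1 := cloc_mem _ _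
  have hm2 : ∀ s, c2 s ∈ Icc (0 : ℝ) 1 := cloc_mem _ _
  have he1 : ∀ s, (s ≤ 0 ∨ 1 ≤ s) → c1 s = 0 := fun s hs => cloc_end _ _ hs
  have he2 : ∀ s, (s ≤ 0 ∨ 1 ≤ s) → c2 s = 0 := fun s hs => cloc_end _ _ hs
  have h12 : ∀ s, c1 s = 0 ∨ c2 s = 0 := cloc_mul_cloc hg0 hg
  have hs12 : ContDiff ℝ ∞ (fun s => c1 s + c2 s) := hs1.add hs2
  have hm12 : ∀ s, c1 s + c2 s ∈ Icc (0 : ℝ) 1 := by
    intro s
    rcases h12 s with h | h
    · rw [h, zero_add]; exact hm2 s
    · rw [h, add_zero]; exact hm1 s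
  have he12 : ∀ s, (s ≤ 0 ∨ 1 ≤ s) → c1 s + c2 s = 0 := by
    intro s hs; rw [he1 s hs, he2 s hs, add_zero]
  -- behaviour near the strands
  have near : ∀ X : ℝ, |X| ≤ 7 / 50 → ∀ s, |-Real.sin (phi s) - X| < 3 * ρ →
      (99 / 100 ≤ chi s ∧ cloc g X s = 1) ∨
        (chi s ≤ 1 / 100 ∧ 0 ≤ Real.cos (phi s)) := by
    intro X hX s h
    have h' : |-Real.sin (phi s) - X| < g / 8 := by rw [hρg] at h; linarith
    rcases near_strand hg1 hX h' with ⟨ha, hb⟩ | ⟨ha, hb⟩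
    · exact Or.inl ⟨hb, cloc_near hg0 h'.le (by linarith)⟩
    · exact Or.inr ⟨hb, by linarith⟩
  have N1 : ∀ s, |-Real.sin (phi s) - x1.2.re| < 3 * ρ →
      (99 / 100 ≤ chi s ∧ c1 s = 1 ∧ c2 s = 0) ∨ (chi s ≤ 1 / 100 ∧ c1 s = 0 ∧ c2 s = 0) := by
    intro s h
    rcases near _ hX1 s h with ⟨ha, hb⟩ | ⟨ha, hb⟩
    · refine Or.inl ⟨ha, hb, (h12 s).resolve_left ?_⟩
      intro h0
      have : (1 : ℝ) = 0 := hb.symm.trans h0
      norm_num at this
    · exact Or.inr ⟨ha, cloc_front hb, cloc_front hb⟩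
  have N2 : ∀ s, |-Real.sin (phi s) - x2.2.re| < 3 * ρ →
      (99 / 100 ≤ chi s ∧ c1 s = 0 ∧ c2 s = 1) ∨ (chi s ≤ 1 / 100 ∧ c1 s = 0 ∧ c2 s = 0) := by
    intro s h
    rcases near _ hX2 s h with ⟨ha, hb⟩ | ⟨ha, hb⟩
    · refine Or.inl ⟨ha, (h12 s).resolve_right ?_, hb⟩
      intro h0
      have : (1 : ℝ) = 0 := hb.symm.trans h0
      norm_num at this
    · exact Or.inr ⟨ha, cloc_front hb, cloc_front hb⟩
  have near12 : ∀ P : ℝ → Prop,
      (∀ s, |-Real.sin (phi s) - x1.2.re| < 3 * ρ → P s) →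
      (∀ s, |-Real.sin (phi s) - x2.2.re| < 3 * ρ → P s) →
      Near (ctube x1 ρ ∪ ctube x2 ρ) ρ P := by
    rintro P h1 h2 s x (h | h)
    · refine ⟨x1, hx1, h, ?_⟩
      rcases le_or_gt (3 * ρ) |-Real.sin (phi s) - x1.2.re| with h' | h'
      · exact Or.inl h'
      · exact Or.inr (h1 s h')
    · refine ⟨x2, hx2, h, ?_⟩
      rcases le_or_gt (3 * ρ) |-Real.sin (phi s) - x2.2.re| with h' | h'
      · exact Or.inl h'
      · exact Or.inr (h2 s h')
  have nearx : ∀ x₀ : R3, nsq x₀ < (7 / 50) ^ 2 → ∀ P : ℝ → Prop,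
      (∀ s, |-Real.sin (phi s) - x₀.2.re| < 3 * ρ → P s) → Near (ctube x₀ ρ) ρ P := by
    intro x₀ hx₀ P h1 s x h
    refine ⟨x₀, hx₀, h, ?_⟩
    rcases le_or_gt (3 * ρ) |-Real.sin (phi s) - x₀.2.re| with h' | h'
    · exact Or.inl h'
    · exact Or.inr (h1 s h')
  have hN12 : Near (ctube x1 ρ ∪ ctube x2 ρ) ρ (fun s =>
      (99 / 100 ≤ chi s ∧ c1 s + c2 s = 1) ∨ (chi s ≤ 1 / 100 ∧ c1 s + c2 s = 0)) := by
    apply near12
    · intro s h
      rcases N1 s h with ⟨a, b, c⟩ | ⟨a, b, c⟩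
      · left; rw [b, c]; exact ⟨a, by norm_num⟩
      · right; rw [b, c]; exact ⟨a, by norm_num⟩
    · intro s h
      rcases N2 s h with ⟨a, b, c⟩ | ⟨a, b, c⟩
      · left; rw [b, c]; exact ⟨a, by norm_num⟩
      · right; rw [b, c]; exact ⟨a, by norm_num⟩
  have hN3 : Near (ctube x1 ρ ∪ ctube x2 ρ) ρ (fun s =>
      (c1 s = 0 ∨ c1 s = 1) ∧ (c2 s = 0 ∨ c2 s = 1)) := by
    apply near12
    · intro s h
      rcases N1 s h with ⟨a, b, c⟩ | ⟨a, b, c⟩
      · exact ⟨Or.inr b, Or.inl c⟩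
      · exact ⟨Or.inl b, Or.inl c⟩
    · intro s h
      rcases N2 s h with ⟨a, b, c⟩ | ⟨a, b, c⟩
      · exact ⟨Or.inl b, Or.inr c⟩
      · exact ⟨Or.inl b, Or.inl c⟩
  have hNx1 : Near (ctube x1 ρ) ρ (fun s =>
      (99 / 100 ≤ chi s ∧ c1 s = 1) ∨ (chi s ≤ 1 / 100 ∧ c1 s = 0)) := by
    apply nearx x1 hx1
    intro s h
    rcases N1 s h with ⟨a, b, c⟩ | ⟨a, b, c⟩
    · exact Or.inl ⟨a, b⟩
    · exact Or.inr ⟨a, b⟩
  have hNx2 : Near (ctube x2 ρ) ρ (fun s =>
      (99 / 100 ≤ chi s ∧ c2 s = 1) ∨ (chi s ≤ 1 / 100 ∧ c2 s = 0)) := by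
    apply nearx x2 hx2
    intro s h
    rcases N2 s h with ⟨a, b, c⟩ | ⟨a, b, c⟩
    · exact Or.inl ⟨a, c⟩
    · exact Or.inr ⟨a, c⟩
  -- the pushes
  have h01 : (0 : ℝ) ∈ Icc (0 : ℝ) 1 := by simp
  have h11 : (1 : ℝ) ∈ Icc (0 : ℝ) 1 := by simp
  have S3 := sqOk_three (O := ctube x1 ρ ∪ ctube x2 ρ) hρ hρ' hs1 hs2 hm1 hm2 he1 he2 h12 hN3
  obtain ⟨ΘL, hL, sL⟩ := exists_push hCh hρ (sqOk_lift hρ hρ' hO)
  obtain ⟨ΘT, hT', -⟩ := exists_push hCh hρ ((sqOk_one hρ hρ' hO).fixU h11)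
  obtain ⟨Θ1, hΘ1', sΘ1⟩ := exists_push hCh hρ (S3.fixU h01)
  obtain ⟨Θ2, hΘ2', sΘ2⟩ := exists_push hCh hρ (S3.fixQ h11)
  obtain ⟨Θ12, hΘ12', -⟩ := exists_push hCh hρ (S3.fixU h11)
  have hT : IsPush (ctube x1 ρ ∪ ctube x2 ρ) ρ (fun (_ : Unit) q s => zarc 1 (chi s) q s) ΘT :=
    hT'.congr (by intro i q hq s; simp)
  have hΘ1 : IsPush (ctube x1 ρ ∪ ctube x2 ρ) ρ (fun (_ : Unit) q s => zarc 1 (c1 s) q s) Θ1 :=
    hΘ1'.congr (by intro i q hq s; simp [zarc2_zero_right])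
  have hΘ2 : IsPush (ctube x1 ρ ∪ ctube x2 ρ) ρ (fun (_ : Unit) q s => zarc 1 (c2 s) q s) Θ2 :=
    hΘ2'.congr (by intro i q hq s; simp [zarc2_one_left])
  have hΘ12 : IsPush (ctube x1 ρ ∪ ctube x2 ρ) ρ
      (fun (_ : Unit) q s => zarc 1 (c1 s + c2 s) q s) Θ12 :=
    hΘ12'.congr (by intro i q hq s; simp [zarc2_same])
  -- the isotopies
  have IO := opening hCh hspin hρ hρ' hO hT hL
  have I12 := speed hCh hρ hρ' hs12 hm12 he12 hN12 hT hΘ12
  have I3 := splitting hCh hρ hρ' hs1 hs2 hm1 hm2 he1 he2 h12 hN3 hΘ1 hΘ2 hΘ12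
  have sub1 : ctube x1 ρ ⊆ ctube x1 ρ ∪ ctube x2 ρ := subset_union_left
  have sub2 : ctube x2 ρ ⊆ ctube x1 ρ ∪ ctube x2 ρ := subset_union_right
  have I1 := speed hCh hρ hρ' hs1 hm1 he1 hNx1 (hT.mono sub1 hρ.le le_rfl)
    (hΘ1.mono sub1 hρ.le le_rfl)
  have I2 := speed hCh hρ hρ' hs2 hm2 he2 hNx2 (hT.mono sub2 hρ.le le_rfl)
    (hΘ2.mono sub2 hρ.le le_rfl)
  have tL : TIso (ctube x1 ρ ∪ ctube x2 ρ) ρ (fun (_ : Unit) _ => e1) lft ΘL ΘL :=
    hL.tIso.congr (by intro i s; simp [zarc_zero, e1]; rfl) (by intro i s; simp [lft])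
      (fun _ => rfl) (fun _ => rfl)
  obtain ⟨ΘL', tL', hLL', hL'L⟩ := tL.exists_inv
  have tΘ : ∀ {c : ℝ → ℝ} {Θ : R4 → R4}, IsPush (ctube x1 ρ ∪ ctube x2 ρ) ρ
      (fun (_ : Unit) q s => zarc 1 (c s) q s) Θ →
      TIso (ctube x1 ρ ∪ ctube x2 ρ) ρ lft lft Θ Θ := by
    intro c Θ h
    exact h.tIso.congr (by intro i s; simp [lft, zarc_zero])
      (by intro i s; simp [lft, zarc_zero, zarc_one]) (fun _ => rfl) (fun _ => rfl)
  -- the conjugate of a map by the lifting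
  have hbar : TIso (ctube x1 ρ ∪ ctube x2 ρ) ρ (fun (_ : Unit) _ => e1) (fun _ _ => e1)
      barMap (fun x => ΘL' (ΘT (ΘL x))) :=
    (tL'.comp IO).congr (fun _ _ => rfl) (fun _ _ => rfl) (fun x => hL'L _) (fun _ => rfl)
  have b1 : TIso (ctube x1 ρ ∪ ctube x2 ρ) ρ (fun (_ : Unit) _ => e1) (fun _ _ => e1)
      (fun x => ΘL' (Θ1 (ΘL x))) (fun x => ΘL' (Θ1 (ΘL x))) := tL'.comp ((tΘ hΘ1).comp tL)
  have b2 : TIso (ctube x1 ρ ∪ ctube x2 ρ) ρ (fun (_ : Unit) _ => e1) (fun _ _ => e1)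
      (fun x => ΘL' (Θ2 (ΘL x))) (fun x => ΘL' (Θ2 (ΘL x))) := tL'.comp ((tΘ hΘ2).comp tL)
  -- supports
  have supL : ∀ s a w, (2 * ρ) ^ 2 ≤ (a - 1) ^ 2 + w.im ^ 2 → ΘL (s, (a, w)) = (s, (a, w)) := by
    intro s a w h
    apply sL
    rintro ⟨⟩ q hq
    rw [zarc_zero]
    unfold nsq
    simp only [Prod.fst_sub, Prod.snd_sub, Complex.sub_re, Complex.sub_im, sub_zero]
    nlinarith [sq_nonneg (w.re - -q * Real.sin (phi s))]
  have supL' : ∀ s a w, (2 * ρ) ^ 2 ≤ (a - 1) ^ 2 + w.im ^ 2 →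
      ΘL' (s, (a, w)) = (s, (a, w)) := by
    intro s a w h
    have := hL'L (s, (a, w))
    rwa [supL s a w h] at this
  have supk : ∀ (X : ℝ) (s q a : ℝ) (w : ℂ), (2 * ρ) ^ 2 ≤ (a - 1) ^ 2 + w.im ^ 2 →
      g / 4 + 2 * ρ ≤ |w.re - X| →
      (2 * ρ) ^ 2 ≤ nsq ((a, w) - zarc 1 (cloc g X s) q s) := by
    intro X s q a w h1 h2
    by_cases h0 : cloc g X s = 0
    · rw [h0]
      have e : zarc 1 0 q s = (1, ⟨-Real.sin (phi s), 0⟩) := by simp [zarc]
      rw [e]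
      unfold nsq
      simp only [Prod.fst_sub, Prod.snd_sub, Complex.sub_re, Complex.sub_im, sub_zero]
      nlinarith [sq_nonneg (w.re - -Real.sin (phi s))]
    · have h3 : |-Real.sin (phi s) - X| < g / 4 := by
        by_contra h'
        exact h0 (cloc_far hg0 (not_lt.1 h'))
      have h4 : 2 * ρ ≤ |w.re - -Real.sin (phi s)| := by
        have e : w.re - X = (w.re - -Real.sin (phi s)) + (-Real.sin (phi s) - X) := by ring
        rw [e] at h2
        have := abs_add_le (w.re - -Real.sin (phi s)) (-Real.sin (phi s) - X)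
        linarith
      have h5 : (2 * ρ) ^ 2 ≤ (w.re - -Real.sin (phi s)) ^ 2 := by
        rw [← sq_abs (w.re - -Real.sin (phi s))]
        exact pow_le_pow_left₀ (by positivity) h4 2
      have e : ((a, w) - zarc 1 (cloc g X s) q s : R3).2.re = w.re - -Real.sin (phi s) := by
        simp [zarc]
      have := re_sq_le ((a, w) - zarc 1 (cloc g X s) q s)
      rw [e] at this
      linarith
  refine ⟨fun x => ΘL' (Θ1 (ΘL x)), fun x => ΘL' (Θ2 (ΘL x)), ?_, b1, b2, ?_, ?_, ?_, ?_⟩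
  · have k1 : TIso (ctube x1 ρ ∪ ctube x2 ρ) ρ lft lft ΘT (fun x => Θ2 (Θ1 x)) :=
      I12.trans I3.symm
    have k2 := tL'.comp (k1.comp tL)
    exact (hbar.trans k2).congr (fun _ _ => rfl) (fun _ _ => rfl) (fun _ => rfl)
      (fun x => by simp only [hLL'])
  · have k := (tL'.mono sub1 hρ.le le_rfl).comp (I1.comp (tL.mono sub1 hρ.le le_rfl))
    exact ((hbar.mono sub1 hρ.le le_rfl).trans k).symm
  · have k := (tL'.mono sub2 hρ.le le_rfl).comp (I2.comp (tL.mono sub2 hρ.le le_rfl))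
    exact ((hbar.mono sub2 hρ.le le_rfl).trans k).symm
  · intro s a w h1 h2
    have e : Θ1 (s, (a, w)) = (s, (a, w)) := by
      apply sΘ1
      rintro ⟨⟩ q hq
      rw [zero_mul, zarc2_zero_right]
      exact supk _ s q a w h1 h2
    simp only [supL s a w h1, e, supL' s a w h1]
  · intro s a w h1 h2
    have e : Θ2 (s, (a, w)) = (s, (a, w)) := by
      apply sΘ2
      rintro ⟨⟩ q hq
      rw [mul_one, zarc2_one_left]
      exact supk _ s q a w h1 h2
    simp only [supL s a w h1, e, supL' s a w h1]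

end Pool.Agent.Helper27.BI


end

/-! ## Helper27.BI.Refl -/

section

/-!
# Project BI, part (C): vanishing, reflections, exchange of the arcs
-/

set_option autoImplicit false
set_option linter.unusedSectionVars false
set_option linter.unusedVariables false

open scoped Manifold ContDiff Topology ComplexConjugate
open Set Pool.Agent.Helper65.Barb Pool.Agent.Helper18.BI

namespace Pool.Agent.Helper27.BI

/-! ### vanishing -/

theorem sqOk_van : SqOk ∅ (1 / 5) (fun (_ : Unit) u q s =>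
    zarc ((1 - u) * Real.sin (Real.pi * q)) ((1 - u) * chi s) q s) := by
  refine sqOk_of_zarc (by norm_num) le_rfl _ ?_ ?_ ?_ ?_
  · have hq : ContDiff ℝ ∞ (fun p : ℝ × ℝ × ℝ => p.2.1) := contDiff_fst.comp contDiff_snd
    have hs : ContDiff ℝ ∞ (fun p : ℝ × ℝ × ℝ => p.2.2) := contDiff_snd.comp contDiff_snd
    exact contDiff_zarc ((contDiff_const.sub contDiff_fst).mul
      (Real.contDiff_sin.comp (contDiff_const.mul hq)))
      ((contDiff_const.sub contDiff_fst).mul (contDiff_chi.comp hs)) hq hs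
  · intro u q s hs
    exact zarc_end _ _ _ hs (by rw [chi_end hs]; ring)
  · intro u hu q hq s
    have h1 := sin_pi_nonneg hq
    have h2 := Real.sin_le_one (Real.pi * q)
    obtain ⟨h3, h4⟩ := chi_mem s
    exact ⟨_, ⟨mul_nonneg (by linarith [hu.2]) h1, by nlinarith [hu.1, hu.2]⟩, _,
      ⟨mul_nonneg (by linarith [hu.2]) h3, by nlinarith [hu.1, hu.2]⟩, q, rfl⟩
  · intro u hu q hq s hs x hx
    exact absurd hx (notMem_empty _)

theorem zarc_zero_zero (q s : ℝ) : zarc 0 0 q s = e1 := by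
  simp [zarc, e1]; rfl

theorem m_VAN (hCh : StCh) (hspin : StSpin) : StVan := by
  have hB : IsPush ∅ (1 / 5) barPath barMap :=
    (isPush_barMap hspin).mono (empty_subset _) (by norm_num) le_rfl
  have h := square hCh (by norm_num) sqOk_van (Θ1 := barMap) (Θ2 := fun x => x)
    (Θ3 := fun x => x) (Θ4 := fun x => x)
    (hB.congr (by intro i q hq s; simp [barPath]))
    ((IsPush.const (fun _ _ => e1)).congr (by
      intro i q hq s; simp [zarc_one, e1]; rfl))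
    ((IsPush.const (fun _ _ => e1)).congr (by
      intro i q hq s; simp [zarc_zero, e1]; rfl))
    ((IsPush.const (fun _ _ => e1)).congr (by
      intro i q hq s; simp [zarc_zero_zero]))
  exact h.congr (by intro i s; simp [zarc_zero, e1]; rfl)
    (by intro i s; simp [zarc_zero_zero]) (fun _ => rfl) (fun _ => rfl)

/-! ### two tubes -/

/-- a path of the second arc, the first arc being at rest -/
noncomputable def pair (γ : ℝ → ℝ → R3) : Bool → ℝ → ℝ → R3 :=
  fun b q s => if b then γ q s else 0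

@[simp] theorem pair_true (γ : ℝ → ℝ → R3) (q s : ℝ) : pair γ true q s = γ q s := rfl
@[simp] theorem pair_false (γ : ℝ → ℝ → R3) (q s : ℝ) : pair γ false q s = 0 := rfl

theorem isPush_pair (hspin : StSpin) :
    IsPush ∅ (1 / 5) (pair (fun q s => barPath () q s)) barMap := by
  refine ⟨bfam, bfam_zero, fun _ => rfl, ⟨tsupp 0 2, isCompact_tsupp 0 2,
    tsupp_subset_interior, fun t p hp => bfam_support t p hp⟩, fun t _ x hx =>
    absurd hx (notMem_empty _), ?_⟩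
  rintro t ht (_ | _) s y hy
  · rw [pair_false, pair_false, zero_add]
    apply bfam_near_zero t
    have : rsq 0 (s, y) = nsq y := by simp [rsq]
    rwa [this]
  · rw [pair_true, pair_true, barPath_zero]
    have e := bfam_near_one t s y hy
    rw [hspin] at e
    exact e

theorem nsq_zero : nsq (0 : R3) = 0 := by simp [nsq]

/-- Admissibility of a square of second arcs, the first arc being at rest. -/
theorem sqOk_pair (Γ : ℝ → ℝ → ℝ → R3)
    (hs : ContDiff ℝ ∞ (fun p : ℝ × ℝ × ℝ => Γ p.1 p.2.1 p.2.2))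
    (he : ∀ u q s : ℝ, (s ≤ 0 ∨ 1 ≤ s) → Γ u q s = e1)
    (hz : ∀ u ∈ Icc (0 : ℝ) 1, ∀ q ∈ Icc (0 : ℝ) 1, ∀ s,
      (4 / 5) ^ 2 ≤ nsq (Γ u q s) ∧ nsq (Γ u q s) ≤ (3 / 2) ^ 2) :
    SqOk ∅ (1 / 5) (fun b u q s => pair (Γ u) b q s) := by
  refine ⟨?_, ?_, ?_, ?_, fun i u hu q hq s hs x hx => absurd hx (notMem_empty _)⟩
  · rintro (_ | _)
    · exact contDiff_const
    · exact hs
  · rintro (_ | _)
    · exact ⟨0, fun u q s h => rfl⟩
    · exact ⟨e1, he⟩
  · rintro (_ | _) u hu q hq s hs' x hx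
    · simp only [pair_false, sub_zero] at hx
      exact lt_of_le_of_lt hx (by norm_num)
    · simp only [pair_true] at hx
      have h1 : nsq (x - Γ u q s + Γ u q s) ≤ (2 * (1 / 5) + 3 / 2) ^ 2 :=
        nsq_add_le (by norm_num) (by norm_num) hx (hz u hu q hq s).2
      rw [sub_add_cancel] at h1
      exact lt_of_le_of_lt h1 (by norm_num)
  · have key : ∀ u ∈ Icc (0 : ℝ) 1, ∀ q ∈ Icc (0 : ℝ) 1, ∀ s,
        (4 * (1 / 5) : ℝ) ^ 2 ≤ nsq (Γ u q s) := fun u hu q hq s =>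
      le_trans (by norm_num) (hz u hu q hq s).1
    rintro (_ | _) (_ | _) hij u hu q hq s hs'
    · exact absurd rfl hij
    · simp only [pair_true, pair_false, zero_sub, nsq_neg]
      exact key u hu q hq s
    · simp only [pair_true, pair_false, sub_zero]
      exact key u hu q hq s
    · exact absurd rfl hij

/-- rotation about the axis `w = 0` -/
noncomputable def rotw (θ : ℝ) (x : R3) : R3 := (x.1, Complex.exp (θ * Complex.I) * x.2)

theorem nsq_rotw (θ : ℝ) (x : R3) : nsq (rotw θ x) = nsq x := by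
  have h : ∀ z : ℂ, z.re ^ 2 + z.im ^ 2 = Complex.normSq z := fun z => by
    rw [Complex.normSq_apply]; ring
  have h2 : Complex.normSq (Complex.exp (θ * Complex.I)) = 1 := by
    rw [Complex.normSq_eq_norm_sq, Complex.norm_exp_ofReal_mul_I, one_pow]
  simp only [nsq, rotw, add_assoc, h, map_mul, h2, one_mul]

theorem rotw_zero (x : R3) : rotw 0 x = x := by simp [rotw]

theorem rotw_pi (x : R3) : rotw Real.pi x = (x.1, -x.2) := by
  simp [rotw, Complex.exp_pi_mul_I]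

theorem rotw_e1 (θ : ℝ) : rotw θ e1 = e1 := by simp [rotw, e1]

theorem contDiff_rotw {F : Type*} [NormedAddCommGroup F] [NormedSpace ℝ F] {θ : F → ℝ}
    {x : F → R3} (hθ : ContDiff ℝ ∞ θ) (hx : ContDiff ℝ ∞ x) :
    ContDiff ℝ ∞ (fun y => rotw (θ y) (x y)) := by
  have h1 : ContDiff ℝ ∞ (fun z : ℂ => Complex.exp z) :=
    Complex.contDiff_exp
  exact (contDiff_fst.comp hx).prodMk
    ((h1.comp ((Complex.ofRealCLM.contDiff.comp hθ).mul contDiff_const)).mul
      (contDiff_snd.comp hx))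

/-- the reversed path of the barbell map -/
noncomputable def revPath (q s : ℝ) : R3 := barPath () (1 - q) s

/-- the mirror image of the path of the barbell map -/
noncomputable def mirPath (q s : ℝ) : R3 := zarc (-Real.sin (Real.pi * q)) (chi s) q s

theorem revPath_eq (q s : ℝ) :
    revPath q s = (1 + chi s * (Real.cos (2 * Real.pi * q) - 1),
      ⟨-Real.sin (Real.pi * q) * Real.sin (phi s), -(chi s * Real.sin (2 * Real.pi * q))⟩) := by
  have h1 : Real.sin (Real.pi * (1 - q)) = Real.sin (Real.pi * q) := by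
    rw [show Real.pi * (1 - q) = Real.pi - Real.pi * q by ring, Real.sin_pi_sub]
  have h2 : Real.cos (2 * Real.pi * (1 - q)) = Real.cos (2 * Real.pi * q) := by
    rw [show 2 * Real.pi * (1 - q) = 2 * Real.pi - 2 * Real.pi * q by ring,
      Real.cos_two_pi_sub]
  have h3 : Real.sin (2 * Real.pi * (1 - q)) = -Real.sin (2 * Real.pi * q) := by
    rw [show 2 * Real.pi * (1 - q) = 2 * Real.pi - 2 * Real.pi * q by ring,
      Real.sin_two_pi_sub]
  simp only [revPath, barPath, zarc, h1, h2, h3, mul_neg]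

theorem mirPath_eq (q s : ℝ) : mirPath q s = rotw Real.pi (revPath q s) := by
  rw [rotw_pi, revPath_eq, mirPath, zarc]
  refine Prod.ext rfl (Complex.ext ?_ ?_)
  · simp
  · simp

theorem nsq_revPath (q s : ℝ) : nsq (revPath q s) = 1 := by
  rw [revPath, barPath, nsq_zarc_chi]; ring

theorem contDiff_revPath {F : Type*} [NormedAddCommGroup F] [NormedSpace ℝ F] {q s : F → ℝ}
    (hq : ContDiff ℝ ∞ q) (hs : ContDiff ℝ ∞ s) :
    ContDiff ℝ ∞ (fun x => revPath (q x) (s x)) :=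
  contDiff_zarc (Real.contDiff_sin.comp (contDiff_const.mul (contDiff_const.sub hq)))
    (contDiff_chi.comp hs) (contDiff_const.sub hq) hs

theorem revPath_end (q : ℝ) {s : ℝ} (hs : s ≤ 0 ∨ 1 ≤ s) : revPath q s = e1 :=
  zarc_end _ _ _ hs (chi_end hs)

theorem revPath_zero (s : ℝ) : revPath 0 s = e1 := by
  rw [revPath, sub_zero, barPath_one]

theorem revPath_one (s : ℝ) : revPath 1 s = e1 := by
  rw [revPath, sub_self, barPath_zero]

/-- rotation of the mirror path to the reversed path -/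
theorem mir (hCh : StCh) (hspin : StSpin) {Θ : R4 → R4}
    (hΘ : IsPush ∅ (1 / 5) (pair mirPath) Θ) : TIso ∅ (1 / 5) arc2 arc2 Θ barInv := by
  have hinv : IsPush ∅ (1 / 5) (pair revPath) barInv := by
    have h := (isPush_pair hspin).reverse (Θ' := barInv) (fun x => bfam.fg 1 x)
    exact h.congr (by rintro (_ | _) q hq s <;> rfl)
  have hsq : SqOk ∅ (1 / 5)
      (fun b u q s => pair (fun q s => rotw (Real.pi * (1 - u)) (revPath q s)) b q s) := by
    refine sqOk_pair _ ?_ ?_ ?_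
    · have hq : ContDiff ℝ ∞ (fun p : ℝ × ℝ × ℝ => p.2.1) := contDiff_fst.comp contDiff_snd
      have hs : ContDiff ℝ ∞ (fun p : ℝ × ℝ × ℝ => p.2.2) := contDiff_snd.comp contDiff_snd
      exact contDiff_rotw (contDiff_const.mul (contDiff_const.sub contDiff_fst))
        (contDiff_revPath hq hs)
    · intro u q s hs
      rw [revPath_end q hs, rotw_e1]
    · intro u hu q hq s
      rw [nsq_rotw, nsq_revPath]
      norm_num
  have h := square hCh (by norm_num) hsq (Θ1 := Θ) (Θ2 := fun x => x)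
    (Θ3 := fun x => x) (Θ4 := barInv)
    (hΘ.congr (by rintro (_ | _) q hq s <;> simp [mirPath_eq]))
    ((IsPush.const arc2).congr (by
      rintro (_ | _) q hq s <;> simp [arc2, revPath_one, rotw_e1]))
    ((IsPush.const arc2).congr (by
      rintro (_ | _) q hq s <;> simp [arc2, revPath_zero, rotw_e1]))
    (hinv.congr (by rintro (_ | _) q hq s <;> simp [rotw_zero]))
  exact h.congr (by rintro (_ | _) s <;> simp [arc2, revPath_zero, rotw_e1])
    (by rintro (_ | _) s <;> simp [arc2, revPath_one, rotw_zero])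
    (fun _ => rfl) (fun _ => rfl)

end Pool.Agent.Helper27.BI


end

/-! ## Helper27.BI.Refl2 -/

section

/-!
# Project BI, part (C): reflections, exchange of the arcs
-/

set_option autoImplicit false
set_option linter.unusedSectionVars false
set_option linter.unusedVariables false

open scoped Manifold ContDiff Topology ComplexConjugate
open Set Pool.Agent.Helper65.Barb Pool.Agent.Helper18.BI

namespace Pool.Agent.Helper27.BI

/-- a smooth involution of `R4` -/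
structure Invol (R : R4 → R4) : Prop where
  smooth : ContDiff ℝ ∞ R
  inv : ∀ x, R (R x) = x

/-- conjugation of a family by an involution -/
noncomputable def conjFam (R : R4 → R4) (hR : Invol R) (F : DFam 𝓘(ℝ, R4) R4) :
    DFam 𝓘(ℝ, R4) R4 where
  f p := R (F.f (p.1, R p.2))
  g p := R (F.g (p.1, R p.2))
  smooth_f := by
    have h1 : ContMDiff 𝓘(ℝ, R4) 𝓘(ℝ, R4) ∞ R := hR.smooth.contMDiff
    exact h1.comp (F.smooth_f.comp (contMDiff_fst.prodMk (h1.comp contMDiff_snd)))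
  smooth_g := by
    have h1 : ContMDiff 𝓘(ℝ, R4) 𝓘(ℝ, R4) ∞ R := hR.smooth.contMDiff
    exact h1.comp (F.smooth_g.comp (contMDiff_fst.prodMk (h1.comp contMDiff_snd)))
  fg t x := by simp only [hR.inv, F.fg]
  gf t x := by simp only [hR.inv, F.gf]

theorem conjFam_f (R : R4 → R4) (hR : Invol R) (F : DFam 𝓘(ℝ, R4) R4) (t : ℝ) (x : R4) :
    (conjFam R hR F).f (t, x) = R (F.f (t, R x)) := rfl

/-- an involution of product form -/
structure LInvol (R : R4 → R4) (σ : ℝ → ℝ) (r r0 : R3 → R3) : Prop extends Invol R where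
  prod : ∀ s x, R (s, x) = (σ s, r x)
  add : ∀ x y, r (x + y) = r x + r0 y
  sinv : ∀ s, σ (σ s) = s
  rinv : ∀ y, r0 (r0 y) = y
  rnsq : ∀ y, nsq (r0 y) = nsq y

/-- Conjugation of a push. -/
theorem conj_push {ι : Type} {ρ : ℝ} {γ : ι → ℝ → ℝ → R3} {R : R4 → R4} {σ : ℝ → ℝ}
    {r r0 : R3 → R3} (hR : LInvol R σ r r0) {F : DFam 𝓘(ℝ, R4) R4} {K : Set R4}
    (hK : IsCompact K) (hKR : R '' K ⊆ interior ball4) (hs : ∀ t x, x ∉ K → F.f (t, x) = x)
    (h0 : ∀ x, F.f (0, x) = x)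
    (ht : ∀ t ∈ Icc (0 : ℝ) 1, ∀ i s y, nsq y ≤ ρ ^ 2 →
      F.f (t, (s, γ i 0 s + y)) = (s, γ i (step t) s + y)) :
    IsPush ∅ ρ (fun i q s => r (γ i q (σ s))) (fun x => R (F.f (1, R x))) := by
  refine ⟨conjFam R hR.toInvol F, fun x => ?_, fun x => rfl, ⟨R '' K,
    hK.image hR.smooth.continuous, hKR, fun t x hx => ?_⟩,
    fun t _ x hx => absurd hx (notMem_empty _), fun t ht' i s y hy => ?_⟩
  · rw [conjFam_f, h0, hR.inv]
  · rw [conjFam_f, hs, hR.inv]
    intro hx'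
    exact hx ⟨R x, hx', hR.inv x⟩
  · rw [conjFam_f]
    change R (F.f (t, R (s, r (γ i 0 (σ s)) + y))) = (s, r (γ i (step t) (σ s)) + y)
    have e : r (r (γ i 0 (σ s))) = γ i 0 (σ s) := by
      have := hR.inv (σ s, γ i 0 (σ s))
      rw [hR.prod, hR.prod] at this
      exact (Prod.ext_iff.1 this).2
    have e2 : R (s, r (γ i 0 (σ s)) + y) = (σ s, γ i 0 (σ s) + r0 y) := by
      rw [hR.prod, hR.add, e]
    rw [e2, ht t ht' i (σ s) (r0 y) (by rw [hR.rnsq]; exact hy), hR.prod, hR.add, hR.rinv,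
      hR.sinv]

theorem linvol_refh : LInvol refh (fun s => s) (fun x => (x.1, conj x.2))
    (fun x => (x.1, conj x.2)) where
  smooth := contDiff_fst.prodMk ((contDiff_fst.comp contDiff_snd).prodMk
    (contDiff_conj.comp (contDiff_snd.comp contDiff_snd)))
  inv x := by simp [refh]
  prod s x := rfl
  add x y := by simp
  sinv s := rfl
  rinv y := by simp
  rnsq y := by simp [nsq]

theorem linvol_refs : LInvol refs (fun s => 1 - s) (fun x => x) (fun x => x) where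
  smooth := (contDiff_const.sub contDiff_fst).prodMk ((contDiff_fst.comp contDiff_snd).prodMk
    (contDiff_snd.comp contDiff_snd))
  inv x := by simp [refs]
  prod s x := rfl
  add x y := rfl
  sinv s := by ring
  rinv y := rfl
  rnsq y := rfl

theorem linvol_swp : LInvol swp (fun s => s) (fun x => (1 - x.1, conj x.2))
    (fun x => (-x.1, conj x.2)) where
  smooth := contDiff_fst.prodMk ((contDiff_const.sub (contDiff_fst.comp contDiff_snd)).prodMk
    (contDiff_conj.comp (contDiff_snd.comp contDiff_snd)))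
  inv x := by simp [swp]
  prod s x := rfl
  add x y := by
    refine Prod.ext ?_ ?_
    · simp only [Prod.fst_add]; ring
    · simp
  sinv s := rfl
  rinv y := by simp
  rnsq y := by simp [nsq]

theorem mem_interior_ball4 {p : R4} (h1 : -1 < p.1) (h2 : p.1 < 2)
    (h3 : nsq p.2 < (9 / 2) ^ 2) : p ∈ interior ball4 := by
  have hr : ∀ q : R4, rsq 0 q = nsq q.2 := fun q => by simp [rsq]
  have hopen : IsOpen {q : R4 | -1 < q.1 ∧ q.1 < 2 ∧ rsq 0 q < (9 / 2) ^ 2} := by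
    apply IsOpen.inter (isOpen_lt continuous_const continuous_fst)
    apply IsOpen.inter (isOpen_lt continuous_fst continuous_const)
    exact isOpen_lt (continuous_rsq 0) continuous_const
  refine interior_maximal ?_ hopen ⟨h1, h2, by rw [hr]; exact h3⟩
  rintro q ⟨h1, h2, h3⟩
  exact ⟨h1.le, h2.le, h3.le⟩

theorem of_mem_interior_ball4 {p : R4} (h : p ∈ interior ball4) : -1 < p.1 ∧ p.1 < 2 := by
  have h1 : ball4 ⊆ Prod.fst ⁻¹' (Icc (-1 : ℝ) 2) := fun q hq => ⟨hq.1, hq.2.1⟩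
  have h2 := interior_mono h1 h
  have h3 : interior ((Prod.fst : R4 → ℝ) ⁻¹' (Icc (-1 : ℝ) 2)) = Prod.fst ⁻¹' (Ioo (-1 : ℝ) 2) := by
    rw [← isOpenMap_fst.preimage_interior_eq_interior_preimage continuous_fst, interior_Icc]
  rw [h3] at h2
  exact h2

theorem image_interior {R : R4 → R4} (hR : Invol R) (hb : ∀ p ∈ ball4, R p ∈ ball4) :
    R '' interior ball4 ⊆ interior ball4 := by
  have e : R '' interior ball4 = R ⁻¹' interior ball4 := by
    ext x
    constructor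
    · rintro ⟨y, hy, rfl⟩
      rw [mem_preimage, hR.inv]
      exact hy
    · intro hx
      exact ⟨R x, hx, hR.inv x⟩
  apply interior_maximal
  · rintro _ ⟨y, hy, rfl⟩
    exact hb _ (interior_subset hy)
  · rw [e]
    exact isOpen_interior.preimage hR.smooth.continuous

/-- conjugate of the barbell map by a product involution preserving the ball -/
theorem conj_bar (hspin : StSpin) {R : R4 → R4} {σ : ℝ → ℝ} {r r0 : R3 → R3}
    (hR : LInvol R σ r r0) (hb : ∀ p ∈ ball4, R p ∈ ball4) :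
    IsPush ∅ (1 / 5) (fun i q s => r (pair (fun q s => barPath () q s) i q (σ s)))
      (fun x => R (barMap (R x))) := by
  obtain ⟨F, h0, h1, ⟨K, hK, hKi, hKs⟩, -, ht⟩ := isPush_pair hspin
  have h := conj_push (γ := pair (fun q s => barPath () q s)) hR hK
    ((image_mono hKi).trans (image_interior hR.toInvol hb)) hKs h0 ht
  have e : (fun x => R (barMap (R x))) = fun x => R (F.f (1, R x)) := by
    funext x; rw [h1]
  rw [e]
  exact h

theorem phi_symm (s : ℝ) : phi (1 - s) = 2 * Real.pi - phi s := by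
  rw [phi, phi, step_symm]; ring

theorem m_R1H (hCh : StCh) (hspin : StSpin) : StR1h := by
  have h1 := conj_bar hspin linvol_refh (by
    rintro p ⟨h1, h2, h3⟩
    refine ⟨h1, h2, ?_⟩
    have : rsq 0 (refh p) = rsq 0 p := by simp [rsq, nsq, refh]
    rwa [this])
  have h2 := (isPush_pair hspin).reverse (Θ' := barInv) (fun x => bfam.fg 1 x)
  have h3 := h1.unique (h2.congr (by
    rintro (_ | _) q hq s
    · simp [Prod.ext_iff]
    · change revPath q s = _
      rw [revPath_eq]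
      simp only [pair_true, barPath, zarc]
      refine Prod.ext rfl (Complex.ext ?_ ?_) <;> simp))
  refine h3.congr ?_ ?_ (fun _ => rfl) (fun _ => rfl)
  · rintro (_ | _) s
    · simp [arc2, Prod.ext_iff]
    · simp [arc2, barPath_zero, e1]
  · rintro (_ | _) s
    · simp [arc2, Prod.ext_iff]
    · simp [arc2, barPath_one, e1]

theorem m_R1S (hCh : StCh) (hspin : StSpin) : StR1s := by
  have h1 := conj_bar hspin linvol_refs (by
    rintro p ⟨h1, h2, h3⟩
    refine ⟨?_, ?_, h3⟩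
    · change -1 ≤ 1 - p.1; linarith
    · change 1 - p.1 ≤ 2; linarith)
  apply mir hCh hspin
  refine h1.congr ?_
  rintro (_ | _) q hq s
  · simp
  · have hc : chi (1 - s) = chi s := by
      rw [chi, chi, phi_symm, Real.cos_two_pi_sub]
    simp only [pair_true, barPath, mirPath, zarc, hc]
    rw [phi_symm, Real.sin_two_pi_sub]
    refine Prod.ext rfl (Complex.ext ?_ rfl)
    simp

section
variable {ι : Type} {O : Set R4} {ρ : ℝ}

theorem IsPush.relabel {ι' : Type} {γ : ι → ℝ → ℝ → R3} {Θ : R4 → R4} (h : IsPush O ρ γ Θ)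
    (e : ι' → ι) : IsPush O ρ (fun i => γ (e i)) Θ := by
  obtain ⟨F, h0, h1, hs, hf, ht⟩ := h
  exact ⟨F, h0, h1, hs, hf, fun t ht' i s y hy => ht t ht' (e i) s y hy⟩

/-- Existence of a push family with support in a given round tube. -/
theorem exists_push_supp (hCh : StCh) [inst : Fintype ι] {γ : ι → ℝ → ℝ → R3} (hρ : 0 < ρ)
    (h : SqOk O ρ (fun i _ q s => γ i q s)) {R : ℝ}
    (hR : ∀ i, ∀ q ∈ Icc (0 : ℝ) 1, ∀ s x, nsq (x - γ i q s) < (2 * ρ) ^ 2 → nsq x ≤ R ^ 2) :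
    ∃ (F : DFam 𝓘(ℝ, R4) R4) (K : Set R4), IsCompact K ∧
      (∀ p ∈ K, -1 < p.1 ∧ p.1 < 2 ∧ nsq p.2 ≤ R ^ 2) ∧ (∀ t x, x ∉ K → F.f (t, x) = x) ∧
      (∀ x, F.f (0, x) = x) ∧ (∀ t, ∀ x ∈ O, F.f (t, x) = x) ∧
      ∀ t ∈ Icc (0 : ℝ) 1, ∀ i s y, nsq y ≤ ρ ^ 2 →
        F.f (t, (s, γ i 0 s + y)) = (s, γ i (step t) s + y) := by
  obtain ⟨P, hP, h1⟩ := hCh ι inst O ρ _ hρ h
  obtain ⟨F, hF, ⟨K, hK, hKi, hKs⟩, hf, ht, hx⟩ := h1 (fun _ => (0, 0)) (fun t => (0, step t))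
    contDiff_const (contDiff_const.prodMk contDiff_step) (fun t => by simp)
    (fun t => ⟨by simp, step_mem t⟩)
  have hn : Continuous (fun p : R4 => nsq p.2) :=
    (contDiff_nsq (contDiff_snd (𝕜 := ℝ) (E := ℝ) (F := R3))).continuous
  refine ⟨F, K ∩ {p | nsq p.2 ≤ R ^ 2}, hK.inter_right (isClosed_le hn continuous_const), ?_, ?_,
    fun x => ?_, hf, fun t _ i s y hy => ht t i s y hy⟩
  · rintro p ⟨hp, hp'⟩
    obtain ⟨a, b⟩ := of_mem_interior_ball4 (hKi hp)
    exact ⟨a, b, hp'⟩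
  · intro t x hxK
    by_cases hxk : x ∈ K
    · obtain ⟨s, x⟩ := x
      apply hx
      intro i τ hτ
      by_contra hcon
      push Not at hcon
      simp only [sub_zero, zero_add] at hcon
      refine hxK ⟨hxk, hR i (τ * step t) ?_ s x hcon⟩
      obtain ⟨s1, s2⟩ := step_mem t
      exact ⟨mul_nonneg hτ.1 s1, mul_le_one₀ hτ.2 s1 s2⟩
    · exact hKs t x hxk
  · rw [hF]
    simp only [step_zero]
    exact hP _ _

end

theorem nsq_barPath (q s : ℝ) : nsq (barPath () q s) = 1 := by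
  rw [barPath, nsq_zarc_chi]; ring

theorem nsq_mirPath (q s : ℝ) : nsq (mirPath q s) = 1 := by
  rw [mirPath, nsq_zarc_chi]; ring

theorem contDiff_barPath {F : Type*} [NormedAddCommGroup F] [NormedSpace ℝ F] {q s : F → ℝ}
    (hq : ContDiff ℝ ∞ q) (hs : ContDiff ℝ ∞ s) :
    ContDiff ℝ ∞ (fun x => barPath () (q x) (s x)) :=
  contDiff_zarc (Real.contDiff_sin.comp (contDiff_const.mul hq))
    (contDiff_chi.comp hs) hq hs

theorem contDiff_mirPath {F : Type*} [NormedAddCommGroup F] [NormedSpace ℝ F] {q s : F → ℝ}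
    (hq : ContDiff ℝ ∞ q) (hs : ContDiff ℝ ∞ s) :
    ContDiff ℝ ∞ (fun x => mirPath (q x) (s x)) :=
  contDiff_zarc (Real.contDiff_sin.comp (contDiff_const.mul hq)).neg
    (contDiff_chi.comp hs) hq hs

theorem mirPath_end (q : ℝ) {s : ℝ} (hs : s ≤ 0 ∨ 1 ≤ s) : mirPath q s = e1 :=
  zarc_end _ _ _ hs (chi_end hs)

theorem mirPath_zero (s : ℝ) : mirPath 0 s = e1 := by
  simp [mirPath, zarc_zero, e1]; rfl

theorem mirPath_one (s : ℝ) : mirPath 1 s = e1 := by
  simp [mirPath, zarc_one, e1]; rfl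

theorem nsq_e1 : nsq e1 = 1 := by simp [nsq, e1]

theorem nsq_smul (c : ℝ) (x : R3) : nsq (c • x) = c ^ 2 * nsq x := by
  simp only [nsq, Prod.smul_fst, Prod.smul_snd, smul_eq_mul, Complex.smul_re, Complex.smul_im]
  ring

/-- the square exchanging the roles of the two arcs -/
noncomputable def swpSq (b : Bool) (u q s : ℝ) : R3 :=
  if b then e1 - u • (e1 - mirPath q s) else (1 - u) • (e1 - mirPath q s)

theorem sqOk_swp : SqOk ∅ (1 / 5) swpSq := by
  have hq : ContDiff ℝ ∞ (fun p : ℝ × ℝ × ℝ => p.2.1) := contDiff_fst.comp contDiff_snd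
  have hs : ContDiff ℝ ∞ (fun p : ℝ × ℝ × ℝ => p.2.2) := contDiff_snd.comp contDiff_snd
  have hm := contDiff_mirPath hq hs
  have hv : ∀ q s, nsq (e1 - mirPath q s) ≤ 2 ^ 2 := by
    intro q s
    have := nsq_sub_le (x := e1) (y := mirPath q s) (r := 1) (t := 1) (by norm_num) (by norm_num)
      (by rw [nsq_e1]; norm_num) (by rw [nsq_mirPath]; norm_num)
    exact this.trans (by norm_num)
  have hvc : ∀ c ∈ Icc (0 : ℝ) 1, ∀ q s, nsq (c • (e1 - mirPath q s)) ≤ 2 ^ 2 := by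
    intro c hc q s
    rw [nsq_smul]
    have h1 := hv q s
    have h2 := nsq_nonneg (e1 - mirPath q s)
    have h3 : c ^ 2 ≤ 1 := by nlinarith [hc.1, hc.2]
    nlinarith
  refine ⟨?_, ?_, ?_, ?_, fun i u hu q hq s hs x hx => absurd hx (notMem_empty _)⟩
  · rintro (_ | _)
    · exact (contDiff_const.sub contDiff_fst).smul (contDiff_const.sub hm)
    · exact contDiff_const.sub (contDiff_fst.smul (contDiff_const.sub hm))
  · rintro (_ | _)
    · refine ⟨0, fun u q s h => ?_⟩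
      simp [swpSq, mirPath_end q h]
    · refine ⟨e1, fun u q s h => ?_⟩
      simp [swpSq, mirPath_end q h]
  · rintro (_ | _) u hu q hq s hs' x hx
    · have h1 : nsq (x - swpSq false u q s + swpSq false u q s) ≤ (2 * (1 / 5) + 2) ^ 2 :=
        nsq_add_le (by norm_num) (by norm_num) hx
          (hvc (1 - u) ⟨by linarith [hu.2], by linarith [hu.1]⟩ q s)
      rw [sub_add_cancel] at h1
      exact lt_of_le_of_lt h1 (by norm_num)
    · have h0 : nsq (swpSq true u q s) ≤ (1 + 2) ^ 2 :=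
        nsq_sub_le (by norm_num) (by norm_num) (by rw [nsq_e1]; norm_num) (hvc u hu q s)
      have h1 : nsq (x - swpSq true u q s + swpSq true u q s) ≤ (2 * (1 / 5) + (1 + 2)) ^ 2 :=
        nsq_add_le (by norm_num) (by norm_num) hx h0
      rw [sub_add_cancel] at h1
      exact lt_of_le_of_lt h1 (by norm_num)
  · have key : ∀ u q s, (4 * (1 / 5) : ℝ) ^ 2 ≤ nsq (swpSq true u q s - swpSq false u q s) := by
      intro u q s
      have e : swpSq true u q s - swpSq false u q s = mirPath q s := by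
        simp only [swpSq, if_true, Bool.false_eq_true, if_false, sub_smul, one_smul]
        abel
      rw [e, nsq_mirPath]
      norm_num
    rintro (_ | _) (_ | _) hij u hu q hq s hs'
    · exact absurd rfl hij
    · rw [nsq_sub_comm]
      exact key u q s
    · exact key u q s
    · exact absurd rfl hij

theorem m_R2 (hCh : StCh) (hspin : StSpin) : StR2 := by
  have hsq : SqOk ∅ (1 / 5) (fun i (_ : ℝ) q s => pair (fun q s => barPath () q s) i q s) := by
    refine sqOk_pair (fun _ q s => barPath () q s) ?_ ?_ ?_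
    · exact contDiff_barPath (contDiff_fst.comp contDiff_snd) (contDiff_snd.comp contDiff_snd)
    · intro u q s hs
      exact zarc_end _ _ _ hs (chi_end hs)
    · intro u hu q hq s
      rw [nsq_barPath]
      norm_num
  obtain ⟨F, K, hK, hKR, hKs, h0, -, ht⟩ := exists_push_supp hCh (R := 2) (by norm_num) hsq (by
    rintro (_ | _) q hq s x hx
    · rw [pair_false, sub_zero] at hx
      exact hx.le.trans (by norm_num)
    · rw [pair_true] at hx
      have h1 : nsq (x - barPath () q s + barPath () q s) ≤ (2 * (1 / 5) + 1) ^ 2 :=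
        nsq_add_le (by norm_num) (by norm_num) hx.le (by rw [nsq_barPath]; norm_num)
      rw [sub_add_cancel] at h1
      exact h1.trans (by norm_num))
  have hKi : K ⊆ interior ball4 := fun p hp => by
    obtain ⟨a, b, c⟩ := hKR p hp
    exact mem_interior_ball4 a b (lt_of_le_of_lt c (by norm_num))
  have hKi' : swp '' K ⊆ interior ball4 := by
    rintro _ ⟨p, hp, rfl⟩
    obtain ⟨a, b, c⟩ := hKR p hp
    refine mem_interior_ball4 a b ?_
    have e : (swp p).2 = e1 - (p.2.1, -conj p.2.2) := by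
      refine Prod.ext rfl ?_
      simp [swp, e1]
    rw [e]
    have h1 : nsq (p.2.1, -conj p.2.2) = nsq p.2 := by simp [nsq]
    have h2 := nsq_sub_le (x := e1) (y := (p.2.1, -conj p.2.2)) (r := 1) (t := 2)
      (by norm_num) (by norm_num) (by rw [nsq_e1]; norm_num) (by rw [h1]; exact c)
    exact lt_of_le_of_lt h2 (by norm_num)
  have hpF : IsPush ∅ (1 / 5) (pair (fun q s => barPath () q s)) (fun x => F.f (1, x)) :=
    ⟨F, h0, fun x => rfl, ⟨K, hK, hKi, hKs⟩, fun t _ x hx => absurd hx (notMem_empty _), ht⟩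
  refine ⟨fun x => F.f (1, x), ?_, ?_⟩
  · exact ((isPush_pair hspin).unique hpF).congr
      (by rintro (_ | _) s <;> simp [arc2, barPath_zero])
      (by rintro (_ | _) s <;> simp [arc2, barPath_one]) (fun _ => rfl) (fun _ => rfl)
  · have hc := (conj_push (γ := pair (fun q s => barPath () q s)) linvol_swp hK hKi' hKs h0
      ht).relabel (fun b => !b)
    have e0 : ∀ q s : ℝ, (1 - (barPath () q s).1, (starRingEnd ℂ) (barPath () q s).2) =
        e1 - mirPath q s := by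
      intro q s
      simp only [barPath, mirPath, zarc, e1]
      refine Prod.ext ?_ (Complex.ext ?_ ?_)
      · simp
      · simp
      · simp
    obtain ⟨Θ4, h4, -⟩ := exists_push hCh (by norm_num) (sqOk_swp.fixU (u₀ := 1) (by simp))
    have hpair : ∀ i q s, swpSq i 1 q s = pair mirPath i q s := by
      rintro (_ | _) q s <;> simp [swpSq]
    have h := square hCh (by norm_num) sqOk_swp (Θ1 := fun x => swp (F.f (1, swp x)))
      (Θ2 := fun x => x) (Θ3 := fun x => x) (Θ4 := Θ4)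
      (hc.congr (by
        rintro (_ | _) q hq s
        · simp only [Bool.not_false, pair_true, e0]
          simp [swpSq]
        · simp [swpSq, e1]))
      ((IsPush.const arc2).congr (by
        rintro (_ | _) q hq s <;> simp [arc2, swpSq, mirPath_one]))
      ((IsPush.const arc2).congr (by
        rintro (_ | _) q hq s <;> simp [arc2, swpSq, mirPath_zero]))
      h4
    have h5 := mir hCh hspin (h4.congr (fun i q _ s => hpair i q s))
    refine (h.congr ?_ ?_ (fun _ => rfl) (fun _ => rfl)).trans h5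
    · rintro (_ | _) s <;> simp [arc2, swpSq, mirPath_zero]
    · rintro (_ | _) s <;> simp [arc2, swpSq, mirPath_one]

end Pool.Agent.Helper27.BI


end
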