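import Pool.Agent.Helper65.Barb.Defs
import Pool.Agent.Helper70.BI.B.P02
import Pool.Agent.Helper70.BI.B.P04
import Pool.Agent.Helper70.BI.B.P05
import Pool.Agent.Helper70.BI.B.P06

/-!
# Project BI (MP_8e98f2_gt): collected modules, part 12

The contents of the modules
* Helper27.BI.M_CH
* Helper34.BI.M_RE
* Helper27.BI.H.StH2
* Helper27.BI.H.Ch5
* Helper27.BI.H.Fing

in one file, so that the whole proof builds in a short time.
-/

/-! ## Helper27.BI.M_CH -/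

section

/-!
# Project BI, module CH: chains of displacements (helper86)
-/

set_option autoImplicit false

open scoped Manifold ContDiff Topology ComplexConjugate
open Set Pool.Agent.Helper65.Barb Pool.Agent.Helper18.BI

namespace Pool.Agent.Helper27.BI

namespace CH

noncomputable section

theorem nsq_eq (x : R3) : nsq x = x.1 ^ 2 + ‖x.2‖ ^ 2 := by
  unfold nsq
  rw [← Complex.normSq_eq_norm_sq, Complex.normSq_apply]; ring

theorem contDiff_nsq : ContDiff ℝ ∞ (fun x : R3 => nsq x) := by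
  have h : (fun x : R3 => nsq x) = fun x : R3 => x.1 ^ 2 + ‖x.2‖ ^ 2 := funext nsq_eq
  rw [h]
  exact (contDiff_fst.pow 2).add (contDiff_snd.norm_sq ℝ)

theorem continuous_nsq : Continuous (fun x : R3 => nsq x) := contDiff_nsq.continuous

theorem isCompact_nsq (R : ℝ) : IsCompact {y : R3 | nsq y ≤ R} := by
  apply Metric.isCompact_of_isClosed_isBounded (isClosed_le continuous_nsq continuous_const)
  rw [isBounded_iff_forall_norm_le]
  refine ⟨R + 1, fun y hy => ?_⟩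
  have hy' : y.1 ^ 2 + ‖y.2‖ ^ 2 ≤ R := by rw [← nsq_eq]; exact hy
  rw [Prod.norm_def]
  apply max_le
  · rw [Real.norm_eq_abs, abs_le]
    constructor <;> nlinarith [sq_nonneg (y.1 + 1 / 2), sq_nonneg (y.1 - 1 / 2), sq_nonneg ‖y.2‖]
  · nlinarith [sq_nonneg (‖y.2‖ - 1 / 2), sq_nonneg y.1]

/-- the cut-off in three-space -/
def cf (ρ : ℝ) (x : R3) : ℝ := cut (nsq x / ρ ^ 2)

theorem cf_one {ρ : ℝ} (hρ : 0 < ρ) {x : R3} (h : nsq x ≤ ρ ^ 2) : cf ρ x = 1 :=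
  cut_of_le (by rw [div_le_one (by positivity)]; exact h)

theorem cf_zero {ρ : ℝ} (hρ : 0 < ρ) {x : R3} (h : (2 * ρ) ^ 2 ≤ nsq x) : cf ρ x = 0 :=
  cut_of_ge (by rw [le_div_iff₀ (by positivity)]; nlinarith)

theorem contDiff_cf (ρ : ℝ) : ContDiff ℝ ∞ (cf ρ) :=
  contDiff_cut.comp (contDiff_nsq.div_const _)

theorem exists_lip {ρ : ℝ} (hρ : 0 < ρ) :
    ∃ C : ℝ, 0 < C ∧ ∀ x y : R3, |cf ρ x - cf ρ y| ≤ C * ‖x - y‖ := by
  have hc : HasCompactSupport (cf ρ) := by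
    apply HasCompactSupport.intro (isCompact_nsq ((2 * ρ) ^ 2))
    intro x hx
    exact cf_zero hρ (not_le.1 hx).le
  obtain ⟨C, hC⟩ := (contDiff_cf ρ).lipschitzWith_of_hasCompactSupport hc (by simp)
  refine ⟨C + 1, by positivity, fun x y => ?_⟩
  have h := hC.dist_le_mul x y
  rw [dist_eq_norm, dist_eq_norm, Real.norm_eq_abs] at h
  nlinarith [norm_nonneg (x - y)]

section
variable {ι : Type} [Fintype ι]

/-- the displacement -/
def dsp (ρ : ℝ) (p v : ι → R3) (x : R3) : R3 := ∑ i, cf ρ (x - p i) • v i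

theorem dsp_lip {ρ C δ : ℝ} (hC : ∀ x y : R3, |cf ρ x - cf ρ y| ≤ C * ‖x - y‖) (hC0 : 0 < C)
    (p v : ι → R3) (hv : ∀ i, ‖v i‖ ≤ δ) (x y : R3) :
    ‖dsp ρ p v x - dsp ρ p v y‖ ≤ Fintype.card ι * (C * δ) * ‖x - y‖ := by
  unfold dsp
  rw [← Finset.sum_sub_distrib]
  calc ‖∑ i, (cf ρ (x - p i) • v i - cf ρ (y - p i) • v i)‖
      ≤ ∑ i, ‖cf ρ (x - p i) • v i - cf ρ (y - p i) • v i‖ := norm_sum_le _ _
    _ ≤ ∑ _i : ι, C * δ * ‖x - y‖ := by
        apply Finset.sum_le_sum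
        intro i _
        rw [← sub_smul, norm_smul, Real.norm_eq_abs]
        have h1 := hC (x - p i) (y - p i)
        rw [sub_sub_sub_cancel_right] at h1
        calc |cf ρ (x - p i) - cf ρ (y - p i)| * ‖v i‖ ≤ (C * ‖x - y‖) * δ :=
              mul_le_mul h1 (hv i) (norm_nonneg _) (by positivity)
          _ = C * δ * ‖x - y‖ := by ring
    _ = Fintype.card ι * (C * δ) * ‖x - y‖ := by
        rw [Finset.sum_const, Finset.card_univ, nsmul_eq_mul]; ring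

theorem dsp_zero {ρ : ℝ} {p v : ι → R3} (h : ∀ i, v i = 0) (x : R3) : dsp ρ p v x = 0 := by
  unfold dsp
  apply Finset.sum_eq_zero
  intro i _
  rw [h i, smul_zero]

theorem dsp_far {ρ : ℝ} (hρ : 0 < ρ) {p v : ι → R3} {x : R3}
    (h : ∀ i, (2 * ρ) ^ 2 ≤ nsq (x - p i)) : dsp ρ p v x = 0 := by
  unfold dsp
  apply Finset.sum_eq_zero
  intro i _
  rw [cf_zero hρ (h i), zero_smul]

theorem dsp_near {ρ : ℝ} (hρ : 0 < ρ) {p v : ι → R3} {x : R3} {i : ι}
    (h : nsq (x - p i) ≤ ρ ^ 2) (h' : ∀ j, j ≠ i → (2 * ρ) ^ 2 ≤ nsq (x - p j)) :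
    dsp ρ p v x = v i := by
  unfold dsp
  rw [Finset.sum_eq_single i, cf_one hρ h, one_smul]
  · intro j _ hj
    rw [cf_zero hρ (h' j hj), zero_smul]
  · intro hi
    exact absurd (Finset.mem_univ i) hi

theorem nsq_far {ρ : ℝ} {z y : R3} (hz : (4 * ρ) ^ 2 ≤ nsq z) (hy : nsq y ≤ ρ ^ 2) :
    (2 * ρ) ^ 2 ≤ nsq (z + y) := by
  unfold nsq at *
  have e1 : (z + y).1 = z.1 + y.1 := rfl
  have e2 : (z + y).2 = z.2 + y.2 := rfl
  rw [e1, e2, Complex.add_re, Complex.add_im]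
  nlinarith [sq_nonneg (z.1 + 2 * y.1), sq_nonneg (z.2.re + 2 * y.2.re),
    sq_nonneg (z.2.im + 2 * y.2.im), sq_nonneg ρ]

/-- the points of the segment -/
def ipc (N : ℕ) (a b : ℝ × ℝ) (k : ℕ) : ℝ × ℝ :=
  (a.1 + (k / N : ℝ) * (b.1 - a.1), a.2 + (k / N : ℝ) * (b.2 - a.2))

/-- one step -/
def ds (ρ : ℝ) (Γ : ι → ℝ → ℝ → ℝ → R3) (c c' : ℝ × ℝ) (p : R4) : R4 :=
  (p.1, p.2 + dsp ρ (fun i => Γ i c.1 c.2 p.1)
    (fun i => Γ i c'.1 c'.2 p.1 - Γ i c.1 c.2 p.1) p.2)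

/-- the chain -/
def Q (ρ : ℝ) (Γ : ι → ℝ → ℝ → ℝ → R3) (N : ℕ) (a b : ℝ × ℝ) : ℕ → R4 → R4
  | 0, x => x
  | k + 1, x => ds ρ Γ (ipc N a b k) (ipc N a b (k + 1)) (Q ρ Γ N a b k x)

theorem ds_fix {ρ : ℝ} (hρ : 0 < ρ) {Γ : ι → ℝ → ℝ → ℝ → R3} {c c' : ℝ × ℝ} {s : ℝ} {x : R3}
    (h : (∀ i, Γ i c'.1 c'.2 s = Γ i c.1 c.2 s) ∨
      ∀ i, (2 * ρ) ^ 2 ≤ nsq (x - Γ i c.1 c.2 s)) : ds ρ Γ c c' (s, x) = (s, x) := by
  have h0 : dsp ρ (fun i => Γ i c.1 c.2 s) (fun i => Γ i c'.1 c'.2 s - Γ i c.1 c.2 s) x = 0 := by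
    rcases h with h | h
    · exact dsp_zero (fun i => sub_eq_zero.2 (h i)) x
    · exact dsp_far hρ h
  show (s, x + dsp ρ (fun i => Γ i c.1 c.2 s) (fun i => Γ i c'.1 c'.2 s - Γ i c.1 c.2 s) x) = _
  rw [h0, add_zero]

theorem Q_fix {ρ : ℝ} (hρ : 0 < ρ) {Γ : ι → ℝ → ℝ → ℝ → R3} {N : ℕ} {a b : ℝ × ℝ} {s : ℝ} {x : R3}
    (k : ℕ) (hk : k ≤ N)
    (h : (∀ i, ∀ m, Γ i (ipc N a b (m + 1)).1 (ipc N a b (m + 1)).2 s =
        Γ i (ipc N a b m).1 (ipc N a b m).2 s) ∨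
      ∀ i, ∀ m ≤ N, (2 * ρ) ^ 2 ≤ nsq (x - Γ i (ipc N a b m).1 (ipc N a b m).2 s)) :
    Q ρ Γ N a b k (s, x) = (s, x) := by
  induction k with
  | zero => rfl
  | succ k ih =>
    show ds ρ Γ (ipc N a b k) (ipc N a b (k + 1)) (Q ρ Γ N a b k (s, x)) = (s, x)
    rw [ih (by omega)]
    apply ds_fix hρ
    rcases h with h | h
    · exact Or.inl fun i => h i k
    · exact Or.inr fun i => h i k (by omega)

theorem Q_tube {O : Set R4} {ρ : ℝ} (hρ : 0 < ρ) {Γ : ι → ℝ → ℝ → ℝ → R3} (hΓ : SqOk O ρ Γ)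
    {N : ℕ} {a b : ℝ × ℝ} (hsq : ∀ m ≤ N, ipc N a b m ∈ Icc (0 : ℝ) 1 ×ˢ Icc (0 : ℝ) 1)
    {s : ℝ} (i : ι) {y : R3} (hy : nsq y ≤ ρ ^ 2) (k : ℕ) (hk : k ≤ N) :
    Q ρ Γ N a b k (s, Γ i (ipc N a b 0).1 (ipc N a b 0).2 s + y) =
      (s, Γ i (ipc N a b k).1 (ipc N a b k).2 s + y) := by
  induction k with
  | zero => rfl
  | succ k ih =>
    show ds ρ Γ (ipc N a b k) (ipc N a b (k + 1)) (Q ρ Γ N a b k _) = _
    rw [ih (by omega)]
    by_cases hs : s ≤ 0 ∨ 1 ≤ s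
    · have h1 : ∀ j, Γ j (ipc N a b (k + 1)).1 (ipc N a b (k + 1)).2 s =
          Γ j (ipc N a b k).1 (ipc N a b k).2 s := by
        intro j
        obtain ⟨z, hz⟩ := hΓ.ends j
        rw [hz _ _ _ hs, hz _ _ _ hs]
      rw [ds_fix hρ (Or.inl h1), h1 i]
    · push Not at hs
      have hs' : s ∈ Icc (0 : ℝ) 1 := ⟨hs.1.le, hs.2.le⟩
      have hc := hsq k (by omega)
      have h0 : dsp ρ (fun j => Γ j (ipc N a b k).1 (ipc N a b k).2 s)
          (fun j => Γ j (ipc N a b (k + 1)).1 (ipc N a b (k + 1)).2 s -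
            Γ j (ipc N a b k).1 (ipc N a b k).2 s) (Γ i (ipc N a b k).1 (ipc N a b k).2 s + y) =
          Γ i (ipc N a b (k + 1)).1 (ipc N a b (k + 1)).2 s -
            Γ i (ipc N a b k).1 (ipc N a b k).2 s := by
        apply dsp_near (i := i) hρ
        · rw [add_sub_cancel_left]; exact hy
        · intro j hj
          have e : Γ i (ipc N a b k).1 (ipc N a b k).2 s + y -
              Γ j (ipc N a b k).1 (ipc N a b k).2 s =
              (Γ i (ipc N a b k).1 (ipc N a b k).2 s - Γ j (ipc N a b k).1 (ipc N a b k).2 s) + y := by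
            abel
          rw [e]
          exact nsq_far (hΓ.sep i j (Ne.symm hj) _ hc.1 _ hc.2 s hs') hy
      show (s, Γ i (ipc N a b k).1 (ipc N a b k).2 s + y + dsp ρ _ _ _) = _
      rw [h0]
      congr 1
      abel

theorem exists_dfam (pert : StPert) {O : Set R4} {ρ C δ : ℝ} {Γ : ι → ℝ → ℝ → ℝ → R3}
    (hΓ : SqOk O ρ Γ) (hC : ∀ x y : R3, |cf ρ x - cf ρ y| ≤ C * ‖x - y‖) (hC0 : 0 < C)
    (hδ : Fintype.card ι * (C * δ) ≤ 1 / 2) {c c' : ℝ → ℝ × ℝ} (hc : ContDiff ℝ ∞ c)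
    (hc' : ContDiff ℝ ∞ c')
    (hv : ∀ t s i, ‖Γ i (c' t).1 (c' t).2 s - Γ i (c t).1 (c t).2 s‖ ≤ δ) :
    ∃ F : DFam 𝓘(ℝ, R4) R4, ∀ t x, F.f (t, x) = ds ρ Γ (c t) (c' t) x := by
  have hG : ∀ i (c : ℝ → ℝ × ℝ), ContDiff ℝ ∞ c →
      ContDiff ℝ ∞ (fun p : ℝ × R4 => Γ i (c p.1).1 (c p.1).2 p.2.1) := by
    intro i c hc
    have h1 : ContDiff ℝ ∞ (fun p : ℝ × R4 => c p.1) := hc.comp contDiff_fst
    have h2 : ContDiff ℝ ∞ (fun p : ℝ × R4 => ((c p.1).1, (c p.1).2, p.2.1)) :=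
      h1.fst.prodMk (h1.snd.prodMk (contDiff_snd.fst))
    exact (hΓ.smooth i).comp h2
  obtain ⟨F, hF⟩ := pert (fun p => dsp ρ (fun i => Γ i (c p.1).1 (c p.1).2 p.2.1)
    (fun i => Γ i (c' p.1).1 (c' p.1).2 p.2.1 - Γ i (c p.1).1 (c p.1).2 p.2.1) p.2.2) (by
      unfold dsp
      apply ContDiff.sum
      intro i _
      have f1 : ContDiff ℝ ∞ (fun p : ℝ × R4 => cf ρ (p.2.2 - Γ i (c p.1).1 (c p.1).2 p.2.1)) :=
        (contDiff_cf ρ).comp ((contDiff_snd.snd).sub (hG i c hc))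
      have f2 : ContDiff ℝ ∞ (fun p : ℝ × R4 =>
          Γ i (c' p.1).1 (c' p.1).2 p.2.1 - Γ i (c p.1).1 (c p.1).2 p.2.1) :=
        (hG i c' hc').sub (hG i c hc)
      exact ContDiff.smul f1 f2) (by
      intro t s x y
      exact (dsp_lip hC hC0 _ _ (fun i => hv t s i) x y).trans
        (mul_le_mul_of_nonneg_right hδ (norm_nonneg _)))
  refine ⟨F, ?_⟩
  rintro t ⟨s, x⟩
  exact hF t s x

theorem exists_Q (pert : StPert) {O : Set R4} {ρ C δ : ℝ} {Γ : ι → ℝ → ℝ → ℝ → R3}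
    (hΓ : SqOk O ρ Γ) (hC : ∀ x y : R3, |cf ρ x - cf ρ y| ≤ C * ‖x - y‖) (hC0 : 0 < C)
    (hδ : Fintype.card ι * (C * δ) ≤ 1 / 2) {N : ℕ} {a b : ℝ → ℝ × ℝ} (ha : ContDiff ℝ ∞ a)
    (hb : ContDiff ℝ ∞ b)
    (hv : ∀ t s i, ∀ k < N, ‖Γ i (ipc N (a t) (b t) (k + 1)).1 (ipc N (a t) (b t) (k + 1)).2 s -
      Γ i (ipc N (a t) (b t) k).1 (ipc N (a t) (b t) k).2 s‖ ≤ δ) (k : ℕ) (hk : k ≤ N) :
    ∃ F : DFam 𝓘(ℝ, R4) R4, ∀ t x, F.f (t, x) = Q ρ Γ N (a t) (b t) k x := by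
  induction k with
  | zero => exact ⟨DFam.one, fun t x => rfl⟩
  | succ k ih =>
    obtain ⟨F, hF⟩ := ih (by omega)
    have hi : ∀ k : ℕ, ContDiff ℝ ∞ (fun t => ipc N (a t) (b t) k) := by
      intro k
      unfold ipc
      exact (ha.fst.add (contDiff_const.mul (hb.fst.sub ha.fst))).prodMk
        (ha.snd.add (contDiff_const.mul (hb.snd.sub ha.snd)))
    obtain ⟨G, hG⟩ := exists_dfam pert hΓ hC hC0 hδ (hi k) (hi (k + 1))
      (fun t s i => hv t s i k (by omega))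
    refine ⟨G.comp F, fun t x => ?_⟩
    change G.f (t, F.f (t, x)) = _
    rw [hF, hG]
    rfl

theorem ip_mem {a b : ℝ × ℝ} (ha : a ∈ Icc (0 : ℝ) 1 ×ˢ Icc (0 : ℝ) 1)
    (hb : b ∈ Icc (0 : ℝ) 1 ×ˢ Icc (0 : ℝ) 1) {τ : ℝ} (hτ : τ ∈ Icc (0 : ℝ) 1) :
    (a.1 + τ * (b.1 - a.1) ∈ Icc (0 : ℝ) 1) ∧ (a.2 + τ * (b.2 - a.2) ∈ Icc (0 : ℝ) 1) := by
  obtain ⟨⟨a1, a2⟩, a3, a4⟩ := ha
  obtain ⟨⟨b1, b2⟩, b3, b4⟩ := hb
  obtain ⟨t1, t2⟩ := hτ
  refine ⟨⟨?_, ?_⟩, ⟨?_, ?_⟩⟩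
  · nlinarith [mul_nonneg t1 b1, mul_nonneg (sub_nonneg.2 t2) a1]
  · nlinarith [mul_nonneg t1 (sub_nonneg.2 b2), mul_nonneg (sub_nonneg.2 t2) (sub_nonneg.2 a2)]
  · nlinarith [mul_nonneg t1 b3, mul_nonneg (sub_nonneg.2 t2) a3]
  · nlinarith [mul_nonneg t1 (sub_nonneg.2 b4), mul_nonneg (sub_nonneg.2 t2) (sub_nonneg.2 a4)]

theorem div_mem {N k : ℕ} (hk : k ≤ N) : (k / N : ℝ) ∈ Icc (0 : ℝ) 1 := by
  refine ⟨by positivity, ?_⟩
  apply div_le_one_of_le₀ _ (by positivity)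
  exact_mod_cast hk

/-- the choice of the number of steps -/
theorem exists_N {O : Set R4} {ρ δ : ℝ} {Γ : ι → ℝ → ℝ → ℝ → R3} (hΓ : SqOk O ρ Γ) (hδ : 0 < δ) :
    ∃ N : ℕ, 0 < N ∧ ∀ a ∈ Icc (0 : ℝ) 1 ×ˢ Icc (0 : ℝ) 1, ∀ b ∈ Icc (0 : ℝ) 1 ×ˢ Icc (0 : ℝ) 1,
      ∀ s i, ∀ k < N, ‖Γ i (ipc N a b (k + 1)).1 (ipc N a b (k + 1)).2 s -
      Γ i (ipc N a b k).1 (ipc N a b k).2 s‖ ≤ δ := by
  have hcomp : IsCompact (Icc (0 : ℝ) 1 ×ˢ (Icc (0 : ℝ) 1 ×ˢ Icc (0 : ℝ) 1)) :=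
    isCompact_Icc.prod (isCompact_Icc.prod isCompact_Icc)
  have hcont : Continuous (fun p : ℝ × ℝ × ℝ => fun i => Γ i p.1 p.2.1 p.2.2) :=
    continuous_pi fun i => (hΓ.smooth i).continuous
  have huc := hcomp.uniformContinuousOn_of_continuous hcont.continuousOn
  rw [Metric.uniformContinuousOn_iff] at huc
  obtain ⟨η, hη, h⟩ := huc δ hδ
  obtain ⟨N, hN⟩ := exists_nat_gt (1 / η)
  have hN0 : (0 : ℝ) < N := lt_trans (by positivity) hN
  have hN1 : 1 / (N : ℝ) < η := by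
    rw [div_lt_iff₀ hN0]
    rw [div_lt_iff₀ hη] at hN
    linarith
  refine ⟨N, by exact_mod_cast hN0, ?_⟩
  intro a ha b hb s i k hk
  by_cases hs : s ≤ 0 ∨ 1 ≤ s
  · obtain ⟨z, hz⟩ := hΓ.ends i
    rw [hz _ _ _ hs, hz _ _ _ hs, sub_self, norm_zero]
    exact hδ.le
  push Not at hs
  have hs' : s ∈ Icc (0 : ℝ) 1 := ⟨hs.1.le, hs.2.le⟩
  have hd1 := div_mem (N := N) (k := k + 1) (by omega)
  have hd0 := div_mem (N := N) (k := k) (by omega)
  have m1 := ip_mem ha hb hd1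
  have m0 := ip_mem ha hb hd0
  have h1 := h ((ipc N a b (k + 1)).1, (ipc N a b (k + 1)).2, s) ⟨m1.1, m1.2, hs'⟩
    ((ipc N a b k).1, (ipc N a b k).2, s) ⟨m0.1, m0.2, hs'⟩ (by
      have g : ∀ x y : ℝ, x ∈ Icc (0 : ℝ) 1 → y ∈ Icc (0 : ℝ) 1 →
          dist (x + (((k + 1 : ℕ) : ℝ) / N) * (y - x)) (x + ((k : ℝ) / N) * (y - x)) < η := by
        intro x y hx hy
        rw [Real.dist_eq]
        have e : x + (((k + 1 : ℕ) : ℝ) / N) * (y - x) - (x + ((k : ℝ) / N) * (y - x)) =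
            (y - x) * (1 / N) := by
          push_cast; ring
        rw [e, abs_mul, abs_of_pos (show (0 : ℝ) < 1 / N by positivity)]
        have : |y - x| ≤ 1 := by rw [abs_le]; constructor <;> linarith [hx.1, hx.2, hy.1, hy.2]
        have h2 : |y - x| * (1 / N) ≤ 1 * (1 / N) :=
          mul_le_mul_of_nonneg_right this (by positivity)
        linarith
      rw [Prod.dist_eq, Prod.dist_eq, dist_self]
      exact max_lt (g _ _ ha.1 hb.1) (max_lt (g _ _ ha.2 hb.2) hη))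
  rw [dist_eq_norm] at h1
  exact (norm_le_pi_norm (_ : ι → R3) i).trans h1.le

end

end

end CH

open CH in
/-- **CH.** -/
theorem m_CH (pert : StPert) : StCh := by
  intro ι _ O ρ Γ hρ hΓ
  obtain ⟨C, hC0, hC⟩ := exists_lip hρ
  set δ : ℝ := 1 / (2 * C * (Fintype.card ι + 1)) with hδdef
  have hδ0 : 0 < δ := by positivity
  have hδ : Fintype.card ι * (C * δ) ≤ 1 / 2 := by
    have h1 : (Fintype.card ι + 1 : ℝ) * (C * δ) = 1 / 2 := by
      rw [hδdef]; field_simp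
    have h2 : 0 < C * δ := by positivity
    nlinarith
  obtain ⟨N, hN, hstep⟩ := exists_N hΓ hδ0
  have hN' : (N : ℝ) ≠ 0 := by exact_mod_cast hN.ne'
  refine ⟨fun a b => Q ρ Γ N a b N, ?_, ?_⟩
  · rintro q ⟨s, x⟩
    apply Q_fix hρ N le_rfl (Or.inl ?_)
    intro i m
    have : ∀ m, ipc N q q m = q := by
      intro m
      unfold ipc
      simp
    rw [this, this]
  intro a b ha hb ha' hb'
  obtain ⟨F, hF⟩ := exists_Q pert hΓ hC hC0 hδ ha hb
    (fun t s i k hk => hstep (a t) (ha' t) (b t) (hb' t) s i k hk) N le_rfl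
  have hout : ∀ t s x, (s ≤ 0 ∨ 1 ≤ s) → F.f (t, (s, x)) = (s, x) := by
    intro t s x hs
    rw [hF]
    apply Q_fix hρ N le_rfl (Or.inl ?_)
    intro i m
    obtain ⟨z, hz⟩ := hΓ.ends i
    rw [hz _ _ _ hs, hz _ _ _ hs]
  have hfix : ∀ t s x, (∀ i, ∀ τ ∈ Icc (0 : ℝ) 1, (2 * ρ) ^ 2 ≤
      nsq (x - Γ i ((a t).1 + τ * ((b t).1 - (a t).1))
        ((a t).2 + τ * ((b t).2 - (a t).2)) s)) → F.f (t, (s, x)) = (s, x) := by
    intro t s x h
    rw [hF]
    apply Q_fix hρ N le_rfl (Or.inr ?_)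
    intro i m hm
    exact h i _ (div_mem hm)
  refine ⟨F, hF, ?_, ?_, ?_, hfix⟩
  · refine ⟨⋃ i, (fun z : (ℝ × ℝ × ℝ) × R3 => ((z.1.2.2, Γ i z.1.1 z.1.2.1 z.1.2.2 + z.2) : R4)) ''
      ((Icc (0 : ℝ) 1 ×ˢ (Icc (0 : ℝ) 1 ×ˢ Icc (0 : ℝ) 1)) ×ˢ {y : R3 | nsq y ≤ (2 * ρ) ^ 2}),
      ?_, ?_, ?_⟩
    · apply isCompact_iUnion
      intro i
      apply IsCompact.image
      · exact (isCompact_Icc.prod (isCompact_Icc.prod isCompact_Icc)).prod (isCompact_nsq _)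
      · have h1 : Continuous (fun z : (ℝ × ℝ × ℝ) × R3 => Γ i z.1.1 z.1.2.1 z.1.2.2) :=
          (hΓ.smooth i).continuous.comp continuous_fst
        exact (continuous_fst.snd.snd).prodMk (h1.add continuous_snd)
    · rintro p hp
      obtain ⟨i, ⟨⟨u, q, s⟩, y⟩, ⟨⟨hu, hq, hs⟩, hy⟩, rfl⟩ := mem_iUnion.1 hp
      have hopen : IsOpen {p : R4 | -1 < p.1 ∧ p.1 < 2 ∧ rsq 0 p < (9 / 2) ^ 2} := by
        apply IsOpen.inter (isOpen_lt continuous_const continuous_fst)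
        apply IsOpen.inter (isOpen_lt continuous_fst continuous_const)
        exact isOpen_lt (continuous_rsq 0) continuous_const
      have hsub : {p : R4 | -1 < p.1 ∧ p.1 < 2 ∧ rsq 0 p < (9 / 2) ^ 2} ⊆ ball4 :=
        fun p hp => ⟨hp.1.le, hp.2.1.le, hp.2.2.le⟩
      apply interior_maximal hsub hopen
      have h1 := hΓ.inside i u hu q hq s hs (Γ i u q s + y) (by
        rw [add_sub_cancel_left]; exact hy)
      refine ⟨?_, ?_, ?_⟩
      · show -1 < s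
        linarith [hs.1]
      · show s < 2
        linarith [hs.2]
      · show nsq ((Γ i u q s + y).1 - 0, (Γ i u q s + y).2) < _
        rw [sub_zero]
        exact h1
    · rintro t ⟨s, x⟩ hx
      by_cases hs : s ≤ 0 ∨ 1 ≤ s
      · exact hout t s x hs
      push Not at hs
      have hs' : s ∈ Icc (0 : ℝ) 1 := ⟨hs.1.le, hs.2.le⟩
      apply hfix
      intro i τ hτ
      by_contra hlt
      push Not at hlt
      apply hx
      have hm := ip_mem (ha' t) (hb' t) hτ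
      refine mem_iUnion.2 ⟨i, ⟨⟨⟨(a t).1 + τ * ((b t).1 - (a t).1),
        (a t).2 + τ * ((b t).2 - (a t).2), s⟩, x - Γ i ((a t).1 + τ * ((b t).1 - (a t).1))
        ((a t).2 + τ * ((b t).2 - (a t).2)) s⟩, ⟨⟨hm.1, hm.2, hs'⟩, hlt.le⟩, ?_⟩⟩
      show (s, _ + (x - _)) = (s, x)
      rw [add_sub_cancel]
  · rintro t ⟨s, x⟩ hx
    by_cases hs : s ≤ 0 ∨ 1 ≤ s
    · exact hout t s x hs
    push Not at hs
    have hs' : s ∈ Icc (0 : ℝ) 1 := ⟨hs.1.le, hs.2.le⟩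
    apply hfix
    intro i τ hτ
    have hm := ip_mem (ha' t) (hb' t) hτ
    exact hΓ.off i _ hm.1 _ hm.2 s hs' x hx
  · intro t i s y hy
    rw [hF]
    have h1 := Q_tube hρ hΓ (N := N) (a := a t) (b := b t)
      (fun m hm => ip_mem (ha' t) (hb' t) (div_mem hm)) (s := s) i hy N le_rfl
    have e0 : ipc N (a t) (b t) 0 = a t := by
      unfold ipc; simp
    have e1 : ipc N (a t) (b t) N = b t := by
      unfold ipc
      rw [div_self hN']; simp
    rw [e0, e1] at h1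
    exact h1

end Pool.Agent.Helper27.BI


end

/-! ## Helper34.BI.M_RE -/

section

/-!
# Project BI, module RE: the radial map `Em`
-/

set_option autoImplicit false

open scoped Manifold ContDiff Topology ComplexConjugate
open Set Pool.Agent.Helper65.Barb Pool.Agent.Helper18.BI Pool.Agent.Helper27.BI

namespace Pool.Agent.Helper34.BI

namespace RE

open R2 (rsq_eq rsq_contDiff isOpen_pos line_deriv)

/-- a profile function -/
structure Prf (f : ℝ → ℝ) : Prop where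
  smooth : ContDiff ℝ ∞ f
  pos : ∀ q, 0 < deriv f q
  ge : ∀ q, q ≤ f q

/-- the factor -/
noncomputable def mf (f : ℝ → ℝ) (c : ℝ) (p : R4) : ℝ := √(f (rsq c p) / rsq c p)

/-- the radial map with profile `f` -/
noncomputable def rad (f : ℝ → ℝ) (c : ℝ) (p : R4) : R4 :=
  (p.1, c + mf f c p * (p.2.1 - c), ((mf f c p : ℝ) : ℂ) * p.2.2)

theorem rad_eq (f : ℝ → ℝ) (c : ℝ) (p : R4) :
    rad f c p = (p.1, c + mf f c p * (p.2.1 - c), ((mf f c p : ℝ) : ℂ) * p.2.2) := rfl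

variable {f : ℝ → ℝ}

theorem Prf.mono (hf : Prf f) : StrictMono f := strictMono_of_deriv_pos hf.pos

theorem Prf.hasDeriv (hf : Prf f) (q : ℝ) : HasDerivAt f (deriv f q) q :=
  (hf.smooth.differentiable (by simp) q).hasDerivAt

theorem arg_pos (hf : Prf f) (c : ℝ) (p : R4) (hp : 0 < rsq c p) :
    0 < f (rsq c p) / rsq c p :=
  div_pos (lt_of_lt_of_le hp (hf.ge _)) hp

theorem mf_pos (hf : Prf f) (c : ℝ) (p : R4) (hp : 0 < rsq c p) :
    0 < mf f c p := Real.sqrt_pos.2 (arg_pos hf c p hp)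

theorem mf_sq (hf : Prf f) (c : ℝ) (p : R4) (hp : 0 < rsq c p) :
    mf f c p ^ 2 * rsq c p = f (rsq c p) := by
  rw [mf, Real.sq_sqrt (arg_pos hf c p hp).le, div_mul_cancel₀ _ hp.ne']

theorem rsq_rad (hf : Prf f) (c : ℝ) (p : R4) (hp : 0 < rsq c p) :
    rsq c (rad f c p) = f (rsq c p) := by
  rw [← mf_sq hf c p hp, rad_eq, rsq_eq, rsq_eq]
  simp only [Complex.mul_re, Complex.mul_im, Complex.ofReal_re, Complex.ofReal_im]
  ring

theorem mf_contDiffOn (hf : Prf f) (c : ℝ) :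
    ContDiffOn ℝ ∞ (mf f c) {p : R4 | 0 < rsq c p} := by
  have h2 : ContDiffOn ℝ ∞ (fun p : R4 => f (rsq c p) / rsq c p) {p : R4 | 0 < rsq c p} :=
    (hf.smooth.comp (rsq_contDiff c)).contDiffOn.div (rsq_contDiff c).contDiffOn
      (fun p hp => (ne_of_gt hp))
  exact h2.sqrt (fun p hp => (arg_pos hf c p hp).ne')

theorem rad_contDiffOn (hf : Prf f) (c : ℝ) :
    ContDiffOn ℝ ∞ (rad f c) {p : R4 | 0 < rsq c p} := by
  have hm := mf_contDiffOn hf c
  have h2 : ContDiff ℝ ∞ (fun p : R4 => p.2.1 - c) :=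
    (contDiff_fst.comp contDiff_snd).sub contDiff_const
  have h3 : ContDiffOn ℝ ∞ (fun p : R4 => ((mf f c p : ℝ) : ℂ)) {p : R4 | 0 < rsq c p} :=
    Complex.ofRealCLM.contDiff.comp_contDiffOn hm
  exact contDiff_fst.contDiffOn.prodMk ((contDiffOn_const.add (hm.mul h2.contDiffOn)).prodMk
    (h3.mul (contDiff_snd.comp contDiff_snd).contDiffOn))

theorem rad_fderiv (hf : Prf f) (c : ℝ) (p v : R4)
    (hp : 0 < rsq c p) (hv : fderiv ℝ (rad f c) p v = 0) : v = 0 := by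
  have hnhd : {p : R4 | 0 < rsq c p} ∈ 𝓝 p := (isOpen_pos c).mem_nhds hp
  have hd : DifferentiableAt ℝ (rad f c) p :=
    ((rad_contDiffOn hf c).contDiffAt hnhd).differentiableAt (by simp)
  have hdm : DifferentiableAt ℝ (mf f c) p :=
    ((mf_contDiffOn hf c).contDiffAt hnhd).differentiableAt (by simp)
  obtain ⟨s, a, w⟩ := p
  obtain ⟨σ, b, z⟩ := v
  have hline : HasDerivAt (fun t : ℝ => ((s, a, w) : R4) + t • ((σ, b, z) : R4)) (σ, b, z) 0 := by
    have := ((hasDerivAt_id (0 : ℝ)).smul_const ((σ, b, z) : R4)).const_add ((s, a, w) : R4)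
    simpa using this
  have hline0 : ((s, a, w) : R4) + (0 : ℝ) • ((σ, b, z) : R4) = (s, a, w) := by
    rw [zero_smul, add_zero]
  have hc : HasDerivAt (fun t : ℝ => rad f c ((s, a, w) + t • (σ, b, z))) 0 0 := by
    have h2 : HasFDerivAt (rad f c) (fderiv ℝ (rad f c) (s, a, w))
        (((s, a, w) : R4) + (0 : ℝ) • ((σ, b, z) : R4)) := by
      rw [hline0]
      exact hd.hasFDerivAt
    have h3 := h2.comp_hasDerivAt (0 : ℝ) hline
    rw [hv] at h3
    exact h3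
  obtain ⟨μ, hμ⟩ : ∃ μ : ℝ, HasDerivAt (fun t : ℝ => mf f c ((s, a, w) + t • (σ, b, z))) μ 0 := by
    have h2 : HasFDerivAt (mf f c) (fderiv ℝ (mf f c) (s, a, w))
        (((s, a, w) : R4) + (0 : ℝ) • ((σ, b, z) : R4)) := by
      rw [hline0]
      exact hdm.hasFDerivAt
    have h3 := h2.comp_hasDerivAt (0 : ℝ) hline
    exact ⟨_, h3⟩
  have e1 : ∀ t : ℝ, rad f c ((s, a, w) + t • (σ, b, z)) =
      (s + t * σ, c + mf f c ((s, a, w) + t • (σ, b, z)) * (a - c + t * b),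
        ((mf f c ((s, a, w) + t • (σ, b, z)) : ℝ) : ℂ) * (w + t * z)) := by
    intro t
    rw [rad_eq]
    refine Prod.ext ?_ (Prod.ext ?_ ?_)
    · simp
    · simp only [Prod.fst_add, Prod.snd_add, Prod.smul_fst, Prod.smul_snd, smul_eq_mul]
      ring
    · simp
  simp only [e1] at hc
  have hσ : σ = 0 := by
    have h2 := (ContinuousLinearMap.fst ℝ ℝ (ℝ × ℂ)).hasFDerivAt.comp_hasDerivAt (0 : ℝ) hc
    have h5 := (line_deriv s σ).unique h2
    simpa using h5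
  set m : ℝ := mf f c (s, a, w) with hm
  have hm0 : 0 < m := mf_pos hf c _ hp
  have hma : mf f c (((s, a, w) : R4) + (0 : ℝ) • ((σ, b, z) : R4)) = m := by
    rw [hline0]
  have hb : μ * (a - c) + m * b = 0 := by
    have h2 := ((ContinuousLinearMap.fst ℝ ℝ ℂ).comp
      (ContinuousLinearMap.snd ℝ ℝ (ℝ × ℂ))).hasFDerivAt.comp_hasDerivAt (0 : ℝ) hc
    have h3 := (hμ.mul (line_deriv (a - c) b)).const_add c
    have h4 := h3.unique h2
    rw [hma] at h4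
    simpa using h4
  have hre : μ * w.re + m * z.re = 0 := by
    have h2 := (Complex.reCLM.comp ((ContinuousLinearMap.snd ℝ ℝ ℂ).comp
      (ContinuousLinearMap.snd ℝ ℝ (ℝ × ℂ)))).hasFDerivAt.comp_hasDerivAt (0 : ℝ) hc
    have h3 := hμ.mul (line_deriv w.re z.re)
    have e2 : ((Complex.reCLM.comp ((ContinuousLinearMap.snd ℝ ℝ ℂ).comp
        (ContinuousLinearMap.snd ℝ ℝ (ℝ × ℂ)))) ∘ fun t : ℝ =>
        ((s + t * σ, c + mf f c ((s, a, w) + t • (σ, b, z)) * (a - c + t * b),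
        ((mf f c ((s, a, w) + t • (σ, b, z)) : ℝ) : ℂ) * (w + t * z)) : R4)) =
        ((fun t : ℝ => mf f c ((s, a, w) + t • (σ, b, z))) * fun t : ℝ => w.re + t * z.re) := by
      ext t
      simp
    rw [e2] at h2
    have h4 := h3.unique h2
    rw [hma] at h4
    simpa using h4
  have him : μ * w.im + m * z.im = 0 := by
    have h2 := (Complex.imCLM.comp ((ContinuousLinearMap.snd ℝ ℝ ℂ).comp
      (ContinuousLinearMap.snd ℝ ℝ (ℝ × ℂ)))).hasFDerivAt.comp_hasDerivAt (0 : ℝ) hc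
    have h3 := hμ.mul (line_deriv w.im z.im)
    have e2 : ((Complex.imCLM.comp ((ContinuousLinearMap.snd ℝ ℝ ℂ).comp
        (ContinuousLinearMap.snd ℝ ℝ (ℝ × ℂ)))) ∘ fun t : ℝ =>
        ((s + t * σ, c + mf f c ((s, a, w) + t • (σ, b, z)) * (a - c + t * b),
        ((mf f c ((s, a, w) + t • (σ, b, z)) : ℝ) : ℂ) * (w + t * z)) : R4)) =
        ((fun t : ℝ => mf f c ((s, a, w) + t • (σ, b, z))) * fun t : ℝ => w.im + t * z.im) := by
      ext t
      simp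
    rw [e2] at h2
    have h4 := h3.unique h2
    rw [hma] at h4
    simpa using h4
  -- the derivative of the squared radius
  set D : ℝ := 2 * ((a - c) * b + w.re * z.re + w.im * z.im) with hD
  have hR : HasDerivAt (fun t : ℝ => rsq c ((s, a, w) + t • (σ, b, z))) D 0 := by
    have e2 : (fun t : ℝ => rsq c ((s, a, w) + t • (σ, b, z))) = fun t : ℝ =>
        (a - c + t * b) ^ 2 + (w.re + t * z.re) ^ 2 + (w.im + t * z.im) ^ 2 := by
      ext t
      rw [rsq_eq]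
      simp
      ring
    rw [e2]
    have h3 := (((line_deriv (a - c) b).pow 2).add ((line_deriv w.re z.re).pow 2)).add
      ((line_deriv w.im z.im).pow 2)
    refine h3.congr_deriv ?_
    simp only [zero_mul, add_zero, hD]
    ring
  have hq : HasDerivAt (fun t : ℝ => f (rsq c ((s, a, w) + t • (σ, b, z))))
      (deriv f (rsq c (s, a, w)) * D) 0 := by
    have h2 : HasDerivAt f (deriv f (rsq c (s, a, w)))
        (rsq c (((s, a, w) : R4) + (0 : ℝ) • ((σ, b, z) : R4))) := by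
      rw [hline0]
      exact hf.hasDeriv _
    exact h2.comp (0 : ℝ) hR
  have hq2 : HasDerivAt (fun t : ℝ => f (rsq c ((s, a, w) + t • (σ, b, z)))) 0 0 := by
    have h2 : HasFDerivAt (rsq c) (fderiv ℝ (rsq c) (rad f c (s, a, w)))
        (rad f c (((s, a, w) : R4) + (0 : ℝ) • ((σ, b, z) : R4))) := by
      rw [hline0]
      exact ((rsq_contDiff c).differentiable (by simp) _).hasFDerivAt
    have hc' : HasDerivAt (fun t : ℝ => rad f c ((s, a, w) + t • (σ, b, z))) 0 0 := by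
      simp only [e1]
      exact hc
    have h3 := h2.comp_hasDerivAt (0 : ℝ) hc'
    rw [map_zero] at h3
    refine h3.congr_of_eventuallyEq ?_
    have h4 : ∀ᶠ t : ℝ in 𝓝 0, ((s, a, w) : R4) + t • ((σ, b, z) : R4) ∈
        {p : R4 | 0 < rsq c p} := by
      have h5 : ContinuousAt (fun t : ℝ => ((s, a, w) : R4) + t • ((σ, b, z) : R4)) 0 :=
        hline.continuousAt
      apply h5.eventually_mem
      rw [hline0]
      exact hnhd
    filter_upwards [h4] with t ht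
    exact (rsq_rad hf c _ ht).symm
  have hD0 : D = 0 := by
    have h2 := hq.unique hq2
    rcases mul_eq_zero.1 h2 with h3 | h3
    · exact absurd h3 (hf.pos _).ne'
    · exact h3
  have hR0 : rsq c (s, a, w) = (a - c) ^ 2 + w.re ^ 2 + w.im ^ 2 := rfl
  have hμ0 : μ = 0 := by
    have h2 : μ * rsq c (s, a, w) = 0 := by
      have h3 : (μ * (a - c) + m * b) * (a - c) + (μ * w.re + m * z.re) * w.re +
          (μ * w.im + m * z.im) * w.im = μ * rsq c (s, a, w) + m * D / 2 := by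
        rw [hR0, hD]
        ring
      rw [hb, hre, him, hD0] at h3
      linarith
    rcases mul_eq_zero.1 h2 with h3 | h3
    · exact h3
    · exact absurd h3 hp.ne'
  have key : ∀ x y : ℝ, μ * x + m * y = 0 → y = 0 := by
    intro x y h
    rw [hμ0, zero_mul, zero_add] at h
    rcases mul_eq_zero.1 h with h3 | h3
    · exact absurd h3 hm0.ne'
    · exact h3
  have hb0 := key _ _ hb
  have hz : z = 0 := Complex.ext (key _ _ hre) (key _ _ him)
  rw [hσ, hb0, hz]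
  rfl

theorem rad_inj (hf : Prf f) (c : ℝ) :
    InjOn (rad f c) {p : R4 | 0 < rsq c p} := by
  intro p hp p' hp' h
  have hp : 0 < rsq c p := hp
  have hp' : 0 < rsq c p' := hp'
  have h2 : rsq c p = rsq c p' := by
    apply hf.mono.injective
    rw [← rsq_rad hf c p hp, ← rsq_rad hf c p' hp', h]
  have h3 : mf f c p = mf f c p' := by
    rw [mf, mf, h2]
  have hm := mf_pos hf c p' hp'
  rw [rad_eq, rad_eq, h3] at h
  obtain ⟨s, a, w⟩ := p
  obtain ⟨s', a', w'⟩ := p'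
  simp only [Prod.mk.injEq] at h
  obtain ⟨h4, h5, h6⟩ := h
  have h7 : mf f c (s', a', w') * (a - c) = mf f c (s', a', w') * (a' - c) := by linarith
  have h8 := mul_left_cancel₀ hm.ne' h7
  have h9 : ((mf f c (s', a', w') : ℝ) : ℂ) ≠ 0 := by exact_mod_cast hm.ne'
  have h10 := mul_left_cancel₀ h9 h6
  have h11 : a = a' := by linarith
  rw [h4, h10, h11]

/-! ### the profile `qe δ` -/

theorem qe_prf {δ : ℝ} (h0 : 0 < δ) (h1 : δ < 1) : Prf (qe δ) := by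
  have h2 : ContDiff ℝ ∞ (fun q : ℝ => q + δ) := contDiff_id.add contDiff_const
  refine ⟨((R2.qq_contDiff m_R0 δ).comp h2).sub contDiff_const, fun q => ?_, fun q => ?_⟩
  · have h3 := ((R2.qq_deriv m_R0 δ h0 (q + δ)).comp_add_const q δ).sub_const δ
    have h4 : deriv (qe δ) q = _ := h3.deriv
    rw [h4]
    exact R2.qq_deriv_pos δ h0 h1 _
  · have h3 := R2.qq_ge m_R0 δ h0 h1 (q + δ)
    unfold qe
    linarith

theorem qe_eq {δ : ℝ} (h0 : 0 < δ) {q : ℝ} (hq : 1 / 25 - δ ≤ q) : qe δ q = q := by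
  unfold qe
  rw [R2.qq_eq m_R0 δ h0 (q + δ) (by linarith)]
  ring

theorem qe_low {δ : ℝ} (h0 : 0 < δ) (h1 : δ < 1 / 100) {q : ℝ} (hq : 0 ≤ q) :
    1 / 25 - 3 * δ ≤ qe δ q := by
  have h2 := m_R0.2.2.2.2.1 ((1 / 25 - (q + δ)) / δ)
  have h3 : (1 - δ) * δ * ((1 / 25 - (q + δ)) / δ - 1) ≤
      (1 - δ) * δ * ramp ((1 / 25 - (q + δ)) / δ) :=
    mul_le_mul_of_nonneg_left h2 (mul_nonneg (by linarith) h0.le)
  have h4 : (1 - δ) * δ * ((1 / 25 - (q + δ)) / δ - 1) = (1 - δ) * (1 / 25 - (q + δ) - δ) := by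
    field_simp
  rw [h4] at h3
  have h5 : qe δ q = q + (1 - δ) * δ * ramp ((1 / 25 - (q + δ)) / δ) := by
    simp only [qe, qq]
    ring
  rw [h5]
  have h6 : 0 ≤ δ * q := mul_nonneg h0.le hq
  nlinarith

theorem rade_eq_rad (δ c : ℝ) : rade δ c = rad (qe δ) c := rfl

theorem rade_id {δ : ℝ} (h0 : 0 < δ) (h1 : δ < 1 / 100) (c : ℝ) {p : R4}
    (hp : 1 / 25 - δ ≤ rsq c p) : rade δ c p = p := by
  have hpos : 0 < rsq c p := by linarith
  have h2 : mf (qe δ) c p = 1 := by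
    rw [mf, qe_eq h0 hp, div_self hpos.ne', Real.sqrt_one]
  rw [rade_eq_rad, rad_eq, h2]
  obtain ⟨s, a, w⟩ := p
  simp

theorem far0 {p : R4} (hp : rsq 0 p ≤ 1 / 25) : 16 / 25 ≤ rsq 1 p := by
  rw [rsq_eq] at hp ⊢
  have h1 := sq_nonneg p.2.2.re
  have h2 := sq_nonneg p.2.2.im
  have h3 : p.2.1 ≤ 1 / 5 := by nlinarith
  nlinarith

theorem far1 {p : R4} (hp : rsq 1 p ≤ 1 / 25) : 16 / 25 ≤ rsq 0 p := by
  rw [rsq_eq] at hp ⊢
  have h1 := sq_nonneg p.2.2.re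
  have h2 := sq_nonneg p.2.2.im
  have h3 : 4 / 5 ≤ p.2.1 := by nlinarith
  nlinarith

/-- the two cases -/
theorem Em_cases {δ : ℝ} (h0 : 0 < δ) (h1 : δ < 1 / 100) (p : R4) (hp : 0 < rsq 1 p) :
    (rsq 1 p ≤ 1 / 25 ∧ Em δ p = rade δ 1 p ∧ rsq 1 (rade δ 1 p) = qe δ (rsq 1 p) ∧
      rsq 1 (rade δ 1 p) ≤ 1 / 25) ∨ (1 / 25 < rsq 1 p ∧ rade δ 1 p = p ∧
      Em δ p = rade δ 0 p) := by
  rcases le_or_gt (rsq 1 p) (1 / 25) with h | h
  · left
    have hf := qe_prf h0 (by linarith : δ < 1)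
    have e1 : rsq 1 (rade δ 1 p) = qe δ (rsq 1 p) := rsq_rad hf 1 p hp
    have e2 : rsq 1 (rade δ 1 p) ≤ 1 / 25 := by
      rw [e1]
      have := hf.mono.monotone h
      rwa [qe_eq h0 (q := 1 / 25) (by linarith)] at this
    refine ⟨h, ?_, e1, e2⟩
    exact rade_id h0 h1 0 (by have := far1 e2; linarith)
  · right
    have e1 : rade δ 1 p = p := rade_id h0 h1 1 (by linarith)
    refine ⟨h, e1, ?_⟩
    unfold Em
    rw [e1]

end RE

open RE in
theorem m_RE : StRE := by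
  rintro δ ⟨h0, h1⟩
  have hf := qe_prf h0 (by linarith : δ < 1)
  have emb : ∀ c : ℝ, EmbOn 𝓘(ℝ, R4) (rade δ c) {p | 0 < rsq c p} := by
    intro c
    refine ⟨fun p hp => ?_, rad_inj hf c⟩
    rw [m_A0 R4 (rade δ c) p]
    exact ⟨⟨_, R2.isOpen_pos c, hp, rad_contDiffOn hf c⟩,
      fun v hv => rad_fderiv hf c p v hp hv⟩
  have hmap : ∀ p : R4, 0 < rsq 0 p → 0 < rsq 1 p → 0 < rsq 0 (rade δ 1 p) := by
    intro p hp0 hp1
    rcases Em_cases h0 h1 p hp1 with ⟨-, -, -, h⟩ | ⟨-, h, -⟩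
    · have := far1 h
      linarith
    · rw [h]
      exact hp0
  have hbd : ∀ (c : ℝ) (p : R4), 0 < rsq c p → rsq c p ≤ 1 / 25 →
      rsq c (rade δ c p) = qe δ (rsq c p) ∧ rsq c (rade δ c p) ≤ 1 / 25 := by
    intro c p hp hp2
    have e1 : rsq c (rade δ c p) = qe δ (rsq c p) := rsq_rad hf c p hp
    refine ⟨e1, ?_⟩
    rw [e1]
    have := hf.mono.monotone hp2
    rwa [qe_eq h0 (q := 1 / 25) (by linarith)] at this
  have hlow : ∀ (c : ℝ) (p : R4), 0 < rsq c p → 1 / 25 - 3 * δ ≤ rsq c (rade δ c p) := by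
    intro c p hp
    have e1 : rsq c (rade δ c p) = qe δ (rsq c p) := rsq_rad hf c p hp
    rw [e1]
    exact qe_low h0 h1 hp.le
  have hid0 : ∀ p : R4, rsq 0 p ≤ 1 / 25 → rade δ 1 p = p := fun p hp =>
    rade_id h0 h1 1 (by have := far0 hp; linarith)
  refine ⟨⟨?_, ?_⟩, ?_, fun p => rfl, fun s s' x => rfl, ?_, ?_, ?_, ?_, hf.mono,
    hf.smooth.continuous, fun q hq => qe_eq h0 hq, fun q hq => qe_low h0 h1 hq, ?_⟩
  · intro p hp
    exact IsLocalDiffeomorphAt.comp (hf := (emb 1).1 p hp.2) (hg := (emb 0).1 _ (hmap p hp.1 hp.2))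
  · intro p hp q hq hpq
    exact (emb 1).2 hp.2 hq.2 ((emb 0).2 (hmap p hp.1 hp.2) (hmap q hq.1 hq.2) hpq)
  · intro p hp0 hp1
    unfold Em
    rw [rade_id h0 h1 1 hp1, rade_id h0 h1 0 hp0]
  · intro p hp
    show _ * (_ * p.2.2) = (0 : ℂ)
    rw [hp, mul_zero, mul_zero]
  · intro p hp0 hp1
    rcases Em_cases h0 h1 p hp1 with ⟨-, h2, h3, h4⟩ | ⟨h2, h3, h4⟩
    · rw [h2]
      have := far1 h4
      exact ⟨by linarith, hlow 1 p hp1⟩
    · rw [h4]
      refine ⟨hlow 0 p hp0, ?_⟩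
      rcases le_or_gt (rsq 0 p) (1 / 25) with h5 | h5
      · have := far0 (hbd 0 p hp0 h5).2
        linarith
      · rw [rade_id h0 h1 0 (by linarith)]
        linarith
  · intro p hp hp2
    have e1 : Em δ p = rade δ 0 p := by
      unfold Em
      rw [hid0 p hp2]
    rw [e1]
    exact hbd 0 p hp hp2
  · intro p hp hp2
    rcases Em_cases h0 h1 p hp with ⟨-, h2, h3, h4⟩ | ⟨h2, -, -⟩
    · rw [h2]
      exact h4
    · linarith
  · intro X hX hQ
    have hQ1 : 1 / 100 ≤ rsq 0 X := by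
      rw [hQ]
      exact hf.ge _
    have hQpos : 0 < rsq 0 X := by linarith
    have hnsq : rsq 0 X = X.2.1 ^ 2 + X.2.2.re ^ 2 + X.2.2.im ^ 2 := by
      rw [R2.rsq_eq, sub_zero]
    set κ : ℝ := √((1 / 100) / rsq 0 X) with hκ
    have hκpos : 0 < κ := Real.sqrt_pos.2 (by positivity)
    have hκ2 : κ ^ 2 * rsq 0 X = 1 / 100 := by
      rw [hκ, Real.sq_sqrt (by positivity), div_mul_cancel₀ _ hQpos.ne']
    refine ⟨κ • X.2, ?_, ?_, ?_⟩
    · have e1 : nsq (κ • X.2) = κ ^ 2 * rsq 0 X := by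
        rw [hnsq]
        simp only [nsq, Prod.smul_fst, Prod.smul_snd, smul_eq_mul, Complex.smul_re, Complex.smul_im]
        ring
      rw [e1, hκ2]
    · have e0 : rsq 0 ((1 / 2, κ • X.2) : R4) = 1 / 100 := by
        rw [← hκ2, hnsq, R2.rsq_eq]
        simp only [Prod.smul_fst, Prod.smul_snd, smul_eq_mul, Complex.smul_re, Complex.smul_im]
        ring
      have e1 : Em δ (1 / 2, κ • X.2) = rade δ 0 (1 / 2, κ • X.2) := by
        unfold Em
        rw [hid0 _ (by rw [e0]; norm_num)]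
      have e2 : mf (qe δ) 0 ((1 / 2, κ • X.2) : R4) * κ = 1 := by
        rw [mf, e0, ← hQ, hκ, ← Real.sqrt_mul (by positivity)]
        have : rsq 0 X / (1 / 100) * (1 / 100 / rsq 0 X) = 1 := by
          field_simp
        rw [this, Real.sqrt_one]
      rw [e1, rade_eq_rad, rad_eq]
      refine Prod.ext hX.symm (Prod.ext ?_ ?_)
      · show 0 + mf (qe δ) 0 ((1 / 2, κ • X.2) : R4) * (κ * X.2.1 - 0) = X.2.1
        rw [zero_add, sub_zero, ← mul_assoc, e2, one_mul]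
      · show ((mf (qe δ) 0 ((1 / 2, κ • X.2) : R4) : ℝ) : ℂ) * (κ • X.2.2) = X.2.2
        rw [Complex.real_smul, ← mul_assoc, ← Complex.ofReal_mul, e2, Complex.ofReal_one, one_mul]
    · intro hre h
      have h2 : κ * X.2.2.re = 0 := by
        have : (κ • X.2).2.re = κ * X.2.2.re := by
          simp only [Prod.smul_snd, Complex.smul_re, smul_eq_mul]
        rw [← this]
        exact h
      rcases mul_eq_zero.1 h2 with h3 | h3
      · exact hκpos.ne' h3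
      · exact hre h3

end Pool.Agent.Helper34.BI


end

/-! ## Helper27.BI.H.StH2 -/

section

/-!
# Project BI, stage 3 (H), parts 0 and 2: the implantation class of a germ as the class of a loop of arcs

Model coordinates `p = (s, x)`, `x` in three-space.  The fixed cuff is `sph 1`.  `G = F ∘ sq ε` is an embedding of the
region `K3 δ`.  The wall is `G '' wallS δ`, a thick shell around the fixed cuff.  The arcs start and end on the wall; the
base arc is the finger `s ↦ G (s, z0 s)`, the loop of arcs is `s ↦ G (s, zq q s)`; it sweeps out a sphere around the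
first hole.
-/

set_option autoImplicit false

open scoped Manifold ContDiff Topology ComplexConjugate
open Set Filter Pool.Agent.Helper65.Barb Pool.Agent.Helper18.BI
open Pool.Agent.Helper70.BI (I4 NearEq)
open Pool.Agent.Helper27.BI (e1 barPath TIso IsPush StCh StSpin)
open Pool.Agent.Helper34.BI (rade)

namespace Pool.Agent.Helper27.H

/-- the length of the finger -/
noncomputable def bfin (s : ℝ) : ℝ := 27 / 100 * (step (5 * s - 1 / 2) * step (9 / 2 - 5 * s))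

/-- the finger -/
noncomputable def z0 (s : ℝ) : R3 := (1 - bfin s) • e1

/-- the loop of fingers -/
noncomputable def zq (q s : ℝ) : R3 := (1 - bfin s) • barPath () q (10 * s - 9 / 2)

/-- the wall -/
def wallS (δ : ℝ) : Set R4 :=
  {p | 0 ≤ p.1 ∧ p.1 ≤ 1 ∧ 1 / 25 - 3 * δ ≤ rsq 1 p ∧ rsq 1 p ≤ 1 / 25 - δ}

/-- the region where the germs are defined -/
def K3 (δ : ℝ) : Set R4 := {p | p ∈ ball4 ∧ 1 / 25 ≤ rsq 0 p ∧ 1 / 25 - 3 * δ ≤ rsq 1 p}

/-- the region between the wall and the radius `1/3`, which contains the finger -/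
def Dreg (δ : ℝ) : Set R4 := {p | 0 ≤ p.1 ∧ p.1 ≤ 1 ∧ 1 / 25 - δ ≤ rsq 1 p ∧ rsq 1 p ≤ 1 / 9}

/-- the support of the pushes of the loop of fingers -/
def SL : Set R4 :=
  {p | 9 / 20 ≤ p.1 ∧ p.1 ≤ 11 / 20 ∧ (71 / 100) ^ 2 ≤ rsq 0 p ∧ rsq 0 p ≤ (3 / 4) ^ 2}

/-- **BFIN.**  Elementary properties of the finger function. -/
def StBFIN : Prop :=
  ContDiff ℝ ∞ bfin ∧ (∀ s, 0 ≤ bfin s ∧ bfin s ≤ 27 / 100) ∧
  (∀ s ∈ Icc (3 / 10 : ℝ) (7 / 10), bfin s = 27 / 100) ∧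
  (∀ s, (s ≤ 1 / 10 ∨ 9 / 10 ≤ s) → bfin s = 0) ∧
  ∀ δ ∈ Ioo (0 : ℝ) (1 / 100), ∃ s₀ ∈ Ioo (1 / 10 : ℝ) (3 / 10), ∃ s₁ ∈ Ioo (7 / 10 : ℝ) (9 / 10),
    bfin s₀ ^ 2 = 1 / 25 - δ ∧ bfin s₁ ^ 2 = 1 / 25 - δ ∧
    (∀ s ∈ Ioo s₀ s₁, 1 / 25 - δ < bfin s ^ 2) ∧ ∀ s, s ∉ Ioo s₀ s₁ → bfin s ^ 2 ≤ 1 / 25 - δ

/-- `T` pushes the vertical line over `e1` to the finger, `T'` is the inverse. -/
structure FingOk (T T' : R4 → R4) : Prop where
  smooth : ContDiff ℝ ∞ T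
  smooth' : ContDiff ℝ ∞ T'
  left : ∀ x, T' (T x) = x
  right : ∀ x, T (T' x) = x
  tube : ∀ (s : ℝ) (y : R3), nsq y ≤ (1 / 100) ^ 2 → T (s, e1 + y) = (s, z0 s + y)
  level : ∀ p, (T p).1 = p.1
  out : ∀ (s : ℝ) (x : R3), (s ≤ 1 / 10 ∨ 9 / 10 ≤ s) → T (s, x) = (s, x)
  far : ∀ p, (3 / 10) ^ 2 ≤ rsq 1 p → T p = p

/-- the pushes of the loop of fingers -/
structure LamOk (F : DFam 𝓘(ℝ, R4) R4) : Prop where
  zero : ∀ x, F.f (0, x) = x
  tube : ∀ (t s : ℝ) (y : R3), nsq y ≤ (1 / 100) ^ 2 →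
    F.f (t, (s, z0 s + y)) = (s, zq (step t) s + y)
  supp : ∀ t p, p ∉ SL → F.f (t, p) = p

/-- **FING.** -/
def StFING : Prop :=
  ∃ (T T' : R4 → R4) (F : DFam 𝓘(ℝ, R4) R4), FingOk T T' ∧ LamOk F ∧
    TIso {p | rsq 0 p ≤ 1 / 25} (1 / 100) (fun (_ : Unit) _ => e1) (fun _ _ => e1) barMap
      (fun p => T' (F.f (1, T p)))

/-- the retraction of the finger, in the model: for `p` off the finger the point is in `K3 δ` -/
noncomputable def e0 (δ : ℝ) (T' : R4 → R4) (p : R4) : R4 := rade δ 1 (T' p)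

/-- MODULE EHAT.  The complement of the wall and the base arc is embedded in `R4`, by retracting the finger.

Proof.  Write `e₀ = e0 δ T'`, `D = Dreg δ` (compact), `W = wallS δ`, `K = K3 δ`.  `D ⊆ K`, `W ⊆ K` (for `rsq 1 p ≤ 1/9` the
first space coordinate is `≥ 2/3`, so `rsq 0 p ≥ 1/25`; `ball4`: `rsq 0 p ≤ (4/3)^2`).
Facts about `rade δ 1` from `Pool/Agent/Helper34/BI/M_RE.lean`, namespace `RE` (`rade_eq_rad`, `rade_id`, `rsq_rad`, `qe_prf`, `qe_eq`, `qe_low`,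
`rad_inj`, `rad_contDiffOn`, `rad_fderiv`).
(1) If `p ∈ D` and `p` is not on the finger (`p ≠ (s, z0 s)` for all `s` with `1/25 - δ < bfin s ^ 2`) and `1/25 - δ < rsq 1 p`, then `rsq 1 (T' p) > 0`:
otherwise `T' p = (s, e1)`, `p = T (s, e1) = (s, z0 s)` (`tube` with `y = 0`) and `rsq 1 p = bfin s ^ 2`.
(2) For such `p`: `e₀ p ∈ K3 δ`, more precisely `0 ≤ (e₀ p).1 ≤ 1` (`T'` and `rade` preserve the level), `1/25 - 3 δ ≤ rsq 1 (e₀ p)`
(`qe_low`) and `rsq 1 (e₀ p) ≤ 1/9` (`rsq 1 (T' p) ≤ 1/9`: otherwise `T' p` is fixed by `T` (`far`), so `p = T' p`; `qe δ` is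
monotone and the identity on `[1/25 - δ, ∞)`).  So `e₀ p ∈ D` or `e₀ p ∈ W`.
(3) `e₀ p = p` if `rsq 1 p ≥ (3/10)^2` (`far`, `left`, `rade_id`), and if `1/25 - δ ≤ rsq 1 p` and (`p.1 ≤ 1/10` or `9/10 ≤ p.1`) (`out`).
(4) `e₀` is a local diffeomorphism at `p` as in (1) (`A0`, chain rule; or `T'` is a diffeomorphism and `rade` is a local one, `IsLocalDiffeomorphAt.comp`),
and injective on the set of these `p` (`T'` injective, `rad_inj` on `rsq 1 > 0`).
(5) Let `y` be in the set `S = (G '' W)ᶜ \ finger`.  If `y = G p`, `p ∈ D`, then `1/25 - δ < rsq 1 p` (otherwise `p ∈ W`), `p` is as in (1),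
`imp G D e₀ y = G (e₀ p)` (`imp_image`).  Let `N` be an open set containing `K` on which `G` is injective and a local diffeomorphism (`StA1`, `m_A1`;
`K` is compact).  For `q` near `p`: `imp G D e₀ (G q) = G (e₀ q)`: clear if `q ∈ D`; if `q ∉ D` then `q.1 < 0`, `q.1 > 1` or `rsq 1 q > 1/9`
(`rsq 1 q > 1/25 - δ` near `p`), so `e₀ q = q` by (3) and `G q ∉ G '' D` (injectivity on `N`; `imp_off`).  So near `y` the map is
`G ∘ e₀ ∘ G⁻¹`, a local diffeomorphism at `y` (`G⁻¹` from the partial diffeomorphism).  If `y ∉ G '' D` (compact), the map is the identity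
near `y`.
(6) Injective on `S`: two points of `G '' D`: by injectivity of `G` on `K` and (4).  `y = G p`, `p ∈ D`, `y' ∉ G '' D`, with the same image:
`y' = G (e₀ p)`, and `e₀ p ∈ D` or `e₀ p ∈ W` by (2): both impossible for `y' ∈ S`. -/
def StEHAT : Prop :=
  ∀ (T T' G : R4 → R4) (δ : ℝ), FingOk T T' → δ ∈ Ioo (0 : ℝ) (1 / 100) → EmbOn I4 G (K3 δ) →
    EmbOn I4 (imp G (Dreg δ) (e0 δ T'))
      ((G '' wallS δ)ᶜ \ (fun s => G (s, z0 s)) '' {s | 1 / 25 - δ < bfin s ^ 2})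

/-- the loop of arcs of the germ `G`, relative to the base arc of `D` -/
noncomputable def loopc (D : ArcD) (G : R4 → R4) (q s : ℝ) : R4 :=
  open Classical in if s ∈ Icc (3 / 10 : ℝ) (7 / 10) then G (s, zq q s) else D.c s

/-- the arc datum of an embedding of `K3 δ` -/
structure HatOk (δ : ℝ) (T' G : R4 → R4) (D : ArcD) : Prop where
  U : D.U = (G '' wallS δ)ᶜ
  J : D.J = fun p => G (p.1, z0 p.1 + p.2)
  e : D.e = imp G (Dreg δ) (e0 δ T')
  m₀ : D.m₀ = 9 / 20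
  m₁ : D.m₁ = 11 / 20
  s₀ : D.s₀ ∈ Ioo (1 / 10 : ℝ) (3 / 10)
  s₁ : D.s₁ ∈ Ioo (7 / 10 : ℝ) (9 / 10)
  b₀ : bfin D.s₀ ^ 2 = 1 / 25 - δ
  b₁ : bfin D.s₁ ^ 2 = 1 / 25 - δ
  b : ∀ s ∈ Ioo D.s₀ D.s₁, 1 / 25 - δ < bfin s ^ 2
  b' : ∀ s, s ∉ Ioo D.s₀ D.s₁ → bfin s ^ 2 ≤ 1 / 25 - δ

/-- MODULE HARC: the arc datum exists. -/
def StHARC : Prop :=
  ∀ (T T' G : R4 → R4) (δ : ℝ), FingOk T T' → δ ∈ Ioo (0 : ℝ) (1 / 100) → EmbOn I4 G (K3 δ) →
    ∃ D, HatOk δ T' G D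

/-- MODULE HCLS: the class of the loop. -/
def StHCLS : Prop :=
  ∀ (T T' G G' φ : R4 → R4) (F : DFam 𝓘(ℝ, R4) R4) (δ : ℝ) (D : ArcD), FingOk T T' → LamOk F →
    TIso {p | rsq 0 p ≤ 1 / 25} (1 / 100) (fun (_ : Unit) _ => e1) (fun _ _ => e1) barMap
      (fun p => T' (F.f (1, T p))) → δ ∈ Ioo (0 : ℝ) (1 / 100) → EmbOn I4 G (K3 δ) →
    HatOk δ T' G D → EmbOn I4 G' (K3 δ) → NearEq G G' {p | p ∈ K3 δ ∧ rsq 1 p ≤ 1 / 9} →
    CIsot I4 φ (imp G' bsupp barMap) →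
    D.Cls (loopc D G') φ ∧ ∀ q ∈ Icc (0 : ℝ) 1, InjOn (loopc D G' q) (Icc D.s₀ D.s₁) ∧
      ∀ s ∈ Icc D.s₀ D.s₁, deriv (loopc D G' q) s ≠ 0

/-- **HAT** (parts 0 and 2): two germs which agree near the fixed cuff and the outer part of the bar. -/
def StHAT : Prop :=
  ∀ (F F' φ φ' : R4 → R4) (V : Set R4), EmbOn I4 F SP → EmbOn I4 F' SP → IsOpen V →
    sph 1 ∪ Pool.Agent.Helper18.BI.H.neckE ⊆ V → EqOn F F' V → Thin I4 F φ → Thin I4 F' φ' →
    ∀ κ > 0, ∃ ε₀ > 0, ∀ ε ∈ Ioo 0 ε₀, ∃ D : ArcD, D.m₀ = 9 / 20 ∧ D.m₁ = 11 / 20 ∧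
      D.s₀ < 3 / 10 ∧ 7 / 10 < D.s₁ ∧ (∀ x ∉ D.U, ∃ y ∈ F '' sph 1, dist x y < κ) ∧
      (∀ s ∈ Icc (3 / 10 : ℝ) (7 / 10), D.c s = F (sq ε (s, z0 s))) ∧
      D.Cls (loopc D (fun p => F (sq ε p))) φ ∧ D.Cls (loopc D (fun p => F' (sq ε p))) φ' ∧
      ∀ q ∈ Icc (0 : ℝ) 1,
        (InjOn (loopc D (fun p => F (sq ε p)) q) (Icc D.s₀ D.s₁) ∧
          ∀ s ∈ Icc D.s₀ D.s₁, deriv (loopc D (fun p => F (sq ε p)) q) s ≠ 0) ∧
        InjOn (loopc D (fun p => F' (sq ε p)) q) (Icc D.s₀ D.s₁) ∧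
          ∀ s ∈ Icc D.s₀ D.s₁, deriv (loopc D (fun p => F' (sq ε p)) q) s ≠ 0

end Pool.Agent.Helper27.H


end

/-! ## Helper27.BI.H.Ch5 -/

section

/-!
# Project BI, stage 3 (H): chains in three-space, with additional properties

As `StCh`, and moreover: the maps are level preserving, and nothing moves in levels where the arcs do
not move.
-/

set_option autoImplicit false

open scoped Manifold ContDiff Topology ComplexConjugate
open Set Pool.Agent.Helper65.Barb Pool.Agent.Helper18.BI Pool.Agent.Helper27.BI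

namespace Pool.Agent.Helper27.H

section
variable {ι : Type} [Fintype ι]

theorem Q_fst {ρ : ℝ} {Γ : ι → ℝ → ℝ → ℝ → R3} {N : ℕ} {a b : ℝ × ℝ} (p : R4) (k : ℕ) :
    (CH.Q ρ Γ N a b k p).1 = p.1 := by
  induction k with
  | zero => rfl
  | succ k ih =>
    show (CH.ds ρ Γ (CH.ipc N a b k) (CH.ipc N a b (k + 1)) (CH.Q ρ Γ N a b k p)).1 = p.1
    exact ih

theorem Q_static {ρ : ℝ} (hρ : 0 < ρ) {Γ : ι → ℝ → ℝ → ℝ → R3} {N : ℕ} {a b : ℝ × ℝ} {s : ℝ}
    {x : R3} (k : ℕ) (hk : k ≤ N)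
    (h : ∀ i, ∀ m < N, Γ i (CH.ipc N a b (m + 1)).1 (CH.ipc N a b (m + 1)).2 s =
        Γ i (CH.ipc N a b m).1 (CH.ipc N a b m).2 s) :
    CH.Q ρ Γ N a b k (s, x) = (s, x) := by
  induction k with
  | zero => rfl
  | succ k ih =>
    show CH.ds ρ Γ (CH.ipc N a b k) (CH.ipc N a b (k + 1)) (CH.Q ρ Γ N a b k (s, x)) = (s, x)
    rw [ih (by omega)]
    exact CH.ds_fix hρ (Or.inl fun i => h i k (by omega))

end

/-- Chains, with additional properties. -/
def StCh5 : Prop :=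
  ∀ (ι : Type) (_ : Fintype ι) (O : Set R4) (ρ : ℝ) (Γ : ι → ℝ → ℝ → ℝ → R3), 0 < ρ →
    SqOk O ρ Γ →
    ∃ P : ℝ × ℝ → ℝ × ℝ → R4 → R4, (∀ q x, P q q x = x) ∧
      ∀ a b : ℝ → ℝ × ℝ, ContDiff ℝ ∞ a → ContDiff ℝ ∞ b →
        (∀ t, a t ∈ Icc (0 : ℝ) 1 ×ˢ Icc (0 : ℝ) 1) →
        (∀ t, b t ∈ Icc (0 : ℝ) 1 ×ˢ Icc (0 : ℝ) 1) →
        ∃ F : DFam 𝓘(ℝ, R4) R4, (∀ t x, F.f (t, x) = P (a t) (b t) x) ∧ SuppB F ∧
          (∀ t, ∀ x ∈ O, F.f (t, x) = x) ∧
          (∀ t i s y, nsq y ≤ ρ ^ 2 →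
            F.f (t, (s, Γ i (a t).1 (a t).2 s + y)) = (s, Γ i (b t).1 (b t).2 s + y)) ∧
          (∀ t s x, (∀ i, ∀ τ ∈ Icc (0 : ℝ) 1, (2 * ρ) ^ 2 ≤
              nsq (x - Γ i ((a t).1 + τ * ((b t).1 - (a t).1))
                ((a t).2 + τ * ((b t).2 - (a t).2)) s)) →
            F.f (t, (s, x)) = (s, x)) ∧
          (∀ t p, (F.f (t, p)).1 = p.1) ∧
          ∀ t s, (∀ i, ∀ τ ∈ Icc (0 : ℝ) 1,
              Γ i ((a t).1 + τ * ((b t).1 - (a t).1)) ((a t).2 + τ * ((b t).2 - (a t).2)) s =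
                Γ i (a t).1 (a t).2 s) → ∀ x, F.f (t, (s, x)) = (s, x)

open CH in
/-- **CH5.** -/
theorem m_CH5 (pert : StPert) : StCh5 := by
  intro ι _ O ρ Γ hρ hΓ
  obtain ⟨C, hC0, hC⟩ := exists_lip hρ
  set δ : ℝ := 1 / (2 * C * (Fintype.card ι + 1)) with hδdef
  have hδ0 : 0 < δ := by positivity
  have hδ : Fintype.card ι * (C * δ) ≤ 1 / 2 := by
    have h1 : (Fintype.card ι + 1 : ℝ) * (C * δ) = 1 / 2 := by
      rw [hδdef]; field_simp
    have h2 : 0 < C * δ := by positivity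
    nlinarith
  obtain ⟨N, hN, hstep⟩ := exists_N hΓ hδ0
  have hN' : (N : ℝ) ≠ 0 := by exact_mod_cast hN.ne'
  refine ⟨fun a b => Q ρ Γ N a b N, ?_, ?_⟩
  · rintro q ⟨s, x⟩
    apply Q_fix hρ N le_rfl (Or.inl ?_)
    intro i m
    have : ∀ m, ipc N q q m = q := by
      intro m
      unfold ipc
      simp
    rw [this, this]
  intro a b ha hb ha' hb'
  obtain ⟨F, hF⟩ := exists_Q pert hΓ hC hC0 hδ ha hb
    (fun t s i k hk => hstep (a t) (ha' t) (b t) (hb' t) s i k hk) N le_rfl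
  have hout : ∀ t s x, (s ≤ 0 ∨ 1 ≤ s) → F.f (t, (s, x)) = (s, x) := by
    intro t s x hs
    rw [hF]
    apply Q_fix hρ N le_rfl (Or.inl ?_)
    intro i m
    obtain ⟨z, hz⟩ := hΓ.ends i
    rw [hz _ _ _ hs, hz _ _ _ hs]
  have hfix : ∀ t s x, (∀ i, ∀ τ ∈ Icc (0 : ℝ) 1, (2 * ρ) ^ 2 ≤
      nsq (x - Γ i ((a t).1 + τ * ((b t).1 - (a t).1))
        ((a t).2 + τ * ((b t).2 - (a t).2)) s)) → F.f (t, (s, x)) = (s, x) := by
    intro t s x h
    rw [hF]
    apply Q_fix hρ N le_rfl (Or.inr ?_)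
    intro i m hm
    exact h i _ (div_mem hm)
  refine ⟨F, hF, ?_, ?_, ?_, hfix, ?_, ?_⟩
  · refine ⟨⋃ i, (fun z : (ℝ × ℝ × ℝ) × R3 => ((z.1.2.2, Γ i z.1.1 z.1.2.1 z.1.2.2 + z.2) : R4)) ''
      ((Icc (0 : ℝ) 1 ×ˢ (Icc (0 : ℝ) 1 ×ˢ Icc (0 : ℝ) 1)) ×ˢ {y : R3 | nsq y ≤ (2 * ρ) ^ 2}),
      ?_, ?_, ?_⟩
    · apply isCompact_iUnion
      intro i
      apply IsCompact.image
      · exact (isCompact_Icc.prod (isCompact_Icc.prod isCompact_Icc)).prod (isCompact_nsq _)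
      · have h1 : Continuous (fun z : (ℝ × ℝ × ℝ) × R3 => Γ i z.1.1 z.1.2.1 z.1.2.2) :=
          (hΓ.smooth i).continuous.comp continuous_fst
        exact (continuous_fst.snd.snd).prodMk (h1.add continuous_snd)
    · rintro p hp
      obtain ⟨i, ⟨⟨u, q, s⟩, y⟩, ⟨⟨hu, hq, hs⟩, hy⟩, rfl⟩ := mem_iUnion.1 hp
      have hopen : IsOpen {p : R4 | -1 < p.1 ∧ p.1 < 2 ∧ rsq 0 p < (9 / 2) ^ 2} := by
        apply IsOpen.inter (isOpen_lt continuous_const continuous_fst)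
        apply IsOpen.inter (isOpen_lt continuous_fst continuous_const)
        exact isOpen_lt (continuous_rsq 0) continuous_const
      have hsub : {p : R4 | -1 < p.1 ∧ p.1 < 2 ∧ rsq 0 p < (9 / 2) ^ 2} ⊆ ball4 :=
        fun p hp => ⟨hp.1.le, hp.2.1.le, hp.2.2.le⟩
      apply interior_maximal hsub hopen
      have h1 := hΓ.inside i u hu q hq s hs (Γ i u q s + y) (by
        rw [add_sub_cancel_left]; exact hy)
      refine ⟨?_, ?_, ?_⟩
      · show -1 < s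
        linarith [hs.1]
      · show s < 2
        linarith [hs.2]
      · show nsq ((Γ i u q s + y).1 - 0, (Γ i u q s + y).2) < _
        rw [sub_zero]
        exact h1
    · rintro t ⟨s, x⟩ hx
      by_cases hs : s ≤ 0 ∨ 1 ≤ s
      · exact hout t s x hs
      push Not at hs
      have hs' : s ∈ Icc (0 : ℝ) 1 := ⟨hs.1.le, hs.2.le⟩
      apply hfix
      intro i τ hτ
      by_contra hlt
      push Not at hlt
      apply hx
      have hm := ip_mem (ha' t) (hb' t) hτ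
      refine mem_iUnion.2 ⟨i, ⟨⟨⟨(a t).1 + τ * ((b t).1 - (a t).1),
        (a t).2 + τ * ((b t).2 - (a t).2), s⟩, x - Γ i ((a t).1 + τ * ((b t).1 - (a t).1))
        ((a t).2 + τ * ((b t).2 - (a t).2)) s⟩, ⟨⟨hm.1, hm.2, hs'⟩, hlt.le⟩, ?_⟩⟩
      show (s, _ + (x - _)) = (s, x)
      rw [add_sub_cancel]
  · rintro t ⟨s, x⟩ hx
    by_cases hs : s ≤ 0 ∨ 1 ≤ s
    · exact hout t s x hs
    push Not at hs
    have hs' : s ∈ Icc (0 : ℝ) 1 := ⟨hs.1.le, hs.2.le⟩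
    apply hfix
    intro i τ hτ
    have hm := ip_mem (ha' t) (hb' t) hτ
    exact hΓ.off i _ hm.1 _ hm.2 s hs' x hx
  · intro t i s y hy
    rw [hF]
    have h1 := Q_tube hρ hΓ (N := N) (a := a t) (b := b t)
      (fun m hm => ip_mem (ha' t) (hb' t) (div_mem hm)) (s := s) i hy N le_rfl
    have e0 : ipc N (a t) (b t) 0 = a t := by
      unfold ipc; simp
    have e1 : ipc N (a t) (b t) N = b t := by
      unfold ipc
      rw [div_self hN']; simp
    rw [e0, e1] at h1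
    exact h1
  · intro t p
    rw [hF]
    exact Q_fst p N
  · intro t s h x
    rw [hF]
    apply Q_static hρ N le_rfl
    intro i m hm
    have e : ∀ m ≤ N, Γ i (ipc N (a t) (b t) m).1 (ipc N (a t) (b t) m).2 s =
        Γ i (a t).1 (a t).2 s := fun m hm => h i _ (div_mem hm)
    rw [e (m + 1) (by omega), e m (by omega)]

/-- Existence of pushes along paths of arcs, with all additional properties. -/
theorem exists_push5 (hCh : StCh5) {ι : Type} [inst : Fintype ι] {O : Set R4} {ρ : ℝ}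
    {γ : ι → ℝ → ℝ → R3} (hρ : 0 < ρ) (h : SqOk O ρ (fun i _ q s => γ i q s)) :
    ∃ F : DFam 𝓘(ℝ, R4) R4, (∀ x, F.f (0, x) = x) ∧ SuppB F ∧ (∀ t, ∀ x ∈ O, F.f (t, x) = x) ∧
      (∀ t i s y, nsq y ≤ ρ ^ 2 → F.f (t, (s, γ i 0 s + y)) = (s, γ i (step t) s + y)) ∧
      (∀ t s x, (∀ i, ∀ q ∈ Icc (0 : ℝ) 1, (2 * ρ) ^ 2 ≤ nsq (x - γ i q s)) →
        F.f (t, (s, x)) = (s, x)) ∧ (∀ t p, (F.f (t, p)).1 = p.1) ∧
      ∀ t s, (∀ i, ∀ q ∈ Icc (0 : ℝ) 1, γ i q s = γ i 0 s) → ∀ x, F.f (t, (s, x)) = (s, x) := by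
  obtain ⟨P, hP, h1⟩ := hCh ι inst O ρ _ hρ h
  obtain ⟨F, hF, hs, hf, ht, hx, hl, hst⟩ := h1 (fun _ => (0, 0)) (fun t => (0, step t))
    contDiff_const (contDiff_const.prodMk contDiff_step) (fun t => by simp)
    (fun t => ⟨by simp, step_mem t⟩)
  have hm : ∀ t, ∀ τ ∈ Icc (0 : ℝ) 1, τ * step t ∈ Icc (0 : ℝ) 1 := by
    intro t τ hτ
    obtain ⟨h1, h2⟩ := step_mem t
    obtain ⟨h3, h4⟩ := hτ
    constructor <;> nlinarith
  refine ⟨F, fun x => ?_, hs, fun t x hx => hf t x hx, fun t i s y hy => ht t i s y hy,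
    fun t s x hh => hx t s x ?_, hl, fun t s hh => hst t s ?_⟩
  · rw [hF]
    simp only [Pool.Agent.Helper27.BI.step_zero]
    exact hP _ _
  · intro i τ hτ
    simp only [sub_zero, zero_add]
    exact hh i _ (hm t τ hτ)
  · intro i τ hτ
    simp only [sub_zero, zero_add]
    exact hh i _ (hm t τ hτ)

end Pool.Agent.Helper27.H


end

/-! ## Helper27.BI.H.Fing -/

section

/-!
# Project BI, stage 3 (H): the finger and the loop of fingers in the model
-/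

set_option autoImplicit false
set_option linter.unusedSectionVars false
set_option linter.unusedVariables false

open scoped Manifold ContDiff Topology ComplexConjugate
open Set Filter Pool.Agent.Helper65.Barb Pool.Agent.Helper18.BI
open Pool.Agent.Helper27.BI

namespace Pool.Agent.Helper27.H

theorem bfin_symm (s : ℝ) : bfin (1 - s) = bfin s := by
  unfold bfin
  rw [show 5 * (1 - s) - 1 / 2 = 9 / 2 - 5 * s by ring,
    show 9 / 2 - 5 * (1 - s) = 5 * s - 1 / 2 by ring, mul_comm (step (9 / 2 - 5 * s))]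

theorem contDiff_bfin : ContDiff ℝ ∞ bfin := by
  have h1 : ContDiff ℝ ∞ (fun s : ℝ => step (5 * s - 1 / 2)) :=
    contDiff_step.comp ((contDiff_const.mul contDiff_id).sub contDiff_const)
  have h2 : ContDiff ℝ ∞ (fun s : ℝ => step (9 / 2 - 5 * s)) :=
    contDiff_step.comp (contDiff_const.sub (contDiff_const.mul contDiff_id))
  exact contDiff_const.mul (h1.mul h2)

theorem bfin_nonneg (s : ℝ) : 0 ≤ bfin s := by
  have h1 := (step_mem (5 * s - 1 / 2)).1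
  have h2 := (step_mem (9 / 2 - 5 * s)).1
  unfold bfin
  positivity

theorem bfin_le (s : ℝ) : bfin s ≤ 27 / 100 := by
  have h1 := step_mem (5 * s - 1 / 2)
  have h2 := step_mem (9 / 2 - 5 * s)
  have h3 : step (5 * s - 1 / 2) * step (9 / 2 - 5 * s) ≤ 1 := mul_le_one₀ h1.2 h2.1 h2.2
  unfold bfin
  linarith

theorem bfin_mid {s : ℝ} (hs : s ∈ Icc (3 / 10 : ℝ) (7 / 10)) : bfin s = 27 / 100 := by
  unfold bfin
  rw [step_of_one_le (by linarith [hs.1]), step_of_one_le (by linarith [hs.2])]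
  norm_num

theorem bfin_out {s : ℝ} (hs : s ≤ 1 / 10 ∨ 9 / 10 ≤ s) : bfin s = 0 := by
  unfold bfin
  rcases hs with h | h
  · rw [step_of_nonpos (by linarith)]; ring
  · rw [step_of_nonpos (s := 9 / 2 - 5 * s) (by linarith)]; ring

theorem step_monotone : Monotone step := fun a b h => Real.smoothTransition.monotone h

theorem bfin_mono {s t : ℝ} (hst : s ≤ t) (ht : t ≤ 7 / 10) : bfin s ≤ bfin t := by
  unfold bfin
  rw [step_of_one_le (s := 9 / 2 - 5 * s) (by linarith),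
    step_of_one_le (s := 9 / 2 - 5 * t) (by linarith)]
  have := step_monotone (show 5 * s - 1 / 2 ≤ 5 * t - 1 / 2 by linarith)
  linarith

/-- **BFIN.** -/
theorem m_BFIN : StBFIN := by
  refine ⟨contDiff_bfin, fun s => ⟨bfin_nonneg s, bfin_le s⟩, fun s hs => bfin_mid hs,
    fun s hs => bfin_out hs, ?_⟩
  intro δ hδ
  have hc : IsCompact {s : ℝ | s ∈ Icc (1 / 10 : ℝ) (3 / 10) ∧ bfin s ^ 2 ≤ 1 / 25 - δ} :=
    isCompact_Icc.inter_right (isClosed_le (contDiff_bfin.continuous.pow 2) continuous_const)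
  have hne : {s : ℝ | s ∈ Icc (1 / 10 : ℝ) (3 / 10) ∧ bfin s ^ 2 ≤ 1 / 25 - δ}.Nonempty := by
    refine ⟨1 / 10, ⟨le_rfl, by norm_num⟩, ?_⟩
    rw [bfin_out (Or.inl le_rfl)]
    linarith [hδ.2]
  obtain ⟨s₀, ⟨hs₀, hb₀⟩, hmax⟩ := hc.exists_isGreatest hne
  have hmid : ∀ s ∈ Icc (3 / 10 : ℝ) (7 / 10), 1 / 25 - δ < bfin s ^ 2 := by
    intro s hs
    rw [bfin_mid hs]
    linarith [hδ.1]
  have hgt : ∀ s, s₀ < s → s ≤ 7 / 10 → 1 / 25 - δ < bfin s ^ 2 := by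
    intro s h1 h2
    rcases le_or_gt s (3 / 10) with h3 | h3
    · by_contra h4
      push Not at h4
      exact absurd (hmax ⟨⟨hs₀.1.trans h1.le, h3⟩, h4⟩) (not_le.2 h1)
    · exact hmid s ⟨h3.le, h2⟩
  have hs3 : s₀ ≠ 3 / 10 := by
    rintro rfl
    exact absurd hb₀ (not_le.2 (hmid _ ⟨le_rfl, by norm_num⟩))
  have hs3' : s₀ < 3 / 10 := lt_of_le_of_ne hs₀.2 hs3
  have heq : bfin s₀ ^ 2 = 1 / 25 - δ := by
    apply le_antisymm hb₀
    have h1 : Tendsto (fun s => bfin s ^ 2) (𝓝[>] s₀) (𝓝 (bfin s₀ ^ 2)) :=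
      ((contDiff_bfin.continuous.pow 2).tendsto s₀).mono_left nhdsWithin_le_nhds
    apply ge_of_tendsto h1
    filter_upwards [Ioo_mem_nhdsGT hs3'] with s hs
    exact (hgt s hs.1 (by linarith [hs.2])).le
  have hs1 : 1 / 10 < s₀ := by
    rcases hs₀.1.lt_or_eq with h | h
    · exact h
    · rw [← h, bfin_out (Or.inl le_rfl)] at heq
      linarith [hδ.2]
  have hlow : ∀ s ≤ s₀, bfin s ^ 2 ≤ 1 / 25 - δ := by
    intro s hs
    rw [← heq]
    have := bfin_mono hs (by linarith)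
    have h0 := bfin_nonneg s
    nlinarith
  refine ⟨s₀, ⟨hs1, hs3'⟩, 1 - s₀, ⟨by linarith, by linarith⟩, heq, by rw [bfin_symm, heq], ?_, ?_⟩
  · rintro s ⟨h1, h2⟩
    rcases le_or_gt s (7 / 10) with h3 | h3
    · exact hgt s h1 h3
    · rw [← bfin_symm]
      exact hgt _ (by linarith) (by linarith)
  · intro s hs
    rcases le_or_gt s s₀ with h | h
    · exact hlow s h
    · have h2 : 1 - s₀ ≤ s := by
        by_contra h3
        push Not at h3
        exact hs ⟨h, h3⟩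
      rw [← bfin_symm]
      exact hlow _ (by linarith)

theorem nsq_smul (c : ℝ) (x : R3) : nsq (c • x) = c ^ 2 * nsq x := by
  simp only [nsq, Prod.smul_fst, Prod.smul_snd, smul_eq_mul, Complex.real_smul, Complex.mul_re,
    Complex.mul_im, Complex.ofReal_re, Complex.ofReal_im]
  ring

theorem nsq_e1 : nsq e1 = 1 := by simp [nsq, e1]

theorem nsq_barPath (i : Unit) (q s : ℝ) : nsq (barPath i q s) = 1 := by
  unfold barPath
  rw [nsq_zarc_chi]
  ring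

theorem barPath_end (i : Unit) (q : ℝ) {s : ℝ} (h : s ≤ 0 ∨ 1 ≤ s) : barPath i q s = e1 :=
  zarc_end _ _ _ h (chi_end h)

/-- the arcs of the comparison of the two loops -/
noncomputable def gam (u q s : ℝ) : R3 :=
  (1 - step u * bfin s) • barPath () q ((1 - step u) * s + step u * (10 * s - 9 / 2))

theorem contDiff_gam : ContDiff ℝ ∞ (fun p : ℝ × ℝ × ℝ => gam p.1 p.2.1 p.2.2) := by
  have hu : ContDiff ℝ ∞ (fun p : ℝ × ℝ × ℝ => step p.1) := contDiff_step.comp contDiff_fst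
  have hq : ContDiff ℝ ∞ (fun p : ℝ × ℝ × ℝ => p.2.1) := contDiff_fst.comp contDiff_snd
  have hs : ContDiff ℝ ∞ (fun p : ℝ × ℝ × ℝ => p.2.2) := contDiff_snd.comp contDiff_snd
  have hb : ContDiff ℝ ∞ (fun p : ℝ × ℝ × ℝ => bfin p.2.2) := contDiff_bfin.comp hs
  have hτ : ContDiff ℝ ∞ (fun p : ℝ × ℝ × ℝ =>
      (1 - step p.1) * p.2.2 + step p.1 * (10 * p.2.2 - 9 / 2)) :=
    ((contDiff_const.sub hu).mul hs).add (hu.mul ((contDiff_const.mul hs).sub contDiff_const))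
  apply ContDiff.smul (contDiff_const.sub (hu.mul hb))
  exact contDiff_zarc (Real.contDiff_sin.comp (contDiff_const.mul hq)) (contDiff_chi.comp hτ) hq hτ

theorem gam_end {u q s : ℝ} (hs : s ≤ 0 ∨ 1 ≤ s) : gam u q s = e1 := by
  unfold gam
  obtain ⟨h1, h2⟩ := step_mem u
  rw [bfin_out (by rcases hs with h | h; exacts [Or.inl (by linarith), Or.inr (by linarith)]),
    barPath_end]
  · simp
  · rcases hs with h | h
    · left; nlinarith
    · right; nlinarith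

theorem gam_fac {u s : ℝ} : 1 - step u * bfin s ∈ Icc (73 / 100 : ℝ) 1 := by
  obtain ⟨h1, h2⟩ := step_mem u
  have h3 := bfin_nonneg s
  have h4 := bfin_le s
  constructor <;> nlinarith

theorem nsq_gam (u q s : ℝ) : nsq (gam u q s) = (1 - step u * bfin s) ^ 2 := by
  unfold gam
  rw [nsq_smul, nsq_barPath, mul_one]

theorem nsq_gam_ge (u q s : ℝ) : (73 / 100) ^ 2 ≤ nsq (gam u q s) := by
  rw [nsq_gam]
  have := (gam_fac (u := u) (s := s)).1
  nlinarith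

theorem nsq_gam_le (u q s : ℝ) : nsq (gam u q s) ≤ 1 ^ 2 := by
  rw [nsq_gam]
  obtain ⟨h1, h2⟩ := gam_fac (u := u) (s := s)
  nlinarith

theorem rsq0_eq (p : R4) : rsq 0 p = nsq p.2 := by
  unfold rsq
  rw [sub_zero]

theorem rsq1_eq (p : R4) : rsq 1 p = nsq (p.2 - e1) := by
  unfold rsq
  congr 1
  refine Prod.ext rfl ?_
  show p.2.2 = p.2.2 - 0
  rw [sub_zero]

/-- admissibility of systems of arcs at distance at least `73/100` from the origin -/
theorem sqOk_of {Γ : Unit → ℝ → ℝ → ℝ → R3}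
    (h1 : ContDiff ℝ ∞ (fun p : ℝ × ℝ × ℝ => Γ () p.1 p.2.1 p.2.2))
    (h2 : ∀ u q s : ℝ, (s ≤ 0 ∨ 1 ≤ s) → Γ () u q s = e1)
    (h3 : ∀ u q s, (73 / 100) ^ 2 ≤ nsq (Γ () u q s)) (h4 : ∀ u q s, nsq (Γ () u q s) ≤ 1 ^ 2) :
    SqOk {p | rsq 0 p ≤ 1 / 25} (1 / 100) Γ := by
  refine ⟨fun i => h1, fun i => ⟨e1, h2⟩, ?_, ?_, ?_⟩
  · intro i u hu q hq s hs x hx
    have e := nsq_add_le (x := x - Γ i u q s) (y := Γ i u q s) (r := 2 * (1 / 100)) (t := 1)
      (by norm_num) (by norm_num) hx (h4 u q s)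
    rw [sub_add_cancel] at e
    exact lt_of_le_of_lt e (by norm_num)
  · intro i j hij
    exact absurd (Subsingleton.elim i j) hij
  · intro i u hu q hq s hs x hx
    have hx' : nsq x ≤ (1 / 5) ^ 2 := by
      have : rsq 0 (s, x) ≤ 1 / 25 := hx
      rw [rsq0_eq] at this
      simpa using this.trans (by norm_num)
    exact nsq_sub_ge (r := 1 / 5) (R := 73 / 100) (d := 2 * (1 / 100)) (by norm_num) (by norm_num)
      (by norm_num) hx' (h3 u q s)

/-- the path of the finger -/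
noncomputable def fpath : Unit → ℝ → ℝ → R3 := fun _ u s => (1 - step u * bfin s) • e1

theorem gam_zero (u s : ℝ) : gam u 0 s = (1 - step u * bfin s) • e1 := by
  unfold gam
  rw [barPath_zero]

theorem gam_one (u s : ℝ) : gam u 1 s = (1 - step u * bfin s) • e1 := by
  unfold gam
  rw [barPath_one]

theorem gam_u0 (q s : ℝ) : gam 0 q s = barPath () q s := by
  unfold gam
  rw [BI.step_zero]
  simp

theorem gam_u1 (q s : ℝ) : gam 1 q s = zq q s := by
  unfold gam zq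
  rw [BI.step_one]
  simp

theorem zq_zero (s : ℝ) : zq 0 s = z0 s := by
  unfold zq z0
  rw [barPath_zero]

theorem zq_one (s : ℝ) : zq 1 s = z0 s := by
  unfold zq z0
  rw [barPath_one]

theorem zq_out (q : ℝ) {s : ℝ} (hs : s ≤ 9 / 20 ∨ 11 / 20 ≤ s) : zq q s = z0 s := by
  unfold zq z0
  rw [barPath_end]
  rcases hs with h | h
  · left; linarith
  · right; linarith

/-- **FING.** -/
theorem m_FING (hCh : StCh) (hCh5 : StCh5) (hspin : StSpin) : StFING := by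
  -- the finger push
  have okf : SqOk {p | rsq 0 p ≤ 1 / 25} (1 / 100) (fun i _ q s => fpath i q s) := by
    apply sqOk_of
    · have h := contDiff_gam.comp (f := fun p : ℝ × ℝ × ℝ => (p.2.1, ((0 : ℝ), p.2.2)))
        ((contDiff_fst.comp contDiff_snd).prodMk
          (contDiff_const.prodMk (contDiff_snd.comp contDiff_snd)))
      have e : (fun p : ℝ × ℝ × ℝ => fpath () p.2.1 p.2.2) =
          (fun p : ℝ × ℝ × ℝ => gam p.1 p.2.1 p.2.2) ∘ fun p => (p.2.1, 0, p.2.2) := by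
        funext p
        show fpath () p.2.1 p.2.2 = gam p.2.1 0 p.2.2
        rw [gam_zero]; rfl
      rw [e]
      exact h
    · intro u q s hs
      show fpath () q s = e1
      rw [← gam_end (u := q) (q := 0) hs, gam_zero]; rfl
    · intro u q s
      show _ ≤ nsq (fpath () q s)
      have := nsq_gam_ge q 0 s
      rwa [gam_zero] at this
    · intro u q s
      show nsq (fpath () q s) ≤ _
      have := nsq_gam_le q 0 s
      rwa [gam_zero] at this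
  have okl : SqOk {p | rsq 0 p ≤ 1 / 25} (1 / 100) (fun (_ : Unit) _ q s => zq q s) := by
    apply sqOk_of
    · have h := contDiff_gam.comp (f := fun p : ℝ × ℝ × ℝ => ((1 : ℝ), (p.2.1, p.2.2)))
        (contDiff_const.prodMk contDiff_snd)
      have e : (fun p : ℝ × ℝ × ℝ => zq p.2.1 p.2.2) =
          (fun p : ℝ × ℝ × ℝ => gam p.1 p.2.1 p.2.2) ∘ fun p => (1, p.2.1, p.2.2) := by
        funext p
        show zq p.2.1 p.2.2 = gam 1 p.2.1 p.2.2
        rw [gam_u1]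
      rw [e]
      exact h
    · intro u q s hs
      rw [← gam_end (u := 1) (q := q) hs, gam_u1]
    · intro u q s
      have := nsq_gam_ge 1 q s
      rwa [gam_u1] at this
    · intro u q s
      have := nsq_gam_le 1 q s
      rwa [gam_u1] at this
  have okg : SqOk {p | rsq 0 p ≤ 1 / 25} (1 / 100) (fun (_ : Unit) u q s => gam u q s) :=
    sqOk_of contDiff_gam (fun u q s hs => gam_end hs) (fun u q s => nsq_gam_ge u q s)
      (fun u q s => nsq_gam_le u q s)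
  have h01 : (1 : ℝ) ∈ Icc (0 : ℝ) 1 := by simp
  obtain ⟨Ff, f0, fs, fO, ft, ffar, fl, fst⟩ := exists_push5 hCh5 (by norm_num) okf
  obtain ⟨Fl, l0, ls, lO, lt, lfar, ll, lst⟩ := exists_push5 hCh5 (by norm_num) okl
  have e0' : ∀ s, fpath () 0 s = e1 := by
    intro s; show (1 - step 0 * bfin s) • e1 = e1
    rw [BI.step_zero]; simp
  have e1' : ∀ s, fpath () 1 s = z0 s := by
    intro s; show (1 - step 1 * bfin s) • e1 = z0 s
    rw [BI.step_one]; simp [z0]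
  have pf : IsPush {p | rsq 0 p ≤ 1 / 25} (1 / 100) fpath (fun x => Ff.f (1, x)) :=
    ⟨Ff, f0, fun _ => rfl, fs, fun t _ x hx => fO t x hx, fun t _ i s y hy => ft t i s y hy⟩
  have pl : IsPush {p | rsq 0 p ≤ 1 / 25} (1 / 100) (fun (_ : Unit) q s => zq q s)
      (fun x => Fl.f (1, x)) :=
    ⟨Fl, l0, fun _ => rfl, ls, fun t _ x hx => lO t x hx, fun t _ i s y hy => lt t i s y hy⟩
  refine ⟨fun x => Ff.f (1, x), fun x => Ff.g (1, x), Fl, ?_, ?_, ?_⟩
  · refine ⟨?_, ?_, fun x => Ff.gf 1 x, fun x => Ff.fg 1 x, ?_, fun p => fl 1 p, ?_, ?_⟩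
    · exact contMDiff_iff_contDiff.1 (Ff.smooth_f.comp (contMDiff_const.prodMk contMDiff_id))
    · exact contMDiff_iff_contDiff.1 (Ff.smooth_g.comp (contMDiff_const.prodMk contMDiff_id))
    · intro s y hy
      have := ft 1 () s y hy
      rw [e0', BI.step_one, e1'] at this
      exact this
    · intro s x hs
      apply fst 1 s
      intro i q hq
      show (1 - step q * bfin s) • e1 = (1 - step 0 * bfin s) • e1
      rw [bfin_out hs]
      simp
    · rintro ⟨s, x⟩ hp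
      apply ffar 1 s x
      intro i q hq
      rw [rsq1_eq] at hp
      have hp' : (3 / 10) ^ 2 ≤ nsq (x - e1) := hp
      have e2 : x - fpath i q s = (step q * bfin s) • e1 - (e1 - x) := by
        show x - (1 - step q * bfin s) • e1 = _
        rw [sub_smul, one_smul]; abel
      rw [e2]
      have h3 : nsq ((step q * bfin s) • e1) ≤ (27 / 100) ^ 2 := by
        rw [nsq_smul, nsq_e1, mul_one]
        obtain ⟨h1, h2⟩ := step_mem q
        have h3 := bfin_nonneg s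
        have h4 := bfin_le s
        have h5 : step q * bfin s ≤ 27 / 100 := by nlinarith
        have h6 : 0 ≤ step q * bfin s := mul_nonneg h1 h3
        nlinarith
      refine nsq_sub_ge (r := 27 / 100) (R := 3 / 10) (by norm_num) (by norm_num) (by norm_num) h3 ?_
      rw [nsq_sub_comm]
      exact hp'
  · refine ⟨l0, ?_, ?_⟩
    · intro t s y hy
      have := lt t () s y hy
      rw [zq_zero] at this
      exact this
    · rintro t ⟨s, x⟩ hp
      by_cases hs : s ≤ 9 / 20 ∨ 11 / 20 ≤ s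
      · apply lst t s
        intro i q hq
        show zq q s = zq 0 s
        rw [zq_out q hs, zq_out 0 hs]
      push Not at hs
      have hb : bfin s = 27 / 100 := bfin_mid ⟨by linarith [hs.1], by linarith [hs.2]⟩
      have hn : ∀ q, nsq (zq q s) = (73 / 100) ^ 2 := by
        intro q
        unfold zq
        rw [nsq_smul, nsq_barPath, hb]
        norm_num
      apply lfar t s x
      intro i q hq
      have hx : nsq x < (71 / 100) ^ 2 ∨ (3 / 4) ^ 2 < nsq x := by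
        by_contra h
        push Not at h
        apply hp
        refine ⟨hs.1.le, hs.2.le, ?_, ?_⟩
        · rw [rsq0_eq]; exact h.1
        · rw [rsq0_eq]; exact h.2
      rcases hx with hx | hx
      · exact nsq_sub_ge (r := 71 / 100) (R := 73 / 100) (by norm_num) (by norm_num) (by norm_num)
          hx.le (hn q).ge
      · rw [nsq_sub_comm]
        exact nsq_sub_ge (r := 73 / 100) (R := 3 / 4) (by norm_num) (by norm_num) (by norm_num)
          (hn q).le hx.le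
  · have pb : IsPush {p | rsq 0 p ≤ 1 / 25} (1 / 100) barPath barMap :=
      (isPush_barMap hspin).mono (fun p hp => le_trans (show rsq 0 p ≤ 1 / 25 from hp) (by norm_num))
        (by norm_num) (by norm_num)
    have sqr := square hCh (by norm_num) okg (Θ1 := barMap) (Θ2 := fun x => Ff.f (1, x))
      (Θ3 := fun x => Ff.f (1, x)) (Θ4 := fun x => Fl.f (1, x))
      (pb.congr (by intro i q hq s; exact (gam_u0 q s).symm))
      (pf.congr (by intro i q hq s; exact (gam_one q s).symm))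
      (pf.congr (by intro i q hq s; exact (gam_zero q s).symm))
      (pl.congr (by intro i q hq s; exact (gam_u1 q s).symm))
    have tf : TIso {p | rsq 0 p ≤ 1 / 25} (1 / 100) (fun (_ : Unit) _ => e1) (fun _ => z0)
        (fun x => Ff.f (1, x)) (fun x => Ff.f (1, x)) := by
      have := pf.tIso
      have e3 : (fun i : Unit => fpath i 0) = fun _ _ => e1 := by
        funext i s; exact e0' s
      have e4 : (fun i : Unit => fpath i 1) = fun _ => z0 := by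
        funext i s; exact e1' s
      rwa [e3, e4] at this
    have sqr' : TIso {p | rsq 0 p ≤ 1 / 25} (1 / 100) (fun (_ : Unit) _ => e1) (fun _ => z0)
        (fun x => Ff.f (1, barMap x)) (fun x => Fl.f (1, Ff.f (1, x))) := by
      have e3 : (fun _ : Unit => gam 0 0) = fun _ _ => e1 := by
        funext i s; rw [gam_u0, barPath_zero]
      have e4 : (fun _ : Unit => gam 1 1) = fun _ => z0 := by
        funext i s; rw [gam_u1, zq_one]
      rwa [e3, e4] at sqr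
    have ti : TIso {p | rsq 0 p ≤ 1 / 25} (1 / 100) (fun (_ : Unit) => z0) (fun _ _ => e1)
        (fun x => Ff.g (1, x)) (fun x => Ff.g (1, x)) :=
      tf.inv (fun x => Ff.fg 1 x) (fun x => Ff.fg 1 x)
    have := ti.comp sqr'
    have e5 : (fun x => Ff.g (1, Ff.f (1, barMap x))) = barMap := by
      funext x; exact Ff.gf 1 _
    rwa [e5] at this

end Pool.Agent.Helper27.H


end
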