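import Pool.Agent.Helper65.Barb.Defs
import Pool.Agent.Helper70.BI.B.P05

/-!
# Project BI (MP_8e98f2_gt): collected modules, part 13

The contents of the modules
* Helper27.BI.M_KAPPA

in one file, so that the whole proof builds in a short time.
-/

/-! ## Helper27.BI.M_KAPPA -/

section

/-!
# Project BI, module KAPPA (helper86)
-/

set_option autoImplicit false

open scoped Manifold ContDiff Topology ComplexConjugate
open Set Pool.Agent.Helper65.Barb Pool.Agent.Helper18.BI

namespace Pool.Agent.Helper27.BI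

namespace Kappa

noncomputable section

/-- the speed -/
def m (t : ℝ) : ℝ := 1 - 999 / 1000 * Real.smoothTransition (1000 * t)

theorem m_contDiff : ContDiff ℝ ∞ m := by
  unfold m
  exact contDiff_const.sub (contDiff_const.mul
    (Real.smoothTransition.contDiff.comp (contDiff_const.mul contDiff_id)))

theorem m_le (t : ℝ) : m t ≤ 1 := by
  have := Real.smoothTransition.nonneg (1000 * t)
  unfold m; linarith

theorem le_m (t : ℝ) : 1 / 1000 ≤ m t := by
  have := Real.smoothTransition.le_one (1000 * t)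
  unfold m; linarith

theorem m_of_nonpos {t : ℝ} (h : t ≤ 0) : m t = 1 := by
  unfold m
  rw [Real.smoothTransition.zero_of_nonpos (by linarith)]; ring

theorem m_of_ge {t : ℝ} (h : 1 / 1000 ≤ t) : m t = 1 / 1000 := by
  unfold m
  rw [Real.smoothTransition.one_of_one_le (by linarith)]; ring

theorem m_cont : Continuous m := m_contDiff.continuous

/-- the primitive -/
def M (t : ℝ) : ℝ := ∫ x in (0 : ℝ)..t, m x

theorem hasDerivAt_M (t : ℝ) : HasDerivAt M (m t) t :=
  intervalIntegral.integral_hasDerivAt_right (m_cont.intervalIntegrable _ _)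
    (m_cont.stronglyMeasurableAtFilter _ _) m_cont.continuousAt

theorem deriv_M : deriv M = m := funext fun t => (hasDerivAt_M t).deriv

theorem M_contDiff : ContDiff ℝ ∞ M := by
  rw [contDiff_infty_iff_deriv]
  refine ⟨fun t => (hasDerivAt_M t).differentiableAt, ?_⟩
  rw [deriv_M]
  exact m_contDiff

theorem M_strictMono : StrictMono M := by
  apply strictMono_of_deriv_pos
  intro t
  rw [deriv_M]
  linarith [le_m t]

theorem M_zero : M 0 = 0 := by simp [M]

theorem M_of_nonpos {t : ℝ} (h : t ≤ 0) : M t = t := by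
  have : M t = ∫ x in (0 : ℝ)..t, (1 : ℝ) := by
    unfold M
    apply intervalIntegral.integral_congr
    intro x hx
    rw [Set.uIcc_of_ge h] at hx
    exact m_of_nonpos hx.2
  rw [this]; simp

theorem M_le (t : ℝ) : M t ≤ t := by
  rcases le_total t 0 with h | h
  · exact (M_of_nonpos h).le
  · have : M t ≤ ∫ x in (0 : ℝ)..t, (1 : ℝ) :=
      intervalIntegral.integral_mono_on h (m_cont.intervalIntegrable _ _)
        (continuous_const.intervalIntegrable _ _) fun x _ => m_le x
    simpa using this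

theorem M_bound {t : ℝ} (h : t ≤ 26 / 5) : M t ≤ 1 / 100 := by
  have h1 : M (26 / 5) ≤ 1 / 100 := by
    have e : M (26 / 5) = M (1 / 1000) + ∫ x in (1 / 1000 : ℝ)..(26 / 5), (1 / 1000 : ℝ) := by
      have e1 : ∫ x in (1 / 1000 : ℝ)..(26 / 5), (1 / 1000 : ℝ) =
          ∫ x in (1 / 1000 : ℝ)..(26 / 5), m x := by
        apply intervalIntegral.integral_congr
        intro x hx
        rw [Set.uIcc_of_le (by norm_num)] at hx
        exact (m_of_ge hx.1).symm
      rw [e1]
      exact (intervalIntegral.integral_add_adjacent_intervals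
        (m_cont.intervalIntegrable _ _) (m_cont.intervalIntegrable _ _)).symm
    have h2 := M_le (1 / 1000)
    rw [e, intervalIntegral.integral_const, smul_eq_mul]
    linarith
  exact (M_strictMono.monotone h).trans h1

end

end Kappa

open Kappa in
/-- **KAPPA.** -/
theorem m_KAPPA : StKappa := by
  intro x₀ hx₀ δ r hr hrδ hr1 hδ
  have hδ0 : 0 < δ := by linarith
  let f : ContDiffBump x₀.2 := ⟨δ / 2, δ, by linarith, by linarith⟩
  set A : ℝ := x₀.1 + 1 / 50 with hA
  let p : ℝ → ℝ := fun a => A - M (A - a)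
  have hx1 : |x₀.1| ≤ 7 / 50 := by
    apply abs_le_of_sq_le_sq _ (by norm_num)
    unfold nsq at hx₀
    nlinarith [sq_nonneg x₀.2.re, sq_nonneg x₀.2.im]
  have hn0 : x₀.2.re ^ 2 + x₀.2.im ^ 2 = ‖x₀.2‖ ^ 2 := by
    rw [← Complex.normSq_eq_norm_sq, Complex.normSq_apply]; ring
  have hx2 : ‖x₀.2‖ ≤ 7 / 50 := by
    apply le_of_sq_le_sq _ (by norm_num)
    unfold nsq at hx₀
    nlinarith [sq_nonneg x₀.1]
  have hps : ContDiff ℝ ∞ p := contDiff_const.sub (M_contDiff.comp (contDiff_const.sub contDiff_id))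
  have hpd : ∀ a, HasDerivAt p (m (A - a)) a := by
    intro a
    have h1 : HasDerivAt (fun a => A - a) (-1) a := by
      simpa using (hasDerivAt_id a).const_sub A
    have h2 := (hasDerivAt_M (A - a)).comp a h1
    have h3 := h2.const_sub A
    simpa using h3
  have hpm : StrictMono p := by
    intro a b hab
    have := M_strictMono (show A - b < A - a by linarith)
    show A - M (A - a) < A - M (A - b)
    linarith
  have hple : ∀ a, a ≤ p a := fun a => by
    have := M_le (A - a)
    show a ≤ A - M (A - a)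
    linarith
  have hpA : ∀ a, A ≤ a → p a = a := fun a ha => by
    show A - M (A - a) = a
    rw [M_of_nonpos (by linarith)]; ring
  have hpA' : ∀ a, a ≤ A → p a ≤ A := fun a ha => by
    have := hpm.monotone ha
    rwa [hpA A le_rfl] at this
  let k : R3 → R3 := fun x => (x.1 + f x.2 * (p x.1 - x.1), x.2)
  have hf0 : ∀ w, 0 ≤ f w := fun w => f.nonneg
  have hf1 : ∀ w, f w ≤ 1 := fun w => f.le_one
  have hg : ContDiff ℝ ∞ (fun x : R3 => x.1 + f x.2 * (p x.1 - x.1)) :=
    contDiff_fst.add ((f.contDiff.comp contDiff_snd).mul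
      ((hps.comp contDiff_fst).sub contDiff_fst))
  have hk : ContDiff ℝ ∞ k := hg.prodMk contDiff_snd
  have hout : ∀ x : R3, δ ≤ ‖x.2 - x₀.2‖ → k x = x := by
    intro x hx
    have : f x.2 = 0 := f.zero_of_le_dist (by rw [dist_eq_norm]; exact hx)
    show (x.1 + f x.2 * (p x.1 - x.1), x.2) = x
    rw [this]; simp
  have hright : ∀ x : R3, A ≤ x.1 → k x = x := by
    intro x hx
    show (x.1 + f x.2 * (p x.1 - x.1), x.2) = x
    rw [hpA _ hx]; simp
  have hmono : ∀ x : R3, x.1 ≤ (k x).1 := by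
    intro x
    show x.1 ≤ x.1 + f x.2 * (p x.1 - x.1)
    nlinarith [hple x.1, hf0 x.2, mul_nonneg (hf0 x.2) (sub_nonneg.2 (hple x.1))]
  have hle : ∀ x : R3, x.1 ≤ A → (k x).1 ≤ A := by
    intro x hx
    show x.1 + f x.2 * (p x.1 - x.1) ≤ A
    have h1 := hpA' _ hx
    have h2 : f x.2 * (p x.1 - x.1) ≤ 1 * (p x.1 - x.1) :=
      mul_le_mul_of_nonneg_right (hf1 _) (sub_nonneg.2 (hple _))
    linarith
  have hnsq : ∀ x : R3, nsq x = x.1 ^ 2 + ‖x.2‖ ^ 2 := by
    intro x
    unfold nsq
    rw [← Complex.normSq_eq_norm_sq, Complex.normSq_apply]; ring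
  have key : ∀ R : ℝ, 1 / 5 ≤ R → ∀ x : R3, nsq x ≤ R ^ 2 → nsq (k x) ≤ R ^ 2 := by
    intro R hR x hx
    by_cases h1 : δ ≤ ‖x.2 - x₀.2‖
    · rw [hout x h1]; exact hx
    by_cases h2 : A ≤ x.1
    · rw [hright x h2]; exact hx
    push Not at h1 h2
    have hb1 := hmono x
    have hb2 := hle x h2.le
    have hk2 : (k x).2 = x.2 := rfl
    rw [hnsq, hk2]
    rw [hnsq] at hx
    by_cases h3 : |(k x).1| ≤ |x.1|
    · have := sq_le_sq.2 h3
      linarith
    push Not at h3
    have hpos : 0 < (k x).1 := by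
      by_contra hneg
      push Not at hneg
      rw [abs_of_nonpos hneg, abs_of_nonpos (hb1.trans hneg)] at h3
      linarith
    have hw : ‖x.2‖ ≤ ‖x₀.2‖ + 1 / 25 := by
      have : ‖x.2‖ ≤ ‖x.2 - x₀.2‖ + ‖x₀.2‖ := by
        simpa using norm_add_le (x.2 - x₀.2) x₀.2
      linarith
    have ha : (k x).1 ≤ |x₀.1| + 1 / 50 := by
      have := le_abs_self x₀.1
      linarith
    have e1 : (k x).1 ^ 2 ≤ (|x₀.1| + 1 / 50) ^ 2 := by
      apply pow_le_pow_left₀ hpos.le ha
    have e2 : ‖x.2‖ ^ 2 ≤ (‖x₀.2‖ + 1 / 25) ^ 2 := by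
      apply pow_le_pow_left₀ (norm_nonneg _) hw
    have e3 : |x₀.1| ^ 2 + ‖x₀.2‖ ^ 2 < (7 / 50) ^ 2 := by
      rw [sq_abs, ← hnsq]; exact hx₀
    have e4 : (1 / 5 : ℝ) ^ 2 ≤ R ^ 2 := pow_le_pow_left₀ (by norm_num) hR 2
    nlinarith
  refine ⟨k, hk, ?_, ?_, hout, hright, fun x => ⟨rfl, hmono x⟩, ?_, key _ (by norm_num),
    key _ le_rfl⟩
  · rintro ⟨a, w⟩ ⟨b, w'⟩ h
    have h2 : w = w' := (Prod.ext_iff.1 h).2
    subst h2
    have h1 : a + f w * (p a - a) = b + f w * (p b - b) := (Prod.ext_iff.1 h).1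
    have hs : StrictMono (fun a => a + f w * (p a - a)) := by
      intro a b hab
      show a + f w * (p a - a) < b + f w * (p b - b)
      have e : b + f w * (p b - b) - (a + f w * (p a - a)) =
        (1 - f w) * (b - a) + f w * (p b - p a) := by ring
      have h3 := hpm hab
      rcases eq_or_lt_of_le (hf0 w) with h4 | h4
      · rw [← h4]; linarith
      · have h5 : 0 < f w * (p b - p a) := mul_pos h4 (by linarith)
        have h6 : 0 ≤ (1 - f w) * (b - a) := mul_nonneg (by linarith [hf1 w]) (by linarith)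
        linarith
    rw [hs.injective h1]
  · intro x
    have hd : HasFDerivAt k (fderiv ℝ k x) x :=
      (hk.differentiable (by norm_num) x).hasFDerivAt
    have hinj : Function.Injective (fderiv ℝ k x) := by
      rw [injective_iff_map_eq_zero]
      intro v hv
      have hsnd : HasFDerivAt (fun y : R3 => (k y).2) ((ContinuousLinearMap.snd ℝ ℝ ℂ).comp
          (fderiv ℝ k x)) x :=
        HasFDerivAt.comp (g := fun y : R3 => y.2) (f := k) x
          (ContinuousLinearMap.snd ℝ ℝ ℂ).hasFDerivAt hd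
      have hsnd' : HasFDerivAt (fun y : R3 => (k y).2) (ContinuousLinearMap.snd ℝ ℝ ℂ) x :=
        (ContinuousLinearMap.snd ℝ ℝ ℂ).hasFDerivAt
      have e1 := congrArg (fun L : R3 →L[ℝ] ℂ => L v) (hsnd.unique hsnd')
      simp only [ContinuousLinearMap.comp_apply, hv, map_zero] at e1
      have hv2 : v.2 = 0 := e1.symm
      have hl : HasDerivAt (fun t : ℝ => ((x.1 + t * v.1, x.2) : R3)) (v.1, (0 : ℂ)) 0 := by
        apply HasDerivAt.prodMk
        · simpa using ((hasDerivAt_id (0 : ℝ)).mul_const v.1).const_add x.1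
        · exact hasDerivAt_const _ _
      have hx0 : ((x.1 + 0 * v.1, x.2) : R3) = x := by simp
      have hd0 : HasFDerivAt k (fderiv ℝ k x) ((x.1 + 0 * v.1, x.2) : R3) := by rw [hx0]; exact hd
      have h1 := hd0.comp_hasDerivAt (0 : ℝ) hl
      have hvv : ((v.1, (0 : ℂ)) : R3) = v := by rw [← hv2]
      rw [hvv, hv] at h1
      have h2 : HasDerivAt (fun t : ℝ => (k ((x.1 + t * v.1, x.2) : R3)).1) 0 0 := by
        exact ((ContinuousLinearMap.fst ℝ ℝ ℂ).hasFDerivAt
          (x := k ((x.1 + 0 * v.1, x.2) : R3))).comp_hasDerivAt (0 : ℝ) h1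
      have h3 : HasDerivAt (fun t : ℝ => (k ((x.1 + t * v.1, x.2) : R3)).1)
          (v.1 + f x.2 * (m (A - x.1) * v.1 - v.1)) 0 := by
        have l1 : HasDerivAt (fun t : ℝ => x.1 + t * v.1) v.1 0 := by
          simpa using ((hasDerivAt_id (0 : ℝ)).mul_const v.1).const_add x.1
        have l2 : HasDerivAt (fun t : ℝ => p (x.1 + t * v.1)) (m (A - x.1) * v.1) 0 := by
          have hp0 : HasDerivAt p (m (A - x.1)) (x.1 + 0 * v.1) := by simpa using hpd x.1
          exact HasDerivAt.comp (h₂ := p) (h := fun t : ℝ => x.1 + t * v.1) (0 : ℝ) hp0 l1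
        exact l1.add ((l2.sub l1).const_mul (f x.2))
      have e2 := h2.unique h3
      have e3 : ((1 - f x.2) + f x.2 * m (A - x.1)) * v.1 = 0 := by linarith
      have hpos : 0 < (1 - f x.2) + f x.2 * m (A - x.1) := by
        have h4 := le_m (A - x.1)
        have h5 := hf0 x.2
        have h6 := hf1 x.2
        nlinarith [mul_le_mul_of_nonneg_left h4 h5]
      have hv1 : v.1 = 0 := by
        rcases mul_eq_zero.1 e3 with h | h
        · linarith
        · exact h
      exact Prod.ext hv1 hv2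
    refine ⟨hinj, ?_⟩
    have := LinearMap.injective_iff_surjective (f := (fderiv ℝ k x : R3 →ₗ[ℝ] R3))
    exact this.1 hinj
  · intro x hx
    rw [hnsq]
    by_cases h1 : δ / 2 ≤ ‖x.2 - x₀.2‖
    · have h2 : r ^ 2 ≤ ‖x.2 - x₀.2‖ ^ 2 := pow_le_pow_left₀ hr.le (hrδ.trans h1) 2
      have h3 : (k x - x₀).2 = x.2 - x₀.2 := rfl
      rw [h3]
      nlinarith [sq_nonneg (k x - x₀).1]
    · push Not at h1
      have hf : f x.2 = 1 := f.one_of_mem_closedBall (by
        rw [Metric.mem_closedBall, dist_eq_norm]; exact h1.le)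
      have h2 : (k x - x₀).1 = p x.1 - x₀.1 := by
        show x.1 + f x.2 * (p x.1 - x.1) - x₀.1 = _
        rw [hf]; ring
      have h3 : r ≤ (k x - x₀).1 := by
        rw [h2]
        show r ≤ A - M (A - x.1) - x₀.1
        have h4 : M (A - x.1) ≤ 1 / 100 := M_bound (by
          have := le_abs_self x₀.1
          linarith)
        linarith
      have h5 := pow_le_pow_left₀ hr.le h3 2
      nlinarith [sq_nonneg ‖(k x - x₀).2‖]

end Pool.Agent.Helper27.BI


end
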