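import Pool.Agent.Helper65.Barb.Defs
import Pool.Agent.Helper70.BI.B.P07
import Pool.Agent.Helper70.BI.B.P08
import Pool.Agent.Helper70.BI.B.P09
import Pool.Agent.Helper70.BI.B.P10
import Pool.Agent.Helper70.BI.B.P11
import Pool.Agent.Helper70.BI.B.P12
import Pool.Agent.Helper70.BI.B.P13

/-!
# Project BI (MP_8e98f2_gt): collected modules, part 14

The contents of the modules
* Helper18.BI.M_S6
* Helper18.BI.M_N1
* Helper18.BI.AsmA
* Helper27.BI.GRef
* Helper27.BI.M_SPIN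
* Helper27.BI.AsmC
* Helper27.BI.M_ZNSQ

in one file, so that the whole proof builds in a short time.
-/

/-! ## Helper18.BI.M_S6 -/

section

/-! # Module S6 of project BI: the homotopy of compressions -/

set_option autoImplicit false

open scoped Manifold ContDiff Topology ComplexConjugate
open Set Pool.Agent.Helper65.Barb

namespace Pool.Agent.Helper18.BI

private theorem hom_eq_tri (ε t : ℝ) (p : R4) :
    hom ε (t, p) = tri ((1 - t) * ε + t) (fun a => (1 - t) * axc ε a + t * a)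
      (fun a k => (1 - t) * fac ε a k + t) p := by
  unfold hom tri sq
  refine Prod.ext ?_ (Prod.ext ?_ ?_)
  · simp only [Prod.fst_add, Prod.smul_fst, smul_eq_mul]
    ring
  · simp only [Prod.snd_add, Prod.fst_add, Prod.smul_snd, Prod.smul_fst, smul_eq_mul]
  · simp only [Prod.snd_add, Prod.smul_snd, Complex.real_smul]
    push_cast
    ring

private theorem emb_aux (h0 : StS0) (h1 : StS1) (h2 : StS2) (ε : ℝ) (hε : 0 < ε) (t : ℝ)
    (ht : t ∈ Icc (0 : ℝ) 1) :
    EmbOn 𝓘(ℝ, R4) (tri ((1 - t) * ε + t) (fun a => (1 - t) * axc ε a + t * a)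
      (fun a k => (1 - t) * fac ε a k + t)) univ := by
  obtain ⟨h2a, h2b, h2c, -⟩ := h2
  obtain ⟨hax, d, hd⟩ := h2b ε hε
  obtain ⟨O, hO, hO1, hO2⟩ := h2c ε hε
  have ht0 : 0 ≤ t := ht.1
  have ht1 : 0 ≤ 1 - t := by linarith [ht.2]
  have key : ∀ x : ℝ, 0 < x → 0 < (1 - t) * x + t := by
    intro x hx
    rcases eq_or_lt_of_le ht0 with h | h
    · rw [← h]; simpa using hx
    · have := mul_nonneg ht1 hx.le
      linarith
  refine h0 ((1 - t) * ε + t) (fun a => (1 - t) * axc ε a + t * a) (fun a => (1 - t) * d a + t)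
    (fun a k => (1 - t) * fac ε a k + t) (fun a k => (1 - t) * deriv (ff ε (prof ε a)) k) O
    (key ε hε) ?_ ?_ ?_ hO hO1 ?_ ?_ ?_
  · exact (contDiff_const.mul hax).add (contDiff_const.mul contDiff_id)
  · intro a
    have h : HasDerivAt (fun a => (1 - t) * axc ε a + t * a) ((1 - t) * d a + t * 1) a :=
      ((hd a).1.const_mul (1 - t)).add ((hasDerivAt_id a).const_mul t)
    rw [mul_one] at h
    exact h
  · intro a
    exact key _ (hd a).2
  · exact (contDiffOn_const.mul hO2).add contDiffOn_const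
  · intro a k hk
    obtain ⟨-, -, -, -, d', hd', -⟩ := h1 ε (prof ε a) k hε (h2a ε a hε) hk
    have h := (hd'.const_mul (1 - t)).add_const t
    rw [hd'.deriv]
    exact h
  · intro a k hk
    obtain ⟨hpos, -, -, -, d', hd', hpos'⟩ := h1 ε (prof ε a) k hε (h2a ε a hε) hk
    rw [hd'.deriv]
    refine ⟨key _ hpos, ?_⟩
    have h := key _ hpos'
    have e : (1 - t) * fac ε a k + t + 2 * k * ((1 - t) * d') =
        (1 - t) * (ff ε (prof ε a) k + 2 * k * d') + t := by
      have : fac ε a k = ff ε (prof ε a) k := rfl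
      rw [this]; ring
    rw [e]
    exact h

/-- **S6.** -/
theorem m_S6 (h0 : StS0) (h1 : StS1) (h2 : StS2) : StS6 := by
  refine ⟨?_, ?_, ?_⟩
  · intro ε hε
    have h := emb_aux h0 h1 h2 ε hε 0 ⟨le_refl _, zero_le_one⟩
    have e : sq ε = tri ((1 - 0) * ε + 0) (fun a => (1 - 0) * axc ε a + 0 * a)
        (fun a k => (1 - 0) * fac ε a k + 0) := by
      funext p
      rw [← hom_eq_tri]
      simp [hom]
    rw [e]
    exact h
  · intro ε hε
    have hs : ContDiff ℝ ∞ (fun p : R4 => sq ε p) := by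
      have h := h2.2.2.2
      have h3 : ContDiff ℝ ∞ (fun p : R4 => ((ε, p) : ℝ × R4)) := contDiff_const.prodMk contDiff_id
      have h4 : ContDiffOn ℝ ∞ ((fun q : ℝ × R4 => sq q.1 q.2) ∘ fun p : R4 => ((ε, p) : ℝ × R4)) univ :=
        h.comp h3.contDiffOn (fun p _ => ⟨hε, mem_univ _⟩)
      exact contDiffOn_univ.1 h4
    unfold hom
    exact ((contDiff_const.sub contDiff_fst).smul (hs.comp contDiff_snd)).add
      (contDiff_fst.smul contDiff_snd)
  · intro ε hε t ht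
    have h := emb_aux h0 h1 h2 ε hε t ht
    have e : (fun p => hom ε (t, p)) = tri ((1 - t) * ε + t) (fun a => (1 - t) * axc ε a + t * a)
        (fun a k => (1 - t) * fac ε a k + t) := by
      funext p
      exact hom_eq_tri ε t p
    rw [e]
    exact h

end Pool.Agent.Helper18.BI


end

/-! ## Helper18.BI.M_N1 -/

section

/-!
# Project BI (MP_8e98f2_gt): module N1, the subgroup `N` is normal
-/

set_option autoImplicit false

open scoped Manifold ContDiff Topology ComplexConjugate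
open Set Pool.Agent.Helper65.Barb

namespace Pool.Agent.Helper18.BI

namespace N1

variable {E : Type} [NormedAddCommGroup E] [NormedSpace ℝ E] {H : Type} [TopologicalSpace H]
    {I : ModelWithCorners ℝ E H} {M : Type} [TopologicalSpace M] [ChartedSpace H M]

/-- composition of a germ with a diffeomorphism -/
theorem embOn_comp {F : R4 → M} {L : Set R4} (hF : EmbOn I F L) {Ψ Ψ' : M → M}
    (h1 : ContMDiff I I ∞ Ψ) (h2 : ContMDiff I I ∞ Ψ') (h3 : ∀ x, Ψ (Ψ' x) = x)
    (h4 : ∀ x, Ψ' (Ψ x) = x) : EmbOn I (fun p => Ψ (F p)) L := by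
  let D : Diffeomorph I I M M ∞ :=
    { toFun := Ψ
      invFun := Ψ'
      left_inv := h4
      right_inv := h3
      contMDiff_toFun := h1
      contMDiff_invFun := h2 }
  refine ⟨fun p hp => ?_, fun p hp q hq hpq => ?_⟩
  · have hD : IsLocalDiffeomorphAt I I ∞ Ψ (F p) := D.isLocalDiffeomorph (F p)
    exact IsLocalDiffeomorphAt.comp (K := I) (P := M) (hf := hF.1 p hp) (hg := hD)
  · apply hF.2 hp hq
    have := congrArg Ψ' hpq
    simpa only [h4] using this

/-- composition of a bounding ball with a diffeomorphism -/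
theorem boundsOff_comp {F : R4 → M} {c d : ℝ} (hF : BoundsOff I F c d) {Ψ Ψ' : M → M}
    (h1 : ContMDiff I I ∞ Ψ) (h2 : ContMDiff I I ∞ Ψ') (h3 : ∀ x, Ψ (Ψ' x) = x)
    (h4 : ∀ x, Ψ' (Ψ x) = x) : BoundsOff I (fun p => Ψ (F p)) c d := by
  obtain ⟨G, hG, hGF, hdis⟩ := hF
  refine ⟨fun p => Ψ (G p), embOn_comp hG h1 h2 h3 h4, fun p hp => ?_, ?_⟩
  · change Ψ (G p) = Ψ (F p)
    rw [hGF p hp]
  · rw [Set.disjoint_left] at hdis ⊢
    rintro y ⟨p, hp, rfl⟩ ⟨q, hq, hpq⟩
    apply hdis ⟨p, hp, rfl⟩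
    refine ⟨q, hq, ?_⟩
    have := congrArg Ψ' hpq
    simpa only [h4] using this

/-- the time `0` map of a family is smooth -/
theorem smooth_of_cIsot {φ ψ : M → M} (h : CIsot I φ ψ) : ContMDiff I I ∞ φ := by
  obtain ⟨F, -, h0, -⟩ := h
  have h1 : ContMDiff I (𝓘(ℝ, ℝ).prod I) ∞ (fun x : M => ((0 : ℝ), x)) :=
    contMDiff_const.prodMk contMDiff_id
  have h2 : ContMDiff I I ∞ (fun x : M => F.f (0, x)) := F.smooth_f.comp h1
  have h3 : (fun x : M => F.f (0, x)) = φ := funext h0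
  rw [h3] at h2
  exact h2

end N1

theorem m_N1 (t2 : StT2) (ci : StCI) : StN1 := by
  intro E _ _ H _ I M _ _ _
  obtain ⟨-, -, -, -, -, hnat, hrep⟩ := t2 E H I M
  obtain ⟨cone, csymm, cself, ctrans, cmul, cinv, cex, cconj, -, -⟩ := ci E H I M
  -- the conjugation statement
  have hconj : ∀ φ Ψ Ψ' : M → M, InN I φ → ContMDiff I I ∞ Ψ → ContMDiff I I ∞ Ψ' →
      (∀ x, Ψ (Ψ' x) = x) → (∀ x, Ψ' (Ψ x) = x) → InN I (fun x => Ψ (φ (Ψ' x))) := by
    intro φ Ψ Ψ' hφ h1 h2 h3 h4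
    induction hφ with
    | one =>
      have : (fun x : M => Ψ (Ψ' x)) = fun x => x := funext h3
      change InN I (fun x : M => Ψ (Ψ' x))
      rw [this]
      exact InN.one
    | gen F φ hF hHS hT =>
      refine InN.gen (fun p => Ψ (F p)) _ (N1.embOn_comp hF h1 h2 h3 h4) ?_
        (hnat F φ Ψ Ψ' h1 h2 h3 h4 hT)
      rcases hHS with h | h
      · exact Or.inl (N1.boundsOff_comp h h1 h2 h3 h4)
      · exact Or.inr (N1.boundsOff_comp h h1 h2 h3 h4)
    | mul φ ψ _ _ ih1 ih2 =>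
      have h := InN.mul _ _ ih1 ih2
      have e : (fun x => Ψ (φ (Ψ' (Ψ (ψ (Ψ' x)))))) = fun x => Ψ (φ (ψ (Ψ' x))) := by
        funext x
        rw [h4]
      have h' : InN I (fun x => Ψ (φ (Ψ' (Ψ (ψ (Ψ' x)))))) := h
      rw [e] at h'
      exact h'
    | inv φ ψ _ hi1 hi2 ih =>
      refine InN.inv _ _ ih (fun x => ?_) (fun x => ?_)
      · rw [h4, hi1, h3]
      · rw [h4, hi2, h3]
    | isot φ ψ _ hi ih =>
      exact InN.isot _ _ ih (cconj φ ψ Ψ Ψ' hi h1 h2 h3 h4)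
  refine ⟨?_, hconj, ?_⟩
  · intro φ hφ
    induction hφ with
    | one => exact cone
    | gen F φ _ _ hT => exact hrep F φ hT
    | mul φ ψ _ _ ih1 ih2 => exact cmul φ φ ψ ψ ih1 ih2
    | inv φ ψ _ hi1 _ ih => exact cinv φ φ ψ ψ ih hi1 hi1
    | isot φ ψ _ hi _ => exact cself ψ φ (csymm φ ψ hi)
  · intro φ n hn hφ
    obtain ⟨φ', hφ', e1, e2⟩ := cex φ hφ
    refine ⟨fun x => φ (n (φ' x)), hconj n φ φ' hn (N1.smooth_of_cIsot hφ)
      (N1.smooth_of_cIsot hφ') e1 e2, fun x => ?_⟩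
    change φ (n x) = φ (n (φ' (φ x)))
    rw [e2]

end Pool.Agent.Helper18.BI


end

/-! ## Helper18.BI.AsmA -/

section

/-!
# Project BI: part (A) and the framing lemma, assembled
-/

set_option autoImplicit false

namespace Pool.Agent.Helper18.BI

theorem hA0 : StA0 := m_A0
theorem hA0f : StA0f := m_A0f
theorem hA1 : StA1 := m_A1
theorem hA2 : StA2 := m_A2 hA0
theorem hImp : StImp := m_Imp
theorem hPush : StPush := m_Push hA1
theorem hA3 : StA3 := m_A3 hA1 hA2 hImp
theorem hCI : StCI := m_CI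
theorem hS0 : StS0 := m_S0 hA0
theorem hS1 : StS1 := m_S1
theorem hS2 : StS2 := m_S2
theorem hS3 : StS3 := m_S3
theorem hS4 : StS4 := m_S4
theorem hS5 : StS5 := m_S5 hS3
theorem hS6 : StS6 := m_S6 hS0 hS1 hS2
theorem hT1 : StT1 := m_T1 hA0 hA1 hA2 hS2 hS4 hS5 hS6
theorem hT2 : StT2 := m_T2 hA3 hCI hImp hS4 hS5 hT1
theorem hT3 : StT3 := m_T3 hA3 hCI hS4 hT1
theorem hT4 : StT4 := m_T4 hCI hImp hS4 hT2 hT3
theorem hT5 : StT5 := m_T5 hS4 hT1 hT2
theorem hT6 : StT6 := m_T6 hImp hT1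
theorem hT7 : StT7 := m_T7 hT2
theorem hT8 : StT8 := m_T8 hA0f hT2
theorem hX1 : StX1 := m_X1 hPush hImp hCI
theorem hX2 : StX2 := m_X2
theorem hX3 : StX3 := m_X3
theorem hN1 : StN1 := m_N1 hT2 hCI
theorem hFr1 : StFr1 := m_Fr1 hA0
theorem hFr3 : StFr3 := m_Fr3 hA0 hT2
theorem hFr4 : StFr4 := m_Fr4 hFr1 hT2
theorem hFr5 : StFr5 := m_Fr5 hA0 hFr1 hT8
theorem hFr : StFr := stFr_of m_Fr2a m_Fr2b hFr3 hFr4 hFr5

end Pool.Agent.Helper18.BI


end

/-! ## Helper27.BI.GRef -/

section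

/-!
# Project BI, part (C): reflections, exchange and vanishing for germs
-/

set_option autoImplicit false
set_option linter.unusedSectionVars false
set_option linter.unusedVariables false

open scoped Manifold ContDiff Topology ComplexConjugate
open Set Pool.Agent.Helper65.Barb Pool.Agent.Helper18.BI

namespace Pool.Agent.Helper27.BI

/-- a symmetric large exterior domain -/
def K6 : Set R4 := {p | (-1 ≤ p.1 ∧ p.1 ≤ 2 ∧ rsq 0 p ≤ 36) ∧ rsq 1 p ≤ 36 ∧
  (1 / 5) ^ 2 ≤ rsq 0 p ∧ (1 / 5) ^ 2 ≤ rsq 1 p}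

theorem isCompact_K6 : IsCompact K6 := by
  refine Metric.isCompact_of_isClosed_isBounded ?_ ((isBounded_of_rsq 0 36 (-1) 2).subset
    (fun p hp => hp.1))
  have h0 := continuous_rsq 0
  have h1 := continuous_rsq 1
  refine IsClosed.inter (IsClosed.inter (isClosed_le continuous_const continuous_fst)
    (IsClosed.inter (isClosed_le continuous_fst continuous_const)
      (isClosed_le h0 continuous_const)))
    (IsClosed.inter (isClosed_le h1 continuous_const)
      (IsClosed.inter (isClosed_le continuous_const h0) (isClosed_le continuous_const h1)))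

theorem K6_compl {p : R4} (hp : p ∉ K6) :
    p ∉ ball4 ∨ rsq 0 p ≤ (1 / 5) ^ 2 ∨ rsq 1 p ≤ (1 / 5) ^ 2 := by
  by_contra hcon
  push Not at hcon
  obtain ⟨⟨h1, h2, h3⟩, h4, h5⟩ := hcon
  refine hp ⟨⟨h1, h2, h3.trans (by norm_num)⟩, ?_, h4.le, h5.le⟩
  rw [rsq_one_eq]
  have := sq_le_rsq p
  nlinarith

theorem bsupp_K6 : bsupp ⊆ K6 := by
  intro p hp
  by_contra h
  have hb : p ∈ ball4 := interior_subset (tsupp_subset_interior hp.1)
  obtain ⟨h1, h2, h3⟩ := hb
  refine h ⟨⟨h1, h2, h3.trans (by norm_num)⟩, ?_, hp.2.1, hp.2.2⟩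
  rw [rsq_one_eq]
  have := sq_le_rsq p
  nlinarith

section
variable {E : Type} [NormedAddCommGroup E] [NormedSpace ℝ E] {H : Type} [TopologicalSpace H]
  {I : ModelWithCorners ℝ E H} {M : Type} [TopologicalSpace M] [ChartedSpace H M] [T2Space M]

theorem tiso2_cisot {φ ψ : R4 → R4} (h : TIso ∅ (1 / 5) arc2 arc2 φ ψ) {G : R4 → M}
    (hG : EmbOn I G K6) : CIsot I (imp G K6 φ) (imp G K6 ψ) := by
  obtain ⟨Φ, h0, h1, ⟨K, hK, hKi, hKs⟩, -, ht⟩ := h
  have key := imp_isot (I := I) (m_A1) Φ isCompact_K6 hG (fun t p hp => by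
    rcases K6_compl hp with h | h | h
    · exact hKs t p (fun hk => h (interior_subset (hKi hk)))
    · rw [rsq_zero_eq] at h
      have e := ht t false p.1 p.2 h
      simpa [arc2] using e
    · rw [← nsq_sub_one] at h
      have e := ht t true p.1 (p.2 - (1, 0)) h
      simp only [arc2, e1, if_true, add_sub_cancel] at e
      exact e)
  have e0 : (fun p => Φ.f (0, p)) = φ := funext h0
  have e1' : (fun p => Φ.f (1, p)) = ψ := funext h1
  rwa [e0, e1'] at key

theorem tiso2_off {φ : R4 → R4} (h : TIso ∅ (1 / 5) arc2 arc2 φ φ) {p : R4} (hp : p ∉ K6) :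
    φ p = p := by
  obtain ⟨Φ, h0, h1, ⟨K, hK, hKi, hKs⟩, -, ht⟩ := h
  rw [← h0 p]
  rcases K6_compl hp with h | h | h
  · exact hKs 0 p (fun hk => h (interior_subset (hKi hk)))
  · rw [rsq_zero_eq] at h
    have e := ht 0 false p.1 p.2 h
    simpa [arc2] using e
  · rw [← nsq_sub_one] at h
    have e := ht 0 true p.1 (p.2 - (1, 0)) h
    simp only [arc2, e1, if_true, add_sub_cancel] at e
    exact e

/-- The general reflection principle for germs. -/
theorem refl_thin (t6 : StT6) (s4 : StS4) {R : R4 → R4} {σ : ℝ → ℝ} {r r0 : R3 → R3}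
    (hR : LInvol R σ r r0) (hRe : EmbOn 𝓘(ℝ, R4) R univ) (hRK : ∀ p ∈ K6, R p ∈ K6)
    (hRS : ∀ p ∈ SP, R p ∈ SP) (hsq : ∀ ε p, sq ε (R p) = R (sq ε p))
    (hβ : ∃ β : R4 → R4, TIso ∅ (1 / 5) arc2 arc2 barMap β ∧
      TIso ∅ (1 / 5) arc2 arc2 (fun p => R (β (R p))) barInv)
    {F : R4 → M} {φ φ' : M → M} (hF : EmbOn I F SP) (h1 : ∀ x, φ (φ' x) = x)
    (h2 : ∀ x, φ' (φ x) = x) (hT : Thin I F φ) : Thin I (fun p => F (R p)) φ' := by
  obtain ⟨β, b1, b2⟩ := hβ
  obtain ⟨ε0, hε0, H0⟩ := hT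
  obtain ⟨ε1, hε1, H1⟩ := t6 E H I M F K6 SP isCompact_K6 (s4.2.2.2.2.2.2.2.2.1) (fun p hp =>
    s4.1 p ⟨hp.2.2.1, hp.2.2.2⟩) hF
  refine ⟨min ε0 ε1, lt_min hε0 hε1, fun ε hε => ?_⟩
  obtain ⟨-, c0⟩ := H0 ε ⟨hε.1, lt_of_lt_of_le hε.2 (min_le_left _ _)⟩
  obtain ⟨hG, hb⟩ := H1 ε ⟨hε.1, lt_of_lt_of_le hε.2 (min_le_right _ _)⟩
  set G : R4 → M := F ∘ sq ε with hGdef
  have e0 : (fun p => F (R p)) ∘ sq ε = G ∘ R := by
    funext p
    simp only [hGdef, Function.comp, hsq]
  have hGR : EmbOn I (G ∘ R) K6 := EmbOn.comp hG (EmbOn.mono hRe (subset_univ _)) hRK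
  rw [e0]
  refine ⟨EmbOn.mono hGR bsupp_K6, ?_⟩
  -- the inverse
  rw [← hb bsupp_K6] at c0
  have hbm : MapsTo barMap K6 K6 := barMap_mapsTo bsupp_K6
  have hbi : ∀ p, barInv (barMap p) = p := fun p => bfam.gf 1 p
  have hbi' : ∀ p, barMap (barInv p) = p := fun p => bfam.fg 1 p
  have hbo : ∀ p, p ∉ K6 → barInv p = p := by
    intro p hp
    have h := barMap_off (fun h => hp (bsupp_K6 h))
    calc barInv p = barInv (barMap p) := by rw [h]
      _ = p := hbi p
  have hbim : MapsTo barInv K6 K6 := by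
    intro p hp
    by_contra h
    have h3 : barMap (barInv p) = barInv p := barMap_off (fun h' => h (bsupp_K6 h'))
    rw [hbi'] at h3
    rw [← h3] at h
    exact h hp
  have hinv : ∀ x, imp G K6 barMap (imp G K6 barInv x) = x := by
    intro x
    rw [← imp_comp hG.2 hbim]
    simp only [hbi']
    by_cases hx : x ∈ G '' K6
    · obtain ⟨p, hp, rfl⟩ := hx
      rw [imp_image hG.2 hp]
    · rw [imp_off hx]
  have c1 : CIsot I φ' (imp G K6 barInv) := CIsot.inv' c0 h1 hinv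
  -- the conjugate
  have c2 := tiso2_cisot (I := I) b1 hGR
  rw [imp_mono hGR.2 bsupp_K6 (fun p hp => barMap_off hp)] at c2
  have hconj : imp (G ∘ R) K6 β = imp G K6 (fun p => R (β (R p))) := by
    symm
    apply imp_eq_of hG.2 hGR.2
    · intro p hp
      exact ⟨R p, hRK p hp, rfl, by simp only [Function.comp, hR.inv]⟩
    · intro q hq
      exact Or.inl ⟨R q, hRK q hq, by simp only [Function.comp, hR.inv]⟩
  rw [hconj] at c2
  have c3 := tiso2_cisot (I := I) b2 hG
  exact CIsot.trans' c1 (CIsot.symm' (CIsot.trans' c2 c3))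

end

/-! ### the three involutions -/

theorem emb_of_invol {R : R4 → R4} (hR : Invol R) : EmbOn 𝓘(ℝ, R4) R univ := by
  refine ⟨fun p _ => ?_, fun p _ q _ e => by rw [← hR.inv p, e, hR.inv]⟩
  apply (m_A0 R4 _ p).2
  refine ⟨⟨univ, isOpen_univ, mem_univ _, hR.smooth.contDiffOn⟩, fun v hv => ?_⟩
  have hd : Differentiable ℝ R := hR.smooth.differentiable (by simp)
  have h1 : HasFDerivAt (fun x => R (R x)) ((fderiv ℝ R (R p)).comp (fderiv ℝ R p)) p :=
    (hd (R p)).hasFDerivAt.comp p (hd p).hasFDerivAt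
  have h2 : (fun x => R (R x)) = fun x => x := funext hR.inv
  rw [h2] at h1
  have h3 := h1.unique (hasFDerivAt_id p)
  have h4 := congrArg (fun L => L v) h3
  simp only [ContinuousLinearMap.comp_apply, hv, map_zero] at h4
  exact h4.symm

theorem axc_symm (ε a : ℝ) : axc ε (1 - a) = 1 - axc ε a := by
  unfold axc
  have e1 : (1 - a + 1 / 5) ^ 2 = (a - 6 / 5) ^ 2 := by ring
  have e2 : (1 - a - 6 / 5) ^ 2 = (a + 1 / 5) ^ 2 := by ring
  rw [e1, e2]; ring

theorem prof_symm (ε a : ℝ) : prof ε (1 - a) = prof ε a := by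
  unfold prof
  have e1 : (1 - a) ^ 2 = (a - 1) ^ 2 := by ring
  have e2 : (1 - a - 1) ^ 2 = a ^ 2 := by ring
  rw [e1, e2, add_comm]

theorem fac_symm (ε a k : ℝ) : fac ε (1 - a) k = fac ε a k := by
  unfold fac
  rw [prof_symm]

theorem sq_refh (ε : ℝ) (p : R4) : sq ε (refh p) = refh (sq ε p) := by
  simp [Helper18.BI.sq, refh, Complex.normSq_conj]

theorem sq_refs (ε : ℝ) (p : R4) : sq ε (refs p) = refs (sq ε p) := by
  refine Prod.ext ?_ rfl
  simp only [Helper18.BI.sq, refs]; ring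

theorem sq_swp (ε : ℝ) (p : R4) : sq ε (swp p) = swp (sq ε p) := by
  simp [Helper18.BI.sq, swp, Complex.normSq_conj, axc_symm, fac_symm]

theorem rsq_refh (c : ℝ) (p : R4) : rsq c (refh p) = rsq c p := by simp [rsq, nsq, refh]

theorem rsq_refs (c : ℝ) (p : R4) : rsq c (refs p) = rsq c p := rfl

theorem rsq_swp_zero (p : R4) : rsq 0 (swp p) = rsq 1 p := by
  simp only [rsq, nsq, swp, Complex.conj_re, Complex.conj_im]; ring

theorem rsq_swp_one (p : R4) : rsq 1 (swp p) = rsq 0 p := by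
  simp only [rsq, nsq, swp, Complex.conj_re, Complex.conj_im]; ring

theorem m_RefH (t6 : StT6) (s4 : StS4) (h : StR1h) (hspin : StSpin) : StRefH := by
  intro E _ _ H _ I M _ _ _ F φ φ' hF h1 h2
  have hb : ∃ β : R4 → R4, TIso ∅ (1 / 5) arc2 arc2 barMap β ∧
      TIso ∅ (1 / 5) arc2 arc2 (fun p => refh (β (refh p))) barInv :=
    ⟨barMap, (isPush_pair hspin).tIso.congr
      (by rintro (_ | _) s <;> simp [arc2, barPath_zero])
      (by rintro (_ | _) s <;> simp [arc2, barPath_one]) (fun _ => rfl) (fun _ => rfl), h⟩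
  have hK : ∀ p ∈ K6, refh p ∈ K6 := by
    rintro p ⟨⟨h1, h2, h3⟩, h4, h5, h6⟩
    exact ⟨⟨h1, h2, by rwa [rsq_refh]⟩, by rwa [rsq_refh], by rwa [rsq_refh], by rwa [rsq_refh]⟩
  have hS : ∀ p ∈ SP, refh p ∈ SP := by
    rintro p ((⟨h1, h2⟩ | ⟨h1, h2⟩) | ⟨h1, h2, h3, h4⟩)
    · exact Or.inl (Or.inl ⟨h1, by rw [rsq_refh, h2]⟩)
    · exact Or.inl (Or.inr ⟨h1, by rw [rsq_refh, h2]⟩)
    · exact Or.inr ⟨h1, h2, h3, by simp [refh, h4]⟩
  have he := emb_of_invol linvol_refh.toInvol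
  refine ⟨fun hT => refl_thin t6 s4 linvol_refh he hK hS sq_refh hb hF h1 h2 hT, fun hT => ?_⟩
  have hF' : EmbOn I (fun p => F (refh p)) SP :=
    EmbOn.comp hF (EmbOn.mono he (subset_univ _)) hS
  have := refl_thin t6 s4 linvol_refh he hK hS sq_refh hb hF' h2 h1 hT
  simp only [linvol_refh.inv] at this
  exact this

theorem m_RefS (t6 : StT6) (s4 : StS4) (h : StR1s) (hspin : StSpin) : StRefS := by
  intro E _ _ H _ I M _ _ _ F φ φ' hF h1 h2
  have hb : ∃ β : R4 → R4, TIso ∅ (1 / 5) arc2 arc2 barMap β ∧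
      TIso ∅ (1 / 5) arc2 arc2 (fun p => refs (β (refs p))) barInv :=
    ⟨barMap, (isPush_pair hspin).tIso.congr
      (by rintro (_ | _) s <;> simp [arc2, barPath_zero])
      (by rintro (_ | _) s <;> simp [arc2, barPath_one]) (fun _ => rfl) (fun _ => rfl), h⟩
  have hK : ∀ p ∈ K6, refs p ∈ K6 := by
    rintro p ⟨⟨h1, h2, h3⟩, h4, h5, h6⟩
    refine ⟨⟨?_, ?_, h3⟩, h4, h5, h6⟩
    · change -1 ≤ 1 - p.1; linarith
    · change 1 - p.1 ≤ 2; linarith
  have hh : ∀ x : ℝ, x = 1 / 2 → 1 - x = 1 / 2 := by intro x hx; rw [hx]; norm_num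
  have hS : ∀ p ∈ SP, refs p ∈ SP := by
    rintro p ((⟨h1, h2⟩ | ⟨h1, h2⟩) | ⟨h1, h2, h3, h4⟩)
    · exact Or.inl (Or.inl ⟨hh _ h1, h2⟩)
    · exact Or.inl (Or.inr ⟨hh _ h1, h2⟩)
    · exact Or.inr ⟨hh _ h1, h2, h3, h4⟩
  have he := emb_of_invol linvol_refs.toInvol
  refine ⟨fun hT => refl_thin t6 s4 linvol_refs he hK hS sq_refs hb hF h1 h2 hT, fun hT => ?_⟩
  have hF' : EmbOn I (fun p => F (refs p)) SP :=
    EmbOn.comp hF (EmbOn.mono he (subset_univ _)) hS
  have := refl_thin t6 s4 linvol_refs he hK hS sq_refs hb hF' h2 h1 hT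
  simp only [linvol_refs.inv] at this
  exact this

theorem m_R2sw (t6 : StT6) (s4 : StS4) (h : StR2) : StR2sw := by
  intro E _ _ H _ I M _ _ _ F φ φ' hF h1 h2
  have hK : ∀ p ∈ K6, swp p ∈ K6 := by
    rintro p ⟨⟨h1, h2, h3⟩, h4, h5, h6⟩
    exact ⟨⟨h1, h2, by rwa [rsq_swp_zero]⟩, by rwa [rsq_swp_one], by rwa [rsq_swp_zero],
      by rwa [rsq_swp_one]⟩
  have hS : ∀ p ∈ SP, swp p ∈ SP := by
    rintro p ((⟨h1, h2⟩ | ⟨h1, h2⟩) | ⟨h1, h2, h3, h4⟩)
    · exact Or.inl (Or.inr ⟨h1, by rw [rsq_swp_one, h2]⟩)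
    · exact Or.inl (Or.inl ⟨h1, by rw [rsq_swp_zero, h2]⟩)
    · refine Or.inr ⟨h1, ?_, ?_, by simp [swp, h4]⟩
      · change 1 / 5 ≤ 1 - p.2.1; linarith
      · change 1 - p.2.1 ≤ 4 / 5; linarith
  have he := emb_of_invol linvol_swp.toInvol
  refine ⟨fun hT => refl_thin t6 s4 linvol_swp he hK hS sq_swp h hF h1 h2 hT, fun hT => ?_⟩
  have hF' : EmbOn I (fun p => F (swp p)) SP :=
    EmbOn.comp hF (EmbOn.mono he (subset_univ _)) hS
  have := refl_thin t6 s4 linvol_swp he hK hS sq_swp h hF' h2 h1 hT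
  simp only [linvol_swp.inv] at this
  exact this

/-! ### vanishing -/

/-- the domain without the first hole -/
def K7 : Set R4 := {p | p ∈ ball4 ∧ (1 / 5) ^ 2 ≤ rsq 1 p}

theorem m_VanT (t6 : StT6) (s4 : StS4) (h : StVan) : StVanT := by
  intro E _ _ H _ I M _ _ _ F hF
  have hKc : IsCompact K7 :=
    isCompact_ball4.inter_right (isClosed_le continuous_const (continuous_rsq 1))
  have hLc : IsCompact (flat 0 ∪ sph 1 ∪ neck) := by
    have hFB := s4.2.2.2.2.2.2.2.2.2.1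
    have hsp : IsClosed {p : R4 | p ∈ flat 0 ∪ sph 1 ∪ neck} := by
      have h0 := continuous_rsq 0
      have h1 := continuous_rsq 1
      have hf : Continuous (fun p : R4 => p.1) := continuous_fst
      have ha : Continuous (fun p : R4 => p.2.1) := continuous_fst.comp continuous_snd
      have hw : Continuous (fun p : R4 => p.2.2) := continuous_snd.comp continuous_snd
      refine IsClosed.union (IsClosed.union ?_ ?_) ?_
      · exact (isClosed_eq hf continuous_const).inter (isClosed_le h0 continuous_const)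
      · exact (isClosed_eq hf continuous_const).inter (isClosed_eq h1 continuous_const)
      · exact (isClosed_eq hf continuous_const).inter ((isClosed_le continuous_const ha).inter
          ((isClosed_le ha continuous_const).inter (isClosed_eq hw continuous_const)))
    refine hFB.of_isClosed_subset hsp ?_
    rintro p ((h | h) | h)
    · exact Or.inl (Or.inl h)
    · exact Or.inl (Or.inr ⟨h.1, h.2.le⟩)
    · exact Or.inr h
  obtain ⟨ε1, hε1, H1⟩ := t6 E H I M F K7 (flat 0 ∪ sph 1 ∪ neck) hKc hLc (fun p hp => by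
    rcases le_or_gt (rsq 0 p) (1 / 25) with h0 | h0
    · rw [s4.2.2.1 p (Or.inl h0)]
      exact Or.inl (Or.inl ⟨rfl, h0⟩)
    · have := s4.1 p ⟨by norm_num at h0 ⊢; linarith, hp.2⟩
      rcases this with (h | h) | h
      · exact Or.inl (Or.inl ⟨h.1, h.2.le⟩)
      · exact Or.inl (Or.inr h)
      · exact Or.inr h) hF
  have hbK : bsupp ⊆ K7 := fun p hp => ⟨interior_subset (tsupp_subset_interior hp.1), hp.2.2⟩
  refine ⟨ε1, hε1, fun ε hε => ?_⟩
  obtain ⟨hG, hb⟩ := H1 ε hε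
  refine ⟨EmbOn.mono hG hbK, ?_⟩
  rw [← hb hbK]
  have hc := tiso_cisot (I := I) h hKc (fun p hp => by
    by_contra hcon
    push Not at hcon
    obtain ⟨h1, h2, h3⟩ := hcon
    refine hp ⟨h1, ?_⟩
    have h4 : ¬ nsq (p.2 - (1, 0)) < (1 / 5) ^ 2 := h3
    rw [nsq_sub_one] at h4
    exact not_lt.1 h4) hG
  have e : imp (F ∘ sq ε) K7 (fun p => p) = fun x => x := by
    funext x
    by_cases hx : x ∈ (F ∘ sq ε) '' K7
    · obtain ⟨p, hp, rfl⟩ := hx
      rw [imp_image hG.2 hp]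
    · rw [imp_off hx]
  rw [e] at hc
  exact CIsot.symm' hc

end Pool.Agent.Helper27.BI


end

/-! ## Helper27.BI.M_SPIN -/

section

/-!
# Project BI, part (C): the motion of the second arc in coordinates
-/

set_option autoImplicit false

open scoped Manifold ContDiff Topology ComplexConjugate
open Set Pool.Agent.Helper65.Barb Pool.Agent.Helper18.BI

namespace Pool.Agent.Helper27.BI

namespace SPIN

private theorem eta_re (s : ℝ) : (eta s).re = Real.cos (phi s) := by
  rw [eta, Complex.exp_ofReal_mul_I_re, phi]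

private theorem eta_im (s : ℝ) : (eta s).im = Real.sin (phi s) := by
  rw [eta, Complex.exp_ofReal_mul_I_im, phi]

private theorem dbl (P : ℝ) : Real.sin (Real.pi * P) =
    2 * Real.sin (Real.pi / 2 * P) * Real.cos (Real.pi / 2 * P) := by
  rw [← Real.sin_two_mul]; congr 1; ring

private theorem dblc (P : ℝ) : Real.cos (Real.pi * P) =
    Real.cos (Real.pi / 2 * P) ^ 2 - Real.sin (Real.pi / 2 * P) ^ 2 := by
  rw [← Real.cos_two_mul']; congr 1; ring

private theorem quad (P : ℝ) : Real.sin (2 * Real.pi * P) =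
    2 * Real.sin (Real.pi * P) * Real.cos (Real.pi * P) := by
  rw [← Real.sin_two_mul]; congr 1; ring

private theorem quadc (P : ℝ) : Real.cos (2 * Real.pi * P) =
    1 - 2 * Real.sin (Real.pi * P) ^ 2 := by
  have h1 : Real.cos (2 * Real.pi * P) = Real.cos (2 * (Real.pi * P)) := by congr 1; ring
  rw [h1, Real.cos_two_mul]
  have h := Real.sin_sq_add_cos_sq (Real.pi * P)
  linear_combination 2 * h

end SPIN

open SPIN in
theorem m_SPIN : StSpin := by
  intro s P
  set C := Real.cos (Real.pi / 2 * P) with hC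
  set S := Real.sin (Real.pi / 2 * P) with hS
  set c := Real.cos (phi s) with hc
  set d := Real.sin (phi s) with hd
  have e1 : S ^ 2 + C ^ 2 = 1 := Real.sin_sq_add_cos_sq _
  have e2 : d ^ 2 + c ^ 2 = 1 := Real.sin_sq_add_cos_sq _
  have ar : (qa s P).re = C ^ 2 + S ^ 2 * c := by
    simp [qa, ← hC, ← hS, eta_re, ← hc, Complex.add_re, Complex.mul_re, ← Complex.ofReal_pow]
  have ai : (qa s P).im = S ^ 2 * d := by
    simp [qa, ← hC, ← hS, eta_im, ← hd, Complex.add_im, Complex.mul_im, ← Complex.ofReal_pow]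
  have br : (qb s P).re = S * C * (c - 1) := by
    simp only [qb, ← hC, ← hS, Complex.re_ofReal_mul, Complex.sub_re, Complex.conj_re, eta_re,
      Complex.one_re]
    rfl
  have bi : (qb s P).im = - (S * C * d) := by
    simp only [qb, ← hC, ← hS, Complex.im_ofReal_mul, Complex.sub_im, Complex.conj_im, eta_im,
      Complex.one_im]
    ring
  have q1 := dbl P
  have q2 := dblc P
  have q3 := quad P
  have q4 := quadc P
  rw [q1, q2] at q3
  rw [q1] at q4
  rw [spin, rot, zarc]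
  refine Prod.ext ?_ (Complex.ext ?_ ?_)
  · simp only [Complex.normSq_apply, ar, ai, br, bi, mul_zero, Complex.zero_im, add_zero, one_mul,
      chi, ← hc, q4, ← hS, ← hC]
    linear_combination (S ^ 4 - S ^ 2 * C ^ 2) * e2 + (S ^ 2 + C ^ 2 + 1) * e1
  · simp only [q1, ← hd, mul_zero, map_zero, zero_add, Complex.ofReal_one, mul_one,
      Complex.sub_re, Complex.zero_re, Complex.mul_re, Complex.mul_im, Complex.re_ofNat,
      Complex.im_ofNat, Complex.I_re, Complex.I_im, ar, ai, br, bi, ← hS, ← hC]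
    linear_combination (-2 * S * C * d) * e1
  · simp only [q3, chi, ← hc, mul_zero, map_zero, zero_add, Complex.ofReal_one, mul_one,
      Complex.sub_im, Complex.zero_im, Complex.mul_re, Complex.mul_im, Complex.re_ofNat,
      Complex.im_ofNat, Complex.I_re, Complex.I_im, ar, ai, br, bi, ← hS, ← hC]
    linear_combination (-2 * S ^ 3 * C) * e2

end Pool.Agent.Helper27.BI


end

/-! ## Helper27.BI.AsmC -/

section

/-!
# Project BI, part (C): the results, unconditionally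
-/

set_option autoImplicit false

open scoped Manifold ContDiff Topology ComplexConjugate
open Set Pool.Agent.Helper65.Barb Pool.Agent.Helper18.BI

namespace Pool.Agent.Helper27.BI

theorem hSpin : StSpin := m_SPIN
theorem hCh : StCh := m_CH m_PERT
theorem hAddM : StAddM := m_ADDM hCh hSpin
theorem hVan : StVan := m_VAN hCh hSpin
theorem hR1h : StR1h := m_R1H hCh hSpin
theorem hR1s : StR1s := m_R1S hCh hSpin
theorem hR2 : StR2 := m_R2 hCh hSpin
theorem hKap : StKap := m_Kap m_KAPPA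
theorem hAddG : StAddG := m_AddG hAddM
theorem hADD2 : StADD2 := m_ADD2 hAddG hKap
theorem hRefH : StRefH := m_RefH hT6 hS4 hR1h hSpin
theorem hRefS : StRefS := m_RefS hT6 hS4 hR1s hSpin
theorem hR2sw : StR2sw := m_R2sw hT6 hS4 hR2
theorem hVanT : StVanT := m_VanT hT6 hS4 hVan

end Pool.Agent.Helper27.BI


end

/-! ## Helper27.BI.M_ZNSQ -/

section

set_option autoImplicit false

open scoped Manifold ContDiff Topology ComplexConjugate
open Set Pool.Agent.Helper65.Barb Pool.Agent.Helper18.BI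

namespace Pool.Agent.Helper27.BI

theorem m_ZNSQ : StZnsq := by
  intro A q s
  have h1 : Real.cos (2 * Real.pi * q) = 1 - 2 * Real.sin (Real.pi * q) ^ 2 := by
    rw [mul_assoc, Real.cos_two_mul, Real.cos_sq']; ring
  have h2 : Real.sin (2 * Real.pi * q) ^ 2 =
      4 * Real.sin (Real.pi * q) ^ 2 * (1 - Real.sin (Real.pi * q) ^ 2) := by
    rw [mul_assoc, Real.sin_two_mul, mul_pow, mul_pow, Real.cos_sq']; ring
  have h3 : Real.sin (phi s) ^ 2 = 1 - Real.cos (phi s) ^ 2 := Real.sin_sq _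
  unfold zarc nsq chi
  dsimp only
  rw [h1]
  generalize Real.sin (Real.pi * q) ^ 2 = S at *
  linear_combination ((1 - Real.cos (phi s)) / 2) ^ 2 * h2 + S * h3
end Pool.Agent.Helper27.BI


end
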