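import Pool.Agent.Helper65.Barb.Defs
import Pool.Agent.Helper70.BI.B.P01
import Pool.Agent.Helper70.BI.B.P03

/-!
# Project BI (MP_8e98f2_gt): collected modules, part 15

The contents of the modules
* Helper34.BI.Thick

in one file, so that the whole proof builds in a short time.
-/

/-! ## Helper34.BI.Thick -/

section

/-!
# Thickening a family of arcs to a family of germs along the spine
-/

set_option autoImplicit false

open Module Set Filter Topology
open scoped ContDiff Manifold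
open Pool.Agent.Helper65.Barb Pool.Agent.Helper18.BI

namespace Pool.Agent.Helper34.BI

/-- the linear correction of the thickening -/
noncomputable def thickB (F : R4 → R4) (c : ℝ → R4) (H : ℝ × ℝ → R4) (x : ℝ × ℝ) :
    R4 →L[ℝ] R4 :=
  (qmul (fderiv ℝ H x (0, 1) - deriv c x.2)).comp
    ((qmul (qinv (deriv c x.2))).comp (fderiv ℝ F (1 / 2, x.2, 0)))

/-- The thickening of a family of arcs `H (t, ·)`: near the two cuffs it is `F`, along the neck it
is `H (t, ·)`, with normal frames transported by quaternion multiplication. -/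
noncomputable def thick (F : R4 → R4) (c : ℝ → R4) (H : ℝ × ℝ → R4) (κ : ℝ → ℝ)
    (q : ℝ × R4) : R4 :=
  F q.2 + κ q.2.2.1 • ((H (q.1, q.2.2.1) - c q.2.2.1) +
    thickB F c H (q.1, q.2.2.1) (q.2.1 - 1 / 2, 0, q.2.2.2))

section
variable {F : R4 → R4} {c : ℝ → R4} {H : ℝ × ℝ → R4} {κ : ℝ → ℝ}

theorem contDiffAt_thickB (hc : ContDiff ℝ ∞ c) (hH : ContDiff ℝ ∞ H) {x : ℝ × ℝ}
    (h2 : ContDiffAt ℝ ∞ F (1 / 2, x.2, 0)) (h3 : deriv c x.2 ≠ 0) :
    ContDiffAt ℝ ∞ (thickB F c H) x := by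
  have e1 : ContDiffAt ℝ ∞ (fun x : ℝ × ℝ => fderiv ℝ H x (0, 1)) x :=
    ((hH.fderiv_right (m := ∞) (by simp)).contDiffAt).clm_apply contDiffAt_const
  have hdc : ContDiff ℝ ∞ (deriv c) := ContDiff.deriv' (n := ∞) (by simpa using hc)
  have e2 : ContDiffAt ℝ ∞ (fun x : ℝ × ℝ => deriv c x.2) x := (hdc.comp contDiff_snd).contDiffAt
  have e3 : ContDiffAt ℝ ∞ (fun x : ℝ × ℝ => qinv (deriv c x.2)) x :=
    ContDiffAt.comp (g := qinv) (f := fun x : ℝ × ℝ => deriv c x.2) x (contDiffAt_qinv h3) e2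
  have e4 : ContDiffAt ℝ ∞ (fun x : ℝ × ℝ => fderiv ℝ F ((1 / 2 : ℝ), x.2, (0 : ℂ))) x := by
    have g1 : ContDiffAt ℝ ∞ (fun x : ℝ × ℝ => (((1 / 2 : ℝ), x.2, (0 : ℂ)) : R4)) x :=
      (contDiff_const.prodMk (contDiff_snd.prodMk contDiff_const)).contDiffAt
    have g2 : ContDiffAt ℝ ∞ (fderiv ℝ F) ((1 / 2 : ℝ), x.2, (0 : ℂ)) :=
      h2.fderiv_right (m := ∞) (by simp)
    exact ContDiffAt.comp x g2 g1
  have e5 : ContDiffAt ℝ ∞ (fun x : ℝ × ℝ => qmul (fderiv ℝ H x (0, 1) - deriv c x.2)) x :=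
    (qmul.contDiff.contDiffAt).comp x (e1.sub e2)
  have e6 : ContDiffAt ℝ ∞ (fun x : ℝ × ℝ => qmul (qinv (deriv c x.2))) x :=
    (qmul.contDiff.contDiffAt).comp x e3
  exact e5.clm_comp (e6.clm_comp e4)

/-- pointwise smoothness of the thickening -/
theorem contDiffAt_thick (hc : ContDiff ℝ ∞ c) (hH : ContDiff ℝ ∞ H) (hκ : ContDiff ℝ ∞ κ)
    {t : ℝ} {p : R4} (h1 : ContDiffAt ℝ ∞ F p) (h2 : ContDiffAt ℝ ∞ F (1 / 2, p.2.1, 0))
    (h3 : deriv c p.2.1 ≠ 0) : ContDiffAt ℝ ∞ (thick F c H κ) (t, p) := by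
  have a1 : ContDiffAt ℝ ∞ (fun q : ℝ × R4 => F q.2) (t, p) :=
    ContDiffAt.comp (t, p) h1 contDiffAt_snd
  have a2 : ContDiffAt ℝ ∞ (fun q : ℝ × R4 => κ q.2.2.1) (t, p) :=
    (hκ.comp (contDiff_fst.comp (contDiff_snd.comp contDiff_snd))).contDiffAt
  have a3 : ContDiffAt ℝ ∞ (fun q : ℝ × R4 => (q.1, q.2.2.1)) (t, p) :=
    (contDiff_fst.prodMk (contDiff_fst.comp (contDiff_snd.comp contDiff_snd))).contDiffAt
  have a4 : ContDiffAt ℝ ∞ (fun q : ℝ × R4 => H (q.1, q.2.2.1)) (t, p) :=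
    ContDiffAt.comp (t, p) hH.contDiffAt a3
  have a5 : ContDiffAt ℝ ∞ (fun q : ℝ × R4 => c q.2.2.1) (t, p) :=
    (hc.comp (contDiff_fst.comp (contDiff_snd.comp contDiff_snd))).contDiffAt
  have a6 : ContDiffAt ℝ ∞ (fun q : ℝ × R4 => thickB F c H (q.1, q.2.2.1)) (t, p) :=
    ContDiffAt.comp (g := thickB F c H) (f := fun q : ℝ × R4 => (q.1, q.2.2.1)) (t, p)
      (contDiffAt_thickB (x := (t, p.2.1)) hc hH h2 h3) a3
  have a7 : ContDiffAt ℝ ∞ (fun q : ℝ × R4 => (((q.2.1 - 1 / 2 : ℝ), (0 : ℝ), q.2.2.2) : R4))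
      (t, p) := by
    have : ContDiff ℝ ∞ (fun q : ℝ × R4 => (((q.2.1 - 1 / 2 : ℝ), (0 : ℝ), q.2.2.2) : R4)) := by
      fun_prop
    exact this.contDiffAt
  exact a1.add (a2.smul ((a4.sub a5).add (a6.clm_apply a7)))

/-- the derivative of the thickening along the neck -/
theorem fderiv_thick (hc : ContDiff ℝ ∞ c) (hH : ContDiff ℝ ∞ H) (hκ : ContDiff ℝ ∞ κ)
    {t a : ℝ} (h2 : ContDiffAt ℝ ∞ F (1 / 2, a, 0)) (h3 : deriv c a ≠ 0)
    (h4 : fderiv ℝ F (1 / 2, a, 0) (0, 1, 0) = deriv c a)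
    (h5 : (deriv κ a) • (H (t, a) - c a) = 0)
    (h6 : κ a • (fderiv ℝ H (t, a) (0, 1) - deriv c a) = fderiv ℝ H (t, a) (0, 1) - deriv c a) :
    HasFDerivAt (fun p => thick F c H κ (t, p))
      ((qmul (fderiv ℝ H (t, a) (0, 1))).comp ((qmul (qinv (deriv c a))).comp
        (fderiv ℝ F (1 / 2, a, 0)))) (1 / 2, a, 0) := by
  set p₀ : R4 := (1 / 2, a, 0) with hp₀
  let pr : R4 →L[ℝ] ℝ := (ContinuousLinearMap.fst ℝ ℝ ℂ).comp (ContinuousLinearMap.snd ℝ ℝ (ℝ × ℂ))
  have hpr : ∀ p : R4, pr p = p.2.1 := fun p => rfl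
  have dpr : HasFDerivAt (fun p : R4 => p.2.1) pr p₀ := pr.hasFDerivAt
  have d1 : HasFDerivAt F (fderiv ℝ F p₀) p₀ := (h2.differentiableAt (by simp)).hasFDerivAt
  have d2 : HasFDerivAt (fun p : R4 => κ p.2.1) (deriv κ a • pr) p₀ := by
    have : HasDerivAt κ (deriv κ a) a := (hκ.differentiable (by simp) a).hasDerivAt
    exact this.comp_hasFDerivAt p₀ dpr
  have d3 : HasFDerivAt (fun p : R4 => c p.2.1) (pr.smulRight (deriv c a)) p₀ := by
    have : HasDerivAt c (deriv c a) a := (hc.differentiable (by simp) a).hasDerivAt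
    have := this.hasFDerivAt.comp p₀ dpr
    refine this.congr_fderiv ?_
    ext v <;> simp
  have d4 : HasFDerivAt (fun p : R4 => H (t, p.2.1)) (pr.smulRight (fderiv ℝ H (t, a) (0, 1)))
      p₀ := by
    have l : HasDerivAt (fun r : ℝ => H (t, r)) (fderiv ℝ H (t, a) (0, 1)) a := by
      have l : HasDerivAt (fun r : ℝ => ((t, r) : ℝ × ℝ)) (0, 1) a :=
        (hasDerivAt_const a t).prodMk (hasDerivAt_id a)
      exact HasFDerivAt.comp_hasDerivAt_of_eq a ((hH.differentiable (by simp) (t, a)).hasFDerivAt) l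
        rfl
    have := l.hasFDerivAt.comp p₀ dpr
    refine this.congr_fderiv ?_
    ext v <;> simp
  let ℓ : R4 →L[ℝ] R4 := (ContinuousLinearMap.fst ℝ ℝ (ℝ × ℂ)).prod
    ((0 : R4 →L[ℝ] ℝ).prod ((ContinuousLinearMap.snd ℝ ℝ ℂ).comp
      (ContinuousLinearMap.snd ℝ ℝ (ℝ × ℂ))))
  have d5 : HasFDerivAt (fun p : R4 => (((p.1 - 1 / 2 : ℝ), (0 : ℝ), p.2.2) : R4)) ℓ p₀ := by
    have e : (fun p : R4 => (((p.1 - 1 / 2 : ℝ), (0 : ℝ), p.2.2) : R4)) =
        fun p => ℓ p - (1 / 2, 0, 0) := by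
      funext p
      simp [ℓ]
    rw [e]
    exact ℓ.hasFDerivAt.sub_const _
  have d6 : DifferentiableAt ℝ (fun p : R4 => thickB F c H (t, p.2.1)) p₀ := by
    have g1 : DifferentiableAt ℝ (thickB F c H) (t, a) :=
      (contDiffAt_thickB (x := (t, a)) hc hH h2 h3).differentiableAt (by simp)
    have g2 : DifferentiableAt ℝ (fun p : R4 => (t, p.2.1)) p₀ := by fun_prop
    exact DifferentiableAt.comp p₀ g1 g2
  have d7 := d6.hasFDerivAt.clm_apply d5
  have d8 := d1.add (d2.smul ((d4.sub d3).add d7))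
  have hval : (((p₀.1 - 1 / 2 : ℝ), (0 : ℝ), p₀.2.2) : R4) = 0 := by
    simp [hp₀]
  refine d8.congr_fderiv ?_
  refine ContinuousLinearMap.ext fun v => ?_
  have h7 : fderiv ℝ F p₀ v = v.2.1 • deriv c a + fderiv ℝ F p₀ (ℓ v) := by
    rw [← h4, ← map_smul, ← map_add]
    congr 1
    ext <;> simp [ℓ]
  have h8 : qmul (deriv c a) (qmul (qinv (deriv c a)) (fderiv ℝ F p₀ v)) = fderiv ℝ F p₀ v :=
    qmul_qinv_qmul h3 _
  have hB : thickB F c H (t, a) = (qmul (fderiv ℝ H (t, a) (0, 1) - deriv c a)).comp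
    ((qmul (qinv (deriv c a))).comp (fderiv ℝ F p₀)) := rfl
  have h9 : qmul (qinv (deriv c a)) (deriv c a) = toQ.symm 1 := by
    have hne : toQ (deriv c a) ≠ 0 := by
      intro h0
      exact h3 (by simpa using h0)
    simp only [qmul_apply, qinv, ContinuousLinearEquiv.apply_symm_apply, inv_mul_cancel₀ hne]
  have h10 : ∀ x : R4, qmul x (toQ.symm 1) = x := by
    intro x
    simp only [qmul_apply, ContinuousLinearEquiv.apply_symm_apply, mul_one,
      ContinuousLinearEquiv.symm_apply_apply]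
  -- evaluate both sides
  simp only [ContinuousLinearMap.add_apply, ContinuousLinearMap.smul_apply,
    ContinuousLinearMap.sub_apply, ContinuousLinearMap.smulRight_apply,
    ContinuousLinearMap.comp_apply, hval, map_zero, add_zero, hpr]
  have ha : p₀.2.1 = a := rfl
  simp only [ha]
  rw [hB]
  simp only [ContinuousLinearMap.comp_apply]
  have h11 : (deriv κ a * v.2.1) • (H (t, a) - c a) = 0 := by
    rw [mul_comm, mul_smul, h5, smul_zero]
  have h12 : κ a • qmul (fderiv ℝ H (t, a) (0, 1) - deriv c a)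
      (qmul (qinv (deriv c a)) (fderiv ℝ F p₀ (ℓ v))) =
      qmul (fderiv ℝ H (t, a) (0, 1) - deriv c a)
        (qmul (qinv (deriv c a)) (fderiv ℝ F p₀ (ℓ v))) := by
    rw [← ContinuousLinearMap.smul_apply, ← map_smul, h6]
  have h13 : κ a • (v.2.1 • fderiv ℝ H (t, a) (0, 1) - v.2.1 • deriv c a) =
      v.2.1 • (fderiv ℝ H (t, a) (0, 1) - deriv c a) := by
    rw [← smul_sub, smul_comm, h6]
  have h14 : qmul (fderiv ℝ H (t, a) (0, 1))
      (qmul (qinv (deriv c a)) (fderiv ℝ F p₀ v)) =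
      fderiv ℝ F p₀ v + qmul (fderiv ℝ H (t, a) (0, 1) - deriv c a)
      (qmul (qinv (deriv c a)) (fderiv ℝ F p₀ v)) := by
    rw [map_sub, ContinuousLinearMap.sub_apply, h8]
    abel
  rw [h14]
  conv_rhs => rw [h7]
  rw [map_add, map_add, map_smul, map_smul, h9, h10]
  simp only [Pi.add_apply, Pi.sub_apply, hval, map_zero, add_zero, ha]
  rw [smul_eq_mul, h11, add_zero, smul_add, h13, h12, h7]

/-- A bar family: a germ `F` along the spine, with core `c`, and a family of arcs `H (t, ·)`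
constant near the ends of the neck. -/
structure BarData (F : R4 → R4) (c : ℝ → R4) (H : ℝ × ℝ → R4) (δ : ℝ) : Prop where
  loc : ∀ p ∈ SP, IsLocalDiffeomorphAt 𝓘(ℝ, R4) 𝓘(ℝ, R4) ∞ F p
  pos : 0 < δ
  small : δ < 1 / 10
  smooth_c : ContDiff ℝ ∞ c
  smooth_H : ContDiff ℝ ∞ H
  core : ∀ a ∈ Icc (1 / 5 : ℝ) (4 / 5), F (1 / 2, a, 0) = c a
  frozen : ∀ t a, (a ≤ 1 / 5 + δ ∨ 4 / 5 - δ ≤ a) → H (t, a) = c a

/-- the family of germs along the spine given by a bar family -/
noncomputable def barFam (F : R4 → R4) (c : ℝ → R4) (H : ℝ × ℝ → R4) (δ : ℝ) : ℝ × R4 → R4 :=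
  thick F c H (plateau (1 / 5) (4 / 5) δ)

theorem mem_neck {a : ℝ} (h1 : 1 / 5 ≤ a) (h2 : a ≤ 4 / 5) : ((1 / 2, a, 0) : R4) ∈ neck :=
  ⟨rfl, h1, h2, rfl⟩

theorem rsq_nonneg_aux (c : ℝ) (p : R4) : (p.2.1 - c) ^ 2 ≤ rsq c p := by
  unfold rsq nsq
  have h1 := sq_nonneg p.2.2.re
  have h2 := sq_nonneg p.2.2.im
  simp only
  linarith

theorem sph_zero_le {p : R4} (h : p ∈ sph 0) : p.2.1 ≤ 1 / 5 := by
  have h1 := rsq_nonneg_aux 0 p
  rw [h.2] at h1
  nlinarith [h1]

theorem le_sph_one {p : R4} (h : p ∈ sph 1) : 4 / 5 ≤ p.2.1 := by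
  have h1 := rsq_nonneg_aux 1 p
  rw [h.2] at h1
  nlinarith [h1]

namespace BarData
variable {δ : ℝ} (D : BarData F c H δ)
include D

theorem core_deriv {a : ℝ} (h1 : 1 / 5 < a) (h2 : a < 4 / 5) :
    fderiv ℝ F (1 / 2, a, 0) (0, 1, 0) = deriv c a := by
  have hloc := D.loc (1 / 2, a, 0) (Or.inr (mem_neck h1.le h2.le))
  have hd : HasFDerivAt F (fderiv ℝ F (1 / 2, a, 0)) (1 / 2, a, 0) :=
    ((eventually_contDiffAt hloc).self_of_nhds.differentiableAt (by simp)).hasFDerivAt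
  have l : HasDerivAt (fun r : ℝ => (((1 / 2 : ℝ), r, (0 : ℂ)) : R4)) (0, 1, 0) a :=
    (hasDerivAt_const a _).prodMk ((hasDerivAt_id a).prodMk (hasDerivAt_const a _))
  have e1 := HasFDerivAt.comp_hasDerivAt_of_eq a hd l rfl
  have e2 : HasDerivAt c (deriv c a) a := (D.smooth_c.differentiable (by simp) a).hasDerivAt
  have e3 : HasDerivAt c (fderiv ℝ F (1 / 2, a, 0) (0, 1, 0)) a := by
    refine e1.congr_of_eventuallyEq ?_
    filter_upwards [Ioo_mem_nhds h1 h2] with r hr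
    exact (D.core r ⟨hr.1.le, hr.2.le⟩).symm
  exact e3.unique e2

theorem core_ne_zero {a : ℝ} (h1 : 1 / 5 < a) (h2 : a < 4 / 5) : deriv c a ≠ 0 := by
  rw [← D.core_deriv h1 h2]
  intro h0
  have := injective_fderiv (D.loc (1 / 2, a, 0) (Or.inr (mem_neck h1.le h2.le)))
  have h3 := this (h0.trans (map_zero _).symm)
  simp at h3

/-- away from the middle part of the neck the family is constant -/
theorem barFam_eq {t : ℝ} {p : R4} (h : p.2.1 ≤ 1 / 5 + δ / 2 ∨ 4 / 5 - δ / 2 ≤ p.2.1) :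
    barFam F c H δ (t, p) = F p := by
  unfold barFam thick
  rw [plateau_zero D.pos h, zero_smul, add_zero]

/-- along the neck the family is the family of arcs -/
theorem barFam_neck {t a : ℝ} (h1 : 1 / 5 ≤ a) (h2 : a ≤ 4 / 5) :
    barFam F c H δ (t, (1 / 2, a, 0)) = H (t, a) := by
  have hval : (((1 / 2 - 1 / 2 : ℝ), (0 : ℝ), (0 : ℂ)) : R4) = 0 := by simp
  unfold barFam thick
  simp only [hval, map_zero, add_zero]
  rw [D.core a ⟨h1, h2⟩]
  rcases le_or_gt a (1 / 5 + δ) with h3 | h3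
  · rw [D.frozen t a (Or.inl h3)]
    simp
  · rcases le_or_gt (4 / 5 - δ) a with h4 | h4
    · rw [D.frozen t a (Or.inr h4)]
      simp
    · rw [plateau_one D.pos h3.le h4.le]
      simp

/-- the family is smooth near the spine -/
theorem eventually_smooth (t : ℝ) {p : R4} (hp : p ∈ SP) :
    ∀ᶠ q in 𝓝 (t, p), ContDiffAt ℝ ∞ (barFam F c H δ) q := by
  have hev := eventually_contDiffAt (D.loc p hp)
  by_cases hcase : p.2.1 < 1 / 5 + δ / 2 ∨ 4 / 5 - δ / 2 < p.2.1
  · -- the family is constant near `p`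
    have hop : ∀ᶠ q in 𝓝 p, q.2.1 < 1 / 5 + δ / 2 ∨ 4 / 5 - δ / 2 < q.2.1 := by
      have hcont : Continuous (fun q : R4 => q.2.1) := by fun_prop
      exact ((isOpen_lt hcont continuous_const).union (isOpen_lt continuous_const hcont)).mem_nhds
        hcase
    have h1 : ∀ᶠ q : ℝ × R4 in 𝓝 (t, p), ContDiffAt ℝ ∞ F q.2 :=
      continuous_snd.continuousAt.eventually (f := fun q : ℝ × R4 => q.2) hev
    have h2' : ∀ᶠ q : ℝ × R4 in 𝓝 (t, p),
        (q.2.2.1 < 1 / 5 + δ / 2 ∨ 4 / 5 - δ / 2 < q.2.2.1) := by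
      have hcs : Tendsto (fun q : ℝ × R4 => q.2) (𝓝 (t, p)) (𝓝 p) := continuous_snd.tendsto (t, p)
      exact hcs.eventually hop
    have h2 := h2'.eventually_nhds
    filter_upwards [h1, h2] with q hq1 hq2
    have e : barFam F c H δ =ᶠ[𝓝 q] fun r => F r.2 := by
      filter_upwards [hq2] with r hr
      exact D.barFam_eq (t := r.1) (p := r.2) (hr.imp le_of_lt le_of_lt)
    refine ContDiffAt.congr_of_eventuallyEq ?_ e
    exact ContDiffAt.comp q hq1 contDiffAt_snd
  · push Not at hcase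
    -- the point lies on the neck
    have hδ := D.pos
    have hneck : p ∈ neck := by
      rcases hp with (hp | hp) | hp
      · have := sph_zero_le hp
        linarith [hcase.1]
      · have := le_sph_one hp
        linarith [hcase.2]
      · exact hp
    have hp0 : ((1 / 2, p.2.1, 0) : R4) = p := by
      obtain ⟨e1, -, -, e4⟩ := hneck
      ext1
      · exact e1.symm
      · ext1
        · rfl
        · exact e4.symm
    have ha1 : 1 / 5 < p.2.1 := by linarith [hcase.1]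
    have ha2 : p.2.1 < 4 / 5 := by linarith [hcase.2]
    have h1 : ∀ᶠ q : ℝ × R4 in 𝓝 (t, p), ContDiffAt ℝ ∞ F q.2 :=
      continuous_snd.continuousAt.eventually (f := fun q : ℝ × R4 => q.2) hev
    have h2 : ∀ᶠ q : ℝ × R4 in 𝓝 (t, p), ContDiffAt ℝ ∞ F (1 / 2, q.2.2.1, 0) := by
      have hcont : Continuous (fun q : ℝ × R4 => ((1 / 2, q.2.2.1, 0) : R4)) := by fun_prop
      have hc1 := hcont.continuousAt (x := (t, p))
      refine hc1.eventually ?_
      show ∀ᶠ y in 𝓝 ((1 / 2, p.2.1, 0) : R4), ContDiffAt ℝ ∞ F y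
      rw [hp0]
      exact hev
    have h3 : ∀ᶠ q : ℝ × R4 in 𝓝 (t, p), 1 / 5 < q.2.2.1 ∧ q.2.2.1 < 4 / 5 := by
      have hcont : Continuous (fun q : ℝ × R4 => q.2.2.1) := by fun_prop
      exact ((isOpen_lt continuous_const hcont).inter (isOpen_lt hcont continuous_const)).mem_nhds
        ⟨ha1, ha2⟩
    filter_upwards [h1, h2, h3] with q hq1 hq2 hq3
    exact contDiffAt_thick D.smooth_c D.smooth_H (contDiff_plateau _ _ _) (t := q.1) (p := q.2)
      hq1 hq2 (D.core_ne_zero hq3.1 hq3.2)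

/-- the members of the family are local diffeomorphisms along the spine -/
theorem isLocalDiffeomorphAt {t : ℝ} (himm : ∀ a ∈ Icc (1 / 5 : ℝ) (4 / 5),
      fderiv ℝ H (t, a) (0, 1) ≠ 0) {p : R4} (hp : p ∈ SP) :
    IsLocalDiffeomorphAt 𝓘(ℝ, R4) 𝓘(ℝ, R4) ∞ (fun p => barFam F c H δ (t, p)) p := by
  have hδ := D.pos
  have hsm : ∀ᶠ q in 𝓝 p, ContDiffAt ℝ ∞ (fun p => barFam F c H δ (t, p)) q := by
    have h1 := D.eventually_smooth t hp
    have hcont : Continuous (fun q : R4 => (t, q)) := by fun_prop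
    filter_upwards [hcont.continuousAt.eventually h1] with q hq
    exact ContDiffAt.comp q hq (contDiff_const.prodMk contDiff_id).contDiffAt
  by_cases hcase : p.2.1 < 1 / 5 + δ / 2 ∨ 4 / 5 - δ / 2 < p.2.1
  · have hop : ∀ᶠ q in 𝓝 p, q.2.1 < 1 / 5 + δ / 2 ∨ 4 / 5 - δ / 2 < q.2.1 := by
      have hcont : Continuous (fun q : R4 => q.2.1) := by fun_prop
      exact ((isOpen_lt hcont continuous_const).union (isOpen_lt continuous_const hcont)).mem_nhds
        hcase
    have e : (fun p => barFam F c H δ (t, p)) =ᶠ[𝓝 p] F := by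
      filter_upwards [hop] with r hr
      exact D.barFam_eq (hr.imp le_of_lt le_of_lt)
    refine isLocalDiffeomorphAt_of_injective rfl hsm ?_
    rw [e.fderiv_eq]
    exact injective_fderiv (D.loc p hp)
  · push Not at hcase
    have hneck : p ∈ neck := by
      rcases hp with (hp | hp) | hp
      · have := sph_zero_le hp
        linarith [hcase.1]
      · have := le_sph_one hp
        linarith [hcase.2]
      · exact hp
    have hp0 : ((1 / 2, p.2.1, 0) : R4) = p := by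
      obtain ⟨e1, -, -, e4⟩ := hneck
      ext1
      · exact e1.symm
      · ext1
        · rfl
        · exact e4.symm
    have ha1 : 1 / 5 < p.2.1 := by linarith [hcase.1]
    have ha2 : p.2.1 < 4 / 5 := by linarith [hcase.2]
    set a := p.2.1 with ha
    have hne := D.core_ne_zero ha1 ha2
    have hF2 : ContDiffAt ℝ ∞ F (1 / 2, a, 0) := by
      rw [hp0]
      exact (eventually_contDiffAt (D.loc p hp)).self_of_nhds
    -- the two boundary conditions
    have h5 : (deriv (plateau (1 / 5) (4 / 5) δ) a) • (H (t, a) - c a) = 0 := by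
      by_cases h : a ≤ 1 / 5 + δ ∨ 4 / 5 - δ ≤ a
      · rw [D.frozen t a h, sub_self, smul_zero]
      · push Not at h
        have : plateau (1 / 5) (4 / 5) δ =ᶠ[𝓝 a] fun _ => 1 := by
          filter_upwards [Ioo_mem_nhds h.1 h.2] with r hr
          exact plateau_one D.pos hr.1.le hr.2.le
        rw [this.deriv_eq, deriv_const, zero_smul]
    have h6 : plateau (1 / 5) (4 / 5) δ a • (fderiv ℝ H (t, a) (0, 1) - deriv c a) =
        fderiv ℝ H (t, a) (0, 1) - deriv c a := by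
      by_cases h : 1 / 5 + δ ≤ a ∧ a ≤ 4 / 5 - δ
      · rw [plateau_one D.pos h.1 h.2, one_smul]
      · have hor : a < 1 / 5 + δ ∨ 4 / 5 - δ < a := by
          by_contra hcon
          push Not at hcon
          exact h hcon
        have hopen : ∀ᶠ r in 𝓝 a, r ≤ 1 / 5 + δ ∨ 4 / 5 - δ ≤ r := by
          rcases hor with hor | hor
          · filter_upwards [Iio_mem_nhds hor] with r hr
            exact Or.inl (le_of_lt hr)
          · filter_upwards [Ioi_mem_nhds hor] with r hr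
            exact Or.inr (le_of_lt hr)
        have l : HasDerivAt (fun r : ℝ => H (t, r)) (fderiv ℝ H (t, a) (0, 1)) a := by
          have l : HasDerivAt (fun r : ℝ => ((t, r) : ℝ × ℝ)) (0, 1) a :=
            (hasDerivAt_const a t).prodMk (hasDerivAt_id a)
          exact HasFDerivAt.comp_hasDerivAt_of_eq a
            ((D.smooth_H.differentiable (by simp) (t, a)).hasFDerivAt) l rfl
        have l2 : HasDerivAt (fun r : ℝ => H (t, r)) (deriv c a) a := by
          have : HasDerivAt c (deriv c a) a := (D.smooth_c.differentiable (by simp) a).hasDerivAt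
          refine this.congr_of_eventuallyEq ?_
          filter_upwards [hopen] with r hr
          exact D.frozen t r hr
        rw [l.unique l2, sub_self, smul_zero]
    have hder := fderiv_thick D.smooth_c D.smooth_H (contDiff_plateau (1 / 5) (4 / 5) δ) (t := t)
      hF2 hne (D.core_deriv ha1 ha2) h5 h6
    refine isLocalDiffeomorphAt_of_injective rfl hsm ?_
    rw [← hp0]
    have e : fderiv ℝ (fun p => barFam F c H δ (t, p)) (1 / 2, a, 0) = _ := hder.fderiv
    rw [e]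
    have i1 := injective_fderiv (D.loc (1 / 2, a, 0) (by rw [hp0]; exact hp))
    have i2 := qmul_injective (qinv_ne_zero hne)
    have i3 := qmul_injective (himm a ⟨ha1.le, ha2.le⟩)
    exact i3.comp (i2.comp i1)

/-- the family of germs, over a time interval on which the arcs are embedded and disjoint from
the cuffs -/
theorem embOn {t : ℝ} (himm : ∀ a ∈ Icc (1 / 5 : ℝ) (4 / 5), fderiv ℝ H (t, a) (0, 1) ≠ 0)
    (hF : InjOn F (sph 0 ∪ sph 1))
    (hinj : InjOn (fun a => H (t, a)) (Icc (1 / 5) (4 / 5)))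
    (hdis : ∀ a ∈ Ioo (1 / 5 : ℝ) (4 / 5), H (t, a) ∉ F '' (sph 0 ∪ sph 1)) :
    EmbOn 𝓘(ℝ, R4) (fun p => barFam F c H δ (t, p)) SP := by
  refine ⟨fun p hp => D.isLocalDiffeomorphAt himm hp, ?_⟩
  have hδ := D.pos
  have hδ2 := D.small
  -- values on the cuffs
  have v1 : ∀ p ∈ sph 0 ∪ sph 1, barFam F c H δ (t, p) = F p := by
    rintro p (hp | hp)
    · exact D.barFam_eq (Or.inl (by linarith [sph_zero_le hp]))
    · exact D.barFam_eq (Or.inr (by linarith [le_sph_one hp]))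
  have v2 : ∀ p ∈ neck, barFam F c H δ (t, p) = H (t, p.2.1) ∧ p = (1 / 2, p.2.1, 0) := by
    rintro p ⟨h1, h2, h3, h4⟩
    have hp0 : p = (1 / 2, p.2.1, 0) := by
      ext1
      · exact h1
      · ext1
        · rfl
        · exact h4
    refine ⟨?_, hp0⟩
    conv_lhs => rw [hp0]
    exact D.barFam_neck h2 h3
  -- points of the neck which are not end points
  have v3 : ∀ p ∈ SP, p ∈ sph 0 ∪ sph 1 ∨ (p ∈ neck ∧ p.2.1 ∈ Ioo (1 / 5 : ℝ) (4 / 5)) := by
    rintro p (hp | hp)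
    · exact Or.inl hp
    · obtain ⟨h1, h2, h3, h4⟩ := hp
      rcases eq_or_lt_of_le h2 with h5 | h5
      · left; left
        refine ⟨h1, ?_⟩
        unfold rsq nsq
        simp only [h4, ← h5]
        norm_num
      · rcases eq_or_lt_of_le h3 with h6 | h6
        · left; right
          refine ⟨h1, ?_⟩
          unfold rsq nsq
          simp only [h4, h6]
          norm_num
        · exact Or.inr ⟨⟨h1, h2, h3, h4⟩, h5, h6⟩
  intro p hp q hq he
  simp only at he
  rcases v3 p hp with hp1 | ⟨hp1, hp2⟩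
  · rcases v3 q hq with hq1 | ⟨hq1, hq2⟩
    · rw [v1 p hp1, v1 q hq1] at he
      exact hF hp1 hq1 he
    · rw [v1 p hp1, (v2 q hq1).1] at he
      exact absurd ⟨p, hp1, he⟩ (hdis _ hq2)
  · rcases v3 q hq with hq1 | ⟨hq1, hq2⟩
    · rw [v1 q hq1, (v2 p hp1).1] at he
      exact absurd ⟨q, hq1, he.symm⟩ (hdis _ hp2)
    · rw [(v2 q hq1).1, (v2 p hp1).1] at he
      have := hinj ⟨hp2.1.le, hp2.2.le⟩ ⟨hq2.1.le, hq2.2.le⟩ he
      rw [(v2 p hp1).2, (v2 q hq1).2, this]

end BarData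

end

end Pool.Agent.Helper34.BI


end
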