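import Pool.Agent.Helper65.Barb.Defs
import Pool.Agent.Helper70.BI.B.P04
import Pool.Agent.Helper70.BI.B.P05
import Pool.Agent.Helper70.BI.B.P15

/-!
# Project BI (MP_8e98f2_gt): collected modules, part 16

The contents of the modules
* Helper70.BI.StU
* Helper70.BI.StS
* Helper70.BI.StX
* Helper70.BI.H.StN

in one file, so that the whole proof builds in a short time.
-/

/-! ## Helper70.BI.StU -/

section

/-!
# Project BI, part (E), section U: germs both of whose cuffs bound flat balls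

Statements (as `Prop` definitions) with complete proofs in the docstrings.  A module `M_X` proves
`theorem m_X : StX` (possibly from other statements as hypotheses `(h : StY)`).  Everything is in
`M = R4`; `LD F p` = local diffeomorphism at `p`, `core F a = F (ax a)`, `ax a = (1/2, (a, 0))`,
`Eqv F F'` = same implantation class (Base.lean).  The result of this file is `StUT`.
-/

set_option autoImplicit false

open scoped Manifold ContDiff Topology ComplexConjugate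
open Set Filter Pool.Agent.Helper65.Barb Pool.Agent.Helper18.BI

namespace Pool.Agent.Helper70.BI

open Pool.Agent.Helper34.BI (cfac BarData barFam)

/-! ## definitions -/

/-- the centre `(c, 0)` in three-space; `ax c = (1/2, pc c)` -/
noncomputable def pc (c : ℝ) : R3 := (c, 0)

/-- The core of the bar of `F` crosses the interior of the flat ball around `(1/2, (c, 0))` at the
parameter `γ`, transversally, with the sign of `e`. -/
def CrossAt (F : R4 → R4) (c γ e : ℝ) : Prop :=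
  ∃ x₀ : R3, nsq (x₀ - pc c) < 1 / 25 ∧ core F γ = F (1 / 2, x₀) ∧
    ∃ (l : ℝ) (v : R3), 0 < e * l ∧
      fderiv ℝ F (ax γ) (0, ((1 : ℝ), (0 : ℂ))) = fderiv ℝ F (1 / 2, x₀) (l, v)

/-- `F` is a germ of an embedding along the spine and along the flat ball `flat c` (`c = 0, 1`),
disjoint from the other cuff; the core of the bar meets the flat ball only at its foot (parameter
`1/5 + 3/5 c`) and at the parameter `γ`, where it crosses it with the sign of `e`. -/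
structure Br (c : ℝ) (F : R4 → R4) (γ e : ℝ) : Prop where
  loc : ∀ p ∈ SP ∪ flat c, LD F p
  inj : InjOn F SP
  injF : InjOn F (flat c ∪ sph (1 - c))
  mem : γ ∈ Ioo (1 / 5 : ℝ) (4 / 5)
  cr : CrossAt F c γ e
  only : ∀ a ∈ Icc (1 / 5 : ℝ) (4 / 5), core F a ∈ F '' flat c → a = 1 / 5 + 3 / 5 * c ∨ a = γ

/-- Both flat balls are embedded, disjoint, and met once by the bar: first the ball at the far end
(parameter `β`), then the ball at the near end (parameter `α`). -/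
structure Theta (F : R4 → R4) (α β e d : ℝ) : Prop where
  a : Br 0 F α e
  b : Br 1 F β d
  dis : Disjoint (F '' flat 0) (F '' flat 1)
  ord : β < α

/-- In the chart `F` the strand through the flat ball `flat c` is the vertical line through the
centre. -/
def Strand (c : ℝ) (F : R4 → R4) (γ e : ℝ) : Prop :=
  ∃ τ : ℝ → ℝ, (∀ᶠ s in 𝓝 (1 / 2 : ℝ), ContDiffAt ℝ ∞ τ s) ∧ τ (1 / 2) = γ ∧
    0 < e * deriv τ (1 / 2) ∧ ∀ᶠ s in 𝓝 (1 / 2 : ℝ), F (s, pc c) = core F (τ s)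

/-- Normal form at the end `c`. -/
structure NB (c : ℝ) (F : R4 → R4) (γ e δ : ℝ) : Prop where
  br : Br c F γ e
  pos : 0 < δ
  small : δ ≤ 1 / 100
  near : ∀ p, ‖p - ax c‖ < δ → F p = p
  str : ∀ a, |a - γ| < δ → core F a = (1 / 2 + e * (a - γ), pc c)

/-- Normal form at both ends, with `α = 3/5`, `β = 2/5`. -/
structure NF (F : R4 → R4) (e d δ : ℝ) : Prop where
  th : Theta F (3 / 5) (2 / 5) e d
  a : NB 0 F (3 / 5) e δ
  b : NB 1 F (2 / 5) d δ

/-- The germ of `f` at `y₀` is realized by the end of an isotopy of `E` starting at the identity,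
supported in a compact subset of `U`. -/
def RealG {E : Type} [NormedAddCommGroup E] [NormedSpace ℝ E] (U : Set E) (y₀ : E)
    (f : E → E) : Prop :=
  ∃ G : DFam 𝓘(ℝ, E) E, (∀ y, G.f (0, y) = y) ∧
    (∃ C : Set E, IsCompact C ∧ C ⊆ U ∧ ∀ t y, y ∉ C → G.f (t, y) = y) ∧
    ∀ᶠ y in 𝓝 y₀, G.f (1, y) = f y

/-- contraction of the flat ball around `(s, c, 0)`: in three-space `x - c ↦ lam (x - c)` for
`|x - c|² ≤ 1/20`, the identity for `|x - c|² ≥ 9/100` (`cfac lam q = lam + (1-lam) step(..)`) -/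
noncomputable def clc (c lam : ℝ) (p : R4) : R4 :=
  (p.1, pc c + cfac lam (rsq c p) • (p.2 - pc c))

/-- reparametrization of the bar -/
def repm (m : ℝ → ℝ) (p : R4) : R4 := (p.1, (m p.2.1, p.2.2))

/-- admissible reparametrizations: increasing, the identity near the ends -/
def RepOK (m : ℝ → ℝ) : Prop :=
  ContDiff ℝ ∞ m ∧ (∀ a, 0 < deriv m a) ∧
    ∃ η : ℝ, 0 < η ∧ ∀ a, (a ≤ 1 / 5 + η ∨ 4 / 5 - η ≤ a) → m a = a

/-! ## realization of germs of diffeomorphisms by isotopies with small support -/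

/-- **PT** (perturbation of the identity).
*Proof.* As in module PERT (`Pool/Agent/Helper27/BI/M_PERT.lean`, on main; same proof, without the
level coordinate).  For fixed `t` the map `x ↦ x + g (t, x)` is a homeomorphism of `E`
(`ApproximatesLinearOn` the identity on `univ` with constant `1/2 < 1`).  `(t, x) ↦ (t, x + g (t, x))`
is smooth and bijective on `ℝ × E`, its derivative is injective at every point
(`‖fderiv (g (t, ·))‖ ≤ 1/2`), so its inverse is smooth by the inverse function theorem. -/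
def StPT : Prop :=
  ∀ (E : Type) [NormedAddCommGroup E] [NormedSpace ℝ E] [FiniteDimensional ℝ E] (g : ℝ × E → E),
    ContDiff ℝ ∞ g → (∀ t x y, ‖g (t, x) - g (t, y)‖ ≤ 1 / 2 * ‖x - y‖) →
    ∃ F : DFam 𝓘(ℝ, E) E, ∀ t x, F.f (t, x) = x + g (t, x)

/-- **SM** (germs close to the identity) (uses `StPT`).
*Proof.* Let `b : E → ℝ` be a smooth bump function, `1` on `ball 0 1`, `0` off `ball 0 2`, with values
in `[0, 1]` (`ContDiffBump`, finite dimension), and `K ≥ 0` a bound of `‖fderiv b‖`.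
`c = 1 / (8 (1 + 2 K))`.  Given `f`, choose `r > 0` with `closedBall y₀ (2 r) ⊆ U`, `f` smooth at all
points of `ball y₀ (3 r)`, and `‖fderiv f y - id‖ < 2 c` there (continuity of `fderiv f` near
`y₀`); then for `h y = f y - y`: `‖h y‖ ≤ 2 c · 2 r` on `closedBall y₀ (2 r)` (mean value inequality
on the convex ball, `h y₀ = 0`).  `g (t, y) = step t • b ((y - y₀) / r) • h y`: smooth (it vanishes
near every point outside `closedBall y₀ (2r)`), and the derivative in `y` is bounded by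
`(K / r) (4 c r) + 2 c = 2 c (1 + 2 K) ≤ 1/2` everywhere, so `g` satisfies the Lipschitz hypothesis
of `StPT`.  `G.f (0, y) = y`, `G.f (1, y) = f y` on `ball y₀ r`, support in `closedBall y₀ (2 r)`. -/
def StSM : Prop :=
  ∀ (E : Type) [NormedAddCommGroup E] [NormedSpace ℝ E] [FiniteDimensional ℝ E],
    ∃ c : ℝ, 0 < c ∧ ∀ (U : Set E) (y₀ : E) (f : E → E), IsOpen U → y₀ ∈ U →
      (∀ᶠ y in 𝓝 y₀, ContDiffAt ℝ ∞ f y) → f y₀ = y₀ →
      ‖fderiv ℝ f y₀ - ContinuousLinearMap.id ℝ E‖ < c → RealG U y₀ f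

/-- **TR** (compositions and translations) (uses `StPT`).
*Proof.* (i) compose the two families: `G.f (t, y) = G₂.f (t, G₁.f (t, y))` (`DFam.comp`), support in
the union of the two compact sets (if `y` is in neither then both fix it).
(ii) First a small translation: for `y₀ ∈ U` there is `ε > 0` such that for all `z, z'` in
`ball y₀ ε`: `RealG U z (y ↦ y + (z' - z))`: with `closedBall y₀ (4 r) ⊆ U`,
`g (t, y) = step t • b ((y - y₀) / (2 r)) • (z' - z)`, where `b` is a bump function (`1` on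
`ball 0 1`, `0` off `ball 0 2`), `ε ≤ r` and `2 ε K / (2 r) ≤ 1/2`; `StPT`.  The relation
`P z z' := RealG U z (y ↦ y + (z' - z))` is transitive on `U` by (i) and symmetric (by the small
case only symmetric steps are needed); `IsPreconnected.induction₂` (or the open-closed argument). -/
def StTR : Prop :=
  ∀ (E : Type) [NormedAddCommGroup E] [NormedSpace ℝ E] [FiniteDimensional ℝ E],
    (∀ (U : Set E) (y₀ : E) (f₁ f₂ : E → E), RealG U y₀ f₁ → RealG U (f₁ y₀) f₂ →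
      ContinuousAt f₁ y₀ → RealG U y₀ (fun y => f₂ (f₁ y))) ∧
    ∀ (U : Set E) (y₀ y₁ : E), IsOpen U → IsPreconnected U → y₀ ∈ U → y₁ ∈ U →
      RealG U y₀ (fun y => y + (y₁ - y₀))

/-- **GL** (the group of linear maps with positive determinant is generated by every
neighbourhood of the identity).
*Proof.* Choose a basis (`Module.finBasis`) and work with matrices `Matrix (Fin n) (Fin n) ℝ`
(`LinearMap.toMatrix`, continuous in finite dimension): `P'` holds for all matrices near `1` and is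
multiplicative.  Use `Matrix.diagonal_transvection_induction` (file
`Mathlib/LinearAlgebra/Matrix/Transvection.lean`): (1) transvections: `1 + t E_ij =
(1 + (t/N) E_ij)^N`, and for large `N` the factor is near `1`; (2) `diag D` with `det = ∏ D_i > 0`:
the number of negative entries is even; induction on this number: if there are two negative
entries `D_i, D_j` then `diag D = R · diag D'` where `D'` has `|D_i|`, `|D_j|` and `R` is `-1` on the
`i, j` coordinates and `1` elsewhere; `R` is the rotation by `π` in the `(i, j)`-plane, the `N`-th power of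
the rotation by `π/N`, near `1` for large `N`.  If all entries are positive,
`diag D = (diag (D_i^(1/N)))^N`, and `D_i^(1/N) → 1`.  (Note `det (diagonal D) = det M > 0` in the
induction principle.) -/
def StGL : Prop :=
  ∀ (E : Type) [NormedAddCommGroup E] [NormedSpace ℝ E] [FiniteDimensional ℝ E]
    (P : (E →L[ℝ] E) → Prop), (∀ A B, P A → P B → P (A.comp B)) →
    (∃ c : ℝ, 0 < c ∧ ∀ A, ‖A - ContinuousLinearMap.id ℝ E‖ < c → P A) →
    ∀ A : E →L[ℝ] E, 0 < A.det → P A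

/-- **LOC** (uses `StSM`, `StTR`, `StGL`).  A germ of an orientation preserving diffeomorphism of
`R4` can be undone by an isotopy supported in a connected open set.
*Proof.* Let `y₀ = F p`, `y₁ = p`, `f` a local inverse of `F` at `p` (from the partial
diffeomorphism): `f (F q) = q` for `q` near `p`, `f` smooth near `y₀`, `f y₀ = y₁`,
`L := fderiv f y₀ = (fderiv F p)⁻¹`, `det L > 0`.  (1) For `A` with `0 < A.det` the germ
`y ↦ z + A (y - z)` is in `RealG U' z` for every open `U'` and `z ∈ U'`: let `P A` be this statement for all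
`U', z`; it is multiplicative by `StTR` (i) and holds near the identity by `StSM`; `StGL`.
(2) `k y := y₀ + L⁻¹ (f y - y₁)` satisfies `k y₀ = y₀`, `fderiv k y₀ = id`: `RealG U y₀ k` by `StSM`.
(3) `f y = (y₀ + L (k y - y₀)) + (y₁ - y₀)`: compose (2), (1) for `L` at `z = y₀`, and the translation
(`StTR` (ii)).  So `RealG U y₀ f`: `G.f (1, y) = f y` near `y₀`, hence `G.f (1, F q) = q` near `p`. -/
def StLOC : Prop :=
  ∀ (F : R4 → R4) (p : R4) (U : Set R4), LD F p → 0 < (fderiv ℝ F p).det → IsOpen U →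
    IsPreconnected U → F p ∈ U → p ∈ U →
    ∃ G : DFam I4 R4, (∀ y, G.f (0, y) = y) ∧
      (∃ C : Set R4, IsCompact C ∧ C ⊆ U ∧ ∀ t y, y ∉ C → G.f (t, y) = y) ∧
      ∀ᶠ q in 𝓝 p, G.f (1, F q) = q

/-- **DET**.  The determinant has constant sign along `FB`, `flat 0`, `flat 1`.
*Proof.* `p ↦ (fderiv F p).det` is continuous and nonzero at the points where `F` is a local
diffeomorphism (`ld_iff`; an injective endomorphism of `R4` has nonzero determinant).  `flat c`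
(`c = 0, 1`) and `neck` are convex, `flat 0 ∩ neck ∋ ax (1/5)`, `flat 1 ∩ neck ∋ ax (4/5)`, so these sets
and their union `FB` are preconnected; a continuous nonvanishing real function on a preconnected
set has constant sign (`IsPreconnected.intermediate_value`). -/
def StDET : Prop :=
  ∀ (F : R4 → R4) (L : Set R4), (L = FB ∨ L = flat 0 ∨ L = flat 1) → (∀ p ∈ L, LD F p) →
    ∀ p ∈ L, ∀ q ∈ L, 0 < (fderiv ℝ F p).det → 0 < (fderiv ℝ F q).det

/-! ## centring -/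

/-- **C1** (centring) (uses `StTR` (ii) in `E = R3` and module PERT,
`Pool.Agent.Helper27.BI.StPert`).
*Proof.* `F' = F ∘ G` with `G = G₁ ∘ G₂` level preserving.
(1) `x₀` from `CrossAt`.  The set `U = {x : R3 | nsq (x - pc c) < 1/25}` is open and convex; `StTR` (ii) gives a
`DFam` of `R3`, at time 1 a diffeomorphism `g₁`, equal to the identity off a compact `C ⊆ U` and
`g₁ y = y + (x₀ - pc c)` near `pc c`.  `G₁ (s, x) = (s, g₁ x)`.  There is `η₁ > 0` with `nsq (x - pc c) < 1/25 - η₁`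
on `C`.  `F₁ = F ∘ G₁`: `F₁ (1/2, pc c) = F (1/2, x₀) = core F γ`, and `fderiv F₁ (ax c) = fderiv F (1/2, x₀)`.
(2) `F₁` is a local diffeomorphism at `ax c` (`G₁` is a diffeomorphism, `(1/2,x₀) ∈ flat c`); let `ψ` be a
local inverse near `core F γ`, and `y(a) = ψ (core F a) = (σ(a), ξ(a))` for `a` near `γ` (smooth; `F` is
smooth near `ax γ ∈ SP`), `F₁ (y(a)) = core F a`, `y(γ) = ax c`.  From `CrossAt`:
`fderiv F₁ (ax c) (y'(γ)) = (core F)'(γ) = fderiv F (ax γ) (0,1,0) = fderiv F₁ (ax c) (l, v)`, so `y'(γ) = (l, v)`, `σ'(γ) = l ≠ 0`.  Let `τ` be the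
local inverse of `σ` (inverse function theorem in dimension one): smooth near `1/2`, `τ(1/2) = γ`,
`σ(τ(s)) = s`, `τ'(1/2) = 1/l`, so `e τ'(1/2) > 0`.  `ζ(s) = ξ(τ(s)) - pc c`, smooth near `1/2`, `ζ(1/2) = 0`.
(3) `G₂ (s, x) = (s, x + b(x - pc c) • b'((s - 1/2)/ε) • ζ(s))` with bump functions `b` on `R3` (`1` near `0`, `0` for
`nsq ≥ 1/100`), `b'` on `ℝ` (`1` on `[-1,1]`, `0` off `[-2,2]`) and `ε` small: as `‖ζ(s)‖ ≤ C |s - 1/2| ≤ 2 C ε` on the
support, the Lipschitz constant in `x` is `≤ 1/2`; PERT gives a `DFam` with this `f` (independent of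
`t`).  `G₂` is the identity on the slice `s = 1/2` and off `{rsq c ≤ 1/100}`.  `G₂ (s, pc c) = y(τ(s))` for `s` near
`1/2`.  So `F' (s, pc c) = F₁ (y(τ s)) = core F (τ s) = core F' (τ s)` (the last because `G = id` on the neck).
(4) `G` is a diffeomorphism of `R4` with `G '' flat c = flat c`, equal to the identity where
`rsq c p ≥ 1/25 - η`.  All fields of `Br` follow (`F' = F` near `SP`; `F' '' flat c = F '' flat c`; `CrossAt` with
`x₀' = pc c`, `l' = 1/τ'(1/2)`: differentiate `F' (s, pc c) = core F' (τ s)` at `1/2`: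
`fderiv F' (ax c) (1, 0) = τ'(1/2) • fderiv F' (ax γ) (0,1,0)`). -/
def StC1 : Prop :=
  ∀ (c : ℝ) (F : R4 → R4) (γ e : ℝ), (c = 0 ∨ c = 1) → Br c F γ e →
    ∃ F' : R4 → R4, Br c F' γ e ∧ (∃ η : ℝ, 0 < η ∧ ∀ p, 1 / 25 - η ≤ rsq c p → F' p = F p) ∧
      F' '' flat c = F '' flat c ∧ Strand c F' γ e ∧ core F' γ = F' (ax c)

/-! ## contraction -/

/-- **CL** (the contraction map; compare module RC of helper34, `StRC`, for `c = 0`).
*Proof.* `l = cfac lam` is smooth jointly, `lam ≤ l ≤ 1`, monotone in `q` (`l' ≥ 0`).  For `0 < lam`: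
`x ↦ l(|x|²) x` is injective: `q ↦ q l(q)²` is strictly increasing on `[0, ∞)`, so `|x|` is determined by
the image, then `x`; its derivative in the direction `v` is `l v + 2 l' ⟨x,v⟩ x`; if this is `0` then
`(l + 2 l' |x|²) ⟨x, v⟩ = 0`, so `⟨x, v⟩ = 0` and `v = 0`. -/
def StCL : Prop :=
  ∀ c : ℝ, (c = 0 ∨ c = 1) →
    ContDiff ℝ ∞ (fun q : ℝ × R4 => clc c q.1 q.2) ∧ (∀ p, clc c 1 p = p) ∧
    ∀ lam ∈ Ioc (0 : ℝ) 1,
      EmbOn I4 (clc c lam) univ ∧ (∀ p, (clc c lam p).1 = p.1) ∧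
      (∀ p : R4, rsq c p ≤ 1 / 20 → clc c lam p = (p.1, pc c + lam • (p.2 - pc c))) ∧
      (∀ p : R4, 9 / 100 ≤ rsq c p → clc c lam p = p) ∧
      (∀ a, clc c lam (ax a) = ax (c + cfac lam ((a - c) ^ 2) * (a - c))) ∧
      (∀ p : R4, rsq c (clc c lam p) ≤ rsq c p) ∧
      (∀ a, 0 < deriv (fun a => c + cfac lam ((a - c) ^ 2) * (a - c)) a)

/-- **CTR** (contraction does not change the class) (uses `StCL`, `StFam`).
*Proof.* The family `J (t, p) = F (clc c (1 - t (1 - lam)) p)` is `FamOn SP`: for `μ ∈ [lam, 1]` the map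
`clc c μ` is an injective local diffeomorphism and maps `SP` into `SP ∪ flat c`: `sph c` goes to the sphere of
squared radius `μ²/25` in `flat c`; `sph (1-c)` is fixed; a neck point `ax a` goes to `ax b` with `b - c` between
`0` (excluded) and `a - c`, so either `ax b ∈ flat c` or `ax b ∈ neck`.  `F` is a local diffeomorphism there.
Injectivity of `F` on `clc c μ '' SP`: let `p, q` be in this set, `F p = F q`, `p ≠ q`.  `F` is injective on `SP` and on
`flat c ∪ sph (1-c)`, so one of them, say `p`, is in `flat c` and not on the neck, and `q` is on the neck,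
not in `flat c`.  Then `q = ax a`, `core F a ∈ F '' flat c`, so `a` is the foot (then `q ∈ flat c`, contradiction) or
`a = γ`, `F p = core F γ = F (ax c)`, so `p = ax c` by `injF`; but `ax c ∉ clc c μ '' SP` (`clc c μ` fixes `ax c`,
is injective, and `ax c ∉ SP`).  `famOn_comp` (constant family of `F` along `clc` images; or `famOn_iff`
directly), `StFam`; at `t = 0`: `clc c 1 = id`. -/
def StCTR : Prop :=
  ∀ (c : ℝ) (F : R4 → R4) (γ : ℝ), (c = 0 ∨ c = 1) → (∀ p ∈ SP ∪ flat c, LD F p) → InjOn F SP →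
    InjOn F (flat c ∪ sph (1 - c)) → core F γ = F (ax c) →
    (∀ a ∈ Icc (1 / 5 : ℝ) (4 / 5), core F a ∈ F '' flat c → a = 1 / 5 + 3 / 5 * c ∨ a = γ) →
    ∀ lam ∈ Ioc (0 : ℝ) 1,
      EmbOn I4 (fun p => F (clc c lam p)) SP ∧ Eqv F (fun p => F (clc c lam p))

/-! ## reparametrization of the bar -/

/-- **RM** (increasing functions with prescribed germs).
*Proof.* (1) One point.  Choose `ε > 0` with `μ` smooth, `μ' > 0` on `[x - ε, x + ε]`, and
`a₀ < x - ε`, `x + ε < b₀`, `a₀ < μ(x - ε)`, `μ(x + ε) < b₀`.  It suffices to construct the left half: a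
smooth `m` on `(-∞, x]` with `m' > 0`, `m a = a` for `a ≤ a₀ + η`, `m = μ` near `x`; the right half is symmetric, and
the two halves fit together because both are `μ` near `x`.  Let `D = θ₁ + θ₂ μ' + κ₁ + κ₂ b` on
`[a₀, x]`, where `θ₁` is a smooth cutoff, `1` for `a ≤ a₀ + η`, `0` for `a ≥ a₀ + 2η`; `θ₂` is `1` on `[x - η, x]`, `0` for
`a ≤ x - 2η`; `b ≥ 0` is a bump function with support in `(a₀ + η, x - η)`, positive on `[a₀ + 2η, x - 2η]`... choose
`b > 0` exactly on `(a₀ + η, x - η)`; then `D = θ₁ + θ₂ μ' + κ b` is positive for every `κ > 0`; its integral over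
`[a₀, x]` is a continuous increasing function of `κ > 0` tending to `∞`, with limit at `κ → 0` at most
`2η + 2η max μ' < μ(x) - a₀` for small `η`; choose `κ` with `∫_{a₀}^{x} D = μ(x) - a₀` (intermediate value
theorem) and `m a = a₀ + ∫_{a₀}^{a} D` (with `D = 1` for `a < a₀`).  Then `m a = a` for `a ≤ a₀ + η` and
`m a = μ(x) - ∫_a^x μ' = μ(a)` on `[x - η, x]`.
(2) Two points.  Choose `z ∈ (x₁, x₂)`, `z' ∈ (y₁, y₂)`; by (1) there is `n` with `n = (· + (z' - z))` near `z`, `n = id` near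
the ends of `(1/5, 4/5)`.  Let `n⁻¹` be the inverse function (smooth).  By (1) on `(1/5, z)` there is `m₁` with
`m₁ = n⁻¹ ∘ μ₁` near `x₁`, the identity for `a ≤ 1/5 + η` and `a ≥ z - η`; by (1) on `(z, 4/5)` there is `m₂` with
`m₂ = n⁻¹ ∘ μ₂` near `x₂`, the identity for `a ≤ z + η`, `a ≥ 4/5 - η`.  `m = n ∘ m₁ ∘ m₂`. -/
def StRM : Prop :=
  (∀ (a₀ b₀ x y : ℝ) (μ : ℝ → ℝ), a₀ < x → x < b₀ → a₀ < y → y < b₀ →
    (∀ᶠ a in 𝓝 x, ContDiffAt ℝ ∞ μ a) → μ x = y → 0 < deriv μ x →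
    ∃ m : ℝ → ℝ, ContDiff ℝ ∞ m ∧ (∀ a, 0 < deriv m a) ∧ (∀ᶠ a in 𝓝 x, m a = μ a) ∧
      ∃ η : ℝ, 0 < η ∧ ∀ a, (a ≤ a₀ + η ∨ b₀ - η ≤ a) → m a = a) ∧
  ∀ (x₁ x₂ y₁ y₂ : ℝ) (μ₁ μ₂ : ℝ → ℝ), 1 / 5 < x₁ → x₁ < x₂ → x₂ < 4 / 5 → 1 / 5 < y₁ →
    y₁ < y₂ → y₂ < 4 / 5 → (∀ᶠ a in 𝓝 x₁, ContDiffAt ℝ ∞ μ₁ a) →
    (∀ᶠ a in 𝓝 x₂, ContDiffAt ℝ ∞ μ₂ a) → μ₁ x₁ = y₁ → μ₂ x₂ = y₂ → 0 < deriv μ₁ x₁ →
    0 < deriv μ₂ x₂ →
    ∃ m : ℝ → ℝ, RepOK m ∧ (∀ᶠ a in 𝓝 x₁, m a = μ₁ a) ∧ ∀ᶠ a in 𝓝 x₂, m a = μ₂ a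

/-- **RG** (uses `StFam`).  Reparametrization of the bar does not change the class.
*Proof.* `M (t, (s, a, w)) = (s, (1-t) a + t m(a), w)` is smooth, each `M_t` (`t ∈ [0,1]`) is injective
with invertible derivative (`(1-t) + t m' > 0`), and maps `SP` into `SP`: it is the identity for
`a ≤ 1/5`, `a ≥ 4/5` (so on the spheres), and maps the neck into the neck (monotone, fixes `1/5`, `4/5`).
`eqv_precomp`.  The last claims: `m` is a bijection of `[1/5, 4/5]` and the identity outside. -/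
def StRG : Prop :=
  ∀ m : ℝ → ℝ, RepOK m → EmbOn I4 (repm m) univ ∧ (∀ a, repm m (ax a) = ax (m a)) ∧
    (∀ c : ℝ, (c = 0 ∨ c = 1) → ∀ p ∈ flat c, ∀ᶠ q in 𝓝 p, repm m q = q) ∧
    (∀ a ∈ Icc (1 / 5 : ℝ) (4 / 5), m a ∈ Icc (1 / 5 : ℝ) (4 / 5)) ∧ StrictMono m ∧
    ∀ F : R4 → R4, EmbOn I4 F SP →
      EmbOn I4 (fun p => F (repm m p)) SP ∧ Eqv F (fun p => F (repm m p))

/-! ## homotopy of bars without crossings -/

/-- **HL** (uses `StFam`, `StFr`).  Two germs with the same cuffs whose cores are joined by a smooth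
family of embedded arcs disjoint from the cuffs have the same class.
*Proof.* `J = barFam F c H δ` (`Pool/Agent/Helper34/BI/Thick.lean`).  It is `FamOn I4 J SP` (`famOn_iff`):
`BarData.eventually_smooth`, `BarData.embOn`.  So `Eqv (J (0, ·)) (J (1, ·))`.  `J (0, ·)` and `F` agree
near the spheres (`barFam_eq`) and on the neck (`barFam_neck`, `H (0, a) = c a`): `Eqv F (J (0, ·))` by the
framing lemma `StFr`.  `J (1, ·)` and `F'` agree near the spheres (`barFam_eq`, `NearEq F F'`) and on the neck: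
again `StFr`. -/
def StHL : Prop :=
  ∀ (F F' : R4 → R4) (c : ℝ → R4) (H : ℝ × ℝ → R4) (δ : ℝ), EmbOn I4 F SP → EmbOn I4 F' SP →
    NearEq F F' (sph 0 ∪ sph 1) → BarData F c H δ →
    (∀ a ∈ Icc (1 / 5 : ℝ) (4 / 5), H (0, a) = c a ∧ H (1, a) = core F' a) →
    (∀ t ∈ Icc (0 : ℝ) 1, ∀ a ∈ Icc (1 / 5 : ℝ) (4 / 5), fderiv ℝ H (t, a) (0, 1) ≠ 0) →
    (∀ t ∈ Icc (0 : ℝ) 1, InjOn (fun a => H (t, a)) (Icc (1 / 5) (4 / 5))) →
    (∀ t ∈ Icc (0 : ℝ) 1, ∀ a ∈ Ioo (1 / 5 : ℝ) (4 / 5), H (t, a) ∉ F '' (sph 0 ∪ sph 1)) →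
    Eqv F F'

/-! ## normal form and uniqueness -/

/-- **NF1** (normal form at one end, keeping the other end) (uses `StC1`, `StLOC`, `StDET`,
`StFam`).
*Proof.* `StC1` gives `F₁` (`F₁ = F` where `rsq c p ≥ 1/25 - η`, so near `SP` and near `flat (1-c)`), with
`Strand c F₁ γ e`; `F₁ (ax c) = core F₁ γ = core F γ`.  `Eqv F F₁` (`eqv_of_nearEq`).  `0 < det` at
`ax c` for `F₁`: by `StDET` on `flat c`, comparing at the point `ax (1/5 + 3/5 c) ∈ flat c`, where `F₁ = F` near it.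
`StLOC` for `F₁`, `p = ax c`, `U`: `G` with `G.f (1, F₁ q) = q` near `ax c`.  `F' = G.f (1, F₁ ·)`.  `Eqv F₁ F'` by
`eqv_postcomp`.  `G₁ := G.f (1, ·)` is a diffeomorphism of `R4`, so all fields of `Br c` for `F₁` give
those of `F'` (images under `G₁`; derivatives: compose with `fderiv G₁`; `l`, `v` unchanged), same for
the strand.  Near `ax c`: `F' = id`.  The last three claims: `F' q = G₁ (F q)` where `F₁ = F`, and `G₁ y = y` off
a compact subset of `U`. -/
def StNF1 : Prop :=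
  ∀ (c : ℝ) (F : R4 → R4) (γ e : ℝ) (U : Set R4), (c = 0 ∨ c = 1) → Br c F γ e →
    0 < (fderiv ℝ F (ax (1 / 5 + 3 / 5 * c))).det → IsOpen U → IsPreconnected U →
    core F γ ∈ U → ax c ∈ U →
    ∃ (F' : R4 → R4) (G : DFam I4 R4), Eqv F F' ∧ Br c F' γ e ∧ Strand c F' γ e ∧
      core F' γ = F' (ax c) ∧ (∀ᶠ q in 𝓝 (ax c), F' q = q) ∧ (∀ y, G.f (0, y) = y) ∧
      (∃ C : Set R4, IsCompact C ∧ C ⊆ U ∧ ∀ t y, y ∉ C → G.f (t, y) = y) ∧
      (∃ η : ℝ, 0 < η ∧ ∀ p, 1 / 25 - η ≤ rsq c p → F' p = G.f (1, F p)) ∧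
      F' '' flat c = (fun y => G.f (1, y)) '' (F '' flat c)

/-- **NF2** (reparametrization of a germ in normal form) (uses `StRG`).
*Proof.* `F' = F ∘ repm m`; all fields by `StRG`: `repm m` is the identity near `flat c` and near both
spheres, maps the neck onto itself.  `core F' a = core F (m a)`.  For `a` near `γ'`:
`m a = τ (1/2 + e (a - γ'))`, so `core F' a = core F (τ s) = F (s, pc c) = (s, pc c)` with
`s = 1/2 + e (a - γ')` near `1/2` (`F = id` near `ax c`).  `only`: `core F (m a) ∈ F '' flat c` iff `m a` is the foot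
(iff `a` is the foot) or `m a = γ = m γ'`.  `CrossAt` at `γ'`: `fderiv F' (ax γ') (0,1,0) = (core F')'(γ') = (e, 0)` by the
formula, `F' = id` near `ax c`, so `(l, v) = (e, 0)`, `e l = e² = 1 > 0`.  `δ` small. -/
def StNF2 : Prop :=
  ∀ (c : ℝ) (F : R4 → R4) (γ γ' e : ℝ) (τ m : ℝ → ℝ), (c = 0 ∨ c = 1) → (e = 1 ∨ e = -1) →
    Br c F γ e → (∀ᶠ q in 𝓝 (ax c), F q = q) → τ (1 / 2) = γ →
    (∀ᶠ s in 𝓝 (1 / 2 : ℝ), F (s, pc c) = core F (τ s)) → RepOK m →
    γ' ∈ Ioo (1 / 5 : ℝ) (4 / 5) → (∀ᶠ a in 𝓝 γ', m a = τ (1 / 2 + e * (a - γ'))) →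
    ∃ δ₀ : ℝ, 0 < δ₀ ∧ ∀ δ ∈ Ioc 0 δ₀, NB c (fun p => F (repm m p)) γ' e δ

/-- **NF** (normal form at both ends) (uses `StNF1`, `StNF2`, `StRM`, `StRG`, `StDET`, `StFam`).
*Proof.* First end: `StNF1` with `c = 0`, `U = univ`: `F₁`, `G`.  `F₁ = G₁ ∘ F` near `SP ∪ flat 1` (where
`rsq 0 p ≥ 1/25 - η`), `G₁ = G.f (1, ·)` a diffeomorphism, so `Br 1 F₁ β d` (all fields are
transported by the diffeomorphism `G₁`), the images of the two flat balls are disjoint (images under `G₁` of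
`F '' flat 0` and `F '' flat 1`), and the determinant is positive at `ax (4/5)` (`StDET`
for `F₁` on `FB`: `F₁` is the identity near `ax 0`, so the determinant is `1 > 0` there).
Second end: `StNF1` with `c = 1`, `F₁`, and `U = {ax 0}ᶜ` (open; preconnected:
`isPreconnected_compl_singleton_of_one_lt_rank` or similar, `R4` has dimension `4`); `core F₁ β ≠ ax 0` because
`core F₁ β ∈ F₁ '' flat 1` and `ax 0 = F₁ (ax 0) ∈ F₁ '' flat 0`.  `F₂`, `G'`: `F₂ = G'₁ ∘ F₁` near `SP ∪ flat 0`, `G'₁` is the identity near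
`ax 0`, so `F₂ = id` near `ax 0`, `Br 0 F₂ α e`, and the strand at `0` is kept: `F₂ (s, pc 0) = G'₁ (F₁ (s, pc 0)) =
G'₁ (core F₁ (τ s)) = core F₂ (τ s)`.  Disjointness again.  Let `τ₀`, `τ₁` be the functions of the two strands
(`τ₀(1/2) = α`, `τ₁(1/2) = β`), `μ₂ a = τ₀ (1/2 + e (a - 3/5))`, `μ₁ a = τ₁ (1/2 + d (a - 2/5))`; their derivatives
at `3/5`, `2/5` are `e τ₀'(1/2) > 0`, `d τ₁'(1/2) > 0`.  `StRM` (2) with `x₁ = 2/5`, `x₂ = 3/5`, `y₁ = β`, `y₂ = α` gives `m`;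
`StNF2` for both ends, `F' = F₂ ∘ repm m`; `StRG`: `Eqv F₂ F'`. -/
def StNF : Prop :=
  ∀ (F : R4 → R4) (α β e d : ℝ), (e = 1 ∨ e = -1) → (d = 1 ∨ d = -1) → Theta F α β e d →
    0 < (fderiv ℝ F (ax (1 / 2))).det → ∃ (F' : R4 → R4) (δ : ℝ), NF F' e d δ ∧ Eqv F F'

/-- **HOM** (uniqueness of the normal form) (uses `StCL`, `StCTR`, `StHL` and
`Pool.Agent.Helper34.BI.exists_genPos`).
*Proof.* Replace `δ`, `δ'` by the minimum (the fields of `NB` are monotone in `δ`).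
(1) Extended cores: `c a = core F a` for `a ∈ [δ/2, 1 - δ/2]`, `c a = ax a` otherwise; smooth on `ℝ` (`F` is smooth
near `ax a` for `a ∈ [0,1]`, and `core F a = ax a` for `a ∈ [0,δ) ∪ (1-δ,1]`); same for `c'`.  `c = c' = ax` for `a < δ` and for
`a > 1 - δ`, and `c = c'` for `|a - 3/5| < δ` and for `|a - 2/5| < δ`.  For `a < b` in `[0,1]`: `c a = c b` only if
`(a, b) = (0, 3/5)` or `(a, b) = (2/5, 1)`: if both are in `[1/5, 4/5]`: `inj`; if `a ∈ [0, 1/5]`, `b ∈ [1/5, 4/5]`: `core F b ∈ F '' flat 0`, so `b = 1/5`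
(then `a = 1/5` by `injF`) or `b = 3/5`, `core F (3/5) = ax 0 = F (ax 0)` and `a = 0`; similarly at the other end;
`a ∈ [0,1/5]`, `b ∈ [4/5,1]`: disjoint flat balls; both in `[0,1/5]`: `injF`.  `deriv c a ≠ 0` for `a ∈ [0,1]` (the derivative of a local
diffeomorphism is injective).  Same for `c'`.
(2) `h (t, a) = (1 - step t) • c a + step t • c' a`, `ρ t = hat 0 1 t` (nonzero exactly for `0 < t < 1`, Arcs.lean),
`χ` = sum of the three `hat` functions of the intervals `(δ/2, 2/5 - δ/2)`, `(2/5 + δ/2, 3/5 - δ/2)`,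
`(3/5 + δ/2, 1 - δ/2)`; `exists_genPos` with empty index types for surfaces and curves (`Y = ℂ`) gives `v, w`; `H = fam h ρ χ v w`.
For all `t ∈ [0,1]`: `H (t, a) = c a` if `χ a = 0` (there `c = c'`); `H (t, ·)` is immersed on `[0,1]` and
`H (t, a) = H (t, b)`, `a < b` in `[0,1]` only for `(0, 3/5)`, `(2/5, 1)` (if `ρ t ≠ 0` and `χ a ≠ 0` or `χ b ≠ 0`: `GenPos.inj`;
otherwise the values are those of `c` or of `c'`).
(3) By compactness there is `μ > 0` such that `‖H (t, a) - ax 0‖ ≥ μ` for `t ∈ [0,1]`,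
`a ∈ [δ/2, 1]`, `|a - 3/5| ≥ δ/2`, and `‖H (t, a) - ax 1‖ ≥ μ` for `a ∈ [0, 1 - δ/2]`, `|a - 2/5| ≥ δ/2` (`ax 0 = H (t, 0)`, `ax 1 = H (t, 1)`).
Let `0 < lam ≤ 1` with `lam < μ`, `lam < δ/2`.
(4) `F_l = F ∘ clc 0 lam ∘ clc 1 lam`.  `StCTR` for `c = 0`, `F`; and for `c = 1` and `F ∘ clc 0 lam` (`γ = 2/5`): its hypotheses
hold: near `flat 1`, `clc 0 lam` is the identity (`rsq 0 ≥ 16/25`); `clc 0 lam '' sph 0 ⊆ flat 0`, whose image is disjoint
from `F '' flat 1`; `core (F ∘ clc 0 lam) a = core F b` with `b = cfac lam (a²) a`, `b = a` for `a ≥ 3/10`, `b < 3/10` for `a < 3/10`, and for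
`b < 1/5`, `core F b ∈ F '' flat 0`.  So `EmbOn F_l SP` and `Eqv F F_l`; same for `F'_l`.
(5) `StHL` for `F_l`, `F'_l`.  Let `b a` be the `a`-coordinate of `clc 0 lam (clc 1 lam (ax a))` (`StCL`): smooth,
`b' > 0`, `b a = a` for `3/10 ≤ a ≤ 7/10`, `b a = lam a` for `|a| ≤ 11/50`, `1 - b a = lam (1 - a)` for `|1 - a| ≤ 11/50`;
`c_l a = c (b a)`, `H_l (t, a) = H (t, b a)`, `δ'' = 1/50`.  `NearEq F_l F'_l (sph 0 ∪ sph 1)`: near `sph 0` both are
`(s, lam x)` (`F = F' = id` within `δ` of `ax 0`, `lam/5 < δ`).  `BarData F_l c_l H_l (1/50)`: frozen: for `a ≤ 11/50`, `b a ≤ δ/2`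
(`b a = lam a` or `b a < 0`), so `χ (b a) = 0`.  Embedded and immersed on `[1/5, 4/5]`: `b` maps it to `[lam/5, 1 - lam/5] ⊂ (0,1)`, so the two
exceptional pairs do not occur.  Off the cuffs: `F_l '' sph 0 = {(1/2, x) : |x|² = lam²/25}`; for `a ∈ (1/5, 4/5)`, `u = b a ∈ (lam/5, 1 - lam/5)`:
if `u ≤ δ/2`: `H = ax u`, `|u| > lam/5`; if `|u - 3/5| < δ/2`: `H = (1/2 + e (u - 3/5), pc 0)` is in the slice `s = 1/2` only if
`u = 3/5`, where `x = 0`; otherwise the distance to `ax 0` is `≥ μ > lam/5` (on `F_l '' sph 0` it is `≤ lam/5`).  Same at the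
other end. -/
def StHOM : Prop :=
  ∀ (F F' : R4 → R4) (e d δ δ' : ℝ), (e = 1 ∨ e = -1) → (d = 1 ∨ d = -1) → NF F e d δ →
    NF F' e d δ' → Eqv F F'

/-- **Uniqueness of theta germs** with given signs and positive orientation. -/
def StUT : Prop :=
  ∀ (F F' : R4 → R4) (α β α' β' e d : ℝ), (e = 1 ∨ e = -1) → (d = 1 ∨ d = -1) →
    Theta F α β e d → Theta F' α' β' e d → 0 < (fderiv ℝ F (ax (1 / 2))).det →
    0 < (fderiv ℝ F' (ax (1 / 2))).det → Eqv F F'

theorem stUT (h1 : StNF) (h2 : StHOM) : StUT := by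
  intro F F' α β α' β' e d he hd hF hF' o o'
  obtain ⟨G, δ, n1, e1⟩ := h1 F α β e d he hd hF o
  obtain ⟨G', δ', n2, e2⟩ := h1 F' α' β' e d he hd hF' o'
  exact e1.trans ((h2 G G' e d δ δ' he hd n1 n2).trans e2.symm)

/-- part (A) gives `StFam` -/
theorem stFam_of (h : StT2) : StFam := by
  intro J hJ φ
  obtain ⟨-, -, h3, -, -, -, -⟩ := h R4 R4 I4 R4
  refine ⟨fun h0 => h3 J φ hJ h0, fun h1 => ?_⟩
  -- time reversal
  have hJ' : FamOn I4 (fun z : ℝ × R4 => J (1 - z.1, z.2)) SP := by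
    rw [famOn_iff] at hJ ⊢
    refine ⟨fun t ht p hp => ?_, fun t ht => ?_⟩
    · have h4 := hJ.1 (1 - t) ⟨by linarith [ht.2], by linarith [ht.1]⟩ p hp
      have h5 : ContinuousAt (fun z : ℝ × R4 => (1 - z.1, z.2)) (t, p) := by fun_prop
      filter_upwards [h5.eventually h4] with z hz
      exact hz.comp z (by fun_prop)
    · exact hJ.2 (1 - t) ⟨by linarith [ht.2], by linarith [ht.1]⟩
  have h6 := h3 (fun z : ℝ × R4 => J (1 - z.1, z.2)) φ hJ' (by simpa using h1)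
  simpa using h6

end Pool.Agent.Helper70.BI


end

/-! ## Helper70.BI.StS -/

section

/-!
# Project BI, part (E), section S: symmetries of theta germs, and the class `W`

Statements with complete proofs in the docstrings.  The result of this file is `StW`: all theta
germs have the same class `W`, and `W² = 1`.
-/

set_option autoImplicit false

open scoped Manifold ContDiff Topology ComplexConjugate
open Set Filter Pool.Agent.Helper65.Barb Pool.Agent.Helper18.BI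

namespace Pool.Agent.Helper70.BI

open Pool.Agent.Helper34.BI (BarData barFam)
open Pool.Agent.Helper27.BI (refh refs swp IsKap StVanT StRefH StRefS StR2sw StADD2)

/-- **SYM** (symmetries of theta germs).
*Proof.* `refh (s, a, w) = (s, a, conj w)`, `refs (s, a, w) = (1 - s, a, w)`, `swp (s, a, w) = (s, 1 - a, conj w)`
are affine involutions of `R4` preserving `SP`, `FB`; the first two preserve each of `flat c`, `sph c`, `neck` and
fix the axis `ax a`; `swp` exchanges `flat 0`, `flat 1` and `sph 0`, `sph 1`, and `swp (ax a) = ax (1 - a)`.  Their linear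
parts have determinant `-1`, `-1`, `+1`.  So `LD`, `InjOn`, disjointness, `only` are transported;
`core (F ∘ refh) = core (F ∘ refs) = core F`, `core (F ∘ swp) a = core F (1 - a)`.  `CrossAt` for `F ∘ refh`:
`x₀' = conj x₀`, `l' = l`.  For `F ∘ refs`: `x₀' = x₀`, `l' = -l`.  For `F ∘ swp` and the ball `flat 0` at the parameter
`1 - β`: `x₀'` = image of the crossing point of `flat 1`, `fderiv (F ∘ swp) (ax (1-β)) (0,1,0) = - fderiv F (ax β) (0,1,0)`
`= fderiv F (1/2, x₀) (-l, -v)`, so `l' = -l` and the sign is `-d`.  Determinants: chain rule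
(`ax (1/2)` is fixed by all three maps; `ContinuousLinearMap.det` of a composition is the product). -/
def StSYM : Prop :=
  ∀ (F : R4 → R4) (α β e d : ℝ), Theta F α β e d →
    (Theta (fun p => F (refh p)) α β e d ∧
      ((fderiv ℝ F (ax (1 / 2))).det < 0 → 0 < (fderiv ℝ (fun p => F (refh p)) (ax (1 / 2))).det) ∧
      (0 < (fderiv ℝ F (ax (1 / 2))).det →
        (fderiv ℝ (fun p => F (refh p)) (ax (1 / 2))).det < 0)) ∧
    (Theta (fun p => F (refs p)) α β (-e) (-d) ∧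
      ((fderiv ℝ F (ax (1 / 2))).det < 0 →
        0 < (fderiv ℝ (fun p => F (refs p)) (ax (1 / 2))).det)) ∧
    (Theta (fun p => F (swp p)) (1 - β) (1 - α) (-d) (-e) ∧
      (0 < (fderiv ℝ F (ax (1 / 2))).det → 0 < (fderiv ℝ (fun p => F (swp p)) (ax (1 / 2))).det)) ∧
    (fderiv ℝ F (ax (1 / 2))).det ≠ 0

/-- **PATH** (smooth paths with prescribed ends in a connected open set).
*Proof.* (1) For `x, y ∈ U` there is a smooth `g : ℝ → R4` with values in `U`, `g = x` on `(-∞, 0]`, `g = y` on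
`[1, ∞)`: this relation is symmetric, transitive (concatenate, rescale), and holds for `y` in a ball
around `x` contained in `U` (`g t = x + step t • (y - x)`); `IsPreconnected.induction₂`.
(2) Let `k₀ : ℝ → ℝ` be smooth with `k₀ a = a` for `a ≤ a₀ + η/2`, `k₀ a ∈ [a₀ + η/2, a₀ + η]` for `a ≥ a₀ + η/2`, and
`k₀ a = κ₀` constant for `a ≥ a₀ + 7η/8` (e.g. `k₀ a = a + (a₀ + 5η/8 - a) * step (8 (a - a₀ - η/2) / (3η))`: a convex
combination of `a ∈ [a₀ + η/2, a₀ + 7η/8]` and `κ₀ = a₀ + 5η/8`), and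
symmetrically `k₁`.  `c a = c₀ (k₀ a)` for `a ≤ a₀ + 15η/16`, `c a = c₁ (k₁ a)` for `a ≥ a₁ - 15η/16`, and in
between `g ((a - a₀ - 15η/16) / (a₁ - a₀ - 15η/8))` with the path of (1) from `c₀ κ₀` to `c₁ κ₁` (constant near
both gluing points, so `c` is smooth). -/
def StPATH : Prop :=
  ∀ (U : Set R4) (a₀ a₁ η : ℝ) (c₀ c₁ : ℝ → R4), IsOpen U → IsPreconnected U → 0 < η →
    a₀ + η < a₁ - η → ContDiff ℝ ∞ c₀ → ContDiff ℝ ∞ c₁ → (∀ a ∈ Icc a₀ (a₀ + η), c₀ a ∈ U) →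
    (∀ a ∈ Icc (a₁ - η) a₁, c₁ a ∈ U) →
    ∃ c : ℝ → R4, ContDiff ℝ ∞ c ∧ (∀ a, a ≤ a₀ + η / 2 → c a = c₀ a) ∧
      (∀ a, a₁ - η / 2 ≤ a → c a = c₁ a) ∧ ∀ a ∈ Icc a₀ a₁, c a ∈ U

/-- a connected open set disjoint from both flat balls -/
def U3 : Set R4 := {p | p.1 ≠ 1 / 2 ∨ (1 / 5 < p.2.1 ∧ p.2.1 < 4 / 5)}

/-- **ARC3** (a family of arcs: the strand near `flat 0` is pushed through a parabola) (uses
`StPATH`, `Pool.Agent.Helper34.BI.exists_genPos`).
*Proof.* `U3` is open and preconnected (the convex sets `{1/2 < s}`, `{s < 1/2}` both meet the convex set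
`{1/5 < a < 4/5}`).  Prescribed pieces: `ax a` for `a ≤ 1/4` and for `a ≥ 3/4`;
`(1/2 + d (a - 2/5), pc 1)` for `|a - 2/5| ≤ 1/100`; `P a = (1/2 - v²/10, (0, (1+v)/20))`, `v = 100 (a - 3/5)`, for
`|a - 3/5| ≤ 1/50`.  Connect consecutive pieces by `StPATH` in `U3` on `[1/4, 39/100]`, `[41/100, 29/50]`, `[31/50, 3/4]`
(with `η = 1/1000`; the ends of the pieces are in `U3` on these intervals: `s ≠ 1/2` there for the strand and the parabola, `1/5 < a < 4/5` for `ax`): a smooth `q : ℝ → R4`, `q a ∈ U3` on these three closed intervals.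
`h (t, a) = q a + ((2 step t - 1) κ(v) / 10, 0)` with `κ` smooth, `0 ≤ κ ≤ 1`, `κ = 1` for `|v| ≤ 3/2`, `κ = 0` for `|v| ≥ 7/4`.
`χ` = sum of `hat (1/4) (39/100)`, `hat (41/100) (29/50)`, `hat (31/50) (3/4)`, `ρ = 1`; `exists_genPos` (empty index types)
gives arbitrarily small `v, w`; `H = fam h 1 χ v w`.  For `v, w` small `H (t, a) ∈ U3` for `a` in the three closed intervals (compactness; `h (t, a) = q a`
there).  For `3/2 < |v| ≤ 2`: `s - 1/2 = ((2 step t - 1) κ - v²)/10 < 0`, in `U3`; for `1/5 < a ≤ 1/4`, `3/4 ≤ a < 4/5`: `ax a ∈ U3`.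
Injective: pairs with `χ a ≠ 0` or `χ b ≠ 0` by `GenPos.inj`; if `χ a = χ b = 0`: the pieces are `{s = 1/2, w = 0, 1/5 ≤ a ≤ 1/4}`, `{x = pc 1}`,
`{a-coordinate 0}`, `{s = 1/2, w = 0, 3/4 ≤ a ≤ 4/5}`, pairwise disjoint, and each is injective (coordinates `a`, `s`, `w`, `a`).
Immersed: `GenPos.imm` or explicit (nonzero `a`-, `s`-, `w`-, `a`-derivative; if `χ a = 0` at an end point of an interval
use that the derivative of the perturbation vanishes there because `hat` is flat). -/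
def StARC3 : Prop :=
  ∀ d : ℝ, (d = 1 ∨ d = -1) → ∃ H : ℝ × ℝ → R4, ContDiff ℝ ∞ H ∧
    (∀ t a, (a ≤ 1 / 4 ∨ 3 / 4 ≤ a) → H (t, a) = ax a) ∧
    (∀ t a, |a - 2 / 5| ≤ 1 / 100 → H (t, a) = (1 / 2 + d * (a - 2 / 5), pc 1)) ∧
    (∀ t a, |a - 3 / 5| ≤ 3 / 200 → H (t, a) =
      (1 / 2 + ((2 * step t - 1) - (100 * (a - 3 / 5)) ^ 2) / 10,
        ((0 : ℝ), (((1 + 100 * (a - 3 / 5)) / 20 : ℝ) : ℂ)))) ∧
    (∀ t, ∀ a ∈ Ioo (1 / 5 : ℝ) (4 / 5), 1 / 100 < |a - 2 / 5| → 3 / 200 < |a - 3 / 5| →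
      H (t, a) ∈ U3) ∧
    (∀ t, InjOn (fun a => H (t, a)) (Icc (1 / 5) (4 / 5))) ∧
    ∀ t, ∀ a ∈ Icc (1 / 5 : ℝ) (4 / 5), fderiv ℝ H (t, a) (0, 1) ≠ 0

/-- The germ at the end of the family: its bar crosses `flat 1` once at the centre and `flat 0`
twice, at the points `0` and `(0, 1/10)`. -/
structure IsJ1 (J : R4 → R4) (d : ℝ) : Prop where
  loc : ∀ p ∈ FB, LD J p
  inj : InjOn J SP
  triv : Thin I4 J (fun x => x)
  ends : ∀ p : R4, (p.2.1 ≤ 9 / 40 ∨ 31 / 40 ≤ p.2.1) → J p = p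
  strand : ∀ a, |a - 2 / 5| ≤ 1 / 100 → core J a = (1 / 2 + d * (a - 2 / 5), pc 1)
  para : ∀ a, |a - 3 / 5| ≤ 3 / 200 → core J a =
    (1 / 2 + (1 - (100 * (a - 3 / 5)) ^ 2) / 10,
      ((0 : ℝ), (((1 + 100 * (a - 3 / 5)) / 20 : ℝ) : ℂ)))
  off : ∀ a ∈ Ioo (1 / 5 : ℝ) (4 / 5), 1 / 100 < |a - 2 / 5| → 3 / 200 < |a - 3 / 5| →
    core J a ∈ U3

/-- **R3J** (uses `StARC3`, `StFam`, `StVanT`).
*Proof.* `H` from `StARC3`; `J' = barFam (fun p => p) ax H (1/20)` (`BarData` for the identity, core `ax`, `δ = 1/20`).  It is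
`FamOn SP`: `BarData.eventually_smooth`, `BarData.embOn`; the arcs avoid the cuffs for `a ∈ (1/5, 4/5)`: points of
`U3` are not in `flat 0 ∪ flat 1`; `|a - 2/5| ≤ 1/100`: `x = pc 1` is not on the spheres; `|a - 3/5| ≤ 3/200`: `nsq x ≤ (1/8)² < 1/25`, and `rsq 1 ≥ 1`.
`J' (0, ·)`: `step 0 = 0`, so `s - 1/2 = (-1 - v²)/10 < 0` on the parabola; hence `J' (0, ·)` is the identity near `flat 0` and
`sph 1` and `EmbOn (flat 0 ∪ sph 1 ∪ neck)` (the arc is off `flat 0` for `a ∈ (1/5, 4/5)`: for `|a - 2/5| ≤ 1/100` the `a`-coordinate is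
`1`); `StVanT` gives `Thin (J' (0, ·)) id`; `StFam` gives `Thin (J' (1, ·)) id`.  `J = J' (1, ·)`, `step 1 = 1`.  `ends`: `barFam_eq` with
`δ/2 = 1/40`.  `loc` on `flat 0`, `flat 1`: `J = id` near these sets. -/
def StR3J : Prop := ∀ d : ℝ, (d = 1 ∨ d = -1) → ∃ J : R4 → R4, IsJ1 J d

/-- the second crossing point -/
noncomputable def x2 : R3 := (0, ((1 / 10 : ℝ) : ℂ))

/-- **AG** (additivity for germs with two strands through `flat 0`) (uses `StADD2`, and of part (A)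
`StT2`, `StT3`, `StT5`, `StT6`, `StImp`, `StS4`, `StA1`, `StCI`; the maps `rade` of helper34).
*Proof.* The same as `StD2a` in `Pool/Agent/Helper34/BI/StD.lean` (module D2a; adapt it), with the radial map `m₀ = rade δ 1`
only (about `(1/2, 1, 0)`: the identity for `rsq 1 ≥ 1/25 - δ`, maps `{0 < rsq 1 ≤ 1/25}` into
`{1/25 - 3δ ≤ rsq 1 ≤ 1/25}`).  `r, k1, k2` from `StADD2` for `x2`.  `K = ball4 \ (tube (1,0) (3/20) ∪ tube 0 r ∪ tube x2 r)`.
`Z = (flat 0 \ (tube 0 r ∪ tube x2 r)) ∪ neck ∪ sph 1` is compact and `J` is `EmbOn Z`; `StA1`: `J` is injective and locally diffeomorphic on an open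
`V ⊇ Z`; choose `δ` small with `{p ∈ flat 1 | 1/25 - 3δ ≤ rsq 1 p} ⊆ V`.  `L = Z ∪ {p ∈ flat 1 | 1/25 - 3δ ≤ rsq 1 p}` compact, `L ⊆ FB`,
`J` is `EmbOn L`, and `sq 0 (m₀ p) ∈ L` for `p ∈ K`.  `StT6`: `F_ε = J ∘ sq ε ∘ m₀` is `EmbOn K` for small `ε`; `StADD2` gives
`CIsot (imp F_ε bsupp barMap) (imp (F_ε ∘ k2) .. ∘ imp (F_ε ∘ k1) ..)`; `imp F_ε bsupp barMap = imp (J ∘ sq ε) bsupp barMap` as `m₀ = id` on
`bsupp`; `F_ε ∘ k_i` is `EmbOn EB`, its class is `imp (F_ε ∘ k_i) bsupp barMap` (`StT3`), and `Thin (J ∘ sq ε ∘ (m₀ ∘ k_i)) ↔ Thin (J ∘ (m₀ ∘ k_i))`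
(`StT5`, `m₀ ∘ k_i` maps `SP` into `L`); finally `m₀ ∘ k_i = k_i` near `SP` (`StT2` (v)): near `sph 0` and the foot, `k_i p` stays in `{rsq 1 ≥ 1/25 - δ}`,
for `a ≥ 17/100`, `k_i p = p` and `rsq 1 p ≥ 1/25 - δ` near `SP`.  Compare with `StT2` (ii). -/
def StAG : Prop :=
  ∃ (r : ℝ) (k1 k2 : R4 → R4), 0 < r ∧ r ≤ 1 / 200 ∧
    IsKap x2 (1 / 80) r k1 ∧ IsKap 0 (1 / 80) r k2 ∧
    (∀ p, 17 / 100 ≤ p.2.1 → k1 p = p ∧ k2 p = p) ∧
    (∀ p : R4, ‖p.2.2‖ ≤ 1 / 20 → k1 p = p) ∧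
    (∀ p, k1 p ∈ tube 0 r → p ∈ tube 0 r) ∧ (∀ p, k2 p ∈ tube x2 r → p ∈ tube x2 r) ∧
    ∀ J : R4 → R4, (∀ p ∈ flat 0 ∪ neck ∪ sph 1, LD J p) →
      InjOn J ((flat 0 ∪ neck ∪ sph 1) \ {ax 0, (1 / 2, x2)}) →
      ∀ φ φ1 φ2 : R4 → R4, Thin I4 J φ → Thin I4 (fun p => J (k1 p)) φ1 →
        Thin I4 (fun p => J (k2 p)) φ2 → CIsot I4 φ (fun x => φ2 (φ1 x))

/-- **R3T** (the two factors are theta germs) .
*Proof.* Let `J` be as in `IsJ1`.  The core meets `flat 0` exactly for `a = 1/5`, `59/100` (at `ax 0`, `v = -1`) and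
`61/100` (at `(1/2, x2)`, `v = 1`) and `flat 1` exactly for `a = 4/5`, `2/5` (at `ax 1`): for `a ∈ (1/5, 4/5)` in `U3` no; on the strand `x = pc 1`,
in `flat 1` iff `s = 1/2`; on the parabola (`a`-coordinate `0`) in the slice iff `v = ±1`.
So `J` (the identity near `flat 0` and near `flat 1`) is injective on `(FB \ {ax 0, (1/2, x2), ax 1})`, and
`F = J ∘ k1`: `k1` is an injective local diffeomorphism, `k1 '' flat 0 ⊆ flat 0` (`small`, `fst`), `k1 = id` for `a ≥ 17/100` and for `‖w‖ ≤ 1/20`,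
`k1 p ≠ (1/2, x2)` for `p ∈ ball4` (`away`), and `k1 = id` near the neck, `flat 1`.  `Br 0 F (59/100) 1`: `loc`: `k1 p ∈ FB` for `p ∈ FB`; `inj`: for `p, q ∈ SP`, `J (k1 p) = J (k1 q)`,
both `k1 p, k1 q ∈ flat 0 ∪ neck ∪ sph 1`; if different, one is `ax 0 = k1 (ax 0)` or `(1/2, x2)`: the first is impossible as `ax 0 ∉ SP`; `injF`: `J = id`
near `flat 0 ∪ flat 1`; `cr` at `x₀ = 0`: `F = id` near `ax 0`, `(core F)'(59/100) = (20, (0, 5))` (`d/dv (1 - v²)/10 = 1/5` at `v = -1`, `dv/da = 100`), `l = 20 > 0`; `only`: `core F a = core J a`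
(`k1 = id` on the axis), `core J a ∈ J '' (k1 '' flat 0) = k1 '' flat 0 ⊆ flat 0`, so `a ∈ {1/5, 59/100, 61/100}`, and for `61/100` the point would be `(1/2, x2) ∉ k1 '' flat 0`.
`Br 1 F (2/5) d`: `F = J` near `flat 1`, `neck`; `injF`: `F '' sph 0 ⊆ flat 0`; `only` from above; `cr` at `x₀ = pc 1`, `(core F)'(2/5) = (d, 0)`, `d · d = 1 > 0`.
`dis`: `F '' flat 0 ⊆ flat 0`, `F '' flat 1 = flat 1`.
Same for `k2`: `k2 = id` for `‖w‖ ≥ 1/80` (`off_w`), so near `(1/2, x2)`, and for `a ≥ 1/50` (`off_a`), so near the neck; `k2 p ≠ ax 0`; at `61/100`: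
`(core F)' = (-20, (0, 5))`, sign `-1`; `only`: for `59/100` the point would be `ax 0 ∉ k2 '' flat 0`.
Determinant: `StDET` for `F` on `FB`; near `ax (1/5)`, `F = id`. -/
def StR3T : Prop :=
  ∀ (J : R4 → R4) (d r : ℝ) (k1 k2 : R4 → R4), (d = 1 ∨ d = -1) → IsJ1 J d → 0 < r →
    IsKap x2 (1 / 80) r k1 → IsKap 0 (1 / 80) r k2 →
    (∀ p, 17 / 100 ≤ p.2.1 → k1 p = p ∧ k2 p = p) → (∀ p : R4, ‖p.2.2‖ ≤ 1 / 20 → k1 p = p) →
    (Theta (fun p => J (k1 p)) (59 / 100) (2 / 5) 1 d ∧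
      0 < (fderiv ℝ (fun p => J (k1 p)) (ax (1 / 2))).det) ∧
    Theta (fun p => J (k2 p)) (61 / 100) (2 / 5) (-1) d ∧
      0 < (fderiv ℝ (fun p => J (k2 p)) (ax (1 / 2))).det

/-- **R3** (opposite signs at the near end give inverse classes).  *Proof.* `StR3J`, `StAG`, `StR3T`; the hypothesis
`InjOn J ((flat 0 ∪ neck ∪ sph 1) \ ..)` of `StAG` is proved as in `StR3T`; existence of the classes by `StT2` (i). -/
def StR3 : Prop :=
  ∀ d : ℝ, (d = 1 ∨ d = -1) → ∃ (F₁ F₂ : R4 → R4) (α₁ α₂ β₁ β₂ : ℝ) (φ₁ φ₂ : R4 → R4),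
    Theta F₁ α₁ β₁ 1 d ∧ Theta F₂ α₂ β₂ (-1) d ∧ 0 < (fderiv ℝ F₁ (ax (1 / 2))).det ∧
    0 < (fderiv ℝ F₂ (ax (1 / 2))).det ∧ Thin I4 F₁ φ₁ ∧ Thin I4 F₂ φ₂ ∧
    CIsot I4 (fun x => x) (fun x => φ₂ (φ₁ x))

/-- **The class `W`.**  All theta germs have the same class, and its square is trivial. -/
def StW : Prop :=
  ∃ (W : R4 → R4) (F₀ : R4 → R4) (α₀ β₀ : ℝ), Theta F₀ α₀ β₀ 1 1 ∧ Thin I4 F₀ W ∧
    CIsot I4 (fun x => W (W x)) (fun x => x) ∧
    ∀ (F : R4 → R4) (α β e d : ℝ), (e = 1 ∨ e = -1) → (d = 1 ∨ d = -1) → Theta F α β e d →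
      Thin I4 F W

end Pool.Agent.Helper70.BI


end

/-! ## Helper70.BI.StX -/

section

/-!
# Project BI, part (E), section X: the crossing lemma for stage 2
-/

set_option autoImplicit false

open scoped Manifold ContDiff Topology ComplexConjugate
open Set Filter Pool.Agent.Helper65.Barb Pool.Agent.Helper18.BI

namespace Pool.Agent.Helper70.BI

open Pool.Agent.Helper34.BI (PreCross)

/-- **CRP** (crossing lemma, form for stage 2).  When the bar crosses the first cuff, the class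
changes by the class of a germ `O` whose first cuff bounds a flat ball met once by the bar, and
which coincides with the given germ at the other end.

*Proof.* helper34's proof of `StCR` (`D1a`, `D1b`, `D2a`, `D2b`, with the shear multiplied by a cutoff which makes it
the identity for `a ≥ 1/2`).  In the notation there: `t' = T (-r₁)`, `t'' = T r₁`,
`G = J (t', shear c ·)`, `O = G ∘ rade δ 0 ∘ k₂` (near `SP` the same germ as `G ∘ Em δ ∘ k₂`, and the identity modification for `a > 1/5`),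
`α = U (-r₁)` with `G (X (-r₁)) = core G α`, crossing point `x₂`: `O (1/2, x₂) = G (Em δ (1/2, x₂)) = G (X (-r₁))` because `k₂ = id`
near `x₂`; the derivative of `rade δ 0` at `(1/2, x₂)` is `id` in the `s`-direction plus an invertible map of three-space, so the
`s`-component `l` of the strand in the chart `O` at `x₂` is the one in the chart `G` at `X`, nonzero; `e = sign l`.
`only`: `core O a = core G a = G q` with `q ∈ rade δ 0 (k₂ (flat 0)) ⊆ flat 0 ∩ {1/25 - 3δ ≤ rsq 0}`; by injectivity of `G` on `SH η \ {X}`: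
`q = ax a` (foot) or `q = X` and `a = α`.  `Disjoint`: `O '' flat 0 ⊆ G '' {p ∈ flat 0 | 1/25 - 3δ ≤ rsq 0 p}`, and `J t₀ '' sph 0` is at positive distance from
`C`; the collars and `t' - t₀` (and so `G - J (t₀, ·)` on them: `J` is constant in time near `sph 0`, `shear` fixes `sph 0`) are small. -/
def StCRP : Prop :=
  ∀ (J : ℝ × R4 → R4) (t₀ u₀ : ℝ) (p₀ : R4), PreCross J t₀ u₀ p₀ → ∀ C : Set R4, IsCompact C →
    Disjoint C ((fun p => J (t₀, p)) '' sph 0) → ∀ ε > 0,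
    ∃ t₁ ∈ Ioo (t₀ - ε) t₀, ∃ t₂ ∈ Ioo t₀ (t₀ + ε), EmbOn I4 (fun p => J (t₁, p)) SP ∧
      EmbOn I4 (fun p => J (t₂, p)) SP ∧ ∃ t' t'' : ℝ, (t' = t₁ ∧ t'' = t₂ ∨ t' = t₂ ∧ t'' = t₁) ∧
      ∃ (O : R4 → R4) (α e : ℝ), |α - u₀| < ε ∧ (e = 1 ∨ e = -1) ∧ Br 0 O α e ∧
        (∀ a ∈ Icc (1 / 5 : ℝ) (4 / 5), core O a = core (fun p => J (t', p)) a) ∧
        (∀ p : R4, 1 / 2 < p.2.1 → O p = J (t', p)) ∧ Disjoint C (O '' flat 0) ∧
        ∀ φ' φ'' n : R4 → R4, Thin I4 (fun p => J (t', p)) φ' → Thin I4 (fun p => J (t'', p)) φ'' →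
          Thin I4 O n → CIsot I4 φ' (fun x => n (φ'' x))

end Pool.Agent.Helper70.BI


end

/-! ## Helper70.BI.H.StN -/

section

/-!
# Project BI, stage 3 (H), section NORM: normalization of the crossing germs

Statements (as `Prop` definitions) with complete proofs in the docstrings.  A module `M_X` proves
`theorem m_X : StX` (possibly from other statements as hypotheses `(h : StY)`).

Plan.  A crossing germ `T` (`ArcD.XG`) has two flat balls, each of which meets the base arc in its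
centre.  (1) By a precomposition with an isotopy of `R4` supported near the two centres and
preserving the vertical lines through the centres we make `T` equal to a translate of `D.J` near the two
centres (`StCEN`).  (2) We contract the two flat balls (`StNCT`).  (3) We slide the two small balls along
the base arc (`StSLD`) to prescribed positions.  Any two germs normalized in this way have the same cuffs, and the
main theorem of stage 2 (`StMain2`) applies (`StNORM`).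
-/

set_option autoImplicit false

open scoped Manifold ContDiff Topology ComplexConjugate
open Set Filter Pool.Agent.Helper65.Barb Pool.Agent.Helper18.BI

namespace Pool.Agent.Helper70.H

open Pool.Agent.Helper27.H (ArcD seg)
open Pool.Agent.Helper70.BI (I4 LD Eqv NearEq pc StPT StGL)

/-- the centre of `flat 0` -/
noncomputable def z0 : R4 := (1 / 2, ((0 : ℝ), (0 : ℂ)))

/-- The germ of `f` at `y₀` is realized by the end of an isotopy of `R4`, starting at the identity, with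
support in a compact subset of `U`, which preserves the vertical line `{y | y.2 = 0}`. -/
def RealL (U : Set R4) (y₀ : R4) (f : R4 → R4) : Prop :=
  ∃ G : DFam I4 R4, (∀ y, G.f (0, y) = y) ∧
    (∃ C : Set R4, IsCompact C ∧ C ⊆ U ∧ ∀ t y, y ∉ C → G.f (t, y) = y) ∧
    (∀ t y, (G.f (t, y)).2 = 0 ↔ y.2 = 0) ∧ ∀ᶠ y in 𝓝 y₀, G.f (1, y) = f y

/-- **SML** (germs close to the identity which preserve the line) (uses `StPT`).
*Proof.* Adapt `Pool/Agent/Helper70/BI/M_SM.lean` (`m_SM`, for `E = R4`; copy its auxiliary lemmas `smooth_aux`, `lip_aux`).  Choose the radius `ε` there so small that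
in addition `y.2 = 0 → (f y).2 = 0` for `‖y - y₀‖ < ε`.  The family is `F.f (t, y) = y + g (t, y)`, `g (t, y) = step t • (B (r⁻¹ • (y - y₀)) • (f y - y))`, and `g (t, ·)` is
`1/2`-Lipschitz.  If `y.2 = 0` then `(g (t, y)).2 = 0`: either the bump function vanishes or `y` is near `y₀` and `(f y).2 = 0 = y.2`; so `(F.f (t, y)).2 = 0`.
If `y.2 ≠ 0`, let `y' = (y.1, 0)`: `(g (t, y')).2 = 0`, so `‖(g (t, y)).2‖ = ‖(g (t, y) - g (t, y')).2‖ ≤ ‖g (t, y) - g (t, y')‖ ≤ 1/2 ‖y - y'‖ = 1/2 ‖y.2‖ < ‖y.2‖`, and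
`(F.f (t, y)).2 = y.2 + (g (t, y)).2 ≠ 0`. -/
def StSML : Prop :=
  ∃ c : ℝ, 0 < c ∧ ∀ (U : Set R4) (y₀ : R4) (f : R4 → R4), IsOpen U → y₀ ∈ U →
    (∀ᶠ y in 𝓝 y₀, ContDiffAt ℝ ∞ f y) → f y₀ = y₀ →
    (∀ᶠ y in 𝓝 y₀, y.2 = 0 → (f y).2 = 0) →
    ‖fderiv ℝ f y₀ - ContinuousLinearMap.id ℝ R4‖ < c → RealL U y₀ f

/-- **GLL** (linear maps which preserve the line) (uses `StSML`, `StGL`).
*Proof.* Let `P A` be the statement `∀ U z, IsOpen U → z ∈ U → z.2 = 0 → RealL U z (fun y => z + A (y - z))`.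
(0) `P A`, `P B` imply `P (A ∘ B)`: compose the two families (`DFam.comp`, see `m_TR`), the supports are compact in `U`, the line condition is transitive; both
germs fix `z`.  (1) `P A` if `‖A - id‖ < c` and `A` preserves the line: `StSML`.
(2) Write `A (σ, v) = (a σ + l v, M v)`, `a = (A (1, 0)).1 > 0`, `l v = (A (0, v)).1`, `M v = (A (0, v)).2`.  `A = S ∘ D_a ∘ D_M` with `D_M (σ, v) = (σ, M v)`,
`D_a (σ, v) = (a σ, v)`, `S (σ, v) = (σ + l' v, v)`, `l' = l ∘ M⁻¹` (`M` is invertible because `A` is: if `M v = 0` then `A (- l v / a, v) = 0`; so `v = 0`).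
(3) `P D_M` for all `M : R3 →L R3` with `0 < M.det`: `StGL` for `E = R3` and the property `M ↦ P D_M` (multiplicative by (0), true near the identity by
(1): `‖D_M - id‖ ≤ ‖M - id‖`).  (4) `P D_a` for `a > 0`: `StGL` for `E = ℝ` and `P' A' := P (D_{A' 1})` (or: `D_a = (D_{a^(1/n)})^n`).
(5) `P S_l` for all `l : R3 →L ℝ`: `S_l = (S_{l/n})^n`, near the identity for large `n`; induction on the number of factors.
(6) `0 < M.det`: `M.det ≠ 0`; `A.det = S.det * D_a.det * D_M.det`, with `S = S_{l'/2} ∘ S_{l'/2}` and `D_a = D_√a ∘ D_√a` of positive determinant (squares, invertible), and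
`D_M.det = M.det` (`LinearMap.det_prodMap`, or: if `M.det < 0` choose the reflection `ρ (a, w) = (-a, w)` of `R3`; `(ρ M).det > 0`, so `D_{ρ M}` is a product of maps near the identity (property `0 < D_M.det` in
`StGL` for `E = R3`: multiplicative, true near the identity by continuity of the determinant), so `0 < (D_ρ).det * (D_M).det`, and `(D_ρ).det < 0`, so `D_M.det < 0`, contradiction). -/
def StGLL : Prop :=
  ∀ (A : R4 →L[ℝ] R4) (U : Set R4) (z : R4), IsOpen U → z ∈ U → z.2 = 0 →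
    (∀ s : ℝ, (A (s, 0)).2 = 0) → 0 < (A (1, 0)).1 → 0 < A.det →
    RealL U z (fun y => z + A (y - z))

/-- **LOCL** (germs which preserve the line) (uses `StSML`, `StGLL`).
*Proof.* Compare `Pool/Agent/Helper70/BI/M_LOC.lean`.  `L = fderiv ℝ h z` is invertible (`0 < L.det`), let `K = L⁻¹`.  `(L (s, 0)).2 = 0`: differentiate `s ↦ (h (z + (s, 0))).2`, which is `0` near `s = 0`
(`z.2 = 0`).  `k y = z + K (h y - z)`: smooth near `z`, `k z = z`, `fderiv k z = K ∘ L = id`; it preserves the line near `z`: `L (1, 0) = (a, 0)`, `a > 0`, so `K (s, 0) = (s / a, 0)`.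
`StSML`: `RealL U z k`.  `StGLL` for `L`: `RealL U z (fun y => z + L (y - z))`.  Compose (`DFam.comp`, see `m_TR`; `k` is continuous at `z`): `z + L (k y - z) = h y`. -/
def StLOCL : Prop :=
  ∀ (U : Set R4) (z : R4) (h : R4 → R4), IsOpen U → z ∈ U → z.2 = 0 → LD h z → h z = z →
    (∀ᶠ y in 𝓝 z, y.2 = 0 → (h y).2 = 0) → 0 < (fderiv ℝ h z (1, 0)).1 →
    0 < (fderiv ℝ h z).det → RealL U z h

/-- `T` is a germ of an embedding at `z0`, which maps the vertical line through `z0` into the base arc. -/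
structure StrA (D : ArcD) (T : R4 → R4) (σ : ℝ → ℝ) (ε : ℝ) : Prop where
  pos : 0 < ε
  loc : ∀ p ∈ Metric.ball z0 ε, LD T p
  inj : InjOn T (Metric.ball z0 ε)
  smooth : ContDiffAt ℝ ∞ σ (1 / 2)
  dpos : 0 < deriv σ (1 / 2)
  lo : D.s₀ < σ (1 / 2)
  hi : σ (1 / 2) < D.s₁
  str : ∀ᶠ s in 𝓝 (1 / 2 : ℝ), T (s, ((0 : ℝ), (0 : ℂ))) = D.J (σ s, 0)
  orient : 0 < (fderiv ℝ T z0).det * (fderiv ℝ D.J (σ (1 / 2), 0)).det

/-- **CEN** (centring) (uses `StLOCL`).
*Proof.* (1) There is `r ∈ (0, ε)` such that `T p ∈ D.A` implies `p.2 = 0` for `p ∈ ball z0 r`.  The set `S = {s | T (s, 0) = D.J (σ s, 0), (s, 0) ∈ ball z0 ε}` is a neighbourhood of `1/2`; `σ` has a nonzero strict derivative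
at `1/2`, so `σ '' S` is a neighbourhood of `σ (1/2)` (`HasStrictDerivAt.map_nhds_eq`), it contains an open set `O ∋ σ (1/2)`.  `K = D.J '' {p ∈ D.L | p.1 ∉ O}` is compact (`D.J` is continuous at the points of the compact set `D.L`), and does not contain
`T z0 = D.J (σ (1/2), 0)` (`D.J` is injective on `D.L`), so `T p ∉ K` for `p` near `z0`.  If moreover `T p ∈ D.A = D.J '' D.L` then `T p = D.J (a, 0)` with `a ∈ O`, so `a = σ s`, `s ∈ S`, `T p = T (s, 0)`, and `p = (s, 0)` by `inj`.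
(2) Let `f` be a local inverse of `T` at `z0` (`IsLocalDiffeomorphAt.localInverse`) and `h p = f (D.J (σ (1/2) + (p.1 - 1/2), p.2))`.  At `p = z0` the argument of `f` is `D.J (σ (1/2), 0) = T z0` (`str` at `1/2`), so `h z0 = z0`, `LD h z0`
(`D.J` is a local diffeomorphism at `(σ (1/2), 0) ∈ D.L`; composition of local diffeomorphisms), and `T (h p) = D.J (σ (1/2) + (p.1 - 1/2), p.2)` near `z0`.  The chain rule gives
`(fderiv T z0).det * (fderiv h z0).det = (fderiv D.J (σ (1/2), 0)).det`, so `0 < (fderiv h z0).det` by `orient`.  For `p` near `z0` with `p.2 = 0`: `T (h p) = D.J (.., 0) ∈ D.A` (`lo`, `hi`) and `h p ∈ ball z0 r`, so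
`(h p).2 = 0` by (1).  So `h (s, 0) = (κ s, 0)` near `s = 1/2`, `D.J (σ (κ s), 0) = T (κ s, 0) = D.J (σ (1/2) + (s - 1/2), 0)`, and `σ (κ s) = σ (1/2) + (s - 1/2)` (injectivity on `D.L`); differentiate:
`σ' (1/2) κ' (1/2) = 1`, so `0 < κ' (1/2) = (fderiv h z0 (1, 0)).1`.
(3) `StLOCL` for `U = ball z0 r`, `z = z0`: `R`.  Near `z0`: `T (R.f (1, p)) = T (h p)`. -/
def StCEN : Prop :=
  ∀ (D : ArcD) (T : R4 → R4) (σ : ℝ → ℝ) (ε : ℝ), StrA D T σ ε →
    ∃ (R : DFam I4 R4) (r : ℝ), 0 < r ∧ r < ε ∧ (∀ y, R.f (0, y) = y) ∧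
      (∃ C : Set R4, IsCompact C ∧ C ⊆ Metric.ball z0 r ∧ ∀ t y, y ∉ C → R.f (t, y) = y) ∧
      (∀ t y, (R.f (t, y)).2 = 0 ↔ y.2 = 0) ∧
      (∀ p ∈ Metric.ball z0 r, T p ∈ D.A → p.2 = 0) ∧
      ∀ᶠ p in 𝓝 z0, T (R.f (1, p)) = D.J (σ (1 / 2) + (p.1 - 1 / 2), p.2)

/-- `T` is a germ along the spine, disjoint from the base arc, whose cuffs are small linking spheres of the base arc,
of radius `lam / 5`, around the points with parameters `a`, `b`. -/
structure NC (D : ArcD) (a b lam : ℝ) (T : R4 → R4) : Prop where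
  emb : EmbOn I4 T SP
  off : ∀ p ∈ SP, T p ∈ D.U \ D.A
  c0 : ∀ p ∈ sph 0, ∀ᶠ q in 𝓝 p, T q = D.J (a + (q.1 - 1 / 2), lam • q.2)
  c1 : ∀ p ∈ sph 1, ∀ᶠ q in 𝓝 p, T q = D.J (b + (q.1 - 1 / 2), lam • (q.2 - pc 1))

/-- **NCT** (crossing germs are equivalent to germs with small round cuffs) (uses `StCEN`, `StCL`, `StFam`, `StDET`, `StA1`).
*Proof.* Write `zc = (1/2, pc c)`, `c = 0, 1`, `Tc p = T (p + (0, pc c))`.  `StA1`: `T` is an injective local diffeomorphism on an open `V ⊇ FB`; shrink `V` so that `T '' V ⊆ D.U`.  Choose `ε < 1/10` with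
`ball z0 ε ⊆ V`, `ball z1 ε ⊆ V`.  `XG.str` gives `StrA D T0 σ ε`, `StrA D T1 τ ε`, `a = σ (1/2)`, `b = τ (1/2)`; `orient` for `T1`: the signs of `(fderiv T ·).det` at `z0`, `z1` agree (`StDET` for `FB`, the local
diffeomorphisms have nonzero determinant), and the signs of `(fderiv D.J ·).det` at `(σ (1/2), 0)`, `(τ (1/2), 0)` agree (`seg` is convex, same proof as `M_DET.lean`).
`StCEN`: `R0, r0`, `R1, r1`.  `R1' (t, p) = R1.f (t, p - (0, pc 1)) + (0, pc 1)`.  For `lam ∈ (0, 1]` let `l t = 1 - t (1 - lam)`, `k (t, p) = clc 0 (l t) (clc 1 (l t) p)`, `m (t, p) = R0.f (t, R1' (t, k (t, p)))`,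
`J (t, p) = D.e (T (m (t, p)))`, `T₁ p = T (m (1, p))`.
(A) For `t ∈ [0, 1]`, `p ∈ SP`: `k (t, p) ∈ FB \ {z0, z1}`: on `sph 0`: `clc 1` is the identity and `clc 0` multiplies `x` by `l t`; on `sph 1`: `clc 1` maps `p` to `(1/2, pc 1 + l t (x - pc 1)) ∈ flat 1`, where `clc 0` is the
identity (`9/100 ≤ rsq 0`); `ax a`, `a ∈ [1/5, 4/5]`, goes to `ax b₁`, `b₁ = 1 + cfac (..) (a - 1) ∈ [a, 1)` and then to `ax b₂`, `b₂ = cfac (..) b₁ ∈ (0, b₁]` (`0 < l t ≤ cfac ≤ 1`); all `ax b` with `0 < b < 1` are in `FB \ {z0, z1}`.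
(B) Let `q ∈ FB \ {z0, z1}`.  If `q ∈ ball z1 r1` then `R1' (t, q) ∈ ball z1 r1` (a diffeomorphism which is the identity off a subset of the ball maps the ball to itself) and `(R1' (t, q)).2 ≠ pc 1` because `q.1 = 1/2`, `q ≠ z1`, so
`q.2 ≠ pc 1`; `T (R1' (t, q)) ∉ D.A` by `StCEN`; `R0` is the identity on `ball z1 r1` (`r0, r1 < 1/10`).  Otherwise `R1' (t, q) = q`; if `q ∈ ball z0 r0` the same argument applies to `R0`; otherwise `m = q`, `T q ∉ D.A` by `XG.arc`.  So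
`T (R0.f (t, R1' (t, q))) ∈ D.U \ D.A` and `R0.f (t, R1' (t, q)) ∈ V`.
(C) `J` is `FamOn SP` (`famOn_iff`): `m` is smooth on `ℝ × R4` (`StCL`, `contDiff_dfam`), each `m (t, ·)`, `t ∈ [0, 1]`, is an injective local diffeomorphism; `T` is one on `V`, `D.e` on `D.U \ D.A` (open: `D.A` is compact).  See `famOn_comp`, `famOn_of_contDiff`,
`famOn_const` in `Base.lean`.  `m (0, p) = p`.  `StFam`: `Eqv (D.e ∘ T) (D.e ∘ T₁)`.  `emb`, `off` of `NC`: the same at `t = 1` without `D.e`.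
(D) `c0`: let `δ > 0` be such that `T (R0.f (1, q)) = D.J (a + (q.1 - 1/2), q.2)` for `‖q - z0‖ < δ` and the analogous formula holds for `R1`, `δ ≤ r0, r1`.  `lam₀ = δ` works: near `p ∈ sph 0`, `k (1, q) = (q.1, lam • q.2)` (`rsq 0 q < 1/20`, `9/100 ≤ rsq 1 q`), which is in `ball z0 δ`
(`‖q.2‖ ≤ 1/2`, `|q.1 - 1/2| < δ`), and `R1'` is the identity there.  `c1`: near `p ∈ sph 1`, `k (1, q) = (q.1, pc 1 + lam • (q.2 - pc 1))`, `R1' (1, ·)` of this is near `z1`, where `R0` is the identity, and `T (R1' (1, ·)) = T1 (R1.f (1, (q.1, lam • (q.2 - pc 1))))`. -/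
def StNCT : Prop :=
  ∀ (D : ArcD) (T : R4 → R4), D.XG T → ∃ a b lam₀ : ℝ, D.s₀ < a ∧ a < b ∧ b < D.s₁ ∧
    0 < lam₀ ∧ ∀ lam ∈ Ioo (0 : ℝ) lam₀, ∃ T₁ : R4 → R4, NC D a b lam T₁ ∧
      Eqv (fun p => D.e (T p)) (fun p => D.e (T₁ p))

/-- **SLD** (sliding along the base arc) (uses `StRM`, `StA1`).
*Proof.* (1) There is a smooth `m : ℝ → ℝ`, `m' > 0`, `m s = s` for `s ≤ s₀ + η` and `s ≥ s₁ - η`, `m s = s + (a' - a)` near `a`, `m s = s + (b' - b)` near `b`: `StRM` (2) for `(1/5, 4/5)`, conjugated with the affine bijection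
`x ↦ s₀ + (5/3) (s₁ - s₀) (x - 1/5)` from `(1/5, 4/5)` to `(s₀, s₁)`.  Decrease `η`.
(2) `D.J` is an injective local diffeomorphism on an open set `V ⊇ D.L` (`StA1`).  For `s ∈ [s₀ + η, s₁ - η]` we have `D.J (s, 0) = D.c s ∈ D.U`; by compactness there is `ρ > 0` such that `K = {p | s₀ + η ≤ p.1 ≤ s₁ - η, ‖p.2‖ ≤ ρ}` satisfies `K ⊆ V`, `D.J '' K ⊆ D.U`.
(3) `χ : R3 → ℝ` smooth with values in `[0, 1]`, `χ x = 1` for `‖x‖ < ρ/3`, `χ x = 0` for `‖x‖ ≥ ρ/2` (`ContDiffBump`).  `Σ (t, (s, x)) = (s + t χ x (m s - s), x)`: for `t ∈ [0, 1]` an injective local diffeomorphism of `R4`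
(`∂/∂s = (1 - tχ) + tχ m' > 0`), the identity off `K`, maps `K` onto `K` (for fixed `x` it is increasing in `s` and fixes the ends), preserves the line `{x = 0}` and its complement.
(4) `S (t, y) = D.J (Σ (t, p))` if `y = D.J p`, `p ∈ K`, and `S (t, y) = y` if `y ∉ D.J '' K`.  Smooth: near a point `(t, y)` with `y ∈ D.J '' V` it is `D.J ∘ Σ (t, ·) ∘ δ⁻¹` with the partial diffeomorphism `δ` of `StA1` (also for `p ∈ V \ K`, where `Σ (t, p) = p`), and
`D.J '' K` is closed, off it `S (t, y) = y`.  (Here `Σ (t, p)` must be in `V`: `Σ (t, ·)` maps `K` to itself and `Σ (t, p) = p` off `K`; to have this also for `t ∉ [0, 1]`, use `step t` instead of `t`.)  For `t ∈ [0, 1]` it is injective and a local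
diffeomorphism (the same formulas).
(5) `S (t, y) ∈ D.A` implies `y ∈ D.A`: if `y ∉ D.J '' K` this is clear; if `y = D.J p`, `p ∈ K`, then `D.J (Σ (t, p)) ∈ D.J '' D.L`, `Σ (t, p) ∈ D.L` (injectivity on `V`), so `p.2 = 0`, `p ∈ D.L`.  `S (t, y) ∈ D.U` for `y ∈ D.U`, as `D.J '' K ⊆ D.U`.
(6) The last two claims: `δ ≤ ρ/3`, and for `|s - a| < δ`: `m s = s + (a' - a)`; if `(s, x) ∉ K` (`‖x‖ < ρ`) then `m s = s` and `S (1, D.J (s, x)) = D.J (s, x)` (choose `δ` with `{(s, x) | |s - a| < δ, ‖x‖ < δ} ⊆ V`), consistent. -/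
def StSLD : Prop :=
  ∀ (D : ArcD) (a b a' b' : ℝ), D.s₀ < a → a < b → b < D.s₁ → D.s₀ < a' → a' < b' → b' < D.s₁ →
    ∃ (S : ℝ × R4 → R4) (δ : ℝ), ContDiff ℝ ∞ S ∧ (∀ y, S (0, y) = y) ∧ 0 < δ ∧
      (∀ t ∈ Icc (0 : ℝ) 1, EmbOn I4 (fun y => S (t, y)) univ) ∧
      (∀ t ∈ Icc (0 : ℝ) 1, ∀ y ∈ D.U \ D.A, S (t, y) ∈ D.U \ D.A) ∧
      (∀ p : R4, |p.1 - a| < δ → ‖p.2‖ < δ → S (1, D.J p) = D.J (p.1 + (a' - a), p.2)) ∧
      ∀ p : R4, |p.1 - b| < δ → ‖p.2‖ < δ → S (1, D.J p) = D.J (p.1 + (b' - b), p.2)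

end Pool.Agent.Helper70.H


end
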