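import Pool.Agent.Helper65.Barb.Defs
import Pool.Agent.Helper70.BI.B.P16
import Pool.Agent.Helper70.BI.B.P17

/-!
# Project BI (MP_8e98f2_gt): collected modules, part 18

The contents of the modules
* Helper70.BI.StL
* Helper27.BI.H.StH1
* Helper27.BI.H.StH3
* Helper18.BI.H.StEnd
* Helper18.BI.H.StF3
* Helper70.BI.M_OB0
* Helper18.BI.H.M_HC

in one file, so that the whole proof builds in a short time.
-/

/-! ## Helper70.BI.StL -/

section

/-!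
# Project BI, part (E), section L: lassos, and the main theorem of stage 2

Statements (as `Prop` definitions) with complete proofs in the docstrings.  A module `M_X` proves
`theorem m_X : StX` (possibly from other statements as hypotheses `(h : StY)`).

Plan.  A germ with `Br 1 F γ e` (the second cuff bounds a flat ball met once by the bar) is joined to a
lasso (a germ of trivial class whose bar runs through the ball and ends close to it) by a family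
of germs which only crosses the first cuff, after the crossing with the ball; every crossing
changes the class by the class `W` of theta germs.  So the class is trivial or `W`.  With the
crossing lemma `StCRP` this gives the main theorem of stage 2: the class depends on the cuffs only, up to `W`.
-/

set_option autoImplicit false

open scoped Manifold ContDiff Topology ComplexConjugate
open Set Filter Pool.Agent.Helper65.Barb Pool.Agent.Helper18.BI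

namespace Pool.Agent.Helper70.BI

open Pool.Agent.Helper34.BI (cfac BarData barFam PreCross BFam GenData cst crv)
open Pool.Agent.Helper27.BI (refh refs swp StVanT StRefH StRefS StR2sw)

/-! ## lassos -/

/-- **V1** (uses `StVanT`, `StR2sw`).  A germ which extends over the second flat ball has trivial class.
*Proof.* `fun p => F (swp p)` is `EmbOn (flat 0 ∪ sph 1 ∪ neck)` (`swp` exchanges `flat 0`, `flat 1` and `sph 0`, `sph 1` and
maps the neck to itself; see `Pool/Agent/Helper34/BI/BF.lean` for lemmas on `swp`), so its class is trivial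
by `StVanT`; `StR2sw` for `F` with `φ = φ' = id`. -/
def StV1 : Prop :=
  ∀ F : R4 → R4, EmbOn I4 F (flat 1 ∪ neck ∪ sph 0) → Thin I4 F (fun x => x)

/-- squared distance from the sphere `sph 1` -/
noncomputable def tr (p : R4) : ℝ := (p.1 - 1 / 2) ^ 2 + (√(rsq 1 p) - 1 / 5) ^ 2

/-- **ROT** (rotation about `sph 1`, once around, inside the tube of radius `ε`).
*Proof.* Write `u = s - 1/2`, `ϱ = √(rsq 1 p)`, `v = ϱ - 1/5`, `tr p = u² + v²`, and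
`θ(t,p) = 2π d t step ((4/3)(1 - tr p/ε²))` (zero for `tr p ≥ ε²`).
`R.f (t, p) = (1/2 + cos θ u - sin θ v, pc 1 + ((1/5 + sin θ u + cos θ v)/ϱ) • (p.2 - pc 1))` if `ϱ > 1/10`, and `R.f (t, p) = p` if
`ϱ ≤ 1/10`; for `ϱ < 3/20` the formula also gives `p`, because then `tr p ≥ (1/20)² > ε²` and `θ = 0`; so `R.f` is smooth.
`|sin θ u + cos θ v| ≤ √(tr p) < ε < 1/5` if `θ ≠ 0`, so the new `ϱ` is `1/5 + sin θ u + cos θ v` and `tr` is preserved; the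
inverse `R.g` is the same with `-θ`.  On `sph 1`: `u = v = 0`.  If `tr p < ε²/4` then `(4/3)(1 - tr p/ε²) > 1`, `θ = 2π d t`, and `R.f (1, p) = p`.
On the axis, for `a ∈ (4/5 - ε, 4/5)`: `u = 0`, `v = 4/5 - a ∈ (0, ε)`, `(p.2 - pc 1)/ϱ = (-1, 0)`, so
`R.f (1, ax a) = (1/2 - sin θ v, (4/5 - cos θ v, 0))`, `θ = 2π d step ((4/3)(1 - v²/ε²))`; this is in `flat 1` iff `sin θ = 0` and `cos θ ≤ 0`, iff
`step (..) = 1/2`, iff `(4/3)(1 - v²/ε²) = 1/2` (`step x = 1/2` iff `x = 1/2`: `step x = f x/(f x + f (1-x))` with `f = expNegInvGlue`, zero on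
`(-∞, 0]` and strictly increasing on `[0, ∞)`), iff `v = v₁ = ε √(5/8) ∈ (ε/2, ε)`; `a₁ = 4/5 - v₁`.  There `cos θ = -1`: `R.f (1, ax a₁) = (1/2, 4/5 + v₁, 0)`.
Derivative of `a ↦ 1/2 - sin θ v` at `a₁` (`dv/da = -1`): `cos θ θ'(v₁) v₁ + sin θ = - v₁ θ'(v₁) = 2π d step'(1/2) (8/3) v₁²/ε² = d (10π/3) step'(1/2)`,
and `step'(1/2) = f'(1/2)/(2 f(1/2)) > 0` (`f x = exp (-1/x)` for `x > 0`). -/
def StROT : Prop :=
  ∀ d ε : ℝ, (d = 1 ∨ d = -1) → ε ∈ Ioo (0 : ℝ) (1 / 20) →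
    ∃ (R : DFam I4 R4) (a₁ : ℝ), (∀ p, R.f (0, p) = p) ∧
      (∀ t p, ε ^ 2 ≤ tr p → R.f (t, p) = p) ∧ (∀ t p, tr (R.f (t, p)) = tr p) ∧
      (∀ t, ∀ p ∈ sph 1, R.f (t, p) = p) ∧ (∀ p, tr p < ε ^ 2 / 4 → R.f (1, p) = p) ∧
      a₁ ∈ Ioo (4 / 5 - ε) (4 / 5 - ε / 2) ∧ R.f (1, ax a₁) = ax (8 / 5 - a₁) ∧
      (∀ a ∈ Ioo (4 / 5 - ε) (4 / 5 : ℝ), R.f (1, ax a) ∈ flat 1 → a = a₁) ∧
      0 < d * deriv (fun a => (R.f (1, ax a)).1) a₁

/-- **NO1** (a path which stays near the ball but does not cross it) (uses `StPATH`, `exists_genPos`).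
*Proof.* `U = ball (ax 1) r ∩ ({p | d (p.1 - 1/2) < 0} ∪ {p | p.2.1 < 1 - lam/5})`: open, preconnected (both sets are
convex, with a common point).  `StPATH` with `a₀ = 2/5 - r/2`, `a₁ = 79/100`, `η` small (`η < r/2`, `η ≤ 1/100`), `c₀ = c₁ = c`: on
`[a₀, a₀ + η]`: `d (s - 1/2) = a - 2/5 < 0`, distance to `ax 1` is `|a - 2/5| < r`; on `[a₁ - η, a₁]`: the `a`-coordinate is `1 - lam (1-a) < 1 - lam/5`, distance `lam (1-a) < r`.
This gives `q₀` smooth, `q₀ = c` for `a ≤ a₀ + η/2` and for `a ≥ a₁ - η/2`, `q₀ a ∈ U` on `[a₀, a₁]`.  `exists_genPos` for `h (t, a) = q₀ a`, `ρ = 1`, `χ = hat a₀ a₁`, empty index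
types (`Y = ℂ`): `q a = q₀ a + χ a • (v + a • w)`, with `v, w` so small that `q a ∈ U` on `[a₀, a₁]` (compactness); injective on `[1/5, 4/5]`: `GenPos.inj` (at `t = 0`), and if `χ a = χ b = 0` both values are values of
`c`; `deriv q ≠ 0`: `GenPos.imm`; if `χ a = 0` then `χ' a = 0` (minimum), `q₀ = c` near `a`, and `deriv q a = deriv c a`. -/
def StNO1 : Prop :=
  ∀ (c : ℝ → R4) (d δ r lam : ℝ), (d = 1 ∨ d = -1) → 0 < lam → lam < r → r < δ → δ ≤ 1 / 100 →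
    ContDiff ℝ ∞ c → InjOn c (Icc (1 / 5) (4 / 5)) →
    (∀ a ∈ Icc (1 / 5 : ℝ) (4 / 5), deriv c a ≠ 0) →
    (∀ a, |a - 2 / 5| < δ → c a = (1 / 2 + d * (a - 2 / 5), pc 1)) →
    (∀ a ∈ Icc (39 / 50 : ℝ) (4 / 5), c a = ax (1 - lam * (1 - a))) →
    ∃ q : ℝ → R4, ContDiff ℝ ∞ q ∧ (∀ a, a ≤ 2 / 5 - r / 2 → q a = c a) ∧
      (∀ a, 79 / 100 ≤ a → q a = c a) ∧
      (∀ a ∈ Icc (2 / 5 - r / 2) (79 / 100 : ℝ), ‖q a - ax 1‖ < r ∧
        (d * ((q a).1 - 1 / 2) < 0 ∨ (q a).2.1 < 1 - lam / 5)) ∧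
      InjOn q (Icc (1 / 5) (4 / 5)) ∧ ∀ a ∈ Icc (1 / 5 : ℝ) (4 / 5), deriv q a ≠ 0

/-- **NO** (a germ whose bar stays near the ball but does not cross it) (uses `StNO1`, `StCTR`, `StCL`,
`Pool.Agent.Helper34.BI.StCO`).
*Proof.* `F (ax 1) = ax 1 = core F (2/5)` (`near`, `str`).  `F p ≠ ax 1` on `sph 0` (`injF`), and `core F a ≠ ax 1` for `a ∈ [1/5, 4/5]`, `a ≠ 2/5`
(`inj`: `core F (2/5) = ax 1`): by compactness there is `r` as required (`r < δ`, `r < r₁`).  `lam₀ = r` (`r < 1/100`).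
Let `0 < lam < r`, `F_l p = F (clc 1 lam p)`, `b a = 1 + cfac lam ((a-1)²) (a-1)`; `clc 1 lam (ax a) = ax (b a)`; `b a = a` for `a ≤ 7/10`, `b a = 1 - lam (1-a)`
for `a ∈ [39/50, 1]` (`(11/50)² < 1/20`).  `F_l` is `EmbOn SP` (`StCTR`, `γ = 2/5`); near `flat 1` it is `(s, x) ↦ (s, pc 1 + lam (x - pc 1))` (`F = id` on
`ball (ax 1) δ`, `lam < δ`), so `F_l '' flat 1 = D := {(1/2, x) | nsq (x - pc 1) ≤ lam²/25}`, `F_l '' sph 1 ⊆ D`.  `F_l = F` for `p.2.1 ≤ 7/10`.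
Let `c₀ : ℝ → R4` be smooth with `c₀ a = core F_l a` and `deriv c₀ a ≠ 0` on `[1/5, 4/5]` (`StCO` for `F_l, F_l`); it satisfies the hypotheses of `StNO1` (`δ ≤ 1/100`, so `|a - 2/5| < δ` implies
`a ∈ [1/5, 4/5]`): `q`.  `G p = barFam F_l c₀ (fun z => q z.2) (1/100) (0, p)`: `BarData` (frozen: `q = c₀` for `a ≤ 1/5 + 1/100` and `a ≥ 79/100`), `BarData.embOn`:
`q a ∉ F_l '' (sph 0 ∪ sph 1)` for `a ∈ (1/5, 4/5)`: if `a ∈ [2/5 - r/2, 79/100]`: `q a` is at distance `< r` from `ax 1`, and not in `D` (`s = 1/2` and `a`-coordinate `≥ 1 - lam/5` on `D`); otherwise `q a = core F_l a`, `F_l` is injective on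
`SP`.  `EmbOn G (SP ∪ flat 1)`: `G = F_l` for `p.2.1 ≥ 4/5 - 1/200` and for `p.2.1 ≤ 1/5 + 1/200` (`barFam_eq`), so `G '' flat 1 = D`, `G` is injective and a local diffeomorphism on `flat 1`; points of `sph 0`: distance `> r` from `ax 1`;
points of the neck: `core G a = q a` (`barFam_neck`); `a ≤ 2/5 - r/2`: either
`δ ≤ |a - 2/5|`, distance `> r`, or `s ≠ 1/2`; `a ∈ [2/5 - r/2, 79/100]`: not in `D`; `a ∈ [79/100, 4/5)`: `a`-coordinate `< 1 - lam/5`; so only the foot `ax (4/5)` has its image in `D`. -/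
def StNO : Prop :=
  ∀ (F : R4 → R4) (d δ r₁ : ℝ), (d = 1 ∨ d = -1) → NB 1 F (2 / 5) d δ → 0 < r₁ →
    ∃ r lam₀ : ℝ, 0 < r ∧ r < r₁ ∧ r < δ ∧ 0 < lam₀ ∧ (∀ p ∈ sph 0, r < ‖F p - ax 1‖) ∧
      (∀ a ∈ Icc (1 / 5 : ℝ) (4 / 5), δ ≤ |a - 2 / 5| → r < ‖core F a - ax 1‖) ∧
      ∀ lam ∈ Ioo (0 : ℝ) lam₀, ∃ G : R4 → R4, EmbOn I4 G (SP ∪ flat 1) ∧
        (∀ p : R4, p.2.1 ≤ 1 / 5 + 1 / 200 → G p = F p) ∧
        (∀ p : R4, 4 / 5 - 1 / 200 ≤ p.2.1 → G p = F (clc 1 lam p)) ∧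
        (∀ a ∈ Icc (1 / 5 : ℝ) (2 / 5 - r / 2), core G a = core F a) ∧
        ∀ a ∈ Icc (2 / 5 - r / 2) (4 / 5 : ℝ), ‖core G a - ax 1‖ < r

/-- **SPI** (spinning the end of the bar once around the cuff) (uses `StROT`, `StA1`, `StFam`).
*Proof.* `StA1`: there is an open `V ⊇ SP ∪ flat 1` on which `G` is injective and a local diffeomorphism.  Choose `ε < 1/400`,
`ε < r` with `{p | tr p < ε²} ⊆ V` (`sph 1` is compact and `tr p = 0` exactly on `sph 1`).  `StROT` with `d, ε`: `R`, `a₁ =: β₁ > 4/5 - ε > 3/4`.  If `tr p < ε²` then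
`|p.1 - 1/2| < ε`, `|√(rsq 1 p) - 1/5| < ε`, so `p.2.1 ≥ 4/5 - ε`, `rsq 1 p ≤ (1/5 + ε)² < 1/20` and the formula for `G p` holds.
`G₁ p = G (R.f (1, p))`.  `J (t, p) = G (R.f (t, p))` is `FamOn SP` (`R.f (t, ·)` maps `SP` into `V`: a point is either fixed or stays in the tube; `R.f (t, ·)` is a diffeomorphism of `R4`):
`Eqv G G₁` by `StFam`.  `F' p = G p` if `rsq 1 p ≤ (1/5 + ε/4)²`, `F' p = G₁ p` otherwise.  For `|s - 1/2| < ε/4` and `|√(rsq 1 p) - 1/5| < ε/3` one has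
`tr p < ε²/4`, `R.f (1, p) = p` and `F' p = G p = G₁ p`.  So: `F' = G₁` near `SP` (points of `SP` with `rsq 1 p ≤ (1/5 + ε/4)²` have `s = 1/2`, `√(rsq 1 p) ∈ [1/5, 1/5 + ε/4]`) and
`F' = G` near `flat 1`.  `Eqv G F'` (`eqv_of_nearEq`).
`Br 1 F' β₁ d`: `loc`, `inj` (`R.f (1, ·)` is injective, `G` is injective on `V`); `injF`: on `flat 1 ∪ sph 0`, `F' = G` (`sph 0` is far from the tube); `cr`: `x₀ = pc (8/5 - β₁)`,
`nsq (x₀ - pc 1) = (3/5 - β₁)² < 1/25` (`β₁ < 4/5`, and `> 2/5`), `core F' β₁ = G (R.f (1, ax β₁)) = G (1/2, x₀) = F' (1/2, x₀)`; `F' = G` near `(1/2, x₀)`; with `κ a = R.f (1, ax a)`: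
`fderiv F' (ax β₁) (0, (1, 0)) = (core G₁)'(β₁) = fderiv G (1/2, x₀) (κ'(β₁))`, and the `s`-component `l` of `κ'(β₁)` satisfies `d l > 0`.  `only`: `core F' a = G (R.f (1, ax a))` for all
`a ∈ [1/5, 4/5]`, `F' '' flat 1 = G '' flat 1`, so `R.f (1, ax a) ∈ flat 1` (injectivity on `V`); if `a ≤ 4/5 - ε` then `R.f (1, ax a) = ax a ∉ flat 1`; so `a = β₁` or `a = 4/5`.
`p.2.1 ≤ 3/4`: `√(rsq 1 p) ≥ 1/4`, outside the tube.  `core F' a ≠ core G a` only if `ax a` is in the tube, then `core F' a = (s, pc 1 + lam (x - pc 1))` with `|s - 1/2| < ε < r`,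
`‖lam (x - pc 1)‖ ≤ lam √(rsq 1) < r`.  Determinant: near `ax (4/5)`, `F' (s, x) = (s, pc 1 + lam (x - pc 1))`, determinant `lam³`.  Last claim:
`core F' β₁ = G (ax (8/5 - β₁)) = ax (1 + lam (3/5 - β₁))`, `|3/5 - β₁| < 1/5`. -/
def StSPI : Prop :=
  ∀ (G : R4 → R4) (d r lam : ℝ), (d = 1 ∨ d = -1) → 0 < r → 0 < lam → lam < r →
    EmbOn I4 G (SP ∪ flat 1) →
    (∀ p : R4, 4 / 5 - 1 / 200 ≤ p.2.1 → rsq 1 p ≤ 1 / 20 → |p.1 - 1 / 2| < r →
      G p = (p.1, pc 1 + lam • (p.2 - pc 1))) →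
    ∃ (F' : R4 → R4) (β₁ : ℝ), 3 / 4 < β₁ ∧ Br 1 F' β₁ d ∧ Eqv G F' ∧
      (∀ p : R4, p.2.1 ≤ 3 / 4 → F' p = G p) ∧
      (∀ a ∈ Icc (1 / 5 : ℝ) (4 / 5), core F' a = core G a ∨ ‖core F' a - ax 1‖ < r) ∧
      0 < (fderiv ℝ F' (ax (4 / 5))).det ∧ ‖core F' β₁ - ax 1‖ < lam

/-- **LAS** (lassos) (uses `StNO`, `StV1`, `StSPI`, `StNF1`, `StRM`, `StRG`, `StNF2`).
*Proof.* `StNO`: `r`, `lam₀`; choose `lam < lam₀`, `lam < r/4`; `G`.  `Thin G id` by `StV1`.  `StSPI` (its formula: `F = id` on `ball (ax 1) δ`, `StCL`): `F₁`, `β₁`.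
`StNF1` with `c = 1`, `F₁`, `γ = β₁`, `e = d`, `U = ball (ax 1) (r/4)` (convex, contains `core F₁ β₁`): `F₂`, `G'`, `Strand 1 F₂ β₁ d` with `τ`.  Write `g = G'.f (1, ·)`: a bijection,
`g y = y` off a compact subset of `U`, so `g` maps `ball (ax 1) r` to itself.  Near `sph 0`: `F₂ p = g (F₁ p) = g (F p) = F p` (`‖F p - ax 1‖ > r`).
`core F₂ a = g (core F₁ a)` on `[1/5, 4/5]` (`rsq 1 (ax a) ≥ 1/25`); for `a ≤ 2/5 - r/2`: `core F₁ a = core G a = core F a`, at distance `≥ r/2` from `ax 1` (if `|a - 2/5| < δ` the distance is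
`|a - 2/5| ≥ r/2`), so `core F₂ a = core F a`; for `a ≥ 2/5 - r/2`: `core F₁ a ∈ ball (ax 1) r`, so `core F₂ a ∈ ball (ax 1) r`.
`StRM` (1) with `a₀ = 2/5 - r/2`, `b₀ = 4/5`, `x = 2/5`, `y = β₁`, `μ a = τ (1/2 + d (a - 2/5))` (`μ' (2/5) = d τ'(1/2) > 0`): `m`, `RepOK m`; `F' p = F₂ (repm m p)`; `StNF2` gives `NB 1 F' (2/5) d δ'`;
`StRG`: `Eqv F₂ F'`, `core F' a = core F₂ (m a)`, `m a = a` for `a ≤ 2/5 - r/2`, and `m` maps `[2/5 - r/2, 4/5]` to itself.  `Thin F' id` along `G ~ F₁ ~ F₂ ~ F'`.  Near `sph 0`, `repm m = id`. -/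
def StLAS : Prop :=
  ∀ (F : R4 → R4) (d δ r₁ : ℝ), (d = 1 ∨ d = -1) → NB 1 F (2 / 5) d δ → 0 < r₁ →
    ∃ (r δ' : ℝ) (F' : R4 → R4), 0 < r ∧ r < r₁ ∧ r < δ ∧ (∀ p ∈ sph 0, r < ‖F p - ax 1‖) ∧
      (∀ a ∈ Icc (1 / 5 : ℝ) (4 / 5), δ ≤ |a - 2 / 5| → r < ‖core F a - ax 1‖) ∧
      NB 1 F' (2 / 5) d δ' ∧ Thin I4 F' (fun x => x) ∧ NearEq F F' (sph 0) ∧
      (∀ a ∈ Icc (1 / 5 : ℝ) (2 / 5 - r / 2), core F' a = core F a) ∧
      ∀ a ∈ Icc (2 / 5 - r / 2) (4 / 5 : ℝ), ‖core F' a - ax 1‖ < r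

/-! ## the family joining a germ to its lasso -/

/-- A generic family `H (t, ·)` of arcs on `[1/5, 1]` from the (extended) core of `F'` (`t ≤ 0`) to the one of
`F` (`t ≥ 1`), constant on `a ≤ 2/5 - 3r/4`, on `|a - 2/5| ≤ δ₂` (the strand through `ax 1`) and on `a ≥ 1 - δ₂`. -/
structure ArcsL (F F' : R4 → R4) (d r δ₂ : ℝ) (H : ℝ × ℝ → R4) : Prop where
  pos : 0 < δ₂
  small : δ₂ < r / 4
  smooth : ContDiff ℝ ∞ H
  left : ∀ t a, t ≤ 0 → H (t, a) = H (0, a)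
  right : ∀ t a, 1 ≤ t → H (t, a) = H (1, a)
  start : ∀ a ∈ Icc (1 / 5 : ℝ) 1, H (0, a) = F' (ax a)
  stop : ∀ a ∈ Icc (1 / 5 : ℝ) 1, H (1, a) = F (ax a)
  low : ∀ t a, a ≤ 2 / 5 - 3 / 4 * r → H (t, a) = H (0, a)
  mid : ∀ t a, |a - 2 / 5| ≤ δ₂ → H (t, a) = (1 / 2 + d * (a - 2 / 5), pc 1)
  high : ∀ t a, 1 - δ₂ ≤ a → H (t, a) = ax a
  inj : ∀ t, InjOn (fun a => H (t, a)) (Ico (1 / 5) 1)
  ne : ∀ t, ∀ a ∈ Ico (1 / 5 : ℝ) 1, H (t, a) = ax 1 → a = 2 / 5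
  imm : ∀ t, ∀ a ∈ Icc (1 / 5 : ℝ) 1, fderiv ℝ H (t, a) (0, 1) ≠ 0
  finite : {x : ℝ × ℝ | x.2 ∈ Ioo (1 / 5 : ℝ) 1 ∧ H x ∈ F '' sph 0}.Finite
  late : ∀ t, ∀ a ∈ Ioo (1 / 5 : ℝ) 1, H (t, a) ∈ F '' sph 0 → 0 < t ∧ t < 1 ∧ 2 / 5 < a
  single : ∀ t, ∀ a ∈ Ioo (1 / 5 : ℝ) 1, ∀ a' ∈ Ioo (1 / 5 : ℝ) 1, H (t, a) ∈ F '' sph 0 →
    H (t, a') ∈ F '' sph 0 → a = a'
  trans : ∀ t, ∀ a ∈ Ioo (1 / 5 : ℝ) 1, ∀ y : ℂ, H (t, a) = F (cst false y) →
    ∀ ζ η, fderiv ℝ H (t, a) ζ = fderiv ℝ (fun y => F (cst false y)) y η → ζ = 0 ∧ η = 0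
  avoid : ∀ t, ∀ a ∈ Ioo (1 / 5 : ℝ) 1, H (t, a) ∈ F '' sph 0 → ∀ θ, H (t, a) ≠ F (crv false θ)

/-- The germs `F` and `F'` (a germ in normal form and its lasso). -/
structure LasPair (F F' : R4 → R4) (d δ δ' r : ℝ) : Prop where
  nb : NB 1 F (2 / 5) d δ
  nb' : NB 1 F' (2 / 5) d δ'
  pos : 0 < r
  lt : r < δ
  far : ∀ p ∈ sph 0, r < ‖F p - ax 1‖
  farc : ∀ a ∈ Icc (1 / 5 : ℝ) (4 / 5), δ ≤ |a - 2 / 5| → r < ‖core F a - ax 1‖
  near : NearEq F F' (sph 0)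
  low : ∀ a ∈ Icc (1 / 5 : ℝ) (2 / 5 - r / 2), core F' a = core F a
  high : ∀ a ∈ Icc (2 / 5 - r / 2) (4 / 5 : ℝ), ‖core F' a - ax 1‖ < r

/-- The extended core of the germ `F`, on `[1/5, 1]`; `S` is the first cuff. -/
structure XCore (F : R4 → R4) (S : Set R4) (d μ r : ℝ) (c : ℝ → R4) : Prop where
  smooth : ContDiff ℝ ∞ c
  core : ∀ a ∈ Icc (1 / 5 : ℝ) 1, c a = F (ax a)
  high : ∀ a, 1 - μ < a → c a = ax a
  mid : ∀ a, |a - 2 / 5| < μ → c a = (1 / 2 + d * (a - 2 / 5), pc 1)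
  inj : InjOn c (Ico (1 / 5) 1)
  ne : ∀ a ∈ Ico (1 / 5 : ℝ) 1, c a = ax 1 → a = 2 / 5
  imm : ∀ a ∈ Icc (1 / 5 : ℝ) 1, deriv c a ≠ 0
  off : ∀ a ∈ Ioo (1 / 5 : ℝ) 1, c a ∉ S
  ball : ∀ a ∈ Icc (2 / 5 - 3 / 4 * r) (2 / 5 : ℝ), ‖c a - ax 1‖ < r

/-- **XC** (extended cores).
*Proof.* Let `μ = min δ δ'`.  `F` and `F'` are smooth near `ax a` for `a ∈ [1/5, 1]` (`neck ∪ flat 1`), so for `a ∈ (1/5 - ν, 1 + ν)`, and equal near `ax a` for `|a - 1/5| < ν` (`near`, `ax (1/5) ∈ sph 0`), for some `ν > 0`, `ν < 1/100`.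
Let `ψ` be smooth, `1` on `[1/5 - ν/3, ∞)`, `0` on `(-∞, 1/5 - 2ν/3]`, and `ψ'` smooth, `1` on `(-∞, 1 - μ]`... take `c a = ψ a • F (ax a)` for `a ≤ 1 - μ/2` and `c a = ax a` for `a > 1 - μ`: the two formulas
agree on the overlap because `F = id` on `ball (ax 1) μ`; same for `c'`.  For `a ≤ 2/5 - r/2`: equal (for `a < 1/5 + ν` because `F (ax a) = F' (ax a)` or `ψ a = 0`; on `[1/5, 2/5 - r/2]` by `low`).
`mid`: `str`.  Injective: on `[1/5, 4/5]` by `Br.inj`, on `[4/5, 1)` by `injF`; if `a < 4/5 ≤ b < 1` and `c a = c b` then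
`core F a ∈ F '' flat 1`, so `a = 2/5`, `c a = ax 1 = F (ax 1)`, and `ax b = ax 1` by `injF`, contradiction.  `ne`: the same argument.  `imm`: the derivative of a local diffeomorphism is injective
(`c = F ∘ ax` near `[1/5, 1]`).  `off` (`S = F '' sph 0 = F' '' sph 0`): on `(1/5, 4/5]` by `Br.inj`, on `[4/5, 1)` by `injF`.  `ball`: for `c`: `|a - 2/5| ≤ 3r/4 < δ`, so by `nb.str` the distance is `|a - 2/5| < r`; for `c'`: if `a ≤ 2/5 - r/2` then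
`c' a = c a`, otherwise `high` of `LasPair`. -/
def StXC : Prop :=
  ∀ (F F' : R4 → R4) (d δ δ' r : ℝ), (d = 1 ∨ d = -1) → LasPair F F' d δ δ' r →
    ∃ (c c' : ℝ → R4) (μ : ℝ), 0 < μ ∧ μ ≤ δ ∧ μ ≤ δ' ∧ XCore F (F '' sph 0) d μ r c ∧
      XCore F' (F '' sph 0) d μ r c' ∧ ∀ a, a ≤ 2 / 5 - r / 2 → c a = c' a

/-- **ARL** (the family of arcs) (uses `Pool.Agent.Helper34.BI.StCH`, `exists_genPos`).
*Proof.* `δ₂ < r/4`, `δ₂ < μ/4`.  `χ` = `hat (2/5 - 3r/4) (2/5 - δ₂)` `+ hat (2/5 + δ₂) (1 - δ₂)` (if `χ a = 0` then `c = c'` near `a`: `δ₂ < μ`).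
`exists_genPos` (`Generic.lean`) for `h (t, a) = (1 - step t) • c' a + step t • c a`, `ρ = hat 0 1`, the surface `y ↦ F (cst false y)` on `ℂ` (`ι = Unit`), the curves `θ ↦ F (crv false θ)` and `θ ↦ ax 1`, gives `v, w` arbitrarily small;
`H = fam h ρ χ v w`.  (Follow the proof of `exists_arcFamilyG` in `Pool/Agent/Helper34/BI/Arcs2.lean`; its conclusion on curves is only for the points of `A`, the field `GenPos.curve` is what is needed here.)
`F (cst false ·)`, `F (crv false ·)` are smooth and parametrize `F '' sph 0` minus the foot (`StCH` for `F`, which is `EmbOn SP`); the `Charts` conditions for `A = F '' sph 0` follow from those of `StCH` for `F '' (sph 0 ∪ sph 1)`.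
`inj`: if `χ a ≠ 0` or `χ b ≠ 0`, and `0 < t < 1`: `GenPos.inj`; otherwise both values are those of `c` or both are those of `c'`.  `ne`: if `χ a ≠ 0`, `0 < t < 1`: `GenPos.curve`; otherwise `XCore.ne`.  `imm`: as in `exists_arcFamilyG`.
`late`: no crossing for `t ≤ 0`, `t ≥ 1`, or `χ a = 0` (`XCore.off`).  For `2/5 - 3r/4 ≤ a ≤ 2/5` both `c a` and `c' a` are in the convex set
`ball (ax 1) r`, so for small `v, w` (compactness of `[0,1] × [2/5 - 3r/4, 2/5]`) `‖H (t, a) - ax 1‖ < r`, but `F '' sph 0` is outside (`far`).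
`finite`, `single`, `trans`, `avoid`: as in `exists_arcFamilyG` (all crossings have `0 < t < 1` and `χ a ≠ 0`, so `a` is in a compact subset of `(1/5, 1)`; the foot `F (ax (1/5)) = H (t, 1/5)` is not a crossing point by `inj`);
`cst false y ∈ sph 0`.  `left`, `right`, `low`, `mid`, `high`, `start`, `stop`: from the formula. -/
def StARL : Prop :=
  ∀ (F F' : R4 → R4) (d δ δ' r μ : ℝ) (c c' : ℝ → R4), (d = 1 ∨ d = -1) →
    LasPair F F' d δ δ' r → 0 < μ → μ ≤ δ → μ ≤ δ' → XCore F (F '' sph 0) d μ r c →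
    XCore F' (F '' sph 0) d μ r c' → (∀ a, a ≤ 2 / 5 - r / 2 → c a = c' a) →
    ∃ (δ₂ : ℝ) (H : ℝ × ℝ → R4), δ₂ < δ ∧ δ₂ < δ' ∧ ArcsL F F' d r δ₂ H

/-- A family of germs along the spine and the second flat ball, constant on the ball, whose bars
cross the ball once, at the parameter `2/5`; the exceptional times are crossings of the bar with
the first cuff at a parameter `> 2/5`. -/
structure BFam1 (J : ℝ × R4 → R4) (d : ℝ) : Prop where
  smooth : ∀ t, ∀ p ∈ SP, ∀ᶠ q in 𝓝 (t, p), ContDiffAt ℝ ∞ J q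
  loc : ∀ t, ∀ p ∈ SP ∪ flat 1, LD (fun p => J (t, p)) p
  finite : {t | ¬ InjOn (fun p => J (t, p)) SP}.Finite
  cross : ∀ t, ¬ InjOn (fun p => J (t, p)) SP → ∃ (u : ℝ) (p : R4), 2 / 5 < u ∧ PreCross J t u p
  const : ∀ t t' : ℝ, ∀ p ∈ flat 1, J (t, p) = J (t', p)
  injF : ∀ t, InjOn (fun p => J (t, p)) (flat 1 ∪ sph 0)
  cr : ∀ t, CrossAt (fun p => J (t, p)) 1 (2 / 5) d
  only : ∀ t, ∀ a ∈ Icc (1 / 5 : ℝ) (4 / 5),
    core (fun p => J (t, p)) a ∈ (fun p => J (t, p)) '' flat 1 → a = 4 / 5 ∨ a = 2 / 5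

/-- the reparametrization of the bar caused by the contraction: `clc 1 lam (ax a) = ax (bb lam a)` -/
noncomputable def bb (lam a : ℝ) : ℝ := 1 + cfac lam ((a - 1) ^ 2) * (a - 1)

/-- **FML1** (the contracted family of arcs) (uses `StCL`, `StCTR`; the structure `GenData` of
`Pool/Agent/Helper34/BI/BF.lean`).
*Proof.* By compactness there is `μ > 0` with `‖H (t, a) - ax 1‖ ≥ μ` for `t ∈ [0, 1]`, `a ∈ [1/5, 1 - δ₂]`, `|a - 2/5| ≥ δ₂` (`ne`), hence for all `t` (`left`, `right`).  Let `0 < lam ≤ 1/2`, `lam < μ`,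
`lam < δ₂`, `lam < δ`, `lam < δ'`.  `b = bb lam` (`StCL` for `c = 1`): smooth, `b' > 0`, `b a = a` for `a ≤ 7/10` (`cfac lam q = 1` for `q ≥ 9/100`), `b a = 1 - lam (1 - a)` for `|1 - a| ≤ 11/50`; `b` maps `[1/5, 4/5]` onto `[1/5, 1 - lam/5]`.
`F'_l p = F' (clc 1 lam p)` is `EmbOn SP` (`StCTR`, `γ = 2/5`; `core F' (2/5) = ax 1 = F' (ax 1)`); near `flat 1` it is `(s, x) ↦ (s, pc 1 + lam (x - pc 1))` (`F' = id` on `ball (ax 1) δ'`), so `F'_l '' flat 1 = D := {(1/2, x) | nsq (x - pc 1) ≤ lam²/25}`; on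
`sph 0` it is `F' = F` (`near`).
Claim: for `a ∈ [1/5, 4/5]`: `H (t, b a) ∈ D` only if `b a = 2/5` or `b a = 1 - lam/5`, that is `a = 2/5` or `a = 4/5`: in the region `b a ≤ 1 - δ₂`, `|b a - 2/5| ≥ δ₂` the distance to `ax 1` is `≥ μ > lam`; for `|b a - 2/5| < δ₂`
use `mid`: `s = 1/2` only for `b a = 2/5`; for `b a ≥ 1 - δ₂`: `H = ax (b a)`, in `D` iff `1 - b a ≤ lam/5`, and `1 - b a ≥ lam/5`.
So the arcs do not meet `F'_l '' sph 1 ⊆ D` for `a ∈ (1/5, 4/5)` (at `a = 2/5` the point is `ax 1 = F'_l (ax 1)`, not on the cuff).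
`GenData F'_l c₀ c₁ (1/50) H_l`: `core`: `F'_l (ax a) = F' (ax (b a)) = c₀ a`.  `inj₁`, `imm₀`, `imm₁`, `arcs.inj`, `arcs.imm`: `inj`, `imm` of `ArcsL`, `b` is injective, `b' > 0`.  `arcs.frozen`: for `a ≤ 11/50`, `b a = a ≤ 2/5 - 3r/4` (`r < 1/100`): `low`;
for `a ≥ 39/50`: `b a ≥ b (39/50) = 1 - 11/50 lam ≥ 1 - δ₂` (`b` is increasing): `high`.  `arcs.start`, `stop`: `left`, `right`.  Crossings with the cuffs are crossings with `F '' sph 0`: `late`, `finite`, `single`, `trans`, `avoid` of `ArcsL` and the chain rule for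
`(t, a) ↦ (t, b a)`; `fun y => F'_l (cst false y) = fun y => F (cst false y)`, `F'_l (crv false θ) = F (crv false θ)`; for the index `true` there are no crossings (`cst true y`, `crv true θ ∈ sph 1`).  `arcs.active`: `a > 11/50` as `b a > 2/5`, and `a < 39/50`
because for `a ≥ 39/50` the point is `ax (b a)` at distance `≤ δ₂ < r` from `ax 1`, `F '' sph 0` is outside (`far`). -/
def StFML1 : Prop :=
  ∀ (F F' : R4 → R4) (d δ δ' r δ₂ : ℝ) (H : ℝ × ℝ → R4), (d = 1 ∨ d = -1) →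
    LasPair F F' d δ δ' r → δ₂ < δ → δ₂ < δ' → ArcsL F F' d r δ₂ H →
    ∃ lam : ℝ, 0 < lam ∧ lam ≤ 1 / 2 ∧ lam < δ ∧ lam < δ' ∧ lam < δ₂ ∧
      GenData (fun p => F' (clc 1 lam p)) (fun a => H (0, bb lam a)) (fun a => H (1, bb lam a))
        (1 / 50) (fun z => H (z.1, bb lam z.2)) ∧
      (∀ t, ∀ a ∈ Icc (1 / 5 : ℝ) (4 / 5),
        H (t, bb lam a) ∈ (fun p => F' (clc 1 lam p)) '' flat 1 → a = 4 / 5 ∨ a = 2 / 5) ∧
      ∀ t, ∀ a ∈ Ioo (1 / 5 : ℝ) (4 / 5),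
        H (t, bb lam a) ∈ (fun p => F' (clc 1 lam p)) '' (sph 0 ∪ sph 1) →
        2 / 5 < a ∧ H (t, bb lam a) ∈ (fun p => F' (clc 1 lam p)) '' sph 0

/-- **FML** (the family of germs) (uses `StFML1`, `StCL`, `StCTR`, `StFr`, `Pool.Agent.Helper34.BI.StCH`; the file
`Pool/Agent/Helper34/BI/BF.lean`).
*Proof.* `StFML1`: `lam`.  `F_l p = F (clc 1 lam p)`, `F'_l` same; by `StCTR` (`γ = 2/5`) both are `EmbOn SP`, `Eqv F F_l`, `Eqv F' F'_l`; near `flat 1` both are `(s, x) ↦ (s, pc 1 + lam (x - pc 1))`, near `sph 0` both are `F`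
(`clc 1 lam = id` there, and `near`).  `H_l (t, a) = H (t, bb lam a)`, `c₀ a = H (0, bb lam a)`, `J = barFam F'_l c₀ H_l (1/50)`.
`smooth`, `loc` on `SP`: `BarData.eventually_smooth`, `isLocalDiffeomorphAt` (`GenData.bar`, `GenData.imm`); near `flat 1`: `J (t, ·) = F'_l` (`barFam_eq`, `p.2.1 ≥ 4/5 - 1/100`), `const`.  `finite`: `(GenData.bfam ..).finite`.
`cross`: `GenData.exists_crossing`, the last claim of `StFML1`, `GenData.preCross_zero`.  `injF`: `J (t, ·) = F'_l` on `flat 1 ∪ sph 0`; `F'_l` is injective there: `clc 1 lam` is injective and maps it into `flat 1 ∪ sph 0`.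
`only`: `core (J (t, ·)) a = H_l (t, a)` (`barFam_neck`).  `cr`: `x₀ = pc 1`, `l = d`, `v = 0`: `fderiv (J (t, ·)) (ax (2/5)) (0, (1, 0))` is the derivative at `2/5` of
`a ↦ H (t, bb lam a) = (1/2 + d (a - 2/5), pc 1)` (`bb lam a = a` near `2/5`), and `J (t, ·) = (s, pc 1 + lam (x - pc 1))` near `ax 1`; `d d = 1`.
`J (0, ·)` is `EmbOn SP` (`BarData.embOn`, `GenData.imm`, `injF`, `injH`, `dis₀`), and agrees with `F'_l` near the cuffs (`barFam_eq`) and on the neck: `StFr` gives `Eqv F'_l (J (0, ·))`.  `J (1, ·)` is `EmbOn SP` (`dis₁`), agrees near the cuffs with `F'_l`, so with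
`F_l`, and on the neck: `H (1, bb lam a) = F (ax (bb lam a)) = F_l (ax a)` (`ArcsL.stop`): `StFr`. -/
def StFML : Prop :=
  ∀ (F F' : R4 → R4) (d δ δ' r δ₂ : ℝ) (H : ℝ × ℝ → R4), (d = 1 ∨ d = -1) →
    LasPair F F' d δ δ' r → δ₂ < δ → δ₂ < δ' → ArcsL F F' d r δ₂ H →
    ∃ J : ℝ × R4 → R4, BFam1 J d ∧ EmbOn I4 (fun p => J (0, p)) SP ∧
      EmbOn I4 (fun p => J (1, p)) SP ∧ Eqv F' (fun p => J (0, p)) ∧ Eqv F (fun p => J (1, p))

/-! ## the class `W` and equality of classes up to `W` -/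

/-- `W` represents the class of all theta germs, and `W²` is trivial. -/
structure IsW (W : R4 → R4) : Prop where
  rep : ∃ (F₀ : R4 → R4) (α₀ β₀ : ℝ), Theta F₀ α₀ β₀ 1 1 ∧ Thin I4 F₀ W
  sq : CIsot I4 (fun x => W (W x)) (fun x => x)
  all : ∀ (F : R4 → R4) (α β e d : ℝ), (e = 1 ∨ e = -1) → (d = 1 ∨ d = -1) → Theta F α β e d →
    Thin I4 F W

/-- the classes of `F` and `G` are equal up to `W` -/
def MW (W F G : R4 → R4) : Prop :=
  ∀ φ ψ : R4 → R4, Thin I4 F φ → Thin I4 G ψ → CIsot I4 ψ φ ∨ CIsot I4 ψ (fun x => W (φ x))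

theorem exists_isW (h : StW) : ∃ W, IsW W := by
  obtain ⟨W, F₀, α₀, β₀, h1, h2, h3, h4⟩ := h
  exact ⟨W, ⟨F₀, α₀, β₀, h1, h2⟩, h3, h4⟩

/-- **MWL.** Properties of the relation `MW`, and `W` is central (uses `StT2`, `StCI`, `StR2sw`; compare
`Pool/Agent/Helper34/BI/M_MRL.lean`).
*Proof.* Centrality (first claim): `CIsot φ φ` says that `φ` is a diffeomorphism (with smooth inverse `φ'`, `StCI`) and compactly supported.  For the theta germ `F₀` of `IsW.rep` the germ `φ ∘ F₀` is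
again `Theta φ∘F₀ α₀ β₀ 1 1` (composition with a diffeomorphism: local diffeomorphisms, injectivity, images, chain rule for the derivatives in `CrossAt`), so `Thin (φ ∘ F₀) W` (`IsW.all`), and `Thin (φ ∘ F₀) (φ ∘ W ∘ φ')` (`StT2` (vi)); by
uniqueness (`StT2` (ii)) `CIsot W (φ ∘ W ∘ φ')`; compose with `CIsot φ φ`.  (`CIsot W W` by `StT2` (vii).)
Reflexive: uniqueness.  Symmetric: `CIsot ψ (W ∘ φ)` gives `CIsot (W ∘ ψ) (W ∘ W ∘ φ)`, and `CIsot (W ∘ W ∘ φ) φ`.  Transitive (`G` has a representative): `W^a`, `W^b`, `W²` trivial.  Families: `StT2` (iii).  Swap: `φ`, `ψ` with inverses `φ'`, `ψ'`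
(`StCI`), `Thin (F ∘ swp) φ'`, `Thin (G ∘ swp) ψ'` (`StR2sw`); if `CIsot ψ' (W ∘ φ')`, take inverses: `CIsot ψ (φ ∘ W')`, `W'` the inverse of `W`, `CIsot W' W`, centrality.  Last: trivial. -/
def StMWL : Prop :=
  ∀ W : R4 → R4, IsW W →
    (∀ φ, CIsot I4 φ φ → CIsot I4 (fun x => W (φ x)) (fun x => φ (W x))) ∧
    (∀ F, MW W F F) ∧ (∀ F G, MW W F G → MW W G F) ∧
    (∀ F G H, EmbOn I4 G SP → MW W F G → MW W G H → MW W F H) ∧
    (∀ (J : ℝ × R4 → R4) (t₁ t₂ : ℝ), t₁ ≤ t₂ →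
      (∀ t ∈ Icc t₁ t₂, ∀ p ∈ SP, ∀ᶠ q in 𝓝 (t, p), ContDiffAt ℝ ∞ J q) →
      (∀ t ∈ Icc t₁ t₂, EmbOn I4 (fun p => J (t, p)) SP) →
      MW W (fun p => J (t₁, p)) (fun p => J (t₂, p))) ∧
    (∀ F G, EmbOn I4 F SP → EmbOn I4 G SP →
      MW W (fun p => F (swp p)) (fun p => G (swp p)) → MW W F G) ∧
    ∀ F F' G, Eqv F F' → MW W F G → MW W F' G

/-- **LGG.** From local to global in time, for a general relation.
*Proof.* The proof of `StLG` in `Pool/Agent/Helper34/BI/M_LG.lean`, with the relation `Q` in place of `MR` and the hypothesis `hX` in place of the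
two cases of the crossing lemma. -/
def StLGG : Prop :=
  ∀ (Q : (R4 → R4) → (R4 → R4) → Prop) (J : ℝ × R4 → R4), (∀ F, Q F F) →
    (∀ F G, Q F G → Q G F) → (∀ F G H, EmbOn I4 G SP → Q F G → Q G H → Q F H) →
    (∀ t₁ t₂ : ℝ, t₁ ≤ t₂ →
      (∀ t ∈ Icc t₁ t₂, ∀ p ∈ SP, ∀ᶠ q in 𝓝 (t, p), ContDiffAt ℝ ∞ J q) →
      (∀ t ∈ Icc t₁ t₂, EmbOn I4 (fun p => J (t, p)) SP) →
      Q (fun p => J (t₁, p)) (fun p => J (t₂, p))) →
    (∀ t, ∀ p ∈ SP, ∀ᶠ q in 𝓝 (t, p), ContDiffAt ℝ ∞ J q) →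
    (∀ t, ∀ p ∈ SP, LD (fun p => J (t, p)) p) → {t | ¬ InjOn (fun p => J (t, p)) SP}.Finite →
    (∀ t, ¬ InjOn (fun p => J (t, p)) SP → ∀ ε > 0, ∃ t₁ ∈ Ioo (t - ε) t, ∃ t₂ ∈ Ioo t (t + ε),
      EmbOn I4 (fun p => J (t₁, p)) SP ∧ EmbOn I4 (fun p => J (t₂, p)) SP ∧
      Q (fun p => J (t₁, p)) (fun p => J (t₂, p))) →
    EmbOn I4 (fun p => J (0, p)) SP → EmbOn I4 (fun p => J (1, p)) SP →
    Q (fun p => J (0, p)) (fun p => J (1, p))

/-- **TH** (the obstruction germ is a theta germ) (uses `StCRP`, `StMWL`).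
*Proof.* `StCRP` for `J`, `t₀`, `u₀`, `p₀` (`BFam1.cross`), `C = J (t₀, ·) '' flat 1` (compact; disjoint from `J (t₀, ·) '' sph 0` by `injF`) and `ε' = min ε (u₀ - 2/5)`: `t₁, t₂, t', t''`, `O`, `α`, `e`; `α > 2/5`.  `Theta O α (2/5) e d`:
`a` is given.  `b`: `loc`: on `SP` from `a`; near `flat 1`, `O = J (t', ·)`.  `injF`: `O = J (t', ·)` on `flat 1`, `O '' flat 1 = C` (`const`), `O '' sph 0 ⊆ O '' flat 0` is disjoint from `C`, `O` is injective on `sph 0` and `J (t', ·)` on `flat 1`.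
`cr`: `CrossAt (J (t', ·)) 1 (2/5) d` gives `x₀, l, v`; `fderiv O (ax (2/5)) (0, (1, 0))` is the derivative of `core O` at `2/5`, which is the one of `core (J (t', ·))` (equal near `2/5`); `O = J (t', ·)` near `(1/2, x₀)` (`a`-coordinate
`> 4/5`).  `only`: `core O = core (J (t', ·))`, `O '' flat 1 = J (t', ·) '' flat 1`.  `dis`: `O '' flat 1 = C`.  `ord`: `2/5 < α`.  So `Thin O W`, and with `n = W` in `StCRP`: `CIsot φ' (W ∘ φ'')`, i.e.
`MW (J (t'', ·)) (J (t', ·))`; use the symmetry of `MW` to order the times. -/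
def StTH : Prop :=
  ∀ (W : R4 → R4) (J : ℝ × R4 → R4) (d t₀ ε : ℝ), IsW W → (d = 1 ∨ d = -1) → BFam1 J d →
    ¬ InjOn (fun p => J (t₀, p)) SP → 0 < ε →
    ∃ t₁ ∈ Ioo (t₀ - ε) t₀, ∃ t₂ ∈ Ioo t₀ (t₀ + ε), EmbOn I4 (fun p => J (t₁, p)) SP ∧
      EmbOn I4 (fun p => J (t₂, p)) SP ∧ MW W (fun p => J (t₁, p)) (fun p => J (t₂, p))

/-- **OBP** (uses `StLAS`, `StXC`, `StARL`, `StFML`, `StTH`, `StLGG`, `StMWL`, `StNF1`, `StRM`, `StRG`, `StNF2`).
A germ with positive orientation whose second cuff bounds a flat ball met once by the bar has class `1` or `W`.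
*Proof.* `StNF1` (`c = 1`, `γ`, `U = univ`): `F₂`, `Strand 1 F₂ γ e` with `τ`; `StRM` (1) with `a₀ = 1/5`, `b₀ = 4/5`, `x = 2/5`, `y = γ`, `μ a = τ (1/2 + e (a - 2/5))` gives `m` with `RepOK m`, and `StNF2`, `StRG` give
`F₁ = F₂ ∘ repm m` with `NB 1 F₁ (2/5) e δ`, `Eqv F F₁`.  `StLAS` for `F₁` (`r₁ = 1`): `F'`, `LasPair F₁ F' e δ δ' r`.  `StXC`, `StARL`, `StFML`: `J`.  `StLGG` for `Q = MW W` (`StMWL`, `StTH`): `MW W (J (0, ·)) (J (1, ·))`, so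
`MW W F' F₁` (`Eqv F' (J (0, ·))`, `Eqv F₁ (J (1, ·))`, symmetry).  `Thin F₁ φ`, `Thin F' id`: `CIsot φ id` or `CIsot φ W`. -/
def StOBP : Prop :=
  ∀ (W F : R4 → R4) (γ e : ℝ), IsW W → (e = 1 ∨ e = -1) → Br 1 F γ e →
    0 < (fderiv ℝ F (ax (4 / 5))).det →
    ∀ φ : R4 → R4, Thin I4 F φ → CIsot I4 φ (fun x => x) ∨ CIsot I4 φ W

/-- **OB1** (uses `StOBP`, `StRefH`, `StT2`, `StCI`).  The same without the condition on the orientation.
*Proof.* The determinant at `ax (4/5)` is not zero (`ld_iff`).  If it is negative: `F ∘ refh` satisfies `Br 1 (F ∘ refh) γ e` (as in `M_SYM.lean`: `refh` is a linear involution which preserves `flat 1`, `sph 0`, fixes the axis,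
`x₀' = conj x₀`), with positive determinant at `ax (4/5)`, and `Thin F φ` gives `Thin (F ∘ refh) φ'` for
the inverse `φ'` of `φ` (`StRefH`; `φ'` exists by `StT2` (vii), `StCI`).  By `StOBP`, `CIsot φ' id` or `CIsot φ' W`; take inverses (`StCI`): `CIsot φ id` or `CIsot φ W'` with `W'` the inverse of `W`, and `CIsot W' W` because `W²` is trivial. -/
def StOB1 : Prop :=
  ∀ (W F : R4 → R4) (γ e : ℝ), IsW W → (e = 1 ∨ e = -1) → Br 1 F γ e →
    ∀ φ : R4 → R4, Thin I4 F φ → CIsot I4 φ (fun x => x) ∨ CIsot I4 φ W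

/-- **OB0** (uses `StOB1`, `StR2sw`, `StT2`, `StCI`).  The same for the first cuff.
*Proof.* `F ∘ swp` satisfies `Br 1 (F ∘ swp) (1 - γ) (-e)` (compare `StSYM`), and has the inverse class (`StR2sw`); `W` is its own inverse up to isotopy. -/
def StOB0 : Prop :=
  ∀ (W F : R4 → R4) (γ e : ℝ), IsW W → (e = 1 ∨ e = -1) → Br 0 F γ e →
    ∀ φ : R4 → R4, Thin I4 F φ → CIsot I4 φ (fun x => x) ∨ CIsot I4 φ W

/-- **MAIN (stage 2), for `R4`** (uses `StOB0`, `StCRP`, `StMWL`, `StLGG`, `StCH`, `StCO`, `StFr`; compare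
`Pool/Agent/Helper34/BI/Main.lean`).  Two germs along the spine which agree near the two cuffs have the same implantation class up to `W`.
*Proof.* As `stMain_of` in `Main.lean`, which constructs a family `J` with `BFam J`, `J (0, ·) = F`, `EmbOn (J (1, ·)) SP` and (by `StFr`) `Eqv (J (1, ·)) F'`.  Instead of `StLG` use `StLGG` with `Q = MW W`; at an exceptional time
`StCRP` (with `C = ∅`) for `J`, or for the swapped family and `StMWL` (swap), gives `O` with `Br 0 O α e`, whose class is `1` or `W` by `StOB0`, so `CIsot φ' φ''` or `CIsot φ' (W ∘ φ'')`. -/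
def StMain2 : Prop :=
  ∀ (W F F' φ φ' : R4 → R4) (U : Set R4), IsW W → EmbOn I4 F SP → EmbOn I4 F' SP →
    IsOpen U → sph 0 ∪ sph 1 ⊆ U → EqOn F F' U → Thin I4 F φ → Thin I4 F' φ' →
    CIsot I4 φ' φ ∨ CIsot I4 φ' (fun x => W (φ x))

end Pool.Agent.Helper70.BI


end

/-! ## Helper27.BI.H.StH1 -/

section

/-!
# Project BI, stage 3 (H), section 1: chains, thick arcs, framings, classes of loops

Statements (as `Prop` definitions) with complete proofs in the docstrings.  A module `M_X` proves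
`theorem m_X : StX` (possibly from other statements as hypotheses `(h : StY)`).
-/

set_option autoImplicit false

open scoped Manifold ContDiff Topology ComplexConjugate
open Set Filter Pool.Agent.Helper65.Barb Pool.Agent.Helper18.BI
open Pool.Agent.Helper70.BI (I4 LD Eqv NearEq StPT)
open Pool.Agent.Helper34.BI (qmul qinv)

namespace Pool.Agent.Helper27.H

/-- MODULE PTJ (perturbation of the identity with parameters).
*Proof.* As `StPT` (`Pool/Agent/Helper70/BI/M_PT.lean`), with an open set `O` of parameters: for fixed `e ∈ O` the map `x ↦ x + g (e, x)` is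
a homeomorphism of `E` (`ApproximatesLinearOn` the identity on `univ` with constant `3/4 < 1`).
`(e, x) ↦ (e, x + g (e, x))` is smooth and bijective on `O ×ˢ univ`, its derivative is injective at every point
(`‖fderiv (g (e, ·))‖ ≤ 3/4`), so its inverse is smooth by the inverse function theorem. -/
def StPTJ : Prop :=
  ∀ (E' : Type) [NormedAddCommGroup E'] [NormedSpace ℝ E'] [FiniteDimensional ℝ E']
    (E : Type) [NormedAddCommGroup E] [NormedSpace ℝ E] [FiniteDimensional ℝ E]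
    (O : Set E') (g : E' × E → E), IsOpen O → ContDiffOn ℝ ∞ g (O ×ˢ univ) →
    (∀ e ∈ O, ∀ x y, ‖g (e, x) - g (e, y)‖ ≤ 3 / 4 * ‖x - y‖) →
    ∃ f' : E' × E → E, ContDiffOn ℝ ∞ f' (O ×ˢ univ) ∧
      ∀ e ∈ O, ∀ x, f' (e, x) + g (e, f' (e, x)) = x ∧ f' (e, x + g (e, x)) = x

/-- MODULE CH4 (chains of displacements for families of germs).  For a smooth family `J a`, `a` in a compact
convex set `Q` of parameters, of germs of embeddings along a compact set `L`, constant on the open set `V` and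
with values in the open set `U` on `L \ V`, there are diffeomorphisms `P a b` of `R4` (with inverses `P' a b`), depending
smoothly on `a, b` in a neighbourhood of `Q`, with `P a a = 1`, supported in a fixed compact subset of `U`, with
`P a b ∘ J a = J b` on a fixed neighbourhood of `L`.

Proof (uses `StPTJ`, and `StA1`, `StA0` (`hA1`, `hA0` of `Helper18/BI/AsmA.lean`, or `Pool.Agent.Helper70.BI.embOn_iff`)).
(0) `Ĵ (a, p) = (a, J a p)` on `(ℝ × ℝ) × R4` is smooth near `Q × L`; its derivative at `(a, p) ∈ Q × L` is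
`(α, v) ↦ (α, .. + D(J a)(p) v)`, injective; `Ĵ` is injective on `Q × L`.  `StA1` (with `V = M = (ℝ × ℝ) × R4`)
gives a partial diffeomorphism `δ` with `Q ×ˢ L ⊆ δ.source` and `δ = Ĵ` on `δ.source`.
The set `{(a, p) | (a, p) ∈ δ.source, Ĵ smooth near (a, p), J a p ∈ U or p ∈ V}` is a neighbourhood of `Q × L` (on `Q ×ˢ L` the map
`Ĵ` is continuous), so by the generalized tube lemma it contains `A₁ × N₁` for compact neighbourhoods `A₁` of `Q` and `N₁` of `L`.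
Let `χ : R4 → ℝ` be smooth with values in `[0,1]`, `χ = 1` on an open `N ⊇ L`, with compact support (`tsupport`) in the
interior of `N₁` (`exists_contMDiff..`/`exists_smooth_one_nhds_of_subset_interior` or
`exists_contDiff_tsupport_subset` + compactness).
(1) The displacement: `D a b y = χ p • (J b p - J a p)` if `(a, y) ∈ δ.target` and `p = (δ.symm (a, y)).2`, and `0` otherwise.  It is
smooth on `int A₁ × int A₁ × R4`: the set `C = δ '' (A₁ ×ˢ tsupport χ)` is compact, hence closed; if `(a, y) ∉ C` then `D a' b' y' = 0` for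
`(a', y')` near `(a, y)` (`a' ∈ A₁`); if `(a, y) ∈ C ⊆ δ.target` the formula holds nearby and `J b' p'` is smooth (`p' ∈ N₁`).
`D a a y = 0`; `D a b y = 0` unless `y = J a p` with `p ∈ tsupport χ`; for `a, b ∈ Q`, `D a b y = 0` unless moreover `p ∉ V`; so for
`a, b ∈ Q` the support is in the compact set `K = (fun z => J z.1 z.2) '' (Q ×ˢ (tsupport χ \ V)) ⊆ U`.
(2) `∃ η > 0`, for `a, b ∈ Q` with `‖a - b‖ ≤ η` the derivative of `D a b` in `y` has norm `≤ 1/2`: it is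
continuous in `(a, b, y)`, zero for `a = b` and zero for `y ∉ K'`, `K'` compact (`K' =` image of
`A₁ ×ˢ tsupport χ`, for all `a ∈ A₁`); uniform continuity on the compact `Q × Q × K'`.  By compactness (of `{(a, b) ∈ Q × Q | ‖a - b‖ ≤ η} × K'`, tube lemma) there is an
open `O₂ ⊆ int A₁ × int A₁`, containing `{(a, b) ∈ Q × Q | ‖a - b‖ ≤ η}`, on which the norm is `≤ 3/4`; so `D a b` is `3/4`-Lipschitz for `(a, b) ∈ O₂`.
(3) Choose `n ≥ 1` with `diam Q / n ≤ η`, `c k = a + (k/n) • (b - a)` (in `Q` for `a, b ∈ Q`),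
`O = {(a, b) | ∀ k < n, (c k, c (k+1)) ∈ O₂}` (open, contains `Q ×ˢ Q`), and
`P a b = S (c (n-1)) (c n) ∘ ⋯ ∘ S (c 0) (c 1)`, `S a b y = y + D a b y`, whose inverse is smooth in all variables by `StPTJ`; induction on the number of
factors; compare `Pool/Agent/Helper27/BI/M_CH.lean` (same argument).  For `p ∈ N`: `S a b (J a p) = J b p` (`χ p = 1`, `(a, p) ∈ δ.source`). -/
def StCH4J : Prop :=
  ∀ (Q : Set (ℝ × ℝ)) (L V U : Set R4) (J : ℝ × ℝ → R4 → R4), IsCompact Q → Convex ℝ Q →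
    IsCompact L → IsOpen V → IsOpen U → Fam2 Q L V U J →
    ∃ (P P' : ℝ × ℝ → ℝ × ℝ → R4 → R4) (O : Set ((ℝ × ℝ) × (ℝ × ℝ))), IsOpen O ∧ Q ×ˢ Q ⊆ O ∧
      ContDiffOn ℝ ∞ (fun z : ((ℝ × ℝ) × (ℝ × ℝ)) × R4 => P z.1.1 z.1.2 z.2) (O ×ˢ univ) ∧
      ContDiffOn ℝ ∞ (fun z : ((ℝ × ℝ) × (ℝ × ℝ)) × R4 => P' z.1.1 z.1.2 z.2) (O ×ˢ univ) ∧
      (∀ a b, (a, b) ∈ O → ∀ x, P a b (P' a b x) = x ∧ P' a b (P a b x) = x) ∧
      (∀ a ∈ Q, ∀ x, P a a x = x) ∧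
      ∃ N : Set R4, IsOpen N ∧ L ⊆ N ∧ ∃ K : Set R4, IsCompact K ∧ K ⊆ U ∧
        ∀ a ∈ Q, ∀ b ∈ Q, (∀ x, x ∉ K → P a b x = x) ∧ ∀ p ∈ N, P a b (J a p) = J b p

/-- Chains along smooth paths of parameters (a corollary of `StCH4J`, see `ch4_of_joint` in `Calc.lean`). -/
def StCH4 : Prop :=
  ∀ (Q : Set (ℝ × ℝ)) (L V U : Set R4) (J : ℝ × ℝ → R4 → R4), IsCompact Q → Convex ℝ Q →
    IsCompact L → IsOpen V → IsOpen U → Fam2 Q L V U J →
    ∃ P : ℝ × ℝ → ℝ × ℝ → R4 → R4, (∀ a ∈ Q, ∀ x, P a a x = x) ∧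
      ∃ N : Set R4, IsOpen N ∧ L ⊆ N ∧ ∃ K : Set R4, IsCompact K ∧ K ⊆ U ∧
      ∀ a b : ℝ → ℝ × ℝ, ContDiff ℝ ∞ a → ContDiff ℝ ∞ b → (∀ t, a t ∈ Q) → (∀ t, b t ∈ Q) →
        ∃ F : DFam 𝓘(ℝ, R4) R4, (∀ t x, F.f (t, x) = P (a t) (b t) x) ∧
          (∀ t x, x ∉ K → F.f (t, x) = x) ∧ ∀ t, ∀ p ∈ N, F.f (t, J (a t) p) = J (b t) p

/-- PI2 (helper18): `π₂` of the group of linear maps of three-space with positive determinant
is trivial, relative form. -/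
def StPI2 : Prop :=
  ∀ M : ℝ × ℝ → (R3 →L[ℝ] R3), ContDiff ℝ ∞ M → (∀ x, 0 < (M x).det) →
    (∀ x, x ∉ Q2 → M x = ContinuousLinearMap.id ℝ R3) →
    ∃ H : ℝ × ℝ × ℝ → (R3 →L[ℝ] R3), ContDiff ℝ ∞ H ∧ (∀ z, 0 < (H z).det) ∧
      (∀ x, H (0, x) = M x) ∧ (∀ x, H (1, x) = ContinuousLinearMap.id ℝ R3) ∧
      ∀ t x, x ∉ Q2 → H (t, x) = ContinuousLinearMap.id ℝ R3

/-- MODULE FRAME (framings do not matter).  Two paths of thick arcs with the same cores, with the same germs at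
both ends of the path and on the frozen part, have isotopic pushes.

Proof (uses `StCH4`, `StPI2`, and the calculus of `Calc.lean`: `LPush.exists`, `square4`, `LPush.reparam`, `LIso.trans`).
Write `L = D.L`.  (a) Reparametrize: let `ϑ q = step (3 q - 1)` (`0` for `q ≤ 1/3`, `1` for `q ≥ 2/3`).  The push along `q ↦ J (ϑ q)` is
isotopic to the one along `J` (square `J ((1-u) q + u ϑ q)`, left and right edges constant).  So assume that `J q`, `J' q` are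
constant for `q ≤ 1/3` and for `q ≥ 2/3` (as germs; `J 0`, `J' 0` agree near `L`, `J 1`, `J' 1` agree near `L`).
(b) Near `L`, `R q = (J q)⁻¹ ∘ J' q` is a smooth family of germs (inverse of the local diffeomorphism
`(q, p) ↦ (q, J q p)`, `StA1` on the compact `[0,1] × L`; `J' q p` is in its target for `p` near `L` because
`J' q p = J q p` for `p ∈ L`).  `R q p = p` for `p ∈ L`, and for `p` near the ends of `L` (in `V`); `R q = id` near `L` for `q ≤ 1/3`,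
`q ≥ 2/3`.  Its derivative at `(s, 0)`, `s ∈ [s₀, s₁]`, maps `(1, 0)` to `(1, 0)`: it is `(σ, v) ↦ (σ + l(q,s) v, M(q,s) v)` with `M(q,s) : R3 →L R3`
invertible; `M = 1`, `l = 0` for `q ≤ 1/3`, `q ≥ 2/3` and for `s` near `s₀`, `s₁`; smooth; `det M > 0` (connectedness of `[0,1] × [s₀,s₁]`).  Extend
`M`, `l` by `1`, `0` outside `[0,1] × [s₀,s₁]`: smooth on `ℝ × ℝ`.
(c) First homotopy: `T τ q (s, y) = (1-τ) • (s + l(q,s) y, M(q,s) y) + τ • R q (s, y)`, `τ ∈ [0,1]`: fixes `L` pointwise, its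
derivative on `L` is the one of `R q`, so `J q ∘ T τ q` is a family of germs (`Fam2 Q2 D.L V' D.U` in the parameters `(τ, q)`,
with `V'` a smaller open neighbourhood of the frozen part on which `R q = id` and `M = 1`, `l = 0`: for the points of `L` near the ends).
The edges `q = 0`, `q = 1` are constant near `L`.  `square4`: the push along `J'` (`τ = 1`) is isotopic to the one along
`q ↦ J q ∘ T 0 q`.
(d) Second homotopy: `T' τ q (s, y) = (s + (1-τ) l(q,s) y, H(τ, q, s) y)`, `H` from `StPI2` (rescale `s` to `[0,1]`): derivative on `L`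
block triangular with positive determinant.  At `τ = 0` it is the linear germ of (c), at `τ = 1` the identity.  `square4` again.
The frozen condition: all germs in the families agree with `J 0` on an open set containing the two ends of `L`;
this is all that is needed (`Fam2` with this smaller `V'`; on `L \ V'` the values are the cores, which are in `U`: the values on
`L ∩ Ioo` are `J q (s, 0)`; for `(s, 0) ∉ V` by hypothesis, for `(s, 0) ∈ V` they are `J 0 (s, 0)`, which must be in `U` for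
`s ∈ (s₀, s₁)`: this is the hypothesis `hmem`). -/
def StFRAME : Prop :=
  ∀ (D : ArcD) (V : Set R4) (J J' : ℝ → R4 → R4) (Θ Θ' : R4 → R4), IsOpen V →
    ((D.s₀, 0) : R4) ∈ V → ((D.s₁, 0) : R4) ∈ V →
    Fam2 Q2 D.L V D.U (fun a => J a.2) → Fam2 Q2 D.L V D.U (fun a => J' a.2) →
    (∀ q ∈ Icc (0 : ℝ) 1, ∀ s ∈ Icc D.s₀ D.s₁, J q (s, 0) = J' q (s, 0)) →
    (∀ p ∈ V, J 0 p = J' 0 p) → (∀ s ∈ Ioo D.s₀ D.s₁, J 0 (s, 0) ∈ D.U) →
    NearEq (J 0) (J' 0) D.L → NearEq (J 1) (J' 1) D.L →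
    LPush D.U D.L J Θ → LPush D.U D.L J' Θ' → LIso D.U D.L (J 0) (J 1) Θ Θ'

/-- The canonical thickening of an arc with core `x` close to the base germ `G` with core `c` (`x` and `c` and
their derivatives `x'`, `c'` are functions of `s`): the normal frame of `G` is transported by the quaternion
`x' (c')⁻¹`. -/
noncomputable def thk (G : R4 → R4) (c x : ℝ → R4) (p : R4) : R4 :=
  G p + (x p.1 - c p.1) +
    qmul (deriv x p.1 - deriv c p.1) (qmul (qinv (deriv c p.1)) (fderiv ℝ G (p.1, 0) (0, p.2)))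

/-- MODULE THK (existence of thick families with given cores).  Let `G` be a germ of an embedding along
`L = seg s₀ s₁` with core `c` (`c` smooth on `ℝ`, `G (s, 0) = c s` for `s ∈ [s₀, s₁]`).  For a smooth family of arcs `x (a, s)`,
`a ∈ ℝ × ℝ`, embedded for `a ∈ Q`, equal to `c` for `s ∉ (m₀, m₁)`, with values in `U` for `s ∈ [m₀, m₁]`, the
thickenings `thk G c (x a)` form a family of germs, with cores `x a`, equal to `G` wherever `x a = c` near `p.1`, and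
frozen on `{p | p.1 < m₀ ∨ m₁ < p.1}`.

Proof.  (Compare `Pool/Agent/Helper34/BI/Thick.lean`, `contDiffAt_thick`, `fderiv_thick`.)  `deriv c s ≠ 0` on
`[s₀, s₁]` (for `s ∈ (s₀, s₁)` it is `DG(s,0)(1,0)`, `DG` is injective; at the ends by continuity of both sides: `deriv c s = DG(s,0)(1,0)`).
Smoothness: all functions are smooth near `Q × L` (`contDiffAt_qinv`).  Derivative at `(s, 0)`, `s ∈ [s₀, s₁]`, in the direction
`(σ, v)`: `DG(σ, v) + σ (x' - c') + qmul (x' - c') (qmul (qinv c') (DG (0, v)))`, and as `DG (1, 0) = c'`, `qmul (qinv c') c' = 1`,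
`x' - c' = qmul (x' - c') (qmul (qinv c') (DG (1, 0)))`; so it is `DG + qmul (x' - c') ∘ qmul (qinv c') ∘ DG = qmul x' ∘ qmul (qinv c') ∘ DG`
(`qmul_qinv_qmul`), injective since `x' ≠ 0`.  (The derivative of the second factor `qmul (qinv (deriv c p.1)) (fderiv ℝ G (p.1, 0) (0, p.2))`
with respect to `p.1` vanishes at `p.2 = 0`.)  Injective on `L`: the values are the cores. -/
def StTHK : Prop :=
  ∀ (Q : Set (ℝ × ℝ)) (s₀ m₀ m₁ s₁ : ℝ) (U : Set R4) (G : R4 → R4) (c : ℝ → R4)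
    (x : ℝ × ℝ → ℝ → R4), s₀ < m₀ → m₀ < m₁ → m₁ < s₁ → IsOpen U → EmbOn I4 G (seg s₀ s₁) →
    ContDiff ℝ ∞ c → (∀ s ∈ Icc s₀ s₁, G (s, 0) = c s) →
    ContDiff ℝ ∞ (fun z : (ℝ × ℝ) × ℝ => x z.1 z.2) →
    (∀ a ∈ Q, ∀ s, (s ≤ m₀ ∨ m₁ ≤ s) → x a s = c s) →
    (∀ a ∈ Q, ∀ s ∈ Icc m₀ m₁, x a s ∈ U) → (∀ a ∈ Q, InjOn (x a) (Icc s₀ s₁)) →
    (∀ a ∈ Q, ∀ s ∈ Icc s₀ s₁, deriv (x a) s ≠ 0) →
    Fam2 Q (seg s₀ s₁) {p | p.1 < m₀ ∨ m₁ < p.1} U (fun a => thk G c (x a)) ∧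
    (∀ a, ∀ s ∈ Icc s₀ s₁, thk G c (x a) (s, 0) = x a s) ∧
    (∀ a p, x a =ᶠ[𝓝 p.1] c → thk G c (x a) p = G p) ∧
    ∀ a b p, x a =ᶠ[𝓝 p.1] x b → thk G c (x a) p = thk G c (x b) p

/-- MODULE PHI (the homomorphism `Phi`).  Proof: `StPush` (`hPush`), `StImp` (`hImp`), `StCI` (`hCI`) of
`Helper18/BI/AsmA.lean`; `D.emb`, `D.embe`, `D.openU`; `D.A` is compact.
(1) If `F` is the family of `LIso`, with support in the compact `K₁ ⊆ U` and `F.f (t, D.J p) = D.J p` for `p ∈ N`: `D.J` is injective and a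
local diffeomorphism on an open `N' ⊇ D.L` (`StA1`), `O = D.J '' (N ∩ N')` is open and contains `D.A`; the support of `F` is in the
compact set `K₂ = K₁ \ O ⊆ U \ A`.  `StPush` for `D.e` and `K₂ ∪ K` (`K` compact from `Phi Θ χ`; `imp` does not depend on the compact set, `StImp` (3)).
(2) existence: `K = K₂` for `F` as in (1), `χ = imp D.e K Θ`, `CIsot χ χ` by `StPush` (constant family `F.freeze`).
(3) uniqueness, (4) products: `K ∪ K'`, `StImp` (4), `StCI`; (5) identity; (6) change of `χ`; (7) `CIsot χ χ`. -/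
def StPhi : Prop :=
  ∀ D : ArcD,
    (∀ Θ Θ' χ, LIso D.U D.L D.J D.J Θ Θ' → D.Phi Θ χ → D.Phi Θ' χ) ∧
    (∀ Θ Θ', LIso D.U D.L D.J D.J Θ Θ' → ∃ χ, D.Phi Θ χ) ∧
    (∀ Θ χ χ', LIso D.U D.L D.J D.J Θ Θ → D.Phi Θ χ → D.Phi Θ χ' → CIsot I4 χ χ') ∧
    (∀ Θ Θ' χ χ', LIso D.U D.L D.J D.J Θ Θ → LIso D.U D.L D.J D.J Θ' Θ' → D.Phi Θ χ →
      D.Phi Θ' χ' → D.Phi (fun x => Θ (Θ' x)) (fun x => χ (χ' x))) ∧
    D.Phi (fun x => x) (fun x => x) ∧
    (∀ Θ χ χ', D.Phi Θ χ → CIsot I4 χ χ' → D.Phi Θ χ') ∧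
    ∀ Θ χ, D.Phi Θ χ → CIsot I4 χ χ

/-- CLS (helper27; uses `StCH4`, `StFRAME`, `StTHK`, `StPhi`).  The class of a loop of arcs: existence, uniqueness,
invariance under homotopies through embedded arcs, constant loops. -/
def StCls : Prop :=
  ∀ D : ArcD,
    (∀ c χ χ', D.Cls c χ → D.Cls c χ' → CIsot I4 χ χ') ∧
    (∀ c χ χ', D.Cls c χ → CIsot I4 χ χ' → D.Cls c χ') ∧
    (∀ c χ, D.Cls c χ → CIsot I4 χ χ) ∧
    (∀ c : ℝ × ℝ × ℝ → R4, D.Htpy c → ∀ u ∈ Icc (0 : ℝ) 1,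
      (∀ q ∈ Icc (0 : ℝ) 1, D.Imm c u q ∧ D.Inj c u q) → ∃ χ, D.Cls (fun q s => c (u, q, s)) χ) ∧
    (∀ c : ℝ × ℝ × ℝ → R4, D.Htpy c → ∀ u u' : ℝ, 0 ≤ u → u ≤ u' → u' ≤ 1 →
      (∀ v ∈ Icc u u', ∀ q ∈ Icc (0 : ℝ) 1, D.Imm c v q ∧ D.Inj c v q) →
      ∀ χ, D.Cls (fun q s => c (u, q, s)) χ → D.Cls (fun q s => c (u', q, s)) χ) ∧
    D.Cls (fun _ s => D.c s) (fun x => x)

/-! ## the chain of the general theorem -/

/-- CROSS (helper34, section 5). -/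
def StCROSS : Prop :=
  ∀ (D : ArcD) (c : ℝ × ℝ × ℝ → R4) (u₀ q₀ a b : ℝ), D.Htpy c → D.Xing c u₀ q₀ a b →
    (∀ u ∈ Icc (0 : ℝ) 1, ∀ q ∈ Icc (0 : ℝ) 1, D.Imm c u q) →
    (∀ u ∈ Icc (0 : ℝ) 1, ∀ q ∈ Icc (0 : ℝ) 1, (u, q) ≠ (u₀, q₀) → D.Inj c u q) →
    ∃ T, D.XG T ∧ ∀ χ₀ χ₁ τ : R4 → R4, D.Cls (fun q s => c (0, q, s)) χ₀ →
      D.Cls (fun q s => c (1, q, s)) χ₁ → Thin I4 (fun p => D.e (T p)) τ →
      CIsot I4 χ₀ (fun x => τ (χ₁ x)) ∨ CIsot I4 χ₁ (fun x => τ (χ₀ x))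

/-- CUSPFAM (helper27, section 6): an explicit family with one transverse double point. -/
def StCUSP : Prop :=
  ∀ D : ArcD, ∃ (c : ℝ × ℝ × ℝ → R4) (u₀ q₀ a b : ℝ), D.Htpy c ∧ D.Xing c u₀ q₀ a b ∧
    (∀ u ∈ Icc (0 : ℝ) 1, ∀ q ∈ Icc (0 : ℝ) 1, D.Imm c u q) ∧
    (∀ u ∈ Icc (0 : ℝ) 1, ∀ q ∈ Icc (0 : ℝ) 1, (u, q) ≠ (u₀, q₀) → D.Inj c u q) ∧
    (∀ q s, c (0, q, s) = D.c s) ∧ ∀ q s, c (1, q, s) = D.c s

/-- NORM + stage 2 (helper70). -/
def StNORM : Prop :=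
  ∀ (D : ArcD) (T T' W : R4 → R4), Pool.Agent.Helper70.BI.IsW W → D.XG T → D.XG T' →
    Pool.Agent.Helper70.BI.MW W (fun p => D.e (T p)) (fun p => D.e (T' p))

/-- GP (helper34, section 4): general position.  Every homotopy of loops of arcs can be replaced by one with the same
ends, consisting of immersed arcs, injective except for finitely many parameters, with different `u`, where there
is one transverse double point. -/
def StGP : Prop :=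
  ∀ (D : ArcD) (c : ℝ × ℝ × ℝ → R4), D.Htpy c →
    (∀ q ∈ Icc (0 : ℝ) 1, D.Imm c 0 q ∧ D.Inj c 0 q) →
    (∀ q ∈ Icc (0 : ℝ) 1, D.Imm c 1 q ∧ D.Inj c 1 q) →
    ∃ c' : ℝ × ℝ × ℝ → R4, D.Htpy c' ∧ (∀ q s, c' (0, q, s) = c (0, q, s)) ∧
      (∀ q s, c' (1, q, s) = c (1, q, s)) ∧
      (∀ u ∈ Icc (0 : ℝ) 1, ∀ q ∈ Icc (0 : ℝ) 1, D.Imm c' u q) ∧
      ∃ B : Finset ℝ, (∀ u ∈ B, u ∈ Ioo (0 : ℝ) 1) ∧
        (∀ u ∈ Icc (0 : ℝ) 1, u ∉ B → ∀ q ∈ Icc (0 : ℝ) 1, D.Inj c' u q) ∧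
        ∀ u ∈ B, ∃ q a b, D.Xing c' u q a b ∧ ∀ q' ∈ Icc (0 : ℝ) 1, q' ≠ q → D.Inj c' u q'

/-- **The homotopy theorem for loops of arcs** (from `StCls`, `StCROSS`, `StCUSP`, `StNORM`, `StGP`, `StMWL`). -/
def StArcH : Prop :=
  ∀ (D : ArcD) (c : ℝ × ℝ × ℝ → R4) (W χ₀ χ₁ : R4 → R4), D.Htpy c →
    (∀ q ∈ Icc (0 : ℝ) 1, D.Imm c 0 q ∧ D.Inj c 0 q) →
    (∀ q ∈ Icc (0 : ℝ) 1, D.Imm c 1 q ∧ D.Inj c 1 q) → Pool.Agent.Helper70.BI.IsW W →
    D.Cls (fun q s => c (0, q, s)) χ₀ → D.Cls (fun q s => c (1, q, s)) χ₁ →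
    CIsot I4 χ₁ χ₀ ∨ CIsot I4 χ₁ (fun x => W (χ₀ x))

end Pool.Agent.Helper27.H


end

/-! ## Helper27.BI.H.StH3 -/

section

/-!
# Project BI, stage 3 (H), part 6: the cusp family (modules CUM, CUT)
-/

set_option autoImplicit false

open scoped Manifold ContDiff Topology ComplexConjugate
open Set Filter Pool.Agent.Helper65.Barb Pool.Agent.Helper18.BI
open Pool.Agent.Helper70.BI (I4)

namespace Pool.Agent.Helper27.H

/-- MODULE CUM (the cusp family in the model): a two-parameter family of curves in four-space, parametrized by a line, equal to the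
straight line `σ ↦ (σ, 0)` near infinity and for parameters off the unit square, immersed, with exactly one double point,
which is transverse.

Construction.  All with `step` (`0` for `≤ 0`, `1` for `≥ 1`, values in `[0,1]`, nondecreasing).  With
`r = (u - 1/2)^2 + (q - 1/2)^2` put `κ = step (1 - 25 r)`, `κ₂ = step (3 - 50 r)`, `λ = step (5 - 50 r)`.  So `κ > 0` only if `r < 1/25`, `κ₂ = 1` for
`r ≤ 1/25`, `κ₂ > 0` only if `r < 3/50`, `λ = 1` for `r ≤ 4/50`, `λ = 0` for `r ≥ 1/10` (in particular if `u ≤ 0`, `u ≥ 1`, `q ≤ 0` or `q ≥ 1`).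
`T σ = step ((16 σ^2 - 1)/15)` (`0` for `|σ| ≤ 1/4`, `1` for `|σ| ≥ 1`), `χ σ = step (2 - 16 σ^2)` (`1` for `|σ| ≤ 1/4`, `0` for `|σ| ≥ 1/2`),
`p σ = σ^3 + T σ (σ - σ^3)`.  Then `p σ = σ^3` for `|σ| ≤ 1/4`, `p σ = σ` for `|σ| ≥ 1`, and
`p' = 3 σ^2 (1 - T) + T + T' (σ - σ^3) ≥ min (3 σ^2) 1` (as `T' (σ - σ^3) ≥ 0`: `T' = step' · 32 σ / 15`, `step' ≥ 0`, `σ (σ - σ^3) = σ^2 (1 - σ^2) ≥ 0` for
`|σ| ≤ 1`, and `T' = 0` for `|σ| > 1`); so `p' ≥ 3/16` for `|σ| ≥ 1/4`.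
Let `C ≥ 1` be a bound for `|(χ σ · σ)'|` (compact support, continuity) and `a₀ = σ₀^2 / 3` with `σ₀ > 0`, `σ₀ ≤ 1/20`, `σ₀^2 C ≤ 1/16`.
Put `a = a₀ (2 κ - 1) ∈ [-a₀, a₀]`, `b = κ₂ (u - 1/2)`, `d = κ₂ (q - 1/2)`, and
`x (u, q, σ) = ((1 - λ) σ + λ (p σ - 3 a χ σ · σ), (λ χ σ · σ^2, ⟨b χ σ · σ, d χ σ · σ⟩))` (`⟨b.., d..⟩ = b.. + d.. * I` is a complex number).

(i) `|σ| ≥ 1` or `r ≥ 1/10`: `x = (σ, 0)` (`κ₂ = 0` there).  (ii) the bound `‖x‖ ≤ 3` for `|σ| ≤ 1` (sup norm of the product; `|p σ| ≤ 1`, `3 a₀ ≤ 1`).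
(iii) Immersed.  If `λ < 1` then `r > 4/50`, so `κ = κ₂ = 0`, `a = -a₀`, `b = d = 0` and the first coordinate has derivative
`(1 - λ) + λ (p' + 3 a₀ (χ σ · σ)') > 0`: for `|σ| ≤ 1/4` it is `(1-λ) + λ (3 σ^2 + 3 a₀)`, for `|σ| ≥ 1/4`: `p' + 3 a₀ (..)' ≥ 3/16 - σ₀^2 C > 0`.
If `λ = 1`: for `|σ| ≥ 1/4` the first coordinate has derivative `p' - 3 a (χ σ · σ)' ≥ 3/16 - σ₀^2 C > 0`.  For `|σ| < 1/4` the derivative is
`(3 σ^2 - 3 a, (2 σ, ⟨b, d⟩))`; if it vanishes, `σ = 0`, `a = 0`, so `κ = 1/2`, `r < 1/25`, `κ₂ = 1`, and `b = d = 0` gives `r = 0`, `κ = step 1 = 1`, contradiction.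
(iv) Double points, `x (u,q,σ) = x (u,q,τ)`, `σ < τ`.  If `λ < 1` the first coordinate is strictly increasing.  So `λ = 1`, the first coordinate
is `f σ = p σ - 3 a χ σ · σ`, odd, strictly increasing on `[1/4, ∞)`, and for `|σ| ≤ 1/4` it is `σ^3 - 3 a σ`, with `|σ^3 - 3 a σ| < f (1/4)` for
`|σ| < 1/4`: `f (1/4) ∓ (σ^3 - 3 a σ) = (1/4 ∓ σ)((1/4)^2 ± σ/4 + σ^2 - 3 a) > 0` since `(1/4)^2 ± σ/4 + σ^2 ≥ 3/64 > 3 a₀` (`σ₀^2 ≤ 1/400`).
Hence `f σ = f τ`, `σ < τ` forces `|σ|, |τ| < 1/4` (or `= 1/4`, similar).  Then `σ^2 = τ^2` gives `τ = -σ ≠ 0`, the last coordinates give `b = d = 0`,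
and `σ^3 - 3 a σ = 0` gives `σ^2 = 3 a`, so `a > 0`, `κ > 1/2`, `κ₂ = 1`, `u = q = 1/2`, `κ = 1`, `a = a₀`, `σ^2 = σ₀^2`.
(v) `σ₀^3 - 3 a₀ σ₀ = 0`.
(vi) At `u = q = 1/2` the derivatives of `κ`, `κ₂`, `λ` with respect to `u`, `q` vanish (functions of `r`, whose derivative is `0` there; `κ₂` and `λ` are
constant near this point).  So the derivative of `x` at `(1/2, 1/2, ±σ₀)` in the direction `(ζ, η, σ)` is
`((3 σ₀^2 - 3 a₀) σ, (± 2 σ₀ σ, ⟨± σ₀ ζ, ± σ₀ η⟩))`.  Equality for `-σ₀`, `σ` and `σ₀`, `τ`: `-σ₀ ζ = σ₀ ζ`, `-σ₀ η = σ₀ η`, `2 σ₀^2 (σ - τ) = 0`,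
`-2 σ₀ (σ + τ) = 0`. -/
def StCUM : Prop :=
  ∃ (x : ℝ × ℝ × ℝ → R4) (σ₀ : ℝ), 0 < σ₀ ∧ σ₀ < 1 ∧ ContDiff ℝ ∞ x ∧
    (∀ u q σ, (1 ≤ |σ| ∨ u ∉ Ioo (0 : ℝ) 1 ∨ q ∉ Ioo (0 : ℝ) 1) → x (u, q, σ) = (σ, 0)) ∧
    (∀ u q σ, |σ| ≤ 1 → ‖x (u, q, σ)‖ ≤ 3) ∧
    (∀ u q σ, deriv (fun σ => x (u, q, σ)) σ ≠ 0) ∧
    (∀ u q σ τ, σ < τ → x (u, q, σ) = x (u, q, τ) → u = 1 / 2 ∧ q = 1 / 2 ∧ σ = -σ₀ ∧ τ = σ₀) ∧
    x (1 / 2, 1 / 2, -σ₀) = x (1 / 2, 1 / 2, σ₀) ∧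
    ∀ ζ η σ τ : ℝ, fderiv ℝ x (1 / 2, 1 / 2, -σ₀) (ζ, η, σ) = fderiv ℝ x (1 / 2, 1 / 2, σ₀) (ζ, η, τ) →
      ζ = 0 ∧ η = 0 ∧ σ = 0 ∧ τ = 0

/-- MODULE CUT (transplantation of the cusp family).

Proof.  `m = (D.m₀ + D.m₁)/2`.  By `D.emb` and `StA1` (`m_A1`; `D.L` is compact) there is an open `N ⊇ D.L` on which `D.J` is injective and
a local diffeomorphism, in particular smooth (`embOn_iff` in `Helper70/BI/Base.lean`); `D.J (m, 0) = D.c m ∈ D.U` (`core`, `mem`), so there is a small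
`η > 0` with `2 η ≤ (m₁ - m₀)/2` such that the ball (sup norm) of radius `4 η` about `(m, 0)` is contained in `N ∩ D.J ⁻¹' D.U`.
`P (u, q, s) = ((m, 0) : R4) + η • x (u, q, (s - m)/η)`.
Define `c (u, q, s) = if |s - m| < 2 η then D.J (P (u, q, s)) else D.c s`.
For `|s - m| ≤ 2 η` the point `P` is in the ball of radius `4 η` (for `|s - m| ≤ η` by `‖x‖ ≤ 3`, otherwise `P = (s, 0)`), and for
`|s - m| ≥ η` (`|σ| ≥ 1`) it is `(s, 0)`, so `D.J P = D.c s` if `|s - m| ≥ η` and `s ∈ [s₀, s₁]`.  So `c` is smooth (open cover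
`|s - m| < 2 η`, `|s - m| > η`), and `c (u,q,s) = D.J (P (u,q,s))` for all `s ∈ [s₀, s₁]`; `c (u,q,s) = D.c s` for `s ≤ m₀` or `m₁ ≤ s`, and for `u ∉ (0,1)` or
`q ∉ (0,1)` (there `P = (s, 0)`).  In `D.U`: for `|s - m| < 2 η` by the choice of `η`, otherwise by `mem`.
Injectivity: all `P (u,q,s)`, `s ∈ [s₀,s₁]`, are in `N`, so `c (u,q,s) = c (u,q,s')` iff `P (u,q,s) = P (u,q,s')` iff
`x (u,q,σ) = x (u,q,σ')`, `σ = (s - m)/η`.  So there is exactly one double point, `u₀ = q₀ = 1/2`, `a = m - η σ₀`, `b = m + η σ₀`.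
Immersed: for `|s - m| < 2 η`: the derivative of `s ↦ c (u,q,s)` is `D(D.J)(P) (x'(σ)) ≠ 0`; for `|s - m| > η`: it is `deriv D.c s`, nonzero on `[s₀, s₁]`
since `D.c = D.J (·, 0)` on `[s₀, s₁]` (one-sided derivatives at the ends: `HasDerivWithinAt` on `Icc`, unique) and `D(D.J)` is injective.
Transverse: `fderiv c (u₀,q₀,s) (ζ,η',σ) = D(D.J)(P) (η • fderiv x (u₀,q₀,(s-m)/η) (ζ, η', σ/η))`, at `s = a, b`, the same point `P`; cancel the injective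
`D(D.J)(P)` and `η`; use the last property of `x` with `σ/η`, `τ/η`. -/
def StCUT : Prop := StCUM → StCUSP

end Pool.Agent.Helper27.H


end

/-! ## Helper18.BI.H.StEnd -/

section

/-!
# Project BI, stage 3 (H): the end

The fixed cuff is `sph 1`, the cuff `sph 0` is moved by a homotopy in the complement of the fixed cuff.
-/

set_option autoImplicit false

open scoped Manifold ContDiff Topology ComplexConjugate
open Set Pool.Agent.Helper65.Barb Pool.Agent.Helper18.BI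
open Pool.Agent.Helper70.BI (I4 IsW MW StMain2)
open Pool.Agent.Helper27.H (ArcD StArcH)

namespace Pool.Agent.Helper18.BI.H

/-- the loop of arcs of the germ `F`: on `[n₀, n₁]` the arc is `F (sq ε (s, 73/100 • mm q s))`, elsewhere it is the
base arc -/
noncomputable def loopF (F : R4 → R4) (n₀ n₁ ε : ℝ) (D : ArcD) (q s : ℝ) : R4 :=
  open Classical in if n₀ ≤ s ∧ s ≤ n₁ then F (sq ε (s, (73 / 100 : ℝ) • mm q s)) else D.c s

/-- **HAT** (helper27) for finite families.  For germs `F i` which agree with the germ `F` near `sph 1 ∪ neckE` and all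
small `ε` there is an arc datum `D`, whose wall is close to `F '' sph 1`, such that for all `i` the class of the
loop of arcs of `F i` is the implantation class of `F i`. -/
def StHATn : Prop :=
  ∀ (ι : Type) [Finite ι] (F : R4 → R4) (Fi φ : ι → R4 → R4) (V : Set R4), EmbOn I4 F SP →
    (∀ i, EmbOn I4 (Fi i) SP) → IsOpen V → sph 1 ∪ neckE ⊆ V → (∀ i, EqOn F (Fi i) V) →
    (∀ i, Thin I4 (Fi i) (φ i)) → ∀ κ > 0, ∃ ε₀ > 0, ∀ ε ∈ Ioo 0 ε₀, ∃ D : ArcD,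
      D.m₀ = 9 / 20 ∧ D.m₁ = 11 / 20 ∧ D.s₀ < 3 / 10 ∧ 7 / 10 < D.s₁ ∧
      (∀ x, x ∉ D.U → ∃ y ∈ F '' sph 1, dist x y < κ) ∧
      (∀ s ∈ Icc (3 / 10 : ℝ) (7 / 10), D.c s = F (sq ε (s, ((73 / 100 : ℝ), 0)))) ∧
      ∀ i, D.Cls (loopF (Fi i) (3 / 10) (7 / 10) ε D) (φ i)

/-- **(H) for `R4`.** -/
def StHMain : Prop :=
  ∀ (F F' : R4 → R4) (U : Set R4) (h : ℝ × R4 → R4) (W φ φ' : R4 → R4), IsW W →
    EmbOn I4 F SP → EmbOn I4 F' SP → IsOpen U → sph 1 ⊆ U → EqOn F F' U →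
    ContinuousOn h (Icc (0 : ℝ) 1 ×ˢ sph 0) → (∀ p ∈ sph 0, h (0, p) = F p) →
    (∀ p ∈ sph 0, h (1, p) = F' p) → (∀ u ∈ Icc (0 : ℝ) 1, ∀ p ∈ sph 0, h (u, p) ∉ F '' sph 1) →
    Thin I4 F φ → Thin I4 F' φ' → CIsot I4 φ' φ ∨ CIsot I4 φ' (fun x => W (φ x))

end Pool.Agent.Helper18.BI.H


end

/-! ## Helper18.BI.H.StF3 -/

section

/-!
# Project BI, stage 3 (H): consequences and the transfer to the 4-sphere

Statements (as `Prop` definitions) with complete proofs in the docstrings.  A module `M_X` proves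
`theorem m_X : StX` (possibly from other statements as hypotheses `(h : StY)`).
-/

set_option autoImplicit false

open scoped Manifold ContDiff Topology ComplexConjugate
open Set Pool.Agent.Helper65.Barb Pool.Agent.Helper18.BI
open Pool.Agent.Helper70.BI (I4 IsW MW)

namespace Pool.Agent.Helper18.BI.H

/-- **HC.** (H) for `R4`, for both cuffs: the cuff `sph c` is fixed, the cuff `sph d` is moved by a homotopy. -/
def StHC : Prop :=
  ∀ (F F' : R4 → R4) (U : Set R4) (h : ℝ × R4 → R4) (W : R4 → R4) (c d : ℝ), IsW W →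
    (c = 0 ∧ d = 1 ∨ c = 1 ∧ d = 0) → EmbOn I4 F SP → EmbOn I4 F' SP → IsOpen U → sph c ⊆ U →
    EqOn F F' U → ContinuousOn h (Icc (0 : ℝ) 1 ×ˢ sph d) → (∀ p ∈ sph d, h (0, p) = F p) →
    (∀ p ∈ sph d, h (1, p) = F' p) → (∀ u ∈ Icc (0 : ℝ) 1, ∀ p ∈ sph d, h (u, p) ∉ F '' sph c) →
    MW W F F'

/-- **NULC.** A germ one of whose cuffs is null-homotopic in the complement of the other one has class `1` or `W`
(from `StNUL`, `StHC`; swap). -/
def StNULC : Prop :=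
  ∀ (F : R4 → R4) (h : ℝ × R4 → R4) (y : R4) (W φ : R4 → R4) (c d : ℝ), IsW W →
    (c = 0 ∧ d = 1 ∨ c = 1 ∧ d = 0) → EmbOn I4 F SP →
    ContinuousOn h (Icc (0 : ℝ) 1 ×ˢ sph d) → (∀ p ∈ sph d, h (0, p) = F p) →
    (∀ p ∈ sph d, h (1, p) = y) → (∀ u ∈ Icc (0 : ℝ) 1, ∀ p ∈ sph d, h (u, p) ∉ F '' sph c) →
    Thin I4 F φ → CIsot I4 φ (fun x => x) ∨ CIsot I4 φ W

/-- **NUL** (null-homotopic cuffs).  If the cuff `sph 0` is null-homotopic in the complement of the cuff `sph 1`, the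
germ is connected by a homotopy as in (H) to a germ with trivial class.
Proof.  `T a = step (20 a - 14)` (`step (2 a' - 1)`-like: `0` for `a ≤ 7/10`, `1` for `a ≥ 3/4`), `0 < r < 1/50`,
`k a = T a * a + (1 - T a) * (3/5 + 5 r a)`, `m a = T a + (1 - T a) * 5 r`, `κ (s, a, w) = (s, k a, m a • w)`.
`k' > 0` for `1/5 ≤ a` (for `7/10 ≤ a ≤ 3/4` the term with `T' ≥ 0` is `T' (a - 3/5 - 5 r a)`, and `a - 3/5 - 5 r a > 0`), `m > 0`, so `κ` is a
local diffeomorphism at the points of `SP` (`Pool.Agent.Helper70.BI.ld_iff`; triangular derivative), injective on `flat 0 ∪ sph 1 ∪ neck`, the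
identity near `sph 1`, maps `flat 0` to the flat ball of radius `r` around `(1/2, (3/5, 0))` and `neck` into `neck`.  `F` is injective and a local diffeomorphism on
an open set containing `SP` (`StA1`), so for small `r` (compactness) `F' = F ∘ κ` is `EmbOn` on `flat 0 ∪ sph 1 ∪ neck`, hence
`Thin F' id` by `StVanT` (`Pool.Agent.Helper27.BI.hVanT`).  The homotopy `h'` is the concatenation (`u ∈ [0,1/4]`, ...) of
`h`, of `h (1 - v, foot0)` (constant in `p`), of the path `F (bar (1/5 + 2/5 v))` (constant in `p`) and of the homotopy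
`F (1/2, ((3/5, 0) + v * 5 r • p.2))`; continuous by `ContinuousOn.union_of_isClosed` or `ContinuousOn.if`; off `F '' sph 1` by the injectivity of `F` on
the open set (`bar a ∉ sph 1` for `a < 4/5`; the small flat ball is disjoint from `sph 1`). -/
def StNUL : Prop :=
  ∀ (F : R4 → R4) (h : ℝ × R4 → R4) (y : R4), EmbOn I4 F SP →
    ContinuousOn h (Icc (0 : ℝ) 1 ×ˢ sph 0) → (∀ p ∈ sph 0, h (0, p) = F p) →
    (∀ p ∈ sph 0, h (1, p) = y) → (∀ u ∈ Icc (0 : ℝ) 1, ∀ p ∈ sph 0, h (u, p) ∉ F '' sph 1) →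
    ∃ (F' : R4 → R4) (U : Set R4) (h' : ℝ × R4 → R4), EmbOn I4 F' SP ∧ IsOpen U ∧ sph 1 ⊆ U ∧
      EqOn F F' U ∧ ContinuousOn h' (Icc (0 : ℝ) 1 ×ˢ sph 0) ∧ (∀ p ∈ sph 0, h' (0, p) = F p) ∧
      (∀ p ∈ sph 0, h' (1, p) = F' p) ∧
      (∀ u ∈ Icc (0 : ℝ) 1, ∀ p ∈ sph 0, h' (u, p) ∉ F '' sph 1) ∧
      Thin I4 F' (fun x => x)

/-- **SMH** (smoothing a homotopy in the 4-sphere, only the emptiness of the interior of the image is used).
Proof.  `S4` is the unit sphere of `R⁵ = EuclideanSpace ℝ (Fin 5)`.  By compactness there is `ρ ∈ (0, 1/8)` with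
`8 ρ ≤ dist (h (u, p)) y` for `u ∈ [0,1]`, `p ∈ sph d`, `y ∈ K`.  `ĥ : ℝ × R4 → R⁵` continuous with `ĥ = h` on `[0,1] × sph d` (Tietze,
`ContinuousMap.exists_restrict_eq` / `ContinuousOn` version on the closed set), `g : ℝ × R4 → R⁵` smooth with
`‖g - ĥ‖ ≤ ρ` (`Continuous.exists_contDiff_approx_and_eqOn` with `S = ∅`, or the version used in `M_SM.lean`).  For `p ∈ sph d` put
`v (u, p) = (1 - 3u) b p + 3u g (0, p)` for `u ≤ 1/3`, `g (3u - 1, p)` for `1/3 ≤ u ≤ 2/3`, `(3 - 3u) g (1, p) + (3u - 2) b' p` for `2/3 ≤ u`; its distance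
to `h (0, p)`, `h (3u - 1, p)`, `h (1, p)` respectively is `≤ ρ`, so `‖v‖ ≥ 7/8` and `h' = v / ‖v‖` (as a point of `S4`) is within `2 ρ`·2 of the same
point, off `K`.  Image: it is the union of three compact sets `E_j`, the images of `[0,1] × sph d` under three
maps `v_j / ‖v_j‖`, `v_j` smooth near `[0,1] × sph d`.  `interior E_j = ∅`: let `σ : ℝ × ℝ → R4` be the smooth parametrization of
`sph d` by spherical coordinates (onto), and `f_j (r, u, θ, ψ) = r • v_j (u, σ (θ, ψ))`, `C^∞` on the open set of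
`(r, u, θ, ψ)` with `v_j` smooth there, from a space of dimension `4` to `R⁵`, so the image of a subset has
dense complement (`ContDiffOn.dense_compl_image_of_dimH_lt_finrank`, with `dimH ≤ 4 < 5`; or `ContDiff.dense_compl_range_of_finrank_lt_finrank` after making
`v_j` globally smooth by a cutoff: replace `b`, `b'` by globally smooth functions `R4 → R⁵` equal to them on `sph d`, `exists_contMDiff..`/extension by a bump function).
It contains the cone `{r y | r > 0, y ∈ E_j}`; if `O ⊆ E_j` is open and nonempty in `S4` then the cone over `O` is open and nonempty in `R⁵` (preimage of `O` under the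
continuous map `x ↦ x/‖x‖` on `x ≠ 0`), a contradiction.  Union of three closed sets: `interior_union_isClosed_of_interior_empty`. -/
def StSMH : Prop :=
  ∀ (b b' : R4 → S4) (h : ℝ × R4 → S4) (K : Set S4) (d : ℝ), IsCompact K →
    (∀ p ∈ sph d, ContMDiffAt 𝓘(ℝ, R4) (𝓡 4) ∞ b p) →
    (∀ p ∈ sph d, ContMDiffAt 𝓘(ℝ, R4) (𝓡 4) ∞ b' p) →
    ContinuousOn h (Icc (0 : ℝ) 1 ×ˢ sph d) → (∀ p ∈ sph d, h (0, p) = b p) →
    (∀ p ∈ sph d, h (1, p) = b' p) → (∀ u ∈ Icc (0 : ℝ) 1, ∀ p ∈ sph d, h (u, p) ∉ K) →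
    ∃ h' : ℝ × R4 → S4, ContinuousOn h' (Icc (0 : ℝ) 1 ×ˢ sph d) ∧ (∀ p ∈ sph d, h' (0, p) = b p) ∧
      (∀ p ∈ sph d, h' (1, p) = b' p) ∧ (∀ u ∈ Icc (0 : ℝ) 1, ∀ p ∈ sph d, h' (u, p) ∉ K) ∧
      interior (h' '' (Icc (0 : ℝ) 1 ×ˢ sph d)) = ∅

/-! ### the 4-sphere -/

/-- the class `W` in the 4-sphere: properties which do not involve barbells -/
def IsW4 (W : S4 → S4) : Prop :=
  (∃ (B₀ δ₀ : PartialDiffeomorph 𝓘(ℝ, R4) (𝓡 4) R4 S4 ∞), NB ⊆ B₀.source ∧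
    flat 0 ∪ flat 1 ⊆ δ₀.source ∧ (∀ p ∈ sph 0 ∪ sph 1, δ₀ p = B₀ p) ∧
      W = implantation B₀ barMap) ∧
  Isot (𝓡 4) (fun x => W (W x)) (fun x => x) ∧
  ∀ Ψ Ψ' : S4 → S4, ContMDiff (𝓡 4) (𝓡 4) ∞ Ψ → ContMDiff (𝓡 4) (𝓡 4) ∞ Ψ' →
      (∀ x, Ψ (Ψ' x) = x) → (∀ x, Ψ' (Ψ x) = x) → Isot (𝓡 4) (fun x => Ψ (W (Ψ' x))) W

/-- equal up to isotopy and `W` -/
def UpTo (W φ ψ : S4 → S4) : Prop := Isot (𝓡 4) φ ψ ∨ Isot (𝓡 4) φ (fun x => W (ψ x))

/-- **THE MAIN THEOREM OF STAGE 3.** -/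
def StFinal3 : Prop :=
  ∃ W : S4 → S4, IsW4 W ∧
    ∀ (B : PartialDiffeomorph 𝓘(ℝ, R4) (𝓡 4) R4 S4 ∞) (β : R4 → R4) (c d : ℝ),
      NB ⊆ B.source → IsBarbellMap β → (c = 0 ∧ d = 1 ∨ c = 1 ∧ d = 0) →
      -- homotopy invariance
      (∀ (B' : PartialDiffeomorph 𝓘(ℝ, R4) (𝓡 4) R4 S4 ∞) (β' : R4 → R4) (U : Set R4)
        (h : ℝ × R4 → S4), NB ⊆ B'.source → IsBarbellMap β' → IsOpen U → sph c ⊆ U → EqOn B B' U →
        ContinuousOn h (Icc (0 : ℝ) 1 ×ˢ sph d) → (∀ p ∈ sph d, h (0, p) = B p) →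
        (∀ p ∈ sph d, h (1, p) = B' p) →
        (∀ u ∈ Icc (0 : ℝ) 1, ∀ p ∈ sph d, h (u, p) ∉ B '' sph c) →
        UpTo W (implantation B' β') (implantation B β)) ∧
      -- null-homotopic cuffs
      (∀ (h : ℝ × R4 → S4) (y : S4), ContinuousOn h (Icc (0 : ℝ) 1 ×ˢ sph d) →
        (∀ p ∈ sph d, h (0, p) = B p) → (∀ p ∈ sph d, h (1, p) = y) →
        (∀ u ∈ Icc (0 : ℝ) 1, ∀ p ∈ sph d, h (u, p) ∉ B '' sph c) →
        UpTo W (implantation B β) (fun x => x))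

end Pool.Agent.Helper18.BI.H


end

/-! ## Helper70.BI.M_OB0 -/

section

/-!
# Project BI, part (E), module OB0: the class of a germ with `Br 0` is `1` or `W`
-/

set_option autoImplicit false

open scoped Manifold ContDiff Topology ComplexConjugate
open Set Filter Pool.Agent.Helper65.Barb Pool.Agent.Helper18.BI

namespace Pool.Agent.Helper70.BI

open Pool.Agent.Helper27.BI (refh refs swp StVanT StRefH StRefS StR2sw)

namespace OB0

/-- the linear part of `swp` -/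
private noncomputable def L : R4 →L[ℝ] R4 :=
  (ContinuousLinearMap.id ℝ ℝ).prodMap ((-(ContinuousLinearMap.id ℝ ℝ)).prodMap
    (Complex.conjCLE : ℂ →L[ℝ] ℂ))

private theorem swp_eq : swp = fun p => L p + (0, (1, 0)) := by
  funext p
  refine Prod.ext ?_ (Prod.ext ?_ ?_)
  · change p.1 = p.1 + 0
    ring
  · change 1 - p.2.1 = -p.2.1 + 1
    ring
  · change conj p.2.2 = conj p.2.2 + 0
    ring

private theorem inv (p : R4) : swp (swp p) = p := by simp [swp]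

private theorem LL (v : R4) : L (L v) = v := Prod.ext rfl (Prod.ext (neg_neg _) (Complex.conj_conj _))

private theorem der (p : R4) : HasFDerivAt swp L p := by
  rw [swp_eq]
  exact L.hasFDerivAt.add_const _

private theorem ld (p : R4) : LD swp p := by
  rw [ld_iff]
  refine ⟨Eventually.of_forall fun q => ?_, ?_⟩
  · rw [swp_eq]
    exact (L.contDiff.add contDiff_const).contDiffAt
  · rw [(der p).fderiv]
    intro x y hxy
    rw [← LL x, hxy, LL]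

private theorem injective : Function.Injective swp := fun x y hxy => by
  rw [← inv x, hxy, inv]

private theorem rsq_w (c : ℝ) (p : R4) : rsq c (swp p) = rsq (1 - c) p := by
  simp only [rsq, nsq, swp, Complex.conj_re, Complex.conj_im]; ring

private theorem SPm {p : R4} (hp : p ∈ SP) : swp p ∈ SP := by
  rcases hp with (hp | hp) | hp
  · exact Or.inl (Or.inr ⟨hp.1, by rw [rsq_w, sub_self]; exact hp.2⟩)
  · exact Or.inl (Or.inl ⟨hp.1, by rw [rsq_w, sub_zero]; exact hp.2⟩)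
  · refine Or.inr ⟨hp.1, ?_, ?_, ?_⟩
    · change 1 / 5 ≤ 1 - p.2.1
      linarith [hp.2.2.1]
    · change 1 - p.2.1 ≤ 4 / 5
      linarith [hp.2.1]
    · change conj p.2.2 = 0
      rw [hp.2.2.2, map_zero]

private theorem flatm {p : R4} (hp : p ∈ flat 1) : swp p ∈ flat 0 :=
  ⟨hp.1, by rw [rsq_w, sub_zero]; exact hp.2⟩

private theorem sphm {p : R4} (hp : p ∈ sph 0) : swp p ∈ sph 1 :=
  ⟨hp.1, by rw [rsq_w, sub_self]; exact hp.2⟩

private theorem ax_w (a : ℝ) : swp (ax a) = ax (1 - a) := by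
  refine Prod.ext rfl (Prod.ext rfl ?_)
  change conj (0 : ℂ) = 0
  rw [map_zero]

private theorem fd {F : R4 → R4} {p : R4} (hF : LD F (swp p)) :
    fderiv ℝ (fun p => F (swp p)) p = (fderiv ℝ F (swp p)).comp L := by
  have h1 : DifferentiableAt ℝ F (swp p) :=
    ((ld_iff.1 hF).1.self_of_nhds).differentiableAt (by simp)
  exact (h1.hasFDerivAt.comp p (der p)).fderiv

private theorem rsq_half (c : ℝ) (x : R3) : rsq c ((1 / 2 : ℝ), x) = nsq (x - pc c) := by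
  simp [rsq, pc, nsq]

private theorem br {F : R4 → R4} {γ e : ℝ} (hF : Br 0 F γ e) :
    Br 1 (fun p => F (swp p)) (1 - γ) (-e) where
  loc p hp := by
    refine ld_comp (ld p) (hF.loc _ ?_)
    rcases hp with hp | hp
    · exact Or.inl (SPm hp)
    · exact Or.inr (flatm hp)
  inj p hp q hq he := injective (hF.inj (SPm hp) (SPm hq) he)
  injF p hp q hq he := by
    have hm : ∀ p ∈ flat 1 ∪ sph (1 - 1), swp p ∈ flat 0 ∪ sph (1 - 0) := by
      rw [sub_self, sub_zero]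
      rintro p (hp | hp)
      · exact Or.inl (flatm hp)
      · exact Or.inr (sphm hp)
    exact injective (hF.injF (hm p hp) (hm q hq) he)
  mem := ⟨by linarith [hF.mem.2], by linarith [hF.mem.1]⟩
  cr := by
    obtain ⟨x₀, h1, h2, l, v, h3, h4⟩ := hF.cr
    have hx₀ : ((1 / 2 : ℝ), x₀) ∈ flat 0 := ⟨rfl, by rw [rsq_half]; exact h1.le⟩
    have e2 : swp (1 / 2, (swp (1 / 2, x₀)).2) = (1 / 2, x₀) := inv (1 / 2, x₀)
    have e7 : swp (ax (1 - γ)) = ax γ := by rw [ax_w, sub_sub_cancel]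
    refine ⟨(swp (1 / 2, x₀)).2, ?_, ?_, (L (-(l, v))).1, (L (-(l, v))).2, ?_, ?_⟩
    · have e4 : rsq 1 ((1 / 2 : ℝ), (swp (1 / 2, x₀)).2) = rsq 0 ((1 / 2 : ℝ), x₀) := by
        have := rsq_w 1 (1 / 2, x₀)
        rw [sub_self] at this
        exact this
      rw [← rsq_half, e4, rsq_half]
      exact h1
    · change F (swp (ax (1 - γ))) = F (swp (1 / 2, (swp (1 / 2, x₀)).2))
      rw [e7, e2]
      exact h2
    · change 0 < -e * -l
      rw [neg_mul_neg]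
      exact h3
    · have hg : ax γ ∈ SP := Or.inr ⟨rfl, hF.mem.1.le, hF.mem.2.le, rfl⟩
      rw [fd (p := ax (1 - γ)) (by rw [e7]; exact hF.loc _ (Or.inl hg)),
        fd (p := (1 / 2, (swp (1 / 2, x₀)).2)) (by rw [e2]; exact hF.loc _ (Or.inr hx₀)), e7,
        e2]
      simp only [ContinuousLinearMap.comp_apply, Prod.mk.eta]
      have e6 : L ((0 : ℝ), ((1 : ℝ), (0 : ℂ))) = -((0 : ℝ), ((1 : ℝ), (0 : ℂ))) := by
        refine Prod.ext ?_ (Prod.ext ?_ ?_) <;> simp [L]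
      rw [LL, e6, map_neg, map_neg, h4]
  only a ha hmem := by
    obtain ⟨p, hp, he⟩ := hmem
    have h1 : core F (1 - a) ∈ F '' flat 0 := by
      refine ⟨swp p, flatm hp, ?_⟩
      have : F (swp p) = F (swp (ax a)) := he
      rw [this, ax_w]
      rfl
    rcases hF.only (1 - a) ⟨by linarith [ha.2], by linarith [ha.1]⟩ h1 with h | h
    · left
      linarith
    · right
      linarith

end OB0

open OB0 in
theorem m_OB0 (hOB1 : StOB1) (hSw : StR2sw) (hT2 : StT2) (hCI : StCI) : StOB0 := by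
  intro W F γ e hW he hF φ hφ
  obtain ⟨-, -, -, -, -, -, tvii⟩ := hT2 R4 R4 I4 R4
  obtain ⟨-, cs, -, ct, cc, ci, cex, -, -, -⟩ := hCI R4 R4 I4 R4
  obtain ⟨φ', -, i1, i2⟩ := cex φ (tvii F φ hφ)
  have t1 : Thin I4 (fun p => F (swp p)) φ' :=
    (hSw R4 R4 I4 R4 F φ φ' ⟨fun p hp => hF.loc p (Or.inl hp), hF.inj⟩ i1 i2).1 hφ
  have he' : -e = 1 ∨ -e = -1 := by
    rcases he with h | h
    · right; rw [h]
    · left; rw [h, neg_neg]
  rcases hOB1 W _ (1 - γ) (-e) hW he' (br hF) φ' t1 with h | h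
  · exact Or.inl (ci φ' (fun x => x) φ (fun x => x) h i2 (fun x => rfl))
  · right
    obtain ⟨F₀, α₀, β₀, -, hr⟩ := hW.rep
    obtain ⟨W', hW', j1, j2⟩ := cex W (tvii F₀ W hr)
    have h1 : CIsot I4 φ W' := ci φ' W φ W' h i2 j1
    have h2 := cc _ _ W' W' hW.sq hW'
    have h3 : (fun x => W (W (W' x))) = W := funext fun x => by rw [j1]
    have h4 : CIsot I4 W W' := by
      have h5 : CIsot I4 (fun x => W (W (W' x))) W' := h2
      rwa [h3] at h5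
    exact ct _ _ _ h1 (cs _ _ h4)

end Pool.Agent.Helper70.BI


end

/-! ## Helper18.BI.H.M_HC -/

section

/-!
# Project BI, stage 3 (H), modules HC and NULC: both cuffs
-/

set_option autoImplicit false

open scoped Manifold ContDiff Topology ComplexConjugate
open Set Pool.Agent.Helper65.Barb Pool.Agent.Helper18.BI
open Pool.Agent.Helper70.BI (I4 IsW MW StMWL)
open Pool.Agent.Helper27.BI (swp StR2sw)
open Pool.Agent.Helper34.BI (swp_swp swp_mem_sph_zero swp_mem_sph_one swp_mem_SP continuous_swp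
  isLocalDiffeomorphAt_swp)

namespace Pool.Agent.Helper18.BI.H

theorem embOn_swp {G : R4 → R4} (hG : EmbOn I4 G SP) : EmbOn I4 (fun p => G (swp p)) SP :=
  ⟨fun p hp => isLocalDiffeomorphAt_swp (hG.1 _ (swp_mem_SP hp)), fun p hp q hq hpq => by
    have := hG.2 (swp_mem_SP hp) (swp_mem_SP hq) hpq
    rw [← swp_swp p, this, swp_swp]⟩

theorem image_swp (F : R4 → R4) : (fun p => F (swp p)) '' sph 1 = F '' sph 0 := by
  apply Subset.antisymm
  · rintro _ ⟨p, hp, rfl⟩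
    exact ⟨swp p, swp_mem_sph_zero hp, rfl⟩
  · rintro _ ⟨p, hp, rfl⟩
    refine ⟨swp p, swp_mem_sph_one hp, ?_⟩
    show F (swp (swp p)) = F p
    rw [swp_swp]

theorem m_HC (hH : StHMain) (hMWL : StMWL) : StHC := by
  intro F F' U h W c d hW hcd hF hF' hU hcU hEq hh h0 h1 hoff
  rcases hcd with ⟨rfl, rfl⟩ | ⟨rfl, rfl⟩
  · -- the fixed cuff is `sph 0`: apply the theorem to `F ∘ swp`
    obtain ⟨-, -, -, -, -, hsw, -⟩ := hMWL W hW
    apply hsw F F' hF hF'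
    intro φ ψ hφ hψ
    refine hH (fun p => F (swp p)) (fun p => F' (swp p)) (swp ⁻¹' U) (fun z => h (z.1, swp z.2)) W
      φ ψ hW (embOn_swp hF) (embOn_swp hF') (hU.preimage continuous_swp)
      (fun p hp => hcU (swp_mem_sph_zero hp))
      (fun p hp => hEq hp) ?_ (fun p hp => h0 _ (swp_mem_sph_one hp))
      (fun p hp => h1 _ (swp_mem_sph_one hp)) (fun u hu p hp => ?_) hφ hψ
    · refine hh.comp (Continuous.continuousOn ?_) ?_
      · exact continuous_fst.prodMk (continuous_swp.comp continuous_snd)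
      · rintro ⟨u, p⟩ ⟨hu, hp⟩
        exact ⟨hu, swp_mem_sph_one hp⟩
    · rw [image_swp]
      exact hoff u hu _ (swp_mem_sph_one hp)
  · intro φ ψ hφ hψ
    exact hH F F' U h W φ ψ hW hF hF' hU hcU hEq hh h0 h1 hoff hφ hψ

theorem m_NULC (hHC : StHC) (hN : StNUL) (hT2 : StT2) (hCI : StCI) (hsw : StR2sw) : StNULC := by
  intro F h y W φ c d hW hcd hF hh h0 h1 hoff hφ
  obtain ⟨cid, cs, cself, ct, cc, cinv, cex, -⟩ := hCI _ _ 𝓘(ℝ, R4) R4
  obtain ⟨-, tii, -, -, -, -, tvii⟩ := hT2 _ _ 𝓘(ℝ, R4) R4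
  have hWW : CIsot I4 W W := by
    obtain ⟨F₀, α₀, β₀, -, hT⟩ := hW.rep
    exact tvii _ _ hT
  have key : ∀ (F : R4 → R4) (h : ℝ × R4 → R4) (φ : R4 → R4), EmbOn I4 F SP →
      ContinuousOn h (Icc (0 : ℝ) 1 ×ˢ sph 0) → (∀ p ∈ sph 0, h (0, p) = F p) →
      (∀ p ∈ sph 0, h (1, p) = y) →
      (∀ u ∈ Icc (0 : ℝ) 1, ∀ p ∈ sph 0, h (u, p) ∉ F '' sph 1) → Thin I4 F φ →
      CIsot I4 φ (fun x => x) ∨ CIsot I4 φ W := by
    intro F h φ hF hh h0 h1 hoff hφ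
    obtain ⟨F', U, h', hF', hU, hsU, hE, hh', h0', h1', hoff', hid⟩ := hN F h y hF hh h0 h1 hoff
    have hmw := hHC F F' U h' W 1 0 hW (Or.inr ⟨rfl, rfl⟩) hF hF' hU hsU hE hh' h0' h1' hoff'
      φ (fun x => x) hφ hid
    rcases hmw with e | e
    · exact Or.inl (cs _ _ e)
    · right
      have e1 : CIsot I4 (fun x => W x) (fun x => W (W (φ x))) := cc W W _ _ hWW e
      have e2 : CIsot I4 (fun x => W (W (φ x))) φ :=
        cc (fun x => W (W x)) (fun x => x) φ φ hW.sq (tvii _ _ hφ)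
      exact cs _ _ (ct _ _ _ e1 e2)
  rcases hcd with ⟨rfl, rfl⟩ | ⟨rfl, rfl⟩
  · obtain ⟨φ', hφ', i1, i2⟩ := cex φ (tvii _ _ hφ)
    have hT : Thin I4 (fun p => F (swp p)) φ' := (hsw _ _ 𝓘(ℝ, R4) R4 F φ φ' hF i1 i2).1 hφ
    have hor := key (fun p => F (swp p)) (fun z => h (z.1, swp z.2)) φ' (embOn_swp hF) (by
      refine hh.comp (Continuous.continuousOn ?_) ?_
      · exact continuous_fst.prodMk (continuous_swp.comp continuous_snd)
      · rintro ⟨u, p⟩ ⟨hu, hp⟩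
        exact ⟨hu, swp_mem_sph_one hp⟩) (fun p hp => h0 _ (swp_mem_sph_one hp))
      (fun p hp => h1 _ (swp_mem_sph_one hp)) (fun u hu p hp => by
        rw [image_swp]
        exact hoff u hu _ (swp_mem_sph_one hp)) hT
    rcases hor with e | e
    · left
      exact cinv φ' (fun x => x) φ (fun x => x) e i2 (fun _ => rfl)
    · right
      obtain ⟨W', hW', j1, j2⟩ := cex W hWW
      have e1 : CIsot I4 φ W' := cinv φ' W φ W' e i2 j1
      have e2 : CIsot I4 (fun x => W (W (W' x))) W' :=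
        cc (fun x => W (W x)) (fun x => x) W' W' hW.sq hW'
      have e3 : (fun x => W (W (W' x))) = W := by
        funext x
        rw [j1]
      rw [e3] at e2
      exact ct _ _ _ e1 (cs _ _ e2)
  · exact key F h φ hF hh h0 h1 hoff hφ

end Pool.Agent.Helper18.BI.H


end
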