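import Pool.Agent.Helper65.Barb.Defs
import Pool.Agent.Helper70.BI.B.P02
import Pool.Agent.Helper70.BI.B.P18

/-!
# Project BI (MP_8e98f2_gt): collected modules, part 19

The contents of the modules
* Helper18.BI.H.StPI2
* Helper18.BI.H.M_PI2A
* Helper18.BI.H.M_PI2C
* Helper18.BI.H.M_PI2B
* Helper34.BI.H.M_SMH
* Helper70.BI.M_DET

in one file, so that the whole proof builds in a short time.
-/

/-! ## Helper18.BI.H.StPI2 -/

section

/-!
# Project BI, stage 3 (H): `π₂(GL₃) = 0`, relative to the boundary of a square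

Quaternions are pairs `q = (α, β) = α + β j`, acting on three-space by `rot α β` (`x ↦ q x q̄`).
-/

set_option autoImplicit false
set_option linter.unusedSimpArgs false

open scoped Manifold ContDiff Topology ComplexConjugate
open Set Pool.Agent.Helper65.Barb Pool.Agent.Helper18.BI

namespace Pool.Agent.Helper18.BI.H

/-- the product of quaternions -/
noncomputable def qm (p q : ℂ × ℂ) : ℂ × ℂ :=
  (p.1 * q.1 - p.2 * conj q.2, p.1 * q.2 + p.2 * conj q.1)

/-- the squared norm -/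
noncomputable def qn (p : ℂ × ℂ) : ℝ := Complex.normSq p.1 + Complex.normSq p.2

/-- the inverse -/
noncomputable def qi (p : ℂ × ℂ) : ℂ × ℂ :=
  (((qn p)⁻¹ : ℝ) * conj p.1, -(((qn p)⁻¹ : ℝ) * p.2))

theorem rot_qm (p q : ℂ × ℂ) (x : ℝ × ℂ) :
    rot (qm p q).1 (qm p q).2 x = rot p.1 p.2 (rot q.1 q.2 x) := by
  refine Prod.ext ?_ (Complex.ext ?_ ?_)
  all_goals
    simp only [rot, qm, Complex.normSq_apply, Complex.sub_re, Complex.sub_im, Complex.add_re,
      Complex.add_im, Complex.mul_re, Complex.mul_im, pow_two, Complex.conj_re, Complex.conj_im,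
      Complex.I_re, Complex.I_im, Complex.ofReal_re, Complex.ofReal_im, Complex.re_ofNat,
      Complex.im_ofNat, Complex.neg_re, Complex.neg_im, Prod.smul_fst, Prod.smul_snd, smul_eq_mul,
      map_neg, map_sub, map_add, map_mul, Complex.real_smul]
    ring

/-- Upper triangular matrices with upper left entry `1` and positive diagonal, in the basis
`(1, 0), (0, 1), (0, i)`. -/
def Tri (T : E3) : Prop :=
  T (1, 0) = (1, 0) ∧ (T (0, 1)).2.im = 0 ∧ 0 < (T (0, 1)).2.re ∧ 0 < (T (0, Complex.I)).2.im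

/-- A smooth map of the plane to `GL₃`, equal to `1` off the open square `(0,1) × (s₀, s₁)`. -/
def SqM (s₀ s₁ : ℝ) (M : ℝ × ℝ → E3) : Prop :=
  ContDiff ℝ ∞ M ∧ (∀ x v, M x v = 0 → v = 0) ∧
    ∀ x, x ∉ Ioo (0 : ℝ) 1 ×ˢ Ioo s₀ s₁ → M x = ContinuousLinearMap.id ℝ (ℝ × ℂ)

/-- **PI2A.** Matrices near `1` are products of a quaternion (rotation and scaling) and a triangular matrix.
Proof. Inverse function theorem for
`Ξ : (ℂ × ℂ) × (ℝ × ℝ × ℝ × ℝ × ℝ) → E3`, `Ξ (q, t) = rho q ∘ tri t`, where `rho q x = rot q.1 q.2 x` and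
`tri (b, c, d, e, f) (y, w) = (y + b w.re + d w.im, c w.re + e w.im + i f w.im)`, at
`((1, 0), (0, 1, 0, 0, 1))`, value `1`.  Both factors are smooth (`contDiff_clm_apply_iff`: it is enough that
`Ξ (·) x` is smooth for every `x`; this is polynomial, see `Helper65.Barb.contDiff_rot`).  The derivative in
direction `((α, β), (b, c, d, e, f))` sends `(y, w)` to
`(2 α.re y + 2 Im(conj β w), 2 α w - 2 i y β) + (b w.re + d w.im, c w.re + e w.im + i f w.im)`.  Both sides
have dimension `9` (`(ℂ × ℂ) × ℝ⁵`; `E3`: `finrank = 3 · 3`), so it suffices that it is injective: at `(1,0)`: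
`(2 α.re, -2 i β) = 0` gives `α.re = 0`, `β = 0`; at `(0,1)`: `(b, 2 α + c) = 0`, the imaginary part gives
`α.im = 0` (`c` real), so `α = 0`, `b = c = 0`; at `(0,i)`: `(d, e + i f) = 0`.
`ContDiffAt.toOpenPartialHomeomorph` / `HasStrictFDerivAt.to_localInverse` and `ContDiffAt.to_localInverse`:
a smooth local inverse `A ↦ (q A, t A)` near `1`; `τ A = tri (t A)`; by continuity `c, f > 0` and `q ≠ 0` near `1`,
and `ContDiffAt ℝ ∞` at `1` gives smoothness in a neighbourhood only for finite order: use instead that the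
inverse of the open partial homeomorphism is `ContDiffAt ℝ ∞` at every point of the target where the
derivative is invertible (`OpenPartialHomeomorph.contDiffAt_symm`), an open condition, as in `M_A0.lean`
(`StA0`; or apply `StA0` of `StA.lean` after identifying `E3` with `(ℂ × ℂ) × ℝ⁵` by a linear isomorphism,
`ContinuousLinearEquiv.ofFinrankEq`). -/
def StPI2A : Prop :=
  ∃ r > 0, ∃ q : E3 → ℂ × ℂ, ∃ τ : E3 → E3,
    ContDiffOn ℝ ∞ q (Metric.ball (ContinuousLinearMap.id ℝ (ℝ × ℂ)) r) ∧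
    ContDiffOn ℝ ∞ τ (Metric.ball (ContinuousLinearMap.id ℝ (ℝ × ℂ)) r) ∧
    q (ContinuousLinearMap.id ℝ (ℝ × ℂ)) = (1, 0) ∧
    τ (ContinuousLinearMap.id ℝ (ℝ × ℂ)) = ContinuousLinearMap.id ℝ (ℝ × ℂ) ∧
    ∀ A ∈ Metric.ball (ContinuousLinearMap.id ℝ (ℝ × ℂ)) r, q A ≠ 0 ∧ Tri (τ A) ∧
      ∀ x, rot (q A).1 (q A).2 (τ A x) = A x

/-- **PI2B.** Global decomposition.
Proof. Let `r, q, τ` be as in `PI2A`.  For `p ≠ 0` let `C_p A = rho (qi p) ∘ A ∘ rho p` (`rho p = rot p.1 p.2`,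
`rho (qi p) = (rho p)⁻¹` by `rot_qm`, `qm (qi p) p = (1,0)`).  `rho p` multiplies the Euclidean norm `√nsq` by
`qn p` (`nsq_rot`), and the norm of `ℝ × ℂ` (sup norm) is between `√nsq / √2` and `√nsq`, so
`‖C_p A - 1‖ ≤ 2 ‖A - 1‖`.  `M x` is invertible (injective in finite dimension), `x ↦ (M x)⁻¹` is continuous
(smooth: `ContinuousLinearMap.inverse`, `contDiffAt_map_inverse`), and `M` is uniformly continuous on compact
sets and `1` for `s ∉ (s₀, s₁)`; so there is `N ≥ 1` with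
`‖M (a, s) ∘ (M (b, s))⁻¹ - 1‖ < r / 2` for all `s` and all `a, b ∈ [-1, 2]` with `|a - b| ≤ 2 / N`.
For `u ∈ (-1, 2)` define recursively `Q₀ = (1,0)`, `T₀ = 1`,
`D_k = C_(Q_(k-1)) (M (k u/N, s) ∘ (M ((k-1) u/N, s))⁻¹)`, `Q_k = qm Q_(k-1) (q D_k)`, `T_k = τ D_k ∘ T_(k-1)`
(functions of `(u, s)`).  By induction `M (k u/N, s) = rho Q_k ∘ T_k`, `Q_k ≠ 0` (`qn (qm p q) = qn p qn q`),
`Tri T_k` (`Tri` is closed under composition), all smooth on `(-1,2) × ℝ`.  Let `Q = Q_N`, `T = T_N`: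
`M (u, s) = rho (Q (u,s)) ∘ T (u,s)`.  If `M (k u/N, s) = 1` for all `k ≤ N` then `Q = (1,0)`, `T = 1`; this
holds for `u ≤ 0` and for `s ∉ (s₀, s₁)`.  If `M (u,s) = 1` then `rho Q ∘ T = 1`: `rho Q (1,0) = (1,0)`, so
`qn Q = 1` and (`rot_diag`-like: `rot α β (1,0) = (|α|² - |β|², -2 i α β)`) `β = 0`; `rho Q (y, w) = (y, α² w)`,
and `T (0,1) = (b, c)`, `c > 0`, gives `(b, α² c) = (0, 1)`, so `α² = 1`, hence `Q = (±1, 0)` and `T = 1`.
On the connected set `[1, 2) × ℝ` we have `M = 1`, `Q` is continuous with values in `{(1,0), (-1,0)}` and equal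
to `(1,0)` at `s = s₀`: so `Q = (1,0)` there.  Extend by `(1, 0)` and `1` to `u ≥ 2` and `u ≤ -1`: smooth. -/
def StPI2B : Prop :=
  ∀ (s₀ s₁ : ℝ) (M : ℝ × ℝ → E3), s₀ < s₁ → SqM s₀ s₁ M →
    ∃ (Q : ℝ × ℝ → ℂ × ℂ) (T : ℝ × ℝ → E3), ContDiff ℝ ∞ Q ∧ ContDiff ℝ ∞ T ∧
      (∀ x, Q x ≠ 0) ∧ (∀ x, Tri (T x)) ∧ (∀ x v, rot (Q x).1 (Q x).2 (T x v) = M x v) ∧
      ∀ x, x ∉ Ioo (0 : ℝ) 1 ×ˢ Ioo s₀ s₁ →
        Q x = (1, 0) ∧ T x = ContinuousLinearMap.id ℝ (ℝ × ℂ)

/-- **PI2C.** `π₂(GL₃) = 0` relative to the boundary.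
Proof. `Q, T` from `PI2B`.  The image of `(r, x) ↦ r • Q x`, `ℝ × (ℝ × ℝ) → ℂ × ℂ`, is a null set
(`Pool.Agent.Helper34.BI.null_image`, dimensions `3 < 4`), so there is `p` such that `-p` is not in it; as
`Q = (1,0)` somewhere, `-p` is no real multiple of `(1,0)` either; `p ≠ 0` (`r = 0`).  For `t ∈ ℝ` and
`σ = step t ∈ [0,1]`:  `(1-σ) Q x + σ p ≠ 0` and `(1-σ) (1,0) + σ p ≠ 0` (if `(1-σ) Q x + σ p = 0`, then `σ ≠ 0`
because `Q x ≠ 0`, and `-p = ((1-σ)/σ) • Q x`).  Put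
`Q_t x = qm ((1-σ) Q x + σ p) (qi ((1-σ) (1,0) + σ p))`, `T_t x = (1-σ) T x + σ 1` (`Tri` is convex) and
`Γ (t, x) v = rot (Q_t x) (T_t x v)`.  At `t = 0`: `σ = 0`, `Q_t = Q`, `T_t = T`.  At `t = 1`: `σ = 1`,
`Q_t = qm p (qi p) = (1,0)`, `T_t = 1`.  Where `Q x = (1,0)`, `T x = 1`: `Q_t x = qm y (qi y) = (1,0)`, `T_t x = 1`.
Invertible: `nsq_rot` (`nsq (rot ..) = qn² nsq`, `qn ≠ 0`) and an upper triangular matrix with positive
diagonal is injective.  Smooth: composition of smooth maps (`qi` is smooth where `qn ≠ 0`). -/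
def StPI2 : Prop :=
  ∀ (s₀ s₁ : ℝ) (M : ℝ × ℝ → E3), s₀ < s₁ → SqM s₀ s₁ M →
    ∃ Γ : ℝ × ℝ × ℝ → E3, ContDiff ℝ ∞ Γ ∧ (∀ x v, Γ x v = 0 → v = 0) ∧
      (∀ x, Γ (0, x) = M x) ∧ (∀ x, Γ (1, x) = ContinuousLinearMap.id ℝ (ℝ × ℂ)) ∧
      ∀ t x, x ∉ Ioo (0 : ℝ) 1 ×ˢ Ioo s₀ s₁ → Γ (t, x) = ContinuousLinearMap.id ℝ (ℝ × ℂ)

end Pool.Agent.Helper18.BI.H


end

/-! ## Helper18.BI.H.M_PI2A -/

section

set_option autoImplicit false
set_option linter.unusedSimpArgs false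

/-!
# Project BI, module H-PI2A: local decomposition of matrices near the identity
-/

open scoped Manifold ContDiff Topology ComplexConjugate
open Set Pool.Agent.Helper65.Barb Pool.Agent.Helper18.BI

namespace Pool.Agent.Helper18.BI.H

namespace PI2A

/-- the parameter space -/
abbrev V0 : Type := (ℂ × ℂ) × (ℝ × ℝ × ℝ × ℝ × ℝ)

/-- the two real coordinates of the second factor -/
noncomputable def cre : (ℝ × ℂ) →L[ℝ] ℝ := Complex.reCLM.comp (ContinuousLinearMap.snd ℝ ℝ ℂ)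

noncomputable def cim : (ℝ × ℂ) →L[ℝ] ℝ := Complex.imCLM.comp (ContinuousLinearMap.snd ℝ ℝ ℂ)

noncomputable def inA (l : (ℝ × ℂ) →L[ℝ] ℝ) : E3 := l.prod 0

noncomputable def inB (l : (ℝ × ℂ) →L[ℝ] ℝ) : E3 :=
  ContinuousLinearMap.prod 0 (Complex.ofRealCLM.comp l)

noncomputable def inC (l : (ℝ × ℂ) →L[ℝ] ℝ) : E3 :=
  ContinuousLinearMap.prod 0 (Complex.I • (Complex.ofRealCLM.comp l))

/-- the triangular map -/
noncomputable def tri (t : ℝ × ℝ × ℝ × ℝ × ℝ) : E3 :=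
  inA (ContinuousLinearMap.fst ℝ ℝ ℂ) + t.1 • inA cre + t.2.1 • inB cre + t.2.2.1 • inA cim +
    t.2.2.2.1 • inB cim + t.2.2.2.2 • inC cim

theorem tri_apply (t : ℝ × ℝ × ℝ × ℝ × ℝ) (x : ℝ × ℂ) :
    tri t x = (x.1 + t.1 * x.2.re + t.2.2.1 * x.2.im,
      ⟨t.2.1 * x.2.re + t.2.2.2.1 * x.2.im, t.2.2.2.2 * x.2.im⟩) := by
  refine Prod.ext ?_ (Complex.ext ?_ ?_) <;>
    simp [tri, inA, inB, inC, cre, cim, Complex.reCLM_apply, Complex.imCLM_apply,
      Complex.ofRealCLM_apply]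

theorem contDiff_tri : ContDiff ℝ ∞ tri := by
  unfold tri
  fun_prop

/-- the rotation as a linear map -/
noncomputable def rhoL (q : ℂ × ℂ) : E3 :=
  LinearMap.toContinuousLinearMap
    { toFun := fun x => rot q.1 q.2 x
      map_add' := by
        intro x y
        refine Prod.ext ?_ ?_
        · simp only [rot, Prod.fst_add, Prod.snd_add, mul_add, Complex.add_im]
          ring
        · simp only [rot, Prod.fst_add, Prod.snd_add, map_add, Complex.ofReal_add]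
          ring
      map_smul' := by
        intro c x
        refine Prod.ext ?_ ?_
        · simp only [rot, Prod.smul_fst, Prod.smul_snd, smul_eq_mul, RingHom.id_apply,
            Complex.real_smul]
          have e : q.1 * conj q.2 * ((c : ℂ) * x.2) = (c : ℂ) * (q.1 * conj q.2 * x.2) := by ring
          rw [e, Complex.im_ofReal_mul]
          ring
        · simp only [rot, Prod.smul_fst, Prod.smul_snd, smul_eq_mul, RingHom.id_apply,
            Complex.real_smul, map_mul, Complex.conj_ofReal, Complex.ofReal_mul]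
          ring }

theorem rhoL_apply (q : ℂ × ℂ) (x : ℝ × ℂ) : rhoL q x = rot q.1 q.2 x := rfl

theorem contDiff_rhoL : ContDiff ℝ ∞ rhoL := by
  rw [contDiff_clm_apply_iff]
  intro x
  exact contDiff_rot contDiff_fst contDiff_snd contDiff_const

/-- the product -/
noncomputable def Xi (v : V0) : E3 := (rhoL v.1).comp (tri v.2)

theorem contDiff_Xi : ContDiff ℝ ∞ Xi :=
  (contDiff_rhoL.comp contDiff_fst).clm_comp (contDiff_tri.comp contDiff_snd)

theorem Xi_apply (v : V0) (x : ℝ × ℂ) : Xi v x = rot v.1.1 v.1.2 (tri v.2 x) := rfl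

/-- the base point -/
def p0 : V0 := ((1, 0), (0, 1, 0, 0, 1))

theorem Xi_p0 : Xi p0 = ContinuousLinearMap.id ℝ (ℝ × ℂ) := by
  ext x
  all_goals simp [Xi_apply, tri_apply, p0, rot]
  all_goals rfl

theorem hd {F : ℝ → ℝ} {F0 F1 : ℝ} {R : ℝ → ℝ} (hR : Continuous R)
    (h : ∀ s, F s = F0 + s * F1 + s ^ 2 * R s) (hF : HasDerivAt F 0 0) : F1 = 0 := by
  have h1 : HasDerivAt F F1 0 := by
    rw [hasDerivAt_iff_tendsto_slope]
    have h2 : Filter.Tendsto (fun s : ℝ => F1 + s * R s) (𝓝[≠] 0) (𝓝 F1) := by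
      have h3 : Filter.Tendsto (fun s : ℝ => F1 + s * R s) (𝓝 0) (𝓝 (F1 + 0 * R 0)) :=
        (continuous_const.add (continuous_id.mul hR)).tendsto 0
      rw [zero_mul, add_zero] at h3
      exact h3.mono_left nhdsWithin_le_nhds
    refine h2.congr' ?_
    filter_upwards [self_mem_nhdsWithin] with s hs
    have hs' : s ≠ 0 := hs
    rw [slope_def_field, h s, h 0]
    field_simp
    ring
  exact h1.unique hF

/-- if the derivative vanishes in the direction `w` then so do the derivatives of all coordinates -/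
theorem hder {w : V0} (hw : fderiv ℝ Xi p0 w = 0) (l : (ℝ × ℂ) →L[ℝ] ℝ) (x : ℝ × ℂ) :
    HasDerivAt (fun s : ℝ => l (Xi (p0 + s • w) x)) 0 0 := by
  have h1 : HasFDerivAt Xi (fderiv ℝ Xi p0) p0 :=
    (contDiff_Xi.differentiable (by simp)).differentiableAt.hasFDerivAt
  have h2 : HasDerivAt (fun s : ℝ => p0 + s • w) w 0 := by
    have := ((hasDerivAt_id (0 : ℝ)).smul_const w).const_add p0
    simpa using this
  have h3 : HasFDerivAt Xi (fderiv ℝ Xi p0) (p0 + (0 : ℝ) • w) := by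
    rw [zero_smul, add_zero]
    exact h1
  have h4 : HasDerivAt (fun s : ℝ => Xi (p0 + s • w)) (fderiv ℝ Xi p0 w) 0 :=
    HasFDerivAt.comp_hasDerivAt (f := fun s : ℝ => p0 + s • w) (0 : ℝ) h3 h2
  rw [hw] at h4
  have h5 : HasDerivAt (fun s : ℝ => Xi (p0 + s • w) x) ((0 : E3) x) 0 :=
    (ContinuousLinearMap.apply ℝ (ℝ × ℂ) x).hasFDerivAt.comp_hasDerivAt 0 h4
  have h6 : HasDerivAt (fun s : ℝ => l (Xi (p0 + s • w) x)) (l ((0 : E3) x)) 0 :=
    l.hasFDerivAt.comp_hasDerivAt (0 : ℝ) h5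
  rw [_root_.zero_apply, map_zero] at h6
  exact h6

theorem stage1 {a1 a2 b1 b2 b c d e f : ℝ}
    (hw : fderiv ℝ Xi p0 (((⟨a1, a2⟩ : ℂ), (⟨b1, b2⟩ : ℂ)), (b, c, d, e, f)) = 0) :
    a1 = 0 ∧ b1 = 0 ∧ b2 = 0 := by
  refine ⟨?_, ?_, ?_⟩
  · have h := hder hw (ContinuousLinearMap.fst ℝ ℝ ℂ) (1, 0)
    have h2 : 2 * a1 = 0 := by
      refine hd (F0 := 1) (R := fun _ => a1 ^ 2 + a2 ^ 2 - b1 ^ 2 - b2 ^ 2) continuous_const
        (fun s => ?_) h
      simp [Xi_apply, tri_apply, p0, rot, Complex.normSq_apply]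
      ring
    linarith
  · have h := hder hw cim (1, 0)
    have h2 : -2 * b1 = 0 := by
      refine hd (F0 := 0) (R := fun _ => -2 * (a1 * b1 - a2 * b2)) continuous_const
        (fun s => ?_) h
      simp [Xi_apply, tri_apply, p0, rot, Complex.normSq_apply, cim]
      ring
    linarith
  · have h := hder hw cre (1, 0)
    have h2 : 2 * b2 = 0 := by
      refine hd (F0 := 0) (R := fun _ => 2 * (a1 * b2 + a2 * b1)) continuous_const
        (fun s => ?_) h
      simp [Xi_apply, tri_apply, p0, rot, Complex.normSq_apply, cre]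
      ring
    linarith

theorem stage2 {a2 b c d e f : ℝ}
    (hw : fderiv ℝ Xi p0 (((⟨0, a2⟩ : ℂ), (⟨0, 0⟩ : ℂ)), (b, c, d, e, f)) = 0) :
    a2 = 0 ∧ b = 0 ∧ c = 0 := by
  refine ⟨?_, ?_, ?_⟩
  · have h := hder hw cim (0, 1)
    have h2 : 2 * a2 = 0 := by
      refine hd (F0 := 0) (R := fun _ => 2 * a2 * c) continuous_const (fun s => ?_) h
      simp [Xi_apply, tri_apply, p0, rot, Complex.normSq_apply, cim, pow_two]
      ring
    linarith
  · have h := hder hw (ContinuousLinearMap.fst ℝ ℝ ℂ) (0, 1)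
    refine hd (F0 := 0) (R := fun s => s * b * a2 ^ 2) (by fun_prop) (fun s => ?_) h
    simp [Xi_apply, tri_apply, p0, rot, Complex.normSq_apply]
    ring
  · have h := hder hw cre (0, 1)
    refine hd (F0 := 1) (R := fun s => -a2 ^ 2 * (1 + s * c)) (by fun_prop) (fun s => ?_) h
    simp [Xi_apply, tri_apply, p0, rot, Complex.normSq_apply, cre, pow_two]
    ring

theorem stage3 {d e f : ℝ}
    (hw : fderiv ℝ Xi p0 (((⟨0, 0⟩ : ℂ), (⟨0, 0⟩ : ℂ)), (0, 0, d, e, f)) = 0) :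
    d = 0 ∧ e = 0 ∧ f = 0 := by
  refine ⟨?_, ?_, ?_⟩
  · have h := hder hw (ContinuousLinearMap.fst ℝ ℝ ℂ) (0, Complex.I)
    refine hd (F0 := 0) (R := fun _ => 0) continuous_const (fun s => ?_) h
    simp [Xi_apply, tri_apply, p0, rot, Complex.normSq_apply]
  · have h := hder hw cre (0, Complex.I)
    refine hd (F0 := 0) (R := fun _ => 0) continuous_const (fun s => ?_) h
    simp [Xi_apply, tri_apply, p0, rot, Complex.normSq_apply, cre, pow_two]
  · have h := hder hw cim (0, Complex.I)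
    refine hd (F0 := 1) (R := fun _ => 0) continuous_const (fun s => ?_) h
    simp [Xi_apply, tri_apply, p0, rot, Complex.normSq_apply, cim, pow_two]

theorem inj {w : V0} (hw : fderiv ℝ Xi p0 w = 0) : w = 0 := by
  obtain ⟨⟨⟨a1, a2⟩, ⟨b1, b2⟩⟩, b, c, d, e, f⟩ := w
  obtain ⟨rfl, rfl, rfl⟩ := stage1 hw
  obtain ⟨rfl, rfl, rfl⟩ := stage2 hw
  obtain ⟨rfl, rfl, rfl⟩ := stage3 hw
  rfl

theorem finrank_eq : Module.finrank ℝ V0 = Module.finrank ℝ E3 := by
  have h1 : Module.finrank ℝ E3 = Module.finrank ℝ ((ℝ × ℂ) →ₗ[ℝ] (ℝ × ℂ)) :=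
    (LinearMap.toContinuousLinearMap (𝕜 := ℝ) (E := ℝ × ℂ) (F' := ℝ × ℂ)).finrank_eq.symm
  rw [h1, Module.finrank_linearMap]
  simp [Module.finrank_prod, Complex.finrank_real_complex]

end PI2A

open PI2A in
theorem m_PI2A : StPI2A := by
  have hfd : FiniteDimensional ℝ E3 := inferInstance
  let L : V0 ≃L[ℝ] E3 := ContinuousLinearEquiv.ofFinrankEq finrank_eq
  let F : E3 → E3 := fun A => Xi (L.symm A)
  have hF : ContDiff ℝ ∞ F := contDiff_Xi.comp L.symm.contDiff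
  have hloc : IsLocalDiffeomorphAt 𝓘(ℝ, E3) 𝓘(ℝ, E3) ∞ F (L p0) := by
    refine (m_A0 E3 F (L p0)).2 ⟨⟨univ, isOpen_univ, mem_univ _, hF.contDiffOn⟩, fun v hv => ?_⟩
    have h1 : HasFDerivAt Xi (fderiv ℝ Xi p0) (L.symm (L p0)) := by
      rw [L.symm_apply_apply]
      exact (contDiff_Xi.differentiable (by simp)).differentiableAt.hasFDerivAt
    have h2 : HasFDerivAt F ((fderiv ℝ Xi p0).comp (L.symm : E3 →L[ℝ] V0)) (L p0) :=
      h1.comp (L p0) L.symm.hasFDerivAt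
    rw [h2.fderiv] at hv
    have h3 : L.symm v = 0 := inj hv
    have h4 := congrArg L h3
    rwa [L.apply_symm_apply, map_zero] at h4
  obtain ⟨Φ, hp, hΦ⟩ := hloc
  let G : E3 → V0 := fun A => L.symm (Φ.invFun A)
  have hG1 : ContDiffOn ℝ ∞ Φ.invFun Φ.target := contMDiffOn_iff_contDiffOn.1 Φ.contMDiffOn_invFun
  have hG : ContDiffOn ℝ ∞ G Φ.target := L.symm.contDiff.comp_contDiffOn hG1
  have hF1 : F (L p0) = ContinuousLinearMap.id ℝ (ℝ × ℂ) := by
    change Xi (L.symm (L p0)) = _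
    rw [L.symm_apply_apply, Xi_p0]
  have hΦ1 : Φ.toFun (L p0) = ContinuousLinearMap.id ℝ (ℝ × ℂ) := by
    rw [← hF1]
    exact (hΦ hp).symm
  have h1t : ContinuousLinearMap.id ℝ (ℝ × ℂ) ∈ Φ.target := by
    rw [← hΦ1]
    exact Φ.map_source hp
  have hG0 : G (ContinuousLinearMap.id ℝ (ℝ × ℂ)) = p0 := by
    have h1 : Φ.invFun (ContinuousLinearMap.id ℝ (ℝ × ℂ)) = L p0 := by
      rw [← hΦ1]
      exact Φ.left_inv hp
    change L.symm (Φ.invFun _) = p0
    rw [h1, L.symm_apply_apply]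
  have hXG : ∀ A ∈ Φ.target, Xi (G A) = A := by
    intro A hA
    have h1 : F (Φ.invFun A) = Φ.toFun (Φ.invFun A) := hΦ (Φ.map_target hA)
    have h2 : Φ.toFun (Φ.invFun A) = A := Φ.right_inv hA
    rw [h2] at h1
    exact h1
  have hGc : ContinuousAt G (ContinuousLinearMap.id ℝ (ℝ × ℂ)) :=
    hG.continuousOn.continuousAt (Φ.open_target.mem_nhds h1t)
  have hev : ∀ᶠ v in 𝓝 p0, v.1 ≠ 0 ∧ 0 < v.2.2.1 ∧ 0 < v.2.2.2.2.2 := by
    refine Filter.Eventually.and ?_ (Filter.Eventually.and ?_ ?_)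
    · refine (continuous_fst.continuousAt (x := p0)).eventually_ne ?_
      intro h
      have := congrArg Prod.fst h
      simp [p0] at this
    · have hc : Continuous (fun v : V0 => v.2.2.1) := by fun_prop
      refine hc.continuousAt.eventually (lt_mem_nhds ?_)
      simp [p0]
    · have hc : Continuous (fun v : V0 => v.2.2.2.2.2) := by fun_prop
      refine hc.continuousAt.eventually (lt_mem_nhds ?_)
      simp [p0]
  rw [← hG0] at hev
  have hev2 := (hGc.eventually hev).and (Φ.open_target.mem_nhds h1t)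
  obtain ⟨r, hr, hball⟩ := Metric.eventually_nhds_iff_ball.1 hev2
  refine ⟨r, hr, fun A => (G A).1, fun A => PI2A.tri (G A).2, ?_, ?_, ?_, ?_, ?_⟩
  · exact contDiff_fst.comp_contDiffOn (hG.mono fun A hA => (hball A hA).2)
  · exact (PI2A.contDiff_tri.comp contDiff_snd).comp_contDiffOn (hG.mono fun A hA => (hball A hA).2)
  · change (G (ContinuousLinearMap.id ℝ (ℝ × ℂ))).1 = _
    rw [hG0]
    rfl
  · change PI2A.tri (G (ContinuousLinearMap.id ℝ (ℝ × ℂ))).2 = _
    rw [hG0]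
    ext x
    all_goals simp [PI2A.tri_apply, p0]
    all_goals rfl
  · intro A hA
    obtain ⟨⟨h1, h2, h3⟩, h4⟩ := hball A hA
    refine ⟨h1, ⟨?_, ?_, ?_, ?_⟩, fun x => ?_⟩
    · change PI2A.tri (G A).2 (1, 0) = _
      rw [PI2A.tri_apply]
      refine Prod.ext ?_ (Complex.ext ?_ ?_) <;> simp
    · change (PI2A.tri (G A).2 (0, 1)).2.im = 0
      rw [PI2A.tri_apply]
      simp
    · change 0 < (PI2A.tri (G A).2 (0, 1)).2.re
      rw [PI2A.tri_apply]
      simpa using h2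
    · change 0 < (PI2A.tri (G A).2 (0, Complex.I)).2.im
      rw [PI2A.tri_apply]
      simpa using h3
    · have h5 := hXG A h4
      have h6 := congrArg (fun B : E3 => B x) h5
      exact h6

end Pool.Agent.Helper18.BI.H


end

/-! ## Helper18.BI.H.M_PI2C -/

section

/-!
# Project BI, stage 3 (H), module PI2C: contraction of the lift
-/

set_option autoImplicit false
set_option linter.unusedSimpArgs false

open scoped Manifold ContDiff Topology ComplexConjugate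
open Set MeasureTheory Pool.Agent.Helper65.Barb Pool.Agent.Helper18.BI

namespace Pool.Agent.Helper18.BI.H

namespace PI2C

lemma qn_eq_zero {p : ℂ × ℂ} (h : qn p = 0) : p = 0 := by
  unfold qn at h
  have h1 := Complex.normSq_nonneg p.1
  have h2 := Complex.normSq_nonneg p.2
  refine Prod.ext (Complex.normSq_eq_zero.1 (by linarith)) (Complex.normSq_eq_zero.1 (by linarith))

lemma qn_ne {p : ℂ × ℂ} (h : p ≠ 0) : qn p ≠ 0 := fun h0 => h (qn_eq_zero h0)

lemma qn_qm (p q : ℂ × ℂ) : qn (qm p q) = qn p * qn q := by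
  simp only [qn, qm, Complex.normSq_apply, Complex.sub_re, Complex.sub_im, Complex.add_re,
    Complex.add_im, Complex.mul_re, Complex.mul_im, Complex.conj_re, Complex.conj_im]
  ring

lemma qm_qi {p : ℂ × ℂ} (h : qn p ≠ 0) : qm p (qi p) = (1, 0) := by
  have hc : ((qn p : ℝ) : ℂ) ≠ 0 := by exact_mod_cast h
  refine Prod.ext ?_ ?_
  · simp only [qm, qi, map_neg, map_mul, Complex.conj_ofReal]
    have h1 : p.1 * (((qn p)⁻¹ : ℝ) * conj p.1) - p.2 * -(((qn p)⁻¹ : ℝ) * conj p.2) =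
        ((qn p)⁻¹ : ℝ) * (p.1 * conj p.1 + p.2 * conj p.2) := by ring
    rw [h1, Complex.mul_conj, Complex.mul_conj, ← Complex.ofReal_add, ← Complex.ofReal_mul]
    change (((qn p)⁻¹ * qn p : ℝ) : ℂ) = 1
    rw [inv_mul_cancel₀ h]
    simp
  · simp only [qm, qi, map_neg, map_mul, Complex.conj_ofReal, Complex.conj_conj]
    ring

lemma qn_qi {p : ℂ × ℂ} (h : qn p ≠ 0) : qn (qi p) ≠ 0 := by
  intro h0
  have h1 := qn_qm p (qi p)
  rw [qm_qi h, h0, mul_zero] at h1
  simp [qn] at h1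

lemma qi_one : qi (1, 0) = (1, 0) := by
  simp [qi, qn]

lemma qm_one (p : ℂ × ℂ) : qm p (1, 0) = p := by
  simp [qm]

lemma nsq_eq_zero {x : ℝ × ℂ} (h : nsq x = 0) : x = 0 := by
  unfold nsq at h
  have h1 := sq_nonneg x.1
  have h2 := sq_nonneg x.2.re
  have h3 := sq_nonneg x.2.im
  refine Prod.ext (pow_eq_zero_iff (two_ne_zero) |>.1 (by linarith)) (Complex.ext ?_ ?_)
  · exact pow_eq_zero_iff (two_ne_zero) |>.1 (by linarith)
  · exact pow_eq_zero_iff (two_ne_zero) |>.1 (by linarith)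

lemma rot_inj {q : ℂ × ℂ} (h : qn q ≠ 0) {x : ℝ × ℂ} (hx : rot q.1 q.2 x = 0) : x = 0 := by
  have h1 := nsq_rot q.1 q.2 x
  rw [hx] at h1
  have h2 : nsq (0 : ℝ × ℂ) = 0 := by simp [nsq]
  rw [h2] at h1
  apply nsq_eq_zero
  rcases mul_eq_zero.1 h1.symm with h3 | h3
  · exact absurd (pow_eq_zero_iff (two_ne_zero) |>.1 h3) h
  · exact h3

/-- the rotation as a linear map -/
noncomputable def rotM (q : ℂ × ℂ) : (ℝ × ℂ) →ₗ[ℝ] (ℝ × ℂ) where
  toFun := rot q.1 q.2
  map_add' x y := by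
    refine Prod.ext ?_ (Complex.ext ?_ ?_)
    all_goals
      simp only [rot, Complex.normSq_apply, Complex.sub_re, Complex.sub_im, Complex.add_re,
        Complex.add_im, Complex.mul_re, Complex.mul_im, pow_two, Complex.conj_re, Complex.conj_im,
        Complex.I_re, Complex.I_im, Complex.ofReal_re, Complex.ofReal_im, Complex.re_ofNat,
        Complex.im_ofNat, Complex.neg_re, Complex.neg_im, Prod.fst_add, Prod.snd_add, map_add]
      ring
  map_smul' c x := by
    refine Prod.ext ?_ (Complex.ext ?_ ?_)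
    all_goals
      simp only [rot, Complex.normSq_apply, Complex.sub_re, Complex.sub_im, Complex.add_re,
        Complex.add_im, Complex.mul_re, Complex.mul_im, pow_two, Complex.conj_re, Complex.conj_im,
        Complex.I_re, Complex.I_im, Complex.ofReal_re, Complex.ofReal_im, Complex.re_ofNat,
        Complex.im_ofNat, Complex.neg_re, Complex.neg_im, Prod.smul_fst, Prod.smul_snd, smul_eq_mul,
        Complex.real_smul, RingHom.id_apply, map_mul, Complex.conj_ofReal]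
      ring

/-- every vector in the standard basis -/
lemma decomp (v : ℝ × ℂ) : v = v.1 • ((1 : ℝ), (0 : ℂ)) + v.2.re • ((0 : ℝ), (1 : ℂ)) +
    v.2.im • ((0 : ℝ), Complex.I) := by
  refine Prod.ext ?_ (Complex.ext ?_ ?_) <;> simp

lemma tri_inj {T : E3} (hT : Tri T) {v : ℝ × ℂ} (hv : T v = 0) : v = 0 := by
  obtain ⟨h1, h2, h3, h4⟩ := hT
  have e := congrArg T (decomp v)
  rw [map_add, map_add, map_smul, map_smul, map_smul, h1, hv] at e
  have e1 := congrArg (fun z : ℝ × ℂ => z.2.im) e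
  have e2 := congrArg (fun z : ℝ × ℂ => z.2.re) e
  have e3 := congrArg (fun z : ℝ × ℂ => z.1) e
  simp only [Prod.fst_add, Prod.snd_add, Prod.smul_fst, Prod.smul_snd, Complex.add_im,
    Complex.add_re, Complex.smul_im, Complex.smul_re, smul_eq_mul, h2, Prod.fst_zero,
    Prod.snd_zero, Complex.zero_im, Complex.zero_re, mul_zero, zero_add, add_zero, mul_one] at e1 e2 e3
  have i1 : v.2.im = 0 := by
    rcases mul_eq_zero.1 e1.symm with h | h
    · exact h
    · exact absurd h h4.ne'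
  rw [i1, zero_mul, add_zero] at e2 e3
  have i2 : v.2.re = 0 := by
    rcases mul_eq_zero.1 e2.symm with h | h
    · exact h
    · exact absurd h h3.ne'
  rw [i2, zero_mul, add_zero] at e3
  exact Prod.ext e3.symm (Complex.ext i2 i1)

lemma tri_conv {T : E3} (hT : Tri T) {σ : ℝ} (h0 : 0 ≤ σ) (h1 : σ ≤ 1) :
    Tri ((1 - σ) • T + σ • ContinuousLinearMap.id ℝ (ℝ × ℂ)) := by
  obtain ⟨t1, t2, t3, t4⟩ := hT
  refine ⟨?_, ?_, ?_, ?_⟩
  · simp only [_root_.add_apply, _root_.smul_apply, t1,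
      ContinuousLinearMap.id_apply]
    rw [← add_smul, sub_add_cancel, one_smul]
  · simp [t2]
  · simp only [_root_.add_apply, _root_.smul_apply,
      ContinuousLinearMap.id_apply, Prod.snd_add, Prod.smul_snd, Complex.add_re, Complex.smul_re,
      smul_eq_mul, Complex.one_re, mul_one]
    rcases h1.lt_or_eq with h | h
    · have := mul_pos (sub_pos.2 h) t3
      linarith
    · rw [h]; simp
  · simp only [_root_.add_apply, _root_.smul_apply,
      ContinuousLinearMap.id_apply, Prod.snd_add, Prod.smul_snd, Complex.add_im, Complex.smul_im,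
      smul_eq_mul, Complex.I_im, mul_one]
    rcases h1.lt_or_eq with h | h
    · have := mul_pos (sub_pos.2 h) t4
      linarith
    · rw [h]; simp

lemma exists_p {Q : ℝ × ℝ → ℂ × ℂ} (hQ : ContDiff ℝ ∞ Q) :
    ∃ p : ℂ × ℂ, ∀ (r : ℝ) (x : ℝ × ℝ), -p ≠ r • Q x := by
  have h1 : Module.finrank ℝ (ℝ × (ℝ × ℝ)) < Module.finrank ℝ (ℂ × ℂ) := by
    simp [Module.finrank_prod, Complex.finrank_real_complex]
  have h2 : DifferentiableOn ℝ (fun y : ℝ × (ℝ × ℝ) => y.1 • Q y.2) univ := by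
    apply Differentiable.differentiableOn
    exact (contDiff_fst.smul (hQ.comp contDiff_snd)).differentiable (by simp)
  have h3 := Pool.Agent.Helper34.BI.null_image (Measure.addHaar : Measure (ℂ × ℂ)) h1 h2
  have h4 : ∃ z : ℂ × ℂ, z ∉ (fun y : ℝ × (ℝ × ℝ) => y.1 • Q y.2) '' univ := by
    by_contra hcon
    push Not at hcon
    have h5 : (fun y : ℝ × (ℝ × ℝ) => y.1 • Q y.2) '' univ = univ := eq_univ_of_forall hcon
    rw [h5] at h3
    have h6 : (Measure.addHaar : Measure (ℂ × ℂ)) univ ≠ 0 := by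
      intro h0
      exact (isOpen_univ.measure_pos (Measure.addHaar : Measure (ℂ × ℂ)) univ_nonempty).ne' h0
    exact h6 h3
  obtain ⟨z, hz⟩ := h4
  refine ⟨-z, fun r x h => hz ⟨(r, x), mem_univ _, ?_⟩⟩
  rw [neg_neg] at h
  exact h.symm

section smooth
variable {F : Type} [NormedAddCommGroup F] [NormedSpace ℝ F]

lemma contDiff_qm {a b : F → ℂ × ℂ} (ha : ContDiff ℝ ∞ a) (hb : ContDiff ℝ ∞ b) :
    ContDiff ℝ ∞ (fun y => qm (a y) (b y)) := by
  unfold qm
  apply ContDiff.prodMk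
  · exact (ha.fst.mul hb.fst).sub (ha.snd.mul (Complex.conjCLE.contDiff.comp hb.snd))
  · exact (ha.fst.mul hb.snd).add (ha.snd.mul (Complex.conjCLE.contDiff.comp hb.fst))

lemma contDiff_nS {a : F → ℂ} (ha : ContDiff ℝ ∞ a) :
    ContDiff ℝ ∞ (fun y => Complex.normSq (a y)) := by
  simp only [Complex.normSq_apply]
  exact ((Complex.reCLM.contDiff.comp ha).mul (Complex.reCLM.contDiff.comp ha)).add
    ((Complex.imCLM.contDiff.comp ha).mul (Complex.imCLM.contDiff.comp ha))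

lemma contDiff_qi {a : F → ℂ × ℂ} (ha : ContDiff ℝ ∞ a) (h : ∀ y, qn (a y) ≠ 0) :
    ContDiff ℝ ∞ (fun y => qi (a y)) := by
  unfold qi
  have h1 : ContDiff ℝ ∞ (fun y => (qn (a y))⁻¹) := by
    apply ContDiff.inv _ h
    unfold qn
    exact (contDiff_nS ha.fst).add (contDiff_nS ha.snd)
  have h2 : ContDiff ℝ ∞ (fun y => (((qn (a y))⁻¹ : ℝ) : ℂ)) := Complex.ofRealCLM.contDiff.comp h1
  apply ContDiff.prodMk
  · exact h2.mul (Complex.conjCLE.contDiff.comp ha.fst)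
  · exact (h2.mul ha.snd).neg

end smooth

end PI2C

open PI2C

theorem m_PI2 (h : StPI2B) : StPI2 := by
  intro s₀ s₁ M hs hM
  obtain ⟨Q, T, hQ, hT, hQ0, hTri, hQT, hout⟩ := h s₀ s₁ M hs hM
  obtain ⟨p, hp⟩ := exists_p hQ
  let x₀ : ℝ × ℝ := (-1, 0)
  have hx₀ : x₀ ∉ Ioo (0 : ℝ) 1 ×ˢ Ioo s₀ s₁ := by
    intro hx
    have := hx.1.1
    simp only [x₀] at this
    linarith
  have hσ0 : ∀ t, 0 ≤ step t := fun t => Real.smoothTransition.nonneg t
  have hσ1 : ∀ t, step t ≤ 1 := fun t => Real.smoothTransition.le_one t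
  let y : ℝ → ℝ × ℝ → ℂ × ℂ := fun t x => (1 - step t) • Q x + step t • p
  have hy : ∀ t x, qn (y t x) ≠ 0 := by
    intro t x
    apply qn_ne
    intro h0
    simp only [y] at h0
    by_cases hσ : step t = 0
    · rw [hσ, sub_zero, one_smul, zero_smul, add_zero] at h0
      exact hQ0 x h0
    · apply hp ((step t)⁻¹ * (1 - step t)) x
      rw [mul_smul]
      have e1 : (1 - step t) • Q x = -(step t • p) := eq_neg_of_add_eq_zero_left h0
      rw [e1, smul_neg, smul_smul, inv_mul_cancel₀ hσ, one_smul]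
  let Qt : ℝ → ℝ × ℝ → ℂ × ℂ := fun t x => qm (y t x) (qi (y t x₀))
  let Tt : ℝ → ℝ × ℝ → E3 := fun t x => (1 - step t) • T x + step t •
    ContinuousLinearMap.id ℝ (ℝ × ℂ)
  have hQt : ∀ t x, qn (Qt t x) ≠ 0 := by
    intro t x
    simp only [Qt]
    rw [qn_qm]
    exact mul_ne_zero (hy t x) (qn_qi (hy t x₀))
  have hstep : ContDiff ℝ ∞ (fun z : ℝ × ℝ × ℝ => step z.1) :=
    Real.smoothTransition.contDiff.comp contDiff_fst
  have hys : ContDiff ℝ ∞ (fun z : ℝ × ℝ × ℝ => y z.1 z.2) :=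
    ((contDiff_const.sub hstep).smul (hQ.comp contDiff_snd)).add (hstep.smul contDiff_const)
  have hys0 : ContDiff ℝ ∞ (fun z : ℝ × ℝ × ℝ => y z.1 x₀) :=
    ((contDiff_const.sub hstep).smul contDiff_const).add (hstep.smul contDiff_const)
  have hQts : ContDiff ℝ ∞ (fun z : ℝ × ℝ × ℝ => Qt z.1 z.2) :=
    contDiff_qm hys (contDiff_qi hys0 (fun z => hy z.1 x₀))
  have hTts : ContDiff ℝ ∞ (fun z : ℝ × ℝ × ℝ => Tt z.1 z.2) :=
    ((contDiff_const.sub hstep).smul (hT.comp contDiff_snd)).add (hstep.smul contDiff_const)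
  let Γ : ℝ × ℝ × ℝ → E3 := fun z =>
    (LinearMap.toContinuousLinearMap (rotM (Qt z.1 z.2))).comp (Tt z.1 z.2)
  have hΓ : ∀ z v, Γ z v = rot (Qt z.1 z.2).1 (Qt z.1 z.2).2 (Tt z.1 z.2 v) := fun z v => rfl
  refine ⟨Γ, ?_, ?_, ?_, ?_, ?_⟩
  · rw [contDiff_clm_apply_iff]
    intro v
    simp only [hΓ]
    exact contDiff_rot hQts.fst hQts.snd (hTts.clm_apply contDiff_const)
  · intro z v hv
    rw [hΓ] at hv
    exact tri_inj (tri_conv (hTri z.2) (hσ0 z.1) (hσ1 z.1)) (rot_inj (hQt z.1 z.2) hv)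
  · intro x
    apply ContinuousLinearMap.ext
    intro v
    rw [hΓ]
    have e0 : step 0 = 0 := step_of_nonpos le_rfl
    have e1 : Qt 0 x = Q x := by
      simp only [Qt, y, e0, sub_zero, one_smul, zero_smul, add_zero]
      rw [(hout x₀ hx₀).1, qi_one, qm_one]
    have e2 : Tt 0 x = T x := by
      apply ContinuousLinearMap.ext
      intro v
      simp [Tt, e0]
    change rot (Qt 0 x).1 (Qt 0 x).2 (Tt 0 x v) = M x v
    rw [e1, e2]
    exact hQT x v
  · intro x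
    apply ContinuousLinearMap.ext
    intro v
    rw [hΓ]
    have e0 : step 1 = 1 := step_of_one_le le_rfl
    have e1 : Qt 1 x = (1, 0) := by
      have h1 := qm_qi (hy 1 x₀)
      simp only [Qt, y, e0, sub_self, one_smul, zero_smul, zero_add] at h1 ⊢
      exact h1
    have e2 : Tt 1 x = ContinuousLinearMap.id ℝ (ℝ × ℂ) := by
      apply ContinuousLinearMap.ext
      intro v
      simp [Tt, e0]
    change rot (Qt 1 x).1 (Qt 1 x).2 (Tt 1 x v) = _
    rw [e1, e2]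
    exact rot_one v
  · intro t x hx
    apply ContinuousLinearMap.ext
    intro v
    rw [hΓ]
    have e1 : Qt t x = (1, 0) := by
      have h1 := qm_qi (hy t x₀)
      simp only [Qt]
      have h2 : y t x = y t x₀ := by
        simp only [y]
        rw [(hout x hx).1, (hout x₀ hx₀).1]
      rw [h2]
      exact h1
    have e2 : Tt t x = ContinuousLinearMap.id ℝ (ℝ × ℂ) := by
      apply ContinuousLinearMap.ext
      intro v
      simp only [Tt]
      rw [(hout x hx).2]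
      simp only [_root_.add_apply, _root_.smul_apply, ContinuousLinearMap.id_apply]
      rw [← add_smul, sub_add_cancel, one_smul]
    change rot (Qt t x).1 (Qt t x).2 (Tt t x v) = _
    rw [e1, e2]
    exact rot_one v

end Pool.Agent.Helper18.BI.H


end

/-! ## Helper18.BI.H.M_PI2B -/

section

/-!
# Project BI, stage 3 (H), module PI2B: the quaternion lift of a map of a square to `GL₃`
-/

set_option autoImplicit false
set_option linter.unusedSimpArgs false

open scoped Manifold ContDiff Topology ComplexConjugate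
open Set Pool.Agent.Helper65.Barb Pool.Agent.Helper18.BI

namespace Pool.Agent.Helper18.BI.H

namespace PI2B

open PI2C

/-- the rotation with scaling, as a continuous linear map -/
noncomputable def rc (q : ℂ × ℂ) : E3 := (rotM q).toContinuousLinearMap

theorem rc_apply (q : ℂ × ℂ) (v : ℝ × ℂ) : rc q v = rot q.1 q.2 v := rfl

theorem rc_one : rc (1, 0) = 1 := by
  refine ContinuousLinearMap.ext fun v => ?_
  rw [rc_apply]
  exact rot_one v

theorem rc_qm (p q : ℂ × ℂ) : rc (qm p q) = rc p * rc q := by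
  refine ContinuousLinearMap.ext fun v => ?_
  exact rot_qm p q v

theorem rc_qi {p : ℂ × ℂ} (h : qn p ≠ 0) : rc p * rc (qi p) = 1 := by
  rw [← rc_qm, qm_qi h, rc_one]

theorem contDiff_rc : ContDiff ℝ ∞ rc := by
  rw [contDiff_clm_apply_iff]
  intro v
  exact contDiff_rot contDiff_fst contDiff_snd contDiff_const

theorem norm_sq_le (v : ℝ × ℂ) : ‖v‖ ^ 2 ≤ nsq v := by
  have h1 : ‖v.2‖ ^ 2 = v.2.re ^ 2 + v.2.im ^ 2 := by
    rw [Complex.sq_norm, Complex.normSq_apply]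
    ring
  have h2 : ‖v.1‖ ^ 2 = v.1 ^ 2 := by
    rw [Real.norm_eq_abs, sq_abs]
  rw [Prod.norm_def]
  unfold nsq
  rcases le_total ‖v.1‖ ‖v.2‖ with h | h
  · rw [max_eq_right h, h1]
    nlinarith [sq_nonneg v.1]
  · rw [max_eq_left h, h2]
    nlinarith [sq_nonneg v.2.re, sq_nonneg v.2.im]

theorem le_norm_sq (v : ℝ × ℂ) : nsq v ≤ 2 * ‖v‖ ^ 2 := by
  have h1 : ‖v.2‖ ^ 2 = v.2.re ^ 2 + v.2.im ^ 2 := by
    rw [Complex.sq_norm, Complex.normSq_apply]
    ring
  have h2 : ‖v.1‖ ^ 2 = v.1 ^ 2 := by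
    rw [Real.norm_eq_abs, sq_abs]
  have h3 : ‖v.1‖ ≤ ‖v‖ := norm_fst_le v
  have h4 : ‖v.2‖ ≤ ‖v‖ := norm_snd_le v
  have h5 : ‖v.1‖ ^ 2 ≤ ‖v‖ ^ 2 := pow_le_pow_left₀ (norm_nonneg _) h3 2
  have h6 : ‖v.2‖ ^ 2 ≤ ‖v‖ ^ 2 := pow_le_pow_left₀ (norm_nonneg _) h4 2
  unfold nsq
  linarith

theorem qn_nonneg (p : ℂ × ℂ) : 0 ≤ qn p :=
  add_nonneg (Complex.normSq_nonneg _) (Complex.normSq_nonneg _)

theorem norm_conj {p : ℂ × ℂ} (h : qn p ≠ 0) (A : E3) :
    ‖rc (qi p) * A * rc p‖ ≤ 2 * ‖A‖ := by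
  refine ContinuousLinearMap.opNorm_le_bound _ (by positivity) fun v => ?_
  have hq : qn (qi p) * qn p = 1 := by
    rw [mul_comm, ← qn_qm, qm_qi h]
    simp [qn]
  set w : ℝ × ℂ := rc p v with hw
  have h1 : ‖w‖ ^ 2 ≤ qn p ^ 2 * (2 * ‖v‖ ^ 2) := by
    refine (norm_sq_le w).trans ?_
    rw [hw, rc_apply, nsq_rot]
    exact mul_le_mul_of_nonneg_left (le_norm_sq v) (sq_nonneg _)
  have h2 : ‖A w‖ ≤ ‖A‖ * ‖w‖ := A.le_opNorm w
  have h3 : ‖rc (qi p) (A w)‖ ^ 2 ≤ qn (qi p) ^ 2 * (2 * ‖A w‖ ^ 2) := by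
    refine (norm_sq_le _).trans ?_
    rw [rc_apply, nsq_rot]
    exact mul_le_mul_of_nonneg_left (le_norm_sq _) (sq_nonneg _)
  have h4 : ‖A w‖ ^ 2 ≤ ‖A‖ ^ 2 * ‖w‖ ^ 2 := by
    rw [← mul_pow]
    exact pow_le_pow_left₀ (norm_nonneg _) h2 2
  have h5 : ‖rc (qi p) (A w)‖ ^ 2 ≤ (2 * ‖A‖ * ‖v‖) ^ 2 := by
    calc ‖rc (qi p) (A w)‖ ^ 2 ≤ qn (qi p) ^ 2 * (2 * ‖A w‖ ^ 2) := h3
      _ ≤ qn (qi p) ^ 2 * (2 * (‖A‖ ^ 2 * (qn p ^ 2 * (2 * ‖v‖ ^ 2)))) := by
          refine mul_le_mul_of_nonneg_left ?_ (sq_nonneg _)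
          refine mul_le_mul_of_nonneg_left ?_ (by norm_num)
          exact h4.trans (mul_le_mul_of_nonneg_left h1 (sq_nonneg _))
      _ = (qn (qi p) * qn p) ^ 2 * (2 * ‖A‖ * ‖v‖) ^ 2 := by ring
      _ = (2 * ‖A‖ * ‖v‖) ^ 2 := by rw [hq]; ring
  have h6 := abs_le_of_sq_le_sq h5 (by positivity)
  show ‖rc (qi p) (A w)‖ ≤ 2 * ‖A‖ * ‖v‖
  exact (le_abs_self _).trans h6

theorem rc_qi' {p : ℂ × ℂ} (h : qn p ≠ 0) : rc (qi p) * rc p = 1 := by
  have h1 := rc_qi h
  have h2 := rc_qi (qn_qi h)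
  -- the right inverse of the right inverse
  calc rc (qi p) * rc p = rc (qi p) * rc p * (rc (qi p) * rc (qi (qi p))) := by rw [h2, mul_one]
    _ = rc (qi p) * (rc p * rc (qi p)) * rc (qi (qi p)) := by simp only [mul_assoc]
    _ = 1 := by rw [h1, mul_one, h2]

theorem isUnit_of_inj {A : E3} (h : ∀ v, A v = 0 → v = 0) : IsUnit A := by
  have hinj : Function.Injective (A : (ℝ × ℂ) →ₗ[ℝ] (ℝ × ℂ)) :=
    (injective_iff_map_eq_zero _).2 h
  let e := (LinearEquiv.ofInjectiveEndo (A : (ℝ × ℂ) →ₗ[ℝ] (ℝ × ℂ)) hinj).toContinuousLinearEquiv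
  have he : (e : E3) = A := by
    refine ContinuousLinearMap.ext fun v => ?_
    rfl
  refine ⟨⟨(e : E3), (e.symm : E3), ?_, ?_⟩, he⟩
  · refine ContinuousLinearMap.ext fun v => ?_
    exact e.apply_symm_apply v
  · refine ContinuousLinearMap.ext fun v => ?_
    exact e.symm_apply_apply v

theorem tri_one : Tri (1 : E3) := by
  refine ⟨rfl, ?_, ?_, ?_⟩ <;> simp

theorem tri_mul {S T : E3} (hS : Tri S) (hT : Tri T) : Tri (S * T) := by
  obtain ⟨s1, s2, s3, s4⟩ := hS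
  obtain ⟨t1, t2, t3, t4⟩ := hT
  have key : ∀ v : ℝ × ℂ, S v = v.1 • ((1 : ℝ), (0 : ℂ)) + v.2.re • S (0, 1)
      + v.2.im • S (0, Complex.I) := by
    intro v
    conv_lhs => rw [decomp v]
    rw [map_add, map_add, map_smul, map_smul, map_smul, s1]
  refine ⟨?_, ?_, ?_, ?_⟩
  · show S (T (1, 0)) = (1, 0)
    rw [t1, s1]
  · show (S (T (0, 1))).2.im = 0
    rw [key (T (0, 1)), t2]
    simp [s2]
  · show 0 < (S (T (0, 1))).2.re
    rw [key (T (0, 1)), t2]
    simp only [zero_smul, add_zero, Prod.snd_add, Prod.smul_snd, smul_zero, zero_add,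
      Complex.smul_re, smul_eq_mul]
    exact mul_pos t3 s3
  · show 0 < (S (T (0, Complex.I))).2.im
    rw [key (T (0, Complex.I))]
    simp only [Prod.snd_add, Prod.smul_snd, smul_zero, zero_add, Complex.add_im,
      Complex.smul_im, smul_eq_mul, s2, mul_zero]
    exact mul_pos t4 s4

/-- a decomposition of the identity -/
theorem rc_tri_one {q : ℂ × ℂ} {T : E3} (hT : Tri T) (h : rc q * T = 1) :
    (q = (1, 0) ∨ q = (-1, 0)) ∧ T = 1 := by
  obtain ⟨t1, t2, t3, t4⟩ := hT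
  obtain ⟨α, β⟩ := q
  have e1 : rot α β (1, 0) = (1, 0) := by
    have : rc (α, β) (T (1, 0)) = (1, 0) := congrArg (fun A : E3 => A (1, 0)) h
    rw [t1] at this
    exact this
  have e2 : Complex.normSq α - Complex.normSq β = 1 := by
    have := congrArg Prod.fst e1
    simpa [rot] using this
  have e3 : α * β = 0 := by
    have := congrArg Prod.snd e1
    simp only [rot] at this
    have h2 : (2 * Complex.I) * (α * β) = 0 := by
      simp only [mul_zero, map_zero, add_zero, Complex.ofReal_one, mul_one, zero_sub, neg_eq_zero]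
        at this
      rw [← this]
      ring
    exact (mul_eq_zero.1 h2).resolve_left (by simp)
  have hα : α ≠ 0 := by
    rintro rfl
    have := Complex.normSq_nonneg β
    simp at e2
    linarith
  have hβ : β = 0 := (mul_eq_zero.1 e3).resolve_left hα
  subst hβ
  have hn : Complex.normSq α = 1 := by simpa using e2
  have hT : ∀ v, ((T v).1, α ^ 2 * (T v).2) = v := by
    intro v
    have : rot α 0 (T v) = v := congrArg (fun A : E3 => A v) h
    rw [rot_diag hn] at this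
    exact this
  have hα2 : α ^ 2 = 1 := by
    have h1 := congrArg Prod.snd (hT (0, 1))
    simp only at h1
    have hc : (T (0, 1)).2 = (((T (0, 1)).2.re : ℝ) : ℂ) := by
      apply Complex.ext
      · simp
      · simp [t2]
    rw [hc] at h1
    have h2 := congrArg Complex.normSq h1
    rw [map_mul, map_pow, hn, Complex.normSq_ofReal, one_pow, one_mul, map_one] at h2
    have h3 : (T (0, 1)).2.re = 1 := by nlinarith
    rw [h3] at h1
    simpa using h1
  refine ⟨?_, ?_⟩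
  · rcases (mul_self_eq_one_iff (a := α)).1 (by rw [← pow_two]; exact hα2) with h | h
    · left; rw [h]
    · right; rw [h]
  · refine ContinuousLinearMap.ext fun v => ?_
    have := hT v
    rw [hα2, one_mul] at this
    exact this

/-- a bounded reparametrization of the line -/
noncomputable def gg (u : ℝ) : ℝ :=
  u * (step (2 - u) + step (1 + u) - 1) + 2 * (1 - step (2 - u)) - (1 - step (1 + u))

theorem contDiff_gg : ContDiff ℝ ∞ gg := by
  have h1 : ContDiff ℝ ∞ (fun u : ℝ => step (2 - u)) :=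
    Real.smoothTransition.contDiff.comp (contDiff_const.sub contDiff_id)
  have h2 : ContDiff ℝ ∞ (fun u : ℝ => step (1 + u)) :=
    Real.smoothTransition.contDiff.comp (contDiff_const.add contDiff_id)
  unfold gg
  exact ((contDiff_id.mul ((h1.add h2).sub contDiff_const)).add
    (contDiff_const.mul (contDiff_const.sub h1))).sub (contDiff_const.sub h2)

theorem gg_mid {u : ℝ} (h0 : 0 ≤ u) (h1 : u ≤ 1) : gg u = u := by
  unfold gg
  rw [step_of_one_le (by linarith : 1 ≤ 2 - u), step_of_one_le (by linarith : 1 ≤ 1 + u)]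
  ring

theorem gg_nonpos {u : ℝ} (h : u ≤ 0) : gg u ≤ 0 ∧ -2 ≤ gg u := by
  have h0 : 0 ≤ step (1 + u) := Real.smoothTransition.nonneg _
  have h1 : step (1 + u) ≤ 1 := Real.smoothTransition.le_one _
  unfold gg
  rw [step_of_one_le (by linarith : 1 ≤ 2 - u)]
  rcases le_total u (-1) with h2 | h2
  · rw [step_of_nonpos (by linarith : 1 + u ≤ 0)]
    constructor <;> linarith
  · constructor <;> nlinarith

theorem gg_one_le {u : ℝ} (h : 1 ≤ u) : 1 ≤ gg u ∧ gg u ≤ 2 := by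
  have h0 : 0 ≤ step (2 - u) := Real.smoothTransition.nonneg _
  have h1 : step (2 - u) ≤ 1 := Real.smoothTransition.le_one _
  unfold gg
  rw [step_of_one_le (by linarith : 1 ≤ 1 + u)]
  rcases le_total 2 u with h2 | h2
  · rw [step_of_nonpos (by linarith : 2 - u ≤ 0)]
    constructor <;> linarith
  · constructor <;> nlinarith

theorem abs_gg (u : ℝ) : |gg u| ≤ 2 := by
  rcases le_total u 0 with h | h
  · have := gg_nonpos h
    rw [abs_le]
    constructor <;> linarith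
  · rcases le_total u 1 with h1 | h1
    · rw [gg_mid h h1, abs_le]
      constructor <;> linarith
    · have := gg_one_le h1
      rw [abs_le]
      constructor <;> linarith

/-- the recursion -/
noncomputable def seqQ (q : E3 → ℂ × ℂ) (τ : E3 → E3) (A : ℕ → ℝ × ℝ → E3) :
    ℕ → ℝ × ℝ → (ℂ × ℂ) × E3
  | 0 => fun _ => ((1, 0), 1)
  | k + 1 => fun x =>
      (qm (seqQ q τ A k x).1 (q (rc (qi (seqQ q τ A k x).1) *
          (A (k + 1) x * Ring.inverse (A k x)) * rc (seqQ q τ A k x).1)),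
        τ (rc (qi (seqQ q τ A k x).1) *
          (A (k + 1) x * Ring.inverse (A k x)) * rc (seqQ q τ A k x).1) * (seqQ q τ A k x).2)

theorem seqQ_one {q : E3 → ℂ × ℂ} {τ : E3 → E3} {A : ℕ → ℝ × ℝ → E3} (hq1 : q 1 = (1, 0))
    (hτ1 : τ 1 = 1) {x : ℝ × ℝ} {N : ℕ} (h : ∀ k ≤ N, A k x = 1) :
    ∀ k ≤ N, seqQ q τ A k x = ((1, 0), 1) := by
  intro k
  induction k with
  | zero => intro _; rfl
  | succ k ih =>
    intro hk
    have hk' : k ≤ N := by omega
    have e := ih hk'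
    rw [seqQ]
    beta_reduce
    rw [e, h k hk', h (k + 1) hk]
    simp only [Ring.inverse_one, mul_one, qi_one, rc_one, one_mul, hq1, hτ1, qm_one]

theorem seqQ_main {r : ℝ} {q : E3 → ℂ × ℂ} {τ : E3 → E3}
    (hq : ContDiffOn ℝ ∞ q (Metric.ball 1 r)) (hτ : ContDiffOn ℝ ∞ τ (Metric.ball 1 r))
    (hA : ∀ B ∈ Metric.ball (1 : E3) r, q B ≠ 0 ∧ Tri (τ B) ∧ rc (q B) * τ B = B)
    {A : ℕ → ℝ × ℝ → E3} (hA0 : ∀ x, A 0 x = 1) (hAs : ∀ k, ContDiff ℝ ∞ (A k))
    (hAu : ∀ k x, IsUnit (A k x)) {N : ℕ}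
    (hst : ∀ k < N, ∀ x, ‖A (k + 1) x * Ring.inverse (A k x) - 1‖ < r / 2) :
    ∀ k ≤ N, ContDiff ℝ ∞ (seqQ q τ A k) ∧ ∀ x, (seqQ q τ A k x).1 ≠ 0 ∧
      Tri (seqQ q τ A k x).2 ∧ rc (seqQ q τ A k x).1 * (seqQ q τ A k x).2 = A k x := by
  intro k
  induction k with
  | zero =>
    intro _
    refine ⟨contDiff_const, fun x => ⟨?_, tri_one, ?_⟩⟩
    · show ((1 : ℂ), (0 : ℂ)) ≠ 0
      intro h
      exact one_ne_zero (congrArg Prod.fst h)
    · show rc (1, 0) * 1 = A 0 x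
      rw [rc_one, hA0, one_mul]
  | succ k ih =>
    intro hk
    obtain ⟨hs, hx⟩ := ih (by omega)
    have hqn : ∀ x, qn (seqQ q τ A k x).1 ≠ 0 := fun x => qn_ne (hx x).1
    set D : ℝ × ℝ → E3 := fun x => rc (qi (seqQ q τ A k x).1) *
      (A (k + 1) x * Ring.inverse (A k x)) * rc (seqQ q τ A k x).1 with hD
    have hDb : ∀ x, D x ∈ Metric.ball (1 : E3) r := by
      intro x
      rw [mem_ball_iff_norm]
      have e : D x - 1 = rc (qi (seqQ q τ A k x).1) *
          (A (k + 1) x * Ring.inverse (A k x) - 1) * rc (seqQ q τ A k x).1 := by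
        rw [mul_sub, sub_mul, mul_one, rc_qi' (hqn x)]
      rw [e]
      have h1 := norm_conj (hqn x) (A (k + 1) x * Ring.inverse (A k x) - 1)
      have h2 := hst k (by omega) x
      linarith
    have hinv : ContDiff ℝ ∞ (fun x => Ring.inverse (A k x)) := by
      rw [contDiff_iff_contDiffAt]
      intro x
      obtain ⟨U, hU⟩ := hAu k x
      have := contDiffAt_ringInverse (n := ∞) ℝ U
      rw [hU] at this
      exact this.comp x (hAs k).contDiffAt
    have hDs : ContDiff ℝ ∞ D := by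
      have h1 : ContDiff ℝ ∞ (fun x => rc (qi (seqQ q τ A k x).1)) :=
        contDiff_rc.comp (contDiff_qi hs.fst hqn)
      have h2 : ContDiff ℝ ∞ (fun x => rc (seqQ q τ A k x).1) := contDiff_rc.comp hs.fst
      exact (h1.mul ((hAs (k + 1)).mul hinv)).mul h2
    have hqD : ContDiff ℝ ∞ (fun x => q (D x)) := hq.comp_contDiff hDs hDb
    have hτD : ContDiff ℝ ∞ (fun x => τ (D x)) := hτ.comp_contDiff hDs hDb
    refine ⟨?_, fun x => ?_⟩
    · show ContDiff ℝ ∞ (fun x => (qm (seqQ q τ A k x).1 (q (D x)),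
        τ (D x) * (seqQ q τ A k x).2))
      exact (contDiff_qm hs.fst hqD).prodMk (hτD.mul hs.snd)
    · show qm (seqQ q τ A k x).1 (q (D x)) ≠ 0 ∧ Tri (τ (D x) * (seqQ q τ A k x).2) ∧
        rc (qm (seqQ q τ A k x).1 (q (D x))) * (τ (D x) * (seqQ q τ A k x).2) = A (k + 1) x
      obtain ⟨a1, a2, a3⟩ := hA (D x) (hDb x)
      obtain ⟨b1, b2, b3⟩ := hx x
      refine ⟨?_, tri_mul a2 b2, ?_⟩
      · intro h0
        have h1 := qn_qm (seqQ q τ A k x).1 (q (D x))
        rw [h0] at h1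
        have h2 : qn (0 : ℂ × ℂ) = 0 := by simp [qn]
        rw [h2] at h1
        exact mul_ne_zero (hqn x) (qn_ne a1) h1.symm
      · rw [rc_qm]
        calc rc (seqQ q τ A k x).1 * rc (q (D x)) * (τ (D x) * (seqQ q τ A k x).2)
            = rc (seqQ q τ A k x).1 * (rc (q (D x)) * τ (D x)) * (seqQ q τ A k x).2 := by
              simp only [mul_assoc]
          _ = (rc (seqQ q τ A k x).1 * rc (qi (seqQ q τ A k x).1)) *
                (A (k + 1) x * Ring.inverse (A k x)) *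
                (rc (seqQ q τ A k x).1 * (seqQ q τ A k x).2) := by
              rw [a3, hD]
              simp only [mul_assoc]
          _ = A (k + 1) x := by
              rw [rc_qi (hqn x), b3, one_mul, mul_assoc, Ring.inverse_mul_cancel _ (hAu k x),
                mul_one]

/-- uniform continuity -/
theorem exists_N {s₀ s₁ r : ℝ} {M : ℝ × ℝ → E3} (hM : SqM s₀ s₁ M) (hr : 0 < r) :
    ∃ N : ℕ, 0 < N ∧ ∀ a b s : ℝ, |a| ≤ 2 → |b| ≤ 2 → |a - b| ≤ 2 / N →
      ‖M (a, s) * Ring.inverse (M (b, s)) - 1‖ < r := by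
  obtain ⟨hM1, hM2, hM3⟩ := hM
  have hinv : Continuous (fun x => Ring.inverse (M x)) := by
    rw [continuous_iff_continuousAt]
    intro x
    obtain ⟨U, hU⟩ := isUnit_of_inj (hM2 x)
    have := (contDiffAt_ringInverse (n := ∞) ℝ U).continuousAt
    rw [hU] at this
    exact ContinuousAt.comp (f := M) this hM1.continuous.continuousAt
  let F : ℝ × ℝ × ℝ → E3 := fun z => M (z.1, z.2.2) * Ring.inverse (M (z.2.1, z.2.2))
  have hF : Continuous F := by
    have h1 : Continuous (fun z : ℝ × ℝ × ℝ => M (z.1, z.2.2)) :=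
      hM1.continuous.comp (by fun_prop)
    have h2 : Continuous (fun z : ℝ × ℝ × ℝ => Ring.inverse (M (z.2.1, z.2.2))) :=
      hinv.comp (by fun_prop : Continuous fun z : ℝ × ℝ × ℝ => (z.2.1, z.2.2))
    exact h1.mul h2
  have hK : IsCompact (Icc (-2 : ℝ) 2 ×ˢ Icc (-2 : ℝ) 2 ×ˢ Icc s₀ s₁) :=
    isCompact_Icc.prod (isCompact_Icc.prod isCompact_Icc)
  have hU := hK.uniformContinuousOn_of_continuous hF.continuousOn
  rw [Metric.uniformContinuousOn_iff] at hU
  obtain ⟨δ, hδ, hU⟩ := hU r hr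
  obtain ⟨N, hN⟩ := exists_nat_gt (2 / δ)
  have hNpos : (0 : ℝ) < N := lt_trans (by positivity) hN
  refine ⟨N, by exact_mod_cast hNpos, fun a b s ha hb hab => ?_⟩
  by_cases hs : s ∈ Icc s₀ s₁
  · have ha' : a ∈ Icc (-2 : ℝ) 2 := abs_le.1 ha
    have hb' : b ∈ Icc (-2 : ℝ) 2 := abs_le.1 hb
    have hlt : 2 / (N : ℝ) < δ := by
      rw [div_lt_iff₀ hNpos]
      rw [div_lt_iff₀ hδ] at hN
      linarith
    have h1 := hU (a, b, s) ⟨ha', hb', hs⟩ (b, b, s) ⟨hb', hb', hs⟩ (by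
      rw [Prod.dist_eq, dist_self]
      simp only [Real.dist_eq]
      rw [max_lt_iff]
      exact ⟨lt_of_le_of_lt hab hlt, hδ⟩)
    have h2 : F (b, b, s) = 1 := Ring.mul_inverse_cancel _ (isUnit_of_inj (hM2 _))
    rw [h2, dist_eq_norm] at h1
    exact h1
  · have e : ∀ c, M (c, s) = 1 := fun c => hM3 _ fun h => hs ⟨h.2.1.le, h.2.2.le⟩
    rw [e, e]
    simpa using hr

end PI2B

open PI2C PI2B

theorem m_PI2B (h : StPI2A) : StPI2B := by
  obtain ⟨r, hr, q, τ, hq, hτ, hq1, hτ1, hA⟩ := h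
  intro s₀ s₁ M hs hM
  obtain ⟨N, hN0, hN⟩ := exists_N hM (half_pos hr)
  obtain ⟨hM1, hM2, hM3⟩ := hM
  have hNpos : (0 : ℝ) < N := by exact_mod_cast hN0
  let A : ℕ → ℝ × ℝ → E3 := fun k x => M (k * gg x.1 / N, x.2)
  have hA0 : ∀ x, A 0 x = 1 := by
    intro x
    simp only [A, Nat.cast_zero, zero_mul, zero_div]
    exact hM3 _ fun h => lt_irrefl _ h.1.1
  have hAs : ∀ k, ContDiff ℝ ∞ (A k) := by
    intro k
    refine hM1.comp (ContDiff.prodMk ?_ contDiff_snd)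
    exact (contDiff_const.mul (contDiff_gg.comp contDiff_fst)).div_const _
  have hAu : ∀ k x, IsUnit (A k x) := fun k x => isUnit_of_inj (hM2 _)
  have hst : ∀ k < N, ∀ x, ‖A (k + 1) x * Ring.inverse (A k x) - 1‖ < r / 2 := by
    intro k hk x
    have hg := abs_gg x.1
    have hb : ∀ j : ℕ, j ≤ N → |(j : ℝ) * gg x.1 / N| ≤ 2 := by
      intro j hj
      rw [abs_div, abs_mul, Nat.abs_cast, Nat.abs_cast, div_le_iff₀ hNpos]
      have : (j : ℝ) ≤ N := by exact_mod_cast hj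
      nlinarith [abs_nonneg (gg x.1)]
    refine hN _ _ _ (hb (k + 1) hk) (hb k hk.le) ?_
    have e : ((k + 1 : ℕ) : ℝ) * gg x.1 / N - k * gg x.1 / N = gg x.1 / N := by
      push_cast
      ring
    rw [e, abs_div, Nat.abs_cast]
    gcongr
  have main := seqQ_main hq hτ (fun B hB => ?_) hA0 hAs hAu hst N le_rfl
  swap
  · obtain ⟨h1, h2, h3⟩ := hA B hB
    exact ⟨h1, h2, ContinuousLinearMap.ext fun v => h3 v⟩
  obtain ⟨hsm, hx⟩ := main
  have hAN : ∀ x, A N x = M x := by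
    intro x
    have e : (N : ℝ) * gg x.1 / N = gg x.1 := by field_simp
    simp only [A]
    rw [e]
    rcases le_or_gt x.1 0 with h0 | h0
    · have h1 : M (gg x.1, x.2) = 1 := hM3 _ fun h => absurd h.1.1 (not_lt.2 (gg_nonpos h0).1)
      have h2 : M x = 1 := hM3 _ fun h => absurd h.1.1 (not_lt.2 h0)
      rw [h1, h2]
    · rcases le_or_gt 1 x.1 with h1 | h1
      · have h2 : M (gg x.1, x.2) = 1 := hM3 _ fun h => absurd h.1.2 (not_lt.2 (gg_one_le h1).1)
        have h3 : M x = 1 := hM3 _ fun h => absurd h.1.2 (not_lt.2 h1)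
        rw [h2, h3]
      · rw [gg_mid h0.le h1.le]
  -- where everything is trivial
  have htriv : ∀ x : ℝ × ℝ, (x.1 ≤ 0 ∨ x.2 ∉ Ioo s₀ s₁) → seqQ q τ A N x = ((1, 0), 1) := by
    intro x hx0
    refine seqQ_one hq1 hτ1 (N := N) (fun k _ => ?_) N le_rfl
    rcases hx0 with h0 | h0
    · refine hM3 _ fun h => absurd h.1.1 (not_lt.2 ?_)
      have := (gg_nonpos h0).1
      exact div_nonpos_of_nonpos_of_nonneg
        (mul_nonpos_of_nonneg_of_nonpos (Nat.cast_nonneg k) this) hNpos.le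
    · exact hM3 _ fun h => h0 h.2
  refine ⟨fun x => (seqQ q τ A N x).1, fun x => (seqQ q τ A N x).2, hsm.fst, hsm.snd,
    fun x => (hx x).1, fun x => (hx x).2.1, fun x v => ?_, fun x hxo => ?_⟩
  · have := (hx x).2.2
    rw [hAN] at this
    rw [← this]
    rfl
  · show (seqQ q τ A N x).1 = (1, 0) ∧ (seqQ q τ A N x).2 = 1
    by_cases hc : x.1 ≤ 0 ∨ x.2 ∉ Ioo s₀ s₁
    · rw [htriv x hc]
      exact ⟨rfl, rfl⟩
    · push Not at hc
      have hx1 : 1 ≤ x.1 := by
        by_contra hlt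
        exact hxo ⟨⟨hc.1, not_le.1 hlt⟩, hc.2⟩
      -- the line above the point
      have hval : ∀ s : ℝ, ((seqQ q τ A N (x.1, s)).1 = (1, 0) ∨
          (seqQ q τ A N (x.1, s)).1 = (-1, 0)) ∧ (seqQ q τ A N (x.1, s)).2 = 1 := by
        intro s
        refine rc_tri_one (hx (x.1, s)).2.1 ?_
        rw [(hx (x.1, s)).2.2, hAN]
        exact hM3 _ fun h => absurd h.1.2 (not_lt.2 hx1)
      refine ⟨?_, (hval x.2).2⟩
      rcases (hval x.2).1 with h1 | h1
      · exact h1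
      · exfalso
        let f : ℝ → ℝ := fun s => (seqQ q τ A N (x.1, s)).1.1.re
        have hf : Continuous f := by
          have h2 : Continuous (fun s : ℝ => seqQ q τ A N (x.1, s)) :=
            hsm.continuous.comp (by fun_prop)
          exact Complex.continuous_re.comp (continuous_fst.comp (continuous_fst.comp h2))
        have ha : f x.2 ≤ 0 := by
          simp only [f, h1]
          simp
        have hb : 0 ≤ f s₀ := by
          have := htriv (x.1, s₀) (Or.inr fun h => lt_irrefl _ h.1)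
          simp only [f, this]
          simp
        obtain ⟨s, hs0⟩ := mem_range_of_exists_le_of_exists_ge hf ⟨x.2, ha⟩ ⟨s₀, hb⟩
        rcases (hval s).1 with h3 | h3
        · simp only [f, h3] at hs0
          simp at hs0
        · simp only [f, h3] at hs0
          simp at hs0

end Pool.Agent.Helper18.BI.H


end

/-! ## Helper34.BI.H.M_SMH -/

section

/-!
# Project BI, stage 3 (H), module SMH: smoothing a homotopy in the 4-sphere
-/

set_option autoImplicit false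

open scoped Manifold ContDiff Topology ComplexConjugate
open Set Filter Pool.Agent.Helper65.Barb Pool.Agent.Helper18.BI Pool.Agent.Helper18.BI.H

namespace Pool.Agent.Helper34.BI.H

namespace SMH

/-- five-space -/
abbrev E5 : Type := EuclideanSpace ℝ (Fin 5)

/-- extension of a function which is `C¹` near a compact set -/
theorem exists_ext {f : R4 → E5} {K : Set R4} (hK : IsCompact K)
    (hf : ∀ p ∈ K, ContDiffAt ℝ 1 f p) : ∃ g : R4 → E5, ContDiff ℝ 1 g ∧ EqOn g f K := by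
  have hU : IsOpen {p | ContDiffAt ℝ 1 f p} :=
    isOpen_iff_mem_nhds.2 fun p hp => ContDiffAt.eventually hp (by simp)
  obtain ⟨L, hL, hKL, hLU⟩ := exists_compact_between hK hU hf
  obtain ⟨χ, h1, h2, -⟩ := exists_contMDiffMap_one_nhds_of_subset_interior (n := 1) 𝓘(ℝ, R4)
    hK.isClosed hKL
  have hχ : ContDiff ℝ 1 (fun p => χ p) := contMDiff_iff_contDiff.1 χ.contMDiff
  refine ⟨fun p => χ p • f p, contDiff_iff_contDiffAt.2 fun p => ?_, fun p hp => ?_⟩
  · by_cases hp : p ∈ L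
    · exact hχ.contDiffAt.smul (hLU hp)
    · have h3 : ∀ᶠ q in 𝓝 p, χ q • f q = 0 := by
        filter_upwards [hL.isClosed.isOpen_compl.mem_nhds hp] with q hq
        rw [h2 q hq, zero_smul]
      exact contDiffAt_const.congr_of_eventuallyEq h3
  · have h4 : χ p = 1 := h1.self_of_nhdsSet p hp
    show χ p • f p = f p
    rw [h4, one_smul]

theorem isClosed_sph (d : ℝ) : IsClosed (sph d) :=
  IsClosed.inter (isClosed_eq continuous_fst continuous_const)
    (isClosed_eq (by unfold rsq nsq; fun_prop) continuous_const)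

theorem isCompact_sph (d : ℝ) : IsCompact (sph d) := by
  refine Metric.isCompact_of_isClosed_isBounded (isClosed_sph d) ?_
  refine (Metric.isBounded_closedBall (x := (0 : R4)) (r := |d| + 1)).subset ?_
  rintro p ⟨h1, h2⟩
  have h3 : (p.2.1 - d) ^ 2 + p.2.2.re ^ 2 + p.2.2.im ^ 2 = 1 / 25 := h2
  have h4 : |p.2.1 - d| ≤ 1 := by
    rw [abs_le]
    constructor <;> nlinarith [sq_nonneg p.2.2.re, sq_nonneg p.2.2.im]
  have h5 : ‖p.2.2‖ ≤ 1 := by
    have h6 : ‖p.2.2‖ ^ 2 = p.2.2.re ^ 2 + p.2.2.im ^ 2 := by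
      rw [← Complex.normSq_eq_norm_sq, Complex.normSq_apply]
      ring
    nlinarith [norm_nonneg p.2.2, sq_nonneg (p.2.1 - d)]
  rw [mem_closedBall_zero_iff]
  have h7 : ‖p.1‖ ≤ |d| + 1 := by
    rw [h1]
    have := abs_nonneg d
    rw [Real.norm_eq_abs, abs_of_pos (by norm_num)]
    linarith
  have h8 : ‖p.2.1‖ ≤ |d| + 1 := by
    rw [Real.norm_eq_abs]
    have := abs_sub_abs_le_abs_sub p.2.1 d
    linarith
  have h9 : ‖p.2.2‖ ≤ |d| + 1 := by
    have := abs_nonneg d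
    linarith
  exact norm_prod_le_iff.2 ⟨h7, norm_prod_le_iff.2 ⟨h8, h9⟩⟩

/-- spherical coordinates -/
noncomputable def sg (d : ℝ) (a : ℝ × ℝ) : R4 :=
  (1 / 2, (d + Real.cos a.1 / 5, (((Real.sin a.1 / 5 : ℝ) : ℂ)) * Complex.exp (a.2 * Complex.I)))

theorem contDiff_sg (d : ℝ) : ContDiff ℝ 1 (sg d) := by
  unfold sg
  refine contDiff_const.prodMk (ContDiff.prodMk ?_ ?_)
  · exact contDiff_const.add ((Real.contDiff_cos.comp contDiff_fst).div_const _)
  · refine ContDiff.mul ?_ ?_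
    · exact Complex.ofRealCLM.contDiff.comp ((Real.contDiff_sin.comp contDiff_fst).div_const _)
    · exact ((Complex.ofRealCLM.contDiff.comp contDiff_snd).mul contDiff_const).cexp

theorem sg_surj {d : ℝ} {p : R4} (hp : p ∈ sph d) : ∃ a, sg d a = p := by
  obtain ⟨h1, h2⟩ := hp
  have h3 : (p.2.1 - d) ^ 2 + p.2.2.re ^ 2 + p.2.2.im ^ 2 = 1 / 25 := h2
  have h6 : ‖p.2.2‖ ^ 2 = p.2.2.re ^ 2 + p.2.2.im ^ 2 := by
    rw [← Complex.normSq_eq_norm_sq, Complex.normSq_apply]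
    ring
  have h7 : -1 ≤ 5 * (p.2.1 - d) := by nlinarith [sq_nonneg p.2.2.re, sq_nonneg p.2.2.im]
  have h8 : 5 * (p.2.1 - d) ≤ 1 := by nlinarith [sq_nonneg p.2.2.re, sq_nonneg p.2.2.im]
  refine ⟨(Real.arccos (5 * (p.2.1 - d)), Complex.arg p.2.2), ?_⟩
  have hc : Real.cos (Real.arccos (5 * (p.2.1 - d))) = 5 * (p.2.1 - d) := Real.cos_arccos h7 h8
  have hs : Real.sin (Real.arccos (5 * (p.2.1 - d))) = 5 * ‖p.2.2‖ := by
    rw [Real.sin_arccos]
    rw [show 1 - (5 * (p.2.1 - d)) ^ 2 = (5 * ‖p.2.2‖) ^ 2 by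
      rw [mul_pow 5 ‖p.2.2‖, h6]; linarith]
    exact Real.sqrt_sq (by positivity)
  refine Prod.ext h1.symm (Prod.ext ?_ ?_)
  · show d + Real.cos (Real.arccos (5 * (p.2.1 - d))) / 5 = p.2.1
    rw [hc]
    ring
  · show ((Real.sin (Real.arccos (5 * (p.2.1 - d))) / 5 : ℝ) : ℂ) *
      Complex.exp (Complex.arg p.2.2 * Complex.I) = p.2.2
    rw [hs]
    rw [show 5 * ‖p.2.2‖ / 5 = ‖p.2.2‖ by ring]
    exact Complex.norm_mul_exp_arg_mul_I p.2.2

end SMH

open SMH in
theorem m_SMH : StSMH := by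
  intro b b' h K d hK hb hb' hh h0 h1 hoff
  let ι : S4 → E5 := fun y => y.1
  have hι : Continuous ι := continuous_subtype_val
  have hfact : Fact (Module.finrank ℝ (EuclideanSpace ℝ (Fin 5)) = 4 + 1) := ⟨by simp⟩
  have hιs : ContMDiff (𝓡 4) 𝓘(ℝ, EuclideanSpace ℝ (Fin 5)) ∞ ι := contMDiff_coe_sphere
  have hιn : ∀ y : S4, ‖ι y‖ = 1 := fun y => by
    have := y.2
    rwa [mem_sphere_zero_iff_norm] at this
  -- extension of the ends
  have hext : ∀ β : R4 → S4, (∀ p ∈ sph d, ContMDiffAt 𝓘(ℝ, R4) (𝓡 4) ∞ β p) →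
      ∃ g : R4 → E5, ContDiff ℝ 1 g ∧ EqOn g (fun p => ι (β p)) (sph d) := by
    intro β hβ
    refine exists_ext (isCompact_sph d) fun p hp => ?_
    have h2 : ContMDiffAt 𝓘(ℝ, R4) 𝓘(ℝ, E5) ∞ (fun p => ι (β p)) p :=
      (hιs.contMDiffAt).comp p (hβ p hp)
    exact (contMDiffAt_iff_contDiffAt.1 h2).of_le (by norm_num)
  obtain ⟨B, hB, hBb⟩ := hext b hb
  obtain ⟨B', hB', hBb'⟩ := hext b' hb'
  -- the distance
  let D : Set (ℝ × R4) := Icc (0 : ℝ) 1 ×ˢ sph d
  have hD : IsCompact D := isCompact_Icc.prod (isCompact_sph d)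
  have hE : IsCompact (h '' D) := hD.image_of_continuousOn hh
  obtain ⟨r, hr0, hr⟩ := Metric.exists_pos_forall_lt_edist hE hK.isClosed (by
    rw [Set.disjoint_left]
    rintro _ ⟨⟨u, p⟩, ⟨hu, hp⟩, rfl⟩
    exact hoff u hu p hp)
  have hr' : ∀ x ∈ h '' D, ∀ y ∈ K, (r : ℝ) < dist (ι x) (ι y) := by
    intro x hx y hy
    have h2 := hr x hx y hy
    rw [edist_nndist] at h2
    have h3 : r < nndist x y := by exact_mod_cast h2
    have h4 : (r : ℝ) < dist x y := by exact_mod_cast h3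
    exact h4
  obtain ⟨ρ, hρ0, hρ1, hρr⟩ : ∃ ρ : ℝ, 0 < ρ ∧ ρ ≤ 1 / 8 ∧ 2 * ρ ≤ r := by
    have hr0' : (0 : ℝ) < r := by exact_mod_cast hr0
    exact ⟨min (1 / 8) (r / 2), lt_min (by norm_num) (by linarith), min_le_left _ _,
      by have := min_le_right (1 / 8) ((r : ℝ) / 2); linarith⟩
  -- Tietze
  let C : Set (ℝ × R4) := (D ∪ Iic 0 ×ˢ univ) ∪ Ici 1 ×ˢ univ
  have hC1 : IsClosed (Iic (0 : ℝ) ×ˢ (univ : Set R4)) := isClosed_Iic.prod isClosed_univ
  have hC2 : IsClosed (Ici (1 : ℝ) ×ˢ (univ : Set R4)) := isClosed_Ici.prod isClosed_univ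
  have hC : IsClosed C := (hD.isClosed.union hC1).union hC2
  let h₁ : ℝ × R4 → E5 := fun z => if z.1 ≤ 0 then B z.2 else if 1 ≤ z.1 then B' z.2 else ι (h z)
  have e0 : ∀ z : ℝ × R4, z.1 ≤ 0 → h₁ z = B z.2 := fun z hz => if_pos hz
  have e1 : ∀ z : ℝ × R4, 1 ≤ z.1 → h₁ z = B' z.2 := fun z hz => by
    show (if z.1 ≤ 0 then B z.2 else if 1 ≤ z.1 then B' z.2 else ι (h z)) = _
    rw [if_neg (by linarith), if_pos hz]
  have e2 : ∀ z ∈ D, h₁ z = ι (h z) := by
    rintro ⟨u, p⟩ ⟨hu, hp⟩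
    rcases le_or_gt u 0 with hu0 | hu0
    · have hu' : u = 0 := le_antisymm hu0 hu.1
      rw [e0 _ hu0]
      subst hu'
      rw [hBb hp, h0 p hp]
    · rcases le_or_gt 1 u with hu1 | hu1
      · have hu' : u = 1 := le_antisymm hu.2 hu1
        rw [e1 _ hu1]
        subst hu'
        rw [hBb' hp, h1 p hp]
      · show (if u ≤ 0 then B p else if 1 ≤ u then B' p else ι (h (u, p))) = _
        rw [if_neg (by linarith), if_neg (by linarith)]
  have hh₁ : ContinuousOn h₁ C := by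
    refine ContinuousOn.union_of_isClosed (ContinuousOn.union_of_isClosed ?_ ?_ hD.isClosed hC1) ?_
      (hD.isClosed.union hC1) hC2
    · exact (hι.comp_continuousOn hh).congr e2
    · exact (hB.continuous.comp continuous_snd).continuousOn.congr fun z hz => e0 z hz.1
    · exact (hB'.continuous.comp continuous_snd).continuousOn.congr fun z hz => e1 z hz.1
  obtain ⟨H, hH⟩ := ContinuousMap.exists_restrict_eq (Y := E5) hC
    ⟨C.domRestrict h₁, continuousOn_iff_continuous_domRestrict.1 hh₁⟩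
  have hHe : ∀ z ∈ C, H z = h₁ z := fun z hz => by
    have := DFunLike.congr_fun hH ⟨z, hz⟩
    exact this
  -- the stretched homotopy
  let f : ℝ × R4 → E5 := fun z => H (2 * z.1 - 1 / 2, z.2)
  have hf : Continuous f := H.continuous.comp (by fun_prop)
  have f0 : ∀ z : ℝ × R4, z.1 ≤ 1 / 4 → f z = B z.2 := fun z hz => by
    have h2 : (2 * z.1 - 1 / 2, z.2) ∈ C := Or.inl (Or.inr ⟨by
      show 2 * z.1 - 1 / 2 ≤ 0
      linarith, mem_univ _⟩)
    show H (2 * z.1 - 1 / 2, z.2) = _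
    rw [hHe _ h2, e0 _ (by show 2 * z.1 - 1 / 2 ≤ 0; linarith)]
  have f1 : ∀ z : ℝ × R4, 3 / 4 ≤ z.1 → f z = B' z.2 := fun z hz => by
    have h2 : (2 * z.1 - 1 / 2, z.2) ∈ C := Or.inr ⟨by
      show 1 ≤ 2 * z.1 - 1 / 2
      linarith, mem_univ _⟩
    show H (2 * z.1 - 1 / 2, z.2) = _
    rw [hHe _ h2, e1 _ (by show 1 ≤ 2 * z.1 - 1 / 2; linarith)]
  have f2 : ∀ z ∈ D, ∃ z' ∈ D, f z = ι (h z') := by
    rintro ⟨u, p⟩ ⟨hu, hp⟩
    rcases le_or_gt u (1 / 4) with h2 | h2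
    · refine ⟨(0, p), ⟨⟨le_rfl, zero_le_one⟩, hp⟩, ?_⟩
      rw [f0 _ h2, h0 p hp, hBb hp]
    · rcases le_or_gt (3 / 4) u with h3 | h3
      · refine ⟨(1, p), ⟨⟨zero_le_one, le_rfl⟩, hp⟩, ?_⟩
        rw [f1 _ h3, h1 p hp, hBb' hp]
      · have h4 : ((2 * u - 1 / 2, p) : ℝ × R4) ∈ D := ⟨⟨by linarith, by linarith⟩, hp⟩
        refine ⟨_, h4, ?_⟩
        show H (2 * u - 1 / 2, p) = _
        rw [hHe _ (Or.inl (Or.inl h4)), e2 _ h4]
  -- smoothing
  obtain ⟨g, hg, hgf, hgS, -⟩ := hf.exists_contDiff_approx_and_eqOn 1 (ε := fun _ => ρ)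
    continuous_const (fun _ => hρ0) (S := {z | z.1 ≤ 0} ∪ {z | 1 ≤ z.1})
    (U := {z | z.1 < 1 / 4} ∪ {z | 3 / 4 < z.1})
    ((isClosed_le continuous_fst continuous_const).union
      (isClosed_le continuous_const continuous_fst))
    (((isOpen_lt continuous_fst continuous_const).union
      (isOpen_lt continuous_const continuous_fst)).mem_nhdsSet.2 (by
        rintro z (hz | hz)
        · left
          have : z.1 ≤ 0 := hz
          show z.1 < 1 / 4
          linarith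
        · right
          have : 1 ≤ z.1 := hz
          show 3 / 4 < z.1
          linarith))
    (ContDiffOn.union_of_isOpen
      (((hB.comp contDiff_snd).contDiffOn).congr fun z hz => f0 z (le_of_lt hz))
      (((hB'.comp contDiff_snd).contDiffOn).congr fun z hz => f1 z (le_of_lt hz))
      (isOpen_lt continuous_fst continuous_const) (isOpen_lt continuous_const continuous_fst))
  have hg1 : ContDiff ℝ 1 g := hg
  have hgn : ∀ z ∈ D, ∃ z' ∈ D, ‖g z - ι (h z')‖ < ρ := by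
    intro z hz
    obtain ⟨z', hz', he⟩ := f2 z hz
    refine ⟨z', hz', ?_⟩
    rw [← he, ← dist_eq_norm]
    exact hgf z
  have hgn' : ∀ z ∈ D, |‖g z‖ - 1| < ρ := by
    intro z hz
    obtain ⟨z', hz', he⟩ := hgn z hz
    rw [← hιn (h z')]
    exact lt_of_le_of_lt (abs_norm_sub_norm_le _ _) he
  have hg0 : ∀ z ∈ D, g z ≠ 0 := by
    intro z hz h2
    have h3 := hgn' z hz
    rw [h2, norm_zero, zero_sub, abs_neg, abs_one] at h3
    linarith
  have hpt : ∀ x : E5, x ≠ 0 → ‖x‖⁻¹ • x ∈ Metric.sphere (0 : E5) 1 := by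
    intro x hx
    rw [mem_sphere_zero_iff_norm, norm_smul, norm_inv, norm_norm]
    exact inv_mul_cancel₀ (norm_ne_zero_iff.2 hx)
  have hch : ∀ z : ℝ × R4, ∃ y : S4, z ∈ D → ι y = ‖g z‖⁻¹ • g z := by
    intro z
    by_cases hz : z ∈ D
    · exact ⟨⟨_, hpt _ (hg0 z hz)⟩, fun _ => rfl⟩
    · exact ⟨h z, fun h2 => absurd h2 hz⟩
  choose h' hh' using hch
  have hend : ∀ z ∈ D, ‖g z‖ = 1 → ι (h' z) = g z := by
    intro z hz h2
    rw [hh' z hz, h2, inv_one, one_smul]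
  have hcon : ContinuousOn (fun z => ‖g z‖⁻¹ • g z) D := by
    have h2 : ContinuousOn (fun z => ‖g z‖⁻¹) D :=
      hg1.continuous.norm.continuousOn.inv₀ fun z hz => norm_ne_zero_iff.2 (hg0 z hz)
    exact h2.smul hg1.continuous.continuousOn
  refine ⟨h', ?_, ?_, ?_, ?_, ?_⟩
  · rw [Topology.IsInducing.subtypeVal.continuousOn_iff]
    exact hcon.congr fun z hz => hh' z hz
  · intro p hp
    have hz : ((0, p) : ℝ × R4) ∈ D := ⟨⟨le_rfl, zero_le_one⟩, hp⟩
    have h2 : g (0, p) = ι (b p) := by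
      rw [hgS (Or.inl (show (0 : ℝ) ≤ 0 from le_rfl)), f0 _ (by norm_num), hBb hp]
    have h3 : ι (h' (0, p)) = ι (b p) := by
      rw [hend _ hz (by rw [h2, hιn]), h2]
    exact Subtype.ext h3
  · intro p hp
    have hz : ((1, p) : ℝ × R4) ∈ D := ⟨⟨zero_le_one, le_rfl⟩, hp⟩
    have h2 : g (1, p) = ι (b' p) := by
      rw [hgS (Or.inr (show (1 : ℝ) ≤ 1 from le_rfl)), f1 _ (by norm_num), hBb' hp]
    have h3 : ι (h' (1, p)) = ι (b' p) := by
      rw [hend _ hz (by rw [h2, hιn]), h2]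
    exact Subtype.ext h3
  · intro u hu p hp hk
    have hz : (u, p) ∈ D := ⟨hu, hp⟩
    obtain ⟨z', hz', he⟩ := hgn _ hz
    have h2 := hr' _ (mem_image_of_mem h hz') _ hk
    have h3 : dist (ι (h z')) (ι (h' (u, p))) ≤ ‖g (u, p) - ι (h z')‖ + |‖g (u, p)‖ - 1| := by
      have h4 : dist (g (u, p)) (ι (h' (u, p))) = |‖g (u, p)‖ - 1| := by
        rw [hh' _ hz, dist_eq_norm]
        have h5 : g (u, p) - ‖g (u, p)‖⁻¹ • g (u, p) = (1 - ‖g (u, p)‖⁻¹) • g (u, p) := by
          rw [sub_smul, one_smul]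
        have h6 : ‖g (u, p)‖ ≠ 0 := norm_ne_zero_iff.2 (hg0 _ hz)
        rw [h5, norm_smul, Real.norm_eq_abs]
        rw [← abs_of_nonneg (norm_nonneg (g (u, p))), ← abs_mul, abs_norm]
        congr 1
        field_simp
      calc dist (ι (h z')) (ι (h' (u, p))) ≤ dist (ι (h z')) (g (u, p)) +
            dist (g (u, p)) (ι (h' (u, p))) := dist_triangle _ _ _
        _ = ‖g (u, p) - ι (h z')‖ + |‖g (u, p)‖ - 1| := by
            rw [h4, dist_comm, dist_eq_norm]
    have h4 := hgn' _ hz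
    linarith
  · -- the image has empty interior
    by_contra hne
    obtain ⟨y, hy⟩ := nonempty_iff_ne_empty.2 hne
    obtain ⟨O, hO, hOe⟩ := isOpen_induced_iff.1 (isOpen_interior (s := h' '' D))
    let Φ : ℝ × ℝ × ℝ × ℝ → E5 := fun a => a.1 • g (a.2.1, sg d a.2.2)
    have hΦ : ContDiff ℝ 1 Φ := by
      refine contDiff_fst.smul (hg1.comp ?_)
      exact (contDiff_fst.comp contDiff_snd).prodMk
        ((contDiff_sg d).comp (contDiff_snd.comp contDiff_snd))
    have hdense : Dense (range Φ)ᶜ := hΦ.dense_compl_range_of_finrank_lt_finrank (by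
      simp [Module.finrank_prod])
    have hV : IsOpen ({x : E5 | x ≠ 0} ∩ (fun x : E5 => ‖x‖⁻¹ • x) ⁻¹' O) := by
      refine ContinuousOn.isOpen_inter_preimage ?_ isOpen_ne hO
      have h2 : ContinuousOn (fun x : E5 => ‖x‖⁻¹) {x : E5 | x ≠ 0} :=
        continuous_norm.continuousOn.inv₀ fun x hx => norm_ne_zero_iff.2 hx
      exact h2.smul continuousOn_id
    have hyV : ι y ∈ {x : E5 | x ≠ 0} ∩ (fun x : E5 => ‖x‖⁻¹ • x) ⁻¹' O := by
      refine ⟨?_, ?_⟩
      · show ι y ≠ 0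
        rw [← norm_ne_zero_iff, hιn]
        exact one_ne_zero
      · show ‖ι y‖⁻¹ • ι y ∈ O
        rw [hιn, inv_one, one_smul]
        have : y ∈ Subtype.val ⁻¹' O := by rw [hOe]; exact hy
        exact this
    obtain ⟨x, ⟨hx0, hxO⟩, hxΦ⟩ := hdense.inter_open_nonempty _ hV ⟨_, hyV⟩
    apply hxΦ
    have hx1 : (⟨_, hpt x hx0⟩ : S4) ∈ interior (h' '' D) := by
      rw [← hOe]
      exact hxO
    obtain ⟨⟨u, p⟩, hz, he⟩ := interior_subset hx1
    obtain ⟨a, ha⟩ := sg_surj hz.2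
    have he' : ‖g (u, p)‖⁻¹ • g (u, p) = ‖x‖⁻¹ • x := by
      rw [← hh' _ hz, he]
    refine ⟨(‖x‖ * ‖g (u, p)‖⁻¹, u, a), ?_⟩
    show (‖x‖ * ‖g (u, p)‖⁻¹) • g (u, sg d a) = x
    rw [ha, mul_smul, he', smul_smul, mul_inv_cancel₀ (norm_ne_zero_iff.2 hx0), one_smul]

end Pool.Agent.Helper34.BI.H


end

/-! ## Helper70.BI.M_DET -/

section

/-!
# Project BI, part (E), module DET
-/

set_option autoImplicit false

open scoped Manifold ContDiff Topology ComplexConjugate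
open Set Filter Pool.Agent.Helper65.Barb Pool.Agent.Helper18.BI

namespace Pool.Agent.Helper70.BI

namespace DET

private theorem convex_flat (c : ℝ) : Convex ℝ (flat c) := by
  rintro ⟨s, a, w⟩ ⟨hp1, hp2⟩ ⟨s', a', w'⟩ ⟨hq1, hq2⟩ x y hx hy hxy
  simp only [rsq, nsq] at hp2 hq2
  simp only at hp1 hq1
  have hy' : y = 1 - x := by linarith
  subst hy'
  refine ⟨?_, ?_⟩
  · simp only [Prod.smul_mk, Prod.mk_add_mk, smul_eq_mul, hp1, hq1]
    ring
  · simp only [rsq, nsq, Prod.smul_mk, Prod.mk_add_mk, smul_eq_mul, Complex.add_re,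
      Complex.add_im, Complex.real_smul, Complex.mul_re, Complex.mul_im, Complex.ofReal_re,
      Complex.ofReal_im, zero_mul, sub_zero, add_zero]
    nlinarith [mul_nonneg hx hy, mul_nonneg (mul_nonneg hx hy) (sq_nonneg (a - a')),
      mul_nonneg (mul_nonneg hx hy) (sq_nonneg (w.re - w'.re)),
      mul_nonneg (mul_nonneg hx hy) (sq_nonneg (w.im - w'.im)),
      mul_le_mul_of_nonneg_left hp2 hx, mul_le_mul_of_nonneg_left hq2 hy]

private theorem convex_neck : Convex ℝ neck := by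
  rintro ⟨s, a, w⟩ ⟨hp1, hp2, hp3, hp4⟩ ⟨s', a', w'⟩ ⟨hq1, hq2, hq3, hq4⟩ x y hx hy hxy
  simp only at hp1 hp2 hp3 hp4 hq1 hq2 hq3 hq4
  have hy' : y = 1 - x := by linarith
  subst hy'
  refine ⟨?_, ?_, ?_, ?_⟩
  · simp only [Prod.smul_mk, Prod.mk_add_mk, smul_eq_mul, hp1, hq1]
    ring
  · simp only [Prod.smul_mk, Prod.mk_add_mk, smul_eq_mul]
    nlinarith [mul_le_mul_of_nonneg_left hp2 hx, mul_le_mul_of_nonneg_left hq2 hy]
  · simp only [Prod.smul_mk, Prod.mk_add_mk, smul_eq_mul]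
    nlinarith [mul_le_mul_of_nonneg_left hp3 hx, mul_le_mul_of_nonneg_left hq3 hy]
  · simp only [Prod.smul_mk, Prod.mk_add_mk, hp4, hq4, smul_zero, add_zero]

private theorem pre_FB : IsPreconnected FB := by
  have h0 : IsPreconnected (flat 0 ∪ neck) := by
    refine IsPreconnected.union (ax (1 / 5)) ?_ ?_ (convex_flat 0).isPreconnected
      convex_neck.isPreconnected
    · refine ⟨rfl, ?_⟩
      simp only [ax, rsq, nsq, Complex.zero_re, Complex.zero_im]
      norm_num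
    · refine ⟨rfl, ?_, ?_, rfl⟩
      · simp only [ax]; norm_num
      · simp only [ax]; norm_num
  have h1 : IsPreconnected ((flat 0 ∪ neck) ∪ flat 1) := by
    refine IsPreconnected.union (ax (4 / 5)) ?_ ?_ h0 (convex_flat 1).isPreconnected
    · refine Or.inr ⟨rfl, ?_, ?_, rfl⟩
      · simp only [ax]; norm_num
      · simp only [ax]; norm_num
    · refine ⟨rfl, ?_⟩
      simp only [ax, rsq, nsq, Complex.zero_re, Complex.zero_im]
      norm_num
  have h2 : FB = (flat 0 ∪ neck) ∪ flat 1 := by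
    unfold FB
    ext p
    simp only [mem_union]
    tauto
  rw [h2]; exact h1

private theorem det_ne {F : R4 → R4} {p : R4} (h : LD F p) : (fderiv ℝ F p).det ≠ 0 := by
  have h1 := (ld_iff.1 h).2
  have h2 : LinearMap.ker (fderiv ℝ F p : R4 →ₗ[ℝ] R4) = ⊥ :=
    LinearMap.ker_eq_bot.2 h1
  intro h0
  have h3 : LinearMap.det (fderiv ℝ F p : R4 →ₗ[ℝ] R4) = 0 := h0
  have h4 := LinearMap.bot_lt_ker_of_det_eq_zero h3
  rw [h2] at h4
  exact lt_irrefl _ h4

private theorem det_cont {F : R4 → R4} {p : R4} (h : LD F p) :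
    ContinuousAt (fun q => (fderiv ℝ F q).det) p := by
  have h1 := (ld_iff.1 h).1.self_of_nhds
  have h2 : ContinuousAt (fderiv ℝ F) p :=
    (h1.fderiv_right (m := ∞) (by simp)).continuousAt
  exact ContinuousLinearMap.continuous_det.continuousAt.comp h2

end DET

theorem m_DET : StDET := by
  intro F L hL hLD p hp q hq h
  have hpre : IsPreconnected L := by
    rcases hL with rfl | rfl | rfl
    · exact DET.pre_FB
    · exact (DET.convex_flat 0).isPreconnected
    · exact (DET.convex_flat 1).isPreconnected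
  by_contra hneg
  have hq0 : (fderiv ℝ F q).det ≤ 0 := not_lt.1 hneg
  have hc : ContinuousOn (fun x => (fderiv ℝ F x).det) L :=
    fun x hx => (DET.det_cont (hLD x hx)).continuousWithinAt
  have h1 := hpre.intermediate_value hq hp hc
  obtain ⟨x, hx, hx0⟩ := h1 ⟨hq0, h.le⟩
  exact DET.det_ne (hLD x hx) hx0

end Pool.Agent.Helper70.BI


end
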