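import Pool.Agent.Helper65.Barb.Defs
import Pool.Agent.Helper70.BI.B.P01
import Pool.Agent.Helper70.BI.B.P03

/-!
# Project BI (MP_8e98f2_gt): collected modules, part 20

The contents of the modules
* Helper65.Barb.Dual1
* Helper65.Barb.Scale
* Helper34.BI.H.StH4
* Helper34.BI.H.M_NP1
* Helper34.BI.H.M_NU1
* Helper34.BI.H.M_NU2
* Helper34.BI.H.M_NU3
* Helper34.BI.H.M_NU4
* Helper34.BI.H.M_H4

in one file, so that the whole proof builds in a short time.
-/

/-! ## Helper65.Barb.Dual1 -/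

section

/-!
# Nested shells
-/

set_option autoImplicit false
set_option linter.unusedSectionVars false
set_option linter.unusedVariables false

open scoped Manifold ContDiff Topology ComplexConjugate
open Set

namespace Pool.Agent.Helper65.Barb

/-- a family of open thickened spheres -/
def Sh (a c r : ℝ) : Set R4 :=
  {p | -a < p.1 ∧ p.1 < 1 + a ∧ rsq c p < ((2 + a / 4) * r) ^ 2 ∧
    ((1 - a / 4) * r) ^ 2 < rsq c p}

/-- a family of closed thickened spheres -/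
def ShC (a c r : ℝ) : Set R4 :=
  {p | -a ≤ p.1 ∧ p.1 ≤ 1 + a ∧ rsq c p ≤ ((2 + a / 4) * r) ^ 2 ∧
    ((1 - a / 4) * r) ^ 2 ≤ rsq c p}

theorem Sh_subset_ShC (a c r : ℝ) : Sh a c r ⊆ ShC a c r :=
  fun _ hp => ⟨hp.1.le, hp.2.1.le, hp.2.2.1.le, hp.2.2.2.le⟩

theorem isOpen_Sh (a c r : ℝ) : IsOpen (Sh a c r) := by
  apply IsOpen.inter (isOpen_lt continuous_const continuous_fst)
  apply IsOpen.inter (isOpen_lt continuous_fst continuous_const)
  apply IsOpen.inter (isOpen_lt (continuous_rsq c) continuous_const)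
  exact isOpen_lt continuous_const (continuous_rsq c)

theorem isCompact_ShC (a c r : ℝ) : IsCompact (ShC a c r) := by
  apply Metric.isCompact_of_isClosed_isBounded
  · apply IsClosed.inter (isClosed_le continuous_const continuous_fst)
    apply IsClosed.inter (isClosed_le continuous_fst continuous_const)
    apply IsClosed.inter (isClosed_le (continuous_rsq c) continuous_const)
    exact isClosed_le continuous_const (continuous_rsq c)
  · exact (isBounded_of_rsq c (((2 + a / 4) * r) ^ 2) (-a) (1 + a)).subset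
      (fun p hp => ⟨hp.1, hp.2.1, hp.2.2.1⟩)

theorem ShC_subset_Sh {a b c r : ℝ} (hr : 0 < r) (ha : 0 ≤ a) (hab : a < b) (hb : b ≤ 1) :
    ShC a c r ⊆ Sh b c r := by
  rintro p ⟨h1, h2, h3, h4⟩
  refine ⟨by linarith, by linarith, lt_of_le_of_lt h3 ?_, lt_of_lt_of_le ?_ h4⟩
  · apply pow_lt_pow_left₀ _ (by positivity) (by norm_num)
    nlinarith
  · apply pow_lt_pow_left₀ _ (mul_nonneg (by linarith) hr.le) (by norm_num)
    nlinarith

theorem rotp_mem_Sh {a c r : ℝ} (θ : ℝ) {p : R4} (hp : p ∈ Sh a c r) : rotp θ p ∈ Sh a c r := by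
  obtain ⟨h1, h2, h3, h4⟩ := hp
  exact ⟨h1, h2, by rwa [rsq_rotp], by rwa [rsq_rotp]⟩

theorem rotp_mem_ShC {a c r : ℝ} (θ : ℝ) {p : R4} (hp : p ∈ ShC a c r) :
    rotp θ p ∈ ShC a c r := by
  obtain ⟨h1, h2, h3, h4⟩ := hp
  exact ⟨h1, h2, by rwa [rsq_rotp], by rwa [rsq_rotp]⟩

theorem Core_eq (c r : ℝ) : Core c r = ShC 0 c r := by
  ext p
  simp only [Core, ShC, mem_ofPred_eq]
  norm_num

theorem NShell_eq (c r : ℝ) : NShell c r = Sh (1 / 2) c r := by
  ext p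
  simp only [NShell, Sh, mem_ofPred_eq]
  norm_num

theorem OShell_eq (c r : ℝ) : OShell c r = Sh 1 c r := by
  ext p
  simp only [OShell, Sh, mem_ofPred_eq]
  norm_num

theorem Shell_eq (c r : ℝ) : Shell c r = ShC 1 c r := by
  ext p
  simp only [Shell, Ball, ShC, mem_ofPred_eq]
  norm_num [and_assoc]

/-- bump functions for the nested shells -/
noncomputable def chig (a b c r : ℝ) (p : R4) : ℝ :=
  bmp (-b) (-a) (1 + a) (1 + b) p.1 *
    bmp (((1 - b / 4) * r) ^ 2) (((1 - a / 4) * r) ^ 2) (((2 + a / 4) * r) ^ 2)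
      (((2 + b / 4) * r) ^ 2) (rsq c p)

theorem contDiff_chig (a b c r : ℝ) : ContDiff ℝ ∞ (chig a b c r) :=
  ((contDiff_bmp _ _ _ _).comp contDiff_fst).mul ((contDiff_bmp _ _ _ _).comp (contDiff_rsq c))

theorem chig_rotp (a b c r θ : ℝ) (p : R4) : chig a b c r (rotp θ p) = chig a b c r p := by
  simp only [chig, rsq_rotp]; rfl

theorem bmp_mem (a b c d u : ℝ) : bmp a b c d u ∈ Icc (0 : ℝ) 1 := by
  have h1 := step_mem ((u - a) / (b - a))
  have h2 := step_mem ((d - u) / (d - c))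
  exact ⟨mul_nonneg h1.1 h2.1, mul_le_one₀ h1.2 h2.1 h2.2⟩

theorem chig_mem (a b c r : ℝ) (p : R4) : chig a b c r p ∈ Icc (0 : ℝ) 1 := by
  have h1 := bmp_mem (-b) (-a) (1 + a) (1 + b) p.1
  have h2 := bmp_mem (((1 - b / 4) * r) ^ 2) (((1 - a / 4) * r) ^ 2) (((2 + a / 4) * r) ^ 2)
      (((2 + b / 4) * r) ^ 2) (rsq c p)
  exact ⟨mul_nonneg h1.1 h2.1, mul_le_one₀ h1.2 h2.1 h2.2⟩

section
variable {a b c r : ℝ}

theorem sq_aux1 (hr : 0 < r) (hab : a < b) (hb : b ≤ 1) :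
    ((1 - b / 4) * r) ^ 2 < ((1 - a / 4) * r) ^ 2 := by
  apply pow_lt_pow_left₀ _ (mul_nonneg (by linarith) hr.le) (by norm_num)
  nlinarith

theorem sq_aux2 (hr : 0 < r) (ha : 0 ≤ a) (hab : a < b) :
    ((2 + a / 4) * r) ^ 2 < ((2 + b / 4) * r) ^ 2 := by
  apply pow_lt_pow_left₀ _ (by positivity) (by norm_num)
  nlinarith

theorem chig_eq_one (hr : 0 < r) (ha : 0 ≤ a) (hab : a < b) (hb : b ≤ 1) {p : R4}
    (hp : p ∈ ShC a c r) : chig a b c r p = 1 := by
  obtain ⟨h1, h2, h3, h4⟩ := hp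
  rw [chig, bmp_eq_one (by linarith) (by linarith) h1 h2,
    bmp_eq_one (sq_aux1 hr hab hb) (sq_aux2 hr ha hab) h4 h3, one_mul]

theorem chig_eq_zero (hr : 0 < r) (ha : 0 ≤ a) (hab : a < b) (hb : b ≤ 1) {p : R4}
    (hp : p ∉ Sh b c r) : chig a b c r p = 0 := by
  rw [chig]
  by_cases h1 : -b < p.1
  · by_cases h2 : p.1 < 1 + b
    · by_cases h3 : rsq c p < ((2 + b / 4) * r) ^ 2
      · have h4 : rsq c p ≤ ((1 - b / 4) * r) ^ 2 := by
          by_contra h4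
          exact hp ⟨h1, h2, h3, not_le.1 h4⟩
        rw [bmp_eq_zero_left (u := rsq c p) (sq_aux1 hr hab hb) h4, mul_zero]
      · rw [bmp_eq_zero_right (u := rsq c p) (sq_aux2 hr ha hab) (not_lt.1 h3), mul_zero]
    · rw [bmp_eq_zero_right (u := p.1) (by linarith) (not_lt.1 h2), zero_mul]
  · rw [bmp_eq_zero_left (u := p.1) (by linarith) (not_lt.1 h1), zero_mul]

/-- coordinates on the orbit space of the model -/
noncomputable def pS (c : ℝ) (p : R4) : ℝ × ℝ × ℝ :=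
  (p.1, √(rsq c p), (p.2.1 - c) / √(rsq c p))

theorem pS_rotp (c θ : ℝ) (p : R4) : pS c (rotp θ p) = pS c p := by
  simp only [pS, rsq_rotp]; rfl

theorem continuousOn_pS (c : ℝ) : ContinuousOn (pS c) {p | 0 < rsq c p} := by
  have c1 : ContinuousOn (fun p : R4 => √(rsq c p)) {p | 0 < rsq c p} :=
    (Real.continuous_sqrt.comp (continuous_rsq c)).continuousOn
  apply continuous_fst.continuousOn.prodMk
  apply c1.prodMk
  apply ContinuousOn.div _ c1
  · intro p hp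
    exact (Real.sqrt_pos.2 hp).ne'
  · exact ((continuous_fst.comp continuous_snd).sub continuous_const).continuousOn

/-- a section over a closed shell -/
noncomputable def kS (a c r : ℝ) (y : ℝ × ℝ × ℝ) : R4 :=
  (clamp (-a) (1 + a) y.1,
    c + clamp ((1 - a / 4) * r) ((2 + a / 4) * r) y.2.1 * clamp (-1) 1 y.2.2,
    ((clamp ((1 - a / 4) * r) ((2 + a / 4) * r) y.2.1 *
      √(1 - (clamp (-1) 1 y.2.2) ^ 2) : ℝ) : ℂ))

theorem continuous_kS (a c r : ℝ) : Continuous (kS a c r) := by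
  have c1 : Continuous fun y : ℝ × ℝ × ℝ =>
      clamp ((1 - a / 4) * r) ((2 + a / 4) * r) y.2.1 :=
    (continuous_clamp _ _).comp (continuous_fst.comp continuous_snd)
  have c2 : Continuous fun y : ℝ × ℝ × ℝ => clamp (-1) 1 y.2.2 :=
    (continuous_clamp _ _).comp (continuous_snd.comp continuous_snd)
  apply Continuous.prodMk ((continuous_clamp _ _).comp continuous_fst)
  apply Continuous.prodMk (continuous_const.add (c1.mul c2))
  apply Complex.continuous_ofReal.comp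
  exact c1.mul (Real.continuous_sqrt.comp (continuous_const.sub (c2.pow 2)))

theorem kS_mem (hr : 0 < r) (ha : 0 ≤ a) (ha' : a ≤ 1) (y : ℝ × ℝ × ℝ) :
    kS a c r y ∈ ShC a c r := by
  have hm : (1 - a / 4) * r ≤ (2 + a / 4) * r := by nlinarith
  have hp : 0 ≤ (1 - a / 4) * r := mul_nonneg (by linarith) hr.le
  have h0 := clamp_mem hm y.2.1
  have h1 := clamp_mem (a := -1) (b := 1) (by norm_num) y.2.2
  have h2 := clamp_mem (a := -a) (b := 1 + a) (by linarith) y.1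
  have h3 : 0 ≤ 1 - (clamp (-1) 1 y.2.2) ^ 2 := by nlinarith [h1.1, h1.2]
  have hrsq : rsq c (kS a c r y) = (clamp ((1 - a / 4) * r) ((2 + a / 4) * r) y.2.1) ^ 2 := by
    simp only [rsq, nsq, kS, Complex.ofReal_re, Complex.ofReal_im, add_sub_cancel_left]
    rw [mul_pow, mul_pow, Real.sq_sqrt h3]
    ring
  refine ⟨h2.1, h2.2, ?_, ?_⟩
  · rw [hrsq]; exact pow_le_pow_left₀ (hp.trans h0.1) h0.2 2
  · rw [hrsq]; exact pow_le_pow_left₀ hp h0.1 2

theorem exists_rotp_kS (hr : 0 < r) (ha : 0 ≤ a) (ha' : a ≤ 1) {p : R4} (hp : p ∈ ShC a c r) :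
    ∃ θ, rotp θ (kS a c r (pS c p)) = p := by
  obtain ⟨s, u, w⟩ := p
  obtain ⟨h1, h2, h3, h4⟩ := hp
  simp only at h1 h2
  have hp0 : 0 < (1 - a / 4) * r := mul_pos (by linarith) hr
  have h5 : 0 < rsq c (s, u, w) := lt_of_lt_of_le (by positivity) h4
  set ρ := √(rsq c (s, u, w)) with hρ
  have h6 : ρ ^ 2 = rsq c (s, u, w) := Real.sq_sqrt h5.le
  have h7 : 0 < ρ := Real.sqrt_pos.2 h5
  have h8 : (1 - a / 4) * r ≤ ρ := Real.le_sqrt_of_sq_le h4
  have h9 : ρ ≤ (2 + a / 4) * r := by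
    rw [hρ]; exact Real.sqrt_le_iff.2 ⟨by positivity, h3⟩
  have h10 : rsq c (s, u, w) = (u - c) ^ 2 + ‖w‖ ^ 2 := by
    simp only [rsq, nsq]
    rw [← Complex.normSq_eq_norm_sq, Complex.normSq_apply]; ring
  have h11 : -1 ≤ (u - c) / ρ ∧ (u - c) / ρ ≤ 1 := by
    rw [le_div_iff₀ h7, div_le_iff₀ h7]
    constructor <;> nlinarith [sq_nonneg ‖w‖, abs_le_of_sq_le_sq' (a := u - c) (b := ρ)
      (by nlinarith [sq_nonneg ‖w‖]) h7.le]
  have h12 : kS a c r (pS c (s, u, w)) = (s, u, (‖w‖ : ℂ)) := by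
    simp only [kS, pS, ← hρ]
    rw [clamp_eq h1 h2, clamp_eq h8 h9, clamp_eq h11.1 h11.2]
    refine Prod.ext rfl (Prod.ext ?_ ?_)
    · simp only
      field_simp
      ring
    · simp only
      congr 1
      have h13 : ρ * √(1 - ((u - c) / ρ) ^ 2) = √(ρ ^ 2 * (1 - ((u - c) / ρ) ^ 2)) := by
        rw [Real.sqrt_mul (by positivity), Real.sqrt_sq h7.le]
      rw [h13]
      have h14 : ρ ^ 2 * (1 - ((u - c) / ρ) ^ 2) = ‖w‖ ^ 2 := by
        field_simp
        rw [h6, h10]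
        ring
      rw [h14, Real.sqrt_sq (norm_nonneg w)]
  refine ⟨Complex.arg w, ?_⟩
  rw [h12]
  simp only [rotp]
  rw [mul_comm, Complex.norm_mul_exp_arg_mul_I]

end

end Pool.Agent.Helper65.Barb


end

/-! ## Helper65.Barb.Scale -/

section

/-!
# Scaling and reversal of the model thickened sphere
-/

set_option autoImplicit false
set_option linter.unusedSectionVars false
set_option linter.unusedVariables false

open scoped Manifold ContDiff Topology ComplexConjugate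
open Set

namespace Pool.Agent.Helper65.Barb

/-- the inverse similarity -/
noncomputable def sclInv (c r : ℝ) (p : R4) : R4 :=
  (p.1, r⁻¹ * (p.2.1 - c), ((r⁻¹ : ℝ) : ℂ) * p.2.2)

theorem scl_sclInv {c r : ℝ} (hr : 0 < r) (p : R4) : scl c r (sclInv c r p) = p := by
  refine Prod.ext rfl (Prod.ext ?_ ?_)
  · simp only [scl, sclInv]; field_simp; ring
  · simp only [scl, sclInv]
    have : (r : ℂ) ≠ 0 := Complex.ofReal_ne_zero.2 hr.ne'
    push_cast
    field_simp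

theorem sclInv_scl {c r : ℝ} (hr : 0 < r) (p : R4) : sclInv c r (scl c r p) = p := by
  refine Prod.ext rfl (Prod.ext ?_ ?_)
  · simp only [scl, sclInv]; field_simp; ring
  · simp only [scl, sclInv]
    have : (r : ℂ) ≠ 0 := Complex.ofReal_ne_zero.2 hr.ne'
    push_cast
    field_simp

theorem flip_flip (p : R4) : flip (flip p) = p := by
  refine Prod.ext ?_ (Prod.ext ?_ rfl)
  · simp [flip]
  · simp [flip]

theorem nsq_smul (r : ℝ) (x : ℝ × ℂ) : nsq (r * x.1, (r : ℂ) * x.2) = r ^ 2 * nsq x := by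
  simp only [nsq, Complex.re_ofReal_mul, Complex.im_ofReal_mul]
  ring

theorem rsq_scl (c r : ℝ) (p : R4) : rsq c (scl c r p) = r ^ 2 * rsq 0 p := by
  have := nsq_smul r (p.2.1, p.2.2)
  simp only [rsq, scl, add_sub_cancel_left, sub_zero]
  exact this

theorem rsq_sclInv {c r : ℝ} (hr : 0 < r) (p : R4) : r ^ 2 * rsq 0 (sclInv c r p) = rsq c p := by
  have := rsq_scl c r (sclInv c r p)
  rw [scl_sclInv hr] at this
  exact this.symm

theorem rsq_flip (p : R4) : rsq 0 (flip p) = rsq 0 p := by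
  simp [rsq, nsq, flip]

theorem scl_rotp (c r θ : ℝ) (p : R4) : scl c r (rotp θ p) = rotp θ (scl c r p) := by
  refine Prod.ext rfl (Prod.ext rfl ?_)
  simp only [scl, rotp]; ring

theorem sclInv_rotp (c r θ : ℝ) (p : R4) : sclInv c r (rotp θ p) = rotp θ (sclInv c r p) := by
  refine Prod.ext rfl (Prod.ext rfl ?_)
  simp only [sclInv, rotp]; ring

theorem flip_rotp (θ : ℝ) (p : R4) : flip (rotp θ p) = rotp θ (flip p) := rfl

theorem rot_smul (α β : ℂ) (r : ℝ) (x : ℝ × ℂ) :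
    rot α β (r * x.1, (r : ℂ) * x.2) = (r * (rot α β x).1, (r : ℂ) * (rot α β x).2) := by
  refine Prod.ext ?_ ?_
  · simp only [rot]
    have : (α * conj β * ((r : ℂ) * x.2)) = (r : ℂ) * (α * conj β * x.2) := by ring
    rw [this, Complex.im_ofReal_mul]
    ring
  · simp only [rot, map_mul, Complex.conj_ofReal, Complex.ofReal_mul]
    ring

theorem twist_scl {c r : ℝ} (hr : 0 < r) (t : ℝ) (p : R4) :
    (twist c r).f (t, scl c r p) = scl c r ((twist 0 1).f (t, p)) := by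
  have h1 : nsq (r * p.2.1, (r : ℂ) * p.2.2) / r ^ 2 = nsq (p.2.1, p.2.2) / 1 ^ 2 := by
    have := nsq_smul r (p.2.1, p.2.2)
    simp only at this
    rw [this]
    field_simp
  have h2 := fun α β => rot_smul α β r (p.2.1, p.2.2)
  simp only [twist, twistF, scl, add_sub_cancel_left, sub_zero, add_zero, spin, h1, h2]
  rw [add_comm]

theorem twist_scl_inv {c r : ℝ} (hr : 0 < r) (t : ℝ) (p : R4) :
    (twist c r).g (t, scl c r p) = scl c r ((twist 0 1).g (t, p)) := by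
  have h := twist_scl (c := c) hr t ((twist 0 1).g (t, p))
  rw [(twist 0 1).fg] at h
  rw [← h, (twist c r).gf]

theorem scl_mem_ShC {a c r : ℝ} (hr : 0 < r) {p : R4} : scl c r p ∈ ShC a c r ↔ p ∈ ShC a 0 1 := by
  have hr2 : 0 < r ^ 2 := by positivity
  simp only [ShC, mem_ofPred_eq, rsq_scl, mul_one, mul_pow _ r]
  have e1 : r ^ 2 * rsq 0 p ≤ (2 + a / 4) ^ 2 * r ^ 2 ↔ rsq 0 p ≤ (2 + a / 4) ^ 2 := by
    rw [mul_comm, mul_le_mul_iff_left₀ hr2]
  have e2 : (1 - a / 4) ^ 2 * r ^ 2 ≤ r ^ 2 * rsq 0 p ↔ (1 - a / 4) ^ 2 ≤ rsq 0 p := by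
    rw [mul_comm (r ^ 2), mul_le_mul_iff_left₀ hr2]
  rw [e1, e2]
  rfl

theorem scl_mem_Sh {a c r : ℝ} (hr : 0 < r) {p : R4} : scl c r p ∈ Sh a c r ↔ p ∈ Sh a 0 1 := by
  have hr2 : 0 < r ^ 2 := by positivity
  simp only [Sh, mem_ofPred_eq, rsq_scl, mul_one, mul_pow _ r]
  have e1 : r ^ 2 * rsq 0 p < (2 + a / 4) ^ 2 * r ^ 2 ↔ rsq 0 p < (2 + a / 4) ^ 2 := by
    rw [mul_comm, mul_lt_mul_iff_left₀ hr2]
  have e2 : (1 - a / 4) ^ 2 * r ^ 2 < r ^ 2 * rsq 0 p ↔ (1 - a / 4) ^ 2 < rsq 0 p := by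
    rw [mul_comm (r ^ 2), mul_lt_mul_iff_left₀ hr2]
  rw [e1, e2]
  rfl

theorem flip_mem_Sh {a : ℝ} {p : R4} (hp : p ∈ Sh a 0 1) : flip p ∈ Sh a 0 1 := by
  obtain ⟨h1, h2, h3, h4⟩ := hp
  refine ⟨?_, ?_, ?_, ?_⟩
  · change -a < 1 - p.1; linarith
  · change 1 - p.1 < 1 + a; linarith
  · rwa [rsq_flip]
  · rwa [rsq_flip]

theorem flip_mem_ShC {a : ℝ} {p : R4} (hp : p ∈ ShC a 0 1) : flip p ∈ ShC a 0 1 := by
  obtain ⟨h1, h2, h3, h4⟩ := hp
  refine ⟨?_, ?_, ?_, ?_⟩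
  · change -a ≤ 1 - p.1; linarith
  · change 1 - p.1 ≤ 1 + a; linarith
  · rwa [rsq_flip]
  · rwa [rsq_flip]

theorem contDiff_scl (c r : ℝ) : ContDiff ℝ ∞ (scl c r) :=
  contDiff_fst.prodMk ((contDiff_const.add (contDiff_const.mul contDiff_snd.fst)).prodMk
    (contDiff_const.mul contDiff_snd.snd))

theorem contDiff_sclInv (c r : ℝ) : ContDiff ℝ ∞ (sclInv c r) :=
  contDiff_fst.prodMk ((contDiff_const.mul (contDiff_snd.fst.sub contDiff_const)).prodMk
    (contDiff_const.mul contDiff_snd.snd))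

/-! ### composition of rotations -/

theorem rot_mul (α β α' β' : ℂ) (x : ℝ × ℂ) :
    rot α β (rot α' β' x) = rot (α * α' - β * conj β') (α * β' + β * conj α') x := by
  refine Prod.ext ?_ (Complex.ext ?_ ?_)
  all_goals
    simp only [rot, Complex.normSq_apply, Complex.sub_re, Complex.sub_im, Complex.add_re,
      Complex.add_im, Complex.mul_re, Complex.mul_im, pow_two, Complex.conj_re, Complex.conj_im,
      Complex.I_re, Complex.I_im, Complex.ofReal_re, Complex.ofReal_im, Complex.re_ofNat,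
      Complex.im_ofNat]
    ring

theorem rot_flip (α β : ℂ) (x : ℝ × ℂ) :
    (-(rot α β (-x.1, x.2)).1, (rot α β (-x.1, x.2)).2) = rot α (-β) x := by
  refine Prod.ext ?_ (Complex.ext ?_ ?_)
  all_goals
    simp only [rot, Complex.normSq_apply, Complex.sub_re, Complex.sub_im, Complex.add_re,
      Complex.add_im, Complex.mul_re, Complex.mul_im, pow_two, Complex.conj_re, Complex.conj_im,
      Complex.I_re, Complex.I_im, Complex.ofReal_re, Complex.ofReal_im, Complex.re_ofNat,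
      Complex.im_ofNat, Complex.neg_re, Complex.neg_im, Complex.ofReal_neg]
    ring

theorem step_symm (s : ℝ) : step (1 - s) = 1 - step s := by
  unfold step Real.smoothTransition
  have h := Real.smoothTransition.pos_denom s
  simp only [sub_sub_cancel]
  have h2 : expNegInvGlue (1 - s) + expNegInvGlue s ≠ 0 := by
    rw [add_comm]; exact h.ne'
  rw [eq_sub_iff_add_eq, add_comm (expNegInvGlue s)]
  rw [← add_div, div_self h2]

theorem eta_symm (s : ℝ) : eta (1 - s) = conj (eta s) := by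
  have h1 : eta (1 - s) * eta s = 1 := by
    rw [eta, eta, ← Complex.exp_add, step_symm, ← add_mul, ← Complex.ofReal_add]
    have : 2 * Real.pi * (1 - step s) + 2 * Real.pi * step s = 2 * Real.pi := by ring
    rw [this]
    push_cast
    exact Complex.exp_two_pi_mul_I
  have h2 : conj (eta s) * eta s = 1 := by
    rw [mul_comm, Complex.mul_conj, normSq_eta]; simp
  have h3 : eta s ≠ 0 := right_ne_zero_of_mul_eq_one h2
  exact mul_right_cancel₀ h3 (h1.trans h2.symm)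

theorem qa_symm (s P : ℝ) : qa (1 - s) P = conj (qa s P) := by
  simp only [qa, eta_symm, map_add, map_mul, Complex.conj_ofReal]

theorem qb_symm (s P : ℝ) : qb (1 - s) P = conj (qb s P) := by
  simp only [qb, eta_symm, map_sub, map_mul, Complex.conj_ofReal, map_one, Complex.conj_conj]

/-- the quaternion coefficients of the twist composed with its reversed version -/
noncomputable def QA (s P : ℝ) : ℂ := (Complex.normSq (qa s P) : ℂ) + qb s P ^ 2

/-- the quaternion coefficients of the twist composed with its reversed version -/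
noncomputable def QB (s P : ℝ) : ℂ := qa s P * (qb s P - conj (qb s P))

theorem twist_flip_twist (p : R4) :
    (twist 0 1).f (1, flip ((twist 0 1).f (1, flip p))) =
      (p.1, rot (QA p.1 (cut (rsq 0 p))) (QB p.1 (cut (rsq 0 p))) (p.2.1, p.2.2)) := by
  set P := cut (rsq 0 p) with hP
  have hst : step 1 = 1 := step_of_one_le le_rfl
  have hn : nsq (-p.2.1, p.2.2) = nsq (p.2.1, p.2.2) := by simp [nsq]
  have hr0 : rsq 0 p = nsq (p.2.1, p.2.2) := by simp [rsq]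
  have h1 : flip ((twist 0 1).f (1, flip p)) =
      (p.1, rot (conj (qa p.1 P)) (-conj (qb p.1 P)) (p.2.1, p.2.2)) := by
    simp only [twist, twistF, flip, sub_zero, add_zero, hst, one_mul, one_pow, div_one, hn, spin,
      qa_symm, qb_symm, Prod.mk.eta, sub_sub_cancel]
    rw [← hr0, ← hP]
    have := rot_flip (conj (qa p.1 P)) (conj (qb p.1 P)) (p.2.1, p.2.2)
    simp only at this
    rw [← this]
  rw [h1]
  have h2 : nsq (rot (conj (qa p.1 P)) (-conj (qb p.1 P)) (p.2.1, p.2.2)) =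
      nsq (p.2.1, p.2.2) := by
    rw [nsq_rot, Complex.normSq_conj, Complex.normSq_neg, Complex.normSq_conj, normSq_q]
    ring
  simp only [twist, twistF, sub_zero, add_zero, hst, one_mul, one_pow, div_one, Prod.mk.eta,
    spin]
  rw [h2, ← hr0, ← hP, rot_mul]
  congr 2
  · rw [QA, map_neg, Complex.conj_conj, ← Complex.mul_conj]; ring
  · rw [QB, Complex.conj_conj]; ring

end Pool.Agent.Helper65.Barb


end

/-! ## Helper34.BI.H.StH4 -/

section

/-!
# Project BI, stage 3, section 4: general position for two-parameter families of arcs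

Statements (as `Prop` definitions) with complete proofs in the docstrings.  A module `M_X`
(`Pool/Agent/Helper34/BI/H/M_X.lean`) proves `theorem m_X : StX` (possibly from other statements as
hypotheses `(h : StY)`).  A family of arcs is a map `α : ℝ × ℝ × ℝ → R4`, `(u, q, s) ↦ α (u, q, s)`.
-/

set_option autoImplicit false

open Module Set Filter Topology MeasureTheory
open scoped ContDiff Manifold
open Pool.Agent.Helper65.Barb Pool.Agent.Helper18.BI

namespace Pool.Agent.Helper34.BI.H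

/-! ## parametric transversality for equations which are linear in the parameter -/

/-- **NP1.** The parameters `p` for which one of the equations `L x p = c x`, `x ∈ s`, holds form a
null set if the `L x` are surjective and `dim X < dim Y`.

*Proof.* By `TopologicalSpace.countable_cover_nhdsWithin` and `measure_biUnion_null_iff` it suffices to find for
each `x₀ ∈ s` an open `V ∋ x₀` such that the set of `p` with a solution `x ∈ s ∩ V` is null.  Let
`R : Y →L[ℝ] P` be a right inverse of `L x₀` (finite dimension), `K = ker (L x₀)`,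
`S x = (L x).comp R : Y →L[ℝ] Y`; `S x₀ = id`.  `L` is continuous within `s` at `x₀`, units are open, so
there is `V` with `S x` invertible for `x ∈ s ∩ V` (`ContinuousLinearMap.inverse`, `Ring.inverse`).
`Ψ (x, k) = R ((S x)⁻¹ (c x - L x k)) + k` on `(s ∩ V) × K` is differentiable (`differentiableAt` of the inverse:
`contDiffAt_map_inverse` or `differentiableAt_inverse`) and has values in `P`; `dim X + dim K < dim P` as
`dim K = dim P - dim Y` (`LinearMap.finrank_range_add_finrank_ker`); so its image is null (`null_image`,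
Null.lean).  If `L x p = c x` with `x ∈ s ∩ V`, put `y = L x₀ p`, `k = p - R y ∈ K`: then
`S x y + L x k = L x p = c x`, so `y = (S x)⁻¹ (c x - L x k)` and `p = Ψ (x, k)`. -/
def StNP1 : Prop :=
  ∀ (X P Y : Type) [NormedAddCommGroup X] [NormedSpace ℝ X] [FiniteDimensional ℝ X]
    [NormedAddCommGroup P] [NormedSpace ℝ P] [FiniteDimensional ℝ P] [MeasurableSpace P]
    [BorelSpace P] [NormedAddCommGroup Y] [NormedSpace ℝ Y] [FiniteDimensional ℝ Y]
    (μ : Measure P) [μ.IsAddHaarMeasure] (s : Set X) (L : X → P →L[ℝ] Y) (c : X → Y),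
    finrank ℝ X < finrank ℝ Y → DifferentiableOn ℝ L s → DifferentiableOn ℝ c s →
    (∀ x ∈ s, Function.Surjective (L x)) → μ {p | ∃ x ∈ s, L x p = c x} = 0

/-- **NP2.** Parametric transversality: the same with `dim X = dim Y`, for the parameters such that
the equation has a solution at which its derivative is not injective.

*Proof.* Same notation as in `NP1`, now `s` and `V` open, `V ⊆ s`; the map `Ψ : V × K → P` is
differentiable and `dim (X × K) = dim P`.  Let `p` be a bad parameter, `x ∈ V` the solution, `ζ ≠ 0` with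
`fderiv (x ↦ L x p - c x) x ζ = 0`, and `p = Ψ (x, k)`.  For all `(x', k')` near `(x, k)`:
`L x' (Ψ (x', k')) = c x'` (`L x' (R y + k') = S x' y + L x' k'`).  Differentiate in the direction `(ζ, 0)` at
`(x, k)`: `L x (DΨ (ζ, 0)) + fderiv (x ↦ L x p - c x) x ζ = 0`, so `L x (DΨ (ζ, 0)) = 0`.  Also
`DΨ (ζ, 0) = R y'` with `y' ∈ Y` the derivative of `(S x)⁻¹ (c x - L x k)`, so `S x y' = L x R y' = 0`, `y' = 0` and
`DΨ (ζ, 0) = 0`.  So `p` is in the image under `Ψ` of the set where `DΨ` is not injective.  Transport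
`Ψ` to a map `P → P` by a linear isomorphism `P ≃ X × K` and use
`addHaar_image_eq_zero_of_det_fderivWithin_eq_zero` (compare `null_sard` in Sard.lean). -/
def StNP2 : Prop :=
  ∀ (X P Y : Type) [NormedAddCommGroup X] [NormedSpace ℝ X] [FiniteDimensional ℝ X]
    [NormedAddCommGroup P] [NormedSpace ℝ P] [FiniteDimensional ℝ P] [MeasurableSpace P]
    [BorelSpace P] [NormedAddCommGroup Y] [NormedSpace ℝ Y] [FiniteDimensional ℝ Y]
    (μ : Measure P) [μ.IsAddHaarMeasure] (s : Set X) (L : X → P →L[ℝ] Y) (c : X → Y),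
    finrank ℝ X = finrank ℝ Y → IsOpen s → DifferentiableOn ℝ L s → DifferentiableOn ℝ c s →
    (∀ x ∈ s, Function.Surjective (L x)) →
    μ {p | ∃ x ∈ s, L x p = c x ∧
      ¬ Function.Injective (fderiv ℝ (fun x => L x p - c x) x)} = 0

/-! ## the perturbations -/

/-- the monomials; `z = (u, q, s)` -/
def mon (z : ℝ × ℝ × ℝ) : Fin 8 → ℝ :=
  ![1, z.2.2, z.2.2 ^ 2, z.2.2 ^ 3, z.2.1, z.2.1 * z.2.2, z.1, z.1 * z.2.2]

/-- the perturbed family -/
noncomputable def prt (α : ℝ × ℝ × ℝ → R4) (ρ : ℝ × ℝ → ℝ) (χ : ℝ → ℝ) (p : Fin 8 → R4)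
    (z : ℝ × ℝ × ℝ) : R4 :=
  α z + ∑ j, (ρ (z.1, z.2.1) * χ z.2.2 * mon z j) • p j

/-- the difference of two strands, as a function of `(u, q, s, t)` -/
def dbl (β : ℝ × ℝ × ℝ → R4) (z : ℝ × ℝ × ℝ × ℝ) : R4 :=
  β (z.1, z.2.1, z.2.2.1) - β (z.1, z.2.1, z.2.2.2)

/-- **NU1.** (uses `StNP1`) *Proof.* `X = ℝ × ℝ × ℝ`, `L z p = ∑ j, ∂_s (ρ χ mon_j) (z) • p j`,
`c z = - ∂_s α (z)`.  Surjective: the coefficients for `j = 0, 1` are `ρ χ'`, `ρ (s χ' + χ)`, not both zero. -/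
def StNU1 : Prop :=
  ∀ (μ : Measure (Fin 8 → R4)) [μ.IsAddHaarMeasure] (α : ℝ × ℝ × ℝ → R4) (ρ : ℝ × ℝ → ℝ)
    (χ : ℝ → ℝ), ContDiff ℝ ∞ α → ContDiff ℝ ∞ ρ → ContDiff ℝ ∞ χ →
    μ {p | ∃ u q s : ℝ, ρ (u, q) ≠ 0 ∧ χ s ≠ 0 ∧
      deriv (fun s => prt α ρ χ p (u, q, s)) s = 0} = 0

/-- **NU2.** (uses `StNP2`) *Proof.* `X = ℝ × ℝ × ℝ × ℝ ∋ x = (u, q, s, t)`,
`s = {ρ ≠ 0, s ≠ t, χ s ≠ 0 ∨ χ t ≠ 0}` (open), `L x p = ∑ j, (ρ (χ(s) mon_j(u,q,s) - χ(t) mon_j(u,q,t))) • p j`,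
`c x = - dbl α x`; then `L x p - c x = dbl (prt α ρ χ p) x`.  Surjective: the coefficients for `j = 0, 1`
are `ρ (χ(s) - χ(t))` and `ρ (s χ(s) - t χ(t))`; if both are zero then `χ(s) = χ(t)` and `(s - t) χ(t) = 0`. -/
def StNU2 : Prop :=
  ∀ (μ : Measure (Fin 8 → R4)) [μ.IsAddHaarMeasure] (α : ℝ × ℝ × ℝ → R4) (ρ : ℝ × ℝ → ℝ)
    (χ : ℝ → ℝ), ContDiff ℝ ∞ α → ContDiff ℝ ∞ ρ → ContDiff ℝ ∞ χ →
    μ {p | ∃ u q s t : ℝ, ρ (u, q) ≠ 0 ∧ s ≠ t ∧ (χ s ≠ 0 ∨ χ t ≠ 0) ∧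
      prt α ρ χ p (u, q, s) = prt α ρ χ p (u, q, t) ∧
      ¬ Function.Injective (fderiv ℝ (dbl (prt α ρ χ p)) (u, q, s, t))} = 0

/-- **NU3.** Double points at two different parameters `a w ≠ a' w`, `w ∈ ℝ³` (uses `StNP1`).

*Proof.* `X = (ℝ × ℝ × ℝ) × (ℝ × ℝ × ℝ × ℝ) ∋ x = (w, (s, t, s', t'))` (dimension 7), `Y = R4 × R4` (dimension 8),
`L x p = (∑ j, lam_j • p j, ∑ j, lam'_j • p j)`, `lam_j = ρ(a w) (χ(s) mon_j(a w, s) - χ(t) mon_j(a w, t))`,
`lam'_j = ρ(a' w) (χ(s') mon_j(a' w, s') - χ(t') mon_j(a' w, t'))`.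
Surjectivity.  If the linear map `L x` is not surjective there is a nonzero linear functional
`(e, e') ↦ f e + f' e'` on `Y` vanishing on its range.  Applied to `p = c • e`
(`c : Fin 8 → ℝ`, `e ∈ R4`): `(∑ lam_j c_j) f e + (∑ lam'_j c_j) f' e = 0`.  So it suffices: if
`A, B` are real numbers with `A ∑ lam_j c_j + B ∑ lam'_j c_j = 0` for all `c`, then `A = B = 0`.
Let `a w = (u, q)`, `a' w = (u', q')`.  If `q ≠ q'` use the polynomials `(q̂ - q')`, `(q̂ - q') s` (`q̂` the variable; they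
are combinations of `mon_0, mon_1, mon_4, mon_5`): the second sum vanishes, so
`A (q - q') ρ (χ(s) - χ(t)) = 0` and `A (q - q') ρ (s χ(s) - t χ(t)) = 0`, so `A = 0` (as in `NU2`); in the same way
`B = 0`.  If `u ≠ u'` use `(û - u')`, `(û - u') s` (`mon_0, mon_1, mon_6, mon_7`). -/
def StNU3 : Prop :=
  ∀ (μ : Measure (Fin 8 → R4)) [μ.IsAddHaarMeasure] (α : ℝ × ℝ × ℝ → R4) (ρ : ℝ × ℝ → ℝ)
    (χ : ℝ → ℝ), ContDiff ℝ ∞ α → ContDiff ℝ ∞ ρ → ContDiff ℝ ∞ χ →
    ∀ a a' : ℝ × ℝ × ℝ → ℝ × ℝ, ContDiff ℝ ∞ a → ContDiff ℝ ∞ a' →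
    μ {p | ∃ (w : ℝ × ℝ × ℝ) (s t s' t' : ℝ), a w ≠ a' w ∧ ρ (a w) ≠ 0 ∧ ρ (a' w) ≠ 0 ∧ s ≠ t ∧
      s' ≠ t' ∧ (χ s ≠ 0 ∨ χ t ≠ 0) ∧ (χ s' ≠ 0 ∨ χ t' ≠ 0) ∧
      prt α ρ χ p ((a w).1, (a w).2, s) = prt α ρ χ p ((a w).1, (a w).2, t) ∧
      prt α ρ χ p ((a' w).1, (a' w).2, s') = prt α ρ χ p ((a' w).1, (a' w).2, t')} = 0

/-- The two pairs of parameters `(s, t)`, `(s', t')` are admissible for `StNU4`. -/
structure Adm (χ : ℝ → ℝ) (s t s' t' : ℝ) : Prop where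
  n1 : s ≠ t
  n2 : s' ≠ t'
  n3 : ¬ (s = s' ∧ t = t')
  n4 : ¬ (s = t' ∧ t = s')
  c1 : χ s ≠ 0 ∨ χ t ≠ 0
  c2 : χ s' ≠ 0 ∨ χ t' ≠ 0
  d1 : s = s' → χ t ≠ 0 ∨ χ t' ≠ 0
  d2 : s = t' → χ t ≠ 0 ∨ χ s' ≠ 0
  d3 : t = s' → χ s ≠ 0 ∨ χ t' ≠ 0
  d4 : t = t' → χ s ≠ 0 ∨ χ s' ≠ 0

/-- **NU4.** Two double points at the same parameter (uses `StNP1`).

*Proof.* `X = ℝ × ℝ × ℝ × ℝ × ℝ × ℝ` (dimension 6), `Y = R4 × R4`, as in `NU3`.  Surjectivity reduces to:
if `A (χ(s) m(s) - χ(t) m(t)) + B (χ(s') m(s') - χ(t') m(t')) = 0` for all real polynomials `m` of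
degree at most 3 (`mon_0, ..., mon_3`), then `A = B = 0`.
(i) If `s, t ∉ {s', t'}`: `m = (x - t)(x - s')(x - t')` gives `A χ(s) = 0`, `m = (x - s)(x - s')(x - t')` gives `A χ(t) = 0`, so
`A = 0` by `c1`; `m = (x - s)(x - t)(x - t')` and `(x - s)(x - t)(x - s')` give `B = 0` (here `s' ≠ s, t` and `t' ≠ s, t`).
(ii) If `s = s'`: then `t ≠ t'` (`n3`), `s, t, t'` are distinct.  `m = (x - s)(x - t')`: `A χ(t) = 0`; `m = (x - s)(x - t)`:
`B χ(t') = 0`; `m = (x - t)(x - t')`: `(A + B) χ(s) = 0`.  If `χ(t) = 0` then `χ(s) ≠ 0` (`c1`), `χ(t') ≠ 0` (`d1`), so `B = 0`,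
`A = 0`.  If `χ(t) ≠ 0` then `A = 0`, and `B χ(s) = B χ(t') = 0`, so `B = 0` by `c2`.
(iii) `s = t'`, `t = s'`, `t = t'`: reduce to (ii) by exchanging `s, t` (replace `A` by `-A`) and/or `s', t'` (replace `B` by `-B`):
prove (ii) as a lemma about four numbers with hypotheses symmetric under these exchanges. -/
def StNU4 : Prop :=
  ∀ (μ : Measure (Fin 8 → R4)) [μ.IsAddHaarMeasure] (α : ℝ × ℝ × ℝ → R4) (ρ : ℝ × ℝ → ℝ)
    (χ : ℝ → ℝ), ContDiff ℝ ∞ α → ContDiff ℝ ∞ ρ → ContDiff ℝ ∞ χ →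
    μ {p | ∃ u q s t s' t' : ℝ, ρ (u, q) ≠ 0 ∧ Adm χ s t s' t' ∧
      prt α ρ χ p (u, q, s) = prt α ρ χ p (u, q, t) ∧
      prt α ρ χ p (u, q, s') = prt α ρ χ p (u, q, t')} = 0

/-- The family of arcs `β` is in general position where `ρ` and `χ` do not vanish. -/
structure GP (β : ℝ × ℝ × ℝ → R4) (ρ : ℝ × ℝ → ℝ) (χ : ℝ → ℝ) : Prop where
  imm : ∀ u q s, ρ (u, q) ≠ 0 → χ s ≠ 0 → deriv (fun s => β (u, q, s)) s ≠ 0
  trans : ∀ u q s t, ρ (u, q) ≠ 0 → s ≠ t → (χ s ≠ 0 ∨ χ t ≠ 0) → β (u, q, s) = β (u, q, t) →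
    Function.Injective (fderiv ℝ (dbl β) (u, q, s, t))
  sep : ∀ u q u' q' s t s' t', (u, q) ≠ (u', q') → (u = u' ∨ q = q') → ρ (u, q) ≠ 0 →
    ρ (u', q') ≠ 0 → s ≠ t → s' ≠ t' → (χ s ≠ 0 ∨ χ t ≠ 0) → (χ s' ≠ 0 ∨ χ t' ≠ 0) →
    β (u, q, s) = β (u, q, t) → β (u', q', s') ≠ β (u', q', t')
  one : ∀ u q s t s' t', ρ (u, q) ≠ 0 → Adm χ s t s' t' → β (u, q, s) = β (u, q, t) →
    β (u, q, s') ≠ β (u, q, t')

/-- **GP.** Existence of small perturbations in general position (from `NU1`, ..., `NU4`). -/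
def StGP : Prop :=
  ∀ (α : ℝ × ℝ × ℝ → R4) (ρ : ℝ × ℝ → ℝ) (χ : ℝ → ℝ), ContDiff ℝ ∞ α → ContDiff ℝ ∞ ρ →
    ContDiff ℝ ∞ χ → ∀ ε > 0, ∃ p : Fin 8 → R4, ‖p‖ < ε ∧ GP (prt α ρ χ p) ρ χ

/-! ## the theorem -/

/-- `(u, q)` is in the closed unit square -/
def Sq (u q : ℝ) : Prop := u ∈ Icc (0 : ℝ) 1 ∧ q ∈ Icc (0 : ℝ) 1

/-- `u` or `q` is at distance at most `δ` from the end of the interval -/
def Nb (δ u q : ℝ) : Prop := u ≤ δ ∨ 1 - δ ≤ u ∨ q ≤ δ ∨ 1 - δ ≤ q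

/-- The input of the general position theorem: `K` is the wall, `[s₀, s₁]` the interval of
parameters of the arcs. -/
structure In4 (α : ℝ × ℝ × ℝ → R4) (s₀ s₁ δ : ℝ) (K : Set R4) : Prop where
  smooth : ContDiff ℝ ∞ α
  pos : 0 < δ
  small : δ < 1 / 2
  room : s₀ + 2 * δ < s₁ - 2 * δ
  frozen : ∀ u q s, (s ≤ s₀ + 2 * δ ∨ s₁ - 2 * δ ≤ s) → α (u, q, s) = α (0, 0, s)
  emb : ∀ u q, Sq u q → Nb δ u q → InjOn (fun s => α (u, q, s)) (Icc s₀ s₁) ∧
    ∀ s ∈ Icc s₀ s₁, deriv (fun s => α (u, q, s)) s ≠ 0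
  off : ∀ u q, Sq u q → ∀ s ∈ Icc (s₀ + δ) (s₁ - δ), α (u, q, s) ∉ K

/-- The output of the general position theorem; `D` is the set of the double points
`(u, q, s, t)`. -/
structure Out4 (α β : ℝ × ℝ × ℝ → R4) (s₀ s₁ δ : ℝ) (K : Set R4) (D : Set (ℝ × ℝ × ℝ × ℝ)) :
    Prop where
  smooth : ContDiff ℝ ∞ β
  frozen : ∀ u q s, (s ≤ s₀ + δ ∨ s₁ - δ ≤ s) → β (u, q, s) = α (0, 0, s)
  eq : ∀ u q s, Nb (δ / 2) u q → β (u, q, s) = α (u, q, s)
  off : ∀ u q, Sq u q → ∀ s ∈ Icc (s₀ + δ) (s₁ - δ), β (u, q, s) ∉ K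
  imm : ∀ u q, Sq u q → ∀ s ∈ Icc s₀ s₁, deriv (fun s => β (u, q, s)) s ≠ 0
  fin : D.Finite
  all : ∀ u q, Sq u q → ∀ s ∈ Icc s₀ s₁, ∀ t ∈ Icc s₀ s₁, s < t → β (u, q, s) = β (u, q, t) →
    (u, q, s, t) ∈ D
  mem : ∀ u q s t, (u, q, s, t) ∈ D → u ∈ Ioo (0 : ℝ) 1 ∧ q ∈ Ioo (0 : ℝ) 1 ∧ s ∈ Icc s₀ s₁ ∧
    t ∈ Icc s₀ s₁ ∧ s < t ∧ β (u, q, s) = β (u, q, t) ∧ β (u, q, s) ∉ K ∧
    Function.Injective (fderiv ℝ (dbl β) (u, q, s, t))
  sepu : ∀ d ∈ D, ∀ d' ∈ D, d.1 = d'.1 → d = d'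
  sepq : ∀ d ∈ D, ∀ d' ∈ D, d.2.1 = d'.2.1 → d = d'

/-- **H4.** General position (uses `StGP`).

*Proof.* `ρ (u, q) = hat (δ/2) (1 - δ/2) u * hat (δ/2) (1 - δ/2) q`, `χ = hat (s₀ + δ) (s₁ - δ)` (Arcs.lean: `hat a b t ≠ 0`
iff `a < t < b`).  So `ρ (u, q) = 0` implies `Nb (δ/2) u q` and `χ s = 0` implies `s ≤ s₀ + δ ∨ s₁ - δ ≤ s`.
The compact sets `α '' ([0,1]² × [s₀ + δ, s₁ - δ])` and `K` are disjoint, so at distance `≥ η > 0`; the
coefficients `ρ χ mon_j` are bounded on the compact set, so for `‖p‖` small the perturbation has norm `< η`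
there.  `StGP` gives `p`, `β = prt α ρ χ p`.
`smooth`, `frozen` (`χ s = 0`), `eq` (`ρ = 0`), `off`: clear.
`imm`: if `ρ (u, q) = 0`: `β (u, q, ·) = α (u, q, ·)`, and `Nb δ u q`.  If `ρ ≠ 0`, `χ s ≠ 0`: `GP.imm`.  If `χ s = 0`: also
`deriv χ s = 0` (local minimum, `hat ≥ 0`), so `∂_s β (u,q,s) = ∂_s α (u,q,s) = ∂_s α (0,0,s) ≠ 0` (`α (u,q,·) = α (0,0,·)`
near `s` because `s < s₀ + 2δ` or `s > s₁ - 2δ`; `Nb δ 0 0`).
`D` := the set of all `(u, q, s, t)` with `Sq u q`, `s, t ∈ [s₀, s₁]`, `s < t`, `β (u,q,s) = β (u,q,t)`.  For `d ∈ D`: `ρ (u,q) ≠ 0`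
(otherwise `β (u,q,·) = α (u,q,·)` is injective), so `u, q ∈ (0,1)`; `χ s ≠ 0 ∨ χ t ≠ 0` (otherwise `α (0,0,s) = α (0,0,t)`),
so the value is not in `K` (`off`) and `GP.trans` applies.
`fin`: every point `d` of the compact set `C = {Sq u q, s₀ ≤ s ≤ t ≤ s₁}` has a neighbourhood `N` with `N ∩ D ⊆ {d}`
(then `D ⊆ C` is finite, `IsCompact.elim_nhds_subcover`): if `s < t` and `β (u,q,s) ≠ β (u,q,t)`: continuity; if `s < t`, `d ∈ D`:
`dbl β` is injective near `d` (`isLocalDiffeomorphAt_of_injective`, Loc.lean) and vanishes on `D`; if `s = t`: choose a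
continuous linear functional `f` with `f (∂_s β (u,q,s)) ≠ 0` (one of the four coordinates); `f (∂_s β) ≠ 0` on a product
neighbourhood `B` (a ball) of `(u,q,s)`; if `(u', q', s', t') ∈ D` with `(u',q',s'), (u',q',t') ∈ B`, Rolle's theorem for
`f (β (u', q', ·))` on `[s', t']` gives a zero of `f (∂_s β)` in `B` (balls are convex), contradiction.
`sepu`, `sepq`: let `d = (u,q,s,t) ≠ d' = (u',q',s',t')` in `D` with `u = u'` or `q = q'`.  If `(u,q) ≠ (u',q')`: `GP.sep`.  If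
`(u,q) = (u',q')`: `(s,t) ≠ (s',t')`, and `Adm χ s t s' t'` holds: `n4`: `s = t'`, `t = s'` give `s < t = s' < t' = s`.  `d1`: if
`s = s'` and `χ t = χ t' = 0` then `α (0,0,t) = β (u,q,t) = β (u,q,s) = β (u,q,t') = α (0,0,t')`, so `t = t'`, contradiction.
`d2`: `s = t'`, `χ t = χ s' = 0`: `α(0,0,t) = β(s) = β(t') = β(s') = α(0,0,s')`, so `t = s'`, contradiction as in `n4`.
`d3`: `t = s'`, `χ s = χ t' = 0`: `α(0,0,s) = β(t) = β(s') = β(t') = α(0,0,t')`, so `s = t'`, contradiction.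
`d4`: `t = t'`, `χ s = χ s' = 0`: `s = s'`, contradiction.  So `GP.one` gives a contradiction. -/
def StH4 : Prop :=
  ∀ (α : ℝ × ℝ × ℝ → R4) (s₀ s₁ δ : ℝ) (K : Set R4), IsCompact K → In4 α s₀ s₁ δ K →
    ∃ (β : ℝ × ℝ × ℝ → R4) (D : Set (ℝ × ℝ × ℝ × ℝ)), Out4 α β s₀ s₁ δ K D

end Pool.Agent.Helper34.BI.H


end

/-! ## Helper34.BI.H.M_NP1 -/

section

/-!
# Module NP1: parametric transversality, `dim X < dim Y`
-/

set_option autoImplicit false

open Module Set Filter Topology MeasureTheory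
open scoped ContDiff Manifold
open Pool.Agent.Helper65.Barb Pool.Agent.Helper18.BI

namespace Pool.Agent.Helper34.BI.H

section np1

variable {X P Y : Type} [NormedAddCommGroup X] [NormedSpace ℝ X] [FiniteDimensional ℝ X]
    [NormedAddCommGroup P] [NormedSpace ℝ P] [FiniteDimensional ℝ P] [MeasurableSpace P]
    [BorelSpace P] [NormedAddCommGroup Y] [NormedSpace ℝ Y] [FiniteDimensional ℝ Y]
    (μ : Measure P) [μ.IsAddHaarMeasure] {s : Set X} {L : X → P →L[ℝ] Y} {c : X → Y}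

private theorem local_NP1 (hdim : finrank ℝ X < finrank ℝ Y) (hL : DifferentiableOn ℝ L s)
    (hc : DifferentiableOn ℝ c s) (hsurj : ∀ x ∈ s, Function.Surjective (L x)) (x₀ : X)
    (hx₀ : x₀ ∈ s) : ∃ V ∈ 𝓝[s] x₀, μ {p | ∃ x ∈ s, x ∈ V ∧ L x p = c x} = 0 := by
  have : CompleteSpace Y := FiniteDimensional.complete ℝ Y
  obtain ⟨g, hg⟩ := (L x₀ : P →ₗ[ℝ] Y).exists_rightInverse_of_surjective
    (LinearMap.range_eq_top.2 (hsurj x₀ hx₀))
  let R : Y →L[ℝ] P := LinearMap.toContinuousLinearMap g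
  have hR : ∀ y, L x₀ (R y) = y := fun y => LinearMap.congr_fun hg y
  let K : Submodule ℝ P := LinearMap.ker (L x₀ : P →ₗ[ℝ] Y)
  let S : X → (Y →L[ℝ] Y) := fun x => (L x).comp R
  have hS0 : S x₀ = 1 := by
    ext y
    exact hR y
  have hSd : DifferentiableOn ℝ S s := hL.clm_comp (differentiableOn_const R)
  have hV : {x | IsUnit (S x)} ∈ 𝓝[s] x₀ := by
    have h1 : ContinuousWithinAt S s x₀ := (hSd x₀ hx₀).continuousWithinAt
    have h2 : {T : Y →L[ℝ] Y | IsUnit T} ∈ 𝓝 (S x₀) := by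
      refine Units.isOpen.mem_nhds ?_
      rw [hS0]
      exact isUnit_one
    exact h1 h2
  refine ⟨_, hV, ?_⟩
  let S' : Set (X × K) := {q | q.1 ∈ s ∧ IsUnit (S q.1)}
  let Ψ : X × K → P := fun q =>
    R (Ring.inverse (S q.1) (c q.1 - L q.1 (q.2 : P))) + (q.2 : P)
  have m1 : MapsTo (fun q : X × K => q.1) S' s := fun q hq => hq.1
  have d1 : DifferentiableOn ℝ (fun q : X × K => q.1) S' := differentiable_fst.differentiableOn
  have d2 : DifferentiableOn ℝ (fun q : X × K => (q.2 : P)) S' :=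
    (K.subtypeL.differentiable.comp differentiable_snd).differentiableOn
  have dL : DifferentiableOn ℝ (fun q : X × K => L q.1) S' := hL.comp d1 m1
  have dc : DifferentiableOn ℝ (fun q : X × K => c q.1) S' := hc.comp d1 m1
  have dS : DifferentiableOn ℝ (fun q : X × K => S q.1) S' := hSd.comp d1 m1
  have dI : DifferentiableOn ℝ (fun q : X × K => Ring.inverse (S q.1)) S' := by
    intro q hq
    exact (differentiableAt_inverse hq.2).comp_differentiableWithinAt q (dS q hq)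
  have dΨ : DifferentiableOn ℝ Ψ S' := by
    refine DifferentiableOn.add ?_ d2
    exact R.differentiable.comp_differentiableOn (dI.clm_apply (dc.sub (dL.clm_apply d2)))
  have hdim' : finrank ℝ (X × K) < finrank ℝ P := by
    have h1 := (L x₀ : P →ₗ[ℝ] Y).finrank_range_add_finrank_ker
    rw [LinearMap.range_eq_top.2 (hsurj x₀ hx₀), finrank_top] at h1
    rw [finrank_prod]
    change finrank ℝ X + finrank ℝ (LinearMap.ker (L x₀ : P →ₗ[ℝ] Y)) < finrank ℝ P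
    omega
  refine measure_mono_null ?_ (null_image μ hdim' dΨ)
  rintro p ⟨x, hx, hxV, hxe⟩
  have hk : p - R (L x₀ p) ∈ K := by
    change L x₀ (p - R (L x₀ p)) = 0
    rw [map_sub, hR, sub_self]
  refine ⟨(x, ⟨p - R (L x₀ p), hk⟩), ⟨hx, hxV⟩, ?_⟩
  have h1 : c x - L x (p - R (L x₀ p)) = S x (L x₀ p) := by
    rw [map_sub, hxe]
    change c x - (c x - L x (R (L x₀ p))) = L x (R (L x₀ p))
    abel
  have h2 : Ring.inverse (S x) (S x (L x₀ p)) = L x₀ p := by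
    have h3 := Ring.inverse_mul_cancel (S x) hxV
    exact DFunLike.congr_fun h3 (L x₀ p)
  change R (Ring.inverse (S x) (c x - L x (p - R (L x₀ p)))) + (p - R (L x₀ p)) = p
  rw [h1, h2]
  abel

end np1

/-- Module NP1. -/
theorem m_NP1 : StNP1 := by
  intro X P Y _ _ _ _ _ _ _ _ _ _ _ μ _ s L c hdim hL hc hsurj
  have key : ∀ x : X, ∃ V : Set X, (x ∈ s → V ∈ 𝓝[s] x) ∧
      μ {p | ∃ x ∈ s, x ∈ V ∧ L x p = c x} = 0 := by
    intro x
    by_cases hx : x ∈ s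
    · obtain ⟨V, hV, hn⟩ := local_NP1 μ hdim hL hc hsurj x hx
      exact ⟨V, fun _ => hV, hn⟩
    · refine ⟨∅, fun h => absurd h hx, ?_⟩
      simp
  choose V hV hn using key
  obtain ⟨t, -, htc, ht⟩ := TopologicalSpace.countable_cover_nhdsWithin hV
  refine measure_mono_null ?_ ((measure_biUnion_null_iff htc).2 (fun x _ => hn x))
  rintro p ⟨x, hx, hxe⟩
  obtain ⟨y, hy, hxy⟩ := mem_iUnion₂.1 (ht hx)
  exact mem_iUnion₂.2 ⟨y, hy, x, hx, hxy, hxe⟩

end Pool.Agent.Helper34.BI.H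


end

/-! ## Helper34.BI.H.M_NU1 -/

section

/-!
# Project BI, stage 3, module NU1: generic families of arcs are immersed
-/

set_option autoImplicit false

open Module Set Filter Topology MeasureTheory
open scoped ContDiff Manifold
open Pool.Agent.Helper65.Barb Pool.Agent.Helper18.BI

namespace Pool.Agent.Helper34.BI.H

namespace NU1

/-- the derivatives of the monomials in `s` -/
def dmon (z : ℝ × ℝ × ℝ) : Fin 8 → ℝ :=
  ![0, 1, 2 * z.2.2, 3 * z.2.2 ^ 2, 0, z.2.1, 0, z.1]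

theorem hasDerivAt_mon (u q s : ℝ) (j : Fin 8) :
    HasDerivAt (fun s => mon (u, q, s) j) (dmon (u, q, s) j) s := by
  have h1 : HasDerivAt (fun s : ℝ => s) 1 s := hasDerivAt_id s
  have h2 : HasDerivAt (fun s : ℝ => s ^ 2) (2 * s) s := by
    have := hasDerivAt_pow 2 s
    simpa using this
  have h3 : HasDerivAt (fun s : ℝ => s ^ 3) (3 * s ^ 2) s := by
    have := hasDerivAt_pow 3 s
    simpa using this
  have h5 : HasDerivAt (fun s : ℝ => q * s) q s := by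
    have := h1.const_mul q
    simpa using this
  have h7 : HasDerivAt (fun s : ℝ => u * s) u s := by
    have := h1.const_mul u
    simpa using this
  fin_cases j
  · exact hasDerivAt_const s (1 : ℝ)
  · exact h1
  · exact h2
  · exact h3
  · exact hasDerivAt_const s q
  · exact h5
  · exact hasDerivAt_const s u
  · exact h7

theorem differentiable_mon (j : Fin 8) : Differentiable ℝ (fun z : ℝ × ℝ × ℝ => mon z j) := by
  fin_cases j
  · exact differentiable_const (1 : ℝ)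
  · show Differentiable ℝ (fun z : ℝ × ℝ × ℝ => z.2.2)
    fun_prop
  · show Differentiable ℝ (fun z : ℝ × ℝ × ℝ => z.2.2 ^ 2)
    fun_prop
  · show Differentiable ℝ (fun z : ℝ × ℝ × ℝ => z.2.2 ^ 3)
    fun_prop
  · show Differentiable ℝ (fun z : ℝ × ℝ × ℝ => z.2.1)
    fun_prop
  · show Differentiable ℝ (fun z : ℝ × ℝ × ℝ => z.2.1 * z.2.2)
    fun_prop
  · show Differentiable ℝ (fun z : ℝ × ℝ × ℝ => z.1)
    fun_prop
  · show Differentiable ℝ (fun z : ℝ × ℝ × ℝ => z.1 * z.2.2)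
    fun_prop

theorem differentiable_dmon (j : Fin 8) : Differentiable ℝ (fun z : ℝ × ℝ × ℝ => dmon z j) := by
  fin_cases j
  · exact differentiable_const (0 : ℝ)
  · exact differentiable_const (1 : ℝ)
  · show Differentiable ℝ (fun z : ℝ × ℝ × ℝ => 2 * z.2.2)
    fun_prop
  · show Differentiable ℝ (fun z : ℝ × ℝ × ℝ => 3 * z.2.2 ^ 2)
    fun_prop
  · exact differentiable_const (0 : ℝ)
  · show Differentiable ℝ (fun z : ℝ × ℝ × ℝ => z.2.1)
    fun_prop
  · exact differentiable_const (0 : ℝ)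
  · show Differentiable ℝ (fun z : ℝ × ℝ × ℝ => z.1)
    fun_prop

/-- the coefficients -/
noncomputable def co (ρ : ℝ × ℝ → ℝ) (χ : ℝ → ℝ) (z : ℝ × ℝ × ℝ) (j : Fin 8) : ℝ :=
  ρ (z.1, z.2.1) * (deriv χ z.2.2 * mon z j + χ z.2.2 * dmon z j)

/-- the linear maps -/
noncomputable def Lm (ρ : ℝ × ℝ → ℝ) (χ : ℝ → ℝ) (z : ℝ × ℝ × ℝ) : (Fin 8 → R4) →L[ℝ] R4 :=
  ∑ j, co ρ χ z j • (ContinuousLinearMap.proj j : (Fin 8 → R4) →L[ℝ] R4)

theorem Lm_apply (ρ : ℝ × ℝ → ℝ) (χ : ℝ → ℝ) (z : ℝ × ℝ × ℝ) (p : Fin 8 → R4) :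
    Lm ρ χ z p = ∑ j, co ρ χ z j • p j := by
  unfold Lm
  simp only [_root_.sum_apply]
  rfl

theorem deriv_prt {α : ℝ × ℝ × ℝ → R4} {ρ : ℝ × ℝ → ℝ} {χ : ℝ → ℝ} (hα : Differentiable ℝ α)
    (hχ : Differentiable ℝ χ) (p : Fin 8 → R4) (u q s : ℝ) :
    deriv (fun s => prt α ρ χ p (u, q, s)) s =
      fderiv ℝ α (u, q, s) (0, 0, 1) + Lm ρ χ (u, q, s) p := by
  have h1 : HasDerivAt (fun s : ℝ => (u, q, s)) ((0 : ℝ), (0 : ℝ), (1 : ℝ)) s :=
    (hasDerivAt_const s u).prodMk ((hasDerivAt_const s q).prodMk (hasDerivAt_id s))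
  have h2 : HasDerivAt (fun s : ℝ => α (u, q, s)) (fderiv ℝ α (u, q, s) (0, 0, 1)) s :=
    (hα (u, q, s)).hasFDerivAt.comp_hasDerivAt s h1
  have h3 : ∀ j : Fin 8, HasDerivAt (fun s : ℝ => (ρ (u, q) * χ s * mon (u, q, s) j) • p j)
      (co ρ χ (u, q, s) j • p j) s := by
    intro j
    have h4 := (((hχ s).hasDerivAt.const_mul (ρ (u, q))).mul (hasDerivAt_mon u q s j)).smul_const
      (p j)
    have e : co ρ χ (u, q, s) j = ρ (u, q) * deriv χ s * mon (u, q, s) j +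
        ρ (u, q) * χ s * dmon (u, q, s) j := by
      unfold co
      ring
    rw [e]
    exact h4
  have h5 := h2.add (HasDerivAt.fun_sum (u := Finset.univ) (fun j _ => h3 j))
  rw [Lm_apply]
  exact h5.deriv

theorem surj {ρ : ℝ × ℝ → ℝ} {χ : ℝ → ℝ} {z : ℝ × ℝ × ℝ} (h1 : ρ (z.1, z.2.1) ≠ 0)
    (h2 : χ z.2.2 ≠ 0) : Function.Surjective (Lm ρ χ z) := by
  have key : ∀ j : Fin 8, co ρ χ z j ≠ 0 → Function.Surjective (Lm ρ χ z) := by
    intro j hj y
    refine ⟨Pi.single j ((co ρ χ z j)⁻¹ • y), ?_⟩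
    rw [Lm_apply, Finset.sum_eq_single j]
    · rw [Pi.single_eq_same, smul_smul, mul_inv_cancel₀ hj, one_smul]
    · intro i _ hij
      rw [Pi.single_eq_of_ne hij, smul_zero]
    · intro h
      exact absurd (Finset.mem_univ j) h
  by_cases h3 : co ρ χ z 0 ≠ 0
  · exact key 0 h3
  · push Not at h3
    apply key 1
    intro h4
    have e0 : co ρ χ z 0 = ρ (z.1, z.2.1) * (deriv χ z.2.2 * 1 + χ z.2.2 * 0) := rfl
    have e1 : co ρ χ z 1 = ρ (z.1, z.2.1) * (deriv χ z.2.2 * z.2.2 + χ z.2.2 * 1) := rfl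
    rw [e0] at h3
    rw [e1] at h4
    have h5 := (mul_eq_zero.1 h3).resolve_left h1
    have h6 := (mul_eq_zero.1 h4).resolve_left h1
    have h7 : deriv χ z.2.2 = 0 := by linarith
    rw [h7] at h6
    apply h2
    linarith

end NU1

/-- MODULE NU1. -/
theorem m_NU1 (hNP1 : StNP1) : StNU1 := by
  intro μ _ α ρ χ hα hρ hχ
  have d0 : Differentiable ℝ α := hα.differentiable (by simp)
  have d1 : Differentiable ℝ ρ := hρ.differentiable (by simp)
  have d2 : Differentiable ℝ χ := hχ.differentiable (by simp)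
  have d4 : Differentiable ℝ (deriv χ) :=
    (ContDiff.deriv' (n := ∞) (by simpa using hχ)).differentiable (by simp)
  have d3 : Differentiable ℝ (fun x : ℝ × ℝ × ℝ => fderiv ℝ α x (0, 0, 1)) := by
    have : ContDiff ℝ ∞ (fderiv ℝ α) := hα.fderiv_right (by simp)
    exact ((this.differentiable (by simp)).clm_apply (differentiable_const _))
  have hdim : finrank ℝ (ℝ × ℝ × ℝ) < finrank ℝ R4 := by
    simp [Complex.finrank_real_complex]
  have dco : ∀ j : Fin 8, Differentiable ℝ (fun z : ℝ × ℝ × ℝ => NU1.co ρ χ z j) := by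
    intro j
    have e1 := NU1.differentiable_mon j
    have e2 := NU1.differentiable_dmon j
    have e3 : Differentiable ℝ (fun z : ℝ × ℝ × ℝ => ρ (z.1, z.2.1)) :=
      d1.comp (by fun_prop)
    have e4 : Differentiable ℝ (fun z : ℝ × ℝ × ℝ => deriv χ z.2.2) := d4.comp (by fun_prop)
    have e5 : Differentiable ℝ (fun z : ℝ × ℝ × ℝ => χ z.2.2) := d2.comp (by fun_prop)
    exact e3.mul ((e4.mul e1).add (e5.mul e2))
  have dL : Differentiable ℝ (NU1.Lm ρ χ) := by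
    unfold NU1.Lm
    exact Differentiable.fun_sum (fun j _ => (dco j).smul_const _)
  have key := hNP1 (ℝ × ℝ × ℝ) (Fin 8 → R4) R4 μ
    {z : ℝ × ℝ × ℝ | ρ (z.1, z.2.1) ≠ 0 ∧ χ z.2.2 ≠ 0} (NU1.Lm ρ χ)
    (fun z => -fderiv ℝ α z (0, 0, 1)) hdim dL.differentiableOn d3.neg.differentiableOn
    (fun z hz => NU1.surj hz.1 hz.2)
  refine measure_mono_null ?_ key
  rintro p ⟨u, q, s, h1, h2, h3⟩
  refine ⟨(u, q, s), ⟨h1, h2⟩, ?_⟩
  rw [NU1.deriv_prt d0 d2] at h3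
  rw [eq_neg_iff_add_eq_zero, add_comm]
  exact h3

end Pool.Agent.Helper34.BI.H


end

/-! ## Helper34.BI.H.M_NU2 -/

section

/-!
# Project BI, stage 3, module NU2: generic double points are transverse
-/

set_option autoImplicit false

open Module Set Filter Topology MeasureTheory
open scoped ContDiff Manifold
open Pool.Agent.Helper65.Barb Pool.Agent.Helper18.BI

namespace Pool.Agent.Helper34.BI.H

private theorem mon_diff_NU2 (j : Fin 8) : Differentiable ℝ (fun z : ℝ × ℝ × ℝ => mon z j) := by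
  fin_cases j <;> simp only [mon] <;> (try simp) <;> fun_prop

/-- the coefficients -/
private noncomputable def co_NU2 (ρ : ℝ × ℝ → ℝ) (χ : ℝ → ℝ) (x : ℝ × ℝ × ℝ × ℝ) (j : Fin 8) : ℝ :=
  ρ (x.1, x.2.1) * (χ x.2.2.1 * mon (x.1, x.2.1, x.2.2.1) j -
    χ x.2.2.2 * mon (x.1, x.2.1, x.2.2.2) j)

/-- the linear maps -/
private noncomputable def L_NU2 (ρ : ℝ × ℝ → ℝ) (χ : ℝ → ℝ) (x : ℝ × ℝ × ℝ × ℝ) :
    (Fin 8 → R4) →L[ℝ] R4 :=
  ∑ j, co_NU2 ρ χ x j • ContinuousLinearMap.proj (R := ℝ) (φ := fun _ : Fin 8 => R4) j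

private theorem L_apply_NU2 (ρ : ℝ × ℝ → ℝ) (χ : ℝ → ℝ) (x : ℝ × ℝ × ℝ × ℝ) (p : Fin 8 → R4) :
    L_NU2 ρ χ x p = ∑ j, co_NU2 ρ χ x j • p j := by
  simp only [L_NU2, ContinuousLinearMap.sum_apply, ContinuousLinearMap.smul_apply,
    ContinuousLinearMap.proj_apply]

private theorem eq_NU2 (α : ℝ × ℝ × ℝ → R4) (ρ : ℝ × ℝ → ℝ) (χ : ℝ → ℝ) (p : Fin 8 → R4)
    (x : ℝ × ℝ × ℝ × ℝ) :
    L_NU2 ρ χ x p - (-dbl α x) = dbl (prt α ρ χ p) x := by
  rw [L_apply_NU2]
  simp only [dbl, prt]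
  have h : ∑ j, co_NU2 ρ χ x j • p j =
      ∑ j, (ρ (x.1, x.2.1) * χ x.2.2.1 * mon (x.1, x.2.1, x.2.2.1) j) • p j -
        ∑ j, (ρ (x.1, x.2.1) * χ x.2.2.2 * mon (x.1, x.2.1, x.2.2.2) j) • p j := by
    rw [← Finset.sum_sub_distrib]
    refine Finset.sum_congr rfl fun j _ => ?_
    rw [← sub_smul, co_NU2]
    congr 1
    ring
  rw [h]
  abel

private theorem surj_NU2 (ρ : ℝ × ℝ → ℝ) (χ : ℝ → ℝ) (x : ℝ × ℝ × ℝ × ℝ) {j : Fin 8}
    (hj : co_NU2 ρ χ x j ≠ 0) : Function.Surjective (L_NU2 ρ χ x) := by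
  intro y
  refine ⟨Pi.single j ((co_NU2 ρ χ x j)⁻¹ • y), ?_⟩
  rw [L_apply_NU2, Finset.sum_eq_single_of_mem j (Finset.mem_univ j)]
  · rw [Pi.single_eq_same, smul_smul, mul_inv_cancel₀ hj, one_smul]
  · intro i _ hi
    rw [Pi.single_eq_of_ne hi, smul_zero]

private theorem L_diff_NU2 {ρ : ℝ × ℝ → ℝ} {χ : ℝ → ℝ} (hρ : Differentiable ℝ ρ)
    (hχ : Differentiable ℝ χ) : Differentiable ℝ (L_NU2 ρ χ) := by
  unfold L_NU2
  have h : ∀ j : Fin 8, Differentiable ℝ (fun x => co_NU2 ρ χ x j) := by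
    intro j
    have h1 : Differentiable ℝ (fun x : ℝ × ℝ × ℝ × ℝ => mon (x.1, x.2.1, x.2.2.1) j) :=
      (mon_diff_NU2 j).comp (f := fun x : ℝ × ℝ × ℝ × ℝ => (x.1, x.2.1, x.2.2.1)) (by fun_prop)
    have h2 : Differentiable ℝ (fun x : ℝ × ℝ × ℝ × ℝ => mon (x.1, x.2.1, x.2.2.2) j) :=
      (mon_diff_NU2 j).comp (f := fun x : ℝ × ℝ × ℝ × ℝ => (x.1, x.2.1, x.2.2.2)) (by fun_prop)
    unfold co_NU2
    fun_prop
  refine Differentiable.fun_sum fun j _ => ?_
  exact (h j).smul_const _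

/-- **NU2.** Generic double points are transverse. -/
theorem m_NU2 (h2 : StNP2) : StNU2 := by
  intro μ _ α ρ χ hα hρ hχ
  have d1 : Differentiable ℝ ρ := hρ.differentiable (by simp)
  have d2 : Differentiable ℝ χ := hχ.differentiable (by simp)
  have d3 : Differentiable ℝ α := hα.differentiable (by simp)
  have hfr : finrank ℝ (ℝ × ℝ × ℝ × ℝ) = finrank ℝ R4 := by
    simp [R4, finrank_prod, Complex.finrank_real_complex]
  have hdbl : Differentiable ℝ (fun x => -dbl α x) := by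
    unfold dbl
    fun_prop
  have hs : IsOpen {x : ℝ × ℝ × ℝ × ℝ | ρ (x.1, x.2.1) ≠ 0 ∧ x.2.2.1 ≠ x.2.2.2 ∧
      (χ x.2.2.1 ≠ 0 ∨ χ x.2.2.2 ≠ 0)} := by
    refine IsOpen.inter ?_ (IsOpen.inter ?_ (IsOpen.union ?_ ?_))
    · exact isOpen_ne_fun (d1.continuous.comp (by fun_prop)) continuous_const
    · exact isOpen_ne_fun (by fun_prop) (by fun_prop)
    · exact isOpen_ne_fun (d2.continuous.comp (by fun_prop)) continuous_const
    · exact isOpen_ne_fun (d2.continuous.comp (by fun_prop)) continuous_const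
  have key := h2 (ℝ × ℝ × ℝ × ℝ) (Fin 8 → R4) R4 μ _ (L_NU2 ρ χ) (fun x => -dbl α x) hfr hs
    (L_diff_NU2 d1 d2).differentiableOn hdbl.differentiableOn ?_
  · refine measure_mono_null ?_ key
    rintro p ⟨u, q, s, t, hρ0, hst, hχ0, heq, hinj⟩
    refine ⟨(u, q, s, t), ⟨hρ0, hst, hχ0⟩, ?_, ?_⟩
    · rw [← sub_eq_zero, eq_NU2]
      exact sub_eq_zero.2 heq
    · have : (fun x => L_NU2 ρ χ x p - (-dbl α x)) = dbl (prt α ρ χ p) :=
        funext fun x => eq_NU2 α ρ χ p x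
      rw [this]
      exact hinj
  · rintro ⟨u, q, s, t⟩ ⟨hρ0, hst, hχ0⟩
    by_cases h0 : co_NU2 ρ χ (u, q, s, t) 0 = 0
    · by_cases h1 : co_NU2 ρ χ (u, q, s, t) 1 = 0
      · exfalso
        simp only at hρ0 hst hχ0
        simp only [co_NU2, mon, Matrix.cons_val_zero, Matrix.cons_val_one, mul_one] at h0 h1
        have h3 : χ s - χ t = 0 := (mul_eq_zero.1 h0).resolve_left hρ0
        have h4 : χ s * s - χ t * t = 0 := (mul_eq_zero.1 h1).resolve_left hρ0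
        have h5 : χ s = χ t := by linarith
        rw [h5] at h4
        have h6 : (s - t) * χ t = 0 := by linarith
        have h7 : χ t = 0 := (mul_eq_zero.1 h6).resolve_left (sub_ne_zero.2 hst)
        rcases hχ0 with h8 | h8
        · exact h8 (h5.trans h7)
        · exact h8 h7
      · exact surj_NU2 ρ χ _ h1
    · exact surj_NU2 ρ χ _ h0

end Pool.Agent.Helper34.BI.H


end

/-! ## Helper34.BI.H.M_NU3 -/

section

/-!
# Project BI, stage 3, module NU3: double points at two different parameters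
-/

set_option autoImplicit false

open Module Set Filter Topology MeasureTheory
open scoped ContDiff Manifold
open Pool.Agent.Helper65.Barb Pool.Agent.Helper18.BI

namespace Pool.Agent.Helper34.BI.H

namespace NU3

/-- the coefficients of the parameters in the difference of two strands -/
noncomputable def lam (ρ : ℝ × ℝ → ℝ) (χ : ℝ → ℝ) (b : ℝ × ℝ) (s t : ℝ) (j : Fin 8) : ℝ :=
  ρ b * (χ s * mon (b.1, b.2, s) j - χ t * mon (b.1, b.2, t) j)

/-- the combination of the coefficients which belongs to a polynomial -/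
private theorem lam_sum (ρ : ℝ × ℝ → ℝ) (χ : ℝ → ℝ) (b : ℝ × ℝ) (s t : ℝ) (c : Fin 8 → ℝ) :
    ∑ j, lam ρ χ b s t j * c j
      = ρ b * (χ s * ∑ j, mon (b.1, b.2, s) j * c j - χ t * ∑ j, mon (b.1, b.2, t) j * c j) := by
  simp only [lam, Finset.mul_sum, ← Finset.sum_sub_distrib]
  exact Finset.sum_congr rfl fun j _ => by ring

private theorem exists_ne {ρ : ℝ × ℝ → ℝ} {χ : ℝ → ℝ} {b b' : ℝ × ℝ} (hb : b ≠ b') (h1 : ρ b ≠ 0)
    {s t : ℝ} (hst : s ≠ t) (hχ : χ s ≠ 0 ∨ χ t ≠ 0) (s' t' : ℝ) :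
    ∃ c : Fin 8 → ℝ, ∑ j, lam ρ χ b s t j * c j ≠ 0 ∧ ∑ j, lam ρ χ b' s' t' j * c j = 0 := by
  have hne : χ s - χ t ≠ 0 ∨ χ s * s - χ t * t ≠ 0 := by
    by_contra hc
    push Not at hc
    obtain ⟨e1, e2⟩ := hc
    have e3 : χ s = χ t := by linarith
    have e4 : χ t * (s - t) = 0 := by rw [e3] at e2; linarith
    rcases mul_eq_zero.1 e4 with h | h
    · rcases hχ with h' | h'
      · exact h' (e3.trans h)
      · exact h' h
    · exact hst (by linarith)
  have hb' : b.2 ≠ b'.2 ∨ b.1 ≠ b'.1 := by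
    by_contra hc
    push Not at hc
    exact hb (Prod.ext hc.2 hc.1)
  rcases hb' with hq | hq
  · have hq' : b.2 - b'.2 ≠ 0 := sub_ne_zero.2 hq
    rcases hne with hn | hn
    · refine ⟨![-b'.2, 0, 0, 0, 1, 0, 0, 0], ?_, ?_⟩
      · rw [lam_sum]
        have e : ∀ x : ℝ, ∑ j, mon (b.1, b.2, x) j * (![-b'.2, 0, 0, 0, 1, 0, 0, 0] : Fin 8 → ℝ) j
            = b.2 - b'.2 := by
          intro x
          simp [Fin.sum_univ_succ, mon]
          ring
        rw [e, e]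
        have : ρ b * (χ s * (b.2 - b'.2) - χ t * (b.2 - b'.2))
            = ρ b * ((b.2 - b'.2) * (χ s - χ t)) := by ring
        rw [this]
        exact mul_ne_zero h1 (mul_ne_zero hq' hn)
      · rw [lam_sum]
        have e : ∀ x : ℝ, ∑ j, mon (b'.1, b'.2, x) j * (![-b'.2, 0, 0, 0, 1, 0, 0, 0] : Fin 8 → ℝ) j
            = 0 := by
          intro x
          simp [Fin.sum_univ_succ, mon]
        rw [e, e]
        ring
    · refine ⟨![0, -b'.2, 0, 0, 0, 1, 0, 0], ?_, ?_⟩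
      · rw [lam_sum]
        have e : ∀ x : ℝ, ∑ j, mon (b.1, b.2, x) j * (![0, -b'.2, 0, 0, 0, 1, 0, 0] : Fin 8 → ℝ) j
            = (b.2 - b'.2) * x := by
          intro x
          simp [Fin.sum_univ_succ, mon]
          ring
        rw [e, e]
        have : ρ b * (χ s * ((b.2 - b'.2) * s) - χ t * ((b.2 - b'.2) * t))
            = ρ b * ((b.2 - b'.2) * (χ s * s - χ t * t)) := by ring
        rw [this]
        exact mul_ne_zero h1 (mul_ne_zero hq' hn)
      · rw [lam_sum]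
        have e : ∀ x : ℝ, ∑ j, mon (b'.1, b'.2, x) j * (![0, -b'.2, 0, 0, 0, 1, 0, 0] : Fin 8 → ℝ) j
            = 0 := by
          intro x
          simp [Fin.sum_univ_succ, mon]
          ring
        rw [e, e]
        ring
  · have hq' : b.1 - b'.1 ≠ 0 := sub_ne_zero.2 hq
    rcases hne with hn | hn
    · refine ⟨![-b'.1, 0, 0, 0, 0, 0, 1, 0], ?_, ?_⟩
      · rw [lam_sum]
        have e : ∀ x : ℝ, ∑ j, mon (b.1, b.2, x) j * (![-b'.1, 0, 0, 0, 0, 0, 1, 0] : Fin 8 → ℝ) j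
            = b.1 - b'.1 := by
          intro x
          simp [Fin.sum_univ_succ, mon]
          ring
        rw [e, e]
        have : ρ b * (χ s * (b.1 - b'.1) - χ t * (b.1 - b'.1))
            = ρ b * ((b.1 - b'.1) * (χ s - χ t)) := by ring
        rw [this]
        exact mul_ne_zero h1 (mul_ne_zero hq' hn)
      · rw [lam_sum]
        have e : ∀ x : ℝ, ∑ j, mon (b'.1, b'.2, x) j * (![-b'.1, 0, 0, 0, 0, 0, 1, 0] : Fin 8 → ℝ) j
            = 0 := by
          intro x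
          simp [Fin.sum_univ_succ, mon]
        rw [e, e]
        ring
    · refine ⟨![0, -b'.1, 0, 0, 0, 0, 0, 1], ?_, ?_⟩
      · rw [lam_sum]
        have e : ∀ x : ℝ, ∑ j, mon (b.1, b.2, x) j * (![0, -b'.1, 0, 0, 0, 0, 0, 1] : Fin 8 → ℝ) j
            = (b.1 - b'.1) * x := by
          intro x
          simp [Fin.sum_univ_succ, mon]
          ring
        rw [e, e]
        have : ρ b * (χ s * ((b.1 - b'.1) * s) - χ t * ((b.1 - b'.1) * t))
            = ρ b * ((b.1 - b'.1) * (χ s * s - χ t * t)) := by ring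
        rw [this]
        exact mul_ne_zero h1 (mul_ne_zero hq' hn)
      · rw [lam_sum]
        have e : ∀ x : ℝ, ∑ j, mon (b'.1, b'.2, x) j * (![0, -b'.1, 0, 0, 0, 0, 0, 1] : Fin 8 → ℝ) j
            = 0 := by
          intro x
          simp [Fin.sum_univ_succ, mon]
          ring
        rw [e, e]
        ring

private theorem exists_one {ρ : ℝ × ℝ → ℝ} {χ : ℝ → ℝ} {b b' : ℝ × ℝ} (hb : b ≠ b') (h1 : ρ b ≠ 0)
    {s t : ℝ} (hst : s ≠ t) (hχ : χ s ≠ 0 ∨ χ t ≠ 0) (s' t' : ℝ) :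
    ∃ c : Fin 8 → ℝ, ∑ j, lam ρ χ b s t j * c j = 1 ∧ ∑ j, lam ρ χ b' s' t' j * c j = 0 := by
  obtain ⟨c, h2, h3⟩ := exists_ne hb h1 hst hχ s' t'
  refine ⟨fun j => c j * (∑ j, lam ρ χ b s t j * c j)⁻¹, ?_, ?_⟩
  · simp only [← mul_assoc]
    rw [← Finset.sum_mul]
    exact mul_inv_cancel₀ h2
  · simp only [← mul_assoc]
    rw [← Finset.sum_mul, h3, zero_mul]

/-- the linear system -/
noncomputable def Lm (l l' : Fin 8 → ℝ) : (Fin 8 → R4) →L[ℝ] R4 × R4 :=
  ∑ j, (l j • (ContinuousLinearMap.inl ℝ R4 R4).comp (ContinuousLinearMap.proj j)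
    + l' j • (ContinuousLinearMap.inr ℝ R4 R4).comp (ContinuousLinearMap.proj j))

private theorem Lm_apply (l l' : Fin 8 → ℝ) (p : Fin 8 → R4) :
    Lm l l' p = (∑ j, l j • p j, ∑ j, l' j • p j) := by
  have h : ∀ j, (l j • (ContinuousLinearMap.inl ℝ R4 R4).comp
        (ContinuousLinearMap.proj (R := ℝ) (φ := fun _ : Fin 8 => R4) j)
      + l' j • (ContinuousLinearMap.inr ℝ R4 R4).comp
        (ContinuousLinearMap.proj (R := ℝ) (φ := fun _ : Fin 8 => R4) j) :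
      (Fin 8 → R4) →L[ℝ] R4 × R4) p = (l j • p j, l' j • p j) := by
    intro j
    apply Prod.ext <;> simp
  unfold Lm
  rw [ContinuousLinearMap.sum_apply, Finset.sum_congr rfl fun j _ => h j]
  exact Prod.ext (by rw [Prod.fst_sum]) (by rw [Prod.snd_sum])

private theorem Lm_surj {l l' : Fin 8 → ℝ} {c c' : Fin 8 → ℝ} (h1 : ∑ j, l j * c j = 1)
    (h2 : ∑ j, l' j * c j = 0) (h3 : ∑ j, l' j * c' j = 1) (h4 : ∑ j, l j * c' j = 0) :
    Function.Surjective (Lm l l') := by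
  rintro ⟨y, y'⟩
  refine ⟨fun j => c j • y + c' j • y', ?_⟩
  rw [Lm_apply]
  apply Prod.ext
  · change ∑ j, l j • (c j • y + c' j • y') = y
    simp only [smul_add, smul_smul, Finset.sum_add_distrib, ← Finset.sum_smul]
    rw [h1, h4, one_smul, zero_smul, add_zero]
  · change ∑ j, l' j • (c j • y + c' j • y') = y'
    simp only [smul_add, smul_smul, Finset.sum_add_distrib, ← Finset.sum_smul]
    rw [h2, h3, one_smul, zero_smul, zero_add]

private theorem prt_sub {α : ℝ × ℝ × ℝ → R4} {ρ : ℝ × ℝ → ℝ} {χ : ℝ → ℝ} {p : Fin 8 → R4}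
    {b : ℝ × ℝ} {s t : ℝ} (h : prt α ρ χ p (b.1, b.2, s) = prt α ρ χ p (b.1, b.2, t)) :
    ∑ j, lam ρ χ b s t j • p j = α (b.1, b.2, t) - α (b.1, b.2, s) := by
  unfold prt at h
  have e : ∑ j, lam ρ χ b s t j • p j
      = ∑ j, (ρ (b.1, b.2) * χ s * mon (b.1, b.2, s) j) • p j
        - ∑ j, (ρ (b.1, b.2) * χ t * mon (b.1, b.2, t) j) • p j := by
    rw [← Finset.sum_sub_distrib]
    refine Finset.sum_congr rfl fun j _ => ?_
    rw [← sub_smul]
    congr 1
    unfold lam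
    ring
  rw [e]
  have h' : α (b.1, b.2, s) + ∑ j, (ρ (b.1, b.2) * χ s * mon (b.1, b.2, s) j) • p j
      = α (b.1, b.2, t) + ∑ j, (ρ (b.1, b.2) * χ t * mon (b.1, b.2, t) j) • p j := h
  rw [sub_eq_sub_iff_add_eq_add, add_comm, h', add_comm]

private theorem mon_diff (j : Fin 8) : Differentiable ℝ (fun z : ℝ × ℝ × ℝ => mon z j) := by
  fin_cases j
  · exact differentiable_const 1
  · exact (show Differentiable ℝ (fun z : ℝ × ℝ × ℝ => z.2.2) by fun_prop)
  · exact (show Differentiable ℝ (fun z : ℝ × ℝ × ℝ => z.2.2 ^ 2) by fun_prop)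
  · exact (show Differentiable ℝ (fun z : ℝ × ℝ × ℝ => z.2.2 ^ 3) by fun_prop)
  · exact (show Differentiable ℝ (fun z : ℝ × ℝ × ℝ => z.2.1) by fun_prop)
  · exact (show Differentiable ℝ (fun z : ℝ × ℝ × ℝ => z.2.1 * z.2.2) by fun_prop)
  · exact (show Differentiable ℝ (fun z : ℝ × ℝ × ℝ => z.1) by fun_prop)
  · exact (show Differentiable ℝ (fun z : ℝ × ℝ × ℝ => z.1 * z.2.2) by fun_prop)

end NU3

open NU3 in
theorem m_NU3 (hNP1 : StNP1) : StNU3 := by
  intro μ _ α ρ χ hα hρ hχ a a' ha ha'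
  have dα : Differentiable ℝ α := hα.differentiable (by simp)
  have dρ : Differentiable ℝ ρ := hρ.differentiable (by simp)
  have dχ : Differentiable ℝ χ := hχ.differentiable (by simp)
  have da : Differentiable ℝ a := ha.differentiable (by simp)
  have da' : Differentiable ℝ a' := ha'.differentiable (by simp)
  have dmon := mon_diff
  let S : Set ((ℝ × ℝ × ℝ) × (ℝ × ℝ × ℝ × ℝ)) := {x | a x.1 ≠ a' x.1 ∧ ρ (a x.1) ≠ 0 ∧
    ρ (a' x.1) ≠ 0 ∧ x.2.1 ≠ x.2.2.1 ∧ x.2.2.2.1 ≠ x.2.2.2.2 ∧ (χ x.2.1 ≠ 0 ∨ χ x.2.2.1 ≠ 0) ∧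
    (χ x.2.2.2.1 ≠ 0 ∨ χ x.2.2.2.2 ≠ 0)}
  let l : (ℝ × ℝ × ℝ) × (ℝ × ℝ × ℝ × ℝ) → Fin 8 → ℝ := fun x j =>
    lam ρ χ (a x.1) x.2.1 x.2.2.1 j
  let l' : (ℝ × ℝ × ℝ) × (ℝ × ℝ × ℝ × ℝ) → Fin 8 → ℝ := fun x j =>
    lam ρ χ (a' x.1) x.2.2.2.1 x.2.2.2.2 j
  let c : (ℝ × ℝ × ℝ) × (ℝ × ℝ × ℝ × ℝ) → R4 × R4 := fun x =>
    (α ((a x.1).1, (a x.1).2, x.2.2.1) - α ((a x.1).1, (a x.1).2, x.2.1),
      α ((a' x.1).1, (a' x.1).2, x.2.2.2.2) - α ((a' x.1).1, (a' x.1).2, x.2.2.2.1))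
  have dl : ∀ j, Differentiable ℝ (fun x => l x j) := by
    intro j
    have := dmon j
    simp only [l, lam]
    fun_prop
  have dl' : ∀ j, Differentiable ℝ (fun x => l' x j) := by
    intro j
    have := dmon j
    simp only [l', lam]
    fun_prop
  have hL : Differentiable ℝ (fun x => Lm (l x) (l' x)) := by
    unfold Lm
    refine Differentiable.fun_sum fun j _ => ?_
    exact ((dl j).smul_const _).add ((dl' j).smul_const _)
  have hc : Differentiable ℝ c := by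
    simp only [c]
    fun_prop
  have hdim : finrank ℝ ((ℝ × ℝ × ℝ) × (ℝ × ℝ × ℝ × ℝ)) < finrank ℝ (R4 × R4) := by
    simp [Module.finrank_prod]
  have key := hNP1 ((ℝ × ℝ × ℝ) × (ℝ × ℝ × ℝ × ℝ)) (Fin 8 → R4) (R4 × R4) μ S
    (fun x => Lm (l x) (l' x)) c hdim hL.differentiableOn hc.differentiableOn (by
      rintro ⟨w, s, t, s', t'⟩ ⟨h1, h2, h3, h4, h5, h6, h7⟩
      obtain ⟨e, e1, e2⟩ := exists_one h1 h2 h4 h6 s' t'
      obtain ⟨e', e1', e2'⟩ := exists_one h1.symm h3 h5 h7 s t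
      exact Lm_surj e1 e2 e1' e2')
  refine measure_mono_null ?_ key
  rintro p ⟨w, s, t, s', t', h1, h2, h3, h4, h5, h6, h7, h8, h9⟩
  refine ⟨(w, s, t, s', t'), ⟨h1, h2, h3, h4, h5, h6, h7⟩, ?_⟩
  rw [Lm_apply]
  exact Prod.ext (prt_sub h8) (prt_sub h9)

end Pool.Agent.Helper34.BI.H


end

/-! ## Helper34.BI.H.M_NU4 -/

section

/-!
# Project BI, stage 3: module NU4
-/

set_option autoImplicit false

open Module Set Filter Topology MeasureTheory
open scoped ContDiff Manifold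
open Pool.Agent.Helper65.Barb Pool.Agent.Helper18.BI

namespace Pool.Agent.Helper34.BI.H

namespace NU4

/-- Two linearly independent rows of coefficients give a surjective map. -/
theorem surj_rows {Y : Type*} [NormedAddCommGroup Y] [NormedSpace ℝ Y] (a b : Fin 8 → ℝ)
    (h : ∀ A B : ℝ, (∀ j, A * a j + B * b j = 0) → A = 0 ∧ B = 0) (y y' : Y) :
    ∃ p : Fin 8 → Y, ∑ j, a j • p j = y ∧ ∑ j, b j • p j = y' := by
  by_cases hd : ∃ j k, a j * b k - a k * b j ≠ 0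
  · obtain ⟨j, k, hjk⟩ := hd
    set d := a j * b k - a k * b j with hdd
    refine ⟨Pi.single j (d⁻¹ • (b k • y - a k • y')) + Pi.single k (d⁻¹ • (a j • y' - b j • y)),
      ?_, ?_⟩
    · simp only [Pi.add_apply, smul_add, Finset.sum_add_distrib, Pi.single_apply, smul_ite,
        smul_zero, Finset.sum_ite_eq', Finset.mem_univ, if_true]
      have : a j • d⁻¹ • (b k • y - a k • y') + a k • d⁻¹ • (a j • y' - b j • y)
          = (d⁻¹ * d) • y := by
        rw [hdd]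
        module
      rw [this, inv_mul_cancel₀ hjk, one_smul]
    · simp only [Pi.add_apply, smul_add, Finset.sum_add_distrib, Pi.single_apply, smul_ite,
        smul_zero, Finset.sum_ite_eq', Finset.mem_univ, if_true]
      have : b j • d⁻¹ • (b k • y - a k • y') + b k • d⁻¹ • (a j • y' - b j • y)
          = (d⁻¹ * d) • y' := by
        rw [hdd]
        module
      rw [this, inv_mul_cancel₀ hjk, one_smul]
  · exfalso
    push Not at hd
    have hab : ∀ k, b k = 0 ∧ a k = 0 := by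
      intro k
      have := h (b k) (-a k) (fun j => by have := hd j k; linarith)
      exact ⟨this.1, neg_eq_zero.1 this.2⟩
    have := (h 1 0 (fun j => by rw [(hab j).2]; ring)).1
    exact one_ne_zero this

/-- three distinct points -/
theorem three {x y z a b c A B : ℝ} (hxy : x ≠ y) (hxz : x ≠ z) (hyz : y ≠ z)
    (h1 : a ≠ 0 ∨ b ≠ 0) (h2 : a ≠ 0 ∨ c ≠ 0) (h3 : b ≠ 0 ∨ c ≠ 0)
    (e0 : A * (a - b) + B * (a - c) = 0) (e1 : A * (a * x - b * y) + B * (a * x - c * z) = 0)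
    (e2 : A * (a * x ^ 2 - b * y ^ 2) + B * (a * x ^ 2 - c * z ^ 2) = 0) : A = 0 ∧ B = 0 := by
  have k1 : (A + B) * a = 0 := by
    have : ((A + B) * a) * ((x - y) * (x - z)) = 0 := by
      linear_combination e2 - (y + z) * e1 + y * z * e0
    exact (mul_eq_zero.1 this).resolve_right
      (mul_ne_zero (sub_ne_zero.2 hxy) (sub_ne_zero.2 hxz))
  have k2 : A * b = 0 := by
    have : (A * b) * ((y - x) * (y - z)) = 0 := by
      linear_combination -e2 + (x + z) * e1 - x * z * e0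
    exact (mul_eq_zero.1 this).resolve_right
      (mul_ne_zero (sub_ne_zero.2 hxy.symm) (sub_ne_zero.2 hyz))
  have k3 : B * c = 0 := by
    have : (B * c) * ((z - x) * (z - y)) = 0 := by
      linear_combination -e2 + (x + y) * e1 - x * y * e0
    exact (mul_eq_zero.1 this).resolve_right
      (mul_ne_zero (sub_ne_zero.2 hxz.symm) (sub_ne_zero.2 hyz.symm))
  by_cases hb : b = 0
  · have ha : a ≠ 0 := h1.resolve_right (not_not.2 hb)
    have hc : c ≠ 0 := h3.resolve_left (not_not.2 hb)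
    have hB : B = 0 := (mul_eq_zero.1 k3).resolve_right hc
    have hAB : A + B = 0 := (mul_eq_zero.1 k1).resolve_right ha
    exact ⟨by linarith, hB⟩
  · have hA : A = 0 := (mul_eq_zero.1 k2).resolve_right hb
    refine ⟨hA, ?_⟩
    rcases h2 with ha | hc
    · have hAB : A + B = 0 := (mul_eq_zero.1 k1).resolve_right ha
      linarith
    · exact (mul_eq_zero.1 k3).resolve_right hc

/-- four points -/
theorem four {χ : ℝ → ℝ} {s t s' t' A B : ℝ} (h : Adm χ s t s' t')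
    (e0 : A * (χ s - χ t) + B * (χ s' - χ t') = 0)
    (e1 : A * (χ s * s - χ t * t) + B * (χ s' * s' - χ t' * t') = 0)
    (e2 : A * (χ s * s ^ 2 - χ t * t ^ 2) + B * (χ s' * s' ^ 2 - χ t' * t' ^ 2) = 0)
    (e3 : A * (χ s * s ^ 3 - χ t * t ^ 3) + B * (χ s' * s' ^ 3 - χ t' * t' ^ 3) = 0) :
    A = 0 ∧ B = 0 := by
  obtain ⟨n1, n2, n3, n4, c1, c2, d1, d2, d3, d4⟩ := h
  by_cases q1 : s = s'
  · subst q1
    have htt : t ≠ t' := fun h => n3 ⟨rfl, h⟩
    exact three n1 n2 htt c1 c2 (d1 rfl) e0 e1 e2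
  by_cases q2 : s = t'
  · subst q2
    have htt : t ≠ s' := fun h => n4 ⟨rfl, h⟩
    have := three (A := A) (B := -B) n1 q1 htt c1 c2.symm (d2 rfl) (by linear_combination e0)
      (by linear_combination e1) (by linear_combination e2)
    exact ⟨this.1, neg_eq_zero.1 this.2⟩
  by_cases q3 : t = s'
  · subst q3
    have := three (A := -A) (B := B) n1.symm n2 q2 c1.symm c2 (d3 rfl)
      (by linear_combination e0) (by linear_combination e1) (by linear_combination e2)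
    exact ⟨neg_eq_zero.1 this.1, this.2⟩
  by_cases q4 : t = t'
  · subst q4
    have := three (A := -A) (B := -B) n1.symm n2.symm q1 c1.symm c2.symm (d4 rfl)
      (by linear_combination e0) (by linear_combination e1) (by linear_combination e2)
    exact ⟨neg_eq_zero.1 this.1, neg_eq_zero.1 this.2⟩
  have k1 : A * χ s = 0 := by
    have : (A * χ s) * ((s - t) * (s - s') * (s - t')) = 0 := by
      linear_combination e3 - (t + s' + t') * e2 + (t * s' + t * t' + s' * t') * e1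
        - t * s' * t' * e0
    exact (mul_eq_zero.1 this).resolve_right (mul_ne_zero (mul_ne_zero (sub_ne_zero.2 n1)
      (sub_ne_zero.2 q1)) (sub_ne_zero.2 q2))
  have k2 : A * χ t = 0 := by
    have : (A * χ t) * ((t - s) * (t - s') * (t - t')) = 0 := by
      linear_combination -e3 + (s + s' + t') * e2 - (s * s' + s * t' + s' * t') * e1
        + s * s' * t' * e0
    exact (mul_eq_zero.1 this).resolve_right (mul_ne_zero (mul_ne_zero (sub_ne_zero.2 n1.symm)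
      (sub_ne_zero.2 q3)) (sub_ne_zero.2 q4))
  have k3 : B * χ s' = 0 := by
    have : (B * χ s') * ((s' - s) * (s' - t) * (s' - t')) = 0 := by
      linear_combination e3 - (s + t + t') * e2 + (s * t + s * t' + t * t') * e1
        - s * t * t' * e0
    exact (mul_eq_zero.1 this).resolve_right (mul_ne_zero (mul_ne_zero (sub_ne_zero.2 (Ne.symm q1))
      (sub_ne_zero.2 (Ne.symm q3))) (sub_ne_zero.2 n2))
  have k4 : B * χ t' = 0 := by
    have : (B * χ t') * ((t' - s) * (t' - t) * (t' - s')) = 0 := by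
      linear_combination -e3 + (s + t + s') * e2 - (s * t + s * s' + t * s') * e1
        + s * t * s' * e0
    exact (mul_eq_zero.1 this).resolve_right (mul_ne_zero (mul_ne_zero (sub_ne_zero.2 (Ne.symm q2))
      (sub_ne_zero.2 (Ne.symm q4))) (sub_ne_zero.2 n2.symm))
  constructor
  · rcases c1 with h | h
    · exact (mul_eq_zero.1 k1).resolve_right h
    · exact (mul_eq_zero.1 k2).resolve_right h
  · rcases c2 with h | h
    · exact (mul_eq_zero.1 k3).resolve_right h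
    · exact (mul_eq_zero.1 k4).resolve_right h

/-- the coefficients of the difference of two strands -/
noncomputable def lam (ρ : ℝ × ℝ → ℝ) (χ : ℝ → ℝ) (u q s t : ℝ) (j : Fin 8) : ℝ :=
  ρ (u, q) * χ s * mon (u, q, s) j - ρ (u, q) * χ t * mon (u, q, t) j

theorem differentiable_mon (j : Fin 8) : Differentiable ℝ (fun z : ℝ × ℝ × ℝ => mon z j) := by
  fin_cases j <;> simp only [mon] <;> simp <;> fun_prop

theorem prt_sub (α : ℝ × ℝ × ℝ → R4) (ρ : ℝ × ℝ → ℝ) (χ : ℝ → ℝ) (p : Fin 8 → R4)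
    (u q s t : ℝ) : prt α ρ χ p (u, q, s) - prt α ρ χ p (u, q, t)
      = α (u, q, s) - α (u, q, t) + ∑ j, lam ρ χ u q s t j • p j := by
  simp only [prt, lam, sub_smul, Finset.sum_sub_distrib]
  abel

/-- the first block -/
noncomputable def P1 (j : Fin 8) : (Fin 8 → R4) →L[ℝ] R4 × R4 :=
  (ContinuousLinearMap.inl ℝ R4 R4).comp (ContinuousLinearMap.proj j)

/-- the second block -/
noncomputable def P2 (j : Fin 8) : (Fin 8 → R4) →L[ℝ] R4 × R4 :=
  (ContinuousLinearMap.inr ℝ R4 R4).comp (ContinuousLinearMap.proj j)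

end NU4

open NU4

theorem m_NU4 (h1 : StNP1) : StNU4 := by
  intro μ _ α ρ χ hα hρ hχ
  let X := ℝ × ℝ × ℝ × ℝ × ℝ × ℝ
  let L : X → (Fin 8 → R4) →L[ℝ] R4 × R4 := fun x =>
    ∑ j, (lam ρ χ x.1 x.2.1 x.2.2.1 x.2.2.2.1 j • P1 j
      + lam ρ χ x.1 x.2.1 x.2.2.2.2.1 x.2.2.2.2.2 j • P2 j)
  let c : X → R4 × R4 := fun x =>
    (-(α (x.1, x.2.1, x.2.2.1) - α (x.1, x.2.1, x.2.2.2.1)),
      -(α (x.1, x.2.1, x.2.2.2.2.1) - α (x.1, x.2.1, x.2.2.2.2.2)))
  let S : Set X := {x | ρ (x.1, x.2.1) ≠ 0 ∧ Adm χ x.2.2.1 x.2.2.2.1 x.2.2.2.2.1 x.2.2.2.2.2}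
  have hLval : ∀ x p, L x p = (∑ j, lam ρ χ x.1 x.2.1 x.2.2.1 x.2.2.2.1 j • p j,
      ∑ j, lam ρ χ x.1 x.2.1 x.2.2.2.2.1 x.2.2.2.2.2 j • p j) := by
    intro x p
    simp only [L, P1, P2, ContinuousLinearMap.sum_apply, ContinuousLinearMap.add_apply,
      ContinuousLinearMap.smul_apply, ContinuousLinearMap.comp_apply,
      ContinuousLinearMap.proj_apply, ContinuousLinearMap.inl_apply,
      ContinuousLinearMap.inr_apply, Prod.smul_mk, Prod.mk_add_mk, smul_zero, add_zero, zero_add]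
    ext <;> simp [Prod.fst_sum, Prod.snd_sum]
  have hdρ : Differentiable ℝ ρ := hρ.differentiable (by simp)
  have hdχ : Differentiable ℝ χ := hχ.differentiable (by simp)
  have hdα : Differentiable ℝ α := hα.differentiable (by simp)
  have hlam1 : ∀ j, Differentiable ℝ
      (fun x : X => lam ρ χ x.1 x.2.1 x.2.2.1 x.2.2.2.1 j) := by
    intro j
    have := differentiable_mon j
    unfold lam
    fun_prop
  have hlam2 : ∀ j, Differentiable ℝ
      (fun x : X => lam ρ χ x.1 x.2.1 x.2.2.2.2.1 x.2.2.2.2.2 j) := by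
    intro j
    have := differentiable_mon j
    unfold lam
    fun_prop
  have hL : DifferentiableOn ℝ L S := by
    apply Differentiable.differentiableOn
    refine Differentiable.fun_sum fun j _ => ?_
    exact ((hlam1 j).smul_const (P1 j)).add ((hlam2 j).smul_const (P2 j))
  have hc : DifferentiableOn ℝ c S := by
    apply Differentiable.differentiableOn
    show Differentiable ℝ (fun x : X => (-(α (x.1, x.2.1, x.2.2.1) - α (x.1, x.2.1, x.2.2.2.1)),
      -(α (x.1, x.2.1, x.2.2.2.2.1) - α (x.1, x.2.1, x.2.2.2.2.2))))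
    fun_prop
  have hs : ∀ x ∈ S, Function.Surjective (L x) := by
    rintro ⟨u, q, s, t, s', t'⟩ ⟨hr, hadm⟩ ⟨y, y'⟩
    simp only at hr hadm
    obtain ⟨p, hp, hp'⟩ := surj_rows (lam ρ χ u q s t) (lam ρ χ u q s' t') (by
      intro A B hAB
      have hh : ∀ e : ℝ, ρ (u, q) * e = 0 → e = 0 := fun e he =>
        (mul_eq_zero.1 he).resolve_left hr
      refine four hadm (hh _ ?_) (hh _ ?_) (hh _ ?_) (hh _ ?_)
      · have := hAB 0
        simp only [lam, mon] at this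
        simp at this
        linear_combination this
      · have := hAB 1
        simp only [lam, mon] at this
        simp at this
        linear_combination this
      · have := hAB 2
        simp only [lam, mon] at this
        simp at this
        linear_combination this
      · have := hAB 3
        simp only [lam, mon] at this
        simp at this
        linear_combination this) y y'
    refine ⟨p, ?_⟩
    rw [hLval]
    simp only
    rw [hp, hp']
  have hdim : finrank ℝ X < finrank ℝ (R4 × R4) := by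
    simp only [X, R4, Module.finrank_prod, Module.finrank_self, Complex.finrank_real_complex]
    norm_num
  have key := h1 X (Fin 8 → R4) (R4 × R4) μ S L c hdim hL hc hs
  refine measure_mono_null ?_ key
  rintro p ⟨u, q, s, t, s', t', hr, hadm, he, he'⟩
  refine ⟨(u, q, s, t, s', t'), ⟨hr, hadm⟩, ?_⟩
  rw [hLval]
  have g1 := prt_sub α ρ χ p u q s t
  have g2 := prt_sub α ρ χ p u q s' t'
  rw [he, sub_self] at g1
  rw [he', sub_self] at g2
  refine Prod.ext ?_ ?_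
  · show ∑ j, lam ρ χ u q s t j • p j = -(α (u, q, s) - α (u, q, t))
    exact (neg_eq_of_add_eq_zero_right g1.symm).symm
  · show ∑ j, lam ρ χ u q s' t' j • p j = -(α (u, q, s') - α (u, q, t'))
    exact (neg_eq_of_add_eq_zero_right g2.symm).symm

end Pool.Agent.Helper34.BI.H


end

/-! ## Helper34.BI.H.M_H4 -/

section

/-!
# Project BI, stage 3, module H4: general position for two-parameter families of arcs
-/

set_option autoImplicit false

open Module Set Filter Topology MeasureTheory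
open scoped ContDiff Manifold
open Pool.Agent.Helper65.Barb Pool.Agent.Helper18.BI

namespace Pool.Agent.Helper34.BI.H

namespace H4m

lemma contDiff_mon (j : Fin 8) : ContDiff ℝ ∞ (fun z : ℝ × ℝ × ℝ => mon z j) := by
  fin_cases j <;> simp only [mon] <;>
    simp only [Fin.mk_zero, Fin.mk_one, Matrix.cons_val_zero, Matrix.cons_val_one,
      Fin.reduceFinMk, Matrix.cons_val] <;> fun_prop

lemma contDiff_prt {α : ℝ × ℝ × ℝ → R4} {ρ : ℝ × ℝ → ℝ} {χ : ℝ → ℝ} (hα : ContDiff ℝ ∞ α)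
    (hρ : ContDiff ℝ ∞ ρ) (hχ : ContDiff ℝ ∞ χ) (p : Fin 8 → R4) :
    ContDiff ℝ ∞ (prt α ρ χ p) := by
  unfold prt
  refine hα.add (ContDiff.sum fun j _ => ContDiff.smul (ContDiff.mul (ContDiff.mul ?_ ?_)
    (contDiff_mon j)) contDiff_const)
  · exact hρ.comp (by fun_prop)
  · exact hχ.comp (by fun_prop)

lemma continuous_prt {α : ℝ × ℝ × ℝ → R4} {ρ : ℝ × ℝ → ℝ} {χ : ℝ → ℝ} (hα : Continuous α)
    (hρ : Continuous ρ) (hχ : Continuous χ) :
    Continuous (fun x : (Fin 8 → R4) × (ℝ × ℝ × ℝ) => prt α ρ χ x.1 x.2) := by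
  unfold prt
  refine (hα.comp continuous_snd).add (continuous_finsetSum _ fun j _ => ?_)
  have e1 : Continuous (fun x : (Fin 8 → R4) × (ℝ × ℝ × ℝ) => ρ (x.2.1, x.2.2.1)) :=
    hρ.comp (by fun_prop)
  have e2 : Continuous (fun x : (Fin 8 → R4) × (ℝ × ℝ × ℝ) => χ x.2.2.2) :=
    hχ.comp (by fun_prop)
  have e3 : Continuous (fun x : (Fin 8 → R4) × (ℝ × ℝ × ℝ) => mon x.2 j) :=
    (contDiff_mon j).continuous.comp continuous_snd
  have e4 : Continuous (fun x : (Fin 8 → R4) × (ℝ × ℝ × ℝ) => x.1 j) :=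
    (continuous_apply j).comp continuous_fst
  exact ((e1.mul e2).mul e3).smul e4

/-- smallness of the perturbation -/
lemma exists_eps {α : ℝ × ℝ × ℝ → R4} {ρ : ℝ × ℝ → ℝ} {χ : ℝ → ℝ} (hα : Continuous α)
    (hρ : Continuous ρ) (hχ : Continuous χ) {K : Set R4} (hK : IsCompact K)
    {S : Set (ℝ × ℝ × ℝ)} (hS : IsCompact S) (hSK : ∀ z ∈ S, α z ∉ K) :
    ∃ ε > 0, ∀ p : Fin 8 → R4, ‖p‖ < ε → ∀ z ∈ S, prt α ρ χ p z ∉ K := by
  have hop : IsOpen {x : (Fin 8 → R4) × (ℝ × ℝ × ℝ) | prt α ρ χ x.1 x.2 ∉ K} :=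
    hK.isClosed.isOpen_compl.preimage (continuous_prt hα hρ hχ)
  have hsub : ({0} : Set (Fin 8 → R4)) ×ˢ S ⊆
      {x : (Fin 8 → R4) × (ℝ × ℝ × ℝ) | prt α ρ χ x.1 x.2 ∉ K} := by
    rintro ⟨p, z⟩ ⟨hp, hz⟩
    have hp' : p = 0 := hp
    subst hp'
    have : prt α ρ χ 0 z = α z := by simp [prt]
    simp only [mem_ofPred_eq, this]
    exact hSK z hz
  obtain ⟨U, V, hU, -, h0, hSV, hUV⟩ := generalized_tube_lemma isCompact_singleton hS hop hsub
  obtain ⟨ε, hε, hball⟩ := Metric.isOpen_iff.1 hU 0 (h0 rfl)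
  refine ⟨ε, hε, fun p hp z hz => ?_⟩
  exact hUV (mk_mem_prod (hball (by simpa using hp)) (hSV hz))

/-- derivative of the perturbation where `χ` vanishes -/
lemma hasDerivAt_frozen {α : ℝ × ℝ × ℝ → R4} {ρ : ℝ × ℝ → ℝ} {χ : ℝ → ℝ}
    (hα : ContDiff ℝ ∞ α) (hχ : ContDiff ℝ ∞ χ) (hχ0 : ∀ s, 0 ≤ χ s) (p : Fin 8 → R4)
    (u q s : ℝ) (hs : χ s = 0) (hfr : ∀ᶠ r in 𝓝 s, α (u, q, r) = α (0, 0, r)) :
    deriv (fun r => prt α ρ χ p (u, q, r)) s = deriv (fun r => α (0, 0, r)) s := by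
  have hmin : deriv χ s = 0 := by
    have : IsLocalMin χ s := Eventually.of_forall fun r => by
      show χ s ≤ χ r
      rw [hs]; exact hχ0 r
    exact this.deriv_eq_zero
  have d2 : HasDerivAt χ 0 s := by
    rw [← hmin]
    exact (hχ.differentiable (by simp) s).hasDerivAt
  let G : ℝ → R4 := fun r => ∑ j, (ρ (u, q) * mon (u, q, r) j) • p j
  have hG : Differentiable ℝ G := by
    have : ContDiff ℝ ∞ G := by
      refine ContDiff.sum fun j _ => ?_
      have e1 : ContDiff ℝ ∞ (fun r : ℝ => mon (u, q, r) j) := (contDiff_mon j).comp (by fun_prop)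
      have e2 : ContDiff ℝ ∞ (fun r : ℝ => ρ (u, q) * mon (u, q, r) j) := contDiff_const.mul e1
      exact e2.smul contDiff_const
    exact this.differentiable (by simp)
  have d3 : HasDerivAt (fun r => χ r • G r) 0 s := by
    have := d2.smul (hG s).hasDerivAt
    refine this.congr_deriv ?_
    simp [hs]
  have hα0 : Differentiable ℝ (fun r : ℝ => α (0, 0, r)) := by
    have : ContDiff ℝ ∞ (fun r : ℝ => α (0, 0, r)) := hα.comp (by fun_prop)
    exact this.differentiable (by simp)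
  have d4 := (hα0 s).hasDerivAt.add d3
  rw [add_zero] at d4
  have d5 : HasDerivAt (fun r => prt α ρ χ p (u, q, r)) (deriv (fun r => α (0, 0, r)) s) s := by
    refine d4.congr_of_eventuallyEq ?_
    filter_upwards [hfr] with r hr
    simp only [prt, hr, Pi.add_apply, G, Finset.smul_sum, smul_smul]
    congr 1
    refine Finset.sum_congr rfl fun j _ => ?_
    congr 1
    ring
  exact d5.deriv

/-- local injectivity -/
lemma locInj {X Y : Type} [NormedAddCommGroup X] [NormedSpace ℝ X] [FiniteDimensional ℝ X]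
    [NormedAddCommGroup Y] [NormedSpace ℝ Y] [FiniteDimensional ℝ Y]
    (hdim : finrank ℝ X = finrank ℝ Y) {f : X → Y} (hf : ContDiff ℝ ∞ f) {x : X}
    (hinj : Function.Injective (fderiv ℝ f x)) : ∃ U ∈ 𝓝 x, InjOn f U := by
  have h := isLocalDiffeomorphAt_of_injective hdim
    (Eventually.of_forall fun q => hf.contDiffAt) hinj
  obtain ⟨Φ, hx, hΦ⟩ := h
  refine ⟨Φ.source, Φ.open_source.mem_nhds hx, ?_⟩
  intro a ha b hb hab
  rw [hΦ ha, hΦ hb] at hab
  exact Φ.toPartialEquiv.injOn ha hb hab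

/-- no double points near an immersed point -/
lemma near_diag {β : ℝ × ℝ × ℝ → R4} (hβ : ContDiff ℝ ∞ β) {u q s : ℝ}
    (hne : deriv (fun r => β (u, q, r)) s ≠ 0) :
    ∃ N ∈ 𝓝 ((u, q, s, s) : ℝ × ℝ × ℝ × ℝ), ∀ y ∈ N, y.2.2.1 < y.2.2.2 →
      β (y.1, y.2.1, y.2.2.1) ≠ β (y.1, y.2.1, y.2.2.2) := by
  have hder : ∀ u q s, HasDerivAt (fun r => β (u, q, r)) (fderiv ℝ β (u, q, s) (0, 0, 1)) s := by
    intro u q s
    have l : HasDerivAt (fun r : ℝ => ((u, q, r) : ℝ × ℝ × ℝ)) (0, 0, 1) s :=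
      (hasDerivAt_const s u).prodMk ((hasDerivAt_const s q).prodMk (hasDerivAt_id s))
    exact HasFDerivAt.comp_hasDerivAt_of_eq s ((hβ.differentiable (by simp) (u, q, s)).hasFDerivAt)
      l rfl
  rw [(hder u q s).deriv] at hne
  obtain ⟨f, hf⟩ := SeparatingDual.exists_ne_zero (R := ℝ) hne
  have hcont : Continuous (fun z : ℝ × ℝ × ℝ => f (fderiv ℝ β z (0, 0, 1))) := by
    have : Continuous (fderiv ℝ β) := hβ.continuous_fderiv (by simp)
    exact f.continuous.comp (this.clm_apply continuous_const)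
  have hop : IsOpen {z : ℝ × ℝ × ℝ | f (fderiv ℝ β z (0, 0, 1)) ≠ 0} :=
    isOpen_ne_fun hcont continuous_const
  obtain ⟨r, hr, hball⟩ := Metric.isOpen_iff.1 hop (u, q, s) hf
  refine ⟨Metric.ball (u, q, s, s) r, Metric.ball_mem_nhds _ hr, ?_⟩
  rintro ⟨u', q', s', t'⟩ hy hlt heq
  simp only at hlt heq
  rw [Metric.mem_ball, Prod.dist_eq, Prod.dist_eq, Prod.dist_eq, max_lt_iff, max_lt_iff,
    max_lt_iff] at hy
  obtain ⟨h1, h2, h3, h4⟩ := hy
  simp only at h1 h2 h3 h4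
  have hh : ∀ c, HasDerivAt (fun c => f (β (u', q', c))) (f (fderiv ℝ β (u', q', c) (0, 0, 1))) c :=
    fun c => f.hasFDerivAt.comp_hasDerivAt c (hder u' q' c)
  obtain ⟨c, hc, hc0⟩ := exists_deriv_eq_zero (f := fun c => f (β (u', q', c))) hlt
    (fun c _ => (hh c).continuousAt.continuousWithinAt) (by simp only [heq])
  rw [(hh c).deriv] at hc0
  refine hball (?_ : (u', q', c) ∈ Metric.ball (u, q, s) r) hc0
  rw [Metric.mem_ball, Prod.dist_eq, Prod.dist_eq, max_lt_iff, max_lt_iff]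
  refine ⟨h1, h2, ?_⟩
  simp only
  rw [Real.dist_eq, abs_lt] at h3 h4 ⊢
  exact ⟨by linarith [hc.1], by linarith [hc.2]⟩

end H4m

open H4m

theorem m_H4 (hGP : StGP) : StH4 := by
  intro α s₀ s₁ δ K hK hin
  obtain ⟨hα, hδ, hδ2, hroom, hfroz, hemb, hoff⟩ := hin
  set ρ : ℝ × ℝ → ℝ := fun x => hat (δ / 2) (1 - δ / 2) x.1 * hat (δ / 2) (1 - δ / 2) x.2
    with hρdef
  set χ : ℝ → ℝ := hat (s₀ + δ) (s₁ - δ) with hχdef
  have hρ : ContDiff ℝ ∞ ρ :=
    ((contDiff_hat _ _).comp contDiff_fst).mul ((contDiff_hat _ _).comp contDiff_snd)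
  have hχ : ContDiff ℝ ∞ χ := contDiff_hat _ _
  have hρz : ∀ u q, ρ (u, q) = 0 → Nb (δ / 2) u q := by
    intro u q h
    by_contra hcon
    unfold Nb at hcon
    push Not at hcon
    obtain ⟨c1, c2, c3, c4⟩ := hcon
    exact mul_ne_zero (hat_ne_zero.2 ⟨c1, c2⟩) (hat_ne_zero.2 ⟨c3, c4⟩) h
  have hρz' : ∀ u q, Nb (δ / 2) u q → ρ (u, q) = 0 := by
    intro u q h
    simp only [hρdef]
    rcases h with h | h | h | h
    · rw [hat_eq_zero (Or.inl h), zero_mul]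
    · rw [hat_eq_zero (Or.inr h), zero_mul]
    · rw [hat_eq_zero (Or.inl h), mul_zero]
    · rw [hat_eq_zero (Or.inr h), mul_zero]
  have hρi : ∀ u q, ρ (u, q) ≠ 0 → u ∈ Ioo (0 : ℝ) 1 ∧ q ∈ Ioo (0 : ℝ) 1 := by
    intro u q h
    have h1 := hat_ne_zero.1 (left_ne_zero_of_mul h)
    have h2 := hat_ne_zero.1 (right_ne_zero_of_mul h)
    simp only at h1 h2
    exact ⟨⟨by linarith [h1.1], by linarith [h1.2]⟩, ⟨by linarith [h2.1], by linarith [h2.2]⟩⟩
  have hNb : ∀ u q, Nb (δ / 2) u q → Nb δ u q := by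
    intro u q h
    rcases h with h | h | h | h
    · exact Or.inl (by linarith)
    · exact Or.inr (Or.inl (by linarith))
    · exact Or.inr (Or.inr (Or.inl (by linarith)))
    · exact Or.inr (Or.inr (Or.inr (by linarith)))
  have hχz : ∀ s, χ s = 0 → s ≤ s₀ + δ ∨ s₁ - δ ≤ s := by
    intro s h
    by_contra hcon
    push Not at hcon
    exact hat_ne_zero.2 hcon h
  have hχz' : ∀ s, (s ≤ s₀ + δ ∨ s₁ - δ ≤ s) → χ s = 0 := fun s h => hat_eq_zero h
  have hχi : ∀ s, χ s ≠ 0 → s₀ + δ < s ∧ s < s₁ - δ := fun s h => hat_ne_zero.1 h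
  -- the perturbation
  have hScomp : IsCompact (Icc (0 : ℝ) 1 ×ˢ (Icc (0 : ℝ) 1 ×ˢ Icc (s₀ + δ) (s₁ - δ))) :=
    isCompact_Icc.prod (isCompact_Icc.prod isCompact_Icc)
  obtain ⟨ε, hε, hεK⟩ := exists_eps hα.continuous hρ.continuous hχ.continuous hK hScomp
    (fun z hz => hoff z.1 z.2.1 ⟨hz.1, hz.2.1⟩ z.2.2 hz.2.2)
  obtain ⟨p, hp, hgp⟩ := hGP α ρ χ hα hρ hχ ε hε
  set β : ℝ × ℝ × ℝ → R4 := prt α ρ χ p with hβdef
  have hβ : ContDiff ℝ ∞ β := contDiff_prt hα hρ hχ p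
  have hβρ : ∀ u q s, ρ (u, q) = 0 → β (u, q, s) = α (u, q, s) := by
    intro u q s h
    simp [hβdef, prt, h]
  have hβχ : ∀ u q s, χ s = 0 → β (u, q, s) = α (0, 0, s) := by
    intro u q s h
    have h1 : β (u, q, s) = α (u, q, s) := by simp [hβdef, prt, h]
    rw [h1]
    apply hfroz
    rcases hχz s h with h2 | h2
    · exact Or.inl (by linarith)
    · exact Or.inr (by linarith)
  have hSq0 : Sq 0 0 := ⟨⟨le_rfl, zero_le_one⟩, ⟨le_rfl, zero_le_one⟩⟩
  have hNb0 : Nb δ 0 0 := Or.inl hδ.le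
  have hinj0 := (hemb 0 0 hSq0 hNb0).1
  have hoffβ : ∀ u q, Sq u q → ∀ s ∈ Icc (s₀ + δ) (s₁ - δ), β (u, q, s) ∉ K := by
    intro u q h s hs
    exact hεK p hp (u, q, s) ⟨h.1, h.2, hs⟩
  have himm : ∀ u q, Sq u q → ∀ s ∈ Icc s₀ s₁, deriv (fun s => β (u, q, s)) s ≠ 0 := by
    intro u q h s hs
    by_cases h1 : ρ (u, q) = 0
    · have e : (fun s => β (u, q, s)) = fun s => α (u, q, s) := funext fun s => hβρ u q s h1
      rw [e]
      exact (hemb u q h (hNb u q (hρz u q h1))).2 s hs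
    · by_cases h2 : χ s = 0
      · have e := hasDerivAt_frozen (ρ := ρ) hα hχ (fun s => hat_nonneg _ _ s) p u q s h2 (by
          rcases hχz s h2 with h3 | h3
          · filter_upwards [Iio_mem_nhds (show s < s₀ + 2 * δ by linarith)] with r hr
            exact hfroz u q r (Or.inl (le_of_lt hr))
          · filter_upwards [Ioi_mem_nhds (show s₁ - 2 * δ < s by linarith)] with r hr
            exact hfroz u q r (Or.inr (le_of_lt hr)))
        rw [hβdef, e]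
        exact (hemb 0 0 hSq0 hNb0).2 s hs
      · exact hgp.imm u q s h1 h2
  let D : Set (ℝ × ℝ × ℝ × ℝ) := {d | Sq d.1 d.2.1 ∧ d.2.2.1 ∈ Icc s₀ s₁ ∧ d.2.2.2 ∈ Icc s₀ s₁ ∧
    d.2.2.1 < d.2.2.2 ∧ β (d.1, d.2.1, d.2.2.1) = β (d.1, d.2.1, d.2.2.2)}
  have hDρ : ∀ d ∈ D, ρ (d.1, d.2.1) ≠ 0 := by
    rintro ⟨u, q, s, t⟩ ⟨h1, h2, h3, h4, h5⟩ h
    simp only at h1 h2 h3 h4 h5 h
    rw [hβρ u q s h, hβρ u q t h] at h5
    exact h4.ne ((hemb u q h1 (hNb u q (hρz u q h))).1 h2 h3 h5)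
  have hDχ : ∀ d ∈ D, χ d.2.2.1 ≠ 0 ∨ χ d.2.2.2 ≠ 0 := by
    rintro ⟨u, q, s, t⟩ ⟨h1, h2, h3, h4, h5⟩
    simp only at h1 h2 h3 h4 h5 ⊢
    by_contra hcon
    push Not at hcon
    rw [hβχ u q s hcon.1, hβχ u q t hcon.2] at h5
    exact h4.ne (hinj0 h2 h3 h5)
  have hDt : ∀ d ∈ D, Function.Injective (fderiv ℝ (dbl β) d) := by
    intro d hd
    obtain ⟨u, q, s, t⟩ := d
    exact hgp.trans u q s t (hDρ _ hd) hd.2.2.2.1.ne (hDχ _ hd) hd.2.2.2.2
  have hdbl : ContDiff ℝ ∞ (dbl β) := by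
    unfold dbl
    exact (hβ.comp (by fun_prop)).sub (hβ.comp (by fun_prop))
  -- separation
  have hsep : ∀ d ∈ D, ∀ d' ∈ D, (d.1 = d'.1 ∨ d.2.1 = d'.2.1) → d = d' := by
    intro d hd d' hd' hor
    by_contra hne
    have r1 := hDρ d hd
    have r2 := hDρ d' hd'
    have x1 := hDχ d hd
    have x2 := hDχ d' hd'
    obtain ⟨u, q, s, t⟩ := d
    obtain ⟨u', q', s', t'⟩ := d'
    obtain ⟨a1, a2, a3, a4, a5⟩ := hd
    obtain ⟨b1, b2, b3, b4, b5⟩ := hd'
    simp only at r1 r2 x1 x2 a1 a2 a3 a4 a5 b1 b2 b3 b4 b5 hor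
    by_cases huq : (u, q) = (u', q')
    · rw [Prod.mk.injEq] at huq
      obtain ⟨rfl, rfl⟩ := huq
      have n3 : ¬ (s = s' ∧ t = t') := by
        rintro ⟨rfl, rfl⟩
        exact hne rfl
      have n4 : ¬ (s = t' ∧ t = s') := by
        rintro ⟨e1, e2⟩
        linarith
      refine hgp.one u q s t s' t' r1 ⟨a4.ne, b4.ne, n3, n4, x1, x2, ?_, ?_, ?_, ?_⟩ a5 b5
      · intro e
        by_contra hcon
        push Not at hcon
        apply n3
        refine ⟨e, hinj0 a3 b3 ?_⟩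
        simp only
        rw [← hβχ u q t hcon.1, ← hβχ u q t' hcon.2, ← a5, ← b5, e]
      · intro e
        by_contra hcon
        push Not at hcon
        apply n4
        refine ⟨e, hinj0 a3 b2 ?_⟩
        simp only
        rw [← hβχ u q t hcon.1, ← hβχ u q s' hcon.2, ← a5, b5, e]
      · intro e
        by_contra hcon
        push Not at hcon
        apply n4
        refine ⟨hinj0 a2 b3 ?_, e⟩
        simp only
        rw [← hβχ u q s hcon.1, ← hβχ u q t' hcon.2, a5, ← b5, e]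
      · intro e
        by_contra hcon
        push Not at hcon
        apply n3
        refine ⟨hinj0 a2 b2 ?_, e⟩
        simp only
        rw [← hβχ u q s hcon.1, ← hβχ u q s' hcon.2, a5, b5, e]
    · exact hgp.sep u q u' q' s t s' t' huq hor r1 r2 a4.ne b4.ne x1 x2 a5 b5
  refine ⟨β, D, ⟨hβ, ?_, ?_, hoffβ, himm, ?_, ?_, ?_, ?_, ?_⟩⟩
  · intro u q s hs
    exact hβχ u q s (hχz' s hs)
  · intro u q s h
    exact hβρ u q s (hρz' u q h)
  · -- finiteness
    by_contra hinf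
    have hinf' : D.Infinite := hinf
    have hsub : D ⊆ Icc (0 : ℝ) 1 ×ˢ (Icc (0 : ℝ) 1 ×ˢ (Icc s₀ s₁ ×ˢ Icc s₀ s₁)) := by
      rintro ⟨u, q, s, t⟩ ⟨h1, h2, h3, h4, h5⟩
      exact ⟨h1.1, h1.2, h2, h3⟩
    obtain ⟨x, hx, hacc⟩ := hinf'.exists_accPt_of_subset_isCompact
      (isCompact_Icc.prod (isCompact_Icc.prod (isCompact_Icc.prod isCompact_Icc))) hsub
    have hle : x.2.2.1 ≤ x.2.2.2 := by
      have hcl : IsClosed {y : ℝ × ℝ × ℝ × ℝ | y.2.2.1 ≤ y.2.2.2} :=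
        isClosed_le (by fun_prop) (by fun_prop)
      have h1 : x ∈ closure {y : ℝ × ℝ × ℝ × ℝ | y.2.2.1 ≤ y.2.2.2} := by
        rw [mem_closure_iff_clusterPt]
        refine hacc.clusterPt.mono ?_
        rw [Filter.principal_mono]
        exact fun y hy => hy.2.2.2.1.le
      rwa [hcl.closure_eq] at h1
    rw [accPt_iff_nhds] at hacc
    obtain ⟨u, q, s, t⟩ := x
    obtain ⟨hx1, hx2, hx3, hx4⟩ := hx
    simp only at hle hx1 hx2 hx3 hx4
    rcases hle.lt_or_eq with hlt | rfl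
    · by_cases hval : β (u, q, s) = β (u, q, t)
      · have hxD : (u, q, s, t) ∈ D := ⟨⟨hx1, hx2⟩, hx3, hx4, hlt, hval⟩
        obtain ⟨U, hU, hUi⟩ := locInj (by simp [Complex.finrank_real_complex]) hdbl (hDt _ hxD)
        obtain ⟨y, ⟨hyU, hyD⟩, hne⟩ := hacc U hU
        apply hne
        refine hUi hyU (mem_of_mem_nhds hU) ?_
        have e1 : dbl β y = 0 := sub_eq_zero.2 hyD.2.2.2.2
        have e2 : dbl β (u, q, s, t) = 0 := sub_eq_zero.2 hval
        rw [e1, e2]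
      · have hop : IsOpen {y : ℝ × ℝ × ℝ × ℝ | β (y.1, y.2.1, y.2.2.1) ≠
            β (y.1, y.2.1, y.2.2.2)} :=
          isOpen_ne_fun (hβ.continuous.comp (by fun_prop)) (hβ.continuous.comp (by fun_prop))
        obtain ⟨y, ⟨hyU, hyD⟩, -⟩ := hacc _ (hop.mem_nhds hval)
        exact hyU hyD.2.2.2.2
    · obtain ⟨N, hN, hNy⟩ := near_diag hβ (himm u q ⟨hx1, hx2⟩ s hx3)
      obtain ⟨y, ⟨hyU, hyD⟩, -⟩ := hacc N hN
      exact hNy y hyU hyD.2.2.2.1 hyD.2.2.2.2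
  · intro u q h s hs t ht hst he
    exact ⟨h, hs, ht, hst, he⟩
  · intro u q s t hd
    have r1 := hDρ _ hd
    have x1 := hDχ _ hd
    have t1 := hDt _ hd
    obtain ⟨a1, a2, a3, a4, a5⟩ := hd
    simp only at r1 x1 a1 a2 a3 a4 a5
    obtain ⟨i1, i2⟩ := hρi u q r1
    refine ⟨i1, i2, a2, a3, a4, a5, ?_, t1⟩
    rcases x1 with h | h
    · exact hoffβ u q a1 s ⟨(hχi s h).1.le, (hχi s h).2.le⟩
    · rw [a5]
      exact hoffβ u q a1 t ⟨(hχi t h).1.le, (hχi t h).2.le⟩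
  · intro d hd d' hd' h
    exact hsep d hd d' hd' (Or.inl h)
  · intro d hd d' hd' h
    exact hsep d hd d' hd' (Or.inr h)

end Pool.Agent.Helper34.BI.H


end
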