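import Pool.Agent.Helper65.Barb.Defs
import Pool.Agent.Helper70.BI.B.P07
import Pool.Agent.Helper70.BI.B.P18
import Pool.Agent.Helper70.BI.B.P20

/-!
# Project BI (MP_8e98f2_gt): collected modules, part 21

The contents of the modules
* Helper34.BI.H.StH5b
* Helper34.BI.H.StH5c
* Helper34.BI.H.M_OPA
* Helper34.BI.H.M_XL
* Helper34.BI.H.M_TPU
* Helper34.BI.H.M_XG5

in one file, so that the whole proof builds in a short time.
-/

/-! ## Helper34.BI.H.StH5b -/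

section

/-!
# Project BI, stage 3, section 5: the chart at a transverse crossing of two strands

`c (v, b)` is the moving strand (parameter `v ∈ ℝ²`), `c0 t` the fixed strand.
-/

set_option autoImplicit false

open Module Set Filter Topology
open scoped ContDiff Manifold
open Pool.Agent.Helper65.Barb Pool.Agent.Helper18.BI Pool.Agent.Helper27.BI

namespace Pool.Agent.Helper34.BI.H

/-- `Y (v, b, t) = c (v, b) + (c0 t - c0 0)` -/
def yc (c : (ℝ × ℝ) × ℝ → R4) (c0 : ℝ → R4) (z : (ℝ × ℝ) × ℝ × ℝ) : R4 :=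
  c (z.1, z.2.1) + (c0 z.2.2 - c0 0)

/-- multiplication by the complex number `m`, on `ℝ × ℝ` -/
def mulc (m : ℝ × ℝ) (v : ℝ × ℝ) : ℝ × ℝ := (m.1 * v.1 - m.2 * v.2, m.1 * v.2 + m.2 * v.1)

/-- the coordinates: `p = (s, (a, X + i h))` -/
noncomputable def lam (v₀ m : ℝ × ℝ) (ε ν : ℝ) (p : R4) : (ℝ × ℝ) × ℝ × ℝ :=
  (v₀ + mulc m (p.2.1, p.2.2.im), ν * ((p.1 - 1 / 2) * p.2.1 + p.2.2.re),
    ε * ((p.1 - 1 / 2) * (1 - p.2.1) - p.2.2.re))

/-- the chart -/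
noncomputable def cht (c : (ℝ × ℝ) × ℝ → R4) (c0 : ℝ → R4) (v₀ m : ℝ × ℝ) (ε ν : ℝ) (p : R4) : R4 :=
  yc c c0 (lam v₀ m ε ν p)

/-- the closed box of radius `η` around `(v₀, 0, 0)` -/
def box (v₀ : ℝ × ℝ) (η : ℝ) : Set ((ℝ × ℝ) × ℝ × ℝ) := {z | ‖z - (v₀, 0, 0)‖ ≤ η}

/-- **CHT.** The chart.

*Proof.* `g = yc c c0` is smooth near `z₀ = (v₀, 0, 0)`, `fderiv g z₀ (v, b, t) = Dc (v, b) + t c0'(0)`, which is
`D(c - c0) (v, b, -t)`, so it is injective.  By `isLocalDiffeomorphAt_of_injective` (Loc.lean; both spaces have dimension 4)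
`g` is a local diffeomorphism at `z₀`: there is an open `V ∋ z₀` on which `g` is injective, smooth, with injective
derivative at all points, and `g z ∈ O` for `z ∈ V` (`g z₀ = c0 0 ∈ O` as `c (v₀, 0) = c0 0`).  Choose
`η₀ ≤ 1` with `box v₀ η₀ ⊆ V`.  (The closed box is `Metric.closedBall`; its points have a neighbourhood in `V`.)
`lam v₀ m ε ν` is a polynomial map, injective with injective derivative for `m ≠ 0`, `ε, ν > 0`: with
`σ = p.1 - 1/2`, `a`, `X`, `h`: `(a, h)` is determined by the first component (`mulc m` is injective for `m ≠ 0`), and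
`B = σ a + X`, `T = σ (1 - a) - X` determine `σ = B + T` and `X = B - σ a`; for the derivative: if the derivative of
`(a, h)`, `σ a + X`, `σ (1 - a) - X` in the direction `(σ', a', X', h')` is zero then `a' = h' = 0`, `σ' a + X' = 0`,
`σ' (1 - a) - X' = 0`, so `σ' = 0`, `X' = 0`.  For `p ∈ ball4`: `|p.1 - 1/2| ≤ 3/2`, `|a|, |X|, |h| ≤ 9/2`, so
`‖lam v₀ m ε ν p - (v₀, 0, 0)‖ ≤ 20 max ‖m‖ ε ν` (`|m₁ a - m₂ h| ≤ 9 ‖m‖`, `|σ a + X| ≤ 27/4 + 9/2`,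
`|σ (1 - a) - X| ≤ 3/2 · 11/2 + 9/2`).  So for `‖m‖, ε, ν < η₀ / 20` the map `lam` maps `ball4` into the box, and
`cht = g ∘ lam` is `EmbOn ball4` (chain rule for the derivatives, `isLocalDiffeomorphAt_of_injective` for `R4 → R4`). -/
def StCHT : Prop :=
  ∀ (c : (ℝ × ℝ) × ℝ → R4) (c0 : ℝ → R4) (v₀ : ℝ × ℝ) (O : Set R4),
    (∀ᶠ z in 𝓝 (v₀, (0 : ℝ)), ContDiffAt ℝ ∞ c z) → (∀ᶠ t in 𝓝 (0 : ℝ), ContDiffAt ℝ ∞ c0 t) →
    c (v₀, 0) = c0 0 →
    Function.Injective (fderiv ℝ (fun z : (ℝ × ℝ) × ℝ × ℝ => c (z.1, z.2.1) - c0 z.2.2)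
      (v₀, 0, 0)) → IsOpen O → c0 0 ∈ O →
    ∃ η₀ > 0, InjOn (yc c c0) (box v₀ η₀) ∧ MapsTo (yc c c0) (box v₀ η₀) O ∧
      (∀ z ∈ box v₀ η₀, ∀ᶠ w in 𝓝 z, ContDiffAt ℝ ∞ (yc c c0) w) ∧
      ∀ (m : ℝ × ℝ) (ε ν : ℝ), m ≠ 0 → ‖m‖ < η₀ / 20 → 0 < ε → ε < η₀ / 20 → 0 < ν →
        ν < η₀ / 20 → EmbOn 𝓘(ℝ, R4) (cht c c0 v₀ m ε ν) ball4 ∧
          MapsTo (lam v₀ m ε ν) ball4 (box v₀ η₀)

/-- the moving parameter: from `v₀ + m` around the circle with centre `v₀` -/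
noncomputable def circ (v₀ m : ℝ × ℝ) (q : ℝ) : ℝ × ℝ :=
  v₀ + mulc m (Real.cos (2 * Real.pi * q), Real.sin (2 * Real.pi * q))

/-- **CHV.** Values of the chart on the two lines and on the localized circle.

*Proof.* Direct computation: for `x = warc κ q s` one has `X = (s - 1/2) (1 - a)`, so the last component of `lam` is
zero and the second is `ν (s - 1/2)`; `(a, h) = (1, 0) + κ ((cos, sin) - (1, 0))` and `mulc m` is linear.  Conversely,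
if `p ∈ ball4` and `cht p = yc z` with `z ∈ box v₀ η₀` then `lam p = z` (injectivity); if `z = (v₀, 0, t)` then
`(a, h) = 0`, `B = 0` (second component), so `X = B - σ a = 0`: `p = (p.1, 0)`; if `z = (v₀ + m, b, 0)` then
`(a, h) = (1, 0)`, `T = 0`, `X = σ (1 - a) - T = 0`: `p = (p.1, e1)`. -/
def StCHV : Prop :=
  ∀ (c : (ℝ × ℝ) × ℝ → R4) (c0 : ℝ → R4) (v₀ m : ℝ × ℝ) (ε ν η₀ : ℝ), m ≠ 0 → 0 < ε → 0 < ν →
    c (v₀, 0) = c0 0 →
    (∀ s, cht c c0 v₀ m ε ν (s, 0) = c0 (ε * (s - 1 / 2))) ∧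
    (∀ s, cht c c0 v₀ m ε ν (s, e1) = c (v₀ + m, ν * (s - 1 / 2))) ∧
    (∀ (κ : ℝ → ℝ) (q s : ℝ), cht c c0 v₀ m ε ν (s, warc κ q s) =
      c (v₀ + m + κ s • (circ v₀ m q - (v₀ + m)), ν * (s - 1 / 2))) ∧
    (InjOn (yc c c0) (box v₀ η₀) → MapsTo (lam v₀ m ε ν) ball4 (box v₀ η₀) → ∀ p ∈ ball4,
      (∀ t, |t| ≤ η₀ → 0 ≤ η₀ → cht c c0 v₀ m ε ν p = c0 t →
        p = (p.1, 0) ∧ t = ε * (p.1 - 1 / 2)) ∧
      ∀ b, |b| ≤ η₀ → ‖m‖ ≤ η₀ → cht c c0 v₀ m ε ν p = c (v₀ + m, b) →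
        p = (p.1, e1) ∧ b = ν * (p.1 - 1 / 2))

end Pool.Agent.Helper34.BI.H


end

/-! ## Helper34.BI.H.StH5c -/

section

/-!
# Project BI, stage 3, section 5: the crossing, statements

Statements (as `Prop` definitions) with complete proofs in the docstrings.  A module `M_X`
(`Pool/Agent/Helper34/BI/H/M_X.lean`) proves `theorem m_X : StX` (possibly from other statements as
hypotheses `(h : StY)`).  Notation: `v₀ = (u₀, q₀)`.
-/

set_option autoImplicit false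

open Module Set Filter Topology
open scoped ContDiff Manifold
open Pool.Agent.Helper65.Barb Pool.Agent.Helper18.BI Pool.Agent.Helper27.BI
open Pool.Agent.Helper27.H (ArcD LIso LPush Fam2 Q2 SuppU thk seg)
open Pool.Agent.Helper70.BI (I4)

namespace Pool.Agent.Helper34.BI.H

/-! ## embedded arcs in families -/

/-- **OPA.** Openness of embeddings of arcs in families, with exceptional double points.

*Proof.* (Compare `near_diag` in `M_H4.lean` and `exists_delta` in `M_GPD.lean`; `locInj` is in `M_H4.lean`.)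
Every `(s, t) ∈ [s₀, s₁]²` satisfies: for all `(a, s', t')` near `(a₀, s, t)`: `x (a, s') = x (a, t') → s' = t' ∨ bad a`:
(i) `s = t`: the map `(a, s) ↦ (a, x (a, s))`, `A × ℝ → A × R4`, has injective derivative at `(a₀, s)`, so it is injective near
`(a₀, s)` (`locInj`); (ii) `s ≠ t`, `x (a₀, s) = x (a₀, t)`: the hypothesis (exchange `s`, `t` if `t < s`); (iii) `x (a₀, s) ≠ x (a₀, t)`: continuity.
For `s ∈ [s₀, s₁]`, `deriv (fun s => x (a, s)) s' = fderiv x (a, s') (0, 1) ≠ 0` for `(a, s')` near `(a₀, s)`.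
Compactness (`IsCompact.eventually_forall_of_forall_eventually`). -/
def StOPA : Prop :=
  ∀ (A : Type) [NormedAddCommGroup A] [NormedSpace ℝ A] [FiniteDimensional ℝ A]
    (x : A × ℝ → R4) (a₀ : A) (s₀ s₁ : ℝ) (bad : A → Prop), ContDiff ℝ ∞ x →
    (∀ s ∈ Icc s₀ s₁, deriv (fun s => x (a₀, s)) s ≠ 0) →
    (∀ s ∈ Icc s₀ s₁, ∀ t ∈ Icc s₀ s₁, s < t → x (a₀, s) = x (a₀, t) →
      ∀ᶠ z : A × ℝ × ℝ in 𝓝 (a₀, s, t), x (z.1, z.2.1) = x (z.1, z.2.2) → bad z.1) →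
    ∀ᶠ a in 𝓝 a₀, (∀ s ∈ Icc s₀ s₁, deriv (fun s => x (a, s)) s ≠ 0) ∧
      (bad a ∨ InjOn (fun s => x (a, s)) (Icc s₀ s₁))

/-- the velocity of the strand at `a` relative to the strand at `b` -/
noncomputable def lw (c : ℝ × ℝ × ℝ → R4) (u₀ q₀ a b : ℝ) (w : ℝ × ℝ) : R4 :=
  fderiv ℝ c (u₀, q₀, a) (w.1, w.2, 0) - fderiv ℝ c (u₀, q₀, b) (w.1, w.2, 0)

/-- The homotopy (`l ∈ [0,1]`) from the arc with parameters `(u₀, q₀) + v` to the arc where only the strand at `b` is moved;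
`m` is the base point of the circle on which `v` moves. -/
noncomputable def xl (c : ℝ × ℝ × ℝ → R4) (u₀ q₀ a b : ℝ) (κ₁ κ₂ : ℝ → ℝ) (l : ℝ) (m v : ℝ × ℝ)
    (s : ℝ) : R4 :=
  (1 - l) • c (u₀ + v.1, q₀ + v.2, s) +
    l • (c (u₀, q₀, s) - κ₁ (s - b) • lw c u₀ q₀ a b (m + κ₂ (s - b) • (v - m)))

/-- **XL.** (uses `StOPA`) The arcs of the homotopy are embedded.

*Proof.* `StOPA` with `A = ℝ × (ℝ × ℝ) × (ℝ × ℝ) ∋ (l, m, v)`, `x ((l, m, v), s) = xl .. l m v s` (smooth),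
`a₀ = (l₀, 0, 0)`, `l₀ ∈ [0,1]`, `bad (l, m, v) := v = 0`.  `x (a₀, s) = c (u₀, q₀, s)` for all `s` (`lw .. 0 = 0`), immersed.  If
`s < t` in `[s₀, s₁]` and `c (u₀, q₀, s) = c (u₀, q₀, t)` then `s = a`, `t = b` (`Xing.uniq`).  For `((l, m, v), s', t')` near
`(a₀, a, b)`: `κ₁ (t' - b) = κ₂ (t' - b) = 1`, `κ₁ (s' - b) = 0` (`|s' - b| > η`), so `x (.., t') - x (.., s') = F (l, v, s', t')`,
`F (l, v, s', t') = (1-l) • (c (v₀ + v, t') - c (v₀ + v, s')) + l • (c (v₀, t') - c (v₀, s') - lw v)` (`m` cancels: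
`m + 1 • (v - m) = v`).  `F` is smooth, `F (l, 0, a, b) = 0` for all `l`, and the derivative of
`G (l, v, s', t') = (l, F (l, v, s', t'))` at `(l₀, 0, a, b)` in the direction `(λ, w, σ, τ)` is `(λ, Dc(b)(w, τ) - Dc(a)(w, σ))`:
by linearity it is `(λ, λ * (∂_l F = 0) + ..)` and the two terms with factors `1 - l` and `l` are equal; it is injective by `Xing.trans`.
So `G` is injective near `(l₀, 0, a, b)` (`locInj`), and `F (l, v, s', t') = 0 = F (l, 0, a, b)` gives `v = 0`.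
Hence for all `(l, m, v)` near `(l₀, 0, 0)`: immersed, and `v = 0` or injective.  Also (tube lemma) `x ((l, m, v), s) ∈ U` for all
`s ∈ [m₀, m₁]` (`Htpy.inU`).  Compactness of `[0,1] ∋ l₀` gives `δ` (tube lemma for `[0,1] × {(0, 0)}`). -/
def StXL : Prop :=
  ∀ (D : ArcD) (c : ℝ × ℝ × ℝ → R4) (u₀ q₀ a b : ℝ) (κ₁ κ₂ : ℝ → ℝ) (η : ℝ), D.Htpy c →
    D.Xing c u₀ q₀ a b → D.Imm c u₀ q₀ → ContDiff ℝ ∞ κ₁ → ContDiff ℝ ∞ κ₂ →
    (∀ᶠ t in 𝓝 (0 : ℝ), κ₁ t = 1 ∧ κ₂ t = 1) → η < b - a → (∀ t, η ≤ |t| → κ₁ t = 0) →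
    ∃ δ > 0, ∀ l ∈ Icc (0 : ℝ) 1, ∀ m v : ℝ × ℝ, ‖m‖ < δ → ‖v‖ < δ → v ≠ 0 →
      (∀ s ∈ Icc D.s₀ D.s₁, deriv (xl c u₀ q₀ a b κ₁ κ₂ l m v) s ≠ 0) ∧
      InjOn (xl c u₀ q₀ a b κ₁ κ₂ l m v) (Icc D.s₀ D.s₁) ∧
      ∀ s ∈ Icc D.m₀ D.m₁, xl c u₀ q₀ a b κ₁ κ₂ l m v s ∈ D.U

/-! ## the localized circle of arcs -/

/-- A loop of arcs `y q`, where a short piece of the arc around the parameter `b` moves around the piece around
the parameter `a`, seen in the chart `T`. -/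
structure Mod5 (D : ArcD) (a b ε ν : ℝ) (κ : ℝ → ℝ) (T : R4 → R4) (y : ℝ → ℝ → R4) : Prop where
  smooth : ContDiff ℝ ∞ (fun z : ℝ × ℝ => y z.1 z.2)
  froz : ∀ q ∈ Icc (0 : ℝ) 1, ∀ s, (s ≤ D.m₀ ∨ D.m₁ ≤ s) → y q s = D.c s
  inU : ∀ q ∈ Icc (0 : ℝ) 1, ∀ s ∈ Icc D.m₀ D.m₁, y q s ∈ D.U
  imm : ∀ q ∈ Icc (0 : ℝ) 1, ∀ s ∈ Icc D.s₀ D.s₁, deriv (y q) s ≠ 0
  inj : ∀ q ∈ Icc (0 : ℝ) 1, InjOn (y q) (Icc D.s₀ D.s₁)
  loop : y 1 = y 0
  εpos : 0 < ε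
  νpos : 0 < ν
  ha : D.s₀ < a - 2 * ε
  hab : a + 2 * ε < b - 2 * ν
  hb : b + 2 * ν < D.s₁
  κs : ContDiff ℝ ∞ κ
  κ01 : ∀ s, κ s ∈ Icc (0 : ℝ) 1
  κh : κ (1 / 2) = 1
  κ0 : ∀ s, (s ≤ 0 ∨ 1 ≤ s) → κ s = 0
  emb : EmbOn 𝓘(ℝ, R4) T ball4
  TU : MapsTo T ball4 D.U
  c0 : ∀ s ∈ Icc (-1 : ℝ) 2, T (s, 0) = y 0 (a + ε * (s - 1 / 2))
  c1 : ∀ s ∈ Icc (-1 : ℝ) 2, T (s, e1) = y 0 (b + ν * (s - 1 / 2))
  cw : ∀ q ∈ Icc (0 : ℝ) 1, ∀ s ∈ Icc (-1 : ℝ) 2,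
    T (s, warc κ q s) = y q (b + ν * (s - 1 / 2))
  only : ∀ p ∈ ball4, ∀ s ∈ Icc D.s₀ D.s₁, T p = y 0 s →
    (p.2 = 0 ∧ s = a + ε * (p.1 - 1 / 2)) ∨ (p.2 = e1 ∧ s = b + ν * (p.1 - 1 / 2))
  const : ∀ q ∈ Icc (0 : ℝ) 1, ∀ s, (s ≤ b - ν / 2 ∨ b + ν / 2 ≤ s) → y q s = y 0 s

/-- **L5.** (uses `StXL`, `StCHT`, `StCHV`) The circle of arcs `c (circ v₀ m q, ·)` is homotopic through loops of
embedded arcs to one in the local model.

*Proof.* `A = lw c u₀ q₀ a b` is linear.  `cc (v, β) = c (u₀, q₀, b + β) - A (v - v₀)`, `c0 t = c (u₀, q₀, a + t)`; smooth,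
`cc (v₀, 0) = c0 0` (`Xing.eq`); `D(cc - c0)(w, β, t) = - A w + c'(b) β - c'(a) t = Dc(b)(w, β) - Dc(a)(w, t)` is injective
(`Xing.trans`).  `StCHT` with `O = U` (`c (v₀, a) ∈ U` as `a ∈ (m₀, m₁)`) gives `η₁`; let
`η₀ = min η₁, (b - a) / 3, (a - m₀) / 2, (m₁ - b) / 2` (all are positive).  Let
`O = U \ (c (v₀, ·) '' {s ∈ [s₀, s₁] | η₀ ≤ |s - a| ∧ η₀ ≤ |s - b|})`: open, contains `c0 0 = c (v₀, a)` (`Xing.uniq`: `c (v₀, s) = c (v₀, a)`, `s ≠ a`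
gives `s = b`).  `StCHT` with this `O` gives `η₂`.  Let `η = min η₀ η₂`, `ε = ν = η / 40`.  `κ₁ : ℝ → ℝ` smooth with values in `[0,1]`,
`κ₁ = 1` for `|β| ≤ η₀ / 4`, `κ₁ = 0` for `|β| ≥ η₀ / 2`; `κ₂` smooth with values in `[0,1]`, `1` for `|β| ≤ ν / 4`, `0` for `|β| ≥ ν / 2`
(e.g. `step (2 - 4 |β| / ..)` or `ContDiffBump`); `κ s = κ₂ (ν (s - 1/2))`.  `StXL` (with `η₀ / 2 < b - a`) gives `δ`.
`r₀ ≤ min (δ / 2) (η / 20)` and such that `circ v₀ m q ∈ Q2` for `‖m‖ < r₀` (`‖mulc m (cos, sin)‖ ≤ 2 ‖m‖`, `u₀, q₀ ∈ (0,1)`).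
`x l q s = xl .. l m (v' q) s`, `v' q = mulc m (cos 2πq, sin 2πq)`: `v' q ≠ 0` (`m ≠ 0`), `‖v' q‖ < δ`; `v' 0 = v' 1 = m`.
`T = cht cc c0 v₀ m ε ν`.
Frozen: `xl` with `κ₁ (s - b) = 0` for `s ≤ m₀`, `m₁ ≤ s`, and `Htpy.froz`.  (For `l ∉ [0,1]` nothing is needed.)
`emb`, `TU` from `StCHT` (`cht = yc ∘ lam`, `lam` maps `ball4` to the box, `yc` maps the box to `O ⊆ U`).
`c0`, `c1`, `cw`: `StCHV` (1)-(3), `|ν (s - 1/2)| ≤ 3ν/2 ≤ η₀ / 4`, so `κ₁ = 1`; `κ₁ (s - b) = 0` near `a`; `warc κ 0 s = e1`.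
`only`: let `T p = y 0 s = c (v₀, s) - κ₁ (s - b) A m`.  If `|s - a| ≤ η₀` then `κ₁ (s - b) = 0` and `T p = c0 (s - a)`: `StCHV` (4).
If `|s - b| ≤ η₀`: `y 0 s = yc (v₀ + κ₁(β) m, β, 0)`, `β = s - b`, and `T p = yc (lam p)`; both points are in the box of radius `η₁`, so
`lam p = (v₀ + κ₁(β) m, β, 0)`; with `p = (σ + 1/2, (a', X + i h))`: `mulc m (a', h) = κ₁(β) m` gives `a' = κ₁(β)`, `h = 0`;
`X = σ (1 - a')`, `β = ν (σ a' + X) = ν σ`, `|σ| ≤ 3/2`, so `|β| ≤ η₀ / 4`, `κ₁(β) = 1`, `a' = 1`, `X = 0`.  Otherwise `T p ∈ O` but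
`y 0 s = c (v₀, s) ∉ O`.
`const`: `κ₂ (s - b) = 0` for `|s - b| ≥ ν / 2`. -/
def StL5 : Prop :=
  ∀ (D : ArcD) (c : ℝ × ℝ × ℝ → R4) (u₀ q₀ a b : ℝ), D.Htpy c → D.Xing c u₀ q₀ a b →
    D.Imm c u₀ q₀ → D.m₀ < a → b < D.m₁ →
    ∃ r₀ > 0, ∀ m : ℝ × ℝ, m ≠ 0 → ‖m‖ < r₀ →
      ∃ (ε ν : ℝ) (κ : ℝ → ℝ) (T : R4 → R4) (x : ℝ → ℝ → ℝ → R4),
      ContDiff ℝ ∞ (fun z : (ℝ × ℝ) × ℝ => x z.1.1 z.1.2 z.2) ∧
      (∀ l ∈ Icc (0 : ℝ) 1, ∀ q ∈ Icc (0 : ℝ) 1,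
        (∀ s, (s ≤ D.m₀ ∨ D.m₁ ≤ s) → x l q s = D.c s) ∧
        (∀ s ∈ Icc D.m₀ D.m₁, x l q s ∈ D.U) ∧ InjOn (x l q) (Icc D.s₀ D.s₁) ∧
        ∀ s ∈ Icc D.s₀ D.s₁, deriv (x l q) s ≠ 0) ∧
      (∀ l, x l 1 = x l 0) ∧
      (∀ q s, x 0 q s = c ((circ (u₀, q₀) m q).1, (circ (u₀, q₀) m q).2, s)) ∧
      Mod5 D a b ε ν κ T (x 1)

/-! ## implanting in a chart -/

/-- **TPU.** `T` is a chart defined on `ball4`, with values in `U`, `J` is a germ along `L` whose values on `L` are in `T (ball4)`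
only at points of the two vertical lines.

*Proof.* (1) `StA1` (`hA1`, `Helper18/BI/AsmA.lean`) gives a partial diffeomorphism `δ` with `ball4 ⊆ δ.source`, `δ = T` on `δ.source`;
`F` is supported in the compact `K ⊆ interior ball4`; `G = DFam.push δ ..` (as in the proof of `StPush`,
`Helper18/BI/M_A3.lean`, or `M_IMP.lean`), `imp T ball4 (F_t) = push δ F_t` by `StImp` (5) (`hImp`); support
`T '' K`, or `T '' ball4`, compact, contained in `U`.  (2) The set `B = {p ∈ ball4 | ρ² ≤ nsq p.2 ∧ ρ² ≤ nsq (p.2 - e1)}` is compact and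
`T '' B` is disjoint from `J '' L`, so `N₀ = {p | J p ∉ T '' B}` is a neighbourhood of every point of `L`; `N = interior N₀`.  Let
`p ∈ N`.  If `J p ∉ T '' ball4` then `imp` fixes `J p` (`StImp` (2)).  Otherwise `J p = T z`, `z ∈ ball4`, `z ∉ B`, so `z` is in one of
the tubes, `φ z = z`, and `imp T ball4 φ (T z) = T (φ z) = T z` (`StImp` (1)). -/
def StTPU : Prop :=
  ∀ (U L : Set R4) (J T : R4 → R4), IsOpen U → IsCompact L → (∀ p ∈ L, ContinuousAt J p) →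
    EmbOn I4 T ball4 → MapsTo T ball4 U → (∀ p ∈ ball4, T p ∈ J '' L → p.2 = 0 ∨ p.2 = e1) →
    (∀ F : DFam 𝓘(ℝ, R4) R4, SuppB F → ∃ G : DFam 𝓘(ℝ, R4) R4, SuppU U G ∧
      (∀ t y, y ∉ T '' ball4 → G.f (t, y) = y) ∧
      ∀ t y, G.f (t, y) = imp T ball4 (fun p => F.f (t, p)) y) ∧
    ∀ ρ > 0, ∃ N : Set R4, IsOpen N ∧ L ⊆ N ∧ ∀ φ : R4 → R4,
      (∀ x ∈ ctube 0 ρ ∪ ctube e1 ρ, φ x = x) → ∀ p ∈ N, imp T ball4 φ (J p) = J p

/-- **M5.** (uses `StTPU`, `StCIRC`, `StCH4`, `StFRAME`, `StTHK`) The push along the localized circle is the barbell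
implantation in the chart.

*Proof.* Write `J₀ = thk D.J D.c (y 0)`, `L = D.L`.  By `StTHK` (for `x (l, q) = y q`): `q ↦ thk D.J D.c (y q)` is `Fam2 Q2 L D.V U`, with
cores `y q`.  `StTPU` applies to `J₀`, `T`: `J₀ '' L = y 0 '' [s₀, s₁]` and `Mod5.only`.
(a) `StCIRC` gives `ρ` and `Θ` with `IsPush (ctube 0 ρ) ρ (warc κ) Θ` (family `F`) and `TIso (ctube 0 ρ) ρ e1 e1 barMap Θ` (family `F'`).
(b) `LIso U L J₀ J₀ (imp T ball4 barMap) (imp T ball4 Θ)`: `StTPU` (1) for `F'`; (2) for `ρ`: `F'_t` is the identity on both tubes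
(`ctube 0 ρ` is fixed, and a point `(s, x)` with `nsq (x - e1) ≤ ρ²` is `(s, e1 + y)`).
(c) `G` from `StTPU` (1) for `F`.  Let `J^F q = fun p => G.f (q, J₀ p)`.  For `t ∈ [0,1]`, `F_t (s, e1 + y) = (s, warc κ (step t) s + y)`.
Cores: for `s ∈ [s₀, s₁]`, `q ∈ [0,1]`: `G.f (q, y 0 s) = y (step q) s`.  If `y 0 s = T p`, `p ∈ ball4`, then by `only` either `p = (p.1, 0)` and
`s = a + ε (p.1 - 1/2)`: `F_q p = p`, so `G.f (q, y 0 s) = y 0 s = y (step q) s` by `const` (`|s - b| > ν / 2` by `hab`, `p.1 ∈ [-1, 2]`); or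
`p = (p.1, e1)`, `s = b + ν (p.1 - 1/2)`: `F_q p = (p.1, warc κ (step q) p.1)` and `cw`.  If `y 0 s ∉ T '' ball4` then `G` fixes it, and
`y (step q) s = y 0 s` by `const` (if `|s - b| < ν/2` then `s = b + ν (σ - 1/2)` with `σ ∈ (0,1)` and `y 0 s = T (σ, e1) ∈ T '' ball4`).
(d) The push along `q ↦ J^F (step q)`... is `G`: more precisely `LPush U L J^F (G.f (1, ·))`, with the family `G.reparam step`:
`G.f (step t, J₀ p) = J^F (step t) p` and `J^F 0 = J₀`, as `G.f (0, x) = x`.  `G.f (1, x) = imp T ball4 Θ x`.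
(e) `StFRAME` for `J^F` and `J' q = thk D.J D.c (y (step q))` (`Fam2.comp`), with
`V = D.V ∩ interior {p | J₀ p ∉ T '' ball4}`: it contains the ends of `L` because `J₀ (s₀, 0) = D.c s₀ ∉ U ⊇ T '' ball4` (`D.off₀`, `D.off₁`; the set
`{p | J₀ p ∉ T '' ball4}` is a neighbourhood of these points by continuity of `J₀` there; `D.V` is open).
`Fam2 Q2 L V U J^F`: smooth (composition), `EmbOn` (`G_q` is a diffeomorphism; `IsLocalDiffeomorphAt.comp`), frozen on `V` (there `J^F q p = J₀ p`),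
in `U` on `L \ V` by the cores (`y (step q) s ∈ U` for `s ∈ (s₀, s₁)`: `inU` for `s ∈ [m₀, m₁]`, `froz` and `D.mem` otherwise;
`(s₀, 0), (s₁, 0) ∈ V`).  The same for `J'` (`Fam2.mono`).  `J^F 0 = J₀ = J' 0`.
`NearEq (J^F 1) (J' 1) L`: `J' 1 = thk .. (y 1) = J₀` (`loop`) and `J^F 1 = imp T ball4 Θ ∘ J₀ = J₀` near `L` by `StTPU` (2) (`Θ = F_1`
is the identity on both tubes, `warc κ 1 s = e1`).  So `LIso U L J₀ (J₁ := J^F 1) (imp T ball4 Θ) C'` for any push `C'` along `J'`, and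
`push_reparam` (Calc.lean): `C' ~ C`; replace `J^F 1` by `J₀` with `LIso.congr`.  With (b): the claim. -/
def StM5 : Prop :=
  ∀ (D : ArcD) (a b ε ν : ℝ) (κ : ℝ → ℝ) (T : R4 → R4) (y : ℝ → ℝ → R4), Mod5 D a b ε ν κ T y →
    ∀ C : R4 → R4, LPush D.U D.L (fun q => thk D.J D.c (y q)) C →
      LIso D.U D.L (thk D.J D.c (y 0)) (thk D.J D.c (y 0)) (imp T ball4 barMap) C

/-! ## the four squares -/

/-- the canonical thick arc with parameters `v` -/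
noncomputable def kk (D : ArcD) (c : ℝ × ℝ × ℝ → R4) (v : ℝ × ℝ) : R4 → R4 :=
  thk D.J D.c (fun s => c (v.1, v.2, s))

/-- **SQ5.** (uses `StCH4`, `StTHK`) The bottom, the top and the circle around the crossing.

*Proof.* For a smooth map `g : ℝ × ℝ → ℝ × ℝ` with `g '' Q2 ⊆ Q2 \ {v₀}` the family `a ↦ kk D c (g a)` is `Fam2 Q2 D.L D.V D.U` (`StTHK`), so
`square4`, `exists_lpush` and `push_htpy` (Calc.lean) apply.  `kk D c (u, 0) = kk D c (u, 1) = D.J` for `u ∈ [0,1]` (`Htpy.start`, `stop`; `thk G c c = G`).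
Let `p' = circ v₀ (0, r) 0 = (u₀, q₀ + r)`, `p = circ v₀ (0, r) (1/2) = (u₀, q₀ - r)`; `circ v₀ (0, r) q = (u₀ - r sin 2πq, q₀ + r cos 2πq)`.
Pushes: `b₀` along `x ↦ (1-x)(0,1) + x p'`, `d₀` along `x ↦ (1-x)(0,0) + x p`, `b₁` along `x ↦ (1-x)(1,1) + x p'`, `d₁` along `x ↦ (1-x)(1,0) + x p`,
`H` along `y ↦ circ (y/2)`, `H'` along `y ↦ circ (1/2 + y/2)`, `E₀'` along `y ↦ (0, 1-y)` (`LPush.reverse`: it is the inverse of `E₀`).
Squares (`J x y`, `x, y ∈ [0,1]`; `square4`: `Θ2 ∘ Θ1 ~ Θ4 ∘ Θ3`):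
(i) `g = (1-x) (0, 1-y) + x circ (y/2)`: `d₀ ∘ E₀' ~ H ∘ b₀`; the first coordinate is `x (u₀ - r sin πy) ≤ u₀`, with equality only for
`x = 1`, `sin πy = 0`, where the second coordinate is `q₀ ± r`.
(ii) `g = (1-x) (1, y) + x circ (1/2 + y/2)`: `b₁ ∘ E₁ ~ H' ∘ d₁`; the first coordinate is `(1-x) + x (u₀ + r sin πy) ≥ u₀`, similarly.
(iii) `g = (1-x) (y, 0) + x p`: `d₁ ~ d₀` (bottom edge `x = 0` constant `= D.J`, edge `x = 1` constant); second coordinate `< q₀`.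
(iv) `g = (1-x) (y, 1) + x p'`: `b₁ ~ b₀`; second coordinate `> q₀`.
(v) `g = circ (y (1+x) / 2)`: edge `x = 0`: `H`; `y = 1`: `H'` (`circ ((1+x)/2)`); `y = 0`: constant; `x = 1`: `C`.  So `H' ∘ H ~ C`.
All values are in `Q2` (convex, `|sin|, |cos| ≤ 1`).
`B = b₀`.  `E₁ ~ b₁⁻¹ H' d₁ ~ b₀⁻¹ H' d₀` and `d₀ ~ H b₀ E₀` (from (i)), so `E₁ ~ b₀⁻¹ H' H b₀ E₀ ~ b₀⁻¹ C b₀ E₀`; use
`LIso.comp`, `LIso.trans`, `LIso.inv`, `LIso.exists_inv`, `LPush.lIso`. -/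
def StSQ5 : Prop :=
  ∀ (D : ArcD) (c : ℝ × ℝ × ℝ → R4) (u₀ q₀ r : ℝ), D.Htpy c →
    (∀ u ∈ Icc (0 : ℝ) 1, ∀ q ∈ Icc (0 : ℝ) 1, D.Imm c u q) →
    (∀ u ∈ Icc (0 : ℝ) 1, ∀ q ∈ Icc (0 : ℝ) 1, (u, q) ≠ (u₀, q₀) → D.Inj c u q) →
    0 < r → 0 < u₀ - r → u₀ + r < 1 → 0 < q₀ - r → q₀ + r < 1 →
    ∀ E₀ E₁ C : R4 → R4, LPush D.U D.L (fun q => kk D c (0, q)) E₀ →
      LPush D.U D.L (fun q => kk D c (1, q)) E₁ →
      LPush D.U D.L (fun q => kk D c (circ (u₀, q₀) (0, r) q)) C →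
      ∃ B B' : R4 → R4, LIso D.U D.L D.J (kk D c (circ (u₀, q₀) (0, r) 0)) B B ∧
        (∀ x, B (B' x) = x) ∧ (∀ x, B' (B x) = x) ∧
        LIso D.U D.L D.J D.J E₁ (fun x => B' (C (B (E₀ x))))

/-! ## the germ of the crossing and the class of the implantation -/

/-- **XG5.** (uses `StTHK` for the cores of `thk D.J D.c (y 0)`)

*Proof.* Let `J₀ = thk D.J D.c (y 0)`, `T'' = Ψ' ∘ T`.  The family of `LIso` gives: `Ψ` and `Ψ'` are smooth and inverse to each other, equal to the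
identity off a compact `K ⊆ U` (so they preserve `U`), and `Ψ (D.J p) = J₀ p` for `p` near `L`; `J₀ (s, 0) = y 0 s`, so
`Ψ (D.J (s, 0)) = y 0 s` for `s ∈ [s₀, s₁]`.
`EmbOn T''` on `ball4`: composition with a diffeomorphism.  `T'' p ∈ D.A` means `T'' p = D.J (s, 0)`, so `T p = y 0 s`: `Mod5.only`.
`XG`: `FB ⊆ ball4`; all points of `FB` have `p.1 = 1/2`, so `only` gives `arc`.  `σ s = a + ε (s - 1/2)`, `τ s = b + ν (s - 1/2)`;
`T'' (s, 0) = Ψ' (y 0 (σ s)) = D.J (σ s, 0)` for `s` near `1/2` (`c0`), similarly `c1` (`e1 = (1, 0)`).  The sign: both determinants are nonzero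
(local diffeomorphisms, `StA0`).  If the product is negative take `T'' ∘ refh`: `refh` is linear with `det = -1`, maps `ball4` and `FB`
to themselves and fixes the points `(s, (x, 0))`, `x` real. -/
def StXG5 : Prop :=
  ∀ (D : ArcD) (a b ε ν : ℝ) (κ : ℝ → ℝ) (T : R4 → R4) (y : ℝ → ℝ → R4), Mod5 D a b ε ν κ T y →
    ∀ Ψ Ψ' : R4 → R4, LIso D.U D.L D.J (thk D.J D.c (y 0)) Ψ Ψ → (∀ x, Ψ (Ψ' x) = x) →
      (∀ x, Ψ' (Ψ x) = x) →
      EmbOn I4 (fun p => Ψ' (T p)) ball4 ∧ MapsTo (fun p => Ψ' (T p)) ball4 D.U ∧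
      (∀ p ∈ ball4, Ψ' (T p) ∈ D.A → p.2 = 0 ∨ p.2 = e1) ∧
      (D.XG (fun p => Ψ' (T p)) ∨ D.XG (fun p => Ψ' (T (refh p))))

/-- **PHT.** (uses `StTPU`, `StR1h` = `hR1h` of `Helper27/BI/AsmC.lean`; `hImp`, `hT2`, `hT3`, `hCI` of `Helper18/BI/AsmA.lean`)

*Proof.* (0) `StTPU` for `J = D.J`, `L = D.L` (`D.J '' D.L = D.A`).  (1) `StTPU` with the constant family: `barMap` is the end of an isotopy
supported in the interior of the ball, fixing both tubes of radius `1/5` (`bfam`; or: `refl_of` of `StVan`/`StR1h`).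
(2) `B = imp T ball4 barMap = imp T bsupp barMap` (`StImp` (3), `barMap_off`).  `K = T '' bsupp` is compact, in `U`, disjoint from `D.A`
(`bsupp ⊆ Ext`, so `p.2 ≠ 0, e1`), `B` is the identity off `K` (`StImp` (2)).  `imp D.e K B = imp (D.e ∘ T) bsupp barMap` (`StImp` (8) with
`κ = T`, `L = bsupp`; `D.e` is injective on `K`, `D.embe`).  `D.e ∘ T` is `EmbOn EB` (`T '' EB ⊆ U \ A`), so by `StT3` it is `Thin` of
`imp (D.e ∘ T) bsupp barMap`; by `StT2` (ii) the given `τ` is isotopic to it: `Phi`.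
(3) `StR1h`: `TIso ∅ (1/5) arc2 arc2 (refh ∘ barMap ∘ refh) barInv`; the inverses: `TIso ∅ (1/5) arc2 arc2 (refh ∘ barInv ∘ refh) barMap`
(`TIso.inv`); by `StTPU` (`arc2`: both tubes are fixed): `LIso .. (imp T ball4 (refh ∘ barInv ∘ refh)) (imp T ball4 barMap)`.
`imp (T ∘ refh) ball4 φ = imp T ball4 (refh ∘ φ ∘ refh)` (`StImp` (8) with `κ = refh`, `L = K = ball4`, or directly).
`imp (T ∘ refh) ball4 barInv` is the inverse of `imp (T ∘ refh) ball4 barMap` (`StImp` (4)).  So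
`imp T ball4 barMap ∘ imp (T ∘ refh) ball4 barMap ~ imp (T ∘ refh) ball4 barInv ∘ imp (T ∘ refh) ball4 barMap = id`
(`LIso.comp` with `LIso.refl_of` for `imp (T ∘ refh) ball4 barMap`, from (1) for `T ∘ refh`). -/
def StPHT : Prop :=
  ∀ (D : ArcD) (T : R4 → R4), EmbOn I4 T ball4 → MapsTo T ball4 D.U →
    (∀ p ∈ ball4, T p ∈ D.A → p.2 = 0 ∨ p.2 = e1) →
    LIso D.U D.L D.J D.J (imp T ball4 barMap) (imp T ball4 barMap) ∧
    (∀ τ : R4 → R4, Thin I4 (fun p => D.e (T p)) τ → D.Phi (imp T ball4 barMap) τ) ∧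
    LIso D.U D.L D.J D.J
      (fun x => imp T ball4 barMap (imp (fun p => T (refh p)) ball4 barMap x)) (fun x => x)

end Pool.Agent.Helper34.BI.H


end

/-! ## Helper34.BI.H.M_OPA -/

section

/-!
# Project BI, stage 3, module OPA
-/

set_option autoImplicit false

open Module Set Filter Topology
open scoped ContDiff Manifold
open Pool.Agent.Helper65.Barb Pool.Agent.Helper18.BI

namespace Pool.Agent.Helper34.BI.H

namespace OPA

variable {A : Type} [NormedAddCommGroup A] [NormedSpace ℝ A] [FiniteDimensional ℝ A]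

lemma hasDerivAt_arc {x : A × ℝ → R4} (hx : ContDiff ℝ ∞ x) (a : A) (s : ℝ) :
    HasDerivAt (fun r => x (a, r)) (fderiv ℝ x (a, s) (0, 1)) s := by
  have l : HasDerivAt (fun r : ℝ => ((a, r) : A × ℝ)) (0, 1) s :=
    (hasDerivAt_const s a).prodMk (hasDerivAt_id s)
  exact HasFDerivAt.comp_hasDerivAt_of_eq s ((hx.differentiable (by simp) (a, s)).hasFDerivAt)
    l rfl

lemma continuous_arc {x : A × ℝ → R4} (hx : ContDiff ℝ ∞ x) :
    Continuous (fun z : A × ℝ => fderiv ℝ x z (0, 1)) :=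
  (hx.continuous_fderiv (by simp)).clm_apply continuous_const

/-- no double points near an immersed point -/
lemma near_diag {x : A × ℝ → R4} (hx : ContDiff ℝ ∞ x) {a : A} {s : ℝ}
    (hne : fderiv ℝ x (a, s) (0, 1) ≠ 0) :
    ∀ᶠ z : A × ℝ × ℝ in 𝓝 (a, s, s), x (z.1, z.2.1) = x (z.1, z.2.2) → z.2.1 = z.2.2 := by
  obtain ⟨f, hf⟩ := SeparatingDual.exists_ne_zero (R := ℝ) hne
  have hcont : Continuous (fun z : A × ℝ => f (fderiv ℝ x z (0, 1))) :=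
    f.continuous.comp (continuous_arc hx)
  have hop : IsOpen {z : A × ℝ | f (fderiv ℝ x z (0, 1)) ≠ 0} :=
    isOpen_ne_fun hcont continuous_const
  obtain ⟨r, hr, hball⟩ := Metric.isOpen_iff.1 hop (a, s) hf
  have key : ∀ a' s' t', dist a' a < r → dist s' s < r → dist t' s < r → s' < t' →
      x (a', s') ≠ x (a', t') := by
    intro a' s' t' h1 h2 h3 hlt heq
    have hh : ∀ c, HasDerivAt (fun c => f (x (a', c))) (f (fderiv ℝ x (a', c) (0, 1))) c :=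
      fun c => f.hasFDerivAt.comp_hasDerivAt c (hasDerivAt_arc hx a' c)
    obtain ⟨c, hc, hc0⟩ := exists_deriv_eq_zero (f := fun c => f (x (a', c))) hlt
      (fun c _ => (hh c).continuousAt.continuousWithinAt) (by simp only [heq])
    rw [(hh c).deriv] at hc0
    refine hball (?_ : (a', c) ∈ Metric.ball (a, s) r) hc0
    rw [Metric.mem_ball, Prod.dist_eq, max_lt_iff]
    refine ⟨h1, ?_⟩
    simp only
    rw [Real.dist_eq, abs_lt] at h2 h3 ⊢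
    exact ⟨by linarith [hc.1], by linarith [hc.2]⟩
  filter_upwards [Metric.ball_mem_nhds ((a, s, s) : A × ℝ × ℝ) hr] with z hz he
  obtain ⟨a', s', t'⟩ := z
  rw [Metric.mem_ball, Prod.dist_eq, Prod.dist_eq, max_lt_iff, max_lt_iff] at hz
  obtain ⟨h1, h2, h3⟩ := hz
  simp only at h1 h2 h3 he
  by_contra hcon
  rcases lt_or_gt_of_ne hcon with h | h
  · exact key a' s' t' h1 h2 h3 h he
  · exact key a' t' s' h1 h3 h2 h he.symm

end OPA

open OPA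

theorem m_OPA : StOPA := by
  intro A _ _ _ x a₀ s₀ s₁ bad hx himm hdbl
  have hder : ∀ a s, deriv (fun s => x (a, s)) s = fderiv ℝ x (a, s) (0, 1) := fun a s =>
    (hasDerivAt_arc hx a s).deriv
  simp only [hder] at himm ⊢
  -- immersions
  have h1 : ∀ᶠ a in 𝓝 a₀, ∀ s ∈ Icc s₀ s₁, fderiv ℝ x (a, s) (0, 1) ≠ 0 := by
    apply isCompact_Icc.eventually_forall_of_forall_eventually
    intro s hs
    have hop : IsOpen {z : A × ℝ | fderiv ℝ x z (0, 1) ≠ 0} :=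
      isOpen_ne_fun (continuous_arc hx) continuous_const
    exact hop.mem_nhds (himm s hs)
  -- double points
  have h2 : ∀ᶠ a in 𝓝 a₀, ∀ z ∈ Icc s₀ s₁ ×ˢ Icc s₀ s₁, x (a, z.1) = x (a, z.2) →
      z.1 = z.2 ∨ bad a := by
    apply (isCompact_Icc.prod isCompact_Icc).eventually_forall_of_forall_eventually
    rintro ⟨s, t⟩ ⟨hs, ht⟩
    simp only at hs ht
    by_cases he : x (a₀, s) = x (a₀, t)
    · rcases lt_trichotomy s t with h | h | h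
      · filter_upwards [hdbl s hs t ht h he] with z hz h'
        exact Or.inr (hz h')
      · subst h
        filter_upwards [near_diag hx (himm s hs)] with z hz h'
        exact Or.inl (hz h')
      · have h3 := hdbl t ht s hs h he.symm
        have hc : Continuous (fun z : A × ℝ × ℝ => ((z.1, z.2.2, z.2.1) : A × ℝ × ℝ)) := by
          fun_prop
        have h4 := (hc.tendsto (a₀, s, t)).eventually h3
        filter_upwards [h4] with z hz h'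
        exact Or.inr (hz h'.symm)
    · have hop : IsOpen {z : A × ℝ × ℝ | x (z.1, z.2.1) ≠ x (z.1, z.2.2)} :=
        isOpen_ne_fun (hx.continuous.comp (by fun_prop)) (hx.continuous.comp (by fun_prop))
      filter_upwards [hop.mem_nhds he] with z hz h'
      exact absurd h' hz
  filter_upwards [h1, h2] with a ha1 ha2
  refine ⟨ha1, ?_⟩
  by_cases hb : bad a
  · exact Or.inl hb
  · refine Or.inr fun s hs t ht h => ?_
    rcases ha2 (s, t) ⟨hs, ht⟩ h with h' | h'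
    · exact h'
    · exact absurd h' hb

end Pool.Agent.Helper34.BI.H


end

/-! ## Helper34.BI.H.M_XL -/

section

/-!
# Project BI, stage 3, module XL: the arcs of the homotopy to the local model are embedded
-/

set_option autoImplicit false

open Module Set Filter Topology
open scoped ContDiff Manifold
open Pool.Agent.Helper65.Barb Pool.Agent.Helper18.BI Pool.Agent.Helper27.BI
open Pool.Agent.Helper27.H (ArcD)

namespace Pool.Agent.Helper34.BI.H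

namespace XL

variable (c : ℝ × ℝ × ℝ → R4) (u₀ q₀ a b : ℝ)

lemma contDiff_lw : ContDiff ℝ ∞ (lw c u₀ q₀ a b) := by
  unfold lw
  exact ((fderiv ℝ c (u₀, q₀, a)).contDiff.comp (by fun_prop)).sub
    ((fderiv ℝ c (u₀, q₀, b)).contDiff.comp (by fun_prop))

lemma lw_zero : lw c u₀ q₀ a b 0 = 0 := by
  simp only [lw, Prod.fst_zero, Prod.snd_zero]
  have : ((0, 0, 0) : ℝ × ℝ × ℝ) = 0 := rfl
  rw [this, map_zero, map_zero, sub_zero]

lemma lw_smul (r : ℝ) (w : ℝ × ℝ) : lw c u₀ q₀ a b (r • w) = r • lw c u₀ q₀ a b w := by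
  simp only [lw, Prod.smul_fst, Prod.smul_snd]
  have : ((r • w.1, r • w.2, 0) : ℝ × ℝ × ℝ) = r • (w.1, w.2, 0) := by
    simp
  rw [this, map_smul, map_smul, smul_sub]

variable {c}

lemma contDiff_xl (hc : ContDiff ℝ ∞ c) {κ₁ κ₂ : ℝ → ℝ} (h1 : ContDiff ℝ ∞ κ₁)
    (h2 : ContDiff ℝ ∞ κ₂) :
    ContDiff ℝ ∞ (fun z : (ℝ × (ℝ × ℝ) × (ℝ × ℝ)) × ℝ =>
      xl c u₀ q₀ a b κ₁ κ₂ z.1.1 z.1.2.1 z.1.2.2 z.2) := by
  unfold xl
  have e1 : ContDiff ℝ ∞ (fun z : (ℝ × (ℝ × ℝ) × (ℝ × ℝ)) × ℝ =>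
      c (u₀ + z.1.2.2.1, q₀ + z.1.2.2.2, z.2)) := hc.comp (by fun_prop)
  have e2 : ContDiff ℝ ∞ (fun z : (ℝ × (ℝ × ℝ) × (ℝ × ℝ)) × ℝ => c (u₀, q₀, z.2)) :=
    hc.comp (by fun_prop)
  have e3 : ContDiff ℝ ∞ (fun z : (ℝ × (ℝ × ℝ) × (ℝ × ℝ)) × ℝ => κ₁ (z.2 - b)) :=
    h1.comp (by fun_prop)
  have e4 : ContDiff ℝ ∞ (fun z : (ℝ × (ℝ × ℝ) × (ℝ × ℝ)) × ℝ => κ₂ (z.2 - b)) :=
    h2.comp (by fun_prop)
  have e5 : ContDiff ℝ ∞ (fun z : (ℝ × (ℝ × ℝ) × (ℝ × ℝ)) × ℝ =>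
      lw c u₀ q₀ a b (z.1.2.1 + κ₂ (z.2 - b) • (z.1.2.2 - z.1.2.1))) := by
    refine (contDiff_lw c u₀ q₀ a b).comp ?_
    have e6 : ContDiff ℝ ∞ (fun z : (ℝ × (ℝ × ℝ) × (ℝ × ℝ)) × ℝ => z.1.2.2 - z.1.2.1) := by
      fun_prop
    have e7 : ContDiff ℝ ∞ (fun z : (ℝ × (ℝ × ℝ) × (ℝ × ℝ)) × ℝ => z.1.2.1) := by fun_prop
    exact e7.add (e4.smul e6)
  have e8 : ContDiff ℝ ∞ (fun z : (ℝ × (ℝ × ℝ) × (ℝ × ℝ)) × ℝ => 1 - z.1.1) := by fun_prop
  have e9 : ContDiff ℝ ∞ (fun z : (ℝ × (ℝ × ℝ) × (ℝ × ℝ)) × ℝ => z.1.1) := by fun_prop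
  exact (e8.smul e1).add (e9.smul (e2.sub (e3.smul e5)))

/-- the difference of the two strands -/
noncomputable def FF (c : ℝ × ℝ × ℝ → R4) (u₀ q₀ a b : ℝ) (z : (ℝ × ℝ × ℝ) × ℝ × ℝ) : R4 :=
  (1 - z.1.1) • (c (u₀ + z.1.2.1, q₀ + z.1.2.2, z.2.2) - c (u₀ + z.1.2.1, q₀ + z.1.2.2, z.2.1)) +
    z.1.1 • (c (u₀, q₀, z.2.2) - c (u₀, q₀, z.2.1) - lw c u₀ q₀ a b z.1.2)

/-- with the parameter -/
noncomputable def GG (c : ℝ × ℝ × ℝ → R4) (u₀ q₀ a b : ℝ) (z : (ℝ × ℝ × ℝ) × ℝ × ℝ) : ℝ × R4 :=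
  (z.1.1, FF c u₀ q₀ a b z)

lemma contDiff_GG (hc : ContDiff ℝ ∞ c) : ContDiff ℝ ∞ (GG c u₀ q₀ a b) := by
  have e1 : ContDiff ℝ ∞ (fun z : (ℝ × ℝ × ℝ) × ℝ × ℝ =>
      c (u₀ + z.1.2.1, q₀ + z.1.2.2, z.2.2)) := hc.comp (by fun_prop)
  have e2 : ContDiff ℝ ∞ (fun z : (ℝ × ℝ × ℝ) × ℝ × ℝ =>
      c (u₀ + z.1.2.1, q₀ + z.1.2.2, z.2.1)) := hc.comp (by fun_prop)
  have e3 : ContDiff ℝ ∞ (fun z : (ℝ × ℝ × ℝ) × ℝ × ℝ => c (u₀, q₀, z.2.2)) :=
    hc.comp (by fun_prop)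
  have e4 : ContDiff ℝ ∞ (fun z : (ℝ × ℝ × ℝ) × ℝ × ℝ => c (u₀, q₀, z.2.1)) :=
    hc.comp (by fun_prop)
  have e5 : ContDiff ℝ ∞ (fun z : (ℝ × ℝ × ℝ) × ℝ × ℝ => lw c u₀ q₀ a b z.1.2) :=
    (contDiff_lw c u₀ q₀ a b).comp (by fun_prop)
  have e8 : ContDiff ℝ ∞ (fun z : (ℝ × ℝ × ℝ) × ℝ × ℝ => 1 - z.1.1) := by fun_prop
  have e9 : ContDiff ℝ ∞ (fun z : (ℝ × ℝ × ℝ) × ℝ × ℝ => z.1.1) := by fun_prop
  exact e9.prodMk ((e8.smul (e1.sub e2)).add (e9.smul ((e3.sub e4).sub e5)))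

lemma line_c (hc : ContDiff ℝ ∞ c) (p w : ℝ × ℝ × ℝ) :
    HasDerivAt (fun r : ℝ => c (p + r • w)) (fderiv ℝ c p w) 0 := by
  have l : HasDerivAt (fun r : ℝ => p + r • w) w 0 := by
    have := ((hasDerivAt_id (0 : ℝ)).smul_const w).const_add p
    simpa using this
  exact HasFDerivAt.comp_hasDerivAt_of_eq 0 ((hc.differentiable (by simp) p).hasFDerivAt)
    l (by simp)

lemma fderiv_FF (hc : ContDiff ℝ ∞ c) (heq : c (u₀, q₀, a) = c (u₀, q₀, b)) (l₀ : ℝ)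
    (w : (ℝ × ℝ × ℝ) × ℝ × ℝ) :
    fderiv ℝ (GG c u₀ q₀ a b) ((l₀, 0, 0), a, b) w =
      (w.1.1, fderiv ℝ c (u₀, q₀, b) (w.1.2.1, w.1.2.2, w.2.2) -
        fderiv ℝ c (u₀, q₀, a) (w.1.2.1, w.1.2.2, w.2.1)) := by
  obtain ⟨⟨lam, w1, w2⟩, σ, τ⟩ := w
  simp only
  set p : (ℝ × ℝ × ℝ) × ℝ × ℝ := ((l₀, 0, 0), a, b) with hp
  have l : HasDerivAt (fun r : ℝ => p + r • (((lam, w1, w2), σ, τ) : (ℝ × ℝ × ℝ) × ℝ × ℝ))
      ((lam, w1, w2), σ, τ) 0 := by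
    have := ((hasDerivAt_id (0 : ℝ)).smul_const
      (((lam, w1, w2), σ, τ) : (ℝ × ℝ × ℝ) × ℝ × ℝ)).const_add p
    simpa using this
  have h1 : HasDerivAt (fun r : ℝ => GG c u₀ q₀ a b
      (p + r • (((lam, w1, w2), σ, τ) : (ℝ × ℝ × ℝ) × ℝ × ℝ)))
      (fderiv ℝ (GG c u₀ q₀ a b) p ((lam, w1, w2), σ, τ)) 0 :=
    HasFDerivAt.comp_hasDerivAt_of_eq 0
      (((contDiff_GG u₀ q₀ a b hc).differentiable (by simp) p).hasFDerivAt) l (by simp)
  refine h1.unique ?_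
  -- compute
  have A1 := (line_c hc (u₀, q₀, b) (w1, w2, τ)).sub (line_c hc (u₀, q₀, a) (w1, w2, σ))
  have B1 := ((line_c hc (u₀, q₀, b) (0, 0, τ)).sub (line_c hc (u₀, q₀, a) (0, 0, σ))).sub
    ((hasDerivAt_id (0 : ℝ)).smul_const (lw c u₀ q₀ a b (w1, w2)))
  have hl : HasDerivAt (fun r : ℝ => l₀ + r * lam) lam 0 := by
    have := ((hasDerivAt_id (0 : ℝ)).mul_const lam).const_add l₀
    simpa using this
  have hl' : HasDerivAt (fun r : ℝ => 1 - (l₀ + r * lam)) (-lam) 0 := by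
    simpa using hl.const_sub 1
  have hF := (hl'.smul A1).add (hl.smul B1)
  have hG := hl.prodMk hF
  refine (hG.congr_deriv ?_).congr_of_eventuallyEq (Eventually.of_forall fun r => ?_)
  · have e0 : fderiv ℝ c (u₀, q₀, b) (0, 0, τ) - fderiv ℝ c (u₀, q₀, a) (0, 0, σ) -
        lw c u₀ q₀ a b (w1, w2) = fderiv ℝ c (u₀, q₀, b) (w1, w2, τ) -
        fderiv ℝ c (u₀, q₀, a) (w1, w2, σ) := by
      have d1 : ((w1, w2, τ) : ℝ × ℝ × ℝ) = (w1, w2, 0) + (0, 0, τ) := by simp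
      have d2 : ((w1, w2, σ) : ℝ × ℝ × ℝ) = (w1, w2, 0) + (0, 0, σ) := by simp
      rw [d1, d2, map_add, map_add]
      simp only [lw]
      abel
    refine Prod.ext rfl ?_
    simp only [Pi.sub_apply, id_eq, zero_smul, add_zero, zero_mul, heq, sub_self,
      smul_zero, one_smul, e0]
    rw [← add_smul]
    simp
  · simp only [GG, FF, hp, smul_eq_mul,
      zero_add, Pi.add_apply, Pi.sub_apply, Pi.smul_apply', id_eq, Prod.mk_add_mk, Prod.smul_mk,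
      mul_zero, add_zero]
    have e1 : lw c u₀ q₀ a b (r * w1, r * w2) = r • lw c u₀ q₀ a b (w1, w2) := by
      rw [← lw_smul]
      simp
    rw [e1]

lemma inj_GG (hc : ContDiff ℝ ∞ c) (heq : c (u₀, q₀, a) = c (u₀, q₀, b))
    (htr : ∀ ζ η σ τ : ℝ, fderiv ℝ c (u₀, q₀, a) (ζ, η, σ) = fderiv ℝ c (u₀, q₀, b) (ζ, η, τ) →
      ζ = 0 ∧ η = 0 ∧ σ = 0 ∧ τ = 0) (l₀ : ℝ) :
    ∃ U ∈ 𝓝 (((l₀, 0, 0), a, b) : (ℝ × ℝ × ℝ) × ℝ × ℝ), InjOn (GG c u₀ q₀ a b) U := by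
  refine H4m.locInj (by simp [Complex.finrank_real_complex]) (contDiff_GG u₀ q₀ a b hc) ?_
  rw [injective_iff_map_eq_zero]
  intro w hw
  rw [fderiv_FF u₀ q₀ a b hc heq] at hw
  obtain ⟨⟨lam, w1, w2⟩, σ, τ⟩ := w
  simp only at hw
  have h1 := congrArg Prod.fst hw
  have h2 := congrArg Prod.snd hw
  simp only [Prod.fst_zero, Prod.snd_zero] at h1 h2
  obtain ⟨k1, k2, k3, k4⟩ := htr w1 w2 σ τ (sub_eq_zero.1 h2).symm
  rw [h1, k1, k2, k3, k4]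
  rfl

end XL

open XL

theorem m_XL (hOPA : StOPA) : StXL := by
  intro D c u₀ q₀ a b κ₁ κ₂ η hc hX hImm hk1 hk2 hk hη hk0
  set x : (ℝ × (ℝ × ℝ) × (ℝ × ℝ)) × ℝ → R4 := fun z =>
    xl c u₀ q₀ a b κ₁ κ₂ z.1.1 z.1.2.1 z.1.2.2 z.2 with hx
  have hxs : ContDiff ℝ ∞ x := contDiff_xl u₀ q₀ a b hc.smooth hk1 hk2
  have hx0 : ∀ l₀ s, x ((l₀, 0, 0), s) = c (u₀, q₀, s) := by
    intro l₀ s
    simp only [hx, xl, Prod.fst_zero, Prod.snd_zero, add_zero, sub_zero, smul_zero, lw_zero]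
    rw [← add_smul]
    simp
  have key : ∀ l₀ : ℝ, ∀ᶠ w in 𝓝 ((l₀, 0, 0) : ℝ × (ℝ × ℝ) × (ℝ × ℝ)),
      ((∀ s ∈ Icc D.s₀ D.s₁, deriv (fun s => x (w, s)) s ≠ 0) ∧
      (w.2.2 = 0 ∨ InjOn (fun s => x (w, s)) (Icc D.s₀ D.s₁))) ∧
      ∀ s ∈ Icc D.m₀ D.m₁, x (w, s) ∈ D.U := by
    intro l₀
    refine (hOPA _ x (l₀, 0, 0) D.s₀ D.s₁ (fun w => w.2.2 = 0) hxs ?_ ?_).and ?_
    · intro s hs
      simp only [hx0]
      exact hImm s hs
    · intro s hs t ht hst he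
      rw [hx0, hx0] at he
      obtain ⟨rfl, rfl⟩ := hX.uniq s hs t ht hst he
      obtain ⟨U, hU, hUi⟩ := inj_GG u₀ q₀ s t hc.smooth hX.eq hX.trans l₀
      have c1 : Continuous (fun z : (ℝ × (ℝ × ℝ) × (ℝ × ℝ)) × ℝ × ℝ =>
          (((z.1.1, z.1.2.2.1, z.1.2.2.2), z.2.1, z.2.2) : (ℝ × ℝ × ℝ) × ℝ × ℝ)) := by fun_prop
      have c2 : Continuous (fun z : (ℝ × (ℝ × ℝ) × (ℝ × ℝ)) × ℝ × ℝ =>
          (((z.1.1, 0, 0), s, t) : (ℝ × ℝ × ℝ) × ℝ × ℝ)) := by fun_prop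
      have c3 : Continuous (fun z : (ℝ × (ℝ × ℝ) × (ℝ × ℝ)) × ℝ × ℝ => z.2.2 - t) := by fun_prop
      have c4 : Continuous (fun z : (ℝ × (ℝ × ℝ) × (ℝ × ℝ)) × ℝ × ℝ => t - z.2.1) := by fun_prop
      have n1 := (c1.tendsto ((l₀, 0, 0), s, t)).eventually (hU : ∀ᶠ y in _, y ∈ U)
      have n2 := (c2.tendsto ((l₀, 0, 0), s, t)).eventually (hU : ∀ᶠ y in _, y ∈ U)
      have t3 : Tendsto (fun z : (ℝ × (ℝ × ℝ) × (ℝ × ℝ)) × ℝ × ℝ => z.2.2 - t)
          (𝓝 ((l₀, 0, 0), s, t)) (𝓝 0) := by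
        have := c3.tendsto ((l₀, 0, 0), s, t)
        simp only [sub_self] at this
        exact this
      have n3 := t3.eventually hk
      have n4 : ∀ᶠ z in 𝓝 (((l₀, 0, 0), s, t) : (ℝ × (ℝ × ℝ) × (ℝ × ℝ)) × ℝ × ℝ),
          η < t - z.2.1 := (isOpen_lt continuous_const c4).mem_nhds hη
      filter_upwards [n1, n2, n3, n4] with z z1 z2 z3 z4 heq
      obtain ⟨⟨l, m, v⟩, s', t'⟩ := z
      simp only at z1 z2 z3 z4 heq ⊢
      have k0 : κ₁ (s' - t) = 0 := by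
        refine hk0 _ ?_
        rw [abs_sub_comm]
        exact z4.le.trans (le_abs_self _)
      have hF : FF c u₀ q₀ s t ((l, v.1, v.2), s', t') = 0 := by
        have : x ((l, m, v), t') - x ((l, m, v), s') = 0 := sub_eq_zero.2 heq.symm
        simp only [hx, xl, k0, z3.1, z3.2, one_smul, zero_smul, sub_zero,
          add_sub_cancel] at this
        rw [← this]
        simp only [FF, Prod.mk.eta]
        module
      have hF0 : FF c u₀ q₀ s t ((l, 0, 0), s, t) = 0 := by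
        simp only [FF, add_zero, hX.eq, sub_self, smul_zero, zero_add, zero_sub]
        have : ((0, 0) : ℝ × ℝ) = 0 := rfl
        rw [this, lw_zero]
        simp
      have := hUi z1 z2 (by simp only [GG, hF, hF0])
      simp only [Prod.mk.injEq] at this
      exact Prod.ext this.1.2.1 this.1.2.2
    · apply isCompact_Icc.eventually_forall_of_forall_eventually
      intro s hs
      have hop : IsOpen {z : (ℝ × (ℝ × ℝ) × (ℝ × ℝ)) × ℝ | x z ∈ D.U} :=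
        D.openU.preimage hxs.continuous
      refine hop.mem_nhds ?_
      simp only [mem_ofPred_eq, hx0]
      exact hc.inU u₀ ⟨hX.memu.1.le, hX.memu.2.le⟩ q₀ ⟨hX.memq.1.le, hX.memq.2.le⟩ s hs
  have key2 : ∀ᶠ p in 𝓝 (0 : (ℝ × ℝ) × (ℝ × ℝ)), ∀ l ∈ Icc (0 : ℝ) 1,
      ((∀ s ∈ Icc D.s₀ D.s₁, deriv (fun s => x ((l, p), s)) s ≠ 0) ∧
      (p.2 = 0 ∨ InjOn (fun s => x ((l, p), s)) (Icc D.s₀ D.s₁))) ∧
      ∀ s ∈ Icc D.m₀ D.m₁, x ((l, p), s) ∈ D.U := by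
    apply isCompact_Icc.eventually_forall_of_forall_eventually
    intro l₀ _
    have cs : Continuous (fun z : ((ℝ × ℝ) × (ℝ × ℝ)) × ℝ =>
        ((z.2, z.1) : ℝ × (ℝ × ℝ) × (ℝ × ℝ))) := by fun_prop
    exact (cs.tendsto (0, l₀)).eventually (key l₀)
  obtain ⟨δ, hδ, hball⟩ := Metric.eventually_nhds_iff.1 key2
  refine ⟨δ, hδ, fun l hl m v hm hv hv0 => ?_⟩
  have hmem : dist ((m, v) : (ℝ × ℝ) × (ℝ × ℝ)) 0 < δ := by
    rw [dist_zero_right, Prod.norm_def]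
    exact max_lt hm hv
  obtain ⟨⟨h1, h2⟩, h3⟩ := hball hmem l hl
  exact ⟨h1, h2.resolve_left hv0, h3⟩

end Pool.Agent.Helper34.BI.H


end

/-! ## Helper34.BI.H.M_TPU -/

section

/-!
# Project BI, stage 3, section 5: implanting in a chart (module TPU)
-/

set_option autoImplicit false

open Module Set Filter Topology
open scoped ContDiff Manifold
open Pool.Agent.Helper65.Barb Pool.Agent.Helper18.BI Pool.Agent.Helper27.BI
open Pool.Agent.Helper27.H (ArcD LIso LPush Fam2 Q2 SuppU thk seg)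
open Pool.Agent.Helper70.BI (I4)

namespace Pool.Agent.Helper34.BI.H

private theorem nsq_zero_TPU : nsq (0 : ℝ × ℂ) = 0 := by
  simp [nsq]

private theorem continuous_nsq_TPU : Continuous nsq := by
  unfold nsq
  fun_prop

theorem m_TPU : StTPU := by
  intro U L J T hU hL hJ hT hTU hTJ
  obtain ⟨δ, hδs, hδ⟩ := m_A1 R4 R4 R4 𝓘(ℝ, R4) R4 T ball4 isCompact_ball4 hT.1 hT.2
  have hTc : ContinuousOn T ball4 := fun p hp =>
    (hT.1 p hp).contMDiffAt.continuousAt.continuousWithinAt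
  refine ⟨fun F hF => ?_, fun ρ hρ => ?_⟩
  · obtain ⟨K, hK, hKb, hKF⟩ := hF
    have hsupp : ∀ t p, p ∉ ball4 → F.f (t, p) = p := fun t p hp =>
      hKF t p (fun h => hp (interior_subset (hKb h)))
    have hpush : ∀ t : ℝ, imp T ball4 (fun p => F.f (t, p)) = push δ (fun p => F.f (t, p)) :=
      fun t => (m_Imp R4 R4 𝓘(ℝ, R4) R4 T ball4 (fun p => F.f (t, p)) hT.2).2.2.2.2.1 δ hδs
        (fun p hp => hδ p (hδs hp)) (fun p hp => F.mapsTo hsupp t hp) (fun p hp => hsupp t p hp)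
    have him : δ '' ball4 = T '' ball4 := by
      apply image_congr
      intro p hp
      exact hδ p (hδs hp)
    refine ⟨F.push δ isCompact_ball4 hδs hsupp, ⟨δ '' ball4, ?_, ?_, ?_⟩, ?_, ?_⟩
    · exact isCompact_ball4.image_of_continuousOn (δ.contMDiffOn.continuousOn.mono hδs)
    · rw [him]
      rintro _ ⟨p, hp, rfl⟩
      exact hTU hp
    · intro t x hx
      exact push_of_notMem δ _ hδs (fun p hp => hsupp t p hp) hx
    · intro t x hx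
      rw [← him] at hx
      exact push_of_notMem δ _ hδs (fun p hp => hsupp t p hp) hx
    · intro t y
      rw [hpush t]
      rfl
  · set B : Set R4 := ball4 ∩ {p : R4 | ρ ^ 2 ≤ nsq p.2 ∧ ρ ^ 2 ≤ nsq (p.2 - e1)} with hB
    have hBc : IsCompact B := by
      apply isCompact_ball4.inter_right
      apply IsClosed.inter
      · exact isClosed_le continuous_const (continuous_nsq_TPU.comp continuous_snd)
      · exact isClosed_le continuous_const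
          (continuous_nsq_TPU.comp (continuous_snd.sub continuous_const))
    have hTB : IsClosed (T '' B) :=
      (hBc.image_of_continuousOn (hTc.mono inter_subset_left)).isClosed
    refine ⟨interior (J ⁻¹' (T '' B)ᶜ), isOpen_interior, fun p hp => ?_, fun φ hφ p hp => ?_⟩
    · have h1 : J p ∈ (T '' B)ᶜ := by
        rintro ⟨z, ⟨hz, hz1, hz2⟩, hzp⟩
        have hρ2 : 0 < ρ ^ 2 := by positivity
        rcases hTJ z hz ⟨p, hp, hzp.symm⟩ with h | h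
        · rw [h, nsq_zero_TPU] at hz1
          linarith
        · rw [h, sub_self, nsq_zero_TPU] at hz2
          linarith
      exact mem_interior_iff_mem_nhds.2 ((hJ p hp).preimage_mem_nhds (hTB.isOpen_compl.mem_nhds h1))
    · have h0 : p ∈ J ⁻¹' (T '' B)ᶜ := interior_subset hp
      have h1 : J p ∈ (T '' B)ᶜ := h0
      have himp := m_Imp R4 R4 𝓘(ℝ, R4) R4 T ball4 φ hT.2
      by_cases h2 : J p ∈ T '' ball4
      · obtain ⟨z, hz, hzp⟩ := h2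
        have hzB : z ∉ B := fun h => h1 ⟨z, h, hzp⟩
        have hzt : z ∈ ctube 0 ρ ∪ ctube e1 ρ := by
          by_contra h3
          apply hzB
          rw [mem_union, not_or] at h3
          obtain ⟨h4, h5⟩ := h3
          refine ⟨hz, ?_, ?_⟩
          · have h6 : ¬ nsq (z.2 - 0) ≤ ρ ^ 2 := h4
            rw [sub_zero] at h6
            exact (not_le.1 h6).le
          · have h6 : ¬ nsq (z.2 - e1) ≤ ρ ^ 2 := h5
            exact (not_le.1 h6).le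
        rw [← hzp, himp.1 z hz, hφ z hzt]
      · exact himp.2.1 _ h2

end Pool.Agent.Helper34.BI.H


end

/-! ## Helper34.BI.H.M_XG5 -/

section

/-!
# Project BI, stage 3, section 5, module XG5: the germ of the crossing
-/

set_option autoImplicit false

open Module Set Filter Topology
open scoped ContDiff Manifold ComplexConjugate
open Pool.Agent.Helper65.Barb Pool.Agent.Helper18.BI Pool.Agent.Helper27.BI
open Pool.Agent.Helper27.H (ArcD LIso LPush Fam2 Q2 SuppU thk seg)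
open Pool.Agent.Helper70.BI (I4 LD ld_iff ld_comp ld_dfam)

namespace Pool.Agent.Helper34.BI.H

namespace XG5

/-- `refh` as a linear map -/
private noncomputable def L : R4 →L[ℝ] R4 :=
  (ContinuousLinearMap.id ℝ ℝ).prodMap ((ContinuousLinearMap.id ℝ ℝ).prodMap
    (Complex.conjCLE : ℂ →L[ℝ] ℂ))

private theorem refh_eq : refh = fun p => L p := rfl

private theorem inv (p : R4) : refh (refh p) = p := by simp [refh]

private theorem det_conj : LinearMap.det ((Complex.conjCLE : ℂ →L[ℝ] ℂ) : ℂ →ₗ[ℝ] ℂ) = -1 :=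
  Complex.det_conjAe

private theorem det_L : L.det = -1 := by
  have h : (L : R4 →ₗ[ℝ] R4) = (LinearMap.id : ℝ →ₗ[ℝ] ℝ).prodMap
      ((LinearMap.id : ℝ →ₗ[ℝ] ℝ).prodMap ((Complex.conjCLE : ℂ →L[ℝ] ℂ) : ℂ →ₗ[ℝ] ℂ)) := rfl
  rw [ContinuousLinearMap.det, h, LinearMap.det_prodMap, LinearMap.det_prodMap, det_conj,
    LinearMap.det_id]
  norm_num

private theorem det_comp' (A B : R4 →L[ℝ] R4) : (A.comp B).det = A.det * B.det := by
  rw [ContinuousLinearMap.det, ContinuousLinearMap.det, ContinuousLinearMap.det,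
    ContinuousLinearMap.toLinearMap_comp, LinearMap.det_comp]

private theorem der (p : R4) : HasFDerivAt refh L p := by
  rw [refh_eq]
  exact L.hasFDerivAt

private theorem ld (p : R4) : LD refh p := by
  rw [ld_iff]
  refine ⟨Eventually.of_forall fun q => ?_, ?_⟩
  · rw [refh_eq]
    exact L.contDiff.contDiffAt
  · rw [(der p).fderiv]
    intro x y hxy
    have h : refh x = refh y := hxy
    rw [← inv x, h, inv]

private theorem injective : Function.Injective refh := fun x y hxy => by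
  rw [← inv x, hxy, inv]

private theorem rsq_h (c : ℝ) (p : R4) : rsq c (refh p) = rsq c p := by
  simp [rsq, nsq, refh]

private theorem fd {F : R4 → R4} {p : R4} (hF : LD F (refh p)) :
    fderiv ℝ (fun p => F (refh p)) p = (fderiv ℝ F (refh p)).comp L := by
  have h1 : DifferentiableAt ℝ F (refh p) :=
    ((ld_iff.1 hF).1.self_of_nhds).differentiableAt (by simp)
  exact (h1.hasFDerivAt.comp p (der p)).fderiv

private theorem det_ne {F : R4 → R4} {p : R4} (h : LD F p) : (fderiv ℝ F p).det ≠ 0 := by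
  have h1 := (ld_iff.1 h).2
  have h2 : LinearMap.ker (fderiv ℝ F p : R4 →ₗ[ℝ] R4) = ⊥ :=
    LinearMap.ker_eq_bot.2 h1
  intro h0
  have h3 : LinearMap.det (fderiv ℝ F p : R4 →ₗ[ℝ] R4) = 0 := h0
  have h4 := LinearMap.bot_lt_ker_of_det_eq_zero h3
  rw [h2] at h4
  exact lt_irrefl _ h4

private theorem ballm {p : R4} (hp : p ∈ ball4) : refh p ∈ ball4 :=
  ⟨hp.1, hp.2.1, by rw [rsq_h]; exact hp.2.2⟩

private theorem fst_FB {p : R4} (hp : p ∈ FB) : p.1 = 1 / 2 := by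
  rcases hp with (hp | hp) | hp
  · exact hp.1
  · exact hp.1
  · exact hp.1

private theorem FBball {p : R4} (hp : p ∈ FB) : p ∈ ball4 := by
  have h0 := fst_FB hp
  have key : rsq 0 p ≤ (9 / 2) ^ 2 := by
    rcases hp with (hp | hp) | hp
    · have h1 : rsq 0 p ≤ 1 / 25 := hp.2
      linarith
    · have h1 : rsq 1 p ≤ 1 / 25 := hp.2
      simp only [rsq, nsq] at h1 ⊢
      nlinarith [sq_nonneg (p.2.1 - 1), sq_nonneg p.2.2.re, sq_nonneg p.2.2.im,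
        sq_nonneg (p.2.1 - 2)]
    · obtain ⟨-, h1, h2, h3⟩ := hp
      simp only [rsq, nsq, h3, Complex.zero_re, Complex.zero_im]
      nlinarith
  refine ⟨?_, ?_, key⟩
  · rw [h0]; norm_num
  · rw [h0]; norm_num

private theorem FBh {p : R4} (hp : p ∈ FB) : refh p ∈ FB := by
  rcases hp with (hp | hp) | hp
  · exact Or.inl (Or.inl ⟨hp.1, by rw [rsq_h]; exact hp.2⟩)
  · exact Or.inl (Or.inr ⟨hp.1, by rw [rsq_h]; exact hp.2⟩)
  · exact Or.inr ⟨hp.1, hp.2.1, hp.2.2.1, by simp [refh, hp.2.2.2]⟩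

private theorem ld_mono {F : R4 → R4} {A B : Set R4} (h : EmbOn I4 F A) (hs : ∀ p ∈ B, p ∈ A) :
    EmbOn I4 F B := ⟨fun p hp => h.1 p (hs p hp), h.2.mono hs⟩

private theorem thk_core (D : ArcD) (y : ℝ → R4) {s : ℝ} (hs : s ∈ Icc D.s₀ D.s₁) :
    thk D.J D.c y (s, 0) = y s := by
  unfold thk
  have h0 : fderiv ℝ D.J (s, 0) ((0 : ℝ), (0 : ℝ × ℂ)) = 0 := by
    have : (((0 : ℝ), (0 : ℝ × ℂ)) : R4) = 0 := rfl
    rw [this, map_zero]
  simp only [h0, map_zero, add_zero]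
  rw [D.core s hs]
  abel

end XG5

open XG5 in
theorem m_XG5 : StXG5 := by
  intro D a b ε ν κ T y h Ψ Ψ' hL hΨ hΨ'
  obtain ⟨F, hF0, -, ⟨K, -, hKU, hK⟩, N, hNo, hLN, hN⟩ := hL
  have hΨF : ∀ x, Ψ x = F.f (0, x) := fun x => (hF0 x).symm
  have hΨF' : ∀ x, Ψ' x = F.g (0, x) := fun x => by
    have h1 := hΨ' (F.g (0, x))
    rw [hΨF, F.fg] at h1
    exact h1
  -- `Ψ'` is a local diffeomorphism
  have ldΨ' : ∀ x, LD Ψ' x := by
    intro x
    have h1 := ld_dfam ⟨F.g, F.f, F.smooth_g, F.smooth_f, F.gf, F.fg⟩ 0 x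
    have h2 : Ψ' = fun q => F.g (0, q) := funext hΨF'
    rw [h2]
    exact h1
  have injΨ' : Function.Injective Ψ' := fun x z hxz => by rw [← hΨ x, hxz, hΨ]
  -- the cores
  have hcore : ∀ s ∈ Icc D.s₀ D.s₁, Ψ (D.J (s, 0)) = y 0 s := by
    intro s hs
    have h1 := hN 0 (s, 0) (hLN ⟨hs.1, hs.2, rfl⟩)
    rw [hΨF, h1, thk_core D (y 0) hs]
  have hcore' : ∀ s ∈ Icc D.s₀ D.s₁, Ψ' (y 0 s) = D.J (s, 0) := by
    intro s hs
    rw [← hcore s hs, hΨ']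
  have hU : ∀ x ∈ D.U, Ψ' x ∈ D.U := by
    intro x hx
    by_contra hn
    have h1 : Ψ' x ∉ K := fun hk => hn (hKU hk)
    have h2 := hK 0 _ h1
    rw [← hΨF, hΨ] at h2
    exact hn (h2 ▸ hx)
  have hemb : EmbOn I4 (fun p => Ψ' (T p)) ball4 :=
    ⟨fun p hp => ld_comp (h.emb.1 p hp) (ldΨ' (T p)), fun p hp q hq he =>
      h.emb.2 hp hq (injΨ' he)⟩
  have hmaps : MapsTo (fun p => Ψ' (T p)) ball4 D.U := fun p hp => hU _ (h.TU hp)
  have honly : ∀ p ∈ ball4, Ψ' (T p) ∈ D.A → p.2 = 0 ∨ p.2 = e1 := by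
    intro p hp hA
    obtain ⟨p', ⟨h1, h2, h3⟩, h4⟩ := hA
    have h5 : p' = (p'.1, 0) := by rw [← h3]
    rw [h5] at h4
    have h6 : T p = y 0 p'.1 := by
      rw [← hcore p'.1 ⟨h1, h2⟩, h4, hΨ]
    rcases h.only p hp p'.1 ⟨h1, h2⟩ h6 with h7 | h7
    · exact Or.inl h7.1
    · exact Or.inr h7.1
  refine ⟨hemb, hmaps, honly, ?_⟩
  have hε := h.εpos
  have hν := h.νpos
  have ha := h.ha
  have hab := h.hab
  have hb := h.hb
  -- the strands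
  have hev : ∀ᶠ s in 𝓝 (1 / 2 : ℝ), s ∈ Icc (-1 : ℝ) 2 :=
    Icc_mem_nhds (by norm_num) (by norm_num)
  have str0 : ∀ s ∈ Icc (-1 : ℝ) 2, Ψ' (T (s, ((0 : ℝ), (0 : ℂ)))) =
      D.J (a + ε * (s - 1 / 2), 0) := by
    intro s hs
    have h1 : T (s, ((0 : ℝ), (0 : ℂ))) = y 0 (a + ε * (s - 1 / 2)) := h.c0 s hs
    have h2 : ε * (s - 1 / 2) ≤ ε * (3 / 2) := by
      apply mul_le_mul_of_nonneg_left _ hε.le
      linarith [hs.2]
    have h3 : ε * (-(3 / 2)) ≤ ε * (s - 1 / 2) := by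
      apply mul_le_mul_of_nonneg_left _ hε.le
      linarith [hs.1]
    rw [h1, hcore' _ ⟨by linarith, by linarith⟩]
  have str1 : ∀ s ∈ Icc (-1 : ℝ) 2, Ψ' (T (s, ((1 : ℝ), (0 : ℂ)))) =
      D.J (b + ν * (s - 1 / 2), 0) := by
    intro s hs
    have h1 : T (s, ((1 : ℝ), (0 : ℂ))) = y 0 (b + ν * (s - 1 / 2)) := h.c1 s hs
    have h2 : ν * (s - 1 / 2) ≤ ν * (3 / 2) := by
      apply mul_le_mul_of_nonneg_left _ hν.le
      linarith [hs.2]
    have h3 : ν * (-(3 / 2)) ≤ ν * (s - 1 / 2) := by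
      apply mul_le_mul_of_nonneg_left _ hν.le
      linarith [hs.1]
    rw [h1, hcore' _ ⟨by linarith, by linarith⟩]
  have hpt : ∀ p : R4, p.1 = 1 / 2 → (p.2 = 0 ∨ p.2 = e1) →
      p = (1 / 2, ((0 : ℝ), (0 : ℂ))) ∨ p = (1 / 2, ((1 : ℝ), (0 : ℂ))) := by
    rintro ⟨s, x⟩ h1 (h2 | h2)
    · left
      simp only at h1 h2
      rw [h1, h2]
      rfl
    · right
      simp only at h1 h2
      rw [h1, h2]
      rfl
  have dσ : deriv (fun s : ℝ => a + ε * (s - 1 / 2)) (1 / 2) = ε := by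
    have : HasDerivAt (fun s : ℝ => a + ε * (s - 1 / 2)) (ε * 1) (1 / 2) :=
      (((hasDerivAt_id (1 / 2 : ℝ)).sub_const _).const_mul ε).const_add a
    rw [this.deriv, mul_one]
  have dτ : deriv (fun s : ℝ => b + ν * (s - 1 / 2)) (1 / 2) = ν := by
    have : HasDerivAt (fun s : ℝ => b + ν * (s - 1 / 2)) (ν * 1) (1 / 2) :=
      (((hasDerivAt_id (1 / 2 : ℝ)).sub_const _).const_mul ν).const_add b
    rw [this.deriv, mul_one]
  have hp0 : ((1 / 2, ((0 : ℝ), (0 : ℂ))) : R4) ∈ ball4 := by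
    refine ⟨by norm_num, by norm_num, ?_⟩
    simp only [rsq, nsq, Complex.zero_re, Complex.zero_im]
    norm_num
  -- the two determinants
  have hd1 : (fderiv ℝ (fun p => Ψ' (T p)) (1 / 2, ((0 : ℝ), (0 : ℂ)))).det ≠ 0 :=
    det_ne (hemb.1 _ hp0)
  have haI : a ∈ Icc D.s₀ D.s₁ := ⟨by linarith, by linarith⟩
  have hd2 : (fderiv ℝ D.J (a, 0)).det ≠ 0 := det_ne (D.emb.1 _ ⟨haI.1, haI.2, rfl⟩)
  -- the general statement
  have gen : ∀ S : R4 → R4, EmbOn I4 S ball4 → MapsTo S ball4 D.U →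
      (∀ p ∈ ball4, S p ∈ D.A → p.2 = 0 ∨ p.2 = e1) →
      (∀ s ∈ Icc (-1 : ℝ) 2, S (s, ((0 : ℝ), (0 : ℂ))) = D.J (a + ε * (s - 1 / 2), 0)) →
      (∀ s ∈ Icc (-1 : ℝ) 2, S (s, ((1 : ℝ), (0 : ℂ))) = D.J (b + ν * (s - 1 / 2), 0)) →
      0 < (fderiv ℝ S (1 / 2, ((0 : ℝ), (0 : ℂ)))).det * (fderiv ℝ D.J (a, 0)).det →
      D.XG S := by
    intro S e1' e2 e3 e4 e5 e6
    refine ⟨ld_mono e1' fun p hp => FBball hp, fun p hp => e2 (FBball hp), fun p hp hA =>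
      hpt p (fst_FB hp) (e3 p (FBball hp) hA), fun s => a + ε * (s - 1 / 2),
      fun s => b + ν * (s - 1 / 2), by fun_prop, by fun_prop, ?_, ?_, ?_, ?_, ?_, ?_, ?_, ?_⟩
    · rw [dσ]; exact hε
    · rw [dτ]; exact hν
    · simp only [sub_self, mul_zero, add_zero]; linarith
    · simp only [sub_self, mul_zero, add_zero]; linarith
    · simp only [sub_self, mul_zero, add_zero]; linarith
    · filter_upwards [hev] with s hs
      exact e4 s hs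
    · filter_upwards [hev] with s hs
      exact e5 s hs
    · simp only [sub_self, mul_zero, add_zero]
      exact e6
  rcases lt_or_gt_of_ne (mul_ne_zero hd1 hd2) with hneg | hpos
  · right
    refine gen (fun p => Ψ' (T (refh p))) ?_ ?_ ?_ ?_ ?_ ?_
    · exact ⟨fun p hp => ld_comp (F := fun p => Ψ' (T p)) (m := refh) (ld p)
        (hemb.1 _ (ballm hp)), fun p hp q hq he =>
        injective (hemb.2 (ballm hp) (ballm hq) he)⟩
    · exact fun p hp => hmaps (ballm hp)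
    · intro p hp hA
      rcases honly _ (ballm hp) hA with h1 | h1
      · left
        have h2 : (refh p).2 = (refh (p.1, 0)).2 := by rw [h1]; simp [refh]; rfl
        have h3 : refh p = refh (p.1, 0) := Prod.ext rfl h2
        have h4 := injective h3
        rw [h4]
      · right
        have h2 : (refh p).2 = (refh (p.1, e1)).2 := by rw [h1]; simp [refh, e1]
        have h3 : refh p = refh (p.1, e1) := Prod.ext rfl h2
        have h4 := injective h3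
        rw [h4]
    · intro s hs
      have h1 : refh (s, ((0 : ℝ), (0 : ℂ))) = (s, ((0 : ℝ), (0 : ℂ))) := by simp [refh]
      simp only [h1]
      exact str0 s hs
    · intro s hs
      have h1 : refh (s, ((1 : ℝ), (0 : ℂ))) = (s, ((1 : ℝ), (0 : ℂ))) := by simp [refh]
      simp only [h1]
      exact str1 s hs
    · have h1 : refh (1 / 2, ((0 : ℝ), (0 : ℂ))) = (1 / 2, ((0 : ℝ), (0 : ℂ))) := by simp [refh]
      have h2 : LD (fun p => Ψ' (T p)) (refh (1 / 2, ((0 : ℝ), (0 : ℂ)))) := by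
        rw [h1]
        exact hemb.1 _ hp0
      have h3 := fd h2
      rw [h1] at h3
      rw [h3, det_comp', det_L]
      linarith
  · left
    exact gen _ hemb hmaps honly str0 str1 hpos

end Pool.Agent.Helper34.BI.H


end
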