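import Pool.Agent.Helper65.Barb.Defs
import Pool.Agent.Helper70.BI.B.P14
import Pool.Agent.Helper70.BI.B.P21

/-!
# Project BI (MP_8e98f2_gt): collected modules, part 22

The contents of the modules
* Helper27.BI.H.Calc
* Helper27.BI.H.Cls
* Helper27.BI.H.M_CH4
* Helper27.BI.H.M_FRAME
* Helper34.BI.H.M_CROSS
* Helper34.BI.H.M_M5
* Helper34.BI.H.M_SQ5

in one file, so that the whole proof builds in a short time.
-/

/-! ## Helper27.BI.H.Calc -/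

section

/-!
# Project BI, stage 3 (H): calculus of pushes of thick arcs
-/

set_option autoImplicit false
set_option linter.unusedSectionVars false
set_option linter.unusedVariables false

open scoped Manifold ContDiff Topology ComplexConjugate
open Set Filter Pool.Agent.Helper65.Barb Pool.Agent.Helper18.BI
open Pool.Agent.Helper70.BI (I4 LD Eqv NearEq)

namespace Pool.Agent.Helper27.H

open Pool.Agent.Helper27.BI (step_zero step_one)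

theorem DFam.g_eq {F : DFam 𝓘(ℝ, R4) R4} {t : ℝ} {p q : R4} (h : F.f (t, p) = q) :
    F.g (t, q) = p := by rw [← h, F.gf]

section supp
variable {U : Set R4}

theorem SuppU.inv {F : DFam 𝓘(ℝ, R4) R4} (h : SuppU U F) : SuppU U F.inv := by
  obtain ⟨K, hK, hK2, h⟩ := h
  exact ⟨K, hK, hK2, fun t x hx => F.support_inv h t hx⟩

theorem SuppU.comp {F G : DFam 𝓘(ℝ, R4) R4} (h : SuppU U F) (h' : SuppU U G) :
    SuppU U (F.comp G) := by
  obtain ⟨K, hK, hK2, h⟩ := h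
  obtain ⟨K', hK', hK2', h'⟩ := h'
  refine ⟨K ∪ K', hK.union hK', union_subset hK2 hK2', fun t x hx => ?_⟩
  have h1 : x ∉ K := fun hx' => hx (Or.inl hx')
  have h2 : x ∉ K' := fun hx' => hx (Or.inr hx')
  change F.f (t, G.f (t, x)) = x
  rw [h' t x h2, h t x h1]

theorem SuppU.reparam {F : DFam 𝓘(ℝ, R4) R4} (h : SuppU U F) (τ : ℝ → ℝ)
    (hτ : ContDiff ℝ ∞ τ) : SuppU U (F.reparam τ hτ) := by
  obtain ⟨K, hK, hK2, h⟩ := h
  exact ⟨K, hK, hK2, fun t x hx => h (τ t) x hx⟩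

theorem SuppU.freeze {F : DFam 𝓘(ℝ, R4) R4} (h : SuppU U F) (t₀ : ℝ) : SuppU U (F.freeze t₀) :=
  h.reparam _ _

theorem SuppU.mono {U' : Set R4} {F : DFam 𝓘(ℝ, R4) R4} (h : SuppU U F) (hU : U ⊆ U') :
    SuppU U' F := by
  obtain ⟨K, hK, hK2, h⟩ := h
  exact ⟨K, hK, hK2.trans hU, h⟩

theorem suppU_one : SuppU U DFam.one :=
  ⟨∅, isCompact_empty, empty_subset _, fun _ _ _ => rfl⟩

end supp

section
variable {U L : Set R4} {J₀ J₁ J₂ φ ψ χ φ' ψ' : R4 → R4}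

theorem LIso.mono {U' L' : Set R4} (h : LIso U L J₀ J₁ φ ψ) (hU : U ⊆ U') (hL : L' ⊆ L) :
    LIso U' L' J₀ J₁ φ ψ := by
  obtain ⟨F, h0, h1, hs, N, hN, hLN, ht⟩ := h
  exact ⟨F, h0, h1, hs.mono hU, N, hN, hL.trans hLN, ht⟩

theorem LIso.congr {J₀' J₁' : R4 → R4} (h : LIso U L J₀ J₁ φ ψ) (h0 : NearEq J₀ J₀' L)
    (h1 : NearEq J₁ J₁' L) : LIso U L J₀' J₁' φ ψ := by
  obtain ⟨F, f0, f1, hs, N, hN, hLN, ht⟩ := h
  obtain ⟨N', hN', hL', e'⟩ := h0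
  obtain ⟨N'', hN'', hL'', e''⟩ := h1
  refine ⟨F, f0, f1, hs, N ∩ (N' ∩ N''), hN.inter (hN'.inter hN''),
    subset_inter hLN (subset_inter hL' hL''), fun t p hp => ?_⟩
  rw [← e' hp.2.1, ← e'' hp.2.2]
  exact ht t p hp.1

theorem LIso.refl_of (h : LIso U L J₀ J₁ φ ψ) : LIso U L J₀ J₁ φ φ := by
  obtain ⟨F, h0, h1, hs, N, hN, hLN, ht⟩ := h
  exact ⟨F.freeze 0, fun x => h0 x, fun x => h0 x, hs.freeze 0, N, hN, hLN,
    fun t p hp => ht 0 p hp⟩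

theorem LIso.symm (h : LIso U L J₀ J₁ φ ψ) : LIso U L J₀ J₁ ψ φ := by
  obtain ⟨F, h0, h1, hs, N, hN, hLN, ht⟩ := h
  have hτ : ContDiff ℝ ∞ (fun t : ℝ => 1 - t) := contDiff_const.sub contDiff_id
  refine ⟨F.reparam (fun t => 1 - t) hτ, fun x => ?_, fun x => ?_, hs.reparam _ _, N, hN, hLN,
    fun t p hp => ht _ p hp⟩
  · change F.f (1 - 0, x) = _
    rw [sub_zero, h1]
  · change F.f (1 - 1, x) = _
    rw [sub_self, h0]

theorem LIso.comp (h' : LIso U L J₁ J₂ φ' ψ') (h : LIso U L J₀ J₁ φ ψ) :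
    LIso U L J₀ J₂ (fun x => φ' (φ x)) (fun x => ψ' (ψ x)) := by
  obtain ⟨F, h0, h1, hs, N, hN, hLN, ht⟩ := h
  obtain ⟨F', h0', h1', hs', N', hN', hLN', ht'⟩ := h'
  refine ⟨F'.comp F, fun x => ?_, fun x => ?_, hs'.comp hs, N ∩ N', hN.inter hN',
    subset_inter hLN hLN', fun t p hp => ?_⟩
  · change F'.f (0, F.f (0, x)) = _
    rw [h0, h0']
  · change F'.f (1, F.f (1, x)) = _
    rw [h1, h1']
  · change F'.f (t, F.f (t, _)) = _
    rw [ht t p hp.1, ht' t p hp.2]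

theorem LIso.trans (h : LIso U L J₀ J₁ φ ψ) (h' : LIso U L J₀ J₁ ψ χ) :
    LIso U L J₀ J₁ φ χ := by
  obtain ⟨F, h0, h1, hs, N, hN, hLN, ht⟩ := h
  obtain ⟨G, g0, g1, gs, N', hN', hLN', gt⟩ := h'
  refine ⟨G.comp ((F.freeze 1).inv.comp F), fun x => ?_, fun x => ?_,
    gs.comp (((hs.freeze 1).inv).comp hs), N ∩ N', hN.inter hN', subset_inter hLN hLN',
    fun t p hp => ?_⟩
  · change G.f (0, F.g (1, F.f (0, x))) = _
    rw [g0, ← h1, F.fg, h0]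
  · change G.f (1, F.g (1, F.f (1, x))) = _
    rw [F.gf, g1]
  · change G.f (t, F.g (1, F.f (t, _))) = _
    rw [ht t p hp.1, DFam.g_eq (ht 1 p hp.1), gt t p hp.2]

/-- a member of an isotopy has an inverse of the same kind -/
theorem LIso.exists_inv (h : LIso U L J₀ J₁ φ φ) :
    ∃ φ' : R4 → R4, LIso U L J₁ J₀ φ' φ' ∧ (∀ x, φ (φ' x) = x) ∧ ∀ x, φ' (φ x) = x := by
  obtain ⟨F, h0, h1, hs, N, hN, hLN, ht⟩ := h
  refine ⟨fun x => F.g (0, x), ⟨F.inv.freeze 0, fun x => rfl, fun x => rfl,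
    (hs.inv).freeze 0, N, hN, hLN, fun t p hp => DFam.g_eq (ht 0 p hp)⟩, fun x => ?_, fun x => ?_⟩
  · have := F.fg 0 x
    rwa [h0] at this
  · have := F.gf 0 x
    rwa [h0] at this

theorem LIso.inv (h : LIso U L J₀ J₁ φ ψ) (hφ : ∀ x, φ (φ' x) = x) (hψ : ∀ x, ψ (ψ' x) = x) :
    LIso U L J₁ J₀ φ' ψ' := by
  obtain ⟨F, h0, h1, hs, N, hN, hLN, ht⟩ := h
  refine ⟨F.inv, fun x => ?_, fun x => ?_, hs.inv, N, hN, hLN, fun t p hp => DFam.g_eq (ht t p hp)⟩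
  · have := F.gf 0 (φ' x)
    rw [h0, hφ] at this
    exact this
  · have := F.gf 1 (ψ' x)
    rw [h1, hψ] at this
    exact this

theorem LIso.one (J : R4 → R4) : LIso U L J J (fun x => x) (fun x => x) :=
  ⟨DFam.one, fun _ => rfl, fun _ => rfl, suppU_one, univ, isOpen_univ, subset_univ _,
    fun _ _ _ => rfl⟩

/-- the relation does not depend on the representing functions -/
theorem LIso.congr_fun (h : LIso U L J₀ J₁ φ ψ) (h1 : ∀ x, φ x = φ' x) (h2 : ∀ x, ψ x = ψ' x) :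
    LIso U L J₀ J₁ φ' ψ' := by
  rwa [funext h1, funext h2] at h

/-! ### pushes -/

theorem LPush.mono {U' L' : Set R4} {J : ℝ → R4 → R4} {Θ : R4 → R4} (h : LPush U L J Θ)
    (hU : U ⊆ U') (hL : L' ⊆ L) : LPush U' L' J Θ := by
  obtain ⟨F, h0', h1, hs, N, hN, hLN, ht⟩ := h
  exact ⟨F, h0', h1, hs.mono hU, N, hN, hL.trans hLN, ht⟩

/-- A push carries the initial germ to the final one. -/
theorem LPush.lIso {J : ℝ → R4 → R4} {Θ : R4 → R4} (h : LPush U L J Θ) :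
    LIso U L (J 0) (J 1) Θ Θ := by
  obtain ⟨F, h0, h1, hs, N, hN, hLN, ht⟩ := h
  have h01 : (1 : ℝ) ∈ Icc (0 : ℝ) 1 := by simp
  refine ⟨F.freeze 1, fun x => h1 x, fun x => h1 x, hs.freeze 1, N, hN, hLN, fun t p hp => ?_⟩
  change F.f (1, _) = _
  rw [ht 1 h01 p hp, step_one]

/-- Two pushes along the same path of germs are isotopic. -/
theorem LPush.unique {J : ℝ → R4 → R4} {Θ Θ' : R4 → R4} (h : LPush U L J Θ)
    (h' : LPush U L J Θ') : LIso U L (J 0) (J 1) Θ Θ' := by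
  obtain ⟨F, h0, h1, hs, N, hN, hLN, ht⟩ := h
  obtain ⟨G, g0, g1, gs, N', hN', hLN', gt⟩ := h'
  have h01 : (1 : ℝ) ∈ Icc (0 : ℝ) 1 := by simp
  have hst : ∀ t, step t ∈ Icc (0 : ℝ) 1 := step_mem
  refine ⟨(F.freeze 1).comp ((F.reparam step contDiff_step).inv.comp
    (G.reparam step contDiff_step)), fun x => ?_, fun x => ?_,
    (hs.freeze 1).comp (((hs.reparam _ _).inv).comp (gs.reparam _ _)), N ∩ N', hN.inter hN',
    subset_inter hLN hLN', fun t p hp => ?_⟩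
  · change F.f (1, F.g (step 0, G.f (step 0, x))) = _
    rw [step_zero, g0, DFam.g_eq (h0 x), h1]
  · change F.f (1, F.g (step 1, G.f (step 1, x))) = _
    rw [step_one, F.fg, g1]
  · change F.f (1, F.g (step t, G.f (step t, _))) = _
    rw [gt _ (hst t) p hp.2, DFam.g_eq (ht _ (hst t) p hp.1), ht 1 h01 p hp.1, step_one]

/-- A push along the reversed path. -/
theorem LPush.reverse {J : ℝ → R4 → R4} {Θ Θ' : R4 → R4} (h : LPush U L J Θ)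
    (hΘ : ∀ x, Θ (Θ' x) = x) : LPush U L (fun q => J (1 - q)) Θ' := by
  obtain ⟨F, h0, h1, hs, N, hN, hLN, ht⟩ := h
  have h01 : (1 : ℝ) ∈ Icc (0 : ℝ) 1 := by simp
  have hτ : ContDiff ℝ ∞ (fun t : ℝ => 1 - t) := contDiff_const.sub contDiff_id
  have hΘ' : ∀ x, F.g (1, x) = Θ' x := fun x => DFam.g_eq (by rw [h1, hΘ])
  have hm : ∀ t ∈ Icc (0 : ℝ) 1, 1 - t ∈ Icc (0 : ℝ) 1 := by
    rintro t ⟨h1, h2⟩; constructor <;> linarith
  refine ⟨(F.reparam (fun t => 1 - t) hτ).comp (F.freeze 1).inv, fun x => ?_, fun x => ?_,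
    (hs.reparam _ _).comp (hs.freeze 1).inv, N, hN, hLN, fun t ht' p hp => ?_⟩
  · change F.f (1 - 0, F.g (1, x)) = _
    rw [sub_zero, F.fg]
  · change F.f (1 - 1, F.g (1, x)) = _
    rw [sub_self, h0, hΘ']
  · change F.f (1 - t, F.g (1, J (1 - 0) p)) = J (1 - step t) p
    have e := ht 1 h01 p hp
    rw [step_one] at e
    rw [sub_zero, DFam.g_eq e, ht _ (hm t ht') p hp, step_symm]

/-- The push along a constant path. -/
theorem LPush.const (J : R4 → R4) : LPush U L (fun _ => J) (fun x => x) :=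
  ⟨DFam.one, fun _ => rfl, fun _ => rfl, suppU_one, univ, isOpen_univ, subset_univ _,
    fun _ _ _ _ => rfl⟩

theorem LPush.congr {J J' : ℝ → R4 → R4} {Θ : R4 → R4} (h : LPush U L J Θ)
    (hJ : ∃ N : Set R4, IsOpen N ∧ L ⊆ N ∧ ∀ q ∈ Icc (0 : ℝ) 1, ∀ p ∈ N, J q p = J' q p) :
    LPush U L J' Θ := by
  obtain ⟨F, h0, h1, hs, N, hN, hLN, ht⟩ := h
  obtain ⟨N', hN', hLN', e'⟩ := hJ
  refine ⟨F, h0, h1, hs, N ∩ N', hN.inter hN', subset_inter hLN hLN', fun t ht' p hp => ?_⟩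
  have e := ht t ht' p hp.1
  rw [e' 0 (by simp) p hp.2, e' (step t) (step_mem t) p hp.2] at e
  exact e

/-- The push along a path which is constant near `L`. -/
theorem LPush.const_of {J : ℝ → R4 → R4}
    (hJ : ∃ N : Set R4, IsOpen N ∧ L ⊆ N ∧ ∀ q ∈ Icc (0 : ℝ) 1, ∀ p ∈ N, J q p = J 0 p) :
    LPush U L J (fun x => x) := by
  refine (LPush.const (U := U) (L := L) (J 0)).congr ?_
  obtain ⟨N, hN, hLN, h⟩ := hJ
  exact ⟨N, hN, hLN, fun q hq p hp => (h q hq p hp).symm⟩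

/-- Transport of a push by a diffeomorphism of the support. -/
theorem LPush.conj {J : ℝ → R4 → R4} {Θ Ψ Ψ' : R4 → R4} (h : LPush U L J Θ) {A B : R4 → R4}
    {L' U' : Set R4} (hΨ : LIso U' L' A B Ψ Ψ) (hi : ∀ x, Ψ (Ψ' x) = x) (hU : U ⊆ U') :
    LPush U' L (fun q p => Ψ (J q p)) (fun x => Ψ (Θ (Ψ' x))) := by
  obtain ⟨F, h0, h1, hs, N, hN, hLN, ht⟩ := h
  obtain ⟨G, g0, g1, gs, -⟩ := hΨ
  have gi : ∀ x, G.g (0, x) = Ψ' x := fun x => DFam.g_eq (by rw [g0, hi])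
  refine ⟨(G.freeze 0).comp (F.comp (G.freeze 0).inv), fun x => ?_, fun x => ?_,
    (gs.freeze 0).comp ((hs.mono hU).comp (gs.freeze 0).inv), N, hN, hLN, fun t ht' p hp => ?_⟩
  · change G.f (0, F.f (0, G.g (0, x))) = _
    rw [h0, G.fg]
  · change G.f (0, F.f (1, G.g (0, x))) = _
    rw [h1, gi, g0]
  · change G.f (0, F.f (t, G.g (0, Ψ (J 0 p)))) = Ψ (J (step t) p)
    rw [← g0 (J 0 p), G.gf, ht t ht' p hp, g0]

/-- A push followed by a smooth family of diffeomorphisms `Q q` (given at time `t` by `G.f (t, ·)`). -/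
theorem LPush.mul_fam {J : ℝ → R4 → R4} {Θ : R4 → R4} (h : LPush U L J Θ)
    {G : DFam 𝓘(ℝ, R4) R4} (hG : SuppU U G) {Q : ℝ → R4 → R4}
    (hQ : ∀ t ∈ Icc (0 : ℝ) 1, ∀ x, G.f (t, x) = Q (step t) x) :
    LPush U L (fun q p => Q q (J q p)) (fun x => G.f (1, Θ (G.g (0, x)))) := by
  obtain ⟨F, h0, h1, hs, N, hN, hLN, ht⟩ := h
  refine ⟨G.comp (F.comp (G.freeze 0).inv), fun x => ?_, fun x => ?_,
    hG.comp (hs.comp (hG.freeze 0).inv), N, hN, hLN, fun t ht' p hp => ?_⟩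
  · change G.f (0, F.f (0, G.g (0, x))) = _
    rw [h0, G.fg]
  · change G.f (1, F.f (1, G.g (0, x))) = _
    rw [h1]
  · change G.f (t, F.f (t, G.g (0, Q 0 (J 0 p)))) = Q (step t) (J (step t) p)
    have e0 := hQ 0 (by simp) (J 0 p)
    rw [step_zero] at e0
    rw [← e0, G.gf, ht t ht' p hp, hQ t ht']

/-- precomposition of the germs with a map preserving `L` -/
theorem LPush.precomp {J : ℝ → R4 → R4} {Θ : R4 → R4} (h : LPush U L J Θ) {L' : Set R4}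
    {m : R4 → R4} (hm : ∀ p ∈ L', ContinuousAt m p) (hL : ∀ p ∈ L', m p ∈ L) :
    LPush U L' (fun q p => J q (m p)) Θ := by
  obtain ⟨F, h0, h1, hs, N, hN, hLN, ht⟩ := h
  refine ⟨F, h0, h1, hs, interior (m ⁻¹' N), isOpen_interior, fun p hp => ?_,
    fun t ht' p hp => ht t ht' (m p) ?_⟩
  · exact mem_interior_iff_mem_nhds.2 ((hm p hp).preimage_mem_nhds (hN.mem_nhds (hLN (hL p hp))))
  · have : p ∈ m ⁻¹' N := interior_subset hp
    exact this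

theorem LIso.precomp {L' : Set R4} (h : LIso U L J₀ J₁ φ ψ) {m : R4 → R4}
    (hm : ∀ p ∈ L', ContinuousAt m p) (hL : ∀ p ∈ L', m p ∈ L) :
    LIso U L' (fun p => J₀ (m p)) (fun p => J₁ (m p)) φ ψ := by
  obtain ⟨F, h0, h1, hs, N, hN, hLN, ht⟩ := h
  refine ⟨F, h0, h1, hs, interior (m ⁻¹' N), isOpen_interior, fun p hp => ?_,
    fun t p hp => ht t (m p) ?_⟩
  · exact mem_interior_iff_mem_nhds.2 ((hm p hp).preimage_mem_nhds (hN.mem_nhds (hLN (hL p hp))))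
  · have : p ∈ m ⁻¹' N := interior_subset hp
    exact this

/-! ### existence of pushes, the square lemma -/

theorem isCompact_Q2 : IsCompact Q2 := isCompact_Icc.prod isCompact_Icc

theorem convex_Q2 : Convex ℝ Q2 := (convex_Icc 0 1).prod (convex_Icc 0 1)

theorem Fam2.mono {Q Q' : Set (ℝ × ℝ)} {L L' V V' U U' : Set R4} {J : ℝ × ℝ → R4 → R4}
    (h : Fam2 Q L V U J) (hQ : Q' ⊆ Q) (hL : L' ⊆ L) (hV : V' ⊆ V) (hU : U ⊆ U')
    (hV' : ∀ a ∈ Q', ∀ p ∈ L', p ∈ V → p ∉ V' → J a p ∈ U') : Fam2 Q' L' V' U' J where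
  smooth a ha p hp := h.smooth a (hQ ha) p (hL hp)
  emb a ha := ⟨fun p hp => (h.emb a (hQ ha)).1 p (hL hp), (h.emb a (hQ ha)).2.mono hL⟩
  froz a ha b hb p hp := h.froz a (hQ ha) b (hQ hb) p (hV hp)
  inU a ha p hp hpV := by
    by_cases h1 : p ∈ V
    · exact hV' a ha p hp h1 hpV
    · exact hU (h.inU a (hQ ha) p (hL hp) h1)

/-- reparametrization of a family by a smooth map of the parameters -/
theorem Fam2.comp {Q Q' : Set (ℝ × ℝ)} {L V U : Set R4} {J : ℝ × ℝ → R4 → R4}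
    (h : Fam2 Q L V U J) {θ : ℝ × ℝ → ℝ × ℝ} (hθ : ContDiff ℝ ∞ θ)
    (hm : ∀ a ∈ Q', θ a ∈ Q) : Fam2 Q' L V U (fun a => J (θ a)) where
  smooth a ha p hp := by
    have h1 := h.smooth (θ a) (hm a ha) p hp
    have h3 : Continuous (fun z : (ℝ × ℝ) × R4 => (θ z.1, z.2)) :=
      (hθ.continuous.comp continuous_fst).prodMk continuous_snd
    have h5 : ContDiff ℝ ∞ (fun z : (ℝ × ℝ) × R4 => (θ z.1, z.2)) :=
      (hθ.comp contDiff_fst).prodMk contDiff_snd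
    filter_upwards [(h3.continuousAt (x := (a, p))).eventually h1] with z e1
    exact ContDiffAt.comp (g := fun z : (ℝ × ℝ) × R4 => J z.1 z.2)
      (f := fun z : (ℝ × ℝ) × R4 => (θ z.1, z.2)) z e1 h5.contDiffAt
  emb a ha := h.emb _ (hm a ha)
  froz a ha b hb p hp := h.froz _ (hm a ha) _ (hm b hb) p hp
  inU a ha p hp hpV := h.inU _ (hm a ha) p hp hpV

section ex
variable (hCh : StCH4) {V : Set R4} (hL : IsCompact L) (hV : IsOpen V) (hU : IsOpen U)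
include hCh hL hV hU

/-- Existence of pushes along straight segments of parameters. -/
theorem exists_lpush {Q : Set (ℝ × ℝ)} (hQ : IsCompact Q) (hQc : Convex ℝ Q)
    {J : ℝ × ℝ → R4 → R4} (h : Fam2 Q L V U J) {a b : ℝ × ℝ} (ha : a ∈ Q) (hb : b ∈ Q) :
    ∃ Θ, LPush U L (fun q => J (a + q • (b - a))) Θ := by
  obtain ⟨P, hP, N, hN, hLN, K, hK, hKU, hPF⟩ := hCh Q L V U J hQ hQc hL hV hU h
  have hst : ∀ t, a + step t • (b - a) ∈ Q := fun t =>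
    hQc.add_smul_sub_mem ha hb (step_mem t)
  have hcs : ContDiff ℝ ∞ (fun t : ℝ => a + step t • (b - a)) :=
    contDiff_const.add (contDiff_step.smul contDiff_const)
  obtain ⟨F, hF, hs, ht⟩ := hPF (fun _ => a) (fun t => a + step t • (b - a)) contDiff_const hcs
    (fun _ => ha) hst
  refine ⟨fun x => F.f (1, x), F, fun x => ?_, fun x => rfl, ⟨K, hK, hKU, hs⟩, N, hN, hLN,
    fun t _ p hp => ?_⟩
  · rw [hF, step_zero, zero_smul, add_zero, hP a ha]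
  · simp only [zero_smul, add_zero]
    exact ht t p hp

/-- Existence of pushes for one-parameter families. -/
theorem exists_lpush1 {J : ℝ → R4 → R4} (h : Fam2 Q2 L V U (fun a => J a.2)) :
    ∃ Θ, LPush U L J Θ := by
  obtain ⟨Θ, h1⟩ := exists_lpush hCh hL hV hU isCompact_Q2 convex_Q2 h
    (a := (0, 0)) (b := (0, 1)) (by simp [Q2]) (by simp [Q2])
  refine ⟨Θ, h1.congr ⟨univ, isOpen_univ, subset_univ _, fun q _ p _ => ?_⟩⟩
  simp

/-- The triangle lemma: pushes along the two ways around a triangle of parameters. -/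
theorem triangle4 {Q : Set (ℝ × ℝ)} (hQ : IsCompact Q) (hQc : Convex ℝ Q)
    {J : ℝ × ℝ → R4 → R4} (h : Fam2 Q L V U J) {a b c : ℝ × ℝ} (ha : a ∈ Q) (hb : b ∈ Q)
    (hc : c ∈ Q) {Θ1 Θ2 Θ3 : R4 → R4}
    (h1 : LPush U L (fun q => J (a + q • (b - a))) Θ1)
    (h2 : LPush U L (fun q => J (b + q • (c - b))) Θ2)
    (h3 : LPush U L (fun q => J (a + q • (c - a))) Θ3) :
    LIso U L (J a) (J c) (fun x => Θ2 (Θ1 x)) Θ3 := by
  obtain ⟨P, hP, N, hN, hLN, K, hK, hKU, hPF⟩ := hCh Q L V U J hQ hQc hL hV hU h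
  have edge : ∀ a b : ℝ × ℝ, a ∈ Q → b ∈ Q → ∀ Θ : R4 → R4,
      LPush U L (fun q => J (a + q • (b - a))) Θ → LIso U L (J a) (J b) Θ (P a b) := by
    intro a b ha hb Θ hΘ
    have hst : ∀ t, a + step t • (b - a) ∈ Q := fun t =>
      hQc.add_smul_sub_mem ha hb (step_mem t)
    have hcs : ContDiff ℝ ∞ (fun t : ℝ => a + step t • (b - a)) :=
      contDiff_const.add (contDiff_step.smul contDiff_const)
    obtain ⟨F, hF, hs, ht⟩ := hPF (fun _ => a) (fun t => a + step t • (b - a)) contDiff_const hcs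
      (fun _ => ha) hst
    have hpush : LPush U L (fun q => J (a + q • (b - a))) (P a b) := by
      refine ⟨F, fun x => ?_, fun x => ?_, ⟨K, hK, hKU, hs⟩, N, hN, hLN, fun t _ p hp => ?_⟩
      · rw [hF, step_zero, zero_smul, add_zero, hP a ha]
      · rw [hF, step_one, one_smul, add_sub_cancel]
      · simp only [zero_smul, add_zero]
        exact ht t p hp
    have e := hΘ.unique hpush
    simp only [zero_smul, add_zero, one_smul, add_sub_cancel] at e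
    exact e
  have tri : LIso U L (J a) (J c) (fun x => P b c (P a b x)) (P a c) := by
    have hm : ∀ t, b + step t • (a - b) ∈ Q := fun t => hQc.add_smul_sub_mem hb ha (step_mem t)
    have hms : ContDiff ℝ ∞ (fun t : ℝ => b + step t • (a - b)) :=
      contDiff_const.add (contDiff_step.smul contDiff_const)
    obtain ⟨F, hF, hs, ht⟩ := hPF (fun _ => a) (fun t => b + step t • (a - b)) contDiff_const hms
      (fun _ => ha) hm
    obtain ⟨G, hG, gs, gt⟩ := hPF (fun t => b + step t • (a - b)) (fun _ => c) hms contDiff_const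
      hm (fun _ => hc)
    refine ⟨G.comp F, fun x => ?_, fun x => ?_, SuppU.comp ⟨K, hK, hKU, gs⟩ ⟨K, hK, hKU, hs⟩,
      N, hN, hLN, fun t p hp => ?_⟩
    · change G.f (0, F.f (0, x)) = _
      rw [hF, hG, step_zero, zero_smul, add_zero]
    · change G.f (1, F.f (1, x)) = _
      rw [hF, hG, step_one, one_smul, add_sub_cancel, hP a ha]
    · change G.f (t, F.f (t, _)) = _
      rw [ht t p hp, gt t p hp]
  exact ((edge b c hb hc Θ2 h2).comp (edge a b ha hb Θ1 h1)).trans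
    (tri.trans (edge a c ha hc Θ3 h3).symm)

/-- The square lemma. -/
theorem square4 {J : ℝ → ℝ → R4 → R4} (h : Fam2 Q2 L V U (fun a => J a.1 a.2))
    {Θ1 Θ2 Θ3 Θ4 : R4 → R4} (h1 : LPush U L (fun q => J 0 q) Θ1)
    (h2 : LPush U L (fun u => J u 1) Θ2) (h3 : LPush U L (fun u => J u 0) Θ3)
    (h4 : LPush U L (fun q => J 1 q) Θ4) :
    LIso U L (J 0 0) (J 1 1) (fun x => Θ2 (Θ1 x)) (fun x => Θ4 (Θ3 x)) := by
  have m00 : ((0 : ℝ), (0 : ℝ)) ∈ Q2 := by simp [Q2]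
  have m01 : ((0 : ℝ), (1 : ℝ)) ∈ Q2 := by simp [Q2]
  have m10 : ((1 : ℝ), (0 : ℝ)) ∈ Q2 := by simp [Q2]
  have m11 : ((1 : ℝ), (1 : ℝ)) ∈ Q2 := by simp [Q2]
  obtain ⟨Θ5, h5⟩ := exists_lpush hCh hL hV hU isCompact_Q2 convex_Q2 h m00 m11
  have t1 := triangle4 hCh hL hV hU isCompact_Q2 convex_Q2 h m00 m01 m11
    (h1.congr ⟨univ, isOpen_univ, subset_univ _, fun q _ p _ => by simp⟩)
    (h2.congr ⟨univ, isOpen_univ, subset_univ _, fun q _ p _ => by simp⟩) h5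
  have t2 := triangle4 hCh hL hV hU isCompact_Q2 convex_Q2 h m00 m10 m11
    (h3.congr ⟨univ, isOpen_univ, subset_univ _, fun q _ p _ => by simp⟩)
    (h4.congr ⟨univ, isOpen_univ, subset_univ _, fun q _ p _ => by simp⟩) h5
  exact t1.trans t2.symm

/-- A homotopy of paths of germs with constant ends does not change the push. -/
theorem push_htpy {J : ℝ → ℝ → R4 → R4} (h : Fam2 Q2 L V U (fun a => J a.1 a.2))
    (h0 : ∃ N : Set R4, IsOpen N ∧ L ⊆ N ∧ ∀ u ∈ Icc (0 : ℝ) 1, ∀ p ∈ N, J u 0 p = J 0 0 p)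
    (h1 : ∃ N : Set R4, IsOpen N ∧ L ⊆ N ∧ ∀ u ∈ Icc (0 : ℝ) 1, ∀ p ∈ N, J u 1 p = J 0 1 p)
    {Θ Θ' : R4 → R4} (hΘ : LPush U L (fun q => J 0 q) Θ) (hΘ' : LPush U L (fun q => J 1 q) Θ') :
    LIso U L (J 0 0) (J 0 1) Θ Θ' := by
  have e := square4 hCh hL hV hU h hΘ (LPush.const_of (J := fun u => J u 1) h1)
    (LPush.const_of (J := fun u => J u 0) h0) hΘ'
  obtain ⟨N, hN, hLN, hh⟩ := h1
  exact e.congr ⟨univ, isOpen_univ, subset_univ _, fun _ _ => rfl⟩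
    ⟨N, hN, hLN, fun p hp => hh 1 (by simp) p hp⟩

/-- Reparametrization of the path. -/
theorem push_reparam {J : ℝ → R4 → R4} (h : Fam2 Q2 L V U (fun a => J a.2)) {ϑ : ℝ → ℝ}
    (hϑ : ContDiff ℝ ∞ ϑ) (hm : ∀ q ∈ Icc (0 : ℝ) 1, ϑ q ∈ Icc (0 : ℝ) 1) (h0 : ϑ 0 = 0)
    (h1 : ϑ 1 = 1) {Θ Θ' : R4 → R4} (hΘ : LPush U L J Θ)
    (hΘ' : LPush U L (fun q => J (ϑ q)) Θ') : LIso U L (J 0) (J 1) Θ Θ' := by
  have hfam : Fam2 Q2 L V U (fun a => J ((1 - a.1) * a.2 + a.1 * ϑ a.2)) := by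
    have hsm : ContDiff ℝ ∞ (fun a : ℝ × ℝ => ((0 : ℝ), (1 - a.1) * a.2 + a.1 * ϑ a.2)) := by
      have : ContDiff ℝ ∞ (fun a : ℝ × ℝ => ϑ a.2) := hϑ.comp contDiff_snd
      fun_prop
    refine h.comp (θ := fun a => ((0 : ℝ), (1 - a.1) * a.2 + a.1 * ϑ a.2))
      hsm ?_
    rintro ⟨u, q⟩ ⟨⟨hu1, hu2⟩, hq⟩
    obtain ⟨h3, h4⟩ := hm q hq
    obtain ⟨hq1, hq2⟩ := hq
    simp only at hu1 hu2 hq1 hq2 h3 h4
    refine ⟨by simp, ?_, ?_⟩ <;> simp only <;> nlinarith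
  have e := push_htpy hCh hL hV hU (J := fun u q => J ((1 - u) * q + u * ϑ q)) hfam
    ⟨univ, isOpen_univ, subset_univ _, fun u _ p _ => by simp [h0]⟩
    ⟨univ, isOpen_univ, subset_univ _, fun u _ p _ => by simp [h1]⟩
    (hΘ.congr ⟨univ, isOpen_univ, subset_univ _, fun q _ p _ => by simp⟩)
    (hΘ'.congr ⟨univ, isOpen_univ, subset_univ _, fun q _ p _ => by simp⟩)
  simpa using e

end ex

end

end Pool.Agent.Helper27.H


end

/-! ## Helper27.BI.H.Cls -/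

section

/-!
# Project BI, stage 3 (H): the class of a loop of arcs
-/

set_option autoImplicit false

open scoped Manifold ContDiff Topology ComplexConjugate
open Set Filter Pool.Agent.Helper65.Barb Pool.Agent.Helper18.BI
open Pool.Agent.Helper70.BI (I4 LD Eqv NearEq ld_iff)

namespace Pool.Agent.Helper27.H

theorem isCompact_seg (s₀ s₁ : ℝ) : IsCompact (seg s₀ s₁) := by
  have h : seg s₀ s₁ = (fun s : ℝ => ((s, 0) : R4)) '' Icc s₀ s₁ := by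
    ext ⟨s, x⟩
    constructor
    · rintro ⟨h1, h2, h3⟩
      refine ⟨s, ⟨h1, h2⟩, ?_⟩
      simp only at h3
      rw [h3]
    · rintro ⟨t, ⟨h1, h2⟩, h3⟩
      have e1 : t = s := congrArg Prod.fst h3
      have e2 : (0 : ℝ × ℂ) = x := congrArg Prod.snd h3
      subst e1
      exact ⟨h1, h2, e2.symm⟩
  rw [h]
  exact isCompact_Icc.image (by fun_prop)

theorem mem_seg {s₀ s₁ s : ℝ} (h : s ∈ Icc s₀ s₁) : ((s, 0) : R4) ∈ seg s₀ s₁ :=
  ⟨h.1, h.2, rfl⟩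

theorem eq_of_mem_seg {s₀ s₁ : ℝ} {p : R4} (h : p ∈ seg s₀ s₁) :
    p.1 ∈ Icc s₀ s₁ ∧ p = (p.1, 0) := by
  obtain ⟨h1, h2, h3⟩ := h
  refine ⟨⟨h1, h2⟩, ?_⟩
  rw [← h3]

theorem nearEq_refl (F : R4 → R4) (L : Set R4) : NearEq F F L :=
  ⟨univ, isOpen_univ, subset_univ _, fun _ _ => rfl⟩

theorem nearEq_trans {F G H : R4 → R4} {L : Set R4} (h : NearEq F G L) (h' : NearEq G H L) :
    NearEq F H L := by
  obtain ⟨U, h1, h2, h3⟩ := h
  obtain ⟨U', h1', h2', h3'⟩ := h'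
  exact ⟨U ∩ U', h1.inter h1', subset_inter h2 h2', fun p hp => (h3 hp.1).trans (h3' hp.2)⟩

theorem nearEq_eq {F G : R4 → R4} {L : Set R4} (h : NearEq F G L) {p : R4} (hp : p ∈ L) :
    F p = G p := by
  obtain ⟨U, h1, h2, h3⟩ := h
  exact h3 (h2 hp)

/-- a constant family -/
theorem fam2_const {Q : Set (ℝ × ℝ)} {L V U : Set R4} {G : R4 → R4} (hG : EmbOn I4 G L)
    (h : ∀ p ∈ L, p ∉ V → G p ∈ U) : Fam2 Q L V U (fun _ => G) where
  smooth a _ p hp := by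
    have h1 := (ld_iff.1 (hG.1 p hp)).1
    have h3 : ContinuousAt (fun z : (ℝ × ℝ) × R4 => z.2) (a, p) := continuousAt_snd
    filter_upwards [h3.eventually h1] with z e1
    exact e1.comp z contDiffAt_snd
  emb _ _ := hG
  froz _ _ _ _ _ _ := rfl
  inU _ _ p hp hpV := h p hp hpV

namespace ArcD
variable (D : ArcD)

theorem isCompact_L : IsCompact D.L := isCompact_seg _ _

theorem isOpen_V : IsOpen D.V :=
  (isOpen_lt continuous_fst continuous_const).union (isOpen_lt continuous_const continuous_fst)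

theorem le₀₁ : D.s₀ ≤ D.s₁ := (D.h₀.trans (D.h₁.trans D.h₂)).le

theorem mem_V₀ : ((D.s₀, 0) : R4) ∈ D.V := Or.inl D.h₀

theorem mem_V₁ : ((D.s₁, 0) : R4) ∈ D.V := Or.inr D.h₂

theorem mem_L {s : ℝ} (h : s ∈ Icc D.s₀ D.s₁) : ((s, 0) : R4) ∈ D.L := mem_seg h

theorem core_mem {p : R4} (h : p ∈ D.L) (h0 : p ≠ (D.s₀, 0)) (h1 : p ≠ (D.s₁, 0)) :
    D.J p ∈ D.U := by
  obtain ⟨⟨h2, h3⟩, h4⟩ := eq_of_mem_seg h
  rw [h4] at h0 h1 ⊢
  rw [D.core _ ⟨h2, h3⟩]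
  exact D.mem _ ⟨lt_of_le_of_ne h2 (fun e => h0 (by rw [← e])),
    lt_of_le_of_ne h3 (fun e => h1 (by rw [← e]))⟩

/-- shrinking the frozen part of a family which is equal to the base germ on it -/
theorem fam2_shrink {J : ℝ × ℝ → R4 → R4} {V V' : Set R4} (h : Fam2 Q2 D.L V D.U J)
    (hJ : ∀ p ∈ V, J 0 p = D.J p) (hV : V' ⊆ V) (h0 : ((D.s₀, 0) : R4) ∈ V')
    (h1 : ((D.s₁, 0) : R4) ∈ V') : Fam2 Q2 D.L V' D.U J := by
  have m0 : (0 : ℝ × ℝ) ∈ Q2 := ⟨by simp, by simp⟩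
  refine h.mono subset_rfl subset_rfl hV subset_rfl fun a ha p hp hpV hpV' => ?_
  rw [h.froz a ha 0 m0 p hpV, hJ p hpV]
  exact D.core_mem hp (fun e => hpV' (e ▸ h0)) (fun e => hpV' (e ▸ h1))

end ArcD

section
variable (hCh : StCH4) (hFr : StFRAME) (hTh : StTHK) (hPhi : StPhi) (D : ArcD)

/-- the canonical thick family -/
noncomputable def ArcD.can (c : ℝ × ℝ × ℝ → R4) (u q : ℝ) : R4 → R4 :=
  thk D.J D.c (fun s => c (u, q, s))

include hTh in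
theorem can_fam {c : ℝ × ℝ × ℝ → R4} (hc : D.Htpy c) {u u' : ℝ} (h0 : 0 ≤ u) (h1 : u ≤ u')
    (h2 : u' ≤ 1) (he : ∀ v ∈ Icc u u', ∀ q ∈ Icc (0 : ℝ) 1, D.Imm c v q ∧ D.Inj c v q) :
    Fam2 Q2 D.L D.V D.U (fun a => D.can c (u + a.1 * (u' - u)) a.2) ∧
    (∀ v q, ∀ s ∈ Icc D.s₀ D.s₁, D.can c v q (s, 0) = c (v, q, s)) ∧
    (∀ v ∈ Icc (0 : ℝ) 1, D.can c v 0 = D.J ∧ D.can c v 1 = D.J) := by
  have hv : ∀ a ∈ Q2, u + a.1 * (u' - u) ∈ Icc u u' := by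
    rintro ⟨x, q⟩ ⟨⟨hx1, hx2⟩, -⟩
    simp only at hx1 hx2
    constructor <;> simp only <;> nlinarith
  have hv' : ∀ a ∈ Q2, u + a.1 * (u' - u) ∈ Icc (0 : ℝ) 1 := fun a ha =>
    ⟨h0.trans (hv a ha).1, (hv a ha).2.trans h2⟩
  have key := hTh Q2 D.s₀ D.m₀ D.m₁ D.s₁ D.U D.J D.c
    (fun a s => c (u + a.1 * (u' - u), a.2, s)) D.h₀ D.h₁ D.h₂ D.openU D.emb D.smooth D.core
    (hc.smooth.comp (by fun_prop))
    (fun a ha s hs => hc.froz _ (hv' a ha) _ ha.2 s hs)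
    (fun a ha s hs => hc.inU _ (hv' a ha) _ ha.2 s hs)
    (fun a ha => (he _ (hv a ha) _ ha.2).2)
    (fun a ha s hs => (he _ (hv a ha) _ ha.2).1 s hs)
  -- the same statement for arbitrary parameters, for the values
  have hval : ∀ v q, ∀ s ∈ Icc D.s₀ D.s₁, D.can c v q (s, 0) = c (v, q, s) := by
    intro v q s hs
    unfold ArcD.can thk
    have : fderiv ℝ D.J (s, 0) ((0 : ℝ), (0 : ℝ × ℂ)) = 0 := by
      have : (((0 : ℝ), (0 : ℝ × ℂ)) : R4) = 0 := rfl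
      rw [this, map_zero]
    simp only [this, map_zero, add_zero]
    rw [D.core s hs]
    abel
  refine ⟨key.1, hval, fun v hv => ⟨?_, ?_⟩⟩
  · have e : (fun s => c (v, 0, s)) = D.c := funext fun s => hc.start v hv s
    unfold ArcD.can
    rw [e]
    funext p
    unfold thk
    simp
  · have e : (fun s => c (v, 1, s)) = D.c := funext fun s => hc.stop v hv s
    unfold ArcD.can
    rw [e]
    funext p
    unfold thk
    simp

include hCh hTh hPhi in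
/-- existence, with the canonical thickening -/
theorem can_exists {c : ℝ × ℝ × ℝ → R4} (hc : D.Htpy c) {u : ℝ} (hu : u ∈ Icc (0 : ℝ) 1)
    (he : ∀ q ∈ Icc (0 : ℝ) 1, D.Imm c u q ∧ D.Inj c u q) :
    ∃ Θ χ, LPush D.U D.L (D.can c u) Θ ∧ LIso D.U D.L D.J D.J Θ Θ ∧ D.Phi Θ χ := by
  obtain ⟨h1, h2, h3⟩ := can_fam hTh D hc hu.1 le_rfl hu.2 (fun v hv => by
    rw [Icc_self] at hv
    rw [hv]
    exact he)
  simp only [sub_self, mul_zero, add_zero] at h1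
  obtain ⟨Θ, hΘ⟩ := exists_lpush1 hCh D.isCompact_L D.isOpen_V D.openU
    (J := D.can c u) h1
  have h4 := hΘ.lIso
  rw [(h3 u hu).1, (h3 u hu).2] at h4
  obtain ⟨χ, hχ⟩ := (hPhi D).2.1 Θ Θ h4
  exact ⟨Θ, χ, hΘ, h4, hχ⟩

include hTh in
theorem can_cls {c : ℝ × ℝ × ℝ → R4} (hc : D.Htpy c) {u : ℝ} (hu : u ∈ Icc (0 : ℝ) 1)
    (he : ∀ q ∈ Icc (0 : ℝ) 1, D.Imm c u q ∧ D.Inj c u q) {Θ χ : R4 → R4}
    (hΘ : LPush D.U D.L (D.can c u) Θ) (hχ : D.Phi Θ χ) : D.Cls (fun q s => c (u, q, s)) χ := by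
  obtain ⟨h1, h2, h3⟩ := can_fam hTh D hc hu.1 le_rfl hu.2 (fun v hv => by
    rw [Icc_self] at hv
    rw [hv]
    exact he)
  simp only [sub_self, mul_zero, add_zero] at h1
  refine ⟨D.can c u, fun q _ s hs => h2 u q s hs, D.V, D.isOpen_V, D.mem_V₀, D.mem_V₁, h1,
    fun p _ => by rw [(h3 u hu).1], by rw [(h3 u hu).1]; exact nearEq_refl _ _,
    by rw [(h3 u hu).2]; exact nearEq_refl _ _, Θ, hΘ, hχ⟩

include hFr hPhi in
theorem cls_unique {c : ℝ → ℝ → R4} {χ χ' : R4 → R4} (h : D.Cls c χ) (h' : D.Cls c χ') :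
    CIsot I4 χ χ' := by
  obtain ⟨J, hJ, V, hV, hV0, hV1, hfam, hJV, hJ0, hJ1, Θ, hΘ, hχ⟩ := h
  obtain ⟨J', hJ', V', hV', hV0', hV1', hfam', hJV', hJ0', hJ1', Θ', hΘ', hχ'⟩ := h'
  have f1 := D.fam2_shrink (J := fun a => J a.2) hfam hJV (inter_subset_left (t := V'))
    ⟨hV0, hV0'⟩ ⟨hV1, hV1'⟩
  have f2 := D.fam2_shrink (J := fun a => J' a.2) hfam' hJV' (inter_subset_right (s := V))
    ⟨hV0, hV0'⟩ ⟨hV1, hV1'⟩
  have key := hFr D (V ∩ V') J J' Θ Θ' (hV.inter hV') ⟨hV0, hV0'⟩ ⟨hV1, hV1'⟩ f1 f2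
    (fun q hq s hs => (hJ q hq s hs).trans (hJ' q hq s hs).symm)
    (fun p hp => (hJV p hp.1).trans (hJV' p hp.2).symm)
    (fun s hs => by
      rw [nearEq_eq hJ0 (D.mem_L ⟨hs.1.le, hs.2.le⟩), D.core s ⟨hs.1.le, hs.2.le⟩]
      exact D.mem s hs)
    (nearEq_trans hJ0 (NearEq.symm hJ0')) (nearEq_trans hJ1 (NearEq.symm hJ1')) hΘ hΘ'
  have key' := key.congr hJ0 hJ1
  exact (hPhi D).2.2.1 Θ' χ χ' key'.symm.refl_of ((hPhi D).1 Θ Θ' χ key' hχ) hχ'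

include hPhi in
theorem cls_congr {c : ℝ → ℝ → R4} {χ χ' : R4 → R4} (h : D.Cls c χ) (h' : CIsot I4 χ χ') :
    D.Cls c χ' := by
  obtain ⟨J, hJ, V, hV, hV0, hV1, hfam, hJV, hJ0, hJ1, Θ, hΘ, hχ⟩ := h
  exact ⟨J, hJ, V, hV, hV0, hV1, hfam, hJV, hJ0, hJ1, Θ, hΘ, (hPhi D).2.2.2.2.2.1 Θ χ χ' hχ h'⟩

include hCh hFr hTh hPhi in
theorem m_Cls : StCls := by
  intro D
  refine ⟨fun c χ χ' h h' => cls_unique hFr hPhi D h h',
    fun c χ χ' h h' => cls_congr hPhi D h h', ?_, ?_, ?_, ?_⟩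
  · rintro c χ ⟨J, hJ, V, hV, hV0, hV1, hfam, hJV, hJ0, hJ1, Θ, hΘ, hχ⟩
    exact (hPhi D).2.2.2.2.2.2 Θ χ hχ
  · intro c hc u hu he
    obtain ⟨Θ, χ, h1, h2, h3⟩ := can_exists hCh hTh hPhi D hc hu he
    exact ⟨χ, can_cls hTh D hc hu he h1 h3⟩
  · intro c hc u u' h0 h1 h2 he χ hχ
    have hu : u ∈ Icc (0 : ℝ) 1 := ⟨h0, h1.trans h2⟩
    have hu' : u' ∈ Icc (0 : ℝ) 1 := ⟨h0.trans h1, h2⟩
    obtain ⟨Θ, χ₀, e1, e2, e3⟩ := can_exists hCh hTh hPhi D hc hu (he u ⟨le_rfl, h1⟩)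
    obtain ⟨Θ', χ₁, g1, g2, g3⟩ := can_exists hCh hTh hPhi D hc hu' (he u' ⟨h1, le_rfl⟩)
    have c0 := can_cls hTh D hc hu (he u ⟨le_rfl, h1⟩) e1 e3
    have i1 := cls_unique hFr hPhi D c0 hχ
    obtain ⟨f1, f2, f3⟩ := can_fam hTh D hc h0 h1 h2 he
    have hN : ∀ v ∈ Icc (0 : ℝ) 1, u + v * (u' - u) ∈ Icc (0 : ℝ) 1 := by
      rintro v ⟨hv1, hv2⟩
      constructor <;> nlinarith
    have key := push_htpy hCh D.isCompact_L D.isOpen_V D.openU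
      (J := fun v q => D.can c (u + v * (u' - u)) q) f1
      ⟨univ, isOpen_univ, subset_univ _, fun v hv p _ => by
        rw [(f3 _ (hN v hv)).1, (f3 _ (hN 0 (by simp))).1]⟩
      ⟨univ, isOpen_univ, subset_univ _, fun v hv p _ => by
        rw [(f3 _ (hN v hv)).2, (f3 _ (hN 0 (by simp))).2]⟩
      (e1.congr ⟨univ, isOpen_univ, subset_univ _, fun q _ p _ => by simp⟩)
      (g1.congr ⟨univ, isOpen_univ, subset_univ _, fun q _ p _ => by simp⟩)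
    have key' : LIso D.U D.L D.J D.J Θ Θ' := by
      have := (f3 _ (hN 0 (by simp)))
      rw [this.1, this.2] at key
      exact key
    exact cls_congr hPhi D (can_cls hTh D hc hu' (he u' ⟨h1, le_rfl⟩) g1
      ((hPhi D).1 Θ Θ' χ₀ key' e3)) i1
  · refine ⟨fun _ => D.J, fun q _ s hs => D.core s hs, D.V, D.isOpen_V, D.mem_V₀, D.mem_V₁,
      fam2_const D.emb (fun p hp hpV => D.core_mem hp (fun e => hpV (e ▸ D.mem_V₀))
        (fun e => hpV (e ▸ D.mem_V₁))), fun _ _ => rfl, nearEq_refl _ _, nearEq_refl _ _,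
      fun x => x, LPush.const _, (hPhi D).2.2.2.2.1⟩

end

end Pool.Agent.Helper27.H


end

/-! ## Helper27.BI.H.M_CH4 -/

section

/-!
# Project BI, stage 3 (H), module CH4: chains of displacements for families of germs (helper2)
-/

set_option autoImplicit false

open scoped Manifold ContDiff Topology ComplexConjugate
open Set Filter Pool.Agent.Helper65.Barb Pool.Agent.Helper18.BI
open Pool.Agent.Helper70.BI (I4 LD Eqv NearEq embOn_iff)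

namespace Pool.Agent.Helper27.H

namespace CH4

noncomputable section

/-- step (0): the inverse of `(a, p) ↦ (a, J a p)` near `Q × L` -/
theorem exists_inv {Q : Set (ℝ × ℝ)} {L V U : Set R4} {J : ℝ × ℝ → R4 → R4} (hQ : IsCompact Q)
    (hL : IsCompact L) (hF : Fam2 Q L V U J) :
    ∃ (S T : Set ((ℝ × ℝ) × R4)) (G : (ℝ × ℝ) × R4 → R4), IsOpen S ∧ IsOpen T ∧ Q ×ˢ L ⊆ S ∧
      ContDiffOn ℝ ∞ (fun z : (ℝ × ℝ) × R4 => J z.1 z.2) S ∧ ContDiffOn ℝ ∞ G T ∧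
      (∀ z ∈ S, (z.1, J z.1 z.2) ∈ T ∧ G (z.1, J z.1 z.2) = z.2) ∧
      ∀ w ∈ T, (w.1, G w) ∈ S ∧ J w.1 (G w) = w.2 := by
  have hld : ∀ z ∈ Q ×ˢ L, IsLocalDiffeomorphAt 𝓘(ℝ, (ℝ × ℝ) × R4) 𝓘(ℝ, (ℝ × ℝ) × R4) ∞
      (fun z : (ℝ × ℝ) × R4 => (z.1, J z.1 z.2)) z := by
    rintro ⟨a, p⟩ ⟨ha, hp⟩
    have hs := hF.smooth a ha p hp
    refine (m_A0 ((ℝ × ℝ) × R4) _ (a, p)).2 ⟨?_, ?_⟩
    · obtain ⟨O, hO1, hO2, hO3⟩ := eventually_nhds_iff.1 hs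
      refine ⟨O, hO2, hO3, fun z hz => ?_⟩
      exact (contDiffAt_fst.prodMk (hO1 z hz)).contDiffWithinAt
    · rintro ⟨α, v⟩ hv
      have h1 : HasFDerivAt (fun z : (ℝ × ℝ) × R4 => J z.1 z.2)
          (fderiv ℝ (fun z : (ℝ × ℝ) × R4 => J z.1 z.2) (a, p)) (a, p) :=
        (hs.self_of_nhds.differentiableAt (by simp)).hasFDerivAt
      have h2 : HasFDerivAt (fun z : (ℝ × ℝ) × R4 => (z.1, J z.1 z.2))
          ((ContinuousLinearMap.fst ℝ (ℝ × ℝ) R4).prod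
            (fderiv ℝ (fun z : (ℝ × ℝ) × R4 => J z.1 z.2) (a, p))) (a, p) :=
        hasFDerivAt_fst.prodMk h1
      rw [h2.fderiv] at hv
      have hα : α = 0 := congrArg Prod.fst hv
      have hv2 : fderiv ℝ (fun z : (ℝ × ℝ) × R4 => J z.1 z.2) (a, p) (α, v) = 0 :=
        congrArg Prod.snd hv
      subst hα
      have h3 : HasFDerivAt (fun q : R4 => ((a, q) : (ℝ × ℝ) × R4))
          (ContinuousLinearMap.inr ℝ (ℝ × ℝ) R4) p := hasFDerivAt_prodMk_right a p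
      have h4 := (h1.comp p h3).fderiv
      have h5 : fderiv ℝ (J a) p v = 0 := by
        have h6 : (J a) = (fun z : (ℝ × ℝ) × R4 => J z.1 z.2) ∘ fun q : R4 => (a, q) := rfl
        rw [h6, h4]
        exact hv2
      have h7 := ((embOn_iff.1 (hF.emb a ha)).1 p hp).2
      have h8 : v = 0 := h7 (by rw [h5, map_zero])
      rw [h8]
      rfl
  have hinj : InjOn (fun z : (ℝ × ℝ) × R4 => (z.1, J z.1 z.2)) (Q ×ˢ L) := by
    rintro ⟨a, p⟩ ⟨ha, hp⟩ ⟨a', p'⟩ ⟨ha', hp'⟩ he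
    have h1 : a = a' := congrArg Prod.fst he
    have h2 : J a p = J a' p' := congrArg Prod.snd he
    subst h1
    have h3 : p = p' := (hF.emb a ha).2 hp hp' h2
    rw [h3]
  obtain ⟨δ, hδ, hδ'⟩ := m_A1 ((ℝ × ℝ) × R4) ((ℝ × ℝ) × R4) ((ℝ × ℝ) × R4)
    𝓘(ℝ, (ℝ × ℝ) × R4) ((ℝ × ℝ) × R4) _ _ (hQ.prod hL) hld hinj
  have c1 : ContDiffOn ℝ ∞ δ.toFun δ.source := contMDiffOn_iff_contDiffOn.1 δ.contMDiffOn_toFun
  have c2 : ContDiffOn ℝ ∞ δ.invFun δ.target := contMDiffOn_iff_contDiffOn.1 δ.contMDiffOn_invFun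
  have key : ∀ w ∈ δ.target, (w.1, (δ.invFun w).2) = δ.invFun w := by
    intro w hw
    have h1 := δ.map_target hw
    have h2 := hδ' _ h1
    have h3 : δ.toFun (δ.invFun w) = w := δ.right_inv hw
    have h4 : ((δ.invFun w).1, J (δ.invFun w).1 (δ.invFun w).2) = w := h2.symm.trans h3
    have h5 : (δ.invFun w).1 = w.1 := (Prod.ext_iff.1 h4).1
    rw [← h5]
  refine ⟨δ.source, δ.target, fun w => (δ.invFun w).2, δ.open_source, δ.open_target, hδ, ?_, ?_,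
    ?_, ?_⟩
  · have h1 : ContDiffOn ℝ ∞ (fun z => (δ.toFun z).2) δ.source := c1.snd
    exact h1.congr fun z hz => (congrArg Prod.snd (hδ' z hz)).symm
  · exact c2.snd
  · intro z hz
    have h1 : δ.toFun z = (z.1, J z.1 z.2) := hδ' z hz
    rw [← h1]
    refine ⟨δ.map_source hz, ?_⟩
    exact congrArg Prod.snd (δ.left_inv hz)
  · intro w hw
    refine ⟨by rw [key w hw]; exact δ.map_target hw, ?_⟩
    have h1 := hδ' _ (δ.map_target hw)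
    have h3 : δ.toFun (δ.invFun w) = w := δ.right_inv hw
    have h4 : ((δ.invFun w).1, J (δ.invFun w).1 (δ.invFun w).2) = w := h1.symm.trans h3
    have h5 : (δ.invFun w).1 = w.1 := (Prod.ext_iff.1 h4).1
    have h6 : J (δ.invFun w).1 (δ.invFun w).2 = w.2 := (Prod.ext_iff.1 h4).2
    rw [h5] at h6
    exact h6

/-- the data of the displacement -/
structure Dat (Q : Set (ℝ × ℝ)) (L V U : Set R4) (J : ℝ × ℝ → R4 → R4)
    (S T : Set ((ℝ × ℝ) × R4)) (G : (ℝ × ℝ) × R4 → R4) (A : Set (ℝ × ℝ)) (N' N : Set R4)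
    (χ : R4 → ℝ) : Prop where
  openS : IsOpen S
  openT : IsOpen T
  smJ : ContDiffOn ℝ ∞ (fun z : (ℝ × ℝ) × R4 => J z.1 z.2) S
  smG : ContDiffOn ℝ ∞ G T
  into : ∀ z ∈ S, (z.1, J z.1 z.2) ∈ T ∧ G (z.1, J z.1 z.2) = z.2
  fro : ∀ w ∈ T, (w.1, G w) ∈ S ∧ J w.1 (G w) = w.2
  openA : IsOpen A
  openN' : IsOpen N'
  QA : Q ⊆ A
  box : ∀ a ∈ A, ∀ p ∈ N', (a, p) ∈ S ∧ (p ∉ V → J a p ∈ U)
  smχ : ContDiff ℝ ∞ χ
  cpt : IsCompact (tsupport χ)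
  sub : tsupport χ ⊆ N'
  openN : IsOpen N
  LN : L ⊆ N
  one : ∀ p ∈ N, χ p = 1
  froz : ∀ a ∈ Q, ∀ b ∈ Q, ∀ p ∈ V, J a p = J b p

theorem exists_dat {Q : Set (ℝ × ℝ)} {L V U : Set R4} {J : ℝ × ℝ → R4 → R4} (hQ : IsCompact Q)
    (hL : IsCompact L) (hV : IsOpen V) (hU : IsOpen U) (hF : Fam2 Q L V U J) :
    ∃ S T G A N' N χ, Dat Q L V U J S T G A N' N χ := by
  obtain ⟨S, T, G, hS, hT, hQL, sJ, sG, h1, h2⟩ := exists_inv hQ hL hF
  have hW1 : IsOpen (S ∩ (fun z : (ℝ × ℝ) × R4 => J z.1 z.2) ⁻¹' U) :=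
    sJ.continuousOn.isOpen_inter_preimage hS hU
  have hW2 : IsOpen (S ∩ Prod.snd ⁻¹' V) := hS.inter (hV.preimage continuous_snd)
  obtain ⟨A, N', hA, hN', hQA, hLN', hbox⟩ := generalized_tube_lemma hQ hL (hW1.union hW2) (by
    rintro ⟨a, p⟩ ⟨ha, hp⟩
    by_cases hpV : p ∈ V
    · exact Or.inr ⟨hQL ⟨ha, hp⟩, hpV⟩
    · exact Or.inl ⟨hQL ⟨ha, hp⟩, hF.inU a ha p hp hpV⟩)
  obtain ⟨N₁, c1, l1, s1⟩ := exists_compact_between hL hN' hLN'
  obtain ⟨N₂, c2, l2, s2⟩ := exists_compact_between c1 hN' s1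
  obtain ⟨χ, χ0, χ1, -⟩ := exists_contMDiffMap_zero_one_of_isClosed (n := ⊤) 𝓘(ℝ, R4)
    (isOpen_interior (s := N₂)).isClosed_compl c1.isClosed
    (disjoint_compl_left_iff_subset.2 l2)
  have hsupp : tsupport χ ⊆ N₂ := by
    refine (closure_mono ?_).trans (closure_minimal interior_subset c2.isClosed)
    intro p hp
    by_contra h
    exact hp (χ0 h)
  refine ⟨S, T, G, A, N', interior N₁, χ, ⟨hS, hT, sJ, sG, h1, h2, hA, hN', hQA, ?_,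
    χ.contMDiff.contDiff, c2.of_isClosed_subset (isClosed_tsupport _) hsupp, hsupp.trans s2,
    isOpen_interior, l1, fun p hp => χ1 (interior_subset hp), hF.froz⟩⟩
  intro a ha p hp
  rcases hbox (show ((a, p) : (ℝ × ℝ) × R4) ∈ A ×ˢ N' from ⟨ha, hp⟩) with h | h
  · exact ⟨h.1, fun _ => h.2⟩
  · exact ⟨h.1, fun h' => absurd h.2 h'⟩

section
variable {Q : Set (ℝ × ℝ)} {L V U : Set R4} {J : ℝ × ℝ → R4 → R4} {S T : Set ((ℝ × ℝ) × R4)}
  {G : (ℝ × ℝ) × R4 → R4} {A : Set (ℝ × ℝ)} {N' N : Set R4} {χ : R4 → ℝ}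

/-- the displacement -/
def dsp (J : ℝ × ℝ → R4 → R4) (T : Set ((ℝ × ℝ) × R4)) (G : (ℝ × ℝ) × R4 → R4) (χ : R4 → ℝ)
    (a b : ℝ × ℝ) (y : R4) : R4 :=
  open Classical in
  if (a, y) ∈ T then χ (G (a, y)) • (J b (G (a, y)) - J a (G (a, y))) else 0

theorem dsp_self (a : ℝ × ℝ) (y : R4) : dsp J T G χ a a y = 0 := by
  unfold dsp
  split_ifs
  · rw [sub_self, smul_zero]
  · rfl

theorem dsp_zero {a b : ℝ × ℝ} {y : R4} (h : (a, y) ∈ T → χ (G (a, y)) = 0) :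
    dsp J T G χ a b y = 0 := by
  unfold dsp
  split_ifs with h1
  · rw [h h1, zero_smul]
  · rfl

theorem dsp_smooth (hD : Dat Q L V U J S T G A N' N χ) {a b : ℝ × ℝ} (ha : a ∈ A) (hb : b ∈ A)
    (y : R4) : ContDiffAt ℝ ∞
      (fun z : (ℝ × ℝ) × (ℝ × ℝ) × R4 => dsp J T G χ z.1 z.2.1 z.2.2) (a, b, y) := by
  have hc0 : Continuous (fun z : (ℝ × ℝ) × (ℝ × ℝ) × R4 => ((z.1, z.2.2) : (ℝ × ℝ) × R4)) := by
    fun_prop
  have hs0 : ContDiff ℝ ∞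
      (fun z : (ℝ × ℝ) × (ℝ × ℝ) × R4 => ((z.1, z.2.2) : (ℝ × ℝ) × R4)) := by
    fun_prop
  by_cases hT : (a, y) ∈ T
  · have hTe : ∀ᶠ z : (ℝ × ℝ) × (ℝ × ℝ) × R4 in 𝓝 (a, b, y), (z.1, z.2.2) ∈ T :=
      (hD.openT.preimage hc0).mem_nhds hT
    have hG : ContDiffAt ℝ ∞ (fun z : (ℝ × ℝ) × (ℝ × ℝ) × R4 => G (z.1, z.2.2)) (a, b, y) :=
      ContDiffAt.comp (a, b, y) (hD.smG.contDiffAt (hD.openT.mem_nhds hT)) hs0.contDiffAt
    by_cases hp : G (a, y) ∈ N'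
    · have e : (fun z : (ℝ × ℝ) × (ℝ × ℝ) × R4 => dsp J T G χ z.1 z.2.1 z.2.2) =ᶠ[𝓝 (a, b, y)]
          fun z => χ (G (z.1, z.2.2)) • (J z.2.1 (G (z.1, z.2.2)) - J z.1 (G (z.1, z.2.2))) := by
        filter_upwards [hTe] with z hz
        unfold dsp
        rw [if_pos hz]
      refine ContDiffAt.congr_of_eventuallyEq ?_ e
      have j1 : ContDiffAt ℝ ∞ (fun z : (ℝ × ℝ) × (ℝ × ℝ) × R4 => J z.2.1 (G (z.1, z.2.2)))
          (a, b, y) := by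
        have k1 : ContDiffAt ℝ ∞ (fun z : (ℝ × ℝ) × R4 => J z.1 z.2) (b, G (a, y)) :=
          hD.smJ.contDiffAt (hD.openS.mem_nhds (hD.box b hb _ hp).1)
        exact ContDiffAt.comp (a, b, y) k1 ((contDiffAt_snd.fst).prodMk hG)
      have j2 : ContDiffAt ℝ ∞ (fun z : (ℝ × ℝ) × (ℝ × ℝ) × R4 => J z.1 (G (z.1, z.2.2)))
          (a, b, y) := by
        have k1 : ContDiffAt ℝ ∞ (fun z : (ℝ × ℝ) × R4 => J z.1 z.2) (a, G (a, y)) :=
          hD.smJ.contDiffAt (hD.openS.mem_nhds (hD.box a ha _ hp).1)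
        exact ContDiffAt.comp (a, b, y) k1 (contDiffAt_fst.prodMk hG)
      exact (ContDiffAt.comp (a, b, y) hD.smχ.contDiffAt hG).smul (j1.sub j2)
    · have hp' : G (a, y) ∉ tsupport χ := fun h => hp (hD.sub h)
      have e : (fun z : (ℝ × ℝ) × (ℝ × ℝ) × R4 => dsp J T G χ z.1 z.2.1 z.2.2) =ᶠ[𝓝 (a, b, y)]
          fun _ => 0 := by
        filter_upwards [hG.continuousAt.eventually
          ((isClosed_tsupport χ).isOpen_compl.mem_nhds hp')] with z hz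
        exact dsp_zero fun _ => image_eq_zero_of_notMem_tsupport hz
      exact contDiffAt_const.congr_of_eventuallyEq e
  · obtain ⟨A₁, hA₁, hA₁A, cA₁⟩ := local_compact_nhds (hD.openA.mem_nhds ha)
    have hcont : ContinuousOn (fun z : (ℝ × ℝ) × R4 => (z.1, J z.1 z.2)) (A₁ ×ˢ tsupport χ) := by
      refine continuous_fst.continuousOn.prodMk (hD.smJ.continuousOn.mono ?_)
      rintro ⟨a', p'⟩ ⟨h1, h2⟩
      exact (hD.box a' (hA₁A h1) p' (hD.sub h2)).1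
    have hC : IsCompact ((fun z : (ℝ × ℝ) × R4 => (z.1, J z.1 z.2)) '' (A₁ ×ˢ tsupport χ)) :=
      (cA₁.prod hD.cpt).image_of_continuousOn hcont
    have hn : ((a, y) : (ℝ × ℝ) × R4) ∉
        (fun z : (ℝ × ℝ) × R4 => (z.1, J z.1 z.2)) '' (A₁ ×ˢ tsupport χ) := by
      rintro ⟨⟨a', p'⟩, ⟨h1, h2⟩, h3⟩
      apply hT
      rw [← h3]
      exact (hD.into (a', p') (hD.box a' (hA₁A h1) p' (hD.sub h2)).1).1
    have e : (fun z : (ℝ × ℝ) × (ℝ × ℝ) × R4 => dsp J T G χ z.1 z.2.1 z.2.2) =ᶠ[𝓝 (a, b, y)]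
        fun _ => 0 := by
      have e1 : ∀ᶠ z : (ℝ × ℝ) × (ℝ × ℝ) × R4 in 𝓝 (a, b, y), z.1 ∈ A₁ :=
        continuous_fst.continuousAt.eventually hA₁
      have e2 : ∀ᶠ z : (ℝ × ℝ) × (ℝ × ℝ) × R4 in 𝓝 (a, b, y), ((z.1, z.2.2) : (ℝ × ℝ) × R4) ∉
          (fun z : (ℝ × ℝ) × R4 => (z.1, J z.1 z.2)) '' (A₁ ×ˢ tsupport χ) :=
        (hC.isClosed.isOpen_compl.preimage hc0).mem_nhds hn
      filter_upwards [e1, e2] with z h1 h2
      refine dsp_zero fun h3 => ?_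
      by_contra h4
      apply h2
      refine ⟨(z.1, G (z.1, z.2.2)), ⟨h1, subset_tsupport χ h4⟩, ?_⟩
      have := (hD.fro _ h3).2
      exact Prod.ext rfl this
    exact contDiffAt_const.congr_of_eventuallyEq e

/-- the support -/
theorem dsp_supp (hD : Dat Q L V U J S T G A N' N χ) {a b : ℝ × ℝ} (ha : a ∈ Q) (hb : b ∈ Q)
    {y : R4} (hy : y ∉ (fun z : (ℝ × ℝ) × R4 => J z.1 z.2) '' (Q ×ˢ (tsupport χ \ V))) :
    dsp J T G χ a b y = 0 := by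
  by_cases hT : (a, y) ∈ T
  · by_cases hp : G (a, y) ∈ tsupport χ
    · by_cases hV : G (a, y) ∈ V
      · unfold dsp
        rw [if_pos hT, hD.froz a ha b hb _ hV, sub_self, smul_zero]
      · exfalso
        exact hy ⟨(a, G (a, y)), ⟨ha, hp, hV⟩, (hD.fro _ hT).2⟩
    · exact dsp_zero fun _ => image_eq_zero_of_notMem_tsupport hp
  · exact dsp_zero fun h => absurd h hT

theorem dsp_germ (hD : Dat Q L V U J S T G A N' N χ) {a b : ℝ × ℝ} (ha : a ∈ Q)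
    {p : R4} (hp : p ∈ N) : J a p + dsp J T G χ a b (J a p) = J b p := by
  have hp' : p ∈ N' := by
    apply hD.sub
    apply subset_tsupport χ
    rw [Function.mem_support, hD.one p hp]
    exact one_ne_zero
  obtain ⟨h1, h2⟩ := hD.into (a, p) (hD.box a (hD.QA ha) p hp').1
  unfold dsp
  rw [if_pos h1, h2, hD.one p hp, one_smul]
  abel

/-- step (2): short displacements are contractions, for parameters in an open set -/
theorem exists_eta (hD : Dat Q L V U J S T G A N' N χ) (hQ : IsCompact Q) :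
    ∃ (η : ℝ) (O : Set ((ℝ × ℝ) × (ℝ × ℝ))), 0 < η ∧ IsOpen O ∧
      (∀ a ∈ Q, ∀ b ∈ Q, dist b a < η → (a, b) ∈ O) ∧ (∀ z ∈ O, z.1 ∈ A ∧ z.2 ∈ A) ∧
      ∀ z ∈ O, ∀ x y, ‖dsp J T G χ z.1 z.2 x - dsp J T G χ z.1 z.2 y‖ ≤ 3 / 4 * ‖x - y‖ := by
  set Ω : Set ((ℝ × ℝ) × (ℝ × ℝ) × R4) := A ×ˢ (A ×ˢ univ) with hΩ
  have hΩo : IsOpen Ω := hD.openA.prod (hD.openA.prod isOpen_univ)
  have hsm : ContDiffOn ℝ ∞
      (fun z : (ℝ × ℝ) × (ℝ × ℝ) × R4 => dsp J T G χ z.1 z.2.1 z.2.2) Ω := by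
    rintro ⟨a, b, y⟩ ⟨ha, hb, -⟩
    exact (dsp_smooth hD ha hb y).contDiffWithinAt
  set I : R4 →L[ℝ] (ℝ × ℝ) × (ℝ × ℝ) × R4 :=
    (ContinuousLinearMap.inr ℝ (ℝ × ℝ) ((ℝ × ℝ) × R4)).comp
      (ContinuousLinearMap.inr ℝ (ℝ × ℝ) R4) with hI
  set F : (ℝ × ℝ) × (ℝ × ℝ) × R4 → (R4 →L[ℝ] R4) := fun z =>
    (fderiv ℝ (fun z : (ℝ × ℝ) × (ℝ × ℝ) × R4 => dsp J T G χ z.1 z.2.1 z.2.2) z).comp I with hFdef
  have hFc : ContinuousOn F Ω := by
    have h1 := hsm.continuousOn_fderiv_of_isOpen hΩo (by simp)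
    exact h1.clm_comp continuousOn_const
  have hFd : ∀ a ∈ A, ∀ b ∈ A, ∀ y, HasFDerivAt (dsp J T G χ a b) (F (a, b, y)) y := by
    intro a ha b hb y
    have h1 := ((dsp_smooth hD ha hb y).differentiableAt (by simp)).hasFDerivAt
    have h2 : HasFDerivAt (fun q : R4 => ((a, b, q) : (ℝ × ℝ) × (ℝ × ℝ) × R4)) I y :=
      (hasFDerivAt_prodMk_right a (b, y)).comp y (hasFDerivAt_prodMk_right b y)
    exact h1.comp y h2
  have hF0 : ∀ a ∈ A, ∀ y, F (a, a, y) = 0 := by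
    intro a ha y
    have h1 := hFd a ha a ha y
    have h2 : dsp J T G χ a a = fun _ => 0 := funext fun y => dsp_self a y
    rw [h2] at h1
    exact h1.unique (hasFDerivAt_const (0 : R4) y)
  obtain ⟨A₁, cA₁, hQA₁, hA₁A⟩ := exists_compact_between hQ hD.openA hD.QA
  have hcJ : ContinuousOn (fun z : (ℝ × ℝ) × R4 => J z.1 z.2) (A₁ ×ˢ tsupport χ) := by
    refine hD.smJ.continuousOn.mono ?_
    rintro ⟨a, p⟩ ⟨h1, h2⟩
    exact (hD.box a (hA₁A h1) p (hD.sub h2)).1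
  set K : Set R4 := (fun z : (ℝ × ℝ) × R4 => J z.1 z.2) '' (A₁ ×ˢ tsupport χ) with hK
  have hKc : IsCompact K := (cA₁.prod hD.cpt).image_of_continuousOn hcJ
  have hF1 : ∀ a ∈ A₁, ∀ b ∈ A, ∀ y, y ∉ K → F (a, b, y) = 0 := by
    intro a ha b hb y hy
    have h1 := hFd a (hA₁A ha) b hb y
    have h2 : dsp J T G χ a b =ᶠ[𝓝 y] fun _ => 0 := by
      filter_upwards [hKc.isClosed.isOpen_compl.mem_nhds hy] with y' hy'
      refine dsp_zero fun h3 => ?_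
      by_contra h4
      exact hy' ⟨(a, G (a, y')), ⟨ha, subset_tsupport χ h4⟩, (hD.fro _ h3).2⟩
    exact h1.unique ((hasFDerivAt_const (0 : R4) y).congr_of_eventuallyEq h2)
  have hcomp : IsCompact (Q ×ˢ (Q ×ˢ K)) := hQ.prod (hQ.prod hKc)
  have huc := hcomp.uniformContinuousOn_of_continuous (hFc.mono (by
    rintro ⟨a, b, y⟩ ⟨ha, hb, -⟩
    exact ⟨hD.QA ha, hD.QA hb, mem_univ _⟩))
  rw [Metric.uniformContinuousOn_iff] at huc
  obtain ⟨η, hη, h⟩ := huc (3 / 4) (by norm_num)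
  set O : Set ((ℝ × ℝ) × (ℝ × ℝ)) :=
    interior {z | z.1 ∈ A₁ ∧ z.2 ∈ A ∧ ∀ y ∈ K, ‖F (z.1, z.2, y)‖ < 3 / 4} with hO
  have hsub' : O ⊆ {z | z.1 ∈ A₁ ∧ z.2 ∈ A ∧ ∀ y ∈ K, ‖F (z.1, z.2, y)‖ < 3 / 4} :=
    interior_subset
  have hsub : ∀ z ∈ O, z.1 ∈ A₁ ∧ z.2 ∈ A ∧ ∀ y ∈ K, ‖F (z.1, z.2, y)‖ < 3 / 4 :=
    fun z hz => hsub' hz
  refine ⟨η, O, hη, isOpen_interior, fun a ha b hb hab => ?_,
    fun z hz => ⟨hA₁A (hsub z hz).1, (hsub z hz).2.1⟩, fun z hz x y => ?_⟩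
  · rw [hO, mem_interior_iff_mem_nhds]
    have e1 : ∀ᶠ z : (ℝ × ℝ) × (ℝ × ℝ) in 𝓝 (a, b), z.1 ∈ A₁ :=
      continuous_fst.continuousAt.eventually (mem_interior_iff_mem_nhds.1 (hQA₁ ha))
    have e2 : ∀ᶠ z : (ℝ × ℝ) × (ℝ × ℝ) in 𝓝 (a, b), z.2 ∈ A :=
      continuous_snd.continuousAt.eventually (hD.openA.mem_nhds (hD.QA hb))
    have e3 : ∀ᶠ z : (ℝ × ℝ) × (ℝ × ℝ) in 𝓝 (a, b), ∀ y ∈ K, ‖F (z.1, z.2, y)‖ < 3 / 4 := by
      apply hKc.eventually_forall_of_forall_eventually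
      intro y hy
      have h1 := h (a, b, y) ⟨ha, hb, hy⟩ (a, a, y) ⟨ha, ha, hy⟩ (by
        have e : dist ((a, b, y) : (ℝ × ℝ) × (ℝ × ℝ) × R4) (a, a, y) = dist b a := by
          simp [Prod.dist_eq]
        rw [e]
        exact hab)
      rw [hF0 a (hD.QA ha), dist_zero_right] at h1
      have h2 : ContinuousAt (fun z : ((ℝ × ℝ) × (ℝ × ℝ)) × R4 => F (z.1.1, z.1.2, z.2))
          ((a, b), y) := by
        have h3 : ContinuousAt F (a, b, y) :=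
          hFc.continuousAt (hΩo.mem_nhds ⟨hD.QA ha, hD.QA hb, mem_univ _⟩)
        have h4 : Continuous (fun z : ((ℝ × ℝ) × (ℝ × ℝ)) × R4 =>
            ((z.1.1, z.1.2, z.2) : (ℝ × ℝ) × (ℝ × ℝ) × R4)) := by fun_prop
        exact ContinuousAt.comp (g := F) (x := ((a, b), y))
          (f := fun z : ((ℝ × ℝ) × (ℝ × ℝ)) × R4 =>
            ((z.1.1, z.1.2, z.2) : (ℝ × ℝ) × (ℝ × ℝ) × R4)) h3 h4.continuousAt
      exact (h2.norm).eventually_lt_const h1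
    filter_upwards [e1, e2, e3] with z h1 h2 h3
    exact ⟨h1, h2, h3⟩
  · obtain ⟨h1, h2, h3⟩ := hsub z hz
    have hbd : ∀ y : R4, ‖F (z.1, z.2, y)‖ ≤ 3 / 4 := by
      intro y
      by_cases hy : y ∈ K
      · exact (h3 y hy).le
      · rw [hF1 _ h1 _ h2 y hy, norm_zero]
        norm_num
    exact convex_univ.norm_image_sub_le_of_norm_hasFDerivWithin_le
      (fun w _ => (hFd _ (hA₁A h1) _ h2 w).hasFDerivWithinAt) (fun w _ => hbd w)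
      (mem_univ y) (mem_univ x)

/-- the points of the segment -/
def ip (n : ℕ) (a b : ℝ × ℝ) (k : ℕ) : ℝ × ℝ := a + ((k : ℝ) / n) • (b - a)

theorem ip_zero (n : ℕ) (a b : ℝ × ℝ) : ip n a b 0 = a := by
  unfold ip
  simp

theorem ip_last {n : ℕ} (hn : 0 < n) (a b : ℝ × ℝ) : ip n a b n = b := by
  unfold ip
  rw [div_self (by exact_mod_cast hn.ne'), one_smul]
  abel

theorem ip_self (n : ℕ) (a : ℝ × ℝ) (k : ℕ) : ip n a a k = a := by
  unfold ip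
  simp

theorem ip_mem (hc : Convex ℝ Q) {n k : ℕ} {a b : ℝ × ℝ} (ha : a ∈ Q) (hb : b ∈ Q) (hk : k ≤ n) :
    ip n a b k ∈ Q := by
  apply hc.add_smul_sub_mem ha hb
  refine ⟨by positivity, ?_⟩
  apply div_le_one_of_le₀ _ (by positivity)
  exact_mod_cast hk

theorem exists_n (hQ : IsCompact Q) {η : ℝ} (hη : 0 < η) : ∃ n : ℕ, 0 < n ∧ ∀ a ∈ Q, ∀ b ∈ Q,
    ∀ k : ℕ, dist (ip n a b (k + 1)) (ip n a b k) < η := by
  obtain ⟨R, hR⟩ := hQ.isBounded.exists_norm_le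
  obtain ⟨n, hn⟩ := exists_nat_gt ((2 * |R| + 1) / η)
  have hn0 : (0 : ℝ) < n := lt_trans (by positivity) hn
  refine ⟨n, by exact_mod_cast hn0, fun a ha b hb k => ?_⟩
  have e : ip n a b (k + 1) - ip n a b k = (1 / (n : ℝ)) • (b - a) := by
    unfold ip
    rw [add_sub_add_left_eq_sub, ← sub_smul]
    push_cast
    rw [← sub_div, add_sub_cancel_left]
  rw [dist_eq_norm, e, norm_smul, Real.norm_eq_abs, abs_of_pos (show (0 : ℝ) < 1 / n by positivity)]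
  have h1 : ‖b - a‖ ≤ 2 * |R| := by
    have h2 := norm_sub_le b a
    have h3 := hR a ha
    have h4 := hR b hb
    have h5 := le_abs_self R
    linarith
  rw [div_lt_iff₀ hη] at hn
  rw [one_div, inv_mul_lt_iff₀ hn0]
  linarith

/-- the chain -/
def chn (J : ℝ × ℝ → R4 → R4) (T : Set ((ℝ × ℝ) × R4)) (G : (ℝ × ℝ) × R4 → R4) (χ : R4 → ℝ)
    (n : ℕ) (a b : ℝ × ℝ) : ℕ → R4 → R4
  | 0, x => x
  | k + 1, x => chn J T G χ n a b k x +
      dsp J T G χ (ip n a b k) (ip n a b (k + 1)) (chn J T G χ n a b k x)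

theorem chn_self (n : ℕ) (a : ℝ × ℝ) (k : ℕ) (x : R4) : chn J T G χ n a a k x = x := by
  induction k with
  | zero => rfl
  | succ k ih =>
    change chn J T G χ n a a k x +
      dsp J T G χ (ip n a a k) (ip n a a (k + 1)) (chn J T G χ n a a k x) = x
    rw [ih, ip_self, ip_self, dsp_self, add_zero]

theorem chn_supp (hD : Dat Q L V U J S T G A N' N χ) (hc : Convex ℝ Q) {n : ℕ} {a b : ℝ × ℝ}
    (ha : a ∈ Q) (hb : b ∈ Q) {x : R4}
    (hx : x ∉ (fun z : (ℝ × ℝ) × R4 => J z.1 z.2) '' (Q ×ˢ (tsupport χ \ V))) (k : ℕ)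
    (hk : k ≤ n) : chn J T G χ n a b k x = x := by
  induction k with
  | zero => rfl
  | succ k ih =>
    change chn J T G χ n a b k x +
      dsp J T G χ (ip n a b k) (ip n a b (k + 1)) (chn J T G χ n a b k x) = x
    rw [ih (by omega), dsp_supp hD (ip_mem hc ha hb (by omega)) (ip_mem hc ha hb hk) hx, add_zero]

theorem chn_germ (hD : Dat Q L V U J S T G A N' N χ) (hc : Convex ℝ Q) {n : ℕ} {a b : ℝ × ℝ}
    (ha : a ∈ Q) (hb : b ∈ Q) {p : R4} (hp : p ∈ N) (k : ℕ) (hk : k ≤ n) :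
    chn J T G χ n a b k (J a p) = J (ip n a b k) p := by
  induction k with
  | zero => rw [ip_zero]; rfl
  | succ k ih =>
    change chn J T G χ n a b k (J a p) +
      dsp J T G χ (ip n a b k) (ip n a b (k + 1)) (chn J T G χ n a b k (J a p)) = _
    rw [ih (by omega)]
    exact dsp_germ hD (ip_mem hc ha hb (by omega)) hp

/-- the inverse chain -/
def chv (f' : ((ℝ × ℝ) × (ℝ × ℝ)) × R4 → R4) (n : ℕ) (a b : ℝ × ℝ) : ℕ → R4 → R4
  | 0, x => x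
  | k + 1, x => chv f' n a b k (f' ((ip n a b k, ip n a b (k + 1)), x))

theorem ip_smooth (n k : ℕ) :
    ContDiff ℝ ∞ (fun z : (ℝ × ℝ) × (ℝ × ℝ) => ip n z.1 z.2 k) := by
  unfold ip
  fun_prop

/-- the steps are in `O` -/
def OO (O : Set ((ℝ × ℝ) × (ℝ × ℝ))) (n : ℕ) : Set ((ℝ × ℝ) × (ℝ × ℝ)) :=
  ⋂ k : Fin n, (fun z => (ip n z.1 z.2 k, ip n z.1 z.2 (k + 1))) ⁻¹' O

theorem isOpen_OO {O : Set ((ℝ × ℝ) × (ℝ × ℝ))} (hO : IsOpen O) (n : ℕ) : IsOpen (OO O n) := by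
  refine isOpen_iInter_of_finite fun k => hO.preimage ?_
  exact (ip_smooth n k).continuous.prodMk (ip_smooth n (k + 1)).continuous

theorem mem_OO {O : Set ((ℝ × ℝ) × (ℝ × ℝ))} {n k : ℕ} {z : (ℝ × ℝ) × (ℝ × ℝ)}
    (hz : z ∈ OO O n) (hk : k < n) : (ip n z.1 z.2 k, ip n z.1 z.2 (k + 1)) ∈ O :=
  mem_iInter.1 hz ⟨k, hk⟩

theorem chn_smooth (hD : Dat Q L V U J S T G A N' N χ) {O : Set ((ℝ × ℝ) × (ℝ × ℝ))}
    (hOA : ∀ z ∈ O, z.1 ∈ A ∧ z.2 ∈ A) {n : ℕ} (k : ℕ) (hk : k ≤ n) :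
    ContDiffOn ℝ ∞ (fun z : ((ℝ × ℝ) × (ℝ × ℝ)) × R4 => chn J T G χ n z.1.1 z.1.2 k z.2)
      (OO O n ×ˢ univ) := by
  induction k with
  | zero => exact contDiffOn_snd
  | succ k ih =>
    have ih' := ih (by omega)
    change ContDiffOn ℝ ∞ (fun z : ((ℝ × ℝ) × (ℝ × ℝ)) × R4 => chn J T G χ n z.1.1 z.1.2 k z.2 +
      dsp J T G χ (ip n z.1.1 z.1.2 k) (ip n z.1.1 z.1.2 (k + 1)) (chn J T G χ n z.1.1 z.1.2 k z.2))
      (OO O n ×ˢ univ)
    refine ih'.add ?_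
    intro z hz
    have hm := hOA _ (mem_OO hz.1 (show k < n by omega))
    have h1 := dsp_smooth hD hm.1 hm.2 (chn J T G χ n z.1.1 z.1.2 k z.2)
    have h2 : ContDiffWithinAt ℝ ∞ (fun z : ((ℝ × ℝ) × (ℝ × ℝ)) × R4 =>
        ((ip n z.1.1 z.1.2 k, ip n z.1.1 z.1.2 (k + 1), chn J T G χ n z.1.1 z.1.2 k z.2) :
          (ℝ × ℝ) × (ℝ × ℝ) × R4)) (OO O n ×ˢ univ) z :=
      (((ip_smooth n k).comp contDiff_fst).contDiffAt.contDiffWithinAt).prodMk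
        ((((ip_smooth n (k + 1)).comp contDiff_fst).contDiffAt.contDiffWithinAt).prodMk (ih' z hz))
    exact ContDiffAt.comp_contDiffWithinAt (f := fun z : ((ℝ × ℝ) × (ℝ × ℝ)) × R4 =>
        ((ip n z.1.1 z.1.2 k, ip n z.1.1 z.1.2 (k + 1), chn J T G χ n z.1.1 z.1.2 k z.2) :
          (ℝ × ℝ) × (ℝ × ℝ) × R4)) z h1 h2

theorem chv_smooth {O : Set ((ℝ × ℝ) × (ℝ × ℝ))} {f' : ((ℝ × ℝ) × (ℝ × ℝ)) × R4 → R4}
    (hf : ContDiffOn ℝ ∞ f' (O ×ˢ univ)) {n : ℕ} (k : ℕ) (hk : k ≤ n) :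
    ContDiffOn ℝ ∞ (fun z : ((ℝ × ℝ) × (ℝ × ℝ)) × R4 => chv f' n z.1.1 z.1.2 k z.2)
      (OO O n ×ˢ univ) := by
  induction k with
  | zero => exact contDiffOn_snd
  | succ k ih =>
    have ih' := ih (by omega)
    have h1 : ContDiffOn ℝ ∞ (fun z : ((ℝ × ℝ) × (ℝ × ℝ)) × R4 =>
        ((z.1, f' ((ip n z.1.1 z.1.2 k, ip n z.1.1 z.1.2 (k + 1)), z.2)) :
          ((ℝ × ℝ) × (ℝ × ℝ)) × R4)) (OO O n ×ˢ univ) := by
      refine contDiffOn_fst.prodMk ?_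
      have h2 : ContDiff ℝ ∞ (fun z : ((ℝ × ℝ) × (ℝ × ℝ)) × R4 =>
          (((ip n z.1.1 z.1.2 k, ip n z.1.1 z.1.2 (k + 1)), z.2) :
          ((ℝ × ℝ) × (ℝ × ℝ)) × R4)) :=
        (((ip_smooth n k).comp contDiff_fst).prodMk
          ((ip_smooth n (k + 1)).comp contDiff_fst)).prodMk contDiff_snd
      exact hf.comp h2.contDiffOn fun z hz => ⟨mem_OO hz.1 (by omega), mem_univ _⟩
    exact ih'.comp h1 fun z hz => ⟨hz.1, mem_univ _⟩

theorem chv_inv {O : Set ((ℝ × ℝ) × (ℝ × ℝ))} {f' : ((ℝ × ℝ) × (ℝ × ℝ)) × R4 → R4}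
    (hf : ∀ e ∈ O, ∀ x, f' (e, x) + dsp J T G χ e.1 e.2 (f' (e, x)) = x ∧
      f' (e, x + dsp J T G χ e.1 e.2 x) = x) {n : ℕ} {a b : ℝ × ℝ} (hab : (a, b) ∈ OO O n)
    (k : ℕ) (hk : k ≤ n) (x : R4) :
    chn J T G χ n a b k (chv f' n a b k x) = x ∧ chv f' n a b k (chn J T G χ n a b k x) = x := by
  induction k generalizing x with
  | zero => exact ⟨rfl, rfl⟩
  | succ k ih =>
    have hm : (ip n a b k, ip n a b (k + 1)) ∈ O := mem_OO hab (show k < n by omega)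
    constructor
    · change chn J T G χ n a b k (chv f' n a b k (f' ((ip n a b k, ip n a b (k + 1)), x))) +
        dsp J T G χ (ip n a b k) (ip n a b (k + 1))
          (chn J T G χ n a b k (chv f' n a b k (f' ((ip n a b k, ip n a b (k + 1)), x)))) = x
      rw [(ih (by omega) _).1]
      exact (hf _ hm x).1
    · change chv f' n a b k (f' ((ip n a b k, ip n a b (k + 1)), chn J T G χ n a b k x +
        dsp J T G χ (ip n a b k) (ip n a b (k + 1)) (chn J T G χ n a b k x))) = x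
      have h1 := (hf _ hm (chn J T G χ n a b k x)).2
      rw [h1]
      exact (ih (by omega) x).2

end

end

end CH4

open CH4 in
/-- **CH4.** -/
theorem m_CH4 (pt : StPTJ) : StCH4J := by
  intro Q L V U J hQ hc hL hV hU hF
  obtain ⟨S, T, G, A, N', N, χ, hD⟩ := exists_dat hQ hL hV hU hF
  obtain ⟨η, O, hη, hO, h1, hOA, h3⟩ := exists_eta hD hQ
  obtain ⟨n, hn, h2⟩ := exists_n hQ hη
  obtain ⟨f', hf1, hf2⟩ := pt ((ℝ × ℝ) × (ℝ × ℝ)) R4 O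
    (fun z => dsp J T G χ z.1.1 z.1.2 z.2) hO (by
      intro z hz
      have hm := hOA _ hz.1
      have k1 := dsp_smooth hD hm.1 hm.2 z.2
      have k2 : ContDiff ℝ ∞ (fun z : ((ℝ × ℝ) × (ℝ × ℝ)) × R4 =>
        ((z.1.1, z.1.2, z.2) : (ℝ × ℝ) × (ℝ × ℝ) × R4)) := by fun_prop
      exact (ContDiffAt.comp (f := fun z : ((ℝ × ℝ) × (ℝ × ℝ)) × R4 =>
        ((z.1.1, z.1.2, z.2) : (ℝ × ℝ) × (ℝ × ℝ) × R4)) z k1 k2.contDiffAt).contDiffWithinAt)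
    (fun e he x y => h3 e he x y)
  refine ⟨fun a b => chn J T G χ n a b n, fun a b => chv f' n a b n, OO O n, isOpen_OO hO n, ?_,
    chn_smooth hD hOA n le_rfl, chv_smooth hf1 n le_rfl,
    fun a b hab x => chv_inv hf2 hab n le_rfl x, fun a _ x => chn_self n a n x, N, hD.openN, hD.LN,
    (fun z : (ℝ × ℝ) × R4 => J z.1 z.2) '' (Q ×ˢ (tsupport χ \ V)), ?_, ?_, ?_⟩
  · rintro ⟨a, b⟩ ⟨ha, hb⟩
    refine mem_iInter.2 fun k => ?_
    exact h1 _ (ip_mem hc ha hb k.2.le) _ (ip_mem hc ha hb k.2) (h2 a ha b hb k)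
  · refine (hQ.prod (hD.cpt.diff hV)).image_of_continuousOn (hD.smJ.continuousOn.mono ?_)
    rintro ⟨a, p⟩ ⟨ha, hp⟩
    exact (hD.box a (hD.QA ha) p (hD.sub hp.1)).1
  · rintro _ ⟨⟨a, p⟩, ⟨ha, hp⟩, rfl⟩
    exact (hD.box a (hD.QA ha) p (hD.sub hp.1)).2 hp.2
  · intro a ha b hb
    refine ⟨fun x hx => chn_supp hD hc ha hb hx n le_rfl, fun p hp => ?_⟩
    change chn J T G χ n a b n (J a p) = J b p
    rw [chn_germ hD hc ha hb hp n le_rfl, ip_last hn]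

end Pool.Agent.Helper27.H


end

/-! ## Helper27.BI.H.M_FRAME -/

section

/-!
# Project BI, stage 3 (H): framings do not matter

`m_FRAME (ch : StCH4) (pi2 : StPI2) : StFRAME`.
-/

set_option autoImplicit false

open scoped Manifold ContDiff Topology ComplexConjugate
open Set Filter Pool.Agent.Helper65.Barb Pool.Agent.Helper18.BI
open Pool.Agent.Helper70.BI (I4 LD Eqv NearEq embOn_iff nearEq_of_eventuallyEq)

namespace Pool.Agent.Helper27.H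

namespace FRAME

/-- the inclusion of the normal space -/
noncomputable abbrev nrm : R3 →L[ℝ] R4 := ContinuousLinearMap.inr ℝ ℝ R3

theorem nrm_apply (v : R3) : nrm v = ((0 : ℝ), v) := rfl

theorem seg_mem {s₀ s₁ s : ℝ} (h : s ∈ Icc s₀ s₁) : ((s, 0) : R4) ∈ seg s₀ s₁ :=
  ⟨h.1, h.2, rfl⟩

theorem seg_eq {s₀ s₁ : ℝ} {p : R4} (h : p ∈ seg s₀ s₁) : ∃ s ∈ Icc s₀ s₁, p = (s, 0) :=
  ⟨p.1, ⟨h.1, h.2.1⟩, Prod.ext rfl h.2.2⟩

section one
variable {s₀ s₁ : ℝ} {V U : Set R4} {J : ℝ → R4 → R4}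

/-- joint smoothness of a path of germs -/
theorem joint (h : Fam2 Q2 (seg s₀ s₁) V U (fun a => J a.2)) {q : ℝ} (hq : q ∈ Icc (0 : ℝ) 1)
    {p : R4} (hp : p ∈ seg s₀ s₁) :
    ∀ᶠ z : ℝ × R4 in 𝓝 (q, p), ContDiffAt ℝ ∞ (fun z : ℝ × R4 => J z.1 z.2) z := by
  have h1 := h.smooth (0, q) ⟨by simp, hq⟩ p hp
  have hg : ContDiff ℝ ∞ (fun z : ℝ × R4 => (((0 : ℝ), z.1), z.2)) :=
    (contDiff_const.prodMk contDiff_fst).prodMk contDiff_snd
  have h2 := (hg.continuous.continuousAt (x := (q, p))).eventually h1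
  filter_upwards [h2] with z hz
  exact ContDiffAt.comp (g := fun z : (ℝ × ℝ) × R4 => J z.1.2 z.2)
    (f := fun z : ℝ × R4 => (((0 : ℝ), z.1), z.2)) z hz hg.contDiffAt

theorem slice {K : ℝ × ℝ → R4 → R4} {a : ℝ × ℝ} {p : R4}
    (h : ∀ᶠ z : (ℝ × ℝ) × R4 in 𝓝 (a, p), ContDiffAt ℝ ∞ (fun z : (ℝ × ℝ) × R4 => K z.1 z.2) z) :
    ∀ᶠ q in 𝓝 p, ContDiffAt ℝ ∞ (K a) q := by
  have hg : ContDiff ℝ ∞ (fun q : R4 => (a, q)) := contDiff_const.prodMk contDiff_id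
  have h2 := (hg.continuous.continuousAt (x := p)).eventually h
  filter_upwards [h2] with q hq
  exact ContDiffAt.comp (g := fun z : (ℝ × ℝ) × R4 => K z.1 z.2)
    (f := fun q : R4 => (a, q)) q hq hg.contDiffAt

theorem diffAt (h : Fam2 Q2 (seg s₀ s₁) V U (fun a => J a.2)) {q : ℝ} (hq : q ∈ Icc (0 : ℝ) 1)
    {p : R4} (hp : p ∈ seg s₀ s₁) : DifferentiableAt ℝ (J q) p := by
  have h1 := (embOn_iff.1 (h.emb (0, q) ⟨by simp, hq⟩)).1 p hp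
  exact h1.1.self_of_nhds.differentiableAt (by simp)

/-- smoothness of the derivative along the core -/
theorem der_smooth (h : Fam2 Q2 (seg s₀ s₁) V U (fun a => J a.2)) {q s : ℝ}
    (hq : q ∈ Icc (0 : ℝ) 1) (hs : s ∈ Icc s₀ s₁) :
    ∀ᶠ x : ℝ × ℝ in 𝓝 (q, s),
      ContDiffAt ℝ ∞ (fun x : ℝ × ℝ => fderiv ℝ (J x.1) (x.2, (0 : R3))) x := by
  have h1 := joint h hq (seg_mem hs)
  have hg : ContDiff ℝ ∞ (fun x : ℝ × ℝ => (x.1, ((x.2, (0 : R3)) : R4))) :=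
    contDiff_fst.prodMk (contDiff_snd.prodMk contDiff_const)
  have h2 := (hg.continuous.continuousAt (x := (q, s))).eventually h1
  filter_upwards [h2] with x hx
  have hm : ContDiff ℝ ∞ (fun w : (ℝ × ℝ) × R4 => (w.1.1, w.2)) :=
    (contDiff_fst.comp contDiff_fst).prodMk contDiff_snd
  have h3 : ContDiffAt ℝ ∞ (Function.uncurry (fun (x : ℝ × ℝ) (p : R4) => J x.1 p))
      (x, ((x.2, (0 : R3)) : R4)) :=
    ContDiffAt.comp (g := fun z : ℝ × R4 => J z.1 z.2)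
      (f := fun w : (ℝ × ℝ) × R4 => (w.1.1, w.2)) _ hx hm.contDiffAt
  have h4 : ContDiffAt ℝ ∞ (fun x : ℝ × ℝ => ((x.2, (0 : R3)) : R4)) x :=
    (contDiff_snd.prodMk contDiff_const).contDiffAt
  exact ContDiffAt.fderiv h3 h4 (by simp)

theorem inv_of_inj {A : R4 →L[ℝ] R4} (h : Function.Injective A) : A.IsInvertible := by
  have h' : Function.Injective A.toLinearMap := h
  refine ⟨(LinearEquiv.ofInjectiveEndo A.toLinearMap h').toContinuousLinearEquiv, ?_⟩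
  ext x <;> rfl

theorem der_inj (h : Fam2 Q2 (seg s₀ s₁) V U (fun a => J a.2)) {q s : ℝ}
    (hq : q ∈ Icc (0 : ℝ) 1) (hs : s ∈ Icc s₀ s₁) :
    Function.Injective (fderiv ℝ (J q) (s, (0 : R3))) :=
  ((embOn_iff.1 (h.emb (0, q) ⟨by simp, hq⟩)).1 _ (seg_mem hs)).2

end one

/-- the rectangle -/
def Rc (a₀ a₁ : ℝ) : Set (ℝ × ℝ) := Icc (1 / 3) (2 / 3) ×ˢ Icc a₀ a₁

theorem isClosed_Rc (a₀ a₁ : ℝ) : IsClosed (Rc a₀ a₁) := isClosed_Icc.prod isClosed_Icc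

/-- the reduced situation -/
structure Red (s₀ a₀ a₁ s₁ : ℝ) (V U : Set R4) (J J' : ℝ → R4 → R4) : Prop where
  openV : IsOpen V
  lt0 : s₀ < a₀
  lt1 : a₀ < a₁
  lt2 : a₁ < s₁
  V0 : ∀ s ∈ Icc s₀ a₀, ((s, 0) : R4) ∈ V
  V1 : ∀ s ∈ Icc a₁ s₁, ((s, 0) : R4) ∈ V
  fam : Fam2 Q2 (seg s₀ s₁) V U (fun a => J a.2)
  fam' : Fam2 Q2 (seg s₀ s₁) V U (fun a => J' a.2)
  core : ∀ q ∈ Icc (0 : ℝ) 1, ∀ s ∈ Icc s₀ s₁, J q (s, 0) = J' q (s, 0)
  eqV : ∀ p ∈ V, J 0 p = J' 0 p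
  mem : ∀ s ∈ Ioo s₀ s₁, J 0 (s, 0) ∈ U
  e0 : ∀ q ∈ Icc (0 : ℝ) 1, q ≤ 1 / 3 → NearEq (J q) (J' q) (seg s₀ s₁)
  e1 : ∀ q ∈ Icc (0 : ℝ) 1, 2 / 3 ≤ q → NearEq (J q) (J' q) (seg s₀ s₁)

/-- the comparison of the normal framings -/
noncomputable def W0 (J J' : ℝ → R4 → R4) (x : ℝ × ℝ) : R3 →L[ℝ] R4 :=
  (fderiv ℝ (J x.1) (x.2, (0 : R3))).inverse.comp
    ((fderiv ℝ (J' x.1) (x.2, (0 : R3))).comp nrm)

open Classical in
/-- the comparison of the normal framings, extended -/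
noncomputable def W (a₀ a₁ : ℝ) (J J' : ℝ → R4 → R4) (x : ℝ × ℝ) : R3 →L[ℝ] R4 :=
  if x ∈ Rc a₀ a₁ then W0 J J' x else nrm

theorem W_of_notMem {a₀ a₁ : ℝ} {J J' : ℝ → R4 → R4} {x : ℝ × ℝ} (h : x ∉ Rc a₀ a₁) :
    W a₀ a₁ J J' x = nrm := if_neg h

section two
variable {s₀ a₀ a₁ s₁ : ℝ} {V U : Set R4} {J J' : ℝ → R4 → R4}

theorem Red.eqV' (R : Red s₀ a₀ a₁ s₁ V U J J') {q : ℝ} (hq : q ∈ Icc (0 : ℝ) 1) {p : R4}
    (hp : p ∈ V) : J q p = J' q p := by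
  have h1 : J q p = J 0 p := R.fam.froz (0, q) ⟨by simp, hq⟩ (0, 0) ⟨by simp, by simp⟩ p hp
  have h2 : J' q p = J' 0 p := R.fam'.froz (0, q) ⟨by simp, hq⟩ (0, 0) ⟨by simp, by simp⟩ p hp
  rw [h1, h2, R.eqV p hp]

theorem Red.der_eq (R : Red s₀ a₀ a₁ s₁ V U J J') {q s : ℝ} (hq : q ∈ Icc (0 : ℝ) 1)
    (hs : s ∈ Icc s₀ s₁) (h : (q, s) ∉ Rc a₀ a₁) :
    fderiv ℝ (J q) (s, (0 : R3)) = fderiv ℝ (J' q) (s, (0 : R3)) := by
  have key : J q =ᶠ[𝓝 ((s, (0 : R3)) : R4)] J' q := by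
    by_cases h1 : q ≤ 1 / 3
    · exact (R.e0 q hq h1).eventuallyEq (seg_mem hs)
    by_cases h2 : 2 / 3 ≤ q
    · exact (R.e1 q hq h2).eventuallyEq (seg_mem hs)
    push Not at h1 h2
    have hV : ((s, 0) : R4) ∈ V := by
      by_cases h3 : s < a₀
      · exact R.V0 s ⟨hs.1, h3.le⟩
      by_cases h4 : a₁ < s
      · exact R.V1 s ⟨h4.le, hs.2⟩
      push Not at h3 h4
      exact absurd ⟨⟨h1.le, h2.le⟩, ⟨h3, h4⟩⟩ h
    filter_upwards [R.openV.mem_nhds hV] with p hp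
    exact R.eqV' hq hp
  exact key.fderiv_eq

theorem Red.core_der (R : Red s₀ a₀ a₁ s₁ V U J J') {q s : ℝ} (hq : q ∈ Icc (0 : ℝ) 1)
    (hs : s ∈ Ioo s₀ s₁) (c : ℝ) :
    fderiv ℝ (J q) (s, (0 : R3)) (c, 0) = fderiv ℝ (J' q) (s, (0 : R3)) (c, 0) := by
  have hs' : s ∈ Icc s₀ s₁ := Ioo_subset_Icc_self hs
  have d1 := (diffAt R.fam hq (seg_mem hs')).hasFDerivAt
  have d2 := (diffAt R.fam' hq (seg_mem hs')).hasFDerivAt
  have dc : HasDerivAt (fun t : ℝ => ((t, (0 : R3)) : R4)) (1, 0) s :=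
    (hasDerivAt_id s).prodMk (hasDerivAt_const s (0 : R3))
  have e1 := HasFDerivAt.comp_hasDerivAt (f := fun t : ℝ => ((t, (0 : R3)) : R4)) s d1 dc
  have e2 := HasFDerivAt.comp_hasDerivAt (f := fun t : ℝ => ((t, (0 : R3)) : R4)) s d2 dc
  have e3 : (J q ∘ fun t : ℝ => ((t, (0 : R3)) : R4)) =ᶠ[𝓝 s]
      (J' q ∘ fun t : ℝ => ((t, (0 : R3)) : R4)) := by
    filter_upwards [Ioo_mem_nhds hs.1 hs.2] with t ht
    exact R.core q hq t (Ioo_subset_Icc_self ht)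
  have e4 := (e1.congr_of_eventuallyEq e3.symm).unique e2
  have e5 : ((c, 0) : R4) = c • ((1, 0) : R4) := by
    ext <;> simp
  rw [e5, map_smul, map_smul, e4]

theorem Red.inner {q s : ℝ} (R : Red s₀ a₀ a₁ s₁ V U J J') (h : (q, s) ∈ Rc a₀ a₁) :
    q ∈ Ioo (0 : ℝ) 1 ∧ s ∈ Ioo s₀ s₁ := by
  obtain ⟨⟨h1, h2⟩, h3, h4⟩ := h
  simp only at h1 h2 h3 h4
  have := R.lt0
  have := R.lt2
  exact ⟨⟨by linarith, by linarith⟩, by linarith, by linarith⟩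

theorem Red.W_key (R : Red s₀ a₀ a₁ s₁ V U J J') {q s : ℝ} (hq : q ∈ Icc (0 : ℝ) 1)
    (hs : s ∈ Icc s₀ s₁) (v : R3) :
    fderiv ℝ (J q) (s, (0 : R3)) (W a₀ a₁ J J' (q, s) v) =
      fderiv ℝ (J' q) (s, (0 : R3)) (0, v) := by
  by_cases h : (q, s) ∈ Rc a₀ a₁
  · rw [W, if_pos h]
    exact (inv_of_inj (der_inj R.fam hq hs)).self_apply_inverse _
  · rw [W_of_notMem h, R.der_eq hq hs h]
    rfl

theorem Red.W_eq (R : Red s₀ a₀ a₁ s₁ V U J J') {x : ℝ × ℝ}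
    (hx : x ∈ Ioo (0 : ℝ) 1 ×ˢ Ioo s₀ s₁) : W a₀ a₁ J J' x = W0 J J' x := by
  obtain ⟨q, s⟩ := x
  have hq : q ∈ Icc (0 : ℝ) 1 := Ioo_subset_Icc_self hx.1
  have hs : s ∈ Icc s₀ s₁ := Ioo_subset_Icc_self hx.2
  by_cases h : (q, s) ∈ Rc a₀ a₁
  · rw [W, if_pos h]
  · rw [W_of_notMem h]
    refine ContinuousLinearMap.ext fun v => ?_
    apply der_inj R.fam hq hs
    have := (inv_of_inj (der_inj R.fam hq hs)).self_apply_inverse
      (fderiv ℝ (J' q) (s, (0 : R3)) (nrm v))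
    refine Eq.trans ?_ this.symm
    rw [R.der_eq hq hs h]

theorem Red.W_smooth (R : Red s₀ a₀ a₁ s₁ V U J J') : ContDiff ℝ ∞ (W a₀ a₁ J J') := by
  rw [contDiff_iff_contDiffAt]
  rintro ⟨q, s⟩
  by_cases h : (q, s) ∈ Rc a₀ a₁
  · obtain ⟨hq, hs⟩ := R.inner h
    have hq' : q ∈ Icc (0 : ℝ) 1 := Ioo_subset_Icc_self hq
    have hs' : s ∈ Icc s₀ s₁ := Ioo_subset_Icc_self hs
    have h1 : W a₀ a₁ J J' =ᶠ[𝓝 (q, s)] W0 J J' := by
      filter_upwards [(isOpen_Ioo.prod isOpen_Ioo).mem_nhds (⟨hq, hs⟩ :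
        (q, s) ∈ Ioo (0 : ℝ) 1 ×ˢ Ioo s₀ s₁)] with x hx
      exact R.W_eq hx
    refine ContDiffAt.congr_of_eventuallyEq ?_ h1
    have s1 := (der_smooth R.fam hq' hs').self_of_nhds
    have s2 := (der_smooth R.fam' hq' hs').self_of_nhds
    have s3 : ContDiffAt ℝ ∞ (fun x : ℝ × ℝ =>
        (fderiv ℝ (J x.1) (x.2, (0 : R3))).inverse) (q, s) := by
      have := (inv_of_inj (der_inj R.fam hq' hs')).contDiffAt_map_inverse (n := ∞)
      exact ContDiffAt.comp (g := ContinuousLinearMap.inverse)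
        (f := fun x : ℝ × ℝ => fderiv ℝ (J x.1) (x.2, (0 : R3))) (q, s) this s1
    exact s3.clm_comp (s2.clm_comp contDiffAt_const)
  · have h1 : W a₀ a₁ J J' =ᶠ[𝓝 (q, s)] fun _ => nrm := by
      filter_upwards [(isClosed_Rc a₀ a₁).isOpen_compl.mem_nhds h] with x hx
      exact W_of_notMem hx
    exact contDiffAt_const.congr_of_eventuallyEq h1

theorem Red.W_inj (R : Red s₀ a₀ a₁ s₁ V U J J') (x : ℝ × ℝ) (v : R3)
    (h : (W a₀ a₁ J J' x v).2 = 0) : v = 0 := by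
  obtain ⟨q, s⟩ := x
  by_cases hx : (q, s) ∈ Rc a₀ a₁
  · obtain ⟨hq, hs⟩ := R.inner hx
    have hq' : q ∈ Icc (0 : ℝ) 1 := Ioo_subset_Icc_self hq
    have hs' : s ∈ Icc s₀ s₁ := Ioo_subset_Icc_self hs
    have k := R.W_key hq' hs' v
    have e : W a₀ a₁ J J' (q, s) v = ((W a₀ a₁ J J' (q, s) v).1, 0) := Prod.ext rfl h
    rw [e, R.core_der hq' hs] at k
    have := der_inj R.fam' hq' hs' k
    exact (congrArg Prod.snd this).symm
  · rw [W_of_notMem hx] at h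
    exact h

/-- the matrices of the normal parts, on the unit square -/
noncomputable def Mx (a₀ a₁ : ℝ) (J J' : ℝ → R4 → R4) (x : ℝ × ℝ) : R3 →L[ℝ] R3 :=
  (ContinuousLinearMap.snd ℝ ℝ R3).comp
    (W a₀ a₁ J J' ((1 + x.1) / 3, a₀ + x.2 * (a₁ - a₀)))

theorem Mx_off (h01 : a₀ < a₁) {x : ℝ × ℝ} (hx : x ∉ Q2) :
    Mx a₀ a₁ J J' x = ContinuousLinearMap.id ℝ R3 := by
  have : ((1 + x.1) / 3, a₀ + x.2 * (a₁ - a₀)) ∉ Rc a₀ a₁ := by
    rintro ⟨⟨h1, h2⟩, h3, h4⟩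
    simp only at h1 h2 h3 h4
    apply hx
    have h5 : 0 < a₁ - a₀ := by linarith
    refine ⟨⟨by linarith, by linarith⟩, ?_, ?_⟩
    · by_contra h6
      push Not at h6
      nlinarith
    · by_contra h6
      push Not at h6
      nlinarith
  rw [Mx, W_of_notMem this]
  rfl

theorem Red.Mx_smooth (R : Red s₀ a₀ a₁ s₁ V U J J') : ContDiff ℝ ∞ (Mx a₀ a₁ J J') := by
  have h1 : ContDiff ℝ ∞ (fun x : ℝ × ℝ => ((1 + x.1) / 3, a₀ + x.2 * (a₁ - a₀))) := by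
    fun_prop
  exact contDiff_const.clm_comp (R.W_smooth.comp h1)

theorem Red.Mx_det (R : Red s₀ a₀ a₁ s₁ V U J J') (x : ℝ × ℝ) :
    0 < (Mx a₀ a₁ J J' x).det := by
  have hne : ∀ x, (Mx a₀ a₁ J J' x).det ≠ 0 := by
    intro x h0
    have h1 : LinearMap.det (Mx a₀ a₁ J J' x).toLinearMap = 0 := h0
    have h2 := LinearMap.bot_lt_ker_of_det_eq_zero h1
    obtain ⟨v, hv, hv0⟩ := (Submodule.ne_bot_iff _).1 h2.ne'
    exact hv0 (R.W_inj _ v hv)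
  have hc : Continuous fun x => (Mx a₀ a₁ J J' x).det :=
    ContinuousLinearMap.continuous_det.comp R.Mx_smooth.continuous
  by_contra hcon
  push Not at hcon
  have h1 : (0 : ℝ) ≤ (Mx a₀ a₁ J J' (-1, 0)).det := by
    rw [Mx_off R.lt1 (x := (-1, 0)) (by rintro ⟨⟨h1, -⟩, -⟩; norm_num at h1)]
    simp [ContinuousLinearMap.det]
  obtain ⟨y, hy⟩ := mem_range_of_exists_le_of_exists_ge hc ⟨x, hcon⟩ ⟨_, h1⟩
  exact hne y hy

theorem Red.core_der' (R : Red s₀ a₀ a₁ s₁ V U J J') {q s : ℝ} (hq : q ∈ Icc (0 : ℝ) 1)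
    (hs : s ∈ Icc s₀ s₁) (c : ℝ) :
    fderiv ℝ (J q) (s, (0 : R3)) (c, 0) = fderiv ℝ (J' q) (s, (0 : R3)) (c, 0) := by
  by_cases h : (q, s) ∈ Rc a₀ a₁
  · exact R.core_der hq (R.inner h).2 c
  · rw [R.der_eq hq hs h]

/-- change of the normal framing of a family of germs -/
noncomputable def K (J : ℝ → R4 → R4) (X : ℝ × ℝ × ℝ → (R3 →L[ℝ] R4)) (a : ℝ × ℝ) (p : R4) : R4 :=
  J a.2 p + ((fderiv ℝ (J a.2) (p.1, (0 : R3))).comp (X (a.1, a.2, p.1) - nrm)) p.2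

theorem K_eq {X : ℝ × ℝ × ℝ → (R3 →L[ℝ] R4)} {a : ℝ × ℝ} {p : R4}
    (h : X (a.1, a.2, p.1) = nrm) : K J X a p = J a.2 p := by
  rw [K, h, sub_self, ContinuousLinearMap.comp_zero, zero_apply, add_zero]

theorem K_core {X : ℝ × ℝ × ℝ → (R3 →L[ℝ] R4)} {a : ℝ × ℝ} {s : ℝ} :
    K J X a (s, 0) = J a.2 (s, 0) := by
  rw [K, map_zero, add_zero]

theorem K_smooth (h : Fam2 Q2 (seg s₀ s₁) V U (fun a => J a.2)) {X : ℝ × ℝ × ℝ → (R3 →L[ℝ] R4)}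
    (hX : ContDiff ℝ ∞ X) {a : ℝ × ℝ} (ha : a ∈ Q2) {p : R4} (hp : p ∈ seg s₀ s₁) :
    ∀ᶠ z : (ℝ × ℝ) × R4 in 𝓝 (a, p),
      ContDiffAt ℝ ∞ (fun z : (ℝ × ℝ) × R4 => K J X z.1 z.2) z := by
  have hp1 : p.1 ∈ Icc s₀ s₁ := ⟨hp.1, hp.2.1⟩
  have h1 := h.smooth a ha p hp
  have h2 := der_smooth h ha.2 hp1
  have hg : ContDiff ℝ ∞ (fun z : (ℝ × ℝ) × R4 => (z.1.2, z.2.1)) :=
    (contDiff_snd.comp contDiff_fst).prodMk (contDiff_fst.comp contDiff_snd)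
  have h3 := (hg.continuous.continuousAt (x := (a, p))).eventually h2
  have hg' : ContDiff ℝ ∞ (fun z : (ℝ × ℝ) × R4 => (z.1.1, z.1.2, z.2.1)) :=
    (contDiff_fst.comp contDiff_fst).prodMk hg
  have hX' : ContDiff ℝ ∞ (fun z : (ℝ × ℝ) × R4 => X (z.1.1, z.1.2, z.2.1) - nrm) :=
    (hX.comp hg').sub contDiff_const
  filter_upwards [h1, h3] with z e1 e3
  have e4 : ContDiffAt ℝ ∞ (fun z : (ℝ × ℝ) × R4 => fderiv ℝ (J z.1.2) (z.2.1, (0 : R3))) z :=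
    ContDiffAt.comp (g := fun x : ℝ × ℝ => fderiv ℝ (J x.1) (x.2, (0 : R3)))
      (f := fun z : (ℝ × ℝ) × R4 => (z.1.2, z.2.1)) z e3 hg.contDiffAt
  exact e1.add ((e4.clm_comp hX'.contDiffAt).clm_apply
    (contDiff_snd.comp contDiff_snd).contDiffAt)

theorem K_der (h : Fam2 Q2 (seg s₀ s₁) V U (fun a => J a.2)) {X : ℝ × ℝ × ℝ → (R3 →L[ℝ] R4)}
    (hX : ContDiff ℝ ∞ X) {a : ℝ × ℝ} (ha : a ∈ Q2) {s : ℝ} (hs : s ∈ Icc s₀ s₁) :
    HasFDerivAt (K J X a) (fderiv ℝ (J a.2) (s, (0 : R3)) +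
      ((fderiv ℝ (J a.2) (s, (0 : R3))).comp (X (a.1, a.2, s) - nrm)).comp
        (ContinuousLinearMap.snd ℝ ℝ R3)) ((s, (0 : R3)) : R4) := by
  have h1 := (diffAt h ha.2 (seg_mem hs)).hasFDerivAt
  have h2 := (der_smooth h ha.2 hs).self_of_nhds
  have hg : ContDiff ℝ ∞ (fun p : R4 => (a.2, p.1)) := contDiff_const.prodMk contDiff_fst
  have h3 : ContDiffAt ℝ ∞ (fun p : R4 => fderiv ℝ (J a.2) (p.1, (0 : R3)))
      ((s, (0 : R3)) : R4) :=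
    ContDiffAt.comp (g := fun x : ℝ × ℝ => fderiv ℝ (J x.1) (x.2, (0 : R3)))
      (f := fun p : R4 => (a.2, p.1)) _ h2 hg.contDiffAt
  have hg' : ContDiff ℝ ∞ (fun p : R4 => (a.1, a.2, p.1)) := contDiff_const.prodMk hg
  have hX' : ContDiff ℝ ∞ (fun p : R4 => X (a.1, a.2, p.1) - nrm) :=
    (hX.comp hg').sub contDiff_const
  have h4 : ContDiffAt ℝ ∞ (fun p : R4 =>
      (fderiv ℝ (J a.2) (p.1, (0 : R3))).comp (X (a.1, a.2, p.1) - nrm))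
      ((s, (0 : R3)) : R4) := h3.clm_comp hX'.contDiffAt
  have h5 := (h4.differentiableAt (by simp)).hasFDerivAt
  have h6 : HasFDerivAt (fun p : R4 => p.2) (ContinuousLinearMap.snd ℝ ℝ R3)
      ((s, (0 : R3)) : R4) := hasFDerivAt_snd
  have h7 := h1.add (h5.clm_apply h6)
  refine h7.congr_fderiv ?_
  rw [map_zero, add_zero]

theorem K_der_inj (h : Fam2 Q2 (seg s₀ s₁) V U (fun a => J a.2))
    {X : ℝ × ℝ × ℝ → (R3 →L[ℝ] R4)}
    {a : ℝ × ℝ} (ha : a ∈ Q2) {s : ℝ} (hs : s ∈ Icc s₀ s₁)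
    (hi : ∀ v, (X (a.1, a.2, s) v).2 = 0 → v = 0) :
    Function.Injective (fderiv ℝ (J a.2) (s, (0 : R3)) +
      ((fderiv ℝ (J a.2) (s, (0 : R3))).comp (X (a.1, a.2, s) - nrm)).comp
        (ContinuousLinearMap.snd ℝ ℝ R3)) := by
  rw [injective_iff_map_eq_zero]
  rintro ⟨c, v⟩ hcv
  have e : fderiv ℝ (J a.2) (s, (0 : R3)) ((c, 0) + X (a.1, a.2, s) v) = 0 := by
    rw [← hcv]
    change _ = fderiv ℝ (J a.2) (s, (0 : R3)) (c, v) +
      fderiv ℝ (J a.2) (s, (0 : R3)) (X (a.1, a.2, s) v - nrm v)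
    rw [← map_add]
    congr 1
    rw [nrm_apply]
    refine Prod.ext ?_ ?_
    · simp
    · simp
  have e2 := der_inj h ha.2 hs (e.trans (map_zero _).symm)
  have e3 : (X (a.1, a.2, s) v).2 = 0 := by
    have := congrArg Prod.snd e2
    simpa using this
  have e4 := hi v e3
  rw [e4] at e2 ⊢
  have e5 := congrArg Prod.fst e2
  simp at e5
  rw [e5]
  rfl

/-- the frozen set of the families below -/
def Vf (a₀ a₁ : ℝ) (V : Set R4) : Set R4 := V ∩ {p | p.1 < a₀ ∨ a₁ < p.1}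

theorem isOpen_Vf (hV : IsOpen V) : IsOpen (Vf a₀ a₁ V) :=
  hV.inter ((isOpen_lt continuous_fst continuous_const).union
    (isOpen_lt continuous_const continuous_fst))

theorem Vf_Rc {p : R4} (hp : p ∈ Vf a₀ a₁ V) (q : ℝ) : (q, p.1) ∉ Rc a₀ a₁ := by
  rintro ⟨-, h3, h4⟩
  simp only at h3 h4
  rcases hp.2 with h | h
  · exact absurd h (not_lt.2 h3)
  · exact absurd h (not_lt.2 h4)

theorem Red.inU (R : Red s₀ a₀ a₁ s₁ V U J J') {q : ℝ} (hq : q ∈ Icc (0 : ℝ) 1) {p : R4}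
    (hp : p ∈ seg s₀ s₁) (hpV : p ∉ Vf a₀ a₁ V) : J q p ∈ U := by
  by_cases h : p ∈ V
  · have h1 : J q p = J 0 p := R.fam.froz (0, q) ⟨by simp, hq⟩ (0, 0) ⟨by simp, by simp⟩ p h
    have h2 : ¬ (p.1 < a₀ ∨ a₁ < p.1) := fun h2 => hpV ⟨h, h2⟩
    push Not at h2
    have e : p = ((p.1, 0) : R4) := Prod.ext rfl hp.2.2
    have := R.lt0
    have := R.lt2
    rw [h1, e]
    exact R.mem p.1 ⟨by linarith [h2.1], by linarith [h2.2]⟩
  · exact R.fam.inU (0, q) ⟨by simp, hq⟩ p hp h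

theorem Red.inU' (R : Red s₀ a₀ a₁ s₁ V U J J') {q : ℝ} (hq : q ∈ Icc (0 : ℝ) 1) {p : R4}
    (hp : p ∈ seg s₀ s₁) (hpV : p ∉ Vf a₀ a₁ V) : J' q p ∈ U := by
  obtain ⟨s, hs, rfl⟩ := seg_eq hp
  rw [← R.core q hq s hs]
  exact R.inU hq hp hpV

theorem Red.fam2_K (R : Red s₀ a₀ a₁ s₁ V U J J') {X : ℝ × ℝ × ℝ → (R3 →L[ℝ] R4)}
    (hX : ContDiff ℝ ∞ X) (hi : ∀ z v, (X z v).2 = 0 → v = 0)
    (hoff : ∀ t q s, (q, s) ∉ Rc a₀ a₁ → X (t, q, s) = nrm) :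
    Fam2 Q2 (seg s₀ s₁) (Vf a₀ a₁ V) U (K J X) where
  smooth a ha p hp := K_smooth R.fam hX ha hp
  emb a ha := by
    rw [embOn_iff]
    refine ⟨fun p hp => ⟨slice (K_smooth R.fam hX ha hp), ?_⟩, ?_⟩
    · obtain ⟨s, hs, rfl⟩ := seg_eq hp
      rw [(K_der R.fam hX ha hs).fderiv]
      exact K_der_inj R.fam ha hs (hi _)
    · have h1 : InjOn (J a.2) (seg s₀ s₁) := (R.fam.emb (0, a.2) ⟨by simp, ha.2⟩).2
      refine h1.congr fun p hp => ?_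
      obtain ⟨s, hs, rfl⟩ := seg_eq hp
      exact K_core.symm
  froz a ha b hb p hp := by
    rw [K_eq (hoff _ _ _ (Vf_Rc hp _)), K_eq (hoff _ _ _ (Vf_Rc hp _))]
    exact R.fam.froz a ha b hb p hp.1
  inU a ha p hp hpV := by
    obtain ⟨s, hs, rfl⟩ := seg_eq hp
    rw [K_core]
    exact R.inU ha.2 hp hpV

/-- the comparison of framings as a function of three variables -/
noncomputable def XW (a₀ a₁ : ℝ) (J J' : ℝ → R4 → R4) (z : ℝ × ℝ × ℝ) : R3 →L[ℝ] R4 :=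
  W a₀ a₁ J J' z.2

/-- the first homotopy -/
noncomputable def L1 (a₀ a₁ : ℝ) (J J' : ℝ → R4 → R4) (a : ℝ × ℝ) (p : R4) : R4 :=
  (1 - a.1) • J' a.2 p + a.1 • K J (XW a₀ a₁ J J') a p

theorem Red.XW_smooth (R : Red s₀ a₀ a₁ s₁ V U J J') : ContDiff ℝ ∞ (XW a₀ a₁ J J') :=
  R.W_smooth.comp contDiff_snd

theorem Red.L1_der (R : Red s₀ a₀ a₁ s₁ V U J J') {a : ℝ × ℝ} (ha : a ∈ Q2) {s : ℝ}
    (hs : s ∈ Icc s₀ s₁) :
    HasFDerivAt (L1 a₀ a₁ J J' a) (fderiv ℝ (J' a.2) (s, (0 : R3))) ((s, (0 : R3)) : R4) := by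
  have h1 := (diffAt R.fam' ha.2 (seg_mem hs)).hasFDerivAt
  have h2 := K_der R.fam R.XW_smooth ha hs
  have h3 : fderiv ℝ (J a.2) (s, (0 : R3)) +
      ((fderiv ℝ (J a.2) (s, (0 : R3))).comp (XW a₀ a₁ J J' (a.1, a.2, s) - nrm)).comp
        (ContinuousLinearMap.snd ℝ ℝ R3) = fderiv ℝ (J' a.2) (s, (0 : R3)) := by
    refine ContinuousLinearMap.ext fun x => ?_
    obtain ⟨c, v⟩ := x
    change fderiv ℝ (J a.2) (s, (0 : R3)) (c, v) +
      fderiv ℝ (J a.2) (s, (0 : R3)) (W a₀ a₁ J J' (a.2, s) v - nrm v) = _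
    have e1 : ((c, v) : R4) = (c, 0) + (0, v) := by
      refine Prod.ext ?_ ?_ <;> simp
    rw [map_sub, R.W_key ha.2 hs, nrm_apply, e1, map_add, map_add, R.core_der' ha.2 hs]
    abel
  rw [h3] at h2
  refine ((h1.const_smul (1 - a.1)).add (h2.const_smul a.1)).congr_fderiv ?_
  rw [← add_smul]
  simp

theorem L1_core {a : ℝ × ℝ} {s : ℝ} (h : J a.2 (s, 0) = J' a.2 (s, 0)) :
    L1 a₀ a₁ J J' a (s, 0) = J' a.2 (s, 0) := by
  rw [L1, K_core, h, ← add_smul]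
  simp

theorem L1_eq {a : ℝ × ℝ} {p : R4} (h : J a.2 p = J' a.2 p) (h' : (a.2, p.1) ∉ Rc a₀ a₁) :
    L1 a₀ a₁ J J' a p = J' a.2 p := by
  rw [L1, K_eq (show XW a₀ a₁ J J' (a.1, a.2, p.1) = nrm from W_of_notMem h'), h, ← add_smul]
  simp

theorem Red.fam2_L1 (R : Red s₀ a₀ a₁ s₁ V U J J') :
    Fam2 Q2 (seg s₀ s₁) (Vf a₀ a₁ V) U (L1 a₀ a₁ J J') := by
  have sm : ∀ a ∈ Q2, ∀ p ∈ seg s₀ s₁, ∀ᶠ z : (ℝ × ℝ) × R4 in 𝓝 (a, p),
      ContDiffAt ℝ ∞ (fun z : (ℝ × ℝ) × R4 => L1 a₀ a₁ J J' z.1 z.2) z := by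
    intro a ha p hp
    filter_upwards [R.fam'.smooth a ha p hp, K_smooth R.fam R.XW_smooth ha hp] with z e1 e2
    have e3 : ContDiffAt ℝ ∞ (fun z : (ℝ × ℝ) × R4 => z.1.1) z :=
      (contDiff_fst.comp contDiff_fst).contDiffAt
    exact ((contDiffAt_const.sub e3).smul e1).add (e3.smul e2)
  refine ⟨sm, fun a ha => ?_, fun a ha b hb p hp => ?_, fun a ha p hp hpV => ?_⟩
  · rw [embOn_iff]
    refine ⟨fun p hp => ⟨slice (sm a ha p hp), ?_⟩, ?_⟩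
    · obtain ⟨s, hs, rfl⟩ := seg_eq hp
      rw [(R.L1_der ha hs).fderiv]
      exact der_inj R.fam' ha.2 hs
    · have h1 : InjOn (J' a.2) (seg s₀ s₁) := (R.fam'.emb (0, a.2) ⟨by simp, ha.2⟩).2
      refine h1.congr fun p hp => ?_
      obtain ⟨s, hs, rfl⟩ := seg_eq hp
      exact (L1_core (R.core _ ha.2 s hs)).symm
  · rw [L1_eq (R.eqV' ha.2 hp.1) (Vf_Rc hp _), L1_eq (R.eqV' hb.2 hp.1) (Vf_Rc hp _)]
    exact R.fam'.froz a ha b hb p hp.1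
  · obtain ⟨s, hs, rfl⟩ := seg_eq hp
    rw [L1_core (R.core _ ha.2 s hs)]
    exact R.inU' ha.2 hp hpV

/-- the framings of the second homotopy -/
noncomputable def X2 (a₀ a₁ : ℝ) (J J' : ℝ → R4 → R4) (H : ℝ × ℝ × ℝ → (R3 →L[ℝ] R3))
    (z : ℝ × ℝ × ℝ) : R3 →L[ℝ] R4 :=
  (ContinuousLinearMap.inl ℝ ℝ R3).comp
      ((1 - z.1) • ((ContinuousLinearMap.fst ℝ ℝ R3).comp (W a₀ a₁ J J' z.2))) +
    nrm.comp (H (z.1, 3 * z.2.1 - 1, (z.2.2 - a₀) / (a₁ - a₀)))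

theorem X2_apply {H : ℝ × ℝ × ℝ → (R3 →L[ℝ] R3)} {t q s : ℝ} {v : R3} :
    X2 a₀ a₁ J J' H (t, q, s) v =
      ((1 - t) * (W a₀ a₁ J J' (q, s) v).1, H (t, 3 * q - 1, (s - a₀) / (a₁ - a₀)) v) := by
  refine Prod.ext ?_ ?_ <;> simp [X2]

theorem off_Q2 (h01 : a₀ < a₁) {q s : ℝ} (h : (q, s) ∉ Rc a₀ a₁) :
    (3 * q - 1, (s - a₀) / (a₁ - a₀)) ∉ Q2 := by
  rintro ⟨⟨h1, h2⟩, h3, h4⟩
  simp only at h1 h2 h3 h4
  have h5 : 0 < a₁ - a₀ := by linarith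
  rw [le_div_iff₀ h5] at h3
  rw [div_le_iff₀ h5] at h4
  exact h ⟨⟨by linarith, by linarith⟩, by linarith, by linarith⟩

theorem inj_of_det {A : R3 →L[ℝ] R3} (h : 0 < A.det) {v : R3} (hv : A v = 0) : v = 0 := by
  have h1 : LinearMap.det A.toLinearMap ≠ 0 := h.ne'
  exact (LinearMap.equivOfDetNeZero A.toLinearMap h1).injective (hv.trans (map_zero _).symm)

theorem isCompact_seg (s₀ s₁ : ℝ) : IsCompact (seg s₀ s₁) := by
  have : seg s₀ s₁ = Icc s₀ s₁ ×ˢ {(0 : R3)} := by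
    ext p
    constructor
    · rintro ⟨h1, h2, h3⟩
      exact ⟨⟨h1, h2⟩, h3⟩
    · rintro ⟨⟨h1, h2⟩, h3⟩
      exact ⟨h1, h2, h3⟩
  rw [this]
  exact isCompact_Icc.prod isCompact_singleton

theorem Red.main (ch : StCH4) (pi2 : StPI2) (R : Red s₀ a₀ a₁ s₁ V U J J') (hU : IsOpen U)
    {Θ Θ' : R4 → R4} (hΘ : LPush U (seg s₀ s₁) J Θ) (hΘ' : LPush U (seg s₀ s₁) J' Θ') :
    LIso U (seg s₀ s₁) (J 0) (J 1) Θ Θ' := by
  obtain ⟨H, hH, hdet, hH0, hH1, hoff⟩ := pi2 (Mx a₀ a₁ J J') R.Mx_smooth R.Mx_det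
    fun x hx => Mx_off R.lt1 hx
  have hVf : IsOpen (Vf a₀ a₁ V) := isOpen_Vf R.openV
  have hL := isCompact_seg s₀ s₁
  have h5 : 0 < a₁ - a₀ := by linarith [R.lt1]
  have xs : ContDiff ℝ ∞ (X2 a₀ a₁ J J' H) := by
    have g1 : ContDiff ℝ ∞ (fun z : ℝ × ℝ × ℝ =>
        (z.1, 3 * z.2.1 - 1, (z.2.2 - a₀) / (a₁ - a₀))) := by fun_prop
    have g2 : ContDiff ℝ ∞ (fun z : ℝ × ℝ × ℝ => 1 - z.1) := by fun_prop
    exact (contDiff_const.clm_comp (g2.smul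
      (contDiff_const.clm_comp (R.W_smooth.comp contDiff_snd)))).add
      (contDiff_const.clm_comp (hH.comp g1))
  have xi : ∀ z v, (X2 a₀ a₁ J J' H z v).2 = 0 → v = 0 := by
    rintro ⟨t, q, s⟩ v hv
    rw [X2_apply] at hv
    exact inj_of_det (hdet _) hv
  have xo : ∀ t q s, (q, s) ∉ Rc a₀ a₁ → X2 a₀ a₁ J J' H (t, q, s) = nrm := by
    intro t q s h
    refine ContinuousLinearMap.ext fun v => ?_
    rw [X2_apply, W_of_notMem h, hoff _ _ (off_Q2 R.lt1 h), nrm_apply]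
    simp
  have x0 : ∀ q s, X2 a₀ a₁ J J' H (0, q, s) = W a₀ a₁ J J' (q, s) := by
    intro q s
    refine ContinuousLinearMap.ext fun v => ?_
    rw [X2_apply, hH0, Mx]
    have e : ((1 + (3 * q - 1)) / 3, a₀ + (s - a₀) / (a₁ - a₀) * (a₁ - a₀)) = (q, s) := by
      refine Prod.ext ?_ ?_
      · simp only
        ring
      · simp only
        rw [div_mul_cancel₀ _ h5.ne']
        ring
    simp only [e]
    refine Prod.ext ?_ ?_ <;> simp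
  have x1 : ∀ q s, X2 a₀ a₁ J J' H (1, q, s) = nrm := by
    intro q s
    refine ContinuousLinearMap.ext fun v => ?_
    rw [X2_apply, hH1, nrm_apply]
    simp
  have n0 : ∀ s, ((0 : ℝ), s) ∉ Rc a₀ a₁ := by
    rintro s ⟨⟨h1, -⟩, -⟩
    norm_num at h1
  have n1 : ∀ s, ((1 : ℝ), s) ∉ Rc a₀ a₁ := by
    rintro s ⟨⟨-, h1⟩, -⟩
    norm_num at h1
  have m0 : (0 : ℝ) ∈ Icc (0 : ℝ) 1 := by simp
  have m1 : (1 : ℝ) ∈ Icc (0 : ℝ) 1 := by simp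
  have fK : Fam2 Q2 (seg s₀ s₁) (Vf a₀ a₁ V) U (K J (X2 a₀ a₁ J J' H)) := R.fam2_K xs xi xo
  have k0 : ∀ t p, K J (X2 a₀ a₁ J J' H) (t, 0) p = J 0 p := fun t p => K_eq (xo _ _ _ (n0 _))
  have k1 : ∀ t p, K J (X2 a₀ a₁ J J' H) (t, 1) p = J 1 p := fun t p => K_eq (xo _ _ _ (n1 _))
  have fE : Fam2 Q2 (seg s₀ s₁) (Vf a₀ a₁ V) U
      (fun a => (fun q => K J (X2 a₀ a₁ J J' H) (0, q)) a.2) :=
    fK.comp (θ := fun a : ℝ × ℝ => ((0 : ℝ), a.2)) (contDiff_const.prodMk contDiff_snd)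
      fun a ha => ⟨by simp, ha.2⟩
  obtain ⟨ΘE, hE⟩ := exists_lpush1 ch hL hVf hU (J := fun q => K J (X2 a₀ a₁ J J' H) (0, q)) fE
  have l2 := push_htpy ch hL hVf hU (J := fun t q => K J (X2 a₀ a₁ J J' H) (t, q)) fK
    ⟨univ, isOpen_univ, subset_univ _, fun u _ p _ => by rw [k0, k0]⟩
    ⟨univ, isOpen_univ, subset_univ _, fun u _ p _ => by rw [k1, k1]⟩ hE
    (hΘ.congr ⟨univ, isOpen_univ, subset_univ _, fun q _ p _ =>
      (K_eq (J := J) (a := (1, q)) (x1 q p.1)).symm⟩)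
  have l2' : LIso U (seg s₀ s₁) (J 0) (J 1) ΘE Θ :=
    l2.congr ⟨univ, isOpen_univ, subset_univ _, fun p _ => k0 0 p⟩
      ⟨univ, isOpen_univ, subset_univ _, fun p _ => k1 0 p⟩
  obtain ⟨N0, hN0, hLN0, hN0e⟩ := R.e0 0 m0 (by norm_num)
  obtain ⟨N1, hN1, hLN1, hN1e⟩ := R.e1 1 m1 (by norm_num)
  have j0 : ∀ t, ∀ p ∈ N0, L1 a₀ a₁ J J' (t, 0) p = J' 0 p := fun t p hp =>
    L1_eq (hN0e hp) (n0 _)
  have j1 : ∀ t, ∀ p ∈ N1, L1 a₀ a₁ J J' (t, 1) p = J' 1 p := fun t p hp =>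
    L1_eq (hN1e hp) (n1 _)
  have l1 := push_htpy ch hL hVf hU (J := fun t q => L1 a₀ a₁ J J' (t, q)) R.fam2_L1
    ⟨N0, hN0, hLN0, fun u _ p hp => by rw [j0 u p hp, j0 0 p hp]⟩
    ⟨N1, hN1, hLN1, fun u _ p hp => by rw [j1 u p hp, j1 0 p hp]⟩
    (hΘ'.congr ⟨univ, isOpen_univ, subset_univ _, fun q _ p _ => by
      simp [L1]⟩)
    (hE.congr ⟨univ, isOpen_univ, subset_univ _, fun q _ p _ => by
      simp only [L1, K, x0, XW, sub_self, zero_smul, one_smul, zero_add]⟩)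
  have l1' : LIso U (seg s₀ s₁) (J 0) (J 1) Θ' ΘE :=
    l1.congr ⟨N0, hN0, hLN0, fun p hp => (j0 0 p hp).trans (hN0e hp).symm⟩
      ⟨N1, hN1, hLN1, fun p hp => (j1 0 p hp).trans (hN1e hp).symm⟩
  exact (l1'.trans l2').symm

end two

end FRAME

open FRAME

theorem m_FRAME (ch : StCH4) (pi2 : StPI2) : StFRAME := by
  intro D V J J' Θ Θ' hV hs0 hs1 hJ hJ' hcore heqV hmem hn0 hn1 hΘ hΘ'
  change Fam2 Q2 (seg D.s₀ D.s₁) V D.U (fun a => J a.2) at hJ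
  change Fam2 Q2 (seg D.s₀ D.s₁) V D.U (fun a => J' a.2) at hJ'
  change NearEq (J 0) (J' 0) (seg D.s₀ D.s₁) at hn0
  change NearEq (J 1) (J' 1) (seg D.s₀ D.s₁) at hn1
  change LPush D.U (seg D.s₀ D.s₁) J Θ at hΘ
  change LPush D.U (seg D.s₀ D.s₁) J' Θ' at hΘ'
  change LIso D.U (seg D.s₀ D.s₁) (J 0) (J 1) Θ Θ'
  have hL := isCompact_seg D.s₀ D.s₁
  have hlt : D.s₀ < D.s₁ := by linarith [D.h₀, D.h₁, D.h₂]
  have hgc : Continuous (fun s : ℝ => ((s, (0 : R3)) : R4)) := by fun_prop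
  obtain ⟨ε₀, he0, hb0⟩ := Metric.isOpen_iff.1 (hV.preimage hgc) D.s₀ hs0
  obtain ⟨ε₁, he1, hb1⟩ := Metric.isOpen_iff.1 (hV.preimage hgc) D.s₁ hs1
  -- the reparametrization
  obtain ⟨ϑ, hϑdef⟩ : ∃ ϑ : ℝ → ℝ, ϑ = fun q => step (3 * q - 1) := ⟨_, rfl⟩
  have hϑ : ContDiff ℝ ∞ ϑ := by
    rw [hϑdef]
    exact contDiff_step.comp (by fun_prop)
  have hm : ∀ q ∈ Icc (0 : ℝ) 1, ϑ q ∈ Icc (0 : ℝ) 1 := fun q _ => by
    rw [hϑdef]; exact step_mem _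
  have hϑ0 : ∀ q, q ≤ 1 / 3 → ϑ q = 0 := fun q hq => by
    rw [hϑdef]; exact step_of_nonpos (by linarith)
  have hϑ1 : ∀ q, 2 / 3 ≤ q → ϑ q = 1 := fun q hq => by
    rw [hϑdef]; exact step_of_one_le (by linarith)
  have e0 : ϑ 0 = 0 := hϑ0 0 (by norm_num)
  have e1 : ϑ 1 = 1 := hϑ1 1 (by norm_num)
  have hθ : ContDiff ℝ ∞ (fun a : ℝ × ℝ => ((0 : ℝ), ϑ a.2)) :=
    contDiff_const.prodMk (hϑ.comp contDiff_snd)
  have f1 : Fam2 Q2 (seg D.s₀ D.s₁) V D.U (fun a => (fun q => J (ϑ q)) a.2) :=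
    hJ.comp (θ := fun a : ℝ × ℝ => ((0 : ℝ), ϑ a.2)) hθ fun a ha => ⟨by simp, hm _ ha.2⟩
  have f2 : Fam2 Q2 (seg D.s₀ D.s₁) V D.U (fun a => (fun q => J' (ϑ q)) a.2) :=
    hJ'.comp (θ := fun a : ℝ × ℝ => ((0 : ℝ), ϑ a.2)) hθ fun a ha => ⟨by simp, hm _ ha.2⟩
  obtain ⟨Θ₁, hΘ₁⟩ := exists_lpush1 ch hL hV D.openU (J := fun q => J (ϑ q)) f1
  obtain ⟨Θ₂, hΘ₂⟩ := exists_lpush1 ch hL hV D.openU (J := fun q => J' (ϑ q)) f2
  have r1 := push_reparam ch hL hV D.openU hJ hϑ hm e0 e1 hΘ hΘ₁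
  have r2 := push_reparam ch hL hV D.openU hJ' hϑ hm e0 e1 hΘ' hΘ₂
  have hμ : 0 < min (min ε₀ ε₁) (D.s₁ - D.s₀) := lt_min (lt_min he0 he1) (by linarith)
  obtain ⟨μ, hμdef⟩ : ∃ μ, μ = min (min ε₀ ε₁) (D.s₁ - D.s₀) := ⟨_, rfl⟩
  rw [← hμdef] at hμ
  have m1 : μ ≤ ε₀ := by rw [hμdef]; exact (min_le_left _ _).trans (min_le_left _ _)
  have m2 : μ ≤ ε₁ := by rw [hμdef]; exact (min_le_left _ _).trans (min_le_right _ _)
  have m3 : μ ≤ D.s₁ - D.s₀ := by rw [hμdef]; exact min_le_right _ _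
  have R : Red D.s₀ (D.s₀ + μ / 3) (D.s₁ - μ / 3) D.s₁ V D.U (fun q => J (ϑ q))
      (fun q => J' (ϑ q)) :=
    { openV := hV
      lt0 := by linarith
      lt1 := by linarith
      lt2 := by linarith
      V0 := fun s hs => by
        refine hb0 ?_
        rw [Metric.mem_ball, Real.dist_eq, abs_lt]
        constructor <;> linarith [hs.1, hs.2]
      V1 := fun s hs => by
        refine hb1 ?_
        rw [Metric.mem_ball, Real.dist_eq, abs_lt]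
        constructor <;> linarith [hs.1, hs.2]
      fam := f1
      fam' := f2
      core := fun q hq s hs => hcore _ (hm q hq) s hs
      eqV := fun p hp => by simp only [e0]; exact heqV p hp
      mem := fun s hs => by simp only [e0]; exact hmem s hs
      e0 := fun q _ hq => by simp only [hϑ0 q hq]; exact hn0
      e1 := fun q _ hq => by simp only [hϑ1 q hq]; exact hn1 }
  have r3 := R.main ch pi2 D.openU hΘ₁ hΘ₂
  simp only [e0, e1] at r3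
  exact r1.trans (r3.trans ((r2.congr hn0.symm hn1.symm).symm))

end Pool.Agent.Helper27.H


end

/-! ## Helper34.BI.H.M_CROSS -/

section

/-!
# Project BI, stage 3, section 5: the crossing theorem, assembly
-/

set_option autoImplicit false

open Module Set Filter Topology
open scoped ContDiff Manifold
open Pool.Agent.Helper65.Barb Pool.Agent.Helper18.BI Pool.Agent.Helper27.BI
open Pool.Agent.Helper27.H (ArcD LIso LPush Fam2 Q2 SuppU thk seg StCH4 StFRAME StTHK StPhi StCls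
  StCROSS exists_lpush square4 isCompact_Q2 convex_Q2)
open Pool.Agent.Helper70.BI (I4)

namespace Pool.Agent.Helper34.BI.H

namespace Cross

lemma norm_m {r : ℝ} (hr : 0 < r) : ‖((0, r) : ℝ × ℝ)‖ = r := by
  rw [Prod.norm_def]
  simp [abs_of_pos hr, hr.le]

lemma circ_zero (v₀ m : ℝ × ℝ) : circ v₀ m 0 = v₀ + m := by
  unfold circ mulc
  simp

section
variable (hCh : StCH4) (hFr : StFRAME) (hTh : StTHK) (hPhi : StPhi)
  (hSQ : StSQ5) (hM5 : StM5) (hXG : StXG5) (hPHT : StPHT) (hL5 : StL5)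
include hCh hTh hPhi hSQ hM5 hXG hPHT hL5 hFr

theorem cross_aux (D : ArcD) (c : ℝ × ℝ × ℝ → R4) (u₀ q₀ a b : ℝ) (hc : D.Htpy c)
    (hX : D.Xing c u₀ q₀ a b) (hImm : ∀ u ∈ Icc (0 : ℝ) 1, ∀ q ∈ Icc (0 : ℝ) 1, D.Imm c u q)
    (hInj : ∀ u ∈ Icc (0 : ℝ) 1, ∀ q ∈ Icc (0 : ℝ) 1, (u, q) ≠ (u₀, q₀) → D.Inj c u q)
    (hma : D.m₀ < a) (hbm : b < D.m₁) :
    ∃ T, D.XG T ∧ ∀ χ₀ χ₁ τ : R4 → R4, D.Cls (fun q s => c (0, q, s)) χ₀ →
      D.Cls (fun q s => c (1, q, s)) χ₁ → Thin I4 (fun p => D.e (T p)) τ →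
      CIsot I4 χ₀ (fun x => τ (χ₁ x)) ∨ CIsot I4 χ₁ (fun x => τ (χ₀ x)) := by
  have hmu := hX.memu
  have hmq := hX.memq
  obtain ⟨r₀, hr₀, h5⟩ := hL5 D c u₀ q₀ a b hc hX
    (hImm u₀ (Ioo_subset_Icc_self hmu) q₀ (Ioo_subset_Icc_self hmq)) hma hbm
  -- the radius
  obtain ⟨r, hr, h1, h2, h3, h4, h6⟩ : ∃ r > 0, r < r₀ ∧ 0 < u₀ - r ∧ u₀ + r < 1 ∧
      0 < q₀ - r ∧ q₀ + r < 1 := by
    refine ⟨min (r₀ / 2) (min (min (u₀ / 2) ((1 - u₀) / 2)) (min (q₀ / 2) ((1 - q₀) / 2))), ?_, ?_⟩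
    · have := hmu.1
      have := hmu.2
      have := hmq.1
      have := hmq.2
      refine lt_min (by linarith) (lt_min (lt_min ?_ ?_) (lt_min ?_ ?_)) <;> linarith
    · have := hmu.1
      have := hmu.2
      have := hmq.1
      have := hmq.2
      have k1 := min_le_left (r₀ / 2) (min (min (u₀ / 2) ((1 - u₀) / 2)) (min (q₀ / 2) ((1 - q₀) / 2)))
      have k2 := min_le_right (r₀ / 2) (min (min (u₀ / 2) ((1 - u₀) / 2)) (min (q₀ / 2) ((1 - q₀) / 2)))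
      have k3 := k2.trans (min_le_left _ _)
      have k4 := k2.trans (min_le_right _ _)
      have k5 := k3.trans (min_le_left _ _)
      have k6 := k3.trans (min_le_right _ _)
      have k7 := k4.trans (min_le_left _ _)
      have k8 := k4.trans (min_le_right _ _)
      refine ⟨?_, ?_, ?_, ?_, ?_⟩ <;> linarith
  have hm0 : ((0, r) : ℝ × ℝ) ≠ 0 := by
    intro h
    have : r = 0 := congrArg Prod.snd h
    exact hr.ne' this
  obtain ⟨ε, ν, κ, T, x, hxs, hx, hloop, hx0, hM⟩ := h5 (0, r) hm0 (by rwa [norm_m hr])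
  -- the family
  have hfam : Fam2 Q2 D.L D.V D.U (fun a => thk D.J D.c (x a.1 a.2)) :=
    (hTh Q2 D.s₀ D.m₀ D.m₁ D.s₁ D.U D.J D.c (fun a s => x a.1 a.2 s) D.h₀ D.h₁ D.h₂ D.openU D.emb
      D.smooth D.core hxs
      (fun a ha s hs => (hx a.1 ha.1 a.2 ha.2).1 s hs)
      (fun a ha s hs => (hx a.1 ha.1 a.2 ha.2).2.1 s hs)
      (fun a ha => (hx a.1 ha.1 a.2 ha.2).2.2.1)
      (fun a ha s hs => (hx a.1 ha.1 a.2 ha.2).2.2.2 s hs)).1
  have m00 : ((0 : ℝ), (0 : ℝ)) ∈ Q2 := by simp [Q2]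
  have m01 : ((0 : ℝ), (1 : ℝ)) ∈ Q2 := by simp [Q2]
  have m10 : ((1 : ℝ), (0 : ℝ)) ∈ Q2 := by simp [Q2]
  have m11 : ((1 : ℝ), (1 : ℝ)) ∈ Q2 := by simp [Q2]
  obtain ⟨R, hR⟩ := exists_lpush hCh D.isCompact_L D.isOpen_V D.openU isCompact_Q2 convex_Q2 hfam
    m00 m10
  obtain ⟨C, hC⟩ := exists_lpush hCh D.isCompact_L D.isOpen_V D.openU isCompact_Q2 convex_Q2 hfam
    m00 m01
  obtain ⟨C₁, hC₁⟩ := exists_lpush hCh D.isCompact_L D.isOpen_V D.openU isCompact_Q2 convex_Q2 hfam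
    m10 m11
  replace hR : LPush D.U D.L (fun l => thk D.J D.c (x l 0)) R :=
    hR.congr ⟨univ, isOpen_univ, subset_univ _, fun q _ p _ => by simp⟩
  replace hC : LPush D.U D.L (fun q => thk D.J D.c (x 0 q)) C :=
    hC.congr ⟨univ, isOpen_univ, subset_univ _, fun q _ p _ => by simp⟩
  replace hC₁ : LPush D.U D.L (fun q => thk D.J D.c (x 1 q)) C₁ :=
    hC₁.congr ⟨univ, isOpen_univ, subset_univ _, fun q _ p _ => by simp⟩
  have hR1 : LPush D.U D.L (fun l => thk D.J D.c (x l 1)) R := by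
    simp only [hloop]
    exact hR
  have sq1 := square4 hCh D.isCompact_L D.isOpen_V D.openU
    (J := fun l q => thk D.J D.c (x l q)) hfam hC hR1 hR hC₁
  simp only [hloop] at sq1
  -- the local model
  have hB := hM5 D a b ε ν κ T (x 1) hM C₁ hC₁
  obtain ⟨R', hR', hRR, hR'R⟩ := hR.lIso.exists_inv
  -- `C ~ R' ∘ imp T ball4 barMap ∘ R`
  have hCC : LIso D.U D.L (thk D.J D.c (x 0 0)) (thk D.J D.c (x 0 0)) C
      (fun y => R' (imp T ball4 barMap (R y))) := by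
    have e1 : LIso D.U D.L (thk D.J D.c (x 0 0)) (thk D.J D.c (x 0 0))
        (fun y => R' (R (C y))) (fun y => R' (C₁ (R y))) := hR'.comp sq1
    have e2 : LIso D.U D.L (thk D.J D.c (x 0 0)) (thk D.J D.c (x 0 0))
        (fun y => R' (C₁ (R y))) (fun y => R' (imp T ball4 barMap (R y))) :=
      hR'.comp (hB.symm.comp hR.lIso)
    exact (e1.trans e2).congr_fun (fun y => hR'R _) (fun y => rfl)
  -- the pushes along the two edges
  obtain ⟨E₀, χ₀', hE₀, hE₀', hE₀χ⟩ := Pool.Agent.Helper27.H.can_exists hCh hTh hPhi D hc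
    (u := 0) (by simp) (fun q hq => ⟨hImm 0 (by simp) q hq, hInj 0 (by simp) q hq (fun h => by
      have := congrArg Prod.fst h
      simp only at this
      linarith [hmu.1])⟩)
  obtain ⟨E₁, χ₁', hE₁, hE₁', hE₁χ⟩ := Pool.Agent.Helper27.H.can_exists hCh hTh hPhi D hc
    (u := 1) (by simp) (fun q hq => ⟨hImm 1 (by simp) q hq, hInj 1 (by simp) q hq (fun h => by
      have := congrArg Prod.fst h
      simp only at this
      linarith [hmu.2])⟩)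
  have hcls0 := Pool.Agent.Helper27.H.can_cls hTh D hc (u := 0) (by simp) (fun q hq =>
    ⟨hImm 0 (by simp) q hq, hInj 0 (by simp) q hq (fun h => by
      have := congrArg Prod.fst h
      simp only at this
      linarith [hmu.1])⟩) hE₀ hE₀χ
  have hcls1 := Pool.Agent.Helper27.H.can_cls hTh D hc (u := 1) (by simp) (fun q hq =>
    ⟨hImm 1 (by simp) q hq, hInj 1 (by simp) q hq (fun h => by
      have := congrArg Prod.fst h
      simp only at this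
      linarith [hmu.2])⟩) hE₁ hE₁χ
  have hCk : LPush D.U D.L (fun q => kk D c (circ (u₀, q₀) (0, r) q)) C := by
    refine hC.congr ⟨univ, isOpen_univ, subset_univ _, fun q _ p _ => ?_⟩
    unfold kk
    have : x 0 q = fun s => c ((circ (u₀, q₀) (0, r) q).1, (circ (u₀, q₀) (0, r) q).2, s) :=
      funext fun s => hx0 q s
    rw [this]
  obtain ⟨B, B', hBl, hBB, hB'B, hE⟩ := hSQ D c u₀ q₀ r hc hImm hInj hr h2 h3 h4 h6 E₀ E₁ C
    hE₀ hE₁ hCk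
  have hk0 : kk D c (circ (u₀, q₀) (0, r) 0) = thk D.J D.c (x 0 0) := by
    unfold kk
    have : x 0 0 = fun s => c ((circ (u₀, q₀) (0, r) 0).1, (circ (u₀, q₀) (0, r) 0).2, s) :=
      funext fun s => hx0 0 s
    rw [this]
  rw [hk0] at hBl
  have hBl' : LIso D.U D.L (thk D.J D.c (x 0 0)) D.J B' B' := hBl.inv hBB hBB
  -- the conjugating map
  let Ψ : R4 → R4 := fun y => R (B y)
  let Ψ' : R4 → R4 := fun y => B' (R' y)
  have hΨ : LIso D.U D.L D.J (thk D.J D.c (x 1 0)) Ψ Ψ := hR.lIso.comp hBl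
  have hΨΨ' : ∀ y, Ψ (Ψ' y) = y := fun y => by
    change R (B (B' (R' y))) = y
    rw [hBB, hRR]
  have hΨ'Ψ : ∀ y, Ψ' (Ψ y) = y := fun y => by
    change B' (R' (R (B y))) = y
    rw [hR'R, hB'B]
  obtain ⟨hT1, hT2', hT3', hT4'⟩ := hXG D a b ε ν κ T (x 1) hM Ψ Ψ' hΨ hΨΨ' hΨ'Ψ
  obtain ⟨p1, p2, p3⟩ := hPHT D (fun p => Ψ' (T p)) hT1 hT2' hT3'
  -- the relation between the two edges
  have himp : ∀ y, imp (fun p => Ψ' (T p)) ball4 barMap y = Ψ' (imp T ball4 barMap (Ψ y)) :=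
    (hImp R4 R4 I4 R4 T ball4 barMap hM.emb.2).2.2.2.2.2.2.1 Ψ' Ψ hΨ'Ψ hΨΨ'
  have hE2 : LIso D.U D.L D.J D.J E₁
      (fun y => imp (fun p => Ψ' (T p)) ball4 barMap (E₀ y)) := by
    have e1 : LIso D.U D.L D.J D.J (fun y => B' (C (B (E₀ y))))
        (fun y => B' (R' (imp T ball4 barMap (R (B (E₀ y)))))) :=
      hBl'.comp (hCC.comp (hBl.comp hE₀'))
    exact (hE.trans e1).congr_fun (fun y => rfl) (fun y => (himp (E₀ y)).symm)
  have hu := fun χ χ' h h' => Pool.Agent.Helper27.H.cls_unique hFr hPhi D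
    (c := fun q s => c (0, q, s)) (χ := χ) (χ' := χ') h h'
  have hu1 := fun χ χ' h h' => Pool.Agent.Helper27.H.cls_unique hFr hPhi D
    (c := fun q s => c (1, q, s)) (χ := χ) (χ' := χ') h h'
  obtain ⟨-, ci2, ci3, ci4, ci5, -⟩ := hCI R4 R4 I4 R4
  obtain ⟨f1, f2, f3, f4, f5, f6, f7⟩ := hPhi D
  rcases hT4' with hG | hG
  · refine ⟨_, hG, fun χ₀ χ₁ τ hχ₀ hχ₁ hτ => Or.inr ?_⟩
    have g1 := p2 τ hτ
    have g2 := f4 _ _ _ _ p1 hE₀' g1 hE₀χ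
    have g3 := f1 _ _ _ hE2.symm g2
    have g4 : CIsot I4 χ₁' (fun x => τ (χ₀' x)) := f3 _ _ _ hE₁' hE₁χ g3
    have g5 : CIsot I4 (fun x => τ (χ₀' x)) (fun x => τ (χ₀ x)) :=
      ci5 _ _ _ _ (f7 _ _ g1) (hu _ _ hcls0 hχ₀)
    exact ci4 _ _ _ (hu1 _ _ hχ₁ hcls1) (ci4 _ _ _ g4 g5)
  · refine ⟨_, hG, fun χ₀ χ₁ τ hχ₀ hχ₁ hτ => Or.inl ?_⟩
    -- the reflected chart
    have hmem : ∀ p ∈ ball4, refh p ∈ ball4 := by
      rintro p ⟨k1, k2, k3⟩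
      exact ⟨k1, k2, by rwa [rsq_refh]⟩
    have hrc : ∀ p : R4, (refh p).2 = 0 ∨ (refh p).2 = e1 → p.2 = 0 ∨ p.2 = e1 := by
      intro p hp
      have hinv : p = refh (refh p) := (linvol_refh.inv p).symm
      rcases hp with hp | hp
      · left
        rw [hinv]
        change ((refh p).2.1, _) = _
        rw [hp]
        simp
      · right
        rw [hinv]
        change ((refh p).2.1, _) = _
        rw [hp]
        simp [e1]
    have q0 : EmbOn I4 refh ball4 :=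
      EmbOn.mono (emb_of_invol linvol_refh.toInvol) (subset_univ _)
    have q1 : EmbOn I4 (fun p => Ψ' (T (refh p))) ball4 :=
      EmbOn.comp (F := fun p => Ψ' (T p)) (k := refh) hT1 q0 hmem
    obtain ⟨s1, s2, -⟩ := hPHT D (fun p => Ψ' (T (refh p))) q1 (fun p hp => hT2' (hmem p hp))
      (fun p hp h => hrc p (hT3' _ (hmem p hp) h))
    -- `B ∘ B₂ ~ id`, so `B₂ ∘ B ~ id`
    let P : R4 → R4 := imp (fun p => Ψ' (T p)) ball4 barMap
    let P₂ : R4 → R4 := imp (fun p => Ψ' (T (refh p))) ball4 barMap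
    change LIso D.U D.L D.J D.J P P at p1
    change LIso D.U D.L D.J D.J P₂ P₂ at s1
    change LIso D.U D.L D.J D.J (fun y => P (P₂ y)) (fun y => y) at p3
    change LIso D.U D.L D.J D.J E₁ (fun y => P (E₀ y)) at hE2
    obtain ⟨P', hP', hPP, hP'P⟩ := p1.exists_inv
    have t1 : LIso D.U D.L D.J D.J P₂ P' :=
      (hP'.comp p3).congr_fun (fun y => hP'P _) (fun y => rfl)
    have t2 : LIso D.U D.L D.J D.J (fun y => P₂ (E₁ y)) E₀ :=
      ((t1.comp hE2).congr_fun (fun y => rfl) (fun y => hP'P _))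
    have g1 := s2 τ hτ
    have g2 := f4 _ _ _ _ s1 hE₁' g1 hE₁χ
    have g3 := f1 _ _ _ t2 g2
    have g4 : CIsot I4 χ₀' (fun x => τ (χ₁' x)) := f3 _ _ _ hE₀' hE₀χ g3
    have g5 : CIsot I4 (fun x => τ (χ₁' x)) (fun x => τ (χ₁ x)) :=
      ci5 _ _ _ _ (f7 _ _ g1) (hu1 _ _ hcls1 hχ₁)
    exact ci4 _ _ _ (hu _ _ hχ₀ hcls0) (ci4 _ _ _ g4 g5)

theorem m_CROSS : StCROSS := by
  intro D c u₀ q₀ a b hc hX hImm hInj
  have ha := hX.mema
  have hb := hX.memb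
  have hh₀ := D.h₀
  have hh₁ := D.h₁
  have hh₂ := D.h₂
  have k1 := min_le_left D.m₀ a
  have k2 := min_le_right D.m₀ a
  have k3 : D.s₀ < min D.m₀ a := lt_min hh₀ ha.1
  have k4 := le_max_left D.m₁ b
  have k5 := le_max_right D.m₁ b
  have k6 : max D.m₁ b < D.s₁ := max_lt hh₂ hb.2
  let D' : ArcD := { D with
    m₀ := (D.s₀ + min D.m₀ a) / 2
    m₁ := (max D.m₁ b + D.s₁) / 2
    h₀ := by linarith
    h₁ := by linarith
    h₂ := by linarith }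
  have hm₀ : D'.m₀ = (D.s₀ + min D.m₀ a) / 2 := rfl
  have hm₁ : D'.m₁ = (max D.m₁ b + D.s₁) / 2 := rfl
  have hc' : D'.Htpy c := by
    refine ⟨hc.smooth, fun u hu q hq s hs => ?_, fun u hu q hq s hs => ?_, hc.start, hc.stop⟩
    · rw [hm₀, hm₁] at hs
      refine hc.froz u hu q hq s ?_
      rcases hs with hs | hs
      · left; linarith
      · right; linarith
    · rw [hm₀, hm₁] at hs
      by_cases h1 : s ∈ Icc D.m₀ D.m₁
      · exact hc.inU u hu q hq s h1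
      · have h2 : s ≤ D.m₀ ∨ D.m₁ ≤ s := by
          by_contra hcon
          push Not at hcon
          exact h1 ⟨hcon.1.le, hcon.2.le⟩
        rw [hc.froz u hu q hq s h2]
        exact D.mem s ⟨by linarith [hs.1], by linarith [hs.2]⟩
  have hX' : D'.Xing c u₀ q₀ a b :=
    ⟨hX.memu, hX.memq, hX.mema, hX.memb, hX.lt, hX.eq, hX.uniq, hX.trans⟩
  obtain ⟨T, hT, h⟩ := cross_aux hCh hFr hTh hPhi hSQ hM5 hXG hPHT hL5 D' c u₀ q₀ a b hc' hX'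
    hImm hInj (by rw [hm₀]; linarith [ha.1]) (by rw [hm₁]; linarith [hb.2])
  exact ⟨T, ⟨hT.emb, hT.inU, hT.arc, hT.str⟩, h⟩

end

end Cross

end Pool.Agent.Helper34.BI.H


end

/-! ## Helper34.BI.H.M_M5 -/

section

/-!
# Project BI, stage 3, section 5: the push along the localized circle (module M5)
-/

set_option autoImplicit false

open Module Set Filter Topology
open scoped ContDiff Manifold
open Pool.Agent.Helper65.Barb Pool.Agent.Helper18.BI Pool.Agent.Helper27.BI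
open Pool.Agent.Helper27.H (ArcD LIso LPush Fam2 Q2 SuppU thk seg StCH4 StFRAME StTHK)
open Pool.Agent.Helper70.BI (I4 NearEq ld_iff ld_comp ld_dfam contDiff_dfam)

namespace Pool.Agent.Helper34.BI.H

namespace M5

theorem nsq_zero : nsq (0 : ℝ × ℂ) = 0 := by
  simp [nsq]

theorem warc_zero (κ : ℝ → ℝ) (s : ℝ) : warc κ 0 s = e1 := by
  unfold warc e1
  simp
  rfl

theorem warc_one (κ : ℝ → ℝ) (s : ℝ) : warc κ 1 s = e1 := by
  unfold warc e1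
  simp
  rfl

theorem mem_ball4 {σ : ℝ} (h0 : -1 ≤ σ) (h1 : σ ≤ 2) : ((σ, e1) : R4) ∈ ball4 := by
  refine ⟨h0, h1, ?_⟩
  unfold rsq nsq e1
  norm_num

section
variable {D : ArcD} {a b ε ν : ℝ} {κ : ℝ → ℝ} {T : R4 → R4} {y : ℝ → ℝ → R4}

theorem inU (h : Mod5 D a b ε ν κ T y) {q s : ℝ} (hq : q ∈ Icc (0 : ℝ) 1)
    (hs : s ∈ Ioo D.s₀ D.s₁) : y q s ∈ D.U := by
  by_cases h1 : s ≤ D.m₀ ∨ D.m₁ ≤ s
  · rw [h.froz q hq s h1]
    exact D.mem s hs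
  · rw [not_or, not_le, not_le] at h1
    exact h.inU q hq s ⟨h1.1.le, h1.2.le⟩

/-- the image of the core under the pushed family -/
theorem core (h : Mod5 D a b ε ν κ T y) {ρ : ℝ} {F G : DFam 𝓘(ℝ, R4) R4}
    (ff : ∀ t ∈ Icc (0 : ℝ) 1, ∀ x ∈ ctube 0 ρ, F.f (t, x) = x)
    (ft : ∀ t ∈ Icc (0 : ℝ) 1, ∀ (_ : Unit) (s : ℝ) (x : R3), nsq x ≤ ρ ^ 2 →
      F.f (t, (s, warc κ 0 s + x)) = (s, warc κ (step t) s + x))
    (goff : ∀ t x, x ∉ T '' ball4 → G.f (t, x) = x)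
    (gimp : ∀ t x, G.f (t, x) = imp T ball4 (fun p => F.f (t, p)) x) {q s : ℝ}
    (hq : q ∈ Icc (0 : ℝ) 1) (hs : s ∈ Icc D.s₀ D.s₁) : G.f (q, y 0 s) = y (step q) s := by
  have hρ : 0 ≤ ρ ^ 2 := sq_nonneg ρ
  have hst := step_mem q
  have hν := h.νpos
  by_cases hy : y 0 s ∈ T '' ball4
  · obtain ⟨p, hp, hpy⟩ := hy
    have hval : G.f (q, y 0 s) = T (F.f (q, p)) := by
      rw [gimp, ← hpy]
      exact (m_Imp R4 R4 𝓘(ℝ, R4) R4 T ball4 (fun p => F.f (q, p)) h.emb.2).1 p hp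
    rcases h.only p hp s hs hpy with ⟨h1, h2⟩ | ⟨h1, h2⟩
    · have h3 : p ∈ ctube 0 ρ := by
        show nsq (p.2 - 0) ≤ ρ ^ 2
        rw [h1, sub_zero, nsq_zero]
        exact hρ
      rw [hval, ff q hq p h3, hpy]
      symm
      apply h.const _ hst
      left
      have h4 : p.1 ≤ 2 := hp.2.1
      have h5 := h.hab
      have h6 := h.εpos
      rw [h2]
      nlinarith
    · have h3 := ft q hq () p.1 0 (by rw [nsq_zero]; exact hρ)
      rw [add_zero, add_zero, warc_zero] at h3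
      have h4 : p = (p.1, e1) := by rw [← h1]
      rw [hval, h4, h3, h.cw (step q) hst p.1 ⟨hp.1, hp.2.1⟩, ← h2]
  · rw [goff q _ hy]
    symm
    apply h.const _ hst
    by_contra h1
    rw [not_or, not_le, not_le] at h1
    obtain ⟨h1, h2⟩ := h1
    apply hy
    have e1' : b + ν * ((s - b) / ν + 1 / 2 - 1 / 2) = s := by
      field_simp
      ring
    have l1 : -(1 / 2) < (s - b) / ν := by
      rw [lt_div_iff₀ hν]
      linarith
    have l2 : (s - b) / ν < 1 / 2 := by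
      rw [div_lt_iff₀ hν]
      linarith
    refine ⟨((s - b) / ν + 1 / 2, e1), mem_ball4 (by linarith) (by linarith), ?_⟩
    rw [h.c1 _ ⟨by linarith, by linarith⟩, e1']

end

end M5

open M5 in
theorem m_M5 (hTPU : StTPU) (hCIRC : StCIRC) (hCh : StCH4) (hFr : StFRAME) (hTh : StTHK) :
    StM5 := by
  intro D a b ε ν κ T y h C hC
  have key := hTh Q2 D.s₀ D.m₀ D.m₁ D.s₁ D.U D.J D.c (fun a s => y a.2 s) D.h₀ D.h₁ D.h₂ D.openU
    D.emb D.smooth D.core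
    (h.smooth.comp ((contDiff_snd.comp contDiff_fst).prodMk contDiff_snd))
    (fun a ha s hs => h.froz a.2 ha.2 s hs) (fun a ha s hs => h.inU a.2 ha.2 s hs)
    (fun a ha => h.inj a.2 ha.2) (fun a ha s hs => h.imm a.2 ha.2 s hs)
  have hfam : Fam2 Q2 D.L D.V D.U (fun a => thk D.J D.c (y a.2)) := key.1
  have hval : ∀ q, ∀ s ∈ Icc D.s₀ D.s₁, thk D.J D.c (y q) (s, 0) = y q s := fun q s hs =>
    key.2.1 (0, q) s hs
  have m0 : (0 : ℝ) ∈ Icc (0 : ℝ) 1 := by simp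
  have m1 : (1 : ℝ) ∈ Icc (0 : ℝ) 1 := by simp
  have m00 : ((0 : ℝ), (0 : ℝ)) ∈ Q2 := ⟨m0, m0⟩
  set J₀ : R4 → R4 := thk D.J D.c (y 0) with hJ₀
  have hemb : EmbOn I4 J₀ D.L := hfam.emb (0, 0) m00
  have hcont : ∀ p ∈ D.L, ContinuousAt J₀ p := fun p hp =>
    (ld_iff.1 (hemb.1 p hp)).1.self_of_nhds.continuousAt
  obtain ⟨TP1, TP2⟩ := hTPU D.U D.L J₀ T D.openU D.isCompact_L hcont h.emb h.TU (by
    rintro p hp ⟨z, hz, hzp⟩
    obtain ⟨hz1, hz2⟩ := Pool.Agent.Helper27.H.eq_of_mem_seg hz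
    rw [hz2, hJ₀, hval 0 _ hz1] at hzp
    rcases h.only p hp z.1 hz1 hzp.symm with h1 | h1
    · exact Or.inl h1.1
    · exact Or.inr h1.1)
  obtain ⟨ρ₀, hρ₀, H⟩ := hCIRC κ h.κs h.κ01 h.κh h.κ0
  have hρ : 0 < ρ₀ / 2 := by linarith
  obtain ⟨⟨Θ, hΘ⟩, hTI⟩ := H (ρ₀ / 2) ⟨hρ, by linarith⟩
  obtain ⟨F', f0', f1', fs', ff', ft'⟩ := hTI Θ hΘ
  obtain ⟨F, f0, f1, fs, ff, ft⟩ := hΘ
  obtain ⟨N, hN, hLN, hNφ⟩ := TP2 (ρ₀ / 2) hρ
  set ρ : ℝ := ρ₀ / 2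
  -- (b)
  obtain ⟨G', gs', goff', gimp'⟩ := TP1 F' fs'
  have hB : LIso D.U D.L J₀ J₀ (imp T ball4 barMap) (imp T ball4 Θ) := by
    refine ⟨G', fun x => ?_, fun x => ?_, gs', N, hN, hLN, fun t p hp => ?_⟩
    · rw [gimp' 0 x, funext f0']
    · rw [gimp' 1 x, funext f1']
    · rw [gimp' t]
      refine hNφ _ (fun x hx => ?_) p hp
      rcases hx with hx | hx
      · exact ff' t x hx
      · have h1 : nsq (x.2 - e1) ≤ ρ ^ 2 := hx
        have h2 := ft' t () x.1 (x.2 - e1) h1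
        simp only [add_sub_cancel] at h2
        exact h2
  -- (c)
  obtain ⟨G, gs, goff, gimp⟩ := TP1 F fs
  have hcore : ∀ q ∈ Icc (0 : ℝ) 1, ∀ s ∈ Icc D.s₀ D.s₁, G.f (q, y 0 s) = y (step q) s :=
    fun q hq s hs => core h ff ft goff gimp hq hs
  have g0 : ∀ x, G.f (0, x) = x := by
    intro x
    by_cases hx : x ∈ T '' ball4
    · obtain ⟨p, hp, rfl⟩ := hx
      rw [gimp, (m_Imp R4 R4 𝓘(ℝ, R4) R4 T ball4 (fun p => F.f (0, p)) h.emb.2).1 p hp, f0]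
    · exact goff 0 x hx
  have g1 : ∀ x, G.f (1, x) = imp T ball4 Θ x := by
    intro x
    rw [gimp, funext f1]
  -- (d)
  have hPF : LPush D.U D.L (fun q p => G.f (q, J₀ p)) (imp T ball4 Θ) := by
    refine ⟨G.reparam step contDiff_step, fun x => ?_, fun x => ?_, gs.reparam _ _, univ,
      isOpen_univ, subset_univ _, fun t _ p _ => ?_⟩
    · change G.f (step 0, x) = x
      rw [step_zero, g0]
    · change G.f (step 1, x) = _
      rw [step_one, g1]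
    · change G.f (step t, G.f (0, J₀ p)) = G.f (step t, J₀ p)
      rw [g0]
  -- (e)
  have hTc : IsClosed (T '' ball4) :=
    (isCompact_ball4.image_of_continuousOn fun p hp =>
      (ld_iff.1 (h.emb.1 p hp)).1.self_of_nhds.continuousAt.continuousWithinAt).isClosed
  have hTU : T '' ball4 ⊆ D.U := by
    rintro _ ⟨p, hp, rfl⟩
    exact h.TU hp
  set V' : Set R4 := D.V ∩ interior (J₀ ⁻¹' (T '' ball4)ᶜ) with hV'
  have hV'o : IsOpen V' := D.isOpen_V.inter isOpen_interior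
  have hend : ∀ s, s ∈ Icc D.s₀ D.s₁ → (s ≤ D.m₀ ∨ D.m₁ ≤ s) → D.c s ∉ D.U →
      ((s, 0) : R4) ∈ interior (J₀ ⁻¹' (T '' ball4)ᶜ) := by
    intro s hs hm hc
    refine mem_interior_iff_mem_nhds.2 ((hcont _ (D.mem_L hs)).preimage_mem_nhds
      (hTc.isOpen_compl.mem_nhds fun h1 => hc ?_))
    have h2 := hTU h1
    rw [hJ₀, hval 0 s hs, h.froz 0 m0 s hm] at h2
    exact h2
  have hV0 : ((D.s₀, 0) : R4) ∈ V' :=
    ⟨D.mem_V₀, hend _ ⟨le_rfl, D.le₀₁⟩ (Or.inl D.h₀.le) D.off₀⟩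
  have hV1 : ((D.s₁, 0) : R4) ∈ V' :=
    ⟨D.mem_V₁, hend _ ⟨D.le₀₁, le_rfl⟩ (Or.inr D.h₂.le) D.off₁⟩
  have hVoff : ∀ p ∈ V', J₀ p ∉ T '' ball4 := by
    intro p hp
    have h1 : p ∈ J₀ ⁻¹' (T '' ball4)ᶜ := interior_subset hp.2
    exact h1
  have hIoo : ∀ p ∈ D.L, p ∉ V' → p.1 ∈ Ioo D.s₀ D.s₁ ∧ p = (p.1, 0) := by
    intro p hp hpV
    obtain ⟨⟨h1, h2⟩, h3⟩ := Pool.Agent.Helper27.H.eq_of_mem_seg hp
    refine ⟨⟨lt_of_le_of_ne h1 fun e => hpV ?_, lt_of_le_of_ne h2 fun e => hpV ?_⟩, h3⟩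
    · rw [h3, ← e]
      exact hV0
    · rw [h3, e]
      exact hV1
  have famF : Fam2 Q2 D.L V' D.U (fun a p => G.f (a.2, J₀ p)) := by
    refine ⟨fun a _ p hp => ?_, fun a _ => ⟨fun p hp => ?_, fun p hp p' hp' he => ?_⟩,
      fun a _ a' _ p hp => ?_, fun a ha p hp hpV => ?_⟩
    · have h1 := (ld_iff.1 (hemb.1 p hp)).1
      have h3 : ContinuousAt (fun z : (ℝ × ℝ) × R4 => z.2) (a, p) := continuousAt_snd
      filter_upwards [h3.eventually h1] with z e1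
      have e2 : ContDiffAt ℝ ∞ (fun z : (ℝ × ℝ) × R4 => J₀ z.2) z := e1.comp z contDiffAt_snd
      have e3 : ContDiffAt ℝ ∞ (fun z : (ℝ × ℝ) × R4 => (z.1.2, J₀ z.2)) z :=
        (contDiff_snd.comp contDiff_fst).contDiffAt.prodMk e2
      exact ContDiffAt.comp z (contDiff_dfam G).contDiffAt e3
    · exact ld_comp (F := fun x => G.f (a.2, x)) (m := J₀) (hemb.1 p hp) (ld_dfam G a.2 _)
    · apply hemb.2 hp hp'
      have h1 := congrArg (fun x => G.g (a.2, x)) he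
      simpa only [G.gf] using h1
    · rw [goff _ _ (hVoff p hp), goff _ _ (hVoff p hp)]
    · obtain ⟨h1, h2⟩ := hIoo p hp hpV
      rw [h2, hJ₀, hval 0 _ ⟨h1.1.le, h1.2.le⟩, hcore a.2 ha.2 _ ⟨h1.1.le, h1.2.le⟩]
      exact inU h (step_mem _) h1
  have famJ : Fam2 Q2 D.L V' D.U (fun a => thk D.J D.c (y (step a.2))) := by
    have h1 := hfam.comp (Q' := Q2) (θ := fun a => (a.1, step a.2))
      (contDiff_fst.prodMk (contDiff_step.comp contDiff_snd))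
      (fun a ha => ⟨ha.1, step_mem a.2⟩)
    refine h1.mono subset_rfl subset_rfl inter_subset_left subset_rfl fun a ha p hp _ hpV => ?_
    obtain ⟨h1, h2⟩ := hIoo p hp hpV
    change thk D.J D.c (y (step a.2)) p ∈ D.U
    rw [h2, hval _ _ ⟨h1.1.le, h1.2.le⟩]
    exact inU h (step_mem _) h1
  obtain ⟨C', hC'⟩ := Pool.Agent.Helper27.H.exists_lpush1 hCh D.isCompact_L hV'o D.openU
    (J := fun q => thk D.J D.c (y (step q))) famJ
  have e00 : thk D.J D.c (y (step 0)) = J₀ := by rw [step_zero]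
  have e01 : thk D.J D.c (y (step 1)) = J₀ := by rw [step_one, h.loop]
  have hN1 : ∀ p ∈ N, G.f (1, J₀ p) = J₀ p := by
    intro p hp
    rw [gimp]
    refine hNφ _ (fun x hx => ?_) p hp
    rcases hx with hx | hx
    · exact ff 1 m1 x hx
    · have h1 : nsq (x.2 - e1) ≤ ρ ^ 2 := hx
      have h2 := ft 1 m1 () x.1 (x.2 - e1) h1
      simp only [step_one, warc_zero, warc_one, add_sub_cancel] at h2
      exact h2
  have hfr := hFr D V' (fun q p => G.f (q, J₀ p)) (fun q => thk D.J D.c (y (step q)))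
    (imp T ball4 Θ) C' hV'o hV0 hV1 famF famJ
    (fun q hq s hs => by
      rw [hJ₀, hval _ _ hs, hval _ _ hs, hcore q hq s hs])
    (fun p _ => by rw [g0, e00])
    (fun s hs => by
      rw [g0, hJ₀, hval 0 s ⟨hs.1.le, hs.2.le⟩]
      exact inU h m0 hs)
    ⟨univ, isOpen_univ, subset_univ _, fun p _ => by
      change G.f (0, J₀ p) = thk D.J D.c (y (step 0)) p
      rw [g0, e00]⟩
    ⟨N, hN, hLN, fun p hp => by
      change G.f (1, J₀ p) = thk D.J D.c (y (step 1)) p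
      rw [hN1 p hp, e01]⟩ hPF hC'
  have hfr' : LIso D.U D.L J₀ J₀ (imp T ball4 Θ) C' := by
    refine hfr.congr ⟨univ, isOpen_univ, subset_univ _, fun p _ => ?_⟩
      ⟨N, hN, hLN, fun p hp => ?_⟩
    · exact g0 (J₀ p)
    · exact hN1 p hp
  have hrep := Pool.Agent.Helper27.H.push_reparam hCh D.isCompact_L D.isOpen_V D.openU
    (J := fun q => thk D.J D.c (y q)) hfam contDiff_step (fun q _ => step_mem q) step_zero
    step_one hC hC'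
  have hrep' : LIso D.U D.L J₀ J₀ C C' := by
    have e1 : thk D.J D.c (y 1) = J₀ := by rw [h.loop]
    change LIso D.U D.L J₀ (thk D.J D.c (y 1)) C C' at hrep
    rwa [e1] at hrep
  exact hB.trans (hfr'.trans hrep'.symm)

end Pool.Agent.Helper34.BI.H


end

/-! ## Helper34.BI.H.M_SQ5 -/

section

/-!
# Project BI, stage 3, module SQ5: the squares around the crossing
-/

set_option autoImplicit false
set_option linter.unusedSectionVars false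

open Module Set Filter Topology
open scoped ContDiff Manifold
open Pool.Agent.Helper65.Barb Pool.Agent.Helper18.BI Pool.Agent.Helper27.BI
open Pool.Agent.Helper27.H

namespace Pool.Agent.Helper34.BI.H

namespace SQ5

/-- a good family of parameters -/
def Gd (v₀ : ℝ × ℝ) (g : ℝ × ℝ → ℝ × ℝ) : Prop :=
  ContDiff ℝ ∞ g ∧ ∀ a ∈ Q2, g a ∈ Q2 ∧ g a ≠ v₀

lemma Gd.comp {v₀ : ℝ × ℝ} {g : ℝ × ℝ → ℝ × ℝ} (h : Gd v₀ g) {θ : ℝ × ℝ → ℝ × ℝ}
    (hθ : ContDiff ℝ ∞ θ) (hm : ∀ a ∈ Q2, θ a ∈ Q2) : Gd v₀ (fun a => g (θ a)) :=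
  ⟨h.1.comp hθ, fun a ha => h.2 _ (hm a ha)⟩

lemma mem_Q2 {x y : ℝ} (hx : x ∈ Icc (0 : ℝ) 1) (hy : y ∈ Icc (0 : ℝ) 1) : (x, y) ∈ Q2 :=
  ⟨hx, hy⟩

/-- the edges of a good square are good paths -/
lemma Gd.edge {v₀ : ℝ × ℝ} {g : ℝ × ℝ → ℝ × ℝ} (h : Gd v₀ g) {y : ℝ} (hy : y ∈ Icc (0 : ℝ) 1) :
    Gd v₀ (fun a => g (a.2, y)) :=
  h.comp (θ := fun a => (a.2, y)) (by fun_prop) (fun a ha => mem_Q2 ha.2 hy)

lemma Gd.edge' {v₀ : ℝ × ℝ} {g : ℝ × ℝ → ℝ × ℝ} (h : Gd v₀ g) {x : ℝ} (hx : x ∈ Icc (0 : ℝ) 1) :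
    Gd v₀ (fun a => g (x, a.2)) :=
  h.comp (θ := fun a => (x, a.2)) (by fun_prop) (fun a ha => mem_Q2 hx ha.2)

/-- the points of the circle -/
lemma circ_eq (u₀ q₀ r q : ℝ) : circ (u₀, q₀) (0, r) q =
    (u₀ - r * Real.sin (2 * Real.pi * q), q₀ + r * Real.cos (2 * Real.pi * q)) := by
  unfold circ mulc
  ext
  · simp only [Prod.fst_add]; ring
  · simp only [Prod.snd_add]; ring

lemma contDiff_circ (u₀ q₀ r : ℝ) : ContDiff ℝ ∞ (circ (u₀, q₀) (0, r)) := by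
  have h : circ (u₀, q₀) (0, r) = fun q : ℝ =>
      (u₀ - r * Real.sin (2 * Real.pi * q), q₀ + r * Real.cos (2 * Real.pi * q)) :=
    funext fun q => circ_eq u₀ q₀ r q
  rw [h]
  fun_prop

section geo
variable {u₀ q₀ r : ℝ} (hr : 0 < r) (h1 : 0 < u₀ - r) (h2 : u₀ + r < 1) (h3 : 0 < q₀ - r)
  (h4 : q₀ + r < 1)
include hr h1 h2 h3 h4

lemma circ_mem (q : ℝ) : circ (u₀, q₀) (0, r) q ∈ Q2 := by
  rw [circ_eq]
  have s1 := Real.sin_le_one (2 * Real.pi * q)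
  have s2 := Real.neg_one_le_sin (2 * Real.pi * q)
  have c1 := Real.cos_le_one (2 * Real.pi * q)
  have c2 := Real.neg_one_le_cos (2 * Real.pi * q)
  refine ⟨⟨?_, ?_⟩, ⟨?_, ?_⟩⟩ <;> simp only <;> nlinarith

lemma conv_mem {x : ℝ} (hx : x ∈ Icc (0 : ℝ) 1) {v w : ℝ × ℝ} (hv : v ∈ Q2) (hw : w ∈ Q2) :
    (1 - x) • v + x • w ∈ Q2 :=
  convex_Q2 hv hw (by linarith [hx.2]) hx.1 (by ring)

/-- a square between a path and a piece of the circle -/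
lemma good_left : Gd (u₀, q₀) (fun a : ℝ × ℝ =>
    (1 - a.1) • ((0 : ℝ), 1 - a.2) + a.1 • circ (u₀, q₀) (0, r) (a.2 / 2)) := by
  have hc := contDiff_circ u₀ q₀ r
  have hc2 : ContDiff ℝ ∞ (fun a : ℝ × ℝ => circ (u₀, q₀) (0, r) (a.2 / 2)) :=
    hc.comp (contDiff_snd.div_const 2)
  refine ⟨by fun_prop, ?_⟩
  rintro ⟨x, y⟩ ⟨hx, hy⟩
  simp only at hx hy ⊢
  refine ⟨conv_mem hr h1 h2 h3 h4 hx (mem_Q2 (by simp) ⟨by linarith [hy.2], by linarith [hy.1]⟩)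
    (circ_mem hr h1 h2 h3 h4 _), fun e => ?_⟩
  rw [circ_eq] at e
  have e1 := congrArg Prod.fst e
  have e2 := congrArg Prod.snd e
  simp only [Prod.smul_mk, Prod.mk_add_mk, smul_eq_mul] at e1 e2
  have hs : 0 ≤ Real.sin (2 * Real.pi * (y / 2)) := by
    apply Real.sin_nonneg_of_nonneg_of_le_pi
    · have := Real.pi_pos
      have := hy.1
      positivity
    · have := Real.pi_pos
      nlinarith [hy.2]
  have hcs := Real.sin_sq_add_cos_sq (2 * Real.pi * (y / 2))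
  set S := Real.sin (2 * Real.pi * (y / 2)) with hS
  set C := Real.cos (2 * Real.pi * (y / 2)) with hC
  have hu : 0 < u₀ := by linarith
  have k1 : (1 - x) * u₀ + x * (r * S) = 0 := by nlinarith
  have k2 : 0 ≤ (1 - x) * u₀ := mul_nonneg (by linarith [hx.2]) hu.le
  have k3 : 0 ≤ x * (r * S) := mul_nonneg hx.1 (mul_nonneg hr.le hs)
  have k4 : (1 - x) * u₀ = 0 := by linarith
  have k5 : x = 1 := by
    rcases mul_eq_zero.1 k4 with h | h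
    · linarith
    · linarith
  subst k5
  have k6 : S = 0 := by
    have : 1 * (r * S) = 0 := by linarith
    rcases mul_eq_zero.1 (by linarith : r * S = 0) with h | h
    · linarith
    · exact h
  have k7 : C = 0 := by
    have : r * C = 0 := by linarith
    rcases mul_eq_zero.1 this with h | h
    · linarith
    · exact h
  rw [k6, k7] at hcs
  norm_num at hcs

lemma good_right : Gd (u₀, q₀) (fun a : ℝ × ℝ =>
    (1 - a.1) • ((1 : ℝ), a.2) + a.1 • circ (u₀, q₀) (0, r) (1 / 2 + a.2 / 2)) := by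
  have hc := contDiff_circ u₀ q₀ r
  have hc2 : ContDiff ℝ ∞ (fun a : ℝ × ℝ => circ (u₀, q₀) (0, r) (1 / 2 + a.2 / 2)) :=
    hc.comp (contDiff_const.add (contDiff_snd.div_const 2))
  refine ⟨by fun_prop, ?_⟩
  rintro ⟨x, y⟩ ⟨hx, hy⟩
  simp only at hx hy ⊢
  refine ⟨conv_mem hr h1 h2 h3 h4 hx (mem_Q2 (by simp) hy)
    (circ_mem hr h1 h2 h3 h4 _), fun e => ?_⟩
  rw [circ_eq] at e
  have e1 := congrArg Prod.fst e
  have e2 := congrArg Prod.snd e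
  simp only [Prod.smul_mk, Prod.mk_add_mk, smul_eq_mul] at e1 e2
  have hs : Real.sin (2 * Real.pi * (1 / 2 + y / 2)) ≤ 0 := by
    have e3 : 2 * Real.pi * (1 / 2 + y / 2) = Real.pi * y + Real.pi := by ring
    rw [e3, Real.sin_add_pi]
    have : 0 ≤ Real.sin (Real.pi * y) := by
      apply Real.sin_nonneg_of_nonneg_of_le_pi
      · exact mul_nonneg Real.pi_pos.le hy.1
      · have := Real.pi_pos
        nlinarith [hy.2]
    linarith
  have hcs := Real.sin_sq_add_cos_sq (2 * Real.pi * (1 / 2 + y / 2))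
  set S := Real.sin (2 * Real.pi * (1 / 2 + y / 2)) with hS
  set C := Real.cos (2 * Real.pi * (1 / 2 + y / 2)) with hC
  have hu : u₀ < 1 := by linarith
  have k1 : (1 - x) * (1 - u₀) + x * (r * (-S)) = 0 := by nlinarith
  have k2 : 0 ≤ (1 - x) * (1 - u₀) := mul_nonneg (by linarith [hx.2]) (by linarith)
  have k3 : 0 ≤ x * (r * (-S)) := mul_nonneg hx.1 (mul_nonneg hr.le (by linarith))
  have k4 : (1 - x) * (1 - u₀) = 0 := by linarith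
  have k5 : x = 1 := by
    rcases mul_eq_zero.1 k4 with h | h
    · linarith
    · linarith
  subst k5
  have k6 : S = 0 := by
    rcases mul_eq_zero.1 (by linarith : r * (-S) = 0) with h | h
    · linarith
    · linarith
  have k7 : C = 0 := by
    have : r * C = 0 := by linarith
    rcases mul_eq_zero.1 this with h | h
    · linarith
    · exact h
  rw [k6, k7] at hcs
  norm_num at hcs

lemma circ_half : circ (u₀, q₀) (0, r) (1 / 2) = (u₀, q₀ - r) := by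
  rw [circ_eq]
  have : 2 * Real.pi * (1 / 2) = Real.pi := by ring
  rw [this, Real.sin_pi, Real.cos_pi]
  ext <;> simp; ring

lemma circ_zero : circ (u₀, q₀) (0, r) 0 = (u₀, q₀ + r) := by
  rw [circ_eq]
  simp

lemma circ_one : circ (u₀, q₀) (0, r) 1 = circ (u₀, q₀) (0, r) 0 := by
  rw [circ_eq, circ_eq]
  simp

lemma good_bot : Gd (u₀, q₀) (fun a : ℝ × ℝ =>
    (1 - a.1) • (a.2, (0 : ℝ)) + a.1 • circ (u₀, q₀) (0, r) (1 / 2)) := by
  refine ⟨by fun_prop, ?_⟩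
  rintro ⟨x, y⟩ ⟨hx, hy⟩
  simp only at hx hy ⊢
  refine ⟨conv_mem hr h1 h2 h3 h4 hx (mem_Q2 hy (by simp))
    (circ_mem hr h1 h2 h3 h4 _), fun e => ?_⟩
  rw [circ_half hr h1 h2 h3 h4] at e
  have e2 := congrArg Prod.snd e
  simp only [Prod.smul_mk, Prod.mk_add_mk, smul_eq_mul] at e2
  have := hx.2
  nlinarith

lemma good_top : Gd (u₀, q₀) (fun a : ℝ × ℝ =>
    (1 - a.1) • (a.2, (1 : ℝ)) + a.1 • circ (u₀, q₀) (0, r) 0) := by
  refine ⟨by fun_prop, ?_⟩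
  rintro ⟨x, y⟩ ⟨hx, hy⟩
  simp only at hx hy ⊢
  refine ⟨conv_mem hr h1 h2 h3 h4 hx (mem_Q2 hy (by simp))
    (circ_mem hr h1 h2 h3 h4 _), fun e => ?_⟩
  rw [circ_zero hr h1 h2 h3 h4] at e
  have e2 := congrArg Prod.snd e
  simp only [Prod.smul_mk, Prod.mk_add_mk, smul_eq_mul] at e2
  have k1 : (1 - x) * (1 - q₀) + x * r = 0 := by nlinarith
  have k2 : 0 ≤ (1 - x) * (1 - q₀) := mul_nonneg (by linarith [hx.2]) (by linarith)
  have k3 : 0 ≤ x * r := mul_nonneg hx.1 hr.le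
  have k4 : x * r = 0 := by linarith
  rcases mul_eq_zero.1 k4 with h | h
  · subst h
    linarith
  · linarith

lemma good_circ : Gd (u₀, q₀) (fun a : ℝ × ℝ => circ (u₀, q₀) (0, r) (a.2 * (1 + a.1) / 2)) := by
  have hc := contDiff_circ u₀ q₀ r
  refine ⟨hc.comp (by fun_prop), fun a _ => ⟨circ_mem hr h1 h2 h3 h4 _, fun e => ?_⟩⟩
  simp only at e
  rw [circ_eq] at e
  have e1 := congrArg Prod.fst e
  have e2 := congrArg Prod.snd e
  simp only at e1 e2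
  have hcs := Real.sin_sq_add_cos_sq (2 * Real.pi * (a.2 * (1 + a.1) / 2))
  have k6 : Real.sin (2 * Real.pi * (a.2 * (1 + a.1) / 2)) = 0 := by
    have : r * Real.sin (2 * Real.pi * (a.2 * (1 + a.1) / 2)) = 0 := by linarith
    rcases mul_eq_zero.1 this with h | h
    · linarith
    · exact h
  have k7 : Real.cos (2 * Real.pi * (a.2 * (1 + a.1) / 2)) = 0 := by
    have : r * Real.cos (2 * Real.pi * (a.2 * (1 + a.1) / 2)) = 0 := by linarith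
    rcases mul_eq_zero.1 this with h | h
    · linarith
    · exact h
  rw [k6, k7] at hcs
  norm_num at hcs

end geo

section fam
variable {D : ArcD} {c : ℝ × ℝ × ℝ → R4} {v₀ : ℝ × ℝ}

lemma kk_base (hc : D.Htpy c) {u : ℝ} (hu : u ∈ Icc (0 : ℝ) 1) : kk D c (u, 0) = D.J := by
  have e : (fun s => c (u, 0, s)) = D.c := funext fun s => hc.start u hu s
  unfold kk
  simp only
  rw [e]
  funext p
  unfold thk
  simp

lemma kk_base' (hc : D.Htpy c) {u : ℝ} (hu : u ∈ Icc (0 : ℝ) 1) : kk D c (u, 1) = D.J := by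
  have e : (fun s => c (u, 1, s)) = D.c := funext fun s => hc.stop u hu s
  unfold kk
  simp only
  rw [e]
  funext p
  unfold thk
  simp

variable (hTh : StTHK) (hc : D.Htpy c)
  (hI : ∀ u ∈ Icc (0 : ℝ) 1, ∀ q ∈ Icc (0 : ℝ) 1, D.Imm c u q)
  (hJ : ∀ u ∈ Icc (0 : ℝ) 1, ∀ q ∈ Icc (0 : ℝ) 1, (u, q) ≠ v₀ → D.Inj c u q)
include hTh hc hI hJ

lemma kk_fam {g : ℝ × ℝ → ℝ × ℝ} (hg : Gd v₀ g) :
    Fam2 Q2 D.L D.V D.U (fun a => kk D c (g a)) := by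
  have g1 := hg.1
  have hsm : ContDiff ℝ ∞ (fun z : (ℝ × ℝ) × ℝ => c ((g z.1).1, (g z.1).2, z.2)) := by
    have := hc.smooth
    fun_prop
  exact (hTh Q2 D.s₀ D.m₀ D.m₁ D.s₁ D.U D.J D.c
    (fun a s => c ((g a).1, (g a).2, s)) D.h₀ D.h₁ D.h₂ D.openU D.emb D.smooth D.core
    hsm
    (fun a ha s hs => hc.froz _ (hg.2 a ha).1.1 _ (hg.2 a ha).1.2 s hs)
    (fun a ha s hs => hc.inU _ (hg.2 a ha).1.1 _ (hg.2 a ha).1.2 s hs)
    (fun a ha => hJ _ (hg.2 a ha).1.1 _ (hg.2 a ha).1.2 (hg.2 a ha).2)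
    (fun a ha s hs => hI _ (hg.2 a ha).1.1 _ (hg.2 a ha).1.2 s hs)).1

lemma kk_push (hCh : StCH4) {γ : ℝ → ℝ × ℝ} (hg : Gd v₀ (fun a => γ a.2)) :
    ∃ Θ, LPush D.U D.L (fun q => kk D c (γ q)) Θ :=
  exists_lpush1 hCh D.isCompact_L D.isOpen_V D.openU (J := fun q => kk D c (γ q))
    (kk_fam hTh hc hI hJ hg)

lemma kk_square (hCh : StCH4) {g : ℝ × ℝ → ℝ × ℝ} (hg : Gd v₀ g)
    {Θ1 Θ2 Θ3 Θ4 : R4 → R4} (h1 : LPush D.U D.L (fun q => kk D c (g (0, q))) Θ1)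
    (h2 : LPush D.U D.L (fun q => kk D c (g (q, 1))) Θ2)
    (h3 : LPush D.U D.L (fun q => kk D c (g (q, 0))) Θ3)
    (h4 : LPush D.U D.L (fun q => kk D c (g (1, q))) Θ4) :
    LIso D.U D.L (kk D c (g (0, 0))) (kk D c (g (1, 1))) (fun x => Θ2 (Θ1 x))
      (fun x => Θ4 (Θ3 x)) :=
  square4 hCh D.isCompact_L D.isOpen_V D.openU (J := fun x y => kk D c (g (x, y)))
    (kk_fam hTh hc hI hJ hg) h1 h2 h3 h4

end fam

lemma push_of_eq {D : ArcD} {J J' : ℝ → R4 → R4} {Θ : R4 → R4} (h : LPush D.U D.L J Θ)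
    (e : ∀ q ∈ Icc (0 : ℝ) 1, J q = J' q) : LPush D.U D.L J' Θ :=
  h.congr ⟨univ, isOpen_univ, subset_univ _, fun q hq p _ => by rw [e q hq]⟩

end SQ5

open SQ5 in
theorem m_SQ5 (hCh : StCH4) (hTh : StTHK) : StSQ5 := by
  intro D c u₀ q₀ r hc hI hJ hr h1 h2 h3 h4 E₀ E₁ C hE₀ hE₁ hC
  have gl := good_left hr h1 h2 h3 h4
  have gr := good_right hr h1 h2 h3 h4
  have gb := good_bot hr h1 h2 h3 h4
  have gt := good_top hr h1 h2 h3 h4
  have gc := good_circ hr h1 h2 h3 h4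
  have z01 : (0 : ℝ) ∈ Icc (0 : ℝ) 1 := by simp
  have o01 : (1 : ℝ) ∈ Icc (0 : ℝ) 1 := by simp
  have k00 : kk D c (0, 0) = D.J := kk_base hc z01
  have k01 : kk D c (0, 1) = D.J := kk_base' hc z01
  have k10 : kk D c (1, 0) = D.J := kk_base hc o01
  have k11 : kk D c (1, 1) = D.J := kk_base' hc o01
  obtain ⟨p', hp'⟩ : ∃ p', p' = circ (u₀, q₀) (0, r) 0 := ⟨_, rfl⟩
  obtain ⟨p, hp⟩ : ∃ p, p = circ (u₀, q₀) (0, r) (1 / 2) := ⟨_, rfl⟩
  have c1 : circ (u₀, q₀) (0, r) 1 = p' := (circ_one hr h1 h2 h3 h4).trans hp'.symm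
  have gb' : Gd (u₀, q₀) (fun a : ℝ × ℝ => (1 - a.1) • (a.2, (0 : ℝ)) + a.1 • p) := by
    rw [hp]; exact gb
  have gt' : Gd (u₀, q₀) (fun a : ℝ × ℝ => (1 - a.1) • (a.2, (1 : ℝ)) + a.1 • p') := by
    rw [hp']; exact gt
  have gH := gc.edge' z01
  have gH' := gc.edge o01
  -- the pushes
  obtain ⟨d₀, hd₀⟩ := kk_push hTh hc hI hJ hCh (γ := fun x => (1 - x) • ((0 : ℝ), (0 : ℝ)) + x • p)
    (gb'.edge z01)
  obtain ⟨d₁, hd₁⟩ := kk_push hTh hc hI hJ hCh (γ := fun x => (1 - x) • ((1 : ℝ), (0 : ℝ)) + x • p)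
    (gb'.edge o01)
  obtain ⟨b₀, hb₀⟩ := kk_push hTh hc hI hJ hCh (γ := fun x => (1 - x) • ((0 : ℝ), (1 : ℝ)) + x • p')
    (gt'.edge z01)
  obtain ⟨b₁, hb₁⟩ := kk_push hTh hc hI hJ hCh (γ := fun x => (1 - x) • ((1 : ℝ), (1 : ℝ)) + x • p')
    (gt'.edge o01)
  obtain ⟨H, hH⟩ := kk_push hTh hc hI hJ hCh
    (γ := fun y => circ (u₀, q₀) (0, r) (y * (1 + 0) / 2)) gH
  obtain ⟨H', hH'⟩ := kk_push hTh hc hI hJ hCh
    (γ := fun x => circ (u₀, q₀) (0, r) (1 * (1 + x) / 2)) gH'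
  -- the inverse of `E₀`
  have lE₀ := hE₀.lIso
  rw [k00, k01] at lE₀
  obtain ⟨E₀', lE₀', i1, i2⟩ := lE₀.exists_inv
  have hE₀' := hE₀.reverse i1
  -- the squares
  have s1 := kk_square hTh hc hI hJ hCh gl
    (push_of_eq hE₀' fun q _ => by simp)
    (push_of_eq hd₀ fun q _ => by simp [hp])
    (push_of_eq hb₀ fun q _ => by simp [hp'])
    (push_of_eq hH fun q _ => by simp)
  have s2 := kk_square hTh hc hI hJ hCh gr
    (push_of_eq hE₁ fun q _ => by simp)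
    (push_of_eq hb₁ fun q _ => by
      have : (1 / 2 + 1 / 2 : ℝ) = 1 := by norm_num
      simp only [this, c1])
    (push_of_eq hd₁ fun q _ => by simp [hp])
    (push_of_eq hH' fun q _ => by
      have e : (1 * (1 + q) / 2 : ℝ) = 1 / 2 + q / 2 := by ring
      rw [e]
      simp only [sub_self, zero_smul, one_smul, zero_add])
  have s3 := kk_square hTh hc hI hJ hCh gb'
    (push_of_eq (LPush.const (U := D.U) (L := D.L) D.J) fun q hq => by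
      simp [kk_base hc hq])
    (push_of_eq hd₁ fun q _ => by simp [hp])
    (push_of_eq hd₀ fun q _ => by simp [hp])
    (push_of_eq (LPush.const (U := D.U) (L := D.L) (kk D c p)) fun q _ => by simp [hp])
  have s4 := kk_square hTh hc hI hJ hCh gt'
    (push_of_eq (LPush.const (U := D.U) (L := D.L) D.J) fun q hq => by
      simp [kk_base' hc hq])
    (push_of_eq hb₁ fun q _ => by simp [hp'])
    (push_of_eq hb₀ fun q _ => by simp [hp'])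
    (push_of_eq (LPush.const (U := D.U) (L := D.L) (kk D c p')) fun q _ => by simp [hp'])
  have s5 := kk_square hTh hc hI hJ hCh gc hH hH'
    (push_of_eq (LPush.const (U := D.U) (L := D.L) (kk D c p')) fun q _ => by simp [hp'])
    (push_of_eq hC fun q _ => by
      have : (q * (1 + 1) / 2 : ℝ) = q := by ring
      simp only [this])
  simp only at s1 s2 s3 s4 s5
  have e1 : (1 - (0 : ℝ)) • ((0 : ℝ), 1 - (0 : ℝ)) + (0 : ℝ) • circ (u₀, q₀) (0, r) (0 / 2)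
      = (0, 1) := by simp
  have e2 : (1 - (1 : ℝ)) • ((0 : ℝ), 1 - (1 : ℝ)) + (1 : ℝ) • circ (u₀, q₀) (0, r) (1 / 2)
      = p := by simp [hp]
  have e3 : (1 - (0 : ℝ)) • ((1 : ℝ), (0 : ℝ)) + (0 : ℝ) • circ (u₀, q₀) (0, r) (1 / 2 + 0 / 2)
      = (1, 0) := by simp
  have e4 : (1 - (1 : ℝ)) • ((1 : ℝ), (1 : ℝ)) + (1 : ℝ) • circ (u₀, q₀) (0, r) (1 / 2 + 1 / 2)
      = p' := by
    have : (1 / 2 + 1 / 2 : ℝ) = 1 := by norm_num
    rw [this, c1]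
    simp
  have e5 : (1 - (0 : ℝ)) • ((0 : ℝ), (0 : ℝ)) + (0 : ℝ) • p = (0, 0) := by simp
  have e6 : (1 - (1 : ℝ)) • ((1 : ℝ), (0 : ℝ)) + (1 : ℝ) • p = p := by simp
  have e7 : (1 - (0 : ℝ)) • ((0 : ℝ), (1 : ℝ)) + (0 : ℝ) • p' = (0, 1) := by simp
  have e8 : (1 - (1 : ℝ)) • ((1 : ℝ), (1 : ℝ)) + (1 : ℝ) • p' = p' := by simp
  have e9 : circ (u₀, q₀) (0, r) (0 * (1 + 0) / 2) = p' := by simp [hp']
  have e10 : circ (u₀, q₀) (0, r) (1 * (1 + 1) / 2) = p' := by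
    have : (1 * (1 + 1) / 2 : ℝ) = 1 := by norm_num
    rw [this, c1]
  rw [e1, e2, k01] at s1
  rw [e3, e4, k10] at s2
  rw [e5, e6, k00] at s3
  rw [e7, e8, k01] at s4
  rw [e9, e10] at s5
  -- the germs carried by the pushes
  have lH' : LIso D.U D.L (kk D c p) (kk D c p') H' H' := by
    have := hH'.lIso
    have f1 : (1 * (1 + 0) / 2 : ℝ) = 1 / 2 := by norm_num
    rw [f1, e10, ← hp] at this
    exact this
  have lb₀ : LIso D.U D.L D.J (kk D c p') b₀ b₀ := by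
    have := hb₀.lIso
    have f1 : (1 - (1 : ℝ)) • ((0 : ℝ), (1 : ℝ)) + (1 : ℝ) • p' = p' := by simp
    rw [e7, f1, k01] at this
    exact this
  obtain ⟨B', lB', j1, j2⟩ := lb₀.exists_inv
  obtain ⟨b₁', lb₁', m1, m2⟩ := s4.refl_of.exists_inv
  -- `d₀ ~ H b₀ E₀`
  have t1 := (s1.comp lE₀).congr_fun (φ' := d₀) (ψ' := fun x => H (b₀ (E₀ x)))
    (fun x => by rw [i2]) (fun _ => rfl)
  have t2 := s3.trans t1
  have t3 := s2.trans (lH'.comp t2)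
  have t4 := s5.comp (lb₀.comp lE₀)
  have t5 := t3.trans t4
  have t6 := s4.inv m1 j1
  have t7 := t6.comp t5
  rw [hp'] at lb₀
  exact ⟨b₀, B', lb₀, j1, j2, t7.congr_fun (fun x => by rw [m2]) (fun _ => rfl)⟩

end Pool.Agent.Helper34.BI.H


end
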