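import Pool.Agent.Helper65.Barb.Defs
import Pool.Agent.Helper70.BI.B.P18
import Pool.Agent.Helper70.BI.B.P20

/-!
# Project BI (MP_8e98f2_gt): collected modules, part 23

The contents of the modules
* Helper34.BI.H.M_NP2
* Helper70.BI.M_PATH
* Helper70.BI.M_R3T
* Helper70.BI.M_ROT

in one file, so that the whole proof builds in a short time.
-/

/-! ## Helper34.BI.H.M_NP2 -/

section

/-!
# Module NP2: parametric transversality for equations linear in the parameter, `dim X = dim Y`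
-/

set_option autoImplicit false

open Module Set Filter Topology MeasureTheory
open scoped ContDiff Manifold

namespace Pool.Agent.Helper34.BI.H

namespace NP2

section
variable {X P Y : Type} [NormedAddCommGroup X] [NormedSpace ℝ X] [FiniteDimensional ℝ X]
  [NormedAddCommGroup P] [NormedSpace ℝ P] [FiniteDimensional ℝ P] [MeasurableSpace P]
  [BorelSpace P] [NormedAddCommGroup Y] [NormedSpace ℝ Y] [FiniteDimensional ℝ Y]

/-- the local statement -/
private theorem local_null (μ : Measure P) [μ.IsAddHaarMeasure] {s : Set X} {L : X → P →L[ℝ] Y}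
    {c : X → Y} (hdim : finrank ℝ X = finrank ℝ Y) (hs : IsOpen s) (hL : DifferentiableOn ℝ L s)
    (hc : DifferentiableOn ℝ c s) (hsurj : ∀ x ∈ s, Function.Surjective (L x)) {x₀ : X}
    (hx₀ : x₀ ∈ s) :
    ∃ V : Set X, IsOpen V ∧ x₀ ∈ V ∧ μ {p | ∃ x ∈ V, L x p = c x ∧
      ¬ Function.Injective (fderiv ℝ (fun x => L x p - c x) x)} = 0 := by
  haveI : CompleteSpace Y := FiniteDimensional.complete ℝ Y
  obtain ⟨R₀, hR₀⟩ := (L x₀ : P →ₗ[ℝ] Y).exists_rightInverse_of_surjective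
    (LinearMap.range_eq_top.2 (hsurj x₀ hx₀))
  let R : Y →L[ℝ] P := LinearMap.toContinuousLinearMap R₀
  have hR : ∀ y, L x₀ (R y) = y := fun y => LinearMap.congr_fun hR₀ y
  let K : Submodule ℝ P := LinearMap.ker (L x₀ : P →ₗ[ℝ] Y)
  let S : X → Y →L[ℝ] Y := fun x => (L x).comp R
  have hSd : DifferentiableOn ℝ S s := hL.clm_comp (differentiableOn_const R)
  have hS0 : S x₀ = 1 := by
    ext y
    exact hR y
  let V : Set X := s ∩ S ⁻¹' {A | IsUnit A}
  have hV : IsOpen V := hSd.continuousOn.isOpen_inter_preimage hs Units.isOpen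
  have hx₀V : x₀ ∈ V := by
    refine ⟨hx₀, ?_⟩
    change IsUnit (S x₀)
    rw [hS0]
    exact isUnit_one
  refine ⟨V, hV, hx₀V, ?_⟩
  -- the parametrization of the solutions
  let Φ : X × K → Y := fun q => Ring.inverse (S q.1) (c q.1 - L q.1 (q.2 : P))
  let Ψ : X × K → P := fun q => R (Φ q) + (q.2 : P)
  let D : Set (X × K) := {q | q.1 ∈ V}
  have hD : IsOpen D := hV.preimage continuous_fst
  have hΦ : DifferentiableOn ℝ Φ D := by
    intro q hq
    have hqs : q.1 ∈ s := hq.1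
    have d1 : DifferentiableAt ℝ (fun q : X × K => q.1) q := differentiableAt_fst
    have d2 : DifferentiableAt ℝ (fun q : X × K => (q.2 : P)) q :=
      (K.subtypeL.differentiableAt).comp q differentiableAt_snd
    have dL : DifferentiableAt ℝ (fun q : X × K => L q.1) q :=
      ((hL q.1 hqs).differentiableAt (hs.mem_nhds hqs)).comp q d1
    have dc : DifferentiableAt ℝ (fun q : X × K => c q.1) q :=
      ((hc q.1 hqs).differentiableAt (hs.mem_nhds hqs)).comp q d1
    have dS : DifferentiableAt ℝ (fun q : X × K => S q.1) q :=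
      ((hSd q.1 hqs).differentiableAt (hs.mem_nhds hqs)).comp q d1
    have dI : DifferentiableAt ℝ (fun q : X × K => Ring.inverse (S q.1)) q :=
      DifferentiableAt.inverse dS hq.2
    exact (dI.clm_apply (dc.sub (dL.clm_apply d2))).differentiableWithinAt
  have hΨ : DifferentiableOn ℝ Ψ D := by
    have d2 : DifferentiableOn ℝ (fun q : X × K => (q.2 : P)) D :=
      ((K.subtypeL.differentiable).comp differentiable_snd).differentiableOn
    exact (R.differentiable.comp_differentiableOn hΦ).add d2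
  -- the solutions
  have hsol : ∀ x ∈ V, ∀ k : K, S x (Φ (x, k)) + L x (k : P) = c x := by
    intro x hx k
    have h1 : S x * Ring.inverse (S x) = 1 := Ring.mul_inverse_cancel _ hx.2
    have h2 : S x (Ring.inverse (S x) (c x - L x (k : P))) = c x - L x (k : P) :=
      DFunLike.congr_fun h1 _
    change S x (Ring.inverse (S x) (c x - L x (k : P))) + L x (k : P) = c x
    rw [h2, sub_add_cancel]
  have hinj : ∀ x ∈ V, ∀ y, S x y = 0 → y = 0 := by
    intro x hx y hy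
    have h1 : Ring.inverse (S x) * S x = 1 := Ring.inverse_mul_cancel _ hx.2
    have h2 : Ring.inverse (S x) (S x y) = y := DFunLike.congr_fun h1 _
    rw [← h2, hy, map_zero]
  -- dimensions
  have hfr : finrank ℝ (X × K) = finrank ℝ P := by
    have h1 := LinearMap.finrank_range_add_finrank_ker (L x₀ : P →ₗ[ℝ] Y)
    rw [LinearMap.range_eq_top.2 (hsurj x₀ hx₀), finrank_top] at h1
    rw [finrank_prod, hdim]
    exact h1
  let M : P ≃L[ℝ] X × K := ContinuousLinearEquiv.ofFinrankEq hfr.symm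
  let C : Set (X × K) := {q | q ∈ D ∧ ∃ w : X × K, w ≠ 0 ∧ fderiv ℝ Ψ q w = 0}
  have hnull : μ ((Ψ ∘ M) '' (M ⁻¹' C)) = 0 := by
    refine addHaar_image_eq_zero_of_det_fderivWithin_eq_zero μ
      (f' := fun q => (fderiv ℝ Ψ (M q)).comp (M : P →L[ℝ] (X × K))) ?_ ?_
    · intro q hq
      have h1 : HasFDerivAt Ψ (fderiv ℝ Ψ (M q)) (M q) :=
        ((hΨ _ hq.1).differentiableAt (hD.mem_nhds hq.1)).hasFDerivAt
      exact (h1.comp q M.hasFDerivAt).hasFDerivWithinAt
    · rintro q ⟨-, w, hw, hw0⟩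
      have h2 : ((fderiv ℝ Ψ (M q)).comp (M : P →L[ℝ] (X × K))) (M.symm w) = 0 := by
        simpa using hw0
      have h3 : M.symm w ≠ 0 := by
        intro h0
        apply hw
        have := congrArg M h0
        simpa using this
      by_contra hdet
      apply h3
      have h5 : LinearMap.ker
          (((fderiv ℝ Ψ (M q)).comp (M : P →L[ℝ] (X × K))) : P →ₗ[ℝ] P) = ⊥ :=
        (LinearMap.isUnit_iff_ker_eq_bot _).1
          ((LinearMap.isUnit_iff_isUnit_det _).2 (isUnit_iff_ne_zero.2 hdet))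
      exact (LinearMap.ker_eq_bot'.1 h5) _ h2
  refine measure_mono_null ?_ hnull
  rintro p ⟨x, hx, hxp, hni⟩
  have hxs : x ∈ s := hx.1
  -- the parameters
  have hk : p - R (L x₀ p) ∈ K := by
    change L x₀ (p - R (L x₀ p)) = 0
    rw [map_sub, hR, sub_self]
  let k : K := ⟨p - R (L x₀ p), hk⟩
  have hy : Φ (x, k) = L x₀ p := by
    have h1 := hsol x hx k
    have h2 : S x (L x₀ p) + L x (k : P) = c x := by
      rw [← hxp]
      change L x (R (L x₀ p)) + L x (p - R (L x₀ p)) = L x p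
      rw [← map_add, add_sub_cancel]
    have h3 : S x (Φ (x, k) - L x₀ p) = 0 := by
      rw [map_sub, sub_eq_zero]
      exact add_right_cancel (h1.trans h2.symm)
    exact sub_eq_zero.1 (hinj x hx _ h3)
  have hp : Ψ (x, k) = p := by
    change R (Φ (x, k)) + (p - R (L x₀ p)) = p
    rw [hy, add_sub_cancel]
  -- derivatives
  have hL1 : HasFDerivAt L (fderiv ℝ L x) x :=
    ((hL x hxs).differentiableAt (hs.mem_nhds hxs)).hasFDerivAt
  have hc1 : HasFDerivAt c (fderiv ℝ c x) x :=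
    ((hc x hxs).differentiableAt (hs.mem_nhds hxs)).hasFDerivAt
  have hS1 : HasFDerivAt S (fderiv ℝ S x) x :=
    ((hSd x hxs).differentiableAt (hs.mem_nhds hxs)).hasFDerivAt
  have hS2 : ∀ ζ : X, fderiv ℝ S x ζ = (fderiv ℝ L x ζ).comp R := by
    intro ζ
    have h1 := (hL1.clm_comp (hasFDerivAt_const R x)).fderiv
    have h2 : fderiv ℝ S x = _ := h1
    rw [h2]
    ext y
    simp
  have hqD : (x, k) ∈ D := hx
  have hΦ1 : HasFDerivAt Φ (fderiv ℝ Φ (x, k)) (x, k) :=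
    ((hΦ _ hqD).differentiableAt (hD.mem_nhds hqD)).hasFDerivAt
  have hg : HasFDerivAt (fun x' : X => Φ (x', k))
      ((fderiv ℝ Φ (x, k)).comp (ContinuousLinearMap.inl ℝ X K)) x := by
    have hi : HasFDerivAt (fun e : X => (e, k)) (ContinuousLinearMap.inl ℝ X K) x :=
      hasFDerivAt_prodMk_left x k
    exact HasFDerivAt.comp (g := Φ) (f := fun e : X => (e, k)) x hΦ1 hi
  have hzero : (fun x' : X => S x' (Φ (x', k)) + L x' (k : P) - c x') =ᶠ[𝓝 x] fun _ => 0 := by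
    filter_upwards [hV.mem_nhds hx] with x' hx'
    rw [hsol x' hx' k, sub_self]
  have hd := ((hS1.clm_apply hg).add (hL1.clm_apply (hasFDerivAt_const (k : P) x))).sub hc1
  have hd0 := hd.unique ((hasFDerivAt_const (0 : Y) x).congr_of_eventuallyEq hzero)
  obtain ⟨ζ, hζ, hζ0⟩ : ∃ ζ : X, ζ ≠ 0 ∧ fderiv ℝ (fun x => L x p - c x) x ζ = 0 := by
    by_contra hcon
    push Not at hcon
    apply hni
    rw [injective_iff_map_eq_zero]
    intro ζ h
    by_contra hne
    exact hcon ζ hne h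
  have hLp : fderiv ℝ (fun x => L x p - c x) x ζ = fderiv ℝ L x ζ p - fderiv ℝ c x ζ := by
    have h1 := ((hL1.clm_apply (hasFDerivAt_const p x)).sub hc1).fderiv
    have h2 : fderiv ℝ (fun x => L x p - c x) x = _ := h1
    rw [h2]
    simp
  rw [hLp, sub_eq_zero] at hζ0
  have hg0 : fderiv ℝ Φ (x, k) (ζ, 0) = 0 := by
    apply hinj x hx
    have h1 := DFunLike.congr_fun hd0 ζ
    simp only [ContinuousLinearMap.sub_apply, ContinuousLinearMap.add_apply,
      ContinuousLinearMap.comp_apply, ContinuousLinearMap.flip_apply,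
      ContinuousLinearMap.inl_apply, ContinuousLinearMap.zero_apply, map_zero, zero_add,
      hS2 ζ, hy] at h1
    have h2 : fderiv ℝ L x ζ p = fderiv ℝ L x ζ (R (L x₀ p)) + fderiv ℝ L x ζ (k : P) := by
      rw [← map_add]
      congr 1
      change p = R (L x₀ p) + (p - R (L x₀ p))
      rw [add_sub_cancel]
    rw [← hζ0, h2] at h1
    have h3 : S x (fderiv ℝ Φ (x, k) (ζ, 0)) + (fderiv ℝ L x ζ (R (L x₀ p)) +
        fderiv ℝ L x ζ (k : P)) - (fderiv ℝ L x ζ (R (L x₀ p)) + fderiv ℝ L x ζ (k : P)) = 0 := by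
      rw [← add_assoc]; exact h1
    rwa [add_sub_cancel_right] at h3
  have hΨ0 : fderiv ℝ Ψ (x, k) (ζ, 0) = 0 := by
    have h1 : HasFDerivAt Ψ ((R : Y →L[ℝ] P).comp (fderiv ℝ Φ (x, k)) +
        K.subtypeL.comp (ContinuousLinearMap.snd ℝ X K)) (x, k) :=
      (R.hasFDerivAt.comp (x, k) hΦ1).add (K.subtypeL.hasFDerivAt.comp (x, k) hasFDerivAt_snd)
    rw [h1.fderiv]
    simp [hg0]
  refine ⟨M.symm (x, k), ?_, ?_⟩
  · change M (M.symm (x, k)) ∈ C
    rw [ContinuousLinearEquiv.apply_symm_apply]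
    refine ⟨hqD, (ζ, 0), ?_, hΨ0⟩
    intro h0
    exact hζ (congrArg Prod.fst h0)
  · change Ψ (M (M.symm (x, k))) = p
    rw [ContinuousLinearEquiv.apply_symm_apply, hp]

end

end NP2

/-- Module NP2. -/
theorem m_NP2 : StNP2 := by
  intro X P Y _ _ _ _ _ _ _ _ _ _ _ μ _ s L c hdim hs hL hc hsurj
  haveI : ProperSpace X := FiniteDimensional.proper ℝ X
  have h : ∀ x₀ : X, ∃ V : Set X, x₀ ∈ s → (IsOpen V ∧ x₀ ∈ V ∧ μ {p | ∃ x ∈ V, L x p = c x ∧
      ¬ Function.Injective (fderiv ℝ (fun x => L x p - c x) x)} = 0) := by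
    intro x₀
    by_cases hx : x₀ ∈ s
    · obtain ⟨V, hV⟩ := NP2.local_null μ hdim hs hL hc hsurj hx
      exact ⟨V, fun _ => hV⟩
    · exact ⟨∅, fun h => absurd h hx⟩
  choose V hV using h
  obtain ⟨t, ht, htc, hcov⟩ := TopologicalSpace.countable_cover_nhdsWithin (s := s) (f := V)
    fun x hx => mem_nhdsWithin_of_mem_nhds ((hV x hx).1.mem_nhds (hV x hx).2.1)
  have h0 : μ (⋃ x₀ ∈ t, {p | ∃ x ∈ V x₀, L x p = c x ∧
      ¬ Function.Injective (fderiv ℝ (fun x => L x p - c x) x)}) = 0 :=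
    (measure_biUnion_null_iff htc).2 fun x₀ hx₀ => (hV x₀ (ht hx₀)).2.2
  refine measure_mono_null ?_ h0
  rintro p ⟨x, hx, h1, h2⟩
  obtain ⟨x₀, hx₀, hxV⟩ := mem_iUnion₂.1 (hcov hx)
  exact mem_iUnion₂.2 ⟨x₀, hx₀, x, hxV, h1, h2⟩

end Pool.Agent.Helper34.BI.H


end

/-! ## Helper70.BI.M_PATH -/

section

set_option autoImplicit false

/-!
# Project BI, module PATH: smooth paths with prescribed ends in a connected open set
-/

open scoped Manifold ContDiff Topology ComplexConjugate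
open Set Filter Pool.Agent.Helper65.Barb Pool.Agent.Helper18.BI

namespace Pool.Agent.Helper70.BI

namespace PATH

/-- gluing two smooth curves which agree near the gluing point -/
theorem glue {f₁ f₂ : ℝ → R4} {c ε : ℝ} (hε : 0 < ε) (h₁ : ContDiff ℝ ∞ f₁)
    (h₂ : ContDiff ℝ ∞ f₂) (h : ∀ t, |t - c| < ε → f₁ t = f₂ t) :
    ContDiff ℝ ∞ (fun t => if t < c then f₁ t else f₂ t) := by
  rw [contDiff_iff_contDiffAt]
  intro s
  rcases lt_trichotomy s c with hs | hs | hs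
  · refine h₁.contDiffAt.congr_of_eventuallyEq ?_
    filter_upwards [Iio_mem_nhds hs] with t ht
    exact if_pos ht
  · refine h₂.contDiffAt.congr_of_eventuallyEq ?_
    filter_upwards [Metric.ball_mem_nhds s hε] with t ht
    rw [Metric.mem_ball, Real.dist_eq, hs] at ht
    split_ifs
    · exact h t ht
    · rfl
  · refine h₂.contDiffAt.congr_of_eventuallyEq ?_
    filter_upwards [Ioi_mem_nhds hs] with t ht
    exact if_neg (not_lt.2 (le_of_lt ht))

/-- the relation of step (1) -/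
def Conn (U : Set R4) (x y : R4) : Prop :=
  ∃ g : ℝ → R4, ContDiff ℝ ∞ g ∧ (∀ t, g t ∈ U) ∧ (∀ t, t ≤ 0 → g t = x) ∧ ∀ t, 1 ≤ t → g t = y

theorem Conn.symm {U : Set R4} {x y : R4} (h : Conn U x y) : Conn U y x := by
  obtain ⟨g, h1, h2, h3, h4⟩ := h
  exact ⟨fun t => g (1 - t), h1.comp (contDiff_const.sub contDiff_id), fun t => h2 _,
    fun t ht => h4 _ (by linarith), fun t ht => h3 _ (by linarith)⟩

theorem Conn.trans {U : Set R4} {x y z : R4} (h : Conn U x y) (h' : Conn U y z) :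
    Conn U x z := by
  obtain ⟨g, h1, h2, h3, h4⟩ := h
  obtain ⟨g', h1', h2', h3', h4'⟩ := h'
  refine ⟨fun t => if t < 1 / 2 then g (3 * t) else g' (3 * t - 2),
    glue (ε := 1 / 6) (by norm_num) (h1.comp (contDiff_const.mul contDiff_id))
      (h1'.comp ((contDiff_const.mul contDiff_id).sub contDiff_const)) ?_, ?_, ?_, ?_⟩
  · intro t ht
    rw [abs_lt] at ht
    rw [h4 _ (by linarith [ht.1]), h3' _ (by linarith [ht.2])]
  · intro t
    dsimp only
    split_ifs
    · exact h2 _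
    · exact h2' _
  · intro t ht
    dsimp only
    rw [if_pos (by linarith)]
    exact h3 _ (by linarith)
  · intro t ht
    dsimp only
    rw [if_neg (by linarith)]
    exact h4' _ (by linarith)

theorem conn_of_isPreconnected {U : Set R4} (hU : IsOpen U) (hU' : IsPreconnected U) {x y : R4}
    (hx : x ∈ U) (hy : y ∈ U) : Conn U x y := by
  refine hU'.induction₂ (Conn U) (fun x hx => ?_) (fun x y z _ _ _ h h' => h.trans h')
    (fun x y _ _ h => h.symm) hx hy
  obtain ⟨ε, hε, hb⟩ := Metric.isOpen_iff.1 hU x hx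
  filter_upwards [mem_nhdsWithin_of_mem_nhds (Metric.ball_mem_nhds x hε)] with y hy
  refine ⟨fun t => x + step t • (y - x), contDiff_const.add (contDiff_step.smul contDiff_const),
    fun t => hb ?_, fun t ht => ?_, fun t ht => ?_⟩
  · rw [Metric.mem_ball, dist_eq_norm] at hy ⊢
    rw [add_sub_cancel_left, norm_smul, Real.norm_eq_abs, abs_of_nonneg (step_mem t).1]
    calc step t * ‖y - x‖ ≤ 1 * ‖y - x‖ :=
          mul_le_mul_of_nonneg_right (step_mem t).2 (norm_nonneg _)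
      _ < ε := by rw [one_mul]; exact hy
  · dsimp only
    rw [step_of_nonpos ht, zero_smul, add_zero]
  · dsimp only
    rw [step_of_one_le ht, one_smul, add_sub_cancel]

/-- step (2): the half path at the left end -/
theorem half {U : Set R4} {a₀ η : ℝ} {c : ℝ → R4} (hη : 0 < η) (hc : ContDiff ℝ ∞ c)
    (h : ∀ a ∈ Icc a₀ (a₀ + η), c a ∈ U) :
    ∃ (f : ℝ → R4) (p : R4), ContDiff ℝ ∞ f ∧ p ∈ U ∧ (∀ a, a ≤ a₀ + η / 2 → f a = c a) ∧
      (∀ a, a₀ + 7 * η / 8 ≤ a → f a = p) ∧ ∀ a, a₀ ≤ a → f a ∈ U := by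
  have hk : ContDiff ℝ ∞ (fun a : ℝ =>
      a + (a₀ + 5 * η / 8 - a) * step (8 * (a - a₀ - η / 2) / (3 * η))) := by
    refine contDiff_id.add ((contDiff_const.sub contDiff_id).mul (contDiff_step.comp ?_))
    exact (contDiff_const.mul ((contDiff_id.sub contDiff_const).sub contDiff_const)).div_const _
  have e1 : ∀ a, a ≤ a₀ + η / 2 → step (8 * (a - a₀ - η / 2) / (3 * η)) = 0 := fun a ha =>
    step_of_nonpos (div_nonpos_of_nonpos_of_nonneg (by linarith) (by linarith))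
  have e2 : ∀ a, a₀ + 7 * η / 8 ≤ a → step (8 * (a - a₀ - η / 2) / (3 * η)) = 1 := fun a ha =>
    step_of_one_le ((one_le_div (by linarith)).2 (by linarith))
  have hp : a₀ + 5 * η / 8 ∈ Icc a₀ (a₀ + η) := ⟨by linarith, by linarith⟩
  have e3 : ∀ a, a₀ + 7 * η / 8 ≤ a →
      a + (a₀ + 5 * η / 8 - a) * step (8 * (a - a₀ - η / 2) / (3 * η)) = a₀ + 5 * η / 8 :=
    fun a ha => by rw [e2 a ha]; ring
  refine ⟨_, c (a₀ + 5 * η / 8), hc.comp hk, h _ hp, fun a ha => ?_, fun a ha => ?_,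
    fun a ha => h _ ?_⟩
  · simp only [Function.comp_apply]
    rw [e1 a ha, mul_zero, add_zero]
  · simp only [Function.comp_apply]
    rw [e3 a ha]
  · dsimp only
    rcases le_or_gt a (a₀ + 7 * η / 8) with h7 | h7
    · have h0 := (step_mem (8 * (a - a₀ - η / 2) / (3 * η))).1
      have h1 := (step_mem (8 * (a - a₀ - η / 2) / (3 * η))).2
      generalize step (8 * (a - a₀ - η / 2) / (3 * η)) = s at h0 h1
      constructor <;> nlinarith
    · rw [e3 a h7.le]; exact hp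

end PATH

open PATH in
theorem m_PATH : StPATH := by
  intro U a₀ a₁ η c₀ c₁ hU hU' hη ha hc₀ hc₁ h₀ h₁
  obtain ⟨f, p, hf, hp, f1, f2, f3⟩ := half hη hc₀ h₀
  obtain ⟨g, q, hg, hq, g1, g2, g3⟩ := half (a₀ := -a₁) (c := fun a => c₁ (-a)) hη
    (hc₁.comp contDiff_neg) (fun a ha => h₁ _ ⟨by linarith [ha.2], by linarith [ha.1]⟩)
  obtain ⟨m, hm, m1, m2, m3⟩ := conn_of_isPreconnected hU hU' hp hq
  have hL : 0 < a₁ - a₀ - 2 * η := by linarith
  have k1 : ∀ a, a ≤ a₀ + η → m ((a - (a₀ + η)) / (a₁ - a₀ - 2 * η)) = p := fun a ha =>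
    m2 _ (div_nonpos_of_nonpos_of_nonneg (by linarith) hL.le)
  have k2 : ∀ a, a₁ - η ≤ a → m ((a - (a₀ + η)) / (a₁ - a₀ - 2 * η)) = q := fun a ha =>
    m3 _ ((one_le_div hL).2 (by linarith))
  have s1 : ContDiff ℝ ∞ (fun a => if a < a₁ - 15 * η / 16 then
      m ((a - (a₀ + η)) / (a₁ - a₀ - 2 * η)) else g (-a)) := by
    refine glue (ε := η / 16) (by linarith)
      (hm.comp ((contDiff_id.sub contDiff_const).div_const _)) (hg.comp contDiff_neg) ?_
    intro t ht
    rw [abs_lt] at ht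
    rw [k2 t (by linarith [ht.1]), g2 (-t) (by linarith [ht.2])]
  have s2 := glue (c := a₀ + 15 * η / 16) (ε := η / 16) (by linarith) hf s1 (by
    intro t ht
    rw [abs_lt] at ht
    rw [if_pos (by linarith [ht.2]), k1 t (by linarith [ht.2]), f2 t (by linarith [ht.1])])
  refine ⟨_, s2, fun a h => ?_, fun a h => ?_, fun a h => ?_⟩
  · rw [if_pos (by linarith), f1 a h]
  · rw [if_neg (by linarith), if_neg (by linarith), g1 (-a) (by linarith), neg_neg]
  · split_ifs with h2 h3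
    · exact f3 a h.1
    · exact m1 _
    · exact g3 (-a) (by linarith [h.2])

end Pool.Agent.Helper70.BI


end

/-! ## Helper70.BI.M_R3T -/

section

/-!
# Module R3T: the two factors are theta germs
-/

set_option autoImplicit false

open scoped Manifold ContDiff Topology ComplexConjugate
open Set Filter Pool.Agent.Helper65.Barb Pool.Agent.Helper18.BI

namespace Pool.Agent.Helper70.BI

open Pool.Agent.Helper27.BI (IsKap)

namespace R3T

private theorem rsq_eq (c : ℝ) (p : R4) :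
    rsq c p = (p.2.1 - c) ^ 2 + p.2.2.re ^ 2 + p.2.2.im ^ 2 := rfl

private theorem flat0_le {p : R4} (h : p ∈ flat 0) : p.2.1 ≤ 1 / 5 := by
  have h2 : rsq 0 p ≤ 1 / 25 := h.2
  rw [rsq_eq] at h2
  nlinarith [sq_nonneg p.2.2.re, sq_nonneg p.2.2.im]

private theorem flat1_ge {p : R4} (h : p ∈ flat 1) : 4 / 5 ≤ p.2.1 := by
  have h2 : rsq 1 p ≤ 1 / 25 := h.2
  rw [rsq_eq] at h2
  nlinarith [sq_nonneg p.2.2.re, sq_nonneg p.2.2.im]

private theorem ax_mem_neck {a : ℝ} (h : a ∈ Icc (1 / 5 : ℝ) (4 / 5)) : ax a ∈ neck :=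
  ⟨rfl, h.1, h.2, rfl⟩

private theorem neck_ax {p : R4} (h : p ∈ neck) : ∃ a ∈ Icc (1 / 5 : ℝ) (4 / 5), p = ax a := by
  obtain ⟨h1, h2, h3, h4⟩ := h
  refine ⟨p.2.1, ⟨h2, h3⟩, ?_⟩
  exact Prod.ext h1 (Prod.ext rfl h4)

private theorem fderiv_core {J : R4 → R4} {a : ℝ} (hJ : LD J (ax a)) {c : ℝ → R4} {c' : R4}
    (h : core J =ᶠ[𝓝 a] c) (hc : HasDerivAt c c' a) :
    fderiv ℝ J (ax a) (0, ((1 : ℝ), (0 : ℂ))) = c' := by
  have hd : HasFDerivAt J (fderiv ℝ J (ax a)) (ax a) :=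
    ((ld_iff.1 hJ).1.self_of_nhds.differentiableAt (by simp)).hasFDerivAt
  have hax : HasDerivAt ax (0, ((1 : ℝ), (0 : ℂ))) a :=
    (hasDerivAt_const a (1 / 2 : ℝ)).prodMk ((hasDerivAt_id a).prodMk (hasDerivAt_const a (0 : ℂ)))
  have h1 : HasDerivAt (core J) (fderiv ℝ J (ax a) (0, ((1 : ℝ), (0 : ℂ)))) a :=
    hd.comp_hasDerivAt a hax
  exact h1.unique (hc.congr_of_eventuallyEq h)

private theorem fderiv_id_of {F : R4 → R4} {p : R4} (h : ∀ᶠ q in 𝓝 p, F q = q) :
    fderiv ℝ F p = ContinuousLinearMap.id ℝ R4 := by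
  have h1 : F =ᶠ[𝓝 p] id := h
  rw [h1.fderiv_eq, fderiv_id]

/-- what we need of the pushing map -/
private structure KH (k : R4 → R4) (y z : R3) : Prop where
  inj : Function.Injective k
  ld : ∀ p, LD k p
  fst : ∀ p, (k p).1 = p.1
  far : ∀ p : R4, 17 / 100 ≤ p.2.1 → k p = p
  small : ∀ p, rsq 0 p ≤ 1 / 25 → rsq 0 (k p) ≤ 1 / 25
  ne : ∀ p ∈ flat 0, k p ≠ (1 / 2, z)
  near : ∀ᶠ p in 𝓝 ((1 / 2, y) : R4), k p = p

private theorem core_strand {J : R4 → R4} {d : ℝ} (hJ : IsJ1 J d) :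
    fderiv ℝ J (ax (2 / 5)) (0, ((1 : ℝ), (0 : ℂ))) = (d, 0) := by
  have hm : ax (2 / 5) ∈ FB := Or.inr (ax_mem_neck (by constructor <;> norm_num))
  refine fderiv_core (hJ.loc _ hm) (c := fun a => (1 / 2 + d * (a - 2 / 5), pc 1)) ?_ ?_
  · have : ∀ᶠ a : ℝ in 𝓝 (2 / 5), |a - 2 / 5| < 1 / 100 := by
      have := Metric.ball_mem_nhds (2 / 5 : ℝ) (show (0 : ℝ) < 1 / 100 by norm_num)
      filter_upwards [this] with a ha
      simpa [Real.dist_eq] using ha
    filter_upwards [this] with a ha using hJ.strand a ha.le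
  · have h1 : HasDerivAt (fun a : ℝ => 1 / 2 + d * (a - 2 / 5)) d (2 / 5) := by
      have := (((hasDerivAt_id (2 / 5 : ℝ)).sub_const (2 / 5)).const_mul d).const_add (1 / 2)
      simpa using this
    exact h1.prodMk (hasDerivAt_const _ _)

private theorem core_para {J : R4 → R4} {d : ℝ} (hJ : IsJ1 J d) {γ : ℝ}
    (hγ : |γ - 3 / 5| < 3 / 200) :
    fderiv ℝ J (ax γ) (0, ((1 : ℝ), (0 : ℂ))) = (-20 * (100 * (γ - 3 / 5)), ((0 : ℝ), (5 : ℂ))) := by
  have hm : ax γ ∈ FB := Or.inr (ax_mem_neck (by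
    rw [abs_lt] at hγ
    constructor <;> linarith [hγ.1, hγ.2]))
  refine fderiv_core (hJ.loc _ hm) (c := fun a => (1 / 2 + (1 - (100 * (a - 3 / 5)) ^ 2) / 10,
      ((0 : ℝ), (((1 + 100 * (a - 3 / 5)) / 20 : ℝ) : ℂ)))) ?_ ?_
  · have : ∀ᶠ a : ℝ in 𝓝 γ, |a - 3 / 5| < 3 / 200 := by
      have hc : Continuous fun a : ℝ => |a - 3 / 5| := by fun_prop
      exact hc.continuousAt.eventually (gt_mem_nhds hγ)
    filter_upwards [this] with a ha using hJ.para a ha.le
  · have h0 : HasDerivAt (fun a : ℝ => 100 * (a - 3 / 5)) 100 γ := by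
      simpa using ((hasDerivAt_id γ).sub_const (3 / 5)).const_mul 100
    have h1 : HasDerivAt (fun a : ℝ => 1 / 2 + (1 - (100 * (a - 3 / 5)) ^ 2) / 10)
        (-20 * (100 * (γ - 3 / 5))) γ := by
      have := (((h0.pow 2).const_sub 1).div_const 10).const_add (1 / 2)
      refine this.congr_deriv ?_
      simp
      ring
    have h2 : HasDerivAt (fun a : ℝ => (((1 + 100 * (a - 3 / 5)) / 20 : ℝ) : ℂ)) 5 γ := by
      have h3 : HasDerivAt (fun a : ℝ => (1 + 100 * (a - 3 / 5)) / 20) 5 γ := by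
        refine ((h0.const_add 1).div_const 20).congr_deriv ?_
        norm_num
      exact_mod_cast h3.ofReal_comp
    exact h1.prodMk ((hasDerivAt_const _ _).prodMk h2)

private theorem core_end0 {J : R4 → R4} {d : ℝ} (hJ : IsJ1 J d) : core J (1 / 5) = ax (1 / 5) :=
  hJ.ends _ (Or.inl (by change (1 / 5 : ℝ) ≤ 9 / 40; norm_num))

private theorem core_end1 {J : R4 → R4} {d : ℝ} (hJ : IsJ1 J d) : core J (4 / 5) = ax (4 / 5) :=
  hJ.ends _ (Or.inr (by change (31 / 40 : ℝ) ≤ 4 / 5; norm_num))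

private theorem core_flat0 {J : R4 → R4} {d : ℝ} (hJ : IsJ1 J d) {a : ℝ}
    (ha : a ∈ Icc (1 / 5 : ℝ) (4 / 5)) (h : core J a ∈ flat 0) :
    a = 1 / 5 ∨ a = 59 / 100 ∨ a = 61 / 100 := by
  rcases eq_or_lt_of_le ha.1 with h1 | h1
  · exact Or.inl h1.symm
  rcases eq_or_lt_of_le ha.2 with h2 | h2
  · rw [h2, core_end1 hJ] at h
    have h3 : (4 / 5 : ℝ) ≤ 1 / 5 := flat0_le h
    norm_num at h3
  by_cases h3 : |a - 2 / 5| ≤ 1 / 100
  · rw [hJ.strand a h3] at h
    have h4 : (1 : ℝ) ≤ 1 / 5 := flat0_le h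
    norm_num at h4
  by_cases h4 : |a - 3 / 5| ≤ 3 / 200
  · rw [hJ.para a h4] at h
    have h5 : 1 / 2 + (1 - (100 * (a - 3 / 5)) ^ 2) / 10 = 1 / 2 := h.1
    have h6 : (100 * (a - 3 / 5) - 1) * (100 * (a - 3 / 5) + 1) = 0 := by linarith
    rcases mul_eq_zero.1 h6 with h7 | h7
    · right; right; linarith
    · right; left; linarith
  · rcases hJ.off a ⟨h1, h2⟩ (not_le.1 h3) (not_le.1 h4) with h5 | h5
    · exact absurd h.1 h5
    · linarith [flat0_le h, h5.1]

private theorem core_flat1 {J : R4 → R4} {d : ℝ} (hd : d = 1 ∨ d = -1) (hJ : IsJ1 J d) {a : ℝ}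
    (ha : a ∈ Icc (1 / 5 : ℝ) (4 / 5)) (h : core J a ∈ flat 1) : a = 4 / 5 ∨ a = 2 / 5 := by
  rcases eq_or_lt_of_le ha.2 with h2 | h2
  · exact Or.inl h2
  rcases eq_or_lt_of_le ha.1 with h1 | h1
  · rw [← h1, core_end0 hJ] at h
    have h3 : (4 / 5 : ℝ) ≤ 1 / 5 := flat1_ge h
    norm_num at h3
  by_cases h3 : |a - 2 / 5| ≤ 1 / 100
  · rw [hJ.strand a h3] at h
    have h4 : 1 / 2 + d * (a - 2 / 5) = 1 / 2 := h.1
    right
    rcases hd with rfl | rfl <;> linarith
  by_cases h4 : |a - 3 / 5| ≤ 3 / 200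
  · rw [hJ.para a h4] at h
    have h5 : (4 / 5 : ℝ) ≤ 0 := flat1_ge h
    norm_num at h5
  · rcases hJ.off a ⟨h1, h2⟩ (not_le.1 h3) (not_le.1 h4) with h5 | h5
    · exact absurd h.1 h5
    · linarith [flat1_ge h, h5.2]

private theorem main (hDET : StDET) {J : R4 → R4} {d : ℝ} (hd : d = 1 ∨ d = -1) (hJ : IsJ1 J d)
    {k : R4 → R4} {y z : R3} (hk : KH k y z) {γ γ' e l : ℝ} {v : R3}
    (hγ : core J γ = (1 / 2, y)) (hγ' : core J γ' = (1 / 2, z)) (hy1 : y.1 = 0)
    (hy2 : nsq y < 1 / 25)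
    (hset : ∀ a ∈ Icc (1 / 5 : ℝ) (4 / 5), core J a ∈ flat 0 → a = 1 / 5 ∨ a = γ ∨ a = γ')
    (hγm : γ ∈ Ioo (2 / 5 : ℝ) (4 / 5)) (hel : 0 < e * l)
    (hder : fderiv ℝ J (ax γ) (0, ((1 : ℝ), (0 : ℂ))) = (l, v)) :
    Theta (fun p => J (k p)) γ (2 / 5) e d ∧
      0 < (fderiv ℝ (fun p => J (k p)) (ax (1 / 2))).det := by
  have kflat : ∀ p ∈ flat 0, k p ∈ flat 0 := fun p hp => ⟨(hk.fst p).trans hp.1, hk.small p hp.2⟩
  have k1 : ∀ p ∈ flat 1, k p = p := fun p hp => hk.far p (by linarith [flat1_ge hp])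
  have kn : ∀ p ∈ neck, k p = p := fun p hp => hk.far p (by linarith [hp.2.1])
  have F0 : ∀ p ∈ flat 0, J (k p) = k p := fun p hp =>
    hJ.ends _ (Or.inl (by linarith [flat0_le (kflat p hp)]))
  have F1 : ∀ p ∈ flat 1, J (k p) = p := fun p hp => by
    rw [k1 p hp]
    exact hJ.ends _ (Or.inr (by linarith [flat1_ge hp]))
  have Fn : ∀ p ∈ neck, J (k p) = J p := fun p hp => by rw [kn p hp]
  have Fc : ∀ a ∈ Icc (1 / 5 : ℝ) (4 / 5), core (fun p => J (k p)) a = core J a := fun a ha =>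
    Fn _ (ax_mem_neck ha)
  have kFB : ∀ p ∈ FB, k p ∈ FB := by
    rintro p ((hp | hp) | hp)
    · exact Or.inl (Or.inl (kflat p hp))
    · rw [k1 p hp]; exact Or.inl (Or.inr hp)
    · rw [kn p hp]; exact Or.inr hp
  have loc : ∀ p ∈ FB, LD (fun p => J (k p)) p := fun p hp =>
    ld_comp (hk.ld p) (hJ.loc _ (kFB p hp))
  have s0 : sph 0 ⊆ flat 0 := fun p hp => ⟨hp.1, hp.2.le⟩
  have s1 : sph 1 ⊆ flat 1 := fun p hp => ⟨hp.1, hp.2.le⟩
  have disj : ∀ p, p ∈ flat 0 → p ∈ flat 1 → False := fun p h0 h1 => by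
    linarith [flat0_le h0, flat1_ge h1]
  have injF : InjOn (fun p => J (k p)) (flat 0 ∪ flat 1) := by
    rintro p (hp | hp) q (hq | hq) h
    · simp only [F0 p hp, F0 q hq] at h
      exact hk.inj h
    · simp only [F0 p hp, F1 q hq] at h
      exact (disj q (h ▸ kflat p hp) hq).elim
    · simp only [F1 p hp, F0 q hq] at h
      exact (disj p (h ▸ kflat q hq) hp).elim
    · simp only [F1 p hp, F1 q hq] at h
      exact h
  have hyk : k (1 / 2, y) = (1 / 2, y) := hk.near.self_of_nhds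
  -- mixed pairs
  have mix0 : ∀ p ∈ sph 0, ∀ q ∈ neck, J (k p) = J (k q) → p = q := by
    intro p hp q hq h
    obtain ⟨a, ha, rfl⟩ := neck_ax hq
    have h1 : k p = core J a := by
      rw [F0 p (s0 hp), Fn _ hq] at h
      exact h
    have h2 : core J a ∈ flat 0 := h1 ▸ kflat p (s0 hp)
    rcases hset a ha h2 with h3 | h3 | h3
    · rw [h3, core_end0 hJ] at h1
      rw [h3]
      apply hk.inj
      rw [h1, kn _ (ax_mem_neck (by constructor <;> norm_num))]
    · rw [h3, hγ, ← hyk] at h1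
      have h4 := hk.inj h1
      have h5 : rsq 0 p = 1 / 25 := hp.2
      rw [h4] at h5
      have h6 : rsq 0 (1 / 2, y) = nsq y := by
        simp only [rsq, sub_zero]
      linarith
    · rw [h3, hγ'] at h1
      exact (hk.ne p (s0 hp) h1).elim
  have mix1 : ∀ p ∈ sph 1, ∀ q ∈ neck, J (k p) = J (k q) → p = q := by
    intro p hp q hq h
    obtain ⟨a, ha, rfl⟩ := neck_ax hq
    have h1 : p = core J a := by
      rw [F1 p (s1 hp), Fn _ hq] at h
      exact h
    have h2 : core J a ∈ flat 1 := h1 ▸ s1 hp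
    rcases core_flat1 hd hJ ha h2 with h3 | h3
    · rw [h1, h3, core_end1 hJ]
    · have h4 := hJ.strand (2 / 5) (by norm_num)
      rw [h1, h3, h4] at hp
      have h5 : rsq 1 (1 / 2 + d * (2 / 5 - 2 / 5), pc 1) = 1 / 25 := hp.2
      rw [rsq_eq] at h5
      simp only [pc, Complex.zero_re, Complex.zero_im] at h5
      norm_num at h5
  have inj : InjOn (fun p => J (k p)) SP := by
    have hs : ∀ p, p ∈ sph 0 ∪ sph 1 → p ∈ flat 0 ∪ flat 1 := by
      rintro p (hp | hp)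
      · exact Or.inl (s0 hp)
      · exact Or.inr (s1 hp)
    rintro p (hp | hp) q (hq | hq) h
    · exact injF (hs p hp) (hs q hq) h
    · rcases hp with hp | hp
      · exact mix0 p hp q hq h
      · exact mix1 p hp q hq h
    · rcases hq with hq | hq
      · exact (mix0 q hq p hp h.symm).symm
      · exact (mix1 q hq p hp h.symm).symm
    · simp only [Fn p hp, Fn q hq] at h
      exact hJ.inj (Or.inr hp) (Or.inr hq) h
  have himg0 : (fun p => J (k p)) '' flat 0 ⊆ flat 0 := by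
    rintro _ ⟨p, hp, rfl⟩
    change J (k p) ∈ flat 0
    rw [F0 p hp]; exact kflat p hp
  have himg1 : (fun p => J (k p)) '' flat 1 ⊆ flat 1 := by
    rintro _ ⟨p, hp, rfl⟩
    change J (k p) ∈ flat 1
    rw [F1 p hp]; exact hp
  have hγI : γ ∈ Icc (1 / 5 : ℝ) (4 / 5) := ⟨by linarith [hγm.1], hγm.2.le⟩
  -- near points of the neck `F = J`
  have nearn : ∀ a : ℝ, 17 / 100 < a → (fun p => J (k p)) =ᶠ[𝓝 (ax a)] J := by
    intro a ha
    have hc : ContinuousAt (fun p : R4 => p.2.1) (ax a) := by fun_prop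
    filter_upwards [hc.eventually (lt_mem_nhds (show 17 / 100 < (ax a).2.1 from ha))] with p hp
    rw [hk.far p hp.le]
  refine ⟨⟨⟨?_, inj, ?_, ⟨by linarith [hγm.1], hγm.2⟩, ?_, ?_⟩,
    ⟨?_, inj, ?_, by constructor <;> norm_num, ?_, ?_⟩, ?_, hγm.1⟩, ?_⟩
  · rintro p (((hp | hp) | hp) | hp)
    · exact loc p (Or.inl (Or.inl (s0 hp)))
    · exact loc p (Or.inl (Or.inr (s1 hp)))
    · exact loc p (Or.inr hp)
    · exact loc p (Or.inl (Or.inl hp))
  · rw [sub_zero]
    exact injF.mono (union_subset_union Subset.rfl s1)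
  · refine ⟨y, ?_, ?_, l, v, hel, ?_⟩
    · have : y - pc 0 = y := by
        simp only [pc]
        exact sub_zero y
      rw [this]; exact hy2
    · rw [Fc γ hγI, hγ]
      change _ = J (k (1 / 2, y))
      rw [hyk]
      exact (hJ.ends _ (Or.inl (by change y.1 ≤ _; rw [hy1]; norm_num))).symm
    · rw [(nearn γ (by linarith [hγm.1])).fderiv_eq, hder, fderiv_id_of]
      · rfl
      · have hc : ContinuousAt (fun p : R4 => p.2.1) ((1 / 2, y) : R4) := by fun_prop
        have h1 : ((1 / 2, y) : R4).2.1 < 9 / 40 := by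
          change y.1 < _
          rw [hy1]; norm_num
        filter_upwards [hk.near, hc.eventually (gt_mem_nhds h1)] with q e1 e2
        rw [e1]
        exact hJ.ends _ (Or.inl e2.le)
  · intro a ha h
    rw [Fc a ha] at h
    rcases hset a ha (himg0 h) with h3 | h3 | h3
    · left; rw [h3]; norm_num
    · right; exact h3
    · exfalso
      rw [h3, hγ'] at h
      obtain ⟨p, hp, h4⟩ := h
      simp only [F0 p hp] at h4
      exact hk.ne p hp h4
  · rintro p (((hp | hp) | hp) | hp)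
    · exact loc p (Or.inl (Or.inl (s0 hp)))
    · exact loc p (Or.inl (Or.inr (s1 hp)))
    · exact loc p (Or.inr hp)
    · exact loc p (Or.inl (Or.inr hp))
  · rw [sub_self]
    rw [union_comm]
    exact injF.mono (union_subset_union s0 Subset.rfl)
  · have h25 : (2 / 5 : ℝ) ∈ Icc (1 / 5 : ℝ) (4 / 5) := by constructor <;> norm_num
    have hc1 : core J (2 / 5) = (1 / 2, pc 1) := by
      rw [hJ.strand (2 / 5) (by norm_num)]
      simp
    have hm1 : ((1 / 2, pc 1) : R4) ∈ flat 1 := by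
      refine ⟨rfl, ?_⟩
      rw [rsq_eq]
      simp only [pc, Complex.zero_re, Complex.zero_im]
      norm_num
    refine ⟨pc 1, ?_, ?_, d, 0, ?_, ?_⟩
    · rw [sub_self]
      simp only [nsq, Prod.fst_zero, Prod.snd_zero, Complex.zero_re, Complex.zero_im]
      norm_num
    · rw [Fc _ h25, hc1]
      exact (F1 _ hm1).symm
    · rcases hd with rfl | rfl <;> norm_num
    · rw [(nearn (2 / 5) (by norm_num)).fderiv_eq, core_strand hJ, fderiv_id_of]
      · rfl
      · have hc : ContinuousAt (fun p : R4 => p.2.1) ((1 / 2, pc 1) : R4) := by fun_prop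
        have h1 : 31 / 40 < ((1 / 2, pc 1) : R4).2.1 := by
          change (31 / 40 : ℝ) < 1
          norm_num
        filter_upwards [hc.eventually (lt_mem_nhds h1)] with q e2
        rw [hk.far q (by linarith)]
        exact hJ.ends _ (Or.inr e2.le)
  · intro a ha h
    rw [Fc a ha] at h
    rcases core_flat1 hd hJ ha (himg1 h) with h3 | h3
    · left; rw [h3]; norm_num
    · right; exact h3
  · rw [Set.disjoint_left]
    intro q h0 h1
    exact disj q (himg0 h0) (himg1 h1)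
  · refine hDET _ FB (Or.inl rfl) loc (ax (1 / 5))
      (Or.inr (ax_mem_neck (by constructor <;> norm_num))) (ax (1 / 2))
      (Or.inr (ax_mem_neck (by constructor <;> norm_num))) ?_
    rw [(nearn (1 / 5) (by norm_num)).fderiv_eq, fderiv_id_of]
    · simp [ContinuousLinearMap.det]
    · have hc : ContinuousAt (fun p : R4 => p.2.1) (ax (1 / 5)) := by fun_prop
      have h1 : (ax (1 / 5)).2.1 < 9 / 40 := by
        change (1 / 5 : ℝ) < _
        norm_num
      filter_upwards [hc.eventually (gt_mem_nhds h1)] with q e2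
      exact hJ.ends _ (Or.inl e2.le)

private theorem flat_ball {p : R4} (hp : p ∈ flat 0) : p ∈ ball4 := by
  refine ⟨by rw [hp.1]; norm_num, by rw [hp.1]; norm_num, ?_⟩
  linarith [hp.2]

private theorem isKap_KH {x₀ y : R3} {δ r : ℝ} {k : R4 → R4} (hr : 0 < r) (h : IsKap x₀ δ r k)
    (hf : ∀ p : R4, 17 / 100 ≤ p.2.1 → k p = p) (hy : δ < ‖y.2 - x₀.2‖) : KH k y x₀ where
  inj := fun p q hpq => h.emb.2 (mem_univ p) (mem_univ q) hpq
  ld := fun p => h.emb.1 p (mem_univ p)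
  fst := h.fst
  far := hf
  small := h.small
  ne := by
    intro p hp he
    apply h.away p (flat_ball hp)
    rw [he]
    change nsq (x₀ - x₀) < r ^ 2
    rw [sub_self]
    simp only [nsq, Prod.fst_zero, Prod.snd_zero, Complex.zero_re, Complex.zero_im]
    have := pow_pos hr 2
    linarith
  near := by
    have hc : ContinuousAt (fun p : R4 => ‖p.2.2 - x₀.2‖) ((1 / 2, y) : R4) := by fun_prop
    filter_upwards [hc.eventually (lt_mem_nhds (show δ < ‖((1 / 2, y) : R4).2.2 - x₀.2‖ from hy))]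
      with p hp
    exact h.off_w p hp.le

end R3T

theorem m_R3T (hDET : StDET) : StR3T := by
  intro J d r k1 k2 hd hJ hr h1 h2 hf _
  have e59 : core J (59 / 100) = (1 / 2, (0 : R3)) := by
    rw [hJ.para (59 / 100) (by rw [abs_le]; constructor <;> norm_num)]
    norm_num
  have e61 : core J (61 / 100) = (1 / 2, x2) := by
    rw [hJ.para (61 / 100) (by rw [abs_le]; constructor <;> norm_num)]
    norm_num [x2]
  have n10 : ‖((1 / 10 : ℝ) : ℂ)‖ = 1 / 10 := by
    rw [Complex.norm_real]; norm_num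
  refine ⟨?_, ?_⟩
  · refine R3T.main hDET hd hJ (R3T.isKap_KH (y := 0) hr h1 (fun p hp => (hf p hp).1) ?_) e59 e61 rfl
      ?_ ?_ (by constructor <;> norm_num) (l := 20) (v := ((0 : ℝ), (5 : ℂ))) (by norm_num) ?_
    · change 1 / 80 < ‖(0 : ℂ) - ((1 / 10 : ℝ) : ℂ)‖
      rw [zero_sub, norm_neg, n10]; norm_num
    · simp only [nsq, Prod.fst_zero, Prod.snd_zero, Complex.zero_re, Complex.zero_im]
      norm_num
    · intro a ha h
      exact R3T.core_flat0 hJ ha h
    · rw [R3T.core_para hJ (by rw [abs_lt]; constructor <;> norm_num)]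
      norm_num
  · refine R3T.main hDET hd hJ (R3T.isKap_KH (y := x2) hr h2 (fun p hp => (hf p hp).2) ?_) e61 e59 rfl
      ?_ ?_ (by constructor <;> norm_num) (l := -20) (v := ((0 : ℝ), (5 : ℂ))) (by norm_num) ?_
    · change 1 / 80 < ‖((1 / 10 : ℝ) : ℂ) - (0 : ℂ)‖
      rw [sub_zero, n10]; norm_num
    · simp only [nsq, x2, Complex.ofReal_re, Complex.ofReal_im]
      norm_num
    · intro a ha h
      rcases R3T.core_flat0 hJ ha h with h3 | h3 | h3
      · exact Or.inl h3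
      · exact Or.inr (Or.inr h3)
      · exact Or.inr (Or.inl h3)
    · rw [R3T.core_para hJ (by rw [abs_lt]; constructor <;> norm_num)]
      norm_num

end Pool.Agent.Helper70.BI


end

/-! ## Helper70.BI.M_ROT -/

section

/-!
# Project BI, part (E): module ROT (rotation about `sph 1`)
-/

set_option autoImplicit false

open scoped Manifold ContDiff Topology ComplexConjugate
open Set Filter Pool.Agent.Helper65.Barb Pool.Agent.Helper18.BI

namespace Pool.Agent.Helper70.BI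

namespace ROT

/-- the distance from the vertical line through the centre -/
noncomputable def rho (p : R4) : ℝ := √(rsq 1 p)

/-- the angle -/
noncomputable def th (d ε t : ℝ) (p : R4) : ℝ :=
  2 * Real.pi * d * t * step (4 / 3 * (1 - tr p / ε ^ 2))

/-- the rotation by the angle `θ` -/
noncomputable def fo (θ : ℝ) (p : R4) : R4 :=
  (1 / 2 + (Real.cos θ * (p.1 - 1 / 2) - Real.sin θ * (rho p - 1 / 5)),
    pc 1 + ((1 / 5 + (Real.sin θ * (p.1 - 1 / 2) + Real.cos θ * (rho p - 1 / 5))) / rho p) •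
      (p.2 - pc 1))

open Classical in
/-- the family -/
noncomputable def Rf (d ε : ℝ) (z : ℝ × R4) : R4 :=
  if 1 / 10 < rho z.2 then fo (th d ε z.1 z.2) z.2 else z.2

theorem tr_def (p : R4) : tr p = (p.1 - 1 / 2) ^ 2 + (rho p - 1 / 5) ^ 2 := rfl

theorem rho_nonneg (p : R4) : 0 ≤ rho p := Real.sqrt_nonneg _

theorem rho_sq (p : R4) : rho p ^ 2 = rsq 1 p := Real.sq_sqrt (rsq_nonneg 1 p)

theorem rsq_eq_nsq (p : R4) : rsq 1 p = nsq (p.2 - pc 1) := by
  simp [rsq, nsq, pc]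

theorem nsq_smul_ROT (k : ℝ) (x : R3) : nsq (k • x) = k ^ 2 * nsq x := by
  simp only [nsq, Prod.smul_fst, Prod.smul_snd, smul_eq_mul, Complex.smul_re, Complex.smul_im]
  ring

theorem fo_zero {p : R4} (h : 0 < rho p) : fo 0 p = p := by
  have h1 : (1 / 5 + (Real.sin 0 * (p.1 - 1 / 2) + Real.cos 0 * (rho p - 1 / 5))) / rho p = 1 := by
    rw [Real.sin_zero, Real.cos_zero]
    have : 1 / 5 + (0 * (p.1 - 1 / 2) + 1 * (rho p - 1 / 5)) = rho p := by ring
    rw [this, div_self h.ne']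
  unfold fo
  rw [h1, one_smul, Real.sin_zero, Real.cos_zero]
  refine Prod.ext ?_ ?_
  · change 1 / 2 + (1 * (p.1 - 1 / 2) - 0 * (rho p - 1 / 5)) = p.1
    ring
  · change pc 1 + (p.2 - pc 1) = p.2
    abel

theorem rho_fo {θ : ℝ} {p : R4} (h : 0 < rho p)
    (hw : 0 ≤ 1 / 5 + (Real.sin θ * (p.1 - 1 / 2) + Real.cos θ * (rho p - 1 / 5))) :
    rho (fo θ p) = 1 / 5 + (Real.sin θ * (p.1 - 1 / 2) + Real.cos θ * (rho p - 1 / 5)) := by
  have h1 : rsq 1 (fo θ p) =
      (1 / 5 + (Real.sin θ * (p.1 - 1 / 2) + Real.cos θ * (rho p - 1 / 5))) ^ 2 := by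
    rw [rsq_eq_nsq]
    have h2 : (fo θ p).2 - pc 1 =
        ((1 / 5 + (Real.sin θ * (p.1 - 1 / 2) + Real.cos θ * (rho p - 1 / 5))) / rho p) •
          (p.2 - pc 1) := add_sub_cancel_left _ _
    rw [h2, nsq_smul_ROT, ← rsq_eq_nsq, ← rho_sq, div_pow, div_mul_cancel₀ _ (pow_ne_zero 2 h.ne')]
  change √(rsq 1 (fo θ p)) = _
  rw [h1, Real.sqrt_sq hw]

theorem tr_fo {θ : ℝ} {p : R4} (h : 0 < rho p)
    (hw : 0 ≤ 1 / 5 + (Real.sin θ * (p.1 - 1 / 2) + Real.cos θ * (rho p - 1 / 5))) :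
    tr (fo θ p) = tr p := by
  rw [tr_def, tr_def, rho_fo h hw]
  have h1 : (fo θ p).1 = 1 / 2 + (Real.cos θ * (p.1 - 1 / 2) - Real.sin θ * (rho p - 1 / 5)) := rfl
  rw [h1]
  linear_combination ((p.1 - 1 / 2) ^ 2 + (rho p - 1 / 5) ^ 2) * Real.sin_sq_add_cos_sq θ

theorem fo_fo {θ : ℝ} {p : R4} (h : 0 < rho p)
    (hw : 0 < 1 / 5 + (Real.sin θ * (p.1 - 1 / 2) + Real.cos θ * (rho p - 1 / 5))) :
    fo (-θ) (fo θ p) = p := by
  have h0 := rho_fo h hw.le
  have h1 : (fo θ p).1 = 1 / 2 + (Real.cos θ * (p.1 - 1 / 2) - Real.sin θ * (rho p - 1 / 5)) := rfl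
  have h2 : (fo θ p).2 - pc 1 =
      ((1 / 5 + (Real.sin θ * (p.1 - 1 / 2) + Real.cos θ * (rho p - 1 / 5))) / rho p) •
        (p.2 - pc 1) := add_sub_cancel_left _ _
  have hs := Real.sin_sq_add_cos_sq θ
  have e1 : Real.cos (-θ) * ((fo θ p).1 - 1 / 2) - Real.sin (-θ) * (rho (fo θ p) - 1 / 5) =
      p.1 - 1 / 2 := by
    rw [Real.cos_neg, Real.sin_neg, h0, h1]
    linear_combination (p.1 - 1 / 2) * hs
  have e2 : Real.sin (-θ) * ((fo θ p).1 - 1 / 2) + Real.cos (-θ) * (rho (fo θ p) - 1 / 5) =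
      rho p - 1 / 5 := by
    rw [Real.cos_neg, Real.sin_neg, h0, h1]
    linear_combination (rho p - 1 / 5) * hs
  have e3 : fo (-θ) (fo θ p) = (1 / 2 + (Real.cos (-θ) * ((fo θ p).1 - 1 / 2) -
      Real.sin (-θ) * (rho (fo θ p) - 1 / 5)), pc 1 + ((1 / 5 + (Real.sin (-θ) * ((fo θ p).1 - 1 / 2) +
        Real.cos (-θ) * (rho (fo θ p) - 1 / 5))) / rho (fo θ p)) • ((fo θ p).2 - pc 1)) := rfl
  rw [e3, e1, e2, h0, h2, smul_smul]
  have e4 : (1 / 5 + (rho p - 1 / 5)) /
      (1 / 5 + (Real.sin θ * (p.1 - 1 / 2) + Real.cos θ * (rho p - 1 / 5))) *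
      ((1 / 5 + (Real.sin θ * (p.1 - 1 / 2) + Real.cos θ * (rho p - 1 / 5))) / rho p) = 1 := by
    have : 1 / 5 + (rho p - 1 / 5) = rho p := by ring
    rw [this, div_mul_div_cancel₀ hw.ne', div_self h.ne']
  rw [e4, one_smul]
  refine Prod.ext ?_ ?_
  · change 1 / 2 + (p.1 - 1 / 2) = p.1
    ring
  · change pc 1 + (p.2 - pc 1) = p.2
    abel

theorem w_pos {p : R4} (θ : ℝ) (h : tr p < (1 / 20) ^ 2) :
    1 / 10 < 1 / 5 + (Real.sin θ * (p.1 - 1 / 2) + Real.cos θ * (rho p - 1 / 5)) := by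
  rw [tr_def] at h
  have hs := Real.sin_sq_add_cos_sq θ
  have h1 : (Real.sin θ * (p.1 - 1 / 2) + Real.cos θ * (rho p - 1 / 5)) ^ 2 < (1 / 20) ^ 2 := by
    have h2 : (Real.sin θ * (p.1 - 1 / 2) + Real.cos θ * (rho p - 1 / 5)) ^ 2 +
        (Real.cos θ * (p.1 - 1 / 2) - Real.sin θ * (rho p - 1 / 5)) ^ 2 =
        (p.1 - 1 / 2) ^ 2 + (rho p - 1 / 5) ^ 2 := by
      linear_combination ((p.1 - 1 / 2) ^ 2 + (rho p - 1 / 5) ^ 2) * hs
    nlinarith [sq_nonneg (Real.cos θ * (p.1 - 1 / 2) - Real.sin θ * (rho p - 1 / 5))]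
  have h3 := (abs_lt_of_sq_lt_sq' h1 (by norm_num)).1
  linarith

theorem rho_of_tr {p : R4} (h : tr p < (1 / 20) ^ 2) : 3 / 20 < rho p := by
  rw [tr_def] at h
  have h1 : (rho p - 1 / 5) ^ 2 < (1 / 20) ^ 2 := by nlinarith [sq_nonneg (p.1 - 1 / 2)]
  have h3 := (abs_lt_of_sq_lt_sq' h1 (by norm_num)).1
  linarith

section
variable {d ε : ℝ}

theorem sq_lt (hε : ε ∈ Ioo (0 : ℝ) (1 / 20)) : ε ^ 2 < (1 / 20) ^ 2 :=
  pow_lt_pow_left₀ hε.2 hε.1.le two_ne_zero

theorem th_of_ge (hε : ε ∈ Ioo (0 : ℝ) (1 / 20)) (t : ℝ) {p : R4} (h : ε ^ 2 ≤ tr p) :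
    th d ε t p = 0 := by
  have h1 : 1 ≤ tr p / ε ^ 2 := (one_le_div (pow_pos hε.1 2)).2 h
  unfold th
  rw [step_of_nonpos (by linarith), mul_zero]

theorem Rf_fix (hε : ε ∈ Ioo (0 : ℝ) (1 / 20)) (t : ℝ) {p : R4} (h : ε ^ 2 ≤ tr p) :
    Rf d ε (t, p) = p := by
  unfold Rf
  split_ifs with h1
  · change fo (th d ε t p) p = p
    rw [th_of_ge hε t h]
    exact fo_zero (lt_trans (by norm_num) h1)
  · rfl

theorem Rf_in (hε : ε ∈ Ioo (0 : ℝ) (1 / 20)) (t : ℝ) {p : R4} (h : tr p < ε ^ 2) :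
    Rf d ε (t, p) = fo (th d ε t p) p := by
  unfold Rf
  exact if_pos (lt_trans (by norm_num) (rho_of_tr (h.trans (sq_lt hε))))

theorem tr_Rf (hε : ε ∈ Ioo (0 : ℝ) (1 / 20)) (t : ℝ) (p : R4) : tr (Rf d ε (t, p)) = tr p := by
  rcases lt_or_ge (tr p) (ε ^ 2) with h | h
  · rw [Rf_in hε t h]
    have h' := h.trans (sq_lt hε)
    exact tr_fo (lt_trans (by norm_num) (rho_of_tr h')) (le_trans (by norm_num) (w_pos _ h').le)
  · rw [Rf_fix hε t h]

theorem th_neg (t : ℝ) (p : R4) : th (-d) ε t p = -th d ε t p := by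
  unfold th
  ring

theorem Rf_inv (hε : ε ∈ Ioo (0 : ℝ) (1 / 20)) (t : ℝ) (p : R4) :
    Rf (-d) ε (t, Rf d ε (t, p)) = p := by
  rcases lt_or_ge (tr p) (ε ^ 2) with h | h
  · have h' := h.trans (sq_lt hε)
    have ht := tr_Rf (d := d) hε t p
    rw [Rf_in hε t (by rw [ht]; exact h), th_neg]
    have h2 : th d ε t (Rf d ε (t, p)) = th d ε t p := by
      unfold th
      rw [ht]
    rw [h2, Rf_in hε t h]
    exact fo_fo (lt_trans (by norm_num) (rho_of_tr h')) (lt_trans (by norm_num) (w_pos _ h'))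
  · rw [Rf_fix hε t h, Rf_fix hε t h]

theorem continuous_rho : Continuous rho := (continuous_rsq 1).sqrt

theorem contDiffAt_rho {p : R4} (h : 0 < rho p) : ContDiffAt ℝ ∞ rho p :=
  (contDiff_rsq 1).contDiffAt.sqrt (Real.sqrt_pos.1 h).ne'

theorem contDiff_Rf (hε : ε ∈ Ioo (0 : ℝ) (1 / 20)) : ContDiff ℝ ∞ (Rf d ε) := by
  rw [contDiff_iff_contDiffAt]
  intro z
  have hc : Continuous (fun z : ℝ × R4 => rho z.2) := continuous_rho.comp continuous_snd
  rcases lt_or_ge (1 / 10) (rho z.2) with h | h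
  · have h0 : 0 < rho z.2 := lt_trans (by norm_num) h
    have c1 : ContDiffAt ℝ ∞ (fun z : ℝ × R4 => rho z.2) z :=
      ContDiffAt.comp (g := rho) z (contDiffAt_rho h0) contDiffAt_snd
    have c2 : ContDiffAt ℝ ∞ (fun z : ℝ × R4 => z.2.1) z := contDiffAt_snd.fst
    have c3 : ContDiffAt ℝ ∞ (fun z : ℝ × R4 => tr z.2) z :=
      ((c2.sub contDiffAt_const).pow 2).add ((c1.sub contDiffAt_const).pow 2)
    have c4 : ContDiffAt ℝ ∞ (fun z : ℝ × R4 => th d ε z.1 z.2) z :=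
      (contDiffAt_const.mul contDiffAt_fst).mul (ContDiffAt.comp z contDiff_step.contDiffAt
        (contDiffAt_const.mul (contDiffAt_const.sub (c3.div_const _))))
    have c5 : ContDiffAt ℝ ∞ (fun z : ℝ × R4 => Real.cos (th d ε z.1 z.2)) z := c4.cos
    have c6 : ContDiffAt ℝ ∞ (fun z : ℝ × R4 => Real.sin (th d ε z.1 z.2)) z := c4.sin
    have c7 : ContDiffAt ℝ ∞ (fun z : ℝ × R4 => z.2.2 - pc 1) z :=
      contDiffAt_snd.snd.sub contDiffAt_const
    have c8 : ContDiffAt ℝ ∞ (fun z : ℝ × R4 => fo (th d ε z.1 z.2) z.2) z :=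
      (contDiffAt_const.add ((c5.mul (c2.sub contDiffAt_const)).sub
        (c6.mul (c1.sub contDiffAt_const)))).prodMk
        (contDiffAt_const.add (((contDiffAt_const.add ((c6.mul (c2.sub contDiffAt_const)).add
          (c5.mul (c1.sub contDiffAt_const)))).div c1 h0.ne').smul c7))
    refine c8.congr_of_eventuallyEq ?_
    filter_upwards [hc.continuousAt.eventually (lt_mem_nhds h)] with y hy
    exact if_pos hy
  · have h1 : rho z.2 < 3 / 20 := lt_of_le_of_lt h (by norm_num)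
    refine (contDiffAt_snd (𝕜 := ℝ)).congr_of_eventuallyEq ?_
    filter_upwards [hc.continuousAt.eventually (gt_mem_nhds h1)] with y hy
    have h2 : ε ^ 2 ≤ tr y.2 := by
      by_contra h3
      rw [not_le] at h3
      have := rho_of_tr (h3.trans (sq_lt hε))
      linarith
    exact Rf_fix (d := d) hε y.1 h2

/-- the family of diffeomorphisms -/
noncomputable def fam (d ε : ℝ) (hε : ε ∈ Ioo (0 : ℝ) (1 / 20)) : DFam I4 R4 where
  f := Rf d ε
  g := Rf (-d) ε
  smooth_f := contMDiff_of_contDiff (contDiff_Rf hε)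
  smooth_g := contMDiff_of_contDiff (contDiff_Rf hε)
  fg t x := by
    have := Rf_inv (d := -d) hε t x
    rwa [neg_neg] at this
  gf t x := Rf_inv hε t x

/-! ### the axis -/

theorem rho_ax {a : ℝ} (ha : a < 1) : rho (ax a) = 1 - a := by
  have h : rsq 1 (ax a) = (1 - a) ^ 2 := by
    simp only [rsq, nsq, ax, Complex.zero_re, Complex.zero_im]
    ring
  unfold rho
  rw [h, Real.sqrt_sq (by linarith)]

theorem tr_ax {a : ℝ} (ha : a < 1) : tr (ax a) = (4 / 5 - a) ^ 2 := by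
  rw [tr_def, rho_ax ha]
  simp only [ax]
  ring

/-- the angle on the axis -/
noncomputable def T (d ε a : ℝ) : ℝ :=
  2 * Real.pi * d * step (4 / 3 * (1 - (4 / 5 - a) ^ 2 / ε ^ 2))

theorem Rf_ax (hε : ε ∈ Ioo (0 : ℝ) (1 / 20)) {a : ℝ} (ha : a ∈ Ioo (4 / 5 - ε) (4 / 5 : ℝ)) :
    Rf d ε (1, ax a) = (1 / 2 - Real.sin (T d ε a) * (4 / 5 - a),
      ((4 / 5 - Real.cos (T d ε a) * (4 / 5 - a) : ℝ), (0 : ℂ))) := by
  have ha1 : a < 1 := by linarith [ha.2]
  have ht : tr (ax a) < ε ^ 2 := by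
    rw [tr_ax ha1]
    exact pow_lt_pow_left₀ (by linarith [ha.1]) (by linarith [ha.2]) two_ne_zero
  have hT : th d ε 1 (ax a) = T d ε a := by
    unfold th T
    rw [tr_ax ha1, mul_one]
  rw [Rf_in hε 1 ht, hT]
  unfold fo
  rw [rho_ax ha1]
  have hne : (1 - a) ≠ 0 := by linarith
  refine Prod.ext ?_ (Prod.ext ?_ ?_)
  · simp only [ax]
    ring
  · simp only [ax, pc, Prod.snd_add, Prod.fst_add, Prod.smul_fst, Prod.smul_snd, Prod.fst_sub,
      Prod.snd_sub, smul_eq_mul]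
    field_simp
    ring
  · simp [ax, pc]

theorem step_half : step (1 / 2) = 1 / 2 := by
  have h := step_symm (1 / 2)
  have h1 : (1 : ℝ) - 1 / 2 = 1 / 2 := by norm_num
  rw [h1] at h
  linarith

theorem glue_pos {x : ℝ} (h : 0 < x) : expNegInvGlue x = Real.exp (-x⁻¹) := by
  unfold expNegInvGlue
  exact if_neg (not_le.2 h)

theorem step_eq_half {x : ℝ} (h : step x = 1 / 2) : x = 1 / 2 := by
  have h0 : 0 < x := by
    by_contra h1
    rw [step_of_nonpos (not_lt.1 h1)] at h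
    norm_num at h
  have h1 : x < 1 := by
    by_contra h1
    rw [step_of_one_le (not_lt.1 h1)] at h
    norm_num at h
  have hd := Real.smoothTransition.pos_denom x
  unfold step Real.smoothTransition at h
  rw [div_eq_iff hd.ne'] at h
  have h2 : expNegInvGlue x = expNegInvGlue (1 - x) := by linarith
  rw [glue_pos h0, glue_pos (by linarith : (0 : ℝ) < 1 - x), Real.exp_eq_exp, neg_inj, inv_inj] at h2
  linarith

theorem hasDerivAt_step_half : HasDerivAt step 2 (1 / 2) := by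
  have hf : HasDerivAt expNegInvGlue (4 * Real.exp (-2)) (1 / 2) := by
    have h1 : HasDerivAt (fun x : ℝ => Real.exp (-x⁻¹)) (4 * Real.exp (-2)) (1 / 2) := by
      have h2 : HasDerivAt (fun x : ℝ => -x⁻¹) 4 (1 / 2) :=
        (hasDerivAt_inv (x := (1 / 2 : ℝ)) (by norm_num)).neg.congr_deriv (by norm_num)
      refine h2.exp.congr_deriv ?_
      rw [show (-(1 / 2 : ℝ)⁻¹) = -2 by norm_num, mul_comm]
    refine h1.congr_of_eventuallyEq ?_
    filter_upwards [lt_mem_nhds (show (0 : ℝ) < 1 / 2 by norm_num)] with x hx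
    exact glue_pos hx
  have hval : expNegInvGlue (1 / 2) = Real.exp (-2) := by
    rw [glue_pos (by norm_num)]
    norm_num
  have hg : HasDerivAt (fun x : ℝ => expNegInvGlue (1 - x)) (-(4 * Real.exp (-2))) (1 / 2) := by
    have h1 : (1 : ℝ) - 1 / 2 = 1 / 2 := by norm_num
    have h2 : HasDerivAt expNegInvGlue (4 * Real.exp (-2)) ((fun x : ℝ => 1 - x) (1 / 2)) := by
      change HasDerivAt expNegInvGlue (4 * Real.exp (-2)) (1 - 1 / 2)
      rw [h1]
      exact hf
    have h3 := h2.comp (1 / 2 : ℝ) ((hasDerivAt_id (1 / 2 : ℝ)).const_sub 1)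
    exact h3.congr_deriv (by ring)
  have hd := Real.smoothTransition.pos_denom (1 / 2 : ℝ)
  have h5 : HasDerivAt step ((4 * Real.exp (-2) * (expNegInvGlue (1 / 2) + expNegInvGlue (1 - 1 / 2)) -
      expNegInvGlue (1 / 2) * (4 * Real.exp (-2) + -(4 * Real.exp (-2)))) /
      (expNegInvGlue (1 / 2) + expNegInvGlue (1 - 1 / 2)) ^ 2) (1 / 2) :=
    hf.div (hf.add hg) hd.ne'
  refine h5.congr_deriv ?_
  have h1 : (1 : ℝ) - 1 / 2 = 1 / 2 := by norm_num
  rw [h1, hval]
  have he := (Real.exp_pos (-2)).ne'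
  field_simp
  ring

theorem tau_half {τ : ℝ} (hτ : τ ∈ Icc (0 : ℝ) 1) (hs : Real.sin (2 * Real.pi * τ) = 0)
    (hc : Real.cos (2 * Real.pi * τ) ≤ 0) : τ = 1 / 2 := by
  have hpi := Real.pi_pos
  rcases lt_trichotomy τ (1 / 2) with h | h | h
  · exfalso
    rcases hτ.1.eq_or_lt with h0 | h0
    · rw [← h0, mul_zero, Real.cos_zero] at hc
      linarith
    · have := Real.sin_pos_of_pos_of_lt_pi (x := 2 * Real.pi * τ) (by positivity) (by nlinarith)
      linarith
  · exact h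
  · exfalso
    rcases hτ.2.eq_or_lt with h0 | h0
    · rw [h0, mul_one, Real.cos_two_pi] at hc
      linarith
    · have := Real.sin_pos_of_pos_of_lt_pi (x := 2 * Real.pi * τ - Real.pi) (by nlinarith)
        (by nlinarith)
      rw [Real.sin_sub_pi, hs] at this
      linarith

end

end ROT

open ROT in
/-- **MODULE ROT.** -/
theorem m_ROT : StROT := by
  intro d ε hd hε
  have hε0 := hε.1
  have hpi := Real.pi_pos
  set q : ℝ := √(5 / 8) with hq
  have hq2 : q ^ 2 = 5 / 8 := Real.sq_sqrt (by norm_num)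
  have hq0 : 0 < q := Real.sqrt_pos.2 (by norm_num)
  have hq1 : q < 1 := by nlinarith
  have hqh : 1 / 2 < q := by nlinarith
  have hmem : 4 / 5 - ε * q ∈ Ioo (4 / 5 - ε) (4 / 5 - ε / 2) :=
    ⟨by nlinarith, by nlinarith⟩
  have hmem' : 4 / 5 - ε * q ∈ Ioo (4 / 5 - ε) (4 / 5 : ℝ) := ⟨hmem.1, by nlinarith⟩
  have hX : 4 / 3 * (1 - (4 / 5 - (4 / 5 - ε * q)) ^ 2 / ε ^ 2) = 1 / 2 := by
    have h1 : 4 / 5 - (4 / 5 - ε * q) = ε * q := by ring
    rw [h1, mul_pow, mul_div_cancel_left₀ _ (pow_ne_zero 2 hε0.ne'), hq2]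
    norm_num
  have hT : T d ε (4 / 5 - ε * q) = Real.pi * d := by
    unfold T
    rw [hX, step_half]
    ring
  have hsin : Real.sin (Real.pi * d) = 0 := by rcases hd with rfl | rfl <;> simp
  have hcos : Real.cos (Real.pi * d) = -1 := by rcases hd with rfl | rfl <;> simp
  have hdd : d * d = 1 := by rcases hd with rfl | rfl <;> norm_num
  refine ⟨fam d ε hε, 4 / 5 - ε * q, fun p => ?_, fun t p h => Rf_fix hε t h, fun t p => tr_Rf hε t p,
    fun t p hp => ?_, fun p h => ?_, hmem, ?_, fun a ha hfl => ?_, ?_⟩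
  · change Rf d ε (0, p) = p
    rcases lt_or_ge (tr p) (ε ^ 2) with h | h
    · rw [Rf_in hε 0 h]
      have h0 : th d ε 0 p = 0 := by
        unfold th
        ring
      rw [h0]
      exact fo_zero (lt_trans (by norm_num) (rho_of_tr (h.trans (sq_lt hε))))
    · exact Rf_fix hε 0 h
  · change Rf d ε (t, p) = p
    have hr : rho p = 1 / 5 := by
      unfold rho
      rw [hp.2]
      rw [show (1 : ℝ) / 25 = (1 / 5) ^ 2 by norm_num, Real.sqrt_sq (by norm_num)]
    have h1 : tr p = 0 := by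
      rw [tr_def, hr, hp.1]
      norm_num
    rw [Rf_in hε t (by rw [h1]; positivity)]
    unfold fo
    rw [hr, hp.1]
    refine Prod.ext ?_ ?_
    · change 1 / 2 + (Real.cos (th d ε t p) * (1 / 2 - 1 / 2) -
        Real.sin (th d ε t p) * (1 / 5 - 1 / 5)) = p.1
      rw [hp.1]
      ring
    · change pc 1 + ((1 / 5 + (Real.sin (th d ε t p) * (1 / 2 - 1 / 2) +
        Real.cos (th d ε t p) * (1 / 5 - 1 / 5))) / (1 / 5)) • (p.2 - pc 1) = p.2
      have h2 : (1 / 5 + (Real.sin (th d ε t p) * (1 / 2 - 1 / 2) +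
        Real.cos (th d ε t p) * (1 / 5 - 1 / 5))) / (1 / 5) = 1 := by
        rw [sub_self, sub_self, mul_zero, mul_zero, add_zero, add_zero]
        norm_num
      rw [h2, one_smul]
      abel
  · change Rf d ε (1, p) = p
    have h1 : tr p < ε ^ 2 := by nlinarith
    rw [Rf_in hε 1 h1]
    have h2 : tr p / ε ^ 2 < 1 / 4 := by
      rw [div_lt_iff₀ (by positivity)]
      linarith
    have h3 : th d ε 1 p = 2 * Real.pi * d := by
      unfold th
      rw [step_of_one_le (by linarith)]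
      ring
    have h4 : Real.sin (2 * Real.pi * d) = 0 := by rcases hd with rfl | rfl <;> simp
    have h5 : Real.cos (2 * Real.pi * d) = 1 := by rcases hd with rfl | rfl <;> simp
    have h6 : fo (2 * Real.pi * d) p = fo 0 p := by
      unfold fo
      rw [h4, h5, Real.sin_zero, Real.cos_zero]
    rw [h3, h6]
    exact fo_zero (lt_trans (by norm_num) (rho_of_tr (h1.trans (sq_lt hε))))
  · change Rf d ε (1, ax (4 / 5 - ε * q)) = ax (8 / 5 - (4 / 5 - ε * q))
    rw [Rf_ax hε hmem', hT, hsin, hcos]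
    refine Prod.ext ?_ (Prod.ext ?_ rfl)
    · simp [ax]
    · simp only [ax]
      ring
  · change Rf d ε (1, ax a) ∈ flat 1 at hfl
    rw [Rf_ax hε ha] at hfl
    have hv : 0 < 4 / 5 - a := by linarith [ha.2]
    have h1 : Real.sin (T d ε a) = 0 := by
      have := hfl.1
      have h2 : Real.sin (T d ε a) * (4 / 5 - a) = 0 := by
        change 1 / 2 - Real.sin (T d ε a) * (4 / 5 - a) = 1 / 2 at this
        linarith
      exact (mul_eq_zero.1 h2).resolve_right hv.ne'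
    have h2 : Real.cos (T d ε a) ≤ 0 := by
      have h3 := hfl.2
      simp only [rsq, nsq, Complex.zero_re, Complex.zero_im] at h3
      by_contra h4
      rw [not_le] at h4
      have h5 : 0 < Real.cos (T d ε a) * (4 / 5 - a) := mul_pos h4 hv
      nlinarith
    have h3 : Real.sin (2 * Real.pi * step (4 / 3 * (1 - (4 / 5 - a) ^ 2 / ε ^ 2))) = 0 := by
      unfold T at h1
      rcases hd with rfl | rfl
      · simpa using h1
      · have h4 : 2 * Real.pi * (-1) * step (4 / 3 * (1 - (4 / 5 - a) ^ 2 / ε ^ 2)) =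
            -(2 * Real.pi * step (4 / 3 * (1 - (4 / 5 - a) ^ 2 / ε ^ 2))) := by ring
        rw [h4, Real.sin_neg, neg_eq_zero] at h1
        exact h1
    have h4 : Real.cos (2 * Real.pi * step (4 / 3 * (1 - (4 / 5 - a) ^ 2 / ε ^ 2))) ≤ 0 := by
      unfold T at h2
      rcases hd with rfl | rfl
      · simpa using h2
      · have h4 : 2 * Real.pi * (-1) * step (4 / 3 * (1 - (4 / 5 - a) ^ 2 / ε ^ 2)) =
            -(2 * Real.pi * step (4 / 3 * (1 - (4 / 5 - a) ^ 2 / ε ^ 2))) := by ring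
        rw [h4, Real.cos_neg] at h2
        exact h2
    have h5 := step_eq_half (tau_half (step_mem _) h3 h4)
    have h6 : (4 / 5 - a) ^ 2 / ε ^ 2 = 5 / 8 := by linarith
    rw [div_eq_iff (pow_ne_zero 2 hε0.ne')] at h6
    have h7 : (4 / 5 - a) ^ 2 = (ε * q) ^ 2 := by
      rw [mul_pow, hq2, h6]
      ring
    have h8 := (pow_left_inj₀ hv.le (by positivity) two_ne_zero).1 h7
    linarith
  · have hev : (fun a => ((fam d ε hε).f (1, ax a)).1) =ᶠ[𝓝 (4 / 5 - ε * q)]
        fun a => 1 / 2 - Real.sin (T d ε a) * (4 / 5 - a) := by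
      filter_upwards [Ioo_mem_nhds hmem'.1 hmem'.2] with a ha
      change (Rf d ε (1, ax a)).1 = _
      rw [Rf_ax hε ha]
    rw [hev.deriv_eq]
    have e1 : HasDerivAt (fun a : ℝ => 4 / 5 - a) (-1) (4 / 5 - ε * q) := by
      simpa using (hasDerivAt_id (4 / 5 - ε * q)).const_sub (4 / 5 : ℝ)
    have e2 : HasDerivAt (fun a : ℝ => 4 / 3 * (1 - (4 / 5 - a) ^ 2 / ε ^ 2))
        (8 / 3 * q / ε) (4 / 5 - ε * q) := by
      have h1 := ((((e1.pow 2).div_const (ε ^ 2)).const_sub 1).const_mul (4 / 3 : ℝ))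
      refine h1.congr_deriv ?_
      have h2 : 4 / 5 - (4 / 5 - ε * q) = ε * q := by ring
      simp only [h2, Nat.cast_ofNat, Nat.add_one_sub_one, pow_one]
      field_simp
      ring
    have e3 : HasDerivAt step 2 ((fun a : ℝ => 4 / 3 * (1 - (4 / 5 - a) ^ 2 / ε ^ 2))
        (4 / 5 - ε * q)) := by
      change HasDerivAt step 2 (4 / 3 * (1 - (4 / 5 - (4 / 5 - ε * q)) ^ 2 / ε ^ 2))
      rw [hX]
      exact hasDerivAt_step_half
    have e4 : HasDerivAt (T d ε) (2 * Real.pi * d * (2 * (8 / 3 * q / ε))) (4 / 5 - ε * q) :=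
      (e3.comp (4 / 5 - ε * q) e2).const_mul (2 * Real.pi * d)
    have e5 := (e4.sin.mul e1).const_sub (1 / 2 : ℝ)
    rw [hT, hsin, hcos] at e5
    have e6 : HasDerivAt (fun a => 1 / 2 - Real.sin (T d ε a) * (4 / 5 - a))
        (2 * Real.pi * d * (2 * (8 / 3 * q / ε)) * (ε * q)) (4 / 5 - ε * q) := by
      exact e5.congr_deriv (by ring)
    rw [e6.deriv]
    have e7 : d * (2 * Real.pi * d * (2 * (8 / 3 * q / ε)) * (ε * q)) =
        (d * d) * (Real.pi * (32 / 3) * q ^ 2) := by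
      field_simp
      ring
    rw [e7, hdd, hq2]
    positivity

end Pool.Agent.Helper70.BI


end
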