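import Pool.Agent.Helper65.Barb.Defs
import Pool.Agent.Helper70.BI.B.P18
import Pool.Agent.Helper70.BI.B.P20

/-!
# Project BI (MP_8e98f2_gt): collected modules, part 24

The contents of the modules
* Helper34.BI.H.M_GPD
* Helper70.BI.M_NF1
* Helper70.BI.M_NF
* Helper70.BI.M_NO
* Helper70.BI.M_CTR
* Helper70.BI.M_LAS

in one file, so that the whole proof builds in a short time.
-/

/-! ## Helper34.BI.H.M_GPD -/

section

/-!
# Project BI, stage 3, module GPD: general position for homotopies of loops of arcs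

This is `StGP` of `Pool/Agent/Helper27/BI/H/StH1.lean`; the proof follows module H4 (helper63).
-/

set_option autoImplicit false

open Module Set Filter Topology MeasureTheory
open scoped ContDiff Manifold
open Pool.Agent.Helper65.Barb Pool.Agent.Helper18.BI
open Pool.Agent.Helper70.BI (I4)

namespace Pool.Agent.Helper34.BI.H

namespace GPD

open H4m

/-- smallness of the perturbation, for a closed set -/
lemma exists_eps' {α : ℝ × ℝ × ℝ → R4} {ρ : ℝ × ℝ → ℝ} {χ : ℝ → ℝ} (hα : Continuous α)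
    (hρ : Continuous ρ) (hχ : Continuous χ) {U : Set R4} (hU : IsOpen U)
    {S : Set (ℝ × ℝ × ℝ)} (hS : IsCompact S) (hSK : ∀ z ∈ S, α z ∈ U) :
    ∃ ε > 0, ∀ p : Fin 8 → R4, ‖p‖ < ε → ∀ z ∈ S, prt α ρ χ p z ∈ U := by
  have hop : IsOpen {x : (Fin 8 → R4) × (ℝ × ℝ × ℝ) | prt α ρ χ x.1 x.2 ∈ U} :=
    hU.preimage (continuous_prt hα hρ hχ)
  have hsub : ({0} : Set (Fin 8 → R4)) ×ˢ S ⊆
      {x : (Fin 8 → R4) × (ℝ × ℝ × ℝ) | prt α ρ χ x.1 x.2 ∈ U} := by
    rintro ⟨p, z⟩ ⟨hp, hz⟩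
    have hp' : p = 0 := hp
    subst hp'
    have : prt α ρ χ 0 z = α z := by simp [prt]
    simp only [mem_ofPred_eq, this]
    exact hSK z hz
  obtain ⟨V, V', hV, -, h0, hSV, hUV⟩ := generalized_tube_lemma isCompact_singleton hS hop hsub
  obtain ⟨ε, hε, hball⟩ := Metric.isOpen_iff.1 hV 0 (h0 rfl)
  refine ⟨ε, hε, fun p hp z hz => ?_⟩
  exact hUV (mk_mem_prod (hball (by simpa using hp)) (hSV hz))

/-- derivative of the perturbation where `χ` vanishes -/
lemma deriv_zero {α : ℝ × ℝ × ℝ → R4} {ρ : ℝ × ℝ → ℝ} {χ : ℝ → ℝ}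
    (hα : ContDiff ℝ ∞ α) (hχ : ContDiff ℝ ∞ χ) (hχ0 : ∀ s, 0 ≤ χ s) (p : Fin 8 → R4)
    (u q s : ℝ) (hs : χ s = 0) :
    deriv (fun r => prt α ρ χ p (u, q, r)) s = deriv (fun r => α (u, q, r)) s := by
  have hmin : deriv χ s = 0 := by
    have : IsLocalMin χ s := Eventually.of_forall fun r => by
      show χ s ≤ χ r
      rw [hs]; exact hχ0 r
    exact this.deriv_eq_zero
  have d2 : HasDerivAt χ 0 s := by
    rw [← hmin]
    exact (hχ.differentiable (by simp) s).hasDerivAt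
  let G : ℝ → R4 := fun r => ∑ j, (ρ (u, q) * mon (u, q, r) j) • p j
  have hG : Differentiable ℝ G := by
    have : ContDiff ℝ ∞ G := by
      refine ContDiff.sum fun j _ => ?_
      have e1 : ContDiff ℝ ∞ (fun r : ℝ => mon (u, q, r) j) := (contDiff_mon j).comp (by fun_prop)
      have e2 : ContDiff ℝ ∞ (fun r : ℝ => ρ (u, q) * mon (u, q, r) j) := contDiff_const.mul e1
      exact e2.smul contDiff_const
    exact this.differentiable (by simp)
  have d3 : HasDerivAt (fun r => χ r • G r) 0 s := by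
    have := d2.smul (hG s).hasDerivAt
    refine this.congr_deriv ?_
    simp [hs]
  have hα0 : Differentiable ℝ (fun r : ℝ => α (u, q, r)) := by
    have : ContDiff ℝ ∞ (fun r : ℝ => α (u, q, r)) := hα.comp (by fun_prop)
    exact this.differentiable (by simp)
  have d4 := (hα0 s).hasDerivAt.add d3
  rw [add_zero] at d4
  have d5 : HasDerivAt (fun r => prt α ρ χ p (u, q, r)) (deriv (fun r => α (u, q, r)) s) s := by
    refine d4.congr_of_eventuallyEq (Eventually.of_forall fun r => ?_)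
    simp only [prt, Pi.add_apply, G, Finset.smul_sum, smul_smul]
    congr 1
    refine Finset.sum_congr rfl fun j _ => ?_
    congr 1
    ring
  exact d5.deriv

/-- functions which agree on one side have the same derivative -/
lemma deriv_eq_of_side {f g : ℝ → R4} {a s : ℝ} (hf : DifferentiableAt ℝ f s)
    (hg : DifferentiableAt ℝ g s) (h : (s ≤ a ∧ ∀ r ≤ a, f r = g r) ∨ (a ≤ s ∧ ∀ r, a ≤ r → f r = g r)) :
    deriv f s = deriv g s := by
  rcases h with ⟨hs, h⟩ | ⟨hs, h⟩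
  · have h1 : HasDerivWithinAt g (deriv f s) (Iic s) s :=
      (hf.hasDerivAt.hasDerivWithinAt (s := Iic s)).congr
        (fun r hr => (h r (le_trans hr hs)).symm) (h s hs).symm
    exact ((uniqueDiffOn_Iic s) s (by simp)).eq_deriv _ h1 hg.hasDerivAt.hasDerivWithinAt
  · have h1 : HasDerivWithinAt g (deriv f s) (Ici s) s :=
      (hf.hasDerivAt.hasDerivWithinAt (s := Ici s)).congr
        (fun r hr => (h r (le_trans hs hr)).symm) (h s hs).symm
    exact ((uniqueDiffOn_Ici s) s (by simp)).eq_deriv _ h1 hg.hasDerivAt.hasDerivWithinAt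

/-- the derivative along the arcs is continuous -/
lemma deriv_arc {β : ℝ × ℝ × ℝ → R4} (hβ : ContDiff ℝ ∞ β) (u q s : ℝ) :
    deriv (fun r => β (u, q, r)) s = fderiv ℝ β (u, q, s) (0, 0, 1) := by
  have l : HasDerivAt (fun r : ℝ => ((u, q, r) : ℝ × ℝ × ℝ)) (0, 0, 1) s :=
    (hasDerivAt_const s u).prodMk ((hasDerivAt_const s q).prodMk (hasDerivAt_id s))
  exact (HasFDerivAt.comp_hasDerivAt_of_eq s ((hβ.differentiable (by simp) (u, q, s)).hasFDerivAt)
    l rfl).deriv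

/-- embeddedness near the boundary of the square -/
lemma exists_delta {β : ℝ × ℝ × ℝ → R4} (hβ : ContDiff ℝ ∞ β) {s₀ s₁ : ℝ}
    (hemb : ∀ u q, Sq u q → (u = 0 ∨ u = 1 ∨ q = 0 ∨ q = 1) →
      InjOn (fun s => β (u, q, s)) (Icc s₀ s₁) ∧
      ∀ s ∈ Icc s₀ s₁, deriv (fun s => β (u, q, s)) s ≠ 0) :
    ∃ δ > 0, δ < 1 / 2 ∧ ∀ u q, Sq u q → Nb δ u q → InjOn (fun s => β (u, q, s)) (Icc s₀ s₁) ∧
      ∀ s ∈ Icc s₀ s₁, deriv (fun s => β (u, q, s)) s ≠ 0 := by
  let C : Set (ℝ × ℝ × ℝ × ℝ) := Icc (0 : ℝ) 1 ×ˢ (Icc (0 : ℝ) 1 ×ˢ (Icc s₀ s₁ ×ˢ Icc s₀ s₁))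
  have hC : IsCompact C := isCompact_Icc.prod (isCompact_Icc.prod (isCompact_Icc.prod isCompact_Icc))
  let B : Set (ℝ × ℝ × ℝ × ℝ) := {z | z ∈ C ∧ z.2.2.1 ≤ z.2.2.2 ∧
    β (z.1, z.2.1, z.2.2.1) = β (z.1, z.2.1, z.2.2.2) ∧
    (z.2.2.1 = z.2.2.2 → fderiv ℝ β (z.1, z.2.1, z.2.2.1) (0, 0, 1) = 0)}
  have hBc : IsClosed B := by
    rw [← isOpen_compl_iff, isOpen_iff_mem_nhds]
    intro z hz
    by_cases h1 : z ∈ C
    swap
    · filter_upwards [hC.isClosed.isOpen_compl.mem_nhds h1] with w hw hwB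
      exact hw hwB.1
    by_cases h2 : z.2.2.1 ≤ z.2.2.2
    swap
    · have hop : IsOpen {w : ℝ × ℝ × ℝ × ℝ | w.2.2.2 < w.2.2.1} :=
        isOpen_lt (by fun_prop) (by fun_prop)
      filter_upwards [hop.mem_nhds (not_le.1 h2)] with w hw hwB
      exact not_le.2 hw hwB.2.1
    by_cases h3 : β (z.1, z.2.1, z.2.2.1) = β (z.1, z.2.1, z.2.2.2)
    swap
    · have hop : IsOpen {y : ℝ × ℝ × ℝ × ℝ | β (y.1, y.2.1, y.2.2.1) ≠
            β (y.1, y.2.1, y.2.2.2)} :=
        isOpen_ne_fun (hβ.continuous.comp (by fun_prop)) (hβ.continuous.comp (by fun_prop))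
      filter_upwards [hop.mem_nhds h3] with w hw hwB
      exact hw hwB.2.2.1
    have h4 : ¬ (z.2.2.1 = z.2.2.2 → fderiv ℝ β (z.1, z.2.1, z.2.2.1) (0, 0, 1) = 0) := fun h =>
      hz ⟨h1, h2, h3, h⟩
    push Not at h4
    obtain ⟨h5, h6⟩ := h4
    obtain ⟨u, q, s, t⟩ := z
    simp only at h5 h6
    subst h5
    obtain ⟨N, hN, hNy⟩ := near_diag hβ (u := u) (q := q) (s := s) (by
      rw [deriv_arc hβ]; exact h6)
    have hcont : Continuous (fun z : ℝ × ℝ × ℝ × ℝ => fderiv ℝ β (z.1, z.2.1, z.2.2.1) (0, 0, 1)) := by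
      have : Continuous (fderiv ℝ β) := hβ.continuous_fderiv (by simp)
      exact (this.comp (by fun_prop)).clm_apply continuous_const
    have hop : IsOpen {z : ℝ × ℝ × ℝ × ℝ | fderiv ℝ β (z.1, z.2.1, z.2.2.1) (0, 0, 1) ≠ 0} :=
      isOpen_ne_fun hcont continuous_const
    filter_upwards [hN, hop.mem_nhds h6] with w hw hw2 hwB
    rcases hwB.2.1.lt_or_eq with h7 | h7
    · exact hNy w hw h7 hwB.2.2.1
    · exact hw2 (hwB.2.2.2 h7)
  have hBcomp : IsCompact B := hC.of_isClosed_subset hBc fun z hz => hz.1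
  let g : ℝ × ℝ × ℝ × ℝ → ℝ := fun z => min (min z.1 (1 - z.1)) (min z.2.1 (1 - z.2.1))
  have hg : Continuous g := by fun_prop
  -- members of `B` are the bad parameters
  have hbad : ∀ u q, Sq u q → ¬ (InjOn (fun s => β (u, q, s)) (Icc s₀ s₁) ∧
      ∀ s ∈ Icc s₀ s₁, deriv (fun s => β (u, q, s)) s ≠ 0) → ∃ s t, (u, q, s, t) ∈ B := by
    intro u q hS h
    by_cases h1 : InjOn (fun s => β (u, q, s)) (Icc s₀ s₁)
    · have h2 : ∃ s ∈ Icc s₀ s₁, deriv (fun s => β (u, q, s)) s = 0 := by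
        by_contra hcon
        push Not at hcon
        exact h ⟨h1, hcon⟩
      obtain ⟨s, hs, hd⟩ := h2
      rw [deriv_arc hβ] at hd
      exact ⟨s, s, ⟨hS.1, hS.2, hs, hs⟩, le_rfl, rfl, fun _ => hd⟩
    · unfold InjOn at h1
      push Not at h1
      obtain ⟨s, hs, t, ht, he, hne⟩ := h1
      rcases lt_or_gt_of_ne hne with hlt | hlt
      · exact ⟨s, t, ⟨hS.1, hS.2, hs, ht⟩, hlt.le, he, fun h => absurd h hlt.ne⟩
      · exact ⟨t, s, ⟨hS.1, hS.2, ht, hs⟩, hlt.le, he.symm, fun h => absurd h hlt.ne⟩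
  have hpos : ∀ z ∈ B, 0 < g z := by
    rintro ⟨u, q, s, t⟩ ⟨⟨h1, h2, h3, h4⟩, h5, h6, h7⟩
    simp only at h1 h2 h3 h4 h5 h6 h7
    by_contra hcon
    have h8 : u = 0 ∨ u = 1 ∨ q = 0 ∨ q = 1 := by
      by_contra hc2
      push Not at hc2
      obtain ⟨a1, a2, a3, a4⟩ := hc2
      apply hcon
      refine lt_min (lt_min (lt_of_le_of_ne h1.1 (Ne.symm a1)) ?_)
        (lt_min (lt_of_le_of_ne h2.1 (Ne.symm a3)) ?_)
      · have := lt_of_le_of_ne h1.2 a2
        simp only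
        linarith
      · have := lt_of_le_of_ne h2.2 a4
        simp only
        linarith
    obtain ⟨e1, e2⟩ := hemb u q ⟨h1, h2⟩ h8
    rcases h5.lt_or_eq with h9 | h9
    · exact h9.ne (e1 h3 h4 h6)
    · have := e2 s h3
      rw [deriv_arc hβ] at this
      exact this (h7 h9)
  rcases B.eq_empty_or_nonempty with hE | hE
  · refine ⟨1 / 4, by norm_num, by norm_num, fun u q hS _ => ?_⟩
    by_contra hcon
    obtain ⟨s, t, hst⟩ := hbad u q hS hcon
    rw [hE] at hst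
    exact hst
  · obtain ⟨z₀, hz₀, hmin⟩ := hBcomp.exists_isMinOn hE hg.continuousOn
    have hz0 := hpos z₀ hz₀
    refine ⟨min (g z₀ / 2) (1 / 4), by positivity, lt_of_le_of_lt (min_le_right _ _) (by norm_num),
      fun u q hS hNb => ?_⟩
    by_contra hcon
    obtain ⟨s, t, hst⟩ := hbad u q hS hcon
    have h1 : g z₀ ≤ g (u, q, s, t) := hmin hst
    have h2 : min (g z₀ / 2) (1 / 4) ≤ g z₀ / 2 := min_le_left _ _
    have h3 : g (u, q, s, t) ≤ g z₀ / 2 := by
      rcases hNb with h | h | h | h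
      · exact ((min_le_left _ _).trans (min_le_left _ _)).trans (h.trans h2)
      · refine ((min_le_left _ _).trans (min_le_right _ _)).trans ?_
        simp only
        linarith
      · exact ((min_le_right _ _).trans (min_le_left _ _)).trans (h.trans h2)
      · refine ((min_le_right _ _).trans (min_le_right _ _)).trans ?_
        simp only
        linarith
    linarith

end GPD

open H4m GPD

theorem m_GPD (hGP : StGP) : Pool.Agent.Helper27.H.StGP := by
  intro A c hc hemb0 hemb1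
  have hα : ContDiff ℝ ∞ c := hc.smooth
  have hcJ : ∀ s ∈ Icc A.s₀ A.s₁, A.J (s, 0) = A.c s := A.core
  have hseg : ∀ s ∈ Icc A.s₀ A.s₁, ((s, 0) : R4) ∈ Pool.Agent.Helper27.H.seg A.s₀ A.s₁ :=
    fun s hs => ⟨hs.1, hs.2, rfl⟩
  -- the base arc is embedded
  have hAinj : InjOn A.c (Icc A.s₀ A.s₁) := by
    intro s hs t ht h
    rw [← hcJ s hs, ← hcJ t ht] at h
    exact congrArg Prod.fst (A.emb.2 (hseg s hs) (hseg t ht) h)
  have hAimm : ∀ s ∈ Icc A.s₀ A.s₁, deriv A.c s ≠ 0 := by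
    have hs01 : A.s₀ < A.s₁ := by linarith [A.h₀, A.h₁, A.h₂]
    intro s hs h0
    have h1 := A.emb.1 _ (hseg s hs)
    have d1 : HasFDerivAt A.J (fderiv ℝ A.J (s, 0)) (s, 0) :=
      ((eventually_contDiffAt h1).self_of_nhds.differentiableAt (by simp)).hasFDerivAt
    have l : HasDerivAt (fun r : ℝ => ((r, 0) : R4)) (1, 0) s :=
      (hasDerivAt_id s).prodMk (hasDerivAt_const s (0 : ℝ × ℂ))
    have d2 : HasDerivAt (fun r : ℝ => A.J (r, 0)) (fderiv ℝ A.J (s, 0) (1, 0)) s :=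
      HasFDerivAt.comp_hasDerivAt_of_eq s d1 l rfl
    have d3 : HasDerivAt A.c 0 s := by
      rw [← h0]
      exact (A.smooth.differentiable (by simp) s).hasDerivAt
    have e1 : fderiv ℝ A.J (s, 0) (1, 0) = 0 := by
      have w1 : HasDerivWithinAt (fun r : ℝ => A.J (r, 0)) 0 (Icc A.s₀ A.s₁) s :=
        (d3.hasDerivWithinAt).congr (fun r hr => hcJ r hr) (hcJ s hs)
      exact ((uniqueDiffOn_Icc hs01) s hs).eq_deriv _ d2.hasDerivWithinAt w1
    have e2 := injective_fderiv h1 (a₁ := (1, 0)) (a₂ := 0) (by rw [e1, map_zero])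
    exact one_ne_zero (congrArg Prod.fst e2)
  -- all arcs on the boundary of the square are embedded
  have hbd : ∀ u q, Sq u q → (u = 0 ∨ u = 1 ∨ q = 0 ∨ q = 1) →
      InjOn (fun s => c (u, q, s)) (Icc A.s₀ A.s₁) ∧
      ∀ s ∈ Icc A.s₀ A.s₁, deriv (fun s => c (u, q, s)) s ≠ 0 := by
    rintro u q ⟨hu, hq⟩ (rfl | rfl | rfl | rfl)
    · exact ⟨(hemb0 q hq).2, (hemb0 q hq).1⟩
    · exact ⟨(hemb1 q hq).2, (hemb1 q hq).1⟩
    · have e : (fun s => c (u, 0, s)) = A.c := funext fun s => hc.start u hu s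
      rw [e]
      exact ⟨hAinj, hAimm⟩
    · have e : (fun s => c (u, 1, s)) = A.c := funext fun s => hc.stop u hu s
      rw [e]
      exact ⟨hAinj, hAimm⟩
  obtain ⟨δ, hδ, hδ2, hemb⟩ := exists_delta hα hbd
  have hm01 : A.s₀ < A.m₀ ∧ A.m₀ < A.m₁ ∧ A.m₁ < A.s₁ := ⟨A.h₀, A.h₁, A.h₂⟩
  set ρ : ℝ × ℝ → ℝ := fun x => hat (δ / 2) (1 - δ / 2) x.1 * hat (δ / 2) (1 - δ / 2) x.2
    with hρdef
  set χ : ℝ → ℝ := hat A.m₀ A.m₁ with hχdef
  have hρ : ContDiff ℝ ∞ ρ :=
    ((contDiff_hat _ _).comp contDiff_fst).mul ((contDiff_hat _ _).comp contDiff_snd)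
  have hχ : ContDiff ℝ ∞ χ := contDiff_hat _ _
  have hρz : ∀ u q, ρ (u, q) = 0 → Nb δ u q := by
    intro u q h
    by_contra hcon
    unfold Nb at hcon
    push Not at hcon
    obtain ⟨c1, c2, c3, c4⟩ := hcon
    exact mul_ne_zero (hat_ne_zero.2 ⟨by linarith, by linarith⟩)
      (hat_ne_zero.2 ⟨by linarith, by linarith⟩) h
  have hρz' : ∀ u q, Nb (δ / 2) u q → ρ (u, q) = 0 := by
    intro u q h
    simp only [hρdef]
    rcases h with h | h | h | h
    · rw [hat_eq_zero (Or.inl h), zero_mul]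
    · rw [hat_eq_zero (Or.inr h), zero_mul]
    · rw [hat_eq_zero (Or.inl h), mul_zero]
    · rw [hat_eq_zero (Or.inr h), mul_zero]
  have hρi : ∀ u q, ρ (u, q) ≠ 0 → u ∈ Ioo (0 : ℝ) 1 ∧ q ∈ Ioo (0 : ℝ) 1 := by
    intro u q h
    have h1 := hat_ne_zero.1 (left_ne_zero_of_mul h)
    have h2 := hat_ne_zero.1 (right_ne_zero_of_mul h)
    simp only at h1 h2
    exact ⟨⟨by linarith [h1.1], by linarith [h1.2]⟩, ⟨by linarith [h2.1], by linarith [h2.2]⟩⟩
  have hχz : ∀ s, χ s = 0 → s ≤ A.m₀ ∨ A.m₁ ≤ s := by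
    intro s h
    by_contra hcon
    push Not at hcon
    exact hat_ne_zero.2 hcon h
  have hχz' : ∀ s, (s ≤ A.m₀ ∨ A.m₁ ≤ s) → χ s = 0 := fun s h => hat_eq_zero h
  have hχi : ∀ s, χ s ≠ 0 → A.m₀ < s ∧ s < A.m₁ := fun s h => hat_ne_zero.1 h
  -- the perturbation
  have hScomp : IsCompact (Icc (0 : ℝ) 1 ×ˢ (Icc (0 : ℝ) 1 ×ˢ Icc A.m₀ A.m₁)) :=
    isCompact_Icc.prod (isCompact_Icc.prod isCompact_Icc)
  obtain ⟨ε, hε, hεK⟩ := exists_eps' hα.continuous hρ.continuous hχ.continuous A.openU hScomp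
    (fun z hz => hc.inU z.1 hz.1 z.2.1 hz.2.1 z.2.2 hz.2.2)
  obtain ⟨p, hp, hgp⟩ := hGP c ρ χ hα hρ hχ ε hε
  set β : ℝ × ℝ × ℝ → R4 := prt c ρ χ p with hβdef
  have hβ : ContDiff ℝ ∞ β := contDiff_prt hα hρ hχ p
  have hβρ : ∀ u q s, ρ (u, q) = 0 → β (u, q, s) = c (u, q, s) := by
    intro u q s h
    simp [hβdef, prt, h]
  have hβχ : ∀ u q, Sq u q → ∀ s, χ s = 0 → β (u, q, s) = A.c s := by
    intro u q hS s h
    have h1 : β (u, q, s) = c (u, q, s) := by simp [hβdef, prt, h]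
    rw [h1]
    exact hc.froz u hS.1 q hS.2 s (hχz s h)
  have hoffβ : ∀ u q, Sq u q → ∀ s ∈ Icc A.m₀ A.m₁, β (u, q, s) ∈ A.U := by
    intro u q h s hs
    exact hεK p hp (u, q, s) ⟨h.1, h.2, hs⟩
  have himm : ∀ u q, Sq u q → ∀ s ∈ Icc A.s₀ A.s₁, deriv (fun s => β (u, q, s)) s ≠ 0 := by
    intro u q h s hs
    by_cases h1 : ρ (u, q) = 0
    · have e : (fun s => β (u, q, s)) = fun s => c (u, q, s) := funext fun s => hβρ u q s h1
      rw [e]
      exact (hemb u q h (hρz u q h1)).2 s hs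
    · by_cases h2 : χ s = 0
      · rw [hβdef, deriv_zero hα hχ (fun s => hat_nonneg _ _ s) p u q s h2]
        have hd1 : DifferentiableAt ℝ (fun r : ℝ => c (u, q, r)) s := by
          have : ContDiff ℝ ∞ (fun r : ℝ => c (u, q, r)) := hα.comp (by fun_prop)
          exact this.differentiable (by simp) s
        have hd2 : DifferentiableAt ℝ A.c s := A.smooth.differentiable (by simp) s
        have e : deriv (fun r => c (u, q, r)) s = deriv A.c s := by
          rcases hχz s h2 with h3 | h3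
          · exact deriv_eq_of_side hd1 hd2 (Or.inl ⟨h3, fun r hr =>
              hc.froz u h.1 q h.2 r (Or.inl hr)⟩)
          · exact deriv_eq_of_side hd1 hd2 (Or.inr ⟨h3, fun r hr =>
              hc.froz u h.1 q h.2 r (Or.inr hr)⟩)
        rw [e]
        exact hAimm s hs
      · exact hgp.imm u q s h1 h2
  let D : Set (ℝ × ℝ × ℝ × ℝ) := {d | Sq d.1 d.2.1 ∧ d.2.2.1 ∈ Icc A.s₀ A.s₁ ∧
    d.2.2.2 ∈ Icc A.s₀ A.s₁ ∧
    d.2.2.1 < d.2.2.2 ∧ β (d.1, d.2.1, d.2.2.1) = β (d.1, d.2.1, d.2.2.2)}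
  have hDρ : ∀ d ∈ D, ρ (d.1, d.2.1) ≠ 0 := by
    rintro ⟨u, q, s, t⟩ ⟨h1, h2, h3, h4, h5⟩ h
    simp only at h1 h2 h3 h4 h5 h
    rw [hβρ u q s h, hβρ u q t h] at h5
    exact h4.ne ((hemb u q h1 (hρz u q h)).1 h2 h3 h5)
  have hDχ : ∀ d ∈ D, χ d.2.2.1 ≠ 0 ∨ χ d.2.2.2 ≠ 0 := by
    rintro ⟨u, q, s, t⟩ ⟨h1, h2, h3, h4, h5⟩
    simp only at h1 h2 h3 h4 h5 ⊢
    by_contra hcon
    push Not at hcon
    rw [hβχ u q h1 s hcon.1, hβχ u q h1 t hcon.2] at h5
    exact h4.ne (hAinj h2 h3 h5)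
  have hDt : ∀ d ∈ D, Function.Injective (fderiv ℝ (dbl β) d) := by
    intro d hd
    obtain ⟨u, q, s, t⟩ := d
    exact hgp.trans u q s t (hDρ _ hd) hd.2.2.2.1.ne (hDχ _ hd) hd.2.2.2.2
  have hdbl : ContDiff ℝ ∞ (dbl β) := by
    unfold dbl
    exact (hβ.comp (by fun_prop)).sub (hβ.comp (by fun_prop))
  -- separation
  have hsep : ∀ d ∈ D, ∀ d' ∈ D, (d.1 = d'.1 ∨ d.2.1 = d'.2.1) → d = d' := by
    intro d hd d' hd' hor
    by_contra hne
    have r1 := hDρ d hd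
    have r2 := hDρ d' hd'
    have x1 := hDχ d hd
    have x2 := hDχ d' hd'
    obtain ⟨u, q, s, t⟩ := d
    obtain ⟨u', q', s', t'⟩ := d'
    obtain ⟨a1, a2, a3, a4, a5⟩ := hd
    obtain ⟨b1, b2, b3, b4, b5⟩ := hd'
    simp only at r1 r2 x1 x2 a1 a2 a3 a4 a5 b1 b2 b3 b4 b5 hor
    by_cases huq : (u, q) = (u', q')
    · rw [Prod.mk.injEq] at huq
      obtain ⟨rfl, rfl⟩ := huq
      have n3 : ¬ (s = s' ∧ t = t') := by
        rintro ⟨rfl, rfl⟩
        exact hne rfl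
      have n4 : ¬ (s = t' ∧ t = s') := by
        rintro ⟨e1, e2⟩
        linarith
      refine hgp.one u q s t s' t' r1 ⟨a4.ne, b4.ne, n3, n4, x1, x2, ?_, ?_, ?_, ?_⟩ a5 b5
      · intro e
        by_contra hcon
        push Not at hcon
        apply n3
        refine ⟨e, hAinj a3 b3 ?_⟩
        rw [← hβχ u q a1 t hcon.1, ← hβχ u q a1 t' hcon.2, ← a5, ← b5, e]
      · intro e
        by_contra hcon
        push Not at hcon
        apply n4
        refine ⟨e, hAinj a3 b2 ?_⟩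
        rw [← hβχ u q a1 t hcon.1, ← hβχ u q a1 s' hcon.2, ← a5, b5, e]
      · intro e
        by_contra hcon
        push Not at hcon
        apply n4
        refine ⟨hAinj a2 b3 ?_, e⟩
        rw [← hβχ u q a1 s hcon.1, ← hβχ u q a1 t' hcon.2, a5, ← b5, e]
      · intro e
        by_contra hcon
        push Not at hcon
        apply n3
        refine ⟨hAinj a2 b2 ?_, e⟩
        rw [← hβχ u q a1 s hcon.1, ← hβχ u q a1 s' hcon.2, a5, b5, e]
    · exact hgp.sep u q u' q' s t s' t' huq hor r1 r2 a4.ne b4.ne x1 x2 a5 b5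
  -- finiteness
  have hfin : D.Finite := by
    by_contra hinf
    have hinf' : D.Infinite := hinf
    have hsub : D ⊆ Icc (0 : ℝ) 1 ×ˢ (Icc (0 : ℝ) 1 ×ˢ (Icc A.s₀ A.s₁ ×ˢ Icc A.s₀ A.s₁)) := by
      rintro ⟨u, q, s, t⟩ ⟨h1, h2, h3, h4, h5⟩
      exact ⟨h1.1, h1.2, h2, h3⟩
    obtain ⟨x, hx, hacc⟩ := hinf'.exists_accPt_of_subset_isCompact
      (isCompact_Icc.prod (isCompact_Icc.prod (isCompact_Icc.prod isCompact_Icc))) hsub
    have hle : x.2.2.1 ≤ x.2.2.2 := by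
      have hcl : IsClosed {y : ℝ × ℝ × ℝ × ℝ | y.2.2.1 ≤ y.2.2.2} :=
        isClosed_le (by fun_prop) (by fun_prop)
      have h1 : x ∈ closure {y : ℝ × ℝ × ℝ × ℝ | y.2.2.1 ≤ y.2.2.2} := by
        rw [mem_closure_iff_clusterPt]
        refine hacc.clusterPt.mono ?_
        rw [Filter.principal_mono]
        exact fun y hy => hy.2.2.2.1.le
      rwa [hcl.closure_eq] at h1
    rw [accPt_iff_nhds] at hacc
    obtain ⟨u, q, s, t⟩ := x
    obtain ⟨hx1, hx2, hx3, hx4⟩ := hx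
    simp only at hle hx1 hx2 hx3 hx4
    rcases hle.lt_or_eq with hlt | rfl
    · by_cases hval : β (u, q, s) = β (u, q, t)
      · have hxD : (u, q, s, t) ∈ D := ⟨⟨hx1, hx2⟩, hx3, hx4, hlt, hval⟩
        obtain ⟨U, hU, hUi⟩ := locInj (by simp [Complex.finrank_real_complex]) hdbl (hDt _ hxD)
        obtain ⟨y, ⟨hyU, hyD⟩, hne⟩ := hacc U hU
        apply hne
        refine hUi hyU (mem_of_mem_nhds hU) ?_
        have e1 : dbl β y = 0 := sub_eq_zero.2 hyD.2.2.2.2
        have e2 : dbl β (u, q, s, t) = 0 := sub_eq_zero.2 hval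
        rw [e1, e2]
      · have hop : IsOpen {y : ℝ × ℝ × ℝ × ℝ | β (y.1, y.2.1, y.2.2.1) ≠
            β (y.1, y.2.1, y.2.2.2)} :=
          isOpen_ne_fun (hβ.continuous.comp (by fun_prop)) (hβ.continuous.comp (by fun_prop))
        obtain ⟨y, ⟨hyU, hyD⟩, -⟩ := hacc _ (hop.mem_nhds hval)
        exact hyU hyD.2.2.2.2
    · obtain ⟨N, hN, hNy⟩ := near_diag hβ (himm u q ⟨hx1, hx2⟩ s hx3)
      obtain ⟨y, ⟨hyU, hyD⟩, -⟩ := hacc N hN
      exact hNy y hyU hyD.2.2.2.1 hyD.2.2.2.2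
  have hNb0 : ∀ q, Nb (δ / 2) 0 q := fun q => Or.inl (by linarith)
  have hNb1 : ∀ q, Nb (δ / 2) 1 q := fun q => Or.inr (Or.inl (by linarith))
  have hNq0 : ∀ u, Nb (δ / 2) u 0 := fun u => Or.inr (Or.inr (Or.inl (by linarith)))
  have hNq1 : ∀ u, Nb (δ / 2) u 1 := fun u => Or.inr (Or.inr (Or.inr (by linarith)))
  refine ⟨β, ⟨hβ, ?_, ?_, ?_, ?_⟩, ?_, ?_, ?_, ?_⟩
  · intro u hu q hq s hs
    exact hβχ u q ⟨hu, hq⟩ s (hχz' s hs)
  · intro u hu q hq s hs
    exact hoffβ u q ⟨hu, hq⟩ s hs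
  · intro u hu s
    rw [hβρ u 0 s (hρz' u 0 (hNq0 u))]
    exact hc.start u hu s
  · intro u hu s
    rw [hβρ u 1 s (hρz' u 1 (hNq1 u))]
    exact hc.stop u hu s
  · intro q s
    exact hβρ 0 q s (hρz' 0 q (hNb0 q))
  · intro q s
    exact hβρ 1 q s (hρz' 1 q (hNb1 q))
  · intro u hu q hq
    exact himm u q ⟨hu, hq⟩
  · classical
    refine ⟨hfin.toFinset.image Prod.fst, ?_, ?_, ?_⟩
    · intro u hu
      rw [Finset.mem_image] at hu
      obtain ⟨d, hd, rfl⟩ := hu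
      rw [Finite.mem_toFinset] at hd
      exact (hρi _ _ (hDρ d hd)).1
    · intro u hu huB q hq
      by_contra hcon
      unfold Pool.Agent.Helper27.H.ArcD.Inj InjOn at hcon
      push Not at hcon
      obtain ⟨s, hs, t, ht, he, hne⟩ := hcon
      apply huB
      rw [Finset.mem_image]
      rcases lt_or_gt_of_ne hne with hlt | hlt
      · exact ⟨(u, q, s, t), (Finite.mem_toFinset _).2 ⟨⟨hu, hq⟩, hs, ht, hlt, he⟩, rfl⟩
      · exact ⟨(u, q, t, s), (Finite.mem_toFinset _).2 ⟨⟨hu, hq⟩, ht, hs, hlt, he.symm⟩, rfl⟩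
    · intro u hu
      rw [Finset.mem_image] at hu
      obtain ⟨d, hd, rfl⟩ := hu
      rw [Finite.mem_toFinset] at hd
      obtain ⟨u, q, a, b⟩ := d
      have hi := hρi _ _ (hDρ _ hd)
      have hx := hDχ _ hd
      have ht := hDt _ hd
      have hd' := hd
      obtain ⟨a1, a2, a3, a4, a5⟩ := hd'
      simp only at hi hx ht a1 a2 a3 a4 a5
      have hU : β (u, q, a) ∈ A.U := by
        rcases hx with h | h
        · exact hoffβ u q a1 a ⟨(hχi a h).1.le, (hχi a h).2.le⟩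
        · rw [a5]
          exact hoffβ u q a1 b ⟨(hχi b h).1.le, (hχi b h).2.le⟩
      have hU' : β (u, q, b) ∈ A.U := by rw [← a5]; exact hU
      have hioo : ∀ s ∈ Icc A.s₀ A.s₁, β (u, q, s) ∈ A.U → s ∈ Ioo A.s₀ A.s₁ := by
        intro s hs hsU
        refine ⟨lt_of_le_of_ne hs.1 ?_, lt_of_le_of_ne hs.2 ?_⟩
        · rintro rfl
          rw [hβχ u q a1 A.s₀ (hχz' _ (Or.inl hm01.1.le))] at hsU
          exact A.off₀ hsU
        · rintro rfl
          rw [hβχ u q a1 A.s₁ (hχz' _ (Or.inr hm01.2.2.le))] at hsU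
          exact A.off₁ hsU
      refine ⟨q, a, b, ⟨hi.1, hi.2, hioo a a2 hU, hioo b a3 hU', a4, a5, ?_, ?_⟩, ?_⟩
      · intro s hs s' hs' hlt he
        have := hsep (u, q, s, s') ⟨a1, hs, hs', hlt, he⟩ (u, q, a, b) hd (Or.inl rfl)
        simp only [Prod.mk.injEq, true_and] at this
        exact this
      · intro ζ η σ τ h
        have e : fderiv ℝ (dbl β) (u, q, a, b) (ζ, η, σ, τ) =
            fderiv ℝ β (u, q, a) (ζ, η, σ) - fderiv ℝ β (u, q, b) (ζ, η, τ) := by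
          let P₁ : ℝ × ℝ × ℝ × ℝ →L[ℝ] ℝ × ℝ × ℝ :=
            (ContinuousLinearMap.fst ℝ ℝ (ℝ × ℝ × ℝ)).prod
              (((ContinuousLinearMap.fst ℝ ℝ (ℝ × ℝ)).comp
                (ContinuousLinearMap.snd ℝ ℝ (ℝ × ℝ × ℝ))).prod
              ((ContinuousLinearMap.fst ℝ ℝ ℝ).comp ((ContinuousLinearMap.snd ℝ ℝ (ℝ × ℝ)).comp
                (ContinuousLinearMap.snd ℝ ℝ (ℝ × ℝ × ℝ)))))
          let P₂ : ℝ × ℝ × ℝ × ℝ →L[ℝ] ℝ × ℝ × ℝ :=
            (ContinuousLinearMap.fst ℝ ℝ (ℝ × ℝ × ℝ)).prod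
              (((ContinuousLinearMap.fst ℝ ℝ (ℝ × ℝ)).comp
                (ContinuousLinearMap.snd ℝ ℝ (ℝ × ℝ × ℝ))).prod
              ((ContinuousLinearMap.snd ℝ ℝ ℝ).comp ((ContinuousLinearMap.snd ℝ ℝ (ℝ × ℝ)).comp
                (ContinuousLinearMap.snd ℝ ℝ (ℝ × ℝ × ℝ)))))
          have d1 : HasFDerivAt (fun z => β (P₁ z)) ((fderiv ℝ β (u, q, a)).comp P₁) (u, q, a, b) :=
            HasFDerivAt.comp (g := β) (f := P₁) (u, q, a, b)
              ((hβ.differentiable (by simp) (u, q, a)).hasFDerivAt) P₁.hasFDerivAt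
          have d2 : HasFDerivAt (fun z => β (P₂ z)) ((fderiv ℝ β (u, q, b)).comp P₂) (u, q, a, b) :=
            HasFDerivAt.comp (g := β) (f := P₂) (u, q, a, b)
              ((hβ.differentiable (by simp) (u, q, b)).hasFDerivAt) P₂.hasFDerivAt
          have d3 : HasFDerivAt (dbl β) _ (u, q, a, b) := d1.sub d2
          rw [d3.fderiv]
          rfl
        have h2 : fderiv ℝ (dbl β) (u, q, a, b) (ζ, η, σ, τ) =
            fderiv ℝ (dbl β) (u, q, a, b) 0 := by
          rw [e, h, sub_self, map_zero]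
        have h3 := ht h2
        simp only [Prod.mk_eq_zero] at h3
        exact h3
      · intro q' hq' hne
        by_contra hcon
        unfold Pool.Agent.Helper27.H.ArcD.Inj InjOn at hcon
        push Not at hcon
        obtain ⟨s, hs, t, ht', he, hne'⟩ := hcon
        rcases lt_or_gt_of_ne hne' with hlt | hlt
        · have := hsep (u, q', s, t) ⟨⟨a1.1, hq'⟩, hs, ht', hlt, he⟩ (u, q, a, b) hd (Or.inl rfl)
          simp only [Prod.mk.injEq, true_and] at this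
          exact hne this.1
        · have := hsep (u, q', t, s) ⟨⟨a1.1, hq'⟩, ht', hs, hlt, he.symm⟩ (u, q, a, b) hd
            (Or.inl rfl)
          simp only [Prod.mk.injEq, true_and] at this
          exact hne this.1

end Pool.Agent.Helper34.BI.H


end

/-! ## Helper70.BI.M_NF1 -/

section

/-!
# Project BI, part (E), module NF1: normal form at one end, keeping the other end
-/

set_option autoImplicit false

open scoped Manifold ContDiff Topology ComplexConjugate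
open Set Filter Pool.Agent.Helper65.Barb Pool.Agent.Helper18.BI

namespace Pool.Agent.Helper70.BI

namespace NF1

theorem rsq_ax (c a : ℝ) : rsq c (ax a) = (a - c) ^ 2 := by
  simp [rsq, nsq, ax]

theorem ax_mem_neck {a : ℝ} (h1 : 1 / 5 ≤ a) (h2 : a ≤ 4 / 5) : ax a ∈ neck :=
  ⟨rfl, h1, h2, rfl⟩

theorem le_rsq_of_mem_SP {c : ℝ} (hc : c = 0 ∨ c = 1) {p : R4} (hp : p ∈ SP) :
    1 / 25 ≤ rsq c p := by
  have e : rsq 1 p = rsq 0 p - 2 * p.2.1 + 1 := rsq_one_eq p
  have h0 := sq_le_rsq p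
  have h1 := sq_le_rsq_one p
  rcases hp with (hp | hp) | hp
  · obtain ⟨-, h2⟩ := hp
    rcases hc with rfl | rfl
    · exact h2.ge
    · have h3 : p.2.1 ≤ 1 / 5 := by nlinarith
      rw [e, h2]; linarith
  · obtain ⟨-, h2⟩ := hp
    rcases hc with rfl | rfl
    · have h3 : 4 / 5 ≤ p.2.1 := by nlinarith
      linarith
    · exact h2.ge
  · obtain ⟨-, h2, h3, h4⟩ := hp
    have h5 : (p.2.1 - c) ^ 2 ≤ rsq c p := by
      rcases hc with rfl | rfl
      · simpa using h0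
      · exact h1
    refine le_trans ?_ h5
    rcases hc with rfl | rfl <;> nlinarith

theorem foot_mem_flat {c : ℝ} (hc : c = 0 ∨ c = 1) : ax (1 / 5 + 3 / 5 * c) ∈ flat c := by
  refine ⟨rfl, ?_⟩
  rw [rsq_ax]
  rcases hc with rfl | rfl <;> norm_num

theorem centre_mem_flat (c : ℝ) : ax c ∈ flat c := by
  refine ⟨rfl, ?_⟩
  rw [rsq_ax]
  norm_num

theorem ball_mem_flat {c : ℝ} {x₀ : R3} (h : nsq (x₀ - pc c) < 1 / 25) :
    ((1 / 2 : ℝ), x₀) ∈ flat c := by
  refine ⟨rfl, ?_⟩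
  have e : rsq c ((1 / 2 : ℝ), x₀) = nsq (x₀ - pc c) := by
    simp [rsq, nsq, pc]
  rw [e]
  exact h.le

theorem embOn_of_br {c γ e : ℝ} {F : R4 → R4} (h : Br c F γ e) : EmbOn I4 F SP :=
  ⟨fun p hp => h.loc p (Or.inl hp), h.inj⟩

theorem inj_dfam (G : DFam I4 R4) : Function.Injective (fun y => G.f (1, y)) := fun p q h => by
  have := congrArg (fun y => G.g (1, y)) h
  simpa [G.gf] using this

theorem diff_dfam (G : DFam I4 R4) (p : R4) : DifferentiableAt ℝ (fun y => G.f (1, y)) p :=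
  ((ld_iff.1 (ld_dfam G 1 p)).1.self_of_nhds).differentiableAt (by simp)

theorem diff_of_ld {F : R4 → R4} {p : R4} (h : LD F p) : DifferentiableAt ℝ F p :=
  ((ld_iff.1 h).1.self_of_nhds).differentiableAt (by simp)

theorem fderiv_post (G : DFam I4 R4) {F : R4 → R4} {p : R4} (h : LD F p) :
    fderiv ℝ (fun q => G.f (1, F q)) p =
      (fderiv ℝ (fun y => G.f (1, y)) (F p)).comp (fderiv ℝ F p) :=
  fderiv_comp p (diff_dfam G (F p)) (diff_of_ld h)

theorem br_post {c γ e : ℝ} {F : R4 → R4} (h : Br c F γ e)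
    (G : DFam I4 R4) : Br c (fun q => G.f (1, F q)) γ e := by
  have hi := inj_dfam G
  refine ⟨fun p hp => ld_comp (F := fun y => G.f (1, y)) (h.loc p hp) (ld_dfam G 1 (F p)),
    fun p hp q hq he => h.inj hp hq (hi he), fun p hp q hq he => h.injF hp hq (hi he),
    h.mem, ?_, ?_⟩
  · obtain ⟨x₀, h1, h2, l, v, h3, h4⟩ := h.cr
    refine ⟨x₀, h1, congrArg (fun y => G.f (1, y)) h2, l, v, h3, ?_⟩
    have hL1 : LD F (ax γ) :=
      h.loc _ (Or.inl (Or.inr (ax_mem_neck h.mem.1.le h.mem.2.le)))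
    have hL2 : LD F (1 / 2, x₀) := h.loc _ (Or.inr (ball_mem_flat h1))
    have h5 : F (ax γ) = F (1 / 2, x₀) := h2
    rw [fderiv_post G hL1, fderiv_post G hL2, h5]
    exact congrArg _ h4
  · intro a ha hm
    refine h.only a ha ?_
    obtain ⟨q, hq, he⟩ := hm
    exact ⟨q, hq, hi he⟩

end NF1

open NF1

theorem m_NF1 (hC1 : StC1) (hLOC : StLOC) (hDET : StDET) (hF : StFam) : StNF1 := by
  intro c F γ e U hc hBr hdet hU hUp hcU haU
  obtain ⟨F₁, hB1, ⟨η, hη, h1⟩, himg, hStr, hcore⟩ := hC1 c F γ e hc hBr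
  have hγ : 1 / 25 ≤ rsq c (ax γ) :=
    le_rsq_of_mem_SP hc (Or.inr (ax_mem_neck hBr.mem.1.le hBr.mem.2.le))
  have hcγ : core F₁ γ = core F γ := h1 (ax γ) (by linarith)
  have hopen : IsOpen {p : R4 | 1 / 25 - η < rsq c p} :=
    isOpen_lt continuous_const (continuous_rsq c)
  have heq : EqOn F F₁ {p : R4 | 1 / 25 - η < rsq c p} := fun p hp => (h1 p (le_of_lt hp)).symm
  have hnear : NearEq F F₁ SP := ⟨_, hopen, fun p hp => by
    have := le_rsq_of_mem_SP hc hp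
    show 1 / 25 - η < rsq c p
    linarith, heq⟩
  have hE1 : Eqv F F₁ := eqv_of_nearEq hF (embOn_of_br hBr) hnear
  -- the determinant at the centre
  have hfl : flat c = FB ∨ flat c = flat 0 ∨ flat c = flat 1 := by
    rcases hc with rfl | rfl
    · exact Or.inr (Or.inl rfl)
    · exact Or.inr (Or.inr rfl)
  have hfoot : fderiv ℝ F₁ (ax (1 / 5 + 3 / 5 * c)) = fderiv ℝ F (ax (1 / 5 + 3 / 5 * c)) := by
    have h2 : ax (1 / 5 + 3 / 5 * c) ∈ {p : R4 | 1 / 25 - η < rsq c p} := by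
      show 1 / 25 - η < rsq c _
      rw [rsq_ax]
      rcases hc with rfl | rfl <;> norm_num <;> linarith
    exact ((heq.eventuallyEq_of_mem (hopen.mem_nhds h2)).fderiv_eq).symm
  have hdet1 : 0 < (fderiv ℝ F₁ (ax c)).det :=
    hDET F₁ (flat c) hfl (fun p hp => hB1.loc p (Or.inr hp)) _ (foot_mem_flat hc) _
      (centre_mem_flat c) (by rw [hfoot]; exact hdet)
  obtain ⟨G, hG0, hC, hG1⟩ := hLOC F₁ (ax c) U (hB1.loc _ (Or.inr (centre_mem_flat c))) hdet1 hU
    hUp (by rw [← hcore, hcγ]; exact hcU) haU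
  refine ⟨fun q => G.f (1, F₁ q), G, hE1.trans (eqv_postcomp hF (embOn_of_br hB1) G hG0),
    br_post hB1 G, ?_, congrArg (fun y => G.f (1, y)) hcore, hG1, hG0, hC,
    ⟨η, hη, fun p hp => congrArg (fun y => G.f (1, y)) (h1 p hp)⟩, ?_⟩
  · obtain ⟨τ, t1, t2, t3, t4⟩ := hStr
    refine ⟨τ, t1, t2, t3, ?_⟩
    filter_upwards [t4] with s hs
    exact congrArg (fun y => G.f (1, y)) hs
  · rw [← himg, image_image]

end Pool.Agent.Helper70.BI


end

/-! ## Helper70.BI.M_NF -/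

section

/-!
# Project BI, part (E), module NF: normal form at both ends
-/

set_option autoImplicit false

open scoped Manifold ContDiff Topology ComplexConjugate
open Set Filter Pool.Agent.Helper65.Barb Pool.Agent.Helper18.BI

namespace Pool.Agent.Helper70.BI

namespace NF

open Pool.Agent.Helper70.BI.NF1

private theorem sph_subset {c : ℝ} (hc : c = 0 ∨ c = 1) : sph (1 - c) ⊆ SP := by
  rcases hc with rfl | rfl
  · rw [sub_zero]
    exact fun p hp => Or.inl (Or.inr hp)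
  · rw [sub_self]
    exact fun p hp => Or.inl (Or.inl hp)

/-- the data `Br` depend on the germ along `SP ∪ flat c` only -/
private theorem br_congr {c γ e : ℝ} {F F' : R4 → R4} (hc : c = 0 ∨ c = 1) (h : Br c F γ e)
    (hN : ∀ p ∈ SP ∪ flat c, F =ᶠ[𝓝 p] F') : Br c F' γ e := by
  have hE : ∀ p ∈ SP ∪ flat c, F p = F' p := fun p hp => (hN p hp).self_of_nhds
  have hsub : flat c ∪ sph (1 - c) ⊆ SP ∪ flat c := by
    rintro p (hp | hp)
    · exact Or.inr hp
    · exact Or.inl (sph_subset hc hp)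
  have hnk : ∀ a ∈ Icc (1 / 5 : ℝ) (4 / 5), ax a ∈ SP ∪ flat c := fun a ha =>
    Or.inl (Or.inr (ax_mem_neck ha.1 ha.2))
  have himg : F' '' flat c = F '' flat c :=
    image_congr fun p hp => (hE p (Or.inr hp)).symm
  refine ⟨fun p hp => ld_congr (hN p hp) (h.loc p hp),
    h.inj.congr fun p hp => hE p (Or.inl hp), h.injF.congr fun p hp => hE p (hsub hp), h.mem,
    ?_, ?_⟩
  · obtain ⟨x₀, h1, h2, l, v, h3, h4⟩ := h.cr
    have m1 : ax γ ∈ SP ∪ flat c := hnk γ ⟨h.mem.1.le, h.mem.2.le⟩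
    have m2 : ((1 / 2 : ℝ), x₀) ∈ SP ∪ flat c := Or.inr (ball_mem_flat h1)
    refine ⟨x₀, h1, ?_, l, v, h3, ?_⟩
    · show F' (ax γ) = F' (1 / 2, x₀)
      rw [← hE _ m1, ← hE _ m2]
      exact h2
    · rw [← (hN _ m1).fderiv_eq, ← (hN _ m2).fderiv_eq]
      exact h4
  · intro a ha hm
    refine h.only a ha ?_
    rw [himg] at hm
    have h5 : core F' a = core F a := (hE _ (hnk a ha)).symm
    rwa [h5] at hm

private theorem rsq_flat_other {c : ℝ} (hc : c = 0 ∨ c = 1) {p : R4} (hp : p ∈ flat (1 - c)) :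
    1 / 25 ≤ rsq c p := by
  have e : rsq 1 p = rsq 0 p - 2 * p.2.1 + 1 := rsq_one_eq p
  have h0 := sq_le_rsq p
  have h1 := sq_le_rsq_one p
  obtain ⟨-, h2⟩ := hp
  rcases hc with rfl | rfl
  · rw [sub_zero] at h2
    have h3 : 4 / 5 ≤ p.2.1 := by nlinarith
    nlinarith
  · rw [sub_self] at h2
    have h3 : p.2.1 ≤ 1 / 5 := by nlinarith
    nlinarith

/-- transport of the data at the other end -/
private theorem br_other {c γ e η : ℝ} {F F' : R4 → R4} (hc : c = 0 ∨ c = 1) (G : DFam I4 R4)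
    (h : Br (1 - c) F γ e) (hη : 0 < η)
    (h1 : ∀ p, 1 / 25 - η ≤ rsq c p → F' p = G.f (1, F p)) : Br (1 - c) F' γ e := by
  have hc' : 1 - c = 0 ∨ 1 - c = 1 := by
    rcases hc with rfl | rfl
    · right; norm_num
    · left; norm_num
  refine br_congr hc' (br_post h G) fun p hp => ?_
  have h2 : 1 / 25 ≤ rsq c p := by
    rcases hp with hp | hp
    · exact le_rsq_of_mem_SP hc hp
    · exact rsq_flat_other hc hp
  have hopen : IsOpen {p : R4 | 1 / 25 - η < rsq c p} :=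
    isOpen_lt continuous_const (continuous_rsq c)
  have h3 : p ∈ {p : R4 | 1 / 25 - η < rsq c p} := by
    show 1 / 25 - η < rsq c p
    linarith
  filter_upwards [hopen.mem_nhds h3] with q hq
  exact (h1 q (le_of_lt hq)).symm

private theorem image_other {c η : ℝ} {F F' : R4 → R4} (hc : c = 0 ∨ c = 1) (G : DFam I4 R4)
    (hη : 0 < η) (h1 : ∀ p, 1 / 25 - η ≤ rsq c p → F' p = G.f (1, F p)) :
    F' '' flat (1 - c) = (fun y => G.f (1, y)) '' (F '' flat (1 - c)) := by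
  rw [image_image]
  refine image_congr fun p hp => h1 p ?_
  have := rsq_flat_other hc hp
  linarith

private theorem disj_image (G : DFam I4 R4) {A B : Set R4} (h : Disjoint A B) :
    Disjoint ((fun y => G.f (1, y)) '' A) ((fun y => G.f (1, y)) '' B) :=
  (disjoint_image_iff (inj_dfam G)).2 h

private theorem locFB {F : R4 → R4} {α β e d : ℝ} (ha : Br 0 F α e) (hb : Br 1 F β d) :
    ∀ p ∈ FB, LD F p := by
  rintro p ((hp | hp) | hp)
  · exact ha.loc p (Or.inr hp)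
  · exact hb.loc p (Or.inr hp)
  · exact ha.loc p (Or.inl (Or.inr hp))

private theorem det_id {F : R4 → R4} {p : R4} (h : ∀ᶠ q in 𝓝 p, F q = q) :
    0 < (fderiv ℝ F p).det := by
  have h1 : F =ᶠ[𝓝 p] fun q => q := h
  rw [h1.fderiv_eq, fderiv_fun_id, ContinuousLinearMap.det]
  simp

private theorem rank_R4 : 1 < Module.rank ℝ R4 := by
  have h : Module.finrank ℝ R4 = 4 := by
    simp [Module.finrank_prod]
  rw [← Module.finrank_eq_rank, h]
  norm_num

/-- composition of a strand function with the affine parametrization -/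
private theorem affine_strand {τ : ℝ → ℝ} {γ e x : ℝ}
    (hs : ∀ᶠ s in 𝓝 (1 / 2 : ℝ), ContDiffAt ℝ ∞ τ s) (hv : τ (1 / 2) = γ)
    (hd : 0 < e * deriv τ (1 / 2)) :
    (∀ᶠ a in 𝓝 x, ContDiffAt ℝ ∞ (fun a => τ (1 / 2 + e * (a - x))) a) ∧
      τ (1 / 2 + e * (x - x)) = γ ∧ 0 < deriv (fun a => τ (1 / 2 + e * (a - x))) x := by
  have hlim : Tendsto (fun a : ℝ => 1 / 2 + e * (a - x)) (𝓝 x) (𝓝 (1 / 2)) := by
    have : ContinuousAt (fun a : ℝ => 1 / 2 + e * (a - x)) x := by fun_prop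
    have h := this.tendsto
    simpa using h
  refine ⟨?_, ?_, ?_⟩
  · filter_upwards [hlim.eventually hs] with a ha
    exact ha.comp a (by fun_prop)
  · rw [sub_self, mul_zero, add_zero, hv]
  · have h7 : HasDerivAt (fun a : ℝ => 1 / 2 + e * (a - x)) e x := by
      have := (((hasDerivAt_id x).sub_const x).const_mul e).const_add (1 / 2)
      simpa using this
    have h8 : HasDerivAt τ (deriv τ (1 / 2)) (1 / 2 + e * (x - x)) := by
      rw [sub_self, mul_zero, add_zero]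
      exact (hs.self_of_nhds.differentiableAt (by simp)).hasDerivAt
    have h9 := (h8.comp x h7).deriv
    have h10 : deriv (fun a => τ (1 / 2 + e * (a - x))) x = deriv τ (1 / 2) * e := h9
    rw [h10]
    linarith

end NF

open NF NF1 in
/-- **MODULE NF.** -/
theorem m_NF (hNF1 : StNF1) (hNF2 : StNF2) (hRM : StRM) (hRG : StRG) (hDET : StDET)
    (hF : StFam) : StNF := by
  have _ := hF
  intro F α β e d he hd hT hdet
  have hneck : ∀ a ∈ Icc (1 / 5 : ℝ) (4 / 5), ax a ∈ FB := fun a ha =>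
    Or.inr (ax_mem_neck ha.1 ha.2)
  -- first end
  have hdet0 : 0 < (fderiv ℝ F (ax (1 / 5 + 3 / 5 * 0))).det := by
    refine hDET F FB (Or.inl rfl) (locFB hT.a hT.b) _ (hneck (1 / 2) ⟨by norm_num, by norm_num⟩) _
      (hneck _ ⟨by norm_num, by norm_num⟩) hdet
  obtain ⟨F₁, G, hE1, hA1, hS1, hc1, hid1, -, -, ⟨η, hη, hG1⟩, himg1⟩ :=
    hNF1 0 F α e univ (Or.inl rfl) hT.a hdet0 isOpen_univ isPreconnected_univ (mem_univ _)
      (mem_univ _)
  have hB1 : Br 1 F₁ β d := by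
    have h := br_other (c := 0) (Or.inl rfl) G (F := F) (F' := F₁) (γ := β) (e := d) (η := η)
      (by rw [sub_zero]; exact hT.b) hη hG1
    rwa [sub_zero] at h
  have hdis1 : Disjoint (F₁ '' flat 0) (F₁ '' flat 1) := by
    have h := image_other (c := 0) (Or.inl rfl) G hη hG1
    rw [sub_zero] at h
    rw [himg1, h]
    exact disj_image G hT.dis
  -- second end
  have hdet1 : 0 < (fderiv ℝ F₁ (ax (1 / 5 + 3 / 5 * 1))).det := by
    refine hDET F₁ FB (Or.inl rfl) (locFB hA1 hB1) (ax 0) (Or.inl (Or.inl (centre_mem_flat 0))) _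
      (hneck _ ⟨by norm_num, by norm_num⟩) (det_id hid1)
  have hU1 : core F₁ β ∈ ({ax 0}ᶜ : Set R4) := by
    intro h
    obtain ⟨x₀, h1, h2, -⟩ := hB1.cr
    have m1 : ax 0 ∈ F₁ '' flat 0 := ⟨ax 0, centre_mem_flat 0, hid1.self_of_nhds⟩
    have m2 : ax 0 ∈ F₁ '' flat 1 := by
      refine ⟨(1 / 2, x₀), ball_mem_flat h1, ?_⟩
      rw [← h2]
      exact h
    exact Set.disjoint_left.1 hdis1 m1 m2
  have hU2 : ax 1 ∈ ({ax 0}ᶜ : Set R4) := by
    intro h
    have h1 : (1 : ℝ) = 0 := congrArg (fun p : R4 => p.2.1) h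
    exact one_ne_zero h1
  obtain ⟨F₂, G', hE2, hB2, hS2, hc2, hid2, -, ⟨C, hC, hCU, hG'C⟩, ⟨η', hη', hG2⟩, himg2⟩ :=
    hNF1 1 F₁ β d {ax 0}ᶜ (Or.inr rfl) hB1 hdet1 isOpen_compl_singleton
      (isConnected_compl_singleton_of_one_lt_rank rank_R4 _).isPreconnected hU1 hU2
  have hA2 : Br 0 F₂ α e := by
    have h := br_other (c := 1) (Or.inr rfl) G' (F := F₁) (F' := F₂) (γ := α) (e := e) (η := η')
      (by rw [sub_self]; exact hA1) hη' hG2
    rwa [sub_self] at h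
  have hdis2 : Disjoint (F₂ '' flat 0) (F₂ '' flat 1) := by
    have h := image_other (c := 1) (Or.inr rfl) G' hη' hG2
    rw [sub_self] at h
    rw [himg2, h]
    exact disj_image G' hdis1
  -- `F₂` near `ax 0`
  have hG'id : ∀ᶠ y in 𝓝 (ax 0), G'.f (1, y) = y := by
    have h1 : ax 0 ∈ Cᶜ := fun h => hCU h rfl
    filter_upwards [hC.isClosed.isOpen_compl.mem_nhds h1] with y hy
    exact hG'C 1 y hy
  have hopen : IsOpen {p : R4 | 1 / 25 - η' < rsq 1 p} :=
    isOpen_lt continuous_const (continuous_rsq 1)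
  have hax0 : ax 0 ∈ {p : R4 | 1 / 25 - η' < rsq 1 p} := by
    show 1 / 25 - η' < rsq 1 (ax 0)
    rw [rsq_ax]
    norm_num
    linarith
  have hF2near : ∀ᶠ q in 𝓝 (ax 0), F₂ q = G'.f (1, F₁ q) := by
    filter_upwards [hopen.mem_nhds hax0] with q hq
    exact hG2 q (le_of_lt hq)
  have hid20 : ∀ᶠ q in 𝓝 (ax 0), F₂ q = q := by
    filter_upwards [hF2near, hid1, hG'id] with q h1 h2 h3
    rw [h1, h2, h3]
  -- the strands
  obtain ⟨τ₀, t1, t2, t3, t4⟩ := hS1
  obtain ⟨τ₁, u1, u2, u3, u4⟩ := hS2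
  have t5 : ∀ᶠ s in 𝓝 (1 / 2 : ℝ), F₂ (s, pc 0) = core F₂ (τ₀ s) := by
    have c1 : ContinuousAt τ₀ (1 / 2) := t1.self_of_nhds.continuousAt
    have c2 : ∀ᶠ s in 𝓝 (1 / 2 : ℝ), τ₀ s < 4 / 5 := by
      refine c1.eventually (Iio_mem_nhds ?_)
      rw [t2]
      exact hA1.mem.2
    have c3 : ContinuousAt (fun s : ℝ => ((s, pc 0) : R4)) (1 / 2) := by fun_prop
    have c4 : ∀ᶠ s in 𝓝 (1 / 2 : ℝ), F₂ (s, pc 0) = G'.f (1, F₁ (s, pc 0)) :=
      c3.eventually hF2near
    filter_upwards [c2, c4, t4] with s h1 h2 h3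
    have h4 : core F₂ (τ₀ s) = G'.f (1, core F₁ (τ₀ s)) := by
      refine hG2 _ ?_
      rw [rsq_ax]
      nlinarith
    rw [h2, h3, h4]
  obtain ⟨p1, p2, p3⟩ := affine_strand (x := 3 / 5) t1 t2 t3
  obtain ⟨q1, q2, q3⟩ := affine_strand (x := 2 / 5) u1 u2 u3
  obtain ⟨m, hm, hm1, hm2⟩ := hRM.2 (2 / 5) (3 / 5) β α
    (fun a => τ₁ (1 / 2 + d * (a - 2 / 5))) (fun a => τ₀ (1 / 2 + e * (a - 3 / 5)))
    (by norm_num) (by norm_num) (by norm_num) hB1.mem.1 hT.ord hA1.mem.2 q1 p1 q2 p2 q3 p3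
  obtain ⟨δ₀, hδ₀, n0⟩ := hNF2 0 F₂ α (3 / 5) e τ₀ m (Or.inl rfl) he hA2 hid20 t2 t5 hm
    ⟨by norm_num, by norm_num⟩ hm2
  obtain ⟨δ₁, hδ₁, n1⟩ := hNF2 1 F₂ β (2 / 5) d τ₁ m (Or.inr rfl) hd hB2 hid2 u2 u4 hm
    ⟨by norm_num, by norm_num⟩ hm1
  have hδ : 0 < min δ₀ δ₁ := lt_min hδ₀ hδ₁
  have N0 := n0 (min δ₀ δ₁) ⟨hδ, min_le_left _ _⟩
  have N1 := n1 (min δ₀ δ₁) ⟨hδ, min_le_right _ _⟩
  obtain ⟨-, -, r3, -, -, r6⟩ := hRG m hm
  have himg : ∀ c : ℝ, (c = 0 ∨ c = 1) → (fun p => F₂ (repm m p)) '' flat c = F₂ '' flat c := by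
    intro c hc
    refine image_congr fun p hp => ?_
    rw [(r3 c hc p hp).self_of_nhds]
  refine ⟨fun p => F₂ (repm m p), min δ₀ δ₁, ⟨⟨N0.br, N1.br, ?_, by norm_num⟩, N0, N1⟩, ?_⟩
  · rw [himg 0 (Or.inl rfl), himg 1 (Or.inr rfl)]
    exact hdis2
  · exact hE1.trans (hE2.trans (r6 F₂ (embOn_of_br hA2)).2)

end Pool.Agent.Helper70.BI


end

/-! ## Helper70.BI.M_NO -/

section

/-!
# Project BI, part (E), module NO: a germ whose bar stays near the ball but does not cross it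
-/

set_option autoImplicit false

open scoped Manifold ContDiff Topology ComplexConjugate
open Set Filter Pool.Agent.Helper65.Barb Pool.Agent.Helper18.BI

namespace Pool.Agent.Helper70.BI

open Pool.Agent.Helper34.BI (cfac BarData barFam)
open NF1

namespace NO

theorem isCompact_sph (c : ℝ) : IsCompact (sph c) := by
  apply Metric.isCompact_of_isClosed_isBounded
  · apply IsClosed.inter (isClosed_eq continuous_fst continuous_const)
    exact isClosed_eq (continuous_rsq c) continuous_const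
  · exact (isBounded_of_rsq c (1 / 25) (1 / 2) (1 / 2)).subset
      (fun p hp => ⟨hp.1.ge, hp.1.le, hp.2.le⟩)

/-- a continuous function which omits a value on a compact set stays away from it -/
theorem exists_far {X : Type*} [TopologicalSpace X] {K : Set X} (hK : IsCompact K) {f : X → R4}
    (hf : ContinuousOn f K) {y : R4} (hy : ∀ p ∈ K, f p ≠ y) :
    ∃ m : ℝ, 0 < m ∧ ∀ p ∈ K, m ≤ ‖f p - y‖ := by
  have h1 : IsClosed (f '' K) := (hK.image_of_continuousOn hf).isClosed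
  have h2 : y ∈ (f '' K)ᶜ := by
    rintro ⟨p, hp, he⟩
    exact hy p hp he
  obtain ⟨m, hm, h3⟩ := Metric.isOpen_iff.1 h1.isOpen_compl y h2
  refine ⟨m, hm, fun p hp => ?_⟩
  by_contra hlt
  push Not at hlt
  exact h3 (Metric.mem_ball.2 (by rwa [dist_eq_norm])) ⟨p, hp, rfl⟩

theorem norm_ax_sub (a b : ℝ) : ‖ax a - ax b‖ = |a - b| := by
  unfold ax
  rw [Prod.norm_def, Prod.norm_def]
  simp

theorem sph_zero_le {p : R4} (h : p ∈ sph 0) : p.2.1 ≤ 1 / 5 := by
  have h1 := sq_le_rsq p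
  rw [h.2] at h1
  nlinarith

theorem le_flat_one {p : R4} (h : p ∈ flat 1) : 4 / 5 ≤ p.2.1 := by
  have h1 := sq_le_rsq_one p
  have h2 := h.2
  nlinarith

theorem neck_eq {p : R4} (h : p ∈ neck) : p = ax p.2.1 :=
  Prod.ext h.1 (Prod.ext rfl h.2.2.2)

theorem fix_of_le {p : R4} (h : p.2.1 ≤ 7 / 10) : 9 / 100 ≤ rsq 1 p := by
  have h1 := sq_le_rsq_one p
  nlinarith

end NO

open NO

theorem m_NO (hNO1 : StNO1) (hCTR : StCTR) (hCL : StCL)
    (hCO : Pool.Agent.Helper34.BI.StCO) : StNO := by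
  intro F d δ r₁ hd hNB hr₁
  have hδ := hNB.pos
  have hδ1 := hNB.small
  have hbr := hNB.br
  have hz : (1 : ℝ) - 1 = 0 := by norm_num
  have hinjF : InjOn F (flat 1 ∪ sph 0) := by
    have := hbr.injF
    rwa [hz] at this
  have hfoot : (1 : ℝ) / 5 + 3 / 5 * 1 = 4 / 5 := by norm_num
  have hcen : F (ax 1) = ax 1 := hNB.near _ (by rw [sub_self, norm_zero]; exact hδ)
  have hc25 : core F (2 / 5) = ax 1 := by
    rw [hNB.str (2 / 5) (by rw [sub_self, abs_zero]; exact hδ)]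
    unfold ax pc
    simp
  -- the two distances
  have hF0 : ContinuousOn F (sph 0) := fun p hp =>
    ((ld_iff.1 (hbr.loc p (Or.inl (Or.inl (Or.inl hp))))).1.self_of_nhds.continuousAt).continuousWithinAt
  obtain ⟨m₁, hm₁, hfar₁⟩ := exists_far (isCompact_sph 0) hF0 (y := ax 1) (by
    intro p hp he
    have h1 : p = ax 1 := hinjF (Or.inr hp) (Or.inl (centre_mem_flat 1)) (he.trans hcen.symm)
    have h2 := sph_zero_le hp
    rw [h1] at h2
    simp only [ax] at h2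
    norm_num at h2)
  have hax : Continuous ax := by
    unfold ax
    fun_prop
  have hK : IsCompact (Icc (1 / 5 : ℝ) (4 / 5) ∩ {a | δ ≤ |a - 2 / 5|}) :=
    isCompact_Icc.inter_right (isClosed_le continuous_const (by fun_prop))
  have hFc : ContinuousOn (core F) (Icc (1 / 5 : ℝ) (4 / 5) ∩ {a | δ ≤ |a - 2 / 5|}) := by
    intro a ha
    have h1 : ax a ∈ SP := Or.inr (ax_mem_neck ha.1.1 ha.1.2)
    have h2 : ContinuousAt F (ax a) := (ld_iff.1 (hbr.loc _ (Or.inl h1))).1.self_of_nhds.continuousAt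
    have h3 : ContinuousAt (core F) a :=
      ContinuousAt.comp (g := F) (f := ax) h2 hax.continuousAt
    exact h3.continuousWithinAt
  obtain ⟨m₂, hm₂, hfar₂⟩ := exists_far hK hFc (y := ax 1) (by
    intro a ha he
    have h1 : ax a ∈ SP := Or.inr (ax_mem_neck ha.1.1 ha.1.2)
    have h2 : ax (2 / 5) ∈ SP := Or.inr (ax_mem_neck (by norm_num) (by norm_num))
    have h3 : ax a = ax (2 / 5) := hbr.inj h1 h2 (he.trans hc25.symm)
    have h4 : a = 2 / 5 := congrArg (fun p : R4 => p.2.1) h3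
    have h5 : δ ≤ |a - 2 / 5| := ha.2
    rw [h4, sub_self, abs_zero] at h5
    linarith)
  set r : ℝ := min (min (m₁ / 2) (m₂ / 2)) (min (δ / 2) (r₁ / 2)) with hrdef
  have hr0 : 0 < r := lt_min (lt_min (by linarith) (by linarith)) (lt_min (by linarith) (by linarith))
  have hrm₁ : r < m₁ := by
    have : r ≤ m₁ / 2 := (min_le_left _ _).trans (min_le_left _ _)
    linarith
  have hrm₂ : r < m₂ := by
    have : r ≤ m₂ / 2 := (min_le_left _ _).trans (min_le_right _ _)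
    linarith
  have hrδ : r < δ := by
    have : r ≤ δ / 2 := (min_le_right _ _).trans (min_le_left _ _)
    linarith
  have hrr₁ : r < r₁ := by
    have : r ≤ r₁ / 2 := (min_le_right _ _).trans (min_le_right _ _)
    linarith
  clear_value r
  have hsph : ∀ p ∈ sph 0, r < ‖F p - ax 1‖ := fun p hp => hrm₁.trans_le (hfar₁ p hp)
  refine ⟨r, r, hr0, hrr₁, hrδ, hr0, hsph,
    fun a ha h => hrm₂.trans_le (hfar₂ a ⟨ha, h⟩), ?_⟩
  intro lam hlam
  have hl0 := hlam.1
  have hlr := hlam.2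
  have hlmem : lam ∈ Ioc (0 : ℝ) 1 := ⟨hl0, by linarith⟩
  obtain ⟨-, -, hcl⟩ := hCL 1 (Or.inr rfl)
  obtain ⟨hemb, hfst, hin, hout, -, hle, -⟩ := hcl lam hlmem
  -- the contracted germ
  have hEl : EmbOn I4 (fun p => F (clc 1 lam p)) SP :=
    (hCTR 1 F (2 / 5) (Or.inr rfl) hbr.loc hbr.inj hbr.injF (hc25.trans hcen.symm) hbr.only
      lam hlmem).1
  set Fl : R4 → R4 := fun p => F (clc 1 lam p) with hFl
  have hFleq : ∀ p : R4, p.2.1 ≤ 7 / 10 → Fl p = F p := fun p hp => by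
    show F (clc 1 lam p) = F p
    rw [hout p (fix_of_le hp)]
  have hflat : ∀ p ∈ flat 1, clc 1 lam p ∈ flat 1 := fun p hp =>
    ⟨(hfst p).trans hp.1, (hle p).trans hp.2⟩
  -- values on the flat ball
  have hFlflat : ∀ p ∈ flat 1, (Fl p).1 = 1 / 2 ∧ 1 - lam / 5 ≤ (Fl p).2.1 := by
    intro p hp
    have h1 : clc 1 lam p = (p.1, pc 1 + lam • (p.2 - pc 1)) := hin p (hp.2.trans (by norm_num))
    have hx := sq_le_rsq_one p
    have hx2 : rsq 1 p ≤ 1 / 25 := hp.2
    have hp1 : |p.2.1 - 1| ≤ 1 / 5 := by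
      apply abs_le_of_sq_le_sq _ (by norm_num)
      linarith
    have hp2 : ‖p.2.2‖ ≤ 1 / 5 := by
      have h3 : ‖p.2.2‖ ^ 2 ≤ (1 / 5) ^ 2 := by
        rw [← Complex.normSq_eq_norm_sq, Complex.normSq_apply]
        unfold rsq nsq at hx2
        simp only at hx2
        nlinarith [sq_nonneg (p.2.1 - 1)]
      exact le_of_sq_le_sq h3 (by norm_num)
    have h2 : ‖clc 1 lam p - ax 1‖ < δ := by
      rw [h1, hp.1, Prod.norm_def, Prod.norm_def]
      refine max_lt ?_ (max_lt ?_ ?_)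
      · simp [ax, hδ]
      · simp only [ax, pc, Prod.snd_sub, Prod.fst_sub, Prod.fst_add, Prod.smul_fst,
          smul_eq_mul, Real.norm_eq_abs]
        rw [show 1 + lam * (p.2.1 - 1) - 1 = lam * (p.2.1 - 1) by ring, abs_mul, abs_of_pos hl0]
        nlinarith [abs_nonneg (p.2.1 - 1)]
      · simp only [ax, pc, Prod.snd_sub, Prod.snd_add, Prod.smul_snd, zero_add, sub_zero]
        rw [norm_smul, Real.norm_eq_abs, abs_of_pos hl0]
        nlinarith [norm_nonneg p.2.2]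
    have h3 : Fl p = clc 1 lam p := hNB.near _ h2
    rw [h3, h1]
    refine ⟨hp.1, ?_⟩
    simp only [pc, Prod.fst_add, Prod.smul_fst, Prod.fst_sub, smul_eq_mul]
    have := (abs_le.1 hp1).1
    nlinarith
  -- the core
  obtain ⟨c₀, _c₁, _δ', -, -, hc₀, -, hc1, -, hc2⟩ := hCO Fl Fl univ hEl hEl isOpen_univ
    (subset_univ _) (fun _ _ => rfl)
  have hcore : ∀ a ∈ Icc (1 / 5 : ℝ) (4 / 5), Fl (ax a) = c₀ a := fun a ha => (hc1 a ha).1
  have hinjc : InjOn c₀ (Icc (1 / 5) (4 / 5)) := by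
    intro a ha b hb he
    rw [← hcore a ha, ← hcore b hb] at he
    have h1 := hEl.2 (Or.inr (ax_mem_neck ha.1 ha.2)) (Or.inr (ax_mem_neck hb.1 hb.2)) he
    exact congrArg (fun p : R4 => p.2.1) h1
  have hlow : ∀ a ∈ Icc (1 / 5 : ℝ) (4 / 5), a ≤ 7 / 10 → c₀ a = core F a := fun a ha h => by
    rw [← hcore a ha]
    exact hFleq (ax a) h
  have hmid : ∀ a, |a - 2 / 5| < δ → c₀ a = (1 / 2 + d * (a - 2 / 5), pc 1) := by
    intro a ha
    have h1 := abs_lt.1 (ha.trans_le hδ1)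
    rw [hlow a ⟨by linarith [h1.1], by linarith [h1.2]⟩ (by linarith [h1.2])]
    exact hNB.str a ha
  have hhigh : ∀ a ∈ Icc (39 / 50 : ℝ) (4 / 5), c₀ a = ax (1 - lam * (1 - a)) := by
    intro a ha
    rw [← hcore a ⟨by linarith [ha.1], ha.2⟩]
    have h1 : clc 1 lam (ax a) = ax (1 - lam * (1 - a)) := by
      rw [hin (ax a) (by rw [rsq_ax]; nlinarith [ha.1, ha.2])]
      refine Prod.ext rfl (Prod.ext ?_ ?_)
      · simp only [ax, pc, Prod.fst_add, Prod.smul_fst, Prod.fst_sub, smul_eq_mul]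
        ring
      · simp [ax, pc]
    show F (clc 1 lam (ax a)) = _
    rw [h1]
    apply hNB.near
    rw [norm_ax_sub, show 1 - lam * (1 - a) - 1 = -(lam * (1 - a)) by ring, abs_neg,
      abs_of_nonneg (mul_nonneg hl0.le (by linarith [ha.2]))]
    nlinarith [ha.1, ha.2]
  obtain ⟨q, hq, hqlow, hqhigh, hqmid, hqinj, hqd⟩ := hNO1 c₀ d δ r lam hd hl0 hlr hrδ hδ1 hc₀
    hinjc (fun a ha => (hc2 a ha).1) hmid hhigh
  -- the family
  have hH : ContDiff ℝ ∞ (fun z : ℝ × ℝ => q z.2) := hq.comp contDiff_snd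
  have D : BarData Fl c₀ (fun z => q z.2) (1 / 100) := by
    refine ⟨hEl.1, by norm_num, by norm_num, hc₀, hH, hcore, ?_⟩
    rintro t a (h | h)
    · exact hqlow a (by linarith)
    · exact hqhigh a (by linarith)
  have hder : ∀ a, fderiv ℝ (fun z : ℝ × ℝ => q z.2) (0, a) (0, 1) = deriv q a := by
    intro a
    have h1 : HasDerivAt q (deriv q a) a := (hq.differentiable (by simp) a).hasDerivAt
    have h2 : HasFDerivAt (fun z : ℝ × ℝ => z.2) (ContinuousLinearMap.snd ℝ ℝ ℝ) (0, a) :=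
      hasFDerivAt_snd
    have h3 : HasFDerivAt (fun z : ℝ × ℝ => q z.2)
        ((ContinuousLinearMap.toSpanSingleton ℝ (deriv q a)).comp
          (ContinuousLinearMap.snd ℝ ℝ ℝ)) (0, a) :=
      HasFDerivAt.comp (g := q) (f := fun z : ℝ × ℝ => z.2) ((0 : ℝ), a) h1.hasFDerivAt h2
    rw [h3.fderiv]
    simp
  have himm : ∀ a ∈ Icc (1 / 5 : ℝ) (4 / 5),
      fderiv ℝ (fun z : ℝ × ℝ => q z.2) (0, a) (0, 1) ≠ 0 := fun a ha => by
    rw [hder]
    exact hqd a ha
  -- the path does not meet the contracted ball before its end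
  have hoff : ∀ a ∈ Ico (1 / 5 : ℝ) (4 / 5), q a ∉ Fl '' flat 1 := by
    intro a ha hm
    have ha' : a ∈ Icc (1 / 5 : ℝ) (4 / 5) := ⟨ha.1, ha.2.le⟩
    obtain ⟨p, hp, he⟩ := hm
    rcases le_or_gt a (2 / 5 - r / 2) with h1 | h1
    · rw [hqlow a h1, hlow a ha' (by linarith)] at he
      have h2 : core F a ∈ F '' flat 1 := ⟨clc 1 lam p, hflat p hp, he⟩
      rcases hbr.only a ha' h2 with h3 | h3
      · rw [h3, hfoot] at ha
        exact lt_irrefl _ ha.2
      · rw [h3] at h1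
        linarith
    · obtain ⟨e1, e2⟩ := hFlflat p hp
      rcases le_or_gt a (79 / 100) with h2 | h2
      · rw [he] at e1 e2
        rcases (hqmid a ⟨h1.le, h2⟩).2 with h3 | h3
        · rw [e1] at h3
          simp at h3
        · linarith
      · rw [he, hqhigh a h2.le, hhigh a ⟨by linarith, ha.2.le⟩] at e2
        simp only [ax] at e2
        nlinarith [ha.2]
  have hdis : ∀ a ∈ Ioo (1 / 5 : ℝ) (4 / 5), q a ∉ Fl '' (sph 0 ∪ sph 1) := by
    intro a ha hm
    have ha' : a ∈ Icc (1 / 5 : ℝ) (4 / 5) := ⟨ha.1.le, ha.2.le⟩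
    obtain ⟨p, hp | hp, he⟩ := hm
    · by_cases hc : a ∈ Icc (2 / 5 - r / 2) (79 / 100 : ℝ)
      · have h1 := (hqmid a hc).1
        rw [← he, hFleq p (by linarith [sph_zero_le hp])] at h1
        exact lt_asymm h1 (hsph p hp)
      · have h1 : q a = Fl (ax a) := by
          rw [hcore a ha']
          rcases le_or_gt a (2 / 5 - r / 2) with h2 | h2
          · exact hqlow a h2
          · refine hqhigh a ?_
            by_contra h3
            push Not at h3
            exact hc ⟨h2.le, h3.le⟩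
        rw [h1] at he
        have h2 := hEl.2 (Or.inl (Or.inl hp)) (Or.inr (ax_mem_neck ha'.1 ha'.2)) he
        rw [h2] at hp
        have h3 := sph_zero_le hp
        simp only [ax] at h3
        linarith [ha.1]
    · exact hoff a ⟨ha.1.le, ha.2⟩ ⟨p, ⟨hp.1, hp.2.le⟩, he⟩
  have hES : EmbOn I4 (fun p => barFam Fl c₀ (fun z => q z.2) (1 / 100) (0, p)) SP :=
    D.embOn himm (hEl.2.mono fun p hp => Or.inl hp) hqinj hdis
  set G : R4 → R4 := fun p => barFam Fl c₀ (fun z => q z.2) (1 / 100) (0, p) with hG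
  have hGlow : ∀ p : R4, p.2.1 ≤ 1 / 5 + 1 / 200 → G p = Fl p := fun p hp =>
    D.barFam_eq (Or.inl (by linarith))
  have hGhigh : ∀ p : R4, 4 / 5 - 1 / 200 ≤ p.2.1 → G p = Fl p := fun p hp =>
    D.barFam_eq (Or.inr (by linarith))
  have hGcore : ∀ a ∈ Icc (1 / 5 : ℝ) (4 / 5), core G a = q a := fun a ha =>
    D.barFam_neck ha.1 ha.2
  have hGflat : ∀ p ∈ flat 1, G p = Fl p := fun p hp => hGhigh p (by linarith [le_flat_one hp])
  -- a point of the flat ball and a point of the spine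
  have key : ∀ p ∈ flat 1, ∀ p' ∈ SP, G p = G p' → p = p' := by
    intro p hp p' hp' he
    rw [hGflat p hp] at he
    rcases hp' with (h | h) | h
    · exfalso
      rw [hGlow p' (by linarith [sph_zero_le h]), hFleq p' (by linarith [sph_zero_le h])] at he
      have h1 : clc 1 lam p = p' := hinjF (Or.inl (hflat p hp)) (Or.inr h) he
      have h2 := le_flat_one (hflat p hp)
      rw [h1] at h2
      linarith [sph_zero_le h]
    · have h' : p' ∈ flat 1 := ⟨h.1, h.2.le⟩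
      rw [hGflat p' h'] at he
      exact hemb.2 (mem_univ _) (mem_univ _)
        (hinjF (Or.inl (hflat p hp)) (Or.inl (hflat p' h')) he)
    · rcases eq_or_lt_of_le h.2.2.1 with h1 | h1
      · have h' : p' ∈ flat 1 := by
          have := foot_mem_flat (c := 1) (Or.inr rfl)
          rw [hfoot, ← h1, ← neck_eq h] at this
          exact this
        rw [hGflat p' h'] at he
        exact hemb.2 (mem_univ _) (mem_univ _)
          (hinjF (Or.inl (hflat p hp)) (Or.inl (hflat p' h')) he)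
      · exfalso
        have h2 : G p' = q p'.2.1 := by
          conv_lhs => rw [neck_eq h]
          exact hGcore _ ⟨h.2.1, h1.le⟩
        rw [h2] at he
        exact hoff p'.2.1 ⟨h.2.1, h1⟩ ⟨p, hp, he⟩
  refine ⟨G, ⟨?_, ?_⟩, fun p hp => ?_, fun p hp => hGhigh p hp, fun a ha => ?_, fun a ha => ?_⟩
  · rintro p (hp | hp)
    · exact hES.1 p hp
    · have h1 : Fl =ᶠ[𝓝 p] G := by
        have h2 : ∀ᶠ y : R4 in 𝓝 p, 4 / 5 - 1 / 200 < y.2.1 := by
          have hcont : Continuous (fun y : R4 => y.2.1) := by fun_prop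
          exact (isOpen_lt continuous_const hcont).mem_nhds (by
            show 4 / 5 - 1 / 200 < p.2.1
            linarith [le_flat_one hp])
        filter_upwards [h2] with y hy
        exact (hGhigh y hy.le).symm
      exact ld_congr h1 (ld_comp (F := F) (m := clc 1 lam) (hemb.1 p (mem_univ _))
        (hbr.loc _ (Or.inr (hflat p hp))))
  · rintro p (hp | hp) p' (hp' | hp') he
    · exact hES.2 hp hp' he
    · exact (key p' hp' p hp he.symm).symm
    · exact key p hp p' hp' he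
    · rw [hGflat p hp, hGflat p' hp'] at he
      exact hemb.2 (mem_univ _) (mem_univ _)
        (hinjF (Or.inl (hflat p hp)) (Or.inl (hflat p' hp')) he)
  · rw [hGlow p hp, hFleq p (by linarith)]
  · rw [hGcore a ⟨ha.1, by linarith [ha.2]⟩, hqlow a ha.2]
    exact hlow a ⟨ha.1, by linarith [ha.2]⟩ (by linarith [ha.2])
  · rw [hGcore a ⟨by linarith [ha.1], ha.2⟩]
    rcases le_or_gt a (79 / 100) with h | h
    · exact (hqmid a ⟨ha.1, h⟩).1
    · rw [hqhigh a h.le, hhigh a ⟨by linarith, ha.2⟩, norm_ax_sub,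
        show 1 - lam * (1 - a) - 1 = -(lam * (1 - a)) by ring, abs_neg,
        abs_of_nonneg (mul_nonneg hl0.le (by linarith [ha.2]))]
      nlinarith [ha.2]

end Pool.Agent.Helper70.BI


end

/-! ## Helper70.BI.M_CTR -/

section

/-!
# Project BI, part (E), module CTR: contraction does not change the class
-/

set_option autoImplicit false

open scoped Manifold ContDiff Topology ComplexConjugate
open Set Filter Pool.Agent.Helper65.Barb Pool.Agent.Helper18.BI

namespace Pool.Agent.Helper70.BI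

open Pool.Agent.Helper34.BI (cfac BarData barFam)

namespace CTR

private theorem cfac_pos {lam : ℝ} (hl : lam ∈ Ioc (0 : ℝ) 1) (q : ℝ) :
    0 < cfac lam q ∧ cfac lam q ≤ 1 := by
  have h0 : 0 ≤ step ((q - 1 / 20) / (1 / 25)) := Real.smoothTransition.nonneg _
  have h1 : step ((q - 1 / 20) / (1 / 25)) ≤ 1 := Real.smoothTransition.le_one _
  unfold cfac
  constructor
  · have : 0 ≤ (1 - lam) * step ((q - 1 / 20) / (1 / 25)) :=
      mul_nonneg (by linarith [hl.2]) h0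
    linarith [hl.1]
  · nlinarith [hl.1, hl.2]

private theorem rsq_ax (c a : ℝ) : rsq c (ax a) = (a - c) ^ 2 := by
  simp [rsq, nsq, ax]

private theorem rsq_self (c : ℝ) : rsq c (ax c) = 0 := by
  rw [rsq_ax]; ring

private theorem mem_sp {c : ℝ} (hc : c = 0 ∨ c = 1) {p : R4} (hp : p ∈ SP) :
    p ∈ sph c ∨ p ∈ sph (1 - c) ∨ p ∈ neck := by
  rcases hc with rfl | rfl
  · rcases hp with (h | h) | h
    · exact Or.inl h
    · rw [show (1 : ℝ) - 0 = 1 by norm_num]; exact Or.inr (Or.inl h)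
    · exact Or.inr (Or.inr h)
  · rcases hp with (h | h) | h
    · rw [show (1 : ℝ) - 1 = 0 by norm_num]; exact Or.inr (Or.inl h)
    · exact Or.inl h
    · exact Or.inr (Or.inr h)

private theorem sph_sub_flat (c : ℝ) {p : R4} (h : p ∈ sph c) : p ∈ flat c := ⟨h.1, h.2.le⟩

private theorem sph_far {c : ℝ} (hc : c = 0 ∨ c = 1) {p : R4} (h : p ∈ sph (1 - c)) :
    9 / 100 ≤ rsq c p := by
  have h2 := h.2
  simp only [rsq, nsq] at h2 ⊢
  have h3 : (p.2.1 - (1 - c)) ^ 2 ≤ (1 / 5) ^ 2 := by nlinarith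
  have h4 := abs_le_of_sq_le_sq' h3 (by norm_num)
  rcases hc with rfl | rfl
  · nlinarith [h4.1, h4.2, sq_nonneg p.2.2.re, sq_nonneg p.2.2.im]
  · nlinarith [h4.1, h4.2, sq_nonneg p.2.2.re, sq_nonneg p.2.2.im]

private theorem neck_eq {p : R4} (h : p ∈ neck) : p = ax p.2.1 :=
  Prod.ext h.1 (Prod.ext rfl h.2.2.2)

private theorem ax_notMem {c : ℝ} (hc : c = 0 ∨ c = 1) : ax c ∉ SP := by
  intro h
  rcases h with (h | h) | h
  · have := h.2
    rw [rsq_ax] at this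
    rcases hc with rfl | rfl <;> norm_num at this
  · have := h.2
    rw [rsq_ax] at this
    rcases hc with rfl | rfl <;> norm_num at this
  · have h1 := h.2.1
    have h2 := h.2.2.1
    simp only [ax] at h1 h2
    rcases hc with rfl | rfl
    · norm_num at h1
    · norm_num at h2

/-- the contraction maps the spine into the spine with the flat ball -/
private theorem maps (hCL : StCL) {c : ℝ} (hc : c = 0 ∨ c = 1) {mu : ℝ}
    (hm : mu ∈ Ioc (0 : ℝ) 1) {p : R4} (hp : p ∈ SP) : clc c mu p ∈ SP ∪ flat c := by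
  obtain ⟨-, -, h⟩ := hCL c hc
  obtain ⟨-, hfst, -, hfix, hax, hle, -⟩ := h mu hm
  rcases mem_sp hc hp with h | h | h
  · exact Or.inr ⟨by rw [hfst]; exact h.1, (hle p).trans h.2.le⟩
  · rw [hfix p (sph_far hc h)]
    exact Or.inl hp
  · rw [neck_eq h, hax]
    obtain ⟨k0, k1⟩ := cfac_pos hm ((p.2.1 - c) ^ 2)
    set k := cfac mu ((p.2.1 - c) ^ 2) with hk
    have a1 := h.2.1
    have a2 := h.2.2.1
    rcases hc with rfl | rfl
    · by_cases hb : 1 / 5 ≤ k * p.2.1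
      · refine Or.inl (Or.inr ⟨rfl, ?_, ?_, rfl⟩)
        · simp only [ax]; linarith
        · simp only [ax]; nlinarith
      · refine Or.inr ⟨rfl, ?_⟩
        rw [rsq_ax]
        have : 0 < k * p.2.1 := mul_pos k0 (by linarith)
        simp only [sub_zero, zero_add]
        nlinarith
    · by_cases hb : 1 + k * (p.2.1 - 1) ≤ 4 / 5
      · refine Or.inl (Or.inr ⟨rfl, ?_, ?_, rfl⟩)
        · simp only [ax]; nlinarith
        · simp only [ax]; linarith
      · refine Or.inr ⟨rfl, ?_⟩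
        rw [rsq_ax]
        have : k * (p.2.1 - 1) < 0 := mul_neg_of_pos_of_neg k0 (by linarith)
        have h5 : -(1 / 5) < k * (p.2.1 - 1) := by linarith
        nlinarith

/-- no double points between the contracted cuff and the bar -/
private theorem key (hCL : StCL) {c : ℝ} (hc : c = 0 ∨ c = 1) {F : R4 → R4} {γ : ℝ}
    (injF : InjOn F (flat c ∪ sph (1 - c))) (hγ : core F γ = F (ax c))
    (only : ∀ a ∈ Icc (1 / 5 : ℝ) (4 / 5), core F a ∈ F '' flat c → a = 1 / 5 + 3 / 5 * c ∨ a = γ)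
    {mu : ℝ} (hm : mu ∈ Ioc (0 : ℝ) 1) {p₀ q : R4} (hp₀ : p₀ ∈ SP) (hp : clc c mu p₀ ∈ flat c)
    (hq : q ∈ SP) (he : F (clc c mu p₀) = F q) : clc c mu p₀ = q := by
  obtain ⟨-, -, h⟩ := hCL c hc
  obtain ⟨hemb, -, -, -, hax, -, -⟩ := h mu hm
  rcases mem_sp hc hq with h | h | h
  · exact injF (Or.inl hp) (Or.inl (sph_sub_flat c h)) he
  · exact injF (Or.inl hp) (Or.inr h) he
  · have hc' : ax c ∈ flat c := ⟨rfl, by rw [rsq_self]; norm_num⟩
    have h1 : core F q.2.1 ∈ F '' flat c := by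
      refine ⟨clc c mu p₀, hp, ?_⟩
      unfold core
      rw [← neck_eq h]
      exact he
    rcases only q.2.1 ⟨h.2.1, h.2.2.1⟩ h1 with h2 | h2
    · refine injF (Or.inl hp) (Or.inl ?_) he
      rw [neck_eq h, h2]
      refine ⟨rfl, ?_⟩
      rw [rsq_ax]
      rcases hc with rfl | rfl <;> norm_num
    · exfalso
      have h3 : F (clc c mu p₀) = F (ax c) := by
        rw [← hγ, he, ← h2]
        unfold core
        rw [← neck_eq h]
      have h4 : clc c mu p₀ = ax c := injF (Or.inl hp) (Or.inl hc') h3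
      have h5 : clc c mu (ax c) = ax c := by
        rw [hax]
        simp
      have h6 : p₀ = ax c := hemb.2 (mem_univ _) (mem_univ _) (h4.trans h5.symm)
      exact ax_notMem hc (h6 ▸ hp₀)

/-- the germ is injective on the contracted spine -/
private theorem inj (hCL : StCL) {c : ℝ} (hc : c = 0 ∨ c = 1) {F : R4 → R4} {γ : ℝ}
    (injS : InjOn F SP) (injF : InjOn F (flat c ∪ sph (1 - c))) (hγ : core F γ = F (ax c))
    (only : ∀ a ∈ Icc (1 / 5 : ℝ) (4 / 5), core F a ∈ F '' flat c → a = 1 / 5 + 3 / 5 * c ∨ a = γ)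
    {mu : ℝ} (hm : mu ∈ Ioc (0 : ℝ) 1) : InjOn (fun p => F (clc c mu p)) SP := by
  intro p hp q hq he
  obtain ⟨-, -, h⟩ := hCL c hc
  obtain ⟨hemb, -, -, -, -, -, -⟩ := h mu hm
  have he' : F (clc c mu p) = F (clc c mu q) := he
  refine hemb.2 (mem_univ _) (mem_univ _) ?_
  rcases maps hCL hc hm hp with h1 | h1
  · rcases maps hCL hc hm hq with h2 | h2
    · exact injS h1 h2 he'
    · exact (key hCL hc injF hγ only hm hq h2 h1 he'.symm).symm
  · rcases maps hCL hc hm hq with h2 | h2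
    · exact key hCL hc injF hγ only hm hp h1 h2 he'
    · exact injF (Or.inl h1) (Or.inl h2) he'

end CTR

/-- **CTR** (contraction does not change the class). -/
theorem m_CTR (hCL : StCL) (hF : StFam) : StCTR := by
  intro c F γ hc hloc injS injF hγ only lam hlam
  obtain ⟨hsm, hone, hcl⟩ := hCL c hc
  have emb : ∀ mu ∈ Ioc (0 : ℝ) 1, EmbOn I4 (fun p => F (clc c mu p)) SP := by
    intro mu hm
    refine ⟨fun p hp => ?_, CTR.inj hCL hc injS injF hγ only hm⟩
    exact ld_comp ((hcl mu hm).1.1 p (mem_univ p)) (hloc _ (CTR.maps hCL hc hm hp))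
  have hmu : ∀ t ∈ Icc (0 : ℝ) 1, 1 - t * (1 - lam) ∈ Ioc (0 : ℝ) 1 := by
    intro t ht
    constructor
    · nlinarith [ht.1, ht.2, hlam.1, hlam.2]
    · nlinarith [ht.1, ht.2, hlam.1, hlam.2]
  have hm : ContDiff ℝ ∞ (fun z : ℝ × R4 => clc c (1 - z.1 * (1 - lam)) z.2) := by
    have h1 : ContDiff ℝ ∞ (fun z : ℝ × R4 => ((1 - z.1 * (1 - lam), z.2) : ℝ × R4)) :=
      (contDiff_const.sub (contDiff_fst.mul contDiff_const)).prodMk contDiff_snd
    exact hsm.comp h1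
  have hfam : FamOn I4 (fun z : ℝ × R4 => F (clc c (1 - z.1 * (1 - lam)) z.2)) SP := by
    rw [famOn_iff]
    refine ⟨fun t ht p hp => ?_, fun t ht => emb _ (hmu t ht)⟩
    have h1 := (ld_iff.1 (hloc _ (CTR.maps hCL hc (hmu t ht) hp))).1
    have h2 : ContinuousAt (fun z : ℝ × R4 => clc c (1 - z.1 * (1 - lam)) z.2) (t, p) :=
      hm.continuous.continuousAt
    filter_upwards [h2.eventually h1] with z hz
    exact hz.comp z hm.contDiffAt
  refine ⟨emb lam hlam, ?_⟩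
  have h := hF _ hfam
  have e0 : (fun p : R4 => F (clc c (1 - ((0 : ℝ), p).1 * (1 - lam)) ((0 : ℝ), p).2)) = F := by
    funext p
    simp [hone]
  have e1 : (fun p : R4 => F (clc c (1 - ((1 : ℝ), p).1 * (1 - lam)) ((1 : ℝ), p).2)) =
      fun p => F (clc c lam p) := by
    funext p
    simp
  rw [e0, e1] at h
  exact h

end Pool.Agent.Helper70.BI


end

/-! ## Helper70.BI.M_LAS -/

section

/-!
# Project BI, part (E), module LAS: lassos
-/

set_option autoImplicit false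

open scoped Manifold ContDiff Topology ComplexConjugate
open Set Filter Pool.Agent.Helper65.Barb Pool.Agent.Helper18.BI

namespace Pool.Agent.Helper70.BI

open Pool.Agent.Helper34.BI (cfac BarData barFam)

namespace LAS

open NF1

/-- the contracted germ is standard near the second flat ball -/
private theorem form {F : R4 → R4} {d δ lam : ℝ} (hNB : NB 1 F (2 / 5) d δ) (hCL : StCL) {r : ℝ}
    (hl : 0 < lam) (hlr : lam < r) (hrδ : r < δ) {p : R4} (h1 : rsq 1 p ≤ 1 / 20)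
    (h2 : |p.1 - 1 / 2| < r) : F (clc 1 lam p) = (p.1, pc 1 + lam • (p.2 - pc 1)) := by
  have hs := hNB.small
  obtain ⟨-, -, hc⟩ := hCL 1 (Or.inr rfl)
  obtain ⟨-, -, h3, -, -, -, -⟩ := hc lam ⟨hl, by linarith⟩
  rw [h3 p h1]
  apply hNB.near
  have e : rsq 1 p = (p.2.1 - 1) ^ 2 + p.2.2.re ^ 2 + p.2.2.im ^ 2 := rfl
  rw [e] at h1
  have n1 : |p.2.1 - 1| ≤ 1 := by
    apply abs_le_of_sq_le_sq _ (by norm_num)
    nlinarith [sq_nonneg p.2.2.re, sq_nonneg p.2.2.im]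
  have n2 : ‖p.2.2‖ ≤ 1 := by
    rw [Complex.norm_def]
    apply Real.sqrt_le_one.2
    rw [Complex.normSq_apply]
    nlinarith [sq_nonneg (p.2.1 - 1)]
  have e2 : ((p.1, pc 1 + lam • (p.2 - pc 1)) : R4) - ax 1 = (p.1 - 1 / 2, (lam * (p.2.1 - 1), lam • p.2.2)) := by
    unfold ax pc
    ext <;> simp
  rw [e2, Prod.norm_def, Prod.norm_def]
  simp only [Real.norm_eq_abs, abs_mul, norm_smul, abs_of_pos hl]
  refine max_lt (by linarith) (max_lt ?_ ?_)
  · calc lam * |p.2.1 - 1| ≤ lam * 1 := mul_le_mul_of_nonneg_left n1 hl.le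
      _ < δ := by linarith
  · calc lam * ‖p.2.2‖ ≤ lam * 1 := mul_le_mul_of_nonneg_left n2 hl.le
      _ < δ := by linarith

private theorem norm_str (d a : ℝ) (hd : d = 1 ∨ d = -1) :
    ‖((1 / 2 + d * (a - 2 / 5), pc 1) : R4) - ax 1‖ = |a - 2 / 5| := by
  have e : ((1 / 2 + d * (a - 2 / 5), pc 1) : R4) - ax 1 = (d * (a - 2 / 5), 0) := by
    unfold ax pc
    ext <;> simp
  rw [e, Prod.norm_def]
  simp only [Real.norm_eq_abs, abs_mul, norm_zero]
  rcases hd with rfl | rfl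
  · simp
  · simp

/-- a diffeomorphism supported in a small ball maps the large ball to itself -/
private theorem ball_map (G : DFam I4 R4) {C : Set R4} {r : ℝ} (hr : 0 < r)
    (hC : C ⊆ Metric.ball (ax 1) (r / 4)) (hG : ∀ t y, y ∉ C → G.f (t, y) = y) {y : R4}
    (hy : ‖y - ax 1‖ < r) : ‖G.f (1, y) - ax 1‖ < r := by
  by_cases h : y ∈ C
  · by_contra hn
    push Not at hn
    have h1 : G.f (1, y) ∉ C := by
      intro h2
      have h3 := hC h2
      rw [Metric.mem_ball, dist_eq_norm] at h3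
      linarith
    have h2 := hG 1 _ h1
    have h3 := inj_dfam G h2
    rw [h3] at h1
    exact h1 h
  · rw [hG 1 y h]
    exact hy

private theorem far_fix (G : DFam I4 R4) {C : Set R4} {r : ℝ}
    (hC : C ⊆ Metric.ball (ax 1) (r / 4)) (hG : ∀ t y, y ∉ C → G.f (t, y) = y) {y : R4}
    (hy : r / 4 ≤ ‖y - ax 1‖) : G.f (1, y) = y := by
  apply hG
  intro h
  have h3 := hC h
  rw [Metric.mem_ball, dist_eq_norm] at h3
  linarith

end LAS

open LAS NF1 in
theorem m_LAS (hNO : StNO) (hV1 : StV1) (hSPI : StSPI) (hNF1 : StNF1) (hRM : StRM) (hRG : StRG)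
    (hNF2 : StNF2) (hCL : StCL) : StLAS := by
  intro F d δ r₁ hd hNB hr₁
  obtain ⟨r, lam₀, r0, rr₁, rδ, lam0, far, farc, hH⟩ := hNO F d δ r₁ hd hNB hr₁
  have hδ := hNB.small
  set lam : ℝ := min (lam₀ / 2) (r / 8) with hlam
  have l0 : 0 < lam := lt_min (by linarith) (by linarith)
  have l1 : lam < lam₀ := lt_of_le_of_lt (min_le_left _ _) (by linarith)
  have l2 : lam < r / 4 := lt_of_le_of_lt (min_le_right _ _) (by linarith)
  obtain ⟨G, hG, hG1, hG2, hG3, hG4⟩ := hH lam ⟨l0, l1⟩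
  have hGid : Thin I4 G (fun x => x) := by
    apply hV1 G
    apply EmbOn.mono' hG
    rintro p ((hp | hp) | hp)
    · exact Or.inr hp
    · exact Or.inl (Or.inr hp)
    · exact Or.inl (Or.inl (Or.inl hp))
  obtain ⟨F₁, β₁, hβ, hB1, hE1, h34, hcl, hdet, hnear⟩ := hSPI G d r lam hd r0 l0 (by linarith) hG
    (fun p hp1 hp2 hp3 => by
      rw [hG2 p hp1]
      exact form hNB hCL l0 (by linarith) rδ hp2 hp3)
  have h45 : (1 / 5 + 3 / 5 * 1 : ℝ) = 4 / 5 := by norm_num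
  obtain ⟨F₂, G', hE2, hB2, ⟨τ, τs, τv, τd, τF⟩, -, hid, -, ⟨C, -, hCU, hCf⟩, ⟨η, hη, hη2⟩, -⟩ :=
    hNF1 1 F₁ β₁ d (Metric.ball (ax 1) (r / 4)) (Or.inr rfl) hB1 (by rw [h45]; exact hdet)
      Metric.isOpen_ball (convex_ball _ _).isPreconnected
      (by rw [Metric.mem_ball, dist_eq_norm]; linarith) (Metric.mem_ball_self (by linarith))
  -- reparametrization
  have ce : ContinuousAt (fun a : ℝ => 1 / 2 + d * (a - 2 / 5)) (2 / 5) := by fun_prop
  have ve : (1 / 2 + d * ((2 : ℝ) / 5 - 2 / 5) : ℝ) = 1 / 2 := by ring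
  have μs : ∀ᶠ a in 𝓝 (2 / 5 : ℝ), ContDiffAt ℝ ∞ (fun a => τ (1 / 2 + d * (a - 2 / 5))) a := by
    have h1 : ∀ᶠ a in 𝓝 (2 / 5 : ℝ), ContDiffAt ℝ ∞ τ (1 / 2 + d * (a - 2 / 5)) := by
      have := ce.tendsto
      rw [ve] at this
      exact this.eventually τs
    filter_upwards [h1] with a ha
    exact ha.comp a (by fun_prop)
  have μd : 0 < deriv (fun a => τ (1 / 2 + d * (a - 2 / 5))) (2 / 5) := by
    have h1 : HasDerivAt τ (deriv τ (1 / 2)) (1 / 2 + d * ((2 : ℝ) / 5 - 2 / 5)) := by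
      rw [ve]
      exact (τs.self_of_nhds.differentiableAt (by simp)).hasDerivAt
    have h2 : HasDerivAt (fun a : ℝ => 1 / 2 + d * (a - 2 / 5)) (d * 1) (2 / 5) :=
      (((hasDerivAt_id (2 / 5 : ℝ)).sub_const _).const_mul d).const_add _
    have h3 : HasDerivAt (fun a : ℝ => τ (1 / 2 + d * (a - 2 / 5))) (deriv τ (1 / 2) * (d * 1))
        (2 / 5) := HasDerivAt.comp (2 / 5 : ℝ) h1 h2
    rw [h3.deriv]
    nlinarith [τd]
  obtain ⟨m, ms, md, mμ, η', hη', mid⟩ := hRM.1 (2 / 5 - r / 2) (4 / 5) (2 / 5) β₁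
    (fun a => τ (1 / 2 + d * (a - 2 / 5))) (by linarith) (by norm_num) (by linarith) hB2.mem.2 μs
    (by show τ (1 / 2 + d * ((2 : ℝ) / 5 - 2 / 5)) = β₁; rw [ve, τv]) μd
  have hm : RepOK m := ⟨ms, md, η', hη', fun a ha => mid a (by
    rcases ha with h | h
    · left; linarith
    · right; exact h)⟩
  obtain ⟨δ₀, hδ₀, hNB'⟩ := hNF2 1 F₂ β₁ (2 / 5) d τ m (Or.inr rfl) hd hB2 hid τv τF hm
    ⟨by norm_num, by norm_num⟩ mμ
  have hS : EmbOn I4 F₂ SP := embOn_of_br hB2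
  obtain ⟨-, hax, hfl, hIcc, hmono, h6⟩ := hRG m hm
  have hcore' : ∀ a, core (fun p => F₂ (repm m p)) a = core F₂ (m a) := fun a => by
    show F₂ (repm m (ax a)) = F₂ (ax (m a))
    rw [hax]
  have hcore2 : ∀ a ∈ Icc (1 / 5 : ℝ) (4 / 5), core F₂ a = G'.f (1, core F₁ a) := fun a ha => by
    apply hη2
    rw [rsq_ax]
    nlinarith [ha.1, ha.2]
  have hm1 : m (2 / 5 - r / 2) = 2 / 5 - r / 2 := mid _ (Or.inl (by linarith))
  have hm2 : m (4 / 5) = 4 / 5 := mid _ (Or.inr (by linarith))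
  refine ⟨r, δ₀, fun p => F₂ (repm m p), r0, rr₁, rδ, far, farc, hNB' δ₀ ⟨hδ₀, le_rfl⟩, ?_, ?_, ?_, ?_⟩
  · exact ((hE1.trans (hE2.trans (h6 F₂ hS).2)) _).1 hGid
  · apply nearEq_of_eventuallyEq
    intro p hp
    have e1 : ∀ᶠ q in 𝓝 p, repm m q = q := hfl 0 (Or.inl rfl) p ⟨hp.1, hp.2.le⟩
    have a1 : p.2.1 ≤ 1 / 5 := by
      have h1 := sq_le_rsq p
      rw [hp.2] at h1
      nlinarith
    have e2 : ∀ᶠ q : R4 in 𝓝 p, q.2.1 < 1 / 5 + 1 / 200 := by
      have hc : ContinuousAt (fun q : R4 => q.2.1) p := by fun_prop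
      exact hc.eventually (Iio_mem_nhds (by linarith))
    have hFc : ContinuousAt F p :=
      ((ld_iff.1 (hNB.br.loc p (Or.inl (Or.inl (Or.inl hp))))).1.self_of_nhds).continuousAt
    have e3 : ∀ᶠ q : R4 in 𝓝 p, r / 4 < ‖F q - ax 1‖ := by
      have hc : ContinuousAt (fun q : R4 => ‖F q - ax 1‖) p := (hFc.sub continuousAt_const).norm
      exact hc.eventually (Ioi_mem_nhds (by have := far p hp; linarith))
    filter_upwards [e1, e2, e3] with q q1 q2 q3
    have q4 : F₁ q = F q := by rw [h34 q (by linarith), hG1 q (by linarith)]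
    rw [q1, hη2 q (by
      have := sq_le_rsq_one q
      nlinarith), q4, far_fix G' hCU hCf q3.le]
  · intro a ha
    have ha' : a ∈ Icc (1 / 5 : ℝ) (4 / 5) := ⟨ha.1, by linarith [ha.2]⟩
    have e1 : m a = a := mid a (Or.inl (by linarith [ha.2]))
    have e2 : core F₁ a = core F a := by
      rw [← hG3 a ha]
      exact h34 (ax a) (by show a ≤ 3 / 4; linarith [ha.2])
    rw [hcore', e1, hcore2 a ha', e2]
    apply far_fix G' hCU hCf
    by_cases h : δ ≤ |a - 2 / 5|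
    · have := farc a ha' h
      linarith
    · push Not at h
      rw [hNB.str a h, norm_str d a hd, abs_of_nonpos (by linarith [ha.2])]
      linarith [ha.2]
  · intro a ha
    have ha' : m a ∈ Icc (2 / 5 - r / 2) (4 / 5 : ℝ) := by
      constructor
      · rw [← hm1]; exact hmono.monotone ha.1
      · rw [← hm2]; exact hmono.monotone ha.2
    have ha2 : m a ∈ Icc (1 / 5 : ℝ) (4 / 5) := ⟨by linarith [ha'.1], ha'.2⟩
    rw [hcore', hcore2 _ ha2]
    apply ball_map G' r0 hCU hCf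
    rcases hcl (m a) ha2 with h | h
    · rw [h]; exact hG4 _ ha'
    · exact h

end Pool.Agent.Helper70.BI


end
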