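import Pool.Agent.Helper65.Barb.Defs
import Pool.Agent.Helper70.BI.B.P14
import Pool.Agent.Helper70.BI.B.P18

/-!
# Project BI (MP_8e98f2_gt): collected modules, part 25

The contents of the modules
* Helper27.BI.H.ArcH
* Helper27.BI.R.Rad
* Helper27.BI.R.Kap
* Helper27.BI.R.Par

in one file, so that the whole proof builds in a short time.
-/

/-! ## Helper27.BI.H.ArcH -/

section

/-!
# Project BI, stage 3 (H): the homotopy theorem for loops of arcs, assembly
-/

set_option autoImplicit false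
set_option linter.unusedSectionVars false
set_option linter.unusedVariables false

open scoped Manifold ContDiff Topology ComplexConjugate
open Set Filter Pool.Agent.Helper65.Barb Pool.Agent.Helper18.BI
open Pool.Agent.Helper70.BI (I4 LD Eqv NearEq IsW MW embOn_comp ld_comp)
open Pool.Agent.Helper27.BI (ci_refl)

namespace Pool.Agent.Helper27.H

private theorem ci_symm {φ ψ : R4 → R4} (h : CIsot I4 φ ψ) : CIsot I4 ψ φ :=
  Pool.Agent.Helper27.BI.CIsot.symm' h

private theorem ci_trans {φ ψ χ : R4 → R4} (h : CIsot I4 φ ψ) (h' : CIsot I4 ψ χ) :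
    CIsot I4 φ χ := Pool.Agent.Helper27.BI.CIsot.trans' h h'

private theorem ci_comp {φ ψ φ' ψ' : R4 → R4} (h : CIsot I4 φ ψ) (h' : CIsot I4 φ' ψ') :
    CIsot I4 (fun x => φ (φ' x)) (fun x => ψ (ψ' x)) := Pool.Agent.Helper27.BI.CIsot.comp' h h'


/-- equality up to `W` -/
def WR (W φ ψ : R4 → R4) : Prop := CIsot I4 ψ φ ∨ CIsot I4 ψ (fun x => W (φ x))

theorem IsW.self {W : R4 → R4} (hW : IsW W) : CIsot I4 W W := by
  obtain ⟨F₀, α₀, β₀, h1, h2⟩ := hW.rep
  exact (hT2 R4 R4 I4 R4).2.2.2.2.2.2 F₀ W h2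

theorem WR.symm {W φ ψ : R4 → R4} (hW : IsW W) (hφ : CIsot I4 φ φ) (h : WR W φ ψ) : WR W ψ φ := by
  rcases h with h | h
  · exact Or.inl (ci_symm h)
  · right
    have h1 : CIsot I4 (fun x => W (ψ x)) (fun x => W (W (φ x))) := ci_comp (IsW.self hW) h
    have h2 : CIsot I4 (fun x => W (W (φ x))) (fun x => φ x) := by
      have h3 := ci_comp hW.sq hφ
      exact h3
    exact ci_symm (ci_trans h1 h2)

theorem WR.trans {W φ ψ χ : R4 → R4} (hW : IsW W) (hφ : CIsot I4 φ φ) (h : WR W φ ψ)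
    (h' : WR W ψ χ) : WR W φ χ := by
  rcases h' with h' | h'
  · rcases h with h | h
    · exact Or.inl (ci_trans h' h)
    · exact Or.inr (ci_trans h' h)
  · have h1 := IsW.self hW
    rcases h with h | h
    · exact Or.inr (ci_trans h' (ci_comp h1 h))
    · left
      have h2 : CIsot I4 (fun x => W (ψ x)) (fun x => W (W (φ x))) := ci_comp h1 h
      have h3 : CIsot I4 (fun x => W (W (φ x))) (fun x => φ x) := by
        have h4 := ci_comp hW.sq hφ
        exact h4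
      exact ci_trans h' (ci_trans h2 h3)

theorem XG.embSP {D : ArcD} {T : R4 → R4} (hT : D.XG T) : EmbOn I4 (fun p => D.e (T p)) SP := by
  have hFB : SP ⊆ FB := by
    rintro p ((h | h) | h)
    · exact Or.inl (Or.inl ⟨h.1, h.2.le⟩)
    · exact Or.inl (Or.inr ⟨h.1, h.2.le⟩)
    · exact Or.inr h
  have h1 : EmbOn I4 T SP := Pool.Agent.Helper27.BI.EmbOn.mono hT.emb hFB
  have h2 : EmbOn I4 (D.e ∘ T) SP := by
    apply embOn_comp D.embe h1
    intro p hp
    refine ⟨hT.inU p (hFB hp), fun hA => ?_⟩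
    rcases hT.arc p (hFB hp) hA with rfl | rfl
    · rcases hp with (h | h) | h
      · have := h.2; norm_num [rsq, nsq] at this
      · have := h.2; norm_num [rsq, nsq] at this
      · have := h.2.1; norm_num at this
    · rcases hp with (h | h) | h
      · have := h.2; norm_num [rsq, nsq] at this
      · have := h.2; norm_num [rsq, nsq] at this
      · have := h.2.2.1; norm_num at this
  exact h2

theorem exists_thin {F : R4 → R4} (hF : EmbOn I4 F SP) : ∃ φ, Thin I4 F φ := by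
  obtain ⟨ε₀, h0, h1⟩ := (hT2 R4 R4 I4 R4).1 F hF
  exact ⟨_, h1 (ε₀ / 2) ⟨by positivity, by linarith⟩⟩

/-- the class of every crossing is trivial or `W` -/
theorem cross_class (hCls : StCls) (hCROSS : StCROSS) (hCUSP : StCUSP) (hNORM : StNORM) {D : ArcD}
    {W T τ : R4 → R4} (hW : IsW W) (hT : D.XG T) (hτ : Thin I4 (fun p => D.e (T p)) τ) :
    WR W (fun x => x) τ := by
  obtain ⟨c, u₀, q₀, a, b, h1, h2, h3, h4, h5, h6⟩ := hCUSP D
  obtain ⟨T₀, hT₀, h7⟩ := hCROSS D c u₀ q₀ a b h1 h2 h3 h4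
  obtain ⟨τ₀, hτ₀⟩ := exists_thin (XG.embSP hT₀)
  have hid : D.Cls (fun _ s => D.c s) (fun x => x) := (hCls D).2.2.2.2.2
  have e0 : (fun q s => c (0, q, s)) = fun _ s => D.c s := by funext q s; exact h5 q s
  have e1 : (fun q s => c (1, q, s)) = fun _ s => D.c s := by funext q s; exact h6 q s
  have h8 : CIsot I4 (fun x : R4 => x) τ₀ := by
    have := h7 (fun x => x) (fun x => x) τ₀ (by rw [e0]; exact hid) (by rw [e1]; exact hid) hτ₀
    rcases this with h | h
    · exact h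
    · exact h
  have h9 : Thin I4 (fun p => D.e (T₀ p)) (fun x => x) :=
    (hT2 R4 R4 I4 R4).2.2.2.1 _ _ _ hτ₀ (ci_symm h8)
  exact hNORM D T₀ T W hW hT₀ hT _ _ h9 hτ

/-- restriction of a homotopy to an interval of parameters -/
def rsc (c : ℝ × ℝ × ℝ → R4) (u₁ u₂ : ℝ) (z : ℝ × ℝ × ℝ) : R4 :=
  c (u₁ + z.1 * (u₂ - u₁), z.2.1, z.2.2)

theorem htpy_rsc {D : ArcD} {c : ℝ × ℝ × ℝ → R4} (hc : D.Htpy c) {u₁ u₂ : ℝ} (h0 : 0 ≤ u₁)
    (h1 : u₁ ≤ u₂) (h2 : u₂ ≤ 1) : D.Htpy (rsc c u₁ u₂) := by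
  have hm : ∀ u ∈ Icc (0 : ℝ) 1, u₁ + u * (u₂ - u₁) ∈ Icc (0 : ℝ) 1 := by
    rintro u ⟨a, b⟩
    constructor <;> nlinarith
  refine ⟨?_, fun u hu q hq s hs => hc.froz _ (hm u hu) q hq s hs,
    fun u hu q hq s hs => hc.inU _ (hm u hu) q hq s hs, fun u hu s => hc.start _ (hm u hu) s,
    fun u hu s => hc.stop _ (hm u hu) s⟩
  have : ContDiff ℝ ∞ (fun z : ℝ × ℝ × ℝ => ((u₁ + z.1 * (u₂ - u₁), z.2.1, z.2.2) : ℝ × ℝ × ℝ)) :=
    (contDiff_const.add (contDiff_fst.mul contDiff_const)).prodMk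
      ((contDiff_fst.comp contDiff_snd).prodMk (contDiff_snd.comp contDiff_snd))
  exact hc.smooth.comp this

theorem xing_rsc {D : ArcD} {c : ℝ × ℝ × ℝ → R4} (hc : D.Htpy c) {u₁ u₂ : ℝ} {b q a' b' : ℝ}
    (h1 : u₁ < b) (h2 : b < u₂) (hx : D.Xing c b q a' b') :
    D.Xing (rsc c u₁ u₂) ((b - u₁) / (u₂ - u₁)) q a' b' := by
  have hp : 0 < u₂ - u₁ := by linarith
  have e : u₁ + (b - u₁) / (u₂ - u₁) * (u₂ - u₁) = b := by field_simp; ring
  refine ⟨⟨by apply div_pos <;> linarith, by rw [div_lt_one hp]; linarith⟩, hx.memq, hx.mema,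
    hx.memb, hx.lt, ?_, ?_, ?_⟩
  · show c (_, _, _) = c (_, _, _)
    rw [e]; exact hx.eq
  · intro s hs s' hs' hlt h
    have h' : c (u₁ + (b - u₁) / (u₂ - u₁) * (u₂ - u₁), q, s) =
      c (u₁ + (b - u₁) / (u₂ - u₁) * (u₂ - u₁), q, s') := h
    rw [e] at h'
    exact hx.uniq s hs s' hs' hlt h'
  · intro ζ η σ τ h
    have key : ∀ s ζ η σ : ℝ, fderiv ℝ (rsc c u₁ u₂) ((b - u₁) / (u₂ - u₁), q, s) (ζ, η, σ) =
        fderiv ℝ c (b, q, s) (ζ * (u₂ - u₁), η, σ) := by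
      intro s ζ η σ
      have hd : HasFDerivAt c (fderiv ℝ c (b, q, s)) (b, q, s) :=
        (hc.smooth.differentiable (by simp) _).hasFDerivAt
      have h3 : HasDerivAt (fun t : ℝ => ((b + t * (ζ * (u₂ - u₁)), q + t * η, s + t * σ) :
          ℝ × ℝ × ℝ)) (ζ * (u₂ - u₁), η, σ) 0 := by
        have l : ∀ x y : ℝ, HasDerivAt (fun t : ℝ => x + t * y) y 0 := by
          intro x y
          simpa using ((hasDerivAt_id (0 : ℝ)).mul_const y).const_add x
        exact (l _ _).prodMk ((l _ _).prodMk (l _ _))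
      have h4 : HasDerivAt (fun t : ℝ => c (b + t * (ζ * (u₂ - u₁)), q + t * η, s + t * σ))
          (fderiv ℝ c (b, q, s) (ζ * (u₂ - u₁), η, σ)) 0 := by
        have h5 : HasFDerivAt c (fderiv ℝ c (b, q, s))
            ((b + (0 : ℝ) * (ζ * (u₂ - u₁)), q + (0 : ℝ) * η, s + (0 : ℝ) * σ) : ℝ × ℝ × ℝ) := by
          simpa using hd
        exact h5.comp_hasDerivAt (0 : ℝ) h3
      have hr : HasFDerivAt (rsc c u₁ u₂) (fderiv ℝ (rsc c u₁ u₂) ((b - u₁) / (u₂ - u₁), q, s))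
          ((b - u₁) / (u₂ - u₁), q, s) := by
        have hs : ContDiff ℝ ∞ (rsc c u₁ u₂) := by
          have : ContDiff ℝ ∞ (fun z : ℝ × ℝ × ℝ =>
              ((u₁ + z.1 * (u₂ - u₁), z.2.1, z.2.2) : ℝ × ℝ × ℝ)) :=
            (contDiff_const.add (contDiff_fst.mul contDiff_const)).prodMk
              ((contDiff_fst.comp contDiff_snd).prodMk (contDiff_snd.comp contDiff_snd))
          exact hc.smooth.comp this
        exact (hs.differentiable (by simp) _).hasFDerivAt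
      have h6 : HasDerivAt (fun t : ℝ => (((b - u₁) / (u₂ - u₁) + t * ζ, q + t * η, s + t * σ) :
          ℝ × ℝ × ℝ)) (ζ, η, σ) 0 := by
        have l : ∀ x y : ℝ, HasDerivAt (fun t : ℝ => x + t * y) y 0 := by
          intro x y
          simpa using ((hasDerivAt_id (0 : ℝ)).mul_const y).const_add x
        exact (l _ _).prodMk ((l _ _).prodMk (l _ _))
      have h7 : HasDerivAt ((rsc c u₁ u₂) ∘ fun t : ℝ =>
          (((b - u₁) / (u₂ - u₁) + t * ζ, q + t * η, s + t * σ) : ℝ × ℝ × ℝ))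
          (fderiv ℝ (rsc c u₁ u₂) ((b - u₁) / (u₂ - u₁), q, s) (ζ, η, σ)) 0 := by
        have h8 : HasFDerivAt (rsc c u₁ u₂) (fderiv ℝ (rsc c u₁ u₂) ((b - u₁) / (u₂ - u₁), q, s))
            (((b - u₁) / (u₂ - u₁) + (0 : ℝ) * ζ, q + (0 : ℝ) * η, s + (0 : ℝ) * σ) :
              ℝ × ℝ × ℝ) := by
          simpa using hr
        exact h8.comp_hasDerivAt (0 : ℝ) h6
      have h9 : ((rsc c u₁ u₂) ∘ fun t : ℝ =>
          (((b - u₁) / (u₂ - u₁) + t * ζ, q + t * η, s + t * σ) : ℝ × ℝ × ℝ)) =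
          fun t : ℝ => c (b + t * (ζ * (u₂ - u₁)), q + t * η, s + t * σ) := by
        funext t
        show c (u₁ + ((b - u₁) / (u₂ - u₁) + t * ζ) * (u₂ - u₁), _, _) = _
        congr 2
        field_simp
        ring
      rw [h9] at h7
      exact h7.unique h4
    have h' : fderiv ℝ c (b, q, a') (ζ * (u₂ - u₁), η, σ) =
        fderiv ℝ c (b, q, b') (ζ * (u₂ - u₁), η, τ) := by
      rw [← key, ← key]; exact h
    obtain ⟨r1, r2, r3, r4⟩ := hx.trans _ _ _ _ h'
    refine ⟨?_, r2, r3, r4⟩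
    rcases mul_eq_zero.1 r1 with h | h
    · exact h
    · exact absurd h hp.ne'

/-- **ArcH.** -/
theorem m_ArcH (hCls : StCls) (hCROSS : StCROSS) (hCUSP : StCUSP) (hNORM : StNORM) (hGP : StGP) :
    StArcH := by
  intro D c W χ₀ χ₁ hc hc0 hc1 hW h0 h1
  obtain ⟨c', hc', e0, e1, himm, B, hB, hinj, hX⟩ := hGP D c hc hc0 hc1
  have hex : ∀ u ∈ Icc (0 : ℝ) 1, u ∉ B → ∃ χ, D.Cls (fun q s => c' (u, q, s)) χ := by
    intro u hu huB
    exact (hCls D).2.2.2.1 c' hc' u hu fun q hq => ⟨himm u hu q hq, hinj u hu huB q hq⟩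
  -- one crossing
  have hone : ∀ b ∈ B, ∀ u₁ u₂ : ℝ, 0 ≤ u₁ → u₁ < b → b < u₂ → u₂ ≤ 1 →
      (∀ u ∈ Icc u₁ u₂, u ∈ B → u = b) → ∀ χ χ', D.Cls (fun q s => c' (u₁, q, s)) χ →
      D.Cls (fun q s => c' (u₂, q, s)) χ' → WR W χ χ' := by
    intro b hb u₁ u₂ h1 h2 h3 h4 h5 χ χ' hχ hχ'
    obtain ⟨q₀, a, b', hx, hx'⟩ := hX b hb
    have hp : 0 < u₂ - u₁ := by linarith
    have hm : ∀ u ∈ Icc (0 : ℝ) 1, u₁ + u * (u₂ - u₁) ∈ Icc u₁ u₂ := by
      rintro u ⟨a, b⟩
      constructor <;> nlinarith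
    have hm' : ∀ u ∈ Icc u₁ u₂, u ∈ Icc (0 : ℝ) 1 := fun u hu => ⟨by linarith [hu.1], by linarith [hu.2]⟩
    obtain ⟨T, hT, h6⟩ := hCROSS D (rsc c' u₁ u₂) ((b - u₁) / (u₂ - u₁)) q₀ a b'
      (htpy_rsc hc' h1 (by linarith) h4) (xing_rsc hc' h2 h3 hx)
      (fun u hu q hq => himm _ (hm' _ (hm u hu)) q hq) (by
        intro u hu q hq hne
        show D.Inj c' (u₁ + u * (u₂ - u₁)) q
        by_cases h : u₁ + u * (u₂ - u₁) ∈ B
        · have h7 := h5 _ (hm u hu) h
          rw [h7]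
          apply hx' q hq
          rintro rfl
          apply hne
          have h8 : u = (b - u₁) / (u₂ - u₁) := by
            rw [eq_div_iff hp.ne']; linarith
          rw [h8]
        · exact hinj _ (hm' _ (hm u hu)) h q hq)
    obtain ⟨τ, hτ⟩ := exists_thin (XG.embSP hT)
    have hr0 : (fun q s => rsc c' u₁ u₂ (0, q, s)) = fun q s => c' (u₁, q, s) := by
      funext q s; show c' (u₁ + 0 * (u₂ - u₁), q, s) = _; rw [zero_mul, add_zero]
    have hr1 : (fun q s => rsc c' u₁ u₂ (1, q, s)) = fun q s => c' (u₂, q, s) := by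
      funext q s; show c' (u₁ + 1 * (u₂ - u₁), q, s) = _; rw [one_mul, add_sub_cancel]
    have h7 := h6 χ χ' τ (by rw [hr0]; exact hχ) (by rw [hr1]; exact hχ') hτ
    have h8 := cross_class hCls hCROSS hCUSP hNORM hW hT hτ
    have hχs : CIsot I4 χ χ := (hCls D).2.2.1 _ _ hχ
    have hχs' : CIsot I4 χ' χ' := (hCls D).2.2.1 _ _ hχ'
    have key : ∀ φ : R4 → R4, CIsot I4 φ φ → WR W φ (fun x => τ (φ x)) := by
      intro φ hφ
      rcases h8 with h | h
      · have h9 := ci_comp h hφ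
        exact Or.inl h9
      · have h9 := ci_comp h hφ
        exact Or.inr h9
    rcases h7 with h | h
    · have h9 : WR W χ' χ := by
        rcases key χ' hχs' with h' | h'
        · exact Or.inl (ci_trans h h')
        · exact Or.inr (ci_trans h h')
      exact WR.symm hW hχs' h9
    · rcases key χ hχs with h' | h'
      · exact Or.inl (ci_trans h h')
      · exact Or.inr (ci_trans h h')
  -- no crossing
  have hnone : ∀ u₁ u₂ : ℝ, 0 ≤ u₁ → u₁ ≤ u₂ → u₂ ≤ 1 → (∀ u ∈ Icc u₁ u₂, u ∉ B) →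
      ∀ χ χ', D.Cls (fun q s => c' (u₁, q, s)) χ → D.Cls (fun q s => c' (u₂, q, s)) χ' →
      WR W χ χ' := by
    intro u₁ u₂ h1 h2 h3 h4 χ χ' hχ hχ'
    have h5 := (hCls D).2.2.2.2.1 c' hc' u₁ u₂ h1 h2 h3 (fun v hv q hq =>
      ⟨himm v ⟨by linarith [hv.1], by linarith [hv.2]⟩ q hq,
        hinj v ⟨by linarith [hv.1], by linarith [hv.2]⟩ (h4 v hv) q hq⟩) χ hχ
    exact Or.inl ((hCls D).1 _ _ _ hχ' h5)
  -- induction on the number of crossings
  have hind : ∀ n : ℕ, ∀ u₁ u₂ : ℝ, 0 ≤ u₁ → u₁ ≤ u₂ → u₂ ≤ 1 → u₁ ∉ B → u₂ ∉ B →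
      (B.filter (fun u => u₁ < u ∧ u < u₂)).card = n →
      ∀ χ χ', D.Cls (fun q s => c' (u₁, q, s)) χ → D.Cls (fun q s => c' (u₂, q, s)) χ' →
      WR W χ χ' := by
    intro n
    induction n with
    | zero =>
      intro u₁ u₂ h1 h2 h3 h4 h5 h6
      apply hnone u₁ u₂ h1 h2 h3
      intro u hu huB
      rw [Finset.card_eq_zero] at h6
      have : u ∈ B.filter (fun u => u₁ < u ∧ u < u₂) := by
        rw [Finset.mem_filter]
        refine ⟨huB, lt_of_le_of_ne hu.1 ?_, lt_of_le_of_ne hu.2 ?_⟩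
        · rintro rfl; exact h4 huB
        · rintro rfl; exact h5 huB
      rw [h6] at this
      simp at this
    | succ n ih =>
      intro u₁ u₂ h1 h2 h3 h4 h5 h6 χ χ' hχ hχ'
      have hne : (B.filter (fun u => u₁ < u ∧ u < u₂)).Nonempty := by
        rw [← Finset.card_pos, h6]; omega
      set b := (B.filter (fun u => u₁ < u ∧ u < u₂)).min' hne with hb
      have hbm : b ∈ B.filter (fun u => u₁ < u ∧ u < u₂) := Finset.min'_mem _ _
      have hbB := (Finset.mem_filter.1 hbm).1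
      obtain ⟨hb1, hb2⟩ := (Finset.mem_filter.1 hbm).2
      have hmin : ∀ u ∈ B, u₁ < u → u < u₂ → b ≤ u := fun u hu a1 a2 =>
        Finset.min'_le _ _ (Finset.mem_filter.2 ⟨hu, a1, a2⟩)
      -- a point after `b`
      obtain ⟨v, hv1, hv2, hv3⟩ : ∃ v, b < v ∧ v < u₂ ∧ ∀ u ∈ Ioc b v, u ∉ B := by
        have hfin : ((B : Set ℝ) \ {b}).Finite := B.finite_toSet.subset sdiff_subset
        have hop : IsOpen ((B : Set ℝ) \ {b})ᶜ := hfin.isClosed.isOpen_compl
        have hbo : b ∈ ((B : Set ℝ) \ {b})ᶜ := fun h => h.2 rfl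
        obtain ⟨r, hr, hr'⟩ := Metric.isOpen_iff.1 hop b hbo
        refine ⟨min (b + r / 2) ((b + u₂) / 2), lt_min (by linarith) (by linarith),
          lt_of_le_of_lt (min_le_right _ _) (by linarith), ?_⟩
        rintro u ⟨a1, a2⟩ huB
        have a3 : u ≤ b + r / 2 := a2.trans (min_le_left _ _)
        have a4 : u ∈ Metric.ball b r := by
          rw [Metric.mem_ball, Real.dist_eq, abs_lt]
          constructor <;> linarith
        exact hr' a4 ⟨huB, fun h => absurd h (ne_of_gt a1)⟩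
      have hvB : v ∉ B := hv3 v ⟨hv1, le_rfl⟩
      have hv01 : v ∈ Icc (0 : ℝ) 1 := ⟨by linarith, by linarith⟩
      obtain ⟨χv, hχv⟩ := hex v hv01 hvB
      have s1 : WR W χ χv := by
        refine hone b hbB u₁ v h1 hb1 hv1 hv01.2 ?_ χ χv hχ hχv
        intro u hu huB
        rcases lt_trichotomy u b with h | h | h
        · exfalso
          rcases hu.1.lt_or_eq with h' | h'
          · exact absurd (hmin u huB h' (by linarith)) (not_le.2 h)
          · rw [← h'] at huB; exact h4 huB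
        · exact h
        · exact absurd huB (hv3 u ⟨h, hu.2⟩)
      have s2 : WR W χv χ' := by
        apply ih v u₂ hv01.1 hv2.le h3 hvB h5 _ χv χ' hχv hχ'
        have e : B.filter (fun u => u₁ < u ∧ u < u₂) =
            insert b (B.filter (fun u => v < u ∧ u < u₂)) := by
          ext u
          simp only [Finset.mem_filter, Finset.mem_insert]
          constructor
          · rintro ⟨a1, a2, a3⟩
            rcases (hmin u a1 a2 a3).lt_or_eq with h | h
            · right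
              refine ⟨a1, ?_, a3⟩
              by_contra h'
              push Not at h'
              exact hv3 u ⟨h, h'⟩ a1
            · exact Or.inl h.symm
          · rintro (rfl | ⟨a1, a2, a3⟩)
            · exact ⟨hbB, hb1, hb2⟩
            · exact ⟨a1, by linarith, a3⟩
        rw [e, Finset.card_insert_of_notMem] at h6
        · omega
        · simp only [Finset.mem_filter]
          rintro ⟨a1, a2, a3⟩
          linarith
      exact WR.trans hW ((hCls D).2.2.1 _ _ hχ) s1 s2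
  have h0B : (0 : ℝ) ∉ B := fun h => lt_irrefl _ (hB 0 h).1
  have h1B : (1 : ℝ) ∉ B := fun h => lt_irrefl _ (hB 1 h).2
  have e0' : (fun q s => c' (0, q, s)) = fun q s => c (0, q, s) := by funext q s; exact e0 q s
  have e1' : (fun q s => c' (1, q, s)) = fun q s => c (1, q, s) := by funext q s; exact e1 q s
  exact hind _ 0 1 le_rfl zero_le_one le_rfl h0B h1B rfl χ₀ χ₁ (by rw [e0']; exact h0)
    (by rw [e1']; exact h1)

end Pool.Agent.Helper27.H


end

/-! ## Helper27.BI.R.Rad -/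

section

/-!
# Project BI, stage 4 (R): radial maps with a two-sided profile

The proofs for general profile functions follow `Pool/Agent/Helper34/BI/M_RE.lean` (helper34).
-/

set_option autoImplicit false

open scoped Manifold ContDiff Topology ComplexConjugate
open Set Pool.Agent.Helper65.Barb Pool.Agent.Helper18.BI Pool.Agent.Helper27.BI

namespace Pool.Agent.Helper27.R

namespace Rad

open R2 (rsq_eq rsq_contDiff isOpen_pos line_deriv)

/-- a profile function -/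
structure Prf (f : ℝ → ℝ) : Prop where
  smooth : ContDiff ℝ ∞ f
  pos : ∀ q, 0 < deriv f q
  pos0 : ∀ q, 0 < q → 0 < f q

/-- the factor -/
noncomputable def mf (f : ℝ → ℝ) (c : ℝ) (p : R4) : ℝ := √(f (rsq c p) / rsq c p)

/-- the radial map with profile `f` -/
noncomputable def rad (f : ℝ → ℝ) (c : ℝ) (p : R4) : R4 :=
  (p.1, c + mf f c p * (p.2.1 - c), ((mf f c p : ℝ) : ℂ) * p.2.2)

theorem rad_eq (f : ℝ → ℝ) (c : ℝ) (p : R4) :
    rad f c p = (p.1, c + mf f c p * (p.2.1 - c), ((mf f c p : ℝ) : ℂ) * p.2.2) := rfl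

variable {f : ℝ → ℝ}

theorem Prf.mono (hf : Prf f) : StrictMono f := strictMono_of_deriv_pos hf.pos

theorem Prf.hasDeriv (hf : Prf f) (q : ℝ) : HasDerivAt f (deriv f q) q :=
  (hf.smooth.differentiable (by simp) q).hasDerivAt

theorem arg_pos (hf : Prf f) (c : ℝ) (p : R4) (hp : 0 < rsq c p) :
    0 < f (rsq c p) / rsq c p :=
  div_pos (hf.pos0 _ hp) hp

theorem mf_pos (hf : Prf f) (c : ℝ) (p : R4) (hp : 0 < rsq c p) :
    0 < mf f c p := Real.sqrt_pos.2 (arg_pos hf c p hp)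

theorem mf_sq (hf : Prf f) (c : ℝ) (p : R4) (hp : 0 < rsq c p) :
    mf f c p ^ 2 * rsq c p = f (rsq c p) := by
  rw [mf, Real.sq_sqrt (arg_pos hf c p hp).le, div_mul_cancel₀ _ hp.ne']

theorem rsq_rad (hf : Prf f) (c : ℝ) (p : R4) (hp : 0 < rsq c p) :
    rsq c (rad f c p) = f (rsq c p) := by
  rw [← mf_sq hf c p hp, rad_eq, rsq_eq, rsq_eq]
  simp only [Complex.mul_re, Complex.mul_im, Complex.ofReal_re, Complex.ofReal_im]
  ring

theorem mf_contDiffOn (hf : Prf f) (c : ℝ) :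
    ContDiffOn ℝ ∞ (mf f c) {p : R4 | 0 < rsq c p} := by
  have h2 : ContDiffOn ℝ ∞ (fun p : R4 => f (rsq c p) / rsq c p) {p : R4 | 0 < rsq c p} :=
    (hf.smooth.comp (rsq_contDiff c)).contDiffOn.div (rsq_contDiff c).contDiffOn
      (fun p hp => (ne_of_gt hp))
  exact h2.sqrt (fun p hp => (arg_pos hf c p hp).ne')

theorem rad_contDiffOn (hf : Prf f) (c : ℝ) :
    ContDiffOn ℝ ∞ (rad f c) {p : R4 | 0 < rsq c p} := by
  have hm := mf_contDiffOn hf c
  have h2 : ContDiff ℝ ∞ (fun p : R4 => p.2.1 - c) :=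
    (contDiff_fst.comp contDiff_snd).sub contDiff_const
  have h3 : ContDiffOn ℝ ∞ (fun p : R4 => ((mf f c p : ℝ) : ℂ)) {p : R4 | 0 < rsq c p} :=
    Complex.ofRealCLM.contDiff.comp_contDiffOn hm
  exact contDiff_fst.contDiffOn.prodMk ((contDiffOn_const.add (hm.mul h2.contDiffOn)).prodMk
    (h3.mul (contDiff_snd.comp contDiff_snd).contDiffOn))

theorem rad_fderiv (hf : Prf f) (c : ℝ) (p v : R4)
    (hp : 0 < rsq c p) (hv : fderiv ℝ (rad f c) p v = 0) : v = 0 := by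
  have hnhd : {p : R4 | 0 < rsq c p} ∈ 𝓝 p := (isOpen_pos c).mem_nhds hp
  have hd : DifferentiableAt ℝ (rad f c) p :=
    ((rad_contDiffOn hf c).contDiffAt hnhd).differentiableAt (by simp)
  have hdm : DifferentiableAt ℝ (mf f c) p :=
    ((mf_contDiffOn hf c).contDiffAt hnhd).differentiableAt (by simp)
  obtain ⟨s, a, w⟩ := p
  obtain ⟨σ, b, z⟩ := v
  have hline : HasDerivAt (fun t : ℝ => ((s, a, w) : R4) + t • ((σ, b, z) : R4)) (σ, b, z) 0 := by
    have := ((hasDerivAt_id (0 : ℝ)).smul_const ((σ, b, z) : R4)).const_add ((s, a, w) : R4)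
    simpa using this
  have hline0 : ((s, a, w) : R4) + (0 : ℝ) • ((σ, b, z) : R4) = (s, a, w) := by
    rw [zero_smul, add_zero]
  have hc : HasDerivAt (fun t : ℝ => rad f c ((s, a, w) + t • (σ, b, z))) 0 0 := by
    have h2 : HasFDerivAt (rad f c) (fderiv ℝ (rad f c) (s, a, w))
        (((s, a, w) : R4) + (0 : ℝ) • ((σ, b, z) : R4)) := by
      rw [hline0]
      exact hd.hasFDerivAt
    have h3 := h2.comp_hasDerivAt (0 : ℝ) hline
    rw [hv] at h3
    exact h3
  obtain ⟨μ, hμ⟩ : ∃ μ : ℝ, HasDerivAt (fun t : ℝ => mf f c ((s, a, w) + t • (σ, b, z))) μ 0 := by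
    have h2 : HasFDerivAt (mf f c) (fderiv ℝ (mf f c) (s, a, w))
        (((s, a, w) : R4) + (0 : ℝ) • ((σ, b, z) : R4)) := by
      rw [hline0]
      exact hdm.hasFDerivAt
    have h3 := h2.comp_hasDerivAt (0 : ℝ) hline
    exact ⟨_, h3⟩
  have e1 : ∀ t : ℝ, rad f c ((s, a, w) + t • (σ, b, z)) =
      (s + t * σ, c + mf f c ((s, a, w) + t • (σ, b, z)) * (a - c + t * b),
        ((mf f c ((s, a, w) + t • (σ, b, z)) : ℝ) : ℂ) * (w + t * z)) := by
    intro t
    rw [rad_eq]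
    refine Prod.ext ?_ (Prod.ext ?_ ?_)
    · simp
    · simp only [Prod.fst_add, Prod.snd_add, Prod.smul_fst, Prod.smul_snd, smul_eq_mul]
      ring
    · simp
  simp only [e1] at hc
  have hσ : σ = 0 := by
    have h2 := (ContinuousLinearMap.fst ℝ ℝ (ℝ × ℂ)).hasFDerivAt.comp_hasDerivAt (0 : ℝ) hc
    have h5 := (line_deriv s σ).unique h2
    simpa using h5
  set m : ℝ := mf f c (s, a, w) with hm
  have hm0 : 0 < m := mf_pos hf c _ hp
  have hma : mf f c (((s, a, w) : R4) + (0 : ℝ) • ((σ, b, z) : R4)) = m := by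
    rw [hline0]
  have hb : μ * (a - c) + m * b = 0 := by
    have h2 := ((ContinuousLinearMap.fst ℝ ℝ ℂ).comp
      (ContinuousLinearMap.snd ℝ ℝ (ℝ × ℂ))).hasFDerivAt.comp_hasDerivAt (0 : ℝ) hc
    have h3 := (hμ.mul (line_deriv (a - c) b)).const_add c
    have h4 := h3.unique h2
    rw [hma] at h4
    simpa using h4
  have hre : μ * w.re + m * z.re = 0 := by
    have h2 := (Complex.reCLM.comp ((ContinuousLinearMap.snd ℝ ℝ ℂ).comp
      (ContinuousLinearMap.snd ℝ ℝ (ℝ × ℂ)))).hasFDerivAt.comp_hasDerivAt (0 : ℝ) hc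
    have h3 := hμ.mul (line_deriv w.re z.re)
    have e2 : ((Complex.reCLM.comp ((ContinuousLinearMap.snd ℝ ℝ ℂ).comp
        (ContinuousLinearMap.snd ℝ ℝ (ℝ × ℂ)))) ∘ fun t : ℝ =>
        ((s + t * σ, c + mf f c ((s, a, w) + t • (σ, b, z)) * (a - c + t * b),
        ((mf f c ((s, a, w) + t • (σ, b, z)) : ℝ) : ℂ) * (w + t * z)) : R4)) =
        ((fun t : ℝ => mf f c ((s, a, w) + t • (σ, b, z))) * fun t : ℝ => w.re + t * z.re) := by
      ext t
      simp
    rw [e2] at h2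
    have h4 := h3.unique h2
    rw [hma] at h4
    simpa using h4
  have him : μ * w.im + m * z.im = 0 := by
    have h2 := (Complex.imCLM.comp ((ContinuousLinearMap.snd ℝ ℝ ℂ).comp
      (ContinuousLinearMap.snd ℝ ℝ (ℝ × ℂ)))).hasFDerivAt.comp_hasDerivAt (0 : ℝ) hc
    have h3 := hμ.mul (line_deriv w.im z.im)
    have e2 : ((Complex.imCLM.comp ((ContinuousLinearMap.snd ℝ ℝ ℂ).comp
        (ContinuousLinearMap.snd ℝ ℝ (ℝ × ℂ)))) ∘ fun t : ℝ =>
        ((s + t * σ, c + mf f c ((s, a, w) + t • (σ, b, z)) * (a - c + t * b),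
        ((mf f c ((s, a, w) + t • (σ, b, z)) : ℝ) : ℂ) * (w + t * z)) : R4)) =
        ((fun t : ℝ => mf f c ((s, a, w) + t • (σ, b, z))) * fun t : ℝ => w.im + t * z.im) := by
      ext t
      simp
    rw [e2] at h2
    have h4 := h3.unique h2
    rw [hma] at h4
    simpa using h4
  -- the derivative of the squared radius
  set D : ℝ := 2 * ((a - c) * b + w.re * z.re + w.im * z.im) with hD
  have hR : HasDerivAt (fun t : ℝ => rsq c ((s, a, w) + t • (σ, b, z))) D 0 := by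
    have e2 : (fun t : ℝ => rsq c ((s, a, w) + t • (σ, b, z))) = fun t : ℝ =>
        (a - c + t * b) ^ 2 + (w.re + t * z.re) ^ 2 + (w.im + t * z.im) ^ 2 := by
      ext t
      rw [rsq_eq]
      simp
      ring
    rw [e2]
    have h3 := (((line_deriv (a - c) b).pow 2).add ((line_deriv w.re z.re).pow 2)).add
      ((line_deriv w.im z.im).pow 2)
    refine h3.congr_deriv ?_
    simp only [zero_mul, add_zero, hD]
    ring
  have hq : HasDerivAt (fun t : ℝ => f (rsq c ((s, a, w) + t • (σ, b, z))))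
      (deriv f (rsq c (s, a, w)) * D) 0 := by
    have h2 : HasDerivAt f (deriv f (rsq c (s, a, w)))
        (rsq c (((s, a, w) : R4) + (0 : ℝ) • ((σ, b, z) : R4))) := by
      rw [hline0]
      exact hf.hasDeriv _
    exact h2.comp (0 : ℝ) hR
  have hq2 : HasDerivAt (fun t : ℝ => f (rsq c ((s, a, w) + t • (σ, b, z)))) 0 0 := by
    have h2 : HasFDerivAt (rsq c) (fderiv ℝ (rsq c) (rad f c (s, a, w)))
        (rad f c (((s, a, w) : R4) + (0 : ℝ) • ((σ, b, z) : R4))) := by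
      rw [hline0]
      exact ((rsq_contDiff c).differentiable (by simp) _).hasFDerivAt
    have hc' : HasDerivAt (fun t : ℝ => rad f c ((s, a, w) + t • (σ, b, z))) 0 0 := by
      simp only [e1]
      exact hc
    have h3 := h2.comp_hasDerivAt (0 : ℝ) hc'
    rw [map_zero] at h3
    refine h3.congr_of_eventuallyEq ?_
    have h4 : ∀ᶠ t : ℝ in 𝓝 0, ((s, a, w) : R4) + t • ((σ, b, z) : R4) ∈
        {p : R4 | 0 < rsq c p} := by
      have h5 : ContinuousAt (fun t : ℝ => ((s, a, w) : R4) + t • ((σ, b, z) : R4)) 0 :=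
        hline.continuousAt
      apply h5.eventually_mem
      rw [hline0]
      exact hnhd
    filter_upwards [h4] with t ht
    exact (rsq_rad hf c _ ht).symm
  have hD0 : D = 0 := by
    have h2 := hq.unique hq2
    rcases mul_eq_zero.1 h2 with h3 | h3
    · exact absurd h3 (hf.pos _).ne'
    · exact h3
  have hR0 : rsq c (s, a, w) = (a - c) ^ 2 + w.re ^ 2 + w.im ^ 2 := rfl
  have hμ0 : μ = 0 := by
    have h2 : μ * rsq c (s, a, w) = 0 := by
      have h3 : (μ * (a - c) + m * b) * (a - c) + (μ * w.re + m * z.re) * w.re +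
          (μ * w.im + m * z.im) * w.im = μ * rsq c (s, a, w) + m * D / 2 := by
        rw [hR0, hD]
        ring
      rw [hb, hre, him, hD0] at h3
      linarith
    rcases mul_eq_zero.1 h2 with h3 | h3
    · exact h3
    · exact absurd h3 hp.ne'
  have key : ∀ x y : ℝ, μ * x + m * y = 0 → y = 0 := by
    intro x y h
    rw [hμ0, zero_mul, zero_add] at h
    rcases mul_eq_zero.1 h with h3 | h3
    · exact absurd h3 hm0.ne'
    · exact h3
  have hb0 := key _ _ hb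
  have hz : z = 0 := Complex.ext (key _ _ hre) (key _ _ him)
  rw [hσ, hb0, hz]
  rfl

theorem rad_inj (hf : Prf f) (c : ℝ) :
    InjOn (rad f c) {p : R4 | 0 < rsq c p} := by
  intro p hp p' hp' h
  have hp : 0 < rsq c p := hp
  have hp' : 0 < rsq c p' := hp'
  have h2 : rsq c p = rsq c p' := by
    apply hf.mono.injective
    rw [← rsq_rad hf c p hp, ← rsq_rad hf c p' hp', h]
  have h3 : mf f c p = mf f c p' := by
    rw [mf, mf, h2]
  have hm := mf_pos hf c p' hp'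
  rw [rad_eq, rad_eq, h3] at h
  obtain ⟨s, a, w⟩ := p
  obtain ⟨s', a', w'⟩ := p'
  simp only [Prod.mk.injEq] at h
  obtain ⟨h4, h5, h6⟩ := h
  have h7 : mf f c (s', a', w') * (a - c) = mf f c (s', a', w') * (a' - c) := by linarith
  have h8 := mul_left_cancel₀ hm.ne' h7
  have h9 : ((mf f c (s', a', w') : ℝ) : ℂ) ≠ 0 := by exact_mod_cast hm.ne'
  have h10 := mul_left_cancel₀ h9 h6
  have h11 : a = a' := by linarith
  rw [h4, h10, h11]


/-- the radial map is an embedding off the vertical line -/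
theorem rad_embOn (hf : Prf f) (c : ℝ) :
    EmbOn Pool.Agent.Helper70.BI.I4 (rad f c) {p : R4 | 0 < rsq c p} := by
  rw [Pool.Agent.Helper70.BI.embOn_iff]
  refine ⟨fun p hp => ⟨?_, ?_⟩, rad_inj hf c⟩
  · filter_upwards [(isOpen_pos c).mem_nhds hp] with q hq
    exact (rad_contDiffOn hf c).contDiffAt ((isOpen_pos c).mem_nhds hq)
  · intro v v' h
    have h1 : fderiv ℝ (rad f c) p (v - v') = 0 := by rw [map_sub, h, sub_self]
    exact sub_eq_zero.1 (rad_fderiv hf c p _ hp h1)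

/-! ### the profile -/

/-- the two-sided profile: the identity near `1/25`, with small derivative away from `1/25` -/
noncomputable def fr (δ q : ℝ) : ℝ :=
  q + (1 - δ) * δ * ramp ((1 / 25 - δ - q) / δ) - (1 - δ) * δ * ramp ((q - (1 / 25 + δ)) / δ)

theorem fr_deriv {δ : ℝ} (h0 : 0 < δ) (q : ℝ) :
    HasDerivAt (fr δ) (1 - (1 - δ) * step ((1 / 25 - δ - q) / δ) -
      (1 - δ) * step ((q - (1 / 25 + δ)) / δ)) q := by
  have h1 : HasDerivAt (fun q : ℝ => (1 / 25 - δ - q) / δ) (-1 / δ) q := by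
    have := ((hasDerivAt_id q).const_sub (1 / 25 - δ)).div_const δ
    simpa using this
  have h2 : HasDerivAt (fun q : ℝ => (q - (1 / 25 + δ)) / δ) (1 / δ) q := by
    have := ((hasDerivAt_id q).sub_const (1 / 25 + δ)).div_const δ
    simpa using this
  have h3 := ((m_R0.2.1 ((1 / 25 - δ - q) / δ)).comp q h1).const_mul ((1 - δ) * δ)
  have h4 := ((m_R0.2.1 ((q - (1 / 25 + δ)) / δ)).comp q h2).const_mul ((1 - δ) * δ)
  have h5 := ((hasDerivAt_id q).add h3).sub h4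
  refine h5.congr_deriv ?_
  field_simp
  ring

theorem fr_smooth (δ : ℝ) : ContDiff ℝ ∞ (fr δ) := by
  have h1 : ContDiff ℝ ∞ (fun q : ℝ => ramp ((1 / 25 - δ - q) / δ)) :=
    m_R0.1.comp (by fun_prop)
  have h2 : ContDiff ℝ ∞ (fun q : ℝ => ramp ((q - (1 / 25 + δ)) / δ)) :=
    m_R0.1.comp (by fun_prop)
  exact (contDiff_id.add (contDiff_const.mul h1)).sub (contDiff_const.mul h2)

theorem fr_eq {δ : ℝ} (h0 : 0 < δ) {q : ℝ} (h1 : 1 / 25 - δ ≤ q) (h2 : q ≤ 1 / 25 + δ) :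
    fr δ q = q := by
  have h3 : ramp ((1 / 25 - δ - q) / δ) = 0 :=
    m_R0.2.2.1 _ (div_nonpos_of_nonpos_of_nonneg (by linarith) h0.le)
  have h4 : ramp ((q - (1 / 25 + δ)) / δ) = 0 :=
    m_R0.2.2.1 _ (div_nonpos_of_nonpos_of_nonneg (by linarith) h0.le)
  unfold fr
  rw [h3, h4]
  ring

/-- bounds of the profile -/
theorem fr_bounds {δ : ℝ} (h0 : 0 < δ) (h1 : δ < 1 / 100) {q : ℝ} (hq : 0 ≤ q) (hq' : q ≤ 9) :
    1 / 25 - 3 * δ ≤ fr δ q ∧ fr δ q ≤ 1 / 25 + 12 * δ := by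
  obtain ⟨-, -, r0, rn, rl, ru⟩ := m_R0
  have hp : 0 < (1 - δ) * δ := mul_pos (by linarith) h0
  rcases le_total q (1 / 25) with hle | hle
  · have h4 : ramp ((q - (1 / 25 + δ)) / δ) = 0 :=
      r0 _ (div_nonpos_of_nonpos_of_nonneg (by linarith) h0.le)
    unfold fr
    rw [h4, mul_zero, sub_zero]
    set x := (1 / 25 - δ - q) / δ with hx
    have ex : x * δ = 1 / 25 - δ - q := div_mul_cancel₀ _ h0.ne'
    have l1 := rl x
    have l2 := rn x
    have k1 := mul_le_mul_of_nonneg_left l1 hp.le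
    constructor
    · have : (1 - δ) * δ * (x - 1) = (1 - δ) * (1 / 25 - δ - q) - (1 - δ) * δ := by
        rw [← ex]; ring
      nlinarith
    · rcases le_total x 0 with hx0 | hx0
      · rw [r0 x hx0]
        linarith
      · have l3 := ru x hx0
        have k3 := mul_le_mul_of_nonneg_left l3 hp.le
        have : (1 - δ) * δ * x = (1 - δ) * (1 / 25 - δ - q) := by rw [← ex]; ring
        nlinarith
  · have h4 : ramp ((1 / 25 - δ - q) / δ) = 0 :=
      r0 _ (div_nonpos_of_nonpos_of_nonneg (by linarith) h0.le)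
    unfold fr
    rw [h4, mul_zero, add_zero]
    set x := (q - (1 / 25 + δ)) / δ with hx
    have ex : x * δ = q - (1 / 25 + δ) := div_mul_cancel₀ _ h0.ne'
    have l1 := rl x
    have l2 := rn x
    have k1 := mul_le_mul_of_nonneg_left l1 hp.le
    constructor
    · rcases le_total x 0 with hx0 | hx0
      · rw [r0 x hx0]
        linarith
      · have l3 := ru x hx0
        have k3 := mul_le_mul_of_nonneg_left l3 hp.le
        have : (1 - δ) * δ * x = (1 - δ) * (q - (1 / 25 + δ)) := by rw [← ex]; ring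
        have h7 : 0 ≤ δ * (q - (1 / 25 + δ)) := by
          rw [← ex]
          positivity
        nlinarith
    · have : (1 - δ) * δ * (x - 1) = (1 - δ) * (q - (1 / 25 + δ)) - (1 - δ) * δ := by
        rw [← ex]; ring
      nlinarith

theorem fr_pos0 {δ : ℝ} (h0 : 0 < δ) (h1 : δ < 1 / 100) {q : ℝ} (hq : 0 ≤ q) : 0 < fr δ q := by
  rcases le_total q 9 with h | h
  · have := (fr_bounds h0 h1 hq h).1
    linarith
  · obtain ⟨-, -, r0, rn, rl, ru⟩ := m_R0
    have hp : 0 < (1 - δ) * δ := mul_pos (by linarith) h0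
    have h4 : ramp ((1 / 25 - δ - q) / δ) = 0 :=
      r0 _ (div_nonpos_of_nonpos_of_nonneg (by linarith) h0.le)
    unfold fr
    rw [h4, mul_zero, add_zero]
    set x := (q - (1 / 25 + δ)) / δ with hx
    have ex : x * δ = q - (1 / 25 + δ) := div_mul_cancel₀ _ h0.ne'
    have hx0 : 0 ≤ x := by rw [hx]; apply div_nonneg _ h0.le; linarith
    have l3 := ru x hx0
    have k3 := mul_le_mul_of_nonneg_left l3 hp.le
    have : (1 - δ) * δ * x = (1 - δ) * (q - (1 / 25 + δ)) := by rw [← ex]; ring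
    nlinarith

theorem fr_prf {δ : ℝ} (h0 : 0 < δ) (h1 : δ < 1 / 100) : Prf (fr δ) := by
  refine ⟨fr_smooth δ, fun q => ?_, fun q hq => fr_pos0 h0 h1 hq.le⟩
  rw [(fr_deriv h0 q).deriv]
  have s1 := step_mem ((1 / 25 - δ - q) / δ)
  have s2 := step_mem ((q - (1 / 25 + δ)) / δ)
  have hd : 0 < 1 - δ := by linarith
  rcases le_total q (1 / 25) with hle | hle
  · have h4 : step ((q - (1 / 25 + δ)) / δ) = 0 :=
      step_of_nonpos (div_nonpos_of_nonpos_of_nonneg (by linarith) h0.le)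
    rw [h4]
    nlinarith [s1.2, s1.1]
  · have h4 : step ((1 / 25 - δ - q) / δ) = 0 :=
      step_of_nonpos (div_nonpos_of_nonpos_of_nonneg (by linarith) h0.le)
    rw [h4]
    nlinarith [s2.2, s2.1]

theorem rad_id {δ : ℝ} (h0 : 0 < δ) {c : ℝ} {p : R4} (h1 : 1 / 25 - δ ≤ rsq c p)
    (h2 : rsq c p ≤ 1 / 25 + δ) (hp : 0 < rsq c p) : rad (fr δ) c p = p := by
  have hm : mf (fr δ) c p = 1 := by
    unfold mf
    rw [fr_eq h0 h1 h2, div_self hp.ne', Real.sqrt_one]
  rw [rad_eq, hm]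
  refine Prod.ext rfl (Prod.ext ?_ ?_)
  · show c + 1 * (p.2.1 - c) = p.2.1
    ring
  · show ((1 : ℝ) : ℂ) * p.2.2 = p.2.2
    rw [Complex.ofReal_one, one_mul]

end Rad

end Pool.Agent.Helper27.R


end

/-! ## Helper27.BI.R.Kap -/

section

/-!
# Project BI, stage 4 (R): the map `kap`, which moves the first ball parallel to the second one

`kap ζ` is a diffeomorphism of four-space; near the flat ball `flat 0` it is the translation by `(-ζ, 1, 0)`, near the
flat ball `flat 1` it is the identity; the image of the bar does not meet the vertical line through the centre of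
`flat 1`.
-/

set_option autoImplicit false

open scoped Manifold ContDiff Topology ComplexConjugate
open Set Filter Pool.Agent.Helper65.Barb Pool.Agent.Helper18.BI
open Pool.Agent.Helper70.BI (I4 LD ld_iff embOn_iff)

namespace Pool.Agent.Helper27.R

/-- an embedding from a smooth left inverse -/
theorem embOn_of_left {f g : R4 → R4} (hf : ContDiff ℝ ∞ f) (hg : ContDiff ℝ ∞ g)
    (h : ∀ x, g (f x) = x) (L : Set R4) : EmbOn I4 f L := by
  rw [embOn_iff]
  refine ⟨fun p _ => ⟨Eventually.of_forall fun q => hf.contDiffAt, ?_⟩, fun p _ q _ e => ?_⟩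
  · intro v w hvw
    have h1 : HasFDerivAt f (fderiv ℝ f p) p := (hf.differentiable (by simp) p).hasFDerivAt
    have h2 : HasFDerivAt g (fderiv ℝ g (f p)) (f p) := (hg.differentiable (by simp) _).hasFDerivAt
    have h3 : HasFDerivAt (fun x => g (f x)) ((fderiv ℝ g (f p)).comp (fderiv ℝ f p)) p :=
      h2.comp p h1
    have h4 : (fun x => g (f x)) = fun x => x := funext h
    rw [h4] at h3
    have h5 := h3.unique (hasFDerivAt_id p)
    have h6 : ∀ u, (fderiv ℝ g (f p)) (fderiv ℝ f p u) = u := fun u => by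
      have := congrArg (fun L : R4 →L[ℝ] R4 => L u) h5
      simpa using this
    rw [← h6 v, ← h6 w, hvw]
  · rw [← h p, ← h q, e]

/-- `1` for `a ≤ 3/10`, `0` for `7/10 ≤ a` -/
noncomputable def kf (a : ℝ) : ℝ := step ((7 / 10 - a) * (5 / 2))

/-- `1` at the level `1/2 - ζ`, `0` at the level `1/2` -/
noncomputable def kg (ζ σ : ℝ) : ℝ := step (2 * ((1 / 2 - σ) / ζ) - 1 / 2)

/-- the bump in the direction `w` -/
noncomputable def kh (a : ℝ) : ℝ := step (20 * (a - 1 / 4)) * step (20 * (3 / 4 - a))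

/-- the diffeomorphism -/
noncomputable def kap (ζ : ℝ) (p : R4) : R4 :=
  (p.1 - ζ * kf p.2.1, p.2.1 + kg ζ (p.1 - ζ * kf p.2.1), p.2.2 + (kh p.2.1 : ℂ))

/-- the inverse diffeomorphism -/
noncomputable def kapi (ζ : ℝ) (p : R4) : R4 :=
  (p.1 + ζ * kf (p.2.1 - kg ζ p.1), p.2.1 - kg ζ p.1, p.2.2 - (kh (p.2.1 - kg ζ p.1) : ℂ))

theorem contDiff_kf : ContDiff ℝ ∞ kf := contDiff_step.comp (by fun_prop)

theorem contDiff_kg (ζ : ℝ) : ContDiff ℝ ∞ (kg ζ) := contDiff_step.comp (by fun_prop)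

theorem contDiff_kh : ContDiff ℝ ∞ kh :=
  (contDiff_step.comp (by fun_prop)).mul (contDiff_step.comp (by fun_prop))

theorem kapi_kap (ζ : ℝ) (p : R4) : kapi ζ (kap ζ p) = p := by
  obtain ⟨s, a, w⟩ := p
  unfold kapi kap
  simp only [add_sub_cancel_right]
  refine Prod.ext ?_ (Prod.ext ?_ ?_)
  · simp
  · simp
  · simp

theorem contDiff_kap (ζ : ℝ) : ContDiff ℝ ∞ (kap ζ) := by
  have h1 : ContDiff ℝ ∞ (fun p : R4 => kf p.2.1) :=
    contDiff_kf.comp (contDiff_fst.comp contDiff_snd)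
  have h2 : ContDiff ℝ ∞ (fun p : R4 => p.1 - ζ * kf p.2.1) :=
    contDiff_fst.sub (contDiff_const.mul h1)
  have h3 : ContDiff ℝ ∞ (fun p : R4 => kg ζ (p.1 - ζ * kf p.2.1)) := (contDiff_kg ζ).comp h2
  have h4 : ContDiff ℝ ∞ (fun p : R4 => ((kh p.2.1 : ℝ) : ℂ)) :=
    Complex.ofRealCLM.contDiff.comp (contDiff_kh.comp (contDiff_fst.comp contDiff_snd))
  exact h2.prodMk (((contDiff_fst.comp contDiff_snd).add h3).prodMk
    ((contDiff_snd.comp contDiff_snd).add h4))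

theorem contDiff_kapi (ζ : ℝ) : ContDiff ℝ ∞ (kapi ζ) := by
  have h1 : ContDiff ℝ ∞ (fun p : R4 => p.2.1 - kg ζ p.1) :=
    (contDiff_fst.comp contDiff_snd).sub ((contDiff_kg ζ).comp contDiff_fst)
  have h2 : ContDiff ℝ ∞ (fun p : R4 => kf (p.2.1 - kg ζ p.1)) := contDiff_kf.comp h1
  have h4 : ContDiff ℝ ∞ (fun p : R4 => ((kh (p.2.1 - kg ζ p.1) : ℝ) : ℂ)) :=
    Complex.ofRealCLM.contDiff.comp (contDiff_kh.comp h1)
  exact (contDiff_fst.add (contDiff_const.mul h2)).prodMk (h1.prodMk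
    ((contDiff_snd.comp contDiff_snd).sub h4))

theorem kap_embOn (ζ : ℝ) (L : Set R4) : EmbOn I4 (kap ζ) L :=
  embOn_of_left (contDiff_kap ζ) (contDiff_kapi ζ) (kapi_kap ζ) L

theorem kf_one {a : ℝ} (h : a ≤ 3 / 10) : kf a = 1 := step_of_one_le (by linarith)

theorem kf_zero {a : ℝ} (h : 7 / 10 ≤ a) : kf a = 0 := step_of_nonpos (by linarith)

theorem kf_mem (a : ℝ) : 0 ≤ kf a ∧ kf a ≤ 1 := step_mem _

theorem kg_mem (ζ σ : ℝ) : 0 ≤ kg ζ σ ∧ kg ζ σ ≤ 1 := step_mem _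

theorem kh_zero {a : ℝ} (h : a ≤ 1 / 4 ∨ 3 / 4 ≤ a) : kh a = 0 := by
  unfold kh
  rcases h with h | h
  · rw [step_of_nonpos (by linarith : 20 * (a - 1 / 4) ≤ 0), zero_mul]
  · rw [step_of_nonpos (by linarith : 20 * (3 / 4 - a) ≤ 0), mul_zero]

theorem kh_one {a : ℝ} (h : 3 / 10 ≤ a) (h' : a ≤ 7 / 10) : kh a = 1 := by
  unfold kh
  rw [step_of_one_le (by linarith : 1 ≤ 20 * (a - 1 / 4)),
    step_of_one_le (by linarith : 1 ≤ 20 * (3 / 4 - a)), mul_one]

theorem kh_mem (a : ℝ) : 0 ≤ kh a ∧ kh a ≤ 1 := by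
  have h1 := step_mem (20 * (a - 1 / 4))
  have h2 := step_mem (20 * (3 / 4 - a))
  exact ⟨mul_nonneg h1.1 h2.1, mul_le_one₀ h1.2 h2.1 h2.2⟩

/-- the level function at levels close to `1/2` -/
theorem kg_zero {ζ : ℝ} (hζ : ζ ≠ 0) {s : ℝ} (h : |s - 1 / 2| ≤ |ζ| / 4) : kg ζ s = 0 := by
  apply step_of_nonpos
  have h1 : |(1 / 2 - s) / ζ| ≤ 1 / 4 := by
    rw [abs_div, div_le_iff₀ (abs_pos.2 hζ), abs_sub_comm]
    linarith
  have := (abs_le.1 h1).2
  linarith

/-- the level function at levels close to `1/2 - ζ` -/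
theorem kg_one {ζ : ℝ} (hζ : ζ ≠ 0) {s : ℝ} (h : |s - (1 / 2 - ζ)| ≤ |ζ| / 4) : kg ζ s = 1 := by
  apply step_of_one_le
  have e : (1 / 2 - s) / ζ = 1 - (s - (1 / 2 - ζ)) / ζ := by
    field_simp
    ring
  have h1 : |(s - (1 / 2 - ζ)) / ζ| ≤ 1 / 4 := by
    rw [abs_div, div_le_iff₀ (abs_pos.2 hζ)]
    linarith
  have := (abs_le.1 h1).2
  rw [e]
  linarith

/-- near the first ball -/
theorem kap_near0 {ζ : ℝ} (hζ : ζ ≠ 0) {p : R4} (h : |p.1 - 1 / 2| ≤ |ζ| / 4)
    (h' : p.2.1 ≤ 1 / 4) : kap ζ p = (p.1 - ζ, p.2.1 + 1, p.2.2) := by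
  have h1 : kf p.2.1 = 1 := kf_one (by linarith)
  have h2 : kg ζ (p.1 - ζ * 1) = 1 := kg_one hζ (by
    have : p.1 - ζ * 1 - (1 / 2 - ζ) = p.1 - 1 / 2 := by ring
    rw [this]
    exact h)
  unfold kap
  rw [h1, h2, kh_zero (Or.inl h')]
  simp

/-- near the second ball -/
theorem kap_near1 {ζ : ℝ} (hζ : ζ ≠ 0) {p : R4} (h : |p.1 - 1 / 2| ≤ |ζ| / 4)
    (h' : 3 / 4 ≤ p.2.1) : kap ζ p = p := by
  have h1 : kf p.2.1 = 0 := kf_zero (by linarith)
  have h2 : kg ζ (p.1 - ζ * 0) = 0 := kg_zero hζ (by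
    have : p.1 - ζ * 0 - 1 / 2 = p.1 - 1 / 2 := by ring
    rw [this]
    exact h)
  unfold kap
  rw [h1, h2, kh_zero (Or.inr h')]
  simp

theorem flat_coord {c : ℝ} {p : R4} (hp : p ∈ flat c) :
    p.1 = 1 / 2 ∧ (p.2.1 - c) ^ 2 + p.2.2.re ^ 2 + p.2.2.im ^ 2 ≤ 1 / 25 ∧
      c - 1 / 5 ≤ p.2.1 ∧ p.2.1 ≤ c + 1 / 5 := by
  obtain ⟨h1, h2⟩ := hp
  have h3 : (p.2.1 - c) ^ 2 + p.2.2.re ^ 2 + p.2.2.im ^ 2 ≤ 1 / 25 := h2
  refine ⟨h1, h3, ?_, ?_⟩ <;> nlinarith [sq_nonneg p.2.2.re, sq_nonneg p.2.2.im]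

/-- the images of the points of the spine with the balls filled in -/
theorem kap_FB {ζ : ℝ} (hζ : ζ ≠ 0) {p : R4} (hp : p ∈ FB) :
    |(kap ζ p).1 - 1 / 2| ≤ |ζ| ∧ rsq 1 (kap ζ p) < 9 ∧
      (rsq 1 (kap ζ p) = 0 → p = (1 / 2, ((0 : ℝ), (0 : ℂ))) ∨ p = (1 / 2, ((1 : ℝ), (0 : ℂ)))) := by
  have h0 : |(1 / 2 : ℝ) - 1 / 2| ≤ |ζ| / 4 := by
    rw [sub_self, abs_zero]
    positivity
  have hz : ∀ p : R4, rsq 1 p = 0 → p.2.1 = 1 ∧ p.2.2 = 0 := by
    intro p hp
    have h : (p.2.1 - 1) ^ 2 + p.2.2.re ^ 2 + p.2.2.im ^ 2 = 0 := hp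
    have a1 := sq_nonneg (p.2.1 - 1)
    have a2 := sq_nonneg p.2.2.re
    have a3 := sq_nonneg p.2.2.im
    refine ⟨?_, Complex.ext ?_ ?_⟩
    · have : (p.2.1 - 1) ^ 2 = 0 := by linarith
      have := pow_eq_zero_iff (two_ne_zero) |>.1 this
      linarith
    · exact pow_eq_zero_iff (two_ne_zero) |>.1 (by linarith : p.2.2.re ^ 2 = 0)
    · exact pow_eq_zero_iff (two_ne_zero) |>.1 (by linarith : p.2.2.im ^ 2 = 0)
  rcases hp with (hp | hp) | hp
  · obtain ⟨h1, h2, h3, h4⟩ := flat_coord hp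
    have e := kap_near0 hζ (p := p) (by rw [h1]; exact h0) (by linarith)
    rw [e]
    refine ⟨?_, ?_, fun h => Or.inl ?_⟩
    · rw [h1]
      have : (1 / 2 : ℝ) - ζ - 1 / 2 = -ζ := by ring
      simp only [this, abs_neg, le_refl]
    · show (p.2.1 + 1 - 1) ^ 2 + p.2.2.re ^ 2 + p.2.2.im ^ 2 < 9
      have : p.2.1 + 1 - 1 = p.2.1 - 0 := by ring
      rw [this]
      linarith
    · obtain ⟨a, b⟩ := hz _ h
      simp only at a b
      exact Prod.ext h1 (Prod.ext (by simp only; linarith) b)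
  · obtain ⟨h1, h2, h3, h4⟩ := flat_coord hp
    have e := kap_near1 hζ (p := p) (by rw [h1]; exact h0) (by linarith)
    rw [e]
    refine ⟨?_, ?_, fun h => Or.inr ?_⟩
    · rw [h1, sub_self, abs_zero]
      positivity
    · show (p.2.1 - 1) ^ 2 + p.2.2.re ^ 2 + p.2.2.im ^ 2 < 9
      linarith
    · obtain ⟨a, b⟩ := hz _ h
      exact Prod.ext h1 (Prod.ext a b)
  · obtain ⟨h1, h2, h3, h4⟩ := hp
    obtain ⟨f1, f2⟩ := kf_mem p.2.1
    obtain ⟨g1, g2⟩ := kg_mem ζ (p.1 - ζ * kf p.2.1)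
    obtain ⟨k1, k2⟩ := kh_mem p.2.1
    have e1 : (kap ζ p).1 = 1 / 2 - ζ * kf p.2.1 := by
      show p.1 - ζ * kf p.2.1 = _
      rw [h1]
    have e2 : (kap ζ p).2.1 = p.2.1 + kg ζ (p.1 - ζ * kf p.2.1) := rfl
    have e3 : (kap ζ p).2.2 = (kh p.2.1 : ℂ) := by
      show p.2.2 + (kh p.2.1 : ℂ) = _
      rw [h4, zero_add]
    have e4 : rsq 1 (kap ζ p) = (p.2.1 + kg ζ (p.1 - ζ * kf p.2.1) - 1) ^ 2 + kh p.2.1 ^ 2 := by
      show ((kap ζ p).2.1 - 1) ^ 2 + (kap ζ p).2.2.re ^ 2 + (kap ζ p).2.2.im ^ 2 = _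
      rw [e2, e3, Complex.ofReal_re, Complex.ofReal_im]
      ring
    refine ⟨?_, ?_, fun h => ?_⟩
    · rw [e1]
      have : (1 / 2 : ℝ) - ζ * kf p.2.1 - 1 / 2 = -(ζ * kf p.2.1) := by ring
      rw [this, abs_neg, abs_mul, abs_of_nonneg f1]
      have := abs_nonneg ζ
      nlinarith
    · rw [e4]
      nlinarith
    · exfalso
      rw [e4] at h
      have a1 := sq_nonneg (p.2.1 + kg ζ (p.1 - ζ * kf p.2.1) - 1)
      have a2 := sq_nonneg (kh p.2.1)
      have h5 : p.2.1 + kg ζ (p.1 - ζ * kf p.2.1) - 1 = 0 :=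
        pow_eq_zero_iff (two_ne_zero) |>.1 (by linarith)
      have h6 : kh p.2.1 = 0 := pow_eq_zero_iff (two_ne_zero) |>.1 (by linarith)
      rcases lt_or_ge p.2.1 (3 / 10) with h7 | h7
      · have h8 : kg ζ (p.1 - ζ * kf p.2.1) = 1 := by
          rw [kf_one h7.le, h1, mul_one]
          apply kg_one hζ
          rw [sub_self, abs_zero]
          positivity
        rw [h8] at h5
        linarith
      · rcases le_or_gt p.2.1 (7 / 10) with h8 | h8
        · rw [kh_one h7 h8] at h6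
          norm_num at h6
        · have h9 : kg ζ (p.1 - ζ * kf p.2.1) = 0 := by
            rw [kf_zero h8.le, h1, mul_zero, sub_zero]
            exact kg_zero hζ h0
          rw [h9] at h5
          linarith

end Pool.Agent.Helper27.R


end

/-! ## Helper27.BI.R.Par -/

section

/-!
# Project BI, stage 4 (R), module PAR: the class of a parallel copy of the fixed cuff
-/

set_option autoImplicit false

open scoped Manifold ContDiff Topology ComplexConjugate
open Set Filter Pool.Agent.Helper65.Barb Pool.Agent.Helper18.BI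
open Pool.Agent.Helper70.BI (I4 LD IsW MW ld_iff embOn_iff ld_comp embOn_comp)
open Pool.Agent.Helper27.H
open Pool.Agent.Helper18.BI.H (StHMain)

namespace Pool.Agent.Helper27.R

open Rad (rad fr fr_prf fr_bounds rad_embOn rad_id rsq_rad)

theorem continuous_rsq (c : ℝ) : Continuous (rsq c) := by
  unfold rsq nsq
  fun_prop

/-- the box around the sphere `sph 1` -/
def bx (δ : ℝ) : Set R4 := {p | |p.1 - 1 / 2| ≤ δ ∧ |rsq 1 p - 1 / 25| ≤ 12 * δ}

theorem bx_mono {δ δ' : ℝ} (h : δ ≤ δ') : bx δ ⊆ bx δ' := fun p hp =>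
  ⟨hp.1.trans h, hp.2.trans (by linarith)⟩

theorem isCompact_bx (δ : ℝ) (h0 : 0 < δ) (h1 : δ ≤ 1 / 100) : IsCompact (bx δ) := by
  have hcl : IsClosed (bx δ) :=
    (isClosed_le (f := fun p : R4 => |p.1 - 1 / 2|) (by fun_prop) continuous_const).inter
      (isClosed_le (f := fun p : R4 => |rsq 1 p - 1 / 25|)
        ((continuous_rsq 1).sub continuous_const).abs continuous_const)
  refine (isCompact_closedBall ((1 / 2, ((1 : ℝ), (0 : ℂ))) : R4) 1).of_isClosed_subset hcl ?_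
  rintro ⟨s, a, w⟩ ⟨h2, h3⟩
  have h4 : (a - 1) ^ 2 + w.re ^ 2 + w.im ^ 2 ≤ 1 := by
    have h5 : rsq 1 (s, a, w) = (a - 1) ^ 2 + w.re ^ 2 + w.im ^ 2 := rfl
    have := (abs_le.1 h3).2
    rw [h5] at this
    linarith
  have h2' : |s - 1 / 2| ≤ 1 := h2.trans (by linarith)
  rw [mem_closedBall_iff_norm]
  have e : ((s, a, w) : R4) - (1 / 2, ((1 : ℝ), (0 : ℂ))) = (s - 1 / 2, a - 1, w) := by
    refine Prod.ext rfl (Prod.ext rfl ?_)
    show w - 0 = w
    rw [sub_zero]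
  rw [e]
  refine norm_prod_le_iff.2 ⟨h2', norm_prod_le_iff.2 ⟨?_, ?_⟩⟩
  · show |a - 1| ≤ 1
    apply abs_le_one_iff_mul_self_le_one.2
    nlinarith [sq_nonneg w.re, sq_nonneg w.im]
  · show ‖w‖ ≤ 1
    have h6 : ‖w‖ ^ 2 = w.re ^ 2 + w.im ^ 2 := by
      rw [Complex.sq_norm, Complex.normSq_apply]
      ring
    have h7 : ‖w‖ ^ 2 ≤ 1 := by nlinarith [sq_nonneg (a - 1)]
    nlinarith [norm_nonneg w]

theorem exists_bx {O : Set R4} (hO : IsOpen O) (h : sph 1 ⊆ O) :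
    ∃ δ ∈ Ioo (0 : ℝ) (1 / 100), bx δ ⊆ O := by
  have hc : IsCompact (bx (1 / 200) \ O) :=
    (isCompact_bx _ (by norm_num) (by norm_num)).diff hO
  rcases (bx (1 / 200) \ O).eq_empty_or_nonempty with h0 | h0
  · exact ⟨1 / 200, by norm_num, sdiff_eq_empty.1 h0⟩
  have hcont : Continuous (fun p : R4 => max |p.1 - 1 / 2| |rsq 1 p - 1 / 25|) :=
    Continuous.max (by fun_prop) ((continuous_rsq 1).sub continuous_const).abs
  obtain ⟨x, hx, hmin⟩ := hc.exists_isMinOn h0 hcont.continuousOn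
  have hpos : 0 < max |x.1 - 1 / 2| |rsq 1 x - 1 / 25| := by
    by_contra hle
    push Not at hle
    have h1 : |x.1 - 1 / 2| ≤ 0 := (le_max_left _ _).trans hle
    have h2 : |rsq 1 x - 1 / 25| ≤ 0 := (le_max_right _ _).trans hle
    have h3 := abs_nonpos_iff.1 h1
    have h4 := abs_nonpos_iff.1 h2
    exact hx.2 (h ⟨by linarith, by linarith⟩)
  set m := max |x.1 - 1 / 2| |rsq 1 x - 1 / 25| with hm
  refine ⟨min (1 / 200) (m / 24), ⟨lt_min (by norm_num) (by positivity), ?_⟩, fun p hp => ?_⟩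
  · exact lt_of_le_of_lt (min_le_left _ _) (by norm_num)
  · by_contra hpO
    have hp' : p ∈ bx (1 / 200) \ O := ⟨bx_mono (min_le_left _ _) hp, hpO⟩
    have h1 : m ≤ max |p.1 - 1 / 2| |rsq 1 p - 1 / 25| := hmin hp'
    have h2 : min (1 / 200) (m / 24) ≤ m / 24 := min_le_right _ _
    have h3 : max |p.1 - 1 / 2| |rsq 1 p - 1 / 25| ≤ m / 2 := by
      apply max_le
      · exact hp.1.trans (by linarith)
      · exact hp.2.trans (by linarith)
    linarith

theorem isCompact_sph1 : IsCompact (sph 1) := by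
  have hcl : IsClosed (sph 1) :=
    (isClosed_eq continuous_fst continuous_const).inter
      (isClosed_eq (continuous_rsq 1) continuous_const)
  refine (isCompact_bx (1 / 100) (by norm_num) le_rfl).of_isClosed_subset hcl ?_
  rintro p ⟨h1, h2⟩
  refine ⟨?_, ?_⟩
  · rw [h1, sub_self, abs_zero]; norm_num
  · rw [h2, sub_self, abs_zero]; norm_num

/-- the region of the model -/
def regn (w : ℝ) : Set R4 := {p | |p.1 - 1 / 2| < w ∧ rsq 1 p < 9}

theorem isOpen_regn (w : ℝ) : IsOpen (regn w) :=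
  (isOpen_lt (f := fun p : R4 => |p.1 - 1 / 2|) (by fun_prop) continuous_const).inter
    (isOpen_lt (continuous_rsq 1) continuous_const)

theorem rad_mem_bx {δ : ℝ} (hδ : δ ∈ Ioo (0 : ℝ) (1 / 100)) {p : R4} (hp : p ∈ regn δ)
    (h0 : 0 < rsq 1 p) : rad (fr δ) 1 p ∈ bx δ := by
  refine ⟨hp.1.le, ?_⟩
  rw [rsq_rad (fr_prf hδ.1 hδ.2) 1 p h0, abs_le]
  obtain ⟨h1, h2⟩ := fr_bounds hδ.1 hδ.2 h0.le hp.2.le
  constructor <;> linarith

section
variable {F : R4 → R4} {O : Set R4} {δ : ℝ} (hδ : δ ∈ Ioo (0 : ℝ) (1 / 100))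
  (hF : EmbOn I4 F O) (hO : bx δ ⊆ O)
include hδ hF hO

theorem frad_emb : EmbOn I4 (fun p => F (rad (fr δ) 1 p)) (regn δ ∩ {p | 0 < rsq 1 p}) := by
  have h1 : EmbOn I4 (rad (fr δ) 1) (regn δ ∩ {p | 0 < rsq 1 p}) :=
    Pool.Agent.Helper27.BI.EmbOn.mono (rad_embOn (fr_prf hδ.1 hδ.2) 1) inter_subset_right
  have h2 : EmbOn I4 (F ∘ rad (fr δ) 1) (regn δ ∩ {p | 0 < rsq 1 p}) :=
    embOn_comp hF h1 fun p hp => hO (rad_mem_bx hδ hp.1 hp.2)
  exact h2

/-- the arc datum -/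
theorem exists_parD : ∃ D : ArcD, D.U = regn δ ∧ D.s₀ = 1 / 2 - δ ∧ D.s₁ = 1 / 2 + δ ∧
    D.J = (fun p => p + ((0, 1, 0) : R4)) ∧ D.e = fun p => F (rad (fr δ) 1 p) := by
  have h0 := hδ.1
  have hJ : EmbOn I4 (fun p : R4 => p + ((0, 1, 0) : R4)) (seg (1 / 2 - δ) (1 / 2 + δ)) :=
    embOn_of_left (g := fun p => p - ((0, 1, 0) : R4)) (contDiff_id.add contDiff_const)
      (contDiff_id.sub contDiff_const) (fun x => by simp) _
  have hr : ∀ s : ℝ, rsq 1 ((s, 1, 0) : R4) = 0 := by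
    intro s
    show ((1 : ℝ) - 1) ^ 2 + (0 : ℂ).re ^ 2 + (0 : ℂ).im ^ 2 = 0
    simp
  refine ⟨{
    U := regn δ
    s₀ := 1 / 2 - δ
    m₀ := 1 / 2 - δ / 2
    m₁ := 1 / 2 + δ / 2
    s₁ := 1 / 2 + δ
    J := fun p => p + ((0, 1, 0) : R4)
    c := fun s => (s, 1, 0)
    e := fun p => F (rad (fr δ) 1 p)
    openU := isOpen_regn δ
    h₀ := by linarith
    h₁ := by linarith
    h₂ := by linarith
    smooth := by fun_prop
    core := fun s _ => by
      refine Prod.ext ?_ (Prod.ext ?_ ?_)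
      · show s + 0 = s
        ring
      · show (0 : ℝ × ℂ).1 + 1 = 1
        simp
      · show (0 : ℝ × ℂ).2 + 0 = 0
        simp
    emb := hJ
    mem := fun s hs => ⟨by
      show |s - 1 / 2| < δ
      rw [abs_lt]
      constructor <;> linarith [hs.1, hs.2], by rw [hr]; norm_num⟩
    off₀ := fun h => by
      have h1 : |(1 / 2 - δ) - 1 / 2| < δ := h.1
      have e : (1 / 2 - δ) - 1 / 2 = -δ := by ring
      rw [e, abs_neg, abs_of_pos h0] at h1
      exact lt_irrefl _ h1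
    off₁ := fun h => by
      have h1 : |(1 / 2 + δ) - 1 / 2| < δ := h.1
      have e : (1 / 2 + δ) - 1 / 2 = δ := by ring
      rw [e, abs_of_pos h0] at h1
      exact lt_irrefl _ h1
    embe := ?_ }, rfl, rfl, rfl, rfl, rfl⟩
  refine Pool.Agent.Helper27.BI.EmbOn.mono (frad_emb hδ hF hO) ?_
  rintro p ⟨hp, hp'⟩
  refine ⟨hp, ?_⟩
  by_contra hle
  have hle : ¬ 0 < rsq 1 p := hle
  apply hp'
  have h2 : (p.2.1 - 1) ^ 2 + p.2.2.re ^ 2 + p.2.2.im ^ 2 ≤ 0 := not_lt.1 hle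
  have a1 := sq_nonneg (p.2.1 - 1)
  have a2 := sq_nonneg p.2.2.re
  have a3 := sq_nonneg p.2.2.im
  have b1 : p.2.1 - 1 = 0 := pow_eq_zero_iff (two_ne_zero) |>.1 (by linarith : (p.2.1 - 1) ^ 2 = 0)
  have b2 : p.2.2.re = 0 := pow_eq_zero_iff (two_ne_zero) |>.1 (by linarith)
  have b3 : p.2.2.im = 0 := pow_eq_zero_iff (two_ne_zero) |>.1 (by linarith)
  have h3 := abs_lt.1 hp.1
  refine ⟨(p.1, 0), ⟨by linarith [h3.1], by linarith [h3.2], rfl⟩, ?_⟩
  refine Prod.ext ?_ (Prod.ext ?_ (Complex.ext ?_ ?_))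
  · show p.1 + 0 = p.1
    ring
  · show (0 : ℝ × ℂ).1 + 1 = p.2.1
    simp
    linarith
  · show ((0 : ℝ × ℂ).2 + 0).re = p.2.2.re
    rw [b2]
    simp
  · show ((0 : ℝ × ℂ).2 + 0).im = p.2.2.im
    rw [b3]
    simp

theorem par_cls (hCls : StCls) (hCROSS : StCROSS) (hCUSP : StCUSP) (hNORM : StNORM)
    {W φ : R4 → R4} (hW : IsW W) {η : ℝ} (hη : 0 < η) (hη' : η < δ)
    (hφ : Thin I4 (fun p => F (rad (fr δ) 1 (kap η p))) φ) : WR W (fun x => x) φ := by
  obtain ⟨D, dU, d0, d1, dJ, de⟩ := exists_parD hδ hF hO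
  have habs : |η| = η := abs_of_pos hη
  have hA : ∀ p ∈ D.A, rsq 1 p = 0 := by
    rintro p ⟨q, hq, rfl⟩
    rw [dJ]
    have h1 : q.2 = 0 := hq.2.2
    have e : (fun p => p + ((0, 1, 0) : R4)) q = (q.1, 1, 0) := by
      refine Prod.ext ?_ (Prod.ext ?_ ?_)
      · show q.1 + 0 = q.1
        ring
      · show q.2.1 + 1 = 1
        rw [h1]
        simp
      · show q.2.2 + 0 = 0
        rw [h1]
        simp
    rw [e]
    show ((1 : ℝ) - 1) ^ 2 + (0 : ℂ).re ^ 2 + (0 : ℂ).im ^ 2 = 0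
    simp
  have hT : D.XG (kap η) := by
    refine ⟨kap_embOn η FB, fun p hp => ?_, fun p hp hA' => ?_, ?_⟩
    · rw [dU]
      obtain ⟨h1, h2, -⟩ := kap_FB hη.ne' hp
      rw [habs] at h1
      exact ⟨h1.trans_lt hη', h2⟩
    · exact (kap_FB hη.ne' hp).2.2 (hA _ hA')
    · have near : ∀ᶠ s in 𝓝 (1 / 2 : ℝ), |s - 1 / 2| ≤ |η| / 4 := by
        have h1 : ContinuousAt (fun s : ℝ => |s - 1 / 2|) (1 / 2) := by fun_prop
        have h2 : |(1 / 2 : ℝ) - 1 / 2| < |η| / 4 := by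
          rw [sub_self, abs_zero, habs]
          positivity
        filter_upwards [h1.eventually (gt_mem_nhds h2)] with s hs
        exact hs.le
      refine ⟨fun s => s - η, fun s => s, (contDiff_id.sub contDiff_const).contDiffAt,
        contDiff_id.contDiffAt, ?_, ?_, ?_, ?_, ?_, ?_, ?_, ?_⟩
      · rw [deriv_sub_const, deriv_id'']
        norm_num
      · rw [deriv_id'']
        norm_num
      · rw [d0]
        linarith
      · show 1 / 2 - η < 1 / 2
        linarith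
      · rw [d1]
        linarith
      · filter_upwards [near] with s hs
        rw [kap_near0 hη.ne' (p := (s, ((0 : ℝ), (0 : ℂ)))) hs (by norm_num), dJ]
        refine Prod.ext ?_ (Prod.ext ?_ ?_)
        · show s - η = s - η + 0
          ring
        · show (0 : ℝ) + 1 = (0 : ℝ × ℂ).1 + 1
          simp
        · show (0 : ℂ) = (0 : ℝ × ℂ).2 + 0
          simp
      · filter_upwards [near] with s hs
        rw [kap_near1 hη.ne' (p := (s, ((1 : ℝ), (0 : ℂ)))) hs (by norm_num), dJ]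
        refine Prod.ext ?_ (Prod.ext ?_ ?_)
        · show s = s + 0
          ring
        · show (1 : ℝ) = (0 : ℝ × ℂ).1 + 1
          simp
        · show (0 : ℂ) = (0 : ℝ × ℂ).2 + 0
          simp
      · -- the determinants
        have e1 : kap η =ᶠ[𝓝 ((1 / 2, ((0 : ℝ), (0 : ℂ))) : R4)]
            fun p => p + ((-η, 1, 0) : R4) := by
          have c1 : ContinuousAt (fun p : R4 => |p.1 - 1 / 2|) (1 / 2, ((0 : ℝ), (0 : ℂ))) := by
            fun_prop
          have c2 : ContinuousAt (fun p : R4 => p.2.1) (1 / 2, ((0 : ℝ), (0 : ℂ))) := by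
            fun_prop
          have h2 : |(1 / 2 : ℝ) - 1 / 2| < |η| / 4 := by
            rw [sub_self, abs_zero, habs]
            positivity
          filter_upwards [c1.eventually (gt_mem_nhds h2),
            c2.eventually (gt_mem_nhds (by norm_num : ((0 : ℝ)) < 1 / 4))] with p h3 h4
          rw [kap_near0 hη.ne' h3.le h4.le]
          refine Prod.ext ?_ (Prod.ext ?_ ?_)
          · show p.1 - η = p.1 + -η
            ring
          · rfl
          · show p.2.2 = p.2.2 + 0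
            simp
        have e2 : fderiv ℝ (kap η) (1 / 2, ((0 : ℝ), (0 : ℂ))) = ContinuousLinearMap.id ℝ R4 := by
          rw [e1.fderiv_eq]
          exact ((hasFDerivAt_id _).add_const _).fderiv
        have e3 : ∀ q, fderiv ℝ D.J q = ContinuousLinearMap.id ℝ R4 := by
          intro q
          rw [dJ]
          exact ((hasFDerivAt_id _).add_const _).fderiv
        rw [e2, e3]
        have e4 : (ContinuousLinearMap.id ℝ R4).det = 1 := by
          show LinearMap.det (LinearMap.id : R4 →ₗ[ℝ] R4) = 1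
          exact LinearMap.det_id
        rw [e4]
        norm_num
  refine cross_class hCls hCROSS hCUSP hNORM (D := D) hW hT ?_
  rw [de]
  exact hφ

end

end Pool.Agent.Helper27.R


end
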