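import Pool.Agent.Helper65.Barb.Defs
import Pool.Agent.Helper70.BI.B.P05
import Pool.Agent.Helper70.BI.B.P15

/-!
# Project BI (MP_8e98f2_gt): collected modules, part 26

The contents of the modules
* Helper34.BI.M_Shr
* Helper34.BI.M_CR
* Helper34.BI.ShB
* Helper34.BI.M_D1aP
* Helper34.BI.M_RC

in one file, so that the whole proof builds in a short time.
-/

/-! ## Helper34.BI.M_Shr -/

section

/-!
# Project BI (MP_8e98f2_gt), module SHR: the polynomial shear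
-/

set_option autoImplicit false

open Module Set Filter Topology
open scoped ContDiff Manifold ComplexConjugate
open Pool.Agent.Helper65.Barb Pool.Agent.Helper18.BI

namespace Pool.Agent.Helper34.BI

namespace Shr

/-- the exponent of the shear -/
noncomputable def gg (p : R4) : ℝ :=
  Complex.normSq p.2.2 * (rsq 1 p - 1 / 25) * (rsq 0 p - 1 / 25)

theorem shr_eq (c : ℝ) (p : R4) : shr c p = (p.1 + c * gg p, p.2) := by
  unfold shr gg
  ring_nf

theorem gg_snd (s s' : ℝ) (x : ℝ × ℂ) : gg (s, x) = gg (s', x) := rfl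

theorem shr_neg (c : ℝ) (p : R4) : shr (-c) (shr c p) = p := by
  obtain ⟨s, x⟩ := p
  rw [shr_eq, shr_eq]
  refine Prod.ext ?_ rfl
  show s + c * gg (s, x) + -c * gg (s + c * gg (s, x), x) = s
  rw [gg_snd (s + c * gg (s, x)) s x]
  ring

theorem shr_zero (p : R4) : shr 0 p = p := by
  rw [shr_eq]
  refine Prod.ext ?_ rfl
  show p.1 + 0 * gg p = p.1
  ring

theorem smooth_rsq (c : ℝ) : ContDiff ℝ ∞ (rsq c) := by
  have h1 : ContDiff ℝ ∞ (fun p : R4 => p.2.1) := contDiff_fst.comp contDiff_snd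
  have h2 : ContDiff ℝ ∞ (fun p : R4 => p.2.2.re) :=
    Complex.reCLM.contDiff.comp (contDiff_snd.comp contDiff_snd)
  have h3 : ContDiff ℝ ∞ (fun p : R4 => p.2.2.im) :=
    Complex.imCLM.contDiff.comp (contDiff_snd.comp contDiff_snd)
  have : rsq c = fun p : R4 => (p.2.1 - c) ^ 2 + p.2.2.re ^ 2 + p.2.2.im ^ 2 := rfl
  rw [this]
  exact (((h1.sub contDiff_const).pow 2).add (h2.pow 2)).add (h3.pow 2)

theorem smooth_nsq : ContDiff ℝ ∞ (fun p : R4 => Complex.normSq p.2.2) := by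
  have h2 : ContDiff ℝ ∞ (fun p : R4 => p.2.2.re) :=
    Complex.reCLM.contDiff.comp (contDiff_snd.comp contDiff_snd)
  have h3 : ContDiff ℝ ∞ (fun p : R4 => p.2.2.im) :=
    Complex.imCLM.contDiff.comp (contDiff_snd.comp contDiff_snd)
  have : (fun p : R4 => Complex.normSq p.2.2) =
      fun p : R4 => p.2.2.re * p.2.2.re + p.2.2.im * p.2.2.im :=
    funext fun p => Complex.normSq_apply _
  rw [this]
  exact (h2.mul h2).add (h3.mul h3)

theorem smooth_gg : ContDiff ℝ ∞ gg := by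
  unfold gg
  exact (smooth_nsq.mul ((smooth_rsq 1).sub contDiff_const)).mul
    ((smooth_rsq 0).sub contDiff_const)

theorem smooth_shr2 : ContDiff ℝ ∞ (fun q : ℝ × R4 => shr q.1 q.2) := by
  have : (fun q : ℝ × R4 => shr q.1 q.2) = fun q => (q.2.1 + q.1 * gg q.2, q.2.2) :=
    funext fun q => shr_eq _ _
  rw [this]
  exact ((contDiff_fst.comp contDiff_snd).add (contDiff_fst.mul (smooth_gg.comp
    contDiff_snd))).prodMk (contDiff_snd.comp contDiff_snd)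

theorem smooth_shr (c : ℝ) : ContDiff ℝ ∞ (shr c) :=
  smooth_shr2.comp (contDiff_const.prodMk contDiff_id)

theorem gg_line (s u : ℝ) : gg (s, u, 0) = 0 := by
  unfold gg
  simp

theorem gg_SP {p : R4} (hp : p ∈ SP) : gg p = 0 := by
  unfold gg
  rcases hp with (hp | hp) | hp
  · rw [show rsq 0 p = 1 / 25 from hp.2]; ring
  · rw [show rsq 1 p = 1 / 25 from hp.2]; ring
  · rw [show p.2.2 = 0 from hp.2.2.2]; simp

theorem fix (c : ℝ) {p : R4} (hp : p ∈ SP) : shr c p = p := by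
  rw [shr_eq, gg_SP hp]
  refine Prod.ext ?_ rfl
  show p.1 + c * 0 = p.1
  ring

theorem fix_line (c s u : ℝ) : shr c (s, u, 0) = (s, u, 0) := by
  rw [shr_eq, gg_line]
  refine Prod.ext ?_ rfl
  show s + c * 0 = s
  ring

/-- composition of a local diffeomorphism with the shear -/
theorem loc_comp {F : R4 → R4} {p : R4} (c : ℝ)
    (hF : IsLocalDiffeomorphAt 𝓘(ℝ, R4) 𝓘(ℝ, R4) ∞ F (shr c p)) :
    IsLocalDiffeomorphAt 𝓘(ℝ, R4) 𝓘(ℝ, R4) ∞ (fun p => F (shr c p)) p := by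
  have h1 := eventually_contDiffAt hF
  have h2 := injective_fderiv hF
  have hc : ContinuousAt (shr c) p := (smooth_shr c).continuous.continuousAt
  refine isLocalDiffeomorphAt_of_injective rfl ?_ ?_
  · filter_upwards [hc.eventually h1] with q hq
    exact hq.comp q (smooth_shr c).contDiffAt
  · have d1 : HasFDerivAt F (fderiv ℝ F (shr c p)) (shr c p) :=
      (h1.self_of_nhds.differentiableAt (by simp)).hasFDerivAt
    have d2 : HasFDerivAt (shr c) (fderiv ℝ (shr c) p) p :=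
      ((smooth_shr c).contDiffAt.differentiableAt (by simp)).hasFDerivAt
    have d3 : HasFDerivAt (shr (-c)) (fderiv ℝ (shr (-c)) (shr c p)) (shr c p) :=
      ((smooth_shr (-c)).contDiffAt.differentiableAt (by simp)).hasFDerivAt
    have e1 : fderiv ℝ (fun p => F (shr c p)) p =
        (fderiv ℝ F (shr c p)).comp (fderiv ℝ (shr c) p) := (d1.comp p d2).fderiv
    have e2 : HasFDerivAt (fun p : R4 => p)
        ((fderiv ℝ (shr (-c)) (shr c p)).comp (fderiv ℝ (shr c) p)) p := by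
      have := d3.comp p d2
      refine this.congr_of_eventuallyEq (Eventually.of_forall fun q => ?_)
      exact (shr_neg c q).symm
    have e3 := e2.unique (hasFDerivAt_id p)
    intro v w hvw
    rw [e1] at hvw
    have h4 : fderiv ℝ (shr c) p v = fderiv ℝ (shr c) p w := h2 hvw
    have h5 := congrArg (fderiv ℝ (shr (-c)) (shr c p)) h4
    have e4 : ∀ z, (fderiv ℝ (shr (-c)) (shr c p)) (fderiv ℝ (shr c) p z) = z := fun z =>
      congrArg (fun A : R4 →L[ℝ] R4 => A z) e3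
    rw [e4, e4] at h5
    exact h5

/-- the family -/
theorem fam {F : R4 → R4} {τ : ℝ → ℝ} (hF : EmbOn 𝓘(ℝ, R4) F SP) (hτ : ContDiff ℝ ∞ τ) :
    FamOn 𝓘(ℝ, R4) (fun q : ℝ × R4 => F (shr (τ q.1) q.2)) SP := by
  have hJ : ContDiff ℝ ∞ (fun q : ℝ × R4 => shr (τ q.1) q.2) :=
    smooth_shr2.comp ((hτ.comp contDiff_fst).prodMk contDiff_snd)
  refine ⟨⟨(fun q : ℝ × R4 => shr (τ q.1) q.2) ⁻¹' {p | ∀ᶠ q in 𝓝 p, ContDiffAt ℝ ∞ F q},
    (isOpen_setOfPred_eventually_nhds).preimage hJ.continuous, ?_, ?_⟩, ?_⟩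
  · rintro ⟨t, p⟩ ⟨-, hp⟩
    show ∀ᶠ q in 𝓝 (shr (τ t) p), ContDiffAt ℝ ∞ F q
    rw [fix _ hp]
    exact eventually_contDiffAt (hF.1 p hp)
  · rw [contMDiffOn_iff_contDiffOn]
    intro q hq
    have hq' : ∀ᶠ q' in 𝓝 (shr (τ q.1) q.2), ContDiffAt ℝ ∞ F q' := hq
    exact (hq'.self_of_nhds.comp q hJ.contDiffAt).contDiffWithinAt
  · intro t _
    refine ⟨fun p hp => ?_, ?_⟩
    · have h := hF.1 p hp
      rw [← fix (τ t) hp] at h
      exact loc_comp (τ t) h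
    · intro p hp q hq hpq
      have h1 : F (shr (τ t) p) = F (shr (τ t) q) := hpq
      rw [fix _ hp, fix _ hq] at h1
      exact hF.2 hp hq h1

/-- the derivative of the shear at a point of the first core sphere -/
theorem deriv_shr (c : ℝ) {p : R4} (hp : rsq 0 p = 1 / 25) (v : R4) :
    fderiv ℝ (shr c) p v = (v.1 + c * (2 * Complex.normSq p.2.2 * (rsq 1 p - 1 / 25) *
      drsq 0 p v), v.2) := by
  let A : R4 →L[ℝ] ℝ := (ContinuousLinearMap.fst ℝ ℝ ℂ).comp (ContinuousLinearMap.snd ℝ ℝ (ℝ × ℂ))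
  let R : R4 →L[ℝ] ℝ := Complex.reCLM.comp
    ((ContinuousLinearMap.snd ℝ ℝ ℂ).comp (ContinuousLinearMap.snd ℝ ℝ (ℝ × ℂ)))
  let M : R4 →L[ℝ] ℝ := Complex.imCLM.comp
    ((ContinuousLinearMap.snd ℝ ℝ ℂ).comp (ContinuousLinearMap.snd ℝ ℝ (ℝ × ℂ)))
  have hA : ∀ q : R4, A q = q.2.1 := fun q => rfl
  have hR : ∀ q : R4, R q = q.2.2.re := fun q => rfl
  have hM : ∀ q : R4, M q = q.2.2.im := fun q => rfl
  have h0 : HasFDerivAt (fun q : R4 => rsq 0 q - 1 / 25)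
      ((2 * p.2.1) • A + (2 * p.2.2.re) • R + (2 * p.2.2.im) • M) p := by
    have e : (fun q : R4 => rsq 0 q - 1 / 25) =
        fun q => (A q * A q + R q * R q + M q * M q) - 1 / 25 := by
      funext q
      rw [hA, hR, hM]
      show (q.2.1 - 0) ^ 2 + q.2.2.re ^ 2 + q.2.2.im ^ 2 - 1 / 25 = _
      ring
    rw [e]
    have := (((A.hasFDerivAt (x := p)).mul (A.hasFDerivAt (x := p))).add
      ((R.hasFDerivAt (x := p)).mul (R.hasFDerivAt (x := p)))).add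
      ((M.hasFDerivAt (x := p)).mul (M.hasFDerivAt (x := p)))
    refine (this.sub_const (1 / 25)).congr_fderiv ?_
    rw [← hA p, ← hR p, ← hM p]
    module
  have h1 : HasFDerivAt (fun q : R4 => Complex.normSq q.2.2 * (rsq 1 q - 1 / 25))
      (fderiv ℝ (fun q : R4 => Complex.normSq q.2.2 * (rsq 1 q - 1 / 25)) p) p :=
    ((smooth_nsq.mul ((smooth_rsq 1).sub contDiff_const)).contDiffAt.differentiableAt
      (by simp)).hasFDerivAt
  have h2 := h1.mul h0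
  have h3 : HasFDerivAt gg ((Complex.normSq p.2.2 * (rsq 1 p - 1 / 25)) •
      ((2 * p.2.1) • A + (2 * p.2.2.re) • R + (2 * p.2.2.im) • M)) p := by
    have h2' : HasFDerivAt gg _ p := h2
    refine h2'.congr_fderiv ?_
    rw [hp, sub_self, zero_smul, add_zero]
  have h4 : HasFDerivAt (shr c) (((ContinuousLinearMap.fst ℝ ℝ (ℝ × ℂ)) +
      c • ((Complex.normSq p.2.2 * (rsq 1 p - 1 / 25)) •
      ((2 * p.2.1) • A + (2 * p.2.2.re) • R + (2 * p.2.2.im) • M))).prod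
      (ContinuousLinearMap.snd ℝ ℝ (ℝ × ℂ))) p := by
    have e : shr c = fun q : R4 => (q.1 + c * gg q, q.2) := funext fun q => shr_eq c q
    rw [e]
    exact (hasFDerivAt_fst.add (h3.const_mul c)).prodMk hasFDerivAt_snd
  rw [h4.fderiv]
  refine Prod.ext ?_ rfl
  show v.1 + c * ((Complex.normSq p.2.2 * (rsq 1 p - 1 / 25)) *
      ((2 * p.2.1) * A v + (2 * p.2.2.re) * R v + (2 * p.2.2.im) * M v)) =
    v.1 + c * (2 * Complex.normSq p.2.2 * (rsq 1 p - 1 / 25) * drsq 0 p v)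
  rw [hA, hR, hM]
  unfold drsq
  ring

end Shr

open Shr in
theorem m_Shr (t2 : StT2) : StShr := by
  refine ⟨fun F c hF => ⟨⟨fun p hp => ?_, fun p hp q hq hpq => ?_⟩, fun φ => ⟨fun h => ?_,
    fun h => ?_⟩⟩, fun c p hp => fix c hp, ?_⟩
  · have h := hF.1 p hp
    rw [← fix c hp] at h
    exact loc_comp c h
  · have h1 : F (shr c p) = F (shr c q) := hpq
    rw [fix _ hp, fix _ hq] at h1
    exact hF.2 hp hq h1
  · -- from `F ∘ shr c` to `F`
    have h1 := (t2 R4 R4 𝓘(ℝ, R4) R4).2.2.1 _ φ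
      (Shr.fam (τ := fun t => (1 - t) * c) hF ((contDiff_const.sub contDiff_id).mul contDiff_const))
    have e0 : (fun p : R4 => F (shr ((1 - (0 : ℝ)) * c) p)) = fun p => F (shr c p) := by
      rw [sub_zero, one_mul]
    have e1 : (fun p : R4 => F (shr ((1 - (1 : ℝ)) * c) p)) = F := by
      funext p
      rw [sub_self, zero_mul, shr_zero]
    have h2 : Thin 𝓘(ℝ, R4) (fun p : R4 => F (shr ((1 - (0 : ℝ)) * c) p)) φ →
      Thin 𝓘(ℝ, R4) (fun p : R4 => F (shr ((1 - (1 : ℝ)) * c) p)) φ := h1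
    rw [e0, e1] at h2
    exact h2 h
  · have h1 := (t2 R4 R4 𝓘(ℝ, R4) R4).2.2.1 _ φ
      (Shr.fam (τ := fun t => t * c) hF (contDiff_id.mul contDiff_const))
    have e0 : (fun p : R4 => F (shr ((0 : ℝ) * c) p)) = F := by
      funext p
      rw [zero_mul, shr_zero]
    have e1 : (fun p : R4 => F (shr ((1 : ℝ) * c) p)) = fun p => F (shr c p) := by
      rw [one_mul]
    have h2 : Thin 𝓘(ℝ, R4) (fun p : R4 => F (shr ((0 : ℝ) * c) p)) φ →
      Thin 𝓘(ℝ, R4) (fun p : R4 => F (shr ((1 : ℝ) * c) p)) φ := h1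
    rw [e0, e1] at h2
    exact h2 h
  · intro J t₀ u₀ p₀ hJ
    have hp₀ : p₀ ∈ SP := Or.inl (Or.inl hJ.mem)
    have hq₀ : ((1 / 2, u₀, 0) : R4) ∈ SP :=
      Or.inr ⟨rfl, hJ.arc.1.le, hJ.arc.2.le, rfl⟩
    have hrs : rsq 0 p₀ = 1 / 25 := hJ.mem.2
    have hlocp := hJ.loc p₀ hp₀
    -- the strand does not change
    have hstr : ∀ c : ℝ, (fun x : ℝ × ℝ => J (x.1, shr c (1 / 2, x.2, 0))) =
        fun x : ℝ × ℝ => J (x.1, (1 / 2, x.2, 0)) := fun c => by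
      funext x
      rw [fix_line]
    -- the derivative of the sheared germ
    have hder : ∀ (c : ℝ) (v : R4), fderiv ℝ (fun p => J (t₀, shr c p)) p₀ v =
        fderiv ℝ (fun p => J (t₀, p)) p₀ (v.1 + c * (2 * Complex.normSq p₀.2.2 *
          (rsq 1 p₀ - 1 / 25) * drsq 0 p₀ v), v.2) := by
      intro c v
      have d1 : HasFDerivAt (fun p => J (t₀, p)) (fderiv ℝ (fun p => J (t₀, p)) p₀)
          (shr c p₀) := by
        rw [fix c hp₀]
        exact ((eventually_contDiffAt hlocp).self_of_nhds.differentiableAt (by simp)).hasFDerivAt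
      have d2 : HasFDerivAt (shr c) (fderiv ℝ (shr c) p₀) p₀ :=
        ((smooth_shr c).contDiffAt.differentiableAt (by simp)).hasFDerivAt
      have d3 : fderiv ℝ (fun p => J (t₀, shr c p)) p₀ = _ := (d1.comp p₀ d2).fderiv
      rw [d3, ← deriv_shr c hrs v]
      rfl
    have hcont : ∀ c : ℝ, ∀ p ∈ SP, Tendsto (fun q : ℝ × R4 => (q.1, shr c q.2)) (𝓝 (t₀, p))
        (𝓝 (t₀, p)) := by
      intro c p hp
      have h1 : Continuous (fun q : ℝ × R4 => (q.1, shr c q.2)) :=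
        continuous_fst.prodMk ((smooth_shr c).continuous.comp continuous_snd)
      have h2 := h1.tendsto (t₀, p)
      rw [show ((t₀, p).1, shr c (t₀, p).2) = (t₀, p) from Prod.ext rfl (fix c hp)] at h2
      exact h2
    have hall : ∀ c : ℝ, PreCross (fun q => J (q.1, shr c q.2)) t₀ u₀ p₀ := by
      intro c
      refine ⟨?_, ?_, ?_, hJ.mem, hJ.re, hJ.arc, ?_, ?_, ?_⟩
      · intro p hp
        filter_upwards [(hcont c p hp).eventually (hJ.smooth p hp)] with q hq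
        have h1 : ContDiffAt ℝ ∞ (fun q : ℝ × R4 => (q.1, shr c q.2)) q :=
          (contDiff_fst.prodMk ((smooth_shr c).comp contDiff_snd)).contDiffAt
        exact ContDiffAt.comp q hq h1
      · intro p hp
        have h := hJ.loc p hp
        rw [← fix c hp] at h
        exact loc_comp (F := fun p => J (t₀, p)) c h
      · intro p hp
        have hp' : p ∈ SP := Or.inl hp
        filter_upwards [(hcont c p hp').eventually (hJ.frozen p hp)] with q hq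
        exact hq
      · show J (t₀, shr c p₀) = J (t₀, shr c (1 / 2, u₀, 0))
        rw [fix c hp₀, fix c hq₀]
        exact hJ.eq
      · intro p hp q hq hpq
        have h1 : J (t₀, shr c p) = J (t₀, shr c q) := hpq
        rw [fix c hp, fix c hq] at h1
        exact hJ.inj p hp q hq h1
      · intro ζ v h h1 h2
        have h3 : fderiv ℝ (fun x : ℝ × ℝ => J (x.1, shr c (1 / 2, x.2, 0))) (t₀, u₀) ζ =
          fderiv ℝ (fun p => J (t₀, shr c p)) p₀ v := h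
        rw [hstr c, hder c v, h2, mul_zero, mul_zero, add_zero] at h3
        exact hJ.trans ζ v h3 h1 h2
    -- the vector `ξ`
    obtain ⟨ξ, hξ⟩ : ∃ ξ : R4, fderiv ℝ (fun p => J (t₀, p)) p₀ ξ =
        fderiv ℝ (fun x : ℝ × ℝ => J (x.1, (1 / 2, x.2, 0))) (t₀, u₀) (0, 1) := by
      have hinj : Function.Injective (fderiv ℝ (fun p => J (t₀, p)) p₀ : R4 →ₗ[ℝ] R4) :=
        injective_fderiv hlocp
      exact (LinearMap.injective_iff_surjective.1 hinj) _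
    have hB : 0 < rsq 1 p₀ - 1 / 25 := by
      have h1 : (p₀.2.1 - 0) ^ 2 + p₀.2.2.re ^ 2 + p₀.2.2.im ^ 2 = 1 / 25 := hrs
      have h2 : rsq 1 p₀ = (p₀.2.1 - 1) ^ 2 + p₀.2.2.re ^ 2 + p₀.2.2.im ^ 2 := rfl
      have h3 : p₀.2.1 ≤ 1 / 5 := by nlinarith [sq_nonneg p₀.2.2.re, sq_nonneg p₀.2.2.im]
      rw [h2]
      nlinarith
    have hN : 0 < Complex.normSq p₀.2.2 := by
      rw [Complex.normSq_pos]
      intro h
      exact hJ.re (by rw [h]; rfl)
    by_cases hξ1 : ξ.1 = 0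
    · refine ⟨1, hall 1, ?_⟩
      have hξd : drsq 0 p₀ ξ ≠ 0 := by
        intro h
        have := hJ.trans (0, 1) ξ hξ.symm hξ1 h
        exact one_ne_zero (congrArg Prod.snd this)
      intro v hv hv1
      have h3 : fderiv ℝ (fun x : ℝ × ℝ => J (x.1, shr 1 (1 / 2, x.2, 0))) (t₀, u₀) (0, 1) =
          fderiv ℝ (fun p => J (t₀, shr 1 p)) p₀ v := hv
      rw [hstr 1, hder 1 v, ← hξ] at h3
      have h4 := injective_fderiv hlocp h3
      have h5 : ξ.1 = v.1 + 1 * (2 * Complex.normSq p₀.2.2 * (rsq 1 p₀ - 1 / 25) *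
          drsq 0 p₀ v) := congrArg Prod.fst h4
      have h6 : ξ.2 = v.2 := by rw [h4]
      have h7 : drsq 0 p₀ v = drsq 0 p₀ ξ := by
        unfold drsq
        rw [h6]
      rw [hξ1, hv1, h7, zero_add, one_mul] at h5
      have h8 : 2 * Complex.normSq p₀.2.2 * (rsq 1 p₀ - 1 / 25) ≠ 0 :=
        mul_ne_zero (mul_ne_zero two_ne_zero hN.ne') hB.ne'
      exact mul_ne_zero h8 hξd h5.symm
    · refine ⟨0, hall 0, ?_⟩
      intro v hv hv1
      have h3 : fderiv ℝ (fun x : ℝ × ℝ => J (x.1, shr 0 (1 / 2, x.2, 0))) (t₀, u₀) (0, 1) =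
          fderiv ℝ (fun p => J (t₀, shr 0 p)) p₀ v := hv
      rw [hstr 0, hder 0 v, ← hξ] at h3
      have h4 := injective_fderiv hlocp h3
      have h5 : ξ.1 = v.1 + 0 * (2 * Complex.normSq p₀.2.2 * (rsq 1 p₀ - 1 / 25) *
          drsq 0 p₀ v) := congrArg Prod.fst h4
      rw [zero_mul, add_zero] at h5
      exact hξ1 (h5.trans hv1)

end Pool.Agent.Helper34.BI


end

/-! ## Helper34.BI.M_CR -/

section

/-!
# Project BI, module CR: invariance modulo `N` at a crossing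
-/

set_option autoImplicit false

open Module Set Filter Topology
open scoped ContDiff Manifold ComplexConjugate
open Pool.Agent.Helper65.Barb Pool.Agent.Helper18.BI Pool.Agent.Helper27.BI

namespace Pool.Agent.Helper34.BI

theorem shr_shr_neg (c : ℝ) (p : R4) : shr c (shr (-c) p) = p := by
  simp only [shr, rsq]
  ext1
  · simp only
    ring
  · rfl

theorem SP_subset_SH {η : ℝ} (hη : 0 ≤ η) : SP ⊆ SH η := by
  intro p hp
  refine ⟨?_, ?_, ?_⟩
  · rcases hp with (hp | hp) | hp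
    · exact Or.inl (Or.inl ⟨hp.1, hp.2.le⟩)
    · exact Or.inl (Or.inr ⟨hp.1, hp.2.le⟩)
    · exact Or.inr hp
  · rcases hp with (hp | hp) | hp
    · rw [hp.2]; linarith
    · have h1 := rsq_nonneg_aux 0 p
      have h2 := le_sph_one hp
      nlinarith
    · have h1 := rsq_nonneg_aux 0 p
      have h2 := hp.2.1
      nlinarith
  · rcases hp with (hp | hp) | hp
    · have h1 := rsq_nonneg_aux 1 p
      have h2 := sph_zero_le hp
      nlinarith
    · rw [hp.2]; linarith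
    · have h1 := rsq_nonneg_aux 1 p
      have h2 := hp.2.2.1
      nlinarith

/-- the crossing point is not on the spine at times `≠ 0` -/
theorem X_notMem_SP {J : ℝ × R4 → R4} {X : ℝ → R4} {η : ℝ} (C : Cross J X η) {r : ℝ}
    (hr : r ∈ Icc (-η) η) (h0 : r ≠ 0) : X r ∉ SP := by
  have h1 := C.small
  rintro ((h | h) | h)
  · have h2 := C.lvl r hr
    rw [h.2] at h2
    exact h0 (by linarith)
  · have h2 := C.lvl r hr
    have h3 := rsq_nonneg_aux 0 (X r)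
    have h4 := le_sph_one h
    nlinarith [hr.2]
  · have h2 := C.re r hr
    rw [h.2.2.2] at h2
    exact h2 rfl

theorem m_CR (hShr : StShr) (hD1a : StD1a) (hD1b : StD1b) (hD2 : StD2) (hMRL : StMRL) : StCR := by
  intro J t₀ u₀ p₀ hP ε hε
  obtain ⟨hS1, -, hS3⟩ := hShr
  obtain ⟨c, hP', hsl⟩ := hS3 J t₀ u₀ p₀ hP
  obtain ⟨T, X, η₀, hη₀, hT1, hTm, hT0, hX1, hX0, hX2, huniq⟩ := hD1a _ t₀ u₀ p₀ hP' hsl
  obtain ⟨η, hη, hηη, C, hclose⟩ := hD1b _ t₀ u₀ p₀ hP' T X η₀ hη₀ hT1 hT0 hX1 hX0 hX2 huniq ε hε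
  obtain ⟨r, hr, hMR⟩ := hD2 _ X η C
  -- the germs at the times `T s`
  have key : ∀ s ∈ Icc (-η) η, s ≠ 0 → EmbOn 𝓘(ℝ, R4) (fun p => J (T s, p)) SP ∧
      ∀ φ, (Thin 𝓘(ℝ, R4) (fun p => J (T s, p)) φ ↔
        Thin 𝓘(ℝ, R4) (fun p => J (T s, shr c p)) φ) := by
    intro s hs h0
    have e1 : EmbOn 𝓘(ℝ, R4) (fun p => J (T s, shr c p)) SP := by
      refine ⟨fun p hp => C.loc s hs p (SP_subset_SH hη.le hp), ?_⟩
      have hsub : SP ⊆ SH η \ {X s} := by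
        intro p hp
        refine ⟨SP_subset_SH hη.le hp, ?_⟩
        rintro rfl
        exact X_notMem_SP C hs h0 hp
      exact (C.inj s hs).mono hsub
    obtain ⟨e2, e3⟩ := hS1 _ (-c) e1
    simp only [shr_shr_neg] at e2 e3
    exact ⟨e2, e3⟩
  have hr1 : r ∈ Icc (-η) η := ⟨by linarith [hr.1], hr.2⟩
  have hr2 : -r ∈ Icc (-η) η := ⟨by linarith [hr.2], by linarith [hr.1]⟩
  obtain ⟨k1, k2⟩ := key r hr1 hr.1.ne'
  obtain ⟨k3, k4⟩ := key (-r) hr2 (neg_ne_zero.2 hr.1.ne')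
  have hMR' : MR (fun p => J (T r, p)) (fun p => J (T (-r), p)) := by
    intro φ ψ h1 h2
    exact hMR φ ψ ((k2 φ).1 h1) ((k4 ψ).1 h2)
  have c1 := abs_lt.1 (hclose r hr1)
  have c2 := abs_lt.1 (hclose (-r) hr2)
  have i1 : r ∈ Ioo (-η₀) η₀ := ⟨by linarith [hr1.1], by linarith [hr1.2]⟩
  have i2 : -r ∈ Ioo (-η₀) η₀ := ⟨by linarith [hr1.2], by linarith [hr1.1]⟩
  have i0 : (0 : ℝ) ∈ Ioo (-η₀) η₀ := ⟨by linarith, hη₀⟩
  have l1 : (0 : ℝ) < r := hr.1
  have l2 : -r < 0 := by linarith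
  rcases hTm with hTm | hTm
  · have a1 := hTm i0 i1 l1
    have a2 := hTm i2 i0 l2
    rw [hT0] at a1 a2
    exact ⟨T (-r), ⟨by linarith [c2.1], a2⟩, T r, ⟨a1, by linarith [c1.2]⟩, k3, k1,
      hMRL.2.1 _ _ hMR'⟩
  · have a1 := hTm i0 i1 l1
    have a2 := hTm i2 i0 l2
    rw [hT0] at a1 a2
    exact ⟨T r, ⟨by linarith [c1.1], a1⟩, T (-r), ⟨a2, by linarith [c2.2]⟩, k1, k3, hMR'⟩

end Pool.Agent.Helper34.BI


end

/-! ## Helper34.BI.ShB -/

section

/-!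
# Project BI: a shear with small support (stage 2 version of module SHR, after helper63)
-/

set_option autoImplicit false

open Module Set Filter Topology
open scoped ContDiff Manifold ComplexConjugate
open Pool.Agent.Helper65.Barb Pool.Agent.Helper18.BI

namespace Pool.Agent.Helper34.BI

/-- the coefficient of the shear: a smooth function of the point of three-space, zero on the axis
and for `3/10 ≤ a` -/
structure BumpOK (β : R3 → ℝ) : Prop where
  smooth : ContDiff ℝ ∞ β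
  axis : ∀ᶠ ε in 𝓝[>] (0 : ℝ), ∀ x : R3, ‖x.2‖ ≤ ε → β x = 0
  far : ∀ x : R3, 3 / 10 ≤ x.1 → β x = 0

/-- the shear with coefficient `β` -/
noncomputable def shb (β : R3 → ℝ) (c : ℝ) (p : R4) : R4 :=
  (p.1 + c * (β p.2 * (rsq 0 p - 1 / 25)), p.2)

namespace ShB

open Shr (smooth_rsq)

variable {β : R3 → ℝ}

/-- the exponent of the shear -/
noncomputable def gg (β : R3 → ℝ) (p : R4) : ℝ := β p.2 * (rsq 0 p - 1 / 25)

theorem shr_eq (c : ℝ) (p : R4) : shb β c p = (p.1 + c * gg β p, p.2) := rfl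

theorem gg_snd (s s' : ℝ) (x : ℝ × ℂ) : gg β (s, x) = gg β (s', x) := rfl

theorem shr_neg (c : ℝ) (p : R4) : shb β (-c) (shb β c p) = p := by
  obtain ⟨s, x⟩ := p
  rw [shr_eq, shr_eq]
  refine Prod.ext ?_ rfl
  show s + c * gg β (s, x) + -c * gg β (s + c * gg β (s, x), x) = s
  rw [gg_snd (s + c * gg β (s, x)) s x]
  ring

theorem shr_zero (p : R4) : shb β 0 p = p := by
  rw [shr_eq]
  refine Prod.ext ?_ rfl
  show p.1 + 0 * gg β p = p.1
  ring

theorem smooth_gg (hβ : BumpOK β) : ContDiff ℝ ∞ (gg β) := by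
  unfold gg
  exact (hβ.smooth.comp contDiff_snd).mul ((smooth_rsq 0).sub contDiff_const)

theorem smooth_shr2 (hβ : BumpOK β) : ContDiff ℝ ∞ (fun q : ℝ × R4 => shb β q.1 q.2) := by
  have : (fun q : ℝ × R4 => shb β q.1 q.2) = fun q => (q.2.1 + q.1 * gg β q.2, q.2.2) :=
    funext fun q => shr_eq _ _
  rw [this]
  exact ((contDiff_fst.comp contDiff_snd).add (contDiff_fst.mul ((smooth_gg hβ).comp
    contDiff_snd))).prodMk (contDiff_snd.comp contDiff_snd)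

theorem smooth_shr (hβ : BumpOK β) (c : ℝ) : ContDiff ℝ ∞ (shb β c) :=
  (smooth_shr2 hβ).comp (contDiff_const.prodMk contDiff_id)

theorem axis_zero (hβ : BumpOK β) (u : ℝ) : β (u, 0) = 0 := by
  obtain ⟨ε, hε, h⟩ := (hβ.axis.and self_mem_nhdsWithin).exists
  exact hε (u, 0) (by simpa using (le_of_lt h))

theorem gg_line (hβ : BumpOK β) (s u : ℝ) : gg β (s, u, 0) = 0 := by
  unfold gg
  rw [show ((s, u, 0) : R4).2 = (u, 0) from rfl, axis_zero hβ, zero_mul]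

theorem gg_SP (hβ : BumpOK β) {p : R4} (hp : p ∈ SP) : gg β p = 0 := by
  unfold gg
  rcases hp with (hp | hp) | hp
  · rw [show rsq 0 p = 1 / 25 from hp.2]; ring
  · rw [hβ.far p.2 (by linarith [le_sph_one hp]), zero_mul]
  · rw [show p.2 = (p.2.1, 0) from Prod.ext rfl hp.2.2.2, axis_zero hβ, zero_mul]

theorem fix (hβ : BumpOK β) (c : ℝ) {p : R4} (hp : p ∈ SP) : shb β c p = p := by
  rw [shr_eq, gg_SP hβ hp]
  refine Prod.ext ?_ rfl
  show p.1 + c * 0 = p.1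
  ring

theorem fix_line (hβ : BumpOK β) (c s u : ℝ) : shb β c (s, u, 0) = (s, u, 0) := by
  rw [shr_eq, gg_line hβ]
  refine Prod.ext ?_ rfl
  show s + c * 0 = s
  ring

/-- composition of a local diffeomorphism with the shear -/
theorem loc_comp (hβ : BumpOK β) {F : R4 → R4} {p : R4} (c : ℝ)
    (hF : IsLocalDiffeomorphAt 𝓘(ℝ, R4) 𝓘(ℝ, R4) ∞ F (shb β c p)) :
    IsLocalDiffeomorphAt 𝓘(ℝ, R4) 𝓘(ℝ, R4) ∞ (fun p => F (shb β c p)) p := by
  have h1 := eventually_contDiffAt hF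
  have h2 := injective_fderiv hF
  have hc : ContinuousAt (shb β c) p := (smooth_shr hβ c).continuous.continuousAt
  refine isLocalDiffeomorphAt_of_injective rfl ?_ ?_
  · filter_upwards [hc.eventually h1] with q hq
    exact hq.comp q (smooth_shr hβ c).contDiffAt
  · have d1 : HasFDerivAt F (fderiv ℝ F (shb β c p)) (shb β c p) :=
      (h1.self_of_nhds.differentiableAt (by simp)).hasFDerivAt
    have d2 : HasFDerivAt (shb β c) (fderiv ℝ (shb β c) p) p :=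
      ((smooth_shr hβ c).contDiffAt.differentiableAt (by simp)).hasFDerivAt
    have d3 : HasFDerivAt (shb β (-c)) (fderiv ℝ (shb β (-c)) (shb β c p)) (shb β c p) :=
      ((smooth_shr hβ (-c)).contDiffAt.differentiableAt (by simp)).hasFDerivAt
    have e1 : fderiv ℝ (fun p => F (shb β c p)) p =
        (fderiv ℝ F (shb β c p)).comp (fderiv ℝ (shb β c) p) := (d1.comp p d2).fderiv
    have e2 : HasFDerivAt (fun p : R4 => p)
        ((fderiv ℝ (shb β (-c)) (shb β c p)).comp (fderiv ℝ (shb β c) p)) p := by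
      have := d3.comp p d2
      refine this.congr_of_eventuallyEq (Eventually.of_forall fun q => ?_)
      exact (shr_neg c q).symm
    have e3 := e2.unique (hasFDerivAt_id p)
    intro v w hvw
    rw [e1] at hvw
    have h4 : fderiv ℝ (shb β c) p v = fderiv ℝ (shb β c) p w := h2 hvw
    have h5 := congrArg (fderiv ℝ (shb β (-c)) (shb β c p)) h4
    have e4 : ∀ z, (fderiv ℝ (shb β (-c)) (shb β c p)) (fderiv ℝ (shb β c) p z) = z := fun z =>
      congrArg (fun A : R4 →L[ℝ] R4 => A z) e3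
    rw [e4, e4] at h5
    exact h5

/-- the family -/
theorem fam (hβ : BumpOK β) {F : R4 → R4} {τ : ℝ → ℝ} (hF : EmbOn 𝓘(ℝ, R4) F SP) (hτ : ContDiff ℝ ∞ τ) :
    FamOn 𝓘(ℝ, R4) (fun q : ℝ × R4 => F (shb β (τ q.1) q.2)) SP := by
  have hJ : ContDiff ℝ ∞ (fun q : ℝ × R4 => shb β (τ q.1) q.2) :=
    (smooth_shr2 hβ).comp ((hτ.comp contDiff_fst).prodMk contDiff_snd)
  refine ⟨⟨(fun q : ℝ × R4 => shb β (τ q.1) q.2) ⁻¹' {p | ∀ᶠ q in 𝓝 p, ContDiffAt ℝ ∞ F q},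
    (isOpen_setOfPred_eventually_nhds).preimage hJ.continuous, ?_, ?_⟩, ?_⟩
  · rintro ⟨t, p⟩ ⟨-, hp⟩
    show ∀ᶠ q in 𝓝 (shb β (τ t) p), ContDiffAt ℝ ∞ F q
    rw [fix hβ _ hp]
    exact eventually_contDiffAt (hF.1 p hp)
  · rw [contMDiffOn_iff_contDiffOn]
    intro q hq
    have hq' : ∀ᶠ q' in 𝓝 (shb β (τ q.1) q.2), ContDiffAt ℝ ∞ F q' := hq
    exact (hq'.self_of_nhds.comp q hJ.contDiffAt).contDiffWithinAt
  · intro t _
    refine ⟨fun p hp => ?_, ?_⟩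
    · have h := hF.1 p hp
      rw [← fix hβ (τ t) hp] at h
      exact loc_comp hβ (τ t) h
    · intro p hp q hq hpq
      have h1 : F (shb β (τ t) p) = F (shb β (τ t) q) := hpq
      rw [fix hβ _ hp, fix hβ _ hq] at h1
      exact hF.2 hp hq h1

/-- the derivative of the shear at a point of the first core sphere -/
theorem deriv_shr (hβ : BumpOK β) (c : ℝ) {p : R4} (hp : rsq 0 p = 1 / 25) (v : R4) :
    fderiv ℝ (shb β c) p v = (v.1 + c * (2 * β p.2 * drsq 0 p v), v.2) := by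
  let A : R4 →L[ℝ] ℝ := (ContinuousLinearMap.fst ℝ ℝ ℂ).comp (ContinuousLinearMap.snd ℝ ℝ (ℝ × ℂ))
  let R : R4 →L[ℝ] ℝ := Complex.reCLM.comp
    ((ContinuousLinearMap.snd ℝ ℝ ℂ).comp (ContinuousLinearMap.snd ℝ ℝ (ℝ × ℂ)))
  let M : R4 →L[ℝ] ℝ := Complex.imCLM.comp
    ((ContinuousLinearMap.snd ℝ ℝ ℂ).comp (ContinuousLinearMap.snd ℝ ℝ (ℝ × ℂ)))
  have hA : ∀ q : R4, A q = q.2.1 := fun q => rfl
  have hR : ∀ q : R4, R q = q.2.2.re := fun q => rfl
  have hM : ∀ q : R4, M q = q.2.2.im := fun q => rfl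
  have h0 : HasFDerivAt (fun q : R4 => rsq 0 q - 1 / 25)
      ((2 * p.2.1) • A + (2 * p.2.2.re) • R + (2 * p.2.2.im) • M) p := by
    have e : (fun q : R4 => rsq 0 q - 1 / 25) =
        fun q => (A q * A q + R q * R q + M q * M q) - 1 / 25 := by
      funext q
      rw [hA, hR, hM]
      show (q.2.1 - 0) ^ 2 + q.2.2.re ^ 2 + q.2.2.im ^ 2 - 1 / 25 = _
      ring
    rw [e]
    have := (((A.hasFDerivAt (x := p)).mul (A.hasFDerivAt (x := p))).add
      ((R.hasFDerivAt (x := p)).mul (R.hasFDerivAt (x := p)))).add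
      ((M.hasFDerivAt (x := p)).mul (M.hasFDerivAt (x := p)))
    refine (this.sub_const (1 / 25)).congr_fderiv ?_
    rw [← hA p, ← hR p, ← hM p]
    module
  have h1 : HasFDerivAt (fun q : R4 => β q.2) (fderiv ℝ (fun q : R4 => β q.2) p) p :=
    ((hβ.smooth.comp contDiff_snd).contDiffAt.differentiableAt (by simp)).hasFDerivAt
  have h2 := h1.mul h0
  have h3 : HasFDerivAt (gg β) ((β p.2) •
      ((2 * p.2.1) • A + (2 * p.2.2.re) • R + (2 * p.2.2.im) • M)) p := by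
    have h2' : HasFDerivAt (gg β) _ p := h2
    refine h2'.congr_fderiv ?_
    rw [hp, sub_self, zero_smul, add_zero]
  have h4 : HasFDerivAt (shb β c) (((ContinuousLinearMap.fst ℝ ℝ (ℝ × ℂ)) +
      c • ((β p.2) •
      ((2 * p.2.1) • A + (2 * p.2.2.re) • R + (2 * p.2.2.im) • M))).prod
      (ContinuousLinearMap.snd ℝ ℝ (ℝ × ℂ))) p := by
    have e : shb β c = fun q : R4 => (q.1 + c * gg β q, q.2) := funext fun q => shr_eq c q
    rw [e]
    exact (hasFDerivAt_fst.add (h3.const_mul c)).prodMk hasFDerivAt_snd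
  rw [h4.fderiv]
  refine Prod.ext ?_ rfl
  show v.1 + c * ((β p.2) *
      ((2 * p.2.1) * A v + (2 * p.2.2.re) * R v + (2 * p.2.2.im) * M v)) =
    v.1 + c * (2 * β p.2 * drsq 0 p v)
  rw [hA, hR, hM]
  unfold drsq
  ring

/-- the shear does not change the classes -/
theorem class_shb (t2 : StT2) (hβ : BumpOK β) (F : R4 → R4) (c : ℝ) (hF : EmbOn 𝓘(ℝ, R4) F SP) :
    EmbOn 𝓘(ℝ, R4) (fun p => F (shb β c p)) SP ∧
    ∀ φ, (Thin 𝓘(ℝ, R4) (fun p => F (shb β c p)) φ ↔ Thin 𝓘(ℝ, R4) F φ) := by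
  refine ⟨⟨fun p hp => ?_, fun p hp q hq hpq => ?_⟩, fun φ => ⟨fun h => ?_, fun h => ?_⟩⟩
  · have h := hF.1 p hp
    rw [← fix hβ c hp] at h
    exact loc_comp hβ c h
  · have h1 : F (shb β c p) = F (shb β c q) := hpq
    rw [fix hβ _ hp, fix hβ _ hq] at h1
    exact hF.2 hp hq h1
  · -- from `F ∘ shb β c` to `F`
    have h1 := (t2 R4 R4 𝓘(ℝ, R4) R4).2.2.1 _ φ
      (fam hβ (τ := fun t => (1 - t) * c) hF ((contDiff_const.sub contDiff_id).mul contDiff_const))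
    have e0 : (fun p : R4 => F (shb β ((1 - (0 : ℝ)) * c) p)) = fun p => F (shb β c p) := by
      rw [sub_zero, one_mul]
    have e1 : (fun p : R4 => F (shb β ((1 - (1 : ℝ)) * c) p)) = F := by
      funext p
      rw [sub_self, zero_mul, shr_zero]
    have h2 : Thin 𝓘(ℝ, R4) (fun p : R4 => F (shb β ((1 - (0 : ℝ)) * c) p)) φ →
      Thin 𝓘(ℝ, R4) (fun p : R4 => F (shb β ((1 - (1 : ℝ)) * c) p)) φ := h1
    rw [e0, e1] at h2
    exact h2 h
  · have h1 := (t2 R4 R4 𝓘(ℝ, R4) R4).2.2.1 _ φ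
      (fam hβ (τ := fun t => t * c) hF (contDiff_id.mul contDiff_const))
    have e0 : (fun p : R4 => F (shb β ((0 : ℝ) * c) p)) = F := by
      funext p
      rw [zero_mul, shr_zero]
    have e1 : (fun p : R4 => F (shb β ((1 : ℝ) * c) p)) = fun p => F (shb β c p) := by
      rw [one_mul]
    have h2 : Thin 𝓘(ℝ, R4) (fun p : R4 => F (shb β ((0 : ℝ) * c) p)) φ →
      Thin 𝓘(ℝ, R4) (fun p : R4 => F (shb β ((1 : ℝ) * c) p)) φ := h1
    rw [e0, e1] at h2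
    exact h2 h
/-- the bump function at the crossing point -/
theorem exists_bump {J : ℝ × R4 → R4} {t₀ u₀ : ℝ} {p₀ : R4} (hJ : PreCross J t₀ u₀ p₀) :
    ∃ β : R3 → ℝ, BumpOK β ∧ β p₀.2 = 1 := by
  have hw : 0 < ‖p₀.2.2‖ := by
    rw [norm_pos_iff]
    intro h
    exact hJ.re (by rw [h]; rfl)
  have ha : p₀.2.1 ≤ 1 / 5 := sph_zero_le hJ.mem
  set R : ℝ := min (‖p₀.2.2‖ / 2) (1 / 20) with hR
  have hR0 : 0 < R := lt_min (by positivity) (by norm_num)
  have hR1 : R ≤ ‖p₀.2.2‖ / 2 := min_le_left _ _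
  have hR2 : R ≤ 1 / 20 := min_le_right _ _
  let f : ContDiffBump (p₀.2 : R3) := ⟨R / 2, R, by positivity, by linarith⟩
  refine ⟨f, ⟨f.contDiff, ?_, ?_⟩, ?_⟩
  · have h1 : ∀ᶠ ε in 𝓝[>] (0 : ℝ), ε < ‖p₀.2.2‖ / 2 :=
      mem_nhdsWithin_of_mem_nhds (Iio_mem_nhds (by positivity))
    filter_upwards [h1] with ε hε x hx
    apply f.zero_of_le_dist
    show R ≤ dist x p₀.2
    have h2 : ‖x.2 - p₀.2.2‖ ≤ ‖x - p₀.2‖ := norm_snd_le (x - p₀.2)
    have h3 : ‖p₀.2.2‖ - ‖x.2‖ ≤ ‖x.2 - p₀.2.2‖ := by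
      have := norm_sub_norm_le p₀.2.2 x.2
      rw [norm_sub_rev] at this
      exact this
    rw [dist_eq_norm]
    linarith
  · intro x hx
    apply f.zero_of_le_dist
    show R ≤ dist x p₀.2
    have h2 : |x.1 - p₀.2.1| ≤ ‖x - p₀.2‖ := norm_fst_le (x - p₀.2)
    have h3 := le_abs_self (x.1 - p₀.2.1)
    rw [dist_eq_norm]
    linarith
  · apply f.one_of_mem_closedBall
    exact Metric.mem_closedBall_self (by positivity)

/-- the shear can be used to achieve `Slope` -/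
theorem slope_shb (J : ℝ × R4 → R4) (t₀ u₀ : ℝ) (p₀ : R4) (hJ : PreCross J t₀ u₀ p₀) :
    ∃ β : R3 → ℝ, BumpOK β ∧ ∃ c : ℝ, PreCross (fun q => J (q.1, shb β c q.2)) t₀ u₀ p₀ ∧
      Slope (fun q => J (q.1, shb β c q.2)) t₀ u₀ p₀ := by
  obtain ⟨β, hβ, hβ1⟩ := exists_bump hJ
  refine ⟨β, hβ, ?_⟩
  have hp₀ : p₀ ∈ SP := Or.inl (Or.inl hJ.mem)
  have hq₀ : ((1 / 2, u₀, 0) : R4) ∈ SP :=
    Or.inr ⟨rfl, hJ.arc.1.le, hJ.arc.2.le, rfl⟩
  have hrs : rsq 0 p₀ = 1 / 25 := hJ.mem.2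
  have hlocp := hJ.loc p₀ hp₀
  -- the strand does not change
  have hstr : ∀ c : ℝ, (fun x : ℝ × ℝ => J (x.1, shb β c (1 / 2, x.2, 0))) =
      fun x : ℝ × ℝ => J (x.1, (1 / 2, x.2, 0)) := fun c => by
    funext x
    rw [fix_line hβ]
  -- the derivative of the sheared germ
  have hder : ∀ (c : ℝ) (v : R4), fderiv ℝ (fun p => J (t₀, shb β c p)) p₀ v =
      fderiv ℝ (fun p => J (t₀, p)) p₀ (v.1 + c * (2 * β p₀.2 * drsq 0 p₀ v), v.2) := by
    intro c v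
    have d1 : HasFDerivAt (fun p => J (t₀, p)) (fderiv ℝ (fun p => J (t₀, p)) p₀)
        (shb β c p₀) := by
      rw [fix hβ c hp₀]
      exact ((eventually_contDiffAt hlocp).self_of_nhds.differentiableAt (by simp)).hasFDerivAt
    have d2 : HasFDerivAt (shb β c) (fderiv ℝ (shb β c) p₀) p₀ :=
      ((smooth_shr hβ c).contDiffAt.differentiableAt (by simp)).hasFDerivAt
    have d3 : fderiv ℝ (fun p => J (t₀, shb β c p)) p₀ = _ := (d1.comp p₀ d2).fderiv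
    rw [d3, ← deriv_shr hβ c hrs v]
    rfl
  have hcont : ∀ c : ℝ, ∀ p ∈ SP, Tendsto (fun q : ℝ × R4 => (q.1, shb β c q.2)) (𝓝 (t₀, p))
      (𝓝 (t₀, p)) := by
    intro c p hp
    have h1 : Continuous (fun q : ℝ × R4 => (q.1, shb β c q.2)) :=
      continuous_fst.prodMk ((smooth_shr hβ c).continuous.comp continuous_snd)
    have h2 := h1.tendsto (t₀, p)
    rw [show ((t₀, p).1, shb β c (t₀, p).2) = (t₀, p) from Prod.ext rfl (fix hβ c hp)] at h2
    exact h2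
  have hall : ∀ c : ℝ, PreCross (fun q => J (q.1, shb β c q.2)) t₀ u₀ p₀ := by
    intro c
    refine ⟨?_, ?_, ?_, hJ.mem, hJ.re, hJ.arc, ?_, ?_, ?_⟩
    · intro p hp
      filter_upwards [(hcont c p hp).eventually (hJ.smooth p hp)] with q hq
      have h1 : ContDiffAt ℝ ∞ (fun q : ℝ × R4 => (q.1, shb β c q.2)) q :=
        (contDiff_fst.prodMk ((smooth_shr hβ c).comp contDiff_snd)).contDiffAt
      exact ContDiffAt.comp q hq h1
    · intro p hp
      have h := hJ.loc p hp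
      rw [← fix hβ c hp] at h
      exact loc_comp hβ (F := fun p => J (t₀, p)) c h
    · intro p hp
      have hp' : p ∈ SP := Or.inl hp
      filter_upwards [(hcont c p hp').eventually (hJ.frozen p hp)] with q hq
      exact hq
    · show J (t₀, shb β c p₀) = J (t₀, shb β c (1 / 2, u₀, 0))
      rw [fix hβ c hp₀, fix hβ c hq₀]
      exact hJ.eq
    · intro p hp q hq hpq
      have h1 : J (t₀, shb β c p) = J (t₀, shb β c q) := hpq
      rw [fix hβ c hp, fix hβ c hq] at h1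
      exact hJ.inj p hp q hq h1
    · intro ζ v h h1 h2
      have h3 : fderiv ℝ (fun x : ℝ × ℝ => J (x.1, shb β c (1 / 2, x.2, 0))) (t₀, u₀) ζ =
        fderiv ℝ (fun p => J (t₀, shb β c p)) p₀ v := h
      rw [hstr c, hder c v, h2, mul_zero, mul_zero, add_zero] at h3
      exact hJ.trans ζ v h3 h1 h2
  -- the vector `ξ`
  obtain ⟨ξ, hξ⟩ : ∃ ξ : R4, fderiv ℝ (fun p => J (t₀, p)) p₀ ξ =
      fderiv ℝ (fun x : ℝ × ℝ => J (x.1, (1 / 2, x.2, 0))) (t₀, u₀) (0, 1) := by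
    have hinj : Function.Injective (fderiv ℝ (fun p => J (t₀, p)) p₀ : R4 →ₗ[ℝ] R4) :=
      injective_fderiv hlocp
    exact (LinearMap.injective_iff_surjective.1 hinj) _
  by_cases hξ1 : ξ.1 = 0
  · refine ⟨1, hall 1, ?_⟩
    have hξd : drsq 0 p₀ ξ ≠ 0 := by
      intro h
      have := hJ.trans (0, 1) ξ hξ.symm hξ1 h
      exact one_ne_zero (congrArg Prod.snd this)
    intro v hv hv1
    have h3 : fderiv ℝ (fun x : ℝ × ℝ => J (x.1, shb β 1 (1 / 2, x.2, 0))) (t₀, u₀) (0, 1) =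
        fderiv ℝ (fun p => J (t₀, shb β 1 p)) p₀ v := hv
    rw [hstr 1, hder 1 v, ← hξ] at h3
    have h4 := injective_fderiv hlocp h3
    have h5 : ξ.1 = v.1 + 1 * (2 * β p₀.2 *
        drsq 0 p₀ v) := congrArg Prod.fst h4
    have h6 : ξ.2 = v.2 := by rw [h4]
    have h7 : drsq 0 p₀ v = drsq 0 p₀ ξ := by
      unfold drsq
      rw [h6]
    rw [hξ1, hv1, h7, zero_add, one_mul] at h5
    have h8 : 2 * β p₀.2 ≠ 0 := by rw [hβ1]; norm_num
    exact mul_ne_zero h8 hξd h5.symm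
  · refine ⟨0, hall 0, ?_⟩
    intro v hv hv1
    have h3 : fderiv ℝ (fun x : ℝ × ℝ => J (x.1, shb β 0 (1 / 2, x.2, 0))) (t₀, u₀) (0, 1) =
        fderiv ℝ (fun p => J (t₀, shb β 0 p)) p₀ v := hv
    rw [hstr 0, hder 0 v, ← hξ] at h3
    have h4 := injective_fderiv hlocp h3
    have h5 : ξ.1 = v.1 + 0 * (2 * β p₀.2 *
        drsq 0 p₀ v) := congrArg Prod.fst h4
    rw [zero_mul, add_zero] at h5
    exact hξ1 (h5.trans hv1)

end ShB

end Pool.Agent.Helper34.BI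


end

/-! ## Helper34.BI.M_D1aP -/

section

/-!
# Project BI, module D1aP: local coordinates at a transverse crossing, with the strand parameter

This is module D1a (by helper58) with two more outputs: the parameter `U r` of the strand and the
slope.

Instead of `P` and `N` of the docstring of `StD1a` the inverse function theorem is applied once, to
`M (p, (t, u)) = (J (t₀, p) - J (t, (1/2, u, 0)), (p.1 - 1/2, rsq 0 p - 1/25))` on `R4 × (ℝ × ℝ)`.
-/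

set_option autoImplicit false

open Module Set Filter Topology
open scoped ContDiff Manifold ComplexConjugate
open Pool.Agent.Helper65.Barb Pool.Agent.Helper18.BI Pool.Agent.Helper27.BI

namespace Pool.Agent.Helper34.BI

/-- **D1aP.** As `StD1a`, with the parameter `U r` of the strand at the crossing point `X r` and
with the slope condition near the crossing. -/
def StD1aP : Prop :=
  ∀ (J : ℝ × R4 → R4) (t₀ u₀ : ℝ) (p₀ : R4), PreCross J t₀ u₀ p₀ → Slope J t₀ u₀ p₀ →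
    ∃ (T U : ℝ → ℝ) (X : ℝ → R4) (η₀ : ℝ), 0 < η₀ ∧ ContDiffOn ℝ ∞ T (Ioo (-η₀) η₀) ∧
      (StrictMonoOn T (Ioo (-η₀) η₀) ∨ StrictAntiOn T (Ioo (-η₀) η₀)) ∧ T 0 = t₀ ∧
      ContinuousAt X 0 ∧ X 0 = p₀ ∧ ContinuousAt U 0 ∧ U 0 = u₀ ∧
      (∀ r ∈ Ioo (-η₀) η₀, (X r).1 = 1 / 2 ∧ rsq 0 (X r) = 1 / 25 + r) ∧
      (∀ r ∈ Ioo (-η₀) η₀, J (t₀, X r) = J (T r, (1 / 2, U r, 0))) ∧
      (∀ᶠ r in 𝓝 (0 : ℝ), ∀ v : R4,
        fderiv ℝ (fun x : ℝ × ℝ => J (x.1, (1 / 2, x.2, 0))) (T r, U r) (0, 1) =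
          fderiv ℝ (fun p => J (t₀, p)) (X r) v → v.1 ≠ 0) ∧
      ∀ᶠ q : ℝ × R4 × R4 in 𝓝 ((0 : ℝ), p₀, ((1 / 2, u₀, 0) : R4)), q.2.1 ∈ FB → q.2.2 ∈ FB →
        J (T q.1, q.2.1) = J (T q.1, q.2.2) → q.2.1 = X q.1

/-- the slope condition is open -/
private theorem slope_D1aP {F : R4 → R4} {H : ℝ × ℝ → R4} {p₀ : R4} {x₀ : ℝ × ℝ}
    (hF : ContDiffAt ℝ ∞ F p₀) (hFi : Function.Injective (fderiv ℝ F p₀))
    (hH : ContDiffAt ℝ ∞ H x₀)
    (hS : ∀ v : R4, fderiv ℝ H x₀ (0, 1) = fderiv ℝ F p₀ v → v.1 ≠ 0) :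
    ∀ᶠ z : R4 × (ℝ × ℝ) in 𝓝 (p₀, x₀), ∀ v : R4,
      fderiv ℝ H z.2 (0, 1) = fderiv ℝ F z.1 v → v.1 ≠ 0 := by
  let e : R4 ≃L[ℝ] R4 := (LinearEquiv.ofInjectiveEndo (fderiv ℝ F p₀ : R4 →ₗ[ℝ] R4)
    hFi).toContinuousLinearEquiv
  have he : (e : R4 →L[ℝ] R4) = fderiv ℝ F p₀ := ContinuousLinearMap.ext fun q => rfl
  have c1 : ContinuousAt (fderiv ℝ F) p₀ := (hF.fderiv_right (m := ∞) (by simp)).continuousAt
  have c2 : ContinuousAt (fderiv ℝ H) x₀ := (hH.fderiv_right (m := ∞) (by simp)).continuousAt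
  -- the inverse of the derivative
  have c3 : ContinuousAt (fun z : R4 × (ℝ × ℝ) => ContinuousLinearMap.inverse (fderiv ℝ F z.1))
      (p₀, x₀) := by
    have h1 : ContinuousAt (ContinuousLinearMap.inverse : (R4 →L[ℝ] R4) → (R4 →L[ℝ] R4))
        (fderiv ℝ F p₀) := by
      rw [← he]
      exact (contDiffAt_map_inverse (n := 1) e).continuousAt
    exact ContinuousAt.comp (g := ContinuousLinearMap.inverse)
      (f := fun z : R4 × (ℝ × ℝ) => fderiv ℝ F z.1) (x := (p₀, x₀)) h1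
      (ContinuousAt.comp (g := fderiv ℝ F) (f := Prod.fst) (x := (p₀, x₀)) c1 continuousAt_fst)
  have c4 : ContinuousAt (fun z : R4 × (ℝ × ℝ) => fderiv ℝ H z.2 (0, 1)) (p₀, x₀) := by
    have : ContinuousAt (fun z : R4 × (ℝ × ℝ) => fderiv ℝ H z.2) (p₀, x₀) :=
      ContinuousAt.comp (g := fderiv ℝ H) (f := Prod.snd) (x := (p₀, x₀)) c2 continuousAt_snd
    exact this.clm_apply continuousAt_const
  have c5 : ContinuousAt (fun z : R4 × (ℝ × ℝ) =>
      (ContinuousLinearMap.inverse (fderiv ℝ F z.1) (fderiv ℝ H z.2 (0, 1))).1) (p₀, x₀) :=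
    continuousAt_fst.comp (c3.clm_apply c4)
  have h0 : (ContinuousLinearMap.inverse (fderiv ℝ F p₀) (fderiv ℝ H x₀ (0, 1))).1 ≠ 0 := by
    apply hS
    rw [← he, ContinuousLinearMap.inverse_equiv]
    exact (e.apply_symm_apply _).symm
  have hinv : ∀ᶠ z : R4 × (ℝ × ℝ) in 𝓝 (p₀, x₀),
      fderiv ℝ F z.1 ∈ range ((↑) : (R4 ≃L[ℝ] R4) → (R4 →L[ℝ] R4)) := by
    have hopen : IsOpen (range ((↑) : (R4 ≃L[ℝ] R4) → (R4 →L[ℝ] R4))) :=
      ContinuousLinearEquiv.isOpen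
    have hc : ContinuousAt (fun z : R4 × (ℝ × ℝ) => fderiv ℝ F z.1) (p₀, x₀) :=
      ContinuousAt.comp (g := fderiv ℝ F) (f := Prod.fst) (x := (p₀, x₀)) c1 continuousAt_fst
    exact hc.eventually (hopen.mem_nhds ⟨e, he⟩)
  filter_upwards [c5.eventually_ne h0, hinv] with z hz1 hz2 v hv
  obtain ⟨e', he'⟩ := hz2
  rw [hv, ← he', ContinuousLinearMap.inverse_equiv] at hz1
  have : (e'.symm : R4 →L[ℝ] R4) ((e' : R4 →L[ℝ] R4) v) = v := e'.symm_apply_apply v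
  rw [this] at hz1
  exact hz1

/-- derivative of the squared radius -/
private theorem hasFDerivAt_rsq_D1aP (p : R4) :
    ∃ L : R4 →L[ℝ] ℝ, HasFDerivAt (rsq 0) L p ∧ ∀ v, L v = 2 * drsq 0 p v := by
  have h0 : HasFDerivAt (fun p : R4 => p.2.1)
      ((ContinuousLinearMap.fst ℝ ℝ ℂ).comp (ContinuousLinearMap.snd ℝ ℝ (ℝ × ℂ))) p :=
    ((ContinuousLinearMap.fst ℝ ℝ ℂ).comp (ContinuousLinearMap.snd ℝ ℝ (ℝ × ℂ))).hasFDerivAt
  have h1 : HasFDerivAt (fun p : R4 => p.2.1 - 0)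
      ((ContinuousLinearMap.fst ℝ ℝ ℂ).comp (ContinuousLinearMap.snd ℝ ℝ (ℝ × ℂ))) p :=
    h0.sub_const (0 : ℝ)
  have h2 : HasFDerivAt (fun p : R4 => p.2.2.re)
      (Complex.reCLM.comp ((ContinuousLinearMap.snd ℝ ℝ ℂ).comp
        (ContinuousLinearMap.snd ℝ ℝ (ℝ × ℂ)))) p :=
    (Complex.reCLM.comp ((ContinuousLinearMap.snd ℝ ℝ ℂ).comp
        (ContinuousLinearMap.snd ℝ ℝ (ℝ × ℂ)))).hasFDerivAt
  have h3 : HasFDerivAt (fun p : R4 => p.2.2.im)
      (Complex.imCLM.comp ((ContinuousLinearMap.snd ℝ ℝ ℂ).comp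
        (ContinuousLinearMap.snd ℝ ℝ (ℝ × ℂ)))) p :=
    (Complex.imCLM.comp ((ContinuousLinearMap.snd ℝ ℝ ℂ).comp
        (ContinuousLinearMap.snd ℝ ℝ (ℝ × ℂ)))).hasFDerivAt
  refine ⟨_, ((h1.pow 2).add (h2.pow 2)).add (h3.pow 2), fun v => ?_⟩
  simp only [drsq, add_apply, smul_apply,
    ContinuousLinearMap.comp_apply, ContinuousLinearMap.coe_fst', ContinuousLinearMap.coe_snd',
    Complex.reCLM_apply, Complex.imCLM_apply, smul_eq_mul, nsmul_eq_mul]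
  norm_num
  ring

/-- the map to which the inverse function theorem is applied -/
private noncomputable def M_D1aP (J : ℝ × R4 → R4) (t₀ : ℝ) (z : R4 × (ℝ × ℝ)) : R4 × (ℝ × ℝ) :=
  (J (t₀, z.1) - J (z.2.1, (1 / 2, z.2.2, 0)), (z.1.1 - 1 / 2, rsq 0 z.1 - 1 / 25))

/-- points of `FB` on the open neck -/
private theorem mem_FB_arc_D1aP {q : R4} (hq : q ∈ FB) (h1 : 1 / 5 < q.2.1) (h2 : q.2.1 < 4 / 5) :
    q = (1 / 2, q.2.1, 0) := by
  rcases hq with (hq | hq) | hq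
  · exfalso
    have h := hq.2
    have h3 := sq_le_rsq q
    nlinarith
  · exfalso
    have h := hq.2
    have h3 := sq_le_rsq_one q
    nlinarith
  · exact Prod.ext hq.1 (Prod.ext rfl hq.2.2.2)

private theorem fst_of_mem_FB_D1aP {q : R4} (hq : q ∈ FB) : q.1 = 1 / 2 := by
  rcases hq with (hq | hq) | hq
  · exact hq.1
  · exact hq.1
  · exact hq.1

/-- a smooth function with nonzero derivative at `0` is strictly monotone near `0` -/
private theorem mono_D1aP {T : ℝ → ℝ} {O : Set ℝ} (hO : IsOpen O) (h0 : (0 : ℝ) ∈ O)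
    (hT : ContDiffOn ℝ ∞ T O) (hd : deriv T 0 ≠ 0) :
    ∃ η₀ : ℝ, 0 < η₀ ∧ Ioo (-η₀) η₀ ⊆ O ∧
      (StrictMonoOn T (Ioo (-η₀) η₀) ∨ StrictAntiOn T (Ioo (-η₀) η₀)) := by
  have hc : ContinuousAt (deriv T) 0 :=
    (hT.continuousOn_deriv_of_isOpen hO (by simp)).continuousAt (hO.mem_nhds h0)
  rcases lt_or_gt_of_ne hd with hneg | hpos
  · have h1 : ∀ᶠ r in 𝓝 (0 : ℝ), r ∈ O ∧ deriv T r < 0 :=
      Filter.Eventually.and (hO.mem_nhds h0) (hc.eventually_lt_const hneg)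
    obtain ⟨η₀, hη, hb⟩ := Metric.eventually_nhds_iff_ball.1 h1
    rw [Real.ball_eq_Ioo, zero_sub, zero_add] at hb
    refine ⟨η₀, hη, fun r hr => (hb r hr).1, Or.inr ?_⟩
    refine strictAntiOn_of_deriv_neg (convex_Ioo _ _)
      (hT.continuousOn.mono fun r hr => (hb r hr).1) fun r hr => ?_
    rw [interior_Ioo] at hr
    exact (hb r hr).2
  · have h1 : ∀ᶠ r in 𝓝 (0 : ℝ), r ∈ O ∧ 0 < deriv T r :=
      Filter.Eventually.and (hO.mem_nhds h0) (hc.eventually_const_lt hpos)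
    obtain ⟨η₀, hη, hb⟩ := Metric.eventually_nhds_iff_ball.1 h1
    rw [Real.ball_eq_Ioo, zero_sub, zero_add] at hb
    refine ⟨η₀, hη, fun r hr => (hb r hr).1, Or.inl ?_⟩
    refine strictMonoOn_of_deriv_pos (convex_Ioo _ _)
      (hT.continuousOn.mono fun r hr => (hb r hr).1) fun r hr => ?_
    rw [interior_Ioo] at hr
    exact (hb r hr).2

/-- the map `M_D1aP` is a local diffeomorphism at the crossing, and a formula for its derivative -/
private theorem loc_D1aP {J : ℝ × R4 → R4} {t₀ u₀ : ℝ} {p₀ : R4} (hP : PreCross J t₀ u₀ p₀) :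
    (∀ᶠ z in 𝓝 ((p₀, (t₀, u₀)) : R4 × (ℝ × ℝ)), ContDiffAt ℝ ∞ (M_D1aP J t₀) z) ∧
    (∀ w : R4 × (ℝ × ℝ), fderiv ℝ (M_D1aP J t₀) (p₀, (t₀, u₀)) w =
      (fderiv ℝ (fun p => J (t₀, p)) p₀ w.1 -
        fderiv ℝ (fun x : ℝ × ℝ => J (x.1, (1 / 2, x.2, 0))) (t₀, u₀) w.2,
        (w.1.1, 2 * drsq 0 p₀ w.1))) := by
  have hp₀ : p₀ ∈ SP := Or.inl (Or.inl hP.mem)
  have hq₀ : ((1 / 2, u₀, 0) : R4) ∈ SP := Or.inr ⟨rfl, hP.arc.1.le, hP.arc.2.le, rfl⟩
  have sF : ∀ᶠ p in 𝓝 p₀, ContDiffAt ℝ ∞ (fun p => J (t₀, p)) p :=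
    eventually_contDiffAt (hP.loc p₀ hp₀)
  have sH : ∀ᶠ x in 𝓝 (t₀, u₀), ContDiffAt ℝ ∞
      (fun x : ℝ × ℝ => J (x.1, (1 / 2, x.2, 0))) x := by
    have c : ContinuousAt (fun x : ℝ × ℝ => ((x.1, (1 / 2, x.2, 0)) : ℝ × R4)) (t₀, u₀) := by
      fun_prop
    have h : ∀ᶠ q in 𝓝 ((t₀, (1 / 2, u₀, 0)) : ℝ × R4), ContDiffAt ℝ ∞ J q :=
      hP.smooth _ hq₀
    filter_upwards [c.eventually h] with x hx
    have c2 : ContDiffAt ℝ ∞ (fun x : ℝ × ℝ => ((x.1, (1 / 2, x.2, 0)) : ℝ × R4)) x := by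
      fun_prop
    exact hx.comp x c2
  obtain ⟨L, hL, hLv⟩ := hasFDerivAt_rsq_D1aP p₀
  have dF := (sF.self_of_nhds.differentiableAt (by simp)).hasFDerivAt
  have dH := (sH.self_of_nhds.differentiableAt (by simp)).hasFDerivAt
  refine ⟨?_, fun w => ?_⟩
  · have c1 : ContinuousAt (fun z : R4 × (ℝ × ℝ) => z.1) (p₀, (t₀, u₀)) := continuousAt_fst
    have c2 : ContinuousAt (fun z : R4 × (ℝ × ℝ) => z.2) (p₀, (t₀, u₀)) := continuousAt_snd
    filter_upwards [c1.eventually sF, c2.eventually sH] with z h1 h2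
    have e1 : ContDiffAt ℝ ∞ (fun z : R4 × (ℝ × ℝ) => J (t₀, z.1)) z := h1.comp z contDiffAt_fst
    have e2 : ContDiffAt ℝ ∞ (fun z : R4 × (ℝ × ℝ) => J (z.2.1, (1 / 2, z.2.2, 0))) z :=
      h2.comp z contDiffAt_snd
    have e3 : ContDiffAt ℝ ∞ (fun z : R4 × (ℝ × ℝ) => z.1.1 - 1 / 2) z := by fun_prop
    have e4 : ContDiffAt ℝ ∞ (fun z : R4 × (ℝ × ℝ) => rsq 0 z.1 - 1 / 25) z :=
      ((contDiff_rsq 0).contDiffAt.comp z contDiffAt_fst).sub contDiffAt_const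
    exact (e1.sub e2).prodMk (e3.prodMk e4)
  · have dF' : HasFDerivAt (fun p => J (t₀, p)) (fderiv ℝ (fun p => J (t₀, p)) p₀)
        ((p₀, (t₀, u₀)) : R4 × (ℝ × ℝ)).1 := dF
    have d1 : HasFDerivAt (fun z : R4 × (ℝ × ℝ) => J (t₀, z.1))
        ((fderiv ℝ (fun p => J (t₀, p)) p₀).comp (ContinuousLinearMap.fst ℝ R4 (ℝ × ℝ)))
        (p₀, (t₀, u₀)) := dF'.comp ((p₀, (t₀, u₀)) : R4 × (ℝ × ℝ)) hasFDerivAt_fst
    have dH' : HasFDerivAt (fun x : ℝ × ℝ => J (x.1, (1 / 2, x.2, 0)))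
        (fderiv ℝ (fun x : ℝ × ℝ => J (x.1, (1 / 2, x.2, 0))) (t₀, u₀))
        ((p₀, (t₀, u₀)) : R4 × (ℝ × ℝ)).2 := dH
    have d2 : HasFDerivAt (fun z : R4 × (ℝ × ℝ) => J (z.2.1, (1 / 2, z.2.2, 0)))
        ((fderiv ℝ (fun x : ℝ × ℝ => J (x.1, (1 / 2, x.2, 0))) (t₀, u₀)).comp
          (ContinuousLinearMap.snd ℝ R4 (ℝ × ℝ)))
        (p₀, (t₀, u₀)) := dH'.comp ((p₀, (t₀, u₀)) : R4 × (ℝ × ℝ)) hasFDerivAt_snd
    have d3 : HasFDerivAt (fun z : R4 × (ℝ × ℝ) => z.1.1 - 1 / 2)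
        ((ContinuousLinearMap.fst ℝ ℝ (ℝ × ℂ)).comp (ContinuousLinearMap.fst ℝ R4 (ℝ × ℝ)))
        (p₀, (t₀, u₀)) := by
      have h : HasFDerivAt (fun z : R4 × (ℝ × ℝ) => z.1.1)
          ((ContinuousLinearMap.fst ℝ ℝ (ℝ × ℂ)).comp (ContinuousLinearMap.fst ℝ R4 (ℝ × ℝ)))
          (p₀, (t₀, u₀)) :=
        ((ContinuousLinearMap.fst ℝ ℝ (ℝ × ℂ)).comp
          (ContinuousLinearMap.fst ℝ R4 (ℝ × ℝ))).hasFDerivAt
      exact h.sub_const (1 / 2 : ℝ)
    have hL' : HasFDerivAt (rsq 0) L ((p₀, (t₀, u₀)) : R4 × (ℝ × ℝ)).1 := hL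
    have d4 : HasFDerivAt (fun z : R4 × (ℝ × ℝ) => rsq 0 z.1 - 1 / 25)
        (L.comp (ContinuousLinearMap.fst ℝ R4 (ℝ × ℝ)))
        (p₀, (t₀, u₀)) := by
      have h : HasFDerivAt (fun z : R4 × (ℝ × ℝ) => rsq 0 z.1)
          (L.comp (ContinuousLinearMap.fst ℝ R4 (ℝ × ℝ))) (p₀, (t₀, u₀)) :=
        hL'.comp ((p₀, (t₀, u₀)) : R4 × (ℝ × ℝ)) hasFDerivAt_fst
      exact h.sub_const (1 / 25 : ℝ)
    have dM := (d1.sub d2).prodMk (d3.prodMk d4)
    have e : fderiv ℝ (M_D1aP J t₀) (p₀, (t₀, u₀)) = _ := HasFDerivAt.fderiv dM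
    rw [e]
    refine Prod.ext rfl (Prod.ext rfl ?_)
    exact hLv w.1

theorem m_D1aP : StD1aP := by
  intro J t₀ u₀ p₀ hP hS
  have hp₀ : p₀ ∈ SP := Or.inl (Or.inl hP.mem)
  obtain ⟨sM, fM⟩ := loc_D1aP hP
  have hA : Function.Injective (fderiv ℝ (fun p => J (t₀, p)) p₀) :=
    injective_fderiv (hP.loc p₀ hp₀)
  have hinj : Function.Injective (fderiv ℝ (M_D1aP J t₀) (p₀, (t₀, u₀))) := by
    rw [injective_iff_map_eq_zero]
    intro w hw
    rw [fM] at hw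
    have e1 : fderiv ℝ (fun p => J (t₀, p)) p₀ w.1 =
        fderiv ℝ (fun x : ℝ × ℝ => J (x.1, (1 / 2, x.2, 0))) (t₀, u₀) w.2 :=
      sub_eq_zero.1 (congrArg Prod.fst hw)
    have e2 : w.1.1 = 0 := congrArg (fun z : R4 × (ℝ × ℝ) => z.2.1) hw
    have e3 : drsq 0 p₀ w.1 = 0 := by
      have h : 2 * drsq 0 p₀ w.1 = 0 := congrArg (fun z : R4 × (ℝ × ℝ) => z.2.2) hw
      linarith
    have e4 : w.2 = 0 := hP.trans w.2 w.1 e1.symm e2 e3
    have e6 : w.1 = 0 := by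
      apply hA
      rw [e1, e4, map_zero, map_zero]
    exact Prod.ext e6 e4
  obtain ⟨Ψ, hz, hΨ⟩ := isLocalDiffeomorphAt_of_injective rfl sM hinj
  have hgs : ContDiffOn ℝ ∞ Ψ.toPartialEquiv.symm Ψ.target :=
    contMDiffOn_iff_contDiffOn.1 Ψ.contMDiffOn_invFun
  let e : ℝ → R4 × (ℝ × ℝ) := fun r => (0, (0, r))
  have he : ContDiff ℝ ∞ e := contDiff_const.prodMk (contDiff_const.prodMk contDiff_id)
  have hM0 : M_D1aP J t₀ (p₀, (t₀, u₀)) = e 0 := by
    refine Prod.ext ?_ (Prod.ext ?_ ?_)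
    · change J (t₀, p₀) - J (t₀, (1 / 2, u₀, 0)) = 0
      rw [hP.eq, sub_self]
    · change p₀.1 - 1 / 2 = 0
      rw [hP.mem.1, sub_self]
    · change rsq 0 p₀ - 1 / 25 = 0
      rw [hP.mem.2, sub_self]
  have hΨ0 : Ψ (p₀, (t₀, u₀)) = e 0 := by rw [← hM0]; exact (hΨ hz).symm
  have hOo : IsOpen (e ⁻¹' Ψ.target) := Ψ.open_target.preimage he.continuous
  have h0O : (0 : ℝ) ∈ e ⁻¹' Ψ.target := by
    change e 0 ∈ Ψ.target
    rw [← hΨ0]
    exact Ψ.toPartialEquiv.map_source hz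
  let c : ℝ → R4 × (ℝ × ℝ) := fun r => Ψ.toPartialEquiv.symm (e r)
  have hc : ContDiffOn ℝ ∞ c (e ⁻¹' Ψ.target) := hgs.comp he.contDiffOn (fun r hr => hr)
  have hc0 : c 0 = (p₀, (t₀, u₀)) := by
    change Ψ.toPartialEquiv.symm (e 0) = _
    rw [← hΨ0]
    exact Ψ.toPartialEquiv.left_inv hz
  have hMc : ∀ r ∈ e ⁻¹' Ψ.target, M_D1aP J t₀ (c r) = e r := by
    intro r hr
    have h1 : c r ∈ Ψ.source := Ψ.toPartialEquiv.map_target hr
    rw [hΨ h1]
    exact Ψ.toPartialEquiv.right_inv hr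
  -- the derivative of the curve
  have dc : HasDerivAt c (deriv c 0) 0 :=
    ((hc.contDiffAt (hOo.mem_nhds h0O)).differentiableAt (by simp)).hasDerivAt
  have dM : HasFDerivAt (M_D1aP J t₀) (fderiv ℝ (M_D1aP J t₀) (p₀, (t₀, u₀))) (c 0) := by
    rw [hc0]
    exact (sM.self_of_nhds.differentiableAt (by simp)).hasFDerivAt
  have dMc : HasDerivAt (fun r => M_D1aP J t₀ (c r))
      (fderiv ℝ (M_D1aP J t₀) (p₀, (t₀, u₀)) (deriv c 0)) 0 := dM.comp_hasDerivAt 0 dc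
  have de : HasDerivAt e ((0 : R4), ((0 : ℝ), (1 : ℝ))) 0 :=
    (hasDerivAt_const _ _).prodMk ((hasDerivAt_const _ _).prodMk (hasDerivAt_id _))
  have heq : fderiv ℝ (M_D1aP J t₀) (p₀, (t₀, u₀)) (deriv c 0) = ((0 : R4), ((0 : ℝ), (1 : ℝ))) := by
    refine dMc.unique (de.congr_of_eventuallyEq ?_)
    filter_upwards [hOo.mem_nhds h0O] with r hr
    exact hMc r hr
  have dT : HasDerivAt (fun r => (c r).2.1) (deriv c 0).2.1 0 := by
    have h1 := (ContinuousLinearMap.snd ℝ R4 (ℝ × ℝ)).hasFDerivAt.comp_hasDerivAt 0 dc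
    exact (ContinuousLinearMap.fst ℝ ℝ ℝ).hasFDerivAt.comp_hasDerivAt 0 h1
  have hT : ContDiffOn ℝ ∞ (fun r => (c r).2.1) (e ⁻¹' Ψ.target) :=
    contDiff_fst.comp_contDiffOn (contDiff_snd.comp_contDiffOn hc)
  have hT0 : deriv (fun r => (c r).2.1) 0 ≠ 0 := by
    rw [dT.deriv]
    intro h0
    rw [fM] at heq
    generalize deriv c 0 = w at h0 heq
    have e1 : fderiv ℝ (fun p => J (t₀, p)) p₀ w.1 =
        fderiv ℝ (fun x : ℝ × ℝ => J (x.1, (1 / 2, x.2, 0))) (t₀, u₀) w.2 :=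
      sub_eq_zero.1 (congrArg Prod.fst heq)
    have e2 : w.1.1 = 0 := congrArg (fun z : R4 × (ℝ × ℝ) => z.2.1) heq
    have e3 : 2 * drsq 0 p₀ w.1 = 1 := congrArg (fun z : R4 × (ℝ × ℝ) => z.2.2) heq
    by_cases h2 : w.2.2 = 0
    · have e4 : w.2 = 0 := Prod.ext h0 h2
      have e5 : w.1 = 0 := by
        apply hA
        rw [e1, e4, map_zero, map_zero]
      rw [e5] at e3
      simp [drsq] at e3
    · have e4 : w.2 = w.2.2 • ((0 : ℝ), (1 : ℝ)) := by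
        refine Prod.ext ?_ ?_
        · simpa using h0
        · simp
      have e5 := hS (w.2.2⁻¹ • w.1) (by
        rw [map_smul, e1, e4, map_smul, smul_smul]
        simp [h2])
      apply e5
      change w.2.2⁻¹ * w.1.1 = 0
      rw [e2, mul_zero]
  obtain ⟨η₀, hη, hsub, hmono⟩ := mono_D1aP hOo h0O hT hT0
  have hcc : ContinuousAt c 0 := dc.continuousAt
  have hinjT : InjOn (fun r => (c r).2.1) (Ioo (-η₀) η₀) := by
    rcases hmono with h | h
    · exact h.injOn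
    · exact h.injOn
  refine ⟨fun r => (c r).2.1, fun r => (c r).2.2, fun r => (c r).1, η₀, hη, hT.mono hsub, hmono,
    ?_, ?_, ?_, ?_, ?_, ?_, ?_, ?_, ?_⟩
  · change (c 0).2.1 = t₀
    rw [hc0]
  · exact continuousAt_fst.comp hcc
  · change (c 0).1 = p₀
    rw [hc0]
  · exact continuousAt_snd.comp (continuousAt_snd.comp hcc)
  · change (c 0).2.2 = u₀
    rw [hc0]
  · intro r hr
    have h := hMc r (hsub hr)
    have h1 : (c r).1.1 - 1 / 2 = 0 := congrArg (fun z : R4 × (ℝ × ℝ) => z.2.1) h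
    have h2 : rsq 0 (c r).1 - 1 / 25 = r := congrArg (fun z : R4 × (ℝ × ℝ) => z.2.2) h
    exact ⟨by linarith, by linarith⟩
  · intro r hr
    have h := hMc r (hsub hr)
    have h1 : J (t₀, (c r).1) - J ((c r).2.1, (1 / 2, (c r).2.2, 0)) = 0 := congrArg Prod.fst h
    exact sub_eq_zero.1 h1
  · have hq₀ : ((1 / 2, u₀, 0) : R4) ∈ SP := Or.inr ⟨rfl, hP.arc.1.le, hP.arc.2.le, rfl⟩
    have sH : ContDiffAt ℝ ∞ (fun x : ℝ × ℝ => J (x.1, (1 / 2, x.2, 0))) (t₀, u₀) := by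
      have h : ∀ᶠ q in 𝓝 ((t₀, (1 / 2, u₀, 0)) : ℝ × R4), ContDiffAt ℝ ∞ J q :=
        hP.smooth _ hq₀
      have c2 : ContDiffAt ℝ ∞ (fun x : ℝ × ℝ => ((x.1, (1 / 2, x.2, 0)) : ℝ × R4)) (t₀, u₀) := by
        fun_prop
      exact ContDiffAt.comp (t₀, u₀) h.self_of_nhds c2
    have sF : ContDiffAt ℝ ∞ (fun p => J (t₀, p)) p₀ :=
      (eventually_contDiffAt (hP.loc p₀ hp₀)).self_of_nhds
    have h1 := slope_D1aP sF hA sH hS
    have hcc' : Tendsto c (𝓝 0) (𝓝 (p₀, (t₀, u₀))) := by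
      rw [← hc0]; exact hcc
    exact hcc'.eventually h1
  · have kT : ContinuousAt (fun r => (c r).2.1) (0 : ℝ) := dT.continuousAt
    have kr : Tendsto (fun q : ℝ × R4 × R4 => q.1) (𝓝 ((0 : ℝ), p₀, ((1 / 2, u₀, 0) : R4)))
        (𝓝 0) := continuousAt_fst
    have kp : Tendsto (fun q : ℝ × R4 × R4 => q.2.1) (𝓝 ((0 : ℝ), p₀, ((1 / 2, u₀, 0) : R4)))
        (𝓝 p₀) := continuousAt_fst.comp continuousAt_snd
    have ku : Tendsto (fun q : ℝ × R4 × R4 => q.2.2.2.1)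
        (𝓝 ((0 : ℝ), p₀, ((1 / 2, u₀, 0) : R4))) (𝓝 u₀) := by
      have : Continuous (fun q : ℝ × R4 × R4 => q.2.2.2.1) := by fun_prop
      exact this.tendsto' _ _ rfl
    have kT' : Tendsto (fun q : ℝ × R4 × R4 => (c q.1).2.1)
        (𝓝 ((0 : ℝ), p₀, ((1 / 2, u₀, 0) : R4))) (𝓝 t₀) := by
      have h : Tendsto (fun r => (c r).2.1) (𝓝 (0 : ℝ)) (𝓝 (c 0).2.1) := kT
      rw [hc0] at h
      exact h.comp kr
    have k1 : ∀ᶠ q : ℝ × R4 × R4 in 𝓝 ((0 : ℝ), p₀, ((1 / 2, u₀, 0) : R4)),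
        J ((c q.1).2.1, q.2.1) = J (t₀, q.2.1) :=
      (kT'.prodMk_nhds kp).eventually (hP.frozen p₀ (Or.inl hP.mem))
    have k2 : ∀ᶠ q : ℝ × R4 × R4 in 𝓝 ((0 : ℝ), p₀, ((1 / 2, u₀, 0) : R4)),
        ((q.2.1, ((c q.1).2.1, q.2.2.2.1)) : R4 × (ℝ × ℝ)) ∈ Ψ.source :=
      (kp.prodMk_nhds (kT'.prodMk_nhds ku)).eventually (Ψ.open_source.mem_nhds hz)
    have k3 : ∀ᶠ q : ℝ × R4 × R4 in 𝓝 ((0 : ℝ), p₀, ((1 / 2, u₀, 0) : R4)),
        q.2.2.2.1 ∈ Ioo (1 / 5 : ℝ) (4 / 5) := ku.eventually (isOpen_Ioo.mem_nhds hP.arc)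
    have k4 : ∀ᶠ q : ℝ × R4 × R4 in 𝓝 ((0 : ℝ), p₀, ((1 / 2, u₀, 0) : R4)),
        q.1 ∈ Ioo (-η₀) η₀ := kr.eventually (isOpen_Ioo.mem_nhds ⟨by linarith, hη⟩)
    have k5 : ∀ᶠ q : ℝ × R4 × R4 in 𝓝 ((0 : ℝ), p₀, ((1 / 2, u₀, 0) : R4)),
        rsq 0 q.2.1 - 1 / 25 ∈ Ioo (-η₀) η₀ := by
      have h : Tendsto (fun q : ℝ × R4 × R4 => rsq 0 q.2.1 - 1 / 25)
          (𝓝 ((0 : ℝ), p₀, ((1 / 2, u₀, 0) : R4))) (𝓝 (rsq 0 p₀ - 1 / 25)) :=
        (((contDiff_rsq 0).continuous.tendsto p₀).comp kp).sub_const _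
      refine h.eventually (isOpen_Ioo.mem_nhds ?_)
      rw [hP.mem.2, sub_self]
      exact ⟨by linarith, hη⟩
    filter_upwards [k1, k2, k3, k4, k5] with q h1 h2 h3 h4 h5 hF1 hF2 hJ
    have e1 : q.2.2 = (1 / 2, q.2.2.2.1, 0) := mem_FB_arc_D1aP hF2 h3.1 h3.2
    have e2 : M_D1aP J t₀ (q.2.1, ((c q.1).2.1, q.2.2.2.1)) = e (rsq 0 q.2.1 - 1 / 25) := by
      refine Prod.ext ?_ (Prod.ext ?_ rfl)
      · change J (t₀, q.2.1) - J ((c q.1).2.1, (1 / 2, q.2.2.2.1, 0)) = 0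
        rw [← e1, ← h1, sub_eq_zero]
        exact hJ
      · change q.2.1.1 - 1 / 2 = 0
        rw [fst_of_mem_FB_D1aP hF1, sub_self]
    have e3 : ((q.2.1, ((c q.1).2.1, q.2.2.2.1)) : R4 × (ℝ × ℝ)) = c (rsq 0 q.2.1 - 1 / 25) := by
      have h6 : Ψ (q.2.1, ((c q.1).2.1, q.2.2.2.1)) = e (rsq 0 q.2.1 - 1 / 25) := by
        rw [← e2]; exact (hΨ h2).symm
      change _ = Ψ.toPartialEquiv.symm (e (rsq 0 q.2.1 - 1 / 25))
      rw [← h6]
      exact (Ψ.toPartialEquiv.left_inv h2).symm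
    have e4 := congrArg (fun z : R4 × (ℝ × ℝ) => z.2.1) e3
    have e5 : q.1 = rsq 0 q.2.1 - 1 / 25 := hinjT h4 h5 e4
    have e6 : q.2.1 = (c (rsq 0 q.2.1 - 1 / 25)).1 := congrArg Prod.fst e3
    rw [← e5] at e6
    exact e6

end Pool.Agent.Helper34.BI


end

/-! ## Helper34.BI.M_RC -/

section

/-!
# Project BI, module RC: the contraction
-/

set_option autoImplicit false

open Module Set Filter Topology
open scoped ContDiff Manifold ComplexConjugate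
open Pool.Agent.Helper65.Barb Pool.Agent.Helper18.BI Pool.Agent.Helper27.BI

namespace Pool.Agent.Helper34.BI

private theorem nsq_eq_RC (x : ℝ × ℂ) : nsq x = x.1 ^ 2 + x.2.re ^ 2 + x.2.im ^ 2 := rfl

private theorem nsq_contDiff_RC : ContDiff ℝ ∞ (fun p : R4 => nsq p.2) := by
  have h1 : ContDiff ℝ ∞ (fun p : R4 => p.2.1) := contDiff_fst.comp contDiff_snd
  have h2 : ContDiff ℝ ∞ (fun p : R4 => p.2.2.re) :=
    Complex.reCLM.contDiff.comp (contDiff_snd.comp contDiff_snd)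
  have h3 : ContDiff ℝ ∞ (fun p : R4 => p.2.2.im) :=
    Complex.imCLM.contDiff.comp (contDiff_snd.comp contDiff_snd)
  exact ((h1.pow 2).add (h2.pow 2)).add (h3.pow 2)

private theorem cfac_contDiff_RC : ContDiff ℝ ∞ (fun q : ℝ × ℝ => cfac q.1 q.2) := by
  unfold cfac
  exact contDiff_fst.add ((contDiff_const.sub contDiff_fst).mul
    (contDiff_step.comp ((contDiff_snd.sub contDiff_const).div_const _)))

private theorem cl_contDiff_RC : ContDiff ℝ ∞ (fun q : ℝ × R4 => cl q.1 q.2) := by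
  have h1 : ContDiff ℝ ∞ (fun q : ℝ × R4 => cfac q.1 (nsq q.2.2)) :=
    cfac_contDiff_RC.comp (contDiff_fst.prodMk (nsq_contDiff_RC.comp contDiff_snd))
  exact (contDiff_fst.comp contDiff_snd).prodMk (h1.smul (contDiff_snd.comp contDiff_snd))

private theorem step_mem_RC (s : ℝ) : 0 ≤ step s ∧ step s ≤ 1 :=
  ⟨Real.smoothTransition.nonneg s, Real.smoothTransition.le_one s⟩

private theorem cfac_mono_RC {lam : ℝ} (h : lam ≤ 1) : Monotone (cfac lam) := by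
  intro a b hab
  unfold cfac
  have h1 : step ((a - 1 / 20) / (1 / 25)) ≤ step ((b - 1 / 20) / (1 / 25)) :=
    Real.smoothTransition.monotone (by
      apply div_le_div_of_nonneg_right _ (by norm_num)
      linarith)
  nlinarith

private theorem cfac_ge_RC {lam : ℝ} (h : lam ≤ 1) (q : ℝ) : lam ≤ cfac lam q := by
  unfold cfac
  have := (step_mem_RC ((q - 1 / 20) / (1 / 25))).1
  nlinarith

private theorem cfac_le_RC {lam : ℝ} (h : lam ≤ 1) (q : ℝ) : cfac lam q ≤ 1 := by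
  unfold cfac
  have := (step_mem_RC ((q - 1 / 20) / (1 / 25))).2
  nlinarith

private theorem nsq_smul_RC (l : ℝ) (x : ℝ × ℂ) : nsq (l • x) = l ^ 2 * nsq x := by
  rw [nsq_eq_RC, nsq_eq_RC]
  simp only [Prod.smul_fst, Prod.smul_snd, smul_eq_mul, Complex.real_smul, Complex.mul_re,
    Complex.mul_im, Complex.ofReal_re, Complex.ofReal_im]
  ring

private theorem nsq_nonneg_RC (x : ℝ × ℂ) : 0 ≤ nsq x := by
  rw [nsq_eq_RC]
  positivity

private theorem smono_RC {lam : ℝ} (h0 : 0 < lam) (h1 : lam ≤ 1) {a b : ℝ} (ha : 0 ≤ a)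
    (hab : a < b) : cfac lam a ^ 2 * a < cfac lam b ^ 2 * b := by
  have h2 := cfac_mono_RC h1 hab.le
  have h3 := cfac_ge_RC h1 a
  have h4 : cfac lam a ^ 2 ≤ cfac lam b ^ 2 := by nlinarith
  have h5 : 0 < cfac lam b ^ 2 := by
    have : 0 < cfac lam b := by linarith
    positivity
  nlinarith

private theorem inj_RC {lam : ℝ} (h0 : 0 < lam) (h1 : lam ≤ 1) : Function.Injective (cl lam) := by
  intro p p' h
  have e1 : (cl lam p).1 = (cl lam p').1 := congrArg Prod.fst h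
  have e2 : (cl lam p).2 = (cl lam p').2 := congrArg Prod.snd h
  change p.1 = p'.1 at e1
  change cfac lam (nsq p.2) • p.2 = cfac lam (nsq p'.2) • p'.2 at e2
  have e3 : nsq p.2 = nsq p'.2 := by
    have h2 := congrArg nsq e2
    rw [nsq_smul_RC, nsq_smul_RC] at h2
    rcases lt_trichotomy (nsq p.2) (nsq p'.2) with h3 | h3 | h3
    · exact absurd h2 (smono_RC h0 h1 (nsq_nonneg_RC _) h3).ne
    · exact h3
    · exact absurd h2 (smono_RC h0 h1 (nsq_nonneg_RC _) h3).ne'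
  rw [e3] at e2
  have h4 : cfac lam (nsq p'.2) ≠ 0 := by
    have := cfac_ge_RC h1 (nsq p'.2)
    intro h5
    linarith
  exact Prod.ext e1 (smul_right_injective _ h4 e2)

private theorem line_deriv_RC (x y : ℝ) : HasDerivAt (fun t : ℝ => x + t * y) y 0 := by
  have := ((hasDerivAt_id (0 : ℝ)).mul_const y).const_add x
  simpa using this

private theorem fderiv_RC {lam : ℝ} (h0 : 0 < lam) (h1 : lam ≤ 1) (p v : R4)
    (hv : fderiv ℝ (cl lam) p v = 0) : v = 0 := by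
  have hcd : ContDiff ℝ ∞ (cl lam) := cl_contDiff_RC.comp (contDiff_const.prodMk contDiff_id)
  have hfd : ContDiff ℝ ∞ (cfac lam) := cfac_contDiff_RC.comp (contDiff_const.prodMk contDiff_id)
  have hd : DifferentiableAt ℝ (cl lam) p := hcd.differentiable (by simp) p
  obtain ⟨s, a, w⟩ := p
  obtain ⟨σ, b, z⟩ := v
  have hline : HasDerivAt (fun t : ℝ => ((s, a, w) : R4) + t • ((σ, b, z) : R4)) (σ, b, z) 0 := by
    have := ((hasDerivAt_id (0 : ℝ)).smul_const ((σ, b, z) : R4)).const_add ((s, a, w) : R4)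
    simpa using this
  have hline0 : ((s, a, w) : R4) + (0 : ℝ) • ((σ, b, z) : R4) = (s, a, w) := by
    rw [zero_smul, add_zero]
  have hc : HasDerivAt (fun t : ℝ => cl lam ((s, a, w) + t • (σ, b, z))) 0 0 := by
    have h2 : HasFDerivAt (cl lam) (fderiv ℝ (cl lam) (s, a, w))
        (((s, a, w) : R4) + (0 : ℝ) • ((σ, b, z) : R4)) := by
      rw [hline0]
      exact hd.hasFDerivAt
    have h3 := h2.comp_hasDerivAt (0 : ℝ) hline
    rw [hv] at h3
    exact h3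
  -- the squared radius along the line
  set R : ℝ → ℝ := fun t => (a + t * b) ^ 2 + (w.re + t * z.re) ^ 2 + (w.im + t * z.im) ^ 2 with hR
  set D : ℝ := 2 * (a * b + w.re * z.re + w.im * z.im) with hD
  have hRd : HasDerivAt R D 0 := by
    have h3 := (((line_deriv_RC a b).pow 2).add ((line_deriv_RC w.re z.re).pow 2)).add
      ((line_deriv_RC w.im z.im).pow 2)
    refine h3.congr_deriv ?_
    simp only [zero_mul, add_zero, hD]
    ring
  set L : ℝ := deriv (cfac lam) (R 0) with hL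
  have hLd : HasDerivAt (cfac lam) L (R 0) := (hfd.differentiable (by simp) _).hasDerivAt
  have hL0 : 0 ≤ L := (cfac_mono_RC h1).deriv_nonneg
  set f : ℝ → ℝ := fun t => cfac lam (R t) with hf
  have hfd' : HasDerivAt f (L * D) 0 := hLd.comp (0 : ℝ) hRd
  have hf0 : 0 < f 0 := lt_of_lt_of_le h0 (cfac_ge_RC h1 _)
  have e1 : ∀ t : ℝ, cl lam ((s, a, w) + t • (σ, b, z)) =
      (s + t * σ, f t * (a + t * b), ((f t : ℝ) : ℂ) * (w + t * z)) := by
    intro t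
    have h2 : nsq (((s, a, w) : R4) + t • ((σ, b, z) : R4)).2 = R t := by
      rw [nsq_eq_RC]
      simp [hR]
    unfold cl
    rw [h2]
    refine Prod.ext ?_ (Prod.ext ?_ ?_)
    · simp
    · simp [hf]
    · simp [hf]
      ring
  simp only [e1] at hc
  have hσ : σ = 0 := by
    have h2 := (ContinuousLinearMap.fst ℝ ℝ (ℝ × ℂ)).hasFDerivAt.comp_hasDerivAt (0 : ℝ) hc
    have h5 := (line_deriv_RC s σ).unique h2
    simpa using h5
  have hb : L * D * a + f 0 * b = 0 := by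
    have h2 := ((ContinuousLinearMap.fst ℝ ℝ ℂ).comp
      (ContinuousLinearMap.snd ℝ ℝ (ℝ × ℂ))).hasFDerivAt.comp_hasDerivAt (0 : ℝ) hc
    have h3 := hfd'.mul (line_deriv_RC a b)
    have h4 := h3.unique h2
    simpa using h4
  have hre : L * D * w.re + f 0 * z.re = 0 := by
    have h2 := (Complex.reCLM.comp ((ContinuousLinearMap.snd ℝ ℝ ℂ).comp
      (ContinuousLinearMap.snd ℝ ℝ (ℝ × ℂ)))).hasFDerivAt.comp_hasDerivAt (0 : ℝ) hc
    have h3 := hfd'.mul (line_deriv_RC w.re z.re)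
    have e2 : ((Complex.reCLM.comp ((ContinuousLinearMap.snd ℝ ℝ ℂ).comp
        (ContinuousLinearMap.snd ℝ ℝ (ℝ × ℂ)))) ∘ fun t : ℝ =>
        ((s + t * σ, f t * (a + t * b), ((f t : ℝ) : ℂ) * (w + t * z)) : R4)) =
        (f * fun t : ℝ => w.re + t * z.re) := by
      ext t
      simp
    rw [e2] at h2
    have h4 := h3.unique h2
    simpa using h4
  have him : L * D * w.im + f 0 * z.im = 0 := by
    have h2 := (Complex.imCLM.comp ((ContinuousLinearMap.snd ℝ ℝ ℂ).comp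
      (ContinuousLinearMap.snd ℝ ℝ (ℝ × ℂ)))).hasFDerivAt.comp_hasDerivAt (0 : ℝ) hc
    have h3 := hfd'.mul (line_deriv_RC w.im z.im)
    have e2 : ((Complex.imCLM.comp ((ContinuousLinearMap.snd ℝ ℝ ℂ).comp
        (ContinuousLinearMap.snd ℝ ℝ (ℝ × ℂ)))) ∘ fun t : ℝ =>
        ((s + t * σ, f t * (a + t * b), ((f t : ℝ) : ℂ) * (w + t * z)) : R4)) =
        (f * fun t : ℝ => w.im + t * z.im) := by
      ext t
      simp
    rw [e2] at h2
    have h4 := h3.unique h2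
    simpa using h4
  have hR0 : 0 ≤ R 0 := by
    simp only [hR]
    positivity
  have hD0 : D = 0 := by
    have h3 : (L * D * a + f 0 * b) * a + (L * D * w.re + f 0 * z.re) * w.re +
        (L * D * w.im + f 0 * z.im) * w.im = (L * R 0 + f 0 / 2) * D := by
      simp only [hR, hD]
      ring
    rw [hb, hre, him] at h3
    have h4 : 0 < L * R 0 + f 0 / 2 := by
      have := mul_nonneg hL0 hR0
      linarith
    rcases mul_eq_zero.1 (show (L * R 0 + f 0 / 2) * D = 0 by rw [← h3]; ring) with h5 | h5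
    · exact absurd h5 h4.ne'
    · exact h5
  have key : ∀ x y : ℝ, L * D * x + f 0 * y = 0 → y = 0 := by
    intro x y h
    rw [hD0, mul_zero, zero_mul, zero_add] at h
    rcases mul_eq_zero.1 h with h3 | h3
    · exact absurd h3 hf0.ne'
    · exact h3
  have hb0 := key _ _ hb
  have hz : z = 0 := Complex.ext (key _ _ hre) (key _ _ him)
  rw [hσ, hb0, hz]
  rfl

private theorem loc_RC {lam : ℝ} (h0 : 0 < lam) (h1 : lam ≤ 1) (p : R4) :
    IsLocalDiffeomorphAt 𝓘(ℝ, R4) 𝓘(ℝ, R4) ∞ (cl lam) p := by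
  have hcd : ContDiff ℝ ∞ (cl lam) := cl_contDiff_RC.comp (contDiff_const.prodMk contDiff_id)
  refine isLocalDiffeomorphAt_of_injective rfl (Eventually.of_forall fun q => hcd.contDiffAt) ?_
  rw [injective_iff_map_eq_zero]
  exact fun v hv => fderiv_RC h0 h1 p v hv

theorem m_RC : StRC := by
  refine ⟨cl_contDiff_RC, ?_, ?_⟩
  · intro p
    unfold cl cfac
    simp
  · rintro lam ⟨h0, h1⟩
    refine ⟨⟨fun p _ => loc_RC h0 h1 p, (inj_RC h0 h1).injOn⟩, fun p => rfl, ?_, ?_, ?_, ?_, ?_, ?_⟩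
    · intro p hp
      unfold cl cfac
      rw [step_of_nonpos (div_nonpos_of_nonpos_of_nonneg (by linarith) (by norm_num)), mul_zero,
        add_zero]
    · intro p hp
      unfold cl cfac
      rw [step_of_one_le (by rw [le_div_iff₀ (by norm_num)]; linarith)]
      simp
    · intro p hp
      change (cfac lam (nsq p.2) • p.2).2 = 0
      rw [Prod.smul_snd, hp, smul_zero]
    · intro p
      change nsq (cfac lam (nsq p.2) • p.2) ≤ nsq p.2
      rw [nsq_smul_RC]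
      have h2 := cfac_ge_RC h1 (nsq p.2)
      have h3 := cfac_le_RC h1 (nsq p.2)
      have h4 := nsq_nonneg_RC p.2
      have h5 : cfac lam (nsq p.2) ^ 2 ≤ 1 := by nlinarith
      nlinarith
    · rintro p ⟨-, h2, h3, -⟩
      change 0 < (cfac lam (nsq p.2) • p.2).1 ∧ (cfac lam (nsq p.2) • p.2).1 ≤ 4 / 5
      rw [Prod.smul_fst, smul_eq_mul]
      have h4 := cfac_ge_RC h1 (nsq p.2)
      have h5 := cfac_le_RC h1 (nsq p.2)
      constructor
      · exact mul_pos (by linarith) (by linarith)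
      · nlinarith
    · intro p hp
      change 0 < nsq (cfac lam (nsq p.2) • p.2)
      rw [nsq_smul_RC]
      have h4 := cfac_ge_RC h1 (nsq p.2)
      have h5 : 0 < cfac lam (nsq p.2) := by linarith
      positivity

end Pool.Agent.Helper34.BI


end
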