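import Pool.Agent.Helper18.BI.R.FinDefs
import Pool.Agent.Helper65.Barb.Defs
import Pool.Agent.Helper70.BI.B.P07
import Pool.Agent.Helper70.BI.B.P12
import Pool.Agent.Helper70.BI.B.P18

/-!
# Project BI (MP_8e98f2_gt): collected modules, part 27

The contents of the modules
* Helper27.BI.H.M_EHAT
* Helper18.BI.R.StR
* Helper18.BI.R.StR4
* Helper34.BI.UNK2

in one file, so that the whole proof builds in a short time.
-/

/-! ## Helper27.BI.H.M_EHAT -/

section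

/-!
# Project BI, stage 3 (H), module EHAT: the complement of the wall and the base arc
-/

set_option autoImplicit false

open scoped Manifold ContDiff Topology ComplexConjugate
open Set Filter Pool.Agent.Helper65.Barb Pool.Agent.Helper18.BI
open Pool.Agent.Helper70.BI (I4 NearEq LD ld_iff ld_comp ld_congr)
open Pool.Agent.Helper27.BI (e1 barPath TIso IsPush StCh StSpin imp_image imp_off)
open Pool.Agent.Helper34.BI (rade)

namespace Pool.Agent.Helper27.H

namespace EHAT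

open Pool.Agent.Helper34.BI.RE

private theorem rsq_def (c : ℝ) (p : R4) : rsq c p = (p.2.1 - c) ^ 2 + p.2.2.re ^ 2 + p.2.2.im ^ 2 := rfl

private theorem bounds {p : R4} (h : rsq 1 p ≤ 1 / 9) : 1 / 25 ≤ rsq 0 p ∧ rsq 0 p ≤ (9 / 2) ^ 2 := by
  rw [rsq_def] at h
  rw [rsq_def]
  have h1 := sq_nonneg p.2.2.re
  have h2 := sq_nonneg p.2.2.im
  have h3 : p.2.1 ≤ 4 / 3 := by nlinarith
  have h4 : 2 / 3 ≤ p.2.1 := by nlinarith
  constructor
  · nlinarith
  · nlinarith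

private theorem D_sub {δ : ℝ} (h0 : 0 < δ) : Dreg δ ⊆ K3 δ := by
  rintro p ⟨h1, h2, h3, h4⟩
  obtain ⟨h5, h6⟩ := bounds h4
  exact ⟨⟨by linarith, by linarith, h6⟩, h5, by linarith⟩

private theorem W_sub {δ : ℝ} (h0 : 0 < δ) : wallS δ ⊆ K3 δ := by
  rintro p ⟨h1, h2, h3, h4⟩
  obtain ⟨h5, h6⟩ := bounds (p := p) (by linarith)
  exact ⟨⟨by linarith, by linarith, h6⟩, h5, h3⟩

private theorem compact_K (δ : ℝ) : IsCompact (K3 δ) := by
  refine Metric.isCompact_of_isClosed_isBounded ?_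
    ((isBounded_of_rsq 0 ((9 / 2) ^ 2) (-1) 2).subset (fun p hp => hp.1))
  have e : K3 δ = {p : R4 | -1 ≤ p.1} ∩ {p : R4 | p.1 ≤ 2} ∩ {p : R4 | rsq 0 p ≤ (9 / 2) ^ 2} ∩
      {p : R4 | 1 / 25 ≤ rsq 0 p} ∩ {p : R4 | 1 / 25 - 3 * δ ≤ rsq 1 p} := by
    ext p
    constructor
    · rintro ⟨⟨h1, h2, h3⟩, h4, h5⟩
      exact ⟨⟨⟨⟨h1, h2⟩, h3⟩, h4⟩, h5⟩
    · rintro ⟨⟨⟨⟨h1, h2⟩, h3⟩, h4⟩, h5⟩
      exact ⟨⟨h1, h2, h3⟩, h4, h5⟩
  rw [e]
  exact ((((isClosed_le continuous_const continuous_fst).inter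
    (isClosed_le continuous_fst continuous_const)).inter
    (isClosed_le (continuous_rsq 0) continuous_const)).inter
    (isClosed_le continuous_const (continuous_rsq 0))).inter
    (isClosed_le continuous_const (continuous_rsq 1))

private theorem closed_D (δ : ℝ) : IsClosed (Dreg δ) := by
  have e : Dreg δ = {p : R4 | 0 ≤ p.1} ∩ {p : R4 | p.1 ≤ 1} ∩ {p : R4 | 1 / 25 - δ ≤ rsq 1 p} ∩
      {p : R4 | rsq 1 p ≤ 1 / 9} := by
    ext p
    constructor
    · rintro ⟨h1, h2, h3, h4⟩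
      exact ⟨⟨⟨h1, h2⟩, h3⟩, h4⟩
    · rintro ⟨⟨⟨h1, h2⟩, h3⟩, h4⟩
      exact ⟨h1, h2, h3, h4⟩
  rw [e]
  exact (((isClosed_le continuous_const continuous_fst).inter
    (isClosed_le continuous_fst continuous_const)).inter
    (isClosed_le continuous_const (continuous_rsq 1))).inter
    (isClosed_le (continuous_rsq 1) continuous_const)

/-- points of `Dreg δ` off the wall and the finger -/
private structure Good (δ : ℝ) (p : R4) : Prop where
  mem : p ∈ Dreg δ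
  lt : 1 / 25 - δ < rsq 1 p
  off : ∀ s, 1 / 25 - δ < bfin s ^ 2 → p ≠ (s, z0 s)

variable {δ : ℝ} {T T' : R4 → R4}

private theorem level' (hT : FingOk T T') (p : R4) : (T' p).1 = p.1 := by
  have h := hT.level (T' p)
  rw [hT.right] at h
  exact h.symm

private theorem pos_of_good (hT : FingOk T T') {p : R4} (hp : Good δ p) : 0 < rsq 1 (T' p) := by
  by_contra hn
  push Not at hn
  have h0 : rsq 1 (T' p) = (T' p).2.1 ^ 2 - 2 * (T' p).2.1 + 1 + (T' p).2.2.re ^ 2 + (T' p).2.2.im ^ 2 := by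
    rw [rsq_def]; ring
  have h1 := sq_nonneg ((T' p).2.1 - 1)
  have h2 := sq_nonneg (T' p).2.2.re
  have h3 := sq_nonneg (T' p).2.2.im
  rw [rsq_def] at hn
  have a1 : (T' p).2.1 = 1 := by
    have : ((T' p).2.1 - 1) ^ 2 = 0 := by linarith
    have := pow_eq_zero_iff (two_ne_zero) |>.1 this
    linarith
  have a2 : (T' p).2.2.re = 0 := by
    have : (T' p).2.2.re ^ 2 = 0 := by linarith
    exact pow_eq_zero_iff (two_ne_zero) |>.1 this
  have a3 : (T' p).2.2.im = 0 := by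
    have : (T' p).2.2.im ^ 2 = 0 := by linarith
    exact pow_eq_zero_iff (two_ne_zero) |>.1 this
  have e : T' p = (p.1, e1 + 0) := by
    rw [add_zero]
    refine Prod.ext (level' hT p) (Prod.ext a1 (Complex.ext a2 a3))
  have e2 : p = (p.1, z0 p.1) := by
    have h4 := hT.tube p.1 0 (by simp [nsq])
    rw [← e, hT.right, add_zero] at h4
    exact h4
  have e3 : rsq 1 p = bfin p.1 ^ 2 := by
    rw [e2, rsq_def]
    simp only [z0, e1, Prod.smul_mk, smul_eq_mul, mul_one, smul_zero, Complex.zero_re, Complex.zero_im]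
    ring
  have h5 := hp.lt
  rw [e3] at h5
  exact hp.off p.1 h5 e2

private theorem e0_rsq (hδ : δ ∈ Ioo (0 : ℝ) (1 / 100)) {p : R4} (hp : 0 < rsq 1 (T' p)) :
    rsq 1 (e0 δ T' p) = Pool.Agent.Helper34.BI.qe δ (rsq 1 (T' p)) :=
  rsq_rad (qe_prf hδ.1 (by linarith [hδ.2])) 1 (T' p) hp

private theorem fix' (hT : FingOk T T') {p : R4} (hp : (3 / 10) ^ 2 ≤ rsq 1 p) : T' p = p := by
  have h := congrArg T' (hT.far p hp)
  rw [hT.left] at h
  exact h.symm

private theorem fix'' (hT : FingOk T T') {p : R4} (hp : p.1 ≤ 1 / 10 ∨ 9 / 10 ≤ p.1) : T' p = p := by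
  have h := congrArg T' (hT.out p.1 p.2 hp)
  rw [hT.left] at h
  exact h.symm

private theorem e0_mem (hT : FingOk T T') (hδ : δ ∈ Ioo (0 : ℝ) (1 / 100)) {p : R4} (hp : Good δ p) :
    e0 δ T' p ∈ Dreg δ ∨ e0 δ T' p ∈ wallS δ := by
  have h0 := pos_of_good hT hp
  have h1 := e0_rsq (T' := T') hδ h0
  have h2 : (e0 δ T' p).1 = p.1 := level' hT p
  have h3 : 1 / 25 - 3 * δ ≤ rsq 1 (e0 δ T' p) := by
    rw [h1]
    exact qe_low hδ.1 hδ.2 h0.le
  have h4 : rsq 1 (T' p) ≤ 1 / 9 := by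
    by_contra hn
    push Not at hn
    have h5 := hT.far (T' p) (by norm_num; linarith)
    rw [hT.right] at h5
    rw [← h5] at hn
    have := hp.mem.2.2.2
    linarith
  have h5 : rsq 1 (e0 δ T' p) ≤ 1 / 9 := by
    rw [h1]
    have h6 := (qe_prf hδ.1 (by linarith [hδ.2] : δ < 1)).mono.monotone h4
    rwa [qe_eq hδ.1 (q := 1 / 9) (by linarith [hδ.1])] at h6
  obtain ⟨m1, m2, m3, m4⟩ := hp.mem
  rcases le_or_gt (1 / 25 - δ) (rsq 1 (e0 δ T' p)) with h | h
  · exact Or.inl ⟨by rw [h2]; exact m1, by rw [h2]; exact m2, h, h5⟩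
  · exact Or.inr ⟨by rw [h2]; exact m1, by rw [h2]; exact m2, h3, h.le⟩

/-- `e0` is the identity outside `Dreg δ` near the good points -/
private theorem e0_fix (hT : FingOk T T') (hδ : δ ∈ Ioo (0 : ℝ) (1 / 100)) {q : R4}
    (h1 : 1 / 25 - δ < rsq 1 q) (h2 : q ∉ Dreg δ) : e0 δ T' q = q := by
  have h3 : T' q = q := by
    by_cases a1 : q.1 ≤ 1 / 10
    · exact fix'' hT (Or.inl a1)
    by_cases a2 : 9 / 10 ≤ q.1
    · exact fix'' hT (Or.inr a2)
    apply fix' hT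
    by_contra hn
    push Not at hn a1 a2
    apply h2
    refine ⟨by linarith, by linarith, h1.le, ?_⟩
    norm_num at hn
    linarith
  unfold e0
  rw [h3]
  exact rade_id hδ.1 hδ.2 1 h1.le

private theorem ld_T' (hT : FingOk T T') (p : R4) : LD T' p := by
  rw [ld_iff]
  refine ⟨Eventually.of_forall fun q => hT.smooth'.contDiffAt, ?_⟩
  have d1 := (hT.smooth'.differentiable (by simp) p).hasFDerivAt
  have d2 := (hT.smooth.differentiable (by simp) (T' p)).hasFDerivAt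
  have d3 := d2.comp p d1
  have d4 := d3.congr_of_eventuallyEq (f₁ := fun x : R4 => x)
    (Eventually.of_forall fun q => (hT.right q).symm)
  have d5 := d4.unique (hasFDerivAt_id p)
  intro v w hvw
  have h := congrArg (fderiv ℝ T (T' p)) hvw
  have e : ∀ z, (fderiv ℝ T (T' p)) (fderiv ℝ T' p z) = z := fun z =>
    congrArg (fun A : R4 →L[ℝ] R4 => A z) d5
  rw [e, e] at h
  exact h

private theorem ld_rade (hδ : δ ∈ Ioo (0 : ℝ) (1 / 100)) {p : R4} (hp : 0 < rsq 1 p) :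
    LD (rade δ 1) p := by
  have hf := qe_prf hδ.1 (by linarith [hδ.2] : δ < 1)
  show IsLocalDiffeomorphAt 𝓘(ℝ, R4) 𝓘(ℝ, R4) ∞ (rade δ 1) p
  rw [m_A0 R4 (rade δ 1) p]
  exact ⟨⟨_, R2.isOpen_pos 1, hp, rad_contDiffOn hf 1⟩, fun v hv => rad_fderiv hf 1 p v hp hv⟩

private theorem ld_e0 (hT : FingOk T T') (hδ : δ ∈ Ioo (0 : ℝ) (1 / 100)) {p : R4} (hp : Good δ p) :
    LD (e0 δ T') p :=
  ld_comp (F := rade δ 1) (m := T') (ld_T' hT p) (ld_rade hδ (pos_of_good hT hp))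

private theorem inj_e0 (hT : FingOk T T') (hδ : δ ∈ Ioo (0 : ℝ) (1 / 100)) {p q : R4} (hp : Good δ p)
    (hq : Good δ q) (h : e0 δ T' p = e0 δ T' q) : p = q := by
  have hf := qe_prf hδ.1 (by linarith [hδ.2] : δ < 1)
  have h1 : T' p = T' q := rad_inj hf 1 (pos_of_good hT hp) (pos_of_good hT hq) h
  have h2 := congrArg T h1
  rwa [hT.right, hT.right] at h2

end EHAT

open EHAT in
theorem m_EHAT : StEHAT := by
  intro T T' G δ hT hδ hG
  have hDK := D_sub hδ.1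
  have hWK := W_sub hδ.1
  have hKc := compact_K δ
  have hDc : IsCompact (Dreg δ) := hKc.of_isClosed_subset (closed_D δ) hDK
  have hGD : InjOn G (Dreg δ) := hG.2.mono hDK
  obtain ⟨Φ, hΦ1, hΦ2⟩ := m_A1 R4 R4 R4 I4 R4 G (K3 δ) hKc hG.1 hG.2
  have hΦc : ContinuousOn G (K3 δ) := by
    intro p hp
    exact ((hG.1 p hp).contMDiffAt.continuousAt).continuousWithinAt
  have hGDc : IsClosed (G '' Dreg δ) := (hDc.image_of_continuousOn (hΦc.mono hDK)).isClosed
  -- points of the set in the image of `Dreg`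
  have good : ∀ y ∈ (G '' wallS δ)ᶜ \ (fun s => G (s, z0 s)) '' {s | 1 / 25 - δ < bfin s ^ 2},
      ∀ p ∈ Dreg δ, G p = y → Good δ p := by
    rintro y ⟨h1, h2⟩ p hp rfl
    refine ⟨hp, ?_, ?_⟩
    · by_contra hn
      push Not at hn
      exact h1 ⟨p, ⟨hp.1, hp.2.1, by linarith [hp.2.2.1, hδ.1], hn⟩, rfl⟩
    · intro s hs he
      exact h2 ⟨s, hs, by show G (s, z0 s) = G p; rw [he]⟩
  have hval : ∀ p, Good δ p → imp G (Dreg δ) (e0 δ T') (G p) = G (e0 δ T' p) := fun p hp =>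
    imp_image hGD hp.mem
  have hK : ∀ p, Good δ p → e0 δ T' p ∈ K3 δ := fun p hp => by
    rcases e0_mem hT hδ hp with h | h
    · exact hDK h
    · exact hWK h
  constructor
  · intro y hy
    by_cases hyD : y ∈ G '' Dreg δ
    · obtain ⟨p, hp, hpy⟩ := hyD
      have hgp := good y hy p hp hpy
      have hps : p ∈ Φ.source := hΦ1 (hDK hp)
      have hΦp : Φ p = y := by rw [hΦ2 p hps, hpy]
      have hyt : y ∈ Φ.target := hΦp ▸ Φ.map_source hps
      have hsy : Φ.symm y = p := by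
        rw [← hΦp]
        exact Φ.left_inv hps
      have hls : LD Φ.symm y := by
        refine PartialDiffeomorph.isLocalDiffeomorphAt _ _ _ Φ.symm ?_
        exact hyt
      have hle : LD (fun q => G (e0 δ T' q)) p := ld_comp (F := G) (ld_e0 hT hδ hgp) (hG.1 _ (hK p hgp))
      have hlc : LD (fun z => G (e0 δ T' (Φ.symm z))) y := by
        apply ld_comp (F := fun q => G (e0 δ T' q)) (m := Φ.symm) hls
        rw [hsy]
        exact hle
      refine ld_congr ?_ hlc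
      have c1 : ContinuousAt Φ.symm y := hls.contMDiffAt.continuousAt
      have c2 : ∀ᶠ z in 𝓝 y, 1 / 25 - δ < rsq 1 (Φ.symm z) := by
        have c3 : ContinuousAt (fun z => rsq 1 (Φ.symm z)) y :=
          (continuous_rsq 1).continuousAt.comp c1
        apply c3.eventually (Ioi_mem_nhds _)
        show 1 / 25 - δ < rsq 1 (Φ.symm y)
        rw [hsy]
        exact hgp.lt
      filter_upwards [c2, Φ.open_target.mem_nhds hyt] with z hz1 hz2
      have hz3 : Φ.symm z ∈ Φ.source := Φ.map_target hz2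
      have hz4 : G (Φ.symm z) = z := by
        rw [← hΦ2 _ hz3]
        exact Φ.right_inv hz2
      by_cases hzD : Φ.symm z ∈ Dreg δ
      · have h5 : imp G (Dreg δ) (e0 δ T') (G (Φ.symm z)) = G (e0 δ T' (Φ.symm z)) :=
          imp_image hGD hzD
        rw [hz4] at h5
        exact h5.symm
      · rw [e0_fix hT hδ hz1 hzD, hz4]
        symm
        apply imp_off
        rintro ⟨r, hr, hrz⟩
        have hr1 : r ∈ Φ.source := hΦ1 (hDK hr)
        have h6 : Φ r = z := by rw [hΦ2 r hr1, hrz]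
        have h7 : Φ.symm z = r := by rw [← h6]; exact Φ.left_inv hr1
        rw [h7] at hzD
        exact hzD hr
    · have hid : LD (fun z : R4 => z) y := by
        rw [ld_iff]
        refine ⟨Eventually.of_forall fun q => contDiffAt_id, ?_⟩
        have : fderiv ℝ (fun z : R4 => z) y = ContinuousLinearMap.id ℝ R4 := fderiv_id
        rw [this]
        exact fun v w h => h
      refine ld_congr ?_ hid
      filter_upwards [hGDc.isOpen_compl.mem_nhds hyD] with z hz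
      exact (imp_off hz).symm
  · intro y hy y' hy' he
    by_cases hyD : y ∈ G '' Dreg δ
    · obtain ⟨p, hp, hpy⟩ := hyD
      have hgp := good y hy p hp hpy
      by_cases hyD' : y' ∈ G '' Dreg δ
      · obtain ⟨p', hp', hpy'⟩ := hyD'
        have hgp' := good y' hy' p' hp' hpy'
        rw [← hpy, ← hpy', hval p hgp, hval p' hgp'] at he
        have h1 := hG.2 (hK p hgp) (hK p' hgp') he
        rw [← hpy, ← hpy', inj_e0 hT hδ hgp hgp' h1]
      · rw [imp_off hyD', ← hpy, hval p hgp] at he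
        exfalso
        rcases e0_mem hT hδ hgp with h | h
        · exact hyD' ⟨_, h, he⟩
        · exact hy'.1 ⟨_, h, he⟩
    · by_cases hyD' : y' ∈ G '' Dreg δ
      · obtain ⟨p', hp', hpy'⟩ := hyD'
        have hgp' := good y' hy' p' hp' hpy'
        rw [imp_off hyD, ← hpy', hval p' hgp'] at he
        exfalso
        rcases e0_mem hT hδ hgp' with h | h
        · exact hyD ⟨_, h, he.symm⟩
        · exact hy.1 ⟨_, h, he.symm⟩
      · rwa [imp_off hyD, imp_off hyD'] at he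

end Pool.Agent.Helper27.H


end

/-! ## Helper18.BI.R.StR -/

section

/-!
# Project BI, stage 4 (R): the homomorphism, part 1 (in `R4`)

For a fixed cuff `A = F '' sph 1` the implantation class modulo `W` is a homomorphism of the class of the other cuff in
the second homotopy group of the complement of `A`.  Statements (as `Prop` definitions) with complete proofs in the
docstrings.  A module `M_X` proves `theorem m_X : StX` (possibly from other statements as hypotheses `(h : StY)`).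
-/

set_option autoImplicit false

open scoped Manifold ContDiff Topology ComplexConjugate
open Set Pool.Agent.Helper65.Barb Pool.Agent.Helper18.BI
open Pool.Agent.Helper70.BI (I4 IsW MW)
open Pool.Agent.Helper27.H (ArcD StArcH)
open Pool.Agent.Helper18.BI.H

namespace Pool.Agent.Helper18.BI.R

/-! ## loops of arcs and squares -/

/-- A smooth loop of arcs (not necessarily embedded); `c q s` is the point with parameter `s` of the arc with
parameter `q ∈ [0,1]`. -/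
structure LoopOK (D : ArcD) (c : ℝ → ℝ → R4) : Prop where
  smooth : ContDiff ℝ ∞ (fun z : ℝ × ℝ => c z.1 z.2)
  froz : ∀ q ∈ Icc (0 : ℝ) 1, ∀ s, (s ≤ D.m₀ ∨ D.m₁ ≤ s) → c q s = D.c s
  inU : ∀ q ∈ Icc (0 : ℝ) 1, ∀ s ∈ Icc D.m₀ D.m₁, c q s ∈ D.U
  start : ∀ s, c 0 s = D.c s
  stop : ∀ s, c 1 s = D.c s

/-- concatenation of smooth loops of arcs -/
noncomputable def cat (D : ArcD) (c c' : ℝ → ℝ → R4) (q s : ℝ) : R4 :=
  c (step (2 * q)) s + c' (step (2 * q - 1)) s - D.c s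

/-- concatenation of squares -/
noncomputable def qcat (f f' : ℝ → ℝ → R4) (q s : ℝ) : R4 :=
  if q ≤ 1 / 2 then f (2 * q) s else f' (2 * q - 1) s

/-- Homotopy of squares in `D.U`, relative to the boundary, where the squares are equal to the base arc. -/
def SH (D : ArcD) (f g : ℝ → ℝ → R4) : Prop :=
  ∃ H : ℝ × ℝ × ℝ → R4,
    ContinuousOn H (Icc (0 : ℝ) 1 ×ˢ (Icc (0 : ℝ) 1 ×ˢ Icc D.m₀ D.m₁)) ∧
    (∀ q ∈ Icc (0 : ℝ) 1, ∀ s ∈ Icc D.m₀ D.m₁, H (0, q, s) = f q s ∧ H (1, q, s) = g q s) ∧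
    ∀ u ∈ Icc (0 : ℝ) 1, ∀ q ∈ Icc (0 : ℝ) 1, ∀ s ∈ Icc D.m₀ D.m₁, H (u, q, s) ∈ D.U ∧
      ((q = 0 ∨ q = 1 ∨ s = D.m₀ ∨ s = D.m₁) → H (u, q, s) = D.c s)

/-- the square `f`, with boundary values `y₀`, is moved to a square with boundary values `D.c s` -/
noncomputable def shp (D : ArcD) (y₀ : R4) (f : ℝ → ℝ → R4) (q s : ℝ) : R4 := f q s + (D.c s - y₀)

/-- `χ` is a class of the square `f` (with boundary values `y₀`): of a smooth loop of embedded arcs homotopic to it. -/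
def HasCl (D : ArcD) (y₀ : R4) (f : ℝ → ℝ → R4) (χ : R4 → R4) : Prop :=
  ∃ c : ℝ → ℝ → R4, LoopOK D c ∧ D.Cls c χ ∧ SH D c (shp D y₀ f)

/-- MODULE MULT (helper27).  The class of a concatenation.
Proof.  Loops of thick arcs `J`, `J'` with `TCls J χ`, `TCls J' χ'`.  `J'' q p = J (step (2 q)) p + J' (step (2 q - 1)) p - D.J p`;
near `L`, `J 1 = D.J = J' 0`, so `J'' q = J (step (2q))` for `q ≤ 1/2` and `J' (step (2q-1))` for `q ≥ 1/2` as germs along `L`.  The push along `J''` is `Θ' ∘ Θ`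
(concatenate the isotopies, reparametrized by `step`), `Phi` is multiplicative (`StPhi` (4)). -/
def StMULT : Prop :=
  ∀ (D : ArcD) (c c' : ℝ → ℝ → R4) (χ χ' : R4 → R4), LoopOK D c → LoopOK D c' → D.Cls c χ →
    D.Cls c' χ' → D.Cls (cat D c c') (fun x => χ' (χ x))

/-- MODULE INV (helper27).  The class of the reversed loop.  (From `StMULT`, and the fourth and fifth claims of `StCls` applied to the homotopy
`(u, q) ↦` the concatenation of `c` on `[0, 1-u]` with its inverse, which consists of embedded arcs; or directly with the inverse push.) -/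
def StINV : Prop :=
  ∀ (D : ArcD) (c : ℝ → ℝ → R4) (χ χ' : R4 → R4), LoopOK D c → D.Cls c χ →
    (∀ x, χ (χ' x) = x) → (∀ x, χ' (χ x) = x) → D.Cls (fun q s => c (1 - q) s) χ'

/-- MODULE SMG.  Smoothing relative to the boundary.
Proof.  `τ u = step (3 u - 1)` (`0` for `u ≤ 1/3`, `1` for `u ≥ 2/3`) and `S (u, q, s) = (1 - τ u) • c₀ q s + τ u • c₁ q s`, smooth on `ℝ³`.  `C` = the closed
cube `[0,1] × [0,1] × [m₀,m₁]`, `H` the homotopy on `C` (`SH`); `S = H` on the boundary `∂C` of `C`.  `H '' C` is compact, contained in the open set `U`, so there is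
`κ > 0` such that the closed `2κ`-neighbourhood of `H '' C` is in `U`.  By compactness there is `r > 0` with `‖S z - H z‖ ≤ κ/2` for all `z ∈ C` at a distance `≤ 2 r` from `∂C`
(i.e. with `u`, `1-u`, `q`, `1-q`, `s-m₀` or `m₁-s` `≤ 2r`).  `λ : ℝ³ → [0,1]` continuous, `0` outside the cube `C_r = {z ∈ C at distance ≥ r from ∂C}` and `1` on `C_{2r}` (product of
piecewise linear functions of the coordinates).  `g z = S z + λ z • (H z - S z)` for `z ∈ C`, `g z = S z` for `z ∉ C`: continuous on `ℝ³`, within `κ/2` of `H` on `C`, equal to `S` off `C_r`.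
`Continuous.exists_contDiff_approx_and_eqOn` (used in `Pool/Agent/Helper18/BI/H/M_SM.lean` and in `StBAR`) gives a smooth `c` with `‖c - g‖ ≤ κ/2` and `c = g = S` on the closed complement of the open cube
`{z ∈ C at distance > r/2 from ∂C}` (`g = S` is smooth on an open neighbourhood of this set).  `c` is in `U` for `z ∈ C`; for `z ∉ C`, or on `∂C`, `c = S`: frozen, `start`, `stop`
(for `q = 0, 1` and `u ∈ [0,1]`, any `s`: `c = S = D.c s`); `c (0, q, s) = c₀ q s` for all `q`, `s`. -/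
def StSMG : Prop :=
  ∀ (D : ArcD) (c₀ c₁ : ℝ → ℝ → R4), LoopOK D c₀ → LoopOK D c₁ → SH D c₀ c₁ →
    ∃ c : ℝ × ℝ × ℝ → R4, D.Htpy c ∧ (∀ q s, c (0, q, s) = c₀ q s) ∧ ∀ q s, c (1, q, s) = c₁ q s

/-- MODULE HCL.  The calculus of `HasCl` (uses `StMULT`, `StINV`, `StSMG`, `StCls`, `StArcH`, `StT2`, `StCI`; `cls_imm_inj` of `EndR4.lean`).
`SH D` is symmetric (`H (1 - u, ..)`) and transitive (concatenation in `u`); it is reflexive on squares which are continuous, in `U` and equal to `D.c` on the boundary.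
(1) `c q s = D.c s` (`StCls`, last claim), `SH` constant.
(2) `c'' = cat D c c'`: `LoopOK` (`step` is smooth, `step = 0` on `(-∞, 0]`, `1` on `[1, ∞)`, so for `q ≤ 1/2` the value is `c (step (2q)) s` and for `q ≥ 1/2` it is `c' (step (2q-1)) s`);
`StMULT`; homotopy: for `q ≤ 1/2` `H (u, (1-u) step (2q) + u (2q), s)`, for `q ≥ 1/2` `H' (u, (1-u) step (2q-1) + u (2q-1), s)`; at `q = 1/2` both are `D.c s` (`H (u, 1, s) = D.c s`).
(3) `c (1-q) s`, `StINV`, `H (u, 1-q, s)`.  (4) transitivity.  (5) `StCls`, second claim.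
(6) `SH D c (shp f)`, `SH D c' (shp f)` give `SH D c c'`; `StSMG` gives a homotopy `g` with `D.Htpy g`, `g (0, ..) = c`, `g (1, ..) = c'`, `StArcH` (the ends are embedded by `cls_imm_inj`). -/
def StHCL : Prop :=
  ∀ (D : ArcD) (y₀ : R4),
    HasCl D y₀ (fun _ _ => y₀) (fun x => x) ∧
    (∀ f f' χ χ', HasCl D y₀ f χ → HasCl D y₀ f' χ' →
      HasCl D y₀ (qcat f f') (fun x => χ' (χ x))) ∧
    (∀ f χ χ', HasCl D y₀ f χ → (∀ x, χ (χ' x) = x) → (∀ x, χ' (χ x) = x) →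
      HasCl D y₀ (fun q s => f (1 - q) s) χ') ∧
    (∀ f f' χ, HasCl D y₀ f χ → SH D (shp D y₀ f) (shp D y₀ f') → HasCl D y₀ f' χ) ∧
    (∀ f χ χ', HasCl D y₀ f χ → CIsot I4 χ χ' → HasCl D y₀ f χ') ∧
    (∀ f χ, HasCl D y₀ f χ → CIsot I4 χ χ) ∧
    ∀ W f χ χ', IsW W → HasCl D y₀ f χ → HasCl D y₀ f χ' →
      CIsot I4 χ' χ ∨ CIsot I4 χ' (fun x => W (χ x))

/-! ## germs -/

/-- the unit sphere of three-space -/
def S2 : Set R3 := {m | nsq m = 1}

/-- the base point: a point of the outer part of the bar -/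
noncomputable def bp (F : R4 → R4) : R4 := F (bar (73 / 100))

/-- MODULE BAS.  The loop of arcs of a germ is homotopic to its whiskered sphere (uses `StSM`, `StS2`, `StS3`, `StS4`, `StS5`; compare `Pool/Agent/Helper18/BI/H/M_SM.lean`).
Proof.  `K = F '' sph 1` is compact and does not contain the points `F' (nu m)` (`nu m ∈ SP \ sph 1`: `nu m ∈ sph 0` or `nu m = bar a` with `a ≤ 73/100`; `F' = F` on `sph 1`, `F'` injective on `SP`), `m ∈ S2` (compact), so
there is `κ > 0` with `4 κ ≤ dist (F' (nu m)) y` for all `m ∈ S2`, `y ∈ K`.  By the continuity of `sq` up to `ε = 0` (`StS3`, as in `M_SM.lean`) there is `ε₀` such that for `ε < ε₀`, `m ∈ S2`, `s ∈ [3/10, 7/10]` the point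
`sq ε (s, 73/100 • m)` is in the open set where `F'` is smooth and `F' (sq ε (s, 73/100 • m))` is within `κ` of `F' (nu m)` (`sq 0 (s, x) = sq 0 (1/2, x)`).
`c = loopF F' (3/10) (7/10) ε D`.  `LoopOK`: smooth: near a point with `3/10 < s < 7/10` it is `F' (sq ε (s, 73/100 • mm q s))`, smooth (`mm` is smooth; `StZnsq`: `mm q s ∈ S2`); for `s < 9/20` or `11/20 < s` (`mm q s = (1,0)`: `mm_edge` of `EndR4.lean`) it is `D.c s`:
`F' (sq ε (s, (73/100, 0))) = F (sq ε (s, (73/100, 0)))` because `sq ε (s, (73/100, 0)) ∈ U` for small `ε` (`sq 0 (s, (73/100, 0)) = bar (73/100) ∈ neckE`).  `start`, `stop`: `mm_ends`.  `inU`: the distance of `c q s` to `K` is `≥ 3 κ`.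
The homotopy of `SH`: the linear one from `c q s` to `F' (nu (mm q s)) + (D.c s - y₀)`, `y₀ = bp F = F' (nu (1, 0))`, `‖D.c s - y₀‖ ≤ κ`: both ends are within `κ` of `F' (nu (mm q s))`, so it is at a distance `≥ 3 κ` from `K`, in `D.U`.  On the boundary `mm q s = (1, 0)` and both ends are
`D.c s`. -/
def StBAS : Prop :=
  ∀ (F F' : R4 → R4) (V : Set R4), EmbOn I4 F SP → EmbOn I4 F' SP → IsOpen V →
    sph 1 ∪ neckE ⊆ V → EqOn F F' V → ∃ κ > 0, ∃ ε₀ > 0, ∀ ε ∈ Ioo 0 ε₀, ∀ D : ArcD,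
      D.m₀ = 9 / 20 → D.m₁ = 11 / 20 →
      (∀ s ∈ Icc (3 / 10 : ℝ) (7 / 10), D.c s = F (sq ε (s, ((73 / 100 : ℝ), 0)))) →
      (∀ x, x ∉ D.U → ∃ y ∈ F '' sph 1, dist x y < κ) →
      LoopOK D (loopF F' (3 / 10) (7 / 10) ε D) ∧
        SH D (loopF F' (3 / 10) (7 / 10) ε D) (shp D (bp F) (fun q s => F' (nu (mm q s))))

/-- MODULE STR2.  Stretching the bar, the same for all germs.
Proof.  As `Pool/Agent/Helper18/BI/H/M_STR.lean` (`K = repm m`, `m` from `STR.exists_rep`; `U₁ = {p.2.1 < 1/4} ∪ {4/5 - r/4 < p.2.1}`, `V = K ⁻¹' U`; `b = m (73/100)`, `m` is strictly increasing, `m (1/5) = 1/5`,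
`m (4/5) = 4/5`). -/
def StSTR2 : Prop :=
  ∀ U : Set R4, IsOpen U → sph 1 ⊆ U → ∃ (K : R4 → R4) (b : ℝ) (U₁ V : Set R4), IsOpen U₁ ∧
    sph 0 ∪ sph 1 ⊆ U₁ ∧ (∀ p ∈ U₁, K p = p) ∧ IsOpen V ∧ sph 1 ∪ neckE ⊆ V ∧
    (∀ p ∈ V, K p ∈ U) ∧ 1 / 5 < b ∧ b < 4 / 5 ∧ K (bar (73 / 100)) = bar b ∧
    ∀ F : R4 → R4, EmbOn I4 F SP → EmbOn I4 (fun p => F (K p)) SP ∧
      ∀ φ, Thin I4 F φ → Thin I4 (fun p => F (K p)) φ

/-- MODULE MOVE.  A point of the bar is moved to another one by a homotopy of self-maps of the complement of the fixed cuff.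
Proof.  `F` is injective and a local diffeomorphism on an open set `N ⊇ SP` (`StA1`).  Let `1/5 < a' < min a b`, `max a b < b' < 4/5` and `k : ℝ → ℝ` continuous, piecewise linear, `k x = x` for `x ≤ a'` and for `x ≥ b'`, `k a = b`, `k` maps `[a', b']` to
itself.  `χ (s, w) = max 0 (1 - ‖(s - 1/2, w)‖ / r)` and `T_t (s, x, w) = (s, x + t χ (s, w) (k x - x), w)` for `t ∈ [0,1]`: continuous, the identity off the compact set
`L = {(s, x, w) | x ∈ [a', b'], ‖(s - 1/2, w)‖ ≤ r}` (and on its frontier), maps `L` to `L`; for small `r`, `L ⊆ N` and `L` is disjoint from `sph 1` (`a`-coordinate `≤ b' < 4/5`).  With `t` replaced by its clamp to `[0,1]`: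
`Ψ (t, y) = F (T_t p)` if `y = F p` with `p ∈ L` (unique), `Ψ (t, y) = y` otherwise.  Continuous: on the open set `F '' N' × ..` (`N' ⊆ N` an open neighbourhood of `L`; `F` is a homeomorphism of `N'` onto the open set `F '' N'`, e.g. the partial diffeomorphism of `StA1`) it is `F ∘ T_t ∘ F⁻¹`, and on the open set
`(F '' L)ᶜ` it is the identity.  `F '' L` is disjoint from `F '' sph 1` (injectivity on `N ⊇ L ∪ sph 1`). -/
def StMOVE : Prop :=
  ∀ (F : R4 → R4) (a b : ℝ), EmbOn I4 F SP → a ∈ Ioo (1 / 5 : ℝ) (4 / 5) →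
    b ∈ Ioo (1 / 5 : ℝ) (4 / 5) → ∃ Ψ : ℝ × R4 → R4, Continuous Ψ ∧ (∀ x, Ψ (0, x) = x) ∧
      Ψ (1, F (bar a)) = F (bar b) ∧ ∀ t x, x ∉ F '' sph 1 → Ψ (t, x) ∉ F '' sph 1

/-- NRB (helper18).  The base arc is near the base point.  (`StS3`, `StS4`.) -/
def StNRB : Prop :=
  ∀ F : R4 → R4, EmbOn I4 F SP → ∀ κ > 0, ∃ ε₀ > 0, ∀ ε ∈ Ioo 0 ε₀,
    ∀ s ∈ Icc (3 / 10 : ℝ) (7 / 10), dist (F (sq ε (s, ((73 / 100 : ℝ), 0)))) (bp F) ≤ κ

/-- MODULE TOPG.  A free homotopy from a based sphere to the cuff gives a based homotopy to the whiskered sphere, if the bar is in the class of the track of the base point.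
`h (u, m)`, `m ∈ S2`: the free homotopy; `h (1, m) = F (1/2, 1/5 • m)` runs through the cuff `sph 0`; `ζ` = outer bar from `3/5` back to `73/100`, then the track of `(1, 0)`;
`P` = homotopy from `ζ` to the bar from `3/5` to `1/5`.
Proof (compare `Pool/Agent/Helper18/BI/H/M_TOP.lean`; `nu m = sq 0 (1/2, 73/100 • m)`).  Put `k = 20/73`, `a = 73/100 * m.1` (so `a ≥ 1/5` iff `m.1 ≥ k`), and for `m ∈ S2`: `ω m = (m.1 - k)/(1 - k)` (`∈ [0,1]` for `m.1 ≥ k`, `1` at `(1,0)`, `0` at `m.1 = k`).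
`r m = 5 • (nu m).2` for `m.1 ≤ k` (a point of `S2`, `= (1,0)` for `m.1 = k`; `nu m ∈ sph 0` there by `StS4`), `R m = (1, 0)` for `m.1 ≥ k`, `R m = r m` for `m.1 ≤ k`: continuous on `S2` with values in `S2`.  `R m ≠ -m`: for `m.1 ≥ k > 0` clear; for `m.1 ≤ k` the `w`-component of
`nu m` is a nonnegative multiple of `m.2` and the first components of `R m` and `m` have the same sign or vanish together
(`(nu m).2.1 = clamp (73/100 m.1)`); for `m = (-1, 0)`, `R m = (-1, 0)`.  So `R_t m = ((1-t) m + t R m)/|..|` is a homotopy of maps `S2 → S2` from the identity to `R` with `R_t (1,0) = (1,0)`.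
Four consecutive homotopies (`ContinuousOn.if`/union of closed sets; concatenation in `u`):
(0) `h (0, R_t m)`, `t ∈ [0,1]`;
(1) for `u ∈ [0,1]`: `h (u, R m)` for `m.1 ≤ k`, `η (u (1 - ω m))` for `m.1 ≥ k`, where `η v = h (v, (1,0))`;
(2) at the end (`u = 1`): `h (1, R m) = F (1/2, 1/5 • R m) = F (nu m)` for `m.1 ≤ k`, and `η (1 - ω m)` for `m.1 ≥ k`.  The path `x ↦ η x`, `x = 1 - ω ∈ [0,1]`, from `y₀ = F (bar (73/100))` to `F foot0` is homotopic rel ends, off `F '' sph 1`, to `x ↦ F (bar (73/100 - x (73/100 - 1/5)))`: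
`η` is homotopic to (outer bar from `73/100` to `3/5`) * (back) * `η`, i.e. to (outer bar) * `ζ` (reparametrized: use the family `ζ'_v`, `v ∈ [0,1]`, of paths: outer bar from `73/100` to `73/100 - v 13/100`, back, then `η`), `ζ` is homotopic to the inner bar by `P`, and the concatenation of the outer
bar and the inner bar is a reparametrization of the bar.  Apply this homotopy to the part `m.1 ≥ k`; the other part stays fixed.
The result is `F (nu m)` for all `m` (`nu m = bar (73/100 m.1)` for `m.1 ≥ k`).  All values are off `F '' sph 1`; at `m = (1, 0)` always `y₀` (`η 0`, `x = 0`). -/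
def StTOPG : Prop :=
  ∀ (F : R4 → R4) (h : ℝ × R3 → R4) (ζ : ℝ → R4) (P : ℝ × ℝ → R4), EmbOn I4 F SP →
    ContinuousOn h (Icc (0 : ℝ) 1 ×ˢ S2) → (∀ m ∈ S2, h (1, m) = F (1 / 2, (1 / 5 : ℝ) • m)) →
    h (0, (1, 0)) = bp F → (∀ u ∈ Icc (0 : ℝ) 1, ∀ m ∈ S2, h (u, m) ∉ F '' sph 1) →
    (∀ τ ∈ Icc (0 : ℝ) (1 / 2), ζ τ = F (bar (3 / 5 + 13 / 50 * τ))) →
    (∀ τ ∈ Icc (1 / 2 : ℝ) 1, ζ τ = h (2 * τ - 1, (1, 0))) →
    ContinuousOn P (Icc (0 : ℝ) 1 ×ˢ Icc (0 : ℝ) 1) → (∀ τ ∈ Icc (0 : ℝ) 1, P (0, τ) = ζ τ) →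
    (∀ τ ∈ Icc (0 : ℝ) 1, P (1, τ) = F (bar (3 / 5 - 2 / 5 * τ))) →
    (∀ u ∈ Icc (0 : ℝ) 1, P (u, 0) = F (bar (3 / 5))) →
    (∀ u ∈ Icc (0 : ℝ) 1, P (u, 1) = F foot0) →
    (∀ u ∈ Icc (0 : ℝ) 1, ∀ τ ∈ Icc (0 : ℝ) 1, P (u, τ) ∉ F '' sph 1) →
    ∃ H : ℝ × R3 → R4, ContinuousOn H (Icc (0 : ℝ) 1 ×ˢ S2) ∧ (∀ m ∈ S2, H (0, m) = h (0, m)) ∧
      (∀ m ∈ S2, H (1, m) = F (nu m)) ∧ (∀ u ∈ Icc (0 : ℝ) 1, H (u, (1, 0)) = bp F) ∧
      ∀ u ∈ Icc (0 : ℝ) 1, ∀ m ∈ S2, H (u, m) ∉ F '' sph 1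

/-- FREE (helper18).  Choosing the bar (from `StBAR`, `StMain2`, `StTOPG`). -/
def StFREE : Prop :=
  ∀ (F F' : R4 → R4) (V : Set R4) (W φ' : R4 → R4) (h : ℝ × R3 → R4), IsW W → EmbOn I4 F SP →
    EmbOn I4 F' SP → IsOpen V → sph 1 ∪ neckE ⊆ V → EqOn F F' V → Thin I4 F' φ' →
    ContinuousOn h (Icc (0 : ℝ) 1 ×ˢ S2) → (∀ m ∈ S2, h (1, m) = F' (1 / 2, (1 / 5 : ℝ) • m)) →
    h (0, (1, 0)) = bp F → (∀ u ∈ Icc (0 : ℝ) 1, ∀ m ∈ S2, h (u, m) ∉ F '' sph 1) →
    ∃ (F'' φ'' : R4 → R4) (V'' : Set R4) (H : ℝ × R3 → R4), EmbOn I4 F'' SP ∧ IsOpen V'' ∧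
      sph 1 ∪ neckE ⊆ V'' ∧ EqOn F F'' V'' ∧ Thin I4 F'' φ'' ∧
      (CIsot I4 φ'' φ' ∨ CIsot I4 φ'' (fun x => W (φ' x))) ∧
      ContinuousOn H (Icc (0 : ℝ) 1 ×ˢ S2) ∧ (∀ m ∈ S2, H (0, m) = h (0, m)) ∧
      (∀ m ∈ S2, H (1, m) = F'' (nu m)) ∧ (∀ u ∈ Icc (0 : ℝ) 1, H (u, (1, 0)) = bp F) ∧
      ∀ u ∈ Icc (0 : ℝ) 1, ∀ m ∈ S2, H (u, m) ∉ F '' sph 1

/-! ## the relation theorem in `R4` -/

/-- the square of a word in the based spheres `g i` (`g i : S2 → R4`, `g i (1,0) = y`) -/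
noncomputable def evS {n : ℕ} (y : R4) (g : Fin n → R3 → R4) : List (Fin n × Bool) → ℝ → ℝ → R4
  | [] => fun _ _ => y
  | (i, true) :: l => qcat (fun q s => g i (mm q s)) (evS y g l)
  | (i, false) :: l => qcat (fun q s => g i (mm (1 - q) s)) (evS y g l)

/-- the product of diffeomorphisms `φ i` and their inverses `φ' i` along a word -/
def evD {M : Type} {n : ℕ} (φ φ' : Fin n → M → M) : List (Fin n × Bool) → M → M
  | [] => fun x => x
  | (i, true) :: l => fun x => evD φ φ' l (φ i x)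
  | (i, false) :: l => fun x => evD φ φ' l (φ' i x)

/-- REL4 (helper18).  **The relation theorem in `R4`.**  `h i` is a free homotopy, off the fixed cuff, from a based sphere to the second cuff of the germ `Fi i`; if the word `l` in the
based spheres is null-homotopic off the fixed cuff, then the corresponding product of the classes is `1` or `W`. -/
def StREL4 : Prop :=
  ∀ (n : ℕ) (F : R4 → R4) (Fi φ φ' : Fin n → R4 → R4) (U : Set R4) (h : Fin n → ℝ × R3 → R4)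
    (W : R4 → R4) (l : List (Fin n × Bool)) (N : ℝ × ℝ × ℝ → R4), IsW W → EmbOn I4 F SP →
    (∀ i, EmbOn I4 (Fi i) SP) → IsOpen U → sph 1 ⊆ U → (∀ i, EqOn F (Fi i) U) →
    (∀ i, Thin I4 (Fi i) (φ i)) → (∀ i x, φ i (φ' i x) = x) → (∀ i x, φ' i (φ i x) = x) →
    (∀ i, ContinuousOn (h i) (Icc (0 : ℝ) 1 ×ˢ S2)) →
    (∀ i, ∀ m ∈ S2, h i (1, m) = Fi i (1 / 2, (1 / 5 : ℝ) • m)) →
    (∀ i, h i (0, (1, 0)) = F (bar (1 / 2))) →
    (∀ i, ∀ u ∈ Icc (0 : ℝ) 1, ∀ m ∈ S2, h i (u, m) ∉ F '' sph 1) →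
    ContinuousOn N (Icc (0 : ℝ) 1 ×ˢ (Icc (0 : ℝ) 1 ×ˢ Icc (9 / 20 : ℝ) (11 / 20))) →
    (∀ q ∈ Icc (0 : ℝ) 1, ∀ s ∈ Icc (9 / 20 : ℝ) (11 / 20),
      N (0, q, s) = evS (F (bar (1 / 2))) (fun i m => h i (0, m)) l q s ∧
        N (1, q, s) = F (bar (1 / 2))) →
    (∀ u ∈ Icc (0 : ℝ) 1, ∀ q ∈ Icc (0 : ℝ) 1, ∀ s ∈ Icc (9 / 20 : ℝ) (11 / 20),
      N (u, q, s) ∉ F '' sph 1 ∧
        ((q = 0 ∨ q = 1 ∨ s = 9 / 20 ∨ s = 11 / 20) → N (u, q, s) = F (bar (1 / 2)))) →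
    CIsot I4 (evD φ φ' l) (fun x => x) ∨ CIsot I4 (evD φ φ' l) W

end Pool.Agent.Helper18.BI.R


end

/-! ## Helper18.BI.R.StR4 -/

section

/-!
# Project BI, stage 4 (R): the homomorphism, part 2 (transfer to the 4-sphere)

Statements (as `Prop` definitions) with complete proofs in the docstrings.  A module `M_X` proves
`theorem m_X : StX` (possibly from other statements as hypotheses `(h : StY)`).
-/

set_option autoImplicit false

open scoped Manifold ContDiff Topology ComplexConjugate unitInterval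
open Set Pool.Agent.Helper65.Barb Pool.Agent.Helper18.BI
open Pool.Agent.Helper70.BI (I4 IsW)
open Pool.Agent.Helper18.BI.H (IsW4 mm)
open Pool.Agent.Helper18.FinR (sqr Pi2 cls FreeClass UpTo)

namespace Pool.Agent.Helper18.BI.R

/-! ## squares and spheres -/

/-- the parametrization of the unit sphere by the square -/
noncomputable def mq (x y : ℝ) : R3 :=
  (1 - 2 * Real.sin (Real.pi * x) ^ 2 * Real.sin (Real.pi * y) ^ 2,
    ⟨-(2 * Real.sin (Real.pi * x) * Real.sin (Real.pi * y) * Real.cos (Real.pi * y)),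
      2 * Real.sin (Real.pi * x) * Real.cos (Real.pi * x) * Real.sin (Real.pi * y) ^ 2⟩)

/-- MODULE MQ.  Trigonometry.
Proof.  (1) `mm q s = zarc (sin π q) (chi s') q s'`, `s' = 10 s - 9/2`, `phi s' = 2 π σ`, `σ = step s'`, `chi s' = (1 - cos (2 π σ))/2 = sin² (π σ)`, `cos (2 π q) - 1 = -2 sin² (π q)`, `sin (2 π q) = 2 sin (π q) cos (π q)`,
`sin (2 π σ) = 2 sin (π σ) cos (π σ)` (`zarc`, `chi`, `phi` in `Pool/Agent/Helper27/BI/ChDefs.lean`).  (2) polynomial identity with `sin² + cos² = 1`.  (3) `sin 0 = sin π = 0`.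
(4) Let `m = (m₁, (m₂, m₃)) ∈ S2`.  If `m₁ = 1` then `m = (1, 0) = mq 0 0`.  Otherwise put `c = (1 - m₁)/2 ∈ (0, 1]`.  Wanted `a = sin (π x) > 0`, `b = sin (π y) > 0`, `A = cos (π x)`, `B = cos (π y)` with `a² b² = c`, `-2 a b B = m₂`, `2 a A b² = m₃`.
Then `(a B)² = a² - c`, so `m₂² = 4 c (a² - c) / a² * ..`: directly: put `r = √(c + m₂²/(4 c) ..)`; explicit solution: `a b = √c`, so `B = -m₂/(2 √c)`, `|B| ≤ 1`: `m₂² ≤ 1 - m₁² = 4 c (1 - c) < 4 c` (`1 - m₁² = (1-m₁)(1+m₁) = 2c (2 - 2c)`), so `|B| < 1`,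
`y = arccos B / π ∈ (0, 1)`, `b = √(1 - B²) > 0`, `a = √c / b`; `a² = c/(1 - B²) = 4c²/(4c - m₂²)`, `≤ 1` iff `4 c² ≤ 4 c - m₂²` iff `m₂² ≤ 4 c (1 - c)`: true.  `A = m₃/(2 √c b)`; `A² + a² = (m₃²/(4c) + c)/b²` and `b² = 1 - m₂²/(4c)`, so it is `1` iff `m₃² + 4 c² = 4 c - m₂²` iff
`m₂² + m₃² = 4 c (1 - c) = 1 - m₁²`: true.  `x = arccos A / π ∈ [0,1]`, `sin (π x) = √(1 - A²) = a`.
(5) smooth (`ContDiff`), hence Lipschitz on the compact convex square (`ContDiff` implies `LipschitzOnWith` on compact convex sets: the derivative is bounded; e.g. `Convex.lipschitzOnWith_of_nnnorm_fderiv_le`), or by hand. -/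
def StMQ : Prop :=
  (∀ q s, mm q s = mq q (step (10 * s - 9 / 2))) ∧ (∀ x y, mq x y ∈ S2) ∧
  (∀ x y, (x = 0 ∨ x = 1 ∨ y = 0 ∨ y = 1) → mq x y = (1, 0)) ∧
  (∀ m ∈ S2, ∃ x ∈ Icc (0 : ℝ) 1, ∃ y ∈ Icc (0 : ℝ) 1, mq x y = m) ∧
  ∃ L : NNReal, LipschitzOnWith L (fun z : ℝ × ℝ => mq z.1 z.2) (Icc 0 1 ×ˢ Icc 0 1)

/-- concatenation of squares in a space `M` -/
noncomputable def qcatM {M : Type} (f f' : ℝ → ℝ → M) (q s : ℝ) : M :=
  if q ≤ 1 / 2 then f (2 * q) s else f' (2 * q - 1) s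

/-- the square of a word in the based spheres `g i` (`g i : S2 → M`, `g i (1,0) = y`) -/
noncomputable def evM {M : Type} {n : ℕ} (y : M) (g : Fin n → R3 → M) :
    List (Fin n × Bool) → ℝ → ℝ → M
  | [] => fun _ _ => y
  | (i, true) :: l => qcatM (fun q s => g i (mm q s)) (evM y g l)
  | (i, false) :: l => qcatM (fun q s => g i (mm (1 - q) s)) (evM y g l)

/-- MODULE EVM.  Squares of words: composition with a map, values on the boundary, joint continuity, Lipschitz continuity.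
Proof.  All by induction on the word.  (2) `mm_edge`, `mm_ends` (`Pool/Agent/Helper18/BI/H/EndR4.lean`): `mm q s = (1, 0)` for `q ∈ {0,1}` or `s ≤ 9/20` or `11/20 ≤ s`.
(3) The square is `[0,1/2] ∪ [1/2,1]`, on the first part the function is `k i (τ, mm (2 q) s)` (`mm` is continuous with values in `S2`: `continuous_mm`, `mm_S2` of `Pool/Agent/Helper18/BI/R/M_REL4.lean`), on the second the composition of the inductive function with `(τ, q, s) ↦ (τ, 2 q - 1, s)`; at `q = 1/2` both are `y`.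
`ContinuousOn.union_of_isClosed`-type argument, as for `k` in `M_REL4.lean` (here `C ×ˢ (Icc 0 1 ×ˢ univ)` is the union of `C ×ˢ (Icc 0 (1/2) ×ˢ univ)` and `C ×ˢ (Icc (1/2) 1 ×ˢ univ)`, relatively closed in it; if `C` is not closed use `ContinuousOn.if` or the subtype; you may assume `IsClosed C`).
(4) `mm` is Lipschitz on `[0,1] ×ˢ [9/20,11/20]` (smooth, compact convex), `g i` is Lipschitz on `S2`; two adjacent rectangles: for `z` in the first and `z'` in the second take the point of the common edge on the same level `s` as `z`: `dist (f z) (f z') ≤ L dist z p + L dist p z'`, `p = (1/2, s)`,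
`dist z p ≤ dist z z'`, `dist p z' ≤ dist z z'` (sup metric). -/
def StEVM : Prop :=
  (∀ (M M' : Type) (n : ℕ) (Θ : M → M') (y : M) (g : Fin n → R3 → M) (l : List (Fin n × Bool))
    (q s : ℝ), evM (Θ y) (fun i m => Θ (g i m)) l q s = Θ (evM y g l q s)) ∧
  (∀ (M : Type) (n : ℕ) (y : M) (g : Fin n → R3 → M) (l : List (Fin n × Bool)) (q s : ℝ),
    (∀ i, g i (1, 0) = y) → (q = 0 ∨ q = 1 ∨ s ≤ 9 / 20 ∨ 11 / 20 ≤ s) → evM y g l q s = y) ∧
  (∀ (T M : Type) [TopologicalSpace T] [TopologicalSpace M] (C : Set T) (n : ℕ) (y : M)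
    (k : Fin n → T × R3 → M) (l : List (Fin n × Bool)), IsClosed C →
    (∀ i, ContinuousOn (k i) (C ×ˢ S2)) → (∀ i, ∀ τ ∈ C, k i (τ, (1, 0)) = y) →
    ContinuousOn (fun z : T × ℝ × ℝ => evM y (fun i m => k i (z.1, m)) l z.2.1 z.2.2)
      (C ×ˢ (Icc (0 : ℝ) 1 ×ˢ univ))) ∧
  ∀ (M : Type) [PseudoMetricSpace M] (n : ℕ) (y : M) (g : Fin n → R3 → M)
    (l : List (Fin n × Bool)), (∀ i, ∃ L : NNReal, LipschitzOnWith L (g i) S2) →
    (∀ i, g i (1, 0) = y) →
    ∃ L : NNReal, LipschitzOnWith L (fun z : ℝ × ℝ => evM y g l z.1 z.2)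
      (Icc (0 : ℝ) 1 ×ˢ Icc (9 / 20 : ℝ) (11 / 20))

/-! ## Lipschitz approximation -/

/-- MODULE LIP (helper34).  Relative Lipschitz approximation in the 4-sphere, off a compact set.
Proof.  (i) For a compact metric space `P` (here a compact subset) and `f : P → ℝ` continuous, `ρ > 0`, there is a Lipschitz `e` with `|f - e| ≤ ρ` (`e x = inf_y (f y + k dist x y)`, or Stone-Weierstrass).  (ii) relative: `P₀ ⊆ P`, `f` Lipschitz on `P₀`; `g₀` Lipschitz extension of `f|P₀` (`LipschitzOnWith.extend_real`),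
`e` Lipschitz with `|f - g₀ - e| ≤ ρ/2`, `τ x = sign x * max (|x| - ρ/2) 0` (Lipschitz, `|τ x - x| ≤ ρ/2`, `0` for `|x| ≤ ρ/2`): `g₀ + τ ∘ e` is Lipschitz, within `ρ` of `f` on `P` and equal to `f` on `P₀`.
(iii) The five coordinates of `f : P → S4 ⊆ R⁵`: `v : P → R⁵` Lipschitz, `‖v - f‖ ≤ ρ` on `P`, `v = f` on `P₀`.  `ρ ≤ 1/4` and `4 ρ ≤ dist (f x) y` for `x ∈ P`, `y ∈ K`.  `w_u x = (1 - u) f x + u v x` has norm `≥ 3/4`, `H (u, x) = w_u x / ‖w_u x‖` (as a point of `S4`), within `2 ρ` of `f x`; `g = H (1, ·)` Lipschitz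
(`z ↦ z/‖z‖` is Lipschitz on `‖z‖ ≥ 3/4`). -/
def StLIP : Prop :=
  ∀ (X : Type) [MetricSpace X] (P P₀ : Set X) (K : Set S4) (f : X → S4), IsCompact P →
    P₀ ⊆ P → IsCompact K → ContinuousOn f P → (∃ L : NNReal, LipschitzOnWith L f P₀) →
    (∀ x ∈ P, f x ∉ K) →
    ∃ (g : X → S4) (H : ℝ × X → S4), (∃ L : NNReal, LipschitzOnWith L g P) ∧
      ContinuousOn H (Icc (0 : ℝ) 1 ×ˢ P) ∧ (∀ x ∈ P, H (0, x) = f x ∧ H (1, x) = g x) ∧
      (∀ u ∈ Icc (0 : ℝ) 1, ∀ x ∈ P, H (u, x) ∉ K) ∧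
      ∀ u ∈ Icc (0 : ℝ) 1, ∀ x ∈ P₀, H (u, x) = f x

/-- MODULE DIM (helper34).  Lipschitz images of three-dimensional sets have empty interior.
Proof.  `dimH` of the image of a subset of `ℝ × ℝ × ℝ` is `≤ 3` (`LipschitzOnWith.dimH_image_le`, `dimH` of a subset of a three-dimensional space; Mathlib: `Real.dimH_of_nonempty_interior`, `dimH_univ_eq_finrank`).  An open nonempty subset `O` of `S4` contained in the image: the map `x ↦ x/‖x‖` (or a chart: stereographic projection restricted to a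
small closed ball of a chart domain is Lipschitz with values in `EuclideanSpace ℝ (Fin 4)`, smooth) maps `O` onto a set containing an open set of a four-dimensional space, of `dimH = 4`; smooth maps are locally Lipschitz, so `dimH (chart '' O) ≤ dimH O ≤ 3`: a contradiction.
(Alternatively as in `M_SMH.lean` with the cone over the image in `R⁵`: `(r, z) ↦ r • g z` is Lipschitz on bounded sets, `dimH ≤ 4 < 5`.) -/
def StDIM : Prop :=
  ∀ (g : ℝ × ℝ × ℝ → S4) (P : Set (ℝ × ℝ × ℝ)), IsCompact P →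
    (∃ L : NNReal, LipschitzOnWith L g P) → IsCompact (g '' P) ∧ interior (g '' P) = ∅

/-- the box of the null-homotopies -/
def box : Set (ℝ × ℝ × ℝ) := Icc (0 : ℝ) 1 ×ˢ (Icc (0 : ℝ) 1 ×ˢ Icc (9 / 20 : ℝ) (11 / 20))

/-- `N` is a null-homotopy, off `A`, of the square of the word `l` in the spheres `g`. -/
def NullOff {M : Type} [TopologicalSpace M] {n : ℕ} (A : Set M) (y : M) (g : Fin n → R3 → M)
    (l : List (Fin n × Bool)) (N : ℝ × ℝ × ℝ → M) : Prop :=
  ContinuousOn N box ∧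
    (∀ q ∈ Icc (0 : ℝ) 1, ∀ s ∈ Icc (9 / 20 : ℝ) (11 / 20),
      N (0, q, s) = evM y g l q s ∧ N (1, q, s) = y) ∧
    ∀ u ∈ Icc (0 : ℝ) 1, ∀ q ∈ Icc (0 : ℝ) 1, ∀ s ∈ Icc (9 / 20 : ℝ) (11 / 20),
      N (u, q, s) ∉ A ∧ ((q = 0 ∨ q = 1 ∨ s = 9 / 20 ∨ s = 11 / 20) → N (u, q, s) = y)

/-- `h` is a free homotopy, off `A`, from spheres with `(1, 0) ↦ y` to the spheres `b i`. -/
def FreeOff {M : Type} [TopologicalSpace M] {n : ℕ} (A : Set M) (y : M) (b : Fin n → R3 → M)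
    (h : Fin n → ℝ × R3 → M) : Prop :=
  (∀ i, ContinuousOn (h i) (Icc (0 : ℝ) 1 ×ˢ S2)) ∧ (∀ i, ∀ m ∈ S2, h i (1, m) = b i m) ∧
    (∀ i, h i (0, (1, 0)) = y) ∧ ∀ i, ∀ u ∈ Icc (0 : ℝ) 1, ∀ m ∈ S2, h i (u, m) ∉ A

/-- MODULE REP.  Free homotopies and null-homotopies can be replaced by ones with small images.
Proof (uses `StLIP`, `StDIM`, `StMQ`, `StEVM`; `isCompact_S2` of `M_REL4.lean`).
(1) `StLIP` for `X = R3`, `P = S2`, `P₀ = {(1, 0)}`, `f = h i (0, ·)`, `K = A`: `k i : ℝ × R3 → S4`, `k i (0, m) = h i (0, m)`, `k i (1, ·) = g' i` Lipschitz, `k i (u, (1, 0)) = y`, off `A`.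
(2) `h'' i (u, m) = k i (1 - 2 u, m)` for `u ≤ 1/2`, `h i (2 u - 1, m)` for `1/2 ≤ u`: continuous on `[0,1] × S2`, off `A`, `h'' i (0, ·) = g' i`, `h'' i (1, ·) = b i`.  `StLIP` for `X = ℝ × R3`, `P = [0,1] × S2`, `P₀ = {0, 1} × S2` (`h''` is Lipschitz there: `g' i` and `b i` are Lipschitz, points with `u = 0` and
`u = 1` have distance `≥ 1` and `dist ≤ 2` in `S4`): `h' i = g` Lipschitz on `P` with the same values on `P₀`, off `A`.
`interior (h' i '' P) = ∅`: `P` is the image of `[0,1]³` under the Lipschitz map `(u, x, y) ↦ (u, mq x y)` (`StMQ` (4), (5)); `StDIM`.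
(3) `N'' (u, q, s) = evM y (fun i m => k i (1 - 2 u, m)) l q s` for `u ≤ 1/2`, `N (2 u - 1, q, s)` for `1/2 ≤ u`: continuous on `box` (`StEVM` (3) with `T = ℝ`, `C = [0,1]`), off `A` (by `StEVM` (2),(3) or: its values are `y` or values of the `k i`; induction), boundary values `y`, `N'' (0, ..) = evM y g' l`.
`StLIP` for `X = ℝ × ℝ × ℝ`, `P = box`, `P₀` = the part of `box` with `u = 0` or `u = 1` or `q = 0` or `q = 1` or `s = 9/20` or `s = 11/20`: `N''` is Lipschitz on `P₀`: on the face `u = 0` by `StEVM` (4) (constant `L`), it is `y` on all the other faces; for `z = (0, q, s)` and `z'` on a face `q' = 0` (or `1`, or `s' = ..`)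
the point `p = (0, q', s')` has `N'' p = y` and `dist z p ≤ dist z z'`; for `z'` with `u' = 1` `dist (N'' z) y ≤ 2 ≤ 2 dist z z'`.  `N' = g`; `StDIM`. -/
def StREP : Prop :=
  ∀ (n : ℕ) (A : Set S4) (y : S4) (b : Fin n → R3 → S4) (h : Fin n → ℝ × R3 → S4)
    (l : List (Fin n × Bool)) (N : ℝ × ℝ × ℝ → S4), IsCompact A →
    (∀ i, ∃ L : NNReal, LipschitzOnWith L (b i) S2) → FreeOff A y b h →
    NullOff A y (fun i m => h i (0, m)) l N →
    ∃ (h' : Fin n → ℝ × R3 → S4) (N' : ℝ × ℝ × ℝ → S4), FreeOff A y b h' ∧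
      NullOff A y (fun i m => h' i (0, m)) l N' ∧
      (∀ i, interior (h' i '' (Icc (0 : ℝ) 1 ×ˢ S2)) = ∅) ∧ interior (N' '' box) = ∅

/-- MODULE WRD.  A relation in the second homotopy group gives a null-homotopy of a square.
Proof.  `l` by induction: `G l : GenLoop (Fin 2) X y₀` with `G [] = const`, `G ((i, true) :: l) = transAt 0 (f i) (G l)`, `G ((i, false) :: l) = transAt 0 (symmAt 0 (f i)) (G l)`.
(a) `⟦G l⟧ = (l.map ..).prod`: `HomotopyGroup.mul_spec : ⟦p⟧ * ⟦q⟧ = ⟦transAt i q p⟧`, `HomotopyGroup.inv_spec`, `HomotopyGroup.one_def`; the factors are in the other order, but the group is commutative (`HomotopyGroup.commGroup`; `Fin 2` is nontrivial).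
(b) for `q ∈ [0,1]`: `evM y₀ g l q s = G l (![q, step (10 s - 9/2)])` (as points of the unit interval): `mm q s = mq q (step (10 s - 9/2))` (`StMQ` (1)), `g i (mq x y) = f i ![x, y]`, induction with the formulas defining `transAt`, `symmAt` (`Function.update t 0 ..`).
(c) `⟦G l⟧ = 1 = ⟦const⟧` gives (`Quotient.exact`) `Homotopic (G l) const`: `H : HomotopyRel ..`; `N (u, q, s) = H (u, ![q, step (10 s - 9/2)])` with `Set.projIcc 0 1 zero_le_one` applied to `u`, `q` (and to `step ..`); it is continuous on all of `ℝ³`.  Boundary: `q = 0`, `q = 1`, `s = 9/20` (`step 0 = 0`), `s = 11/20` (`step 1 = 1`):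
`H (u, t) = G l t = y₀` for `t ∈ Cube.boundary` (`HomotopyRel.eq_fst`). -/
def StWRD : Prop :=
  ∀ (A : Set S4) (y₀ : {x : S4 // x ∉ A}) (n : ℕ)
    (f : Fin n → GenLoop (Fin 2) {x : S4 // x ∉ A} y₀) (g : Fin n → R3 → S4)
    (l : List (Fin n × Bool)), (∀ i t, g i (sqr t) = f i t) →
    (l.map fun p => if p.2 then cls (f p.1) else (cls (f p.1))⁻¹).prod = 1 →
    ∃ N : ℝ × ℝ × ℝ → S4, NullOff A (y₀ : S4) g l N

/-! ## the relation theorem in the 4-sphere -/

/-- The relation theorem in the 4-sphere. -/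
def RelS (W : S4 → S4) : Prop :=
  ∀ (n : ℕ) (B : R4 → S4) (Bi : Fin n → R4 → S4) (φ φ' : Fin n → S4 → S4) (U : Set R4)
    (A : Set S4) (y₀ : {x : S4 // x ∉ A}) (z : Fin n → Pi2 A y₀) (l : List (Fin n × Bool)),
    EmbOn (𝓡 4) B SP → (∀ i, EmbOn (𝓡 4) (Bi i) SP) → IsOpen U → sph 1 ⊆ U →
    (∀ i, EqOn B (Bi i) U) → (∀ i, Thin (𝓡 4) (Bi i) (φ i)) → (∀ i x, φ i (φ' i x) = x) →
    (∀ i x, φ' i (φ i x) = x) → A = B '' sph 1 → (y₀ : S4) = B (1 / 2, (1 / 2, 0)) →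
    (∀ i, FreeClass A y₀ (Bi i) (z i)) →
    (l.map fun p => if p.2 then z p.1 else (z p.1)⁻¹).prod = 1 →
    UpTo W (evD φ φ' l) (fun x => x)

/-- `W'` is the transport of `W` by all charts -/
def IsPush (W : R4 → R4) (W' : S4 → S4) : Prop :=
  ∀ c : R4 → S4, EmbOn (𝓡 4) c univ → CIsot (𝓡 4) (imp c univ W) W'

/-- RELS (helper18). -/
def StRelS : Prop :=
  ∀ W : R4 → R4, IsW W → ∃ W' : S4 → S4, IsW4 W' ∧ IsPush W W' ∧ RelS W'

/-! ## the parallel copy -/

/-- MODULE PAR4 (helper27).  A germ whose moved cuff is a parallel copy of the fixed cuff, of class `1` or `W`. -/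
def StPAR4 : Prop :=
  ∀ (F W : R4 → R4), IsW W → EmbOn I4 F SP → ∀ r > 0, ∃ η ∈ Ioo (0 : ℝ) r,
    ∃ (F' φ' : R4 → R4) (U : Set R4), EmbOn I4 F' SP ∧ IsOpen U ∧ sph 1 ⊆ U ∧ EqOn F F' U ∧
      Thin I4 F' φ' ∧ (CIsot I4 φ' (fun x => x) ∨ CIsot I4 φ' W) ∧
      ∀ p ∈ sph 0, F' p = F (p.1 + η, (p.2.1 + 1, p.2.2))

end Pool.Agent.Helper18.BI.R


end

/-! ## Helper34.BI.UNK2 -/

section

/-!
# Project BI, module UNK, part 2: logarithm and null-homotopy off the standard unknotted sphere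
-/

set_option autoImplicit false

open scoped Topology
open Set Pool.Agent.Helper65.Barb Pool.Agent.Helper18.BI Pool.Agent.Helper18.BI.R

namespace Pool.Agent.Helper34.BI.UNK2

/-- radial retraction to the unit disc -/
noncomputable def rt (z : ℂ) : ℂ := (max 1 ‖z‖)⁻¹ • z

theorem rt_cont : Continuous rt := by
  unfold rt
  have hc : Continuous fun z : ℂ => max 1 ‖z‖ := continuous_const.max continuous_norm
  refine Continuous.smul (hc.inv₀ ?_) continuous_id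
  intro z
  have : (1 : ℝ) ≤ max 1 ‖z‖ := le_max_left _ _
  linarith

theorem rt_le (z : ℂ) : ‖rt z‖ ≤ 1 := by
  unfold rt
  have h1 : (1 : ℝ) ≤ max 1 ‖z‖ := le_max_left _ _
  have h2 : ‖z‖ ≤ max 1 ‖z‖ := le_max_right _ _
  rw [norm_smul, norm_inv, Real.norm_of_nonneg (by linarith), ← div_eq_inv_mul]
  exact (div_le_one (by linarith)).mpr h2

theorem rt_eq {z : ℂ} (hz : ‖z‖ ≤ 1) : rt z = z := by
  unfold rt
  rw [max_eq_left hz, inv_one, one_smul]

/-- the two hemispheres -/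
noncomputable def hs (σ : ℝ) (z : ℂ) : R3 := (σ * Real.sqrt (1 - ‖rt z‖ ^ 2), rt z)

theorem hs_cont (σ : ℝ) : Continuous (hs σ) := by
  unfold hs
  refine Continuous.prodMk ?_ rt_cont
  exact continuous_const.mul (Real.continuous_sqrt.comp
    (continuous_const.sub ((rt_cont.norm).pow 2)))

theorem nsqC (z : ℂ) : ‖z‖ ^ 2 = z.re ^ 2 + z.im ^ 2 := by
  rw [← Complex.normSq_eq_norm_sq, Complex.normSq_apply]
  ring

theorem mem_S2 {m : R3} : m ∈ S2 ↔ m.1 ^ 2 + m.2.re ^ 2 + m.2.im ^ 2 = 1 := Iff.rfl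

theorem hs_mem {σ : ℝ} (hσ : σ ^ 2 = 1) (z : ℂ) : hs σ z ∈ S2 := by
  rw [mem_S2]
  unfold hs
  have h1 := rt_le z
  have h2 : 0 ≤ ‖rt z‖ := norm_nonneg _
  have h3 : 0 ≤ 1 - ‖rt z‖ ^ 2 := by nlinarith
  show (σ * Real.sqrt (1 - ‖rt z‖ ^ 2)) ^ 2 + (rt z).re ^ 2 + (rt z).im ^ 2 = 1
  rw [mul_pow, Real.sq_sqrt h3, hσ, add_assoc, ← nsqC]
  ring

theorem lift_log (g : ℂ → ℂ) (hg : Continuous g) (h0 : ∀ z, g z ≠ 0) :
    ∃ L : ℂ → ℂ, Continuous L ∧ ∀ z, Complex.exp (L z) = g z := by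
  obtain ⟨L, ⟨-, hL⟩, -⟩ := Complex.isCoveringMapOn_exp.existsUnique_continuousMap_lifts
    (⟨g, hg⟩ : C(ℂ, ℂ)) (a₀ := 0) (e₀ := Complex.log (g 0)) (Complex.exp_log (h0 0))
    (fun z => h0 z)
  exact ⟨L, L.continuous, fun z => congrFun hL z⟩

theorem log_S2 (F : R3 → ℂ) (hF : ContinuousOn F S2) (h0 : ∀ m ∈ S2, F m ≠ 0) :
    ∃ l : R3 → ℂ, ContinuousOn l S2 ∧ ∀ m ∈ S2, Complex.exp (l m) = F m := by
  have s1 : (1 : ℝ) ^ 2 = 1 := by norm_num
  have s2 : (-1 : ℝ) ^ 2 = 1 := by norm_num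
  obtain ⟨Lp, hLp, hLpe⟩ := lift_log (fun z => F (hs 1 z))
    (hF.comp_continuous (hs_cont 1) (hs_mem s1)) (fun z => h0 _ (hs_mem s1 z))
  obtain ⟨Lm, hLm, hLme⟩ := lift_log (fun z => F (hs (-1) z))
    (hF.comp_continuous (hs_cont (-1)) (hs_mem s2)) (fun z => h0 _ (hs_mem s2 z))
  -- the difference on the circle
  have hcirc : ∀ z ∈ Metric.sphere (0 : ℂ) 1, Complex.exp (Lp z - Lm z) = 1 := by
    intro z hz
    have hz1 : ‖z‖ = 1 := by simpa using hz
    have e : hs 1 z = hs (-1) z := by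
      unfold hs
      rw [rt_eq hz1.le, hz1]
      norm_num
    rw [Complex.exp_sub, hLpe, hLme, e, div_self (h0 _ (hs_mem s2 z))]
  have hpre : IsPreconnected (Metric.sphere (0 : ℂ) 1) :=
    isPreconnected_sphere (by rw [Complex.rank_real_complex]; norm_num) 0 1
  have hconst : ∀ z ∈ Metric.sphere (0 : ℂ) 1, Lp z - Lm z = Lp 1 - Lm 1 := by
    intro z hz
    have h1 : (1 : ℂ) ∈ Metric.sphere (0 : ℂ) 1 := by simp
    have hdisc : DiscreteTopology (Complex.exp ⁻¹' {(1 : ℂ)} : Set ℂ) :=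
      (Complex.isCoveringMapOn_exp (1 : ℂ) (by simp)).1
    refine hpre.constant_of_mapsTo (T := (Complex.exp ⁻¹' {(1 : ℂ)} : Set ℂ))
      (f := fun z => Lp z - Lm z) ⟨hdisc⟩ (hLp.sub hLm).continuousOn ?_ hz h1
    intro w hw
    exact hcirc w hw
  set κ : ℂ := Lp 1 - Lm 1 with hκ
  have hexpκ : Complex.exp κ = 1 := hcirc 1 (by simp)
  refine ⟨fun m => if 0 ≤ m.1 then Lp m.2 else Lm m.2 + κ, ?_, ?_⟩
  · rw [continuousOn_iff_continuous_domRestrict]
    have hc : Continuous fun x : ↥S2 => if (0 : ℝ) ≤ (x : R3).1 then Lp (x : R3).2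
        else Lm (x : R3).2 + κ := by
      refine Continuous.if_le ?_ ?_ ?_ ?_ ?_
      · fun_prop
      · fun_prop
      · fun_prop
      · fun_prop
      · intro x hx
        have hx2 := mem_S2.mp x.2
        rw [← hx] at hx2
        have hn : ‖(x : R3).2‖ ^ 2 = 1 := by rw [nsqC]; linarith
        have hn1 : ‖(x : R3).2‖ = 1 := by
          have := norm_nonneg (x : R3).2
          nlinarith
        have := hconst (x : R3).2 (by simpa using hn1)
        rw [← this]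
        ring
    exact hc
  · intro m hm
    have hm' := mem_S2.mp hm
    have hn : ‖m.2‖ ^ 2 = 1 - m.1 ^ 2 := by rw [nsqC]; linarith
    have hn1 : ‖m.2‖ ≤ 1 := by
      have := norm_nonneg m.2
      nlinarith [sq_nonneg m.1]
    show Complex.exp (if 0 ≤ m.1 then Lp m.2 else Lm m.2 + κ) = F m
    split_ifs with h
    · rw [hLpe]
      congr 1
      unfold hs
      rw [rt_eq hn1, hn, sub_sub_cancel, Real.sqrt_sq h, one_mul]
    · rw [Complex.exp_add, hexpκ, mul_one, hLme]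
      congr 1
      unfold hs
      rw [rt_eq hn1, hn, sub_sub_cancel, Real.sqrt_sq_eq_abs, abs_of_neg (not_le.mp h)]
      simp

/-- the coordinates of `sph 1` -/
noncomputable def ee (p : R4) : R3 := (5 : ℝ) • (p.2 - (1, 0))

noncomputable def ei (m : R3) : R4 := (1 / 2, (1, 0) + (1 / 5 : ℝ) • m)

theorem ee_mem {p : R4} (hp : p ∈ sph 1) : ee p ∈ S2 := by
  have h : (p.2.1 - 1) ^ 2 + p.2.2.re ^ 2 + p.2.2.im ^ 2 = 1 / 25 := hp.2
  rw [mem_S2]
  unfold ee
  simp only [Prod.smul_fst, Prod.smul_snd, Prod.fst_sub, Prod.snd_sub, sub_zero, Complex.smul_re,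
    Complex.smul_im, smul_eq_mul]
  nlinarith

theorem ei_mem {m : R3} (hm : m ∈ S2) : ei m ∈ sph 1 := by
  have hm' := mem_S2.mp hm
  refine ⟨rfl, ?_⟩
  show ((1 : ℝ) + ((1 / 5 : ℝ) • m).1 - 1) ^ 2 + ((0 : ℂ) + ((1 / 5 : ℝ) • m).2).re ^ 2 +
    ((0 : ℂ) + ((1 / 5 : ℝ) • m).2).im ^ 2 = 1 / 25
  simp only [Prod.smul_fst, Prod.smul_snd, zero_add, Complex.smul_re,
    Complex.smul_im, smul_eq_mul]
  nlinarith

theorem ei_ee {p : R4} (hp : p ∈ sph 1) : ei (ee p) = p := by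
  unfold ei ee
  rw [smul_smul]
  norm_num
  exact Prod.ext (by simpa using hp.1.symm) rfl

section

variable (v e : EuclideanSpace ℝ (Fin 5)) (k : R4 → S4) (l : R4 → ℂ)

/-- the unnormalised homotopy -/
noncomputable def ww (x : ℝ × R4) : EuclideanSpace ℝ (Fin 5) :=
  (Complex.exp (((1 - x.1 : ℝ) : ℂ) * l x.2)).re • v +
    (Complex.exp (((1 - x.1 : ℝ) : ℂ) * l x.2)).im • e +
    (1 - x.1) • ((k x.2 : EuclideanSpace ℝ (Fin 5)) -
      inner ℝ (k x.2 : EuclideanSpace ℝ (Fin 5)) v • v -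
      inner ℝ (k x.2 : EuclideanSpace ℝ (Fin 5)) e • e)

variable {v e}

theorem ww_v (hv : ‖v‖ = 1) (hve : inner ℝ v e = 0) (x : ℝ × R4) :
    inner ℝ (ww v e k l x) v = (Complex.exp (((1 - x.1 : ℝ) : ℂ) * l x.2)).re := by
  have hvv : inner ℝ v v = (1 : ℝ) := by rw [real_inner_self_eq_norm_sq, hv]; norm_num
  have hev : inner ℝ e v = (0 : ℝ) := by rw [real_inner_comm]; exact hve
  unfold ww
  simp only [inner_add_left, inner_sub_left, inner_smul_left, hvv, hev, RCLike.conj_to_real]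
  ring

theorem ww_e (he : ‖e‖ = 1) (hve : inner ℝ v e = 0) (x : ℝ × R4) :
    inner ℝ (ww v e k l x) e = (Complex.exp (((1 - x.1 : ℝ) : ℂ) * l x.2)).im := by
  have hee : inner ℝ e e = (1 : ℝ) := by rw [real_inner_self_eq_norm_sq, he]; norm_num
  unfold ww
  simp only [inner_add_left, inner_sub_left, inner_smul_left, hee, hve, RCLike.conj_to_real]
  ring

theorem ww_off (hv : ‖v‖ = 1) (he : ‖e‖ = 1) (hve : inner ℝ v e = 0) (x : ℝ × R4) :
    inner ℝ (ww v e k l x) v ≠ 0 ∨ inner ℝ (ww v e k l x) e ≠ 0 := by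
  rw [ww_v k l hv hve, ww_e k l he hve]
  by_contra hcon
  push Not at hcon
  exact Complex.exp_ne_zero _ (Complex.ext hcon.1 hcon.2)

theorem ww_ne (hv : ‖v‖ = 1) (he : ‖e‖ = 1) (hve : inner ℝ v e = 0) (x : ℝ × R4) :
    ww v e k l x ≠ 0 := by
  intro h
  have := ww_off k l hv he hve x
  rw [h] at this
  simp at this

end

theorem unk2 (v e : EuclideanSpace ℝ (Fin 5)) (hv : ‖v‖ = 1) (he : ‖e‖ = 1)
    (hve : inner ℝ v e = 0) (k : R4 → S4) (hk : ContinuousOn k (sph 1))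
    (hoff : ∀ p ∈ sph 1, inner ℝ (k p : EuclideanSpace ℝ (Fin 5)) v ≠ 0 ∨
      inner ℝ (k p : EuclideanSpace ℝ (Fin 5)) e ≠ 0) :
    ∃ (h : ℝ × R4 → S4) (y : S4), ContinuousOn h (Icc (0 : ℝ) 1 ×ˢ sph 1) ∧
      (∀ p ∈ sph 1, h (0, p) = k p) ∧ (∀ p ∈ sph 1, h (1, p) = y) ∧
      ∀ u ∈ Icc (0 : ℝ) 1, ∀ p ∈ sph 1,
        inner ℝ (h (u, p) : EuclideanSpace ℝ (Fin 5)) v ≠ 0 ∨
          inner ℝ (h (u, p) : EuclideanSpace ℝ (Fin 5)) e ≠ 0 := by
  let z : R4 → ℂ := fun p => ⟨inner ℝ (k p : EuclideanSpace ℝ (Fin 5)) v,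
    inner ℝ (k p : EuclideanSpace ℝ (Fin 5)) e⟩
  have hk' : ContinuousOn (fun p => (k p : EuclideanSpace ℝ (Fin 5))) (sph 1) :=
    continuous_subtype_val.comp_continuousOn hk
  have hz : ContinuousOn z (sph 1) := by
    have h1 : ContinuousOn (fun p => inner ℝ (k p : EuclideanSpace ℝ (Fin 5)) v) (sph 1) :=
      hk'.inner continuousOn_const
    have h2 : ContinuousOn (fun p => inner ℝ (k p : EuclideanSpace ℝ (Fin 5)) e) (sph 1) :=
      hk'.inner continuousOn_const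
    exact Complex.equivRealProdCLM.symm.continuous.comp_continuousOn (h1.prodMk h2)
  have hz0 : ∀ p ∈ sph 1, z p ≠ 0 := by
    intro p hp h
    rcases hoff p hp with h1 | h1
    · exact h1 (congrArg Complex.re h)
    · exact h1 (congrArg Complex.im h)
  have hei : Continuous ei := by
    unfold ei
    fun_prop
  have hee : Continuous ee := by
    unfold ee
    fun_prop
  obtain ⟨l₀, hl₀, hl₀e⟩ := log_S2 (fun m => z (ei m))
    (hz.comp hei.continuousOn (fun m hm => ei_mem hm)) (fun m hm => hz0 _ (ei_mem hm))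
  let l : R4 → ℂ := fun p => l₀ (ee p)
  have hl : ContinuousOn l (sph 1) := hl₀.comp hee.continuousOn (fun p hp => ee_mem hp)
  have hle : ∀ p ∈ sph 1, Complex.exp (l p) = z p := by
    intro p hp
    show Complex.exp (l₀ (ee p)) = z p
    rw [hl₀e _ (ee_mem hp), ei_ee hp]
  have hwc : ContinuousOn (ww v e k l) (Icc (0 : ℝ) 1 ×ˢ sph 1) := by
    have h1 : ContinuousOn (fun x : ℝ × R4 => l x.2) (Icc (0 : ℝ) 1 ×ˢ sph 1) :=
      hl.comp continuousOn_snd (fun x hx => hx.2)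
    have h2 : ContinuousOn (fun x : ℝ × R4 => (k x.2 : EuclideanSpace ℝ (Fin 5)))
        (Icc (0 : ℝ) 1 ×ˢ sph 1) :=
      hk'.comp continuousOn_snd (fun x hx => hx.2)
    have h3 : ContinuousOn (fun x : ℝ × R4 => Complex.exp (((1 - x.1 : ℝ) : ℂ) * l x.2))
        (Icc (0 : ℝ) 1 ×ˢ sph 1) := by
      refine Complex.continuous_exp.comp_continuousOn (ContinuousOn.mul ?_ h1)
      exact (Complex.continuous_ofReal.comp (by fun_prop : Continuous fun x : ℝ × R4 => 1 - x.1)).continuousOn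
    have h4 : ContinuousOn (fun x : ℝ × R4 => 1 - x.1) (Icc (0 : ℝ) 1 ×ˢ sph 1) := by fun_prop
    unfold ww
    refine ContinuousOn.add (ContinuousOn.add ?_ ?_) ?_
    · exact (Complex.continuous_re.comp_continuousOn h3).smul continuousOn_const
    · exact (Complex.continuous_im.comp_continuousOn h3).smul continuousOn_const
    · have h5 : ∀ a : EuclideanSpace ℝ (Fin 5), ContinuousOn (fun x : ℝ × R4 =>
          inner ℝ (k x.2 : EuclideanSpace ℝ (Fin 5)) a • a) (Icc (0 : ℝ) 1 ×ˢ sph 1) := by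
        intro a
        have h6 : ContinuousOn (fun x : ℝ × R4 =>
            inner ℝ (k x.2 : EuclideanSpace ℝ (Fin 5)) a) (Icc (0 : ℝ) 1 ×ˢ sph 1) :=
          h2.inner continuousOn_const
        exact h6.smul continuousOn_const
      exact h4.smul ((h2.sub (h5 v)).sub (h5 e))
  have hne := ww_ne k l hv he hve
  let h : ℝ × R4 → S4 := fun x => ⟨‖ww v e k l x‖⁻¹ • ww v e k l x, by
    rw [mem_sphere_zero_iff_norm, norm_smul, norm_inv, norm_norm]
    exact inv_mul_cancel₀ (norm_ne_zero_iff.mpr (hne x))⟩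
  refine ⟨h, ⟨v, by rw [mem_sphere_zero_iff_norm, hv]⟩, ?_, ?_, ?_, ?_⟩
  · rw [Topology.IsInducing.subtypeVal.continuousOn_iff]
    exact (hwc.norm.inv₀ (fun x _ => norm_ne_zero_iff.mpr (hne x))).smul hwc
  · intro p hp
    have hw : ww v e k l (0, p) = (k p : EuclideanSpace ℝ (Fin 5)) := by
      unfold ww
      simp only [sub_zero, Complex.ofReal_one, one_mul, one_smul, hle p hp]
      show inner ℝ (k p : EuclideanSpace ℝ (Fin 5)) v • v +
        inner ℝ (k p : EuclideanSpace ℝ (Fin 5)) e • e + _ = _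
      abel
    apply Subtype.ext
    show ‖ww v e k l (0, p)‖⁻¹ • ww v e k l (0, p) = _
    rw [hw]
    have : ‖(k p : EuclideanSpace ℝ (Fin 5))‖ = 1 := mem_sphere_zero_iff_norm.mp (k p).2
    rw [this, inv_one, one_smul]
  · intro p _
    have hw : ww v e k l (1, p) = v := by
      unfold ww
      simp
    apply Subtype.ext
    show ‖ww v e k l (1, p)‖⁻¹ • ww v e k l (1, p) = v
    rw [hw, hv, inv_one, one_smul]
  · intro u _ p _
    have hi : ‖ww v e k l (u, p)‖⁻¹ ≠ 0 := inv_ne_zero (norm_ne_zero_iff.mpr (hne (u, p)))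
    have := ww_off k l hv he hve (u, p)
    show inner ℝ (‖ww v e k l (u, p)‖⁻¹ • ww v e k l (u, p)) v ≠ 0 ∨
      inner ℝ (‖ww v e k l (u, p)‖⁻¹ • ww v e k l (u, p)) e ≠ 0
    rw [inner_smul_left, inner_smul_left]
    simp only [RCLike.conj_to_real]
    rcases this with h1 | h1
    · exact Or.inl (mul_ne_zero hi h1)
    · exact Or.inr (mul_ne_zero hi h1)

end Pool.Agent.Helper34.BI.UNK2


end
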