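import Pool.Agent.Helper65.Barb.Defs
import Pool.Agent.Helper70.BI.B.P18

/-!
# Project BI (MP_8e98f2_gt): collected modules, part 28

The contents of the modules
* Helper18.BI.H.EndR4

in one file, so that the whole proof builds in a short time.
-/

/-! ## Helper18.BI.H.EndR4 -/

section

/-!
# Project BI, stage 3 (H): the end, for `R4`
-/

set_option autoImplicit false

open scoped Manifold ContDiff Topology ComplexConjugate
open Set Filter Pool.Agent.Helper65.Barb Pool.Agent.Helper18.BI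
open Pool.Agent.Helper70.BI (I4 IsW MW StMain2 NearEq embOn_iff)
open Pool.Agent.Helper27.H (ArcD StArcH Q2 Fam2 seg)

namespace Pool.Agent.Helper18.BI.H

theorem mm_edge (q s : ℝ) (hs : s ≤ 9 / 20 ∨ 11 / 20 ≤ s) : mm q s = (1, 0) := by
  have h : step (10 * s - 9 / 2) = 0 ∨ step (10 * s - 9 / 2) = 1 := by
    rcases hs with hs | hs
    · left; exact step_of_nonpos (by linarith)
    · right; exact step_of_one_le (by linarith)
  unfold mm Pool.Agent.Helper27.BI.zarc Pool.Agent.Helper27.BI.chi Pool.Agent.Helper27.BI.phi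
  rcases h with h | h
  · rw [h]
    simp only [mul_zero, Real.cos_zero, Real.sin_zero, sub_self, zero_div, zero_mul, add_zero]
    rfl
  · rw [h]
    simp only [mul_one, Real.cos_two_pi, Real.sin_two_pi, sub_self, zero_div, zero_mul, add_zero,
      mul_zero]
    rfl

theorem mm_ends (q s : ℝ) (hq : q = 0 ∨ q = 1) : mm q s = (1, 0) := by
  unfold mm Pool.Agent.Helper27.BI.zarc
  rcases hq with rfl | rfl
  · simp only [mul_zero, Real.cos_zero, Real.sin_zero, sub_self, neg_zero, zero_mul, add_zero]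
    rfl
  · simp only [mul_one, Real.cos_two_pi, Real.sin_two_pi, sub_self, Real.sin_pi, neg_zero, zero_mul,
      mul_zero, add_zero]
    rfl

theorem smul_e (r : ℝ) : r • ((1 : ℝ), (0 : ℂ)) = (r, 0) := by
  ext1
  · simp
  · simp

/-- a loop of arcs with a class consists of embedded arcs -/
theorem cls_imm_inj (D : ArcD) (c : ℝ × ℝ × ℝ → R4) (u : ℝ) (χ : R4 → R4)
    (hc : ContDiff ℝ ∞ c) (h : D.Cls (fun q s => c (u, q, s)) χ) :
    ∀ q ∈ Icc (0 : ℝ) 1, D.Imm c u q ∧ D.Inj c u q := by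
  obtain ⟨J, hJ, V, hV, h0, h1, hF, -⟩ := h
  intro q hq
  have hQ : ((0 : ℝ), q) ∈ Q2 := ⟨⟨le_rfl, zero_le_one⟩, hq⟩
  have hE : EmbOn I4 (J q) D.L := hF.emb (0, q) hQ
  have hlt : D.s₀ < D.s₁ := D.h₀.trans (D.h₁.trans D.h₂)
  have hmem : ∀ s ∈ Icc D.s₀ D.s₁, ((s, 0) : R4) ∈ D.L := fun s hs => ⟨hs.1, hs.2, rfl⟩
  constructor
  · intro s hs h0'
    obtain ⟨hsm, hinj⟩ := (embOn_iff.1 hE).1 _ (hmem s hs)
    have hd : HasFDerivAt (J q) (fderiv ℝ (J q) (s, 0)) (s, 0) :=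
      (hsm.self_of_nhds.differentiableAt (by simp)).hasFDerivAt
    have hl : HasDerivAt (fun s : ℝ => ((s, 0) : R4)) ((1, 0) : R4) s :=
      (hasDerivAt_id s).prodMk (hasDerivAt_const s _)
    have h1' : HasDerivAt (fun s : ℝ => J q (s, 0)) (fderiv ℝ (J q) (s, 0) (1, 0)) s :=
      hd.comp_hasDerivAt s hl
    have h2' : HasDerivAt (fun s : ℝ => c (u, q, s)) (deriv (fun s : ℝ => c (u, q, s)) s) s := by
      have : Differentiable ℝ (fun s : ℝ => c (u, q, s)) := by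
        apply (hc.comp (g := c) (f := fun s : ℝ => (u, q, s)) (by fun_prop)).differentiable
        simp
      exact (this s).hasDerivAt
    rw [h0'] at h2'
    have h3 : HasDerivWithinAt (fun s : ℝ => c (u, q, s)) (fderiv ℝ (J q) (s, 0) (1, 0))
        (Icc D.s₀ D.s₁) s :=
      h1'.hasDerivWithinAt.congr (fun x hx => (hJ q hq x hx).symm) (hJ q hq s hs).symm
    have h4 := (uniqueDiffOn_Icc hlt s hs).eq_deriv _ h3 h2'.hasDerivWithinAt
    have h5 : ((1, 0) : R4) = 0 := hinj (by rw [h4, map_zero])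
    have h6 : (1 : ℝ) = 0 := congrArg Prod.fst h5
    norm_num at h6
  · intro s hs s' hs' he
    have he' : c (u, q, s) = c (u, q, s') := he
    have h1 : J q (s, 0) = J q (s', 0) := by
      rw [hJ q hq s hs, hJ q hq s' hs']
      exact he'
    have h2 := hE.2 (hmem s hs) (hmem s' hs') h1
    exact congrArg Prod.fst h2

/-- gluing the homotopy of `StSM` with the base arc -/
noncomputable def glue (c : ℝ × ℝ × ℝ → R4) (n₀ n₁ : ℝ) (D : ArcD) (z : ℝ × ℝ × ℝ) : R4 :=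
  open Classical in if n₀ ≤ z.2.2 ∧ z.2.2 ≤ n₁ then c z else D.c z.2.2

theorem glue_htpy (D : ArcD) (F : R4 → R4) (c : ℝ × ℝ × ℝ → R4) (n₀ n₁ κ ε : ℝ) (ρ : ℝ → ℝ)
    (hn₀ : n₀ < 9 / 20) (hn₁ : 11 / 20 < n₁) (hm₀ : D.m₀ = 9 / 20) (hm₁ : D.m₁ = 11 / 20)
    (hD : ∀ s ∈ Icc n₀ n₁, D.c s = F (sq ε (s, (ρ s, 0))))
    (hU : ∀ x, x ∉ D.U → ∃ y ∈ F '' sph 1, dist x y < κ)
    (hc : ContDiff ℝ ∞ c)
    (hc2 : ∀ u q, ∀ s ∈ Icc n₀ n₁, mm q s = (1, 0) → c (u, q, s) = F (sq ε (s, (ρ s, 0))))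
    (hc3 : ∀ u ∈ Icc (0 : ℝ) 1, ∀ q ∈ Icc (0 : ℝ) 1, ∀ s ∈ Icc (9 / 20 : ℝ) (11 / 20),
        ∀ y ∈ F '' sph 1, κ ≤ dist (c (u, q, s)) y) :
    D.Htpy (glue c n₀ n₁ D) := by
  have key : ∀ z : ℝ × ℝ × ℝ, (z.2.2 ≤ 9 / 20 ∨ 11 / 20 ≤ z.2.2 ∨ z.2.1 = 0 ∨ z.2.1 = 1) →
      glue c n₀ n₁ D z = D.c z.2.2 := by
    rintro ⟨u, q, s⟩ hz
    by_cases hs : n₀ ≤ s ∧ s ≤ n₁
    · have hmm : mm q s = (1, 0) := by
        rcases hz with h | h | h | h
        · exact mm_edge q s (Or.inl h)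
        · exact mm_edge q s (Or.inr h)
        · exact mm_ends q s (Or.inl h)
        · exact mm_ends q s (Or.inr h)
      have e1 : glue c n₀ n₁ D (u, q, s) = c (u, q, s) := if_pos hs
      rw [e1, hc2 u q s hs hmm]
      exact (hD s hs).symm
    · exact if_neg hs
  refine ⟨?_, ?_, ?_, ?_, ?_⟩
  · rw [contDiff_iff_contDiffAt]
    rintro ⟨u, q, s⟩
    by_cases hs : n₀ < s ∧ s < n₁
    · apply (hc.contDiffAt (x := (u, q, s))).congr_of_eventuallyEq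
      have hopen : IsOpen {z : ℝ × ℝ × ℝ | n₀ < z.2.2 ∧ z.2.2 < n₁} :=
        (isOpen_lt continuous_const (continuous_snd.comp continuous_snd)).inter
          (isOpen_lt (continuous_snd.comp continuous_snd) continuous_const)
      filter_upwards [hopen.mem_nhds hs] with z hz
      exact if_pos ⟨hz.1.le, hz.2.le⟩
    · have hD' : ContDiff ℝ ∞ (fun z : ℝ × ℝ × ℝ => D.c z.2.2) :=
        D.smooth.comp (contDiff_snd.comp contDiff_snd)
      apply (hD'.contDiffAt (x := (u, q, s))).congr_of_eventuallyEq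
      rcases not_and_or.1 hs with hs | hs
      · have hopen : IsOpen {z : ℝ × ℝ × ℝ | z.2.2 < 9 / 20} :=
          isOpen_lt (continuous_snd.comp continuous_snd) continuous_const
        have : (u, q, s) ∈ {z : ℝ × ℝ × ℝ | z.2.2 < 9 / 20} := by
          show s < 9 / 20
          linarith [not_lt.1 hs]
        filter_upwards [hopen.mem_nhds this] with z hz
        exact key z (Or.inl (le_of_lt hz))
      · have hopen : IsOpen {z : ℝ × ℝ × ℝ | 11 / 20 < z.2.2} :=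
          isOpen_lt continuous_const (continuous_snd.comp continuous_snd)
        have : (u, q, s) ∈ {z : ℝ × ℝ × ℝ | 11 / 20 < z.2.2} := by
          show 11 / 20 < s
          linarith [not_lt.1 hs]
        filter_upwards [hopen.mem_nhds this] with z hz
        exact key z (Or.inr (Or.inl (le_of_lt hz)))
  · intro u _ q _ s hs
    rw [hm₀, hm₁] at hs
    exact key (u, q, s) (hs.imp_right Or.inl)
  · intro u hu q hq s hs
    rw [hm₀, hm₁] at hs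
    have e1 : glue c n₀ n₁ D (u, q, s) = c (u, q, s) :=
      if_pos ⟨hn₀.le.trans hs.1, hs.2.trans hn₁.le⟩
    rw [e1]
    by_contra hcon
    obtain ⟨y, hy, hd⟩ := hU _ hcon
    exact absurd (hc3 u hu q hq s hs y hy) (not_le.2 hd)
  · intro u _ s
    exact key (u, 0, s) (Or.inr (Or.inr (Or.inl rfl)))
  · intro u _ s
    exact key (u, 1, s) (Or.inr (Or.inr (Or.inr rfl)))

theorem bar_mem_SP {a : ℝ} (h1 : 1 / 5 ≤ a) (h2 : a ≤ 4 / 5) : bar a ∈ SP :=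
  Or.inr ⟨rfl, h1, h2, rfl⟩

theorem continuous_bar : Continuous bar := by
  unfold bar
  fun_prop

theorem foot_mem : foot0 ∈ sph 0 := by
  refine ⟨rfl, ?_⟩
  show (1 / 5 - 0 : ℝ) ^ 2 + (0 : ℂ).re ^ 2 + (0 : ℂ).im ^ 2 = 1 / 25
  norm_num

theorem bar_not_sph1 {a : ℝ} (h2 : a < 4 / 5) : bar a ∉ sph 1 := by
  rintro ⟨-, h⟩
  have h' : (a - 1) ^ 2 + (0 : ℂ).re ^ 2 + (0 : ℂ).im ^ 2 = 1 / 25 := h
  simp only [Complex.zero_re, Complex.zero_im] at h'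
  nlinarith

/-- **(H) for `R4`.** -/
theorem m_HMain (hSTR : StSTR) (hBAR : StBAR) (hTOP : StTOP) (hSM : StSM) (hHAT : StHATn)
    (hArcH : StArcH) (hMain2 : StMain2) (hT2 : StT2) (hCI : StCI) : StHMain := by
  intro F F' U h W φ φ' hW hF hF' hU h1U hEq hh h0 h1 hoff hφ hφ'
  obtain ⟨F₁, F₁', U₁, V, hF₁, hF₁', hU₁, hsU₁, hE₁, hE₁', hV, hsV, hEV, ht, ht'⟩ :=
    hSTR F F' U hF hF' hU h1U hEq
  -- the two germs after stretching
  have hT₁ : Thin I4 F₁ φ := ht φ hφ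
  have hT₁' : Thin I4 F₁' φ' := ht' φ' hφ'
  have him1 : F₁ '' sph 1 = F '' sph 1 :=
    image_congr fun p hp => hE₁ (hsU₁ (Or.inr hp))
  have him1' : F₁' '' sph 1 = F₁ '' sph 1 :=
    image_congr fun p hp => (hEV (hsV (Or.inl hp))).symm
  have h0' : ∀ p ∈ sph 0, h (0, p) = F₁ p := fun p hp => by
    rw [h0 p hp, hE₁ (hsU₁ (Or.inl hp))]
  have h1' : ∀ p ∈ sph 0, h (1, p) = F₁' p := fun p hp => by
    rw [h1 p hp, hE₁' (hsU₁ (Or.inl hp))]
  have hoff' : ∀ u ∈ Icc (0 : ℝ) 1, ∀ p ∈ sph 0, h (u, p) ∉ F₁ '' sph 1 := fun u hu p hp => by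
    rw [him1]; exact hoff u hu p hp
  have hF₁c : ContinuousOn F₁ SP := fun p hp =>
    (hF₁.1 p hp).contMDiffAt.continuousAt.continuousWithinAt
  -- the path
  let ζ : ℝ → R4 := fun τ => if τ ≤ 1 / 2 then F₁ (bar (3 / 5 - 4 / 5 * τ)) else h (2 * τ - 1, foot0)
  have ζa : ∀ τ ∈ Icc (0 : ℝ) (1 / 2), ζ τ = F₁ (bar (3 / 5 - 4 / 5 * τ)) := fun τ hτ => if_pos hτ.2
  have ζb : ∀ τ ∈ Icc (1 / 2 : ℝ) 1, ζ τ = h (2 * τ - 1, foot0) := by
    intro τ hτ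
    by_cases h2 : τ ≤ 1 / 2
    · have h3 : τ = 1 / 2 := le_antisymm h2 hτ.1
      subst h3
      rw [ζa _ ⟨by norm_num, le_rfl⟩]
      have e1 : (2 * (1 / 2 : ℝ) - 1) = 0 := by norm_num
      have e2 : (3 / 5 - 4 / 5 * (1 / 2 : ℝ)) = 1 / 5 := by norm_num
      rw [e1, e2, h0' _ foot_mem]
      rfl
    · exact if_neg h2
  have ζc : ContinuousOn ζ (Icc 0 1) := by
    have e : Icc (0 : ℝ) 1 = Icc 0 (1 / 2) ∪ Icc (1 / 2) 1 :=
      (Icc_union_Icc_eq_Icc (by norm_num) (by norm_num)).symm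
    rw [e]
    refine ContinuousOn.union_of_isClosed ?_ ?_ isClosed_Icc isClosed_Icc
    · refine ContinuousOn.congr (f := fun τ => F₁ (bar (3 / 5 - 4 / 5 * τ))) ?_ ζa
      refine hF₁c.comp ?_ ?_
      · exact (continuous_bar.comp (by fun_prop)).continuousOn
      · intro τ hτ
        exact bar_mem_SP (by linarith [hτ.2]) (by linarith [hτ.1])
    · refine ContinuousOn.congr (f := fun τ => h (2 * τ - 1, foot0)) ?_ ζb
      refine hh.comp ?_ ?_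
      · exact Continuous.continuousOn (by fun_prop)
      · intro τ hτ
        exact ⟨⟨by show (0 : ℝ) ≤ 2 * τ - 1; linarith [hτ.1],
          by show 2 * τ - 1 ≤ (1 : ℝ); linarith [hτ.2]⟩, foot_mem⟩
  have h35 : bar (3 / 5) ∈ neckE := ⟨⟨rfl, by show (1 / 5 : ℝ) ≤ 3 / 5; norm_num,
    by show (3 / 5 : ℝ) ≤ 4 / 5; norm_num, rfl⟩, le_rfl⟩
  have ζ0 : ζ 0 = F₁' (bar (3 / 5)) := by
    rw [ζa 0 ⟨le_rfl, by norm_num⟩, mul_zero, sub_zero]
    exact hEV (hsV (Or.inr h35))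
  have ζ1 : ζ 1 = F₁' foot0 := by
    rw [ζb 1 ⟨by norm_num, le_rfl⟩]
    have e1 : (2 * (1 : ℝ) - 1) = 1 := by norm_num
    rw [e1, h1' _ foot_mem]
  have ζoff : ∀ τ ∈ Icc (0 : ℝ) 1, ζ τ ∉ F₁' '' sph 1 := by
    intro τ hτ
    rw [him1']
    rcases le_total τ (1 / 2) with h2 | h2
    · rw [ζa τ ⟨hτ.1, h2⟩]
      rintro ⟨p, hp, he⟩
      have hb := bar_mem_SP (a := 3 / 5 - 4 / 5 * τ) (by linarith) (by linarith [hτ.1])
      have := hF₁.2 (Or.inl (Or.inr hp)) hb he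
      rw [this] at hp
      exact bar_not_sph1 (by linarith [hτ.1]) hp
    · rw [ζb τ ⟨h2, hτ.2⟩]
      exact hoff' _ ⟨by linarith, by linarith [hτ.2]⟩ _ foot_mem
  obtain ⟨F₂, U₂, P, hF₂, hU₂, hsU₂, hE₂, P1, P2, P3, P4, P5, P6⟩ := hBAR F₁' ζ hF₁' ζc ζ0 ζ1 ζoff
  -- a representative of the class of `F₂`
  obtain ⟨φ₂, hφ₂⟩ : ∃ φ₂, Thin I4 F₂ φ₂ := by
    obtain ⟨ε₁, hε₁, hh⟩ := (hT2 _ _ 𝓘(ℝ, R4) R4).1 _ hF₂
    exact ⟨_, hh (ε₁ / 2) ⟨by positivity, by linarith⟩⟩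
  have hor1 := hMain2 W F₂ F₁' φ₂ φ' (U₂) hW hF₂ hF₁' hU₂
    (fun p hp => hsU₂ (Or.inl hp)) (fun p hp => (hE₂ hp).symm) hφ₂ hT₁'
  -- the homotopy of the whiskered spheres
  have hE12 : EqOn F₁ F₂ (V ∩ U₂) := fun p hp => (hEV hp.1).trans (hE₂ hp.2)
  have hsE12 : sph 1 ∪ neckE ⊆ V ∩ U₂ := by
    intro p hp
    refine ⟨hsV hp, ?_⟩
    rcases hp with hp | hp
    · exact hsU₂ (Or.inl (Or.inr hp))
    · exact hsU₂ (Or.inr hp)
  obtain ⟨H, hH⟩ := hTOP F₁ F₂ h ζ P hF₁ hF₂ (fun p hp => hE12 (hsE12 (Or.inr hp))) hh h0'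
    (fun p hp => by rw [h1' p hp, hE₂ (hsU₂ (Or.inl (Or.inl hp)))]) hoff' ζa ζb P1 P2 P3
    (fun u hu => by
      rw [P4 u hu]
      exact (hEV (hsV (Or.inr h35))).symm)
    (fun u hu => by
      rw [P5 u hu]
      exact hE₂ (hsU₂ (Or.inl (Or.inl foot_mem))))
    (fun u hu τ hτ => by
      rw [← him1']
      exact P6 u hu τ hτ)
  have hn₀ : (3 / 10 : ℝ) < 9 / 20 := by norm_num
  have hn₁ : (11 / 20 : ℝ) < 7 / 10 := by norm_num
  obtain ⟨κ, hκ, ε₀, hε₀, hc⟩ := hSM F₁ F₂ (V ∩ U₂) H (3 / 10) (7 / 10) (fun _ => 73 / 100) hF₁ hF₂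
    (hV.inter hU₂) hsE12 hE12 hH hn₀ hn₁ contDiff_const (fun _ _ => rfl)
    (fun _ _ => ⟨le_rfl, by norm_num⟩)
  obtain ⟨ε₁, hε₁, hDq⟩ := hHAT Bool F₁ (fun b => if b then F₂ else F₁) (fun b => if b then φ₂ else φ)
    (V ∩ U₂) hF₁ (by rintro (_ | _); exacts [hF₁, hF₂]) (hV.inter hU₂) hsE12
    (by rintro (_ | _); exacts [fun _ _ => rfl, hE12]) (by rintro (_ | _); exacts [hT₁, hφ₂]) κ hκ
  obtain ⟨ε, hε00, hεlt⟩ : ∃ ε : ℝ, 0 < ε ∧ ε < min ε₀ ε₁ :=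
    exists_between (lt_min hε₀ hε₁)
  have hε : ε ∈ Ioo 0 ε₀ := ⟨hε00, hεlt.trans_le (min_le_left _ _)⟩
  obtain ⟨D, hm₀, hm₁, -, -, hDU, hDc, hcl0⟩ := hDq ε ⟨hε00, hεlt.trans_le (min_le_right _ _)⟩
  have hcl : D.Cls (loopF F₁ (3 / 10) (7 / 10) ε D) φ := hcl0 false
  have hcl' : D.Cls (loopF F₂ (3 / 10) (7 / 10) ε D) φ₂ := hcl0 true
  obtain ⟨c, hc0, hc1, hc2, hc3, hc4⟩ := hc ε hε
  have hHt : D.Htpy (glue c (3 / 10) (7 / 10) D) :=
    glue_htpy D F₁ c (3 / 10) (7 / 10) κ ε (fun _ => 73 / 100) hn₀ hn₁ hm₀ hm₁ hDc hDU hc0 hc3 hc4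
  have e0 : (fun q s => glue c (3 / 10) (7 / 10) D (0, q, s)) = loopF F₁ (3 / 10) (7 / 10) ε D := by
    funext q s
    by_cases hs : 3 / 10 ≤ s ∧ s ≤ 7 / 10
    · have e1 : glue c (3 / 10) (7 / 10) D (0, q, s) = c (0, q, s) := if_pos hs
      have e2 : loopF F₁ (3 / 10) (7 / 10) ε D q s = F₁ (sq ε (s, (73 / 100 : ℝ) • mm q s)) := if_pos hs
      rw [e1, e2]
      exact hc1 q s hs
    · have e1 : glue c (3 / 10) (7 / 10) D (0, q, s) = D.c s := if_neg hs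
      have e2 : loopF F₁ (3 / 10) (7 / 10) ε D q s = D.c s := if_neg hs
      rw [e1, e2]
  have e1 : (fun q s => glue c (3 / 10) (7 / 10) D (1, q, s)) = loopF F₂ (3 / 10) (7 / 10) ε D := by
    funext q s
    by_cases hs : 3 / 10 ≤ s ∧ s ≤ 7 / 10
    · have e1 : glue c (3 / 10) (7 / 10) D (1, q, s) = c (1, q, s) := if_pos hs
      have e2 : loopF F₂ (3 / 10) (7 / 10) ε D q s = F₂ (sq ε (s, (73 / 100 : ℝ) • mm q s)) := if_pos hs
      rw [e1, e2]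
      exact hc2 q s hs
    · have e1 : glue c (3 / 10) (7 / 10) D (1, q, s) = D.c s := if_neg hs
      have e2 : loopF F₂ (3 / 10) (7 / 10) ε D q s = D.c s := if_neg hs
      rw [e1, e2]
  have hC0 : D.Cls (fun q s => glue c (3 / 10) (7 / 10) D (0, q, s)) φ := by
    rw [e0]; exact hcl
  have hC1 : D.Cls (fun q s => glue c (3 / 10) (7 / 10) D (1, q, s)) φ₂ := by
    rw [e1]; exact hcl'
  have hor2 := hArcH D (glue c (3 / 10) (7 / 10) D) W φ φ₂ hHt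
    (cls_imm_inj D _ 0 φ hHt.smooth hC0) (cls_imm_inj D _ 1 φ₂ hHt.smooth hC1) hW hC0 hC1
  -- combine
  obtain ⟨-, cs, cself, ct, cc, -⟩ := hCI _ _ 𝓘(ℝ, R4) R4
  have hWW : CIsot I4 W W := by
    obtain ⟨F₀, α₀, β₀, -, hT⟩ := hW.rep
    obtain ⟨-, tii, -⟩ := hT2 _ _ 𝓘(ℝ, R4) R4
    exact tii _ _ _ hT hT
  have hφφ : CIsot I4 φ φ := by
    obtain ⟨-, tii, -⟩ := hT2 _ _ 𝓘(ℝ, R4) R4
    exact tii _ _ _ hφ hφ
  rcases hor1 with a | a
  · rcases hor2 with b | b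
    · exact Or.inl (ct _ _ _ a b)
    · exact Or.inr (ct _ _ _ a b)
  · rcases hor2 with b | b
    · right
      exact ct _ _ _ a (cc _ _ _ _ hWW b)
    · left
      refine ct _ _ _ a (ct _ _ _ (cc _ _ _ _ hWW b) ?_)
      exact cc (fun x => W (W x)) (fun x => x) φ φ hW.sq hφφ

end Pool.Agent.Helper18.BI.H


end
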