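import Pool.Agent.Helper65.Barb.Defs
import Pool.Agent.Helper70.BI.B.P14
import Pool.Agent.Helper70.BI.B.P26
import Pool.Agent.Helper70.BI.B.P27
import Pool.Agent.Helper70.BI.B.P28

/-!
# Project BI (MP_8e98f2_gt): collected modules, part 29

The contents of the modules
* Helper27.BI.H.M_PTJ
* Helper27.BI.H.M_THK
* Helper70.BI.M_NO1
* Helper70.BI.M_TR
* Helper70.BI.M_GL
* Helper70.BI.M_CL
* Helper70.BI.M_RM
* Helper70.BI.M_RG
* Helper18.BI.H.M_STR
* Helper18.BI.R.M_EVM
* Helper18.BI.R.M_HCL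
* Helper18.BI.R.M_STR2

in one file, so that the whole proof builds in a short time.
-/

/-! ## Helper27.BI.H.M_PTJ -/

section

/-!
# Project BI-H, module PTJ: perturbation of the identity with an open set of parameters
-/

set_option autoImplicit false

open scoped Manifold ContDiff Topology ComplexConjugate
open Set Filter Pool.Agent.Helper65.Barb Pool.Agent.Helper18.BI
open Pool.Agent.Helper70.BI (I4 LD Eqv NearEq StPT)
open Pool.Agent.Helper34.BI (qmul qinv)

namespace Pool.Agent.Helper27.H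

namespace PTJ

variable {E' : Type} [NormedAddCommGroup E'] [NormedSpace ℝ E']
variable {E : Type} [NormedAddCommGroup E] [NormedSpace ℝ E]

/-- the parameter preserving map -/
def mp (g : E' × E → E) (p : E' × E) : E' × E := (p.1, p.2 + g p)

theorem exists_pre [FiniteDimensional ℝ E] (O : Set E') (g : E' × E → E)
    (hg : ∀ e ∈ O, ∀ x y, ‖g (e, x) - g (e, y)‖ ≤ 3 / 4 * ‖x - y‖) (t : E') (ht : t ∈ O) (y : E) :
    ∃ x : E, x + g (t, x) = y := by
  have : CompleteSpace E := FiniteDimensional.complete ℝ E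
  have hl : LipschitzWith (3 / 4) (fun x : E => y - g (t, x)) := by
    refine LipschitzWith.of_dist_le_mul fun a b => ?_
    rw [dist_eq_norm, dist_eq_norm]
    have e : y - g (t, a) - (y - g (t, b)) = g (t, b) - g (t, a) := by abel
    rw [e]
    have := hg t ht b a
    rw [norm_sub_rev b a] at this
    simpa using this
  have h34 : (3 / 4 : NNReal) < 1 := by
    rw [← NNReal.coe_lt_coe]
    norm_num
  have hc : ContractingWith (3 / 4) (fun x : E => y - g (t, x)) := ⟨h34, hl⟩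
  refine ⟨hc.fixedPoint, ?_⟩
  have h := hc.fixedPoint_isFixedPt
  have h2 : y - g (t, hc.fixedPoint) = hc.fixedPoint := h
  calc hc.fixedPoint + g (t, hc.fixedPoint) =
      (y - g (t, hc.fixedPoint)) + g (t, hc.fixedPoint) := by rw [h2]
    _ = y := by abel

theorem key (O : Set E') (g : E' × E → E)
    (hg : ∀ e ∈ O, ∀ x y, ‖g (e, x) - g (e, y)‖ ≤ 3 / 4 * ‖x - y‖) (t : E') (ht : t ∈ O)
    (x x' : E) : ‖x - x'‖ ≤ 4 * ‖(x + g (t, x)) - (x' + g (t, x'))‖ := by
  have h1 := hg t ht x x'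
  have h2 : ‖x - x'‖ ≤ ‖(x + g (t, x)) - (x' + g (t, x'))‖ + ‖g (t, x) - g (t, x')‖ := by
    have e : x - x' = ((x + g (t, x)) - (x' + g (t, x'))) - (g (t, x) - g (t, x')) := by abel
    calc ‖x - x'‖ = ‖((x + g (t, x)) - (x' + g (t, x'))) - (g (t, x) - g (t, x'))‖ := by rw [← e]
      _ ≤ _ := norm_sub_le _ _
  linarith

open Classical in
/-- the inverse -/
noncomputable def iv [FiniteDimensional ℝ E] (O : Set E') (g : E' × E → E)
    (hg : ∀ e ∈ O, ∀ x y, ‖g (e, x) - g (e, y)‖ ≤ 3 / 4 * ‖x - y‖) (q : E' × E) : E :=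
  if h : q.1 ∈ O then (exists_pre O g hg q.1 h q.2).choose else 0

theorem iv_spec [FiniteDimensional ℝ E] (O : Set E') (g : E' × E → E)
    (hg : ∀ e ∈ O, ∀ x y, ‖g (e, x) - g (e, y)‖ ≤ 3 / 4 * ‖x - y‖) (q : E' × E) (h : q.1 ∈ O) :
    iv O g hg q + g (q.1, iv O g hg q) = q.2 := by
  have e : iv O g hg q = (exists_pre O g hg q.1 h q.2).choose := by
    unfold iv
    rw [dif_pos h]
  rw [e]
  exact (exists_pre O g hg q.1 h q.2).choose_spec

theorem iv_mp [FiniteDimensional ℝ E] (O : Set E') (g : E' × E → E)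
    (hg : ∀ e ∈ O, ∀ x y, ‖g (e, x) - g (e, y)‖ ≤ 3 / 4 * ‖x - y‖) (p : E' × E) (h : p.1 ∈ O) :
    iv O g hg (mp g p) = p.2 := by
  have h1 := iv_spec O g hg (mp g p) h
  have h2 := key O g hg p.1 h (iv O g hg (mp g p)) p.2
  have h3 : iv O g hg (mp g p) + g (p.1, iv O g hg (mp g p)) = p.2 + g (p.1, p.2) := h1
  rw [h3, sub_self, norm_zero, mul_zero] at h2
  exact sub_eq_zero.1 (norm_le_zero_iff.1 h2)

theorem iv_cont [FiniteDimensional ℝ E] (O : Set E') (hO : IsOpen O) (g : E' × E → E)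
    (hc : ContinuousOn g (O ×ˢ univ))
    (hg : ∀ e ∈ O, ∀ x y, ‖g (e, x) - g (e, y)‖ ≤ 3 / 4 * ‖x - y‖) :
    ContinuousOn (iv O g hg) (O ×ˢ univ) := by
  have hop : IsOpen (O ×ˢ (univ : Set E)) := hO.prod isOpen_univ
  intro q₀ hq₀
  refine ContinuousAt.continuousWithinAt ?_
  set x₀ := iv O g hg q₀ with hx₀
  have h0 : x₀ + g (q₀.1, x₀) = q₀.2 := iv_spec O g hg q₀ hq₀.1
  have h1 : ∀ᶠ q in 𝓝 q₀, ‖iv O g hg q - x₀‖ ≤ 4 * ‖q.2 - (x₀ + g (q.1, x₀))‖ := by
    filter_upwards [hop.mem_nhds hq₀] with q hq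
    have := key O g hg q.1 hq.1 (iv O g hg q) x₀
    rwa [iv_spec O g hg q hq.1] at this
  have h2 : Tendsto (fun q : E' × E => 4 * ‖q.2 - (x₀ + g (q.1, x₀))‖) (𝓝 q₀) (𝓝 0) := by
    have ha : ContinuousAt (fun q : E' × E => g (q.1, x₀)) q₀ := by
      have hb : ContinuousAt g (q₀.1, x₀) := hc.continuousAt (hop.mem_nhds ⟨hq₀.1, mem_univ _⟩)
      have hd : ContinuousAt (fun q : E' × E => (q.1, x₀)) q₀ := by fun_prop
      exact ContinuousAt.comp (f := fun q : E' × E => (q.1, x₀)) (g := g) hb hd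
    have hcont : ContinuousAt (fun q : E' × E => 4 * ‖q.2 - (x₀ + g (q.1, x₀))‖) q₀ :=
      continuousAt_const.mul (continuousAt_snd.sub (continuousAt_const.add ha)).norm
    have h3 := hcont.tendsto
    rw [h0, sub_self, norm_zero, mul_zero] at h3
    exact h3
  rw [ContinuousAt, tendsto_iff_norm_sub_tendsto_zero]
  exact squeeze_zero' (Eventually.of_forall fun _ => norm_nonneg _) h1 h2

/-- the partial homeomorphism -/
noncomputable def hm [FiniteDimensional ℝ E] (O : Set E') (hO : IsOpen O) (g : E' × E → E)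
    (hc : ContinuousOn g (O ×ˢ univ))
    (hg : ∀ e ∈ O, ∀ x y, ‖g (e, x) - g (e, y)‖ ≤ 3 / 4 * ‖x - y‖) :
    OpenPartialHomeomorph (E' × E) (E' × E) where
  toFun := mp g
  invFun q := (q.1, iv O g hg q)
  source := O ×ˢ univ
  target := O ×ˢ univ
  map_source' _ hp := ⟨hp.1, mem_univ _⟩
  map_target' _ hp := ⟨hp.1, mem_univ _⟩
  left_inv' p hp := by
    show (p.1, iv O g hg (mp g p)) = p
    rw [iv_mp O g hg p hp.1]
  right_inv' q hq := by
    show (q.1, iv O g hg q + g (q.1, iv O g hg q)) = q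
    rw [iv_spec O g hg q hq.1]
  open_source := hO.prod isOpen_univ
  open_target := hO.prod isOpen_univ
  continuousOn_toFun := by
    unfold mp
    fun_prop
  continuousOn_invFun := by
    have := iv_cont O hO g hc hg
    fun_prop

theorem fderiv_small (O : Set E') (g : E' × E → E)
    (hg : ∀ e ∈ O, ∀ x y, ‖g (e, x) - g (e, y)‖ ≤ 3 / 4 * ‖x - y‖) (p : E' × E) (hp : p.1 ∈ O)
    (h1 : HasFDerivAt g (fderiv ℝ g p) p) (ξ : E) :
    ‖fderiv ℝ g p (0, ξ)‖ ≤ 3 / 4 * ‖ξ‖ := by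
  let e : E →L[ℝ] E' × E := ContinuousLinearMap.inr ℝ E' E
  have h2 : HasFDerivAt (fun x : E => ((p.1, x) : E' × E)) e p.2 := by
    have h3 : HasFDerivAt (fun x : E => e x + ((p.1, 0) : E' × E)) e p.2 :=
      e.hasFDerivAt.add_const _
    refine h3.congr_of_eventuallyEq (Eventually.of_forall fun x => ?_)
    show ((p.1, x) : E' × E) = (0, x) + (p.1, 0)
    simp
  have h4 : HasFDerivAt (fun x : E => g (p.1, x)) ((fderiv ℝ g p).comp e) p.2 :=
    HasFDerivAt.comp p.2 h1 h2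
  have hl : LipschitzWith (3 / 4) (fun x : E => g (p.1, x)) := by
    refine LipschitzWith.of_dist_le_mul fun a b => ?_
    rw [dist_eq_norm, dist_eq_norm]
    simpa using hg p.1 hp a b
  have h5 := h4.le_of_lipschitz hl
  have h6 := ContinuousLinearMap.le_opNorm ((fderiv ℝ g p).comp e) ξ
  have h7 : ((fderiv ℝ g p).comp e) ξ = fderiv ℝ g p (0, ξ) := rfl
  rw [h7] at h6
  refine h6.trans (mul_le_mul_of_nonneg_right ?_ (norm_nonneg _))
  simpa using h5

theorem exists_equiv [FiniteDimensional ℝ E'] [FiniteDimensional ℝ E] (O : Set E')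
    (g : E' × E → E) (hg : ∀ e ∈ O, ∀ x y, ‖g (e, x) - g (e, y)‖ ≤ 3 / 4 * ‖x - y‖)
    (p : E' × E) (hp : p.1 ∈ O) (h1 : HasFDerivAt g (fderiv ℝ g p) p) :
    ∃ L : (E' × E) ≃L[ℝ] (E' × E), HasFDerivAt (mp g) (L : (E' × E) →L[ℝ] (E' × E)) p := by
  let A : (E' × E) →L[ℝ] E := ContinuousLinearMap.snd ℝ E' E + fderiv ℝ g p
  let D : (E' × E) →L[ℝ] (E' × E) := (ContinuousLinearMap.fst ℝ E' E).prod A
  have hD : HasFDerivAt (mp g) D p := by
    have a1 : HasFDerivAt (fun q : E' × E => q.1) (ContinuousLinearMap.fst ℝ E' E) p :=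
      (ContinuousLinearMap.fst ℝ E' E).hasFDerivAt
    have a3 : HasFDerivAt (fun q : E' × E => q.2) (ContinuousLinearMap.snd ℝ E' E) p :=
      (ContinuousLinearMap.snd ℝ E' E).hasFDerivAt
    exact a1.prodMk (a3.add h1)
  have hinj : Function.Injective D := by
    rw [injective_iff_map_eq_zero]
    rintro ⟨τ, ξ⟩ h
    have b1 : τ = 0 := congrArg Prod.fst h
    have b3 : ξ + fderiv ℝ g p (τ, ξ) = 0 := congrArg Prod.snd h
    subst b1
    have b4 := fderiv_small O g hg p hp h1 ξ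
    have b5 : fderiv ℝ g p (0, ξ) = -ξ := by
      rw [← add_eq_zero_iff_eq_neg']
      exact b3
    rw [b5, norm_neg] at b4
    have b6 : ‖ξ‖ ≤ 0 := by linarith [norm_nonneg ξ]
    rw [norm_le_zero_iff.1 b6]
    rfl
  refine ⟨(LinearEquiv.ofInjectiveEndo (D : (E' × E) →ₗ[ℝ] (E' × E))
    hinj).toContinuousLinearEquiv, ?_⟩
  have hcoe : ((LinearEquiv.ofInjectiveEndo (D : (E' × E) →ₗ[ℝ] (E' × E))
      hinj).toContinuousLinearEquiv : (E' × E) →L[ℝ] (E' × E)) = D := by
    refine ContinuousLinearMap.ext fun v => ?_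
    rfl
  rw [hcoe]
  exact hD

end PTJ

open PTJ in
theorem m_PTJ : StPTJ := by
  intro E' _ _ _ E _ _ _ O g hO hs hg
  have hop : IsOpen (O ×ˢ (univ : Set E)) := hO.prod isOpen_univ
  have hc := hs.continuousOn
  refine ⟨iv O g hg, ?_, fun e he x => ⟨iv_spec O g hg (e, x) he, iv_mp O g hg (e, x) he⟩⟩
  intro q hq
  refine ContDiffAt.contDiffWithinAt ?_
  have hp : (hm O hO g hc hg).symm q ∈ O ×ˢ (univ : Set E) := ⟨hq.1, mem_univ _⟩
  have hsm : ContDiffAt ℝ ∞ g ((hm O hO g hc hg).symm q) := hs.contDiffAt (hop.mem_nhds hp)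
  have h1 : HasFDerivAt g (fderiv ℝ g ((hm O hO g hc hg).symm q)) ((hm O hO g hc hg).symm q) :=
    (hsm.differentiableAt (by simp)).hasFDerivAt
  obtain ⟨L, hL⟩ := exists_equiv O g hg _ hp.1 h1
  have hmp : ContDiffAt ℝ ∞ (mp g) ((hm O hO g hc hg).symm q) := by
    unfold mp
    fun_prop
  have hinv : ContDiffAt ℝ ∞ (hm O hO g hc hg).symm q :=
    (hm O hO g hc hg).contDiffAt_symm (f₀' := L) hq hL hmp
  exact hinv.snd

end Pool.Agent.Helper27.H


end

/-! ## Helper27.BI.H.M_THK -/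

section

/-!
# Project BI, stage 3 (H): canonical quaternionic thickening of a family of arcs (MODULE THK)
-/

set_option autoImplicit false

open scoped Manifold ContDiff Topology ComplexConjugate
open Set Filter Pool.Agent.Helper65.Barb Pool.Agent.Helper18.BI
open Pool.Agent.Helper70.BI (I4 LD embOn_iff)
open Pool.Agent.Helper34.BI (qmul qinv qmul_qinv_qmul qmul_qinv_self_qmul qmul_injective
  qinv_ne_zero contDiffAt_qinv qmul_apply toQ)

namespace Pool.Agent.Helper27.H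

namespace THK

/-- the linear correction of the thickening -/
noncomputable def corr (G : R4 → R4) (c : ℝ → R4) (x : ℝ × ℝ → ℝ → R4) (z : (ℝ × ℝ) × ℝ) :
    R4 →L[ℝ] R4 :=
  (qmul (deriv (x z.1) z.2 - deriv c z.2)).comp
    ((qmul (qinv (deriv c z.2))).comp (fderiv ℝ G (z.2, 0)))

theorem thk_eq (G : R4 → R4) (c : ℝ → R4) (x : ℝ × ℝ → ℝ → R4) (a : ℝ × ℝ) (p : R4) :
    thk G c (x a) p = G p + (x a p.1 - c p.1) + corr G c x (a, p.1) (0, p.2) := rfl

section
variable {G : R4 → R4} {c : ℝ → R4} {x : ℝ × ℝ → ℝ → R4}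

theorem hasDerivAt_x (hx : ContDiff ℝ ∞ (fun z : (ℝ × ℝ) × ℝ => x z.1 z.2)) (z : (ℝ × ℝ) × ℝ) :
    HasDerivAt (x z.1) (fderiv ℝ (fun z : (ℝ × ℝ) × ℝ => x z.1 z.2) z (0, 1)) z.2 := by
  have l : HasDerivAt (fun r : ℝ => ((z.1, r) : (ℝ × ℝ) × ℝ)) (0, 1) z.2 :=
    (hasDerivAt_const z.2 z.1).prodMk (hasDerivAt_id z.2)
  exact HasFDerivAt.comp_hasDerivAt_of_eq z.2
    ((hx.differentiable (by simp) z).hasFDerivAt) l rfl

theorem contDiffAt_corr (hc : ContDiff ℝ ∞ c)
    (hx : ContDiff ℝ ∞ (fun z : (ℝ × ℝ) × ℝ => x z.1 z.2)) {z : (ℝ × ℝ) × ℝ}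
    (h2 : ContDiffAt ℝ ∞ G (z.2, 0)) (h3 : deriv c z.2 ≠ 0) :
    ContDiffAt ℝ ∞ (corr G c x) z := by
  have e1 : ContDiffAt ℝ ∞ (fun z : (ℝ × ℝ) × ℝ => deriv (x z.1) z.2) z := by
    have e : (fun z : (ℝ × ℝ) × ℝ => deriv (x z.1) z.2) =
        fun z => fderiv ℝ (fun z : (ℝ × ℝ) × ℝ => x z.1 z.2) z (0, 1) := by
      funext z
      exact (hasDerivAt_x hx z).deriv
    rw [e]
    exact ((hx.fderiv_right (m := ∞) (by simp)).contDiffAt).clm_apply contDiffAt_const
  have hdc : ContDiff ℝ ∞ (deriv c) := ContDiff.deriv' (n := ∞) (by simpa using hc)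
  have e2 : ContDiffAt ℝ ∞ (fun z : (ℝ × ℝ) × ℝ => deriv c z.2) z :=
    (hdc.comp contDiff_snd).contDiffAt
  have e3 : ContDiffAt ℝ ∞ (fun z : (ℝ × ℝ) × ℝ => qinv (deriv c z.2)) z :=
    ContDiffAt.comp (g := qinv) (f := fun z : (ℝ × ℝ) × ℝ => deriv c z.2) z
      (contDiffAt_qinv h3) e2
  have e4 : ContDiffAt ℝ ∞ (fun z : (ℝ × ℝ) × ℝ => fderiv ℝ G ((z.2, 0) : R4)) z := by
    have g1 : ContDiffAt ℝ ∞ (fun z : (ℝ × ℝ) × ℝ => ((z.2, 0) : R4)) z :=
      (contDiff_snd.prodMk contDiff_const).contDiffAt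
    have g2 : ContDiffAt ℝ ∞ (fderiv ℝ G) ((z.2, 0) : R4) :=
      h2.fderiv_right (m := ∞) (by simp)
    exact ContDiffAt.comp z g2 g1
  have e5 : ContDiffAt ℝ ∞
      (fun z : (ℝ × ℝ) × ℝ => qmul (deriv (x z.1) z.2 - deriv c z.2)) z :=
    (qmul.contDiff.contDiffAt).comp z (e1.sub e2)
  have e6 : ContDiffAt ℝ ∞ (fun z : (ℝ × ℝ) × ℝ => qmul (qinv (deriv c z.2))) z :=
    (qmul.contDiff.contDiffAt).comp z e3
  exact e5.clm_comp (e6.clm_comp e4)

/-- pointwise smoothness of the thickening -/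
theorem contDiffAt_thk (hc : ContDiff ℝ ∞ c)
    (hx : ContDiff ℝ ∞ (fun z : (ℝ × ℝ) × ℝ => x z.1 z.2)) {a : ℝ × ℝ} {p : R4}
    (h1 : ContDiffAt ℝ ∞ G p) (h2 : ContDiffAt ℝ ∞ G (p.1, 0)) (h3 : deriv c p.1 ≠ 0) :
    ContDiffAt ℝ ∞ (fun z : (ℝ × ℝ) × R4 => thk G c (x z.1) z.2) (a, p) := by
  have a1 : ContDiffAt ℝ ∞ (fun z : (ℝ × ℝ) × R4 => G z.2) (a, p) :=
    ContDiffAt.comp (a, p) h1 contDiffAt_snd
  have a3 : ContDiffAt ℝ ∞ (fun z : (ℝ × ℝ) × R4 => ((z.1, z.2.1) : (ℝ × ℝ) × ℝ)) (a, p) :=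
    (contDiff_fst.prodMk (contDiff_fst.comp contDiff_snd)).contDiffAt
  have a4 : ContDiffAt ℝ ∞ (fun z : (ℝ × ℝ) × R4 => x z.1 z.2.1) (a, p) :=
    ContDiffAt.comp (g := fun z : (ℝ × ℝ) × ℝ => x z.1 z.2)
      (f := fun z : (ℝ × ℝ) × R4 => ((z.1, z.2.1) : (ℝ × ℝ) × ℝ)) (a, p) hx.contDiffAt a3
  have a5 : ContDiffAt ℝ ∞ (fun z : (ℝ × ℝ) × R4 => c z.2.1) (a, p) :=
    (hc.comp (contDiff_fst.comp contDiff_snd)).contDiffAt
  have a6 : ContDiffAt ℝ ∞ (fun z : (ℝ × ℝ) × R4 => corr G c x (z.1, z.2.1)) (a, p) :=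
    ContDiffAt.comp (g := corr G c x)
      (f := fun z : (ℝ × ℝ) × R4 => ((z.1, z.2.1) : (ℝ × ℝ) × ℝ)) (a, p)
      (contDiffAt_corr (z := (a, p.1)) hc hx h2 h3) a3
  have a7 : ContDiffAt ℝ ∞ (fun z : (ℝ × ℝ) × R4 => (((0 : ℝ), z.2.2) : R4)) (a, p) :=
    (contDiff_const.prodMk (contDiff_snd.comp contDiff_snd)).contDiffAt
  exact (a1.add (a4.sub a5)).add (a6.clm_apply a7)

/-- the derivative of the thickening along the core -/
theorem hasFDerivAt_thk (hc : ContDiff ℝ ∞ c)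
    (hx : ContDiff ℝ ∞ (fun z : (ℝ × ℝ) × ℝ => x z.1 z.2)) {a : ℝ × ℝ} {s : ℝ}
    (h2 : ContDiffAt ℝ ∞ G (s, 0)) (h3 : deriv c s ≠ 0)
    (h4 : fderiv ℝ G (s, 0) (1, 0) = deriv c s) :
    HasFDerivAt (thk G c (x a))
      ((qmul (deriv (x a) s)).comp ((qmul (qinv (deriv c s))).comp
        (fderiv ℝ G (s, 0)))) ((s, 0) : R4) := by
  set p₀ : R4 := (s, 0) with hp₀
  let pr : R4 →L[ℝ] ℝ := ContinuousLinearMap.fst ℝ ℝ (ℝ × ℂ)
  have hpr : ∀ p : R4, pr p = p.1 := fun p => rfl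
  have dpr : HasFDerivAt (fun p : R4 => p.1) pr p₀ := pr.hasFDerivAt
  have d1 : HasFDerivAt G (fderiv ℝ G p₀) p₀ := (h2.differentiableAt (by simp)).hasFDerivAt
  have d3 : HasFDerivAt (fun p : R4 => c p.1) (pr.smulRight (deriv c s)) p₀ := by
    have h0 : HasDerivAt c (deriv c s) s := (hc.differentiable (by simp) s).hasDerivAt
    have h1 := h0.hasFDerivAt.comp p₀ dpr
    refine h1.congr_fderiv ?_
    ext v <;> simp
  have d4 : HasFDerivAt (fun p : R4 => x a p.1) (pr.smulRight (deriv (x a) s)) p₀ := by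
    have h0 : HasDerivAt (x a) (deriv (x a) s) s :=
      (hasDerivAt_x hx (a, s)).differentiableAt.hasDerivAt
    have h1 := h0.hasFDerivAt.comp p₀ dpr
    refine h1.congr_fderiv ?_
    ext v <;> simp
  let ℓ : R4 →L[ℝ] R4 := (0 : R4 →L[ℝ] ℝ).prod (ContinuousLinearMap.snd ℝ ℝ (ℝ × ℂ))
  have d5 : HasFDerivAt (fun p : R4 => (((0 : ℝ), p.2) : R4)) ℓ p₀ := ℓ.hasFDerivAt
  have d6 : DifferentiableAt ℝ (fun p : R4 => corr G c x (a, p.1)) p₀ := by
    have g1 : DifferentiableAt ℝ (corr G c x) (a, s) :=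
      (contDiffAt_corr (z := (a, s)) hc hx h2 h3).differentiableAt (by simp)
    have g2 : DifferentiableAt ℝ (fun p : R4 => ((a, p.1) : (ℝ × ℝ) × ℝ)) p₀ := by fun_prop
    exact DifferentiableAt.comp p₀ g1 g2
  have d7 := d6.hasFDerivAt.clm_apply d5
  have d8 := (d1.add (d4.sub d3)).add d7
  have hval : (((0 : ℝ), p₀.2) : R4) = 0 := by simp [hp₀]
  refine HasFDerivAt.congr_fderiv (f := thk G c (x a)) d8 ?_
  refine ContinuousLinearMap.ext fun v => ?_
  have h7 : fderiv ℝ G p₀ v = v.1 • deriv c s + fderiv ℝ G p₀ (ℓ v) := by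
    rw [← h4, ← map_smul, ← map_add]
    congr 1
    ext <;> simp [ℓ]
  have h8 : qmul (deriv c s) (qmul (qinv (deriv c s)) (fderiv ℝ G p₀ v)) = fderiv ℝ G p₀ v :=
    qmul_qinv_qmul h3 _
  have hB : corr G c x (a, s) = (qmul (deriv (x a) s - deriv c s)).comp
    ((qmul (qinv (deriv c s))).comp (fderiv ℝ G p₀)) := rfl
  have h9 : qmul (qinv (deriv c s)) (deriv c s) = toQ.symm 1 := by
    have hne : toQ (deriv c s) ≠ 0 := by
      intro h0
      exact h3 (by simpa using h0)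
    simp only [qmul_apply, qinv, ContinuousLinearEquiv.apply_symm_apply, inv_mul_cancel₀ hne]
  have h10 : ∀ y : R4, qmul y (toQ.symm 1) = y := by
    intro y
    simp only [qmul_apply, ContinuousLinearEquiv.apply_symm_apply, mul_one,
      ContinuousLinearEquiv.symm_apply_apply]
  simp only [ContinuousLinearMap.add_apply, ContinuousLinearMap.sub_apply,
    ContinuousLinearMap.smulRight_apply, ContinuousLinearMap.comp_apply,
    hval, map_zero, add_zero, hpr]
  have ha : p₀.1 = s := rfl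
  simp only [ha]
  rw [hB]
  simp only [ContinuousLinearMap.comp_apply]
  have h14 : qmul (deriv (x a) s) (qmul (qinv (deriv c s)) (fderiv ℝ G p₀ v)) =
      fderiv ℝ G p₀ v + qmul (deriv (x a) s - deriv c s)
      (qmul (qinv (deriv c s)) (fderiv ℝ G p₀ v)) := by
    rw [map_sub, ContinuousLinearMap.sub_apply, h8]
    abel
  rw [h14]
  conv_rhs => rw [h7]
  rw [map_add, map_add, map_smul, map_smul, h9, h10, h7, ← smul_sub]
  abel

/-- the derivative of the core of a germ, including the ends -/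
theorem core_deriv {s₀ s₁ : ℝ} (h01 : s₀ < s₁) (hG : EmbOn I4 G (seg s₀ s₁))
    (hc : ContDiff ℝ ∞ c) (hGc : ∀ s ∈ Icc s₀ s₁, G (s, 0) = c s) {s : ℝ}
    (hs : s ∈ Icc s₀ s₁) : fderiv ℝ G (s, 0) (1, 0) = deriv c s := by
  have hmem : ((s, 0) : R4) ∈ seg s₀ s₁ := ⟨hs.1, hs.2, rfl⟩
  have hd : HasFDerivAt G (fderiv ℝ G (s, 0)) ((s, 0) : R4) :=
    (((embOn_iff.1 hG).1 _ hmem).1.self_of_nhds.differentiableAt (by simp)).hasFDerivAt
  have l : HasDerivAt (fun r : ℝ => ((r, 0) : R4)) (1, 0) s :=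
    (hasDerivAt_id s).prodMk (hasDerivAt_const s _)
  have e1 : HasDerivAt (fun r : ℝ => G (r, 0)) (fderiv ℝ G (s, 0) (1, 0)) s :=
    HasFDerivAt.comp_hasDerivAt_of_eq s hd l rfl
  have e2 : HasDerivAt c (deriv c s) s := (hc.differentiable (by simp) s).hasDerivAt
  have e3 : HasDerivWithinAt c (fderiv ℝ G (s, 0) (1, 0)) (Icc s₀ s₁) s :=
    e1.hasDerivWithinAt.congr (fun r hr => (hGc r hr).symm) (hGc s hs).symm
  exact (uniqueDiffOn_Icc h01 s hs).eq_deriv _ e3 e2.hasDerivWithinAt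

theorem core_ne_zero {s₀ s₁ : ℝ} (h01 : s₀ < s₁) (hG : EmbOn I4 G (seg s₀ s₁))
    (hc : ContDiff ℝ ∞ c) (hGc : ∀ s ∈ Icc s₀ s₁, G (s, 0) = c s) {s : ℝ}
    (hs : s ∈ Icc s₀ s₁) : deriv c s ≠ 0 := by
  rw [← core_deriv h01 hG hc hGc hs]
  intro h0
  have hmem : ((s, 0) : R4) ∈ seg s₀ s₁ := ⟨hs.1, hs.2, rfl⟩
  have h1 := ((embOn_iff.1 hG).1 _ hmem).2
  have h3 := h1 (h0.trans (map_zero _).symm)
  simp at h3

/-- the value on the core -/
theorem thk_core {s : ℝ} (hGc : G (s, 0) = c s) (y : ℝ → R4) : thk G c y (s, 0) = y s := by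
  have h0 : (((0 : ℝ), ((s, 0) : R4).2) : R4) = 0 := rfl
  unfold thk
  rw [h0, map_zero, map_zero, map_zero, hGc, add_zero]
  exact add_sub_cancel (c s) (y s)

/-- locality of the thickening -/
theorem thk_congr {y y' : ℝ → R4} {p : R4} (h : y =ᶠ[𝓝 p.1] y') :
    thk G c y p = thk G c y' p := by
  unfold thk
  rw [h.deriv_eq, h.self_of_nhds]

theorem thk_base (p : R4) : thk G c c p = G p := by
  unfold thk
  rw [sub_self, sub_self, map_zero, ContinuousLinearMap.zero_apply, add_zero, add_zero]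

end

end THK

open THK in
theorem m_THK : StTHK := by
  intro Q s₀ m₀ m₁ s₁ U G c x h₀ h₁ h₂ hU hG hc hGc hx hfroz hxU hinj himm
  have h01 : s₀ < s₁ := by linarith
  have heq : ∀ p ∈ seg s₀ s₁, p = ((p.1, 0) : R4) := fun p hp => Prod.ext rfl hp.2.2
  have hbase : ∀ a p, x a =ᶠ[𝓝 p.1] c → thk G c (x a) p = G p := fun a p h =>
    (thk_congr h).trans (thk_base p)
  have hcore : ∀ a, ∀ s ∈ Icc s₀ s₁, thk G c (x a) (s, 0) = x a s := fun a s hs =>
    thk_core (hGc s hs) (x a)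
  have hfr : ∀ a ∈ Q, ∀ p : R4, (p.1 < m₀ ∨ m₁ < p.1) → thk G c (x a) p = G p := by
    intro a ha p hp
    refine hbase a p ?_
    rcases hp with hp | hp
    · filter_upwards [Iio_mem_nhds hp] with s hs
      exact hfroz a ha s (Or.inl (le_of_lt hs))
    · filter_upwards [Ioi_mem_nhds hp] with s hs
      exact hfroz a ha s (Or.inr (le_of_lt hs))
  have hdc : Continuous (deriv c) := (ContDiff.deriv' (n := ∞) (by simpa using hc)).continuous
  have hsm : ∀ a, ∀ p ∈ seg s₀ s₁, ∀ᶠ z : (ℝ × ℝ) × R4 in 𝓝 (a, p),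
      ContDiffAt ℝ ∞ (fun z : (ℝ × ℝ) × R4 => thk G c (x z.1) z.2) z := by
    intro a p hp
    have hps : p.1 ∈ Icc s₀ s₁ := ⟨hp.1, hp.2.1⟩
    have hev := ((embOn_iff.1 hG).1 p hp).1
    have t1 : Tendsto (fun z : (ℝ × ℝ) × R4 => z.2) (𝓝 (a, p)) (𝓝 p) :=
      continuous_snd.tendsto (a, p)
    have t2 : Tendsto (fun z : (ℝ × ℝ) × R4 => ((z.2.1, 0) : R4)) (𝓝 (a, p)) (𝓝 p) := by
      have hcont : Continuous (fun z : (ℝ × ℝ) × R4 => ((z.2.1, 0) : R4)) := by fun_prop
      have h := hcont.tendsto (a, p)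
      rwa [show (((((a, p) : (ℝ × ℝ) × R4).2.1, 0) : R4)) = p from (heq p hp).symm] at h
    have t3 : Tendsto (fun z : (ℝ × ℝ) × R4 => deriv c z.2.1) (𝓝 (a, p)) (𝓝 (deriv c p.1)) := by
      have hcont : Continuous (fun z : (ℝ × ℝ) × R4 => deriv c z.2.1) :=
        hdc.comp (continuous_fst.comp continuous_snd)
      exact hcont.tendsto (a, p)
    have e3 : ∀ᶠ z : (ℝ × ℝ) × R4 in 𝓝 (a, p), deriv c z.2.1 ≠ 0 :=
      t3.eventually (isOpen_ne.mem_nhds (core_ne_zero h01 hG hc hGc hps))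
    filter_upwards [t1.eventually hev, t2.eventually hev, e3] with z z1 z2 z3
    exact contDiffAt_thk hc hx (a := z.1) (p := z.2) z1 z2 z3
  refine ⟨⟨fun a _ p hp => hsm a p hp, fun a ha => ?_, fun a ha b hb p hp => ?_,
    fun a ha p hp hpV => ?_⟩, hcore, hbase, fun a b p h => thk_congr h⟩
  · rw [embOn_iff]
    refine ⟨fun p hp => ⟨?_, ?_⟩, fun p hp q hq he => ?_⟩
    · have hcont : Continuous (fun q : R4 => ((a, q) : (ℝ × ℝ) × R4)) := by fun_prop
      filter_upwards [(hcont.tendsto p).eventually (hsm a p hp)] with q hq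
      exact ContDiffAt.comp (g := fun z : (ℝ × ℝ) × R4 => thk G c (x z.1) z.2)
        (f := fun q : R4 => ((a, q) : (ℝ × ℝ) × R4)) q hq
        (contDiff_const.prodMk contDiff_id).contDiffAt
    · have hps : p.1 ∈ Icc s₀ s₁ := ⟨hp.1, hp.2.1⟩
      have hp0 := heq p hp
      have hsmG : ContDiffAt ℝ ∞ G ((p.1, 0) : R4) := by
        rw [← hp0]
        exact ((embOn_iff.1 hG).1 p hp).1.self_of_nhds
      have hne := core_ne_zero h01 hG hc hGc hps
      have hder := hasFDerivAt_thk (a := a) hc hx hsmG hne (core_deriv h01 hG hc hGc hps)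
      rw [← hp0] at hder
      rw [hder.fderiv]
      have i1 := ((embOn_iff.1 hG).1 p hp).2
      have i2 := qmul_injective (qinv_ne_zero hne)
      have i3 := qmul_injective (himm a ha p.1 hps)
      exact i3.comp (i2.comp i1)
    · have hps : p.1 ∈ Icc s₀ s₁ := ⟨hp.1, hp.2.1⟩
      have hqs : q.1 ∈ Icc s₀ s₁ := ⟨hq.1, hq.2.1⟩
      rw [heq p hp, heq q hq, hcore a _ hps, hcore a _ hqs] at he
      rw [heq p hp, heq q hq, hinj a ha hps hqs he]
  · rw [hfr a ha p hp, hfr b hb p hp]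
  · have hps : p.1 ∈ Icc s₀ s₁ := ⟨hp.1, hp.2.1⟩
    have h3 : p.1 ∈ Icc m₀ m₁ := by
      constructor
      · by_contra hcon
        exact hpV (Or.inl (not_le.1 hcon))
      · by_contra hcon
        exact hpV (Or.inr (not_le.1 hcon))
    show thk G c (x a) p ∈ U
    rw [heq p hp, hcore a _ hps]
    exact hxU a ha p.1 h3

end Pool.Agent.Helper27.H


end

/-! ## Helper70.BI.M_NO1 -/

section

/-!
# Project BI, module E-NO1: a path which stays near the ball but does not cross it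
-/

set_option autoImplicit false

open scoped Manifold ContDiff Topology ComplexConjugate
open Set Filter Pool.Agent.Helper65.Barb Pool.Agent.Helper18.BI

namespace Pool.Agent.Helper70.BI

namespace NO1

open Pool.Agent.Helper34.BI (hat contDiff_hat hat_ne_zero hat_eq_zero hat_nonneg hat_le_one fam
  GenPos exists_genPos)

/-- the part of the ball where the path is allowed -/
def UU (d r lam : ℝ) : Set R4 :=
  {p | ‖p - ax 1‖ < r ∧ (d * (p.1 - 1 / 2) < 0 ∨ p.2.1 < 1 - lam / 5)}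

theorem norm_lt {p : R4} {r : ℝ} (h1 : |p.1 - 1 / 2| < r) (h2 : |p.2.1 - 1| < r)
    (h3 : ‖p.2.2‖ < r) : ‖p - ax 1‖ < r := by
  rw [Prod.norm_def, max_lt_iff]
  refine ⟨h1, ?_⟩
  rw [Prod.norm_def, max_lt_iff]
  refine ⟨h2, ?_⟩
  change ‖p.2.2 - 0‖ < r
  rwa [sub_zero]

theorem isOpen_UU (d r lam : ℝ) : IsOpen (UU d r lam) := by
  have h0 : IsOpen {p : R4 | ‖p - ax 1‖ < r} :=
    isOpen_lt (by fun_prop) continuous_const
  have h1 : IsOpen {p : R4 | d * (p.1 - 1 / 2) < 0} :=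
    isOpen_lt (by fun_prop) continuous_const
  have h2 : IsOpen {p : R4 | p.2.1 < 1 - lam / 5} :=
    isOpen_lt (by fun_prop) continuous_const
  exact h0.inter (h1.union h2)

theorem isPreconnected_UU {d r lam : ℝ} (hd : d = 1 ∨ d = -1) (hlam : 0 < lam) (hlr : lam < r) :
    IsPreconnected (UU d r lam) := by
  have cB : Convex ℝ {p : R4 | ‖p - ax 1‖ < r} := by
    have : {p : R4 | ‖p - ax 1‖ < r} = Metric.ball (ax 1) r := by
      ext p
      simp [dist_eq_norm]
    rw [this]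
    exact convex_ball _ _
  have c1 : Convex ℝ {p : R4 | d * (p.1 - 1 / 2) < 0} := by
    rcases hd with h | h
    · have : {p : R4 | d * (p.1 - 1 / 2) < 0} = {p : R4 | p.1 < 1 / 2} := by
        ext p
        simp only [mem_setOf_eq, h]
        constructor <;> intro h <;> linarith
      rw [this]
      exact convex_halfSpace_lt (LinearMap.fst ℝ ℝ (ℝ × ℂ)).isLinear _
    · have : {p : R4 | d * (p.1 - 1 / 2) < 0} = {p : R4 | 1 / 2 < p.1} := by
        ext p
        simp only [mem_setOf_eq, h]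
        constructor <;> intro h <;> linarith
      rw [this]
      exact convex_halfSpace_gt (LinearMap.fst ℝ ℝ (ℝ × ℂ)).isLinear _
  have c2 : Convex ℝ {p : R4 | p.2.1 < 1 - lam / 5} :=
    convex_halfSpace_lt ((LinearMap.fst ℝ ℝ ℂ).comp (LinearMap.snd ℝ ℝ (ℝ × ℂ))).isLinear _
  have key := IsPreconnected.union ((1 / 2 - d * (r / 2), (1 - lam / 2, 0)) : R4) ?_ ?_
    (cB.inter c1).isPreconnected (cB.inter c2).isPreconnected
  · have : UU d r lam = ({p : R4 | ‖p - ax 1‖ < r} ∩ {p : R4 | d * (p.1 - 1 / 2) < 0}) ∪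
        ({p : R4 | ‖p - ax 1‖ < r} ∩ {p : R4 | p.2.1 < 1 - lam / 5}) := by
      rw [← inter_union_distrib_left]
      rfl
    rw [this]
    exact key
  all_goals
    have hr : 0 < r := hlam.trans hlr
    have hn : ‖((1 / 2 - d * (r / 2), (1 - lam / 2, 0)) : R4) - ax 1‖ < r := by
      refine norm_lt ?_ ?_ ?_
      · change |1 / 2 - d * (r / 2) - 1 / 2| < r
        rw [abs_lt]
        rcases hd with h | h <;> rw [h] <;> constructor <;> linarith
      · change |1 - lam / 2 - 1| < r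
        rw [abs_lt]
        constructor <;> linarith
      · change ‖(0 : ℂ)‖ < r
        rwa [norm_zero]
    refine ⟨hn, ?_⟩
  · change d * (1 / 2 - d * (r / 2) - 1 / 2) < 0
    rcases hd with h | h <;> rw [h] <;> linarith
  · change 1 - lam / 2 < 1 - lam / 5
    linarith

end NO1

open NO1 Pool.Agent.Helper34.BI in
theorem m_NO1 (hPATH : StPATH) : StNO1 := by
  intro c d δ r lam hd hlam hlr hrδ hδ hc hinj hder hmid hend
  have hr : 0 < r := hlam.trans hlr
  have hdd : d * d = 1 := by rcases hd with h | h <;> rw [h] <;> norm_num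
  -- the path
  have side1 : ∀ a ∈ Icc (2 / 5 - r / 2) (2 / 5 - r / 2 + r / 4), c a ∈ UU d r lam := by
    rintro a ⟨h1, h2⟩
    have h3 : |a - 2 / 5| < δ := by rw [abs_lt]; constructor <;> linarith
    rw [hmid a h3]
    refine ⟨norm_lt ?_ ?_ ?_, Or.inl ?_⟩
    · change |1 / 2 + d * (a - 2 / 5) - 1 / 2| < r
      rw [abs_lt]
      rcases hd with h | h <;> rw [h] <;> constructor <;> linarith
    · change |(1 : ℝ) - 1| < r
      rwa [sub_self, abs_zero]
    · change ‖(0 : ℂ)‖ < r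
      rwa [norm_zero]
    · change d * (1 / 2 + d * (a - 2 / 5) - 1 / 2) < 0
      have : d * (1 / 2 + d * (a - 2 / 5) - 1 / 2) = (d * d) * (a - 2 / 5) := by ring
      rw [this, hdd]
      linarith
  have side2 : ∀ a ∈ Icc (79 / 100 - r / 4) (79 / 100 : ℝ), c a ∈ UU d r lam := by
    rintro a ⟨h1, h2⟩
    have h3 : a ∈ Icc (39 / 50 : ℝ) (4 / 5) := ⟨by linarith, by linarith⟩
    rw [hend a h3]
    refine ⟨norm_lt ?_ ?_ ?_, Or.inr ?_⟩
    · change |(1 / 2 : ℝ) - 1 / 2| < r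
      rwa [sub_self, abs_zero]
    · change |1 - lam * (1 - a) - 1| < r
      rw [abs_lt]
      constructor <;> nlinarith
    · change ‖(0 : ℂ)‖ < r
      rwa [norm_zero]
    · change 1 - lam * (1 - a) < 1 - lam / 5
      nlinarith
  obtain ⟨q₀, hq₀, hl, hR, hU⟩ := hPATH (UU d r lam) (2 / 5 - r / 2) (79 / 100) (r / 4) c c
    (isOpen_UU d r lam) (isPreconnected_UU hd hlam hlr) (by linarith) (by linarith) hc hc side1 side2
  -- the room around the path
  obtain ⟨ε, hε, hball⟩ : ∃ ε : ℝ, 0 < ε ∧ ∀ a ∈ Icc (2 / 5 - r / 2) (79 / 100 : ℝ), ∀ e : R4,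
      ‖e‖ < ε → q₀ a + e ∈ UU d r lam := by
    have hK : IsCompact (q₀ '' Icc (2 / 5 - r / 2) (79 / 100 : ℝ)) :=
      isCompact_Icc.image hq₀.continuous
    have hsub : q₀ '' Icc (2 / 5 - r / 2) (79 / 100 : ℝ) ⊆ UU d r lam := by
      rintro _ ⟨a, ha, rfl⟩
      exact hU a ha
    obtain ⟨ε, hε, hth⟩ := hK.exists_thickening_subset_open (isOpen_UU d r lam) hsub
    refine ⟨ε, hε, fun a ha e he => hth ?_⟩
    rw [Metric.mem_thickening_iff]
    refine ⟨q₀ a, ⟨a, ha, rfl⟩, ?_⟩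
    rw [dist_eq_norm, add_sub_cancel_left]
    exact he
  let h : ℝ × ℝ → R4 := fun p => q₀ p.2
  let χ : ℝ → ℝ := hat (2 / 5 - r / 2) (79 / 100)
  have hχ : ContDiff ℝ ∞ χ := contDiff_hat _ _
  have hh : ContDiff ℝ ∞ h := hq₀.comp contDiff_snd
  have hE : Module.finrank ℝ R4 = 4 := by
    simp [R4, Complex.finrank_real_complex]
  obtain ⟨v, w, hv, hw, hgp⟩ := exists_genPos (E := R4) (Y := ℂ) (h := h) (ρ := fun _ => 1)
    (χ := χ) hE Complex.finrank_real_complex hh contDiff_const hχ (ι := Empty) (κ := Empty)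
    (f := fun i => i.elim) (T := fun i => i.elim) (fun i => i.elim) (fun i => i.elim)
    (g := fun i => i.elim) (fun i => i.elim) (half_pos hε)
  let H : ℝ × ℝ → R4 := fam h (fun _ => 1) χ v w
  have hH : ContDiff ℝ ∞ H := by
    have e1 : ContDiff ℝ ∞ (fun p : ℝ × ℝ => χ p.2) := hχ.comp contDiff_snd
    have e2 : ContDiff ℝ ∞ (fun p : ℝ × ℝ => v + p.2 • w) := by fun_prop
    exact hh.add ((contDiff_const.mul e1).smul e2)
  let q : ℝ → R4 := fun a => H (0, a)
  have hqd : ∀ a, q a = q₀ a + χ a • (v + a • w) := by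
    intro a
    change q₀ a + (1 * χ a) • (v + a • w) = _
    rw [one_mul]
  have hq : ContDiff ℝ ∞ q := hH.comp (contDiff_const.prodMk contDiff_id)
  have hql : ∀ a, a ≤ 2 / 5 - r / 2 → q a = c a := by
    intro a ha
    have e1 : χ a = 0 := hat_eq_zero (Or.inl ha)
    rw [hqd, e1, zero_smul, add_zero, hl a (by linarith)]
  have hqr : ∀ a, 79 / 100 ≤ a → q a = c a := by
    intro a ha
    have e1 : χ a = 0 := hat_eq_zero (Or.inr ha)
    rw [hqd, e1, zero_smul, add_zero, hR a (by linarith)]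
  have hone : (1 : ℝ) ≠ 0 := one_ne_zero
  refine ⟨q, hq, hql, hqr, ?_, ?_, ?_⟩
  · intro a ha
    have e2 : ‖χ a • (v + a • w)‖ < ε := by
      have f1 : ‖χ a‖ ≤ 1 := by
        rw [Real.norm_eq_abs, abs_of_nonneg (hat_nonneg _ _ _)]
        exact hat_le_one _ _ _
      have f2 : ‖a • w‖ ≤ ‖w‖ := by
        rw [norm_smul, Real.norm_eq_abs]
        have : |a| ≤ 1 := by rw [abs_le]; constructor <;> linarith [ha.1, ha.2]
        nlinarith [norm_nonneg w]
      have f3 : ‖v + a • w‖ ≤ ‖v‖ + ‖a • w‖ := norm_add_le _ _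
      rw [norm_smul]
      have f4 : ‖χ a‖ * ‖v + a • w‖ ≤ 1 * ‖v + a • w‖ :=
        mul_le_mul_of_nonneg_right f1 (norm_nonneg _)
      linarith
    have e3 := hball a ha _ e2
    rw [← hqd] at e3
    exact e3
  · intro u hu u' hu' he
    by_contra hne
    by_cases k : χ u = 0 ∧ χ u' = 0
    · have side : ∀ x, χ x = 0 → q x = c x := by
        intro x hx
        have h5 : ¬ (2 / 5 - r / 2 < x ∧ x < 79 / 100) := fun h => (hat_ne_zero.2 h) hx
        rcases le_or_gt x (2 / 5 - r / 2) with h6 | h6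
        · exact hql x h6
        · exact hqr x (not_lt.1 fun h7 => h5 ⟨h6, h7⟩)
      rw [side u k.1, side u' k.2] at he
      exact hne (hinj hu hu' he)
    · have k' : χ u ≠ 0 ∨ χ u' ≠ 0 := by
        by_contra hcon
        push Not at hcon
        exact k hcon
      exact hgp.inj 0 u u' hone hne k' he
  · intro a ha
    rcases le_or_gt a (2 / 5 - r / 2) with h6 | h6
    · have d1 : derivWithin q (Iic (2 / 5 - r / 2)) a = deriv q a :=
        (hq.differentiable (by simp) a).derivWithin (uniqueDiffOn_Iic _ a h6)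
      have d2 : derivWithin c (Iic (2 / 5 - r / 2)) a = deriv c a :=
        (hc.differentiable (by simp) a).derivWithin (uniqueDiffOn_Iic _ a h6)
      have d3 : derivWithin q (Iic (2 / 5 - r / 2)) a = derivWithin c (Iic (2 / 5 - r / 2)) a :=
        derivWithin_congr (fun x hx => hql x hx) (hql a h6)
      rw [← d1, d3, d2]
      exact hder a ha
    · rcases lt_or_ge a (79 / 100) with h7 | h7
      · have h8 := hgp.imm 0 a hone (hat_ne_zero.2 ⟨h6, h7⟩)
        have h9 : HasDerivAt q (fderiv ℝ H (0, a) (0, 1)) a := by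
          have g1 : HasFDerivAt H (fderiv ℝ H (0, a)) (0, a) :=
            (hH.differentiable (by simp) (0, a)).hasFDerivAt
          have g2 : HasDerivAt (fun a : ℝ => ((0 : ℝ), a)) ((0 : ℝ), (1 : ℝ)) a :=
            (hasDerivAt_const a (0 : ℝ)).prodMk (hasDerivAt_id a)
          exact g1.comp_hasDerivAt a g2
        rw [h9.deriv]
        exact h8
      · have d1 : derivWithin q (Ici (79 / 100)) a = deriv q a :=
          (hq.differentiable (by simp) a).derivWithin (uniqueDiffOn_Ici _ a h7)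
        have d2 : derivWithin c (Ici (79 / 100)) a = deriv c a :=
          (hc.differentiable (by simp) a).derivWithin (uniqueDiffOn_Ici _ a h7)
        have d3 : derivWithin q (Ici (79 / 100)) a = derivWithin c (Ici (79 / 100)) a :=
          derivWithin_congr (fun x hx => hqr x hx) (hqr a h7)
        rw [← d1, d3, d2]
        exact hder a ha

end Pool.Agent.Helper70.BI


end

/-! ## Helper70.BI.M_TR -/

section

/-!
# Project BI, module TR: compositions and translations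
-/

set_option autoImplicit false

open scoped Manifold ContDiff Topology ComplexConjugate
open Set Filter Pool.Agent.Helper65.Barb Pool.Agent.Helper18.BI

namespace Pool.Agent.Helper70.BI

namespace TR

variable {E : Type} [NormedAddCommGroup E] [NormedSpace ℝ E]

theorem realG_comp {U : Set E} {y₀ : E} {f₁ f₂ : E → E} (h₁ : RealG U y₀ f₁)
    (h₂ : RealG U (f₁ y₀) f₂) (hc : ContinuousAt f₁ y₀) : RealG U y₀ (fun y => f₂ (f₁ y)) := by
  obtain ⟨G₁, a₁, ⟨C₁, c₁, s₁, t₁⟩, e₁⟩ := h₁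
  obtain ⟨G₂, a₂, ⟨C₂, c₂, s₂, t₂⟩, e₂⟩ := h₂
  refine ⟨G₂.comp G₁, ?_, ⟨C₁ ∪ C₂, c₁.union c₂, union_subset s₁ s₂, ?_⟩, ?_⟩
  · intro y
    change G₂.f (0, G₁.f (0, y)) = y
    rw [a₁, a₂]
  · intro t y hy
    rw [mem_union, not_or] at hy
    change G₂.f (t, G₁.f (t, y)) = y
    rw [t₁ t y hy.1, t₂ t y hy.2]
  · filter_upwards [e₁, hc.eventually e₂] with y h3 h4
    change G₂.f (1, G₁.f (1, y)) = f₂ (f₁ y)
    rw [h3, h4]

theorem small [FiniteDimensional ℝ E] (hPT : StPT) {U : Set E} (hU : IsOpen U) {y₀ : E}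
    (hy₀ : y₀ ∈ U) : ∃ ε : ℝ, 0 < ε ∧ ∀ z ∈ Metric.ball y₀ ε, ∀ z' ∈ Metric.ball y₀ ε,
      RealG U z (fun y => y + (z' - z)) := by
  have hprop : ProperSpace E := FiniteDimensional.proper_real E
  obtain ⟨r, hr, hrU⟩ := Metric.isOpen_iff.1 hU y₀ hy₀
  let b : ContDiffBump y₀ := ⟨r / 4, r / 2, by positivity, by linarith⟩
  have hbsm : ContDiff ℝ ∞ (b : E → ℝ) := b.contDiff
  obtain ⟨K, hK⟩ := ContDiff.lipschitzWith_of_hasCompactSupport b.hasCompactSupport hbsm (by simp)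
  have hK0 : (0 : ℝ) ≤ K := K.2
  refine ⟨min (r / 8) (1 / (4 * (K + 1))), by positivity, ?_⟩
  intro z hz z' hz'
  rw [Metric.mem_ball] at hz hz'
  have hz1 : dist z y₀ < r / 8 := lt_of_lt_of_le hz (min_le_left _ _)
  have hv : ‖z' - z‖ ≤ 1 / (2 * (K + 1)) := by
    have h1 : dist z y₀ < 1 / (4 * (K + 1)) := lt_of_lt_of_le hz (min_le_right _ _)
    have h2 : dist z' y₀ < 1 / (4 * (K + 1)) := lt_of_lt_of_le hz' (min_le_right _ _)
    have h3 : ‖z' - z‖ ≤ dist z' y₀ + dist z y₀ := by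
      rw [← dist_eq_norm]
      exact dist_triangle_right _ _ _
    have h4 : 1 / (2 * ((K : ℝ) + 1)) = 1 / (4 * (K + 1)) + 1 / (4 * (K + 1)) := by
      field_simp
      norm_num
    rw [h4]
    linarith
  let g : ℝ × E → E := fun q => (step q.1 * b q.2) • (z' - z)
  have hg : ContDiff ℝ ∞ g :=
    ((contDiff_step.comp contDiff_fst).mul (hbsm.comp contDiff_snd)).smul contDiff_const
  have hstep : ∀ t, 0 ≤ step t ∧ step t ≤ 1 := fun t =>
    ⟨Real.smoothTransition.nonneg t, Real.smoothTransition.le_one t⟩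
  have hlip : ∀ t x y, ‖g (t, x) - g (t, y)‖ ≤ 1 / 2 * ‖x - y‖ := by
    intro t x y
    have e1 : g (t, x) - g (t, y) = (step t * (b x - b y)) • (z' - z) := by
      simp only [g]
      rw [← sub_smul, mul_sub]
    rw [e1, norm_smul, norm_mul, Real.norm_of_nonneg (hstep t).1]
    have h1 : ‖b x - b y‖ ≤ K * ‖x - y‖ := by
      have := hK.dist_le_mul x y
      rwa [dist_eq_norm, dist_eq_norm] at this
    have h2 : step t * ‖b x - b y‖ ≤ K * ‖x - y‖ := by
      have := mul_le_mul_of_nonneg_right (hstep t).2 (norm_nonneg (b x - b y))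
      linarith
    have h3 : step t * ‖b x - b y‖ * ‖z' - z‖ ≤ K * ‖x - y‖ * (1 / (2 * (K + 1))) :=
      mul_le_mul h2 hv (norm_nonneg _) (by positivity)
    refine h3.trans ?_
    have h4 : (K : ℝ) * (1 / (2 * (K + 1))) ≤ 1 / 2 := by
      rw [mul_one_div, div_le_div_iff₀ (by positivity) (by norm_num)]
      linarith
    calc (K : ℝ) * ‖x - y‖ * (1 / (2 * (K + 1))) = (K * (1 / (2 * (K + 1)))) * ‖x - y‖ := by ring
      _ ≤ 1 / 2 * ‖x - y‖ := mul_le_mul_of_nonneg_right h4 (norm_nonneg _)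
  obtain ⟨F, hF⟩ := hPT E g hg hlip
  refine ⟨F, ?_, ⟨Metric.closedBall y₀ (r / 2), isCompact_closedBall _ _, ?_, ?_⟩, ?_⟩
  · intro y
    rw [hF]
    simp only [g]
    rw [step_of_nonpos le_rfl, zero_mul, zero_smul, add_zero]
  · exact (Metric.closedBall_subset_ball (by linarith)).trans hrU
  · intro t y hy
    rw [hF]
    simp only [g]
    rw [Metric.mem_closedBall, not_le] at hy
    rw [b.zero_of_le_dist hy.le, mul_zero, zero_smul, add_zero]
  · filter_upwards [Metric.ball_mem_nhds z (show (0 : ℝ) < r / 8 by linarith)] with y hy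
    rw [Metric.mem_ball] at hy
    rw [hF]
    simp only [g]
    have h5 : dist y y₀ ≤ r / 4 := by
      have := dist_triangle y z y₀
      linarith
    rw [step_of_one_le le_rfl, b.one_of_mem_closedBall (Metric.mem_closedBall.2 h5), mul_one,
      one_smul]

end TR

theorem m_TR (hPT : StPT) : StTR := by
  intro E _ _ _
  refine ⟨fun U y₀ f₁ f₂ h₁ h₂ hc => TR.realG_comp h₁ h₂ hc, ?_⟩
  intro U y₀ y₁ hU hconn hy₀ hy₁
  refine hconn.induction₂' (fun z z' => RealG U z (fun y => y + (z' - z))) ?_ ?_ hy₀ hy₁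
  · intro z hz
    obtain ⟨ε, hε, h⟩ := TR.small hPT hU hz
    have hb : Metric.ball z ε ∈ 𝓝[U] z := mem_nhdsWithin_of_mem_nhds (Metric.ball_mem_nhds z hε)
    filter_upwards [hb] with z' hz'
    exact ⟨h z (Metric.mem_ball_self hε) z' hz', h z' hz' z (Metric.mem_ball_self hε)⟩
  · intro z z' z'' _ _ _ h1 h2
    have h3 := TR.realG_comp (f₂ := fun y => y + (z'' - z')) h1 (by simpa using h2)
      (by fun_prop)
    have e : (fun y : E => y + (z'' - z)) = fun y => y + (z' - z) + (z'' - z') := by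
      funext y
      abel
    rw [e]
    exact h3

end Pool.Agent.Helper70.BI


end

/-! ## Helper70.BI.M_GL -/

section

/-!
# Project BI, part (E): module GL

The group of linear maps with positive determinant is generated by every neighbourhood of the
identity.
-/

set_option autoImplicit false

open scoped Manifold ContDiff Topology ComplexConjugate
open Set Filter Pool.Agent.Helper65.Barb Pool.Agent.Helper18.BI

namespace Pool.Agent.Helper70.BI

namespace GLgen

variable {n : Type} [Fintype n] [DecidableEq n]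

lemma pow_mem {Q : Matrix n n ℝ → Prop} (hmul : ∀ A B, Q A → Q B → Q (A * B))
    {A : Matrix n n ℝ} (hA : Q A) (k : ℕ) : Q (A ^ (k + 1)) := by
  induction k with
  | zero => simpa using hA
  | succ k ih => rw [pow_succ]; exact hmul _ _ ih hA

/-- one-parameter groups -/
lemma one_param {Q : Matrix n n ℝ → Prop} (hmul : ∀ A B, Q A → Q B → Q (A * B))
    (hnear : ∀ᶠ M in 𝓝 (1 : Matrix n n ℝ), Q M) (f : ℝ → Matrix n n ℝ) (hf : Continuous f)
    (h0 : f 0 = 1) (hadd : ∀ s t, f (s + t) = f s * f t) (t : ℝ) : Q (f t) := by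
  have hpow : ∀ (k : ℕ) (s : ℝ), f (((k + 1 : ℕ) : ℝ) * s) = f s ^ (k + 1) := by
    intro k s
    induction k with
    | zero => simp
    | succ k ih =>
      rw [pow_succ, ← ih, ← hadd]
      congr 1
      push_cast
      ring
  have hlim : Tendsto (fun N : ℕ => f (t * (1 / ((N : ℝ) + 1)))) atTop (𝓝 1) := by
    rw [← h0]
    have h1 : Tendsto (fun N : ℕ => t * (1 / ((N : ℝ) + 1))) atTop (𝓝 (t * 0)) :=
      tendsto_const_nhds.mul tendsto_one_div_add_atTop_nhds_zero_nat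
    rw [mul_zero] at h1
    exact (hf.tendsto 0).comp h1
  obtain ⟨N, hN⟩ := (hlim.eventually hnear).exists
  have h2 := pow_mem hmul hN N
  rw [← hpow] at h2
  have h3 : (((N + 1 : ℕ) : ℝ) * (t * (1 / ((N : ℝ) + 1)))) = t := by
    push_cast
    have : (N : ℝ) + 1 ≠ 0 := by positivity
    field_simp
  rwa [h3] at h2

lemma transv {Q : Matrix n n ℝ → Prop} (hmul : ∀ A B, Q A → Q B → Q (A * B))
    (hnear : ∀ᶠ M in 𝓝 (1 : Matrix n n ℝ), Q M) (i j : n) (hij : i ≠ j) (c : ℝ) :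
    Q (Matrix.transvection i j c) := by
  refine one_param hmul hnear (fun c => Matrix.transvection i j c) ?_ ?_ ?_ c
  · unfold Matrix.transvection
    refine continuous_const.add ?_
    refine continuous_matrix fun a b => ?_
    by_cases h : i = a ∧ j = b
    · obtain ⟨rfl, rfl⟩ := h
      simpa using continuous_id'
    · simp only [Matrix.single_apply, h, if_false]
      exact continuous_const
  · exact Matrix.transvection_zero i j
  · intro s t
    exact (Matrix.transvection_mul_transvection_same i j hij s t).symm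

lemma diag_pos {Q : Matrix n n ℝ → Prop} (hmul : ∀ A B, Q A → Q B → Q (A * B))
    (hnear : ∀ᶠ M in 𝓝 (1 : Matrix n n ℝ), Q M) (D : n → ℝ) (hD : ∀ i, 0 < D i) :
    Q (Matrix.diagonal D) := by
  have h := one_param hmul hnear
    (fun t => Matrix.diagonal (fun i => Real.exp (t * Real.log (D i)))) ?_ ?_ ?_ 1
  · have h1 : (fun i => Real.exp (1 * Real.log (D i))) = D := by
      funext i
      rw [one_mul, Real.exp_log (hD i)]
    rw [h1] at h
    exact h
  · exact Continuous.matrix_diagonal (by fun_prop)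
  · simp
  · intro s t
    rw [Matrix.diagonal_mul_diagonal]
    congr 1
    funext i
    rw [← Real.exp_add]
    congr 1
    ring

/-- the rotation by `π` in the `(i, j)`-plane -/
lemma rot {Q : Matrix n n ℝ → Prop} (hmul : ∀ A B, Q A → Q B → Q (A * B))
    (hnear : ∀ᶠ M in 𝓝 (1 : Matrix n n ℝ), Q M) (i j : n) (hij : i ≠ j) :
    Q (Matrix.diagonal (fun k => if k = i ∨ k = j then (-1 : ℝ) else 1)) := by
  have h1 := transv hmul hnear i j hij 1
  have h2 := transv hmul hnear j i hij.symm (-1)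
  have h3 := hmul _ _ (hmul _ _ h1 h2) h1
  have h4 := hmul _ _ h3 h3
  have hji := hij.symm
  have hw : Matrix.transvection i j (1 : ℝ) * Matrix.transvection j i (-1) *
      Matrix.transvection i j 1 =
      1 + Matrix.single i j 1 - Matrix.single j i 1 - Matrix.single i i 1 - Matrix.single j j 1 := by
    unfold Matrix.transvection
    have e1 : Matrix.single j i (-1 : ℝ) = - Matrix.single j i 1 := by
      ext a b; simp [Matrix.single_apply]; split_ifs <;> simp
    rw [e1]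
    simp only [mul_add, add_mul, mul_one, one_mul, mul_neg, neg_mul,
      Matrix.single_mul_single_same, Matrix.single_mul_single_of_ne _ _ _ _ hji,
      Matrix.single_mul_single_of_ne _ _ _ _ hij]
    abel
  rw [hw] at h4
  convert h4 using 1
  have hd : (Matrix.diagonal (fun k => if k = i ∨ k = j then (-1 : ℝ) else 1)) =
      1 - (Matrix.single i i 1 + Matrix.single j j 1) - (Matrix.single i i 1 + Matrix.single j j 1) := by
    ext a b
    by_cases hab : a = b
    · subst hab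
      by_cases hai : a = i
      · subst hai
        simp [hij, hji]
      · by_cases haj : a = j
        · subst haj
          simp [hij, hji]
        · have hia : ¬ i = a := fun h => hai h.symm
          have hja : ¬ j = a := fun h => haj h.symm
          simp [hai, haj, hia, hja]
    · have h5 : ¬ (i = a ∧ i = b) := fun h => hab (h.1.symm.trans h.2)
      have h6 : ¬ (j = a ∧ j = b) := fun h => hab (h.1.symm.trans h.2)
      simp [hab, h5, h6]
  rw [hd]
  simp only [mul_add, add_mul, mul_sub, sub_mul, mul_one, one_mul,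
      Matrix.single_mul_single_same, Matrix.single_mul_single_of_ne _ _ _ _ hji,
      Matrix.single_mul_single_of_ne _ _ _ _ hij]
  abel

lemma diag_det {Q : Matrix n n ℝ → Prop} (hmul : ∀ A B, Q A → Q B → Q (A * B))
    (hnear : ∀ᶠ M in 𝓝 (1 : Matrix n n ℝ), Q M) (k : ℕ) :
    ∀ D : n → ℝ, (Finset.univ.filter (fun i => D i < 0)).card ≤ k → 0 < ∏ i, D i →
      Q (Matrix.diagonal D) := by
  induction k with
  | zero =>
    intro D hD hp
    refine diag_pos hmul hnear D fun i => ?_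
    have h1 : ¬ D i < 0 := by
      intro hi
      have : i ∈ Finset.univ.filter (fun i => D i < 0) := by simp [hi]
      rw [Finset.card_eq_zero.mp (Nat.le_zero.mp hD)] at this
      simp at this
    have h2 : D i ≠ 0 := by
      intro h0
      have := Finset.prod_eq_zero (Finset.mem_univ i) h0
      linarith
    exact lt_of_le_of_ne (not_lt.mp h1) h2.symm
  | succ k ih =>
    intro D hD hp
    have hne : ∀ i, D i ≠ 0 := by
      intro i h0
      have := Finset.prod_eq_zero (Finset.mem_univ i) h0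
      linarith
    by_cases hneg : ∃ i, D i < 0
    · obtain ⟨i, hi⟩ := hneg
      have hj : ∃ j, j ≠ i ∧ D j < 0 := by
        by_contra hcon
        push Not at hcon
        have h1 : 0 < ∏ x ∈ Finset.univ.erase i, D x := by
          refine Finset.prod_pos fun x hx => ?_
          exact lt_of_le_of_ne (hcon x (Finset.ne_of_mem_erase hx)) (hne x).symm
        rw [← Finset.mul_prod_erase Finset.univ D (Finset.mem_univ i)] at hp
        nlinarith
      obtain ⟨j, hji, hj⟩ := hj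
      have hij := hji.symm
      have hprod := ih (fun x => if x = i ∨ x = j then - D x else D x) ?_ ?_
      · have h2 := hmul _ _ (rot hmul hnear i j hij) hprod
        rw [Matrix.diagonal_mul_diagonal] at h2
        have h5 : (fun x => (if x = i ∨ x = j then (-1 : ℝ) else 1) *
            if x = i ∨ x = j then - D x else D x) = D := by
          funext x
          by_cases hx : x = i ∨ x = j
          · simp [hx]
          · simp [hx]
        rwa [h5] at h2
      · have hsub : (Finset.univ.filter (fun x => (if x = i ∨ x = j then - D x else D x) < 0)) ⊆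
            (Finset.univ.filter (fun x => D x < 0)).erase i := by
          intro x hx
          simp only [Finset.mem_filter, Finset.mem_univ, true_and, Finset.mem_erase] at hx ⊢
          by_cases hx' : x = i ∨ x = j
          · rw [if_pos hx'] at hx
            rcases hx' with rfl | rfl <;> linarith
          · rw [if_neg hx'] at hx
            push Not at hx'
            exact ⟨hx'.1, hx⟩
        have hmem : i ∈ Finset.univ.filter (fun x => D x < 0) := by simp [hi]
        have := Finset.card_le_card hsub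
        rw [Finset.card_erase_of_mem hmem] at this
        omega
      · have h3 : ∏ x, (if x = i ∨ x = j then - D x else D x) =
            (∏ x, (if x = i ∨ x = j then (-1 : ℝ) else 1)) * ∏ x, D x := by
          rw [← Finset.prod_mul_distrib]
          refine Finset.prod_congr rfl fun x _ => ?_
          by_cases hx : x = i ∨ x = j
          · simp [hx]
          · simp [hx]
        have h4 : (∏ x, (if x = i ∨ x = j then (-1 : ℝ) else 1)) = 1 := by
          rw [Finset.prod_ite, Finset.prod_const, Finset.prod_const_one, mul_one]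
          have : (Finset.univ.filter (fun x => x = i ∨ x = j)) = {i, j} := by
            ext x; simp
          rw [this, Finset.card_pair hij]
          norm_num
        rw [h3, h4, one_mul]
        exact hp
    · push Not at hneg
      exact diag_pos hmul hnear D fun i => lt_of_le_of_ne (hneg i) (hne i).symm

end GLgen

theorem m_GL : StGL := by
  intro E _ _ _ P hP hnear A hA
  obtain ⟨c, hc, hnear⟩ := hnear
  let b := Module.finBasis ℝ E
  let Φ : Matrix (Fin (Module.finrank ℝ E)) (Fin (Module.finrank ℝ E)) ℝ →ₗ[ℝ] (E →L[ℝ] E) :=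
    (LinearMap.toContinuousLinearMap : (E →ₗ[ℝ] E) ≃ₗ[ℝ] (E →L[ℝ] E)).toLinearMap ∘ₗ
      (Matrix.toLin b b).toLinearMap
  have hΦ : ∀ M, Φ M = LinearMap.toContinuousLinearMap (Matrix.toLin b b M) := fun M => rfl
  have hcont : Continuous Φ := LinearMap.continuous_of_finiteDimensional Φ
  have h1 : Φ 1 = ContinuousLinearMap.id ℝ E := by
    rw [hΦ, Matrix.toLin_one]
    ext x
    rfl
  have hmul : ∀ M N, P (Φ M) → P (Φ N) → P (Φ (M * N)) := by
    intro M N hM hN
    have h2 : Φ (M * N) = (Φ M).comp (Φ N) := by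
      rw [hΦ, hΦ, hΦ, Matrix.toLin_mul b b b]
      ext x
      rfl
    rw [h2]
    exact hP _ _ hM hN
  have hn : ∀ᶠ M in 𝓝 (1 : Matrix (Fin (Module.finrank ℝ E)) (Fin (Module.finrank ℝ E)) ℝ),
      P (Φ M) := by
    have h3 : Tendsto Φ (𝓝 1) (𝓝 (ContinuousLinearMap.id ℝ E)) := by
      rw [← h1]
      exact hcont.tendsto 1
    have h4 := h3.eventually (Metric.ball_mem_nhds (ContinuousLinearMap.id ℝ E) hc)
    filter_upwards [h4] with M hM
    refine hnear _ ?_
    rwa [dist_eq_norm] at hM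
  have hfin : P (Φ (LinearMap.toMatrix b b (A : E →ₗ[ℝ] E))) := by
    refine Matrix.diagonal_transvection_induction (fun M => P (Φ M)) _ ?_ ?_ hmul
    · intro D hD
      refine GLgen.diag_det hmul hn _ D le_rfl ?_
      rw [Matrix.det_diagonal, LinearMap.det_toMatrix] at hD
      rw [hD]
      exact hA
    · intro t
      exact GLgen.transv (Q := fun M => P (Φ M)) hmul hn t.i t.j t.hij t.c
  rw [hΦ, Matrix.toLin_toMatrix] at hfin
  have h5 : LinearMap.toContinuousLinearMap (A : E →ₗ[ℝ] E) = A := by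
    ext x
    rfl
  rwa [h5] at hfin

end Pool.Agent.Helper70.BI


end

/-! ## Helper70.BI.M_CL -/

section

/-!
# Project BI, module CL: the contraction around the points `(1/2, c, 0)`
-/

set_option autoImplicit false

open scoped Manifold ContDiff Topology ComplexConjugate
open Set Filter Pool.Agent.Helper65.Barb Pool.Agent.Helper18.BI

namespace Pool.Agent.Helper70.BI

open Pool.Agent.Helper34.BI (cfac cl m_RC)

namespace CL

theorem cfac_contDiff : ContDiff ℝ ∞ (fun q : ℝ × ℝ => cfac q.1 q.2) := by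
  unfold cfac
  exact contDiff_fst.add ((contDiff_const.sub contDiff_fst).mul
    (contDiff_step.comp ((contDiff_snd.sub contDiff_const).div_const _)))

theorem cfac_mono {lam : ℝ} (h : lam ≤ 1) : Monotone (cfac lam) := by
  intro a b hab
  unfold cfac
  have h1 : step ((a - 1 / 20) / (1 / 25)) ≤ step ((b - 1 / 20) / (1 / 25)) :=
    Real.smoothTransition.monotone (by
      apply div_le_div_of_nonneg_right _ (by norm_num)
      linarith)
  nlinarith

theorem cfac_ge {lam : ℝ} (h : lam ≤ 1) (q : ℝ) : lam ≤ cfac lam q := by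
  unfold cfac
  have : 0 ≤ step ((q - 1 / 20) / (1 / 25)) := Real.smoothTransition.nonneg _
  nlinarith

/-- the translation vector -/
noncomputable def tv (c : ℝ) : R4 := (0, pc c)

theorem clc_eq (c lam : ℝ) (p : R4) : clc c lam p = cl lam (p - tv c) + tv c := by
  have h1 : nsq (p - tv c).2 = rsq c p := by
    unfold rsq tv pc nsq
    simp
  unfold clc cl
  rw [h1]
  refine Prod.ext ?_ ?_
  · simp [tv]
  · change pc c + cfac lam (rsq c p) • (p.2 - pc c) = cfac lam (rsq c p) • (p.2 - pc c) + pc c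
    rw [add_comm]

theorem rsq_eq (c : ℝ) (p : R4) : rsq c p = nsq (p - tv c).2 := by
  unfold rsq tv pc nsq
  simp

theorem ld_add (v p : R4) : LD (fun q => q + v) p := by
  rw [ld_iff]
  refine ⟨Eventually.of_forall fun q => (contDiff_id.add contDiff_const).contDiffAt, ?_⟩
  have h : fderiv ℝ (fun q : R4 => q + v) p = ContinuousLinearMap.id ℝ R4 := by
    have h1 : HasFDerivAt (fun q : R4 => q + v) (ContinuousLinearMap.id ℝ R4) p :=
      (hasFDerivAt_id p).add_const v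
    exact h1.fderiv
  rw [h]
  exact fun a b hab => hab

end CL

open CL

theorem m_CL : StCL := by
  intro c _
  obtain ⟨hsm, hone, hrc⟩ := m_RC
  refine ⟨?_, ?_, ?_⟩
  · have h1 : ContDiff ℝ ∞ (fun q : ℝ × R4 => (q.1, q.2 - tv c)) :=
      contDiff_fst.prodMk (contDiff_snd.sub contDiff_const)
    have h2 : ContDiff ℝ ∞ (fun q : ℝ × R4 => cl q.1 (q.2 - tv c) + tv c) :=
      (hsm.comp h1).add contDiff_const
    have e : (fun q : ℝ × R4 => clc c q.1 q.2) =
        fun q : ℝ × R4 => cl q.1 (q.2 - tv c) + tv c := funext fun q => clc_eq c q.1 q.2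
    rw [e]
    exact h2
  · intro p
    rw [clc_eq, hone, sub_add_cancel]
  · intro lam hlam
    obtain ⟨⟨hld, hinj⟩, h1, hin, hout, -, hle, -, -⟩ := hrc lam hlam
    refine ⟨⟨?_, ?_⟩, fun p => rfl, ?_, ?_, ?_, ?_, ?_⟩
    · intro p _
      have e : (clc c lam) = (fun q => q + tv c) ∘ (cl lam ∘ fun q => q + (- tv c)) := by
        funext q
        rw [clc_eq, sub_eq_add_neg]
        rfl
      rw [e]
      exact ld_comp (ld_comp (ld_add _ _) (hld _ (mem_univ _))) (ld_add _ _)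
    · intro p _ q _ h
      rw [clc_eq, clc_eq] at h
      have h2 := hinj (mem_univ _) (mem_univ _) (add_right_cancel h)
      exact sub_left_injective h2
    · intro p hp
      rw [rsq_eq] at hp
      rw [clc_eq, hin _ hp]
      refine Prod.ext ?_ ?_
      · simp [tv]
      · change lam • (p.2 - pc c) + pc c = pc c + lam • (p.2 - pc c)
        rw [add_comm]
    · intro p hp
      rw [rsq_eq] at hp
      rw [clc_eq, hout _ hp, sub_add_cancel]
    · intro a
      have h2 : rsq c (ax a) = (a - c) ^ 2 := by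
        unfold rsq ax nsq
        simp
      unfold clc
      rw [h2]
      refine Prod.ext rfl ?_
      change pc c + cfac lam ((a - c) ^ 2) • (((a, 0) : ℝ × ℂ) - pc c) =
        (c + cfac lam ((a - c) ^ 2) * (a - c), 0)
      unfold pc
      refine Prod.ext ?_ ?_
      · simp
      · simp
    · intro p
      rw [rsq_eq, rsq_eq, clc_eq, add_sub_cancel_right]
      exact hle _
    · intro a
      have hfd : ContDiff ℝ ∞ (cfac lam) :=
        cfac_contDiff.comp (contDiff_const.prodMk contDiff_id)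
      set L : ℝ := deriv (cfac lam) ((a - c) ^ 2) with hL
      have hLd : HasDerivAt (cfac lam) L ((a - c) ^ 2) :=
        (hfd.differentiable (by simp) _).hasDerivAt
      have hL0 : 0 ≤ L := (cfac_mono hlam.2).deriv_nonneg
      have h2 : HasDerivAt (fun a : ℝ => a - c) 1 a := (hasDerivAt_id a).sub_const c
      have h3 : HasDerivAt (fun a : ℝ => (a - c) ^ 2) (2 * (a - c)) a := by
        have h9 := h2.mul h2
        refine (h9.congr_deriv (by ring)).congr_of_eventuallyEq ?_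
        exact Eventually.of_forall fun x => by
          simp only [Pi.mul_apply]; ring
      have h4 : HasDerivAt (fun a : ℝ => cfac lam ((a - c) ^ 2)) (L * (2 * (a - c))) a :=
        HasDerivAt.comp (h₂ := cfac lam) (h := fun a : ℝ => (a - c) ^ 2) a hLd h3
      have h5 := (h4.mul h2).const_add c
      have h6 : deriv (fun a => c + cfac lam ((a - c) ^ 2) * (a - c)) a =
          L * (2 * (a - c)) * (a - c) + cfac lam ((a - c) ^ 2) * 1 := h5.deriv
      rw [h6]
      have h7 := cfac_ge hlam.2 ((a - c) ^ 2)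
      have h8 : 0 ≤ L * (2 * (a - c)) * (a - c) := by
        have : L * (2 * (a - c)) * (a - c) = 2 * L * (a - c) ^ 2 := by ring
        rw [this]; positivity
      have := hlam.1
      linarith

end Pool.Agent.Helper70.BI


end

/-! ## Helper70.BI.M_RM -/

section

/-!
# Project BI, module E-RM: increasing functions with prescribed germs
-/

set_option autoImplicit false

open scoped Manifold ContDiff Topology ComplexConjugate
open Set Filter Pool.Agent.Helper65.Barb Pool.Agent.Helper18.BI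

namespace Pool.Agent.Helper70.BI

namespace RM

/-- cutting off a germ -/
theorem contDiff_cut {p ε : ℝ} {g : ℝ → ℝ} (b : ContDiffBump p)
    (hb : b.rOut < ε) (hg : ∀ a ∈ Metric.ball p ε, ContDiffAt ℝ ∞ g a) :
    ContDiff ℝ ∞ (fun a => b a * g a) := by
  rw [contDiff_iff_contDiffAt]
  intro a
  by_cases ha : a ∈ Metric.ball p ε
  · exact b.contDiffAt.mul (hg a ha)
  · have h1 : b.rOut < dist a p := lt_of_lt_of_le hb (by simpa [Metric.mem_ball] using ha)
    have h2 : ∀ᶠ z in 𝓝 a, b.rOut < dist z p := by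
      have : ContinuousAt (fun z : ℝ => dist z p) a := by fun_prop
      exact this.eventually (lt_mem_nhds h1)
    have h3 : (fun z => b z * g z) =ᶠ[𝓝 a] fun _ => 0 := by
      filter_upwards [h2] with z hz
      rw [b.zero_of_le_dist hz.le, zero_mul]
    exact contDiffAt_const.congr_of_eventuallyEq h3

theorem cut_nonneg {p ε : ℝ} {g : ℝ → ℝ} (b : ContDiffBump p)
    (hb : b.rOut < ε) (hg : ∀ a ∈ Metric.ball p ε, 0 < g a) (a : ℝ) : 0 ≤ b a * g a := by
  by_cases ha : a ∈ Metric.ball p ε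
  · exact mul_nonneg b.nonneg (hg a ha).le
  · have h1 : b.rOut < dist a p := lt_of_lt_of_le hb (by simpa [Metric.mem_ball] using ha)
    rw [b.zero_of_le_dist h1.le, zero_mul]

theorem cut_le {p ε C : ℝ} {g : ℝ → ℝ} (b : ContDiffBump p)
    (hb : b.rOut < ε) (hg : ∀ a ∈ Metric.ball p ε, 0 < g a ∧ g a ≤ C) (a : ℝ) (hC : 0 ≤ C) :
    b a * g a ≤ C := by
  by_cases ha : a ∈ Metric.ball p ε
  · calc b a * g a ≤ 1 * g a := mul_le_mul_of_nonneg_right b.le_one (hg a ha).1.le
      _ ≤ C := by rw [one_mul]; exact (hg a ha).2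
  · have h1 : b.rOut < dist a p := lt_of_lt_of_le hb (by simpa [Metric.mem_ball] using ha)
    rw [b.zero_of_le_dist h1.le, zero_mul]; exact hC

theorem seg {p q c : ℝ} (hpq : p < q) (hc : 0 < c) {g h : ℝ → ℝ}
    (hg : ∀ᶠ a in 𝓝 p, ContDiffAt ℝ ∞ g a) (hh : ∀ᶠ a in 𝓝 q, ContDiffAt ℝ ∞ h a)
    (g0 : 0 < g p) (h0 : 0 < h q) :
    ∃ D : ℝ → ℝ, ContDiff ℝ ∞ D ∧ (∀ a ∈ Icc p q, 0 < D a) ∧ D =ᶠ[𝓝 p] g ∧ D =ᶠ[𝓝 q] h ∧
      ∫ a in p..q, D a = c := by
  set C : ℝ := max (g p) (h q) + 1 with hCdef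
  have hCp : g p < C := by rw [hCdef]; linarith [le_max_left (g p) (h q)]
  have hCq : h q < C := by rw [hCdef]; linarith [le_max_right (g p) (h q)]
  have hC0 : 0 < C := g0.trans hCp
  have e1 : ∀ᶠ a in 𝓝 p, ContDiffAt ℝ ∞ g a ∧ 0 < g a ∧ g a ≤ C := by
    have hcg : ContinuousAt g p := hg.self_of_nhds.continuousAt
    filter_upwards [hg, hcg.eventually (lt_mem_nhds g0), hcg.eventually (gt_mem_nhds hCp)]
      with a h1 h2 h3
    exact ⟨h1, h2, h3.le⟩
  have e2 : ∀ᶠ a in 𝓝 q, ContDiffAt ℝ ∞ h a ∧ 0 < h a ∧ h a ≤ C := by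
    have hcg : ContinuousAt h q := hh.self_of_nhds.continuousAt
    filter_upwards [hh, hcg.eventually (lt_mem_nhds h0), hcg.eventually (gt_mem_nhds hCq)]
      with a h1 h2 h3
    exact ⟨h1, h2, h3.le⟩
  obtain ⟨ε₁, hε₁, k1⟩ := Metric.eventually_nhds_iff_ball.1 e1
  obtain ⟨ε₂, hε₂, k2⟩ := Metric.eventually_nhds_iff_ball.1 e2
  obtain ⟨r, hr, r1, r2, r3, r4⟩ : ∃ r : ℝ, 0 < r ∧ 2 * r < ε₁ ∧ 2 * r < ε₂ ∧
      8 * r ≤ q - p ∧ 4 * r * C < c := by
    refine ⟨min (min (ε₁ / 3) (ε₂ / 3)) (min ((q - p) / 8) (c / (8 * C))), ?_, ?_, ?_, ?_, ?_⟩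
    · have : 0 < q - p := by linarith
      positivity
    · have := min_le_left (min (ε₁ / 3) (ε₂ / 3)) (min ((q - p) / 8) (c / (8 * C)))
      have := min_le_left (ε₁ / 3) (ε₂ / 3)
      linarith
    · have := min_le_left (min (ε₁ / 3) (ε₂ / 3)) (min ((q - p) / 8) (c / (8 * C)))
      have := min_le_right (ε₁ / 3) (ε₂ / 3)
      linarith
    · have := min_le_right (min (ε₁ / 3) (ε₂ / 3)) (min ((q - p) / 8) (c / (8 * C)))
      have := min_le_left ((q - p) / 8) (c / (8 * C))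
      linarith
    · have k3 := min_le_right (min (ε₁ / 3) (ε₂ / 3)) (min ((q - p) / 8) (c / (8 * C)))
      have k4 := min_le_right ((q - p) / 8) (c / (8 * C))
      have k5 := k3.trans k4
      have : 4 * min (min (ε₁ / 3) (ε₂ / 3)) (min ((q - p) / 8) (c / (8 * C))) * C ≤
          4 * (c / (8 * C)) * C := by gcongr
      have k6 : 4 * (c / (8 * C)) * C = c / 2 := by field_simp; ring
      linarith
  let bp : ContDiffBump p := ⟨r, 2 * r, hr, by linarith⟩
  let bq : ContDiffBump q := ⟨r, 2 * r, hr, by linarith⟩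
  let bm : ContDiffBump ((p + q) / 2) :=
    ⟨((q - p) / 2 - r) / 2, (q - p) / 2 - r, by linarith, by linarith⟩
  have sg : ContDiff ℝ ∞ (fun a => bp a * g a) :=
    contDiff_cut bp (ε := ε₁) r1 fun a ha => (k1 a ha).1
  have sh : ContDiff ℝ ∞ (fun a => bq a * h a) :=
    contDiff_cut bq (ε := ε₂) r2 fun a ha => (k2 a ha).1
  have sm : ContDiff ℝ ∞ (fun a => bm a) := bm.contDiff
  have ng : ∀ a, 0 ≤ bp a * g a := cut_nonneg bp (ε := ε₁) r1 fun a ha => (k1 a ha).2.1
  have nh : ∀ a, 0 ≤ bq a * h a := cut_nonneg bq (ε := ε₂) r2 fun a ha => (k2 a ha).2.1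
  have lg : ∀ a, bp a * g a ≤ C := fun a => cut_le bp (ε := ε₁) r1 (fun a ha => (k1 a ha).2) a hC0.le
  have lh : ∀ a, bq a * h a ≤ C := fun a => cut_le bq (ε := ε₂) r2 (fun a ha => (k2 a ha).2) a hC0.le
  have ii : ∀ {f : ℝ → ℝ} (u v : ℝ), ContDiff ℝ ∞ f →
      IntervalIntegrable f MeasureTheory.volume u v := fun u v hf => hf.continuous.intervalIntegrable u v
  -- integrals
  have Ig : ∫ a in p..q, bp a * g a ≤ 2 * r * C := by
    rw [← intervalIntegral.integral_add_adjacent_intervals (ii p (p + 2 * r) sg) (ii (p + 2 * r) q sg)]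
    have z : ∫ a in (p + 2 * r)..q, bp a * g a = 0 := by
      rw [intervalIntegral.integral_congr (g := fun _ => (0 : ℝ))]
      · simp
      · intro a ha
        rw [uIcc_of_le (by linarith)] at ha
        have : bp a = 0 := bp.zero_of_le_dist (by
          change 2 * r ≤ dist a p
          rw [Real.dist_eq, abs_of_nonneg (by linarith [ha.1])]; linarith [ha.1])
        simp [this]
    rw [z, add_zero]
    have := intervalIntegral.integral_mono_on (a := p) (b := p + 2 * r) (by linarith)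
      (ii p (p + 2 * r) sg) (intervalIntegrable_const (c := C)) fun a _ => lg a
    refine this.trans ?_
    rw [intervalIntegral.integral_const, smul_eq_mul]; linarith
  have Ih : ∫ a in p..q, bq a * h a ≤ 2 * r * C := by
    rw [← intervalIntegral.integral_add_adjacent_intervals (ii p (q - 2 * r) sh) (ii (q - 2 * r) q sh)]
    have z : ∫ a in p..(q - 2 * r), bq a * h a = 0 := by
      rw [intervalIntegral.integral_congr (g := fun _ => (0 : ℝ))]
      · simp
      · intro a ha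
        rw [uIcc_of_le (by linarith)] at ha
        have : bq a = 0 := bq.zero_of_le_dist (by
          change 2 * r ≤ dist a q
          rw [Real.dist_eq, abs_of_nonpos (by linarith [ha.2])]; linarith [ha.2])
        simp [this]
    rw [z, zero_add]
    have := intervalIntegral.integral_mono_on (a := q - 2 * r) (b := q) (by linarith)
      (ii (q - 2 * r) q sh) (intervalIntegrable_const (c := C)) fun a _ => lh a
    refine this.trans ?_
    rw [intervalIntegral.integral_const, smul_eq_mul]; linarith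
  set J : ℝ := ∫ a in p..q, bm a with hJ
  have J0 : 0 < J := by
    refine intervalIntegral.integral_pos hpq sm.continuous.continuousOn (fun a _ => bm.nonneg)
      ⟨(p + q) / 2, ⟨by linarith, by linarith⟩, ?_⟩
    exact bm.pos_of_mem_ball (Metric.mem_ball_self bm.rOut_pos)
  set I : ℝ := (∫ a in p..q, bp a * g a) + ∫ a in p..q, bq a * h a with hI
  have hk : 0 < (c - I) / J := div_pos (by linarith) J0
  set κ : ℝ := (c - I) / J with hκ
  -- values near the ends
  have vm : ∀ a, a ≤ p + r ∨ q - r ≤ a → bm a = 0 := by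
    intro a ha
    refine bm.zero_of_le_dist ?_
    change (q - p) / 2 - r ≤ dist a ((p + q) / 2)
    rw [Real.dist_eq]
    rcases ha with ha | ha
    · rw [abs_of_nonpos (by linarith)]; linarith
    · rw [abs_of_nonneg (by linarith)]; linarith
  have vp : ∀ a ∈ Metric.ball p r, bp a = 1 := fun a ha =>
    bp.one_of_mem_closedBall (Metric.ball_subset_closedBall ha)
  have vq : ∀ a ∈ Metric.ball q r, bq a = 1 := fun a ha =>
    bq.one_of_mem_closedBall (Metric.ball_subset_closedBall ha)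
  refine ⟨fun a => bp a * g a + bq a * h a + κ * bm a, (sg.add sh).add (contDiff_const.mul sm),
    ?_, ?_, ?_, ?_⟩
  · intro a ha
    by_cases h1 : 0 < bm a
    · have := mul_pos hk h1
      have := ng a
      have := nh a
      change 0 < bp a * g a + bq a * h a + κ * bm a
      linarith
    · have h2 : (q - p) / 2 - r ≤ dist a ((p + q) / 2) := by
        by_contra h3
        exact h1 (bm.pos_of_mem_ball (not_le.1 h3))
      have h3 : 0 ≤ κ * bm a := mul_nonneg hk.le bm.nonneg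
      rw [Real.dist_eq] at h2
      change 0 < bp a * g a + bq a * h a + κ * bm a
      rcases le_total a ((p + q) / 2) with h4 | h4
      · rw [abs_of_nonpos (by linarith)] at h2
        have h5 : bp a = 1 := bp.one_of_mem_closedBall (by
          rw [Metric.mem_closedBall, Real.dist_eq, abs_of_nonneg (by linarith [ha.1])]
          change a - p ≤ r
          linarith)
        have h6 : 0 < g a := (k1 a (by
          rw [Metric.mem_ball, Real.dist_eq, abs_of_nonneg (by linarith [ha.1])]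
          linarith)).2.1
        have := nh a
        rw [h5, one_mul]; linarith
      · rw [abs_of_nonneg (by linarith)] at h2
        have h5 : bq a = 1 := bq.one_of_mem_closedBall (by
          rw [Metric.mem_closedBall, Real.dist_eq, abs_of_nonpos (by linarith [ha.2])]
          change -(a - q) ≤ r
          linarith)
        have h6 : 0 < h a := (k2 a (by
          rw [Metric.mem_ball, Real.dist_eq, abs_of_nonpos (by linarith [ha.2])]
          linarith)).2.1
        have := ng a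
        rw [h5, one_mul]; linarith
  · filter_upwards [Metric.ball_mem_nhds p hr] with a ha
    have ha' := ha
    rw [Metric.mem_ball, Real.dist_eq, abs_lt] at ha'
    rw [vp a ha, vm a (Or.inl (by linarith)), bq.zero_of_le_dist (by
      change 2 * r ≤ dist a q
      rw [Real.dist_eq, abs_of_nonpos (by linarith)]; linarith)]
    ring
  · filter_upwards [Metric.ball_mem_nhds q hr] with a ha
    have ha' := ha
    rw [Metric.mem_ball, Real.dist_eq, abs_lt] at ha'
    rw [vq a ha, vm a (Or.inr (by linarith)), bp.zero_of_le_dist (by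
      change 2 * r ≤ dist a p
      rw [Real.dist_eq, abs_of_nonneg (by linarith)]; linarith)]
    ring
  · rw [intervalIntegral.integral_add (ii p q (sg.add sh)) (ii p q (contDiff_const.mul sm)),
      intervalIntegral.integral_add (ii p q sg) (ii p q sh),
      intervalIntegral.integral_const_mul, ← hI, ← hJ, hκ]
    field_simp
    ring

/-- gluing -/
noncomputable def gl (q : ℝ) (D E : ℝ → ℝ) (a : ℝ) : ℝ := if a < q then D a else E a

theorem gl_le {q : ℝ} {D E : ℝ → ℝ} (h : D =ᶠ[𝓝 q] E) {a : ℝ} (ha : a ≤ q) : gl q D E a = D a := by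
  unfold gl
  split_ifs with h1
  · rfl
  · have : a = q := le_antisymm ha (not_lt.1 h1)
    rw [this]; exact h.self_of_nhds.symm

theorem gl_ge {q : ℝ} {D E : ℝ → ℝ} {a : ℝ} (ha : q ≤ a) : gl q D E a = E a :=
  if_neg (not_lt.2 ha)

theorem gl_eq_left {q : ℝ} {D E : ℝ → ℝ} {a : ℝ} (ha : a < q) : gl q D E =ᶠ[𝓝 a] D := by
  filter_upwards [Iio_mem_nhds ha] with z hz
  exact if_pos hz

theorem gl_eq_right {q : ℝ} {D E : ℝ → ℝ} {a : ℝ} (ha : q < a) : gl q D E =ᶠ[𝓝 a] E := by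
  filter_upwards [Ioi_mem_nhds ha] with z hz
  exact if_neg (not_lt.2 (le_of_lt hz))

theorem gl_eq_mid {q : ℝ} {D E : ℝ → ℝ} (h : D =ᶠ[𝓝 q] E) : gl q D E =ᶠ[𝓝 q] D := by
  filter_upwards [h] with z hz
  unfold gl
  split_ifs
  · rfl
  · exact hz.symm

theorem gl_contDiff {q : ℝ} {D E : ℝ → ℝ} (h : D =ᶠ[𝓝 q] E) (hD : ContDiff ℝ ∞ D)
    (hE : ContDiff ℝ ∞ E) : ContDiff ℝ ∞ (gl q D E) := by
  rw [contDiff_iff_contDiffAt]
  intro a
  rcases lt_trichotomy a q with h1 | h1 | h1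
  · exact hD.contDiffAt.congr_of_eventuallyEq (gl_eq_left h1)
  · rw [h1]; exact hD.contDiffAt.congr_of_eventuallyEq (gl_eq_mid h)
  · exact hE.contDiffAt.congr_of_eventuallyEq (gl_eq_right h1)

theorem cd {μ : ℝ → ℝ} {a : ℝ} (h : ContDiffAt ℝ ∞ μ a) : ContDiffAt ℝ ∞ (deriv μ) a := by
  have h1 : ContDiffAt ℝ ∞ (fderiv ℝ μ) a := h.fderiv_right (by simp)
  have h2 : ContDiffAt ℝ ∞ (fun z => fderiv ℝ μ z 1) a := h1.clm_apply contDiffAt_const
  exact h2

/-- two functions with the same derivative near a point -/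
theorem germ {m E μ : ℝ → ℝ} {x : ℝ} (dm : ∀ a, HasDerivAt m (E a) a) (h : E =ᶠ[𝓝 x] deriv μ)
    (s : ∀ᶠ a in 𝓝 x, ContDiffAt ℝ ∞ μ a) (hx : m x = μ x) : ∀ᶠ a in 𝓝 x, m a = μ a := by
  obtain ⟨ε, hε, h1⟩ := Metric.eventually_nhds_iff_ball.1 (h.and s)
  filter_upwards [Metric.ball_mem_nhds x hε] with a ha
  refine Metric.isOpen_ball.eqOn_of_deriv_eq (convex_ball x ε).isPreconnected
    (fun z _ => (dm z).differentiableAt.differentiableWithinAt)
    (fun z hz => ((h1 z hz).2.differentiableAt (by simp)).differentiableWithinAt)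
    (fun z hz => ?_) (Metric.mem_ball_self hε) hx ha
  rw [(dm z).deriv]; exact (h1 z hz).1

theorem two {a₀ b₀ x₁ x₂ y₁ y₂ : ℝ} {μ₁ μ₂ : ℝ → ℝ} (h1 : a₀ < x₁) (h2 : x₁ < x₂) (h3 : x₂ < b₀)
    (h4 : a₀ < y₁) (h5 : y₁ < y₂) (h6 : y₂ < b₀) (s1 : ∀ᶠ a in 𝓝 x₁, ContDiffAt ℝ ∞ μ₁ a)
    (s2 : ∀ᶠ a in 𝓝 x₂, ContDiffAt ℝ ∞ μ₂ a) (v1 : μ₁ x₁ = y₁) (v2 : μ₂ x₂ = y₂)
    (d1 : 0 < deriv μ₁ x₁) (d2 : 0 < deriv μ₂ x₂) :
    ∃ m : ℝ → ℝ, ContDiff ℝ ∞ m ∧ (∀ a, 0 < deriv m a) ∧ (∀ᶠ a in 𝓝 x₁, m a = μ₁ a) ∧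
      (∀ᶠ a in 𝓝 x₂, m a = μ₂ a) ∧
      ∃ η : ℝ, 0 < η ∧ ∀ a, (a ≤ a₀ + η ∨ b₀ - η ≤ a) → m a = a := by
  obtain ⟨η, e0, e1, e2, e3, e4⟩ : ∃ η : ℝ, 0 < η ∧ a₀ + η < x₁ ∧ a₀ + η < y₁ ∧
      x₂ < b₀ - η ∧ y₂ < b₀ - η := by
    refine ⟨min (min (x₁ - a₀) (y₁ - a₀)) (min (b₀ - x₂) (b₀ - y₂)) / 2, ?_, ?_, ?_, ?_, ?_⟩
    · have : 0 < x₁ - a₀ := by linarith
      have : 0 < y₁ - a₀ := by linarith
      have : 0 < b₀ - x₂ := by linarith
      have : 0 < b₀ - y₂ := by linarith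
      positivity
    all_goals
      have := min_le_left (min (x₁ - a₀) (y₁ - a₀)) (min (b₀ - x₂) (b₀ - y₂))
      have := min_le_right (min (x₁ - a₀) (y₁ - a₀)) (min (b₀ - x₂) (b₀ - y₂))
      have := min_le_left (x₁ - a₀) (y₁ - a₀)
      have := min_le_right (x₁ - a₀) (y₁ - a₀)
      have := min_le_left (b₀ - x₂) (b₀ - y₂)
      have := min_le_right (b₀ - x₂) (b₀ - y₂)
      linarith
  have c1 : ∀ᶠ a in 𝓝 x₁, ContDiffAt ℝ ∞ (deriv μ₁) a := s1.mono fun a ha => cd ha
  have c2 : ∀ᶠ a in 𝓝 x₂, ContDiffAt ℝ ∞ (deriv μ₂) a := s2.mono fun a ha => cd ha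
  have one : ∀ z : ℝ, ∀ᶠ a in 𝓝 z, ContDiffAt ℝ ∞ (fun _ : ℝ => (1 : ℝ)) a := fun z =>
    Eventually.of_forall fun _ => contDiffAt_const
  obtain ⟨D₁, sD1, pD1, l1, r1, i1⟩ := seg (p := a₀ + η) (q := x₁) (c := y₁ - (a₀ + η)) e1
    (by linarith) (one _) c1 one_pos d1
  obtain ⟨D₂, sD2, pD2, l2, r2, i2⟩ := seg (p := x₁) (q := x₂) (c := y₂ - y₁) h2
    (by linarith) c1 c2 d1 d2
  obtain ⟨D₃, sD3, pD3, l3, r3, i3⟩ := seg (p := x₂) (q := b₀ - η) (c := b₀ - η - y₂) e3
    (by linarith) c2 (one _) d2 one_pos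
  -- the density
  set U : ℝ → ℝ := fun _ => 1 with hU
  set E₄ := gl (b₀ - η) D₃ U with hE4
  set E₃ := gl x₂ D₂ E₄ with hE3
  set E₂ := gl x₁ D₁ E₃ with hE2
  set E := gl (a₀ + η) U E₂ with hE
  have m4 : D₃ =ᶠ[𝓝 (b₀ - η)] U := r3
  have q4 : E₄ =ᶠ[𝓝 x₂] D₃ := gl_eq_left e3
  have m3 : D₂ =ᶠ[𝓝 x₂] E₄ := r2.trans (l3.symm.trans q4.symm)
  have q3 : E₃ =ᶠ[𝓝 x₁] D₂ := gl_eq_left h2
  have m2 : D₁ =ᶠ[𝓝 x₁] E₃ := r1.trans (l2.symm.trans q3.symm)
  have q2 : E₂ =ᶠ[𝓝 (a₀ + η)] D₁ := gl_eq_left e1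
  have m1 : U =ᶠ[𝓝 (a₀ + η)] E₂ := l1.symm.trans q2.symm
  have sU : ContDiff ℝ ∞ U := contDiff_const
  have sE : ContDiff ℝ ∞ E :=
    gl_contDiff m1 sU (gl_contDiff m2 sD1 (gl_contDiff m3 sD2 (gl_contDiff m4 sD3 sU)))
  have w0 : ∀ a, a ≤ a₀ + η → E a = 1 := fun a ha => gl_le m1 ha
  have w1 : ∀ a ∈ Icc (a₀ + η) x₁, E a = D₁ a := fun a ha => by
    rw [hE, gl_ge ha.1, hE2, gl_le m2 ha.2]
  have w2 : ∀ a ∈ Icc x₁ x₂, E a = D₂ a := fun a ha => by
    rw [hE, gl_ge (by linarith [ha.1]), hE2, gl_ge ha.1, hE3, gl_le m3 ha.2]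
  have w3 : ∀ a ∈ Icc x₂ (b₀ - η), E a = D₃ a := fun a ha => by
    rw [hE, gl_ge (by linarith [ha.1]), hE2, gl_ge (by linarith [ha.1]), hE3, gl_ge ha.1, hE4,
      gl_le m4 ha.2]
  have w4 : ∀ a, b₀ - η ≤ a → E a = 1 := fun a ha => by
    rw [hE, gl_ge (by linarith), hE2, gl_ge (by linarith), hE3, gl_ge (by linarith), hE4, gl_ge ha]
  have pE : ∀ a, 0 < E a := by
    intro a
    rcases le_total a (a₀ + η) with t1 | t1
    · rw [w0 a t1]; exact one_pos
    rcases le_total a x₁ with t2 | t2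
    · rw [w1 a ⟨t1, t2⟩]; exact pD1 a ⟨t1, t2⟩
    rcases le_total a x₂ with t3 | t3
    · rw [w2 a ⟨t2, t3⟩]; exact pD2 a ⟨t2, t3⟩
    rcases le_total a (b₀ - η) with t4 | t4
    · rw [w3 a ⟨t3, t4⟩]; exact pD3 a ⟨t3, t4⟩
    · rw [w4 a t4]; exact one_pos
  have g1 : E =ᶠ[𝓝 x₁] deriv μ₁ :=
    (gl_eq_right e1).trans ((gl_eq_mid m2).trans r1)
  have g2 : E =ᶠ[𝓝 x₂] deriv μ₂ := by
    refine (gl_eq_right (by linarith)).trans ((gl_eq_right h2).trans ((gl_eq_mid m3).trans r2))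
  have ii : ∀ u v : ℝ, IntervalIntegrable E MeasureTheory.volume u v := fun u v =>
    sE.continuous.intervalIntegrable u v
  set m : ℝ → ℝ := fun a => a₀ + η + ∫ t in (a₀ + η)..a, E t with hm
  have dm : ∀ a, HasDerivAt m (E a) a := fun a => by
    have := (sE.continuous.integral_hasStrictDerivAt (a₀ + η) a).hasDerivAt
    exact this.const_add (a₀ + η)
  have dm' : deriv m = E := funext fun a => (dm a).deriv
  have J1 : ∫ t in (a₀ + η)..x₁, E t = y₁ - (a₀ + η) := by
    rw [← i1]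
    refine intervalIntegral.integral_congr fun a ha => ?_
    rw [uIcc_of_le e1.le] at ha; exact w1 a ha
  have J2 : ∫ t in x₁..x₂, E t = y₂ - y₁ := by
    rw [← i2]
    refine intervalIntegral.integral_congr fun a ha => ?_
    rw [uIcc_of_le h2.le] at ha; exact w2 a ha
  have J3 : ∫ t in x₂..(b₀ - η), E t = b₀ - η - y₂ := by
    rw [← i3]
    refine intervalIntegral.integral_congr fun a ha => ?_
    rw [uIcc_of_le e3.le] at ha; exact w3 a ha
  have M1 : m x₁ = y₁ := by rw [hm]; simp only [J1]; ring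
  have M2 : m x₂ = y₂ := by
    rw [hm]; simp only
    rw [← intervalIntegral.integral_add_adjacent_intervals (ii _ x₁) (ii _ _), J1, J2]; ring
  have M3 : m (b₀ - η) = b₀ - η := by
    rw [hm]; simp only
    rw [← intervalIntegral.integral_add_adjacent_intervals (ii _ x₁) (ii _ _),
      ← intervalIntegral.integral_add_adjacent_intervals (ii x₁ x₂) (ii _ _), J1, J2, J3]; ring
  refine ⟨m, ?_, fun a => ?_, germ dm g1 s1 (M1.trans v1.symm), germ dm g2 s2 (M2.trans v2.symm),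
    η, e0, fun a ha => ?_⟩
  · rw [contDiff_infty_iff_deriv]
    exact ⟨fun a => (dm a).differentiableAt, by rw [dm']; exact sE⟩
  · rw [dm']; exact pE a
  · rcases ha with ha | ha
    · have : ∫ t in (a₀ + η)..a, E t = ∫ t in (a₀ + η)..a, (1 : ℝ) := by
        refine intervalIntegral.integral_congr fun t ht => ?_
        rw [uIcc_of_ge ha] at ht
        exact w0 t ht.2
      rw [hm]; simp only
      rw [this, intervalIntegral.integral_const, smul_eq_mul]; ring
    · have h7 : m a = m (b₀ - η) + ∫ t in (b₀ - η)..a, E t := by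
        rw [hm]; simp only
        rw [← intervalIntegral.integral_add_adjacent_intervals (ii _ (b₀ - η)) (ii _ a)]; ring
      have : ∫ t in (b₀ - η)..a, E t = ∫ t in (b₀ - η)..a, (1 : ℝ) := by
        refine intervalIntegral.integral_congr fun t ht => ?_
        rw [uIcc_of_le ha] at ht
        exact w4 t ht.1
      rw [h7, this, intervalIntegral.integral_const, smul_eq_mul, M3]; ring

end RM

theorem m_RM : StRM := by
  refine ⟨fun a₀ b₀ x y μ h1 h2 h3 h4 h5 h6 h7 => ?_,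
    fun x₁ x₂ y₁ y₂ μ₁ μ₂ h1 h2 h3 h4 h5 h6 s1 s2 v1 v2 d1 d2 => ?_⟩
  · -- a second dummy point
    have k1 : x < (x + b₀) / 2 := by linarith
    have k2 : (x + b₀) / 2 < b₀ := by linarith
    have k3 : y < (y + b₀) / 2 := by linarith
    have k4 : (y + b₀) / 2 < b₀ := by linarith
    obtain ⟨m, a1, a2, a3, -, a5⟩ := RM.two (μ₁ := μ)
      (μ₂ := fun a => a + ((y + b₀) / 2 - (x + b₀) / 2)) h1 k1 k2 h3 k3 k4 h5
      (Eventually.of_forall fun a => by fun_prop) h6 (by ring) h7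
      (by rw [deriv_add_const, deriv_id'']; exact one_pos)
    exact ⟨m, a1, a2, a3, a5⟩
  · obtain ⟨m, a1, a2, a3, a4, a5⟩ := RM.two h1 h2 h3 h4 h5 h6 s1 s2 v1 v2 d1 d2
    exact ⟨m, ⟨a1, a2, a5⟩, a3, a4⟩

end Pool.Agent.Helper70.BI


end

/-! ## Helper70.BI.M_RG -/

section

/-!
# Project BI, module E-RG: reparametrization of the bar
-/

set_option autoImplicit false

open scoped Manifold ContDiff Topology ComplexConjugate
open Set Filter Pool.Agent.Helper65.Barb Pool.Agent.Helper18.BI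

namespace Pool.Agent.Helper70.BI

namespace RG

theorem contDiff_repm {m : ℝ → ℝ} (h : ContDiff ℝ ∞ m) : ContDiff ℝ ∞ (repm m) := by
  unfold repm; fun_prop

theorem fderiv_inj {m : ℝ → ℝ} (h : RepOK m) (p : R4) :
    Function.Injective (fderiv ℝ (repm m) p) := by
  obtain ⟨h1, h2, -⟩ := h
  have dm : HasDerivAt m (deriv m p.2.1) p.2.1 := (h1.differentiable (by simp) _).hasDerivAt
  have f2 : HasFDerivAt (fun q : R4 => q.2.1)
      ((ContinuousLinearMap.fst ℝ ℝ ℂ).comp (ContinuousLinearMap.snd ℝ ℝ (ℝ × ℂ))) p :=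
    ((ContinuousLinearMap.fst ℝ ℝ ℂ).comp (ContinuousLinearMap.snd ℝ ℝ (ℝ × ℂ))).hasFDerivAt
  have f3 : HasFDerivAt (fun q : R4 => q.2.2)
      ((ContinuousLinearMap.snd ℝ ℝ ℂ).comp (ContinuousLinearMap.snd ℝ ℝ (ℝ × ℂ))) p :=
    ((ContinuousLinearMap.snd ℝ ℝ ℂ).comp (ContinuousLinearMap.snd ℝ ℝ (ℝ × ℂ))).hasFDerivAt
  have f1 : HasFDerivAt (fun q : R4 => q.1) (ContinuousLinearMap.fst ℝ ℝ (ℝ × ℂ)) p :=
    (ContinuousLinearMap.fst ℝ ℝ (ℝ × ℂ)).hasFDerivAt
  have f4 : HasFDerivAt (fun q : R4 => m q.2.1) (deriv m p.2.1 •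
      ((ContinuousLinearMap.fst ℝ ℝ ℂ).comp (ContinuousLinearMap.snd ℝ ℝ (ℝ × ℂ)))) p :=
    dm.comp_hasFDerivAt p f2
  have f5 := f1.prodMk (f4.prodMk f3)
  have f6 : fderiv ℝ (repm m) p = _ := f5.fderiv
  rw [f6, injective_iff_map_eq_zero]
  intro v hv
  obtain ⟨a, b, c⟩ := v
  simp only [ContinuousLinearMap.prod_apply, ContinuousLinearMap.coe_fst',
    _root_.smul_apply, ContinuousLinearMap.comp_apply, ContinuousLinearMap.coe_snd',
    smul_eq_mul, Prod.mk_eq_zero, mul_eq_zero] at hv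
  obtain ⟨e1, e2, e3⟩ := hv
  have e4 : b = 0 := e2.resolve_left (h2 _).ne'
  simp [e1, e4, e3]

theorem strictMono' {m : ℝ → ℝ} (h : RepOK m) : StrictMono m := strictMono_of_deriv_pos h.2.1

theorem inj {m : ℝ → ℝ} (h : RepOK m) : Function.Injective (repm m) := by
  rintro ⟨a, b, c⟩ ⟨a', b', c'⟩ he
  simp only [repm, Prod.mk.injEq] at he
  obtain ⟨e1, e2, e3⟩ := he
  rw [e1, (strictMono' h).injective e2, e3]

theorem near_flat {m : ℝ → ℝ} (h : RepOK m) {c : ℝ} (hc : c = 0 ∨ c = 1) {p : R4}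
    (hp : p ∈ flat c) : ∀ᶠ q in 𝓝 p, repm m q = q := by
  obtain ⟨-, -, η, h0, h3⟩ := h
  obtain ⟨-, hp2⟩ := hp
  unfold rsq nsq at hp2
  simp only at hp2
  have k1 : (p.2.1 - c) ^ 2 ≤ 1 / 25 := by nlinarith [sq_nonneg p.2.2.re, sq_nonneg p.2.2.im]
  have k2 : |p.2.1 - c| ≤ 1 / 5 := abs_le_of_sq_le_sq (by norm_num; linarith) (by norm_num)
  have cont : ContinuousAt (fun q : R4 => q.2.1) p := by fun_prop
  rw [abs_le] at k2
  rcases hc with rfl | rfl
  · have : p.2.1 < 1 / 5 + η := by linarith [k2.2]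
    filter_upwards [cont.eventually (gt_mem_nhds this)] with q hq
    unfold repm
    rw [h3 _ (Or.inl (le_of_lt hq))]
  · have : 4 / 5 - η < p.2.1 := by linarith [k2.1]
    filter_upwards [cont.eventually (lt_mem_nhds this)] with q hq
    unfold repm
    rw [h3 _ (Or.inr (le_of_lt hq))]

theorem fix_flat {m : ℝ → ℝ} (h : RepOK m) {c : ℝ} (hc : c = 0 ∨ c = 1) {p : R4}
    (hp : p ∈ flat c) : repm m p = p := (near_flat h hc hp).self_of_nhds

theorem ends {m : ℝ → ℝ} (h : RepOK m) {a : ℝ} (ha : a ∈ Icc (1 / 5 : ℝ) (4 / 5)) :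
    m a ∈ Icc (1 / 5 : ℝ) (4 / 5) := by
  have mono := (strictMono' h).monotone
  obtain ⟨-, -, η, h0, h3⟩ := h
  have e1 : m (1 / 5) = 1 / 5 := h3 _ (Or.inl (by linarith))
  have e2 : m (4 / 5) = 4 / 5 := h3 _ (Or.inr (by linarith))
  exact ⟨by rw [← e1]; exact mono ha.1, by rw [← e2]; exact mono ha.2⟩

theorem sph_sub (c : ℝ) : sph c ⊆ flat c := fun _ hp => ⟨hp.1, hp.2.le⟩

theorem mapsTo {m : ℝ → ℝ} (h : RepOK m) {p : R4} (hp : p ∈ SP) : repm m p ∈ SP := by
  rcases hp with (hp | hp) | hp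
  · rw [fix_flat h (Or.inl rfl) (sph_sub 0 hp)]; exact Or.inl (Or.inl hp)
  · rw [fix_flat h (Or.inr rfl) (sph_sub 1 hp)]; exact Or.inl (Or.inr hp)
  · obtain ⟨h1, h2, h3, h4⟩ := hp
    have h5 := ends h ⟨h2, h3⟩
    exact Or.inr ⟨h1, h5.1, h5.2, h4⟩

theorem embOn {m : ℝ → ℝ} (h : RepOK m) (L : Set R4) : EmbOn I4 (repm m) L := by
  rw [embOn_iff]
  exact ⟨fun p _ => ⟨Eventually.of_forall fun q => (contDiff_repm h.1).contDiffAt,
    fderiv_inj h p⟩, (inj h).injOn⟩

/-- the linear homotopy -/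
theorem homot {m : ℝ → ℝ} (h : RepOK m) {t : ℝ} (ht : t ∈ Icc (0 : ℝ) 1) :
    RepOK (fun a => (1 - t) * a + t * m a) := by
  obtain ⟨h1, h2, η, h0, h3⟩ := h
  refine ⟨by fun_prop, fun a => ?_, η, h0, fun a ha => ?_⟩
  · have dm : HasDerivAt m (deriv m a) a := (h1.differentiable (by simp) _).hasDerivAt
    have d2 : HasDerivAt (fun a => (1 - t) * a + t * m a) ((1 - t) * 1 + t * deriv m a) a :=
      ((hasDerivAt_id a).const_mul (1 - t)).add (dm.const_mul t)
    rw [d2.deriv]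
    rcases ht.2.lt_or_eq with h4 | h4
    · have := mul_nonneg ht.1 (h2 a).le
      linarith
    · rw [h4]; simp [h2 a]
  · simp only
    rw [h3 a ha]; ring

end RG

theorem m_RG (hF : StFam) : StRG := by
  intro m h
  refine ⟨RG.embOn h univ, fun a => rfl, fun c hc p hp => RG.near_flat h hc hp,
    fun a ha => RG.ends h ha, RG.strictMono' h, fun F hE => ⟨?_, ?_⟩⟩
  · exact embOn_comp hE (RG.embOn h SP) fun p hp => RG.mapsTo h hp
  · have key := eqv_precomp hF hE (m := fun z : ℝ × R4 =>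
        (z.2.1, ((1 - z.1) * z.2.2.1 + z.1 * m z.2.2.1, z.2.2.2))) ?_ ?_
    · simpa [repm] using key
    · refine famOn_of_contDiff ?_ ?_ ?_
      · have := h.1
        fun_prop
      · intro t ht p _
        exact RG.fderiv_inj (RG.homot h ht) p
      · intro t ht
        exact (RG.inj (RG.homot h ht)).injOn
    · intro t ht p hp
      exact RG.mapsTo (RG.homot h ht) hp

end Pool.Agent.Helper70.BI


end

/-! ## Helper18.BI.H.M_STR -/

section

/-!
# Project BI, stage 3 (H), module STR: stretching the bar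
-/

set_option autoImplicit false

open scoped Manifold ContDiff Topology ComplexConjugate
open Set Pool.Agent.Helper65.Barb Pool.Agent.Helper18.BI

namespace Pool.Agent.Helper18.BI.H

open Pool.Agent.Helper70.BI (ax repm RepOK StRM StRG m_RM m_RG stFam_of)

namespace STR

/-- the reparametrization -/
private theorem exists_rep {r : ℝ} (h0 : 0 < r) (h1 : r ≤ 1 / 20) : ∃ m : ℝ → ℝ, RepOK m ∧
    (∀ a, (a ≤ 1 / 4 ∨ 4 / 5 - r / 4 ≤ a) → m a = a) ∧ m (59 / 100) = 4 / 5 - r := by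
  obtain ⟨m, hm1, hm2, hm3, η, hη, hm4⟩ := m_RM.1 (1 / 4) (4 / 5 - r / 4) (59 / 100) (4 / 5 - r)
    (fun a => a + (4 / 5 - r - 59 / 100)) (by norm_num) (by linarith) (by linarith) (by linarith)
    (Filter.Eventually.of_forall fun a => by fun_prop) (by ring) (by
      have : HasDerivAt (fun a : ℝ => a + (4 / 5 - r - 59 / 100)) 1 (59 / 100) :=
        (hasDerivAt_id _).add_const _
      rw [this.deriv]
      norm_num)
  have hid : ∀ a, (a ≤ 1 / 4 ∨ 4 / 5 - r / 4 ≤ a) → m a = a := by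
    intro a ha
    apply hm4
    rcases ha with ha | ha
    · left; linarith
    · right; linarith
  refine ⟨m, ⟨hm1, hm2, r / 4, by linarith, fun a ha => hid a ?_⟩, hid, ?_⟩
  · rcases ha with ha | ha
    · left; linarith
    · right; exact ha
  · have h := hm3.self_of_nhds
    rw [h]
    ring

private theorem ax_of_neck {p : R4} (hp : p ∈ neck) : p = ax p.2.1 := by
  obtain ⟨h1, -, -, h4⟩ := hp
  exact Prod.ext h1 (Prod.ext rfl h4)

end STR

open STR

theorem m_STR : StSTR := by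
  intro F F' U hF hF' hU h1U hEq
  have hRG : StRG := m_RG (stFam_of hT2)
  -- the size of the neighbourhood
  have hax : Continuous ax := by
    unfold ax
    fun_prop
  have h45 : ax (4 / 5) ∈ U := by
    apply h1U
    refine ⟨rfl, ?_⟩
    simp only [rsq, nsq, ax]
    norm_num
  have hnh : ax ⁻¹' U ∈ 𝓝 (4 / 5 : ℝ) := hax.continuousAt.preimage_mem_nhds (hU.mem_nhds h45)
  obtain ⟨δ, hδ, hball⟩ := Metric.mem_nhds_iff.1 hnh
  obtain ⟨r, hr0, hr1, hrδ⟩ : ∃ r : ℝ, 0 < r ∧ r ≤ 1 / 20 ∧ r < δ :=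
    ⟨min (1 / 20) (δ / 2), lt_min (by norm_num) (by linarith), min_le_left _ _,
      lt_of_le_of_lt (min_le_right _ _) (by linarith)⟩
  have hUr : ∀ a, 4 / 5 - r ≤ a → a ≤ 4 / 5 → ax a ∈ U := by
    intro a h1 h2
    apply hball
    rw [Metric.mem_ball, Real.dist_eq, abs_lt]
    constructor <;> linarith
  obtain ⟨m, hm, hid, hmx⟩ := exists_rep hr0 hr1
  obtain ⟨-, hmax, -, hends, hmono, hG⟩ := hRG m hm
  have hfix : ∀ p : R4, (p.2.1 ≤ 1 / 4 ∨ 4 / 5 - r / 4 ≤ p.2.1) → repm m p = p := by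
    intro p hp
    show (p.1, (m p.2.1, p.2.2)) = p
    rw [hid _ hp]
  have hcont : Continuous (repm m) := by
    have hmc : Continuous m := hm.1.continuous
    show Continuous fun p : R4 => (p.1, (m p.2.1, p.2.2))
    fun_prop
  have hs1 : ∀ p ∈ sph 1, 4 / 5 ≤ p.2.1 := by
    intro p hp
    have h1 := sq_le_rsq_one p
    have h2 := hp.2
    nlinarith
  have hs0 : ∀ p ∈ sph 0, p.2.1 ≤ 1 / 5 := by
    intro p hp
    have h1 := sq_le_rsq p
    have h2 := hp.2
    nlinarith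
  refine ⟨fun p => F (repm m p), fun p => F' (repm m p),
    {p | p.2.1 < 1 / 4} ∪ {p | 4 / 5 - r / 4 < p.2.1}, repm m ⁻¹' U, (hG F hF).1, (hG F' hF').1,
    ?_, ?_, ?_, ?_, hU.preimage hcont, ?_, ?_, fun φ => ((hG F hF).2 φ).1,
    fun φ => ((hG F' hF').2 φ).1⟩
  · have hc : Continuous fun p : R4 => p.2.1 := by fun_prop
    exact (isOpen_lt hc continuous_const).union (isOpen_lt continuous_const hc)
  · rintro p (hp | hp)
    · left
      show p.2.1 < 1 / 4
      have := hs0 p hp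
      linarith
    · right
      show 4 / 5 - r / 4 < p.2.1
      have := hs1 p hp
      linarith
  · intro p hp
    show F (repm m p) = F p
    rw [hfix p]
    rcases hp with hp | hp
    · exact Or.inl (le_of_lt hp)
    · exact Or.inr (le_of_lt hp)
  · intro p hp
    show F' (repm m p) = F' p
    rw [hfix p]
    rcases hp with hp | hp
    · exact Or.inl (le_of_lt hp)
    · exact Or.inr (le_of_lt hp)
  · rintro p (hp | hp)
    · show repm m p ∈ U
      rw [hfix p (Or.inr (by have := hs1 p hp; linarith))]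
      exact h1U hp
    · show repm m p ∈ U
      obtain ⟨hp1, hp2⟩ := hp
      rw [ax_of_neck hp1, hmax]
      have h2 := hends p.2.1 ⟨by linarith, hp1.2.2.1⟩
      refine hUr _ ?_ h2.2
      have h3 : m (59 / 100) < m p.2.1 := hmono (by linarith)
      rw [hmx] at h3
      exact h3.le
  · intro p hp
    exact hEq hp

end Pool.Agent.Helper18.BI.H


end

/-! ## Helper18.BI.R.M_EVM -/

section

/-!
# Project BI, stage 4 (R), module EVM: squares of words
-/

set_option autoImplicit false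

open scoped Manifold ContDiff Topology ComplexConjugate unitInterval NNReal
open Set Pool.Agent.Helper65.Barb Pool.Agent.Helper18.BI
open Pool.Agent.Helper70.BI (I4 IsW)
open Pool.Agent.Helper18.BI.H (IsW4 mm)
open Pool.Agent.Helper18.FinR (sqr Pi2 cls FreeClass UpTo)

namespace Pool.Agent.Helper18.BI.R

namespace EVM

theorem mm_edge' (q s : ℝ) (hs : s ≤ 9 / 20 ∨ 11 / 20 ≤ s) : mm q s = (1, 0) := by
  have h : step (10 * s - 9 / 2) = 0 ∨ step (10 * s - 9 / 2) = 1 := by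
    rcases hs with hs | hs
    · left; exact step_of_nonpos (by linarith)
    · right; exact step_of_one_le (by linarith)
  unfold mm Pool.Agent.Helper27.BI.zarc Pool.Agent.Helper27.BI.chi Pool.Agent.Helper27.BI.phi
  rcases h with h | h
  · rw [h]
    simp only [mul_zero, Real.cos_zero, Real.sin_zero, sub_self, zero_div, zero_mul, add_zero]
    rfl
  · rw [h]
    simp only [mul_one, Real.cos_two_pi, Real.sin_two_pi, sub_self, zero_div, zero_mul, add_zero,
      mul_zero]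
    rfl

theorem mm_ends' (q s : ℝ) (hq : q = 0 ∨ q = 1) : mm q s = (1, 0) := by
  unfold mm Pool.Agent.Helper27.BI.zarc
  rcases hq with rfl | rfl
  · simp only [mul_zero, Real.cos_zero, Real.sin_zero, sub_self, neg_zero, zero_mul, add_zero]
    rfl
  · simp only [mul_one, Real.cos_two_pi, Real.sin_two_pi, sub_self, Real.sin_pi, neg_zero, zero_mul,
      mul_zero, add_zero]
    rfl

theorem mm_S2' (q s : ℝ) : mm q s ∈ S2 := by
  show nsq (mm q s) = 1
  unfold mm
  rw [Pool.Agent.Helper27.BI.m_ZNSQ]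
  ring

theorem contDiff_mm : ContDiff ℝ ∞ (fun z : ℝ × ℝ => mm z.1 z.2) := by
  unfold mm
  refine Pool.Agent.Helper27.BI.contDiff_zarc ?_ ?_ ?_ ?_
  · exact Real.contDiff_sin.comp (contDiff_const.mul contDiff_fst)
  · exact Pool.Agent.Helper27.BI.contDiff_chi.comp
      ((contDiff_const.mul contDiff_snd).sub contDiff_const)
  · exact contDiff_fst
  · exact (contDiff_const.mul contDiff_snd).sub contDiff_const

attribute [local irreducible] Pool.Agent.Helper18.BI.H.mm

/-- the rectangle -/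
def rect : Set (ℝ × ℝ) := Icc (0 : ℝ) 1 ×ˢ Icc (9 / 20 : ℝ) (11 / 20)

theorem lip_mm : ∃ L : ℝ≥0, LipschitzOnWith L (fun z : ℝ × ℝ => mm z.1 z.2) rect := by
  have hc : IsCompact rect := isCompact_Icc.prod isCompact_Icc
  have hconv : Convex ℝ rect := (convex_Icc _ _).prod (convex_Icc _ _)
  have hd : Continuous (fderiv ℝ (fun z : ℝ × ℝ => mm z.1 z.2)) :=
    contDiff_mm.continuous_fderiv (by simp)
  obtain ⟨C, hC⟩ := hc.exists_bound_of_continuousOn hd.continuousOn
  refine ⟨Real.toNNReal C, ?_⟩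
  refine hconv.lipschitzOnWith_of_nnnorm_fderiv_le
    (fun x _ => (contDiff_mm.differentiable (by simp)) x) fun x hx => ?_
  rw [← NNReal.coe_le_coe]
  exact (hC x hx).trans (Real.le_coe_toNNReal C)

theorem dist_pair (a b c d : ℝ) :
    dist ((a, b) : ℝ × ℝ) (c, d) = max (dist a c) (dist b d) := rfl

/-- reversal -/
theorem lip_rev {X : Type} [PseudoMetricSpace X] {f : ℝ → ℝ → X} {L : ℝ≥0}
    (h : LipschitzOnWith L (fun z : ℝ × ℝ => f z.1 z.2) rect) :
    LipschitzOnWith L (fun z : ℝ × ℝ => f (1 - z.1) z.2) rect := by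
  refine LipschitzOnWith.of_dist_le_mul ?_
  rintro ⟨a, b⟩ ⟨⟨a1, a2⟩, hb⟩ ⟨c, d⟩ ⟨⟨c1, c2⟩, hd⟩
  simp only at a1 a2 c1 c2 hb hd
  have m1 : ((1 - a, b) : ℝ × ℝ) ∈ rect := ⟨⟨by simp only; linarith, by simp only; linarith⟩, hb⟩
  have m2 : ((1 - c, d) : ℝ × ℝ) ∈ rect := ⟨⟨by simp only; linarith, by simp only; linarith⟩, hd⟩
  have h3 := h.dist_le_mul _ m1 _ m2
  have e1 : dist (1 - a) (1 - c) = dist a c := by
    rw [Real.dist_eq, Real.dist_eq, show (1 - a - (1 - c) : ℝ) = -(a - c) by ring, abs_neg]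
  rw [dist_pair, e1, ← dist_pair] at h3
  exact h3

theorem dist_two {a c a' c' : ℝ} (h : dist a' c' = 2 * dist a c) (b d : ℝ) :
    dist ((a', b) : ℝ × ℝ) (c', d) ≤ 2 * dist ((a, b) : ℝ × ℝ) (c, d) := by
  rw [dist_pair, dist_pair, h]
  refine max_le ?_ ?_
  · exact mul_le_mul_of_nonneg_left (le_max_left _ _) (by norm_num)
  · have h1 := le_max_right (dist a c) (dist b d)
    have h5 : 0 ≤ dist b d := dist_nonneg
    linarith

/-- concatenation of Lipschitz squares -/
theorem lip_cat {M : Type} [PseudoMetricSpace M] {f f' : ℝ → ℝ → M} {L L' : ℝ≥0}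
    (h : LipschitzOnWith L (fun z : ℝ × ℝ => f z.1 z.2) rect)
    (h' : LipschitzOnWith L' (fun z : ℝ × ℝ => f' z.1 z.2) rect) (e : ∀ s, f 1 s = f' 0 s) :
    LipschitzOnWith (2 * L + 2 * L') (fun z : ℝ × ℝ => qcatM f f' z.1 z.2) rect := by
  -- pairs in the same half
  have k1 : ∀ x ∈ rect, ∀ y ∈ rect, x.1 ≤ 1 / 2 → y.1 ≤ 1 / 2 →
      dist (f (2 * x.1) x.2) (f (2 * y.1) y.2) ≤ 2 * L * dist x y := by
    rintro ⟨a, b⟩ ⟨⟨a1, a2⟩, hb⟩ ⟨c, d⟩ ⟨⟨c1, c2⟩, hd⟩ ha hc
    simp only at a1 a2 c1 c2 ha hc hb hd ⊢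
    have m1 : ((2 * a, b) : ℝ × ℝ) ∈ rect := ⟨⟨by simp only; linarith, by simp only; linarith⟩, hb⟩
    have m2 : ((2 * c, d) : ℝ × ℝ) ∈ rect := ⟨⟨by simp only; linarith, by simp only; linarith⟩, hd⟩
    have h3 := h.dist_le_mul _ m1 _ m2
    have h4 : dist ((2 * a, b) : ℝ × ℝ) (2 * c, d) ≤ 2 * dist ((a, b) : ℝ × ℝ) (c, d) :=
      dist_two (by rw [Real.dist_eq, Real.dist_eq, show 2 * a - 2 * c = 2 * (a - c) by ring,
        abs_mul, abs_two]) b d
    calc _ ≤ (L : ℝ) * dist ((2 * a, b) : ℝ × ℝ) (2 * c, d) := h3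
      _ ≤ L * (2 * dist ((a, b) : ℝ × ℝ) (c, d)) := mul_le_mul_of_nonneg_left h4 L.coe_nonneg
      _ = _ := by ring
  have k2 : ∀ x ∈ rect, ∀ y ∈ rect, 1 / 2 ≤ x.1 → 1 / 2 ≤ y.1 →
      dist (f' (2 * x.1 - 1) x.2) (f' (2 * y.1 - 1) y.2) ≤ 2 * L' * dist x y := by
    rintro ⟨a, b⟩ ⟨⟨a1, a2⟩, hb⟩ ⟨c, d⟩ ⟨⟨c1, c2⟩, hd⟩ ha hc
    simp only at a1 a2 c1 c2 ha hc hb hd ⊢
    have m1 : ((2 * a - 1, b) : ℝ × ℝ) ∈ rect :=
      ⟨⟨by simp only; linarith, by simp only; linarith⟩, hb⟩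
    have m2 : ((2 * c - 1, d) : ℝ × ℝ) ∈ rect :=
      ⟨⟨by simp only; linarith, by simp only; linarith⟩, hd⟩
    have h3 := h'.dist_le_mul _ m1 _ m2
    have h4 : dist ((2 * a - 1, b) : ℝ × ℝ) (2 * c - 1, d) ≤ 2 * dist ((a, b) : ℝ × ℝ) (c, d) :=
      dist_two (by rw [Real.dist_eq, Real.dist_eq,
        show 2 * a - 1 - (2 * c - 1) = 2 * (a - c) by ring, abs_mul, abs_two]) b d
    calc _ ≤ (L' : ℝ) * dist ((2 * a - 1, b) : ℝ × ℝ) (2 * c - 1, d) := h3
      _ ≤ L' * (2 * dist ((a, b) : ℝ × ℝ) (c, d)) := mul_le_mul_of_nonneg_left h4 L'.coe_nonneg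
      _ = _ := by ring
  have k3 : ∀ x ∈ rect, ∀ y ∈ rect, x.1 ≤ 1 / 2 → 1 / 2 ≤ y.1 →
      dist (f (2 * x.1) x.2) (f' (2 * y.1 - 1) y.2) ≤ (2 * L + 2 * L') * dist x y := by
    intro x hx y hy h1 h2
    have m : ((1 / 2, x.2) : ℝ × ℝ) ∈ rect := ⟨⟨by norm_num, by norm_num⟩, hx.2⟩
    have e1 := k1 x hx _ m h1 le_rfl
    have e2 := k2 _ m y hy le_rfl h2
    have e3 : f (2 * (1 / 2)) x.2 = f' (2 * (1 / 2) - 1) x.2 := by
      rw [show (2 * (1 / 2) : ℝ) = 1 by norm_num, sub_self]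
      exact e _
    simp only at e1 e2
    rw [← e3] at e2
    have d1 : dist x ((1 / 2, x.2) : ℝ × ℝ) ≤ dist x y := by
      show max (dist x.1 (1 / 2)) (dist x.2 x.2) ≤ max (dist x.1 y.1) (dist x.2 y.2)
      rw [dist_self]
      refine max_le (le_max_of_le_left ?_) (le_max_of_le_left dist_nonneg)
      rw [Real.dist_eq, Real.dist_eq, abs_of_nonpos (by linarith), abs_of_nonpos (by linarith)]
      linarith
    have d2 : dist ((1 / 2, x.2) : ℝ × ℝ) y ≤ dist x y := by
      show max (dist (1 / 2) y.1) (dist x.2 y.2) ≤ max (dist x.1 y.1) (dist x.2 y.2)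
      refine max_le (le_max_of_le_left ?_) (le_max_right _ _)
      rw [Real.dist_eq, Real.dist_eq, abs_of_nonpos (by linarith), abs_of_nonpos (by linarith)]
      linarith
    have l1 : 2 * (L : ℝ) * dist x ((1 / 2, x.2) : ℝ × ℝ) ≤ 2 * L * dist x y :=
      mul_le_mul_of_nonneg_left d1 (by positivity)
    have l2 : 2 * (L' : ℝ) * dist ((1 / 2, x.2) : ℝ × ℝ) y ≤ 2 * L' * dist x y :=
      mul_le_mul_of_nonneg_left d2 (by positivity)
    have := dist_triangle (f (2 * x.1) x.2) (f (2 * (1 / 2)) x.2) (f' (2 * y.1 - 1) y.2)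
    nlinarith
  refine LipschitzOnWith.of_dist_le_mul fun x hx y hy => ?_
  have hL := L.coe_nonneg
  have hL' := L'.coe_nonneg
  have hxy : 0 ≤ dist x y := dist_nonneg
  have cc : ((2 * L + 2 * L' : ℝ≥0) : ℝ) = 2 * L + 2 * L' := by push_cast; ring
  rw [cc]
  have p1 : 0 ≤ (L : ℝ) * dist x y := mul_nonneg hL hxy
  have p2 : 0 ≤ (L' : ℝ) * dist x y := mul_nonneg hL' hxy
  unfold qcatM
  rcases le_or_gt x.1 (1 / 2) with h1 | h1
  · rcases le_or_gt y.1 (1 / 2) with h2 | h2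
    · simp only [h1, h2, if_true]
      have := k1 x hx y hy h1 h2
      linarith
    · simp only [h1, if_true, not_le.2 h2, if_false]
      exact k3 x hx y hy h1 h2.le
  · rcases le_or_gt y.1 (1 / 2) with h2 | h2
    · simp only [h2, if_true, not_le.2 h1, if_false]
      rw [dist_comm, dist_comm x y]
      exact k3 y hy x hx h2 h1.le
    · simp only [not_le.2 h1, not_le.2 h2, if_false]
      have := k2 x hx y hy h1.le h2.le
      linarith

/-- concatenation of continuous families of squares -/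
theorem cont_cat {T M : Type} [TopologicalSpace T] [TopologicalSpace M] {C : Set T}
    (hC : IsClosed C) {f f' : T → ℝ → ℝ → M}
    (h : ContinuousOn (fun z : T × ℝ × ℝ => f z.1 z.2.1 z.2.2) (C ×ˢ (Icc (0 : ℝ) 1 ×ˢ univ)))
    (h' : ContinuousOn (fun z : T × ℝ × ℝ => f' z.1 z.2.1 z.2.2) (C ×ˢ (Icc (0 : ℝ) 1 ×ˢ univ)))
    (e : ∀ τ ∈ C, ∀ s, f τ 1 s = f' τ 0 s) :
    ContinuousOn (fun z : T × ℝ × ℝ => qcatM (f z.1) (f' z.1) z.2.1 z.2.2)
      (C ×ˢ (Icc (0 : ℝ) 1 ×ˢ univ)) := by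
  have hs : (C ×ˢ (Icc (0 : ℝ) 1 ×ˢ (univ : Set ℝ))) =
      (C ×ˢ (Icc (0 : ℝ) (1 / 2) ×ˢ univ)) ∪ (C ×ˢ (Icc (1 / 2 : ℝ) 1 ×ˢ univ)) := by
    rw [← prod_union, ← union_prod, Icc_union_Icc_eq_Icc (by norm_num) (by norm_num)]
  rw [hs]
  refine ContinuousOn.union_of_isClosed ?_ ?_ (hC.prod (isClosed_Icc.prod isClosed_univ))
    (hC.prod (isClosed_Icc.prod isClosed_univ))
  · have h1 : ContinuousOn (fun z : T × ℝ × ℝ => f z.1 (2 * z.2.1) z.2.2)
        (C ×ˢ (Icc (0 : ℝ) (1 / 2) ×ˢ univ)) := by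
      have h2 : Continuous (fun z : T × ℝ × ℝ => (z.1, (2 * z.2.1, z.2.2))) := by fun_prop
      refine h.comp (f := fun z : T × ℝ × ℝ => (z.1, (2 * z.2.1, z.2.2))) h2.continuousOn ?_
      rintro ⟨τ, a, b⟩ ⟨h3, ⟨h4, h5⟩, -⟩
      simp only at h4 h5
      exact ⟨h3, ⟨by simp only; linarith, by simp only; linarith⟩, trivial⟩
    refine h1.congr ?_
    rintro ⟨τ, a, b⟩ ⟨h3, ⟨h4, h5⟩, -⟩
    simp only at h5
    unfold qcatM
    simp only [h5, if_true]
  · have h1 : ContinuousOn (fun z : T × ℝ × ℝ => f' z.1 (2 * z.2.1 - 1) z.2.2)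
        (C ×ˢ (Icc (1 / 2 : ℝ) 1 ×ˢ univ)) := by
      have h2 : Continuous (fun z : T × ℝ × ℝ => (z.1, (2 * z.2.1 - 1, z.2.2))) := by fun_prop
      refine h'.comp (f := fun z : T × ℝ × ℝ => (z.1, (2 * z.2.1 - 1, z.2.2))) h2.continuousOn ?_
      rintro ⟨τ, a, b⟩ ⟨h3, ⟨h4, h5⟩, -⟩
      simp only at h4 h5
      exact ⟨h3, ⟨by simp only; linarith, by simp only; linarith⟩, trivial⟩
    refine h1.congr ?_
    rintro ⟨τ, a, b⟩ ⟨h3, ⟨h4, h5⟩, -⟩
    simp only at h3 h4
    unfold qcatM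
    rcases eq_or_lt_of_le h4 with h6 | h6
    · subst h6
      simp only [le_refl, if_true]
      rw [show (2 * (1 / 2) : ℝ) = 1 by norm_num, sub_self]
      exact e τ h3 b
    · simp only [not_le.2 h6, if_false]

/-- the values on the boundary -/
theorem bdry {M : Type} {n : ℕ} (y : M) (g : Fin n → R3 → M) (hg : ∀ i, g i (1, 0) = y)
    (l : List (Fin n × Bool)) : ∀ q s : ℝ, (q = 0 ∨ q = 1 ∨ s ≤ 9 / 20 ∨ 11 / 20 ≤ s) →
      evM y g l q s = y := by
  induction l with
  | nil => intro q s _; rfl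
  | cons p l ih =>
    intro q s h
    obtain ⟨i, b⟩ := p
    have hrec : ¬ q ≤ 1 / 2 → evM y g l (2 * q - 1) s = y := by
      intro hq
      refine ih _ _ ?_
      rcases h with h | h | h
      · exact absurd (by rw [h]; norm_num) hq
      · right; left; rw [h]; norm_num
      · right; right; exact h
    cases b with
    | true =>
      show qcatM (fun q s => g i (mm q s)) (evM y g l) q s = y
      unfold qcatM
      split_ifs with hq
      · show g i (mm (2 * q) s) = y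
        rcases h with h | h | h
        · rw [mm_ends' _ _ (Or.inl (by rw [h]; norm_num)), hg]
        · exfalso; rw [h] at hq; norm_num at hq
        · rw [mm_edge' _ _ h, hg]
      · exact hrec hq
    | false =>
      show qcatM (fun q s => g i (mm (1 - q) s)) (evM y g l) q s = y
      unfold qcatM
      split_ifs with hq
      · show g i (mm (1 - 2 * q) s) = y
        rcases h with h | h | h
        · rw [mm_ends' _ _ (Or.inr (by rw [h]; norm_num)), hg]
        · exfalso; rw [h] at hq; norm_num at hq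
        · rw [mm_edge' _ _ h, hg]
      · exact hrec hq

theorem nat {M M' : Type} {n : ℕ} (Θ : M → M') (y : M) (g : Fin n → R3 → M)
    (l : List (Fin n × Bool)) : ∀ q s : ℝ,
      evM (Θ y) (fun i m => Θ (g i m)) l q s = Θ (evM y g l q s) := by
  induction l with
  | nil => intro q s; rfl
  | cons p l ih =>
    intro q s
    obtain ⟨i, b⟩ := p
    cases b with
    | true =>
      show qcatM (fun q s => Θ (g i (mm q s))) (evM (Θ y) (fun i m => Θ (g i m)) l) q s =
        Θ (qcatM (fun q s => g i (mm q s)) (evM y g l) q s)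
      unfold qcatM
      split_ifs
      · rfl
      · exact ih _ _
    | false =>
      show qcatM (fun q s => Θ (g i (mm (1 - q) s))) (evM (Θ y) (fun i m => Θ (g i m)) l) q s =
        Θ (qcatM (fun q s => g i (mm (1 - q) s)) (evM y g l) q s)
      unfold qcatM
      split_ifs
      · rfl
      · exact ih _ _

theorem cont_sph {T M : Type} [TopologicalSpace T] [TopologicalSpace M] {C : Set T}
    {k : T × R3 → M} {m : ℝ → ℝ → R3} (hk : ContinuousOn k (C ×ˢ S2))
    (hm : Continuous (fun z : ℝ × ℝ => m z.1 z.2)) (hS : ∀ q s, m q s ∈ S2) :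
    ContinuousOn (fun z : T × ℝ × ℝ => k (z.1, m z.2.1 z.2.2)) (C ×ˢ (Icc (0 : ℝ) 1 ×ˢ univ)) := by
  have h1 : Continuous (fun z : T × ℝ × ℝ => (z.1, m z.2.1 z.2.2)) :=
    continuous_fst.prodMk (hm.comp continuous_snd)
  exact hk.comp (f := fun z : T × ℝ × ℝ => (z.1, m z.2.1 z.2.2)) h1.continuousOn
    fun z hz => ⟨hz.1, hS _ _⟩

theorem continuous_rev {m : ℝ → ℝ → R3} (hm : Continuous (fun z : ℝ × ℝ => m z.1 z.2)) :
    Continuous (fun z : ℝ × ℝ => m (1 - z.1) z.2) := by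
  have h0 : Continuous (fun z : ℝ × ℝ => ((1 - z.1, z.2) : ℝ × ℝ)) := by fun_prop
  exact hm.comp h0

theorem cont {T M : Type} [TopologicalSpace T] [TopologicalSpace M] {C : Set T} {n : ℕ} (y : M)
    (k : Fin n → T × R3 → M) (l : List (Fin n × Bool)) (hC : IsClosed C)
    (hk : ∀ i, ContinuousOn (k i) (C ×ˢ S2)) (hy : ∀ i, ∀ τ ∈ C, k i (τ, (1, 0)) = y) :
    ContinuousOn (fun z : T × ℝ × ℝ => evM y (fun i m => k i (z.1, m)) l z.2.1 z.2.2)
      (C ×ˢ (Icc (0 : ℝ) 1 ×ˢ univ)) := by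
  have hmm : Continuous (fun z : ℝ × ℝ => mm z.1 z.2) := contDiff_mm.continuous
  induction l with
  | nil => exact continuousOn_const
  | cons p l ih =>
    obtain ⟨i, b⟩ := p
    have hb : ∀ τ ∈ C, ∀ s, evM y (fun i m => k i (τ, m)) l 0 s = y := fun τ hτ s =>
      bdry y _ (fun i => hy i τ hτ) l 0 s (Or.inl rfl)
    cases b with
    | true =>
      have e1 : ∀ τ ∈ C, ∀ s, k i (τ, mm 1 s) = evM y (fun i m => k i (τ, m)) l 0 s := by
        intro τ hτ s
        rw [mm_ends' 1 s (Or.inr rfl), hy i τ hτ, hb τ hτ s]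
      exact cont_cat (f := fun τ q s => k i (τ, mm q s))
        (f' := fun τ => evM y (fun i m => k i (τ, m)) l) hC (cont_sph (hk i) hmm mm_S2') ih e1
    | false =>
      have e1 : ∀ τ ∈ C, ∀ s, k i (τ, mm (1 - 1) s) = evM y (fun i m => k i (τ, m)) l 0 s := by
        intro τ hτ s
        rw [mm_ends' (1 - 1) s (Or.inl (sub_self 1)), hy i τ hτ, hb τ hτ s]
      exact cont_cat (f := fun τ q s => k i (τ, mm (1 - q) s))
        (f' := fun τ => evM y (fun i m => k i (τ, m)) l) hC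
        (cont_sph (m := fun q s => mm (1 - q) s) (hk i) (continuous_rev hmm)
          fun _ _ => mm_S2' _ _) ih e1

theorem lip {M : Type} [PseudoMetricSpace M] {n : ℕ} (y : M) (g : Fin n → R3 → M)
    (l : List (Fin n × Bool)) (hg : ∀ i, ∃ L : ℝ≥0, LipschitzOnWith L (g i) S2)
    (hy : ∀ i, g i (1, 0) = y) :
    ∃ L : ℝ≥0, LipschitzOnWith L (fun z : ℝ × ℝ => evM y g l z.1 z.2) rect := by
  obtain ⟨K, hK⟩ := lip_mm
  induction l with
  | nil => exact ⟨0, LipschitzOnWith.of_dist_le_mul fun x _ z _ => by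
      show dist y y ≤ _
      simp⟩
  | cons p l ih =>
    obtain ⟨i, b⟩ := p
    obtain ⟨L', hL'⟩ := ih
    obtain ⟨L, hL⟩ := hg i
    have hb : ∀ s, evM y g l 0 s = y := fun s => bdry y g hy l 0 s (Or.inl rfl)
    have h1 : LipschitzOnWith (L * K) (fun z : ℝ × ℝ => g i (mm z.1 z.2)) rect :=
      hL.comp hK fun z _ => mm_S2' _ _
    cases b with
    | true =>
      have e1 : ∀ s, g i (mm 1 s) = evM y g l 0 s := by
        intro s
        rw [mm_ends' 1 s (Or.inr rfl), hy i, hb s]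
      exact ⟨_, lip_cat (f := fun q s => g i (mm q s)) h1 hL' e1⟩
    | false =>
      have e1 : ∀ s, g i (mm (1 - 1) s) = evM y g l 0 s := by
        intro s
        rw [mm_ends' (1 - 1) s (Or.inl (sub_self 1)), hy i, hb s]
      exact ⟨_, lip_cat (f := fun q s => g i (mm (1 - q) s))
        (lip_rev (f := fun q s => g i (mm q s)) h1) hL' e1⟩

end EVM

/-- **EVM.** Squares of words. -/
theorem m_EVM : StEVM :=
  ⟨fun _ _ _ Θ y g l q s => EVM.nat Θ y g l q s,
    fun _ _ y g l q s hg h => EVM.bdry y g hg l q s h,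
    fun _ _ _ _ _ _ y k l hC hk hy => EVM.cont y k l hC hk hy,
    fun _ _ _ y g l hg hy => EVM.lip y g l hg hy⟩

end Pool.Agent.Helper18.BI.R


end

/-! ## Helper18.BI.R.M_HCL -/

section

/-!
# Project BI, stage 4 (R): module HCL, the calculus of classes of squares
-/

set_option autoImplicit false

open scoped Manifold ContDiff Topology ComplexConjugate
open Set Pool.Agent.Helper65.Barb Pool.Agent.Helper18.BI
open Pool.Agent.Helper70.BI (I4 IsW MW)
open Pool.Agent.Helper27.H (ArcD StArcH)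
open Pool.Agent.Helper18.BI.H

namespace Pool.Agent.Helper18.BI.R

namespace HCL

/-! ### homotopies of squares -/

private theorem isClosed_box (D : ArcD) :
    IsClosed (Icc (0 : ℝ) 1 ×ˢ (Icc (0 : ℝ) 1 ×ˢ Icc D.m₀ D.m₁)) :=
  isClosed_Icc.prod (isClosed_Icc.prod isClosed_Icc)

/-- gluing two functions, continuous on the box, along a hyperplane -/
private theorem glue_cont {B : Set (ℝ × ℝ × ℝ)} {f g : ℝ × ℝ × ℝ → R4} {p : ℝ × ℝ × ℝ → ℝ}
    (hp : Continuous p) (hf : ContinuousOn f (B ∩ {z | p z ≤ 1 / 2}))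
    (hg : ContinuousOn g (B ∩ {z | 1 / 2 ≤ p z}))
    (he : ∀ z ∈ B, p z = 1 / 2 → f z = g z) :
    ContinuousOn (fun z => open Classical in if p z ≤ 1 / 2 then f z else g z) B := by
  classical
  intro z hz
  rcases lt_trichotomy (p z) (1 / 2) with h | h | h
  · have hn : ∀ᶠ w in 𝓝 z, p w < 1 / 2 := hp.continuousAt.eventually (gt_mem_nhds h)
    have hc : ContinuousWithinAt f B z := by
      refine (hf z ⟨hz, h.le⟩).mono_of_mem_nhdsWithin ?_
      filter_upwards [self_mem_nhdsWithin, mem_nhdsWithin_of_mem_nhds hn] with w hw1 hw2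
      exact ⟨hw1, hw2.le⟩
    refine hc.congr_of_eventuallyEq ?_ (if_pos h.le)
    filter_upwards [mem_nhdsWithin_of_mem_nhds hn] with w hw
    exact if_pos hw.le
  · have h1 : ContinuousWithinAt (fun z => open Classical in if p z ≤ 1 / 2 then f z else g z)
        (B ∩ {z | p z ≤ 1 / 2}) z :=
      (hf z ⟨hz, h.le⟩).congr (fun w hw => if_pos hw.2) (if_pos h.le)
    have h2 : ContinuousWithinAt (fun z => open Classical in if p z ≤ 1 / 2 then f z else g z)
        (B ∩ {z | 1 / 2 ≤ p z}) z := by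
      refine (hg z ⟨hz, h.ge⟩).congr (fun w hw => ?_) ?_
      · by_cases h' : p w ≤ 1 / 2
        · have : p w = 1 / 2 := le_antisymm h' hw.2
          simp only [h', if_true]
          exact he w hw.1 this
        · simp only [h', if_false]
      · simp only [h, le_refl, if_true]
        exact he z hz h
    refine (h1.union h2).mono fun w hw => ?_
    rcases le_total (p w) (1 / 2) with h' | h'
    · exact Or.inl ⟨hw, h'⟩
    · exact Or.inr ⟨hw, h'⟩
  · have hn : ∀ᶠ w in 𝓝 z, 1 / 2 < p w := hp.continuousAt.eventually (lt_mem_nhds h)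
    have hc : ContinuousWithinAt g B z := by
      refine (hg z ⟨hz, h.le⟩).mono_of_mem_nhdsWithin ?_
      filter_upwards [self_mem_nhdsWithin, mem_nhdsWithin_of_mem_nhds hn] with w hw1 hw2
      exact ⟨hw1, hw2.le⟩
    refine hc.congr_of_eventuallyEq ?_ (if_neg (not_le.2 h))
    filter_upwards [mem_nhdsWithin_of_mem_nhds hn] with w hw
    exact if_neg (not_le.2 hw)

private theorem sh_symm {D : ArcD} {f g : ℝ → ℝ → R4} (h : SH D f g) : SH D g f := by
  obtain ⟨H, hc, he, hb⟩ := h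
  refine ⟨fun z => H (1 - z.1, z.2.1, z.2.2), ?_, fun q hq s hs => ?_, fun u hu q hq s hs => ?_⟩
  · refine hc.comp (Continuous.continuousOn (by fun_prop)) ?_
    rintro ⟨u, q, s⟩ ⟨⟨h1, h2⟩, hq, hs⟩
    exact ⟨⟨by simp only at h2 ⊢; linarith, by simp only at h1 ⊢; linarith⟩, hq, hs⟩
  · simp only [sub_zero, sub_self]
    exact ⟨(he q hq s hs).2, (he q hq s hs).1⟩
  · exact hb (1 - u) ⟨by linarith [hu.2], by linarith [hu.1]⟩ q hq s hs

private theorem sh_trans {D : ArcD} {f g k : ℝ → ℝ → R4} (h : SH D f g) (h' : SH D g k) :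
    SH D f k := by
  classical
  obtain ⟨H, hc, he, hb⟩ := h
  obtain ⟨H', hc', he', hb'⟩ := h'
  refine ⟨fun z => if z.1 ≤ 1 / 2 then H (2 * z.1, z.2.1, z.2.2)
    else H' (2 * z.1 - 1, z.2.1, z.2.2), ?_, fun q hq s hs => ?_, fun u hu q hq s hs => ?_⟩
  · have := glue_cont (B := Icc (0 : ℝ) 1 ×ˢ (Icc (0 : ℝ) 1 ×ˢ Icc D.m₀ D.m₁))
      (f := fun z => H (2 * z.1, z.2.1, z.2.2)) (g := fun z => H' (2 * z.1 - 1, z.2.1, z.2.2))
      (p := fun z => z.1) (by fun_prop) ?_ ?_ ?_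
    · exact this
    · refine hc.comp (Continuous.continuousOn (by fun_prop)) ?_
      rintro ⟨u, q, s⟩ ⟨⟨⟨h1, h2⟩, hq, hs⟩, h3⟩
      simp only [mem_ofPred_eq] at h1 h2 h3
      exact ⟨⟨by simp only; linarith, by simp only; linarith⟩, hq, hs⟩
    · refine hc'.comp (Continuous.continuousOn (by fun_prop)) ?_
      rintro ⟨u, q, s⟩ ⟨⟨⟨h1, h2⟩, hq, hs⟩, h3⟩
      simp only [mem_ofPred_eq] at h1 h2 h3
      exact ⟨⟨by simp only; linarith, by simp only; linarith⟩, hq, hs⟩
    · rintro ⟨u, q, s⟩ ⟨-, hq, hs⟩ h3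
      simp only at h3
      subst h3
      have e1 : (2 : ℝ) * (1 / 2) = 1 := by norm_num
      have e2 : (2 : ℝ) * (1 / 2) - 1 = 0 := by norm_num
      simp only [e1, sub_self]
      rw [(he q hq s hs).2, (he' q hq s hs).1]
  · have e1 : ¬ ((1 : ℝ) ≤ 1 / 2) := by norm_num
    have e2 : (0 : ℝ) ≤ 1 / 2 := by norm_num
    have e3 : (2 : ℝ) * 1 - 1 = 1 := by norm_num
    simp only [e1, e2, e3, if_true, if_false, mul_zero]
    exact ⟨(he q hq s hs).1, (he' q hq s hs).2⟩
  · by_cases h : u ≤ 1 / 2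
    · simp only [h, if_true]
      exact hb (2 * u) ⟨by linarith [hu.1], by linarith⟩ q hq s hs
    · simp only [h, if_false]
      exact hb' (2 * u - 1) ⟨by linarith [not_le.1 h], by linarith [hu.2]⟩ q hq s hs

/-! ### the constant loop -/

private theorem loopOK_const (D : ArcD) : LoopOK D (fun _ s => D.c s) where
  smooth := D.smooth.comp contDiff_snd
  froz _ _ _ _ := rfl
  inU _ _ s hs := D.mem s ⟨D.h₀.trans_le hs.1, hs.2.trans_lt D.h₂⟩
  start _ := rfl
  stop _ := rfl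

private theorem hasCl_const (hCls : Pool.Agent.Helper27.H.StCls) (D : ArcD) (y₀ : R4) :
    HasCl D y₀ (fun _ _ => y₀) (fun x => x) := by
  refine ⟨fun _ s => D.c s, loopOK_const D, (hCls D).2.2.2.2.2, fun z => D.c z.2.2,
    (D.smooth.continuous.comp (by fun_prop)).continuousOn, fun q hq s hs => ⟨rfl, ?_⟩,
    fun u hu q hq s hs => ⟨(loopOK_const D).inU q hq s hs, fun _ => rfl⟩⟩
  simp [shp]

/-! ### concatenation -/

private theorem step_le {q : ℝ} (h : q ≤ 1 / 2) : step (2 * q - 1) = 0 :=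
  step_of_nonpos (by linarith)

private theorem step_ge {q : ℝ} (h : 1 / 2 ≤ q) : step (2 * q) = 1 :=
  step_of_one_le (by linarith)

private theorem cat_le {D : ArcD} {c c' : ℝ → ℝ → R4} (hc' : LoopOK D c') {q : ℝ}
    (h : q ≤ 1 / 2) (s : ℝ) : cat D c c' q s = c (step (2 * q)) s := by
  unfold cat
  rw [step_le h, hc'.start]
  abel

private theorem cat_ge {D : ArcD} {c c' : ℝ → ℝ → R4} (hc : LoopOK D c) {q : ℝ}
    (h : 1 / 2 ≤ q) (s : ℝ) : cat D c c' q s = c' (step (2 * q - 1)) s := by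
  unfold cat
  rw [step_ge h, hc.stop]
  abel

private theorem loopOK_cat {D : ArcD} {c c' : ℝ → ℝ → R4} (hc : LoopOK D c)
    (hc' : LoopOK D c') : LoopOK D (cat D c c') where
  smooth := by
    have h1 : ContDiff ℝ ∞ (fun z : ℝ × ℝ => c (step (2 * z.1)) z.2) :=
      hc.smooth.comp (g := fun z : ℝ × ℝ => c z.1 z.2) (f := fun z : ℝ × ℝ =>
        (step (2 * z.1), z.2)) ((contDiff_step.comp (by fun_prop)).prodMk contDiff_snd)
    have h2 : ContDiff ℝ ∞ (fun z : ℝ × ℝ => c' (step (2 * z.1 - 1)) z.2) :=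
      hc'.smooth.comp (g := fun z : ℝ × ℝ => c' z.1 z.2) (f := fun z : ℝ × ℝ =>
        (step (2 * z.1 - 1), z.2)) ((contDiff_step.comp (by fun_prop)).prodMk contDiff_snd)
    exact (h1.add h2).sub (D.smooth.comp contDiff_snd)
  froz q hq s hs := by
    unfold cat
    rw [hc.froz _ (step_mem _) s hs, hc'.froz _ (step_mem _) s hs]
    abel
  inU q hq s hs := by
    rcases le_total q (1 / 2) with h | h
    · rw [cat_le hc' h]
      exact hc.inU _ (step_mem _) s hs
    · rw [cat_ge hc h]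
      exact hc'.inU _ (step_mem _) s hs
  start s := by
    rw [cat_le hc' (by norm_num), mul_zero, step_of_nonpos le_rfl, hc.start]
  stop s := by
    rw [cat_ge hc (by norm_num), step_of_one_le (by norm_num), hc'.stop]

private theorem mem_conv {u x y : ℝ} (hu : u ∈ Icc (0 : ℝ) 1) (hx : x ∈ Icc (0 : ℝ) 1)
    (hy : y ∈ Icc (0 : ℝ) 1) : (1 - u) * x + u * y ∈ Icc (0 : ℝ) 1 := by
  obtain ⟨hu0, hu1⟩ := hu
  obtain ⟨hx0, hx1⟩ := hx
  obtain ⟨hy0, hy1⟩ := hy
  constructor
  · have := mul_nonneg (sub_nonneg.2 hu1) hx0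
    have := mul_nonneg hu0 hy0
    linarith
  · nlinarith [mul_nonneg (sub_nonneg.2 hu1) (sub_nonneg.2 hx1),
      mul_nonneg hu0 (sub_nonneg.2 hy1)]

private theorem SH_cat {D : ArcD} {y₀ : R4} {c c' f f' : ℝ → ℝ → R4} (hc : LoopOK D c)
    (hc' : LoopOK D c') (h : SH D c (shp D y₀ f)) (h' : SH D c' (shp D y₀ f')) :
    SH D (cat D c c') (shp D y₀ (qcat f f')) := by
  classical
  obtain ⟨H, hH, he, hb⟩ := h
  obtain ⟨H', hH', he', hb'⟩ := h'
  have cs : Continuous step := contDiff_step.continuous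
  have m0 : (0 : ℝ) ∈ Icc (0 : ℝ) 1 := ⟨le_rfl, zero_le_one⟩
  have m1 : (1 : ℝ) ∈ Icc (0 : ℝ) 1 := ⟨zero_le_one, le_rfl⟩
  have i1 : ∀ q : ℝ, q ∈ Icc (0 : ℝ) 1 → q ≤ 1 / 2 → 2 * q ∈ Icc (0 : ℝ) 1 := fun q hq h =>
    ⟨by linarith [hq.1], by linarith⟩
  have i2 : ∀ q : ℝ, q ∈ Icc (0 : ℝ) 1 → 1 / 2 ≤ q → 2 * q - 1 ∈ Icc (0 : ℝ) 1 := fun q hq h =>
    ⟨by linarith, by linarith [hq.2]⟩
  refine ⟨fun z => if z.2.1 ≤ 1 / 2 then
      H (z.1, (1 - z.1) * step (2 * z.2.1) + z.1 * (2 * z.2.1), z.2.2)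
    else H' (z.1, (1 - z.1) * step (2 * z.2.1 - 1) + z.1 * (2 * z.2.1 - 1), z.2.2), ?_,
    fun q hq s hs => ?_, fun u hu q hq s hs => ?_⟩
  · have := glue_cont (B := Icc (0 : ℝ) 1 ×ˢ (Icc (0 : ℝ) 1 ×ˢ Icc D.m₀ D.m₁))
      (f := fun z => H (z.1, (1 - z.1) * step (2 * z.2.1) + z.1 * (2 * z.2.1), z.2.2))
      (g := fun z => H' (z.1, (1 - z.1) * step (2 * z.2.1 - 1) + z.1 * (2 * z.2.1 - 1), z.2.2))
      (p := fun z => z.2.1) (by fun_prop) ?_ ?_ ?_
    · exact this
    · refine hH.comp (Continuous.continuousOn (by fun_prop)) ?_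
      rintro ⟨u, q, s⟩ ⟨⟨hu, hq, hs⟩, h3⟩
      exact ⟨hu, mem_conv hu (step_mem _) (i1 q hq h3), hs⟩
    · refine hH'.comp (Continuous.continuousOn (by fun_prop)) ?_
      rintro ⟨u, q, s⟩ ⟨⟨hu, hq, hs⟩, h3⟩
      exact ⟨hu, mem_conv hu (step_mem _) (i2 q hq h3), hs⟩
    · rintro ⟨u, q, s⟩ ⟨hu, hq, hs⟩ h3
      simp only at h3
      subst h3
      have e1 : (2 : ℝ) * (1 / 2) = 1 := by norm_num
      simp only [e1, sub_self, step_of_one_le (le_refl (1 : ℝ)),
        step_of_nonpos (le_refl (0 : ℝ))]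
      have e2 : (1 - u) * 1 + u * 1 = 1 := by ring
      have e3 : (1 - u) * 0 + u * 0 = 0 := by ring
      rw [e2, e3, (hb u hu 1 m1 s hs).2 (Or.inr (Or.inl rfl)),
        (hb' u hu 0 m0 s hs).2 (Or.inl rfl)]
  · by_cases h : q ≤ 1 / 2
    · simp only [h, if_true, sub_zero, one_mul, zero_mul, add_zero, sub_self, zero_add]
      rw [cat_le hc' h, (he _ (step_mem _) s hs).1, (he _ (i1 q hq h) s hs).2]
      refine ⟨rfl, ?_⟩
      simp only [shp, qcat, h, if_true]
    · simp only [h, if_false, sub_zero, one_mul, zero_mul, add_zero, sub_self, zero_add]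
      have h' := (not_le.1 h).le
      rw [cat_ge hc h', (he' _ (step_mem _) s hs).1, (he' _ (i2 q hq h') s hs).2]
      refine ⟨rfl, ?_⟩
      simp only [shp, qcat, h, if_false]
  · by_cases h : q ≤ 1 / 2
    · simp only [h, if_true]
      have key := hb u hu _ (mem_conv hu (step_mem (2 * q)) (i1 q hq h)) s hs
      refine ⟨key.1, fun hh => key.2 ?_⟩
      rcases hh with rfl | rfl | hh
      · left
        rw [mul_zero, step_of_nonpos le_rfl]
        ring
      · norm_num at h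
      · exact Or.inr (Or.inr hh)
    · simp only [h, if_false]
      have h' := (not_le.1 h).le
      have key := hb' u hu _ (mem_conv hu (step_mem (2 * q - 1)) (i2 q hq h')) s hs
      refine ⟨key.1, fun hh => key.2 ?_⟩
      rcases hh with rfl | rfl | hh
      · norm_num at h
      · right; left
        rw [step_of_one_le (by norm_num)]
        ring
      · exact Or.inr (Or.inr hh)

/-! ### reversal -/

private theorem loopOK_rev {D : ArcD} {c : ℝ → ℝ → R4} (hc : LoopOK D c) :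
    LoopOK D (fun q s => c (1 - q) s) where
  smooth := hc.smooth.comp (g := fun z : ℝ × ℝ => c z.1 z.2) (f := fun z : ℝ × ℝ =>
    (1 - z.1, z.2)) (by fun_prop)
  froz q hq s hs := hc.froz (1 - q) ⟨by linarith [hq.2], by linarith [hq.1]⟩ s hs
  inU q hq s hs := hc.inU (1 - q) ⟨by linarith [hq.2], by linarith [hq.1]⟩ s hs
  start s := by simp only [sub_zero]; exact hc.stop s
  stop s := by simp only [sub_self]; exact hc.start s

private theorem SH_rev {D : ArcD} {y₀ : R4} {c f : ℝ → ℝ → R4} (h : SH D c (shp D y₀ f)) :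
    SH D (fun q s => c (1 - q) s) (shp D y₀ (fun q s => f (1 - q) s)) := by
  obtain ⟨H, hH, he, hb⟩ := h
  have i1 : ∀ q : ℝ, q ∈ Icc (0 : ℝ) 1 → 1 - q ∈ Icc (0 : ℝ) 1 := fun q hq =>
    ⟨by linarith [hq.2], by linarith [hq.1]⟩
  refine ⟨fun z => H (z.1, 1 - z.2.1, z.2.2), ?_, fun q hq s hs => ?_,
    fun u hu q hq s hs => ?_⟩
  · refine hH.comp (Continuous.continuousOn (by fun_prop)) ?_
    rintro ⟨u, q, s⟩ ⟨hu, hq, hs⟩
    exact ⟨hu, i1 q hq, hs⟩
  · exact he (1 - q) (i1 q hq) s hs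
  · refine ⟨(hb u hu (1 - q) (i1 q hq) s hs).1, fun hh =>
      (hb u hu (1 - q) (i1 q hq) s hs).2 ?_⟩
    rcases hh with rfl | rfl | hh
    · exact Or.inr (Or.inl (by ring))
    · exact Or.inl (by ring)
    · exact Or.inr (Or.inr hh)

end HCL

theorem m_HCL (hMULT : StMULT) (hINV : StINV) (hSMG : StSMG)
    (hCls : Pool.Agent.Helper27.H.StCls) (hArcH : Pool.Agent.Helper27.H.StArcH)
    (_hCI : StCI) : StHCL := by
  intro D y₀
  refine ⟨HCL.hasCl_const hCls D y₀, ?_, ?_, ?_, ?_, ?_, ?_⟩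
  · rintro f f' χ χ' ⟨c, h1, h2, h3⟩ ⟨c', h1', h2', h3'⟩
    exact ⟨cat D c c', HCL.loopOK_cat h1 h1', hMULT D c c' χ χ' h1 h1' h2 h2',
      HCL.SH_cat h1 h1' h3 h3'⟩
  · rintro f χ χ' ⟨c, h1, h2, h3⟩ ha hb
    exact ⟨fun q s => c (1 - q) s, HCL.loopOK_rev h1, hINV D c χ χ' h1 h2 ha hb,
      HCL.SH_rev h3⟩
  · rintro f f' χ ⟨c, h1, h2, h3⟩ h
    exact ⟨c, h1, h2, HCL.sh_trans h3 h⟩
  · rintro f χ χ' ⟨c, h1, h2, h3⟩ h
    exact ⟨c, h1, (hCls D).2.1 c χ χ' h2 h, h3⟩
  · rintro f χ ⟨c, h1, h2, h3⟩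
    exact (hCls D).2.2.1 c χ h2
  · rintro W f χ χ' hW ⟨c, h1, h2, h3⟩ ⟨c', h1', h2', h3'⟩
    obtain ⟨g, hg, hg0, hg1⟩ := hSMG D c c' h1 h1' (HCL.sh_trans h3 (HCL.sh_symm h3'))
    have e0 : (fun q s => g (0, q, s)) = c := funext fun q => funext fun s => hg0 q s
    have e1 : (fun q s => g (1, q, s)) = c' := funext fun q => funext fun s => hg1 q s
    have k0 : D.Cls (fun q s => g (0, q, s)) χ := by rw [e0]; exact h2
    have k1 : D.Cls (fun q s => g (1, q, s)) χ' := by rw [e1]; exact h2'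
    exact hArcH D g W χ χ' hg (cls_imm_inj D g 0 χ hg.smooth k0)
      (cls_imm_inj D g 1 χ' hg.smooth k1) hW k0 k1

end Pool.Agent.Helper18.BI.R


end

/-! ## Helper18.BI.R.M_STR2 -/

section

/-!
# Project BI, stage 4 (R), module STR2: stretching the bar, the same for all germs
-/

set_option autoImplicit false

open scoped Manifold ContDiff Topology ComplexConjugate
open Set Pool.Agent.Helper65.Barb Pool.Agent.Helper18.BI
open Pool.Agent.Helper18.BI.H

namespace Pool.Agent.Helper18.BI.R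

open Pool.Agent.Helper70.BI (ax repm RepOK StRM StRG m_RM m_RG stFam_of I4)

namespace STR2

/-- the reparametrization -/
private theorem exists_rep {r : ℝ} (h0 : 0 < r) (h1 : r ≤ 1 / 20) : ∃ m : ℝ → ℝ, RepOK m ∧
    (∀ a, (a ≤ 1 / 4 ∨ 4 / 5 - r / 4 ≤ a) → m a = a) ∧ m (59 / 100) = 4 / 5 - r := by
  obtain ⟨m, hm1, hm2, hm3, η, hη, hm4⟩ := m_RM.1 (1 / 4) (4 / 5 - r / 4) (59 / 100) (4 / 5 - r)
    (fun a => a + (4 / 5 - r - 59 / 100)) (by norm_num) (by linarith) (by linarith) (by linarith)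
    (Filter.Eventually.of_forall fun a => by fun_prop) (by ring) (by
      have : HasDerivAt (fun a : ℝ => a + (4 / 5 - r - 59 / 100)) 1 (59 / 100) :=
        (hasDerivAt_id _).add_const _
      rw [this.deriv]
      norm_num)
  have hid : ∀ a, (a ≤ 1 / 4 ∨ 4 / 5 - r / 4 ≤ a) → m a = a := by
    intro a ha
    apply hm4
    rcases ha with ha | ha
    · left; linarith
    · right; linarith
  refine ⟨m, ⟨hm1, hm2, r / 4, by linarith, fun a ha => hid a ?_⟩, hid, ?_⟩
  · rcases ha with ha | ha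
    · left; linarith
    · right; exact ha
  · have h := hm3.self_of_nhds
    rw [h]
    ring

private theorem ax_of_neck {p : R4} (hp : p ∈ neck) : p = ax p.2.1 := by
  obtain ⟨h1, -, -, h4⟩ := hp
  exact Prod.ext h1 (Prod.ext rfl h4)

end STR2

open STR2

theorem m_STR2 : StSTR2 := by
  intro U hU h1U
  have hRG : StRG := m_RG (stFam_of hT2)
  -- the size of the neighbourhood
  have hax : Continuous ax := by
    unfold ax
    fun_prop
  have h45 : ax (4 / 5) ∈ U := by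
    apply h1U
    refine ⟨rfl, ?_⟩
    simp only [rsq, nsq, ax]
    norm_num
  have hnh : ax ⁻¹' U ∈ 𝓝 (4 / 5 : ℝ) := hax.continuousAt.preimage_mem_nhds (hU.mem_nhds h45)
  obtain ⟨δ, hδ, hball⟩ := Metric.mem_nhds_iff.1 hnh
  obtain ⟨r, hr0, hr1, hrδ⟩ : ∃ r : ℝ, 0 < r ∧ r ≤ 1 / 20 ∧ r < δ :=
    ⟨min (1 / 20) (δ / 2), lt_min (by norm_num) (by linarith), min_le_left _ _,
      lt_of_le_of_lt (min_le_right _ _) (by linarith)⟩
  have hUr : ∀ a, 4 / 5 - r ≤ a → a ≤ 4 / 5 → ax a ∈ U := by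
    intro a h1 h2
    apply hball
    rw [Metric.mem_ball, Real.dist_eq, abs_lt]
    constructor <;> linarith
  obtain ⟨m, hm, hid, hmx⟩ := exists_rep hr0 hr1
  obtain ⟨-, hmax, -, hends, hmono, hG⟩ := hRG m hm
  have hfix : ∀ p : R4, (p.2.1 ≤ 1 / 4 ∨ 4 / 5 - r / 4 ≤ p.2.1) → repm m p = p := by
    intro p hp
    show (p.1, (m p.2.1, p.2.2)) = p
    rw [hid _ hp]
  have hcont : Continuous (repm m) := by
    have hmc : Continuous m := hm.1.continuous
    show Continuous fun p : R4 => (p.1, (m p.2.1, p.2.2))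
    fun_prop
  have hs1 : ∀ p ∈ sph 1, 4 / 5 ≤ p.2.1 := by
    intro p hp
    have h1 := sq_le_rsq_one p
    have h2 := hp.2
    nlinarith
  have hs0 : ∀ p ∈ sph 0, p.2.1 ≤ 1 / 5 := by
    intro p hp
    have h1 := sq_le_rsq p
    have h2 := hp.2
    nlinarith
  refine ⟨repm m, m (73 / 100),
    {p | p.2.1 < 1 / 4} ∪ {p | 4 / 5 - r / 4 < p.2.1}, repm m ⁻¹' U,
    ?_, ?_, ?_, hU.preimage hcont, ?_, fun p hp => hp, ?_, ?_, rfl,
    fun F hF => ⟨(hG F hF).1, fun φ => ((hG F hF).2 φ).1⟩⟩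
  · have hc : Continuous fun p : R4 => p.2.1 := by fun_prop
    exact (isOpen_lt hc continuous_const).union (isOpen_lt continuous_const hc)
  · rintro p (hp | hp)
    · left
      show p.2.1 < 1 / 4
      have := hs0 p hp
      linarith
    · right
      show 4 / 5 - r / 4 < p.2.1
      have := hs1 p hp
      linarith
  · intro p hp
    rcases hp with hp | hp
    · exact hfix p (Or.inl (le_of_lt hp))
    · exact hfix p (Or.inr (le_of_lt hp))
  · rintro p (hp | hp)
    · show repm m p ∈ U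
      rw [hfix p (Or.inr (by have := hs1 p hp; linarith))]
      exact h1U hp
    · show repm m p ∈ U
      obtain ⟨hp1, hp2⟩ := hp
      rw [ax_of_neck hp1, hmax]
      have h2 := hends p.2.1 ⟨by linarith, hp1.2.2.1⟩
      refine hUr _ ?_ h2.2
      have h3 : m (59 / 100) < m p.2.1 := hmono (by linarith)
      rw [hmx] at h3
      exact h3.le
  · have h := hmono (show (1 / 5 : ℝ) < 73 / 100 by norm_num)
    rwa [hid (1 / 5) (Or.inl (by norm_num))] at h
  · have h := hmono (show (73 / 100 : ℝ) < 4 / 5 by norm_num)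
    rwa [hid (4 / 5) (Or.inr (by linarith))] at h

end Pool.Agent.Helper18.BI.R


end
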