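import Pool.Agent.Helper65.Barb.Defs
import Pool.Agent.Helper70.BI.B.P07
import Pool.Agent.Helper70.BI.B.P10
import Pool.Agent.Helper70.BI.B.P18

/-!
# Project BI (MP_8e98f2_gt): collected modules, part 30

The contents of the modules
* Helper27.BI.H.M_CUT
* Helper70.BI.M_SPI
* Helper70.BI.M_TH
* Helper34.BI.M_LG
* Helper34.BI.M_D1a

in one file, so that the whole proof builds in a short time.
-/

/-! ## Helper27.BI.H.M_CUT -/

section

/-!
# Project BI, stage 3 (H), module CUT: transplantation of the cusp family into a thick arc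
-/

set_option autoImplicit false

open scoped Manifold ContDiff Topology ComplexConjugate
open Set Filter Pool.Agent.Helper65.Barb Pool.Agent.Helper18.BI
open Pool.Agent.Helper70.BI (I4 LD ld_iff)

namespace Pool.Agent.Helper27.H

namespace CUT

private theorem isCompact_seg (s₀ s₁ : ℝ) : IsCompact (seg s₀ s₁) := by
  have h : seg s₀ s₁ = (fun s : ℝ => ((s, 0) : R4)) '' Icc s₀ s₁ := by
    ext ⟨s, x⟩
    constructor
    · rintro ⟨h1, h2, h3⟩
      refine ⟨s, ⟨h1, h2⟩, ?_⟩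
      simp only at h3
      rw [h3]
    · rintro ⟨t, ⟨h1, h2⟩, h3⟩
      have e1 : t = s := congrArg Prod.fst h3
      have e2 : (0 : ℝ × ℂ) = x := congrArg Prod.snd h3
      subst e1
      exact ⟨h1, h2, e2.symm⟩
  rw [h]
  exact isCompact_Icc.image (by fun_prop)

/-- the reparametrized model family -/
private noncomputable def P (x : ℝ × ℝ × ℝ → R4) (m η : ℝ) (z : ℝ × ℝ × ℝ) : R4 :=
  ((m, 0) : R4) + η • x (z.1, z.2.1, (z.2.2 - m) / η)

private theorem contDiff_P {x : ℝ × ℝ × ℝ → R4} (hx : ContDiff ℝ ∞ x) (m η : ℝ) :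
    ContDiff ℝ ∞ (P x m η) := by
  have h1 : ContDiff ℝ ∞ (fun z : ℝ × ℝ × ℝ => ((z.1, z.2.1, (z.2.2 - m) / η) : ℝ × ℝ × ℝ)) := by
    refine contDiff_fst.prodMk ((contDiff_fst.comp contDiff_snd).prodMk ?_)
    exact ((contDiff_snd.comp contDiff_snd).sub contDiff_const).div_const η
  have h2 : ContDiff ℝ ∞ (fun z : ℝ × ℝ × ℝ => x (z.1, z.2.1, (z.2.2 - m) / η)) := hx.comp h1
  exact contDiff_const.add (h2.const_smul η)

private theorem fderiv_P {x : ℝ × ℝ × ℝ → R4} (hx : ContDiff ℝ ∞ x) {m η : ℝ} (z : ℝ × ℝ × ℝ)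
    (ζ θ σ : ℝ) : fderiv ℝ (P x m η) z (ζ, θ, σ) =
      η • fderiv ℝ x (z.1, z.2.1, (z.2.2 - m) / η) (ζ, θ, σ / η) := by
  have h1 : HasFDerivAt (fun z : ℝ × ℝ × ℝ => ((z.1, z.2.1, (z.2.2 - m) / η) : ℝ × ℝ × ℝ))
      ((ContinuousLinearMap.fst ℝ ℝ (ℝ × ℝ)).prod
        (((ContinuousLinearMap.fst ℝ ℝ ℝ).comp (ContinuousLinearMap.snd ℝ ℝ (ℝ × ℝ))).prod
          (η⁻¹ • ((ContinuousLinearMap.snd ℝ ℝ ℝ).comp (ContinuousLinearMap.snd ℝ ℝ (ℝ × ℝ))))))
      z := by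
    refine hasFDerivAt_fst.prodMk (HasFDerivAt.prodMk ?_ ?_)
    · exact (hasFDerivAt_fst.comp z hasFDerivAt_snd)
    · have h2 : HasFDerivAt (fun z : ℝ × ℝ × ℝ => z.2.2 - m)
          ((ContinuousLinearMap.snd ℝ ℝ ℝ).comp (ContinuousLinearMap.snd ℝ ℝ (ℝ × ℝ))) z :=
        (hasFDerivAt_snd.comp z hasFDerivAt_snd).sub_const m
      have h3 := h2.const_smul η⁻¹
      refine h3.congr_of_eventuallyEq (Eventually.of_forall fun y => ?_)
      simp [div_eq_inv_mul]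
  have h4 := (hx.differentiable (by simp) (z.1, z.2.1, (z.2.2 - m) / η)).hasFDerivAt
  have h5 := ((h4.comp z h1).const_smul η).const_add ((m, 0) : R4)
  have h6 : fderiv ℝ (P x m η) z = _ := h5.fderiv
  rw [h6]
  simp [div_eq_inv_mul]

end CUT

theorem m_CUT : StCUT := by
  rintro ⟨x, σ₀, hσ, hσ1, hx, hfix, hbd, himm, hdbl, hpt, htr⟩ D
  classical
  obtain ⟨δ, hL, hδ⟩ := m_A1 R4 R4 R4 I4 R4 D.J D.L (CUT.isCompact_seg _ _) D.emb.1 D.emb.2
  have hJinj : InjOn D.J δ.source := fun p hp q hq he => by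
    apply δ.injOn hp hq
    rw [hδ p hp, hδ q hq, he]
  have hJld : ∀ p ∈ δ.source, LD D.J p := fun p hp => ⟨δ, hp, fun q hq => (hδ q hq).symm⟩
  have hJc : ∀ p ∈ δ.source, ContDiffAt ℝ ∞ D.J p := fun p hp =>
    (ld_iff.1 (hJld p hp)).1.self_of_nhds
  have hJd : ∀ p ∈ δ.source, Function.Injective (fderiv ℝ D.J p) := fun p hp =>
    (ld_iff.1 (hJld p hp)).2
  set m : ℝ := (D.m₀ + D.m₁) / 2 with hm
  have h₀ := D.h₀
  have h₁ := D.h₁
  have h₂ := D.h₂
  have hLm : ∀ s ∈ Icc D.s₀ D.s₁, ((s, 0) : R4) ∈ δ.source := fun s hs =>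
    hL ⟨hs.1, hs.2, rfl⟩
  have hmI : m ∈ Icc D.s₀ D.s₁ := ⟨by linarith, by linarith⟩
  have hmN := hLm m hmI
  have hmU : D.J (m, 0) ∈ D.U := by
    rw [D.core m hmI]
    exact D.mem m ⟨by linarith, by linarith⟩
  have hnb : δ.source ∩ D.J ⁻¹' D.U ∈ 𝓝 ((m, 0) : R4) :=
    Filter.inter_mem (δ.open_source.mem_nhds hmN)
      ((hJc _ hmN).continuousAt.preimage_mem_nhds (D.openU.mem_nhds hmU))
  obtain ⟨ρ, hρ, hball⟩ := Metric.mem_nhds_iff.1 hnb
  set η : ℝ := min (ρ / 8) ((D.m₁ - D.m₀) / 8) with hη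
  have hη0 : 0 < η := lt_min (by linarith) (by linarith)
  have hη1 : η ≤ ρ / 8 := min_le_left _ _
  have hη2 : η ≤ (D.m₁ - D.m₀) / 8 := min_le_right _ _
  set P := CUT.P x m η with hP
  have hPc : ContDiff ℝ ∞ P := CUT.contDiff_P hx m η
  -- far from the middle the curve is straight
  have hPs : ∀ u q s, (η ≤ |s - m| ∨ u ∉ Ioo (0 : ℝ) 1 ∨ q ∉ Ioo (0 : ℝ) 1) →
      P (u, q, s) = (s, 0) := by
    intro u q s h
    have h' : 1 ≤ |(s - m) / η| ∨ u ∉ Ioo (0 : ℝ) 1 ∨ q ∉ Ioo (0 : ℝ) 1 := by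
      rcases h with h | h
      · left
        rw [abs_div, abs_of_pos hη0, le_div_iff₀ hη0]
        linarith
      · exact Or.inr h
    have e := hfix u q _ h'
    simp only [hP, CUT.P]
    rw [e]
    refine Prod.ext ?_ ?_
    · simp only [Prod.fst_add, Prod.smul_fst, smul_eq_mul]
      field_simp
      ring
    · simp
  have hPb : ∀ u q s, |s - m| ≤ 2 * η → P (u, q, s) ∈ Metric.ball ((m, 0) : R4) ρ := by
    intro u q s h
    have h3 : ‖x (u, q, (s - m) / η)‖ ≤ 3 := by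
      by_cases h4 : |(s - m) / η| ≤ 1
      · exact hbd u q _ h4
      · push Not at h4
        rw [hfix u q _ (Or.inl h4.le)]
        have h5 : |(s - m) / η| ≤ 2 := by
          rw [abs_div, abs_of_pos hη0, div_le_iff₀ hη0]
          linarith
        rw [Prod.norm_def]
        simp only [Real.norm_eq_abs, norm_zero]
        exact max_le (by linarith) (by norm_num)
    rw [Metric.mem_ball, dist_eq_norm]
    simp only [hP, CUT.P, add_sub_cancel_left]
    rw [norm_smul, Real.norm_eq_abs, abs_of_pos hη0]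
    nlinarith
  have hPN : ∀ u q, ∀ s ∈ Icc D.s₀ D.s₁, P (u, q, s) ∈ δ.source := by
    intro u q s hs
    by_cases h : |s - m| ≤ 2 * η
    · exact (hball (hPb u q s h)).1
    · push Not at h
      rw [hPs u q s (Or.inl (by linarith))]
      exact hLm s hs
  set c : ℝ × ℝ × ℝ → R4 := fun z => if |z.2.2 - m| < 2 * η then D.J (P z) else D.c z.2.2 with hc
  have hcJ : ∀ u q, ∀ s ∈ Icc D.s₀ D.s₁, c (u, q, s) = D.J (P (u, q, s)) := by
    intro u q s hs
    simp only [hc]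
    split_ifs with h
    · rfl
    · push Not at h
      rw [hPs u q s (Or.inl (by linarith)), D.core s hs]
  have hIn : ∀ s, |s - m| < 2 * η → s ∈ Ioo D.m₀ D.m₁ := by
    intro s h
    rw [abs_lt] at h
    constructor <;> linarith [h.1, h.2]
  have hInn : ∀ s, |s - m| < 2 * η → s ∈ Icc D.s₀ D.s₁ := fun s h =>
    ⟨by linarith [(hIn s h).1], by linarith [(hIn s h).2]⟩
  have hfar : ∀ u q s, (η ≤ |s - m| ∨ u ∉ Ioo (0 : ℝ) 1 ∨ q ∉ Ioo (0 : ℝ) 1) →
      c (u, q, s) = D.c s := by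
    intro u q s h
    by_cases h' : |s - m| < 2 * η
    · rw [hcJ u q s (hInn s h'), hPs u q s h, D.core s (hInn s h')]
    · simp only [hc]
      rw [if_neg h']
  have hnear : ∀ z : ℝ × ℝ × ℝ, |z.2.2 - m| < 2 * η → c =ᶠ[𝓝 z] fun y => D.J (P y) := by
    intro z hz
    have : ∀ᶠ y : ℝ × ℝ × ℝ in 𝓝 z, |y.2.2 - m| < 2 * η :=
      ContinuousAt.eventually_lt (by fun_prop) (by fun_prop) hz
    filter_upwards [this] with y hy
    simp only [hc]
    rw [if_pos hy]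
  have hfar' : ∀ z : ℝ × ℝ × ℝ, η < |z.2.2 - m| → c =ᶠ[𝓝 z] fun y => D.c y.2.2 := by
    intro z hz
    have : ∀ᶠ y : ℝ × ℝ × ℝ in 𝓝 z, η < |y.2.2 - m| :=
      ContinuousAt.eventually_lt (by fun_prop) (by fun_prop) hz
    filter_upwards [this] with y hy
    exact hfar y.1 y.2.1 y.2.2 (Or.inl hy.le)
  have hcsm : ContDiff ℝ ∞ c := by
    rw [contDiff_iff_contDiffAt]
    intro z
    by_cases hz : |z.2.2 - m| < 2 * η
    · refine ContDiffAt.congr_of_eventuallyEq ?_ (hnear z hz)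
      exact (hJc _ (hball (hPb z.1 z.2.1 z.2.2 hz.le)).1).comp z hPc.contDiffAt
    · push Not at hz
      refine ContDiffAt.congr_of_eventuallyEq ?_ (hfar' z (by linarith))
      exact (D.smooth.comp (contDiff_snd.comp contDiff_snd)).contDiffAt
  have hsep : ∀ s s', s < s' → (s - m) / η < (s' - m) / η := fun s s' h =>
    div_lt_div_of_pos_right (by linarith) hη0
  -- double points
  have hxx : ∀ u q, ∀ s ∈ Icc D.s₀ D.s₁, ∀ s' ∈ Icc D.s₀ D.s₁, c (u, q, s) = c (u, q, s') →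
      x (u, q, (s - m) / η) = x (u, q, (s' - m) / η) := by
    intro u q s hs s' hs' h
    rw [hcJ u q s hs, hcJ u q s' hs'] at h
    have h2 := hJinj (hPN u q s hs) (hPN u q s' hs') h
    simp only [hP, CUT.P] at h2
    have h3 := add_left_cancel h2
    exact smul_right_injective R4 hη0.ne' h3
  have hdd : ∀ u q, ∀ s ∈ Icc D.s₀ D.s₁, ∀ s' ∈ Icc D.s₀ D.s₁, s < s' → c (u, q, s) = c (u, q, s') →
      u = 1 / 2 ∧ q = 1 / 2 ∧ s = m - η * σ₀ ∧ s' = m + η * σ₀ := by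
    intro u q s hs s' hs' hlt h
    obtain ⟨h1, h2, h3, h4⟩ := hdbl u q _ _ (hsep s s' hlt) (hxx u q s hs s' hs' h)
    refine ⟨h1, h2, ?_, ?_⟩
    · rw [div_eq_iff hη0.ne'] at h3
      linarith
    · rw [div_eq_iff hη0.ne'] at h4
      linarith
  have hσa : (m - η * σ₀ - m) / η = -σ₀ := by
    field_simp
    ring
  have hσb : (m + η * σ₀ - m) / η = σ₀ := by
    field_simp
    ring
  have hησ : η * σ₀ < η := by nlinarith
  have hησ0 : 0 < η * σ₀ := mul_pos hη0 hσ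
  have haI : |m - η * σ₀ - m| < 2 * η := by
    rw [show m - η * σ₀ - m = -(η * σ₀) by ring, abs_neg, abs_of_pos hησ0]
    linarith
  have hbI : |m + η * σ₀ - m| < 2 * η := by
    rw [show m + η * σ₀ - m = η * σ₀ by ring, abs_of_pos hησ0]
    linarith
  have hPab : P (1 / 2, 1 / 2, m - η * σ₀) = P (1 / 2, 1 / 2, m + η * σ₀) := by
    simp only [hP, CUT.P]
    rw [hσa, hσb, hpt]
  have hImm : ∀ u ∈ Icc (0 : ℝ) 1, ∀ q ∈ Icc (0 : ℝ) 1, D.Imm c u q := by
    intro u _ q _ s hs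
    by_cases h : |s - m| < 2 * η
    · have e1 : (fun s => c (u, q, s)) =ᶠ[𝓝 s] fun s => D.J (P (u, q, s)) := by
        have h3 : ContinuousAt (fun s : ℝ => ((u, q, s) : ℝ × ℝ × ℝ)) s := by fun_prop
        exact h3.eventually (hnear (u, q, s) h)
      rw [e1.deriv_eq]
      have h4 : HasDerivAt (fun s => P (u, q, s)) (deriv (fun σ => x (u, q, σ)) ((s - m) / η)) s := by
        have h5 : ContDiff ℝ ∞ (fun σ => x (u, q, σ)) :=
          hx.comp (contDiff_const.prodMk (contDiff_const.prodMk contDiff_id))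
        have h6 := (h5.differentiable (by simp) ((s - m) / η)).hasDerivAt
        have h7 : HasDerivAt (fun s : ℝ => (s - m) / η) (1 / η) s :=
          ((hasDerivAt_id s).sub_const m).div_const η
        have h8 := ((h6.scomp s h7).const_smul η).const_add ((m, 0) : R4)
        have h9 : η • (1 / η) • deriv (fun σ => x (u, q, σ)) ((s - m) / η) =
            deriv (fun σ => x (u, q, σ)) ((s - m) / η) := by
          rw [smul_smul, mul_one_div_cancel hη0.ne', one_smul]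
        rw [h9] at h8
        exact h8
      have hN := hPN u q s hs
      have h10 := ((hJc _ hN).differentiableAt (by simp)).hasFDerivAt.comp_hasDerivAt s h4
      have h11 : deriv (fun s => D.J (P (u, q, s))) s = _ := h10.deriv
      rw [h11]
      intro h12
      refine himm u q ((s - m) / η) (hJd _ hN ?_)
      rw [h12, map_zero]
    · push Not at h
      have e1 : (fun s => c (u, q, s)) =ᶠ[𝓝 s] D.c := by
        have h3 : ContinuousAt (fun s : ℝ => ((u, q, s) : ℝ × ℝ × ℝ)) s := by fun_prop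
        exact h3.eventually (hfar' (u, q, s) (by simp only; linarith))
      rw [e1.deriv_eq]
      have hN := hLm s hs
      have h4 : HasDerivAt (fun s : ℝ => ((s, 0) : R4)) (1, 0) s :=
        (hasDerivAt_id s).prodMk (hasDerivAt_const s _)
      have h10 := (((hJc _ hN).differentiableAt (by simp)).hasFDerivAt.comp_hasDerivAt s
        h4).hasDerivWithinAt (s := Icc D.s₀ D.s₁)
      have h11 : HasDerivWithinAt D.c (fderiv ℝ D.J (s, 0) (1, 0)) (Icc D.s₀ D.s₁) s := by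
        refine h10.congr (fun t ht => ?_) ?_
        · exact (D.core t ht).symm
        · exact (D.core s hs).symm
      have h12 := (D.smooth.differentiable (by simp) s).hasDerivAt.hasDerivWithinAt
        (s := Icc D.s₀ D.s₁)
      have h13 := (uniqueDiffOn_Icc (by linarith : D.s₀ < D.s₁) s hs).eq_deriv _ h12 h11
      rw [h13]
      intro h14
      have h15 : ((1, 0) : R4) = 0 := hJd _ hN (by rw [h14, map_zero])
      have h16 : (1 : ℝ) = 0 := congrArg Prod.fst h15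
      norm_num at h16
  refine ⟨c, 1 / 2, 1 / 2, m - η * σ₀, m + η * σ₀, ?_, ?_, hImm, ?_, ?_, ?_⟩
  · refine ⟨hcsm, ?_, ?_, ?_, ?_⟩
    · intro u _ q _ s hs
      refine hfar u q s (Or.inl ?_)
      rcases hs with hs | hs
      · rw [abs_of_nonpos (by linarith)]
        linarith
      · rw [abs_of_nonneg (by linarith)]
        linarith
    · intro u _ q _ s hs
      by_cases h : |s - m| < 2 * η
      · simp only [hc]
        rw [if_pos h]
        exact (hball (hPb u q s h.le)).2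
      · push Not at h
        rw [hfar u q s (Or.inl (by linarith))]
        exact D.mem s ⟨by linarith [hs.1], by linarith [hs.2]⟩
    · intro u _ s
      exact hfar u 0 s (Or.inr (Or.inr fun h => lt_irrefl _ h.1))
    · intro u _ s
      exact hfar u 1 s (Or.inr (Or.inr fun h => lt_irrefl _ h.2))
  · have haN := hPN (1 / 2) (1 / 2) _ (hInn _ haI)
    have hbN := hPN (1 / 2) (1 / 2) _ (hInn _ hbI)
    refine ⟨⟨by norm_num, by norm_num⟩, ⟨by norm_num, by norm_num⟩, ?_, ?_, by linarith, ?_, ?_, ?_⟩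
    · exact ⟨by linarith [(hIn _ haI).1], by linarith [(hIn _ haI).2]⟩
    · exact ⟨by linarith [(hIn _ hbI).1], by linarith [(hIn _ hbI).2]⟩
    · rw [hcJ _ _ _ (hInn _ haI), hcJ _ _ _ (hInn _ hbI), hPab]
    · intro s hs s' hs' hlt h
      obtain ⟨-, -, h3, h4⟩ := hdd _ _ s hs s' hs' hlt h
      exact ⟨h3, h4⟩
    · intro ζ θ σ τ h
      rw [(hnear (1 / 2, 1 / 2, m - η * σ₀) haI).fderiv_eq,
        (hnear (1 / 2, 1 / 2, m + η * σ₀) hbI).fderiv_eq] at h
      have k1 := fderiv_comp (𝕜 := ℝ) (f := P) (g := D.J) ((1 / 2, 1 / 2, m - η * σ₀) : ℝ × ℝ × ℝ)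
        ((hJc _ haN).differentiableAt (by simp)) (hPc.differentiable (by simp) _)
      have k2 := fderiv_comp (𝕜 := ℝ) (f := P) (g := D.J) ((1 / 2, 1 / 2, m + η * σ₀) : ℝ × ℝ × ℝ)
        ((hJc _ hbN).differentiableAt (by simp)) (hPc.differentiable (by simp) _)
      have k1' : fderiv ℝ (fun y => D.J (P y)) (1 / 2, 1 / 2, m - η * σ₀) = _ := k1
      have k2' : fderiv ℝ (fun y => D.J (P y)) (1 / 2, 1 / 2, m + η * σ₀) = _ := k2
      rw [k1', k2', hPab] at h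
      have h2 := hJd _ hbN h
      have q1 := CUT.fderiv_P hx (m := m) (η := η) (1 / 2, 1 / 2, m - η * σ₀) ζ θ σ
      have q2 := CUT.fderiv_P hx (m := m) (η := η) (1 / 2, 1 / 2, m + η * σ₀) ζ θ τ
      have h3 := smul_right_injective R4 hη0.ne' (q1.symm.trans (h2.trans q2))
      simp only at h3
      rw [hσa, hσb] at h3
      obtain ⟨e1, e2, e3, e4⟩ := htr ζ θ (σ / η) (τ / η) h3
      refine ⟨e1, e2, ?_, ?_⟩
      · rw [div_eq_iff hη0.ne'] at e3
        linarith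
      · rw [div_eq_iff hη0.ne'] at e4
        linarith
  · intro u _ q _ huq s hs s' hs' h
    by_contra hne
    rcases lt_or_gt_of_ne hne with hlt | hlt
    · obtain ⟨h1, h2, -, -⟩ := hdd u q s hs s' hs' hlt h
      exact huq (by rw [h1, h2])
    · obtain ⟨h1, h2, -, -⟩ := hdd u q s' hs' s hs hlt h.symm
      exact huq (by rw [h1, h2])
  · intro q s
    exact hfar 0 q s (Or.inr (Or.inl fun h => lt_irrefl _ h.1))
  · intro q s
    exact hfar 1 q s (Or.inr (Or.inl fun h => lt_irrefl _ h.2))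

end Pool.Agent.Helper27.H


end

/-! ## Helper70.BI.M_SPI -/

section

/-!
# Project BI, part (E), module SPI: spinning the end of the bar once around the cuff
-/

set_option autoImplicit false

open scoped Manifold ContDiff Topology ComplexConjugate
open Set Filter Pool.Agent.Helper65.Barb Pool.Agent.Helper18.BI

namespace Pool.Agent.Helper70.BI

namespace SPI

private theorem rsq_ax (c a : ℝ) : rsq c (ax a) = (a - c) ^ 2 := by
  simp [rsq, nsq, ax]

private theorem sqrt_ax {a : ℝ} (ha : a ≤ 1) : √(rsq 1 (ax a)) = 1 - a := by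
  rw [rsq_ax, show (a - 1) ^ 2 = (1 - a) ^ 2 by ring]
  exact Real.sqrt_sq (by linarith)

private theorem tr_ax {a : ℝ} (ha : a ≤ 1) : tr (ax a) = (4 / 5 - a) ^ 2 := by
  unfold tr
  rw [sqrt_ax ha]
  have : (ax a).1 = 1 / 2 := rfl
  rw [this]
  ring

private theorem continuous_tr : Continuous tr := by
  unfold tr
  have h := (continuous_rsq 1).sqrt
  have h1 : Continuous (fun p : R4 => p.1) := continuous_fst
  exact ((h1.sub continuous_const).pow 2).add ((h.sub continuous_const).pow 2)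

private theorem tr_nonneg (p : R4) : 0 ≤ tr p := by
  unfold tr; positivity

private theorem tr_fst {e : ℝ} (he : 0 < e) {p : R4} (h : tr p < e ^ 2) : |p.1 - 1 / 2| < e := by
  unfold tr at h
  exact abs_lt_of_sq_lt_sq (by nlinarith [sq_nonneg (√(rsq 1 p) - 1 / 5)]) he.le

private theorem tr_snd {e : ℝ} (he : 0 < e) {p : R4} (h : tr p < e ^ 2) :
    |√(rsq 1 p) - 1 / 5| < e := by
  unfold tr at h
  exact abs_lt_of_sq_lt_sq (by nlinarith [sq_nonneg (p.1 - 1 / 2)]) he.le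

private theorem tr_zero {p : R4} (h : tr p ≤ 0) : p ∈ sph 1 := by
  unfold tr at h
  have h1 : p.1 - 1 / 2 = 0 := by
    have : (p.1 - 1 / 2) ^ 2 = 0 := by
      nlinarith [sq_nonneg (√(rsq 1 p) - 1 / 5), sq_nonneg (p.1 - 1 / 2)]
    exact pow_eq_zero_iff (two_ne_zero) |>.1 this
  have h2 : √(rsq 1 p) - 1 / 5 = 0 := by
    have : (√(rsq 1 p) - 1 / 5) ^ 2 = 0 := by
      nlinarith [sq_nonneg (√(rsq 1 p) - 1 / 5), sq_nonneg (p.1 - 1 / 2)]
    exact pow_eq_zero_iff (two_ne_zero) |>.1 this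
  refine ⟨by linarith, ?_⟩
  have h3 : √(rsq 1 p) = 1 / 5 := by linarith
  have h4 := Real.sq_sqrt (rsq_nonneg 1 p)
  rw [h3] at h4
  rw [← h4]
  norm_num

private theorem abs_a_le (p : R4) : |p.2.1 - 1| ≤ √(rsq 1 p) := by
  apply Real.le_sqrt_of_sq_le
  rw [sq_abs]
  exact sq_le_rsq_one p

private theorem norm_w_le (p : R4) : ‖p.2.2‖ ≤ √(rsq 1 p) := by
  apply Real.le_sqrt_of_sq_le
  have h : p.2.2.re ^ 2 + p.2.2.im ^ 2 = ‖p.2.2‖ ^ 2 := by
    rw [← Complex.normSq_eq_norm_sq, Complex.normSq_apply]; ring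
  rw [← h]
  simp only [rsq, nsq]
  nlinarith [sq_nonneg (p.2.1 - 1)]

private theorem norm_x_le (p : R4) : ‖p.2 - pc 1‖ ≤ √(rsq 1 p) := by
  rw [Prod.norm_def]
  refine max_le ?_ ?_
  · exact abs_a_le p
  · have : (p.2 - pc 1).2 = p.2.2 := by simp [pc]
    rw [this]
    exact norm_w_le p

/-- a tube around the second cuff inside an open set -/
private theorem exists_tube {V : Set R4} (hV : IsOpen V) (hs : sph 1 ⊆ V) :
    ∃ m : ℝ, 0 < m ∧ ∀ p, tr p < m → p ∈ V := by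
  have hK : IsCompact ({p : R4 | tr p ≤ 1} \ V) := by
    apply Metric.isCompact_of_isClosed_isBounded
    · exact (isClosed_le continuous_tr continuous_const).sdiff hV
    · refine (isBounded_of_rsq 1 4 (-1) 2).subset ?_
      rintro p ⟨hp, -⟩
      have hp' : tr p < (3 / 2) ^ 2 := lt_of_le_of_lt hp (by norm_num)
      have h1 : (p.1 - 1 / 2) ^ 2 ≤ 1 := by
        have : tr p ≤ 1 := hp
        unfold tr at this
        nlinarith [sq_nonneg (√(rsq 1 p) - 1 / 5)]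
      have h2 := tr_snd (by norm_num) hp'
      have h3 : |p.1 - 1 / 2| ≤ 1 := abs_le_one_iff_mul_self_le_one.2 (by nlinarith)
      rw [abs_le] at h3
      rw [abs_lt] at h2
      refine ⟨by linarith, by linarith, ?_⟩
      rw [← Real.sq_sqrt (rsq_nonneg 1 p)]
      nlinarith [Real.sqrt_nonneg (rsq 1 p)]
  rcases ({p : R4 | tr p ≤ 1} \ V).eq_empty_or_nonempty with h0 | h0
  · refine ⟨1, one_pos, fun p hp => ?_⟩
    by_contra hn
    have : p ∈ ({p : R4 | tr p ≤ 1} \ V) := ⟨hp.le, hn⟩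
    rw [h0] at this
    exact this
  · obtain ⟨q, hq, hmin⟩ := hK.exists_isMinOn h0 continuous_tr.continuousOn
    have hq0 : 0 < tr q := by
      by_contra hn
      exact hq.2 (hs (tr_zero (not_lt.1 hn)))
    refine ⟨min 1 (tr q), lt_min one_pos hq0, fun p hp => ?_⟩
    by_contra hn
    have h1 : p ∈ ({p : R4 | tr p ≤ 1} \ V) := ⟨(hp.trans_le (min_le_left _ _)).le, hn⟩
    have h2 : tr q ≤ tr p := hmin h1
    exact absurd (hp.trans_le (min_le_right _ _)) (not_lt.2 h2)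

private theorem hasDerivAt_ax (a : ℝ) : HasDerivAt ax ((0 : ℝ), ((1 : ℝ), (0 : ℂ))) a :=
  (hasDerivAt_const a (1 / 2 : ℝ)).prodMk ((hasDerivAt_id a).prodMk (hasDerivAt_const a (0 : ℂ)))

private noncomputable def LM (lam : ℝ) : R4 →L[ℝ] R4 :=
  (ContinuousLinearMap.id ℝ ℝ).prodMap (lam • ContinuousLinearMap.id ℝ R3)

private theorem det_LM (lam : ℝ) : (LM lam).det = lam ^ 3 := by
  have h : (LM lam : R4 →ₗ[ℝ] R4) = (LinearMap.id : ℝ →ₗ[ℝ] ℝ).prodMap
      (lam • (LinearMap.id : R3 →ₗ[ℝ] R3)) := rfl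
  rw [ContinuousLinearMap.det, h, LinearMap.det_prodMap, LinearMap.det_id, LinearMap.det_smul,
    LinearMap.det_id]
  have : Module.finrank ℝ R3 = 3 := by
    rw [Module.finrank_prod, Complex.finrank_real_complex, Module.finrank_self]
  rw [this]
  ring

private theorem hasFDerivAt_form (lam : ℝ) (p : R4) :
    HasFDerivAt (fun q : R4 => ((q.1, pc 1 + lam • (q.2 - pc 1)) : R4)) (LM lam) p := by
  have h1 : HasFDerivAt (fun q : R4 => LM lam q + ((0 : ℝ), pc 1 - lam • pc 1)) (LM lam) p :=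
    (LM lam).hasFDerivAt.add_const _
  refine h1.congr_of_eventuallyEq (Eventually.of_forall fun q => ?_)
  refine Prod.ext ?_ ?_
  · change q.1 = q.1 + 0
    rw [add_zero]
  · change pc 1 + lam • (q.2 - pc 1) = lam • q.2 + (pc 1 - lam • pc 1)
    rw [smul_sub]
    abel

private theorem ax_mem_neck {a : ℝ} (ha : a ∈ Icc (1 / 5 : ℝ) (4 / 5)) : ax a ∈ SP :=
  Or.inr ⟨rfl, ha.1, ha.2, rfl⟩

end SPI

open SPI in
theorem m_SPI (hROT : StROT) (hA1 : StA1) (hF : StFam) : StSPI := by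
  classical
  intro G d r lam hd hr hlam hlr hG hform
  -- the open set `V`
  have hcomp : IsCompact (SP ∪ flat 1) := by
    refine X2.isCompact_SP.union ?_
    apply Metric.isCompact_of_isClosed_isBounded
    · apply IsClosed.inter (isClosed_eq continuous_fst continuous_const)
      exact isClosed_le (continuous_rsq 1) continuous_const
    · exact (isBounded_of_rsq 1 (1 / 25) (1 / 2) (1 / 2)).subset
        (fun p hp => ⟨hp.1.ge, hp.1.le, hp.2⟩)
  obtain ⟨Φ, hΦ, hΦG⟩ := hA1 R4 _ _ 𝓘(ℝ, R4) R4 G (SP ∪ flat 1) hcomp hG.1 hG.2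
  have hVo : IsOpen Φ.source := Φ.open_source
  have hGV : EmbOn I4 G Φ.source := by
    refine ⟨fun p hp => ⟨Φ, hp, fun q hq => (hΦG q hq).symm⟩, fun p hp q hq he => ?_⟩
    refine Φ.toPartialEquiv.injOn hp hq ?_
    have h1 : Φ p = Φ q := by rw [hΦG p hp, hΦG q hq, he]
    exact h1
  have hsub1 : sph 1 ⊆ Φ.source := fun p hp => hΦ (Or.inl (Or.inl (Or.inr hp)))
  obtain ⟨m, hm, hmV⟩ := exists_tube hVo hsub1
  -- the radius
  obtain ⟨ε, hε0, hε1, hεr, hεm⟩ : ∃ ε : ℝ, 0 < ε ∧ ε < 1 / 400 ∧ ε < r ∧ ε ^ 2 < m := by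
    refine ⟨min (1 / 500) (min (r / 2) (min 1 (m / 2))), by positivity, ?_, ?_, ?_⟩
    · exact lt_of_le_of_lt (min_le_left _ _) (by norm_num)
    · exact lt_of_le_of_lt ((min_le_right _ _).trans (min_le_left _ _)) (by linarith)
    · set e := min (1 / 500) (min (r / 2) (min 1 (m / 2))) with he
      have e0 : 0 < e := by rw [he]; positivity
      have e1 : e ≤ 1 := (min_le_right _ _).trans ((min_le_right _ _).trans (min_le_left _ _))
      have e2 : e ≤ m / 2 := (min_le_right _ _).trans ((min_le_right _ _).trans (min_le_right _ _))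
      nlinarith
  have htube : ∀ p, tr p < ε ^ 2 → p ∈ Φ.source := fun p hp => hmV p (hp.trans hεm)
  obtain ⟨R, a₁, hR0, hR1, hR2, hR3, hR4, ha₁, hRa, hR5, hR6⟩ :=
    hROT d ε hd ⟨hε0, by linarith⟩
  obtain ⟨ha1, ha2⟩ := ha₁
  -- points near the cuff
  have hnear : ∀ q, tr q < ε ^ 2 → 4 / 5 - 1 / 200 ≤ q.2.1 ∧ rsq 1 q ≤ 1 / 20 ∧
      |q.1 - 1 / 2| < r ∧ ‖q.2 - pc 1‖ < 1 := by
    intro q hq
    have h1 := tr_fst hε0 hq
    have h2 := tr_snd hε0 hq
    rw [abs_lt] at h2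
    have h3 := abs_a_le q
    rw [abs_le] at h3
    refine ⟨by linarith, ?_, h1.trans hεr, ?_⟩
    · rw [← Real.sq_sqrt (rsq_nonneg 1 q)]
      nlinarith [Real.sqrt_nonneg (rsq 1 q)]
    · have := norm_x_le q
      linarith
  have hVt : ∀ t : ℝ, ∀ p ∈ SP, R.f (t, p) ∈ Φ.source := by
    intro t p hp
    by_cases h : ε ^ 2 ≤ tr p
    · rw [hR1 t p h]
      exact hΦ (Or.inl hp)
    · exact htube _ (by rw [hR2]; exact not_le.1 h)
  -- the two germs
  set G₁ : R4 → R4 := fun p => G (R.f (1, p)) with hG₁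
  have hE₁ : EmbOn I4 G₁ SP := by
    have h := (famOn_iff.1 (famOn_dfam R SP)).2 1 ⟨by norm_num, le_rfl⟩
    exact embOn_comp hGV h (fun p hp => hVt 1 p hp)
  have hq₁ : Eqv G G₁ := by
    have h := eqv_precomp hF hGV (famOn_dfam R SP) (fun t _ p hp => hVt t p hp)
    have h0 : (fun p => G (R.f (0, p))) = G := funext fun p => by rw [hR0]
    rw [h0] at h
    exact h
  set F' : R4 → R4 := fun p => if rsq 1 p ≤ (1 / 5 + ε / 4) ^ 2 then G p else G₁ p with hF'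
  have hcore1 : ∀ p, tr p < ε ^ 2 / 4 → G₁ p = G p := fun p hp => by
    show G (R.f (1, p)) = G p
    rw [hR4 p hp]
  -- `F' = G₁` near the spine
  have hN1 : NearEq G₁ F' SP := by
    refine nearEq_of_eventuallyEq fun p hp => ?_
    by_cases h : rsq 1 p ≤ (1 / 5 + ε / 4) ^ 2
    · have hs : p.1 = 1 / 2 ∧ 1 / 25 ≤ rsq 1 p := by
        rcases hp with (hp | hp) | hp
        · refine ⟨hp.1, ?_⟩
          have h1 := sq_le_rsq p
          rw [hp.2] at h1
          have h3 : p.2.1 ≤ 1 / 5 := by nlinarith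
          rw [rsq_one_eq, hp.2]
          linarith
        · exact ⟨hp.1, hp.2.ge⟩
        · obtain ⟨h1, h2, h3, h4⟩ := hp
          refine ⟨h1, le_trans ?_ (sq_le_rsq_one p)⟩
          nlinarith
      have ht : tr p < ε ^ 2 / 4 := by
        have h1 : √(rsq 1 p) ≤ 1 / 5 + ε / 4 := Real.sqrt_le_iff.2 ⟨by linarith, h⟩
        have h2 : 1 / 5 ≤ √(rsq 1 p) := Real.le_sqrt_of_sq_le (by norm_num; linarith [hs.2])
        unfold tr
        rw [hs.1]
        nlinarith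
      filter_upwards [continuous_tr.continuousAt.eventually (gt_mem_nhds ht)] with q hq
      show G₁ q = if rsq 1 q ≤ (1 / 5 + ε / 4) ^ 2 then G q else G₁ q
      split_ifs
      · exact hcore1 q hq
      · rfl
    · filter_upwards [(continuous_rsq 1).continuousAt.eventually (lt_mem_nhds (not_le.1 h))]
        with q hq
      show G₁ q = if rsq 1 q ≤ (1 / 5 + ε / 4) ^ 2 then G q else G₁ q
      rw [if_neg (not_le.2 hq)]
  -- `F' = G` near the ball
  have hN2 : ∀ p, rsq 1 p ≤ 1 / 25 → F' =ᶠ[𝓝 p] G := by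
    intro p hp
    have h1 : rsq 1 p < (1 / 5 + ε / 4) ^ 2 := by nlinarith
    filter_upwards [(continuous_rsq 1).continuousAt.eventually (gt_mem_nhds h1)] with q hq
    show (if rsq 1 q ≤ (1 / 5 + ε / 4) ^ 2 then G q else G₁ q) = G q
    rw [if_pos (le_of_lt hq)]
  have hE' : EmbOn I4 F' SP := embOn_congr hN1 hE₁
  have hSPval : ∀ p ∈ SP, F' p = G (R.f (1, p)) := fun p hp =>
    ((hN1.eventuallyEq hp).self_of_nhds).symm
  have hflat : ∀ p ∈ flat 1, F' p = G p := fun p hp => (hN2 p hp.2).self_of_nhds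
  have hlow : ∀ p : R4, p.2.1 ≤ 3 / 4 → F' p = G p := by
    intro p hp
    have h1 : ε ^ 2 ≤ tr p := by
      have h2 : 1 / 4 ≤ √(rsq 1 p) := by
        have := abs_a_le p
        rw [abs_le] at this
        linarith
      unfold tr
      nlinarith [sq_nonneg (p.1 - 1 / 2)]
    show (if rsq 1 p ≤ (1 / 5 + ε / 4) ^ 2 then G p else G (R.f (1, p))) = G p
    rw [hR1 1 p h1]
    split_ifs <;> rfl
  have hmem1 : ∀ a ∈ Icc (1 / 5 : ℝ) (4 / 5), core F' a = G (R.f (1, ax a)) := fun a ha =>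
    hSPval _ (ax_mem_neck ha)
  have ha₁I : a₁ ∈ Icc (1 / 5 : ℝ) (4 / 5) := ⟨by linarith, by linarith⟩
  have hx0 : ax (8 / 5 - a₁) ∈ flat 1 := by
    refine ⟨rfl, ?_⟩
    rw [rsq_ax]
    nlinarith
  have hcr : core F' a₁ = F' (ax (8 / 5 - a₁)) := by
    rw [hmem1 a₁ ha₁I, hRa, hflat _ hx0]
  refine ⟨F', a₁, by linarith, ?_, hq₁.trans (eqv_of_nearEq hF hE₁ hN1), hlow, ?_, ?_, ?_⟩
  · refine ⟨?_, hE'.2, ?_, ⟨by linarith, by linarith⟩, ?_, ?_⟩
    · rintro p (hp | hp)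
      · exact hE'.1 p hp
      · exact ld_congr (hN2 p hp.2).symm (hG.1 p (Or.inr hp))
    · have hv : ∀ p ∈ flat 1 ∪ sph (1 - 1), F' p = G p ∧ p ∈ SP ∪ flat 1 := by
        rintro p (hp | hp)
        · exact ⟨hflat p hp, Or.inr hp⟩
        · rw [sub_self] at hp
          refine ⟨hlow p ?_, Or.inl (Or.inl (Or.inl hp))⟩
          have h1 := sq_le_rsq p
          rw [hp.2] at h1
          nlinarith
      intro p hp q hq he
      rw [(hv p hp).1, (hv q hq).1] at he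
      exact hG.2 (hv p hp).2 (hv q hq).2 he
    · refine ⟨pc (8 / 5 - a₁), ?_, hcr, ?_⟩
      · have : nsq (pc (8 / 5 - a₁) - pc 1) = (3 / 5 - a₁) ^ 2 := by
          simp only [nsq, pc, Prod.mk_sub_mk, sub_zero, Complex.zero_re, Complex.zero_im]
          ring
        rw [this]
        nlinarith
      · have hld : LD G (ax (8 / 5 - a₁)) := hG.1 _ (Or.inr hx0)
        have hdG : HasFDerivAt G (fderiv ℝ G (ax (8 / 5 - a₁))) (R.f (1, ax a₁)) := by
          rw [hRa]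
          exact ((ld_iff.1 hld).1.self_of_nhds.differentiableAt (by simp)).hasFDerivAt
        have hdR : HasFDerivAt (fun q : R4 => R.f (1, q))
            (fderiv ℝ (fun q : R4 => R.f (1, q)) (ax a₁)) (ax a₁) :=
          ((ld_iff.1 (ld_dfam R 1 (ax a₁))).1.self_of_nhds.differentiableAt
            (by simp)).hasFDerivAt
        have hd1 : HasFDerivAt G₁ ((fderiv ℝ G (ax (8 / 5 - a₁))).comp
            (fderiv ℝ (fun q : R4 => R.f (1, q)) (ax a₁))) (ax a₁) := hdG.comp (ax a₁) hdR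
        have hd2 : fderiv ℝ F' (ax a₁) = (fderiv ℝ G (ax (8 / 5 - a₁))).comp
            (fderiv ℝ (fun q : R4 => R.f (1, q)) (ax a₁)) := by
          rw [← (hN1.eventuallyEq (ax_mem_neck ha₁I)).fderiv_eq]
          exact hd1.fderiv
        have hd3 : fderiv ℝ F' (1 / 2, pc (8 / 5 - a₁)) = fderiv ℝ G (ax (8 / 5 - a₁)) :=
          (hN2 (ax (8 / 5 - a₁)) hx0.2).fderiv_eq
        set κ : R4 := fderiv ℝ (fun q : R4 => R.f (1, q)) (ax a₁) (0, ((1 : ℝ), (0 : ℂ)))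
          with hκ
        have hk : HasDerivAt (fun a => R.f (1, ax a)) κ a₁ :=
          hdR.comp_hasDerivAt a₁ (hasDerivAt_ax a₁)
        have hk1 : HasDerivAt (fun a => (R.f (1, ax a)).1) κ.1 a₁ := hk.fst
        refine ⟨κ.1, κ.2, ?_, ?_⟩
        · rw [← hk1.deriv]
          exact hR6
        · rw [hd2, hd3]
          rfl
    · rintro a ha ⟨q, hq, he⟩
      rw [hmem1 a ha, hflat q hq] at he
      have hqa : q = R.f (1, ax a) :=
        hGV.2 (hΦ (Or.inr hq)) (hVt 1 _ (ax_mem_neck ha)) he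
      rcases eq_or_lt_of_le ha.2 with h4 | h4
      · left
        rw [h4]
        norm_num
      · right
        by_cases h5 : a ≤ 4 / 5 - ε
        · exfalso
          have h6 : ε ^ 2 ≤ tr (ax a) := by
            rw [tr_ax (by linarith [ha.2])]
            nlinarith
          rw [hR1 1 _ h6] at hqa
          rw [hqa] at hq
          have h7 := hq.2
          rw [rsq_ax] at h7
          nlinarith
        · exact hR5 a ⟨not_le.1 h5, h4⟩ (hqa ▸ hq)
  · intro a ha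
    by_cases h : ε ^ 2 ≤ tr (ax a)
    · left
      rw [hmem1 a ha, hR1 1 _ h]
      rfl
    · right
      have h1 : tr (R.f (1, ax a)) < ε ^ 2 := by rw [hR2]; exact not_le.1 h
      obtain ⟨h2, h3, h4, h5⟩ := hnear _ h1
      rw [hmem1 a ha, hform _ h2 h3 h4]
      set q := R.f (1, ax a)
      have h6 : ((q.1, pc 1 + lam • (q.2 - pc 1)) : R4) - ax 1 =
          (q.1 - 1 / 2, lam • (q.2 - pc 1)) := by
        refine Prod.ext rfl ?_
        change pc 1 + lam • (q.2 - pc 1) - pc 1 = lam • (q.2 - pc 1)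
        abel
      rw [h6, Prod.norm_def]
      refine max_lt ?_ ?_
      · exact h4
      · change ‖lam • (q.2 - pc 1)‖ < r
        rw [norm_smul, Real.norm_eq_abs, abs_of_pos hlam]
        nlinarith [norm_nonneg (q.2 - pc 1)]
  · have h1 : rsq 1 (ax (4 / 5)) ≤ 1 / 25 := by rw [rsq_ax]; norm_num
    have h2 : G =ᶠ[𝓝 (ax (4 / 5))] (fun q : R4 => ((q.1, pc 1 + lam • (q.2 - pc 1)) : R4)) := by
      have c1 : ContinuousAt (fun q : R4 => q.2.1) (ax (4 / 5)) :=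
        (continuous_fst.comp continuous_snd).continuousAt
      have c2 : ContinuousAt (fun q : R4 => |q.1 - 1 / 2|) (ax (4 / 5)) :=
        (continuous_fst.sub continuous_const).abs.continuousAt
      filter_upwards [c1.eventually (lt_mem_nhds (show (4 / 5 - 1 / 200 : ℝ) < 4 / 5 by norm_num)),
        (continuous_rsq 1).continuousAt.eventually
          (gt_mem_nhds (show rsq 1 (ax (4 / 5)) < 1 / 20 by linarith)),
        c2.eventually (gt_mem_nhds (show |(ax (4 / 5)).1 - 1 / 2| < r by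
          change |(1 / 2 : ℝ) - 1 / 2| < r
          rw [sub_self, abs_zero]
          exact hr))] with q e1 e2 e3
      exact hform q (le_of_lt e1) (le_of_lt e2) e3
    rw [(hN2 _ h1).fderiv_eq, h2.fderiv_eq, (hasFDerivAt_form lam _).fderiv, det_LM]
    positivity
  · rw [hmem1 a₁ ha₁I, hRa]
    have h1 : (ax (8 / 5 - a₁)).2.1 = 8 / 5 - a₁ := rfl
    rw [hform (ax (8 / 5 - a₁)) (by rw [h1]; linarith) (by linarith [hx0.2]) (by
      change |(1 / 2 : ℝ) - 1 / 2| < r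
      rw [sub_self, abs_zero]
      exact hr)]
    have h6 : (((ax (8 / 5 - a₁)).1, pc 1 + lam • ((ax (8 / 5 - a₁)).2 - pc 1)) : R4) - ax 1 =
        ((0 : ℝ), lam • (pc (8 / 5 - a₁) - pc 1)) := by
      refine Prod.ext ?_ ?_
      · change (1 / 2 : ℝ) - 1 / 2 = 0
        norm_num
      · change pc 1 + lam • (pc (8 / 5 - a₁) - pc 1) - pc 1 = lam • (pc (8 / 5 - a₁) - pc 1)
        abel
    rw [h6, Prod.norm_def]
    refine max_lt ?_ ?_
    · change ‖(0 : ℝ)‖ < lam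
      rw [norm_zero]
      exact hlam
    · change ‖lam • (pc (8 / 5 - a₁) - pc 1)‖ < lam
      rw [norm_smul, Real.norm_eq_abs, abs_of_pos hlam]
      have h7 : ‖pc (8 / 5 - a₁) - pc 1‖ < 1 := by
        have h8 : pc (8 / 5 - a₁) - pc 1 = ((3 / 5 - a₁ : ℝ), (0 : ℂ)) := by
          simp only [pc, Prod.mk_sub_mk, sub_zero]
          refine Prod.ext ?_ rfl
          change 8 / 5 - a₁ - 1 = 3 / 5 - a₁
          ring
        rw [h8, Prod.norm_def]
        refine max_lt ?_ ?_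
        · change |3 / 5 - a₁| < 1
          rw [abs_lt]
          constructor <;> linarith
        · change ‖(0 : ℂ)‖ < 1
          rw [norm_zero]
          exact one_pos
      nlinarith

end Pool.Agent.Helper70.BI


end

/-! ## Helper70.BI.M_TH -/

section

/-!
# Project BI, part (E), module TH: the obstruction germ is a theta germ
-/

set_option autoImplicit false

open scoped Manifold ContDiff Topology ComplexConjugate
open Set Filter Pool.Agent.Helper65.Barb Pool.Agent.Helper18.BI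

namespace Pool.Agent.Helper70.BI

namespace TH

private theorem isCompact_flat (c : ℝ) : IsCompact (flat c) := by
  apply Metric.isCompact_of_isClosed_isBounded
  · apply IsClosed.inter (isClosed_eq continuous_fst continuous_const)
    exact isClosed_le (continuous_rsq c) continuous_const
  · exact (isBounded_of_rsq c (1 / 25) (1 / 2) (1 / 2)).subset
      (fun p hp => ⟨hp.1.ge, hp.1.le, hp.2⟩)

private theorem lt_of_flat {p : R4} (hp : p ∈ flat 1) : 1 / 2 < p.2.1 := by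
  have h1 := sq_le_rsq_one p
  have h2 := hp.2
  nlinarith

private theorem lt_of_sph {p : R4} (hp : p ∈ sph 0) : p.2.1 < 1 / 2 := by
  have h1 := sq_le_rsq p
  have h2 := hp.2
  nlinarith

private theorem sph_sub_flat (c : ℝ) : sph c ⊆ flat c := fun _ hp => ⟨hp.1, hp.2.le⟩

private theorem ax_mem_SP {a : ℝ} (h1 : 1 / 5 ≤ a) (h2 : a ≤ 4 / 5) : ax a ∈ SP :=
  Or.inr ⟨rfl, h1, h2, rfl⟩

private theorem ball_mem_flat {c : ℝ} {x₀ : R3} (h : nsq (x₀ - pc c) < 1 / 25) :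
    ((1 / 2 : ℝ), x₀) ∈ flat c := by
  refine ⟨rfl, ?_⟩
  have e : rsq c ((1 / 2 : ℝ), x₀) = nsq (x₀ - pc c) := by
    simp [rsq, nsq, pc]
  rw [e]
  exact h.le

private theorem hasDerivAt_core {J : R4 → R4} {a : ℝ} (hJ : LD J (ax a)) :
    HasDerivAt (core J) (fderiv ℝ J (ax a) (0, ((1 : ℝ), (0 : ℂ)))) a := by
  have hd : HasFDerivAt J (fderiv ℝ J (ax a)) (ax a) :=
    ((ld_iff.1 hJ).1.self_of_nhds.differentiableAt (by simp)).hasFDerivAt
  have hax : HasDerivAt ax (0, ((1 : ℝ), (0 : ℂ))) a :=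
    (hasDerivAt_const a (1 / 2 : ℝ)).prodMk ((hasDerivAt_id a).prodMk (hasDerivAt_const a (0 : ℂ)))
  exact hd.comp_hasDerivAt a hax

private theorem eventuallyEq_of_lt {O G : R4 → R4} (h : ∀ p : R4, 1 / 2 < p.2.1 → O p = G p)
    {p : R4} (hp : 1 / 2 < p.2.1) : O =ᶠ[𝓝 p] G := by
  have hc : Continuous fun q : R4 => q.2.1 := by fun_prop
  filter_upwards [(isOpen_lt continuous_const hc).mem_nhds hp] with q hq
  exact h q hq

/-- the second cuff of the obstruction germ bounds a flat ball which is met once by the bar -/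
private theorem br_one {J : ℝ × R4 → R4} {d t₀ t' α e : ℝ} {O : R4 → R4} (hJ : BFam1 J d)
    (hO : Br 0 O α e)
    (hcore : ∀ a ∈ Icc (1 / 5 : ℝ) (4 / 5), core O a = core (fun p => J (t', p)) a)
    (hright : ∀ p : R4, 1 / 2 < p.2.1 → O p = J (t', p))
    (hdis : Disjoint ((fun p => J (t₀, p)) '' flat 1) (O '' flat 0)) : Br 1 O (2 / 5) d := by
  have hflat : ∀ p ∈ flat 1, O p = J (t', p) := fun p hp => hright p (lt_of_flat hp)
  have himg : O '' flat 1 = (fun p => J (t', p)) '' flat 1 := image_congr hflat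
  have hne : ∀ p ∈ flat 1, ∀ q ∈ sph 0, O p ≠ O q := by
    intro p hp q hq he
    refine (Set.disjoint_left.1 hdis) (a := O p) ⟨p, hp, ?_⟩ ⟨q, sph_sub_flat 0 hq, he.symm⟩
    rw [hflat p hp]
    exact hJ.const t₀ t' p hp
  refine ⟨?_, hO.inj, ?_, ⟨by norm_num, by norm_num⟩, ?_, ?_⟩
  · rintro p (hp | hp)
    · exact hO.loc p (Or.inl hp)
    · exact ld_congr (eventuallyEq_of_lt hright (lt_of_flat hp)).symm (hJ.loc t' p (Or.inr hp))
  · have e0 : (1 : ℝ) - 1 = 0 := by norm_num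
    rw [e0]
    rintro p (hp | hp) q (hq | hq) he
    · rw [hflat p hp, hflat q hq] at he
      exact hJ.injF t' (Or.inl hp) (Or.inl hq) he
    · exact absurd he (hne p hp q hq)
    · exact absurd he.symm (hne q hq p hp)
    · exact hO.inj (Or.inl (Or.inl hp)) (Or.inl (Or.inl hq)) he
  · obtain ⟨x₀, h1, h2, l, v, h3, h4⟩ := hJ.cr t'
    have hx : ((1 / 2 : ℝ), x₀) ∈ flat 1 := ball_mem_flat h1
    have hγ : (2 / 5 : ℝ) ∈ Icc (1 / 5 : ℝ) (4 / 5) := ⟨by norm_num, by norm_num⟩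
    have hax : ax (2 / 5) ∈ SP := ax_mem_SP hγ.1 hγ.2
    refine ⟨x₀, h1, ?_, l, v, h3, ?_⟩
    · rw [hcore _ hγ, hflat _ hx]
      exact h2
    · have hd1 := hasDerivAt_core (hO.loc _ (Or.inl hax))
      have hd2 := hasDerivAt_core (hJ.loc t' _ (Or.inl hax))
      have hev : core O =ᶠ[𝓝 (2 / 5 : ℝ)] core (fun p => J (t', p)) := by
        filter_upwards [Ioo_mem_nhds (show (1 / 5 : ℝ) < 2 / 5 by norm_num)
          (show (2 / 5 : ℝ) < 4 / 5 by norm_num)] with a ha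
        exact hcore a ⟨ha.1.le, ha.2.le⟩
      have e1 := hd1.unique (hd2.congr_of_eventuallyEq hev)
      have e2 := (eventuallyEq_of_lt hright (lt_of_flat hx)).fderiv_eq (𝕜 := ℝ)
      rw [e1, e2]
      exact h4
  · intro a ha hm
    have e0 : (1 : ℝ) / 5 + 3 / 5 * 1 = 4 / 5 := by norm_num
    rw [e0]
    rw [hcore a ha, himg] at hm
    exact hJ.only t' a ha hm

end TH

open TH

theorem m_TH (hCRP : StCRP) (hMWL : StMWL) : StTH := by
  intro W J d t₀ ε hW hd hJ ht₀ hε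
  obtain ⟨u₀, p₀, hu, hpre⟩ := hJ.cross t₀ ht₀
  have hC : IsCompact ((fun p => J (t₀, p)) '' flat 1) := by
    refine (isCompact_flat 1).image_of_continuousOn fun p hp => ?_
    exact ((ld_iff.1 (hJ.loc t₀ p (Or.inr hp))).1.self_of_nhds.continuousAt).continuousWithinAt
  have hdis : Disjoint ((fun p => J (t₀, p)) '' flat 1) ((fun p => J (t₀, p)) '' sph 0) := by
    rw [Set.disjoint_left]
    rintro _ ⟨p, hp, rfl⟩ ⟨q, hq, he⟩
    have h1 : q = p := hJ.injF t₀ (Or.inr hq) (Or.inl hp) he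
    have h2 := lt_of_flat hp
    have h3 := lt_of_sph hq
    rw [h1] at h3
    exact lt_asymm h2 h3
  have hε' : 0 < min ε (u₀ - 2 / 5) := lt_min hε (by linarith)
  obtain ⟨t₁, ht₁, t₂, ht₂, hE₁, hE₂, t', t'', htt, O, α, e, hα, he, hBr, hcore, hright, hdisO,
    hcl⟩ := hCRP J t₀ u₀ p₀ hpre _ hC hdis _ hε'
  have hα' : 2 / 5 < α := by
    have h1 := (abs_lt.1 (lt_of_lt_of_le hα (min_le_right _ _))).1
    linarith
  have hB1 : Br 1 O (2 / 5) d := br_one hJ hBr hcore hright hdisO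
  have himg : O '' flat 1 = (fun p => J (t₀, p)) '' flat 1 := by
    refine image_congr fun p hp => ?_
    rw [hright p (lt_of_flat hp)]
    exact hJ.const t' t₀ p hp
  have hTh : Theta O α (2 / 5) e d := by
    refine ⟨hBr, hB1, ?_, hα'⟩
    rw [himg]
    exact hdisO.symm
  have hO : Thin I4 O W := hW.all O α (2 / 5) e d he hd hTh
  have hMW : MW W (fun p => J (t'', p)) (fun p => J (t', p)) := fun φ ψ hφ hψ =>
    Or.inr (hcl ψ φ W hψ hφ hO)
  have hle := min_le_left ε (u₀ - 2 / 5)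
  refine ⟨t₁, ⟨by linarith [ht₁.1], ht₁.2⟩, t₂, ⟨ht₂.1, by linarith [ht₂.2]⟩, hE₁, hE₂, ?_⟩
  obtain ⟨-, -, hsymm, -⟩ := hMWL W hW
  rcases htt with ⟨rfl, rfl⟩ | ⟨rfl, rfl⟩
  · exact hsymm _ _ hMW
  · exact hMW

end Pool.Agent.Helper70.BI


end

/-! ## Helper34.BI.M_LG -/

section

/-!
# Project BI (MP_8e98f2_gt), module LG: from local to global in time
-/

set_option autoImplicit false

open Module Set Filter Topology
open scoped ContDiff Manifold ComplexConjugate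
open Pool.Agent.Helper65.Barb Pool.Agent.Helper18.BI Pool.Agent.Helper27.BI

namespace Pool.Agent.Helper34.BI

namespace LG

/-- off the exceptional times the members of the family are germs of embeddings -/
private theorem embOn_of {J : ℝ × R4 → R4} (hJ : BFam J) {t : ℝ}
    (ht : InjOn (fun p => J (t, p)) SP) : EmbOn 𝓘(ℝ, R4) (fun p => J (t, p)) SP :=
  ⟨hJ.loc t, ht⟩

/-- two times with no exceptional time between them -/
private theorem fam {J : ℝ × R4 → R4} (h1 : StMRL) (hJ : BFam J) {a b : ℝ}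
    (h : ∀ t ∈ uIcc a b, InjOn (fun p => J (t, p)) SP) :
    MR (fun p => J (a, p)) (fun p => J (b, p)) := by
  obtain ⟨-, hsymm, -, hfam, -⟩ := h1
  rcases le_total a b with hab | hab
  · rw [uIcc_of_le hab] at h
    exact hfam J a b hab (fun t _ => hJ.smooth t) (fun t ht => embOn_of hJ (h t ht))
  · rw [uIcc_of_ge hab] at h
    exact hsymm _ _ (hfam J b a hab (fun t _ => hJ.smooth t) (fun t ht => embOn_of hJ (h t ht)))

/-- the crossing at an exceptional time -/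
private theorem crossing {J : ℝ × R4 → R4} (h1 : StMRL) (h2 : StCR) (hJ : BFam J) {t ε : ℝ}
    (ht : ¬ InjOn (fun p => J (t, p)) SP) (hε : 0 < ε)
    (hloc : ∀ s ∈ Ioo (t - ε) (t + ε), s ≠ t → InjOn (fun p => J (s, p)) SP) :
    ∃ t₁ ∈ Ioo (t - ε) t, ∃ t₂ ∈ Ioo t (t + ε), MR (fun p => J (t₁, p)) (fun p => J (t₂, p)) := by
  rcases hJ.cross t ht with ⟨u, p, hp⟩ | ⟨u, p, hp⟩
  · obtain ⟨t₁, ht₁, t₂, ht₂, -, -, h⟩ := h2 J t u p hp ε hε
    exact ⟨t₁, ht₁, t₂, ht₂, h⟩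
  · obtain ⟨t₁, ht₁, t₂, ht₂, -, -, h⟩ := h2 _ t u p hp ε hε
    refine ⟨t₁, ht₁, t₂, ht₂, ?_⟩
    have e₁ : EmbOn 𝓘(ℝ, R4) (fun p => J (t₁, p)) SP :=
      embOn_of hJ (hloc t₁ ⟨ht₁.1, by linarith [ht₁.2]⟩ (ne_of_lt ht₁.2))
    have e₂ : EmbOn 𝓘(ℝ, R4) (fun p => J (t₂, p)) SP :=
      embOn_of hJ (hloc t₂ ⟨by linarith [ht₂.1], ht₂.2⟩ (ne_of_gt ht₂.1))
    exact h1.2.2.2.2.1 _ _ e₁ e₂ h

/-- the local claim -/
private theorem local_claim {J : ℝ × R4 → R4} (h1 : StMRL) (h2 : StCR) (hJ : BFam J) (t : ℝ) :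
    ∃ ε > 0, ∀ a ∈ Ioo (t - ε) (t + ε), ∀ b ∈ Ioo (t - ε) (t + ε),
      InjOn (fun p => J (a, p)) SP → InjOn (fun p => J (b, p)) SP →
        MR (fun p => J (a, p)) (fun p => J (b, p)) := by
  have hfin : ({s | ¬ InjOn (fun p => J (s, p)) SP} \ {t}).Finite := hJ.finite.subset sdiff_subset
  obtain ⟨ε, hε, hball⟩ := Metric.isOpen_iff.1 hfin.isClosed.isOpen_compl t
    (fun h => h.2 rfl)
  rw [Real.ball_eq_Ioo] at hball
  have hloc : ∀ s ∈ Ioo (t - ε) (t + ε), s ≠ t → InjOn (fun p => J (s, p)) SP := by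
    intro s hs hst
    by_contra hc
    exact hball hs ⟨hc, hst⟩
  refine ⟨ε, hε, ?_⟩
  -- the oriented version
  have key : ∀ a ∈ Ioo (t - ε) (t + ε), ∀ b ∈ Ioo (t - ε) (t + ε), a ≤ b →
      InjOn (fun p => J (a, p)) SP → InjOn (fun p => J (b, p)) SP →
        MR (fun p => J (a, p)) (fun p => J (b, p)) := by
    intro a ha b hb hab hia hib
    by_cases hc : InjOn (fun p => J (t, p)) SP ∨ t ∉ Icc a b
    · refine fam h1 hJ (fun s hs => ?_)
      rw [uIcc_of_le hab] at hs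
      by_cases hst : s = t
      · rcases hc with hc | hc
        · rw [hst]
          exact hc
        · rw [hst] at hs
          exact absurd hs hc
      · exact hloc s ⟨lt_of_lt_of_le ha.1 hs.1, lt_of_le_of_lt hs.2 hb.2⟩ hst
    · push Not at hc
      obtain ⟨hct, hmem⟩ := hc
      have hat : a < t := lt_of_le_of_ne hmem.1 (fun h => hct (h ▸ hia))
      have htb : t < b := lt_of_le_of_ne hmem.2 (fun h => hct (h.symm ▸ hib))
      obtain ⟨t₁, ht₁, t₂, ht₂, hm⟩ := crossing h1 h2 hJ hct hε hloc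
      have e₁ : InjOn (fun p => J (t₁, p)) SP :=
        hloc t₁ ⟨ht₁.1, by linarith [ht₁.2]⟩ (ne_of_lt ht₁.2)
      have e₂ : InjOn (fun p => J (t₂, p)) SP :=
        hloc t₂ ⟨by linarith [ht₂.1], ht₂.2⟩ (ne_of_gt ht₂.1)
      have m₁ : MR (fun p => J (a, p)) (fun p => J (t₁, p)) := by
        refine fam h1 hJ (fun s hs => hloc s ?_ ?_)
        · rw [mem_uIcc] at hs
          constructor
          · rcases hs with hs | hs <;> linarith [ha.1, ht₁.1, hs.1]
          · rcases hs with hs | hs <;> linarith [hs.2, ht₁.2]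
        · rw [mem_uIcc] at hs
          apply ne_of_lt
          rcases hs with hs | hs <;> linarith [hs.2, ht₁.2]
      have m₂ : MR (fun p => J (t₂, p)) (fun p => J (b, p)) := by
        refine fam h1 hJ (fun s hs => hloc s ?_ ?_)
        · rw [mem_uIcc] at hs
          constructor
          · rcases hs with hs | hs <;> linarith [ht₂.1, hs.1]
          · rcases hs with hs | hs <;> linarith [hs.2, ht₂.2, hb.2]
        · rw [mem_uIcc] at hs
          apply ne_of_gt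
          rcases hs with hs | hs <;> linarith [hs.1, ht₂.1]
      exact h1.2.2.1 _ _ _ (embOn_of hJ e₁) m₁ (h1.2.2.1 _ _ _ (embOn_of hJ e₂) hm m₂)
  intro a ha b hb hia hib
  rcases le_total a b with hab | hab
  · exact key a ha b hb hab hia hib
  · exact h1.2.1 _ _ (key b hb a ha hab hib hia)

end LG

open LG in
theorem m_LG (h1 : StMRL) (h2 : StCR) : StLG := by
  intro J hJ h0 h1'
  have hopen : IsOpen {t : ℝ | ∀ᶠ s in 𝓝 t, InjOn (fun p => J (s, p)) SP →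
      MR (fun p => J (0, p)) (fun p => J (s, p))} := isOpen_setOfPred_eventually_nhds
  have hclosed : IsClosed {t : ℝ | ∀ᶠ s in 𝓝 t, InjOn (fun p => J (s, p)) SP →
      MR (fun p => J (0, p)) (fun p => J (s, p))} := by
    rw [← closure_subset_iff_isClosed]
    intro t ht
    obtain ⟨ε, hε, hloc⟩ := local_claim h1 h2 hJ t
    have hO : IsOpen (Ioo (t - ε) (t + ε)) := isOpen_Ioo
    have htO : t ∈ Ioo (t - ε) (t + ε) := ⟨by linarith, by linarith⟩
    obtain ⟨s, hsO, hs⟩ := mem_closure_iff.1 ht _ hO htO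
    have hs' : ∀ᶠ r in 𝓝 s, InjOn (fun p => J (r, p)) SP →
      MR (fun p => J (0, p)) (fun p => J (r, p)) := hs
    obtain ⟨V, hV, hVo, hsV⟩ := eventually_nhds_iff.1 (hs'.and (hO.mem_nhds hsO))
    have hdense : Dense ({t | ¬ InjOn (fun p => J (t, p)) SP}ᶜ : Set ℝ) :=
      hJ.finite.countable.dense_compl ℝ
    obtain ⟨r, hr, hrC⟩ := hdense.exists_mem_open hVo ⟨s, hsV⟩
    have hri : InjOn (fun p => J (r, p)) SP := by
      by_contra hc
      exact hr hc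
    obtain ⟨hm, hrO⟩ := hV r hrC
    filter_upwards [hO.mem_nhds htO] with x hx hxi
    exact h1.2.2.1 _ _ _ (embOn_of hJ hri) (hm hri) (hloc r hrO x hx hri hxi)
  have hne : ({t : ℝ | ∀ᶠ s in 𝓝 t, InjOn (fun p => J (s, p)) SP →
      MR (fun p => J (0, p)) (fun p => J (s, p))}).Nonempty := by
    refine ⟨0, ?_⟩
    obtain ⟨ε, hε, hloc⟩ := local_claim h1 h2 hJ 0
    have hO : IsOpen (Ioo ((0 : ℝ) - ε) (0 + ε)) := isOpen_Ioo
    have htO : (0 : ℝ) ∈ Ioo ((0 : ℝ) - ε) (0 + ε) := ⟨by linarith, by linarith⟩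
    show ∀ᶠ s in 𝓝 (0 : ℝ), _
    filter_upwards [hO.mem_nhds htO] with x hx hxi
    exact hloc 0 htO x hx h0.2 hxi
  have huniv := IsClopen.eq_univ ⟨hclosed, hopen⟩ hne
  have h1mem : (1 : ℝ) ∈ {t : ℝ | ∀ᶠ s in 𝓝 t, InjOn (fun p => J (s, p)) SP →
      MR (fun p => J (0, p)) (fun p => J (s, p))} := by
    rw [huniv]
    exact mem_univ _
  exact (show ∀ᶠ s in 𝓝 (1 : ℝ), InjOn (fun p => J (s, p)) SP →
      MR (fun p => J (0, p)) (fun p => J (s, p)) from h1mem).self_of_nhds h1'.2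

end Pool.Agent.Helper34.BI


end

/-! ## Helper34.BI.M_D1a -/

section

/-!
# Project BI, module D1a: local coordinates at a transverse crossing

Instead of `P` and `N` of the docstring of `StD1a` the inverse function theorem is applied once, to
`M (p, (t, u)) = (J (t₀, p) - J (t, (1/2, u, 0)), (p.1 - 1/2, rsq 0 p - 1/25))` on `R4 × (ℝ × ℝ)`.
-/

set_option autoImplicit false

open Module Set Filter Topology
open scoped ContDiff Manifold ComplexConjugate
open Pool.Agent.Helper65.Barb Pool.Agent.Helper18.BI Pool.Agent.Helper27.BI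

namespace Pool.Agent.Helper34.BI

/-- derivative of the squared radius -/
private theorem hasFDerivAt_rsq_D1a (p : R4) :
    ∃ L : R4 →L[ℝ] ℝ, HasFDerivAt (rsq 0) L p ∧ ∀ v, L v = 2 * drsq 0 p v := by
  have h0 : HasFDerivAt (fun p : R4 => p.2.1)
      ((ContinuousLinearMap.fst ℝ ℝ ℂ).comp (ContinuousLinearMap.snd ℝ ℝ (ℝ × ℂ))) p :=
    ((ContinuousLinearMap.fst ℝ ℝ ℂ).comp (ContinuousLinearMap.snd ℝ ℝ (ℝ × ℂ))).hasFDerivAt
  have h1 : HasFDerivAt (fun p : R4 => p.2.1 - 0)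
      ((ContinuousLinearMap.fst ℝ ℝ ℂ).comp (ContinuousLinearMap.snd ℝ ℝ (ℝ × ℂ))) p :=
    h0.sub_const (0 : ℝ)
  have h2 : HasFDerivAt (fun p : R4 => p.2.2.re)
      (Complex.reCLM.comp ((ContinuousLinearMap.snd ℝ ℝ ℂ).comp
        (ContinuousLinearMap.snd ℝ ℝ (ℝ × ℂ)))) p :=
    (Complex.reCLM.comp ((ContinuousLinearMap.snd ℝ ℝ ℂ).comp
        (ContinuousLinearMap.snd ℝ ℝ (ℝ × ℂ)))).hasFDerivAt
  have h3 : HasFDerivAt (fun p : R4 => p.2.2.im)
      (Complex.imCLM.comp ((ContinuousLinearMap.snd ℝ ℝ ℂ).comp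
        (ContinuousLinearMap.snd ℝ ℝ (ℝ × ℂ)))) p :=
    (Complex.imCLM.comp ((ContinuousLinearMap.snd ℝ ℝ ℂ).comp
        (ContinuousLinearMap.snd ℝ ℝ (ℝ × ℂ)))).hasFDerivAt
  refine ⟨_, ((h1.pow 2).add (h2.pow 2)).add (h3.pow 2), fun v => ?_⟩
  simp only [drsq, add_apply, smul_apply,
    ContinuousLinearMap.comp_apply, ContinuousLinearMap.coe_fst', ContinuousLinearMap.coe_snd',
    Complex.reCLM_apply, Complex.imCLM_apply, smul_eq_mul, nsmul_eq_mul]
  norm_num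
  ring

/-- the map to which the inverse function theorem is applied -/
private noncomputable def M_D1a (J : ℝ × R4 → R4) (t₀ : ℝ) (z : R4 × (ℝ × ℝ)) : R4 × (ℝ × ℝ) :=
  (J (t₀, z.1) - J (z.2.1, (1 / 2, z.2.2, 0)), (z.1.1 - 1 / 2, rsq 0 z.1 - 1 / 25))

/-- points of `FB` on the open neck -/
private theorem mem_FB_arc_D1a {q : R4} (hq : q ∈ FB) (h1 : 1 / 5 < q.2.1) (h2 : q.2.1 < 4 / 5) :
    q = (1 / 2, q.2.1, 0) := by
  rcases hq with (hq | hq) | hq
  · exfalso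
    have h := hq.2
    have h3 := sq_le_rsq q
    nlinarith
  · exfalso
    have h := hq.2
    have h3 := sq_le_rsq_one q
    nlinarith
  · exact Prod.ext hq.1 (Prod.ext rfl hq.2.2.2)

private theorem fst_of_mem_FB_D1a {q : R4} (hq : q ∈ FB) : q.1 = 1 / 2 := by
  rcases hq with (hq | hq) | hq
  · exact hq.1
  · exact hq.1
  · exact hq.1

/-- a smooth function with nonzero derivative at `0` is strictly monotone near `0` -/
private theorem mono_D1a {T : ℝ → ℝ} {O : Set ℝ} (hO : IsOpen O) (h0 : (0 : ℝ) ∈ O)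
    (hT : ContDiffOn ℝ ∞ T O) (hd : deriv T 0 ≠ 0) :
    ∃ η₀ : ℝ, 0 < η₀ ∧ Ioo (-η₀) η₀ ⊆ O ∧
      (StrictMonoOn T (Ioo (-η₀) η₀) ∨ StrictAntiOn T (Ioo (-η₀) η₀)) := by
  have hc : ContinuousAt (deriv T) 0 :=
    (hT.continuousOn_deriv_of_isOpen hO (by simp)).continuousAt (hO.mem_nhds h0)
  rcases lt_or_gt_of_ne hd with hneg | hpos
  · have h1 : ∀ᶠ r in 𝓝 (0 : ℝ), r ∈ O ∧ deriv T r < 0 :=
      Filter.Eventually.and (hO.mem_nhds h0) (hc.eventually_lt_const hneg)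
    obtain ⟨η₀, hη, hb⟩ := Metric.eventually_nhds_iff_ball.1 h1
    rw [Real.ball_eq_Ioo, zero_sub, zero_add] at hb
    refine ⟨η₀, hη, fun r hr => (hb r hr).1, Or.inr ?_⟩
    refine strictAntiOn_of_deriv_neg (convex_Ioo _ _)
      (hT.continuousOn.mono fun r hr => (hb r hr).1) fun r hr => ?_
    rw [interior_Ioo] at hr
    exact (hb r hr).2
  · have h1 : ∀ᶠ r in 𝓝 (0 : ℝ), r ∈ O ∧ 0 < deriv T r :=
      Filter.Eventually.and (hO.mem_nhds h0) (hc.eventually_const_lt hpos)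
    obtain ⟨η₀, hη, hb⟩ := Metric.eventually_nhds_iff_ball.1 h1
    rw [Real.ball_eq_Ioo, zero_sub, zero_add] at hb
    refine ⟨η₀, hη, fun r hr => (hb r hr).1, Or.inl ?_⟩
    refine strictMonoOn_of_deriv_pos (convex_Ioo _ _)
      (hT.continuousOn.mono fun r hr => (hb r hr).1) fun r hr => ?_
    rw [interior_Ioo] at hr
    exact (hb r hr).2

/-- the map `M_D1a` is a local diffeomorphism at the crossing, and a formula for its derivative -/
private theorem loc_D1a {J : ℝ × R4 → R4} {t₀ u₀ : ℝ} {p₀ : R4} (hP : PreCross J t₀ u₀ p₀) :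
    (∀ᶠ z in 𝓝 ((p₀, (t₀, u₀)) : R4 × (ℝ × ℝ)), ContDiffAt ℝ ∞ (M_D1a J t₀) z) ∧
    (∀ w : R4 × (ℝ × ℝ), fderiv ℝ (M_D1a J t₀) (p₀, (t₀, u₀)) w =
      (fderiv ℝ (fun p => J (t₀, p)) p₀ w.1 -
        fderiv ℝ (fun x : ℝ × ℝ => J (x.1, (1 / 2, x.2, 0))) (t₀, u₀) w.2,
        (w.1.1, 2 * drsq 0 p₀ w.1))) := by
  have hp₀ : p₀ ∈ SP := Or.inl (Or.inl hP.mem)
  have hq₀ : ((1 / 2, u₀, 0) : R4) ∈ SP := Or.inr ⟨rfl, hP.arc.1.le, hP.arc.2.le, rfl⟩
  have sF : ∀ᶠ p in 𝓝 p₀, ContDiffAt ℝ ∞ (fun p => J (t₀, p)) p :=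
    eventually_contDiffAt (hP.loc p₀ hp₀)
  have sH : ∀ᶠ x in 𝓝 (t₀, u₀), ContDiffAt ℝ ∞
      (fun x : ℝ × ℝ => J (x.1, (1 / 2, x.2, 0))) x := by
    have c : ContinuousAt (fun x : ℝ × ℝ => ((x.1, (1 / 2, x.2, 0)) : ℝ × R4)) (t₀, u₀) := by
      fun_prop
    have h : ∀ᶠ q in 𝓝 ((t₀, (1 / 2, u₀, 0)) : ℝ × R4), ContDiffAt ℝ ∞ J q :=
      hP.smooth _ hq₀
    filter_upwards [c.eventually h] with x hx
    have c2 : ContDiffAt ℝ ∞ (fun x : ℝ × ℝ => ((x.1, (1 / 2, x.2, 0)) : ℝ × R4)) x := by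
      fun_prop
    exact hx.comp x c2
  obtain ⟨L, hL, hLv⟩ := hasFDerivAt_rsq_D1a p₀
  have dF := (sF.self_of_nhds.differentiableAt (by simp)).hasFDerivAt
  have dH := (sH.self_of_nhds.differentiableAt (by simp)).hasFDerivAt
  refine ⟨?_, fun w => ?_⟩
  · have c1 : ContinuousAt (fun z : R4 × (ℝ × ℝ) => z.1) (p₀, (t₀, u₀)) := continuousAt_fst
    have c2 : ContinuousAt (fun z : R4 × (ℝ × ℝ) => z.2) (p₀, (t₀, u₀)) := continuousAt_snd
    filter_upwards [c1.eventually sF, c2.eventually sH] with z h1 h2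
    have e1 : ContDiffAt ℝ ∞ (fun z : R4 × (ℝ × ℝ) => J (t₀, z.1)) z := h1.comp z contDiffAt_fst
    have e2 : ContDiffAt ℝ ∞ (fun z : R4 × (ℝ × ℝ) => J (z.2.1, (1 / 2, z.2.2, 0))) z :=
      h2.comp z contDiffAt_snd
    have e3 : ContDiffAt ℝ ∞ (fun z : R4 × (ℝ × ℝ) => z.1.1 - 1 / 2) z := by fun_prop
    have e4 : ContDiffAt ℝ ∞ (fun z : R4 × (ℝ × ℝ) => rsq 0 z.1 - 1 / 25) z :=
      ((contDiff_rsq 0).contDiffAt.comp z contDiffAt_fst).sub contDiffAt_const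
    exact (e1.sub e2).prodMk (e3.prodMk e4)
  · have dF' : HasFDerivAt (fun p => J (t₀, p)) (fderiv ℝ (fun p => J (t₀, p)) p₀)
        ((p₀, (t₀, u₀)) : R4 × (ℝ × ℝ)).1 := dF
    have d1 : HasFDerivAt (fun z : R4 × (ℝ × ℝ) => J (t₀, z.1))
        ((fderiv ℝ (fun p => J (t₀, p)) p₀).comp (ContinuousLinearMap.fst ℝ R4 (ℝ × ℝ)))
        (p₀, (t₀, u₀)) := dF'.comp ((p₀, (t₀, u₀)) : R4 × (ℝ × ℝ)) hasFDerivAt_fst
    have dH' : HasFDerivAt (fun x : ℝ × ℝ => J (x.1, (1 / 2, x.2, 0)))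
        (fderiv ℝ (fun x : ℝ × ℝ => J (x.1, (1 / 2, x.2, 0))) (t₀, u₀))
        ((p₀, (t₀, u₀)) : R4 × (ℝ × ℝ)).2 := dH
    have d2 : HasFDerivAt (fun z : R4 × (ℝ × ℝ) => J (z.2.1, (1 / 2, z.2.2, 0)))
        ((fderiv ℝ (fun x : ℝ × ℝ => J (x.1, (1 / 2, x.2, 0))) (t₀, u₀)).comp
          (ContinuousLinearMap.snd ℝ R4 (ℝ × ℝ)))
        (p₀, (t₀, u₀)) := dH'.comp ((p₀, (t₀, u₀)) : R4 × (ℝ × ℝ)) hasFDerivAt_snd
    have d3 : HasFDerivAt (fun z : R4 × (ℝ × ℝ) => z.1.1 - 1 / 2)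
        ((ContinuousLinearMap.fst ℝ ℝ (ℝ × ℂ)).comp (ContinuousLinearMap.fst ℝ R4 (ℝ × ℝ)))
        (p₀, (t₀, u₀)) := by
      have h : HasFDerivAt (fun z : R4 × (ℝ × ℝ) => z.1.1)
          ((ContinuousLinearMap.fst ℝ ℝ (ℝ × ℂ)).comp (ContinuousLinearMap.fst ℝ R4 (ℝ × ℝ)))
          (p₀, (t₀, u₀)) :=
        ((ContinuousLinearMap.fst ℝ ℝ (ℝ × ℂ)).comp
          (ContinuousLinearMap.fst ℝ R4 (ℝ × ℝ))).hasFDerivAt
      exact h.sub_const (1 / 2 : ℝ)
    have hL' : HasFDerivAt (rsq 0) L ((p₀, (t₀, u₀)) : R4 × (ℝ × ℝ)).1 := hL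
    have d4 : HasFDerivAt (fun z : R4 × (ℝ × ℝ) => rsq 0 z.1 - 1 / 25)
        (L.comp (ContinuousLinearMap.fst ℝ R4 (ℝ × ℝ)))
        (p₀, (t₀, u₀)) := by
      have h : HasFDerivAt (fun z : R4 × (ℝ × ℝ) => rsq 0 z.1)
          (L.comp (ContinuousLinearMap.fst ℝ R4 (ℝ × ℝ))) (p₀, (t₀, u₀)) :=
        hL'.comp ((p₀, (t₀, u₀)) : R4 × (ℝ × ℝ)) hasFDerivAt_fst
      exact h.sub_const (1 / 25 : ℝ)
    have dM := (d1.sub d2).prodMk (d3.prodMk d4)
    have e : fderiv ℝ (M_D1a J t₀) (p₀, (t₀, u₀)) = _ := HasFDerivAt.fderiv dM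
    rw [e]
    refine Prod.ext rfl (Prod.ext rfl ?_)
    exact hLv w.1

theorem m_D1a : StD1a := by
  intro J t₀ u₀ p₀ hP hS
  have hp₀ : p₀ ∈ SP := Or.inl (Or.inl hP.mem)
  obtain ⟨sM, fM⟩ := loc_D1a hP
  have hA : Function.Injective (fderiv ℝ (fun p => J (t₀, p)) p₀) :=
    injective_fderiv (hP.loc p₀ hp₀)
  have hinj : Function.Injective (fderiv ℝ (M_D1a J t₀) (p₀, (t₀, u₀))) := by
    rw [injective_iff_map_eq_zero]
    intro w hw
    rw [fM] at hw
    have e1 : fderiv ℝ (fun p => J (t₀, p)) p₀ w.1 =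
        fderiv ℝ (fun x : ℝ × ℝ => J (x.1, (1 / 2, x.2, 0))) (t₀, u₀) w.2 :=
      sub_eq_zero.1 (congrArg Prod.fst hw)
    have e2 : w.1.1 = 0 := congrArg (fun z : R4 × (ℝ × ℝ) => z.2.1) hw
    have e3 : drsq 0 p₀ w.1 = 0 := by
      have h : 2 * drsq 0 p₀ w.1 = 0 := congrArg (fun z : R4 × (ℝ × ℝ) => z.2.2) hw
      linarith
    have e4 : w.2 = 0 := hP.trans w.2 w.1 e1.symm e2 e3
    have e6 : w.1 = 0 := by
      apply hA
      rw [e1, e4, map_zero, map_zero]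
    exact Prod.ext e6 e4
  obtain ⟨Ψ, hz, hΨ⟩ := isLocalDiffeomorphAt_of_injective rfl sM hinj
  have hgs : ContDiffOn ℝ ∞ Ψ.toPartialEquiv.symm Ψ.target :=
    contMDiffOn_iff_contDiffOn.1 Ψ.contMDiffOn_invFun
  let e : ℝ → R4 × (ℝ × ℝ) := fun r => (0, (0, r))
  have he : ContDiff ℝ ∞ e := contDiff_const.prodMk (contDiff_const.prodMk contDiff_id)
  have hM0 : M_D1a J t₀ (p₀, (t₀, u₀)) = e 0 := by
    refine Prod.ext ?_ (Prod.ext ?_ ?_)
    · change J (t₀, p₀) - J (t₀, (1 / 2, u₀, 0)) = 0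
      rw [hP.eq, sub_self]
    · change p₀.1 - 1 / 2 = 0
      rw [hP.mem.1, sub_self]
    · change rsq 0 p₀ - 1 / 25 = 0
      rw [hP.mem.2, sub_self]
  have hΨ0 : Ψ (p₀, (t₀, u₀)) = e 0 := by rw [← hM0]; exact (hΨ hz).symm
  have hOo : IsOpen (e ⁻¹' Ψ.target) := Ψ.open_target.preimage he.continuous
  have h0O : (0 : ℝ) ∈ e ⁻¹' Ψ.target := by
    change e 0 ∈ Ψ.target
    rw [← hΨ0]
    exact Ψ.toPartialEquiv.map_source hz
  let c : ℝ → R4 × (ℝ × ℝ) := fun r => Ψ.toPartialEquiv.symm (e r)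
  have hc : ContDiffOn ℝ ∞ c (e ⁻¹' Ψ.target) := hgs.comp he.contDiffOn (fun r hr => hr)
  have hc0 : c 0 = (p₀, (t₀, u₀)) := by
    change Ψ.toPartialEquiv.symm (e 0) = _
    rw [← hΨ0]
    exact Ψ.toPartialEquiv.left_inv hz
  have hMc : ∀ r ∈ e ⁻¹' Ψ.target, M_D1a J t₀ (c r) = e r := by
    intro r hr
    have h1 : c r ∈ Ψ.source := Ψ.toPartialEquiv.map_target hr
    rw [hΨ h1]
    exact Ψ.toPartialEquiv.right_inv hr
  -- the derivative of the curve
  have dc : HasDerivAt c (deriv c 0) 0 :=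
    ((hc.contDiffAt (hOo.mem_nhds h0O)).differentiableAt (by simp)).hasDerivAt
  have dM : HasFDerivAt (M_D1a J t₀) (fderiv ℝ (M_D1a J t₀) (p₀, (t₀, u₀))) (c 0) := by
    rw [hc0]
    exact (sM.self_of_nhds.differentiableAt (by simp)).hasFDerivAt
  have dMc : HasDerivAt (fun r => M_D1a J t₀ (c r))
      (fderiv ℝ (M_D1a J t₀) (p₀, (t₀, u₀)) (deriv c 0)) 0 := dM.comp_hasDerivAt 0 dc
  have de : HasDerivAt e ((0 : R4), ((0 : ℝ), (1 : ℝ))) 0 :=
    (hasDerivAt_const _ _).prodMk ((hasDerivAt_const _ _).prodMk (hasDerivAt_id _))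
  have heq : fderiv ℝ (M_D1a J t₀) (p₀, (t₀, u₀)) (deriv c 0) = ((0 : R4), ((0 : ℝ), (1 : ℝ))) := by
    refine dMc.unique (de.congr_of_eventuallyEq ?_)
    filter_upwards [hOo.mem_nhds h0O] with r hr
    exact hMc r hr
  have dT : HasDerivAt (fun r => (c r).2.1) (deriv c 0).2.1 0 := by
    have h1 := (ContinuousLinearMap.snd ℝ R4 (ℝ × ℝ)).hasFDerivAt.comp_hasDerivAt 0 dc
    exact (ContinuousLinearMap.fst ℝ ℝ ℝ).hasFDerivAt.comp_hasDerivAt 0 h1
  have hT : ContDiffOn ℝ ∞ (fun r => (c r).2.1) (e ⁻¹' Ψ.target) :=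
    contDiff_fst.comp_contDiffOn (contDiff_snd.comp_contDiffOn hc)
  have hT0 : deriv (fun r => (c r).2.1) 0 ≠ 0 := by
    rw [dT.deriv]
    intro h0
    rw [fM] at heq
    generalize deriv c 0 = w at h0 heq
    have e1 : fderiv ℝ (fun p => J (t₀, p)) p₀ w.1 =
        fderiv ℝ (fun x : ℝ × ℝ => J (x.1, (1 / 2, x.2, 0))) (t₀, u₀) w.2 :=
      sub_eq_zero.1 (congrArg Prod.fst heq)
    have e2 : w.1.1 = 0 := congrArg (fun z : R4 × (ℝ × ℝ) => z.2.1) heq
    have e3 : 2 * drsq 0 p₀ w.1 = 1 := congrArg (fun z : R4 × (ℝ × ℝ) => z.2.2) heq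
    by_cases h2 : w.2.2 = 0
    · have e4 : w.2 = 0 := Prod.ext h0 h2
      have e5 : w.1 = 0 := by
        apply hA
        rw [e1, e4, map_zero, map_zero]
      rw [e5] at e3
      simp [drsq] at e3
    · have e4 : w.2 = w.2.2 • ((0 : ℝ), (1 : ℝ)) := by
        refine Prod.ext ?_ ?_
        · simpa using h0
        · simp
      have e5 := hS (w.2.2⁻¹ • w.1) (by
        rw [map_smul, e1, e4, map_smul, smul_smul]
        simp [h2])
      apply e5
      change w.2.2⁻¹ * w.1.1 = 0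
      rw [e2, mul_zero]
  obtain ⟨η₀, hη, hsub, hmono⟩ := mono_D1a hOo h0O hT hT0
  have hcc : ContinuousAt c 0 := dc.continuousAt
  have hinjT : InjOn (fun r => (c r).2.1) (Ioo (-η₀) η₀) := by
    rcases hmono with h | h
    · exact h.injOn
    · exact h.injOn
  refine ⟨fun r => (c r).2.1, fun r => (c r).1, η₀, hη, hT.mono hsub, hmono, ?_, ?_, ?_, ?_, ?_⟩
  · change (c 0).2.1 = t₀
    rw [hc0]
  · exact continuousAt_fst.comp hcc
  · change (c 0).1 = p₀
    rw [hc0]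
  · intro r hr
    have h := hMc r (hsub hr)
    have h1 : (c r).1.1 - 1 / 2 = 0 := congrArg (fun z : R4 × (ℝ × ℝ) => z.2.1) h
    have h2 : rsq 0 (c r).1 - 1 / 25 = r := congrArg (fun z : R4 × (ℝ × ℝ) => z.2.2) h
    exact ⟨by linarith, by linarith⟩
  · have kT : ContinuousAt (fun r => (c r).2.1) (0 : ℝ) := dT.continuousAt
    have kr : Tendsto (fun q : ℝ × R4 × R4 => q.1) (𝓝 ((0 : ℝ), p₀, ((1 / 2, u₀, 0) : R4)))
        (𝓝 0) := continuousAt_fst
    have kp : Tendsto (fun q : ℝ × R4 × R4 => q.2.1) (𝓝 ((0 : ℝ), p₀, ((1 / 2, u₀, 0) : R4)))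
        (𝓝 p₀) := continuousAt_fst.comp continuousAt_snd
    have ku : Tendsto (fun q : ℝ × R4 × R4 => q.2.2.2.1)
        (𝓝 ((0 : ℝ), p₀, ((1 / 2, u₀, 0) : R4))) (𝓝 u₀) := by
      have : Continuous (fun q : ℝ × R4 × R4 => q.2.2.2.1) := by fun_prop
      exact this.tendsto' _ _ rfl
    have kT' : Tendsto (fun q : ℝ × R4 × R4 => (c q.1).2.1)
        (𝓝 ((0 : ℝ), p₀, ((1 / 2, u₀, 0) : R4))) (𝓝 t₀) := by
      have h : Tendsto (fun r => (c r).2.1) (𝓝 (0 : ℝ)) (𝓝 (c 0).2.1) := kT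
      rw [hc0] at h
      exact h.comp kr
    have k1 : ∀ᶠ q : ℝ × R4 × R4 in 𝓝 ((0 : ℝ), p₀, ((1 / 2, u₀, 0) : R4)),
        J ((c q.1).2.1, q.2.1) = J (t₀, q.2.1) :=
      (kT'.prodMk_nhds kp).eventually (hP.frozen p₀ (Or.inl hP.mem))
    have k2 : ∀ᶠ q : ℝ × R4 × R4 in 𝓝 ((0 : ℝ), p₀, ((1 / 2, u₀, 0) : R4)),
        ((q.2.1, ((c q.1).2.1, q.2.2.2.1)) : R4 × (ℝ × ℝ)) ∈ Ψ.source :=
      (kp.prodMk_nhds (kT'.prodMk_nhds ku)).eventually (Ψ.open_source.mem_nhds hz)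
    have k3 : ∀ᶠ q : ℝ × R4 × R4 in 𝓝 ((0 : ℝ), p₀, ((1 / 2, u₀, 0) : R4)),
        q.2.2.2.1 ∈ Ioo (1 / 5 : ℝ) (4 / 5) := ku.eventually (isOpen_Ioo.mem_nhds hP.arc)
    have k4 : ∀ᶠ q : ℝ × R4 × R4 in 𝓝 ((0 : ℝ), p₀, ((1 / 2, u₀, 0) : R4)),
        q.1 ∈ Ioo (-η₀) η₀ := kr.eventually (isOpen_Ioo.mem_nhds ⟨by linarith, hη⟩)
    have k5 : ∀ᶠ q : ℝ × R4 × R4 in 𝓝 ((0 : ℝ), p₀, ((1 / 2, u₀, 0) : R4)),
        rsq 0 q.2.1 - 1 / 25 ∈ Ioo (-η₀) η₀ := by
      have h : Tendsto (fun q : ℝ × R4 × R4 => rsq 0 q.2.1 - 1 / 25)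
          (𝓝 ((0 : ℝ), p₀, ((1 / 2, u₀, 0) : R4))) (𝓝 (rsq 0 p₀ - 1 / 25)) :=
        (((contDiff_rsq 0).continuous.tendsto p₀).comp kp).sub_const _
      refine h.eventually (isOpen_Ioo.mem_nhds ?_)
      rw [hP.mem.2, sub_self]
      exact ⟨by linarith, hη⟩
    filter_upwards [k1, k2, k3, k4, k5] with q h1 h2 h3 h4 h5 hF1 hF2 hJ
    have e1 : q.2.2 = (1 / 2, q.2.2.2.1, 0) := mem_FB_arc_D1a hF2 h3.1 h3.2
    have e2 : M_D1a J t₀ (q.2.1, ((c q.1).2.1, q.2.2.2.1)) = e (rsq 0 q.2.1 - 1 / 25) := by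
      refine Prod.ext ?_ (Prod.ext ?_ rfl)
      · change J (t₀, q.2.1) - J ((c q.1).2.1, (1 / 2, q.2.2.2.1, 0)) = 0
        rw [← e1, ← h1, sub_eq_zero]
        exact hJ
      · change q.2.1.1 - 1 / 2 = 0
        rw [fst_of_mem_FB_D1a hF1, sub_self]
    have e3 : ((q.2.1, ((c q.1).2.1, q.2.2.2.1)) : R4 × (ℝ × ℝ)) = c (rsq 0 q.2.1 - 1 / 25) := by
      have h6 : Ψ (q.2.1, ((c q.1).2.1, q.2.2.2.1)) = e (rsq 0 q.2.1 - 1 / 25) := by
        rw [← e2]; exact (hΨ h2).symm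
      change _ = Ψ.toPartialEquiv.symm (e (rsq 0 q.2.1 - 1 / 25))
      rw [← h6]
      exact (Ψ.toPartialEquiv.left_inv h2).symm
    have e4 := congrArg (fun z : R4 × (ℝ × ℝ) => z.2.1) e3
    have e5 : q.1 = rsq 0 q.2.1 - 1 / 25 := hinjT h4 h5 e4
    have e6 : q.2.1 = (c (rsq 0 q.2.1 - 1 / 25)).1 := congrArg Prod.fst e3
    rw [← e5] at e6
    exact e6

end Pool.Agent.Helper34.BI


end
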