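import Pool.Agent.Helper65.Barb.Defs
import Pool.Agent.Helper70.BI.B.P21

/-!
# Project BI (MP_8e98f2_gt): collected modules, part 31

The contents of the modules
* Helper34.BI.H.M_CHT
* Helper34.BI.H.M_CHV
* Helper34.BI.H.M_L5

in one file, so that the whole proof builds in a short time.
-/

/-! ## Helper34.BI.H.M_CHT -/

section

/-!
# Project BI, stage 3: the chart at a transverse crossing of two strands (module CHT)
-/

set_option autoImplicit false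

open Module Set Filter Topology
open scoped ContDiff Manifold
open Pool.Agent.Helper65.Barb Pool.Agent.Helper18.BI Pool.Agent.Helper27.BI

namespace Pool.Agent.Helper34.BI.H

/-- the polynomial change of coordinates is smooth -/
private theorem contDiff_lam_CHT (v₀ m : ℝ × ℝ) (ε ν : ℝ) : ContDiff ℝ ∞ (lam v₀ m ε ν) := by
  have h1 : ContDiff ℝ ∞ (fun p : R4 => p.1) := contDiff_fst
  have h2 : ContDiff ℝ ∞ (fun p : R4 => p.2.1) := contDiff_fst.comp contDiff_snd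
  have h3 : ContDiff ℝ ∞ (fun p : R4 => p.2.2.re) :=
    Complex.reCLM.contDiff.comp (contDiff_snd.comp contDiff_snd)
  have h4 : ContDiff ℝ ∞ (fun p : R4 => p.2.2.im) :=
    Complex.imCLM.contDiff.comp (contDiff_snd.comp contDiff_snd)
  have k1 : ContDiff ℝ ∞ (fun p : R4 => v₀ + mulc m (p.2.1, p.2.2.im)) := by
    refine contDiff_const.add (ContDiff.prodMk ?_ ?_)
    · exact (contDiff_const.mul h2).sub (contDiff_const.mul h4)
    · exact (contDiff_const.mul h4).add (contDiff_const.mul h2)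
  refine k1.prodMk (ContDiff.prodMk ?_ ?_)
  · exact contDiff_const.mul (((h1.sub contDiff_const).mul h2).add h3)
  · exact contDiff_const.mul (((h1.sub contDiff_const).mul (contDiff_const.sub h2)).sub h3)

/-- the left inverse of the change of coordinates -/
private noncomputable def lami_CHT (v₀ m : ℝ × ℝ) (ε ν : ℝ) (z : (ℝ × ℝ) × ℝ × ℝ) : R4 :=
  (z.2.1 / ν + z.2.2 / ε + 1 / 2,
    ((m.1 * (z.1.1 - v₀.1) + m.2 * (z.1.2 - v₀.2)) / (m.1 ^ 2 + m.2 ^ 2),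
      (((z.2.1 / ν - (z.2.1 / ν + z.2.2 / ε) *
        ((m.1 * (z.1.1 - v₀.1) + m.2 * (z.1.2 - v₀.2)) / (m.1 ^ 2 + m.2 ^ 2)) : ℝ) : ℂ) +
        (((m.1 * (z.1.2 - v₀.2) - m.2 * (z.1.1 - v₀.1)) / (m.1 ^ 2 + m.2 ^ 2) : ℝ) : ℂ) *
          Complex.I)))

private theorem contDiff_lami_CHT (v₀ m : ℝ × ℝ) (ε ν : ℝ) :
    ContDiff ℝ ∞ (lami_CHT v₀ m ε ν) := by
  have h1 : ContDiff ℝ ∞ (fun z : (ℝ × ℝ) × ℝ × ℝ => z.1.1) := contDiff_fst.comp contDiff_fst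
  have h2 : ContDiff ℝ ∞ (fun z : (ℝ × ℝ) × ℝ × ℝ => z.1.2) := contDiff_snd.comp contDiff_fst
  have h3 : ContDiff ℝ ∞ (fun z : (ℝ × ℝ) × ℝ × ℝ => z.2.1) := contDiff_fst.comp contDiff_snd
  have h4 : ContDiff ℝ ∞ (fun z : (ℝ × ℝ) × ℝ × ℝ => z.2.2) := contDiff_snd.comp contDiff_snd
  have a1 : ContDiff ℝ ∞ (fun z : (ℝ × ℝ) × ℝ × ℝ =>
      (m.1 * (z.1.1 - v₀.1) + m.2 * (z.1.2 - v₀.2)) / (m.1 ^ 2 + m.2 ^ 2)) :=
    ((contDiff_const.mul (h1.sub contDiff_const)).add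
      (contDiff_const.mul (h2.sub contDiff_const))).div_const _
  have a2 : ContDiff ℝ ∞ (fun z : (ℝ × ℝ) × ℝ × ℝ =>
      (m.1 * (z.1.2 - v₀.2) - m.2 * (z.1.1 - v₀.1)) / (m.1 ^ 2 + m.2 ^ 2)) :=
    ((contDiff_const.mul (h2.sub contDiff_const)).sub
      (contDiff_const.mul (h1.sub contDiff_const))).div_const _
  have b1 : ContDiff ℝ ∞ (fun z : (ℝ × ℝ) × ℝ × ℝ => z.2.1 / ν) := h3.div_const _
  have b2 : ContDiff ℝ ∞ (fun z : (ℝ × ℝ) × ℝ × ℝ => z.2.2 / ε) := h4.div_const _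
  refine ContDiff.prodMk ((b1.add b2).add contDiff_const) (ContDiff.prodMk a1 ?_)
  refine ContDiff.add ?_ (ContDiff.mul ?_ contDiff_const)
  · exact Complex.ofRealCLM.contDiff.comp (b1.sub ((b1.add b2).mul a1))
  · exact Complex.ofRealCLM.contDiff.comp a2

private theorem lami_lam_CHT (v₀ m : ℝ × ℝ) (ε ν : ℝ) (hm : m ≠ 0) (hε : 0 < ε) (hν : 0 < ν)
    (p : R4) : lami_CHT v₀ m ε ν (lam v₀ m ε ν p) = p := by
  have hn : m.1 ^ 2 + m.2 ^ 2 ≠ 0 := by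
    intro h
    apply hm
    have e1 : m.1 = 0 := by nlinarith [sq_nonneg m.1, sq_nonneg m.2]
    have e2 : m.2 = 0 := by nlinarith [sq_nonneg m.1, sq_nonneg m.2]
    exact Prod.ext e1 e2
  have e1 : (lam v₀ m ε ν p).1.1 - v₀.1 = m.1 * p.2.1 - m.2 * p.2.2.im := by
    simp [lam, mulc]
  have e2 : (lam v₀ m ε ν p).1.2 - v₀.2 = m.1 * p.2.2.im + m.2 * p.2.1 := by
    simp [lam, mulc]
  have e3 : (lam v₀ m ε ν p).2.1 / ν = (p.1 - 1 / 2) * p.2.1 + p.2.2.re := by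
    simp only [lam]
    field_simp
  have e4 : (lam v₀ m ε ν p).2.2 / ε = (p.1 - 1 / 2) * (1 - p.2.1) - p.2.2.re := by
    simp only [lam]
    field_simp
  have ea : (m.1 * (m.1 * p.2.1 - m.2 * p.2.2.im) + m.2 * (m.1 * p.2.2.im + m.2 * p.2.1)) /
      (m.1 ^ 2 + m.2 ^ 2) = p.2.1 := by
    field_simp
    ring
  have eh : (m.1 * (m.1 * p.2.2.im + m.2 * p.2.1) - m.2 * (m.1 * p.2.1 - m.2 * p.2.2.im)) /
      (m.1 ^ 2 + m.2 ^ 2) = p.2.2.im := by
    field_simp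
    ring
  unfold lami_CHT
  rw [e1, e2, e3, e4, ea, eh]
  refine Prod.ext ?_ (Prod.ext rfl ?_)
  · show (p.1 - 1 / 2) * p.2.1 + p.2.2.re + ((p.1 - 1 / 2) * (1 - p.2.1) - p.2.2.re) + 1 / 2 = p.1
    ring
  · apply Complex.ext
    · simp
      ring
    · simp

private theorem injective_fderiv_lam_CHT (v₀ m : ℝ × ℝ) (ε ν : ℝ) (hm : m ≠ 0) (hε : 0 < ε)
    (hν : 0 < ν) (p : R4) : Function.Injective (fderiv ℝ (lam v₀ m ε ν) p) := by
  have d1 : HasFDerivAt (lam v₀ m ε ν) (fderiv ℝ (lam v₀ m ε ν) p) p :=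
    ((contDiff_lam_CHT v₀ m ε ν).differentiable (by simp) p).hasFDerivAt
  have d2 : HasFDerivAt (lami_CHT v₀ m ε ν)
      (fderiv ℝ (lami_CHT v₀ m ε ν) (lam v₀ m ε ν p)) (lam v₀ m ε ν p) :=
    ((contDiff_lami_CHT v₀ m ε ν).differentiable (by simp) _).hasFDerivAt
  have d3 := d2.comp p d1
  have d4 : HasFDerivAt (fun x : R4 => x)
      ((fderiv ℝ (lami_CHT v₀ m ε ν) (lam v₀ m ε ν p)).comp (fderiv ℝ (lam v₀ m ε ν) p)) p := by
    refine d3.congr_of_eventuallyEq (Filter.Eventually.of_forall fun q => ?_)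
    exact (lami_lam_CHT v₀ m ε ν hm hε hν q).symm
  have d5 := d4.unique (hasFDerivAt_id p)
  have e1 : ∀ z, (fderiv ℝ (lami_CHT v₀ m ε ν) (lam v₀ m ε ν p))
      (fderiv ℝ (lam v₀ m ε ν) p z) = z := fun z =>
    congrArg (fun A : R4 →L[ℝ] R4 => A z) d5
  intro v w hvw
  have := congrArg (fderiv ℝ (lami_CHT v₀ m ε ν) (lam v₀ m ε ν p)) hvw
  rw [e1, e1] at this
  exact this

/-- the size of the change of coordinates on the ball -/
private theorem mapsTo_lam_CHT (v₀ m : ℝ × ℝ) (ε ν η : ℝ) (hη : 0 < η) (hm : ‖m‖ < η / 20)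
    (hε : 0 < ε) (hε' : ε < η / 20) (hν : 0 < ν) (hν' : ν < η / 20) :
    MapsTo (lam v₀ m ε ν) ball4 (box v₀ η) := by
  rintro p ⟨hp1, hp2, hp3⟩
  have hr : p.2.1 ^ 2 + p.2.2.re ^ 2 + p.2.2.im ^ 2 ≤ (9 / 2) ^ 2 := by
    have : rsq 0 p = p.2.1 ^ 2 + p.2.2.re ^ 2 + p.2.2.im ^ 2 := by simp [rsq, nsq]
    rw [← this]
    exact hp3
  have y1 := sq_nonneg p.2.1
  have y2 := sq_nonneg p.2.2.re
  have y3 := sq_nonneg p.2.2.im
  have ha : |p.2.1| ≤ 9 / 2 := abs_le_of_sq_le_sq (by linarith) (by norm_num)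
  have hX : |p.2.2.re| ≤ 9 / 2 := abs_le_of_sq_le_sq (by linarith) (by norm_num)
  have hh : |p.2.2.im| ≤ 9 / 2 := abs_le_of_sq_le_sq (by linarith) (by norm_num)
  have hs : |p.1 - 1 / 2| ≤ 3 / 2 := abs_le.2 ⟨by linarith, by linarith⟩
  have h1a : |1 - p.2.1| ≤ 11 / 2 := by
    have := abs_le.1 ha
    exact abs_le.2 ⟨by linarith, by linarith⟩
  have hm1 : |m.1| ≤ η / 20 := (norm_fst_le m).trans hm.le
  have hm2 : |m.2| ≤ η / 20 := (norm_snd_le m).trans hm.le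
  have hη0 : (0 : ℝ) ≤ η / 20 := by positivity
  show ‖lam v₀ m ε ν p - (v₀, 0, 0)‖ ≤ η
  refine norm_prod_le_iff.2 ⟨norm_prod_le_iff.2 ⟨?_, ?_⟩, norm_prod_le_iff.2 ⟨?_, ?_⟩⟩
  · have e : (lam v₀ m ε ν p - (v₀, 0, 0)).1.1 = m.1 * p.2.1 - m.2 * p.2.2.im := by
      simp [lam, mulc]
    rw [e, Real.norm_eq_abs]
    have q1 : |m.1 * p.2.1| ≤ η / 20 * (9 / 2) := by
      rw [abs_mul]
      exact mul_le_mul hm1 ha (abs_nonneg _) hη0
    have q2 : |m.2 * p.2.2.im| ≤ η / 20 * (9 / 2) := by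
      rw [abs_mul]
      exact mul_le_mul hm2 hh (abs_nonneg _) hη0
    have q3 := abs_sub (m.1 * p.2.1) (m.2 * p.2.2.im)
    linarith
  · have e : (lam v₀ m ε ν p - (v₀, 0, 0)).1.2 = m.1 * p.2.2.im + m.2 * p.2.1 := by
      simp [lam, mulc]
    rw [e, Real.norm_eq_abs]
    have q1 : |m.1 * p.2.2.im| ≤ η / 20 * (9 / 2) := by
      rw [abs_mul]
      exact mul_le_mul hm1 hh (abs_nonneg _) hη0
    have q2 : |m.2 * p.2.1| ≤ η / 20 * (9 / 2) := by
      rw [abs_mul]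
      exact mul_le_mul hm2 ha (abs_nonneg _) hη0
    have q3 := abs_add_le (m.1 * p.2.2.im) (m.2 * p.2.1)
    linarith
  · have e : (lam v₀ m ε ν p - (v₀, 0, 0)).2.1 = ν * ((p.1 - 1 / 2) * p.2.1 + p.2.2.re) := by
      simp [lam]
    rw [e, Real.norm_eq_abs, abs_mul, abs_of_pos hν]
    have q1 : |(p.1 - 1 / 2) * p.2.1| ≤ 3 / 2 * (9 / 2) := by
      rw [abs_mul]
      exact mul_le_mul hs ha (abs_nonneg _) (by norm_num)
    have q3 := abs_add_le ((p.1 - 1 / 2) * p.2.1) p.2.2.re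
    have q4 : ν * |(p.1 - 1 / 2) * p.2.1 + p.2.2.re| ≤ η / 20 * (45 / 4) :=
      mul_le_mul hν'.le (by linarith) (abs_nonneg _) hη0
    linarith
  · have e : (lam v₀ m ε ν p - (v₀, 0, 0)).2.2 =
        ε * ((p.1 - 1 / 2) * (1 - p.2.1) - p.2.2.re) := by
      simp [lam]
    rw [e, Real.norm_eq_abs, abs_mul, abs_of_pos hε]
    have q1 : |(p.1 - 1 / 2) * (1 - p.2.1)| ≤ 3 / 2 * (11 / 2) := by
      rw [abs_mul]
      exact mul_le_mul hs h1a (abs_nonneg _) (by norm_num)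
    have q3 := abs_sub ((p.1 - 1 / 2) * (1 - p.2.1)) p.2.2.re
    have q4 : ε * |(p.1 - 1 / 2) * (1 - p.2.1) - p.2.2.re| ≤ η / 20 * (51 / 4) :=
      mul_le_mul hε'.le (by linarith) (abs_nonneg _) hη0
    linarith

/-- the first two coordinates -/
private noncomputable def prP_CHT : ((ℝ × ℝ) × ℝ × ℝ) →L[ℝ] (ℝ × ℝ) × ℝ :=
  (ContinuousLinearMap.fst ℝ (ℝ × ℝ) (ℝ × ℝ)).prod
    ((ContinuousLinearMap.fst ℝ ℝ ℝ).comp (ContinuousLinearMap.snd ℝ (ℝ × ℝ) (ℝ × ℝ)))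

/-- the last coordinate -/
private noncomputable def prQ_CHT : ((ℝ × ℝ) × ℝ × ℝ) →L[ℝ] ℝ :=
  (ContinuousLinearMap.snd ℝ ℝ ℝ).comp (ContinuousLinearMap.snd ℝ (ℝ × ℝ) (ℝ × ℝ))

private theorem injective_fderiv_yc_CHT (c : (ℝ × ℝ) × ℝ → R4) (c0 : ℝ → R4) (v₀ : ℝ × ℝ)
    (hc : ContDiffAt ℝ ∞ c (v₀, (0 : ℝ))) (hc0 : ContDiffAt ℝ ∞ c0 0)
    (hinj : Function.Injective (fderiv ℝ (fun z : (ℝ × ℝ) × ℝ × ℝ => c (z.1, z.2.1) - c0 z.2.2)
      (v₀, 0, 0))) : Function.Injective (fderiv ℝ (yc c c0) (v₀, 0, 0)) := by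
  have dP : HasFDerivAt (fun z : (ℝ × ℝ) × ℝ × ℝ => (z.1, z.2.1)) prP_CHT (v₀, 0, 0) :=
    prP_CHT.hasFDerivAt
  have dQ : HasFDerivAt (fun z : (ℝ × ℝ) × ℝ × ℝ => z.2.2) prQ_CHT (v₀, 0, 0) :=
    prQ_CHT.hasFDerivAt
  have dc : HasFDerivAt c (fderiv ℝ c (v₀, 0)) (v₀, 0) :=
    (hc.differentiableAt (by simp)).hasFDerivAt
  have dc0 : HasFDerivAt c0 (fderiv ℝ c0 0) 0 := (hc0.differentiableAt (by simp)).hasFDerivAt
  have d1 : HasFDerivAt (fun z : (ℝ × ℝ) × ℝ × ℝ => c (z.1, z.2.1))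
      ((fderiv ℝ c (v₀, 0)).comp prP_CHT) (v₀, 0, 0) :=
    HasFDerivAt.comp (f := fun z : (ℝ × ℝ) × ℝ × ℝ => (z.1, z.2.1)) (v₀, 0, 0) dc dP
  have d2 : HasFDerivAt (fun z : (ℝ × ℝ) × ℝ × ℝ => c0 z.2.2)
      ((fderiv ℝ c0 0).comp prQ_CHT) (v₀, 0, 0) :=
    HasFDerivAt.comp (f := fun z : (ℝ × ℝ) × ℝ × ℝ => z.2.2) (v₀, 0, 0) dc0 dQ
  have d3 := d1.sub d2
  have d4 : HasFDerivAt (yc c c0)
      ((fderiv ℝ c (v₀, 0)).comp prP_CHT + (fderiv ℝ c0 0).comp prQ_CHT) (v₀, 0, 0) :=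
    d1.add (d2.sub_const _)
  have e3 := d3.fderiv
  have e3' : fderiv ℝ (fun z : (ℝ × ℝ) × ℝ × ℝ => c (z.1, z.2.1) - c0 z.2.2) (v₀, 0, 0) =
      (fderiv ℝ c (v₀, 0)).comp prP_CHT - (fderiv ℝ c0 0).comp prQ_CHT := e3
  rw [e3'] at hinj
  rw [d4.fderiv]
  refine (injective_iff_map_eq_zero _).2 fun z hz => ?_
  have h0 : ((fderiv ℝ c (v₀, 0)).comp prP_CHT - (fderiv ℝ c0 0).comp prQ_CHT)
      (z.1, z.2.1, -z.2.2) = 0 := by
    have k1 : prP_CHT (z.1, z.2.1, -z.2.2) = prP_CHT z := rfl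
    have k2 : prQ_CHT (z.1, z.2.1, -z.2.2) = -prQ_CHT z := rfl
    simp only [ContinuousLinearMap.sub_apply, ContinuousLinearMap.comp_apply, k1, k2, map_neg,
      sub_neg_eq_add]
    simpa only [ContinuousLinearMap.add_apply, ContinuousLinearMap.comp_apply] using hz
  have h1 := (injective_iff_map_eq_zero _).1 hinj _ h0
  have q1 : z.1 = 0 := congrArg (fun w : (ℝ × ℝ) × ℝ × ℝ => w.1) h1
  have q2 : z.2.1 = 0 := congrArg (fun w : (ℝ × ℝ) × ℝ × ℝ => w.2.1) h1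
  have q3 : -z.2.2 = 0 := congrArg (fun w : (ℝ × ℝ) × ℝ × ℝ => w.2.2) h1
  exact Prod.ext q1 (Prod.ext q2 (neg_eq_zero.1 q3))

theorem m_CHT : StCHT := by
  intro c c0 v₀ O hc hc0 hcc hinj hO hcO
  -- `yc` is smooth near `z₀`
  have hsm : ∀ᶠ z in 𝓝 ((v₀, 0, 0) : (ℝ × ℝ) × ℝ × ℝ), ContDiffAt ℝ ∞ (yc c c0) z := by
    have cP : ContinuousAt (fun z : (ℝ × ℝ) × ℝ × ℝ => (z.1, z.2.1)) (v₀, 0, 0) :=
      prP_CHT.continuous.continuousAt
    have cQ : ContinuousAt (fun z : (ℝ × ℝ) × ℝ × ℝ => z.2.2) (v₀, 0, 0) :=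
      prQ_CHT.continuous.continuousAt
    filter_upwards [cP.eventually hc, cQ.eventually hc0] with z h1 h2
    have sP : ContDiffAt ℝ ∞ (fun z : (ℝ × ℝ) × ℝ × ℝ => (z.1, z.2.1)) z :=
      prP_CHT.contDiff.contDiffAt
    have sQ : ContDiffAt ℝ ∞ (fun z : (ℝ × ℝ) × ℝ × ℝ => z.2.2) z :=
      prQ_CHT.contDiff.contDiffAt
    have k1 : ContDiffAt ℝ ∞ (fun z : (ℝ × ℝ) × ℝ × ℝ => c (z.1, z.2.1)) z :=
      ContDiffAt.comp (f := fun z : (ℝ × ℝ) × ℝ × ℝ => (z.1, z.2.1)) z h1 sP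
    have k2 : ContDiffAt ℝ ∞ (fun z : (ℝ × ℝ) × ℝ × ℝ => c0 z.2.2) z :=
      ContDiffAt.comp (f := fun z : (ℝ × ℝ) × ℝ × ℝ => z.2.2) z h2 sQ
    exact k1.add (k2.sub contDiffAt_const)
  have hfi := injective_fderiv_yc_CHT c c0 v₀ hc.self_of_nhds hc0.self_of_nhds hinj
  have hdim : finrank ℝ ((ℝ × ℝ) × ℝ × ℝ) = finrank ℝ R4 := by
    have : finrank ℝ ℂ = 2 := Complex.finrank_real_complex
    rw [Module.finrank_prod, Module.finrank_prod, Module.finrank_prod, Module.finrank_prod, this]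
    simp
  have hloc := isLocalDiffeomorphAt_of_injective hdim hsm hfi
  have hcont : ContinuousAt (yc c c0) (v₀, 0, 0) := hsm.self_of_nhds.continuousAt
  have hz0 : yc c c0 (v₀, 0, 0) = c0 0 := by
    simp [yc, hcc]
  have hpre : yc c c0 ⁻¹' O ∈ 𝓝 ((v₀, 0, 0) : (ℝ × ℝ) × ℝ × ℝ) :=
    hcont.preimage_mem_nhds (hO.mem_nhds (by rw [hz0]; exact hcO))
  obtain ⟨Φ, hp, he⟩ := hloc
  have hW : Φ.source ∩ yc c c0 ⁻¹' O ∈ 𝓝 ((v₀, 0, 0) : (ℝ × ℝ) × ℝ × ℝ) :=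
    Filter.inter_mem (Φ.open_source.mem_nhds hp) hpre
  obtain ⟨η, hη, hsub⟩ := Metric.nhds_basis_closedBall.mem_iff.1 hW
  have hbox : box v₀ η ⊆ Φ.source ∩ yc c c0 ⁻¹' O := by
    intro z hz
    apply hsub
    rw [mem_closedBall_iff_norm]
    exact hz
  have hld : ∀ z ∈ box v₀ η, IsLocalDiffeomorphAt 𝓘(ℝ, (ℝ × ℝ) × ℝ × ℝ) 𝓘(ℝ, R4) ∞
      (yc c c0) z := fun z hz => ⟨Φ, (hbox hz).1, he⟩
  have hin : InjOn (yc c c0) (box v₀ η) := by
    intro z hz w hw hzw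
    rw [he (hbox hz).1, he (hbox hw).1] at hzw
    exact Φ.toPartialEquiv.injOn (hbox hz).1 (hbox hw).1 hzw
  refine ⟨η, hη, hin, fun z hz => (hbox hz).2, fun z hz => eventually_contDiffAt (hld z hz), ?_⟩
  intro m ε ν hm hm' hε hε' hν hν'
  have hmaps := mapsTo_lam_CHT v₀ m ε ν η hη hm' hε hε' hν hν'
  refine ⟨⟨fun p hp => ?_, fun p hp q hq hpq => ?_⟩, hmaps⟩
  · have hl := hld _ (hmaps hp)
    have s1 := eventually_contDiffAt hl
    have s2 := injective_fderiv hl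
    have hlam := contDiff_lam_CHT v₀ m ε ν
    refine isLocalDiffeomorphAt_of_injective rfl ?_ ?_
    · filter_upwards [hlam.continuous.continuousAt.eventually s1] with q hq
      exact ContDiffAt.comp (g := yc c c0) (f := lam v₀ m ε ν) q hq hlam.contDiffAt
    · have e : fderiv ℝ (cht c c0 v₀ m ε ν) p =
          (fderiv ℝ (yc c c0) (lam v₀ m ε ν p)).comp (fderiv ℝ (lam v₀ m ε ν) p) :=
        fderiv_comp (g := yc c c0) (f := lam v₀ m ε ν) p
          (s1.self_of_nhds.differentiableAt (by simp)) (hlam.differentiable (by simp) p)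
      rw [e]
      exact s2.comp (injective_fderiv_lam_CHT v₀ m ε ν hm hε hν p)
  · have h1 := hin (hmaps hp) (hmaps hq) hpq
    have h2 := congrArg (lami_CHT v₀ m ε ν) h1
    rwa [lami_lam_CHT v₀ m ε ν hm hε hν, lami_lam_CHT v₀ m ε ν hm hε hν] at h2

end Pool.Agent.Helper34.BI.H


end

/-! ## Helper34.BI.H.M_CHV -/

section

/-!
# Project BI, stage 3: module CHV, values of the chart
-/

set_option autoImplicit false

open Module Set Filter Topology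
open scoped ContDiff Manifold
open Pool.Agent.Helper65.Barb Pool.Agent.Helper18.BI Pool.Agent.Helper27.BI

namespace Pool.Agent.Helper34.BI.H

private theorem mulc_inj_CHV {m v : ℝ × ℝ} (hm : m ≠ 0) (h : mulc m v = 0) : v = 0 := by
  have h1 : m.1 * v.1 - m.2 * v.2 = 0 := by
    have := congrArg Prod.fst h
    simpa [mulc] using this
  have h2 : m.1 * v.2 + m.2 * v.1 = 0 := by
    have := congrArg Prod.snd h
    simpa [mulc] using this
  have hpos : 0 < m.1 ^ 2 + m.2 ^ 2 := by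
    by_contra hn
    have e1 : m.1 = 0 := by nlinarith [sq_nonneg m.1, sq_nonneg m.2]
    have e2 : m.2 = 0 := by nlinarith [sq_nonneg m.1, sq_nonneg m.2]
    exact hm (Prod.ext e1 e2)
  have k1 : (m.1 ^ 2 + m.2 ^ 2) * v.1 = 0 := by linear_combination m.1 * h1 + m.2 * h2
  have k2 : (m.1 ^ 2 + m.2 ^ 2) * v.2 = 0 := by linear_combination m.1 * h2 - m.2 * h1
  exact Prod.ext ((mul_eq_zero.1 k1).resolve_left hpos.ne')
    ((mul_eq_zero.1 k2).resolve_left hpos.ne')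

theorem m_CHV : StCHV := by
  intro c c0 v₀ m ε ν η₀ hm hε hν hc
  refine ⟨fun s => ?_, fun s => ?_, fun κ q s => ?_, fun hinj hmap p hp => ⟨?_, ?_⟩⟩
  · have e : lam v₀ m ε ν (s, 0) = (v₀, 0, ε * (s - 1 / 2)) := by
      simp [lam, mulc]
    rw [cht, e]
    simp [yc, hc]
  · have e : lam v₀ m ε ν (s, e1) = (v₀ + m, ν * (s - 1 / 2), 0) := by
      simp [lam, mulc, e1]
    rw [cht, e]
    simp [yc]
  · have e : lam v₀ m ε ν (s, warc κ q s) =
        (v₀ + m + κ s • (circ v₀ m q - (v₀ + m)), ν * (s - 1 / 2), 0) := by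
      refine Prod.ext (Prod.ext ?_ ?_) (Prod.ext ?_ ?_)
      · simp only [lam, mulc, warc, circ, Prod.fst_add, Prod.smul_fst, Prod.fst_sub, smul_eq_mul]
        ring
      · simp only [lam, mulc, warc, circ, Prod.snd_add, Prod.smul_snd, Prod.snd_sub, smul_eq_mul]
        ring
      · simp only [lam, warc]
        ring
      · simp only [lam, warc]
        ring
    rw [cht, e]
    simp [yc]
  · intro t ht h0 h
    have hz : ((v₀, 0, t) : (ℝ × ℝ) × ℝ × ℝ) ∈ box v₀ η₀ := by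
      have : ((v₀, 0, t) : (ℝ × ℝ) × ℝ × ℝ) - (v₀, 0, 0) = ((0, 0, t) : (ℝ × ℝ) × ℝ × ℝ) := by
        simp
      change ‖((v₀, 0, t) : (ℝ × ℝ) × ℝ × ℝ) - (v₀, 0, 0)‖ ≤ η₀
      rw [this]
      simp only [Prod.norm_def, norm_zero, Real.norm_eq_abs]
      exact max_le h0 (max_le h0 ht)
    have hy : yc c c0 (lam v₀ m ε ν p) = yc c c0 (v₀, 0, t) := by
      change cht c c0 v₀ m ε ν p = _
      rw [h]
      simp [yc, hc]
    have hl := hinj (hmap hp) hz hy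
    have l1 : v₀ + mulc m (p.2.1, p.2.2.im) = v₀ := congrArg Prod.fst hl
    have l2 : ν * ((p.1 - 1 / 2) * p.2.1 + p.2.2.re) = 0 :=
      congrArg (fun z : (ℝ × ℝ) × ℝ × ℝ => z.2.1) hl
    have l3 : ε * ((p.1 - 1 / 2) * (1 - p.2.1) - p.2.2.re) = t :=
      congrArg (fun z : (ℝ × ℝ) × ℝ × ℝ => z.2.2) hl
    have h1 : mulc m (p.2.1, p.2.2.im) = 0 := by simpa using l1
    have h2 := mulc_inj_CHV hm h1
    have ha : p.2.1 = 0 := congrArg Prod.fst h2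
    have hh : p.2.2.im = 0 := congrArg Prod.snd h2
    have hX : p.2.2.re = 0 := by
      have := (mul_eq_zero.1 l2).resolve_left hν.ne'
      rw [ha] at this
      linarith
    refine ⟨Prod.ext rfl (Prod.ext ha (Complex.ext hX hh)), ?_⟩
    rw [← l3, ha, hX]
    ring
  · intro b hb hmη h
    have h0 : 0 ≤ η₀ := le_trans (norm_nonneg _) hmη
    have hz : ((v₀ + m, b, 0) : (ℝ × ℝ) × ℝ × ℝ) ∈ box v₀ η₀ := by
      have : ((v₀ + m, b, 0) : (ℝ × ℝ) × ℝ × ℝ) - (v₀, 0, 0) = ((m, b, 0) : (ℝ × ℝ) × ℝ × ℝ) := by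
        simp
      change ‖((v₀ + m, b, 0) : (ℝ × ℝ) × ℝ × ℝ) - (v₀, 0, 0)‖ ≤ η₀
      rw [this, Prod.norm_def]
      refine max_le hmη ?_
      simp only [Prod.norm_def, norm_zero, Real.norm_eq_abs]
      exact max_le hb h0
    have hy : yc c c0 (lam v₀ m ε ν p) = yc c c0 (v₀ + m, b, 0) := by
      change cht c c0 v₀ m ε ν p = _
      rw [h]
      simp [yc]
    have hl := hinj (hmap hp) hz hy
    have l1 : v₀ + mulc m (p.2.1, p.2.2.im) = v₀ + m := congrArg Prod.fst hl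
    have l2 : ν * ((p.1 - 1 / 2) * p.2.1 + p.2.2.re) = b :=
      congrArg (fun z : (ℝ × ℝ) × ℝ × ℝ => z.2.1) hl
    have l3 : ε * ((p.1 - 1 / 2) * (1 - p.2.1) - p.2.2.re) = 0 :=
      congrArg (fun z : (ℝ × ℝ) × ℝ × ℝ => z.2.2) hl
    have h1 : mulc m (p.2.1, p.2.2.im) = m := by simpa using l1
    have h1' : mulc m (p.2.1 - 1, p.2.2.im) = 0 := by
      have e1' : m.1 * p.2.1 - m.2 * p.2.2.im = m.1 := congrArg Prod.fst h1
      have e2' : m.1 * p.2.2.im + m.2 * p.2.1 = m.2 := congrArg Prod.snd h1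
      refine Prod.ext ?_ ?_
      · change m.1 * (p.2.1 - 1) - m.2 * p.2.2.im = 0
        linarith
      · change m.1 * p.2.2.im + m.2 * (p.2.1 - 1) = 0
        linarith
    have h2 := mulc_inj_CHV hm h1'
    have ha : p.2.1 = 1 := by
      have : p.2.1 - 1 = 0 := congrArg Prod.fst h2
      linarith
    have hh : p.2.2.im = 0 := congrArg Prod.snd h2
    have hX : p.2.2.re = 0 := by
      have := (mul_eq_zero.1 l3).resolve_left hε.ne'
      rw [ha] at this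
      linarith
    refine ⟨Prod.ext rfl (Prod.ext ?_ ?_), ?_⟩
    · simpa [e1] using ha
    · simpa [e1] using Complex.ext (by simpa using hX) (by simpa using hh)
    · rw [← l2, ha, hX]
      ring

end Pool.Agent.Helper34.BI.H


end

/-! ## Helper34.BI.H.M_L5 -/

section

/-!
# Project BI, stage 3: module L5, the local model of a transverse crossing
-/

set_option autoImplicit false

open Module Set Filter Topology
open scoped ContDiff Manifold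
open Pool.Agent.Helper65.Barb Pool.Agent.Helper18.BI Pool.Agent.Helper27.BI
open Pool.Agent.Helper27.H (ArcD LIso LPush Fam2 Q2 SuppU thk seg)
open Pool.Agent.Helper70.BI (I4)

namespace Pool.Agent.Helper34.BI.H

private noncomputable def A_L5 (c : ℝ × ℝ × ℝ → R4) (u₀ q₀ a b : ℝ) : ℝ × ℝ →L[ℝ] R4 :=
  (fderiv ℝ c (u₀, q₀, a) - fderiv ℝ c (u₀, q₀, b)).comp
    ((ContinuousLinearMap.fst ℝ ℝ ℝ).prod ((ContinuousLinearMap.snd ℝ ℝ ℝ).prod 0))

private theorem lw_eq_L5 (c : ℝ × ℝ × ℝ → R4) (u₀ q₀ a b : ℝ) (w : ℝ × ℝ) :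
    lw c u₀ q₀ a b w = A_L5 c u₀ q₀ a b w := by
  simp [lw, A_L5]

private theorem mulc_inj_L5 {m v : ℝ × ℝ} (hm : m ≠ 0) (h : mulc m v = 0) : v = 0 := by
  have h1 : m.1 * v.1 - m.2 * v.2 = 0 := by
    have := congrArg Prod.fst h
    simpa [mulc] using this
  have h2 : m.1 * v.2 + m.2 * v.1 = 0 := by
    have := congrArg Prod.snd h
    simpa [mulc] using this
  have hpos : 0 < m.1 ^ 2 + m.2 ^ 2 := by
    by_contra hn
    have e1 : m.1 = 0 := by nlinarith [sq_nonneg m.1, sq_nonneg m.2]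
    have e2 : m.2 = 0 := by nlinarith [sq_nonneg m.1, sq_nonneg m.2]
    exact hm (Prod.ext e1 e2)
  have k1 : (m.1 ^ 2 + m.2 ^ 2) * v.1 = 0 := by linear_combination m.1 * h1 + m.2 * h2
  have k2 : (m.1 ^ 2 + m.2 ^ 2) * v.2 = 0 := by linear_combination m.1 * h2 - m.2 * h1
  exact Prod.ext ((mul_eq_zero.1 k1).resolve_left hpos.ne')
    ((mul_eq_zero.1 k2).resolve_left hpos.ne')

private theorem norm_mulc_L5 (m : ℝ × ℝ) (θ : ℝ) :
    ‖mulc m (Real.cos θ, Real.sin θ)‖ ≤ 2 * ‖m‖ := by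
  have h1 : |m.1| ≤ ‖m‖ := norm_fst_le m
  have h2 : |m.2| ≤ ‖m‖ := norm_snd_le m
  have hc := Real.abs_cos_le_one θ
  have hs := Real.abs_sin_le_one θ
  have k1 : |m.1 * Real.cos θ| ≤ ‖m‖ := by
    rw [abs_mul]; nlinarith [abs_nonneg m.1, abs_nonneg (Real.cos θ)]
  have k2 : |m.2 * Real.sin θ| ≤ ‖m‖ := by
    rw [abs_mul]; nlinarith [abs_nonneg m.2, abs_nonneg (Real.sin θ)]
  have k3 : |m.1 * Real.sin θ| ≤ ‖m‖ := by
    rw [abs_mul]; nlinarith [abs_nonneg m.1, abs_nonneg (Real.sin θ)]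
  have k4 : |m.2 * Real.cos θ| ≤ ‖m‖ := by
    rw [abs_mul]; nlinarith [abs_nonneg m.2, abs_nonneg (Real.cos θ)]
  rw [Prod.norm_def]
  refine max_le ?_ ?_
  · change |m.1 * Real.cos θ - m.2 * Real.sin θ| ≤ _
    have := abs_sub (m.1 * Real.cos θ) (m.2 * Real.sin θ)
    linarith
  · change |m.1 * Real.sin θ + m.2 * Real.cos θ| ≤ _
    have := abs_add_le (m.1 * Real.sin θ) (m.2 * Real.cos θ)
    linarith

/-- the moving strand, linearized -/
private noncomputable def cc_L5 (c : ℝ × ℝ × ℝ → R4) (u₀ q₀ a b : ℝ) (z : (ℝ × ℝ) × ℝ) : R4 :=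
  c (u₀, q₀, b + z.2) - A_L5 c u₀ q₀ a b (z.1 - (u₀, q₀))

/-- the fixed strand -/
private def c0_L5 (c : ℝ × ℝ × ℝ → R4) (u₀ q₀ a : ℝ) (t : ℝ) : R4 := c (u₀, q₀, a + t)

private theorem cc_smooth_L5 {c : ℝ × ℝ × ℝ → R4} (hc : ContDiff ℝ ∞ c) (u₀ q₀ a b : ℝ) :
    ContDiff ℝ ∞ (cc_L5 c u₀ q₀ a b) := by
  have h1 : ContDiff ℝ ∞ (fun z : (ℝ × ℝ) × ℝ => c (u₀, q₀, b + z.2)) :=
    hc.comp (contDiff_const.prodMk (contDiff_const.prodMk (contDiff_const.add contDiff_snd)))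
  have h2 : ContDiff ℝ ∞ (fun z : (ℝ × ℝ) × ℝ => A_L5 c u₀ q₀ a b (z.1 - (u₀, q₀))) :=
    (A_L5 c u₀ q₀ a b).contDiff.comp (contDiff_fst.sub contDiff_const)
  exact h1.sub h2

private theorem c0_smooth_L5 {c : ℝ × ℝ × ℝ → R4} (hc : ContDiff ℝ ∞ c) (u₀ q₀ a : ℝ) :
    ContDiff ℝ ∞ (c0_L5 c u₀ q₀ a) :=
  hc.comp (contDiff_const.prodMk (contDiff_const.prodMk (contDiff_const.add contDiff_id)))

private theorem line_L5 {c : ℝ × ℝ × ℝ → R4} (hc : ContDiff ℝ ∞ c) (u₀ q₀ a : ℝ) :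
    HasFDerivAt (fun t : ℝ => c (u₀, q₀, a + t))
      ((fderiv ℝ c (u₀, q₀, a)).comp
        ((0 : ℝ →L[ℝ] ℝ).prod ((0 : ℝ →L[ℝ] ℝ).prod (ContinuousLinearMap.id ℝ ℝ)))) 0 := by
  have h1 : HasFDerivAt c (fderiv ℝ c (u₀, q₀, a)) (u₀, q₀, a + 0) := by
    rw [add_zero]
    exact (hc.differentiable (by simp) _).hasFDerivAt
  have h2 : HasFDerivAt (fun t : ℝ => ((u₀, q₀, a + t) : ℝ × ℝ × ℝ))
      ((0 : ℝ →L[ℝ] ℝ).prod ((0 : ℝ →L[ℝ] ℝ).prod (ContinuousLinearMap.id ℝ ℝ))) 0 :=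
    (hasFDerivAt_const _ _).prodMk ((hasFDerivAt_const _ _).prodMk
      ((hasFDerivAt_id (0 : ℝ)).const_add a))
  exact h1.comp (0 : ℝ) h2

private theorem inj_L5 {c : ℝ × ℝ × ℝ → R4} (hc : ContDiff ℝ ∞ c) {u₀ q₀ a b : ℝ}
    (htr : ∀ ζ η σ τ : ℝ, fderiv ℝ c (u₀, q₀, a) (ζ, η, σ) = fderiv ℝ c (u₀, q₀, b) (ζ, η, τ) →
      ζ = 0 ∧ η = 0 ∧ σ = 0 ∧ τ = 0) :
    Function.Injective (fderiv ℝ (fun z : (ℝ × ℝ) × ℝ × ℝ =>
      cc_L5 c u₀ q₀ a b (z.1, z.2.1) - c0_L5 c u₀ q₀ a z.2.2) ((u₀, q₀), 0, 0)) := by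
  have h1 : HasFDerivAt (fun z : (ℝ × ℝ) × ℝ × ℝ => c (u₀, q₀, b + z.2.1))
      (((fderiv ℝ c (u₀, q₀, b)).comp
        ((0 : ℝ →L[ℝ] ℝ).prod ((0 : ℝ →L[ℝ] ℝ).prod (ContinuousLinearMap.id ℝ ℝ)))).comp
        ((ContinuousLinearMap.fst ℝ ℝ ℝ).comp (ContinuousLinearMap.snd ℝ (ℝ × ℝ) (ℝ × ℝ))))
      ((u₀, q₀), 0, 0) :=
    HasFDerivAt.comp (g := fun t : ℝ => c (u₀, q₀, b + t))
      (f := fun z : (ℝ × ℝ) × ℝ × ℝ => z.2.1)
      (((u₀, q₀), 0, 0) : (ℝ × ℝ) × ℝ × ℝ) (line_L5 hc u₀ q₀ b)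
      ((ContinuousLinearMap.fst ℝ ℝ ℝ).comp
        (ContinuousLinearMap.snd ℝ (ℝ × ℝ) (ℝ × ℝ))).hasFDerivAt
  have h2 : HasFDerivAt (fun z : (ℝ × ℝ) × ℝ × ℝ => c (u₀, q₀, a + z.2.2))
      (((fderiv ℝ c (u₀, q₀, a)).comp
        ((0 : ℝ →L[ℝ] ℝ).prod ((0 : ℝ →L[ℝ] ℝ).prod (ContinuousLinearMap.id ℝ ℝ)))).comp
        ((ContinuousLinearMap.snd ℝ ℝ ℝ).comp (ContinuousLinearMap.snd ℝ (ℝ × ℝ) (ℝ × ℝ))))
      ((u₀, q₀), 0, 0) :=
    HasFDerivAt.comp (g := fun t : ℝ => c (u₀, q₀, a + t))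
      (f := fun z : (ℝ × ℝ) × ℝ × ℝ => z.2.2)
      (((u₀, q₀), 0, 0) : (ℝ × ℝ) × ℝ × ℝ) (line_L5 hc u₀ q₀ a)
      ((ContinuousLinearMap.snd ℝ ℝ ℝ).comp
        (ContinuousLinearMap.snd ℝ (ℝ × ℝ) (ℝ × ℝ))).hasFDerivAt
  have h3 : HasFDerivAt (fun z : (ℝ × ℝ) × ℝ × ℝ => A_L5 c u₀ q₀ a b (z.1 - (u₀, q₀)))
      ((A_L5 c u₀ q₀ a b).comp (ContinuousLinearMap.fst ℝ (ℝ × ℝ) (ℝ × ℝ)))
      ((u₀, q₀), 0, 0) :=
    HasFDerivAt.comp (((u₀, q₀), 0, 0) : (ℝ × ℝ) × ℝ × ℝ) (A_L5 c u₀ q₀ a b).hasFDerivAt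
      ((ContinuousLinearMap.fst ℝ (ℝ × ℝ) (ℝ × ℝ)).hasFDerivAt.sub_const (u₀, q₀))
  have h4 := (h1.sub h3).sub h2
  have e : fderiv ℝ (fun z : (ℝ × ℝ) × ℝ × ℝ =>
      cc_L5 c u₀ q₀ a b (z.1, z.2.1) - c0_L5 c u₀ q₀ a z.2.2) ((u₀, q₀), 0, 0) = _ := h4.fderiv
  rw [e]
  rw [← ContinuousLinearMap.coe_coe, ← LinearMap.ker_eq_bot, LinearMap.ker_eq_bot']
  rintro ⟨⟨w1, w2⟩, β, t⟩ hz
  have hz' : fderiv ℝ c (u₀, q₀, b) (0, 0, β) -
      (fderiv ℝ c (u₀, q₀, a) (w1, w2, 0) - fderiv ℝ c (u₀, q₀, b) (w1, w2, 0)) -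
      fderiv ℝ c (u₀, q₀, a) (0, 0, t) = 0 := by
    simpa [A_L5] using hz
  have s1 : ((w1, w2, t) : ℝ × ℝ × ℝ) = (w1, w2, 0) + (0, 0, t) := by simp
  have s2 : ((w1, w2, β) : ℝ × ℝ × ℝ) = (w1, w2, 0) + (0, 0, β) := by simp
  have key : fderiv ℝ c (u₀, q₀, a) (w1, w2, t) = fderiv ℝ c (u₀, q₀, b) (w1, w2, β) := by
    rw [s1, s2, map_add, map_add]
    rw [← sub_eq_zero]
    have : fderiv ℝ c (u₀, q₀, a) (w1, w2, 0) + fderiv ℝ c (u₀, q₀, a) (0, 0, t) -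
        (fderiv ℝ c (u₀, q₀, b) (w1, w2, 0) + fderiv ℝ c (u₀, q₀, b) (0, 0, β)) =
        -(fderiv ℝ c (u₀, q₀, b) (0, 0, β) -
      (fderiv ℝ c (u₀, q₀, a) (w1, w2, 0) - fderiv ℝ c (u₀, q₀, b) (w1, w2, 0)) -
      fderiv ℝ c (u₀, q₀, a) (0, 0, t)) := by abel
    rw [this, hz', neg_zero]
  obtain ⟨r1, r2, r3, r4⟩ := htr _ _ _ _ key
  subst r1 r2 r3 r4
  rfl

/-- a smooth cutoff -/
private theorem bump_L5 {r : ℝ} (hr : 0 < r) : ∃ κ : ℝ → ℝ, ContDiff ℝ ∞ κ ∧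
    (∀ t, κ t ∈ Icc (0 : ℝ) 1) ∧ (∀ t, |t| ≤ r / 4 → κ t = 1) ∧ ∀ t, r / 2 ≤ |t| → κ t = 0 := by
  let f : ContDiffBump (0 : ℝ) := ⟨r / 4, r / 2, by linarith, by linarith⟩
  refine ⟨f, f.contDiff, fun t => ⟨f.nonneg, f.le_one⟩, fun t ht => ?_, fun t ht => ?_⟩
  · apply f.one_of_mem_closedBall
    rw [mem_closedBall_zero_iff]
    exact ht
  · apply f.zero_of_le_dist
    rw [dist_zero_right]
    exact ht

private theorem mulc_one_L5 (m : ℝ × ℝ) (k : ℝ) : mulc m (k, 0) = k • m := by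
  refine Prod.ext ?_ ?_
  · change m.1 * k - m.2 * 0 = k * m.1
    ring
  · change m.1 * 0 + m.2 * k = k * m.2
    ring

private theorem mulc_sub_L5 (m v w : ℝ × ℝ) : mulc m (v - w) = mulc m v - mulc m w := by
  refine Prod.ext ?_ ?_
  · change m.1 * (v.1 - w.1) - m.2 * (v.2 - w.2) = (m.1 * v.1 - m.2 * v.2) - (m.1 * w.1 - m.2 * w.2)
    ring
  · change m.1 * (v.2 - w.2) + m.2 * (v.1 - w.1) = (m.1 * v.2 + m.2 * v.1) - (m.1 * w.2 + m.2 * w.1)
    ring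

/-- the parameter moving on the circle -/
private noncomputable def vq_L5 (m : ℝ × ℝ) (q : ℝ) : ℝ × ℝ :=
  mulc m (Real.cos (2 * Real.pi * q), Real.sin (2 * Real.pi * q))

private theorem vq_smooth_L5 (m : ℝ × ℝ) : ContDiff ℝ ∞ (vq_L5 m) := by
  have hc : ContDiff ℝ ∞ (fun q : ℝ => Real.cos (2 * Real.pi * q)) :=
    Real.contDiff_cos.comp (contDiff_const.mul contDiff_id)
  have hs : ContDiff ℝ ∞ (fun q : ℝ => Real.sin (2 * Real.pi * q)) :=
    Real.contDiff_sin.comp (contDiff_const.mul contDiff_id)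
  exact ((contDiff_const.mul hc).sub (contDiff_const.mul hs)).prodMk
    ((contDiff_const.mul hs).add (contDiff_const.mul hc))

private theorem vq_zero_L5 (m : ℝ × ℝ) : vq_L5 m 0 = m := by
  simp [vq_L5, mulc_one_L5]

private theorem vq_one_L5 (m : ℝ × ℝ) : vq_L5 m 1 = m := by
  simp [vq_L5, mulc_one_L5]

private theorem vq_ne_L5 {m : ℝ × ℝ} (hm : m ≠ 0) (q : ℝ) : vq_L5 m q ≠ 0 := by
  intro h
  have h1 := mulc_inj_L5 hm h
  have h2 : Real.cos (2 * Real.pi * q) = 0 := congrArg Prod.fst h1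
  have h3 : Real.sin (2 * Real.pi * q) = 0 := congrArg Prod.snd h1
  have h4 := Real.cos_sq_add_sin_sq (2 * Real.pi * q)
  rw [h2, h3] at h4
  norm_num at h4

theorem m_L5 (hXL : StXL) : StL5 := by
  intro D c u₀ q₀ a b hH hX hI ham hbm
  have hsm := hH.smooth
  have hu0 := hX.memu
  have hq0 := hX.memq
  have hu0' : u₀ ∈ Icc (0 : ℝ) 1 := ⟨hu0.1.le, hu0.2.le⟩
  have hq0' : q₀ ∈ Icc (0 : ℝ) 1 := ⟨hq0.1.le, hq0.2.le⟩
  have hab := hX.lt
  have hD0 := D.h₀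
  have hD1 := D.h₁
  have hD2 := D.h₂
  set v₀ : ℝ × ℝ := (u₀, q₀) with hv₀
  set A := A_L5 c u₀ q₀ a b with hA
  set cc := cc_L5 c u₀ q₀ a b with hcc
  set c0 := c0_L5 c u₀ q₀ a with hc0
  have hc00 : c0 0 = c (u₀, q₀, a) := by simp [hc0, c0_L5]
  have hcceq : cc (v₀, 0) = c0 0 := by
    rw [hc00, hX.eq]
    simp [hcc, cc_L5, hv₀]
  have hccs := cc_smooth_L5 hsm u₀ q₀ a b
  have hc0s := c0_smooth_L5 hsm u₀ q₀ a
  have hinj := inj_L5 hsm hX.trans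
  have haU : c (u₀, q₀, a) ∈ D.U := hH.inU _ hu0' _ hq0' _ ⟨ham.le, by linarith⟩
  obtain ⟨η₁, hη₁, hI1, hM1, -, hT1⟩ := m_CHT cc c0 v₀ D.U
    (Eventually.of_forall fun z => hccs.contDiffAt) (Eventually.of_forall fun t => hc0s.contDiffAt)
    hcceq hinj D.openU (by rw [hc00]; exact haU)
  -- the constant `η₀`
  obtain ⟨η₀, hη₀, h01, h02, h03, h04⟩ : ∃ η₀ > 0, η₀ ≤ η₁ ∧ 3 * η₀ ≤ b - a ∧
      2 * η₀ ≤ a - D.m₀ ∧ 2 * η₀ ≤ D.m₁ - b := by
    refine ⟨min (min η₁ ((b - a) / 3)) (min ((a - D.m₀) / 2) ((D.m₁ - b) / 2)), ?_, ?_, ?_, ?_, ?_⟩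
    · apply lt_min (lt_min hη₁ _) (lt_min _ _) <;> linarith
    · exact (min_le_left _ _).trans (min_le_left _ _)
    · have : min (min η₁ ((b - a) / 3)) (min ((a - D.m₀) / 2) ((D.m₁ - b) / 2)) ≤ (b - a) / 3 :=
        (min_le_left _ _).trans (min_le_right _ _)
      linarith
    · have : min (min η₁ ((b - a) / 3)) (min ((a - D.m₀) / 2) ((D.m₁ - b) / 2)) ≤
          (a - D.m₀) / 2 := (min_le_right _ _).trans (min_le_left _ _)
      linarith
    · have : min (min η₁ ((b - a) / 3)) (min ((a - D.m₀) / 2) ((D.m₁ - b) / 2)) ≤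
          (D.m₁ - b) / 2 := (min_le_right _ _).trans (min_le_right _ _)
      linarith
  set S : Set ℝ := Icc D.s₀ D.s₁ ∩ {s | η₀ ≤ |s - a| ∧ η₀ ≤ |s - b|} with hS
  have hSc : IsCompact S := by
    apply isCompact_Icc.inter_right
    exact (isClosed_le continuous_const (continuous_abs.comp (continuous_id.sub continuous_const))).inter
      (isClosed_le continuous_const (continuous_abs.comp (continuous_id.sub continuous_const)))
  have hcont : Continuous (fun s : ℝ => c (u₀, q₀, s)) :=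
    hsm.continuous.comp (continuous_const.prodMk (continuous_const.prodMk continuous_id))
  set O : Set R4 := D.U \ ((fun s : ℝ => c (u₀, q₀, s)) '' S) with hO
  have hOo : IsOpen O := D.openU.sdiff (hSc.image hcont).isClosed
  have hOa : c (u₀, q₀, a) ∈ O := by
    refine ⟨haU, ?_⟩
    rintro ⟨s, ⟨hs, hsa, hsb⟩, h⟩
    have h' : c (u₀, q₀, s) = c (u₀, q₀, a) := h
    rcases lt_trichotomy s a with h1 | h1 | h1
    · have := hX.uniq s hs a ⟨hX.mema.1.le, hX.mema.2.le⟩ h1 h'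
      linarith [this.1]
    · rw [h1] at hsa
      simp at hsa
      linarith
    · have := hX.uniq a ⟨hX.mema.1.le, hX.mema.2.le⟩ s hs h1 h'.symm
      rw [this.2] at hsb
      simp at hsb
      linarith
  obtain ⟨η₂, hη₂, -, hM2, -, hT2⟩ := m_CHT cc c0 v₀ O
    (Eventually.of_forall fun z => hccs.contDiffAt) (Eventually.of_forall fun t => hc0s.contDiffAt)
    hcceq hinj hOo (by rw [hc00]; exact hOa)
  set η := min η₀ η₂ with hη
  have hηpos : 0 < η := lt_min hη₀ hη₂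
  have hη0 : η ≤ η₀ := min_le_left _ _
  have hη2 : η ≤ η₂ := min_le_right _ _
  set ε := η / 40 with hε
  have hεpos : 0 < ε := by rw [hε]; linarith
  obtain ⟨κ₁, k1s, k1i, k1o, k1z⟩ := bump_L5 hη₀
  obtain ⟨κ₂, k2s, k2i, k2o, k2z⟩ := bump_L5 hεpos
  obtain ⟨δ, hδ, hXl⟩ := hXL D c u₀ q₀ a b κ₁ κ₂ (η₀ / 2) hH hX hI k1s k2s (by
    have h1 : ∀ᶠ t in 𝓝 (0 : ℝ), |t| < min (η₀ / 4) (ε / 4) := by
      have : Tendsto (fun t : ℝ => |t|) (𝓝 0) (𝓝 |0|) := continuous_abs.tendsto 0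
      rw [abs_zero] at this
      exact this.eventually_lt_const (lt_min (by linarith) (by linarith))
    filter_upwards [h1] with t ht
    exact ⟨k1o t (ht.le.trans (min_le_left _ _)), k2o t (ht.le.trans (min_le_right _ _))⟩)
    (by linarith) k1z
  -- the radius
  obtain ⟨r₀, hr₀, hr1, hr2, hr3, hr4, hr5, hr6⟩ : ∃ r₀ > 0, 2 * r₀ ≤ δ ∧ 20 * r₀ ≤ η ∧
      2 * r₀ ≤ u₀ ∧ 2 * r₀ ≤ 1 - u₀ ∧ 2 * r₀ ≤ q₀ ∧ 2 * r₀ ≤ 1 - q₀ := by
    have hu1 := hu0.1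
    have hu2 := hu0.2
    have hq1 := hq0.1
    have hq2 := hq0.2
    refine ⟨min (min (δ / 2) (η / 20)) (min (min (u₀ / 2) ((1 - u₀) / 2))
      (min (q₀ / 2) ((1 - q₀) / 2))), ?_, ?_, ?_, ?_, ?_, ?_, ?_⟩
    · refine lt_min (lt_min ?_ ?_) (lt_min (lt_min ?_ ?_) (lt_min ?_ ?_)) <;> linarith
    all_goals
      first
      | (have := (min_le_left (min (δ / 2) (η / 20)) (min (min (u₀ / 2) ((1 - u₀) / 2))
          (min (q₀ / 2) ((1 - q₀) / 2)))).trans (min_le_left _ _); linarith)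
      | (have := (min_le_left (min (δ / 2) (η / 20)) (min (min (u₀ / 2) ((1 - u₀) / 2))
          (min (q₀ / 2) ((1 - q₀) / 2)))).trans (min_le_right _ _); linarith)
      | (have := (min_le_right (min (δ / 2) (η / 20)) (min (min (u₀ / 2) ((1 - u₀) / 2))
          (min (q₀ / 2) ((1 - q₀) / 2)))).trans ((min_le_left _ _).trans (min_le_left _ _)); linarith)
      | (have := (min_le_right (min (δ / 2) (η / 20)) (min (min (u₀ / 2) ((1 - u₀) / 2))
          (min (q₀ / 2) ((1 - q₀) / 2)))).trans ((min_le_left _ _).trans (min_le_right _ _)); linarith)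
      | (have := (min_le_right (min (δ / 2) (η / 20)) (min (min (u₀ / 2) ((1 - u₀) / 2))
          (min (q₀ / 2) ((1 - q₀) / 2)))).trans ((min_le_right _ _).trans (min_le_left _ _)); linarith)
      | (have := (min_le_right (min (δ / 2) (η / 20)) (min (min (u₀ / 2) ((1 - u₀) / 2))
          (min (q₀ / 2) ((1 - q₀) / 2)))).trans ((min_le_right _ _).trans (min_le_right _ _)); linarith)
  refine ⟨r₀, hr₀, fun m hm hmr => ?_⟩
  have hmδ : ‖m‖ < δ := by linarith [norm_nonneg m]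
  have hvn : ∀ q, ‖vq_L5 m q‖ < 2 * r₀ := fun q => by
    have := norm_mulc_L5 m (2 * Real.pi * q)
    have h : ‖vq_L5 m q‖ ≤ 2 * ‖m‖ := this
    linarith
  have hvδ : ∀ q, ‖vq_L5 m q‖ < δ := fun q => (hvn q).trans_le hr1
  set x : ℝ → ℝ → ℝ → R4 := fun l q s => xl c u₀ q₀ a b κ₁ κ₂ l m (vq_L5 m q) s with hx
  set κ : ℝ → ℝ := fun s => κ₂ (ε * (s - 1 / 2)) with hκ
  -- explicit forms
  have hx1 : ∀ q s, x 1 q s = c (u₀, q₀, s) - κ₁ (s - b) • A (m + κ₂ (s - b) • (vq_L5 m q - m)) := by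
    intro q s
    simp only [hx, xl, lw_eq_L5, sub_self, zero_smul, zero_add, one_smul]
    rfl
  have hx10 : ∀ s, x 1 0 s = c (u₀, q₀, s) - κ₁ (s - b) • A m := by
    intro s
    rw [hx1, vq_zero_L5, sub_self, smul_zero, add_zero]
  have hxs : ContDiff ℝ ∞ (fun z : (ℝ × ℝ) × ℝ => x z.1.1 z.1.2 z.2) := by
    have p1 : ContDiff ℝ ∞ (fun z : (ℝ × ℝ) × ℝ => z.1.1) := contDiff_fst.comp contDiff_fst
    have p2 : ContDiff ℝ ∞ (fun z : (ℝ × ℝ) × ℝ => z.1.2) := contDiff_snd.comp contDiff_fst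
    have p3 : ContDiff ℝ ∞ (fun z : (ℝ × ℝ) × ℝ => z.2) := contDiff_snd
    have pv : ContDiff ℝ ∞ (fun z : (ℝ × ℝ) × ℝ => vq_L5 m z.1.2) := (vq_smooth_L5 m).comp p2
    have t1 : ContDiff ℝ ∞ (fun z : (ℝ × ℝ) × ℝ =>
        c (u₀ + (vq_L5 m z.1.2).1, q₀ + (vq_L5 m z.1.2).2, z.2)) :=
      hsm.comp ((contDiff_const.add (contDiff_fst.comp pv)).prodMk
        ((contDiff_const.add (contDiff_snd.comp pv)).prodMk p3))
    have t2 : ContDiff ℝ ∞ (fun z : (ℝ × ℝ) × ℝ => c (u₀, q₀, z.2)) :=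
      hsm.comp (contDiff_const.prodMk (contDiff_const.prodMk p3))
    have t3 : ContDiff ℝ ∞ (fun z : (ℝ × ℝ) × ℝ => κ₁ (z.2 - b)) :=
      k1s.comp (p3.sub contDiff_const)
    have t4 : ContDiff ℝ ∞ (fun z : (ℝ × ℝ) × ℝ => κ₂ (z.2 - b)) :=
      k2s.comp (p3.sub contDiff_const)
    have t5 : ContDiff ℝ ∞ (fun z : (ℝ × ℝ) × ℝ =>
        A (m + κ₂ (z.2 - b) • (vq_L5 m z.1.2 - m))) :=
      A.contDiff.comp (contDiff_const.add (t4.smul (pv.sub contDiff_const)))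
    have t6 := ((contDiff_const (c := (1 : ℝ))).sub p1).smul t1 |>.add (p1.smul (t2.sub (t3.smul t5)))
    refine (congrArg (ContDiff ℝ ∞) (funext fun z => ?_)).mpr t6
    simp only [hx, xl, lw_eq_L5]
    rfl
  have hfroz : ∀ l, ∀ q : ℝ, ∀ s, (s ≤ D.m₀ ∨ D.m₁ ≤ s) → x l q s = D.c s := by
    intro l q s hs
    have hv := hvn q
    have hv1 : |(vq_L5 m q).1| < 2 * r₀ := (norm_fst_le (vq_L5 m q)).trans_lt hv
    have hv2 : |(vq_L5 m q).2| < 2 * r₀ := (norm_snd_le (vq_L5 m q)).trans_lt hv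
    have hv1' := abs_lt.1 hv1
    have hv2' := abs_lt.1 hv2
    have e1 : c (u₀ + (vq_L5 m q).1, q₀ + (vq_L5 m q).2, s) = D.c s :=
      hH.froz _ ⟨by linarith, by linarith⟩ _ ⟨by linarith, by linarith⟩ s hs
    have e2 : c (u₀, q₀, s) = D.c s := hH.froz _ hu0' _ hq0' s hs
    have e3 : κ₁ (s - b) = 0 := by
      apply k1z
      rcases hs with hs | hs
      · rw [abs_of_neg (by linarith)]
        linarith
      · rw [abs_of_pos (by linarith)]
        linarith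
    simp only [hx, xl]
    rw [e1, e2, e3, zero_smul, sub_zero, ← add_smul]
    simp
  have hall : ∀ l ∈ Icc (0 : ℝ) 1, ∀ q ∈ Icc (0 : ℝ) 1,
      (∀ s, (s ≤ D.m₀ ∨ D.m₁ ≤ s) → x l q s = D.c s) ∧
      (∀ s ∈ Icc D.m₀ D.m₁, x l q s ∈ D.U) ∧ InjOn (x l q) (Icc D.s₀ D.s₁) ∧
      ∀ s ∈ Icc D.s₀ D.s₁, deriv (x l q) s ≠ 0 := by
    intro l hl q _
    obtain ⟨g1, g2, g3⟩ := hXl l hl m (vq_L5 m q) hmδ (hvδ q) (vq_ne_L5 hm q)
    exact ⟨hfroz l q, g3, g2, g1⟩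
  have hloop : ∀ l, x l 1 = x l 0 := by
    intro l
    simp only [hx, vq_zero_L5, vq_one_L5]
  have hmη : ‖m‖ < η / 20 := by linarith
  have hT2' := hT2 m ε ε hm (by linarith) hεpos (by rw [hε]; linarith) hεpos (by rw [hε]; linarith)
  have hT1' := hT1 m ε ε hm (by linarith) hεpos (by rw [hε]; linarith) hεpos (by rw [hε]; linarith)
  obtain ⟨V1, V2, V3, V4⟩ := m_CHV cc c0 v₀ m ε ε η₁ hm hεpos hεpos hcceq
  have hrange : ∀ s ∈ Icc (-1 : ℝ) 2, |ε * (s - 1 / 2)| ≤ η₀ / 20 := by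
    intro s hs
    rw [abs_mul, abs_of_pos hεpos]
    have : |s - 1 / 2| ≤ 3 / 2 := abs_le.2 ⟨by linarith [hs.1], by linarith [hs.2]⟩
    have h2 : ε * |s - 1 / 2| ≤ ε * (3 / 2) := mul_le_mul_of_nonneg_left this hεpos.le
    rw [hε] at h2 ⊢
    linarith
  have k1a : ∀ t, |t| ≤ η₀ → κ₁ (a + t - b) = 0 := by
    intro t ht
    apply k1z
    have := abs_le.1 ht
    rw [abs_of_neg (by linarith)]
    linarith
  refine ⟨ε, ε, κ, cht cc c0 v₀ m ε ε, x, hxs, hall, hloop, ?_, ?_⟩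
  · intro q s
    simp only [hx, xl, sub_zero, one_smul, zero_smul, add_zero]
    rfl
  · have h1mem : (1 : ℝ) ∈ Icc (0 : ℝ) 1 := ⟨zero_le_one, le_rfl⟩
    refine
      { smooth := ?_
        froz := fun q hq s hs => hfroz 1 q s hs
        inU := fun q hq => (hall 1 h1mem q hq).2.1
        imm := fun q hq => (hall 1 h1mem q hq).2.2.2
        inj := fun q hq => (hall 1 h1mem q hq).2.2.1
        loop := hloop 1
        εpos := hεpos
        νpos := hεpos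
        ha := by rw [hε]; linarith
        hab := by rw [hε]; linarith
        hb := by rw [hε]; linarith
        κs := k2s.comp (contDiff_const.mul (contDiff_id.sub contDiff_const))
        κ01 := fun s => k2i _
        κh := ?_
        κ0 := ?_
        emb := hT2'.1
        TU := fun p hp => (hM2 (hT2'.2 hp)).1
        c0 := ?_
        c1 := ?_
        cw := ?_
        only := ?_
        const := ?_ }
    · exact hxs.comp ((contDiff_const.prodMk contDiff_fst).prodMk contDiff_snd)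
    · simp only [hκ, sub_self, mul_zero]
      exact k2o 0 (by rw [abs_zero]; linarith)
    · intro s hs
      apply k2z
      rw [abs_mul, abs_of_pos hεpos]
      have : 1 / 2 ≤ |s - 1 / 2| := by
        rcases hs with hs | hs
        · rw [abs_of_neg (by linarith)]
          linarith
        · rw [abs_of_pos (by linarith)]
          linarith
      nlinarith
    · intro s hs
      rw [V1, hx10, k1a _ ((hrange s hs).trans (by linarith)), zero_smul, sub_zero]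
      rfl
    · intro s hs
      rw [V2, hx10, show b + ε * (s - 1 / 2) - b = ε * (s - 1 / 2) by ring,
        k1o _ ((hrange s hs).trans (by linarith)), one_smul]
      simp only [hcc, cc_L5, hv₀, add_sub_cancel_left]
      rfl
    · intro q _ s hs
      rw [V3, hx1, show b + ε * (s - 1 / 2) - b = ε * (s - 1 / 2) by ring,
        k1o _ ((hrange s hs).trans (by linarith)), one_smul]
      have e : v₀ + m + κ s • (circ v₀ m q - (v₀ + m)) - (u₀, q₀) =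
          m + κ₂ (ε * (s - 1 / 2)) • (vq_L5 m q - m) := by
        have e1 : circ v₀ m q - (v₀ + m) = vq_L5 m q - m := by
          simp only [circ, vq_L5]
          abel
        rw [e1, ← hv₀]
        simp only [hκ]
        abel
      simp only [hcc, cc_L5, e]
      rfl
    · intro p hp s hs hps
      by_cases h1 : |s - a| ≤ η₀
      · left
        have hk : κ₁ (s - b) = 0 := by
          have := k1a (s - a) h1
          rwa [show a + (s - a) - b = s - b by ring] at this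
        rw [hx10, hk, zero_smul, sub_zero] at hps
        have hps' : cht cc c0 v₀ m ε ε p = c0 (s - a) := by
          rw [hps]
          simp [hc0, c0_L5]
        obtain ⟨g1, g2⟩ := (V4 hI1 hT1'.2 p hp).1 (s - a) (h1.trans h01) hη₁.le hps'
        exact ⟨congrArg Prod.snd g1, by linarith⟩
      · by_cases h2 : |s - b| ≤ η₀
        · right
          set β := s - b with hβ
          have hz : ((v₀ + κ₁ β • m, β, 0) : (ℝ × ℝ) × ℝ × ℝ) ∈ box v₀ η₁ := by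
            have e : ((v₀ + κ₁ β • m, β, 0) : (ℝ × ℝ) × ℝ × ℝ) - (v₀, 0, 0) =
                ((κ₁ β • m, β, 0) : (ℝ × ℝ) × ℝ × ℝ) := by simp
            change ‖((v₀ + κ₁ β • m, β, 0) : (ℝ × ℝ) × ℝ × ℝ) - (v₀, 0, 0)‖ ≤ η₁
            rw [e, Prod.norm_def]
            refine max_le ?_ ?_
            · change ‖κ₁ β • m‖ ≤ η₁
              rw [norm_smul, Real.norm_eq_abs, abs_of_nonneg (k1i β).1]
              have := (k1i β).2
              nlinarith [norm_nonneg m, (k1i β).1]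
            · rw [Prod.norm_def]
              refine max_le ?_ ?_
              · exact h2.trans h01
              · simp only [norm_zero]
                exact hη₁.le
          have hy : yc cc c0 (lam v₀ m ε ε p) = yc cc c0 (v₀ + κ₁ β • m, β, 0) := by
            change cht cc c0 v₀ m ε ε p = _
            rw [hps, hx10]
            simp only [yc, sub_self, add_zero, hcc, cc_L5, hv₀, add_sub_cancel_left, map_smul]
            rw [show b + β = s by rw [hβ]; ring]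
          have hl := hI1 (hT1'.2 hp) hz hy
          have l1 : v₀ + mulc m (p.2.1, p.2.2.im) = v₀ + κ₁ β • m := congrArg Prod.fst hl
          have l2 : ε * ((p.1 - 1 / 2) * p.2.1 + p.2.2.re) = β :=
            congrArg (fun z : (ℝ × ℝ) × ℝ × ℝ => z.2.1) hl
          have l3 : ε * ((p.1 - 1 / 2) * (1 - p.2.1) - p.2.2.re) = 0 :=
            congrArg (fun z : (ℝ × ℝ) × ℝ × ℝ => z.2.2) hl
          have l1' : mulc m ((p.2.1, p.2.2.im) - (κ₁ β, 0)) = 0 := by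
            rw [mulc_sub_L5, mulc_one_L5, add_left_cancel l1, sub_self]
          have l4 := mulc_inj_L5 hm l1'
          have ha' : p.2.1 = κ₁ β := sub_eq_zero.1 (congrArg Prod.fst l4)
          have hh : p.2.2.im = 0 := by
            have : p.2.2.im - 0 = 0 := congrArg Prod.snd l4
            linarith
          have hX' : p.2.2.re = (p.1 - 1 / 2) * (1 - p.2.1) := by
            have := (mul_eq_zero.1 l3).resolve_left hεpos.ne'
            linarith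
          have hβ' : β = ε * (p.1 - 1 / 2) := by
            rw [← l2, hX']
            ring
          have hκ1 : κ₁ β = 1 := by
            apply k1o
            rw [hβ']
            exact (hrange p.1 ⟨hp.1, hp.2.1⟩).trans (by linarith)
          rw [hκ1] at ha'
          have hX0 : p.2.2.re = 0 := by rw [hX', ha']; ring
          refine ⟨Prod.ext ?_ (Complex.ext ?_ ?_), by linarith⟩
          · simpa [e1] using ha'
          · simpa [e1] using hX0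
          · simpa [e1] using hh
        · exfalso
          have hO' := (hM2 (hT2'.2 hp)).2
          apply hO'
          refine ⟨s, ⟨hs, (not_le.1 h1).le, (not_le.1 h2).le⟩, ?_⟩
          have hk : κ₁ (s - b) = 0 := k1z _ (by linarith [not_le.1 h2])
          rw [hx10, hk, zero_smul, sub_zero] at hps
          exact hps.symm
    · intro q _ s hs
      have hk : κ₂ (s - b) = 0 := by
        apply k2z
        rcases hs with hs | hs
        · rw [abs_of_neg (by linarith)]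
          linarith
        · rw [abs_of_pos (by linarith)]
          linarith
      rw [hx10, hx1, hk, zero_smul, add_zero]

end Pool.Agent.Helper34.BI.H


end
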