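import Pool.Agent.Helper65.Barb.Defs
import Pool.Agent.Helper70.BI.B.P18

/-!
# Project BI (MP_8e98f2_gt): collected modules, part 33

The contents of the modules
* Helper70.BI.M_PT
* Helper27.BI.H.M_CUM

in one file, so that the whole proof builds in a short time.
-/

/-! ## Helper70.BI.M_PT -/

section

/-!
# Project BI, module PT: perturbation of the identity of a finite dimensional space
-/

set_option autoImplicit false

open scoped Manifold ContDiff Topology ComplexConjugate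
open Set Filter Pool.Agent.Helper65.Barb Pool.Agent.Helper18.BI

namespace Pool.Agent.Helper70.BI

namespace PT

variable {E : Type} [NormedAddCommGroup E] [NormedSpace ℝ E]

/-- the level preserving map -/
def mp (g : ℝ × E → E) (p : ℝ × E) : ℝ × E := (p.1, p.2 + g p)

theorem exists_pre [FiniteDimensional ℝ E] (g : ℝ × E → E)
    (hg : ∀ t x y, ‖g (t, x) - g (t, y)‖ ≤ 1 / 2 * ‖x - y‖) (t : ℝ) (y : E) :
    ∃ x : E, x + g (t, x) = y := by
  haveI : CompleteSpace E := FiniteDimensional.complete ℝ E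
  have hl : LipschitzWith (1 / 2) (fun x : E => y - g (t, x)) := by
    refine LipschitzWith.of_dist_le_mul fun a b => ?_
    rw [dist_eq_norm, dist_eq_norm]
    have e : y - g (t, a) - (y - g (t, b)) = g (t, b) - g (t, a) := by abel
    rw [e]
    have := hg t b a
    rw [norm_sub_rev b a] at this
    simpa using this
  have hc : ContractingWith (1 / 2) (fun x : E => y - g (t, x)) := ⟨by norm_num, hl⟩
  refine ⟨hc.fixedPoint, ?_⟩
  have h := hc.fixedPoint_isFixedPt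
  have h2 : y - g (t, hc.fixedPoint) = hc.fixedPoint := h
  calc hc.fixedPoint + g (t, hc.fixedPoint) =
      (y - g (t, hc.fixedPoint)) + g (t, hc.fixedPoint) := by rw [h2]
    _ = y := by abel

theorem key (g : ℝ × E → E)
    (hg : ∀ t x y, ‖g (t, x) - g (t, y)‖ ≤ 1 / 2 * ‖x - y‖) (t : ℝ) (x x' : E) :
    ‖x - x'‖ ≤ 2 * ‖(x + g (t, x)) - (x' + g (t, x'))‖ := by
  have h1 := hg t x x'
  have h2 : ‖x - x'‖ ≤ ‖(x + g (t, x)) - (x' + g (t, x'))‖ + ‖g (t, x) - g (t, x')‖ := by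
    have e : x - x' = ((x + g (t, x)) - (x' + g (t, x'))) - (g (t, x) - g (t, x')) := by abel
    calc ‖x - x'‖ = ‖((x + g (t, x)) - (x' + g (t, x'))) - (g (t, x) - g (t, x'))‖ := by rw [← e]
      _ ≤ _ := norm_sub_le _ _
  linarith

/-- the inverse -/
noncomputable def iv [FiniteDimensional ℝ E] (g : ℝ × E → E)
    (hg : ∀ t x y, ‖g (t, x) - g (t, y)‖ ≤ 1 / 2 * ‖x - y‖) (q : ℝ × E) : E :=
  (exists_pre g hg q.1 q.2).choose

theorem iv_spec [FiniteDimensional ℝ E] (g : ℝ × E → E)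
    (hg : ∀ t x y, ‖g (t, x) - g (t, y)‖ ≤ 1 / 2 * ‖x - y‖) (q : ℝ × E) :
    iv g hg q + g (q.1, iv g hg q) = q.2 :=
  (exists_pre g hg q.1 q.2).choose_spec

theorem iv_mp [FiniteDimensional ℝ E] (g : ℝ × E → E)
    (hg : ∀ t x y, ‖g (t, x) - g (t, y)‖ ≤ 1 / 2 * ‖x - y‖) (p : ℝ × E) :
    iv g hg (mp g p) = p.2 := by
  have h := iv_spec g hg (mp g p)
  have h2 := key g hg p.1 (iv g hg (mp g p)) p.2
  have h3 : iv g hg (mp g p) + g (p.1, iv g hg (mp g p)) = p.2 + g (p.1, p.2) := h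
  rw [h3, sub_self, norm_zero, mul_zero] at h2
  exact sub_eq_zero.1 (norm_le_zero_iff.1 h2)

theorem iv_cont [FiniteDimensional ℝ E] (g : ℝ × E → E) (hc : Continuous g)
    (hg : ∀ t x y, ‖g (t, x) - g (t, y)‖ ≤ 1 / 2 * ‖x - y‖) : Continuous (iv g hg) := by
  rw [continuous_iff_continuousAt]
  intro q₀
  set x₀ := iv g hg q₀ with hx₀
  have h0 : x₀ + g (q₀.1, x₀) = q₀.2 := iv_spec g hg q₀
  have h1 : ∀ q, ‖iv g hg q - x₀‖ ≤ 2 * ‖q.2 - (x₀ + g (q.1, x₀))‖ := by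
    intro q
    have := key g hg q.1 (iv g hg q) x₀
    rwa [iv_spec g hg q] at this
  have h2 : Filter.Tendsto (fun q : ℝ × E => 2 * ‖q.2 - (x₀ + g (q.1, x₀))‖) (𝓝 q₀)
      (𝓝 0) := by
    have hcont : Continuous (fun q : ℝ × E => 2 * ‖q.2 - (x₀ + g (q.1, x₀))‖) := by
      fun_prop
    have h3 := hcont.tendsto q₀
    rw [h0, sub_self, norm_zero, mul_zero] at h3
    exact h3
  rw [ContinuousAt, tendsto_iff_norm_sub_tendsto_zero]
  exact squeeze_zero (fun _ => norm_nonneg _) h1 h2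

/-- the homeomorphism -/
noncomputable def hm [FiniteDimensional ℝ E] (g : ℝ × E → E) (hc : Continuous g)
    (hg : ∀ t x y, ‖g (t, x) - g (t, y)‖ ≤ 1 / 2 * ‖x - y‖) :
    (ℝ × E) ≃ₜ (ℝ × E) where
  toFun := mp g
  invFun q := (q.1, iv g hg q)
  left_inv p := by
    show (p.1, iv g hg (mp g p)) = p
    rw [iv_mp]
  right_inv q := by
    show (q.1, iv g hg q + g (q.1, iv g hg q)) = q
    rw [iv_spec]
  continuous_toFun := by
    unfold mp
    fun_prop
  continuous_invFun := by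
    have := iv_cont g hc hg
    fun_prop

theorem fderiv_small (g : ℝ × E → E) (hs : ContDiff ℝ ∞ g)
    (hg : ∀ t x y, ‖g (t, x) - g (t, y)‖ ≤ 1 / 2 * ‖x - y‖) (p : ℝ × E) (ξ : E) :
    ‖fderiv ℝ g p (0, ξ)‖ ≤ 1 / 2 * ‖ξ‖ := by
  have h1 : HasFDerivAt g (fderiv ℝ g p) p :=
    (hs.differentiable (by simp) p).hasFDerivAt
  let e : E →L[ℝ] ℝ × E := ContinuousLinearMap.inr ℝ ℝ E
  have h2 : HasFDerivAt (fun x : E => ((p.1, x) : ℝ × E)) e p.2 := by
    have h3 : HasFDerivAt (fun x : E => e x + ((p.1, 0) : ℝ × E)) e p.2 :=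
      e.hasFDerivAt.add_const _
    refine h3.congr_of_eventuallyEq (Filter.Eventually.of_forall fun x => ?_)
    show ((p.1, x) : ℝ × E) = (0, x) + (p.1, 0)
    simp
  have h4 : HasFDerivAt (fun x : E => g (p.1, x)) ((fderiv ℝ g p).comp e) p.2 := by
    exact HasFDerivAt.comp p.2 h1 h2
  have hl : LipschitzWith (1 / 2) (fun x : E => g (p.1, x)) := by
    refine LipschitzWith.of_dist_le_mul fun a b => ?_
    rw [dist_eq_norm, dist_eq_norm]
    simpa using hg p.1 a b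
  have h5 := h4.le_of_lipschitz hl
  have h6 := ContinuousLinearMap.le_opNorm ((fderiv ℝ g p).comp e) ξ
  have h7 : ((fderiv ℝ g p).comp e) ξ = fderiv ℝ g p (0, ξ) := rfl
  rw [h7] at h6
  refine h6.trans (mul_le_mul_of_nonneg_right ?_ (norm_nonneg _))
  simpa using h5

theorem exists_equiv [FiniteDimensional ℝ E] (g : ℝ × E → E) (hs : ContDiff ℝ ∞ g)
    (hg : ∀ t x y, ‖g (t, x) - g (t, y)‖ ≤ 1 / 2 * ‖x - y‖) (p : ℝ × E) :
    ∃ L : (ℝ × E) ≃L[ℝ] (ℝ × E), HasFDerivAt (mp g) (L : (ℝ × E) →L[ℝ] (ℝ × E)) p := by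
  have h1 : HasFDerivAt g (fderiv ℝ g p) p :=
    (hs.differentiable (by simp) p).hasFDerivAt
  let A : (ℝ × E) →L[ℝ] E := ContinuousLinearMap.snd ℝ ℝ E + fderiv ℝ g p
  let D : (ℝ × E) →L[ℝ] (ℝ × E) := (ContinuousLinearMap.fst ℝ ℝ E).prod A
  have hD : HasFDerivAt (mp g) D p := by
    have a1 : HasFDerivAt (fun q : ℝ × E => q.1) (ContinuousLinearMap.fst ℝ ℝ E) p :=
      (ContinuousLinearMap.fst ℝ ℝ E).hasFDerivAt
    have a3 : HasFDerivAt (fun q : ℝ × E => q.2) (ContinuousLinearMap.snd ℝ ℝ E) p :=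
      (ContinuousLinearMap.snd ℝ ℝ E).hasFDerivAt
    exact a1.prodMk (a3.add h1)
  have hinj : Function.Injective D := by
    rw [injective_iff_map_eq_zero]
    rintro ⟨τ, ξ⟩ h
    have b1 : τ = 0 := congrArg Prod.fst h
    have b3 : ξ + fderiv ℝ g p (τ, ξ) = 0 := congrArg Prod.snd h
    subst b1
    have b4 := fderiv_small g hs hg p ξ
    have b5 : fderiv ℝ g p (0, ξ) = -ξ := by
      rw [← add_eq_zero_iff_eq_neg']
      exact b3
    rw [b5, norm_neg] at b4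
    have b6 : ‖ξ‖ ≤ 0 := by linarith [norm_nonneg ξ]
    rw [norm_le_zero_iff.1 b6]
    rfl
  refine ⟨(LinearEquiv.ofInjectiveEndo (D : (ℝ × E) →ₗ[ℝ] (ℝ × E)) hinj).toContinuousLinearEquiv, ?_⟩
  have hcoe : ((LinearEquiv.ofInjectiveEndo (D : (ℝ × E) →ₗ[ℝ] (ℝ × E))
      hinj).toContinuousLinearEquiv : (ℝ × E) →L[ℝ] (ℝ × E)) = D := by
    refine ContinuousLinearMap.ext fun v => ?_
    rfl
  rw [hcoe]
  exact hD

end PT

open PT in
theorem m_PT : StPT := by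
  intro E _ _ _ g hs hg
  haveI : CompleteSpace E := FiniteDimensional.complete ℝ E
  have hc := hs.continuous
  choose L hL using exists_equiv g hs hg
  have hmp : ContDiff ℝ ∞ (mp g) := by
    unfold mp
    fun_prop
  have hinv : ContDiff ℝ ∞ (hm g hc hg).symm :=
    (hm g hc hg).contDiff_symm (f₀' := L) hL hmp
  refine ⟨⟨fun p => p.2 + g p, fun q => iv g hg q, ?_, ?_, ?_, ?_⟩, ?_⟩
  · have h : ContDiff ℝ ∞ (fun p : ℝ × E => (p.2 + g p : E)) := by fun_prop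
    have := h.contMDiff
    rwa [modelWithCornersSelf_prod, ← chartedSpaceSelf_prod] at this
  · have h : ContDiff ℝ ∞ (fun q : ℝ × E => (iv g hg q : E)) := hinv.snd
    have := h.contMDiff
    rwa [modelWithCornersSelf_prod, ← chartedSpaceSelf_prod] at this
  · intro t x
    show iv g hg (t, x) + g (t, iv g hg (t, x)) = x
    exact iv_spec g hg (t, x)
  · intro t x
    show iv g hg (mp g (t, x)) = x
    rw [iv_mp]
  · intro t x
    rfl

end Pool.Agent.Helper70.BI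


end

/-! ## Helper27.BI.H.M_CUM -/

section

/-!
# Project BI, stage 3 (H), part 6: module CUM, the cusp family in the model
-/

set_option autoImplicit false
set_option linter.unusedSectionVars false

open scoped Manifold ContDiff Topology ComplexConjugate
open Set Filter Pool.Agent.Helper65.Barb Pool.Agent.Helper18.BI
open Pool.Agent.Helper70.BI (I4)

namespace Pool.Agent.Helper27.H

namespace CUM

/-! ### one variable functions -/

theorem st0 {x : ℝ} (h : x ≤ 0) : step x = 0 := Real.smoothTransition.zero_of_nonpos h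

theorem st1 {x : ℝ} (h : 1 ≤ x) : step x = 1 := Real.smoothTransition.one_of_one_le h

theorem stn (x : ℝ) : 0 ≤ step x := Real.smoothTransition.nonneg x

theorem stl (x : ℝ) : step x ≤ 1 := Real.smoothTransition.le_one x

theorem sts : ContDiff ℝ ∞ step := Real.smoothTransition.contDiff

theorem std (x : ℝ) : 0 ≤ deriv step x :=
  Monotone.deriv_nonneg (fun _ _ h => Real.smoothTransition.monotone h)

noncomputable def T (σ : ℝ) : ℝ := step ((16 * σ ^ 2 - 1) / 15)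
noncomputable def ch (σ : ℝ) : ℝ := step (2 - 16 * σ ^ 2)
noncomputable def p (σ : ℝ) : ℝ := σ ^ 3 + T σ * (σ - σ ^ 3)
noncomputable def g (σ : ℝ) : ℝ := ch σ * σ
noncomputable def h (σ : ℝ) : ℝ := ch σ * σ ^ 2

theorem T_s : ContDiff ℝ ∞ T := sts.comp (by fun_prop)
theorem ch_s : ContDiff ℝ ∞ ch := sts.comp (by fun_prop)
theorem p_s : ContDiff ℝ ∞ p := by
  have := T_s
  unfold p
  fun_prop
theorem g_s : ContDiff ℝ ∞ g := by
  have := ch_s
  unfold g
  fun_prop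
theorem h_s : ContDiff ℝ ∞ h := by
  have := ch_s
  unfold h
  fun_prop

theorem sq_lo {σ : ℝ} (hs : |σ| ≤ 1 / 4) : σ ^ 2 ≤ 1 / 16 := by
  have := sq_abs σ
  nlinarith [abs_nonneg σ]

theorem sq_hi {σ c : ℝ} (hc : 0 ≤ c) (hs : c ≤ |σ|) : c ^ 2 ≤ σ ^ 2 := by
  have := sq_abs σ
  nlinarith [abs_nonneg σ]

theorem T_lo {σ : ℝ} (hs : |σ| ≤ 1 / 4) : T σ = 0 :=
  st0 (by have := sq_lo hs; linarith)

theorem T_hi {σ : ℝ} (hs : 1 ≤ |σ|) : T σ = 1 :=
  st1 (by have := sq_hi zero_le_one hs; linarith)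

theorem ch_lo {σ : ℝ} (hs : |σ| ≤ 1 / 4) : ch σ = 1 :=
  st1 (by have := sq_lo hs; linarith)

theorem ch_hi {σ : ℝ} (hs : 1 ≤ |σ|) : ch σ = 0 :=
  st0 (by have := sq_hi zero_le_one hs; linarith)

theorem p_lo {σ : ℝ} (hs : |σ| ≤ 1 / 4) : p σ = σ ^ 3 := by
  unfold p; rw [T_lo hs]; ring
theorem p_hi {σ : ℝ} (hs : 1 ≤ |σ|) : p σ = σ := by
  unfold p; rw [T_hi hs]; ring
theorem g_lo {σ : ℝ} (hs : |σ| ≤ 1 / 4) : g σ = σ := by
  unfold g; rw [ch_lo hs]; ring
theorem g_hi {σ : ℝ} (hs : 1 ≤ |σ|) : g σ = 0 := by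
  unfold g; rw [ch_hi hs]; ring
theorem h_lo {σ : ℝ} (hs : |σ| ≤ 1 / 4) : h σ = σ ^ 2 := by
  unfold h; rw [ch_lo hs]; ring
theorem h_hi {σ : ℝ} (hs : 1 ≤ |σ|) : h σ = 0 := by
  unfold h; rw [ch_hi hs]; ring

theorem ev_lo {σ : ℝ} (hs : |σ| < 1 / 4) : ∀ᶠ t in 𝓝 σ, |t| ≤ 1 / 4 := by
  have h1 : IsOpen {t : ℝ | |t| < 1 / 4} := isOpen_lt continuous_abs continuous_const
  filter_upwards [h1.mem_nhds hs] with t ht
  exact le_of_lt ht

theorem ev_hi {σ : ℝ} (hs : 1 < |σ|) : ∀ᶠ t in 𝓝 σ, 1 ≤ |t| := by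
  have h1 : IsOpen {t : ℝ | 1 < |t|} := isOpen_lt continuous_const continuous_abs
  filter_upwards [h1.mem_nhds hs] with t ht
  exact le_of_lt ht

theorem dp_lo {σ : ℝ} (hs : |σ| < 1 / 4) : deriv p σ = 3 * σ ^ 2 := by
  have e : p =ᶠ[𝓝 σ] fun t => t ^ 3 := by
    filter_upwards [ev_lo hs] with t ht
    exact p_lo ht
  rw [e.deriv_eq]
  simp

theorem dg_lo {σ : ℝ} (hs : |σ| < 1 / 4) : deriv g σ = 1 := by
  have e : g =ᶠ[𝓝 σ] fun t => t := by
    filter_upwards [ev_lo hs] with t ht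
    exact g_lo ht
  rw [e.deriv_eq]
  simp

theorem dh_lo {σ : ℝ} (hs : |σ| < 1 / 4) : deriv h σ = 2 * σ := by
  have e : h =ᶠ[𝓝 σ] fun t => t ^ 2 := by
    filter_upwards [ev_lo hs] with t ht
    exact h_lo ht
  rw [e.deriv_eq]
  simp

theorem dp_ge {σ : ℝ} (hs : 1 / 4 ≤ |σ|) : 3 / 16 ≤ deriv p σ := by
  rcases lt_or_ge 1 |σ| with h1 | h1
  · have e : p =ᶠ[𝓝 σ] fun t => t := by
      filter_upwards [ev_hi h1] with t ht
      exact p_hi ht
    rw [e.deriv_eq]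
    simp
    norm_num
  · have hq1 : σ ^ 2 ≤ 1 := by
      have := sq_abs σ
      nlinarith [abs_nonneg σ]
    have hq2 := sq_hi (by norm_num : (0 : ℝ) ≤ 1 / 4) hs
    have d1 : HasDerivAt (fun σ : ℝ => (16 * σ ^ 2 - 1) / 15) (32 * σ / 15) σ := by
      have := ((((hasDerivAt_pow 2 σ).const_mul 16).sub_const 1).div_const 15)
      refine this.congr_deriv ?_
      simp
      ring
    have d2 : HasDerivAt step (deriv step ((16 * σ ^ 2 - 1) / 15)) ((16 * σ ^ 2 - 1) / 15) :=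
      (sts.differentiable (by simp) _).hasDerivAt
    have d3 : HasDerivAt T (deriv step ((16 * σ ^ 2 - 1) / 15) * (32 * σ / 15)) σ :=
      d2.comp σ d1
    have d4 : HasDerivAt (fun σ : ℝ => σ - σ ^ 3) (1 - 3 * σ ^ 2) σ := by
      refine ((hasDerivAt_id σ).sub (hasDerivAt_pow 3 σ)).congr_deriv ?_
      simp
    have d5 : HasDerivAt p (3 * σ ^ 2 + (deriv step ((16 * σ ^ 2 - 1) / 15) * (32 * σ / 15) *
        (σ - σ ^ 3) + T σ * (1 - 3 * σ ^ 2))) σ := by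
      refine ((hasDerivAt_pow 3 σ).add (d3.mul d4)).congr_deriv ?_
      simp
    rw [d5.deriv]
    have k1 : 0 ≤ deriv step ((16 * σ ^ 2 - 1) / 15) * (32 * σ / 15) * (σ - σ ^ 3) := by
      have e : deriv step ((16 * σ ^ 2 - 1) / 15) * (32 * σ / 15) * (σ - σ ^ 3) =
          deriv step ((16 * σ ^ 2 - 1) / 15) * (32 / 15 * (σ ^ 2 * (1 - σ ^ 2))) := by ring
      rw [e]
      exact mul_nonneg (std _) (mul_nonneg (by norm_num) (mul_nonneg (sq_nonneg _) (by linarith)))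
    have k2 : 0 ≤ T σ := stn _
    have k3 : T σ ≤ 1 := stl _
    nlinarith [mul_nonneg (sub_nonneg.2 k3) (by linarith : 0 ≤ 3 * σ ^ 2 - 3 / 16)]

theorem dg_bound : ∃ C : ℝ, 1 ≤ C ∧ ∀ σ, |deriv g σ| ≤ C := by
  have hc : HasCompactSupport g := by
    refine HasCompactSupport.of_support_subset_isCompact (isCompact_Icc (a := (-1 : ℝ)) (b := 1)) ?_
    intro σ hσ
    by_contra hcon
    apply hσ
    apply g_hi
    by_contra h2
    push Not at h2
    exact hcon (abs_le.1 h2.le)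
  have hd : Continuous (deriv g) := g_s.continuous_deriv (by simp)
  obtain ⟨C, hC⟩ := hc.deriv.exists_bound_of_continuous hd
  refine ⟨max C 1, le_max_right _ _, fun σ => ?_⟩
  exact (hC σ).trans (le_max_left _ _)

/-! ### the curves -/

/-- the first coordinate -/
noncomputable def F (l a σ : ℝ) : ℝ := (1 - l) * σ + l * (p σ - 3 * a * g σ)

theorem hasDerivAt_F (l a σ : ℝ) :
    HasDerivAt (F l a) ((1 - l) + l * (deriv p σ - 3 * a * deriv g σ)) σ := by
  have d1 : HasDerivAt p (deriv p σ) σ := (p_s.differentiable (by simp) _).hasDerivAt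
  have d2 : HasDerivAt g (deriv g σ) σ := (g_s.differentiable (by simp) _).hasDerivAt
  refine (((hasDerivAt_id σ).const_mul (1 - l)).add
    ((d1.sub (d2.const_mul (3 * a))).const_mul l)).congr_deriv ?_
  simp

section
variable {a₀ C : ℝ} (hC : ∀ σ, |deriv g σ| ≤ C) (hC1 : 1 ≤ C) (ha₀ : 0 < a₀)
  (haC : 3 * a₀ * C ≤ 1 / 400)
include hC hC1 ha₀ haC

theorem dF_out {l a σ : ℝ} (l0 : 0 ≤ l) (l1 : l ≤ 1) (ha : |a| ≤ a₀) (hs : 1 / 4 ≤ |σ|) :
    0 < (1 - l) + l * (deriv p σ - 3 * a * deriv g σ) := by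
  have h1 := dp_ge hs
  have h2 : |3 * a * deriv g σ| ≤ 1 / 400 := by
    rw [abs_mul, abs_mul, abs_of_pos (by norm_num : (0 : ℝ) < 3)]
    calc 3 * |a| * |deriv g σ| ≤ 3 * a₀ * C :=
          mul_le_mul (by linarith) (hC σ) (abs_nonneg _) (by linarith)
      _ ≤ _ := haC
  have h3 := (abs_le.1 h2).2
  nlinarith

theorem dF_neg {l σ : ℝ} (l0 : 0 ≤ l) (l1 : l ≤ 1) :
    0 < (1 - l) + l * (deriv p σ - 3 * (-a₀) * deriv g σ) := by
  rcases le_or_gt (1 / 4) |σ| with hs | hs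
  · exact dF_out hC hC1 ha₀ haC l0 l1 (by rw [abs_neg, abs_of_pos ha₀]) hs
  · rw [dp_lo hs, dg_lo hs]
    have : 0 < 3 * σ ^ 2 - 3 * -a₀ * 1 := by nlinarith [sq_nonneg σ]
    rcases eq_or_lt_of_le l0 with h | h
    · rw [← h]; norm_num
    · nlinarith [mul_pos h this]

theorem F_mono_neg {l : ℝ} (l0 : 0 ≤ l) (l1 : l ≤ 1) : StrictMono (F l (-a₀)) :=
  strictMono_of_deriv_pos fun σ => by
    rw [(hasDerivAt_F l (-a₀) σ).deriv]
    exact dF_neg hC hC1 ha₀ haC l0 l1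

theorem F_mono_right {a : ℝ} (ha : |a| ≤ a₀) : StrictMonoOn (F 1 a) (Ici (1 / 4)) := by
  refine strictMonoOn_of_deriv_pos (convex_Ici _)
    (fun σ _ => (hasDerivAt_F 1 a σ).continuousAt.continuousWithinAt) fun σ hσ => ?_
  rw [interior_Ici] at hσ
  rw [(hasDerivAt_F 1 a σ).deriv]
  exact dF_out hC hC1 ha₀ haC zero_le_one le_rfl ha ((le_of_lt hσ).trans (le_abs_self σ))

theorem F_mono_left {a : ℝ} (ha : |a| ≤ a₀) : StrictMonoOn (F 1 a) (Iic (-(1 / 4))) := by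
  refine strictMonoOn_of_deriv_pos (convex_Iic _)
    (fun σ _ => (hasDerivAt_F 1 a σ).continuousAt.continuousWithinAt) fun σ hσ => ?_
  rw [interior_Iic] at hσ
  rw [(hasDerivAt_F 1 a σ).deriv]
  refine dF_out hC hC1 ha₀ haC zero_le_one le_rfl ha ?_
  have : σ < -(1 / 4) := hσ
  rw [abs_of_neg (by linarith)]
  linarith

theorem F_mid {a σ : ℝ} (hs : |σ| ≤ 1 / 4) : F 1 a σ = σ ^ 3 - 3 * a * σ := by
  unfold F
  rw [p_lo hs, g_lo hs]
  ring

theorem F_le {a σ : ℝ} (ha : |a| ≤ a₀) (hs : σ ≤ 1 / 4) : F 1 a σ ≤ F 1 a (1 / 4) := by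
  have ha' : a₀ ≤ 1 / 1200 := by nlinarith
  have haa := abs_le.1 ha
  have q1 : |(1 / 4 : ℝ)| ≤ 1 / 4 := by rw [abs_of_pos (by norm_num)]
  have q2 : |(-(1 / 4) : ℝ)| ≤ 1 / 4 := by rw [abs_neg]; exact q1
  have key : ∀ s : ℝ, |s| ≤ 1 / 4 → F 1 a s ≤ F 1 a (1 / 4) := by
    intro s hs
    rw [F_mid hC hC1 ha₀ haC hs, F_mid hC hC1 ha₀ haC q1]
    obtain ⟨s1, s2⟩ := abs_le.1 hs
    have : 0 ≤ (1 / 4 - s) * ((1 / 4) ^ 2 + s / 4 + s ^ 2 - 3 * a) := by
      apply mul_nonneg (by linarith)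
      nlinarith [sq_nonneg (s + 1 / 8)]
    nlinarith
  rcases le_or_gt (-(1 / 4)) σ with h1 | h1
  · exact key σ (abs_le.2 ⟨h1, hs⟩)
  · have h2 := F_mono_left hC hC1 ha₀ haC ha (mem_Iic.2 h1.le) (mem_Iic.2 le_rfl) h1
    exact h2.le.trans (key _ q2)

theorem F_ge {a σ : ℝ} (ha : |a| ≤ a₀) (hs : -(1 / 4) ≤ σ) : F 1 a (-(1 / 4)) ≤ F 1 a σ := by
  have ha' : a₀ ≤ 1 / 1200 := by nlinarith
  have haa := abs_le.1 ha
  have q1 : |(1 / 4 : ℝ)| ≤ 1 / 4 := by rw [abs_of_pos (by norm_num)]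
  have q2 : |(-(1 / 4) : ℝ)| ≤ 1 / 4 := by rw [abs_neg]; exact q1
  have key : ∀ s : ℝ, |s| ≤ 1 / 4 → F 1 a (-(1 / 4)) ≤ F 1 a s := by
    intro s hs
    rw [F_mid hC hC1 ha₀ haC hs, F_mid hC hC1 ha₀ haC q2]
    obtain ⟨s1, s2⟩ := abs_le.1 hs
    have : 0 ≤ (1 / 4 + s) * ((1 / 4) ^ 2 - s / 4 + s ^ 2 - 3 * a) := by
      apply mul_nonneg (by linarith)
      nlinarith [sq_nonneg (s - 1 / 8)]
    nlinarith
  rcases le_or_gt σ (1 / 4) with h1 | h1
  · exact key σ (abs_le.2 ⟨hs, h1⟩)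
  · have h2 := F_mono_right hC hC1 ha₀ haC ha (mem_Ici.2 le_rfl) (mem_Ici.2 h1.le) h1
    exact (key _ q1).trans h2.le

/-- double points are in the middle part -/
theorem F_double {a σ τ : ℝ} (ha : |a| ≤ a₀) (hlt : σ < τ) (he : F 1 a σ = F 1 a τ) :
    |σ| ≤ 1 / 4 ∧ |τ| ≤ 1 / 4 := by
  have h1 : τ ≤ 1 / 4 := by
    by_contra hcon
    push Not at hcon
    rcases le_or_gt σ (1 / 4) with h1 | h1
    · have h2 := F_mono_right hC hC1 ha₀ haC ha (mem_Ici.2 le_rfl) (mem_Ici.2 hcon.le) hcon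
      have h3 := F_le hC hC1 ha₀ haC ha h1
      linarith
    · have h2 := F_mono_right hC hC1 ha₀ haC ha (mem_Ici.2 h1.le) (mem_Ici.2 hcon.le) hlt
      linarith
  have h2 : -(1 / 4) ≤ σ := by
    by_contra hcon
    push Not at hcon
    rcases le_or_gt (-(1 / 4)) τ with h1 | h1
    · have h2 := F_mono_left hC hC1 ha₀ haC ha (mem_Iic.2 hcon.le) (mem_Iic.2 le_rfl) hcon
      have h3 := F_ge hC hC1 ha₀ haC ha h1
      linarith
    · have h2 := F_mono_left hC hC1 ha₀ haC ha (mem_Iic.2 hcon.le) (mem_Iic.2 h1.le) hlt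
      linarith
  exact ⟨abs_le.2 ⟨h2, by linarith⟩, abs_le.2 ⟨by linarith, h1⟩⟩

end

/-! ### the parameters -/

noncomputable def rr (u q : ℝ) : ℝ := (u - 1 / 2) ^ 2 + (q - 1 / 2) ^ 2
noncomputable def kap (u q : ℝ) : ℝ := step (1 - 25 * rr u q)
noncomputable def kap2 (u q : ℝ) : ℝ := step (3 - 50 * rr u q)
noncomputable def lam (u q : ℝ) : ℝ := step (5 - 50 * rr u q)

theorem lam_lt {u q : ℝ} (hl : lam u q ≠ 1) : kap u q = 0 ∧ kap2 u q = 0 := by
  have h1 : 5 - 50 * rr u q < 1 := by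
    by_contra hcon
    push Not at hcon
    exact hl (st1 hcon)
  exact ⟨st0 (by linarith), st0 (by linarith)⟩

theorem kap_ne {u q : ℝ} (hk : kap u q ≠ 0) : kap2 u q = 1 := by
  have h1 : 0 < 1 - 25 * rr u q := by
    by_contra hcon
    push Not at hcon
    exact hk (st0 hcon)
  exact st1 (by linarith)

theorem out_rr {u q : ℝ} (hu : u ∉ Ioo (0 : ℝ) 1 ∨ q ∉ Ioo (0 : ℝ) 1) : 1 / 4 ≤ rr u q := by
  have key : ∀ v : ℝ, v ∉ Ioo (0 : ℝ) 1 → 1 / 4 ≤ (v - 1 / 2) ^ 2 := by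
    intro v hv
    rcases le_or_gt v 0 with h | h
    · nlinarith
    · have : 1 ≤ v := by
        by_contra hcon
        push Not at hcon
        exact hv ⟨h, hcon⟩
      nlinarith
  unfold rr
  rcases hu with h | h
  · nlinarith [key u h, sq_nonneg (q - 1 / 2)]
  · nlinarith [key q h, sq_nonneg (u - 1 / 2)]

theorem kap2_bound (u q : ℝ) : |kap2 u q * (u - 1 / 2)| ≤ 1 ∧ |kap2 u q * (q - 1 / 2)| ≤ 1 := by
  have key : kap2 u q = 0 ∨ (u - 1 / 2) ^ 2 ≤ 1 ∧ (q - 1 / 2) ^ 2 ≤ 1 := by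
    rcases le_or_gt (3 - 50 * rr u q) 0 with h | h
    · exact Or.inl (st0 h)
    · right
      unfold rr at h
      constructor <;> nlinarith [sq_nonneg (u - 1 / 2), sq_nonneg (q - 1 / 2)]
  have k0 : 0 ≤ kap2 u q := stn _
  have k1 : kap2 u q ≤ 1 := stl _
  rcases key with h | ⟨h1, h2⟩
  · rw [h]; simp
  · have b1 : |u - 1 / 2| ≤ 1 := by
      rw [← sq_le_one_iff_abs_le_one]; exact h1
    have b2 : |q - 1 / 2| ≤ 1 := by
      rw [← sq_le_one_iff_abs_le_one]; exact h2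
    rw [abs_mul, abs_mul, abs_of_nonneg k0]
    exact ⟨mul_le_one₀ k1 (abs_nonneg _) b1, mul_le_one₀ k1 (abs_nonneg _) b2⟩

/-- the family, with real coordinates -/
noncomputable def y (a₀ : ℝ) (z : ℝ × ℝ × ℝ) : ℝ × ℝ × ℝ × ℝ :=
  (F (lam z.1 z.2.1) (a₀ * (2 * kap z.1 z.2.1 - 1)) z.2.2, lam z.1 z.2.1 * h z.2.2,
    kap2 z.1 z.2.1 * (z.1 - 1 / 2) * g z.2.2, kap2 z.1 z.2.1 * (z.2.1 - 1 / 2) * g z.2.2)

theorem y_s (a₀ : ℝ) : ContDiff ℝ ∞ (y a₀) := by
  have h1 : ContDiff ℝ ∞ (fun z : ℝ × ℝ × ℝ => kap z.1 z.2.1) :=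
    sts.comp (by unfold rr; fun_prop)
  have h2 : ContDiff ℝ ∞ (fun z : ℝ × ℝ × ℝ => kap2 z.1 z.2.1) :=
    sts.comp (by unfold rr; fun_prop)
  have h3 : ContDiff ℝ ∞ (fun z : ℝ × ℝ × ℝ => lam z.1 z.2.1) :=
    sts.comp (by unfold rr; fun_prop)
  have h4 : ContDiff ℝ ∞ (fun z : ℝ × ℝ × ℝ => p z.2.2) := p_s.comp (by fun_prop)
  have h5 : ContDiff ℝ ∞ (fun z : ℝ × ℝ × ℝ => g z.2.2) := g_s.comp (by fun_prop)
  have h6 : ContDiff ℝ ∞ (fun z : ℝ × ℝ × ℝ => h z.2.2) := h_s.comp (by fun_prop)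
  unfold y F
  fun_prop

/-- real coordinates on `R4` -/
noncomputable def E : (ℝ × ℝ × ℝ × ℝ) ≃L[ℝ] R4 :=
  (ContinuousLinearEquiv.refl ℝ ℝ).prodCongr
    ((ContinuousLinearEquiv.refl ℝ ℝ).prodCongr Complex.equivRealProdCLM.symm)

theorem E_apply (a b c d : ℝ) : E (a, b, c, d) = (a, (b, (⟨c, d⟩ : ℂ))) := by
  rfl

/-! ### the value at the centre -/

theorem rr_c : rr (1 / 2) (1 / 2) = 0 := by unfold rr; norm_num

theorem kap_c : kap (1 / 2) (1 / 2) = 1 := st1 (by rw [rr_c]; norm_num)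

theorem kap2_c : kap2 (1 / 2) (1 / 2) = 1 := st1 (by rw [rr_c]; norm_num)

theorem lam_c : lam (1 / 2) (1 / 2) = 1 := st1 (by rw [rr_c]; norm_num)

/-- the derivative of the step function vanishes at `1` -/
theorem step_der {r : ℝ → ℝ} (hr : HasDerivAt r 0 0) (_ : r 0 = 0) :
    HasDerivAt (fun t => step (1 - 25 * r t)) 0 0 := by
  have d1 : HasDerivAt (fun t => 1 - 25 * r t) 0 0 := by
    refine ((hr.const_mul 25).const_sub 1).congr_deriv ?_
    simp
  have d2 : HasDerivAt step (deriv step (1 - 25 * r 0)) (1 - 25 * r 0) :=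
    (sts.differentiable (by simp) _).hasDerivAt
  refine (d2.comp (0 : ℝ) d1).congr_deriv ?_
  simp

/-- the derivative at the double point -/
theorem fderiv_y {a₀ s : ℝ} (hs : |s| < 1 / 4) (ζ η σ : ℝ) :
    fderiv ℝ (y a₀) (1 / 2, 1 / 2, s) (ζ, η, σ) =
      ((3 * s ^ 2 - 3 * a₀) * σ, 2 * s * σ, s * ζ, s * η) := by
  have hL : HasDerivAt (fun t : ℝ => y a₀ (1 / 2 + t * ζ, 1 / 2 + t * η, s + t * σ))
      (fderiv ℝ (y a₀) (1 / 2, 1 / 2, s) (ζ, η, σ)) 0 := by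
    have d1 : HasDerivAt (fun t : ℝ => ((1 / 2 + t * ζ, 1 / 2 + t * η, s + t * σ) : ℝ × ℝ × ℝ))
        (ζ, η, σ) 0 := by
      have e : ∀ a b : ℝ, HasDerivAt (fun t : ℝ => a + t * b) b 0 := fun a b => by
        refine (((hasDerivAt_id (0 : ℝ)).mul_const b).const_add a).congr_deriv ?_
        simp
      exact (e _ _).prodMk ((e _ _).prodMk (e _ _))
    have d2 := ((y_s a₀).differentiable (by simp) (1 / 2, 1 / 2, s)).hasFDerivAt
    have d3 : HasFDerivAt (y a₀) (fderiv ℝ (y a₀) (1 / 2, 1 / 2, s))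
        ((fun t : ℝ => ((1 / 2 + t * ζ, 1 / 2 + t * η, s + t * σ) : ℝ × ℝ × ℝ)) 0) := by
      have e0 : ((fun t : ℝ => ((1 / 2 + t * ζ, 1 / 2 + t * η, s + t * σ) : ℝ × ℝ × ℝ)) 0) =
          (1 / 2, 1 / 2, s) := by simp
      rw [e0]
      exact d2
    exact d3.comp_hasDerivAt (0 : ℝ) d1
  -- the explicit curve
  have hM : HasDerivAt (fun t : ℝ => (((s + t * σ) ^ 3 - 3 * (a₀ * (2 * step (1 - 25 *
      (t ^ 2 * (ζ ^ 2 + η ^ 2))) - 1)) * (s + t * σ), (s + t * σ) ^ 2, t * ζ * (s + t * σ),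
      t * η * (s + t * σ)) : ℝ × ℝ × ℝ × ℝ))
      ((3 * s ^ 2 - 3 * a₀) * σ, 2 * s * σ, s * ζ, s * η) 0 := by
    have e : HasDerivAt (fun t : ℝ => s + t * σ) σ 0 := by
      refine (((hasDerivAt_id (0 : ℝ)).mul_const σ).const_add s).congr_deriv ?_
      simp
    have r1 : HasDerivAt (fun t : ℝ => t ^ 2 * (ζ ^ 2 + η ^ 2)) 0 0 := by
      refine ((hasDerivAt_pow 2 (0 : ℝ)).mul_const _).congr_deriv ?_
      simp
    have st := step_der r1 (by simp)
    have c1 : HasDerivAt (fun t : ℝ => 3 * (a₀ * (2 * step (1 - 25 *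
      (t ^ 2 * (ζ ^ 2 + η ^ 2))) - 1))) 0 0 := by
      refine ((((st.const_mul 2).sub_const 1).const_mul a₀).const_mul 3).congr_deriv ?_
      simp
    refine HasDerivAt.prodMk ?_ (HasDerivAt.prodMk ?_ (HasDerivAt.prodMk ?_ ?_))
    · refine ((e.pow 3).sub (c1.mul e)).congr_deriv ?_
      have : step 1 = 1 := st1 le_rfl
      simp [this]
      ring
    · refine (e.pow 2).congr_deriv ?_
      simp
    · refine (((hasDerivAt_id (0 : ℝ)).mul_const ζ).mul e).congr_deriv ?_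
      simp
      ring
    · refine (((hasDerivAt_id (0 : ℝ)).mul_const η).mul e).congr_deriv ?_
      simp
      ring
  have hev : (fun t : ℝ => y a₀ (1 / 2 + t * ζ, 1 / 2 + t * η, s + t * σ)) =ᶠ[𝓝 0]
      (fun t : ℝ => (((s + t * σ) ^ 3 - 3 * (a₀ * (2 * step (1 - 25 *
      (t ^ 2 * (ζ ^ 2 + η ^ 2))) - 1)) * (s + t * σ), (s + t * σ) ^ 2, t * ζ * (s + t * σ),
      t * η * (s + t * σ)) : ℝ × ℝ × ℝ × ℝ)) := by
    have o1 : IsOpen {t : ℝ | |s + t * σ| < 1 / 4} :=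
      isOpen_lt (by fun_prop) continuous_const
    have o2 : IsOpen {t : ℝ | t ^ 2 * (ζ ^ 2 + η ^ 2) < 1 / 50} :=
      isOpen_lt (by fun_prop) continuous_const
    have m1 : (0 : ℝ) ∈ {t : ℝ | |s + t * σ| < 1 / 4} := by simpa using hs
    have m2 : (0 : ℝ) ∈ {t : ℝ | t ^ 2 * (ζ ^ 2 + η ^ 2) < 1 / 50} := by simp
    filter_upwards [o1.mem_nhds m1, o2.mem_nhds m2] with t h1 h2
    have h1' : |s + t * σ| ≤ 1 / 4 := le_of_lt h1
    have h2' : t ^ 2 * (ζ ^ 2 + η ^ 2) < 1 / 50 := h2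
    have er : rr (1 / 2 + t * ζ) (1 / 2 + t * η) = t ^ 2 * (ζ ^ 2 + η ^ 2) := by
      unfold rr; ring
    have el : lam (1 / 2 + t * ζ) (1 / 2 + t * η) = 1 := st1 (by rw [er]; linarith)
    have ek : kap2 (1 / 2 + t * ζ) (1 / 2 + t * η) = 1 := st1 (by rw [er]; linarith)
    unfold y
    simp only
    unfold kap F
    rw [el, ek, er, p_lo h1', g_lo h1', h_lo h1']
    ext
    · simp only; ring
    · simp only; ring
    · simp only; ring
    · simp only; ring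
  exact hL.unique (hM.congr_of_eventuallyEq hev)

end CUM

open CUM

/-- MODULE CUM. -/
theorem m_CUM : StCUM := by
  obtain ⟨C, hC1, hC⟩ := dg_bound
  have hC0 : 0 < C := by linarith
  obtain ⟨σ₀, hσ₀⟩ : ∃ s : ℝ, s = 1 / (20 * C) := ⟨_, rfl⟩
  obtain ⟨a₀, ha₀'⟩ : ∃ a : ℝ, a = σ₀ ^ 2 / 3 := ⟨_, rfl⟩
  have hσ0 : 0 < σ₀ := by rw [hσ₀]; positivity
  have hσC : σ₀ * C = 1 / 20 := by rw [hσ₀]; field_simp
  have hσ1 : σ₀ ≤ 1 / 20 := by nlinarith
  have ha₀ : 0 < a₀ := by rw [ha₀']; positivity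
  have h3a : 3 * a₀ = σ₀ ^ 2 := by rw [ha₀']; ring
  have haC : 3 * a₀ * C ≤ 1 / 400 := by
    rw [h3a]
    have : σ₀ ^ 2 * C = σ₀ * (σ₀ * C) := by ring
    rw [this, hσC]
    linarith
  have hsl : |σ₀| < 1 / 4 := by rw [abs_of_pos hσ0]; linarith
  have hsl' : |-σ₀| < 1 / 4 := by rw [abs_neg]; exact hsl
  -- parameters
  have hka : ∀ u q : ℝ, |a₀ * (2 * kap u q - 1)| ≤ a₀ := by
    intro u q
    have k0 : 0 ≤ kap u q := stn _
    have k1 : kap u q ≤ 1 := stl _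
    rw [abs_le]
    constructor <;> nlinarith
  have hl0 : ∀ u q : ℝ, 0 ≤ lam u q := fun u q => stn _
  have hl1 : ∀ u q : ℝ, lam u q ≤ 1 := fun u q => stl _
  have hlam : ∀ u q : ℝ, lam u q ≠ 1 → a₀ * (2 * kap u q - 1) = -a₀ := by
    intro u q hl
    rw [(lam_lt hl).1]
    ring
  have hyx : ∀ u q σ : ℝ, E (y a₀ (u, q, σ)) = (F (lam u q) (a₀ * (2 * kap u q - 1)) σ,
      (lam u q * h σ, (⟨kap2 u q * (u - 1 / 2) * g σ, kap2 u q * (q - 1 / 2) * g σ⟩ : ℂ))) :=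
    fun u q σ => E_apply _ _ _ _
  refine ⟨fun z => E (y a₀ z), σ₀, hσ0, by linarith, E.contDiff.comp (y_s a₀), ?_, ?_, ?_, ?_,
    ?_, ?_⟩
  · -- (i)
    intro u q σ hh
    simp only
    rw [hyx]
    by_cases hs : 1 ≤ |σ|
    · unfold F
      rw [p_hi hs, g_hi hs, h_hi hs]
      refine Prod.ext ?_ (Prod.ext ?_ ?_)
      · simp only; ring
      · simp
      · exact Complex.ext (by simp) (by simp)
    · have hh' : u ∉ Ioo (0 : ℝ) 1 ∨ q ∉ Ioo (0 : ℝ) 1 := hh.resolve_left hs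
      have hr := out_rr hh'
      have e1 : lam u q = 0 := st0 (by linarith)
      have e2 : kap2 u q = 0 := st0 (by linarith)
      unfold F
      rw [e1, e2]
      refine Prod.ext ?_ (Prod.ext ?_ ?_)
      · simp
      · simp
      · exact Complex.ext (by simp) (by simp)
  · -- (ii)
    intro u q σ hs
    simp only
    rw [hyx]
    have b1 : |p σ| ≤ 1 := by
      obtain ⟨s1, s2⟩ := abs_le.1 hs
      have t0 : 0 ≤ T σ := stn _
      have t1 : T σ ≤ 1 := stl _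
      have c1 : |σ ^ 3| ≤ 1 := by
        rw [abs_pow]
        exact pow_le_one₀ (abs_nonneg _) hs
      have c2 := abs_le.1 c1
      unfold p
      rw [abs_le]
      constructor <;> nlinarith
    have c0 : 0 ≤ ch σ := stn _
    have c1 : ch σ ≤ 1 := stl _
    have b2 : |g σ| ≤ 1 := by
      unfold g
      rw [abs_mul, abs_of_nonneg c0]
      exact mul_le_one₀ c1 (abs_nonneg _) hs
    have b3 : |h σ| ≤ 1 := by
      unfold h
      rw [abs_mul, abs_of_nonneg c0, abs_pow]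
      exact mul_le_one₀ c1 (by positivity) (pow_le_one₀ (abs_nonneg _) hs)
    have b4 : |3 * (a₀ * (2 * kap u q - 1)) * g σ| ≤ 1 := by
      rw [abs_mul, abs_mul, abs_of_pos (by norm_num : (0 : ℝ) < 3)]
      have k1 := hka u q
      have k2 : 3 * |a₀ * (2 * kap u q - 1)| ≤ 1 := by nlinarith
      exact mul_le_one₀ k2 (abs_nonneg _) b2
    have b5 : |F (lam u q) (a₀ * (2 * kap u q - 1)) σ| ≤ 2 := by
      obtain ⟨s1, s2⟩ := abs_le.1 hs
      obtain ⟨p1, p2⟩ := abs_le.1 b1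
      obtain ⟨q1, q2⟩ := abs_le.1 b4
      have := hl0 u q
      have := hl1 u q
      unfold F
      rw [abs_le]
      constructor <;> nlinarith
    have b6 : |lam u q * h σ| ≤ 1 := by
      rw [abs_mul, abs_of_nonneg (hl0 u q)]
      exact mul_le_one₀ (hl1 u q) (abs_nonneg _) b3
    obtain ⟨b7, b8⟩ := kap2_bound u q
    have b9 : ‖(⟨kap2 u q * (u - 1 / 2) * g σ, kap2 u q * (q - 1 / 2) * g σ⟩ : ℂ)‖ ≤ 2 := by
      refine (Complex.norm_le_abs_re_add_abs_im _).trans ?_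
      simp only
      rw [abs_mul (kap2 u q * (u - 1 / 2)) (g σ), abs_mul (kap2 u q * (q - 1 / 2)) (g σ)]
      have := mul_le_one₀ b7 (abs_nonneg _) b2
      have := mul_le_one₀ b8 (abs_nonneg _) b2
      linarith
    rw [Prod.norm_def, Prod.norm_def]
    refine max_le ?_ (max_le ?_ ?_)
    · exact (le_of_eq (Real.norm_eq_abs _)).trans (b5.trans (by norm_num))
    · exact (le_of_eq (Real.norm_eq_abs _)).trans (b6.trans (by norm_num))
    · exact b9.trans (by norm_num)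
  · -- (iii)
    intro u q σ hz
    have dF := hasDerivAt_F (lam u q) (a₀ * (2 * kap u q - 1)) σ
    have dh : HasDerivAt h (deriv h σ) σ := (h_s.differentiable (by simp) _).hasDerivAt
    have dg : HasDerivAt g (deriv g σ) σ := (g_s.differentiable (by simp) _).hasDerivAt
    have dy : HasDerivAt (fun σ => y a₀ (u, q, σ))
        ((1 - lam u q) + lam u q * (deriv p σ - 3 * (a₀ * (2 * kap u q - 1)) * deriv g σ),
          lam u q * deriv h σ, kap2 u q * (u - 1 / 2) * deriv g σ,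
          kap2 u q * (q - 1 / 2) * deriv g σ) σ :=
      dF.prodMk ((dh.const_mul (lam u q)).prodMk ((dg.const_mul (kap2 u q * (u - 1 / 2))).prodMk
        (dg.const_mul (kap2 u q * (q - 1 / 2)))))
    have dx : HasDerivAt (fun σ => E (y a₀ (u, q, σ)))
        (E ((1 - lam u q) + lam u q * (deriv p σ - 3 * (a₀ * (2 * kap u q - 1)) * deriv g σ),
          lam u q * deriv h σ, kap2 u q * (u - 1 / 2) * deriv g σ,
          kap2 u q * (q - 1 / 2) * deriv g σ)) σ :=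
      E.hasFDerivAt.comp_hasDerivAt σ dy
    rw [dx.deriv] at hz
    have hz' := E.map_eq_zero_iff.1 hz
    have z1 := congrArg Prod.fst hz'
    have z2 := congrArg (fun w : ℝ × ℝ × ℝ × ℝ => w.2.1) hz'
    have z3 := congrArg (fun w : ℝ × ℝ × ℝ × ℝ => w.2.2.1) hz'
    have z4 := congrArg (fun w : ℝ × ℝ × ℝ × ℝ => w.2.2.2) hz'
    simp only [Prod.fst_zero, Prod.snd_zero] at z1 z2 z3 z4
    rcases le_or_gt (1 / 4) |σ| with hs | hs
    · exact absurd z1 (ne_of_gt (dF_out hC hC1 ha₀ haC (hl0 u q) (hl1 u q) (hka u q) hs))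
    · by_cases hl : lam u q = 1
      · rw [dp_lo hs, dg_lo hs, hl] at z1
        rw [dh_lo hs, hl] at z2
        rw [dg_lo hs] at z3 z4
        have s0 : σ = 0 := by linarith
        rw [s0] at z1
        have k1 : kap u q = 1 / 2 := by
          have : a₀ * (2 * kap u q - 1) = 0 := by linarith
          rcases mul_eq_zero.1 this with h | h
          · linarith
          · linarith
        have k2 : kap2 u q = 1 := kap_ne (by rw [k1]; norm_num)
        rw [k2] at z3 z4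
        have u0 : u = 1 / 2 := by linarith
        have q0 : q = 1 / 2 := by linarith
        rw [u0, q0, kap_c] at k1
        norm_num at k1
      · have := dF_neg hC hC1 ha₀ haC (σ := σ) (hl0 u q) (hl1 u q)
        rw [hlam u q hl] at z1
        linarith
  · -- (iv)
    intro u q σ τ hlt he
    simp only at he
    have he' := E.injective he
    have z1 : F (lam u q) (a₀ * (2 * kap u q - 1)) σ = F (lam u q) (a₀ * (2 * kap u q - 1)) τ :=
      congrArg Prod.fst he'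
    have z2 : lam u q * h σ = lam u q * h τ := congrArg (fun w : ℝ × ℝ × ℝ × ℝ => w.2.1) he'
    have z3 : kap2 u q * (u - 1 / 2) * g σ = kap2 u q * (u - 1 / 2) * g τ :=
      congrArg (fun w : ℝ × ℝ × ℝ × ℝ => w.2.2.1) he'
    have z4 : kap2 u q * (q - 1 / 2) * g σ = kap2 u q * (q - 1 / 2) * g τ :=
      congrArg (fun w : ℝ × ℝ × ℝ × ℝ => w.2.2.2) he'
    by_cases hl : lam u q = 1
    · rw [hl] at z1 z2
      obtain ⟨hs, ht⟩ := F_double hC hC1 ha₀ haC (hka u q) hlt z1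
      rw [F_mid hC hC1 ha₀ haC hs, F_mid hC hC1 ha₀ haC ht] at z1
      rw [h_lo hs, h_lo ht] at z2
      rw [g_lo hs, g_lo ht] at z3 z4
      have hst : σ = -τ := by
        have : (σ - τ) * (σ + τ) = 0 := by linarith
        rcases mul_eq_zero.1 this with h | h
        · linarith
        · linarith
      have htp : 0 < τ := by linarith
      rw [hst] at z1 z3 z4
      have h3 : τ ^ 2 = 3 * (a₀ * (2 * kap u q - 1)) := by
        have : τ * (τ ^ 2 - 3 * (a₀ * (2 * kap u q - 1))) = 0 := by linarith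
        rcases mul_eq_zero.1 this with h | h
        · linarith
        · linarith
      have hk : 0 < kap u q := by
        by_contra hcon
        push Not at hcon
        have : 0 < τ ^ 2 := by positivity
        nlinarith
      have k2 : kap2 u q = 1 := kap_ne (ne_of_gt hk)
      rw [k2] at z3 z4
      have u0 : u = 1 / 2 := by
        have : (u - 1 / 2) * τ = 0 := by linarith
        rcases mul_eq_zero.1 this with h | h
        · linarith
        · linarith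
      have q0 : q = 1 / 2 := by
        have : (q - 1 / 2) * τ = 0 := by linarith
        rcases mul_eq_zero.1 this with h | h
        · linarith
        · linarith
      rw [u0, q0, kap_c] at h3
      have h4 : τ ^ 2 = σ₀ ^ 2 := by rw [h3, ← h3a]; ring
      have h5 : τ = σ₀ := by
        have : (τ - σ₀) * (τ + σ₀) = 0 := by linarith
        rcases mul_eq_zero.1 this with h | h
        · linarith
        · linarith
      exact ⟨u0, q0, by rw [hst, h5], h5⟩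
    · rw [hlam u q hl] at z1
      exact absurd z1 (ne_of_lt (F_mono_neg hC hC1 ha₀ haC (hl0 u q) (hl1 u q) hlt))
  · -- (v)
    simp only
    rw [hyx, hyx, lam_c, kap_c, F_mid hC hC1 ha₀ haC hsl.le, F_mid hC hC1 ha₀ haC hsl'.le,
      g_lo hsl.le, g_lo hsl'.le, h_lo hsl.le, h_lo hsl'.le]
    have e1 : σ₀ ^ 3 - 3 * (a₀ * (2 * 1 - 1)) * σ₀ = 0 := by
      have : 3 * (a₀ * (2 * 1 - 1)) = σ₀ ^ 2 := by rw [← h3a]; ring
      rw [this]; ring
    have e2 : (-σ₀) ^ 3 - 3 * (a₀ * (2 * 1 - 1)) * (-σ₀) = 0 := by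
      have : 3 * (a₀ * (2 * 1 - 1)) = σ₀ ^ 2 := by rw [← h3a]; ring
      rw [this]; ring
    rw [e1, e2]
    ext <;> simp
  · -- (vi)
    intro ζ η σ τ he
    have hd : ∀ z, fderiv ℝ (fun z => E (y a₀ z)) z = (E : (ℝ × ℝ × ℝ × ℝ) →L[ℝ] R4).comp
        (fderiv ℝ (y a₀) z) := fun z =>
      (E.hasFDerivAt.comp z ((y_s a₀).differentiable (by simp) z).hasFDerivAt).fderiv
    rw [hd, hd] at he
    have he' : fderiv ℝ (y a₀) (1 / 2, 1 / 2, -σ₀) (ζ, η, σ) =
        fderiv ℝ (y a₀) (1 / 2, 1 / 2, σ₀) (ζ, η, τ) := E.injective he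
    rw [fderiv_y hsl, fderiv_y hsl'] at he'
    have z2 := congrArg (fun w : ℝ × ℝ × ℝ × ℝ => w.1) he'
    have z1 := congrArg (fun w : ℝ × ℝ × ℝ × ℝ => w.2.1) he'
    have z3 := congrArg (fun w : ℝ × ℝ × ℝ × ℝ => w.2.2.1) he'
    have z4 := congrArg (fun w : ℝ × ℝ × ℝ × ℝ => w.2.2.2) he'
    simp only at z1 z2 z3 z4
    have e3 : 3 * (-σ₀) ^ 2 - 3 * a₀ = 2 * σ₀ ^ 2 := by rw [h3a]; ring
    have e4 : 3 * σ₀ ^ 2 - 3 * a₀ = 2 * σ₀ ^ 2 := by rw [h3a]; ring
    rw [e3, e4] at z2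
    have n1 : σ - τ = 0 := by
      have : σ₀ ^ 2 * (σ - τ) = 0 := by linarith
      rcases mul_eq_zero.1 this with h | h
      · exact absurd h (by positivity)
      · exact h
    have n2 : σ + τ = 0 := by
      have : σ₀ * (σ + τ) = 0 := by linarith
      rcases mul_eq_zero.1 this with h | h
      · linarith
      · exact h
    have n3 : ζ = 0 := by
      have : σ₀ * ζ = 0 := by linarith
      rcases mul_eq_zero.1 this with h | h
      · linarith
      · exact h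
    have n4 : η = 0 := by
      have : σ₀ * η = 0 := by linarith
      rcases mul_eq_zero.1 this with h | h
      · linarith
      · exact h
    exact ⟨n3, n4, by linarith, by linarith⟩

end Pool.Agent.Helper27.H


end
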