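import Pool.Agent.Helper65.Barb.Defs
import Pool.Agent.Helper70.BI.B.P08
import Pool.Agent.Helper70.BI.B.P11
import Pool.Agent.Helper70.BI.B.P18

/-!
# Project BI (MP_8e98f2_gt): collected modules, part 34

The contents of the modules
* Helper70.BI.StF2
* Helper70.BI.M_ThM
* Helper70.BI.M_W4
* Helper70.BI.M_Final2
* Helper18.BI.H.M_F3

in one file, so that the whole proof builds in a short time.
-/

/-! ## Helper70.BI.StF2 -/

section

/-!
# Project BI, stage 2: the transfer to the 4-sphere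

Statements (as `Prop` definitions) with complete proofs in the docstrings.  A module `M_X` proves
`theorem m_X : StX` (possibly from other statements as hypotheses `(h : StY)`).
-/

set_option autoImplicit false

open scoped Manifold ContDiff Topology ComplexConjugate
open Set Filter Pool.Agent.Helper65.Barb Pool.Agent.Helper18.BI

namespace Pool.Agent.Helper70.BI

open Pool.Agent.Helper27.BI (refh refs swp StVanT StRefH StRefS StR2sw)

section
variable {E : Type*} [NormedAddCommGroup E] [NormedSpace ℝ E] {H : Type*} [TopologicalSpace H]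
  (I : ModelWithCorners ℝ E H) {M : Type*} [TopologicalSpace M] [ChartedSpace H M]

/-- The bar of `F` crosses, at the parameter `γ`, the interior of the image of the flat ball around
`(1/2, (c, 0))`, transversally: near `γ` the bar is the image of a curve `y` of `R4` which crosses
the ball transversally at the parameter `γ`. -/
def CrossM (F : R4 → M) (c γ : ℝ) : Prop :=
  ∃ y : ℝ → R4, ContDiffAt ℝ ∞ y γ ∧ (y γ).1 = 1 / 2 ∧ rsq c (y γ) < 1 / 25 ∧
    (deriv y γ).1 ≠ 0 ∧ ∀ᶠ a in 𝓝 γ, F (1 / 2, (a, 0)) = F (y a)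

/-- `F : R4 → M` is a local diffeomorphism along the spine and the two flat balls bounded by the
cuffs; the spine is embedded, the two balls are embedded and disjoint, and each ball is crossed
exactly once by the bar, transversally: first, at the parameter `β`, the ball at the far end (the
ball bounded by the second cuff), then, at the parameter `α > β`, the ball at the near end. -/
structure ThetaM (F : R4 → M) (α β : ℝ) : Prop where
  loc : ∀ p ∈ FB, IsLocalDiffeomorphAt 𝓘(ℝ, R4) I ∞ F p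
  inj : InjOn F SP
  balls : InjOn F (flat 0 ∪ flat 1)
  ord : 1 / 5 < β ∧ β < α ∧ α < 4 / 5
  cross0 : CrossM F 0 α
  cross1 : CrossM F 1 β
  only0 : ∀ a ∈ Icc (1 / 5 : ℝ) (4 / 5), F (1 / 2, (a, 0)) ∈ F '' flat 0 → a = 1 / 5 ∨ a = α
  only1 : ∀ a ∈ Icc (1 / 5 : ℝ) (4 / 5), F (1 / 2, (a, 0)) ∈ F '' flat 1 → a = 4 / 5 ∨ a = β

end

/-- **EI** (images of three-dimensional compact sets have empty interior).
*Proof.* Every `p ∈ L` has a closed ball `K_p` (a compact neighbourhood of `p`) on which `G` coincides with a partial diffeomorphism `Φ_p`; finitely many interiors of the `K_p` cover `L`.  `Φ_p '' (K_p ∩ L)` is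
closed (compact) with empty interior: an open set `O ⊆ Φ_p '' (K_p ∩ L)` gives the open set `Φ_p.symm '' O = Φ_p ⁻¹' O ∩ source ⊆ {s = 1/2}`, which is empty.  A finite union of closed sets with empty interior has empty interior
(`interior_union_isClosed_of_interior_empty`, induction). -/
def StEI : Prop :=
  ∀ (E : Type) [NormedAddCommGroup E] [NormedSpace ℝ E] (H : Type) [TopologicalSpace H]
    (I : ModelWithCorners ℝ E H) (M : Type) [TopologicalSpace M] [ChartedSpace H M] [T2Space M]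
    (G : R4 → M) (L : Set R4), IsCompact L → (∀ p ∈ L, p.1 = 1 / 2) →
    (∀ p ∈ L, IsLocalDiffeomorphAt 𝓘(ℝ, R4) I ∞ G p) →
    IsCompact (G '' L) ∧ interior (G '' L) = ∅

/-- **X2c** (a chart of the 4-sphere containing a given compact set).
*Proof.* As in module X2 (`Pool/Agent/Helper18/BI/M_X2.lean`): a compact set with empty interior is not everything; stereographic projection from a point of the complement. -/
def StX2c : Prop :=
  ∀ K : Set S4, IsCompact K → interior K = ∅ → ∃ c : R4 → S4, EmbOn (𝓡 4) c univ ∧ K ⊆ range c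

/-- **ThM** (theta germs: the two definitions, transport).
*Proof.* (i) `SP ⊆ FB` (`sph c ⊆ flat c`).  `e` = sign of the `s`-component `l` of `deriv y α`; `CrossAt F 0 α e` with `x₀ = (y α).2` (`y α = (1/2, x₀)`, `nsq (x₀ - pc 0) = rsq 0 (y α) < 1/25`), `(l, v) = deriv y α`: differentiate
`F (1/2, (a, 0)) = F (y a)` at `α` (chain rule; `F` is differentiable at `ax α` and at `y α ∈ flat 0`).  Same at `β`.
(ii) The fields only involve local diffeomorphisms, injectivity, images and equations of the form `F p = F q`; `Ψ` is injective on `U ⊇ F '' FB` and a local diffeomorphism there (`IsLocalDiffeomorphAt.comp`; a point where `F (1/2,(a,0)) = F (y a)`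
gives `Ψ (F ..) = Ψ (F ..)`; for `only`: `Ψ (F (1/2,(a,0))) = Ψ (F q)`, `q ∈ flat c`, so `F (1/2,(a,0)) = F q` because both are in `F '' FB`).
(iii) Congruence: `G = F` on an open set containing `FB` (`y a` is near `y γ ∈ flat c` for `a` near `γ`). -/
def StThM : Prop :=
  (∀ (F : R4 → R4) (α β : ℝ), ThetaM I4 F α β → ∃ e d : ℝ, (e = 1 ∨ e = -1) ∧ (d = 1 ∨ d = -1) ∧
    Theta F α β e d) ∧
  (∀ (F : R4 → R4) (α β e d : ℝ), Theta F α β e d → ThetaM I4 F α β) ∧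
  (∀ (E : Type) [NormedAddCommGroup E] [NormedSpace ℝ E] (H : Type) [TopologicalSpace H]
    (I : ModelWithCorners ℝ E H) (M : Type) [TopologicalSpace M] [ChartedSpace H M]
    (E' : Type) [NormedAddCommGroup E'] [NormedSpace ℝ E'] (H' : Type) [TopologicalSpace H']
    (I' : ModelWithCorners ℝ E' H') (M' : Type) [TopologicalSpace M'] [ChartedSpace H' M']
    (F : R4 → M) (Ψ : M → M') (α β : ℝ), ThetaM I F α β → InjOn Ψ (F '' FB) →
    (∀ y ∈ F '' FB, IsLocalDiffeomorphAt I I' ∞ Ψ y) → ThetaM I' (fun p => Ψ (F p)) α β) ∧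
  ∀ (E : Type) [NormedAddCommGroup E] [NormedSpace ℝ E] (H : Type) [TopologicalSpace H]
    (I : ModelWithCorners ℝ E H) (M : Type) [TopologicalSpace M] [ChartedSpace H M]
    (F G : R4 → M) (U : Set R4) (α β : ℝ), ThetaM I F α β → IsOpen U → FB ⊆ U → EqOn F G U →
    ThetaM I G α β

/-- **W4** (the class `W` in the 4-sphere) (uses `StEI`, `StX2c`, `StThM`, `StX1`, `StX3`, `StT2`, `StCI`, `StS4`).
*Proof.* `F₀` from `IsW.rep`; `c₀` any chart (`StX2c` for `K = ∅`), `W₄ = imp c₀ univ W`.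
(a) Let `G : R4 → S4` be `ThetaM`.  `G '' FB` and `(c₀ ∘ F₀) '' FB` are compact with empty interior (`StEI`; `FB` is compact, `StS4`), so there is a chart `c` whose image contains both (`StX2c` for the union, `interior_union_isClosed_of_interior_empty`).  `F p = Function.invFun c (G p)`: `c (F p) = G p` on `FB` and near
`FB` (the image of `c` is open); `Function.invFun c` is a local diffeomorphism at the points of the image of `c` (`c` is an injective local diffeomorphism; or use `StX3` for `L = SP`, `flat 0`, ... and the proof of X3), so `F` is `ThetaM` (`StThM` (iii)) and `Theta`, `Thin F W` (`IsW.all`), and `Thin (c ∘ F) (imp c univ W)` (`StX1`),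
`Thin G (imp c univ W)` (`StT2` (v)).  The same for `c₀ ∘ F₀` (which is `ThetaM` by `StThM` (ii), (iii)): `Thin (c₀ ∘ F₀) (imp c univ W)`; also `Thin (c₀ ∘ F₀) (imp c₀ univ W)` by `StX1`.  By uniqueness `CIsot (imp c univ W) W₄`, so `Thin G W₄` (`StT2` (iv)).
(b) For every chart `c`: `c ∘ F₀` is `ThetaM`, so `Thin (c ∘ F₀) W₄` by (a) and `Thin (c ∘ F₀) (imp c univ W)` by `StX1`: `CIsot (imp c univ W) W₄`.
(c) `CIsot (W₄ ∘ W₄) id`: `StX1` (`imp c univ` is multiplicative and respects `CIsot`; `imp c univ id = id`).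
(d) `Ψ` a diffeomorphism of `S4` with inverse `Ψ'`: `Ψ ∘ G` is `ThetaM` for `G = c₀ ∘ F₀`, so `Thin (Ψ ∘ G) W₄`, and `Thin (Ψ ∘ G) (Ψ ∘ W₄ ∘ Ψ')` (`StT2` (vi)). -/
def StW4 : Prop :=
  ∀ W : R4 → R4, IsW W → ∃ (W₄ : S4 → S4) (c₀ F₀ : R4 → S4) (α₀ β₀ : ℝ),
    (∀ (G : R4 → S4) (α β : ℝ), ThetaM (𝓡 4) G α β → Thin (𝓡 4) G W₄) ∧
    (∀ c : R4 → S4, EmbOn (𝓡 4) c univ → CIsot (𝓡 4) (imp c univ W) W₄) ∧
    CIsot (𝓡 4) (fun x => W₄ (W₄ x)) (fun x => x) ∧
    (∀ Ψ Ψ' : S4 → S4, ContMDiff (𝓡 4) (𝓡 4) ∞ Ψ → ContMDiff (𝓡 4) (𝓡 4) ∞ Ψ' →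
      (∀ x, Ψ (Ψ' x) = x) → (∀ x, Ψ' (Ψ x) = x) →
      CIsot (𝓡 4) (fun x => Ψ (W₄ (Ψ' x))) W₄) ∧
    EmbOn (𝓡 4) c₀ univ ∧ ThetaM (𝓡 4) F₀ α₀ β₀ ∧ Thin (𝓡 4) F₀ W₄

/-- **THE MAIN THEOREM OF STAGE 2.** -/
def StFinal2 : Prop :=
  ∃ (W : S4 → S4) (B₀ δ₀ : PartialDiffeomorph 𝓘(ℝ, R4) (𝓡 4) R4 S4 ∞),
    -- `W` is an implantation of a barbell whose cuffs bound disjoint balls
    (Pool.Agent.Helper65.Barb.NB ⊆ B₀.source ∧ flat 0 ∪ flat 1 ⊆ δ₀.source ∧ (∀ p ∈ sph 0 ∪ sph 1, δ₀ p = B₀ p) ∧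
      W = implantation B₀ barMap) ∧
    -- `W` has order at most two and is central
    Isot (𝓡 4) (fun x => W (W x)) (fun x => x) ∧
    (∀ Ψ Ψ' : S4 → S4, ContMDiff (𝓡 4) (𝓡 4) ∞ Ψ → ContMDiff (𝓡 4) (𝓡 4) ∞ Ψ' →
      (∀ x, Ψ (Ψ' x) = x) → (∀ x, Ψ' (Ψ x) = x) →
      Isot (𝓡 4) (fun x => Ψ (W (Ψ' x))) W) ∧
    -- theta barbells
    (∀ (B : PartialDiffeomorph 𝓘(ℝ, R4) (𝓡 4) R4 S4 ∞) (β : R4 → R4) (G : R4 → S4)
      (U : Set R4) (a b : ℝ), Pool.Agent.Helper65.Barb.NB ⊆ B.source → IsBarbellMap β → ThetaM (𝓡 4) G a b →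
      IsOpen U → SP ⊆ U → EqOn B G U → Isot (𝓡 4) (implantation B β) W) ∧
    -- bar independence up to `W`
    ∀ (B B' : PartialDiffeomorph 𝓘(ℝ, R4) (𝓡 4) R4 S4 ∞) (β β' : R4 → R4) (U : Set R4),
      Pool.Agent.Helper65.Barb.NB ⊆ B.source → Pool.Agent.Helper65.Barb.NB ⊆ B'.source → IsBarbellMap β → IsBarbellMap β' → IsOpen U →
      sph 0 ∪ sph 1 ⊆ U → EqOn B B' U →
      Isot (𝓡 4) (implantation B' β') (implantation B β) ∨
        Isot (𝓡 4) (implantation B' β') (fun x => W (implantation B β x))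

end Pool.Agent.Helper70.BI


end

/-! ## Helper70.BI.M_ThM -/

section

/-!
# Project BI, stage 2, module ThM: theta germs, the two definitions, transport
-/

set_option autoImplicit false

open scoped Manifold ContDiff Topology ComplexConjugate
open Set Filter Pool.Agent.Helper65.Barb Pool.Agent.Helper18.BI

namespace Pool.Agent.Helper70.BI

namespace ThM

theorem sph_sub_flat (c : ℝ) : sph c ⊆ flat c := fun _ hp => ⟨hp.1, hp.2.le⟩

theorem SP_sub_FB : SP ⊆ FB := by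
  rintro p ((hp | hp) | hp)
  · exact Or.inl (Or.inl (sph_sub_flat 0 hp))
  · exact Or.inl (Or.inr (sph_sub_flat 1 hp))
  · exact Or.inr hp

theorem flat_sub_FB {c : ℝ} (hc : c = 0 ∨ c = 1) : flat c ⊆ FB := by
  rcases hc with rfl | rfl
  · exact fun p hp => Or.inl (Or.inl hp)
  · exact fun p hp => Or.inl (Or.inr hp)

theorem ax_mem {a : ℝ} (h : a ∈ Icc (1 / 5 : ℝ) (4 / 5)) : ax a ∈ FB :=
  Or.inr ⟨rfl, h.1, h.2, rfl⟩

theorem nsq_sub (c : ℝ) (x : R3) : nsq (x - pc c) = rsq c (1 / 2, x) := by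
  unfold rsq nsq pc
  simp

theorem contDiff_ax : ContDiff ℝ ∞ ax := by
  unfold ax
  exact contDiff_const.prodMk (contDiff_id.prodMk contDiff_const)

theorem hasDerivAt_ax (a : ℝ) : HasDerivAt ax (0, ((1 : ℝ), (0 : ℂ))) a :=
  (hasDerivAt_const a _).prodMk ((hasDerivAt_id a).prodMk (hasDerivAt_const a _))

theorem core_deriv {F : R4 → R4} {γ : ℝ} (h : LD F (ax γ)) :
    HasDerivAt (core F) (fderiv ℝ F (ax γ) (0, ((1 : ℝ), (0 : ℂ)))) γ := by
  have h1 : HasFDerivAt F (fderiv ℝ F (ax γ)) (ax γ) :=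
    ((ld_iff.1 h).1.self_of_nhds.differentiableAt (by simp)).hasFDerivAt
  exact h1.comp_hasDerivAt γ (hasDerivAt_ax γ)

theorem crossAt_of {F : R4 → R4} {c γ : ℝ} (hγ : LD F (ax γ)) (hf : ∀ p ∈ flat c, LD F p)
    (h : CrossM F c γ) : ∃ e : ℝ, (e = 1 ∨ e = -1) ∧ CrossAt F c γ e := by
  obtain ⟨y, hy, hy1, hy2, hl, hev⟩ := h
  have hyx : y γ = (1 / 2, (y γ).2) := by rw [← hy1]
  obtain ⟨e, he, hel⟩ : ∃ e : ℝ, (e = 1 ∨ e = -1) ∧ 0 < e * (deriv y γ).1 := by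
    rcases lt_or_gt_of_ne hl with h | h
    · exact ⟨-1, Or.inr rfl, by linarith⟩
    · exact ⟨1, Or.inl rfl, by linarith⟩
  refine ⟨e, he, (y γ).2, ?_, ?_, (deriv y γ).1, (deriv y γ).2, hel, ?_⟩
  · rw [nsq_sub, ← hyx]; exact hy2
  · rw [← hyx]; exact hev.self_of_nhds
  · have hmem : y γ ∈ flat c := ⟨hy1, hy2.le⟩
    have d1 := core_deriv hγ
    have d2 : HasDerivAt (fun a => F (y a)) (fderiv ℝ F (y γ) (deriv y γ)) γ := by
      have h1 : HasFDerivAt F (fderiv ℝ F (y γ)) (y γ) :=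
        ((ld_iff.1 (hf _ hmem)).1.self_of_nhds.differentiableAt (by simp)).hasFDerivAt
      exact h1.comp_hasDerivAt γ (hy.differentiableAt (by simp)).hasDerivAt
    have d3 := d2.congr_of_eventuallyEq (f₁ := core F) hev
    rw [d1.unique d3, ← hyx]

theorem crossM_of {F : R4 → R4} {c γ e : ℝ} (hγ : LD F (ax γ)) (hf : ∀ p ∈ flat c, LD F p)
    (h : CrossAt F c γ e) : CrossM F c γ := by
  obtain ⟨x₀, hx, hcore, l, v, hl, hd⟩ := h
  have hmem : ((1 / 2 : ℝ), x₀) ∈ flat c := by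
    refine ⟨rfl, ?_⟩
    rw [← nsq_sub]; exact hx.le
  obtain ⟨Φ, hΦ, heq⟩ := hf _ hmem
  have hcont : ContDiffAt ℝ ∞ (core F) γ :=
    ((ld_iff.1 hγ).1.self_of_nhds).comp γ contDiff_ax.contDiffAt
  have htgt : core F γ ∈ Φ.target := by
    rw [hcore, heq hΦ]
    exact Φ.map_source hΦ
  have hsymm : ContDiffAt ℝ ∞ Φ.symm (core F γ) := by
    have h1 : ContMDiffOn 𝓘(ℝ, R4) 𝓘(ℝ, R4) ∞ Φ.symm Φ.target := Φ.contMDiffOn_invFun
    exact (contMDiffOn_iff_contDiffOn.1 h1).contDiffAt (Φ.open_target.mem_nhds htgt)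
  have hyγ : Φ.symm (core F γ) = (1 / 2, x₀) := by
    rw [hcore, heq hΦ]
    exact Φ.left_inv hΦ
  have hy : ContDiffAt ℝ ∞ (fun a => Φ.symm (core F a)) γ := hsymm.comp γ hcont
  have hev : ∀ᶠ a in 𝓝 γ, F (1 / 2, (a, 0)) = F (Φ.symm (core F a)) := by
    filter_upwards [hcont.continuousAt.preimage_mem_nhds (Φ.open_target.mem_nhds htgt)] with a ha
    have h1 : Φ.symm (core F a) ∈ Φ.source := Φ.map_target ha
    rw [heq h1]
    exact (Φ.right_inv ha).symm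
  refine ⟨fun a => Φ.symm (core F a), hy, ?_, ?_, ?_, hev⟩
  · show (Φ.symm (core F γ)).1 = 1 / 2
    rw [hyγ]
  · show rsq c (Φ.symm (core F γ)) < 1 / 25
    rw [hyγ, ← nsq_sub]; exact hx
  · have d1 := core_deriv hγ
    have d2 : HasDerivAt (fun a => F (Φ.symm (core F a)))
        (fderiv ℝ F (1 / 2, x₀) (deriv (fun a => Φ.symm (core F a)) γ)) γ := by
      have h1 : HasFDerivAt F (fderiv ℝ F (1 / 2, x₀)) (Φ.symm (core F γ)) := by
        rw [hyγ]
        exact ((ld_iff.1 (hf _ hmem)).1.self_of_nhds.differentiableAt (by simp)).hasFDerivAt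
      exact HasFDerivAt.comp_hasDerivAt (f := fun a => Φ.symm (core F a)) γ h1
        (hy.differentiableAt (by simp)).hasDerivAt
    have d3 := d2.congr_of_eventuallyEq (f₁ := core F) hev
    have h2 := d1.unique d3
    rw [hd] at h2
    have h3 := (ld_iff.1 (hf _ hmem)).2 h2
    rw [← h3]
    intro h0
    simp only at h0
    rw [h0, mul_zero] at hl
    exact lt_irrefl _ hl

section
variable {E : Type*} [NormedAddCommGroup E] [NormedSpace ℝ E] {H : Type*} [TopologicalSpace H]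
  {I : ModelWithCorners ℝ E H} {M : Type*} [TopologicalSpace M] [ChartedSpace H M]

theorem congr_ldM {f g : R4 → M} {V : Set R4} (hV : IsOpen V) (hfg : EqOn f g V) {x : R4}
    (hx : x ∈ V) (h : IsLocalDiffeomorphAt 𝓘(ℝ, R4) I ∞ f x) :
    IsLocalDiffeomorphAt 𝓘(ℝ, R4) I ∞ g x := by
  obtain ⟨Φ, hxΦ, hΦ⟩ := h
  have hsub : Φ.source ∩ V ⊆ Φ.source := inter_subset_left
  have hop : IsOpen (Φ.source ∩ V) := Φ.open_source.inter hV
  let Ψ : PartialDiffeomorph 𝓘(ℝ, R4) I R4 M ∞ :=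
    { toFun := Φ
      invFun := Φ.symm
      source := Φ.source ∩ V
      target := Φ.target ∩ Φ.symm ⁻¹' V
      map_source' := fun p hp => ⟨Φ.map_source hp.1, by
        show Φ.symm (Φ p) ∈ V
        have : Φ.symm (Φ p) = p := Φ.left_inv hp.1
        rw [this]; exact hp.2⟩
      map_target' := fun y hy => ⟨Φ.map_target hy.1, hy.2⟩
      left_inv' := fun p hp => Φ.left_inv hp.1
      right_inv' := fun y hy => Φ.right_inv hy.1
      open_source := hop
      open_target := by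
        have hc : ContinuousOn Φ.symm Φ.target := Φ.contMDiffOn_invFun.continuousOn
        exact hc.isOpen_inter_preimage Φ.open_target hV
      contMDiffOn_toFun := Φ.contMDiffOn_toFun.mono hsub
      contMDiffOn_invFun := Φ.contMDiffOn_invFun.mono inter_subset_left }
  exact ⟨Ψ, ⟨hxΦ, hx⟩, fun p hp => (hfg hp.2).symm.trans (hΦ hp.1)⟩

end

end ThM

open ThM in
theorem m_ThM : StThM := by
  refine ⟨?_, ?_, ?_, ?_⟩
  · intro F α β h
    have hα : α ∈ Ioo (1 / 5 : ℝ) (4 / 5) := ⟨h.ord.1.trans h.ord.2.1, h.ord.2.2⟩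
    have hβ : β ∈ Ioo (1 / 5 : ℝ) (4 / 5) := ⟨h.ord.1, h.ord.2.1.trans h.ord.2.2⟩
    obtain ⟨e, he, hce⟩ := crossAt_of (h.loc _ (ax_mem ⟨hα.1.le, hα.2.le⟩))
      (fun p hp => h.loc p (flat_sub_FB (Or.inl rfl) hp)) h.cross0
    obtain ⟨d, hd, hcd⟩ := crossAt_of (h.loc _ (ax_mem ⟨hβ.1.le, hβ.2.le⟩))
      (fun p hp => h.loc p (flat_sub_FB (Or.inr rfl) hp)) h.cross1
    refine ⟨e, d, he, hd, ?_, ?_, ?_, h.ord.2.1⟩
    · refine ⟨?_, h.inj, ?_, hα, hce, ?_⟩
      · rintro p (hp | hp)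
        · exact h.loc p (SP_sub_FB hp)
        · exact h.loc p (flat_sub_FB (Or.inl rfl) hp)
      · refine h.balls.mono ?_
        rintro p (hp | hp)
        · exact Or.inl hp
        · rw [sub_zero] at hp
          exact Or.inr (sph_sub_flat 1 hp)
      · intro a ha hm
        rcases h.only0 a ha hm with h1 | h1
        · left; rw [h1]; norm_num
        · exact Or.inr h1
    · refine ⟨?_, h.inj, ?_, hβ, hcd, ?_⟩
      · rintro p (hp | hp)
        · exact h.loc p (SP_sub_FB hp)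
        · exact h.loc p (flat_sub_FB (Or.inr rfl) hp)
      · refine h.balls.mono ?_
        rintro p (hp | hp)
        · exact Or.inr hp
        · rw [sub_self] at hp
          exact Or.inl (sph_sub_flat 0 hp)
      · intro a ha hm
        rcases h.only1 a ha hm with h1 | h1
        · left; rw [h1]; norm_num
        · exact Or.inr h1
    · rw [Set.disjoint_left]
      rintro _ ⟨p, hp, rfl⟩ ⟨q, hq, he⟩
      have hpq : q = p := h.balls (Or.inr hq) (Or.inl hp) he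
      subst hpq
      have h1 : rsq 0 q ≤ 1 / 25 := hp.2
      have h2 : rsq 1 q ≤ 1 / 25 := hq.2
      unfold rsq nsq at h1 h2
      simp only at h1 h2
      nlinarith [sq_nonneg q.2.2.re, sq_nonneg q.2.2.im, sq_nonneg (2 * q.2.1 - 1)]
  · intro F α β e d h
    have hFB : ∀ p ∈ FB, LD F p := by
      rintro p ((hp | hp) | hp)
      · exact h.a.loc p (Or.inr hp)
      · exact h.b.loc p (Or.inr hp)
      · exact h.a.loc p (Or.inl (Or.inr hp))
    refine ⟨hFB, h.a.inj, ?_, ⟨h.b.mem.1, h.ord, h.a.mem.2⟩,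
      crossM_of (hFB _ (ax_mem ⟨h.a.mem.1.le, h.a.mem.2.le⟩)) (fun p hp => h.a.loc p (Or.inr hp))
        h.a.cr,
      crossM_of (hFB _ (ax_mem ⟨h.b.mem.1.le, h.b.mem.2.le⟩)) (fun p hp => h.b.loc p (Or.inr hp))
        h.b.cr, ?_, ?_⟩
    · rintro p (hp | hp) q (hq | hq) he
      · exact h.a.injF (Or.inl hp) (Or.inl hq) he
      · exact (Set.disjoint_left.1 h.dis ⟨p, hp, rfl⟩ ⟨q, hq, he.symm⟩).elim
      · exact (Set.disjoint_left.1 h.dis ⟨q, hq, rfl⟩ ⟨p, hp, he⟩).elim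
      · exact h.b.injF (Or.inl hp) (Or.inl hq) he
    · intro a ha hm
      rcases h.a.only a ha hm with h1 | h1
      · left; rw [h1]; norm_num
      · exact Or.inr h1
    · intro a ha hm
      rcases h.b.only a ha hm with h1 | h1
      · left; rw [h1]; norm_num
      · exact Or.inr h1
  · intro E _ _ H _ I M _ _ E' _ _ H' _ I' M' _ _ F Ψ α β h hinj hloc
    have hcr : ∀ c γ : ℝ, CrossM F c γ → CrossM (fun p => Ψ (F p)) c γ := by
      rintro c γ ⟨y, h1, h2, h3, h4, h5⟩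
      refine ⟨y, h1, h2, h3, h4, ?_⟩
      filter_upwards [h5] with a ha
      rw [ha]
    have honly : ∀ c, (c = 0 ∨ c = 1) → ∀ a ∈ Icc (1 / 5 : ℝ) (4 / 5),
        Ψ (F (1 / 2, (a, 0))) ∈ (fun p => Ψ (F p)) '' flat c → F (1 / 2, (a, 0)) ∈ F '' flat c := by
      rintro c hc a ha ⟨q, hq, he⟩
      exact ⟨q, hq, hinj ⟨q, flat_sub_FB hc hq, rfl⟩ ⟨_, ax_mem ha, rfl⟩ he⟩
    refine ⟨fun p hp => ?_, ?_, ?_, h.ord, hcr _ _ h.cross0, hcr _ _ h.cross1,
      fun a ha hm => h.only0 a ha (honly 0 (Or.inl rfl) a ha hm),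
      fun a ha hm => h.only1 a ha (honly 1 (Or.inr rfl) a ha hm)⟩
    · exact IsLocalDiffeomorphAt.comp (K := I') (P := M') (hf := h.loc p hp) (hg := hloc _ ⟨p, hp, rfl⟩)
    · intro p hp q hq he
      exact h.inj hp hq (hinj ⟨p, SP_sub_FB hp, rfl⟩ ⟨q, SP_sub_FB hq, rfl⟩ he)
    · intro p hp q hq he
      exact h.balls hp hq (hinj ⟨p, Or.inl hp, rfl⟩ ⟨q, Or.inl hq, rfl⟩ he)
  · intro E _ _ H _ I M _ _ F G U α β h hU hFB heq
    have hα : α ∈ Ioo (1 / 5 : ℝ) (4 / 5) := ⟨h.ord.1.trans h.ord.2.1, h.ord.2.2⟩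
    have hβ : β ∈ Ioo (1 / 5 : ℝ) (4 / 5) := ⟨h.ord.1, h.ord.2.1.trans h.ord.2.2⟩
    have hcr : ∀ c γ : ℝ, (c = 0 ∨ c = 1) → γ ∈ Ioo (1 / 5 : ℝ) (4 / 5) → CrossM F c γ →
        CrossM G c γ := by
      rintro c γ hc hγ ⟨y, h1, h2, h3, h4, h5⟩
      refine ⟨y, h1, h2, h3, h4, ?_⟩
      have m1 : ∀ᶠ a in 𝓝 γ, y a ∈ U :=
        h1.continuousAt.preimage_mem_nhds (hU.mem_nhds (hFB (flat_sub_FB hc ⟨h2, h3.le⟩)))
      filter_upwards [h5, m1, isOpen_Ioo.mem_nhds hγ] with a ha ha1 ha2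
      rw [← heq ha1, ← ha]
      exact (heq (hFB (ax_mem ⟨ha2.1.le, ha2.2.le⟩))).symm
    have himg : ∀ c, (c = 0 ∨ c = 1) → G '' flat c = F '' flat c := fun c hc =>
      image_congr fun p hp => (heq (hFB (flat_sub_FB hc hp))).symm
    refine ⟨fun p hp => ?_, ?_, ?_, h.ord, hcr _ _ (Or.inl rfl) hα h.cross0,
      hcr _ _ (Or.inr rfl) hβ h.cross1, fun a ha hm => ?_, fun a ha hm => ?_⟩
    · exact congr_ldM hU heq (hFB hp) (h.loc p hp)
    · exact h.inj.congr fun p hp => heq (hFB (SP_sub_FB hp))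
    · exact h.balls.congr fun p hp => heq (hFB (Or.inl hp))
    · have e : G (1 / 2, (a, 0)) = F (1 / 2, (a, 0)) := (heq (hFB (ax_mem ha))).symm
      rw [e, himg 0 (Or.inl rfl)] at hm
      exact h.only0 a ha hm
    · have e : G (1 / 2, (a, 0)) = F (1 / 2, (a, 0)) := (heq (hFB (ax_mem ha))).symm
      rw [e, himg 1 (Or.inr rfl)] at hm
      exact h.only1 a ha hm

end Pool.Agent.Helper70.BI


end

/-! ## Helper70.BI.M_W4 -/

section

/-!
# Project BI, stage 2, module W4: the class `W` in the 4-sphere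
-/

set_option autoImplicit false

open scoped Manifold ContDiff Topology ComplexConjugate
open Set Filter Pool.Agent.Helper65.Barb Pool.Agent.Helper18.BI

namespace Pool.Agent.Helper70.BI

namespace W4

theorem invFun_ld {c : R4 → S4} (hc : EmbOn (𝓡 4) c univ) {y : S4} (hy : y ∈ range c) :
    IsLocalDiffeomorphAt (𝓡 4) 𝓘(ℝ, R4) ∞ (Function.invFun c) y := by
  obtain ⟨x, rfl⟩ := hy
  obtain ⟨Φ, hx, heq⟩ := hc.1 x (mem_univ x)
  refine ⟨Φ.symm, ?_, ?_⟩
  · rw [heq hx]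
    exact Φ.map_source hx
  · intro z hz
    have hz' : z ∈ Φ.target := hz
    have h1 : Φ.symm z ∈ Φ.source := Φ.map_target hz'
    have h2 : c (Φ.symm z) = z := by
      rw [heq h1]
      exact Φ.right_inv hz'
    have h3 : c (Function.invFun c z) = z := Function.invFun_eq ⟨_, h2⟩
    exact hc.2 (mem_univ _) (mem_univ _) (h3.trans h2.symm)

theorem isOpen_range {c : R4 → S4} (hc : EmbOn (𝓡 4) c univ) : IsOpen (range c) := by
  rw [isOpen_iff_mem_nhds]
  rintro _ ⟨x, rfl⟩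
  obtain ⟨Φ, hx, heq⟩ := hc.1 x (mem_univ x)
  have h1 : Φ.target ∈ 𝓝 (c x) := by
    rw [heq hx]
    exact Φ.open_target.mem_nhds (Φ.map_source hx)
  filter_upwards [h1] with z hz
  have h2 : Φ.symm z ∈ Φ.source := Φ.map_target hz
  have h3 : c (Φ.symm z) = z := by
    rw [heq h2]
    exact Φ.right_inv hz
  exact ⟨Φ.symm z, h3⟩

theorem imp_id {c : R4 → S4} : imp c univ (fun p => p) = fun y => y := by
  funext y
  unfold imp
  split_ifs with h
  · exact h.choose_spec.2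
  · rfl

theorem ld_continuousAt {G : R4 → S4} {p : R4}
    (h : IsLocalDiffeomorphAt 𝓘(ℝ, R4) (𝓡 4) ∞ G p) : ContinuousAt G p := by
  obtain ⟨Φ, hp, heq⟩ := h
  have hc : ContinuousAt Φ p :=
    Φ.contMDiffOn_toFun.continuousOn.continuousAt (Φ.open_source.mem_nhds hp)
  have he : (Φ : R4 → S4) =ᶠ[𝓝 p] G := by
    filter_upwards [Φ.open_source.mem_nhds hp] with q hq
    exact (heq hq).symm
  exact hc.congr he

end W4

open W4 in
theorem m_W4 (hEI : StEI) (hX2c : StX2c) (hThM : StThM) (hX1 : StX1) (hT2 : StT2)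
    (hCI : StCI) (hS4 : StS4) : StW4 := by
  intro W hW
  obtain ⟨F₀, α₀, β₀, hF₀, hF₀W⟩ := hW.rep
  obtain ⟨th1, th2, th3, -⟩ := hThM
  obtain ⟨-, tii, -, tiv, tv, tvi, -⟩ := hT2 _ _ (𝓡 4) S4
  obtain ⟨-, cs, cself, ct, cc, -, -, -, -, -⟩ := hCI _ _ (𝓡 4) S4
  have hFBc : IsCompact FB := hS4.2.2.2.2.2.2.2.2.2.1
  have hFB1 : ∀ p ∈ FB, p.1 = 1 / 2 := by
    rintro p ((hp | hp) | hp)
    · exact hp.1
    · exact hp.1
    · exact hp.1
  have hF₀M : ThetaM I4 F₀ α₀ β₀ := th2 F₀ α₀ β₀ 1 1 hF₀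
  -- charts composed with the theta germ
  have stepA : ∀ c : R4 → S4, EmbOn (𝓡 4) c univ →
      ThetaM (𝓡 4) (fun p => c (F₀ p)) α₀ β₀ := by
    intro c hc
    exact th3 _ _ 𝓘(ℝ, R4) R4 _ _ (𝓡 4) S4 F₀ c α₀ β₀ hF₀M (hc.2.mono (subset_univ _))
      (fun y _ => hc.1 y (mem_univ y))
  have stepA' : ∀ c : R4 → S4, EmbOn (𝓡 4) c univ →
      Thin (𝓡 4) (fun p => c (F₀ p)) (imp c univ W) := by
    intro c hc
    exact (hX1 _ _ (𝓡 4) S4 c hc).2.2.1 F₀ W hF₀W
  -- theta germs in a chart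
  have stepB : ∀ (G : R4 → S4) (α β : ℝ) (c : R4 → S4), ThetaM (𝓡 4) G α β →
      EmbOn (𝓡 4) c univ → G '' FB ⊆ range c → Thin (𝓡 4) G (imp c univ W) := by
    intro G α β c hG hc hsub
    have hinv : ∀ y ∈ range c, c (Function.invFun c y) = y := fun y hy => Function.invFun_eq hy
    have hF : ThetaM 𝓘(ℝ, R4) (fun p => Function.invFun c (G p)) α β := by
      refine th3 _ _ (𝓡 4) S4 _ _ 𝓘(ℝ, R4) R4 G (Function.invFun c) α β hG ?_ ?_
      · intro y hy z hz he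
        rw [← hinv y (hsub hy), ← hinv z (hsub hz), he]
      · intro y hy
        exact invFun_ld hc (hsub hy)
    obtain ⟨e, d, he, hd, hth⟩ := th1 _ α β hF
    have t1 : Thin 𝓘(ℝ, R4) (fun p => Function.invFun c (G p)) W := hW.all _ α β e d he hd hth
    have t2 := (hX1 _ _ (𝓡 4) S4 c hc).2.2.1 _ W t1
    refine tv _ G (interior {p | c (Function.invFun c (G p)) = G p}) _ isOpen_interior ?_ ?_ t2
    · intro p hp
      rw [mem_interior_iff_mem_nhds]
      have hp' : p ∈ FB := ThM.SP_sub_FB hp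
      have h1 : ContinuousAt G p := ld_continuousAt (hG.loc p hp')
      filter_upwards [h1.preimage_mem_nhds ((isOpen_range hc).mem_nhds (hsub ⟨p, hp', rfl⟩))]
        with q hq
      exact hinv _ hq
    · intro p hp
      have h1 : p ∈ {p | c (Function.invFun c (G p)) = G p} := interior_subset hp
      exact h1
  -- compact images
  have himg : ∀ (G : R4 → S4) (α β : ℝ), ThetaM (𝓡 4) G α β →
      IsCompact (G '' FB) ∧ interior (G '' FB) = ∅ := by
    intro G α β hG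
    exact hEI _ _ (𝓡 4) S4 G FB hFBc hFB1 hG.loc
  have stepC : ∀ c₁ c₂ : R4 → S4, EmbOn (𝓡 4) c₁ univ → EmbOn (𝓡 4) c₂ univ →
      CIsot (𝓡 4) (imp c₁ univ W) (imp c₂ univ W) := by
    intro c₁ c₂ h₁ h₂
    obtain ⟨k1, k2⟩ := himg _ _ _ (stepA c₁ h₁)
    obtain ⟨k3, k4⟩ := himg _ _ _ (stepA c₂ h₂)
    obtain ⟨c, hc, hsub⟩ := hX2c _ (k1.union k3)
      (by rw [interior_union_isClosed_of_interior_empty k1.isClosed k4, k2])
    have s1 := stepB _ _ _ c (stepA c₁ h₁) hc (subset_union_left.trans hsub)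
    have s2 := stepB _ _ _ c (stepA c₂ h₂) hc (subset_union_right.trans hsub)
    exact ct _ _ _ (tii _ _ _ (stepA' c₁ h₁) s1) (tii _ _ _ s2 (stepA' c₂ h₂))
  obtain ⟨c₀, hc₀, -⟩ := hX2c ∅ isCompact_empty interior_empty
  have hall : ∀ (G : R4 → S4) (α β : ℝ), ThetaM (𝓡 4) G α β → Thin (𝓡 4) G (imp c₀ univ W) := by
    intro G α β hG
    obtain ⟨k1, k2⟩ := himg G α β hG
    obtain ⟨c, hc, hsub⟩ := hX2c _ k1 k2
    exact tiv _ _ _ (stepB G α β c hG hc hsub) (stepC c c₀ hc hc₀)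
  refine ⟨imp c₀ univ W, c₀, fun p => c₀ (F₀ p), α₀, β₀, hall, fun c hc => stepC c c₀ hc hc₀, ?_,
    ?_, hc₀, stepA c₀ hc₀, stepA' c₀ hc₀⟩
  · obtain ⟨z1, -, -, z4, -⟩ := hX1 _ _ (𝓡 4) S4 c₀ hc₀
    have h := z1 _ _ hW.sq
    rw [imp_id] at h
    have e : imp c₀ univ (fun x => W (W x)) = fun y => imp c₀ univ W (imp c₀ univ W y) :=
      funext (z4 W W)
    rwa [e] at h
  · intro Ψ Ψ' hΨ hΨ' i1 i2
    have h1 : ThetaM (𝓡 4) (fun p => Ψ (c₀ (F₀ p))) α₀ β₀ :=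
      th3 _ _ (𝓡 4) S4 _ _ (𝓡 4) S4 _ Ψ α₀ β₀ (stepA c₀ hc₀)
        (fun y _ z _ he => by rw [← i2 y, ← i2 z, he])
        (fun y _ => Pool.Agent.Helper18.BI.T2.diff_ld hΨ hΨ' i1 i2 y)
    exact tii _ _ _ (tvi _ _ Ψ Ψ' hΨ hΨ' i1 i2 (stepA' c₀ hc₀)) (hall _ _ _ h1)

end Pool.Agent.Helper70.BI


end

/-! ## Helper70.BI.M_Final2 -/

section

/-!
# Project BI, stage 2: the main theorem in the 4-sphere, from `StW4` and `StMain2`
-/

set_option autoImplicit false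

open scoped Manifold ContDiff Topology ComplexConjugate
open Set Filter Pool.Agent.Helper65.Barb Pool.Agent.Helper18.BI

namespace Pool.Agent.Helper70.BI

namespace Fin2

theorem sph_sub_flat (c : ℝ) : sph c ⊆ flat c := fun _ hp => ⟨hp.1, hp.2.le⟩

theorem SP_sub_FB : SP ⊆ FB := by
  rintro p ((hp | hp) | hp)
  · exact Or.inl (Or.inl (sph_sub_flat 0 hp))
  · exact Or.inl (Or.inr (sph_sub_flat 1 hp))
  · exact Or.inr hp

theorem isCompact_flat (c : ℝ) : IsCompact (flat c) := by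
  apply Metric.isCompact_of_isClosed_isBounded
  · apply IsClosed.inter (isClosed_eq continuous_fst continuous_const)
    exact isClosed_le (continuous_rsq c) continuous_const
  · exact (isBounded_of_rsq c (1 / 25) (1 / 2) (1 / 2)).subset
      (fun p hp => ⟨hp.1.ge, hp.1.le, hp.2⟩)

theorem SP_sub_NB : SP ⊆ Pool.Agent.Helper65.Barb.NB := by
  have rsq_eq : ∀ (c : ℝ) (p : R4),
      rsq c p = (p.2.1 - c) ^ 2 + p.2.2.re ^ 2 + p.2.2.im ^ 2 := fun _ _ => rfl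
  rintro p ((hp | hp) | hp)
  · obtain ⟨h1, h2⟩ := hp
    rw [rsq_eq] at h2
    refine ⟨⟨by rw [h1]; norm_num, by rw [h1]; norm_num, ?_⟩, ?_, ?_⟩ <;> rw [rsq_eq]
    · nlinarith [sq_nonneg p.2.2.re, sq_nonneg p.2.2.im]
    · nlinarith [sq_nonneg p.2.2.re, sq_nonneg p.2.2.im]
    · have h3 : p.2.1 ^ 2 ≤ (1 / 5) ^ 2 := by
        nlinarith [sq_nonneg p.2.2.re, sq_nonneg p.2.2.im]
      have h4 : p.2.1 ≤ 1 / 5 := abs_le_of_sq_le_sq' h3 (by norm_num) |>.2
      nlinarith [sq_nonneg p.2.2.re, sq_nonneg p.2.2.im]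
  · obtain ⟨h1, h2⟩ := hp
    rw [rsq_eq] at h2
    have h3 : (p.2.1 - 1) ^ 2 ≤ (1 / 5) ^ 2 := by
      nlinarith [sq_nonneg p.2.2.re, sq_nonneg p.2.2.im]
    have h4 := abs_le_of_sq_le_sq' h3 (by norm_num)
    refine ⟨⟨by rw [h1]; norm_num, by rw [h1]; norm_num, ?_⟩, ?_, ?_⟩ <;> rw [rsq_eq]
    · nlinarith [sq_nonneg p.2.2.re, sq_nonneg p.2.2.im]
    · nlinarith [sq_nonneg p.2.2.re, sq_nonneg p.2.2.im]
    · nlinarith [sq_nonneg p.2.2.re, sq_nonneg p.2.2.im]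
  · obtain ⟨h1, h2, h3, h4⟩ := hp
    refine ⟨⟨by rw [h1]; norm_num, by rw [h1]; norm_num, ?_⟩, ?_, ?_⟩ <;> rw [rsq_eq, h4] <;>
      simp only [Complex.zero_re, Complex.zero_im] <;> nlinarith

end Fin2

open Fin2 in
theorem m_Final2 (hW4 : StW4) (hMain : StMain2) (hR3 : Pool.Agent.Helper18.BI.StR3)
    (hA1 : StA1) (hT2 : StT2) (hT4 : StT4) (hX1 : StX1) (hX2 : StX2) (hX3 : StX3) (hCI : StCI)
    {W : R4 → R4} (hW : IsW W) : StFinal2 := by
  obtain ⟨W₄, c₀, F₀, α₀, β₀, k1, k2, k3, k4, k5, k6, k7⟩ := hW4 W hW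
  obtain ⟨-, tii, -, -, tv, -, -⟩ := hT2 _ _ (𝓡 4) S4
  obtain ⟨-, cs, cself, ct, cc, -, -, cconj, ciso, -⟩ := hCI _ _ (𝓡 4) S4
  have hE₀ : EmbOn (𝓡 4) F₀ SP := ⟨fun p hp => k6.loc p (SP_sub_FB hp), k6.inj⟩
  obtain ⟨B₀, hB₀, hBF, hiso⟩ := hR3 _ _ (𝓡 4) S4 F₀ W₄ hE₀ k7
  obtain ⟨δ₀, hδ, hδF⟩ := hA1 R4 _ _ (𝓡 4) S4 F₀ (flat 0 ∪ flat 1)
    ((isCompact_flat 0).union (isCompact_flat 1))
    (fun p hp => k6.loc p (Or.inl hp)) k6.balls
  have hWi : implantation B₀ barMap = push B₀ barMap :=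
    implantation_eq_push B₀ hB₀ isBarbellMap_barMap
  rw [← hWi] at hiso
  have sW : CIsot (𝓡 4) (implantation B₀ barMap) (implantation B₀ barMap) :=
    ct _ _ _ (cs _ _ hiso) hiso
  refine ⟨implantation B₀ barMap, B₀, δ₀, ⟨hB₀, hδ, fun p hp => ?_, rfl⟩, ?_, ?_, ?_, ?_⟩
  · have hp' : p ∈ flat 0 ∪ flat 1 := hp.imp (fun h => sph_sub_flat 0 h) fun h => sph_sub_flat 1 h
    rw [hδF p (hδ hp'), hBF p hp]
  · -- order two
    have h1 := cc _ _ _ _ hiso hiso
    exact ciso _ _ (ct _ _ _ (cs _ _ h1) k3)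
  · -- centrality
    intro Ψ Ψ' hΨ hΨ' i1 i2
    have h1 := cconj _ _ Ψ Ψ' hiso hΨ hΨ' i1 i2
    exact ciso _ _ (ct _ _ _ (cs _ _ h1) (ct _ _ _ (k4 Ψ Ψ' hΨ hΨ' i1 i2) hiso))
  · -- theta barbells
    intro B β G U a b hB hβ hG hU hsU heq
    obtain ⟨-, hT⟩ := hT4 B β hB hβ
    have h1 : Thin (𝓡 4) B W₄ :=
      tv G B U W₄ hU hsU (fun p hp => (heq hp).symm) (k1 G a b hG)
    exact ciso _ _ (ct _ _ _ (tii _ _ _ hT h1) hiso)
  · -- bar independence
    intro B B' β β' U hB hB' hβ hβ' hU hsU heq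
    obtain ⟨hE, hT⟩ := hT4 B β hB hβ
    obtain ⟨hE', hT'⟩ := hT4 B' β' hB' hβ'
    obtain ⟨c, hc, hBc, hBc'⟩ := hX2 B B' (SP_sub_NB.trans hB) (SP_sub_NB.trans hB')
    obtain ⟨hF, U1, hU1o, hU1s, hU1⟩ := hX3 _ _ (𝓡 4) S4 c B SP hc hE hBc
    obtain ⟨hF', U2, hU2o, hU2s, hU2⟩ := hX3 _ _ (𝓡 4) S4 c B' SP hc hE' hBc'
    obtain ⟨z1, -, z3, z4, -⟩ := hX1 _ _ (𝓡 4) S4 c hc
    obtain ⟨ε₁, hε₁, hφ⟩ := (hT2 _ _ 𝓘(ℝ, R4) R4).1 _ hF
    obtain ⟨ε₂, hε₂, hφ'⟩ := (hT2 _ _ 𝓘(ℝ, R4) R4).1 _ hF'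
    have hφ := hφ (ε₁ / 2) ⟨by positivity, by linarith⟩
    have hφ' := hφ' (ε₂ / 2) ⟨by positivity, by linarith⟩
    generalize imp ((fun p => Function.invFun c (B p)) ∘ sq (ε₁ / 2)) bsupp barMap = φ at hφ
    generalize imp ((fun p => Function.invFun c (B' p)) ∘ sq (ε₂ / 2)) bsupp barMap = φ' at hφ'
    have hor := hMain W _ _ φ φ' U hW hF hF' hU hsU
      (by
        intro p hp
        have : B p = B' p := heq hp
        simp only [this]) hφ hφ'
    have q1 : CIsot (𝓡 4) (imp c univ φ) (implantation B β) :=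
      tii B _ _ (tv _ _ U1 _ hU1o hU1s (fun p hp => hU1 p hp) (z3 _ _ hφ)) hT
    have q2 : CIsot (𝓡 4) (imp c univ φ') (implantation B' β') :=
      tii B' _ _ (tv _ _ U2 _ hU2o hU2s (fun p hp => hU2 p hp) (z3 _ _ hφ')) hT'
    rcases hor with h | h
    · exact Or.inl (ciso _ _ (ct _ _ _ (cs _ _ q2) (ct _ _ _ (z1 _ _ h) q1)))
    · right
      have h1 := z1 _ _ h
      have e : imp c univ (fun x => W (φ x)) = fun y => imp c univ W (imp c univ φ y) :=
        funext (z4 W φ)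
      rw [e] at h1
      have h2 : CIsot (𝓡 4) (imp c univ W) (implantation B₀ barMap) := ct _ _ _ (k2 c hc) hiso
      have h3 := cc _ _ _ _ h2 q1
      exact ciso _ _ (ct _ _ _ (cs _ _ q2) (ct _ _ _ h1 h3))

end Pool.Agent.Helper70.BI


end

/-! ## Helper18.BI.H.M_F3 -/

section

/-!
# Project BI, stage 3 (H): the main theorem in the 4-sphere
-/

set_option autoImplicit false

open scoped Manifold ContDiff Topology ComplexConjugate
open Set Filter Pool.Agent.Helper65.Barb Pool.Agent.Helper18.BI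
open Pool.Agent.Helper70.BI (I4 IsW MW StW4 StEI StX2c)
open Pool.Agent.Helper70.BI.Fin2 (SP_sub_NB sph_sub_flat SP_sub_FB isCompact_flat)

namespace Pool.Agent.Helper18.BI.H

namespace F3

/-- the spine of a barbell in the 4-sphere is compact with empty interior -/
theorem spine_small (hEI : StEI) (hS4 : StS4) (B : PartialDiffeomorph 𝓘(ℝ, R4) (𝓡 4) R4 S4 ∞)
    (hB : NB ⊆ B.source) : IsCompact (B '' SP) ∧ interior (B '' SP) = ∅ := by
  refine hEI _ _ (𝓡 4) S4 B SP hS4.2.2.2.2.2.2.2.2.1 ?_ ?_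
  · rintro p ((hp | hp) | hp)
    · exact hp.1
    · exact hp.1
    · exact hp.1
  · intro p hp
    exact ⟨B, hB (SP_sub_NB hp), fun _ _ => rfl⟩

/-- transfer of a barbell to a chart -/
theorem transfer (hT2 : StT2) (hT4 : StT4) (hX1 : StX1) (hX3 : StX3) (c : R4 → S4)
    (hc : EmbOn (𝓡 4) c univ) (B : PartialDiffeomorph 𝓘(ℝ, R4) (𝓡 4) R4 S4 ∞) (β : R4 → R4)
    (hB : NB ⊆ B.source) (hβ : IsBarbellMap β) (hBc : B '' SP ⊆ range c) :
    EmbOn I4 (fun p => Function.invFun c (B p)) SP ∧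
      (∃ φ, Thin I4 (fun p => Function.invFun c (B p)) φ) ∧
      ∀ φ, Thin I4 (fun p => Function.invFun c (B p)) φ →
        CIsot (𝓡 4) (imp c univ φ) (implantation B β) := by
  obtain ⟨-, tii, -, -, tv, -, -⟩ := hT2 _ _ (𝓡 4) S4
  obtain ⟨hE, hT⟩ := hT4 B β hB hβ
  obtain ⟨hF, U1, hU1o, hU1s, hU1⟩ := hX3 _ _ (𝓡 4) S4 c B SP hc hE hBc
  obtain ⟨-, -, z3, -⟩ := hX1 _ _ (𝓡 4) S4 c hc
  refine ⟨hF, ?_, ?_⟩
  · obtain ⟨ε₁, hε₁, hφ⟩ := (hT2 _ _ 𝓘(ℝ, R4) R4).1 _ hF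
    exact ⟨_, hφ (ε₁ / 2) ⟨by positivity, by linarith⟩⟩
  · intro φ hφ
    exact tii B _ _ (tv _ _ U1 _ hU1o hU1s (fun p hp => hU1 p hp) (z3 _ _ hφ)) hT

theorem invFun_continuousAt {c : R4 → S4} (hc : EmbOn (𝓡 4) c univ) {y : S4}
    (hy : y ∈ range c) : ContinuousAt (Function.invFun c) y :=
  (Pool.Agent.Helper70.BI.W4.invFun_ld hc hy).contMDiffAt.continuousAt

end F3

open F3 in
theorem m_F3 (hW4 : StW4) (hHC : StHC) (hNULC : StNULC) (hSMH : StSMH) (hR3 : StR3) (hA1 : StA1)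
    (hS4 : StS4) (hT2 : StT2) (hT4 : StT4) (hX1 : StX1) (hX2c : StX2c) (hX3 : StX3) (hEI : StEI)
    (hCI : StCI) {W : R4 → R4} (hW : IsW W) : StFinal3 := by
  obtain ⟨W₄, c₀, F₀, α₀, β₀, k1, k2, k3, k4, k5, k6, k7⟩ := hW4 W hW
  obtain ⟨-, tii, -, -, tv, -, -⟩ := hT2 _ _ (𝓡 4) S4
  obtain ⟨-, cs, cself, ct, cc, -, -, cconj, ciso, -⟩ := hCI _ _ (𝓡 4) S4
  have hE₀ : EmbOn (𝓡 4) F₀ SP := ⟨fun p hp => k6.loc p (SP_sub_FB hp), k6.inj⟩
  obtain ⟨B₀, hB₀, hBF, hiso⟩ := hR3 _ _ (𝓡 4) S4 F₀ W₄ hE₀ k7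
  obtain ⟨δ₀, hδ, hδF⟩ := hA1 R4 _ _ (𝓡 4) S4 F₀ (flat 0 ∪ flat 1)
    ((isCompact_flat 0).union (isCompact_flat 1))
    (fun p hp => k6.loc p (Or.inl hp)) k6.balls
  have hWi : implantation B₀ barMap = push B₀ barMap :=
    implantation_eq_push B₀ hB₀ isBarbellMap_barMap
  rw [← hWi] at hiso
  refine ⟨implantation B₀ barMap, ⟨⟨B₀, δ₀, hB₀, hδ, fun p hp => ?_, rfl⟩, ?_, ?_⟩, ?_⟩
  · have hp' : p ∈ flat 0 ∪ flat 1 := hp.imp (fun h => sph_sub_flat 0 h) fun h => sph_sub_flat 1 h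
    rw [hδF p (hδ hp'), hBF p hp]
  · -- order two
    have h1 := cc _ _ _ _ hiso hiso
    exact ciso _ _ (ct _ _ _ (cs _ _ h1) k3)
  · -- centrality
    intro Ψ Ψ' hΨ hΨ' i1 i2
    have h1 := cconj _ _ Ψ Ψ' hiso hΨ hΨ' i1 i2
    exact ciso _ _ (ct _ _ _ (cs _ _ h1) (ct _ _ _ (k4 Ψ Ψ' hΨ hΨ' i1 i2) hiso))
  intro B β c d hB hβ hcd
  have hsd : ∀ e : ℝ, (e = 0 ∨ e = 1) → sph e ⊆ SP := by
    rintro e (rfl | rfl) p hp
    · exact Or.inl (Or.inl hp)
    · exact Or.inl (Or.inr hp)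
  have hc01 : c = 0 ∨ c = 1 := by rcases hcd with h | h <;> simp [h.1]
  have hd01 : d = 0 ∨ d = 1 := by rcases hcd with h | h <;> simp [h.2]
  -- compact sets
  have hfixc : IsCompact (B '' sph c) := by
    have h1 : IsCompact (sph c) := by
      have h2 : IsCompact (flat c) := isCompact_flat c
      refine h2.of_isClosed_subset ?_ (sph_sub_flat c)
      apply IsClosed.inter (isClosed_eq continuous_fst continuous_const)
      exact isClosed_eq (continuous_rsq c) continuous_const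
    refine h1.image_of_continuousOn ?_
    intro p hp
    have : IsLocalDiffeomorphAt 𝓘(ℝ, R4) (𝓡 4) ∞ B p :=
      ⟨B, hB (SP_sub_NB (hsd c hc01 hp)), fun _ _ => rfl⟩
    exact this.contMDiffAt.continuousAt.continuousWithinAt
  have hsphd : IsCompact (sph d) := by
    have h2 : IsCompact (flat d) := isCompact_flat d
    refine h2.of_isClosed_subset ?_ (sph_sub_flat d)
    apply IsClosed.inter (isClosed_eq continuous_fst continuous_const)
    exact isClosed_eq (continuous_rsq d) continuous_const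
  have hsm : ∀ (B' : PartialDiffeomorph 𝓘(ℝ, R4) (𝓡 4) R4 S4 ∞), NB ⊆ B'.source →
      ∀ p ∈ sph d, ContMDiffAt 𝓘(ℝ, R4) (𝓡 4) ∞ B' p := by
    intro B' hB' p hp
    have : IsLocalDiffeomorphAt 𝓘(ℝ, R4) (𝓡 4) ∞ B' p :=
      ⟨B', hB' (SP_sub_NB (hsd d hd01 hp)), fun _ _ => rfl⟩
    exact this.contMDiffAt
  have hdom : IsCompact (Icc (0 : ℝ) 1 ×ˢ sph d) := isCompact_Icc.prod hsphd
  refine ⟨?_, ?_⟩
  · intro B' β' U h hB' hβ' hU hcU hEq hh h0 h1 hoff
    obtain ⟨h', hh', h0', h1', hoff', hint⟩ := hSMH B B' h (B '' sph c) d hfixc (hsm B hB)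
      (hsm B' hB') hh h0 h1 hoff
    obtain ⟨s1, s2⟩ := spine_small hEI hS4 B hB
    obtain ⟨s3, s4⟩ := spine_small hEI hS4 B' hB'
    have s5 : IsCompact (h' '' (Icc (0 : ℝ) 1 ×ˢ sph d)) := hdom.image_of_continuousOn hh'
    obtain ⟨ch, hch, hsub⟩ := hX2c ((B '' SP ∪ B' '' SP) ∪ h' '' (Icc (0 : ℝ) 1 ×ˢ sph d))
      ((s1.union s3).union s5) (by
        rw [interior_union_isClosed_of_interior_empty (s1.union s3).isClosed hint,
          interior_union_isClosed_of_interior_empty s1.isClosed s4, s2])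
    obtain ⟨hF, ⟨φ, hφ⟩, hT⟩ := transfer hT2 hT4 hX1 hX3 ch hch B β hB hβ
      ((subset_union_left.trans subset_union_left).trans hsub)
    obtain ⟨hF', ⟨φ', hφ'⟩, hT'⟩ := transfer hT2 hT4 hX1 hX3 ch hch B' β' hB' hβ'
      ((subset_union_right.trans subset_union_left).trans hsub)
    have hhr : ∀ z ∈ Icc (0 : ℝ) 1 ×ˢ sph d, h' z ∈ range ch := fun z hz =>
      hsub (Or.inr (mem_image_of_mem _ hz))
    have hinv : ∀ y ∈ range ch, ch (Function.invFun ch y) = y := fun y hy => Function.invFun_eq hy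
    obtain ⟨z1, -, -, z4, -⟩ := hX1 _ _ (𝓡 4) S4 ch hch
    have hor := hHC (fun p => Function.invFun ch (B p)) (fun p => Function.invFun ch (B' p)) U
      (fun z => Function.invFun ch (h' z)) W c d hW hcd hF hF' hU hcU
      (fun p hp => by
        have : B p = B' p := hEq hp
        simp only [this])
      (fun z hz => (invFun_continuousAt hch (hhr z hz)).comp_continuousWithinAt (hh' z hz))
      (fun p hp => by simp only [h0' p hp]) (fun p hp => by simp only [h1' p hp])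
      (fun u hu p hp => by
        rintro ⟨q, hq, he⟩
        have he' : Function.invFun ch (B q) = Function.invFun ch (h' (u, p)) := he
        have hBq : B q ∈ range ch :=
          hsub (Or.inl (Or.inl (mem_image_of_mem _ (hsd c hc01 hq))))
        have e1 : B q = h' (u, p) := by
          rw [← hinv _ hBq, he', hinv _ (hhr (u, p) ⟨hu, hp⟩)]
        exact hoff' u hu p hp ⟨q, hq, e1⟩)
      φ φ' hφ hφ'
    have q1 := hT φ hφ
    have q2 := hT' φ' hφ'
    rcases hor with e | e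
    · exact Or.inl (ciso _ _ (ct _ _ _ (cs _ _ q2) (ct _ _ _ (z1 _ _ e) q1)))
    · right
      have h1 := z1 _ _ e
      have e : imp ch univ (fun x => W (φ x)) = fun y => imp ch univ W (imp ch univ φ y) :=
        funext (z4 W φ)
      rw [e] at h1
      have h2 : CIsot (𝓡 4) (imp ch univ W) (implantation B₀ barMap) := ct _ _ _ (k2 ch hch) hiso
      have h3 := cc _ _ _ _ h2 q1
      exact ciso _ _ (ct _ _ _ (cs _ _ q2) (ct _ _ _ h1 h3))
  · intro h y hh h0 h1 hoff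
    obtain ⟨h', hh', h0', h1', hoff', hint⟩ := hSMH B (fun _ => y) h (B '' sph c) d hfixc (hsm B hB)
      (fun p _ => contMDiffAt_const) hh h0 h1 hoff
    obtain ⟨s1, s2⟩ := spine_small hEI hS4 B hB
    have s5 : IsCompact (h' '' (Icc (0 : ℝ) 1 ×ˢ sph d)) := hdom.image_of_continuousOn hh'
    obtain ⟨ch, hch, hsub⟩ := hX2c (B '' SP ∪ h' '' (Icc (0 : ℝ) 1 ×ˢ sph d))
      (s1.union s5) (by
        rw [interior_union_isClosed_of_interior_empty s1.isClosed hint, s2])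
    obtain ⟨hF, ⟨φ, hφ⟩, hT⟩ := transfer hT2 hT4 hX1 hX3 ch hch B β hB hβ
      (subset_union_left.trans hsub)
    have hhr : ∀ z ∈ Icc (0 : ℝ) 1 ×ˢ sph d, h' z ∈ range ch := fun z hz =>
      hsub (Or.inr (mem_image_of_mem _ hz))
    have hinv : ∀ y ∈ range ch, ch (Function.invFun ch y) = y := fun y hy => Function.invFun_eq hy
    obtain ⟨z1, -, -, z4, -⟩ := hX1 _ _ (𝓡 4) S4 ch hch
    have hor := hNULC (fun p => Function.invFun ch (B p))
      (fun z => Function.invFun ch (h' z)) (Function.invFun ch y) W φ c d hW hcd hF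
      (fun z hz => (invFun_continuousAt hch (hhr z hz)).comp_continuousWithinAt (hh' z hz))
      (fun p hp => by simp only [h0' p hp]) (fun p hp => by simp only [h1' p hp])
      (fun u hu p hp => by
        rintro ⟨q, hq, he⟩
        have he' : Function.invFun ch (B q) = Function.invFun ch (h' (u, p)) := he
        have hBq : B q ∈ range ch :=
          hsub (Or.inl (mem_image_of_mem _ (hsd c hc01 hq)))
        have e1 : B q = h' (u, p) := by
          rw [← hinv _ hBq, he', hinv _ (hhr (u, p) ⟨hu, hp⟩)]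
        exact hoff' u hu p hp ⟨q, hq, e1⟩)
      hφ
    have q1 := hT φ hφ
    rcases hor with e | e
    · left
      have h2 := z1 _ _ e
      rw [Pool.Agent.Helper70.BI.W4.imp_id] at h2
      exact ciso _ _ (ct _ _ _ (cs _ _ q1) h2)
    · right
      have h2 : CIsot (𝓡 4) (imp ch univ W) (implantation B₀ barMap) := ct _ _ _ (k2 ch hch) hiso
      exact ciso _ _ (ct _ _ _ (cs _ _ q1) (ct _ _ _ (z1 _ _ e) h2))

end Pool.Agent.Helper18.BI.H


end
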