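import Pool.Agent.Helper65.Barb.Defs
import Pool.Agent.Helper70.BI.B.P07
import Pool.Agent.Helper70.BI.B.P12

/-!
# Project BI (MP_8e98f2_gt): collected modules, part 35

The contents of the modules
* Helper27.BI.H.Harc
* Helper27.BI.H.Hcls

in one file, so that the whole proof builds in a short time.
-/

/-! ## Helper27.BI.H.Harc -/

section

/-!
# Project BI, stage 3 (H): the arc datum of an embedding of `K3 δ`
-/

set_option autoImplicit false
set_option linter.unusedSectionVars false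
set_option linter.unusedVariables false

open scoped Manifold ContDiff Topology ComplexConjugate
open Set Filter Pool.Agent.Helper65.Barb Pool.Agent.Helper18.BI
open Pool.Agent.Helper27.BI
open Pool.Agent.Helper70.BI (I4 LD NearEq ld_iff embOn_iff ld_congr ld_comp embOn_comp contDiff_dfam ld_dfam)

namespace Pool.Agent.Helper27.H

/-! ### elementary geometry -/

theorem rsq_eq' (c : ℝ) (p : R4) : rsq c p = (p.2.1 - c) ^ 2 + p.2.2.re ^ 2 + p.2.2.im ^ 2 := rfl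

theorem far0' {p : R4} (hp : rsq 0 p ≤ 1 / 25) : 16 / 25 ≤ rsq 1 p := by
  rw [rsq_eq'] at hp ⊢
  have h1 := sq_nonneg p.2.2.re
  have h2 := sq_nonneg p.2.2.im
  have h3 : p.2.1 ≤ 1 / 5 := by nlinarith
  nlinarith

theorem near1 {p : R4} (hp : rsq 1 p ≤ 1 / 9) : 1 / 25 ≤ rsq 0 p ∧ rsq 0 p ≤ (9 / 2) ^ 2 := by
  rw [rsq_eq'] at hp ⊢
  have h1 := sq_nonneg p.2.2.re
  have h2 := sq_nonneg p.2.2.im
  have h3 : 2 / 3 ≤ p.2.1 := by nlinarith
  have h4 : p.2.1 ≤ 4 / 3 := by nlinarith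
  constructor
  · nlinarith
  · nlinarith

section
variable {δ : ℝ}

theorem wall_sub (hδ : δ ∈ Ioo (0 : ℝ) (1 / 100)) : wallS δ ⊆ K3 δ := by
  rintro p ⟨h1, h2, h3, h4⟩
  have h5 := near1 (p := p) (by linarith [hδ.1])
  exact ⟨⟨by linarith, by linarith, h5.2⟩, h5.1, h3⟩

theorem wall_sub' (hδ : δ ∈ Ioo (0 : ℝ) (1 / 100)) :
    wallS δ ⊆ {p | p ∈ K3 δ ∧ rsq 1 p ≤ 1 / 9} :=
  fun p hp => ⟨wall_sub hδ hp, by linarith [hp.2.2.2, hδ.1]⟩

theorem Dreg_sub (hδ : δ ∈ Ioo (0 : ℝ) (1 / 100)) : Dreg δ ⊆ {p | p ∈ K3 δ ∧ rsq 1 p ≤ 1 / 9} := by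
  rintro p ⟨h1, h2, h3, h4⟩
  have h5 := near1 h4
  exact ⟨⟨⟨by linarith, by linarith, h5.2⟩, h5.1, by linarith [hδ.1]⟩, h4⟩

theorem SL_sub (hδ : δ ∈ Ioo (0 : ℝ) (1 / 100)) {p : R4} (hp : p ∈ SL) :
    p ∈ K3 δ ∧ 1 / 16 ≤ rsq 1 p := by
  obtain ⟨h1, h2, h3, h4⟩ := hp
  have h5 : 1 / 16 ≤ rsq 1 p := by
    rw [rsq_eq'] at h4 ⊢
    have h6 := sq_nonneg p.2.2.re
    have h7 := sq_nonneg p.2.2.im
    have h8 : p.2.1 ≤ 3 / 4 := by nlinarith
    nlinarith
  exact ⟨⟨⟨by linarith, by linarith, by linarith⟩, by linarith, by linarith [hδ.1]⟩, h5⟩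

theorem isCompact_K3 (δ : ℝ) : IsCompact (K3 δ) :=
  isCompact_ball4.inter_right ((isClosed_le continuous_const (continuous_rsq 0)).inter
    (isClosed_le continuous_const (continuous_rsq 1)))

theorem isCompact_wall (hδ : δ ∈ Ioo (0 : ℝ) (1 / 100)) : IsCompact (wallS δ) := by
  apply (isCompact_K3 δ).of_isClosed_subset _ (wall_sub hδ)
  exact (isClosed_le continuous_const continuous_fst).inter
    ((isClosed_le continuous_fst continuous_const).inter
      ((isClosed_le continuous_const (continuous_rsq 1)).inter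
        (isClosed_le (continuous_rsq 1) continuous_const)))

theorem isCompact_Dreg (hδ : δ ∈ Ioo (0 : ℝ) (1 / 100)) : IsCompact (Dreg δ) := by
  apply (isCompact_K3 δ).of_isClosed_subset _ (fun p hp => (Dreg_sub hδ hp).1)
  exact (isClosed_le continuous_const continuous_fst).inter
    ((isClosed_le continuous_fst continuous_const).inter
      ((isClosed_le continuous_const (continuous_rsq 1)).inter
        (isClosed_le (continuous_rsq 1) continuous_const)))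

theorem isCompact_SL : IsCompact SL := by
  have hδ : (1 / 200 : ℝ) ∈ Ioo (0 : ℝ) (1 / 100) := by norm_num
  apply (isCompact_K3 (1 / 200)).of_isClosed_subset _ (fun p hp => (SL_sub hδ hp).1)
  exact (isClosed_le continuous_const continuous_fst).inter
    ((isClosed_le continuous_fst continuous_const).inter
      ((isClosed_le continuous_const (continuous_rsq 0)).inter
        (isClosed_le (continuous_rsq 0) continuous_const)))

end

theorem contDiff_z0 : ContDiff ℝ ∞ z0 := (contDiff_const.sub contDiff_bfin).smul contDiff_const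

theorem contDiff_zq : ContDiff ℝ ∞ (fun p : ℝ × ℝ => zq p.1 p.2) := by
  have h := contDiff_gam.comp (f := fun p : ℝ × ℝ => ((1 : ℝ), (p.1, p.2)))
    (contDiff_const.prodMk contDiff_id)
  have e : (fun p : ℝ × ℝ => zq p.1 p.2) =
      (fun p : ℝ × ℝ × ℝ => gam p.1 p.2.1 p.2.2) ∘ fun p => (1, p.1, p.2) := by
    funext p
    show zq p.1 p.2 = gam 1 p.1 p.2
    rw [gam_u1]
  rw [e]
  exact h

theorem contDiff_zq' {E : Type*} [NormedAddCommGroup E] [NormedSpace ℝ E] {f g : E → ℝ}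
    (hf : ContDiff ℝ ∞ f) (hg : ContDiff ℝ ∞ g) : ContDiff ℝ ∞ (fun x => zq (f x) (g x)) := by
  have h := contDiff_zq.comp (hf.prodMk hg)
  have e : (fun p : ℝ × ℝ => zq p.1 p.2) ∘ (fun x => (f x, g x)) = fun x => zq (f x) (g x) := by
    funext x; simp only [Function.comp_apply]
  rwa [e] at h

theorem nsq_zq (q s : ℝ) : nsq (zq q s) = (1 - bfin s) ^ 2 := by
  unfold zq
  rw [nsq_smul, nsq_barPath, mul_one]

theorem rsq0_zq (q s : ℝ) : rsq 0 (s, zq q s) = (1 - bfin s) ^ 2 := by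
  rw [rsq0_eq, nsq_zq]

/-- the distance of the arcs to the vertical line over `e1` -/
theorem rsq1_zq_ge (q s : ℝ) : bfin s ^ 2 ≤ rsq 1 (s, zq q s) := by
  rw [rsq1_eq]
  show _ ≤ nsq (zq q s - e1)
  exact nsq_sub_ge (r := 1 - bfin s) (R := 1) (by linarith [bfin_le s]) (bfin_nonneg s)
    (by linarith) (nsq_zq q s).le (by rw [nsq_e1]; norm_num)

theorem rsq1_z0 (s : ℝ) : rsq 1 (s, z0 s) = bfin s ^ 2 := by
  rw [rsq1_eq]
  show nsq (z0 s - e1) = _
  have : z0 s - e1 = (-bfin s) • e1 := by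
    unfold z0
    rw [sub_smul, one_smul, neg_smul]; abel
  rw [this, nsq_smul, nsq_e1]
  ring

theorem zq_mem {δ q s : ℝ} (hs : s ∈ Icc (0 : ℝ) 1) (hb : 1 / 25 - δ ≤ bfin s ^ 2)
    (hδ : δ ∈ Ioo (0 : ℝ) (1 / 100)) : (s, zq q s) ∈ K3 δ := by
  have h1 := bfin_le s
  have h2 := bfin_nonneg s
  refine ⟨⟨by linarith [hs.1], by linarith [hs.2], ?_⟩, ?_, ?_⟩
  · rw [rsq0_zq]; nlinarith
  · rw [rsq0_zq]; nlinarith
  · have := rsq1_zq_ge q s
    linarith [hδ.1]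

/-! ### the shear -/

/-- level preserving translation by the arc `z` -/
def shr (z : ℝ → R3) (p : R4) : R4 := (p.1, z p.1 + p.2)

theorem contDiff_shr {z : ℝ → R3} (hz : ContDiff ℝ ∞ z) : ContDiff ℝ ∞ (shr z) :=
  contDiff_fst.prodMk ((hz.comp contDiff_fst).add contDiff_snd)

theorem shr_injective (z : ℝ → R3) : Function.Injective (shr z) := by
  rintro ⟨s, x⟩ ⟨t, y⟩ h
  have h1 : s = t := congrArg Prod.fst h
  subst h1
  have h2 : z s + x = z s + y := congrArg Prod.snd h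
  rw [add_left_cancel h2]

theorem ld_shr {z : ℝ → R3} (hz : ContDiff ℝ ∞ z) (p : R4) : LD (shr z) p := by
  rw [ld_iff]
  refine ⟨Filter.Eventually.of_forall fun q => (contDiff_shr hz).contDiffAt, ?_⟩
  have hd : HasFDerivAt (shr z) ((ContinuousLinearMap.fst ℝ ℝ R3).prod
      (((fderiv ℝ z p.1).comp (ContinuousLinearMap.fst ℝ ℝ R3)) +
        ContinuousLinearMap.snd ℝ ℝ R3)) p := by
    apply HasFDerivAt.prodMk hasFDerivAt_fst
    apply HasFDerivAt.add _ hasFDerivAt_snd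
    exact ((hz.differentiable (by simp) p.1).hasFDerivAt).comp p hasFDerivAt_fst
  rw [hd.fderiv, injective_iff_map_eq_zero]
  rintro ⟨σ, v⟩ h
  have h1 : σ = 0 := congrArg Prod.fst h
  have h2 : fderiv ℝ z p.1 σ + v = 0 := congrArg Prod.snd h
  rw [h1, map_zero, zero_add] at h2
  rw [h1, h2]
  rfl

theorem embOn_shr {z : ℝ → R3} (hz : ContDiff ℝ ∞ z) (L : Set R4) : EmbOn I4 (shr z) L :=
  ⟨fun p _ => ld_shr hz p, (shr_injective z).injOn⟩

/-- smooth extension of a function defined near a compact interval -/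
theorem exists_smooth_ext {f : ℝ → R4} {a b : ℝ} (hab : a ≤ b)
    (hf : ∀ s ∈ Icc a b, ∀ᶠ t in 𝓝 s, ContDiffAt ℝ ∞ f t) :
    ∃ c : ℝ → R4, ContDiff ℝ ∞ c ∧ ∀ s ∈ Icc a b, c =ᶠ[𝓝 s] f := by
  obtain ⟨O, hO, hab', hfO⟩ : ∃ O : Set ℝ, IsOpen O ∧ Icc a b ⊆ O ∧ ∀ s ∈ O, ContDiffAt ℝ ∞ f s := by
    refine ⟨interior {s | ContDiffAt ℝ ∞ f s}, isOpen_interior, fun s hs => ?_, fun s hs => ?_⟩
    · exact mem_interior_iff_mem_nhds.2 (hf s hs)
    · have h3 : s ∈ {s | ContDiffAt ℝ ∞ f s} := interior_subset hs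
      exact h3
  obtain ⟨r, hr, hrO⟩ : ∃ r > 0, Icc (a - 2 * r) (b + 2 * r) ⊆ O := by
    obtain ⟨ε, hε, h⟩ := (isCompact_Icc (a := a) (b := b)).exists_cthickening_subset_open hO hab'
    refine ⟨ε / 2, by positivity, fun s hs => h ?_⟩
    have hne : (Icc a b).Nonempty := ⟨a, le_rfl, hab⟩
    refine Metric.mem_cthickening_of_dist_le s (max a (min s b)) ε _
      ⟨le_max_left _ _, max_le hab (min_le_right _ _)⟩ ?_
    rw [Real.dist_eq, abs_le]
    constructor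
    · rcases le_total a (min s b) with h1 | h1
      · rw [max_eq_right h1]; linarith [min_le_left s b, hs.1]
      · rw [max_eq_left h1]; linarith [hs.1]
    · rcases le_total s b with h2 | h2
      · rw [min_eq_left h2]; linarith [le_max_right a s]
      · rw [min_eq_right h2]; linarith [le_max_right a b, hs.2]
  set χ : ℝ → ℝ := fun s => step ((s - (a - 2 * r)) / r) * step (((b + 2 * r) - s) / r) with hχ
  have hχs : ContDiff ℝ ∞ χ := by
    apply ContDiff.mul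
    · exact contDiff_step.comp ((contDiff_id.sub contDiff_const).div_const _)
    · exact contDiff_step.comp ((contDiff_const.sub contDiff_id).div_const _)
  have hχ0 : ∀ s, (s ≤ a - 2 * r ∨ b + 2 * r ≤ s) → χ s = 0 := by
    intro s hs
    rcases hs with h | h
    · show step _ * step _ = 0
      rw [step_of_nonpos (div_nonpos_of_nonpos_of_nonneg (by linarith) hr.le), zero_mul]
    · show step _ * step _ = 0
      rw [step_of_nonpos (s := ((b + 2 * r) - s) / r)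
        (div_nonpos_of_nonpos_of_nonneg (by linarith) hr.le), mul_zero]
  have hχ1 : ∀ s, a - r ≤ s → s ≤ b + r → χ s = 1 := by
    intro s h1 h2
    show step _ * step _ = 1
    rw [step_of_one_le (by rw [le_div_iff₀ hr]; linarith),
      step_of_one_le (by rw [le_div_iff₀ hr]; linarith), mul_one]
  refine ⟨fun s => χ s • f s, ?_, ?_⟩
  · rw [contDiff_iff_contDiffAt]
    intro s
    by_cases hs : s ∈ O
    · exact hχs.contDiffAt.smul (hfO s hs)
    · have hs' : s ∈ (Icc (a - 2 * r) (b + 2 * r))ᶜ := fun h => hs (hrO h)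
      have h0 : (fun s => χ s • f s) =ᶠ[𝓝 s] fun _ => 0 := by
        filter_upwards [isClosed_Icc.isOpen_compl.mem_nhds hs'] with t ht
        rw [hχ0 t, zero_smul]
        by_contra h
        push Not at h
        exact ht ⟨h.1.le, h.2.le⟩
      exact contDiffAt_const.congr_of_eventuallyEq h0
  · intro s hs
    filter_upwards [Ioo_mem_nhds (show a - r < s by linarith [hs.1])
      (show s < b + r by linarith [hs.2])] with t ht
    rw [hχ1 t ht.1.le ht.2.le, one_smul]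

/-- **HARC.** -/
theorem m_HARC (hE : StEHAT) : StHARC := by
  intro T T' G δ hT hδ hG
  obtain ⟨s₀, hs₀, s₁, hs₁, hb₀, hb₁, hb, hb'⟩ := m_BFIN.2.2.2.2 δ hδ
  have hge : ∀ s ∈ Icc s₀ s₁, 1 / 25 - δ ≤ bfin s ^ 2 := by
    rintro s ⟨h1, h2⟩
    rcases h1.lt_or_eq with h1 | rfl
    · rcases h2.lt_or_eq with h2 | rfl
      · exact (hb s ⟨h1, h2⟩).le
      · exact hb₁.ge
    · exact hb₀.ge
  have h01 : ∀ s ∈ Icc s₀ s₁, s ∈ Icc (0 : ℝ) 1 := by
    rintro s ⟨h1, h2⟩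
    exact ⟨by linarith [hs₀.1], by linarith [hs₁.2]⟩
  have hzK : ∀ s ∈ Icc s₀ s₁, (s, z0 s) ∈ K3 δ := by
    intro s hs
    rw [← zq_zero]
    exact zq_mem (h01 s hs) (hge s hs) hδ
  have hz : ContDiff ℝ ∞ (fun s : ℝ => ((s, z0 s) : R4)) := contDiff_id.prodMk contDiff_z0
  obtain ⟨c, hc, hcG⟩ := exists_smooth_ext (f := fun s => G (s, z0 s)) (a := s₀) (b := s₁)
    (by linarith [hs₀.2, hs₁.1]) (by
      intro s hs
      have h1 := (ld_iff.1 (hG.1 _ (hzK s hs))).1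
      have h2 : ContinuousAt (fun s : ℝ => ((s, z0 s) : R4)) s := hz.continuous.continuousAt
      filter_upwards [h2.eventually h1] with t ht
      exact ht.comp t hz.contDiffAt)
  have hcG' : ∀ s ∈ Icc s₀ s₁, c s = G (s, z0 s) := fun s hs => (hcG s hs).self_of_nhds
  have hwall : ∀ s ∈ Icc s₀ s₁, c s ∈ G '' wallS δ → bfin s ^ 2 ≤ 1 / 25 - δ := by
    rintro s hs ⟨p, hp, hpe⟩
    rw [hcG' s hs] at hpe
    have := hG.2 (wall_sub hδ hp) (hzK s hs) hpe
    subst this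
    rw [← rsq1_z0]
    exact hp.2.2.2
  refine ⟨⟨(G '' wallS δ)ᶜ, s₀, 9 / 20, 11 / 20, s₁, fun p => G (p.1, z0 p.1 + p.2), c,
    imp G (Dreg δ) (e0 δ T'), ?_, by linarith [hs₀.2], by norm_num, by linarith [hs₁.1], hc, ?_, ?_,
    ?_, ?_, ?_, ?_⟩, rfl, rfl, rfl, rfl, rfl, hs₀, hs₁, hb₀, hb₁, hb, hb'⟩
  · have h1 : ContinuousOn G (wallS δ) := fun p hp =>
      ((ld_iff.1 (hG.1 p (wall_sub hδ hp))).1.self_of_nhds.continuousAt).continuousWithinAt
    exact ((isCompact_wall hδ).image_of_continuousOn h1).isClosed.isOpen_compl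
  · intro s hs
    show G (s, z0 s + 0) = c s
    rw [add_zero, hcG' s hs]
  · have h1 : EmbOn I4 (G ∘ shr z0) (seg s₀ s₁) := by
      apply embOn_comp hG (embOn_shr contDiff_z0 _)
      rintro ⟨s, y⟩ ⟨h1, h2, h3⟩
      have h3' : y = 0 := h3
      subst h3'
      show (s, z0 s + 0) ∈ K3 δ
      rw [add_zero]
      exact hzK s ⟨h1, h2⟩
    exact h1
  · intro s hs h
    exact absurd (hwall s ⟨hs.1.le, hs.2.le⟩ h) (not_le.2 (hb s hs))
  · intro h
    have hs : s₀ ∈ Icc s₀ s₁ := ⟨le_rfl, by linarith [hs₀.2, hs₁.1]⟩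
    apply h
    refine ⟨(s₀, z0 s₀), ⟨?_, ?_, ?_, ?_⟩, (hcG' s₀ hs).symm⟩
    · exact (h01 s₀ hs).1
    · exact (h01 s₀ hs).2
    · rw [rsq1_z0, hb₀]; linarith [hδ.1]
    · rw [rsq1_z0, hb₀]
  · intro h
    have hs : s₁ ∈ Icc s₀ s₁ := ⟨by linarith [hs₀.2, hs₁.1], le_rfl⟩
    apply h
    refine ⟨(s₁, z0 s₁), ⟨?_, ?_, ?_, ?_⟩, (hcG' s₁ hs).symm⟩
    · exact (h01 s₁ hs).1
    · exact (h01 s₁ hs).2
    · rw [rsq1_z0, hb₁]; linarith [hδ.1]
    · rw [rsq1_z0, hb₁]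
  · apply BI.EmbOn.mono (hE T T' G δ hT hδ hG)
    rintro y ⟨hy1, hy2⟩
    refine ⟨hy1, ?_⟩
    rintro ⟨s, hs, rfl⟩
    apply hy2
    have hs' : s ∈ Ioo s₀ s₁ := by
      by_contra h
      exact absurd hs (not_lt.2 (hb' s h))
    refine ⟨(s, 0), ⟨hs'.1.le, hs'.2.le, rfl⟩, ?_⟩
    show G (s, z0 s + 0) = G (s, z0 s)
    rw [add_zero]

end Pool.Agent.Helper27.H


end

/-! ## Helper27.BI.H.Hcls -/

section

/-!
# Project BI, stage 3 (H): the class of the loop of fingers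
-/

set_option autoImplicit false
set_option linter.unusedSectionVars false
set_option linter.unusedVariables false

open scoped Manifold ContDiff Topology ComplexConjugate
open Set Filter Pool.Agent.Helper65.Barb Pool.Agent.Helper18.BI
open Pool.Agent.Helper27.BI
open Pool.Agent.Helper34.BI (rade qe)
open Pool.Agent.Helper70.BI (I4 LD NearEq ld_iff embOn_iff ld_congr ld_comp embOn_comp contDiff_dfam ld_dfam)

namespace Pool.Agent.Helper27.H

section
variable {δ : ℝ}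

/-- the region of the compression -/
def KB : Set R4 := {p | p ∈ ball4 ∧ 1 / 25 ≤ rsq 0 p ∧ (1 / 100) ^ 2 ≤ rsq 1 p}

theorem isCompact_KB : IsCompact KB :=
  isCompact_ball4.inter_right ((isClosed_le continuous_const (continuous_rsq 0)).inter
    (isClosed_le continuous_const (continuous_rsq 1)))

theorem rade_level (δ : ℝ) (p : R4) : (rade δ 1 p).1 = p.1 := rfl

theorem rade_low (hδ : δ ∈ Ioo (0 : ℝ) (1 / 100)) {p : R4} (hp : 0 < rsq 1 p) :
    1 / 25 - 3 * δ ≤ rsq 1 (rade δ 1 p) := by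
  have hf := Helper34.BI.RE.qe_prf hδ.1 (by linarith [hδ.2] : δ < 1)
  have e1 : rsq 1 (rade δ 1 p) = qe δ (rsq 1 p) := Helper34.BI.RE.rsq_rad hf 1 p hp
  rw [e1]
  exact Helper34.BI.RE.qe_low hδ.1 hδ.2 hp.le

theorem rade_up (hδ : δ ∈ Ioo (0 : ℝ) (1 / 100)) {p : R4} (hp : 0 < rsq 1 p)
    (hp' : rsq 1 p ≤ 1 / 9) : rsq 1 (rade δ 1 p) ≤ 1 / 9 := by
  have hf := Helper34.BI.RE.qe_prf hδ.1 (by linarith [hδ.2] : δ < 1)
  have e1 : rsq 1 (rade δ 1 p) = qe δ (rsq 1 p) := Helper34.BI.RE.rsq_rad hf 1 p hp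
  rw [e1]
  have := hf.mono.monotone hp'
  rwa [Helper34.BI.RE.qe_eq hδ.1 (q := 1 / 9) (by linarith [hδ.1])] at this

theorem rade_self (hδ : δ ∈ Ioo (0 : ℝ) (1 / 100)) {p : R4} (hp : 1 / 25 - δ ≤ rsq 1 p) :
    rade δ 1 p = p := Helper34.BI.RE.rade_id hδ.1 hδ.2 1 hp

theorem rade_emb (hδ : δ ∈ Ioo (0 : ℝ) (1 / 100)) : EmbOn I4 (rade δ 1) {p | 0 < rsq 1 p} := by
  have hf := Helper34.BI.RE.qe_prf hδ.1 (by linarith [hδ.2] : δ < 1)
  refine ⟨fun p hp => ?_, Helper34.BI.RE.rad_inj hf 1⟩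
  rw [m_A0 R4 (rade δ 1) p]
  exact ⟨⟨_, R2.isOpen_pos 1, hp, Helper34.BI.RE.rad_contDiffOn hf 1⟩,
    fun v hv => Helper34.BI.RE.rad_fderiv hf 1 p v hp hv⟩

theorem rade_K3 (hδ : δ ∈ Ioo (0 : ℝ) (1 / 100)) {p : R4} (hp : p ∈ KB) : rade δ 1 p ∈ K3 δ := by
  obtain ⟨h1, h2, h3⟩ := hp
  have hpos : 0 < rsq 1 p := by linarith
  rcases le_or_gt (1 / 25 - δ) (rsq 1 p) with h | h
  · rw [rade_self hδ h]
    exact ⟨h1, h2, by linarith [hδ.1]⟩
  · have h4 := near1 (rade_up hδ hpos (by linarith [hδ.1]))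
    exact ⟨⟨h1.1, h1.2.1, h4.2⟩, h4.1, rade_low hδ hpos⟩

/-- the tube about the finger -/
def ftube : Set R4 := {p | nsq (p.2 - z0 p.1) < (1 / 100) ^ 2}

theorem continuous_nsq : Continuous nsq := by
  unfold nsq
  exact ((continuous_fst.pow 2).add ((Complex.continuous_re.comp continuous_snd).pow 2)).add
    ((Complex.continuous_im.comp continuous_snd).pow 2)

theorem isOpen_ftube : IsOpen ftube :=
  isOpen_lt (continuous_nsq.comp (continuous_snd.sub (contDiff_z0.continuous.comp continuous_fst)))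
    continuous_const

/-- the support of the push of the loop -/
def SL' : Set R4 := SL \ ftube

theorem isCompact_SL' : IsCompact SL' := isCompact_SL.diff isOpen_ftube

theorem bsupp_KB : bsupp ⊆ KB := by
  intro p hp
  have h1 := (bsupp_subset hp).1
  exact ⟨h1, le_trans (by norm_num) hp.2.1, le_trans (by norm_num) hp.2.2⟩

section finger
variable {T T' : R4 → R4} (hT : FingOk T T')
include hT

theorem fing_inv_level (p : R4) : (T' p).1 = p.1 := by
  have := hT.level (T' p)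
  rw [hT.right] at this
  exact this.symm

/-- the inverse fixes what `T` fixes -/
theorem fing_inv_fix {p : R4} (h : T p = p) : T' p = p := by
  have := hT.left p
  rwa [h] at this

theorem fing_far' {p : R4} (hp : (3 / 10) ^ 2 ≤ rsq 1 (T' p)) : T' p = p := by
  have := hT.far _ hp
  rw [hT.right] at this
  exact this.symm

theorem fing_KB {p : R4} (hp : p ∈ SL') : T' p ∈ KB := by
  obtain ⟨hp1, hp2⟩ := hp
  by_cases h : (3 / 10) ^ 2 ≤ rsq 1 (T' p)
  · have e := fing_far' hT h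
    rw [e] at h ⊢
    have h3 := (SL_sub (δ := 1 / 200) (by norm_num) hp1).1
    exact ⟨h3.1, h3.2.1, le_trans (by norm_num) h⟩
  · push Not at h
    have h4 := near1 (p := T' p) (by linarith)
    have h5 := fing_inv_level hT p
    refine ⟨⟨?_, ?_, h4.2⟩, h4.1, ?_⟩
    · rw [h5]; linarith [hp1.1]
    · rw [h5]; linarith [hp1.2.1]
    · by_contra h6
      push Not at h6
      apply hp2
      rw [rsq1_eq] at h6
      have h7 := hT.tube (T' p).1 ((T' p).2 - e1) h6.le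
      rw [add_sub_cancel] at h7
      have h8 : T (T' p) = p := hT.right p
      have h9 : p = ((T' p).1, z0 (T' p).1 + ((T' p).2 - e1)) := h8.symm.trans h7
      show nsq (p.2 - z0 p.1) < _
      rw [h9]
      show nsq (z0 (T' p).1 + ((T' p).2 - e1) - z0 (T' p).1) < _
      rw [add_sub_cancel_left]
      exact h6

/-- the retraction is the identity far from the fixed cuff -/
theorem e0_far (hδ : δ ∈ Ioo (0 : ℝ) (1 / 100)) {p : R4} (hp : 1 / 9 ≤ rsq 1 p) :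
    e0 δ T' p = p := by
  unfold e0
  rw [fing_inv_fix hT (hT.far p (by linarith)), rade_self hδ (by linarith [hδ.1])]

theorem e0_near (hδ : δ ∈ Ioo (0 : ℝ) (1 / 100)) {p : R4} (hp : p ∈ SL') (hp' : rsq 1 p ≤ 1 / 9) :
    e0 δ T' p ∈ {p | p ∈ K3 δ ∧ rsq 1 p ≤ 1 / 9} := by
  have h1 := fing_KB hT hp
  have h2 : rsq 1 (T' p) ≤ 1 / 9 := by
    by_cases h : (3 / 10) ^ 2 ≤ rsq 1 (T' p)
    · rw [fing_far' hT h]; exact hp'
    · push Not at h; linarith
  exact ⟨rade_K3 hδ h1, rade_up hδ (by linarith [h1.2.2]) h2⟩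

end finger

/-! ### the push of the loop -/

section lam
variable {F : DFam 𝓘(ℝ, R4) R4} (hF : LamOk F)
include hF

theorem lam_one_tube {p : R4} (hp : p ∈ ftube) : F.f (1, p) = p := by
  have h := hF.tube 1 p.1 (p.2 - z0 p.1) (le_of_lt hp)
  rw [add_sub_cancel, BI.step_one, zq_one, add_sub_cancel] at h
  exact h

theorem lam_one_off {p : R4} (hp : p ∉ SL') : F.f (1, p) = p := by
  by_cases h : p ∈ SL
  · have : p ∈ ftube := by
      by_contra h'
      exact hp ⟨h, h'⟩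
    exact lam_one_tube hF this
  · exact hF.supp 1 p h

theorem lam_one_maps {p : R4} (hp : p ∈ SL') : F.f (1, p) ∈ SL' := by
  by_contra h
  have h1 := lam_one_off hF h
  have h2 : F.f (1, p) = p := by
    have := congrArg (fun z => F.g (1, z)) h1
    simp only [F.gf] at this
    exact this
  rw [h2] at h
  exact h hp

end lam

/-! ### the class of the loop -/

/-- the loop of thick arcs -/
noncomputable def Jq (G : R4 → R4) (q : ℝ) (p : R4) : R4 := G (p.1, zq q p.1 + p.2)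

section hcls
variable {T T' G G' : R4 → R4} {D : ArcD} (hδ : δ ∈ Ioo (0 : ℝ) (1 / 100)) (hD : HatOk δ T' G D)
  (hG : EmbOn I4 G (K3 δ)) (hG' : EmbOn I4 G' (K3 δ))
  (hn : NearEq G G' {p | p ∈ K3 δ ∧ rsq 1 p ≤ 1 / 9})
include hδ hD hG hG' hn

theorem hat_ge {s : ℝ} (hs : s ∈ Icc D.s₀ D.s₁) : 1 / 25 - δ ≤ bfin s ^ 2 := by
  obtain ⟨h1, h2⟩ := hs
  rcases h1.lt_or_eq with h1 | rfl
  · rcases h2.lt_or_eq with h2 | rfl
    · exact (hD.b s ⟨h1, h2⟩).le
    · exact hD.b₁.ge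
  · exact hD.b₀.ge

theorem hat_01 {s : ℝ} (hs : s ∈ Icc D.s₀ D.s₁) : s ∈ Icc (0 : ℝ) 1 :=
  ⟨by linarith [hD.s₀.1, hs.1], by linarith [hD.s₁.2, hs.2]⟩

theorem hat_zq (q : ℝ) {s : ℝ} (hs : s ∈ Icc D.s₀ D.s₁) : (s, zq q s) ∈ K3 δ :=
  zq_mem (hat_01 hδ hD hG hG' hn hs) (hat_ge hδ hD hG hG' hn hs) hδ

theorem hat_z0 {s : ℝ} (hs : s ∈ Icc D.s₀ D.s₁) :
    (s, z0 s) ∈ {p : R4 | p ∈ K3 δ ∧ rsq 1 p ≤ 1 / 9} := by
  refine ⟨?_, ?_⟩
  · rw [← zq_zero]
    exact hat_zq hδ hD hG hG' hn 0 hs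
  · rw [rsq1_z0]
    have h1 := bfin_le s
    have h2 := bfin_nonneg s
    nlinarith

theorem hat_cores (q : ℝ) {s : ℝ} (hs : s ∈ Icc D.s₀ D.s₁) : Jq G' q (s, 0) = loopc D G' q s := by
  show G' (s, zq q s + 0) = loopc D G' q s
  rw [add_zero]
  unfold loopc
  split_ifs with h
  · rfl
  · have h2 : s ≤ 9 / 20 ∨ 11 / 20 ≤ s := by
      by_contra h3
      push Not at h3
      exact h ⟨by linarith [h3.1], by linarith [h3.2]⟩
    rw [zq_out q h2, ← D.core s hs, hD.J]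
    show G' (s, z0 s) = G (s, z0 s + 0)
    rw [add_zero]
    exact ((hn.eventuallyEq (hat_z0 hδ hD hG hG' hn hs)).self_of_nhds).symm

theorem hat_emb (q : ℝ) : EmbOn I4 (Jq G' q) D.L := by
  have hz : ContDiff ℝ ∞ (fun s : ℝ => zq q s) :=
    contDiff_zq' (f := fun _ : ℝ => q) (g := fun s : ℝ => s) contDiff_const contDiff_id
  have h1 : EmbOn I4 (G' ∘ shr (fun s => zq q s)) D.L := by
    apply embOn_comp hG' (embOn_shr hz _)
    rintro ⟨s, y⟩ ⟨h1, h2, h3⟩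
    have h3' : y = 0 := h3
    subst h3'
    show (s, zq q s + 0) ∈ K3 δ
    rw [add_zero]
    exact hat_zq hδ hD hG hG' hn q ⟨h1, h2⟩
  exact h1

/-- the frozen region -/
theorem hat_V : ∃ V : Set R4, IsOpen V ∧ ((D.s₀, 0) : R4) ∈ V ∧ ((D.s₁, 0) : R4) ∈ V ∧
    ∀ p ∈ V, ∀ q, Jq G' q p = D.J p := by
  obtain ⟨N, hN, hN1, hN2⟩ := hn
  refine ⟨{p : R4 | (p.1 < 9 / 20 ∨ 11 / 20 < p.1) ∧ shr z0 p ∈ N}, ?_, ?_, ?_, ?_⟩
  · apply IsOpen.inter
    · exact (isOpen_lt continuous_fst continuous_const).union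
        (isOpen_lt continuous_const continuous_fst)
    · exact hN.preimage (contDiff_shr contDiff_z0).continuous
  · refine ⟨Or.inl (by show D.s₀ < 9 / 20; linarith [hD.s₀.2]), hN1 ?_⟩
    show (D.s₀, z0 D.s₀ + 0) ∈ _
    rw [add_zero]
    exact hat_z0 hδ hD hG hG' ⟨N, hN, hN1, hN2⟩ ⟨le_rfl, by linarith [hD.s₀.2, hD.s₁.1]⟩
  · refine ⟨Or.inr (by show 11 / 20 < D.s₁; linarith [hD.s₁.1]), hN1 ?_⟩
    show (D.s₁, z0 D.s₁ + 0) ∈ _
    rw [add_zero]
    exact hat_z0 hδ hD hG hG' ⟨N, hN, hN1, hN2⟩ ⟨by linarith [hD.s₀.2, hD.s₁.1], le_rfl⟩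
  · rintro ⟨s, y⟩ ⟨h1, h2⟩ q
    have h3 : s ≤ 9 / 20 ∨ 11 / 20 ≤ s := by
      rcases h1 with h | h
      · exact Or.inl (le_of_lt h)
      · exact Or.inr (le_of_lt h)
    rw [hD.J]
    show G' (s, zq q s + y) = G (s, z0 s + y)
    rw [zq_out q h3]
    exact (hN2 h2).symm

theorem hat_inU (q : ℝ) {s : ℝ} (hs : s ∈ Ioo D.s₀ D.s₁) : G' (s, zq q s) ∈ D.U := by
  rw [hD.U]
  rintro ⟨p, hp, hpe⟩
  have hs' : s ∈ Icc D.s₀ D.s₁ := ⟨hs.1.le, hs.2.le⟩
  have h1 : G p = G' p := (hn.eventuallyEq (wall_sub' hδ hp)).self_of_nhds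
  rw [h1] at hpe
  have h2 := hG'.2 (wall_sub hδ hp) (hat_zq hδ hD hG hG' hn q hs') hpe
  have h3 := rsq1_zq_ge q s
  rw [← h2] at h3
  linarith [hp.2.2.2, hD.b s hs]

theorem hat_fam {V : Set R4} (hV0 : ((D.s₀, 0) : R4) ∈ V) (hV1 : ((D.s₁, 0) : R4) ∈ V)
    (hV : ∀ p ∈ V, ∀ q, Jq G' q p = D.J p) : Fam2 Q2 D.L V D.U (fun a => Jq G' a.2) := by
  refine ⟨?_, fun a _ => hat_emb hδ hD hG hG' hn a.2, ?_, ?_⟩
  · rintro a ha ⟨s, y⟩ ⟨h1, h2, h3⟩
    have h3' : y = 0 := h3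
    subst h3'
    have hm : ContDiff ℝ ∞ (fun z : (ℝ × ℝ) × R4 => ((z.2.1, zq z.1.2 z.2.1 + z.2.2) : R4)) := by
      have e1 : ContDiff ℝ ∞ (fun z : (ℝ × ℝ) × R4 => z.2.1) := contDiff_fst.comp contDiff_snd
      have e2 : ContDiff ℝ ∞ (fun z : (ℝ × ℝ) × R4 => z.1.2) := contDiff_snd.comp contDiff_fst
      have e3 : ContDiff ℝ ∞ (fun z : (ℝ × ℝ) × R4 => zq z.1.2 z.2.1) := contDiff_zq' e2 e1
      exact e1.prodMk (e3.add (contDiff_snd.comp contDiff_snd))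
    have h4 : ∀ᶠ x in 𝓝 ((s, zq a.2 s + 0) : R4), ContDiffAt ℝ ∞ G' x := by
      rw [add_zero]
      exact (ld_iff.1 (hG'.1 _ (hat_zq hδ hD hG hG' hn a.2 ⟨h1, h2⟩))).1
    have h5 : ContinuousAt (fun z : (ℝ × ℝ) × R4 => ((z.2.1, zq z.1.2 z.2.1 + z.2.2) : R4))
        (a, ((s, 0) : R4)) := hm.continuous.continuousAt
    filter_upwards [h5.eventually h4] with z hz
    exact hz.comp z hm.contDiffAt
  · intro a _ b _ p hp
    show Jq G' a.2 p = Jq G' b.2 p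
    rw [hV p hp, hV p hp]
  · rintro a _ ⟨s, y⟩ ⟨h1, h2, h3⟩ hp
    have h3' : y = 0 := h3
    subst h3'
    show G' (s, zq a.2 s + 0) ∈ D.U
    rw [add_zero]
    apply hat_inU hδ hD hG hG' hn
    refine ⟨lt_of_le_of_ne h1 ?_, lt_of_le_of_ne h2 ?_⟩
    · intro h
      apply hp
      have h' : D.s₀ = s := h
      rw [← h']; exact hV0
    · intro h
      apply hp
      have h' : s = D.s₁ := h
      rw [h']; exact hV1

theorem hat_near {q : ℝ} (hq : ∀ s, zq q s = z0 s) : NearEq (Jq G' q) D.J D.L := by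
  obtain ⟨N, hN, hN1, hN2⟩ := hn
  refine ⟨shr z0 ⁻¹' N, hN.preimage (contDiff_shr contDiff_z0).continuous, ?_, ?_⟩
  · rintro ⟨s, y⟩ ⟨h1, h2, h3⟩
    have h3' : y = 0 := h3
    subst h3'
    apply hN1
    show (s, z0 s + 0) ∈ _
    rw [add_zero]
    exact hat_z0 hδ hD hG hG' ⟨N, hN, hN1, hN2⟩ ⟨h1, h2⟩
  · rintro ⟨s, y⟩ h
    rw [hD.J]
    show G' (s, zq q s + y) = G (s, z0 s + y)
    rw [hq]
    exact (hN2 h).symm

theorem hat_inj (q : ℝ) : InjOn (loopc D G' q) (Icc D.s₀ D.s₁) := by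
  intro s hs t ht h
  rw [← hat_cores hδ hD hG hG' hn q hs, ← hat_cores hδ hD hG hG' hn q ht] at h
  have hs' : ((s, 0) : R4) ∈ D.L := ⟨hs.1, hs.2, rfl⟩
  have ht' : ((t, 0) : R4) ∈ D.L := ⟨ht.1, ht.2, rfl⟩
  have := (hat_emb hδ hD hG hG' hn q).2 hs' ht' h
  exact congrArg Prod.fst this

theorem hat_diff (q : ℝ) {s : ℝ} (hs : s ∈ Icc D.s₀ D.s₁) :
    DifferentiableAt ℝ (loopc D G' q) s := by
  by_cases h : s ∈ Ioo (3 / 10 : ℝ) (7 / 10)
  · have h1 : loopc D G' q =ᶠ[𝓝 s] fun s => Jq G' q (s, 0) := by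
      filter_upwards [Ioo_mem_nhds h.1 h.2] with t ht
      show loopc D G' q t = G' (t, zq q t + 0)
      rw [add_zero]
      unfold loopc
      rw [if_pos ⟨ht.1.le, ht.2.le⟩]
    refine DifferentiableAt.congr_of_eventuallyEq ?_ h1
    have h2 : ((s, 0) : R4) ∈ D.L := ⟨hs.1, hs.2, rfl⟩
    have h3 := (ld_iff.1 ((hat_emb hδ hD hG hG' hn q).1 _ h2)).1.self_of_nhds.differentiableAt
      (by simp)
    have h4 : DifferentiableAt ℝ (fun s : ℝ => ((s, 0) : R4)) s :=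
      differentiableAt_id.prodMk (differentiableAt_const _)
    have h5 : DifferentiableAt ℝ ((Jq G' q) ∘ fun s : ℝ => ((s, 0) : R4)) s := h3.comp s h4
    exact h5
  · have h2 : s < 9 / 20 ∨ 11 / 20 < s := by
      by_contra h3
      push Not at h3
      exact h ⟨by linarith [h3.1], by linarith [h3.2]⟩
    have h4 : loopc D G' q =ᶠ[𝓝 s] D.c := by
      have h5 : ∀ᶠ t in 𝓝 s, (t < 9 / 20 ∨ 11 / 20 < t) := by
        rcases h2 with h | h
        · filter_upwards [Iio_mem_nhds h] with t ht using Or.inl ht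
        · filter_upwards [Ioi_mem_nhds h] with t ht using Or.inr ht
      filter_upwards [h5] with t ht
      unfold loopc
      split_ifs with h6
      · have h7 : t ∈ Icc D.s₀ D.s₁ := ⟨by linarith [h6.1, hD.s₀.2], by linarith [h6.2, hD.s₁.1]⟩
        have h8 := hat_cores hδ hD hG hG' hn q h7
        have h9 : t ≤ 9 / 20 ∨ 11 / 20 ≤ t := by
          rcases ht with h | h
          · exact Or.inl h.le
          · exact Or.inr h.le
        rw [zq_out q h9, ← D.core t h7, hD.J]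
        show G' (t, z0 t) = G (t, z0 t + 0)
        rw [add_zero]
        exact ((hn.eventuallyEq (hat_z0 hδ hD hG hG' hn h7)).self_of_nhds).symm
      · rfl
    exact DifferentiableAt.congr_of_eventuallyEq (D.smooth.differentiable (by simp) s) h4

theorem hat_deriv (q : ℝ) {s : ℝ} (hs : s ∈ Icc D.s₀ D.s₁) : deriv (loopc D G' q) s ≠ 0 := by
  intro h0
  have h2 : ((s, 0) : R4) ∈ D.L := ⟨hs.1, hs.2, rfl⟩
  have h3 := ld_iff.1 ((hat_emb hδ hD hG hG' hn q).1 _ h2)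
  have h4 := (h3.1.self_of_nhds.differentiableAt (by simp)).hasFDerivAt
  have h5 : HasDerivAt (fun s : ℝ => ((s, 0) : R4)) ((1, 0) : R4) s :=
    (hasDerivAt_id s).prodMk (hasDerivAt_const s _)
  have h6 : HasDerivAt ((Jq G' q) ∘ fun s : ℝ => ((s, 0) : R4))
      (fderiv ℝ (Jq G' q) (s, 0) (1, 0)) s := h4.comp_hasDerivAt s h5
  have h7 : HasDerivWithinAt (loopc D G' q) (fderiv ℝ (Jq G' q) (s, 0) (1, 0)) (Icc D.s₀ D.s₁) s :=
    h6.hasDerivWithinAt.congr (fun t ht => (hat_cores hδ hD hG hG' hn q ht).symm)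
      (hat_cores hδ hD hG hG' hn q hs).symm
  have h8 := (hat_diff hδ hD hG hG' hn q hs).hasDerivAt.hasDerivWithinAt (s := Icc D.s₀ D.s₁)
  rw [h0] at h8
  have hu : UniqueDiffWithinAt ℝ (Icc D.s₀ D.s₁) s :=
    uniqueDiffOn_Icc (by linarith [hD.s₀.2, hD.s₁.1]) s hs
  have h9 := hu.eq_deriv _ h7 h8
  have h10 : ((1, 0) : R4) = 0 := h3.2 (by rw [h9, map_zero])
  exact one_ne_zero (congrArg Prod.fst h10)

end hcls

/-- the point of the target of the retraction -/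
theorem hat_e {T T' G G' : R4 → R4} {D : ArcD} (hδ : δ ∈ Ioo (0 : ℝ) (1 / 100))
    (hD : HatOk δ T' G D) (hT : FingOk T T') (hG : EmbOn I4 G (K3 δ)) (hG' : EmbOn I4 G' (K3 δ))
    (hn : NearEq G G' {p | p ∈ K3 δ ∧ rsq 1 p ≤ 1 / 9}) {p : R4} (hp : p ∈ SL') :
    D.e (G' p) = G' (e0 δ T' p) := by
  have hK := SL_sub hδ hp.1
  have heq : ∀ x ∈ {p : R4 | p ∈ K3 δ ∧ rsq 1 p ≤ 1 / 9}, G x = G' x := fun x hx =>
    (hn.eventuallyEq hx).self_of_nhds
  rw [hD.e]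
  rcases le_or_gt (rsq 1 p) (1 / 9) with h | h
  · have hpD : p ∈ Dreg δ :=
      ⟨by linarith [hp.1.1], by linarith [hp.1.2.1], by linarith [hδ.1, hK.2], h⟩
    rw [← heq p ⟨hK.1, h⟩, imp_image (hG.2.mono fun x hx => (Dreg_sub hδ hx).1) hpD,
      heq _ (e0_near hT hδ hp h)]
  · rw [e0_far hT hδ h.le, imp_off]
    rintro ⟨x, hx, hxe⟩
    have hx' := Dreg_sub hδ hx
    rw [heq x hx'] at hxe
    have := hG'.2 hx'.1 hK.1 hxe
    rw [this] at hx'
    linarith [hx'.2]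

/-- **HCLS.** -/
theorem m_HCLS : StHCLS := by
  intro T T' G G' φ F δ D hT hF hiso hδ hG hD hG' hn hφ
  refine ⟨?_, fun q _ => ⟨hat_inj hδ hD hG hG' hn q, fun s hs => hat_deriv hδ hD hG hG' hn q hs⟩⟩
  obtain ⟨V, hV, hV0, hV1, hVJ⟩ := hat_V hδ hD hG hG' hn
  refine ⟨Jq G', fun q _ s hs => hat_cores hδ hD hG hG' hn q hs, V, hV, hV0, hV1,
    hat_fam hδ hD hG hG' hn hV0 hV1 hVJ, fun p hp => hVJ p hp 0,
    hat_near hδ hD hG hG' hn zq_zero, hat_near hδ hD hG hG' hn zq_one, ?_⟩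
  -- the partial diffeomorphism
  obtain ⟨ε, hε1, hε2⟩ := m_A1 R4 R4 R4 I4 R4 G' (K3 δ) (isCompact_K3 δ) hG'.1 hG'.2
  have hSLs : SL ⊆ ε.source := fun p hp => hε1 (SL_sub hδ hp).1
  have him : ∀ K ⊆ ε.source, ε '' K = G' '' K := fun K hK => image_congr fun p hp => hε2 p (hK hp)
  have hinj : InjOn G' ε.source := by
    intro p hp p' hp' h
    rw [← hε2 p hp, ← hε2 p' hp'] at h
    exact ε.toPartialEquiv.injOn hp hp' h
  have hcont : ContinuousOn G' ε.source := by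
    have h1 : ContinuousOn ε ε.source := ε.contMDiffOn_toFun.continuousOn
    exact h1.congr fun p hp => (hε2 p hp).symm
  have heq : ∀ x ∈ {p : R4 | p ∈ K3 δ ∧ rsq 1 p ≤ 1 / 9}, G x = G' x := fun x hx =>
    (hn.eventuallyEq hx).self_of_nhds
  set Ψ : DFam 𝓘(ℝ, R4) R4 := F.push ε isCompact_SL hSLs (fun t x hx => hF.supp t x hx) with hΨ
  have hΨ1 : ∀ t, ∀ p ∈ ε.source, Ψ.f (t, G' p) = ε (F.f (t, p)) := by
    intro t p hp
    show push ε (fun x => F.f (t, x)) (G' p) = _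
    rw [← hε2 p hp, push_of_mem ε _ hp]
  have hmaps : ∀ t, ∀ p ∈ ε.source, F.f (t, p) ∈ ε.source := by
    intro t p hp
    by_cases h : p ∈ SL
    · exact hSLs (F.mapsTo (fun t x hx => hF.supp t x hx) t h)
    · rw [hF.supp t p h]; exact hp
  have hΨ1' : ∀ t, ∀ p ∈ ε.source, Ψ.f (t, G' p) = G' (F.f (t, p)) := fun t p hp => by
    rw [hΨ1 t p hp, hε2 _ (hmaps t p hp)]
  have hΨ2 : ∀ t y, y ∉ G' '' SL → Ψ.f (t, y) = y := by
    intro t y hy
    show push ε (fun x => F.f (t, x)) y = y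
    apply push_of_notMem ε _ hSLs (fun x hx => hF.supp t x hx)
    rwa [him SL hSLs]
  have hSLU : G' '' SL ⊆ D.U := by
    rintro _ ⟨p, hp, rfl⟩
    rw [hD.U]
    rintro ⟨x, hx, hxe⟩
    have hp' := SL_sub hδ hp
    rw [heq x (wall_sub' hδ hx)] at hxe
    have h1 := hG'.2 (wall_sub hδ hx) hp'.1 hxe
    rw [← h1] at hp'
    have h2 := hx.2.2.2
    linarith [hδ.1, hp'.2]
  have hSLc : IsCompact (G' '' SL) := isCompact_SL.image_of_continuousOn (hcont.mono hSLs)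
  refine ⟨fun y => Ψ.f (1, y), ⟨Ψ, ?_, fun _ => rfl, ⟨G' '' SL, hSLc, hSLU, hΨ2⟩, ?_⟩, ?_⟩
  · intro y
    by_cases hy : y ∈ G' '' SL
    · obtain ⟨p, hp, rfl⟩ := hy
      rw [hΨ1' 0 p (hSLs hp), hF.zero]
    · exact hΨ2 0 y hy
  · refine ⟨{p : R4 | nsq p.2 < (1 / 100) ^ 2 ∧ shr z0 p ∈ ε.source}, ?_, ?_, ?_⟩
    · apply IsOpen.inter
      · exact isOpen_lt (continuous_nsq.comp continuous_snd) continuous_const
      · exact ε.open_source.preimage (contDiff_shr contDiff_z0).continuous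
    · rintro ⟨s, y⟩ ⟨h1, h2, h3⟩
      have h3' : y = 0 := h3
      subst h3'
      refine ⟨?_, hε1 ?_⟩
      · show nsq 0 < _
        norm_num [nsq]
      · show (s, z0 s + 0) ∈ _
        rw [add_zero]
        exact (hat_z0 hδ hD hG hG' hn ⟨h1, h2⟩).1
    · rintro t _ ⟨s, y⟩ ⟨h1, h2⟩
      show Ψ.f (t, G' (s, zq 0 s + y)) = G' (s, zq (step t) s + y)
      rw [zq_zero]
      have h2' : ((s, z0 s + y) : R4) ∈ ε.source := h2
      rw [hΨ1' t _ h2', hF.tube t s y (le_of_lt h1)]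
  -- the class
  have hSL's : SL' ⊆ ε.source := fun p hp => hSLs hp.1
  have hKsub : G' '' SL' ⊆ D.U \ D.A := by
    rintro y hy
    refine ⟨hSLU ((image_mono sdiff_subset) hy), ?_⟩
    obtain ⟨p, hp, rfl⟩ := hy
    rintro ⟨⟨s, x⟩, ⟨h1, h2, h3⟩, h4⟩
    have h3' : x = 0 := h3
    subst h3'
    rw [hD.J] at h4
    have h5 : G (s, z0 s + 0) = G' p := h4
    rw [add_zero] at h5
    have h6 := hat_z0 hδ hD hG hG' hn (s := s) ⟨h1, h2⟩
    rw [heq _ h6] at h5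
    have h7 := hG'.2 h6.1 (SL_sub hδ hp.1).1 h5
    apply hp.2
    rw [← h7]
    show nsq (z0 s - z0 s) < _
    rw [sub_self]
    norm_num [nsq]
  refine ⟨G' '' SL', isCompact_SL'.image_of_continuousOn (hcont.mono hSL's), hKsub, ?_, ?_⟩
  · intro y hy
    by_cases hy' : y ∈ G' '' SL
    · obtain ⟨p, hp, rfl⟩ := hy'
      have hp' : p ∉ SL' := fun h => hy ⟨p, h, rfl⟩
      show Ψ.f (1, G' p) = G' p
      rw [hΨ1' 1 p (hSLs hp), lam_one_off hF hp']
    · exact hΨ2 1 y hy'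
  -- the chain of isotopies
  have hrK : ∀ p ∈ KB, rade δ 1 p ∈ K3 δ := fun p hp => rade_K3 hδ hp
  have hre : EmbOn I4 (rade δ 1) KB :=
    BI.EmbOn.mono (rade_emb hδ) (fun p hp => by
      have h : (1 / 100 : ℝ) ^ 2 ≤ rsq 1 p := hp.2.2
      show 0 < rsq 1 p
      linarith)
  have hGr : EmbOn I4 (G' ∘ rade δ 1) KB := embOn_comp hG' hre hrK
  have s1 : imp G' bsupp barMap = imp (G' ∘ rade δ 1) KB barMap := by
    rw [imp_mono hGr.2 bsupp_KB (fun p hp => barMap_off hp)]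
    apply imp_congr (hG'.2.mono fun p hp => ?_) (fun p hp => ?_) (barMap_mapsTo (subset_refl _))
    · have h1 := bsupp_KB hp
      exact ⟨h1.1, h1.2.1, by linarith [hδ.1, hp.2.2]⟩
    · show G' p = G' (rade δ 1 p)
      rw [rade_self hδ]
      have : (1 / 5 : ℝ) ^ 2 ≤ rsq 1 p := hp.2.2
      linarith [hδ.1]
  have s2 : CIsot I4 (imp (G' ∘ rade δ 1) KB barMap)
      (imp (G' ∘ rade δ 1) KB (fun p => T' (F.f (1, T p)))) := by
    apply tiso_cisot hiso isCompact_KB _ hGr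
    intro p hp
    by_contra h
    push Not at h
    obtain ⟨h1, h2, h3⟩ := h
    apply hp
    refine ⟨h1, ?_, ?_⟩
    · by_contra h4
      push Not at h4
      exact h2 h4.le
    · by_contra h4
      push Not at h4
      apply h3
      show nsq (p.2 - (1, 0)) < _
      rw [nsq_sub_one]
      exact h4
  have hT'inj : Function.Injective T' := fun x y h => by
    rw [← hT.right x, ← hT.right y, h]
  have hinj2 : InjOn (fun p => G' (e0 δ T' p)) SL' := by
    intro p hp p' hp' h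
    have h1 := fing_KB hT hp
    have h2 := fing_KB hT hp'
    exact hT'inj (hGr.2 h1 h2 h)
  have s3 : imp (G' ∘ rade δ 1) KB (fun p => T' (F.f (1, T p))) =
      imp (fun p => G' (e0 δ T' p)) SL' (fun p => F.f (1, p)) := by
    apply imp_eq_of hGr.2 hinj2
    · intro p hp
      refine ⟨T' p, fing_KB hT hp, rfl, ?_⟩
      show G' (rade δ 1 (T' (F.f (1, T (T' p))))) = G' (rade δ 1 (T' (F.f (1, p))))
      rw [hT.right]
    · intro q hq
      by_cases h : T q ∈ SL'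
      · left
        refine ⟨T q, h, ?_⟩
        show G' (rade δ 1 (T' (T q))) = G' (rade δ 1 q)
        rw [hT.left]
      · right
        show G' (rade δ 1 (T' (F.f (1, T q)))) = G' (rade δ 1 q)
        rw [lam_one_off hF h, hT.left]
  have s4 : imp (fun p => G' (e0 δ T' p)) SL' (fun p => F.f (1, p)) =
      imp D.e (G' '' SL') (fun y => Ψ.f (1, y)) := by
    symm
    apply imp_eq_of (D.embe.2.mono hKsub) hinj2
    · intro p hp
      refine ⟨G' p, ⟨p, hp, rfl⟩, hat_e hδ hD hT hG hG' hn hp, ?_⟩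
      show D.e (Ψ.f (1, G' p)) = G' (e0 δ T' (F.f (1, p)))
      rw [hΨ1' 1 p (hSL's hp), hat_e hδ hD hT hG hG' hn (lam_one_maps hF hp)]
    · rintro _ ⟨p, hp, rfl⟩
      left
      exact ⟨p, hp, (hat_e hδ hD hT hG hG' hn hp).symm⟩
  rw [← s4, ← s3]
  rw [s1] at hφ
  exact BI.CIsot.trans' hφ s2

end

end Pool.Agent.Helper27.H


end
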