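import Pool.Agent.Helper18.BI.R.FinDefs
import Pool.Agent.Helper65.Barb.Defs
import Pool.Agent.Helper70.BI.B.P19
import Pool.Agent.Helper70.BI.B.P22
import Pool.Agent.Helper70.BI.B.P23
import Pool.Agent.Helper70.BI.B.P24
import Pool.Agent.Helper70.BI.B.P25
import Pool.Agent.Helper70.BI.B.P29
import Pool.Agent.Helper70.BI.B.P30
import Pool.Agent.Helper70.BI.B.P31
import Pool.Agent.Helper70.BI.B.P32
import Pool.Agent.Helper70.BI.B.P33
import Pool.Agent.Helper70.BI.B.P36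

/-!
# Project BI (MP_8e98f2_gt): collected modules, part 37

The contents of the modules
* Helper18.BI.H.PI2Adapt
* Helper18.BI.H.AsmPI2
* Helper34.BI.H.M_GP
* Helper34.BI.H.AsmH4
* Helper27.BI.H.Joint
* Helper27.BI.H.M_PHI
* Helper27.BI.H.AsmH
* Helper34.BI.H.M_PHT
* Helper34.BI.H.AsmCross
* Helper18.BI.R.M_WRD
* Helper27.BI.R.M_MULT
* Helper27.BI.R.M_PAR
* Helper27.BI.R.AsmR
* Helper27.BI.R.M_PAR4

in one file, so that the whole proof builds in a short time.
-/

/-! ## Helper18.BI.H.PI2Adapt -/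

section

set_option autoImplicit false

open scoped Manifold ContDiff Topology ComplexConjugate
open Set Pool.Agent.Helper65.Barb Pool.Agent.Helper18.BI

namespace Pool.Agent.Helper18.BI.H

theorem inj_of_det_pos {A : R3 →L[ℝ] R3} (h : 0 < A.det) (v : R3) (hv : A v = 0) : v = 0 := by
  have h1 : IsUnit (LinearMap.det (A : R3 →ₗ[ℝ] R3)) := by
    have : LinearMap.det (A : R3 →ₗ[ℝ] R3) = A.det := rfl
    rw [this]
    exact h.ne'.isUnit
  have h2 := LinearMap.isUnit_iff_isUnit_det (A : R3 →ₗ[ℝ] R3) |>.2 h1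
  have h3 : Function.Injective (A : R3 →ₗ[ℝ] R3) := by
    have := (Module.End.isUnit_iff _).1 h2
    exact this.injective
  apply h3
  rw [map_zero]
  exact hv

theorem det_ne_zero_of_inj {A : R3 →L[ℝ] R3} (h : ∀ v, A v = 0 → v = 0) : A.det ≠ 0 := by
  have h1 : Function.Injective (A : R3 →ₗ[ℝ] R3) := by
    rw [← LinearMap.ker_eq_bot, LinearMap.ker_eq_bot']
    exact fun v hv => h v hv
  have h2 : Function.Bijective (A : R3 →ₗ[ℝ] R3) :=
    ⟨h1, LinearMap.surjective_of_injective h1⟩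
  have h3 := (LinearMap.isUnit_iff_isUnit_det (A : R3 →ₗ[ℝ] R3)).1 ((Module.End.isUnit_iff _).2 h2)
  exact h3.ne_zero

theorem pi2_adapt (h : StPI2) : Pool.Agent.Helper27.H.StPI2 := by
  intro M hM hdet h1
  have hoff : ∀ x : ℝ × ℝ, x ∉ Ioo (0 : ℝ) 1 ×ˢ Ioo (0 : ℝ) 1 →
      M x = ContinuousLinearMap.id ℝ (ℝ × ℂ) := by
    intro x hx
    have hcl : IsClosed {x : ℝ × ℝ | M x = ContinuousLinearMap.id ℝ (ℝ × ℂ)} :=
      isClosed_eq hM.continuous continuous_const
    have hsub : (Pool.Agent.Helper27.H.Q2)ᶜ ⊆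
        {x : ℝ × ℝ | M x = ContinuousLinearMap.id ℝ (ℝ × ℂ)} := fun y hy => h1 y hy
    have h2 := closure_minimal hsub hcl
    apply h2
    rw [closure_compl]
    intro hx'
    apply hx
    have : interior Pool.Agent.Helper27.H.Q2 = Ioo (0 : ℝ) 1 ×ˢ Ioo (0 : ℝ) 1 := by
      rw [Pool.Agent.Helper27.H.Q2, interior_prod_eq, interior_Icc]
    rwa [this] at hx'
  obtain ⟨Γ, hΓ, hinj, h0, h1', hb⟩ := h 0 1 M one_pos ⟨hM, fun x v hv =>
    inj_of_det_pos (hdet x) v hv, hoff⟩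
  refine ⟨fun z => Γ z, hΓ, ?_, h0, h1', fun t x hx => hb t x (fun hx' => hx ?_)⟩
  · have hc : Continuous fun z => (Γ z).det :=
      ContinuousLinearMap.continuous_det.comp hΓ.continuous
    have hne : ∀ z, (Γ z).det ≠ 0 := fun z => det_ne_zero_of_inj (hinj z)
    intro z
    by_contra hz
    have hz' : (Γ z).det < 0 := lt_of_le_of_ne (not_lt.1 hz) (hne z)
    have hp : 0 < (Γ (1, (0, 0))).det := by
      rw [h1']
      have : (ContinuousLinearMap.id ℝ (ℝ × ℂ)).det = 1 := by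
        change LinearMap.det (LinearMap.id : (ℝ × ℂ) →ₗ[ℝ] (ℝ × ℂ)) = 1
        exact LinearMap.det_id
      rw [this]
      exact one_pos
    obtain ⟨y, hy⟩ := mem_range_of_exists_le_of_exists_ge hc ⟨z, hz'.le⟩ ⟨_, hp.le⟩
    exact hne y hy
  · exact prod_mono Ioo_subset_Icc_self Ioo_subset_Icc_self hx'

end Pool.Agent.Helper18.BI.H


end

/-! ## Helper18.BI.H.AsmPI2 -/

section

set_option autoImplicit false

namespace Pool.Agent.Helper18.BI.H

theorem hPI2 : StPI2 := m_PI2 (m_PI2B m_PI2A)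

/-- `π₂` of the group of linear maps of three-space with positive determinant is trivial. -/
theorem hPI2' : Pool.Agent.Helper27.H.StPI2 := pi2_adapt hPI2

end Pool.Agent.Helper18.BI.H


end

/-! ## Helper34.BI.H.M_GP -/

section

/-!
# Project BI, stage 3, module GP: existence of generic perturbations
-/

set_option autoImplicit false

open Module Set Filter Topology MeasureTheory
open scoped ContDiff Manifold
open Pool.Agent.Helper65.Barb Pool.Agent.Helper18.BI

namespace Pool.Agent.Helper34.BI.H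

theorem m_GP (h1 : StNU1) (h2 : StNU2) (h3 : StNU3) (h4 : StNU4) : StGP := by
  intro α ρ χ hα hρ hχ ε hε
  let μ : Measure (Fin 8 → R4) := Measure.addHaar
  have n1 := h1 μ α ρ χ hα hρ hχ
  have n2 := h2 μ α ρ χ hα hρ hχ
  have n3 := h3 μ α ρ χ hα hρ hχ (fun w => (w.1, w.2.1)) (fun w => (w.1, w.2.2))
    (by fun_prop) (by fun_prop)
  have n3' := h3 μ α ρ χ hα hρ hχ (fun w => (w.1, w.2.1)) (fun w => (w.2.2, w.2.1))
    (by fun_prop) (by fun_prop)
  have n4 := h4 μ α ρ χ hα hρ hχ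
  have hn := measure_union_null n1 (measure_union_null n2 (measure_union_null n3
    (measure_union_null n3' n4)))
  have hball : 0 < μ (Metric.ball (0 : Fin 8 → R4) ε) := Metric.measure_ball_pos μ _ hε
  by_contra hcon
  push Not at hcon
  refine absurd (measure_mono_null ?_ hn) hball.ne'
  intro p hp
  rw [mem_ball_zero_iff] at hp
  have hnot := hcon p hp
  by_contra hc
  apply hnot
  simp only [mem_union, mem_setOf_eq, not_or, not_exists, not_and] at hc
  obtain ⟨c1, c2, c3, c3', c4⟩ := hc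
  refine ⟨?_, ?_, ?_, ?_⟩
  · intro u q s a1 a2 a3
    exact c1 u q s a1 a2 a3
  · intro u q s t a1 a2 a3 a4
    have := c2 u q s t a1 a2 a3 a4
    exact not_not.1 this
  · intro u q u' q' s t s' t' b0 b1 b2 b3 b4 b5 b6 b7 b8 b9
    rcases b1 with rfl | rfl
    · exact c3 (u, q, q') s t s' t' b0 b2 b3 b4 b5 b6 b7 b8 b9
    · exact c3' (u, q, u') s t s' t' b0 b2 b3 b4 b5 b6 b7 b8 b9
  · intro u q s t s' t' a1 a2 a3 a4
    exact c4 u q s t s' t' a1 a2 a3 a4

end Pool.Agent.Helper34.BI.H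


end

/-! ## Helper34.BI.H.AsmH4 -/

section

/-!
# Project BI, stage 3: general position, unconditionally
-/

set_option autoImplicit false

namespace Pool.Agent.Helper34.BI.H

theorem hNP1 : StNP1 := m_NP1
theorem hNP2 : StNP2 := m_NP2
theorem hNU1 : StNU1 := m_NU1 hNP1
theorem hNU2 : StNU2 := m_NU2 hNP2
theorem hNU3 : StNU3 := m_NU3 hNP1
theorem hNU4 : StNU4 := m_NU4 hNP1
theorem hGP : StGP := m_GP hNU1 hNU2 hNU3 hNU4
theorem hH4 : StH4 := m_H4 hGP
/-- `StGP` of Helper27/BI/H/StH1.lean -/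
theorem hGPD : Pool.Agent.Helper27.H.StGP := m_GPD hGP

end Pool.Agent.Helper34.BI.H


end

/-! ## Helper27.BI.H.Joint -/

section

/-!
# Project BI, stage 3 (H): chains along paths from chains with joint smoothness
-/

set_option autoImplicit false

open scoped Manifold ContDiff Topology ComplexConjugate
open Set Filter Pool.Agent.Helper65.Barb Pool.Agent.Helper18.BI
open Pool.Agent.Helper70.BI (I4 LD Eqv NearEq)

namespace Pool.Agent.Helper27.H

/-- a `DFam` of `R4` from smooth families of maps inverse to each other -/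
theorem exists_dfam {f g : ℝ × R4 → R4} (hf : ContDiff ℝ ∞ f) (hg : ContDiff ℝ ∞ g)
    (h1 : ∀ t x, f (t, g (t, x)) = x) (h2 : ∀ t x, g (t, f (t, x)) = x) :
    ∃ F : DFam 𝓘(ℝ, R4) R4, (∀ t x, F.f (t, x) = f (t, x)) ∧ ∀ t x, F.g (t, x) = g (t, x) := by
  refine ⟨⟨f, g, ?_, ?_, h1, h2⟩, fun _ _ => rfl, fun _ _ => rfl⟩
  · rw [← contMDiff_iff_contDiff, modelWithCornersSelf_prod, ← chartedSpaceSelf_prod] at hf
    exact hf
  · rw [← contMDiff_iff_contDiff, modelWithCornersSelf_prod, ← chartedSpaceSelf_prod] at hg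
    exact hg

theorem ch4_of_joint (h : StCH4J) : StCH4 := by
  intro Q L V U J hQ hQc hL hV hU hJ
  obtain ⟨P, P', O, hO, hQO, hP, hP', hinv, hid, N, hN, hLN, K, hK, hKU, hc⟩ :=
    h Q L V U J hQ hQc hL hV hU hJ
  refine ⟨P, hid, N, hN, hLN, K, hK, hKU, fun a b ha hb ha' hb' => ?_⟩
  have hz : ContDiff ℝ ∞ (fun z : ℝ × R4 => (((a z.1, b z.1), z.2) : ((ℝ × ℝ) × (ℝ × ℝ)) × R4)) :=
    ((ha.comp contDiff_fst).prodMk (hb.comp contDiff_fst)).prodMk contDiff_snd
  have hm : ∀ z : ℝ × R4, (((a z.1, b z.1), z.2) : ((ℝ × ℝ) × (ℝ × ℝ)) × R4) ∈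
      O ×ˢ (univ : Set R4) := fun z => ⟨hQO ⟨ha' _, hb' _⟩, mem_univ _⟩
  have hOo : IsOpen (O ×ˢ (univ : Set R4)) := hO.prod isOpen_univ
  have h1 : ContDiff ℝ ∞ (fun z : ℝ × R4 => P (a z.1) (b z.1) z.2) := by
    rw [contDiff_iff_contDiffAt]
    intro z
    exact ContDiffAt.comp z (hP.contDiffAt (hOo.mem_nhds (hm z))) hz.contDiffAt
  have h2 : ContDiff ℝ ∞ (fun z : ℝ × R4 => P' (a z.1) (b z.1) z.2) := by
    rw [contDiff_iff_contDiffAt]
    intro z
    exact ContDiffAt.comp z (hP'.contDiffAt (hOo.mem_nhds (hm z))) hz.contDiffAt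
  obtain ⟨F, hF, -⟩ := exists_dfam h1 h2
    (fun t x => (hinv (a t) (b t) (hQO ⟨ha' t, hb' t⟩) x).1)
    (fun t x => (hinv (a t) (b t) (hQO ⟨ha' t, hb' t⟩) x).2)
  refine ⟨F, hF, fun t x hx => ?_, fun t p hp => ?_⟩
  · rw [hF]
    exact (hc (a t) (ha' t) (b t) (hb' t)).1 x hx
  · rw [hF]
    exact (hc (a t) (ha' t) (b t) (hb' t)).2 p hp

end Pool.Agent.Helper27.H


end

/-! ## Helper27.BI.H.M_PHI -/

section

/-!
# Project BI, stage 3 (H), module PHI: the homomorphism `Phi`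
-/

set_option autoImplicit false

open scoped Manifold ContDiff Topology ComplexConjugate
open Set Filter Pool.Agent.Helper65.Barb Pool.Agent.Helper18.BI
open Pool.Agent.Helper70.BI (I4 LD Eqv NearEq StPT)
open Pool.Agent.Helper34.BI (qmul qinv)

namespace Pool.Agent.Helper27.H

namespace PHI

private theorem isCompact_seg (s₀ s₁ : ℝ) : IsCompact (seg s₀ s₁) := by
  have h : seg s₀ s₁ = (fun s : ℝ => ((s, 0) : R4)) '' Icc s₀ s₁ := by
    ext p
    constructor
    · rintro ⟨h1, h2, h3⟩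
      exact ⟨p.1, ⟨h1, h2⟩, Prod.ext rfl h3.symm⟩
    · rintro ⟨s, hs, rfl⟩
      exact ⟨hs.1, hs.2, rfl⟩
  rw [h]
  exact isCompact_Icc.image (by fun_prop)

/-- the germ of the base arc is a partial diffeomorphism near the segment -/
private theorem exists_pd (D : ArcD) : ∃ δ : PartialDiffeomorph 𝓘(ℝ, R4) I4 R4 R4 ∞,
    D.L ⊆ δ.source ∧ ∀ p ∈ δ.source, δ p = D.J p :=
  hA1 R4 R4 R4 I4 R4 D.J D.L (isCompact_seg _ _) D.emb.1 D.emb.2

private theorem image_open (δ : PartialDiffeomorph 𝓘(ℝ, R4) I4 R4 R4 ∞) {N : Set R4}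
    (hN : IsOpen N) : IsOpen (δ '' (δ.source ∩ N)) :=
  δ.toOpenPartialHomeomorph.isOpen_image_source_inter hN

private theorem isCompact_A (D : ArcD) : IsCompact D.A := by
  obtain ⟨δ, h1, h2⟩ := exists_pd D
  have h3 : D.A = δ '' D.L := by
    refine (image_congr fun p hp => ?_).symm
    exact h2 p (h1 hp)
  rw [h3]
  exact (isCompact_seg _ _).image_of_continuousOn
    (δ.toOpenPartialHomeomorph.continuousOn.mono h1)

/-- the isotopies of `LIso` are supported in a compact subset of `U \ A` -/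
private theorem supp (D : ArcD) {Θ Θ' : R4 → R4} (h : LIso D.U D.L D.J D.J Θ Θ') :
    ∃ F : DFam 𝓘(ℝ, R4) R4, (∀ x, F.f (0, x) = Θ x) ∧ (∀ x, F.f (1, x) = Θ' x) ∧
      ∃ K : Set R4, IsCompact K ∧ K ⊆ D.U \ D.A ∧ ∀ t x, x ∉ K → F.f (t, x) = x := by
  obtain ⟨F, h0, h1, ⟨K, hK, hKU, hF⟩, N, hN, hLN, hFN⟩ := h
  obtain ⟨δ, g1, g2⟩ := exists_pd D
  have hO := image_open δ hN
  have hAO : D.A ⊆ δ '' (δ.source ∩ N) := by
    rintro _ ⟨p, hp, rfl⟩
    exact ⟨p, ⟨g1 hp, hLN hp⟩, g2 p (g1 hp)⟩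
  refine ⟨F, h0, h1, K \ δ '' (δ.source ∩ N), hK.diff hO, fun x hx => ⟨hKU hx.1, fun hA =>
    hx.2 (hAO hA)⟩, fun t x hx => ?_⟩
  by_cases hxK : x ∈ K
  · have hxO : x ∈ δ '' (δ.source ∩ N) := by
      by_contra hc
      exact hx ⟨hxK, hc⟩
    obtain ⟨p, hp, rfl⟩ := hxO
    rw [g2 p hp.1]
    exact hFN t p hp.2
  · exact hF t x hxK

private theorem emb_mono (D : ArcD) {K : Set R4} (hK : K ⊆ D.U \ D.A) : EmbOn I4 D.e K :=
  ⟨fun p hp => D.embe.1 p (hK hp), D.embe.2.mono hK⟩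

private theorem imp_enl (D : ArcD) {K K' : Set R4} (hK' : K' ⊆ D.U \ D.A) (hs : K ⊆ K')
    {Θ : R4 → R4} (hΘ : ∀ x, x ∉ K → Θ x = x) : imp D.e K Θ = imp D.e K' Θ :=
  ((hImp R4 R4 I4 R4 D.e K' Θ (emb_mono D hK').2).2.2.1 K hs hΘ).symm

end PHI

open PHI in
theorem m_PHI : StPhi := by
  intro D
  obtain ⟨c1, c2, c3, c4, c5, -⟩ := hCI R4 R4 I4 R4
  refine ⟨?_, ?_, ?_, ?_, ?_, ?_, ?_⟩
  · rintro Θ Θ' χ hI ⟨K, hK, hKU, hΘ, hχ⟩
    obtain ⟨F, F0, F1, K₂, hK₂, hKU₂, hF⟩ := supp D hI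
    have hU : K ∪ K₂ ⊆ D.U \ D.A := union_subset hKU hKU₂
    have hF' : ∀ t x, x ∉ K ∪ K₂ → F.f (t, x) = x := fun t x hx =>
      hF t x fun h => hx (Or.inr h)
    have e0 : (fun p => F.f (0, p)) = Θ := funext F0
    have e1 : (fun p => F.f (1, p)) = Θ' := funext F1
    have hP := hPush R4 R4 I4 R4 D.e (K ∪ K₂) F (hK.union hK₂) (emb_mono D hU) hF'
    rw [e0, e1] at hP
    refine ⟨K ∪ K₂, hK.union hK₂, hU, fun x hx => ?_, c4 _ _ _ hχ ?_⟩
    · rw [← F1]; exact hF' 1 x hx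
    · rw [imp_enl D hU subset_union_left hΘ]
      exact hP
  · rintro Θ Θ' hI
    obtain ⟨F, F0, F1, K₂, hK₂, hKU₂, hF⟩ := supp D hI
    have e0 : (fun p => F.f (0, p)) = Θ := funext F0
    have hP := hPush R4 R4 I4 R4 D.e K₂ F hK₂ (emb_mono D hKU₂) hF
    rw [e0] at hP
    exact ⟨imp D.e K₂ Θ, K₂, hK₂, hKU₂, fun x hx => by rw [← F0]; exact hF 0 x hx,
      c3 _ _ hP⟩
  · rintro Θ χ χ' - ⟨K, hK, hKU, hΘ, hχ⟩ ⟨K', hK', hKU', hΘ', hχ'⟩
    have hU : K ∪ K' ⊆ D.U \ D.A := union_subset hKU hKU'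
    rw [imp_enl D hU subset_union_left hΘ] at hχ
    rw [imp_enl D hU subset_union_right hΘ'] at hχ'
    exact c4 _ _ _ hχ (c2 _ _ hχ')
  · rintro Θ Θ' χ χ' - hI' ⟨K, hK, hKU, hΘ, hχ⟩ ⟨K', hK', hKU', hΘ', hχ'⟩
    have hU : K ∪ K' ⊆ D.U \ D.A := union_subset hKU hKU'
    obtain ⟨F, F0, -, -⟩ := supp D hI'
    have hinj : Function.Injective Θ' := by
      intro x y hxy
      rw [← F0, ← F0] at hxy
      have := congrArg (fun z => F.g (0, z)) hxy
      simpa [F.gf] using this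
    have hid : ∀ x, x ∉ K ∪ K' → Θ' x = x := fun x hx => hΘ' x fun h => hx (Or.inr h)
    have hmaps : MapsTo Θ' (K ∪ K') (K ∪ K') := by
      intro x hx
      by_contra hc
      exact hc (by rw [hinj (hid _ hc)]; exact hx)
    rw [imp_enl D hU subset_union_left hΘ] at hχ
    rw [imp_enl D hU subset_union_right hΘ'] at hχ'
    refine ⟨K ∪ K', hK.union hK', hU, fun x hx => ?_, ?_⟩
    · change Θ (Θ' x) = x
      rw [hid x hx]
      exact hΘ x fun h => hx (Or.inl h)
    · have h4 := (hImp R4 R4 I4 R4 D.e (K ∪ K') Θ' (emb_mono D hU).2).2.2.2.1 Θ hmaps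
      have e4 : imp D.e (K ∪ K') (fun p => Θ (Θ' p))
          = fun y => imp D.e (K ∪ K') Θ (imp D.e (K ∪ K') Θ' y) := funext h4
      rw [e4]
      exact c5 _ _ _ _ hχ hχ'
  · refine ⟨∅, isCompact_empty, empty_subset _, fun x _ => rfl, ?_⟩
    have e : imp D.e ∅ (fun x => x) = fun x => x := by
      funext y
      unfold imp
      rw [dif_neg]
      rintro ⟨p, hp, -⟩
      exact hp
    rw [e]
    exact c1
  · rintro Θ χ χ' ⟨K, hK, hKU, hΘ, hχ⟩ hc
    exact ⟨K, hK, hKU, hΘ, c4 _ _ _ (c2 _ _ hc) hχ⟩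
  · rintro Θ χ ⟨K, hK, hKU, hΘ, hχ⟩
    exact c3 _ _ hχ

end Pool.Agent.Helper27.H


end

/-! ## Helper27.BI.H.AsmH -/

section

/-!
# Project BI, stage 3 (H): the results of parts 0, 1, 2, unconditionally
-/

set_option autoImplicit false

namespace Pool.Agent.Helper27.H

theorem hPTJ : StPTJ := m_PTJ
theorem hCH4J : StCH4J := m_CH4 hPTJ
theorem hCH4 : StCH4 := ch4_of_joint hCH4J
theorem hFRAME : StFRAME := m_FRAME hCH4 Pool.Agent.Helper18.BI.H.hPI2'
theorem hTHK : StTHK := m_THK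
theorem hPhi : StPhi := m_PHI
theorem hCls : StCls := m_Cls hCH4 hFRAME hTHK hPhi

/-- the homotopy theorem for loops of arcs, from the crossing lemma, the cusp family and the normalization -/
theorem hArcH_of (hCROSS : StCROSS) (hCUM : StCUM) (hNORM : StNORM) : StArcH :=
  m_ArcH hCls hCROSS (m_CUT hCUM) hNORM Pool.Agent.Helper34.BI.H.hGPD

end Pool.Agent.Helper27.H


end

/-! ## Helper34.BI.H.M_PHT -/

section

/-!
# Project BI, stage 3, section 5: the class of the implantation in the chart (module PHT)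
-/

set_option autoImplicit false

open Module Set Filter Topology
open scoped ContDiff Manifold ComplexConjugate
open Pool.Agent.Helper65.Barb Pool.Agent.Helper18.BI Pool.Agent.Helper27.BI
open Pool.Agent.Helper27.H (ArcD LIso LPush Fam2 Q2 SuppU thk seg)
open Pool.Agent.Helper70.BI (I4)

namespace Pool.Agent.Helper34.BI.H

/-- the barbell map fixes both tubes -/
private theorem tiso_bar_PHT : TIso ∅ (1 / 5) arc2 arc2 barMap barMap :=
  (isPush_pair hSpin).tIso.congr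
      (by rintro (_ | _) s <;> simp [arc2, barPath_zero])
      (by rintro (_ | _) s <;> simp [arc2, barPath_one]) (fun _ => rfl) (fun _ => rfl)

private theorem liso_PHT (hTPU : StTPU) (D : ArcD) (T : R4 → R4) (hT : EmbOn I4 T ball4)
    (hTU : MapsTo T ball4 D.U) (hTA : ∀ p ∈ ball4, T p ∈ D.A → p.2 = 0 ∨ p.2 = e1)
    {φ ψ : R4 → R4} (h : TIso ∅ (1 / 5) arc2 arc2 φ ψ) :
    LIso D.U D.L D.J D.J (imp T ball4 φ) (imp T ball4 ψ) := by
  obtain ⟨F, h0, h1, hs, -, ht⟩ := h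
  obtain ⟨k1, k2⟩ := hTPU D.U D.L D.J T D.openU D.isCompact_L
    (fun p hp => (D.emb.1 p hp).contMDiffAt.continuousAt) hT hTU hTA
  obtain ⟨G, hG, -, hGF⟩ := k1 F hs
  obtain ⟨N, hN, hLN, hφ⟩ := k2 (1 / 5) (by norm_num)
  have e0 : (fun p => F.f (0, p)) = φ := funext h0
  have e1' : (fun p => F.f (1, p)) = ψ := funext h1
  refine ⟨G, fun x => ?_, fun x => ?_, hG, N, hN, hLN, fun t p hp => ?_⟩
  · rw [hGF, e0]
  · rw [hGF, e1']
  · rw [hGF]
    refine hφ _ (fun x hx => ?_) p hp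
    rcases hx with h | h
    · have h2 : nsq (x.2 - 0) ≤ (1 / 5) ^ 2 := h
      rw [sub_zero] at h2
      have e := ht t false x.1 x.2 h2
      simpa [arc2] using e
    · have h2 : nsq (x.2 - e1) ≤ (1 / 5) ^ 2 := h
      have e := ht t true x.1 (x.2 - e1) h2
      simp only [arc2, if_true, add_sub_cancel] at e
      exact e

private theorem refh_refh_PHT (p : R4) : refh (refh p) = p := linvol_refh.inv p

private theorem refh_ball4_PHT {p : R4} (hp : p ∈ ball4) : refh p ∈ ball4 := by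
  obtain ⟨h1, h2, h3⟩ := hp
  exact ⟨h1, h2, by rwa [rsq_refh]⟩

private theorem bsupp_ball4_PHT : bsupp ⊆ ball4 := fun _ hp =>
  interior_subset (tsupp_subset_interior hp.1)

theorem m_PHT (hTPU : StTPU) : StPHT := by
  intro D T hT hTU hTA
  have L1 : LIso D.U D.L D.J D.J (imp T ball4 barMap) (imp T ball4 barMap) :=
    liso_PHT hTPU D T hT hTU hTA tiso_bar_PHT
  have hmap : MapsTo barMap bsupp bsupp := barMap_mapsTo subset_rfl
  have hE : MapsTo T EB (D.U \ D.A) := by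
    intro p hp
    refine ⟨hTU hp.1, fun h => ?_⟩
    obtain ⟨h0, h1⟩ := hp.2
    rcases hTA p hp.1 h with h2 | h2
    · rw [rsq_zero_eq, h2] at h0
      norm_num [nsq] at h0
    · rw [← nsq_sub_one, h2] at h1
      norm_num [nsq, e1] at h1
  refine ⟨L1, fun τ hτ => ?_, ?_⟩
  · have hsub : T '' bsupp ⊆ D.U \ D.A := by
      rintro _ ⟨p, hp, rfl⟩
      exact hE (hS4.2.2.2.2.2.2.1 hp)
    have hTc : ContinuousOn T bsupp := fun p hp =>
      (hT.1 p (bsupp_ball4_PHT hp)).contMDiffAt.continuousAt.continuousWithinAt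
    have hBe : imp T ball4 barMap = imp T bsupp barMap :=
      imp_mono hT.2 bsupp_ball4_PHT (fun p hp => barMap_off hp)
    have hTb : InjOn T bsupp := hT.2.mono bsupp_ball4_PHT
    have hein : InjOn D.e (T '' bsupp) := D.embe.2.mono hsub
    refine ⟨T '' bsupp, isCompact_bsupp.image_of_continuousOn hTc, hsub, fun x hx => ?_, ?_⟩
    · rw [hBe]
      exact imp_off hx
    · have h8 : imp (fun p => D.e (T p)) bsupp barMap =
          imp D.e (T '' bsupp) (imp T bsupp barMap) :=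
        (hImp R4 R4 𝓘(ℝ, R4) R4 D.e (T '' bsupp) barMap hein).2.2.2.2.2.2.2 T bsupp hTb rfl
          hmap
      rw [hBe, ← h8]
      have hem : EmbOn I4 (D.e ∘ T) EB :=
        EmbOn.comp D.embe (EmbOn.mono hT (fun p hp => hp.1)) hE
      have ht3 := hT3 R4 R4 𝓘(ℝ, R4) R4 (D.e ∘ T) hem
      exact (hT2 R4 R4 𝓘(ℝ, R4) R4).2.1 (D.e ∘ T) τ _ hτ ht3
  · have hT' : EmbOn I4 (fun p => T (refh p)) ball4 :=
      EmbOn.comp hT (EmbOn.mono (emb_of_invol linvol_refh.toInvol) (subset_univ _))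
        (fun p hp => refh_ball4_PHT hp)
    have hTU' : MapsTo (fun p => T (refh p)) ball4 D.U := fun p hp => hTU (refh_ball4_PHT hp)
    have hTA' : ∀ p ∈ ball4, T (refh p) ∈ D.A → p.2 = 0 ∨ p.2 = e1 := by
      intro p hp h
      have e : p.2 = ((refh p).2.1, conj (refh p).2.2) := by
        simp [refh]
      rcases hTA (refh p) (refh_ball4_PHT hp) h with h2 | h2
      · left
        rw [e, h2]
        simp
      · right
        rw [e, h2]
        simp [e1]
    have L2 := liso_PHT hTPU D (fun p => T (refh p)) hT' hTU' hTA' tiso_bar_PHT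
    have hbi : ∀ p, barInv (barMap p) = p := fun p => bfam.gf 1 p
    have hbi' : ∀ p, barMap (barInv p) = p := fun p => bfam.fg 1 p
    have hr : TIso ∅ (1 / 5) arc2 arc2 (fun p => refh (barInv (refh p))) barMap :=
      TIso.inv hR1h (fun x => by simp only [refh_refh_PHT, hbi']) (fun x => hbi x)
    have L3 := liso_PHT hTPU D T hT hTU hTA hr
    have hconj : imp T ball4 (fun p => refh (barInv (refh p))) =
        imp (fun p => T (refh p)) ball4 barInv := by
      apply imp_eq_of hT.2 hT'.2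
      · intro p hp
        exact ⟨refh p, refh_ball4_PHT hp, rfl, by simp only [refh_refh_PHT]⟩
      · intro q hq
        exact Or.inl ⟨refh q, refh_ball4_PHT hq, by simp only [refh_refh_PHT]⟩
    rw [hconj] at L3
    have L4 := LIso.comp L3.symm L2
    refine L4.congr_fun (fun x => rfl) (fun x => ?_)
    rw [← imp_comp hT'.2 (barMap_mapsTo bsupp_ball4_PHT)]
    simp only [hbi]
    by_cases hx : x ∈ (fun p => T (refh p)) '' ball4
    · obtain ⟨p, hp, rfl⟩ := hx
      rw [imp_image (F := fun p => T (refh p)) hT'.2 hp]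
    · rw [imp_off hx]

end Pool.Agent.Helper34.BI.H


end

/-! ## Helper34.BI.H.AsmCross -/

section

/-!
# Project BI, stage 3: the crossing lemma, unconditionally
-/

set_option autoImplicit false

namespace Pool.Agent.Helper34.BI.H

open Pool.Agent.Helper27.H (hCH4 hFRAME hTHK hPhi)

theorem hCIRC : StCIRC := m_CIRC Pool.Agent.Helper27.BI.hCh Pool.Agent.Helper27.BI.hSpin
theorem hTPU : StTPU := m_TPU
theorem hSQ5 : StSQ5 := m_SQ5 hCH4 hTHK
theorem hM5 : StM5 := m_M5 hTPU hCIRC hCH4 hFRAME hTHK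
theorem hXG5 : StXG5 := m_XG5
theorem hPHT : StPHT := m_PHT hTPU
theorem hL5 : StL5 := m_L5 (m_XL m_OPA)

/-- the crossing lemma -/
theorem hCROSS : Pool.Agent.Helper27.H.StCROSS :=
  Cross.m_CROSS hCH4 hFRAME hTHK hPhi hSQ5 hM5 hXG5 hPHT hL5

end Pool.Agent.Helper34.BI.H


end

/-! ## Helper18.BI.R.M_WRD -/

section

/-!
# Project BI, stage 4 (R): MODULE WRD (helper99)
-/

set_option autoImplicit false

open scoped Manifold ContDiff Topology ComplexConjugate unitInterval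
open Set Pool.Agent.Helper65.Barb Pool.Agent.Helper18.BI
open Pool.Agent.Helper70.BI (I4 IsW)
open Pool.Agent.Helper18.BI.H (IsW4 mm)
open Pool.Agent.Helper18.FinR (sqr Pi2 cls FreeClass UpTo)

namespace Pool.Agent.Helper18.BI.R

namespace WRD

section

variable {X : Type} [TopologicalSpace X] {y₀ : X}

/-- the loop of a word -/
noncomputable def G {n : ℕ} (f : Fin n → GenLoop (Fin 2) X y₀) :
    List (Fin n × Bool) → GenLoop (Fin 2) X y₀
  | [] => GenLoop.const
  | (i, true) :: l => GenLoop.transAt 0 (f i) (G f l)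
  | (i, false) :: l => GenLoop.transAt 0 (GenLoop.symmAt 0 (f i)) (G f l)

/-- the class of a loop -/
def hc (p : GenLoop (Fin 2) X y₀) : HomotopyGroup (Fin 2) X y₀ := Quotient.mk _ p

lemma mk_transAt (p q : GenLoop (Fin 2) X y₀) : hc (GenLoop.transAt 0 p q) = hc p * hc q := by
  rw [mul_comm]
  exact (HomotopyGroup.mul_spec (i := 0) (p := q) (q := p)).symm

lemma mk_symmAt (p : GenLoop (Fin 2) X y₀) : hc (GenLoop.symmAt 0 p) = (hc p)⁻¹ :=
  (HomotopyGroup.inv_spec (i := 0) (p := p)).symm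

lemma G_class {n : ℕ} (f : Fin n → GenLoop (Fin 2) X y₀) (l : List (Fin n × Bool)) :
    hc (G f l) = (l.map fun p => if p.2 then hc (f p.1) else (hc (f p.1))⁻¹).prod := by
  induction l with
  | nil => rfl
  | cons a l ih =>
    obtain ⟨i, b⟩ := a
    cases b with
    | true =>
      rw [List.map_cons, List.prod_cons, ← ih]
      exact mk_transAt _ _
    | false =>
      rw [List.map_cons, List.prod_cons, ← ih]
      show hc (GenLoop.transAt 0 (GenLoop.symmAt 0 (f i)) (G f l)) = _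
      rw [mk_transAt, mk_symmAt]
      rfl

end

/-- the point of the square -/
noncomputable def pt (q s : ℝ) : Fin 2 → I :=
  ![projIcc 0 1 zero_le_one q, projIcc 0 1 zero_le_one (step (10 * s - 9 / 2))]

lemma step_mem' (t : ℝ) : step t ∈ Icc (0 : ℝ) 1 :=
  ⟨Real.smoothTransition.nonneg t, Real.smoothTransition.le_one t⟩

lemma pt0 {q : ℝ} (hq : q ∈ Icc (0 : ℝ) 1) (s : ℝ) : ((pt q s 0 : I) : ℝ) = q := by
  show ((projIcc 0 1 zero_le_one q : Icc (0 : ℝ) 1) : ℝ) = q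
  rw [projIcc_of_mem zero_le_one hq]

lemma pt1 (q s : ℝ) : ((pt q s 1 : I) : ℝ) = step (10 * s - 9 / 2) := by
  show ((projIcc 0 1 zero_le_one (step (10 * s - 9 / 2)) : Icc (0 : ℝ) 1) : ℝ) = _
  rw [projIcc_of_mem zero_le_one (step_mem' _)]

lemma update_pt (q q' s : ℝ) :
    Function.update (pt q s) 0 (projIcc 0 1 zero_le_one q') = pt q' s := by
  ext i
  fin_cases i
  · simp [pt]
  · simp [pt]

lemma continuous_pt : Continuous fun z : ℝ × ℝ => pt z.1 z.2 := by
  apply continuous_pi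
  intro i
  fin_cases i
  · exact ((continuous_projIcc (h := zero_le_one)).comp continuous_fst)
  · exact (continuous_projIcc (h := zero_le_one)).comp (Real.smoothTransition.continuous.comp (by fun_prop))

variable {A : Set S4} {y₀ : {x : S4 // x ∉ A}}

lemma sphere_pt (hMQ : StMQ) {n : ℕ} {f : Fin n → GenLoop (Fin 2) {x : S4 // x ∉ A} y₀}
    {g : Fin n → R3 → S4} (hg : ∀ i t, g i (sqr t) = f i t) (i : Fin n) {q : ℝ}
    (hq : q ∈ Icc (0 : ℝ) 1) (s : ℝ) : g i (mm q s) = f i (pt q s) := by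
  rw [hMQ.1 q s, ← hg i (pt q s)]
  congr 1
  show _ = mq (pt q s 0 : I) (pt q s 1 : I)
  rw [pt0 hq, pt1]

lemma evM_eq (hMQ : StMQ) {n : ℕ} {f : Fin n → GenLoop (Fin 2) {x : S4 // x ∉ A} y₀}
    {g : Fin n → R3 → S4} (hg : ∀ i t, g i (sqr t) = f i t) (l : List (Fin n × Bool)) :
    ∀ q ∈ Icc (0 : ℝ) 1, ∀ s : ℝ, evM (y₀ : S4) g l q s = (G f l (pt q s) : S4) := by
  induction l with
  | nil => exact fun _ _ _ => rfl
  | cons a l ih =>
    obtain ⟨i, b⟩ := a
    intro q hq s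
    cases b with
    | true =>
      show (if q ≤ 1 / 2 then g i (mm (2 * q) s) else evM (y₀ : S4) g l (2 * q - 1) s) =
        ((if ((pt q s 0 : I) : ℝ) ≤ 1 / 2
          then f i (Function.update (pt q s) 0 (projIcc 0 1 zero_le_one (2 * (pt q s 0 : I))))
          else G f l (Function.update (pt q s) 0
            (projIcc 0 1 zero_le_one (2 * (pt q s 0 : I) - 1))) : {x : S4 // x ∉ A}) : S4)
      rw [pt0 hq, update_pt, update_pt]
      split_ifs with h
      · exact sphere_pt hMQ hg i ⟨by linarith [hq.1], by linarith⟩ s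
      · push Not at h
        exact ih _ ⟨by linarith, by linarith [hq.2]⟩ s
    | false =>
      show (if q ≤ 1 / 2 then g i (mm (1 - 2 * q) s) else evM (y₀ : S4) g l (2 * q - 1) s) =
        ((if ((pt q s 0 : I) : ℝ) ≤ 1 / 2
          then GenLoop.symmAt 0 (f i)
            (Function.update (pt q s) 0 (projIcc 0 1 zero_le_one (2 * (pt q s 0 : I))))
          else G f l (Function.update (pt q s) 0
            (projIcc 0 1 zero_le_one (2 * (pt q s 0 : I) - 1))) : {x : S4 // x ∉ A}) : S4)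
      rw [pt0 hq, update_pt, update_pt]
      split_ifs with h
      · have hq2 : 2 * q ∈ Icc (0 : ℝ) 1 := ⟨by linarith [hq.1], by linarith⟩
        have hq3 : 1 - 2 * q ∈ Icc (0 : ℝ) 1 := ⟨by linarith, by linarith [hq.1]⟩
        rw [sphere_pt hMQ hg i hq3 s]
        congr 1
        show f i (pt (1 - 2 * q) s) =
          f i fun j => if j = 0 then σ (pt (2 * q) s 0) else pt (2 * q) s j
        congr 1
        ext j
        fin_cases j
        · show ((pt (1 - 2 * q) s 0 : I) : ℝ) = 1 - ((pt (2 * q) s 0 : I) : ℝ)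
          rw [pt0 hq3, pt0 hq2]
        · show ((pt (1 - 2 * q) s 1 : I) : ℝ) = ((pt (2 * q) s 1 : I) : ℝ)
          rw [pt1, pt1]
      · push Not at h
        exact ih _ ⟨by linarith, by linarith [hq.2]⟩ s

lemma pt_boundary {q s : ℝ} (h : q = 0 ∨ q = 1 ∨ s = 9 / 20 ∨ s = 11 / 20) :
    pt q s ∈ Cube.boundary (Fin 2) := by
  rcases h with rfl | rfl | rfl | rfl
  · exact ⟨0, Or.inl (projIcc_left zero_le_one)⟩
  · exact ⟨0, Or.inr (projIcc_right zero_le_one)⟩
  · refine ⟨1, Or.inl (Subtype.ext ?_)⟩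
    rw [pt1]
    have h1 : (10 * (9 / 20) - 9 / 2 : ℝ) = 0 := by norm_num
    rw [h1]
    exact Real.smoothTransition.zero
  · refine ⟨1, Or.inr (Subtype.ext ?_)⟩
    rw [pt1]
    have h1 : (10 * (11 / 20) - 9 / 2 : ℝ) = 1 := by norm_num
    rw [h1]
    exact Real.smoothTransition.one

end WRD

open WRD

theorem m_WRD (hMQ : StMQ) : StWRD := by
  intro A y₀ n f g l hg hl
  have h1 : hc (G f l) = hc GenLoop.const := by
    rw [G_class f l]
    exact hl
  obtain ⟨H⟩ : GenLoop.Homotopic (G f l) GenLoop.const := Quotient.exact h1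
  refine ⟨fun z => (H (projIcc 0 1 zero_le_one z.1, pt z.2.1 z.2.2) : {x : S4 // x ∉ A}),
    ?_, ?_, ?_⟩
  · apply Continuous.continuousOn
    apply continuous_subtype_val.comp
    apply H.continuous.comp
    exact (continuous_projIcc.comp continuous_fst).prodMk
      (continuous_pt.comp (by fun_prop : Continuous fun z : ℝ × ℝ × ℝ => (z.2.1, z.2.2)))
  · intro q hq s _
    refine ⟨?_, ?_⟩
    · show ((H (projIcc 0 1 zero_le_one 0, pt q s) : {x : S4 // x ∉ A}) : S4) = _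
      rw [projIcc_left, evM_eq hMQ hg l q hq s]
      exact congrArg Subtype.val (H.apply_zero _)
    · show ((H (projIcc 0 1 zero_le_one 1, pt q s) : {x : S4 // x ∉ A}) : S4) = _
      rw [projIcc_right]
      exact congrArg Subtype.val (H.apply_one _)
  · intro u _ q _ s _
    refine ⟨(H (projIcc 0 1 zero_le_one u, pt q s)).2, fun h => ?_⟩
    show ((H (projIcc 0 1 zero_le_one u, pt q s) : {x : S4 // x ∉ A}) : S4) = _
    have h2 := H.eq_fst (projIcc 0 1 zero_le_one u) (pt_boundary h)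
    rw [h2]
    exact congrArg Subtype.val ((G f l).2 _ (pt_boundary h))

end Pool.Agent.Helper18.BI.R


end

/-! ## Helper27.BI.R.M_MULT -/

section

/-!
# Project BI, stage 4 (R): modules MULT and INV
-/

set_option autoImplicit false

open scoped Manifold ContDiff Topology ComplexConjugate
open Set Filter Pool.Agent.Helper65.Barb Pool.Agent.Helper18.BI
open Pool.Agent.Helper70.BI (I4 NearEq)
open Pool.Agent.Helper27.H
open Pool.Agent.Helper18.BI.H (cls_imm_inj)
open Pool.Agent.Helper18.BI.R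

namespace Pool.Agent.Helper27.R

section
variable {D : ArcD} {c c' : ℝ → ℝ → R4}

/-- a loop as a constant homotopy -/
theorem loop_htpy (hc : LoopOK D c) : D.Htpy (fun z => c z.2.1 z.2.2) where
  smooth := hc.smooth.comp (g := fun z : ℝ × ℝ => c z.1 z.2)
    (f := fun z : ℝ × ℝ × ℝ => (z.2.1, z.2.2)) (by fun_prop)
  froz _ _ q hq s hs := hc.froz q hq s hs
  inU _ _ q hq s hs := hc.inU q hq s hs
  start _ _ s := hc.start s
  stop _ _ s := hc.stop s

theorem cat_le (hc' : LoopOK D c') {q : ℝ} (h : q ≤ 1 / 2) (s : ℝ) :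
    cat D c c' q s = c (step (2 * q)) s := by
  unfold cat
  rw [step_of_nonpos (by linarith : 2 * q - 1 ≤ 0), hc'.start]
  abel

theorem cat_ge (hc : LoopOK D c) {q : ℝ} (h : 1 / 2 ≤ q) (s : ℝ) :
    cat D c c' q s = c' (step (2 * q - 1)) s := by
  unfold cat
  rw [step_of_one_le (by linarith : 1 ≤ 2 * q), hc.stop]
  abel

theorem loopOK_cat (hc : LoopOK D c) (hc' : LoopOK D c') : LoopOK D (cat D c c') where
  smooth := by
    have h1 : ContDiff ℝ ∞ (fun z : ℝ × ℝ => c (step (2 * z.1)) z.2) :=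
      hc.smooth.comp (g := fun z : ℝ × ℝ => c z.1 z.2) (f := fun z : ℝ × ℝ =>
        (step (2 * z.1), z.2)) ((contDiff_step.comp (by fun_prop)).prodMk contDiff_snd)
    have h2 : ContDiff ℝ ∞ (fun z : ℝ × ℝ => c' (step (2 * z.1 - 1)) z.2) :=
      hc'.smooth.comp (g := fun z : ℝ × ℝ => c' z.1 z.2) (f := fun z : ℝ × ℝ =>
        (step (2 * z.1 - 1), z.2)) ((contDiff_step.comp (by fun_prop)).prodMk contDiff_snd)
    exact (h1.add h2).sub (D.smooth.comp contDiff_snd)
  froz q hq s hs := by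
    unfold cat
    rw [hc.froz _ (step_mem _) s hs, hc'.froz _ (step_mem _) s hs]
    abel
  inU q hq s hs := by
    rcases le_total q (1 / 2) with h | h
    · rw [cat_le hc' h]
      exact hc.inU _ (step_mem _) s hs
    · rw [cat_ge hc h]
      exact hc'.inU _ (step_mem _) s hs
  start s := by
    rw [cat_le hc' (by norm_num), mul_zero, step_of_nonpos le_rfl, hc.start]
  stop s := by
    rw [cat_ge hc (by norm_num), step_of_one_le (by norm_num), hc'.stop]

theorem loopOK_rev (hc : LoopOK D c) : LoopOK D (fun q s => c (1 - q) s) where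
  smooth := hc.smooth.comp (g := fun z : ℝ × ℝ => c z.1 z.2) (f := fun z : ℝ × ℝ =>
    (1 - z.1, z.2)) (by fun_prop)
  froz q hq s hs := hc.froz (1 - q) ⟨by linarith [hq.2], by linarith [hq.1]⟩ s hs
  inU q hq s hs := hc.inU (1 - q) ⟨by linarith [hq.2], by linarith [hq.1]⟩ s hs
  start s := by simp only [sub_zero]; exact hc.stop s
  stop s := by simp only [sub_self]; exact hc.start s

end

section
variable (hCh : StCH4) (hFr : StFRAME) (hTh : StTHK) (hPhi : StPhi)

include hTh in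
/-- the canonical thick family of a loop of embedded arcs -/
theorem loop_fam {D : ArcD} {c : ℝ → ℝ → R4} (hc : LoopOK D c)
    (he : ∀ q ∈ Icc (0 : ℝ) 1, D.Imm (fun z => c z.2.1 z.2.2) 0 q ∧
      D.Inj (fun z => c z.2.1 z.2.2) 0 q) :
    Fam2 Q2 D.L D.V D.U (fun a => thk D.J D.c (c a.2)) ∧
      (∀ q, ∀ s ∈ Icc D.s₀ D.s₁, thk D.J D.c (c q) (s, 0) = c q s) ∧
      thk D.J D.c (c 0) = D.J ∧ thk D.J D.c (c 1) = D.J := by
  obtain ⟨h1, h2, h3⟩ := can_fam hTh D (loop_htpy hc) (u := 0) (u' := 0) le_rfl le_rfl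
    zero_le_one (fun v hv => by
      rw [Icc_self] at hv
      rw [hv]
      exact he)
  exact ⟨h1, fun q s hs => h2 0 q s hs, (h3 0 (by simp)).1, (h3 0 (by simp)).2⟩

include hCh hFr hTh hPhi in
/-- canonical representatives of the class of a loop -/
theorem loop_can {D : ArcD} {c : ℝ → ℝ → R4} {χ : R4 → R4} (hc : LoopOK D c) (h : D.Cls c χ) :
    Fam2 Q2 D.L D.V D.U (fun a => thk D.J D.c (c a.2)) ∧
      (∀ q, ∀ s ∈ Icc D.s₀ D.s₁, thk D.J D.c (c q) (s, 0) = c q s) ∧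
      thk D.J D.c (c 0) = D.J ∧ thk D.J D.c (c 1) = D.J ∧
      ∃ Θ, LPush D.U D.L (fun q => thk D.J D.c (c q)) Θ ∧ LIso D.U D.L D.J D.J Θ Θ ∧
        D.Phi Θ χ := by
  have he := cls_imm_inj D (fun z => c z.2.1 z.2.2) 0 χ (loop_htpy hc).smooth h
  obtain ⟨h1, h2, h3, h4⟩ := loop_fam hTh hc he
  obtain ⟨Θ, χ₀, e1, e2, e3⟩ := can_exists hCh hTh hPhi D (loop_htpy hc) (u := 0) (by simp) he
  have c0 := can_cls hTh D (loop_htpy hc) (u := 0) (by simp) he e1 e3
  exact ⟨h1, h2, h3, h4, Θ, e1, e2,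
    (hPhi D).2.2.2.2.2.1 Θ χ₀ χ e3 (cls_unique hFr hPhi D c0 h)⟩

include hCh hFr hTh hPhi in
theorem m_MULT : StMULT := by
  intro D c c' χ χ' hc hc' h h'
  obtain ⟨f1, f2, f3, f4, Θ, g1, g2, g3⟩ := loop_can hCh hFr hTh hPhi hc h
  obtain ⟨f1', f2', f3', f4', Θ', g1', g2', g3'⟩ := loop_can hCh hFr hTh hPhi hc' h'
  have he := cls_imm_inj D (fun z => c z.2.1 z.2.2) 0 χ (loop_htpy hc).smooth h
  have he' := cls_imm_inj D (fun z => c' z.2.1 z.2.2) 0 χ' (loop_htpy hc').smooth h'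
  have hcc := loopOK_cat hc hc'
  -- the arcs of the concatenation
  have ele : ∀ q : ℝ, q ≤ 1 / 2 → cat D c c' q = c (step (2 * q)) := fun q hq =>
    funext fun s => cat_le hc' hq s
  have ege : ∀ q : ℝ, 1 / 2 ≤ q → cat D c c' q = c' (step (2 * q - 1)) := fun q hq =>
    funext fun s => cat_ge hc hq s
  have hecc : ∀ q ∈ Icc (0 : ℝ) 1, D.Imm (fun z => cat D c c' z.2.1 z.2.2) 0 q ∧
      D.Inj (fun z => cat D c c' z.2.1 z.2.2) 0 q := by
    intro q hq
    rcases le_total q (1 / 2) with hq' | hq'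
    · have := he (step (2 * q)) (step_mem _)
      have e : ∀ s, cat D c c' q s = c (step (2 * q)) s := fun s => cat_le hc' hq' s
      constructor
      · intro s hs
        have := this.1 s hs
        show deriv (fun s => cat D c c' q s) s ≠ 0
        rw [funext e]
        exact this
      · have := this.2
        show InjOn (fun s => cat D c c' q s) _
        rw [funext e]
        exact this
    · have := he' (step (2 * q - 1)) (step_mem _)
      have e : ∀ s, cat D c c' q s = c' (step (2 * q - 1)) s := fun s => cat_ge hc hq' s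
      constructor
      · intro s hs
        have := this.1 s hs
        show deriv (fun s => cat D c c' q s) s ≠ 0
        rw [funext e]
        exact this
      · have := this.2
        show InjOn (fun s => cat D c c' q s) _
        rw [funext e]
        exact this
  obtain ⟨k1, k2, k3, k4⟩ := loop_fam hTh hcc hecc
  have m0 : ((0 : ℝ), (0 : ℝ)) ∈ Q2 := by simp [Q2]
  have mh : ((0 : ℝ), (1 / 2 : ℝ)) ∈ Q2 := by
    refine ⟨by simp, ?_, ?_⟩ <;> simp only <;> norm_num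
  have m1 : ((0 : ℝ), (1 : ℝ)) ∈ Q2 := by simp [Q2]
  obtain ⟨Θ1, p1⟩ := exists_lpush hCh D.isCompact_L D.isOpen_V D.openU isCompact_Q2 convex_Q2 k1 m0 mh
  obtain ⟨Θ2, p2⟩ := exists_lpush hCh D.isCompact_L D.isOpen_V D.openU isCompact_Q2 convex_Q2 k1 mh m1
  obtain ⟨Θ3, p3⟩ := exists_lpush hCh D.isCompact_L D.isOpen_V D.openU isCompact_Q2 convex_Q2 k1 m0 m1
  have tri := triangle4 hCh D.isCompact_L D.isOpen_V D.openU isCompact_Q2 convex_Q2 k1 m0 mh m1
    p1 p2 p3
  -- the first half is a reparametrization of the first loop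
  have q1 : LPush D.U D.L (fun q => thk D.J D.c (c (step q))) Θ1 := by
    refine p1.congr ⟨univ, isOpen_univ, subset_univ _, fun q hq p _ => ?_⟩
    have e : (((0 : ℝ), (0 : ℝ)) + q • (((0 : ℝ), (1 / 2 : ℝ)) - ((0 : ℝ), (0 : ℝ)))).2 = q / 2 := by
      simp; ring
    simp only [e]
    rw [ele (q / 2) (by linarith [hq.2])]
    have e' : 2 * (q / 2) = q := by ring
    rw [e']
  have q2 : LPush D.U D.L (fun q => thk D.J D.c (c' (step q))) Θ2 := by
    refine p2.congr ⟨univ, isOpen_univ, subset_univ _, fun q hq p _ => ?_⟩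
    have e : (((0 : ℝ), (1 / 2 : ℝ)) + q • (((0 : ℝ), (1 : ℝ)) - ((0 : ℝ), (1 / 2 : ℝ)))).2 =
        1 / 2 + q / 2 := by
      simp; ring
    simp only [e]
    rw [ege (1 / 2 + q / 2) (by linarith [hq.1])]
    have e' : 2 * (1 / 2 + q / 2) - 1 = q := by ring
    rw [e']
  have q3 : LPush D.U D.L (fun q => thk D.J D.c (cat D c c' q)) Θ3 := by
    refine p3.congr ⟨univ, isOpen_univ, subset_univ _, fun q hq p _ => ?_⟩
    have e : (((0 : ℝ), (0 : ℝ)) + q • (((0 : ℝ), (1 : ℝ)) - ((0 : ℝ), (0 : ℝ)))).2 = q := by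
      simp
    simp only [e]
  have st0 : step 0 = 0 := step_of_nonpos le_rfl
  have st1 : step 1 = 1 := step_of_one_le le_rfl
  have r1 : LIso D.U D.L D.J D.J Θ Θ1 := by
    have := push_reparam hCh D.isCompact_L D.isOpen_V D.openU (J := fun q => thk D.J D.c (c q))
      f1 contDiff_step (fun q _ => step_mem q) st0 st1 g1 q1
    rwa [f3, f4] at this
  have r2 : LIso D.U D.L D.J D.J Θ' Θ2 := by
    have := push_reparam hCh D.isCompact_L D.isOpen_V D.openU (J := fun q => thk D.J D.c (c' q))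
      f1' contDiff_step (fun q _ => step_mem q) st0 st1 g1' q2
    rwa [f3', f4'] at this
  have tri' : LIso D.U D.L D.J D.J (fun x => Θ2 (Θ1 x)) Θ3 := by
    have := tri
    simp only [k3, k4] at this
    exact this
  have all : LIso D.U D.L D.J D.J (fun x => Θ' (Θ x)) Θ3 := (r2.comp r1).trans tri'
  have ph : D.Phi (fun x => Θ' (Θ x)) (fun x => χ' (χ x)) :=
    (hPhi D).2.2.2.1 Θ' Θ χ' χ g2' g2 g3' g3
  have ph3 : D.Phi Θ3 (fun x => χ' (χ x)) := (hPhi D).1 _ _ _ all ph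
  refine ⟨fun q => thk D.J D.c (cat D c c' q), fun q _ s hs => k2 q s hs, D.V, D.isOpen_V,
    D.mem_V₀, D.mem_V₁, k1, fun p _ => congrFun k3 p, ?_, ?_, Θ3, q3, ph3⟩
  · simp only [k3]
    exact nearEq_refl _ _
  · simp only [k4]
    exact nearEq_refl _ _

include hCh hFr hTh hPhi in
theorem m_INV (hCI : StCI) : StINV := by
  intro D c χ χ' hc h ha hb
  obtain ⟨f1, f2, f3, f4, Θ, g1, g2, g3⟩ := loop_can hCh hFr hTh hPhi hc h
  obtain ⟨Θ', i1, i2, i3⟩ := g2.exists_inv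
  have p' := g1.reverse i2
  obtain ⟨χ'', hχ''⟩ := (hPhi D).2.1 Θ' Θ' i1
  -- `χ ∘ χ''` is the class of the identity
  obtain ⟨-, cs, cself, ct, cc, cinv, -⟩ := hCI _ _ 𝓘(ℝ, R4) R4
  have e1 : D.Phi (fun x => Θ (Θ' x)) (fun x => χ (χ'' x)) :=
    (hPhi D).2.2.2.1 Θ Θ' χ χ'' g2 i1 g3 hχ''
  have e2 : (fun x => Θ (Θ' x)) = fun x => x := funext i2
  rw [e2] at e1
  have e3 : CIsot I4 (fun x => χ (χ'' x)) (fun x => x) :=
    (hPhi D).2.2.1 (fun x => x) _ _ (LIso.one D.J) e1 (hPhi D).2.2.2.2.1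
  have χχ : CIsot I4 χ χ := (hPhi D).2.2.2.2.2.2 Θ χ g3
  have χ'χ' : CIsot I4 χ' χ' := cinv χ χ χ' χ' χχ ha ha
  have e4 : CIsot I4 (fun x => χ' (χ (χ'' x))) (fun x => χ' x) :=
    cc χ' χ' (fun x => χ (χ'' x)) (fun x => x) χ'χ' e3
  have e5 : (fun x => χ' (χ (χ'' x))) = χ'' := funext fun x => hb (χ'' x)
  rw [e5] at e4
  have ph : D.Phi Θ' χ' := (hPhi D).2.2.2.2.2.1 Θ' χ'' χ' hχ'' e4
  have hfam : Fam2 Q2 D.L D.V D.U (fun a => thk D.J D.c (c (1 - a.2))) := by
    refine f1.comp (θ := fun a => (a.1, 1 - a.2)) (by fun_prop) ?_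
    rintro ⟨x, q⟩ ⟨hx, hq1, hq2⟩
    simp only at hq1 hq2
    exact ⟨hx, by simp only; linarith, by simp only; linarith⟩
  refine ⟨fun q => thk D.J D.c (c (1 - q)), fun q _ s hs => f2 (1 - q) s hs, D.V, D.isOpen_V,
    D.mem_V₀, D.mem_V₁, hfam, fun p _ => ?_, ?_, ?_, Θ', p', ph⟩
  · simp only [sub_zero, f4]
  · simp only [sub_zero, f4]
    exact nearEq_refl _ _
  · simp only [sub_self, f3]
    exact nearEq_refl _ _

end

end Pool.Agent.Helper27.R


end

/-! ## Helper27.BI.R.M_PAR -/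

section

/-!
# Project BI, stage 4 (R), module PAR: the class of a parallel copy of the fixed cuff
-/

set_option autoImplicit false

open scoped Manifold ContDiff Topology ComplexConjugate
open Set Filter Pool.Agent.Helper65.Barb Pool.Agent.Helper18.BI
open Pool.Agent.Helper70.BI (I4 LD IsW MW ld_iff embOn_iff ld_comp embOn_comp)
open Pool.Agent.Helper27.H
open Pool.Agent.Helper18.BI.H (StHMain)

namespace Pool.Agent.Helper27.R

open Rad (rad fr fr_prf fr_bounds rad_embOn rad_id rsq_rad)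

/-- **PAR.**  A germ whose second cuff is a parallel copy of the fixed cuff has class `1` or `W`. -/
def StPAR : Prop :=
  ∀ F W : R4 → R4, IsW W → EmbOn I4 F (sph 1) → ∃ η₀ > 0, ∀ η ∈ Ioo (0 : ℝ) η₀,
    ∃ (F' : R4 → R4) (U : Set R4), EmbOn I4 F' SP ∧ IsOpen U ∧ sph 1 ⊆ U ∧ EqOn F F' U ∧
      (∀ x : R3, ((1 / 2, x) : R4) ∈ sph 0 → F' (1 / 2, x) = F (1 / 2 + η, x + (1, 0))) ∧
      ∀ φ, Thin I4 F' φ → CIsot I4 φ (fun x => x) ∨ CIsot I4 φ W

section
variable {F : R4 → R4} {O : Set R4} {δ : ℝ} (hδ : δ ∈ Ioo (0 : ℝ) (1 / 100))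
  (hF : EmbOn I4 F O) (hO : bx δ ⊆ O)
include hδ hF hO

theorem par_emb {ζ : ℝ} (hζ : ζ ≠ 0) (hζ' : |ζ| < δ) :
    EmbOn I4 (fun p => F (rad (fr δ) 1 (kap ζ p))) SP := by
  have h1 := frad_emb hδ hF hO
  have h2 : EmbOn I4 ((fun p => F (rad (fr δ) 1 p)) ∘ kap ζ) SP := by
    refine embOn_comp h1 (kap_embOn ζ SP) fun p hp => ?_
    have hp' : p ∈ FB := by
      rcases hp with (h | h) | h
      · exact Or.inl (Or.inl ⟨h.1, h.2.le⟩)
      · exact Or.inl (Or.inr ⟨h.1, h.2.le⟩)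
      · exact Or.inr h
    obtain ⟨a, b, c⟩ := kap_FB hζ hp'
    refine ⟨⟨a.trans_lt hζ', b⟩, ?_⟩
    have h0 : 0 ≤ rsq 1 (kap ζ p) := by
      unfold rsq nsq
      positivity
    rcases h0.lt_or_eq with h | h
    · exact h
    · exfalso
      rcases c h.symm with rfl | rfl
      · rcases hp with (h | h) | h
        · have := h.2; norm_num [rsq, nsq] at this
        · have := h.2; norm_num [rsq, nsq] at this
        · have := h.2.1; norm_num at this
      · rcases hp with (h | h) | h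
        · have := h.2; norm_num [rsq, nsq] at this
        · have := h.2; norm_num [rsq, nsq] at this
        · have := h.2.2.1; norm_num at this
  exact h2

omit hF hO in
theorem par_near {ζ : ℝ} (hζ : ζ ≠ 0) : ∃ U : Set R4, IsOpen U ∧ sph 1 ⊆ U ∧
    ∀ p ∈ U, rad (fr δ) 1 (kap ζ p) = p := by
  have hz : 0 < |ζ| := abs_pos.2 hζ
  have h0 := hδ.1
  refine ⟨{p | |p.1 - 1 / 2| < |ζ| / 4} ∩ ({p | |rsq 1 p - 1 / 25| < δ} ∩ {p | 3 / 4 < p.2.1}),
    ?_, ?_, ?_⟩
  · refine (isOpen_lt (f := fun p : R4 => |p.1 - 1 / 2|) (by fun_prop) continuous_const).inter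
      ((isOpen_lt (f := fun p : R4 => |rsq 1 p - 1 / 25|)
        ((continuous_rsq 1).sub continuous_const).abs continuous_const).inter
      (isOpen_lt continuous_const (continuous_fst.comp continuous_snd)))
  · rintro p ⟨h1, h2⟩
    refine ⟨?_, ?_, ?_⟩
    · show |p.1 - 1 / 2| < |ζ| / 4
      rw [h1, sub_self, abs_zero]
      positivity
    · show |rsq 1 p - 1 / 25| < δ
      rw [h2, sub_self, abs_zero]
      exact h0
    · have h3 : (p.2.1 - 1) ^ 2 + p.2.2.re ^ 2 + p.2.2.im ^ 2 = 1 / 25 := h2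
      show 3 / 4 < p.2.1
      nlinarith [sq_nonneg p.2.2.re, sq_nonneg p.2.2.im]
  · rintro p ⟨h1, h2, h3⟩
    have h1 : |p.1 - 1 / 2| < |ζ| / 4 := h1
    have h2 : |rsq 1 p - 1 / 25| < δ := h2
    have h3 : 3 / 4 < p.2.1 := h3
    rw [kap_near1 hζ h1.le h3.le]
    have h4 := abs_lt.1 h2
    exact rad_id h0 (by linarith) (by linarith) (by linarith [hδ.2])

omit hF hO in
theorem par_sph0 {ζ : ℝ} (hζ : ζ ≠ 0) {p : R4} (hp : p ∈ sph 0) :
    rad (fr δ) 1 (kap ζ p) = (1 / 2 - ζ, p.2 + (1, 0)) := by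
  obtain ⟨h1, h2⟩ := hp
  have h0 := hδ.1
  have h3 : (p.2.1 - 0) ^ 2 + p.2.2.re ^ 2 + p.2.2.im ^ 2 = 1 / 25 := h2
  have h4 : p.2.1 ≤ 1 / 4 := by nlinarith [sq_nonneg p.2.2.re, sq_nonneg p.2.2.im]
  rw [kap_near0 hζ (by rw [h1, sub_self, abs_zero]; positivity) h4]
  have h5 : rsq 1 ((p.1 - ζ, p.2.1 + 1, p.2.2) : R4) = 1 / 25 := by
    show (p.2.1 + 1 - 1) ^ 2 + p.2.2.re ^ 2 + p.2.2.im ^ 2 = 1 / 25
    rw [← h3]
    ring
  rw [rad_id h0 (by rw [h5]; linarith) (by rw [h5]; linarith) (by rw [h5]; norm_num), h1]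
  refine Prod.ext rfl (Prod.ext rfl ?_)
  show p.2.2 = p.2.2 + 0
  rw [add_zero]

end

/-- the point of the rotating copy -/
noncomputable def rot (η : ℝ) (z : ℝ × R4) : R4 :=
  (1 / 2 - η * Real.cos (Real.pi * z.1),
    ((1 + η * Real.sin (Real.pi * z.1)) * z.2.2.1 + 1,
      ((1 + η * Real.sin (Real.pi * z.1) : ℝ) : ℂ) * z.2.2.2))

theorem continuous_rot (η : ℝ) : Continuous (rot η) := by
  unfold rot
  fun_prop

theorem rsq_rot (η : ℝ) (u : ℝ) {p : R4} (hp : p ∈ sph 0) :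
    rsq 1 (rot η (u, p)) = (1 + η * Real.sin (Real.pi * u)) ^ 2 / 25 := by
  have h3 : (p.2.1 - 0) ^ 2 + p.2.2.re ^ 2 + p.2.2.im ^ 2 = 1 / 25 := hp.2
  show ((1 + η * Real.sin (Real.pi * u)) * p.2.1 + 1 - 1) ^ 2 +
    (((1 + η * Real.sin (Real.pi * u) : ℝ) : ℂ) * p.2.2).re ^ 2 +
    (((1 + η * Real.sin (Real.pi * u) : ℝ) : ℂ) * p.2.2).im ^ 2 = _
  rw [Complex.re_ofReal_mul, Complex.im_ofReal_mul]
  have : (1 + η * Real.sin (Real.pi * u)) ^ 2 / 25 =
    (1 + η * Real.sin (Real.pi * u)) ^ 2 * (1 / 25) := by ring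
  rw [this, ← h3]
  ring

theorem rot_mem {δ η : ℝ} (h0 : 0 < η) (h1 : η < δ) (h2 : δ < 1 / 100) {u : ℝ} {p : R4}
    (hp : p ∈ sph 0) : rot η (u, p) ∈ bx δ := by
  have c1 := Real.neg_one_le_cos (Real.pi * u)
  have c2 := Real.cos_le_one (Real.pi * u)
  have s1 := Real.neg_one_le_sin (Real.pi * u)
  have s2 := Real.sin_le_one (Real.pi * u)
  refine ⟨?_, ?_⟩
  · show |1 / 2 - η * Real.cos (Real.pi * u) - 1 / 2| ≤ δ
    rw [abs_le]
    constructor <;> nlinarith
  · rw [rsq_rot η u hp, abs_le]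
    have hs : |η * Real.sin (Real.pi * u)| ≤ η := by
      rw [abs_le]
      constructor <;> nlinarith
    set y := η * Real.sin (Real.pi * u) with hy
    have h3 := abs_le.1 hs
    constructor <;> nlinarith

theorem rot_off {η : ℝ} (h0 : 0 < η) (h1 : η < 1) {u : ℝ} {p : R4} (hp : p ∈ sph 0) :
    rot η (u, p) ∉ sph 1 := by
  rintro ⟨h2, h3⟩
  have h2 : 1 / 2 - η * Real.cos (Real.pi * u) = 1 / 2 := h2
  have h4 : Real.cos (Real.pi * u) = 0 := by
    have : η * Real.cos (Real.pi * u) = 0 := by linarith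
    rcases mul_eq_zero.1 this with h | h
    · exact absurd h h0.ne'
    · exact h
  rw [rsq_rot η u hp] at h3
  have h5 := Real.sin_sq_add_cos_sq (Real.pi * u)
  rw [h4] at h5
  have h6 : (1 + η * Real.sin (Real.pi * u)) ^ 2 = 1 := by linarith
  have h7 : η * Real.sin (Real.pi * u) * (2 + η * Real.sin (Real.pi * u)) = 0 := by linarith
  have s1 := Real.neg_one_le_sin (Real.pi * u)
  rcases mul_eq_zero.1 h7 with h | h
  · rcases mul_eq_zero.1 h with h | h
    · exact h0.ne' h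
    · rw [h] at h5
      norm_num at h5
  · nlinarith

/-- **PAR.** -/
theorem m_PAR (hCls : StCls) (hCROSS : StCROSS) (hCUSP : StCUSP) (hNORM : StNORM)
    (hHMain : StHMain) : StPAR := by
  intro F W hW hF
  obtain ⟨O, hO, hsO, hFO, hFc⟩ := emb_open isCompact_sph1 hF
  obtain ⟨δ, hδ, hbO⟩ := exists_bx hO hsO
  have hδ0 := hδ.1
  have hδ1 := hδ.2
  refine ⟨δ, hδ.1, fun η hη => ?_⟩
  have hη0 := hη.1
  have hηδ := hη.2
  have hm : -η ≠ 0 := neg_ne_zero.2 hη.1.ne'
  have habs : |η| < δ := by rw [abs_of_pos hη.1]; exact hη.2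
  have habs' : |-η| < δ := by rw [abs_neg]; exact habs
  have E1 := par_emb hδ hFO hbO hη.1.ne' habs
  have E2 := par_emb hδ hFO hbO hm habs'
  obtain ⟨U1, hU1, hs1, e1⟩ := par_near hδ hη.1.ne'
  obtain ⟨U2, hU2, hs2, e2⟩ := par_near hδ hm
  refine ⟨fun p => F (rad (fr δ) 1 (kap (-η) p)), U2, E2, hU2, hs2,
    fun p hp => by simp only [e2 p hp], fun x hx => ?_, fun φ' hφ' => ?_⟩
  · have := par_sph0 hδ hm hx
    simp only [this, sub_neg_eq_add]
  · obtain ⟨φ, hφ⟩ := exists_thin E1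
    have k1 := par_cls hδ hFO hbO hCls hCROSS hCUSP hNORM hW hη.1 hη.2 hφ
    have k2 := hHMain (fun p => F (rad (fr δ) 1 (kap η p)))
      (fun p => F (rad (fr δ) 1 (kap (-η) p))) (U1 ∩ U2) (fun z => F (rot η z)) W φ φ' hW E1 E2
      (hU1.inter hU2) (subset_inter hs1 hs2)
      (fun p hp => by simp only [e1 p hp.1, e2 p hp.2]) ?_ ?_ ?_ ?_ hφ hφ'
    · have k3 : WR W φ φ' := k2
      exact WR.trans hW (Pool.Agent.Helper27.BI.ci_refl) k1 k3
    · refine hFc.comp (continuous_rot η).continuousOn ?_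
      rintro ⟨u, p⟩ ⟨-, hp⟩
      exact hbO (rot_mem hη0 hηδ hδ1 hp)
    · intro p hp
      have h1 := par_sph0 hδ hη.1.ne' hp
      have h2 : rot η (0, p) = (1 / 2 - η, p.2 + (1, 0)) := by
        unfold rot
        simp only [mul_zero, Real.cos_zero, Real.sin_zero, mul_one, add_zero, one_mul,
          Complex.ofReal_one]
        refine Prod.ext rfl (Prod.ext rfl ?_)
        show p.2.2 = p.2.2 + 0
        rw [add_zero]
      simp only [h1, h2]
    · intro p hp
      have h1 := par_sph0 hδ hm hp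
      have h2 : rot η (1, p) = (1 / 2 + η, p.2 + (1, 0)) := by
        unfold rot
        simp only [mul_one, Real.cos_pi, Real.sin_pi, mul_zero, add_zero, one_mul,
          Complex.ofReal_one]
        refine Prod.ext ?_ (Prod.ext rfl ?_)
        · show 1 / 2 - η * -1 = 1 / 2 + η
          ring
        · show p.2.2 = p.2.2 + 0
          rw [add_zero]
      simp only [h1, h2, sub_neg_eq_add]
    · rintro u - p hp ⟨q, hq, hqe⟩
      have h1 : F q = F (rot η (u, p)) := by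
        have := e1 q (hs1 hq)
        simp only [this] at hqe
        exact hqe
      have h2 := hFO.2 (hsO hq) (hbO (rot_mem hη0 hηδ hδ1 hp)) h1
      rw [h2] at hq
      exact rot_off hη0 (by linarith) hp hq

end Pool.Agent.Helper27.R


end

/-! ## Helper27.BI.R.AsmR -/

section

/-!
# Project BI, stage 4 (R): the modules MULT, INV, PAR, and the cusp family, unconditionally
-/

set_option autoImplicit false

namespace Pool.Agent.Helper27.R

open Pool.Agent.Helper27.H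

theorem hMULT : Pool.Agent.Helper18.BI.R.StMULT := m_MULT hCH4 hFRAME hTHK hPhi
theorem hINV : Pool.Agent.Helper18.BI.R.StINV :=
  m_INV hCH4 hFRAME hTHK hPhi Pool.Agent.Helper18.BI.hCI
theorem hCUSP : StCUSP := m_CUT m_CUM

/-- **PAR**, from the crossing lemma, the normalization and the homotopy theorem -/
theorem hPAR_of (hCROSS : StCROSS) (hNORM : StNORM)
    (hHMain : Pool.Agent.Helper18.BI.H.StHMain) : StPAR :=
  m_PAR hCls hCROSS hCUSP hNORM hHMain

/-- the homotopy theorem for loops of arcs, from the crossing lemma and the normalization -/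
theorem hArcH_of' (hCROSS : StCROSS) (hNORM : StNORM) : StArcH :=
  hArcH_of hCROSS m_CUM hNORM

end Pool.Agent.Helper27.R


end

/-! ## Helper27.BI.R.M_PAR4 -/

section

/-!
# Project BI, stage 4 (R), module PAR4
-/

set_option autoImplicit false

open scoped Manifold ContDiff Topology ComplexConjugate
open Set Filter Pool.Agent.Helper65.Barb Pool.Agent.Helper18.BI
open Pool.Agent.Helper70.BI (I4 IsW)
open Pool.Agent.Helper27.H

namespace Pool.Agent.Helper27.R

theorem m_PAR4 (h : StPAR) : Pool.Agent.Helper18.BI.R.StPAR4 := by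
  intro F W hW hF r hr
  obtain ⟨η₀, hη₀, hh⟩ := h F W hW
    (Pool.Agent.Helper27.BI.EmbOn.mono hF fun p hp => Or.inl (Or.inr hp))
  have hm : 0 < min η₀ r := lt_min hη₀ hr
  have h1 : min η₀ r / 2 < min η₀ r := by linarith
  obtain ⟨F', U, hF', hU, hs, hE, hp, hc⟩ := hh (min η₀ r / 2)
    ⟨by positivity, h1.trans_le (min_le_left _ _)⟩
  obtain ⟨φ, hφ⟩ := exists_thin hF'
  refine ⟨min η₀ r / 2, ⟨by positivity, h1.trans_le (min_le_right _ _)⟩, F', φ, U, hF', hU, hs, hE,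
    hφ, hc φ hφ, fun p hp' => ?_⟩
  obtain ⟨s, x⟩ := p
  have hs' : s = 1 / 2 := hp'.1
  subst hs'
  rw [hp x hp']
  congr 1
  refine Prod.ext rfl (Prod.ext rfl ?_)
  show x.2 + 0 = x.2
  rw [add_zero]

/-- the homotopy theorem for loops of arcs, from the normalization -/
theorem hArcH'' (hNORM : StNORM) : StArcH := hArcH_of' Pool.Agent.Helper34.BI.H.hCROSS hNORM

/-- **PAR4** -/
theorem hPAR4_of (hNORM : StNORM) (hHMain : Pool.Agent.Helper18.BI.H.StHMain) :
    Pool.Agent.Helper18.BI.R.StPAR4 :=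
  m_PAR4 (hPAR_of Pool.Agent.Helper34.BI.H.hCROSS hNORM hHMain)

end Pool.Agent.Helper27.R


end
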