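import Pool.Agent.Helper65.Barb.Defs
import Pool.Agent.Helper70.BI.B.P16

/-!
# Project BI (MP_8e98f2_gt): collected modules, part 39

The contents of the modules
* Helper70.BI.M_HOM
* Helper70.BI.M_SYM
* Helper18.BI.M_R3
* Helper18.BI.M_R1

in one file, so that the whole proof builds in a short time.
-/

/-! ## Helper70.BI.M_HOM -/

section

/-!
# Project BI, part (E), module HOM: uniqueness of the normal form
-/

set_option autoImplicit false

open scoped Manifold ContDiff Topology ComplexConjugate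
open Set Filter Pool.Agent.Helper65.Barb Pool.Agent.Helper18.BI

namespace Pool.Agent.Helper70.BI

open Pool.Agent.Helper34.BI (cfac BarData barFam fam GenPos exists_genPos hat hat_eq_zero
  hat_ne_zero hat_nonneg contDiff_hat fderiv_fam)

namespace HOM

/-! ## elementary facts -/

theorem norm_ax (a c : ℝ) : ‖ax a - ax c‖ = |a - c| := by
  simp [ax, Prod.norm_def]

theorem rsq_ax (c a : ℝ) : rsq c (ax a) = (a - c) ^ 2 := by
  simp [rsq, nsq, ax]

theorem ax_inj {a b : ℝ} (h : ax a = ax b) : a = b := by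
  simpa [ax] using h

theorem contDiff_ax : ContDiff ℝ ∞ ax := by
  unfold ax
  exact contDiff_const.prodMk (contDiff_id.prodMk contDiff_const)

theorem hasDerivAt_ax (a : ℝ) : HasDerivAt ax ((0 : ℝ), ((1 : ℝ), (0 : ℂ))) a := by
  unfold ax
  exact (hasDerivAt_const a _).prodMk ((hasDerivAt_id a).prodMk (hasDerivAt_const a _))

theorem ax_mem_flat0 {a : ℝ} (h0 : 0 ≤ a) (h1 : a ≤ 1 / 5) : ax a ∈ flat 0 :=
  ⟨rfl, by rw [rsq_ax]; nlinarith⟩

theorem ax_mem_flat1 {a : ℝ} (h0 : 4 / 5 ≤ a) (h1 : a ≤ 1) : ax a ∈ flat 1 :=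
  ⟨rfl, by rw [rsq_ax]; nlinarith⟩

theorem ax_mem_neck {a : ℝ} (h0 : 1 / 5 ≤ a) (h1 : a ≤ 4 / 5) : ax a ∈ neck :=
  ⟨rfl, h0, h1, rfl⟩

theorem NB_mono {c γ e δ δ₀ : ℝ} {F : R4 → R4} (h : NB c F γ e δ) (h0 : 0 < δ₀) (h1 : δ₀ ≤ δ) :
    NB c F γ e δ₀ :=
  ⟨h.br, h0, h1.trans h.small, fun p hp => h.near p (hp.trans_le h1),
    fun a ha => h.str a (ha.trans_le h1)⟩

theorem NF_mono {e d δ δ₀ : ℝ} {F : R4 → R4} (h : NF F e d δ) (h0 : 0 < δ₀) (h1 : δ₀ ≤ δ) :
    NF F e d δ₀ := ⟨h.th, NB_mono h.a h0 h1, NB_mono h.b h0 h1⟩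

/-! ## the extended core -/

/-- the extended core -/
noncomputable def ec (F : R4 → R4) (δ a : ℝ) : R4 :=
  if δ / 2 ≤ a ∧ a ≤ 1 - δ / 2 then core F a else ax a

section
variable {F : R4 → R4} {e d δ : ℝ} (N : NF F e d δ)
include N

theorem core_ax0 {a : ℝ} (h : |a| < δ) : core F a = ax a :=
  N.a.near _ (by rw [norm_ax]; simpa using h)

theorem core_ax1 {a : ℝ} (h : |a - 1| < δ) : core F a = ax a :=
  N.b.near _ (by rw [norm_ax]; exact h)

theorem ec_core {a : ℝ} (h1 : -δ < a) (h2 : a < 1 + δ) : ec F δ a = core F a := by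
  unfold ec
  have hδ := N.a.pos
  split_ifs with h
  · rfl
  · by_cases h3 : δ / 2 ≤ a
    · have h4 : 1 - δ / 2 < a := by
        by_contra h5
        exact h ⟨h3, by linarith⟩
      exact (core_ax1 N (abs_lt.2 ⟨by linarith, by linarith⟩)).symm
    · exact (core_ax0 N (abs_lt.2 ⟨by linarith, by linarith⟩)).symm

theorem ec_ax {a : ℝ} (h : a < δ ∨ 1 - δ < a) : ec F δ a = ax a := by
  unfold ec
  have hδ := N.a.pos
  split_ifs with h1
  · rcases h with h | h
    · exact core_ax0 N (abs_lt.2 ⟨by linarith, h⟩)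
    · exact core_ax1 N (abs_lt.2 ⟨by linarith, by linarith [h1.2]⟩)
  · rfl

theorem ld_ax {a : ℝ} (ha : a ∈ Icc (0 : ℝ) 1) : LD F (ax a) := by
  rcases le_or_gt a (1 / 5) with h | h
  · exact N.a.br.loc _ (Or.inr (ax_mem_flat0 ha.1 h))
  · rcases le_or_gt a (4 / 5) with h' | h'
    · exact N.a.br.loc _ (Or.inl (Or.inr (ax_mem_neck h.le h')))
    · exact N.b.br.loc _ (Or.inr (ax_mem_flat1 h'.le ha.2))

theorem ec_eventually {a : ℝ} (ha : a ∈ Icc (0 : ℝ) 1) : ec F δ =ᶠ[𝓝 a] fun r => F (ax r) := by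
  have hδ := N.a.pos
  filter_upwards [Ioo_mem_nhds (show -δ < a by linarith [ha.1]) (show a < 1 + δ by linarith [ha.2])]
    with r hr
  exact ec_core N hr.1 hr.2

theorem contDiff_ec : ContDiff ℝ ∞ (ec F δ) := by
  have hδ := N.a.pos
  rw [contDiff_iff_contDiffAt]
  intro a
  by_cases ha : a ∈ Icc (0 : ℝ) 1
  · have h1 : ContDiffAt ℝ ∞ F (ax a) := (ld_iff.1 (ld_ax N ha)).1.self_of_nhds
    exact (h1.comp a contDiff_ax.contDiffAt).congr_of_eventuallyEq (ec_eventually N ha)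
  · refine contDiff_ax.contDiffAt.congr_of_eventuallyEq ?_
    by_cases h0 : 0 ≤ a
    · have h1 : 1 < a := by
        by_contra h2
        exact ha ⟨h0, not_lt.1 h2⟩
      filter_upwards [Ioi_mem_nhds (show 1 - δ < a by linarith)] with r hr
      exact ec_ax N (Or.inr hr)
    · filter_upwards [Iio_mem_nhds (show a < δ by linarith [not_le.1 h0])] with r hr
      exact ec_ax N (Or.inl hr)

theorem deriv_ec {a : ℝ} (ha : a ∈ Icc (0 : ℝ) 1) : deriv (ec F δ) a ≠ 0 := by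
  have h1 := ld_iff.1 (ld_ax N ha)
  have h2 : HasFDerivAt F (fderiv ℝ F (ax a)) (ax a) :=
    (h1.1.self_of_nhds.differentiableAt (by simp)).hasFDerivAt
  have h3 : HasDerivAt (fun r => F (ax r)) (fderiv ℝ F (ax a) ((0 : ℝ), ((1 : ℝ), (0 : ℂ)))) a :=
    HasFDerivAt.comp_hasDerivAt_of_eq a h2 (hasDerivAt_ax a) rfl
  rw [(ec_eventually N ha).deriv_eq, h3.deriv]
  intro h0
  have h4 := h1.2 (h0.trans (map_zero _).symm)
  simp at h4

theorem core_35 {a : ℝ} (h : |a - 3 / 5| < δ) : core F a = (1 / 2 + e * (a - 3 / 5), pc 0) :=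
  N.a.str a h

theorem core_25 {a : ℝ} (h : |a - 2 / 5| < δ) : core F a = (1 / 2 + d * (a - 2 / 5), pc 1) :=
  N.b.str a h

theorem foot0 : F (ax 0) = ax 0 := core_ax0 N (by simpa using N.a.pos)

theorem foot1 : F (ax 1) = ax 1 := core_ax1 N (by simpa using N.a.pos)

theorem cross0 : core F (3 / 5) = ax 0 := by
  rw [core_35 N (by simpa using N.a.pos)]
  simp [ax, pc]

theorem cross1 : core F (2 / 5) = ax 1 := by
  rw [core_25 N (by simpa using N.a.pos)]
  simp [ax, pc]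

theorem disj {p q : R4} (hp : p ∈ flat 0) (hq : q ∈ flat 1) (h : F p = F q) : False :=
  (Set.disjoint_left.1 N.th.dis) ⟨p, hp, rfl⟩ ⟨q, hq, h.symm⟩

theorem core_inj {a b : ℝ} (ha : 0 ≤ a) (hab : a < b) (hb : b ≤ 1) (h : core F a = core F b) :
    (a = 0 ∧ b = 3 / 5) ∨ (a = 2 / 5 ∧ b = 1) := by
  have z0 : ax 0 ∈ flat 0 := ax_mem_flat0 le_rfl (by norm_num)
  have z1 : ax 1 ∈ flat 1 := ax_mem_flat1 (by norm_num) le_rfl
  have h' : F (ax a) = F (ax b) := h
  rcases le_or_gt a (1 / 5) with h1 | h1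
  · have fa := ax_mem_flat0 ha h1
    rcases le_or_gt b (1 / 5) with h2 | h2
    · have h3 := N.a.br.injF (Or.inl fa) (Or.inl (ax_mem_flat0 (ha.trans hab.le) h2)) h'
      exact absurd (ax_inj h3) hab.ne
    · rcases le_or_gt b (4 / 5) with h3 | h3
      · rcases N.a.br.only b ⟨h2.le, h3⟩ ⟨ax a, fa, h'⟩ with h4 | h4
        · exfalso
          rw [h4] at h2
          norm_num at h2
        · left
          refine ⟨?_, h4⟩
          rw [h4] at h
          have h5 : F (ax a) = F (ax 0) := by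
            rw [foot0 N, ← cross0 N]
            exact h
          exact ax_inj (N.a.br.injF (Or.inl fa) (Or.inl z0) h5)
      · exact (disj N fa (ax_mem_flat1 h3.le hb) h').elim
  · rcases le_or_gt a (4 / 5) with h2 | h2
    · rcases le_or_gt b (4 / 5) with h3 | h3
      · have h4 := N.a.br.inj (Or.inr (ax_mem_neck h1.le h2))
          (Or.inr (ax_mem_neck (h1.le.trans hab.le) h3)) h'
        exact absurd (ax_inj h4) hab.ne
      · have fb := ax_mem_flat1 h3.le hb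
        rcases N.b.br.only a ⟨h1.le, h2⟩ ⟨ax b, fb, h'.symm⟩ with h4 | h4
        · have h5 : a = 4 / 5 := by rw [h4]; norm_num
          have h6 := N.b.br.injF (Or.inl (ax_mem_flat1 h5.ge (by linarith))) (Or.inl fb) h'
          exact absurd (ax_inj h6) hab.ne
        · right
          refine ⟨h4, ?_⟩
          rw [h4] at h
          have h5 : F (ax b) = F (ax 1) := by
            rw [foot1 N, ← cross1 N]
            exact h.symm
          exact ax_inj (N.b.br.injF (Or.inl fb) (Or.inl z1) h5)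
    · have h6 := N.b.br.injF (Or.inl (ax_mem_flat1 h2.le (hab.le.trans hb)))
        (Or.inl (ax_mem_flat1 (h2.le.trans hab.le) hb)) h'
      exact absurd (ax_inj h6) hab.ne

theorem ec_inj {a b : ℝ} (ha : 0 ≤ a) (hab : a < b) (hb : b ≤ 1) (h : ec F δ a = ec F δ b) :
    (a = 0 ∧ b = 3 / 5) ∨ (a = 2 / 5 ∧ b = 1) := by
  have hδ := N.a.pos
  rw [ec_core N (by linarith) (by linarith), ec_core N (by linarith) (by linarith)] at h
  exact core_inj N ha hab hb h

end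

/-- the cores of two germs in normal form agree near the frozen part -/
theorem ec_agree {F F' : R4 → R4} {e d δ : ℝ} (N : NF F e d δ) (N' : NF F' e d δ) {a : ℝ}
    (h : a < δ ∨ |a - 2 / 5| < δ ∨ |a - 3 / 5| < δ ∨ 1 - δ < a) : ec F δ a = ec F' δ a := by
  have hδ := N.a.pos
  have hs := N.a.small
  rcases h with h | h | h | h
  · rw [ec_ax N (Or.inl h), ec_ax N' (Or.inl h)]
  · have h' := abs_lt.1 h
    rw [ec_core N (by linarith) (by linarith), ec_core N' (by linarith) (by linarith), core_25 N h,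
      core_25 N' h]
  · have h' := abs_lt.1 h
    rw [ec_core N (by linarith) (by linarith), ec_core N' (by linarith) (by linarith), core_35 N h,
      core_35 N' h]
  · rw [ec_ax N (Or.inr h), ec_ax N' (Or.inr h)]

/-! ## the family of arcs -/

/-- the sum of three hats -/
noncomputable def chi (δ a : ℝ) : ℝ :=
  hat (δ / 2) (2 / 5 - δ / 2) a + hat (2 / 5 + δ / 2) (3 / 5 - δ / 2) a +
    hat (3 / 5 + δ / 2) (1 - δ / 2) a

theorem contDiff_chi (δ : ℝ) : ContDiff ℝ ∞ (chi δ) := by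
  unfold chi
  exact ((contDiff_hat _ _).add (contDiff_hat _ _)).add (contDiff_hat _ _)

theorem chi_nonneg (δ a : ℝ) : 0 ≤ chi δ a :=
  add_nonneg (add_nonneg (hat_nonneg _ _ _) (hat_nonneg _ _ _)) (hat_nonneg _ _ _)

/-- the frozen part -/
def Fz (δ a : ℝ) : Prop := a ≤ δ / 2 ∨ |a - 2 / 5| ≤ δ / 2 ∨ |a - 3 / 5| ≤ δ / 2 ∨ 1 - δ / 2 ≤ a

theorem chi_eq_zero {δ a : ℝ} (hδ : 0 < δ) (hs : δ ≤ 1 / 100) (h : Fz δ a) : chi δ a = 0 := by
  unfold chi
  rcases h with h | h | h | h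
  · rw [hat_eq_zero (Or.inl h), hat_eq_zero (Or.inl (by linarith)),
      hat_eq_zero (Or.inl (by linarith))]
    norm_num
  · have h' := abs_le.1 h
    rw [hat_eq_zero (Or.inr (by linarith)), hat_eq_zero (Or.inl (by linarith)),
      hat_eq_zero (Or.inl (by linarith))]
    norm_num
  · have h' := abs_le.1 h
    rw [hat_eq_zero (Or.inr (by linarith)), hat_eq_zero (Or.inr (by linarith)),
      hat_eq_zero (Or.inl (by linarith))]
    norm_num
  · rw [hat_eq_zero (Or.inr (by linarith)), hat_eq_zero (Or.inr (by linarith)),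
      hat_eq_zero (Or.inr h)]
    norm_num

theorem fz_of_chi {δ a : ℝ} (h : chi δ a = 0) : Fz δ a := by
  unfold chi at h
  have n1 := hat_nonneg (δ / 2) (2 / 5 - δ / 2) a
  have n2 := hat_nonneg (2 / 5 + δ / 2) (3 / 5 - δ / 2) a
  have n3 := hat_nonneg (3 / 5 + δ / 2) (1 - δ / 2) a
  have z1 : hat (δ / 2) (2 / 5 - δ / 2) a = 0 := by linarith
  have z2 : hat (2 / 5 + δ / 2) (3 / 5 - δ / 2) a = 0 := by linarith
  have z3 : hat (3 / 5 + δ / 2) (1 - δ / 2) a = 0 := by linarith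
  by_contra hcon
  unfold Fz at hcon
  push Not at hcon
  obtain ⟨c1, c2, c3, c4⟩ := hcon
  rcases lt_abs.1 c2 with h2 | h2
  · rcases lt_abs.1 c3 with h3 | h3
    · exact hat_ne_zero.2 ⟨by linarith, c4⟩ z3
    · exact hat_ne_zero.2 ⟨by linarith, by linarith⟩ z2
  · exact hat_ne_zero.2 ⟨c1, by linarith⟩ z1

/-- partial derivatives -/
theorem fderiv_snd {G : ℝ × ℝ → R4} (hG : ContDiff ℝ ∞ G) (t u : ℝ) :
    HasDerivAt (fun r => G (t, r)) (fderiv ℝ G (t, u) (0, 1)) u := by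
  have l : HasDerivAt (fun r : ℝ => ((t, r) : ℝ × ℝ)) (0, 1) u :=
    (hasDerivAt_const u t).prodMk (hasDerivAt_id u)
  exact HasFDerivAt.comp_hasDerivAt_of_eq u
    ((hG.differentiable (by simp) (t, u)).hasFDerivAt) l rfl

/-- The generic family of arcs. -/
theorem exists_fam {F F' : R4 → R4} {e d δ : ℝ} (N : NF F e d δ) (N' : NF F' e d δ) :
    ∃ H : ℝ × ℝ → R4, ContDiff ℝ ∞ H ∧ (∀ a, H (0, a) = ec F δ a) ∧ (∀ a, H (1, a) = ec F' δ a) ∧
      (∀ t a, Fz δ a → H (t, a) = ec F δ a) ∧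
      (∀ t ∈ Icc (0 : ℝ) 1, ∀ a ∈ Icc (0 : ℝ) 1, fderiv ℝ H (t, a) (0, 1) ≠ 0) ∧
      ∀ t ∈ Icc (0 : ℝ) 1, ∀ a b, 0 ≤ a → a < b → b ≤ 1 → H (t, a) = H (t, b) →
        (a = 0 ∧ b = 3 / 5) ∨ (a = 2 / 5 ∧ b = 1) := by
  have hδ := N.a.pos
  have hs := N.a.small
  let ρ : ℝ → ℝ := hat 0 1
  let χ : ℝ → ℝ := chi δ
  have hρ : ContDiff ℝ ∞ ρ := contDiff_hat _ _
  have hχ : ContDiff ℝ ∞ χ := contDiff_chi δ
  have hc := contDiff_ec N
  have hc' := contDiff_ec N'
  let h : ℝ × ℝ → R4 := fun x => (1 - step x.1) • ec F δ x.2 + step x.1 • ec F' δ x.2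
  have hh : ContDiff ℝ ∞ h := by
    have e1 : ContDiff ℝ ∞ (fun x : ℝ × ℝ => step x.1) := contDiff_step.comp contDiff_fst
    have e2 : ContDiff ℝ ∞ (fun x : ℝ × ℝ => ec F δ x.2) := hc.comp contDiff_snd
    have e3 : ContDiff ℝ ∞ (fun x : ℝ × ℝ => ec F' δ x.2) := hc'.comp contDiff_snd
    exact ((contDiff_const.sub e1).smul e2).add (e1.smul e3)
  have hE : Module.finrank ℝ R4 = 4 := by
    simp [Complex.finrank_real_complex]
  obtain ⟨v, w, -, -, hgp⟩ := exists_genPos (E := R4) (Y := ℂ) (h := h) (ρ := ρ) (χ := χ) hE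
    Complex.finrank_real_complex hh hρ hχ (ι := Empty) (κ := Empty)
    (f := fun i _ => i.elim) (T := fun i => i.elim) (g := fun i _ => i.elim) (fun i => i.elim)
    (fun i => i.elim) (fun i => i.elim) (ε := 1) one_pos
  let H : ℝ × ℝ → R4 := fam h ρ χ v w
  have hval : ∀ t a, H (t, a) = (1 - step t) • ec F δ a + step t • ec F' δ a +
      (hat 0 1 t * chi δ a) • (v + a • w) := fun t a => rfl
  have hH : ContDiff ℝ ∞ H := by
    have e1 : ContDiff ℝ ∞ (fun x : ℝ × ℝ => ρ x.1) := hρ.comp contDiff_fst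
    have e2 : ContDiff ℝ ∞ (fun x : ℝ × ℝ => χ x.2) := hχ.comp contDiff_snd
    exact hh.add ((e1.mul e2).smul (contDiff_const.add (contDiff_snd.smul contDiff_const)))
  have start : ∀ a, H (0, a) = ec F δ a := by
    intro a
    rw [hval, hat_eq_zero (Or.inl le_rfl), step_of_nonpos le_rfl]
    simp
  have stop : ∀ a, H (1, a) = ec F' δ a := by
    intro a
    rw [hval, hat_eq_zero (Or.inr le_rfl), step_of_one_le le_rfl]
    simp
  have frz : ∀ t a, Fz δ a → H (t, a) = ec F δ a := by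
    intro t a ha
    have e1 : ec F δ a = ec F' δ a := by
      refine ec_agree N N' ?_
      rcases ha with h1 | h1 | h1 | h1
      · exact Or.inl (by linarith)
      · exact Or.inr (Or.inl (by linarith))
      · exact Or.inr (Or.inr (Or.inl (by linarith)))
      · exact Or.inr (Or.inr (Or.inr (by linarith)))
    rw [hval, chi_eq_zero hδ hs ha, ← e1]
    module
  have tcase : ∀ t ∈ Icc (0 : ℝ) 1, t = 0 ∨ t = 1 ∨ ρ t ≠ 0 := by
    intro t ht
    rcases eq_or_lt_of_le ht.1 with h1 | h1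
    · exact Or.inl h1.symm
    · rcases eq_or_lt_of_le ht.2 with h2 | h2
      · exact Or.inr (Or.inl h2)
      · exact Or.inr (Or.inr (hat_ne_zero.2 ⟨h1, h2⟩))
  refine ⟨H, hH, start, stop, frz, ?_, ?_⟩
  · intro t ht a ha
    rcases tcase t ht with rfl | rfl | hρt
    · have e1 := fderiv_snd hH 0 a
      have e2 : (fun r => H (0, r)) = ec F δ := funext start
      rw [e2] at e1
      rw [← e1.deriv]
      exact deriv_ec N ha
    · have e1 := fderiv_snd hH 1 a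
      have e2 : (fun r => H (1, r)) = ec F' δ := funext stop
      rw [e2] at e1
      rw [← e1.deriv]
      exact deriv_ec N' ha
    · by_cases hχa : χ a = 0
      · have hf := fz_of_chi hχa
        have e1 : deriv χ a = 0 := by
          refine IsLocalMin.deriv_eq_zero (Eventually.of_forall fun r => ?_)
          rw [hχa]
          exact chi_nonneg δ r
        have e2 := fderiv_fam hh hρ hχ v w t a
        rw [e1, hχa] at e2
        have e3 : fderiv ℝ H (t, a) (0, 1) = fderiv ℝ h (t, a) (0, 1) := by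
          rw [show fderiv ℝ H (t, a) (0, 1) = fderiv ℝ (fam h ρ χ v w) (t, a) (0, 1) from rfl, e2]
          simp
        rw [e3]
        have e4 := fderiv_snd hh t a
        have e5 : (fun r => h (t, r)) =ᶠ[𝓝 a] ec F δ := by
          have hop : ∀ᶠ r in 𝓝 a, r < δ ∨ |r - 2 / 5| < δ ∨ |r - 3 / 5| < δ ∨ 1 - δ < r := by
            rcases hf with h1 | h1 | h1 | h1
            · filter_upwards [Iio_mem_nhds (show a < δ by linarith)] with r hr
              exact Or.inl hr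
            · have hcont : Continuous fun r : ℝ => |r - 2 / 5| := by fun_prop
              filter_upwards [(isOpen_lt hcont continuous_const).mem_nhds
                (show |a - 2 / 5| < δ by linarith)] with r hr
              exact Or.inr (Or.inl hr)
            · have hcont : Continuous fun r : ℝ => |r - 3 / 5| := by fun_prop
              filter_upwards [(isOpen_lt hcont continuous_const).mem_nhds
                (show |a - 3 / 5| < δ by linarith)] with r hr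
              exact Or.inr (Or.inr (Or.inl hr))
            · filter_upwards [Ioi_mem_nhds (show 1 - δ < a by linarith)] with r hr
              exact Or.inr (Or.inr (Or.inr hr))
          filter_upwards [hop] with r hr
          change (1 - step t) • ec F δ r + step t • ec F' δ r = ec F δ r
          rw [← ec_agree N N' hr]
          module
        rw [← e4.deriv, e5.deriv_eq]
        exact deriv_ec N ha
      · exact hgp.imm t a hρt hχa
  · intro t ht a b ha hab hb he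
    rcases tcase t ht with rfl | rfl | hρt
    · rw [start, start] at he
      exact ec_inj N ha hab hb he
    · rw [stop, stop] at he
      exact ec_inj N' ha hab hb he
    · by_cases hor : χ a ≠ 0 ∨ χ b ≠ 0
      · exact absurd he (hgp.inj t a b hρt hab.ne hor)
      · push Not at hor
        rw [frz t a (fz_of_chi hor.1), frz t b (fz_of_chi hor.2)] at he
        exact ec_inj N ha hab hb he

/-- distances to the two exceptional points -/
theorem exists_mu {F : R4 → R4} {e d δ : ℝ} (N : NF F e d δ) {H : ℝ × ℝ → R4}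
    (hH : ContDiff ℝ ∞ H) (frz : ∀ t a, Fz δ a → H (t, a) = ec F δ a)
    (inj : ∀ t ∈ Icc (0 : ℝ) 1, ∀ a b, 0 ≤ a → a < b → b ≤ 1 → H (t, a) = H (t, b) →
        (a = 0 ∧ b = 3 / 5) ∨ (a = 2 / 5 ∧ b = 1)) :
    ∃ μ : ℝ, 0 < μ ∧
      (∀ t ∈ Icc (0 : ℝ) 1, ∀ a ∈ Icc (δ / 2) 1, δ / 2 ≤ |a - 3 / 5| → μ ≤ ‖H (t, a) - ax 0‖) ∧
      ∀ t ∈ Icc (0 : ℝ) 1, ∀ a ∈ Icc 0 (1 - δ / 2), δ / 2 ≤ |a - 2 / 5| →
        μ ≤ ‖H (t, a) - ax 1‖ := by
  have hδ := N.a.pos
  have hs := N.a.small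
  have key : ∀ (S : Set ℝ) (z : R4), IsCompact S → (∀ t ∈ Icc (0 : ℝ) 1, ∀ a ∈ S, H (t, a) ≠ z) →
      ∃ μ : ℝ, 0 < μ ∧ ∀ t ∈ Icc (0 : ℝ) 1, ∀ a ∈ S, μ ≤ ‖H (t, a) - z‖ := by
    intro S z hS hne
    rcases S.eq_empty_or_nonempty with h0 | ⟨s, hs⟩
    · exact ⟨1, one_pos, fun t _ a ha => by rw [h0] at ha; exact ha.elim⟩
    · have hK : IsCompact (Icc (0 : ℝ) 1 ×ˢ S) := isCompact_Icc.prod hS
      have hc : ContinuousOn (fun x : ℝ × ℝ => ‖H x - z‖) (Icc (0 : ℝ) 1 ×ˢ S) :=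
        (hH.continuous.sub continuous_const).norm.continuousOn
      obtain ⟨x, hx, hmin⟩ := hK.exists_isMinOn ⟨(0, s), ⟨le_rfl, zero_le_one⟩, hs⟩ hc
      refine ⟨‖H x - z‖, norm_pos_iff.2 (sub_ne_zero.2 (hne x.1 hx.1 x.2 hx.2)), ?_⟩
      intro t ht a ha
      exact hmin (show (t, a) ∈ Icc (0 : ℝ) 1 ×ˢ S from ⟨ht, ha⟩)
  have c3 : Continuous fun a : ℝ => |a - 3 / 5| := by fun_prop
  have c2 : Continuous fun a : ℝ => |a - 2 / 5| := by fun_prop
  have e0 : ∀ t, H (t, 0) = ax 0 := fun t => by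
    rw [frz t 0 (Or.inl (by linarith)), ec_ax N (Or.inl hδ)]
  have e1 : ∀ t, H (t, 1) = ax 1 := fun t => by
    rw [frz t 1 (Or.inr (Or.inr (Or.inr (by linarith)))), ec_ax N (Or.inr (by linarith))]
  obtain ⟨μ₁, p1, h1⟩ := key (Icc (δ / 2) 1 ∩ {a | δ / 2 ≤ |a - 3 / 5|}) (ax 0)
    (isCompact_Icc.inter_right (isClosed_le continuous_const c3)) (by
      rintro t ht a ⟨ha, ha'⟩ he
      have ha'' : δ / 2 ≤ |a - 3 / 5| := ha'
      rcases inj t ht 0 a le_rfl (by linarith [ha.1]) ha.2 ((e0 t).trans he.symm) with h | h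
      · rw [h.2] at ha''
        norm_num at ha''
        linarith
      · linarith [h.1])
  obtain ⟨μ₂, p2, h2⟩ := key (Icc 0 (1 - δ / 2) ∩ {a | δ / 2 ≤ |a - 2 / 5|}) (ax 1)
    (isCompact_Icc.inter_right (isClosed_le continuous_const c2)) (by
      rintro t ht a ⟨ha, ha'⟩ he
      have ha'' : δ / 2 ≤ |a - 2 / 5| := ha'
      rcases inj t ht a 1 ha.1 (by linarith [ha.2]) le_rfl (he.trans (e1 t).symm) with h | h
      · linarith [h.2]
      · rw [h.1] at ha''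
        norm_num at ha''
        linarith)
  exact ⟨min μ₁ μ₂, lt_min p1 p2, fun t ht a ha h => (min_le_left _ _).trans (h1 t ht a ⟨ha, h⟩),
    fun t ht a ha h => (min_le_right _ _).trans (h2 t ht a ⟨ha, h⟩)⟩

/-! ## the contraction -/

/-- the contracted germ -/
noncomputable def Fl (F : R4 → R4) (lam : ℝ) (p : R4) : R4 := F (clc 0 lam (clc 1 lam p))

theorem rsq0_of_flat1 {p : R4} (h : p ∈ flat 1) : 9 / 100 ≤ rsq 0 p := by
  have h2 := h.2
  simp only [rsq, nsq] at h2 ⊢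
  have h3 : (p.2.1 - 1) ^ 2 ≤ (1 / 5) ^ 2 := by
    nlinarith [sq_nonneg p.2.2.re, sq_nonneg p.2.2.im]
  have h4 := abs_le_of_sq_le_sq' h3 (by norm_num)
  nlinarith [h4.1, h4.2, sq_nonneg p.2.2.re, sq_nonneg p.2.2.im]

theorem rsq1_of_flat0 {p : R4} (h : p ∈ flat 0) : 9 / 100 ≤ rsq 1 p := by
  have h2 := h.2
  simp only [rsq, nsq] at h2 ⊢
  have h3 : (p.2.1 - 0) ^ 2 ≤ (1 / 5) ^ 2 := by
    nlinarith [sq_nonneg p.2.2.re, sq_nonneg p.2.2.im]
  have h4 := abs_le_of_sq_le_sq' h3 (by norm_num)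
  nlinarith [h4.1, h4.2, sq_nonneg p.2.2.re, sq_nonneg p.2.2.im]

theorem cfac_bounds {lam : ℝ} (hl : lam ∈ Ioc (0 : ℝ) 1) (q : ℝ) :
    0 < cfac lam q ∧ cfac lam q ≤ 1 := by
  have h0 : 0 ≤ step ((q - 1 / 20) / (1 / 25)) := Real.smoothTransition.nonneg _
  have h1 : step ((q - 1 / 20) / (1 / 25)) ≤ 1 := Real.smoothTransition.le_one _
  unfold cfac
  constructor
  · have : 0 ≤ (1 - lam) * step ((q - 1 / 20) / (1 / 25)) :=
      mul_nonneg (by linarith [hl.2]) h0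
    linarith [hl.1]
  · nlinarith [hl.1, hl.2]

theorem sph_flat {c : ℝ} {p : R4} (h : p ∈ sph c) : p ∈ flat c := ⟨h.1, h.2.le⟩

/-- contraction does not change the class of a germ in normal form -/
theorem eqv_Fl (hCL : StCL) (hCTR : StCTR) {F : R4 → R4} {e d δ : ℝ} (N : NF F e d δ) {lam : ℝ}
    (hl : lam ∈ Ioc (0 : ℝ) 1) : EmbOn I4 (Fl F lam) SP ∧ Eqv F (Fl F lam) := by
  obtain ⟨-, -, h⟩ := hCL 0 (Or.inl rfl)
  obtain ⟨hemb, hfst, hin, hfix, hax, hle, -⟩ := h lam hl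
  have a1 := hCTR 0 F (3 / 5) (Or.inl rfl) N.a.br.loc N.a.br.inj N.a.br.injF
    ((cross0 N).trans (foot0 N).symm) N.a.br.only lam hl
  set F1 : R4 → R4 := fun p => F (clc 0 lam p) with hF1
  have fx : ∀ p ∈ flat 1, clc 0 lam p = p := fun p hp => hfix p (rsq0_of_flat1 hp)
  have fx' : ∀ p ∈ flat 1, F1 p = F p := fun p hp => by rw [hF1]; simp only [fx p hp]
  have im : F1 '' flat 1 = F '' flat 1 := image_congr fx'
  have sp0 : ∀ p ∈ sph 0, clc 0 lam p ∈ flat 0 := fun p hp =>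
    ⟨by rw [hfst]; exact hp.1, (hle p).trans hp.2.le⟩
  have a2 := hCTR 1 F1 (2 / 5) (Or.inr rfl) ?_ a1.1.2 ?_ ?_ ?_ lam hl
  · exact ⟨a2.1, a1.2.trans a2.2⟩
  · rintro p (hp | hp)
    · exact a1.1.1 p hp
    · refine ld_comp (hemb.1 p (mem_univ _)) ?_
      rw [fx p hp]
      exact N.b.br.loc p (Or.inr hp)
  · rw [show (1 : ℝ) - 1 = 0 by norm_num]
    rintro p (hp | hp) q (hq | hq) he
    · rw [fx' p hp, fx' q hq] at he
      exact N.b.br.injF (Or.inl hp) (Or.inl hq) he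
    · rw [fx' p hp] at he
      exact (disj N (sp0 q hq) hp he.symm).elim
    · rw [fx' q hq] at he
      exact (disj N (sp0 p hp) hq he).elim
    · exact a1.1.2 (Or.inl (Or.inl hp)) (Or.inl (Or.inl hq)) he
  · have z1 : ax 1 ∈ flat 1 := ax_mem_flat1 (by norm_num) le_rfl
    have e1 : core F1 (2 / 5) = core F (2 / 5) := by
      have : clc 0 lam (ax (2 / 5)) = ax (2 / 5) := hfix _ (by rw [rsq_ax]; norm_num)
      rw [hF1]
      simp only [core, this]
    rw [e1, cross1 N, fx' _ z1, foot1 N]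
  · intro a ha hca
    rw [im] at hca
    have e1 : core F1 a = core F (0 + cfac lam ((a - 0) ^ 2) * (a - 0)) := by
      rw [hF1]
      simp only [core, hax]
    rw [e1] at hca
    set b := 0 + cfac lam ((a - 0) ^ 2) * (a - 0) with hb
    have k := cfac_bounds hl ((a - 0) ^ 2)
    have hba : b ≤ a := by rw [hb]; nlinarith [ha.1]
    have hb0 : 0 < b := by
      rw [hb]
      have := mul_pos k.1 (show 0 < a - 0 by linarith [ha.1])
      linarith
    rcases le_or_gt (3 / 10) a with h3 | h3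
    · have e2 : b = a := by
        have h5 := hax a
        rw [hfix (ax a) (by rw [rsq_ax]; nlinarith)] at h5
        exact (ax_inj h5).symm
      rw [e2] at hca
      exact N.b.br.only a ha hca
    · exfalso
      rcases le_or_gt (1 / 5) b with h4 | h4
      · rcases N.b.br.only b ⟨h4, by linarith⟩ hca with h5 | h5
        · rw [h5] at hba; linarith
        · rw [h5] at hba; linarith
      · obtain ⟨q, hq, hq'⟩ := hca
        exact disj N (ax_mem_flat0 hb0.le h4.le) hq hq'.symm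

/-- the axial coordinate of the contracted bar -/
noncomputable def gx (lam c a : ℝ) : ℝ := c + cfac lam ((a - c) ^ 2) * (a - c)

/-- the axial coordinate of the doubly contracted bar -/
noncomputable def be (lam a : ℝ) : ℝ := gx lam 0 (gx lam 1 a)

theorem contDiff_gx (lam c : ℝ) : ContDiff ℝ ∞ (gx lam c) := by
  unfold gx cfac
  have h1 : ContDiff ℝ ∞ (fun a : ℝ => ((a - c) ^ 2 - 1 / 20) / (1 / 25)) := by fun_prop
  have h2 : ContDiff ℝ ∞ (fun a : ℝ => step (((a - c) ^ 2 - 1 / 20) / (1 / 25))) :=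
    contDiff_step.comp h1
  exact contDiff_const.add ((contDiff_const.add (contDiff_const.mul h2)).mul
    (contDiff_id.sub contDiff_const))

theorem contDiff_be (lam : ℝ) : ContDiff ℝ ∞ (be lam) := (contDiff_gx lam 0).comp (contDiff_gx lam 1)

section
variable (hCL : StCL) {lam : ℝ} (hl : lam ∈ Ioc (0 : ℝ) 1)
include hCL hl

theorem gx_ax {c : ℝ} (hc : c = 0 ∨ c = 1) (a : ℝ) : clc c lam (ax a) = ax (gx lam c a) :=
  ((hCL c hc).2.2 lam hl).2.2.2.2.1 a

theorem be_ax (a : ℝ) : clc 0 lam (clc 1 lam (ax a)) = ax (be lam a) := by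
  rw [gx_ax hCL hl (Or.inr rfl), gx_ax hCL hl (Or.inl rfl)]
  rfl

theorem gx_deriv {c : ℝ} (hc : c = 0 ∨ c = 1) (a : ℝ) : 0 < deriv (gx lam c) a :=
  ((hCL c hc).2.2 lam hl).2.2.2.2.2.2 a

theorem gx_mono {c : ℝ} (hc : c = 0 ∨ c = 1) : StrictMono (gx lam c) :=
  strictMono_of_deriv_pos (gx_deriv hCL hl hc)

theorem be_deriv (a : ℝ) : 0 < deriv (be lam) a := by
  have h1 : HasDerivAt (gx lam 1) (deriv (gx lam 1) a) a :=
    ((contDiff_gx lam 1).differentiable (by simp) a).hasDerivAt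
  have h2 : HasDerivAt (gx lam 0) (deriv (gx lam 0) (gx lam 1 a)) (gx lam 1 a) :=
    ((contDiff_gx lam 0).differentiable (by simp) _).hasDerivAt
  have h3 : HasDerivAt (be lam) (deriv (gx lam 0) (gx lam 1 a) * deriv (gx lam 1) a) a :=
    h2.comp a h1
  rw [h3.deriv]
  exact mul_pos (gx_deriv hCL hl (Or.inl rfl) _) (gx_deriv hCL hl (Or.inr rfl) _)

theorem be_mono : StrictMono (be lam) := strictMono_of_deriv_pos (be_deriv hCL hl)

theorem gx_near {c a : ℝ} (hc : c = 0 ∨ c = 1) (h : |a - c| ≤ 11 / 50) :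
    gx lam c a = c + lam * (a - c) := by
  have h1 : (a - c) ^ 2 ≤ 1 / 20 := by
    have := sq_le_sq' (abs_le.1 h).1 (abs_le.1 h).2
    nlinarith
  have h2 := ((hCL c hc).2.2 lam hl).2.2.1 (ax a) (by rw [rsq_ax]; exact h1)
  rw [gx_ax hCL hl hc] at h2
  have h3 := congrArg (fun p : R4 => p.2.1) h2
  simpa [ax, pc] using h3

theorem gx_far {c a : ℝ} (hc : c = 0 ∨ c = 1) (h : 3 / 10 ≤ |a - c|) : gx lam c a = a := by
  have h1 : 9 / 100 ≤ (a - c) ^ 2 := by
    rw [← sq_abs (a - c)]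
    nlinarith
  have h2 := ((hCL c hc).2.2 lam hl).2.2.2.1 (ax a) (by rw [rsq_ax]; exact h1)
  rw [gx_ax hCL hl hc] at h2
  exact ax_inj h2

theorem be_left {a : ℝ} (h : |a| ≤ 11 / 50) : be lam a = lam * a := by
  unfold be
  have h' := abs_le.1 h
  rw [gx_far hCL hl (Or.inr rfl) (a := a) (by
      rw [abs_of_neg (by linarith)]; linarith)]
  rw [gx_near hCL hl (Or.inl rfl) (by simpa using h)]
  ring

theorem be_right {a : ℝ} (h : |a - 1| ≤ 11 / 50) : be lam a = 1 + lam * (a - 1) := by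
  unfold be
  have h' := abs_le.1 h
  rw [gx_near hCL hl (Or.inr rfl) h]
  refine gx_far hCL hl (Or.inl rfl) ?_
  have h1 : -(11 / 50) ≤ lam * (a - 1) := by nlinarith [hl.1, hl.2]
  rw [abs_of_pos (by linarith)]
  linarith

end

/-- points of the unit scale near the centre -/
theorem norm_le_of_nsq {x : R3} {r : ℝ} (hr : 0 ≤ r) (h : nsq x ≤ r ^ 2) : ‖x‖ ≤ r := by
  unfold nsq at h
  rw [Prod.norm_def]
  refine max_le ?_ ?_
  · rw [Real.norm_eq_abs]
    exact abs_le_of_sq_le_sq (by nlinarith [sq_nonneg x.2.re, sq_nonneg x.2.im]) hr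
  · refine abs_le_of_sq_le_sq (a := ‖x.2‖) ?_ hr |> fun h => (le_abs_self _).trans h
    rw [Complex.sq_norm, Complex.normSq_apply]
    nlinarith [sq_nonneg x.1]

theorem nsq_smul (l : ℝ) (x : R3) : nsq (l • x) = l ^ 2 * nsq x := by
  unfold nsq
  simp
  ring

/-- the contraction on the two cuffs -/
theorem cuff0 (hCL : StCL) {lam : ℝ} (hl : lam ∈ Ioc (0 : ℝ) 1) {p : R4} (hp : p ∈ sph 0) :
    ∃ x : R3, clc 0 lam (clc 1 lam p) = (1 / 2, x) ∧ nsq x = lam ^ 2 / 25 := by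
  obtain ⟨-, hfst1, -, hfix1, -, -, -⟩ := (hCL 1 (Or.inr rfl)).2.2 lam hl
  obtain ⟨-, hfst0, hin0, -, -, -, -⟩ := (hCL 0 (Or.inl rfl)).2.2 lam hl
  have e1 : clc 1 lam p = p := hfix1 p (rsq1_of_flat0 (sph_flat hp))
  have e2 := hin0 p (by rw [hp.2]; norm_num)
  refine ⟨pc 0 + lam • (p.2 - pc 0), ?_, ?_⟩
  · rw [e1, e2, hp.1]
  · have h0 : pc 0 = 0 := rfl
    have h2 := hp.2
    have h3 : rsq 0 p = nsq p.2 := by simp [rsq, nsq]
    rw [h0, zero_add, sub_zero, nsq_smul, ← h3, h2]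
    ring

theorem cuff1 (hCL : StCL) {lam : ℝ} (hl : lam ∈ Ioc (0 : ℝ) 1) {p : R4} (hp : p ∈ sph 1) :
    ∃ x : R3, clc 0 lam (clc 1 lam p) = (1 / 2, pc 1 + x) ∧ nsq x = lam ^ 2 / 25 := by
  obtain ⟨-, hfst1, hin1, -, -, hle1, -⟩ := (hCL 1 (Or.inr rfl)).2.2 lam hl
  obtain ⟨-, hfst0, -, hfix0, -, -, -⟩ := (hCL 0 (Or.inl rfl)).2.2 lam hl
  have e1 := hin1 p (by rw [hp.2]; norm_num)
  have e2 : clc 0 lam (clc 1 lam p) = clc 1 lam p :=
    hfix0 _ (rsq0_of_flat1 ⟨by rw [hfst1]; exact hp.1, (hle1 p).trans hp.2.le⟩)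
  refine ⟨lam • (p.2 - pc 1), ?_, ?_⟩
  · rw [e2, e1, hp.1]
  · have h3 : rsq 1 p = nsq (p.2 - pc 1) := by simp [rsq, nsq, pc]
    rw [nsq_smul, ← h3, hp.2]
    ring

end HOM

open HOM

/-- **HOM** (uniqueness of the normal form). -/
theorem m_HOM (hCL : StCL) (hCTR : StCTR) (hHL : StHL) : StHOM := by
  intro F F' e d δ₁ δ₂ he hd N₁ N₂
  -- a common constant
  set δ := min δ₁ δ₂ with hδdef
  have hδ : 0 < δ := lt_min N₁.a.pos N₂.a.pos
  have N := NF_mono N₁ hδ (min_le_left _ _)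
  have N' := NF_mono N₂ hδ (min_le_right _ _)
  have hs := N.a.small
  obtain ⟨H, hH, H0, H1, frz, imm, inj⟩ := exists_fam N N'
  obtain ⟨μ, hμ, far0, far1⟩ := exists_mu N hH frz inj
  -- the contraction factor
  obtain ⟨lam, hlam0, hlam⟩ : ∃ lam : ℝ, 0 < lam ∧ lam < min (min μ (δ / 2)) 1 :=
    ⟨min (min μ (δ / 2)) 1 / 2, by positivity, by
      have : 0 < min (min μ (δ / 2)) 1 := by positivity
      linarith⟩
  have lμ : lam < μ := hlam.trans_le ((min_le_left _ _).trans (min_le_left _ _))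
  have lδ : lam < δ / 2 := hlam.trans_le ((min_le_left _ _).trans (min_le_right _ _))
  have l1 : lam < 1 := hlam.trans_le (min_le_right _ _)
  have hl : lam ∈ Ioc (0 : ℝ) 1 := ⟨hlam0, l1.le⟩
  obtain ⟨emb, eqv⟩ := eqv_Fl hCL hCTR N hl
  obtain ⟨emb', eqv'⟩ := eqv_Fl hCL hCTR N' hl
  refine eqv.trans (Eqv.trans ?_ eqv'.symm)
  have bmono := be_mono hCL hl
  have b15 : be lam (1 / 5) = lam / 5 := by
    rw [be_left hCL hl (by rw [abs_of_pos] <;> norm_num)]; ring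
  have b45 : be lam (4 / 5) = 1 - lam / 5 := by
    rw [be_right hCL hl (by rw [abs_of_neg] <;> norm_num)]; ring
  have bmem : ∀ a ∈ Icc (1 / 5 : ℝ) (4 / 5), be lam a ∈ Icc (lam / 5) (1 - lam / 5) := by
    intro a ha
    exact ⟨b15 ▸ bmono.monotone ha.1, b45 ▸ bmono.monotone ha.2⟩
  have bmem' : ∀ a ∈ Ioo (1 / 5 : ℝ) (4 / 5), be lam a ∈ Ioo (lam / 5) (1 - lam / 5) := by
    intro a ha
    exact ⟨b15 ▸ bmono ha.1, b45 ▸ bmono ha.2⟩
  have hbs : ContDiff ℝ ∞ (fun x : ℝ × ℝ => (x.1, be lam x.2)) :=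
    contDiff_fst.prodMk ((contDiff_be lam).comp contDiff_snd)
  have hHl : ContDiff ℝ ∞ (fun x : ℝ × ℝ => H (x.1, be lam x.2)) := hH.comp hbs
  -- the cuffs
  have sm : ∀ x : R3, nsq x = lam ^ 2 / 25 → ‖x‖ ≤ lam / 5 := fun x hx =>
    norm_le_of_nsq (by linarith) (by rw [hx]; nlinarith)
  have q0 : ∀ (K : R4 → R4), NF K e d δ → ∀ p ∈ sph 0, ∃ x : R3,
      clc 0 lam (clc 1 lam p) = (1 / 2, x) ∧ nsq x = lam ^ 2 / 25 ∧
      ‖clc 0 lam (clc 1 lam p) - ax 0‖ ≤ lam / 5 ∧ Fl K lam p = (1 / 2, x) := by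
    intro K NK p hp
    obtain ⟨x, h1, h2⟩ := cuff0 hCL hl hp
    have h3 : ‖clc 0 lam (clc 1 lam p) - ax 0‖ ≤ lam / 5 := by
      rw [h1]
      have : ((1 / 2, x) : R4) - ax 0 = (0, x) := by
        simp [ax]
      rw [this, Prod.norm_def]
      simpa using sm x h2
    refine ⟨x, h1, h2, h3, ?_⟩
    rw [← h1]
    exact NK.a.near _ (by linarith)
  have q1 : ∀ (K : R4 → R4), NF K e d δ → ∀ p ∈ sph 1, ∃ x : R3,
      clc 0 lam (clc 1 lam p) = (1 / 2, pc 1 + x) ∧ nsq x = lam ^ 2 / 25 ∧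
      ‖clc 0 lam (clc 1 lam p) - ax 1‖ ≤ lam / 5 ∧ Fl K lam p = (1 / 2, pc 1 + x) := by
    intro K NK p hp
    obtain ⟨x, h1, h2⟩ := cuff1 hCL hl hp
    have h3 : ‖clc 0 lam (clc 1 lam p) - ax 1‖ ≤ lam / 5 := by
      rw [h1]
      have : ((1 / 2, pc 1 + x) : R4) - ax 1 = (0, x) := by
        simp [ax, pc]
      rw [this, Prod.norm_def]
      simpa using sm x h2
    refine ⟨x, h1, h2, h3, ?_⟩
    rw [← h1]
    exact NK.b.near _ (by linarith)
  have cm : Continuous fun p : R4 => clc 0 lam (clc 1 lam p) := by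
    have c0 : Continuous (clc 0 lam) :=
      ((hCL 0 (Or.inl rfl)).1.comp (contDiff_prodMk_right lam)).continuous
    have c1 : Continuous (clc 1 lam) :=
      ((hCL 1 (Or.inr rfl)).1.comp (contDiff_prodMk_right lam)).continuous
    exact c0.comp c1
  refine hHL (Fl F lam) (Fl F' lam) (fun a => ec F δ (be lam a))
    (fun x => H (x.1, be lam x.2)) (1 / 50) emb emb' ?_ ?_ ?_ ?_ ?_ ?_
  · -- the germs agree near the cuffs
    refine nearEq_of_eventuallyEq ?_
    rintro p (hp | hp)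
    · obtain ⟨x, -, -, h3, -⟩ := q0 F N p hp
      have hopen : IsOpen {q : R4 | ‖clc 0 lam (clc 1 lam q) - ax 0‖ < δ} :=
        isOpen_lt (cm.sub continuous_const).norm continuous_const
      filter_upwards [hopen.mem_nhds (show ‖clc 0 lam (clc 1 lam p) - ax 0‖ < δ by linarith)]
        with q hq
      exact (N.a.near _ hq).trans (N'.a.near _ hq).symm
    · obtain ⟨x, -, -, h3, -⟩ := q1 F N p hp
      have hopen : IsOpen {q : R4 | ‖clc 0 lam (clc 1 lam q) - ax 1‖ < δ} :=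
        isOpen_lt (cm.sub continuous_const).norm continuous_const
      filter_upwards [hopen.mem_nhds (show ‖clc 0 lam (clc 1 lam p) - ax 1‖ < δ by linarith)]
        with q hq
      exact (N.b.near _ hq).trans (N'.b.near _ hq).symm
  · -- the bar data
    refine ⟨emb.1, by norm_num, by norm_num, (contDiff_ec N).comp (contDiff_be lam), hHl, ?_, ?_⟩
    · intro a ha
      have h1 := bmem a ha
      have h2 : Fl F lam (1 / 2, a, 0) = core F (be lam a) := by
        change F (clc 0 lam (clc 1 lam (ax a))) = F (ax (be lam a))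
        rw [be_ax hCL hl]
      rw [h2]
      exact (ec_core N (by linarith [h1.1]) (by linarith [h1.2])).symm
    · intro t a ha
      refine frz t _ ?_
      rcases ha with ha | ha
      · have h1 : be lam a ≤ be lam (11 / 50) := bmono.monotone (by linarith)
        rw [be_left hCL hl (a := 11 / 50) (by rw [abs_of_pos] <;> norm_num)] at h1
        exact Or.inl (by linarith)
      · have h1 : be lam (39 / 50) ≤ be lam a := bmono.monotone (by linarith)
        rw [be_right hCL hl (a := 39 / 50) (by rw [abs_of_neg] <;> norm_num)] at h1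
        exact Or.inr (Or.inr (Or.inr (by linarith)))
  · -- the ends of the family
    intro a ha
    refine ⟨H0 _, ?_⟩
    have h1 := bmem a ha
    change H (1, be lam a) = F' (clc 0 lam (clc 1 lam (ax a)))
    rw [H1, be_ax hCL hl]
    exact ec_core N' (by linarith [h1.1]) (by linarith [h1.2])
  · -- immersed
    intro t ht a ha
    have h1 := bmem a ha
    have e1 := fderiv_snd hHl t a
    have e2 : HasDerivAt (fun r => H (t, be lam r))
        (deriv (be lam) a • fderiv ℝ H (t, be lam a) (0, 1)) a :=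
      (fderiv_snd hH t (be lam a)).scomp a
        (((contDiff_be lam).differentiable (by simp) a).hasDerivAt)
    rw [e1.unique e2]
    exact smul_ne_zero (be_deriv hCL hl a).ne'
      (imm t ht _ ⟨by linarith [h1.1], by linarith [h1.2]⟩)
  · -- embedded
    intro t ht a ha b hb hab
    have h1 := bmem a ha
    have h2 := bmem b hb
    have hab' : H (t, be lam a) = H (t, be lam b) := hab
    refine bmono.injective ?_
    rcases lt_trichotomy (be lam a) (be lam b) with h3 | h3 | h3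
    · exfalso
      rcases inj t ht _ _ (by linarith [h1.1]) h3 (by linarith [h2.2]) hab' with h4 | h4
      · linarith [h1.1, h4.1]
      · linarith [h2.2, h4.2]
    · exact h3
    · exfalso
      rcases inj t ht _ _ (by linarith [h2.1]) h3 (by linarith [h1.2]) hab'.symm with h4 | h4
      · linarith [h2.1, h4.1]
      · linarith [h1.2, h4.2]
  · -- off the cuffs
    rintro t ht a ha ⟨q, hq | hq, hqe⟩
    · have h1 := bmem' a ha
      obtain ⟨x, e1, e2, e3, e4⟩ := q0 F N q hq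
      have hqe' : ((1 / 2, x) : R4) = H (t, be lam a) := e4.symm.trans hqe
      set u := be lam a with hu
      rcases le_or_gt u (δ / 2) with h2 | h2
      · rw [frz t u (Or.inl h2), ec_ax N (Or.inl (by linarith))] at hqe'
        have h3 : x = (u, 0) := congrArg Prod.snd hqe'
        rw [h3] at e2
        simp only [nsq, Complex.zero_re, Complex.zero_im] at e2
        nlinarith [h1.1]
      · rcases lt_or_ge |u - 3 / 5| (δ / 2) with h3 | h3
        · have h3' := abs_lt.1 h3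
          rw [frz t u (Or.inr (Or.inr (Or.inl h3.le))), ec_core N (by linarith) (by linarith),
            core_35 N (by linarith)] at hqe'
          have h4 : x = pc 0 := congrArg Prod.snd hqe'
          rw [h4] at e2
          simp only [nsq, pc, Complex.zero_re, Complex.zero_im] at e2
          nlinarith
        · have h4 := far0 t ht u ⟨h2.le, by linarith [h1.2]⟩ h3
          rw [← hqe', ← e1] at h4
          linarith
    · have h1 := bmem' a ha
      obtain ⟨x, e1, e2, e3, e4⟩ := q1 F N q hq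
      have hqe' : ((1 / 2, pc 1 + x) : R4) = H (t, be lam a) := e4.symm.trans hqe
      set u := be lam a with hu
      rcases le_or_gt (1 - δ / 2) u with h2 | h2
      · rw [frz t u (Or.inr (Or.inr (Or.inr h2))), ec_ax N (Or.inr (by linarith))] at hqe'
        have h3 : pc 1 + x = (u, 0) := congrArg Prod.snd hqe'
        have h4 : x = (u - 1, 0) := by
          rw [eq_sub_of_add_eq' h3]
          simp [pc]
        rw [h4] at e2
        simp only [nsq, Complex.zero_re, Complex.zero_im] at e2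
        nlinarith [h1.2]
      · rcases lt_or_ge |u - 2 / 5| (δ / 2) with h3 | h3
        · have h3' := abs_lt.1 h3
          rw [frz t u (Or.inr (Or.inl h3.le)), ec_core N (by linarith) (by linarith),
            core_25 N (by linarith)] at hqe'
          have h4 : pc 1 + x = pc 1 := congrArg Prod.snd hqe'
          have h5 : x = 0 := by simpa using h4
          rw [h5] at e2
          simp only [nsq, Prod.fst_zero, Prod.snd_zero, Complex.zero_re, Complex.zero_im] at e2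
          nlinarith
        · have h4 := far1 t ht u ⟨by linarith [h1.1], h2.le⟩ h3
          rw [← hqe', ← e1] at h4
          linarith

end Pool.Agent.Helper70.BI


end

/-! ## Helper70.BI.M_SYM -/

section

/-!
# Project BI, part (E): symmetries of theta germs
-/

set_option autoImplicit false

open scoped Manifold ContDiff Topology ComplexConjugate
open Set Filter Pool.Agent.Helper65.Barb Pool.Agent.Helper18.BI

namespace Pool.Agent.Helper70.BI

open Pool.Agent.Helper27.BI (refh refs swp)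

namespace SYM

/-- an affine symmetry `R = L + v` of `R4` exchanging the ends `c` and `c'` -/
private structure Sy (R : R4 → R4) (L : R4 →L[ℝ] R4) (c c' σ ε : ℝ) (m : ℝ → ℝ) : Prop where
  aff : ∃ v : R4, ∀ p, R p = L p + v
  inv : ∀ p, R (R p) = p
  LL : ∀ v, L (L v) = v
  half : ∀ p : R4, p.1 = 1 / 2 → (R p).1 = 1 / 2
  rs : ∀ p, rsq c (R p) = rsq c' p
  rs' : ∀ p, rsq (1 - c) (R p) = rsq (1 - c') p
  SPm : ∀ p ∈ SP, R p ∈ SP
  ax : ∀ a, R (ax a) = ax (m a)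
  mm : ∀ a, m (m a) = a
  mIoo : ∀ a ∈ Ioo (1 / 5 : ℝ) (4 / 5), m a ∈ Ioo (1 / 5 : ℝ) (4 / 5)
  mIcc : ∀ a ∈ Icc (1 / 5 : ℝ) (4 / 5), m a ∈ Icc (1 / 5 : ℝ) (4 / 5)
  foot : m (1 / 5 + 3 / 5 * c) = 1 / 5 + 3 / 5 * c'
  L1 : L (0, ((1 : ℝ), (0 : ℂ))) = σ • (0, ((1 : ℝ), (0 : ℂ)))
  Le : ∀ (l : ℝ) (v : R3), (L (l, v)).1 = ε * l
  ss : σ * σ = 1
  ee : ε * ε = 1

private theorem Sy.der {R : R4 → R4} {L : R4 →L[ℝ] R4} {c c' σ ε : ℝ} {m : ℝ → ℝ}
    (h : Sy R L c c' σ ε m) (p : R4) : HasFDerivAt R L p := by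
  obtain ⟨v, hv⟩ := h.aff
  have e : R = fun p => L p + v := funext hv
  rw [e]
  exact L.hasFDerivAt.add_const v

private theorem Sy.ld {R : R4 → R4} {L : R4 →L[ℝ] R4} {c c' σ ε : ℝ} {m : ℝ → ℝ}
    (h : Sy R L c c' σ ε m) (p : R4) : LD R p := by
  rw [ld_iff]
  obtain ⟨v, hv⟩ := h.aff
  have e : R = fun p => L p + v := funext hv
  refine ⟨Eventually.of_forall fun q => ?_, ?_⟩
  · rw [e]
    exact (L.contDiff.add contDiff_const).contDiffAt
  · rw [(h.der p).fderiv]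
    intro x y hxy
    rw [← h.LL x, hxy, h.LL]

private theorem Sy.injective {R : R4 → R4} {L : R4 →L[ℝ] R4} {c c' σ ε : ℝ} {m : ℝ → ℝ}
    (h : Sy R L c c' σ ε m) : Function.Injective R := fun x y hxy => by
  rw [← h.inv x, hxy, h.inv]

private theorem Sy.flatm {R : R4 → R4} {L : R4 →L[ℝ] R4} {c c' σ ε : ℝ} {m : ℝ → ℝ}
    (h : Sy R L c c' σ ε m) {p : R4} (hp : p ∈ flat c') : R p ∈ flat c :=
  ⟨h.half p hp.1, by rw [h.rs]; exact hp.2⟩

private theorem Sy.sphm {R : R4 → R4} {L : R4 →L[ℝ] R4} {c c' σ ε : ℝ} {m : ℝ → ℝ}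
    (h : Sy R L c c' σ ε m) {p : R4} (hp : p ∈ sph (1 - c')) : R p ∈ sph (1 - c) :=
  ⟨h.half p hp.1, by rw [h.rs']; exact hp.2⟩

private theorem Sy.fd {R : R4 → R4} {L : R4 →L[ℝ] R4} {c c' σ ε : ℝ} {m : ℝ → ℝ}
    (h : Sy R L c c' σ ε m) {F : R4 → R4} {p : R4} (hF : LD F (R p)) :
    fderiv ℝ (fun p => F (R p)) p = (fderiv ℝ F (R p)).comp L := by
  have h1 : DifferentiableAt ℝ F (R p) :=
    ((ld_iff.1 hF).1.self_of_nhds).differentiableAt (by simp)
  exact (h1.hasFDerivAt.comp p (h.der p)).fderiv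

private theorem Sy.br {R : R4 → R4} {L : R4 →L[ℝ] R4} {c c' σ ε : ℝ} {m : ℝ → ℝ}
    (h : Sy R L c c' σ ε m) {F : R4 → R4} {γ e : ℝ} (hF : Br c F γ e) :
    Br c' (fun p => F (R p)) (m γ) (ε * σ * e) where
  loc p hp := by
    refine ld_comp (h.ld p) (hF.loc _ ?_)
    rcases hp with hp | hp
    · exact Or.inl (h.SPm p hp)
    · exact Or.inr (h.flatm hp)
  inj p hp q hq he := h.injective (hF.inj (h.SPm p hp) (h.SPm q hq) he)
  injF p hp q hq he := by
    have hm : ∀ p ∈ flat c' ∪ sph (1 - c'), R p ∈ flat c ∪ sph (1 - c) := by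
      rintro p (hp | hp)
      · exact Or.inl (h.flatm hp)
      · exact Or.inr (h.sphm hp)
    exact h.injective (hF.injF (hm p hp) (hm q hq) he)
  mem := h.mIoo _ hF.mem
  cr := by
    obtain ⟨x₀, h1, h2, l, v, h3, h4⟩ := hF.cr
    have hx₀ : ((1 / 2 : ℝ), x₀) ∈ flat c := ⟨rfl, by
      have : rsq c ((1 / 2 : ℝ), x₀) = nsq (x₀ - pc c) := by
        simp [rsq, pc, nsq]
      rw [this]; exact h1.le⟩
    set p' : R4 := R (1 / 2, x₀) with hp'
    have e1 : ((1 / 2 : ℝ), p'.2) = p' := Prod.ext (h.half _ rfl).symm rfl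
    have e2 : R p' = (1 / 2, x₀) := h.inv _
    refine ⟨p'.2, ?_, ?_, (L (σ • (l, v))).1, (L (σ • (l, v))).2, ?_, ?_⟩
    · have e3 : nsq (p'.2 - pc c') = rsq c' p' := by
        simp [rsq, pc, nsq]
      have e4 : rsq c' p' = rsq c (R p') := (h.rs p').symm
      have e5 : rsq c ((1 / 2 : ℝ), x₀) = nsq (x₀ - pc c) := by
        simp [rsq, pc, nsq]
      rw [e3, e4, e2, e5]
      exact h1
    · change F (R (BI.ax (m γ))) = F (R (1 / 2, p'.2))
      rw [h.ax, h.mm, e1, e2]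
      exact h2
    · have e3 : (L (σ • (l, v))).1 = ε * (σ * l) := by
        rw [Prod.smul_mk, h.Le]; rfl
      rw [e3]
      have := h.ss
      have := h.ee
      have e4 : ε * σ * e * (ε * (σ * l)) = (ε * ε) * (σ * σ) * (e * l) := by ring
      rw [e4, h.ss, h.ee, one_mul, one_mul]
      exact h3
    · have hg : BI.ax γ ∈ SP := by
        refine Or.inr ⟨rfl, hF.mem.1.le, hF.mem.2.le, rfl⟩
      have hR : R (BI.ax (m γ)) = BI.ax γ := by rw [h.ax, h.mm]
      rw [h.fd (p := BI.ax (m γ)) (by rw [hR]; exact hF.loc _ (Or.inl hg)),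
        h.fd (p := (1 / 2, p'.2)) (by rw [e1, e2]; exact hF.loc _ (Or.inr hx₀)), hR]
      rw [e1, e2]
      simp only [ContinuousLinearMap.comp_apply, Prod.mk.eta]
      rw [h.LL, h.L1, map_smul, map_smul, h4]
  only a ha hmem := by
    have h1 : core F (m a) ∈ F '' flat c := by
      obtain ⟨p, hp, he⟩ := hmem
      refine ⟨R p, h.flatm hp, ?_⟩
      have : F (R p) = F (R (BI.ax a)) := he
      rw [this, h.ax]
      rfl
    rcases hF.only (m a) (h.mIcc a ha) h1 with h2 | h2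
    · left
      rw [← h.foot, ← h2, h.mm]
    · right
      rw [← h2, h.mm]

private theorem Sy.image {R : R4 → R4} {L : R4 →L[ℝ] R4} {c c' σ ε : ℝ} {m : ℝ → ℝ}
    (h : Sy R L c c' σ ε m) (F : R4 → R4) :
    (fun p => F (R p)) '' flat c' ⊆ F '' flat c := by
  rintro _ ⟨p, hp, rfl⟩
  exact ⟨R p, h.flatm hp, rfl⟩

private noncomputable def LH : R4 →L[ℝ] R4 :=
  (ContinuousLinearMap.id ℝ ℝ).prodMap ((ContinuousLinearMap.id ℝ ℝ).prodMap
    (Complex.conjCLE : ℂ →L[ℝ] ℂ))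

private noncomputable def LS : R4 →L[ℝ] R4 :=
  (-(ContinuousLinearMap.id ℝ ℝ)).prodMap ((ContinuousLinearMap.id ℝ ℝ).prodMap
    (ContinuousLinearMap.id ℝ ℂ))

private noncomputable def LW : R4 →L[ℝ] R4 :=
  (ContinuousLinearMap.id ℝ ℝ).prodMap ((-(ContinuousLinearMap.id ℝ ℝ)).prodMap
    (Complex.conjCLE : ℂ →L[ℝ] ℂ))

private theorem det_neg_id : LinearMap.det (-(LinearMap.id : ℝ →ₗ[ℝ] ℝ)) = -1 := by
  have h : (-(LinearMap.id : ℝ →ₗ[ℝ] ℝ)) = (-1 : ℝ) • LinearMap.id := by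
    refine LinearMap.ext fun x => ?_
    change -x = (-1 : ℝ) * x
    ring
  rw [h, LinearMap.det_smul]
  simp

private theorem det_conj : LinearMap.det ((Complex.conjCLE : ℂ →L[ℝ] ℂ) : ℂ →ₗ[ℝ] ℂ) = -1 :=
  Complex.det_conjAe

private theorem det_LH : LH.det = -1 := by
  have h : (LH : R4 →ₗ[ℝ] R4) = (LinearMap.id : ℝ →ₗ[ℝ] ℝ).prodMap
      ((LinearMap.id : ℝ →ₗ[ℝ] ℝ).prodMap ((Complex.conjCLE : ℂ →L[ℝ] ℂ) : ℂ →ₗ[ℝ] ℂ)) := rfl
  rw [ContinuousLinearMap.det, h, LinearMap.det_prodMap, LinearMap.det_prodMap, det_conj,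
    LinearMap.det_id]
  norm_num

private theorem det_LS : LS.det = -1 := by
  have h : (LS : R4 →ₗ[ℝ] R4) = (-(LinearMap.id : ℝ →ₗ[ℝ] ℝ)).prodMap
      ((LinearMap.id : ℝ →ₗ[ℝ] ℝ).prodMap (LinearMap.id : ℂ →ₗ[ℝ] ℂ)) := rfl
  rw [ContinuousLinearMap.det, h, LinearMap.det_prodMap, LinearMap.det_prodMap, det_neg_id,
    LinearMap.det_id, LinearMap.det_id]
  norm_num

private theorem det_LW : LW.det = 1 := by
  have h : (LW : R4 →ₗ[ℝ] R4) = (LinearMap.id : ℝ →ₗ[ℝ] ℝ).prodMap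
      ((-(LinearMap.id : ℝ →ₗ[ℝ] ℝ)).prodMap ((Complex.conjCLE : ℂ →L[ℝ] ℂ) : ℂ →ₗ[ℝ] ℂ)) := rfl
  rw [ContinuousLinearMap.det, h, LinearMap.det_prodMap, LinearMap.det_prodMap, det_conj,
    LinearMap.det_id, det_neg_id]
  norm_num

private theorem SP_of {R : R4 → R4} (h0 : ∀ p, rsq 0 (R p) = rsq 0 p)
    (h1 : ∀ p, rsq 1 (R p) = rsq 1 p) (hh : ∀ p : R4, p.1 = 1 / 2 → (R p).1 = 1 / 2)
    (ha : ∀ p, (R p).2.1 = p.2.1) (hw : ∀ p : R4, p.2.2 = 0 → (R p).2.2 = 0) :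
    ∀ p ∈ SP, R p ∈ SP := by
  rintro p ((hp | hp) | hp)
  · exact Or.inl (Or.inl ⟨hh p hp.1, by rw [h0]; exact hp.2⟩)
  · exact Or.inl (Or.inr ⟨hh p hp.1, by rw [h1]; exact hp.2⟩)
  · exact Or.inr ⟨hh p hp.1, by rw [ha]; exact hp.2.1, by rw [ha]; exact hp.2.2.1,
      hw p hp.2.2.2⟩

private theorem rsq_h (c : ℝ) (p : R4) : rsq c (refh p) = rsq c p := by
  simp [rsq, nsq, refh]

private theorem rsq_s (c : ℝ) (p : R4) : rsq c (refs p) = rsq c p := rfl

private theorem rsq_w (c : ℝ) (p : R4) : rsq c (swp p) = rsq (1 - c) p := by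
  simp only [rsq, nsq, swp, Complex.conj_re, Complex.conj_im]; ring

private theorem syH (c : ℝ) : Sy refh LH c c 1 1 (fun a => a) where
  aff := ⟨0, fun p => by rw [add_zero]; rfl⟩
  inv p := by simp [refh]
  LL v := Prod.ext rfl (Prod.ext rfl (Complex.conj_conj _))
  half p hp := hp
  rs := rsq_h c
  rs' := rsq_h (1 - c)
  SPm := SP_of (rsq_h 0) (rsq_h 1) (fun p hp => hp) (fun p => rfl) (fun p hp => by
    simp [refh, hp])
  ax a := by simp [refh, BI.ax]
  mm a := rfl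
  mIoo a ha := ha
  mIcc a ha := ha
  foot := rfl
  L1 := by simp [LH]
  Le l v := by simp [LH]
  ss := by norm_num
  ee := by norm_num

private theorem syS (c : ℝ) : Sy refs LS c c 1 (-1) (fun a => a) where
  aff := ⟨(1, (0, 0)), fun p => by
    refine Prod.ext ?_ (Prod.ext ?_ ?_)
    · change 1 - p.1 = -p.1 + 1
      ring
    · change p.2.1 = p.2.1 + 0
      ring
    · change p.2.2 = p.2.2 + 0
      ring⟩
  inv p := by simp [refs]
  LL v := Prod.ext (neg_neg _) rfl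
  half p hp := by
    change 1 - p.1 = 1 / 2
    rw [hp]; norm_num
  rs := rsq_s c
  rs' := rsq_s (1 - c)
  SPm := SP_of (rsq_s 0) (rsq_s 1) (fun p hp => by
    change 1 - p.1 = 1 / 2
    rw [hp]; norm_num) (fun p => rfl) (fun p hp => hp)
  ax a := by
    refine Prod.ext ?_ rfl
    change 1 - (1 / 2 : ℝ) = 1 / 2
    norm_num
  mm a := rfl
  mIoo a ha := ha
  mIcc a ha := ha
  foot := rfl
  L1 := by simp [LS]
  Le l v := by simp [LS]
  ss := by norm_num
  ee := by norm_num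

private theorem syW (c : ℝ) (hc : c = 0 ∨ c = 1) :
    Sy swp LW c (1 - c) (-1) 1 (fun a => 1 - a) where
  aff := ⟨(0, (1, 0)), fun p => by
    refine Prod.ext ?_ (Prod.ext ?_ ?_)
    · change p.1 = p.1 + 0
      ring
    · change 1 - p.2.1 = -p.2.1 + 1
      ring
    · change conj p.2.2 = conj p.2.2 + 0
      ring⟩
  inv p := by simp [swp]
  LL v := Prod.ext rfl (Prod.ext (neg_neg _) (Complex.conj_conj _))
  half p hp := hp
  rs p := by rw [rsq_w]
  rs' p := by rw [rsq_w]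
  SPm := by
    rintro p ((hp | hp) | hp)
    · exact Or.inl (Or.inr ⟨hp.1, by rw [rsq_w, sub_self]; exact hp.2⟩)
    · exact Or.inl (Or.inl ⟨hp.1, by rw [rsq_w, sub_zero]; exact hp.2⟩)
    · refine Or.inr ⟨hp.1, ?_, ?_, ?_⟩
      · change 1 / 5 ≤ 1 - p.2.1
        linarith [hp.2.2.1]
      · change 1 - p.2.1 ≤ 4 / 5
        linarith [hp.2.1]
      · change conj p.2.2 = 0
        rw [hp.2.2.2, map_zero]
  ax a := by
    refine Prod.ext rfl (Prod.ext rfl ?_)
    change conj (0 : ℂ) = 0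
    rw [map_zero]
  mm a := by ring
  mIoo a ha := ⟨by linarith [ha.2], by linarith [ha.1]⟩
  mIcc a ha := ⟨by linarith [ha.2], by linarith [ha.1]⟩
  foot := by ring
  L1 := by
    refine Prod.ext ?_ (Prod.ext ?_ ?_)
    · simp [LW]
    · simp [LW]
    · simp [LW]
  Le l v := by simp [LW]
  ss := by norm_num
  ee := by norm_num

private theorem det_comp' (A B : R4 →L[ℝ] R4) : (A.comp B).det = A.det * B.det := by
  rw [ContinuousLinearMap.det, ContinuousLinearMap.det, ContinuousLinearMap.det,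
    ContinuousLinearMap.toLinearMap_comp, LinearMap.det_comp]

end SYM

open SYM in
theorem m_SYM : StSYM := by
  intro F α β e d hF
  have h0 : ax (1 / 2) ∈ SP := Or.inr ⟨rfl, by norm_num [ax], by norm_num [ax], rfl⟩
  have hld : LD F (ax (1 / 2)) := hF.a.loc _ (Or.inl h0)
  have hfH : (fderiv ℝ (fun p => F (refh p)) (ax (1 / 2))).det =
      -(fderiv ℝ F (ax (1 / 2))).det := by
    have e1 : refh (ax (1 / 2)) = ax (1 / 2) := (syH 0).ax _
    rw [(syH 0).fd (by rw [e1]; exact hld), det_comp', det_LH, e1]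
    ring
  have hfS : (fderiv ℝ (fun p => F (refs p)) (ax (1 / 2))).det =
      -(fderiv ℝ F (ax (1 / 2))).det := by
    have e1 : refs (ax (1 / 2)) = ax (1 / 2) := (syS 0).ax _
    rw [(syS 0).fd (by rw [e1]; exact hld), det_comp', det_LS, e1]
    ring
  have hfW : (fderiv ℝ (fun p => F (swp p)) (ax (1 / 2))).det =
      (fderiv ℝ F (ax (1 / 2))).det := by
    have e1 : swp (ax (1 / 2)) = ax (1 / 2) := by
      rw [(syW 0 (Or.inl rfl)).ax]
      norm_num
    rw [(syW 0 (Or.inl rfl)).fd (by rw [e1]; exact hld), det_comp', det_LW, e1]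
    ring
  refine ⟨⟨?_, fun h => by rw [hfH]; linarith, fun h => by rw [hfH]; linarith⟩,
    ⟨?_, fun h => by rw [hfS]; linarith⟩, ⟨?_, fun h => by rw [hfW]; exact h⟩, ?_⟩
  · refine ⟨?_, ?_, hF.dis.mono ((syH 0).image F) ((syH 1).image F), hF.ord⟩
    · have := (syH 0).br hF.a
      rwa [one_mul, one_mul] at this
    · have := (syH 1).br hF.b
      rwa [one_mul, one_mul] at this
  · refine ⟨?_, ?_, hF.dis.mono ((syS 0).image F) ((syS 1).image F), hF.ord⟩
    · have := (syS 0).br hF.a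
      rwa [mul_one, neg_one_mul] at this
    · have := (syS 1).br hF.b
      rwa [mul_one, neg_one_mul] at this
  · refine ⟨?_, ?_, ?_, ?_⟩
    · have := (syW 1 (Or.inr rfl)).br hF.b
      rwa [one_mul, neg_one_mul, sub_self] at this
    · have := (syW 0 (Or.inl rfl)).br hF.a
      rwa [one_mul, neg_one_mul, sub_zero] at this
    · have h1 := (syW 1 (Or.inr rfl)).image F
      have h2 := (syW 0 (Or.inl rfl)).image F
      rw [sub_self] at h1
      rw [sub_zero] at h2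
      exact hF.dis.symm.mono h1 h2
    · have := hF.ord
      linarith
  · intro h
    have h1 : LinearMap.det ((fderiv ℝ F (ax (1 / 2)) : R4 →L[ℝ] R4) : R4 →ₗ[ℝ] R4) = 0 := h
    have h2 := LinearMap.bot_lt_ker_of_det_eq_zero h1
    have h3 := (ld_iff.1 hld).2
    rw [LinearMap.ker_eq_bot.2 h3] at h2
    exact lt_irrefl _ h2

end Pool.Agent.Helper70.BI


end

/-! ## Helper18.BI.M_R3 -/

section

/-!
# Project BI (MP_8e98f2_gt), module R3: realization of a germ by a barbell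
-/

set_option autoImplicit false

open scoped Manifold ContDiff Topology ComplexConjugate
open Set Pool.Agent.Helper65.Barb

namespace Pool.Agent.Helper18.BI

namespace MR3

lemma rsq_eq (c : ℝ) (p : R4) : rsq c p = (p.2.1 - c) ^ 2 + ‖p.2.2‖ ^ 2 := by
  have h4 : p.2.2.re ^ 2 + p.2.2.im ^ 2 = ‖p.2.2‖ ^ 2 := by
    rw [← Complex.normSq_eq_norm_sq, Complex.normSq_apply]; ring
  simp only [rsq, nsq]
  linarith

lemma sep01 {p : R4} (h : rsq 0 p ≤ 1 / 25) : 1 / 25 < rsq 1 p := by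
  rw [rsq_eq] at h ⊢
  have h1 : 0 ≤ ‖p.2.2‖ ^ 2 := by positivity
  have h2 : p.2.1 ≤ 1 / 5 := by nlinarith
  nlinarith

lemma sep10 {p : R4} (h : rsq 1 p ≤ 1 / 25) : 1 / 25 < rsq 0 p := by
  rw [rsq_eq] at h ⊢
  have h1 : 0 ≤ ‖p.2.2‖ ^ 2 := by positivity
  have h2 : 4 / 5 ≤ p.2.1 := by nlinarith
  nlinarith

/-- a point with squared radius near `1/25` is near the core sphere -/
lemma near_sph {c δ : ℝ} (hδ : 0 < δ) (hδ' : δ < 1 / 100) {q : R4}
    (h1 : 1 / 25 - 2 * δ ≤ rsq c q) (h2 : rsq c q ≤ 1 / 25) {r : ℝ} (h3 : |q.1 - 1 / 2| ≤ r)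
    (h4 : 10 * δ ≤ r) : ∃ p ∈ sph c, dist q p ≤ r := by
  have hq0 : 0 < rsq c q := by linarith
  set ρ := √(rsq c q) with hρ
  have hρ0 : 0 < ρ := Real.sqrt_pos.mpr hq0
  have hρ2 : ρ ^ 2 = rsq c q := Real.sq_sqrt hq0.le
  set l := (1 / 5) / ρ with hl
  have hlρ : l * ρ = 1 / 5 := by rw [hl]; field_simp
  have hρ5 : ρ ≤ 1 / 5 := by nlinarith
  have hρ6 : 1 / 5 - ρ ≤ 10 * δ := by nlinarith
  have hl1 : 1 ≤ l := by rw [hl, le_div_iff₀ hρ0]; linarith
  have hr := rsq_eq c q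
  have ha : |q.2.1 - c| ≤ ρ := by
    apply abs_le_of_sq_le_sq _ hρ0.le
    have : 0 ≤ ‖q.2.2‖ ^ 2 := by positivity
    linarith
  have hw : ‖q.2.2‖ ≤ ρ := by
    have : 0 ≤ (q.2.1 - c) ^ 2 := by positivity
    have h5 : ‖q.2.2‖ ^ 2 ≤ ρ ^ 2 := by linarith
    exact le_of_sq_le_sq h5 hρ0.le |>.trans le_rfl
  have hlm : |1 - l| = l - 1 := by rw [abs_sub_comm, abs_of_nonneg (by linarith)]
  refine ⟨(1 / 2, c + l * (q.2.1 - c), ((l : ℝ) : ℂ) * q.2.2), ⟨rfl, ?_⟩, ?_⟩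
  · rw [rsq_eq]
    simp only [norm_mul, Complex.norm_real, Real.norm_eq_abs, mul_pow, sq_abs]
    have : (c + l * (q.2.1 - c) - c) ^ 2 + l ^ 2 * ‖q.2.2‖ ^ 2 = l ^ 2 * rsq c q := by
      rw [hr]; ring
    rw [this, ← hρ2, ← mul_pow, hlρ]
    norm_num
  · rw [Prod.dist_eq, Prod.dist_eq]
    refine max_le ?_ (max_le ?_ ?_)
    · rw [Real.dist_eq]; exact h3
    · rw [Real.dist_eq]
      have : q.2.1 - (c + l * (q.2.1 - c)) = (1 - l) * (q.2.1 - c) := by ring
      simp only [this]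
      rw [abs_mul, hlm]
      nlinarith
    · rw [dist_eq_norm]
      have : q.2.2 - ((l : ℝ) : ℂ) * q.2.2 = (((1 - l : ℝ)) : ℂ) * q.2.2 := by push_cast; ring
      simp only [this]
      rw [norm_mul, Complex.norm_real, Real.norm_eq_abs, hlm]
      nlinarith

/-- the barbell map is a diffeomorphism supported in `bsupp` -/
lemma sdiff_barMap : SDiff bsupp barMap (fun p => bfam.g (1, p)) := by
  refine ⟨?_, ?_, fun p => ?_, fun p => ?_, fun p hp => barMap_off hp⟩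
  · rw [← contMDiff_iff_contDiff]
    exact bfam.smooth_f.comp (contMDiff_const.prodMk contMDiff_id)
  · rw [← contMDiff_iff_contDiff]
    exact bfam.smooth_g.comp (contMDiff_const.prodMk contMDiff_id)
  · exact bfam.fg 1 p
  · exact bfam.gf 1 p

lemma mapsTo_barMap : MapsTo barMap bsupp bsupp := by
  intro p hp
  by_contra h
  have h1 : barMap (barMap p) = barMap p := barMap_off h
  have h2 := congrArg (fun x => bfam.g (1, x)) h1
  have h3 : ∀ x, bfam.g (1, barMap x) = x := fun x => bfam.gf 1 x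
  simp only [h3] at h2
  exact h (h2.symm ▸ hp)

lemma EB_eq_of {p : R4} (hp : p ∈ NB) (h : p ∈ Ext) : p ∈ EB := ⟨hp.1, h⟩

/-- uniform closeness of `sq ε` to `sq 0` on a compact set -/
lemma sq_close (s3 : StS3) {K : Set R4} (hK : IsCompact K) {r : ℝ} (hr : 0 < r) :
    ∃ ε₀ > 0, ∀ ε ∈ Ioo (0 : ℝ) ε₀, ∀ p ∈ K, dist (sq ε p) (sq 0 p) ≤ r := by
  have hc : IsCompact (Icc (0 : ℝ) 1 ×ˢ K) := isCompact_Icc.prod hK
  have hcont : ContinuousOn (fun q : ℝ × R4 => sq q.1 q.2) (Icc (0 : ℝ) 1 ×ˢ K) :=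
    s3.mono (prod_mono (fun x hx => hx.1) (subset_univ _))
  have hu := hc.uniformContinuousOn_of_continuous hcont
  rw [Metric.uniformContinuousOn_iff] at hu
  obtain ⟨d, hd, h⟩ := hu r hr
  refine ⟨min d 1, by positivity, fun ε hε p hp => ?_⟩
  have h1 : ε < d := lt_of_lt_of_le hε.2 (min_le_left _ _)
  have h2 : ε < 1 := lt_of_lt_of_le hε.2 (min_le_right _ _)
  refine (h (ε, p) ⟨⟨hε.1.le, h2.le⟩, hp⟩ (0, p) ⟨⟨le_rfl, by norm_num⟩, hp⟩ ?_).le
  rw [Prod.dist_eq, dist_self, Real.dist_eq]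
  simp only [sub_zero]
  rw [abs_of_pos hε.1]
  exact max_lt h1 hd

/-- the composition of the two radial maps -/
lemma emb_rad (r2 : StR2) {δ : ℝ} (hδ : δ ∈ Ioo (0 : ℝ) (1 / 100)) :
    EmbOn 𝓘(ℝ, R4) (fun p => radc δ 0 (radc δ 1 p)) NB ∧
    (∀ p ∈ NB, p ∈ Ext → radc δ 0 (radc δ 1 p) = p) ∧
    (∀ p ∈ NB, rsq 0 p < 1 / 25 → 1 / 25 - 2 * δ ≤ rsq 0 (radc δ 0 (radc δ 1 p)) ∧
      rsq 0 (radc δ 0 (radc δ 1 p)) ≤ 1 / 25) ∧
    (∀ p ∈ NB, rsq 1 p < 1 / 25 → 1 / 25 - 2 * δ ≤ rsq 1 (radc δ 0 (radc δ 1 p)) ∧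
      rsq 1 (radc δ 0 (radc δ 1 p)) ≤ 1 / 25) := by
  obtain ⟨e0, i0, v0, b0⟩ := r2 δ hδ 0
  obtain ⟨e1, i1, v1, b1⟩ := r2 δ hδ 1
  have hpos : ∀ p ∈ NB, 0 < rsq 1 p ∧ 0 < rsq 0 (radc δ 1 p) := by
    intro p hp
    have h1 : 0 < rsq 1 p := lt_of_lt_of_le (by norm_num) hp.2.2
    have h0 : 0 < rsq 0 p := lt_of_lt_of_le (by norm_num) hp.2.1
    refine ⟨h1, ?_⟩
    by_cases h : 1 / 25 ≤ rsq 1 p
    · rw [i1 p h]; exact h0
    · have h2 := b1 p hp.2.2 (not_le.1 h).le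
      exact lt_trans (by norm_num) (sep10 h2.2)
  refine ⟨⟨fun p hp => ?_, fun p hp p' hp' h => ?_⟩, fun p hp hE => ?_, fun p hp h => ?_,
    fun p hp h => ?_⟩
  · exact IsLocalDiffeomorphAt.comp (hf := e1.1 p (hpos p hp).1) (hg := e0.1 _ (hpos p hp).2)
  · exact e1.2 (hpos p hp).1 (hpos p' hp').1 (e0.2 (hpos p hp).2 (hpos p' hp').2 h)
  · have h0 : 1 / 25 ≤ rsq 0 p := by have := hE.1; norm_num at this ⊢; exact this
    have h1 : 1 / 25 ≤ rsq 1 p := by have := hE.2; norm_num at this ⊢; exact this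
    rw [i1 p h1, i0 p h0]
  · rw [i1 p (sep01 h.le).le]
    exact b0 p hp.2.1 h.le
  · have h2 := b1 p hp.2.2 h.le
    rw [i0 _ (sep10 h2.2).le]
    exact h2

end MR3

open MR3 in
theorem m_R3 (a1 : StA1) (_a2 : StA2) (a3 : StA3) (im : StImp) (ci : StCI) (s3 : StS3)
    (s4 : StS4) (_s6 : StS6) (r1 : StR1) (r2 : StR2) : StR3 := by
  intro E _ _ H _ I M _ _ _ F φ hF hT
  obtain ⟨s41, -, -, -, -, s46, s47, s48, cSP, -, cEB⟩ := s4
  obtain ⟨r11, r12, r13, r14⟩ := r1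
  -- the open set `V`
  obtain ⟨δ₀, hδ₀, hδF⟩ := a1 R4 E H I M F SP cSP hF.1 hF.2
  have hVo : IsOpen δ₀.source := δ₀.open_source
  have hFloc : ∀ q ∈ δ₀.source, IsLocalDiffeomorphAt 𝓘(ℝ, R4) I ∞ F q :=
    fun q hq => ⟨δ₀, hq, fun p hp => (hδF p hp).symm⟩
  have hFinj : InjOn F δ₀.source := by
    intro p hp q hq h
    rw [← hδF p hp, ← hδF q hq] at h
    exact δ₀.injOn hp hq h
  have hFsm : ContMDiffOn 𝓘(ℝ, R4) I ∞ F δ₀.source :=
    δ₀.contMDiffOn.congr fun p hp => (hδF p hp).symm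
  obtain ⟨r, hr, hrV⟩ := cSP.exists_cthickening_subset_open hVo hδ₀
  have hV : ∀ p ∈ SP, ∀ q, dist q p ≤ r → q ∈ δ₀.source := fun p hp q h =>
    hrV (Metric.mem_cthickening_of_dist_le q p r SP hp h)
  -- the parameters
  obtain ⟨δ, hδ, hδr⟩ : ∃ δ ∈ Ioo (0 : ℝ) (1 / 100), 10 * δ ≤ r := by
    refine ⟨min (1 / 200) (r / 10), ⟨by positivity, ?_⟩, ?_⟩
    · exact lt_of_le_of_lt (min_le_left _ _) (by norm_num)
    · have := min_le_right (1 / 200 : ℝ) (r / 10)
      linarith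
  have hEBExt : EB ⊆ Ext := fun p hp => hp.2
  obtain ⟨ε₁, hε₁, h₁⟩ := r13 EB cEB hEBExt r hr
  obtain ⟨ε₂, hε₂, h₂⟩ := sq_close s3 isCompact_bsupp hr
  obtain ⟨ε₃, hε₃, h₃⟩ := hT
  obtain ⟨ε, hε0, hεa, hεb, hεc, hεd, hεe⟩ : ∃ ε : ℝ, 0 < ε ∧ ε < ε₁ ∧ ε < ε₂ ∧ ε < ε₃ ∧ ε < 1 ∧
      3 / 2 * ε ≤ r := by
    refine ⟨min (min (min ε₁ ε₂) (min ε₃ 1)) r / 2, by positivity, ?_, ?_, ?_, ?_, ?_⟩
    all_goals
      have k1 := min_le_left (min (min ε₁ ε₂) (min ε₃ 1)) r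
      have k2 := min_le_right (min (min ε₁ ε₂) (min ε₃ 1)) r
      have k3 := min_le_left (min ε₁ ε₂) (min ε₃ 1)
      have k4 := min_le_right (min ε₁ ε₂) (min ε₃ 1)
      have k5 := min_le_left ε₁ ε₂
      have k6 := min_le_right ε₁ ε₂
      have k7 := min_le_left ε₃ 1
      have k8 := min_le_right ε₃ 1
      linarith
  have hεI : ε ∈ Ioo (0 : ℝ) 1 := ⟨hε0, hεd⟩
  obtain ⟨-, hHsm, hHemb⟩ := r11 ε hεI
  have hkk : EmbOn 𝓘(ℝ, R4) (kk ε) univ := by
    have h := hHemb 1 ⟨by norm_num, le_rfl⟩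
    simpa using h
  obtain ⟨hE, hE1, hE2, hE3⟩ := emb_rad r2 hδ
  -- `κ` maps `NB` to `V`
  have hκV : ∀ p ∈ NB, kk ε (radc δ 0 (radc δ 1 p)) ∈ δ₀.source := by
    intro p hp
    have hfst : |(kk ε (radc δ 0 (radc δ 1 p))).1 - 1 / 2| ≤ r := by
      have h1 : (kk ε (radc δ 0 (radc δ 1 p))).1 = 1 / 2 + ε * (p.1 - 1 / 2) := rfl
      rw [h1]
      have h2 := hp.1.1
      have h3 := hp.1.2.1
      have h4 : |ε * (p.1 - 1 / 2)| ≤ 3 / 2 * ε := by
        rw [abs_mul, abs_of_pos hε0]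
        have : |p.1 - 1 / 2| ≤ 3 / 2 := abs_le.mpr ⟨by linarith, by linarith⟩
        nlinarith
      have h5 : 1 / 2 + ε * (p.1 - 1 / 2) - 1 / 2 = ε * (p.1 - 1 / 2) := by ring
      rw [h5]
      linarith
    by_cases h0 : rsq 0 p < 1 / 25
    · obtain ⟨b1, b2⟩ := hE2 p hp h0
      obtain ⟨c1, c2⟩ := (r14 ε hεI (radc δ 0 (radc δ 1 p))).1 b2
      obtain ⟨p', hp', hd⟩ := near_sph hδ.1 hδ.2 (b1.trans c1) c2 hfst hδr
      exact hV p' (Or.inl (Or.inl hp')) _ hd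
    · by_cases h1 : rsq 1 p < 1 / 25
      · obtain ⟨b1, b2⟩ := hE3 p hp h1
        obtain ⟨c1, c2⟩ := (r14 ε hεI (radc δ 0 (radc δ 1 p))).2 b2
        obtain ⟨p', hp', hd⟩ := near_sph hδ.1 hδ.2 (b1.trans c1) c2 hfst hδr
        exact hV p' (Or.inl (Or.inr hp')) _ hd
      · have hx : p ∈ Ext := by
          refine ⟨?_, ?_⟩
          · have := not_lt.1 h0; norm_num at this ⊢; exact this
          · have := not_lt.1 h1; norm_num at this ⊢; exact this
        rw [hE1 p hp hx]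
        exact hV _ (s41 p hx) _ (h₁ ε ⟨hε0, hεa⟩ p (EB_eq_of hp hx))
  -- the barbell
  have hκemb : EmbOn I (fun p => F (kk ε (radc δ 0 (radc δ 1 p)))) NB := by
    refine ⟨fun p hp => ?_, fun p hp q hq h => ?_⟩
    · exact IsLocalDiffeomorphAt.comp
        (hf := IsLocalDiffeomorphAt.comp (hf := hE.1 p hp) (hg := hkk.1 _ (mem_univ _)))
        (hg := hFloc _ (hκV p hp))
    · exact hE.2 hp hq (hkk.2 (mem_univ _) (mem_univ _) (hFinj (hκV p hp) (hκV q hq) h))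
  obtain ⟨B, hB, hBF⟩ := a1 R4 E H I M (fun p => F (kk ε (radc δ 0 (radc δ 1 p)))) NB isCompact_NB
    hκemb.1 hκemb.2
  refine ⟨B, hB, fun p hp => ?_, ?_⟩
  · have hSP : p ∈ SP := by
      rcases hp with hp | hp
      · exact Or.inl (Or.inl hp)
      · exact Or.inl (Or.inr hp)
    have hEB := s46 hSP
    have hNB := s48 hEB
    rw [hBF p (hB hNB), hE1 p hNB (hEBExt hEB), r12 ε hεI p hp]
  · -- the family
    have hin : ∀ t ∈ Icc (0 : ℝ) 1, ∀ p ∈ bsupp, (1 - t) • sq ε p + t • kk ε p ∈ δ₀.source := by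
      intro t ht p hp
      have hEB := s47 hp
      refine hV _ (s41 p (hEBExt hEB)) _ ?_
      have c1 : sq ε p ∈ Metric.closedBall (sq 0 p) r := h₂ ε ⟨hε0, hεb⟩ p hp
      have c2 : kk ε p ∈ Metric.closedBall (sq 0 p) r := h₁ ε ⟨hε0, hεa⟩ p hEB
      exact (convex_closedBall (sq 0 p) r) c1 c2 (by linarith [ht.2]) ht.1 (by ring)
    have hfam : FamOn I (fun q : ℝ × R4 => F ((1 - q.1) • sq ε q.2 + q.1 • kk ε q.2)) bsupp := by
      refine ⟨⟨(fun q : ℝ × R4 => (1 - q.1) • sq ε q.2 + q.1 • kk ε q.2) ⁻¹' δ₀.source,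
        hVo.preimage hHsm.continuous, ?_, ?_⟩, fun t ht => ⟨fun p hp => ?_, fun p hp q hq h => ?_⟩⟩
      · rintro ⟨t, p⟩ ⟨ht, hp⟩
        exact hin t ht p hp
      · exact hFsm.comp hHsm.contMDiff.contMDiffOn (fun q hq => hq)
      · exact IsLocalDiffeomorphAt.comp (hf := (hHemb t ht).1 p (mem_univ _))
          (hg := hFloc _ (hin t ht p hp))
      · exact (hHemb t ht).2 (mem_univ _) (mem_univ _) (hFinj (hin t ht p hp) (hin t ht q hq) h)
    have h5 := a3 E H I M _ bsupp barMap _ isCompact_bsupp hfam sdiff_barMap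
    have e0 : (fun p : R4 => (fun q : ℝ × R4 => F ((1 - q.1) • sq ε q.2 + q.1 • kk ε q.2)) (0, p)) =
        F ∘ sq ε := by
      funext p; simp
    have e1 : (fun p : R4 => (fun q : ℝ × R4 => F ((1 - q.1) • sq ε q.2 + q.1 • kk ε q.2)) (1, p)) =
        fun p => F (kk ε p) := by
      funext p; simp
    rw [e0, e1] at h5
    have hinj : InjOn (fun p => F (kk ε p)) bsupp := by
      have h6 := (hfam.2 1 ⟨by norm_num, le_rfl⟩).2
      rw [e1] at h6
      exact h6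
    have h7 := (im E H I M (fun p => F (kk ε p)) bsupp barMap hinj).2.2.2.2.1 B
      (bsupp_subset.trans hB) (fun p hp => by
        have hNB := bsupp_subset hp
        rw [hBF p (hB hNB), hE1 p hNB (hEBExt (s47 hp))]) mapsTo_barMap
      (fun p hp => barMap_off hp)
    rw [h7] at h5
    exact (ci E H I M).2.2.2.1 _ _ _ (h₃ ε ⟨hε0, hεc⟩).2 h5

end Pool.Agent.Helper18.BI


end

/-! ## Helper18.BI.M_R1 -/

section

/-!
# Project BI (MP_8e98f2_gt), module R1: a compression which is the identity on the core spheres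
-/

set_option autoImplicit false

open scoped Manifold ContDiff Topology ComplexConjugate
open Set Pool.Agent.Helper65.Barb

namespace Pool.Agent.Helper18.BI

namespace R1

/-! ### scalar facts -/

theorem step_zero {x : ℝ} (h : x ≤ 0) : step x = 0 := Real.smoothTransition.zero_of_nonpos h

theorem step_one {x : ℝ} (h : 1 ≤ x) : step x = 1 := Real.smoothTransition.one_of_one_le h

theorem step_nonneg (x : ℝ) : 0 ≤ step x := Real.smoothTransition.nonneg x

theorem step_le_one (x : ℝ) : step x ≤ 1 := Real.smoothTransition.le_one x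

theorem contDiff_step : ContDiff ℝ ∞ step := Real.smoothTransition.contDiff

theorem uu_left {a : ℝ} (h : a ≤ 2 / 5) : uu a = 1 / 25 - a ^ 2 := by
  rw [uu, step_zero (by linarith)]; ring

theorem uu_right {a : ℝ} (h : 3 / 5 ≤ a) : uu a = 1 / 25 - (a - 1) ^ 2 := by
  rw [uu, step_one (by linarith)]; ring

theorem half_pos (ε x : ℝ) (h : 0 < ε) : 0 < (x + √(x ^ 2 + ε ^ 2)) / 2 := by
  have h1 : |x| < √(x ^ 2 + ε ^ 2) := by
    rw [← Real.sqrt_sq_eq_abs]
    exact Real.sqrt_lt_sqrt (sq_nonneg _) (by nlinarith [sq_pos_of_pos h])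
  have h2 := neg_abs_le x
  linarith

theorem half_gt (ε x : ℝ) (h : 0 < ε) : x < (x + √(x ^ 2 + ε ^ 2)) / 2 := by
  have h1 : |x| < √(x ^ 2 + ε ^ 2) := by
    rw [← Real.sqrt_sq_eq_abs]
    exact Real.sqrt_lt_sqrt (sq_nonneg _) (by nlinarith [sq_pos_of_pos h])
  have h2 := le_abs_self x
  linarith

theorem half_le (ε x : ℝ) (h : 0 < ε) : (x + √(x ^ 2 + ε ^ 2)) / 2 ≤ (x + |x|) / 2 + ε / 2 := by
  have h1 : √(x ^ 2 + ε ^ 2) ≤ |x| + ε := by
    apply Real.sqrt_le_iff.2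
    refine ⟨by positivity, ?_⟩
    nlinarith [abs_nonneg x, sq_abs x, mul_nonneg (abs_nonneg x) h.le]
  linarith

theorem uu_lt_prof (ε a : ℝ) (h : 0 < ε) : uu a < prof ε a := by
  have hA := half_gt ε (1 / 25 - a ^ 2) h
  have hB := half_gt ε (1 / 25 - (a - 1) ^ 2) h
  have hA0 := half_pos ε (1 / 25 - a ^ 2) h
  have hB0 := half_pos ε (1 / 25 - (a - 1) ^ 2) h
  have h1 : 1 / 25 - a ^ 2 < prof ε a := by rw [prof]; linarith
  have h2 : 1 / 25 - (a - 1) ^ 2 < prof ε a := by rw [prof]; linarith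
  have h3 := step_nonneg (5 * a - 2)
  have h4 := step_le_one (5 * a - 2)
  rw [uu]
  rcases eq_or_lt_of_le h3 with h5 | h5
  · rw [← h5]; linarith
  · nlinarith

theorem prof_pos (ε a : ℝ) (h : 0 < ε) : 0 < prof ε a := by
  have hA0 := half_pos ε (1 / 25 - a ^ 2) h
  have hB0 := half_pos ε (1 / 25 - (a - 1) ^ 2) h
  rw [prof]; linarith

theorem prof_zero (a : ℝ) : prof 0 a = ((1 / 25 - a ^ 2) + |1 / 25 - a ^ 2|) / 2 +
    ((1 / 25 - (a - 1) ^ 2) + |1 / 25 - (a - 1) ^ 2|) / 2 := by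
  rw [prof]
  simp only [ne_eq, OfNat.ofNat_ne_zero, not_false_eq_true, zero_pow, add_zero, Real.sqrt_sq_eq_abs]

theorem prof_le (ε a : ℝ) (h : 0 < ε) : prof ε a ≤ prof 0 a + ε := by
  have hA := half_le ε (1 / 25 - a ^ 2) h
  have hB := half_le ε (1 / 25 - (a - 1) ^ 2) h
  rw [prof_zero, prof]; linarith

theorem den_pos (ε a k : ℝ) (h : 0 < ε) (hk : 0 ≤ k) : 0 < k - uu a + prof ε a := by
  have := uu_lt_prof ε a h
  linarith

theorem hh_pos (ε a k : ℝ) (h : 0 < ε) (hk : 0 ≤ k) : 0 < hh ε a k :=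
  Real.sqrt_pos.2 (div_pos (prof_pos ε a h) (den_pos ε a k h hk))

theorem hh_sq (ε a k : ℝ) (h : 0 < ε) (hk : 0 ≤ k) :
    hh ε a k ^ 2 = prof ε a / (k - uu a + prof ε a) :=
  Real.sq_sqrt (div_pos (prof_pos ε a h) (den_pos ε a k h hk)).le

theorem hasDerivAt_hh (ε a k : ℝ) (h : 0 < ε) (hk : 0 ≤ k) :
    HasDerivAt (hh ε a) (-(hh ε a k) / (2 * (k - uu a + prof ε a))) k := by
  have hd := den_pos ε a k h hk
  have hg := prof_pos ε a h
  have h1 : HasDerivAt (fun k : ℝ => k - uu a + prof ε a) 1 k := by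
    simpa using ((hasDerivAt_id k).sub_const (uu a)).add_const (prof ε a)
  have h2 : HasDerivAt (fun k : ℝ => prof ε a / (k - uu a + prof ε a))
      ((0 * (k - uu a + prof ε a) - prof ε a * 1) / (k - uu a + prof ε a) ^ 2) k :=
    (hasDerivAt_const k (prof ε a)).div h1 hd.ne'
  have h3 := h2.sqrt (div_pos hg hd).ne'
  have h4 := hh_pos ε a k h hk
  have h5 := hh_sq ε a k h hk
  refine h3.congr_deriv ?_
  change (0 * (k - uu a + prof ε a) - prof ε a * 1) / (k - uu a + prof ε a) ^ 2 /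
    (2 * hh ε a k) = _
  have h6 : prof ε a = hh ε a k ^ 2 * (k - uu a + prof ε a) := by
    rw [h5]; field_simp
  have h7 : (0 * (k - uu a + prof ε a) - prof ε a * 1) =
      -(hh ε a k ^ 2 * (k - uu a + prof ε a)) := by
    rw [← h6]; ring
  rw [h7]
  field_simp

theorem contDiff_prof (ε : ℝ) (h : 0 < ε) : ContDiff ℝ ∞ (prof ε) := by
  have hA : ContDiff ℝ ∞ (fun a : ℝ => 1 / 25 - a ^ 2) := by fun_prop
  have hB : ContDiff ℝ ∞ (fun a : ℝ => 1 / 25 - (a - 1) ^ 2) := by fun_prop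
  have h1 : ∀ f : ℝ → ℝ, ContDiff ℝ ∞ f → ContDiff ℝ ∞ (fun a => √(f a ^ 2 + ε ^ 2)) := by
    intro f hf
    refine ContDiff.sqrt ?_ ?_
    · fun_prop
    · intro x
      have : 0 < ε ^ 2 := by positivity
      have := sq_nonneg (f x)
      linarith
  exact (((hA.add (h1 _ hA)).div_const 2)).add ((hB.add (h1 _ hB)).div_const 2)

theorem contDiff_uu : ContDiff ℝ ∞ uu := by
  have h1 : ContDiff ℝ ∞ (fun a : ℝ => step (5 * a - 2)) :=
    contDiff_step.comp (by fun_prop)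
  have hA : ContDiff ℝ ∞ (fun a : ℝ => 1 / 25 - a ^ 2) := by fun_prop
  have hB : ContDiff ℝ ∞ (fun a : ℝ => 1 / 25 - (a - 1) ^ 2) := by fun_prop
  exact ((contDiff_const.sub h1).mul hA).add (h1.mul hB)

/-- the domain of smoothness of `hh ε` -/
def OO (ε : ℝ) : Set (ℝ × ℝ) := {x | 0 < x.2 - uu x.1 + prof ε x.1}

theorem isOpen_OO (ε : ℝ) (h : 0 < ε) : IsOpen (OO ε) := by
  have h1 := contDiff_uu.continuous
  have h2 := (contDiff_prof ε h).continuous
  exact isOpen_lt continuous_const (by fun_prop)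

theorem contDiffOn_hh (ε : ℝ) (h : 0 < ε) :
    ContDiffOn ℝ ∞ (fun x : ℝ × ℝ => hh ε x.1 x.2) (OO ε) := by
  have h1 : ContDiff ℝ ∞ (fun x : ℝ × ℝ => uu x.1) := contDiff_uu.comp contDiff_fst
  have h2 : ContDiff ℝ ∞ (fun x : ℝ × ℝ => prof ε x.1) := (contDiff_prof ε h).comp contDiff_fst
  have h3 : ContDiff ℝ ∞ (fun x : ℝ × ℝ => x.2 - uu x.1 + prof ε x.1) :=
    (contDiff_snd.sub h1).add h2
  refine ContDiffOn.sqrt (h2.contDiffOn.div h3.contDiffOn ?_) ?_
  · intro x hx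
    exact ne_of_gt hx
  · intro x hx
    exact (div_pos (prof_pos ε _ h) hx).ne'

theorem contDiff_bet (r0 : StR0) (ε : ℝ) : ContDiff ℝ ∞ (bet ε) := by
  have h1 : ContDiff ℝ ∞ (fun a : ℝ => ramp ((a - 6 / 5) / ε)) := r0.1.comp (by fun_prop)
  have h2 : ContDiff ℝ ∞ (fun a : ℝ => ramp ((-1 / 5 - a) / ε)) := r0.1.comp (by fun_prop)
  have h3 : bet ε = fun a => a - (1 - ε) * ε * ramp ((a - 6 / 5) / ε) +
    (1 - ε) * ε * ramp ((-1 / 5 - a) / ε) := rfl
  rw [h3]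
  fun_prop

theorem hasDerivAt_bet (r0 : StR0) (ε : ℝ) (h : 0 < ε) (a : ℝ) :
    HasDerivAt (bet ε) (1 - (1 - ε) * step ((a - 6 / 5) / ε) -
      (1 - ε) * step ((-1 / 5 - a) / ε)) a := by
  have e1 : HasDerivAt (fun a : ℝ => (a - 6 / 5) / ε) (1 / ε) a :=
    ((hasDerivAt_id a).sub_const _).div_const ε
  have e2 : HasDerivAt (fun a : ℝ => (-1 / 5 - a) / ε) ((-1) / ε) a := by
    have := ((hasDerivAt_id a).const_sub (-1 / 5)).div_const ε
    simpa using this
  have h1 : HasDerivAt (fun a : ℝ => ramp ((a - 6 / 5) / ε)) (step ((a - 6 / 5) / ε) * (1 / ε)) a :=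
    HasDerivAt.comp (h₂ := ramp) a (r0.2.1 ((a - 6 / 5) / ε)) e1
  have h2 : HasDerivAt (fun a : ℝ => ramp ((-1 / 5 - a) / ε))
      (step ((-1 / 5 - a) / ε) * ((-1) / ε)) a :=
    HasDerivAt.comp (h₂ := ramp) a (r0.2.1 ((-1 / 5 - a) / ε)) e2
  have h3 := ((hasDerivAt_id a).sub (h1.const_mul ((1 - ε) * ε))).add
    (h2.const_mul ((1 - ε) * ε))
  refine h3.congr_deriv ?_
  field_simp
  ring

theorem bet_deriv_pos (ε : ℝ) (h : ε ∈ Ioo (0 : ℝ) 1) (a : ℝ) :
    0 < 1 - (1 - ε) * step ((a - 6 / 5) / ε) - (1 - ε) * step ((-1 / 5 - a) / ε) := by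
  obtain ⟨h0, h1⟩ := h
  rcases le_total a (6 / 5) with ha | ha
  · rw [step_zero (x := (a - 6 / 5) / ε) (div_nonpos_of_nonpos_of_nonneg (by linarith) h0.le)]
    have := step_le_one ((-1 / 5 - a) / ε)
    nlinarith
  · rw [step_zero (x := (-1 / 5 - a) / ε) (div_nonpos_of_nonpos_of_nonneg (by linarith) h0.le)]
    have := step_le_one ((a - 6 / 5) / ε)
    nlinarith

theorem bet_mid (r0 : StR0) (ε : ℝ) (h : 0 < ε) (a : ℝ) (h1 : -1 / 5 ≤ a) (h2 : a ≤ 6 / 5) :
    bet ε a = a := by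
  rw [bet, r0.2.2.1 _ (div_nonpos_of_nonpos_of_nonneg (by linarith) h.le),
    r0.2.2.1 _ (div_nonpos_of_nonpos_of_nonneg (by linarith) h.le)]
  ring

theorem ramp_bounds (r0 : StR0) (ε : ℝ) (h : 0 < ε) (y : ℝ) (hy : 0 ≤ y) :
    y - ε ≤ ε * ramp (y / ε) ∧ ε * ramp (y / ε) ≤ y := by
  have h1 := r0.2.2.2.2.1 (y / ε)
  have h2 := r0.2.2.2.2.2 (y / ε) (div_nonneg hy h.le)
  have h3 : ε * (y / ε) = y := by field_simp
  constructor
  · calc y - ε = ε * (y / ε - 1) := by rw [mul_sub, h3, mul_one]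
      _ ≤ ε * ramp (y / ε) := mul_le_mul_of_nonneg_left h1 h.le
  · calc ε * ramp (y / ε) ≤ ε * (y / ε) := mul_le_mul_of_nonneg_left h2 h.le
      _ = y := h3

theorem axc_zero (a : ℝ) : axc 0 a = 1 / 2 + (|a + 1 / 5| - |a - 6 / 5|) / 2 := by
  rw [axc]
  simp only [ne_eq, OfNat.ofNat_ne_zero, not_false_eq_true, zero_pow, add_zero, Real.sqrt_sq_eq_abs]

theorem bet_close (r0 : StR0) (ε : ℝ) (h : ε ∈ Ioo (0 : ℝ) 1) (a : ℝ) :
    |bet ε a - axc 0 a| ≤ ε * (|a| + 3) := by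
  obtain ⟨h0, h1⟩ := h
  have habs := abs_nonneg a
  have ha1 := le_abs_self a
  have ha2 := neg_abs_le a
  rcases le_total a (6 / 5) with ha | ha
  · rcases le_total (-1 / 5) a with hb | hb
    · rw [bet_mid r0 ε h0 a hb ha, axc_zero, abs_of_nonneg (by linarith : 0 ≤ a + 1 / 5),
        abs_of_nonpos (by linarith : a - 6 / 5 ≤ 0)]
      have : a - (1 / 2 + (a + 1 / 5 - -(a - 6 / 5)) / 2) = 0 := by ring
      rw [this, abs_zero]
      positivity
    · rw [axc_zero, abs_of_nonpos (by linarith : a + 1 / 5 ≤ 0),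
        abs_of_nonpos (by linarith : a - 6 / 5 ≤ 0), bet,
        r0.2.2.1 _ (div_nonpos_of_nonpos_of_nonneg (by linarith : a - 6 / 5 ≤ 0) h0.le)]
      obtain ⟨h2, h3⟩ := ramp_bounds r0 ε h0 (-1 / 5 - a) (by linarith)
      set X := ε * ramp ((-1 / 5 - a) / ε) with hX
      have h4 : a - (1 - ε) * ε * 0 + (1 - ε) * ε * ramp ((-1 / 5 - a) / ε) -
          (1 / 2 + (-(a + 1 / 5) - -(a - 6 / 5)) / 2) = a + (1 - ε) * X + 1 / 5 := by
        rw [hX]; ring
      rw [h4, abs_le]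
      constructor
      · nlinarith
      · nlinarith
  · rw [axc_zero, abs_of_nonneg (by linarith : 0 ≤ a + 1 / 5),
      abs_of_nonneg (by linarith : 0 ≤ a - 6 / 5), bet,
      r0.2.2.1 ((-1 / 5 - a) / ε)
        (div_nonpos_of_nonpos_of_nonneg (by linarith : -1 / 5 - a ≤ 0) h0.le)]
    obtain ⟨h2, h3⟩ := ramp_bounds r0 ε h0 (a - 6 / 5) (by linarith)
    set X := ε * ramp ((a - 6 / 5) / ε) with hX
    have h4 : a - (1 - ε) * ε * ramp ((a - 6 / 5) / ε) + (1 - ε) * ε * 0 -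
        (1 / 2 + (a + 1 / 5 - (a - 6 / 5)) / 2) = a - (1 - ε) * X - 6 / 5 := by
      rw [hX]; ring
    rw [h4, abs_le]
    constructor
    · nlinarith
    · nlinarith

/-! ### the squared norm `X = k hh²` of the third component -/

theorem X_le_prof (ε a k : ℝ) (h : 0 < ε) (hk : 0 ≤ k) : k * hh ε a k ^ 2 ≤ prof ε a := by
  rw [hh_sq ε a k h hk, ← mul_div_assoc, div_le_iff₀ (den_pos ε a k h hk)]
  have := uu_lt_prof ε a h
  have := prof_pos ε a h
  nlinarith

theorem X_sub (ε a k : ℝ) (h : 0 < ε) (hk : 0 ≤ k) :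
    k * hh ε a k ^ 2 - uu a = (prof ε a - uu a) * (k - uu a) / (k - uu a + prof ε a) := by
  have := (den_pos ε a k h hk).ne'
  rw [hh_sq ε a k h hk]
  field_simp
  ring

theorem X_ge (ε a k : ℝ) (h : 0 < ε) (hk : 0 ≤ k) (hu : uu a ≤ k) : uu a ≤ k * hh ε a k ^ 2 := by
  have h1 := X_sub ε a k h hk
  have h2 : 0 ≤ (prof ε a - uu a) * (k - uu a) / (k - uu a + prof ε a) :=
    div_nonneg (mul_nonneg (by linarith [uu_lt_prof ε a h]) (by linarith))
      (den_pos ε a k h hk).le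
  linarith

theorem X_le_u (ε a k : ℝ) (h : 0 < ε) (hk : 0 ≤ k) (hu : k ≤ uu a) :
    k ≤ k * hh ε a k ^ 2 ∧ k * hh ε a k ^ 2 ≤ uu a := by
  constructor
  · have h1 : 1 ≤ hh ε a k ^ 2 := by
      rw [hh_sq ε a k h hk, le_div_iff₀ (den_pos ε a k h hk)]
      linarith
    nlinarith
  · have h1 := X_sub ε a k h hk
    have h2 : (prof ε a - uu a) * (k - uu a) / (k - uu a + prof ε a) ≤ 0 :=
      div_nonpos_of_nonpos_of_nonneg
        (mul_nonpos_of_nonneg_of_nonpos (by linarith [uu_lt_prof ε a h]) (by linarith))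
        (den_pos ε a k h hk).le
    linarith

theorem prof_zero_cases (a : ℝ) : (prof 0 a = 0) ∨ (a ^ 2 < 1 / 25 ∧ prof 0 a = uu a) ∨
    ((a - 1) ^ 2 < 1 / 25 ∧ prof 0 a = uu a) := by
  rw [prof_zero]
  rcases lt_or_ge (a ^ 2) (1 / 25) with hA | hA
  · right; left
    refine ⟨hA, ?_⟩
    have ha : a < 1 / 5 := by nlinarith
    have hB : 1 / 25 - (a - 1) ^ 2 ≤ 0 := by nlinarith
    rw [abs_of_nonpos hB, abs_of_nonneg (by linarith : 0 ≤ 1 / 25 - a ^ 2),
      uu_left (by linarith)]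
    ring
  · rcases lt_or_ge ((a - 1) ^ 2) (1 / 25) with hB | hB
    · right; right
      refine ⟨hB, ?_⟩
      have ha : 4 / 5 < a := by nlinarith
      rw [abs_of_nonpos (by linarith : 1 / 25 - a ^ 2 ≤ 0),
        abs_of_nonneg (by linarith : 0 ≤ 1 / 25 - (a - 1) ^ 2), uu_right (by linarith)]
      ring
    · left
      rw [abs_of_nonpos (by linarith : 1 / 25 - a ^ 2 ≤ 0),
        abs_of_nonpos (by linarith : 1 / 25 - (a - 1) ^ 2 ≤ 0)]
      ring

theorem prof_zero_nonneg (a : ℝ) : 0 ≤ prof 0 a := by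
  rw [prof_zero]
  have h1 := neg_abs_le (1 / 25 - a ^ 2)
  have h2 := neg_abs_le (1 / 25 - (a - 1) ^ 2)
  linarith

theorem rsq_eq (c : ℝ) (p : R4) : rsq c p = (p.2.1 - c) ^ 2 + Complex.normSq p.2.2 := by
  rw [rsq, nsq, Complex.normSq_apply]
  ring

theorem prof_zero_le {p : R4} (hp : p ∈ Ext) : prof 0 p.2.1 ≤ Complex.normSq p.2.2 := by
  obtain ⟨h0, h1⟩ := hp
  rw [rsq_eq] at h0 h1
  rcases prof_zero_cases p.2.1 with h | h | h
  · rw [h]; exact Complex.normSq_nonneg _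
  · rw [h.2, uu_left (by nlinarith [h.1])]; linarith
  · rw [h.2, uu_right (by nlinarith [h.1])]; linarith

theorem fac_zero_sq {a k : ℝ} (h : prof 0 a ≤ k) : k * fac 0 a k ^ 2 = prof 0 a := by
  have h0 := prof_zero_nonneg a
  rw [fac]
  simp only [add_zero, mul_zero, zero_mul, ne_eq, OfNat.ofNat_ne_zero, not_false_eq_true, zero_pow,
    Real.sqrt_sq_eq_abs]
  rw [abs_of_nonneg (by linarith : 0 ≤ k - prof 0 a)]
  have h1 : k + prof 0 a + (k - prof 0 a) = 2 * k := by ring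
  rw [h1, Real.sq_sqrt (div_nonneg (by linarith) (by linarith))]
  rcases eq_or_lt_of_le (h0.trans h) with h2 | h2
  · rw [← h2] at h ⊢
    rw [zero_mul]
    linarith
  · field_simp

theorem fac_zero_nonneg (a k : ℝ) : 0 ≤ fac 0 a k := Real.sqrt_nonneg _

theorem X_bounds {p : R4} (hp : p ∈ Ext) (ε : ℝ) (h : 0 < ε) :
    Complex.normSq p.2.2 * fac 0 p.2.1 (Complex.normSq p.2.2) ^ 2 ≤
        Complex.normSq p.2.2 * hh ε p.2.1 (Complex.normSq p.2.2) ^ 2 ∧
      Complex.normSq p.2.2 * hh ε p.2.1 (Complex.normSq p.2.2) ^ 2 ≤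
        Complex.normSq p.2.2 * fac 0 p.2.1 (Complex.normSq p.2.2) ^ 2 + ε := by
  have hk := Complex.normSq_nonneg p.2.2
  have hle := prof_zero_le hp
  rw [fac_zero_sq hle]
  constructor
  · rcases prof_zero_cases p.2.1 with h' | h' | h'
    · rw [h']; positivity
    · rw [h'.2] at hle ⊢; exact X_ge ε _ _ h hk hle
    · rw [h'.2] at hle ⊢; exact X_ge ε _ _ h hk hle
  · exact (X_le_prof ε _ _ h hk).trans (prof_le ε _ h)

/-! ### the maps -/

theorem sq_eq (ε : ℝ) : sq ε = tri ε (axc ε) (fac ε) := rfl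

theorem contDiff_normSq : ContDiff ℝ ∞ (fun p : R4 => Complex.normSq p.2.2) := by
  have h1 : (fun p : R4 => Complex.normSq p.2.2) =
      fun p : R4 => Complex.reCLM p.2.2 * Complex.reCLM p.2.2 +
        Complex.imCLM p.2.2 * Complex.imCLM p.2.2 := by
    funext p
    rw [Complex.normSq_apply]
    rfl
  rw [h1]
  have h2 : ContDiff ℝ ∞ (fun p : R4 => Complex.reCLM p.2.2) :=
    Complex.reCLM.contDiff.comp (contDiff_snd.comp contDiff_snd)
  have h3 : ContDiff ℝ ∞ (fun p : R4 => Complex.imCLM p.2.2) :=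
    Complex.imCLM.contDiff.comp (contDiff_snd.comp contDiff_snd)
  exact (h2.mul h2).add (h3.mul h3)

theorem contDiff_kk (r0 : StR0) (ε : ℝ) (h : 0 < ε) : ContDiff ℝ ∞ (kk ε) := by
  have h1 : ContDiff ℝ ∞ (fun p : R4 => (1 / 2 + ε * (p.1 - 1 / 2) : ℝ)) := by fun_prop
  have ha : ContDiff ℝ ∞ (fun p : R4 => p.2.1) := contDiff_fst.comp contDiff_snd
  have h2 : ContDiff ℝ ∞ (fun p : R4 => bet ε p.2.1) :=
    ContDiff.comp (g := bet ε) (f := fun p : R4 => p.2.1) (contDiff_bet r0 ε) ha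
  have h3 : ContDiff ℝ ∞ (fun p : R4 => hh ε p.2.1 (Complex.normSq p.2.2)) :=
    ContDiffOn.comp_contDiff (g := fun x : ℝ × ℝ => hh ε x.1 x.2)
      (f := fun p : R4 => (p.2.1, Complex.normSq p.2.2)) (contDiffOn_hh ε h)
      (ha.prodMk contDiff_normSq)
      (fun p => den_pos ε p.2.1 (Complex.normSq p.2.2) h (Complex.normSq_nonneg _))
  have h4 : ContDiff ℝ ∞ (fun p : R4 => ((hh ε p.2.1 (Complex.normSq p.2.2) : ℝ) : ℂ) * p.2.2) :=
    (Complex.ofRealCLM.contDiff.comp h3).mul (contDiff_snd.comp contDiff_snd)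
  exact h1.prodMk (h2.prodMk h4)

theorem contDiff_sq (s2 : StS2) (ε : ℝ) (h : 0 < ε) : ContDiff ℝ ∞ (sq ε) :=
  s2.2.2.2.comp_contDiff (f := fun p : R4 => (ε, p)) (contDiff_const.prodMk contDiff_id)
    (fun _ => ⟨h, mem_univ _⟩)

theorem embOn_mix (s0 : StS0) (s1 : StS1) (s2 : StS2) (r0 : StR0) (ε : ℝ)
    (h : ε ∈ Ioo (0 : ℝ) 1) (t : ℝ) (ht : t ∈ Icc (0 : ℝ) 1) :
    EmbOn 𝓘(ℝ, R4) (fun p => (1 - t) • sq ε p + t • kk ε p) univ := by
  obtain ⟨h0, h1⟩ := h
  obtain ⟨ht0, ht1⟩ := ht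
  obtain ⟨hax, d, hd⟩ := s2.2.1 ε h0
  obtain ⟨O, hO, hOk, hOs⟩ := s2.2.2.1 ε h0
  have hff : ∀ a k : ℝ, ∃ e : ℝ, 0 ≤ k → HasDerivAt (fac ε a) e k ∧ 0 < fac ε a k ∧
      0 < fac ε a k + 2 * k * e := by
    intro a k
    by_cases hk : 0 ≤ k
    · obtain ⟨q1, _, _, _, e, he1, he2⟩ := s1 ε (prof ε a) k h0 (prof_pos ε a h0) hk
      exact ⟨e, fun _ => ⟨he1, q1, he2⟩⟩
    · exact ⟨0, fun hk' => absurd hk' hk⟩
  choose e he using hff
  have hmap : (fun p => (1 - t) • sq ε p + t • kk ε p) =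
      tri ε (fun a => (1 - t) * axc ε a + t * bet ε a)
        (fun a k => (1 - t) * fac ε a k + t * hh ε a k) := by
    funext p
    refine Prod.ext ?_ (Prod.ext ?_ ?_)
    · change (1 - t) * (1 / 2 + ε * (p.1 - 1 / 2)) + t * (1 / 2 + ε * (p.1 - 1 / 2)) =
        1 / 2 + ε * (p.1 - 1 / 2)
      ring
    · rfl
    · change (1 - t) • (((fac ε p.2.1 (Complex.normSq p.2.2) : ℝ) : ℂ) * p.2.2) +
        t • (((hh ε p.2.1 (Complex.normSq p.2.2) : ℝ) : ℂ) * p.2.2) =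
        (((1 - t) * fac ε p.2.1 (Complex.normSq p.2.2) +
          t * hh ε p.2.1 (Complex.normSq p.2.2) : ℝ) : ℂ) * p.2.2
      rw [Complex.real_smul, Complex.real_smul]
      push_cast
      ring
  rw [hmap]
  have hpos : ∀ x y : ℝ, 0 < x → 0 < y → 0 < (1 - t) * x + t * y := by
    intro x y hx hy
    rcases eq_or_lt_of_le ht0 with h2 | h2
    · rw [← h2]; linarith
    · have := mul_pos h2 hy
      have := mul_nonneg (sub_nonneg.2 ht1) hx.le
      linarith
  refine s0 ε (fun a => (1 - t) * axc ε a + t * bet ε a)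
    (fun a => (1 - t) * d a + t * (1 - (1 - ε) * step ((a - 6 / 5) / ε) -
      (1 - ε) * step ((-1 / 5 - a) / ε)))
    (fun a k => (1 - t) * fac ε a k + t * hh ε a k)
    (fun a k => (1 - t) * e a k + t * (-(hh ε a k) / (2 * (k - uu a + prof ε a))))
    (O ∩ OO ε) h0 ?_ ?_ ?_ (hO.inter (isOpen_OO ε h0)) ?_ ?_ ?_ ?_
  · exact (contDiff_const.mul hax).add (contDiff_const.mul (contDiff_bet r0 ε))
  · intro a
    exact ((hd a).1.const_mul (1 - t)).add ((hasDerivAt_bet r0 ε h0 a).const_mul t)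
  · intro a
    exact hpos _ _ (hd a).2 (bet_deriv_pos ε ⟨h0, h1⟩ a)
  · intro a k hk
    exact ⟨hOk a k hk, den_pos ε a k h0 hk⟩
  · exact (contDiffOn_const.mul (hOs.mono inter_subset_left)).add
      (contDiffOn_const.mul ((contDiffOn_hh ε h0).mono inter_subset_right))
  · intro a k hk
    exact ((he a k hk).1.const_mul (1 - t)).add ((hasDerivAt_hh ε a k h0 hk).const_mul t)
  · intro a k hk
    refine ⟨hpos _ _ (he a k hk).2.1 (hh_pos ε a k h0 hk), ?_⟩
    have h2 := hh_pos ε a k h0 hk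
    have h3 := den_pos ε a k h0 hk
    have h4 : 0 < hh ε a k + 2 * k * (-(hh ε a k) / (2 * (k - uu a + prof ε a))) := by
      have h5 : hh ε a k + 2 * k * (-(hh ε a k) / (2 * (k - uu a + prof ε a))) =
          hh ε a k * (prof ε a - uu a) / (k - uu a + prof ε a) := by
        field_simp
        ring
      rw [h5]
      exact div_pos (mul_pos h2 (by linarith [uu_lt_prof ε a h0])) h3
    have h6 := hpos _ _ (he a k hk).2.2 h4
    have h7 : (1 - t) * fac ε a k + t * hh ε a k + 2 * k * ((1 - t) * e a k +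
        t * (-(hh ε a k) / (2 * (k - uu a + prof ε a)))) =
        (1 - t) * (fac ε a k + 2 * k * e a k) +
        t * (hh ε a k + 2 * k * (-(hh ε a k) / (2 * (k - uu a + prof ε a)))) := by ring
    rw [h7]
    exact h6

theorem hh_one (ε a : ℝ) (h : 0 < ε) : hh ε a (uu a) = 1 := by
  rw [hh, sub_self, zero_add, div_self (prof_pos ε a h).ne', Real.sqrt_one]

theorem kk_fix (r0 : StR0) (ε : ℝ) (h : 0 < ε) (p : R4) (h1 : p.1 = 1 / 2) (h2 : -1 / 5 ≤ p.2.1)
    (h3 : p.2.1 ≤ 6 / 5) (h4 : Complex.normSq p.2.2 = uu p.2.1) : kk ε p = p := by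
  refine Prod.ext ?_ (Prod.ext ?_ ?_)
  · change 1 / 2 + ε * (p.1 - 1 / 2) = p.1
    rw [h1]; ring
  · change bet ε p.2.1 = p.2.1
    exact bet_mid r0 ε h _ h2 h3
  · change ((hh ε p.2.1 (Complex.normSq p.2.2) : ℝ) : ℂ) * p.2.2 = p.2.2
    rw [h4, hh_one ε _ h]
    simp

theorem normSq_third (ε : ℝ) (p : R4) : Complex.normSq (kk ε p).2.2 =
    Complex.normSq p.2.2 * hh ε p.2.1 (Complex.normSq p.2.2) ^ 2 := by
  change Complex.normSq (((hh ε p.2.1 (Complex.normSq p.2.2) : ℝ) : ℂ) * p.2.2) = _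
  rw [Complex.normSq_mul, Complex.normSq_ofReal]
  ring

theorem third_close {p : R4} (hp : p ∈ Ext) (ε : ℝ) (h : 0 < ε) :
    ‖((hh ε p.2.1 (Complex.normSq p.2.2) : ℝ) : ℂ) * p.2.2 -
      ((fac 0 p.2.1 (Complex.normSq p.2.2) : ℝ) : ℂ) * p.2.2‖ ≤ √ε := by
  obtain ⟨h1, h2⟩ := X_bounds hp ε h
  have hk : Complex.normSq p.2.2 = ‖p.2.2‖ ^ 2 := Complex.normSq_eq_norm_sq _
  have hx := (hh_pos ε p.2.1 (Complex.normSq p.2.2) h (Complex.normSq_nonneg _)).le
  have hy := fac_zero_nonneg p.2.1 (Complex.normSq p.2.2)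
  set x := hh ε p.2.1 (Complex.normSq p.2.2) with hxdef
  set y := fac 0 p.2.1 (Complex.normSq p.2.2) with hydef
  set n := ‖p.2.2‖ with hn
  have hn0 : 0 ≤ n := norm_nonneg _
  rw [hk] at h1 h2
  rw [← sub_mul, ← Complex.ofReal_sub, norm_mul, Complex.norm_real, Real.norm_eq_abs, ← hn]
  apply Real.le_sqrt_of_sq_le
  rw [mul_pow, sq_abs]
  have h3 : n * y ≤ n * x := by
    apply le_of_sq_le_sq _ (by positivity)
    nlinarith
  nlinarith [mul_nonneg hn0 hx, mul_nonneg hn0 hy]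

end R1

open R1

theorem m_R1 (s0 : StS0) (s1 : StS1) (s2 : StS2) (_s3 : StS3) (_s4 : StS4) (r0 : StR0) : StR1 := by
  refine ⟨?_, ?_, ?_, ?_⟩
  · intro ε hε
    have hk := contDiff_kk r0 ε hε.1
    have hs := contDiff_sq s2 ε hε.1
    refine ⟨hk, ?_, fun t ht => embOn_mix s0 s1 s2 r0 ε hε t ht⟩
    exact ((contDiff_const.sub contDiff_fst).smul (hs.comp contDiff_snd)).add
      (contDiff_fst.smul (hk.comp contDiff_snd))
  · intro ε hε p hp
    rcases hp with hp | hp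
    · obtain ⟨h1, h2⟩ := hp
      rw [rsq_eq, sub_zero] at h2
      have hk := Complex.normSq_nonneg p.2.2
      have h3 : -1 / 5 ≤ p.2.1 := by nlinarith
      have h4 : p.2.1 ≤ 1 / 5 := by nlinarith
      exact kk_fix r0 ε hε.1 p h1 h3 (by linarith) (by rw [uu_left (by linarith)]; linarith)
    · obtain ⟨h1, h2⟩ := hp
      rw [rsq_eq] at h2
      have hk := Complex.normSq_nonneg p.2.2
      have h3 : 4 / 5 ≤ p.2.1 := by nlinarith
      have h4 : p.2.1 ≤ 6 / 5 := by nlinarith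
      exact kk_fix r0 ε hε.1 p h1 (by linarith) h4 (by rw [uu_right (by linarith)]; linarith)
  · intro K hK hKE r hr
    obtain ⟨R, hR⟩ := hK.isBounded.exists_norm_le
    set C : ℝ := max R 0 + 3 with hC
    have hC0 : 0 < C := by positivity
    refine ⟨min 1 (min (r / C) (r ^ 2)), by positivity, ?_⟩
    intro ε hε p hp
    obtain ⟨h0, h1⟩ := hε
    have h2 : ε < 1 := h1.trans_le (min_le_left _ _)
    have h3 : ε < r / C := h1.trans_le ((min_le_right _ _).trans (min_le_left _ _))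
    have h4 : ε < r ^ 2 := h1.trans_le ((min_le_right _ _).trans (min_le_right _ _))
    have h5 : ε * C ≤ r := by rw [lt_div_iff₀ hC0] at h3; exact h3.le
    have hpR := hR p hp
    have hp1 : |p.1| ≤ R := (norm_fst_le p).trans hpR
    have hp2 : |p.2.1| ≤ R := ((norm_fst_le p.2).trans (norm_snd_le p)).trans hpR
    have hRC : R ≤ C - 3 := by rw [hC]; linarith [le_max_left R 0]
    have hd : dist (kk ε p) (sq 0 p) = max (dist (kk ε p).1 (sq 0 p).1)
        (max (dist (kk ε p).2.1 (sq 0 p).2.1) (dist (kk ε p).2.2 (sq 0 p).2.2)) := by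
      rw [Prod.dist_eq, Prod.dist_eq]
    rw [hd]
    refine max_le ?_ (max_le ?_ ?_)
    · change dist (1 / 2 + ε * (p.1 - 1 / 2)) (1 / 2 + 0 * (p.1 - 1 / 2)) ≤ r
      rw [Real.dist_eq]
      have e1 : (1 / 2 + ε * (p.1 - 1 / 2)) - (1 / 2 + 0 * (p.1 - 1 / 2)) = ε * (p.1 - 1 / 2) := by
        ring
      rw [e1, abs_mul, abs_of_pos h0]
      refine (mul_le_mul_of_nonneg_left ?_ h0.le).trans h5
      have := abs_sub p.1 (1 / 2)
      have e2 : |(1 / 2 : ℝ)| = 1 / 2 := by norm_num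
      rw [e2] at this
      linarith
    · change dist (bet ε p.2.1) (axc 0 p.2.1) ≤ r
      rw [Real.dist_eq]
      refine (bet_close r0 ε ⟨h0, h2⟩ _).trans ((mul_le_mul_of_nonneg_left ?_ h0.le).trans h5)
      linarith
    · change dist (((hh ε p.2.1 (Complex.normSq p.2.2) : ℝ) : ℂ) * p.2.2)
        (((fac 0 p.2.1 (Complex.normSq p.2.2) : ℝ) : ℂ) * p.2.2) ≤ r
      rw [dist_eq_norm]
      refine (third_close (hKE hp) ε h0).trans ?_
      rw [Real.sqrt_le_iff]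
      exact ⟨hr.le, h4.le⟩
  · intro ε hε p
    have hk := Complex.normSq_nonneg p.2.2
    refine ⟨?_, ?_⟩
    · intro h
      rw [rsq_eq, sub_zero] at h
      have h3 : -1 / 5 ≤ p.2.1 := by nlinarith
      have h4 : p.2.1 ≤ 1 / 5 := by nlinarith
      have hb : (kk ε p).2.1 = p.2.1 := bet_mid r0 ε hε.1 _ h3 (by linarith)
      have hu : uu p.2.1 = 1 / 25 - p.2.1 ^ 2 := uu_left (by linarith)
      obtain ⟨h5, h6⟩ := X_le_u ε p.2.1 (Complex.normSq p.2.2) hε.1 hk (by rw [hu]; linarith)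
      rw [rsq_eq, rsq_eq, normSq_third, hb, sub_zero]
      rw [hu] at h6
      constructor <;> linarith
    · intro h
      rw [rsq_eq] at h
      have h3 : 4 / 5 ≤ p.2.1 := by nlinarith
      have h4 : p.2.1 ≤ 6 / 5 := by nlinarith
      have hb : (kk ε p).2.1 = p.2.1 := bet_mid r0 ε hε.1 _ (by linarith) h4
      have hu : uu p.2.1 = 1 / 25 - (p.2.1 - 1) ^ 2 := uu_right (by linarith)
      obtain ⟨h5, h6⟩ := X_le_u ε p.2.1 (Complex.normSq p.2.2) hε.1 hk (by rw [hu]; linarith)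
      rw [rsq_eq, rsq_eq, normSq_third, hb]
      rw [hu] at h6
      constructor <;> linarith

end Pool.Agent.Helper18.BI


end
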