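import Pool.Agent.Helper65.Barb.Defs
import Pool.Agent.Helper70.BI.B.P14
import Pool.Agent.Helper70.BI.B.P27
import Pool.Agent.Helper70.BI.B.P41

/-!
# Project BI (MP_8e98f2_gt): collected modules, part 42

The contents of the modules
* Helper70.BI.M_AG
* Helper70.BI.M_XC
* Helper18.BI.R.M_MOVE
* Helper18.BI.R.M_TOPG
* Helper34.BI.R.M_SMG

in one file, so that the whole proof builds in a short time.
-/

/-! ## Helper70.BI.M_AG -/

section

/-!
# Project BI, module AG: additivity for germs with two strands through `flat 0`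
-/

set_option autoImplicit false

open scoped Manifold ContDiff Topology ComplexConjugate
open Set Filter Pool.Agent.Helper65.Barb Pool.Agent.Helper18.BI

namespace Pool.Agent.Helper70.BI

open Pool.Agent.Helper27.BI (IsKap StADD2)
open Pool.Agent.Helper34.BI (rade qe)
open Pool.Agent.Helper34.BI.D2a
open Pool.Agent.Helper34.BI.RE

namespace AG

theorem nsq_x2 : nsq x2 = 1 / 100 := by
  simp only [nsq, x2, Complex.ofReal_re, Complex.ofReal_im]
  norm_num

theorem x2_re : x2.2.re = 1 / 10 := by simp only [x2, Complex.ofReal_re]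

theorem x2_abs8 : |x2.2.re| / 8 = 1 / 80 := by
  rw [x2_re, abs_of_pos (by norm_num)]; norm_num

theorem x2_abs2 : |x2.2.re| / 2 = 1 / 20 := by
  rw [x2_re, abs_of_pos (by norm_num)]; norm_num

/-- the radial map is an embedding away from the centre -/
theorem emb {δ : ℝ} (h0 : 0 < δ) (h1 : δ < 1) (c : ℝ) :
    EmbOn I4 (rade δ c) {p | 0 < rsq c p} := by
  have hf := qe_prf h0 h1
  refine ⟨fun p hp => ?_, rad_inj hf c⟩
  rw [m_A0 R4 (rade δ c) p]
  exact ⟨⟨_, R2.isOpen_pos c, hp, rad_contDiffOn hf c⟩,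
    fun v hv => rad_fderiv hf c p v hp hv⟩

/-- choice of the collar of `sph 1` -/
theorem collar (V : Set R4) (hV : IsOpen V) (hs : sph 1 ⊆ V) :
    ∃ δ ∈ Ioo (0 : ℝ) (1 / 100), ∀ p ∈ flat 1, 1 / 25 - 3 * δ ≤ rsq 1 p → p ∈ V := by
  have hc : IsCompact (flat 1 \ V) := (S4.cpt_flat 1).diff hV
  rcases (flat 1 \ V).eq_empty_or_nonempty with he | hne
  · refine ⟨1 / 200, ⟨by norm_num, by norm_num⟩, fun p hp _ => ?_⟩
    by_contra hpV
    have : p ∈ flat 1 \ V := ⟨hp, hpV⟩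
    rw [he] at this
    exact this
  · obtain ⟨q, hq, hmax⟩ := hc.exists_isMaxOn hne (R2.rsq_contDiff 1).continuous.continuousOn
    have hq1 : rsq 1 q < 1 / 25 := by
      refine lt_of_le_of_ne hq.1.2 fun h => hq.2 (hs ⟨hq.1.1, h⟩)
    refine ⟨min (1 / 200) ((1 / 25 - rsq 1 q) / 4), ⟨lt_min (by norm_num) (by linarith),
      (min_le_left _ _).trans_lt (by norm_num)⟩, fun p hp hpd => ?_⟩
    by_contra hpV
    have h1 : rsq 1 p ≤ rsq 1 q := hmax ⟨hp, hpV⟩
    have h2 := min_le_right (1 / 200 : ℝ) ((1 / 25 - rsq 1 q) / 4)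
    linarith

end AG

open AG in
/-- **AG.** -/
theorem m_AG (hADD : StADD2) (hT2 : StT2) (hT3 : StT3) (hT5 : StT5) (hT6 : StT6) (hImp : StImp)
    (hS4 : StS4) (hA1 : StA1) (hCI : StCI) : StAG := by
  obtain ⟨r, k1, k2, hr0, hr1', -, kap1, kap2, hoff, hfix, ht1, ht2, hadd⟩ :=
    hADD x2 (by rw [nsq_x2]; norm_num) (by rw [x2_re]; norm_num)
  rw [x2_abs8] at kap1 kap2
  rw [x2_abs2] at hfix
  refine ⟨r, k1, k2, hr0, hr1', kap1, kap2, hoff, hfix, ht1, ht2, ?_⟩
  intro J hloc hinj φ φ1 φ2 hφ hφ1 hφ2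
  obtain ⟨s41, s42, s43, s44, -, s46, s47, -, s49, -, -⟩ := hS4
  have hr1 : r ≤ 1 / 100 := by linarith
  have hk : ∀ k : R4 → R4, (k = k1 ∨ k = k2) → EmbOn 𝓘(ℝ, R4) k univ ∧ (∀ p, (k p).1 = p.1) ∧
        (∀ p ∈ ball4, k p ∈ ball4) ∧ (∀ p, 17 / 100 ≤ p.2.1 → k p = p) ∧
        (∀ p, rsq 0 p ≤ 1 / 25 → rsq 0 (k p) ≤ 1 / 25) ∧ Continuous k := by
    rintro k (rfl | rfl)
    · exact ⟨kap1.emb, kap1.fst, kap1.ball, fun p hp => (hoff p hp).1, kap1.small,
        kap1.smooth.continuous⟩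
    · exact ⟨kap2.emb, kap2.fst, kap2.ball, fun p hp => (hoff p hp).2, kap2.small,
        kap2.smooth.continuous⟩
  have hrr : r ^ 2 ≤ 1 / 10000 := by nlinarith
  have hrr0 : 0 < r ^ 2 := by positivity
  have tube_congr : ∀ (x₀ : R3) (ρ : ℝ) (p q : R4), p.2 = q.2 → p ∈ tube x₀ ρ → q ∈ tube x₀ ρ := by
    intro x₀ ρ p q h hp
    rw [mem_tube] at hp ⊢
    rw [← h]
    exact hp
  -- the compact set `Z`
  set Z : Set R4 := (flat 0 \ (tube 0 r ∪ tube x2 r)) ∪ neck ∪ sph 1 with hZ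
  have hZc : IsCompact Z :=
    (((S4.cpt_flat 0).diff ((isOpen_tube _ _).union (isOpen_tube _ _))).union S4.cpt_neck).union
      (S4.cpt_sph 1)
  have hZsub : Z ⊆ (flat 0 ∪ neck ∪ sph 1) \ {ax 0, (1 / 2, x2)} := by
    have hax : rsq 0 (ax 0) = 0 := by simp [ax, rsq, nsq]
    have hx : rsq 0 ((1 / 2, x2) : R4) = 1 / 100 := by rw [rsq_zero_eq]; exact nsq_x2
    intro p hp
    refine ⟨?_, ?_⟩
    · rcases hp with (hp | hp) | hp
      · exact Or.inl (Or.inl hp.1)
      · exact Or.inl (Or.inr hp)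
      · exact Or.inr hp
    · have h1 : (p = ax 0 ∨ p = (1 / 2, x2)) → rsq 0 p ≤ 1 / 100 := by
        rintro (h | h)
        · rw [h, hax]; norm_num
        · rw [h, hx]
      rintro (h | h)
      · have h2 := h1 (Or.inl h)
        rcases hp with (hp | hp) | hp
        · apply hp.2
          left
          rw [mem_tube0, h, hax]
          exact hrr0
        · have := (SP_rsq (Or.inr hp : p ∈ SP)).1
          linarith
        · have := (SP_rsq (Or.inl (Or.inr hp) : p ∈ SP)).1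
          linarith
      · have h3 : p = (1 / 2, x2) := h
        have h2 := h1 (Or.inr h3)
        rcases hp with (hp | hp) | hp
        · apply hp.2
          right
          rw [mem_tube, h3]
          simp only [sub_self]
          rw [nsq_zero']
          exact hrr0
        · have := (SP_rsq (Or.inr hp : p ∈ SP)).1
          linarith
        · have := (SP_rsq (Or.inl (Or.inr hp) : p ∈ SP)).1
          linarith
  have hJZ : ∀ p ∈ Z, LD J p := fun p hp => hloc p (hZsub hp).1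
  obtain ⟨Φ, hΦs, hΦe⟩ := hA1 R4 R4 R4 𝓘(ℝ, R4) R4 J Z hZc hJZ (hinj.mono hZsub)
  have hJV : EmbOn I4 J Φ.source := by
    refine ⟨fun p hp => ⟨Φ, hp, fun q hq => (hΦe q hq).symm⟩, ?_⟩
    intro p hp q hq h
    rw [← hΦe p hp, ← hΦe q hq] at h
    exact Φ.injOn hp hq h
  obtain ⟨δ, ⟨hδ0, hδ1⟩, hδV⟩ := collar Φ.source Φ.open_source
    (fun p hp => hΦs (Or.inr hp))
  set m₀ : R4 → R4 := rade δ 1 with hm₀
  have hf := qe_prf hδ0 (by linarith : δ < 1)
  have hm₀e : EmbOn I4 m₀ {p | 0 < rsq 1 p} := emb hδ0 (by linarith) 1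
  have hm₀id : ∀ p : R4, 1 / 25 - δ ≤ rsq 1 p → m₀ p = p := fun p hp => rade_id hδ0 hδ1 1 hp
  -- the compact set `L`
  set C : Set R4 := {p | p ∈ flat 1 ∧ 1 / 25 - 3 * δ ≤ rsq 1 p} with hC
  have hCc : IsCompact C :=
    (S4.cpt_flat 1).inter_right (isClosed_le continuous_const (R2.rsq_contDiff 1).continuous)
  set L : Set R4 := Z ∪ C with hL
  have hLc : IsCompact L := hZc.union hCc
  have hLFB : L ⊆ FB := by
    rintro p (((hp | hp) | hp) | hp)
    · exact Or.inl (Or.inl hp.1)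
    · exact Or.inr hp
    · exact Or.inl (Or.inr ⟨hp.1, hp.2.le⟩)
    · exact Or.inl (Or.inr hp.1)
  have hLV : L ⊆ Φ.source := by
    rintro p (hp | hp)
    · exact hΦs hp
    · exact hδV p hp.1 hp.2
  have hJL : EmbOn I4 J L := mono hJV hLV
  have hSPZ : SP ⊆ Z := by
    rintro p ((hp | hp) | hp)
    · refine Or.inl (Or.inl ⟨⟨hp.1, hp.2.le⟩, ?_⟩)
      rintro (h | h)
      · rw [mem_tube0, hp.2] at h
        linarith
      · rw [mem_tube] at h
        have h1 := nsq_parallel (p.2 - x2) x2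
        rw [sub_add_cancel, ← rsq_zero_eq, nsq_x2, hp.2] at h1
        linarith
    · exact Or.inr hp
    · exact Or.inl (Or.inr hp)
  have hSPL : SP ⊆ L := hSPZ.trans subset_union_left
  -- the compact set `K`
  set K : Set R4 := ball4 \ (tube (1, 0) (3 / 20) ∪ tube 0 r ∪ tube x2 r) with hK
  have hKc : IsCompact K :=
    isCompact_ball4.diff (((isOpen_tube _ _).union (isOpen_tube _ _)).union (isOpen_tube _ _))
  have hK1 : ∀ p ∈ K, 0 < rsq 1 p := by
    rintro p ⟨-, hp⟩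
    have h1 : p ∉ tube (1, 0) (3 / 20) := fun h => hp (Or.inl (Or.inl h))
    rw [mem_tube1, not_lt] at h1
    exact lt_of_lt_of_le (by norm_num) h1
  have hEK : EmbOn I4 m₀ K := mono hm₀e hK1
  have hsq : ∀ p ∈ K, sq 0 (m₀ p) ∈ L := by
    intro p hp
    have hp1 := hK1 p hp
    rcases le_or_gt (rsq 1 p) (1 / 25) with h | h
    · have e1 : rsq 1 (m₀ p) = qe δ (rsq 1 p) := rsq_rad hf 1 p hp1
      have e2 : rsq 1 (m₀ p) ≤ 1 / 25 := by
        rw [e1]
        have := hf.mono.monotone h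
        rwa [qe_eq hδ0 (q := 1 / 25) (by linarith)] at this
      have e3 : 1 / 25 - 3 * δ ≤ rsq 1 (m₀ p) := by
        rw [e1]
        exact qe_low hδ0 hδ1 hp1.le
      rw [s43 (m₀ p) (Or.inr (Or.inl e2))]
      have e4 : rsq 1 ((1 / 2, (m₀ p).2) : R4) = rsq 1 (m₀ p) := rsq_congr rfl
      exact Or.inr ⟨⟨rfl, by rw [e4]; exact e2⟩, by rw [e4]; exact e3⟩
    · rw [hm₀id p (by linarith)]
      rcases lt_or_ge (rsq 0 p) (1 / 25) with h0 | h0
      · rw [s43 p (Or.inl h0.le)]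
        have e4 : rsq 0 ((1 / 2, p.2) : R4) = rsq 0 p := rsq_congr rfl
        refine Or.inl (Or.inl (Or.inl ⟨⟨rfl, by rw [e4]; exact h0.le⟩, ?_⟩))
        rintro (h2 | h2)
        · exact hp.2 (Or.inl (Or.inr (tube_congr _ _ _ _ rfl h2)))
        · exact hp.2 (Or.inr (tube_congr _ _ _ _ rfl h2))
      · exact hSPL (s41 p ⟨by norm_num at h0 ⊢; linarith, by norm_num at h ⊢; linarith⟩)
  have hidExt : ∀ p ∈ Pool.Agent.Helper18.BI.Ext, m₀ p = p := fun p hp =>
    hm₀id p (by have := hp.2; norm_num at this ⊢; linarith)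
  have hidSP : ∀ p ∈ SP, m₀ p = p := fun p hp => hm₀id p (by linarith [(SP_rsq hp).2])
  set K' : Set R4 := m₀ '' K with hK'
  have hK'c : IsCompact K' := hKc.image_of_continuousOn (cont hEK)
  have hsqL : ∀ p ∈ K', sq 0 p ∈ L := by
    rintro _ ⟨q, hq, rfl⟩
    exact hsq q hq
  have hJSP : EmbOn I4 J SP := mono hJL hSPL
  -- inclusion in K
  have hExtK : ∀ k : R4 → R4, (k = k1 ∨ k = k2) → MapsTo k EB K := by
    intro k hkk p hp
    obtain ⟨hkE, hkf, hkb, hki, hkr, -⟩ := hk k hkk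
    have hp0 : 1 / 25 ≤ rsq 0 p := by have := hp.2.1; norm_num at this ⊢; linarith
    have hp1 : 1 / 25 ≤ rsq 1 p := by have := hp.2.2; norm_num at this ⊢; linarith
    refine ⟨hkb p hp.1, ?_⟩
    have hn0 : p ∉ tube 0 r := by rw [mem_tube0]; linarith
    have hn2 : p ∉ tube x2 r := by
      rw [mem_tube]
      have h1 := nsq_parallel (p.2 - x2) x2
      rw [sub_add_cancel, ← rsq_zero_eq, nsq_x2] at h1
      linarith
    rintro ((h | h) | h)
    · rw [mem_tube1] at h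
      have h1 : 17 / 20 ≤ (k p).2.1 := by
        have := sq_le_rsq 1 (k p)
        nlinarith
      have h2 := hki (k p) (by linarith)
      have h3 := hkE.2 (mem_univ _) (mem_univ _) h2
      rw [h3] at h
      linarith
    · rcases hkk with rfl | rfl
      · exact hn0 (ht1 p h)
      · exact kap2.away p hp.1 h
    · rcases hkk with rfl | rfl
      · exact kap1.away p hp.1 h
      · exact hn2 (ht2 p h)
  have hkSP1 : ∀ k : R4 → R4, (k = k1 ∨ k = k2) → ∀ p ∈ SP, 1 / 25 ≤ rsq 1 (k p) := by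
    intro k hkk p hp
    obtain ⟨hkE, hkf, hkb, hki, hkr, -⟩ := hk k hkk
    rcases hp with (h | h) | h
    · have h3 : rsq 0 (k p) ≤ 1 / 25 := hkr p h.2.le
      have := rsq1_of (le15 h3)
      linarith
    · have h3 := le45 h.2.le
      rw [hki p (by linarith)]
      exact h.2.ge
    · rw [hki p (by linarith [h.2.1])]
      exact (SP_rsq (Or.inr h : p ∈ SP)).2
  have hm : ∀ k : R4 → R4, (k = k1 ∨ k = k2) →
      EmbOn 𝓘(ℝ, R4) (fun p => m₀ (k p)) EB ∧ MapsTo (fun p => m₀ (k p)) SP L := by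
    intro k hkk
    obtain ⟨hkE, hkf, hkb, hki, hkr, -⟩ := hk k hkk
    refine ⟨comp hEK (mono hkE (subset_univ _)) (hExtK k hkk), ?_⟩
    intro p hp
    have hkK := hExtK k hkk (s46 hp)
    show m₀ (k p) ∈ L
    rw [hm₀id _ (by linarith [hkSP1 k hkk p hp])]
    rcases hp with (h | h) | h
    · refine Or.inl (Or.inl (Or.inl ⟨⟨by rw [hkf]; exact h.1, hkr p h.2.le⟩, ?_⟩))
      rintro (h2 | h2)
      · exact hkK.2 (Or.inl (Or.inr h2))
      · exact hkK.2 (Or.inr h2)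
    · have h3 := le45 h.2.le
      rw [hki p (by linarith)]
      exact hSPL (Or.inl (Or.inr h))
    · rw [hki p (by linarith [h.2.1])]
      exact hSPL (Or.inr h)
  -- choice of ε
  obtain ⟨ε₁, hε₁, hT6'⟩ := hT6 R4 R4 𝓘(ℝ, R4) R4 J K' L hK'c hLc hsqL hJL
  obtain ⟨hT2i, hT2ii, -, -, hT2v, -, -⟩ := hT2 R4 R4 𝓘(ℝ, R4) R4
  obtain ⟨ε₂, hε₂, hT2'⟩ := hT2i J hJSP
  obtain ⟨ε₃, hε₃, hT51⟩ := hT5 R4 R4 𝓘(ℝ, R4) R4 J (fun p => m₀ (k1 p)) L hLc hLFB hJL
    (mono (hm k1 (Or.inl rfl)).1 s46) (hm k1 (Or.inl rfl)).2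
  obtain ⟨ε₄, hε₄, hT52⟩ := hT5 R4 R4 𝓘(ℝ, R4) R4 J (fun p => m₀ (k2 p)) L hLc hLFB hJL
    (mono (hm k2 (Or.inr rfl)).1 s46) (hm k2 (Or.inr rfl)).2
  obtain ⟨ε, hε0, hε⟩ : ∃ ε : ℝ, 0 < ε ∧ ε < min (min ε₁ ε₂) (min ε₃ ε₄) :=
    exists_between (lt_min (lt_min hε₁ hε₂) (lt_min hε₃ hε₄))
  have hεa : ε ∈ Ioo 0 ε₁ := ⟨hε0, hε.trans_le ((min_le_left _ _).trans (min_le_left _ _))⟩
  have hεb : ε ∈ Ioo 0 ε₂ := ⟨hε0, hε.trans_le ((min_le_left _ _).trans (min_le_right _ _))⟩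
  have hεc : ε ∈ Ioo 0 ε₃ := ⟨hε0, hε.trans_le ((min_le_right _ _).trans (min_le_left _ _))⟩
  have hεd : ε ∈ Ioo 0 ε₄ := ⟨hε0, hε.trans_le ((min_le_right _ _).trans (min_le_right _ _))⟩
  have hGs : EmbOn 𝓘(ℝ, R4) (J ∘ sq ε) K' := (hT6' ε hεa).1
  have hF : EmbOn 𝓘(ℝ, R4) (fun p => J (sq ε (m₀ p))) K :=
    comp (c := J ∘ sq ε) (F := m₀) hGs hEK (mapsTo_image _ _)
  have hcis := hadd R4 R4 𝓘(ℝ, R4) R4 (fun p => J (sq ε (m₀ p))) hF
  -- `bsupp ⊆ K`
  have hbK : bsupp ⊆ K := by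
    intro p hp
    have hpE := s47 hp
    have hp0 : 1 / 25 ≤ rsq 0 p := by have := hpE.2.1; norm_num at this ⊢; linarith
    have hp1 : 1 / 25 ≤ rsq 1 p := by have := hpE.2.2; norm_num at this ⊢; linarith
    refine ⟨hpE.1, ?_⟩
    rintro ((h | h) | h)
    · rw [mem_tube1] at h; linarith
    · rw [mem_tube0] at h; linarith
    · rw [mem_tube] at h
      have h1 := nsq_parallel (p.2 - x2) x2
      rw [sub_add_cancel, ← rsq_zero_eq, nsq_x2] at h1
      linarith
  have himpF : imp (fun p => J (sq ε (m₀ p))) bsupp barMap = imp (J ∘ sq ε) bsupp barMap := by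
    obtain ⟨-, -, -, -, -, h6, -⟩ := hImp R4 R4 𝓘(ℝ, R4) R4 (fun p => J (sq ε (m₀ p))) bsupp
      barMap (hF.2.mono hbK)
    apply h6 (J ∘ sq ε) _ maps_bar
    intro p hp
    simp only [Function.comp]
    rw [hidExt p (s47 hp).2]
  obtain ⟨-, -, -, hCItrans, hCIprod, -⟩ := hCI R4 R4 𝓘(ℝ, R4) R4
  have hthin : ∀ k : R4 → R4, (k = k1 ∨ k = k2) → Thin 𝓘(ℝ, R4) (fun p => J (sq ε (m₀ (k p))))
      (imp (fun p => J (sq ε (m₀ (k p)))) bsupp barMap) := by
    intro k hkk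
    apply hT3 R4 R4 𝓘(ℝ, R4) R4
    exact comp (c := fun p => J (sq ε (m₀ p))) (F := k) hF (mono (hk k hkk).1 (subset_univ _))
      (hExtK k hkk)
  -- `J ∘ m₀ ∘ k = J ∘ k` near `SP`
  have hnear : ∀ k : R4 → R4, (k = k1 ∨ k = k2) → ∀ ψ : R4 → R4,
      Thin 𝓘(ℝ, R4) (fun p => J (m₀ (k p))) ψ → Thin 𝓘(ℝ, R4) (fun p => J (k p)) ψ := by
    intro k hkk ψ hψ
    refine hT2v (fun p => J (m₀ (k p))) (fun p => J (k p)) {p | 1 / 25 - δ < rsq 1 (k p)} ψ
      ?_ ?_ ?_ hψ
    · exact isOpen_lt continuous_const ((R2.rsq_contDiff 1).continuous.comp (hk k hkk).2.2.2.2.2)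
    · intro p hp
      have := hkSP1 k hkk p hp
      show 1 / 25 - δ < rsq 1 (k p)
      linarith
    · intro p hp
      have hp' : 1 / 25 - δ < rsq 1 (k p) := hp
      show J (m₀ (k p)) = J (k p)
      rw [hm₀id _ hp'.le]
  have hth1 := hnear k1 (Or.inl rfl) _ ((hT51 ε hεc _).1 (hthin k1 (Or.inl rfl)))
  have hth2 := hnear k2 (Or.inr rfl) _ ((hT52 ε hεd _).1 (hthin k2 (Or.inr rfl)))
  have hc1 := hT2ii (fun p => J (k1 p)) _ _ hth1 hφ1
  have hc2 := hT2ii (fun p => J (k2 p)) _ _ hth2 hφ2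
  have h1 := hT2ii J φ _ hφ (hT2' ε hεb)
  rw [← himpF] at h1
  exact hCItrans _ _ _ (hCItrans _ _ _ h1 hcis) (hCIprod _ _ _ _ hc2 hc1)

end Pool.Agent.Helper70.BI


end

/-! ## Helper70.BI.M_XC -/

section

/-!
# Project BI, module XC: extended cores
-/

set_option autoImplicit false

open scoped Manifold ContDiff Topology ComplexConjugate
open Set Filter Pool.Agent.Helper65.Barb Pool.Agent.Helper18.BI

namespace Pool.Agent.Helper70.BI

namespace XC

theorem ax_contDiff : ContDiff ℝ ∞ ax :=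
  contDiff_const.prodMk (contDiff_id.prodMk contDiff_const)

theorem ax_hasDerivAt (u : ℝ) : HasDerivAt ax ((0, (1, 0)) : R4) u := by
  have h1 : HasDerivAt (fun _ : ℝ => (1 / 2 : ℝ)) 0 u := hasDerivAt_const u _
  have h2 : HasDerivAt (fun x : ℝ => x) 1 u := hasDerivAt_id u
  have h3 : HasDerivAt (fun _ : ℝ => (0 : ℂ)) 0 u := hasDerivAt_const u _
  exact h1.prodMk (h2.prodMk h3)

theorem v_ne : ((0, (1, 0)) : R4) ≠ 0 := by
  intro h
  have h8 := congrArg (fun p : R4 => p.2.1) h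
  simp at h8

theorem ax_inj {a b : ℝ} (h : ax a = ax b) : a = b := congrArg (fun p : R4 => p.2.1) h

theorem norm_strand (d a : ℝ) (hd : d = 1 ∨ d = -1) :
    ‖((1 / 2 + d * (a - 2 / 5), pc 1) : R4) - ax 1‖ = |a - 2 / 5| := by
  have h1 : ((1 / 2 + d * (a - 2 / 5), pc 1) : R4) - ax 1 = (d * (a - 2 / 5), 0) := by
    simp only [ax, pc, Prod.mk_sub_mk, sub_self]
    ring_nf
  have hd1 : |d| = 1 := by rcases hd with h | h <;> rw [h] <;> norm_num
  rw [h1, Prod.norm_mk, norm_zero, Real.norm_eq_abs, abs_mul, hd1, one_mul,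
    max_eq_left (abs_nonneg _)]

theorem norm_ax (a : ℝ) : ‖ax a - ax 1‖ = |a - 1| := by
  have h1 : ax a - ax 1 = ((0, (a - 1, 0)) : R4) := by
    simp only [ax, Prod.mk_sub_mk, sub_self]
  rw [h1, Prod.norm_mk, Prod.norm_mk, norm_zero, norm_zero, Real.norm_eq_abs,
    max_eq_left (abs_nonneg (a - 1)), max_eq_right (abs_nonneg (a - 1))]

theorem ax_SP {a : ℝ} (h0 : 1 / 5 ≤ a) (h1 : a ≤ 4 / 5) : ax a ∈ SP := Or.inr ⟨rfl, h0, h1, rfl⟩

theorem rsq_ax (c a : ℝ) : rsq c (ax a) = (a - c) ^ 2 := by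
  simp [rsq, nsq, ax]

theorem ax_flat {a : ℝ} (h0 : 4 / 5 ≤ a) (h1 : a ≤ 1) : ax a ∈ flat 1 := by
  refine ⟨rfl, ?_⟩
  rw [rsq_ax]
  nlinarith

theorem ax_sph {a : ℝ} (h : ax a ∈ sph 0) (h0 : 0 ≤ a) : a = 1 / 5 := by
  have h1 := h.2
  rw [rsq_ax] at h1
  nlinarith

theorem ax_mem_sph : ax (1 / 5) ∈ sph 0 := ⟨rfl, by rw [rsq_ax]; norm_num⟩

/-- the cut off core -/
noncomputable def ecut (F : R4 → R4) (ν μ a : ℝ) : R4 :=
  if a < 1 - μ / 2 then Real.smoothTransition ((a - (1 / 5 - 2 * ν / 3)) / (ν / 3)) • F (ax a)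
  else ax a

theorem psi_one {ν a : ℝ} (hν : 0 < ν) (h : 1 / 5 - ν / 3 ≤ a) :
    Real.smoothTransition ((a - (1 / 5 - 2 * ν / 3)) / (ν / 3)) = 1 := by
  apply Real.smoothTransition.one_of_one_le
  rw [le_div_iff₀ (by positivity)]
  linarith

theorem psi_zero {ν a : ℝ} (hν : 0 < ν) (h : a ≤ 1 / 5 - 2 * ν / 3) :
    Real.smoothTransition ((a - (1 / 5 - 2 * ν / 3)) / (ν / 3)) = 0 := by
  apply Real.smoothTransition.zero_of_nonpos
  apply div_nonpos_of_nonpos_of_nonneg <;> linarith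

theorem cut_high {F : R4 → R4} {ν μ δ : ℝ} (hν : 0 < ν) (hμ : 0 < μ) (hμδ : μ ≤ δ)
    (hδ : δ ≤ 1 / 100) (hnear : ∀ p, ‖p - ax 1‖ < δ → F p = p) {a : ℝ} (ha : 1 - μ < a) :
    ecut F ν μ a = ax a := by
  unfold ecut
  split_ifs with h
  · rw [psi_one hν (by linarith), one_smul]
    apply hnear
    rw [norm_ax, abs_lt]
    constructor <;> linarith
  · rfl

theorem cut_core {F : R4 → R4} {ν μ δ : ℝ} (hν : 0 < ν) (hμ : 0 < μ) (hμδ : μ ≤ δ)
    (hnear : ∀ p, ‖p - ax 1‖ < δ → F p = p) {a : ℝ} (ha : 1 / 5 - ν / 3 ≤ a) (ha1 : a ≤ 1) :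
    ecut F ν μ a = F (ax a) := by
  unfold ecut
  split_ifs with h
  · rw [psi_one hν (by linarith), one_smul]
  · push Not at h
    symm
    apply hnear
    rw [norm_ax, abs_lt]
    constructor <;> linarith

theorem cut_smooth {F : R4 → R4} {ν μ δ : ℝ} (hν : 0 < ν) (hμ : 0 < μ) (hμδ : μ ≤ δ)
    (hδ : δ ≤ 1 / 100) (hnear : ∀ p, ‖p - ax 1‖ < δ → F p = p)
    (hsm : ∀ a, 1 / 5 - ν < a → a ≤ 1 → ContDiffAt ℝ ∞ F (ax a)) :
    ContDiff ℝ ∞ (ecut F ν μ) := by
  rw [contDiff_iff_contDiffAt]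
  intro a
  rcases lt_or_ge (1 - μ) a with h1 | h1
  · have h2 : ecut F ν μ =ᶠ[𝓝 a] ax := by
      filter_upwards [lt_mem_nhds h1] with b hb
      exact cut_high hν hμ hμδ hδ hnear hb
    exact ax_contDiff.contDiffAt.congr_of_eventuallyEq h2
  · have h2 : ecut F ν μ =ᶠ[𝓝 a]
        fun a => Real.smoothTransition ((a - (1 / 5 - 2 * ν / 3)) / (ν / 3)) • F (ax a) := by
      filter_upwards [gt_mem_nhds (show a < 1 - μ / 2 by linarith)] with b hb
      unfold ecut
      rw [if_pos hb]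
    refine ContDiffAt.congr_of_eventuallyEq ?_ h2
    rcases lt_or_ge (1 / 5 - ν) a with h3 | h3
    · have h5 : ContDiff ℝ ∞ (fun a : ℝ =>
          Real.smoothTransition ((a - (1 / 5 - 2 * ν / 3)) / (ν / 3))) :=
        Real.smoothTransition.contDiff.comp ((contDiff_id.sub contDiff_const).div_const _)
      exact h5.contDiffAt.smul ((hsm a h3 (by linarith)).comp a ax_contDiff.contDiffAt)
    · have h4 : (fun a => Real.smoothTransition ((a - (1 / 5 - 2 * ν / 3)) / (ν / 3)) • F (ax a))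
          =ᶠ[𝓝 a] fun _ => (0 : R4) := by
        filter_upwards [gt_mem_nhds (show a < 1 / 5 - 2 * ν / 3 by linarith)] with b hb
        rw [psi_zero hν hb.le, zero_smul]
      exact contDiffAt_const.congr_of_eventuallyEq h4

theorem cut_imm {F : R4 → R4} {ν μ δ : ℝ} (hν : 0 < ν) (hμ : 0 < μ) (hμδ : μ ≤ δ)
    (hδ : δ ≤ 1 / 100) (hnear : ∀ p, ‖p - ax 1‖ < δ → F p = p)
    (hld : ∀ a, 1 / 5 ≤ a → a ≤ 1 → LD F (ax a)) {a : ℝ} (h0 : 1 / 5 ≤ a) (h1 : a ≤ 1) :
    deriv (ecut F ν μ) a ≠ 0 := by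
  rcases lt_or_ge (1 - μ) a with h2 | h2
  · have h3 : ecut F ν μ =ᶠ[𝓝 a] ax := by
      filter_upwards [lt_mem_nhds h2] with b hb
      exact cut_high hν hμ hμδ hδ hnear hb
    rw [h3.deriv_eq, (ax_hasDerivAt a).deriv]
    exact v_ne
  · have h3 : ecut F ν μ =ᶠ[𝓝 a] fun a => F (ax a) := by
      filter_upwards [lt_mem_nhds (show 1 / 5 - ν / 3 < a by linarith),
        gt_mem_nhds (show a < 1 by linarith)] with b hb hb'
      exact cut_core hν hμ hμδ hnear hb.le hb'.le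
    have h4 := ld_iff.1 (hld a h0 h1)
    have h5 : HasDerivAt (fun a => F (ax a)) (fderiv ℝ F (ax a) ((0, (1, 0)) : R4)) a :=
      (((h4.1.self_of_nhds).differentiableAt (by simp)).hasFDerivAt).comp_hasDerivAt a
        (ax_hasDerivAt a)
    rw [h3.deriv_eq, h5.deriv]
    intro h6
    exact v_ne (h4.2 (by rw [h6, map_zero]))

/-- everything except the last field -/
theorem xcore {F : R4 → R4} {d δ r ν μ : ℝ} {S : Set R4} (hν : 0 < ν)
    (hμ : 0 < μ) (hμδ : μ ≤ δ) (nb : NB 1 F (2 / 5) d δ) (hS : S = F '' sph 0)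
    (hsm : ∀ a, 1 / 5 - ν < a → a ≤ 1 → ContDiffAt ℝ ∞ F (ax a))
    (hball : ∀ a ∈ Icc (2 / 5 - 3 / 4 * r) (2 / 5 : ℝ), ‖ecut F ν μ a - ax 1‖ < r) :
    XCore F S d μ r (ecut F ν μ) := by
  have br := nb.br
  have hδ := nb.small
  have hnear := nb.near
  have hinjF : InjOn F (flat 1 ∪ sph 0) := by
    have := br.injF
    rwa [sub_self] at this
  have hcore : ∀ a, 1 / 5 ≤ a → a ≤ 1 → ecut F ν μ a = F (ax a) := fun a h0 h1 =>
    cut_core hν hμ hμδ hnear (by linarith) h1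
  have hF1 : F (ax 1) = ax 1 := hnear _ (by rw [sub_self, norm_zero]; exact nb.pos)
  have hF2 : F (ax (2 / 5)) = ax 1 := by
    have := nb.str (2 / 5) (by rw [sub_self, abs_zero]; exact nb.pos)
    rw [sub_self, mul_zero, add_zero] at this
    exact this
  have honly : ∀ a, 1 / 5 ≤ a → a ≤ 4 / 5 → ∀ p ∈ flat 1, F (ax a) = F p →
      a = 4 / 5 ∨ a = 2 / 5 := by
    intro a h0 h1 p hp h
    rcases br.only a ⟨h0, h1⟩ ⟨p, hp, h.symm⟩ with h2 | h2
    · left
      rw [h2]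
      norm_num
    · exact Or.inr h2
  have hmix : ∀ a b, 1 / 5 ≤ a → a < 4 / 5 → 4 / 5 ≤ b → b < 1 → F (ax a) ≠ F (ax b) := by
    intro a b h0 h1 h2 h3 h
    rcases honly a h0 h1.le _ (ax_flat h2 h3.le) h with h4 | h4
    · linarith
    · rw [h4, hF2, ← hF1] at h
      have := ax_inj (hinjF (Or.inl (ax_flat (by norm_num) le_rfl)) (Or.inl (ax_flat h2 h3.le)) h)
      linarith
  refine ⟨cut_smooth hν hμ hμδ hδ hnear hsm, fun a ha => hcore a ha.1 ha.2,
    fun a ha => cut_high hν hμ hμδ hδ hnear ha, ?_, ?_, ?_, ?_, ?_, hball⟩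
  · intro a ha
    rw [abs_lt] at ha
    rw [hcore a (by linarith [ha.1]) (by linarith [ha.2])]
    exact nb.str a (by rw [abs_lt]; constructor <;> linarith [ha.1, ha.2])
  · intro a ha b hb h
    rw [hcore a ha.1 ha.2.le, hcore b hb.1 hb.2.le] at h
    rcases lt_or_ge a (4 / 5) with h1 | h1
    · rcases lt_or_ge b (4 / 5) with h2 | h2
      · exact ax_inj (br.inj (ax_SP ha.1 h1.le) (ax_SP hb.1 h2.le) h)
      · exact absurd h (hmix a b ha.1 h1 h2 hb.2)
    · rcases lt_or_ge b (4 / 5) with h2 | h2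
      · exact absurd h.symm (hmix b a hb.1 h2 h1 ha.2)
      · exact ax_inj (hinjF (Or.inl (ax_flat h1 ha.2.le)) (Or.inl (ax_flat h2 hb.2.le)) h)
  · intro a ha h
    rw [hcore a ha.1 ha.2.le, ← hF1] at h
    have h1f : ax 1 ∈ flat 1 := ax_flat (by norm_num) le_rfl
    rcases lt_or_ge a (4 / 5) with h1 | h1
    · rcases honly a ha.1 h1.le _ h1f h with h2 | h2
      · linarith
      · exact h2
    · have := ax_inj (hinjF (Or.inl (ax_flat h1 ha.2.le)) (Or.inl h1f) h)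
      linarith [ha.2]
  · intro a ha
    refine cut_imm hν hμ hμδ hδ hnear ?_ ha.1 ha.2
    intro b h0 h1
    rcases le_or_gt b (4 / 5) with h2 | h2
    · exact br.loc _ (Or.inl (ax_SP h0 h2))
    · exact br.loc _ (Or.inr (ax_flat h2.le h1))
  · intro a ha h
    rw [hS, hcore a ha.1.le ha.2.le] at h
    obtain ⟨p, hp, hpa⟩ := h
    rcases lt_or_ge a (4 / 5) with h1 | h1
    · have h2 := br.inj (Or.inl (Or.inl hp)) (ax_SP ha.1.le h1.le) hpa
      rw [h2] at hp
      have := ax_sph hp (by linarith [ha.1])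
      linarith [ha.1]
    · have h2 := hinjF (Or.inr hp) (Or.inl (ax_flat h1 ha.2.le)) hpa
      rw [h2] at hp
      have := ax_sph hp (by linarith [ha.1])
      linarith [ha.1]

/-- smoothness to the left of the foot -/
theorem left_smooth {F : R4 → R4} {d γ : ℝ} (br : Br 1 F γ d) :
    ∃ ν > 0, ∀ ν' ≤ ν, ∀ a, 1 / 5 - ν' < a → a ≤ 1 → ContDiffAt ℝ ∞ F (ax a) := by
  have h1 := (ld_iff.1 (br.loc _ (Or.inl (ax_SP (a := 1 / 5) le_rfl (by norm_num))))).1
  have h2 := ax_contDiff.continuous.continuousAt.eventually h1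
  obtain ⟨ν, hν, h3⟩ := Metric.eventually_nhds_iff.1 h2
  refine ⟨ν, hν, fun ν' hν' a h4 h5 => ?_⟩
  rcases lt_or_ge a (1 / 5) with h6 | h6
  · apply h3
    rw [Real.dist_eq, abs_lt]
    constructor <;> linarith
  · rcases le_or_gt a (4 / 5) with h7 | h7
    · exact (ld_iff.1 (br.loc _ (Or.inl (ax_SP h6 h7)))).1.self_of_nhds
    · exact (ld_iff.1 (br.loc _ (Or.inr (ax_flat h7.le h5)))).1.self_of_nhds

end XC

open XC in
/-- **XC.** -/
theorem m_XC : StXC := by
  intro F F' d δ δ' r hd hL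
  obtain ⟨U, hU, hsU, hFU⟩ := hL.near
  obtain ⟨ν₁, hν₁, hs₁⟩ := left_smooth hL.nb.br
  obtain ⟨ν₂, hν₂, hs₂⟩ := left_smooth hL.nb'.br
  have h1 : ∀ᶠ a in 𝓝 (1 / 5 : ℝ), ax a ∈ U :=
    ax_contDiff.continuous.continuousAt.eventually_mem (hU.mem_nhds (hsU ax_mem_sph))
  obtain ⟨ν₃, hν₃, h2⟩ := Metric.eventually_nhds_iff.1 h1
  obtain ⟨ν, hν, hνa, hνb, hνc⟩ : ∃ ν : ℝ, 0 < ν ∧ ν ≤ ν₁ ∧ ν ≤ ν₂ ∧ ν ≤ ν₃ :=
    ⟨min ν₁ (min ν₂ ν₃), lt_min hν₁ (lt_min hν₂ hν₃), min_le_left _ _,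
      (min_le_right _ _).trans (min_le_left _ _), (min_le_right _ _).trans (min_le_right _ _)⟩
  have hr := hL.pos
  have hrδ := hL.lt
  have hδ := hL.nb.small
  have hμ : 0 < min δ δ' := lt_min hL.nb.pos hL.nb'.pos
  have hμ1 : min δ δ' ≤ δ := min_le_left _ _
  have hμ2 : min δ δ' ≤ δ' := min_le_right _ _
  have hSS : F '' sph 0 = F' '' sph 0 := (hFU.mono hsU).image_eq
  have hb : ∀ a ∈ Icc (2 / 5 - 3 / 4 * r) (2 / 5 : ℝ), ‖core F a - ax 1‖ < r := by
    intro a ha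
    have h3 : |a - 2 / 5| ≤ 3 / 4 * r := by
      rw [abs_le]
      constructor <;> linarith [ha.1, ha.2]
    rw [hL.nb.str a (by linarith), norm_strand d a hd]
    linarith
  refine ⟨ecut F ν (min δ δ'), ecut F' ν (min δ δ'), min δ δ', hμ, hμ1, hμ2,
    xcore hν hμ hμ1 hL.nb rfl (hs₁ ν hνa) ?_, xcore hν hμ hμ2 hL.nb' hSS (hs₂ ν hνb) ?_, ?_⟩
  · intro a ha
    rw [cut_core hν hμ hμ1 hL.nb.near (by linarith [ha.1]) (by linarith [ha.2])]
    exact hb a ha
  · intro a ha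
    rw [cut_core hν hμ hμ2 hL.nb'.near (by linarith [ha.1]) (by linarith [ha.2])]
    rcases le_or_gt a (2 / 5 - r / 2) with h3 | h3
    · have h4 := hL.low a ⟨by linarith [ha.1], h3⟩
      have h5 : F' (ax a) = core F a := h4
      rw [h5]
      exact hb a ha
    · exact hL.high a ⟨h3.le, by linarith [ha.2]⟩
  · intro a ha
    have h3 : a < 1 - min δ δ' / 2 := by linarith
    unfold ecut
    rw [if_pos h3, if_pos h3]
    rcases le_or_gt a (1 / 5 - 2 * ν / 3) with h4 | h4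
    · rw [psi_zero hν h4, zero_smul, zero_smul]
    · rcases lt_or_ge a (1 / 5) with h5 | h5
      · have h6 : ax a ∈ U := h2 (by
          rw [Real.dist_eq, abs_lt]
          constructor <;> linarith)
        rw [hFU h6]
      · have h6 : F' (ax a) = F (ax a) := hL.low a ⟨h5, ha⟩
        rw [h6]

end Pool.Agent.Helper70.BI


end

/-! ## Helper18.BI.R.M_MOVE -/

section

/-!
# Project BI, stage 4 (R), module MOVE: moving a point of the bar
-/

set_option autoImplicit false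

open scoped Manifold ContDiff Topology ComplexConjugate
open Set Pool.Agent.Helper65.Barb Pool.Agent.Helper18.BI
open Pool.Agent.Helper70.BI (I4 IsW MW)
open Pool.Agent.Helper27.H (ArcD StArcH)
open Pool.Agent.Helper18.BI.H

namespace Pool.Agent.Helper18.BI.R

namespace MOVE

/-- the bump function -/
noncomputable def lam (a η : ℝ) (p : R4) : ℝ :=
  max 0 (1 - (|p.2.1 - a| + |p.1 - 1 / 2| + ‖p.2.2‖) / η)

/-- the motion -/
noncomputable def mot (a b η : ℝ) (z : ℝ × R4) : R4 :=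
  (z.2.1, (z.2.2.1 + max 0 (min 1 z.1) * lam a η z.2 * (b - a), z.2.2.2))

/-- the box -/
def box (a b η : ℝ) : Set R4 :=
  Icc (1 / 2 - η) (1 / 2 + η) ×ˢ (Icc (min a b - η) (max a b + η) ×ˢ Metric.closedBall (0 : ℂ) η)

theorem continuous_lam (a η : ℝ) : Continuous (lam a η) := by
  unfold lam
  fun_prop

theorem continuous_mot (a b η : ℝ) : Continuous (mot a b η) := by
  have h := continuous_lam a η
  unfold mot
  fun_prop

theorem isCompact_box (a b η : ℝ) : IsCompact (box a b η) :=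
  isCompact_Icc.prod (isCompact_Icc.prod (isCompact_closedBall _ _))

theorem lam_nonneg (a η : ℝ) (p : R4) : 0 ≤ lam a η p := le_max_left _ _

theorem lam_le_one {a η : ℝ} (hη : 0 < η) (p : R4) : lam a η p ≤ 1 := by
  unfold lam
  refine max_le zero_le_one ?_
  have : 0 ≤ (|p.2.1 - a| + |p.1 - 1 / 2| + ‖p.2.2‖) / η := by positivity
  linarith

/-- where the bump function is nonzero -/
theorem lam_pos {a η : ℝ} (hη : 0 < η) {p : R4} (h : lam a η p ≠ 0) :
    |p.2.1 - a| + |p.1 - 1 / 2| + ‖p.2.2‖ < η := by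
  by_contra hc
  push Not at hc
  apply h
  unfold lam
  refine max_eq_left ?_
  have : 1 ≤ (|p.2.1 - a| + |p.1 - 1 / 2| + ‖p.2.2‖) / η := by
    rw [le_div_iff₀ hη]
    linarith
  linarith

theorem mem_box {a b η : ℝ} {p : R4} (h1 : |p.1 - 1 / 2| ≤ η) (h2 : min a b - η ≤ p.2.1)
    (h3 : p.2.1 ≤ max a b + η) (h4 : ‖p.2.2‖ ≤ η) : p ∈ box a b η := by
  have h5 := abs_le.1 h1
  refine ⟨⟨?_, ?_⟩, ⟨h2, h3⟩, ?_⟩
  · linarith [h5.1]
  · linarith [h5.2]
  · rwa [mem_closedBall_zero_iff]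

theorem lam_off {a b η : ℝ} (hη : 0 < η) {p : R4} (h : p ∉ box a b η) : lam a η p = 0 := by
  by_contra hc
  have h1 := lam_pos hη hc
  have h2 := abs_nonneg (p.2.1 - a)
  have h3 := abs_nonneg (p.1 - 1 / 2)
  have h4 := norm_nonneg p.2.2
  have h5 : |p.2.1 - a| < η := by linarith
  have h6 := abs_lt.1 h5
  exact h (mem_box (by linarith) (by linarith [min_le_left a b, h6.1])
    (by linarith [le_max_left a b, h6.2]) (by linarith))

theorem mot_off {a b η : ℝ} (hη : 0 < η) {p : R4} (h : p ∉ box a b η) (t : ℝ) :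
    mot a b η (t, p) = p := by
  unfold mot
  simp only
  rw [lam_off hη h]
  simp

theorem mot_mem {a b η : ℝ} (hη : 0 < η) {p : R4} (h : p ∈ box a b η) (t : ℝ) :
    mot a b η (t, p) ∈ box a b η := by
  rcases eq_or_ne (lam a η p) 0 with h0 | h0
  · have : mot a b η (t, p) = p := by
      unfold mot
      simp only
      rw [h0]
      simp
    rw [this]
    exact h
  obtain ⟨h1, h2, h3⟩ := h
  refine ⟨h1, ?_, h3⟩
  have h4 := lam_pos hη h0
  have h5 : |p.2.1 - a| < η := by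
    linarith [abs_nonneg (p.1 - 1 / 2), norm_nonneg p.2.2]
  have h6 := abs_lt.1 h5
  have h7 : 0 ≤ max 0 (min 1 t) * lam a η p := mul_nonneg (le_max_left _ _) (lam_nonneg _ _ _)
  have h8 : max 0 (min 1 t) * lam a η p ≤ 1 :=
    mul_le_one₀ (max_le zero_le_one (min_le_left _ _)) (lam_nonneg _ _ _) (lam_le_one hη p)
  show p.2.1 + max 0 (min 1 t) * lam a η p * (b - a) ∈ Icc (min a b - η) (max a b + η)
  set c := max 0 (min 1 t) * lam a η p with hc
  rcases le_total a b with hab | hab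
  · rw [min_eq_left hab, max_eq_right hab]
    constructor
    · nlinarith [mul_nonneg h7 (sub_nonneg.2 hab)]
    · nlinarith [mul_nonneg (sub_nonneg.2 h8) (sub_nonneg.2 hab)]
  · rw [min_eq_right hab, max_eq_left hab]
    constructor
    · nlinarith [mul_nonneg (sub_nonneg.2 h8) (sub_nonneg.2 hab)]
    · nlinarith [mul_nonneg h7 (sub_nonneg.2 hab)]

theorem sph_one_le {p : R4} (hp : p ∈ sph 1) : 4 / 5 ≤ p.2.1 := by
  have h := hp.2
  have e : rsq 1 p = (p.2.1 - 1) ^ 2 + p.2.2.re ^ 2 + p.2.2.im ^ 2 := rfl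
  rw [e] at h
  nlinarith [sq_nonneg p.2.2.re, sq_nonneg p.2.2.im]

/-- a thin box around the piece of the bar in an open set -/
theorem exists_box {a b : ℝ} {N : Set R4} (hN : IsOpen N) (hb : max a b < 4 / 5)
    (h : ∀ x ∈ Icc (min a b) (max a b), bar x ∈ N) :
    ∃ η > 0, box a b η ⊆ N ∧ max a b + η < 4 / 5 := by
  have hc : IsCompact (bar '' Icc (min a b) (max a b)) := by
    refine isCompact_Icc.image ?_
    exact continuous_const.prodMk (continuous_id.prodMk continuous_const)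
  obtain ⟨δ, hδ, hδ2⟩ := hc.exists_thickening_subset_open hN (by
    rintro _ ⟨x, hx, rfl⟩
    exact h x hx)
  refine ⟨min (δ / 2) ((4 / 5 - max a b) / 2), by
    refine lt_min (by linarith) (by linarith), ?_, ?_⟩
  · rintro p ⟨⟨h1, h2⟩, ⟨h3, h4⟩, h5⟩
    set η := min (δ / 2) ((4 / 5 - max a b) / 2) with hη
    have hηδ : η ≤ δ / 2 := min_le_left _ _
    apply hδ2
    rw [Metric.mem_thickening_iff]
    have hmm : min a b ≤ max a b := min_le_max
    refine ⟨bar (max (min a b) (min (max a b) p.2.1)), ⟨_, ⟨le_max_left _ _,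
      max_le hmm (min_le_left _ _)⟩, rfl⟩, ?_⟩
    have e1 : dist p (bar (max (min a b) (min (max a b) p.2.1))) =
        max (dist p.1 (1 / 2)) (max (dist p.2.1 (max (min a b) (min (max a b) p.2.1)))
          (dist p.2.2 0)) := rfl
    rw [e1]
    have hη0 : 0 ≤ η := le_min (by linarith) (by linarith)
    refine max_lt ?_ (max_lt ?_ ?_)
    · rw [Real.dist_eq]
      have : |p.1 - 1 / 2| ≤ η := abs_le.2 ⟨by linarith, by linarith⟩
      linarith
    · rw [Real.dist_eq]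
      have : |p.2.1 - max (min a b) (min (max a b) p.2.1)| ≤ η := by
        rcases le_total p.2.1 (max a b) with h6 | h6
        · rw [min_eq_right h6]
          rcases le_total (min a b) p.2.1 with h7 | h7
          · rw [max_eq_right h7, sub_self, abs_zero]
            exact hη0
          · rw [max_eq_left h7]
            exact abs_le.2 ⟨by linarith, by linarith⟩
        · rw [min_eq_left h6, max_eq_right hmm]
          exact abs_le.2 ⟨by linarith, by linarith⟩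
      linarith
    · rw [dist_zero_right]
      rw [mem_closedBall_zero_iff] at h5
      linarith
  · have := min_le_right (δ / 2) ((4 / 5 - max a b) / 2)
    linarith

end MOVE

open Classical in
/-- **MOVE.** A point of the bar is moved to another one by a homotopy of self-maps of the
complement of the fixed cuff. -/
theorem m_MOVE : StMOVE := by
  intro F a b hF ha hb
  obtain ⟨δ, hδ1, hδ2⟩ := m_A1 R4 R4 R4 I4 R4 F SP X2.isCompact_SP hF.1 hF.2
  have hbar : ∀ x ∈ Icc (min a b) (max a b), bar x ∈ δ.source := by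
    intro x hx
    apply hδ1
    right
    refine ⟨rfl, ?_, ?_, rfl⟩
    · exact le_trans (le_min ha.1.le hb.1.le) hx.1
    · exact le_trans hx.2 (max_le ha.2.le hb.2.le)
  obtain ⟨η, hη, hbox, hlt⟩ := MOVE.exists_box δ.open_source (max_lt ha.2 hb.2) hbar
  have hFc : ContinuousOn F δ.source :=
    (δ.contMDiffOn_toFun.continuousOn).congr fun p hp => (hδ2 p hp).symm
  have hinj : InjOn F δ.source := by
    intro p hp q hq h
    rw [← hδ2 p hp, ← hδ2 q hq] at h
    exact δ.toPartialEquiv.injOn hp hq h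
  have hmem : ∀ t, ∀ p ∈ δ.source, MOVE.mot a b η (t, p) ∈ δ.source := by
    intro t p hp
    by_cases h : p ∈ MOVE.box a b η
    · exact hbox (MOVE.mot_mem hη h t)
    · rw [MOVE.mot_off hη h t]
      exact hp
  have hsF : ∀ y ∈ δ.target, F (δ.symm y) = y := by
    intro y hy
    have h1 := hδ2 _ (δ.toPartialEquiv.map_target hy)
    exact h1.symm.trans (δ.toPartialEquiv.right_inv hy)
  have hFt : ∀ p ∈ δ.source, F p ∈ δ.target ∧ δ.symm (F p) = p := by
    intro p hp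
    rw [← hδ2 p hp]
    exact ⟨δ.toPartialEquiv.map_source hp, δ.toPartialEquiv.left_inv hp⟩
  have hΨoff : ∀ t, ∀ y ∈ δ.target, y ∉ F '' MOVE.box a b η →
      F (MOVE.mot a b η (t, δ.symm y)) = y := by
    intro t y hy h
    have h1 : δ.symm y ∉ MOVE.box a b η := fun h2 => h ⟨_, h2, hsF y hy⟩
    rw [MOVE.mot_off hη h1 t]
    exact hsF y hy
  refine ⟨fun z => if z.2 ∈ δ.target then F (MOVE.mot a b η (z.1, δ.symm z.2)) else z.2,
    ?_, ?_, ?_, ?_⟩
  · rw [continuous_iff_continuousAt]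
    rintro ⟨t, y⟩
    by_cases hy : y ∈ δ.target
    · have h1 : ∀ᶠ z : ℝ × R4 in 𝓝 (t, y), z.2 ∈ δ.target :=
        continuous_snd.continuousAt.eventually (δ.open_target.mem_nhds hy)
      have h2 : ContinuousAt (fun z : ℝ × R4 => F (MOVE.mot a b η (z.1, δ.symm z.2))) (t, y) := by
        have e1 : ContinuousAt δ.symm y :=
          (δ.contMDiffOn_invFun.continuousOn).continuousAt (δ.open_target.mem_nhds hy)
        have e2 : ContinuousAt (fun z : ℝ × R4 => (z.1, δ.symm z.2)) (t, y) :=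
          continuous_fst.continuousAt.prodMk
            (ContinuousAt.comp (g := δ.symm) (f := fun z : ℝ × R4 => z.2) e1
              continuous_snd.continuousAt)
        have e3 : ContinuousAt (fun z : ℝ × R4 => MOVE.mot a b η (z.1, δ.symm z.2)) (t, y) :=
          (MOVE.continuous_mot a b η).continuousAt.comp e2
        have e4 : ContinuousAt F (MOVE.mot a b η (t, δ.symm y)) :=
          hFc.continuousAt (δ.open_source.mem_nhds
            (hmem t _ (δ.toPartialEquiv.map_target hy)))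
        exact ContinuousAt.comp (g := F)
          (f := fun z : ℝ × R4 => MOVE.mot a b η (z.1, δ.symm z.2)) e4 e3
      refine h2.congr ?_
      filter_upwards [h1] with z hz
      exact (if_pos hz).symm
    · have hc : IsCompact (F '' MOVE.box a b η) :=
        (MOVE.isCompact_box a b η).image_of_continuousOn (hFc.mono hbox)
      have hy2 : y ∉ F '' MOVE.box a b η := by
        rintro ⟨p, hp, rfl⟩
        exact hy (hFt p (hbox hp)).1
      have h0 : ∀ᶠ x : R4 in 𝓝 y, x ∉ F '' MOVE.box a b η :=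
        hc.isClosed.isOpen_compl.mem_nhds hy2
      have h1 : ∀ᶠ z : ℝ × R4 in 𝓝 (t, y), z.2 ∉ F '' MOVE.box a b η :=
        (continuous_snd.continuousAt (x := (t, y))).eventually h0
      refine (continuous_snd.continuousAt (x := (t, y))).congr ?_
      filter_upwards [h1] with z hz
      by_cases h3 : z.2 ∈ δ.target
      · rw [if_pos h3, hΨoff _ _ h3 hz]
      · rw [if_neg h3]
  · intro x
    by_cases hx : x ∈ δ.target
    · simp only [hx, if_true]
      have : MOVE.mot a b η (0, δ.symm x) = δ.symm x := by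
        unfold MOVE.mot
        simp
      rw [this]
      exact hsF x hx
    · simp only [hx, if_false]
  · have h1 : bar a ∈ δ.source := hbar a ⟨min_le_left _ _, le_max_left _ _⟩
    have h2 := hFt _ h1
    simp only [h2.1, if_true]
    rw [h2.2]
    have h3 : MOVE.mot a b η (1, bar a) = bar b := by
      unfold MOVE.mot MOVE.lam bar
      simp
    rw [h3]
  · intro t x hx
    by_cases h : x ∈ δ.target
    · simp only [h, if_true]
      by_cases h1 : x ∈ F '' MOVE.box a b η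
      · obtain ⟨p, hp, rfl⟩ := h1
        rw [(hFt p (hbox hp)).2]
        rintro ⟨z, hz, hz2⟩
        have h4 : z ∈ δ.source := hδ1 (Or.inl (Or.inr hz))
        have h5 := hinj h4 (hmem t p (hbox hp)) hz2
        have h6 := MOVE.mot_mem hη hp t
        rw [← h5] at h6
        have h7 := h6.2.1.2
        have h8 := MOVE.sph_one_le hz
        linarith
      · rw [hΨoff t x h h1]
        exact hx
    · simp only [h, if_false]
      exact hx

end Pool.Agent.Helper18.BI.R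


end

/-! ## Helper18.BI.R.M_TOPG -/

section

/-!
# Project BI, stage 4 (R), module TOPG: free homotopy of spheres to based homotopy of whiskered spheres
-/

set_option autoImplicit false

open scoped Manifold ContDiff Topology ComplexConjugate
open Set Pool.Agent.Helper18.BI
open Pool.Agent.Helper65.Barb
open Pool.Agent.Helper70.BI (I4 IsW MW)
open Pool.Agent.Helper18.BI.H

namespace Pool.Agent.Helper18.BI.R

namespace TOPG

/-- the compression over the axis between the cuffs -/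
private theorem sq_bar_topg (a : ℝ) (w : ℂ) (h1 : 1 / 5 ≤ a) (h2 : a ≤ 4 / 5) :
    sq 0 (1 / 2, (a, w)) = bar a := by
  have hp : prof 0 a = 0 := by
    unfold prof
    have e1 : √((1 / 25 - a ^ 2) ^ 2 + 0 ^ 2) = -(1 / 25 - a ^ 2) := by
      rw [show ((1 : ℝ) / 25 - a ^ 2) ^ 2 + 0 ^ 2 = (-(1 / 25 - a ^ 2)) ^ 2 by ring]
      exact Real.sqrt_sq (by nlinarith)
    have e2 : √((1 / 25 - (a - 1) ^ 2) ^ 2 + 0 ^ 2) = -(1 / 25 - (a - 1) ^ 2) := by
      rw [show ((1 : ℝ) / 25 - (a - 1) ^ 2) ^ 2 + 0 ^ 2 = (-(1 / 25 - (a - 1) ^ 2)) ^ 2 by ring]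
      exact Real.sqrt_sq (by nlinarith)
    rw [e1, e2]
    ring
  have hf : ∀ k : ℝ, fac 0 a k = 0 := by
    intro k
    unfold fac
    rw [hp]
    simp
  have ha : axc 0 a = a := by
    unfold axc
    have e1 : √((a + 1 / 5) ^ 2 + 0 ^ 2) = a + 1 / 5 := by
      rw [show (a + 1 / 5) ^ 2 + (0 : ℝ) ^ 2 = (a + 1 / 5) ^ 2 by ring]
      exact Real.sqrt_sq (by linarith)
    have e2 : √((a - 6 / 5) ^ 2 + 0 ^ 2) = 6 / 5 - a := by
      rw [show (a - 6 / 5) ^ 2 + (0 : ℝ) ^ 2 = (6 / 5 - a) ^ 2 by ring]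
      exact Real.sqrt_sq (by linarith)
    rw [e1, e2]
    ring
  unfold sq bar
  simp only [hf, ha]
  simp

private theorem axc_le_topg (a : ℝ) (h2 : a ≤ 1 / 5) : axc 0 a ≤ 1 / 5 := by
  unfold axc
  have e2 : √((a - 6 / 5) ^ 2 + 0 ^ 2) = 6 / 5 - a := by
    rw [show (a - 6 / 5) ^ 2 + (0 : ℝ) ^ 2 = (6 / 5 - a) ^ 2 by ring]
    exact Real.sqrt_sq (by linarith)
  have e1 : √((a + 1 / 5) ^ 2 + 0 ^ 2) ≤ 3 / 5 - a := by
    rw [show (a + 1 / 5) ^ 2 + (0 : ℝ) ^ 2 = (a + 1 / 5) ^ 2 by ring]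
    exact Real.sqrt_le_iff.2 ⟨by linarith, by nlinarith⟩
  rw [e2]
  linarith

/-- the axial compression preserves the sign -/
private theorem axc_sign_topg (a : ℝ) (h2 : a ≤ 1 / 5) : 0 ≤ a * axc 0 a := by
  unfold axc
  have e2 : √((a - 6 / 5) ^ 2 + 0 ^ 2) = 6 / 5 - a := by
    rw [show (a - 6 / 5) ^ 2 + (0 : ℝ) ^ 2 = (6 / 5 - a) ^ 2 by ring]
    exact Real.sqrt_sq (by linarith)
  rcases le_total (-(1 / 5)) a with h3 | h3
  · have e1 : √((a + 1 / 5) ^ 2 + 0 ^ 2) = a + 1 / 5 := by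
      rw [show (a + 1 / 5) ^ 2 + (0 : ℝ) ^ 2 = (a + 1 / 5) ^ 2 by ring]
      exact Real.sqrt_sq (by linarith)
    rw [e1, e2]
    nlinarith [sq_nonneg a]
  · have e1 : √((a + 1 / 5) ^ 2 + 0 ^ 2) = -(a + 1 / 5) := by
      rw [show (a + 1 / 5) ^ 2 + (0 : ℝ) ^ 2 = (-(a + 1 / 5)) ^ 2 by ring]
      exact Real.sqrt_sq (by linarith)
    rw [e1, e2]
    nlinarith [sq_nonneg a]

private theorem fst_le_topg (m : R3) (hm : nsq m = 1) : m.1 ≤ 1 := by
  unfold nsq at hm
  nlinarith [sq_nonneg m.2.re, sq_nonneg m.2.im, sq_nonneg (m.1 - 1)]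

private theorem nu_eq_topg (m : R3) :
    nu m = sq 0 (((1 / 2, (73 / 100 * m.1, ((73 : ℝ) / 100) • m.2)) : R4)) := by
  unfold nu
  congr 1

private theorem nu_bar_topg (m : R3) (hm : nsq m = 1) (h : 1 / 5 ≤ 73 / 100 * m.1) :
    nu m = bar (73 / 100 * m.1) := by
  have h1 := fst_le_topg m hm
  rw [nu_eq_topg]
  exact sq_bar_topg _ _ h (by linarith)

private theorem nu_fst_topg (m : R3) : (nu m).1 = 1 / 2 := by
  rw [nu_eq_topg]
  unfold sq
  simp

private theorem nu_ax_topg (m : R3) : (nu m).2.1 = axc 0 (73 / 100 * m.1) := by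
  rw [nu_eq_topg]
  rfl

private theorem nu_tr_topg (m : R3) : ∃ c : ℝ, 0 ≤ c ∧ (nu m).2.2 = (c : ℂ) * m.2 := by
  refine ⟨fac 0 (73 / 100 * m.1) (Complex.normSq (((73 : ℝ) / 100) • m.2)) * (73 / 100), ?_, ?_⟩
  · refine mul_nonneg ?_ (by norm_num)
    unfold fac
    exact Real.sqrt_nonneg _
  · rw [nu_eq_topg]
    show ((fac 0 (73 / 100 * m.1) (Complex.normSq (((73 : ℝ) / 100) • m.2)) : ℝ) : ℂ) *
      (((73 : ℝ) / 100) • m.2) = _
    rw [Complex.real_smul, Complex.ofReal_mul]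
    ring

private theorem nu_sph_topg (m : R3) (hm : nsq m = 1) (h : 73 / 100 * m.1 ≤ 1 / 5) :
    nu m ∈ sph 0 := by
  have hx : (((1 / 2, (73 / 100 * m.1, ((73 : ℝ) / 100) • m.2)) : R4)) ∈ Ext := by
    unfold nsq at hm
    refine ⟨?_, ?_⟩
    · show ((1 : ℝ) / 5) ^ 2 ≤ nsq _
      unfold nsq
      simp only [Complex.real_smul, Complex.mul_re, Complex.mul_im, Complex.ofReal_re,
        Complex.ofReal_im, zero_mul, sub_zero, add_zero]
      nlinarith
    · show ((1 : ℝ) / 5) ^ 2 ≤ nsq _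
      unfold nsq
      simp only [Complex.real_smul, Complex.mul_re, Complex.mul_im, Complex.ofReal_re,
        Complex.ofReal_im, zero_mul, sub_zero, add_zero]
      nlinarith [sq_nonneg m.2.re, sq_nonneg m.2.im]
  have hs : nu m ∈ SP := by
    rw [nu_eq_topg]
    exact hS4.1 _ hx
  have ha : (nu m).2.1 ≤ 1 / 5 := by
    rw [nu_ax_topg]
    exact axc_le_topg _ h
  rcases hs with (h0 | h1) | h2
  · exact h0
  · exfalso
    have h3 : rsq 1 (nu m) = 1 / 25 := h1.2
    unfold rsq nsq at h3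
    nlinarith [sq_nonneg (nu m).2.2.re, sq_nonneg (nu m).2.2.im]
  · obtain ⟨h3, h4, h5, h6⟩ := h2
    refine ⟨h3, ?_⟩
    have h7 : (nu m).2.1 = 1 / 5 := le_antisymm ha h4
    unfold rsq nsq
    rw [h6, h7]
    norm_num

private theorem nu_foot_topg (m : R3) (hm : nsq m = 1) (h : 73 / 100 * m.1 = 1 / 5) :
    nu m = foot0 := by
  rw [nu_bar_topg m hm h.ge, h]
  rfl

private theorem nu_cont_topg : Continuous nu := by
  have h : ContinuousOn ((fun q : ℝ × R4 => sq q.1 q.2) ∘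
      fun m : R3 => (((0 : ℝ), ((1 : ℝ) / 2, ((73 : ℝ) / 100) • m)) : ℝ × R4)) univ :=
    hS3.comp (by fun_prop) (fun m _ => ⟨self_mem_Ici, mem_univ _⟩)
  exact continuousOn_univ.1 h

private theorem bar_mem_topg (a : ℝ) (h1 : 1 / 5 ≤ a) (h2 : a ≤ 4 / 5) : bar a ∈ SP :=
  Or.inr ⟨rfl, h1, h2, rfl⟩

private theorem nu_mem_topg (m : R3) (hm : nsq m = 1) : nu m ∈ SP := by
  rcases le_total (73 / 100 * m.1) (1 / 5) with h | h
  · exact Or.inl (Or.inl (nu_sph_topg m hm h))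
  · rw [nu_bar_topg m hm h]
    exact bar_mem_topg _ h (by linarith [fst_le_topg m hm])

private theorem nu_notMem_topg (m : R3) (hm : nsq m = 1) : nu m ∉ sph 1 := by
  intro h1
  have h3 : rsq 1 (nu m) = 1 / 25 := h1.2
  rcases le_total (73 / 100 * m.1) (1 / 5) with h | h
  · have ha : (nu m).2.1 ≤ 1 / 5 := by
      rw [nu_ax_topg]
      exact axc_le_topg _ h
    unfold rsq nsq at h3
    nlinarith [sq_nonneg (nu m).2.2.re, sq_nonneg (nu m).2.2.im]
  · rw [nu_bar_topg m hm h] at h3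
    have h4 := fst_le_topg m hm
    unfold rsq nsq bar at h3
    simp only [Complex.zero_re, Complex.zero_im] at h3
    nlinarith

private theorem emb_cont_topg (F : R4 → R4) (hF : EmbOn I4 F SP) : ContinuousOn F SP := by
  intro p hp
  obtain ⟨Φ, h1, h2⟩ := hF.1 p hp
  have h3 : ContinuousOn F Φ.source := Φ.contMDiffOn_toFun.continuousOn.congr h2
  exact (h3.continuousAt (Φ.open_source.mem_nhds h1)).continuousWithinAt

private theorem bar_cont_topg : Continuous bar := by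
  unfold bar
  fun_prop

private theorem nsq_cont_topg : Continuous nsq := by
  unfold nsq
  fun_prop

/-! ### the retraction of the sphere -/

/-- the sphere is mapped to itself, the cap around `(1, 0)` is contracted to a point -/
private noncomputable def Rm (m : R3) : R3 := (min 1 (5 * (nu m).2.1), (5 : ℝ) • (nu m).2.2)

private theorem Rm_cont : Continuous Rm := by
  have h := nu_cont_topg
  have h1 : Continuous fun m : R3 => (nu m).2.1 := continuous_fst.comp (continuous_snd.comp h)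
  have h2 : Continuous fun m : R3 => (nu m).2.2 := continuous_snd.comp (continuous_snd.comp h)
  unfold Rm
  fun_prop

private theorem Rm_hi (m : R3) (hm : nsq m = 1) (h : 1 / 5 ≤ 73 / 100 * m.1) : Rm m = (1, 0) := by
  unfold Rm
  rw [nu_bar_topg m hm h]
  unfold bar
  refine Prod.ext ?_ ?_
  · exact min_eq_left (by show (1 : ℝ) ≤ 5 * (73 / 100 * m.1); linarith)
  · simp

private theorem Rm_lo (m : R3) (h : 73 / 100 * m.1 ≤ 1 / 5) : Rm m = (5 : ℝ) • (nu m).2 := by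
  have ha : (nu m).2.1 ≤ 1 / 5 := by
    rw [nu_ax_topg]
    exact axc_le_topg _ h
  unfold Rm
  rw [min_eq_right (by linarith)]
  rfl

private theorem nsq_smul_topg (c : ℝ) (x : R3) : nsq (c • x) = c ^ 2 * nsq x := by
  unfold nsq
  simp only [Prod.smul_fst, Prod.smul_snd, smul_eq_mul, Complex.real_smul, Complex.mul_re,
    Complex.mul_im, Complex.ofReal_re, Complex.ofReal_im, zero_mul, sub_zero, add_zero]
  ring

private theorem nsq_Rm (m : R3) (hm : nsq m = 1) : nsq (Rm m) = 1 := by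
  rcases le_total (73 / 100 * m.1) (1 / 5) with h | h
  · rw [Rm_lo m h, nsq_smul_topg]
    have h1 : rsq 0 (nu m) = 1 / 25 := (nu_sph_topg m hm h).2
    have h2 : nsq (nu m).2 = rsq 0 (nu m) := by
      unfold rsq
      rw [sub_zero]
    rw [h2, h1]
    norm_num
  · rw [Rm_hi m hm h]
    unfold nsq
    norm_num

/-- the scalar product of `m` and `Rm m` is nonnegative -/
private theorem dot_Rm (m : R3) (hm : nsq m = 1) :
    0 ≤ m.1 * (Rm m).1 + m.2.re * (Rm m).2.re + m.2.im * (Rm m).2.im := by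
  rcases le_total (73 / 100 * m.1) (1 / 5) with h | h
  · obtain ⟨c, hc, e⟩ := nu_tr_topg m
    have h1 := axc_sign_topg _ h
    rw [← nu_ax_topg] at h1
    have e1 : (Rm m).1 = 5 * (nu m).2.1 := by
      rw [Rm_lo m h]
      rfl
    have e2 : (Rm m).2 = ((5 * c : ℝ) : ℂ) * m.2 := by
      rw [Rm_lo m h]
      show (5 : ℝ) • (nu m).2.2 = _
      rw [e, Complex.real_smul, Complex.ofReal_mul]
      ring
    rw [e1, e2]
    simp only [Complex.mul_re, Complex.mul_im, Complex.ofReal_re, Complex.ofReal_im, zero_mul,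
      sub_zero, add_zero]
    have h2 := mul_nonneg hc (add_nonneg (sq_nonneg m.2.re) (sq_nonneg m.2.im))
    nlinarith
  · rw [Rm_hi m hm h]
    simp only [Complex.zero_re, Complex.zero_im, mul_zero, add_zero, mul_one]
    linarith

/-- the segment from `m` to `Rm m` -/
private noncomputable def sg (x : ℝ × R3) : R3 := (1 - x.1) • x.2 + x.1 • Rm x.2

private theorem sg_pos (t : ℝ) (m : R3) (hm : nsq m = 1) (ht : t ∈ Icc (0 : ℝ) 1) :
    0 < nsq (sg (t, m)) := by
  have h1 := nsq_Rm m hm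
  have h2 := dot_Rm m hm
  have e : nsq (sg (t, m)) = (1 - t) ^ 2 * nsq m + t ^ 2 * nsq (Rm m) +
      2 * ((1 - t) * t) * (m.1 * (Rm m).1 + m.2.re * (Rm m).2.re + m.2.im * (Rm m).2.im) := by
    unfold sg nsq
    simp only [Prod.fst_add, Prod.snd_add, Prod.smul_fst, Prod.smul_snd, smul_eq_mul,
      Complex.real_smul, Complex.add_re, Complex.add_im, Complex.mul_re,
      Complex.mul_im, Complex.ofReal_re, Complex.ofReal_im, zero_mul, sub_zero, add_zero]
    ring
  rw [e, hm, h1]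
  have h3 : 0 ≤ (1 - t) * t := mul_nonneg (by linarith [ht.2]) ht.1
  have h4 : 0 ≤ 2 * ((1 - t) * t) *
      (m.1 * (Rm m).1 + m.2.re * (Rm m).2.re + m.2.im * (Rm m).2.im) :=
    mul_nonneg (by linarith) h2
  nlinarith [sq_nonneg (2 * t - 1)]

/-- the homotopy from the identity to `Rm` -/
private noncomputable def Rt (x : ℝ × R3) : R3 := (√(nsq (sg x)))⁻¹ • sg x

private theorem nsq_Rt (t : ℝ) (m : R3) (hm : nsq m = 1) (ht : t ∈ Icc (0 : ℝ) 1) :
    nsq (Rt (t, m)) = 1 := by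
  have h := sg_pos t m hm ht
  unfold Rt
  rw [nsq_smul_topg, inv_pow, Real.sq_sqrt h.le]
  exact inv_mul_cancel₀ h.ne'

private theorem Rt_zero (m : R3) (hm : nsq m = 1) : Rt (0, m) = m := by
  have e : sg (0, m) = m := by
    unfold sg
    simp
  unfold Rt
  rw [e, hm]
  simp

private theorem Rt_one (m : R3) (hm : nsq m = 1) : Rt (1, m) = Rm m := by
  have e : sg (1, m) = Rm m := by
    unfold sg
    simp
  unfold Rt
  rw [e, nsq_Rm m hm]
  simp

private theorem one_mem_topg : nsq ((1, 0) : R3) = 1 := by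
  unfold nsq
  norm_num

private theorem Rm_base : Rm (1, 0) = (1, 0) :=
  Rm_hi _ one_mem_topg (by norm_num)

private theorem Rt_base (t : ℝ) : Rt (t, (1, 0)) = (1, 0) := by
  have e : sg (t, (1, 0)) = (1, 0) := by
    unfold sg
    simp only [Rm_base]
    rw [← add_smul]
    simp
  unfold Rt
  rw [e, one_mem_topg]
  simp

/-! ### homotopies of based spheres -/

private theorem glue_topg {X Y : Type*} [TopologicalSpace X] [TopologicalSpace Y]
    {D C1 C2 : Set X} {H g1 g2 : X → Y} (hD : IsClosed D) (h1 : IsClosed C1) (h2 : IsClosed C2)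
    (hc : D ⊆ C1 ∪ C2) (v1 : ∀ x ∈ D ∩ C1, H x = g1 x) (v2 : ∀ x ∈ D ∩ C2, H x = g2 x)
    (c1 : ContinuousOn g1 (D ∩ C1)) (c2 : ContinuousOn g2 (D ∩ C2)) : ContinuousOn H D := by
  have e : D = (D ∩ C1) ∪ (D ∩ C2) := by
    rw [← inter_union_distrib_left, inter_eq_left.2 hc]
  rw [e]
  exact (c1.congr v1).union_of_isClosed (c2.congr v2) (hD.inter h1) (hD.inter h2)

private theorem D_closed_topg : IsClosed (Icc (0 : ℝ) 1 ×ˢ S2) :=
  isClosed_Icc.prod (isClosed_eq nsq_cont_topg continuous_const)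

private def BH (K : Set R4) (y : R4) (f g : R3 → R4) : Prop :=
  ∃ H : ℝ × R3 → R4, ContinuousOn H (Icc (0 : ℝ) 1 ×ˢ S2) ∧ (∀ m ∈ S2, H (0, m) = f m) ∧
    (∀ m ∈ S2, H (1, m) = g m) ∧ (∀ u ∈ Icc (0 : ℝ) 1, H (u, (1, 0)) = y) ∧
    ∀ u ∈ Icc (0 : ℝ) 1, ∀ m ∈ S2, H (u, m) ∉ K

private theorem BH_trans {K : Set R4} {y : R4} {f g k : R3 → R4} (h1 : BH K y f g)
    (h2 : BH K y g k) : BH K y f k := by
  obtain ⟨H, a1, a2, a3, a4, a5⟩ := h1
  obtain ⟨H', b1, b2, b3, b4, b5⟩ := h2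
  classical
  let G : ℝ × R3 → R4 := fun x =>
    if x.1 ≤ 1 / 2 then H (2 * x.1, x.2) else H' (2 * x.1 - 1, x.2)
  have g1 : ∀ u m, u ≤ 1 / 2 → G (u, m) = H (2 * u, m) := fun u m hu => if_pos hu
  have g2 : ∀ u m, m ∈ S2 → 1 / 2 ≤ u → G (u, m) = H' (2 * u - 1, m) := by
    intro u m hm hu
    rcases eq_or_lt_of_le hu with he | hl
    · rw [g1 u m he.ge, ← he, show (2 : ℝ) * (1 / 2) = 1 by norm_num, a3 m hm,
        show (1 : ℝ) - 1 = 0 by norm_num, b2 m hm]
    · exact if_neg (not_le.2 hl)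
  refine ⟨G, ?_, ?_, ?_, ?_, ?_⟩
  · refine glue_topg (C1 := {x : ℝ × R3 | x.1 ≤ 1 / 2}) (C2 := {x : ℝ × R3 | 1 / 2 ≤ x.1})
      (g1 := fun x => H (2 * x.1, x.2)) (g2 := fun x => H' (2 * x.1 - 1, x.2)) D_closed_topg
      (isClosed_le (by fun_prop) (by fun_prop)) (isClosed_le (by fun_prop) (by fun_prop))
      (fun x _ => (le_total x.1 (1 / 2)).imp id id) ?_ ?_ ?_ ?_
    · intro x hx
      exact g1 x.1 x.2 hx.2
    · intro x hx
      exact g2 x.1 x.2 hx.1.2 hx.2
    · refine a1.comp (Continuous.continuousOn (by fun_prop)) ?_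
      intro x hx
      have h3 : x.1 ≤ 1 / 2 := hx.2
      exact ⟨⟨by linarith [hx.1.1.1], by linarith⟩, hx.1.2⟩
    · refine b1.comp (Continuous.continuousOn (by fun_prop)) ?_
      intro x hx
      have h3 : 1 / 2 ≤ x.1 := hx.2
      exact ⟨⟨by linarith, by linarith [hx.1.1.2]⟩, hx.1.2⟩
  · intro m hm
    rw [g1 0 m (by norm_num), mul_zero, a2 m hm]
  · intro m hm
    rw [g2 1 m hm (by norm_num), show (2 : ℝ) * 1 - 1 = 1 by norm_num, b3 m hm]
  · intro u hu
    rcases le_total u (1 / 2) with h | h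
    · rw [g1 u _ h]
      exact a4 _ ⟨by linarith [hu.1], by linarith⟩
    · rw [g2 u _ one_mem_topg h]
      exact b4 _ ⟨by linarith, by linarith [hu.2]⟩
  · intro u hu m hm
    rcases le_total u (1 / 2) with h | h
    · rw [g1 u _ h]
      exact a5 _ ⟨by linarith [hu.1], by linarith⟩ m hm
    · rw [g2 u _ hm h]
      exact b5 _ ⟨by linarith, by linarith [hu.2]⟩ m hm

end TOPG

open TOPG in
theorem m_TOPG : StTOPG := by
  intro F h ζ P hF hh h1 h0 hK hz1 hz2 hP hP0 hP1 hPa hPb hPK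
  classical
  have hFc := emb_cont_topg F hF
  have hFnu : ContinuousOn (fun m : R3 => F (nu m)) S2 :=
    hFc.comp nu_cont_topg.continuousOn (fun m hm => nu_mem_topg m hm)
  have hnuK : ∀ m ∈ S2, F (nu m) ∉ F '' sph 1 := by
    rintro m hm ⟨y, hy, hyF⟩
    have h9 : y = nu m := hF.2 (Or.inl (Or.inr hy)) (nu_mem_topg m hm) hyF
    rw [h9] at hy
    exact nu_notMem_topg m hm hy
  have hzK : ∀ τ ∈ Icc (0 : ℝ) 1, ζ τ ∉ F '' sph 1 := by
    intro τ hτ
    rw [← hP0 τ hτ]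
    exact hPK 0 ⟨le_rfl, zero_le_one⟩ τ hτ
  have hz : ContinuousOn ζ (Icc 0 1) := by
    refine ContinuousOn.congr (f := fun τ => P (0, τ)) ?_ (fun τ hτ => (hP0 τ hτ).symm)
    refine hP.comp (Continuous.continuousOn (by fun_prop)) ?_
    intro τ hτ
    exact ⟨⟨le_rfl, zero_le_one⟩, hτ⟩
  have hle : ∀ m ∈ S2, m.1 ≤ 1 := fun m hm => fst_le_topg m hm
  have hbase : F (nu (1, 0)) = bp F := by
    rw [nu_bar_topg _ one_mem_topg (by norm_num)]
    unfold bp
    norm_num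
  have hlo : ∀ m ∈ S2, 73 / 100 * m.1 ≤ 1 / 5 → h (1, Rm m) = F (nu m) := by
    intro m hm h2
    rw [h1 _ (nsq_Rm m hm), Rm_lo m h2, smul_smul]
    congr 1
    refine Prod.ext (nu_fst_topg m).symm ?_
    norm_num
  -- the parameter
  let X : R3 → ℝ := fun m => min 1 (73 * (1 - m.1) / 53)
  have hX0 : ∀ m ∈ S2, X m ∈ Icc (0 : ℝ) 1 := by
    intro m hm
    refine ⟨le_min zero_le_one ?_, min_le_left _ _⟩
    have := hle m hm
    exact div_nonneg (by linarith) (by norm_num)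
  have hXc : Continuous X := by
    simp only [X]
    fun_prop
  -- (0)
  have s0 : BH (F '' sph 1) (bp F) (fun m => h (0, m)) (fun m => h (0, Rm m)) := by
    refine ⟨fun x => h (0, Rt x), ?_, ?_, ?_, ?_, ?_⟩
    · refine hh.comp (continuousOn_const.prodMk ?_) ?_
      · have hs : Continuous sg := by
          have := Rm_cont
          unfold sg
          fun_prop
        unfold Rt
        have h3 : ContinuousOn (fun x : ℝ × R3 => (√(nsq (sg x)))⁻¹) (Icc (0 : ℝ) 1 ×ˢ S2) := by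
          refine ContinuousOn.inv₀ (Real.continuous_sqrt.comp (nsq_cont_topg.comp hs)).continuousOn ?_
          rintro ⟨t, m⟩ ⟨ht, hm⟩
          exact (Real.sqrt_pos.2 (sg_pos t m hm ht)).ne'
        exact h3.smul hs.continuousOn
      · rintro ⟨t, m⟩ ⟨ht, hm⟩
        exact ⟨⟨le_rfl, zero_le_one⟩, nsq_Rt t m hm ht⟩
    · intro m hm
      show h (0, Rt (0, m)) = _
      rw [Rt_zero m hm]
    · intro m hm
      show h (0, Rt (1, m)) = _
      rw [Rt_one m hm]
    · intro u _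
      show h (0, Rt (u, (1, 0))) = _
      rw [Rt_base, h0]
    · intro u hu m hm
      exact hK 0 ⟨le_rfl, zero_le_one⟩ _ (nsq_Rt u m hm hu)
  -- (1)
  have s1 : BH (F '' sph 1) (bp F) (fun m => h (0, Rm m)) (fun m => h (X m, Rm m)) := by
    refine ⟨fun x => h (x.1 * X x.2, Rm x.2), ?_, ?_, ?_, ?_, ?_⟩
    · refine hh.comp (Continuous.continuousOn ?_) ?_
      · exact (continuous_fst.mul (hXc.comp continuous_snd)).prodMk (Rm_cont.comp continuous_snd)
      · rintro ⟨t, m⟩ ⟨ht, hm⟩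
        exact ⟨⟨mul_nonneg ht.1 (hX0 m hm).1, mul_le_one₀ ht.2 (hX0 m hm).1 (hX0 m hm).2⟩,
          nsq_Rm m hm⟩
    · intro m _
      show h (0 * X m, Rm m) = _
      rw [zero_mul]
    · intro m _
      show h (1 * X m, Rm m) = _
      rw [one_mul]
    · intro u _
      show h (u * X (1, 0), Rm (1, 0)) = _
      have e : X (1, 0) = 0 := by
        simp only [X]
        norm_num
      rw [e, mul_zero, Rm_base, h0]
    · intro u hu m hm
      exact hK _ ⟨mul_nonneg hu.1 (hX0 m hm).1, mul_le_one₀ hu.2 (hX0 m hm).1 (hX0 m hm).2⟩ _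
        (nsq_Rm m hm)
  -- (2), (3): pieces
  let T : R3 → ℝ := fun m => 5 / 2 * (3 / 5 - 73 / 100 * m.1)
  let θ : ℝ × R3 → ℝ := fun x =>
    (1 - x.1) / 2 + (1 + x.1) / 2 * ((73 - 73 * x.2.1 - 13 * x.1) / (53 - 13 * x.1))
  let f3 : R3 → R4 := fun m =>
    if 1 / 5 ≤ 73 / 100 * m.1 ∧ 73 / 100 * m.1 ≤ 3 / 5 then ζ (T m) else F (nu m)
  have hθ : ∀ x : ℝ × R3, x.1 ∈ Icc (0 : ℝ) 1 → 1 / 5 ≤ 73 / 100 * x.2.1 →
      73 / 100 * x.2.1 ≤ 73 / 100 - 13 / 100 * x.1 → θ x ∈ Icc (0 : ℝ) 1 := by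
    intro x hx h2 h3
    have h4 : 0 < 53 - 13 * x.1 := by linarith [hx.2]
    have h5 : 0 ≤ (73 - 73 * x.2.1 - 13 * x.1) / (53 - 13 * x.1) := div_nonneg (by linarith) h4.le
    have h6 : (73 - 73 * x.2.1 - 13 * x.1) / (53 - 13 * x.1) ≤ 1 := by
      rw [div_le_one h4]
      linarith
    have h7 : 0 ≤ (1 + x.1) / 2 := by linarith [hx.1]
    have h8 := mul_nonneg h7 h5
    have h9 := mul_le_mul_of_nonneg_left h6 h7
    simp only [θ]
    exact ⟨by linarith [hx.2], by linarith⟩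
  have s2 : BH (F '' sph 1) (bp F) (fun m => h (X m, Rm m)) f3 := by
    let G : ℝ × R3 → R4 := fun x =>
      if 1 / 5 ≤ 73 / 100 * x.2.1 ∧ 73 / 100 * x.2.1 ≤ 73 / 100 - 13 / 100 * x.1 then ζ (θ x)
      else F (nu x.2)
    have g1 : ∀ x : ℝ × R3, 1 / 5 ≤ 73 / 100 * x.2.1 ∧
        73 / 100 * x.2.1 ≤ 73 / 100 - 13 / 100 * x.1 → G x = ζ (θ x) := fun x hx => if_pos hx
    have g2 : ∀ x : ℝ × R3, x.1 ∈ Icc (0 : ℝ) 1 → x.2 ∈ S2 → (73 / 100 * x.2.1 ≤ 1 / 5 ∨
        73 / 100 - 13 / 100 * x.1 ≤ 73 / 100 * x.2.1) → G x = F (nu x.2) := by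
      intro x hx hm h2
      by_cases hc : 1 / 5 ≤ 73 / 100 * x.2.1 ∧ 73 / 100 * x.2.1 ≤ 73 / 100 - 13 / 100 * x.1
      · rw [g1 x hc]
        have h4 : 53 - 13 * x.1 ≠ 0 := by linarith [hx.2]
        rcases h2 with h2 | h2
        · have h5 : 73 / 100 * x.2.1 = 1 / 5 := le_antisymm h2 hc.1
          have e1 : θ x = 1 := by
            have h6 : 73 - 73 * x.2.1 - 13 * x.1 = 53 - 13 * x.1 := by linarith
            simp only [θ]
            rw [h6, div_self h4]
            ring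
          rw [e1, nu_foot_topg x.2 hm h5, ← hP0 1 ⟨zero_le_one, le_rfl⟩]
          exact hPb 0 ⟨le_rfl, zero_le_one⟩
        · have h5 : 73 / 100 * x.2.1 = 73 / 100 - 13 / 100 * x.1 := le_antisymm hc.2 h2
          have e1 : θ x = (1 - x.1) / 2 := by
            have h6 : 73 - 73 * x.2.1 - 13 * x.1 = 0 := by linarith
            simp only [θ]
            rw [h6, zero_div, mul_zero, add_zero]
          rw [e1, nu_bar_topg x.2 hm hc.1, hz1 _ ⟨by linarith [hx.2], by linarith [hx.1]⟩, h5]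
          congr 2
          ring
      · exact if_neg hc
    refine ⟨G, ?_, ?_, ?_, ?_, ?_⟩
    · refine glue_topg
        (C1 := {x : ℝ × R3 | 1 / 5 ≤ 73 / 100 * x.2.1} ∩
          {x : ℝ × R3 | 73 / 100 * x.2.1 ≤ 73 / 100 - 13 / 100 * x.1})
        (C2 := {x : ℝ × R3 | 73 / 100 * x.2.1 ≤ 1 / 5} ∪
          {x : ℝ × R3 | 73 / 100 - 13 / 100 * x.1 ≤ 73 / 100 * x.2.1})
        (g1 := fun x => ζ (θ x)) (g2 := fun x => F (nu x.2)) D_closed_topg
        ((isClosed_le (by fun_prop) (by fun_prop)).inter (isClosed_le (by fun_prop) (by fun_prop)))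
        ((isClosed_le (by fun_prop) (by fun_prop)).union (isClosed_le (by fun_prop) (by fun_prop)))
        ?_ ?_ ?_ ?_ ?_
      · intro x _
        by_cases h3 : 73 / 100 * x.2.1 ≤ 1 / 5
        · exact Or.inr (Or.inl h3)
        · by_cases h4 : 73 / 100 - 13 / 100 * x.1 ≤ 73 / 100 * x.2.1
          · exact Or.inr (Or.inr h4)
          · exact Or.inl ⟨(not_le.1 h3).le, (not_le.1 h4).le⟩
      · intro x hx
        exact g1 x hx.2
      · intro x hx
        exact g2 x hx.1.1 hx.1.2 hx.2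
      · refine hz.comp ?_ (fun x hx => hθ x hx.1.1 hx.2.1 hx.2.2)
        simp only [θ]
        refine ContinuousOn.add (Continuous.continuousOn (by fun_prop)) (ContinuousOn.mul
          (Continuous.continuousOn (by fun_prop)) (ContinuousOn.div
          (Continuous.continuousOn (by fun_prop)) (Continuous.continuousOn (by fun_prop)) ?_))
        intro x hx
        linarith [hx.1.1.2]
      · exact hFnu.comp continuous_snd.continuousOn (fun x hx => hx.1.2)
    · intro m hm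
      show G (0, m) = h (X m, Rm m)
      have hle' := hle m hm
      rcases le_total (73 / 100 * m.1) (1 / 5) with h2 | h2
      · rw [g2 (0, m) ⟨le_rfl, zero_le_one⟩ hm (Or.inl h2), ← hlo m hm h2]
        have e : X m = 1 := by
          simp only [X]
          refine min_eq_left ?_
          rw [le_div_iff₀ (by norm_num)]
          linarith
        rw [e]
      · rw [g1 (0, m) ⟨h2, by show 73 / 100 * m.1 ≤ 73 / 100 - 13 / 100 * 0; linarith⟩]
        have e : X m = 73 * (1 - m.1) / 53 := by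
          simp only [X]
          refine min_eq_right ?_
          rw [div_le_one (by norm_num)]
          linarith
        have e2 : θ (0, m) = (1 + 73 * (1 - m.1) / 53) / 2 := by
          simp only [θ]
          ring
        have h5 : 0 ≤ 73 * (1 - m.1) / 53 := div_nonneg (by linarith) (by norm_num)
        have h6 : 73 * (1 - m.1) / 53 ≤ 1 := by
          rw [div_le_one (by norm_num)]
          linarith
        rw [e, e2, hz2 _ ⟨by linarith, by linarith⟩, Rm_hi m hm h2]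
        congr 2
        ring
    · intro m hm
      show G (1, m) = if _ then _ else _
      have e2 : θ (1, m) = T m := by
        simp only [θ, T]
        ring
      by_cases hc : 1 / 5 ≤ 73 / 100 * m.1 ∧ 73 / 100 * m.1 ≤ 3 / 5
      · rw [if_pos hc, g1 (1, m) ⟨hc.1, by
          show 73 / 100 * m.1 ≤ 73 / 100 - 13 / 100 * 1
          linarith [hc.2]⟩, e2]
      · rw [if_neg hc]
        refine if_neg ?_
        rintro ⟨h3, h4⟩
        refine hc ⟨h3, ?_⟩
        have h4' : 73 / 100 * m.1 ≤ 73 / 100 - 13 / 100 * 1 := h4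
        linarith
    · intro u hu
      rw [g2 (u, (1, 0)) hu one_mem_topg (Or.inr ?_)]
      · exact hbase
      · show 73 / 100 - 13 / 100 * u ≤ 73 / 100 * 1
        linarith [hu.1]
    · intro u hu m hm
      by_cases hc : 1 / 5 ≤ 73 / 100 * m.1 ∧ 73 / 100 * m.1 ≤ 73 / 100 - 13 / 100 * u
      · rw [g1 (u, m) hc]
        exact hzK _ (hθ (u, m) hu hc.1 hc.2)
      · have e : G (u, m) = F (nu m) := if_neg hc
        rw [e]
        exact hnuK m hm
  have s3 : BH (F '' sph 1) (bp F) f3 (fun m => F (nu m)) := by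
    let G : ℝ × R3 → R4 := fun x =>
      if 1 / 5 ≤ 73 / 100 * x.2.1 ∧ 73 / 100 * x.2.1 ≤ 3 / 5 then P (x.1, T x.2)
      else F (nu x.2)
    have g1 : ∀ x : ℝ × R3, 1 / 5 ≤ 73 / 100 * x.2.1 ∧ 73 / 100 * x.2.1 ≤ 3 / 5 →
        G x = P (x.1, T x.2) := fun x hx => if_pos hx
    have g2 : ∀ x : ℝ × R3, x.1 ∈ Icc (0 : ℝ) 1 → x.2 ∈ S2 → (73 / 100 * x.2.1 ≤ 1 / 5 ∨
        3 / 5 ≤ 73 / 100 * x.2.1) → G x = F (nu x.2) := by
      intro x hx hm h2
      by_cases hc : 1 / 5 ≤ 73 / 100 * x.2.1 ∧ 73 / 100 * x.2.1 ≤ 3 / 5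
      · rw [g1 x hc]
        rcases h2 with h2 | h2
        · have h5 : 73 / 100 * x.2.1 = 1 / 5 := le_antisymm h2 hc.1
          have e1 : T x.2 = 1 := by
            simp only [T, h5]
            norm_num
          rw [e1, nu_foot_topg x.2 hm h5]
          exact hPb _ hx
        · have h5 : 73 / 100 * x.2.1 = 3 / 5 := le_antisymm hc.2 h2
          have e1 : T x.2 = 0 := by
            simp only [T, h5]
            norm_num
          rw [e1, nu_bar_topg x.2 hm hc.1, h5]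
          exact hPa _ hx
      · exact if_neg hc
    have hT : ∀ m : R3, 1 / 5 ≤ 73 / 100 * m.1 → 73 / 100 * m.1 ≤ 3 / 5 →
        T m ∈ Icc (0 : ℝ) 1 := by
      intro m h2 h3
      simp only [T]
      exact ⟨by linarith, by linarith⟩
    refine ⟨G, ?_, ?_, ?_, ?_, ?_⟩
    · refine glue_topg
        (C1 := {x : ℝ × R3 | 1 / 5 ≤ 73 / 100 * x.2.1} ∩ {x : ℝ × R3 | 73 / 100 * x.2.1 ≤ 3 / 5})
        (C2 := {x : ℝ × R3 | 73 / 100 * x.2.1 ≤ 1 / 5} ∪ {x : ℝ × R3 | 3 / 5 ≤ 73 / 100 * x.2.1})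
        (g1 := fun x => P (x.1, T x.2)) (g2 := fun x => F (nu x.2)) D_closed_topg
        ((isClosed_le (by fun_prop) (by fun_prop)).inter (isClosed_le (by fun_prop) (by fun_prop)))
        ((isClosed_le (by fun_prop) (by fun_prop)).union (isClosed_le (by fun_prop) (by fun_prop)))
        ?_ ?_ ?_ ?_ ?_
      · intro x _
        by_cases h3 : 73 / 100 * x.2.1 ≤ 1 / 5
        · exact Or.inr (Or.inl h3)
        · by_cases h4 : 3 / 5 ≤ 73 / 100 * x.2.1
          · exact Or.inr (Or.inr h4)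
          · exact Or.inl ⟨(not_le.1 h3).le, (not_le.1 h4).le⟩
      · intro x hx
        exact g1 x hx.2
      · intro x hx
        exact g2 x hx.1.1 hx.1.2 hx.2
      · refine hP.comp ?_ (fun x hx => ⟨hx.1.1, hT x.2 hx.2.1 hx.2.2⟩)
        simp only [T]
        exact Continuous.continuousOn (by fun_prop)
      · exact hFnu.comp continuous_snd.continuousOn (fun x hx => hx.1.2)
    · intro m hm
      show (if _ then _ else _) = if _ then _ else _
      by_cases hc : 1 / 5 ≤ 73 / 100 * m.1 ∧ 73 / 100 * m.1 ≤ 3 / 5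
      · rw [if_pos hc, if_pos hc]
        exact hP0 _ (hT m hc.1 hc.2)
      · rw [if_neg hc, if_neg hc]
    · intro m hm
      show G (1, m) = F (nu m)
      by_cases hc : 1 / 5 ≤ 73 / 100 * m.1 ∧ 73 / 100 * m.1 ≤ 3 / 5
      · rw [g1 (1, m) hc, hP1 _ (hT m hc.1 hc.2), nu_bar_topg m hm hc.1]
        congr 2
        simp only [T]
        ring
      · exact if_neg hc
    · intro u hu
      rw [g2 (u, (1, 0)) hu one_mem_topg (Or.inr ?_)]
      · exact hbase
      · show 3 / 5 ≤ 73 / 100 * 1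
        norm_num
    · intro u hu m hm
      by_cases hc : 1 / 5 ≤ 73 / 100 * m.1 ∧ 73 / 100 * m.1 ≤ 3 / 5
      · rw [g1 (u, m) hc]
        exact hPK u hu _ (hT m hc.1 hc.2)
      · have e : G (u, m) = F (nu m) := if_neg hc
        rw [e]
        exact hnuK m hm
  exact BH_trans (BH_trans (BH_trans s0 s1) s2) s3

end Pool.Agent.Helper18.BI.R


end

/-! ## Helper34.BI.R.M_SMG -/

section

/-!
# Project BI, stage 4 (R), module SMG: smoothing relative to the boundary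
-/

set_option autoImplicit false

open scoped Manifold ContDiff Topology ComplexConjugate
open Set Filter Pool.Agent.Helper65.Barb Pool.Agent.Helper18.BI Pool.Agent.Helper18.BI.R
open Pool.Agent.Helper27.H (ArcD)

namespace Pool.Agent.Helper34.BI.R

/-- soft truncation -/
noncomputable def trc (δ : ℝ) (v : R4) : R4 := (max (‖v‖ - δ) 0 / max ‖v‖ δ) • v

theorem continuous_trc {δ : ℝ} (hδ : 0 < δ) : Continuous (trc δ) := by
  have h1 : Continuous fun v : R4 => max (‖v‖ - δ) 0 / max ‖v‖ δ := by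
    refine Continuous.div ?_ ?_ fun v => ?_
    · fun_prop
    · fun_prop
    · exact (lt_of_lt_of_le hδ (le_max_right _ _)).ne'
  exact h1.smul continuous_id

theorem trc_eq_zero {δ : ℝ} {v : R4} (h : ‖v‖ ≤ δ) : trc δ v = 0 := by
  unfold trc
  rw [max_eq_right (by linarith : ‖v‖ - δ ≤ 0), zero_div, zero_smul]

theorem norm_trc_sub {δ : ℝ} (hδ : 0 < δ) (v : R4) : ‖trc δ v - v‖ ≤ δ := by
  rcases le_or_gt ‖v‖ δ with h | h
  · rw [trc_eq_zero h, zero_sub, norm_neg]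
    exact h
  · have hv : 0 < ‖v‖ := hδ.trans h
    unfold trc
    rw [max_eq_left (by linarith : 0 ≤ ‖v‖ - δ), max_eq_left h.le]
    have e : ((‖v‖ - δ) / ‖v‖) • v - v = (-(δ / ‖v‖)) • v := by
      rw [← sub_eq_zero, sub_sub, ← one_smul ℝ v, smul_smul, smul_smul, ← add_smul, ← sub_smul]
      have : (‖(1 : ℝ) • v‖ - δ) / ‖(1 : ℝ) • v‖ * 1 - (1 + -(δ / ‖(1 : ℝ) • v‖) * 1) = 0 := by
        rw [one_smul]
        field_simp
        ring
      rw [this, zero_smul]
    rw [e, norm_smul, norm_neg, Real.norm_eq_abs, abs_of_pos (div_pos hδ hv),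
      div_mul_cancel₀ _ hv.ne']

theorem m_SMG : StSMG := by
  intro D c₀ c₁ h₀ h₁ ⟨H, hH, hH01, hHU⟩
  have hm : D.m₀ < D.m₁ := D.h₁
  -- the linear interpolation
  let τ : ℝ → ℝ := fun u => step (3 * u - 1)
  have hτ : ContDiff ℝ ∞ τ := contDiff_step.comp (by fun_prop)
  have hτ0 : τ 0 = 0 := step_of_nonpos (by norm_num)
  have hτ1 : τ 1 = 1 := step_of_one_le (by norm_num)
  let S : ℝ × ℝ × ℝ → R4 := fun z => (1 - τ z.1) • c₀ z.2.1 z.2.2 + τ z.1 • c₁ z.2.1 z.2.2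
  have hS : ContDiff ℝ ∞ S := by
    have a0 : ContDiff ℝ ∞ (fun z : ℝ × ℝ × ℝ => c₀ z.2.1 z.2.2) := h₀.smooth.comp contDiff_snd
    have a1 : ContDiff ℝ ∞ (fun z : ℝ × ℝ × ℝ => c₁ z.2.1 z.2.2) := h₁.smooth.comp contDiff_snd
    have a2 : ContDiff ℝ ∞ (fun z : ℝ × ℝ × ℝ => τ z.1) := hτ.comp contDiff_fst
    exact ((contDiff_const.sub a2).smul a0).add (a2.smul a1)
  have hS0 : ∀ q s, S (0, q, s) = c₀ q s := fun q s => by
    show (1 - τ 0) • c₀ q s + τ 0 • c₁ q s = _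
    rw [hτ0, sub_zero, one_smul, zero_smul, add_zero]
  have hS1 : ∀ q s, S (1, q, s) = c₁ q s := fun q s => by
    show (1 - τ 1) • c₀ q s + τ 1 • c₁ q s = _
    rw [hτ1, sub_self, one_smul, zero_smul, zero_add]
  have hSc : ∀ u q s, c₀ q s = D.c s → c₁ q s = D.c s → S (u, q, s) = D.c s := fun u q s e0 e1 => by
    show (1 - τ u) • c₀ q s + τ u • c₁ q s = _
    rw [e0, e1, ← add_smul, sub_add_cancel, one_smul]
  -- the cube
  let C : Set (ℝ × ℝ × ℝ) := Icc (0 : ℝ) 1 ×ˢ (Icc (0 : ℝ) 1 ×ˢ Icc D.m₀ D.m₁)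
  let O : Set (ℝ × ℝ × ℝ) := Ioo (0 : ℝ) 1 ×ˢ (Ioo (0 : ℝ) 1 ×ˢ Ioo D.m₀ D.m₁)
  have hC : IsCompact C := isCompact_Icc.prod (isCompact_Icc.prod isCompact_Icc)
  have hO : IsOpen O := isOpen_Ioo.prod (isOpen_Ioo.prod isOpen_Ioo)
  have hOC : O ⊆ C := prod_mono Ioo_subset_Icc_self (prod_mono Ioo_subset_Icc_self Ioo_subset_Icc_self)
  have hbd : ∀ z ∈ C, z ∉ O → H z = S z := by
    rintro ⟨u, q, s⟩ ⟨hu, hq, hs⟩ hz
    have h2 : u = 0 ∨ u = 1 ∨ q = 0 ∨ q = 1 ∨ s = D.m₀ ∨ s = D.m₁ := by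
      by_contra hne
      push Not at hne
      obtain ⟨n1, n2, n3, n4, n5, n6⟩ := hne
      exact hz ⟨⟨lt_of_le_of_ne hu.1 (Ne.symm n1), lt_of_le_of_ne hu.2 n2⟩,
        ⟨lt_of_le_of_ne hq.1 (Ne.symm n3), lt_of_le_of_ne hq.2 n4⟩,
        ⟨lt_of_le_of_ne hs.1 (Ne.symm n5), lt_of_le_of_ne hs.2 n6⟩⟩
    rcases h2 with rfl | rfl | h2
    · rw [hS0, (hH01 q hq s hs).1]
    · rw [hS1, (hH01 q hq s hs).2]
    · rw [(hHU u hu q hq s hs).2 h2]
      rcases h2 with rfl | rfl | rfl | rfl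
      · rw [hSc _ _ _ (h₀.start s) (h₁.start s)]
      · rw [hSc _ _ _ (h₀.stop s) (h₁.stop s)]
      · rw [hSc _ _ _ (h₀.froz q hq _ (Or.inl le_rfl)) (h₁.froz q hq _ (Or.inl le_rfl))]
      · rw [hSc _ _ _ (h₀.froz q hq _ (Or.inr le_rfl)) (h₁.froz q hq _ (Or.inr le_rfl))]
  -- the difference
  classical
  let E : ℝ × ℝ × ℝ → R4 := fun z => if z ∈ O then H z - S z else 0
  have hE0 : ∀ z, z ∉ O → E z = 0 := fun z hz => if_neg hz
  have hE1 : ∀ z ∈ C, E z = H z - S z := by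
    intro z hz
    by_cases h2 : z ∈ O
    · exact if_pos h2
    · rw [hE0 z h2, hbd z hz h2, sub_self]
  have hE : Continuous E := by
    rw [← continuousOn_univ]
    have h2 : (univ : Set (ℝ × ℝ × ℝ)) = C ∪ Oᶜ := by
      ext z
      simp only [mem_univ, mem_union, mem_compl_iff, true_iff]
      by_cases h3 : z ∈ O
      · exact Or.inl (hOC h3)
      · exact Or.inr h3
    rw [h2]
    refine ContinuousOn.union_of_isClosed ?_ ?_ hC.isClosed hO.isClosed_compl
    · exact (hH.sub hS.continuous.continuousOn).congr hE1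
    · exact continuousOn_const.congr hE0
  -- the distance
  have hHC : IsCompact (H '' C) := hC.image_of_continuousOn hH
  have hHCU : H '' C ⊆ D.U := by
    rintro _ ⟨⟨u, q, s⟩, ⟨hu, hq, hs⟩, rfl⟩
    exact (hHU u hu q hq s hs).1
  obtain ⟨κ, hκ, hκU⟩ := hHC.exists_thickening_subset_open D.openU hHCU
  obtain ⟨δ, hδ, hδκ⟩ : ∃ δ : ℝ, 0 < δ ∧ 2 * δ < κ := ⟨κ / 4, by positivity, by linarith⟩
  -- the truncated function
  let g : ℝ × ℝ × ℝ → R4 := fun z => S z + trc δ (E z)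
  have hg : Continuous g := hS.continuous.add ((continuous_trc hδ).comp hE)
  have hgS : ∀ z, ‖E z‖ ≤ δ → g z = S z := fun z hz => by
    show S z + trc δ (E z) = S z
    rw [trc_eq_zero hz, add_zero]
  have hgH : ∀ z ∈ C, ‖g z - H z‖ ≤ δ := by
    intro z hz
    have h2 : g z - H z = trc δ (E z) - E z := by
      show S z + trc δ (E z) - H z = trc δ (E z) - E z
      rw [hE1 z hz]
      abel
    rw [h2]
    exact norm_trc_sub hδ _
  obtain ⟨c, hc, hcg, hce, -⟩ := hg.exists_contDiff_approx_and_eqOn ⊤ (ε := fun _ => δ)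
    continuous_const (fun _ => hδ) (S := Oᶜ) (U := {z | ‖E z‖ < δ}) hO.isClosed_compl
    ((isOpen_lt hE.norm continuous_const).mem_nhdsSet.2 fun z hz => by
      show ‖E z‖ < δ
      rw [hE0 z hz, norm_zero]
      exact hδ) (hS.contDiffOn.congr fun z hz => hgS z (le_of_lt hz))
  have hcs : ContDiff ℝ ∞ c := hc
  have hcS : ∀ z, z ∉ O → c z = S z := fun z hz => by
    rw [hce hz, hgS z (by rw [hE0 z hz, norm_zero]; exact hδ.le)]
  refine ⟨c, ⟨hcs, ?_, ?_, ?_, ?_⟩, fun q s => ?_, fun q s => ?_⟩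
  · intro u hu q hq s hs
    rw [hcS _ fun h2 => ?_]
    · exact hSc _ _ _ (h₀.froz q hq s hs) (h₁.froz q hq s hs)
    · have h3 := h2.2.2
      rcases hs with hs | hs
      · exact absurd h3.1 (not_lt.2 hs)
      · exact absurd h3.2 (not_lt.2 hs)
  · intro u hu q hq s hs
    have hz : (u, q, s) ∈ C := ⟨hu, hq, hs⟩
    apply hκU
    rw [Metric.mem_thickening_iff]
    refine ⟨H (u, q, s), mem_image_of_mem _ hz, ?_⟩
    have h2 := hcg (u, q, s)
    have h3 := hgH _ hz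
    rw [← dist_eq_norm] at h3
    calc dist (c (u, q, s)) (H (u, q, s)) ≤ dist (c (u, q, s)) (g (u, q, s)) +
          dist (g (u, q, s)) (H (u, q, s)) := dist_triangle _ _ _
      _ < κ := by linarith
  · intro u hu s
    rw [hcS _ fun h2 => absurd h2.2.1.1 (lt_irrefl _)]
    exact hSc _ _ _ (h₀.start s) (h₁.start s)
  · intro u hu s
    rw [hcS _ fun h2 => absurd h2.2.1.2 (lt_irrefl _)]
    exact hSc _ _ _ (h₀.stop s) (h₁.stop s)
  · rw [hcS _ fun h2 => absurd h2.1.1 (lt_irrefl _), hS0]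
  · rw [hcS _ fun h2 => absurd h2.1.2 (lt_irrefl _), hS1]

end Pool.Agent.Helper34.BI.R


end
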