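import Pool.Agent.Helper65.Barb.Defs
import Pool.Agent.Helper70.BI.B.P18

/-!
# Project BI (MP_8e98f2_gt): collected modules, part 43

The contents of the modules
* Helper70.BI.M_R3
* Helper70.BI.M_FML
* Helper70.BI.M_LGG
* Helper70.BI.M_SM
* Helper70.BI.M_R3J
* Helper70.BI.H.M_SML

in one file, so that the whole proof builds in a short time.
-/

/-! ## Helper70.BI.M_R3 -/

section

/-!
# Module R3 of project BI, part (E): opposite signs at the near end give inverse classes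
-/

set_option autoImplicit false

open scoped Manifold ContDiff Topology ComplexConjugate
open Set Filter Pool.Agent.Helper65.Barb Pool.Agent.Helper18.BI

namespace Pool.Agent.Helper70.BI

open Pool.Agent.Helper34.BI (BarData barFam)
open Pool.Agent.Helper27.BI (refh refs swp IsKap StVanT StRefH StRefS StR2sw StADD2)

namespace R3

theorem rsq_eq (c : ℝ) (p : R4) : rsq c p = (p.2.1 - c) ^ 2 + p.2.2.re ^ 2 + p.2.2.im ^ 2 := rfl

theorem flat0_le {p : R4} (hp : p ∈ flat 0) : p.2.1 ≤ 1 / 5 := by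
  have h := hp.2
  rw [rsq_eq] at h
  nlinarith [sq_nonneg p.2.2.re, sq_nonneg p.2.2.im]

theorem sph1_ge {p : R4} (hp : p ∈ sph 1) : 4 / 5 ≤ p.2.1 := by
  have h := hp.2
  rw [rsq_eq] at h
  nlinarith [sq_nonneg p.2.2.re, sq_nonneg p.2.2.im]

theorem sph1_flat1 {p : R4} (hp : p ∈ sph 1) : p ∈ flat 1 := ⟨hp.1, hp.2.le⟩

theorem neck_ax {p : R4} (hp : p ∈ neck) : p = ax p.2.1 := by
  obtain ⟨h1, _, _, h4⟩ := hp
  obtain ⟨s, a, w⟩ := p
  simp only at h1 h4
  subst h1
  subst h4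
  rfl

/-- the core meets the flat ball only at the foot, `ax 0` and the point x2 -/
theorem core_flat {J : R4 → R4} {d : ℝ} (hJ : IsJ1 J d) {a : ℝ}
    (ha : 1 / 5 ≤ a) (ha' : a ≤ 4 / 5) (h : core J a ∈ flat 0) :
    a = 1 / 5 ∨ core J a = ax 0 ∨ core J a = (1 / 2, x2) := by
  rcases le_or_gt a (9 / 40) with h1 | h1
  · left
    have h2 : core J a = ax a := hJ.ends (ax a) (Or.inl h1)
    rw [h2] at h
    have h3 := flat0_le h
    have h4 : (ax a).2.1 = a := rfl
    rw [h4] at h3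
    linarith
  · rcases le_or_gt (31 / 40) a with h5 | h5
    · exfalso
      have h2 : core J a = ax a := hJ.ends (ax a) (Or.inr h5)
      rw [h2] at h
      have h3 := flat0_le h
      have h4 : (ax a).2.1 = a := rfl
      rw [h4] at h3
      linarith
    · right
      rcases le_or_gt |a - 2 / 5| (1 / 100) with h6 | h6
      · exfalso
        rw [hJ.strand a h6] at h
        have h3 := flat0_le h
        have h4 : ((1 / 2 + d * (a - 2 / 5), pc 1) : R4).2.1 = 1 := rfl
        rw [h4] at h3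
        linarith
      · rcases le_or_gt |a - 3 / 5| (3 / 200) with h7 | h7
        · rw [hJ.para a h7] at h ⊢
          have h8 : (1 / 2 + (1 - (100 * (a - 3 / 5)) ^ 2) / 10 : ℝ) = 1 / 2 := h.1
          have h9 : (100 * (a - 3 / 5) - 1) * (100 * (a - 3 / 5) + 1) = 0 := by linarith
          rcases mul_eq_zero.1 h9 with h10 | h10
          · right
            have h11 : 100 * (a - 3 / 5) = 1 := by linarith
            rw [h11]
            unfold x2
            norm_num
          · left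
            have h11 : 100 * (a - 3 / 5) = -1 := by linarith
            rw [h11]
            unfold ax
            norm_num
        · exfalso
          have h8 := hJ.off a ⟨by linarith, by linarith⟩ h6 h7
          rcases h8 with h9 | h9
          · exact h9 h.1
          · have h3 := flat0_le h
            linarith [h9.1]

theorem inj0 {J : R4 → R4} {d : ℝ} (hJ : IsJ1 J d) :
    InjOn J ((flat 0 ∪ neck ∪ sph 1) \ {ax 0, (1 / 2, x2)}) := by
  have key : ∀ p q : R4, p ∈ flat 0 → p ≠ ax 0 → p ≠ (1 / 2, x2) → q ∈ neck ∪ sph 1 →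
      J p = J q → p = q := by
    intro p q hp hp0 hp2 hq he
    have h1 : J p = p := hJ.ends p (Or.inl (by linarith [flat0_le hp]))
    rcases hq with hq | hq
    · have h2 := neck_ax hq
      have h3 : core J q.2.1 = p := by
        unfold core
        rw [← h2, ← he, h1]
      rcases core_flat hJ hq.2.1 hq.2.2.1 (by rw [h3]; exact hp) with h4 | h4 | h4
      · have h5 : J (ax (1 / 5)) = ax (1 / 5) := hJ.ends (ax (1 / 5)) (Or.inl (by
          show (1 / 5 : ℝ) ≤ 9 / 40
          norm_num))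
        rw [← h3]
        unfold core
        rw [h4, h5, h2, h4]
      · exact absurd (h3.symm.trans h4) hp0
      · exact absurd (h3.symm.trans h4) hp2
    · have h2 : J q = q := hJ.ends q (Or.inr (by linarith [sph1_ge hq]))
      rw [← h1, he, h2]
  have hSP : ∀ p : R4, p ∈ neck ∪ sph 1 → p ∈ SP := by
    intro p hp
    rcases hp with hp | hp
    · exact Or.inr hp
    · exact Or.inl (Or.inr hp)
  intro p hp q hq he
  obtain ⟨hp1, hp2⟩ := hp
  obtain ⟨hq1, hq2⟩ := hq
  have hp3 : p ≠ ax 0 := fun h => hp2 (Or.inl h)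
  have hp4 : p ≠ (1 / 2, x2) := fun h => hp2 (Or.inr h)
  have hq3 : q ≠ ax 0 := fun h => hq2 (Or.inl h)
  have hq4 : q ≠ (1 / 2, x2) := fun h => hq2 (Or.inr h)
  have hp5 : p ∈ flat 0 ∨ p ∈ neck ∪ sph 1 := by
    rcases hp1 with (h | h) | h
    · exact Or.inl h
    · exact Or.inr (Or.inl h)
    · exact Or.inr (Or.inr h)
  have hq5 : q ∈ flat 0 ∨ q ∈ neck ∪ sph 1 := by
    rcases hq1 with (h | h) | h
    · exact Or.inl h
    · exact Or.inr (Or.inl h)
    · exact Or.inr (Or.inr h)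
  rcases hp5 with hp6 | hp6
  · rcases hq5 with hq6 | hq6
    · have h1 : J p = p := hJ.ends p (Or.inl (by linarith [flat0_le hp6]))
      have h2 : J q = q := hJ.ends q (Or.inl (by linarith [flat0_le hq6]))
      rw [← h1, he, h2]
    · exact key p q hp6 hp3 hp4 hq6 he
  · rcases hq5 with hq6 | hq6
    · exact (key q p hq6 hq3 hq4 hp6 he.symm).symm
    · exact hJ.inj (hSP p hp6) (hSP q hq6) he

end R3

/-- MODULE R3. -/
theorem m_R3 (hR3J : StR3J) (hAG : StAG) (hR3T : StR3T) (hT2 : StT2) : StR3 := by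
  intro d hd
  obtain ⟨J, hJ⟩ := hR3J d hd
  obtain ⟨r, k1, k2, hr0, hr1, K1, K2, h17, h20, t1, t2, hmain⟩ := hAG
  obtain ⟨⟨Th1, det1⟩, Th2, det2⟩ := hR3T J d r k1 k2 hd hJ hr0 K1 K2 h17 h20
  have hT := hT2 R4 R4 I4 R4
  have hcls : ∀ (F : R4 → R4) (α β e : ℝ), Theta F α β e d → ∃ φ : R4 → R4, Thin I4 F φ := by
    intro F α β e hF
    obtain ⟨ε₀, hε₀, h1⟩ := hT.1 F ⟨fun p hp => hF.a.loc p (Or.inl hp), hF.a.inj⟩
    exact ⟨_, h1 (ε₀ / 2) ⟨by linarith, by linarith⟩⟩
  obtain ⟨φ₁, hφ₁⟩ := hcls _ _ _ _ Th1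
  obtain ⟨φ₂, hφ₂⟩ := hcls _ _ _ _ Th2
  refine ⟨fun p => J (k1 p), fun p => J (k2 p), 59 / 100, 61 / 100, 2 / 5, 2 / 5, φ₁, φ₂, Th1, Th2,
    det1, det2, hφ₁, hφ₂, ?_⟩
  refine hmain J ?_ (R3.inj0 hJ) (fun x => x) φ₁ φ₂ hJ.triv hφ₁ hφ₂
  intro p hp
  refine hJ.loc p ?_
  rcases hp with (h | h) | h
  · exact Or.inl (Or.inl h)
  · exact Or.inr h
  · exact Or.inl (Or.inr (R3.sph1_flat1 h))

end Pool.Agent.Helper70.BI


end

/-! ## Helper70.BI.M_FML -/

section

/-!
# Project BI, part (E), module E-FML: the family of germs joining a germ to its lasso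
-/

set_option autoImplicit false

open scoped Manifold ContDiff Topology ComplexConjugate
open Set Filter Pool.Agent.Helper65.Barb Pool.Agent.Helper18.BI

namespace Pool.Agent.Helper70.BI

open Pool.Agent.Helper34.BI (cfac BarData barFam PreCross BFam GenData cst crv mem_neck
  sph_zero_le le_sph_one rsq_nonneg_aux neck_eq)

namespace FML

/-- the contraction used in this file -/
structure Contr (lam : ℝ) : Prop where
  pos : 0 < lam
  cont : Continuous (clc 1 lam)
  emb : EmbOn I4 (clc 1 lam) univ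
  fst : ∀ p, (clc 1 lam p).1 = p.1
  form : ∀ p : R4, rsq 1 p ≤ 1 / 20 → clc 1 lam p = (p.1, pc 1 + lam • (p.2 - pc 1))
  far : ∀ p : R4, 9 / 100 ≤ rsq 1 p → clc 1 lam p = p
  axis : ∀ a, clc 1 lam (ax a) = ax (bb lam a)
  le : ∀ p : R4, rsq 1 (clc 1 lam p) ≤ rsq 1 p
  mono : StrictMono (bb lam)

theorem contr (hCL : StCL) {lam : ℝ} (h0 : 0 < lam) (h1 : lam ≤ 1) : Contr lam := by
  obtain ⟨c1, -, c3⟩ := hCL 1 (Or.inr rfl)
  obtain ⟨c4, c5, c6, c7, c8, c9, c10⟩ := c3 lam ⟨h0, h1⟩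
  refine ⟨h0, ?_, c4, c5, c6, c7, c8, c9, strictMono_of_deriv_pos c10⟩
  exact c1.continuous.comp (f := fun p : R4 => (lam, p)) (by fun_prop)

theorem continuous_rsq' (c : ℝ) : Continuous (rsq c) := by
  unfold rsq nsq
  fun_prop

theorem far_sph_zero {p : R4} (hp : p ∈ sph 0) : 9 / 100 < rsq 1 p := by
  have h1 := rsq_nonneg_aux 1 p
  have h2 := sph_zero_le hp
  nlinarith

theorem le_flat {p : R4} (hp : p ∈ flat 1) : 4 / 5 ≤ p.2.1 := by
  have h1 := rsq_nonneg_aux 1 p
  have h2 := hp.2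
  nlinarith

theorem ax_inj {a b : ℝ} (h : ax a = ax b) : a = b := congrArg (fun p : R4 => p.2.1) h

theorem rsq_ax (a : ℝ) : rsq 1 (ax a) = (a - 1) ^ 2 := by
  simp [rsq, nsq, ax]

theorem ax_one_mem : ax 1 ∈ flat 1 := by
  refine ⟨rfl, ?_⟩
  rw [rsq_ax]
  norm_num

namespace Contr
variable {lam : ℝ} (C : Contr lam)
include C

theorem bb_eq {a : ℝ} (h : a ≤ 7 / 10) : bb lam a = a := by
  apply ax_inj
  rw [← C.axis a, C.far]
  rw [rsq_ax]
  nlinarith

omit C in
theorem bb_one : bb lam 1 = 1 := by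
  simp [bb]

theorem bb_mem {a : ℝ} (h : a ∈ Icc (1 / 5 : ℝ) (4 / 5)) : bb lam a ∈ Icc (1 / 5 : ℝ) 1 := by
  constructor
  · have h1 := C.mono.monotone h.1
    rwa [C.bb_eq (by norm_num : (1 / 5 : ℝ) ≤ 7 / 10)] at h1
  · have h1 := C.mono.monotone (show a ≤ 1 by linarith [h.2])
    rwa [bb_one] at h1

theorem mem_flat {p : R4} (h : p ∈ flat 1) : clc 1 lam p ∈ flat 1 :=
  ⟨(C.fst p).trans h.1, (C.le p).trans h.2⟩

/-- near the flat ball the contraction takes values near the centre -/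
theorem near {p : R4} (h : p ∈ flat 1) {ε : ℝ} (hε : lam < ε) :
    ∀ᶠ q in 𝓝 p, ‖clc 1 lam q - ax 1‖ < ε := by
  have hc : Continuous (fun q => ‖clc 1 lam q - ax 1‖) := (C.cont.sub continuous_const).norm
  refine (isOpen_lt hc continuous_const).mem_nhds ?_
  show ‖clc 1 lam p - ax 1‖ < ε
  have h2 : rsq 1 p ≤ 1 / 25 := h.2
  rw [C.form p (h2.trans (by norm_num))]
  have e : ((p.1, pc 1 + lam • (p.2 - pc 1)) : R4) - ax 1 = (0, lam • (p.2 - pc 1)) := by
    have h1 : p.1 = 1 / 2 := h.1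
    have e1 : ax 1 = ((1 / 2, pc 1) : R4) := rfl
    rw [e1, Prod.mk_sub_mk, h1, sub_self, add_sub_cancel_left]
  rw [e]
  have h3 : ‖p.2 - pc 1‖ ≤ 1 := by
    have h4 : (p.2.1 - 1) ^ 2 + p.2.2.re ^ 2 + p.2.2.im ^ 2 ≤ 1 / 25 := h2
    refine (norm_prod_le_iff).2 ⟨?_, ?_⟩
    · have : (p.2 - pc 1).1 = p.2.1 - 1 := rfl
      rw [this, Real.norm_eq_abs, abs_le]
      constructor <;> nlinarith [sq_nonneg p.2.2.re, sq_nonneg p.2.2.im]
    · have : (p.2 - pc 1).2 = p.2.2 := by
        show p.2.2 - 0 = p.2.2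
        rw [sub_zero]
      rw [this]
      have h5 := Complex.sq_norm p.2.2
      rw [Complex.normSq_apply] at h5
      nlinarith [norm_nonneg p.2.2, sq_nonneg (p.2.1 - 1)]
  refine lt_of_le_of_lt ?_ hε
  refine (norm_prod_le_iff).2 ⟨by simpa using C.pos.le, ?_⟩
  show ‖lam • (p.2 - pc 1)‖ ≤ lam
  rw [norm_smul, Real.norm_of_nonneg C.pos.le]
  nlinarith [C.pos]

/-- near the flat ball the contracted germ is the contraction -/
theorem eq_flat {F : R4 → R4} {γ e δ : ℝ} (N : NB 1 F γ e δ) (hl : lam < δ) {p : R4}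
    (h : p ∈ flat 1) : (fun p => F (clc 1 lam p)) =ᶠ[𝓝 p] clc 1 lam := by
  filter_upwards [C.near h hl] with q hq
  exact N.near _ hq

/-- near the first cuff the contraction is the identity -/
theorem eq_sph {p : R4} (h : p ∈ sph 0) : ∀ᶠ q in 𝓝 p, clc 1 lam q = q := by
  have h1 : ∀ᶠ q in 𝓝 p, 9 / 100 < rsq 1 q :=
    (isOpen_lt continuous_const (continuous_rsq' 1)).mem_nhds (far_sph_zero h)
  filter_upwards [h1] with q hq
  exact C.far q (le_of_lt hq)

end Contr

theorem core_mid {F : R4 → R4} {d δ : ℝ} (N : NB 1 F (2 / 5) d δ) :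
    core F (2 / 5) = F (ax 1) := by
  rw [N.str (2 / 5) (by simpa using N.pos), N.near (ax 1) (by simpa using N.pos)]
  simp [ax, pc]

/-- the framing lemma in the form used here -/
theorem eqv_fr (hFr : StFr) {F F' : R4 → R4} (h1 : EmbOn I4 F SP) (h2 : EmbOn I4 F' SP)
    (h3 : ∀ p ∈ sph 0 ∪ sph 1, F =ᶠ[𝓝 p] F')
    (h4 : ∀ a ∈ Icc (1 / 5 : ℝ) (4 / 5), F (ax a) = F' (ax a)) : Eqv F F' := by
  obtain ⟨U, u1, u2, u3⟩ := nearEq_of_eventuallyEq h3
  refine hFr F F' U h1 h2 u1 u2 u3 fun p hp => ?_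
  rw [neck_eq hp]
  exact h4 p.2.1 ⟨hp.2.1, hp.2.2.1⟩

theorem sph_sub_flat : sph 1 ⊆ flat 1 := fun _ hp => ⟨hp.1, hp.2.le⟩

end FML

open FML

/-- **FML.** The family of germs joining a germ to its lasso. -/
theorem m_FML (hFML1 : StFML1) (hCL : StCL) (hCTR : StCTR) (hFr : StFr)
    (hCH : Pool.Agent.Helper34.BI.StCH) : StFML := by
  intro F F' d δ δ' r δ₂ H hd L hδ hδ' A
  obtain ⟨lam, l0, l1, l2, l3, -, G, only, late⟩ := hFML1 F F' d δ δ' r δ₂ H hd L hδ hδ' A
  have C : Contr lam := contr hCL l0 (by linarith)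
  have z : (1 : ℝ) - 1 = 0 := by norm_num
  -- the contracted germs
  obtain ⟨eF, qF⟩ := hCTR 1 F (2 / 5) (Or.inr rfl) L.nb.br.loc L.nb.br.inj L.nb.br.injF
    (core_mid L.nb) L.nb.br.only lam ⟨l0, by linarith⟩
  obtain ⟨eF', qF'⟩ := hCTR 1 F' (2 / 5) (Or.inr rfl) L.nb'.br.loc L.nb'.br.inj L.nb'.br.injF
    (core_mid L.nb') L.nb'.br.only lam ⟨l0, by linarith⟩
  set Fl : R4 → R4 := fun p => F (clc 1 lam p) with hFl
  set Gl : R4 → R4 := fun p => F' (clc 1 lam p) with hGl
  have near : ∀ p ∈ sph 0 ∪ sph 1, Fl =ᶠ[𝓝 p] Gl := by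
    rintro p (hp | hp)
    · have h1 := L.near.eventuallyEq hp
      filter_upwards [C.eq_sph hp, h1] with q hq1 hq2
      show F (clc 1 lam q) = F' (clc 1 lam q)
      rw [hq1, hq2]
    · exact (C.eq_flat L.nb l2 (sph_sub_flat hp)).trans (C.eq_flat L.nb' l3 (sph_sub_flat hp)).symm
  -- the family
  set c₀ : ℝ → R4 := fun a => H (0, bb lam a) with hc₀
  set Hl : ℝ × ℝ → R4 := fun z => H (z.1, bb lam z.2) with hHl
  set J : ℝ × R4 → R4 := barFam Gl c₀ Hl (1 / 50) with hJ
  have B : BarData Gl c₀ Hl (1 / 50) := G.bar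
  have Jfl : ∀ (t : ℝ) (p : R4), 4 / 5 - 1 / 100 ≤ p.2.1 → J (t, p) = Gl p := fun t p hp =>
    B.barFam_eq (Or.inr (by linarith))
  have Jcuff : ∀ t : ℝ, ∀ p ∈ sph 0 ∪ sph 1, J (t, p) = Gl p := fun t p hp => G.cuff_val t hp
  have Jcuffe : ∀ t : ℝ, ∀ p ∈ sph 0 ∪ sph 1, Gl =ᶠ[𝓝 p] fun p => J (t, p) := by
    intro t p hp
    have h1 := G.cuff_eventually t hp
    have hcont : Continuous (fun q : R4 => (t, q)) := by fun_prop
    filter_upwards [hcont.continuousAt.eventually h1] with q hq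
    exact hq.symm
  have Jflat : ∀ t : ℝ, ∀ p ∈ flat 1, (fun p => J (t, p)) =ᶠ[𝓝 p] Gl := by
    intro t p hp
    have h1 : ∀ᶠ q : R4 in 𝓝 p, 4 / 5 - 1 / 100 < q.2.1 :=
      (isOpen_lt continuous_const (by fun_prop)).mem_nhds
        (show 4 / 5 - 1 / 100 < p.2.1 by linarith [le_flat hp])
    filter_upwards [h1] with q hq
    exact Jfl t q hq.le
  have Jval : ∀ t : ℝ, ∀ p ∈ flat 1, J (t, p) = Gl p := fun t p hp =>
    Jfl t p (by linarith [le_flat hp])
  have Jneck : ∀ t : ℝ, ∀ a ∈ Icc (1 / 5 : ℝ) (4 / 5), J (t, ax a) = H (t, bb lam a) :=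
    fun t a ha => B.barFam_neck ha.1 ha.2
  have Jax : ∀ t : ℝ, (fun p => J (t, p)) =ᶠ[𝓝 (ax 1)] clc 1 lam := fun t =>
    (Jflat t (ax 1) ax_one_mem).trans (C.eq_flat L.nb' l3 ax_one_mem)
  -- the members of the family at the ends
  have e0 : EmbOn I4 (fun p => J (0, p)) SP := B.embOn (G.imm 0) G.injF (G.injH 0) G.dis₀
  have e1 : EmbOn I4 (fun p => J (1, p)) SP := B.embOn (G.imm 1) G.injF (G.injH 1) G.dis₁
  refine ⟨J, ?_, e0, e1, ?_, ?_⟩
  · refine ⟨fun t p hp => B.eventually_smooth t hp, ?_, (G.bfam hCH).finite, ?_, ?_, ?_, ?_, ?_⟩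
    · rintro t p (hp | hp)
      · exact B.isLocalDiffeomorphAt (G.imm t) hp
      · exact ld_congr ((Jflat t p hp).trans (C.eq_flat L.nb' l3 hp)).symm (C.emb.1 p (mem_univ _))
    · intro t ht
      obtain ⟨u, hu, hm⟩ := G.exists_crossing ht
      obtain ⟨h1, p, hp, he⟩ := late t u hu hm
      exact ⟨u, p, h1, G.preCross_zero hCH hu hp he⟩
    · intro t t' p hp
      rw [Jval t p hp, Jval t' p hp]
    · intro t p hp q hq he
      have key : ∀ p ∈ flat 1 ∪ sph 0, J (t, p) = Gl p ∧ clc 1 lam p ∈ flat 1 ∪ sph (1 - 1) := by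
        rintro p (hp | hp)
        · exact ⟨Jval t p hp, Or.inl (C.mem_flat hp)⟩
        · refine ⟨Jcuff t p (Or.inl hp), Or.inr ?_⟩
          rw [z, C.far p (far_sph_zero hp).le]
          exact hp
      simp only at he
      rw [(key p hp).1, (key q hq).1] at he
      exact C.emb.2 (mem_univ _) (mem_univ _)
        (L.nb'.br.injF (key p hp).2 (key q hq).2 he)
    · intro t
      have hm : (2 / 5 : ℝ) ∈ Icc (1 / 5 : ℝ) (4 / 5) := by constructor <;> norm_num
      have hval : ∀ a, |a - 2 / 5| < min δ₂ (1 / 10) →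
          J (t, ax a) = (1 / 2 + d * (a - 2 / 5), pc 1) := by
        intro a ha
        have h1 := abs_lt.1 (lt_of_lt_of_le ha (min_le_right _ _))
        rw [Jneck t a ⟨by linarith, by linarith⟩, C.bb_eq (by linarith)]
        exact A.mid t a (lt_of_lt_of_le ha (min_le_left _ _)).le
      have hpos : 0 < min δ₂ (1 / 10) := lt_min A.pos (by norm_num)
      have fix : clc 1 lam (ax 1) = ax 1 := by rw [C.axis, Contr.bb_one]
      refine ⟨pc 1, ?_, ?_, d, 0, ?_, ?_⟩
      · simp [nsq]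
      · show J (t, ax (2 / 5)) = J (t, ax 1)
        rw [hval _ (by simpa using hpos), (Jax t).eq_of_nhds, fix]
        simp [ax, pc]
      · rcases hd with rfl | rfl <;> norm_num
      · -- the derivative along the bar
        have hloc : LD (fun p => J (t, p)) (ax (2 / 5)) :=
          B.isLocalDiffeomorphAt (G.imm t) (Or.inr (mem_neck hm.1 hm.2))
        have d1 : HasFDerivAt (fun p => J (t, p)) (fderiv ℝ (fun p => J (t, p)) (ax (2 / 5)))
            (ax (2 / 5)) :=
          ((ld_iff.1 hloc).1.self_of_nhds.differentiableAt (by simp)).hasFDerivAt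
        have l : HasDerivAt (fun a : ℝ => ax a) (0, ((1 : ℝ), (0 : ℂ))) (2 / 5) :=
          (hasDerivAt_const _ _).prodMk ((hasDerivAt_id _).prodMk (hasDerivAt_const _ _))
        have d2 := HasFDerivAt.comp_hasDerivAt_of_eq (2 / 5 : ℝ) d1 l rfl
        have d3 : HasDerivAt (fun a : ℝ => (((1 / 2 + d * (a - 2 / 5), pc 1) : R4)))
            (d, 0) (2 / 5) := by
          have h1 : HasDerivAt (fun a : ℝ => 1 / 2 + d * (a - 2 / 5)) (d * 1) (2 / 5) :=
            (((hasDerivAt_id (2 / 5 : ℝ)).sub_const _).const_mul d).const_add _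
          rw [mul_one] at h1
          exact h1.prodMk (hasDerivAt_const _ _)
        have d4 : HasDerivAt ((fun p => J (t, p)) ∘ fun a => ax a) (d, 0) (2 / 5) := by
          refine d3.congr_of_eventuallyEq ?_
          have h1 : ∀ᶠ a : ℝ in 𝓝 (2 / 5), |a - 2 / 5| < min δ₂ (1 / 10) :=
            (isOpen_lt (by fun_prop) continuous_const).mem_nhds
              (show |(2 / 5 : ℝ) - 2 / 5| < min δ₂ (1 / 10) by simpa using hpos)
          filter_upwards [h1] with a ha
          exact hval a ha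
        rw [d2.unique d4]
        -- the derivative at the centre of the ball
        have g1 : (fun p => J (t, p)) =ᶠ[𝓝 (ax 1)]
            fun p : R4 => (p.1, pc 1 + lam • (p.2 - pc 1)) := by
          have h1 : ∀ᶠ q : R4 in 𝓝 (ax 1), rsq 1 q < 1 / 20 :=
            (isOpen_lt (continuous_rsq' 1) continuous_const).mem_nhds
              (show rsq 1 (ax 1) < 1 / 20 by rw [rsq_ax]; norm_num)
          filter_upwards [Jax t, h1] with q hq1 hq2
          rw [hq1, C.form q hq2.le]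
        have g2 : HasFDerivAt (fun p : R4 => ((p.1, pc 1 + lam • (p.2 - pc 1)) : R4))
            ((ContinuousLinearMap.fst ℝ ℝ R3).prod (lam • ContinuousLinearMap.snd ℝ ℝ R3))
            (ax 1) := by
          refine HasFDerivAt.prodMk (hasFDerivAt_fst) ?_
          exact ((hasFDerivAt_snd.sub_const _).const_smul lam).const_add _
        show ((d, 0) : R4) = fderiv ℝ (fun p => J (t, p)) (ax 1) (d, 0)
        rw [(g2.congr_of_eventuallyEq g1).fderiv]
        simp
    · intro t a ha hm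
      refine only t a ha ?_
      obtain ⟨p, hp, he⟩ := hm
      refine ⟨p, hp, ?_⟩
      rw [← Jneck t a ha]
      exact (Jval t p hp).symm.trans he
  · refine qF'.trans (eqv_fr hFr eF' e0 (Jcuffe 0) fun a ha => ?_)
    rw [Jneck 0 a ha]
    exact G.core a ha
  · refine qF.trans (eqv_fr hFr eF e1 (fun p hp => (near p hp).trans (Jcuffe 1 p hp))
      fun a ha => ?_)
    rw [Jneck 1 a ha, A.stop _ (C.bb_mem ha)]
    show F (clc 1 lam (ax a)) = F (ax (bb lam a))
    rw [C.axis]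

end Pool.Agent.Helper70.BI


end

/-! ## Helper70.BI.M_LGG -/

section

/-!
# Project BI (MP_8e98f2), part (E), module LGG: from local to global in time, general relation
-/

set_option autoImplicit false

open scoped Manifold ContDiff Topology ComplexConjugate
open Set Filter Pool.Agent.Helper65.Barb Pool.Agent.Helper18.BI

namespace Pool.Agent.Helper70.BI

namespace LGG

/-- the hypotheses on the relation and on the family -/
structure Hyp (Q : (R4 → R4) → (R4 → R4) → Prop) (J : ℝ × R4 → R4) : Prop where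
  symm : ∀ F G, Q F G → Q G F
  trans : ∀ F G H, EmbOn I4 G SP → Q F G → Q G H → Q F H
  fam : ∀ t₁ t₂ : ℝ, t₁ ≤ t₂ →
      (∀ t ∈ Icc t₁ t₂, ∀ p ∈ SP, ∀ᶠ q in 𝓝 (t, p), ContDiffAt ℝ ∞ J q) →
      (∀ t ∈ Icc t₁ t₂, EmbOn I4 (fun p => J (t, p)) SP) →
      Q (fun p => J (t₁, p)) (fun p => J (t₂, p))
  smooth : ∀ t, ∀ p ∈ SP, ∀ᶠ q in 𝓝 (t, p), ContDiffAt ℝ ∞ J q
  loc : ∀ t, ∀ p ∈ SP, LD (fun p => J (t, p)) p
  finite : {t | ¬ InjOn (fun p => J (t, p)) SP}.Finite
  cross : ∀ t, ¬ InjOn (fun p => J (t, p)) SP → ∀ ε > 0,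
      ∃ t₁ ∈ Ioo (t - ε) t, ∃ t₂ ∈ Ioo t (t + ε),
      EmbOn I4 (fun p => J (t₁, p)) SP ∧ EmbOn I4 (fun p => J (t₂, p)) SP ∧
      Q (fun p => J (t₁, p)) (fun p => J (t₂, p))

variable {Q : (R4 → R4) → (R4 → R4) → Prop} {J : ℝ × R4 → R4}

/-- off the exceptional times the members of the family are germs of embeddings -/
theorem embOn_of (hJ : Hyp Q J) {t : ℝ}
    (ht : InjOn (fun p => J (t, p)) SP) : EmbOn I4 (fun p => J (t, p)) SP :=
  ⟨hJ.loc t, ht⟩

/-- two times with no exceptional time between them -/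
theorem fam' (hJ : Hyp Q J) {a b : ℝ}
    (h : ∀ t ∈ uIcc a b, InjOn (fun p => J (t, p)) SP) :
    Q (fun p => J (a, p)) (fun p => J (b, p)) := by
  rcases le_total a b with hab | hab
  · rw [uIcc_of_le hab] at h
    exact hJ.fam a b hab (fun t _ => hJ.smooth t) (fun t ht => embOn_of hJ (h t ht))
  · rw [uIcc_of_ge hab] at h
    exact hJ.symm _ _ (hJ.fam b a hab (fun t _ => hJ.smooth t) (fun t ht => embOn_of hJ (h t ht)))

/-- the local claim -/
theorem local_claim (hJ : Hyp Q J) (t : ℝ) :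
    ∃ ε > 0, ∀ a ∈ Ioo (t - ε) (t + ε), ∀ b ∈ Ioo (t - ε) (t + ε),
      InjOn (fun p => J (a, p)) SP → InjOn (fun p => J (b, p)) SP →
        Q (fun p => J (a, p)) (fun p => J (b, p)) := by
  have hfin : ({s | ¬ InjOn (fun p => J (s, p)) SP} \ {t}).Finite := hJ.finite.subset sdiff_subset
  obtain ⟨ε, hε, hball⟩ := Metric.isOpen_iff.1 hfin.isClosed.isOpen_compl t
    (fun h => h.2 rfl)
  rw [Real.ball_eq_Ioo] at hball
  have hloc : ∀ s ∈ Ioo (t - ε) (t + ε), s ≠ t → InjOn (fun p => J (s, p)) SP := by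
    intro s hs hst
    by_contra hc
    exact hball hs ⟨hc, hst⟩
  refine ⟨ε, hε, ?_⟩
  -- the oriented version
  have key : ∀ a ∈ Ioo (t - ε) (t + ε), ∀ b ∈ Ioo (t - ε) (t + ε), a ≤ b →
      InjOn (fun p => J (a, p)) SP → InjOn (fun p => J (b, p)) SP →
        Q (fun p => J (a, p)) (fun p => J (b, p)) := by
    intro a ha b hb hab hia hib
    by_cases hc : InjOn (fun p => J (t, p)) SP ∨ t ∉ Icc a b
    · refine fam' hJ (fun s hs => ?_)
      rw [uIcc_of_le hab] at hs
      by_cases hst : s = t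
      · rcases hc with hc | hc
        · rw [hst]
          exact hc
        · rw [hst] at hs
          exact absurd hs hc
      · exact hloc s ⟨lt_of_lt_of_le ha.1 hs.1, lt_of_le_of_lt hs.2 hb.2⟩ hst
    · push Not at hc
      obtain ⟨hct, hmem⟩ := hc
      have hat : a < t := lt_of_le_of_ne hmem.1 (fun h => hct (h ▸ hia))
      have htb : t < b := lt_of_le_of_ne hmem.2 (fun h => hct (h.symm ▸ hib))
      obtain ⟨t₁, ht₁, t₂, ht₂, e₁, e₂, hm⟩ := hJ.cross t hct ε hε
      have m₁ : Q (fun p => J (a, p)) (fun p => J (t₁, p)) := by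
        refine fam' hJ (fun s hs => hloc s ?_ ?_)
        · rw [mem_uIcc] at hs
          constructor
          · rcases hs with hs | hs <;> linarith [ha.1, ht₁.1, hs.1]
          · rcases hs with hs | hs <;> linarith [hs.2, ht₁.2]
        · rw [mem_uIcc] at hs
          apply ne_of_lt
          rcases hs with hs | hs <;> linarith [hs.2, ht₁.2]
      have m₂ : Q (fun p => J (t₂, p)) (fun p => J (b, p)) := by
        refine fam' hJ (fun s hs => hloc s ?_ ?_)
        · rw [mem_uIcc] at hs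
          constructor
          · rcases hs with hs | hs <;> linarith [ht₂.1, hs.1]
          · rcases hs with hs | hs <;> linarith [hs.2, ht₂.2, hb.2]
        · rw [mem_uIcc] at hs
          apply ne_of_gt
          rcases hs with hs | hs <;> linarith [hs.1, ht₂.1]
      exact hJ.trans _ _ _ e₁ m₁ (hJ.trans _ _ _ e₂ hm m₂)
  intro a ha b hb hia hib
  rcases le_total a b with hab | hab
  · exact key a ha b hb hab hia hib
  · exact hJ.symm _ _ (key b hb a ha hab hib hia)

end LGG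

open LGG in
/-- MODULE LGG. -/
theorem m_LGG : StLGG := by
  intro Q J _ hsymm htrans hfam hsm hld hfin hX h0 h1'
  have hJ : Hyp Q J := ⟨hsymm, htrans, hfam, hsm, hld, hfin, hX⟩
  have hopen : IsOpen {t : ℝ | ∀ᶠ s in 𝓝 t, InjOn (fun p => J (s, p)) SP →
      Q (fun p => J (0, p)) (fun p => J (s, p))} := isOpen_setOfPred_eventually_nhds
  have hclosed : IsClosed {t : ℝ | ∀ᶠ s in 𝓝 t, InjOn (fun p => J (s, p)) SP →
      Q (fun p => J (0, p)) (fun p => J (s, p))} := by
    rw [← closure_subset_iff_isClosed]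
    intro t ht
    obtain ⟨ε, hε, hloc⟩ := local_claim hJ t
    have hO : IsOpen (Ioo (t - ε) (t + ε)) := isOpen_Ioo
    have htO : t ∈ Ioo (t - ε) (t + ε) := ⟨by linarith, by linarith⟩
    obtain ⟨s, hsO, hs⟩ := mem_closure_iff.1 ht _ hO htO
    have hs' : ∀ᶠ r in 𝓝 s, InjOn (fun p => J (r, p)) SP →
      Q (fun p => J (0, p)) (fun p => J (r, p)) := hs
    obtain ⟨V, hV, hVo, hsV⟩ := eventually_nhds_iff.1 (hs'.and (hO.mem_nhds hsO))
    have hdense : Dense ({t | ¬ InjOn (fun p => J (t, p)) SP}ᶜ : Set ℝ) :=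
      hJ.finite.countable.dense_compl ℝ
    obtain ⟨r, hr, hrC⟩ := hdense.exists_mem_open hVo ⟨s, hsV⟩
    have hri : InjOn (fun p => J (r, p)) SP := by
      by_contra hc
      exact hr hc
    obtain ⟨hm, hrO⟩ := hV r hrC
    filter_upwards [hO.mem_nhds htO] with x hx hxi
    exact hJ.trans _ _ _ (embOn_of hJ hri) (hm hri) (hloc r hrO x hx hri hxi)
  have hne : ({t : ℝ | ∀ᶠ s in 𝓝 t, InjOn (fun p => J (s, p)) SP →
      Q (fun p => J (0, p)) (fun p => J (s, p))}).Nonempty := by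
    refine ⟨0, ?_⟩
    obtain ⟨ε, hε, hloc⟩ := local_claim hJ 0
    have hO : IsOpen (Ioo ((0 : ℝ) - ε) (0 + ε)) := isOpen_Ioo
    have htO : (0 : ℝ) ∈ Ioo ((0 : ℝ) - ε) (0 + ε) := ⟨by linarith, by linarith⟩
    show ∀ᶠ s in 𝓝 (0 : ℝ), _
    filter_upwards [hO.mem_nhds htO] with x hx hxi
    exact hloc 0 htO x hx h0.2 hxi
  have huniv := IsClopen.eq_univ ⟨hclosed, hopen⟩ hne
  have h1mem : (1 : ℝ) ∈ {t : ℝ | ∀ᶠ s in 𝓝 t, InjOn (fun p => J (s, p)) SP →
      Q (fun p => J (0, p)) (fun p => J (s, p))} := by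
    rw [huniv]
    exact mem_univ _
  exact (show ∀ᶠ s in 𝓝 (1 : ℝ), InjOn (fun p => J (s, p)) SP →
      Q (fun p => J (0, p)) (fun p => J (s, p)) from h1mem).self_of_nhds h1'.2

end Pool.Agent.Helper70.BI


end

/-! ## Helper70.BI.M_SM -/

section

/-!
# Project BI, part (E): germs close to the identity are realized by isotopies
-/

set_option autoImplicit false

open scoped Manifold ContDiff Topology ComplexConjugate
open Set Filter Pool.Agent.Helper65.Barb Pool.Agent.Helper18.BI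

namespace Pool.Agent.Helper70.BI

namespace SM

variable {E : Type} [NormedAddCommGroup E] [NormedSpace ℝ E]

private theorem smooth_aux (b : E → ℝ) (hb : ContDiff ℝ ∞ b) (hb0 : ∀ x, 2 ≤ ‖x‖ → b x = 0)
    (h : E → E) (y₀ : E) (r : ℝ) (hr : 0 < r)
    (hh : ∀ y, ‖y - y₀‖ < 3 * r → ContDiffAt ℝ ∞ h y) :
    ContDiff ℝ ∞ (fun y => b (r⁻¹ • (y - y₀)) • h y) := by
  rw [contDiff_iff_contDiffAt]
  intro y
  by_cases hy : ‖y - y₀‖ < 3 * r
  · refine ContDiffAt.smul ?_ (hh y hy)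
    exact (hb.comp (contDiff_const.smul (contDiff_id.sub contDiff_const))).contDiffAt
  · have h1 : ∀ᶠ z in 𝓝 y, 2 * r < ‖z - y₀‖ := by
      have hc : Continuous fun z : E => ‖z - y₀‖ := by fun_prop
      exact hc.continuousAt.eventually (lt_mem_nhds (by linarith [not_lt.1 hy]))
    have h2 : (fun y => b (r⁻¹ • (y - y₀)) • h y) =ᶠ[𝓝 y] fun _ => (0 : E) := by
      filter_upwards [h1] with z hz
      rw [hb0, zero_smul]
      rw [norm_smul, norm_inv, Real.norm_of_nonneg hr.le, ← div_eq_inv_mul, le_div_iff₀ hr]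
      exact hz.le
    exact contDiffAt_const.congr_of_eventuallyEq h2

private theorem lip_aux (b : E → ℝ) (K c : ℝ) (hK : 0 ≤ K) (hc : 0 ≤ c)
    (hb : ∀ x y, ‖b x - b y‖ ≤ K * ‖x - y‖) (hb1 : ∀ x, ‖b x‖ ≤ 1)
    (hb0 : ∀ x, 2 ≤ ‖x‖ → b x = 0)
    (h : E → E) (y₀ : E) (r : ℝ) (hr : 0 < r) (h0 : h y₀ = 0)
    (hh : ∀ x y, ‖x - y₀‖ ≤ 2 * r → ‖y - y₀‖ ≤ 2 * r → ‖h x - h y‖ ≤ c * ‖x - y‖) (x y : E) :
    ‖b (r⁻¹ • (x - y₀)) • h x - b (r⁻¹ • (y - y₀)) • h y‖ ≤ c * (1 + 2 * K) * ‖x - y‖ := by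
  have hout : ∀ z : E, 2 * r < ‖z - y₀‖ → b (r⁻¹ • (z - y₀)) = 0 := by
    intro z hz
    apply hb0
    rw [norm_smul, norm_inv, Real.norm_of_nonneg hr.le, ← div_eq_inv_mul, le_div_iff₀ hr]
    exact hz.le
  have hbd : ∀ z : E, ‖z - y₀‖ ≤ 2 * r → ‖h z‖ ≤ c * (2 * r) := by
    intro z hz
    have := hh z y₀ hz (by rw [sub_self, norm_zero]; positivity)
    rw [h0, sub_zero] at this
    exact this.trans (by gcongr)
  have hbl : ∀ z w : E, ‖b (r⁻¹ • (z - y₀)) - b (r⁻¹ • (w - y₀))‖ ≤ K * (r⁻¹ * ‖z - w‖) := by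
    intro z w
    refine (hb _ _).trans (le_of_eq ?_)
    rw [← smul_sub, norm_smul, norm_inv, Real.norm_of_nonneg hr.le]
    congr 3
    abel
  have hone : ∀ z w : E, ‖z - y₀‖ ≤ 2 * r →
      ‖(b (r⁻¹ • (z - y₀)) - b (r⁻¹ • (w - y₀))) • h z‖ ≤ c * (2 * K) * ‖z - w‖ := by
    intro z w hz
    rw [norm_smul]
    calc _ ≤ (K * (r⁻¹ * ‖z - w‖)) * (c * (2 * r)) := by
          gcongr
          · exact hbl z w
          · exact hbd z hz
      _ = c * (2 * K) * ‖z - w‖ := by field_simp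
  have key : ∀ x y : E, ‖x - y₀‖ ≤ 2 * r →
      ‖b (r⁻¹ • (x - y₀)) • h x - b (r⁻¹ • (y - y₀)) • h y‖ ≤ c * (1 + 2 * K) * ‖x - y‖ := by
    intro x y hx
    by_cases hy : ‖y - y₀‖ ≤ 2 * r
    · have e : b (r⁻¹ • (x - y₀)) • h x - b (r⁻¹ • (y - y₀)) • h y =
          (b (r⁻¹ • (x - y₀)) - b (r⁻¹ • (y - y₀))) • h x +
            b (r⁻¹ • (y - y₀)) • (h x - h y) := by
        have e' : ∀ (s t : ℝ) (u v : E), s • u - t • v = (s - t) • u + t • (u - v) := by
          intro s t u v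
          rw [sub_smul, smul_sub]; abel
        exact e' _ _ _ _
      rw [e]
      refine (norm_add_le _ _).trans ?_
      have h1 := hone x y hx
      have h2 : ‖b (r⁻¹ • (y - y₀)) • (h x - h y)‖ ≤ 1 * (c * ‖x - y‖) := by
        rw [norm_smul]
        gcongr
        · exact hb1 _
        · exact hh x y hx hy
      calc _ ≤ c * (2 * K) * ‖x - y‖ + 1 * (c * ‖x - y‖) := add_le_add h1 h2
        _ = c * (1 + 2 * K) * ‖x - y‖ := by ring
    · have e : b (r⁻¹ • (x - y₀)) • h x - b (r⁻¹ • (y - y₀)) • h y =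
          (b (r⁻¹ • (x - y₀)) - b (r⁻¹ • (y - y₀))) • h x := by
        rw [hout y (not_le.1 hy), zero_smul, sub_zero, sub_zero]
      rw [e]
      refine (hone x y hx).trans ?_
      have : 0 ≤ c * ‖x - y‖ := by positivity
      nlinarith
  by_cases hx : ‖x - y₀‖ ≤ 2 * r
  · exact key x y hx
  by_cases hy : ‖y - y₀‖ ≤ 2 * r
  · rw [norm_sub_rev, norm_sub_rev x y]
    exact key y x hy
  · rw [hout x (not_le.1 hx), hout y (not_le.1 hy), zero_smul, zero_smul, sub_zero, norm_zero]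
    positivity

end SM

open SM in
theorem m_SM (hPT : StPT) : StSM := by
  intro E _ _ _
  have : ProperSpace E := FiniteDimensional.proper_real E
  let B : ContDiffBump (0 : E) := ⟨1, 2, one_pos, one_lt_two⟩
  have hBs : ContDiff ℝ ∞ (B : E → ℝ) := B.contDiff
  obtain ⟨K₀, hK₀⟩ := (B.hasCompactSupport.fderiv ℝ).exists_bound_of_continuous
    (hBs.continuous_fderiv (by simp))
  set K : ℝ := max K₀ 0 with hKdef
  have hK : 0 ≤ K := le_max_right _ _
  have hBl : ∀ x y, ‖B x - B y‖ ≤ K * ‖x - y‖ := by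
    intro x y
    exact Convex.norm_image_sub_le_of_norm_fderiv_le (s := univ)
      (fun z _ => hBs.differentiable (by simp) z)
      (fun z _ => (hK₀ z).trans (le_max_left _ _)) convex_univ (mem_univ _) (mem_univ _)
  have hB1 : ∀ x, ‖B x‖ ≤ 1 := fun x => by
    rw [Real.norm_of_nonneg B.nonneg]; exact B.le_one
  have hB0 : ∀ x, 2 ≤ ‖x‖ → B x = 0 := fun x hx =>
    B.zero_of_le_dist (by rw [dist_zero_right]; exact hx)
  refine ⟨1 / (2 * (1 + 2 * K)), by positivity, ?_⟩
  set c : ℝ := 1 / (2 * (1 + 2 * K)) with hc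
  have hc0 : 0 < c := by positivity
  have hcK : c * (1 + 2 * K) = 1 / 2 := by rw [hc]; field_simp
  intro U y₀ f hU hy₀ hf hfix hd
  have hf0 : ContDiffAt ℝ ∞ f y₀ := hf.self_of_nhds
  have hcont : ContinuousAt (fun y => ‖fderiv ℝ f y - ContinuousLinearMap.id ℝ E‖) y₀ := by
    have h1 : ContDiffAt ℝ ∞ (fderiv ℝ f) y₀ := hf0.fderiv_right (by simp)
    exact (h1.continuousAt.sub continuousAt_const).norm
  have hev : ∀ᶠ y in 𝓝 y₀, ContDiffAt ℝ ∞ f y ∧
      ‖fderiv ℝ f y - ContinuousLinearMap.id ℝ E‖ < c ∧ y ∈ U :=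
    hf.and ((hcont.eventually (gt_mem_nhds hd)).and (hU.mem_nhds hy₀))
  obtain ⟨ε, hε, hball⟩ := Metric.eventually_nhds_iff.1 hev
  set r : ℝ := ε / 4 with hr
  have hr0 : 0 < r := by positivity
  have hb3 : ∀ y, ‖y - y₀‖ < 3 * r → ContDiffAt ℝ ∞ f y ∧
      ‖fderiv ℝ f y - ContinuousLinearMap.id ℝ E‖ < c ∧ y ∈ U := by
    intro y hy
    apply hball
    rw [dist_eq_norm]
    linarith
  set h : E → E := fun y => f y - y with hh
  have hhs : ∀ y, ‖y - y₀‖ < 3 * r → ContDiffAt ℝ ∞ h y := fun y hy =>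
    (hb3 y hy).1.sub contDiffAt_id
  have hhl : ∀ x y, ‖x - y₀‖ ≤ 2 * r → ‖y - y₀‖ ≤ 2 * r → ‖h x - h y‖ ≤ c * ‖x - y‖ := by
    intro x y hx hy
    have hfd : ∀ z ∈ Metric.ball y₀ (3 * r), HasFDerivWithinAt h
        (fderiv ℝ f z - ContinuousLinearMap.id ℝ E) (Metric.ball y₀ (3 * r)) z := by
      intro z hz
      rw [Metric.mem_ball, dist_eq_norm] at hz
      exact (((hb3 z hz).1.differentiableAt (by simp)).hasFDerivAt.sub
        (hasFDerivAt_id z)).hasFDerivWithinAt
    refine Convex.norm_image_sub_le_of_norm_hasFDerivWithin_le hfd ?_ (convex_ball _ _) ?_ ?_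
    · intro z hz
      rw [Metric.mem_ball, dist_eq_norm] at hz
      exact (hb3 z hz).2.1.le
    · rw [Metric.mem_ball, dist_eq_norm]; linarith
    · rw [Metric.mem_ball, dist_eq_norm]; linarith
  have hsm := smooth_aux (fun x => B x) hBs hB0 h y₀ r hr0 hhs
  obtain ⟨F, hF⟩ := hPT E (fun q : ℝ × E => step q.1 • (B (r⁻¹ • (q.2 - y₀)) • h q.2))
    ((Real.smoothTransition.contDiff.comp contDiff_fst).smul (hsm.comp contDiff_snd)) (by
      intro t x y
      have h1 := lip_aux (fun x => B x) K c hK hc0.le hBl hB1 hB0 h y₀ r hr0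
        (by simp [hh, hfix]) hhl x y
      rw [hcK] at h1
      have h2 : ‖step t‖ ≤ 1 := by
        rw [step, Real.norm_of_nonneg (Real.smoothTransition.nonneg t)]
        exact Real.smoothTransition.le_one t
      simp only
      rw [← smul_sub, norm_smul]
      calc _ ≤ 1 * (1 / 2 * ‖x - y‖) := by gcongr
        _ = _ := one_mul _)
  refine ⟨F, fun y => ?_, ⟨Metric.closedBall y₀ (2 * r), isCompact_closedBall _ _, ?_, ?_⟩, ?_⟩
  · rw [hF]
    simp [step, Real.smoothTransition.zero]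
  · intro y hy
    rw [Metric.mem_closedBall, dist_eq_norm] at hy
    exact (hb3 y (by linarith)).2.2
  · intro t y hy
    rw [Metric.mem_closedBall, dist_eq_norm, not_le] at hy
    have h0 : B (r⁻¹ • (y - y₀)) = 0 := by
      apply hB0
      rw [norm_smul, norm_inv, Real.norm_of_nonneg hr0.le, ← div_eq_inv_mul, le_div_iff₀ hr0]
      exact hy.le
    rw [hF]
    simp only
    rw [h0, zero_smul, smul_zero, add_zero]
  · filter_upwards [Metric.ball_mem_nhds y₀ hr0] with y hy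
    rw [Metric.mem_ball, dist_eq_norm] at hy
    have h1 : B (r⁻¹ • (y - y₀)) = 1 := by
      apply B.one_of_mem_closedBall
      rw [Metric.mem_closedBall, dist_zero_right, norm_smul, norm_inv,
        Real.norm_of_nonneg hr0.le, ← div_eq_inv_mul, div_le_iff₀ hr0]
      change ‖y - y₀‖ ≤ 1 * r
      linarith
    rw [hF]
    simp only
    rw [h1, step, Real.smoothTransition.one, one_smul, one_smul]
    simp [hh]

end Pool.Agent.Helper70.BI


end

/-! ## Helper70.BI.M_R3J -/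

section

/-!
# Project BI, part (E), module R3J
-/

set_option autoImplicit false

open scoped Manifold ContDiff Topology ComplexConjugate
open Set Filter Pool.Agent.Helper65.Barb Pool.Agent.Helper18.BI

namespace Pool.Agent.Helper70.BI

open Pool.Agent.Helper34.BI (BarData barFam)
open Pool.Agent.Helper27.BI (StVanT)

namespace R3J

theorem rsq_eq (c : ℝ) (p : R4) :
    rsq c p = (p.2.1 - c) ^ 2 + p.2.2.re ^ 2 + p.2.2.im ^ 2 := rfl

theorem le_flat_zero {p : R4} (h : p ∈ flat 0) : p.2.1 ≤ 1 / 5 := by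
  obtain ⟨-, h⟩ := h
  rw [rsq_eq] at h
  have h3 : p.2.1 ^ 2 ≤ (1 / 5) ^ 2 := by
    nlinarith [sq_nonneg p.2.2.re, sq_nonneg p.2.2.im]
  exact (abs_le_of_sq_le_sq' h3 (by norm_num)).2

theorem flat_one_le {p : R4} (h : p ∈ flat 1) : 4 / 5 ≤ p.2.1 := by
  obtain ⟨-, h⟩ := h
  rw [rsq_eq] at h
  have h3 : (p.2.1 - 1) ^ 2 ≤ (1 / 5) ^ 2 := by
    nlinarith [sq_nonneg p.2.2.re, sq_nonneg p.2.2.im]
  linarith [(abs_le_of_sq_le_sq' h3 (by norm_num)).1]

theorem sph_sub_flat (c : ℝ) : sph c ⊆ flat c := fun _ hp => ⟨hp.1, hp.2.le⟩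

theorem step_zero : step 0 = 0 := Real.smoothTransition.zero_of_nonpos le_rfl
theorem step_one : step 1 = 1 := Real.smoothTransition.one_of_one_le le_rfl

theorem not_U3 {p : R4} (h : p ∈ U3) : p ∉ flat 0 ∪ flat 1 := by
  rintro (hp | hp)
  · rcases h with h | h
    · exact h hp.1
    · linarith [h.1, le_flat_zero hp]
  · rcases h with h | h
    · exact h hp.1
    · linarith [h.2, flat_one_le hp]

theorem contDiff_ax : ContDiff ℝ ∞ ax := by
  unfold ax
  exact contDiff_const.prodMk (contDiff_id.prodMk contDiff_const)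

end R3J

open R3J in
theorem m_R3J (hARC3 : StARC3) (hF : StFam) (hV : StVanT) : StR3J := by
  intro d hd
  obtain ⟨H, hH, hends, hstr, hpar, hoff, hinj, himm⟩ := hARC3 d hd
  have D : BarData (fun p : R4 => p) ax H (1 / 20) := {
    loc := fun p _ => (ld_iff (F := fun p : R4 => p)).2
      ⟨Eventually.of_forall fun q => contDiffAt_id, by
        rw [fderiv_fun_id]
        exact fun v w h => h⟩
    pos := by norm_num
    small := by norm_num
    smooth_c := contDiff_ax
    smooth_H := hH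
    core := fun a _ => rfl
    frozen := fun t a h => hends t a (by
      rcases h with h | h
      · left; linarith
      · right; linarith) }
  -- the arcs avoid the cuffs
  have hcases : ∀ t, ∀ a ∈ Ioo (1 / 5 : ℝ) (4 / 5), H (t, a) ∉ sph 0 ∪ sph 1 := by
    intro t a ha hm
    by_cases h1 : |a - 2 / 5| ≤ 1 / 100
    · rw [hstr t a h1] at hm
      rcases hm with hm | hm
      · have := hm.2
        rw [rsq_eq] at this
        simp only [pc, Complex.zero_re, Complex.zero_im] at this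
        norm_num at this
      · have := hm.2
        rw [rsq_eq] at this
        simp only [pc, Complex.zero_re, Complex.zero_im] at this
        norm_num at this
    · by_cases h2 : |a - 3 / 5| ≤ 3 / 200
      · rw [hpar t a h2] at hm
        obtain ⟨h3, h4⟩ := abs_le.1 h2
        rcases hm with hm | hm
        · have := hm.2
          rw [rsq_eq] at this
          simp only [Complex.ofReal_re, Complex.ofReal_im] at this
          nlinarith
        · have := hm.2
          rw [rsq_eq] at this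
          simp only [Complex.ofReal_re, Complex.ofReal_im] at this
          nlinarith [sq_nonneg ((1 + 100 * (a - 3 / 5)) / 20)]
      · have := not_U3 (hoff t a ha (not_le.1 h1) (not_le.1 h2))
        exact this (hm.imp (fun h => sph_sub_flat 0 h) fun h => sph_sub_flat 1 h)
  have himg : ∀ t, ∀ a ∈ Ioo (1 / 5 : ℝ) (4 / 5),
      H (t, a) ∉ (fun p : R4 => p) '' (sph 0 ∪ sph 1) := by
    intro t a ha
    rw [image_id']
    exact hcases t a ha
  have hemb : ∀ t, EmbOn I4 (fun p => barFam (fun p : R4 => p) ax H (1 / 20) (t, p)) SP :=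
    fun t => D.embOn (himm t) (fun p _ q _ h => h) (hinj t) (himg t)
  have hfam : FamOn I4 (barFam (fun p : R4 => p) ax H (1 / 20)) SP := by
    rw [famOn_iff]
    exact ⟨fun t _ p hp => D.eventually_smooth t hp, fun t _ => hemb t⟩
  -- the values near the ends
  have hval : ∀ t, ∀ p : R4, (p.2.1 ≤ 9 / 40 ∨ 31 / 40 ≤ p.2.1) →
      barFam (fun p : R4 => p) ax H (1 / 20) (t, p) = p := by
    intro t p hp
    refine D.barFam_eq (t := t) (p := p) ?_
    rcases hp with h | h
    · left; linarith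
    · right; linarith
  have hneck : ∀ t, ∀ a ∈ Icc (1 / 5 : ℝ) (4 / 5),
      barFam (fun p : R4 => p) ax H (1 / 20) (t, ax a) = H (t, a) :=
    fun t a ha => D.barFam_neck (t := t) ha.1 ha.2
  have hld : ∀ t, ∀ p : R4, (p.2.1 < 9 / 40 ∨ 31 / 40 < p.2.1) →
      LD (fun p => barFam (fun p : R4 => p) ax H (1 / 20) (t, p)) p := by
    intro t p hp
    have hev : (fun q : R4 => q) =ᶠ[𝓝 p]
        fun q => barFam (fun p : R4 => p) ax H (1 / 20) (t, q) := by
      have hcont : Continuous (fun q : R4 => q.2.1) := by fun_prop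
      have hop : IsOpen {q : R4 | q.2.1 < 9 / 40 ∨ 31 / 40 < q.2.1} :=
        (isOpen_lt hcont continuous_const).union (isOpen_lt continuous_const hcont)
      filter_upwards [hop.mem_nhds hp] with q hq
      exact (hval t q (hq.imp le_of_lt le_of_lt)).symm
    refine ld_congr hev ?_
    rw [ld_iff]
    refine ⟨Eventually.of_forall fun q => contDiffAt_id, ?_⟩
    rw [fderiv_fun_id]
    exact fun v w h => h
  have hFBld : ∀ t, ∀ p ∈ FB, LD (fun p => barFam (fun p : R4 => p) ax H (1 / 20) (t, p)) p := by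
    rintro t p ((hp | hp) | hp)
    · exact hld t p (Or.inl (by linarith [le_flat_zero hp]))
    · exact hld t p (Or.inr (by linarith [flat_one_le hp]))
    · exact (hemb t).1 p (Or.inr hp)
  -- time zero
  have h0 : Thin I4 (fun p => barFam (fun p : R4 => p) ax H (1 / 20) (0, p)) (fun x => x) := by
    refine hV _ _ I4 R4 _ ⟨?_, ?_⟩
    · rintro p ((hp | hp) | hp)
      · exact hFBld 0 p (Or.inl (Or.inl hp))
      · exact (hemb 0).1 p (Or.inl (Or.inr hp))
      · exact (hemb 0).1 p (Or.inr hp)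
    · -- injectivity
      have mixed : ∀ p ∈ flat 0, ∀ q ∈ neck, q.2.1 ∈ Ioo (1 / 5 : ℝ) (4 / 5) →
          barFam (fun p : R4 => p) ax H (1 / 20) (0, p) ≠
            barFam (fun p : R4 => p) ax H (1 / 20) (0, q) := by
        intro p hp q hq hqI h
        have hqe : q = ax q.2.1 := by
          obtain ⟨h1, -, -, h4⟩ := hq
          exact Prod.ext h1 (Prod.ext rfl h4)
        rw [hval 0 p (Or.inl (by linarith [le_flat_zero hp])), hqe,
          hneck 0 q.2.1 ⟨hqI.1.le, hqI.2.le⟩] at h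
        by_cases h1 : |q.2.1 - 2 / 5| ≤ 1 / 100
        · rw [hstr 0 _ h1] at h
          have h2 := le_flat_zero hp
          rw [h] at h2
          simp only [pc] at h2
          norm_num at h2
        · by_cases h2 : |q.2.1 - 3 / 5| ≤ 3 / 200
          · rw [hpar 0 _ h2, step_zero] at h
            have h3 := hp.1
            rw [h] at h3
            simp only at h3
            nlinarith [sq_nonneg (100 * (q.2.1 - 3 / 5))]
          · have := not_U3 (hoff 0 _ hqI (not_le.1 h1) (not_le.1 h2))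
            rw [← h] at this
            exact this (Or.inl hp)
      have hcase : ∀ q ∈ neck, q ∈ sph 0 ∪ sph 1 ∨ q.2.1 ∈ Ioo (1 / 5 : ℝ) (4 / 5) := by
        rintro q ⟨h1, h2, h3, h4⟩
        rcases eq_or_lt_of_le h2 with h5 | h5
        · left; left
          refine ⟨h1, ?_⟩
          rw [rsq_eq, h4, ← h5]
          norm_num
        · rcases eq_or_lt_of_le h3 with h6 | h6
          · left; right
            refine ⟨h1, ?_⟩
            rw [rsq_eq, h4, h6]
            norm_num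
          · exact Or.inr ⟨h5, h6⟩
      -- points of the balls and the second cuff are fixed
      have hfix : ∀ p ∈ flat 0 ∪ sph 1, barFam (fun p : R4 => p) ax H (1 / 20) (0, p) = p := by
        rintro p (hp | hp)
        · exact hval 0 p (Or.inl (by linarith [le_flat_zero hp]))
        · exact hval 0 p (Or.inr (by linarith [flat_one_le (sph_sub_flat 1 hp)]))
      have hsplit : ∀ p ∈ flat 0 ∪ sph 1 ∪ neck, p ∈ flat 0 ∪ sph 1 ∨
          (p ∈ neck ∧ p.2.1 ∈ Ioo (1 / 5 : ℝ) (4 / 5)) := by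
        rintro p (hp | hp)
        · exact Or.inl hp
        · rcases hcase p hp with (h | h) | h
          · exact Or.inl (Or.inl (sph_sub_flat 0 h))
          · exact Or.inl (Or.inr h)
          · exact Or.inr ⟨hp, h⟩
      intro p hp q hq h
      simp only at h
      rcases hsplit p hp with hp | ⟨hp, hpI⟩ <;> rcases hsplit q hq with hq | ⟨hq, hqI⟩
      · rwa [hfix p hp, hfix q hq] at h
      · rcases hp with hp | hp
        · exact (mixed p hp q hq hqI h).elim
        · exact (hemb 0).2 (Or.inl (Or.inr hp)) (Or.inr hq) h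
      · rcases hq with hq | hq
        · exact (mixed q hq p hp hpI h.symm).elim
        · exact (hemb 0).2 (Or.inr hp) (Or.inl (Or.inr hq)) h
      · exact (hemb 0).2 (Or.inr hp) (Or.inr hq) h
  have h1 := (hF _ hfam (fun x => x)).1 h0
  refine ⟨fun p => barFam (fun p : R4 => p) ax H (1 / 20) (1, p), ?_⟩
  refine ⟨hFBld 1, (hemb 1).2, h1, fun p hp => hval 1 p hp, ?_, ?_, ?_⟩
  · intro a ha
    obtain ⟨h2, h3⟩ := abs_le.1 ha
    exact (hneck 1 a ⟨by linarith, by linarith⟩).trans (hstr 1 a ha)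
  · intro a ha
    obtain ⟨h2, h3⟩ := abs_le.1 ha
    refine (hneck 1 a ⟨by linarith, by linarith⟩).trans ?_
    rw [hpar 1 a ha, step_one]
    norm_num
  · intro a ha h2 h3
    have h4 : core (fun p => barFam (fun p : R4 => p) ax H (1 / 20) (1, p)) a = H (1, a) :=
      hneck 1 a ⟨ha.1.le, ha.2.le⟩
    rw [h4]
    exact hoff 1 a ha h2 h3

end Pool.Agent.Helper70.BI


end

/-! ## Helper70.BI.H.M_SML -/

section

/-!
# Project BI, stage 3 (H): germs close to the identity which preserve the vertical line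
-/

set_option autoImplicit false

open scoped Manifold ContDiff Topology ComplexConjugate
open Set Filter Pool.Agent.Helper65.Barb Pool.Agent.Helper18.BI

namespace Pool.Agent.Helper70.H

open Pool.Agent.Helper27.H (ArcD seg)
open Pool.Agent.Helper70.BI (I4 LD Eqv NearEq pc StPT StGL)

namespace SML

variable {E : Type} [NormedAddCommGroup E] [NormedSpace ℝ E]

private theorem smooth_aux (b : E → ℝ) (hb : ContDiff ℝ ∞ b) (hb0 : ∀ x, 2 ≤ ‖x‖ → b x = 0)
    (h : E → E) (y₀ : E) (r : ℝ) (hr : 0 < r)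
    (hh : ∀ y, ‖y - y₀‖ < 3 * r → ContDiffAt ℝ ∞ h y) :
    ContDiff ℝ ∞ (fun y => b (r⁻¹ • (y - y₀)) • h y) := by
  rw [contDiff_iff_contDiffAt]
  intro y
  by_cases hy : ‖y - y₀‖ < 3 * r
  · refine ContDiffAt.smul ?_ (hh y hy)
    exact (hb.comp (contDiff_const.smul (contDiff_id.sub contDiff_const))).contDiffAt
  · have h1 : ∀ᶠ z in 𝓝 y, 2 * r < ‖z - y₀‖ := by
      have hc : Continuous fun z : E => ‖z - y₀‖ := by fun_prop
      exact hc.continuousAt.eventually (lt_mem_nhds (by linarith [not_lt.1 hy]))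
    have h2 : (fun y => b (r⁻¹ • (y - y₀)) • h y) =ᶠ[𝓝 y] fun _ => (0 : E) := by
      filter_upwards [h1] with z hz
      rw [hb0, zero_smul]
      rw [norm_smul, norm_inv, Real.norm_of_nonneg hr.le, ← div_eq_inv_mul, le_div_iff₀ hr]
      exact hz.le
    exact contDiffAt_const.congr_of_eventuallyEq h2

private theorem lip_aux (b : E → ℝ) (K c : ℝ) (hK : 0 ≤ K) (hc : 0 ≤ c)
    (hb : ∀ x y, ‖b x - b y‖ ≤ K * ‖x - y‖) (hb1 : ∀ x, ‖b x‖ ≤ 1)
    (hb0 : ∀ x, 2 ≤ ‖x‖ → b x = 0)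
    (h : E → E) (y₀ : E) (r : ℝ) (hr : 0 < r) (h0 : h y₀ = 0)
    (hh : ∀ x y, ‖x - y₀‖ ≤ 2 * r → ‖y - y₀‖ ≤ 2 * r → ‖h x - h y‖ ≤ c * ‖x - y‖) (x y : E) :
    ‖b (r⁻¹ • (x - y₀)) • h x - b (r⁻¹ • (y - y₀)) • h y‖ ≤ c * (1 + 2 * K) * ‖x - y‖ := by
  have hout : ∀ z : E, 2 * r < ‖z - y₀‖ → b (r⁻¹ • (z - y₀)) = 0 := by
    intro z hz
    apply hb0
    rw [norm_smul, norm_inv, Real.norm_of_nonneg hr.le, ← div_eq_inv_mul, le_div_iff₀ hr]
    exact hz.le
  have hbd : ∀ z : E, ‖z - y₀‖ ≤ 2 * r → ‖h z‖ ≤ c * (2 * r) := by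
    intro z hz
    have := hh z y₀ hz (by rw [sub_self, norm_zero]; positivity)
    rw [h0, sub_zero] at this
    exact this.trans (by gcongr)
  have hbl : ∀ z w : E, ‖b (r⁻¹ • (z - y₀)) - b (r⁻¹ • (w - y₀))‖ ≤ K * (r⁻¹ * ‖z - w‖) := by
    intro z w
    refine (hb _ _).trans (le_of_eq ?_)
    rw [← smul_sub, norm_smul, norm_inv, Real.norm_of_nonneg hr.le]
    congr 3
    abel
  have hone : ∀ z w : E, ‖z - y₀‖ ≤ 2 * r →
      ‖(b (r⁻¹ • (z - y₀)) - b (r⁻¹ • (w - y₀))) • h z‖ ≤ c * (2 * K) * ‖z - w‖ := by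
    intro z w hz
    rw [norm_smul]
    calc _ ≤ (K * (r⁻¹ * ‖z - w‖)) * (c * (2 * r)) := by
          gcongr
          · exact hbl z w
          · exact hbd z hz
      _ = c * (2 * K) * ‖z - w‖ := by field_simp
  have key : ∀ x y : E, ‖x - y₀‖ ≤ 2 * r →
      ‖b (r⁻¹ • (x - y₀)) • h x - b (r⁻¹ • (y - y₀)) • h y‖ ≤ c * (1 + 2 * K) * ‖x - y‖ := by
    intro x y hx
    by_cases hy : ‖y - y₀‖ ≤ 2 * r
    · have e : b (r⁻¹ • (x - y₀)) • h x - b (r⁻¹ • (y - y₀)) • h y =
          (b (r⁻¹ • (x - y₀)) - b (r⁻¹ • (y - y₀))) • h x +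
            b (r⁻¹ • (y - y₀)) • (h x - h y) := by
        have e' : ∀ (s t : ℝ) (u v : E), s • u - t • v = (s - t) • u + t • (u - v) := by
          intro s t u v
          rw [sub_smul, smul_sub]; abel
        exact e' _ _ _ _
      rw [e]
      refine (norm_add_le _ _).trans ?_
      have h1 := hone x y hx
      have h2 : ‖b (r⁻¹ • (y - y₀)) • (h x - h y)‖ ≤ 1 * (c * ‖x - y‖) := by
        rw [norm_smul]
        gcongr
        · exact hb1 _
        · exact hh x y hx hy
      calc _ ≤ c * (2 * K) * ‖x - y‖ + 1 * (c * ‖x - y‖) := add_le_add h1 h2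
        _ = c * (1 + 2 * K) * ‖x - y‖ := by ring
    · have e : b (r⁻¹ • (x - y₀)) • h x - b (r⁻¹ • (y - y₀)) • h y =
          (b (r⁻¹ • (x - y₀)) - b (r⁻¹ • (y - y₀))) • h x := by
        rw [hout y (not_le.1 hy), zero_smul, sub_zero, sub_zero]
      rw [e]
      refine (hone x y hx).trans ?_
      have : 0 ≤ c * ‖x - y‖ := by positivity
      nlinarith
  by_cases hx : ‖x - y₀‖ ≤ 2 * r
  · exact key x y hx
  by_cases hy : ‖y - y₀‖ ≤ 2 * r
  · rw [norm_sub_rev, norm_sub_rev x y]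
    exact key y x hy
  · rw [hout x (not_le.1 hx), hout y (not_le.1 hy), zero_smul, zero_smul, sub_zero, norm_zero]
    positivity

end SML

open SML in
theorem m_SML (hPT : StPT) : StSML := by
  let B : ContDiffBump (0 : R4) := ⟨1, 2, one_pos, one_lt_two⟩
  have hBs : ContDiff ℝ ∞ (B : R4 → ℝ) := B.contDiff
  obtain ⟨K₀, hK₀⟩ := (B.hasCompactSupport.fderiv ℝ).exists_bound_of_continuous
    (hBs.continuous_fderiv (by simp))
  set K : ℝ := max K₀ 0 with hKdef
  have hK : 0 ≤ K := le_max_right _ _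
  have hBl : ∀ x y, ‖B x - B y‖ ≤ K * ‖x - y‖ := by
    intro x y
    exact Convex.norm_image_sub_le_of_norm_fderiv_le (s := univ)
      (fun z _ => hBs.differentiable (by simp) z)
      (fun z _ => (hK₀ z).trans (le_max_left _ _)) convex_univ (mem_univ _) (mem_univ _)
  have hB1 : ∀ x, ‖B x‖ ≤ 1 := fun x => by
    rw [Real.norm_of_nonneg B.nonneg]; exact B.le_one
  have hB0 : ∀ x, 2 ≤ ‖x‖ → B x = 0 := fun x hx =>
    B.zero_of_le_dist (by rw [dist_zero_right]; exact hx)
  refine ⟨1 / (2 * (1 + 2 * K)), by positivity, ?_⟩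
  set c : ℝ := 1 / (2 * (1 + 2 * K)) with hc
  have hc0 : 0 < c := by positivity
  have hcK : c * (1 + 2 * K) = 1 / 2 := by rw [hc]; field_simp
  intro U y₀ f hU hy₀ hf hfix hline hd
  have hf0 : ContDiffAt ℝ ∞ f y₀ := hf.self_of_nhds
  have hcont : ContinuousAt (fun y => ‖fderiv ℝ f y - ContinuousLinearMap.id ℝ R4‖) y₀ := by
    have h1 : ContDiffAt ℝ ∞ (fderiv ℝ f) y₀ := hf0.fderiv_right (by simp)
    exact (h1.continuousAt.sub continuousAt_const).norm
  have hev : ∀ᶠ y in 𝓝 y₀, ContDiffAt ℝ ∞ f y ∧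
      ‖fderiv ℝ f y - ContinuousLinearMap.id ℝ R4‖ < c ∧ y ∈ U ∧ (y.2 = 0 → (f y).2 = 0) :=
    hf.and ((hcont.eventually (gt_mem_nhds hd)).and
      (Filter.Eventually.and (hU.mem_nhds hy₀) hline))
  obtain ⟨ε, hε, hball⟩ := Metric.eventually_nhds_iff.1 hev
  set r : ℝ := ε / 4 with hr
  have hr0 : 0 < r := by positivity
  have hb3 : ∀ y, ‖y - y₀‖ < 3 * r → ContDiffAt ℝ ∞ f y ∧
      ‖fderiv ℝ f y - ContinuousLinearMap.id ℝ R4‖ < c ∧ y ∈ U ∧ (y.2 = 0 → (f y).2 = 0) := by
    intro y hy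
    apply hball
    rw [dist_eq_norm]
    linarith
  set h : R4 → R4 := fun y => f y - y with hh
  have hhs : ∀ y, ‖y - y₀‖ < 3 * r → ContDiffAt ℝ ∞ h y := fun y hy =>
    (hb3 y hy).1.sub contDiffAt_id
  have hhl : ∀ x y, ‖x - y₀‖ ≤ 2 * r → ‖y - y₀‖ ≤ 2 * r → ‖h x - h y‖ ≤ c * ‖x - y‖ := by
    intro x y hx hy
    have hfd : ∀ z ∈ Metric.ball y₀ (3 * r), HasFDerivWithinAt h
        (fderiv ℝ f z - ContinuousLinearMap.id ℝ R4) (Metric.ball y₀ (3 * r)) z := by
      intro z hz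
      rw [Metric.mem_ball, dist_eq_norm] at hz
      exact (((hb3 z hz).1.differentiableAt (by simp)).hasFDerivAt.sub
        (hasFDerivAt_id z)).hasFDerivWithinAt
    refine Convex.norm_image_sub_le_of_norm_hasFDerivWithin_le hfd ?_ (convex_ball _ _) ?_ ?_
    · intro z hz
      rw [Metric.mem_ball, dist_eq_norm] at hz
      exact (hb3 z hz).2.1.le
    · rw [Metric.mem_ball, dist_eq_norm]; linarith
    · rw [Metric.mem_ball, dist_eq_norm]; linarith
  have hsm := smooth_aux (fun x => B x) hBs hB0 h y₀ r hr0 hhs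
  have hstep : ∀ t : ℝ, ‖step t‖ ≤ 1 := by
    intro t
    rw [step, Real.norm_of_nonneg (Real.smoothTransition.nonneg t)]
    exact Real.smoothTransition.le_one t
  set g : ℝ × R4 → R4 := fun q => step q.1 • (B (r⁻¹ • (q.2 - y₀)) • h q.2) with hg
  have hgl : ∀ t x y, ‖g (t, x) - g (t, y)‖ ≤ 1 / 2 * ‖x - y‖ := by
    intro t x y
    have h1 := lip_aux (fun x => B x) K c hK hc0.le hBl hB1 hB0 h y₀ r hr0
      (by simp [hh, hfix]) hhl x y
    rw [hcK] at h1
    simp only [hg]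
    rw [← smul_sub, norm_smul]
    calc _ ≤ 1 * (1 / 2 * ‖x - y‖) := by
          gcongr
          exact hstep t
      _ = _ := one_mul _
  have hg0 : ∀ t y, 2 * r < ‖y - y₀‖ → g (t, y) = 0 := by
    intro t y hy
    have h0 : B (r⁻¹ • (y - y₀)) = 0 := by
      apply hB0
      rw [norm_smul, norm_inv, Real.norm_of_nonneg hr0.le, ← div_eq_inv_mul, le_div_iff₀ hr0]
      exact hy.le
    simp only [hg]
    rw [h0, zero_smul, smul_zero]
  have hgline : ∀ (t : ℝ) (y : R4), y.2 = 0 → (g (t, y)).2 = 0 := by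
    intro t y hy
    by_cases hyr : ‖y - y₀‖ ≤ 2 * r
    · have h1 : (f y).2 = 0 := (hb3 y (by linarith)).2.2.2 hy
      have h2 : (h y).2 = 0 := by
        simp only [hh]
        rw [Prod.snd_sub, h1, hy, sub_zero]
      simp only [hg]
      rw [Prod.smul_snd, Prod.smul_snd, h2, smul_zero, smul_zero]
    · rw [hg0 t y (not_le.1 hyr)]
      rfl
  obtain ⟨F, hF⟩ := hPT R4 g
    ((Real.smoothTransition.contDiff.comp contDiff_fst).smul (hsm.comp contDiff_snd)) hgl
  refine ⟨F, fun y => ?_, ⟨Metric.closedBall y₀ (2 * r), isCompact_closedBall _ _, ?_, ?_⟩,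
    ?_, ?_⟩
  · rw [hF]
    simp [hg, step, Real.smoothTransition.zero]
  · intro y hy
    rw [Metric.mem_closedBall, dist_eq_norm] at hy
    exact (hb3 y (by linarith)).2.2.1
  · intro t y hy
    rw [Metric.mem_closedBall, dist_eq_norm, not_le] at hy
    rw [hF, hg0 t y hy, add_zero]
  · intro t y
    rw [hF, Prod.snd_add]
    constructor
    · intro h1
      by_contra h2
      have h3 : (g (t, (y.1, 0))).2 = 0 := hgline t (y.1, 0) rfl
      have h4 : ‖(g (t, y)).2‖ ≤ ‖g (t, y) - g (t, (y.1, 0))‖ := by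
        calc ‖(g (t, y)).2‖ = ‖(g (t, y) - g (t, (y.1, 0))).2‖ := by
              rw [Prod.snd_sub, h3, sub_zero]
          _ ≤ _ := norm_snd_le _
      have h5 : ‖y - (y.1, (0 : R3))‖ = ‖y.2‖ := by
        have e : y - (y.1, (0 : R3)) = ((0 : ℝ), y.2) := by
          ext <;> simp
        rw [e, Prod.norm_def, norm_zero]
        exact max_eq_right (norm_nonneg _)
      have h6 := h4.trans (hgl t y (y.1, 0))
      rw [h5] at h6
      have h7 : (g (t, y)).2 = - y.2 := eq_neg_of_add_eq_zero_right h1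
      rw [h7, norm_neg] at h6
      have h8 : 0 < ‖y.2‖ := norm_pos_iff.2 h2
      linarith
    · intro h1
      rw [h1, hgline t y h1, add_zero]
  · filter_upwards [Metric.ball_mem_nhds y₀ hr0] with y hy
    rw [Metric.mem_ball, dist_eq_norm] at hy
    have h1 : B (r⁻¹ • (y - y₀)) = 1 := by
      apply B.one_of_mem_closedBall
      rw [Metric.mem_closedBall, dist_zero_right, norm_smul, norm_inv,
        Real.norm_of_nonneg hr0.le, ← div_eq_inv_mul, div_le_iff₀ hr0]
      change ‖y - y₀‖ ≤ 1 * r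
      linarith
    rw [hF]
    simp only [hg]
    rw [h1, step, Real.smoothTransition.one, one_smul, one_smul]
    simp [hh]

end Pool.Agent.Helper70.H


end
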