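import Pool.Agent.Helper65.Barb.Defs
import Pool.Agent.Helper70.BI.B.P10
import Pool.Agent.Helper70.BI.B.P12
import Pool.Agent.Helper70.BI.B.P16
import Pool.Agent.Helper70.BI.B.P17
import Pool.Agent.Helper70.BI.B.P26
import Pool.Agent.Helper70.BI.B.P41

/-!
# Project BI (MP_8e98f2_gt): collected modules, part 44

The contents of the modules
* Helper34.BI.Main
* Helper34.BI.M_D1b
* Helper34.BI.M_CRP
* Helper34.BI.M_D2
* Helper70.BI.H.M_NCT
* Helper70.BI.H.M_CEN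
* Helper70.BI.H.M_GLL
* Helper70.BI.H.M_LOCL

in one file, so that the whole proof builds in a short time.
-/

/-! ## Helper34.BI.Main -/

section

/-!
# Project BI: the main theorem of stage 1 (`StMain`) from the modules of parts (B), (D)
-/

set_option autoImplicit false

open Module Set Filter Topology
open scoped ContDiff Manifold ComplexConjugate
open Pool.Agent.Helper65.Barb Pool.Agent.Helper18.BI Pool.Agent.Helper27.BI

namespace Pool.Agent.Helper34.BI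

theorem finrank_R4 : finrank ℝ R4 = 4 := by
  simp [finrank_prod]

theorem stMain_of (hCH : StCH) (hCO : StCO) (hLG : StLG) (hFr : StFr) : StMain := by
  intro F F' φ φ' U hF hF' hU hs he hφ hφ'
  obtain ⟨c₀, c₁, δ, hδ, hδ2, s₀, s₁, core, hfr, imm⟩ := hCO F F' U hF hF' hU hs he
  obtain ⟨charts, -, -, -, hcrv, -, -⟩ := hCH F hF
  have ha : (1 / 5 : ℝ) ∈ Icc (1 / 5 : ℝ) (4 / 5) := by norm_num
  have hb : (4 / 5 : ℝ) ∈ Icc (1 / 5 : ℝ) (4 / 5) := by norm_num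
  rw [(core _ ha).1, (core _ hb).1] at charts
  have inj₁ : InjOn c₁ (Icc (1 / 5) (4 / 5)) := by
    intro a ha b hb h
    rw [← (core a ha).2, ← (core b hb).2] at h
    have := hF'.2 (Or.inr (mem_neck ha.1 ha.2)) (Or.inr (mem_neck hb.1 hb.2)) h
    exact congrArg (fun p : R4 => p.2.1) this
  have inj₀ : InjOn c₀ (Icc (1 / 5) (4 / 5)) := by
    intro a ha b hb h
    rw [← (core a ha).1, ← (core b hb).1] at h
    have := hF.2 (Or.inr (mem_neck ha.1 ha.2)) (Or.inr (mem_neck hb.1 hb.2)) h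
    exact congrArg (fun p : R4 => p.2.1) this
  have dis : ∀ (K : R4 → R4), EmbOn 𝓘(ℝ, R4) K SP → ∀ a ∈ Ioo (1 / 5 : ℝ) (4 / 5),
      K (1 / 2, a, 0) ∉ K '' (sph 0 ∪ sph 1) := by
    rintro K hK a ha ⟨p, hp, he⟩
    have := hK.2 (Or.inl hp) (Or.inr (mem_neck ha.1.le ha.2.le)) he
    subst this
    rcases hp with hp | hp
    · have := sph_zero_le hp
      simp only at this
      linarith [ha.1]
    · have := le_sph_one hp
      simp only at this
      linarith [ha.2]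
  have hA : F '' (sph 0 ∪ sph 1) = F' '' (sph 0 ∪ sph 1) := image_congr fun p hp => he (hs hp)
  have dis₀ : ∀ a ∈ Ioo (1 / 5 : ℝ) (4 / 5), c₀ a ∉ F '' (sph 0 ∪ sph 1) := by
    intro a ha
    rw [← (core a ⟨ha.1.le, ha.2.le⟩).1]
    exact dis F hF a ha
  have dis₁ : ∀ a ∈ Ioo (1 / 5 : ℝ) (4 / 5), c₁ a ∉ F '' (sph 0 ∪ sph 1) := by
    intro a ha
    rw [← (core a ⟨ha.1.le, ha.2.le⟩).2, hA]
    exact dis F' hF' a ha
  obtain ⟨H, hH, avoid, -⟩ := exists_arcFamily (κ := Bool) (g := fun b θ => F (crv b θ))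
    finrank_R4 (Complex.finrank_real_complex) hcrv hδ (by linarith) s₀ s₁ hfr
    inj₀ inj₁ (fun u hu => (imm u hu).1) (fun u hu => (imm u hu).2) charts dis₀ dis₁ one_pos
  have G : GenData F c₀ c₁ δ H := {
    emb := hF
    pos := hδ
    small := hδ2
    smooth₀ := s₀
    core := fun a ha => (core a ha).1
    inj₁ := inj₁
    imm₀ := fun u hu => (imm u hu).1
    imm₁ := fun u hu => (imm u hu).2
    dis₁ := dis₁
    arcs := hH
    avoid := avoid }
  have hJ0 : (fun p => barFam F c₀ H δ (0, p)) = F := by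
    funext p
    have e1 : H (0, p.2.1) = c₀ p.2.1 := hH.start 0 _ le_rfl
    have e2 : fderiv ℝ H (0, p.2.1) (0, 1) = deriv c₀ p.2.1 := by
      rw [← (G.hasDeriv 0 p.2.1).deriv]
      have e : (fun r => H (0, r)) = c₀ := funext fun r => hH.start 0 r le_rfl
      rw [e]
    simp only [barFam, thick, thickB, e1, e2, sub_self, map_zero, ContinuousLinearMap.zero_comp,
      ContinuousLinearMap.zero_apply, add_zero, smul_zero]
  have emb1 : EmbOn 𝓘(ℝ, R4) (fun p => barFam F c₀ H δ (1, p)) SP := by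
    refine G.bar.embOn (G.imm 1) G.injF (G.injH 1) ?_
    intro a ha
    rw [hH.stop 1 a le_rfl]
    exact dis₁ a ha
  have hMR := hLG _ (G.bfam hCH) (by rw [hJ0]; exact hF) emb1
  rw [hJ0] at hMR
  have hU' : IsOpen (U ∩ {p : R4 | p.2.1 < 1 / 5 + δ / 2 ∨ 4 / 5 - δ / 2 < p.2.1}) := by
    have hcont : Continuous (fun q : R4 => q.2.1) := by fun_prop
    exact hU.inter ((isOpen_lt hcont continuous_const).union (isOpen_lt continuous_const hcont))
  have hT : Thin 𝓘(ℝ, R4) (fun p => barFam F c₀ H δ (1, p)) φ' := by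
    refine (hFr _ F' _ emb1 hF' hU' ?_ ?_ ?_ φ').2 hφ'
    · intro p hp
      refine ⟨hs hp, ?_⟩
      rcases hp with hp | hp
      · exact Or.inl (by linarith [sph_zero_le hp])
      · exact Or.inr (by linarith [le_sph_one hp])
    · rintro p ⟨hp1, hp2⟩
      show barFam F c₀ H δ (1, p) = F' p
      rw [G.bar.barFam_eq (hp2.imp le_of_lt le_of_lt)]
      exact he hp1
    · intro p hp
      show barFam F c₀ H δ (1, p) = F' p
      rw [neck_eq hp, G.bar.barFam_neck hp.2.1 hp.2.2.1, hH.stop 1 _ le_rfl,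
        (core _ ⟨hp.2.1, hp.2.2.1⟩).2]
  exact hMR φ φ' hφ hT

end Pool.Agent.Helper34.BI


end

/-! ## Helper34.BI.M_D1b -/

section

/-!
# D1b: from local to global at a crossing
-/

set_option autoImplicit false

open Module Set Filter Topology
open scoped ContDiff Manifold ComplexConjugate
open Pool.Agent.Helper65.Barb Pool.Agent.Helper18.BI Pool.Agent.Helper27.BI

namespace Pool.Agent.Helper34.BI

namespace D1b

theorem continuous_rsq (c : ℝ) : Continuous (rsq c) := by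
  unfold rsq nsq
  fun_prop

theorem cpt_FB : IsCompact FB :=
  ((S4.cpt_flat 0).union (S4.cpt_flat 1)).union S4.cpt_neck

theorem cpt_SH (η : ℝ) : IsCompact (SH η) := by
  have h : SH η = FB ∩ ({p | 1 / 25 - η ≤ rsq 0 p} ∩ {p | 1 / 25 - η ≤ rsq 1 p}) := by
    ext p
    simp only [SH, mem_setOf_eq, mem_inter_iff]
  rw [h]
  exact cpt_FB.inter_right ((isClosed_le continuous_const (continuous_rsq 0)).inter
    (isClosed_le continuous_const (continuous_rsq 1)))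

theorem cpt_CL (η : ℝ) : IsCompact (CL η) := by
  have h : CL η = SH η ∩ ({p | rsq 0 p ≤ 1 / 25} ∪ {p | rsq 1 p ≤ 1 / 25}) := by
    ext p
    simp only [CL, mem_setOf_eq, mem_inter_iff, mem_union]
  rw [h]
  exact (cpt_SH η).inter_right ((isClosed_le (continuous_rsq 0) continuous_const).union
    (isClosed_le (continuous_rsq 1) continuous_const))

theorem mono_SH : Monotone SH := by
  intro a b hab p hp
  exact ⟨hp.1, by linarith [hp.2.1], by linarith [hp.2.2]⟩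

theorem mono_CL : Monotone CL := by
  intro a b hab p hp
  exact ⟨mono_SH hab hp.1, hp.2⟩

theorem fst_FB {p : R4} (hp : p ∈ FB) : p.1 = 1 / 2 := by
  rcases hp with (h | h) | h
  · exact h.1
  · exact h.1
  · exact h.1

theorem le_of_seq {x y : ℝ} (h : ∀ n : ℕ, x - 1 / ((n : ℝ) + 1) ≤ y) : x ≤ y := by
  refine le_of_forall_pos_le_add fun ε hε => ?_
  obtain ⟨n, hn⟩ := exists_nat_one_div_lt hε
  linarith [h n]

theorem SP_of_SH {p : R4} (h : ∀ n : ℕ, p ∈ SH (1 / ((n : ℝ) + 1))) : p ∈ SP := by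
  have h0 : 1 / 25 ≤ rsq 0 p := le_of_seq fun n => (h n).2.1
  have h1 : 1 / 25 ≤ rsq 1 p := le_of_seq fun n => (h n).2.2
  rcases (h 0).1 with (h2 | h2) | h2
  · exact Or.inl (Or.inl ⟨h2.1, le_antisymm h2.2 h0⟩)
  · exact Or.inl (Or.inr ⟨h2.1, le_antisymm h2.2 h1⟩)
  · exact Or.inr h2

theorem sph_of_CL {p : R4} (h : ∀ n : ℕ, p ∈ CL (1 / ((n : ℝ) + 1))) : p ∈ sph 0 ∪ sph 1 := by
  have h0 : 1 / 25 ≤ rsq 0 p := le_of_seq fun n => (h n).1.2.1
  have h1 : 1 / 25 ≤ rsq 1 p := le_of_seq fun n => (h n).1.2.2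
  have hf : p.1 = 1 / 2 := fst_FB (h 0).1.1
  rcases (h 0).2 with h2 | h2
  · exact Or.inl ⟨hf, le_antisymm h2 h0⟩
  · exact Or.inr ⟨hf, le_antisymm h2 h1⟩

/-- shrinking to a compact set -/
theorem shrink (K : ℝ → Set R4) (K0 : Set R4) (hc : ∀ η, IsCompact (K η)) (hm : Monotone K)
    (h0 : ∀ p, (∀ n : ℕ, p ∈ K (1 / ((n : ℝ) + 1))) → p ∈ K0) (U : Set (ℝ × R4 × R4))
    (hU : ∀ p ∈ K0, ∀ q ∈ K0, U ∈ 𝓝 ((0 : ℝ), p, q)) :
    ∀ᶠ η in 𝓝[>] (0 : ℝ), ∀ r ∈ Icc (-η) η, ∀ p ∈ K η, ∀ q ∈ K η, (r, p, q) ∈ U := by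
  set V : ℕ → Set (ℝ × R4 × R4) := fun n =>
    Icc (-(1 / ((n : ℝ) + 1))) (1 / ((n : ℝ) + 1)) ×ˢ (K (1 / ((n : ℝ) + 1)) ×ˢ K (1 / ((n : ℝ) + 1)))
    with hV
  have hVc : ∀ n, IsCompact (V n) := fun n => isCompact_Icc.prod ((hc _).prod (hc _))
  have hanti : ∀ {m n : ℕ}, m ≤ n → V n ⊆ V m := by
    intro m n hmn
    have h1 : 1 / ((n : ℝ) + 1) ≤ 1 / ((m : ℝ) + 1) := by
      apply one_div_le_one_div_of_le (by positivity)
      have : (m : ℝ) ≤ n := by exact_mod_cast hmn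
      linarith
    exact prod_mono (Icc_subset_Icc (neg_le_neg h1) h1) (prod_mono (hm h1) (hm h1))
  have hdir : Directed (fun a b : Set (ℝ × R4 × R4) => a ⊇ b) V := by
    intro m n
    exact ⟨max m n, hanti (le_max_left _ _), hanti (le_max_right _ _)⟩
  obtain ⟨n, hn⟩ := exists_subset_nhds_of_isCompact' hdir hVc (fun n => (hVc n).isClosed)
    (U := U) (by
      rintro ⟨r, p, q⟩ hx
      rw [mem_iInter] at hx
      have hr : r = 0 := by
        have h1 : r ≤ 0 := le_of_forall_pos_le_add fun ε hε => by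
          obtain ⟨n, hn⟩ := exists_nat_one_div_lt hε
          linarith [(hx n).1.2]
        have h2 : 0 ≤ r := by
          have : -r ≤ 0 := le_of_forall_pos_le_add fun ε hε => by
            obtain ⟨n, hn⟩ := exists_nat_one_div_lt hε
            linarith [(hx n).1.1]
          linarith
        exact le_antisymm h1 h2
      subst hr
      exact hU p (h0 p fun n => (hx n).2.1) q (h0 q fun n => (hx n).2.2))
  have hpos : (0 : ℝ) < 1 / ((n : ℝ) + 1) := by positivity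
  filter_upwards [Ioo_mem_nhdsGT hpos] with η hη r hr p hp q hq
  apply hn
  exact ⟨⟨by linarith [hr.1, hη.2], by linarith [hr.2, hη.2]⟩, hm hη.2.le hp, hm hη.2.le hq⟩

/-! ## the map `(t, p) ↦ (t, J (t, p))` -/

/-- the graph map -/
def gr (J : ℝ × R4 → R4) (x : ℝ × R4) : ℝ × R4 := (x.1, J x)

theorem contDiffAt_gr {J : ℝ × R4 → R4} {x : ℝ × R4} (h : ContDiffAt ℝ ∞ J x) :
    ContDiffAt ℝ ∞ (gr J) x := contDiffAt_fst.prodMk h

theorem fderiv_gr {J : ℝ × R4 → R4} {x : ℝ × R4} (h : ContDiffAt ℝ ∞ J x) (ζ : ℝ × R4) :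
    fderiv ℝ (gr J) x ζ = (ζ.1, fderiv ℝ J x ζ) := by
  have h1 : HasFDerivAt J (fderiv ℝ J x) x := (h.differentiableAt (by simp)).hasFDerivAt
  have h2 : HasFDerivAt (gr J) ((ContinuousLinearMap.fst ℝ ℝ R4).prod (fderiv ℝ J x)) x :=
    hasFDerivAt_fst.prodMk h1
  rw [h2.fderiv]
  rfl

theorem fderiv_slice {J : ℝ × R4 → R4} {t : ℝ} {p : R4} (h : ContDiffAt ℝ ∞ J (t, p)) (v : R4) :
    fderiv ℝ (fun p => J (t, p)) p v = fderiv ℝ J (t, p) (0, v) := by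
  have h1 : HasFDerivAt J (fderiv ℝ J (t, p)) (t, p) :=
    (h.differentiableAt (by simp)).hasFDerivAt
  have h2 : HasFDerivAt (fun p : R4 => (t, p)) (ContinuousLinearMap.inr ℝ ℝ R4) p :=
    hasFDerivAt_prodMk_right t p
  have h3 : HasFDerivAt (fun p : R4 => J (t, p))
      ((fderiv ℝ J (t, p)).comp (ContinuousLinearMap.inr ℝ ℝ R4)) p := h1.comp p h2
  rw [h3.fderiv]
  rfl

theorem locDiff_gr {J : ℝ × R4 → R4} {t : ℝ} {p : R4} (hs : ∀ᶠ q in 𝓝 (t, p), ContDiffAt ℝ ∞ J q)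
    (hl : IsLocalDiffeomorphAt 𝓘(ℝ, R4) 𝓘(ℝ, R4) ∞ (fun p => J (t, p)) p) :
    IsLocalDiffeomorphAt 𝓘(ℝ, ℝ × R4) 𝓘(ℝ, ℝ × R4) ∞ (gr J) (t, p) := by
  refine isLocalDiffeomorphAt_of_injective rfl (hs.mono fun q hq => contDiffAt_gr hq) ?_
  rw [injective_iff_map_eq_zero]
  intro ζ hζ
  rw [fderiv_gr hs.self_of_nhds, Prod.mk_eq_zero] at hζ
  obtain ⟨τ, v⟩ := ζ
  obtain ⟨h1, h2⟩ := hζ
  change τ = 0 at h1
  subst h1
  rw [← fderiv_slice hs.self_of_nhds] at h2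
  have h3 := (injective_iff_map_eq_zero _).1 (injective_fderiv hl) v h2
  rw [h3]
  rfl

theorem locDiff_slice {J : ℝ × R4 → R4} {t : ℝ} {p : R4}
    (hs : ∀ᶠ q in 𝓝 (t, p), ContDiffAt ℝ ∞ J q)
    (hl : IsLocalDiffeomorphAt 𝓘(ℝ, ℝ × R4) 𝓘(ℝ, ℝ × R4) ∞ (gr J) (t, p)) :
    IsLocalDiffeomorphAt 𝓘(ℝ, R4) 𝓘(ℝ, R4) ∞ (fun p => J (t, p)) p := by
  refine isLocalDiffeomorphAt_of_injective rfl ?_ ?_
  · have hc : Tendsto (fun p' : R4 => (t, p')) (𝓝 p) (𝓝 (t, p)) :=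
      (Continuous.prodMk_right t).continuousAt
    filter_upwards [hc.eventually hs] with q hq
    exact hq.comp q (contDiffAt_const.prodMk contDiffAt_id)
  · rw [injective_iff_map_eq_zero]
    intro v hv
    rw [fderiv_slice hs.self_of_nhds] at hv
    have h1 := (injective_iff_map_eq_zero _).1 (injective_fderiv hl) (0, v) (by
      rw [fderiv_gr hs.self_of_nhds, hv]
      rfl)
    exact (Prod.mk_eq_zero.1 h1).2

/-- near a point of the spine the graph map is smooth and a local diffeomorphism -/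
theorem eventually_good {J : ℝ × R4 → R4} {t : ℝ} {p : R4}
    (hs : ∀ᶠ q in 𝓝 (t, p), ContDiffAt ℝ ∞ J q)
    (hl : IsLocalDiffeomorphAt 𝓘(ℝ, R4) 𝓘(ℝ, R4) ∞ (fun p => J (t, p)) p) :
    ∀ᶠ q in 𝓝 (t, p), ContDiffAt ℝ ∞ J q ∧
      IsLocalDiffeomorphAt 𝓘(ℝ, R4) 𝓘(ℝ, R4) ∞ (fun p => J (q.1, p)) q.2 := by
  obtain ⟨Φ, hp, hΦ⟩ := locDiff_gr hs hl
  filter_upwards [hs.eventually_nhds, Φ.open_source.mem_nhds hp] with q h1 h2
  exact ⟨h1.self_of_nhds, locDiff_slice (t := q.1) (p := q.2) h1 ⟨Φ, h2, hΦ⟩⟩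

/-- near a point of the spine the graph map is injective -/
theorem eventually_inj {J : ℝ × R4 → R4} {t : ℝ} {p : R4}
    (hs : ∀ᶠ q in 𝓝 (t, p), ContDiffAt ℝ ∞ J q)
    (hl : IsLocalDiffeomorphAt 𝓘(ℝ, R4) 𝓘(ℝ, R4) ∞ (fun p => J (t, p)) p) :
    ∃ N ∈ 𝓝 (t, p), ∀ x ∈ N, ∀ y ∈ N, x.1 = y.1 → J x = J y → x = y := by
  obtain ⟨Φ, hp, hΦ⟩ := locDiff_gr hs hl
  refine ⟨Φ.source, Φ.open_source.mem_nhds hp, ?_⟩
  intro x hx y hy h1 h2
  apply Φ.injOn hx hy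
  change Φ.toFun x = Φ.toFun y
  rw [← hΦ hx, ← hΦ hy]
  exact Prod.ext h1 h2

end D1b

open D1b

theorem m_D1b : StD1b := by
  intro J t₀ u₀ p₀ hP T X η₀ hη₀ hT hT0 hXc hX0 hX huniq ε hε
  -- continuity of `T`
  have hTs : ∀ r ∈ Ioo (-η₀) η₀, ContDiffAt ℝ ∞ T r := fun r hr =>
    hT.contDiffAt (isOpen_Ioo.mem_nhds hr)
  have h00 : (0 : ℝ) ∈ Ioo (-η₀) η₀ := ⟨by linarith, hη₀⟩
  have hTc : ContinuousAt T 0 := (hTs 0 h00).continuousAt
  -- the map `(r, p) ↦ (T r, p)`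
  have hTp : ∀ p : R4, Tendsto (fun q : ℝ × R4 => (T q.1, q.2)) (𝓝 ((0 : ℝ), p)) (𝓝 (t₀, p)) := by
    intro p
    have h1 : ContinuousAt (fun q : ℝ × R4 => (T q.1, q.2)) ((0 : ℝ), p) := by
      refine ContinuousAt.prodMk ?_ continuousAt_snd
      exact ContinuousAt.comp (f := fun q : ℝ × R4 => q.1) (g := T) hTc continuousAt_fst
    unfold ContinuousAt at h1
    have h2 : (fun q : ℝ × R4 => (T q.1, q.2)) ((0 : ℝ), p) = (t₀, p) := by
      change (T 0, p) = (t₀, p)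
      rw [hT0]
    rw [h2] at h1
    exact h1
  have hT1 : ∀ p q : R4, Tendsto (fun x : ℝ × R4 × R4 => (T x.1, x.2.1)) (𝓝 ((0 : ℝ), p, q))
      (𝓝 (t₀, p)) := by
    intro p q
    have h1 : Tendsto (fun x : ℝ × R4 × R4 => (x.1, x.2.1)) (𝓝 ((0 : ℝ), p, q))
        (𝓝 ((0 : ℝ), p)) := by
      apply Continuous.tendsto' (by fun_prop)
      rfl
    exact (hTp p).comp h1
  have hT2 : ∀ p q : R4, Tendsto (fun x : ℝ × R4 × R4 => (T x.1, x.2.2)) (𝓝 ((0 : ℝ), p, q))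
      (𝓝 (t₀, q)) := by
    intro p q
    have h1 : Tendsto (fun x : ℝ × R4 × R4 => (x.1, x.2.2)) (𝓝 ((0 : ℝ), p, q))
        (𝓝 ((0 : ℝ), q)) := by
      apply Continuous.tendsto' (by fun_prop)
      rfl
    exact (hTp q).comp h1
  -- case (a)
  have caseA : ∀ p ∈ SP, ∀ q ∈ SP, J (t₀, p) ≠ J (t₀, q) →
      ∀ᶠ x : ℝ × R4 × R4 in 𝓝 ((0 : ℝ), p, q), J (T x.1, x.2.1) ≠ J (T x.1, x.2.2) := by
    intro p hp q hq hne
    have c1 : ContinuousAt J (t₀, p) := (hP.smooth p hp).self_of_nhds.continuousAt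
    have c2 : ContinuousAt J (t₀, q) := (hP.smooth q hq).self_of_nhds.continuousAt
    have l1 := Tendsto.comp c1 (hT1 p q)
    have l2 := Tendsto.comp c2 (hT2 p q)
    have l3 := (l1.prodMk_nhds l2).eventually (isOpen_ne_fun continuous_fst continuous_snd
      |>.mem_nhds (show (J (t₀, p), J (t₀, q)) ∈ {x : R4 × R4 | x.1 ≠ x.2} from hne))
    exact l3
  -- case (b)
  have caseB : ∀ p ∈ SP, ∀ᶠ x : ℝ × R4 × R4 in 𝓝 ((0 : ℝ), p, p),
      J (T x.1, x.2.1) = J (T x.1, x.2.2) → x.2.1 = x.2.2 := by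
    intro p hp
    obtain ⟨N, hN, hNi⟩ := eventually_inj (hP.smooth p hp) (hP.loc p hp)
    filter_upwards [(hT1 p p).eventually hN, (hT2 p p).eventually hN] with x h1 h2 h3
    have h4 := hNi _ h1 _ h2 rfl h3
    exact (Prod.ext_iff.1 h4).2
  -- (1)
  have e1 := shrink SH SP cpt_SH mono_SH (fun p => SP_of_SH)
    {x | x.2.1 ∈ FB → x.2.2 ∈ FB → J (T x.1, x.2.1) = J (T x.1, x.2.2) →
      x.2.1 = x.2.2 ∨ x.2.1 = X x.1 ∨ x.2.2 = X x.1} (by
    intro p hp q hq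
    by_cases hne : J (t₀, p) = J (t₀, q)
    · rcases hP.inj p hp q hq hne with h | h | h
      · subst h
        filter_upwards [caseB p hp] with x hx _ _ h
        exact Or.inl (hx h)
      · obtain ⟨rfl, rfl⟩ := h
        filter_upwards [huniq] with x hx h1 h2 h3
        exact Or.inr (Or.inl (hx h1 h2 h3))
      · obtain ⟨rfl, rfl⟩ := h
        have hsw : Tendsto (fun x : ℝ × R4 × R4 => (x.1, x.2.2, x.2.1))
            (𝓝 ((0 : ℝ), ((1 / 2, u₀, 0) : R4), q)) (𝓝 ((0 : ℝ), q, ((1 / 2, u₀, 0) : R4))) := by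
          apply Continuous.tendsto' (by fun_prop)
          rfl
        filter_upwards [hsw.eventually huniq] with x hx h1 h2 h3
        exact Or.inr (Or.inr (hx h2 h1 h3.symm))
    · filter_upwards [caseA p hp q hq hne] with x hx _ _ h
      exact absurd h hx)
  -- (2)
  have hu0 : ∀ c : ℝ, (c = 0 ∨ c = 1) → ((1 / 2, u₀, 0) : R4) ∉ sph c := by
    intro c hc h
    have h1 : rsq c ((1 / 2, u₀, 0) : R4) = 1 / 25 := h.2
    rw [S4.rsq_eq] at h1
    simp only [map_zero, add_zero] at h1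
    obtain ⟨h2, h3⟩ := hP.arc
    rcases hc with rfl | rfl
    · nlinarith
    · nlinarith
  have hu1 : ((1 / 2, u₀, 0) : R4) ∉ sph 0 ∪ sph 1 := by
    rintro (h | h)
    · exact hu0 0 (Or.inl rfl) h
    · exact hu0 1 (Or.inr rfl) h
  have e2 := shrink CL (sph 0 ∪ sph 1) cpt_CL mono_CL (fun p => sph_of_CL)
    {x | J (T x.1, x.2.1) = J (T x.1, x.2.2) → x.2.1 = x.2.2} (by
    intro p hp q hq
    have hp' : p ∈ SP := Or.inl hp
    have hq' : q ∈ SP := Or.inl hq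
    by_cases hne : J (t₀, p) = J (t₀, q)
    · rcases hP.inj p hp' q hq' hne with h | h | h
      · subst h
        exact caseB p hp'
      · exact absurd (h.2 ▸ hq) hu1
      · exact absurd (h.2 ▸ hp) hu1
    · filter_upwards [caseA p hp' q hq' hne] with x hx h
      exact absurd h hx)
  -- (3)
  set S : Set (ℝ × R4) := interior {x | ContDiffAt ℝ ∞ (fun q : ℝ × R4 => J (T q.1, q.2)) x ∧
    IsLocalDiffeomorphAt 𝓘(ℝ, R4) 𝓘(ℝ, R4) ∞ (fun p => J (T x.1, p)) x.2} with hS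
  have hSn : ∀ p ∈ SP, S ∈ 𝓝 ((0 : ℝ), p) := by
    intro p hp
    rw [hS, interior_mem_nhds]
    have h1 := (hTp p).eventually (eventually_good (hP.smooth p hp) (hP.loc p hp))
    have h2 : ∀ᶠ x : ℝ × R4 in 𝓝 ((0 : ℝ), p), x.1 ∈ Ioo (-η₀) η₀ :=
      continuousAt_fst.eventually (isOpen_Ioo.mem_nhds h00)
    filter_upwards [h1, h2] with x hx hx2
    refine ⟨?_, hx.2⟩
    refine ContDiffAt.comp x (g := J) (f := fun q : ℝ × R4 => (T q.1, q.2)) hx.1 ?_
    exact ((hTs x.1 hx2).comp x contDiffAt_fst).prodMk contDiffAt_snd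
  have e3 := shrink SH SP cpt_SH mono_SH (fun p => SP_of_SH) {x | (x.1, x.2.1) ∈ S} (by
    intro p hp q hq
    have hc : Tendsto (fun x : ℝ × R4 × R4 => (x.1, x.2.1)) (𝓝 ((0 : ℝ), p, q))
        (𝓝 ((0 : ℝ), p)) := by
      apply Continuous.tendsto' (by fun_prop)
      rfl
    exact hc.eventually (hSn p hp))
  -- (4)
  have e4 : ∀ᶠ r in 𝓝 (0 : ℝ), (X r).2.2.re ≠ 0 ∧ |T r - t₀| < ε := by
    have c1 : ContinuousAt (fun r => (X r).2.2.re) 0 := by
      have : Continuous fun p : R4 => p.2.2.re := by fun_prop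
      exact this.continuousAt.comp hXc
    have h1 : ∀ᶠ r in 𝓝 (0 : ℝ), (X r).2.2.re ≠ 0 := by
      apply c1.eventually_ne
      rw [hX0]
      exact hP.re
    have c2 : ContinuousAt (fun r => |T r - t₀|) 0 := (hTc.sub continuousAt_const).abs
    have h2 : ∀ᶠ r in 𝓝 (0 : ℝ), |T r - t₀| < ε := by
      apply c2.eventually_lt continuousAt_const
      rw [hT0, sub_self, abs_zero]
      exact hε
    exact h1.and h2
  obtain ⟨δ, hδ, hδ'⟩ := Metric.eventually_nhds_iff.1 e4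
  have e5 : ∀ᶠ η in 𝓝[>] (0 : ℝ), η ∈ Ioo (0 : ℝ) (min δ (min η₀ (1 / 100))) :=
    Ioo_mem_nhdsGT (lt_min hδ (lt_min hη₀ (by norm_num)))
  obtain ⟨η, h1, h2, h3, h4⟩ := (e1.and (e2.and (e3.and e5))).exists
  have hηδ : η < δ := lt_of_lt_of_le h4.2 (min_le_left _ _)
  have hηη : η < η₀ := lt_of_lt_of_le h4.2 ((min_le_right _ _).trans (min_le_left _ _))
  have hη100 : η < 1 / 100 := lt_of_lt_of_le h4.2 ((min_le_right _ _).trans (min_le_right _ _))
  have hmem : ∀ r ∈ Icc (-η) η, r ∈ Ioo (-η₀) η₀ := fun r hr =>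
    ⟨by linarith [hr.1], by linarith [hr.2]⟩
  have hsmall : ∀ r ∈ Icc (-η) η, (X r).2.2.re ≠ 0 ∧ |T r - t₀| < ε := by
    intro r hr
    apply hδ'
    rw [Real.dist_eq, sub_zero]
    exact lt_of_le_of_lt (abs_le.2 ⟨hr.1, hr.2⟩) hηδ
  refine ⟨η, h4.1, hηη, ?_, fun r hr => (hsmall r hr).2⟩
  exact
    { pos := h4.1
      small := hη100.le
      smooth := by
        refine ⟨S, isOpen_interior, ?_, ?_⟩
        · rintro ⟨r, p⟩ ⟨hr, hp⟩
          exact h3 r hr p hp p hp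
        · intro x hx
          exact (interior_subset hx).1.contDiffWithinAt
      loc := by
        intro r hr p hp
        exact (interior_subset (h3 r hr p hp p hp)).2
      inj := by
        intro r hr p hp q hq h
        rcases h1 r hr p hp.1 q hq.1 hp.1.1 hq.1.1 h with h5 | h5 | h5
        · exact h5
        · exact absurd h5 hp.2
        · exact absurd h5 hq.2
      injA := by
        intro r hr p hp q hq h
        exact h2 r hr p hp q hq h
      fst := fun r hr => (hX r (hmem r hr)).1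
      lvl := fun r hr => (hX r (hmem r hr)).2
      re := fun r hr => (hsmall r hr).1 }

end Pool.Agent.Helper34.BI


end

/-! ## Helper34.BI.M_CRP -/

section

/-!
# Project BI, module CRP: the crossing lemma, form for stage 2
-/

set_option autoImplicit false

open Module Set Filter Topology
open scoped ContDiff Manifold ComplexConjugate
open Pool.Agent.Helper65.Barb Pool.Agent.Helper18.BI Pool.Agent.Helper27.BI

namespace Pool.Agent.Helper34.BI

open Pool.Agent.Helper70.BI (Br CrossAt LD core ax NearEq StCRP pc)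

namespace CRP

/-- smaller `η` -/
theorem cross_mono {J : ℝ × R4 → R4} {X : ℝ → R4} {η η' : ℝ} (C : Cross J X η) (h0 : 0 < η')
    (h1 : η' ≤ η) : Cross J X η' := by
  have hI : ∀ r ∈ Icc (-η') η', r ∈ Icc (-η) η := fun r hr =>
    ⟨by linarith [hr.1], by linarith [hr.2]⟩
  have hS := D1b.mono_SH h1
  have hC := D1b.mono_CL h1
  exact
    { pos := h0
      small := h1.trans C.small
      smooth := by
        obtain ⟨W, hW, hs, hd⟩ := C.smooth
        exact ⟨W, hW, (prod_mono (fun r hr => hI r hr) hS).trans hs, hd⟩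
      loc := fun r hr p hp => C.loc r (hI r hr) p (hS hp)
      inj := fun r hr => (C.inj r (hI r hr)).mono (diff_subset_diff_left hS)
      injA := fun r hr => (C.injA r (hI r hr)).mono hC
      fst := fun r hr => C.fst r (hI r hr)
      lvl := fun r hr => C.lvl r (hI r hr)
      re := fun r hr => C.re r (hI r hr) }

theorem ax_mem {a : ℝ} (ha : a ∈ Icc (1 / 5 : ℝ) (4 / 5)) : ax a ∈ SP :=
  Or.inr ⟨rfl, ha.1, ha.2, rfl⟩

theorem ax_inj {a b : ℝ} (h : ax a = ax b) : a = b := congrArg (fun p : R4 => p.2.1) h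

theorem br_congr {γ e : ℝ} {F F' : R4 → R4} (h : NearEq F F' (SP ∪ flat 0))
    (hF : Br 0 F γ e) : Br 0 F' γ e := by
  obtain ⟨U, hU, hs, he⟩ := h
  have hSP : ∀ p ∈ SP, F p = F' p := fun p hp => he (hs (Or.inl hp))
  have hfl : ∀ p ∈ flat 0, F p = F' p := fun p hp => he (hs (Or.inr hp))
  have hev : ∀ p ∈ SP ∪ flat 0, F =ᶠ[𝓝 p] F' := fun p hp =>
    he.eventuallyEq_of_mem (hU.mem_nhds (hs hp))
  have hcore : ∀ a ∈ Icc (1 / 5 : ℝ) (4 / 5), core F a = core F' a := fun a ha =>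
    hSP _ (ax_mem ha)
  have himg : F '' flat 0 = F' '' flat 0 := image_congr hfl
  have hγ : γ ∈ Icc (1 / 5 : ℝ) (4 / 5) := ⟨hF.mem.1.le, hF.mem.2.le⟩
  refine ⟨fun p hp => Pool.Agent.Helper70.BI.ld_congr (hev p hp) (hF.loc p hp),
    hF.inj.congr hSP, hF.injF.congr ?_, hF.mem, ?_, ?_⟩
  · rintro p (hp | hp)
    · exact hfl p hp
    · rw [sub_zero] at hp
      exact hSP p (Or.inl (Or.inr hp))
  · obtain ⟨x₀, h1, h2, l, v, h3, h4⟩ := hF.cr
    have hx : ((1 / 2, x₀) : R4) ∈ flat 0 := by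
      refine ⟨rfl, ?_⟩
      have : rsq 0 ((1 / 2, x₀) : R4) = nsq (x₀ - pc 0) := by
        simp [rsq, pc, nsq]
      rw [this]
      exact h1.le
    refine ⟨x₀, h1, ?_, l, v, h3, ?_⟩
    · rw [← hcore γ hγ, h2]
      exact hfl _ hx
    · rw [← (hev _ (Or.inl (ax_mem hγ))).fderiv_eq, ← (hev _ (Or.inr hx)).fderiv_eq]
      exact h4
  · intro a ha h
    rw [← hcore a ha, ← himg] at h
    exact hF.only a ha h

theorem rsq_ax (c a : ℝ) : rsq c (ax a) = (a - c) ^ 2 := by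
  simp [rsq, ax, nsq]

theorem continuous_rsq (c : ℝ) : Continuous (rsq c) := D1b.continuous_rsq c

/-- near the neck nothing changes -/
theorem near_ax {G : R4 → R4} {X : R4} {δ : ℝ} (hRE : StRE) (hδ : δ ∈ Ioo (0 : ℝ) (1 / 100))
    {x₂ : R3} {r : ℝ} {k₁ k₂ : R4 → R4} (hK : KK δ X x₂ r k₁ k₂) {a : ℝ}
    (ha : a ∈ Icc (1 / 5 : ℝ) (4 / 5)) :
    (fun p => G (Em δ (k₂ p))) =ᶠ[𝓝 (ax a)] G := by
  obtain ⟨-, hid, -⟩ := hRE δ hδ
  have h0 := hδ.1
  have h1 : ∀ᶠ p in 𝓝 (ax a), 17 / 100 < p.2.1 := by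
    have hc : Continuous fun p : R4 => p.2.1 := by fun_prop
    exact hc.continuousAt.eventually_const_lt (show 17 / 100 < (ax a).2.1 by
      show (17 / 100 : ℝ) < a
      linarith [ha.1])
  have h2 : ∀ c : ℝ, (c = 0 ∨ c = 1) → ∀ᶠ p in 𝓝 (ax a), 1 / 25 - δ < rsq c p := by
    intro c hc
    refine (continuous_rsq c).continuousAt.eventually_const_lt ?_
    rw [rsq_ax]
    rcases hc with rfl | rfl
    · nlinarith [ha.1]
    · nlinarith [ha.2]
  filter_upwards [h1, h2 0 (Or.inl rfl), h2 1 (Or.inr rfl)] with p e1 e2 e3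
  rw [(hK.off p e1.le).2, hid p e2.le e3.le]

/-- the points of the new first ball -/
theorem mem_flat {X : R4} {δ : ℝ} (hRE : StRE) (hδ : δ ∈ Ioo (0 : ℝ) (1 / 100))
    {x₂ : R3} {r : ℝ} {k₁ k₂ : R4 → R4} (hK : KK δ X x₂ r k₁ k₂) {p : R4} (hp : p ∈ flat 0) :
    Em δ (k₂ p) ∈ flat 0 ∧ 1 / 25 - 3 * δ ≤ rsq 0 (Em δ (k₂ p)) ∧
      16 / 25 ≤ rsq 1 (Em δ (k₂ p)) := by
  obtain ⟨-, -, hfst, -, -, hlow, hE0, -⟩ := hRE δ hδ
  have h1 : rsq 0 (k₂ p) ≤ 1 / 25 := hK.kap2.small p hp.2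
  have h2 : 0 < rsq 0 (k₂ p) := by
    have h3 := hK.kap2.away p (D2a.flat_ball4 hp)
    rw [D2a.mem_tube0, not_lt] at h3
    have := hK.pos
    exact lt_of_lt_of_le (by positivity) h3
  have h3 : 0 < rsq 1 (k₂ p) := by linarith [RE.far0 h1]
  have h4 := hE0 _ h2 h1
  have h5 : (Em δ (k₂ p)).1 = 1 / 2 := by
    rw [hfst, hK.kap2.fst]
    exact hp.1
  exact ⟨⟨h5, h4.2⟩, (hlow _ h2 h3).1, RE.far0 h4.2⟩

theorem br_of (hRE : StRE) {G : R4 → R4} {X : R4} {δ η α : ℝ} (hδ : δ ∈ Ioo (0 : ℝ) (1 / 100))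
    (h3 : 3 * δ ≤ η)
    (hloc : ∀ p ∈ SH η, LD G p) (hinj : InjOn G (SH η \ {X}))
    (hre : X.2.2.re ≠ 0) (hXS : X ∈ SH η)
    {x₂ : R3} {r : ℝ} {k₁ k₂ : R4 → R4} (hK : KK δ X x₂ r k₁ k₂)
    (e1 : EmbOn 𝓘(ℝ, R4) (fun p => G (Em δ (k₂ p))) SP)
    (e2 : EmbOn 𝓘(ℝ, R4) (fun p => G (Em δ (k₂ p))) (flat 0 ∪ sph 1))
    (hα : α ∈ Ioo (1 / 5 : ℝ) (4 / 5)) (hGα : G (ax α) = G X)
    (hsl : ∀ v : R4, fderiv ℝ G (ax α) (0, ((1 : ℝ), (0 : ℂ))) = fderiv ℝ G X v → v.1 ≠ 0) :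
    ∃ e : ℝ, (e = 1 ∨ e = -1) ∧ Br 0 (fun p => G (Em δ (k₂ p))) α e := by
  obtain ⟨hEm, hid, hfst, hsnd, -, hlow, hE0, -⟩ := hRE δ hδ
  have hδ0 := hδ.1
  have hη0 : 0 < η := by linarith
  set O : R4 → R4 := fun p => G (Em δ (k₂ p)) with hO
  have hnx : ∀ a ∈ Icc (1 / 5 : ℝ) (4 / 5), O =ᶠ[𝓝 (ax a)] G := fun a ha =>
    near_ax hRE hδ hK ha
  have hαI : α ∈ Icc (1 / 5 : ℝ) (4 / 5) := ⟨hα.1.le, hα.2.le⟩
  have hax : ∀ a ∈ Icc (1 / 5 : ℝ) (4 / 5), ax a ∈ SH η \ {X} := by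
    intro a ha
    refine ⟨SP_subset_SH hη0.le (ax_mem ha), ?_⟩
    rintro h
    apply hre
    rw [← show ax a = X from h]
    rfl
  -- the crossing point
  set q : R4 := (1 / 2, x₂) with hq
  have hqr : rsq 0 q = 1 / 100 := by
    rw [D2a.rsq_zero_eq]
    exact hK.norm
  have hqr1 : 16 / 25 ≤ rsq 1 q := RE.far0 (by rw [hqr]; norm_num)
  have hEq : Em δ q = X := hK.eq
  have hkq : ∀ᶠ p in 𝓝 q, k₂ p = p := by
    have hw : |x₂.2.re| / 8 < ‖q.2.2 - (0 : R3).2‖ := by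
      have h1 : (0 : R3).2 = 0 := rfl
      rw [h1, sub_zero]
      have h2 : |x₂.2.re| ≤ ‖x₂.2‖ := Complex.abs_re_le_norm _
      have h4 : 0 < |x₂.2.re| := abs_pos.2 hK.re
      show |x₂.2.re| / 8 < ‖x₂.2‖
      linarith
    have hc : Continuous fun p : R4 => ‖p.2.2 - (0 : R3).2‖ := by fun_prop
    filter_upwards [hc.continuousAt.eventually_const_lt hw] with p hp
    exact hK.kap2.off_w p hp.le
  have hOq : O =ᶠ[𝓝 q] fun p => G (Em δ p) := by
    filter_upwards [hkq] with p hp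
    show G (Em δ (k₂ p)) = _
    rw [hp]
  have hqE : q ∈ {p : R4 | 0 < rsq 0 p ∧ 0 < rsq 1 p} :=
    ⟨by rw [hqr]; norm_num, by linarith⟩
  have hEmq := hEm.1 q hqE
  have dE : HasFDerivAt (Em δ) (fderiv ℝ (Em δ) q) q :=
    ((eventually_contDiffAt hEmq).self_of_nhds.differentiableAt (by simp)).hasFDerivAt
  have dG : HasFDerivAt G (fderiv ℝ G X) (Em δ q) := by
    rw [hEq]
    exact ((eventually_contDiffAt (hloc X hXS)).self_of_nhds.differentiableAt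
      (by simp)).hasFDerivAt
  have dO : fderiv ℝ O q = (fderiv ℝ G X).comp (fderiv ℝ (Em δ) q) := by
    rw [hOq.fderiv_eq]
    exact (dG.comp q dE).fderiv
  have hE1 : ∀ v : R4, (fderiv ℝ (Em δ) q v).1 = v.1 := by
    intro v
    have a1 : HasFDerivAt (fun p : R4 => (Em δ p).1)
        ((ContinuousLinearMap.fst ℝ ℝ (ℝ × ℂ)).comp (fderiv ℝ (Em δ) q)) q := by
      have a0 : HasFDerivAt (fun p : R4 => p.1) (ContinuousLinearMap.fst ℝ ℝ (ℝ × ℂ))
        (Em δ q) := hasFDerivAt_fst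
      exact a0.comp q dE
    have a2 : HasFDerivAt (fun p : R4 => (Em δ p).1) (ContinuousLinearMap.fst ℝ ℝ (ℝ × ℂ)) q :=
      hasFDerivAt_fst.congr_of_eventuallyEq (Eventually.of_forall fun p => hfst p)
    exact congrArg (fun A : R4 →L[ℝ] ℝ => A v) (a1.unique a2)
  have surj : ∀ A : R4 →L[ℝ] R4, Function.Injective A → Function.Surjective A := fun A hA =>
    (LinearMap.injective_iff_surjective (f := (A : R4 →ₗ[ℝ] R4))).1 hA
  obtain ⟨w, hw⟩ := surj _ (injective_fderiv (hloc X hXS))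
    (fderiv ℝ G (ax α) (0, ((1 : ℝ), (0 : ℂ))))
  obtain ⟨w', hw'⟩ := surj _ (injective_fderiv hEmq) w
  have hw1 : w'.1 ≠ 0 := by
    rw [← hE1 w', hw']
    exact hsl w hw.symm
  refine ⟨if 0 < w'.1 then 1 else -1, by split_ifs <;> simp, ?_⟩
  refine ⟨?_, e1.2, ?_, hα, ?_, ?_⟩
  · rintro p (hp | hp)
    · exact e1.1 p hp
    · exact e2.1 p (Or.inl hp)
  · rw [sub_zero]
    exact e2.2
  · refine ⟨x₂, ?_, ?_, w'.1, w'.2, ?_, ?_⟩
    · rw [show x₂ - pc 0 = x₂ from sub_zero x₂, hK.norm]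
      norm_num
    · show O (ax α) = O q
      have b1 : O q = G (Em δ q) := hOq.self_of_nhds
      rw [(hnx α hαI).self_of_nhds, b1, hGα, hEq]
    · split_ifs with h
      · rw [one_mul]
        exact h
      · have : w'.1 < 0 := lt_of_le_of_ne (not_lt.1 h) hw1
        linarith
    · rw [(hnx α hαI).fderiv_eq]
      show _ = fderiv ℝ O q (w'.1, w'.2)
      rw [dO, ← hw, ← hw']
      rfl
  · rintro a ha ⟨p, hp, hpa⟩
    obtain ⟨m1, m2, m3⟩ := mem_flat hRE hδ hK hp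
    have m4 : Em δ (k₂ p) ∈ SH η := ⟨Or.inl (Or.inl m1), by linarith, by linarith⟩
    have h5 : G (Em δ (k₂ p)) = G (ax a) := by
      have h6 : core O a = G (ax a) := (hnx a ha).self_of_nhds
      rw [← h6]
      exact hpa
    by_cases hy : Em δ (k₂ p) = X
    · right
      rw [hy, ← hGα] at h5
      exact (ax_inj (hinj (hax α hαI) (hax a ha) h5)).symm
    · left
      have h6 := hinj ⟨m4, hy⟩ (hax a ha) h5
      have h7 : rsq 0 (ax a) ≤ 1 / 25 := by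
        rw [← h6]
        exact m1.2
      rw [rsq_ax] at h7
      have := ha.1
      nlinarith

/-- the derivative along the strand -/
theorem fderiv_strand {J : ℝ × R4 → R4} {t u : ℝ} (h : ContDiffAt ℝ ∞ J (t, ax u)) :
    fderiv ℝ (fun x : ℝ × ℝ => J (x.1, (1 / 2, x.2, 0))) (t, u) (0, 1) =
      fderiv ℝ (fun p => J (t, p)) (ax u) (0, ((1 : ℝ), (0 : ℂ))) := by
  rw [D1b.fderiv_slice h]
  have h1 : HasFDerivAt J (fderiv ℝ J (t, ax u)) (t, ax u) :=
    (h.differentiableAt (by simp)).hasFDerivAt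
  let M : ℝ × ℝ →L[ℝ] ℝ × R4 := (ContinuousLinearMap.fst ℝ ℝ ℝ).prod
    ((0 : ℝ × ℝ →L[ℝ] ℝ).prod ((ContinuousLinearMap.snd ℝ ℝ ℝ).prod (0 : ℝ × ℝ →L[ℝ] ℂ)))
  have h2 : HasFDerivAt (fun x : ℝ × ℝ => ((x.1, ((1 / 2 : ℝ), x.2, (0 : ℂ))) : ℝ × R4)) M
      (t, u) :=
    hasFDerivAt_fst.prodMk ((hasFDerivAt_const _ _).prodMk
      (hasFDerivAt_snd.prodMk (hasFDerivAt_const _ _)))
  have h3 : HasFDerivAt (fun x : ℝ × ℝ => J (x.1, (1 / 2, x.2, 0)))
      ((fderiv ℝ J (t, ax u)).comp M) (t, u) := by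
    have := HasFDerivAt.comp (t, u) (g := J) (f := fun x : ℝ × ℝ =>
      ((x.1, ((1 / 2 : ℝ), x.2, (0 : ℂ))) : ℝ × R4)) (by exact h1) h2
    exact this
  rw [h3.fderiv]
  rfl

/-- the final form of the germ `O` -/
noncomputable def OO (F : R4 → R4) (β : R3 → ℝ) (c δ : ℝ) (k : R4 → R4) (p : R4) : R4 :=
  F (shb β c (rade δ 0 (k p)))

theorem OO_near {X : R4} {δ : ℝ} (hδ : δ ∈ Ioo (0 : ℝ) (1 / 100))
    {x₂ : R3} {r : ℝ} {k₁ k₂ : R4 → R4} (hK : KK δ X x₂ r k₁ k₂) (F : R4 → R4) (β : R3 → ℝ)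
    (c : ℝ) :
    NearEq (fun p => F (shb β c (Em δ (k₂ p)))) (OO F β c δ k₂) (SP ∪ flat 0) := by
  have h0 := hδ.1
  have hc : Continuous k₂ := hK.kap2.smooth.continuous
  refine ⟨{p | 1 / 25 - δ < rsq 1 (k₂ p)},
    isOpen_lt continuous_const ((continuous_rsq 1).comp hc), ?_, ?_⟩
  · intro p hp
    show 1 / 25 - δ < rsq 1 (k₂ p)
    have hfl : ∀ p ∈ flat 0, 1 / 25 - δ < rsq 1 (k₂ p) := by
      intro p hp
      have := RE.far0 (hK.kap2.small p hp.2)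
      linarith
    rcases hp with hp | hp
    · have h1 := (D2a.SP_rsq hp).2
      rcases hp with (hp | hp) | hp
      · exact hfl p ⟨hp.1, hp.2.le⟩
      · rw [(hK.off p (by linarith [le_sph_one hp])).2]
        linarith
      · rw [(hK.off p (by linarith [hp.2.1])).2]
        linarith
    · exact hfl p hp
  · intro p hp
    have hp' : 1 / 25 - δ < rsq 1 (k₂ p) := hp
    show F (shb β c (Em δ (k₂ p))) = F (shb β c (rade δ 0 (k₂ p)))
    unfold Em
    rw [RE.rade_id h0 hδ.2 1 hp'.le]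

theorem OO_far {X : R4} {δ : ℝ} (hδ : δ ∈ Ioo (0 : ℝ) (1 / 100))
    {x₂ : R3} {r : ℝ} {k₁ k₂ : R4 → R4} (hK : KK δ X x₂ r k₁ k₂) (F : R4 → R4) {β : R3 → ℝ}
    (hβ : BumpOK β) (c : ℝ) (p : R4) (hp : 1 / 2 < p.2.1) : OO F β c δ k₂ p = F p := by
  have h0 := hδ.1
  unfold OO
  rw [(hK.off p (by linarith)).2, RE.rade_id h0 hδ.2 0]
  · congr 1
    rw [ShB.shr_eq]
    unfold ShB.gg
    rw [hβ.far p.2 (by linarith)]
    refine Prod.ext ?_ rfl
    show p.1 + c * (0 * _) = p.1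
    ring
  · have := D2a.sq_le_rsq 0 p
    nlinarith

end CRP

open CRP in
theorem m_CRP (hRE : StRE) (hT2 : StT2) (hCI : StCI) (hD1aP : StD1aP) (hD1b : StD1b)
    (hD2aP : StD2aP) (hD2b : StD2b) : StCRP := by
  intro J t₀ u₀ p₀ hP C hC hdis ε hε
  obtain ⟨β, hβ, c, hP', hsl⟩ := ShB.slope_shb J t₀ u₀ p₀ hP
  set J' : ℝ × R4 → R4 := fun q => J (q.1, shb β c q.2) with hJ'
  obtain ⟨T, U, X, η₀, hη₀, hT1, hTm, hT0, hX1, hX0, hU1, hU0, hX2, hX3, hsl', huniq⟩ :=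
    hD1aP J' t₀ u₀ p₀ hP' hsl
  obtain ⟨η₁, hη₁, hηη, C₁, hclose⟩ :=
    hD1b J' t₀ u₀ p₀ hP' T X η₀ hη₀ hT1 hT0 hX1 hX0 hX2 huniq ε hε
  have hTc : ContinuousAt T 0 :=
    (hT1.contDiffAt (isOpen_Ioo.mem_nhds ⟨by linarith, hη₀⟩)).continuousAt
  -- the parameter of the strand
  have hα1 : ∀ᶠ r in 𝓝 (0 : ℝ), U r ∈ Ioo (1 / 5 : ℝ) (4 / 5) ∧ |U r - u₀| < ε := by
    have h1 : ∀ᶠ r in 𝓝 (0 : ℝ), U r ∈ Ioo (1 / 5 : ℝ) (4 / 5) :=
      hU1.eventually (isOpen_Ioo.mem_nhds (by rw [hU0]; exact hP.arc))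
    have h2 : ∀ᶠ r in 𝓝 (0 : ℝ), |U r - u₀| < ε := by
      have c3 : ContinuousAt (fun r => |U r - u₀|) 0 := (hU1.sub continuousAt_const).abs
      apply c3.eventually_lt continuousAt_const
      rw [hU0, sub_self, abs_zero]
      exact hε
    exact h1.and h2
  -- frozen near the crossing
  have hfr : ∀ᶠ r in 𝓝 (0 : ℝ), ∀ᶠ q in 𝓝 (T r, X r), J' q = J' (t₀, q.2) := by
    have h1 : ContinuousAt (fun r => (T r, X r)) 0 := hTc.prodMk hX1
    have h2 := (hP'.frozen p₀ (Or.inl hP'.mem)).eventually_nhds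
    have h3 : (T 0, X 0) = (t₀, p₀) := by rw [hT0, hX0]
    rw [← h3] at h2
    exact h1.eventually h2
  -- smooth near the strand
  have hst : ∀ᶠ r in 𝓝 (0 : ℝ), ContDiffAt ℝ ∞ J' (T r, ax (U r)) := by
    have h1 : ContinuousAt (fun r => (T r, ax (U r))) 0 := by
      refine hTc.prodMk ?_
      have h2 : Continuous ax := by
        unfold Pool.Agent.Helper70.BI.ax
        fun_prop
      exact h2.continuousAt.comp hU1
    have h2 := hP'.smooth (ax u₀) (ax_mem ⟨hP.arc.1.le, hP.arc.2.le⟩)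
    have h3 : (T 0, ax (U 0)) = (t₀, ax u₀) := by rw [hT0, hU0]
    rw [← h3] at h2
    exact h1.eventually h2
  -- the compact set
  have hdC : ∀ᶠ η in 𝓝[>] (0 : ℝ), ∀ r ∈ Icc (-η) η, ∀ p ∈ CL η, ∀ q ∈ CL η,
      rsq 0 p ≤ 1 / 25 → J' (T r, p) ∉ C := by
    refine D1b.shrink CL (sph 0 ∪ sph 1) D1b.cpt_CL D1b.mono_CL (fun p => D1b.sph_of_CL)
      {x | rsq 0 x.2.1 ≤ 1 / 25 → J' (T x.1, x.2.1) ∉ C} ?_
    intro p hp q hq
    by_cases h0 : p ∈ sph 0
    · have h1 : J' (t₀, p) ∉ C := by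
        have h2 : J' (t₀, p) = J (t₀, p) := by
          show J (t₀, shb β c p) = _
          rw [ShB.fix hβ c (Or.inl (Or.inl h0))]
        rw [h2]
        intro h3
        exact disjoint_left.1 hdis h3 ⟨p, h0, rfl⟩
      have h2 : ContinuousAt (fun x : ℝ × R4 × R4 => J' (T x.1, x.2.1)) ((0 : ℝ), p, q) := by
        have h3 : ContinuousAt J' (T 0, p) := by
          rw [hT0]
          exact (hP'.smooth p (Or.inl (Or.inl h0))).self_of_nhds.continuousAt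
        have h4 : ContinuousAt (fun x : ℝ × R4 × R4 => (T x.1, x.2.1)) ((0 : ℝ), p, q) := by
          refine ContinuousAt.prodMk ?_ (by fun_prop)
          exact ContinuousAt.comp (f := fun x : ℝ × R4 × R4 => x.1) (g := T) hTc
            continuousAt_fst
        exact ContinuousAt.comp (f := fun x : ℝ × R4 × R4 => (T x.1, x.2.1)) (g := J') h3 h4
      have h3 : Cᶜ ∈ 𝓝 ((fun x : ℝ × R4 × R4 => J' (T x.1, x.2.1)) ((0 : ℝ), p, q)) := by
        apply hC.isClosed.isOpen_compl.mem_nhds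
        show J' (T 0, p) ∉ C
        rw [hT0]
        exact h1
      filter_upwards [h2 h3] with x hx _
      exact hx
    · have h1 : p ∈ sph 1 := hp.resolve_left h0
      have h2 : 1 / 25 < rsq 0 p := by linarith [RE.far1 h1.2.le]
      have h3 : Continuous fun x : ℝ × R4 × R4 => rsq 0 x.2.1 :=
        (D1b.continuous_rsq 0).comp (by fun_prop)
      filter_upwards [h3.continuousAt.eventually_const_lt
        (show 1 / 25 < (fun x : ℝ × R4 × R4 => rsq 0 x.2.1) ((0 : ℝ), p, q) from h2)] with x hx hx'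
      exact absurd hx' (not_le.2 hx)
  have hall : ∀ᶠ r in 𝓝 (0 : ℝ), (U r ∈ Ioo (1 / 5 : ℝ) (4 / 5) ∧ |U r - u₀| < ε) ∧
      (∀ᶠ q in 𝓝 (T r, X r), J' q = J' (t₀, q.2)) ∧ ContDiffAt ℝ ∞ J' (T r, ax (U r)) ∧
      ∀ v : R4, fderiv ℝ (fun x : ℝ × ℝ => J' (x.1, (1 / 2, x.2, 0))) (T r, U r) (0, 1) =
          fderiv ℝ (fun p => J' (t₀, p)) (X r) v → v.1 ≠ 0 :=
    hα1.and (hfr.and (hst.and hsl'))
  obtain ⟨ρ, hρ, hρ'⟩ := Metric.eventually_nhds_iff.1 hall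
  have hIoo : ∀ᶠ η in 𝓝[>] (0 : ℝ), η ∈ Ioo (0 : ℝ) (min ρ η₁) :=
    Ioo_mem_nhdsGT (lt_min hρ hη₁)
  obtain ⟨η, ⟨hη, hηl⟩, hηC⟩ := (hIoo.and hdC).exists
  have hη1 : η ≤ η₁ := hηl.le.trans (min_le_right _ _)
  have hηρ : η < ρ := lt_of_lt_of_le hηl (min_le_left _ _)
  have C₂ := cross_mono C₁ hη hη1
  have h2 := C₂.small
  set δ := η / 3 with hδ
  have hδm : δ ∈ Ioo (0 : ℝ) (1 / 100) := ⟨by positivity, by rw [hδ]; linarith⟩
  have h3 : 3 * δ ≤ η := by rw [hδ]; linarith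
  obtain ⟨-, -, -, -, -, -, -, -, hmono, -, hid, hlow, -⟩ := hRE δ hδm
  have e1 : qe δ (1 / 25) = 1 / 25 := hid _ (by linarith [hδm.1])
  have e2 : qe δ (1 / 100) < 1 / 25 := by
    rw [← e1]
    exact hmono (by norm_num)
  have e3 := hlow (1 / 100) (by norm_num)
  set r₁ := 1 / 25 - qe δ (1 / 100) with hr₁
  have h4 : 0 < r₁ := by rw [hr₁]; linarith
  have h5 : r₁ ≤ η := by rw [hr₁]; linarith
  have m1 : -r₁ ∈ Icc (-η) η := ⟨by linarith, by linarith⟩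
  have m2 : r₁ ∈ Icc (-η) η := ⟨by linarith, by linarith⟩
  have lv : rsq 0 (X (-r₁)) = qe δ (1 / 100) := by rw [C₂.lvl _ m1, hr₁]; ring
  obtain ⟨x₂, r, k₁, k₂, hK, f1, f2, n, ψ, hn, hψ, hφ⟩ :=
    hD2aP (fun p => J' (T (-r₁), p)) (X (-r₁)) δ η hδm h3 h2 (C₂.loc _ m1) (C₂.inj _ m1)
      (C₂.injA _ m1) (C₂.fst _ m1) lv (C₂.re _ m1)
  have hψ' := hD2b _ X δ η r₁ C₂ hδm h3 hr₁ h4 h5 x₂ r k₁ hK.pos hK.norm hK.re hK.eq hK.kap1.emb
    hK.kap1.fst (fun p hp => (hK.off p hp).1) hK.kap1.small hK.axis hK.kap1.away ψ hψ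
  have hXS : X (-r₁) ∈ SH η := by
    have h6 : rsq 0 (X (-r₁)) ≤ 1 / 25 := by rw [lv]; exact e2.le
    refine ⟨Or.inl (Or.inl ⟨C₂.fst _ m1, h6⟩), ?_, ?_⟩
    · rw [lv]; linarith
    · linarith [RE.far0 h6]
  obtain ⟨⟨g1, g2⟩, g3, g4, g5⟩ := hρ' (show dist (-r₁) 0 < ρ by
    rw [Real.dist_eq, sub_zero, abs_neg, abs_of_pos h4]; linarith)
  have i0 : (0 : ℝ) ∈ Ioo (-η₀) η₀ := ⟨by linarith, hη₀⟩
  have i1 : r₁ ∈ Ioo (-η₀) η₀ := ⟨by linarith, by linarith⟩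
  have i2 : -r₁ ∈ Ioo (-η₀) η₀ := ⟨by linarith, by linarith⟩
  -- values at the crossing
  have g6 : J' (T (-r₁), ax (U (-r₁))) = J' (T (-r₁), X (-r₁)) := by
    rw [g3.self_of_nhds]
    exact (hX3 _ i2).symm
  have g7 : (fun p => J' (T (-r₁), p)) =ᶠ[𝓝 (X (-r₁))] fun p => J' (t₀, p) := by
    have h6 : ContinuousAt (fun p : R4 => (T (-r₁), p)) (X (-r₁)) := by fun_prop
    exact h6.eventually g3
  obtain ⟨e, he, hBr⟩ := br_of hRE hδm h3 (C₂.loc _ m1) (C₂.inj _ m1) (C₂.re _ m1) hXS hK f1 f2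
    g1 g6 (by
      intro v hv
      apply g5 v
      rw [fderiv_strand g4, hv, g7.fderiv_eq])
  have hne : NearEq (fun p => J' (T (-r₁), Em δ (k₂ p)))
      (OO (fun p => J (T (-r₁), p)) β c δ k₂) (SP ∪ flat 0) :=
    OO_near hδm hK (fun p => J (T (-r₁), p)) β c
  have hBr' := br_congr hne hBr
  -- the germs at the times `T s`
  have key : ∀ s ∈ Icc (-η) η, s ≠ 0 → EmbOn 𝓘(ℝ, R4) (fun p => J (T s, p)) SP ∧
      ∀ φ, (Thin 𝓘(ℝ, R4) (fun p => J (T s, p)) φ ↔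
        Thin 𝓘(ℝ, R4) (fun p => J' (T s, p)) φ) := by
    intro s hs h0
    have e1 : EmbOn 𝓘(ℝ, R4) (fun p => J' (T s, p)) SP := by
      refine ⟨fun p hp => C₂.loc s hs p (SP_subset_SH hη.le hp), ?_⟩
      have hsub : SP ⊆ SH η \ {X s} := by
        intro p hp
        refine ⟨SP_subset_SH hη.le hp, ?_⟩
        rintro rfl
        exact X_notMem_SP C₂ hs h0 hp
      exact (C₂.inj s hs).mono hsub
    obtain ⟨e2, e3⟩ := ShB.class_shb hT2 hβ _ (-c) e1
    have e4 : ∀ p, shb β c (shb β (-c) p) = p := by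
      intro p
      have := ShB.shr_neg (β := β) (-c) p
      rwa [neg_neg] at this
    simp only [hJ', e4] at e2 e3
    exact ⟨e2, e3⟩
  obtain ⟨k1, k2⟩ := key r₁ m2 h4.ne'
  obtain ⟨k3, k4⟩ := key (-r₁) m1 (neg_ne_zero.2 h4.ne')
  have c1 := abs_lt.1 (hclose r₁ ⟨by linarith, by linarith⟩)
  have c2 := abs_lt.1 (hclose (-r₁) ⟨by linarith, by linarith⟩)
  -- the conclusion for the ordered times
  have fin : ∀ t₁ t₂ : ℝ, (T (-r₁) = t₁ ∧ T r₁ = t₂ ∨ T (-r₁) = t₂ ∧ T r₁ = t₁) →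
      ∃ t' t'' : ℝ, (t' = t₁ ∧ t'' = t₂ ∨ t' = t₂ ∧ t'' = t₁) ∧
      ∃ (O : R4 → R4) (α e : ℝ), |α - u₀| < ε ∧ (e = 1 ∨ e = -1) ∧ Br 0 O α e ∧
        (∀ a ∈ Icc (1 / 5 : ℝ) (4 / 5), core O a = core (fun p => J (t', p)) a) ∧
        (∀ p : R4, 1 / 2 < p.2.1 → O p = J (t', p)) ∧ Disjoint C (O '' flat 0) ∧
        ∀ φ' φ'' n : R4 → R4, Thin 𝓘(ℝ, R4) (fun p => J (t', p)) φ' →
          Thin 𝓘(ℝ, R4) (fun p => J (t'', p)) φ'' →
          Thin 𝓘(ℝ, R4) O n → CIsot 𝓘(ℝ, R4) φ' (fun x => n (φ'' x)) := by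
    intro t₁ t₂ ht
    refine ⟨T (-r₁), T r₁, ht, OO (fun p => J (T (-r₁), p)) β c δ k₂, U (-r₁), e, g2, he, hBr',
      ?_, fun p hp => OO_far hδm hK (fun p => J (T (-r₁), p)) hβ c p hp, ?_, ?_⟩
    · intro a ha
      have b1 : J' (T (-r₁), Em δ (k₂ (ax a))) = J' (T (-r₁), ax a) :=
        (near_ax (G := fun p => J' (T (-r₁), p)) hRE hδm hK ha).self_of_nhds
      have b2 : J' (T (-r₁), Em δ (k₂ (ax a))) = OO (fun p => J (T (-r₁), p)) β c δ k₂ (ax a) :=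
        (hne.eventuallyEq (Or.inl (ax_mem ha))).self_of_nhds
      show OO (fun p => J (T (-r₁), p)) β c δ k₂ (ax a) = J (T (-r₁), ax a)
      rw [← b2, b1]
      show J (T (-r₁), shb β c (ax a)) = _
      rw [ShB.fix hβ c (ax_mem ha)]
    · rw [disjoint_left]
      rintro y hy ⟨p, hp, rfl⟩
      obtain ⟨n1, n2, n3⟩ := mem_flat hRE hδm hK hp
      have b2 : J' (T (-r₁), Em δ (k₂ p)) = OO (fun p => J (T (-r₁), p)) β c δ k₂ p :=
        (hne.eventuallyEq (Or.inr hp)).self_of_nhds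
      rw [← b2] at hy
      have n4 : Em δ (k₂ p) ∈ CL η :=
        ⟨⟨Or.inl (Or.inl n1), by linarith, by linarith⟩, Or.inl n1.2⟩
      exact hηC _ m1 _ n4 _ n4 n1.2 hy
    · intro φ' φ'' n' t1 t2 t3
      obtain ⟨-, hsym, -, htrans, hcomp, -⟩ := hCI R4 R4 𝓘(ℝ, R4) R4
      obtain ⟨-, huni, -, -, hloc, -⟩ := hT2 R4 R4 𝓘(ℝ, R4) R4
      have a1 := hφ φ' ((k4 φ').1 t1)
      have a2 := huni _ _ _ hψ' ((k2 φ'').1 t2)
      obtain ⟨V, hV, hVs, hVe⟩ := hne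
      have a3 := hloc _ _ V n' hV (subset_union_left.trans hVs) hVe.symm t3
      have a4 := huni _ _ _ hn a3
      exact htrans _ _ _ a1 (hcomp _ _ _ _ a4 a2)
  have l2 : -r₁ < 0 := by linarith
  rcases hTm with hTm | hTm
  · have a1 := hTm i0 i1 h4
    have a2 := hTm i2 i0 l2
    rw [hT0] at a1 a2
    exact ⟨T (-r₁), ⟨by linarith [c2.1], a2⟩, T r₁, ⟨a1, by linarith [c1.2]⟩, k3, k1,
      fin _ _ (Or.inl ⟨rfl, rfl⟩)⟩
  · have a1 := hTm i0 i1 h4
    have a2 := hTm i2 i0 l2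
    rw [hT0] at a1 a2
    exact ⟨T r₁, ⟨by linarith [c1.1], a1⟩, T (-r₁), ⟨a2, by linarith [c2.2]⟩, k1, k3,
      fin _ _ (Or.inr ⟨rfl, rfl⟩)⟩

end Pool.Agent.Helper34.BI


end

/-! ## Helper34.BI.M_D2 -/

section

/-!
# Project BI, module D2: the crossing theorem from its two halves
-/

set_option autoImplicit false

open Module Set Filter Topology
open scoped ContDiff Manifold ComplexConjugate
open Pool.Agent.Helper65.Barb Pool.Agent.Helper18.BI Pool.Agent.Helper27.BI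

namespace Pool.Agent.Helper34.BI

theorem m_D2 (hRE : StRE) (hT2 : StT2) (hN1 : StN1) (hCI : StCI) (hD2a : StD2a)
    (hD2b : StD2b) : StD2 := by
  intro J X η C
  have h1 := C.pos
  have h2 := C.small
  set δ := η / 3 with hδ
  have hδm : δ ∈ Ioo (0 : ℝ) (1 / 100) := ⟨by positivity, by rw [hδ]; linarith⟩
  have h3 : 3 * δ ≤ η := by rw [hδ]; linarith
  obtain ⟨-, -, -, -, -, -, -, -, hmono, -, hid, hlow, -⟩ := hRE δ hδm
  have e1 : qe δ (1 / 25) = 1 / 25 := hid _ (by linarith [hδm.1])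
  have e2 : qe δ (1 / 100) < 1 / 25 := by
    rw [← e1]
    exact hmono (by norm_num)
  have e3 := hlow (1 / 100) (by norm_num)
  set r₁ := 1 / 25 - qe δ (1 / 100) with hr₁
  have h4 : 0 < r₁ := by rw [hr₁]; linarith
  have h5 : r₁ ≤ η := by rw [hr₁]; linarith
  have m1 : -r₁ ∈ Icc (-η) η := ⟨by linarith, by linarith⟩
  obtain ⟨x₂, r, k, hr, -, hx, hre, hE, hk1, hk2, hk3, hk4, hk5, hk6, n, ψ, hn, hψ, hφ⟩ :=
    hD2a (fun p => J (-r₁, p)) (X (-r₁)) δ η hδm h3 h2 (C.loc _ m1) (C.inj _ m1) (C.injA _ m1)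
      (C.fst _ m1) (by rw [C.lvl _ m1, hr₁]; ring) (C.re _ m1)
  have hψ' := hD2b J X δ η r₁ C hδm h3 hr₁ h4 h5 x₂ r k hr hx hre hE hk1 hk2 hk3 hk4 hk5 hk6 ψ hψ
  refine ⟨r₁, ⟨h4, h5⟩, ?_⟩
  intro φ φ' t1 t2
  refine ⟨n, hn, ?_⟩
  obtain ⟨-, -, -, htrans, hcomp, -⟩ := hCI R4 R4 𝓘(ℝ, R4) R4
  have a1 := hφ φ' t2
  have a2 := (hT2 R4 R4 𝓘(ℝ, R4) R4).2.1 _ _ _ hψ' t1
  have a3 := (hN1 R4 R4 𝓘(ℝ, R4) R4).1 n hn
  exact htrans _ _ _ a1 (hcomp _ _ _ _ a3 a2)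

end Pool.Agent.Helper34.BI


end

/-! ## Helper70.BI.H.M_NCT -/

section

/-!
# Project BI, stage 3 (H), section NORM, module NCT: crossing germs are equivalent to germs with
small round cuffs
-/

set_option autoImplicit false

open scoped Manifold ContDiff Topology ComplexConjugate
open Set Filter Pool.Agent.Helper65.Barb Pool.Agent.Helper18.BI

namespace Pool.Agent.Helper70.H

open Pool.Agent.Helper27.H (ArcD seg)
open Pool.Agent.Helper70.BI (I4 LD Eqv NearEq pc StPT StGL)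

namespace NCT

open Pool.Agent.Helper70.BI (ax clc core ld_iff ld_comp ld_congr famOn_iff contDiff_dfam
  contDiff_dfam_inv ld_dfam)
open Pool.Agent.Helper34.BI (cfac)

/-! ### elementary facts on the spine -/

private theorem cfac_pos {lam : ℝ} (hl : lam ∈ Ioc (0 : ℝ) 1) (q : ℝ) :
    0 < cfac lam q ∧ cfac lam q ≤ 1 := by
  have h0 : 0 ≤ step ((q - 1 / 20) / (1 / 25)) := Real.smoothTransition.nonneg _
  have h1 : step ((q - 1 / 20) / (1 / 25)) ≤ 1 := Real.smoothTransition.le_one _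
  unfold cfac
  constructor
  · have : 0 ≤ (1 - lam) * step ((q - 1 / 20) / (1 / 25)) :=
      mul_nonneg (by linarith [hl.2]) h0
    linarith [hl.1]
  · nlinarith [hl.1, hl.2]

private theorem rsq_ax (c a : ℝ) : rsq c (ax a) = (a - c) ^ 2 := by
  simp [rsq, nsq, ax]

private theorem neck_eq {p : R4} (h : p ∈ neck) : p = ax p.2.1 :=
  Prod.ext h.1 (Prod.ext rfl h.2.2.2)

private theorem ax_notMem {c : ℝ} (hc : c = 0 ∨ c = 1) : ax c ∉ SP := by
  intro h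
  rcases h with (h | h) | h
  · have := h.2
    rw [rsq_ax] at this
    rcases hc with rfl | rfl <;> norm_num at this
  · have := h.2
    rw [rsq_ax] at this
    rcases hc with rfl | rfl <;> norm_num at this
  · have h1 := h.2.1
    have h2 := h.2.2.1
    simp only [ax] at h1 h2
    rcases hc with rfl | rfl
    · norm_num at h1
    · norm_num at h2

private theorem fb_fst {p : R4} (h : p ∈ FB) : p.1 = 1 / 2 := by
  rcases h with (h | h) | h
  · exact h.1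
  · exact h.1
  · exact h.1

private theorem far1 {p : R4} (h : p ∈ flat 0) : 1 / 10 < rsq 1 p := by
  have h2 := h.2
  simp only [rsq, nsq] at h2 ⊢
  have h3 : (p.2.1 - 0) ^ 2 ≤ (1 / 5) ^ 2 := by
    nlinarith [sq_nonneg p.2.2.re, sq_nonneg p.2.2.im]
  have h4 := abs_le_of_sq_le_sq' h3 (by norm_num)
  nlinarith [h4.1, h4.2, sq_nonneg p.2.2.re, sq_nonneg p.2.2.im]

private theorem far0 {p : R4} (h : p ∈ flat 1) : 1 / 10 < rsq 0 p := by
  have h2 := h.2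
  simp only [rsq, nsq] at h2 ⊢
  have h3 : (p.2.1 - 1) ^ 2 ≤ (1 / 5) ^ 2 := by
    nlinarith [sq_nonneg p.2.2.re, sq_nonneg p.2.2.im]
  have h4 := abs_le_of_sq_le_sq' h3 (by norm_num)
  nlinarith [h4.1, h4.2, sq_nonneg p.2.2.re, sq_nonneg p.2.2.im]

private theorem ax_mem_FB {b : ℝ} (h0 : 0 < b) (h1 : b < 1) : ax b ∈ FB := by
  by_cases h2 : b < 1 / 5
  · refine Or.inl (Or.inl ⟨rfl, ?_⟩)
    rw [rsq_ax]; nlinarith
  · by_cases h3 : b ≤ 4 / 5
    · refine Or.inr ⟨rfl, ?_, ?_, rfl⟩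
      · simp only [ax]; linarith
      · simp only [ax]; linarith
    · refine Or.inl (Or.inr ⟨rfl, ?_⟩)
      rw [rsq_ax]; nlinarith

private theorem norm_le_of_rsq {c : ℝ} {q : R4} (h : rsq c q < 1 / 20) :
    ‖q.2 - pc c‖ ≤ 1 / 2 := by
  simp only [rsq, nsq] at h
  rw [Prod.norm_def]
  refine max_le ?_ ?_
  · simp only [pc, Prod.fst_sub, Real.norm_eq_abs]
    refine abs_le_of_sq_le_sq ?_ (by norm_num)
    nlinarith [sq_nonneg q.2.2.re, sq_nonneg q.2.2.im]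
  · simp only [pc, Prod.snd_sub, sub_zero]
    have h1 : ‖q.2.2‖ ^ 2 ≤ (1 / 2) ^ 2 := by
      rw [← Complex.normSq_eq_norm_sq, Complex.normSq_apply]
      nlinarith [sq_nonneg (q.2.1 - c)]
    exact le_of_sq_le_sq h1 (by norm_num)

private theorem rsq_cont (c : ℝ) : Continuous (rsq c) := by
  unfold rsq nsq
  fun_prop

/-! ### the contraction of both cuffs -/

/-- the contraction of both cuffs maps the spine into the filled spine, off the centres -/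
private theorem maps (hCL : Pool.Agent.Helper70.BI.StCL) {mu : ℝ} (hm : mu ∈ Ioc (0 : ℝ) 1)
    {p : R4} (hp : p ∈ SP) : clc 0 mu (clc 1 mu p) ∈ FB ∧ clc 0 mu (clc 1 mu p) ≠ ax 0 ∧
      clc 0 mu (clc 1 mu p) ≠ ax 1 := by
  obtain ⟨-, -, h0⟩ := hCL 0 (Or.inl rfl)
  obtain ⟨-, -, h1⟩ := hCL 1 (Or.inr rfl)
  obtain ⟨emb0, fst0, -, fix0, ax0, le0, -⟩ := h0 mu hm
  obtain ⟨emb1, fst1, -, fix1, ax1, le1, -⟩ := h1 mu hm
  have a01 : clc 1 mu (ax 0) = ax 0 := fix1 _ (by rw [rsq_ax]; norm_num)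
  have a10 : clc 0 mu (ax 1) = ax 1 := fix0 _ (by rw [rsq_ax]; norm_num)
  have a00 : clc 0 mu (ax 0) = ax 0 := by rw [ax0]; simp
  have a11 : clc 1 mu (ax 1) = ax 1 := by rw [ax1]; simp
  refine ⟨?_, fun h => ?_, fun h => ?_⟩
  · rcases hp with (h | h) | h
    · have hf : p ∈ flat 0 := ⟨h.1, h.2.le⟩
      rw [fix1 p (by linarith [far1 hf])]
      exact Or.inl (Or.inl ⟨by rw [fst0]; exact h.1, (le0 p).trans h.2.le⟩)
    · have hf : clc 1 mu p ∈ flat 1 := ⟨by rw [fst1]; exact h.1, (le1 p).trans h.2.le⟩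
      rw [fix0 _ (by linarith [far0 hf])]
      exact Or.inl (Or.inr hf)
    · rw [neck_eq h, ax1, ax0]
      obtain ⟨k0, k1⟩ := cfac_pos hm ((p.2.1 - 1) ^ 2)
      set k := cfac mu ((p.2.1 - 1) ^ 2)
      obtain ⟨l0, l1⟩ := cfac_pos hm ((1 + k * (p.2.1 - 1) - 0) ^ 2)
      set l := cfac mu ((1 + k * (p.2.1 - 1) - 0) ^ 2)
      have a1 := h.2.1
      have a2 := h.2.2.1
      have b0 : 0 < 1 + k * (p.2.1 - 1) := by nlinarith
      have b1 : 1 + k * (p.2.1 - 1) < 1 := by nlinarith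
      refine ax_mem_FB ?_ ?_
      · have := mul_pos l0 b0
        linarith
      · have : l * (1 + k * (p.2.1 - 1)) ≤ 1 * (1 + k * (p.2.1 - 1)) :=
          mul_le_mul_of_nonneg_right l1 b0.le
        linarith
  · have e1 : clc 1 mu p = ax 0 := emb0.2 (mem_univ _) (mem_univ _) (h.trans a00.symm)
    have e2 : p = ax 0 := emb1.2 (mem_univ _) (mem_univ _) (e1.trans a01.symm)
    exact ax_notMem (Or.inl rfl) (e2 ▸ hp)
  · have e1 : clc 1 mu p = ax 1 := emb0.2 (mem_univ _) (mem_univ _) (h.trans a10.symm)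
    have e2 : p = ax 1 := emb1.2 (mem_univ _) (mem_univ _) (e1.trans a11.symm)
    exact ax_notMem (Or.inr rfl) (e2 ▸ hp)

/-! ### determinants -/

private theorem det_ne {F : R4 → R4} {p : R4} (h : LD F p) : (fderiv ℝ F p).det ≠ 0 := by
  have h1 := (ld_iff.1 h).2
  have h2 : LinearMap.ker (fderiv ℝ F p : R4 →ₗ[ℝ] R4) = ⊥ :=
    LinearMap.ker_eq_bot.2 h1
  intro h0
  have h3 : LinearMap.det (fderiv ℝ F p : R4 →ₗ[ℝ] R4) = 0 := h0
  have h4 := LinearMap.bot_lt_ker_of_det_eq_zero h3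
  rw [h2] at h4
  exact lt_irrefl _ h4

private theorem det_cont {F : R4 → R4} {p : R4} (h : LD F p) :
    ContinuousAt (fun q => (fderiv ℝ F q).det) p := by
  have h1 := (ld_iff.1 h).1.self_of_nhds
  have h2 : ContinuousAt (fderiv ℝ F) p :=
    (h1.fderiv_right (m := ∞) (by simp)).continuousAt
  exact ContinuousLinearMap.continuous_det.continuousAt.comp h2

private theorem pos_of_pre {F : R4 → R4} {L : Set R4} (hL : IsPreconnected L)
    (hLD : ∀ p ∈ L, LD F p) {p q : R4} (hp : p ∈ L) (hq : q ∈ L)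
    (h : 0 < (fderiv ℝ F p).det) : 0 < (fderiv ℝ F q).det := by
  by_contra hneg
  have hq0 : (fderiv ℝ F q).det ≤ 0 := not_lt.1 hneg
  have hc : ContinuousOn (fun x => (fderiv ℝ F x).det) L :=
    fun x hx => (det_cont (hLD x hx)).continuousWithinAt
  have h1 := hL.intermediate_value hq hp hc
  obtain ⟨x, hx, hx0⟩ := h1 ⟨hq0, h.le⟩
  exact det_ne (hLD x hx) hx0

private theorem convex_seg (s₀ s₁ : ℝ) : Convex ℝ (seg s₀ s₁) := by
  rintro ⟨s, v⟩ ⟨hp1, hp2, hp3⟩ ⟨s', v'⟩ ⟨hq1, hq2, hq3⟩ x y hx hy hxy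
  simp only at hp1 hp2 hp3 hq1 hq2 hq3
  have hy' : y = 1 - x := by linarith
  subst hy'
  refine ⟨?_, ?_, ?_⟩
  · simp only [Prod.smul_mk, Prod.mk_add_mk, smul_eq_mul]
    nlinarith [mul_le_mul_of_nonneg_left hp1 hx, mul_le_mul_of_nonneg_left hq1 hy]
  · simp only [Prod.smul_mk, Prod.mk_add_mk, smul_eq_mul]
    nlinarith [mul_le_mul_of_nonneg_left hp2 hx, mul_le_mul_of_nonneg_left hq2 hy]
  · simp only [Prod.smul_mk, Prod.mk_add_mk, hp3, hq3, smul_zero, add_zero]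

/-- signs of products -/
private theorem sign_aux {x y z w : ℝ} (h : 0 < x * z) (hy : y ≠ 0) (hw : w ≠ 0)
    (h1 : 0 < x → 0 < y) (h2 : 0 < y → 0 < x) (h3 : 0 < z → 0 < w) (h4 : 0 < w → 0 < z) :
    0 < y * w := by
  rcases lt_trichotomy x 0 with hx | hx | hx
  · have hz : z < 0 := by
      by_contra hz
      nlinarith [not_lt.1 hz]
    have hy' : y < 0 := lt_of_le_of_ne (not_lt.1 fun h' => absurd (h2 h') (not_lt.2 hx.le)) hy
    have hw' : w < 0 := lt_of_le_of_ne (not_lt.1 fun h' => absurd (h4 h') (not_lt.2 hz.le)) hw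
    exact mul_pos_of_neg_of_neg hy' hw'
  · rw [hx] at h; simp at h
  · have hz : 0 < z := by
      by_contra hz
      nlinarith [not_lt.1 hz]
    exact mul_pos (h1 hx) (h3 hz)

/-! ### families of diffeomorphisms -/

/-- the translation vector -/
private noncomputable def vv : R4 := (0, ((1 : ℝ), (0 : ℂ)))

/-- conjugation of a family of diffeomorphisms with a translation -/
private noncomputable def shD (R : DFam I4 R4) : DFam I4 R4 where
  f q := R.f (q.1, q.2 - vv) + vv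
  g q := R.g (q.1, q.2 - vv) + vv
  smooth_f := by
    have h1 : ContDiff ℝ ∞ (fun q : ℝ × R4 => R.f (q.1, q.2 - vv) + vv) :=
      ((contDiff_dfam R).comp (contDiff_fst.prodMk (contDiff_snd.sub contDiff_const))).add
        contDiff_const
    rw [← contMDiff_iff_contDiff, modelWithCornersSelf_prod, ← chartedSpaceSelf_prod] at h1
    exact h1
  smooth_g := by
    have h1 : ContDiff ℝ ∞ (fun q : ℝ × R4 => R.g (q.1, q.2 - vv) + vv) :=
      ((contDiff_dfam_inv R).comp (contDiff_fst.prodMk (contDiff_snd.sub contDiff_const))).add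
        contDiff_const
    rw [← contMDiff_iff_contDiff, modelWithCornersSelf_prod, ← chartedSpaceSelf_prod] at h1
    exact h1
  fg t x := by simp [R.fg]
  gf t x := by simp [R.gf]

private theorem dfam_inj (G : DFam I4 R4) (t : ℝ) {x y : R4} (h : G.f (t, x) = G.f (t, y)) :
    x = y := by
  rw [← G.gf t x, h, G.gf]

/-- a diffeomorphism which is the identity off a subset of `B` maps `B` to itself -/
private theorem maps_self {G : DFam I4 R4} {B C : Set R4} (hC : C ⊆ B)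
    (h : ∀ t y, y ∉ C → G.f (t, y) = y) (t : ℝ) {y : R4} (hy : y ∈ B) : G.f (t, y) ∈ B := by
  by_contra hn
  have h1 := h t (G.f (t, y)) fun h' => hn (hC h')
  have h2 := dfam_inj G t h1
  rw [h2] at hn
  exact hn hy

private theorem ball_abs {c r : ℝ} {y : R4} (h : y ∈ Metric.ball (ax c) r) : |y.2.1 - c| < r := by
  have h1 : dist y (ax c) < r := h
  have h2 : dist y.2 (ax c).2 ≤ dist y (ax c) := by rw [Prod.dist_eq]; exact le_max_right _ _
  have h3 : dist y.2.1 (ax c).2.1 ≤ dist y.2 (ax c).2 := by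
    rw [Prod.dist_eq]; exact le_max_left _ _
  have h4 : dist y.2.1 (ax c).2.1 = |y.2.1 - c| := Real.dist_eq _ _
  linarith

private theorem ball_disj {y : R4} (h0 : y ∈ Metric.ball z0 (1 / 10))
    (h1 : y ∈ Metric.ball (ax 1) (1 / 10)) : False := by
  have e0 := abs_lt.1 (ball_abs (c := 0) h0)
  have e1 := abs_lt.1 (ball_abs h1)
  linarith [e0.2, e1.1]

private theorem z0_eq : z0 = ax 0 := rfl

private theorem ax1_eq : (ax 1 : R4) = z0 + vv := by
  simp [ax, z0, vv]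

private theorem mem_ball_sub {r : ℝ} {y : R4} :
    y ∈ Metric.ball (ax 1) r ↔ y - vv ∈ Metric.ball z0 r := by
  rw [Metric.mem_ball, Metric.mem_ball, dist_eq_norm, dist_eq_norm, ax1_eq]
  rw [show y - (z0 + vv) = y - vv - z0 by abel]

private theorem nfam {D : ArcD} {T : R4 → R4} (hT : D.XG T) {V : Set R4}
    (hVU : ∀ p ∈ V, T p ∈ D.U) (hFV : FB ⊆ V) {R0 R1 : DFam I4 R4} {r0 r1 : ℝ}
    (h0 : r0 < 1 / 10) (h1 : r1 < 1 / 10) (b0 : Metric.ball z0 r0 ⊆ V)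
    (b1 : Metric.ball (ax 1) r1 ⊆ V)
    (S0 : ∃ C : Set R4, IsCompact C ∧ C ⊆ Metric.ball z0 r0 ∧ ∀ t y, y ∉ C → R0.f (t, y) = y)
    (S1 : ∃ C : Set R4, IsCompact C ∧ C ⊆ Metric.ball z0 r1 ∧ ∀ t y, y ∉ C → R1.f (t, y) = y)
    (L0 : ∀ t y, (R0.f (t, y)).2 = 0 ↔ y.2 = 0) (L1 : ∀ t y, (R1.f (t, y)).2 = 0 ↔ y.2 = 0)
    (A0 : ∀ p ∈ Metric.ball z0 r0, T p ∈ D.A → p.2 = 0)
    (A1 : ∀ p ∈ Metric.ball z0 r1, T (p + vv) ∈ D.A → p.2 = 0) :
    (∀ t, ∀ q ∈ FB, q ≠ ax 0 → q ≠ ax 1 → (R0.comp (shD R1)).f (t, q) ∈ V ∧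
      T ((R0.comp (shD R1)).f (t, q)) ∈ D.U \ D.A) ∧
    (∀ t, ∀ q ∈ Metric.ball z0 (1 / 10), (R0.comp (shD R1)).f (t, q) = R0.f (t, q)) ∧
    (∀ t, ∀ q ∈ Metric.ball (ax 1) (1 / 10),
      (R0.comp (shD R1)).f (t, q) = R1.f (t, q - vv) + vv) := by
  obtain ⟨C0, -, hC0, F0⟩ := S0
  obtain ⟨C1, -, hC1, F1⟩ := S1
  have hb0 : Metric.ball z0 r0 ⊆ Metric.ball z0 (1 / 10) := Metric.ball_subset_ball h0.le
  have hb1 : Metric.ball z0 r1 ⊆ Metric.ball z0 (1 / 10) := Metric.ball_subset_ball h1.le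
  have hcomp : ∀ t q, (R0.comp (shD R1)).f (t, q) = R0.f (t, R1.f (t, q - vv) + vv) :=
    fun _ _ => rfl
  -- the second family is the identity off the ball around `ax 1`
  have i1 : ∀ t q, q ∉ Metric.ball (ax 1) r1 → R1.f (t, q - vv) + vv = q := by
    intro t q hq
    rw [F1 t (q - vv) fun h => hq (mem_ball_sub.2 (hC1 h))]
    simp
  have i0 : ∀ t q, q ∉ Metric.ball z0 r0 → R0.f (t, q) = q := fun t q hq =>
    F0 t q fun h => hq (hC0 h)
  have m1 : ∀ t q, ∀ r, r1 ≤ r → q ∈ Metric.ball (ax 1) r →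
      R1.f (t, q - vv) + vv ∈ Metric.ball (ax 1) r := by
    intro t q r hr hq
    rw [mem_ball_sub] at hq ⊢
    rw [add_sub_cancel_right]
    exact maps_self (hC1.trans (Metric.ball_subset_ball hr)) F1 t hq
  have k1 : ∀ t, ∀ q ∈ Metric.ball (ax 1) (1 / 10),
      (R0.comp (shD R1)).f (t, q) = R1.f (t, q - vv) + vv := by
    intro t q hq
    rw [hcomp]
    exact i0 t _ fun h => ball_disj (hb0 h) (m1 t q _ h1.le hq)
  have k0 : ∀ t, ∀ q ∈ Metric.ball z0 (1 / 10),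
      (R0.comp (shD R1)).f (t, q) = R0.f (t, q) := by
    intro t q hq
    rw [hcomp, i1 t q fun h => ball_disj hq (Metric.ball_subset_ball h1.le h)]
  refine ⟨fun t q hq hq0 hq1 => ?_, k0, k1⟩
  by_cases c1 : q ∈ Metric.ball (ax 1) r1
  · have e1 := k1 t q (Metric.ball_subset_ball h1.le c1)
    rw [e1]
    have e2 := m1 t q r1 le_rfl c1
    refine ⟨b1 e2, hVU _ (b1 e2), fun hA => ?_⟩
    have e3 : R1.f (t, q - vv) ∈ Metric.ball z0 r1 := by
      rw [mem_ball_sub, add_sub_cancel_right] at e2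
      exact e2
    have e4 := A1 _ e3 hA
    rw [L1] at e4
    refine hq1 (Prod.ext (fb_fst hq) ?_)
    have e5 : q.2 - ((1 : ℝ), (0 : ℂ)) = 0 := e4
    have e6 := sub_eq_zero.1 e5
    exact e6
  · by_cases c0 : q ∈ Metric.ball z0 r0
    · have e1 := k0 t q (hb0 c0)
      rw [e1]
      have e2 : R0.f (t, q) ∈ Metric.ball z0 r0 := maps_self hC0 F0 t c0
      refine ⟨b0 e2, hVU _ (b0 e2), fun hA => ?_⟩
      have e4 := A0 _ e2 hA
      rw [L0] at e4
      exact hq0 (Prod.ext (fb_fst hq) e4)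
    · rw [hcomp, i1 t q c1, i0 t q c0]
      refine ⟨hFV hq, hVU _ (hFV hq), fun hA => ?_⟩
      rcases hT.arc q hq hA with h | h
      · exact hq0 h
      · exact hq1 h

/-- a neighbourhood of the filled spine on which `T` is an embedding into `D.U` -/
private theorem exV (hA1 : StA1) {D : ArcD} {T : R4 → R4} (h : D.XG T) :
    ∃ V : Set R4, IsOpen V ∧ FB ⊆ V ∧ (∀ p ∈ V, LD T p) ∧ InjOn T V ∧ ∀ p ∈ V, T p ∈ D.U := by
  obtain ⟨δ, hs, he⟩ := hA1 R4 R4 R4 I4 R4 T FB Pool.Agent.Helper34.BI.D1b.cpt_FB h.emb.1 h.emb.2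
  refine ⟨δ.source ∩ δ ⁻¹' D.U, ?_, ?_, ?_, ?_, ?_⟩
  · exact δ.toOpenPartialHomeomorph.continuousOn.isOpen_inter_preimage δ.open_source D.openU
  · intro p hp
    refine ⟨hs hp, ?_⟩
    show δ p ∈ D.U
    rw [he p (hs hp)]
    exact h.inU p hp
  · rintro p ⟨hp, -⟩
    exact ⟨δ, hp, fun q hq => (he q hq).symm⟩
  · rintro p ⟨hp, -⟩ q ⟨hq, -⟩ hpq
    rw [← he p hp, ← he q hq] at hpq
    exact δ.toOpenPartialHomeomorph.injOn hp hq hpq
  · rintro p ⟨hp, hpU⟩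
    rw [← he p hp]
    exact hpU

private theorem ld_add (v p : R4) : LD (fun q => q + v) p := by
  rw [ld_iff]
  refine ⟨Eventually.of_forall fun q => contDiffAt_id.add contDiffAt_const, ?_⟩
  have h1 : fderiv ℝ (fun q : R4 => q + v) p = ContinuousLinearMap.id ℝ R4 := by
    rw [fderiv_add_const]
    exact fderiv_id'
  rw [h1]
  exact fun _ _ h => h

/-- the family of germs -/
private theorem fam (hCL : Pool.Agent.Helper70.BI.StCL) (hF : Pool.Agent.Helper70.BI.StFam)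
    {D : ArcD} {T : R4 → R4} {V : Set R4} (hLD : ∀ p ∈ V, LD T p) (hinj : InjOn T V)
    {N : DFam I4 R4} (N0 : ∀ y, N.f (0, y) = y)
    (hN : ∀ t, ∀ q ∈ FB, q ≠ ax 0 → q ≠ ax 1 → N.f (t, q) ∈ V ∧ T (N.f (t, q)) ∈ D.U \ D.A)
    {lam : ℝ} (hlam : lam ∈ Ioc (0 : ℝ) 1) :
    EmbOn I4 (fun p => T (N.f (1, clc 0 lam (clc 1 lam p)))) SP ∧
    (∀ p ∈ SP, T (N.f (1, clc 0 lam (clc 1 lam p))) ∈ D.U \ D.A) ∧
    Eqv (fun p => D.e (T p)) (fun p => D.e (T (N.f (1, clc 0 lam (clc 1 lam p))))) := by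
  obtain ⟨hs0, one0, h0⟩ := hCL 0 (Or.inl rfl)
  obtain ⟨hs1, one1, h1⟩ := hCL 1 (Or.inr rfl)
  have hmu : ∀ t ∈ Icc (0 : ℝ) 1, 1 - t * (1 - lam) ∈ Ioc (0 : ℝ) 1 := by
    intro t ht
    constructor
    · nlinarith [ht.1, ht.2, hlam.1, hlam.2]
    · nlinarith [ht.1, ht.2, hlam.1, hlam.2]
  have hmem : ∀ t, ∀ mu ∈ Ioc (0 : ℝ) 1, ∀ p ∈ SP, N.f (t, clc 0 mu (clc 1 mu p)) ∈ V ∧
      T (N.f (t, clc 0 mu (clc 1 mu p))) ∈ D.U \ D.A := by
    intro t mu hm p hp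
    obtain ⟨a1, a2, a3⟩ := maps hCL hm hp
    exact hN t _ a1 a2 a3
  have hld : ∀ t, ∀ mu ∈ Ioc (0 : ℝ) 1, ∀ p, LD (fun q => N.f (t, clc 0 mu (clc 1 mu q))) p := by
    intro t mu hm p
    have e1 := (h1 mu hm).1.1 p (mem_univ _)
    have e0 := (h0 mu hm).1.1 (clc 1 mu p) (mem_univ _)
    have e2 : LD (fun q => clc 0 mu (clc 1 mu q)) p := ld_comp e1 e0
    exact ld_comp e2 (ld_dfam N t _)
  have hinj' : ∀ t, ∀ mu ∈ Ioc (0 : ℝ) 1, ∀ p ∈ SP, ∀ q ∈ SP,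
      T (N.f (t, clc 0 mu (clc 1 mu p))) = T (N.f (t, clc 0 mu (clc 1 mu q))) → p = q := by
    intro t mu hm p hp q hq he
    have e1 := hinj (hmem t mu hm p hp).1 (hmem t mu hm q hq).1 he
    have e2 := dfam_inj N t e1
    have e3 := (h0 mu hm).1.2 (mem_univ _) (mem_univ _) e2
    exact (h1 mu hm).1.2 (mem_univ _) (mem_univ _) e3
  have hLe : ∀ p ∈ V, T p ∈ D.U \ D.A → LD (fun q => D.e (T q)) p := fun p hp hq =>
    ld_comp (hLD p hp) (D.embe.1 (T p) hq)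
  have hm : ContDiff ℝ ∞ (fun z : ℝ × R4 => N.f (z.1, clc 0 (1 - z.1 * (1 - lam))
      (clc 1 (1 - z.1 * (1 - lam)) z.2))) := by
    have g1 : ContDiff ℝ ∞ (fun z : ℝ × R4 => 1 - z.1 * (1 - lam)) :=
      contDiff_const.sub (contDiff_fst.mul contDiff_const)
    have g2 : ContDiff ℝ ∞ (fun z : ℝ × R4 => clc 1 (1 - z.1 * (1 - lam)) z.2) :=
      hs1.comp (g1.prodMk contDiff_snd)
    have g3 : ContDiff ℝ ∞ (fun z : ℝ × R4 => clc 0 (1 - z.1 * (1 - lam))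
        (clc 1 (1 - z.1 * (1 - lam)) z.2)) := hs0.comp (g1.prodMk g2)
    exact (contDiff_dfam N).comp (contDiff_fst.prodMk g3)
  have hfam : FamOn I4 (fun z : ℝ × R4 => D.e (T (N.f (z.1, clc 0 (1 - z.1 * (1 - lam))
      (clc 1 (1 - z.1 * (1 - lam)) z.2))))) SP := by
    rw [famOn_iff]
    refine ⟨fun t ht p hp => ?_, fun t ht => ⟨fun p hp => ?_, fun p hp q hq he => ?_⟩⟩
    · obtain ⟨a1, a2⟩ := hmem t _ (hmu t ht) p hp
      have g1 := (ld_iff.1 (hLe _ a1 a2)).1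
      have g2 : ContinuousAt (fun z : ℝ × R4 => N.f (z.1, clc 0 (1 - z.1 * (1 - lam))
          (clc 1 (1 - z.1 * (1 - lam)) z.2))) (t, p) := hm.continuous.continuousAt
      filter_upwards [g2.eventually g1] with z hz
      exact ContDiffAt.comp (g := fun q => D.e (T q)) z hz hm.contDiffAt
    · obtain ⟨a1, a2⟩ := hmem t _ (hmu t ht) p hp
      exact ld_comp (F := fun q => D.e (T q)) (hld t _ (hmu t ht) p) (hLe _ a1 a2)
    · obtain ⟨-, a2⟩ := hmem t _ (hmu t ht) p hp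
      obtain ⟨-, b2⟩ := hmem t _ (hmu t ht) q hq
      exact hinj' t _ (hmu t ht) p hp q hq (D.embe.2 a2 b2 he)
  refine ⟨⟨fun p hp => ?_, fun p hp q hq he => hinj' 1 lam hlam p hp q hq he⟩,
    fun p hp => (hmem 1 lam hlam p hp).2, ?_⟩
  · exact ld_comp (hld 1 lam hlam p) (hLD _ (hmem 1 lam hlam p hp).1)
  · have h := hF _ hfam
    have e0 : (fun p : R4 => D.e (T (N.f (((0 : ℝ), p).1, clc 0 (1 - ((0 : ℝ), p).1 * (1 - lam))
        (clc 1 (1 - ((0 : ℝ), p).1 * (1 - lam)) ((0 : ℝ), p).2))))) = fun p => D.e (T p) := by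
      funext p
      simp [one0, one1, N0]
    have e1 : (fun p : R4 => D.e (T (N.f (((1 : ℝ), p).1, clc 0 (1 - ((1 : ℝ), p).1 * (1 - lam))
        (clc 1 (1 - ((1 : ℝ), p).1 * (1 - lam)) ((1 : ℝ), p).2))))) =
        fun p => D.e (T (N.f (1, clc 0 lam (clc 1 lam p)))) := by
      funext p
      simp
    rw [e0, e1] at h
    exact h

/-- the two centres satisfy the hypotheses of `StCEN` -/
private theorem stra (hDET : Pool.Agent.Helper70.BI.StDET) {D : ArcD} {T : R4 → R4}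
    (hT : D.XG T) {V : Set R4} (hLD : ∀ p ∈ V, LD T p) (hinj : InjOn T V) {ε : ℝ} (hε : 0 < ε)
    (hb0 : Metric.ball (ax 0) ε ⊆ V) (hb1 : Metric.ball (ax 1) ε ⊆ V) :
    ∃ σ τ : ℝ → ℝ, D.s₀ < σ (1 / 2) ∧ σ (1 / 2) < τ (1 / 2) ∧ τ (1 / 2) < D.s₁ ∧
      StrA D T σ ε ∧ StrA D (fun p => T (p + vv)) τ ε := by
  obtain ⟨σ, τ, hσ, hτ, dσ, dτ, l0, l1, l2, e0, e1, hor⟩ := hT.str
  have m0 : (ax 0 : R4) ∈ FB := Or.inl (Or.inl ⟨rfl, by rw [rsq_ax]; norm_num⟩)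
  have m1 : (ax 1 : R4) ∈ FB := Or.inl (Or.inr ⟨rfl, by rw [rsq_ax]; norm_num⟩)
  have hball : ∀ p ∈ Metric.ball z0 ε, p + vv ∈ Metric.ball (ax 1 : R4) ε := by
    intro p hp
    rw [mem_ball_sub, add_sub_cancel_right]
    exact hp
  have h12 : D.s₀ < D.s₁ := by linarith
  refine ⟨σ, τ, l0, l1, l2, ⟨hε, fun p hp => hLD p (hb0 hp), hinj.mono hb0, hσ, dσ, l0,
    l1.trans l2, e0, hor⟩, ⟨hε, fun p hp => ?_, fun p hp q hq he => ?_, hτ, dτ, l0.trans l1, l2,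
    ?_, ?_⟩⟩
  · exact ld_comp (ld_add vv p) (hLD _ (hb1 (hball p hp)))
  · have h1 := hinj (hb1 (hball p hp)) (hb1 (hball q hq)) he
    exact add_right_cancel h1
  · filter_upwards [e1] with s hs
    have h1 : ((s, ((0 : ℝ), (0 : ℂ))) : R4) + vv = (s, ((1 : ℝ), (0 : ℂ))) := by
      simp [vv]
    simp only [h1]
    exact hs
  · have g1 : fderiv ℝ (fun p => T (p + vv)) z0 = fderiv ℝ T (ax 1) := by
      rw [fderiv_comp_add_right, ax1_eq]
    rw [g1]
    have hseg : IsPreconnected (seg D.s₀ D.s₁) := (convex_seg _ _).isPreconnected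
    have a1 : ((σ (1 / 2), 0) : R4) ∈ seg D.s₀ D.s₁ := ⟨l0.le, (l1.trans l2).le, rfl⟩
    have a2 : ((τ (1 / 2), 0) : R4) ∈ seg D.s₀ D.s₁ := ⟨(l0.trans l1).le, l2.le, rfl⟩
    exact sign_aux hor (det_ne (hT.emb.1 _ m1)) (det_ne (D.emb.1 _ a2))
      (hDET T FB (Or.inl rfl) hT.emb.1 _ m0 _ m1) (hDET T FB (Or.inl rfl) hT.emb.1 _ m1 _ m0)
      (pos_of_pre hseg D.emb.1 a1 a2) (pos_of_pre hseg D.emb.1 a2 a1)

end NCT

/-- **NCT** (crossing germs are equivalent to germs with small round cuffs). -/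
theorem m_NCT (hCEN : StCEN) (hCL : Pool.Agent.Helper70.BI.StCL)
    (hF : Pool.Agent.Helper70.BI.StFam) (hDET : Pool.Agent.Helper70.BI.StDET) (hA1 : StA1) :
    StNCT := by
  intro D T hT
  obtain ⟨V, hV, hFV, hLD, hinj, hVU⟩ := NCT.exV hA1 hT
  have m0 : (Pool.Agent.Helper70.BI.ax 0 : R4) ∈ FB :=
    Or.inl (Or.inl ⟨rfl, by rw [NCT.rsq_ax]; norm_num⟩)
  have m1 : (Pool.Agent.Helper70.BI.ax 1 : R4) ∈ FB :=
    Or.inl (Or.inr ⟨rfl, by rw [NCT.rsq_ax]; norm_num⟩)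
  obtain ⟨ε0, hε0, hb0⟩ := Metric.isOpen_iff.1 hV _ (hFV m0)
  obtain ⟨ε1, hε1, hb1⟩ := Metric.isOpen_iff.1 hV _ (hFV m1)
  obtain ⟨ε, hε, le0, le1, le2⟩ : ∃ ε : ℝ, 0 < ε ∧ ε ≤ ε0 ∧ ε ≤ ε1 ∧ ε ≤ 1 / 20 :=
    ⟨min (min ε0 ε1) (1 / 20), by positivity, (min_le_left _ _).trans (min_le_left _ _),
      (min_le_left _ _).trans (min_le_right _ _), min_le_right _ _⟩
  have hb0' := (Metric.ball_subset_ball le0).trans hb0
  have hb1' := (Metric.ball_subset_ball le1).trans hb1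
  obtain ⟨σ, τ, l0, l1, l2, SA0, SA1⟩ := NCT.stra hDET hT hLD hinj hε hb0' hb1'
  obtain ⟨R0, r0, r0p, r0l, R00, S0, L0, A0, G0⟩ := hCEN D T σ ε SA0
  obtain ⟨R1, r1, r1p, r1l, R10, S1, L1, A1, G1⟩ := hCEN D _ τ ε SA1
  obtain ⟨kB, k0, k1⟩ := NCT.nfam hT hVU hFV (R0 := R0) (R1 := R1) (r0 := r0) (r1 := r1)
    (by linarith) (by linarith) ((Metric.ball_subset_ball r0l.le).trans hb0')
    ((Metric.ball_subset_ball r1l.le).trans hb1') S0 S1 L0 L1 A0 A1
  have N0 : ∀ y, (R0.comp (NCT.shD R1)).f (0, y) = y := by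
    intro y
    show R0.f (0, R1.f (0, y - NCT.vv) + NCT.vv) = y
    rw [R00, R10, sub_add_cancel]
  rw [Metric.eventually_nhds_iff] at G0 G1
  obtain ⟨δ0, hδ0, G0⟩ := G0
  obtain ⟨δ1, hδ1, G1⟩ := G1
  obtain ⟨δ, hδ, d0, d1, d2⟩ : ∃ δ : ℝ, 0 < δ ∧ δ ≤ δ0 ∧ δ ≤ δ1 ∧ δ ≤ 1 / 20 :=
    ⟨min (min δ0 δ1) (1 / 20), by positivity, (min_le_left _ _).trans (min_le_left _ _),
      (min_le_left _ _).trans (min_le_right _ _), min_le_right _ _⟩
  refine ⟨σ (1 / 2), τ (1 / 2), δ, l0, l1, l2, hδ, fun lam hlam => ?_⟩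
  have hl : lam ∈ Ioc (0 : ℝ) 1 := ⟨hlam.1, by linarith [hlam.2]⟩
  obtain ⟨f1, f2, f3⟩ := NCT.fam hCL hF hLD hinj N0 kB hl
  obtain ⟨-, -, h0⟩ := hCL 0 (Or.inl rfl)
  obtain ⟨-, -, h1⟩ := hCL 1 (Or.inr rfl)
  obtain ⟨-, -, con0, fix0, -, -, -⟩ := h0 lam hl
  obtain ⟨-, -, con1, fix1, -, -, -⟩ := h1 lam hl
  -- points close to the centre
  have hdist : ∀ (s : ℝ) (x : R3), |s - 1 / 2| < δ → ‖x‖ ≤ 1 / 2 →
      dist ((s, lam • x) : R4) z0 < δ := by
    intro s x hs hx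
    rw [Prod.dist_eq]
    refine max_lt ?_ ?_
    · rw [Real.dist_eq]
      exact hs
    · have e1 : dist (lam • x) ((0 : ℝ), (0 : ℂ)) = ‖lam • x‖ := dist_zero_right _
      have e2 : ‖lam • x‖ = lam * ‖x‖ := by
        rw [norm_smul, Real.norm_of_nonneg hlam.1.le]
      show dist (lam • x) ((0 : ℝ), (0 : ℂ)) < δ
      rw [e1, e2]
      nlinarith [hlam.1, hlam.2, norm_nonneg x]
  refine ⟨_, ⟨f1, f2, ?_, ?_⟩, f3⟩
  · intro p hp
    have c1 : ∀ᶠ q in 𝓝 p, rsq 0 q < 1 / 20 :=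
      (NCT.rsq_cont 0).continuousAt.eventually (gt_mem_nhds (by rw [hp.2]; norm_num))
    have c2 : ∀ᶠ q in 𝓝 p, 1 / 10 < rsq 1 q :=
      (NCT.rsq_cont 1).continuousAt.eventually (lt_mem_nhds (NCT.far1 ⟨hp.1, hp.2.le⟩))
    have c3 : ∀ᶠ q : R4 in 𝓝 p, |q.1 - 1 / 2| < δ := by
      have : Continuous fun q : R4 => |q.1 - 1 / 2| := by fun_prop
      refine this.continuousAt.eventually (gt_mem_nhds ?_)
      show |p.1 - 1 / 2| < δ
      rw [hp.1]
      simpa using hδ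
    filter_upwards [c1, c2, c3] with q q1 q2 q3
    have hn : ‖q.2‖ ≤ 1 / 2 := by
      have := NCT.norm_le_of_rsq q1
      rwa [show pc 0 = 0 from rfl, sub_zero] at this
    have e1 : Pool.Agent.Helper70.BI.clc 1 lam q = q := fix1 q (by linarith)
    have e2 : Pool.Agent.Helper70.BI.clc 0 lam q = (q.1, lam • q.2) := by
      rw [con0 q q1.le]
      rw [show pc 0 = 0 from rfl, sub_zero, zero_add]
    have hd := hdist q.1 q.2 q3 hn
    rw [e1, e2, k0 1 _ (lt_of_lt_of_le hd (by linarith))]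
    have := G0 (lt_of_lt_of_le hd d0)
    exact this
  · intro p hp
    have c1 : ∀ᶠ q in 𝓝 p, rsq 1 q < 1 / 20 :=
      (NCT.rsq_cont 1).continuousAt.eventually (gt_mem_nhds (by rw [hp.2]; norm_num))
    have c3 : ∀ᶠ q : R4 in 𝓝 p, |q.1 - 1 / 2| < δ := by
      have : Continuous fun q : R4 => |q.1 - 1 / 2| := by fun_prop
      refine this.continuousAt.eventually (gt_mem_nhds ?_)
      show |p.1 - 1 / 2| < δ
      rw [hp.1]
      simpa using hδ
    filter_upwards [c1, c3] with q q1 q3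
    have hn : ‖q.2 - pc 1‖ ≤ 1 / 2 := NCT.norm_le_of_rsq q1
    have hd := hdist q.1 (q.2 - pc 1) q3 hn
    have e1 : Pool.Agent.Helper70.BI.clc 1 lam q = (q.1, pc 1 + lam • (q.2 - pc 1)) :=
      con1 q q1.le
    have e4 : ((q.1, pc 1 + lam • (q.2 - pc 1)) : R4) - NCT.vv = (q.1, lam • (q.2 - pc 1)) := by
      refine Prod.ext ?_ ?_
      · simp [NCT.vv]
      · show pc 1 + lam • (q.2 - pc 1) - ((1 : ℝ), (0 : ℂ)) = lam • (q.2 - pc 1)
        exact add_sub_cancel_left _ _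
    have hmem : ((q.1, pc 1 + lam • (q.2 - pc 1)) : R4) ∈
        Metric.ball (Pool.Agent.Helper70.BI.ax 1) (1 / 10) := by
      rw [NCT.mem_ball_sub, e4]
      exact lt_of_lt_of_le hd (by linarith)
    have e2 : Pool.Agent.Helper70.BI.clc 0 lam (q.1, pc 1 + lam • (q.2 - pc 1)) =
        (q.1, pc 1 + lam • (q.2 - pc 1)) := by
      refine fix0 _ ?_
      have h3 := abs_lt.1 (NCT.ball_abs hmem)
      simp only [rsq, nsq] at h3 ⊢
      nlinarith [h3.1, h3.2, sq_nonneg (pc 1 + lam • (q.2 - pc 1)).2.re,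
        sq_nonneg (pc 1 + lam • (q.2 - pc 1)).2.im]
    rw [e1, e2, k1 1 _ hmem, e4]
    have := G1 (lt_of_lt_of_le hd d1)
    exact this

end Pool.Agent.Helper70.H


end

/-! ## Helper70.BI.H.M_CEN -/

section

/-!
# Project BI, stage 3 (H), module N-CEN (helper99): centring of a crossing germ
-/

set_option autoImplicit false

open scoped Manifold ContDiff Topology ComplexConjugate
open Set Filter Pool.Agent.Helper65.Barb Pool.Agent.Helper18.BI

namespace Pool.Agent.Helper70.H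

open Pool.Agent.Helper27.H (ArcD seg)
open Pool.Agent.Helper70.BI (I4 LD Eqv NearEq pc StPT StGL)

namespace CEN

/-- the vertical line through `z0` -/
noncomputable def ln (s : ℝ) : R4 := (s, ((0 : ℝ), (0 : ℂ)))

theorem ln_half : ln (1 / 2) = z0 := rfl

theorem ln_zero (s : ℝ) : (ln s) = (s, (0 : ℝ × ℂ)) := rfl

theorem continuous_ln : Continuous ln := by
  unfold ln
  fun_prop

theorem hasDerivAt_ln (s : ℝ) : HasDerivAt ln ((1, 0) : R4) s :=
  HasDerivAt.prodMk (hasDerivAt_id s) (hasDerivAt_const s ((0 : ℝ), (0 : ℂ)))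

theorem isCompact_seg (a b : ℝ) : IsCompact (seg a b) := by
  have h : seg a b = Icc a b ×ˢ {(0 : ℝ × ℂ)} := by
    ext p
    simp only [seg, mem_ofPred_eq, mem_prod, mem_Icc, mem_singleton_iff]
    tauto
  rw [h]
  exact isCompact_Icc.prod isCompact_singleton

theorem ld_continuousAt {F : R4 → R4} {p : R4} (h : LD F p) : ContinuousAt F p :=
  (Pool.Agent.Helper70.BI.ld_iff.1 h).1.self_of_nhds.continuousAt

theorem ld_differentiableAt {F : R4 → R4} {p : R4} (h : LD F p) : DifferentiableAt ℝ F p :=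
  (Pool.Agent.Helper70.BI.ld_iff.1 h).1.self_of_nhds.differentiableAt (by simp)

/-- step (1) -/
theorem step1 {D : ArcD} {T : R4 → R4} {σ : ℝ → ℝ} {ε : ℝ} (h : StrA D T σ ε) :
    ∃ r : ℝ, 0 < r ∧ r < ε ∧ ∀ p ∈ Metric.ball z0 r, T p ∈ D.A → p.2 = 0 := by
  have hz : z0 ∈ Metric.ball z0 ε := Metric.mem_ball_self h.pos
  have hS : {s : ℝ | T (ln s) = D.J (σ s, 0) ∧ ln s ∈ Metric.ball z0 ε} ∈ 𝓝 (1 / 2 : ℝ) := by
    have h1 : ∀ᶠ s in 𝓝 (1 / 2 : ℝ), ln s ∈ Metric.ball z0 ε :=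
      continuous_ln.continuousAt.eventually (Metric.isOpen_ball.mem_nhds (by rw [ln_half]; exact hz))
    filter_upwards [h.str, h1] with s e1 e2
    exact ⟨e1, e2⟩
  have hσ : HasStrictDerivAt σ (deriv σ (1 / 2)) (1 / 2) := h.smooth.hasStrictDerivAt (by simp)
  have hO : σ '' {s : ℝ | T (ln s) = D.J (σ s, 0) ∧ ln s ∈ Metric.ball z0 ε} ∈ 𝓝 (σ (1 / 2)) := by
    rw [← hσ.map_nhds_eq h.dpos.ne']
    exact image_mem_map hS
  obtain ⟨O, hO1, hO2, hO3⟩ := mem_nhds_iff.1 hO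
  have hcont : ContinuousOn D.J D.L := fun p hp => (ld_continuousAt (D.emb.1 p hp)).continuousWithinAt
  have hK : IsCompact (D.J '' (D.L ∩ {p | p.1 ∉ O})) := by
    have h1 : IsClosed {p : R4 | p.1 ∉ O} := (hO2.preimage continuous_fst).isClosed_compl
    exact ((isCompact_seg _ _).inter_right h1).image_of_continuousOn (hcont.mono inter_subset_left)
  have hTz : T z0 = D.J (σ (1 / 2), 0) := h.str.self_of_nhds
  have hmem : ((σ (1 / 2), 0) : R4) ∈ D.L := ⟨h.lo.le, h.hi.le, rfl⟩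
  have hnot : T z0 ∉ D.J '' (D.L ∩ {p | p.1 ∉ O}) := by
    rintro ⟨p, ⟨hp1, hp2⟩, hp3⟩
    rw [hTz] at hp3
    have h1 := D.emb.2 hp1 hmem hp3
    apply hp2
    rw [h1]
    exact hO3
  have hev : ∀ᶠ p in 𝓝 z0, T p ∉ D.J '' (D.L ∩ {p | p.1 ∉ O}) :=
    (ld_continuousAt (h.loc z0 hz)).eventually (hK.isClosed.isOpen_compl.mem_nhds hnot)
  obtain ⟨r, hr, hr2⟩ := Metric.eventually_nhds_iff_ball.1 hev
  have hp := h.pos
  refine ⟨min r (ε / 2), lt_min hr (by linarith), lt_of_le_of_lt (min_le_right _ _) (by linarith), fun p hp1 hp2 => ?_⟩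
  have hp3 : p ∈ Metric.ball z0 r := Metric.ball_subset_ball (min_le_left _ _) hp1
  have hp4 : p ∈ Metric.ball z0 ε := Metric.ball_subset_ball ((min_le_right _ _).trans (by linarith)) hp1
  obtain ⟨q, hq, hqp⟩ := hp2
  have hqO : q.1 ∈ O := by
    by_contra hc
    exact hr2 p hp3 ⟨q, ⟨hq, hc⟩, hqp⟩
  obtain ⟨s, ⟨hs1, hs2⟩, hs3⟩ := hO1 hqO
  have hq2 : q = ((σ s, 0) : R4) := Prod.ext hs3.symm hq.2.2
  have h1 : T p = T (ln s) := by rw [hs1, ← hqp, hq2]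
  rw [h.inj hp4 hs2 h1]
  rfl

/-- the translation -/
theorem ld_tr (a : ℝ) (p : R4) :
    LD (fun p : R4 => ((a + (p.1 - 1 / 2), p.2) : R4)) p ∧
      fderiv ℝ (fun p : R4 => ((a + (p.1 - 1 / 2), p.2) : R4)) p = ContinuousLinearMap.id ℝ R4 := by
  have e : (fun p : R4 => ((a + (p.1 - 1 / 2), p.2) : R4)) = fun p => p + ((a - 1 / 2, 0) : R4) := by
    funext p
    refine Prod.ext ?_ ?_
    · show a + (p.1 - 1 / 2) = p.1 + (a - 1 / 2)
      ring
    · show p.2 = p.2 + 0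
      rw [add_zero]
  have h1 : HasFDerivAt (fun p : R4 => p + ((a - 1 / 2, 0) : R4)) (ContinuousLinearMap.id ℝ R4) p :=
    (hasFDerivAt_id p).add_const _
  rw [e]
  refine ⟨Pool.Agent.Helper70.BI.ld_iff.2 ⟨Eventually.of_forall fun q => ?_, ?_⟩, h1.fderiv⟩
  · exact (contDiff_id.add contDiff_const).contDiffAt
  · rw [h1.fderiv]
    exact Function.injective_id

end CEN

open CEN in
/-- **MODULE N-CEN** -/
theorem m_CEN (hLOCL : StLOCL) : StCEN := by
  intro D T σ ε hA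
  obtain ⟨r, hr, hrε, hr1⟩ := step1 hA
  have hz : z0 ∈ Metric.ball z0 ε := Metric.mem_ball_self hA.pos
  have hT := hA.loc z0 hz
  have hTz : T z0 = D.J (σ (1 / 2), 0) := hA.str.self_of_nhds
  have hmem : ((σ (1 / 2), 0) : R4) ∈ D.L := ⟨hA.lo.le, hA.hi.le, rfl⟩
  obtain ⟨f, hf⟩ : ∃ f : R4 → R4, f = hT.localInverse := ⟨_, rfl⟩
  have hfl : LD f (T z0) := by rw [hf]; exact hT.localInverse_isLocalDiffeomorphAt
  have hright : T ∘ f =ᶠ[𝓝 (T z0)] id := by rw [hf]; exact hT.localInverse_eventuallyEq_right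
  have hleft : f ∘ T =ᶠ[𝓝 z0] id := by rw [hf]; exact hT.localInverse_eventuallyEq_left
  have hfz : f (T z0) = z0 := hleft.self_of_nhds
  -- the translate of `D.J`
  obtain ⟨g, hg⟩ : ∃ g : R4 → R4, g = fun p => D.J (σ (1 / 2) + (p.1 - 1 / 2), p.2) := ⟨_, rfl⟩
  obtain ⟨htr1, htr2⟩ := ld_tr (σ (1 / 2)) z0
  have htrz : (fun p : R4 => ((σ (1 / 2) + (p.1 - 1 / 2), p.2) : R4)) z0 = ((σ (1 / 2), 0) : R4) := by
    refine Prod.ext ?_ rfl
    show σ (1 / 2) + (1 / 2 - 1 / 2) = σ (1 / 2)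
    ring
  have hJ : LD D.J ((fun p : R4 => ((σ (1 / 2) + (p.1 - 1 / 2), p.2) : R4)) z0) := by
    rw [htrz]; exact D.emb.1 _ hmem
  have hgl : LD g z0 := by
    rw [hg]
    exact Pool.Agent.Helper70.BI.ld_comp htr1 hJ
  have hgz : g z0 = T z0 := by
    rw [hg, hTz]
    exact congrArg D.J htrz
  have hgd : fderiv ℝ g z0 = fderiv ℝ D.J (σ (1 / 2), 0) := by
    have h1 : g = D.J ∘ (fun p : R4 => ((σ (1 / 2) + (p.1 - 1 / 2), p.2) : R4)) := hg
    have h2 : ((σ (1 / 2) + ((z0 : R4).1 - 1 / 2), (z0 : R4).2) : R4) = ((σ (1 / 2), 0) : R4) := htrz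
    rw [h1, fderiv_comp z0 (ld_differentiableAt hJ) (ld_differentiableAt htr1), htr2, ContinuousLinearMap.comp_id, h2]
  -- the germ `h`
  obtain ⟨h, hh⟩ : ∃ h : R4 → R4, h = f ∘ g := ⟨_, rfl⟩
  have hhl : LD h z0 := by
    rw [hh]
    exact Pool.Agent.Helper70.BI.ld_comp hgl (by rw [hgz]; exact hfl)
  have hhz : h z0 = z0 := by
    rw [hh]
    show f (g z0) = z0
    rw [hgz, hfz]
  have hTh : T ∘ h =ᶠ[𝓝 z0] g := by
    have h1 : ∀ᶠ p in 𝓝 z0, (T ∘ f) (g p) = id (g p) := by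
      have h2 : ContinuousAt g z0 := ld_continuousAt hgl
      have h3 : ∀ᶠ y in 𝓝 (g z0), (T ∘ f) y = id y := by
        rw [hgz]
        exact hright
      exact h2.eventually h3
    filter_upwards [h1] with p hp
    rw [hh]
    exact hp
  have hdh : DifferentiableAt ℝ h z0 := ld_differentiableAt hhl
  have hdet : 0 < (fderiv ℝ h z0).det := by
    have h1 : fderiv ℝ (T ∘ h) z0 = (fderiv ℝ T (h z0)).comp (fderiv ℝ h z0) :=
      fderiv_comp z0 (by rw [hhz]; exact ld_differentiableAt hT) hdh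
    rw [hTh.fderiv_eq, hgd, hhz] at h1
    have h2 : (fderiv ℝ D.J (σ (1 / 2), 0)).det = (fderiv ℝ T z0).det * (fderiv ℝ h z0).det := by
      rw [h1]
      exact LinearMap.det_comp (fderiv ℝ T z0 : R4 →ₗ[ℝ] R4) (fderiv ℝ h z0 : R4 →ₗ[ℝ] R4)
    have h3 := hA.orient
    rw [h2] at h3
    have h4 : 0 < ((fderiv ℝ T z0).det) ^ 2 * (fderiv ℝ h z0).det := by
      have e : ((fderiv ℝ T z0).det) ^ 2 * (fderiv ℝ h z0).det =
        (fderiv ℝ T z0).det * ((fderiv ℝ T z0).det * (fderiv ℝ h z0).det) := by ring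
      rw [e]; exact h3
    exact (pos_iff_pos_of_mul_pos h4).1 (by
      rcases (sq_nonneg ((fderiv ℝ T z0).det)).lt_or_eq with h5 | h5
      · exact h5
      · rw [← h5, zero_mul] at h4
        exact absurd h4 (lt_irrefl _))
  -- the line condition
  have hhc : ContinuousAt h z0 := hdh.continuousAt
  have hev1 : ∀ᶠ p in 𝓝 z0, h p ∈ Metric.ball z0 r :=
    hhc.eventually (Metric.isOpen_ball.mem_nhds (by rw [hhz]; exact Metric.mem_ball_self hr))
  have hev2 : ∀ᶠ p : R4 in 𝓝 z0, σ (1 / 2) + (p.1 - 1 / 2) ∈ Ioo D.s₀ D.s₁ := by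
    have h1 : ContinuousAt (fun p : R4 => σ (1 / 2) + (p.1 - 1 / 2)) z0 := by fun_prop
    refine h1.eventually (isOpen_Ioo.mem_nhds ?_)
    have h2 : σ (1 / 2) + ((z0 : R4).1 - 1 / 2) = σ (1 / 2) := by
      show σ (1 / 2) + (1 / 2 - 1 / 2) = σ (1 / 2)
      ring
    show σ (1 / 2) + ((z0 : R4).1 - 1 / 2) ∈ Ioo D.s₀ D.s₁
    rw [h2]
    exact ⟨hA.lo, hA.hi⟩
  have hline : ∀ᶠ p in 𝓝 z0, p.2 = 0 → (h p).2 = 0 := by
    filter_upwards [hev1, hev2, hTh] with p e1 e2 e3 hp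
    apply hr1 (h p) e1
    have e4 : T (h p) = g p := e3
    rw [e4, hg]
    exact ⟨((σ (1 / 2) + (p.1 - 1 / 2), p.2) : R4), ⟨e2.1.le, e2.2.le, hp⟩, rfl⟩
  -- the derivative along the line
  have hpos : 0 < (fderiv ℝ h z0 (1, 0)).1 := by
    have hκd : HasDerivAt (fun s => (h (ln s)).1) ((fderiv ℝ h z0 (1, 0)).1) (1 / 2) := by
      have h1 : HasDerivAt (fun s => h (ln s)) (fderiv ℝ h z0 (1, 0)) (1 / 2) :=
        HasFDerivAt.comp_hasDerivAt (1 / 2) (by rw [ln_half]; exact hdh.hasFDerivAt) (hasDerivAt_ln _)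
      exact (hasFDerivAt_fst (𝕜 := ℝ) (p := h (ln (1 / 2)))).comp_hasDerivAt (1 / 2) h1
    have hκ : (fun s => (h (ln s)).1) (1 / 2) = 1 / 2 := by
      show (h (ln (1 / 2))).1 = 1 / 2
      rw [ln_half, hhz]
      rfl
    have hσd : HasDerivAt σ (deriv σ (1 / 2)) ((fun s => (h (ln s)).1) (1 / 2)) := by
      rw [hκ]
      exact (hA.smooth.differentiableAt (by simp)).hasDerivAt
    have hcomp := HasDerivAt.comp (1 / 2 : ℝ) hσd hκd
    have hln : Tendsto ln (𝓝 (1 / 2)) (𝓝 z0) := continuous_ln.tendsto (1 / 2)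
    have hκt : Tendsto (fun s => (h (ln s)).1) (𝓝 (1 / 2)) (𝓝 (1 / 2)) := by
      have h1 : Tendsto (fun s => (h (ln s)).1) (𝓝 (1 / 2)) (𝓝 ((h (ln (1 / 2))).1)) :=
        hκd.continuousAt.tendsto
      have h2 : (h (ln (1 / 2))).1 = 1 / 2 := hκ
      rw [h2] at h1
      exact h1
    have hσt : Tendsto (fun s => σ ((h (ln s)).1)) (𝓝 (1 / 2)) (𝓝 (σ (1 / 2))) :=
      hA.smooth.continuousAt.tendsto.comp hκt
    have heq : (σ ∘ fun s => (h (ln s)).1) =ᶠ[𝓝 (1 / 2)] fun s => σ (1 / 2) + (s - 1 / 2) := by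
      filter_upwards [hln.eventually hline, hln.eventually hTh, hκt.eventually hA.str, hln.eventually hev2,
        hσt.eventually (isOpen_Ioo.mem_nhds ⟨hA.lo, hA.hi⟩)] with s e1 e2 e3 e4 e5
      have e6 : (h (ln s)).2 = 0 := e1 rfl
      have e7 : h (ln s) = ln ((h (ln s)).1) := Prod.ext rfl e6
      have e8 : T (h (ln s)) = g (ln s) := e2
      have e9 : T (ln ((h (ln s)).1)) = D.J (σ ((h (ln s)).1), 0) := e3
      have e10 : T (h (ln s)) = T (ln ((h (ln s)).1)) := congrArg T e7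
      rw [e8, hg, e9] at e10
      have m1 : ((σ (1 / 2) + ((ln s).1 - 1 / 2), (ln s).2) : R4) ∈ D.L := ⟨e4.1.le, e4.2.le, rfl⟩
      have m2 : ((σ ((h (ln s)).1), 0) : R4) ∈ D.L := ⟨e5.1.le, e5.2.le, rfl⟩
      have e11 := D.emb.2 m1 m2 e10
      exact (congrArg Prod.fst e11).symm
    have hd2 : HasDerivAt (fun s : ℝ => σ (1 / 2) + (s - 1 / 2)) 1 (1 / 2) :=
      ((hasDerivAt_id (1 / 2 : ℝ)).sub_const (1 / 2)).const_add _
    have hu := hcomp.unique (hd2.congr_of_eventuallyEq heq)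
    have h6 : 0 < deriv σ (1 / 2) * (fderiv ℝ h z0 (1, 0)).1 := by rw [hu]; norm_num
    exact (pos_iff_pos_of_mul_pos h6).1 hA.dpos
  obtain ⟨G, hG0, hGs, hGl, hG1⟩ := hLOCL (Metric.ball z0 r) z0 h Metric.isOpen_ball
    (Metric.mem_ball_self hr) rfl hhl hhz hline hpos hdet
  refine ⟨G, r, hr, hrε, hG0, hGs, hGl, hr1, ?_⟩
  filter_upwards [hG1, hTh] with p e1 e2
  rw [e1]
  have e3 : T (h p) = g p := e2
  rw [e3, hg]

end Pool.Agent.Helper70.H


end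

/-! ## Helper70.BI.H.M_GLL -/

section

/-!
# Project BI, stage 3 (H), section NORM, module GLL: linear maps which preserve the line
-/

set_option autoImplicit false

open scoped Manifold ContDiff Topology ComplexConjugate
open Set Filter Pool.Agent.Helper65.Barb Pool.Agent.Helper18.BI

namespace Pool.Agent.Helper70.H

open Pool.Agent.Helper27.H (ArcD seg)
open Pool.Agent.Helper70.BI (I4 LD Eqv NearEq pc StPT StGL)

namespace GLL

/-- the linear germ of `A` is realized near every point of the line -/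
def Pg (A : R4 →L[ℝ] R4) : Prop :=
  ∀ (U : Set R4) (z : R4), IsOpen U → z ∈ U → z.2 = 0 → RealL U z (fun y => z + A (y - z))

theorem realL_comp {U : Set R4} {y₀ : R4} {f₁ f₂ : R4 → R4} (h₁ : RealL U y₀ f₁)
    (h₂ : RealL U (f₁ y₀) f₂) (hc : ContinuousAt f₁ y₀) : RealL U y₀ (fun y => f₂ (f₁ y)) := by
  obtain ⟨G₁, a₁, ⟨C₁, c₁, s₁, t₁⟩, l₁, e₁⟩ := h₁
  obtain ⟨G₂, a₂, ⟨C₂, c₂, s₂, t₂⟩, l₂, e₂⟩ := h₂
  refine ⟨G₂.comp G₁, ?_, ⟨C₁ ∪ C₂, c₁.union c₂, union_subset s₁ s₂, ?_⟩, ?_, ?_⟩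
  · intro y
    change G₂.f (0, G₁.f (0, y)) = y
    rw [a₁, a₂]
  · intro t y hy
    rw [mem_union, not_or] at hy
    change G₂.f (t, G₁.f (t, y)) = y
    rw [t₁ t y hy.1, t₂ t y hy.2]
  · intro t y
    change (G₂.f (t, G₁.f (t, y))).2 = 0 ↔ y.2 = 0
    rw [l₂, l₁]
  · filter_upwards [e₁, hc.eventually e₂] with y h3 h4
    change G₂.f (1, G₁.f (1, y)) = f₂ (f₁ y)
    rw [h3, h4]

theorem pg_comp {A B : R4 →L[ℝ] R4} (hA : Pg A) (hB : Pg B) : Pg (A.comp B) := by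
  intro U z hU hz hz2
  have e1 : (fun y : R4 => z + B (y - z)) z = z := by simp
  have h2 : RealL U ((fun y : R4 => z + B (y - z)) z) (fun y => z + A (y - z)) := by
    rw [e1]; exact hA U z hU hz hz2
  have hc : ContinuousAt (fun y : R4 => z + B (y - z)) z := by fun_prop
  have h3 := realL_comp (hB U z hU hz hz2) h2 hc
  have e2 : (fun y : R4 => (fun y => z + A (y - z)) ((fun y : R4 => z + B (y - z)) y)) =
      fun y => z + (A.comp B) (y - z) := by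
    funext y
    simp
  rw [e2] at h3
  exact h3

theorem pg_near (hSML : StSML) : ∃ c : ℝ, 0 < c ∧ ∀ A : R4 →L[ℝ] R4,
    (∀ s : ℝ, (A (s, 0)).2 = 0) → ‖A - ContinuousLinearMap.id ℝ R4‖ < c → Pg A := by
  obtain ⟨c, hc, h⟩ := hSML
  refine ⟨c, hc, fun A hl hA U z hU hz hz2 => ?_⟩
  apply h U z _ hU hz
  · refine Filter.Eventually.of_forall fun y => ?_
    exact (contDiff_const.add (A.contDiff.comp (contDiff_id.sub contDiff_const))).contDiffAt
  · simp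
  · refine Filter.Eventually.of_forall fun y hy => ?_
    have e : y - z = (y.1 - z.1, 0) := by
      refine Prod.ext rfl ?_
      change y.2 - z.2 = 0
      rw [hy, hz2, sub_zero]
    have h1 := hl (y.1 - z.1)
    change z.2 + (A (y - z)).2 = 0
    rw [e, h1, hz2, add_zero]
  · have e3 : HasFDerivAt (fun y : R4 => z + A (y - z)) A z := by
      have h4 : HasFDerivAt (fun y : R4 => y - z) (ContinuousLinearMap.id ℝ R4) z :=
        (hasFDerivAt_id z).sub_const z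
      have h5 : HasFDerivAt (fun y : R4 => A (y - z)) (A.comp (ContinuousLinearMap.id ℝ R4)) z :=
        HasFDerivAt.comp (g := fun y : R4 => A y) (f := fun y : R4 => y - z) z
          (A.hasFDerivAt (x := z - z)) h4
      rw [ContinuousLinearMap.comp_id] at h5
      exact h5.const_add z
    rw [e3.fderiv]
    exact hA

/-- block diagonal maps -/
noncomputable def DD (a : ℝ →L[ℝ] ℝ) (M : R3 →L[ℝ] R3) : R4 →L[ℝ] R4 := a.prodMap M

theorem DD_apply (a : ℝ →L[ℝ] ℝ) (M : R3 →L[ℝ] R3) (y : R4) : DD a M y = (a y.1, M y.2) := rfl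

theorem DD_comp (a b : ℝ →L[ℝ] ℝ) (M N : R3 →L[ℝ] R3) :
    (DD a M).comp (DD b N) = DD (a.comp b) (M.comp N) := rfl

/-- the shears -/
noncomputable def SS (l : R3 →L[ℝ] ℝ) : R4 →L[ℝ] R4 :=
  ContinuousLinearMap.id ℝ R4 +
    (ContinuousLinearMap.inl ℝ ℝ R3).comp (l.comp (ContinuousLinearMap.snd ℝ ℝ R3))

theorem SS_apply (l : R3 →L[ℝ] ℝ) (y : R4) : SS l y = (y.1 + l y.2, y.2) := by
  refine Prod.ext rfl ?_
  change y.2 + 0 = y.2
  exact add_zero _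

theorem SS_comp (l m : R3 →L[ℝ] ℝ) : (SS l).comp (SS m) = SS (l + m) := by
  refine ContinuousLinearMap.ext fun y => ?_
  rw [ContinuousLinearMap.comp_apply, SS_apply, SS_apply, SS_apply]
  refine Prod.ext ?_ rfl
  change y.1 + m y.2 + l y.2 = y.1 + (l + m) y.2
  rw [add_apply]
  ring

theorem norm_DD_left (M : R3 →L[ℝ] R3) :
    ‖DD (ContinuousLinearMap.id ℝ ℝ) M - ContinuousLinearMap.id ℝ R4‖ ≤
      ‖M - ContinuousLinearMap.id ℝ R3‖ := by
  refine ContinuousLinearMap.opNorm_le_bound _ (norm_nonneg _) fun y => ?_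
  have e : (DD (ContinuousLinearMap.id ℝ ℝ) M - ContinuousLinearMap.id ℝ R4) y =
      (0, (M - ContinuousLinearMap.id ℝ R3) y.2) := by
    refine Prod.ext ?_ rfl
    change y.1 - y.1 = 0
    exact sub_self _
  rw [e, Prod.norm_def]
  refine max_le ?_ ?_
  · rw [norm_zero]; positivity
  · exact (ContinuousLinearMap.le_opNorm _ _).trans
      (mul_le_mul_of_nonneg_left (norm_snd_le y) (norm_nonneg _))

theorem norm_DD_right (a : ℝ →L[ℝ] ℝ) :
    ‖DD a (ContinuousLinearMap.id ℝ R3) - ContinuousLinearMap.id ℝ R4‖ ≤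
      ‖a - ContinuousLinearMap.id ℝ ℝ‖ := by
  refine ContinuousLinearMap.opNorm_le_bound _ (norm_nonneg _) fun y => ?_
  have e : (DD a (ContinuousLinearMap.id ℝ R3) - ContinuousLinearMap.id ℝ R4) y =
      ((a - ContinuousLinearMap.id ℝ ℝ) y.1, 0) := by
    refine Prod.ext rfl ?_
    change y.2 - y.2 = 0
    exact sub_self _
  rw [e, Prod.norm_def]
  refine max_le ?_ ?_
  · exact (ContinuousLinearMap.le_opNorm _ _).trans
      (mul_le_mul_of_nonneg_left (norm_fst_le y) (norm_nonneg _))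
  · rw [norm_zero]; positivity

theorem norm_SS (l : R3 →L[ℝ] ℝ) : ‖SS l - ContinuousLinearMap.id ℝ R4‖ ≤ ‖l‖ := by
  refine ContinuousLinearMap.opNorm_le_bound _ (norm_nonneg _) fun y => ?_
  have e : (SS l - ContinuousLinearMap.id ℝ R4) y = (l y.2, 0) := by
    rw [sub_apply, SS_apply]
    refine Prod.ext ?_ ?_
    · change y.1 + l y.2 - y.1 = l y.2
      ring
    · change y.2 - y.2 = 0
      exact sub_self _
  rw [e, Prod.norm_def]
  refine max_le ?_ ?_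
  · exact (ContinuousLinearMap.le_opNorm _ _).trans
      (mul_le_mul_of_nonneg_left (norm_snd_le y) (norm_nonneg _))
  · rw [norm_zero]; positivity

theorem pg_left (hSML : StSML) (hGL : StGL) (M : R3 →L[ℝ] R3) (hM : 0 < M.det) :
    Pg (DD (ContinuousLinearMap.id ℝ ℝ) M) := by
  obtain ⟨c, hc, h⟩ := pg_near hSML
  refine hGL R3 (fun M => Pg (DD (ContinuousLinearMap.id ℝ ℝ) M)) ?_ ⟨c, hc, ?_⟩ M hM
  · intro A B hA hB
    have h1 := pg_comp hA hB
    rw [DD_comp, ContinuousLinearMap.comp_id] at h1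
    exact h1
  · intro A hA
    refine h _ (fun s => ?_) (lt_of_le_of_lt (norm_DD_left A) hA)
    rw [DD_apply]
    exact map_zero A

theorem pg_right (hSML : StSML) (hGL : StGL) (a : ℝ →L[ℝ] ℝ) (ha : 0 < a.det) :
    Pg (DD a (ContinuousLinearMap.id ℝ R3)) := by
  obtain ⟨c, hc, h⟩ := pg_near hSML
  refine hGL ℝ (fun a => Pg (DD a (ContinuousLinearMap.id ℝ R3))) ?_ ⟨c, hc, ?_⟩ a ha
  · intro A B hA hB
    have h1 := pg_comp hA hB
    rw [DD_comp, ContinuousLinearMap.comp_id] at h1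
    exact h1
  · intro A hA
    refine h _ (fun s => ?_) (lt_of_le_of_lt (norm_DD_right A) hA)
    rw [DD_apply]
    rfl

theorem pg_SS (hSML : StSML) (l : R3 →L[ℝ] ℝ) : Pg (SS l) := by
  obtain ⟨c, hc, h⟩ := pg_near hSML
  obtain ⟨n, hn⟩ := exists_nat_gt (‖l‖ / c)
  have hn0 : 0 < (n : ℝ) := lt_of_le_of_lt (by positivity) hn
  have hl : ∀ (m : R3 →L[ℝ] ℝ) (s : ℝ), (SS m (s, 0)).2 = 0 := fun m s => by
    rw [SS_apply]
  have h1 : Pg (SS ((1 / (n : ℝ)) • l)) := by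
    refine h _ (hl _) (lt_of_le_of_lt (norm_SS _) ?_)
    rw [norm_smul, Real.norm_of_nonneg (by positivity), one_div, inv_mul_eq_div,
      div_lt_iff₀ hn0]
    rw [div_lt_iff₀ hc] at hn
    linarith
  have h2 : ∀ k : ℕ, Pg (SS ((k : ℝ) • ((1 / (n : ℝ)) • l))) := by
    intro k
    induction k with
    | zero =>
      refine h _ (hl _) (lt_of_le_of_lt (norm_SS _) ?_)
      simp [hc]
    | succ k ih =>
      have h3 := pg_comp ih h1
      rw [SS_comp] at h3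
      have e : ((k : ℝ) • ((1 / (n : ℝ)) • l) + (1 / (n : ℝ)) • l) =
          ((k + 1 : ℕ) : ℝ) • ((1 / (n : ℝ)) • l) := by
        push_cast
        rw [add_smul, one_smul]
      rw [e] at h3
      exact h3
  have h4 := h2 n
  rw [smul_smul, mul_one_div_cancel hn0.ne', one_smul] at h4
  exact h4

theorem det_comp' (A B : R4 →L[ℝ] R4) : (A.comp B).det = A.det * B.det :=
  LinearMap.det_comp (A : R4 →ₗ[ℝ] R4) (B : R4 →ₗ[ℝ] R4)

theorem det_DD (a : ℝ →L[ℝ] ℝ) (M : R3 →L[ℝ] R3) : (DD a M).det = a.det * M.det :=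
  LinearMap.det_prodMap (a : ℝ →ₗ[ℝ] ℝ) (M : R3 →ₗ[ℝ] R3)

theorem det_SS_nonneg (l : R3 →L[ℝ] ℝ) : 0 ≤ (SS l).det := by
  have h : SS l = (SS ((1 / 2 : ℝ) • l)).comp (SS ((1 / 2 : ℝ) • l)) := by
    rw [SS_comp, ← add_smul, add_halves, one_smul]
  rw [h, det_comp']
  exact mul_self_nonneg _

end GLL

open GLL

theorem m_GLL (hSML : StSML) (hGL : StGL) : StGLL := by
  intro A U z hU hz hz2 hline hpos hdet
  obtain ⟨a, ha⟩ : ∃ a : ℝ, a = (A (1, 0)).1 := ⟨_, rfl⟩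
  rw [← ha] at hpos
  obtain ⟨l, hlv⟩ : ∃ l : R3 →L[ℝ] ℝ, ∀ v : R3, l v = (A (0, v)).1 :=
    ⟨(ContinuousLinearMap.fst ℝ ℝ R3).comp (A.comp (ContinuousLinearMap.inr ℝ ℝ R3)),
      fun v => rfl⟩
  obtain ⟨M, hMv⟩ : ∃ M : R3 →L[ℝ] R3, ∀ v : R3, M v = (A (0, v)).2 :=
    ⟨(ContinuousLinearMap.snd ℝ ℝ R3).comp (A.comp (ContinuousLinearMap.inr ℝ ℝ R3)),
      fun v => rfl⟩
  have hA1 : ∀ s : ℝ, A (s, 0) = (s * a, 0) := by
    intro s
    have e1 : ((s, 0) : R4) = s • ((1, 0) : R4) := by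
      rw [Prod.smul_mk, smul_eq_mul, mul_one, smul_zero]
    refine Prod.ext ?_ (hline s)
    rw [e1, map_smul, ha]
    rfl
  have hdec : A = ((DD (a • ContinuousLinearMap.id ℝ ℝ) (ContinuousLinearMap.id ℝ R3)).comp
      (DD (ContinuousLinearMap.id ℝ ℝ) M)).comp (SS (a⁻¹ • l)) := by
    refine ContinuousLinearMap.ext fun y => ?_
    have e1 : y = (y.1, (0 : R3)) + ((0 : ℝ), y.2) := by
      refine Prod.ext ?_ ?_
      · change y.1 = y.1 + 0
        rw [add_zero]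
      · change y.2 = 0 + y.2
        rw [zero_add]
    have e2 : A y = (y.1 * a + l y.2, M y.2) := by
      conv_lhs => rw [e1]
      rw [map_add, hA1]
      refine Prod.ext ?_ ?_
      · change y.1 * a + (A (0, y.2)).1 = y.1 * a + l y.2
        rw [hlv]
      · change 0 + (A (0, y.2)).2 = M y.2
        rw [zero_add, hMv]
    rw [e2, ContinuousLinearMap.comp_apply, ContinuousLinearMap.comp_apply, SS_apply, DD_apply,
      DD_apply]
    refine Prod.ext ?_ rfl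
    change y.1 * a + l y.2 = a * (y.1 + a⁻¹ * l y.2)
    field_simp
  have hdeta : (a • ContinuousLinearMap.id ℝ ℝ : ℝ →L[ℝ] ℝ).det = a := by
    have h1 : LinearMap.det (a • LinearMap.id : ℝ →ₗ[ℝ] ℝ) = a := by
      rw [LinearMap.det_smul, LinearMap.det_id, Module.finrank_self, pow_one, mul_one]
    exact h1
  have hdet1 : (ContinuousLinearMap.id ℝ ℝ).det = 1 := LinearMap.det_id
  have hdet3 : (ContinuousLinearMap.id ℝ R3).det = 1 := LinearMap.det_id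
  have hMdet : 0 < M.det := by
    rw [hdec, det_comp', det_comp', det_DD, det_DD, hdeta, hdet1, hdet3, mul_one, one_mul] at hdet
    have h1 := det_SS_nonneg (a⁻¹ • l)
    by_contra h2
    push Not at h2
    have h3 : a * M.det ≤ 0 := mul_nonpos_of_nonneg_of_nonpos hpos.le h2
    have h4 : a * M.det * (SS (a⁻¹ • l)).det ≤ 0 := mul_nonpos_of_nonpos_of_nonneg h3 h1
    linarith
  have hPa : Pg (DD (a • ContinuousLinearMap.id ℝ ℝ) (ContinuousLinearMap.id ℝ R3)) :=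
    pg_right hSML hGL _ (by rw [hdeta]; exact hpos)
  have hPA : Pg A := by
    rw [hdec]
    exact pg_comp (pg_comp hPa (pg_left hSML hGL M hMdet)) (pg_SS hSML _)
  exact hPA U z hU hz hz2

end Pool.Agent.Helper70.H


end

/-! ## Helper70.BI.H.M_LOCL -/

section

/-!
# Project BI, stage 3 (H), section NORM, module LOCL: germs which preserve the line
-/

set_option autoImplicit false

open scoped Manifold ContDiff Topology ComplexConjugate
open Set Filter Pool.Agent.Helper65.Barb Pool.Agent.Helper18.BI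

namespace Pool.Agent.Helper70.H

open Pool.Agent.Helper27.H (ArcD seg)
open Pool.Agent.Helper70.BI (I4 LD Eqv NearEq pc StPT StGL)

namespace LOCL

/-- the derivative of a map which preserves the line preserves the line -/
theorem fderiv_line {z : R4} {h : R4 → R4} (hz2 : z.2 = 0) (dh : DifferentiableAt ℝ h z)
    (hline : ∀ᶠ y in 𝓝 z, y.2 = 0 → (h y).2 = 0) (s : ℝ) :
    (fderiv ℝ h z ((s, 0) : R4)).2 = 0 := by
  have hγ : HasDerivAt (fun t : ℝ => z + t • ((s, 0) : R4)) ((s, 0) : R4) 0 := by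
    have h1 : HasDerivAt (fun t : ℝ => t • ((s, 0) : R4)) ((1 : ℝ) • ((s, 0) : R4)) 0 :=
      (hasDerivAt_id (0 : ℝ)).smul_const _
    rw [one_smul] at h1
    exact h1.const_add z
  have h2 : HasDerivAt (fun t : ℝ => h (z + t • ((s, 0) : R4))) (fderiv ℝ h z ((s, 0) : R4)) 0 := by
    have h3 : HasFDerivAt h (fderiv ℝ h z) (z + (0 : ℝ) • ((s, 0) : R4)) := by
      rw [zero_smul, add_zero]
      exact dh.hasFDerivAt
    exact h3.comp_hasDerivAt (0 : ℝ) hγ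
  have h4 : HasDerivAt (fun t : ℝ => (h (z + t • ((s, 0) : R4))).2)
      (fderiv ℝ h z ((s, 0) : R4)).2 0 :=
    (ContinuousLinearMap.snd ℝ ℝ R3).hasFDerivAt.comp_hasDerivAt (0 : ℝ) h2
  have h5 : (fun t : ℝ => (h (z + t • ((s, 0) : R4))).2) =ᶠ[𝓝 0] fun _ => (0 : R3) := by
    have h6 : Tendsto (fun t : ℝ => z + t • ((s, 0) : R4)) (𝓝 0) (𝓝 z) := by
      have h7 := hγ.continuousAt.tendsto
      rw [zero_smul, add_zero] at h7
      exact h7
    filter_upwards [h6.eventually hline] with t ht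
    apply ht
    change z.2 + t • (0 : R3) = 0
    rw [hz2, smul_zero, add_zero]
  have h7 : HasDerivAt (fun t : ℝ => (h (z + t • ((s, 0) : R4))).2) (0 : R3) 0 :=
    (hasDerivAt_const (0 : ℝ) (0 : R3)).congr_of_eventuallyEq h5
  exact h4.unique h7

end LOCL

theorem m_LOCL (hSML : StSML) (hGLL : StGLL) : StLOCL := by
  intro U z h hU hz hz2 hLD hfix hline hpos hdet
  have hF := Pool.Agent.Helper70.BI.ld_iff.1 hLD
  have dh : DifferentiableAt ℝ h z := hF.1.self_of_nhds.differentiableAt (by simp)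
  have hl1 := LOCL.fderiv_line hz2 dh hline
  obtain ⟨L, hL⟩ : ∃ L : R4 →L[ℝ] R4, L = fderiv ℝ h z := ⟨_, rfl⟩
  rw [← hL] at hl1 hpos hdet
  -- the inverse of the derivative
  obtain ⟨K, hKL, hLK⟩ : ∃ K : R4 →L[ℝ] R4, (∀ x, K (L x) = x) ∧ ∀ x, L (K x) = x := by
    refine ⟨((L.toContinuousLinearEquivOfDetNeZero hdet.ne').symm : R4 →L[ℝ] R4), fun x => ?_,
      fun x => ?_⟩
    · exact (L.toContinuousLinearEquivOfDetNeZero hdet.ne').symm_apply_apply x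
    · exact (L.toContinuousLinearEquivOfDetNeZero hdet.ne').apply_symm_apply x
  have hl2 : ∀ s : ℝ, (K (s, 0)).2 = 0 := by
    intro s
    have h1 : ((s, 0) : R4) = L ((s / (L (1, 0)).1, 0) : R4) := by
      have h2 : ((s / (L (1, 0)).1, 0) : R4) = (s / (L (1, 0)).1) • ((1, 0) : R4) := by
        refine Prod.ext ?_ ?_
        · change s / (L (1, 0)).1 = s / (L (1, 0)).1 * 1
          rw [mul_one]
        · change (0 : R3) = (s / (L (1, 0)).1) • (0 : R3)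
          rw [smul_zero]
      rw [h2, map_smul]
      refine Prod.ext ?_ ?_
      · change s = s / (L (1, 0)).1 * (L (1, 0)).1
        rw [div_mul_cancel₀ _ hpos.ne']
      · change (0 : R3) = (s / (L (1, 0)).1) • (L (1, 0)).2
        rw [hl1, smul_zero]
    rw [h1, hKL]
  -- the germ `k`
  have hk : RealL U z (fun y => z + K (h y - z)) := by
    obtain ⟨c, hc, hS⟩ := hSML
    apply hS U z _ hU hz
    · filter_upwards [hF.1] with y hy
      exact contDiffAt_const.add (K.contDiff.contDiffAt.comp y (hy.sub contDiffAt_const))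
    · simp [hfix]
    · filter_upwards [hline] with y hy hy2
      have e : h y - z = ((h y).1 - z.1, 0) := by
        refine Prod.ext rfl ?_
        change (h y).2 - z.2 = 0
        rw [hy hy2, hz2, sub_zero]
      change z.2 + (K (h y - z)).2 = 0
      rw [e, hl2, hz2, add_zero]
    · have h1 : HasFDerivAt (fun y => z + K (h y - z)) (K.comp L) z := by
        have h2 : HasFDerivAt (fun y => h y - z) L z := by
          rw [hL]
          exact dh.hasFDerivAt.sub_const z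
        have h4 : HasFDerivAt (fun y => K (h y - z)) (K.comp L) z :=
          HasFDerivAt.comp (g := fun y : R4 => K y) (f := fun y => h y - z) z
            (K.hasFDerivAt (x := h z - z)) h2
        exact h4.const_add z
      have h3 : K.comp L = ContinuousLinearMap.id ℝ R4 := by
        apply ContinuousLinearMap.ext
        intro x
        exact hKL x
      rw [h1.fderiv, h3, sub_self, norm_zero]
      exact hc
  have kc : ContinuousAt (fun y => z + K (h y - z)) z :=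
    continuousAt_const.add (K.continuous.continuousAt.comp (dh.continuousAt.sub continuousAt_const))
  have h2 : RealL U ((fun y => z + K (h y - z)) z) (fun y => z + L (y - z)) := by
    have e1 : (fun y => z + K (h y - z)) z = z := by simp [hfix]
    rw [e1]
    exact hGLL L U z hU hz hz2 hl1 hpos hdet
  have h3 := GLL.realL_comp hk h2 kc
  have e2 : (fun y => (fun y => z + L (y - z)) ((fun y => z + K (h y - z)) y)) = h := by
    funext y
    change z + L (z + K (h y - z) - z) = h y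
    rw [add_sub_cancel_left, hLK, add_sub_cancel]
  rw [e2] at h3
  exact h3

end Pool.Agent.Helper70.H


end
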