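import Pool.Agent.Helper18.BI.R.FinDefs
import Pool.Agent.Helper65.Barb.Defs
import Pool.Agent.Helper70.BI.FinDefs
import Pool.Agent.Helper70.BI.B.P27
import Pool.Agent.Helper70.BI.B.P34

/-!
# Project BI (MP_8e98f2_gt): collected modules, part 45

The contents of the modules
* Helper70.BI.M_EI
* Helper34.BI.M_D2b
* Helper18.BI.R.StR5
* Helper18.BI.R.StR6
* Helper18.BI.R.M_HEP
* Helper34.BI.UNK1
* Helper34.BI.UNK3
* Helper18.BI.R.M_UNK

in one file, so that the whole proof builds in a short time.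
-/

/-! ## Helper70.BI.M_EI -/

section

/-!
# Project BI, stage 2, module EI: images of compact subsets of the hyperplane have empty interior
-/

set_option autoImplicit false

open scoped Manifold ContDiff Topology ComplexConjugate
open Set Filter Pool.Agent.Helper65.Barb Pool.Agent.Helper18.BI

namespace Pool.Agent.Helper70.BI

namespace EI
variable {E : Type*} [NormedAddCommGroup E] [NormedSpace ℝ E] {H : Type*} [TopologicalSpace H]
  {I : ModelWithCorners ℝ E H} {M : Type*} [TopologicalSpace M] [ChartedSpace H M] [T2Space M]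

theorem piece (Φ : PartialDiffeomorph 𝓘(ℝ, R4) I R4 M ∞) {K : Set R4} (hK : IsCompact K)
    (hs : K ⊆ Φ.source) (h1 : ∀ p ∈ K, p.1 = 1 / 2) :
    IsCompact (Φ '' K) ∧ interior (Φ '' K) = ∅ := by
  refine ⟨hK.image_of_continuousOn (Φ.contMDiffOn_toFun.continuousOn.mono hs), ?_⟩
  rw [eq_empty_iff_forall_notMem]
  intro y hy
  have hc : ContinuousOn Φ Φ.source := Φ.contMDiffOn_toFun.continuousOn
  have hV : IsOpen (Φ.source ∩ Φ ⁻¹' interior (Φ '' K)) :=
    hc.isOpen_inter_preimage Φ.open_source isOpen_interior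
  have hVS : Φ.source ∩ Φ ⁻¹' interior (Φ '' K) ⊆ K := by
    rintro p ⟨hp1, hp2⟩
    obtain ⟨p', hp', he⟩ := interior_subset hp2
    have := Φ.injOn (hs hp') hp1 he
    rwa [← this]
  obtain ⟨p, hp, he⟩ := interior_subset hy
  have hpV : p ∈ Φ.source ∩ Φ ⁻¹' interior (Φ '' K) := ⟨hs hp, by
    change Φ p ∈ interior (Φ '' K)
    rw [he]
    exact hy⟩
  have h2 : IsOpen ((fun q : R4 => q.1) '' (Φ.source ∩ Φ ⁻¹' interior (Φ '' K))) :=
    isOpenMap_fst _ hV
  have h3 : (fun q : R4 => q.1) '' (Φ.source ∩ Φ ⁻¹' interior (Φ '' K)) ⊆ {1 / 2} := by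
    rintro _ ⟨q, hq, rfl⟩
    exact h1 q (hVS hq)
  have h4 : p.1 ∈ interior ({1 / 2} : Set ℝ) :=
    interior_maximal h3 h2 (mem_image_of_mem (fun q : R4 => q.1) hpV)
  rw [interior_singleton] at h4
  exact h4

end EI

theorem m_EI : StEI := by
  intro E _ _ H _ I M _ _ _ G L hL h1 hloc
  have hcont : ContinuousOn G L := by
    intro p hp
    obtain ⟨Φ, hpΦ, heq⟩ := hloc p hp
    have hc : ContinuousAt Φ p :=
      Φ.contMDiffOn_toFun.continuousOn.continuousAt (Φ.open_source.mem_nhds hpΦ)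
    have he : (Φ : R4 → M) =ᶠ[𝓝 p] G := by
      filter_upwards [Φ.open_source.mem_nhds hpΦ] with q hq
      exact (heq hq).symm
    exact (hc.congr he).continuousWithinAt
  have hcomp : IsCompact (G '' L) := hL.image_of_continuousOn hcont
  refine ⟨hcomp, ?_⟩
  have key : interior (closure (G '' L)) = ∅ := by
    refine hL.induction_on (p := fun S => interior (closure (G '' S)) = ∅) ?_ ?_ ?_ ?_
    · simp
    · intro s t hst ht
      exact eq_empty_of_subset_empty (ht ▸ interior_mono (closure_mono (image_mono hst)))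
    · intro s t hs ht
      rw [image_union, closure_union,
        interior_union_isClosed_of_interior_empty isClosed_closure ht, hs]
    · intro p hp
      obtain ⟨Φ, hpΦ, heq⟩ := hloc p hp
      obtain ⟨r, hr, hball⟩ := Metric.nhds_basis_closedBall.mem_iff.1 (Φ.open_source.mem_nhds hpΦ)
      have hK : IsCompact (Metric.closedBall p r ∩ L) := (isCompact_closedBall p r).inter hL
      obtain ⟨k1, k2⟩ := EI.piece Φ hK (inter_subset_left.trans hball) (fun q hq => h1 q hq.2)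
      have e : G '' (Metric.closedBall p r ∩ L) = Φ '' (Metric.closedBall p r ∩ L) :=
        image_congr fun q hq => heq (hball hq.1)
      refine ⟨Metric.closedBall p r ∩ L, ?_, ?_⟩
      · exact inter_mem (mem_nhdsWithin_of_mem_nhds (Metric.closedBall_mem_nhds p hr))
          self_mem_nhdsWithin
      · rw [e, k1.isClosed.closure_eq, k2]
  rwa [hcomp.isClosed.closure_eq] at key

end Pool.Agent.Helper70.BI


end

/-! ## Helper34.BI.M_D2b -/

section

/-!
# Project BI, module D2b: the other factor is the class on the other side of the crossing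
-/

set_option autoImplicit false

open Module Set Filter Topology
open scoped ContDiff Manifold ComplexConjugate
open Pool.Agent.Helper65.Barb Pool.Agent.Helper18.BI Pool.Agent.Helper27.BI

namespace Pool.Agent.Helper34.BI

namespace D2b

/-! ## coordinates -/

theorem rsq_eq (c : ℝ) (p : R4) : rsq c p = (p.2.1 - c) ^ 2 + p.2.2.re ^ 2 + p.2.2.im ^ 2 := rfl

theorem nsq_eq (x : R3) : nsq x = x.1 ^ 2 + x.2.re ^ 2 + x.2.im ^ 2 := rfl

theorem rsq_zero_eq (p : R4) : rsq 0 p = nsq p.2 := by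
  rw [rsq_eq, nsq_eq, sub_zero]

theorem continuous_rsq (c : ℝ) : Continuous (rsq c) := by
  unfold rsq nsq
  fun_prop

theorem isOpen_G : IsOpen {p : R4 | 0 < rsq 0 p ∧ 0 < rsq 1 p} :=
  (isOpen_lt continuous_const (continuous_rsq 0)).inter
    (isOpen_lt continuous_const (continuous_rsq 1))

/-! ## compositions -/

theorem embOn_comp {F G : R4 → R4} {K L : Set R4} (hF : EmbOn 𝓘(ℝ, R4) F L)
    (hG : EmbOn 𝓘(ℝ, R4) G K) (h : MapsTo G K L) : EmbOn 𝓘(ℝ, R4) (fun p => F (G p)) K := by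
  refine ⟨fun p hp => IsLocalDiffeomorphAt.comp _ _ (hG.1 p hp) (hF.1 (G p) (h hp)), ?_⟩
  intro p hp q hq hpq
  exact hG.2 hp hq (hF.2 (h hp) (h hq) hpq)

theorem contDiffAt_of_emb {F : R4 → R4} {L : Set R4} (hF : EmbOn 𝓘(ℝ, R4) F L) {p : R4}
    (hp : p ∈ L) : ContDiffAt ℝ ∞ F p := (eventually_contDiffAt (hF.1 p hp)).self_of_nhds

/-- composition of the family with the crossing family -/
theorem famOn_of {J : ℝ × R4 → R4} {X : ℝ → R4} {η : ℝ} (hJ : Cross J X η) {T : ℝ → ℝ}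
    (hT : ContDiff ℝ ∞ T) (hT1 : ∀ t ∈ Icc (0 : ℝ) 1, T t ∈ Icc (-η) η) {m : ℝ × R4 → R4}
    (hm : ∀ t ∈ Icc (0 : ℝ) 1, ∀ p ∈ SP, ∀ᶠ q in 𝓝 (t, p), ContDiffAt ℝ ∞ m q)
    (he : ∀ t ∈ Icc (0 : ℝ) 1, EmbOn 𝓘(ℝ, R4) (fun p => m (t, p)) SP)
    (hmem : ∀ t ∈ Icc (0 : ℝ) 1, ∀ p ∈ SP, m (t, p) ∈ SH η ∧ m (t, p) ≠ X (T t)) :
    FamOn 𝓘(ℝ, R4) (fun q => J (T q.1, m q)) SP := by
  obtain ⟨W, hWo, hW, hWJ⟩ := hJ.smooth
  refine ⟨⟨{q | ∀ᶠ q' in 𝓝 q, ContDiffAt ℝ ∞ (fun q => J (T q.1, m q)) q'},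
    isOpen_setOf_eventually_nhds, ?_, ?_⟩, ?_⟩
  · rintro ⟨t, p⟩ ⟨ht, hp⟩
    have hc : ContinuousAt (fun q : ℝ × R4 => (T q.1, m q)) (t, p) := by
      have h1 : ContinuousAt (fun q : ℝ × R4 => T q.1) (t, p) :=
        (hT.continuous.comp continuous_fst).continuousAt
      exact h1.prodMk (hm t ht p hp).self_of_nhds.continuousAt
    have hW' : W ∈ 𝓝 (T t, m (t, p)) :=
      hWo.mem_nhds (hW ⟨hT1 t ht, (hmem t ht p hp).1⟩)
    have h2 : ∀ᶠ q in 𝓝 (t, p), (T q.1, m q) ∈ W := hc hW'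
    show ∀ᶠ q' in 𝓝 (t, p), ContDiffAt ℝ ∞ (fun q => J (T q.1, m q)) q'
    filter_upwards [h2, hm t ht p hp] with q hq1 hq2
    have h3 : ContDiffAt ℝ ∞ J (T q.1, m q) := hWJ.contDiffAt (hWo.mem_nhds hq1)
    have h4 : ContDiffAt ℝ ∞ (fun q : ℝ × R4 => (T q.1, m q)) q :=
      ((hT.comp contDiff_fst).contDiffAt).prodMk hq2
    exact ContDiffAt.comp q h3 h4
  · rw [contMDiffOn_iff_contDiffOn]
    intro q hq
    exact (Filter.Eventually.self_of_nhds hq).contDiffWithinAt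
  · intro t ht
    refine ⟨fun p hp => ?_, fun p hp q hq hpq => ?_⟩
    · exact IsLocalDiffeomorphAt.comp _ _ ((he t ht).1 p hp)
        (hJ.loc (T t) (hT1 t ht) (m (t, p)) (hmem t ht p hp).1)
    · exact (he t ht).2 hp hq (hJ.inj (T t) (hT1 t ht) ⟨(hmem t ht p hp).1, (hmem t ht p hp).2⟩
        ⟨(hmem t ht q hq).1, (hmem t ht q hq).2⟩ hpq)

/-! ## the position of the points -/

/-- the points through which the families run -/
def AA : Set R4 := {q | q.1 = 1 / 2 ∧ q ∈ ball4 ∧ (q ∈ sph 1 ∨ (q.2.2 = 0 ∧ 0 < q.2.1 ∧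
  q.2.1 ≤ 4 / 5) ∨ (0 < rsq 0 q ∧ rsq 0 q ≤ 1 / 25))}

theorem ball4_of {q : R4} (h1 : q.1 = 1 / 2) (h2 : rsq 0 q ≤ 81 / 4) : q ∈ ball4 := by
  refine ⟨?_, ?_, ?_⟩
  · rw [h1]; norm_num
  · rw [h1]; norm_num
  · refine h2.trans ?_; norm_num

theorem sph_one_bounds {p : R4} (h : p ∈ sph 1) : 4 / 5 ≤ p.2.1 ∧ 16 / 25 ≤ rsq 0 p ∧
    rsq 0 p ≤ 81 / 4 := by
  have h1 := le_sph_one h
  have h2 := h.2
  rw [rsq_eq] at h2
  have h3 := sq_nonneg p.2.2.re
  have h4 := sq_nonneg p.2.2.im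
  have h5 : p.2.1 ≤ 6 / 5 := by nlinarith
  refine ⟨h1, ?_, ?_⟩
  · rw [rsq_eq]; nlinarith
  · rw [rsq_eq]; nlinarith

theorem small_bounds {q : R4} (h : rsq 0 q ≤ 1 / 25) : 16 / 25 ≤ rsq 1 q := by
  rw [rsq_eq] at h ⊢
  have h3 := sq_nonneg q.2.2.re
  have h4 := sq_nonneg q.2.2.im
  have h5 : q.2.1 ≤ 1 / 5 := by nlinarith
  nlinarith

theorem AA_pos {q : R4} (hq : q ∈ AA) : 0 < rsq 0 q ∧ 0 < rsq 1 q := by
  obtain ⟨-, -, h | ⟨h1, h2, h3⟩ | ⟨h1, h2⟩⟩ := hq
  · have h1 := sph_one_bounds h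
    rw [h.2]
    constructor
    · linarith
    · norm_num
  · rw [rsq_eq, rsq_eq, h1]
    simp only [Complex.zero_re, Complex.zero_im]
    constructor <;> nlinarith
  · exact ⟨h1, by linarith [small_bounds h2]⟩

/-- the properties of the diffeomorphism `k` used (they hold for the identity as well) -/
structure KK (k : R4 → R4) (ρ : ℝ) : Prop where
  emb : EmbOn 𝓘(ℝ, R4) k univ
  fst : ∀ p, (k p).1 = p.1
  far : ∀ p : R4, 17 / 100 ≤ p.2.1 → k p = p
  ball : ∀ p, rsq 0 p ≤ 1 / 25 → rsq 0 (k p) ≤ 1 / 25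
  axis : ∀ p : R4, ‖p.2.2‖ ≤ ρ → k p = p

theorem KK_id (ρ : ℝ) : KK (fun p => p) ρ where
  emb := by
    refine ⟨fun p _ => isLocalDiffeomorphAt_of_injective rfl
      (Eventually.of_forall fun q => contDiff_id.contDiffAt) ?_, Function.injective_id.injOn⟩
    intro v w hvw
    have h : fderiv ℝ (fun p : R4 => p) p = ContinuousLinearMap.id ℝ R4 := fderiv_id
    rw [h] at hvw
    exact hvw
  fst _ := rfl
  far _ _ := rfl
  ball _ h := h
  axis _ _ := rfl

theorem rsq_nonneg (c : ℝ) (p : R4) : 0 ≤ rsq c p := by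
  rw [rsq_eq]; positivity

theorem k_AA {k : R4 → R4} {ρ : ℝ} (hk : KK k ρ) (hρ : 0 ≤ ρ) {q : R4} (hq : q ∈ AA) :
    k q ∈ AA := by
  obtain ⟨h0, hb, h | ⟨h1, h2, h3⟩ | ⟨h1, h2⟩⟩ := hq
  · have : k q = q := hk.far q (by linarith [(sph_one_bounds h).1])
    rw [this]
    exact ⟨h0, hb, Or.inl h⟩
  · have : k q = q := hk.axis q (by rw [h1, norm_zero]; exact hρ)
    rw [this]
    exact ⟨h0, hb, Or.inr (Or.inl ⟨h1, h2, h3⟩)⟩
  · have e1 := hk.ball q h2
    have e0 : (k q).1 = 1 / 2 := (hk.fst q).trans h0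
    refine ⟨e0, ball4_of e0 (e1.trans (by norm_num)), Or.inr (Or.inr ⟨?_, e1⟩)⟩
    rcases (rsq_nonneg 0 (k q)).lt_or_eq with h | h
    · exact h
    · exfalso
      have h' := h.symm
      rw [rsq_eq] at h'
      have a1 := sq_nonneg ((k q).2.1 - 0)
      have a2 := sq_nonneg (k q).2.2.re
      have a3 := sq_nonneg (k q).2.2.im
      have b2 : (k q).2.2.re = 0 := by
        have : (k q).2.2.re ^ 2 = 0 := by linarith
        exact pow_eq_zero_iff (two_ne_zero) |>.1 this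
      have b3 : (k q).2.2.im = 0 := by
        have : (k q).2.2.im ^ 2 = 0 := by linarith
        exact pow_eq_zero_iff (two_ne_zero) |>.1 this
      have b4 : (k q).2.2 = 0 := Complex.ext b2 b3
      have b5 : k (k q) = k q := hk.axis _ (by rw [b4, norm_zero]; exact hρ)
      have b6 : k q = q := hk.emb.2 (mem_univ _) (mem_univ _) b5
      rw [b6] at h
      linarith

theorem neck_bounds {p : R4} (hp : p ∈ neck) : rsq 0 p ≤ 81 / 4 := by
  obtain ⟨-, h1, h2, h3⟩ := hp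
  rw [rsq_eq, h3]
  simp only [Complex.zero_re, Complex.zero_im]
  nlinarith

theorem cl_AA (hRC : StRC) {lam : ℝ} (hl : lam ∈ Ioc (0 : ℝ) 1) {p : R4} (hp : p ∈ SP) :
    cl lam p ∈ AA := by
  obtain ⟨-, -, h⟩ := hRC
  obtain ⟨-, h1, h2, h3, h4, h5, h6, -⟩ := h lam hl
  rcases hp with (hp | hp) | hp
  · have e0 : (cl lam p).1 = 1 / 2 := (h1 p).trans hp.1
    have e1 : nsq p.2 = 1 / 25 := by rw [← rsq_zero_eq]; exact hp.2
    have e2 : rsq 0 (cl lam p) ≤ 1 / 25 := by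
      rw [rsq_zero_eq, ← e1]; exact h5 p
    refine ⟨e0, ball4_of e0 (e2.trans (by norm_num)), Or.inr (Or.inr ⟨?_, e2⟩)⟩
    rw [h2 p (by rw [e1]; norm_num), rsq_zero_eq, nsq_eq]
    rw [nsq_eq] at e1
    have : (lam • p.2).1 ^ 2 + (lam • p.2).2.re ^ 2 + (lam • p.2).2.im ^ 2 =
        lam ^ 2 * (p.2.1 ^ 2 + p.2.2.re ^ 2 + p.2.2.im ^ 2) := by
      simp
      ring
    rw [this, e1]
    have := hl.1
    positivity
  · have e1 := sph_one_bounds hp
    have e2 : cl lam p = p := h3 p (by rw [← rsq_zero_eq]; linarith [e1.2.1])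
    rw [e2]
    exact ⟨hp.1, ball4_of hp.1 e1.2.2, Or.inl hp⟩
  · have e0 : (cl lam p).1 = 1 / 2 := (h1 p).trans hp.1
    have e1 := h6 p hp
    have e2 : rsq 0 (cl lam p) ≤ 81 / 4 := by
      have := h5 p
      rw [← rsq_zero_eq, ← rsq_zero_eq] at this
      exact this.trans (neck_bounds hp)
    exact ⟨e0, ball4_of e0 e2, Or.inr (Or.inl ⟨h4 p hp.2.2.2, e1.1, e1.2⟩)⟩

theorem Em_SH (hRE : StRE) {δ η : ℝ} (hδ : δ ∈ Ioo (0 : ℝ) (1 / 100)) (h3 : 3 * δ ≤ η) {q : R4}
    (hq : q ∈ AA) : Em δ q ∈ SH η := by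
  obtain ⟨-, r2, r3, -, -, r6, r7, r8, -⟩ := hRE δ hδ
  have hpos := AA_pos hq
  have e1 := r6 q hpos.1 hpos.2
  refine ⟨?_, by linarith [e1.1], by linarith [e1.2]⟩
  have e0 : (Em δ q).1 = 1 / 2 := (r3 q).trans hq.1
  obtain ⟨h0, -, h | ⟨k1, k2, k3⟩ | ⟨-, k2⟩⟩ := hq
  · exact Or.inl (Or.inr ⟨e0, r8 q hpos.2 (le_of_eq h.2)⟩)
  · rcases le_or_gt q.2.1 (1 / 5) with h | h
    · refine Or.inl (Or.inl ⟨e0, (r7 q hpos.1 ?_).2⟩)
      rw [rsq_eq, k1]
      simp only [Complex.zero_re, Complex.zero_im]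
      nlinarith
    · have e2 : Em δ q = q := by
        refine r2 q ?_ ?_
        · rw [rsq_eq, k1]
          simp only [Complex.zero_re, Complex.zero_im]
          nlinarith [hδ.1]
        · rw [rsq_eq, k1]
          simp only [Complex.zero_re, Complex.zero_im]
          nlinarith [hδ.1]
      rw [e2]
      exact Or.inr ⟨h0, h.le, k3, k1⟩
  · exact Or.inl (Or.inl ⟨e0, (r7 q hpos.1 k2).2⟩)

/-! ## the families -/

theorem emb_fam (hRE : StRE) (hRC : StRC) {δ : ℝ} (hδ : δ ∈ Ioo (0 : ℝ) (1 / 100))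
    {k : R4 → R4} {ρ : ℝ} (hk : KK k ρ) (hρ : 0 ≤ ρ) {lam : ℝ} (hl : lam ∈ Ioc (0 : ℝ) 1) :
    EmbOn 𝓘(ℝ, R4) (fun p => Em δ (k (cl lam p))) SP := by
  have h1 : EmbOn 𝓘(ℝ, R4) (cl lam) SP := by
    have := (hRC.2.2 lam hl).1
    exact ⟨fun p _ => this.1 p (mem_univ _), this.2.mono (subset_univ _)⟩
  have h2 : EmbOn 𝓘(ℝ, R4) (fun p => k (cl lam p)) SP :=
    embOn_comp hk.emb h1 (fun p _ => mem_univ _)
  exact embOn_comp (hRE δ hδ).1 h2 (fun p hp => AA_pos (k_AA hk hρ (cl_AA hRC hl hp)))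

theorem smooth_fam (hRE : StRE) (hRC : StRC) {δ : ℝ} (hδ : δ ∈ Ioo (0 : ℝ) (1 / 100))
    {k : R4 → R4} {ρ : ℝ} (hk : KK k ρ) (hρ : 0 ≤ ρ) {ℓ : ℝ → ℝ} (hℓ : ContDiff ℝ ∞ ℓ) {t : ℝ}
    (ht : ℓ t ∈ Ioc (0 : ℝ) 1) {p : R4} (hp : p ∈ SP) :
    ∀ᶠ q in 𝓝 (t, p), ContDiffAt ℝ ∞ (fun q : ℝ × R4 => Em δ (k (cl (ℓ q.1) q.2))) q := by
  have hk1 : ContDiff ℝ ∞ k := contDiff_iff_contDiffAt.2 fun q =>
    contDiffAt_of_emb hk.emb (mem_univ q)
  have h1 : ContDiff ℝ ∞ (fun q : ℝ × R4 => cl (ℓ q.1) q.2) :=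
    hRC.1.comp ((hℓ.comp contDiff_fst).prodMk contDiff_snd)
  have h2 : ContDiff ℝ ∞ (fun q : ℝ × R4 => k (cl (ℓ q.1) q.2)) := hk1.comp h1
  have h3 : ∀ᶠ q in 𝓝 (t, p), k (cl (ℓ q.1) q.2) ∈ {p : R4 | 0 < rsq 0 p ∧ 0 < rsq 1 p} :=
    h2.continuous.continuousAt (isOpen_G.mem_nhds (AA_pos (k_AA hk hρ (cl_AA hRC ht hp))))
  filter_upwards [h3] with q hq
  have h4 : ContDiffAt ℝ ∞ (Em δ) (k (cl (ℓ q.1) q.2)) := contDiffAt_of_emb (hRE δ hδ).1 hq
  exact ContDiffAt.comp (g := Em δ) (f := fun q : ℝ × R4 => k (cl (ℓ q.1) q.2)) q h4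
    h2.contDiffAt

/-- a point of the deeper side is not in the spine with collars -/
theorem not_mem_SH {η r : ℝ} {x : R4} (h1 : rsq 0 x = 1 / 25 + r) (h2 : 0 < r)
    (h3 : r ≤ 1 / 100) (h4 : x.2.2.re ≠ 0) : x ∉ SH η := by
  rintro ⟨(h | h) | h, -⟩
  · have := h.2
    linarith
  · have h5 := h.2
    rw [rsq_eq] at h5 h1
    have a1 := sq_nonneg x.2.2.re
    have a2 := sq_nonneg x.2.2.im
    nlinarith
  · apply h4
    rw [h.2.2.2]
    rfl

/-- one step of the deformation -/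
theorem thin_step (hRE : StRE) (hRC : StRC) (hT2 : StT2) {J : ℝ × R4 → R4} {X : ℝ → R4}
    {η δ : ℝ} (hJ : Cross J X η) (hδ : δ ∈ Ioo (0 : ℝ) (1 / 100)) (h3 : 3 * δ ≤ η)
    {k : R4 → R4} {ρ : ℝ} (hk : KK k ρ) (hρ : 0 ≤ ρ) {T ℓ : ℝ → ℝ} (hT : ContDiff ℝ ∞ T)
    (hT1 : ∀ t ∈ Icc (0 : ℝ) 1, T t ∈ Icc (-η) η) (hℓ : ContDiff ℝ ∞ ℓ)
    (hℓ1 : ∀ t ∈ Icc (0 : ℝ) 1, ℓ t ∈ Ioc (0 : ℝ) 1)
    (hne : ∀ t ∈ Icc (0 : ℝ) 1, ∀ p ∈ SP, Em δ (k (cl (ℓ t) p)) ≠ X (T t)) {ψ : R4 → R4}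
    (h : Thin 𝓘(ℝ, R4) (fun p => J (T 0, Em δ (k (cl (ℓ 0) p)))) ψ) :
    Thin 𝓘(ℝ, R4) (fun p => J (T 1, Em δ (k (cl (ℓ 1) p)))) ψ := by
  obtain ⟨-, -, hT3, -⟩ := hT2 R4 R4 𝓘(ℝ, R4) R4
  have hfam : FamOn 𝓘(ℝ, R4) (fun q : ℝ × R4 => J (T q.1, Em δ (k (cl (ℓ q.1) q.2)))) SP := by
    refine famOn_of (T := T) (m := fun q : ℝ × R4 => Em δ (k (cl (ℓ q.1) q.2))) hJ hT hT1 ?_ ?_ ?_
    · intro t ht p hp
      exact smooth_fam hRE hRC hδ hk hρ hℓ (hℓ1 t ht) hp
    · intro t ht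
      exact emb_fam hRE hRC hδ hk hρ (hℓ1 t ht)
    · intro t ht p hp
      exact ⟨Em_SH hRE hδ h3 (k_AA hk hρ (cl_AA hRC (hℓ1 t ht) hp)), hne t ht p hp⟩
  exact hT3 (fun q : ℝ × R4 => J (T q.1, Em δ (k (cl (ℓ q.1) q.2)))) ψ hfam h

theorem lin_mem {a b t : ℝ} (ha : a ∈ Ioc (0 : ℝ) 1) (hb : b ∈ Ioc (0 : ℝ) 1)
    (ht : t ∈ Icc (0 : ℝ) 1) : a + t * (b - a) ∈ Ioc (0 : ℝ) 1 := by
  obtain ⟨a1, a2⟩ := ha
  obtain ⟨b1, b2⟩ := hb
  obtain ⟨t1, t2⟩ := ht
  constructor
  · rcases t2.lt_or_eq with h | h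
    · nlinarith
    · subst h; linarith
  · nlinarith

theorem contDiff_lin (a b : ℝ) : ContDiff ℝ ∞ (fun t : ℝ => a + t * (b - a)) :=
  contDiff_const.add (contDiff_id.mul contDiff_const)

/-- near the spine the diffeomorphism `k` may be omitted after the contraction -/
theorem step2 (hRC : StRC) (hT2 : StT2) {k : R4 → R4} {ρ : ℝ} (hk : KK k ρ) (hρ : 0 < ρ)
    {lam : ℝ} (hl : lam ∈ Ioc (0 : ℝ) 1) (hl2 : lam ≤ ρ) (G : R4 → R4) {ψ : R4 → R4}
    (h : Thin 𝓘(ℝ, R4) (fun p => G (k (cl lam p))) ψ) :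
    Thin 𝓘(ℝ, R4) (fun p => G (cl lam p)) ψ := by
  obtain ⟨-, -, -, -, hT5, -⟩ := hT2 R4 R4 𝓘(ℝ, R4) R4
  have hclc : Continuous (cl lam) := by
    have : ContDiff ℝ ∞ (fun p : R4 => cl lam p) := hRC.1.comp (contDiff_const.prodMk contDiff_id)
    exact this.continuous
  obtain ⟨-, -, c3, c4, c5, -, -, -⟩ := hRC.2.2 lam hl
  refine hT5 (fun p => G (k (cl lam p))) (fun p => G (cl lam p))
    {p | 17 / 100 < (cl lam p).2.1 ∨ ‖(cl lam p).2.2‖ < ρ} ψ ?_ ?_ ?_ h
  · exact (isOpen_lt continuous_const (continuous_fst.comp (continuous_snd.comp hclc))).union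
      (isOpen_lt (continuous_norm.comp (continuous_snd.comp (continuous_snd.comp hclc)))
        continuous_const)
  · intro p hp
    rcases hp with (hp | hp) | hp
    · right
      have e1 : nsq p.2 = 1 / 25 := by rw [← rsq_zero_eq]; exact hp.2
      have e4 := c3 p (by rw [e1]; norm_num)
      have e5 : (cl lam p).2.2 = lam • p.2.2 := by rw [e4]; rfl
      show ‖(cl lam p).2.2‖ < ρ
      have e2 : ‖p.2.2‖ ≤ 1 / 5 := by
        rw [nsq_eq] at e1
        have e3 : ‖p.2.2‖ ^ 2 ≤ 1 / 25 := by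
          rw [← Complex.normSq_eq_norm_sq, Complex.normSq_apply]
          nlinarith [sq_nonneg p.2.1]
        nlinarith [norm_nonneg p.2.2]
      rw [e5, norm_smul, Real.norm_of_nonneg hl.1.le]
      nlinarith [norm_nonneg p.2.2, hl.1]
    · left
      have e1 := sph_one_bounds hp
      have e2 : cl lam p = p := c4 p (by rw [← rsq_zero_eq]; linarith [e1.2.1])
      show 17 / 100 < (cl lam p).2.1
      rw [e2]
      linarith
    · right
      show ‖(cl lam p).2.2‖ < ρ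
      rw [c5 p hp.2.2.2, norm_zero]
      exact hρ
  · intro p hp
    have : k (cl lam p) = cl lam p := by
      rcases hp with hp | hp
      · exact hk.far _ (le_of_lt hp)
      · exact hk.axis _ (le_of_lt hp)
    show G (k (cl lam p)) = G (cl lam p)
    rw [this]

/-- near the spine `Em δ` is the identity -/
theorem step5 (hRE : StRE) (hT2 : StT2) {δ : ℝ} (hδ : δ ∈ Ioo (0 : ℝ) (1 / 100)) (G : R4 → R4)
    {ψ : R4 → R4} (h : Thin 𝓘(ℝ, R4) (fun p => G (Em δ p)) ψ) : Thin 𝓘(ℝ, R4) G ψ := by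
  obtain ⟨-, -, -, -, hT5, -⟩ := hT2 R4 R4 𝓘(ℝ, R4) R4
  obtain ⟨-, rE2, -⟩ := hRE δ hδ
  have hd := hδ.1
  refine hT5 (fun p => G (Em δ p)) G {p | 1 / 25 - δ < rsq 0 p ∧ 1 / 25 - δ < rsq 1 p} ψ
    ?_ ?_ ?_ h
  · exact (isOpen_lt continuous_const (continuous_rsq 0)).inter
      (isOpen_lt continuous_const (continuous_rsq 1))
  · intro p hp
    rcases hp with (hp | hp) | hp
    · refine ⟨by rw [hp.2]; linarith, ?_⟩
      have := small_bounds (le_of_eq hp.2)
      linarith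
    · refine ⟨?_, by rw [hp.2]; linarith⟩
      have := (sph_one_bounds hp).2.1
      linarith
    · obtain ⟨-, h1, h2, h3⟩ := hp
      refine ⟨?_, ?_⟩
      · rw [rsq_eq, h3]
        simp only [Complex.zero_re, Complex.zero_im]
        nlinarith
      · rw [rsq_eq, h3]
        simp only [Complex.zero_re, Complex.zero_im]
        nlinarith
  · intro p hp
    show G (Em δ p) = G p
    rw [rE2 p hp.1.le hp.2.le]

/-- step (3): the germs do not meet the strand -/
theorem ne3 (hRE : StRE) (hRC : StRC) {J : ℝ × R4 → R4} {X : ℝ → R4} {η δ : ℝ}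
    (hJ : Cross J X η) (hδ : δ ∈ Ioo (0 : ℝ) (1 / 100)) {lam r : ℝ} (hl : lam ∈ Ioc (0 : ℝ) 1)
    (hl1 : lam ≤ 1 / 4) (hr : r ∈ Icc (-η) η) (hr2 : qe δ (1 / 100) ≤ 1 / 25 + r) {p : R4}
    (hp : p ∈ SP) : Em δ (cl lam p) ≠ X r := by
  obtain ⟨-, rE2, -, -, rE5, -, rE7, -, rE9, -⟩ := hRE δ hδ
  obtain ⟨-, -, c3, c4, c5, -, -, -⟩ := hRC.2.2 lam hl
  have hc : cl lam p ∈ AA := cl_AA hRC hl hp
  have hXl := hJ.lvl r hr
  have hl0 := hl.1
  intro h
  rcases hp with (hp | hp) | hp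
  · have e1 : nsq p.2 = 1 / 25 := by rw [← rsq_zero_eq]; exact hp.2
    have e2 : rsq 0 (cl lam p) = lam ^ 2 * (1 / 25) := by
      rw [c3 p (by rw [e1]; norm_num), rsq_zero_eq, nsq_eq, ← e1, nsq_eq]
      simp
      ring
    have e3 := (rE7 (cl lam p) (AA_pos hc).1 (by rw [e2]; nlinarith)).1
    have e4 : qe δ (rsq 0 (cl lam p)) < qe δ (1 / 100) := by
      apply rE9
      rw [e2]; nlinarith
    rw [← h, e3] at hXl
    linarith
  · have e1 := sph_one_bounds hp
    have e2 : cl lam p = p := c4 p (by rw [← rsq_zero_eq]; linarith [e1.2.1])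
    have e3 : Em δ p = p := by
      refine rE2 p ?_ ?_
      · linarith [e1.2.1, hδ.1]
      · rw [hp.2]; linarith [hδ.1]
    rw [e2, e3] at h
    rw [← h] at hXl
    have := hr.2
    have := hJ.small
    linarith [e1.2.1]
  · have e1 : (Em δ (cl lam p)).2.2 = 0 := rE5 _ (c5 p hp.2.2.2)
    apply hJ.re r hr
    rw [← h, e1]
    rfl

end D2b

open D2b

theorem m_D2b (hRE : StRE) (hRC : StRC) (hT2 : StT2) : StD2b := by
  intro J X δ η r₁ hJ hδ hδη hr₁ hr0 hr1 x₂ r k hr hx2 hxre hEx hk hkf hkfar hkball hkaxis hkt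
    ψ hψ
  obtain ⟨rE1, -⟩ := hRE δ hδ
  obtain ⟨ρ, hρd⟩ : ∃ ρ : ℝ, ρ = |x₂.2.re| / 2 := ⟨_, rfl⟩
  have hρ : 0 < ρ := by
    have := abs_pos.2 hxre
    rw [hρd]; positivity
  rw [← hρd] at hkaxis
  have hK : KK k ρ := ⟨hk, hkf, hkfar, hkball, hkaxis⟩
  obtain ⟨lam₀, hl0, hl1, hl2⟩ : ∃ lam₀ : ℝ, 0 < lam₀ ∧ lam₀ ≤ 1 / 4 ∧ lam₀ ≤ ρ :=
    ⟨min (1 / 4) ρ, lt_min (by norm_num) hρ, min_le_left _ _, min_le_right _ _⟩
  have hl01 : lam₀ ∈ Ioc (0 : ℝ) 1 := ⟨hl0, by linarith⟩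
  have h11 : (1 : ℝ) ∈ Ioc (0 : ℝ) 1 := ⟨one_pos, le_rfl⟩
  have hη1 : η ≤ 1 / 100 := hJ.small
  have hηp : 0 < η := hJ.pos
  have hmr₁ : -r₁ ∈ Icc (-η) η := ⟨by linarith, by linarith⟩
  have hpr₁ : r₁ ∈ Icc (-η) η := ⟨by linarith, hr1⟩
  -- the point over x₂
  have hx2pos : ((1 / 2, x₂) : R4) ∈ {p : R4 | 0 < rsq 0 p ∧ 0 < rsq 1 p} := by
    have h1 : rsq 0 ((1 / 2, x₂) : R4) = 1 / 100 := by rw [D2b.rsq_zero_eq]; exact hx2
    refine ⟨by rw [h1]; norm_num, ?_⟩
    have := small_bounds (q := ((1 / 2, x₂) : R4)) (by rw [h1]; norm_num)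
    linarith
  -- step 1
  have s1 : Thin 𝓘(ℝ, R4) (fun p => J (-r₁, Em δ (k (cl lam₀ p)))) ψ := by
    have h0 : Thin 𝓘(ℝ, R4) (fun p => J (-r₁, Em δ (k (cl (1 + 0 * (lam₀ - 1)) p)))) ψ := by
      have e : (fun p : R4 => J (-r₁, Em δ (k (cl (1 + 0 * (lam₀ - 1)) p)))) =
          fun p => J (-r₁, Em δ (k p)) := by
        funext p
        rw [zero_mul, add_zero, hRC.2.1 p]
      rw [e]; exact hψ
    have h1 := thin_step hRE hRC hT2 hJ hδ hδη hK hρ.le (T := fun _ => -r₁)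
      (ℓ := fun t => 1 + t * (lam₀ - 1)) contDiff_const (fun t _ => hmr₁) (contDiff_lin 1 lam₀)
      (fun t ht => lin_mem h11 hl01 ht) (by
        intro t ht p hp h
        have hc : cl (1 + t * (lam₀ - 1)) p ∈ AA := cl_AA hRC (lin_mem h11 hl01 ht) hp
        have hkc := k_AA hK hρ.le hc
        have h1 : Em δ (k (cl (1 + t * (lam₀ - 1)) p)) = Em δ (1 / 2, x₂) := h.trans hEx.symm
        have h2 := rE1.2 (AA_pos hkc) hx2pos h1
        apply hkt _ hc.2.1
        rw [h2]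
        show nsq (x₂ - x₂) < r ^ 2
        rw [sub_self, nsq_eq]
        have : 0 < r ^ 2 := by positivity
        simpa using this) h0
    have e : (1 : ℝ) + 1 * (lam₀ - 1) = lam₀ := by ring
    simp only [e] at h1
    exact h1
  -- step 2
  have s2 : Thin 𝓘(ℝ, R4) (fun p => J (-r₁, Em δ (cl lam₀ p))) ψ :=
    step2 hRC hT2 hK hρ hl01 hl2 (fun q => J (-r₁, Em δ q)) s1
  -- step 3
  have hI := KK_id ρ
  have s3 : Thin 𝓘(ℝ, R4) (fun p => J (r₁, Em δ (cl lam₀ p))) ψ := by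
    have hTm : ∀ t ∈ Icc (0 : ℝ) 1, -r₁ + 2 * r₁ * t ∈ Icc (-η) η := by
      intro t ht
      obtain ⟨t1, t2⟩ := ht
      constructor <;> nlinarith
    have h0 : Thin 𝓘(ℝ, R4) (fun p => J (-r₁ + 2 * r₁ * 0, Em δ (cl lam₀ p))) ψ := by
      rw [mul_zero, add_zero]; exact s2
    have h1 := thin_step hRE hRC hT2 hJ hδ hδη hI hρ.le (T := fun t => -r₁ + 2 * r₁ * t)
      (ℓ := fun _ => lam₀) (contDiff_const.add (contDiff_const.mul contDiff_id)) hTm
      contDiff_const (fun _ _ => hl01) (by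
        intro t ht p hp
        refine ne3 hRE hRC hJ hδ hl01 hl1 (hTm t ht) ?_ hp
        have : 0 ≤ 2 * r₁ * t := by have := ht.1; positivity
        linarith) h0
    have e : -r₁ + 2 * r₁ * 1 = r₁ := by ring
    simp only [e] at h1
    exact h1
  -- step 4
  have s4 : Thin 𝓘(ℝ, R4) (fun p => J (r₁, Em δ p)) ψ := by
    have hX1 : X r₁ ∉ SH η :=
      not_mem_SH (hJ.lvl r₁ hpr₁) hr0 (hr1.trans hη1) (hJ.re r₁ hpr₁)
    have h0 : Thin 𝓘(ℝ, R4) (fun p => J (r₁, Em δ (cl (lam₀ + 0 * (1 - lam₀)) p))) ψ := by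
      rw [zero_mul, add_zero]; exact s3
    have h1 := thin_step hRE hRC hT2 hJ hδ hδη hI hρ.le (T := fun _ => r₁)
      (ℓ := fun t => lam₀ + t * (1 - lam₀)) contDiff_const (fun t _ => hpr₁)
      (contDiff_lin lam₀ 1) (fun t ht => lin_mem hl01 h11 ht) (by
        intro t ht p hp h
        apply hX1
        rw [← h]
        exact Em_SH hRE hδ hδη (cl_AA hRC (lin_mem hl01 h11 ht) hp)) h0
    have e : lam₀ + 1 * (1 - lam₀) = 1 := by ring
    simp only [e, hRC.2.1] at h1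
    exact h1
  -- step 5
  exact step5 hRE hT2 hδ (fun q => J (r₁, q)) s4

end Pool.Agent.Helper34.BI


end

/-! ## Helper18.BI.R.StR5 -/

section

/-!
# Project BI, stage 4 (R): existence of the class of a moved cuff

Statements (as `Prop` definitions) with complete proofs in the docstrings.
-/

set_option autoImplicit false

open scoped Manifold ContDiff Topology ComplexConjugate unitInterval
open Set Pool.Agent.Helper65.Barb Pool.Agent.Helper18.BI
open Pool.Agent.Helper70.Fin (Emb coreSphere)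
open Pool.Agent.Helper18.FinR (sqr Pi2 cls FreeClass SameFixed UpTo)

namespace Pool.Agent.Helper18.BI.R

/-- MODULE HEP.  Moving the base point of a sphere along a path.
Proof.  For `m ∈ S2` put `d = 1 - m.1 ∈ [0, 2]` (`d = 0` only at `(1, 0)`), and `v = 1 - u`.
`h (u, m) = ζ (v - 2 d)` if `2 d ≤ v`, and `h (u, m) = k (σ (v, m))` if `v ≤ 2 d`, where `d' = (d - v/2) * (2 / (2 - v/2)) ∈ [0, 2]`, `σ (v, m) = (1 - d', r • m.2)`, `r = √(d' (2 - d')) / √(d (2 - d))`
(`|m.2|² = d (2 - d)`, so `σ (v, m) ∈ S2`; at `d = 2`: `d' = 2`, `m.2 = 0`, `σ = (-1, 0)`).  `σ` is continuous on `{(v, m) | v ∈ [0,1], m ∈ S2, v ≤ 2 d}`: where `m.2 ≠ 0` this is clear; at a point with `m.2 = 0` (then `d = 0`, `v = 0`, or `d = 2`) because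
`‖r • m.2‖ = √(d' (2 - d'))` is continuous and vanishes there (squeeze; or the identity `‖r • m.2‖ ≤ √(d' (2 - d'))`).  For `2 d = v`: `d' = 0`, `σ = (1, 0)`, `k (1, 0) = ζ 0 = ζ (v - 2 d)`.  `v = 0` (`u = 1`): `σ (0, m) = m` (for `m = (1, 0)`, `d = 0`: `h = ζ 0 = k (1, 0)`).
`v = 1` (`u = 0`), `m = (1, 0)`: `h (0, (1, 0)) = ζ 1`.  Gluing of two relatively closed sets (`ContinuousOn.union_of_isClosed` / `ContinuousOn.if`). -/
def StHEP : Prop :=
  ∀ (M : Type) [TopologicalSpace M] (A : Set M) (k : R3 → M) (ζ : ℝ → M), ContinuousOn k S2 →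
    ContinuousOn ζ (Icc (0 : ℝ) 1) → ζ 0 = k (1, 0) → (∀ m ∈ S2, k m ∉ A) →
    (∀ τ ∈ Icc (0 : ℝ) 1, ζ τ ∉ A) →
    ∃ h : ℝ × R3 → M, ContinuousOn h (Icc (0 : ℝ) 1 ×ˢ S2) ∧ (∀ m ∈ S2, h (1, m) = k m) ∧
      h (0, (1, 0)) = ζ 1 ∧ ∀ u ∈ Icc (0 : ℝ) 1, ∀ m ∈ S2, h (u, m) ∉ A

/-- MODULE EXC (from `StHEP`, `StMQ`).  Every barbell with the given fixed cuff has a class.
Proof.  `U` open with `coreSphere 1 = sph 1 ⊆ U` (`(1/5)² = 1/25`), `B = B'` on `U`.  `(1/2, (4/5, 0)) ∈ sph 1`, so there is `δ ∈ (0, 1/10)` with `(1/2, (4/5 - δ, 0)) ∈ U`.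
`ζ τ = B' (1/2, (1/5 + 2 τ (3/5 - δ), 0))` for `τ ≤ 1/2`, `B (1/2, (4/5 - δ - (2 τ - 1) (3/10 - δ), 0))` for `1/2 ≤ τ`; continuous, `ζ 0 = B' (1/2, (1/5, 0))`, `ζ 1 = B (1/2, (1/2, 0)) = y₀`.  `k m = B' (1/2, (1/5) • m)`, `k (1, 0) = ζ 0`.  Off `A = B '' sph 1 = B' '' sph 1`: `B`, `B'` are injective on
`NB` (`B.toPartialEquiv.injOn`), which contains `sph 0 ∪ sph 1` and the points `(1/2, (a, 0))`, `1/5 ≤ a ≤ 4/5` (`Pool.Agent.Helper70.BI.Fin2.SP_sub_NB`), and these points and the points of `sph 0` are not in `sph 1` for `a < 4/5`.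
`StHEP` gives `h₀`; `h (u, p) = h₀ (u, 5 • p.2)` for `p ∈ coreSphere 0` (`5 • p.2 ∈ S2`), `f t = ⟨h₀ (0, sqr t), _⟩` is continuous in `t` (`sqr` is continuous with values in `S2`: `sqr t = mq (t 0) (t 1)`), and on the boundary of the square `sqr t = (1, 0)`, so `f t = y₀`. -/
def StEXC : Prop :=
  ∀ (B B' : Emb) (A : Set S4) (y₀ : {x : S4 // x ∉ A}), NB ⊆ B.source → NB ⊆ B'.source →
    SameFixed B B' → A = B '' coreSphere 1 → (y₀ : S4) = B (1 / 2, (1 / 2, 0)) →
    ∃ z : Pi2 A y₀, FreeClass A y₀ B' z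

end Pool.Agent.Helper18.BI.R


end

/-! ## Helper18.BI.R.StR6 -/

section

/-!
# Project BI, stage 4 (R): unknotted cuffs

Statements (as `Prop` definitions) with complete proofs in the docstrings.
-/

set_option autoImplicit false

open scoped Manifold ContDiff Topology ComplexConjugate unitInterval
open Set Pool.Agent.Helper65.Barb Pool.Agent.Helper18.BI
open Pool.Agent.Helper70.Fin (Emb coreSphere)

namespace Pool.Agent.Helper18.BI.R

/-- MODULE UNK.  Every map of a 2-sphere to the complement of an unknotted 2-sphere is null-homotopic there.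
Proof.  `S = δ '' sph 0`, `k = B` on `sph 1`, with values in `Sᶜ` (injectivity of `B` on `NB ⊇ sph 0 ∪ sph 1`).
(1) A homeomorphism `Ψ` of `S4` with `Ψ '' S = S⁰ := {y : S4 | y 0 = 0 ∧ y 1 = 0}` (coordinates of `EuclideanSpace ℝ (Fin 5)`).  `b = δ '' flat 0` is compact with empty interior, so there is a point `v ∉ b`; stereographic projection from `v` is a homeomorphism
`σ` of `{v}ᶜ` onto a four-dimensional euclidean space `V` (orthogonal complement of `v`), identified with `R4` by a linear isomorphism `λ`.  `G = λ ∘ σ ∘ δ` is a germ of an embedding along `flat 0` (`EmbOn I4 G (flat 0)`; extend `G` arbitrarily off `δ.source`).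
The family `G_t p = (G (m + t (p - m)) - G m) / t + G m` for `t ∈ (0,1]`, `G_0 p = G m + DG(m) (p - m)`, `m = (1/2, 0)` the centre of `flat 0`, is smooth (also at `t = 0`: integral formula or Hadamard; there may be such a family already: `Pool.Agent.Helper70.BI` modules NO1, LOC, GL, ROT, or `StFam2`/`StCH` chains) and consists of
germs of embeddings along `flat 0`, so there is a homeomorphism (a compactly supported diffeomorphism) `Θ` of `R4` with `Θ ∘ G = G_0` on `flat 0`.  `G_0` is affine and injective: an affine homeomorphism `Λ` of `R4` with `Λ ∘ Θ ∘ G = inclusion` of `flat 0`, then another one onto the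
sphere of radius `2` in the hyperplane `{x ∈ V | ⟪x, e⟫ = 0}`, `e` a unit vector of `V`.  A homeomorphism of `V` extended by `v ↦ v` is a homeomorphism of `S4` (`OnePoint`, or directly: continuity at `v` since the homeomorphism and its inverse are proper).  The inverse stereographic projection maps
the sphere of radius `2` in `e^⊥ ⊆ V` to `{y ∈ S4 | ⟪y, v⟫ = 0, ⟪y, e⟫ = 0}` (`stereoInvFun`: `w ↦ (‖w‖² + 4)⁻¹ • (4 w + (‖w‖² - 4) v)`); no need to rotate to the first two coordinates: work with the orthonormal pair `v, e`.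
(Alternative to (1) without homeomorphisms of `S4`: only the part of the argument for maps `S2 → S4 \ S` is needed, and only up to homotopy.)
(2) Null-homotopy in the complement of `S⁰`: for `y ∈ S4` put `z y = ⟪y, v⟫ + i ⟪y, e⟫ ∈ ℂ` and `x y` the component orthogonal to `v, e`; `|z|² + |x|² = 1`, `y ∉ S⁰` iff `z y ≠ 0`.  `z ∘ k : sph 1 → ℂ \ {0}` has a continuous logarithm: `sph 1` is homeomorphic to the sphere `S2`, which is simply
connected; or pull back by `(x, y) ↦ mq x y` (`StMQ`), a map of the square which is constant on the boundary and a quotient map onto `S2` (compact to Hausdorff), injective in the interior: the logarithm on the square (covering homotopy lifting: `Complex.isCoveringMap_exp`, `IsCoveringMap.liftPath`/`monodromy`, homotopy lifting)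
is constant on the boundary (a lift of a constant along the connected boundary), so it descends.  So `z (k p) = |z (k p)| e^{i θ p}`, `θ` continuous.
`h (u, p)`: for `u ≤ 1/2` the point with `z = |z (k p)| e^{i (1 - 2u) θ p}`, `x = x (k p)`; for `u ≥ 1/2` the normalization of the point with `z = (2 - 2u) |z (k p)| + (2u - 1)`, `x = (2 - 2u) x (k p)` (`Re z > 0`).  Off `S⁰` for all `u`.  At `u = 1` it is the point `v`.  Transport by `Ψ⁻¹`. -/
def StUNK : Prop :=
  ∀ B : Emb, NB ⊆ B.source → (∃ δ : Emb, flat 0 ⊆ δ.source ∧ ∀ p ∈ sph 0, δ p = B p) →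
    ∃ (h : ℝ × R4 → S4) (y : S4), ContinuousOn h (Icc (0 : ℝ) 1 ×ˢ sph 1) ∧
      (∀ p ∈ sph 1, h (0, p) = B p) ∧ (∀ p ∈ sph 1, h (1, p) = y) ∧
      ∀ u ∈ Icc (0 : ℝ) 1, ∀ p ∈ sph 1, h (u, p) ∉ B '' sph 0

end Pool.Agent.Helper18.BI.R


end

/-! ## Helper18.BI.R.M_HEP -/

section

/-!
# Project BI, stage 4 (R), module HEP: moving the base point of a sphere along a path
-/

set_option autoImplicit false

open scoped Manifold ContDiff Topology ComplexConjugate unitInterval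
open Set Pool.Agent.Helper65.Barb Pool.Agent.Helper18.BI

namespace Pool.Agent.Helper18.BI.R

namespace HEP

/-- `max (d - v / 2) 0` with `d = 1 - m.1`, `v = 1 - u`. -/
noncomputable def wf (p : ℝ × R3) : ℝ := max ((1 - p.2.1) - (1 - p.1) / 2) 0

/-- The scaling factor. -/
noncomputable def cf (p : ℝ × R3) : ℝ := 2 / (2 - (1 - p.1) / 2)

/-- The complex coordinate before scaling. -/
noncomputable def zf (p : ℝ × R3) : ℂ :=
  (Real.sqrt (wf p)) • ((Real.sqrt (1 - p.2.1))⁻¹ • p.2.2)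

noncomputable def sg (p : ℝ × R3) : R3 := (1 - cf p * wf p, cf p • zf p)

theorem mem_S2 {m : R3} : m ∈ S2 ↔ m.1 ^ 2 + m.2.re ^ 2 + m.2.im ^ 2 = 1 := Iff.rfl

theorem dbd {m : R3} (hm : m ∈ S2) : 0 ≤ 1 - m.1 ∧ 1 - m.1 ≤ 2 := by
  rw [mem_S2] at hm
  constructor <;> nlinarith [sq_nonneg m.2.re, sq_nonneg m.2.im, sq_nonneg (m.1 + 1), sq_nonneg (m.1 - 1)]

theorem nsq2 {m : R3} (hm : m ∈ S2) : m.2.re ^ 2 + m.2.im ^ 2 = (1 - m.1) * (2 - (1 - m.1)) := by
  rw [mem_S2] at hm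
  linarith

theorem wf_nonneg (p : ℝ × R3) : 0 ≤ wf p := le_max_right _ _

theorem wf_cont : Continuous wf := by
  unfold wf
  fun_prop

theorem wf_le {p : ℝ × R3} (hp : p ∈ Icc (0 : ℝ) 1 ×ˢ S2) : wf p ≤ 1 - p.2.1 := by
  have h1 := dbd hp.2
  have h2 : p.1 ≤ 1 := hp.1.2
  unfold wf
  apply max_le <;> linarith

theorem cf_pos {p : ℝ × R3} (hp : p ∈ Icc (0 : ℝ) 1 ×ˢ S2) : 0 < 2 - (1 - p.1) / 2 := by
  have h2 : 0 ≤ p.1 := hp.1.1
  linarith

theorem cf_cont : ContinuousOn cf (Icc (0 : ℝ) 1 ×ˢ S2) := by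
  unfold cf
  refine ContinuousOn.div continuousOn_const (by fun_prop) ?_
  intro p hp
  exact (cf_pos hp).ne'

theorem zf_sq {p : ℝ × R3} (hp : p ∈ Icc (0 : ℝ) 1 ×ˢ S2) :
    (zf p).re ^ 2 + (zf p).im ^ 2 = wf p * (2 - (1 - p.2.1)) := by
  have h1 := dbd hp.2
  have hw := wf_nonneg p
  have hle := wf_le hp
  unfold zf
  simp only [Complex.smul_re, Complex.smul_im, smul_eq_mul]
  rcases h1.1.eq_or_lt with h | h
  · have hw0 : wf p = 0 := le_antisymm (by linarith) hw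
    rw [hw0]
    simp
  · have e1 : (Real.sqrt (wf p) * ((Real.sqrt (1 - p.2.1))⁻¹ * p.2.2.re)) ^ 2 +
        (Real.sqrt (wf p) * ((Real.sqrt (1 - p.2.1))⁻¹ * p.2.2.im)) ^ 2 =
        Real.sqrt (wf p) ^ 2 * (Real.sqrt (1 - p.2.1) ^ 2)⁻¹ * (p.2.2.re ^ 2 + p.2.2.im ^ 2) := by
      rw [mul_pow, mul_pow, mul_pow, mul_pow, inv_pow]
      ring
    rw [e1, Real.sq_sqrt hw, Real.sq_sqrt h1.1, nsq2 hp.2]
    field_simp

theorem zf_cont : ContinuousOn zf (Icc (0 : ℝ) 1 ×ˢ S2) := by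
  intro p hp
  have h1 := dbd hp.2
  rcases h1.1.eq_or_lt with h | h
  · have hw0 : wf p = 0 := le_antisymm (by linarith [wf_le hp]) (wf_nonneg p)
    have hz : zf p = 0 := by
      unfold zf
      rw [hw0]
      simp
    unfold ContinuousWithinAt
    rw [hz]
    have hb : Filter.Tendsto (fun q : ℝ × R3 => Real.sqrt (2 * wf q)) (𝓝[Icc (0 : ℝ) 1 ×ˢ S2] p) (𝓝 0) := by
      have hc : Continuous fun q : ℝ × R3 => Real.sqrt (2 * wf q) :=
        Real.continuous_sqrt.comp (continuous_const.mul wf_cont)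
      have := hc.continuousWithinAt (s := Icc (0 : ℝ) 1 ×ˢ S2) (x := p)
      unfold ContinuousWithinAt at this
      simpa [hw0] using this
    refine squeeze_zero_norm' ?_ hb
    filter_upwards [self_mem_nhdsWithin] with q hq
    have e := zf_sq hq
    have hd := dbd hq.2
    rw [Complex.norm_def, Complex.normSq_apply]
    apply Real.sqrt_le_sqrt
    have : (zf q).re * (zf q).re + (zf q).im * (zf q).im = wf q * (2 - (1 - q.2.1)) := by
      rw [← e]; ring
    rw [this]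
    nlinarith [wf_nonneg q]
  · unfold zf
    have c1 : ContinuousWithinAt (fun q : ℝ × R3 => Real.sqrt (wf q)) (Icc (0 : ℝ) 1 ×ˢ S2) p :=
      (Real.continuous_sqrt.comp wf_cont).continuousWithinAt
    have c2 : ContinuousWithinAt (fun q : ℝ × R3 => (Real.sqrt (1 - q.2.1))⁻¹)
        (Icc (0 : ℝ) 1 ×ˢ S2) p := by
      refine ContinuousWithinAt.inv₀ ?_ (Real.sqrt_ne_zero'.mpr h)
      exact (Real.continuous_sqrt.comp (by fun_prop)).continuousWithinAt
    have c3 : ContinuousWithinAt (fun q : ℝ × R3 => q.2.2) (Icc (0 : ℝ) 1 ×ˢ S2) p := by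
      exact (by fun_prop : Continuous fun q : ℝ × R3 => q.2.2).continuousWithinAt
    exact c1.smul (c2.smul c3)

theorem sg_cont : ContinuousOn sg (Icc (0 : ℝ) 1 ×ˢ S2) := by
  unfold sg
  refine ContinuousOn.prodMk ?_ ?_
  · exact continuousOn_const.sub (cf_cont.mul wf_cont.continuousOn)
  · exact cf_cont.smul zf_cont

theorem sg_mem {p : ℝ × R3} (hp : p ∈ Icc (0 : ℝ) 1 ×ˢ S2) : sg p ∈ S2 := by
  rw [mem_S2]
  have e := zf_sq hp
  have hc := cf_pos hp
  have hcf : cf p * (2 - (1 - p.1) / 2) = 2 := by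
    unfold cf
    exact div_mul_cancel₀ _ hc.ne'
  unfold sg
  simp only [Complex.smul_re, Complex.smul_im, smul_eq_mul]
  have e2 : (1 - cf p * wf p) ^ 2 + (cf p * (zf p).re) ^ 2 + (cf p * (zf p).im) ^ 2 =
      (1 - cf p * wf p) ^ 2 + cf p ^ 2 * (wf p * (2 - (1 - p.2.1))) := by
    rw [← e]; ring
  rw [e2]
  by_cases hd : (1 - p.2.1) - (1 - p.1) / 2 ≤ 0
  · have hw : wf p = 0 := max_eq_right hd
    rw [hw]; ring
  · have hw : wf p = (1 - p.2.1) - (1 - p.1) / 2 := max_eq_left (le_of_lt (not_le.mp hd))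
    have h3 : 2 - (1 - p.2.1) = (2 - (1 - p.1) / 2) - wf p := by rw [hw]; ring
    rw [h3]
    have : (1 - cf p * wf p) ^ 2 + cf p ^ 2 * (wf p * (2 - (1 - p.1) / 2 - wf p)) =
        1 - 2 * (cf p * wf p) + cf p * wf p * (cf p * (2 - (1 - p.1) / 2)) := by ring
    rw [this, hcf]; ring

theorem sg_one {m : R3} (hm : m ∈ S2) : sg (1, m) = m := by
  have hp : ((1 : ℝ), m) ∈ Icc (0 : ℝ) 1 ×ˢ S2 := ⟨⟨zero_le_one, le_refl _⟩, hm⟩
  have hd := dbd hm
  have hw : wf (1, m) = 1 - m.1 := by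
    unfold wf
    simp only [sub_self, zero_div, sub_zero]
    exact max_eq_left hd.1
  have hc : cf (1, m) = 1 := by
    unfold cf
    norm_num
  have h2 := nsq2 hm
  unfold sg zf
  rw [hw, hc]
  simp only [one_mul, one_smul, sub_sub_cancel]
  rcases hd.1.eq_or_lt with h | h
  · rw [← h] at h2
    have hre : m.2.re = 0 := by nlinarith [sq_nonneg m.2.re, sq_nonneg m.2.im]
    have him : m.2.im = 0 := by nlinarith [sq_nonneg m.2.re, sq_nonneg m.2.im]
    have hz : m.2 = 0 := Complex.ext hre him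
    refine Prod.ext rfl ?_
    simp [hz]
  · have hs : Real.sqrt (1 - m.1) ≠ 0 := Real.sqrt_ne_zero'.mpr h
    refine Prod.ext rfl ?_
    show Real.sqrt (1 - m.1) • ((Real.sqrt (1 - m.1))⁻¹ • m.2) = m.2
    rw [smul_smul, mul_inv_cancel₀ hs, one_smul]

theorem sg_base {p : ℝ × R3} (h : (1 - p.1) = 2 * (1 - p.2.1)) : sg p = (1, 0) := by
  have hw : wf p = 0 := by
    unfold wf
    rw [h]
    simp
  unfold sg zf
  rw [hw]
  simp

end HEP

open HEP in
open scoped Classical in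
theorem m_HEP : StHEP := by
  intro M _ A k ζ hk hζ h0 hkA hζA
  let h : ℝ × R3 → M := fun p =>
    if (1 - p.1) ≤ 2 * (1 - p.2.1) then k (sg p) else ζ (max ((1 - p.1) - 2 * (1 - p.2.1)) 0)
  have hmx : ∀ p ∈ Icc (0 : ℝ) 1 ×ˢ S2,
      max ((1 - p.1) - 2 * (1 - p.2.1)) 0 ∈ Icc (0 : ℝ) 1 := by
    intro p hp
    refine ⟨le_max_right _ _, max_le ?_ zero_le_one⟩
    have h1 := dbd hp.2
    have h2 : 0 ≤ p.1 := hp.1.1
    linarith
  refine ⟨h, ?_, ?_, ?_, ?_⟩
  · rw [continuousOn_iff_continuous_domRestrict]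
    have hc : Continuous fun x : ↥(Icc (0 : ℝ) 1 ×ˢ S2) =>
        if (1 - (x : ℝ × R3).1) ≤ 2 * (1 - (x : ℝ × R3).2.1) then k (sg x)
        else ζ (max ((1 - (x : ℝ × R3).1) - 2 * (1 - (x : ℝ × R3).2.1)) 0) := by
      refine Continuous.if_le ?_ ?_ ?_ ?_ ?_
      · exact hk.comp_continuous (continuousOn_iff_continuous_domRestrict.mp sg_cont)
          (fun x => sg_mem x.2)
      · refine hζ.comp_continuous ?_ (fun x => hmx x x.2)
        fun_prop
      · fun_prop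
      · fun_prop
      · intro x hx
        rw [sg_base hx, ← h0]
        congr 1
        rw [hx]
        simp
    exact hc
  · intro m hm
    show (if (1 - (1 : ℝ)) ≤ 2 * (1 - m.1) then k (sg (1, m)) else _) = k m
    rw [if_pos (by linarith [(dbd hm).1]), sg_one hm]
  · show (if (1 - (0 : ℝ)) ≤ 2 * (1 - (1 : ℝ)) then _ else ζ (max ((1 - (0 : ℝ)) - 2 * (1 - 1)) 0)) = ζ 1
    rw [if_neg (by norm_num)]
    congr 1
    norm_num
  · intro u hu m hm
    have hp : (u, m) ∈ Icc (0 : ℝ) 1 ×ˢ S2 := ⟨hu, hm⟩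
    show (if (1 - u) ≤ 2 * (1 - m.1) then k (sg (u, m))
      else ζ (max ((1 - u) - 2 * (1 - m.1)) 0)) ∉ A
    split_ifs
    · exact hkA _ (sg_mem hp)
    · exact hζA _ (hmx _ hp)

end Pool.Agent.Helper18.BI.R


end

/-! ## Helper34.BI.UNK1 -/

section

/-!
# Project BI, module UNK, part 1: squeezing a flat ball, pushing homeomorphisms
-/

set_option autoImplicit false
set_option linter.unusedSectionVars false

open scoped Topology
open Set Pool.Agent.Helper65.Barb Pool.Agent.Helper18.BI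

namespace Pool.Agent.Helper34.BI.UNK1

/-! ## the radial squeeze -/

/-- the slope -/
noncomputable def Kk (l R : ℝ) : ℝ := (R - l) / (R - 1)

/-- the factor -/
noncomputable def th (l R r : ℝ) : ℝ := min 1 (Kk l R - (Kk l R - l) / max r 1)

/-- the inverse factor -/
noncomputable def ti (l R r : ℝ) : ℝ := max 1 ((Kk l R)⁻¹ + (1 - l / Kk l R) / max r l)

section

variable {l R : ℝ} (hl0 : 0 < l) (hl1 : l < 1) (hR : 1 < R)
include hl0 hl1 hR

theorem Kk_pos : 1 < Kk l R := by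
  unfold Kk
  rw [lt_div_iff₀ (by linarith)]
  linarith

theorem KR : Kk l R * (R - 1) = R - l := by
  unfold Kk
  exact div_mul_cancel₀ _ (by linarith)

theorem th_lo {r : ℝ} (h : r ≤ 1) : th l R r = l := by
  unfold th
  rw [max_eq_right h, div_one, sub_sub_cancel, min_eq_right hl1.le]

theorem th_mid {r : ℝ} (h1 : 1 ≤ r) (h2 : r ≤ R) : th l R r = Kk l R - (Kk l R - l) / r := by
  unfold th
  rw [max_eq_left h1, min_eq_right]
  have hr : 0 < r := by linarith
  rw [sub_le_iff_le_add, ← sub_le_iff_le_add', le_div_iff₀ hr]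
  have := KR hl0 hl1 hR
  have hK := Kk_pos hl0 hl1 hR
  nlinarith

theorem th_hi {r : ℝ} (h2 : R ≤ r) : th l R r = 1 := by
  unfold th
  rw [max_eq_left (by linarith), min_eq_left]
  have hr : 0 < r := by linarith
  rw [le_sub_iff_add_le, ← le_sub_iff_add_le', div_le_iff₀ hr]
  have := KR hl0 hl1 hR
  have hK := Kk_pos hl0 hl1 hR
  nlinarith

theorem ti_lo {r : ℝ} (h : r ≤ l) : ti l R r = l⁻¹ := by
  have hK := Kk_pos hl0 hl1 hR
  have hK0 : Kk l R ≠ 0 := by linarith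
  unfold ti
  rw [max_eq_right h]
  have e : (Kk l R)⁻¹ + (1 - l / Kk l R) / l = l⁻¹ := by
    field_simp
    ring
  rw [e, max_eq_right]
  exact (one_le_inv₀ hl0).mpr hl1.le

theorem ti_mid {r : ℝ} (h1 : l ≤ r) (h2 : r ≤ R) :
    ti l R r = (Kk l R)⁻¹ + (1 - l / Kk l R) / r := by
  have hK := Kk_pos hl0 hl1 hR
  have hK0 : 0 < Kk l R := by linarith
  have hr : 0 < r := by linarith
  unfold ti
  rw [max_eq_left h1, max_eq_right]
  have e : (Kk l R)⁻¹ + (1 - l / Kk l R) / r = (r + (Kk l R - l)) / (Kk l R * r) := by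
    field_simp
  rw [e, one_le_div (by positivity)]
  have := KR hl0 hl1 hR
  nlinarith

theorem ti_hi {r : ℝ} (h2 : R ≤ r) : ti l R r = 1 := by
  have hK := Kk_pos hl0 hl1 hR
  have hK0 : 0 < Kk l R := by linarith
  have hr : 0 < r := by linarith
  have e0 : max r l = r := max_eq_left (by linarith)
  unfold ti
  rw [e0]
  apply max_eq_left
  have e : (Kk l R)⁻¹ + (1 - l / Kk l R) / r = (r + (Kk l R - l)) / (Kk l R * r) := by
    field_simp
  rw [e, div_le_one (by positivity)]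
  have := KR hl0 hl1 hR
  nlinarith

theorem th_ti {r : ℝ} (_hr : 0 ≤ r) : th l R (ti l R r * r) * ti l R r = 1 := by
  have hK := Kk_pos hl0 hl1 hR
  have hK0 : 0 < Kk l R := by linarith
  have hKR := KR hl0 hl1 hR
  rcases le_total r l with h1 | h1
  · rw [ti_lo hl0 hl1 hR h1, th_lo hl0 hl1 hR]
    · exact mul_inv_cancel₀ hl0.ne'
    · rw [← div_eq_inv_mul]
      exact (div_le_one hl0).mpr h1
  · rcases le_total r R with h2 | h2
    · have hr0 : 0 < r := by linarith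
      have e : ti l R r * r = 1 + (r - l) / Kk l R := by
        rw [ti_mid hl0 hl1 hR h1 h2]
        field_simp
        ring
      have h3 : 1 ≤ ti l R r * r := by
        rw [e]
        have : 0 ≤ (r - l) / Kk l R := div_nonneg (by linarith) hK0.le
        linarith
      have h4 : ti l R r * r ≤ R := by
        rw [e]
        have : (r - l) / Kk l R ≤ R - 1 := by
          rw [div_le_iff₀ hK0]
          nlinarith
        linarith
      rw [th_mid hl0 hl1 hR h3 h4]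
      have h5 : 0 < ti l R r * r := by linarith
      have h6 : ti l R r ≠ 0 := by
        intro h
        rw [h, zero_mul] at h5
        exact lt_irrefl _ h5
      have h7 : (Kk l R - (Kk l R - l) / (ti l R r * r)) * ti l R r =
          (Kk l R * (ti l R r * r) - (Kk l R - l)) / r := by
        field_simp
      rw [h7, e, div_eq_one_iff_eq hr0.ne']
      field_simp
      ring
    · rw [ti_hi hl0 hl1 hR h2, one_mul, th_hi hl0 hl1 hR h2, one_mul]

theorem ti_th {r : ℝ} (hr : 0 ≤ r) : ti l R (th l R r * r) * th l R r = 1 := by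
  have hK := Kk_pos hl0 hl1 hR
  have hK0 : 0 < Kk l R := by linarith
  have hKR := KR hl0 hl1 hR
  rcases le_total r 1 with h1 | h1
  · rw [th_lo hl0 hl1 hR h1, ti_lo hl0 hl1 hR]
    · exact inv_mul_cancel₀ hl0.ne'
    · nlinarith
  · rcases le_total r R with h2 | h2
    · have hr0 : 0 < r := by linarith
      have e : th l R r * r = Kk l R * r - (Kk l R - l) := by
        rw [th_mid hl0 hl1 hR h1 h2]
        field_simp
      have h3 : l ≤ th l R r * r := by
        rw [e]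
        nlinarith
      have h4 : th l R r * r ≤ R := by
        rw [e]
        nlinarith
      rw [ti_mid hl0 hl1 hR h3 h4]
      have h5 : 0 < th l R r * r := by linarith
      have h6 : th l R r ≠ 0 := by
        intro h
        rw [h, zero_mul] at h5
        exact lt_irrefl _ h5
      have h7 : ((Kk l R)⁻¹ + (1 - l / Kk l R) / (th l R r * r)) * th l R r =
          (th l R r * r + (Kk l R - l)) / (Kk l R * r) := by
        field_simp
      rw [h7, e, div_eq_one_iff_eq (by positivity)]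
      ring
    · rw [th_hi hl0 hl1 hR h2, one_mul, ti_hi hl0 hl1 hR h2, one_mul]

theorem th_cont : Continuous (th l R) := by
  unfold th
  have h : Continuous fun r : ℝ => max r 1 := continuous_id.max continuous_const
  refine continuous_const.min (continuous_const.sub (continuous_const.div h ?_))
  intro r
  have : (1 : ℝ) ≤ max r 1 := le_max_right _ _
  linarith

theorem ti_cont : Continuous (ti l R) := by
  unfold ti
  have h : Continuous fun r : ℝ => max r l := continuous_id.max continuous_const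
  refine continuous_const.max (continuous_const.add (continuous_const.div h ?_))
  intro r
  have : l ≤ max r l := le_max_right _ _
  linarith

theorem th_nonneg (r : ℝ) : 0 ≤ th l R r := by
  have hK := Kk_pos hl0 hl1 hR
  unfold th
  refine le_min zero_le_one ?_
  have h : (1 : ℝ) ≤ max r 1 := le_max_right _ _
  have : (Kk l R - l) / max r 1 ≤ Kk l R - l := div_le_self (by linarith) h
  linarith

theorem ti_nonneg (r : ℝ) : 0 ≤ ti l R r := by
  unfold ti
  exact zero_le_one.trans (le_max_left _ _)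

end

/-- the centre -/
noncomputable def mc : R4 := (1 / 2, (0, 0))

/-- the gauge -/
noncomputable def Ng (η : ℝ) (q : R4) : ℝ := max (|q.1| / η) (5 * Real.sqrt (nsq q.2))

theorem Ng_cont (η : ℝ) : Continuous (Ng η) := by
  unfold Ng
  have h1 : Continuous fun q : R4 => |q.1| / η := (continuous_fst.abs).div_const _
  have h2 : Continuous fun q : R4 => nsq q.2 := by
    unfold nsq
    fun_prop
  exact h1.max (continuous_const.mul (Real.continuous_sqrt.comp h2))

theorem Ng_nonneg (η : ℝ) (q : R4) : 0 ≤ Ng η q :=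
  le_trans (by positivity) (le_max_right _ _)

theorem Ng_smul {η t : ℝ} (ht : 0 ≤ t) (q : R4) : Ng η (t • q) = t * Ng η q := by
  unfold Ng
  rw [mul_max_of_nonneg _ _ ht]
  congr 1
  · show |t * q.1| / η = t * (|q.1| / η)
    rw [abs_mul, abs_of_nonneg ht, mul_div_assoc]
  · have : nsq (t • q).2 = t ^ 2 * nsq q.2 := by
      unfold nsq
      show (t * q.2.1) ^ 2 + (t • q.2.2).re ^ 2 + (t • q.2.2).im ^ 2 = _
      simp only [Complex.smul_re, Complex.smul_im, smul_eq_mul]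
      ring
    rw [this, Real.sqrt_mul (sq_nonneg t), Real.sqrt_sq ht]
    ring

theorem nsq_nonneg' (x : R3) : 0 ≤ nsq x := by
  unfold nsq
  positivity

theorem norm_le_nsq (x : R3) : ‖x‖ ≤ Real.sqrt (nsq x) := by
  refine Real.le_sqrt_of_sq_le ?_
  have h0 : ‖x.2‖ ^ 2 = x.2.re ^ 2 + x.2.im ^ 2 := by
    rw [← Complex.normSq_eq_norm_sq, Complex.normSq_apply]
    ring
  unfold nsq
  rw [Prod.norm_def]
  rcases max_choice ‖x.1‖ ‖x.2‖ with h | h
  · rw [h, Real.norm_eq_abs, sq_abs]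
    nlinarith [sq_nonneg x.2.re, sq_nonneg x.2.im]
  · rw [h, h0]
    nlinarith [sq_nonneg x.1]

theorem rsq0 (p : R4) : rsq 0 p = nsq p.2 := by
  unfold rsq
  rw [sub_zero]

/-- **The squeeze.** -/
theorem exists_squeeze (U : Set R4) (hU : IsOpen U) (hf : flat 0 ⊆ U) (hfc : IsCompact (flat 0))
    (l : ℝ) (hl0 : 0 < l) (hl1 : l < 1) :
    ∃ (T : R4 ≃ₜ R4) (C : Set R4), IsCompact C ∧ C ⊆ U ∧ (∀ p, p ∉ C → T p = p) ∧
      ∀ p ∈ flat 0, T p = mc + l • (p - mc) := by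
  obtain ⟨δ, hδ, hδU⟩ := hfc.exists_cthickening_subset_open hU hf
  obtain ⟨R, hR1, hR2, hR3⟩ : ∃ R : ℝ, 1 < R ∧ (R - 1) / 5 ≤ δ ∧ R ≤ 2 :=
    ⟨min 2 (1 + 5 * δ), lt_min (by norm_num) (by linarith),
      by linarith [min_le_right (2 : ℝ) (1 + 5 * δ)], min_le_left _ _⟩
  set η : ℝ := δ / 2 with hη
  have hη0 : 0 < η := by positivity
  have hηR : η * R ≤ δ := by nlinarith
  let C : Set R4 := {p | Ng η (p - mc) ≤ R}
  have hCd : C ⊆ Metric.cthickening δ (flat 0) := by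
    intro p hp
    have hp1 : |(p - mc).1| / η ≤ R := (le_max_left _ _).trans hp
    have hp2 : 5 * Real.sqrt (nsq (p - mc).2) ≤ R := (le_max_right _ _).trans hp
    have hp1' : |(p - mc).1| ≤ η * R := by
      rw [div_le_iff₀ hη0] at hp1
      linarith
    have hm2 : (p - mc).2 = p.2 := Prod.ext (sub_zero _) (sub_zero _)
    rw [hm2] at hp2
    refine Metric.mem_cthickening_of_dist_le p ((1 / 2, R⁻¹ • p.2) : R4) δ (flat 0) ?_ ?_
    · refine ⟨rfl, ?_⟩
      rw [rsq0]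
      show nsq (R⁻¹ • p.2) ≤ 1 / 25
      have e : nsq (R⁻¹ • p.2) = (R⁻¹) ^ 2 * nsq p.2 := by
        unfold nsq
        show (R⁻¹ * p.2.1) ^ 2 + (R⁻¹ • p.2.2).re ^ 2 + (R⁻¹ • p.2.2).im ^ 2 = _
        simp only [Complex.smul_re, Complex.smul_im, smul_eq_mul]
        ring
      rw [e]
      have h1 : nsq p.2 = Real.sqrt (nsq p.2) ^ 2 := (Real.sq_sqrt (nsq_nonneg' _)).symm
      have h2 : R⁻¹ * Real.sqrt (nsq p.2) ≤ 1 / 5 := by
        rw [← div_eq_inv_mul, div_le_iff₀ (by linarith)]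
        linarith
      have h3 : 0 ≤ R⁻¹ * Real.sqrt (nsq p.2) := by positivity
      rw [h1]
      calc R⁻¹ ^ 2 * Real.sqrt (nsq p.2) ^ 2 = (R⁻¹ * Real.sqrt (nsq p.2)) ^ 2 := by ring
        _ ≤ (1 / 5) ^ 2 := pow_le_pow_left₀ h3 h2 2
        _ = 1 / 25 := by norm_num
    · rw [Prod.dist_eq]
      refine max_le ?_ ?_
      · rw [Real.dist_eq]
        have : (p - mc).1 = p.1 - 1 / 2 := rfl
        rw [← this]
        exact hp1'.trans hηR
      · rw [dist_eq_norm]
        show ‖p.2 - R⁻¹ • p.2‖ ≤ δ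
        have e : p.2 - R⁻¹ • p.2 = (1 - R⁻¹) • p.2 := by rw [sub_smul, one_smul]
        rw [e, norm_smul]
        have h1 : 0 ≤ 1 - R⁻¹ := by
          have : R⁻¹ ≤ 1 := inv_le_one_of_one_le₀ hR1.le
          linarith
        rw [Real.norm_of_nonneg h1]
        have h2 : ‖p.2‖ ≤ R / 5 := (norm_le_nsq _).trans (by linarith)
        calc (1 - R⁻¹) * ‖p.2‖ ≤ (1 - R⁻¹) * (R / 5) := mul_le_mul_of_nonneg_left h2 h1
          _ = (R - 1) / 5 := by
              have : R ≠ 0 := by linarith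
              field_simp
          _ ≤ δ := hR2
  have hCU : C ⊆ U := hCd.trans hδU
  have hCc : IsCompact C := by
    have hcl : IsClosed C :=
      isClosed_le ((Ng_cont η).comp (continuous_id.sub continuous_const)) continuous_const
    exact (hfc.cthickening (r := δ)).of_isClosed_subset hcl hCd
  let f : R4 → R4 := fun p => mc + th l R (Ng η (p - mc)) • (p - mc)
  let g : R4 → R4 := fun p => mc + ti l R (Ng η (p - mc)) • (p - mc)
  have hfm : ∀ p, f p - mc = th l R (Ng η (p - mc)) • (p - mc) := fun p => add_sub_cancel_left _ _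
  have hgm : ∀ p, g p - mc = ti l R (Ng η (p - mc)) • (p - mc) := fun p => add_sub_cancel_left _ _
  have hgf : ∀ p, g (f p) = p := by
    intro p
    show mc + ti l R (Ng η (f p - mc)) • (f p - mc) = p
    rw [hfm, Ng_smul (th_nonneg hl0 hl1 hR1 _), smul_smul,
      ti_th hl0 hl1 hR1 (Ng_nonneg η (p - mc)), one_smul, add_sub_cancel]
  have hfg : ∀ p, f (g p) = p := by
    intro p
    show mc + th l R (Ng η (g p - mc)) • (g p - mc) = p
    rw [hgm, Ng_smul (ti_nonneg hl0 hl1 hR1 _), smul_smul,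
      th_ti hl0 hl1 hR1 (Ng_nonneg η (p - mc)), one_smul, add_sub_cancel]
  have hN : Continuous fun p : R4 => Ng η (p - mc) :=
    (Ng_cont η).comp (continuous_id.sub continuous_const)
  have hfcont : Continuous f :=
    continuous_const.add (((th_cont hl0 hl1 hR1).comp hN).smul (continuous_id.sub continuous_const))
  have hgcont : Continuous g :=
    continuous_const.add (((ti_cont hl0 hl1 hR1).comp hN).smul (continuous_id.sub continuous_const))
  refine ⟨⟨⟨f, g, hgf, hfg⟩, hfcont, hgcont⟩, C, hCc, hCU, ?_, ?_⟩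
  · intro p hp
    have hp' : R < Ng η (p - mc) := not_le.mp hp
    show mc + th l R (Ng η (p - mc)) • (p - mc) = p
    rw [th_hi hl0 hl1 hR1 hp'.le, one_smul, add_sub_cancel]
  · intro p hp
    show mc + th l R (Ng η (p - mc)) • (p - mc) = mc + l • (p - mc)
    rw [th_lo hl0 hl1 hR1]
    have h1 : p.1 = 1 / 2 := hp.1
    have h2 := hp.2
    rw [rsq0] at h2
    have hm2 : (p - mc).2 = p.2 := Prod.ext (sub_zero _) (sub_zero _)
    have hm1 : (p - mc).1 = 0 := by
      show p.1 - 1 / 2 = 0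
      rw [h1, sub_self]
    unfold Ng
    rw [hm1, hm2, abs_zero, zero_div]
    refine max_le zero_le_one ?_
    have : Real.sqrt (nsq p.2) ≤ 1 / 5 := by
      rw [show (1 / 5 : ℝ) = Real.sqrt (1 / 25) by
        rw [show (1 / 25 : ℝ) = (1 / 5) ^ 2 by norm_num, Real.sqrt_sq (by norm_num)]]
      exact Real.sqrt_le_sqrt h2
    linarith

/-! ## pushing homeomorphisms -/

open Classical in
/-- **Push.** -/
theorem exists_push {X : Type} [TopologicalSpace X] [T2Space X] (δ : OpenPartialHomeomorph R4 X)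
    (T : R4 ≃ₜ R4) (C : Set R4) (hC : IsCompact C) (hCs : C ⊆ δ.source)
    (hT : ∀ p, p ∉ C → T p = p) : ∃ Ψ : X ≃ₜ X, ∀ p ∈ δ.source, Ψ (δ p) = δ (T p) := by
  have hTC : ∀ p, p ∈ C ↔ T p ∈ C := by
    intro p
    constructor
    · intro hp
      by_contra h
      have h1 := hT _ h
      have h2 : T p = p := T.injective h1
      rw [h2] at h
      exact h hp
    · intro hp
      by_contra h
      rw [hT _ h] at hp
      exact h hp
  have hTi : ∀ p, p ∉ C → T.symm p = p := by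
    intro p hp
    rw [← hT p hp, T.symm_apply_apply, hT p hp]
  have hTs : ∀ p ∈ δ.source, T p ∈ δ.source := by
    intro p hp
    by_cases h : p ∈ C
    · exact hCs ((hTC p).1 h)
    · rw [hT p h]; exact hp
  have hTis : ∀ p ∈ δ.source, T.symm p ∈ δ.source := by
    intro p hp
    by_cases h : p ∈ C
    · exact hCs ((hTC _).2 (by rw [T.apply_symm_apply]; exact h))
    · rw [hTi p h]; exact hp
  -- general push
  have key : ∀ S : R4 ≃ₜ R4, (∀ p, p ∉ C → S p = p) → (∀ p ∈ δ.source, S p ∈ δ.source) →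
      Continuous (fun y : X => if y ∈ δ.target then δ (S (δ.symm y)) else y) := by
    intro S hS hSs
    have hK : IsCompact (δ '' C) := hC.image_of_continuousOn (δ.continuousOn.mono hCs)
    rw [continuous_iff_continuousAt]
    intro y
    by_cases hy : y ∈ δ.target
    · have h1 : ContinuousOn (fun y : X => δ (S (δ.symm y))) δ.target := by
        refine δ.continuousOn.comp (S.continuous.comp_continuousOn δ.continuousOn_symm) ?_
        intro z hz
        exact hSs _ (δ.map_target hz)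
      refine (h1.continuousAt (δ.open_target.mem_nhds hy)).congr ?_
      filter_upwards [δ.open_target.mem_nhds hy] with z hz
      rw [if_pos hz]
    · have hy' : y ∉ δ '' C := by
        rintro ⟨p, hp, rfl⟩
        exact hy (δ.map_source (hCs hp))
      refine continuousAt_id.congr ?_
      filter_upwards [hK.isClosed.isOpen_compl.mem_nhds hy'] with z hz
      show z = _
      split_ifs with h
      · have : δ.symm z ∉ C := by
          intro hc
          exact hz ⟨δ.symm z, hc, δ.right_inv h⟩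
        rw [hS _ this, δ.right_inv h]
      · rfl
  let f : X → X := fun y => if y ∈ δ.target then δ (T (δ.symm y)) else y
  let g : X → X := fun y => if y ∈ δ.target then δ (T.symm (δ.symm y)) else y
  have hft : ∀ y, y ∈ δ.target → f y = δ (T (δ.symm y)) := fun y h => if_pos h
  have hfn : ∀ y, y ∉ δ.target → f y = y := fun y h => if_neg h
  have hgt : ∀ y, y ∈ δ.target → g y = δ (T.symm (δ.symm y)) := fun y h => if_pos h
  have hgn : ∀ y, y ∉ δ.target → g y = y := fun y h => if_neg h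
  have hgf : ∀ y, g (f y) = y := by
    intro y
    by_cases h : y ∈ δ.target
    · have h1 := hTs _ (δ.map_target h)
      rw [hft y h, hgt _ (δ.map_source h1), δ.left_inv h1, T.symm_apply_apply, δ.right_inv h]
    · rw [hfn y h, hgn y h]
  have hfg : ∀ y, f (g y) = y := by
    intro y
    by_cases h : y ∈ δ.target
    · have h1 := hTis _ (δ.map_target h)
      rw [hgt y h, hft _ (δ.map_source h1), δ.left_inv h1, T.apply_symm_apply, δ.right_inv h]
    · rw [hgn y h, hfn y h]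
  refine ⟨⟨⟨f, g, hgf, hfg⟩, key T hT hTs, key T.symm hTi hTis⟩, ?_⟩
  intro p hp
  show f (δ p) = δ (T p)
  rw [hft _ (δ.map_source hp), δ.left_inv hp]

end Pool.Agent.Helper34.BI.UNK1


end

/-! ## Helper34.BI.UNK3 -/

section

/-!
# Project BI, module UNK, part 1b: straightening an unknotted sphere in the 4-sphere
-/

set_option autoImplicit false

open scoped Manifold ContDiff Topology
open Set Pool.Agent.Helper65.Barb Pool.Agent.Helper18.BI
open Pool.Agent.Helper70.BI (I4 LD StLOC ld_iff)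
open Pool.Agent.Helper34.BI.UNK1

namespace Pool.Agent.Helper34.BI.UNK3

abbrev E5 : Type := EuclideanSpace ℝ (Fin 5)
abbrev Em : Type := PartialDiffeomorph 𝓘(ℝ, R4) (𝓡 4) R4 S4 ∞

/-! ## the chart -/

/-- linear coordinates -/
noncomputable def iotL (σ : ℝ) (hσ : σ * σ = 1) : R4 ≃ₗ[ℝ] EuclideanSpace ℝ (Fin 4) where
  toFun p := !₂[10 * (σ * p.1), 10 * p.2.1, 10 * p.2.2.re, 10 * p.2.2.im]
  map_add' p q := by
    ext i
    fin_cases i <;> simp <;> ring
  map_smul' t p := by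
    ext i
    fin_cases i <;> simp <;> ring
  invFun w := (σ * (w 0 / 10), (w 1 / 10, ⟨w 2 / 10, w 3 / 10⟩))
  left_inv p := by
    refine Prod.ext ?_ (Prod.ext ?_ (Complex.ext ?_ ?_))
    · show σ * ((10 * (σ * p.1)) / 10) = p.1
      have : σ * ((10 * (σ * p.1)) / 10) = (σ * σ) * p.1 := by ring
      rw [this, hσ, one_mul]
    · show (10 * p.2.1) / 10 = p.2.1
      ring
    · show (10 * p.2.2.re) / 10 = p.2.2.re
      ring
    · show (10 * p.2.2.im) / 10 = p.2.2.im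
      ring
  right_inv w := by
    ext i
    fin_cases i
    · show 10 * (σ * (σ * (w 0 / 10))) = w 0
      have : 10 * (σ * (σ * (w 0 / 10))) = (σ * σ) * w 0 := by ring
      rw [this, hσ, one_mul]
    · show 10 * (w 1 / 10) = w 1
      ring
    · show 10 * (w 2 / 10) = w 2
      ring
    · show 10 * (w 3 / 10) = w 3
      ring

theorem iotL_norm (σ : ℝ) (hσ : σ * σ = 1) (p : R4) :
    ‖iotL σ hσ p‖ ^ 2 = 100 * (p.1 ^ 2 + nsq p.2) := by
  rw [EuclideanSpace.norm_sq_eq, Fin.sum_univ_four]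
  show ‖10 * (σ * p.1)‖ ^ 2 + ‖10 * p.2.1‖ ^ 2 + ‖10 * p.2.2.re‖ ^ 2 + ‖10 * p.2.2.im‖ ^ 2 = _
  simp only [Real.norm_eq_abs, sq_abs]
  unfold nsq
  have : (10 * (σ * p.1)) ^ 2 = 100 * ((σ * σ) * p.1 ^ 2) := by ring
  rw [this, hσ]
  ring

theorem iotL_zero (σ : ℝ) (hσ : σ * σ = 1) (p : R4) : iotL σ hσ p 0 = 10 * (σ * p.1) := rfl

/-- The charts. -/
theorem exists_chart (v : S4) : ∃ (s : S4 → EuclideanSpace ℝ (Fin 4)) (e : E5), ‖e‖ = 1 ∧
    inner ℝ (v : E5) e = 0 ∧ ∀ (σ : ℝ) (hσ : σ * σ = 1), ∃ c : Em, c.source = univ ∧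
      c.target = {v}ᶜ ∧ (∀ y, c.symm y = mc + (iotL σ hσ).symm (s y)) ∧
      c '' sph 0 = {y : S4 | inner ℝ (y : E5) (v : E5) = 0 ∧ inner ℝ (y : E5) e = 0} := by
  have : Fact (Module.finrank ℝ (EuclideanSpace ℝ (Fin 5)) = 4 + 1) := ⟨by simp⟩
  set U : (Submodule.span ℝ {(v : E5)})ᗮ ≃ₗᵢ[ℝ] EuclideanSpace ℝ (Fin 4) :=
    (OrthonormalBasis.fromOrthogonalSpanSingleton 4 (ne_zero_of_mem_unit_sphere v)).repr with hU
  have hsymm : ∀ x : EuclideanSpace ℝ (Fin 4), ((stereographic' 4 v).symm x : E5) =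
      (‖(U.symm x : E5)‖ ^ 2 + 4)⁻¹ • (4 : ℝ) • (U.symm x : E5) +
        (‖(U.symm x : E5)‖ ^ 2 + 4)⁻¹ • (‖(U.symm x : E5)‖ ^ 2 - 4) • v.val :=
    fun x => stereographic'_symm_apply v x
  have hsrc : (chartAt (EuclideanSpace ℝ (Fin 4)) (-v : S4)).source = {v}ᶜ := by
    change (stereographic' 4 (- -v)).source = _
    rw [neg_neg, stereographic'_source]
  have htgt : (chartAt (EuclideanSpace ℝ (Fin 4)) (-v : S4)).target = univ := by
    change (stereographic' 4 (- -v)).target = _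
    rw [stereographic'_target]
  have hs1 : ContMDiffOn (𝓡 4) (𝓡 4) ∞ (chartAt (EuclideanSpace ℝ (Fin 4)) (-v : S4))
      (chartAt (EuclideanSpace ℝ (Fin 4)) (-v : S4)).source := contMDiffOn_chart
  have hs2 : ContMDiffOn (𝓡 4) (𝓡 4) ∞ (chartAt (EuclideanSpace ℝ (Fin 4)) (-v : S4)).symm
      (chartAt (EuclideanSpace ℝ (Fin 4)) (-v : S4)).target := contMDiffOn_chart_symm
  have hch : chartAt (EuclideanSpace ℝ (Fin 4)) (-v : S4) = stereographic' 4 v := by
    change stereographic' 4 (- -v) = _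
    rw [neg_neg]
  rw [hch] at hsrc htgt hs1 hs2
  have hvn : ‖(v : E5)‖ = 1 := norm_eq_of_mem_sphere v
  have hvv : inner ℝ (v : E5) (v : E5) = (1 : ℝ) := by
    rw [real_inner_self_eq_norm_sq, hvn]; norm_num
  have horth : ∀ w : (Submodule.span ℝ {(v : E5)})ᗮ, inner ℝ (w : E5) (v : E5) = 0 := by
    intro w
    rw [real_inner_comm]
    exact Submodule.mem_orthogonal_singleton_iff_inner_right.mp w.2
  generalize stereographic' 4 v = sv at hsymm hsrc htgt hs1 hs2
  let f0 : EuclideanSpace ℝ (Fin 4) := EuclideanSpace.single 0 1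
  let e : E5 := (U.symm f0 : E5)
  have he : ‖e‖ = 1 := by
    show ‖(U.symm f0 : E5)‖ = 1
    rw [← Submodule.coe_norm, U.symm.norm_map]
    simp [f0]
  have hve : inner ℝ (v : E5) e = 0 := by
    rw [real_inner_comm]
    exact horth _
  have hinner : ∀ w : (Submodule.span ℝ {(v : E5)})ᗮ, inner ℝ (w : E5) e = U w 0 := by
    intro w
    have h1 : inner ℝ (w : E5) e = inner ℝ w (U.symm f0) := rfl
    rw [h1, ← U.inner_map_map, U.apply_symm_apply, EuclideanSpace.inner_single_right]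
    simp
  refine ⟨fun y => sv y, e, he, hve, fun σ hσ => ?_⟩
  let L : R4 ≃L[ℝ] EuclideanSpace ℝ (Fin 4) := (iotL σ hσ).toContinuousLinearEquiv
  have hL : ∀ p, L p = iotL σ hσ p := fun p => rfl
  have hLs : ∀ p, L.symm p = (iotL σ hσ).symm p := fun p => rfl
  have hC1 : ContMDiff 𝓘(ℝ, R4) (𝓡 4) ∞ (fun p : R4 => L (p - mc)) :=
    (L.contDiff.comp (contDiff_id.sub contDiff_const)).contMDiff
  have hC2 : ContMDiff (𝓡 4) 𝓘(ℝ, R4) ∞ (fun x => mc + L.symm x) :=
    (contDiff_const.add L.symm.contDiff).contMDiff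
  let c : Em :=
    { toFun := fun p => sv.symm (L (p - mc))
      invFun := fun y => mc + L.symm (sv y)
      source := univ
      target := sv.source
      map_source' := fun p _ => sv.map_target (by rw [htgt]; exact mem_univ _)
      map_target' := fun y _ => mem_univ _
      left_inv' := fun p _ => by
        rw [sv.right_inv (by rw [htgt]; exact mem_univ _), L.symm_apply_apply, add_sub_cancel]
      right_inv' := fun y hy => by
        rw [add_sub_cancel_left, L.apply_symm_apply, sv.left_inv hy]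
      open_source := isOpen_univ
      open_target := sv.open_source
      contMDiffOn_toFun := hs2.comp hC1.contMDiffOn (fun p _ => by rw [htgt]; exact mem_univ _)
      contMDiffOn_invFun := hC2.comp_contMDiffOn hs1 }
  refine ⟨c, rfl, hsrc, fun y => rfl, ?_⟩
  apply Subset.antisymm
  · rintro _ ⟨p, hp, rfl⟩
    have hnorm : ‖(U.symm (L (p - mc)) : E5)‖ = 2 := by
      rw [← Submodule.coe_norm, U.symm.norm_map, hL]
      have h1 := iotL_norm σ hσ (p - mc)
      have h2 : (p - mc).1 = 0 := by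
        show p.1 - 1 / 2 = 0
        rw [hp.1, sub_self]
      have h3 : (p - mc).2 = p.2 := Prod.ext (sub_zero _) (sub_zero _)
      have h4 := hp.2
      rw [rsq0] at h4
      rw [h2, h3, h4] at h1
      have h5 := norm_nonneg (iotL σ hσ (p - mc))
      nlinarith
    have hcp : (c p : E5) = (1 / 2 : ℝ) • (U.symm (L (p - mc)) : E5) := by
      show (sv.symm (L (p - mc)) : E5) = _
      rw [hsymm, hnorm, smul_smul]
      norm_num
    constructor
    · show inner ℝ (c p : E5) (v : E5) = 0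
      rw [hcp, inner_smul_left, horth, mul_zero]
    · show inner ℝ (c p : E5) e = 0
      rw [hcp, inner_smul_left, hinner, U.apply_symm_apply, hL, iotL_zero]
      have h2 : (p - mc).1 = 0 := by
        show p.1 - 1 / 2 = 0
        rw [hp.1, sub_self]
      rw [h2]
      simp
  · rintro y ⟨hy1, hy2⟩
    have hy1' : inner ℝ (y : E5) (v : E5) = 0 := hy1
    have hy2' : inner ℝ (y : E5) e = 0 := hy2
    have hmem : (2 : ℝ) • (y : E5) ∈ (Submodule.span ℝ {(v : E5)})ᗮ := by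
      rw [Submodule.mem_orthogonal_singleton_iff_inner_right, inner_smul_right, real_inner_comm,
        hy1', mul_zero]
    let w : (Submodule.span ℝ {(v : E5)})ᗮ := ⟨(2 : ℝ) • (y : E5), hmem⟩
    have hwy : (w : E5) = (2 : ℝ) • (y : E5) := rfl
    let a := U w
    have ha0 : a 0 = 0 := by
      show U w 0 = 0
      rw [← hinner, hwy, inner_smul_left, hy2', mul_zero]
    have hna : ‖a‖ = 2 := by
      show ‖U w‖ = 2
      rw [U.norm_map, Submodule.coe_norm, hwy, norm_smul, norm_eq_of_mem_sphere y]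
      norm_num
    have hm : ∀ z : R4, mc + z - mc = z := fun z => add_sub_cancel_left _ _
    refine ⟨mc + L.symm a, ?_, ?_⟩
    · have h1 := iotL_norm σ hσ (L.symm a)
      have h0 : (iotL σ hσ) (L.symm a) = a := L.apply_symm_apply a
      have h2 := iotL_zero σ hσ (L.symm a)
      rw [h0] at h1 h2
      rw [ha0] at h2
      rw [hna] at h1
      have hσ0 : σ ≠ 0 := by
        intro h
        rw [h] at hσ
        norm_num at hσ
      have h3 : (L.symm a).1 = 0 := by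
        have : σ * (L.symm a).1 = 0 := by linarith
        exact (mul_eq_zero.mp this).resolve_left hσ0
      refine ⟨?_, ?_⟩
      · show 1 / 2 + (L.symm a).1 = 1 / 2
        rw [h3, add_zero]
      · rw [rsq0]
        have h4 : (mc + L.symm a).2 = (L.symm a).2 := Prod.ext (zero_add _) (zero_add _)
        rw [h4]
        rw [h3] at h1
        linarith
    · apply Subtype.ext
      show (sv.symm (L (mc + L.symm a - mc)) : E5) = (y : E5)
      rw [hm, L.apply_symm_apply, hsymm]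
      have h5 : U.symm a = w := U.symm_apply_apply w
      rw [h5, hwy, norm_smul, norm_eq_of_mem_sphere y, smul_smul, smul_smul]
      norm_num

/-! ## the straightening homeomorphism -/

theorem flat_squeeze {l : ℝ} (hl0 : 0 < l) (hl1 : l < 1) {p : R4} (hp : p ∈ flat 0) :
    mc + l • (p - mc) ∈ flat 0 ∧ ‖mc + l • (p - mc) - mc‖ ≤ l := by
  have h2 : (p - mc).1 = 0 := by
    show p.1 - 1 / 2 = 0
    rw [hp.1, sub_self]
  have h3 : (p - mc).2 = p.2 := Prod.ext (sub_zero _) (sub_zero _)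
  have h4 := hp.2
  rw [rsq0] at h4
  have hn : nsq (l • (p - mc)).2 = l ^ 2 * nsq p.2 := by
    have : (l • (p - mc)).2 = l • p.2 := by
      show l • (p - mc).2 = _
      rw [h3]
    rw [this]
    unfold nsq
    show (l * p.2.1) ^ 2 + (l • p.2.2).re ^ 2 + (l • p.2.2).im ^ 2 = _
    simp only [Complex.smul_re, Complex.smul_im, smul_eq_mul]
    ring
  constructor
  · refine ⟨?_, ?_⟩
    · show 1 / 2 + l * (p - mc).1 = 1 / 2
      rw [h2, mul_zero, add_zero]
    · rw [rsq0]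
      have h5 : (mc + l • (p - mc)).2 = (l • (p - mc)).2 := Prod.ext (zero_add _) (zero_add _)
      rw [h5, hn]
      have h6 := nsq_nonneg' p.2
      nlinarith
  · rw [add_sub_cancel_left, norm_smul, Real.norm_of_nonneg hl0.le]
    have h7 : ‖p - mc‖ ≤ 1 := by
      rw [Prod.norm_def, h2, h3, norm_zero]
      refine max_le zero_le_one ((norm_le_nsq _).trans ?_)
      rw [show (1 : ℝ) = Real.sqrt 1 by simp]
      exact Real.sqrt_le_sqrt (by linarith)
    nlinarith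

theorem core (hLOC : StLOC) (hfc : IsCompact (flat 0)) (δ c : Em) (hδ : flat 0 ⊆ δ.source)
    (hc : c.source = univ) (hct : δ '' flat 0 ⊆ c.target)
    (hLD : LD (fun p => c.symm (δ p)) mc)
    (hdet : 0 < (fderiv ℝ (fun p => c.symm (δ p)) mc).det) :
    ∃ Ψ : S4 ≃ₜ S4, ∀ p ∈ flat 0, Ψ (δ p) = c p := by
  obtain ⟨G, -, ⟨C, hC, -, hCid⟩, hev⟩ := hLOC (fun p => c.symm (δ p)) mc univ hLD hdet
    isOpen_univ isPreconnected_univ (mem_univ _) (mem_univ _)
  have hGf : Continuous fun x : R4 => G.f (1, x) :=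
    G.smooth_f.continuous.comp (continuous_const.prodMk continuous_id)
  have hGg : Continuous fun x : R4 => G.g (1, x) :=
    G.smooth_g.continuous.comp (continuous_const.prodMk continuous_id)
  let G₁ : R4 ≃ₜ R4 := ⟨⟨fun x => G.f (1, x), fun x => G.g (1, x), fun x => G.gf 1 x,
    fun x => G.fg 1 x⟩, hGf, hGg⟩
  have hG₁ : ∀ x, x ∉ C → G₁ x = x := fun x hx => hCid 1 x hx
  obtain ⟨r, hr, hball⟩ := Metric.eventually_nhds_iff.1 hev
  obtain ⟨l, hl0, hl1, hlr⟩ : ∃ l : ℝ, 0 < l ∧ l < 1 ∧ l < r :=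
    ⟨min (1 / 2) (r / 2), lt_min (by norm_num) (by linarith),
      lt_of_le_of_lt (min_le_left _ _) (by norm_num),
      lt_of_le_of_lt (min_le_right _ _) (by linarith)⟩
  obtain ⟨T, K, hK, hKs, hTid, hT⟩ := exists_squeeze δ.source δ.open_source hδ hfc l hl0 hl1
  obtain ⟨Ψ₁, h1⟩ := exists_push δ.toOpenPartialHomeomorph T K hK hKs hTid
  obtain ⟨Ψ₂, h2⟩ := exists_push c.toOpenPartialHomeomorph G₁ C hC
    (by intro x _; show x ∈ c.source; rw [hc]; exact mem_univ _) hG₁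
  obtain ⟨Ψ₃, h3⟩ := exists_push c.toOpenPartialHomeomorph T K hK
    (by intro x _; show x ∈ c.source; rw [hc]; exact mem_univ _) hTid
  refine ⟨Ψ₁.trans (Ψ₂.trans Ψ₃.symm), fun p hp => ?_⟩
  obtain ⟨hp', hpn⟩ := flat_squeeze hl0 hl1 hp
  set p' := mc + l • (p - mc) with hp'def
  have e1 : Ψ₁ (δ p) = δ p' := by
    have := h1 p (hδ hp)
    rw [hT p hp] at this
    exact this
  have e2 : Ψ₂ (δ p') = c p' := by
    have ht : δ p' ∈ c.target := hct ⟨p', hp', rfl⟩
    have e3 : c (c.symm (δ p')) = δ p' := c.toPartialEquiv.right_inv ht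
    have e4 := h2 (c.symm (δ p')) (by show _ ∈ c.source; rw [hc]; exact mem_univ _)
    have e5 : G₁ (c.symm (δ p')) = p' := hball (by
      rw [dist_eq_norm]
      exact lt_of_le_of_lt hpn hlr)
    rw [e5] at e4
    have e6 : Ψ₂ (c (c.symm (δ p'))) = c p' := e4
    rw [e3] at e6
    exact e6
  have e3 : Ψ₃ (c p) = c p' := by
    have := h3 p (by show _ ∈ c.source; rw [hc]; exact mem_univ _)
    rw [hT p hp] at this
    exact this
  show Ψ₃.symm (Ψ₂ (Ψ₁ (δ p))) = c p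
  rw [e1, e2, ← e3, Ψ₃.symm_apply_apply]

theorem mc_flat : mc ∈ flat 0 := by
  refine ⟨rfl, ?_⟩
  rw [rsq0]
  unfold nsq mc
  norm_num

/-- the reflection -/
noncomputable def Lr : R4 →L[ℝ] R4 :=
  (-(ContinuousLinearMap.id ℝ ℝ)).prodMap (ContinuousLinearMap.id ℝ R3)

theorem Lr_det : Lr.det = -1 := by
  have : (Lr : R4 →ₗ[ℝ] R4) = (-(LinearMap.id : ℝ →ₗ[ℝ] ℝ)).prodMap (LinearMap.id : R3 →ₗ[ℝ] R3) :=
    rfl
  rw [ContinuousLinearMap.det, this, LinearMap.det_prodMap, LinearMap.det_id, mul_one,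
    ← neg_one_smul ℝ (LinearMap.id : ℝ →ₗ[ℝ] ℝ), LinearMap.det_smul, LinearMap.det_id]
  simp

theorem det_ne {F : R4 → R4} {p : R4} (h : LD F p) : (fderiv ℝ F p).det ≠ 0 := by
  intro h0
  have hinj : Function.Injective (fderiv ℝ F p) := (ld_iff.1 h).2
  have h3 : LinearMap.det (fderiv ℝ F p : R4 →ₗ[ℝ] R4) = 0 := h0
  have h4 := LinearMap.bot_lt_ker_of_det_eq_zero h3
  rw [LinearMap.ker_eq_bot.2 hinj] at h4
  exact lt_irrefl _ h4

/-- **Straightening.** -/
theorem straight (hLOC : StLOC) (hfc : IsCompact (flat 0)) (δ : Em) (hδ : flat 0 ⊆ δ.source) :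
    ∃ (Ψ : S4 ≃ₜ S4) (v e : E5), ‖v‖ = 1 ∧ ‖e‖ = 1 ∧ inner ℝ v e = 0 ∧
      Ψ '' (δ '' sph 0) = {y : S4 | inner ℝ (y : E5) v = 0 ∧ inner ℝ (y : E5) e = 0} := by
  have hloc : ∀ p ∈ flat 0, IsLocalDiffeomorphAt 𝓘(ℝ, R4) (𝓡 4) ∞ δ p :=
    fun p hp => ⟨δ, hδ hp, fun _ _ => rfl⟩
  have hint := (Pool.Agent.Helper70.BI.m_EI (EuclideanSpace ℝ (Fin 4)) (EuclideanSpace ℝ (Fin 4))
    (𝓡 4) S4 δ (flat 0) hfc (fun p hp => hp.1) hloc).2
  obtain ⟨v, hv⟩ : ∃ v : S4, v ∉ δ '' flat 0 := by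
    by_contra hne
    push Not at hne
    have h1 : δ '' flat 0 = univ := eq_univ_of_forall hne
    rw [h1, interior_univ] at hint
    have h3 : (⟨EuclideanSpace.single 0 1, by simp⟩ : S4) ∈ (univ : Set S4) := mem_univ _
    rw [hint] at h3
    exact h3
  obtain ⟨s, e, he, hve, hch⟩ := exists_chart v
  have main : ∀ c : Em, c.source = univ → c.target = {v}ᶜ →
      0 < (fderiv ℝ (fun p => c.symm (δ p)) mc).det →
      c '' sph 0 = {y : S4 | inner ℝ (y : E5) (v : E5) = 0 ∧ inner ℝ (y : E5) e = 0} →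
      ∃ (Ψ : S4 ≃ₜ S4) (v e : E5), ‖v‖ = 1 ∧ ‖e‖ = 1 ∧ inner ℝ v e = 0 ∧
      Ψ '' (δ '' sph 0) = {y : S4 | inner ℝ (y : E5) v = 0 ∧ inner ℝ (y : E5) e = 0} := by
    intro c hc1 hc2 hdet hc3
    have hct : δ '' flat 0 ⊆ c.target := by
      rw [hc2]
      intro y hy hyv
      exact hv (hyv ▸ hy)
    have hLD : LD (fun p => c.symm (δ p)) mc := by
      have h1 : IsLocalDiffeomorphAt (𝓡 4) 𝓘(ℝ, R4) ∞ c.symm (δ mc) :=
        ⟨c.symm, hct ⟨mc, mc_flat, rfl⟩, fun _ _ => rfl⟩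
      exact IsLocalDiffeomorphAt.comp (hf := hloc mc mc_flat) (hg := h1)
    obtain ⟨Ψ, hΨ⟩ := core hLOC hfc δ c hδ hc1 hct hLD hdet
    refine ⟨Ψ, v, e, norm_eq_of_mem_sphere v, he, hve, ?_⟩
    rw [← hc3, image_image]
    refine image_congr fun p hp => hΨ p ⟨hp.1, hp.2.le⟩
  obtain ⟨c, hc1, hc2, hc3, hc4⟩ := hch 1 (by norm_num)
  obtain ⟨c', hc1', hc2', hc3', hc4'⟩ := hch (-1) (by norm_num)
  have hct : δ mc ∈ c.target := by
    rw [hc2]
    intro h
    exact hv ⟨mc, mc_flat, h⟩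
  have hLD : LD (fun p => c.symm (δ p)) mc := by
    have h1 : IsLocalDiffeomorphAt (𝓡 4) 𝓘(ℝ, R4) ∞ c.symm (δ mc) :=
      ⟨c.symm, hct, fun _ _ => rfl⟩
    exact IsLocalDiffeomorphAt.comp (hf := hloc mc mc_flat) (hg := h1)
  rcases lt_or_gt_of_ne (det_ne hLD) with hneg | hpos
  · refine main c' hc1' hc2' ?_ hc4'
    have heq : (fun p => c'.symm (δ p)) = fun p => mc + Lr (c.symm (δ p) - mc) := by
      funext p
      rw [hc3', hc3, add_sub_cancel_left]
      congr 1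
      refine Prod.ext ?_ rfl
      show -1 * (s (δ p) 0 / 10) = -(1 * (s (δ p) 0 / 10))
      ring
    rw [heq]
    have hd : DifferentiableAt ℝ (fun p => c.symm (δ p)) mc :=
      ((ld_iff.1 hLD).1.self_of_nhds).differentiableAt (by simp)
    have hF : HasFDerivAt (fun p => mc + Lr (c.symm (δ p) - mc))
        (Lr.comp (fderiv ℝ (fun p => c.symm (δ p)) mc)) mc := by
      have h5 : HasFDerivAt (fun p => c.symm (δ p) - mc) (fderiv ℝ (fun p => c.symm (δ p)) mc) mc :=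
        hd.hasFDerivAt.sub_const mc
      exact (Lr.hasFDerivAt.comp mc h5).const_add mc
    rw [hF.fderiv]
    have h6 : (Lr.comp (fderiv ℝ (fun p => c.symm (δ p)) mc)).det =
        Lr.det * (fderiv ℝ (fun p => c.symm (δ p)) mc).det := by
      exact LinearMap.det_comp _ _
    rw [h6, Lr_det]
    linarith
  · exact main c hc1 hc2 hpos hc4

end Pool.Agent.Helper34.BI.UNK3


end

/-! ## Helper18.BI.R.M_UNK -/

section

/-!
# Project BI, stage 4 (R), module UNK: maps of a 2-sphere to the complement of an unknotted sphere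
-/

set_option autoImplicit false

open scoped Manifold ContDiff Topology
open Set Pool.Agent.Helper65.Barb Pool.Agent.Helper18.BI
open Pool.Agent.Helper70.Fin (Emb coreSphere)

namespace Pool.Agent.Helper18.BI.R

theorem m_UNK (hLOC : Pool.Agent.Helper70.BI.StLOC) : StUNK := by
  rintro B hB ⟨δ, hδ, hδB⟩
  obtain ⟨Ψ, v, e, hv, he, hve, hΨ⟩ :=
    Pool.Agent.Helper34.BI.UNK3.straight hLOC (Pool.Agent.Helper70.BI.Fin2.isCompact_flat 0) δ hδ
  have himg : δ '' sph 0 = B '' sph 0 := image_congr hδB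
  have hsub : SP ⊆ B.source := fun p hp => hB (Pool.Agent.Helper70.BI.Fin2.SP_sub_NB hp)
  have h1 : sph 1 ⊆ B.source := fun p hp => hsub (Or.inl (Or.inr hp))
  have h0 : sph 0 ⊆ B.source := fun p hp => hsub (Or.inl (Or.inl hp))
  have hBc : ContinuousOn B (sph 1) := B.contMDiffOn_toFun.continuousOn.mono h1
  have hoffB : ∀ p ∈ sph 1, B p ∉ B '' sph 0 := by
    rintro p hp ⟨q, hq, hqp⟩
    have h2 : q = p := B.toPartialEquiv.injOn (h0 hq) (h1 hp) hqp
    have h3 := hq.2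
    have h4 := hp.2
    rw [h2] at h3
    unfold rsq nsq at h3 h4
    simp only [Prod.fst_sub, Prod.snd_sub, Complex.sub_re, Complex.sub_im] at h3 h4
    nlinarith [sq_nonneg p.2.2.re, sq_nonneg p.2.2.im, sq_nonneg (p.2.1 - 1 / 2)]
  have hoff : ∀ p ∈ sph 1, inner ℝ (Ψ (B p) : EuclideanSpace ℝ (Fin 5)) v ≠ 0 ∨
      inner ℝ (Ψ (B p) : EuclideanSpace ℝ (Fin 5)) e ≠ 0 := by
    intro p hp
    by_contra hcon
    push Not at hcon
    have h2 : Ψ (B p) ∈ Ψ '' (δ '' sph 0) := by rw [hΨ]; exact hcon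
    obtain ⟨y, hy, hye⟩ := h2
    have h3 : y = B p := Ψ.injective hye
    rw [h3, himg] at hy
    exact hoffB p hp hy
  obtain ⟨h, y, hc, hh0, hh1, hoffh⟩ := Pool.Agent.Helper34.BI.UNK2.unk2 v e hv he hve
    (fun p => Ψ (B p)) (Ψ.continuous.comp_continuousOn hBc) hoff
  refine ⟨fun x => Ψ.symm (h x), Ψ.symm y, Ψ.symm.continuous.comp_continuousOn hc, ?_, ?_, ?_⟩
  · intro p hp
    show Ψ.symm (h (0, p)) = B p
    rw [hh0 p hp, Ψ.symm_apply_apply]
  · intro p hp
    show Ψ.symm (h (1, p)) = Ψ.symm y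
    rw [hh1 p hp]
  · intro u hu p hp hmem
    rw [← himg] at hmem
    have h2 : h (u, p) ∈ Ψ '' (δ '' sph 0) := ⟨_, hmem, Ψ.apply_symm_apply _⟩
    rw [hΨ] at h2
    rcases hoffh u hu p hp with h3 | h3
    · exact h3 h2.1
    · exact h3 h2.2

end Pool.Agent.Helper18.BI.R


end
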