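import Pool.Agent.Helper65.Barb.Defs
import Pool.Agent.Helper70.BI.B.P19
import Pool.Agent.Helper70.BI.B.P23
import Pool.Agent.Helper70.BI.B.P24
import Pool.Agent.Helper70.BI.B.P29
import Pool.Agent.Helper70.BI.B.P30
import Pool.Agent.Helper70.BI.B.P32
import Pool.Agent.Helper70.BI.B.P33
import Pool.Agent.Helper70.BI.B.P38
import Pool.Agent.Helper70.BI.B.P39
import Pool.Agent.Helper70.BI.B.P40
import Pool.Agent.Helper70.BI.B.P42
import Pool.Agent.Helper70.BI.B.P43
import Pool.Agent.Helper70.BI.B.P44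
import Pool.Agent.Helper70.BI.B.P45

/-!
# Project BI (MP_8e98f2_gt): collected modules, part 46

The contents of the modules
* Helper70.BI.M_W
* Helper70.BI.M_V1
* Helper70.BI.M_MWL
* Helper70.BI.M_OBP
* Helper70.BI.M_OB1
* Helper70.BI.M_Main2
* Helper70.BI.M_X2c
* Helper34.BI.M_MRL
* Helper34.BI.M_Add2
* Helper34.BI.AsmD0
* Helper34.BI.AsmD
* Helper70.BI.M_LOC
* Helper70.BI.M_HL
* Helper70.BI.M_NF2
* Helper70.BI.AsmE0
* Helper70.BI.AsmE

in one file, so that the whole proof builds in a short time.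
-/

/-! ## Helper70.BI.M_W -/

section

/-!
# Project BI, part (E), module W: the class of theta germs
-/

set_option autoImplicit false

open scoped Manifold ContDiff Topology ComplexConjugate
open Set Filter Pool.Agent.Helper65.Barb Pool.Agent.Helper18.BI

namespace Pool.Agent.Helper70.BI

open Pool.Agent.Helper27.BI (refh refs swp IsKap StVanT StRefH StRefS StR2sw StADD2)

theorem Br.embOn {c γ e : ℝ} {F : R4 → R4} (h : Br c F γ e) : EmbOn I4 F SP :=
  ⟨fun p hp => h.loc p (Or.inl hp), h.inj⟩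

theorem m_W (hUT : StUT) (hSYM : StSYM) (hR3 : StR3) (hT2 : StT2) (hCI : StCI)
    (hRefH : StRefH) (hRefS : StRefS) (hSw : StR2sw) : StW := by
  obtain ⟨-, tii, -, tiv, -, -, tvii⟩ := hT2 R4 R4 I4 R4
  obtain ⟨-, cs, cself, ct, cc, -, cex, -, -, -⟩ := hCI R4 R4 I4 R4
  -- the symmetry `refs ∘ refh`
  have step1 : ∀ (F φ : R4 → R4) (α β e d : ℝ), Theta F α β e d →
      0 < (fderiv ℝ F (ax (1 / 2))).det → Thin I4 F φ →
      ∃ G : R4 → R4, Theta G α β (-e) (-d) ∧ 0 < (fderiv ℝ G (ax (1 / 2))).det ∧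
        Thin I4 G φ := by
    intro F φ α β e d hF o ht
    obtain ⟨φ', -, i1, i2⟩ := cex φ (tvii F φ ht)
    obtain ⟨⟨h1, -, h2⟩, -, -, -⟩ := hSYM F α β e d hF
    have t1 : Thin I4 (fun p => F (refh p)) φ' :=
      (hRefH R4 R4 I4 R4 F φ φ' hF.a.embOn i1 i2).1 ht
    obtain ⟨-, ⟨h3, h4⟩, -, -⟩ := hSYM _ α β e d h1
    have t2 : Thin I4 (fun p => F (refh (refs p))) φ :=
      (hRefS R4 R4 I4 R4 (fun p => F (refh p)) φ' φ h1.a.embOn i2 i1).1 t1
    exact ⟨_, h3, h4 (h2 o), t2⟩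
  -- uniqueness
  have uniq : ∀ (F G φ : R4 → R4) (α β α' β' e d : ℝ), (e = 1 ∨ e = -1) → (d = 1 ∨ d = -1) →
      Theta F α β e d → Theta G α' β' e d → 0 < (fderiv ℝ F (ax (1 / 2))).det →
      0 < (fderiv ℝ G (ax (1 / 2))).det → Thin I4 F φ → Thin I4 G φ := by
    intro F G φ α β α' β' e d he hd hF hG oF oG ht
    exact (hUT F G α β α' β' e d he hd hF hG oF oG φ).1 ht
  obtain ⟨F₁, F₂, α₁, α₂, β₁, β₂, W, φ₂, th1, th2, o1, o2, t1, t2, h12⟩ := hR3 1 (Or.inl rfl)
  obtain ⟨W', hW', i1, i2⟩ := cex W (tvii F₁ W t1)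
  -- `W ~ W'`
  have hWW : CIsot I4 W W' := by
    obtain ⟨G, g1, g2, g3⟩ := step1 F₁ W α₁ β₁ 1 1 th1 o1 t1
    obtain ⟨-, -, ⟨s1, s2⟩, -⟩ := hSYM F₁ α₁ β₁ 1 1 th1
    have s3 : Thin I4 (fun p => F₁ (swp p)) W' :=
      (hSw R4 R4 I4 R4 F₁ W W' th1.a.embOn i1 i2).1 t1
    have s4 : Thin I4 G W' :=
      uniq _ G W' _ _ _ _ (-1) (-1) (Or.inr rfl) (Or.inr rfl) s1 g1 (s2 o1) g2 s3
    exact tii G W W' g3 s4
  have hsq : CIsot I4 (fun x => W (W x)) (fun x => x) := by
    have h := cc W W W W' (cself W W' hWW) hWW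
    have e : (fun x => W (W' x)) = fun x => x := funext i1
    rwa [e] at h
  -- the class of `F₂`
  have t2' : Thin I4 F₂ W := by
    have h := cc _ _ W' W' h12 hW'
    have e : (fun x => φ₂ (W (W' x))) = φ₂ := funext fun x => by rw [i1]
    have h' : CIsot I4 W' φ₂ := by
      have e' : (fun x => φ₂ (W (W' x))) = φ₂ := e
      simpa [e'] using h
    exact tiv F₂ φ₂ W t2 (ct _ _ _ (cs _ _ h') (cs _ _ hWW))
  -- one positive germ for each pair of signs
  have ex : ∀ e d : ℝ, (e = 1 ∨ e = -1) → (d = 1 ∨ d = -1) → ∃ (G : R4 → R4) (α β : ℝ),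
      Theta G α β e d ∧ 0 < (fderiv ℝ G (ax (1 / 2))).det ∧ Thin I4 G W := by
    intro e d he hd
    rcases he with rfl | rfl <;> rcases hd with rfl | rfl
    · exact ⟨F₁, α₁, β₁, th1, o1, t1⟩
    · obtain ⟨G, g1, g2, g3⟩ := step1 F₂ W α₂ β₂ (-1) 1 th2 o2 t2'
      rw [neg_neg] at g1
      exact ⟨G, α₂, β₂, g1, g2, g3⟩
    · exact ⟨F₂, α₂, β₂, th2, o2, t2'⟩
    · obtain ⟨G, g1, g2, g3⟩ := step1 F₁ W α₁ β₁ 1 1 th1 o1 t1
      exact ⟨G, α₁, β₁, g1, g2, g3⟩
  -- positive germs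
  have pos : ∀ (F : R4 → R4) (α β e d : ℝ), (e = 1 ∨ e = -1) → (d = 1 ∨ d = -1) →
      Theta F α β e d → 0 < (fderiv ℝ F (ax (1 / 2))).det → Thin I4 F W := by
    intro F α β e d he hd hF o
    obtain ⟨G, α', β', g1, g2, g3⟩ := ex e d he hd
    exact uniq G F W _ _ _ _ e d he hd g1 hF g2 o g3
  refine ⟨W, F₁, α₁, β₁, th1, t1, hsq, ?_⟩
  intro F α β e d he hd hF
  obtain ⟨⟨h1, h2, -⟩, -, -, h0⟩ := hSYM F α β e d hF
  rcases lt_or_gt_of_ne h0 with hneg | hpos
  · have h3 := pos _ α β e d he hd h1 (h2 hneg)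
    have h4 : Thin I4 F W' := (hRefH R4 R4 I4 R4 F W' W hF.a.embOn i2 i1).2 h3
    exact tiv F W' W h4 (cs _ _ hWW)
  · exact pos F α β e d he hd hF hpos

end Pool.Agent.Helper70.BI


end

/-! ## Helper70.BI.M_V1 -/

section

/-!
# Project BI, part (E): module V1 (a germ which extends over the second flat ball is trivial).
-/

set_option autoImplicit false

open scoped Manifold ContDiff Topology ComplexConjugate
open Set Filter Pool.Agent.Helper65.Barb Pool.Agent.Helper18.BI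

namespace Pool.Agent.Helper70.BI

open Pool.Agent.Helper27.BI (swp StVanT StR2sw)
open Pool.Agent.Helper34.BI (swp_swp swp_mem_neck swp_mem_sph_one rsq_one_swp
  isLocalDiffeomorphAt_swp)

namespace V1

theorem sp_sub : SP ⊆ flat 1 ∪ neck ∪ sph 0 := by
  rintro p ((h | h) | h)
  · exact Or.inr h
  · exact Or.inl (Or.inl ⟨h.1, h.2.le⟩)
  · exact Or.inl (Or.inr h)

theorem swp_sub {p : R4} (h : p ∈ flat 0 ∪ sph 1 ∪ neck) : swp p ∈ flat 1 ∪ neck ∪ sph 0 := by
  rcases h with (h | h) | h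
  · exact Or.inl (Or.inl ⟨h.1, (rsq_one_swp p).le.trans h.2⟩)
  · exact Or.inr (Pool.Agent.Helper34.BI.swp_mem_sph_zero h)
  · exact Or.inl (Or.inr (swp_mem_neck h))

end V1

/-- MODULE V1. -/
theorem m_V1 (hV : StVanT) (hSw : StR2sw) : StV1 := by
  intro F hF
  have hSP : EmbOn I4 F SP := EmbOn.mono' hF V1.sp_sub
  have h1 : EmbOn I4 (fun p => F (swp p)) (flat 0 ∪ sph 1 ∪ neck) := by
    refine ⟨fun p hp => isLocalDiffeomorphAt_swp (hF.1 (swp p) (V1.swp_sub hp)), ?_⟩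
    intro p hp q hq he
    have h2 := hF.2 (V1.swp_sub hp) (V1.swp_sub hq) he
    rw [← swp_swp p, h2, swp_swp]
  have h2 : Thin I4 (fun p => F (swp p)) (fun x => x) :=
    hV R4 R4 I4 R4 (fun p => F (swp p)) h1
  exact (hSw R4 R4 I4 R4 F (fun x => x) (fun x => x) hSP (fun _ => rfl) (fun _ => rfl)).2 h2

end Pool.Agent.Helper70.BI


end

/-! ## Helper70.BI.M_MWL -/

section

/-!
# Project BI, part (E), module E-MWL: the relation `MW`, and `W` is central
-/

set_option autoImplicit false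

open scoped Manifold ContDiff Topology ComplexConjugate
open Set Filter Pool.Agent.Helper65.Barb Pool.Agent.Helper18.BI

namespace Pool.Agent.Helper70.BI

open Pool.Agent.Helper27.BI (swp StR2sw)

namespace MWL

/-- a map compactly supported isotopic to itself is smooth -/
private theorem smooth_of_cisot {φ : R4 → R4} (h : CIsot I4 φ φ) : ContMDiff I4 I4 ∞ φ := by
  obtain ⟨G, -, -, h1⟩ := h
  have e : φ = fun x => G.f (1, x) := funext fun x => (h1 x).symm
  rw [e]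
  exact contMDiff_iff_contDiff.2 ((contDiff_dfam G).comp (contDiff_prodMk_right (1 : ℝ)))

/-- theta germs composed with diffeomorphisms -/
private theorem theta_post {φ : R4 → R4} (h : CIsot I4 φ φ) {F : R4 → R4} {α β e d : ℝ}
    (hF : Theta F α β e d) : Theta (fun p => φ (F p)) α β e d := by
  obtain ⟨G, -, -, h1⟩ := h
  have e : φ = fun x => G.f (1, x) := funext fun x => (h1 x).symm
  rw [e]
  refine ⟨NF1.br_post hF.a G, NF1.br_post hF.b G, ?_, hF.ord⟩
  rw [Set.disjoint_left]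
  rintro y ⟨p, hp, rfl⟩ ⟨q, hq, he⟩
  have h2 : F q = F p := NF1.inj_dfam G he
  exact Set.disjoint_left.1 hF.dis ⟨p, hp, rfl⟩ ⟨q, hq, h2⟩

end MWL

/-- **MWL.** Properties of the relation `MW`, and `W` is central. -/
theorem m_MWL (hT2 : StT2) (hCI : StCI) (hSw : StR2sw) : StMWL := by
  intro W hW
  obtain ⟨ti, tii, tiii, -, -, tvi, tvii⟩ := hT2 R4 R4 I4 R4
  obtain ⟨-, cs, -, ct, cc, cinv, cex, -, -, -⟩ := hCI R4 R4 I4 R4
  have sw := hSw R4 R4 I4 R4
  obtain ⟨F₀, α₀, β₀, hθ, hF₀⟩ := hW.rep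
  have hWW : CIsot I4 W W := tvii F₀ W hF₀
  have hsq : ∀ ψ : R4 → R4, CIsot I4 ψ ψ → CIsot I4 (fun x => W (W (ψ x))) ψ := fun ψ hψ =>
    cc (fun x => W (W x)) (fun x => x) ψ ψ hW.sq hψ
  have hcen : ∀ φ : R4 → R4, CIsot I4 φ φ → CIsot I4 (fun x => W (φ x)) (fun x => φ (W x)) := by
    intro φ hφ
    obtain ⟨φ', hφ', h1, h2⟩ := cex φ hφ
    have a1 : Thin I4 (fun p => φ (F₀ p)) W :=
      hW.all _ α₀ β₀ 1 1 (Or.inl rfl) (Or.inl rfl) (MWL.theta_post hφ hθ)
    have a2 : Thin I4 (fun p => φ (F₀ p)) (fun x => φ (W (φ' x))) :=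
      tvi F₀ W φ φ' (MWL.smooth_of_cisot hφ) (MWL.smooth_of_cisot hφ') h1 h2 hF₀
    have a3 := tii _ _ _ a1 a2
    have a4 := cc W (fun x => φ (W (φ' x))) φ φ a3 hφ
    have a5 : (fun x => φ (W (φ' (φ x)))) = fun x => φ (W x) := funext fun x => by rw [h2]
    rwa [a5] at a4
  refine ⟨hcen, ?_, ?_, ?_, ?_, ?_, ?_⟩
  · intro F φ ψ hφ hψ
    exact Or.inl (tii F ψ φ hψ hφ)
  · intro F G h φ ψ hφ hψ
    rcases h ψ φ hψ hφ with h1 | h1
    · exact Or.inl (cs _ _ h1)
    · refine Or.inr (cs _ _ ?_)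
      exact ct _ _ _ (cc W W φ (fun x => W (ψ x)) hWW h1) (hsq ψ (tvii F ψ hψ))
  · intro F G H hG h1 h2 φ ψ hφ hψ
    obtain ⟨ε₀, hε₀, hT⟩ := ti G hG
    have hχ := hT (ε₀ / 2) ⟨by linarith, by linarith⟩
    rcases h1 φ _ hφ hχ with c1 | c1
    · rcases h2 _ ψ hχ hψ with c2 | c2
      · exact Or.inl (ct _ _ _ c2 c1)
      · exact Or.inr (ct _ _ _ c2 (cc W W _ φ hWW c1))
    · rcases h2 _ ψ hχ hψ with c2 | c2
      · exact Or.inr (ct _ _ _ c2 c1)
      · exact Or.inl (ct _ _ _ c2 (ct _ _ _ (cc W W _ (fun x => W (φ x)) hWW c1)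
          (hsq φ (tvii F φ hφ))))
  · intro J t₁ t₂ ht hs he φ ψ hφ hψ
    refine Or.inl ?_
    set a : ℝ × R4 → ℝ × R4 := fun q => (t₁ + q.1 * (t₂ - t₁), q.2) with ha
    have hac : ContDiff ℝ ∞ a :=
      (contDiff_const.add (contDiff_fst.mul contDiff_const)).prodMk contDiff_snd
    have hmem : ∀ t ∈ Icc (0 : ℝ) 1, t₁ + t * (t₂ - t₁) ∈ Icc t₁ t₂ := by
      intro t h
      constructor
      · nlinarith [h.1]
      · nlinarith [h.2]
    have hfam : FamOn I4 (fun q => J (a q)) SP := by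
      rw [famOn_iff]
      refine ⟨fun t h p hp => ?_, fun t h => he _ (hmem t h)⟩
      have h1 := hs (t₁ + t * (t₂ - t₁)) (hmem t h) p hp
      have h2 : Tendsto a (𝓝 (t, p)) (𝓝 (t₁ + t * (t₂ - t₁), p)) :=
        hac.continuous.tendsto (t, p)
      filter_upwards [h2.eventually h1] with q hq
      exact ContDiffAt.comp q hq hac.contDiffAt
    have h0 : (fun p : R4 => J (a (0, p))) = fun p => J (t₁, p) := by
      funext p; simp [ha]
    have h1 : (fun p : R4 => J (a (1, p))) = fun p => J (t₂, p) := by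
      funext p; simp [ha]
    have h2 := tiii (fun q => J (a q)) φ hfam (by rw [h0]; exact hφ)
    rw [h1] at h2
    exact tii _ _ _ hψ h2
  · intro F G hF hG h φ ψ hφ hψ
    obtain ⟨φ', -, hφ1, hφ2⟩ := cex φ (tvii F φ hφ)
    obtain ⟨ψ', -, hψ1, hψ2⟩ := cex ψ (tvii G ψ hψ)
    have b1 := (sw F φ φ' hF hφ1 hφ2).1 hφ
    have b2 := (sw G ψ ψ' hG hψ1 hψ2).1 hψ
    rcases h φ' ψ' b1 b2 with c1 | c1
    · exact Or.inl (cinv ψ' φ' ψ φ c1 hψ2 hφ2)
    · refine Or.inr ?_
      obtain ⟨W', hW', w1, w2⟩ := cex W hWW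
      have d1 : CIsot I4 ψ (fun x => φ (W' x)) :=
        cinv ψ' (fun x => W (φ' x)) ψ (fun x => φ (W' x)) c1 hψ2 fun x => by rw [hφ2, w1]
      have d2 : CIsot I4 W W' := by
        have d3 := cc W' W' (fun x => W (W x)) (fun x => x) hW' hW.sq
        have d4 : (fun x => W' (W (W x))) = W := funext fun x => w2 (W x)
        rwa [d4] at d3
      exact ct _ _ _ d1 (ct _ _ _ (cc φ φ W' W (tvii F φ hφ) (cs _ _ d2))
        (cs _ _ (hcen φ (tvii F φ hφ))))
  · intro F F' G h hFG φ ψ hφ hψ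
    exact hFG φ ψ ((h φ).2 hφ) hψ

end Pool.Agent.Helper70.BI


end

/-! ## Helper70.BI.M_OBP -/

section

/-!
# Project BI, part (E), module OBP

`StOBP`: a germ with positive orientation whose second cuff bounds a flat ball met once by the bar
has class `1` or `W`.  Assembly of the statements of section L.
-/

set_option autoImplicit false

open scoped Manifold ContDiff Topology ComplexConjugate
open Set Filter Pool.Agent.Helper65.Barb Pool.Agent.Helper18.BI

namespace Pool.Agent.Helper70.BI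

/-- Existence of a germ in normal form with the bar passing at the parameter `2/5`. -/
private theorem exists_NB (hNF1 : StNF1) (hRM : StRM) (hRG : StRG) (hNF2 : StNF2) {F : R4 → R4}
    {γ e : ℝ} (he : e = 1 ∨ e = -1) (hF : Br 1 F γ e) (hd : 0 < (fderiv ℝ F (ax (4 / 5))).det) :
    ∃ (F₁ : R4 → R4) (δ : ℝ), Eqv F F₁ ∧ NB 1 F₁ (2 / 5) e δ := by
  have h45 : (1 / 5 + 3 / 5 * 1 : ℝ) = 4 / 5 := by norm_num
  obtain ⟨F₂, G, hE, hB, ⟨τ, τs, τv, τd, τF⟩, -, hid, -, -, -, -⟩ :=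
    hNF1 1 F γ e univ (Or.inr rfl) hF (by rw [h45]; exact hd) isOpen_univ isPreconnected_univ
      (mem_univ _) (mem_univ _)
  have ce : ContinuousAt (fun a : ℝ => 1 / 2 + e * (a - 2 / 5)) (2 / 5) := by fun_prop
  have ve : (1 / 2 + e * ((2 : ℝ) / 5 - 2 / 5) : ℝ) = 1 / 2 := by ring
  have μs : ∀ᶠ a in 𝓝 (2 / 5 : ℝ), ContDiffAt ℝ ∞ (fun a => τ (1 / 2 + e * (a - 2 / 5))) a := by
    have h1 : ∀ᶠ a in 𝓝 (2 / 5 : ℝ), ContDiffAt ℝ ∞ τ (1 / 2 + e * (a - 2 / 5)) := by
      have := ce.tendsto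
      rw [ve] at this
      exact this.eventually τs
    filter_upwards [h1] with a ha
    exact ha.comp a (by fun_prop)
  have μd : 0 < deriv (fun a => τ (1 / 2 + e * (a - 2 / 5))) (2 / 5) := by
    have h1 : HasDerivAt τ (deriv τ (1 / 2)) (1 / 2 + e * ((2 : ℝ) / 5 - 2 / 5)) := by
      rw [ve]
      exact (τs.self_of_nhds.differentiableAt (by simp)).hasDerivAt
    have h2 : HasDerivAt (fun a : ℝ => 1 / 2 + e * (a - 2 / 5)) (e * 1) (2 / 5) :=
      (((hasDerivAt_id (2 / 5 : ℝ)).sub_const _).const_mul e).const_add _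
    have h3 : HasDerivAt (fun a : ℝ => τ (1 / 2 + e * (a - 2 / 5))) (deriv τ (1 / 2) * (e * 1))
        (2 / 5) := HasDerivAt.comp (2 / 5 : ℝ) h1 h2
    rw [h3.deriv]
    nlinarith [τd]
  obtain ⟨m, ms, md, mμ, η, hη, mid⟩ := hRM.1 (1 / 5) (4 / 5) (2 / 5) γ
    (fun a => τ (1 / 2 + e * (a - 2 / 5))) (by norm_num) (by norm_num) hB.mem.1 hB.mem.2 μs
    (by show τ (1 / 2 + e * ((2 : ℝ) / 5 - 2 / 5)) = γ; rw [ve, τv]) μd
  have hm : RepOK m := ⟨ms, md, η, hη, mid⟩
  obtain ⟨δ₀, hδ, hNB⟩ := hNF2 1 F₂ γ (2 / 5) e τ m (Or.inr rfl) he hB hid τv τF hm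
    ⟨by norm_num, by norm_num⟩ mμ
  have hS : EmbOn I4 F₂ SP := ⟨fun p hp => hB.loc p (Or.inl hp), hB.inj⟩
  obtain ⟨-, -, -, -, -, h6⟩ := hRG m hm
  exact ⟨fun p => F₂ (repm m p), δ₀, hE.trans (h6 F₂ hS).2, hNB δ₀ ⟨hδ, le_rfl⟩⟩

theorem m_OBP (hLAS : StLAS) (hXC : StXC) (hARL : StARL) (hFML : StFML) (hTH : StTH)
    (hLGG : StLGG) (hMWL : StMWL) (hNF1 : StNF1) (hRM : StRM) (hRG : StRG) (hNF2 : StNF2) :
    StOBP := by
  intro W F γ e hW he hF hd φ hφ
  obtain ⟨F₁, δ, hE, hNB⟩ := exists_NB hNF1 hRM hRG hNF2 he hF hd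
  obtain ⟨r, δ', F', r0, -, rδ, far, farc, hNB', hid, near, low, high⟩ :=
    hLAS F₁ e δ 1 he hNB one_pos
  have hL : LasPair F₁ F' e δ δ' r := ⟨hNB, hNB', r0, rδ, far, farc, near, low, high⟩
  obtain ⟨c, c', μ, μ0, μδ, μδ', hc, hc', hcc⟩ := hXC F₁ F' e δ δ' r he hL
  obtain ⟨δ₂, H, h1, h2, hH⟩ := hARL F₁ F' e δ δ' r μ c c' he hL μ0 μδ μδ' hc hc' hcc
  obtain ⟨J, hJ, hJ0, hJ1, e0, e1⟩ := hFML F₁ F' e δ δ' r δ₂ H he hL h1 h2 hH
  obtain ⟨-, hrefl, hsymm, htrans, hfam, -, -⟩ := hMWL W hW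
  have key : MW W (fun p => J (0, p)) (fun p => J (1, p)) :=
    hLGG (MW W) J hrefl hsymm htrans (hfam J) hJ.smooth (fun t p hp => hJ.loc t p (Or.inl hp))
      hJ.finite (fun t hn ε hε => hTH W J e t ε hW he hJ hn hε) hJ0 hJ1
  exact key (fun x => x) φ ((e0 _).1 hid) ((e1 φ).1 ((hE φ).1 hφ))

end Pool.Agent.Helper70.BI


end

/-! ## Helper70.BI.M_OB1 -/

section

/-!
# Project BI, part (E), module OB1: the class of a germ with `Br 1` is `1` or `W`
-/

set_option autoImplicit false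

open scoped Manifold ContDiff Topology ComplexConjugate
open Set Filter Pool.Agent.Helper65.Barb Pool.Agent.Helper18.BI

namespace Pool.Agent.Helper70.BI

open Pool.Agent.Helper27.BI (refh refs swp StVanT StRefH StRefS StR2sw)

namespace OB1

/-- `refh` as a linear map -/
private noncomputable def L : R4 →L[ℝ] R4 :=
  (ContinuousLinearMap.id ℝ ℝ).prodMap ((ContinuousLinearMap.id ℝ ℝ).prodMap
    (Complex.conjCLE : ℂ →L[ℝ] ℂ))

private theorem refh_eq : refh = fun p => L p := rfl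

private theorem inv (p : R4) : refh (refh p) = p := by simp [refh]

private theorem det_conj : LinearMap.det ((Complex.conjCLE : ℂ →L[ℝ] ℂ) : ℂ →ₗ[ℝ] ℂ) = -1 :=
  Complex.det_conjAe

private theorem det_L : L.det = -1 := by
  have h : (L : R4 →ₗ[ℝ] R4) = (LinearMap.id : ℝ →ₗ[ℝ] ℝ).prodMap
      ((LinearMap.id : ℝ →ₗ[ℝ] ℝ).prodMap ((Complex.conjCLE : ℂ →L[ℝ] ℂ) : ℂ →ₗ[ℝ] ℂ)) := rfl
  rw [ContinuousLinearMap.det, h, LinearMap.det_prodMap, LinearMap.det_prodMap, det_conj,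
    LinearMap.det_id]
  norm_num

private theorem det_comp' (A B : R4 →L[ℝ] R4) : (A.comp B).det = A.det * B.det := by
  rw [ContinuousLinearMap.det, ContinuousLinearMap.det, ContinuousLinearMap.det,
    ContinuousLinearMap.toLinearMap_comp, LinearMap.det_comp]

private theorem der (p : R4) : HasFDerivAt refh L p := by
  rw [refh_eq]
  exact L.hasFDerivAt

private theorem ld (p : R4) : LD refh p := by
  rw [ld_iff]
  refine ⟨Eventually.of_forall fun q => ?_, ?_⟩
  · rw [refh_eq]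
    exact L.contDiff.contDiffAt
  · rw [(der p).fderiv]
    intro x y hxy
    have h : refh x = refh y := hxy
    rw [← inv x, h, inv]

private theorem injective : Function.Injective refh := fun x y hxy => by
  rw [← inv x, hxy, inv]

private theorem rsq_h (c : ℝ) (p : R4) : rsq c (refh p) = rsq c p := by
  simp [rsq, nsq, refh]

private theorem SPm {p : R4} (hp : p ∈ SP) : refh p ∈ SP := by
  rcases hp with (hp | hp) | hp
  · exact Or.inl (Or.inl ⟨hp.1, by rw [rsq_h]; exact hp.2⟩)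
  · exact Or.inl (Or.inr ⟨hp.1, by rw [rsq_h]; exact hp.2⟩)
  · exact Or.inr ⟨hp.1, hp.2.1, hp.2.2.1, by simp [refh, hp.2.2.2]⟩

private theorem flatm {c : ℝ} {p : R4} (hp : p ∈ flat c) : refh p ∈ flat c :=
  ⟨hp.1, by rw [rsq_h]; exact hp.2⟩

private theorem sphm {c : ℝ} {p : R4} (hp : p ∈ sph c) : refh p ∈ sph c :=
  ⟨hp.1, by rw [rsq_h]; exact hp.2⟩

private theorem ax_h (a : ℝ) : refh (ax a) = ax a := by simp [refh, ax]

private theorem fd {F : R4 → R4} {p : R4} (hF : LD F (refh p)) :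
    fderiv ℝ (fun p => F (refh p)) p = (fderiv ℝ F (refh p)).comp L := by
  have h1 : DifferentiableAt ℝ F (refh p) :=
    ((ld_iff.1 hF).1.self_of_nhds).differentiableAt (by simp)
  exact (h1.hasFDerivAt.comp p (der p)).fderiv

private theorem rsq_half (c : ℝ) (x : R3) : rsq c ((1 / 2 : ℝ), x) = nsq (x - pc c) := by
  simp [rsq, pc, nsq]

private theorem br {c : ℝ} {F : R4 → R4} {γ e : ℝ} (hF : Br c F γ e) :
    Br c (fun p => F (refh p)) γ e where
  loc p hp := by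
    refine ld_comp (ld p) (hF.loc _ ?_)
    rcases hp with hp | hp
    · exact Or.inl (SPm hp)
    · exact Or.inr (flatm hp)
  inj p hp q hq he := injective (hF.inj (SPm hp) (SPm hq) he)
  injF p hp q hq he := by
    have hm : ∀ p ∈ flat c ∪ sph (1 - c), refh p ∈ flat c ∪ sph (1 - c) := by
      rintro p (hp | hp)
      · exact Or.inl (flatm hp)
      · exact Or.inr (sphm hp)
    exact injective (hF.injF (hm p hp) (hm q hq) he)
  mem := hF.mem
  cr := by
    obtain ⟨x₀, h1, h2, l, v, h3, h4⟩ := hF.cr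
    have hx₀ : ((1 / 2 : ℝ), x₀) ∈ flat c := ⟨rfl, by rw [rsq_half]; exact h1.le⟩
    have e2 : refh (1 / 2, (refh (1 / 2, x₀)).2) = (1 / 2, x₀) := inv (1 / 2, x₀)
    refine ⟨(refh (1 / 2, x₀)).2, ?_, ?_, (L (l, v)).1, (L (l, v)).2, ?_, ?_⟩
    · have e4 : rsq c ((1 / 2 : ℝ), (refh (1 / 2, x₀)).2) = rsq c ((1 / 2 : ℝ), x₀) :=
        rsq_h c (1 / 2, x₀)
      rw [← rsq_half, e4, rsq_half]
      exact h1
    · change F (refh (ax γ)) = F (refh (1 / 2, (refh (1 / 2, x₀)).2))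
      rw [ax_h, e2]
      exact h2
    · exact h3
    · have hg : ax γ ∈ SP := Or.inr ⟨rfl, hF.mem.1.le, hF.mem.2.le, rfl⟩
      rw [fd (p := ax γ) (by rw [ax_h]; exact hF.loc _ (Or.inl hg)),
        fd (p := (1 / 2, (refh (1 / 2, x₀)).2)) (by rw [e2]; exact hF.loc _ (Or.inr hx₀)), ax_h,
        e2]
      simp only [ContinuousLinearMap.comp_apply, Prod.mk.eta]
      have e5 : L (L (l, v)) = (l, v) := inv (l, v)
      have e6 : L ((0 : ℝ), ((1 : ℝ), (0 : ℂ))) = ((0 : ℝ), ((1 : ℝ), (0 : ℂ))) := by simp [L]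
      rw [e5, e6]
      exact h4
  only a ha hmem := by
    refine hF.only a ha ?_
    obtain ⟨p, hp, he⟩ := hmem
    refine ⟨refh p, flatm hp, ?_⟩
    have : F (refh p) = F (refh (ax a)) := he
    rw [this, ax_h]
    rfl

end OB1

open OB1 in
theorem m_OB1 (hOBP : StOBP) (hRefH : StRefH) (hT2 : StT2) (hCI : StCI) : StOB1 := by
  intro W F γ e hW he hF φ hφ
  obtain ⟨-, -, -, -, -, -, tvii⟩ := hT2 R4 R4 I4 R4
  obtain ⟨-, cs, -, ct, cc, ci, cex, -, -, -⟩ := hCI R4 R4 I4 R4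
  have h0 : ax (4 / 5) ∈ SP := Or.inr ⟨rfl, by norm_num [ax], by norm_num [ax], rfl⟩
  have hld : LD F (ax (4 / 5)) := hF.loc _ (Or.inl h0)
  have hne : (fderiv ℝ F (ax (4 / 5))).det ≠ 0 := by
    intro h
    have h1 : LinearMap.det ((fderiv ℝ F (ax (4 / 5)) : R4 →L[ℝ] R4) : R4 →ₗ[ℝ] R4) = 0 := h
    have h2 := LinearMap.bot_lt_ker_of_det_eq_zero h1
    rw [LinearMap.ker_eq_bot.2 (ld_iff.1 hld).2] at h2
    exact lt_irrefl _ h2
  rcases lt_or_gt_of_ne hne with hneg | hpos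
  · obtain ⟨φ', -, i1, i2⟩ := cex φ (tvii F φ hφ)
    have t1 : Thin I4 (fun p => F (refh p)) φ' :=
      (hRefH R4 R4 I4 R4 F φ φ' ⟨fun p hp => hF.loc p (Or.inl hp), hF.inj⟩ i1 i2).1 hφ
    have hd : 0 < (fderiv ℝ (fun p => F (refh p)) (ax (4 / 5))).det := by
      rw [fd (by rw [ax_h]; exact hld), det_comp', det_L, ax_h]
      linarith
    rcases hOBP W _ γ e hW he (br hF) hd φ' t1 with h | h
    · exact Or.inl (ci φ' (fun x => x) φ (fun x => x) h i2 (fun x => rfl))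
    · right
      obtain ⟨F₀, α₀, β₀, -, hr⟩ := hW.rep
      obtain ⟨W', hW', j1, j2⟩ := cex W (tvii F₀ W hr)
      have h1 : CIsot I4 φ W' := ci φ' W φ W' h i2 j1
      have h2 := cc _ _ W' W' hW.sq hW'
      have h3 : (fun x => W (W (W' x))) = W := funext fun x => by rw [j1]
      have h4 : CIsot I4 W W' := by
        have h5 : CIsot I4 (fun x => W (W (W' x))) W' := h2
        rwa [h3] at h5
      exact ct _ _ _ h1 (cs _ _ h4)
  · exact hOBP W F γ e hW he hF hpos φ hφ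

end Pool.Agent.Helper70.BI


end

/-! ## Helper70.BI.M_Main2 -/

section

/-!
# Project BI, part (E): the main theorem of stage 2 for `R4`
-/

set_option autoImplicit false

open scoped Manifold ContDiff Topology ComplexConjugate
open Set Filter Pool.Agent.Helper65.Barb Pool.Agent.Helper18.BI

namespace Pool.Agent.Helper70.BI

open Pool.Agent.Helper34.BI (BarData barFam PreCross BFam GenData StCH StCO exists_arcFamily
  finrank_R4 neck_eq swp_swp swp_mem_SP)
open Pool.Agent.Helper27.BI (swp)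

namespace Main2

/-- one crossing with the first cuff -/
theorem crossing (hOB0 : StOB0) (hCRP : StCRP) (hMWL : StMWL) (hT2 : StT2) {W : R4 → R4}
    (hW : IsW W) {J : ℝ × R4 → R4} {t₀ u₀ : ℝ} {p₀ : R4} (hp : PreCross J t₀ u₀ p₀) {ε : ℝ}
    (hε : 0 < ε) :
    ∃ t₁ ∈ Ioo (t₀ - ε) t₀, ∃ t₂ ∈ Ioo t₀ (t₀ + ε), EmbOn I4 (fun p => J (t₁, p)) SP ∧
      EmbOn I4 (fun p => J (t₂, p)) SP ∧ MW W (fun p => J (t₁, p)) (fun p => J (t₂, p)) := by
  obtain ⟨ti, -, -, -, -, -, tvii⟩ := hT2 R4 R4 𝓘(ℝ, R4) R4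
  obtain ⟨-, -, -, ct, cc, -, -, -, -, -⟩ := m_CI R4 R4 𝓘(ℝ, R4) R4
  obtain ⟨-, -, hsymm, -, -, -, -⟩ := hMWL W hW
  obtain ⟨t₁, ht₁, t₂, ht₂, e₁, e₂, t', t'', hor, O, α, e, -, he, hBr, -, -, -, hcl⟩ :=
    hCRP J t₀ u₀ p₀ hp ∅ isCompact_empty (empty_disjoint _) ε hε
  refine ⟨t₁, ht₁, t₂, ht₂, e₁, e₂, ?_⟩
  have hO : EmbOn I4 O SP := ⟨fun p hp => hBr.loc p (Or.inl hp), hBr.inj⟩
  obtain ⟨ε₀, hε₀, hT⟩ := ti O hO
  have hn := hT (ε₀ / 2) ⟨by linarith, by linarith⟩
  have hmw : MW W (fun p => J (t'', p)) (fun p => J (t', p)) := by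
    intro φ'' φ' h'' h'
    have h1 := hcl φ' φ'' _ h' h'' hn
    have h2 := tvii _ φ'' h''
    rcases hOB0 W O α e hW he hBr _ hn with h3 | h3
    · left
      exact ct _ _ _ h1 (cc _ (fun x => x) φ'' φ'' h3 h2)
    · right
      exact ct _ _ _ h1 (cc _ W φ'' φ'' h3 h2)
  rcases hor with ⟨ha, hb⟩ | ⟨ha, hb⟩
  · subst ha hb
    exact hsymm _ _ hmw
  · subst ha hb
    exact hmw

/-- a germ is embedded if the swapped germ is -/
theorem embOn_of_swp {F : R4 → R4} (hl : ∀ p ∈ SP, LD F p)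
    (h : EmbOn I4 (fun p => F (swp p)) SP) : EmbOn I4 F SP := by
  refine ⟨hl, ?_⟩
  intro p hp q hq he
  have h1 := h.2 (swp_mem_SP hp) (swp_mem_SP hq) (by simpa only [swp_swp] using he)
  rw [← swp_swp p, h1, swp_swp]

/-- the family of germs -/
theorem family (hOB0 : StOB0) (hCRP : StCRP) (hMWL : StMWL) (hLGG : StLGG) (hT2 : StT2)
    {W : R4 → R4} (hW : IsW W) {J : ℝ × R4 → R4} (hJ : BFam J)
    (h0 : EmbOn I4 (fun p => J (0, p)) SP) (h1 : EmbOn I4 (fun p => J (1, p)) SP) :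
    MW W (fun p => J (0, p)) (fun p => J (1, p)) := by
  obtain ⟨-, hrefl, hsymm, htrans, hfam, hswp, -⟩ := hMWL W hW
  refine hLGG (MW W) J hrefl hsymm htrans (fun t₁ t₂ => hfam J t₁ t₂) hJ.smooth hJ.loc hJ.finite
    ?_ h0 h1
  intro t ht ε hε
  rcases hJ.cross t ht with ⟨u, p, hp⟩ | ⟨u, p, hp⟩
  · exact crossing hOB0 hCRP hMWL hT2 hW hp hε
  · obtain ⟨t₁, ht₁, t₂, ht₂, e₁, e₂, hmw⟩ := crossing hOB0 hCRP hMWL hT2 hW hp hε
    have e₁' : EmbOn I4 (fun p => J (t₁, p)) SP := embOn_of_swp (hJ.loc t₁) e₁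
    have e₂' : EmbOn I4 (fun p => J (t₂, p)) SP := embOn_of_swp (hJ.loc t₂) e₂
    exact ⟨t₁, ht₁, t₂, ht₂, e₁', e₂', hswp _ _ e₁' e₂' hmw⟩

/-- the construction of the family (as in `Pool/Agent/Helper34/BI/Main.lean`) -/
theorem exists_family (hCH : StCH) (hCO : StCO) (hFr : StFr) {F F' : R4 → R4} {U : Set R4}
    (hF : EmbOn 𝓘(ℝ, R4) F SP) (hF' : EmbOn 𝓘(ℝ, R4) F' SP) (hU : IsOpen U)
    (hs : sph 0 ∪ sph 1 ⊆ U) (he : EqOn F F' U) :
    ∃ J : ℝ × R4 → R4, BFam J ∧ (fun p => J (0, p)) = F ∧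
      EmbOn 𝓘(ℝ, R4) (fun p => J (1, p)) SP ∧
      ∀ φ, Thin 𝓘(ℝ, R4) (fun p => J (1, p)) φ ↔ Thin 𝓘(ℝ, R4) F' φ := by
  obtain ⟨c₀, c₁, δ, hδ, hδ2, s₀, s₁, core, hfr, imm⟩ := hCO F F' U hF hF' hU hs he
  obtain ⟨charts, -, -, -, hcrv, -, -⟩ := hCH F hF
  have ha : (1 / 5 : ℝ) ∈ Icc (1 / 5 : ℝ) (4 / 5) := by norm_num
  have hb : (4 / 5 : ℝ) ∈ Icc (1 / 5 : ℝ) (4 / 5) := by norm_num
  rw [(core _ ha).1, (core _ hb).1] at charts
  have inj₁ : InjOn c₁ (Icc (1 / 5) (4 / 5)) := by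
    intro a ha b hb h
    rw [← (core a ha).2, ← (core b hb).2] at h
    have := hF'.2 (Or.inr (Pool.Agent.Helper34.BI.mem_neck ha.1 ha.2))
      (Or.inr (Pool.Agent.Helper34.BI.mem_neck hb.1 hb.2)) h
    exact congrArg (fun p : R4 => p.2.1) this
  have inj₀ : InjOn c₀ (Icc (1 / 5) (4 / 5)) := by
    intro a ha b hb h
    rw [← (core a ha).1, ← (core b hb).1] at h
    have := hF.2 (Or.inr (Pool.Agent.Helper34.BI.mem_neck ha.1 ha.2))
      (Or.inr (Pool.Agent.Helper34.BI.mem_neck hb.1 hb.2)) h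
    exact congrArg (fun p : R4 => p.2.1) this
  have dis : ∀ (K : R4 → R4), EmbOn 𝓘(ℝ, R4) K SP → ∀ a ∈ Ioo (1 / 5 : ℝ) (4 / 5),
      K (1 / 2, a, 0) ∉ K '' (sph 0 ∪ sph 1) := by
    rintro K hK a ha ⟨p, hp, he⟩
    have := hK.2 (Or.inl hp) (Or.inr (Pool.Agent.Helper34.BI.mem_neck ha.1.le ha.2.le)) he
    subst this
    rcases hp with hp | hp
    · have := Pool.Agent.Helper34.BI.sph_zero_le hp
      simp only at this
      linarith [ha.1]
    · have := Pool.Agent.Helper34.BI.le_sph_one hp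
      simp only at this
      linarith [ha.2]
  have hA : F '' (sph 0 ∪ sph 1) = F' '' (sph 0 ∪ sph 1) := image_congr fun p hp => he (hs hp)
  have dis₀ : ∀ a ∈ Ioo (1 / 5 : ℝ) (4 / 5), c₀ a ∉ F '' (sph 0 ∪ sph 1) := by
    intro a ha
    rw [← (core a ⟨ha.1.le, ha.2.le⟩).1]
    exact dis F hF a ha
  have dis₁ : ∀ a ∈ Ioo (1 / 5 : ℝ) (4 / 5), c₁ a ∉ F '' (sph 0 ∪ sph 1) := by
    intro a ha
    rw [← (core a ⟨ha.1.le, ha.2.le⟩).2, hA]
    exact dis F' hF' a ha
  obtain ⟨H, hH, avoid, -⟩ := exists_arcFamily (κ := Bool)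
    (g := fun b θ => F (Pool.Agent.Helper34.BI.crv b θ))
    finrank_R4 (Complex.finrank_real_complex) hcrv hδ (by linarith) s₀ s₁ hfr
    inj₀ inj₁ (fun u hu => (imm u hu).1) (fun u hu => (imm u hu).2) charts dis₀ dis₁ one_pos
  have G : GenData F c₀ c₁ δ H := {
    emb := hF
    pos := hδ
    small := hδ2
    smooth₀ := s₀
    core := fun a ha => (core a ha).1
    inj₁ := inj₁
    imm₀ := fun u hu => (imm u hu).1
    imm₁ := fun u hu => (imm u hu).2
    dis₁ := dis₁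
    arcs := hH
    avoid := avoid }
  have hJ0 : (fun p => barFam F c₀ H δ (0, p)) = F := by
    funext p
    have e1 : H (0, p.2.1) = c₀ p.2.1 := hH.start 0 _ le_rfl
    have e2 : fderiv ℝ H (0, p.2.1) (0, 1) = deriv c₀ p.2.1 := by
      rw [← (G.hasDeriv 0 p.2.1).deriv]
      have e : (fun r => H (0, r)) = c₀ := funext fun r => hH.start 0 r le_rfl
      rw [e]
    simp only [barFam, Pool.Agent.Helper34.BI.thick, Pool.Agent.Helper34.BI.thickB, e1, e2,
      sub_self, map_zero, ContinuousLinearMap.zero_comp,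
      ContinuousLinearMap.zero_apply, add_zero, smul_zero]
  have emb1 : EmbOn 𝓘(ℝ, R4) (fun p => barFam F c₀ H δ (1, p)) SP := by
    refine G.bar.embOn (G.imm 1) G.injF (G.injH 1) ?_
    intro a ha
    rw [hH.stop 1 a le_rfl]
    exact dis₁ a ha
  have hU' : IsOpen (U ∩ {p : R4 | p.2.1 < 1 / 5 + δ / 2 ∨ 4 / 5 - δ / 2 < p.2.1}) := by
    have hcont : Continuous (fun q : R4 => q.2.1) := by fun_prop
    exact hU.inter ((isOpen_lt hcont continuous_const).union (isOpen_lt continuous_const hcont))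
  refine ⟨barFam F c₀ H δ, G.bfam hCH, hJ0, emb1, ?_⟩
  refine hFr _ F' _ emb1 hF' hU' ?_ ?_ ?_
  · intro p hp
    refine ⟨hs hp, ?_⟩
    rcases hp with hp | hp
    · exact Or.inl (by linarith [Pool.Agent.Helper34.BI.sph_zero_le hp])
    · exact Or.inr (by linarith [Pool.Agent.Helper34.BI.le_sph_one hp])
  · rintro p ⟨hp1, hp2⟩
    show barFam F c₀ H δ (1, p) = F' p
    rw [G.bar.barFam_eq (hp2.imp le_of_lt le_of_lt)]
    exact he hp1
  · intro p hp
    show barFam F c₀ H δ (1, p) = F' p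
    rw [neck_eq hp, G.bar.barFam_neck hp.2.1 hp.2.2.1, hH.stop 1 _ le_rfl,
      (core _ ⟨hp.2.1, hp.2.2.1⟩).2]

end Main2

theorem m_Main2 (hOB0 : StOB0) (hCRP : StCRP) (hMWL : StMWL) (hLGG : StLGG)
    (hCH : Pool.Agent.Helper34.BI.StCH) (hCO : Pool.Agent.Helper34.BI.StCO) (hFr : StFr)
    (hT2 : StT2) : StMain2 := by
  intro W F F' φ φ' U hW hF hF' hU hs he hφ hφ'
  obtain ⟨J, hJ, hJ0, h1, hT⟩ := Main2.exists_family hCH hCO hFr hF hF' hU hs he
  have h0 : EmbOn I4 (fun p => J (0, p)) SP := by rw [hJ0]; exact hF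
  have h := Main2.family hOB0 hCRP hMWL hLGG hT2 hW hJ h0 h1
  rw [hJ0] at h
  exact h φ φ' hφ ((hT φ').2 hφ')

end Pool.Agent.Helper70.BI


end

/-! ## Helper70.BI.M_X2c -/

section

/-!
# Project BI, stage 2, module X2c: a chart of the 4-sphere containing a given compact set
-/

set_option autoImplicit false

open scoped Manifold ContDiff Topology ComplexConjugate
open Set Filter Pool.Agent.Helper65.Barb Pool.Agent.Helper18.BI

namespace Pool.Agent.Helper70.BI

theorem m_X2c : StX2c := by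
  intro K _ hK
  obtain ⟨v, hv⟩ : ∃ v : S4, v ∉ K := by
    by_contra hne
    push Not at hne
    have h1 : K = univ := eq_univ_of_forall hne
    rw [h1, interior_univ] at hK
    have h3 : (⟨EuclideanSpace.single 0 1, by simp⟩ : S4) ∈ (univ : Set S4) := mem_univ _
    rw [hK] at h3
    exact h3
  obtain ⟨e⟩ := X2.exists_equiv
  have : Fact (Module.finrank ℝ (EuclideanSpace ℝ (Fin 5)) = 4 + 1) := ⟨by simp⟩
  have hsrc : (chartAt (EuclideanSpace ℝ (Fin 4)) (-v : S4)).source = {v}ᶜ := by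
    change (stereographic' 4 (- -v)).source = _
    rw [neg_neg, stereographic'_source]
  have htgt : (chartAt (EuclideanSpace ℝ (Fin 4)) (-v : S4)).target = univ := by
    change (stereographic' 4 (- -v)).target = _
    rw [stereographic'_target]
  have hs1 : ContMDiffOn (𝓡 4) (𝓡 4) ∞ (chartAt (EuclideanSpace ℝ (Fin 4)) (-v : S4))
      (chartAt (EuclideanSpace ℝ (Fin 4)) (-v : S4)).source := contMDiffOn_chart
  have hs2 : ContMDiffOn (𝓡 4) (𝓡 4) ∞ (chartAt (EuclideanSpace ℝ (Fin 4)) (-v : S4)).symm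
      (chartAt (EuclideanSpace ℝ (Fin 4)) (-v : S4)).target := contMDiffOn_chart_symm
  generalize chartAt (EuclideanSpace ℝ (Fin 4)) (-v : S4) = ch at hsrc htgt hs1 hs2
  have he : ContMDiff 𝓘(ℝ, R4) (𝓡 4) ∞ e := e.contDiff.contMDiff
  have he' : ContMDiff (𝓡 4) 𝓘(ℝ, R4) ∞ e.symm := e.symm.contDiff.contMDiff
  let δ : PartialDiffeomorph 𝓘(ℝ, R4) (𝓡 4) R4 S4 ∞ :=
    { toFun := fun p => ch.symm (e p)
      invFun := fun y => e.symm (ch y)
      source := univ
      target := ch.source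
      map_source' := fun p _ => ch.map_target (by rw [htgt]; exact mem_univ _)
      map_target' := fun y _ => mem_univ _
      left_inv' := fun p _ => by
        rw [ch.right_inv (by rw [htgt]; exact mem_univ _), e.symm_apply_apply]
      right_inv' := fun y hy => by
        rw [e.apply_symm_apply, ch.left_inv hy]
      open_source := isOpen_univ
      open_target := ch.open_source
      contMDiffOn_toFun := hs2.comp he.contMDiffOn (fun p _ => by rw [htgt]; exact mem_univ _)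
      contMDiffOn_invFun := he'.comp_contMDiffOn hs1 }
  have hr : ∀ y, y ≠ v → y ∈ range (fun p => ch.symm (e p)) := by
    intro y hy
    refine ⟨e.symm (ch y), ?_⟩
    change ch.symm (e (e.symm (ch y))) = y
    rw [e.apply_symm_apply, ch.left_inv (by rw [hsrc]; exact hy)]
  refine ⟨fun p => ch.symm (e p), ⟨fun p _ => ⟨δ, mem_univ _, fun _ _ => rfl⟩, δ.injOn⟩, ?_⟩
  intro y hy
  exact hr y (fun hyv => hv (hyv ▸ hy))

end Pool.Agent.Helper70.BI


end

/-! ## Helper34.BI.M_MRL -/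

section

/-!
# Project BI: module MRL (the relation `MR`)
-/

set_option autoImplicit false

open Module Set Filter Topology
open scoped ContDiff Manifold ComplexConjugate
open Pool.Agent.Helper65.Barb Pool.Agent.Helper18.BI Pool.Agent.Helper27.BI

namespace Pool.Agent.Helper34.BI

theorem m_MRL (t2 : StT2) (n1 : StN1) (ci : StCI) (sw : StSwap) : StMRL := by
  obtain ⟨ti, tii, tiii, tiv, -, -, tvii⟩ := t2 R4 R4 𝓘(ℝ, R4) R4
  obtain ⟨na, -, nc⟩ := n1 R4 R4 𝓘(ℝ, R4) R4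
  obtain ⟨-, cs, -, ct, cc, cinv, cex, -, -, -⟩ := ci R4 R4 𝓘(ℝ, R4) R4
  refine ⟨?_, ?_, ?_, ?_, ?_, ?_⟩
  · intro F φ ψ hφ hψ
    exact ⟨fun x => x, InN.one, tii F ψ φ hψ hφ⟩
  · intro F G h φ ψ hφ hψ
    obtain ⟨n, hn, hc⟩ := h ψ φ hψ hφ
    obtain ⟨n', hn', h1, h2⟩ := cex n (na n hn)
    refine ⟨n', InN.inv n n' hn h1 h2, cs _ _ ?_⟩
    have h3 := cc n' n' φ (fun x => n (ψ x)) hn' hc
    have h4 : (fun x => n' (n (ψ x))) = ψ := funext fun x => h2 (ψ x)
    rwa [h4] at h3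
  · intro F G H hG h1 h2 φ ψ hφ hψ
    obtain ⟨ε₀, hε₀, hT⟩ := ti G hG
    have hχ := hT (ε₀ / 2) ⟨by linarith, by linarith⟩
    obtain ⟨m₁, hm₁, hc₁⟩ := h1 φ _ hφ hχ
    obtain ⟨m₂, hm₂, hc₂⟩ := h2 _ ψ hχ hψ
    exact ⟨fun x => m₂ (m₁ x), InN.mul m₂ m₁ hm₂ hm₁,
      ct _ _ _ hc₂ (cc m₂ m₂ _ _ (na m₂ hm₂) hc₁)⟩
  · intro J t₁ t₂ ht hs he φ ψ hφ hψ
    refine ⟨fun x => x, InN.one, ?_⟩
    set a : ℝ × R4 → ℝ × R4 := fun q => (t₁ + q.1 * (t₂ - t₁), q.2) with ha
    have hac : ContDiff ℝ ∞ a :=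
      (contDiff_const.add (contDiff_fst.mul contDiff_const)).prodMk contDiff_snd
    have hmem : ∀ t ∈ Icc (0 : ℝ) 1, t₁ + t * (t₂ - t₁) ∈ Icc t₁ t₂ := by
      intro t h
      constructor
      · nlinarith [h.1]
      · nlinarith [h.2]
    have hfam : FamOn 𝓘(ℝ, R4) (fun q => J (a q)) SP := by
      refine ⟨⟨{q | ∀ᶠ q' in 𝓝 q, ContDiffAt ℝ ∞ (fun q => J (a q)) q'},
        isOpen_setOfPred_eventually_nhds, ?_, ?_⟩, ?_⟩
      · rintro ⟨t, p⟩ ⟨h, hp⟩
        have h1 := hs (t₁ + t * (t₂ - t₁)) (hmem t h) p hp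
        have h2 : Tendsto a (𝓝 (t, p)) (𝓝 (t₁ + t * (t₂ - t₁), p)) :=
          hac.continuous.tendsto (t, p)
        filter_upwards [h2.eventually h1] with q hq
        exact ContDiffAt.comp q hq hac.contDiffAt
      · rw [contMDiffOn_iff_contDiffOn]
        intro q hq
        exact (Filter.Eventually.self_of_nhds hq).contDiffWithinAt
      · intro t h
        exact he _ (hmem t h)
    have h0 : (fun p : R4 => J (a (0, p))) = fun p => J (t₁, p) := by
      funext p; simp [ha]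
    have h1 : (fun p : R4 => J (a (1, p))) = fun p => J (t₂, p) := by
      funext p; simp [ha]
    have h2 := tiii (fun q => J (a q)) φ hfam (by rw [h0]; exact hφ)
    rw [h1] at h2
    exact tii _ _ _ hψ h2
  · intro F G hF hG h φ ψ hφ hψ
    obtain ⟨φ', -, hφ1, hφ2⟩ := cex φ (tvii F φ hφ)
    obtain ⟨ψ', -, hψ1, hψ2⟩ := cex ψ (tvii G ψ hψ)
    obtain ⟨n, hn, hc⟩ := h φ' ψ' (sw F φ φ' hF hφ1 hφ2 hφ) (sw G ψ ψ' hG hψ1 hψ2 hψ)
    obtain ⟨m, hm, hm1, hm2⟩ := cex n (na n hn)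
    have hmN : InN 𝓘(ℝ, R4) m := InN.inv n m hn hm1 hm2
    have h3 : CIsot 𝓘(ℝ, R4) ψ (fun x => φ (m x)) :=
      cinv ψ' (fun x => n (φ' x)) ψ (fun x => φ (m x)) hc hψ2
        (fun x => by rw [hφ2, hm1])
    obtain ⟨n', hn', he⟩ := nc φ m hmN (tvii F φ hφ)
    refine ⟨n', hn', ?_⟩
    have h4 : (fun x => φ (m x)) = fun x => n' (φ x) := funext he
    rwa [h4] at h3
  · intro F F' G h hFG φ ψ hφ hψ
    exact hFG φ ψ ((h φ).2 hφ) hψ

end Pool.Agent.Helper34.BI


end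

/-! ## Helper34.BI.M_Add2 -/

section

/-!
# Project BI: the interface to part (C)
-/

set_option autoImplicit false

open Module Set Filter Topology
open scoped ContDiff Manifold ComplexConjugate
open Pool.Agent.Helper65.Barb Pool.Agent.Helper18.BI Pool.Agent.Helper27.BI

namespace Pool.Agent.Helper34.BI

theorem m_Add2 (h : StADD2) : StAdd2 := by
  intro x₂ h1 h2
  obtain ⟨r, k₁, k₂, hr, hr2, -, kap1, kap2, hoff, haxis, ht1, ht2, hadd⟩ := h x₂ h1 h2
  refine ⟨r, k₁, k₂, hr, by linarith, ?_, haxis, fun p hp => ⟨kap1.away p hp, kap2.away p hp⟩,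
    fun p => ⟨ht1 p, ht2 p⟩, ?_⟩
  · rintro k (rfl | rfl)
    · exact ⟨kap1.emb, kap1.fst, kap1.ball, fun p hp => (hoff p hp).1, kap1.small⟩
    · exact ⟨kap2.emb, kap2.fst, kap2.ball, fun p hp => (hoff p hp).2, kap2.small⟩
  · intro E _ _ H _ I M _ _ _ F hF
    exact hadd E H I M F hF

theorem m_Swap (h : StR2sw) : StSwap := by
  intro F φ φ' hF h1 h2 hT
  exact (h R4 R4 𝓘(ℝ, R4) R4 F φ φ' hF h1 h2).1 hT

end Pool.Agent.Helper34.BI


end

/-! ## Helper34.BI.AsmD0 -/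

section

/-!
# Project BI: parts (B) and (D), assembled (without the charts of the cuffs)
-/

set_option autoImplicit false

open Pool.Agent.Helper18.BI Pool.Agent.Helper27.BI

namespace Pool.Agent.Helper34.BI

theorem hRE : StRE := m_RE
theorem hRC : StRC := m_RC
theorem hAdd2 : StAdd2 := m_Add2 hADD2
theorem hSwap : StSwap := m_Swap hR2sw
theorem hD2a : StD2a := m_D2a hRE hAdd2 hImp hCI hS3 hS4 hT2 hT3 hT5 hT6
theorem hD2b : StD2b := m_D2b hRE hRC hT2
theorem hD2 : StD2 := m_D2 hRE hT2 hN1 hCI hD2a hD2b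
theorem hD2aP : StD2aP := m_D2aP hRE hADD2 hImp hCI hS3 hS4 hT2 hT3 hT5 hT6
theorem hD1a : StD1a := m_D1a
theorem hD1aP : StD1aP := m_D1aP
theorem hD1b : StD1b := m_D1b
theorem hShr : StShr := m_Shr hT2
theorem hMRL : StMRL := m_MRL hT2 hN1 hCI hSwap
theorem hCR : StCR := m_CR hShr hD1a hD1b hD2 hMRL
theorem hLG : StLG := m_LG hMRL hCR
theorem hCO : StCO := m_CO
theorem hCRP : Pool.Agent.Helper70.BI.StCRP := m_CRP hRE hT2 hCI hD1aP hD1b hD2aP hD2b

/-- stage 1, from the charts of the cuffs -/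
theorem hMain_of (hCH : StCH) : StMain := stMain_of hCH hCO hLG hFr

end Pool.Agent.Helper34.BI


end

/-! ## Helper34.BI.AsmD -/

section

/-!
# Project BI: stage 1 (bar independence modulo `N`), unconditionally
-/

set_option autoImplicit false

open Pool.Agent.Helper18.BI Pool.Agent.Helper27.BI

namespace Pool.Agent.Helper34.BI

theorem hCH : StCH := m_CH
theorem hMain : StMain := hMain_of hCH

end Pool.Agent.Helper34.BI


end

/-! ## Helper70.BI.M_LOC -/

section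

/-!
# Project BI, part (E), module LOC: a germ of an orientation preserving diffeomorphism is undone by
an isotopy with small support
-/

set_option autoImplicit false

open scoped Manifold ContDiff Topology ComplexConjugate
open Set Filter Pool.Agent.Helper65.Barb Pool.Agent.Helper18.BI

namespace Pool.Agent.Helper70.BI

namespace LOC

/-- The linear germ `y ↦ z + A (y - z)` is realized, for `0 < det A`. -/
theorem linGerm (hSM : StSM) (hTR : StTR) (hGL : StGL) (A : R4 →L[ℝ] R4) (hA : 0 < A.det) :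
    ∀ (U : Set R4) (z : R4), IsOpen U → z ∈ U → RealG U z (fun y => z + A (y - z)) := by
  refine hGL R4 (fun A => ∀ (U : Set R4) (z : R4), IsOpen U → z ∈ U →
    RealG U z (fun y => z + A (y - z))) ?_ ?_ A hA
  · intro A B hPA hPB U z hU hz
    have h1 := hPB U z hU hz
    have e1 : (fun y : R4 => z + B (y - z)) z = z := by simp
    have h2 : RealG U ((fun y : R4 => z + B (y - z)) z) (fun y => z + A (y - z)) := by
      rw [e1]; exact hPA U z hU hz
    have hc : ContinuousAt (fun y : R4 => z + B (y - z)) z := by fun_prop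
    have h3 := (hTR R4).1 U z _ _ h1 h2 hc
    have e2 : (fun y : R4 => (fun y => z + A (y - z)) ((fun y : R4 => z + B (y - z)) y)) =
        fun y => z + (A.comp B) (y - z) := by
      funext y
      simp
    rw [e2] at h3
    exact h3
  · obtain ⟨c, hc, h⟩ := hSM R4
    refine ⟨c, hc, fun A hA U z hU hz => ?_⟩
    apply h U z _ hU hz
    · refine Filter.Eventually.of_forall fun y => ?_
      exact (contDiff_const.add (A.contDiff.comp (contDiff_id.sub contDiff_const))).contDiffAt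
    · simp
    · have e3 : HasFDerivAt (fun y : R4 => z + A (y - z)) A z := by
        have h4 : HasFDerivAt (fun y : R4 => y - z) (ContinuousLinearMap.id ℝ R4) z :=
          (hasFDerivAt_id z).sub_const z
        have h5 : HasFDerivAt (fun y : R4 => A (y - z)) (A.comp (ContinuousLinearMap.id ℝ R4)) z :=
          HasFDerivAt.comp (g := fun y : R4 => A y) (f := fun y : R4 => y - z) z
            (A.hasFDerivAt (x := z - z)) h4
        rw [ContinuousLinearMap.comp_id] at h5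
        exact h5.const_add z
      rw [e3.fderiv]
      exact hA

end LOC

theorem m_LOC (hSM : StSM) (hTR : StTR) (hGL : StGL) : StLOC := by
  intro F p U hLD hdet hU hUc hFp hp
  have hF := ld_iff.1 hLD
  -- the local inverse
  obtain ⟨f, hf⟩ : ∃ f : R4 → R4, f = hLD.localInverse := ⟨_, rfl⟩
  have hfs : ContMDiffOn 𝓘(ℝ, R4) 𝓘(ℝ, R4) ∞ f hLD.localInverse.source := by
    rw [hf]; exact hLD.localInverse_contMDiffOn
  have hsrc : IsOpen hLD.localInverse.source := hLD.localInverse_open_source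
  have hmem : F p ∈ hLD.localInverse.source := hLD.localInverse_mem_source
  have hfsm : ∀ᶠ y in 𝓝 (F p), ContDiffAt ℝ ∞ f y := by
    filter_upwards [hsrc.mem_nhds hmem] with y hy
    exact (contMDiffOn_iff_contDiffOn.1 hfs).contDiffAt (hsrc.mem_nhds hy)
  have hleft : f ∘ F =ᶠ[𝓝 p] id := by
    rw [hf]; exact hLD.localInverse_eventuallyEq_left
  have hfp : f (F p) = p := hleft.self_of_nhds
  have dF : DifferentiableAt ℝ F p := hF.1.self_of_nhds.differentiableAt (by simp)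
  have df : DifferentiableAt ℝ f (F p) := hfsm.self_of_nhds.differentiableAt (by simp)
  set L : R4 →L[ℝ] R4 := fderiv ℝ f (F p) with hL
  set K : R4 →L[ℝ] R4 := fderiv ℝ F p with hK
  have hLK : L.comp K = ContinuousLinearMap.id ℝ R4 := by
    have h1 : fderiv ℝ (f ∘ F) p = L.comp K := fderiv_comp p df dF
    rw [← h1, hleft.fderiv_eq, fderiv_id]
  have hLK' : ∀ x, L (K x) = x := fun x => by
    have := congrArg (fun T : R4 →L[ℝ] R4 => T x) hLK
    simpa using this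
  have hKL' : ∀ x, K (L x) = x := by
    have h1 : (L : R4 →ₗ[ℝ] R4) ∘ₗ (K : R4 →ₗ[ℝ] R4) = LinearMap.id := by
      apply LinearMap.ext; intro x; simp [hLK']
    have h2 := (LinearMap.comp_eq_id_comm (R := ℝ) (M := R4)).1 h1
    intro x
    have := congrArg (fun T : R4 →ₗ[ℝ] R4 => T x) h2
    simpa using this
  have hdetL : 0 < L.det := by
    have h1 : (L : R4 →ₗ[ℝ] R4) ∘ₗ (K : R4 →ₗ[ℝ] R4) = LinearMap.id := by
      apply LinearMap.ext; intro x; simp [hLK']
    have h2 : LinearMap.det (L : R4 →ₗ[ℝ] R4) * LinearMap.det (K : R4 →ₗ[ℝ] R4) = 1 := by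
      rw [← LinearMap.det_comp, h1, LinearMap.det_id]
    have h3 : 0 < LinearMap.det (K : R4 →ₗ[ℝ] R4) := hdet
    have h4 : 0 < LinearMap.det (L : R4 →ₗ[ℝ] R4) := by
      by_contra h5
      push Not at h5
      nlinarith
    exact h4
  -- step (2)
  obtain ⟨c, hc, hS⟩ := hSM R4
  have hk : RealG U (F p) (fun y => F p + K (f y - p)) := by
    apply hS U (F p) _ hU hFp
    · filter_upwards [hfsm] with y hy
      exact contDiffAt_const.add (K.contDiff.contDiffAt.comp y (hy.sub contDiffAt_const))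
    · simp [hfp]
    · have h1 : HasFDerivAt (fun y => F p + K (f y - p)) (K.comp L) (F p) := by
        have h2 : HasFDerivAt (fun y => f y - p) L (F p) := df.hasFDerivAt.sub_const p
        have h4 : HasFDerivAt (fun y => K (f y - p)) (K.comp L) (F p) :=
          HasFDerivAt.comp (g := fun y : R4 => K y) (f := fun y => f y - p) (F p)
            (K.hasFDerivAt (x := f (F p) - p)) h2
        exact h4.const_add (F p)
      have h3 : K.comp L = ContinuousLinearMap.id ℝ R4 := by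
        apply ContinuousLinearMap.ext
        intro x
        simp [hKL']
      rw [h1.fderiv, h3, sub_self, norm_zero]
      exact hc
  have kc : ContinuousAt (fun y => F p + K (f y - p)) (F p) :=
    continuousAt_const.add (K.continuous.continuousAt.comp (df.continuousAt.sub continuousAt_const))
  -- step (1) and composition
  have hlin := LOC.linGerm hSM hTR hGL L hdetL U (F p) hU hFp
  have e1 : F p + K (f (F p) - p) = F p := by simp [hfp]
  have h2 : RealG U (F p) (fun y => (fun y => F p + L (y - F p)) ((fun y => F p + K (f y - p)) y)) := by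
    refine (hTR R4).1 U (F p) (fun y => F p + K (f y - p)) (fun y => F p + L (y - F p)) hk ?_ kc
    rw [e1]
    exact hlin
  have e2 : (fun y => (fun y => F p + L (y - F p)) ((fun y => F p + K (f y - p)) y)) =
      fun y => F p + (f y - p) := by
    funext y
    simp [hLK']
  rw [e2] at h2
  have h3 : RealG U (F p) (fun y => y + (p - F p)) := (hTR R4).2 U (F p) p hU hUc hFp hp
  have c2 : ContinuousAt (fun y => F p + (f y - p)) (F p) :=
    continuousAt_const.add (df.continuousAt.sub continuousAt_const)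
  have h4 : RealG U (F p) (fun y => (fun y => y + (p - F p)) ((fun y => F p + (f y - p)) y)) := by
    refine (hTR R4).1 U (F p) (fun y => F p + (f y - p)) (fun y => y + (p - F p)) h2 ?_ c2
    have e3 : F p + (f (F p) - p) = F p := by simp [hfp]
    rw [e3]
    exact h3
  obtain ⟨G, h0, hsup, h1⟩ := h4
  refine ⟨G, h0, hsup, ?_⟩
  have cF : ContinuousAt F p := dF.continuousAt
  filter_upwards [cF.eventually h1, hleft] with q hq1 hq2
  rw [hq1]
  have hq3 : f (F q) = q := hq2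
  simp only [hq3]
  abel

end Pool.Agent.Helper70.BI


end

/-! ## Helper70.BI.M_HL -/

section

/-!
# Project BI, part (E), module E-HL: homotopy of bars without crossings
-/

set_option autoImplicit false

open scoped Manifold ContDiff Topology ComplexConjugate
open Set Filter Pool.Agent.Helper65.Barb Pool.Agent.Helper18.BI

namespace Pool.Agent.Helper70.BI

open Pool.Agent.Helper34.BI (BarData barFam mem_neck sph_zero_le le_sph_one)

namespace HL

/-- the open set of points whose axial coordinate is near or beyond the ends of the neck -/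
private theorem isOpen_ends (δ : ℝ) :
    IsOpen {p : R4 | p.2.1 < 1 / 5 + δ / 2 ∨ 4 / 5 - δ / 2 < p.2.1} := by
  have hcont : Continuous (fun q : R4 => q.2.1) := by fun_prop
  exact (isOpen_lt hcont continuous_const).union (isOpen_lt continuous_const hcont)

private theorem sph_sub_ends {δ : ℝ} (hδ : 0 < δ) :
    sph 0 ∪ sph 1 ⊆ {p : R4 | p.2.1 < 1 / 5 + δ / 2 ∨ 4 / 5 - δ / 2 < p.2.1} := by
  rintro p (hp | hp)
  · exact Or.inl (by linarith [sph_zero_le hp])
  · exact Or.inr (by linarith [le_sph_one hp])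

private theorem eq_of_mem_neck {p : R4} (hp : p ∈ neck) : p = (1 / 2, p.2.1, 0) := by
  obtain ⟨h1, -, -, h4⟩ := hp
  ext1
  · exact h1
  · ext1
    · rfl
    · exact h4

end HL

/-- **HL.** Two germs with the same cuffs whose cores are joined by a smooth family of embedded arcs
disjoint from the cuffs have the same class. -/
theorem m_HL (hF : StFam) (hFr : StFr) : StHL := by
  intro F F' c H δ eF eF' hN D hH himm hinj hdis
  -- the family of germs
  have hJ : FamOn I4 (barFam F c H δ) SP := by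
    rw [famOn_iff]
    refine ⟨fun t _ p hp => D.eventually_smooth t hp, fun t ht => ?_⟩
    exact D.embOn (himm t ht) (eF.2.mono subset_union_left) (hinj t ht) (hdis t ht)
  have h0 : (0 : ℝ) ∈ Icc (0 : ℝ) 1 := ⟨le_refl _, zero_le_one⟩
  have h1 : (1 : ℝ) ∈ Icc (0 : ℝ) 1 := ⟨zero_le_one, le_refl _⟩
  have e01 : Eqv (fun p => barFam F c H δ (0, p)) (fun p => barFam F c H δ (1, p)) := hF _ hJ
  have ends : ∀ t : ℝ, ∀ p ∈ {p : R4 | p.2.1 < 1 / 5 + δ / 2 ∨ 4 / 5 - δ / 2 < p.2.1},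
      F p = barFam F c H δ (t, p) := fun t p hp =>
    (D.barFam_eq (t := t) (p := p) (hp.imp le_of_lt le_of_lt)).symm
  -- the beginning of the family
  have e0 : Eqv F (fun p => barFam F c H δ (0, p)) := by
    refine hFr F (fun p => barFam F c H δ (0, p)) _ eF (hJ.2 0 h0) (HL.isOpen_ends δ)
      (HL.sph_sub_ends D.pos) (ends 0) fun p hp => ?_
    have hm : p.2.1 ∈ Icc (1 / 5 : ℝ) (4 / 5) := ⟨hp.2.1, hp.2.2.1⟩
    rw [HL.eq_of_mem_neck hp]
    exact (D.core _ hm).trans ((hH _ hm).1.symm.trans (D.barFam_neck (t := 0) hm.1 hm.2).symm)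
  -- the end of the family
  obtain ⟨U, hU, hs, he⟩ := hN
  have e1 : Eqv (fun p => barFam F c H δ (1, p)) F' := by
    refine hFr (fun p => barFam F c H δ (1, p)) F' _ (hJ.2 1 h1) eF'
      (hU.inter (HL.isOpen_ends δ)) (subset_inter hs (HL.sph_sub_ends D.pos))
      (fun p hp => ((ends 1 p hp.2).symm.trans (he hp.1))) fun p hp => ?_
    have hm : p.2.1 ∈ Icc (1 / 5 : ℝ) (4 / 5) := ⟨hp.2.1, hp.2.2.1⟩
    rw [HL.eq_of_mem_neck hp]
    exact (D.barFam_neck (t := 1) hm.1 hm.2).trans (hH _ hm).2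
  exact e0.trans (e01.trans e1)

end Pool.Agent.Helper70.BI


end

/-! ## Helper70.BI.M_NF2 -/

section

/-!
# Project BI, part (E): module NF2 (reparametrization of a germ in normal form)
-/

set_option autoImplicit false

open scoped Manifold ContDiff Topology ComplexConjugate
open Set Filter Pool.Agent.Helper65.Barb Pool.Agent.Helper18.BI

namespace Pool.Agent.Helper70.BI

namespace NF2

/-- the axis has velocity `(0, (1, 0))` -/
private theorem hasDerivAt_ax (a : ℝ) : HasDerivAt ax ((0 : ℝ), ((1 : ℝ), (0 : ℂ))) a := by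
  unfold ax
  exact (hasDerivAt_const a (1 / 2 : ℝ)).prodMk ((hasDerivAt_id a).prodMk
    (hasDerivAt_const a (0 : ℂ)))

private theorem sph_subset_flat (c : ℝ) : sph c ⊆ flat c := fun _ hp => ⟨hp.1, hp.2.le⟩

private theorem ax_mem_flat (c : ℝ) : ax c ∈ flat c := by
  refine ⟨rfl, ?_⟩
  simp [rsq, nsq, ax]

end NF2

/-- **MODULE NF2.** -/
theorem m_NF2 (hRG : StRG) : StNF2 := by
  intro c F γ γ' e τ m hc he hB hid hτ hst hm hγ' hmτ
  obtain ⟨h1, h2, h3, h4, h5, h6⟩ := hRG m hm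
  have hF : EmbOn I4 F SP := ⟨fun p hp => hB.loc p (Or.inl hp), hB.inj⟩
  obtain ⟨hG, -⟩ := h6 F hF
  have hc' : (1 - c = 0 ∨ 1 - c = 1) := by
    rcases hc with rfl | rfl
    · right; norm_num
    · left; norm_num
  -- `F'` near flat points
  have hfl : ∀ d : ℝ, (d = 0 ∨ d = 1) → ∀ p ∈ flat d, F =ᶠ[𝓝 p] fun p => F (repm m p) := by
    intro d hd p hp
    filter_upwards [h3 d hd p hp] with q hq
    rw [hq]
  have hfl' : ∀ d : ℝ, (d = 0 ∨ d = 1) → ∀ p ∈ flat d, F (repm m p) = F p := fun d hd p hp =>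
    (hfl d hd p hp).self_of_nhds.symm
  have hcore : ∀ a, core (fun p => F (repm m p)) a = core F (m a) := by
    intro a
    simp only [core, h2]
  have hee : e * e = 1 := by rcases he with rfl | rfl <;> norm_num
  -- the strand
  have hlim : Tendsto (fun a : ℝ => 1 / 2 + e * (a - γ')) (𝓝 γ') (𝓝 (1 / 2)) := by
    have : ContinuousAt (fun a : ℝ => 1 / 2 + e * (a - γ')) γ' := by fun_prop
    have h := this.tendsto
    simpa using h
  have hidax : ∀ᶠ s in 𝓝 (1 / 2 : ℝ), F (s, pc c) = (s, pc c) := by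
    have : ContinuousAt (fun s : ℝ => ((s, pc c) : R4)) (1 / 2) := by fun_prop
    exact this.eventually hid
  have hstr : ∀ᶠ a in 𝓝 γ', core (fun p => F (repm m p)) a = (1 / 2 + e * (a - γ'), pc c) := by
    filter_upwards [hmτ, hlim.eventually hst, hlim.eventually hidax] with a e1 e2 e3
    rw [hcore, e1, ← e2, e3]
  have hnear : ∀ᶠ q in 𝓝 (ax c), F (repm m q) = q := by
    filter_upwards [hid, h3 c hc (ax c) (NF2.ax_mem_flat c)] with q e1 e2
    rw [e2, e1]
  have hgc : m γ' = γ := by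
    have h7 := hmτ.self_of_nhds
    rwa [sub_self, mul_zero, add_zero, hτ] at h7
  have hfoot : m (1 / 5 + 3 / 5 * c) = 1 / 5 + 3 / 5 * c := by
    obtain ⟨-, -, η, hη, hid'⟩ := hm
    rcases hc with rfl | rfl
    · exact hid' _ (Or.inl (by linarith))
    · exact hid' _ (Or.inr (by linarith))
  have himg : (fun p => F (repm m p)) '' flat c = F '' flat c :=
    image_congr fun p hp => hfl' c hc p hp
  have hbr : Br c (fun p => F (repm m p)) γ' e := by
    refine ⟨?_, hG.2, ?_, hγ', ?_, ?_⟩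
    · rintro p (hp | hp)
      · exact hG.1 p hp
      · exact ld_congr (hfl c hc p hp) (hB.loc p (Or.inr hp))
    · refine hB.injF.congr ?_
      rintro p (hp | hp)
      · exact (hfl' c hc p hp).symm
      · exact (hfl' (1 - c) hc' p (NF2.sph_subset_flat _ hp)).symm
    · refine ⟨pc c, by simp [nsq], ?_, e, 0, by rw [hee]; exact one_pos, ?_⟩
      · have e1 := hstr.self_of_nhds
        rw [e1]
        have e2 := hnear.self_of_nhds
        have e3 : ((1 / 2, pc c) : R4) = ax c := rfl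
        simp only [sub_self, mul_zero, add_zero]
        rw [e3, e2]
      · -- the derivatives
        have hn : ax γ' ∈ SP := Or.inr ⟨rfl, hγ'.1.le, hγ'.2.le, rfl⟩
        have hd : DifferentiableAt ℝ (fun p => F (repm m p)) (ax γ') :=
          (ld_iff.1 (hG.1 _ hn)).1.self_of_nhds.differentiableAt (by simp)
        have d1 : HasDerivAt (core (fun p => F (repm m p)))
            (fderiv ℝ (fun p => F (repm m p)) (ax γ') ((0 : ℝ), ((1 : ℝ), (0 : ℂ)))) γ' :=
          hd.hasFDerivAt.comp_hasDerivAt γ' (NF2.hasDerivAt_ax γ')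
        have d2 : HasDerivAt (fun a : ℝ => ((1 / 2 + e * (a - γ'), pc c) : R4)) (e, 0) γ' := by
          have h7 : HasDerivAt (fun a : ℝ => 1 / 2 + e * (a - γ')) e γ' := by
            have := (((hasDerivAt_id γ').sub_const γ').const_mul e).const_add (1 / 2)
            simpa using this
          exact h7.prodMk (hasDerivAt_const γ' (pc c))
        have d3 := d1.unique (d2.congr_of_eventuallyEq hstr)
        have d4 : fderiv ℝ (fun p => F (repm m p)) (1 / 2, pc c) =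
            ContinuousLinearMap.id ℝ R4 := by
          have h8 : (fun p => F (repm m p)) =ᶠ[𝓝 ((1 / 2, pc c) : R4)] fun p => p := hnear
          rw [h8.fderiv_eq]
          exact fderiv_fun_id
        rw [d3, d4]
        rfl
    · intro a ha hmem
      rw [himg, hcore] at hmem
      rcases hB.only (m a) (h4 a ha) hmem with h7 | h7
      · left
        exact h5.injective (h7.trans hfoot.symm)
      · right
        exact h5.injective (h7.trans hgc.symm)
  obtain ⟨δ₁, hδ₁, hn⟩ := Metric.eventually_nhds_iff.1 hnear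
  obtain ⟨δ₂, hδ₂, hs⟩ := Metric.eventually_nhds_iff.1 hstr
  refine ⟨min (1 / 100) (min δ₁ δ₂), by positivity, fun δ hδ => ⟨hbr, hδ.1, ?_, ?_, ?_⟩⟩
  · exact hδ.2.trans (min_le_left _ _)
  · intro p hp
    refine hn ?_
    rw [dist_eq_norm]
    exact lt_of_lt_of_le hp (hδ.2.trans ((min_le_right _ _).trans (min_le_left _ _)))
  · intro a ha
    refine hs ?_
    rw [Real.dist_eq]
    exact lt_of_lt_of_le ha (hδ.2.trans ((min_le_right _ _).trans (min_le_right _ _)))

end Pool.Agent.Helper70.BI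


end

/-! ## Helper70.BI.AsmE0 -/

section

/-!
# Project BI, part (E): assembly (all modules except `StR3J`, `StLAS`)
-/

set_option autoImplicit false

open Pool.Agent.Helper18.BI

namespace Pool.Agent.Helper70.BI

open Pool.Agent.Helper27.BI (hVanT hR2sw hRefH hRefS hADD2 m_PERT)
open Pool.Agent.Helper34.BI (hCH hCO hCRP)

theorem hFam : StFam := stFam_of hT2
theorem hPT : StPT := m_PT
theorem hSM : StSM := m_SM hPT
theorem hTR : StTR := m_TR hPT
theorem hGL : StGL := m_GL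
theorem hLOC : StLOC := m_LOC hSM hTR hGL
theorem hDET : StDET := m_DET
theorem hC1 : StC1 := m_C1 hTR m_PERT
theorem hCL : StCL := m_CL
theorem hCTR : StCTR := m_CTR hCL hFam
theorem hRM : StRM := m_RM
theorem hRG : StRG := m_RG hFam
theorem hHL : StHL := m_HL hFam hFr
theorem hNF1 : StNF1 := m_NF1 hC1 hLOC hDET hFam
theorem hNF2 : StNF2 := m_NF2 hRG
theorem hNF : StNF := m_NF hNF1 hNF2 hRM hRG hDET hFam
theorem hHOM : StHOM := m_HOM hCL hCTR hHL
theorem hUT : StUT := stUT hNF hHOM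
theorem hSYM : StSYM := m_SYM
theorem hPATH : StPATH := m_PATH
theorem hARC3 : StARC3 := m_ARC3 hPATH
theorem hAG : StAG := m_AG hADD2 hT2 hT3 hT5 hT6 hImp hS4 hA1 hCI
theorem hR3T : StR3T := m_R3T hDET
theorem hV1 : StV1 := m_V1 hVanT hR2sw
theorem hROT : StROT := m_ROT
theorem hNO1 : StNO1 := m_NO1 hPATH
theorem hNO : StNO := m_NO hNO1 hCTR hCL hCO
theorem hSPI : StSPI := m_SPI hROT hA1 hFam
theorem hXC : StXC := m_XC
theorem hARL : StARL := m_ARL hCH
theorem hFML1 : StFML1 := m_FML1 hCL hCTR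
theorem hFML : StFML := m_FML hFML1 hCL hCTR hFr hCH
theorem hMWL : StMWL := m_MWL hT2 hCI hR2sw
theorem hLGG : StLGG := m_LGG
theorem hTH : StTH := m_TH hCRP hMWL
theorem hEI : StEI := m_EI
theorem hX2c : StX2c := m_X2c
theorem hThM : StThM := m_ThM
theorem hW4 : StW4 := m_W4 hEI hX2c hThM hX1 hT2 hCI hS4

theorem hR3_of (hR3J : StR3J) : StR3 := m_R3 hR3J hAG hR3T hT2
theorem hW_of (hR3J : StR3J) : StW := m_W hUT hSYM (hR3_of hR3J) hT2 hCI hRefH hRefS hR2sw
theorem hOBP_of (hLAS : StLAS) : StOBP :=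
  m_OBP hLAS hXC hARL hFML hTH hLGG hMWL hNF1 hRM hRG hNF2
theorem hOB1_of (hLAS : StLAS) : StOB1 := m_OB1 (hOBP_of hLAS) hRefH hT2 hCI
theorem hOB0_of (hLAS : StLAS) : StOB0 := m_OB0 (hOB1_of hLAS) hR2sw hT2 hCI
theorem hMain2_of (hLAS : StLAS) : StMain2 :=
  m_Main2 (hOB0_of hLAS) hCRP hMWL hLGG hCH hCO hFr hT2

end Pool.Agent.Helper70.BI


end

/-! ## Helper70.BI.AsmE -/

section

/-!
# Project BI, part (E): assembly; the main theorem of stage 2, unconditionally
-/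

set_option autoImplicit false

open Pool.Agent.Helper18.BI Pool.Agent.Helper65.Barb

namespace Pool.Agent.Helper70.BI

theorem hR3J : StR3J := m_R3J hARC3 hFam Pool.Agent.Helper27.BI.hVanT
theorem hR3a : StR3 := hR3_of hR3J
theorem hW : StW := hW_of hR3J
theorem hLAS : StLAS := m_LAS hNO hV1 hSPI hNF1 hRM hRG hNF2 hCL
theorem hMain2 : StMain2 := hMain2_of hLAS

theorem hR0real : Pool.Agent.Helper18.BI.StR0 := m_R0
theorem hR1real : Pool.Agent.Helper18.BI.StR1 := m_R1 hS0 hS1 hS2 hS3 hS4 hR0real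
theorem hR2real : Pool.Agent.Helper18.BI.StR2 := m_R2 hA0 hR0real
theorem hR3real : Pool.Agent.Helper18.BI.StR3 :=
  Pool.Agent.Helper18.BI.m_R3 hA1 hA2 hA3 hImp hCI hS3 hS4 hS6 hR1real hR2real

theorem exists_isW' : ∃ W : R4 → R4, IsW W := exists_isW hW

theorem hFinal2 : StFinal2 := by
  obtain ⟨W, hWW⟩ := exists_isW'
  exact m_Final2 hW4 hMain2 hR3real hA1 hT2 hT4 hX1 hX2 hX3 hCI hWW

end Pool.Agent.Helper70.BI


end
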