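import Pool.Agent.Helper65.Barb.Defs
import Pool.Agent.Helper70.BI.B.P14
import Pool.Agent.Helper70.BI.B.P18

/-!
# Project BI (MP_8e98f2_gt): collected modules, part 47

The contents of the modules
* Helper70.BI.H.M_NORM
* Helper70.BI.H.M_SLD
* Helper18.BI.H.M_SM
* Helper18.BI.H.M_NUL

in one file, so that the whole proof builds in a short time.
-/

/-! ## Helper70.BI.H.M_NORM -/

section

/-!
# Project BI, stage 3 (H), section NORM: assembly
-/

set_option autoImplicit false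

open scoped Manifold ContDiff Topology ComplexConjugate
open Set Filter Pool.Agent.Helper65.Barb Pool.Agent.Helper18.BI

namespace Pool.Agent.Helper70.H

open Pool.Agent.Helper27.H (ArcD seg StNORM)
open Pool.Agent.Helper70.BI (I4 LD Eqv NearEq pc StPT StGL StFam StMain2 IsW MW embOn_iff embOn_comp
  famOn_comp famOn_const famOn_iff)

/-- the class of a germ in normal form after a slide -/
theorem NORM.slide (hF : StFam) {D : ArcD} {a b lam : ℝ} {T : R4 → R4} (hT : NC D a b lam T)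
    {S : ℝ × R4 → R4} (hS : ContDiff ℝ ∞ S) (hS0 : ∀ y, S (0, y) = y)
    (hSe : ∀ t ∈ Icc (0 : ℝ) 1, EmbOn I4 (fun y => S (t, y)) univ)
    (hSU : ∀ t ∈ Icc (0 : ℝ) 1, ∀ y ∈ D.U \ D.A, S (t, y) ∈ D.U \ D.A) :
    EmbOn I4 (fun p => D.e (S (1, T p))) SP ∧
      Eqv (fun p => D.e (T p)) (fun p => D.e (S (1, T p))) := by
  have hSf : FamOn I4 S univ := by
    rw [famOn_iff]
    exact ⟨fun t _ p _ => Eventually.of_forall fun z => hS.contDiffAt, hSe⟩
  have h1 : FamOn I4 (fun z : ℝ × R4 => S (z.1, T z.2)) SP :=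
    famOn_comp hSf (famOn_const hT.emb) fun _ _ _ _ => mem_univ _
  have h2 : FamOn I4 (fun z : ℝ × R4 => D.e (S (z.1, T z.2))) SP := by
    have h3 := famOn_comp (J := fun z : ℝ × R4 => D.e z.2)
      (m := fun z : ℝ × R4 => S (z.1, T z.2)) (famOn_const D.embe) h1
      (fun t ht p hp => hSU t ht _ (hT.off p hp))
    exact h3
  refine ⟨(famOn_iff.1 h2).2 1 (by norm_num), ?_⟩
  have h4 := hF _ h2
  simpa [hS0] using h4

theorem m_NORM (hNCT : StNCT) (hSLD : StSLD) (hF : StFam) (hMain : StMain2) : StNORM := by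
  intro D T T' W hW hT hT'
  obtain ⟨a, b, l₀, ha, hab, hb, hl₀, hN⟩ := hNCT D T hT
  obtain ⟨a', b', l₀', ha', hab', hb', hl₀', hN'⟩ := hNCT D T' hT'
  obtain ⟨S, δ, hS, hS0, hδ, hSe, hSU, hSa, hSb⟩ := hSLD D a b a' b' ha hab hb ha' hab' hb'
  set lam : ℝ := min (min l₀ l₀') δ / 2 with hlam
  have hm : 0 < min (min l₀ l₀') δ := lt_min (lt_min hl₀ hl₀') hδ
  have hl : 0 < lam := by positivity
  have hl1 : lam < l₀ := by
    have : min (min l₀ l₀') δ ≤ l₀ := (min_le_left _ _).trans (min_le_left _ _)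
    linarith
  have hl2 : lam < l₀' := by
    have : min (min l₀ l₀') δ ≤ l₀' := (min_le_left _ _).trans (min_le_right _ _)
    linarith
  have hl3 : lam < δ := by
    have : min (min l₀ l₀') δ ≤ δ := min_le_right _ _
    linarith
  obtain ⟨T₁, hT₁, hE₁⟩ := hN lam ⟨hl, hl1⟩
  obtain ⟨T₁', hT₁', hE₁'⟩ := hN' lam ⟨hl, hl2⟩
  obtain ⟨hemb, hE₂⟩ := NORM.slide hF hT₁ hS hS0 hSe hSU
  have hemb' : EmbOn I4 (fun p => D.e (T₁' p)) SP := embOn_comp D.embe hT₁'.emb hT₁'.off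
  -- the germs agree near the cuffs
  have near0 : ∀ p ∈ sph 0, ∀ᶠ q in 𝓝 p, S (1, T₁ q) = T₁' q := by
    intro p hp
    have hc : ContinuousAt (fun q : R4 => q.1) p := continuousAt_fst
    have hc2 : ContinuousAt (fun q : R4 => ‖q.2‖) p := continuousAt_snd.norm
    have hp2 : ‖p.2‖ < 1 := by
      obtain ⟨h1, h2⟩ := hp
      have h3 : (p.2.1 - 0) ^ 2 + p.2.2.re ^ 2 + p.2.2.im ^ 2 = 1 / 25 := h2
      rw [Prod.norm_def]
      refine max_lt ?_ ?_
      · rw [Real.norm_eq_abs, abs_lt]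
        constructor <;> nlinarith [sq_nonneg p.2.2.re, sq_nonneg p.2.2.im]
      · have h4 : ‖p.2.2‖ ^ 2 = p.2.2.re ^ 2 + p.2.2.im ^ 2 := by
          rw [← Complex.normSq_eq_norm_sq, Complex.normSq_apply]; ring
        nlinarith [sq_nonneg (p.2.1 - 0), norm_nonneg p.2.2]
    filter_upwards [hT₁.c0 p hp, hT₁'.c0 p hp,
      hc.eventually (Metric.ball_mem_nhds _ hδ), hc2.eventually (gt_mem_nhds hp2)] with q h1 h2 h3 h4
    rw [hp.1, Real.dist_eq] at h3
    change S (1, T₁ q) = T₁' q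
    rw [h1, h2, hSa]
    · simp only
      congr 2
      ring
    · simpa using h3
    · simp only
      rw [norm_smul, Real.norm_of_nonneg hl.le]
      calc lam * ‖q.2‖ ≤ lam * 1 := by gcongr
        _ < δ := by linarith
  have near1 : ∀ p ∈ sph 1, ∀ᶠ q in 𝓝 p, S (1, T₁ q) = T₁' q := by
    intro p hp
    have hc : ContinuousAt (fun q : R4 => q.1) p := continuousAt_fst
    have hc2 : ContinuousAt (fun q : R4 => ‖q.2 - pc 1‖) p := (continuousAt_snd.sub
      continuousAt_const).norm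
    have hp2 : ‖p.2 - pc 1‖ < 1 := by
      obtain ⟨h1, h2⟩ := hp
      have h3 : (p.2.1 - 1) ^ 2 + p.2.2.re ^ 2 + p.2.2.im ^ 2 = 1 / 25 := h2
      rw [Prod.norm_def]
      refine max_lt ?_ ?_
      · change ‖p.2.1 - 1‖ < 1
        rw [Real.norm_eq_abs, abs_lt]
        constructor <;> nlinarith [sq_nonneg p.2.2.re, sq_nonneg p.2.2.im]
      · have h5 : (p.2 - pc 1).2 = p.2.2 := by
          change p.2.2 - 0 = p.2.2
          rw [sub_zero]
        rw [h5]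
        have h4 : ‖p.2.2‖ ^ 2 = p.2.2.re ^ 2 + p.2.2.im ^ 2 := by
          rw [← Complex.normSq_eq_norm_sq, Complex.normSq_apply]; ring
        nlinarith [sq_nonneg (p.2.1 - 1), norm_nonneg p.2.2]
    filter_upwards [hT₁.c1 p hp, hT₁'.c1 p hp,
      hc.eventually (Metric.ball_mem_nhds _ hδ), hc2.eventually (gt_mem_nhds hp2)] with q h1 h2 h3 h4
    rw [hp.1, Real.dist_eq] at h3
    change S (1, T₁ q) = T₁' q
    rw [h1, h2, hSb]
    · simp only
      congr 2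
      ring
    · simpa using h3
    · simp only
      rw [norm_smul, Real.norm_of_nonneg hl.le]
      calc lam * ‖q.2 - pc 1‖ ≤ lam * 1 := by gcongr
        _ < δ := by linarith
  intro φ ψ hφ hψ
  have hφ1 : Thin I4 (fun p => D.e (S (1, T₁ p))) φ := (hE₂ φ).1 ((hE₁ φ).1 hφ)
  have hψ1 : Thin I4 (fun p => D.e (T₁' p)) ψ := (hE₁' ψ).1 hψ
  refine hMain W _ _ φ ψ (interior {q | S (1, T₁ q) = T₁' q}) hW hemb hemb' isOpen_interior ?_ ?_
    hφ1 hψ1
  · rintro p (hp | hp)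
    · exact mem_interior_iff_mem_nhds.2 (near0 p hp)
    · exact mem_interior_iff_mem_nhds.2 (near1 p hp)
  · intro q hq
    have h1 : q ∈ {q | S (1, T₁ q) = T₁' q} := interior_subset hq
    have h1 : S (1, T₁ q) = T₁' q := h1
    simp only [h1]

end Pool.Agent.Helper70.H


end

/-! ## Helper70.BI.H.M_SLD -/

section

/-!
# Project BI, stage 3 (H), section NORM: sliding along the base arc (`StSLD`)
-/

set_option autoImplicit false

open scoped Manifold ContDiff Topology ComplexConjugate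
open Set Filter Pool.Agent.Helper65.Barb Pool.Agent.Helper18.BI

namespace Pool.Agent.Helper70.H

open Pool.Agent.Helper27.H (ArcD seg)
open Pool.Agent.Helper70.BI (I4 LD Eqv NearEq pc StPT StGL ld_iff ld_comp ld_congr)

namespace SLD

/-- the reparametrization of the base arc -/
theorem exists_rep (hRM : Pool.Agent.Helper70.BI.StRM) {s₀ s₁ a b a' b' : ℝ} (h1 : s₀ < a)
    (h2 : a < b) (h3 : b < s₁) (h4 : s₀ < a') (h5 : a' < b') (h6 : b' < s₁) :
    ∃ (m : ℝ → ℝ) (η : ℝ), 0 < η ∧ ContDiff ℝ ∞ m ∧ (∀ s, 0 < deriv m s) ∧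
      (∀ s, (s ≤ s₀ + η ∨ s₁ - η ≤ s) → m s = s) ∧ (∀ᶠ s in 𝓝 a, m s = s + (a' - a)) ∧
      ∀ᶠ s in 𝓝 b, m s = s + (b' - b) := by
  obtain ⟨c, hc⟩ : ∃ c : ℝ, c = 5 / 3 * (s₁ - s₀) := ⟨_, rfl⟩
  have hcpos : 0 < c := by rw [hc]; linarith
  have hcne : c ≠ 0 := hcpos.ne'
  obtain ⟨φ, hφ⟩ : ∃ φ : ℝ → ℝ, φ = fun s => 1 / 5 + (s - s₀) / c := ⟨_, rfl⟩
  have φdef : ∀ s, φ s = 1 / 5 + (s - s₀) / c := fun s => by rw [hφ]
  have φlt : ∀ s t, s < t → φ s < φ t := by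
    intro s t hst
    rw [φdef, φdef]
    have : (s - s₀) / c < (t - s₀) / c := div_lt_div_of_pos_right (by linarith) hcpos
    linarith
  have φ0 : φ s₀ = 1 / 5 := by rw [φdef]; simp
  have φ1 : φ s₁ = 4 / 5 := by
    have h01 : s₁ - s₀ = 3 / 5 * c := by rw [hc]; ring
    rw [φdef, h01, mul_div_assoc, div_self hcne]
    norm_num
  have φc : ContDiff ℝ ∞ φ := by
    rw [hφ]
    exact contDiff_const.add ((contDiff_id.sub contDiff_const).div_const c)
  have φd : ∀ s, HasDerivAt φ (1 / c) s := by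
    intro s
    rw [hφ]
    have h := (((hasDerivAt_id s).sub_const s₀).div_const c).const_add (1 / 5)
    exact h
  obtain ⟨m₀, ⟨m0c, m0d, η₀, hη₀, m0id⟩, m0a, m0b⟩ := hRM.2 (φ a) (φ b) (φ a') (φ b')
    (fun x => x + (φ a' - φ a)) (fun x => x + (φ b' - φ b))
    (by rw [← φ0]; exact φlt _ _ h1) (φlt _ _ h2) (by rw [← φ1]; exact φlt _ _ h3)
    (by rw [← φ0]; exact φlt _ _ h4) (φlt _ _ h5) (by rw [← φ1]; exact φlt _ _ h6)
    (Eventually.of_forall fun x => contDiffAt_id.add contDiffAt_const)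
    (Eventually.of_forall fun x => contDiffAt_id.add contDiffAt_const)
    (by simp) (by simp)
    (by
      have : HasDerivAt (fun x : ℝ => x + (φ a' - φ a)) 1 (φ a) :=
        (hasDerivAt_id (φ a)).add_const _
      rw [this.deriv]; exact one_pos)
    (by
      have : HasDerivAt (fun x : ℝ => x + (φ b' - φ b)) 1 (φ b) :=
        (hasDerivAt_id (φ b)).add_const _
      rw [this.deriv]; exact one_pos)
  have key : ∀ s, s₀ + c * (φ s - 1 / 5) = s := by
    intro s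
    rw [φdef]
    have : c * (1 / 5 + (s - s₀) / c - 1 / 5) = s - s₀ := by
      rw [add_sub_cancel_left]
      exact mul_div_cancel₀ _ hcne
    rw [this]; ring
  refine ⟨fun s => s₀ + c * (m₀ (φ s) - 1 / 5), c * η₀, mul_pos hcpos hη₀, ?_, ?_, ?_, ?_, ?_⟩
  · exact contDiff_const.add (contDiff_const.mul ((m0c.comp φc).sub contDiff_const))
  · intro s
    have hm : HasDerivAt m₀ (deriv m₀ (φ s)) (φ s) :=
      (m0c.differentiable (by simp) (φ s)).hasDerivAt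
    have h := (((hm.comp s (φd s)).sub_const (1 / 5)).const_mul c).const_add s₀
    have e : deriv (fun s => s₀ + c * (m₀ (φ s) - 1 / 5)) s = c * (deriv m₀ (φ s) * (1 / c)) :=
      h.deriv
    rw [e]
    have h0 := m0d (φ s)
    have h1' : 0 < 1 / c := by positivity
    positivity
  · rintro s (hs | hs)
    · have h : φ s ≤ 1 / 5 + η₀ := by
        rw [φdef]
        have : (s - s₀) / c ≤ η₀ := by
          rw [div_le_iff₀ hcpos]; linarith
        linarith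
      show s₀ + c * (m₀ (φ s) - 1 / 5) = s
      rw [m0id _ (Or.inl h), key]
    · have h : 4 / 5 - η₀ ≤ φ s := by
        have e : (4 / 5 : ℝ) = φ s₁ := φ1.symm
        rw [e, φdef, φdef]
        have : (s₁ - s) / c ≤ η₀ := by
          rw [div_le_iff₀ hcpos]; linarith
        have e2 : (s₁ - s₀) / c - (s - s₀) / c = (s₁ - s) / c := by
          rw [← sub_div]; congr 1; ring
        linarith
      show s₀ + c * (m₀ (φ s) - 1 / 5) = s
      rw [m0id _ (Or.inr h), key]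
  · have hcont : ContinuousAt φ a := φc.continuous.continuousAt
    filter_upwards [hcont.eventually m0a] with s hs
    show s₀ + c * (m₀ (φ s) - 1 / 5) = s + (a' - a)
    rw [hs]
    have k1 := key s
    have k2 := key a
    have k3 := key a'
    linarith
  · have hcont : ContinuousAt φ b := φc.continuous.continuousAt
    filter_upwards [hcont.eventually m0b] with s hs
    show s₀ + c * (m₀ (φ s) - 1 / 5) = s + (b' - b)
    rw [hs]
    have k1 := key s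
    have k2 := key b
    have k3 := key b'
    linarith

/-- the model slide -/
noncomputable def Sig (χ : R3 → ℝ) (m : ℝ → ℝ) (t : ℝ) (p : R4) : R4 :=
  (p.1 + step t * χ p.2 * (m p.1 - p.1), p.2)

theorem contDiff_Sig {χ : R3 → ℝ} {m : ℝ → ℝ} (hχ : ContDiff ℝ ∞ χ) (hm : ContDiff ℝ ∞ m) :
    ContDiff ℝ ∞ (fun z : ℝ × R4 => Sig χ m z.1 z.2) := by
  have h1 : ContDiff ℝ ∞ (fun z : ℝ × R4 => z.2.1) := contDiff_fst.comp contDiff_snd
  have h2 : ContDiff ℝ ∞ (fun z : ℝ × R4 => z.2.2) := contDiff_snd.comp contDiff_snd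
  have h3 : ContDiff ℝ ∞ (fun z : ℝ × R4 => step z.1) := contDiff_step.comp contDiff_fst
  exact (h1.add ((h3.mul (hχ.comp h2)).mul ((hm.comp h1).sub h1))).prodMk h2

theorem Sig_snd (χ : R3 → ℝ) (m : ℝ → ℝ) (t : ℝ) (p : R4) : (Sig χ m t p).2 = p.2 := rfl

theorem Sig_zero (χ : R3 → ℝ) (m : ℝ → ℝ) (p : R4) : Sig χ m 0 p = p := by
  simp [Sig, step_of_nonpos (le_refl (0 : ℝ))]

theorem theta_mem {χ : R3 → ℝ} (hχ : ∀ x, χ x ∈ Icc (0 : ℝ) 1) (t : ℝ) (x : R3) :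
    step t * χ x ∈ Icc (0 : ℝ) 1 := by
  have h1 := step_mem t
  have h2 := hχ x
  exact ⟨mul_nonneg h1.1 h2.1, mul_le_one₀ h1.2 h2.1 h2.2⟩

theorem Sig_injective {χ : R3 → ℝ} {m : ℝ → ℝ} (hχ : ∀ x, χ x ∈ Icc (0 : ℝ) 1)
    (hm : StrictMono m) (t : ℝ) : Function.Injective (Sig χ m t) := by
  intro p q hpq
  have e20 := congrArg Prod.snd hpq
  have e10 := congrArg Prod.fst hpq
  have e2 : p.2 = q.2 := e20
  have e1 : p.1 + step t * χ p.2 * (m p.1 - p.1) = q.1 + step t * χ q.2 * (m q.1 - q.1) := e10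
  rw [← e2] at e1
  obtain ⟨θ, hθ⟩ : ∃ θ : ℝ, θ = step t * χ p.2 := ⟨_, rfl⟩
  have hθm : θ ∈ Icc (0 : ℝ) 1 := by rw [hθ]; exact theta_mem hχ t p.2
  rw [← hθ] at e1
  have aux : ∀ u v : ℝ, u < v → u + θ * (m u - u) < v + θ * (m v - v) := by
    intro u v huv
    have h1 := hm huv
    rcases hθm.1.lt_or_eq with h | h
    · have h3 : 0 < θ * (m v - m u) := mul_pos h (by linarith)
      have h4 : 0 ≤ (1 - θ) * (v - u) := mul_nonneg (by linarith [hθm.2]) (by linarith)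
      nlinarith
    · rw [← h]; linarith
  have e3 : p.1 = q.1 := by
    rcases lt_trichotomy p.1 q.1 with h | h | h
    · exact absurd e1 (aux _ _ h).ne
    · exact h
    · exact absurd e1 (aux _ _ h).ne'
  exact Prod.ext e3 e2

theorem ld_Sig {χ : R3 → ℝ} {m : ℝ → ℝ} (hχs : ContDiff ℝ ∞ χ) (hms : ContDiff ℝ ∞ m)
    (hχ : ∀ x, χ x ∈ Icc (0 : ℝ) 1) (hm : ∀ s, 0 < deriv m s) (t : ℝ) (p : R4) :
    LD (Sig χ m t) p := by
  have hs : ContDiff ℝ ∞ (Sig χ m t) := (contDiff_Sig hχs hms).comp (contDiff_prodMk_right t)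
  rw [ld_iff]
  refine ⟨Eventually.of_forall fun q => hs.contDiffAt, ?_⟩
  have d1 : HasFDerivAt (fun q : R4 => q.1) (ContinuousLinearMap.fst ℝ ℝ R3) p := hasFDerivAt_fst
  have d2 : HasFDerivAt (fun q : R4 => q.2) (ContinuousLinearMap.snd ℝ ℝ R3) p := hasFDerivAt_snd
  have d3 : HasFDerivAt χ (fderiv ℝ χ p.2) p.2 := (hχs.differentiable (by simp) p.2).hasFDerivAt
  have d4 : HasFDerivAt (fun q : R4 => χ q.2)
      ((fderiv ℝ χ p.2).comp (ContinuousLinearMap.snd ℝ ℝ R3)) p := d3.comp p d2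
  have d5 : HasDerivAt m (deriv m p.1) p.1 := (hms.differentiable (by simp) p.1).hasDerivAt
  have d6 : HasFDerivAt (fun q : R4 => m q.1)
      (deriv m p.1 • ContinuousLinearMap.fst ℝ ℝ R3) p := d5.comp_hasFDerivAt p d1
  have d7 := (d1.add ((d4.const_mul (step t)).mul (d6.sub d1))).prodMk d2
  have d8 : HasFDerivAt (Sig χ m t) _ p := d7
  rw [d8.fderiv]
  rw [injective_iff_map_eq_zero]
  intro v hv
  have hv2 : v.2 = 0 := by
    have := congrArg Prod.snd hv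
    simpa using this
  have hv1 := congrArg Prod.fst hv
  simp [hv2] at hv1
  obtain ⟨θ, hθ⟩ : ∃ θ : ℝ, θ = step t * χ p.2 := ⟨_, rfl⟩
  have hθm : θ ∈ Icc (0 : ℝ) 1 := by rw [hθ]; exact theta_mem hχ t p.2
  have e : v.1 * ((1 - θ) + θ * deriv m p.1) = 0 := by
    rw [hθ]
    linarith [hv1]
  have hpos : 0 < (1 - θ) + θ * deriv m p.1 := by
    rcases hθm.1.lt_or_eq with h | h
    · have := mul_pos h (hm p.1)
      linarith [hθm.2]
    · rw [← h]; linarith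
  have e1 : v.1 = 0 := by
    rcases mul_eq_zero.1 e with h | h
    · exact h
    · exact absurd h hpos.ne'
  exact Prod.ext e1 hv2

/-- the box -/
def Kbox (l u ρ : ℝ) : Set R4 := Icc l u ×ˢ Metric.closedBall (0 : R3) ρ

theorem Sig_off {χ : R3 → ℝ} {m : ℝ → ℝ} {l u ρ : ℝ} (h0 : ∀ x, ρ < ‖x‖ → χ x = 0)
    (hm : ∀ s, (s ≤ l ∨ u ≤ s) → m s = s) (t : ℝ) {p : R4} (hp : p ∉ Kbox l u ρ) :
    Sig χ m t p = p := by
  have key : step t * χ p.2 * (m p.1 - p.1) = 0 := by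
    by_cases h1 : p.1 ≤ l ∨ u ≤ p.1
    · rw [hm _ h1, sub_self, mul_zero]
    · push Not at h1
      have h2 : ρ < ‖p.2‖ := by
        by_contra h
        push Not at h
        exact hp ⟨⟨h1.1.le, h1.2.le⟩, mem_closedBall_zero_iff.2 h⟩
      rw [h0 _ h2, mul_zero, zero_mul]
  show (p.1 + step t * χ p.2 * (m p.1 - p.1), p.2) = p
  rw [key, add_zero]

theorem Sig_mem {χ : R3 → ℝ} {m : ℝ → ℝ} {l u ρ : ℝ} (hχ : ∀ x, χ x ∈ Icc (0 : ℝ) 1)
    (hmono : StrictMono m) (hm : ∀ s, (s ≤ l ∨ u ≤ s) → m s = s) (t : ℝ) {p : R4}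
    (hp : p ∈ Kbox l u ρ) : Sig χ m t p ∈ Kbox l u ρ := by
  have hθm := theta_mem hχ t p.2
  have h1 : l ≤ m p.1 := by
    have := hmono.monotone hp.1.1
    rwa [hm l (Or.inl le_rfl)] at this
  have h2 : m p.1 ≤ u := by
    have := hmono.monotone hp.1.2
    rwa [hm u (Or.inr le_rfl)] at this
  refine ⟨⟨?_, ?_⟩, hp.2⟩
  · show l ≤ p.1 + step t * χ p.2 * (m p.1 - p.1)
    have e : p.1 + step t * χ p.2 * (m p.1 - p.1) =
      l + ((1 - step t * χ p.2) * (p.1 - l) + step t * χ p.2 * (m p.1 - l)) := by ring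
    rw [e]
    have h3 := mul_nonneg (sub_nonneg.2 hθm.2) (sub_nonneg.2 hp.1.1)
    have h4 := mul_nonneg hθm.1 (sub_nonneg.2 h1)
    linarith
  · show p.1 + step t * χ p.2 * (m p.1 - p.1) ≤ u
    have e : p.1 + step t * χ p.2 * (m p.1 - p.1) =
      u - ((1 - step t * χ p.2) * (u - p.1) + step t * χ p.2 * (u - m p.1)) := by ring
    rw [e]
    have h3 := mul_nonneg (sub_nonneg.2 hθm.2) (sub_nonneg.2 hp.1.2)
    have h4 := mul_nonneg hθm.1 (sub_nonneg.2 h2)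
    linarith

theorem isCompact_Kbox (l u ρ : ℝ) : IsCompact (Kbox l u ρ) :=
  isCompact_Icc.prod (isCompact_closedBall 0 ρ)

/-- tube lemma -/
theorem exists_tube {O : Set R4} (hO : IsOpen O) {l u : ℝ}
    (h : ∀ s ∈ Icc l u, ((s, 0) : R4) ∈ O) : ∃ ρ : ℝ, 0 < ρ ∧ Kbox l u ρ ⊆ O := by
  have hs : Icc l u ×ˢ {(0 : R3)} ⊆ O := by
    rintro ⟨s, x⟩ ⟨h1, h2⟩
    have h3 : x = 0 := h2
    rw [h3]; exact h s h1
  obtain ⟨a, b, -, hb, h1, h2, h3⟩ := generalized_tube_lemma isCompact_Icc isCompact_singleton hO hs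
  obtain ⟨ρ, hρ, hρb⟩ := Metric.nhds_basis_closedBall.mem_iff.1
    (hb.mem_nhds (h2 (mem_singleton (0 : R3))))
  exact ⟨ρ, hρ, fun p hp => h3 ⟨h1 hp.1, hρb hp.2⟩⟩

theorem isCompact_seg (s₀ s₁ : ℝ) : IsCompact (seg s₀ s₁) := by
  have : seg s₀ s₁ = Icc s₀ s₁ ×ˢ {(0 : R3)} := by
    ext p
    constructor
    · rintro ⟨h1, h2, h3⟩
      exact ⟨⟨h1, h2⟩, h3⟩
    · rintro ⟨⟨h1, h2⟩, h3⟩
      exact ⟨h1, h2, h3⟩
  rw [this]
  exact isCompact_Icc.prod isCompact_singleton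

end SLD

open SLD

theorem m_SLD (hRM : Pool.Agent.Helper70.BI.StRM) (hA1 : StA1) : StSLD := by
  classical
  intro D a b a' b' h1 h2 h3 h4 h5 h6
  obtain ⟨m, η, hη, mc, md, mid, ma, mb⟩ := exists_rep hRM h1 h2 h3 h4 h5 h6
  have mmono : StrictMono m := strictMono_of_deriv_pos md
  -- the diffeomorphism onto its image
  obtain ⟨Φ, hL, hΦ⟩ := hA1 R4 R4 R4 I4 R4 D.J (seg D.s₀ D.s₁) (isCompact_seg _ _) D.emb.1 D.emb.2
  have so : IsOpen Φ.source := Φ.open_source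
  have tgo : IsOpen Φ.target := Φ.open_target
  have Φc : ContDiffOn ℝ ∞ Φ Φ.source := contMDiffOn_iff_contDiffOn.1 Φ.contMDiffOn_toFun
  have Φs : ContDiffOn ℝ ∞ Φ.symm Φ.target := contMDiffOn_iff_contDiffOn.1 Φ.contMDiffOn_invFun
  have Φl : ∀ p ∈ Φ.source, Φ.symm (Φ p) = p := fun p hp => Φ.left_inv hp
  have Φr : ∀ y ∈ Φ.target, Φ (Φ.symm y) = y := fun y hy => Φ.right_inv hy
  have Φmt : ∀ p ∈ Φ.source, Φ p ∈ Φ.target := fun p hp => Φ.map_source hp
  have Φms : ∀ y ∈ Φ.target, Φ.symm y ∈ Φ.source := fun y hy => Φ.map_target hy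
  have Φinj : ∀ p ∈ Φ.source, ∀ q ∈ Φ.source, Φ p = Φ q → p = q := by
    intro p hp q hq h
    rw [← Φl p hp, h, Φl q hq]
  have ldΦ : ∀ p ∈ Φ.source, LD Φ p := fun p hp => ⟨Φ, hp, fun _ _ => rfl⟩
  have ldΦs : ∀ y ∈ Φ.target, LD Φ.symm y := fun y hy => ⟨Φ.symm, hy, fun _ _ => rfl⟩
  -- the tube
  have hO : IsOpen (Φ.source ∩ Φ ⁻¹' D.U) := Φc.continuousOn.isOpen_inter_preimage so D.openU
  obtain ⟨ρ, hρ, hK⟩ := exists_tube (l := D.s₀ + η) (u := D.s₁ - η) hO (by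
    intro s hs
    have hs1 : D.s₀ ≤ s := by linarith [hs.1]
    have hs2 : s ≤ D.s₁ := by linarith [hs.2]
    have hp : ((s, 0) : R4) ∈ Φ.source := hL ⟨hs1, hs2, rfl⟩
    refine ⟨hp, ?_⟩
    show Φ (s, 0) ∈ D.U
    rw [hΦ _ hp, D.core s ⟨hs1, hs2⟩]
    exact D.mem s ⟨by linarith [hs.1], by linarith [hs.2]⟩)
  obtain ⟨K, hKdef⟩ : ∃ K : Set R4, K = Kbox (D.s₀ + η) (D.s₁ - η) ρ := ⟨_, rfl⟩
  rw [← hKdef] at hK
  have Kc : IsCompact K := by rw [hKdef]; exact isCompact_Kbox _ _ _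
  have Ks : K ⊆ Φ.source := fun p hp => (hK hp).1
  have KU : ∀ p ∈ K, Φ p ∈ D.U := fun p hp => (hK hp).2
  have CK : IsClosed (Φ '' K) := (Kc.image_of_continuousOn (Φc.continuousOn.mono Ks)).isClosed
  have Ct : Φ '' K ⊆ Φ.target := by
    rintro y ⟨p, hp, rfl⟩
    exact Φmt p (Ks hp)
  -- the bump function
  obtain ⟨χ, χc, χm, χ1, χ0⟩ : ∃ χ : R3 → ℝ, ContDiff ℝ ∞ χ ∧ (∀ x, χ x ∈ Icc (0 : ℝ) 1) ∧
      (∀ x, ‖x‖ ≤ ρ / 3 → χ x = 1) ∧ (∀ x, ρ < ‖x‖ → χ x = 0) := by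
    obtain ⟨f⟩ : Nonempty (ContDiffBump (0 : R3)) := inferInstance
    refine ⟨(⟨ρ / 3, ρ / 2, by positivity, by linarith⟩ : ContDiffBump (0 : R3)), ?_, ?_, ?_, ?_⟩
    · exact ContDiffBump.contDiff _
    · exact fun x => ⟨ContDiffBump.nonneg _, ContDiffBump.le_one _⟩
    · exact fun x hx => ContDiffBump.one_of_mem_closedBall _ (mem_closedBall_zero_iff.2 hx)
    · intro x hx
      refine ContDiffBump.zero_of_le_dist _ ?_
      rw [dist_zero_right]
      show ρ / 2 ≤ ‖x‖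
      linarith
  obtain ⟨σ, hσ⟩ : ∃ σ : ℝ → R4 → R4, σ = Sig χ m := ⟨_, rfl⟩
  have σc : ContDiff ℝ ∞ (fun z : ℝ × R4 => σ z.1 z.2) := by rw [hσ]; exact contDiff_Sig χc mc
  have σ2 : ∀ t p, (σ t p).2 = p.2 := by rw [hσ]; exact fun _ _ => rfl
  have σ0 : ∀ p, σ 0 p = p := by rw [hσ]; exact Sig_zero χ m
  have σi : ∀ t, Function.Injective (σ t) := by rw [hσ]; exact Sig_injective χm mmono
  have σld : ∀ t p, LD (σ t) p := by rw [hσ]; exact ld_Sig χc mc χm md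
  have σoff : ∀ t p, p ∉ K → σ t p = p := by
    rw [hσ, hKdef]; exact fun t p hp => Sig_off χ0 mid t hp
  have σmem : ∀ t, ∀ p ∈ K, σ t p ∈ K := by
    rw [hσ, hKdef]; exact fun t p hp => Sig_mem χm mmono mid t hp
  have σsrc : ∀ t, ∀ p ∈ Φ.source, σ t p ∈ Φ.source := by
    intro t p hp
    by_cases h : p ∈ K
    · exact Ks (σmem t p h)
    · rw [σoff t p h]; exact hp
  obtain ⟨S, hS⟩ : ∃ S : ℝ × R4 → R4, S = fun z =>
      if z.2 ∈ Φ '' K then Φ (σ z.1 (Φ.symm z.2)) else z.2 := ⟨_, rfl⟩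
  have Sin : ∀ t y, y ∈ Φ '' K → S (t, y) = Φ (σ t (Φ.symm y)) := by
    intro t y hy; rw [hS]; exact if_pos hy
  have Sout : ∀ t y, y ∉ Φ '' K → S (t, y) = y := by
    intro t y hy; rw [hS]; exact if_neg hy
  have Stgt : ∀ t y, y ∈ Φ.target → S (t, y) = Φ (σ t (Φ.symm y)) := by
    intro t y hy
    by_cases h : y ∈ Φ '' K
    · exact Sin t y h
    · have h' : Φ.symm y ∉ K := fun h' => h ⟨_, h', Φr y hy⟩
      rw [Sout t y h, σoff t _ h', Φr y hy]
  have symK : ∀ y ∈ Φ '' K, Φ.symm y ∈ K := by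
    rintro y ⟨p, hp, rfl⟩
    rw [Φl p (Ks hp)]; exact hp
  have Smem : ∀ t y, y ∈ Φ '' K → S (t, y) ∈ Φ '' K := by
    intro t y hy
    rw [Sin t y hy]
    exact ⟨_, σmem t _ (symK y hy), rfl⟩
  -- smoothness
  have Sc : ContDiff ℝ ∞ S := by
    rw [contDiff_iff_contDiffAt]
    rintro ⟨t, y⟩
    by_cases hy : y ∈ Φ.target
    · have e : S =ᶠ[𝓝 (t, y)] fun z => Φ (σ z.1 (Φ.symm z.2)) := by
        have : ∀ᶠ z : ℝ × R4 in 𝓝 (t, y), z.2 ∈ Φ.target :=
          continuousAt_snd.eventually (tgo.mem_nhds hy)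
        filter_upwards [this] with z hz
        exact Stgt z.1 z.2 hz
      refine ContDiffAt.congr_of_eventuallyEq ?_ e
      have c1 : ContDiffAt ℝ ∞ (fun z : ℝ × R4 => Φ.symm z.2) (t, y) :=
        (Φs.contDiffAt (tgo.mem_nhds hy)).comp (t, y) contDiffAt_snd
      have c2 : ContDiffAt ℝ ∞ (fun z : ℝ × R4 => σ z.1 (Φ.symm z.2)) (t, y) :=
        ContDiffAt.comp (t, y) (g := fun z : ℝ × R4 => σ z.1 z.2)
          (f := fun z : ℝ × R4 => (z.1, Φ.symm z.2)) σc.contDiffAt (contDiffAt_fst.prodMk c1)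
      have hsrc : σ t (Φ.symm y) ∈ Φ.source := σsrc t _ (Φms y hy)
      exact ContDiffAt.comp (t, y) (g := Φ) (f := fun z : ℝ × R4 => σ z.1 (Φ.symm z.2))
        (Φc.contDiffAt (so.mem_nhds hsrc)) c2
    · have hy' : y ∉ Φ '' K := fun h => hy (Ct h)
      have e : S =ᶠ[𝓝 (t, y)] fun z => z.2 := by
        have : ∀ᶠ z : ℝ × R4 in 𝓝 (t, y), z.2 ∈ (Φ '' K)ᶜ :=
          continuousAt_snd.eventually (CK.isOpen_compl.mem_nhds hy')
        filter_upwards [this] with z hz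
        exact Sout z.1 z.2 hz
      exact contDiffAt_snd.congr_of_eventuallyEq e
  -- embeddings
  have Se : ∀ t, EmbOn I4 (fun y => S (t, y)) univ := by
    intro t
    refine ⟨fun y _ => ?_, ?_⟩
    · by_cases hy : y ∈ Φ.target
      · have l1 : LD (σ t ∘ Φ.symm) y := ld_comp (ldΦs y hy) (σld t _)
        have l2 : LD (Φ ∘ (σ t ∘ Φ.symm)) y := ld_comp l1 (ldΦ _ (σsrc t _ (Φms y hy)))
        refine ld_congr ?_ l2
        filter_upwards [tgo.mem_nhds hy] with z hz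
        exact (Stgt t z hz).symm
      · have hy' : y ∉ Φ '' K := fun h => hy (Ct h)
        have l0 : LD (fun z : R4 => z) y := by
          rw [ld_iff]
          refine ⟨Eventually.of_forall fun q => contDiffAt_id, ?_⟩
          rw [fderiv_fun_id]
          exact fun v w h => h
        refine ld_congr ?_ l0
        filter_upwards [CK.isOpen_compl.mem_nhds hy'] with z hz
        exact (Sout t z hz).symm
    · intro y _ y' _ h
      have h : S (t, y) = S (t, y') := h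
      by_cases hy : y ∈ Φ '' K
      · by_cases hy' : y' ∈ Φ '' K
        · rw [Sin t y hy, Sin t y' hy'] at h
          have e := σi t (Φinj _ (Ks (σmem t _ (symK y hy))) _ (Ks (σmem t _ (symK y' hy'))) h)
          rw [← Φr y (Ct hy), e, Φr y' (Ct hy')]
        · exfalso
          have h7 := Smem t y hy
          rw [h, Sout t y' hy'] at h7
          exact hy' h7
      · by_cases hy' : y' ∈ Φ '' K
        · exfalso
          have h7 := Smem t y' hy'
          rw [← h, Sout t y hy] at h7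
          exact hy h7
        · rwa [Sout t y hy, Sout t y' hy'] at h
  -- the values near the two points
  have near : ∀ c c' : ℝ, D.s₀ < c → c < D.s₁ → (∀ᶠ s in 𝓝 c, m s = s + (c' - c)) →
      ∃ δ : ℝ, 0 < δ ∧ ∀ p : R4, |p.1 - c| < δ → ‖p.2‖ < δ →
        S (1, D.J p) = D.J (p.1 + (c' - c), p.2) := by
    intro c c' hc1 hc2 hmc
    obtain ⟨δ₁, hδ₁, H1⟩ := Metric.eventually_nhds_iff.1 hmc
    have hsrc : ((c, 0) : R4) ∈ Φ.source := hL ⟨hc1.le, hc2.le, rfl⟩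
    obtain ⟨δ₂, hδ₂, H2⟩ := Metric.isOpen_iff.1 so _ hsrc
    refine ⟨min (min δ₁ δ₂) (ρ / 3), lt_min (lt_min hδ₁ hδ₂) (by positivity), ?_⟩
    intro p hp1 hp2
    have b1 : |p.1 - c| < δ₁ := hp1.trans_le ((min_le_left _ _).trans (min_le_left _ _))
    have b2 : |p.1 - c| < δ₂ := hp1.trans_le ((min_le_left _ _).trans (min_le_right _ _))
    have b3 : ‖p.2‖ < δ₂ := hp2.trans_le ((min_le_left _ _).trans (min_le_right _ _))
    have b4 : ‖p.2‖ ≤ ρ / 3 := (hp2.trans_le (min_le_right _ _)).le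
    have hps : p ∈ Φ.source := by
      refine H2 ?_
      rw [Metric.mem_ball, Prod.dist_eq]
      refine max_lt ?_ ?_
      · show dist p.1 c < δ₂
        rwa [Real.dist_eq]
      · show dist p.2 0 < δ₂
        rwa [dist_zero_right]
    have hm1 : m p.1 = p.1 + (c' - c) := H1 (by rwa [Real.dist_eq])
    have e1 : σ 1 p = (p.1 + (c' - c), p.2) := by
      rw [hσ]
      show (p.1 + step 1 * χ p.2 * (m p.1 - p.1), p.2) = (p.1 + (c' - c), p.2)
      rw [step_of_one_le le_rfl, χ1 _ b4, hm1]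
      congr 1; ring
    have hs' : σ 1 p ∈ Φ.source := σsrc 1 p hps
    rw [← hΦ p hps, Stgt 1 _ (Φmt p hps), Φl p hps, hΦ _ hs', e1]
  obtain ⟨δa, hδa, Ha⟩ := near a a' h1 (h2.trans h3) ma
  obtain ⟨δb, hδb, Hb⟩ := near b b' (h1.trans h2) h3 mb
  refine ⟨S, min δa δb, Sc, ?_, lt_min hδa hδb, fun t _ => Se t, ?_, ?_, ?_⟩
  · intro y
    by_cases hy : y ∈ Φ '' K
    · rw [Sin 0 y hy, σ0, Φr y (Ct hy)]
    · exact Sout 0 y hy
  · rintro t - y ⟨hyU, hyA⟩
    by_cases hy : y ∈ Φ '' K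
    · have hk := symK y hy
      have hk' := σmem t _ hk
      rw [Sin t y hy]
      refine ⟨KU _ hk', ?_⟩
      rintro ⟨q, hq, hqe⟩
      have hq' : q ∈ seg D.s₀ D.s₁ := hq
      have hqs : q ∈ Φ.source := hL hq'
      rw [← hΦ q hqs] at hqe
      have e : q = σ t (Φ.symm y) := Φinj _ hqs _ (Ks hk') hqe
      have e2 : (Φ.symm y).2 = 0 := by
        rw [← σ2 t (Φ.symm y), ← e]; exact hq'.2.2
      apply hyA
      refine ⟨Φ.symm y, ?_, ?_⟩
      · rw [hKdef] at hk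
        have hk1 := hk.1
        show D.s₀ ≤ (Φ.symm y).1 ∧ (Φ.symm y).1 ≤ D.s₁ ∧ (Φ.symm y).2 = 0
        exact ⟨by linarith [hk1.1], by linarith [hk1.2], e2⟩
      · rw [← hΦ _ (Ks hk), Φr y (Ct hy)]
    · rw [Sout t y hy]; exact ⟨hyU, hyA⟩
  · exact fun p hp1 hp2 => Ha p (hp1.trans_le (min_le_left _ _)) (hp2.trans_le (min_le_left _ _))
  · exact fun p hp1 hp2 => Hb p (hp1.trans_le (min_le_right _ _)) (hp2.trans_le (min_le_right _ _))

end Pool.Agent.Helper70.H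


end

/-! ## Helper18.BI.H.M_SM -/

section

/-!
# Project BI, stage 3 (H), module SM: smoothing the homotopy of the loops of arcs
-/

set_option autoImplicit false

open scoped Manifold ContDiff Topology ComplexConjugate
open Set Pool.Agent.Helper65.Barb Pool.Agent.Helper18.BI
open Pool.Agent.Helper27.BI (zarc phi)

namespace Pool.Agent.Helper18.BI.H

namespace SM

private theorem sq_bar_sm (s a : ℝ) (w : ℂ) (h1 : 1 / 5 ≤ a) (h2 : a ≤ 4 / 5) :
    sq 0 (s, (a, w)) = bar a := by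
  have hp : prof 0 a = 0 := by
    unfold prof
    have e1 : √((1 / 25 - a ^ 2) ^ 2 + 0 ^ 2) = -(1 / 25 - a ^ 2) := by
      rw [show ((1 : ℝ) / 25 - a ^ 2) ^ 2 + 0 ^ 2 = (-(1 / 25 - a ^ 2)) ^ 2 by ring]
      exact Real.sqrt_sq (by nlinarith)
    have e2 : √((1 / 25 - (a - 1) ^ 2) ^ 2 + 0 ^ 2) = -(1 / 25 - (a - 1) ^ 2) := by
      rw [show ((1 : ℝ) / 25 - (a - 1) ^ 2) ^ 2 + 0 ^ 2 = (-(1 / 25 - (a - 1) ^ 2)) ^ 2 by ring]
      exact Real.sqrt_sq (by nlinarith)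
    rw [e1, e2]
    ring
  have hf : ∀ k : ℝ, fac 0 a k = 0 := by
    intro k
    unfold fac
    rw [hp]
    simp
  have ha : axc 0 a = a := by
    unfold axc
    have e1 : √((a + 1 / 5) ^ 2 + 0 ^ 2) = a + 1 / 5 := by
      rw [show (a + 1 / 5) ^ 2 + (0 : ℝ) ^ 2 = (a + 1 / 5) ^ 2 by ring]
      exact Real.sqrt_sq (by linarith)
    have e2 : √((a - 6 / 5) ^ 2 + 0 ^ 2) = 6 / 5 - a := by
      rw [show (a - 6 / 5) ^ 2 + (0 : ℝ) ^ 2 = (6 / 5 - a) ^ 2 by ring]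
      exact Real.sqrt_sq (by linarith)
    rw [e1, e2]
    ring
  unfold sq bar
  simp only [hf, ha]
  simp

private theorem sq_fst_sm (s : ℝ) (x : R3) : sq 0 (s, x) = sq 0 (1 / 2, x) := by
  unfold sq
  simp

private theorem nsq_mm (q s : ℝ) : nsq (mm q s) = 1 := by
  unfold mm
  rw [Pool.Agent.Helper27.BI.m_ZNSQ]
  ring

private theorem mm_out (q s : ℝ) (h : s ≤ 9 / 20 ∨ 11 / 20 ≤ s) : mm q s = (1, 0) := by
  have h1 : Real.cos (phi (10 * s - 9 / 2)) = 1 ∧ Real.sin (phi (10 * s - 9 / 2)) = 0 := by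
    unfold phi step
    rcases h with h | h
    · rw [Real.smoothTransition.zero_of_nonpos (by linarith)]
      simp
    · rw [Real.smoothTransition.one_of_one_le (by linarith)]
      simp
  unfold mm zarc Pool.Agent.Helper27.BI.chi
  rw [h1.1, h1.2]
  refine Prod.ext (by simp) (Complex.ext (by simp) (by simp))

private theorem mm_smooth : ContDiff ℝ ∞ (fun z : ℝ × ℝ => mm z.1 z.2) := by
  have hst : ContDiff ℝ ∞ (fun z : ℝ × ℝ => step (10 * z.2 - 9 / 2)) :=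
    Real.smoothTransition.contDiff.comp ((contDiff_const.mul contDiff_snd).sub contDiff_const)
  have hphi : ContDiff ℝ ∞ (fun z : ℝ × ℝ => phi (10 * z.2 - 9 / 2)) :=
    contDiff_const.mul hst
  have hchi : ContDiff ℝ ∞ (fun z : ℝ × ℝ => Pool.Agent.Helper27.BI.chi (10 * z.2 - 9 / 2)) :=
    (contDiff_const.sub (Real.contDiff_cos.comp hphi)).div_const _
  have hq : ContDiff ℝ ∞ (fun z : ℝ × ℝ => 2 * Real.pi * z.1) := contDiff_const.mul contDiff_fst
  have hq' : ContDiff ℝ ∞ (fun z : ℝ × ℝ => Real.pi * z.1) := contDiff_const.mul contDiff_fst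
  have h1 : ContDiff ℝ ∞ (fun z : ℝ × ℝ =>
      1 + Pool.Agent.Helper27.BI.chi (10 * z.2 - 9 / 2) * (Real.cos (2 * Real.pi * z.1) - 1)) :=
    contDiff_const.add (hchi.mul ((Real.contDiff_cos.comp hq).sub contDiff_const))
  have h2 : ContDiff ℝ ∞ (fun z : ℝ × ℝ =>
      -Real.sin (Real.pi * z.1) * Real.sin (phi (10 * z.2 - 9 / 2))) :=
    (Real.contDiff_sin.comp hq').neg.mul (Real.contDiff_sin.comp hphi)
  have h3 : ContDiff ℝ ∞ (fun z : ℝ × ℝ =>
      Pool.Agent.Helper27.BI.chi (10 * z.2 - 9 / 2) * Real.sin (2 * Real.pi * z.1)) :=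
    hchi.mul (Real.contDiff_sin.comp hq)
  have h4 : ContDiff ℝ ∞ (fun z : ℝ × ℝ =>
      ((-Real.sin (Real.pi * z.1) * Real.sin (phi (10 * z.2 - 9 / 2)) : ℝ) : ℂ) +
        ((Pool.Agent.Helper27.BI.chi (10 * z.2 - 9 / 2) * Real.sin (2 * Real.pi * z.1) : ℝ) : ℂ) * Complex.I) :=
    (Complex.ofRealCLM.contDiff.comp h2).add ((Complex.ofRealCLM.contDiff.comp h3).mul
      contDiff_const)
  have h5 := h1.prodMk h4
  refine (congrArg (ContDiff ℝ ∞) (funext fun z => ?_)).mp h5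
  unfold mm zarc
  refine Prod.ext rfl (Complex.ext ?_ ?_)
  · rw [Complex.add_re, Complex.ofReal_re, Complex.re_ofReal_mul, Complex.I_re, mul_zero, add_zero]
  · rw [Complex.add_im, Complex.ofReal_im, Complex.im_ofReal_mul, Complex.I_im, mul_one, zero_add]

private theorem fst_le_sm {m : R3} (hm : nsq m = 1) : m.1 ≤ 1 := by
  unfold nsq at hm
  nlinarith [sq_nonneg m.2.re, sq_nonneg m.2.im, sq_nonneg (m.1 - 1)]

private theorem mem_SP_sm (s r : ℝ) (m : R3) (hm : nsq m = 1) (h1 : 7 / 10 ≤ r)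
    (h2 : r ≤ 39 / 50) : sq 0 (s, r • m) ∈ SP := by
  apply hS4.1
  have h3 := fst_le_sm hm
  unfold nsq at hm
  refine ⟨?_, ?_⟩
  · show ((1 : ℝ) / 5) ^ 2 ≤ nsq _
    unfold nsq
    simp only [Prod.smul_fst, Prod.smul_snd, smul_eq_mul, Complex.real_smul, Complex.mul_re,
      Complex.mul_im, Complex.ofReal_re, Complex.ofReal_im, zero_mul, sub_zero, add_zero]
    nlinarith [mul_self_nonneg (r - 7 / 10)]
  · show ((1 : ℝ) / 5) ^ 2 ≤ nsq _
    unfold nsq
    simp only [Prod.smul_fst, Prod.smul_snd, smul_eq_mul, Complex.real_smul, Complex.mul_re,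
      Complex.mul_im, Complex.ofReal_re, Complex.ofReal_im, zero_mul, sub_zero, add_zero]
    have h4 : (r * m.1 - 1) ^ 2 + (r * m.2.re) ^ 2 + (r * m.2.im) ^ 2 =
        r ^ 2 - 2 * r * m.1 + 1 := by linear_combination r ^ 2 * hm
    rw [h4]
    nlinarith [mul_nonneg (by linarith : (0 : ℝ) ≤ r) (by linarith : (0 : ℝ) ≤ 1 - m.1)]

private theorem mem_neckE_sm (s r : ℝ) (m : R3) (hm : nsq m = 1) (h1 : 7 / 10 ≤ r)
    (h2 : r ≤ 39 / 50) (h : r = 73 / 100 ∨ m = (1, 0)) (h3 : 3 / 5 ≤ 73 / 100 * m.1) :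
    sq 0 (s, r • m) ∈ neckE := by
  have h4 := fst_le_sm hm
  have h5 : 3 / 5 ≤ r * m.1 ∧ r * m.1 ≤ 4 / 5 := by
    rcases h with h | h
    · rw [h]; exact ⟨h3, by linarith⟩
    · rw [h]; exact ⟨by simp; linarith, by simp; linarith⟩
  have e : ((s, r • m) : R4) = (s, (r * m.1, (r : ℝ) • m.2)) := rfl
  rw [e, sq_bar_sm _ _ _ (by linarith) h5.2]
  exact ⟨⟨rfl, by show (1 : ℝ) / 5 ≤ r * m.1; linarith, h5.2, rfl⟩, h5.1⟩

private theorem nu_cont_sm : Continuous nu := by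
  have h : ContinuousOn ((fun q : ℝ × R4 => sq q.1 q.2) ∘
      fun m : R3 => (((0 : ℝ), ((1 : ℝ) / 2, ((73 : ℝ) / 100) • m)) : ℝ × R4)) univ :=
    hS3.comp (by fun_prop) (fun m _ => ⟨self_mem_Ici, mem_univ _⟩)
  exact continuousOn_univ.1 h

private theorem near_sm {F : R4 → R4} (h : EmbOn 𝓘(ℝ, R4) F SP) :
    ∃ O : Set R4, IsOpen O ∧ SP ⊆ O ∧ ContDiffOn ℝ ∞ F O := by
  refine ⟨{p | IsLocalDiffeomorphAt 𝓘(ℝ, R4) 𝓘(ℝ, R4) ∞ F p}, ?_, fun p hp => h.1 p hp, ?_⟩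
  · rw [isOpen_iff_mem_nhds]
    rintro p ⟨Φ, hp, heq⟩
    exact Filter.mem_of_superset (Φ.open_source.mem_nhds hp) fun q hq => ⟨Φ, hq, heq⟩
  · intro p hp
    exact (contMDiffAt_iff_contDiffAt.1 (IsLocalDiffeomorphAt.contMDiffAt hp)).contDiffWithinAt

private theorem sphere_cpt : IsCompact {m : R3 | nsq m = 1} := by
  have hc : Continuous (fun m : R3 => nsq m) := by
    unfold nsq
    fun_prop
  refine (isCompact_closedBall (0 : R3) 1).of_isClosed_subset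
    (isClosed_singleton.preimage hc) ?_
  intro m hm
  have hm' : m.1 ^ 2 + m.2.re ^ 2 + m.2.im ^ 2 = 1 := hm
  rw [mem_closedBall_zero_iff, Prod.norm_def]
  refine max_le ?_ ?_
  · rw [Real.norm_eq_abs]
    exact abs_le_one_iff_mul_self_le_one.2 (by nlinarith [sq_nonneg m.2.re, sq_nonneg m.2.im])
  · have h2 : ‖m.2‖ ^ 2 ≤ 1 := by
      rw [← Complex.normSq_eq_norm_sq, Complex.normSq_apply]
      nlinarith [sq_nonneg m.1]
    nlinarith [norm_nonneg m.2]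

private theorem tube_sm {F : R4 → R4} {O U : Set R4} {T : Set (ℝ × ℝ × R3)} {δ : ℝ}
    (hO : IsOpen O) (hF : ContinuousOn F O) (hT : IsCompact T) (hU : IsOpen U)
    (hz : ∀ z ∈ T, sq 0 (z.1, z.2.1 • z.2.2) ∈ O)
    (hzU : ∀ z ∈ T, 3 / 5 ≤ 73 / 100 * z.2.2.1 → sq 0 (z.1, z.2.1 • z.2.2) ∈ U) (hδ : 0 < δ) :
    ∃ ε₀ > 0, ∀ ε ∈ Ioo 0 ε₀, ∀ z ∈ T, sq ε (z.1, z.2.1 • z.2.2) ∈ O ∧
      dist (F (sq ε (z.1, z.2.1 • z.2.2))) (F (sq 0 (z.1, z.2.1 • z.2.2))) < δ ∧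
      (3 / 5 ≤ 73 / 100 * z.2.2.1 → sq ε (z.1, z.2.1 • z.2.2) ∈ U) := by
  have hc : ContinuousOn (fun x : ℝ × (ℝ × ℝ × R3) => sq x.1 (x.2.1, x.2.2.1 • x.2.2.2))
      (Ici 0 ×ˢ univ) := by
    have h : ContinuousOn ((fun q : ℝ × R4 => sq q.1 q.2) ∘
        fun x : ℝ × (ℝ × ℝ × R3) => ((x.1, (x.2.1, x.2.2.1 • x.2.2.2)) : ℝ × R4))
        (Ici 0 ×ˢ univ) :=
      hS3.comp (by fun_prop) (fun x hx => ⟨hx.1, mem_univ _⟩)
    exact h
  have hc0 : ContinuousOn (fun x : ℝ × (ℝ × ℝ × R3) => sq 0 (x.2.1, x.2.2.1 • x.2.2.2))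
      (Ici 0 ×ˢ univ) := by
    have h : ContinuousOn ((fun q : ℝ × R4 => sq q.1 q.2) ∘
        fun x : ℝ × (ℝ × ℝ × R3) => (((0 : ℝ), (x.2.1, x.2.2.1 • x.2.2.2)) : ℝ × R4))
        (Ici 0 ×ˢ univ) :=
      hS3.comp (by fun_prop) (fun x hx => ⟨self_mem_Ici, mem_univ _⟩)
    exact h
  have key : ∀ᶠ ε in 𝓝 (0 : ℝ), ∀ z ∈ T, 0 ≤ ε → sq ε (z.1, z.2.1 • z.2.2) ∈ O ∧
      dist (F (sq ε (z.1, z.2.1 • z.2.2))) (F (sq 0 (z.1, z.2.1 • z.2.2))) < δ ∧
      (3 / 5 ≤ 73 / 100 * z.2.2.1 → sq ε (z.1, z.2.1 • z.2.2) ∈ U) := by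
    refine hT.eventually_forall_of_forall_eventually fun z hzT => ?_
    have hmem : ((0 : ℝ), z) ∈ Ici (0 : ℝ) ×ˢ (univ : Set (ℝ × ℝ × R3)) :=
      ⟨self_mem_Ici, mem_univ _⟩
    have t1 := hc (0, z) hmem
    have t0 := hc0 (0, z) hmem
    have hFa : ContinuousAt F (sq 0 (z.1, z.2.1 • z.2.2)) := hF.continuousAt (hO.mem_nhds (hz z hzT))
    have a1 : ∀ᶠ x in 𝓝[Ici (0 : ℝ) ×ˢ univ] ((0 : ℝ), z),
        sq x.1 (x.2.1, x.2.2.1 • x.2.2.2) ∈ O := t1.eventually (hO.mem_nhds (hz z hzT))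
    have a2 : ∀ᶠ x in 𝓝[Ici (0 : ℝ) ×ˢ univ] ((0 : ℝ), z),
        dist (F (sq x.1 (x.2.1, x.2.2.1 • x.2.2.2))) (F (sq 0 (x.2.1, x.2.2.1 • x.2.2.2))) < δ := by
      have b1 : Filter.Tendsto (fun x : ℝ × (ℝ × ℝ × R3) => F (sq x.1 (x.2.1, x.2.2.1 • x.2.2.2)))
          (𝓝[Ici (0 : ℝ) ×ˢ univ] ((0 : ℝ), z)) (𝓝 (F (sq 0 (z.1, z.2.1 • z.2.2)))) :=
        hFa.tendsto.comp t1
      have b0 : Filter.Tendsto (fun x : ℝ × (ℝ × ℝ × R3) => F (sq 0 (x.2.1, x.2.2.1 • x.2.2.2)))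
          (𝓝[Ici (0 : ℝ) ×ˢ univ] ((0 : ℝ), z)) (𝓝 (F (sq 0 (z.1, z.2.1 • z.2.2)))) :=
        hFa.tendsto.comp t0
      have b2 := b1.dist b0
      rw [dist_self] at b2
      exact b2.eventually_lt_const hδ
    have a3 : ∀ᶠ x in 𝓝[Ici (0 : ℝ) ×ˢ univ] ((0 : ℝ), z),
        (3 / 5 ≤ 73 / 100 * x.2.2.2.1 → sq x.1 (x.2.1, x.2.2.1 • x.2.2.2) ∈ U) := by
      by_cases h : 3 / 5 ≤ 73 / 100 * z.2.2.1
      · exact (t1.eventually (hU.mem_nhds (hzU z hzT h))).mono fun x hx _ => hx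
      · rw [not_le] at h
        have hcc : Continuous (fun x : ℝ × (ℝ × ℝ × R3) => 73 / 100 * x.2.2.2.1) := by fun_prop
        have := (hcc.tendsto (0, z)).eventually_lt_const h
        refine (this.filter_mono nhdsWithin_le_nhds).mono fun x hx hx' => ?_
        exact absurd hx' (not_le.2 hx)
    have a4 := (a1.and (a2.and a3))
    rw [eventually_nhdsWithin_iff] at a4
    exact a4.mono fun x hx h0 => hx ⟨h0, mem_univ _⟩
  obtain ⟨ε₀, h0, h1⟩ := Metric.eventually_nhds_iff.1 key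
  refine ⟨ε₀, h0, fun ε hε z hz' => h1 ?_ z hz' hε.1.le⟩
  rw [Real.dist_eq, sub_zero, abs_of_pos hε.1]
  exact hε.2

private theorem conv_sm {v w : R4} {t δ : ℝ} (ht : t ∈ Icc (0 : ℝ) 1) (h1 : ‖v‖ ≤ δ)
    (h2 : ‖w‖ ≤ δ) : ‖(1 - t) • v + t • w‖ ≤ δ := by
  refine (norm_add_le _ _).trans ?_
  have h3 : (0 : ℝ) ≤ 1 - t := by linarith [ht.2]
  rw [norm_smul, norm_smul, Real.norm_of_nonneg ht.1, Real.norm_of_nonneg h3]
  have h4 := mul_le_mul_of_nonneg_left h1 h3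
  have h5 := mul_le_mul_of_nonneg_left h2 ht.1
  linarith

private theorem fin_sm {x y z w : R4} {r : ℝ} (h1 : dist x y ≤ r / 8) (h2 : dist z x < r / 8)
    (h3 : r < dist y w) (hr : 0 < r) : r / 2 ≤ dist z w := by
  have d6 : dist y w ≤ dist y x + dist x z + dist z w := dist_triangle4 _ _ _ _
  rw [dist_comm y x, dist_comm x z] at d6
  linarith

end SM

open SM in
theorem m_SM : StSM := by
  intro F F' U H n₀ n₁ ρ hF hF' hU hUs hFU hH hn₀ hn₁ hρ hρ1 hρ2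
  obtain ⟨hHc, hH0, hH1, hHe, hHK⟩ := hH
  obtain ⟨O, hO, hSO, hFO⟩ := near_sm hF
  obtain ⟨O', hO', hSO', hFO'⟩ := near_sm hF'
  have hSPs : sph 1 ⊆ SP := fun p hp => Or.inl (Or.inr hp)
  have hNs : neckE ⊆ SP := fun p hp => Or.inr hp.1
  -- the distance to the fixed cuff
  have hKc : IsCompact (F '' sph 1) := by
    have h1 : IsClosed (sph 1) := by
      have hc : Continuous (fun p : R4 => rsq 1 p) := by
        unfold rsq nsq
        fun_prop
      exact (isClosed_singleton.preimage continuous_fst).inter (isClosed_singleton.preimage hc)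
    have h2 : IsCompact (sph 1) := hS4.2.2.2.2.2.2.2.2.1.of_isClosed_subset h1 hSPs
    exact h2.image_of_continuousOn (hFO.continuousOn.mono (hSPs.trans hSO))
  have hHi : IsCompact (H '' (Icc (0 : ℝ) 1 ×ˢ {m : R3 | nsq m = 1})) :=
    (isCompact_Icc.prod sphere_cpt).image_of_continuousOn hHc
  have hdis : Disjoint (H '' (Icc (0 : ℝ) 1 ×ˢ {m : R3 | nsq m = 1})) (F '' sph 1) := by
    rw [Set.disjoint_left]
    rintro y ⟨⟨u, m⟩, ⟨h1, h2⟩, rfl⟩ h3
    exact hHK u h1 m h2 h3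
  obtain ⟨r, hr0, hr⟩ := Metric.exists_pos_forall_lt_edist hHi hKc.isClosed hdis
  have hκ : ∀ u ∈ Icc (0 : ℝ) 1, ∀ m, nsq m = 1 → ∀ y ∈ F '' sph 1, (r : ℝ) < dist (H (u, m)) y := by
    intro u hu m hm y hy
    have h1 := hr _ ⟨(u, m), ⟨hu, hm⟩, rfl⟩ y hy
    rw [edist_nndist] at h1
    exact_mod_cast h1
  have hr0' : (0 : ℝ) < r := by exact_mod_cast hr0
  -- a slightly larger interval
  have hnl : n₀ ≤ n₁ := by linarith
  have hb₀ := hρ2 n₀ ⟨le_refl _, hnl⟩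
  have hb₁ := hρ2 n₁ ⟨hnl, le_refl _⟩
  have hρc : Continuous ρ := hρ.continuous
  have hev : ∀ x : ℝ, 73 / 100 ≤ ρ x → ρ x ≤ 3 / 4 →
      ∃ η > 0, ∀ y, dist y x < η → 7 / 10 ≤ ρ y ∧ ρ y ≤ 39 / 50 := by
    intro x h1 h2
    have h3 : ∀ᶠ y in 𝓝 x, 7 / 10 ≤ ρ y ∧ ρ y ≤ 39 / 50 := by
      filter_upwards [(hρc.tendsto x).eventually_const_le (show (7 : ℝ) / 10 < ρ x by linarith),
        (hρc.tendsto x).eventually_le_const (show ρ x < 39 / 50 by linarith)] with y h3 h4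
      exact ⟨h3, h4⟩
    exact Metric.eventually_nhds_iff.1 h3
  obtain ⟨η₀, hη₀, hη₀'⟩ := hev n₀ hb₀.1 hb₀.2
  obtain ⟨η₁, hη₁, hη₁'⟩ := hev n₁ hb₁.1 hb₁.2
  obtain ⟨a, ha⟩ : ∃ a, a = n₀ - η₀ / 2 := ⟨_, rfl⟩
  obtain ⟨b, hb⟩ : ∃ b, b = n₁ + η₁ / 2 := ⟨_, rfl⟩
  have han : a < n₀ := by linarith
  have hbn : n₁ < b := by linarith
  have hρab : ∀ s ∈ Icc a b, 7 / 10 ≤ ρ s ∧ ρ s ≤ 39 / 50 := by
    intro s hs
    rcases lt_or_ge s n₀ with h | h
    · exact hη₀' s (by rw [Real.dist_eq, abs_lt]; constructor <;> linarith [hs.1])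
    · rcases lt_or_ge n₁ s with h' | h'
      · exact hη₁' s (by rw [Real.dist_eq, abs_lt]; constructor <;> linarith [hs.2])
      · have := hρ2 s ⟨h, h'⟩
        constructor <;> linarith
  -- the tube
  let T : Set (ℝ × ℝ × R3) := {z | z.1 ∈ Icc a b ∧ z.2.1 ∈ Icc (7 / 10) (39 / 50) ∧
    nsq z.2.2 = 1 ∧ (z.2.1 = 73 / 100 ∨ z.2.2 = (1, 0))}
  have hT : IsCompact T := by
    refine (isCompact_Icc.prod ((isCompact_Icc (a := (7 : ℝ) / 10) (b := 39 / 50)).prod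
      sphere_cpt)).of_isClosed_subset (s := Icc a b ×ˢ (Icc (7 / 10) (39 / 50) ×ˢ
        {m : R3 | nsq m = 1})) ?_ (fun z hz => ⟨hz.1, hz.2.1, hz.2.2.1⟩)
    have c1 : IsClosed {z : ℝ × ℝ × R3 | z.1 ∈ Icc a b} := isClosed_Icc.preimage continuous_fst
    have c2 : IsClosed {z : ℝ × ℝ × R3 | z.2.1 ∈ Icc (7 / 10 : ℝ) (39 / 50)} :=
      isClosed_Icc.preimage (by fun_prop)
    have c3 : IsClosed {z : ℝ × ℝ × R3 | nsq z.2.2 = 1} :=
      sphere_cpt.isClosed.preimage (by fun_prop : Continuous fun z : ℝ × ℝ × R3 => z.2.2)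
    have c4 : IsClosed {z : ℝ × ℝ × R3 | z.2.1 = 73 / 100} :=
      isClosed_singleton.preimage (by fun_prop : Continuous fun z : ℝ × ℝ × R3 => z.2.1)
    have c5 : IsClosed {z : ℝ × ℝ × R3 | z.2.2 = (1, 0)} :=
      isClosed_singleton.preimage (by fun_prop : Continuous fun z : ℝ × ℝ × R3 => z.2.2)
    exact c1.inter (c2.inter (c3.inter (c4.union c5)))
  have hTS : ∀ z ∈ T, sq 0 (z.1, z.2.1 • z.2.2) ∈ SP := fun z hz =>
    mem_SP_sm _ _ _ hz.2.2.1 hz.2.1.1 hz.2.1.2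
  have hTN : ∀ z ∈ T, 3 / 5 ≤ 73 / 100 * z.2.2.1 → sq 0 (z.1, z.2.1 • z.2.2) ∈ U :=
    fun z hz h => hUs (Or.inr (mem_neckE_sm _ _ _ hz.2.2.1 hz.2.1.1 hz.2.1.2 hz.2.2.2 h))
  obtain ⟨ε₁, hε₁, hA⟩ := tube_sm (δ := r / 8) hO hFO.continuousOn hT hU
    (fun z hz => hSO (hTS z hz)) hTN (by linarith)
  obtain ⟨ε₂, hε₂, hB⟩ := tube_sm (δ := r / 8) hO' hFO'.continuousOn hT hU
    (fun z hz => hSO' (hTS z hz)) hTN (by linarith)
  refine ⟨r / 2, by linarith, min ε₁ ε₂, lt_min hε₁ hε₂, fun ε hε => ?_⟩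
  have hεp : 0 < ε := hε.1
  replace hA := hA ε ⟨hε.1, hε.2.trans_le (min_le_left _ _)⟩
  replace hB := hB ε ⟨hε.1, hε.2.trans_le (min_le_right _ _)⟩
  have hsq : ContDiff ℝ ∞ (sq ε) := by
    have h := hS2.2.2.2.comp (s := univ) (g := fun q : ℝ × R4 => sq q.1 q.2)
      (f := fun p : R4 => (ε, p)) (contDiff_const.prodMk contDiff_id).contDiffOn
      (fun p _ => ⟨hεp, mem_univ _⟩)
    exact contDiffOn_univ.1 h
  -- the pieces
  let cl : ℝ → ℝ := fun s => max a (min s b)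
  have hcl : Continuous cl := by fun_prop
  have hclm : ∀ s, cl s ∈ Icc a b := fun s =>
    ⟨le_max_left _ _, max_le (by linarith) (min_le_right _ _)⟩
  have hcle : ∀ s ∈ Icc a b, cl s = s := fun s hs => by
    show max a (min s b) = s
    rw [min_eq_left hs.2, max_eq_right hs.1]
  have hclmm : ∀ q s, mm q (cl s) = mm q s := by
    intro q s
    rcases le_or_gt a s with h | h
    · rcases le_or_gt s b with h' | h'
      · rw [hcle s ⟨h, h'⟩]
      · have e : cl s = b := by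
          show max a (min s b) = b
          rw [min_eq_right h'.le, max_eq_right (by linarith)]
        rw [e, mm_out q b (Or.inr (by linarith)), mm_out q s (Or.inr (by linarith))]
    · have e : cl s = a := by
        show max a (min s b) = a
        rw [min_eq_left (by linarith), max_eq_left h.le]
      rw [e, mm_out q a (Or.inl (by linarith)), mm_out q s (Or.inl (by linarith))]
  have hmmc : Continuous (fun x : ℝ × ℝ => mm x.1 x.2) := mm_smooth.continuous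
  let Z : ℝ × ℝ → ℝ × ℝ × R3 := fun x => (cl x.2, ρ (cl x.2), mm x.1 x.2)
  have hZc : Continuous Z := by
    have h1 : Continuous (fun x : ℝ × ℝ => cl x.2) := hcl.comp continuous_snd
    exact h1.prodMk ((hρc.comp h1).prodMk hmmc)
  have hZT : ∀ x, Z x ∈ T := by
    intro x
    refine ⟨hclm _, hρab _ (hclm _), nsq_mm _ _, ?_⟩
    rcases lt_or_ge (cl x.2) (9 / 20) with h | h
    · right
      show mm x.1 x.2 = _
      rw [← hclmm]
      exact mm_out _ _ (Or.inl h.le)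
    · rcases lt_or_ge (11 / 20) (cl x.2) with h' | h'
      · right
        show mm x.1 x.2 = _
        rw [← hclmm]
        exact mm_out _ _ (Or.inr h'.le)
      · left
        exact hρ1 _ ⟨h, h'⟩
  let G : ℝ × ℝ → R4 := fun x => F (sq ε ((Z x).1, (Z x).2.1 • (Z x).2.2))
  let G' : ℝ × ℝ → R4 := fun x => F' (sq ε ((Z x).1, (Z x).2.1 • (Z x).2.2))
  have hinner : Continuous (fun x : ℝ × ℝ => sq ε ((Z x).1, (Z x).2.1 • (Z x).2.2)) :=
    hsq.continuous.comp (by fun_prop)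
  have hGc : Continuous G := continuousOn_univ.1
    (hFO.continuousOn.comp hinner.continuousOn fun x _ => (hA _ (hZT x)).1)
  have hGc' : Continuous G' := continuousOn_univ.1
    (hFO'.continuousOn.comp hinner.continuousOn fun x _ => (hB _ (hZT x)).1)
  have hnuS : ∀ m, nsq m = 1 → nu m ∈ SP := fun m hm =>
    mem_SP_sm _ _ _ hm (by norm_num) (by norm_num)
  let N : ℝ × ℝ → R4 := fun x => F (nu (mm x.1 x.2))
  let N' : ℝ × ℝ → R4 := fun x => F' (nu (mm x.1 x.2))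
  have hNc : Continuous N := continuousOn_univ.1
    (hFO.continuousOn.comp (nu_cont_sm.comp hmmc).continuousOn
      fun x _ => hSO (hnuS _ (nsq_mm _ _)))
  have hNc' : Continuous N' := continuousOn_univ.1
    (hFO'.continuousOn.comp (nu_cont_sm.comp hmmc).continuousOn
      fun x _ => hSO' (hnuS _ (nsq_mm _ _)))
  let θ : ℝ → ℝ := fun u => Real.smoothTransition (3 * u - 1)
  have hθc : Continuous θ := Real.smoothTransition.continuous.comp (by fun_prop)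
  have hθm : ∀ u, θ u ∈ Icc (0 : ℝ) 1 := fun u =>
    ⟨Real.smoothTransition.nonneg _, Real.smoothTransition.le_one _⟩
  have hθ0 : ∀ u, u ≤ 1 / 3 → θ u = 0 := fun u hu =>
    Real.smoothTransition.zero_of_nonpos (by linarith)
  have hθ1 : ∀ u, 2 / 3 ≤ u → θ u = 1 := fun u hu =>
    Real.smoothTransition.one_of_one_le (by linarith)
  let K : ℝ × ℝ × ℝ → R4 := fun z => H (θ z.1, mm z.2.1 z.2.2)
  have hKcont : Continuous K := by
    refine continuousOn_univ.1 (hHc.comp (f := fun z : ℝ × ℝ × ℝ => (θ z.1, mm z.2.1 z.2.2))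
      (Continuous.continuousOn ?_) fun z _ => ⟨hθm _, nsq_mm _ _⟩)
    exact (hθc.comp continuous_fst).prodMk (hmmc.comp continuous_snd)
  let f : ℝ × ℝ × ℝ → R4 := fun z =>
    K z + ((1 - θ z.1) • (G z.2 - N z.2) + θ z.1 • (G' z.2 - N' z.2))
  have hfc : Continuous f := by
    have h1 : Continuous (fun z : ℝ × ℝ × ℝ => θ z.1) := hθc.comp continuous_fst
    have h2 : Continuous (fun z : ℝ × ℝ × ℝ => G z.2 - N z.2) := by fun_prop
    have h3 : Continuous (fun z : ℝ × ℝ × ℝ => G' z.2 - N' z.2) := by fun_prop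
    exact hKcont.add (((continuous_const.sub h1).smul h2).add (h1.smul h3))
  have hf0 : ∀ z : ℝ × ℝ × ℝ, z.1 ≤ 1 / 3 → f z = G z.2 := by
    intro z hz
    show K z + ((1 - θ z.1) • (G z.2 - N z.2) + θ z.1 • (G' z.2 - N' z.2)) = _
    have e : K z = N z.2 := by
      show H (θ z.1, mm z.2.1 z.2.2) = _
      rw [hθ0 _ hz, hH0 _ (nsq_mm _ _)]
    rw [e, hθ0 _ hz]
    simp
  have hf1 : ∀ z : ℝ × ℝ × ℝ, 2 / 3 ≤ z.1 → f z = G' z.2 := by
    intro z hz
    show K z + ((1 - θ z.1) • (G z.2 - N z.2) + θ z.1 • (G' z.2 - N' z.2)) = _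
    have e : K z = N' z.2 := by
      show H (θ z.1, mm z.2.1 z.2.2) = _
      rw [hθ1 _ hz, hH1 _ (nsq_mm _ _)]
    rw [e, hθ1 _ hz]
    simp
  have hf2 : ∀ z : ℝ × ℝ × ℝ, 3 / 5 ≤ 73 / 100 * (mm z.2.1 z.2.2).1 → f z = G z.2 := by
    intro z hz
    show K z + ((1 - θ z.1) • (G z.2 - N z.2) + θ z.1 • (G' z.2 - N' z.2)) = _
    have e : K z = N z.2 := hHe _ (hθm _) _ (nsq_mm _ _) hz
    have e1 : N' z.2 = N z.2 := (hFU (hUs (Or.inr (mem_neckE_sm _ _ _ (nsq_mm _ _) (by norm_num)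
      (by norm_num) (Or.inl rfl) hz)))).symm
    have e2 : G' z.2 = G z.2 := (hFU ((hA _ (hZT z.2)).2.2 hz)).symm
    rw [e, e1, e2, ← add_smul]
    simp
  -- smoothness
  have hGe : ∀ x : ℝ × ℝ, x.2 ∈ Icc a b → G x = F (sq ε (x.2, ρ x.2 • mm x.1 x.2)) := by
    intro x hx
    show F (sq ε (cl x.2, ρ (cl x.2) • mm x.1 x.2)) = _
    rw [hcle _ hx]
  have hGe' : ∀ x : ℝ × ℝ, x.2 ∈ Icc a b → G' x = F' (sq ε (x.2, ρ x.2 • mm x.1 x.2)) := by
    intro x hx
    show F' (sq ε (cl x.2, ρ (cl x.2) • mm x.1 x.2)) = _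
    rw [hcle _ hx]
  have hin : ContDiff ℝ ∞ (fun x : ℝ × ℝ => sq ε (x.2, ρ x.2 • mm x.1 x.2)) :=
    hsq.comp (contDiff_snd.prodMk ((hρ.comp contDiff_snd).smul mm_smooth))
  have hGs : ∀ x : ℝ × ℝ, x.2 ∈ Ioo a b → ContDiffAt ℝ ∞ G x := by
    intro x hx
    have h1 : sq ε (x.2, ρ x.2 • mm x.1 x.2) ∈ O := by
      have := (hA _ (hZT x)).1
      have e : Z x = (x.2, ρ x.2, mm x.1 x.2) := by
        show (cl x.2, ρ (cl x.2), mm x.1 x.2) = _
        rw [hcle _ ⟨hx.1.le, hx.2.le⟩]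
      rw [e] at this
      exact this
    have h2 : ContDiffAt ℝ ∞ (fun x : ℝ × ℝ => F (sq ε (x.2, ρ x.2 • mm x.1 x.2))) x :=
      (hFO.contDiffAt (hO.mem_nhds h1)).comp x hin.contDiffAt
    refine h2.congr_of_eventuallyEq ?_
    filter_upwards [(isOpen_Ioo.preimage continuous_snd).mem_nhds hx] with y hy
    exact hGe y ⟨hy.1.le, hy.2.le⟩
  have hGs' : ∀ x : ℝ × ℝ, x.2 ∈ Ioo a b → ContDiffAt ℝ ∞ G' x := by
    intro x hx
    have h1 : sq ε (x.2, ρ x.2 • mm x.1 x.2) ∈ O' := by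
      have := (hB _ (hZT x)).1
      have e : Z x = (x.2, ρ x.2, mm x.1 x.2) := by
        show (cl x.2, ρ (cl x.2), mm x.1 x.2) = _
        rw [hcle _ ⟨hx.1.le, hx.2.le⟩]
      rw [e] at this
      exact this
    have h2 : ContDiffAt ℝ ∞ (fun x : ℝ × ℝ => F' (sq ε (x.2, ρ x.2 • mm x.1 x.2))) x :=
      (hFO'.contDiffAt (hO'.mem_nhds h1)).comp x hin.contDiffAt
    refine h2.congr_of_eventuallyEq ?_
    filter_upwards [(isOpen_Ioo.preimage continuous_snd).mem_nhds hx] with y hy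
    exact hGe' y ⟨hy.1.le, hy.2.le⟩
  let V : Set (ℝ × ℝ × ℝ) := {z | z.2.2 ∈ Ioo a b ∧
    (z.1 < 1 / 3 ∨ 2 / 3 < z.1 ∨ 3 / 5 < 73 / 100 * (mm z.2.1 z.2.2).1)}
  let S : Set (ℝ × ℝ × ℝ) := {z | z.2.2 ∈ Icc n₀ n₁ ∧
    (z.1 ≤ 1 / 4 ∨ 3 / 4 ≤ z.1 ∨ 13 / 20 ≤ 73 / 100 * (mm z.2.1 z.2.2).1)}
  have hmc : Continuous (fun z : ℝ × ℝ × ℝ => 73 / 100 * (mm z.2.1 z.2.2).1) :=
    continuous_const.mul (continuous_fst.comp (hmmc.comp continuous_snd))
  have hlast : Continuous (fun z : ℝ × ℝ × ℝ => z.2.2) := by fun_prop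
  have hVo : IsOpen V := (isOpen_Ioo.preimage hlast).inter
    ((isOpen_lt continuous_fst continuous_const).union
      ((isOpen_lt continuous_const continuous_fst).union (isOpen_lt continuous_const hmc)))
  have hSc : IsClosed S := (isClosed_Icc.preimage hlast).inter
    ((isClosed_le continuous_fst continuous_const).union
      ((isClosed_le continuous_const continuous_fst).union (isClosed_le continuous_const hmc)))
  have hSV : S ⊆ V := by
    rintro z ⟨h1, h2⟩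
    refine ⟨⟨han.trans_le h1.1, h1.2.trans_lt hbn⟩, ?_⟩
    rcases h2 with h | h | h
    · exact Or.inl (by linarith)
    · exact Or.inr (Or.inl (by linarith))
    · exact Or.inr (Or.inr (by linarith))
  have hfV : ContDiffOn ℝ ∞ f V := by
    intro z hz
    refine ContDiffAt.contDiffWithinAt ?_
    have g1 : ContDiffAt ℝ ∞ (fun z : ℝ × ℝ × ℝ => G z.2) z :=
      (hGs z.2 hz.1).comp z contDiffAt_snd
    have g2 : ContDiffAt ℝ ∞ (fun z : ℝ × ℝ × ℝ => G' z.2) z :=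
      (hGs' z.2 hz.1).comp z contDiffAt_snd
    rcases hz.2 with h | h | h
    · refine g1.congr_of_eventuallyEq ?_
      filter_upwards [(isOpen_lt continuous_fst continuous_const).mem_nhds h] with y hy
      exact hf0 y (le_of_lt hy)
    · refine g2.congr_of_eventuallyEq ?_
      filter_upwards [(isOpen_lt continuous_const continuous_fst).mem_nhds h] with y hy
      exact hf1 y (le_of_lt hy)
    · refine g1.congr_of_eventuallyEq ?_
      filter_upwards [(isOpen_lt continuous_const hmc).mem_nhds h] with y hy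
      exact hf2 y (le_of_lt hy)
  obtain ⟨c, hc, hcf, hcS, -⟩ := hfc.exists_contDiff_approx_and_eqOn (⊤ : ℕ∞)
    (continuous_const (y := (r : ℝ) / 8)) (fun _ => by linarith) hSc
    (hVo.mem_nhdsSet.2 hSV) hfV
  have hab : ∀ s ∈ Icc n₀ n₁, s ∈ Icc a b := fun s hs => ⟨han.le.trans hs.1, hs.2.trans hbn.le⟩
  refine ⟨c, hc, ?_, ?_, ?_, ?_⟩
  · intro q s hs
    rw [hcS (show (0, q, s) ∈ S from ⟨hs, Or.inl (by norm_num)⟩), hf0 (0, q, s) (by norm_num),
      hGe (q, s) (hab s hs)]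
  · intro q s hs
    rw [hcS (show (1, q, s) ∈ S from ⟨hs, Or.inr (Or.inl (by norm_num))⟩), hf1 (1, q, s) (by norm_num),
      hGe' (q, s) (hab s hs)]
  · intro u q s hs hm
    have h1 : (3 : ℝ) / 5 ≤ 73 / 100 * (mm q s).1 := by rw [hm]; norm_num
    have h2 : (13 : ℝ) / 20 ≤ 73 / 100 * (mm q s).1 := by rw [hm]; norm_num
    rw [hcS (show (u, q, s) ∈ S from ⟨hs, Or.inr (Or.inr h2)⟩), hf2 (u, q, s) h1,
      hGe (q, s) (hab s hs)]
    show F (sq ε (s, ρ s • mm q s)) = _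
    rw [hm]
    have e : ρ s • ((1, 0) : R3) = (ρ s, 0) := Prod.ext (by simp) (by simp)
    rw [e]
  · intro u hu q hq s hs y hy
    have hsab : s ∈ Icc a b := ⟨by linarith [hs.1], by linarith [hs.2]⟩
    have hz : Z (q, s) = (s, 73 / 100, mm q s) := by
      show (cl s, ρ (cl s), mm q s) = _
      rw [hcle s hsab, hρ1 s hs]
    have d1 : ‖G (q, s) - N (q, s)‖ ≤ r / 8 := by
      have h := (hA _ (hZT (q, s))).2.1
      rw [hz] at h
      have e : G (q, s) = F (sq ε (s, (73 / 100 : ℝ) • mm q s)) := by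
        show F (sq ε ((Z (q, s)).1, (Z (q, s)).2.1 • (Z (q, s)).2.2)) = _
        rw [hz]
      have e' : N (q, s) = F (sq 0 (s, (73 / 100 : ℝ) • mm q s)) := by
        show F (sq 0 (1 / 2, (73 / 100 : ℝ) • mm q s)) = _
        rw [← sq_fst_sm]
      rw [e, e', ← dist_eq_norm]
      exact h.le
    have d2 : ‖G' (q, s) - N' (q, s)‖ ≤ r / 8 := by
      have h := (hB _ (hZT (q, s))).2.1
      rw [hz] at h
      have e : G' (q, s) = F' (sq ε (s, (73 / 100 : ℝ) • mm q s)) := by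
        show F' (sq ε ((Z (q, s)).1, (Z (q, s)).2.1 • (Z (q, s)).2.2)) = _
        rw [hz]
      have e' : N' (q, s) = F' (sq 0 (s, (73 / 100 : ℝ) • mm q s)) := by
        show F' (sq 0 (1 / 2, (73 / 100 : ℝ) • mm q s)) = _
        rw [← sq_fst_sm]
      rw [e, e', ← dist_eq_norm]
      exact h.le
    have d3 : dist (f (u, q, s)) (K (u, q, s)) ≤ r / 8 := by
      rw [dist_eq_norm]
      have e : f (u, q, s) - K (u, q, s) =
          (1 - θ u) • (G (q, s) - N (q, s)) + θ u • (G' (q, s) - N' (q, s)) :=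
        add_sub_cancel_left _ _
      rw [e]
      exact conv_sm (hθm u) d1 d2
    exact fin_sm d3 (hcf (u, q, s)) (hκ (θ u) (hθm u) (mm q s) (nsq_mm _ _) y hy) hr0'

end Pool.Agent.Helper18.BI.H


end

/-! ## Helper18.BI.H.M_NUL -/

section

/-!
# Project BI, stage 3 (H), module NUL: null-homotopic cuffs (helper8)
-/

set_option autoImplicit false

open scoped Manifold ContDiff Topology ComplexConjugate
open Set Filter Pool.Agent.Helper65.Barb Pool.Agent.Helper18.BI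
open Pool.Agent.Helper70.BI (I4 IsW MW ld_iff embOn_iff embOn_comp EmbOn.mono')

namespace Pool.Agent.Helper18.BI.H

namespace NUL

/-! ### concatenation of homotopies in a complement -/

/-- `f` and `g` are homotopic on `S` in the complement of `K` -/
private def Hom (S K : Set R4) (f g : R4 → R4) : Prop :=
  ∃ h : ℝ × R4 → R4, ContinuousOn h (Icc (0 : ℝ) 1 ×ˢ S) ∧ (∀ p ∈ S, h (0, p) = f p) ∧
    (∀ p ∈ S, h (1, p) = g p) ∧ ∀ u ∈ Icc (0 : ℝ) 1, ∀ p ∈ S, h (u, p) ∉ K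

private theorem Hom.trans {S K : Set R4} {f g k : R4 → R4} (hS : IsClosed S) (h1 : Hom S K f g)
    (h2 : Hom S K g k) : Hom S K f k := by
  obtain ⟨a, a1, a2, a3, a4⟩ := h1
  obtain ⟨b, b1, b2, b3, b4⟩ := h2
  let c : ℝ × R4 → R4 := fun z => if z.1 ≤ 1 / 2 then a (2 * z.1, z.2) else b (2 * z.1 - 1, z.2)
  have ca : ∀ u p, u ≤ 1 / 2 → c (u, p) = a (2 * u, p) := fun u p hu => if_pos hu
  have cb : ∀ u, ∀ p ∈ S, 1 / 2 ≤ u → c (u, p) = b (2 * u - 1, p) := by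
    intro u p hp hu
    by_cases h : u ≤ 1 / 2
    · have h3 : u = 1 / 2 := le_antisymm h hu
      subst h3
      rw [ca _ _ le_rfl]
      have e1 : (2 * (1 / 2 : ℝ) - 1) = 0 := by norm_num
      have e2 : (2 * (1 / 2 : ℝ)) = 1 := by norm_num
      rw [e1, e2, a3 p hp, b2 p hp]
    · exact if_neg h
  refine ⟨c, ?_, ?_, ?_, ?_⟩
  · have hU : Icc (0 : ℝ) 1 ×ˢ S = (Icc (0 : ℝ) (1 / 2) ×ˢ S) ∪ (Icc (1 / 2 : ℝ) 1 ×ˢ S) := by
      rw [← Set.union_prod, Set.Icc_union_Icc_eq_Icc (by norm_num) (by norm_num)]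
    rw [hU]
    refine ContinuousOn.union_of_isClosed ?_ ?_ (isClosed_Icc.prod hS) (isClosed_Icc.prod hS)
    · refine ContinuousOn.congr (f := fun z : ℝ × R4 => a (2 * z.1, z.2)) ?_ ?_
      · refine a1.comp (Continuous.continuousOn (by fun_prop)) ?_
        rintro ⟨u, p⟩ ⟨hu, hp⟩
        exact ⟨⟨by show (0 : ℝ) ≤ 2 * u; linarith [hu.1], by show 2 * u ≤ (1 : ℝ); linarith [hu.2]⟩, hp⟩
      · rintro ⟨u, p⟩ ⟨hu, hp⟩
        exact ca u p hu.2
    · refine ContinuousOn.congr (f := fun z : ℝ × R4 => b (2 * z.1 - 1, z.2)) ?_ ?_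
      · refine b1.comp (Continuous.continuousOn (by fun_prop)) ?_
        rintro ⟨u, p⟩ ⟨hu, hp⟩
        exact ⟨⟨by show (0 : ℝ) ≤ 2 * u - 1; linarith [hu.1],
          by show 2 * u - 1 ≤ (1 : ℝ); linarith [hu.2]⟩, hp⟩
      · rintro ⟨u, p⟩ ⟨hu, hp⟩
        exact cb u p hp hu.1
  · intro p hp
    rw [ca 0 p (by norm_num), mul_zero, a2 p hp]
  · intro p hp
    have e1 : (2 * (1 : ℝ) - 1) = 1 := by norm_num
    rw [cb 1 p hp (by norm_num), e1, b3 p hp]
  · intro u hu p hp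
    by_cases h : u ≤ 1 / 2
    · rw [ca u p h]
      exact a4 _ ⟨by linarith [hu.1], by linarith⟩ p hp
    · rw [cb u p hp (not_le.1 h).le]
      exact b4 _ ⟨by linarith [not_le.1 h], by linarith [hu.2]⟩ p hp

/-! ### the compression of the flat ball -/

private noncomputable def T (a : ℝ) : ℝ := step (20 * a - 14)

private noncomputable def kax (r a : ℝ) : ℝ := T a * a + (1 - T a) * (3 / 5 + 5 * r * a)

private noncomputable def mk (r a : ℝ) : ℝ := T a + (1 - T a) * (5 * r)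

private noncomputable def kap (r : ℝ) (p : R4) : R4 := (p.1, (kax r p.2.1, mk r p.2.1 • p.2.2))

private theorem T_lo {a : ℝ} (h : a ≤ 7 / 10) : T a = 0 := step_of_nonpos (by linarith)

private theorem T_hi {a : ℝ} (h : 3 / 4 ≤ a) : T a = 1 := step_of_one_le (by linarith)

private theorem T_mem (a : ℝ) : T a ∈ Icc (0 : ℝ) 1 := step_mem _

private theorem T_smooth : ContDiff ℝ ∞ T := contDiff_step.comp (by fun_prop)

private theorem T_mono : Monotone T := by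
  intro a b hab
  exact Real.smoothTransition.monotone (by linarith)

private theorem kax_smooth (r : ℝ) : ContDiff ℝ ∞ (kax r) := by
  unfold kax
  exact (T_smooth.mul contDiff_id).add ((contDiff_const.sub T_smooth).mul (by fun_prop))

private theorem mk_smooth (r : ℝ) : ContDiff ℝ ∞ (mk r) := by
  unfold mk
  exact T_smooth.add ((contDiff_const.sub T_smooth).mul contDiff_const)

private theorem mk_pos {r : ℝ} (h0 : 0 < r) (a : ℝ) : 0 < mk r a := by
  have h := T_mem a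
  unfold mk
  rcases h.1.eq_or_lt with h1 | h1
  · rw [← h1]
    linarith
  · have h2 : 0 ≤ (1 - T a) * (5 * r) := mul_nonneg (by linarith [h.2]) (by linarith)
    linarith

private theorem kax_deriv {r : ℝ} (h0 : 0 < r) (h1 : r ≤ 1 / 100) (a : ℝ) : 0 < deriv (kax r) a := by
  have hT : HasDerivAt T (deriv T a) a := (T_smooth.differentiable (by simp) a).hasDerivAt
  have hk : HasDerivAt (kax r) (deriv T a * (a - (3 / 5 + 5 * r * a)) + mk r a) a := by
    have e1 : HasDerivAt (fun a : ℝ => T a * a) (deriv T a * a + T a * 1) a := hT.mul (hasDerivAt_id a)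
    have e2 : HasDerivAt (fun a : ℝ => (3 / 5 + 5 * r * a)) (5 * r) a := by
      have := ((hasDerivAt_id a).const_mul (5 * r)).const_add (3 / 5)
      simpa using this
    have e3 : HasDerivAt (fun a : ℝ => 1 - T a) (-(deriv T a)) a := hT.const_sub 1
    have e4 := e1.add (e3.mul e2)
    refine e4.congr_deriv ?_
    unfold mk
    ring
  rw [hk.deriv]
  have hm := mk_pos h0 a
  rcases lt_or_ge a (7 / 10) with h | h
  · have h2 : deriv T a = 0 := by
      have h3 : T =ᶠ[𝓝 a] fun _ => 0 := by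
        filter_upwards [Iio_mem_nhds h] with b hb
        exact T_lo (le_of_lt hb)
      rw [h3.deriv_eq, deriv_const]
    rw [h2]
    linarith
  · have h2 : 0 ≤ deriv T a := T_mono.deriv_nonneg
    have h3 : 0 ≤ a - (3 / 5 + 5 * r * a) := by nlinarith
    have h4 := mul_nonneg h2 h3
    linarith

private theorem kax_strictMono {r : ℝ} (h0 : 0 < r) (h1 : r ≤ 1 / 100) : StrictMono (kax r) :=
  strictMono_of_deriv_pos (kax_deriv h0 h1)

private theorem kap_inj {r : ℝ} (h0 : 0 < r) (h1 : r ≤ 1 / 100) : Function.Injective (kap r) := by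
  rintro ⟨s, a, w⟩ ⟨s', a', w'⟩ h
  simp only [kap, Prod.mk.injEq] at h
  obtain ⟨e1, e2, e3⟩ := h
  have e4 : a = a' := (kax_strictMono h0 h1).injective e2
  subst e4
  have e5 : w = w' := smul_right_injective ℂ (mk_pos h0 a).ne' e3
  rw [e1, e5]

private theorem kap_smooth (r : ℝ) : ContDiff ℝ ∞ (kap r) := by
  unfold kap
  exact contDiff_fst.prodMk (((kax_smooth r).comp (contDiff_fst.comp contDiff_snd)).prodMk
    (((mk_smooth r).comp (contDiff_fst.comp contDiff_snd)).smul (contDiff_snd.comp contDiff_snd)))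

private theorem kap_ld {r : ℝ} (h0 : 0 < r) (h1 : r ≤ 1 / 100) (p : R4) :
    Pool.Agent.Helper70.BI.LD (kap r) p := by
  rw [ld_iff]
  refine ⟨Eventually.of_forall fun q => (kap_smooth r).contDiffAt, ?_⟩
  have hA : HasFDerivAt (fun p : R4 => p.2.1)
      ((ContinuousLinearMap.fst ℝ ℝ ℂ).comp (ContinuousLinearMap.snd ℝ ℝ R3)) p :=
    ((ContinuousLinearMap.fst ℝ ℝ ℂ).comp (ContinuousLinearMap.snd ℝ ℝ R3)).hasFDerivAt
  have hW : HasFDerivAt (fun p : R4 => p.2.2)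
      ((ContinuousLinearMap.snd ℝ ℝ ℂ).comp (ContinuousLinearMap.snd ℝ ℝ R3)) p :=
    ((ContinuousLinearMap.snd ℝ ℝ ℂ).comp (ContinuousLinearMap.snd ℝ ℝ R3)).hasFDerivAt
  have hS : HasFDerivAt (fun p : R4 => p.1) (ContinuousLinearMap.fst ℝ ℝ R3) p :=
    (ContinuousLinearMap.fst ℝ ℝ R3).hasFDerivAt
  have hk : HasDerivAt (kax r) (deriv (kax r) p.2.1) p.2.1 :=
    ((kax_smooth r).differentiable (by simp) _).hasDerivAt
  have hm : HasDerivAt (mk r) (deriv (mk r) p.2.1) p.2.1 :=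
    ((mk_smooth r).differentiable (by simp) _).hasDerivAt
  have h2 := hS.prodMk ((hk.comp_hasFDerivAt p hA).prodMk ((hm.comp_hasFDerivAt p hA).smul hW))
  have h3 : HasFDerivAt (kap r) _ p := h2
  rw [h3.fderiv]
  rw [injective_iff_map_eq_zero]
  rintro ⟨v1, v2, v3⟩ hv
  simp only [ContinuousLinearMap.prod_apply, ContinuousLinearMap.coe_fst', Prod.mk_eq_zero,
    _root_.smul_apply, ContinuousLinearMap.comp_apply, ContinuousLinearMap.coe_snd',
    _root_.add_apply, ContinuousLinearMap.smulRight_apply, smul_eq_mul, Function.comp] at hv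
  obtain ⟨e1, e2, e3⟩ := hv
  have e4 : v2 = 0 := by
    rcases mul_eq_zero.1 e2 with h | h
    · exact absurd h (kax_deriv h0 h1 _).ne'
    · exact h
  subst e4
  rw [mul_zero, zero_smul, add_zero] at e3
  have e5 : v3 = 0 := by
    rcases smul_eq_zero.1 e3 with h | h
    · exact absurd h (mk_pos h0 _).ne'
    · exact h
  rw [e1, e5]
  rfl

private theorem kap_emb {r : ℝ} (h0 : 0 < r) (h1 : r ≤ 1 / 100) (L : Set R4) : EmbOn I4 (kap r) L :=
  ⟨fun p _ => kap_ld h0 h1 p, (kap_inj h0 h1).injOn⟩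

private theorem kap_hi {r : ℝ} {p : R4} (h : 3 / 4 ≤ p.2.1) : kap r p = p := by
  unfold kap kax mk
  rw [T_hi h]
  simp

private theorem kap_lo {r : ℝ} {p : R4} (h : p.2.1 ≤ 7 / 10) :
    kap r p = (p.1, (3 / 5 + 5 * r * p.2.1, (5 * r) • p.2.2)) := by
  unfold kap kax mk
  rw [T_lo h]
  simp

/-! ### coordinates -/

private theorem rsq0_bound {p : R4} (h : rsq 0 p ≤ 1 / 25) : |p.2.1| ≤ 1 / 5 ∧ ‖p.2.2‖ ≤ 1 / 5 := by
  have e : rsq 0 p = p.2.1 ^ 2 + ‖p.2.2‖ ^ 2 := by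
    unfold rsq nsq
    rw [← Complex.normSq_eq_norm_sq, Complex.normSq_apply]
    simp only [sub_zero]
    ring
  rw [e] at h
  constructor
  · apply abs_le_of_sq_le_sq _ (by norm_num)
    nlinarith [sq_nonneg ‖p.2.2‖]
  · apply le_of_sq_le_sq _ (by norm_num)
    nlinarith [sq_nonneg p.2.1]

private theorem sph1_hi {p : R4} (h : p ∈ sph 1) : 4 / 5 ≤ p.2.1 := by
  have e : rsq 1 p = (p.2.1 - 1) ^ 2 + ‖p.2.2‖ ^ 2 := by
    unfold rsq nsq
    rw [← Complex.normSq_eq_norm_sq, Complex.normSq_apply]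
    ring
  have h2 := h.2
  rw [e] at h2
  have h3 : |p.2.1 - 1| ≤ 1 / 5 := by
    apply abs_le_of_sq_le_sq _ (by norm_num)
    nlinarith [sq_nonneg ‖p.2.2‖]
  linarith [(abs_le.1 h3).1]

private theorem small_dist {t : ℝ} (h0 : 0 ≤ t) {p : R4} (h : rsq 0 p ≤ 1 / 25) :
    dist ((1 / 2, (3 / 5 + t * p.2.1, t • p.2.2)) : R4) (bar (3 / 5)) ≤ t / 5 := by
  obtain ⟨h1, h2⟩ := rsq0_bound h
  unfold bar
  rw [Prod.dist_eq, Prod.dist_eq]
  simp only [dist_self, Real.dist_eq, dist_zero_right, add_sub_cancel_left, abs_mul, norm_smul,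
    Real.norm_eq_abs, abs_of_nonneg h0]
  refine max_le (by positivity) (max_le ?_ ?_)
  · nlinarith
  · nlinarith

end NUL

open NUL in
/-- **NUL.** -/
theorem m_NUL : StNUL := by
  intro F h y hF hc h0 h1 hoff
  -- the open set on which `F` is an embedding
  have hSPc : IsCompact SP := X2.isCompact_SP
  obtain ⟨δ, hδ, hδF⟩ := hA1 R4 R4 R4 I4 R4 F SP hSPc hF.1 hF.2
  have hO : IsOpen δ.source := δ.open_source
  have hFO : EmbOn I4 F δ.source := by
    refine ⟨fun p hp => ?_, fun p hp q hq he => ?_⟩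
    · exact ⟨δ, hp, fun q hq => (hδF q hq).symm⟩
    · rw [← hδF p hp, ← hδF q hq] at he
      exact δ.toPartialEquiv.injOn hp hq he
  have hFc : ContinuousOn F δ.source := by
    intro p hp
    exact ((ld_iff.1 (hFO.1 p hp)).1.self_of_nhds).continuousAt.continuousWithinAt
  -- the radius
  have h35 : bar (3 / 5) ∈ SP := Or.inr ⟨rfl, by show (1 / 5 : ℝ) ≤ 3 / 5; norm_num,
    by show (3 / 5 : ℝ) ≤ 4 / 5; norm_num, rfl⟩
  obtain ⟨ρ, hρ, hball⟩ := Metric.isOpen_iff.1 hO _ (hδ h35)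
  obtain ⟨r, hr0, hr1, hrρ⟩ : ∃ r : ℝ, 0 < r ∧ r ≤ 1 / 100 ∧ r < ρ :=
    ⟨min (1 / 100) (ρ / 2), lt_min (by norm_num) (by linarith), min_le_left _ _,
      lt_of_le_of_lt (min_le_right _ _) (by linarith)⟩
  have hsmall : ∀ t : ℝ, 0 ≤ t → t ≤ 5 * r → ∀ p : R4, rsq 0 p ≤ 1 / 25 →
      ((1 / 2, (3 / 5 + t * p.2.1, t • p.2.2)) : R4) ∈ δ.source := by
    intro t ht0 ht1 p hp
    apply hball
    rw [Metric.mem_ball]
    have := small_dist ht0 hp
    linarith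
  -- `F '' sph 1` is missed by the images of the points of `δ.source` with `a < 4/5`
  have hmiss : ∀ z ∈ δ.source, z.2.1 < 4 / 5 → F z ∉ F '' sph 1 := by
    rintro z hz hz1 ⟨q, hq, he⟩
    have h2 : q = z := hFO.2 (hδ (Or.inl (Or.inr hq))) hz he
    have h3 := sph1_hi hq
    rw [h2] at h3
    linarith
  -- the new germ
  have hflat : ∀ p ∈ flat 0, kap r p ∈ δ.source := by
    intro p hp
    have h2 := (rsq0_bound hp.2).1
    rw [kap_lo (by linarith [(abs_le.1 h2).2]), hp.1]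
    exact hsmall (5 * r) (by linarith) le_rfl p hp.2
  have hsph : ∀ p ∈ sph 1, kap r p = p := fun p hp => kap_hi (by linarith [sph1_hi hp])
  have hneck : ∀ p ∈ neck, kap r p ∈ neck := by
    intro p hp
    obtain ⟨e1, e2, e3, e4⟩ := hp
    have hm := (kax_strictMono hr0 hr1).monotone
    refine ⟨e1, ?_, ?_, ?_⟩
    · show 1 / 5 ≤ kax r p.2.1
      have h2 : kax r (1 / 5) ≤ kax r p.2.1 := hm e2
      have h3 : kax r (1 / 5) = 3 / 5 + 5 * r * (1 / 5) := by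
        unfold kax
        rw [T_lo (by norm_num)]
        ring
      rw [h3] at h2
      linarith
    · show kax r p.2.1 ≤ 4 / 5
      have h2 : kax r p.2.1 ≤ kax r (4 / 5) := hm e3
      have h3 : kax r (4 / 5) = 4 / 5 := by
        unfold kax
        rw [T_hi (by norm_num)]
        ring
      rw [h3] at h2
      exact h2
    · show mk r p.2.1 • p.2.2 = 0
      rw [e4, smul_zero]
  have hF' : EmbOn I4 (F ∘ kap r) (flat 0 ∪ sph 1 ∪ neck) := by
    refine embOn_comp hFO (kap_emb hr0 hr1 _) ?_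
    rintro p ((hp | hp) | hp)
    · exact hflat p hp
    · rw [hsph p hp]
      exact hδ (Or.inl (Or.inr hp))
    · exact hδ (Or.inr (hneck p hp))
  have hthin := Pool.Agent.Helper27.BI.hVanT R4 R4 I4 R4 (F ∘ kap r) hF'
  have hsub : SP ⊆ flat 0 ∪ sph 1 ∪ neck := by
    rintro p ((hp | hp) | hp)
    · exact Or.inl (Or.inl ⟨hp.1, hp.2.le⟩)
    · exact Or.inl (Or.inr hp)
    · exact Or.inr hp
  -- the homotopy
  have hfoot : foot0 ∈ sph 0 := by
    refine ⟨rfl, ?_⟩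
    show nsq _ = _
    unfold nsq foot0
    norm_num
  have hclosed : IsClosed (sph 0) := by
    have hrc : Continuous (rsq 0) := by
      unfold rsq nsq
      fun_prop
    exact (isClosed_eq continuous_fst continuous_const).inter (isClosed_eq hrc continuous_const)
  have H1 : Hom (sph 0) (F '' sph 1) F (fun _ => y) := ⟨h, hc, h0, h1, hoff⟩
  have H2 : Hom (sph 0) (F '' sph 1) (fun _ => y) (fun _ => F foot0) := by
    refine ⟨fun z => h (1 - z.1, foot0), ?_, ?_, ?_, ?_⟩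
    · refine hc.comp (Continuous.continuousOn (by fun_prop)) ?_
      rintro ⟨u, p⟩ ⟨hu, hp⟩
      exact ⟨⟨by show (0 : ℝ) ≤ 1 - u; linarith [hu.2], by show 1 - u ≤ (1 : ℝ); linarith [hu.1]⟩, hfoot⟩
    · intro p _
      show h (1 - 0, foot0) = y
      rw [sub_zero, h1 _ hfoot]
    · intro p _
      show h (1 - 1, foot0) = F foot0
      rw [sub_self, h0 _ hfoot]
    · intro u hu p _
      exact hoff _ ⟨by linarith [hu.2], by linarith [hu.1]⟩ _ hfoot
  have hbar : ∀ a ∈ Icc (1 / 5 : ℝ) (3 / 5), bar a ∈ SP := fun a ha =>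
    Or.inr ⟨rfl, ha.1, by show a ≤ 4 / 5; linarith [ha.2], rfl⟩
  have H3 : Hom (sph 0) (F '' sph 1) (fun _ => F foot0) (fun _ => F (bar (3 / 5))) := by
    refine ⟨fun z => F (bar (1 / 5 + 2 / 5 * z.1)), ?_, ?_, ?_, ?_⟩
    · refine hFc.comp (Continuous.continuousOn ?_) ?_
      · unfold bar
        fun_prop
      · rintro ⟨u, p⟩ ⟨hu, hp⟩
        exact hδ (hbar _ ⟨by show (1 / 5 : ℝ) ≤ 1 / 5 + 2 / 5 * u; linarith [hu.1],
          by show 1 / 5 + 2 / 5 * u ≤ (3 / 5 : ℝ); linarith [hu.2]⟩)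
    · intro p _
      show F (bar (1 / 5 + 2 / 5 * 0)) = F foot0
      rw [mul_zero, add_zero]
      rfl
    · intro p _
      show F (bar (1 / 5 + 2 / 5 * 1)) = F (bar (3 / 5))
      norm_num
    · intro u hu p _
      refine hmiss _ (hδ (hbar _ ⟨by linarith [hu.1], by linarith [hu.2]⟩)) ?_
      show 1 / 5 + 2 / 5 * u < 4 / 5
      linarith [hu.2]
  have H4 : Hom (sph 0) (F '' sph 1) (fun _ => F (bar (3 / 5))) (F ∘ kap r) := by
    refine ⟨fun z => F (1 / 2, (3 / 5 + (z.1 * (5 * r)) * z.2.2.1, (z.1 * (5 * r)) • z.2.2.2)), ?_, ?_, ?_, ?_⟩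
    · refine hFc.comp (Continuous.continuousOn (by fun_prop)) ?_
      rintro ⟨u, p⟩ ⟨hu, hp⟩
      refine hsmall (u * (5 * r)) (mul_nonneg hu.1 (by linarith)) ?_ p hp.2.le
      nlinarith [hu.2]
    · intro p _
      show F (1 / 2, (3 / 5 + (0 * (5 * r)) * p.2.1, (0 * (5 * r)) • p.2.2)) = F (bar (3 / 5))
      rw [zero_mul, zero_mul, zero_smul, add_zero]
      rfl
    · intro p hp
      show F (1 / 2, (3 / 5 + (1 * (5 * r)) * p.2.1, (1 * (5 * r)) • p.2.2)) = F (kap r p)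
      have h2 := (rsq0_bound hp.2.le).1
      rw [one_mul, kap_lo (by linarith [(abs_le.1 h2).2]), hp.1]
    · intro u hu p hp
      have h2 := (rsq0_bound hp.2.le).1
      have h3 : 0 ≤ u * (5 * r) := mul_nonneg hu.1 (by linarith)
      have h4 : u * (5 * r) ≤ 5 * r := by nlinarith [hu.2]
      refine hmiss _ (hsmall (u * (5 * r)) h3 h4 p hp.2.le) ?_
      show 3 / 5 + (u * (5 * r)) * p.2.1 < 4 / 5
      have h5 := (abs_le.1 h2).2
      nlinarith
  obtain ⟨h', a1, a2, a3, a4⟩ := ((H1.trans hclosed H2).trans hclosed H3).trans hclosed H4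
  refine ⟨F ∘ kap r, {p | 3 / 4 < p.2.1}, h', Pool.Agent.Helper70.BI.EmbOn.mono' hF' hsub, ?_, ?_, ?_, a1, a2, a3, a4, hthin⟩
  · exact isOpen_lt continuous_const (continuous_fst.comp continuous_snd)
  · intro p hp
    show 3 / 4 < p.2.1
    linarith [sph1_hi hp]
  · intro p hp
    have hp' : 3 / 4 < p.2.1 := hp
    show F p = F (kap r p)
    rw [kap_hi hp'.le]

end Pool.Agent.Helper18.BI.H


end
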