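import Pool.Agent.Helper65.Barb.Defs
import Pool.Agent.Helper70.BI.B.P14
import Pool.Agent.Helper70.BI.B.P27
import Pool.Agent.Helper70.BI.B.P28

/-!
# Project BI (MP_8e98f2_gt): collected modules, part 48

The contents of the modules
* Helper18.BI.H.M_TOP
* Helper18.BI.R.M_MQ
* Helper18.BI.R.M_BAS

in one file, so that the whole proof builds in a short time.
-/

/-! ## Helper18.BI.H.M_TOP -/

section

/-!
# Project BI, stage 3 (H), module TOP: free homotopy of the cuffs to based homotopy of whiskered spheres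
-/

set_option autoImplicit false

open scoped Manifold ContDiff Topology ComplexConjugate
open Set Pool.Agent.Helper65.Barb Pool.Agent.Helper18.BI

namespace Pool.Agent.Helper18.BI.H

namespace TOP

/-- the compression over the axis between the cuffs -/
private theorem sq_bar_top (a : ℝ) (w : ℂ) (h1 : 1 / 5 ≤ a) (h2 : a ≤ 4 / 5) :
    sq 0 (1 / 2, (a, w)) = bar a := by
  have hp : prof 0 a = 0 := by
    unfold prof
    have e1 : √((1 / 25 - a ^ 2) ^ 2 + 0 ^ 2) = -(1 / 25 - a ^ 2) := by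
      rw [show ((1 : ℝ) / 25 - a ^ 2) ^ 2 + 0 ^ 2 = (-(1 / 25 - a ^ 2)) ^ 2 by ring]
      exact Real.sqrt_sq (by nlinarith)
    have e2 : √((1 / 25 - (a - 1) ^ 2) ^ 2 + 0 ^ 2) = -(1 / 25 - (a - 1) ^ 2) := by
      rw [show ((1 : ℝ) / 25 - (a - 1) ^ 2) ^ 2 + 0 ^ 2 = (-(1 / 25 - (a - 1) ^ 2)) ^ 2 by ring]
      exact Real.sqrt_sq (by nlinarith)
    rw [e1, e2]
    ring
  have hf : ∀ k : ℝ, fac 0 a k = 0 := by
    intro k
    unfold fac
    rw [hp]
    simp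
  have ha : axc 0 a = a := by
    unfold axc
    have e1 : √((a + 1 / 5) ^ 2 + 0 ^ 2) = a + 1 / 5 := by
      rw [show (a + 1 / 5) ^ 2 + (0 : ℝ) ^ 2 = (a + 1 / 5) ^ 2 by ring]
      exact Real.sqrt_sq (by linarith)
    have e2 : √((a - 6 / 5) ^ 2 + 0 ^ 2) = 6 / 5 - a := by
      rw [show (a - 6 / 5) ^ 2 + (0 : ℝ) ^ 2 = (6 / 5 - a) ^ 2 by ring]
      exact Real.sqrt_sq (by linarith)
    rw [e1, e2]
    ring
  unfold sq bar
  simp only [hf, ha]
  simp

private theorem axc_le_top (a : ℝ) (h2 : a ≤ 1 / 5) : axc 0 a ≤ 1 / 5 := by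
  unfold axc
  have e2 : √((a - 6 / 5) ^ 2 + 0 ^ 2) = 6 / 5 - a := by
    rw [show (a - 6 / 5) ^ 2 + (0 : ℝ) ^ 2 = (6 / 5 - a) ^ 2 by ring]
    exact Real.sqrt_sq (by linarith)
  have e1 : √((a + 1 / 5) ^ 2 + 0 ^ 2) ≤ 3 / 5 - a := by
    rw [show (a + 1 / 5) ^ 2 + (0 : ℝ) ^ 2 = (a + 1 / 5) ^ 2 by ring]
    exact Real.sqrt_le_iff.2 ⟨by linarith, by nlinarith⟩
  rw [e2]
  linarith

private theorem nu_bar_top (m : R3) (hm : nsq m = 1) (h : 1 / 5 ≤ 73 / 100 * m.1) :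
    nu m = bar (73 / 100 * m.1) := by
  have h1 : m.1 ≤ 1 := by
    unfold nsq at hm
    nlinarith [sq_nonneg m.2.re, sq_nonneg m.2.im, sq_nonneg (m.1 - 1)]
  have e : ((1 : ℝ) / 2, ((73 : ℝ) / 100) • m) = ((1 / 2, (73 / 100 * m.1, ((73 : ℝ) / 100) • m.2)) : R4) := by
    refine Prod.ext rfl (Prod.ext ?_ rfl)
    simp
  unfold nu
  rw [e]
  exact sq_bar_top _ _ h (by linarith)

private theorem nu_sph_top (m : R3) (hm : nsq m = 1) (h : 73 / 100 * m.1 ≤ 1 / 5) :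
    nu m ∈ sph 0 := by
  have e : ((1 : ℝ) / 2, ((73 : ℝ) / 100) • m) = ((1 / 2, (73 / 100 * m.1, ((73 : ℝ) / 100) • m.2)) : R4) := by
    refine Prod.ext rfl (Prod.ext ?_ rfl)
    simp
  have hx : (((1 : ℝ) / 2, ((73 : ℝ) / 100) • m) : R4) ∈ Ext := by
    rw [e]
    unfold nsq at hm
    refine ⟨?_, ?_⟩
    · show ((1 : ℝ) / 5) ^ 2 ≤ nsq _
      unfold nsq
      simp only [Complex.real_smul, Complex.mul_re, Complex.mul_im, Complex.ofReal_re,
        Complex.ofReal_im, zero_mul, sub_zero, add_zero]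
      nlinarith
    · show ((1 : ℝ) / 5) ^ 2 ≤ nsq _
      unfold nsq
      simp only [Complex.real_smul, Complex.mul_re, Complex.mul_im, Complex.ofReal_re,
        Complex.ofReal_im, zero_mul, sub_zero, add_zero]
      nlinarith [sq_nonneg m.2.re, sq_nonneg m.2.im]
  have hs : nu m ∈ SP := hS4.1 _ hx
  have ha : (nu m).2.1 ≤ 1 / 5 := by
    unfold nu
    rw [e]
    exact axc_le_top _ h
  rcases hs with (h0 | h1) | h2
  · exact h0
  · exfalso
    have h3 : rsq 1 (nu m) = 1 / 25 := h1.2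
    unfold rsq nsq at h3
    nlinarith [sq_nonneg (nu m).2.2.re, sq_nonneg (nu m).2.2.im]
  · obtain ⟨h3, h4, h5, h6⟩ := h2
    refine ⟨h3, ?_⟩
    have h7 : (nu m).2.1 = 1 / 5 := le_antisymm ha h4
    unfold rsq nsq
    rw [h6, h7]
    norm_num

private theorem nu_foot_top (m : R3) (hm : nsq m = 1) (h : 73 / 100 * m.1 = 1 / 5) :
    nu m = foot0 := by
  rw [nu_bar_top m hm h.ge, h]
  rfl

private theorem foot_mem_top : foot0 ∈ sph 0 := by
  refine ⟨rfl, ?_⟩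
  show nsq _ = _
  unfold nsq foot0
  norm_num

private theorem nu_cont_top : Continuous nu := by
  have h : ContinuousOn ((fun q : ℝ × R4 => sq q.1 q.2) ∘
      fun m : R3 => (((0 : ℝ), ((1 : ℝ) / 2, ((73 : ℝ) / 100) • m)) : ℝ × R4)) univ :=
    hS3.comp (by fun_prop) (fun m _ => ⟨self_mem_Ici, mem_univ _⟩)
  exact continuousOn_univ.1 h

private theorem bar_mem_top (a : ℝ) (h1 : 1 / 5 ≤ a) (h2 : a ≤ 4 / 5) : bar a ∈ SP :=
  Or.inr ⟨rfl, h1, h2, rfl⟩

private theorem emb_cont_top (F : R4 → R4) (hF : EmbOn 𝓘(ℝ, R4) F SP) : ContinuousOn F SP := by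
  intro p hp
  obtain ⟨Φ, h1, h2⟩ := hF.1 p hp
  have h3 : ContinuousOn F Φ.source := Φ.contMDiffOn_toFun.continuousOn.congr h2
  exact (h3.continuousAt (Φ.open_source.mem_nhds h1)).continuousWithinAt

private theorem bar_cont_top : Continuous bar := by
  unfold bar
  fun_prop

end TOP

open TOP in
theorem m_TOP : StTOP := by
  intro F F' h ζ P₂ hF hF' hN hh h0 h1 hK hz1 hz2 hP hP0 hP1 hPa hPb hPK
  classical
  have hFc := emb_cont_top F hF
  have hfoot := foot_mem_top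
  -- continuity of `ζ`
  have hz : ContinuousOn ζ (Icc 0 1) := by
    have e : Icc (0 : ℝ) 1 = Icc 0 (1 / 2) ∪ Icc (1 / 2) 1 :=
      (Icc_union_Icc_eq_Icc (by norm_num) (by norm_num)).symm
    rw [e]
    refine ContinuousOn.union_of_isClosed ?_ ?_ isClosed_Icc isClosed_Icc
    · refine ContinuousOn.congr ?_ hz1
      refine hFc.comp (Continuous.continuousOn (bar_cont_top.comp (by fun_prop))) ?_
      intro τ hτ
      exact bar_mem_top _ (by linarith [hτ.2]) (by linarith [hτ.1])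
    · refine ContinuousOn.congr ?_ hz2
      refine hh.comp (by fun_prop) ?_
      intro τ hτ
      exact ⟨⟨by linarith [hτ.1], by linarith [hτ.2]⟩, hfoot⟩
  have hzK : ∀ τ ∈ Icc (0 : ℝ) 1, ζ τ ∉ F '' sph 1 := by
    intro τ hτ
    rw [← hP0 τ hτ]
    exact hPK 0 ⟨le_rfl, zero_le_one⟩ τ hτ
  -- the homotopy
  let T : ℝ × R3 → ℝ := fun x => 5 / 2 * (3 / 5 - 73 / 100 * x.2.1)
  let H : ℝ × R3 → R4 := fun x =>
    if 3 / 5 ≤ 73 / 100 * x.2.1 then F (nu x.2)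
    else if 1 / 5 ≤ 73 / 100 * x.2.1 then
      (if x.1 ≤ 1 / 2 then ζ (T x * (1 + 2 * x.1) / 2) else P₂ (2 * x.1 - 1, T x))
    else h (min (2 * x.1) 1, nu x.2)
  let D : Set (ℝ × R3) := Icc (0 : ℝ) 1 ×ˢ {m : R3 | nsq m = 1}
  let D1 : Set (ℝ × R3) := D ∩ {x | 3 / 5 ≤ 73 / 100 * x.2.1}
  let D2 : Set (ℝ × R3) := D ∩ (({x | 1 / 5 ≤ 73 / 100 * x.2.1} ∩ {x | 73 / 100 * x.2.1 ≤ 3 / 5}) ∩
    {x | x.1 ≤ 1 / 2})
  let D3 : Set (ℝ × R3) := D ∩ (({x | 1 / 5 ≤ 73 / 100 * x.2.1} ∩ {x | 73 / 100 * x.2.1 ≤ 3 / 5}) ∩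
    {x | 1 / 2 ≤ x.1})
  let D4 : Set (ℝ × R3) := D ∩ {x | 73 / 100 * x.2.1 ≤ 1 / 5}
  have hbar : bar (3 / 5) = bar (3 / 5 - 4 / 5 * 0) := by norm_num
  have hle : ∀ m : R3, nsq m = 1 → 73 / 100 * m.1 ≤ 73 / 100 := by
    intro m hm
    have h1 : m.1 ≤ 1 := by
      unfold nsq at hm
      nlinarith [sq_nonneg m.2.re, sq_nonneg m.2.im, sq_nonneg (m.1 - 1)]
    linarith
  -- values
  have v1 : ∀ x ∈ D1, H x = F (nu x.2) := fun x hx => if_pos hx.2
  have v2 : ∀ x ∈ D2, H x = ζ (T x * (1 + 2 * x.1) / 2) := by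
    intro x hx
    obtain ⟨hxD, ⟨hx1, hx2⟩, hx3⟩ := hx
    simp only [mem_ofPred_eq] at hx1 hx2 hx3
    rcases eq_or_lt_of_le hx2 with he | hl
    · have hT : T x = 0 := by simp only [T, he]; norm_num
      have e1 : H x = F (nu x.2) := if_pos he.ge
      rw [e1, hT, nu_bar_top x.2 hxD.2 hx1, he]
      have h3 := hz1 0 ⟨le_rfl, by norm_num⟩
      rw [show (0 : ℝ) * (1 + 2 * x.1) / 2 = 0 by ring, h3]
      norm_num
    · have e1 : H x = if x.1 ≤ 1 / 2 then ζ (T x * (1 + 2 * x.1) / 2) else P₂ (2 * x.1 - 1, T x) := by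
        show (if _ then _ else _) = _
        rw [if_neg (not_le.2 hl), if_pos hx1]
      rw [e1, if_pos hx3]
  have v3 : ∀ x ∈ D3, H x = P₂ (2 * x.1 - 1, T x) := by
    intro x hx
    obtain ⟨hxD, ⟨hx1, hx2⟩, hx3⟩ := hx
    simp only [mem_ofPred_eq] at hx1 hx2 hx3
    rcases eq_or_lt_of_le hx2 with he | hl
    · have hT : T x = 0 := by simp only [T, he]; norm_num
      have e1 : H x = F (nu x.2) := if_pos he.ge
      rw [e1, hT, nu_bar_top x.2 hxD.2 hx1, he]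
      exact (hPa (2 * x.1 - 1) ⟨by linarith, by linarith [hxD.1.2]⟩).symm
    · have e1 : H x = if x.1 ≤ 1 / 2 then ζ (T x * (1 + 2 * x.1) / 2) else P₂ (2 * x.1 - 1, T x) := by
        show (if _ then _ else _) = _
        rw [if_neg (not_le.2 hl), if_pos hx1]
      rw [e1]
      split_ifs with h4
      · have h5 : x.1 = 1 / 2 := le_antisymm h4 hx3
        have h6 : T x ∈ Icc (0 : ℝ) 1 := by
          simp only [T]
          exact ⟨by linarith, by linarith⟩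
        rw [h5, show T x * (1 + 2 * (1 / 2)) / 2 = T x by ring, show (2 : ℝ) * (1 / 2) - 1 = 0 by ring]
        exact (hP0 _ h6).symm
      · rfl
  have v4 : ∀ x ∈ D4, H x = h (min (2 * x.1) 1, nu x.2) := by
    intro x hx
    obtain ⟨hxD, hx1⟩ := hx
    have hx1' : 73 / 100 * x.2.1 ≤ 1 / 5 := hx1
    have hx0 : ¬ (3 / 5 ≤ 73 / 100 * x.2.1) := by linarith
    rcases eq_or_lt_of_le hx1' with he | hl
    · have hT : T x = 1 := by simp only [T, he]; norm_num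
      have e1 : H x = if x.1 ≤ 1 / 2 then ζ (T x * (1 + 2 * x.1) / 2) else P₂ (2 * x.1 - 1, T x) := by
        show (if _ then _ else _) = _
        rw [if_neg hx0, if_pos he.ge]
      rw [e1, nu_foot_top x.2 hxD.2 he, hT]
      have hu := hxD.1
      split_ifs with h4
      · rw [hz2 (1 * (1 + 2 * x.1) / 2) ⟨by linarith [hu.1], by linarith⟩,
          min_eq_left (by linarith)]
        congr 2
        ring
      · rw [min_eq_right (by linarith), h1 foot0 hfoot]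
        exact hPb _ ⟨by linarith, by linarith [hu.2]⟩
    · show (if _ then _ else _) = _
      rw [if_neg hx0, if_neg (not_le.2 hl)]
  have hDu : D = ((D1 ∪ D2) ∪ D3) ∪ D4 := by
    ext x
    constructor
    · intro hx
      by_cases h5 : 73 / 100 * x.2.1 ≤ 1 / 5
      · exact Or.inr ⟨hx, h5⟩
      · by_cases h6 : 3 / 5 ≤ 73 / 100 * x.2.1
        · exact Or.inl (Or.inl (Or.inl ⟨hx, h6⟩))
        · rcases le_total x.1 (1 / 2) with h7 | h7
          · exact Or.inl (Or.inl (Or.inr ⟨hx, ⟨(not_le.1 h5).le, (not_le.1 h6).le⟩, h7⟩))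
          · exact Or.inl (Or.inr ⟨hx, ⟨(not_le.1 h5).le, (not_le.1 h6).le⟩, h7⟩)
    · rintro (((h5 | h5) | h5) | h5)
      · exact h5.1
      · exact h5.1
      · exact h5.1
      · exact h5.1
  have hDc : IsClosed D := by
    refine isClosed_Icc.prod (isClosed_eq ?_ continuous_const)
    unfold nsq
    fun_prop
  have hD1 : IsClosed D1 := hDc.inter (isClosed_le (by fun_prop) (by fun_prop))
  have hD2 : IsClosed D2 := hDc.inter (((isClosed_le (by fun_prop) (by fun_prop)).inter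
    (isClosed_le (by fun_prop) (by fun_prop))).inter (isClosed_le (by fun_prop) (by fun_prop)))
  have hD3 : IsClosed D3 := hDc.inter (((isClosed_le (by fun_prop) (by fun_prop)).inter
    (isClosed_le (by fun_prop) (by fun_prop))).inter (isClosed_le (by fun_prop) (by fun_prop)))
  have hD4 : IsClosed D4 := hDc.inter (isClosed_le (by fun_prop) (by fun_prop))
  have hT : Continuous T := by
    simp only [T]
    fun_prop
  have c1 : ContinuousOn H D1 := by
    refine ContinuousOn.congr ?_ v1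
    refine hFc.comp (nu_cont_top.comp continuous_snd).continuousOn ?_
    intro x hx
    have h3 : 3 / 5 ≤ 73 / 100 * x.2.1 := hx.2
    show nu x.2 ∈ SP
    rw [nu_bar_top x.2 hx.1.2 (by linarith)]
    exact bar_mem_top _ (by linarith) (by linarith [hle x.2 hx.1.2])
  have c2 : ContinuousOn H D2 := by
    refine ContinuousOn.congr ?_ v2
    refine hz.comp (Continuous.continuousOn (by fun_prop)) ?_
    intro x hx
    obtain ⟨hxD, ⟨hx1, hx2⟩, hx3⟩ := hx
    simp only [mem_ofPred_eq] at hx1 hx2 hx3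
    have h6 : 0 ≤ T x ∧ T x ≤ 1 := by
      simp only [T]
      exact ⟨by linarith, by linarith⟩
    have hu := hxD.1
    refine ⟨?_, ?_⟩
    · have := mul_nonneg h6.1 (by linarith [hu.1] : (0 : ℝ) ≤ 1 + 2 * x.1)
      linarith
    · have : T x * (1 + 2 * x.1) ≤ 1 * 2 :=
        mul_le_mul h6.2 (by linarith) (by linarith [hu.1]) (by norm_num)
      linarith
  have c3 : ContinuousOn H D3 := by
    refine ContinuousOn.congr ?_ v3
    refine hP.comp (Continuous.continuousOn (by fun_prop)) ?_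
    intro x hx
    obtain ⟨hxD, ⟨hx1, hx2⟩, hx3⟩ := hx
    simp only [mem_ofPred_eq] at hx1 hx2 hx3
    have hu := hxD.1
    refine ⟨⟨by linarith, by linarith [hu.2]⟩, ?_⟩
    simp only [T]
    exact ⟨by linarith, by linarith⟩
  have c4 : ContinuousOn H D4 := by
    refine ContinuousOn.congr ?_ v4
    refine hh.comp (Continuous.continuousOn ?_) ?_
    · exact ((continuous_const.mul continuous_fst).min continuous_const).prodMk
        (nu_cont_top.comp continuous_snd)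
    · intro x hx
      have hu := hx.1.1
      exact ⟨⟨le_min (by linarith [hu.1]) zero_le_one, min_le_right _ _⟩,
        nu_sph_top x.2 hx.1.2 hx.2⟩
  refine ⟨H, ?_, ?_, ?_, ?_, ?_⟩
  · show ContinuousOn H D
    rw [hDu]
    exact ((c1.union_of_isClosed c2 hD1 hD2).union_of_isClosed c3 (hD1.union hD2) hD3).union_of_isClosed
      c4 ((hD1.union hD2).union hD3) hD4
  · intro m hm
    have hx : ((0 : ℝ), m) ∈ D := ⟨⟨le_rfl, zero_le_one⟩, hm⟩
    rw [hDu] at hx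
    rcases hx with ((h5 | h5) | h5) | h5
    · exact v1 _ h5
    · rw [v2 _ h5]
      obtain ⟨-, ⟨hx1, hx2⟩, -⟩ := h5
      have hx1' : 1 / 5 ≤ 73 / 100 * m.1 := hx1
      have hx2' : 73 / 100 * m.1 ≤ 3 / 5 := hx2
      have hx3 : T (0, m) * (1 + 2 * (0 : ℝ)) / 2 ∈ Icc (0 : ℝ) (1 / 2) := by
        simp only [T]
        exact ⟨by linarith, by linarith⟩
      show ζ (T (0, m) * (1 + 2 * (0 : ℝ)) / 2) = _
      rw [hz1 _ hx3, nu_bar_top m hm hx1']
      congr 2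
      simp only [T]
      ring
    · exfalso
      have : (1 : ℝ) / 2 ≤ 0 := h5.2.2
      norm_num at this
    · rw [v4 _ h5]
      have h6 : nu m ∈ sph 0 := nu_sph_top m hm h5.2
      show h (min (2 * (0 : ℝ)) 1, nu m) = _
      rw [show min (2 * (0 : ℝ)) 1 = 0 by norm_num]
      exact h0 _ h6
  · intro m hm
    have hx : ((1 : ℝ), m) ∈ D := ⟨⟨zero_le_one, le_rfl⟩, hm⟩
    rw [hDu] at hx
    rcases hx with ((h5 | h5) | h5) | h5
    · rw [v1 _ h5]
      have h6 : 3 / 5 ≤ 73 / 100 * m.1 := h5.2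
      show F (nu m) = _
      rw [nu_bar_top m hm (by linarith)]
      exact hN ⟨⟨rfl, by show (1 : ℝ) / 5 ≤ 73 / 100 * m.1; linarith,
        by show 73 / 100 * m.1 ≤ (4 : ℝ) / 5; linarith [hle m hm], rfl⟩, h6⟩
    · exfalso
      have : (1 : ℝ) ≤ 1 / 2 := h5.2.2
      norm_num at this
    · rw [v3 _ h5]
      obtain ⟨-, ⟨hx1, hx2⟩, -⟩ := h5
      have hx1' : 1 / 5 ≤ 73 / 100 * m.1 := hx1
      have hx2' : 73 / 100 * m.1 ≤ 3 / 5 := hx2
      have hx3 : T (1, m) ∈ Icc (0 : ℝ) 1 := by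
        simp only [T]
        exact ⟨by linarith, by linarith⟩
      show P₂ (2 * (1 : ℝ) - 1, T (1, m)) = _
      rw [show (2 : ℝ) * 1 - 1 = 1 by norm_num, hP1 _ hx3, nu_bar_top m hm hx1']
      congr 2
      simp only [T]
      ring
    · rw [v4 _ h5]
      have h6 : nu m ∈ sph 0 := nu_sph_top m hm h5.2
      show h (min (2 * (1 : ℝ)) 1, nu m) = _
      rw [show min (2 * (1 : ℝ)) 1 = 1 by norm_num]
      exact h1 _ h6
  · intro u _ m _ h5
    exact if_pos h5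
  · intro u hu m hm
    have hx : (u, m) ∈ D := ⟨hu, hm⟩
    rw [hDu] at hx
    rcases hx with ((h5 | h5) | h5) | h5
    · rw [v1 _ h5]
      have h6 : 3 / 5 ≤ 73 / 100 * m.1 := h5.2
      have h7 := hle m hm
      rintro ⟨y, hy, hyF⟩
      have h8 : nu m = bar (73 / 100 * m.1) := nu_bar_top m hm (by linarith)
      have h9 : y = nu m := by
        refine hF.2 (Or.inl (Or.inr hy)) ?_ hyF
        rw [h8]
        exact bar_mem_top _ (by linarith) (by linarith)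
      rw [h9, h8] at hy
      have h10 : rsq 1 (bar (73 / 100 * m.1)) = 1 / 25 := hy.2
      unfold rsq nsq bar at h10
      simp only [Complex.zero_re, Complex.zero_im] at h10
      nlinarith
    · rw [v2 _ h5]
      obtain ⟨-, ⟨hx1, hx2⟩, hx3⟩ := h5
      have hx1' : 1 / 5 ≤ 73 / 100 * m.1 := hx1
      have hx2' : 73 / 100 * m.1 ≤ 3 / 5 := hx2
      have hx3' : u ≤ 1 / 2 := hx3
      have h6 : 0 ≤ T (u, m) ∧ T (u, m) ≤ 1 := by
        simp only [T]
        exact ⟨by linarith, by linarith⟩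
      refine hzK _ ⟨?_, ?_⟩
      · have := mul_nonneg h6.1 (by linarith [hu.1] : (0 : ℝ) ≤ 1 + 2 * u)
        show 0 ≤ T (u, m) * (1 + 2 * u) / 2
        linarith
      · have : T (u, m) * (1 + 2 * u) ≤ 1 * 2 :=
          mul_le_mul h6.2 (by linarith) (by linarith [hu.1]) (by norm_num)
        show T (u, m) * (1 + 2 * u) / 2 ≤ 1
        linarith
    · rw [v3 _ h5]
      obtain ⟨-, ⟨hx1, hx2⟩, hx3⟩ := h5
      have hx1' : 1 / 5 ≤ 73 / 100 * m.1 := hx1
      have hx2' : 73 / 100 * m.1 ≤ 3 / 5 := hx2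
      have hx3' : 1 / 2 ≤ u := hx3
      refine hPK _ ⟨by show (0 : ℝ) ≤ 2 * u - 1; linarith, by show 2 * u - 1 ≤ (1 : ℝ); linarith [hu.2]⟩ _ ?_
      simp only [T]
      exact ⟨by linarith, by linarith⟩
    · rw [v4 _ h5]
      exact hK _ ⟨le_min (by show (0 : ℝ) ≤ 2 * u; linarith [hu.1]) zero_le_one, min_le_right _ _⟩ _
        (nu_sph_top m hm h5.2)

end Pool.Agent.Helper18.BI.H


end

/-! ## Helper18.BI.R.M_MQ -/

section

/-!
# Project BI, stage 4 (R), module MQ: the parametrization of the unit sphere by the square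
-/

set_option autoImplicit false

open scoped Manifold ContDiff Topology ComplexConjugate unitInterval
open Set Pool.Agent.Helper65.Barb Pool.Agent.Helper18.BI
open Pool.Agent.Helper70.BI (I4 IsW)
open Pool.Agent.Helper18.BI.H (IsW4 mm)
open Pool.Agent.Helper18.FinR (sqr Pi2 cls FreeClass UpTo)

namespace Pool.Agent.Helper18.BI.R

namespace MQ

private theorem mm_mq (q s : ℝ) : mm q s = mq q (step (10 * s - 9 / 2)) := by
  unfold mm Pool.Agent.Helper27.BI.zarc Pool.Agent.Helper27.BI.chi Pool.Agent.Helper27.BI.phi mq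
  generalize step (10 * s - 9 / 2) = w
  have h1 : Real.cos (2 * Real.pi * w) = 1 - 2 * Real.sin (Real.pi * w) ^ 2 := by
    rw [mul_assoc, Real.cos_two_mul, Real.cos_sq']; ring
  have h2 : Real.cos (2 * Real.pi * q) = 1 - 2 * Real.sin (Real.pi * q) ^ 2 := by
    rw [mul_assoc, Real.cos_two_mul, Real.cos_sq']; ring
  have h3 : Real.sin (2 * Real.pi * w) = 2 * Real.sin (Real.pi * w) * Real.cos (Real.pi * w) := by
    rw [mul_assoc, Real.sin_two_mul]
  have h4 : Real.sin (2 * Real.pi * q) = 2 * Real.sin (Real.pi * q) * Real.cos (Real.pi * q) := by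
    rw [mul_assoc, Real.sin_two_mul]
  rw [h1, h2, h3, h4]
  refine Prod.ext ?_ (Complex.ext ?_ ?_)
  · simp only
    ring
  · simp only
    ring
  · simp only
    ring

private theorem mq_S2 (x y : ℝ) : mq x y ∈ S2 := by
  show nsq (mq x y) = 1
  unfold nsq mq
  simp only
  have h1 : Real.cos (Real.pi * x) ^ 2 = 1 - Real.sin (Real.pi * x) ^ 2 := Real.cos_sq' _
  have h2 : Real.cos (Real.pi * y) ^ 2 = 1 - Real.sin (Real.pi * y) ^ 2 := Real.cos_sq' _
  generalize Real.sin (Real.pi * x) = a at *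
  generalize Real.sin (Real.pi * y) = b at *
  linear_combination (4 * a ^ 2 * b ^ 4) * h1 + (4 * a ^ 2 * b ^ 2) * h2

private theorem mq_bd (x y : ℝ) (h : x = 0 ∨ x = 1 ∨ y = 0 ∨ y = 1) : mq x y = (1, 0) := by
  have hs : Real.sin (Real.pi * x) = 0 ∨ Real.sin (Real.pi * y) = 0 := by
    rcases h with h | h | h | h
    · left; rw [h, mul_zero, Real.sin_zero]
    · left; rw [h, mul_one, Real.sin_pi]
    · right; rw [h, mul_zero, Real.sin_zero]
    · right; rw [h, mul_one, Real.sin_pi]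
  unfold mq
  rcases hs with h | h
  · rw [h]
    refine Prod.ext (by simp) (Complex.ext (by simp) (by simp))
  · rw [h]
    refine Prod.ext (by simp) (Complex.ext (by simp) (by simp))

private theorem arccos_pi {A : ℝ} (h1 : -1 ≤ A) (h2 : A ≤ 1) :
    ∃ x ∈ Icc (0 : ℝ) 1, Real.cos (Real.pi * x) = A ∧ Real.sin (Real.pi * x) = √(1 - A ^ 2) := by
  refine ⟨Real.arccos A / Real.pi, ⟨div_nonneg (Real.arccos_nonneg A) Real.pi_pos.le, ?_⟩, ?_, ?_⟩
  · rw [div_le_one Real.pi_pos]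
    exact Real.arccos_le_pi A
  · rw [mul_div_cancel₀ _ Real.pi_ne_zero, Real.cos_arccos h1 h2]
  · rw [mul_div_cancel₀ _ Real.pi_ne_zero, Real.sin_arccos]

private theorem mq_surj (m : R3) (hm : m ∈ S2) :
    ∃ x ∈ Icc (0 : ℝ) 1, ∃ y ∈ Icc (0 : ℝ) 1, mq x y = m := by
  obtain ⟨m₁, ⟨m₂, m₃⟩⟩ := m
  have hm' : m₁ ^ 2 + m₂ ^ 2 + m₃ ^ 2 = 1 := hm
  have hle : m₁ ≤ 1 := by nlinarith [sq_nonneg m₂, sq_nonneg m₃, sq_nonneg (m₁ - 1)]
  have hge : -1 ≤ m₁ := by nlinarith [sq_nonneg m₂, sq_nonneg m₃, sq_nonneg (m₁ + 1)]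
  rcases eq_or_lt_of_le hle with h | h
  · refine ⟨0, ⟨le_rfl, zero_le_one⟩, 0, ⟨le_rfl, zero_le_one⟩, ?_⟩
    rw [mq_bd 0 0 (Or.inl rfl)]
    have h2 : m₂ = 0 := by nlinarith [sq_nonneg m₂, sq_nonneg m₃]
    have h3 : m₃ = 0 := by nlinarith [sq_nonneg m₂, sq_nonneg m₃]
    rw [h, h2, h3]
    rfl
  · obtain ⟨c, hc⟩ : ∃ c, c = (1 - m₁) / 2 := ⟨_, rfl⟩
    have hc0 : 0 < c := by rw [hc]; linarith
    have hm1 : m₁ = 1 - 2 * c := by rw [hc]; ring
    have hsum : m₂ ^ 2 + m₃ ^ 2 = 4 * c * (1 - c) := by rw [hm1] at hm'; linarith [hm']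
    obtain ⟨w, hw⟩ : ∃ w, w = √c := ⟨_, rfl⟩
    have hw0 : 0 < w := by rw [hw]; exact Real.sqrt_pos.2 hc0
    have hw2 : w ^ 2 = c := by rw [hw]; exact Real.sq_sqrt hc0.le
    -- the second angle
    obtain ⟨B, hB⟩ : ∃ B, B = -m₂ / (2 * w) := ⟨_, rfl⟩
    have hBw : 2 * w * B = -m₂ := by rw [hB]; field_simp
    have hB2 : 4 * c * B ^ 2 = m₂ ^ 2 := by
      have e : (2 * w * B) ^ 2 = m₂ ^ 2 := by rw [hBw]; ring
      rw [← e, ← hw2]; ring
    have hBlt : B ^ 2 < 1 := by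
      by_contra hcon
      rw [not_lt] at hcon
      have h1 : 4 * c ≤ m₂ ^ 2 := by nlinarith
      nlinarith [sq_nonneg m₃, mul_pos hc0 hc0]
    have hBabs := abs_le_of_sq_le_sq' (show B ^ 2 ≤ 1 ^ 2 by linarith) zero_le_one
    obtain ⟨y, hy, hcy, hsy⟩ := arccos_pi hBabs.1 hBabs.2
    obtain ⟨b, hb⟩ : ∃ b, b = √(1 - B ^ 2) := ⟨_, rfl⟩
    have hb0 : 0 < b := by rw [hb]; exact Real.sqrt_pos.2 (by linarith)
    have hb2 : b ^ 2 = 1 - B ^ 2 := by rw [hb]; exact Real.sq_sqrt (by linarith)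
    have hcb : 4 * c * b ^ 2 = m₃ ^ 2 + 4 * c ^ 2 := by
      rw [hb2]; linear_combination -hB2 - hsum
    -- the first angle
    obtain ⟨A, hA⟩ : ∃ A, A = m₃ / (2 * w * b) := ⟨_, rfl⟩
    have hAw : 2 * w * b * A = m₃ := by rw [hA]; field_simp
    have hA2 : 4 * c * b ^ 2 * A ^ 2 = m₃ ^ 2 := by
      have e : (2 * w * b * A) ^ 2 = m₃ ^ 2 := by rw [hAw]
      rw [← e, ← hw2]; ring
    have hcb0 : 0 < 4 * c * b ^ 2 := by positivity
    have hAe : 1 - A ^ 2 = (w / b) ^ 2 := by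
      have h1 : b ^ 2 * (1 - A ^ 2) = w ^ 2 := by
        have h2 : 4 * c * (b ^ 2 * (1 - A ^ 2)) = 4 * c * w ^ 2 := by
          rw [hw2]; linear_combination hcb - hA2
        exact mul_left_cancel₀ (by positivity : (4 * c : ℝ) ≠ 0) h2
      rw [div_pow, ← h1]
      field_simp
    have hA1 : A ^ 2 ≤ 1 ^ 2 := by nlinarith [sq_nonneg (w / b)]
    have hAabs := abs_le_of_sq_le_sq' hA1 zero_le_one
    obtain ⟨x, hx, hcx, hsx⟩ := arccos_pi hAabs.1 hAabs.2
    have ha : √(1 - A ^ 2) = w / b := by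
      rw [hAe]; exact Real.sqrt_sq (by positivity)
    refine ⟨x, hx, y, hy, ?_⟩
    unfold mq
    rw [hsx, hsy, hcx, hcy, ha, ← hb]
    have hbne : b ≠ 0 := hb0.ne'
    refine Prod.ext ?_ (Complex.ext ?_ ?_)
    · show 1 - 2 * (w / b) ^ 2 * b ^ 2 = m₁
      have e : (w / b) ^ 2 * b ^ 2 = c := by rw [← hw2]; field_simp
      rw [hm1]; linear_combination -2 * e
    · show -(2 * (w / b) * b * B) = m₂
      have e : w / b * b = w := by field_simp
      linear_combination -hBw - 2 * B * e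
    · show 2 * (w / b) * A * b ^ 2 = m₃
      have e : w / b * b ^ 2 = w * b := by field_simp
      linear_combination hAw + 2 * A * e

private theorem mq_smooth : ContDiff ℝ 1 (fun z : ℝ × ℝ => mq z.1 z.2) := by
  have s1 : ContDiff ℝ 1 (fun z : ℝ × ℝ => Real.sin (Real.pi * z.1)) :=
    Real.contDiff_sin.comp (contDiff_const.mul contDiff_fst)
  have c1 : ContDiff ℝ 1 (fun z : ℝ × ℝ => Real.cos (Real.pi * z.1)) :=
    Real.contDiff_cos.comp (contDiff_const.mul contDiff_fst)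
  have s2 : ContDiff ℝ 1 (fun z : ℝ × ℝ => Real.sin (Real.pi * z.2)) :=
    Real.contDiff_sin.comp (contDiff_const.mul contDiff_snd)
  have c2 : ContDiff ℝ 1 (fun z : ℝ × ℝ => Real.cos (Real.pi * z.2)) :=
    Real.contDiff_cos.comp (contDiff_const.mul contDiff_snd)
  have h1 : ContDiff ℝ 1 (fun z : ℝ × ℝ =>
      1 - 2 * Real.sin (Real.pi * z.1) ^ 2 * Real.sin (Real.pi * z.2) ^ 2) :=
    contDiff_const.sub ((contDiff_const.mul (s1.pow 2)).mul (s2.pow 2))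
  have h2 : ContDiff ℝ 1 (fun z : ℝ × ℝ =>
      -(2 * Real.sin (Real.pi * z.1) * Real.sin (Real.pi * z.2) * Real.cos (Real.pi * z.2))) :=
    (((contDiff_const.mul s1).mul s2).mul c2).neg
  have h3 : ContDiff ℝ 1 (fun z : ℝ × ℝ =>
      2 * Real.sin (Real.pi * z.1) * Real.cos (Real.pi * z.1) * Real.sin (Real.pi * z.2) ^ 2) :=
    ((contDiff_const.mul s1).mul c1).mul (s2.pow 2)
  have h4 := h1.prodMk (Complex.equivRealProdCLM.symm.contDiff.comp (h2.prodMk h3))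
  refine (congrArg (ContDiff ℝ 1) (funext fun z => ?_)).mp h4
  rfl

end MQ

open MQ in
theorem m_MQ : StMQ := by
  refine ⟨mm_mq, mq_S2, mq_bd, mq_surj, ?_⟩
  have hK : IsCompact (Icc (0 : ℝ) 1 ×ˢ Icc (0 : ℝ) 1) := isCompact_Icc.prod isCompact_Icc
  obtain ⟨C, hC⟩ := hK.exists_bound_of_continuousOn
    (mq_smooth.continuous_fderiv (by simp)).continuousOn
  refine ⟨Real.toNNReal C, ?_⟩
  refine Convex.lipschitzOnWith_of_nnnorm_fderiv_le (𝕜 := ℝ)
    (fun z _ => (mq_smooth.differentiable (by simp)) z) (fun z hz => ?_)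
    ((convex_Icc 0 1).prod (convex_Icc 0 1))
  rw [← NNReal.coe_le_coe, coe_nnnorm]
  exact (hC z hz).trans (Real.le_coe_toNNReal C)

end Pool.Agent.Helper18.BI.R


end

/-! ## Helper18.BI.R.M_BAS -/

section

/-!
# Project BI, stage 4 (R), module BAS: the loop of arcs of a germ and its whiskered sphere
-/

set_option autoImplicit false

open scoped Manifold ContDiff Topology ComplexConjugate
open Set Pool.Agent.Helper65.Barb Pool.Agent.Helper18.BI
open Pool.Agent.Helper70.BI (I4 IsW MW)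
open Pool.Agent.Helper27.H (ArcD StArcH)
open Pool.Agent.Helper18.BI.H
open Pool.Agent.Helper27.BI (zarc phi)

namespace Pool.Agent.Helper18.BI.R

namespace BAS

private theorem sq_bar_bas (s a : ℝ) (w : ℂ) (h1 : 1 / 5 ≤ a) (h2 : a ≤ 4 / 5) :
    sq 0 (s, (a, w)) = bar a := by
  have hp : prof 0 a = 0 := by
    unfold prof
    have e1 : √((1 / 25 - a ^ 2) ^ 2 + 0 ^ 2) = -(1 / 25 - a ^ 2) := by
      rw [show ((1 : ℝ) / 25 - a ^ 2) ^ 2 + 0 ^ 2 = (-(1 / 25 - a ^ 2)) ^ 2 by ring]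
      exact Real.sqrt_sq (by nlinarith)
    have e2 : √((1 / 25 - (a - 1) ^ 2) ^ 2 + 0 ^ 2) = -(1 / 25 - (a - 1) ^ 2) := by
      rw [show ((1 : ℝ) / 25 - (a - 1) ^ 2) ^ 2 + 0 ^ 2 = (-(1 / 25 - (a - 1) ^ 2)) ^ 2 by ring]
      exact Real.sqrt_sq (by nlinarith)
    rw [e1, e2]
    ring
  have hf : ∀ k : ℝ, fac 0 a k = 0 := by
    intro k
    unfold fac
    rw [hp]
    simp
  have ha : axc 0 a = a := by
    unfold axc
    have e1 : √((a + 1 / 5) ^ 2 + 0 ^ 2) = a + 1 / 5 := by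
      rw [show (a + 1 / 5) ^ 2 + (0 : ℝ) ^ 2 = (a + 1 / 5) ^ 2 by ring]
      exact Real.sqrt_sq (by linarith)
    have e2 : √((a - 6 / 5) ^ 2 + 0 ^ 2) = 6 / 5 - a := by
      rw [show (a - 6 / 5) ^ 2 + (0 : ℝ) ^ 2 = (6 / 5 - a) ^ 2 by ring]
      exact Real.sqrt_sq (by linarith)
    rw [e1, e2]
    ring
  unfold sq bar
  simp only [hf, ha]
  simp

private theorem sq_fst_bas (s : ℝ) (x : R3) : sq 0 (s, x) = sq 0 (1 / 2, x) := by
  unfold sq
  simp

private theorem nsq_mm (q s : ℝ) : nsq (mm q s) = 1 := by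
  unfold mm
  rw [Pool.Agent.Helper27.BI.m_ZNSQ]
  ring

private theorem mm_smooth : ContDiff ℝ ∞ (fun z : ℝ × ℝ => mm z.1 z.2) := by
  have hst : ContDiff ℝ ∞ (fun z : ℝ × ℝ => step (10 * z.2 - 9 / 2)) :=
    Real.smoothTransition.contDiff.comp ((contDiff_const.mul contDiff_snd).sub contDiff_const)
  have hphi : ContDiff ℝ ∞ (fun z : ℝ × ℝ => phi (10 * z.2 - 9 / 2)) :=
    contDiff_const.mul hst
  have hchi : ContDiff ℝ ∞ (fun z : ℝ × ℝ => Pool.Agent.Helper27.BI.chi (10 * z.2 - 9 / 2)) :=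
    (contDiff_const.sub (Real.contDiff_cos.comp hphi)).div_const _
  have hq : ContDiff ℝ ∞ (fun z : ℝ × ℝ => 2 * Real.pi * z.1) := contDiff_const.mul contDiff_fst
  have hq' : ContDiff ℝ ∞ (fun z : ℝ × ℝ => Real.pi * z.1) := contDiff_const.mul contDiff_fst
  have h1 : ContDiff ℝ ∞ (fun z : ℝ × ℝ =>
      1 + Pool.Agent.Helper27.BI.chi (10 * z.2 - 9 / 2) * (Real.cos (2 * Real.pi * z.1) - 1)) :=
    contDiff_const.add (hchi.mul ((Real.contDiff_cos.comp hq).sub contDiff_const))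
  have h2 : ContDiff ℝ ∞ (fun z : ℝ × ℝ =>
      -Real.sin (Real.pi * z.1) * Real.sin (phi (10 * z.2 - 9 / 2))) :=
    (Real.contDiff_sin.comp hq').neg.mul (Real.contDiff_sin.comp hphi)
  have h3 : ContDiff ℝ ∞ (fun z : ℝ × ℝ =>
      Pool.Agent.Helper27.BI.chi (10 * z.2 - 9 / 2) * Real.sin (2 * Real.pi * z.1)) :=
    hchi.mul (Real.contDiff_sin.comp hq)
  have h4 : ContDiff ℝ ∞ (fun z : ℝ × ℝ =>
      ((-Real.sin (Real.pi * z.1) * Real.sin (phi (10 * z.2 - 9 / 2)) : ℝ) : ℂ) +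
        ((Pool.Agent.Helper27.BI.chi (10 * z.2 - 9 / 2) * Real.sin (2 * Real.pi * z.1) : ℝ) : ℂ) * Complex.I) :=
    (Complex.ofRealCLM.contDiff.comp h2).add ((Complex.ofRealCLM.contDiff.comp h3).mul
      contDiff_const)
  have h5 := h1.prodMk h4
  refine (congrArg (ContDiff ℝ ∞) (funext fun z => ?_)).mp h5
  unfold mm zarc
  refine Prod.ext rfl (Complex.ext ?_ ?_)
  · rw [Complex.add_re, Complex.ofReal_re, Complex.re_ofReal_mul, Complex.I_re, mul_zero, add_zero]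
  · rw [Complex.add_im, Complex.ofReal_im, Complex.im_ofReal_mul, Complex.I_im, mul_one, zero_add]

private theorem fst_le_bas {m : R3} (hm : nsq m = 1) : m.1 ≤ 1 := by
  unfold nsq at hm
  nlinarith [sq_nonneg m.2.re, sq_nonneg m.2.im, sq_nonneg (m.1 - 1)]

private theorem mem_SP_bas (s r : ℝ) (m : R3) (hm : nsq m = 1) (h1 : 7 / 10 ≤ r)
    (h2 : r ≤ 39 / 50) : sq 0 (s, r • m) ∈ SP := by
  apply hS4.1
  have h3 := fst_le_bas hm
  unfold nsq at hm
  refine ⟨?_, ?_⟩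
  · show ((1 : ℝ) / 5) ^ 2 ≤ nsq _
    unfold nsq
    simp only [Prod.smul_fst, Prod.smul_snd, smul_eq_mul, Complex.real_smul, Complex.mul_re,
      Complex.mul_im, Complex.ofReal_re, Complex.ofReal_im, zero_mul, sub_zero, add_zero]
    nlinarith [mul_self_nonneg (r - 7 / 10)]
  · show ((1 : ℝ) / 5) ^ 2 ≤ nsq _
    unfold nsq
    simp only [Prod.smul_fst, Prod.smul_snd, smul_eq_mul, Complex.real_smul, Complex.mul_re,
      Complex.mul_im, Complex.ofReal_re, Complex.ofReal_im, zero_mul, sub_zero, add_zero]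
    have h4 : (r * m.1 - 1) ^ 2 + (r * m.2.re) ^ 2 + (r * m.2.im) ^ 2 =
        r ^ 2 - 2 * r * m.1 + 1 := by linear_combination r ^ 2 * hm
    rw [h4]
    nlinarith [mul_nonneg (by linarith : (0 : ℝ) ≤ r) (by linarith : (0 : ℝ) ≤ 1 - m.1)]

private theorem mem_neckE_bas (s r : ℝ) (m : R3) (hm : nsq m = 1) (h1 : 7 / 10 ≤ r)
    (h2 : r ≤ 39 / 50) (h : r = 73 / 100 ∨ m = (1, 0)) (h3 : 3 / 5 ≤ 73 / 100 * m.1) :
    sq 0 (s, r • m) ∈ neckE := by
  have h4 := fst_le_bas hm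
  have h5 : 3 / 5 ≤ r * m.1 ∧ r * m.1 ≤ 4 / 5 := by
    rcases h with h | h
    · rw [h]; exact ⟨h3, by linarith⟩
    · rw [h]; exact ⟨by simp; linarith, by simp; linarith⟩
  have e : ((s, r • m) : R4) = (s, (r * m.1, (r : ℝ) • m.2)) := rfl
  rw [e, sq_bar_bas _ _ _ (by linarith) h5.2]
  exact ⟨⟨rfl, by show (1 : ℝ) / 5 ≤ r * m.1; linarith, h5.2, rfl⟩, h5.1⟩

private theorem nu_cont_bas : Continuous H.nu := by
  have h : ContinuousOn ((fun q : ℝ × R4 => sq q.1 q.2) ∘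
      fun m : R3 => (((0 : ℝ), ((1 : ℝ) / 2, ((73 : ℝ) / 100) • m)) : ℝ × R4)) univ :=
    hS3.comp (by fun_prop) (fun m _ => ⟨self_mem_Ici, mem_univ _⟩)
  exact continuousOn_univ.1 h

private theorem near_bas {F : R4 → R4} (h : EmbOn 𝓘(ℝ, R4) F SP) :
    ∃ O : Set R4, IsOpen O ∧ SP ⊆ O ∧ ContDiffOn ℝ ∞ F O := by
  refine ⟨{p | IsLocalDiffeomorphAt 𝓘(ℝ, R4) 𝓘(ℝ, R4) ∞ F p}, ?_, fun p hp => h.1 p hp, ?_⟩
  · rw [isOpen_iff_mem_nhds]
    rintro p ⟨Φ, hp, heq⟩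
    exact Filter.mem_of_superset (Φ.open_source.mem_nhds hp) fun q hq => ⟨Φ, hq, heq⟩
  · intro p hp
    exact (contMDiffAt_iff_contDiffAt.1 (IsLocalDiffeomorphAt.contMDiffAt hp)).contDiffWithinAt

private theorem sphere_cpt : IsCompact {m : R3 | nsq m = 1} := by
  have hc : Continuous (fun m : R3 => nsq m) := by
    unfold nsq
    fun_prop
  refine (isCompact_closedBall (0 : R3) 1).of_isClosed_subset
    (isClosed_singleton.preimage hc) ?_
  intro m hm
  have hm' : m.1 ^ 2 + m.2.re ^ 2 + m.2.im ^ 2 = 1 := hm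
  rw [mem_closedBall_zero_iff, Prod.norm_def]
  refine max_le ?_ ?_
  · rw [Real.norm_eq_abs]
    exact abs_le_one_iff_mul_self_le_one.2 (by nlinarith [sq_nonneg m.2.re, sq_nonneg m.2.im])
  · have h2 : ‖m.2‖ ^ 2 ≤ 1 := by
      rw [← Complex.normSq_eq_norm_sq, Complex.normSq_apply]
      nlinarith [sq_nonneg m.1]
    nlinarith [norm_nonneg m.2]

private theorem tube_bas {F : R4 → R4} {O U : Set R4} {T : Set (ℝ × ℝ × R3)} {δ : ℝ}
    (hO : IsOpen O) (hF : ContinuousOn F O) (hT : IsCompact T) (hU : IsOpen U)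
    (hz : ∀ z ∈ T, sq 0 (z.1, z.2.1 • z.2.2) ∈ O)
    (hzU : ∀ z ∈ T, 3 / 5 ≤ 73 / 100 * z.2.2.1 → sq 0 (z.1, z.2.1 • z.2.2) ∈ U) (hδ : 0 < δ) :
    ∃ ε₀ > 0, ∀ ε ∈ Ioo 0 ε₀, ∀ z ∈ T, sq ε (z.1, z.2.1 • z.2.2) ∈ O ∧
      dist (F (sq ε (z.1, z.2.1 • z.2.2))) (F (sq 0 (z.1, z.2.1 • z.2.2))) < δ ∧
      (3 / 5 ≤ 73 / 100 * z.2.2.1 → sq ε (z.1, z.2.1 • z.2.2) ∈ U) := by
  have hc : ContinuousOn (fun x : ℝ × (ℝ × ℝ × R3) => sq x.1 (x.2.1, x.2.2.1 • x.2.2.2))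
      (Ici 0 ×ˢ univ) := by
    have h : ContinuousOn ((fun q : ℝ × R4 => sq q.1 q.2) ∘
        fun x : ℝ × (ℝ × ℝ × R3) => ((x.1, (x.2.1, x.2.2.1 • x.2.2.2)) : ℝ × R4))
        (Ici 0 ×ˢ univ) :=
      hS3.comp (by fun_prop) (fun x hx => ⟨hx.1, mem_univ _⟩)
    exact h
  have hc0 : ContinuousOn (fun x : ℝ × (ℝ × ℝ × R3) => sq 0 (x.2.1, x.2.2.1 • x.2.2.2))
      (Ici 0 ×ˢ univ) := by
    have h : ContinuousOn ((fun q : ℝ × R4 => sq q.1 q.2) ∘
        fun x : ℝ × (ℝ × ℝ × R3) => (((0 : ℝ), (x.2.1, x.2.2.1 • x.2.2.2)) : ℝ × R4))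
        (Ici 0 ×ˢ univ) :=
      hS3.comp (by fun_prop) (fun x hx => ⟨self_mem_Ici, mem_univ _⟩)
    exact h
  have key : ∀ᶠ ε in 𝓝 (0 : ℝ), ∀ z ∈ T, 0 ≤ ε → sq ε (z.1, z.2.1 • z.2.2) ∈ O ∧
      dist (F (sq ε (z.1, z.2.1 • z.2.2))) (F (sq 0 (z.1, z.2.1 • z.2.2))) < δ ∧
      (3 / 5 ≤ 73 / 100 * z.2.2.1 → sq ε (z.1, z.2.1 • z.2.2) ∈ U) := by
    refine hT.eventually_forall_of_forall_eventually fun z hzT => ?_
    have hmem : ((0 : ℝ), z) ∈ Ici (0 : ℝ) ×ˢ (univ : Set (ℝ × ℝ × R3)) :=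
      ⟨self_mem_Ici, mem_univ _⟩
    have t1 := hc (0, z) hmem
    have t0 := hc0 (0, z) hmem
    have hFa : ContinuousAt F (sq 0 (z.1, z.2.1 • z.2.2)) := hF.continuousAt (hO.mem_nhds (hz z hzT))
    have a1 : ∀ᶠ x in 𝓝[Ici (0 : ℝ) ×ˢ univ] ((0 : ℝ), z),
        sq x.1 (x.2.1, x.2.2.1 • x.2.2.2) ∈ O := t1.eventually (hO.mem_nhds (hz z hzT))
    have a2 : ∀ᶠ x in 𝓝[Ici (0 : ℝ) ×ˢ univ] ((0 : ℝ), z),
        dist (F (sq x.1 (x.2.1, x.2.2.1 • x.2.2.2))) (F (sq 0 (x.2.1, x.2.2.1 • x.2.2.2))) < δ := by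
      have b1 : Filter.Tendsto (fun x : ℝ × (ℝ × ℝ × R3) => F (sq x.1 (x.2.1, x.2.2.1 • x.2.2.2)))
          (𝓝[Ici (0 : ℝ) ×ˢ univ] ((0 : ℝ), z)) (𝓝 (F (sq 0 (z.1, z.2.1 • z.2.2)))) :=
        hFa.tendsto.comp t1
      have b0 : Filter.Tendsto (fun x : ℝ × (ℝ × ℝ × R3) => F (sq 0 (x.2.1, x.2.2.1 • x.2.2.2)))
          (𝓝[Ici (0 : ℝ) ×ˢ univ] ((0 : ℝ), z)) (𝓝 (F (sq 0 (z.1, z.2.1 • z.2.2)))) :=
        hFa.tendsto.comp t0
      have b2 := b1.dist b0
      rw [dist_self] at b2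
      exact b2.eventually_lt_const hδ
    have a3 : ∀ᶠ x in 𝓝[Ici (0 : ℝ) ×ˢ univ] ((0 : ℝ), z),
        (3 / 5 ≤ 73 / 100 * x.2.2.2.1 → sq x.1 (x.2.1, x.2.2.1 • x.2.2.2) ∈ U) := by
      by_cases h : 3 / 5 ≤ 73 / 100 * z.2.2.1
      · exact (t1.eventually (hU.mem_nhds (hzU z hzT h))).mono fun x hx _ => hx
      · rw [not_le] at h
        have hcc : Continuous (fun x : ℝ × (ℝ × ℝ × R3) => 73 / 100 * x.2.2.2.1) := by fun_prop
        have := (hcc.tendsto (0, z)).eventually_lt_const h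
        refine (this.filter_mono nhdsWithin_le_nhds).mono fun x hx hx' => ?_
        exact absurd hx' (not_le.2 hx)
    have a4 := (a1.and (a2.and a3))
    rw [eventually_nhdsWithin_iff] at a4
    exact a4.mono fun x hx h0 => hx ⟨h0, mem_univ _⟩
  obtain ⟨ε₀, h0, h1⟩ := Metric.eventually_nhds_iff.1 key
  refine ⟨ε₀, h0, fun ε hε z hz' => h1 ?_ z hz' hε.1.le⟩
  rw [Real.dist_eq, sub_zero, abs_of_pos hε.1]
  exact hε.2

private theorem axc_lt_bas (a : ℝ) (h2 : a ≤ 73 / 100) : axc 0 a < 4 / 5 := by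
  unfold axc
  have e2 : √((a - 6 / 5) ^ 2 + 0 ^ 2) = 6 / 5 - a := by
    rw [show (a - 6 / 5) ^ 2 + (0 : ℝ) ^ 2 = (6 / 5 - a) ^ 2 by ring]
    exact Real.sqrt_sq (by linarith)
  have e1 : √((a + 1 / 5) ^ 2 + 0 ^ 2) ≤ 83 / 50 - a := by
    rw [show (a + 1 / 5) ^ 2 + (0 : ℝ) ^ 2 = (a + 1 / 5) ^ 2 by ring]
    exact Real.sqrt_le_iff.2 ⟨by linarith, by nlinarith⟩
  rw [e2]
  linarith

private theorem nu_not_bas (m : R3) (hm : nsq m = 1) : nu m ∉ sph 1 := by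
  intro h
  have h1 : rsq 1 (nu m) = 1 / 25 := h.2
  have h2 : (nu m).2.1 < 4 / 5 := by
    have e : (nu m).2.1 = axc 0 (73 / 100 * m.1) := by
      unfold H.nu sq
      simp
    rw [e]
    exact axc_lt_bas _ (by linarith [fst_le_bas hm])
  unfold rsq nsq at h1
  simp only at h1
  nlinarith [sq_nonneg (nu m).2.2.re, sq_nonneg (nu m).2.2.im]

private theorem fin_bas {x z w : R4} {r : ℝ} (h1 : dist x z ≤ r / 8) (h2 : dist x w < r / 2)
    (h3 : r < dist z w) (hr : 0 < r) : False := by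
  have h4 : dist z w ≤ dist z x + dist x w := dist_triangle _ _ _
  rw [dist_comm z x] at h4
  linarith

end BAS

open BAS in
theorem m_BAS : StBAS := by
  intro F F' V hF hF' hV hsV hEq
  obtain ⟨O', hO', hSO', hFO'⟩ := near_bas hF'
  obtain ⟨O, hO, hSO, hFO⟩ := near_bas hF
  have hSPs : sph 1 ⊆ SP := fun p hp => Or.inl (Or.inr hp)
  -- the distance to the fixed cuff
  have hKc : IsCompact (F '' sph 1) := by
    have h1 : IsClosed (sph 1) := by
      have hc : Continuous (fun p : R4 => rsq 1 p) := by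
        unfold rsq nsq
        fun_prop
      exact (isClosed_singleton.preimage continuous_fst).inter (isClosed_singleton.preimage hc)
    have h2 : IsCompact (sph 1) := hS4.2.2.2.2.2.2.2.2.1.of_isClosed_subset h1 hSPs
    exact h2.image_of_continuousOn (hFO.continuousOn.mono (hSPs.trans hSO))
  have hnuS : ∀ m, nsq m = 1 → nu m ∈ SP := fun m hm =>
    mem_SP_bas _ _ _ hm (by norm_num) (by norm_num)
  have hNcont : ContinuousOn (fun m => F' (nu m)) {m : R3 | nsq m = 1} :=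
    hFO'.continuousOn.comp nu_cont_bas.continuousOn fun m hm => hSO' (hnuS m hm)
  have hNi : IsCompact ((fun m => F' (nu m)) '' {m : R3 | nsq m = 1}) :=
    sphere_cpt.image_of_continuousOn hNcont
  have hdis : Disjoint ((fun m => F' (nu m)) '' {m : R3 | nsq m = 1}) (F '' sph 1) := by
    rw [Set.disjoint_left]
    rintro y ⟨m, hm, rfl⟩ ⟨p, hp, h3⟩
    have h4 : F' p = F' (nu m) := by
      rw [← hEq (hsV (Or.inl hp))]
      exact h3
    have h5 : p = nu m := hF'.2 (hSPs hp) (hnuS m hm) h4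
    exact nu_not_bas m hm (h5 ▸ hp)
  obtain ⟨r, hr0, hr⟩ := Metric.exists_pos_forall_lt_edist hNi hKc.isClosed hdis
  have hκ : ∀ m, nsq m = 1 → ∀ y ∈ F '' sph 1, (r : ℝ) < dist (F' (nu m)) y := by
    intro m hm y hy
    have h1 := hr _ ⟨m, hm, rfl⟩ y hy
    rw [edist_nndist] at h1
    exact_mod_cast h1
  have hr0' : (0 : ℝ) < r := by exact_mod_cast hr0
  -- the tube
  let T : Set (ℝ × ℝ × R3) := {z | z.1 ∈ Icc (3 / 10 : ℝ) (7 / 10) ∧ z.2.1 = 73 / 100 ∧ nsq z.2.2 = 1}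
  have hT : IsCompact T := by
    refine (isCompact_Icc.prod ((isCompact_singleton (x := (73 : ℝ) / 100)).prod
      sphere_cpt)).of_isClosed_subset (s := Icc (3 / 10 : ℝ) (7 / 10) ×ˢ ({(73 : ℝ) / 100} ×ˢ
        {m : R3 | nsq m = 1})) ?_ (fun z hz => ⟨hz.1, hz.2.1, hz.2.2⟩)
    have c1 : IsClosed {z : ℝ × ℝ × R3 | z.1 ∈ Icc (3 / 10 : ℝ) (7 / 10)} :=
      isClosed_Icc.preimage continuous_fst
    have c3 : IsClosed {z : ℝ × ℝ × R3 | nsq z.2.2 = 1} :=
      sphere_cpt.isClosed.preimage (by fun_prop : Continuous fun z : ℝ × ℝ × R3 => z.2.2)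
    have c4 : IsClosed {z : ℝ × ℝ × R3 | z.2.1 = 73 / 100} :=
      isClosed_singleton.preimage (by fun_prop : Continuous fun z : ℝ × ℝ × R3 => z.2.1)
    exact c1.inter (c4.inter c3)
  have hTS : ∀ z ∈ T, sq 0 (z.1, z.2.1 • z.2.2) ∈ SP := fun z hz =>
    mem_SP_bas _ _ _ hz.2.2 (by rw [hz.2.1]; norm_num) (by rw [hz.2.1]; norm_num)
  have hTN : ∀ z ∈ T, 3 / 5 ≤ 73 / 100 * z.2.2.1 → sq 0 (z.1, z.2.1 • z.2.2) ∈ V :=
    fun z hz h => hsV (Or.inr (mem_neckE_bas _ _ _ hz.2.2 (by rw [hz.2.1]; norm_num)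
      (by rw [hz.2.1]; norm_num) (Or.inl hz.2.1) h))
  obtain ⟨ε₂, hε₂, hB⟩ := tube_bas (δ := r / 8) hO' hFO'.continuousOn hT hV
    (fun z hz => hSO' (hTS z hz)) hTN (by linarith)
  refine ⟨r / 2, by linarith, ε₂, hε₂, fun ε hε D hm₀ hm₁ hDc hDU => ?_⟩
  have hεp : 0 < ε := hε.1
  replace hB := hB ε hε
  have hsq : ContDiff ℝ ∞ (sq ε) := by
    have h := hS2.2.2.2.comp (s := univ) (g := fun q : ℝ × R4 => sq q.1 q.2)
      (f := fun p : R4 => (ε, p)) (contDiff_const.prodMk contDiff_id).contDiffOn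
      (fun p _ => ⟨hεp, mem_univ _⟩)
    exact contDiffOn_univ.1 h
  -- facts on the arcs
  have hO1 : ∀ s ∈ Icc (3 / 10 : ℝ) (7 / 10), ∀ m, nsq m = 1 → sq ε (s, (73 / 100 : ℝ) • m) ∈ O' :=
    fun s hs m hm => (hB (s, 73 / 100, m) ⟨hs, rfl, hm⟩).1
  have hd1 : ∀ s ∈ Icc (3 / 10 : ℝ) (7 / 10), ∀ m, nsq m = 1 →
      dist (F' (sq ε (s, (73 / 100 : ℝ) • m))) (F' (nu m)) < r / 8 := by
    intro s hs m hm
    have h := (hB (s, 73 / 100, m) ⟨hs, rfl, hm⟩).2.1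
    have e : nu m = sq 0 (s, (73 / 100 : ℝ) • m) := (sq_fst_bas _ _).symm
    rw [e]
    exact h
  have hn1 : nsq ((1, 0) : R3) = 1 := by
    unfold nsq
    simp
  have hDc' : ∀ s ∈ Icc (3 / 10 : ℝ) (7 / 10),
      F' (sq ε (s, (73 / 100 : ℝ) • ((1, 0) : R3))) = D.c s := by
    intro s hs
    have h := (hB (s, 73 / 100, (1, 0)) ⟨hs, rfl, hn1⟩).2.2 (by norm_num)
    rw [hDc s hs, ← hEq h, smul_e]
  have hbp : F' (nu (1, 0)) = bp F := by
    have e : nu ((1, 0) : R3) = bar (73 / 100) := by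
      unfold H.nu
      rw [smul_e]
      exact sq_bar_bas _ _ _ (by norm_num) (by norm_num)
    rw [e]
    unfold bp
    exact (hEq (hsV (Or.inr ⟨⟨rfl, by show (1 : ℝ) / 5 ≤ 73 / 100; norm_num,
      by show (73 : ℝ) / 100 ≤ 4 / 5; norm_num, rfl⟩, by show (3 : ℝ) / 5 ≤ 73 / 100; norm_num⟩))).symm
  have hcout : ∀ q s, (s ≤ 9 / 20 ∨ 11 / 20 ≤ s) → loopF F' (3 / 10) (7 / 10) ε D q s = D.c s := by
    intro q s hs
    unfold loopF
    split_ifs with h
    · rw [mm_edge q s hs]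
      exact hDc' s h
    · rfl
  have hcend : ∀ q s, (q = 0 ∨ q = 1) → loopF F' (3 / 10) (7 / 10) ε D q s = D.c s := by
    intro q s hq
    unfold loopF
    split_ifs with h
    · rw [mm_ends q s hq]
      exact hDc' s h
    · rfl
  have hcin : ∀ q, ∀ s ∈ Icc (3 / 10 : ℝ) (7 / 10), loopF F' (3 / 10) (7 / 10) ε D q s =
      F' (sq ε (s, (73 / 100 : ℝ) • mm q s)) := by
    intro q s hs
    unfold loopF
    exact if_pos hs
  have hmid : ∀ s ∈ Icc D.m₀ D.m₁, s ∈ Icc (3 / 10 : ℝ) (7 / 10) := by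
    intro s hs
    rw [hm₀, hm₁] at hs
    exact ⟨by linarith [hs.1], by linarith [hs.2]⟩
  have hU : ∀ m, nsq m = 1 → ∀ x, dist x (F' (nu m)) ≤ r / 8 → x ∈ D.U := by
    intro m hm x hx
    by_contra h
    obtain ⟨y, hy, hxy⟩ := hDU x h
    exact fin_bas hx hxy (hκ m hm y hy) hr0'
  have hsm : ContDiff ℝ ∞ (fun z : ℝ × ℝ => loopF F' (3 / 10) (7 / 10) ε D z.1 z.2) := by
    rw [contDiff_iff_contDiffAt]
    intro z
    have hout : ∀ W : Set ℝ, IsOpen W → z.2 ∈ W → (∀ s ∈ W, s ≤ 9 / 20 ∨ 11 / 20 ≤ s) →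
        ContDiffAt ℝ ∞ (fun z : ℝ × ℝ => loopF F' (3 / 10) (7 / 10) ε D z.1 z.2) z := by
      intro W hW hzW hWs
      have h1 : ContDiffAt ℝ ∞ (fun z : ℝ × ℝ => D.c z.2) z :=
        (D.smooth.comp contDiff_snd).contDiffAt
      refine h1.congr_of_eventuallyEq ?_
      filter_upwards [(hW.preimage continuous_snd).mem_nhds hzW] with y hy
      exact hcout _ _ (hWs _ hy)
    rcases lt_or_ge z.2 (9 / 20) with h | h
    · exact hout (Iio (9 / 20)) isOpen_Iio h fun s hs => Or.inl (le_of_lt hs)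
    rcases lt_or_ge (11 / 20) z.2 with h' | h'
    · exact hout (Ioi (11 / 20)) isOpen_Ioi h' fun s hs => Or.inr (le_of_lt hs)
    have hin : ContDiff ℝ ∞ (fun x : ℝ × ℝ => sq ε (x.2, (73 / 100 : ℝ) • mm x.1 x.2)) :=
      hsq.comp (contDiff_snd.prodMk (ContDiff.smul (f := fun _ : ℝ × ℝ => (73 / 100 : ℝ)) contDiff_const mm_smooth))
    have h1 : sq ε (z.2, (73 / 100 : ℝ) • mm z.1 z.2) ∈ O' :=
      hO1 _ ⟨by linarith, by linarith⟩ _ (nsq_mm _ _)
    have h2 : ContDiffAt ℝ ∞ (fun x : ℝ × ℝ => F' (sq ε (x.2, (73 / 100 : ℝ) • mm x.1 x.2))) z :=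
      (hFO'.contDiffAt (hO'.mem_nhds h1)).comp z hin.contDiffAt
    refine h2.congr_of_eventuallyEq ?_
    have h3 : z.2 ∈ Ioo (3 / 10 : ℝ) (7 / 10) := ⟨by linarith, by linarith⟩
    filter_upwards [(isOpen_Ioo.preimage continuous_snd).mem_nhds h3] with y hy
    exact hcin _ _ ⟨le_of_lt hy.1, le_of_lt hy.2⟩
  refine ⟨⟨hsm, ?_, ?_, fun s => hcend 0 s (Or.inl rfl), fun s => hcend 1 s (Or.inr rfl)⟩, ?_⟩
  · intro q _ s hs
    rw [hm₀, hm₁] at hs
    exact hcout q s hs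
  · intro q _ s hs
    rw [hcin q s (hmid s hs)]
    exact hU _ (nsq_mm q s) _ (hd1 s (hmid s hs) _ (nsq_mm q s)).le
  · have hmmc : Continuous (fun x : ℝ × ℝ => mm x.1 x.2) := mm_smooth.continuous
    have hNc : Continuous (fun x : ℝ × ℝ => F' (nu (mm x.1 x.2))) := continuousOn_univ.1
      (hFO'.continuousOn.comp (nu_cont_bas.comp hmmc).continuousOn
        fun x _ => hSO' (hnuS _ (nsq_mm _ _)))
    refine ⟨fun z => (1 - z.1) • loopF F' (3 / 10) (7 / 10) ε D z.2.1 z.2.2 +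
      z.1 • shp D (bp F) (fun q s => F' (nu (mm q s))) z.2.1 z.2.2, ?_, ?_, ?_⟩
    · refine Continuous.continuousOn ?_
      have h1 : Continuous (fun z : ℝ × ℝ × ℝ => loopF F' (3 / 10) (7 / 10) ε D z.2.1 z.2.2) :=
        hsm.continuous.comp continuous_snd
      have h2 : Continuous (fun z : ℝ × ℝ × ℝ =>
          shp D (bp F) (fun q s => F' (nu (mm q s))) z.2.1 z.2.2) := by
        unfold shp
        have h3 : Continuous (fun z : ℝ × ℝ × ℝ => D.c z.2.2) :=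
          D.smooth.continuous.comp (continuous_snd.comp continuous_snd)
        have h4 : Continuous (fun z : ℝ × ℝ × ℝ => F' (nu (mm z.2.1 z.2.2))) :=
          hNc.comp continuous_snd
        exact h4.add (h3.sub continuous_const)
      exact ((continuous_const.sub continuous_fst).smul h1).add (continuous_fst.smul h2)
    · intro q _ s _
      constructor
      · show (1 - (0 : ℝ)) • loopF F' (3 / 10) (7 / 10) ε D q s + (0 : ℝ) • _ = _
        rw [zero_smul, sub_zero, one_smul, add_zero]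
      · show (1 - (1 : ℝ)) • loopF F' (3 / 10) (7 / 10) ε D q s + (1 : ℝ) • _ = _
        rw [sub_self, zero_smul, one_smul, zero_add]
    · intro u hu q _ s hs
      have hs' := hmid s hs
      constructor
      · refine hU _ (nsq_mm q s) _ ?_
        have e : (1 - u) • loopF F' (3 / 10) (7 / 10) ε D q s +
            u • shp D (bp F) (fun q s => F' (nu (mm q s))) q s - F' (nu (mm q s)) =
            (1 - u) • (F' (sq ε (s, (73 / 100 : ℝ) • mm q s)) - F' (nu (mm q s))) +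
              u • (D.c s - bp F) := by
          rw [hcin q s hs']
          unfold shp
          module
        have h1 : ‖F' (sq ε (s, (73 / 100 : ℝ) • mm q s)) - F' (nu (mm q s))‖ ≤ r / 8 := by
          rw [← dist_eq_norm]
          exact (hd1 s hs' _ (nsq_mm q s)).le
        have h2 : ‖D.c s - bp F‖ ≤ r / 8 := by
          rw [← dist_eq_norm, ← hDc' s hs', ← hbp]
          exact (hd1 s hs' _ hn1).le
        show dist ((1 - u) • loopF F' (3 / 10) (7 / 10) ε D q s +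
            u • shp D (bp F) (fun q s => F' (nu (mm q s))) q s) (F' (nu (mm q s))) ≤ r / 8
        rw [dist_eq_norm, e]
        refine (norm_add_le _ _).trans ?_
        have h3 : (0 : ℝ) ≤ 1 - u := by linarith [hu.2]
        rw [norm_smul, norm_smul, Real.norm_of_nonneg hu.1, Real.norm_of_nonneg h3]
        have h4 := mul_le_mul_of_nonneg_left h1 h3
        have h5 := mul_le_mul_of_nonneg_left h2 hu.1
        linarith
      · intro hb
        have h1 : mm q s = (1, 0) := by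
          rcases hb with h | h | h | h
          · exact mm_ends q s (Or.inl h)
          · exact mm_ends q s (Or.inr h)
          · exact mm_edge q s (Or.inl (by rw [h, hm₀]))
          · exact mm_edge q s (Or.inr (by rw [h, hm₁]))
        show (1 - u) • loopF F' (3 / 10) (7 / 10) ε D q s +
            u • shp D (bp F) (fun q s => F' (nu (mm q s))) q s = D.c s
        rw [hcin q s hs']
        unfold shp
        simp only
        rw [h1, hDc' s hs', hbp]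
        module

end Pool.Agent.Helper18.BI.R


end
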