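import Pool.Agent.Helper18.BI.R.FinDefs
import Pool.Agent.Helper65.Barb.Defs
import Pool.Agent.Helper70.BI.FinDefs
import Pool.Agent.Helper70.BI.B.P36
import Pool.Agent.Helper70.BI.B.P45

/-!
# Project BI (MP_8e98f2_gt): collected modules, part 49

The contents of the modules
* Helper18.BI.R.M_REP
* Helper18.BI.R.M_EXC

in one file, so that the whole proof builds in a short time.
-/

/-! ## Helper18.BI.R.M_REP -/

section

/-!
# Project BI, stage 4 (R), module REP (helper8)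

Lipschitz replacement of free homotopies and null-homotopies.
-/

set_option autoImplicit false

open scoped Manifold ContDiff Topology unitInterval
open Set Pool.Agent.Helper65.Barb Pool.Agent.Helper18.BI
open Pool.Agent.Helper18.BI.H (mm)

namespace Pool.Agent.Helper18.BI.R

namespace REP

/-- the squares of a word only depend on the values of the spheres on `S2` -/
private theorem evM_congr {M : Type} {n : ℕ} (y : M) (g g' : Fin n → R3 → M)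
    (hg : ∀ i, ∀ m ∈ S2, g i m = g' i m) :
    ∀ (l : List (Fin n × Bool)) (q s : ℝ), evM y g l q s = evM y g' l q s
  | [], _, _ => rfl
  | (i, true) :: l, q, s => by
      show qcatM _ _ q s = qcatM _ _ q s
      unfold qcatM
      split_ifs
      · exact hg i _ (mm_S2 _ _)
      · exact evM_congr y g g' hg l _ _
  | (i, false) :: l, q, s => by
      show qcatM _ _ q s = qcatM _ _ q s
      unfold qcatM
      split_ifs
      · exact hg i _ (mm_S2 _ _)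
      · exact evM_congr y g g' hg l _ _

private theorem evM_off {M : Type} {n : ℕ} (A : Set M) (y : M) (hy : y ∉ A) (g : Fin n → R3 → M)
    (hg : ∀ i, ∀ m ∈ S2, g i m ∉ A) :
    ∀ (l : List (Fin n × Bool)) (q s : ℝ), evM y g l q s ∉ A
  | [], _, _ => hy
  | (i, true) :: l, q, s => by
      show qcatM _ _ q s ∉ A
      unfold qcatM
      split_ifs
      · exact hg i _ (mm_S2 _ _)
      · exact evM_off A y hy g hg l _ _
  | (i, false) :: l, q, s => by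
      show qcatM _ _ q s ∉ A
      unfold qcatM
      split_ifs
      · exact hg i _ (mm_S2 _ _)
      · exact evM_off A y hy g hg l _ _

private theorem base_S2 : ((1, 0) : R3) ∈ S2 := by
  show nsq (1, 0) = 1
  simp [nsq]

private theorem dist_S4 (x y : S4) : dist x y ≤ 2 := by
  have h1 : ‖(x : EuclideanSpace ℝ (Fin 5))‖ = 1 := norm_eq_of_mem_sphere x
  have h2 : ‖(y : EuclideanSpace ℝ (Fin 5))‖ = 1 := norm_eq_of_mem_sphere y
  rw [Subtype.dist_eq, dist_eq_norm]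
  calc ‖(x : EuclideanSpace ℝ (Fin 5)) - y‖ ≤ ‖(x : EuclideanSpace ℝ (Fin 5))‖ + ‖(y : EuclideanSpace ℝ (Fin 5))‖ :=
        norm_sub_le _ _
    _ = 2 := by rw [h1, h2]; norm_num

/-- gluing two functions on `[0, 1/2]` and `[1/2, 1]` -/
private theorem glue {X M : Type} [TopologicalSpace X] [TopologicalSpace M] {C : Set X}
    {f g : ℝ × X → M} (hf : ContinuousOn f (Icc (0 : ℝ) 1 ×ˢ C))
    (hg : ContinuousOn g (Icc (0 : ℝ) 1 ×ˢ C)) (h : ∀ x ∈ C, f (0, x) = g (0, x)) :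
    ContinuousOn (fun z : ℝ × X => if z.1 ≤ 1 / 2 then f (1 - 2 * z.1, z.2) else g (2 * z.1 - 1, z.2))
      (Icc (0 : ℝ) 1 ×ˢ C) := by
  have h1 : ContinuousOn (fun z : ℝ × X => f (1 - 2 * z.1, z.2)) (Icc (0 : ℝ) (1 / 2) ×ˢ C) := by
    refine hf.comp (Continuous.continuousOn (by fun_prop)) ?_
    rintro ⟨u, x⟩ ⟨⟨h0, h1⟩, hx⟩
    refine ⟨⟨?_, ?_⟩, hx⟩ <;> simp only at h0 h1 ⊢ <;> linarith
  have h2 : ContinuousOn (fun z : ℝ × X => g (2 * z.1 - 1, z.2)) (Icc (1 / 2 : ℝ) 1 ×ˢ C) := by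
    refine hg.comp (Continuous.continuousOn (by fun_prop)) ?_
    rintro ⟨u, x⟩ ⟨⟨h0, h1⟩, hx⟩
    refine ⟨⟨?_, ?_⟩, hx⟩ <;> simp only at h0 h1 ⊢ <;> linarith
  have hcl : ∀ z : ℝ × X, z ∈ Icc (0 : ℝ) 1 ×ˢ C → z.1 ∈ Icc (0 : ℝ) 1 ∧ z.2 ∈ C := fun z hz => hz
  refine ContinuousOn.if ?_ ?_ ?_
  · rintro ⟨u, x⟩ ⟨⟨-, hx⟩, hfr⟩
    have hu : u = 1 / 2 := by
      have h3 : (u, x) ∈ {a : ℝ × X | a.1 = 1 / 2} :=
        frontier_le_subset_eq continuous_fst continuous_const hfr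
      exact h3
    have e1 : (1 : ℝ) - 2 * u = 0 := by rw [hu]; norm_num
    have e2 : 2 * u - 1 = (0 : ℝ) := by rw [hu]; norm_num
    show f (1 - 2 * u, x) = g (2 * u - 1, x)
    rw [e1, e2]
    exact h x hx
  · refine h1.mono ?_
    rintro ⟨u, x⟩ ⟨⟨⟨h0, -⟩, hx⟩, hc⟩
    have h3 : (u, x) ∈ {a : ℝ × X | a.1 ≤ 1 / 2} := by
      have : IsClosed {a : ℝ × X | a.1 ≤ 1 / 2} := isClosed_le continuous_fst continuous_const
      exact this.closure_subset hc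
    exact ⟨⟨h0, h3⟩, hx⟩
  · refine h2.mono ?_
    rintro ⟨u, x⟩ ⟨⟨⟨-, h0⟩, hx⟩, hc⟩
    have h3 : (u, x) ∈ {a : ℝ × X | 1 / 2 ≤ a.1} := by
      have : IsClosed {a : ℝ × X | 1 / 2 ≤ a.1} := isClosed_le continuous_const continuous_fst
      refine this.closure_subset (closure_mono ?_ hc)
      intro z hz
      have hz' : ¬ z.1 ≤ 1 / 2 := hz
      exact le_of_lt (not_le.1 hz')
    exact ⟨⟨h3, h0⟩, hx⟩

/-- a function, Lipschitz on the slices over two values at distance at least `1` -/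
private theorem lip_slices {X : Type} [MetricSpace X] {C : Set X} {f : ℝ × X → S4} {L₀ L₁ : NNReal}
    (h0 : LipschitzOnWith L₀ (fun x => f (0, x)) C) (h1 : LipschitzOnWith L₁ (fun x => f (1, x)) C) :
    ∃ L : NNReal, LipschitzOnWith L f (({0, 1} : Set ℝ) ×ˢ C) := by
  refine ⟨max (max L₀ L₁) 2, LipschitzOnWith.of_dist_le_mul ?_⟩
  rintro ⟨u, x⟩ ⟨hu, hx⟩ ⟨u', x'⟩ ⟨hu', hx'⟩
  have hsnd : dist x x' ≤ dist ((u, x) : ℝ × X) (u', x') := le_max_right _ _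
  have hfst : dist u u' ≤ dist ((u, x) : ℝ × X) (u', x') := le_max_left _ _
  have hL0 : (L₀ : ℝ) ≤ ((max (max L₀ L₁) 2 : NNReal) : ℝ) :=
    NNReal.coe_le_coe.2 ((le_max_left _ _).trans (le_max_left _ _))
  have hL1 : (L₁ : ℝ) ≤ ((max (max L₀ L₁) 2 : NNReal) : ℝ) :=
    NNReal.coe_le_coe.2 ((le_max_right _ _).trans (le_max_left _ _))
  have hL2 : (2 : ℝ) ≤ ((max (max L₀ L₁) 2 : NNReal) : ℝ) :=
    NNReal.coe_le_coe.2 (le_max_right (max L₀ L₁) 2)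
  have hd : 0 ≤ dist x x' := dist_nonneg
  rcases hu with hu | hu <;> rcases hu' with hu' | hu'
  · subst hu
    subst hu'
    calc dist (f (0, x)) (f (0, x')) ≤ L₀ * dist x x' := h0.dist_le_mul _ hx _ hx'
      _ ≤ _ := by
        refine mul_le_mul hL0 hsnd hd (by positivity)
  · have hu'' : u' = 1 := hu'
    subst hu
    subst hu''
    have : (1 : ℝ) ≤ dist ((0, x) : ℝ × X) (1, x') := by
      refine le_trans ?_ hfst
      rw [Real.dist_eq]
      norm_num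
    calc dist (f (0, x)) (f (1, x')) ≤ 2 * 1 := by linarith [dist_S4 (f (0, x)) (f (1, x'))]
      _ ≤ _ := mul_le_mul hL2 this (by norm_num) (by positivity)
  · have hu'' : u = 1 := hu
    subst hu''
    subst hu'
    have : (1 : ℝ) ≤ dist ((1, x) : ℝ × X) (0, x') := by
      refine le_trans ?_ hfst
      rw [Real.dist_eq]
      norm_num
    calc dist (f (1, x)) (f (0, x')) ≤ 2 * 1 := by linarith [dist_S4 (f (1, x)) (f (0, x'))]
      _ ≤ _ := mul_le_mul hL2 this (by norm_num) (by positivity)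
  · have e1 : u = 1 := hu
    have e2 : u' = 1 := hu'
    subst e1
    subst e2
    calc dist (f (1, x)) (f (1, x')) ≤ L₁ * dist x x' := h1.dist_le_mul _ hx _ hx'
      _ ≤ _ := by
        refine mul_le_mul hL1 hsnd hd (by positivity)

end REP

open REP

/-- MODULE REP. -/
theorem m_REP (hLIP : StLIP) (hDIM : StDIM) (hMQ : StMQ) (hEVM : StEVM) : StREP := by
  intro n A y b h l N hA hb hfree hnull
  obtain ⟨hf1, hf2, hf3, hf4⟩ := hfree
  obtain ⟨hn1, hn2, hn3⟩ := hnull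
  obtain ⟨-, hqS, -, hq4, Lq, hq5⟩ := hMQ
  obtain ⟨-, he2, he3, he4⟩ := hEVM
  have hm9 : (9 / 20 : ℝ) ∈ Icc (9 / 20 : ℝ) (11 / 20) := ⟨le_refl _, by norm_num⟩
  have h0I : (0 : ℝ) ∈ Icc (0 : ℝ) 1 := ⟨le_refl _, zero_le_one⟩
  have h1I : (1 : ℝ) ∈ Icc (0 : ℝ) 1 := ⟨zero_le_one, le_refl _⟩
  have hy : y ∉ A := by
    have h1 := (hn3 1 h1I 0 h0I (9 / 20) hm9).1
    rwa [(hn2 0 h0I (9 / 20) hm9).2] at h1
  -- step (1)
  have hstep1 : ∀ i, ∃ (g : R3 → S4) (H : ℝ × R3 → S4), (∃ L : NNReal, LipschitzOnWith L g S2) ∧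
      ContinuousOn H (Icc (0 : ℝ) 1 ×ˢ S2) ∧ (∀ x ∈ S2, H (0, x) = h i (0, x) ∧ H (1, x) = g x) ∧
      (∀ u ∈ Icc (0 : ℝ) 1, ∀ x ∈ S2, H (u, x) ∉ A) ∧
      ∀ u ∈ Icc (0 : ℝ) 1, ∀ x ∈ ({(1, 0)} : Set R3), H (u, x) = h i (0, x) := by
    intro i
    refine hLIP R3 S2 {(1, 0)} A (fun m => h i (0, m)) isCompact_S2 ?_ hA ?_ ?_ ?_
    · rintro _ rfl
      exact base_S2
    · refine (hf1 i).comp (Continuous.continuousOn (by fun_prop)) ?_
      intro m hm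
      exact ⟨h0I, hm⟩
    · refine ⟨0, ?_⟩
      rintro a rfl c rfl
      simp
    · intro m hm
      exact hf4 i 0 h0I m hm
  choose g' k hg' hk1 hk2 hk3 hk4 using hstep1
  have hkb : ∀ i, ∀ u ∈ Icc (0 : ℝ) 1, k i (u, (1, 0)) = y := by
    intro i u hu
    rw [hk4 i u hu (1, 0) rfl, hf3]
  have hgb : ∀ i, g' i (1, 0) = y := by
    intro i
    rw [← (hk2 i (1, 0) base_S2).2, hkb i 1 h1I]
  -- step (2)
  have hstep2 : ∀ i, ∃ h' : ℝ × R3 → S4, (∃ L : NNReal, LipschitzOnWith L h' (Icc (0 : ℝ) 1 ×ˢ S2)) ∧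
      (∀ m ∈ S2, h' (0, m) = g' i m ∧ h' (1, m) = b i m) ∧
      ∀ u ∈ Icc (0 : ℝ) 1, ∀ m ∈ S2, h' (u, m) ∉ A := by
    intro i
    set f : ℝ × R3 → S4 := fun z =>
      if z.1 ≤ 1 / 2 then k i (1 - 2 * z.1, z.2) else h i (2 * z.1 - 1, z.2) with hf
    have hfc : ContinuousOn f (Icc (0 : ℝ) 1 ×ˢ S2) :=
      glue (hk1 i) (hf1 i) fun x hx => (hk2 i x hx).1
    have hf0 : ∀ m ∈ S2, f (0, m) = g' i m := by
      intro m hm
      have e1 : f (0, m) = k i (1 - 2 * 0, m) := if_pos (by norm_num)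
      rw [e1, mul_zero, sub_zero, (hk2 i m hm).2]
    have hf1' : ∀ m ∈ S2, f (1, m) = b i m := by
      intro m hm
      have e1 : f (1, m) = h i (2 * 1 - 1, m) := if_neg (by norm_num)
      have e2 : (2 * 1 - 1 : ℝ) = 1 := by norm_num
      rw [e1, e2, hf2 i m hm]
    obtain ⟨L₀, hL₀⟩ := hg' i
    obtain ⟨L₁, hL₁⟩ := hb i
    have hfoff : ∀ z ∈ Icc (0 : ℝ) 1 ×ˢ S2, f z ∉ A := by
      rintro ⟨u, m⟩ ⟨⟨hu0, hu1⟩, hm⟩
      simp only at hu0 hu1 hm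
      by_cases hu : u ≤ 1 / 2
      · have e1 : f (u, m) = k i (1 - 2 * u, m) := if_pos hu
        rw [e1]
        exact hk3 i _ ⟨by linarith, by linarith⟩ m hm
      · have e1 : f (u, m) = h i (2 * u - 1, m) := if_neg hu
        rw [e1]
        rw [not_le] at hu
        exact hf4 i _ ⟨by linarith, by linarith⟩ m hm
    obtain ⟨g, H, hg1, hH1, hH2, hH3, hH4⟩ := hLIP (ℝ × R3) (Icc (0 : ℝ) 1 ×ˢ S2)
      (({0, 1} : Set ℝ) ×ˢ S2) A f (isCompact_Icc.prod isCompact_S2) (by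
        rintro ⟨u, m⟩ ⟨hu, hm⟩
        refine ⟨?_, hm⟩
        rcases hu with hu | hu
        · have e : u = 0 := hu
          show u ∈ Icc (0 : ℝ) 1
          rw [e]
          exact h0I
        · have e : u = 1 := hu
          show u ∈ Icc (0 : ℝ) 1
          rw [e]
          exact h1I) hA hfc
      (lip_slices (L₀ := L₀) (L₁ := L₁)
        (LipschitzOnWith.of_dist_le_mul fun x hx z hz => by
          simp only [hf0 x hx, hf0 z hz]
          exact hL₀.dist_le_mul x hx z hz)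
        (LipschitzOnWith.of_dist_le_mul fun x hx z hz => by
          simp only [hf1' x hx, hf1' z hz]
          exact hL₁.dist_le_mul x hx z hz)) hfoff
    refine ⟨g, hg1, ?_, ?_⟩
    · intro m hm
      have z0 : ((0, m) : ℝ × R3) ∈ Icc (0 : ℝ) 1 ×ˢ S2 := ⟨h0I, hm⟩
      have z1 : ((1, m) : ℝ × R3) ∈ Icc (0 : ℝ) 1 ×ˢ S2 := ⟨h1I, hm⟩
      constructor
      · rw [← (hH2 _ z0).2, hH4 1 h1I (0, m) ⟨Or.inl rfl, hm⟩, hf0 m hm]
      · rw [← (hH2 _ z1).2, hH4 1 h1I (1, m) ⟨Or.inr rfl, hm⟩, hf1' m hm]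
    · intro u hu m hm
      have z0 : ((u, m) : ℝ × R3) ∈ Icc (0 : ℝ) 1 ×ˢ S2 := ⟨hu, hm⟩
      rw [← (hH2 _ z0).2]
      exact hH3 1 h1I _ z0
  choose h' hh1 hh2 hh3 using hstep2
  -- step (3)
  set G : ℝ → Fin n → R3 → S4 := fun τ i m => k i (τ, m) with hG
  have hGb : ∀ τ ∈ Icc (0 : ℝ) 1, ∀ i, G τ i (1, 0) = y := fun τ hτ i => hkb i τ hτ
  set f : ℝ × ℝ × ℝ → S4 := fun z =>
    if z.1 ≤ 1 / 2 then evM y (G (1 - 2 * z.1)) l z.2.1 z.2.2 else N (2 * z.1 - 1, z.2) with hf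
  have hev : ∀ q s : ℝ, evM y (G 0) l q s = evM y (fun i m => h i (0, m)) l q s := fun q s =>
    evM_congr y _ _ (fun i m hm => (hk2 i m hm).1) l q s
  have hev1 : ∀ q s : ℝ, evM y (G 1) l q s = evM y g' l q s := fun q s =>
    evM_congr y _ _ (fun i m hm => (hk2 i m hm).2) l q s
  have hfc : ContinuousOn f box := by
    have h1 : ContinuousOn (fun z : ℝ × ℝ × ℝ => evM y (G z.1) l z.2.1 z.2.2)
        (Icc (0 : ℝ) 1 ×ˢ (Icc (0 : ℝ) 1 ×ˢ Icc (9 / 20 : ℝ) (11 / 20))) := by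
      refine (he3 ℝ S4 (Icc (0 : ℝ) 1) n y k l isClosed_Icc hk1 (fun i τ hτ => hkb i τ hτ)).mono ?_
      rintro ⟨u, q, s⟩ ⟨hu, hq, -⟩
      exact ⟨hu, hq, mem_univ _⟩
    refine glue (f := fun z : ℝ × ℝ × ℝ => evM y (G z.1) l z.2.1 z.2.2) (g := N) h1 hn1 ?_
    rintro ⟨q, s⟩ ⟨hq, hs⟩
    show evM y (G 0) l q s = N (0, q, s)
    rw [hev, (hn2 q hq s hs).1]
  have hfle : ∀ u q s : ℝ, u ≤ 1 / 2 → f (u, q, s) = evM y (G (1 - 2 * u)) l q s :=
    fun u q s hu => if_pos hu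
  have hfgt : ∀ u q s : ℝ, ¬ u ≤ 1 / 2 → f (u, q, s) = N (2 * u - 1, q, s) :=
    fun u q s hu => if_neg hu
  have hf0 : ∀ q s : ℝ, f (0, q, s) = evM y g' l q s := by
    intro q s
    rw [hfle 0 q s (by norm_num), mul_zero, sub_zero, hev1]
  have hf1' : ∀ q ∈ Icc (0 : ℝ) 1, ∀ s ∈ Icc (9 / 20 : ℝ) (11 / 20), f (1, q, s) = y := by
    intro q hq s hs
    have e2 : (2 * 1 - 1 : ℝ) = 1 := by norm_num
    rw [hfgt 1 q s (by norm_num), e2, (hn2 q hq s hs).2]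
  have hfb : ∀ u ∈ Icc (0 : ℝ) 1, ∀ q ∈ Icc (0 : ℝ) 1, ∀ s ∈ Icc (9 / 20 : ℝ) (11 / 20),
      f (u, q, s) ∉ A ∧ ((q = 0 ∨ q = 1 ∨ s = 9 / 20 ∨ s = 11 / 20) → f (u, q, s) = y) := by
    rintro u ⟨hu0, hu1⟩ q hq s hs
    by_cases hu : u ≤ 1 / 2
    · rw [hfle u q s hu]
      have hτ : 1 - 2 * u ∈ Icc (0 : ℝ) 1 := ⟨by linarith, by linarith⟩
      refine ⟨evM_off A y hy _ (fun i m hm => hk3 i _ hτ m hm) l q s, ?_⟩
      intro hqs
      apply he2 S4 n y _ l q s (hGb _ hτ)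
      rcases hqs with h1 | h1 | h1 | h1
      · exact Or.inl h1
      · exact Or.inr (Or.inl h1)
      · exact Or.inr (Or.inr (Or.inl h1.le))
      · exact Or.inr (Or.inr (Or.inr h1.ge))
    · rw [hfgt u q s hu]
      rw [not_le] at hu
      exact hn3 _ ⟨by linarith, by linarith⟩ q hq s hs
  -- the Lipschitz property on the boundary
  set P₀ : Set (ℝ × ℝ × ℝ) := {z | z ∈ box ∧ (z.1 = 0 ∨ z.1 = 1 ∨ z.2.1 = 0 ∨ z.2.1 = 1 ∨
    z.2.2 = 9 / 20 ∨ z.2.2 = 11 / 20)} with hP₀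
  obtain ⟨L₀, hL₀⟩ := he4 S4 n y g' l hg' hgb
  have hval : ∀ z ∈ P₀, z.1 ≠ 0 → f z = y := by
    rintro ⟨u, q, s⟩ ⟨⟨hu, hq, hs⟩, hz⟩ hu0
    rcases hz with h1 | h1 | h1
    · exact absurd h1 hu0
    · have e : u = 1 := h1
      rw [e]
      exact hf1' q hq s hs
    · exact (hfb u hu q hq s hs).2 h1
  have hside : ∀ q s q' s' : ℝ, (q, s) ∈ Icc (0 : ℝ) 1 ×ˢ Icc (9 / 20 : ℝ) (11 / 20) →
      (q', s') ∈ Icc (0 : ℝ) 1 ×ˢ Icc (9 / 20 : ℝ) (11 / 20) →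
      dist (f (0, q, s)) (f (0, q', s')) ≤ L₀ * dist ((q, s) : ℝ × ℝ) (q', s') := by
    intro q s q' s' h1 h2
    rw [hf0, hf0]
    exact hL₀.dist_le_mul (q, s) h1 (q', s') h2
  have hmix : ∀ z ∈ P₀, ∀ z' ∈ P₀, z.1 = 0 → z'.1 ≠ 0 →
      dist (f z) (f z') ≤ (max L₀ 2 : NNReal) * dist z z' := by
    rintro ⟨u, q, s⟩ ⟨⟨hu, hq, hs⟩, hz⟩ ⟨u', q', s'⟩ ⟨⟨hu', hq', hs'⟩, hz'⟩ hu0 hu0'
    have e : u = 0 := hu0
    have hfz' : f (u', q', s') = y := hval _ ⟨⟨hu', hq', hs'⟩, hz'⟩ hu0'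
    have hL0 : (L₀ : ℝ) ≤ ((max L₀ 2 : NNReal) : ℝ) := NNReal.coe_le_coe.2 (le_max_left _ _)
    have hL2 : (2 : ℝ) ≤ ((max L₀ 2 : NNReal) : ℝ) := NNReal.coe_le_coe.2 (le_max_right L₀ 2)
    have hsnd : dist ((q, s) : ℝ × ℝ) (q', s') ≤ dist ((u, q, s) : ℝ × ℝ × ℝ) (u', q', s') :=
      le_max_right _ _
    have hfst : dist u u' ≤ dist ((u, q, s) : ℝ × ℝ × ℝ) (u', q', s') := le_max_left _ _
    rcases hz' with h1 | h1 | h1
    · exact absurd h1 hu0'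
    · have e' : u' = 1 := h1
      have : (1 : ℝ) ≤ dist ((u, q, s) : ℝ × ℝ × ℝ) (u', q', s') := by
        refine le_trans ?_ hfst
        rw [e, e', Real.dist_eq]
        norm_num
      calc dist (f (u, q, s)) (f (u', q', s')) ≤ 2 * 1 := by
            linarith [dist_S4 (f (u, q, s)) (f (u', q', s'))]
        _ ≤ _ := mul_le_mul hL2 this (by norm_num) (by positivity)
    · have hp : f (0, q', s') = y := (hfb 0 h0I q' hq' s' hs').2 h1
      rw [hfz', ← hp]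
      subst e
      calc dist (f (0, q, s)) (f (0, q', s')) ≤ L₀ * dist ((q, s) : ℝ × ℝ) (q', s') :=
            hside q s q' s' ⟨hq, hs⟩ ⟨hq', hs'⟩
        _ ≤ _ := mul_le_mul hL0 hsnd dist_nonneg (by positivity)
  have hlip : ∃ L : NNReal, LipschitzOnWith L f P₀ := by
    refine ⟨max L₀ 2, LipschitzOnWith.of_dist_le_mul ?_⟩
    intro z hz z' hz'
    by_cases h1 : z.1 = 0
    · by_cases h2 : z'.1 = 0
      · obtain ⟨u, q, s⟩ := z
        obtain ⟨u', q', s'⟩ := z'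
        have e1 : u = 0 := h1
        have e2 : u' = 0 := h2
        subst e1
        subst e2
        have hL0 : (L₀ : ℝ) ≤ ((max L₀ 2 : NNReal) : ℝ) := NNReal.coe_le_coe.2 (le_max_left _ _)
        have hsnd : dist ((q, s) : ℝ × ℝ) (q', s') ≤ dist ((0, q, s) : ℝ × ℝ × ℝ) (0, q', s') :=
          le_max_right _ _
        calc dist (f (0, q, s)) (f (0, q', s')) ≤ L₀ * dist ((q, s) : ℝ × ℝ) (q', s') :=
              hside q s q' s' ⟨hz.1.2.1, hz.1.2.2⟩ ⟨hz'.1.2.1, hz'.1.2.2⟩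
          _ ≤ _ := mul_le_mul hL0 hsnd dist_nonneg (by positivity)
      · exact hmix z hz z' hz' h1 h2
    · by_cases h2 : z'.1 = 0
      · rw [dist_comm, dist_comm z z']
        exact hmix z' hz' z hz h2 h1
      · rw [hval z hz h1, hval z' hz' h2, dist_self]
        positivity
  have hboxc : IsCompact box := isCompact_Icc.prod (isCompact_Icc.prod isCompact_Icc)
  obtain ⟨N', H, hN1, hH1, hH2, hH3, hH4⟩ := hLIP (ℝ × ℝ × ℝ) box P₀ A f hboxc (fun z hz => hz.1) hA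
    hfc hlip (by
      rintro ⟨u, q, s⟩ ⟨hu, hq, hs⟩
      exact (hfb u hu q hq s hs).1)
  have hNP : ∀ z ∈ P₀, N' z = f z := by
    intro z hz
    rw [← (hH2 z hz.1).2, hH4 1 h1I z hz]
  refine ⟨h', N', ⟨?_, ?_, ?_, ?_⟩, ⟨?_, ?_, ?_⟩, ?_, ?_⟩
  · intro i
    obtain ⟨L, hL⟩ := hh1 i
    exact hL.continuousOn
  · intro i m hm
    exact (hh2 i m hm).2
  · intro i
    rw [(hh2 i (1, 0) base_S2).1, hgb]
  · exact fun i u hu m hm => hh3 i u hu m hm
  · obtain ⟨L, hL⟩ := hN1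
    exact hL.continuousOn
  · intro q hq s hs
    constructor
    · rw [hNP (0, q, s) ⟨⟨h0I, hq, hs⟩, Or.inl rfl⟩, hf0]
      exact evM_congr y _ _ (fun i m hm => ((hh2 i m hm).1).symm) l q s
    · rw [hNP (1, q, s) ⟨⟨h1I, hq, hs⟩, Or.inr (Or.inl rfl)⟩]
      exact hf1' q hq s hs
  · intro u hu q hq s hs
    constructor
    · have hz : ((u, q, s) : ℝ × ℝ × ℝ) ∈ box := ⟨hu, hq, hs⟩
      rw [← (hH2 _ hz).2]
      exact hH3 1 h1I _ hz
    · intro hqs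
      rw [hNP (u, q, s) ⟨⟨hu, hq, hs⟩, Or.inr (Or.inr hqs)⟩]
      exact (hfb u hu q hq s hs).2 hqs
  · intro i
    obtain ⟨L, hL⟩ := hh1 i
    set C : Set (ℝ × ℝ × ℝ) := Icc (0 : ℝ) 1 ×ˢ (Icc (0 : ℝ) 1 ×ˢ Icc (0 : ℝ) 1) with hC
    have hCc : IsCompact C := isCompact_Icc.prod (isCompact_Icc.prod isCompact_Icc)
    have hψ : LipschitzOnWith (max 1 Lq) (fun z : ℝ × ℝ × ℝ => ((z.1, mq z.2.1 z.2.2) : ℝ × R3)) C := by
      refine LipschitzOnWith.of_dist_le_mul ?_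
      rintro ⟨u, p, q⟩ ⟨hu, hp⟩ ⟨u', p', q'⟩ ⟨hu', hp'⟩
      have h1 : ((1 : NNReal) : ℝ) ≤ ((max 1 Lq : NNReal) : ℝ) := NNReal.coe_le_coe.2 (le_max_left 1 Lq)
      have h2 : (Lq : ℝ) ≤ ((max 1 Lq : NNReal) : ℝ) := NNReal.coe_le_coe.2 (le_max_right 1 Lq)
      refine max_le ?_ ?_
      · calc dist u u' ≤ ((1 : NNReal) : ℝ) * dist ((u, p, q) : ℝ × ℝ × ℝ) (u', p', q') := by
              rw [NNReal.coe_one, one_mul]
              exact le_max_left _ _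
          _ ≤ _ := mul_le_mul_of_nonneg_right h1 dist_nonneg
      · calc dist (mq p q) (mq p' q') ≤ Lq * dist ((p, q) : ℝ × ℝ) (p', q') :=
              hq5.dist_le_mul (p, q) hp (p', q') hp'
          _ ≤ _ := mul_le_mul h2 (le_max_right _ _) dist_nonneg (by positivity)
    have hmap : MapsTo (fun z : ℝ × ℝ × ℝ => ((z.1, mq z.2.1 z.2.2) : ℝ × R3)) C (Icc (0 : ℝ) 1 ×ˢ S2) := by
      rintro ⟨u, p, q⟩ ⟨hu, -⟩
      exact ⟨hu, hqS p q⟩
    have h3 := hDIM (fun z : ℝ × ℝ × ℝ => h' i (z.1, mq z.2.1 z.2.2)) C hCc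
      ⟨L * max 1 Lq, hL.comp hψ hmap⟩
    refine Set.eq_empty_of_subset_empty ?_
    rw [← h3.2]
    refine interior_mono ?_
    rintro _ ⟨⟨u, m⟩, ⟨hu, hm⟩, rfl⟩
    obtain ⟨p, hp, q, hq, hpq⟩ := hq4 m hm
    refine ⟨(u, p, q), ⟨hu, hp, hq⟩, ?_⟩
    show h' i (u, mq p q) = h' i (u, m)
    rw [hpq]
  · exact (hDIM N' box hboxc hN1).2

end Pool.Agent.Helper18.BI.R


end

/-! ## Helper18.BI.R.M_EXC -/

section

/-!
# Project BI, stage 4 (R), module EXC: every barbell with the given fixed cuff has a class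
-/

set_option autoImplicit false

open scoped Manifold ContDiff Topology ComplexConjugate unitInterval
open Set Pool.Agent.Helper65.Barb Pool.Agent.Helper18.BI
open Pool.Agent.Helper70.BI.Fin2 (SP_sub_NB)
open Pool.Agent.Helper70.Fin (Emb coreSphere)
open Pool.Agent.Helper18.FinR (sqr Pi2 cls FreeClass SameFixed UpTo)
open Pool.Agent.Helper18.BI.H (bar bar_mem_SP continuous_bar bar_not_sph1)

namespace Pool.Agent.Helper18.BI.R

namespace EXC

theorem sqr_eq (t : Fin 2 → unitInterval) : sqr t = mq (t 0) (t 1) := rfl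

theorem continuous_sqr : Continuous sqr := by
  have h0 : Continuous fun t : Fin 2 → unitInterval => ((t 0 : unitInterval) : ℝ) :=
    continuous_subtype_val.comp (continuous_apply 0)
  have h1 : Continuous fun t : Fin 2 → unitInterval => ((t 1 : unitInterval) : ℝ) :=
    continuous_subtype_val.comp (continuous_apply 1)
  have s0 := Real.continuous_sin.comp (continuous_const.mul h0 (f := fun _ => Real.pi))
  have s1 := Real.continuous_sin.comp (continuous_const.mul h1 (f := fun _ => Real.pi))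
  have c0 := Real.continuous_cos.comp (continuous_const.mul h0 (f := fun _ => Real.pi))
  have c1 := Real.continuous_cos.comp (continuous_const.mul h1 (f := fun _ => Real.pi))
  unfold sqr
  refine Continuous.prodMk ?_ ?_
  · exact continuous_const.sub ((continuous_const.mul (s0.pow 2)).mul (s1.pow 2))
  · refine Complex.equivRealProdCLM.symm.continuous.comp (Continuous.prodMk ?_ ?_)
    · exact (((continuous_const.mul s0).mul s1).mul c1).neg
    · exact ((continuous_const.mul s0).mul c0).mul (s1.pow 2)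

theorem sph0_not_sph1 {p : R4} (h0 : p ∈ sph 0) : p ∉ sph 1 := by
  rintro ⟨-, h1⟩
  have h0' : (p.2.1 - 0) ^ 2 + p.2.2.re ^ 2 + p.2.2.im ^ 2 = 1 / 25 := h0.2
  have h1' : (p.2.1 - 1) ^ 2 + p.2.2.re ^ 2 + p.2.2.im ^ 2 = 1 / 25 := h1
  have h2 : p.2.1 = 1 / 2 := by nlinarith
  rw [h2] at h0'
  nlinarith [sq_nonneg p.2.2.re, sq_nonneg p.2.2.im]

theorem scaled {p : R4} (hp : p ∈ sph 0) :
    (5 : ℝ) • p.2 ∈ S2 ∧ ((1 / 2, (1 / 5 : ℝ) • ((5 : ℝ) • p.2)) : R4) = p := by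
  have h0' : (p.2.1 - 0) ^ 2 + p.2.2.re ^ 2 + p.2.2.im ^ 2 = 1 / 25 := hp.2
  constructor
  · show ((5 : ℝ) • p.2).1 ^ 2 + ((5 : ℝ) • p.2).2.re ^ 2 + ((5 : ℝ) • p.2).2.im ^ 2 = 1
    simp only [Prod.smul_fst, Prod.smul_snd, Complex.smul_re, Complex.smul_im, smul_eq_mul]
    nlinarith
  · rw [smul_smul]
    norm_num
    exact Prod.ext hp.1.symm rfl

end EXC

open EXC in
theorem m_EXC (hHEP : StHEP) (hMQ : StMQ) : StEXC := by
  intro B B' A y₀ hB hB' hsf hA hy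
  obtain ⟨U, hUo, hsU, hE⟩ := hsf
  rw [RELS.coreSphere_eq] at hsU hA
  obtain ⟨-, hmqS, hmq1, -, -⟩ := hMQ
  have hA' : A = B' '' sph 1 := by
    rw [hA]
    exact image_congr fun p hp => hE (hsU hp)
  have iB : ∀ p ∈ SP, p ∉ sph 1 → B p ∉ A := by
    rintro p hp h1 hm
    rw [hA] at hm
    obtain ⟨q, hq, he⟩ := hm
    have := B.toPartialEquiv.injOn (hB (SP_sub_NB (RELS.sph1_sub hq))) (hB (SP_sub_NB hp)) he
    exact h1 (this ▸ hq)
  have iB' : ∀ p ∈ SP, p ∉ sph 1 → B' p ∉ A := by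
    rintro p hp h1 hm
    rw [hA'] at hm
    obtain ⟨q, hq, he⟩ := hm
    have := B'.toPartialEquiv.injOn (hB' (SP_sub_NB (RELS.sph1_sub hq))) (hB' (SP_sub_NB hp)) he
    exact h1 (this ▸ hq)
  have cB : ContinuousOn B SP :=
    B.contMDiffOn_toFun.continuousOn.mono (SP_sub_NB.trans hB)
  have cB' : ContinuousOn B' SP :=
    B'.contMDiffOn_toFun.continuousOn.mono (SP_sub_NB.trans hB')
  -- a common point of the two bars
  have hpt : bar (4 / 5) ∈ sph 1 := by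
    refine ⟨rfl, ?_⟩
    show (4 / 5 - 1 : ℝ) ^ 2 + (0 : ℂ).re ^ 2 + (0 : ℂ).im ^ 2 = 1 / 25
    norm_num
  obtain ⟨δ, hδ0, hδ1, hδ⟩ : ∃ δ : ℝ, 0 < δ ∧ δ < 1 / 10 ∧ bar (4 / 5 - δ) ∈ U := by
    have hc : Filter.Tendsto (fun δ : ℝ => bar (4 / 5 - δ)) (𝓝 0) (𝓝 (bar (4 / 5))) := by
      have hb : Continuous fun δ : ℝ => bar (4 / 5 - δ) := continuous_bar.comp (by fun_prop)
      have h := hb.tendsto 0
      rw [sub_zero] at h
      exact h
    have h1 : ∀ᶠ δ in 𝓝 (0 : ℝ), bar (4 / 5 - δ) ∈ U :=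
      hc.eventually (hUo.mem_nhds (hsU hpt))
    obtain ⟨r, hr, hr1⟩ := Metric.eventually_nhds_iff.1 h1
    refine ⟨min (r / 2) (1 / 20), lt_min (by positivity) (by norm_num),
      (min_le_right _ _).trans_lt (by norm_num), hr1 ?_⟩
    rw [Real.dist_eq, sub_zero, abs_of_pos (lt_min (by positivity) (by norm_num))]
    exact (min_le_left _ _).trans_lt (by linarith)
  have hEδ : B (bar (4 / 5 - δ)) = B' (bar (4 / 5 - δ)) := hE hδ
  let ζ : ℝ → S4 := fun τ => if τ ≤ 1 / 2 then B' (bar (1 / 5 + 2 * τ * (3 / 5 - δ)))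
    else B (bar (4 / 5 - δ - (2 * τ - 1) * (3 / 10 - δ)))
  have ζa : ∀ τ, τ ≤ 1 / 2 → ζ τ = B' (bar (1 / 5 + 2 * τ * (3 / 5 - δ))) :=
    fun τ h => if_pos h
  have ζb : ∀ τ, 1 / 2 ≤ τ → ζ τ = B (bar (4 / 5 - δ - (2 * τ - 1) * (3 / 10 - δ))) := by
    intro τ h
    by_cases h2 : τ ≤ 1 / 2
    · have h3 : τ = 1 / 2 := le_antisymm h2 h
      rw [ζa τ h2, h3]
      have e1 : (1 / 5 + 2 * (1 / 2) * (3 / 5 - δ) : ℝ) = 4 / 5 - δ := by ring
      have e2 : (4 / 5 - δ - (2 * (1 / 2) - 1) * (3 / 10 - δ) : ℝ) = 4 / 5 - δ := by ring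
      rw [e1, e2, hEδ]
    · exact if_neg h2
  have ra : ∀ τ ∈ Icc (0 : ℝ) (1 / 2), 1 / 5 ≤ 1 / 5 + 2 * τ * (3 / 5 - δ) ∧
      1 / 5 + 2 * τ * (3 / 5 - δ) ≤ 4 / 5 - δ := by
    rintro τ ⟨h1, h2⟩
    constructor <;> nlinarith
  have rb : ∀ τ ∈ Icc (1 / 2 : ℝ) 1, 1 / 2 ≤ 4 / 5 - δ - (2 * τ - 1) * (3 / 10 - δ) ∧
      4 / 5 - δ - (2 * τ - 1) * (3 / 10 - δ) ≤ 4 / 5 - δ := by
    rintro τ ⟨h1, h2⟩
    constructor <;> nlinarith
  have cζ : ContinuousOn ζ (Icc (0 : ℝ) 1) := by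
    rw [← Icc_union_Icc_eq_Icc (b := (1 / 2 : ℝ)) (by norm_num) (by norm_num)]
    refine ContinuousOn.union_of_isClosed ?_ ?_ isClosed_Icc isClosed_Icc
    · refine ContinuousOn.congr (f := fun τ => B' (bar (1 / 5 + 2 * τ * (3 / 5 - δ)))) ?_
        fun τ h => ζa τ h.2
      refine cB'.comp (continuous_bar.comp (by fun_prop)).continuousOn fun τ h => ?_
      exact bar_mem_SP (ra τ h).1 (by linarith [(ra τ h).2])
    · refine ContinuousOn.congr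
        (f := fun τ => B (bar (4 / 5 - δ - (2 * τ - 1) * (3 / 10 - δ)))) ?_ fun τ h => ζb τ h.1
      refine cB.comp (continuous_bar.comp (by fun_prop)).continuousOn fun τ h => ?_
      exact bar_mem_SP (by linarith [(rb τ h).1]) (by linarith [(rb τ h).2])
  have offζ : ∀ τ ∈ Icc (0 : ℝ) 1, ζ τ ∉ A := by
    rintro τ ⟨h1, h2⟩
    rcases le_total τ (1 / 2) with h | h
    · rw [ζa τ h]
      have := ra τ ⟨h1, h⟩
      exact iB' _ (bar_mem_SP this.1 (by linarith)) (bar_not_sph1 (by linarith))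
    · rw [ζb τ h]
      have := rb τ ⟨h, h2⟩
      exact iB _ (bar_mem_SP (by linarith) (by linarith)) (bar_not_sph1 (by linarith))
  -- the sphere
  have cS : ContinuousOn (fun m : R3 => B' (1 / 2, (1 / 5 : ℝ) • m)) S2 := by
    refine cB'.comp (Continuous.continuousOn (by fun_prop)) fun m hm => ?_
    exact RELS.sph0_sub (cuff_mem hm)
  obtain ⟨h₀, ch, h1, h2, hoff⟩ := hHEP S4 A (fun m => B' (1 / 2, (1 / 5 : ℝ) • m)) ζ cS cζ
    (by
      rw [ζa 0 (by norm_num)]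
      show B' (1 / 2, (1 / 5 + 2 * 0 * (3 / 5 - δ), 0)) =
        B' (1 / 2, ((1 / 5 : ℝ) • (1 : ℝ), (1 / 5 : ℝ) • (0 : ℂ)))
      rw [smul_zero, smul_eq_mul]
      norm_num)
    (fun m hm => iB' _ (RELS.sph0_sub (cuff_mem hm)) (sph0_not_sph1 (cuff_mem hm))) offζ
  have hy1 : ζ 1 = y₀ := by
    rw [ζb 1 (by norm_num), hy]
    have e1 : (4 / 5 - δ - (2 * 1 - 1) * (3 / 10 - δ) : ℝ) = 1 / 2 := by ring
    rw [e1]
    rfl
  have hm0 : ∀ t, sqr t ∈ S2 := fun t => hmqS _ _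
  have h00 : (0 : ℝ) ∈ Icc (0 : ℝ) 1 := ⟨le_rfl, zero_le_one⟩
  have cf : Continuous fun t : Fin 2 → unitInterval => h₀ (0, sqr t) :=
    ch.comp_continuous (continuous_const.prodMk continuous_sqr) fun t => ⟨h00, hm0 t⟩
  let f : GenLoop (Fin 2) {x : S4 // x ∉ A} y₀ :=
    ⟨⟨fun t => ⟨h₀ (0, sqr t), hoff 0 h00 _ (hm0 t)⟩, cf.subtype_mk _⟩, by
      rintro t ⟨i, hi⟩
      apply Subtype.ext
      show h₀ (0, sqr t) = y₀
      have hb : sqr t = (1, 0) := by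
        rw [sqr_eq]
        apply hmq1
        have hi' : ((t i : unitInterval) : ℝ) = 0 ∨ ((t i : unitInterval) : ℝ) = 1 := by
          rcases hi with h | h
          · left
            rw [h]
            rfl
          · right
            rw [h]
            rfl
        fin_cases i
        · rcases hi' with h | h
          · exact Or.inl h
          · exact Or.inr (Or.inl h)
        · rcases hi' with h | h
          · exact Or.inr (Or.inr (Or.inl h))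
          · exact Or.inr (Or.inr (Or.inr h))
      rw [hb, h2, hy1]⟩
  refine ⟨cls f, f, fun x => h₀ (x.1, (5 : ℝ) • x.2.2), rfl, ?_, ?_, ?_, ?_⟩
  · rw [RELS.coreSphere_eq]
    refine ch.comp (Continuous.continuousOn (by fun_prop)) ?_
    rintro ⟨u, p⟩ hz
    exact ⟨hz.1, (scaled hz.2).1⟩
  · intro t
    show h₀ (0, (5 : ℝ) • ((1 / 5 : ℝ) • sqr t)) = h₀ (0, sqr t)
    rw [smul_smul]
    norm_num
  · intro p hp
    rw [RELS.coreSphere_eq] at hp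
    show h₀ (1, (5 : ℝ) • p.2) = B' p
    rw [h1 _ (scaled hp).1]
    show B' (1 / 2, (1 / 5 : ℝ) • ((5 : ℝ) • p.2)) = B' p
    rw [(scaled hp).2]
  · intro u hu p hp
    rw [RELS.coreSphere_eq] at hp
    exact hoff u hu _ (scaled hp).1

end Pool.Agent.Helper18.BI.R


end
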