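import Pool.Agent.Helper65.Barb.Defs
import Pool.Agent.Helper70.BI.B.P27

/-!
# Project BI (MP_8e98f2_gt): collected modules, part 50

The contents of the modules
* Helper34.BI.R.M_LIP

in one file, so that the whole proof builds in a short time.
-/

/-! ## Helper34.BI.R.M_LIP -/

section

/-!
# Project BI, stage 4 (R), modules LIP and DIM: Lipschitz approximation in the 4-sphere
-/

set_option autoImplicit false

open scoped Manifold ContDiff Topology ComplexConjugate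
open Set Filter Module Pool.Agent.Helper65.Barb Pool.Agent.Helper18.BI Pool.Agent.Helper18.BI.R

namespace Pool.Agent.Helper34.BI.R

namespace Lip

/-- five-space -/
abbrev E5 : Type := EuclideanSpace ℝ (Fin 5)

section
variable {X : Type} [MetricSpace X]

/-- Lipschitz approximation of a real function on a compact set -/
theorem real_approx {P : Set X} (hP : IsCompact P) {φ : X → ℝ} (hφ : ContinuousOn φ P) {ρ : ℝ}
    (hρ : 0 < ρ) : ∃ (e : X → ℝ) (k : ℝ), 0 ≤ k ∧ (∀ x y, |e x - e y| ≤ k * dist x y) ∧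
      ∀ x ∈ P, |e x - φ x| ≤ ρ := by
  rcases P.eq_empty_or_nonempty with rfl | hne
  · exact ⟨fun _ => 0, 0, le_rfl, fun x y => by simp, fun x hx => absurd hx (notMem_empty x)⟩
  obtain ⟨M, hM⟩ := hP.exists_bound_of_continuousOn hφ
  have hM' : ∀ x ∈ P, |φ x| ≤ M := hM
  have hM0 : 0 ≤ M := by
    obtain ⟨x, hx⟩ := hne
    exact (abs_nonneg _).trans (hM' x hx)
  have hu := hP.uniformContinuousOn_of_continuous hφ
  rw [Metric.uniformContinuousOn_iff] at hu
  obtain ⟨δ, hδ, hu⟩ := hu ρ hρ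
  let k : ℝ := 2 * M / δ
  have hk : 0 ≤ k := div_nonneg (by linarith) hδ.le
  have hmin : ∀ x : X, ∃ y ∈ P, ∀ z ∈ P, φ y + k * dist x y ≤ φ z + k * dist x z := by
    intro x
    have hc : ContinuousOn (fun y => φ y + k * dist x y) P :=
      hφ.add (continuous_const.mul (continuous_const.dist continuous_id)).continuousOn
    obtain ⟨y, hy, hy'⟩ := hP.exists_isMinOn hne hc
    exact ⟨y, hy, fun z hz => hy' hz⟩
  choose m hmP hm using hmin
  have h1 : ∀ x y, φ (m x) + k * dist x (m x) ≤ φ (m y) + k * dist y (m y) + k * dist x y := by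
    intro x y
    have h2 := hm x (m y) (hmP y)
    have h3 : k * dist x (m y) ≤ k * (dist x y + dist y (m y)) :=
      mul_le_mul_of_nonneg_left (dist_triangle _ _ _) hk
    linarith
  refine ⟨fun x => φ (m x) + k * dist x (m x), k, hk, fun x y => ?_, fun x hx => ?_⟩
  · rw [abs_le]
    have h2 := h1 x y
    have h3 := h1 y x
    rw [dist_comm y x] at h3
    constructor <;> linarith
  · have h2 := hm x x hx
    rw [dist_self, mul_zero, add_zero] at h2
    rw [abs_le]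
    refine ⟨?_, by linarith⟩
    have h0 : 0 ≤ k * dist x (m x) := mul_nonneg hk dist_nonneg
    rcases lt_or_ge (dist x (m x)) δ with h3 | h3
    · have h4 := hu x hx (m x) (hmP x) h3
      rw [Real.dist_eq, abs_lt] at h4
      linarith [h4.2]
    · have h4 : 2 * M ≤ k * dist x (m x) := by
        calc 2 * M = k * δ := by
              show 2 * M = 2 * M / δ * δ
              field_simp
          _ ≤ k * dist x (m x) := mul_le_mul_of_nonneg_left h3 hk
      have h5 := abs_le.1 (hM' x hx)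
      have h6 := abs_le.1 (hM' _ (hmP x))
      linarith [h5.2, h6.1]

/-- relative version -/
theorem real_rel {P P₀ : Set X} (hP : IsCompact P) (hP₀ : P₀ ⊆ P) {φ : X → ℝ}
    (hφ : ContinuousOn φ P) {L : NNReal} (hL : LipschitzOnWith L φ P₀) {ρ : ℝ} (hρ : 0 < ρ) :
    ∃ (e : X → ℝ) (k : ℝ), 0 ≤ k ∧ (∀ x y, |e x - e y| ≤ k * dist x y) ∧
      (∀ x ∈ P, |e x - φ x| ≤ ρ) ∧ ∀ x ∈ P₀, e x = φ x := by
  obtain ⟨g, hg, hgφ⟩ := hL.extend_real
  obtain ⟨e, k, hk, he, hea⟩ := real_approx hP (hφ.sub hg.continuous.continuousOn)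
    (half_pos hρ)
  -- soft truncation
  let τ : ℝ → ℝ := fun x => x - max (-(ρ / 2)) (min (ρ / 2) x)
  have hτ : ∀ x y, |τ x - τ y| ≤ |x - y| := by
    intro x y
    show |x - max (-(ρ / 2)) (min (ρ / 2) x) - (y - max (-(ρ / 2)) (min (ρ / 2) y))| ≤ |x - y|
    rcases le_total x y with hxy | hxy
    all_goals
      rcases le_total (ρ / 2) x with h1 | h1 <;> rcases le_total (ρ / 2) y with h2 | h2
      all_goals first | rw [min_eq_left h1] | rw [min_eq_right h1]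
      all_goals first | rw [min_eq_left h2] | rw [min_eq_right h2]
      all_goals rcases abs_cases (x - y) with ⟨h3, h4⟩ | ⟨h3, h4⟩
      all_goals rw [h3, abs_le]
      all_goals
        rcases max_cases (-(ρ / 2)) (ρ / 2) with ⟨h5, h6⟩ | ⟨h5, h6⟩
        <;> rcases max_cases (-(ρ / 2)) x with ⟨h7, h8⟩ | ⟨h7, h8⟩
        <;> rcases max_cases (-(ρ / 2)) y with ⟨h9, h10⟩ | ⟨h9, h10⟩
        <;> (constructor <;> linarith)
  have hτa : ∀ x, |τ x - x| ≤ ρ / 2 := by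
    intro x
    show |x - max (-(ρ / 2)) (min (ρ / 2) x) - x| ≤ ρ / 2
    rw [abs_le]
    have h1 : -(ρ / 2) ≤ max (-(ρ / 2)) (min (ρ / 2) x) := le_max_left _ _
    have h2 : max (-(ρ / 2)) (min (ρ / 2) x) ≤ ρ / 2 := max_le (by linarith) (min_le_left _ _)
    constructor <;> linarith
  have hτ0 : ∀ x, |x| ≤ ρ / 2 → τ x = 0 := by
    intro x hx
    show x - max (-(ρ / 2)) (min (ρ / 2) x) = 0
    have := abs_le.1 hx
    rw [min_eq_right this.2, max_eq_right this.1, sub_self]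
  refine ⟨fun x => g x + τ (e x), L + k, by positivity, fun x y => ?_, fun x hx => ?_, fun x hx => ?_⟩
  · have h1 : |g x - g y| ≤ L * dist x y := by
      have := hg.dist_le_mul x y
      rwa [Real.dist_eq] at this
    have h2 := (hτ (e x) (e y)).trans (he x y)
    calc |g x + τ (e x) - (g y + τ (e y))| = |(g x - g y) + (τ (e x) - τ (e y))| := by
          congr 1
          ring
      _ ≤ |g x - g y| + |τ (e x) - τ (e y)| := abs_add_le _ _
      _ ≤ (L + k) * dist x y := by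
          rw [add_mul]
          linarith
  · have h1 := hea x hx
    simp only [Pi.sub_apply] at h1
    calc |g x + τ (e x) - φ x| = |(τ (e x) - e x) + (e x - (φ x - g x))| := by
          congr 1
          ring
      _ ≤ |τ (e x) - e x| + |e x - (φ x - g x)| := abs_add_le _ _
      _ ≤ ρ := by linarith [hτa (e x)]
  · have h1 := hea x (hP₀ hx)
    simp only [Pi.sub_apply] at h1
    rw [hgφ hx, sub_self, sub_zero] at h1
    show g x + τ (e x) = φ x
    rw [hτ0 _ h1, add_zero, hgφ hx]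

theorem norm_le_sum (w : E5) : ‖w‖ ≤ ∑ i, |w i| := by
  rw [EuclideanSpace.norm_eq]
  have h1 : ∑ i, ‖w i‖ ^ 2 ≤ (∑ i, ‖w i‖) ^ 2 :=
    Finset.sum_sq_le_sq_sum_of_nonneg fun i _ => norm_nonneg _
  have h2 := Real.sqrt_le_sqrt h1
  rwa [Real.sqrt_sq (Finset.sum_nonneg fun i _ => norm_nonneg _)] at h2

/-- version for maps to five-space -/
theorem vec_rel {P P₀ : Set X} (hP : IsCompact P) (hP₀ : P₀ ⊆ P) {φ : X → E5}
    (hφ : ContinuousOn φ P) {L : NNReal} (hL : LipschitzOnWith L φ P₀) {ρ : ℝ} (hρ : 0 < ρ) :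
    ∃ (e : X → E5) (k : ℝ), 0 ≤ k ∧ (∀ x y, ‖e x - e y‖ ≤ k * dist x y) ∧
      (∀ x ∈ P, ‖e x - φ x‖ ≤ ρ) ∧ ∀ x ∈ P₀, e x = φ x := by
  have h1 : ∀ i : Fin 5, ContinuousOn (fun x => φ x i) P := fun i =>
    (EuclideanSpace.proj i).continuous.comp_continuousOn hφ
  have h2 : ∀ i : Fin 5, LipschitzOnWith L (fun x => φ x i) P₀ := by
    intro i
    refine LipschitzOnWith.of_dist_le_mul fun x hx y hy => ?_
    rw [Real.dist_eq]
    have h3 := hL.dist_le_mul x hx y hy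
    rw [dist_eq_norm] at h3
    exact (PiLp.norm_apply_le (φ x - φ y) i).trans h3
  have h3 : ∀ i : Fin 5, ∃ (e : X → ℝ) (k : ℝ), 0 ≤ k ∧ (∀ x y, |e x - e y| ≤ k * dist x y) ∧
      (∀ x ∈ P, |e x - φ x i| ≤ ρ / 5) ∧ ∀ x ∈ P₀, e x = φ x i := fun i =>
    real_rel hP hP₀ (h1 i) (h2 i) (by positivity)
  choose e k hk he hea he0 using h3
  refine ⟨fun x => WithLp.toLp 2 fun i => e i x, ∑ i, k i, Finset.sum_nonneg fun i _ => hk i,
    fun x y => ?_, fun x hx => ?_, fun x hx => ?_⟩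
  · refine (norm_le_sum _).trans ?_
    rw [Finset.sum_mul]
    exact Finset.sum_le_sum fun i _ => he i x y
  · refine (norm_le_sum _).trans ?_
    calc ∑ i, |(WithLp.toLp 2 (fun i => e i x) - φ x : E5) i| ≤ ∑ _i : Fin 5, ρ / 5 :=
          Finset.sum_le_sum fun i _ => hea i x hx
      _ = ρ := by
          simp
          ring
  · ext i
    exact he0 i x hx

theorem norm_normalize_sub {x y : E5} (hx : x ≠ 0) (hy : y ≠ 0) :
    ‖‖x‖⁻¹ • x - ‖y‖⁻¹ • y‖ ≤ 2 * ‖x‖⁻¹ * ‖x - y‖ := by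
  have hx' : 0 < ‖x‖ := norm_pos_iff.2 hx
  have hy' : 0 < ‖y‖ := norm_pos_iff.2 hy
  have e : ‖x‖⁻¹ • x - ‖y‖⁻¹ • y = ‖x‖⁻¹ • (x - y) + (‖x‖⁻¹ - ‖y‖⁻¹) • y := by
    rw [smul_sub, sub_smul]
    abel
  rw [e]
  refine (norm_add_le _ _).trans ?_
  rw [norm_smul, norm_smul, norm_inv, norm_norm, Real.norm_eq_abs]
  have h1 : |‖x‖⁻¹ - ‖y‖⁻¹| * ‖y‖ = ‖x‖⁻¹ * |‖y‖ - ‖x‖| := by
    have h2 : ‖x‖⁻¹ - ‖y‖⁻¹ = ‖x‖⁻¹ * ((‖y‖ - ‖x‖) * ‖y‖⁻¹) := by
      field_simp
    rw [h2, abs_mul, abs_mul, abs_of_pos (inv_pos.2 hx'), abs_of_pos (inv_pos.2 hy')]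
    field_simp
  rw [h1]
  have h3 : |‖y‖ - ‖x‖| ≤ ‖x - y‖ := by
    rw [norm_sub_rev]
    exact abs_norm_sub_norm_le y x
  have h4 : ‖x‖⁻¹ * |‖y‖ - ‖x‖| ≤ ‖x‖⁻¹ * ‖x - y‖ :=
    mul_le_mul_of_nonneg_left h3 (inv_nonneg.2 hx'.le)
  linarith

end

end Lip

open Lip

theorem m_LIP : StLIP := by
  intro X _ P P₀ K f hP hP₀ hK hf ⟨L, hL⟩ hoff
  let ι : S4 → E5 := fun y => y.1
  have hι : Continuous ι := continuous_subtype_val
  have hιn : ∀ y : S4, ‖ι y‖ = 1 := fun y => by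
    have := y.2
    rwa [mem_sphere_zero_iff_norm] at this
  have hιd : ∀ y y' : S4, dist y y' = ‖ι y - ι y'‖ := fun y y' => by
    rw [← dist_eq_norm]
    rfl
  have hfι : ContinuousOn (fun x => ι (f x)) P := hι.comp_continuousOn hf
  have hLι : LipschitzOnWith L (fun x => ι (f x)) P₀ := by
    refine LipschitzOnWith.of_dist_le_mul fun x hx y hy => ?_
    have h3 := hL.dist_le_mul x hx y hy
    rw [hιd, ← dist_eq_norm] at h3
    exact h3
  -- the distance
  have hE : IsCompact (f '' P) := hP.image_of_continuousOn hf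
  obtain ⟨r, hr0, hr⟩ := Metric.exists_pos_forall_lt_edist hE hK.isClosed (by
    rw [Set.disjoint_left]
    rintro _ ⟨x, hx, rfl⟩
    exact hoff x hx)
  have hr' : ∀ x ∈ f '' P, ∀ y ∈ K, (r : ℝ) < dist x y := by
    intro x hx y hy
    have h2 := hr x hx y hy
    rw [edist_nndist] at h2
    have h3 : r < nndist x y := by exact_mod_cast h2
    exact_mod_cast h3
  obtain ⟨ρ, hρ0, hρ1, hρr⟩ : ∃ ρ : ℝ, 0 < ρ ∧ ρ ≤ 1 / 4 ∧ 2 * ρ ≤ r := by
    have hr0' : (0 : ℝ) < r := by exact_mod_cast hr0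
    exact ⟨min (1 / 4) (r / 2), lt_min (by norm_num) (by linarith), min_le_left _ _,
      by have := min_le_right (1 / 4) ((r : ℝ) / 2); linarith⟩
  obtain ⟨v, k, hk, hv, hva, hv0⟩ := vec_rel hP hP₀ hfι hLι hρ0
  -- the linear homotopy
  let w : ℝ × X → E5 := fun z => ι (f z.2) + z.1 • (v z.2 - ι (f z.2))
  have hwf : ∀ u ∈ Icc (0 : ℝ) 1, ∀ x ∈ P, ‖w (u, x) - ι (f x)‖ ≤ ρ := by
    intro u hu x hx
    have h2 : w (u, x) - ι (f x) = u • (v x - ι (f x)) := by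
      show ι (f x) + u • (v x - ι (f x)) - ι (f x) = _
      abel
    rw [h2, norm_smul, Real.norm_eq_abs, abs_of_nonneg hu.1]
    calc u * ‖v x - ι (f x)‖ ≤ 1 * ‖v x - ι (f x)‖ :=
          mul_le_mul_of_nonneg_right hu.2 (norm_nonneg _)
      _ ≤ ρ := by rw [one_mul]; exact hva x hx
  have hwn : ∀ u ∈ Icc (0 : ℝ) 1, ∀ x ∈ P, |‖w (u, x)‖ - 1| ≤ ρ := by
    intro u hu x hx
    rw [← hιn (f x)]
    exact (abs_norm_sub_norm_le _ _).trans (hwf u hu x hx)
  have hwp : ∀ u ∈ Icc (0 : ℝ) 1, ∀ x ∈ P, 3 / 4 ≤ ‖w (u, x)‖ := by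
    intro u hu x hx
    have := abs_le.1 (hwn u hu x hx)
    linarith [this.1]
  have hw0 : ∀ u ∈ Icc (0 : ℝ) 1, ∀ x ∈ P, w (u, x) ≠ 0 := by
    intro u hu x hx h2
    have := hwp u hu x hx
    rw [h2, norm_zero] at this
    linarith
  have hpt : ∀ x : E5, x ≠ 0 → ‖x‖⁻¹ • x ∈ Metric.sphere (0 : E5) 1 := by
    intro x hx
    rw [mem_sphere_zero_iff_norm, norm_smul, norm_inv, norm_norm]
    exact inv_mul_cancel₀ (norm_ne_zero_iff.2 hx)
  have hch : ∀ z : ℝ × X, ∃ y : S4, w z ≠ 0 → ι y = ‖w z‖⁻¹ • w z := by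
    intro z
    by_cases hz : w z = 0
    · exact ⟨f z.2, fun h2 => absurd hz h2⟩
    · exact ⟨⟨_, hpt _ hz⟩, fun _ => rfl⟩
  choose H hH using hch
  have hH1 : ∀ z : ℝ × X, w z = ι (f z.2) → H z = f z.2 := by
    intro z hz
    have h2 : w z ≠ 0 := by
      rw [hz, ← norm_ne_zero_iff, hιn]
      exact one_ne_zero
    have h3 := hH z h2
    rw [hz, hιn, inv_one, one_smul] at h3
    exact Subtype.ext h3
  have hwc : ContinuousOn w (Icc (0 : ℝ) 1 ×ˢ P) := by
    have a1 : ContinuousOn (fun z : ℝ × X => ι (f z.2)) (Icc (0 : ℝ) 1 ×ˢ P) :=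
      hfι.comp continuous_snd.continuousOn fun z hz => hz.2
    have a2 : Continuous v := by
      have : LipschitzWith (Real.toNNReal k) v := LipschitzWith.of_dist_le' fun x y => by
        rw [dist_eq_norm]
        exact hv x y
      exact this.continuous
    have a3 : ContinuousOn (fun z : ℝ × X => v z.2) (Icc (0 : ℝ) 1 ×ˢ P) :=
      (a2.comp continuous_snd).continuousOn
    exact a1.add (continuous_fst.continuousOn.smul (a3.sub a1))
  refine ⟨fun x => H (1, x), H, ⟨Real.toNNReal (8 / 3 * k), ?_⟩, ?_, fun x hx => ⟨?_, rfl⟩, ?_, ?_⟩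
  · refine LipschitzOnWith.of_dist_le' fun x hx y hy => ?_
    have h11 : (1 : ℝ) ∈ Icc (0 : ℝ) 1 := ⟨zero_le_one, le_rfl⟩
    have e1 : ∀ x, w (1, x) = v x := fun x => by
      show ι (f x) + (1 : ℝ) • (v x - ι (f x)) = v x
      rw [one_smul]
      abel
    rw [hιd, hH _ (hw0 1 h11 x hx), hH _ (hw0 1 h11 y hy)]
    refine (norm_normalize_sub (hw0 1 h11 x hx) (hw0 1 h11 y hy)).trans ?_
    have h2 := hwp 1 h11 x hx
    have h3 : ‖w (1, x)‖⁻¹ ≤ 4 / 3 := by
      rw [inv_le_comm₀ (by linarith) (by norm_num)]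
      norm_num
      linarith
    have h4 : ‖w (1, x) - w (1, y)‖ ≤ k * dist x y := by
      rw [e1, e1]
      exact hv x y
    calc 2 * ‖w (1, x)‖⁻¹ * ‖w (1, x) - w (1, y)‖ ≤ 2 * (4 / 3) * (k * dist x y) := by
          apply mul_le_mul _ h4 (norm_nonneg _) (by norm_num)
          linarith
      _ = 8 / 3 * k * dist x y := by ring
  · rw [Topology.IsInducing.subtypeVal.continuousOn_iff]
    have h2 : ContinuousOn (fun z => ‖w z‖⁻¹) (Icc (0 : ℝ) 1 ×ˢ P) :=
      hwc.norm.inv₀ fun z hz => norm_ne_zero_iff.2 (hw0 z.1 hz.1 z.2 hz.2)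
    exact (h2.smul hwc).congr fun z hz => hH z (hw0 z.1 hz.1 z.2 hz.2)
  · apply hH1 (0, x)
    show ι (f x) + (0 : ℝ) • (v x - ι (f x)) = ι (f x)
    rw [zero_smul, add_zero]
  · intro u hu x hx hk
    have h2 := hr' _ (mem_image_of_mem f hx) _ hk
    have h3 : dist (f x) (H (u, x)) ≤ ‖w (u, x) - ι (f x)‖ + |‖w (u, x)‖ - 1| := by
      have hne := hw0 u hu x hx
      have h6 : ‖w (u, x)‖ ≠ 0 := norm_ne_zero_iff.2 hne
      have h4 : ‖w (u, x) - ι (H (u, x))‖ = |‖w (u, x)‖ - 1| := by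
        rw [hH _ hne]
        have h5 : w (u, x) - ‖w (u, x)‖⁻¹ • w (u, x) = (1 - ‖w (u, x)‖⁻¹) • w (u, x) := by
          rw [sub_smul, one_smul]
        rw [h5, norm_smul, Real.norm_eq_abs]
        rw [← abs_of_nonneg (norm_nonneg (w (u, x))), ← abs_mul, abs_norm]
        congr 1
        field_simp
      rw [hιd]
      calc ‖ι (f x) - ι (H (u, x))‖ = ‖(ι (f x) - w (u, x)) + (w (u, x) - ι (H (u, x)))‖ := by
            congr 1
            abel
        _ ≤ ‖ι (f x) - w (u, x)‖ + ‖w (u, x) - ι (H (u, x))‖ := norm_add_le _ _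
        _ = ‖w (u, x) - ι (f x)‖ + |‖w (u, x)‖ - 1| := by rw [h4, norm_sub_rev]
    have h7 := hwf u hu x hx
    have h8 := hwn u hu x hx
    linarith
  · intro u _ x hx
    apply hH1 (u, x)
    show ι (f x) + u • (v x - ι (f x)) = ι (f x)
    rw [hv0 x hx, sub_self, smul_zero, add_zero]

theorem m_DIM : StDIM := by
  intro g P hP ⟨L, hL⟩
  have hc : IsCompact (g '' P) := hP.image_of_continuousOn hL.continuousOn
  refine ⟨hc, ?_⟩
  by_contra hne
  obtain ⟨y, hy⟩ := nonempty_iff_ne_empty.2 hne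
  let ι : S4 → E5 := fun y => y.1
  have hιn : ∀ y : S4, ‖ι y‖ = 1 := fun y => by
    have := y.2
    rwa [mem_sphere_zero_iff_norm] at this
  have hιd : ∀ y y' : S4, dist y y' = ‖ι y - ι y'‖ := fun y y' => by
    rw [← dist_eq_norm]
    rfl
  obtain ⟨O, hO, hOe⟩ := isOpen_induced_iff.1 (isOpen_interior (s := g '' P))
  let Φ : ℝ × ℝ × ℝ × ℝ → E5 := fun a => a.1 • ι (g a.2)
  have hΦ : LipschitzOnWith (Real.toNNReal (1 + 2 * L)) Φ (Icc (0 : ℝ) 2 ×ˢ P) := by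
    refine LipschitzOnWith.of_dist_le' fun x hx y hy => ?_
    rw [dist_eq_norm]
    have e : Φ x - Φ y = (x.1 - y.1) • ι (g x.2) + y.1 • (ι (g x.2) - ι (g y.2)) := by
      show x.1 • ι (g x.2) - y.1 • ι (g y.2) = _
      rw [sub_smul, smul_sub]
      abel
    rw [e]
    refine (norm_add_le _ _).trans ?_
    rw [norm_smul, norm_smul, hιn, mul_one, ← hιd, Real.norm_eq_abs, Real.norm_eq_abs,
      abs_of_nonneg hy.1.1]
    have h1 : |x.1 - y.1| ≤ dist x y := by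
      rw [← Real.dist_eq]
      exact (le_max_left _ _)
    have h2 : dist (g x.2) (g y.2) ≤ L * dist x y := by
      refine (hL.dist_le_mul x.2 hx.2 y.2 hy.2).trans ?_
      exact mul_le_mul_of_nonneg_left (le_max_right _ _) L.2
    have h3 : y.1 * dist (g x.2) (g y.2) ≤ 2 * (L * dist x y) :=
      mul_le_mul hy.1.2 h2 dist_nonneg (by norm_num)
    linarith
  have hdim : dimH (Φ '' (Icc (0 : ℝ) 2 ×ˢ P)) < (finrank ℝ E5 : ENNReal) := by
    refine lt_of_le_of_lt hΦ.dimH_image_le ?_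
    refine lt_of_le_of_lt (dimH_mono (subset_univ _)) ?_
    rw [Real.dimH_univ_eq_finrank]
    simp [Module.finrank_prod]
    norm_num
  have hdense : Dense (Φ '' (Icc (0 : ℝ) 2 ×ˢ P))ᶜ := dense_compl_of_dimH_lt_finrank hdim
  have hV : IsOpen (({x : E5 | x ≠ 0} ∩ (fun x : E5 => ‖x‖⁻¹ • x) ⁻¹' O) ∩
      Metric.ball 0 2) := by
    refine IsOpen.inter (ContinuousOn.isOpen_inter_preimage ?_ isOpen_ne hO) Metric.isOpen_ball
    have h2 : ContinuousOn (fun x : E5 => ‖x‖⁻¹) {x : E5 | x ≠ 0} :=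
      continuous_norm.continuousOn.inv₀ fun x hx => norm_ne_zero_iff.2 hx
    exact h2.smul continuousOn_id
  have hyV : ι y ∈ ({x : E5 | x ≠ 0} ∩ (fun x : E5 => ‖x‖⁻¹ • x) ⁻¹' O) ∩ Metric.ball 0 2 := by
    refine ⟨⟨?_, ?_⟩, ?_⟩
    · show ι y ≠ 0
      rw [← norm_ne_zero_iff, hιn]
      exact one_ne_zero
    · show ‖ι y‖⁻¹ • ι y ∈ O
      rw [hιn, inv_one, one_smul]
      have : y ∈ Subtype.val ⁻¹' O := by rw [hOe]; exact hy
      exact this
    · rw [mem_ball_zero_iff, hιn]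
      norm_num
  obtain ⟨x, ⟨⟨hx0, hxO⟩, hxb⟩, hxΦ⟩ := hdense.inter_open_nonempty _ hV ⟨_, hyV⟩
  apply hxΦ
  have hpt : ‖x‖⁻¹ • x ∈ Metric.sphere (0 : E5) 1 := by
    rw [mem_sphere_zero_iff_norm, norm_smul, norm_inv, norm_norm]
    exact inv_mul_cancel₀ (norm_ne_zero_iff.2 hx0)
  have hx1 : (⟨_, hpt⟩ : S4) ∈ interior (g '' P) := by
    rw [← hOe]
    exact hxO
  obtain ⟨z, hz, he⟩ := interior_subset hx1
  have he' : ι (g z) = ‖x‖⁻¹ • x := by rw [he]
  refine ⟨(‖x‖, z), ⟨⟨norm_nonneg _, ?_⟩, hz⟩, ?_⟩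
  · rw [mem_ball_zero_iff] at hxb
    exact hxb.le
  · show ‖x‖ • ι (g z) = x
    rw [he', smul_smul, mul_inv_cancel₀ (norm_ne_zero_iff.2 hx0), one_smul]

end Pool.Agent.Helper34.BI.R


end
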