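import Pool.Agent.Helper18.BI.R.FinDefs
import Pool.Agent.Helper18.BI.R.FinDefs2
import Pool.Agent.Helper18.BI.R.FinDefs3
import Pool.Agent.Helper65.Barb.Defs
import Pool.Agent.Helper70.BI.FinDefs
import Pool.Agent.Helper70.BI.B.P37
import Pool.Agent.Helper70.BI.B.P46
import Pool.Agent.Helper70.BI.B.P47
import Pool.Agent.Helper70.BI.B.P48
import Pool.Agent.Helper70.BI.B.P49
import Pool.Agent.Helper70.BI.B.P50
import Pool.Agent.Helper70.BI.B.P51

/-!
# Project BI (MP_8e98f2_gt): collected modules, part 52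

The contents of the modules
* Helper18.BI.H.AsmF3
* Helper18.BI.R.AsmR4
* Helper18.BI.R.AsmR5
* Helper18.BI.R.AsmR6
* Helper18.BI.R.AsmR7

in one file, so that the whole proof builds in a short time.
-/

/-! ## Helper18.BI.H.AsmF3 -/

section

/-!
# Project BI, stage 3 (H): assembly
-/

set_option autoImplicit false

open Pool.Agent.Helper18.BI Pool.Agent.Helper65.Barb
open Pool.Agent.Helper70.BI (hMain2 hW4 hX2c hEI hR3real hMWL exists_isW')

namespace Pool.Agent.Helper18.BI.H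

theorem hSML : Pool.Agent.Helper70.H.StSML :=
  Pool.Agent.Helper70.H.m_SML Pool.Agent.Helper70.BI.hPT

theorem hGLL : Pool.Agent.Helper70.H.StGLL :=
  Pool.Agent.Helper70.H.m_GLL hSML Pool.Agent.Helper70.BI.hGL

theorem hLOCL : Pool.Agent.Helper70.H.StLOCL := Pool.Agent.Helper70.H.m_LOCL hSML hGLL

theorem hNORM : Pool.Agent.Helper27.H.StNORM :=
  Pool.Agent.Helper70.H.m_NORM
    (Pool.Agent.Helper70.H.m_NCT (Pool.Agent.Helper70.H.m_CEN hLOCL) Pool.Agent.Helper70.BI.hCL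
      Pool.Agent.Helper70.BI.hFam Pool.Agent.Helper70.BI.hDET hA1)
    (Pool.Agent.Helper70.H.m_SLD Pool.Agent.Helper70.BI.hRM hA1) Pool.Agent.Helper70.BI.hFam hMain2

/-- the homotopy theorem for loops of arcs -/
theorem hArcH : Pool.Agent.Helper27.H.StArcH :=
  Pool.Agent.Helper27.H.hArcH_of Pool.Agent.Helper34.BI.H.hCROSS Pool.Agent.Helper27.H.m_CUM hNORM

theorem hHMain : StHMain :=
  m_HMain m_STR Pool.Agent.Helper34.BI.H.m_BAR m_TOP m_SM hHATn hArcH hMain2 hT2 hCI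

/-- **the main theorem of stage 3** -/
theorem hFinal3 : StFinal3 := by
  obtain ⟨W, hW⟩ := exists_isW'
  have hHC : StHC := m_HC hHMain hMWL
  have hNULC : StNULC := m_NULC hHC m_NUL hT2 hCI Pool.Agent.Helper27.BI.hR2sw
  exact m_F3 hW4 hHC hNULC Pool.Agent.Helper34.BI.H.m_SMH hR3real hA1 hS4 hT2 hT4 hX1 hX2c hX3 hEI
    hCI hW

end Pool.Agent.Helper18.BI.H


end

/-! ## Helper18.BI.R.AsmR4 -/

section

/-!
# Project BI, stage 4 (R): assembly
-/

set_option autoImplicit false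

open Pool.Agent.Helper18.BI Pool.Agent.Helper65.Barb
open Pool.Agent.Helper70.BI (hMain2 hW4 hX2c hEI hR3real hMWL exists_isW')
open Pool.Agent.Helper18.BI.H (hArcH hHMain hNORM hHATn)

namespace Pool.Agent.Helper18.BI.R

theorem hHCL : StHCL :=
  m_HCL Pool.Agent.Helper27.R.hMULT Pool.Agent.Helper27.R.hINV Pool.Agent.Helper34.BI.R.m_SMG
    Pool.Agent.Helper27.H.hCls hArcH hCI

theorem hFREE : StFREE := m_FREE Pool.Agent.Helper34.BI.H.m_BAR hMain2 m_TOPG hT2

theorem hREL4 : StREL4 :=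
  m_REL4 m_STR2 m_MOVE hFREE hHATn m_BAS m_NRB hHCL hMWL hT2 hCI

theorem hREP : StREP :=
  m_REP Pool.Agent.Helper34.BI.R.m_LIP Pool.Agent.Helper34.BI.R.m_DIM m_MQ m_EVM

theorem hRelS : StRelS :=
  m_RELS hREL4 hREP (m_WRD m_MQ) m_EVM hW4 hEI hX2c hR3real hA1 hS4 hX1 hX3 hT2 hCI

theorem hPAR4 : StPAR4 := Pool.Agent.Helper27.R.hPAR4_of hNORM hHMain

/-- **the main theorem of stage 4** -/
theorem hFinal4 : StFinal4 := by
  obtain ⟨W, hW⟩ := exists_isW'
  exact m_FIN4 (m_PARS hPAR4 hEI hX2c hX1 hX3 hT4 hS4 hCI) hRelS hT4 hT2 hCI hW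

end Pool.Agent.Helper18.BI.R


end

/-! ## Helper18.BI.R.AsmR5 -/

section

/-!
# Project BI, stage 4 (R): assembly of the final theorem
-/

set_option autoImplicit false

open Pool.Agent.Helper18.BI Pool.Agent.Helper65.Barb
open Pool.Agent.Helper70.BI (hMain2 hW4 hX2c hEI hR3real hMWL exists_isW')
open Pool.Agent.Helper18.BI.H (hArcH hHMain hNORM hHATn m_HC m_NULC m_NUL StNULC)

namespace Pool.Agent.Helper18.BI.R

theorem hEXC : StEXC := m_EXC m_HEP m_MQ

theorem hNULC : StNULC :=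
  m_NULC (m_HC hHMain hMWL) m_NUL hT2 hCI Pool.Agent.Helper27.BI.hR2sw

/-- the main theorem of stage 4, final form, from the statement on unknotted spheres -/
theorem hFinal5_of (hUNK : StUNK) : StFinal5 := by
  obtain ⟨W, hW⟩ := exists_isW'
  exact m_FIN5 (m_PARS hPAR4 hEI hX2c hX1 hX3 hT4 hS4 hCI) hRelS
    (m_NULS hNULC Pool.Agent.Helper34.BI.H.m_SMH hS4 hT2 hT4 hX1 hX2c hX3 hEI hCI) hEXC hUNK
    Pool.Agent.Helper27.BI.hR2sw hT4 hT2 hCI hW

end Pool.Agent.Helper18.BI.R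


end

/-! ## Helper18.BI.R.AsmR6 -/

section

/-!
# Project BI, stage 4 (R): the final theorem, unconditional
-/

set_option autoImplicit false

namespace Pool.Agent.Helper18.BI.R

theorem hUNK : StUNK := m_UNK Pool.Agent.Helper70.BI.hLOC

theorem hFinal5 : StFinal5 := hFinal5_of hUNK

end Pool.Agent.Helper18.BI.R


end

/-! ## Helper18.BI.R.AsmR7 -/

section

/-!
# Project BI, stage 4 (R): the final theorem in the vocabulary of FinDefs3
-/

set_option autoImplicit false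

open scoped Manifold ContDiff
open Pool.Agent.Helper65.Barb
open Pool.Agent.Helper70.Fin (Emb coreSphere flatBall)
open Pool.Agent.Helper18.FinR (Pi2 FreeClass)
open Pool.Agent.Helper18.FinS

namespace Pool.Agent.Helper18.BI.R

theorem impl_iff (B : Emb) (φ : S4 → S4) :
    FinS.IsImplantation B φ ↔ Helper70.Fin.IsImplantation B φ := by
  constructor
  · rintro ⟨hB, β, hβ, h1, h2⟩
    refine ⟨hB, β, hβ, ?_⟩
    funext y
    unfold implantation
    split_ifs with hy
    · obtain ⟨p, hp, rfl⟩ := hy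
      have hs : B.toPartialEquiv.symm (B p) = p := B.toPartialEquiv.left_inv (hB hp)
      rw [hs]
      exact h1 p hp
    · exact h2 y hy
  · rintro ⟨hB, β, hβ, rfl⟩
    refine ⟨hB, β, hβ, ?_, ?_⟩
    · intro p hp
      have hs : B.toPartialEquiv.symm (B p) = p := B.toPartialEquiv.left_inv (hB hp)
      show implantation B β (B p) = B (β p)
      unfold implantation
      rw [if_pos ⟨p, hp, rfl⟩, hs]
    · intro y hy
      unfold implantation
      exact if_neg hy

theorem elementary_of {B : Emb} (h : FinS.Elementary B) : FinR.Elementary B := by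
  induction h with
  | unknotted B h1 h2 => exact FinR.Elementary.unknotted B h1 h2
  | exchange B B' _ h2 h3 ih =>
    obtain ⟨U, hU, hs, he⟩ := h3
    exact FinR.Elementary.exchange B B' U ih h2 hU hs he
  | sum B y₀ n C w z h1 h2 _ h4 h5 h6 h7 ih =>
    exact FinR.Elementary.sum B y₀ n C w z h1 h2 ih h4 h5 h6 h7

/-- the main theorem of stage 4, in the vocabulary of FinDefs3 -/
theorem hFinal7 :
    ∃ (W : S4 → S4) (B₀ : Emb), FinS.IsImplantation B₀ W ∧ FinS.BoundsDisjointBalls B₀ ∧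
      Isotopic (fun x => W (W x)) (fun x => x) ∧ FinS.IsCentral W ∧
      (∀ (B : Emb) (y₀ : Off B), IsBarbell B → IsBase B y₀ →
        (∀ B' : Emb, IsBarbell B' → FinS.SameFixed B B' → ∃ z, IsClass B y₀ B' z) ∧
        ∃ Φ : Pi2 (fixedCuff B) y₀ → S4 → S4,
          (∀ z ∈ gen (FinS.MovedClasses B y₀), ∀ z' ∈ gen (FinS.MovedClasses B y₀),
            FinS.UpTo W (Φ (z * z')) (fun x => Φ z (Φ z' x))) ∧
          (∀ (B' : Emb) (φ : S4 → S4) (z : Pi2 (fixedCuff B) y₀), FinS.IsImplantation B' φ →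
            FinS.SameFixed B B' → IsClass B y₀ B' z → FinS.UpTo W φ (Φ z)) ∧
          ∀ z ∈ gen (FinS.ElementaryClasses B y₀), FinS.UpTo W (Φ z) (fun x => x)) ∧
      ∀ (B : Emb) (φ : S4 → S4), FinS.Elementary B → FinS.IsImplantation B φ →
        FinS.UpTo W φ (fun x => x) := by
  obtain ⟨W, B₀, h1, h2, h3, h4, h5, h6⟩ := hFinal5
  refine ⟨W, B₀, (impl_iff B₀ W).2 h1, h2, h3, h4, ?_, ?_⟩
  · intro B y₀ hB hy
    obtain ⟨k1, Φ, k2, k3, k4⟩ := h5 B y₀ hB hy
    refine ⟨k1, Φ, k2, ?_, ?_⟩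
    · intro B' φ z hφ hs hz
      exact k3 B' φ z ((impl_iff B' φ).1 hφ) hs hz
    · intro z hz
      refine k4 z (Subgroup.closure_mono ?_ hz)
      rintro v (⟨B', hE, hs, hc⟩ | hv)
      · exact Or.inl ⟨B', elementary_of hE, hs, hc⟩
      · exact Or.inr hv
  · intro B φ hE hφ
    exact h6 B φ (elementary_of hE) ((impl_iff B φ).1 hφ)

end Pool.Agent.Helper18.BI.R


end
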